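import Pool.Agent.Helper985.CP.Base

set_option autoImplicit false

open MeasureTheory Set
open scoped Topology Pointwise

namespace Pool.Agent.Helper780_CP

open Pool.Agent.Helper985.CP

/-- volume of the intersection of two balls of radius `r` -/
noncomputable def lens (x y : E3) (r : ℝ) : ℝ :=
  (volume : Measure E3).real (Metric.ball x r ∩ Metric.ball y r)

theorem lens_nonneg (x y : E3) (r : ℝ) : 0 ≤ lens x y r := measureReal_nonneg

theorem lens_fin (x y : E3) (r : ℝ) :
    (volume : Measure E3) (Metric.ball x r ∩ Metric.ball y r) ≠ ⊤ :=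
  ((measure_mono inter_subset_left).trans_lt measure_ball_lt_top).ne

theorem lens_mono (x y : E3) : Monotone (lens x y) := by
  intro r s h
  exact measureReal_mono (inter_subset_inter (Metric.ball_subset_ball h)
    (Metric.ball_subset_ball h)) (lens_fin x y s)

theorem vol_ball3 (x : E3) (r : ℝ) (hr : 0 ≤ r) :
    (volume : Measure E3).real (Metric.ball x r) = 4 / 3 * Real.pi * r ^ 3 := by
  unfold Measure.real
  rw [EuclideanSpace.volume_ball_fin_three, ENNReal.toReal_mul, ENNReal.toReal_pow,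
    ENNReal.toReal_ofReal hr, ENNReal.toReal_ofReal (by positivity)]
  ring

theorem lens_le (x y : E3) (r : ℝ) (hr : 0 ≤ r) : lens x y r ≤ 4 / 3 * Real.pi * r ^ 3 := by
  rw [← vol_ball3 x r hr]
  exact measureReal_mono inter_subset_left measure_ball_lt_top.ne

theorem lens_zero (x y : E3) (r : ℝ) (h : 2 * r ≤ ‖x - y‖) : lens x y r = 0 := by
  unfold lens
  have : Metric.ball x r ∩ Metric.ball y r = ∅ := by
    rw [eq_empty_iff_forall_notMem]
    rintro z ⟨h1, h2⟩
    rw [Metric.mem_ball, dist_eq_norm] at h1 h2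
    have h3 : ‖x - y‖ ≤ ‖z - x‖ + ‖z - y‖ := by
      have : x - y = (z - y) - (z - x) := by abel
      rw [this, add_comm]
      exact norm_sub_le _ _
    linarith
  rw [this]
  simp

theorem lens_shift (x y : E3) (r : ℝ) : lens x y r = lens 0 (y - x) r := by
  unfold lens Measure.real
  congr 1
  have h : Metric.ball x r ∩ Metric.ball y r =
      (fun z => z - x) ⁻¹' (Metric.ball 0 r ∩ Metric.ball (y - x) r) := by
    ext z
    simp only [mem_inter_iff, Metric.mem_ball, dist_eq_norm, mem_preimage, sub_zero,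
      sub_sub_sub_cancel_right]
  rw [h]
  exact (measurePreserving_sub_right volume x).measure_preimage
    (Metric.isOpen_ball.inter Metric.isOpen_ball).measurableSet.nullMeasurableSet

theorem lens_iso (L : E3 ≃ₗᵢ[ℝ] E3) (w : E3) (r : ℝ) : lens 0 (L w) r = lens 0 w r := by
  unfold lens Measure.real
  congr 1
  have h : Metric.ball 0 r ∩ Metric.ball w r =
      L ⁻¹' (Metric.ball 0 r ∩ Metric.ball (L w) r) := by
    ext z
    simp only [mem_inter_iff, Metric.mem_ball, dist_eq_norm, mem_preimage, sub_zero]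
    rw [← map_sub, L.norm_map, L.norm_map]
  rw [h]
  exact (L.measurePreserving.measure_preimage
    (Metric.isOpen_ball.inter Metric.isOpen_ball).measurableSet.nullMeasurableSet).symm

theorem lens_scale (w : E3) (l r : ℝ) (hl : 0 < l) :
    lens 0 (l • w) (l * r) = l ^ 3 * lens 0 w r := by
  unfold lens Measure.real
  have h : Metric.ball (0 : E3) (l * r) ∩ Metric.ball (l • w) (l * r) =
      l • (Metric.ball 0 r ∩ Metric.ball w r) := by
    rw [smul_set_inter₀ hl.ne', _root_.smul_ball hl.ne', _root_.smul_ball hl.ne', smul_zero,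
      Real.norm_of_nonneg hl.le]
  rw [h, Measure.addHaar_smul_of_nonneg _ hl.le, ENNReal.toReal_mul,
    ENNReal.toReal_ofReal (by positivity)]
  simp

/-- the integral of Fefferman and de la Llave -/
noncomputable def fI (w : E3) : ℝ := ∫ r in Ioi (0 : ℝ), (r ^ 5)⁻¹ * lens 0 w r

theorem sq_int (c : ℝ) (hc : 0 < c) : IntegrableOn (fun r : ℝ => (r ^ 2)⁻¹) (Ioi c) ∧
    ∫ r in Ioi c, (r ^ 2)⁻¹ = c⁻¹ := by
  have h1 := integrableOn_Ioi_rpow_of_lt (a := -2) (by norm_num) hc
  have h2 := integral_Ioi_rpow_of_lt (a := -2) (by norm_num) hc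
  have e : ∀ r ∈ Ioi c, r ^ (-2 : ℝ) = (r ^ 2)⁻¹ := by
    intro r hr
    have : (0 : ℝ) < r := hc.trans hr
    rw [Real.rpow_neg this.le]
    norm_num
  refine ⟨h1.congr_fun e measurableSet_Ioi, ?_⟩
  rw [← setIntegral_congr_fun measurableSet_Ioi e, h2]
  norm_num
  rw [Real.rpow_neg_one]

theorem lens_int (x y : E3) (h : x ≠ y) :
    IntegrableOn (fun r : ℝ => (r ^ 5)⁻¹ * lens x y r) (Ioi 0) := by
  have hd : 0 < ‖x - y‖ / 2 := by
    have : 0 < ‖x - y‖ := norm_pos_iff.2 (sub_ne_zero.2 h)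
    linarith
  obtain ⟨h1, -⟩ := sq_int (‖x - y‖ / 2) hd
  have h2 : IntegrableOn (fun r : ℝ => (Ioi (‖x - y‖ / 2)).indicator
      (fun r : ℝ => 4 / 3 * Real.pi * (r ^ 2)⁻¹) r) (Ioi 0) := by
    refine Integrable.integrableOn ?_
    rw [integrable_indicator_iff measurableSet_Ioi]
    exact h1.const_mul _
  refine Integrable.mono h2 ?_ ?_
  · have hm : Measurable (fun r : ℝ => (r ^ 5)⁻¹ * lens x y r) :=
      (by fun_prop : Measurable fun r : ℝ => (r ^ 5)⁻¹).mul (lens_mono x y).measurable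
    exact hm.aestronglyMeasurable
  · filter_upwards [ae_restrict_mem measurableSet_Ioi] with r hr
    have hr0 : (0 : ℝ) < r := hr
    have hnn : 0 ≤ (r ^ 5)⁻¹ * lens x y r := mul_nonneg (by positivity) (lens_nonneg x y r)
    rw [Real.norm_of_nonneg hnn]
    by_cases hr2 : ‖x - y‖ / 2 < r
    · rw [indicator_of_mem (show r ∈ Ioi (‖x - y‖ / 2) from hr2)]
      refine le_trans ?_ (le_abs_self _)
      calc (r ^ 5)⁻¹ * lens x y r ≤ (r ^ 5)⁻¹ * (4 / 3 * Real.pi * r ^ 3) :=
            mul_le_mul_of_nonneg_left (lens_le x y r hr0.le) (by positivity)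
        _ = 4 / 3 * Real.pi * (r ^ 2)⁻¹ := by field_simp
    · rw [indicator_of_notMem (show r ∉ Ioi (‖x - y‖ / 2) from hr2), norm_zero,
        lens_zero x y r (by linarith [not_lt.1 hr2]), mul_zero]

theorem fI_scale (w : E3) (l : ℝ) (hl : 0 < l) : fI (l • w) = l⁻¹ * fI w := by
  have h := integral_comp_mul_left_Ioi (fun r : ℝ => (r ^ 5)⁻¹ * lens 0 (l • w) r) 0 hl
  rw [mul_zero] at h
  have e : ∀ r : ℝ, ((l * r) ^ 5)⁻¹ * lens 0 (l • w) (l * r) =
      (l ^ 2)⁻¹ * ((r ^ 5)⁻¹ * lens 0 w r) := by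
    intro r
    rw [lens_scale w l r hl]
    field_simp
  simp only [e] at h
  rw [integral_const_mul, smul_eq_mul] at h
  unfold fI
  have h2 : ∫ r in Ioi (0 : ℝ), (r ^ 5)⁻¹ * lens 0 (l • w) r =
      l * ((l ^ 2)⁻¹ * ∫ r in Ioi (0 : ℝ), (r ^ 5)⁻¹ * lens 0 w r) := by
    rw [h]
    field_simp
  rw [h2]
  field_simp

theorem fI_norm (w w' : E3) (h : ‖w‖ = ‖w'‖) : fI w = fI w' := by
  have h1 : (Submodule.reflection (Submodule.span ℝ {w - w'})ᗮ) w = w' :=
    Submodule.reflection_sub h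
  unfold fI
  have e : ∀ r, lens 0 w' r = lens 0 w r := by
    intro r
    rw [← h1]
    exact lens_iso _ w r
  simp only [e]

theorem fI_pos (w : E3) (hw : ‖w‖ = 1) : 0 < fI w := by
  have hne : (0 : E3) ≠ w := by
    intro h
    rw [← h, norm_zero] at hw
    exact zero_ne_one hw
  have hint := lens_int 0 w hne
  unfold fI
  rw [setIntegral_pos_iff_support_of_nonneg_ae]
  · have hsub : Ioi (1 : ℝ) ⊆ Function.support (fun r : ℝ => (r ^ 5)⁻¹ * lens 0 w r) ∩
        Ioi 0 := by
      intro r hr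
      have hr1 : (1 : ℝ) < r := hr
      have hr0 : (0 : ℝ) < r := by linarith
      refine ⟨?_, hr0⟩
      rw [Function.mem_support]
      have hl : 0 < lens 0 w r := by
        unfold lens
        show 0 < ((volume : Measure E3) (Metric.ball 0 r ∩ Metric.ball w r)).toReal
        rw [ENNReal.toReal_pos_iff]
        refine ⟨?_, (lens_fin 0 w r).lt_top⟩
        apply (Metric.isOpen_ball.inter Metric.isOpen_ball).measure_pos (volume : Measure E3)
        refine ⟨0, Metric.mem_ball_self hr0, ?_⟩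
        rw [Metric.mem_ball, dist_eq_norm, zero_sub, norm_neg, hw]
        exact hr1
      positivity
    exact lt_of_lt_of_le (by simp) (measure_mono hsub)
  · filter_upwards [ae_restrict_mem measurableSet_Ioi] with r hr
    have hr0 : (0 : ℝ) < r := hr
    exact mul_nonneg (by positivity) (lens_nonneg 0 w r)
  · exact hint

/-- The representation of the Coulomb potential by balls (Fefferman, de la Llave). -/
theorem fdl : ∃ c : ℝ, 0 < c ∧ ∀ x y : E3, x ≠ y →
    ∫ r in Ioi (0 : ℝ), (r ^ 5)⁻¹ * lens x y r = c / ‖x - y‖ := by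
  refine ⟨fI (EuclideanSpace.single 0 1), fI_pos _ (by simp), ?_⟩
  intro x y h
  have hd : 0 < ‖y - x‖ := norm_pos_iff.2 (sub_ne_zero.2 h.symm)
  have h1 : ∫ r in Ioi (0 : ℝ), (r ^ 5)⁻¹ * lens x y r = fI (y - x) := by
    unfold fI
    simp only [lens_shift x y]
  have h2 : y - x = ‖y - x‖ • (‖y - x‖⁻¹ • (y - x)) := by
    rw [smul_smul, mul_inv_cancel₀ hd.ne', one_smul]
  rw [h1, h2, fI_scale _ _ hd, fI_norm _ (EuclideanSpace.single 0 1)]
  · rw [norm_sub_rev x y]
    field_simp
  · rw [norm_smul, norm_inv, norm_norm, inv_mul_cancel₀ hd.ne']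
    simp

end Pool.Agent.Helper780_CP
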