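import Pool.Agent.Helper780_CP.Scales
import Pool.Agent.Helper985.CT.M_row_bound

set_option autoImplicit false

open MeasureTheory
open scoped Topology

namespace Pool.Agent.Helper780_CP

open Pool.Agent.Helper985.CP

/-- the inverse square cut off at distance one -/
noncomputable def kk (z : E3) : ℝ := (Metric.ball (0 : E3) 1).indicator (fun z => ‖z‖⁻¹ ^ 2) z

theorem kk_int : Integrable kk := by
  unfold kk
  refine (integrable_indicator_iff Metric.isOpen_ball.measurableSet).2 ?_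
  exact (locInt_inv2.integrableOn_isCompact (isCompact_closedBall 0 1)).mono_set
    Metric.ball_subset_closedBall

theorem kk_nonneg (z : E3) : 0 ≤ kk z := Set.indicator_nonneg (fun _ _ => by positivity) z

theorem kk_meas : Measurable kk := by
  unfold kk
  exact (by fun_prop : Measurable (fun z : E3 => ‖z‖⁻¹ ^ 2)).indicator
    Metric.isOpen_ball.measurableSet

theorem near2_le_kk {I : Type} [Fintype I] (y : E3) (x : I → E3) :
    near2 y x ≤ 1 + ∑ i, kk (x i - y) := by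
  have hnn : 0 ≤ ∑ i, kk (x i - y) := Finset.sum_nonneg fun i _ => kk_nonneg _
  unfold near2
  refine Real.iSup_le (fun i => ?_) (by linarith)
  by_cases h : ‖x i - y‖ < 1
  · have h1 : kk (x i - y) = ‖x i - y‖⁻¹ ^ 2 := by
      unfold kk
      rw [Set.indicator_of_mem]
      simpa using h
    have h2 := Finset.single_le_sum (f := fun i => kk (x i - y)) (fun j _ => kk_nonneg _)
      (Finset.mem_univ i)
    rw [h1] at h2
    linarith
  · rw [not_lt] at h
    have h1 : ‖x i - y‖⁻¹ ≤ 1 := inv_le_one_of_one_le₀ h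
    have h2 : ‖x i - y‖⁻¹ ^ 2 ≤ 1 := pow_le_one₀ (by positivity) h1
    linarith

theorem near2_meas2 {I : Type} [Fintype I] :
    Measurable (fun q : (I → E3) × E3 => near2 q.2 q.1) := by
  unfold near2
  refine Measurable.iSup fun i => ?_
  have h1 : Measurable (fun q : (I → E3) × E3 => q.1 i) :=
    (measurable_pi_apply i).comp measurable_fst
  have h2 : Measurable (fun q : (I → E3) × E3 => ‖q.1 i - q.2‖) := (h1.sub measurable_snd).norm
  exact (h2.inv).pow_const 2

theorem kk_prod {I : Type} [Fintype I] (f : (I → E3) → ℝ) (hf : Integrable f)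
    (hfm : Measurable f) (i : I) :
    Integrable (fun q : (I → E3) × E3 => kk (q.1 i - q.2) * f q.1)
      ((volume : Measure (I → E3)).prod (volume : Measure E3)) := by
  have h1 : Measurable (fun q : (I → E3) × E3 => kk (q.1 i - q.2) * f q.1) :=
    (kk_meas.comp (((measurable_pi_apply i).comp measurable_fst).sub measurable_snd)).mul
      (hfm.comp measurable_fst)
  refine (integrable_prod_iff h1.aestronglyMeasurable).2 ⟨?_, ?_⟩
  · refine Filter.Eventually.of_forall fun x => ?_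
    exact (kk_int.comp_sub_left (x i)).mul_const (f x)
  · have h2 : ∀ x : I → E3, ∫ y, ‖kk (x i - y) * f x‖ = (∫ z, kk z) * ‖f x‖ := by
      intro x
      have : ∀ y, ‖kk (x i - y) * f x‖ = kk (x i - y) * ‖f x‖ := by
        intro y
        rw [norm_mul, Real.norm_of_nonneg (kk_nonneg _)]
      simp only [this]
      rw [integral_mul_const, integral_sub_left_eq_self (fun z => kk z) volume (x i)]
    simp only [h2]
    exact hf.norm.const_mul _

/-- The mean of the inverse square distance to the nearest particle. -/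
theorem cost_avg {S : Type} (D : Species S) {I : Type} [Fintype I] [DecidableEq I] (sp : I → S)
    (ℓ : ℝ) (hℓ : 0 < ℓ) (Ψ : Wave D I) (hΨ : IsState D sp ℓ Ψ) :
    Integrable (fun y : E3 => (cube ℓ).indicator (fun _ => (1 : ℝ)) y * wm D (near2 y) Ψ) ∧
    ∫ y : E3, (cube ℓ).indicator (fun _ => (1 : ℝ)) y * wm D (near2 y) Ψ ≤
      (ℓ ^ 3 + (∫ z, kk z) * (Fintype.card I : ℝ)) * nrm2 D Ψ := by
  obtain ⟨c, hc⟩ : ∃ c : E3 → ℝ, c = (cube ℓ).indicator (fun _ => (1 : ℝ)) := ⟨_, rfl⟩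
  have hcm : Measurable c := by rw [hc]; exact measurable_const.indicator (rb_ip_XX_meas ℓ)
  have hc0 : ∀ y, 0 ≤ c y := by
    intro y; rw [hc]; exact Set.indicator_nonneg (fun _ _ => zero_le_one) y
  have hc1 : ∀ y, c y ≤ 1 := by
    intro y; rw [hc]; exact Set.indicator_le_self' (fun _ _ => zero_le_one) y
  have hci : Integrable c := by
    rw [hc]
    refine (integrable_indicator_iff (rb_ip_XX_meas ℓ)).2 ?_
    refine integrableOn_const ?_
    rw [rb_ip_XX_vol ℓ hℓ]
    exact ENNReal.ofReal_ne_top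
  have hcint : ∫ y, c y = ℓ ^ 3 := by
    rw [hc, integral_indicator (rb_ip_XX_meas ℓ)]
    rw [setIntegral_const, Measure.real, rb_ip_XX_vol ℓ hℓ,
      ENNReal.toReal_ofReal (by positivity)]
    simp
  have hΨm : ∀ τ, Measurable (fun x => ‖Ψ τ x‖ ^ 2) := fun τ =>
    ((hΨ.smooth τ).continuous.measurable.norm).pow_const 2
  have hΨi : ∀ τ, Integrable (fun x => ‖Ψ τ x‖ ^ 2) := fun τ => (int_state D sp ℓ Ψ hΨ τ).1
  have hdom : ∀ τ, Integrable (fun q : (I → E3) × E3 => c q.2 * ‖Ψ τ q.1‖ ^ 2 +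
      ∑ i, kk (q.1 i - q.2) * ‖Ψ τ q.1‖ ^ 2)
      ((volume : Measure (I → E3)).prod (volume : Measure E3)) := by
    intro τ
    refine Integrable.add ?_ (integrable_finsetSum _ fun i _ => kk_prod _ (hΨi τ) (hΨm τ) i)
    have h1 := (hΨi τ).mul_prod hci
    refine h1.congr (Filter.Eventually.of_forall fun q => ?_)
    show ‖Ψ τ q.1‖ ^ 2 * c q.2 = _
    ring
  have hpt : ∀ τ (q : (I → E3) × E3), c q.2 * (near2 q.2 q.1 * ‖Ψ τ q.1‖ ^ 2) ≤
      c q.2 * ‖Ψ τ q.1‖ ^ 2 + ∑ i, kk (q.1 i - q.2) * ‖Ψ τ q.1‖ ^ 2 := by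
    intro τ q
    have h1 := near2_le_kk q.2 q.1
    have h2 : 0 ≤ ∑ i, kk (q.1 i - q.2) := Finset.sum_nonneg fun i _ => kk_nonneg _
    have h3 : 0 ≤ ‖Ψ τ q.1‖ ^ 2 := by positivity
    rw [← Finset.sum_mul]
    have h4 : c q.2 * near2 q.2 q.1 ≤ c q.2 + ∑ i, kk (q.1 i - q.2) := by
      calc c q.2 * near2 q.2 q.1 ≤ c q.2 * (1 + ∑ i, kk (q.1 i - q.2)) :=
            mul_le_mul_of_nonneg_left h1 (hc0 _)
        _ = c q.2 + c q.2 * ∑ i, kk (q.1 i - q.2) := by ring
        _ ≤ c q.2 + 1 * ∑ i, kk (q.1 i - q.2) := by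
            have := mul_le_mul_of_nonneg_right (hc1 q.2) h2
            linarith
        _ = _ := by ring
    calc c q.2 * (near2 q.2 q.1 * ‖Ψ τ q.1‖ ^ 2) = (c q.2 * near2 q.2 q.1) * ‖Ψ τ q.1‖ ^ 2 := by
          ring
      _ ≤ (c q.2 + ∑ i, kk (q.1 i - q.2)) * ‖Ψ τ q.1‖ ^ 2 := mul_le_mul_of_nonneg_right h4 h3
      _ = _ := by ring
  have hF : ∀ τ, Integrable (fun q : (I → E3) × E3 => c q.2 * (near2 q.2 q.1 * ‖Ψ τ q.1‖ ^ 2))
      ((volume : Measure (I → E3)).prod (volume : Measure E3)) := by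
    intro τ
    refine (hdom τ).mono' ?_ (Filter.Eventually.of_forall fun q => ?_)
    · exact ((hcm.comp measurable_snd).mul (near2_meas2.mul
        ((hΨm τ).comp measurable_fst))).aestronglyMeasurable
    · rw [Real.norm_of_nonneg (mul_nonneg (hc0 _) (mul_nonneg (near2_nonneg _ _)
        (by positivity)))]
      exact hpt τ q
  have e1 : ∀ y, c y * wm D (near2 y) Ψ = ∑ τ, ∫ x : I → E3, c y * (near2 y x * ‖Ψ τ x‖ ^ 2) := by
    intro y
    unfold wm
    rw [Finset.mul_sum]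
    refine Finset.sum_congr rfl fun τ _ => ?_
    rw [integral_const_mul]
  rw [← hc]
  simp only [e1]
  refine ⟨integrable_finsetSum _ fun τ _ => (hF τ).integral_prod_right, ?_⟩
  rw [integral_finsetSum _ fun τ _ => (hF τ).integral_prod_right]
  unfold nrm2
  rw [Finset.mul_sum]
  refine Finset.sum_le_sum fun τ _ => ?_
  rw [← integral_integral_swap (f := fun (x : I → E3) (y : E3) =>
    c y * (near2 y x * ‖Ψ τ x‖ ^ 2)) (hF τ), ← integral_const_mul]
  refine integral_mono (hF τ).integral_prod_left ((hΨi τ).const_mul _) fun x => ?_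
  have h5 : Integrable (fun y => c y * ‖Ψ τ x‖ ^ 2 + ∑ i, kk (x i - y) * ‖Ψ τ x‖ ^ 2) :=
    (hci.mul_const _).add (integrable_finsetSum _ fun i _ =>
      (kk_int.comp_sub_left (x i)).mul_const _)
  have h6 : ∫ y, c y * (near2 y x * ‖Ψ τ x‖ ^ 2) ≤
      ∫ y, (c y * ‖Ψ τ x‖ ^ 2 + ∑ i, kk (x i - y) * ‖Ψ τ x‖ ^ 2) := by
    refine integral_mono_of_nonneg (Filter.Eventually.of_forall fun y => ?_) h5
      (Filter.Eventually.of_forall fun y => hpt τ (x, y))
    exact mul_nonneg (hc0 _) (mul_nonneg (near2_nonneg _ _) (by positivity))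
  refine h6.trans (le_of_eq ?_)
  rw [integral_add (hci.mul_const _) (integrable_finsetSum _ fun i _ =>
      (kk_int.comp_sub_left (x i)).mul_const _), integral_mul_const, hcint,
    integral_finsetSum _ fun i _ => (kk_int.comp_sub_left (x i)).mul_const _]
  simp only [integral_mul_const, integral_sub_left_eq_self (fun z => kk z) volume]
  rw [Finset.sum_const, Finset.card_univ, nsmul_eq_mul]
  ring

/-- few points are close to a particle on average -/
theorem cost_markov {S : Type} (D : Species S) {I : Type} [Fintype I] [DecidableEq I] (sp : I → S)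
    (ℓ : ℝ) (hℓ : 0 < ℓ) (Ψ : Wave D I) (hΨ : IsState D sp ℓ Ψ) (K : ℝ) (hK : 0 < K) :
    volume {y : E3 | y ∈ cube ℓ ∧ K ≤ wm D (near2 y) Ψ} ≤
      ENNReal.ofReal ((ℓ ^ 3 + (∫ z, kk z) * (Fintype.card I : ℝ)) * nrm2 D Ψ / K) := by
  obtain ⟨h1, h2⟩ := cost_avg D sp ℓ hℓ Ψ hΨ
  have hwn0 : ∀ y, 0 ≤ wm D (near2 y) Ψ := by
    intro y
    unfold wm
    exact Finset.sum_nonneg fun τ _ => integral_nonneg fun x =>
      mul_nonneg (near2_nonneg y x) (sq_nonneg _)
  have h3 : 0 ≤ᵐ[volume] (fun y : E3 => (cube ℓ).indicator (fun _ => (1 : ℝ)) y *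
      wm D (near2 y) Ψ) := Filter.Eventually.of_forall fun y =>
    mul_nonneg (Set.indicator_nonneg (fun _ _ => zero_le_one) y) (hwn0 y)
  have h4 := mul_meas_ge_le_integral_of_nonneg h3 h1 K
  have hsub : {y : E3 | y ∈ cube ℓ ∧ K ≤ wm D (near2 y) Ψ} ⊆
      {y : E3 | K ≤ (cube ℓ).indicator (fun _ => (1 : ℝ)) y * wm D (near2 y) Ψ} := by
    rintro y ⟨hy, hKy⟩
    show K ≤ (cube ℓ).indicator (fun _ => (1 : ℝ)) y * wm D (near2 y) Ψ
    rw [Set.indicator_of_mem hy, one_mul]
    exact hKy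
  refine (measure_mono hsub).trans ?_
  have hfin : volume {y : E3 | K ≤ (cube ℓ).indicator (fun _ => (1 : ℝ)) y *
      wm D (near2 y) Ψ} ≠ ⊤ := by
    have hsub2 : {y : E3 | K ≤ (cube ℓ).indicator (fun _ => (1 : ℝ)) y *
      wm D (near2 y) Ψ} ⊆ cube ℓ := by
      intro y hy
      by_contra hcon
      have hy2 : K ≤ (cube ℓ).indicator (fun _ => (1 : ℝ)) y * wm D (near2 y) Ψ := hy
      rw [Set.indicator_of_notMem hcon, zero_mul] at hy2
      linarith
    refine ne_top_of_le_ne_top ?_ (measure_mono hsub2)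
    rw [rb_ip_XX_vol ℓ hℓ]
    exact ENNReal.ofReal_ne_top
  rw [← ENNReal.ofReal_toReal hfin]
  refine ENNReal.ofReal_le_ofReal ?_
  rw [le_div_iff₀ hK]
  calc (volume {y : E3 | K ≤ (cube ℓ).indicator (fun _ => (1 : ℝ)) y *
      wm D (near2 y) Ψ}).toReal * K = K * (volume {y : E3 | K ≤ (cube ℓ).indicator
      (fun _ => (1 : ℝ)) y * wm D (near2 y) Ψ}).toReal := mul_comm _ _
    _ ≤ _ := h4
    _ ≤ _ := h2

end Pool.Agent.Helper780_CP
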