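import Pool.Agent.Helper780_CP.Avg

set_option autoImplicit false

open MeasureTheory
open scoped Topology

namespace Pool.Agent.Helper780_CP

open Pool.Agent.Helper985.CP

theorem wmn_nonneg {S : Type} (D : Species S) {I : Type} [Fintype I] [DecidableEq I]
    (Ψ : Wave D I) (y : E3) : 0 ≤ wm D (near2 y) Ψ := by
  unfold wm
  exact Finset.sum_nonneg fun τ _ => integral_nonneg fun x =>
    mul_nonneg (near2_nonneg y x) (sq_nonneg _)

/-- few points are close to a particle on average, for mixtures -/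
theorem cost_markovT {S : Type} (D : Species S) {I : Type} [Fintype I] [DecidableEq I]
    (sp : I → S) (ℓ : ℝ) (hℓ : 0 < ℓ) {k : ℕ} (ψ : Fin k → Wave D I)
    (hψ : ∀ j, IsState D sp ℓ (ψ j)) (hn : ∀ j, nrm2 D (ψ j) = 1) (p : Fin k → ℝ)
    (hp : ∀ j, 0 ≤ p j) (hp1 : ∑ j, p j = 1) (K : ℝ) (hK : 0 < K) :
    volume {y : E3 | y ∈ cube ℓ ∧ K ≤ ∑ j, p j * wm D (near2 y) (ψ j)} ≤
      ENNReal.ofReal ((ℓ ^ 3 + (∫ z, kk z) * (Fintype.card I : ℝ)) / K) := by
  have hav := fun j => cost_avg D sp ℓ hℓ (ψ j) (hψ j)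
  obtain ⟨f, hf⟩ : ∃ f : E3 → ℝ, f = fun y => ∑ j, p j *
      ((cube ℓ).indicator (fun _ => (1 : ℝ)) y * wm D (near2 y) (ψ j)) := ⟨_, rfl⟩
  have hfi : Integrable f := by
    rw [hf]
    exact integrable_finsetSum _ fun j _ => (hav j).1.const_mul _
  have hint : ∫ y, f y ≤ ℓ ^ 3 + (∫ z, kk z) * (Fintype.card I : ℝ) := by
    rw [hf, integral_finsetSum _ fun j _ => (hav j).1.const_mul _]
    calc ∑ j, ∫ y, p j * ((cube ℓ).indicator (fun _ => (1 : ℝ)) y * wm D (near2 y) (ψ j))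
        ≤ ∑ j, p j * (ℓ ^ 3 + (∫ z, kk z) * (Fintype.card I : ℝ)) := by
          refine Finset.sum_le_sum fun j _ => ?_
          rw [integral_const_mul]
          refine mul_le_mul_of_nonneg_left ?_ (hp j)
          have := (hav j).2
          rw [hn j, mul_one] at this
          exact this
      _ = _ := by rw [← Finset.sum_mul, hp1, one_mul]
  have hf0 : ∀ y, 0 ≤ f y := by
    intro y
    rw [hf]
    exact Finset.sum_nonneg fun j _ => mul_nonneg (hp j)
      (mul_nonneg (Set.indicator_nonneg (fun _ _ => zero_le_one) y) (wmn_nonneg D (ψ j) y))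
  have h4 := mul_meas_ge_le_integral_of_nonneg (Filter.Eventually.of_forall hf0) hfi K
  have hfin1 : ∀ y ∈ cube ℓ, f y = ∑ j, p j * wm D (near2 y) (ψ j) := by
    intro y hy
    rw [hf]
    simp only [Set.indicator_of_mem hy, one_mul]
  have hsub : {y : E3 | y ∈ cube ℓ ∧ K ≤ ∑ j, p j * wm D (near2 y) (ψ j)} ⊆
      {y : E3 | K ≤ f y} := by
    rintro y ⟨hy, hKy⟩
    show K ≤ f y
    rw [hfin1 y hy]
    exact hKy
  refine (measure_mono hsub).trans ?_
  have hfin : volume {y : E3 | K ≤ f y} ≠ ⊤ := by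
    have hsub2 : {y : E3 | K ≤ f y} ⊆ cube ℓ := by
      intro y hy
      by_contra hcon
      have hy2 : K ≤ f y := hy
      rw [hf] at hy2
      simp only [Set.indicator_of_notMem hcon, zero_mul, mul_zero, Finset.sum_const_zero] at hy2
      linarith
    refine ne_top_of_le_ne_top ?_ (measure_mono hsub2)
    rw [rb_ip_XX_vol ℓ hℓ]
    exact ENNReal.ofReal_ne_top
  rw [← ENNReal.ofReal_toReal hfin]
  refine ENNReal.ofReal_le_ofReal ?_
  rw [le_div_iff₀ hK]
  calc (volume {y : E3 | K ≤ f y}).toReal * K = K * (volume {y : E3 | K ≤ f y}).toReal :=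
        mul_comm _ _
    _ ≤ _ := h4
    _ ≤ _ := hint

end Pool.Agent.Helper780_CP
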