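import Pool.Agent.Helper780_CP.Move0
import Pool.Agent.Helper985.CP.M_energies_basic

set_option autoImplicit false

open MeasureTheory
open scoped Topology

namespace Pool.Agent.Helper780_CP

open Pool.Agent.Helper985.CP

/-- some species is abundant -/
theorem exists_abundant {S : Type} [Fintype S] [DecidableEq S] {I : Type} [Fintype I]
    [Nonempty I] (sp : I → S) :
    ∃ i0 : I, (Fintype.card I : ℝ) ≤ (Fintype.card S : ℝ) * (cnt sp (sp i0) : ℝ) := by
  classical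
  obtain ⟨i0, hi0⟩ := Finite.exists_max (fun i => cnt sp (sp i))
  refine ⟨i0, ?_⟩
  have h4 : Fintype.card I = ∑ s, cnt sp s := by
    unfold cnt
    exact Finset.card_eq_sum_card_fiberwise (fun _ _ => Finset.mem_univ _)
  have h5 : ∀ s, cnt sp s ≤ cnt sp (sp i0) := by
    intro s
    by_cases h : ∃ i, sp i = s
    · obtain ⟨i, hi⟩ := h
      rw [← hi]
      exact hi0 i
    · push Not at h
      have : cnt sp s = 0 := by
        unfold cnt
        rw [Finset.card_eq_zero, Finset.filter_eq_empty_iff]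
        intro i _
        exact h i
      omega
  have h6 : Fintype.card I ≤ Fintype.card S * cnt sp (sp i0) := by
    rw [h4]
    calc ∑ s, cnt sp s ≤ ∑ s : S, cnt sp (sp i0) := Finset.sum_le_sum fun s _ => h5 s
      _ = Fintype.card S * cnt sp (sp i0) := by
        rw [Finset.sum_const, Finset.card_univ, smul_eq_mul]
  exact_mod_cast h6

/-- abstract averaging step -/
theorem flat_core {S : Type} [Fintype S] [DecidableEq S] {I : Type} [Fintype I]
    [DecidableEq I] (sp : I → S) (i0 : I)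
    (hi0 : (Fintype.card I : ℝ) ≤ (Fintype.card S : ℝ) * (cnt sp (sp i0) : ℝ)) (c : S → ℝ)
    (hneu : ∑ i, c (sp i) = 0) (q : I → ℝ) (hq : ∀ i, sp i = sp i0 → q i = q i0) (Φ K A : ℝ)
    (hqs : -A * (Fintype.card I : ℝ) ≤ ∑ i, q i) (h : ∀ i, q i ≤ c (sp i) * Φ + K)
    (hK : 0 ≤ K) (hKA : 0 ≤ K + A) :
    |c (sp i0) * Φ - q i0| ≤ K + (Fintype.card S : ℝ) * (K + A) := by
  have hcnt : (0 : ℝ) < (cnt sp (sp i0) : ℝ) := by
    have : 0 < cnt sp (sp i0) := by
      unfold cnt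
      exact Finset.card_pos.2 ⟨i0, by simp⟩
    exact_mod_cast this
  have h0 := h i0
  have hsum : ∑ i, (c (sp i) * Φ + K - q i) ≤ (K + A) * (Fintype.card I : ℝ) := by
    rw [Finset.sum_sub_distrib, Finset.sum_add_distrib, ← Finset.sum_mul, hneu,
      Finset.sum_const, Finset.card_univ, nsmul_eq_mul]
    linarith
  have hpart : (cnt sp (sp i0) : ℝ) * (c (sp i0) * Φ + K - q i0) ≤
      ∑ i, (c (sp i) * Φ + K - q i) := by
    have h1 : (cnt sp (sp i0) : ℝ) * (c (sp i0) * Φ + K - q i0) =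
        ∑ i ∈ Finset.univ.filter (fun i => sp i = sp i0), (c (sp i) * Φ + K - q i) := by
      unfold cnt
      rw [← nsmul_eq_mul, ← Finset.sum_const]
      refine Finset.sum_congr rfl fun i hi => ?_
      rw [Finset.mem_filter] at hi
      rw [hi.2, hq i hi.2]
    rw [h1]
    refine Finset.sum_le_sum_of_subset_of_nonneg (Finset.filter_subset _ _) fun i _ _ => ?_
    have := h i
    linarith
  have hS : c (sp i0) * Φ + K - q i0 ≤ (Fintype.card S : ℝ) * (K + A) := by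
    have h2 : (cnt sp (sp i0) : ℝ) * (c (sp i0) * Φ + K - q i0) ≤
        (cnt sp (sp i0) : ℝ) * ((Fintype.card S : ℝ) * (K + A)) := by
      refine hpart.trans (hsum.trans ?_)
      calc (K + A) * (Fintype.card I : ℝ) ≤ (K + A) * ((Fintype.card S : ℝ) *
            (cnt sp (sp i0) : ℝ)) := mul_le_mul_of_nonneg_left hi0 hKA
        _ = (cnt sp (sp i0) : ℝ) * ((Fintype.card S : ℝ) * (K + A)) := by ring
    exact le_of_mul_le_mul_left h2 hcnt
  have hnn : 0 ≤ (Fintype.card S : ℝ) * (K + A) := mul_nonneg (Nat.cast_nonneg _) hKA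
  have hK0 : q i0 - c (sp i0) * Φ ≤ K := by linarith
  rw [abs_le]
  constructor
  · linarith
  · linarith

/-- Flatness of the mean potential in states close to the ground state. -/
theorem flat0 {S : Type} [Fintype S] [DecidableEq S] (D : Species S) (hD : D.Valid)
    (hst : HStable D) (δ : ℝ) (hδ : 0 < δ) :
    ∃ C : ℝ, 0 < C ∧ ∀ {I : Type} [Fintype I] [DecidableEq I] (sp : I → S) (ℓ : ℝ), 0 < ℓ →
      (∑ i, D.charge (sp i) = 0) → ∀ Ψ : Wave D I, IsState D sp ℓ Ψ → nrm2 D Ψ = 1 →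
      energy D sp Ψ ≤ sInf (energies D sp ℓ) + 1 →
      ∃ U : ℝ, ∀ y, Metric.closedBall y δ ⊆ cube ℓ →
        |phim D sp Ψ y - U| ≤ C * (1 + wm D (near2 y) Ψ) := by
  obtain ⟨C, hC, H⟩ := move0 D hD δ hδ
  obtain ⟨A, hA⟩ := id hst
  have hAA : ∀ {J : Type} [Fintype J] [DecidableEq J] (sp' : J → S) (ℓ : ℝ), 0 < ℓ →
      ∀ (Ψ : Wave D J), IsState D sp' ℓ Ψ →
      -|A| * (Fintype.card J : ℝ) * nrm2 D Ψ ≤ energy D sp' Ψ := by
    intro J _ _ sp' ℓ hℓ Ψ hΨ
    refine le_trans ?_ (stable_any D A hA sp' ℓ hℓ Ψ hΨ)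
    have := nrm2_nn D Ψ
    have h2 := le_abs_self A
    have h3 : (0 : ℝ) ≤ (Fintype.card J : ℝ) * nrm2 D Ψ := by positivity
    nlinarith
  obtain ⟨cm, hcm⟩ : ∃ cm, cm = ∑ s, |D.charge s|⁻¹ := ⟨_, rfl⟩
  have hcm1 : ∀ s, |D.charge s|⁻¹ ≤ cm := by
    intro s
    rw [hcm]
    exact Finset.single_le_sum (f := fun s => |D.charge s|⁻¹) (fun t _ => by positivity)
      (Finset.mem_univ s)
  have hcm0 : 0 ≤ cm := by rw [hcm]; exact Finset.sum_nonneg fun t _ => by positivity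
  refine ⟨cm * ((1 + C) + (Fintype.card S : ℝ) * (1 + C + 4 * |A|)) + 1, by positivity, ?_⟩
  intro I _ _ sp ℓ hℓ hneu Ψ hΨ hn1 hgap
  rcases isEmpty_or_nonempty I with hI | hI
  · refine ⟨0, fun y _ => ?_⟩
    have h1 : phim D sp Ψ y = 0 := by
      unfold phim mean
      simp
    have h2 : 0 ≤ wm D (near2 y) Ψ := by
      unfold wm
      exact Finset.sum_nonneg fun τ _ => integral_nonneg fun x =>
        mul_nonneg (near2_nonneg y x) (sq_nonneg _)
    rw [h1]
    simp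
    positivity
  obtain ⟨i0, hi0⟩ := exists_abundant sp
  obtain ⟨-, -, hE, -⟩ := energies_basic D hD hst sp ℓ hℓ
  refine ⟨pe D sp i0 Ψ / D.charge (sp i0), fun y hy => ?_⟩
  have hw0 : 0 ≤ wm D (near2 y) Ψ := by
    unfold wm
    exact Finset.sum_nonneg fun τ _ => integral_nonneg fun x =>
      mul_nonneg (near2_nonneg y x) (sq_nonneg _)
  have hmove : ∀ i, pe D sp i Ψ ≤ D.charge (sp i) * phim D sp Ψ y +
      (1 + C * (1 + wm D (near2 y) Ψ)) := by
    intro i
    have h1 := H sp ℓ y hy (sInf (energies D sp ℓ)) _ hE i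
      (rest_lower D sp ℓ |A| (fun sp' Φ hΦ => hAA sp' ℓ hℓ Φ hΦ) i) Ψ hΨ
    rw [hn1] at h1
    linarith
  have hstab : -(4 * |A|) * (Fintype.card I : ℝ) ≤ ∑ i, pe D sp i Ψ := by
    have := sum_pe D |A| sp (fun ℓ hℓ Φ hΦ => hAA sp ℓ hℓ Φ hΦ) ℓ hℓ Ψ hΨ
    rw [hn1, mul_one] at this
    exact this
  have hcore := flat_core sp i0 hi0 D.charge hneu (fun i => pe D sp i Ψ)
    (fun i hi => (pe_symm D sp ℓ Ψ hΨ i i0 hi).1) (phim D sp Ψ y)
    (1 + C * (1 + wm D (near2 y) Ψ)) (4 * |A|) hstab hmove (by positivity) (by positivity)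
  have hc := hD.charge_ne (sp i0)
  have e1 : phim D sp Ψ y - pe D sp i0 Ψ / D.charge (sp i0) =
      (D.charge (sp i0))⁻¹ * (D.charge (sp i0) * phim D sp Ψ y - pe D sp i0 Ψ) := by
    field_simp
  rw [e1, abs_mul, abs_inv]
  have hS0 : (0 : ℝ) ≤ (Fintype.card S : ℝ) := Nat.cast_nonneg _
  calc |D.charge (sp i0)|⁻¹ * |D.charge (sp i0) * phim D sp Ψ y - pe D sp i0 Ψ|
      ≤ cm * ((1 + C * (1 + wm D (near2 y) Ψ)) + (Fintype.card S : ℝ) *
        ((1 + C * (1 + wm D (near2 y) Ψ)) + 4 * |A|)) :=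
        mul_le_mul (hcm1 _) hcore (abs_nonneg _) hcm0
    _ ≤ cm * (((1 + C) + (Fintype.card S : ℝ) * (1 + C + 4 * |A|)) *
        (1 + wm D (near2 y) Ψ)) := by
        refine mul_le_mul_of_nonneg_left ?_ hcm0
        have a1 : (1 + C * (1 + wm D (near2 y) Ψ)) ≤ (1 + C) * (1 + wm D (near2 y) Ψ) := by
          nlinarith
        have a2 : (1 + C * (1 + wm D (near2 y) Ψ)) + 4 * |A| ≤
            (1 + C + 4 * |A|) * (1 + wm D (near2 y) Ψ) := by
          nlinarith [abs_nonneg A]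
        have a3 := mul_le_mul_of_nonneg_left a2 hS0
        nlinarith
    _ ≤ (cm * ((1 + C) + (Fintype.card S : ℝ) * (1 + C + 4 * |A|)) + 1) *
        (1 + wm D (near2 y) Ψ) := by
        nlinarith

end Pool.Agent.Helper780_CP
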