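import Pool.Agent.Helper780_CP.InsC
import Pool.Agent.Helper780_CP.Avg
import Pool.Agent.Helper780_CP.Flat0

/-! Definitions for the bound on the level of the potential. -/

set_option autoImplicit false

open MeasureTheory
open scoped Topology

namespace Pool.Agent.Helper780_CP

open Pool.Agent.Helper985.CP

/-- potential of a charge density -/
noncomputable def VV (f : E3 → ℝ) (x : E3) : ℝ := ∫ y, f y / ‖x - y‖

/-- the Coulomb form -/
noncomputable def DD (f g : E3 → ℝ) : ℝ := ∫ x, f x * VV g x

/-- convolution -/
noncomputable def cv (j f : E3 → ℝ) (x : E3) : ℝ := ∫ z, j z * f (x - z)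

/-- normalised indicator of a ball around the origin -/
noncomputable def bi (r : ℝ) (z : E3) : ℝ :=
  (Metric.ball (0 : E3) r).indicator (fun _ => (volume.real (Metric.ball (0 : E3) r))⁻¹) z

/-- the pair kernel of the insertion cost -/
noncomputable def kd (w : E3) : ℝ := (Metric.ball (0 : E3) 3).indicator (fun z => ‖z‖⁻¹ ^ 2) w

/-- interaction and cost of the pairs of inserted points -/
noncomputable def prs {S : Type} (D : Species S) (C : ℝ) : List (S × E3) → ℝ
  | [] => 0
  | p :: L => (L.map (fun q => D.charge p.1 * D.charge q.1 / ‖p.2 - q.2‖ +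
      C * kd (p.2 - q.2))).sum + prs D C L

/-- mean of the short range kernel -/
noncomputable def kkm {S : Type} (D : Species S) {I : Type} [Fintype I] [DecidableEq I]
    (Ψ : Wave D I) (y : E3) : ℝ := wm D (fun x => ∑ i, kk (x i - y)) Ψ

/-- translated wave function -/
noncomputable def trW {S : Type} (D : Species S) {I : Type} (v : E3) (Ψ : Wave D I) : Wave D I :=
  fun τ x => Ψ τ (fun i => x i - v)

/-- the vector with all coordinates `t` -/
noncomputable def dv (t : ℝ) : E3 := WithLp.toLp 2 (fun _ => t)

end Pool.Agent.Helper780_CP
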