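import Mathlib

set_option autoImplicit false

namespace Pool.Agent.Helper780_CP

/-- Electrostatics in one ball: charges `u i` with `|u i| ≤ z`. -/
theorem ball_ineq {I : Type} [Fintype I] [DecidableEq I] (u : I → ℝ) (z : ℝ)
    (hz : ∀ i, |u i| ≤ z) :
    -(9 / 4 * z) * (if ∃ j, 0 < u j then ∑ i, max (-u i) 0 else 0) ≤
      (∑ i, u i) ^ 2 - ∑ i, u i ^ 2 := by
  classical
  set P := ∑ i, max (u i) 0 with hP
  set k := ∑ i, max (-u i) 0 with hk
  have hsum : ∑ i, u i = P - k := by
    rw [hP, hk, ← Finset.sum_sub_distrib]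
    refine Finset.sum_congr rfl fun i _ => ?_
    rcases le_total 0 (u i) with h | h
    · rw [max_eq_left h, max_eq_right (by linarith)]; ring
    · rw [max_eq_right h, max_eq_left (by linarith)]; ring
  have hsq : ∑ i, u i ^ 2 = ∑ i, max (u i) 0 ^ 2 + ∑ i, max (-u i) 0 ^ 2 := by
    rw [← Finset.sum_add_distrib]
    refine Finset.sum_congr rfl fun i _ => ?_
    rcases le_total 0 (u i) with h | h
    · rw [max_eq_left h, max_eq_right (by linarith)]; ring
    · rw [max_eq_right h, max_eq_left (by linarith)]; ring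
  have hP0 : 0 ≤ P := Finset.sum_nonneg fun i _ => le_max_right _ _
  have hk0 : 0 ≤ k := Finset.sum_nonneg fun i _ => le_max_right _ _
  have hneg : ∑ i, max (-u i) 0 ^ 2 ≤ k ^ 2 :=
    Finset.sum_sq_le_sq_sum_of_nonneg (fun i _ => le_max_right _ _)
  have hneg2 : ∑ i, max (-u i) 0 ^ 2 ≤ z * k := by
    rw [hk, Finset.mul_sum]
    refine Finset.sum_le_sum fun i _ => ?_
    have h1 : max (-u i) 0 ≤ z := by
      have := hz i
      have h2 := abs_le.1 this
      exact max_le (by linarith) (by linarith [abs_nonneg (u i)])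
    have h0 : 0 ≤ max (-u i) 0 := le_max_right _ _
    nlinarith
  rw [hsum, hsq]
  by_cases hpos : ∃ j, 0 < u j
  · rw [if_pos hpos]
    obtain ⟨j0, hj0⟩ := hpos
    have : Nonempty I := ⟨j0⟩
    obtain ⟨m, hm⟩ := Finite.exists_max (fun i => max (u i) 0)
    set M := max (u m) 0 with hM
    have hM0 : 0 ≤ M := le_max_right _ _
    have hMz : M ≤ z := by
      have := abs_le.1 (hz m)
      exact max_le (by linarith) (by linarith [abs_nonneg (u m), hz m])
    have hz0 : 0 ≤ z := hM0.trans hMz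
    have hp2 : ∑ i, max (u i) 0 ^ 2 ≤ M * P := by
      rw [hP, Finset.mul_sum]
      refine Finset.sum_le_sum fun i _ => ?_
      have h0 : 0 ≤ max (u i) 0 := le_max_right _ _
      nlinarith [hm i]
    have hp3 : ∑ i, max (u i) 0 ^ 2 ≤ M ^ 2 + (P - M) ^ 2 := by
      have e1 : P = M + ∑ i ∈ Finset.univ.erase m, max (u i) 0 := by
        rw [hP, ← Finset.add_sum_erase _ _ (Finset.mem_univ m)]
      have e2 : ∑ i, max (u i) 0 ^ 2 = M ^ 2 + ∑ i ∈ Finset.univ.erase m, max (u i) 0 ^ 2 := by
        rw [← Finset.add_sum_erase _ _ (Finset.mem_univ m)]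
      have e3 : ∑ i ∈ Finset.univ.erase m, max (u i) 0 ^ 2 ≤
          (∑ i ∈ Finset.univ.erase m, max (u i) 0) ^ 2 :=
        Finset.sum_sq_le_sq_sum_of_nonneg (fun i _ => le_max_right _ _)
      rw [e2, e1]
      have : M + ∑ i ∈ Finset.univ.erase m, max (u i) 0 - M =
        ∑ i ∈ Finset.univ.erase m, max (u i) 0 := by ring
      rw [this]
      linarith
    have hMP : M ≤ P := by
      rw [hP]
      exact Finset.single_le_sum (f := fun i => max (u i) 0) (fun i _ => le_max_right _ _)
        (Finset.mem_univ m)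
    rcases le_or_gt M k with h | h
    · have a1 : M ^ 2 ≤ z * k := by nlinarith
      have a2 : M * k ≤ z * k := mul_le_mul_of_nonneg_right hMz hk0
      nlinarith [sq_nonneg (P - k - M / 2)]
    · have a2 : M * k ≤ z * k := mul_le_mul_of_nonneg_right hMz hk0
      have a3 : 0 ≤ z * k := mul_nonneg hz0 hk0
      nlinarith [mul_nonneg (sub_nonneg.2 hMP) (sub_nonneg.2 h.le)]
  · rw [if_neg hpos]
    push Not at hpos
    have h1 : ∀ i, max (u i) 0 = 0 := fun i => max_eq_right (hpos i)
    have h2 : P = 0 := by rw [hP]; exact Finset.sum_eq_zero fun i _ => h1 i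
    have h3 : ∑ i, max (u i) 0 ^ 2 = 0 := Finset.sum_eq_zero fun i _ => by rw [h1 i]; norm_num
    rw [h2, h3]
    nlinarith

end Pool.Agent.Helper780_CP
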