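import Pool.Agent.Helper780_CP.LLDefs2
import Pool.Agent.Helper780_CP.Ball
import Pool.Agent.Helper780_CP.Fdl

set_option autoImplicit false

open MeasureTheory

namespace Pool.Agent.Helper780_CP.RC2

open Pool.Agent.Helper780_CP
open Pool.Agent.Helper985.CP

open Set in
theorem ren_ball_lens_fin (x y : E3) (r : ℝ) :
    (volume : Measure E3) (Metric.ball x r ∩ Metric.ball y r) ≠ ⊤ :=
  ((measure_mono inter_subset_left).trans_lt measure_ball_lt_top).ne

theorem ren_ball_vol (x : E3) (r : ℝ) (hr : 0 ≤ r) :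
    (volume : Measure E3).real (Metric.ball x r) = 4 / 3 * Real.pi * r ^ 3 := by
  unfold Measure.real
  rw [EuclideanSpace.volume_ball_fin_three, ENNReal.toReal_mul, ENNReal.toReal_pow,
    ENNReal.toReal_ofReal hr, ENNReal.toReal_ofReal (by positivity)]
  ring

open Set in
theorem ren_ball_sq_int (c : ℝ) (hc : 0 < c) : IntegrableOn (fun r : ℝ => (r ^ 2)⁻¹) (Ioi c) ∧
    ∫ r in Ioi c, (r ^ 2)⁻¹ = c⁻¹ := by
  have h1 := integrableOn_Ioi_rpow_of_lt (a := -2) (by norm_num) hc
  have h2 := integral_Ioi_rpow_of_lt (a := -2) (by norm_num) hc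
  have e : ∀ r ∈ Ioi c, r ^ (-2 : ℝ) = (r ^ 2)⁻¹ := by
    intro r hr
    have : (0 : ℝ) < r := hc.trans hr
    rw [Real.rpow_neg this.le]
    norm_num
  refine ⟨h1.congr_fun e measurableSet_Ioi, ?_⟩
  rw [← setIntegral_congr_fun measurableSet_Ioi e, h2]
  norm_num
  rw [Real.rpow_neg_one]

theorem ren_ball_pv_nonneg {I : Type} (c : I → ℝ) (x : I → E3) (i : I) : 0 ≤ pv c x i := by
  unfold pv
  refine Real.iSup_nonneg fun j => ?_
  split_ifs
  · positivity
  · exact le_rfl

theorem ren_ball_le_pv {I : Type} [Finite I] (c : I → ℝ) (x : I → E3) (i j : I) (h : 0 < c j) :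
    ‖x i - x j‖⁻¹ ≤ pv c x i := by
  have h1 := le_ciSup (f := fun j => (if 0 < c j then ‖x i - x j‖⁻¹ else 0))
    (Set.finite_range _).bddAbove j
  simp only [if_pos h] at h1
  exact h1

open Set in
/-- the radial integral of the ball inequality -/
theorem ren_ball_shell {I : Type} [Fintype I] (c : I → ℝ) (x : I → E3) (i : I)
    (hx : ∀ j, 0 < c j → x i ≠ x j) [∀ r : ℝ, Decidable (∃ j, 0 < c j ∧ ‖x i - x j‖ < 2 * r)] :
    IntegrableOn (fun r : ℝ => if (∃ j, 0 < c j ∧ ‖x i - x j‖ < 2 * r) then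
      (r ^ 2)⁻¹ else 0) (Ioi 0) ∧
    ∫ r in Ioi (0 : ℝ), (if (∃ j, 0 < c j ∧ ‖x i - x j‖ < 2 * r) then
      (r ^ 2)⁻¹ else 0) ≤ 2 * pv c x i := by
  classical
  by_cases hp : ∃ j, 0 < c j
  · obtain ⟨j0, hj0⟩ := hp
    have hne : (Finset.univ.filter (fun j => 0 < c j)).Nonempty :=
      ⟨j0, by simp [hj0]⟩
    obtain ⟨m, hm, hmin⟩ := Finset.exists_min_image _ (fun j => ‖x i - x j‖) hne
    rw [Finset.mem_filter] at hm
    have hd : 0 < ‖x i - x m‖ := norm_pos_iff.2 (sub_ne_zero.2 (hx m hm.2))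
    have hd2 : 0 < ‖x i - x m‖ / 2 := by linarith
    have e : ∀ r : ℝ, (if (∃ j, 0 < c j ∧ ‖x i - x j‖ < 2 * r) then
        (r ^ 2)⁻¹ else 0) = (Ioi (‖x i - x m‖ / 2)).indicator (fun r : ℝ => (r ^ 2)⁻¹) r := by
      intro r
      by_cases hr : ‖x i - x m‖ / 2 < r
      · rw [indicator_of_mem (show r ∈ Ioi (‖x i - x m‖ / 2) from hr), if_pos]
        exact ⟨m, hm.2, by linarith⟩
      · rw [indicator_of_notMem (show r ∉ Ioi (‖x i - x m‖ / 2) from hr), if_neg]
        rintro ⟨j, hj, hlt⟩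
        have := hmin j (by simp [hj])
        linarith
    simp only [e]
    obtain ⟨s1, s2⟩ := ren_ball_sq_int _ hd2
    have hint : Integrable ((Ioi (‖x i - x m‖ / 2)).indicator (fun r : ℝ => (r ^ 2)⁻¹)) :=
      (integrable_indicator_iff measurableSet_Ioi).2 s1
    refine ⟨hint.integrableOn, ?_⟩
    rw [setIntegral_indicator measurableSet_Ioi]
    have hI : Ioi (0 : ℝ) ∩ Ioi (‖x i - x m‖ / 2) = Ioi (‖x i - x m‖ / 2) := by
      rw [inter_eq_right]
      exact Ioi_subset_Ioi hd2.le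
    rw [hI, s2]
    have := ren_ball_le_pv c x i m hm.2
    rw [inv_div, div_eq_mul_inv]
    linarith
  · have e : ∀ r : ℝ, (if (∃ j, 0 < c j ∧ ‖x i - x j‖ < 2 * r) then
        (r ^ 2)⁻¹ else 0) = 0 := by
      intro r
      rw [if_neg]
      rintro ⟨j, hj, -⟩
      exact hp ⟨j, hj⟩
    simp only [e]
    refine ⟨integrableOn_zero, ?_⟩
    have := ren_ball_pv_nonneg c x i
    simp
    exact this

open Classical in
/-- the quantity of one ball with weights -/
noncomputable def ren_ball_G {I : Type} [Fintype I] (K : ℝ) (c a : I → ℝ) (x : I → E3) (r : ℝ) (w : E3) : ℝ :=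
  (∑ i, if ‖x i - w‖ < r then a i else 0) ^ 2 - (∑ i, if ‖x i - w‖ < r then a i ^ 2 else 0) +
    K * (if ∃ j, 0 < c j ∧ ‖x j - w‖ < r then
      ∑ i, (if c i < 0 ∧ ‖x i - w‖ < r then -a i else 0) else 0)

theorem ren_ball_G_nonneg {I : Type} [Fintype I] [DecidableEq I] (z K : ℝ) (hz : 0 ≤ z) (hK : 9 / 4 * z ≤ K)
    (c a : I → ℝ) (ha : ∀ i, |a i| ≤ z) (h1 : ∀ i, 0 < a i → 0 < c i) (h2 : ∀ i, c i < 0 → a i ≤ 0)
    (h3 : ∀ i, ¬ c i < 0 → 0 ≤ a i) (x : I → E3) (r : ℝ) (w : E3) : 0 ≤ ren_ball_G K c a x r w := by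
  classical
  have hb := ball_ineq (fun i => if ‖x i - w‖ < r then a i else 0) z (by
    intro i
    split_ifs
    · exact ha i
    · simpa using hz)
  have e1 : ∑ i, (if ‖x i - w‖ < r then a i else 0) ^ 2 = ∑ i, (if ‖x i - w‖ < r then a i ^ 2 else 0) := by
    refine Finset.sum_congr rfl fun i _ => ?_
    split_ifs <;> simp
  rw [e1] at hb
  unfold ren_ball_G
  have hP : 0 ≤ (if ∃ j, 0 < c j ∧ ‖x j - w‖ < r then
      ∑ i, (if c i < 0 ∧ ‖x i - w‖ < r then -a i else 0) else 0) := by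
    split_ifs
    · refine Finset.sum_nonneg fun i _ => ?_
      split_ifs with h
      · linarith [h2 i h.1]
      · exact le_rfl
    · exact le_rfl
  have hPP : (if ∃ j, 0 < (if ‖x j - w‖ < r then a j else 0) then
      ∑ i, max (-(if ‖x i - w‖ < r then a i else 0)) 0 else 0) ≤
      (if ∃ j, 0 < c j ∧ ‖x j - w‖ < r then
      ∑ i, (if c i < 0 ∧ ‖x i - w‖ < r then -a i else 0) else 0) := by
    by_cases hj : ∃ j, 0 < (if ‖x j - w‖ < r then a j else 0)
    · rw [if_pos hj]
      obtain ⟨j, hj⟩ := hj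
      have hjr : ‖x j - w‖ < r := by
        by_contra hcon
        rw [if_neg hcon] at hj
        exact lt_irrefl _ hj
      rw [if_pos hjr] at hj
      rw [if_pos ⟨j, h1 j hj, hjr⟩]
      refine Finset.sum_le_sum fun i _ => ?_
      by_cases hi : ‖x i - w‖ < r
      · by_cases hc : c i < 0
        · rw [if_pos hi, if_pos ⟨hc, hi⟩]
          exact max_le le_rfl (by linarith [h2 i hc])
        · rw [if_pos hi, if_neg (fun h => hc h.1)]
          exact max_le (by linarith [h3 i hc]) le_rfl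
      · rw [if_neg hi, if_neg (fun h => hi h.2)]
        simp
    · rw [if_neg hj]; exact hP
  have h4 : 9 / 4 * z * (if ∃ j, 0 < (if ‖x j - w‖ < r then a j else 0) then
      ∑ i, max (-(if ‖x i - w‖ < r then a i else 0)) 0 else 0) ≤
      K * (if ∃ j, 0 < c j ∧ ‖x j - w‖ < r then
      ∑ i, (if c i < 0 ∧ ‖x i - w‖ < r then -a i else 0) else 0) :=
    (mul_le_mul_of_nonneg_left hPP (by positivity)).trans (mul_le_mul_of_nonneg_right hK hP)
  linarith

/-- indicator of a ball -/
noncomputable def ren_ball_b {I : Type} (x : I → E3) (r : ℝ) (i : I) : E3 → ℝ :=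
  (Metric.ball (x i) r).indicator (fun _ => 1)

theorem ren_ball_b_eq {I : Type} (x : I → E3) (r : ℝ) (i : I) (w : E3) [Decidable (‖x i - w‖ < r)] :
    ren_ball_b x r i w = if ‖x i - w‖ < r then 1 else 0 := by
  unfold ren_ball_b
  by_cases h : ‖x i - w‖ < r
  · rw [if_pos h]
    refine Set.indicator_of_mem ?_ _
    rw [Metric.mem_ball, dist_eq_norm, norm_sub_rev]; exact h
  · rw [if_neg h]
    refine Set.indicator_of_notMem ?_ _
    rw [Metric.mem_ball, dist_eq_norm, norm_sub_rev]; exact h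

open Classical in
/-- upper bound for the quantity of one ball -/
noncomputable def ren_ball_H {I : Type} [Fintype I] (K : ℝ) (c a : I → ℝ) (x : I → E3) (r : ℝ) (w : E3) : ℝ :=
  (∑ i, ∑ j, (if i = j then 0 else a i * a j * (ren_ball_b x r i w * ren_ball_b x r j w))) +
    K * ∑ i, (if c i < 0 then (if ∃ j, 0 < c j ∧ ‖x i - x j‖ < 2 * r then (-a i) * ren_ball_b x r i w else 0) else 0)

theorem ren_ball_G_le {I : Type} [Fintype I] (K : ℝ) (hK : 0 ≤ K) (c a : I → ℝ)
    (h2 : ∀ i, c i < 0 → a i ≤ 0) (x : I → E3) (r : ℝ) (w : E3) :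
    ren_ball_G K c a x r w ≤ ren_ball_H K c a x r w := by
  classical
  have hb01 : ∀ i, ren_ball_b x r i w = 0 ∨ ren_ball_b x r i w = 1 := by
    intro i
    rw [ren_ball_b_eq]
    split_ifs <;> simp
  have e1 : (∑ i, if ‖x i - w‖ < r then a i else 0) ^ 2 - (∑ i, if ‖x i - w‖ < r then a i ^ 2 else 0) =
      ∑ i, ∑ j, (if i = j then 0 else a i * a j * (ren_ball_b x r i w * ren_ball_b x r j w)) := by
    have e2 : ∀ i, (if ‖x i - w‖ < r then a i else 0) = a i * ren_ball_b x r i w := by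
      intro i
      rw [ren_ball_b_eq]
      split_ifs <;> simp
    have e3 : ∀ i, (if ‖x i - w‖ < r then a i ^ 2 else 0) = (a i * ren_ball_b x r i w) ^ 2 := by
      intro i
      rw [ren_ball_b_eq]
      split_ifs <;> simp
    simp only [e2, e3]
    rw [sq, Finset.sum_mul_sum, ← Finset.sum_sub_distrib]
    refine Finset.sum_congr rfl fun i _ => ?_
    rw [← Finset.add_sum_erase _ _ (Finset.mem_univ i),
      ← Finset.add_sum_erase Finset.univ (fun j => (if i = j then 0 else
        a i * a j * (ren_ball_b x r i w * ren_ball_b x r j w))) (Finset.mem_univ i), if_pos rfl]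
    have e2 : ∑ j ∈ Finset.univ.erase i, (if i = j then 0 else
        a i * a j * (ren_ball_b x r i w * ren_ball_b x r j w)) =
        ∑ j ∈ Finset.univ.erase i, a i * ren_ball_b x r i w * (a j * ren_ball_b x r j w) := by
      refine Finset.sum_congr rfl fun j hj => ?_
      rw [if_neg (Finset.ne_of_mem_erase hj).symm]
      ring
    rw [e2]
    ring
  unfold ren_ball_G ren_ball_H
  rw [e1]
  refine add_le_add le_rfl (mul_le_mul_of_nonneg_left ?_ hK)
  have hnn : ∀ i, 0 ≤ (if c i < 0 then (if ∃ j, 0 < c j ∧ ‖x i - x j‖ < 2 * r then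
      (-a i) * ren_ball_b x r i w else 0) else 0) := by
    intro i
    have hb0 : 0 ≤ ren_ball_b x r i w := by rcases hb01 i with h | h <;> rw [h] <;> norm_num
    split_ifs with h
    · exact mul_nonneg (by linarith [h2 i h]) hb0
    · exact le_rfl
    · exact le_rfl
  by_cases hj : ∃ j, 0 < c j ∧ ‖x j - w‖ < r
  · rw [if_pos hj]
    obtain ⟨j, hj, hjr⟩ := hj
    refine Finset.sum_le_sum fun i _ => ?_
    by_cases hi : c i < 0 ∧ ‖x i - w‖ < r
    · rw [if_pos hi, if_pos hi.1, if_pos, ren_ball_b_eq, if_pos hi.2, mul_one]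
      refine ⟨j, hj, ?_⟩
      have h3 : ‖x i - x j‖ ≤ ‖x i - w‖ + ‖x j - w‖ := by
        have : x i - x j = (x i - w) - (x j - w) := by abel
        rw [this]
        exact norm_sub_le _ _
      linarith [hi.2]
    · rw [if_neg hi]; exact hnn i
  · rw [if_neg hj]; exact Finset.sum_nonneg fun i _ => hnn i

open Classical in
/-- the radial function of the bound -/
noncomputable def ren_ball_Psi {I : Type} [Fintype I] (K : ℝ) (c a : I → ℝ) (x : I → E3) (r : ℝ) : ℝ :=
  (∑ i, ∑ j, (if i = j then 0 else a i * a j * ((r ^ 5)⁻¹ * lens (x i) (x j) r))) +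
    K * ∑ i, (if c i < 0 then (-a i) * (4 / 3 * Real.pi) *
      (if ∃ j, 0 < c j ∧ ‖x i - x j‖ < 2 * r then (r ^ 2)⁻¹ else 0) else 0)

theorem ren_ball_H_int {I : Type} [Fintype I] (K : ℝ) (c a : I → ℝ) (x : I → E3) (r : ℝ) (hr : 0 < r) :
    Integrable (ren_ball_H K c a x r) ∧
      (r ^ 5)⁻¹ * ∫ w, ren_ball_H K c a x r w = ren_ball_Psi K c a x r := by
  classical
  have hbm : ∀ i, MeasurableSet (Metric.ball (x i) r) := fun i => Metric.isOpen_ball.measurableSet
  have hbi : ∀ i, Integrable (ren_ball_b x r i) := by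
    intro i
    refine (integrable_indicator_iff (hbm i)).2 ?_
    exact integrableOn_const (measure_ball_lt_top).ne
  have hbb : ∀ i j, ∀ w, ren_ball_b x r i w * ren_ball_b x r j w =
      (Metric.ball (x i) r ∩ Metric.ball (x j) r).indicator (fun _ => (1 : ℝ)) w := by
    intro i j w
    unfold ren_ball_b
    by_cases h1 : w ∈ Metric.ball (x i) r
    · by_cases h2 : w ∈ Metric.ball (x j) r
      · rw [Set.indicator_of_mem (show w ∈ _ ∩ _ from ⟨h1, h2⟩)]
        simp only [Set.indicator_of_mem h1, Set.indicator_of_mem h2, mul_one]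
      · rw [Set.indicator_of_notMem (s := Metric.ball (x i) r ∩ Metric.ball (x j) r) (fun h => h2 h.2)]
        simp only [Set.indicator_of_notMem h2, mul_zero]
    · rw [Set.indicator_of_notMem (s := Metric.ball (x i) r ∩ Metric.ball (x j) r) (fun h => h1 h.1)]
      simp only [Set.indicator_of_notMem h1, zero_mul]
  have hbbi : ∀ i j, Integrable (fun w => ren_ball_b x r i w * ren_ball_b x r j w) := by
    intro i j
    simp only [hbb]
    refine (integrable_indicator_iff ((hbm i).inter (hbm j))).2 ?_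
    exact integrableOn_const (ren_ball_lens_fin _ _ _)
  have hbbint : ∀ i j, ∫ w, ren_ball_b x r i w * ren_ball_b x r j w = lens (x i) (x j) r := by
    intro i j
    simp only [hbb]
    rw [integral_indicator ((hbm i).inter (hbm j))]
    simp [lens]
  have hbint : ∀ i, ∫ w, ren_ball_b x r i w = 4 / 3 * Real.pi * r ^ 3 := by
    intro i
    rw [← ren_ball_vol (x i) r hr.le]
    show ∫ w, (Metric.ball (x i) r).indicator (fun _ => (1 : ℝ)) w = _
    rw [integral_indicator (hbm i)]
    simp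
  have i1 : ∀ i, Integrable (fun w => (if c i < 0 then
        (if ∃ j, 0 < c j ∧ ‖x i - x j‖ < 2 * r then (-a i) * ren_ball_b x r i w else 0) else 0)) := by
    intro i
    split_ifs
    · exact (hbi i).const_mul _
    · exact integrable_zero _ _ _
    · exact integrable_zero _ _ _
  have i2 : ∀ i j, Integrable (fun w => (if i = j then 0 else a i * a j *
      (ren_ball_b x r i w * ren_ball_b x r j w))) := by
    intro i j
    split_ifs
    · exact integrable_zero _ _ _
    · exact (hbbi i j).const_mul _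
  have i3 : Integrable (fun w => ∑ i, ∑ j, (if i = j then 0 else a i * a j *
      (ren_ball_b x r i w * ren_ball_b x r j w))) :=
    integrable_finsetSum _ fun i _ => integrable_finsetSum _ fun j _ => i2 i j
  have i4 : Integrable (fun w => K * ∑ i, (if c i < 0 then
        (if ∃ j, 0 < c j ∧ ‖x i - x j‖ < 2 * r then (-a i) * ren_ball_b x r i w else 0) else 0)) :=
    Integrable.const_mul (integrable_finsetSum _ fun i _ => i1 i) _
  refine ⟨i3.add i4, ?_⟩
  unfold ren_ball_H ren_ball_Psi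
  rw [integral_add i3 i4, integral_const_mul, integral_finsetSum _ (fun i _ => i1 i),
    integral_finsetSum _ (fun i _ => integrable_finsetSum _ fun j _ => i2 i j), mul_add]
  congr 1
  · rw [Finset.mul_sum]
    refine Finset.sum_congr rfl fun i _ => ?_
    rw [integral_finsetSum _ (fun j _ => i2 i j), Finset.mul_sum]
    refine Finset.sum_congr rfl fun j _ => ?_
    split_ifs
    · simp
    · rw [integral_const_mul, hbbint]; ring
  · rw [mul_left_comm, Finset.mul_sum]
    congr 1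
    refine Finset.sum_congr rfl fun i _ => ?_
    split_ifs
    · rw [integral_const_mul, hbint]
      field_simp
    · simp
    · simp

open Set in
theorem ren_ball_Psi_int {I : Type} [Fintype I] [DecidableEq I] (c₀ : ℝ)
    (hfdl : ∀ x y : E3, x ≠ y → ∫ r in Set.Ioi (0 : ℝ), (r ^ 5)⁻¹ * lens x y r = c₀ / ‖x - y‖)
    (K z : ℝ) (hK : 0 ≤ K) (c : I → ℝ) (χ : E3 → ℝ) (hz : ∀ i, |c i| ≤ z)
    (hχ : ∀ v, 0 ≤ χ v ∧ χ v ≤ 1) (x : I → E3) (hx : ∀ i j, i ≠ j → x i ≠ x j) :
    IntegrableOn (ren_ball_Psi K c (fun i => c i * χ (x i)) x) (Ioi 0) ∧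
      ∫ r in Ioi (0 : ℝ), ren_ball_Psi K c (fun i => c i * χ (x i)) x r ≤
        c₀ * vl χ c x + K * z * (8 / 3 * Real.pi) * pl χ c x := by
  classical
  have hsh : ∀ i, c i < 0 → IntegrableOn (fun r : ℝ =>
      if (∃ j, 0 < c j ∧ ‖x i - x j‖ < 2 * r) then (r ^ 2)⁻¹ else 0) (Ioi 0) ∧
      ∫ r in Ioi (0 : ℝ), (if (∃ j, 0 < c j ∧ ‖x i - x j‖ < 2 * r) then
      (r ^ 2)⁻¹ else 0) ≤ 2 * pv c x i := by
    intro i hi
    refine ren_ball_shell c x i fun j hj => hx i j ?_
    rintro rfl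
    linarith
  have j1 : ∀ i, IntegrableOn (fun r : ℝ => (if c i < 0 then (-(c i * χ (x i))) * (4 / 3 * Real.pi) *
      (if ∃ j, 0 < c j ∧ ‖x i - x j‖ < 2 * r then (r ^ 2)⁻¹ else 0) else 0)) (Ioi 0) := by
    intro i
    by_cases hi : c i < 0
    · simp only [if_pos hi]
      exact (hsh i hi).1.const_mul _
    · simp only [if_neg hi]
      exact integrable_zero _ _ _
  have j2 : ∀ i j, IntegrableOn (fun r : ℝ => (if i = j then 0 else (c i * χ (x i)) * (c j * χ (x j)) *
      ((r ^ 5)⁻¹ * lens (x i) (x j) r))) (Ioi 0) := by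
    intro i j
    by_cases hij : i = j
    · simp only [if_pos hij]
      exact integrable_zero _ _ _
    · simp only [if_neg hij]
      exact (lens_int (x i) (x j) (hx i j hij)).const_mul _
  have j3 : IntegrableOn (fun r : ℝ => ∑ i, ∑ j, (if i = j then 0 else (c i * χ (x i)) * (c j * χ (x j)) *
      ((r ^ 5)⁻¹ * lens (x i) (x j) r))) (Ioi 0) :=
    integrable_finsetSum _ fun i _ => integrable_finsetSum _ fun j _ => j2 i j
  have j4 : IntegrableOn (fun r : ℝ => K * ∑ i, (if c i < 0 then (-(c i * χ (x i))) * (4 / 3 * Real.pi) *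
      (if ∃ j, 0 < c j ∧ ‖x i - x j‖ < 2 * r then (r ^ 2)⁻¹ else 0) else 0)) (Ioi 0) :=
    Integrable.const_mul (integrable_finsetSum _ fun i _ => j1 i) _
  have hfun : ren_ball_Psi K c (fun i => c i * χ (x i)) x = fun r =>
      (∑ i, ∑ j, (if i = j then 0 else (c i * χ (x i)) * (c j * χ (x j)) *
      ((r ^ 5)⁻¹ * lens (x i) (x j) r))) + K * ∑ i, (if c i < 0 then (-(c i * χ (x i))) * (4 / 3 * Real.pi) *
      (if ∃ j, 0 < c j ∧ ‖x i - x j‖ < 2 * r then (r ^ 2)⁻¹ else 0) else 0) := by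
    funext r
    unfold ren_ball_Psi
    congr!
  rw [hfun]
  refine ⟨j3.add j4, ?_⟩
  rw [integral_add j3 j4, integral_const_mul, integral_finsetSum _ (fun i _ => j1 i),
    integral_finsetSum _ (fun i _ => integrable_finsetSum _ fun j _ => j2 i j)]
  have e1 : ∑ i, ∫ r in Ioi (0 : ℝ), ∑ j, (if i = j then 0 else (c i * χ (x i)) * (c j * χ (x j)) *
      ((r ^ 5)⁻¹ * lens (x i) (x j) r)) = c₀ * vl χ c x := by
    unfold vl
    rw [Finset.mul_sum]
    refine Finset.sum_congr rfl fun i _ => ?_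
    rw [integral_finsetSum _ (fun j _ => j2 i j), Finset.mul_sum]
    refine Finset.sum_congr rfl fun j _ => ?_
    by_cases hij : i = j
    · simp [hij]
    · simp only [if_neg hij]
      rw [integral_const_mul, hfdl _ _ (hx i j hij)]
      ring
  rw [e1]
  refine add_le_add le_rfl ?_
  rw [mul_assoc, mul_assoc]
  refine mul_le_mul_of_nonneg_left ?_ hK
  unfold pl
  rw [Finset.mul_sum, Finset.mul_sum]
  refine Finset.sum_le_sum fun i _ => ?_
  by_cases hi : c i < 0
  · simp only [if_pos hi]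
    rw [integral_const_mul]
    have h1 := (hsh i hi).2
    have h2 : 0 ≤ -(c i * χ (x i)) := by nlinarith [(hχ (x i)).1]
    have h3 : -(c i * χ (x i)) ≤ z * χ (x i) := by
      have := hz i
      rw [abs_of_neg hi] at this
      nlinarith [(hχ (x i)).1]
    have h4 := ren_ball_pv_nonneg c x i
    have hpi := Real.pi_pos
    calc -(c i * χ (x i)) * (4 / 3 * Real.pi) * ∫ r in Ioi (0 : ℝ),
          (if ∃ j, 0 < c j ∧ ‖x i - x j‖ < 2 * r then (r ^ 2)⁻¹ else 0)
        ≤ -(c i * χ (x i)) * (4 / 3 * Real.pi) * (2 * pv c x i) :=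
          mul_le_mul_of_nonneg_left h1 (by positivity)
      _ ≤ z * χ (x i) * (4 / 3 * Real.pi) * (2 * pv c x i) := by
          refine mul_le_mul_of_nonneg_right ?_ (by positivity)
          exact mul_le_mul_of_nonneg_right h3 (by positivity)
      _ = z * (8 / 3 * Real.pi * (χ (x i) * pv c x i)) := by ring
  · simp only [if_neg hi]
    simp

/-- TARGET -/
theorem ren_ball (z : ℝ) (hz : 0 ≤ z) : ∃ K₁ C : ℝ, 0 < K₁ ∧ 0 < C ∧
    ∀ {I : Type} [Fintype I] [DecidableEq I] (c : I → ℝ) (x : I → E3) (χ : E3 → ℝ),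
      (∀ i, |c i| ≤ z) → (∀ i j, i ≠ j → x i ≠ x j) → (∀ v, 0 ≤ χ v ∧ χ v ≤ 1) →
      (0 ≤ pl χ c x ∧ pl χ c x ≤ vl χ c x + K₁ * pl χ c x) ∧
      (∀ r w, 0 ≤ rb z c x r w) ∧
      ∀ (y : E3) (ρ R : ℝ), (∀ v, ‖v - y‖ < ρ + R → χ v = 1) →
        ∫⁻ r in Set.Ioo (0 : ℝ) R, ENNReal.ofReal ((r ^ 5)⁻¹) *
          ∫⁻ w in Metric.ball y ρ, ENNReal.ofReal (rb z c x r w) ≤
        ENNReal.ofReal (C * (vl χ c x + K₁ * pl χ c x)) := by
  classical
  obtain ⟨c₀, hc₀, hfdl⟩ := fdl
  have hpi := Real.pi_pos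
  refine ⟨12 * Real.pi * z ^ 2 / c₀ + 1, c₀, by positivity, hc₀, ?_⟩
  intro I _ _ c x χ hz1 hx hχ
  have hpl : 0 ≤ pl χ c x := by
    unfold pl
    refine Finset.sum_nonneg fun i _ => ?_
    split_ifs
    · exact mul_nonneg (hχ _).1 (ren_ball_pv_nonneg c x i)
    · exact le_rfl
  -- properties of the weighted charges
  have ha : ∀ i, |c i * χ (x i)| ≤ z := by
    intro i
    rw [abs_mul, abs_of_nonneg (hχ (x i)).1]
    calc |c i| * χ (x i) ≤ z * 1 := mul_le_mul (hz1 i) (hχ (x i)).2 (hχ (x i)).1 hz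
      _ = z := mul_one z
  have h1 : ∀ i, 0 < c i * χ (x i) → 0 < c i := by
    intro i hi
    by_contra hcon
    nlinarith [(hχ (x i)).1]
  have h2 : ∀ i, c i < 0 → c i * χ (x i) ≤ 0 := fun i hi => by nlinarith [(hχ (x i)).1]
  have h3 : ∀ i, ¬ c i < 0 → 0 ≤ c i * χ (x i) := fun i hi => mul_nonneg (not_lt.1 hi) (hχ (x i)).1
  -- the radial function is nonnegative
  have hPsi : ∀ K, 9 / 4 * z ≤ K → ∀ r : ℝ, 0 < r → 0 ≤ ren_ball_Psi K c (fun i => c i * χ (x i)) x r := by
    intro K hK r hr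
    obtain ⟨-, e⟩ := ren_ball_H_int K c (fun i => c i * χ (x i)) x r hr
    rw [← e]
    refine mul_nonneg (by positivity) (integral_nonneg fun w => ?_)
    exact (ren_ball_G_nonneg z K hz hK c _ ha h1 h2 h3 x r w).trans
      (ren_ball_G_le K (le_trans (by positivity) hK) c _ h2 x r w)
  refine ⟨⟨hpl, ?_⟩, fun r w => ?_, ?_⟩
  · obtain ⟨-, e⟩ := ren_ball_Psi_int c₀ hfdl (9 / 4 * z) z (by positivity) c χ hz1 hχ x hx
    have h4 : 0 ≤ ∫ r in Set.Ioi (0 : ℝ), ren_ball_Psi (9 / 4 * z) c (fun i => c i * χ (x i)) x r :=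
      setIntegral_nonneg measurableSet_Ioi fun r hr => hPsi _ le_rfl r hr
    have h5 := h4.trans e
    have h6 : 0 ≤ vl χ c x + 6 * Real.pi * z ^ 2 / c₀ * pl χ c x := by
      have : c₀ * (vl χ c x + 6 * Real.pi * z ^ 2 / c₀ * pl χ c x) =
          c₀ * vl χ c x + 9 / 4 * z * z * (8 / 3 * Real.pi) * pl χ c x := by
        field_simp
        ring
      rw [← this] at h5
      exact nonneg_of_mul_nonneg_right h5 hc₀
    have h7 : 0 ≤ 6 * Real.pi * z ^ 2 / c₀ * pl χ c x := by positivity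
    have h8 : (12 * Real.pi * z ^ 2 / c₀ + 1) * pl χ c x =
        2 * (6 * Real.pi * z ^ 2 / c₀ * pl χ c x) + pl χ c x := by ring
    rw [h8]
    linarith
  · exact ren_ball_G_nonneg z (9 / 2 * z) hz (by linarith) c c hz1 (fun _ h => h) (fun _ h => h.le)
      (fun _ h => not_lt.1 h) x r w
  · intro y ρ R hχ1
    have hK : 9 / 4 * z ≤ 9 / 2 * z := by linarith
    obtain ⟨i1, e⟩ := ren_ball_Psi_int c₀ hfdl (9 / 2 * z) z (by positivity) c χ hz1 hχ x hx
    calc ∫⁻ r in Set.Ioo (0 : ℝ) R, ENNReal.ofReal ((r ^ 5)⁻¹) *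
          ∫⁻ w in Metric.ball y ρ, ENNReal.ofReal (rb z c x r w)
        ≤ ∫⁻ r in Set.Ioo (0 : ℝ) R, ENNReal.ofReal (ren_ball_Psi (9 / 2 * z) c (fun i => c i * χ (x i)) x r) := by
          refine setLIntegral_mono' measurableSet_Ioo fun r hr => ?_
          obtain ⟨hi, he⟩ := ren_ball_H_int (9 / 2 * z) c (fun i => c i * χ (x i)) x r hr.1
          have h4 : ∀ w, 0 ≤ ren_ball_H (9 / 2 * z) c (fun i => c i * χ (x i)) x r w := fun w =>
            (ren_ball_G_nonneg z _ hz hK c _ ha h1 h2 h3 x r w).trans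
              (ren_ball_G_le _ (by positivity) c _ h2 x r w)
          rw [← he, ENNReal.ofReal_mul (by have := hr.1; positivity)]
          refine mul_le_mul_right ?_ _
          rw [ofReal_integral_eq_lintegral_ofReal hi (Filter.Eventually.of_forall h4)]
          refine le_trans ?_ (setLIntegral_le_lintegral (Metric.ball y ρ) _)
          refine setLIntegral_mono' Metric.isOpen_ball.measurableSet fun w hw => ?_
          refine ENNReal.ofReal_le_ofReal ?_
          have h5 : rb z c x r w = ren_ball_G (9 / 2 * z) c (fun i => c i * χ (x i)) x r w := by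
            have h6 : ∀ i, ‖x i - w‖ < r → c i * χ (x i) = c i := by
              intro i hi'
              rw [hχ1 (x i), mul_one]
              have h7 : ‖x i - y‖ ≤ ‖x i - w‖ + ‖w - y‖ := by
                have : x i - y = (x i - w) + (w - y) := by abel
                rw [this]
                exact norm_add_le _ _
              rw [Metric.mem_ball, dist_eq_norm] at hw
              linarith [hr.2]
            unfold rb ren_ball_G
            have e1 : ∀ i, (if ‖x i - w‖ < r then c i * χ (x i) else 0) = (if ‖x i - w‖ < r then c i else 0) := by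
              intro i; split_ifs with h
              · exact h6 i h
              · rfl
            have e2 : ∀ i, (if ‖x i - w‖ < r then (c i * χ (x i)) ^ 2 else 0) =
                (if ‖x i - w‖ < r then c i ^ 2 else 0) := by
              intro i; split_ifs with h
              · rw [h6 i h]
              · rfl
            have e3 : ∀ i, (if c i < 0 ∧ ‖x i - w‖ < r then -(c i * χ (x i)) else 0) =
                (if c i < 0 ∧ ‖x i - w‖ < r then -c i else 0) := by
              intro i; split_ifs with h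
              · rw [h6 i h.2]
              · rfl
            simp only [e1, e2, e3]
          rw [h5]
          exact ren_ball_G_le _ (by positivity) c _ h2 x r w
      _ ≤ ∫⁻ r in Set.Ioi (0 : ℝ), ENNReal.ofReal (ren_ball_Psi (9 / 2 * z) c (fun i => c i * χ (x i)) x r) :=
          lintegral_mono_set Set.Ioo_subset_Ioi_self
      _ = ENNReal.ofReal (∫ r in Set.Ioi (0 : ℝ), ren_ball_Psi (9 / 2 * z) c (fun i => c i * χ (x i)) x r) := by
          rw [ofReal_integral_eq_lintegral_ofReal i1]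
          filter_upwards [ae_restrict_mem measurableSet_Ioi] with r hr
          exact hPsi _ hK r hr
      _ ≤ ENNReal.ofReal (c₀ * (vl χ c x + (12 * Real.pi * z ^ 2 / c₀ + 1) * pl χ c x)) := by
          refine ENNReal.ofReal_le_ofReal (e.trans ?_)
          have h7 : c₀ * (vl χ c x + (12 * Real.pi * z ^ 2 / c₀ + 1) * pl χ c x) =
              c₀ * vl χ c x + 9 / 2 * z * z * (8 / 3 * Real.pi) * pl χ c x + c₀ * pl χ c x := by
            field_simp
            ring
          rw [h7]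
          nlinarith [mul_nonneg hc₀.le hpl]

end Pool.Agent.Helper780_CP.RC2
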