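import Pool.Agent.Helper985.CP.Defs
import Pool.Agent.Helper985.CP.M_pot_props

set_option autoImplicit false

open MeasureTheory
open scoped Topology

namespace Pool.Agent.Helper780_CP

open Pool.Agent.Helper985.CP

/-- the inverse square is locally integrable -/
theorem locInt_inv2 : LocallyIntegrable (fun w : E3 => ‖w‖⁻¹ ^ 2) volume := by
  intro x
  refine ⟨Metric.ball 0 (‖x‖ + 1), Metric.isOpen_ball.mem_nhds (by simp), ?_⟩
  set R : ℝ := ‖x‖ + 1 with hR
  have hRpos : 0 < R := by positivity
  have key : Integrable (fun w : E3 => (Set.Iio R).indicator (fun r : ℝ => r⁻¹ ^ 2) ‖w‖)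
      volume := by
    rw [integrable_fun_norm_addHaar (μ := (volume : Measure E3))
      (f := (Set.Iio R).indicator (fun r : ℝ => r⁻¹ ^ 2))]
    have hd : Module.finrank ℝ E3 - 1 = 2 := by simp
    rw [hd]
    have h1 : IntegrableOn (fun y : ℝ => (Set.Iio R).indicator (fun _ : ℝ => (1 : ℝ)) y)
        (Set.Ioi 0) := by
      rw [IntegrableOn, integrable_indicator_iff measurableSet_Iio, IntegrableOn,
        Measure.restrict_restrict measurableSet_Iio]
      have : Set.Iio R ∩ Set.Ioi 0 = Set.Ioo 0 R := by
        ext t; simp [and_comm]
      rw [this]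
      exact (continuous_const.integrableOn_Icc (a := 0) (b := R)).mono_set Set.Ioo_subset_Icc_self
    refine h1.congr_fun ?_ measurableSet_Ioi
    intro y hy
    have hy0 : (0 : ℝ) < y := hy
    by_cases hyR : y < R
    · simp only [Set.indicator, Set.mem_Iio, hyR, if_true, smul_eq_mul]
      field_simp
    · simp [Set.indicator, hyR]
  have h2 : Integrable ((Metric.ball (0 : E3) R).indicator (fun w : E3 => ‖w‖⁻¹ ^ 2)) volume := by
    refine key.congr (Filter.Eventually.of_forall fun w => ?_)
    by_cases hw : ‖w‖ < R
    · simp [Set.indicator, hw]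
    · simp [Set.indicator, hw]
  exact (integrable_indicator_iff Metric.isOpen_ball.measurableSet).1 h2

theorem locInt_shift {w : E3 → ℝ} (hw : LocallyIntegrable w volume) (y : E3) :
    LocallyIntegrable (fun z => w (z - y)) volume := by
  rw [locallyIntegrable_iff] at hw ⊢
  intro k hk
  have h1 : IsCompact ((fun z => z - y) '' k) := hk.image (by fun_prop)
  have h2 := (integrable_indicator_iff h1.measurableSet).2 (hw _ h1)
  have h3 := h2.comp_sub_right y
  refine (integrable_indicator_iff hk.measurableSet).1 ?_
  refine h3.mono ?_ ?_
  · have hs : AEStronglyMeasurable (fun z => ((fun z => z - y) '' k).indicator w (z - y))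
      volume := h3.aestronglyMeasurable
    refine (hs.indicator hk.measurableSet).congr (Filter.Eventually.of_forall fun z => ?_)
    by_cases hz : z ∈ k
    · simp only [Set.indicator_of_mem hz]
      rw [Set.indicator_of_mem (Set.mem_image_of_mem (fun z => z - y) hz)]
    · simp only [Set.indicator_of_notMem hz]
  · refine Filter.Eventually.of_forall fun z => ?_
    by_cases hz : z ∈ k
    · simp only [Set.indicator_of_mem hz]
      rw [Set.indicator_of_mem (Set.mem_image_of_mem (fun z => z - y) hz)]
    · simp only [Set.indicator_of_notMem hz, norm_zero]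
      exact norm_nonneg _

/-- one-particle functions against continuous compactly supported ones -/
theorem int_one {I : Type} [Fintype I] [DecidableEq I] (i : I) (w : E3 → ℝ)
    (hw : LocallyIntegrable w volume) (u : (I → E3) → ℝ) (hu : Continuous u)
    (huc : HasCompactSupport u) : Integrable (fun x => w (x i) * u x) := by
  obtain ⟨R, hR⟩ := (huc.isCompact.isBounded).subset_closedBall (0 : I → E3)
  obtain ⟨C, hC⟩ := huc.exists_bound_of_continuous hu
  have hC0 : 0 ≤ C := (norm_nonneg _).trans (hC 0)
  let f : I → E3 → ℝ := fun j => if j = i then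
    (Metric.closedBall (0 : E3) R).indicator w else
    (Metric.closedBall (0 : E3) R).indicator (fun _ => (1 : ℝ))
  have hf : ∀ j, Integrable (f j) volume := by
    intro j
    by_cases hj : j = i
    · simp only [f, if_pos hj]
      exact (integrable_indicator_iff Metric.isClosed_closedBall.measurableSet).2
        ((locallyIntegrable_iff.1 hw) _ (isCompact_closedBall 0 R))
    · simp only [f, if_neg hj]
      refine (integrable_indicator_iff Metric.isClosed_closedBall.measurableSet).2 ?_
      exact integrableOn_const (by
        exact (measure_closedBall_lt_top (μ := (volume : Measure E3))).ne)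
  have hprod : Integrable (fun x : I → E3 => ∏ j, f j (x j)) volume :=
    Integrable.fintype_prod (fun j => hf j)
  have hmeas : AEStronglyMeasurable (fun x : I → E3 => w (x i) * u x) volume := by
    have h1 : AEStronglyMeasurable (fun x : I → E3 => w (x i)) volume := by
      have := hw.aestronglyMeasurable
      exact this.comp_quasiMeasurePreserving (Measure.quasiMeasurePreserving_eval _ i)
    exact h1.mul hu.aestronglyMeasurable
  refine (hprod.const_mul C).mono hmeas (Filter.Eventually.of_forall fun x => ?_)
  by_cases hx : x ∈ tsupport u
  · have hxb := hR hx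
    rw [mem_closedBall_zero_iff] at hxb
    have hxj : ∀ j, x j ∈ Metric.closedBall (0 : E3) R := by
      intro j
      rw [mem_closedBall_zero_iff]
      exact (norm_le_pi_norm x j).trans hxb
    have hpr : ∏ j, f j (x j) = w (x i) := by
      rw [Finset.prod_eq_single i]
      · simp only [f, if_true]
        rw [Set.indicator_of_mem (hxj i)]
      · intro j _ hj
        simp only [f, if_neg hj]
        rw [Set.indicator_of_mem (hxj j)]
      · intro h
        exact absurd (Finset.mem_univ i) h
    rw [hpr, norm_mul, norm_mul, mul_comm, Real.norm_of_nonneg hC0]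
    exact mul_le_mul_of_nonneg_right (hC x) (norm_nonneg _)
  · have : u x = 0 := image_eq_zero_of_notMem_tsupport hx
    rw [this, mul_zero, norm_zero]
    exact norm_nonneg _

end Pool.Agent.Helper780_CP
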