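import Pool.Agent.Helper985.CP.Defs
import Pool.Agent.R999.Newton

set_option autoImplicit false

open MeasureTheory
open scoped Topology

namespace Pool.Agent.Helper780_CP

open Pool.Agent.Helper985.CP

/-- radial profile -/
noncomputable def bpr (z : E3) : ℝ := Real.smoothTransition (1 - ‖z‖ ^ 2)

theorem bpr_smooth : ContDiff ℝ SM bpr := by
  unfold bpr
  have h1 : ContDiff ℝ SM (fun z : E3 => (1 : ℝ) - ‖z‖ ^ 2) :=
    contDiff_const.sub (contDiff_norm_sq ℝ)
  exact (Real.smoothTransition.contDiff (n := ((⊤ : ℕ∞)))).comp h1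

theorem bpr_zero (z : E3) (hz : 1 ≤ ‖z‖) : bpr z = 0 := by
  unfold bpr
  apply Real.smoothTransition.zero_of_nonpos
  nlinarith [norm_nonneg z]

theorem bpr_origin : bpr 0 = 1 := by
  unfold bpr
  apply Real.smoothTransition.one_of_one_le
  simp

theorem bpr_range (z : E3) : 0 ≤ bpr z ∧ bpr z ≤ 1 :=
  ⟨Real.smoothTransition.nonneg _, Real.smoothTransition.le_one _⟩

theorem bpr_tsupport : tsupport bpr ⊆ Metric.closedBall 0 1 := by
  apply closure_minimal _ Metric.isClosed_closedBall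
  intro z hz
  rw [Metric.mem_closedBall, dist_zero_right]
  by_contra h
  push Not at h
  exact hz (bpr_zero z h.le)

theorem bpr_compact : HasCompactSupport bpr :=
  IsCompact.of_isClosed_subset (isCompact_closedBall 0 1) (isClosed_tsupport _) bpr_tsupport

theorem bpr_sq_pos : 0 < ∫ z, bpr z ^ 2 := by
  have hb2c : Continuous (fun z => bpr z ^ 2) := bpr_smooth.continuous.pow 2
  have hb2s : HasCompactSupport (fun z => bpr z ^ 2) := by
    have h1 : (fun z => bpr z ^ 2) = (fun z => bpr z * bpr z) := by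
      funext z; ring
    rw [h1]
    exact bpr_compact.mul_left
  apply hb2c.integral_pos_of_hasCompactSupport_nonneg_nonzero hb2s (x := 0)
  · intro z
    positivity
  · rw [bpr_origin]
    norm_num

/-- Newton's theorem for a density of the form `φ² = h(‖·‖)` with unit mass, outside. -/
theorem newton_out (h : ℝ → ℝ) (hm : Measurable h) (r : ℝ) (hr : 0 < r)
    (h0 : ∀ t, r ≤ t → h t = 0) (h1 : ∫ w : E3, h ‖w‖ = 1) (x : E3) (hx : r ≤ ‖x‖) :
    ∫ w : E3, h ‖w‖ / ‖x - w‖ = 1 / ‖x‖ := by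
  rw [Pool.Agent.R999.Newton.pot_radial hm x]
  have hx0 : 0 < ‖x‖ := lt_of_lt_of_le hr hx
  have e1 : ∀ t ∈ Set.Ioi (0:ℝ), Pool.Agent.R999.Newton.kx ‖x‖ t * h t =
      (1 / ‖x‖) * (4 * Real.pi * (t ^ 2 * h t)) := by
    intro t _
    unfold Pool.Agent.R999.Newton.kx
    rcases le_or_gt r t with ht | ht
    · rw [h0 t ht]; ring
    · rw [max_eq_left (by linarith)]
      field_simp
  rw [setIntegral_congr_fun measurableSet_Ioi e1, integral_const_mul, integral_const_mul]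
  have h2 := MeasureTheory.integral_fun_norm_addHaar (volume : Measure E3) h
  rw [h1] at h2
  have hfr : Module.finrank ℝ E3 = 3 := by simp
  rw [hfr] at h2
  have hvol : (volume : Measure E3).real (Metric.ball 0 1) = 4 / 3 * Real.pi := by
    unfold Measure.real
    rw [EuclideanSpace.volume_ball_fin_three]
    rw [ENNReal.toReal_mul]
    simp
    rw [ENNReal.toReal_ofReal (by positivity)]
    ring
  rw [hvol] at h2
  simp only [nsmul_eq_mul, smul_eq_mul] at h2
  have h3 : 4 * Real.pi * ∫ t in Set.Ioi (0:ℝ), t ^ 2 * h t = 1 := by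
    rw [h2]
    norm_num
    ring
  rw [h3, mul_one]

/-- normalised radial bump of radius `1` -/
noncomputable def bp1 (z : E3) : ℝ := (Real.sqrt (∫ w, bpr w ^ 2))⁻¹ * bpr z

/-- normalised radial bump of radius `r` -/
noncomputable def bpR (r : ℝ) (z : E3) : ℝ := (Real.sqrt (r ^ 3))⁻¹ * bp1 (r⁻¹ • z)

theorem bp1_smooth : ContDiff ℝ SM bp1 := contDiff_const.mul bpr_smooth

theorem bp1_sq : ∫ z, bp1 z ^ 2 = 1 := by
  have h := bpr_sq_pos
  have h1 : ∀ z, bp1 z ^ 2 = (∫ w, bpr w ^ 2)⁻¹ * bpr z ^ 2 := by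
    intro z
    unfold bp1
    simp only [mul_pow, inv_pow, Real.sq_sqrt h.le]
  simp only [h1]
  rw [integral_const_mul]
  exact inv_mul_cancel₀ h.ne'

theorem scale3 (r : ℝ) (hr : 0 < r) (f : E3 → ℝ) : ∫ z, f (r⁻¹ • z) = r ^ 3 * ∫ z, f z := by
  rw [Measure.integral_comp_inv_smul]
  have hfr : Module.finrank ℝ E3 = 3 := by simp
  rw [hfr, abs_of_pos (by positivity), smul_eq_mul]

theorem bpR_sq (r : ℝ) (hr : 0 < r) : ∫ z, bpR r z ^ 2 = 1 := by
  have h1 : ∀ z, bpR r z ^ 2 = (r ^ 3)⁻¹ * bp1 (r⁻¹ • z) ^ 2 := by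
    intro z
    unfold bpR
    simp only [mul_pow, inv_pow, Real.sq_sqrt (by positivity : (0:ℝ) ≤ r ^ 3)]
  simp only [h1]
  rw [integral_const_mul, scale3 r hr (fun z => bp1 z ^ 2), bp1_sq]
  field_simp

theorem bpR_smooth (r : ℝ) : ContDiff ℝ SM (bpR r) :=
  contDiff_const.mul (bp1_smooth.comp (contDiff_id.const_smul r⁻¹))

theorem bpR_zero (r : ℝ) (hr : 0 < r) (z : E3) (hz : r ≤ ‖z‖) : bpR r z = 0 := by
  unfold bpR bp1
  rw [bpr_zero, mul_zero, mul_zero]
  rw [norm_smul, norm_inv, Real.norm_of_nonneg hr.le]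
  rw [inv_mul_eq_div, le_div_iff₀ hr]
  linarith

theorem bpR_radial (r : ℝ) : ∃ h : ℝ → ℝ, Measurable h ∧ (∀ z, bpR r z ^ 2 = h ‖z‖) ∧
    (0 < r → ∀ t, r ≤ t → h t = 0) := by
  refine ⟨fun t => ((Real.sqrt (r ^ 3))⁻¹ * ((Real.sqrt (∫ w, bpr w ^ 2))⁻¹ *
    Real.smoothTransition (1 - (|r|⁻¹ * t) ^ 2))) ^ 2, ?_, ?_, ?_⟩
  · have : Continuous fun t : ℝ => ((Real.sqrt (r ^ 3))⁻¹ * ((Real.sqrt (∫ w, bpr w ^ 2))⁻¹ *
      Real.smoothTransition (1 - (|r|⁻¹ * t) ^ 2))) ^ 2 := by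
      have h2 := Real.smoothTransition.continuous
      have h3 : Continuous fun t : ℝ => Real.smoothTransition (1 - (|r|⁻¹ * t) ^ 2) :=
        h2.comp (by fun_prop)
      exact (continuous_const.mul (continuous_const.mul h3)).pow 2
    exact this.measurable
  · intro z
    unfold bpR bp1 bpr
    rw [norm_smul, norm_inv, Real.norm_eq_abs]
  · intro hr t ht
    have h1 : Real.smoothTransition (1 - (|r|⁻¹ * t) ^ 2) = 0 := by
      apply Real.smoothTransition.zero_of_nonpos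
      rw [abs_of_pos hr]
      have h2 : 1 ≤ r⁻¹ * t := by
        rw [inv_mul_eq_div, le_div_iff₀ hr]
        linarith
      nlinarith
    simp only [h1]
    ring

theorem fderiv_scale (r : ℝ) (f : E3 → ℝ) (z v : E3) :
    fderiv ℝ (fun z => f (r⁻¹ • z)) z v = r⁻¹ * fderiv ℝ f (r⁻¹ • z) v := by
  have h := fderiv_comp_smul (𝕜 := ℝ) (f := f) (x := z) (r⁻¹ : ℝ)
  have h2 : (fun z => f (r⁻¹ • z)) = (f <| (r⁻¹ : ℝ) • ·) := rfl
  rw [h2, h]
  simp

theorem bpR_grad (r : ℝ) (hr : 0 < r) : grad2 (bpR r) = grad2 bp1 / r ^ 2 := by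
  have hd : ∀ z v, fderiv ℝ (bpR r) z v = (Real.sqrt (r ^ 3))⁻¹ * (r⁻¹ *
      fderiv ℝ bp1 (r⁻¹ • z) v) := by
    intro z v
    have h1 : bpR r = fun z => (Real.sqrt (r ^ 3))⁻¹ * (fun z => bp1 (r⁻¹ • z)) z := rfl
    rw [h1, fderiv_const_mul]
    · rw [ContinuousLinearMap.smul_apply, fderiv_scale]
      rfl
    · have : ContDiff ℝ SM (fun z : E3 => bp1 (r⁻¹ • z)) :=
        bp1_smooth.comp (contDiff_id.const_smul r⁻¹)
      exact (this.differentiable (by simp)).differentiableAt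
  unfold grad2
  have h2 : ∀ z : E3, ∑ k : Fin 3, (fderiv ℝ (bpR r) z (EuclideanSpace.single k (1 : ℝ))) ^ 2 =
      ((r ^ 3)⁻¹ * (r ^ 2)⁻¹) * (fun z => ∑ k : Fin 3,
        (fderiv ℝ bp1 z (EuclideanSpace.single k (1 : ℝ))) ^ 2) (r⁻¹ • z) := by
    intro z
    simp only [hd]
    rw [Finset.mul_sum]
    refine Finset.sum_congr rfl fun k _ => ?_
    rw [mul_pow, mul_pow, inv_pow, inv_pow, Real.sq_sqrt (by positivity : (0:ℝ) ≤ r ^ 3)]
    ring
  simp only [h2]
  rw [integral_const_mul, scale3 r hr (fun z : E3 => ∑ k : Fin 3,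
        (fderiv ℝ bp1 z (EuclideanSpace.single k (1 : ℝ))) ^ 2)]
  field_simp

/-- the radial bumps at all scales -/
theorem exists_rbump : ∃ T : ℝ, 0 < T ∧ ∀ (r : ℝ), 0 < r → ∀ x0 : E3, ∃ φ : E3 → ℝ,
    ContDiff ℝ SM φ ∧ HasCompactSupport φ ∧ tsupport φ ⊆ Metric.closedBall x0 r ∧
    ∫ z, φ z ^ 2 = 1 ∧ grad2 φ ≤ T / r ^ 2 ∧
    ∀ x, r ≤ ‖x - x0‖ → pot φ x = 1 / ‖x - x0‖ := by
  refine ⟨grad2 bp1 + 1, ?_, ?_⟩
  · have : 0 ≤ grad2 bp1 := by
      unfold grad2
      exact integral_nonneg fun z => Finset.sum_nonneg fun k _ => sq_nonneg _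
    linarith
  intro r hr x0
  have hts : tsupport (fun z => bpR r (z - x0)) ⊆ Metric.closedBall x0 r := by
    apply closure_minimal _ Metric.isClosed_closedBall
    intro z hz
    rw [Metric.mem_closedBall, dist_eq_norm]
    by_contra h
    push Not at h
    exact hz (bpR_zero r hr _ h.le)
  refine ⟨fun z => bpR r (z - x0), ?_, ?_, hts, ?_, ?_, ?_⟩
  · exact (bpR_smooth r).comp (contDiff_id.sub contDiff_const)
  · exact IsCompact.of_isClosed_subset (isCompact_closedBall x0 r) (isClosed_tsupport _) hts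
  · rw [integral_sub_right_eq_self (fun z => bpR r z ^ 2) x0]
    exact bpR_sq r hr
  · have h1 : grad2 (fun z => bpR r (z - x0)) = grad2 (bpR r) := by
      unfold grad2
      simp only [fderiv_comp_sub]
      exact integral_sub_right_eq_self (fun z => ∑ k : Fin 3,
        (fderiv ℝ (bpR r) z (EuclideanSpace.single k (1 : ℝ))) ^ 2) x0
    rw [h1, bpR_grad r hr]
    gcongr
    linarith
  · intro x hx
    obtain ⟨h, hm, hh, h0⟩ := bpR_radial r
    unfold pot
    have h1 : ∫ z, bpR r (z - x0) ^ 2 / ‖x - z‖ = ∫ w : E3, h ‖w‖ / ‖(x - x0) - w‖ := by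
      rw [← integral_sub_right_eq_self (fun w : E3 => h ‖w‖ / ‖(x - x0) - w‖) x0]
      refine integral_congr_ae (Filter.Eventually.of_forall fun z => ?_)
      simp only
      rw [hh]
      congr 2
      abel
    rw [h1]
    refine newton_out h hm r hr (h0 hr) ?_ (x - x0) hx
    rw [← bpR_sq r hr]
    exact integral_congr_ae (Filter.Eventually.of_forall fun z => (hh z).symm)

end Pool.Agent.Helper780_CP
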