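import Pool.Agent.Helper780_CP.LLDefs2
import Pool.Agent.Helper780_CP.Integ
import Pool.Agent.Helper780_CP.Newt

set_option autoImplicit false

open MeasureTheory

namespace Pool.Agent.Helper780_CP.RK0

open Pool.Agent.Helper780_CP
open Pool.Agent.Helper985.CP

open Pool.Agent.Helper985.CP

/-- the inverse of the norm is locally integrable -/
theorem locInt_inv1 : LocallyIntegrable (fun w : E3 => ‖w‖⁻¹) volume := by
  have h1 : LocallyIntegrable (fun w : E3 => (1 : ℝ) + ‖w‖⁻¹ ^ 2) volume :=
    (locallyIntegrable_const (1 : ℝ)).add locInt_inv2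
  refine h1.mono ?_ (Filter.Eventually.of_forall fun w => ?_)
  · exact (measurable_norm.inv).aestronglyMeasurable
  · have h2 : (0 : ℝ) ≤ ‖w‖⁻¹ := by positivity
    rw [Real.norm_of_nonneg h2, Real.norm_of_nonneg (by positivity)]
    nlinarith [sq_nonneg (‖w‖⁻¹ - 1)]

/-- TARGET -/
theorem ker_exists : ∃ a b l : E3 → ℝ, Ker a b l := by
  have ha_smooth : ContDiff ℝ SM (fun z : E3 => bpR (1 / 2) z ^ 2) := (bpR_smooth (1 / 2)).pow 2
  have ha0' : ∀ z : E3, 1 / 2 ≤ ‖z‖ → bpR (1 / 2) z ^ 2 = 0 := fun z hz => by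
    rw [bpR_zero (1 / 2) (by norm_num) z hz]
    norm_num
  have ha_nonneg : ∀ z : E3, 0 ≤ bpR (1 / 2) z ^ 2 := fun z => sq_nonneg _
  have ha_int : ∫ z : E3, bpR (1 / 2) z ^ 2 = 1 := bpR_sq (1 / 2) (by norm_num)
  obtain ⟨h, hm, hh, hz⟩ := bpR_radial (1 / 2)
  have hz' := hz (by norm_num)
  generalize ha : (fun z : E3 => bpR (1 / 2) z ^ 2) = a at ha_smooth
  have hav : ∀ z : E3, bpR (1 / 2) z ^ 2 = a z := fun z => congrFun ha z
  simp only [hav] at ha0' ha_nonneg ha_int hh
  have ha_even : ∀ z, a (-z) = a z := fun z => by rw [hh, hh, norm_neg]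
  have hacs : HasCompactSupport a :=
    HasCompactSupport.intro (isCompact_closedBall (0 : E3) (1 / 2)) fun z hz => by
      apply ha0'
      rw [Metric.mem_closedBall, dist_zero_right, not_le] at hz
      exact hz.le
  obtain ⟨b, hb⟩ : ∃ b : E3 → ℝ, ∀ w, b w = ∫ z, a z / ‖w - z‖ := ⟨_, fun _ => rfl⟩
  obtain ⟨l, hl⟩ : ∃ l : E3 → ℝ, ∀ w, l w = ∫ z, a z * b (w - z) := ⟨_, fun _ => rfl⟩
  have hb_smooth : ContDiff ℝ SM b := by
    have h1 := hacs.contDiff_convolution_left (ContinuousLinearMap.mul ℝ ℝ) (n := ⊤) ha_smooth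
      locInt_inv1
    have h2 : b = MeasureTheory.convolution a (fun w : E3 => ‖w‖⁻¹)
        (ContinuousLinearMap.mul ℝ ℝ) volume := by
      funext w
      rw [hb, MeasureTheory.convolution]
      simp only [ContinuousLinearMap.mul_apply', div_eq_mul_inv]
    rw [h2]
    exact h1
  have hl_smooth : ContDiff ℝ SM l := by
    have h1 := hacs.contDiff_convolution_left (ContinuousLinearMap.mul ℝ ℝ) (n := ⊤) ha_smooth
      (hb_smooth.continuous.locallyIntegrable (μ := volume))
    have h2 : l = MeasureTheory.convolution a b (ContinuousLinearMap.mul ℝ ℝ) volume := by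
      funext w
      rw [hl, MeasureTheory.convolution]
      simp only [ContinuousLinearMap.mul_apply']
    rw [h2]
    exact h1
  have hb_out : ∀ w, 1 / 2 ≤ ‖w‖ → b w = 1 / ‖w‖ := by
    intro w hw
    have h1 : ∫ z : E3, h ‖z‖ = 1 := by
      rw [← ha_int]
      exact integral_congr_ae (Filter.Eventually.of_forall fun z => (hh z).symm)
    rw [hb, ← newton_out h hm (1 / 2) (by norm_num) hz' h1 w hw]
    exact integral_congr_ae (Filter.Eventually.of_forall fun z => by simp only [hh])
  have hb_even : ∀ w, b (-w) = b w := by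
    intro w
    rw [hb, hb, ← integral_neg_eq_self]
    refine integral_congr_ae (Filter.Eventually.of_forall fun z => ?_)
    simp only
    rw [ha_even, ← norm_neg (w - z)]
    congr 2
    abel
  have hl_even : ∀ w, l (-w) = l w := by
    intro w
    rw [hl, hl, ← integral_neg_eq_self]
    refine integral_congr_ae (Filter.Eventually.of_forall fun z => ?_)
    simp only
    rw [ha_even, ← hb_even (w - z)]
    congr 2
    abel
  refine ⟨a, b, l, ha_smooth, ha_nonneg, ha0', ha_even, ha_int, hb_smooth, hb, hb_out, hl_smooth,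
    hl, ?_, hl_even⟩
  intro w hw
  rw [hl, ← hb_out w (by linarith), hb]
  refine integral_congr_ae (Filter.Eventually.of_forall fun z => ?_)
  simp only
  by_cases hz1 : 1 / 2 ≤ ‖z‖
  · rw [ha0' z hz1, zero_mul, zero_div]
  · have h1 : 1 / 2 ≤ ‖w - z‖ := by
      have := norm_sub_norm_le w z
      linarith [not_le.mp hz1]
    rw [hb_out _ h1]
    ring

end Pool.Agent.Helper780_CP.RK0
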