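import Pool.Agent.Helper780_CP.LLDefs2
import Pool.Agent.Helper985.CP.M_insert_one

set_option autoImplicit false

open MeasureTheory

namespace Pool.Agent.Helper780_CP.RINS1

open Pool.Agent.Helper780_CP
open Pool.Agent.Helper985.CP

open Pool.Agent.Helper985.CP

theorem ig_scale {S : Type} (D : Species S) {I : Type} [Fintype I] [DecidableEq I] (r : ℝ)
    (Ψ : Wave D I) (W : (I → E3) → ℝ) :
    wm D W (fun τ x => (r : ℂ) * Ψ τ x) = r ^ 2 * wm D W Ψ := by
  unfold wm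
  rw [Finset.mul_sum]
  refine Finset.sum_congr rfl fun τ _ => ?_
  rw [← integral_const_mul]
  congr 1
  funext x
  rw [norm_mul, mul_pow, Complex.norm_real, Real.norm_eq_abs, sq_abs]
  ring

theorem ig_relab {S : Type} (D : Species S) {I J : Type} [Fintype I] [DecidableEq I]
    [Fintype J] [DecidableEq J] (e : I ≃ J) (Ψ : Wave D I) (W : (I → E3) → ℝ)
    (W' : (J → E3) → ℝ) (h : ∀ x, W' x = W (fun i => x (e i))) :
    wm D W' (relab D e Ψ) = wm D W Ψ := by
  unfold wm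
  rw [← relaux_sum e]
  apply Finset.sum_congr rfl
  intro τ _
  rw [← relaux_int e]
  congr 1
  funext x
  rw [h x]
  rfl

theorem ig_ins0 {S : Type} (D : Species S) {I : Type} [Fintype I]
    [DecidableEq I] (sp : I → S) (ℓ : ℝ) (s : S) (σ0 : Fin D.g) (φ : E3 → ℝ)
    (hφ : ContDiff ℝ SM φ) (hφc : HasCompactSupport φ) (hφ1 : ∫ z, φ z ^ 2 = 1)
    (Ψ : Wave D I) (hΨ : IsState D sp ℓ Ψ) (w : S → E3 → ℝ)
    (hw : ∀ t, LocallyIntegrable (w t) volume) :
    wm D (fun x : Option I → E3 => ∑ o : Option I, w (o.elim s sp) (x o)) (ins0 D σ0 φ Ψ) =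
      wm D (fun x => ∑ i, w (sp i) (x i)) Ψ + (∫ z, w s z * φ z ^ 2) * nrm2 D Ψ := by
  classical
  have hφ2 : Continuous (fun z => φ z ^ 2) := hφ.continuous.pow 2
  have hφ2c : HasCompactSupport (fun z => φ z ^ 2) :=
    hφc.mono (by intro z hz; simp only [Function.mem_support] at hz ⊢; exact fun h => hz (by simp [h]))
  have hφ2i : Integrable (fun z => φ z ^ 2) := hφ2.integrable_of_hasCompactSupport hφ2c
  have hS := fun τ => int_state D sp ℓ Ψ hΨ τ
  have hui : Integrable (fun z => w s z * φ z ^ 2) := by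
    have h := (hw s).integrable_smul_left_of_hasCompactSupport hφ2 hφ2c
    refine h.congr (Filter.Eventually.of_forall fun z => ?_)
    simp only [smul_eq_mul]
    ring
  have hWI : WI D sp ℓ (fun x => ∑ i, w (sp i) (x i)) :=
    WI_sum D sp ℓ Finset.univ _ fun i _ => WI_one D sp ℓ i (w (sp i)) (hw (sp i))
  have hnrm : ∀ (x : Option I → E3) (τ' : I → Fin D.g),
      ‖((φ (x none) : ℝ) : ℂ) * Ψ τ' (fun i => x (some i))‖ ^ 2
      = (fun z => φ z ^ 2) (x none) * (fun y => ‖Ψ τ' y‖ ^ 2) (fun i => x (some i)) := by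
    intro x τ'
    simp only
    rw [norm_mul, mul_pow, Complex.norm_real, Real.norm_eq_abs, sq_abs]
  unfold wm nrm2
  rw [q985_sumtau σ0 (fun τ => ∫ x : Option I → E3, (∑ i : Option I, w (i.elim s sp) (x i)) *
      ‖ins0 D σ0 φ Ψ τ x‖ ^ 2)
    (fun τ hτ => by simp [q985_ins0_out D σ0 φ Ψ τ hτ])]
  have hterm : ∀ τ' : I → Fin D.g,
      (∫ x : Option I → E3, (∑ i : Option I, w (i.elim s sp) (x i)) *
      ‖ins0 D σ0 φ Ψ (fun o => o.elim σ0 τ') x‖ ^ 2)
      = (∫ y, (∑ i, w (sp i) (y i)) * ‖Ψ τ' y‖ ^ 2)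
        + (∫ z, w s z * φ z ^ 2) * ∫ y, ‖Ψ τ' y‖ ^ 2 := by
    intro τ'
    have hpt : ∀ x : Option I → E3, (∑ i : Option I, w (i.elim s sp) (x i)) *
      ‖ins0 D σ0 φ Ψ (fun o => o.elim σ0 τ') x‖ ^ 2
      = (fun z => φ z ^ 2) (x none) * (fun y : I → E3 =>
          (∑ i, w (sp i) (y i)) * ‖Ψ τ' y‖ ^ 2) (fun i => x (some i))
        + (fun z => w s z * φ z ^ 2) (x none) *
          (fun y : I → E3 => ‖Ψ τ' y‖ ^ 2) (fun i => x (some i)) := by
      intro x
      rw [q985_ins0_in, Fintype.sum_option]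
      simp only [hnrm, Option.elim]
      ring
    simp only [hpt]
    have i1 := q985_prodi (fun z => φ z ^ 2) (fun y : I → E3 =>
          (∑ i, w (sp i) (y i)) * ‖Ψ τ' y‖ ^ 2) hφ2i (hWI Ψ hΨ τ')
    have i2 := q985_prodi (fun z => w s z * φ z ^ 2)
          (fun y : I → E3 => ‖Ψ τ' y‖ ^ 2) hui (hS τ').1
    have e1 := q985_prod (fun z => φ z ^ 2) (fun y : I → E3 =>
          (∑ i, w (sp i) (y i)) * ‖Ψ τ' y‖ ^ 2)
    have e2 := q985_prod (fun z => w s z * φ z ^ 2)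
          (fun y : I → E3 => ‖Ψ τ' y‖ ^ 2)
    rw [hφ1, one_mul] at e1
    rw [← e1, ← e2]
    exact integral_add i1 i2
  simp only [hterm]
  rw [Finset.sum_add_distrib, ← Finset.mul_sum]

theorem ig_disj {S : Type} [DecidableEq S] (D : Species S) {I : Type} [Fintype I]
    [DecidableEq I] (sp : I → S) (ℓ : ℝ) (s : S) (σ0 : Fin D.g) (φ : E3 → ℝ)
    (hφ : ContDiff ℝ SM φ) (hφc : HasCompactSupport φ) (Ψ : Wave D I)
    (hΨ : IsState D sp ℓ Ψ)
    (hv : ∀ τ x i, sp i = s → x i ∈ tsupport φ → Ψ τ x = 0) (w : S → E3 → ℝ)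
    (hw : ∀ t, LocallyIntegrable (w t) volume) :
    wm D (fun x : Option I → E3 => ∑ o : Option I, w (o.elim s sp) (x o))
        (ins1 D sp s σ0 φ Ψ) =
      (((Finset.univ.filter (fun i => sp i = s)).card : ℝ) + 1) *
        wm D (fun x : Option I → E3 => ∑ o : Option I, w (o.elim s sp) (x o))
          (ins0 D σ0 φ Ψ) := by
  classical
  let sp' : Option I → S := fun o => o.elim s sp
  let A : Finset (Option I) := Finset.univ.filter (fun o => sp' o = s)
  have hA : ∀ o, o ∈ A ↔ sp' o = s := fun o => by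
    simp only [A, Finset.mem_filter, Finset.mem_univ, true_and]
  have hcard : (A.card : ℝ) = ((Finset.univ.filter (fun i => sp i = s)).card : ℝ) + 1 := by
    have h1 : A.card = ∑ o : Option I, if sp' o = s then 1 else 0 := by
      simp only [A, Finset.card_filter]
    have h2 : (Finset.univ.filter (fun i => sp i = s)).card = ∑ i : I, if sp i = s then 1 else 0 := by
      simp only [Finset.card_filter]
    rw [h1, h2, Fintype.sum_option]
    have h3 : sp' none = s := rfl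
    have h4 : ∀ i, sp' (some i) = sp i := fun _ => rfl
    simp only [h3, h4, if_true]
    push_cast
    ring
  have hins : ∀ τ x, ins1 D sp s σ0 φ Ψ τ x = ∑ o ∈ A, idjT D s σ0 φ Ψ o τ x := by
    intro τ x
    rw [Finset.sum_filter, Fintype.sum_option]
    have h3 : sp' none = s := rfl
    have h4 : ∀ i, sp' (some i) = sp i := fun _ => rfl
    simp only [h3, h4, if_true]
    unfold ins1 idjT
    simp
  have hswap : ∀ o ∈ A, ∀ k, sp' (Equiv.swap none o k) = sp' k := by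
    intro o ho k
    have ho' := (hA o).1 ho
    by_cases h1 : k = none
    · subst h1
      rw [Equiv.swap_apply_left, ho']
      rfl
    · by_cases h2 : k = o
      · subst h2
        rw [Equiv.swap_apply_right, ho']
        rfl
      · rw [Equiv.swap_apply_of_ne_of_ne h1 h2]
  have hTfun : ∀ o τ, idjT D s σ0 φ Ψ o τ = fun x => (if o = none then (1 : ℂ) else exch D s) *
      relab D (Equiv.swap none o) (ins0 D σ0 φ Ψ) τ x := fun o τ => rfl
  have hnT : ∀ o τ x, ‖idjT D s σ0 φ Ψ o τ x‖ = ‖relab D (Equiv.swap none o) (ins0 D σ0 φ Ψ) τ x‖ := by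
    intro o τ x
    rw [hTfun, norm_mul, idj_coef, one_mul]
  have hdis : ∀ τ x, ∀ o ∈ A, ∀ o' ∈ A, o ≠ o' →
      idjT D s σ0 φ Ψ o τ x = 0 ∨ idjT D s σ0 φ Ψ o' τ x = 0 := by
    intro τ x o ho o' ho' hoo
    by_cases hx : x o ∈ interior (tsupport φ)
    · right
      refine (idjT_act D sp ℓ s σ0 φ hφ Ψ hΨ hv o' τ x ?_).1
      right
      cases o with
      | none =>
        cases o' with
        | none => exact absurd rfl hoo
        | some j =>
          refine ⟨j, (hA (some j)).1 ho', ?_⟩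
          rw [Equiv.swap_apply_right]
          exact hx
      | some i =>
        refine ⟨i, (hA (some i)).1 ho, ?_⟩
        rw [Equiv.swap_apply_of_ne_of_ne (by simp) hoo]
        exact hx
    · left
      refine (idjT_act D sp ℓ s σ0 φ hφ Ψ hΨ hv o τ x ?_).1
      left
      exact hx
  have hn : ∀ τ x, ‖ins1 D sp s σ0 φ Ψ τ x‖ ^ 2 = ∑ o ∈ A, ‖idjT D s σ0 φ Ψ o τ x‖ ^ 2 := by
    intro τ x
    rw [hins τ x]
    exact idj_normsq A _ fun o ho o' ho' hoo => hdis τ x o ho o' ho' hoo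
  have hint : ∀ τ, ∀ o ∈ A, Integrable (fun x : Option I → E3 =>
      (∑ q : Option I, w (q.elim s sp) (x q)) * ‖idjT D s σ0 φ Ψ o τ x‖ ^ 2) := by
    intro τ o _
    have hsq : Continuous (fun x => ‖idjT D s σ0 φ Ψ o τ x‖ ^ 2) :=
      ((idjT_smooth D sp ℓ s σ0 φ hφ Ψ hΨ o τ).continuous.norm).pow 2
    have hsqc : HasCompactSupport (fun x => ‖idjT D s σ0 φ Ψ o τ x‖ ^ 2) :=
      (idjT_compact D sp ℓ s σ0 φ hφc Ψ hΨ o τ).comp_left (g := fun z : ℂ => ‖z‖ ^ 2) (by simp)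
    simp only [Finset.sum_mul]
    refine integrable_finsetSum _ fun q _ => ?_
    exact int_one q (w (q.elim s sp)) (hw _) _ hsq hsqc
  rw [← hcard]
  have h1 : wm D (fun x : Option I → E3 => ∑ q : Option I, w (q.elim s sp) (x q))
      (ins1 D sp s σ0 φ Ψ) = ∑ o ∈ A, wm D (fun x : Option I → E3 =>
        ∑ q : Option I, w (q.elim s sp) (x q)) (idjT D s σ0 φ Ψ o) := by
    unfold wm
    rw [Finset.sum_comm]
    apply Finset.sum_congr rfl
    intro τ _
    simp only [hn, Finset.mul_sum]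
    rw [integral_finsetSum]
    intro o ho
    exact hint τ o ho
  rw [h1, ← nsmul_eq_mul]
  apply Finset.sum_eq_card_nsmul
  intro o ho
  rw [← ig_relab D (Equiv.swap none o) (ins0 D σ0 φ Ψ)
    (fun x : Option I → E3 => ∑ q : Option I, w (q.elim s sp) (x q))
    (fun x : Option I → E3 => ∑ q : Option I, w (q.elim s sp) (x q)) (by
      intro x
      rw [← Equiv.sum_comp (Equiv.swap none o)]
      refine Finset.sum_congr rfl fun q _ => ?_
      have := hswap o ho q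
      show w (sp' (Equiv.swap none o q)) _ = w (sp' q) _
      rw [this])]
  unfold wm
  simp only [hnT]

/-- TARGET -/
theorem insert_gen {S : Type} (D : Species S) (hD : D.Valid) {I : Type} [Fintype I]
    [DecidableEq I] (sp : I → S) (ℓ : ℝ) (s : S) (φ : E3 → ℝ) (hφ : ContDiff ℝ SM φ)
    (hφc : HasCompactSupport φ) (hφs : tsupport φ ⊆ cube ℓ) (hφ1 : ∫ z, φ z ^ 2 = 1)
    (Ψ : Wave D I) (hΨ : IsState D sp ℓ Ψ)
    (hv : ∀ τ x i, sp i = s → x i ∈ tsupport φ → Ψ τ x = 0) :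
    ∃ Φ : Wave D (Option I), IsState D (fun o => o.elim s sp) ℓ Φ ∧ nrm2 D Φ = nrm2 D Ψ ∧
      energy D (fun o => o.elim s sp) Φ = energy D sp Ψ +
        (1 / (2 * D.mass s)) * grad2 φ * nrm2 D Ψ + D.charge s * mean D sp Ψ (pot φ) ∧
      ∀ w : S → E3 → ℝ, (∀ t, LocallyIntegrable (w t) volume) →
        wm D (fun x => ∑ o, w (o.elim s sp) (x o)) Φ =
          wm D (fun x => ∑ i, w (sp i) (x i)) Ψ + (∫ z, w s z * φ z ^ 2) * nrm2 D Ψ := by
  classical
  obtain ⟨σ0, hσ0⟩ := hD.spin_nonempty s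
  obtain ⟨n, hn⟩ : ∃ n : ℝ, n = ((Finset.univ.filter (fun i => sp i = s)).card : ℝ) + 1 := ⟨_, rfl⟩
  have hnpos : 0 < n := by rw [hn]; positivity
  obtain ⟨h1, h2⟩ := ins_state D sp ℓ s σ0 hσ0 φ hφ hφc hφs Ψ hΨ
  obtain ⟨a1, a2, a3⟩ := ins0_num D sp ℓ s σ0 φ hφ hφc hφ1 Ψ hΨ
  obtain ⟨b1, b2, b3⟩ := ins_disj D sp ℓ s σ0 φ hφ hφc Ψ hΨ hv
  rw [← hn] at b1 b2
  have hr : (1 / Real.sqrt n) ^ 2 * n = 1 := by
    rw [div_pow, one_pow, Real.sq_sqrt hnpos.le]
    field_simp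
  refine ⟨fun τ x => ((1 / Real.sqrt n : ℝ) : ℂ) * ins1 D sp s σ0 φ Ψ τ x, ?_, ?_, ?_, ?_⟩
  · exact sc753_state D _ ℓ _ _ h1
  · rw [sc753_nrm2, b1, ← mul_assoc, hr, one_mul, a1]
  · rw [sc753_energy D _ _ _ h1.smooth, b2, ← mul_assoc, hr, one_mul, a2]
  · intro w hw
    rw [ig_scale, ig_disj D sp ℓ s σ0 φ hφ hφc Ψ hΨ hv w hw, ← hn, ← mul_assoc, hr, one_mul,
      ig_ins0 D sp ℓ s σ0 φ hφ hφc hφ1 Ψ hΨ w hw]

end Pool.Agent.Helper780_CP.RINS1
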