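import Pool.Agent.Helper780_CP.LLDefs2
import Pool.Agent.Helper780_CP.RINS1
import Pool.Agent.Helper780_CP.RMC2

set_option autoImplicit false

open MeasureTheory
open scoped Topology

namespace Pool.Agent.Helper780_CP.RMI

open Pool.Agent.Helper780_CP
open Pool.Agent.Helper985.CP
open Pool.Agent.Helper780_CP.RINS1 (insert_gen)
open Pool.Agent.Helper780_CP.RMC2 (multiD)

open Pool.Agent.Helper985.CP

theorem mi_listWI {S : Type} (D : Species S) {I : Type} [Fintype I] [DecidableEq I] (sp : I → S)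
    (ℓ : ℝ) {A : Type} (L : List A) (V : A → (I → E3) → ℝ) (hV : ∀ a, WI D sp ℓ (V a)) :
    WI D sp ℓ (fun x => (L.map (fun a => V a x)).sum) := by
  induction L with
  | nil => simpa using WI_zero D sp ℓ
  | cons a L ih =>
    simp only [List.map_cons, List.sum_cons]
    exact WI_add D sp ℓ (hV a) ih

theorem mi_listwm {S : Type} (D : Species S) {I : Type} [Fintype I] [DecidableEq I] (sp : I → S)
    (ℓ : ℝ) {A : Type} (L : List A) (V : A → (I → E3) → ℝ) (hV : ∀ a, WI D sp ℓ (V a))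
    (Ψ : Wave D I) (hΨ : IsState D sp ℓ Ψ) :
    wm D (fun x => (L.map (fun a => V a x)).sum) Ψ = (L.map (fun a => wm D (V a) Ψ)).sum := by
  induction L with
  | nil =>
    simp [wm]
  | cons a L ih =>
    simp only [List.map_cons, List.sum_cons]
    rw [wm_add D sp ℓ (hV a) (mi_listWI D sp ℓ L V hV) Ψ hΨ, ih]

theorem mi_qf_add {S : Type} (D : Species S) {I : Type} [Fintype I] [DecidableEq I] (sp : I → S)
    (ℓ : ℝ) {V W : (I → E3) → ℝ} (hV : WI D sp ℓ V) (hW : WI D sp ℓ W) (a : I → ℝ)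
    (Ψ : Wave D I) (hΨ : IsState D sp ℓ Ψ) :
    qf D sp a (fun x => V x + W x) Ψ = qf D sp a V Ψ + wm D W Ψ := by
  unfold qf wm
  rw [← Finset.sum_add_distrib]
  refine Finset.sum_congr rfl fun τ _ => ?_
  rw [← integral_add (qf_int D sp ℓ a hV Ψ hΨ τ) (hW Ψ hΨ τ)]
  refine integral_congr_ae (Filter.Eventually.of_forall fun x => ?_)
  simp only
  ring

/-- the Coulomb weights of a list of points -/
theorem mi_WIc {S : Type} (D : Species S) {I : Type} [Fintype I] [DecidableEq I] (sp : I → S)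
    (ℓ : ℝ) (p : S × E3) :
    WI D sp ℓ (fun x => D.charge p.1 * ∑ i, D.charge (sp i) * (1 / ‖x i - p.2‖)) :=
  WI_smul D sp ℓ (WI_phi D sp ℓ p.2) _

theorem mi_qf {S : Type} (D : Species S) {I : Type} [Fintype I] [DecidableEq I] (sp : I → S)
    (ℓ : ℝ) (L : List (S × E3)) (Ψ : Wave D I) (hΨ : IsState D sp ℓ Ψ) :
    qf D sp (fun _ => 1) (fun x => coul D sp x + (L.map (fun p => D.charge p.1 *
      ∑ i, D.charge (sp i) * (1 / ‖x i - p.2‖))).sum) Ψ =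
      energy D sp Ψ + (L.map (fun p => D.charge p.1 * phim D sp Ψ p.2)).sum := by
  rw [mi_qf_add D sp ℓ (WI_coul D sp ℓ) (mi_listWI D sp ℓ L _ (mi_WIc D sp ℓ)) _ Ψ hΨ,
    mi_listwm D sp ℓ L _ (mi_WIc D sp ℓ) Ψ hΨ]
  congr 1
  · unfold qf energy
    simp only [one_mul]
  · congr 1
    refine List.map_congr_left fun p _ => ?_
    rw [wm_smul]
    rfl

theorem mi_WIk {S : Type} (D : Species S) {I : Type} [Fintype I] [DecidableEq I] (sp : I → S)
    (ℓ : ℝ) (y : E3) : WI D sp ℓ (fun x => ∑ i, kk (x i - y)) :=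
  WI_sum D sp ℓ _ _ fun i _ =>
    WI_one D sp ℓ i (fun z => kk (z - y)) (locInt_shift kk_int.locallyIntegrable y)

theorem mi_WIu {S : Type} (D : Species S) {I : Type} [Fintype I] [DecidableEq I] (sp : I → S)
    (ℓ : ℝ) (p : S × E3) : WI D sp ℓ (fun x => 1 + ∑ i, kk (x i - p.2)) :=
  WI_add D sp ℓ (WI_const D sp ℓ 1) (mi_WIk D sp ℓ p.2)

theorem mi_U {S : Type} (D : Species S) {I : Type} [Fintype I] [DecidableEq I] (sp : I → S)
    (ℓ : ℝ) (L : List (S × E3)) (Ψ : Wave D I) (hΨ : IsState D sp ℓ Ψ) :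
    wm D (fun x => (L.map (fun p : S × E3 => 1 + ∑ i, kk (x i - p.2))).sum) Ψ =
      (L.map (fun p => nrm2 D Ψ + kkm D Ψ p.2)).sum := by
  rw [mi_listwm D sp ℓ L _ (mi_WIu D sp ℓ) Ψ hΨ]
  congr 1
  refine List.map_congr_left fun p _ => ?_
  rw [wm_add D sp ℓ (WI_const D sp ℓ 1) (mi_WIk D sp ℓ p.2) Ψ hΨ, wm_one]
  rfl

theorem mi_wm_nonneg {S : Type} (D : Species S) {I : Type} [Fintype I] [DecidableEq I]
    {W : (I → E3) → ℝ} (hW : ∀ x, 0 ≤ W x) (Ψ : Wave D I) : 0 ≤ wm D W Ψ := by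
  unfold wm
  exact Finset.sum_nonneg fun τ _ => integral_nonneg fun x => mul_nonneg (hW x) (sq_nonneg _)

theorem mi_near {S : Type} (D : Species S) {I : Type} [Fintype I] [DecidableEq I] (sp : I → S)
    (ℓ : ℝ) (y : E3) (Ψ : Wave D I) (hΨ : IsState D sp ℓ Ψ) :
    wm D (near2 y) Ψ ≤ nrm2 D Ψ + kkm D Ψ y := by
  have h1 := wm_mono D sp ℓ (WI_near2 D sp ℓ y)
    (WI_add D sp ℓ (WI_const D sp ℓ 1) (mi_WIk D sp ℓ y)) Ψ hΨ
    (Filter.Eventually.of_forall fun x => near2_le_kk y x)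
  rw [wm_add D sp ℓ (WI_const D sp ℓ 1) (mi_WIk D sp ℓ y) Ψ hΨ, wm_one] at h1
  exact h1

theorem mi_cnt {S : Type} [DecidableEq S] {I : Type} [Fintype I] [DecidableEq I] (sp : I → S)
    (s t : S) : cnt (fun o : Option I => o.elim s sp) t = cnt sp t + if s = t then 1 else 0 := by
  unfold cnt
  rw [Finset.card_filter, Finset.card_filter, Fintype.sum_option]
  simp only [Option.elim_none, Option.elim_some]
  rw [add_comm]
  rfl

theorem mi_kd_nonneg (w : E3) : 0 ≤ kd w := Set.indicator_nonneg (fun _ _ => by positivity) w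

theorem mi_kk {C₁ δ : ℝ} (hC₁ : 0 ≤ C₁) (hδ1 : δ ≤ 1) (y q : E3) (φ : E3 → ℝ)
    (hφ : Continuous φ) (hφc : HasCompactSupport φ)
    (hn1 : ∫ z, ‖z - q‖⁻¹ ^ 2 * φ z ^ 2 ≤ C₁ * ‖y - q‖⁻¹ ^ 2)
    (hs : ∀ z, φ z ≠ 0 → ‖z - y‖ < δ) :
    ∫ z, kk (z - q) * φ z ^ 2 ≤ C₁ * kd (y - q) := by
  by_cases h : ‖y - q‖ < 3
  · have e1 : kd (y - q) = ‖y - q‖⁻¹ ^ 2 := by
      unfold kd
      rw [Set.indicator_of_mem]
      simpa using h
    rw [e1]
    refine le_trans ?_ hn1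
    have hsq : Continuous (fun z => φ z ^ 2) := hφ.pow 2
    have hsc : HasCompactSupport (fun z => φ z ^ 2) := hφc.comp_left (g := fun a : ℝ => a ^ 2) (by simp)
    have hi : Integrable (fun z => ‖z - q‖⁻¹ ^ 2 * φ z ^ 2) := by
      have := (locInt_shift locInt_inv2 q).integrable_smul_right_of_hasCompactSupport hsq hsc
      simpa only [smul_eq_mul] using this
    refine integral_mono_of_nonneg (Filter.Eventually.of_forall fun z =>
      mul_nonneg (kk_nonneg _) (sq_nonneg _)) hi (Filter.Eventually.of_forall fun z => ?_)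
    refine mul_le_mul_of_nonneg_right ?_ (sq_nonneg _)
    unfold kk
    exact Set.indicator_le_self' (fun _ _ => by positivity) _
  · rw [not_lt] at h
    have e2 : ∀ z, kk (z - q) * φ z ^ 2 = 0 := by
      intro z
      by_cases hz : φ z = 0
      · rw [hz]; simp
      · have h1 := hs z hz
        have h2 : ‖y - q‖ ≤ ‖z - y‖ + ‖z - q‖ := by
          have : y - q = -(z - y) + (z - q) := by abel
          calc ‖y - q‖ = ‖-(z - y) + (z - q)‖ := by rw [← this]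
            _ ≤ ‖-(z - y)‖ + ‖z - q‖ := norm_add_le _ _
            _ = ‖z - y‖ + ‖z - q‖ := by rw [norm_neg]
        have h3 : kk (z - q) = 0 := by
          unfold kk
          rw [Set.indicator_of_notMem]
          rw [Metric.mem_ball, dist_zero_right]
          linarith
        rw [h3, zero_mul]
    simp only [e2, integral_zero]
    exact mul_nonneg hC₁ (mi_kd_nonneg _)


/-- the pair terms -/
theorem mi_pairs {S : Type} (D : Species S) {I : Type} [Fintype I] [DecidableEq I] (sp : I → S)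
    (ℓ : ℝ) {C₁ C Z δ : ℝ} (hC₁ : 0 ≤ C₁) (hC : 0 ≤ C) (hδ1 : δ ≤ 1)
    (hZ : ∀ s t, |D.charge s * D.charge t| ≤ Z) (s : S) (y : E3) (φ : E3 → ℝ)
    (hφ : Continuous φ) (hφc : HasCompactSupport φ)
    (hn1 : ∀ q, q ≠ y → ∫ z, ‖z - q‖⁻¹ ^ 2 * φ z ^ 2 ≤ C₁ * ‖y - q‖⁻¹ ^ 2)
    (hs : ∀ z, φ z ≠ 0 → ‖z - y‖ < δ)
    (hn2 : ∀ q, q ≠ y → |pot φ q - 1 / ‖y - q‖| ≤ C₁ * kd (y - q))
    (Ψ : Wave D I) (Φ : Wave D (Option I)) (hn : nrm2 D Φ = nrm2 D Ψ)
    (hw : ∀ w : S → E3 → ℝ, (∀ t, LocallyIntegrable (w t) volume) →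
        wm D (fun x => ∑ o : Option I, w (o.elim s sp) (x o)) Φ =
          wm D (fun x => ∑ i, w (sp i) (x i)) Ψ + (∫ z, w s z * φ z ^ 2) * nrm2 D Ψ)
    (L : List (S × E3)) (hL : ∀ p ∈ L, y ≠ p.2) :
    (L.map (fun p => D.charge p.1 * phim D (fun o : Option I => o.elim s sp) Φ p.2 +
      C * (nrm2 D Φ + kkm D Φ p.2))).sum ≤
      (L.map (fun p => D.charge p.1 * phim D sp Ψ p.2)).sum +
      (L.map (fun q => D.charge s * D.charge q.1 / ‖y - q.2‖ +
        ((Z + C) * C₁) * kd (y - q.2))).sum * nrm2 D Ψ +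
      C * (L.map (fun p => nrm2 D Ψ + kkm D Ψ p.2)).sum := by
  rw [← List.sum_map_mul_right, ← List.sum_map_mul_left, ← List.sum_map_add, ← List.sum_map_add]
  refine List.sum_le_sum fun p hp => ?_
  have hne : p.2 ≠ y := (hL p hp).symm
  have nn := nrm2_nn D Ψ
  have a1 : phim D (fun o : Option I => o.elim s sp) Φ p.2 =
      phim D sp Ψ p.2 + D.charge s * pot φ p.2 * nrm2 D Ψ := by
    have h1 := hw (fun t z => D.charge t * (1 / ‖z - p.2‖)) (fun t => by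
      have := (locInt_shift pot_props_locInt p.2).smul (D.charge t)
      simpa only [one_div, smul_eq_mul, Pi.smul_def] using this)
    have h2 : (∫ z, D.charge s * (1 / ‖z - p.2‖) * φ z ^ 2) = D.charge s * pot φ p.2 := by
      unfold pot
      rw [← integral_const_mul]
      refine integral_congr_ae (Filter.Eventually.of_forall fun z => ?_)
      simp only
      rw [norm_sub_rev z p.2]
      ring
    rw [h2] at h1
    exact h1
  have a2 : kkm D Φ p.2 = kkm D Ψ p.2 + (∫ z, kk (z - p.2) * φ z ^ 2) * nrm2 D Ψ :=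
    hw (fun _ z => kk (z - p.2)) (fun _ => locInt_shift kk_int.locallyIntegrable p.2)
  have a3 := mi_kk hC₁ hδ1 y p.2 φ hφ hφc (hn1 p.2 hne) hs
  have a4 := hn2 p.2 hne
  have a5 : D.charge p.1 * D.charge s * pot φ p.2 ≤
      D.charge s * D.charge p.1 / ‖y - p.2‖ + Z * (C₁ * kd (y - p.2)) := by
    have b1 : D.charge p.1 * D.charge s * pot φ p.2 = D.charge s * D.charge p.1 / ‖y - p.2‖ +
        D.charge p.1 * D.charge s * (pot φ p.2 - 1 / ‖y - p.2‖) := by ring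
    have b2 : D.charge p.1 * D.charge s * (pot φ p.2 - 1 / ‖y - p.2‖) ≤
        Z * (C₁ * kd (y - p.2)) := by
      refine (le_abs_self _).trans ?_
      rw [abs_mul]
      exact mul_le_mul (hZ _ _) a4 (abs_nonneg _) ((abs_nonneg _).trans (hZ p.1 s))
    linarith
  have a6 := mul_le_mul_of_nonneg_right a5 nn
  have a7 := mul_le_mul_of_nonneg_left (mul_le_mul_of_nonneg_right a3 nn) hC
  rw [hn, a1, a2]
  linarith

theorem mi_step {S : Type} [Fintype S] [DecidableEq S] (D : Species S) (hD : D.Valid)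
    (δ : ℝ) (hδ : 0 < δ) (hδ1 : δ ≤ 1) :
    ∃ C C' : ℝ, 0 < C ∧ 0 < C' ∧ ∀ (ℓ : ℝ) (Eb : (S → ℕ) → ℝ),
      (∀ {I : Type} [Fintype I] [DecidableEq I] (sp : I → S) (Φ : Wave D I),
        IsState D sp ℓ Φ → Eb (fun s => cnt sp s) * nrm2 D Φ ≤ energy D sp Φ) →
      ∀ (s : S) (y : E3) (L : List (S × E3)), Metric.closedBall y δ ⊆ cube ℓ →
        (∀ p ∈ L, y ≠ p.2) →
      (∀ {I : Type} [Fintype I] [DecidableEq I] (sp : I → S) (Ψ : Wave D I),
        IsState D sp ℓ Ψ →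
        Eb (fun s => cnt sp s + L.countP (fun p => decide (p.1 = s))) * nrm2 D Ψ ≤
          energy D sp Ψ + (L.map (fun p => D.charge p.1 * phim D sp Ψ p.2 +
            C * (nrm2 D Ψ + kkm D Ψ p.2))).sum + prs D C' L * nrm2 D Ψ) →
      ∀ {I : Type} [Fintype I] [DecidableEq I] (sp : I → S) (Ψ : Wave D I),
        IsState D sp ℓ Ψ →
        Eb (fun t => cnt sp t + (((s, y) :: L : List (S × E3))).countP
          (fun p => decide (p.1 = t))) * nrm2 D Ψ ≤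
          energy D sp Ψ + ((((s, y) :: L : List (S × E3))).map (fun p =>
            D.charge p.1 * phim D sp Ψ p.2 +
            C * (nrm2 D Ψ + kkm D Ψ p.2))).sum + prs D C' ((s, y) :: L) * nrm2 D Ψ := by
  obtain ⟨C₁, hC₁, H'⟩ := multiD D hD
  obtain ⟨Z, hZ⟩ : ∃ Z : ℝ, ∀ s t, |D.charge s * D.charge t| ≤ Z := by
    obtain ⟨Z, hZ⟩ := (Set.finite_range
      (fun p : S × S => |D.charge p.1 * D.charge p.2|)).bddAbove
    exact ⟨Z, fun s t => hZ ⟨(s, t), rfl⟩⟩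
  obtain ⟨Z', hZ'0, hZ'⟩ : ∃ Z' : ℝ, 0 ≤ Z' ∧ ∀ s t, |D.charge s * D.charge t| ≤ Z' :=
    ⟨max Z 0, le_max_right _ _, fun s t => (hZ s t).trans (le_max_left _ _)⟩
  obtain ⟨Cd, hCd⟩ : ∃ Cd, Cd = C₁ / δ ^ 2 := ⟨_, rfl⟩
  have hCd0 : 0 < Cd := by rw [hCd]; positivity
  obtain ⟨C, hC⟩ : ∃ C, C = 3 * Cd := ⟨_, rfl⟩
  have hC0 : 0 < C := by rw [hC]; positivity
  obtain ⟨C', hC'⟩ : ∃ C', C' = (Z' + C) * C₁ := ⟨_, rfl⟩
  refine ⟨C, C', hC0, by rw [hC']; positivity, ?_⟩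
  intro ℓ Eb hEb s y L hy hL IH I _ _ sp Ψ hΨ
  obtain ⟨g, h, φ, ⟨g1, g2, g3⟩, ⟨h1, h2, h3⟩, hφ, hvan, hpot, hn1, hsup, hn2, hqf, hwm, hcost,
    hlim⟩ := H' δ hδ hδ1 (I := I) sp ℓ y hy
  rw [← hCd] at hqf hcost
  -- abbreviations
  obtain ⟨E, hE⟩ : ∃ E : ℝ, E = Eb (fun t => cnt sp t + (((s, y) :: L : List (S × E3))).countP
          (fun p => decide (p.1 = t))) := ⟨_, rfl⟩
  have hE2 : Eb (fun t => cnt (fun o : Option I => o.elim s sp) t +
      L.countP (fun p => decide (p.1 = t))) = E := by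
    rw [hE]
    congr 1
    funext t
    rw [mi_cnt, List.countP_cons]
    simp only [decide_eq_true_eq]
    omega
  obtain ⟨W, hW⟩ : ∃ W : (I → E3) → ℝ, W = fun x => coul D sp x +
    (((s, y) :: L : List (S × E3)).map (fun p => D.charge p.1 *
      ∑ i, D.charge (sp i) * (1 / ‖x i - p.2‖))).sum := ⟨_, rfl⟩
  have hWI : WI D sp ℓ W := by
    rw [hW]
    exact WI_add D sp ℓ (WI_coul D sp ℓ) (mi_listWI D sp ℓ _ _ (mi_WIc D sp ℓ))
  have hq1 : ∀ Φ : Wave D I, IsState D sp ℓ Φ → qf D sp (fun _ => 1) W Φ =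
      energy D sp Φ + (D.charge s * phim D sp Φ y +
        (L.map (fun p => D.charge p.1 * phim D sp Φ p.2)).sum) := by
    intro Φ hΦ
    rw [hW, mi_qf D sp ℓ _ Φ hΦ, List.map_cons, List.sum_cons]
  obtain ⟨U, hU⟩ : ∃ U : (I → E3) → ℝ, U = fun x =>
    (L.map (fun p : S × E3 => 1 + ∑ i, kk (x i - p.2))).sum := ⟨_, rfl⟩
  have hUI : WI D sp ℓ U := by
    rw [hU]
    exact mi_listWI D sp ℓ L _ (mi_WIu D sp ℓ)
  have hU1 : ∀ Φ : Wave D I, IsState D sp ℓ Φ → wm D U Φ =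
      (L.map (fun p => nrm2 D Φ + kkm D Φ p.2)).sum := by
    intro Φ hΦ
    rw [hU]
    exact mi_U D sp ℓ L Φ hΦ
  have hUn : ∀ x, 0 ≤ U x := by
    intro x
    rw [hU]
    refine List.sum_nonneg fun a ha => ?_
    obtain ⟨p, -, rfl⟩ := List.mem_map.1 ha
    have : 0 ≤ ∑ i, kk (x i - p.2) := Finset.sum_nonneg fun i _ => kk_nonneg _
    linarith
  obtain ⟨P, hP⟩ : ∃ P, P = prs D C' ((s, y) :: L) := ⟨_, rfl⟩
  have hP2 : P = (L.map (fun q => D.charge s * D.charge q.1 / ‖y - q.2‖ +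
      C' * kd (y - q.2))).sum + prs D C' L := by rw [hP]; rfl
  -- one scale
  have hone : ∀ k, 0 ≤ qf D sp (fun _ => 1) W (mulW D (g k) Ψ) -
      (E - P) * nrm2 D (mulW D (g k) Ψ) + ((1 / (2 * D.mass s)) * grad2 (φ k) + ((k : ℝ) + 1)) *
        nrm2 D (mulW D (g k) Ψ) + C * wm D U (mulW D (g k) Ψ) := by
    intro k
    have hst := mulW_state D sp ℓ Ψ hΨ (g k) (g1 k) (g2 k)
    obtain ⟨p1, p2, p3, p4⟩ := hφ k
    obtain ⟨Φ, q1, q2, q3, q4⟩ := insert_gen D hD sp ℓ s (φ k) p1 p2 p3 p4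
      (mulW D (g k) Ψ) hst (by
      intro τ x j _ hj
      unfold mulW
      rw [hvan k x j hj]
      simp)
    have e1 : mean D sp (mulW D (g k) Ψ) (pot (φ k)) = phim D sp (mulW D (g k) Ψ) y := by
      unfold phim mean
      refine Finset.sum_congr rfl fun τ _ => ?_
      refine integral_congr_ae (Filter.Eventually.of_forall fun x => ?_)
      simp only
      by_cases hx : g k x = 0
      · unfold mulW
        rw [hx]
        simp
      · congr 1
        refine Finset.sum_congr rfl fun j _ => ?_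
        rw [hpot k x hx j]
    have hEE := IH (fun o : Option I => o.elim s sp) Φ q1
    rw [hE2] at hEE
    have hpp := mi_pairs D sp ℓ hC₁.le hC0.le hδ1 hZ' s y (φ k) p1.continuous p2
      (hn1 k) (hsup k) (hn2 k) (mulW D (g k) Ψ) Φ q2 q4 L hL
    rw [← hC', ← hU1 _ hst] at hpp
    rw [q3, e1] at hEE
    rw [q2] at hEE hpp
    rw [hq1 _ hst, hP2]
    have hn := nrm2_nn D (mulW D (g k) Ψ)
    have hk : 0 ≤ ((k : ℝ) + 1) * nrm2 D (mulW D (g k) Ψ) := by positivity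
    linarith
  have hUlim := hlim U hUI Ψ hΨ
  have hsum : ∀ K, 0 ≤ qf D sp (fun _ => 1) W Ψ + Cd * wm D (near2 y) Ψ -
      qf D sp (fun _ => 1) W (mulW D (h K) Ψ) -
      (E - P) * (nrm2 D Ψ - nrm2 D (mulW D (h K) Ψ)) + Cd * (nrm2 D Ψ + wm D (near2 y) Ψ) +
      C * wm D U Ψ := by
    intro K
    have s0 : 0 ≤ ∑ k ∈ Finset.range K, (qf D sp (fun _ => 1) W (mulW D (g k) Ψ) -
      (E - P) * nrm2 D (mulW D (g k) Ψ) + ((1 / (2 * D.mass s)) * grad2 (φ k) + ((k : ℝ) + 1)) *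
        nrm2 D (mulW D (g k) Ψ) + C * wm D U (mulW D (g k) Ψ)) :=
      Finset.sum_nonneg fun k _ => hone k
    rw [Finset.sum_add_distrib, Finset.sum_add_distrib, Finset.sum_sub_distrib,
      ← Finset.mul_sum, ← Finset.mul_sum] at s0
    have s1 := hqf (fun _ => 1) (fun j => by norm_num) W hWI Ψ hΨ K
    have s2 := hwm (fun _ => 1) (WI_const D sp ℓ 1) Ψ hΨ K
    have s3 := hcost Ψ hΨ K s
    have s5 := hwm U hUI Ψ hΨ K
    simp only [wm_one] at s2
    have s4 : ∑ k ∈ Finset.range K, nrm2 D (mulW D (g k) Ψ) =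
        nrm2 D Ψ - nrm2 D (mulW D (h K) Ψ) := by linarith
    have s6 : ∑ k ∈ Finset.range K, wm D U (mulW D (g k) Ψ) ≤ wm D U Ψ := by
      have := mi_wm_nonneg D hUn (mulW D (h K) Ψ)
      linarith
    have s7 := mul_le_mul_of_nonneg_left s6 hC0.le
    rw [s4] at s0
    linarith
  have hlow : ∀ K, Eb (fun s => cnt sp s) * nrm2 D (mulW D (h K) Ψ) +
      (wm D W (mulW D (h K) Ψ) - wm D (coul D sp) (mulW D (h K) Ψ)) ≤
        qf D sp (fun _ => 1) W (mulW D (h K) Ψ) := by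
    intro K
    have hst := mulW_state D sp ℓ Ψ hΨ (h K) (h1 K) (h2 K)
    have l1 := hEb sp _ hst
    have l2 : wm D W (mulW D (h K) Ψ) = wm D (coul D sp) (mulW D (h K) Ψ) +
        (D.charge s * phim D sp (mulW D (h K) Ψ) y +
        (L.map (fun p => D.charge p.1 * phim D sp (mulW D (h K) Ψ) p.2)).sum) := by
      rw [hW, wm_add D sp ℓ (WI_coul D sp ℓ) (mi_listWI D sp ℓ _ _ (mi_WIc D sp ℓ)) _ hst,
        mi_listwm D sp ℓ _ _ (mi_WIc D sp ℓ) _ hst, List.map_cons, List.sum_cons]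
      congr 2
      · rw [wm_smul]
        rfl
      · congr 1
        refine List.map_congr_left fun p _ => ?_
        rw [wm_smul]
        rfl
    rw [hq1 _ hst, l2]
    linarith
  have t1 : Filter.Tendsto (fun K => nrm2 D (mulW D (h K) Ψ)) Filter.atTop (𝓝 0) := by
    have := hlim (fun _ => 1) (WI_const D sp ℓ 1) Ψ hΨ
    simpa only [wm_one] using this
  have t2 : Filter.Tendsto (fun K => wm D W (mulW D (h K) Ψ)) Filter.atTop (𝓝 0) :=
    hlim _ hWI Ψ hΨ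
  have t4 : Filter.Tendsto (fun K => wm D (coul D sp) (mulW D (h K) Ψ)) Filter.atTop (𝓝 0) :=
    hlim _ (WI_coul D sp ℓ) Ψ hΨ
  have hfin : ∀ K, 0 ≤ (qf D sp (fun _ => 1) W Ψ - (E - P) * nrm2 D Ψ +
      Cd * wm D (near2 y) Ψ + Cd * (nrm2 D Ψ + wm D (near2 y) Ψ) + C * wm D U Ψ) +
      ((E - P - Eb (fun s => cnt sp s)) * nrm2 D (mulW D (h K) Ψ) -
        (wm D W (mulW D (h K) Ψ) - wm D (coul D sp) (mulW D (h K) Ψ))) := by
    intro K
    have := hsum K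
    have := hlow K
    linarith
  have t3 : Filter.Tendsto (fun K => (qf D sp (fun _ => 1) W Ψ - (E - P) * nrm2 D Ψ +
      Cd * wm D (near2 y) Ψ + Cd * (nrm2 D Ψ + wm D (near2 y) Ψ) + C * wm D U Ψ) +
      ((E - P - Eb (fun s => cnt sp s)) * nrm2 D (mulW D (h K) Ψ) -
        (wm D W (mulW D (h K) Ψ) - wm D (coul D sp) (mulW D (h K) Ψ)))) Filter.atTop
      (𝓝 ((qf D sp (fun _ => 1) W Ψ - (E - P) * nrm2 D Ψ +
      Cd * wm D (near2 y) Ψ + Cd * (nrm2 D Ψ + wm D (near2 y) Ψ) + C * wm D U Ψ) +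
      ((E - P - Eb (fun s => cnt sp s)) * 0 - (0 - 0)))) :=
    ((t1.const_mul _).sub (t2.sub t4)).const_add _
  have hfinal := ge_of_tendsto' t3 hfin
  rw [hq1 Ψ hΨ, hU1 Ψ hΨ] at hfinal
  have hn := nrm2_nn D Ψ
  have hnear := mul_le_mul_of_nonneg_left (mi_near D sp ℓ y Ψ hΨ) hCd0.le
  have hkk : 0 ≤ Cd * kkm D Ψ y := mul_nonneg hCd0.le (mi_wm_nonneg D (fun x =>
    Finset.sum_nonneg fun i _ => kk_nonneg _) Ψ)
  have hLs : (((s, y) :: L : List (S × E3)).map (fun p => D.charge p.1 * phim D sp Ψ p.2 +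
      C * (nrm2 D Ψ + kkm D Ψ p.2))).sum = (D.charge s * phim D sp Ψ y +
      C * (nrm2 D Ψ + kkm D Ψ y)) + ((L.map (fun p => D.charge p.1 * phim D sp Ψ p.2)).sum +
      C * (L.map (fun p => nrm2 D Ψ + kkm D Ψ p.2)).sum) := by
    rw [List.map_cons, List.sum_cons, List.sum_map_add, List.sum_map_mul_left]
  rw [← hE, ← hP, hLs, hC]
  rw [hC] at hfinal
  linarith

/-- TARGET -/
theorem multi_insert {S : Type} [Fintype S] [DecidableEq S] (D : Species S) (hD : D.Valid)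
    (δ : ℝ) (hδ : 0 < δ) (hδ1 : δ ≤ 1) :
    ∃ C C' : ℝ, 0 < C ∧ 0 < C' ∧ ∀ (ℓ : ℝ) (Eb : (S → ℕ) → ℝ),
      (∀ {I : Type} [Fintype I] [DecidableEq I] (sp : I → S) (Φ : Wave D I),
        IsState D sp ℓ Φ → Eb (fun s => cnt sp s) * nrm2 D Φ ≤ energy D sp Φ) →
      ∀ L : List (S × E3), (∀ p ∈ L, Metric.closedBall p.2 δ ⊆ cube ℓ) →
        L.Pairwise (fun p q => p.2 ≠ q.2) →
      ∀ {I : Type} [Fintype I] [DecidableEq I] (sp : I → S) (Ψ : Wave D I),
        IsState D sp ℓ Ψ →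
        Eb (fun s => cnt sp s + L.countP (fun p => decide (p.1 = s))) * nrm2 D Ψ ≤
          energy D sp Ψ + (L.map (fun p => D.charge p.1 * phim D sp Ψ p.2 +
            C * (nrm2 D Ψ + kkm D Ψ p.2))).sum + prs D C' L * nrm2 D Ψ := by
  obtain ⟨C, C', hC, hC', H⟩ := mi_step D hD δ hδ hδ1
  refine ⟨C, C', hC, hC', fun ℓ Eb hEb L => ?_⟩
  induction L with
  | nil =>
    intro _ _ I _ _ sp Ψ hΨ
    have := hEb sp Ψ hΨ
    simpa [prs] using this
  | cons p L ih =>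
    intro hb hp I _ _ sp Ψ hΨ
    obtain ⟨s, y⟩ := p
    rw [List.pairwise_cons] at hp
    exact H ℓ Eb hEb s y L (hb (s, y) (by simp)) (fun q hq => hp.1 q hq)
      (fun {J} _ _ sq Φ hΦ => ih (fun q hq => hb q (by simp [hq])) hp.2 sq Φ hΦ) sp Ψ hΨ

end Pool.Agent.Helper780_CP.RMI
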