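import Pool.Agent.Helper780_CP.LLDefs2
import Pool.Agent.Helper780_CP.RMI

set_option autoImplicit false

open MeasureTheory
open scoped Topology

namespace Pool.Agent.Helper780_CP.RAVG

open Pool.Agent.Helper780_CP
open Pool.Agent.Helper985.CP
open Pool.Agent.Helper780_CP.RMI (multi_insert)

open Pool.Agent.Helper985.CP

theorem av_conv (k : E3 → ℝ) (hkl : LocallyIntegrable k volume)
    (π : E3 → ℝ) (hπ : Continuous π) (hπc : HasCompactSupport π) :
    Continuous (fun x => ∫ z, π z * k (x - z)) ∧ ∀ x, Integrable (fun z => π z * k (x - z)) := by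
  have h := hπc.continuous_convolution_left (ContinuousLinearMap.mul ℝ ℝ) hπ hkl
  have h2 := hπc.convolutionExists_left (ContinuousLinearMap.mul ℝ ℝ) hπ hkl
  constructor
  · have he : (fun x => ∫ z, π z * k (x - z)) = (MeasureTheory.convolution π k
      (ContinuousLinearMap.mul ℝ ℝ) volume) := by
      funext y
      simp only [MeasureTheory.convolution, ContinuousLinearMap.mul_apply']
    rw [he]
    exact h
  · intro x
    have := h2 x
    simpa only [ConvolutionExistsAt, ContinuousLinearMap.mul_apply'] using this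

theorem av_prod {I : Type} [Fintype I] (k : E3 → ℝ) (hkm : Measurable k) (hk0 : ∀ z, 0 ≤ k z)
    (hkl : LocallyIntegrable k volume)
    (π : E3 → ℝ) (hπ : Continuous π) (hπc : HasCompactSupport π) (hπ0 : ∀ z, 0 ≤ π z)
    (F : (I → E3) → ℝ) (hF : Continuous F) (hFc : HasCompactSupport F) (i : I) :
    Integrable (fun q : (I → E3) × E3 => π q.2 * (k (q.1 i - q.2) * F q.1))
      ((volume : Measure (I → E3)).prod (volume : Measure E3)) := by
  obtain ⟨hV, hVi⟩ := av_conv k hkl π hπ hπc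
  have hm : Measurable (fun q : (I → E3) × E3 => π q.2 * (k (q.1 i - q.2) * F q.1)) :=
    (hπ.measurable.comp measurable_snd).mul
      ((hkm.comp (((measurable_pi_apply i).comp measurable_fst).sub measurable_snd)).mul
      (hF.measurable.comp measurable_fst))
  refine (integrable_prod_iff hm.aestronglyMeasurable).2 ⟨?_, ?_⟩
  · refine Filter.Eventually.of_forall fun x => ?_
    refine ((hVi (x i)).mul_const (F x)).congr (Filter.Eventually.of_forall fun z => ?_)
    show π z * k (x i - z) * F x = π z * (k (x i - z) * F x)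
    ring
  · have h2 : ∀ x : I → E3, ∫ y, ‖π y * (k (x i - y) * F x)‖ =
        (∫ z, π z * k (x i - z)) * ‖F x‖ := by
      intro x
      rw [← integral_mul_const]
      refine integral_congr_ae (Filter.Eventually.of_forall fun y => ?_)
      show ‖π y * (k (x i - y) * F x)‖ = π y * k (x i - y) * ‖F x‖
      rw [norm_mul, norm_mul, Real.norm_of_nonneg (hπ0 _), Real.norm_of_nonneg (hk0 _), mul_assoc]
    simp only [h2]
    have hc : Continuous (fun x : I → E3 => (∫ z, π z * k (x i - z)) * ‖F x‖) :=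
      (hV.comp (continuous_apply i)).mul hF.norm
    refine hc.integrable_of_hasCompactSupport ?_
    exact (hFc.norm).mul_left

theorem av_prod2 (k : E3 → ℝ) (hkm : Measurable k) (hk0 : ∀ z, 0 ≤ k z)
    (hkl : LocallyIntegrable k volume)
    (π : E3 → ℝ) (hπ : Continuous π) (hπc : HasCompactSupport π) (hπ0 : ∀ z, 0 ≤ π z)
    (F : E3 → ℝ) (hF : Continuous F) (hFc : HasCompactSupport F) :
    Integrable (fun q : E3 × E3 => F q.1 * (π q.2 * k (q.1 - q.2)))
      ((volume : Measure E3).prod (volume : Measure E3)) := by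
  obtain ⟨hV, hVi⟩ := av_conv k hkl π hπ hπc
  have hm : Measurable (fun q : E3 × E3 => F q.1 * (π q.2 * k (q.1 - q.2))) :=
    (hF.measurable.comp measurable_fst).mul ((hπ.measurable.comp measurable_snd).mul
      (hkm.comp (measurable_fst.sub measurable_snd)))
  refine (integrable_prod_iff hm.aestronglyMeasurable).2 ⟨?_, ?_⟩
  · exact Filter.Eventually.of_forall fun x => (hVi x).const_mul (F x)
  · have h2 : ∀ x : E3, ∫ y, ‖F x * (π y * k (x - y))‖ =
        (∫ z, π z * k (x - z)) * ‖F x‖ := by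
      intro x
      rw [← integral_mul_const]
      refine integral_congr_ae (Filter.Eventually.of_forall fun y => ?_)
      show ‖F x * (π y * k (x - y))‖ = π y * k (x - y) * ‖F x‖
      rw [norm_mul, norm_mul, Real.norm_of_nonneg (hπ0 _), Real.norm_of_nonneg (hk0 _)]
      ring
    simp only [h2]
    refine (hV.mul hF.norm).integrable_of_hasCompactSupport ?_
    exact (hFc.norm).mul_left

/-- the measure with density `π` -/
noncomputable def avm (π : E3 → ℝ) : Measure E3 := volume.withDensity (fun y => ENNReal.ofReal (π y))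

theorem avm_prob (π : E3 → ℝ) (hπ : Continuous π) (hπc : HasCompactSupport π) (hπ0 : ∀ z, 0 ≤ π z)
    (h1 : ∫ y, π y = 1) : IsProbabilityMeasure (avm π) := by
  refine ⟨?_⟩
  unfold avm
  rw [withDensity_apply _ MeasurableSet.univ, Measure.restrict_univ,
    ← ofReal_integral_eq_lintegral_ofReal (hπ.integrable_of_hasCompactSupport hπc)
      (Filter.Eventually.of_forall hπ0), h1, ENNReal.ofReal_one]

theorem avm_int (π : E3 → ℝ) (hπ : Continuous π) (hπ0 : ∀ z, 0 ≤ π z) (g : E3 → ℝ) :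
    ∫ y, g y ∂(avm π) = ∫ y, π y * g y := by
  unfold avm
  rw [integral_withDensity_eq_integral_toReal_smul (by fun_prop)
    (Filter.Eventually.of_forall fun _ => ENNReal.ofReal_lt_top)]
  refine integral_congr_ae (Filter.Eventually.of_forall fun y => ?_)
  show (ENNReal.ofReal (π y)).toReal • g y = π y * g y
  rw [ENNReal.toReal_ofReal (hπ0 y), smul_eq_mul]

theorem avm_integrable (π : E3 → ℝ) (hπ : Continuous π) (hπ0 : ∀ z, 0 ≤ π z) (g : E3 → ℝ) :
    Integrable g (avm π) ↔ Integrable (fun y => π y * g y) := by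
  unfold avm
  rw [integrable_withDensity_iff_integrable_smul' (by fun_prop)
    (Filter.Eventually.of_forall fun _ => ENNReal.ofReal_lt_top)]
  have : (fun y => (ENNReal.ofReal (π y)).toReal • g y) = fun y => π y * g y := by
    funext y
    rw [ENNReal.toReal_ofReal (hπ0 y), smul_eq_mul]
  rw [this]

theorem avm_ne (π : E3 → ℝ) (hπ : Continuous π) : ∀ᵐ z ∂(avm π), π z ≠ 0 := by
  unfold avm
  rw [ae_withDensity_iff (by fun_prop)]
  refine Filter.Eventually.of_forall fun z hz h0 => hz ?_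
  rw [h0, ENNReal.ofReal_zero]

theorem avm_atom (π : E3 → ℝ) (x : E3) : ∀ᵐ z ∂(avm π), x ≠ z := by
  unfold avm
  refine (withDensity_absolutelyContinuous _ _).ae_le ?_
  have : ∀ᵐ z ∂(volume : Measure E3), z ∉ ({x} : Set E3) :=
    measure_eq_zero_iff_ae_notMem.1 (measure_singleton x)
  filter_upwards [this] with z hz h
  exact hz (by rw [h]; exact Set.mem_singleton z)

theorem pair_mp {m : ℕ} (μ : Fin m → Measure E3) [∀ j, IsProbabilityMeasure (μ j)] (i j : Fin m)
    (hij : i ≠ j) : MeasurePreserving (fun y : Fin m → E3 => (y i, y j)) (Measure.pi μ)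
      ((μ i).prod (μ j)) := by
  refine ⟨(measurable_pi_apply i).prodMk (measurable_pi_apply j), ?_⟩
  have h1 := ProbabilityTheory.iIndepFun_pi (μ := μ) (X := fun _ (x : E3) => x)
    (fun _ => aemeasurable_id)
  have h2 := h1.indepFun hij
  have h3 := (ProbabilityTheory.indepFun_iff_map_prod_eq_prod_map_map
    (measurable_pi_apply i).aemeasurable (measurable_pi_apply j).aemeasurable).1 h2
  rw [h3]
  congr 1
  · exact (measurePreserving_eval μ i).map_eq
  · exact (measurePreserving_eval μ j).map_eq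

theorem prs_ofFn {S : Type} (D : Species S) (C : ℝ) : ∀ (m : ℕ) (s : Fin m → S) (y : Fin m → E3),
    prs D C (List.ofFn fun j => (s j, y j)) = ∑ i, ∑ j, if i < j then
      (D.charge (s i) * D.charge (s j) / ‖y i - y j‖ + C * kd (y i - y j)) else 0 := by
  intro m
  induction m with
  | zero =>
    intro s y
    simp [prs]
  | succ m ih =>
    intro s y
    rw [List.ofFn_succ, prs, ih (fun j => s j.succ) (fun j => y j.succ), Fin.sum_univ_succ]
    congr 1
    · rw [Fin.sum_univ_succ, if_neg (lt_irrefl _), zero_add, List.map_ofFn, List.sum_ofFn]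
      refine Finset.sum_congr rfl fun j _ => ?_
      rw [if_pos (Fin.succ_pos j)]
      rfl
    · refine Finset.sum_congr rfl fun i _ => ?_
      rw [Fin.sum_univ_succ, if_neg (by simp), zero_add]
      refine Finset.sum_congr rfl fun j _ => ?_
      simp only [Fin.succ_lt_succ_iff]

theorem countP_ofFn {S : Type} [DecidableEq S] : ∀ (m : ℕ) (s : Fin m → S) (y : Fin m → E3) (t : S),
    (List.ofFn fun j => (s j, y j)).countP (fun p => decide (p.1 = t)) =
      (Finset.univ.filter (fun j => s j = t)).card := by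
  intro m
  induction m with
  | zero =>
    intro s y t
    simp
  | succ m ih =>
    intro s y t
    rw [List.ofFn_succ, List.countP_cons, ih (fun j => s j.succ) (fun j => y j.succ) t,
      Finset.card_filter, Finset.card_filter, Fin.sum_univ_succ, add_comm]
    congr 1
    simp only [decide_eq_true_eq]

theorem av_wm {S : Type} (D : Species S) {I : Type} [Fintype I] [DecidableEq I] (sp : I → S)
    (ℓ : ℝ) (Ψ : Wave D I) (hΨ : IsState D sp ℓ Ψ) (c : I → ℝ)
    (k : E3 → ℝ) (hkm : Measurable k) (hk0 : ∀ z, 0 ≤ k z) (hkl : LocallyIntegrable k volume)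
    (π : E3 → ℝ) (hπ : Continuous π) (hπc : HasCompactSupport π) (hπ0 : ∀ z, 0 ≤ π z) :
    Integrable (fun y => π y * ∑ τ, ∫ x : I → E3, (∑ i, c i * k (x i - y)) * ‖Ψ τ x‖ ^ 2) := by
  have h1 : ∀ τ, Integrable (fun q : (I → E3) × E3 =>
      π q.2 * ((∑ i, c i * k (q.1 i - q.2)) * ‖Ψ τ q.1‖ ^ 2))
      ((volume : Measure (I → E3)).prod (volume : Measure E3)) := by
    intro τ
    have hcs := hΨ.compact τ
    have hsq : Continuous (fun x => ‖Ψ τ x‖ ^ 2) := ((hΨ.smooth τ).continuous.norm).pow 2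
    have hsqc : HasCompactSupport (fun x => ‖Ψ τ x‖ ^ 2) :=
      hcs.comp_left (g := fun z : ℂ => ‖z‖ ^ 2) (by simp)
    have h2 : Integrable (fun q : (I → E3) × E3 =>
      ∑ i, c i * (π q.2 * (k (q.1 i - q.2) * ‖Ψ τ q.1‖ ^ 2)))
      ((volume : Measure (I → E3)).prod (volume : Measure E3)) :=
      integrable_finsetSum _ fun i _ =>
        (av_prod k hkm hk0 hkl π hπ hπc hπ0 _ hsq hsqc i).const_mul (c i)
    refine h2.congr (Filter.Eventually.of_forall fun q => ?_)
    show ∑ i, c i * (π q.2 * (k (q.1 i - q.2) * ‖Ψ τ q.1‖ ^ 2)) =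
      π q.2 * ((∑ i, c i * k (q.1 i - q.2)) * ‖Ψ τ q.1‖ ^ 2)
    rw [Finset.sum_mul, Finset.mul_sum]
    refine Finset.sum_congr rfl fun i _ => ?_
    ring
  have h3 : Integrable (fun y => ∑ τ, ∫ x : I → E3,
      π y * ((∑ i, c i * k (x i - y)) * ‖Ψ τ x‖ ^ 2)) :=
    integrable_finsetSum _ fun τ _ => (h1 τ).integral_prod_right
  refine h3.congr (Filter.Eventually.of_forall fun y => ?_)
  show ∑ τ, ∫ x : I → E3, π y * ((∑ i, c i * k (x i - y)) * ‖Ψ τ x‖ ^ 2) =
    π y * ∑ τ, ∫ x : I → E3, (∑ i, c i * k (x i - y)) * ‖Ψ τ x‖ ^ 2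
  rw [Finset.mul_sum]
  refine Finset.sum_congr rfl fun τ _ => ?_
  rw [integral_const_mul]

/-- the bilinear form of a kernel -/
noncomputable def avE (k π ρ : E3 → ℝ) : ℝ := ∫ x, π x * ∫ z, ρ z * k (x - z)

theorem av_pair (k : E3 → ℝ) (hkm : Measurable k) (hk0 : ∀ z, 0 ≤ k z)
    (hkl : LocallyIntegrable k volume)
    (π : E3 → ℝ) (hπ : Continuous π) (hπc : HasCompactSupport π) (hπ0 : ∀ z, 0 ≤ π z)
    (hπ1 : ∫ y, π y = 1)
    (ρ : E3 → ℝ) (hρ : Continuous ρ) (hρc : HasCompactSupport ρ) (hρ0 : ∀ z, 0 ≤ ρ z)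
    (hρ1 : ∫ y, ρ y = 1) :
    Integrable (fun q : E3 × E3 => k (q.1 - q.2)) ((avm π).prod (avm ρ)) ∧
    ∫ q, k (q.1 - q.2) ∂((avm π).prod (avm ρ)) = avE k π ρ := by
  have := avm_prob π hπ hπc hπ0 hπ1
  have := avm_prob ρ hρ hρc hρ0 hρ1
  obtain ⟨hV, hVi⟩ := av_conv k hkl ρ hρ hρc
  have hm : Measurable (fun q : E3 × E3 => k (q.1 - q.2)) :=
    hkm.comp (measurable_fst.sub measurable_snd)
  have hi : Integrable (fun q : E3 × E3 => k (q.1 - q.2)) ((avm π).prod (avm ρ)) := by
    refine (integrable_prod_iff hm.aestronglyMeasurable).2 ⟨?_, ?_⟩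
    · refine Filter.Eventually.of_forall fun x => ?_
      exact (avm_integrable ρ hρ hρ0 (fun z => k (x - z))).2 (hVi x)
    · have h2 : ∀ x, ∫ z, ‖k (x - z)‖ ∂(avm ρ) = ∫ z, ρ z * k (x - z) := by
        intro x
        rw [avm_int ρ hρ hρ0]
        refine integral_congr_ae (Filter.Eventually.of_forall fun z => ?_)
        show ρ z * ‖k (x - z)‖ = ρ z * k (x - z)
        rw [Real.norm_of_nonneg (hk0 _)]
      simp only [h2]
      refine (avm_integrable π hπ hπ0 _).2 ?_
      exact (hπ.mul hV).integrable_of_hasCompactSupport hπc.mul_right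
  refine ⟨hi, ?_⟩
  rw [integral_prod _ hi, avm_int π hπ hπ0]
  unfold avE
  refine integral_congr_ae (Filter.Eventually.of_forall fun x => ?_)
  show π x * ∫ z, k (x - z) ∂(avm ρ) = π x * ∫ z, ρ z * k (x - z)
  rw [avm_int ρ hρ hρ0]

theorem avE_symm (k : E3 → ℝ) (hkm : Measurable k) (hk0 : ∀ z, 0 ≤ k z)
    (hkl : LocallyIntegrable k volume) (hke : ∀ z, k (-z) = k z)
    (π : E3 → ℝ) (hπ : Continuous π) (hπc : HasCompactSupport π) (hπ0 : ∀ z, 0 ≤ π z)
    (hπ1 : ∫ y, π y = 1)
    (ρ : E3 → ℝ) (hρ : Continuous ρ) (hρc : HasCompactSupport ρ) (hρ0 : ∀ z, 0 ≤ ρ z)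
    (hρ1 : ∫ y, ρ y = 1) : avE k π ρ = avE k ρ π := by
  have := avm_prob π hπ hπc hπ0 hπ1
  have := avm_prob ρ hρ hρc hρ0 hρ1
  rw [← (av_pair k hkm hk0 hkl π hπ hπc hπ0 hπ1 ρ hρ hρc hρ0 hρ1).2,
    ← (av_pair k hkm hk0 hkl ρ hρ hρc hρ0 hρ1 π hπ hπc hπ0 hπ1).2,
    ← integral_prod_swap]
  refine integral_congr_ae (Filter.Eventually.of_forall fun q => ?_)
  show k (q.2 - q.1) = k (q.1 - q.2)
  rw [← hke, neg_sub]

theorem avE_nonneg (k : E3 → ℝ) (hk0 : ∀ z, 0 ≤ k z)
    (π : E3 → ℝ) (hπ0 : ∀ z, 0 ≤ π z) (ρ : E3 → ℝ) (hρ0 : ∀ z, 0 ≤ ρ z) :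
    0 ≤ avE k π ρ :=
  integral_nonneg fun x => mul_nonneg (hπ0 x) (integral_nonneg fun z =>
    mul_nonneg (hρ0 z) (hk0 _))

theorem avE_sum {m : ℕ} (k : E3 → ℝ) (hkl : LocallyIntegrable k volume)
    (π : Fin m → E3 → ℝ) (hπ : ∀ j, Continuous (π j)) (hπc : ∀ j, HasCompactSupport (π j))
    (a : Fin m → ℝ) :
    ∫ x, (∑ i, a i * π i x) * ∫ z, (∑ j, a j * π j z) * k (x - z) =
      ∑ i, ∑ j, a i * a j * avE k (π i) (π j) := by
  have h1 : ∀ x, ∫ z, (∑ j, a j * π j z) * k (x - z) = ∑ j, a j * ∫ z, π j z * k (x - z) := by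
    intro x
    have e1 : ∀ z, (∑ j, a j * π j z) * k (x - z) = ∑ j, a j * (π j z * k (x - z)) := by
      intro z
      rw [Finset.sum_mul]
      refine Finset.sum_congr rfl fun j _ => ?_
      ring
    simp only [e1]
    rw [integral_finsetSum _ fun j _ =>
      (((av_conv k hkl (π j) (hπ j) (hπc j)).2 x).const_mul (a j))]
    refine Finset.sum_congr rfl fun j _ => ?_
    rw [integral_const_mul]
  simp only [h1]
  have h2 : ∀ x, (∑ i, a i * π i x) * ∑ j, a j * ∫ z, π j z * k (x - z) =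
      ∑ i, ∑ j, a i * a j * (π i x * ∫ z, π j z * k (x - z)) := by
    intro x
    rw [Finset.sum_mul_sum]
    refine Finset.sum_congr rfl fun i _ => Finset.sum_congr rfl fun j _ => ?_
    ring
  simp only [h2]
  have h3 : ∀ i j, Integrable (fun x => a i * a j * (π i x * ∫ z, π j z * k (x - z))) := by
    intro i j
    refine Integrable.const_mul ?_ _
    exact ((hπ i).mul (av_conv k hkl (π j) (hπ j) (hπc j)).1).integrable_of_hasCompactSupport
      (hπc i).mul_right
  rw [integral_finsetSum _ fun i _ => integrable_finsetSum _ fun j _ => h3 i j]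
  refine Finset.sum_congr rfl fun i _ => ?_
  rw [integral_finsetSum _ fun j _ => h3 i j]
  refine Finset.sum_congr rfl fun j _ => ?_
  rw [integral_const_mul]
  rfl

theorem sum_lt_half {m : ℕ} (T : Fin m → Fin m → ℝ) (hs : ∀ i j, T i j = T j i)
    (hd : ∀ i, 0 ≤ T i i) :
    ∑ i, ∑ j, (if i < j then T i j else 0) ≤ 1 / 2 * ∑ i, ∑ j, T i j := by
  have h1 : ∑ i, ∑ j, T i j = ∑ i, ∑ j, (if i < j then T i j else 0) +
      ∑ i, ∑ j, (if j < i then T i j else 0) + ∑ i, ∑ j, (if i = j then T i j else 0) := by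
    rw [← Finset.sum_add_distrib, ← Finset.sum_add_distrib]
    refine Finset.sum_congr rfl fun i _ => ?_
    rw [← Finset.sum_add_distrib, ← Finset.sum_add_distrib]
    refine Finset.sum_congr rfl fun j _ => ?_
    rcases lt_trichotomy i j with h | h | h
    · rw [if_pos h, if_neg (not_lt.2 h.le), if_neg (ne_of_lt h)]; ring
    · rw [if_neg (by rw [h]; exact lt_irrefl _), if_neg (by rw [h]; exact lt_irrefl _), if_pos h]
      ring
    · rw [if_neg (not_lt.2 h.le), if_pos h, if_neg (ne_of_gt h)]; ring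
  have h2 : ∑ i, ∑ j, (if j < i then T i j else 0) = ∑ i, ∑ j, (if i < j then T i j else 0) := by
    rw [Finset.sum_comm]
    refine Finset.sum_congr rfl fun i _ => Finset.sum_congr rfl fun j _ => ?_
    rw [hs]
  have h3 : 0 ≤ ∑ i, ∑ j, (if i = j then T i j else 0) := by
    refine Finset.sum_nonneg fun i _ => Finset.sum_nonneg fun j _ => ?_
    split_ifs with h
    · rw [← h]; exact hd i
    · exact le_rfl
  rw [h1, h2]
  linarith

theorem sum_lt_all {m : ℕ} (T : Fin m → Fin m → ℝ) (hT : ∀ i j, 0 ≤ T i j) :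
    ∑ i, ∑ j, (if i < j then T i j else 0) ≤ ∑ i, ∑ j, T i j := by
  refine Finset.sum_le_sum fun i _ => Finset.sum_le_sum fun j _ => ?_
  split_ifs
  · exact le_rfl
  · exact hT i j

theorem kd_meas : Measurable kd := by
  unfold kd
  exact (by fun_prop : Measurable (fun z : E3 => ‖z‖⁻¹ ^ 2)).indicator
    Metric.isOpen_ball.measurableSet

theorem kd_nonneg (z : E3) : 0 ≤ kd z := Set.indicator_nonneg (fun _ _ => by positivity) z

theorem kd_int : Integrable kd := by
  unfold kd
  refine (integrable_indicator_iff Metric.isOpen_ball.measurableSet).2 ?_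
  exact (locInt_inv2.integrableOn_isCompact (isCompact_closedBall 0 3)).mono_set
    Metric.ball_subset_closedBall

theorem kd_even (z : E3) : kd (-z) = kd z := by
  unfold kd
  by_cases h : z ∈ Metric.ball (0 : E3) 3
  · have h2 : -z ∈ Metric.ball (0 : E3) 3 := by simpa using h
    rw [Set.indicator_of_mem h, Set.indicator_of_mem h2, norm_neg]
  · have h2 : -z ∉ Metric.ball (0 : E3) 3 := by simpa using h
    rw [Set.indicator_of_notMem h, Set.indicator_of_notMem h2]

theorem mp_int {X Y : Type*} [MeasurableSpace X] [MeasurableSpace Y] {μ : Measure X}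
    {ν : Measure Y} {f : X → Y} (hf : MeasurePreserving f μ ν) (g : Y → ℝ) (hg : Integrable g ν) :
    Integrable (fun x => g (f x)) μ ∧ ∫ x, g (f x) ∂μ = ∫ y, g y ∂ν := by
  refine ⟨hf.integrable_comp_of_integrable hg, ?_⟩
  have h1 := hf.map_eq
  have h2 : AEStronglyMeasurable g (Measure.map f μ) := by
    rw [h1]; exact hg.aestronglyMeasurable
  rw [← integral_map hf.measurable.aemeasurable h2, h1]

/-- TARGET -/
theorem avg_insert {S : Type} [Fintype S] [DecidableEq S] (D : Species S) (hD : D.Valid)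
    (δ : ℝ) (hδ : 0 < δ) (hδ1 : δ ≤ 1) :
    ∃ C : ℝ, 0 < C ∧ ∀ (ℓ : ℝ) (Eb : (S → ℕ) → ℝ),
      (∀ {I : Type} [Fintype I] [DecidableEq I] (sp : I → S) (Φ : Wave D I),
        IsState D sp ℓ Φ → Eb (fun s => cnt sp s) * nrm2 D Φ ≤ energy D sp Φ) →
      ∀ (m : ℕ) (s : Fin m → S) (π : Fin m → E3 → ℝ),
        (∀ j, Continuous (π j) ∧ HasCompactSupport (π j) ∧ (∀ y, 0 ≤ π j y) ∧
          (∫ y, π j y) = 1 ∧ ∀ y, π j y ≠ 0 → Metric.closedBall y δ ⊆ cube ℓ) →
      ∀ {I : Type} [Fintype I] [DecidableEq I] (sp : I → S) (Ψ : Wave D I),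
        IsState D sp ℓ Ψ → nrm2 D Ψ = 1 →
        Eb (fun t => cnt sp t + (Finset.univ.filter (fun j => s j = t)).card) ≤
          energy D sp Ψ + (∑ j, (D.charge (s j) * (∫ y, π j y * phim D sp Ψ y) +
            C * (1 + ∫ y, π j y * kkm D Ψ y))) +
          1 / 2 * DD (fun y => ∑ j, D.charge (s j) * π j y)
            (fun y => ∑ j, D.charge (s j) * π j y) +
          C * ∫ x, ∫ y, (∑ j, π j x) * (∑ j, π j y) * kd (x - y) := by
  obtain ⟨C, C', hC, hC', H⟩ := multi_insert D hD δ hδ hδ1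
  refine ⟨C + C', by positivity, ?_⟩
  intro ℓ Eb hEb m s π hπ I _ _ sp Ψ hΨ hn
  have hπc : ∀ j, Continuous (π j) := fun j => (hπ j).1
  have hπs : ∀ j, HasCompactSupport (π j) := fun j => (hπ j).2.1
  have hπ0 : ∀ j y, 0 ≤ π j y := fun j => (hπ j).2.2.1
  have hπ1 : ∀ j, ∫ y, π j y = 1 := fun j => (hπ j).2.2.2.1
  have hπd : ∀ j y, π j y ≠ 0 → Metric.closedBall y δ ⊆ cube ℓ := fun j => (hπ j).2.2.2.2
  have hprob : ∀ j, IsProbabilityMeasure (avm (π j)) := fun j =>
    avm_prob _ (hπc j) (hπs j) (hπ0 j) (hπ1 j)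
  obtain ⟨E0, hE0⟩ : ∃ E0, E0 = Eb (fun t => cnt sp t +
    (Finset.univ.filter (fun j => s j = t)).card) := ⟨_, rfl⟩
  obtain ⟨h, hh⟩ : ∃ h : Fin m → E3 → ℝ, h = fun j y =>
    D.charge (s j) * phim D sp Ψ y + C * (1 + kkm D Ψ y) := ⟨_, rfl⟩
  have hki : LocallyIntegrable (fun w : E3 => ‖w‖⁻¹) volume := pot_props_locInt
  have hkm : Measurable (fun w : E3 => ‖w‖⁻¹) := by fun_prop
  have hk0 : ∀ w : E3, 0 ≤ ‖w‖⁻¹ := fun w => by positivity
  have hke : ∀ w : E3, ‖-w‖⁻¹ = ‖w‖⁻¹ := fun w => by rw [norm_neg]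
  have hphi : ∀ j, Integrable (fun y => π j y * phim D sp Ψ y) := by
    intro j
    have h1 := av_wm D sp ℓ Ψ hΨ (fun i => D.charge (sp i)) (fun w => ‖w‖⁻¹) hkm hk0 hki
      (π j) (hπc j) (hπs j) (hπ0 j)
    refine h1.congr (Filter.Eventually.of_forall fun y => ?_)
    show π j y * ∑ τ, ∫ x : I → E3, (∑ i, D.charge (sp i) * ‖x i - y‖⁻¹) * ‖Ψ τ x‖ ^ 2 =
      π j y * phim D sp Ψ y
    unfold phim mean
    simp only [one_div]
  have hkkm : ∀ j, Integrable (fun y => π j y * kkm D Ψ y) := by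
    intro j
    have h1 := av_wm D sp ℓ Ψ hΨ (fun _ => 1) kk kk_meas kk_nonneg kk_int.locallyIntegrable
      (π j) (hπc j) (hπs j) (hπ0 j)
    refine h1.congr (Filter.Eventually.of_forall fun y => ?_)
    show π j y * ∑ τ, ∫ x : I → E3, (∑ i, 1 * kk (x i - y)) * ‖Ψ τ x‖ ^ 2 =
      π j y * kkm D Ψ y
    unfold kkm wm
    simp only [one_mul]
  have hkkm0 : ∀ y, 0 ≤ kkm D Ψ y := by
    intro y
    unfold kkm wm
    exact Finset.sum_nonneg fun τ _ => integral_nonneg fun x =>
      mul_nonneg (Finset.sum_nonneg fun i _ => kk_nonneg _) (sq_nonneg _)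
  have hhi : ∀ j, Integrable (h j) (avm (π j)) ∧ ∫ y, h j y ∂(avm (π j)) =
      D.charge (s j) * (∫ y, π j y * phim D sp Ψ y) + C * (1 + ∫ y, π j y * kkm D Ψ y) := by
    intro j
    have i1 := (avm_integrable (π j) (hπc j) (hπ0 j) (phim D sp Ψ)).2 (hphi j)
    have i2 := (avm_integrable (π j) (hπc j) (hπ0 j) (kkm D Ψ)).2 (hkkm j)
    have := hprob j
    have i3 : Integrable (fun y => 1 + kkm D Ψ y) (avm (π j)) := (integrable_const 1).add i2
    rw [hh]
    refine ⟨(i1.const_mul _).add (i3.const_mul C), ?_⟩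
    rw [integral_add (i1.const_mul _) (i3.const_mul C), integral_const_mul, integral_const_mul,
      integral_add (integrable_const 1) i2, avm_int (π j) (hπc j) (hπ0 j) (phim D sp Ψ),
      avm_int (π j) (hπc j) (hπ0 j) (kkm D Ψ), integral_const, probReal_univ, one_smul]
  obtain ⟨K, hK⟩ : ∃ K : Fin m → Fin m → E3 → E3 → ℝ, K = fun i j x z =>
    D.charge (s i) * D.charge (s j) / ‖x - z‖ + C' * kd (x - z) := ⟨_, rfl⟩
  have hKi : ∀ i j, Integrable (fun q : E3 × E3 => K i j q.1 q.2)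
      ((avm (π i)).prod (avm (π j))) ∧
      ∫ q, K i j q.1 q.2 ∂((avm (π i)).prod (avm (π j))) =
      D.charge (s i) * D.charge (s j) * avE (fun w => ‖w‖⁻¹) (π i) (π j) +
        C' * avE kd (π i) (π j) := by
    intro i j
    obtain ⟨a1, a2⟩ := av_pair (fun w => ‖w‖⁻¹) hkm hk0 hki (π i) (hπc i) (hπs i) (hπ0 i)
      (hπ1 i) (π j) (hπc j) (hπs j) (hπ0 j) (hπ1 j)
    obtain ⟨b1, b2⟩ := av_pair kd kd_meas kd_nonneg kd_int.locallyIntegrable (π i) (hπc i)
      (hπs i) (hπ0 i) (hπ1 i) (π j) (hπc j) (hπs j) (hπ0 j) (hπ1 j)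
    rw [hK]
    simp only [div_eq_mul_inv]
    refine ⟨(a1.const_mul _).add (b1.const_mul C'), ?_⟩
    rw [integral_add (a1.const_mul _) (b1.const_mul C'), integral_const_mul, integral_const_mul,
      a2, b2]
  obtain ⟨P, hP⟩ : ∃ P : Measure (Fin m → E3), P = Measure.pi (fun j => avm (π j)) := ⟨_, rfl⟩
  have hPp : IsProbabilityMeasure P := by rw [hP]; infer_instance
  have hev : ∀ j, MeasurePreserving (fun y : Fin m → E3 => y j) P (avm (π j)) := by
    intro j
    rw [hP]
    exact measurePreserving_eval (fun j => avm (π j)) j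
  have hpr : ∀ i j, i ≠ j → MeasurePreserving (fun y : Fin m → E3 => (y i, y j)) P
      ((avm (π i)).prod (avm (π j))) := by
    intro i j hij
    rw [hP]
    exact pair_mp (fun j => avm (π j)) i j hij
  have hae : ∀ᵐ y ∂P, E0 ≤ energy D sp Ψ + ∑ j, h j (y j) +
      ∑ i, ∑ j, if i < j then K i j (y i) (y j) else 0 := by
    have a1 : ∀ᵐ y ∂P, ∀ j, π j (y j) ≠ 0 := by
      rw [ae_all_iff]
      intro j
      exact (hev j).quasiMeasurePreserving.ae (avm_ne (π j) (hπc j))
    have a2 : ∀ᵐ y ∂P, ∀ i j, i < j → y i ≠ y j := by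
      rw [ae_all_iff]
      intro i
      rw [ae_all_iff]
      intro j
      by_cases hij : i < j
      · have b1 : ∀ᵐ q ∂((avm (π i)).prod (avm (π j))), q ∈ {q : E3 × E3 | q.1 ≠ q.2} := by
          refine (Measure.ae_prod_mem_iff_ae_ae_mem
            (measurableSet_eq_fun measurable_fst measurable_snd).compl).2 ?_
          exact Filter.Eventually.of_forall fun x => avm_atom (π j) x
        filter_upwards [(hpr i j (ne_of_lt hij)).quasiMeasurePreserving.ae b1] with y hy _
        exact hy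
      · exact Filter.Eventually.of_forall fun y h => absurd h hij
    filter_upwards [a1, a2] with y h1 h2
    have h3 := H ℓ Eb hEb (List.ofFn fun j => (s j, y j))
      (List.forall_mem_ofFn_iff.2 fun j => hπd j (y j) (h1 j))
      (List.pairwise_ofFn.2 fun i j hij => h2 i j hij) sp Ψ hΨ
    rw [hn, mul_one, mul_one, prs_ofFn, List.map_ofFn, List.sum_ofFn] at h3
    simp only [countP_ofFn] at h3
    rw [← hE0] at h3
    rw [hh, hK]
    exact h3
  have hi1 : ∀ j, Integrable (fun y : Fin m → E3 => h j (y j)) P ∧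
      ∫ y, h j (y j) ∂P = ∫ z, h j z ∂(avm (π j)) := fun j => mp_int (hev j) (h j) (hhi j).1
  have hi2 : ∀ i j, Integrable (fun y : Fin m → E3 => if i < j then K i j (y i) (y j) else 0) P ∧
      ∫ y, (if i < j then K i j (y i) (y j) else 0) ∂P = if i < j then
        ∫ q, K i j q.1 q.2 ∂((avm (π i)).prod (avm (π j))) else 0 := by
    intro i j
    by_cases hij : i < j
    · simp only [if_pos hij]
      exact mp_int (hpr i j (ne_of_lt hij)) (fun q => K i j q.1 q.2) (hKi i j).1
    · simp only [if_neg hij]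
      exact ⟨integrable_zero _ _ _, integral_zero _ _⟩
  have j1 : Integrable (fun y : Fin m → E3 => energy D sp Ψ + ∑ j, h j (y j)) P :=
    (integrable_const _).add (integrable_finsetSum _ fun j _ => (hi1 j).1)
  have j2 : Integrable (fun y : Fin m → E3 => ∑ i, ∑ j, if i < j then
      K i j (y i) (y j) else 0) P :=
    integrable_finsetSum _ fun i _ => integrable_finsetSum _ fun j _ => (hi2 i j).1
  have hfin := integral_mono_ae (integrable_const E0) (j1.add j2) hae
  simp only [Pi.add_apply] at hfin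
  rw [integral_add j1 j2, integral_add (integrable_const _)
      (integrable_finsetSum _ fun j _ => (hi1 j).1), integral_const, integral_const,
      probReal_univ, one_smul, one_smul, integral_finsetSum _ (fun j _ => (hi1 j).1),
      integral_finsetSum _ (fun i _ => integrable_finsetSum _ fun j _ => (hi2 i j).1)] at hfin
  have e1 : ∑ j, ∫ y, h j (y j) ∂P ≤ ∑ j, (D.charge (s j) * (∫ y, π j y * phim D sp Ψ y) +
            (C + C') * (1 + ∫ y, π j y * kkm D Ψ y)) := by
    refine Finset.sum_le_sum fun j _ => ?_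
    rw [(hi1 j).2, (hhi j).2]
    have : 0 ≤ ∫ y, π j y * kkm D Ψ y := integral_nonneg fun y => mul_nonneg (hπ0 j y) (hkkm0 y)
    have h5 : 0 ≤ C' * (1 + ∫ y, π j y * kkm D Ψ y) := by positivity
    linarith
  have e2 : ∑ i, ∫ y, (∑ j, if i < j then K i j (y i) (y j) else 0) ∂P =
      (∑ i, ∑ j, if i < j then D.charge (s i) * D.charge (s j) *
        avE (fun w => ‖w‖⁻¹) (π i) (π j) else 0) +
      C' * (∑ i, ∑ j, if i < j then avE kd (π i) (π j) else 0) := by
    rw [Finset.mul_sum, ← Finset.sum_add_distrib]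
    refine Finset.sum_congr rfl fun i _ => ?_
    rw [integral_finsetSum _ (fun j _ => (hi2 i j).1), Finset.mul_sum,
      ← Finset.sum_add_distrib]
    refine Finset.sum_congr rfl fun j _ => ?_
    rw [(hi2 i j).2, (hKi i j).2]
    split_ifs <;> ring
  have e3 : (∑ i, ∑ j, if i < j then D.charge (s i) * D.charge (s j) *
        avE (fun w => ‖w‖⁻¹) (π i) (π j) else 0) ≤
      1 / 2 * DD (fun y => ∑ j, D.charge (s j) * π j y)
            (fun y => ∑ j, D.charge (s j) * π j y) := by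
    have f1 : DD (fun y => ∑ j, D.charge (s j) * π j y)
            (fun y => ∑ j, D.charge (s j) * π j y) = ∑ i, ∑ j, D.charge (s i) *
            D.charge (s j) * avE (fun w => ‖w‖⁻¹) (π i) (π j) := by
      rw [← avE_sum (fun w => ‖w‖⁻¹) hki π hπc hπs (fun j => D.charge (s j))]
      unfold DD VV
      simp only [div_eq_mul_inv]
    rw [f1]
    refine sum_lt_half (fun i j => D.charge (s i) * D.charge (s j) *
      avE (fun w => ‖w‖⁻¹) (π i) (π j)) (fun i j => ?_) (fun i => ?_)
    · rw [avE_symm (fun w => ‖w‖⁻¹) hkm hk0 hki hke (π i) (hπc i) (hπs i) (hπ0 i)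
        (hπ1 i) (π j) (hπc j) (hπs j) (hπ0 j) (hπ1 j), mul_comm (D.charge (s i))]
    · exact mul_nonneg (mul_self_nonneg _) (avE_nonneg _ hk0 _ (hπ0 i) _ (hπ0 i))
  have e4 : (∑ i, ∑ j, if i < j then avE kd (π i) (π j) else 0) ≤
      ∫ x, ∫ y, (∑ j, π j x) * (∑ j, π j y) * kd (x - y) := by
    have f1 : ∫ x, ∫ y, (∑ j, π j x) * (∑ j, π j y) * kd (x - y) =
        ∑ i, ∑ j, avE kd (π i) (π j) := by
      have f2 := avE_sum kd kd_int.locallyIntegrable π hπc hπs (fun _ => 1)
      simp only [one_mul] at f2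
      rw [← f2]
      refine integral_congr_ae (Filter.Eventually.of_forall fun x => ?_)
      show ∫ y, (∑ j, π j x) * (∑ j, π j y) * kd (x - y) =
        (∑ i, π i x) * ∫ z, (∑ j, π j z) * kd (x - z)
      rw [← integral_const_mul]
      refine integral_congr_ae (Filter.Eventually.of_forall fun y => ?_)
      show (∑ j, π j x) * (∑ j, π j y) * kd (x - y) = (∑ i, π i x) * ((∑ j, π j y) * kd (x - y))
      ring
    rw [f1]
    exact sum_lt_all _ fun i j => avE_nonneg kd kd_nonneg _ (hπ0 i) _ (hπ0 j)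
  have e5 : 0 ≤ ∫ x, ∫ y, (∑ j, π j x) * (∑ j, π j y) * kd (x - y) :=
    integral_nonneg fun x => integral_nonneg fun y => mul_nonneg (mul_nonneg
      (Finset.sum_nonneg fun j _ => hπ0 j x) (Finset.sum_nonneg fun j _ => hπ0 j y)) (kd_nonneg _)
  rw [e2] at hfin
  rw [← hE0]
  have e6 := mul_le_mul_of_nonneg_left e4 hC'.le
  have e7 := mul_nonneg hC.le e5
  linarith

end Pool.Agent.Helper780_CP.RAVG
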