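import Pool.Agent.Helper780_CP.LLDefs2
import Pool.Agent.Helper780_CP.RAVG
import Pool.Agent.Helper985.CP.M_energies_relabel

set_option autoImplicit false

open MeasureTheory
open scoped Topology

namespace Pool.Agent.Helper780_CP.RUB

open Pool.Agent.Helper780_CP
open Pool.Agent.Helper985.CP
open Pool.Agent.Helper780_CP.RAVG (avg_insert)

open Pool.Agent.Helper985.CP

/-- TARGET 1 -/
theorem ge_spec {S : Type} [Fintype S] [DecidableEq S] (D : Species S) (hD : D.Valid)
    (hst : HStable D) (ℓ : ℝ) (hℓ : 0 < ℓ) :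
    (∀ {I : Type} [Fintype I] [DecidableEq I] (sp : I → S),
      groundEnergy D ℓ (fun s => cnt sp s) = sInf (energies D sp ℓ)) ∧
    (∀ {I : Type} [Fintype I] [DecidableEq I] (sp : I → S) (Φ : Wave D I),
        IsState D sp ℓ Φ → groundEnergy D ℓ (fun s => cnt sp s) * nrm2 D Φ ≤ energy D sp Φ) := by
  have h1 : ∀ {I : Type} [Fintype I] [DecidableEq I] (sp : I → S),
      groundEnergy D ℓ (fun s => cnt sp s) = sInf (energies D sp ℓ) := by
    intro I _ _ sp
    obtain ⟨e, he⟩ := exists_equiv sp (fun i : (Σ s, Fin (cnt sp s)) => i.1)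
      (fun s => (cnt_sigma (cnt sp) s).symm)
    unfold groundEnergy
    rw [energies_relabel D e sp (fun i : (Σ s, Fin (cnt sp s)) => i.1) he ℓ]
  refine ⟨h1, ?_⟩
  intro I _ _ sp Φ hΦ
  rw [h1 sp]
  exact (energies_basic D hD hst sp ℓ hℓ).2.2.1 Φ hΦ

theorem upper_bound_kd_int : Integrable kd := by
  unfold kd
  refine (integrable_indicator_iff Metric.isOpen_ball.measurableSet).2 ?_
  exact (locInt_inv2.integrableOn_isCompact (isCompact_closedBall 0 3)).mono_set
    Metric.ball_subset_closedBall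

theorem upper_bound_kd_nonneg (z : E3) : 0 ≤ kd z :=
  Set.indicator_nonneg (fun _ _ => by positivity) z

theorem upper_bound_bump : ∃ K : ℝ, 0 < K ∧ ∀ ℓ : ℝ, 4 ≤ ℓ → ∃ u : E3 → ℝ,
    Continuous u ∧ HasCompactSupport u ∧ (∀ y, 0 ≤ u y) ∧ (∫ y, u y) = 1 ∧
    (∀ y, u y ≠ 0 → Metric.closedBall y 1 ⊆ cube ℓ) ∧ (∀ y, u y ≤ K / ℓ ^ 3) := by
  let b : ContDiffBump (0 : E3) := ⟨1 / 8, 1 / 4, by norm_num, by norm_num⟩
  obtain ⟨K, hK⟩ := (b.hasCompactSupport_normed (μ := volume)).exists_bound_of_continuous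
    (b.continuous_normed (μ := volume))
  refine ⟨max K 1, lt_max_of_lt_right one_pos, fun ℓ hℓ => ?_⟩
  have hℓ0 : 0 < ℓ := by linarith
  obtain ⟨c, hc⟩ : ∃ c : E3, c = dv (ℓ / 2) := ⟨_, rfl⟩
  have hck : ∀ k, c k = ℓ / 2 := by
    intro k; rw [hc]; rfl
  obtain ⟨φ, hφ⟩ : ∃ φ : E3 → ℝ, φ = b.normed volume := ⟨_, rfl⟩
  rw [← hφ] at hK
  have hφc : Continuous φ := by rw [hφ]; exact b.continuous_normed
  have hφ0 : ∀ y, 0 ≤ φ y := by rw [hφ]; exact fun y => b.nonneg_normed y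
  have hφ1 : ∫ y, φ y = 1 := by rw [hφ]; exact b.integral_normed
  have hφs : ∀ y, φ y ≠ 0 → ‖y‖ < 1 / 4 := by
    intro y hy
    have : y ∈ Function.support (b.normed volume) := by rw [← hφ]; exact hy
    rw [b.support_normed_eq, mem_ball_zero_iff] at this
    exact this
  have hsupp : ∀ y, φ (ℓ⁻¹ • (y - c)) ≠ 0 → ∀ k, |y k - ℓ / 2| < ℓ / 4 := by
    intro y hy k
    have h1 := hφs _ hy
    have h2 : ‖(ℓ⁻¹ • (y - c)) k‖ ≤ ‖ℓ⁻¹ • (y - c)‖ := PiLp.norm_apply_le _ k
    have h3 : (ℓ⁻¹ • (y - c)) k = ℓ⁻¹ * (y k - ℓ / 2) := by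
      rw [PiLp.smul_apply, PiLp.sub_apply, hck, smul_eq_mul]
    rw [h3, Real.norm_eq_abs, abs_mul, abs_of_pos (inv_pos.mpr hℓ0)] at h2
    have h4 : ℓ⁻¹ * |y k - ℓ / 2| < 1 / 4 := lt_of_le_of_lt h2 h1
    rw [inv_mul_lt_iff₀ hℓ0] at h4
    linarith
  refine ⟨fun y => (ℓ ^ 3)⁻¹ * φ (ℓ⁻¹ • (y - c)), ?_, ?_, ?_, ?_, ?_, ?_⟩
  · exact continuous_const.mul (hφc.comp (by fun_prop))
  · refine HasCompactSupport.of_support_subset_isCompact
      (isCompact_closedBall c (ℓ * (1 / 4))) ?_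
    intro y hy
    have h1 : φ (ℓ⁻¹ • (y - c)) ≠ 0 := right_ne_zero_of_mul hy
    have h2 := hφs _ h1
    rw [norm_smul, Real.norm_of_nonneg (inv_pos.mpr hℓ0).le, inv_mul_lt_iff₀ hℓ0] at h2
    rw [Metric.mem_closedBall, dist_eq_norm]
    exact h2.le
  · intro y
    exact mul_nonneg (by positivity) (hφ0 _)
  · rw [integral_const_mul, integral_sub_right_eq_self (fun y => φ (ℓ⁻¹ • y)) c,
      Measure.integral_comp_inv_smul]
    rw [hφ1, finrank_euclideanSpace_fin, abs_of_pos (by positivity), smul_eq_mul, mul_one]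
    exact inv_mul_cancel₀ (by positivity)
  · intro y hy z hz k
    have h1 := hsupp y (right_ne_zero_of_mul hy) k
    have h2 : |z k - y k| ≤ 1 := by
      have h3 : ‖(z - y) k‖ ≤ ‖z - y‖ := PiLp.norm_apply_le _ k
      rw [Metric.mem_closedBall, dist_eq_norm] at hz
      rw [PiLp.sub_apply, Real.norm_eq_abs] at h3
      exact h3.trans hz
    rw [abs_lt] at h1
    rw [abs_le] at h2
    constructor <;> linarith [h1.1, h1.2, h2.1, h2.2]
  · intro y
    have h1 : φ (ℓ⁻¹ • (y - c)) ≤ max K 1 :=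
      (le_abs_self _).trans ((hK _).trans (le_max_left _ _))
    rw [div_eq_inv_mul]
    exact mul_le_mul_of_nonneg_left h1 (by positivity)

/-- TARGET 2 -/
theorem upper_bound {S : Type} [Fintype S] [DecidableEq S] (D : Species S) (hD : D.Valid)
    (hst : HStable D) (ρ : ℝ) (hρ : 0 ≤ ρ) : ∃ C : ℝ, 0 < C ∧
    ∀ {I : Type} [Fintype I] [DecidableEq I] (sp : I → S) (ℓ : ℝ), 4 ≤ ℓ →
      (Fintype.card I : ℝ) ≤ ρ * ℓ ^ 3 → (∑ i, D.charge (sp i) = 0) →
      sInf (energies D sp ℓ) ≤ C * (Fintype.card I : ℝ) := by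
  obtain ⟨C0, hC0, hav⟩ := avg_insert D hD 1 one_pos le_rfl
  obtain ⟨K, hK, hbump⟩ := upper_bound_bump
  have hkd0 : 0 ≤ ∫ z, kd z := integral_nonneg upper_bound_kd_nonneg
  refine ⟨C0 + C0 * (ρ * (K * ∫ z, kd z)), by positivity, ?_⟩
  intro I _ _ sp ℓ hℓ hcard hneu
  have hℓ0 : 0 < ℓ := by linarith
  obtain ⟨hge1, hge2⟩ := ge_spec D hD hst ℓ hℓ0
  obtain ⟨u, hu1, hu2, hu3, hu4, hu5, hu6⟩ := hbump ℓ hℓ
  let e : Fin (Fintype.card I) ≃ I := (Fintype.equivFin I).symm
  obtain ⟨m, hm⟩ : ∃ m : ℝ, m = (Fintype.card I : ℝ) := ⟨_, rfl⟩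
  let sp0 : Fin 0 → S := fun i => i.elim0
  let Ψ : Wave D (Fin 0) := fun _ _ => 1
  have hΨ : IsState D sp0 ℓ Ψ := by
    refine ⟨fun τ => contDiff_const, fun τ => ?_, fun τ => ?_, ?_, ?_⟩
    · exact HasCompactSupport.of_compactSpace _
    · intro x _ i
      exact i.elim0
    · intro τ _ i
      exact i.elim0
    · intro i
      exact i.elim0
  have hvol : (volume : Measure (Fin 0 → E3)) = Measure.dirac (fun i => i.elim0) := by
    rw [volume_pi]
    exact Measure.pi_of_empty _ _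
  have hn : nrm2 D Ψ = 1 := by
    unfold nrm2
    rw [Fintype.sum_unique]
    rw [hvol, integral_dirac]
    simp [Ψ]
  have hen : energy D sp0 Ψ = 0 := by
    unfold energy
    refine Finset.sum_eq_zero fun τ _ => ?_
    rw [show (fun x : Fin 0 → E3 => (∑ i, kin D sp0 i (Ψ τ) x) + coul D sp0 x * ‖Ψ τ x‖ ^ 2) =
      fun _ => 0 by
        funext x
        simp [coul]]
    simp
  have hph : ∀ y, phim D sp0 Ψ y = 0 := by
    intro y
    unfold phim mean
    simp
  have hkk : ∀ y, kkm D Ψ y = 0 := by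
    intro y
    unfold kkm wm
    simp
  have h := hav ℓ (groundEnergy D ℓ) (fun sp Φ hΦ => hge2 sp Φ hΦ) (Fintype.card I)
    (fun j => sp (e j)) (fun _ => u) (fun _ => ⟨hu1, hu2, hu3, hu4, hu5⟩) sp0 Ψ hΨ hn
  have hcnt : (fun t => cnt sp0 t + (Finset.univ.filter (fun j => sp (e j) = t)).card) =
      fun t => cnt sp t := by
    funext t
    have h1 : cnt sp0 t = 0 := by
      unfold cnt
      simp
    rw [h1, zero_add]
    unfold cnt
    refine Finset.card_bij (fun j _ => e j) ?_ ?_ ?_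
    · intro j hj
      rw [Finset.mem_filter] at hj ⊢
      exact ⟨Finset.mem_univ _, hj.2⟩
    · intro a _ b _ hab
      exact e.injective hab
    · intro i hi
      rw [Finset.mem_filter] at hi
      refine ⟨e.symm i, ?_, by simp⟩
      rw [Finset.mem_filter]
      exact ⟨Finset.mem_univ _, by simpa using hi.2⟩
  rw [hcnt, hge1 sp, hen] at h
  have hsum0 : ∑ j : Fin (Fintype.card I), D.charge (sp (e j)) = 0 := by
    rw [← hneu]
    exact Equiv.sum_comp e (fun i => D.charge (sp i))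
  have hz : (fun y : E3 => ∑ j : Fin (Fintype.card I), D.charge (sp (e j)) * u y) =
      fun _ => 0 := by
    funext y
    rw [← Finset.sum_mul, hsum0, zero_mul]
  have hDD : DD (fun y => ∑ j : Fin (Fintype.card I), D.charge (sp (e j)) * u y)
      (fun y => ∑ j : Fin (Fintype.card I), D.charge (sp (e j)) * u y) = 0 := by
    rw [hz]
    unfold DD
    simp
  rw [hDD] at h
  simp only [hph, hkk, mul_zero, integral_zero, add_zero, mul_one, zero_add, Finset.sum_const,
    Finset.card_univ, Fintype.card_fin, nsmul_eq_mul] at h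
  rw [← hm] at h hcard ⊢
  have hui : Integrable u := hu1.integrable_of_hasCompactSupport hu2
  have hm0 : 0 ≤ m := by rw [hm]; exact Nat.cast_nonneg _
  have hin : ∀ x, ∫ y, u y * kd (x - y) ≤ K / ℓ ^ 3 * ∫ z, kd z := by
    intro x
    have h1 : Integrable (fun y => K / ℓ ^ 3 * kd (x - y)) :=
      (upper_bound_kd_int.comp_sub_left x).const_mul _
    have h2 := integral_mono_of_nonneg (f := fun y => u y * kd (x - y))
      (Filter.Eventually.of_forall fun y => mul_nonneg (hu3 y) (upper_bound_kd_nonneg _)) h1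
      (Filter.Eventually.of_forall fun y =>
        mul_le_mul_of_nonneg_right (hu6 y) (upper_bound_kd_nonneg _))
    rw [integral_const_mul, integral_sub_left_eq_self (fun z => kd z) volume x] at h2
    exact h2
  have hdouble : ∫ x, ∫ y, m * u x * (m * u y) * kd (x - y) ≤
      m ^ 2 * (K / ℓ ^ 3 * ∫ z, kd z) := by
    have e1 : ∀ x, ∫ y, m * u x * (m * u y) * kd (x - y) =
        m ^ 2 * (u x * ∫ y, u y * kd (x - y)) := by
      intro x
      rw [← integral_const_mul, ← integral_const_mul]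
      refine integral_congr_ae (Filter.Eventually.of_forall fun y => ?_)
      show m * u x * (m * u y) * kd (x - y) = m ^ 2 * (u x * (u y * kd (x - y)))
      ring
    simp only [e1]
    rw [integral_const_mul]
    refine mul_le_mul_of_nonneg_left ?_ (sq_nonneg m)
    have h1 : Integrable (fun x => u x * (K / ℓ ^ 3 * ∫ z, kd z)) := hui.mul_const _
    have h2 := integral_mono_of_nonneg (f := fun x => u x * ∫ y, u y * kd (x - y))
      (Filter.Eventually.of_forall fun x => mul_nonneg (hu3 x)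
        (integral_nonneg fun y => mul_nonneg (hu3 y) (upper_bound_kd_nonneg _))) h1
      (Filter.Eventually.of_forall fun x => mul_le_mul_of_nonneg_left (hin x) (hu3 x))
    rw [integral_mul_const, hu4, one_mul] at h2
    exact h2
  have hm3 : m ^ 2 * (K / ℓ ^ 3 * ∫ z, kd z) ≤ m * (ρ * (K * ∫ z, kd z)) := by
    have e1 : m ^ 2 * (K / ℓ ^ 3 * ∫ z, kd z) = m * (m / ℓ ^ 3 * (K * ∫ z, kd z)) := by ring
    rw [e1]
    refine mul_le_mul_of_nonneg_left (mul_le_mul_of_nonneg_right ?_ (by positivity)) hm0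
    rw [div_le_iff₀ (by positivity)]
    exact hcard
  have hfin := mul_le_mul_of_nonneg_left (hdouble.trans hm3) hC0.le
  calc sInf (energies D sp ℓ) ≤ m * C0 + C0 * ∫ x, ∫ y, m * u x * (m * u y) * kd (x - y) := h
    _ ≤ m * C0 + C0 * (m * (ρ * (K * ∫ z, kd z))) := by linarith
    _ = (C0 + C0 * (ρ * (K * ∫ z, kd z))) * m := by ring

end Pool.Agent.Helper780_CP.RUB
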