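import Pool.Agent.Helper780_CP.LTC3
import Pool.Agent.Helper985.CP.M_relabel_num
import Pool.Agent.Helper985.CP.M_relabel_state
import Pool.Agent.Helper985.CT.M_peierls_relabel

set_option autoImplicit false

open MeasureTheory
open scoped Topology

namespace Pool.Agent.Helper780_CP

open Pool.Agent.Helper985.CP

theorem pinv_relab {S : Type} (D : Species S) {I J : Type} (e : I ≃ J) (sp : I → S) (sp' : J → S)
    (h : ∀ i, sp' (e i) = sp i) (i : I) (x : J → E3) :
    pinv D sp' (e i) x = pinv D sp i (fun k => x (e k)) := by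
  unfold pinv
  rw [← e.iSup_comp]
  simp only [h]

theorem pinv_num {S : Type} (D : Species S) {I J : Type} [Fintype I] [DecidableEq I]
    [Fintype J] [DecidableEq J] (e : I ≃ J) (sp : I → S) (sp' : J → S)
    (h : ∀ i, sp' (e i) = sp i) (i : I) (Ψ : Wave D I) :
    ∑ τ, ∫ x, pinv D sp' (e i) x * ‖relab D e Ψ τ x‖ ^ 2 =
      ∑ τ, ∫ x, pinv D sp i x * ‖Ψ τ x‖ ^ 2 := by
  rw [← relaux_sum e]
  apply Finset.sum_congr rfl
  intro τ _
  rw [← relaux_int e]
  congr 1
  funext x
  rw [pinv_relab D e sp sp' h i x]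
  rfl

theorem cnt_relab {S : Type} [DecidableEq S] {I J : Type} [Fintype I] [Fintype J]
    (e : I ≃ J) (sp : I → S) (sp' : J → S)
    (h : ∀ i, sp' (e i) = sp i) (s : S) : cnt sp' s = cnt sp s := by
  classical
  unfold cnt
  symm
  refine Finset.card_equiv e fun i => ?_
  simp [h]

theorem npos_le {S : Type} (D : Species S) {I : Type} [Fintype I] (sp : I → S) :
    npos D sp ≤ Fintype.card I := by
  classical
  unfold npos
  exact Finset.card_le_univ _

/-- the Pauli principle for the inverse distance to the positive charges -/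
theorem pinv_any {S : Type} [DecidableEq S] (D : Species S) (hD : D.Valid) {I : Type}
    [Fintype I] [DecidableEq I] (sp : I → S) (i : I) (hneg : D.charge (sp i) < 0)
    (hferm : D.fermion (sp i) = true) (ℓ : ℝ) (hℓ : 1 ≤ ℓ) (a : ℝ) (ha : 1 ≤ a)
    (Ψ : Wave D I) (hΨ : IsState D sp ℓ Ψ) :
    (cnt sp (sp i) : ℝ) * ∑ τ, ∫ x, pinv D sp i x * ‖Ψ τ x‖ ^ 2 ≤
      ((cnt sp (sp i) : ℝ) + 576 * Real.pi * D.g * a ^ 3 * (Fintype.card I : ℝ)) * nrm2 D Ψ +
      (64 / 3 / a ^ 2) * D.mass (sp i) * ((cnt sp (sp i) : ℝ) * kinE D sp i Ψ) := by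
  obtain ⟨e, he⟩ : ∃ e : I ≃ Option {j // j ≠ i}, e i = none :=
    ⟨(Equiv.optionSubtypeNe i).symm, Equiv.optionSubtypeNe_symm_self i⟩
  obtain ⟨sp', hsp'⟩ : ∃ sp' : Option {j // j ≠ i} → S, sp' = fun j => sp (e.symm j) := ⟨_, rfl⟩
  have h : ∀ k, sp' (e k) = sp k := fun k => by rw [hsp']; simp
  have hnone : sp' none = sp i := by rw [← he, h]
  have h1 := pinv_none D hD sp' (by rw [hnone]; exact hneg) (by rw [hnone]; exact hferm) ℓ hℓ a ha
    (relab D e Ψ) (relabel_state D e sp sp' h ℓ Ψ hΨ)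
  have h2 := pinv_num D e sp sp' h i Ψ
  rw [he] at h2
  have h3 := (peierls_relabel D e sp sp' h ℓ 1).2 Ψ i
  rw [he] at h3
  rw [h2, h3, hnone, cnt_relab e sp sp' h, (relabel_num D e sp sp' h Ψ).1] at h1
  refine h1.trans ?_
  have hn : 0 ≤ nrm2 D Ψ := by
    rw [nrm2]
    exact Finset.sum_nonneg fun τ _ => integral_nonneg fun x => by positivity
  have h4 : (npos D (fun j => sp' (some j)) : ℝ) ≤ (Fintype.card I : ℝ) := by
    refine le_trans (Nat.cast_le.2 (npos_le D _)) ?_
    exact_mod_cast Fintype.card_le_of_injective (fun j : {j // j ≠ i} => j.1)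
      Subtype.val_injective
  have h5 : 0 ≤ 576 * Real.pi * D.g * a ^ 3 := by positivity
  gcongr

theorem ae_distinct {I : Type} [Fintype I] [DecidableEq I] :
    ∀ᵐ x : I → E3, ∀ i j, i ≠ j → x i ≠ x j := by
  rw [ae_all_iff]
  intro i
  rw [ae_all_iff]
  intro j
  by_cases hij : i = j
  · exact Filter.Eventually.of_forall fun x h => absurd hij h
  · have h1 : volume {x : I → E3 | x i = x j} = 0 := by
      let L : (I → E3) →ₗ[ℝ] E3 := LinearMap.proj (R := ℝ) (φ := fun _ : I => E3) i -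
        LinearMap.proj (R := ℝ) (φ := fun _ : I => E3) j
      have h2 : {x : I → E3 | x i = x j} = (LinearMap.ker L : Set (I → E3)) := by
        ext x
        simp [L, sub_eq_zero]
      rw [h2]
      refine Measure.addHaar_submodule _ _ ?_
      intro hcon
      have h3 : ∀ x, L x = 0 := by
        intro x
        have : x ∈ LinearMap.ker L := by rw [hcon]; trivial
        exact this
      have h4 := h3 (Pi.single i (EuclideanSpace.single 0 1))
      have h5 : (Pi.single i (EuclideanSpace.single (0 : Fin 3) (1 : ℝ)) : I → E3) j = 0 :=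
        Pi.single_eq_of_ne (Ne.symm hij) _
      have h6 : (Pi.single i (EuclideanSpace.single (0 : Fin 3) (1 : ℝ)) : I → E3) i -
          (Pi.single i (EuclideanSpace.single (0 : Fin 3) (1 : ℝ)) : I → E3) j = 0 := h4
      rw [h5, Pi.single_eq_same, sub_zero] at h6
      have h7 := congrArg (fun v : E3 => v 0) h6
      simp at h7
    have h8 : ∀ᵐ x : I → E3, ¬ (x i = x j) := by
      rw [ae_iff]
      simpa using h1
    filter_upwards [h8] with x hx _
    exact hx

theorem sum_sp {S : Type} [Fintype S] [DecidableEq S] {I : Type} [Fintype I] (sp : I → S)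
    (f : S → ℝ) : ∑ i, f (sp i) = ∑ s, (cnt sp s : ℝ) * f s := by
  classical
  have h : ∀ i, f (sp i) = ∑ s, (if sp i = s then f s else 0) := by
    intro i
    rw [Finset.sum_ite_eq]
    simp
  simp only [h]
  rw [Finset.sum_comm]
  refine Finset.sum_congr rfl fun s _ => ?_
  rw [← Finset.sum_filter, Finset.sum_const, nsmul_eq_mul]
  rfl

/-- stability for particles in a cube of side at least one -/
theorem stable_large {S : Type} [Fintype S] [DecidableEq S] (D : Species S) (hD : D.Valid)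
    (hf : ∀ s, D.charge s < 0 → D.fermion s = true) :
    ∃ A : ℝ, 0 ≤ A ∧ ∀ {I : Type} [Fintype I] [DecidableEq I] (sp : I → S) (ℓ : ℝ), 1 ≤ ℓ →
      ∀ Ψ : Wave D I, IsState D sp ℓ Ψ →
      -A * (Fintype.card I : ℝ) * nrm2 D Ψ ≤ energy D sp Ψ := by
  obtain ⟨CB, hCB, HB⟩ := baxter D
  obtain ⟨ms, hms⟩ : ∃ ms, ms = ∑ s, D.mass s := ⟨_, rfl⟩
  have hms1 : ∀ s, D.mass s ≤ ms := by
    intro s
    rw [hms]
    exact Finset.single_le_sum (f := fun s => D.mass s) (fun t _ => (hD.mass_pos t).le)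
      (Finset.mem_univ s)
  have hms0 : 0 ≤ ms := by rw [hms]; exact Finset.sum_nonneg fun t _ => (hD.mass_pos t).le
  obtain ⟨a, ha⟩ : ∃ a, a = 1 + 22 * (CB * ms) := ⟨_, rfl⟩
  have ha1 : 1 ≤ a := by
    have := mul_nonneg hCB hms0
    rw [ha]
    linarith
  have ha0 : 0 < a := by linarith
  have hsmall : ∀ s, CB * ((64 / 3 / a ^ 2) * D.mass s) ≤ 1 := by
    intro s
    have h1 : CB * D.mass s ≤ CB * ms := mul_le_mul_of_nonneg_left (hms1 s) hCB
    have h2 : a ≤ a ^ 2 := by nlinarith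
    have h3 : 64 / 3 * (CB * D.mass s) ≤ a ^ 2 := by
      have := mul_nonneg hCB (hD.mass_pos s).le
      have h4 : 64 / 3 * (CB * D.mass s) ≤ 22 * (CB * ms) := by linarith
      rw [ha] at h2
      rw [ha]
      linarith
    have e : CB * ((64 / 3 / a ^ 2) * D.mass s) = (64 / 3 * (CB * D.mass s)) / a ^ 2 := by ring
    rw [e, div_le_one (by positivity)]
    exact h3
  obtain ⟨c, hc⟩ : ∃ c, c = 576 * Real.pi * D.g * a ^ 3 := ⟨_, rfl⟩
  have hc0 : 0 ≤ c := by rw [hc]; positivity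
  refine ⟨CB * (1 + c * (Fintype.card S : ℝ)), by positivity, ?_⟩
  intro I _ _ sp ℓ hℓ Ψ hΨ
  have hst := fun τ => int_state D sp ℓ Ψ hΨ τ
  have hn : 0 ≤ nrm2 D Ψ := by
    rw [nrm2]
    exact Finset.sum_nonneg fun τ _ => integral_nonneg fun x => by positivity
  have hk : ∀ i, 0 ≤ kinE D sp i Ψ := by
    intro i
    unfold kinE kin
    refine Finset.sum_nonneg fun τ _ => integral_nonneg fun x => ?_
    have := (hD.mass_pos (sp i)).le
    exact mul_nonneg (by positivity) (Finset.sum_nonneg fun _ _ => by positivity)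
  obtain ⟨E, hE⟩ : ∃ E : I → ℝ, E = fun i => ∑ τ, ∫ x, pinv D sp i x * ‖Ψ τ x‖ ^ 2 := ⟨_, rfl⟩
  -- the energy
  have h1 : energy D sp Ψ = ∑ i, kinE D sp i Ψ + ∑ τ, ∫ x, coul D sp x * ‖Ψ τ x‖ ^ 2 := by
    unfold energy kinE
    rw [Finset.sum_comm, ← Finset.sum_add_distrib]
    refine Finset.sum_congr rfl fun τ _ => ?_
    rw [integral_add (integrable_finsetSum _ fun i _ => (hst τ).2.1 i) (hst τ).2.2.1,
      integral_finsetSum _ fun i _ => (hst τ).2.1 i]
  have h2 : ∀ τ, -CB * ∑ i, (if D.charge (sp i) < 0 then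
      ∫ x, pinv D sp i x * ‖Ψ τ x‖ ^ 2 else 0) ≤ ∫ x, coul D sp x * ‖Ψ τ x‖ ^ 2 := by
    intro τ
    have e1 : -CB * ∑ i, (if D.charge (sp i) < 0 then
        ∫ x, pinv D sp i x * ‖Ψ τ x‖ ^ 2 else 0) = ∫ x, -CB * ∑ i, (if D.charge (sp i) < 0 then
        pinv D sp i x * ‖Ψ τ x‖ ^ 2 else 0) := by
      rw [integral_const_mul, integral_finsetSum]
      · congr 1
        refine Finset.sum_congr rfl fun i _ => ?_
        split_ifs
        · rfl
        · simp
      · intro i _
        split_ifs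
        · exact pinv_intg D hD sp ℓ Ψ hΨ i τ
        · exact integrable_zero _ _ _
    rw [e1]
    refine integral_mono_ae ?_ (hst τ).2.2.1 ?_
    · refine Integrable.const_mul (integrable_finsetSum _ fun i _ => ?_) _
      split_ifs
      · exact pinv_intg D hD sp ℓ Ψ hΨ i τ
      · exact integrable_zero _ _ _
    · filter_upwards [ae_distinct (I := I)] with x hx
      have h3 := mul_le_mul_of_nonneg_right (HB sp x hx) (show 0 ≤ ‖Ψ τ x‖ ^ 2 by positivity)
      refine le_trans (le_of_eq ?_) h3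
      rw [mul_assoc, Finset.sum_mul]
      congr 1
      refine Finset.sum_congr rfl fun i _ => ?_
      split_ifs
      · rfl
      · simp
  have h3 : -CB * ∑ i, (if D.charge (sp i) < 0 then E i else 0) ≤
      ∑ τ, ∫ x, coul D sp x * ‖Ψ τ x‖ ^ 2 := by
    refine le_trans (le_of_eq ?_) (Finset.sum_le_sum fun τ _ => h2 τ)
    rw [← Finset.mul_sum, Finset.sum_comm]
    congr 1
    refine Finset.sum_congr rfl fun i _ => ?_
    rw [hE]
    split_ifs
    · rfl
    · simp
  -- the one-particle bounds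
  have h4 : ∀ i, CB * (if D.charge (sp i) < 0 then E i else 0) ≤
      CB * ((1 + c * (Fintype.card I : ℝ) * (1 / (cnt sp (sp i) : ℝ))) * nrm2 D Ψ) +
        kinE D sp i Ψ := by
    intro i
    have hcn : 0 < (cnt sp (sp i) : ℝ) := by
      have : 0 < cnt sp (sp i) := by
        unfold cnt
        exact Finset.card_pos.2 ⟨i, by simp⟩
      exact_mod_cast this
    by_cases hi : D.charge (sp i) < 0
    · rw [if_pos hi]
      have h5 := pinv_any D hD sp i hi (hf _ hi) ℓ hℓ a ha1 Ψ hΨ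
      have h6 : E i ≤ (1 + c * (Fintype.card I : ℝ) * (1 / (cnt sp (sp i) : ℝ))) * nrm2 D Ψ +
          (64 / 3 / a ^ 2) * D.mass (sp i) * kinE D sp i Ψ := by
        have h7 : (cnt sp (sp i) : ℝ) * E i ≤ (cnt sp (sp i) : ℝ) *
            ((1 + c * (Fintype.card I : ℝ) * (1 / (cnt sp (sp i) : ℝ))) * nrm2 D Ψ +
          (64 / 3 / a ^ 2) * D.mass (sp i) * kinE D sp i Ψ) := by
          refine le_trans (le_of_eq ?_) (h5.trans (le_of_eq ?_))
          · rw [hE]
          · rw [hc]
            field_simp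
        exact le_of_mul_le_mul_left h7 hcn
      have h8 := mul_le_mul_of_nonneg_left h6 hCB
      have h9 := mul_le_mul_of_nonneg_right (hsmall (sp i)) (hk i)
      linarith
    · rw [if_neg hi, mul_zero]
      have := hk i
      positivity
  have h5 := Finset.sum_le_sum fun i (_ : i ∈ Finset.univ) => h4 i
  rw [← Finset.mul_sum, Finset.sum_add_distrib, ← Finset.mul_sum, ← Finset.sum_mul,
    Finset.sum_add_distrib, ← Finset.mul_sum] at h5
  have h6 : ∑ i, (1 / (cnt sp (sp i) : ℝ)) ≤ (Fintype.card S : ℝ) := by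
    rw [sum_sp sp (fun s => 1 / (cnt sp s : ℝ))]
    calc ∑ s, (cnt sp s : ℝ) * (1 / (cnt sp s : ℝ)) ≤ ∑ _s : S, (1 : ℝ) := by
          refine Finset.sum_le_sum fun s _ => ?_
          by_cases h0 : (cnt sp s : ℝ) = 0
          · rw [h0]; simp
          · rw [mul_one_div, div_self h0]
      _ = (Fintype.card S : ℝ) := by simp
  have h7 : ∑ _i : I, (1 : ℝ) = (Fintype.card I : ℝ) := by simp
  rw [h7] at h5
  have h8 : CB * (((Fintype.card I : ℝ) + c * (Fintype.card I : ℝ) *
      ∑ i, (1 / (cnt sp (sp i) : ℝ))) * nrm2 D Ψ) ≤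
      CB * (((Fintype.card I : ℝ) + c * (Fintype.card I : ℝ) * (Fintype.card S : ℝ)) *
        nrm2 D Ψ) := by
    gcongr
  rw [h1]
  have e : -(CB * (1 + c * (Fintype.card S : ℝ))) * (Fintype.card I : ℝ) * nrm2 D Ψ =
      -(CB * (((Fintype.card I : ℝ) + c * (Fintype.card I : ℝ) * (Fintype.card S : ℝ)) *
        nrm2 D Ψ)) := by ring
  rw [e]
  linarith

/-- Stability of matter: if all species of negative charge are fermions, the species are
H-stable. -/
theorem hstable {S : Type} [Fintype S] [DecidableEq S] (D : Species S) (hD : D.Valid)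
    (hf : ∀ s, D.charge s < 0 → D.fermion s = true) : HStable D := by
  obtain ⟨A, hA, H⟩ := stable_large D hD hf
  refine ⟨A, fun ℓ hℓ n Ψ hΨ => ?_⟩
  have h1 : IsState D (fun i : (Σ s, Fin (n s)) => i.1) (max ℓ 1) Ψ := by
    refine ⟨hΨ.smooth, hΨ.compact, fun τ x hx i k => ?_, hΨ.spin, hΨ.symm⟩
    have := hΨ.support τ hx i k
    exact ⟨this.1, lt_of_lt_of_le this.2 (le_max_left _ _)⟩
  have h2 := H _ (max ℓ 1) (le_max_right _ _) Ψ h1
  have h3 : (Fintype.card (Σ s, Fin (n s)) : ℝ) = ∑ s, (n s : ℝ) := by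
    rw [Fintype.card_sigma]
    simp
  rw [h3] at h2
  exact h2

end Pool.Agent.Helper780_CP
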