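import Pool.Agent.Helper780_CP.LLDefs2
import Pool.Agent.Helper780_CP.RUB
import Pool.Agent.Helper780_CP.Stable

set_option autoImplicit false

open MeasureTheory
open scoped Topology

namespace Pool.Agent.Helper780_CP.RDIL

open Pool.Agent.Helper780_CP
open Pool.Agent.Helper985.CP
open Pool.Agent.Helper780_CP.RUB (upper_bound)

open Pool.Agent.Helper985.CP

/-- the species with doubled masses -/
noncomputable def dil_D {S : Type} (D : Species S) : Species S :=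
  { D with mass := fun s => 2 * D.mass s }

theorem dil_valid {S : Type} (D : Species S) (hD : D.Valid) : (dil_D D).Valid :=
  ⟨hD.charge_ne, fun s => mul_pos two_pos (hD.mass_pos s), hD.spin_nonempty⟩

theorem dil_state {S : Type} (D : Species S) {I : Type} [Fintype I] [DecidableEq I] (sp : I → S)
    (ℓ : ℝ) (Ψ : Wave D I) (h : IsState D sp ℓ Ψ) : IsState (dil_D D) sp ℓ (Ψ : Wave (dil_D D) I) :=
  ⟨h.smooth, h.compact, h.support, h.spin, h.symm⟩

theorem dil_energy {S : Type} (D : Species S) {I : Type} [Fintype I] [DecidableEq I] (sp : I → S)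
    (ℓ : ℝ) (Ψ : Wave D I) (h : IsState D sp ℓ Ψ) :
    energy D sp Ψ = (∑ τ, ∫ x, ∑ i, kin D sp i (Ψ τ) x) + ∑ τ, ∫ x, coul D sp x * ‖Ψ τ x‖ ^ 2 := by
  unfold energy
  rw [← Finset.sum_add_distrib]
  refine Finset.sum_congr rfl fun τ _ => ?_
  have hst := int_state D sp ℓ Ψ h τ
  exact integral_add (integrable_finsetSum _ fun i _ => hst.2.1 i) hst.2.2.1

theorem dil_kin {S : Type} (D : Species S) {I : Type} [Fintype I] [DecidableEq I] (sp : I → S)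
    (i : I) (u : (I → E3) → ℂ) (x : I → E3) : kin (dil_D D) sp i u x = 1 / 2 * kin D sp i u x := by
  unfold kin dil_D
  simp only
  ring

theorem dil_energy2 {S : Type} (D : Species S) {I : Type} [Fintype I] [DecidableEq I] (sp : I → S)
    (ℓ : ℝ) (Ψ : Wave D I) (h : IsState D sp ℓ Ψ) :
    energy (dil_D D) sp (Ψ : Wave (dil_D D) I) =
      1 / 2 * (∑ τ, ∫ x, ∑ i, kin D sp i (Ψ τ) x) + ∑ τ, ∫ x, coul D sp x * ‖Ψ τ x‖ ^ 2 := by
  show (∑ τ : I → Fin D.g, ∫ x, ((∑ i, kin (dil_D D) sp i (Ψ τ) x) + coul D sp x * ‖Ψ τ x‖ ^ 2)) = _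
  rw [Finset.mul_sum, ← Finset.sum_add_distrib]
  refine Finset.sum_congr rfl fun τ _ => ?_
  have hst := int_state D sp ℓ Ψ h τ
  have e : (fun x => (∑ i, kin (dil_D D) sp i (Ψ τ) x) + coul D sp x * ‖Ψ τ x‖ ^ 2) =
      fun x => 1 / 2 * (∑ i, kin D sp i (Ψ τ) x) + coul D sp x * ‖Ψ τ x‖ ^ 2 := by
    funext x
    rw [Finset.mul_sum]
    congr 1
    exact Finset.sum_congr rfl fun i _ => dil_kin D sp i (Ψ τ) x
  rw [e, integral_add ((integrable_finsetSum _ fun i _ => hst.2.1 i).const_mul _) hst.2.2.1,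
    integral_const_mul]

theorem dil_stab {S : Type} [Fintype S] [DecidableEq S] (D : Species S) (hD : D.Valid)
    (hf : ∀ s, D.charge s < 0 → D.fermion s = true) : ∃ A : ℝ, 0 ≤ A ∧
    ∀ {I : Type} [Fintype I] [DecidableEq I] (sp : I → S) (ℓ : ℝ), 1 ≤ ℓ →
      ∀ Ψ : Wave D I, IsState D sp ℓ Ψ →
      (∑ τ, ∫ x, ∑ i, kin D sp i (Ψ τ) x) ≤
        2 * (energy D sp Ψ + A * (Fintype.card I : ℝ) * nrm2 D Ψ) := by
  obtain ⟨A, hA, H⟩ := stable_large (dil_D D) (dil_valid D hD) hf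
  refine ⟨A, hA, fun {I} _ _ sp ℓ hℓ Ψ hΨ => ?_⟩
  have h1 := H sp ℓ hℓ Ψ (dil_state D sp ℓ Ψ hΨ)
  rw [dil_energy2 D sp ℓ Ψ hΨ] at h1
  have h3 := dil_energy D sp ℓ Ψ hΨ
  have h5 : nrm2 (dil_D D) (Ψ : Wave (dil_D D) I) = nrm2 D Ψ := rfl
  have h6 : -A * (Fintype.card I : ℝ) * nrm2 D Ψ ≤
      1 / 2 * (∑ τ, ∫ x, ∑ i, kin D sp i (Ψ τ) x) + ∑ τ, ∫ x, coul D sp x * ‖Ψ τ x‖ ^ 2 := h1
  linarith

/-- TARGET 1 -/
theorem kin_bound {S : Type} [Fintype S] [DecidableEq S] (D : Species S) (hD : D.Valid)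
    (hf : ∀ s, D.charge s < 0 → D.fermion s = true) (ρ : ℝ) (hρ : 0 ≤ ρ) : ∃ C : ℝ, 0 < C ∧
    ∀ {I : Type} [Fintype I] [DecidableEq I] (sp : I → S) (ℓ : ℝ), 4 ≤ ℓ →
      (Fintype.card I : ℝ) ≤ ρ * ℓ ^ 3 → (∑ i, D.charge (sp i) = 0) →
      ∀ Ψ : Wave D I, IsState D sp ℓ Ψ → nrm2 D Ψ = 1 →
      energy D sp Ψ ≤ sInf (energies D sp ℓ) + 1 →
      (∑ τ, ∫ x, ∑ i, kin D sp i (Ψ τ) x) ≤ C * (1 + (Fintype.card I : ℝ)) := by
  obtain ⟨A, hA, H⟩ := dil_stab D hD hf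
  obtain ⟨C, hC, U⟩ := upper_bound D hD (hstable D hD hf) ρ hρ
  refine ⟨2 * (C + A + 1), by positivity, fun {I} _ _ sp ℓ hℓ hN hch Ψ hΨ hn hE => ?_⟩
  have h1 := H sp ℓ (by linarith) Ψ hΨ
  have h2 := U sp ℓ hℓ hN hch
  rw [hn] at h1
  have hN0 : (0 : ℝ) ≤ (Fintype.card I : ℝ) := Nat.cast_nonneg _
  nlinarith

/-- dilated wave function -/
noncomputable def dilW {S : Type} (D : Species S) {I : Type} (lam : ℝ) (Ψ : Wave D I) : Wave D I :=
  fun τ x => Ψ τ (lam • x)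

theorem dilW_state {S : Type} (D : Species S) {I : Type} [Fintype I] [DecidableEq I] (sp : I → S)
    (lam ℓ : ℝ) (hl : 0 < lam) (Ψ : Wave D I) (h : IsState D sp (lam * ℓ) Ψ) :
    IsState D sp ℓ (dilW D lam Ψ) := by
  refine ⟨fun τ => ?_, fun τ => ?_, fun τ x hx i k => ?_, fun τ hne i => ?_, fun i j hij hs τ x => ?_⟩
  · exact (h.smooth τ).comp (contDiff_const_smul lam)
  · exact (h.compact τ).comp_smul hl.ne'
  · have h1 : lam • x ∈ tsupport (Ψ τ) := by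
      have hc : Continuous fun x : I → E3 => lam • x := continuous_const_smul lam
      exact tsupport_comp_subset_preimage (Ψ τ) hc hx
    have h2 := h.support τ h1 i k
    have h3 : (lam • x) i k = lam * x i k := rfl
    rw [h3] at h2
    exact ⟨(mul_pos_iff_of_pos_left hl).1 h2.1, lt_of_mul_lt_mul_left h2.2 hl.le⟩
  · refine h.spin τ (fun h0 => hne ?_) i
    funext x
    show Ψ τ (lam • x) = 0
    rw [h0]; rfl
  · exact h.symm i j hij hs τ (lam • x)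

theorem dilW_nrm {S : Type} (D : Species S) {I : Type} [Fintype I] [DecidableEq I]
    (lam : ℝ) (hl : 0 < lam) : ∃ c : ℝ, 0 < c ∧ ∀ f : (I → E3) → ℝ,
      ∫ x, f (lam • x) = c * ∫ x, f x := by
  refine ⟨|(lam ^ (Module.finrank ℝ (I → E3)))⁻¹|, by positivity, fun f => ?_⟩
  have := Measure.integral_comp_smul (volume : Measure (I → E3)) f lam
  rw [this, smul_eq_mul]

theorem dilW_kin {S : Type} (D : Species S) {I : Type} [Fintype I] [DecidableEq I] (sp : I → S)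
    (lam : ℝ) (u : (I → E3) → ℂ) (hu : Differentiable ℝ u) (i : I) (x : I → E3) :
    kin D sp i (fun x => u (lam • x)) x = lam ^ 2 * kin D sp i u (lam • x) := by
  have h1 : fderiv ℝ (fun x => u (lam • x)) x = lam • fderiv ℝ u (lam • x) := by
    have := fderiv_comp_smul (𝕜 := ℝ) (f := u) (x := x) lam
    exact this
  unfold kin
  rw [h1]
  have h2 : ∀ k : Fin 3, ‖(lam • fderiv ℝ u (lam • x)) (Pi.single i (EuclideanSpace.single k (1 : ℝ)))‖ ^ 2 =
      lam ^ 2 * ‖fderiv ℝ u (lam • x) (Pi.single i (EuclideanSpace.single k (1 : ℝ)))‖ ^ 2 := by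
    intro k
    rw [smul_apply, norm_smul, mul_pow, Real.norm_eq_abs, sq_abs]
  rw [Finset.sum_congr rfl fun k _ => h2 k, ← Finset.mul_sum]
  ring

theorem dilW_coul_term {I : Type} [DecidableEq I] (lam a : ℝ) (hl : 0 < lam) (x : I → E3)
    (i j : I) : (if i = j then (0 : ℝ) else a / ‖x i - x j‖) =
      lam * (if i = j then (0 : ℝ) else a / ‖(lam • x) i - (lam • x) j‖) := by
  split_ifs with hij
  · simp
  · have h1 : ‖(lam • x) i - (lam • x) j‖ = lam * ‖x i - x j‖ := by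
      rw [Pi.smul_apply, Pi.smul_apply, ← smul_sub, norm_smul, Real.norm_eq_abs, abs_of_pos hl]
    rw [h1]
    by_cases h0 : ‖x i - x j‖ = 0
    · rw [h0]; simp
    · field_simp

theorem dilW_coul {S : Type} (D : Species S) {I : Type} [Fintype I] [DecidableEq I] (sp : I → S)
    (lam : ℝ) (hl : 0 < lam) (x : I → E3) : coul D sp x = lam * coul D sp (lam • x) := by
  have key : ∀ i j : I, (if i = j then (0 : ℝ) else D.charge (sp i) * D.charge (sp j) / ‖x i - x j‖) =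
      lam * (if i = j then (0 : ℝ) else
        D.charge (sp i) * D.charge (sp j) / ‖(lam • x) i - (lam • x) j‖) := fun i j =>
    dilW_coul_term lam (D.charge (sp i) * D.charge (sp j)) hl x i j
  unfold coul
  have e : (∑ i, ∑ j, (if i = j then (0 : ℝ) else
      D.charge (sp i) * D.charge (sp j) / ‖x i - x j‖)) = lam * ∑ i, ∑ j,
      (if i = j then (0 : ℝ) else
        D.charge (sp i) * D.charge (sp j) / ‖(lam • x) i - (lam • x) j‖) := by
    rw [Finset.mul_sum]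
    refine Finset.sum_congr rfl fun i _ => ?_
    rw [Finset.mul_sum]
    exact Finset.sum_congr rfl fun j _ => key i j
  rw [e]
  ring

theorem dilW_energy {S : Type} (D : Species S) {I : Type} [Fintype I] [DecidableEq I] (sp : I → S)
    (lam ℓ : ℝ) (hl : 0 < lam) (Ψ : Wave D I) (h : IsState D sp (lam * ℓ) Ψ) :
    ∃ c : ℝ, 0 < c ∧ nrm2 D (dilW D lam Ψ) = c * nrm2 D Ψ ∧
      energy D sp (dilW D lam Ψ) = c * (lam ^ 2 * (∑ τ, ∫ x, ∑ i, kin D sp i (Ψ τ) x) +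
        lam * ∑ τ, ∫ x, coul D sp x * ‖Ψ τ x‖ ^ 2) := by
  obtain ⟨c, hc, H⟩ := dilW_nrm (I := I) D lam hl
  refine ⟨c, hc, ?_, ?_⟩
  · unfold nrm2
    rw [Finset.mul_sum]
    exact Finset.sum_congr rfl fun τ _ => H (fun x => ‖Ψ τ x‖ ^ 2)
  · rw [dil_energy D sp ℓ _ (dilW_state D sp lam ℓ hl Ψ h), mul_add]
    congr 1
    · rw [Finset.mul_sum, Finset.mul_sum]
      refine Finset.sum_congr rfl fun τ _ => ?_
      have hu : Differentiable ℝ (Ψ τ) := (h.smooth τ).differentiable (by simp)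
      have e1 : (fun x => ∑ i, kin D sp i (dilW D lam Ψ τ) x) =
          fun x => (fun y => lam ^ 2 * ∑ i, kin D sp i (Ψ τ) y) (lam • x) := by
        funext x
        simp only
        rw [Finset.mul_sum]
        exact Finset.sum_congr rfl fun i _ => dilW_kin D sp lam (Ψ τ) hu i x
      rw [e1]
      exact (H (fun y => lam ^ 2 * ∑ i, kin D sp i (Ψ τ) y)).trans (by rw [integral_const_mul])
    · rw [Finset.mul_sum, Finset.mul_sum]
      refine Finset.sum_congr rfl fun τ _ => ?_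
      have e1 : (fun x => coul D sp x * ‖dilW D lam Ψ τ x‖ ^ 2) =
          fun x => (fun y => lam * (coul D sp y * ‖Ψ τ y‖ ^ 2)) (lam • x) := by
        funext x
        simp only
        rw [dilW_coul D sp lam hl x, mul_assoc]
        rfl
      rw [e1]
      exact (H (fun y => lam * (coul D sp y * ‖Ψ τ y‖ ^ 2))).trans (by rw [integral_const_mul])

/-- TARGET 2 -/
theorem dilation {S : Type} [Fintype S] [DecidableEq S] (D : Species S) (hD : D.Valid)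
    (hf : ∀ s, D.charge s < 0 → D.fermion s = true) (ρ : ℝ) (hρ : 0 ≤ ρ) : ∃ C : ℝ, 0 < C ∧
    ∀ {I : Type} [Fintype I] [DecidableEq I] (sp : I → S) (ℓ t : ℝ), 4 ≤ ℓ → 0 ≤ t → t ≤ ℓ →
      (Fintype.card I : ℝ) ≤ ρ * ℓ ^ 3 → (∑ i, D.charge (sp i) = 0) →
      sInf (energies D sp ℓ) ≤ sInf (energies D sp (ℓ + t)) +
        C * (t / ℓ) * (Fintype.card I : ℝ) := by
  obtain ⟨A, hA, H⟩ := dil_stab D hD hf
  have hst := hstable D hD hf
  obtain ⟨C, hC, U⟩ := upper_bound D hD hst ρ hρ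
  refine ⟨5 * C + 4 * A, by positivity, fun {I} _ _ sp ℓ t hℓ ht htl hN hch => ?_⟩
  have hℓ0 : 0 < ℓ := by linarith
  have hN0 : (0 : ℝ) ≤ (Fintype.card I : ℝ) := Nat.cast_nonneg _
  obtain ⟨q, hq⟩ : ∃ q, q = t / ℓ := ⟨_, rfl⟩
  have hq0 : 0 ≤ q := by rw [hq]; positivity
  have hq1 : q ≤ 1 := by rw [hq, div_le_one hℓ0]; exact htl
  have hlam : (1 + q) * ℓ = ℓ + t := by rw [hq]; field_simp
  have hlam0 : 0 < 1 + q := by linarith
  have hN' : (Fintype.card I : ℝ) ≤ ρ * (ℓ + t) ^ 3 := by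
    refine hN.trans ?_
    gcongr
    linarith
  have h2 := U sp (ℓ + t) (by linarith) hN' hch
  rw [← hq]
  refine le_of_forall_pos_le_add fun δ hδ => ?_
  obtain ⟨Ψ, hΨ, hn, hE⟩ := (energies_basic D hD hst sp (ℓ + t) (by linarith)).2.2.2 (δ / 6)
    (by positivity)
  have hT := H sp (ℓ + t) (by linarith) Ψ hΨ
  have hΨ' : IsState D sp ((1 + q) * ℓ) Ψ := by rw [hlam]; exact hΨ
  have h3 := (energies_basic D hD hst sp ℓ hℓ0).2.2.1 _ (dilW_state D sp (1 + q) ℓ hlam0 Ψ hΨ')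
  obtain ⟨c, hc, hc1, hc2⟩ := dilW_energy D sp (1 + q) ℓ hlam0 Ψ hΨ'
  rw [hc1, hc2] at h3
  have h4 := dil_energy D sp (ℓ + t) Ψ hΨ
  obtain ⟨T, hTd⟩ : ∃ T, T = ∑ τ, ∫ x, ∑ i, kin D sp i (Ψ τ) x := ⟨_, rfl⟩
  obtain ⟨V, hVd⟩ : ∃ V, V = ∑ τ, ∫ x, coul D sp x * ‖Ψ τ x‖ ^ 2 := ⟨_, rfl⟩
  rw [← hTd, ← hVd] at h3 h4
  rw [← hTd] at hT
  have h5 : sInf (energies D sp ℓ) * nrm2 D Ψ ≤ (1 + q) ^ 2 * T + (1 + q) * V := by
    have h6 : c * (sInf (energies D sp ℓ) * nrm2 D Ψ) ≤ c * ((1 + q) ^ 2 * T + (1 + q) * V) := by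
      refine le_trans (le_of_eq ?_) h3
      ring
    exact le_of_mul_le_mul_left h6 hc
  obtain ⟨n, hnd⟩ : ∃ n, n = nrm2 D Ψ := ⟨_, rfl⟩
  obtain ⟨s, hs⟩ : ∃ s, s = sInf (energies D sp (ℓ + t)) := ⟨_, rfl⟩
  obtain ⟨s0, hs0⟩ : ∃ s0, s0 = sInf (energies D sp ℓ) := ⟨_, rfl⟩
  obtain ⟨E, hEd⟩ : ∃ E, E = energy D sp Ψ := ⟨_, rfl⟩
  obtain ⟨N, hNd⟩ : ∃ N : ℝ, N = (Fintype.card I : ℝ) := ⟨_, rfl⟩
  rw [← hnd] at hn hT h5 hE
  rw [← hs] at hE h2 ⊢
  rw [← hs0] at h5 ⊢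
  rw [← hEd] at hT hE h4
  rw [← hNd] at hN0 h2 hT ⊢
  have h7 : s0 * n ≤ (s + (5 * C + 4 * A) * q * N + δ) * n := by
    have e1 : E ≤ (C * N + δ / 6) * n := hE.trans (by gcongr)
    have e2 : T ≤ (2 * (C + A) * N + δ / 3) * n := by linarith
    have e3 : (1 + q) ^ 2 * T + (1 + q) * V = E + q * E + (1 + q) * q * T := by
      rw [h4]; ring
    have e4 : q * E ≤ q * ((C * N + δ / 6) * n) := mul_le_mul_of_nonneg_left e1 hq0
    have e5 : (1 + q) * q * T ≤ (1 + q) * q * ((2 * (C + A) * N + δ / 3) * n) :=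
      mul_le_mul_of_nonneg_left e2 (by positivity)
    have e6 : (1 + q) * q * ((2 * (C + A) * N + δ / 3) * n) ≤
        2 * q * ((2 * (C + A) * N + δ / 3) * n) := by
      have : 0 ≤ (2 * (C + A) * N + δ / 3) * n := by positivity
      gcongr
      linarith
    have e7 : q * (δ * n) ≤ 1 * (δ * n) := by
      have : 0 ≤ δ * n := by positivity
      exact mul_le_mul_of_nonneg_right hq1 this
    rw [e3] at h5
    linarith
  exact le_of_mul_le_mul_right h7 hn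

end Pool.Agent.Helper780_CP.RDIL
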