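import Pool.Agent.Helper780_CP.LLDefs2

set_option autoImplicit false

open MeasureTheory
open scoped Topology

namespace Pool.Agent.Helper780_CP.RGR1

open Pool.Agent.Helper780_CP
open Pool.Agent.Helper985.CP

open Pool.Agent.Helper985.CP

/-- the right-hand side of the bound -/
noncomputable def gsR {S : Type} (D : Species S) {I : Type} [Fintype I] [DecidableEq I]
    (sp : I → S) (G : Finset I) (Ψ : Wave D I) : ℝ :=
  energy D sp Ψ - (∑ i ∈ G, pe D sp i Ψ) +
      1 / 2 * ∑ i ∈ G, ∑ j ∈ G, (if i = j then 0 else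
        D.charge (sp i) * D.charge (sp j) * wm D (fun x => 1 / ‖x i - x j‖) Ψ)

theorem gs_wm_relabel {S : Type} (D : Species S) {I J : Type} [Fintype I] [DecidableEq I]
    [Fintype J] [DecidableEq J] (e : I ≃ J) (Ψ : Wave D I) (i j : I) :
    wm D (fun x => 1 / ‖x (e i) - x (e j)‖) (relab D e Ψ) =
      wm D (fun x => 1 / ‖x i - x j‖) Ψ := by
  unfold wm
  rw [← relaux_sum e]
  apply Finset.sum_congr rfl
  intro τ _
  rw [← relaux_int e]
  rfl

theorem gs_relabel {S : Type} (D : Species S) {I J : Type} [Fintype I] [DecidableEq I]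
    [Fintype J] [DecidableEq J] (e : I ≃ J) (sp : I → S) (sp' : J → S)
    (h : ∀ i, sp' (e i) = sp i) (G : Finset I) (Ψ : Wave D I) :
    gsR D sp' (G.map e.toEmbedding) (relab D e Ψ) = gsR D sp G Ψ := by
  obtain ⟨-, hen, hpe, -⟩ := relabel_num D e sp sp' h Ψ
  unfold gsR
  simp only [hen, Finset.sum_map, Equiv.coe_toEmbedding, hpe, h, gs_wm_relabel,
    EmbeddingLike.apply_eq_iff_eq]

theorem gs_slice_wm {S : Type} (D : Species S) {I : Type} [Fintype I] [DecidableEq I]
    (sp : Option I → S) (ℓ : ℝ) (Φ : Wave D (Option I)) (hΦ : IsState D sp ℓ Φ) (j k : I)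
    (hjk : j ≠ k) :
    (∀ σ, Integrable (fun z => wm D (fun x => 1 / ‖x j - x k‖) (slice D σ z Φ))) ∧
      ∑ σ, ∫ z, wm D (fun x => 1 / ‖x j - x k‖) (slice D σ z Φ) =
        wm D (fun x => 1 / ‖x (some j) - x (some k)‖) Φ := by
  refine sb_sum (fun τ' x' => 1 / ‖x' (some j) - x' (some k)‖ * ‖Φ τ' x'‖ ^ 2) (fun τ' => ?_)
  have hcont : Continuous (Φ τ') := (hΦ.smooth τ').continuous
  have hsq : Continuous (fun x => ‖Φ τ' x‖ ^ 2) := (hcont.norm).pow 2
  have hsqc : HasCompactSupport (fun x => ‖Φ τ' x‖ ^ 2) :=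
    (hΦ.compact τ').comp_left (g := fun z : ℂ => ‖z‖ ^ 2) (by simp)
  exact int_coul (some j) (some k) (by simpa using hjk) (fun x => ‖Φ τ' x‖ ^ 2) hsq hsqc

theorem gs_pair {S : Type} (D : Species S) {I : Type} [Fintype I] [DecidableEq I]
    (Φ : Wave D I) (i j : I) (c : ℝ) :
    ∑ τ, ∫ x, c / ‖x i - x j‖ * ‖Φ τ x‖ ^ 2 = c * wm D (fun x => 1 / ‖x i - x j‖) Φ := by
  unfold wm
  rw [Finset.mul_sum]
  apply Finset.sum_congr rfl
  intro τ _
  rw [← integral_const_mul]
  congr 1
  funext x
  ring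

theorem gs_int3 {f g h : E3 → ℝ} (hf : Integrable f) (hg : Integrable g) (hh : Integrable h) :
    ∫ z, (f z - g z + 1 / 2 * h z) = (∫ z, f z) - (∫ z, g z) + 1 / 2 * ∫ z, h z := by
  calc ∫ z, (f z - g z + 1 / 2 * h z) = (∫ z, (f z - g z)) + ∫ z, (1 / 2 * h z) :=
        integral_add (hf.sub hg) (hh.const_mul _)
    _ = _ := by rw [integral_sub hf hg, integral_const_mul]

theorem gs_slice {S : Type} (D : Species S) {I : Type} [Fintype I] [DecidableEq I]
    (sp : Option I → S) (ℓ : ℝ) (Φ : Wave D (Option I)) (hΦ : IsState D sp ℓ Φ) (G : Finset I) :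
    (∀ σ, Integrable (fun z => gsR D (fun i => sp (some i)) G (slice D σ z Φ))) ∧
      ∑ σ, ∫ z, gsR D (fun i => sp (some i)) G (slice D σ z Φ) =
        gsR D sp (Finset.insertNone G) Φ := by
  obtain ⟨i2, e2⟩ := slice_energy D sp ℓ Φ hΦ
  have h3 := fun j => slice_pe D sp ℓ Φ hΦ j
  have h4 := fun j k hjk => gs_slice_wm D sp ℓ Φ hΦ j k hjk
  have i5 : ∀ (j k : I) (σ : Fin D.g), Integrable (fun z : E3 => if j = k then (0 : ℝ) else
      D.charge (sp (some j)) * D.charge (sp (some k)) *
        wm D (fun x => 1 / ‖x j - x k‖) (slice D σ z Φ)) := by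
    intro j k σ
    by_cases hjk : j = k
    · simp only [if_pos hjk]
      exact integrable_zero _ _ _
    · simp only [if_neg hjk]
      exact ((h4 j k hjk).1 σ).const_mul _
  have e5 : ∀ (j k : I), ∑ σ : Fin D.g, ∫ z : E3, (if j = k then (0 : ℝ) else
      D.charge (sp (some j)) * D.charge (sp (some k)) *
        wm D (fun x => 1 / ‖x j - x k‖) (slice D σ z Φ)) =
      if j = k then (0 : ℝ) else D.charge (sp (some j)) * D.charge (sp (some k)) *
        wm D (fun x => 1 / ‖x (some j) - x (some k)‖) Φ := by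
    intro j k
    by_cases hjk : j = k
    · simp only [if_pos hjk, integral_zero, Finset.sum_const_zero]
    · simp only [if_neg hjk, integral_const_mul]
      rw [← Finset.mul_sum, (h4 j k hjk).2]
  have i6 : ∀ σ : Fin D.g, Integrable (fun z : E3 => ∑ j ∈ G,
      pe D (fun i => sp (some i)) j (slice D σ z Φ)) :=
    fun σ => integrable_finsetSum _ fun j _ => (h3 j).1 σ
  have i7 : ∀ σ : Fin D.g, Integrable (fun z : E3 => ∑ j ∈ G, ∑ k ∈ G, if j = k then (0 : ℝ) else
      D.charge (sp (some j)) * D.charge (sp (some k)) *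
        wm D (fun x => 1 / ‖x j - x k‖) (slice D σ z Φ)) :=
    fun σ => integrable_finsetSum _ fun j _ => integrable_finsetSum _ fun k _ => i5 j k σ
  refine ⟨fun σ => ((i2 σ).sub (i6 σ)).add ((i7 σ).const_mul (1 / 2)), ?_⟩
  have h8 : ∀ σ : Fin D.g, ∫ z, gsR D (fun i => sp (some i)) G (slice D σ z Φ) =
      (∫ z, energy D (fun i => sp (some i)) (slice D σ z Φ)) -
      (∑ j ∈ G, ∫ z, pe D (fun i => sp (some i)) j (slice D σ z Φ)) +
      1 / 2 * ∑ j ∈ G, ∑ k ∈ G, ∫ z : E3, (if j = k then (0 : ℝ) else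
      D.charge (sp (some j)) * D.charge (sp (some k)) *
        wm D (fun x => 1 / ‖x j - x k‖) (slice D σ z Φ)) := by
    intro σ
    unfold gsR
    refine (gs_int3 (i2 σ) (i6 σ) (i7 σ)).trans ?_
    rw [integral_finsetSum _ fun j _ => (h3 j).1 σ,
      integral_finsetSum _ fun j _ => integrable_finsetSum _ fun k _ => i5 j k σ]
    congr 2
    apply Finset.sum_congr rfl
    intro j _
    rw [integral_finsetSum _ fun k _ => i5 j k σ]
  simp only [h8]
  rw [Finset.sum_add_distrib, Finset.sum_sub_distrib, e2, ← Finset.mul_sum]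
  rw [Finset.sum_comm, Finset.sum_comm (s := Finset.univ) (t := G)]
  have h9 : ∑ j ∈ G, ∑ σ, ∫ z, pe D (fun i => sp (some i)) j (slice D σ z Φ) =
      (∑ j ∈ G, pe D sp (some j) Φ) - ∑ j ∈ G, D.charge (sp none) * D.charge (sp (some j)) *
        wm D (fun x => 1 / ‖x none - x (some j)‖) Φ := by
    rw [← Finset.sum_sub_distrib]
    apply Finset.sum_congr rfl
    intro j _
    rw [(h3 j).2, gs_pair]
  have h10 : ∑ j ∈ G, ∑ σ : Fin D.g, ∑ k ∈ G, ∫ z : E3, (if j = k then (0 : ℝ) else
      D.charge (sp (some j)) * D.charge (sp (some k)) *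
        wm D (fun x => 1 / ‖x j - x k‖) (slice D σ z Φ)) =
      ∑ j ∈ G, ∑ k ∈ G, if j = k then (0 : ℝ) else
        D.charge (sp (some j)) * D.charge (sp (some k)) *
        wm D (fun x => 1 / ‖x (some j) - x (some k)‖) Φ := by
    apply Finset.sum_congr rfl
    intro j _
    rw [Finset.sum_comm]
    apply Finset.sum_congr rfl
    intro k _
    exact e5 j k
  rw [h9, h10]
  unfold gsR
  simp only [Finset.sum_insertNone, if_true, reduceCtorEq, if_false, Option.some_inj, zero_add,
    Finset.sum_add_distrib]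
  have h11 : ∑ j ∈ G, D.charge (sp (some j)) * D.charge (sp none) *
        wm D (fun x => 1 / ‖x (some j) - x none‖) Φ =
      ∑ j ∈ G, D.charge (sp none) * D.charge (sp (some j)) *
        wm D (fun x => 1 / ‖x none - x (some j)‖) Φ := by
    apply Finset.sum_congr rfl
    intro j _
    have h12 : (fun x : Option I → E3 => 1 / ‖x (some j) - x none‖) =
        fun x => 1 / ‖x none - x (some j)‖ := by
      funext x
      rw [norm_sub_rev]
    rw [mul_comm (D.charge (sp (some j))), h12]
  rw [h11]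
  ring

/-- counts over an option type -/
theorem gs_cnt_option {S : Type} [DecidableEq S] {J : Type} [Fintype J] [DecidableEq J]
    (sp : Option J → S) (s : S) :
    cnt sp s = cnt (fun j => sp (some j)) s + (if s = sp none then 1 else 0) := by
  unfold cnt
  rw [Finset.card_filter, Finset.card_filter, Fintype.sum_option, add_comm]
  congr 1
  by_cases h : s = sp none
  · simp [h]
  · have h' : ¬ sp none = s := fun hh => h hh.symm
    simp [h, h']

theorem gs_main {S : Type} [DecidableEq S] (D : Species S) {J : Type} [Fintype J] [DecidableEq J]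
    (sp' : J → S) (ℓ : ℝ) (E : ℝ)
    (hE : ∀ Φ : Wave D J, IsState D sp' ℓ Φ → E * nrm2 D Φ ≤ energy D sp' Φ) (n : ℕ) :
    ∀ {I : Type} [Fintype I] [DecidableEq I] (sp : I → S) (G : Finset I), G.card = n →
    (∀ s, cnt sp s = cnt sp' s + (G.filter (fun i => sp i = s)).card) →
    ∀ (Ψ : Wave D I), IsState D sp ℓ Ψ → E * nrm2 D Ψ ≤ gsR D sp G Ψ := by
  induction n with
  | zero =>
    intro I _ _ sp G hG hcnt Ψ hΨ
    rw [Finset.card_eq_zero] at hG
    subst hG
    have hc : ∀ s, cnt sp s = cnt sp' s := by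
      intro s
      rw [hcnt s]
      simp
    obtain ⟨e, he⟩ := exists_equiv sp sp' hc
    obtain ⟨hn, hen, -, -⟩ := relabel_num D e sp sp' he Ψ
    have key := hE (relab D e Ψ) (relabel_state D e sp sp' he ℓ Ψ hΨ)
    rw [hn, hen] at key
    unfold gsR
    simpa using key
  | succ n ih =>
    intro I _ _ sp G hG hcnt Ψ hΨ
    have hne : G.Nonempty := by
      rw [← Finset.card_pos, hG]
      exact Nat.succ_pos n
    obtain ⟨i, hi⟩ := hne
    let e : I ≃ Option {b // b ≠ i} := (Equiv.optionSubtypeNe i).symm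
    let sp2 : Option {b // b ≠ i} → S := fun o => sp (e.symm o)
    have he : ∀ k, sp2 (e k) = sp k := by
      intro k
      change sp (e.symm (e k)) = sp k
      rw [Equiv.symm_apply_apply]
    have hei : e i = none := by
      change (Equiv.optionSubtypeNe i).symm i = none
      simp
    let G' : Finset {b // b ≠ i} := Finset.eraseNone (G.map e.toEmbedding)
    have hmem : none ∈ G.map e.toEmbedding := by
      rw [Finset.mem_map]
      exact ⟨i, hi, hei⟩
    have hG' : Finset.insertNone G' = G.map e.toEmbedding := by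
      change Finset.insertNone (Finset.eraseNone (G.map e.toEmbedding)) = _
      rw [Finset.insertNone_eraseNone, Finset.insert_eq_of_mem hmem]
    have hcard : G'.card = n := by
      have h1 : (Finset.insertNone G').card = G'.card + 1 := Finset.card_insertNone G'
      rw [hG', Finset.card_map, hG] at h1
      omega
    have hcnt' : ∀ s, cnt (fun k => sp2 (some k)) s = cnt sp' s +
        (G'.filter (fun k => sp2 (some k) = s)).card := by
      intro s
      have h1 : cnt sp s = cnt sp2 s := by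
        unfold cnt
        rw [Finset.card_filter, Finset.card_filter, ← Equiv.sum_comp e]
        simp only [he]
      have h2 := gs_cnt_option sp2 s
      have h3 : (G.filter (fun i => sp i = s)).card =
          (if sp2 none = s then 1 else 0) + (G'.filter (fun k => sp2 (some k) = s)).card := by
        rw [Finset.card_filter, Finset.card_filter,
          ← Finset.sum_insertNone (fun x => if sp2 x = s then 1 else 0) G', hG', Finset.sum_map]
        simp only [Equiv.coe_toEmbedding, he]
      have h4 := hcnt s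
      rw [h1, h2, h3] at h4
      by_cases hs : s = sp2 none
      · rw [if_pos hs, if_pos hs.symm] at h4
        omega
      · rw [if_neg hs, if_neg (fun h => hs h.symm)] at h4
        omega
    have hΦ := relabel_state D e sp sp2 he ℓ Ψ hΨ
    obtain ⟨⟨i1, e1⟩, -⟩ := slice_basic D sp2 ℓ (relab D e Ψ) hΦ
    obtain ⟨i2, e2⟩ := gs_slice D sp2 ℓ (relab D e Ψ) hΦ G'
    obtain ⟨hn, -, -, -⟩ := relabel_num D e sp sp2 he Ψ
    rw [← gs_relabel D e sp sp2 he G Ψ, ← hG', ← e2, ← hn, ← e1, Finset.mul_sum]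
    apply Finset.sum_le_sum
    intro σ _
    rw [← integral_const_mul]
    apply integral_mono ((i1 σ).const_mul E) (i2 σ)
    intro z
    exact ih (fun k => sp2 (some k)) G' hcard hcnt' _ (slice_state D sp2 ℓ _ hΦ σ z)

/-- TARGET -/
theorem group_slice {S : Type} [DecidableEq S] (D : Species S) {I J : Type} [Fintype I]
    [DecidableEq I] [Fintype J] [DecidableEq J] (sp : I → S) (sp' : J → S) (G : Finset I)
    (hcnt : ∀ s, cnt sp s = cnt sp' s + (G.filter (fun i => sp i = s)).card)
    (ℓ : ℝ) (E : ℝ) (hE : ∀ Φ : Wave D J, IsState D sp' ℓ Φ → E * nrm2 D Φ ≤ energy D sp' Φ)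
    (Ψ : Wave D I) (hΨ : IsState D sp ℓ Ψ) :
    E * nrm2 D Ψ ≤ energy D sp Ψ - (∑ i ∈ G, pe D sp i Ψ) +
      1 / 2 * ∑ i ∈ G, ∑ j ∈ G, (if i = j then 0 else
        D.charge (sp i) * D.charge (sp j) * wm D (fun x => 1 / ‖x i - x j‖) Ψ) :=
  gs_main D sp' ℓ E hE G.card sp G rfl hcnt Ψ hΨ

end Pool.Agent.Helper780_CP.RGR1
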