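import Pool.Agent.Helper780_CP.LLDefs2
import Pool.Agent.Helper780_CP.RDIL
import Pool.Agent.Helper780_CP.RGR1
import Pool.Agent.H5R2.NL.Cut
import Pool.Agent.Helper985.CT.M_pe_symm

set_option autoImplicit false

open MeasureTheory
open scoped Topology ENNReal

namespace Pool.Agent.Helper780_CP.RGR2

open Pool.Agent.Helper780_CP
open Pool.Agent.Helper985.CP
open Pool.Agent.Helper780_CP.RDIL (kin_bound)
open Pool.Agent.Helper780_CP.RGR1 (group_slice)

open Pool.Agent.Helper985.CP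

theorem gr_upd {I : Type} [Fintype I] [DecidableEq I] (u : (I → E3) → ℂ) (hu : ContDiff ℝ SM u)
    (i : I) (x : I → E3) (z v : E3) :
    fderiv ℝ (fun z => u (Function.update x i z)) z v =
      fderiv ℝ u (Function.update x i z) (Pi.single i v) := by
  have h1 := hasFDerivAt_update (𝕜 := ℝ) x (i := i) z
  have h2 : HasFDerivAt u (fderiv ℝ u (Function.update x i z)) (Function.update x i z) :=
    (hu.differentiable (by simp [SM]) _).hasFDerivAt
  have h3 : HasFDerivAt (fun z => u (Function.update x i z)) _ z := h2.comp z h1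
  rw [h3.fderiv, ContinuousLinearMap.comp_apply]
  congr 1
  funext j
  by_cases hj : j = i
  · subst hj
    simp
  · simp [hj]

/-- square of the gradient in the variable `i` -/
noncomputable def gr_d {I : Type} [Fintype I] [DecidableEq I] (u : (I → E3) → ℂ) (i : I)
    (x : I → E3) : ℝ :=
  ∑ k : Fin 3, ‖fderiv ℝ u x (Pi.single i (EuclideanSpace.single k (1 : ℝ)))‖ ^ 2

theorem gr_d_nn {I : Type} [Fintype I] [DecidableEq I] (u : (I → E3) → ℂ) (i : I)
    (x : I → E3) : 0 ≤ gr_d u i x := by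
  unfold gr_d
  positivity

theorem gr_d_cont {I : Type} [Fintype I] [DecidableEq I] (u : (I → E3) → ℂ)
    (hu : ContDiff ℝ SM u) (i : I) : Continuous (gr_d u i) := by
  have h : Continuous (fderiv ℝ u) := hu.continuous_fderiv (by simp [SM])
  exact continuous_finsetSum _ fun k _ => ((h.clm_apply continuous_const).norm).pow 2

theorem gr_d_cs {I : Type} [Fintype I] [DecidableEq I] (u : (I → E3) → ℂ)
    (huc : HasCompactSupport u) (i : I) : HasCompactSupport (gr_d u i) := by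
  have h3 : gr_d u i = (fun A : (I → E3) →L[ℝ] ℂ =>
        ∑ k : Fin 3, ‖A (Pi.single i (EuclideanSpace.single k (1 : ℝ)))‖ ^ 2) ∘ fderiv ℝ u := rfl
  rw [h3]
  exact (huc.fderiv ℝ).comp_left (by simp)

theorem gr_hardy1 {I : Type} [Fintype I] [DecidableEq I] (u : (I → E3) → ℂ)
    (hu : ContDiff ℝ SM u) (huc : HasCompactSupport u) (i : I) (y : E3) (x : I → E3) :
    ∫⁻ z, ENNReal.ofReal (‖z - y‖⁻¹ ^ 2 * ‖u (Function.update x i z)‖ ^ 2) ≤
      ∫⁻ z, ENNReal.ofReal (4 * gr_d u i (Function.update x i z)) := by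
  obtain ⟨U, hU⟩ : ∃ U : E3 → ℂ, U = fun z => u (Function.update x i z) := ⟨_, rfl⟩
  have hUs : ContDiff ℝ 1 U := by
    rw [hU]
    exact (hu.of_le (by simp [SM])).comp (contDiff_update 1 x i)
  have hUc : HasCompactSupport U := by
    have hK : IsCompact ((fun w : I → E3 => w i) '' (tsupport u)) :=
      IsCompact.image huc (continuous_apply i)
    apply HasCompactSupport.intro hK
    intro z hz
    by_contra hne
    apply hz
    refine ⟨Function.update x i z, subset_tsupport _ ?_, by simp⟩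
    rw [hU] at hne
    exact hne
  have hG' : ∀ z, Pool.Agent.H5R2.NL.gsq U z = gr_d u i (Function.update x i z) := by
    intro z
    unfold Pool.Agent.H5R2.NL.gsq gr_d
    refine Finset.sum_congr rfl fun k _ => ?_
    rw [hU, gr_upd u hu i x z]
  obtain ⟨h1, h2⟩ := Pool.Agent.H5R2.NL.hardy y U hUs hUc
  have hG : Integrable (fun z => 4 * Pool.Agent.H5R2.NL.gsq U z) := by
    refine Integrable.const_mul ?_ 4
    refine (Pool.Agent.H5R2.NL.pba_continuous_gsq hUs).integrable_of_hasCompactSupport ?_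
    have h3 : Pool.Agent.H5R2.NL.gsq U = (fun A : E3 →L[ℝ] ℂ =>
        ∑ c : Fin 3, ‖A (EuclideanSpace.single c (1 : ℝ))‖ ^ 2) ∘ fderiv ℝ U := rfl
    rw [h3]
    exact (hUc.fderiv ℝ).comp_left (by simp)
  have e1 : ∫⁻ z, ENNReal.ofReal (‖z - y‖⁻¹ ^ 2 *
      ‖u (Function.update x i z)‖ ^ 2) = ENNReal.ofReal (∫ z, ‖U z‖ ^ 2 / ‖z - y‖ ^ 2) := by
    rw [ofReal_integral_eq_lintegral_ofReal h1 (Filter.Eventually.of_forall fun z => by positivity)]
    refine lintegral_congr fun z => ?_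
    congr 1
    rw [hU]
    simp only
    rw [inv_pow, div_eq_mul_inv]
    ring
  have e2 : ENNReal.ofReal (∫ z, 4 * Pool.Agent.H5R2.NL.gsq U z) =
      ∫⁻ z, ENNReal.ofReal (4 * Pool.Agent.H5R2.NL.gsq U z) :=
    ofReal_integral_eq_lintegral_ofReal hG (Filter.Eventually.of_forall fun z =>
      mul_nonneg (by norm_num) (Pool.Agent.H5R2.NL.pba_gsq_nonneg U z))
  rw [e1]
  calc ENNReal.ofReal (∫ z, ‖U z‖ ^ 2 / ‖z - y‖ ^ 2)
      ≤ ENNReal.ofReal (∫ z, 4 * Pool.Agent.H5R2.NL.gsq U z) := by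
        refine ENNReal.ofReal_le_ofReal ?_
        rw [integral_const_mul]
        exact h2
    _ = ∫⁻ z, ENNReal.ofReal (4 * Pool.Agent.H5R2.NL.gsq U z) := e2
    _ = _ := by
        refine lintegral_congr fun z => ?_
        rw [hG']

/-- Hardy's inequality for a pair of particles -/
theorem gr_hardy2 {I : Type} [Fintype I] [DecidableEq I] (u : (I → E3) → ℂ)
    (hu : ContDiff ℝ SM u) (huc : HasCompactSupport u) (i j : I) (hij : j ≠ i) :
    Integrable (fun x : I → E3 => ‖x i - x j‖⁻¹ ^ 2 * ‖u x‖ ^ 2) ∧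
    ∫ x : I → E3, ‖x i - x j‖⁻¹ ^ 2 * ‖u x‖ ^ 2 ≤ 4 * ∫ x : I → E3, gr_d u i x := by
  have hfm : Measurable (fun x : I → E3 => ‖x i - x j‖⁻¹ ^ 2 * ‖u x‖ ^ 2) := by
    have h2 : Measurable (fun x : I → E3 => ‖x i - x j‖⁻¹) := by fun_prop
    exact (h2.pow_const 2).mul (hu.continuous.measurable.norm.pow_const 2)
  have hgc := gr_d_cont u hu i
  have hgi : Integrable (fun x => 4 * gr_d u i x) :=
    (hgc.integrable_of_hasCompactSupport (gr_d_cs u huc i)).const_mul 4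
  have hgm : Measurable (fun x => 4 * gr_d u i x) := (hgc.measurable).const_mul 4
  have hl : ∫⁻ x : I → E3, ENNReal.ofReal (‖x i - x j‖⁻¹ ^ 2 * ‖u x‖ ^ 2) ≤
      ∫⁻ x : I → E3, ENNReal.ofReal (4 * gr_d u i x) := by
    refine lintegral_le_of_lmarginal_le (μ := fun _ : I => (volume : Measure E3)) {i}
      hfm.ennreal_ofReal hgm.ennreal_ofReal ?_
    rw [lmarginal_singleton, lmarginal_singleton]
    intro x
    have h := gr_hardy1 u hu huc i (x j) x
    simpa only [Function.update_self, Function.update_of_ne hij] using h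
  have hgn : 0 ≤ᵐ[volume] (fun x => 4 * gr_d u i x) :=
    Filter.Eventually.of_forall fun x => mul_nonneg (by norm_num) (gr_d_nn u i x)
  have hfin : ∫⁻ x : I → E3, ENNReal.ofReal (4 * gr_d u i x) ≠ ⊤ := by
    have := hgi.lintegral_lt_top
    exact this.ne
  have hfn : 0 ≤ᵐ[volume] (fun x : I → E3 => ‖x i - x j‖⁻¹ ^ 2 * ‖u x‖ ^ 2) :=
    Filter.Eventually.of_forall fun x => by positivity
  refine ⟨?_, ?_⟩
  · refine ⟨hfm.aestronglyMeasurable, ?_⟩
    rw [hasFiniteIntegral_iff_ofReal hfn]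
    exact lt_of_le_of_lt hl (lt_top_iff_ne_top.2 hfin)
  · rw [← integral_const_mul, integral_eq_lintegral_of_nonneg_ae hfn
      hfm.aestronglyMeasurable, integral_eq_lintegral_of_nonneg_ae hgn hgm.aestronglyMeasurable]
    exact ENNReal.toReal_mono hfin hl

/-- mean inverse distance of a pair -/
theorem gr_pair {S : Type} (D : Species S) (hD : D.Valid) {I : Type} [Fintype I] [DecidableEq I]
    (sp : I → S) (ℓ : ℝ) (Ψ : Wave D I) (hΨ : IsState D sp ℓ Ψ) (i j : I) (hij : j ≠ i) :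
    0 ≤ wm D (fun x => 1 / ‖x i - x j‖) Ψ ∧
    wm D (fun x => 1 / ‖x i - x j‖) Ψ ≤ nrm2 D Ψ + 8 * D.mass (sp i) * kinE D sp i Ψ := by
  refine ⟨?_, ?_⟩
  · unfold wm
    exact Finset.sum_nonneg fun τ _ => integral_nonneg fun x => by positivity
  · unfold wm nrm2 kinE
    rw [Finset.mul_sum, ← Finset.sum_add_distrib]
    refine Finset.sum_le_sum fun τ _ => ?_
    obtain ⟨h1, h2⟩ := gr_hardy2 (Ψ τ) (hΨ.smooth τ) (hΨ.compact τ) i j hij
    have hN : Integrable (fun x => ‖Ψ τ x‖ ^ 2) := (int_state D sp ℓ Ψ hΨ τ).1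
    have h3 : ∫ x, 1 / ‖x i - x j‖ * ‖Ψ τ x‖ ^ 2 ≤
        ∫ x, (‖Ψ τ x‖ ^ 2 + ‖x i - x j‖⁻¹ ^ 2 * ‖Ψ τ x‖ ^ 2) := by
      refine integral_mono_of_nonneg (Filter.Eventually.of_forall fun x => by positivity)
        (hN.add h1) (Filter.Eventually.of_forall fun x => ?_)
      have h4 : 1 / ‖x i - x j‖ ≤ 1 + ‖x i - x j‖⁻¹ ^ 2 := by
        rw [one_div]
        nlinarith [sq_nonneg (‖x i - x j‖⁻¹ - 1), sq_nonneg (‖x i - x j‖⁻¹)]
      have h5 := mul_le_mul_of_nonneg_right h4 (sq_nonneg ‖Ψ τ x‖)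
      show 1 / ‖x i - x j‖ * ‖Ψ τ x‖ ^ 2 ≤ ‖Ψ τ x‖ ^ 2 + ‖x i - x j‖⁻¹ ^ 2 * ‖Ψ τ x‖ ^ 2
      linarith
    rw [integral_add hN h1] at h3
    have e1 : 4 * ∫ x, gr_d (Ψ τ) i x = 8 * D.mass (sp i) * ∫ x, kin D sp i (Ψ τ) x := by
      have hm := hD.mass_pos (sp i)
      have : ∀ x, kin D sp i (Ψ τ) x = (1 / (2 * D.mass (sp i))) * gr_d (Ψ τ) i x := by
        intro x
        rfl
      simp only [this]
      rw [integral_const_mul]
      field_simp
      ring
    linarith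

/-- a point far from the particles -/
theorem gr_center {S : Type} (D : Species S) {I : Type} [Fintype I] [DecidableEq I] (sp : I → S)
    (ℓ ρ : ℝ) (hℓ : 4 ≤ ℓ) (hρ : 0 ≤ ρ) (hN : (Fintype.card I : ℝ) ≤ ρ * ℓ ^ 3) (Ψ : Wave D I)
    (hΨ : IsState D sp ℓ Ψ) (hn : nrm2 D Ψ = 1) :
    ∃ y : E3, Metric.closedBall y (1 / 2) ⊆ cube ℓ ∧
      wm D (near2 y) Ψ ≤ 4 * (1 + (∫ z, kk z) * ρ) := by
  have hℓ0 : 0 < ℓ := by linarith
  have hk0 : 0 ≤ ∫ z, kk z := integral_nonneg kk_nonneg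
  obtain ⟨K, hK⟩ : ∃ K : ℝ, K = 4 * (1 + (∫ z, kk z) * ρ) := ⟨_, rfl⟩
  have hK0 : 0 < K := by rw [hK]; positivity
  obtain ⟨T, hT⟩ : ∃ T : Set E3, T = {y : E3 | ∀ k, 1 / 2 < y k ∧ y k < ℓ - 1 / 2} := ⟨_, rfl⟩
  have hTball : ∀ y ∈ T, Metric.closedBall y (1 / 2) ⊆ cube ℓ := by
    intro y hy z hz k
    rw [hT] at hy
    have h1 := hy k
    have h2 : |z k - y k| ≤ 1 / 2 := by
      have h3 : ‖(z - y) k‖ ≤ ‖z - y‖ := PiLp.norm_apply_le (z - y) k
      rw [Metric.mem_closedBall, dist_eq_norm] at hz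
      have h4 : (z - y) k = z k - y k := rfl
      rw [h4, Real.norm_eq_abs] at h3
      linarith
    rw [abs_le] at h2
    constructor <;> linarith [h2.1, h2.2, h1.1, h1.2]
  have hTcube : ∀ y ∈ T, y ∈ cube ℓ := fun y hy =>
    hTball y hy (Metric.mem_closedBall_self (by norm_num))
  have hTvol : volume T = ENNReal.ofReal ((ℓ - 1) ^ 3) := by
    rw [← rb_ip_XX_vol (ℓ - 1) (by linarith),
      ← measure_preimage_add_right volume (dv (-(1 / 2))) (cube (ℓ - 1))]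
    congr 1
    ext y
    rw [hT]
    have hk : ∀ k, (y + dv (-(1 / 2))) k = y k - 1 / 2 := by
      intro k
      show y k + (-(1 / 2)) = y k - 1 / 2
      ring
    constructor
    · intro h k
      rw [hk k]
      have := h k
      constructor <;> linarith [this.1, this.2]
    · intro h k
      have h2 := h k
      rw [hk k] at h2
      constructor <;> linarith [h2.1, h2.2]
  by_contra hcon
  push Not at hcon
  rw [← hK] at hcon
  have hsub : T ⊆ {y : E3 | y ∈ cube ℓ ∧ K ≤ wm D (near2 y) Ψ} := by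
    intro y hy
    exact ⟨hTcube y hy, (hcon y (hTball y hy)).le⟩
  have h1 := (measure_mono hsub).trans (cost_markov D sp ℓ hℓ0 Ψ hΨ K hK0)
  rw [hTvol, hn, mul_one] at h1
  have h2 : (ℓ - 1) ^ 3 ≤ (ℓ ^ 3 + (∫ z, kk z) * (Fintype.card I : ℝ)) / K := by
    have h3 : 0 ≤ (ℓ ^ 3 + (∫ z, kk z) * (Fintype.card I : ℝ)) / K := by positivity
    exact (ENNReal.ofReal_le_ofReal_iff h3).1 h1
  rw [le_div_iff₀ hK0, hK] at h2
  have h3 : (∫ z, kk z) * (Fintype.card I : ℝ) ≤ (∫ z, kk z) * (ρ * ℓ ^ 3) :=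
    mul_le_mul_of_nonneg_left hN hk0
  have h4 : (3 / 4 * ℓ) ^ 3 ≤ (ℓ - 1) ^ 3 := pow_le_pow_left₀ (by linarith) (by linarith) 3
  have h5 : 0 < 1 + (∫ z, kk z) * ρ := by positivity
  have h6 : (ℓ - 1) ^ 3 * (4 * (1 + (∫ z, kk z) * ρ)) ≤ (1 + (∫ z, kk z) * ρ) * ℓ ^ 3 := by
    linarith
  have h7 : 4 * (ℓ - 1) ^ 3 ≤ ℓ ^ 3 := by
    have : (4 * (ℓ - 1) ^ 3) * (1 + (∫ z, kk z) * ρ) ≤ ℓ ^ 3 * (1 + (∫ z, kk z) * ρ) := by
      linarith
    exact le_of_mul_le_mul_right this h5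
  have h8 : 0 < ℓ ^ 3 := by positivity
  nlinarith

/-- abstract averaging step, abundant species -/
theorem gr_core {S : Type} [DecidableEq S] {I : Type} [Fintype I]
    [DecidableEq I] (sp : I → S) (i0 : I) (κ : ℝ) (hκ : 0 ≤ κ)
    (hi0 : (Fintype.card I : ℝ) ≤ κ * (cnt sp (sp i0) : ℝ)) (c : S → ℝ)
    (hneu : ∑ i, c (sp i) = 0) (q : I → ℝ) (hq : ∀ i, sp i = sp i0 → q i = q i0) (Φ K A : ℝ)
    (hqs : -A * (Fintype.card I : ℝ) ≤ ∑ i, q i) (h : ∀ i, q i ≤ c (sp i) * Φ + K)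
    (hK : 0 ≤ K) (hKA : 0 ≤ K + A) :
    |c (sp i0) * Φ - q i0| ≤ K + κ * (K + A) := by
  have hcnt : (0 : ℝ) < (cnt sp (sp i0) : ℝ) := by
    have : 0 < cnt sp (sp i0) := by
      unfold cnt
      exact Finset.card_pos.2 ⟨i0, by simp⟩
    exact_mod_cast this
  have h0 := h i0
  have hsum : ∑ i, (c (sp i) * Φ + K - q i) ≤ (K + A) * (Fintype.card I : ℝ) := by
    rw [Finset.sum_sub_distrib, Finset.sum_add_distrib, ← Finset.sum_mul, hneu,
      Finset.sum_const, Finset.card_univ, nsmul_eq_mul]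
    linarith
  have hpart : (cnt sp (sp i0) : ℝ) * (c (sp i0) * Φ + K - q i0) ≤
      ∑ i, (c (sp i) * Φ + K - q i) := by
    have h1 : (cnt sp (sp i0) : ℝ) * (c (sp i0) * Φ + K - q i0) =
        ∑ i ∈ Finset.univ.filter (fun i => sp i = sp i0), (c (sp i) * Φ + K - q i) := by
      unfold cnt
      rw [← nsmul_eq_mul, ← Finset.sum_const]
      refine Finset.sum_congr rfl fun i hi => ?_
      rw [Finset.mem_filter] at hi
      rw [hi.2, hq i hi.2]
    rw [h1]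
    refine Finset.sum_le_sum_of_subset_of_nonneg (Finset.filter_subset _ _) fun i _ _ => ?_
    have := h i
    linarith
  have hS : c (sp i0) * Φ + K - q i0 ≤ κ * (K + A) := by
    have h2 : (cnt sp (sp i0) : ℝ) * (c (sp i0) * Φ + K - q i0) ≤
        (cnt sp (sp i0) : ℝ) * (κ * (K + A)) := by
      refine hpart.trans (hsum.trans ?_)
      calc (K + A) * (Fintype.card I : ℝ) ≤ (K + A) * (κ *
            (cnt sp (sp i0) : ℝ)) := mul_le_mul_of_nonneg_left hi0 hKA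
        _ = (cnt sp (sp i0) : ℝ) * (κ * (K + A)) := by ring
    exact le_of_mul_le_mul_left h2 hcnt
  have hnn : 0 ≤ κ * (K + A) := mul_nonneg hκ hKA
  have hK0 : q i0 - c (sp i0) * Φ ≤ K := by linarith
  rw [abs_le]
  constructor
  · linarith
  · linarith

/-- kinetic energy of a particle of an abundant species -/
theorem gr_kin {S : Type} [DecidableEq S] (D : Species S) (hD : D.Valid) {I : Type} [Fintype I]
    [DecidableEq I] (sp : I → S) (ℓ c C : ℝ) (hc : 0 < c) (hC : 0 < C) (Ψ : Wave D I)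
    (hΨ : IsState D sp ℓ Ψ)
    (hkin : (∑ τ, ∫ x, ∑ i, kin D sp i (Ψ τ) x) ≤ C * (1 + (Fintype.card I : ℝ))) (i : I)
    (hi : c * (Fintype.card I : ℝ) ≤ cnt sp (sp i)) :
    0 ≤ kinE D sp i Ψ ∧ kinE D sp i Ψ ≤ 2 * C / c := by
  have hk0 : ∀ j, 0 ≤ kinE D sp j Ψ := by
    intro j
    unfold kinE kin
    have := hD.mass_pos (sp j)
    exact Finset.sum_nonneg fun τ _ => integral_nonneg fun x => by positivity
  refine ⟨hk0 i, ?_⟩
  have e1 : (∑ τ, ∫ x, ∑ i, kin D sp i (Ψ τ) x) = ∑ j, kinE D sp j Ψ := by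
    unfold kinE
    rw [Finset.sum_comm]
    refine Finset.sum_congr rfl fun τ _ => ?_
    exact integral_finsetSum _ fun j _ => (int_state D sp ℓ Ψ hΨ τ).2.1 j
  rw [e1] at hkin
  have h1 : (cnt sp (sp i) : ℝ) * kinE D sp i Ψ ≤ ∑ j, kinE D sp j Ψ := by
    have h2 : (cnt sp (sp i) : ℝ) * kinE D sp i Ψ =
        ∑ j ∈ Finset.univ.filter (fun j => sp j = sp i), kinE D sp j Ψ := by
      unfold cnt
      rw [← nsmul_eq_mul, ← Finset.sum_const]
      refine Finset.sum_congr rfl fun j hj => ?_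
      rw [Finset.mem_filter] at hj
      exact ((pe_symm D sp ℓ Ψ hΨ j i hj.2).2).symm
    rw [h2]
    exact Finset.sum_le_sum_of_subset_of_nonneg (Finset.filter_subset _ _) fun j _ _ => hk0 j
  have hN : (1 : ℝ) ≤ Fintype.card I := by
    have : 0 < Fintype.card I := Fintype.card_pos_iff.2 ⟨i⟩
    exact_mod_cast this
  have h3 : c * (Fintype.card I : ℝ) * kinE D sp i Ψ ≤ C * (1 + (Fintype.card I : ℝ)) :=
    (mul_le_mul_of_nonneg_right hi (hk0 i)).trans (h1.trans hkin)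
  have h4 : C * (1 + (Fintype.card I : ℝ)) ≤ 2 * C * (Fintype.card I : ℝ) := by nlinarith
  rw [le_div_iff₀ hc]
  have h5 : (kinE D sp i Ψ * c) * (Fintype.card I : ℝ) ≤ (2 * C) * (Fintype.card I : ℝ) := by
    linarith
  exact le_of_mul_le_mul_right h5 (by linarith)

/-- scaling of a state -/
theorem gr_scale {S : Type} (D : Species S) {I : Type} [Fintype I] [DecidableEq I] (sp : I → S)
    (ℓ : ℝ) (Φ : Wave D I) (hΦ : IsState D sp ℓ Φ) (t : ℝ) :
    IsState D sp ℓ (mulW D (fun _ => t) Φ) ∧ nrm2 D (mulW D (fun _ => t) Φ) = t ^ 2 * nrm2 D Φ ∧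
      energy D sp (mulW D (fun _ => t) Φ) = t ^ 2 * energy D sp Φ := by
  refine ⟨mulW_state D sp ℓ Φ hΦ _ contDiff_const (fun _ _ _ => rfl), ?_, ?_⟩
  · unfold nrm2
    rw [Finset.mul_sum]
    refine Finset.sum_congr rfl fun τ _ => ?_
    rw [← integral_const_mul]
    refine integral_congr_ae (Filter.Eventually.of_forall fun x => ?_)
    exact mulW_norm D _ Φ τ x
  · unfold energy
    rw [Finset.mul_sum]
    refine Finset.sum_congr rfl fun τ _ => ?_
    rw [← integral_const_mul]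
    refine integral_congr_ae (Filter.Eventually.of_forall fun x => ?_)
    simp only
    rw [mulW_norm D (fun _ => t) Φ τ x]
    have hk : ∀ i, kin D sp i (mulW D (fun _ => t) Φ τ) x = t ^ 2 * kin D sp i (Φ τ) x := by
      intro i
      unfold kin
      have h1 : ∀ v : I → E3, fderiv ℝ (mulW D (fun _ => t) Φ τ) x v =
          (t : ℂ) * fderiv ℝ (Φ τ) x v := by
        intro v
        have h2 : mulW D (fun _ => t) Φ τ = fun x => (t : ℂ) * Φ τ x := rfl
        rw [h2, fderiv_const_mul ((hΦ.smooth τ).differentiable (by simp [SM]) x)]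
        rfl
      simp only [h1, norm_mul, mul_pow, Complex.norm_real, Real.norm_eq_abs, sq_abs]
      rw [← Finset.mul_sum]
      ring
    simp only [hk]
    rw [← Finset.mul_sum]
    ring

/-- TARGET -/
theorem group_removal {S : Type} [Fintype S] [DecidableEq S] (D : Species S) (hD : D.Valid)
    (hst : HStable D) (hf : ∀ s, D.charge s < 0 → D.fermion s = true) (ρ c : ℝ) (hρ : 0 ≤ ρ)
    (hc : 0 < c) (sP sN : S) (p q : ℕ) (hp : 0 < p) (hq : 0 < q) (hcP : D.charge sP = p)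
    (hcN : D.charge sN = -(q : ℝ)) : ∃ C : ℝ, 0 < C ∧
    ∀ {I J : Type} [Fintype I] [DecidableEq I] [Fintype J] [DecidableEq J] (sp : I → S)
      (sp' : J → S) (ℓ : ℝ), 4 ≤ ℓ → (Fintype.card I : ℝ) ≤ ρ * ℓ ^ 3 →
      (∑ i, D.charge (sp i) = 0) → c * (Fintype.card I : ℝ) ≤ cnt sp sP →
      c * (Fintype.card I : ℝ) ≤ cnt sp sN →
      (∀ s, cnt sp s = cnt sp' s + (if s = sP then q else 0) + (if s = sN then p else 0)) →
      sInf (energies D sp' ℓ) ≤ sInf (energies D sp ℓ) + C := by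
  obtain ⟨C1, hC1, hkb⟩ := kin_bound D hD hf ρ hρ
  obtain ⟨C2, hC2, H⟩ := move0 D hD (1 / 2) (by norm_num)
  obtain ⟨A, hA⟩ := id hst
  have hAA : ∀ {J : Type} [Fintype J] [DecidableEq J] (sp' : J → S) (ℓ : ℝ), 0 < ℓ →
      ∀ (Ψ : Wave D J), IsState D sp' ℓ Ψ →
      -|A| * (Fintype.card J : ℝ) * nrm2 D Ψ ≤ energy D sp' Ψ := by
    intro J _ _ sp' ℓ hℓ Ψ hΨ
    refine le_trans ?_ (stable_any D A hA sp' ℓ hℓ Ψ hΨ)
    have := nrm2_nn D Ψ
    have h2 := le_abs_self A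
    have h3 : (0 : ℝ) ≤ (Fintype.card J : ℝ) * nrm2 D Ψ := by positivity
    nlinarith
  have hPN : sP ≠ sN := by
    intro h
    rw [h, hcN] at hcP
    have h1 : (0 : ℝ) < p := by exact_mod_cast hp
    have h2 : (0 : ℝ) < q := by exact_mod_cast hq
    linarith
  obtain ⟨m, hm0, hm⟩ : ∃ m : ℝ, 0 < m ∧ ∀ s, D.mass s ≤ m := by
    refine ⟨1 + ∑ s, D.mass s, ?_, fun s => ?_⟩
    · have : 0 ≤ ∑ s, D.mass s := Finset.sum_nonneg fun s _ => (hD.mass_pos s).le
      linarith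
    · have := Finset.single_le_sum (f := D.mass) (fun t _ => (hD.mass_pos t).le)
        (Finset.mem_univ s)
      linarith
  have hk0 : 0 ≤ ∫ z, kk z := integral_nonneg kk_nonneg
  -- constants
  obtain ⟨W0, hW0⟩ : ∃ W0 : ℝ, W0 = 4 * (1 + (∫ z, kk z) * ρ) := ⟨_, rfl⟩
  have hW00 : 0 < W0 := by rw [hW0]; positivity
  obtain ⟨K, hK⟩ : ∃ K : ℝ, K = 1 + C2 * (1 + W0) := ⟨_, rfl⟩
  have hK0 : 0 < K := by rw [hK]; positivity
  obtain ⟨C', hC'⟩ : ∃ C' : ℝ, C' = K + c⁻¹ * (K + 4 * |A|) := ⟨_, rfl⟩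
  have hC'0 : 0 < C' := by rw [hC']; positivity
  obtain ⟨W, hW⟩ : ∃ W : ℝ, W = 1 + 8 * m * (2 * C1 / c) := ⟨_, rfl⟩
  have hWp : 0 < W := by rw [hW]; positivity
  have hpR : (0 : ℝ) < p := by exact_mod_cast hp
  have hqR : (0 : ℝ) < q := by exact_mod_cast hq
  refine ⟨1 + ((p : ℝ) + q) * C' + 1 / 2 * (((p : ℝ) + q) ^ 2 * (((p : ℝ) + q) ^ 2 * W)),
    by positivity, ?_⟩
  intro I J _ _ _ _ sp sp' ℓ hℓ hN hneu haP haN hcnt
  have hℓ0 : 0 < ℓ := by linarith
  -- the group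
  have hqle : q ≤ (Finset.univ.filter (fun i => sp i = sP)).card := by
    have h1 := hcnt sP
    rw [if_pos rfl] at h1
    unfold cnt at h1
    omega
  have hple : p ≤ (Finset.univ.filter (fun i => sp i = sN)).card := by
    have h1 := hcnt sN
    rw [if_pos rfl] at h1
    unfold cnt at h1
    omega
  obtain ⟨G1, hG1, hG1c⟩ := Finset.exists_subset_card_eq hqle
  obtain ⟨G2, hG2, hG2c⟩ := Finset.exists_subset_card_eq hple
  have hs1 : ∀ i ∈ G1, sp i = sP := fun i hi => (Finset.mem_filter.1 (hG1 hi)).2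
  have hs2 : ∀ i ∈ G2, sp i = sN := fun i hi => (Finset.mem_filter.1 (hG2 hi)).2
  have hdisj : Disjoint G1 G2 := by
    rw [Finset.disjoint_left]
    intro i h1 h2
    exact hPN ((hs1 i h1).symm.trans (hs2 i h2))
  obtain ⟨i1, hi1⟩ : ∃ i, i ∈ G1 := Finset.card_pos.1 (by omega)
  obtain ⟨i2, hi2⟩ : ∃ i, i ∈ G2 := Finset.card_pos.1 (by omega)
  have hGcnt : ∀ s, cnt sp s = cnt sp' s + ((G1 ∪ G2).filter (fun i => sp i = s)).card := by
    intro s
    rw [hcnt s, Finset.filter_union, Finset.card_union_of_disjoint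
      (Finset.disjoint_filter_filter hdisj)]
    have e1 : (G1.filter (fun i => sp i = s)).card = if s = sP then q else 0 := by
      by_cases h : s = sP
      · rw [if_pos h, Finset.filter_true_of_mem (fun i hi => (hs1 i hi).trans h.symm), hG1c]
      · rw [if_neg h, Finset.filter_false_of_mem (fun i hi h2 => h (h2.symm.trans (hs1 i hi))),
          Finset.card_empty]
    have e2 : (G2.filter (fun i => sp i = s)).card = if s = sN then p else 0 := by
      by_cases h : s = sN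
      · rw [if_pos h, Finset.filter_true_of_mem (fun i hi => (hs2 i hi).trans h.symm), hG2c]
      · rw [if_neg h, Finset.filter_false_of_mem (fun i hi h2 => h (h2.symm.trans (hs2 i hi))),
          Finset.card_empty]
    rw [e1, e2, add_assoc]
  -- the state
  obtain ⟨-, -, hE, hmin⟩ := energies_basic D hD hst sp ℓ hℓ0
  obtain ⟨-, -, hE', -⟩ := energies_basic D hD hst sp' ℓ hℓ0
  obtain ⟨Ψ, hΨ, hn1, hgap⟩ : ∃ Ψ : Wave D I, IsState D sp ℓ Ψ ∧ nrm2 D Ψ = 1 ∧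
      energy D sp Ψ ≤ sInf (energies D sp ℓ) + 1 := by
    obtain ⟨Φ, hΦ, hΦ0, hΦe⟩ := hmin 1 one_pos
    obtain ⟨s1, s2, s3⟩ := gr_scale D sp ℓ Φ hΦ (Real.sqrt (nrm2 D Φ))⁻¹
    have e1 : ((Real.sqrt (nrm2 D Φ))⁻¹) ^ 2 = (nrm2 D Φ)⁻¹ := by
      rw [inv_pow, Real.sq_sqrt hΦ0.le]
    rw [e1] at s2 s3
    refine ⟨_, s1, ?_, ?_⟩
    · rw [s2, inv_mul_cancel₀ hΦ0.ne']
    · rw [s3, inv_mul_le_iff₀ hΦ0]
      linarith
  -- kinetic energy
  have hkin := hkb sp ℓ hℓ hN hneu Ψ hΨ hn1 hgap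
  -- the point
  obtain ⟨y, hy, hwy⟩ := gr_center D sp ℓ ρ hℓ hρ hN Ψ hΨ hn1
  rw [← hW0] at hwy
  have hw0 : 0 ≤ wm D (near2 y) Ψ := by
    unfold wm
    exact Finset.sum_nonneg fun τ _ => integral_nonneg fun x =>
      mul_nonneg (near2_nonneg y x) (sq_nonneg _)
  have hmove : ∀ i, pe D sp i Ψ ≤ D.charge (sp i) * phim D sp Ψ y + K := by
    intro i
    have h1 := H sp ℓ y hy (sInf (energies D sp ℓ)) _ hE i
      (rest_lower D sp ℓ |A| (fun sp' Φ hΦ => hAA sp' ℓ hℓ0 Φ hΦ) i) Ψ hΨ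
    rw [hn1] at h1
    have h2 : C2 * (1 + wm D (near2 y) Ψ) ≤ C2 * (1 + W0) :=
      mul_le_mul_of_nonneg_left (by linarith) hC2.le
    rw [hK]
    linarith
  have hstab : -(4 * |A|) * (Fintype.card I : ℝ) ≤ ∑ i, pe D sp i Ψ := by
    have := sum_pe D |A| sp (fun ℓ hℓ Φ hΦ => hAA sp ℓ hℓ Φ hΦ) ℓ hℓ0 Ψ hΨ
    rw [hn1, mul_one] at this
    exact this
  have hflat : ∀ i, c * (Fintype.card I : ℝ) ≤ cnt sp (sp i) →
      |D.charge (sp i) * phim D sp Ψ y - pe D sp i Ψ| ≤ C' := by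
    intro i hi
    rw [hC']
    refine gr_core sp i c⁻¹ (by positivity) ?_ D.charge hneu (fun i => pe D sp i Ψ)
      (fun j hj => (pe_symm D sp ℓ Ψ hΨ j i hj).1) (phim D sp Ψ y) K (4 * |A|) hstab hmove
      hK0.le (by positivity)
    rw [inv_mul_eq_div, le_div_iff₀ hc]
    linarith
  -- abundance in the group
  have hab : ∀ i ∈ G1 ∪ G2, c * (Fintype.card I : ℝ) ≤ cnt sp (sp i) := by
    intro i hi
    rcases Finset.mem_union.1 hi with h | h
    · rw [hs1 i h]; exact haP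
    · rw [hs2 i h]; exact haN
  have hch : ∀ i ∈ G1 ∪ G2, |D.charge (sp i)| ≤ (p : ℝ) + q := by
    intro i hi
    rcases Finset.mem_union.1 hi with h | h
    · rw [hs1 i h, hcP, abs_of_pos hpR]; linarith
    · rw [hs2 i h, hcN, abs_neg, abs_of_pos hqR]; linarith
  have hcardG : ((G1 ∪ G2).card : ℝ) = (p : ℝ) + q := by
    rw [Finset.card_union_of_disjoint hdisj, hG1c, hG2c]
    push_cast
    ring
  -- energies of the group
  obtain ⟨U, hU⟩ : ∃ U : ℝ, U = phim D sp Ψ y := ⟨_, rfl⟩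
  rw [← hU] at hflat
  have hsumpe : -(((p : ℝ) + q) * C') ≤ ∑ i ∈ G1 ∪ G2, pe D sp i Ψ := by
    rw [Finset.sum_union hdisj]
    have h1 : (q : ℝ) * (p * U - C') ≤ ∑ i ∈ G1, pe D sp i Ψ := by
      have : ∑ i ∈ G1, ((p : ℝ) * U - C') ≤ ∑ i ∈ G1, pe D sp i Ψ := by
        refine Finset.sum_le_sum fun i hi => ?_
        have h2 := hflat i (hab i (Finset.mem_union_left _ hi))
        rw [hs1 i hi, hcP, abs_le] at h2
        linarith [h2.2]
      rw [Finset.sum_const, hG1c, nsmul_eq_mul] at this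
      exact this
    have h2 : (p : ℝ) * (-(q : ℝ) * U - C') ≤ ∑ i ∈ G2, pe D sp i Ψ := by
      have : ∑ i ∈ G2, (-(q : ℝ) * U - C') ≤ ∑ i ∈ G2, pe D sp i Ψ := by
        refine Finset.sum_le_sum fun i hi => ?_
        have h2 := hflat i (hab i (Finset.mem_union_right _ hi))
        rw [hs2 i hi, hcN, abs_le] at h2
        linarith [h2.2]
      rw [Finset.sum_const, hG2c, nsmul_eq_mul] at this
      exact this
    linarith
  have hpairs : ∑ i ∈ G1 ∪ G2, ∑ j ∈ G1 ∪ G2, (if i = j then 0 else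
        D.charge (sp i) * D.charge (sp j) * wm D (fun x => 1 / ‖x i - x j‖) Ψ) ≤
      ((p : ℝ) + q) ^ 2 * (((p : ℝ) + q) ^ 2 * W) := by
    have hterm : ∀ i ∈ G1 ∪ G2, ∀ j ∈ G1 ∪ G2, (if i = j then 0 else
        D.charge (sp i) * D.charge (sp j) * wm D (fun x => 1 / ‖x i - x j‖) Ψ) ≤
        ((p : ℝ) + q) ^ 2 * W := by
      intro i hi j hj
      by_cases hij : i = j
      · rw [if_pos hij]; positivity
      · rw [if_neg hij]
        obtain ⟨w0, w1⟩ := gr_pair D hD sp ℓ Ψ hΨ i j (Ne.symm hij)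
        obtain ⟨k0, k1⟩ := gr_kin D hD sp ℓ c C1 hc hC1 Ψ hΨ hkin i (hab i hi)
        have hmi := hm (sp i)
        have hmi0 := hD.mass_pos (sp i)
        have w2 : wm D (fun x => 1 / ‖x i - x j‖) Ψ ≤ W := by
          rw [hn1] at w1
          rw [hW]
          refine w1.trans ?_
          have : 8 * D.mass (sp i) * kinE D sp i Ψ ≤ 8 * m * (2 * C1 / c) :=
            mul_le_mul (by linarith) k1 k0 (by positivity)
          linarith
        have h3 : D.charge (sp i) * D.charge (sp j) ≤ ((p : ℝ) + q) ^ 2 := by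
          refine (le_abs_self _).trans ?_
          rw [abs_mul, sq]
          exact mul_le_mul (hch i hi) (hch j hj) (abs_nonneg _) (by positivity)
        calc D.charge (sp i) * D.charge (sp j) * wm D (fun x => 1 / ‖x i - x j‖) Ψ
            ≤ ((p : ℝ) + q) ^ 2 * wm D (fun x => 1 / ‖x i - x j‖) Ψ :=
              mul_le_mul_of_nonneg_right h3 w0
          _ ≤ ((p : ℝ) + q) ^ 2 * W := mul_le_mul_of_nonneg_left w2 (by positivity)
    calc ∑ i ∈ G1 ∪ G2, ∑ j ∈ G1 ∪ G2, (if i = j then 0 else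
        D.charge (sp i) * D.charge (sp j) * wm D (fun x => 1 / ‖x i - x j‖) Ψ)
        ≤ ∑ i ∈ G1 ∪ G2, ∑ j ∈ G1 ∪ G2, ((p : ℝ) + q) ^ 2 * W :=
          Finset.sum_le_sum fun i hi => Finset.sum_le_sum fun j hj => hterm i hi j hj
      _ = ((p : ℝ) + q) ^ 2 * (((p : ℝ) + q) ^ 2 * W) := by
          rw [Finset.sum_const, Finset.sum_const, nsmul_eq_mul, nsmul_eq_mul, hcardG]
          ring
  have hfin := group_slice D sp sp' (G1 ∪ G2) hGcnt ℓ (sInf (energies D sp' ℓ)) hE' Ψ hΨ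
  rw [hn1, mul_one] at hfin
  linarith

end Pool.Agent.Helper780_CP.RGR2
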