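import Pool.Agent.Helper780_CP.LLDefs2
import Pool.Agent.Helper780_CP.Fdl

set_option autoImplicit false

open MeasureTheory

namespace Pool.Agent.Helper780_CP.RD1

open Pool.Agent.Helper780_CP
open Pool.Agent.Helper985.CP

open Pool.Agent.Helper985.CP

theorem VV_conv (f : E3 → ℝ) : VV f = (MeasureTheory.convolution f (fun w : E3 => ‖w‖⁻¹)
      (ContinuousLinearMap.mul ℝ ℝ) volume) := by
  funext y
  simp only [VV, MeasureTheory.convolution, ContinuousLinearMap.mul_apply', div_eq_mul_inv]

theorem VV_int (f : E3 → ℝ) (hf : Continuous f) (hc : HasCompactSupport f) (x : E3) :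
    Integrable (fun y => f y / ‖x - y‖) := by
  have h := hc.convolutionExists_left (ContinuousLinearMap.mul ℝ ℝ) hf pot_props_locInt x
  have h2 : Integrable (fun t => ContinuousLinearMap.mul ℝ ℝ (f t) (‖x - t‖⁻¹)) := h
  refine h2.congr (Filter.Eventually.of_forall fun y => ?_)
  simp [div_eq_mul_inv]

theorem VV_cont (f : E3 → ℝ) (hf : Continuous f) (hc : HasCompactSupport f) :
    Continuous (VV f) ∧ ∃ B, ∀ x, |VV f x| ≤ B := by
  have hcont : Continuous (VV f) := by
    rw [VV_conv]
    exact hc.continuous_convolution_left (ContinuousLinearMap.mul ℝ ℝ) hf pot_props_locInt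
  refine ⟨hcont, ?_⟩
  obtain ⟨R, hR⟩ := (hc.isCompact.isBounded).subset_closedBall (0 : E3)
  obtain ⟨B, hB⟩ := (isCompact_closedBall (0 : E3) (R + 1)).exists_bound_of_continuousOn
    hcont.continuousOn
  refine ⟨max B (∫ y, |f y|), fun x => ?_⟩
  by_cases hx : x ∈ Metric.closedBall (0 : E3) (R + 1)
  · exact (hB x hx).trans (le_max_left _ _)
  · refine le_trans ?_ (le_max_right _ _)
    unfold VV
    rw [← Real.norm_eq_abs]
    refine (norm_integral_le_integral_norm _).trans ?_
    refine integral_mono (VV_int f hf hc x).norm (hf.integrable_of_hasCompactSupport hc).norm ?_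
    intro y
    by_cases hy : f y = 0
    · simp [hy]
    · have hy2 : y ∈ Metric.closedBall (0 : E3) R := hR (subset_tsupport _ hy)
      rw [mem_closedBall_zero_iff] at hy2 hx
      have h1 : 1 ≤ ‖x - y‖ := by
        have := norm_sub_norm_le x y
        linarith
      simp only [norm_div, norm_norm]
      exact div_le_self (norm_nonneg _) h1

/-- integrability of the pair function -/
theorem pair_int (f g : E3 → ℝ) (hf : Continuous f) (hfc : HasCompactSupport f)
    (hg : Continuous g) (hgc : HasCompactSupport g) :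
    Integrable (fun p : E3 × E3 => f p.1 * (g p.2 / ‖p.1 - p.2‖)) (volume.prod volume) := by
  obtain ⟨R, hR⟩ := (hfc.isCompact.isBounded).subset_closedBall (0 : E3)
  obtain ⟨R', hR'⟩ := (hgc.isCompact.isBounded).subset_closedBall (0 : E3)
  obtain ⟨C, hC⟩ := hfc.exists_bound_of_continuous hf
  have hK : Integrable ((Metric.closedBall (0 : E3) (R + R')).indicator (fun w : E3 => ‖w‖⁻¹)) :=
    (integrable_indicator_iff Metric.isClosed_closedBall.measurableSet).2
      (pot_props_locInt.integrableOn_isCompact (isCompact_closedBall _ _))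
  have h1 := (hg.integrable_of_hasCompactSupport hgc (μ := volume)).convolution_integrand
    (ContinuousLinearMap.mul ℝ ℝ) hK
  have h2 := h1.bdd_mul (c := C) (f := fun p : E3 × E3 => f p.1)
    (hf.comp continuous_fst).aestronglyMeasurable (Filter.Eventually.of_forall fun p => hC p.1)
  refine h2.congr (Filter.Eventually.of_forall fun p => ?_)
  simp only [ContinuousLinearMap.mul_apply']
  by_cases h3 : f p.1 = 0
  · simp [h3]
  by_cases h4 : g p.2 = 0
  · simp [h4]
  have h5 : p.1 ∈ Metric.closedBall (0 : E3) R := hR (subset_tsupport _ h3)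
  have h6 : p.2 ∈ Metric.closedBall (0 : E3) R' := hR' (subset_tsupport _ h4)
  rw [mem_closedBall_zero_iff] at h5 h6
  rw [Set.indicator_of_mem, div_eq_mul_inv]
  rw [mem_closedBall_zero_iff]
  exact (norm_sub_le _ _).trans (by linarith)

theorem DD_prod (f g : E3 → ℝ) (hf : Continuous f) (hfc : HasCompactSupport f)
    (hg : Continuous g) (hgc : HasCompactSupport g) :
    DD f g = ∫ p : E3 × E3, f p.1 * (g p.2 / ‖p.1 - p.2‖) ∂(volume.prod volume) := by
  rw [integral_prod _ (pair_int f g hf hfc hg hgc)]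
  unfold DD VV
  refine integral_congr_ae (Filter.Eventually.of_forall fun x => ?_)
  simp only
  rw [integral_const_mul]

theorem DD_symm (f g : E3 → ℝ) (hf : Continuous f) (hfc : HasCompactSupport f)
    (hg : Continuous g) (hgc : HasCompactSupport g) : DD f g = DD g f := by
  rw [DD_prod f g hf hfc hg hgc, DD_prod g f hg hgc hf hfc, ← integral_prod_swap]
  refine integral_congr_ae (Filter.Eventually.of_forall fun p => ?_)
  simp only [Prod.fst_swap, Prod.snd_swap]
  rw [norm_sub_rev]
  ring

theorem VV_lin (f g : E3 → ℝ) (hf : Continuous f) (hfc : HasCompactSupport f)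
    (hg : Continuous g) (hgc : HasCompactSupport g) (a b : ℝ) (x : E3) :
    VV (fun y => a * f y + b * g y) x = a * VV f x + b * VV g x := by
  unfold VV
  rw [← integral_const_mul, ← integral_const_mul, ← integral_add
    ((VV_int f hf hfc x).const_mul a) ((VV_int g hg hgc x).const_mul b)]
  refine integral_congr_ae (Filter.Eventually.of_forall fun y => ?_)
  simp only
  ring

theorem mulVV_int (f h : E3 → ℝ) (hf : Continuous f) (hfc : HasCompactSupport f)
    (hh : Continuous h) (hhc : HasCompactSupport h) : Integrable (fun x => f x * VV h x) :=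
  (hf.mul (VV_cont h hh hhc).1).integrable_of_hasCompactSupport (hfc.mul_right)

theorem DD_lin (f g h : E3 → ℝ) (hf : Continuous f) (hfc : HasCompactSupport f)
    (hg : Continuous g) (hgc : HasCompactSupport g) (hh : Continuous h)
    (hhc : HasCompactSupport h) (a b : ℝ) :
    DD (fun y => a * f y + b * g y) h = a * DD f h + b * DD g h := by
  unfold DD
  rw [← integral_const_mul, ← integral_const_mul, ← integral_add
    ((mulVV_int f h hf hfc hh hhc).const_mul a) ((mulVV_int g h hg hgc hh hhc).const_mul b)]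
  refine integral_congr_ae (Filter.Eventually.of_forall fun y => ?_)
  simp only
  ring

theorem lens_meas3 : Measurable (fun q : ℝ × (E3 × E3) => lens q.2.1 q.2.2 q.1) := by
  have hS : MeasurableSet {z : (ℝ × (E3 × E3)) × E3 | dist z.2 z.1.2.1 < z.1.1 ∧
      dist z.2 z.1.2.2 < z.1.1} := by
    have h1 : IsOpen {z : (ℝ × (E3 × E3)) × E3 | dist z.2 z.1.2.1 < z.1.1} :=
      isOpen_lt (by fun_prop) (by fun_prop)
    have h2 : IsOpen {z : (ℝ × (E3 × E3)) × E3 | dist z.2 z.1.2.2 < z.1.1} :=
      isOpen_lt (by fun_prop) (by fun_prop)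
    exact (h1.inter h2).measurableSet
  have h1 := (measurable_measure_prodMk_left (ν := (volume : Measure E3)) hS).ennreal_toReal
  exact h1

/-- a density cut by a ball -/
noncomputable def cb (f : E3 → ℝ) (r : ℝ) (w x : E3) : ℝ := (Metric.ball w r).indicator f x

theorem cb_meas (f : E3 → ℝ) (hf : Continuous f) (r : ℝ) :
    Measurable (fun z : E3 × E3 => cb f r z.1 z.2) := by
  have hS : MeasurableSet {z : E3 × E3 | dist z.2 z.1 < r} :=
    (isOpen_lt (by fun_prop) (by fun_prop)).measurableSet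
  have : (fun z : E3 × E3 => cb f r z.1 z.2) = {z : E3 × E3 | dist z.2 z.1 < r}.indicator
      (fun z => f z.2) := by
    funext z
    unfold cb
    by_cases h : dist z.2 z.1 < r
    · rw [Set.indicator_of_mem (show z ∈ {z : E3 × E3 | dist z.2 z.1 < r} from h),
        Set.indicator_of_mem (show z.2 ∈ Metric.ball z.1 r from h)]
    · rw [Set.indicator_of_notMem (show z ∉ {z : E3 × E3 | dist z.2 z.1 < r} from h),
        Set.indicator_of_notMem (show z.2 ∉ Metric.ball z.1 r from h)]
  rw [this]
  exact (hf.measurable.comp measurable_snd).indicator hS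

theorem cb_sq (f : E3 → ℝ) (r : ℝ) (w : E3) : (∫ x in Metric.ball w r, f x) ^ 2 =
    ∫ p : E3 × E3, cb f r w p.1 * cb f r w p.2 ∂(volume.prod volume) := by
  rw [integral_prod_mul (cb f r w) (cb f r w), sq]
  unfold cb
  rw [integral_indicator Metric.isOpen_ball.measurableSet]

theorem cb_mul (f : E3 → ℝ) (r : ℝ) (p : E3 × E3) (w : E3) : cb f r w p.1 * cb f r w p.2 =
    (Metric.ball p.1 r ∩ Metric.ball p.2 r).indicator (fun _ => f p.1 * f p.2) w := by
  unfold cb
  by_cases h1 : w ∈ Metric.ball p.1 r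
  · have h1' : p.1 ∈ Metric.ball w r := by rwa [Metric.mem_ball_comm]
    by_cases h2 : w ∈ Metric.ball p.2 r
    · have h2' : p.2 ∈ Metric.ball w r := by rwa [Metric.mem_ball_comm]
      rw [Set.indicator_of_mem (show w ∈ _ ∩ _ from ⟨h1, h2⟩), Set.indicator_of_mem h1',
        Set.indicator_of_mem h2']
    · have h2' : p.2 ∉ Metric.ball w r := by rwa [Metric.mem_ball_comm]
      rw [Set.indicator_of_notMem (show w ∉ Metric.ball p.1 r ∩ Metric.ball p.2 r from
        fun h => h2 h.2), Set.indicator_of_notMem h2', mul_zero]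
  · have h1' : p.1 ∉ Metric.ball w r := by rwa [Metric.mem_ball_comm]
    rw [Set.indicator_of_notMem (show w ∉ Metric.ball p.1 r ∩ Metric.ball p.2 r from
      fun h => h1 h.1), Set.indicator_of_notMem h1', zero_mul]

theorem ballinter_meas (p : E3 × E3) (r : ℝ) :
    MeasurableSet (Metric.ball p.1 r ∩ Metric.ball p.2 r) :=
  (Metric.isOpen_ball.inter Metric.isOpen_ball).measurableSet

theorem cb_mul_int (f : E3 → ℝ) (r : ℝ) (p : E3 × E3) :
    Integrable (fun w => cb f r w p.1 * cb f r w p.2) := by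
  simp only [cb_mul]
  exact (integrable_indicator_iff (ballinter_meas p r)).2 (integrableOn_const (lens_fin _ _ _))

theorem cb_mul_integral (f : E3 → ℝ) (r : ℝ) (p : E3 × E3) :
    ∫ w, cb f r w p.1 * cb f r w p.2 = lens p.1 p.2 r * (f p.1 * f p.2) := by
  simp only [cb_mul]
  rw [integral_indicator (ballinter_meas p r), setIntegral_const]
  rfl

theorem cb_mul_norm (f : E3 → ℝ) (r : ℝ) (p : E3 × E3) :
    ∫ w, ‖cb f r w p.1 * cb f r w p.2‖ = lens p.1 p.2 r * (|f p.1| * |f p.2|) := by
  have : ∀ w, ‖cb f r w p.1 * cb f r w p.2‖ = (Metric.ball p.1 r ∩ Metric.ball p.2 r).indicator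
      (fun _ => |f p.1| * |f p.2|) w := by
    intro w
    rw [cb_mul]
    by_cases hw : w ∈ Metric.ball p.1 r ∩ Metric.ball p.2 r
    · rw [Set.indicator_of_mem hw, Set.indicator_of_mem hw, norm_mul, Real.norm_eq_abs,
        Real.norm_eq_abs]
    · rw [Set.indicator_of_notMem hw, Set.indicator_of_notMem hw, norm_zero]
  simp only [this]
  rw [integral_indicator (ballinter_meas p r), setIntegral_const]
  rfl


theorem lens_meas2 (r : ℝ) : Measurable (fun p : E3 × E3 => lens p.1 p.2 r) := by
  have h : Measurable (fun p : E3 × E3 => ((r, p) : ℝ × (E3 × E3))) := by fun_prop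
  have h2 := lens_meas3.comp h
  exact h2

theorem cb_m1 (f : E3 → ℝ) (hf : Continuous f) (r : ℝ) :
    Measurable (fun z : E3 × (E3 × E3) => cb f r z.1 z.2.1) := by
  have h : Measurable (fun z : E3 × (E3 × E3) => ((z.1, z.2.1) : E3 × E3)) := by fun_prop
  have h2 := (cb_meas f hf r).comp h
  exact h2

theorem cb_m2 (f : E3 → ℝ) (hf : Continuous f) (r : ℝ) :
    Measurable (fun z : E3 × (E3 × E3) => cb f r z.1 z.2.2) := by
  have h : Measurable (fun z : E3 × (E3 × E3) => ((z.1, z.2.2) : E3 × E3)) := by fun_prop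
  have h2 := (cb_meas f hf r).comp h
  exact h2

theorem cb_m12 (f : E3 → ℝ) (hf : Continuous f) (r : ℝ) :
    AEStronglyMeasurable (fun z : E3 × (E3 × E3) => cb f r z.1 z.2.1 * cb f r z.1 z.2.2)
      ((volume : Measure E3).prod ((volume : Measure E3).prod (volume : Measure E3))) :=
  ((cb_m1 f hf r).mul (cb_m2 f hf r)).aestronglyMeasurable

theorem cb_h4 (f : E3 → ℝ) (hf : Continuous f) (hfc : HasCompactSupport f) (r : ℝ)
    (hr : 0 ≤ r) : Integrable (fun p : E3 × E3 => lens p.1 p.2 r * (|f p.1| * |f p.2|))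
      ((volume : Measure E3).prod (volume : Measure E3)) := by
  have hfi : Integrable f := hf.integrable_of_hasCompactSupport hfc
  have h3 : Integrable (fun p : E3 × E3 => |f p.1| * |f p.2|)
      ((volume : Measure E3).prod (volume : Measure E3)) := hfi.abs.mul_prod hfi.abs
  refine h3.bdd_mul (c := 4 / 3 * Real.pi * r ^ 3) (lens_meas2 r).aestronglyMeasurable
    (Filter.Eventually.of_forall fun p => ?_)
  rw [Real.norm_of_nonneg (lens_nonneg _ _ _)]
  exact lens_le _ _ _ hr

theorem cb_int3 (f : E3 → ℝ) (hf : Continuous f) (hfc : HasCompactSupport f) (r : ℝ)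
    (hr : 0 ≤ r) : Integrable (fun z : E3 × (E3 × E3) => cb f r z.1 z.2.1 * cb f r z.1 z.2.2)
      ((volume : Measure E3).prod ((volume : Measure E3).prod (volume : Measure E3))) := by
  rw [integrable_prod_iff' (cb_m12 f hf r)]
  refine ⟨Filter.Eventually.of_forall fun p => cb_mul_int f r p, ?_⟩
  refine (cb_h4 f hf hfc r hr).congr (Filter.Eventually.of_forall fun p => ?_)
  exact (cb_mul_norm f r p).symm

/-- one radius -/
theorem one_radius (f : E3 → ℝ) (hf : Continuous f) (hfc : HasCompactSupport f) (r : ℝ)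
    (hr : 0 ≤ r) : ∫ w, (∫ x in Metric.ball w r, f x) ^ 2 =
      ∫ p : E3 × E3, lens p.1 p.2 r * (f p.1 * f p.2) ∂(volume.prod volume) := by
  simp only [cb_sq]
  rw [integral_integral_swap (f := fun (w : E3) (p : E3 × E3) => cb f r w p.1 * cb f r w p.2)
    (cb_int3 f hf hfc r hr)]
  simp only [cb_mul_integral]

theorem diag_null : ∀ᵐ p : E3 × E3 ∂((volume : Measure E3).prod volume), p.1 ≠ p.2 := by
  have hm : MeasurableSet {p : E3 × E3 | p.1 = p.2} :=
    (isClosed_eq continuous_fst continuous_snd).measurableSet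
  have h0 : ((volume : Measure E3).prod volume) {p : E3 × E3 | p.1 = p.2} = 0 := by
    rw [Measure.measure_prod_null hm]
    refine Filter.Eventually.of_forall fun x => ?_
    have : Prod.mk x ⁻¹' {p : E3 × E3 | p.1 = p.2} = {x} := by
      ext y
      simp [eq_comm]
    show volume (Prod.mk x ⁻¹' {p : E3 × E3 | p.1 = p.2}) = 0
    rw [this]
    simp
  rw [ae_iff]
  convert h0 using 2
  ext p
  simp

theorem DD_fdl : ∃ c : ℝ, 0 < c ∧ ∀ f : E3 → ℝ, Continuous f → HasCompactSupport f →
    IntegrableOn (fun r : ℝ => (r ^ 5)⁻¹ * ∫ w, (∫ x in Metric.ball w r, f x) ^ 2)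
      (Set.Ioi 0) ∧
    DD f f = c * ∫ r in Set.Ioi (0 : ℝ), (r ^ 5)⁻¹ * ∫ w, (∫ x in Metric.ball w r, f x) ^ 2 := by
  obtain ⟨c, hc, hfdl⟩ := fdl
  refine ⟨c⁻¹, inv_pos.2 hc, fun f hf hfc => ?_⟩
  let H : ℝ × (E3 × E3) → ℝ := fun z => (z.1 ^ 5)⁻¹ * lens z.2.1 z.2.2 z.1 * (f z.2.1 * f z.2.2)
  have hHm : Measurable H := by
    refine Measurable.mul (Measurable.mul (by fun_prop) lens_meas3) ?_
    exact ((hf.comp (continuous_fst.comp continuous_snd)).mul
      (hf.comp (continuous_snd.comp continuous_snd))).measurable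
  have hHi : ∀ p : E3 × E3, p.1 ≠ p.2 →
      Integrable (fun r => H (r, p)) (volume.restrict (Set.Ioi 0)) := by
    intro p hp
    have h := (lens_int p.1 p.2 hp).mul_const (f p.1 * f p.2)
    exact h
  have hHI : ∀ p : E3 × E3, p.1 ≠ p.2 →
      ∫ r in Set.Ioi (0 : ℝ), H (r, p) = c * (f p.1 * (f p.2 / ‖p.1 - p.2‖)) := by
    intro p hp
    simp only [H]
    rw [integral_mul_const, hfdl p.1 p.2 hp]
    ring
  have hHN : ∀ p : E3 × E3, p.1 ≠ p.2 →
      ∫ r in Set.Ioi (0 : ℝ), ‖H (r, p)‖ = c * ‖f p.1 * (f p.2 / ‖p.1 - p.2‖)‖ := by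
    intro p hp
    have : ∀ r ∈ Set.Ioi (0 : ℝ), ‖H (r, p)‖ = (r ^ 5)⁻¹ * lens p.1 p.2 r * ‖f p.1 * f p.2‖ := by
      intro r hr
      have hr0 : (0 : ℝ) < r := hr
      simp only [H]
      rw [norm_mul, Real.norm_of_nonneg (mul_nonneg (by positivity) (lens_nonneg _ _ _))]
    rw [setIntegral_congr_fun measurableSet_Ioi this, integral_mul_const, hfdl p.1 p.2 hp]
    simp only [norm_mul, norm_div, norm_norm]
    ring
  have hHint : Integrable H ((volume.restrict (Set.Ioi 0)).prod (volume.prod volume)) := by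
    rw [integrable_prod_iff' hHm.aestronglyMeasurable]
    refine ⟨diag_null.mono fun p hp => hHi p hp, ?_⟩
    refine (((pair_int f f hf hfc hf hfc).norm.const_mul c)).congr ?_
    exact diag_null.mono fun p hp => (hHN p hp).symm
  have hone : ∀ r ∈ Set.Ioi (0 : ℝ), ∫ p, H (r, p) ∂((volume : Measure E3).prod volume) =
      (r ^ 5)⁻¹ * ∫ w, (∫ x in Metric.ball w r, f x) ^ 2 := by
    intro r hr
    have hr0 : (0 : ℝ) < r := hr
    rw [one_radius f hf hfc r hr0.le, ← integral_const_mul]
    refine integral_congr_ae (Filter.Eventually.of_forall fun p => ?_)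
    simp only [H]
    ring
  refine ⟨?_, ?_⟩
  · exact IntegrableOn.congr_fun hHint.integral_prod_left hone measurableSet_Ioi
  · rw [← setIntegral_congr_fun measurableSet_Ioi hone]
    have hsw : ∫ r in Set.Ioi (0 : ℝ), ∫ p, H (r, p) ∂((volume : Measure E3).prod volume) =
        ∫ p, ∫ r in Set.Ioi (0 : ℝ), H (r, p) ∂volume ∂((volume : Measure E3).prod volume) :=
      integral_integral_swap (f := fun (r : ℝ) (p : E3 × E3) => H (r, p)) hHint
    rw [hsw, integral_congr_ae (diag_null.mono fun p hp => hHI p hp), integral_const_mul,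
      DD_prod f f hf hfc hf hfc, ← mul_assoc, inv_mul_cancel₀ hc.ne', one_mul]

theorem DD_nonneg (f : E3 → ℝ) (hf : Continuous f) (hfc : HasCompactSupport f) :
    0 ≤ DD f f := by
  obtain ⟨c, hc, h⟩ := DD_fdl
  rw [(h f hf hfc).2]
  refine mul_nonneg hc.le (setIntegral_nonneg measurableSet_Ioi fun r hr => ?_)
  have hr0 : (0 : ℝ) < r := hr
  exact mul_nonneg (by positivity) (integral_nonneg fun w => sq_nonneg _)

theorem DD_cs (f g : E3 → ℝ) (hf : Continuous f) (hfc : HasCompactSupport f)
    (hg : Continuous g) (hgc : HasCompactSupport g) : DD f g ^ 2 ≤ DD f f * DD g g := by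
  have key : ∀ t : ℝ, 0 ≤ DD g g * (t * t) + (2 * DD f g) * t + DD f f := by
    intro t
    have hk : Continuous (fun y => 1 * f y + t * g y) := by fun_prop
    have hkc : HasCompactSupport (fun y => 1 * f y + t * g y) := by
      refine HasCompactSupport.add ?_ ?_
      · exact hfc.mul_left
      · exact hgc.mul_left
    have h1 := DD_nonneg _ hk hkc
    rw [DD_lin f g _ hf hfc hg hgc hk hkc 1 t, DD_symm f _ hf hfc hk hkc,
      DD_symm g _ hg hgc hk hkc, DD_lin f g f hf hfc hg hgc hf hfc 1 t,
      DD_lin f g g hf hfc hg hgc hg hgc 1 t, DD_symm g f hg hgc hf hfc] at h1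
    linarith
  have h := discrim_le_zero key
  unfold discrim at h
  nlinarith

end Pool.Agent.Helper780_CP.RD1
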