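import Pool.Agent.Helper780_CP.LLDefs2
import Pool.Agent.Helper780_CP.RD1
import Pool.Agent.Helper985.CP.M_pot_props

set_option autoImplicit false

open MeasureTheory

namespace Pool.Agent.Helper780_CP.RD2

open Pool.Agent.Helper780_CP
open Pool.Agent.Helper985.CP
open Pool.Agent.Helper780_CP.RD1 (VV_cont DD_cs DD_nonneg)

open Pool.Agent.Helper985.CP

theorem cvf_translate (f : E3 → ℝ) (v x : E3) :
    VV (fun y => f (y - v)) x = VV f (x - v) := by
  unfold VV
  have h := integral_sub_right_eq_self (μ := (volume : Measure E3))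
    (fun y => f y / ‖x - v - y‖) v
  rw [← h]
  congr 1
  ext y
  congr 2
  abel_nf

theorem cvf_DD_translate (f g : E3 → ℝ) (v : E3) :
    DD (fun y => f (y - v)) (fun y => g (y - v)) = DD f g := by
  unfold DD
  have h := integral_sub_right_eq_self (μ := (volume : Measure E3))
    (fun y => f y * VV g y) v
  rw [← h]
  congr 1
  ext y
  rw [cvf_translate]

theorem cv_eq_conv (j f : E3 → ℝ) :
    cv j f = MeasureTheory.convolution j f (ContinuousLinearMap.mul ℝ ℝ) volume := by
  ext x
  rfl

theorem cvf_int {j : E3 → ℝ} (hj1 : ∫ z, j z = 1) : Integrable j := by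
  by_contra h
  rw [integral_undef h] at hj1
  norm_num at hj1

theorem cvf_bdd {f : E3 → ℝ} (hf : Continuous f) (hfc : HasCompactSupport f) :
    ∃ C, ∀ x, |f x| ≤ C := by
  obtain ⟨C, hC⟩ := hf.bounded_above_of_compact_support hfc
  exact ⟨C, fun x => by simpa using hC x⟩

theorem cvf_exists (j f : E3 → ℝ) (R : ℝ) (hjs : ∀ z, j z ≠ 0 → ‖z‖ < R) (x : E3)
    (hx : cv j f x ≠ 0) : ∃ y, f y ≠ 0 ∧ ‖x - y‖ < R := by
  by_contra hcon
  push Not at hcon
  apply hx
  unfold cv
  have : (fun z => j z * f (x - z)) = fun _ => 0 := by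
    ext z
    by_contra hz
    have h1 : j z ≠ 0 := fun h => hz (by rw [h, zero_mul])
    have h2 : f (x - z) ≠ 0 := fun h => hz (by rw [h, mul_zero])
    have := hcon (x - z) h2
    rw [show x - (x - z) = z by abel] at this
    exact absurd (hjs z h1) (not_lt.2 this)
  rw [this]
  simp

theorem cvf_cont {j f : E3 → ℝ} (hj : Integrable j) (hf : Continuous f)
    (hfc : HasCompactSupport f) : Continuous (cv j f) := by
  obtain ⟨C, hC⟩ := cvf_bdd hf hfc
  unfold cv
  refine continuous_of_dominated (bound := fun z => |j z| * C) ?_ ?_ ?_ ?_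
  · intro x
    exact hj.aestronglyMeasurable.mul (hf.comp (by fun_prop)).aestronglyMeasurable
  · intro x
    refine Filter.Eventually.of_forall (fun z => ?_)
    rw [Real.norm_eq_abs, abs_mul]
    exact mul_le_mul_of_nonneg_left (hC _) (abs_nonneg _)
  · exact hj.abs.mul_const C
  · refine Filter.Eventually.of_forall (fun z => ?_)
    fun_prop

theorem cvf_supp {j f : E3 → ℝ} (R : ℝ) (hjs : ∀ z, j z ≠ 0 → ‖z‖ < R)
    (hfc : HasCompactSupport f) : HasCompactSupport (cv j f) := by
  obtain ⟨M, hM⟩ := hfc.isBounded.subset_closedBall (0 : E3)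
  refine HasCompactSupport.intro (isCompact_closedBall (0 : E3) (M + R)) ?_
  intro x hx
  by_contra h
  obtain ⟨y, hy, hxy⟩ := cvf_exists j f R hjs x h
  apply hx
  have h1 : y ∈ Metric.closedBall (0 : E3) M := hM (subset_tsupport f hy)
  rw [mem_closedBall_zero_iff] at h1 ⊢
  have : ‖x‖ ≤ ‖y‖ + ‖x - y‖ := by
    have := norm_add_le y (x - y)
    rwa [add_sub_cancel] at this
  linarith

theorem cvf_VV {j f : E3 → ℝ} (hj : Integrable j) (hf : Continuous f)
    (hfc : HasCompactSupport f) (x : E3) : VV (cv j f) x = cv j (VV f) x := by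
  have hK : ∀ g : E3 → ℝ, VV g =
      MeasureTheory.convolution g (fun w : E3 => ‖w‖⁻¹) (ContinuousLinearMap.mul ℝ ℝ) volume := by
    intro g
    ext x
    rfl
  have hloc := pot_props_locInt
  have hlocn : LocallyIntegrable (fun w : E3 => ‖‖w‖⁻¹‖) volume := by
    simpa using hloc
  rw [hK, cv_eq_conv, hK f, cv_eq_conv]
  have hfn : HasCompactSupport (fun x => ‖f x‖) := hfc.norm
  refine MeasureTheory.convolution_assoc (ContinuousLinearMap.mul ℝ ℝ)
    (ContinuousLinearMap.mul ℝ ℝ) (ContinuousLinearMap.mul ℝ ℝ) (ContinuousLinearMap.mul ℝ ℝ)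
    (fun a b c => by simp [mul_assoc]) hj.aestronglyMeasurable hf.aestronglyMeasurable
    hloc.aestronglyMeasurable ?_ ?_ ?_
  · refine Filter.Eventually.of_forall (fun y => ?_)
    exact HasCompactSupport.convolutionExists_right _ hfc hj.locallyIntegrable hf y
  · refine Filter.Eventually.of_forall (fun y => ?_)
    exact HasCompactSupport.convolutionExists_left _ hfn hf.norm hlocn y
  · have hc : Continuous (MeasureTheory.convolution (fun x => ‖f x‖) (fun w : E3 => ‖‖w‖⁻¹‖)
        (ContinuousLinearMap.mul ℝ ℝ) volume) :=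
      HasCompactSupport.continuous_convolution_left _ hfn hf.norm hlocn
    have hVV : MeasureTheory.convolution (fun x => ‖f x‖) (fun w : E3 => ‖‖w‖⁻¹‖)
        (ContinuousLinearMap.mul ℝ ℝ) volume = VV (fun x => ‖f x‖) := by
      rw [hK]
      congr 1
      ext w
      simp
    rw [hVV] at hc ⊢
    obtain ⟨_, B, hB⟩ := VV_cont (fun x => ‖f x‖) hf.norm hfn
    unfold MeasureTheory.ConvolutionExistsAt
    have : Integrable (fun t => ‖j t‖ * VV (fun x => ‖f x‖) (x - t)) := by
      refine Integrable.mul_bdd (c := B) hj.norm ?_ ?_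
      · exact (hc.comp (by fun_prop)).aestronglyMeasurable
      · exact Filter.Eventually.of_forall (fun z => hB _)
    exact this

theorem cvf_DD {j f : E3 → ℝ} (hj0 : ∀ z, 0 ≤ j z) (hj1 : ∫ z, j z = 1)
    (R : ℝ) (hjs : ∀ z, j z ≠ 0 → ‖z‖ < R) (hf : Continuous f)
    (hfc : HasCompactSupport f) : DD (cv j f) (cv j f) ≤ DD f f := by
  have hj := cvf_int hj1
  have hgc := cvf_cont hj hf hfc
  have hgs := cvf_supp R hjs hfc
  obtain ⟨hWc, B, hB⟩ := VV_cont (cv j f) hgc hgs
  set g := cv j f with hg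
  have hfi : Integrable f := hf.integrable_of_hasCompactSupport hfc
  -- the double integral
  have h2 : Integrable (fun p : E3 × E3 => j p.2 * f (p.1 - p.2)) (volume.prod volume) :=
    Integrable.convolution_integrand (ContinuousLinearMap.mul ℝ ℝ) hj hfi
  have h3 : Integrable (fun p : E3 × E3 => j p.2 * f (p.1 - p.2) * VV g p.1)
      (volume.prod volume) := by
    refine Integrable.mul_bdd (c := B) h2 ?_ ?_
    · exact (hWc.comp continuous_fst).aestronglyMeasurable
    · exact Filter.Eventually.of_forall (fun z => hB _)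
  have hDD : DD g g = ∫ z, j z * DD (fun y => f (y - z)) g := by
    unfold DD
    have e1 : ∀ x, g x * VV g x = ∫ z, j z * f (x - z) * VV g x := by
      intro x
      rw [integral_mul_const]
      rfl
    simp_rw [e1]
    rw [integral_integral_swap h3]
    congr 1
    ext z
    rw [← integral_const_mul]
    congr 1
    ext x
    ring
  have h4 : Integrable (fun z => j z * DD (fun y => f (y - z)) g) := by
    have := h3.integral_prod_right
    refine this.congr (Filter.Eventually.of_forall (fun z => ?_))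
    unfold DD
    change ∫ x, j z * f (x - z) * VV g x = j z * ∫ x, f (x - z) * VV g x
    rw [← integral_const_mul]
    congr 1
    ext x
    ring
  have hff := DD_nonneg f hf hfc
  have hgg := DD_nonneg g hgc hgs
  have hb : ∀ z, DD (fun y => f (y - z)) g ≤ √(DD f f) * √(DD g g) := by
    intro z
    have hfz : Continuous (fun y => f (y - z)) := by fun_prop
    have hfzc : HasCompactSupport (fun y => f (y - z)) :=
      hfc.comp_homeomorph (Homeomorph.subRight z)
    have := DD_cs (fun y => f (y - z)) g hfz hfzc hgc hgs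
    rw [cvf_DD_translate] at this
    rw [← Real.sqrt_mul hff]
    exact Real.le_sqrt_of_sq_le this
  have h5 : DD g g ≤ √(DD f f) * √(DD g g) := by
    calc DD g g = ∫ z, j z * DD (fun y => f (y - z)) g := hDD
      _ ≤ ∫ z, j z * (√(DD f f) * √(DD g g)) :=
          integral_mono h4 (hj.mul_const _) (fun z => mul_le_mul_of_nonneg_left (hb z) (hj0 z))
      _ = √(DD f f) * √(DD g g) := by rw [integral_mul_const, hj1, one_mul]
  have h6 := Real.sq_sqrt hff
  have h7 := Real.sq_sqrt hgg
  have h8 := Real.sqrt_nonneg (DD f f)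
  have h9 := Real.sqrt_nonneg (DD g g)
  by_cases h0 : √(DD g g) = 0
  · rw [h0] at h7
    have : DD g g = 0 := by rw [← h7]; ring
    rw [this]; exact hff
  · have hpos : 0 < √(DD g g) := lt_of_le_of_ne h9 (Ne.symm h0)
    have h10 : √(DD g g) ≤ √(DD f f) := by
      by_contra hlt
      push Not at hlt
      nlinarith
    nlinarith

/-- TARGET 1 -/
theorem cv_facts (j f : E3 → ℝ) (hj : Measurable j) (hj0 : ∀ z, 0 ≤ j z) (hjB : ∃ B, ∀ z, j z ≤ B)
    (R : ℝ) (hjs : ∀ z, j z ≠ 0 → ‖z‖ < R) (hj1 : ∫ z, j z = 1) (hf : Continuous f)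
    (hfc : HasCompactSupport f) :
    Continuous (cv j f) ∧ HasCompactSupport (cv j f) ∧ ∫ x, cv j f x = ∫ x, f x ∧
    (∀ x, VV (cv j f) x = cv j (VV f) x) ∧ DD (cv j f) (cv j f) ≤ DD f f ∧
    (∀ x, cv j f x ≠ 0 → ∃ y, f y ≠ 0 ∧ ‖x - y‖ < R) := by
  have hji := cvf_int hj1
  have hfi : Integrable f := hf.integrable_of_hasCompactSupport hfc
  refine ⟨cvf_cont hji hf hfc, cvf_supp R hjs hfc, ?_, cvf_VV hji hf hfc,
    cvf_DD hj0 hj1 R hjs hf hfc, cvf_exists j f R hjs⟩
  rw [cv_eq_conv, MeasureTheory.integral_convolution (ContinuousLinearMap.mul ℝ ℝ) hji hfi, hj1]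
  simp

/-- TARGET 2 -/
theorem bi_facts (r : ℝ) (hr : 0 < r) : Measurable (bi r) ∧ (∀ z, 0 ≤ bi r z) ∧
    (∃ B, ∀ z, bi r z ≤ B) ∧ (∀ z, bi r z ≠ 0 → ‖z‖ < r) ∧ ∫ z, bi r z = 1 ∧
    ∀ (f : E3 → ℝ) (x : E3), cv (bi r) f x =
      (volume.real (Metric.ball (0 : E3) r))⁻¹ * ∫ y in Metric.ball x r, f y := by
  have hpos : 0 < volume.real (Metric.ball (0 : E3) r) := by
    rw [Measure.real]
    exact ENNReal.toReal_pos (Metric.measure_ball_pos _ _ hr).ne' measure_ball_lt_top.ne
  refine ⟨?_, ?_, ?_, ?_, ?_, ?_⟩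
  · unfold bi
    exact measurable_const.indicator measurableSet_ball
  · intro z
    unfold bi
    exact Set.indicator_nonneg (fun _ _ => inv_nonneg.2 hpos.le) z
  · refine ⟨(volume.real (Metric.ball (0 : E3) r))⁻¹, fun z => ?_⟩
    unfold bi
    exact Set.indicator_le_self' (fun _ _ => inv_nonneg.2 hpos.le) z
  · intro z hz
    unfold bi at hz
    have := Set.mem_of_indicator_ne_zero hz
    exact mem_ball_zero_iff.1 this
  · unfold bi
    rw [integral_indicator measurableSet_ball, setIntegral_const, smul_eq_mul]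
    exact mul_inv_cancel₀ hpos.ne'
  · intro f x
    unfold cv
    have h := integral_sub_left_eq_self (μ := (volume : Measure E3))
      (fun y => (Metric.ball x r).indicator
        (fun y => (volume.real (Metric.ball (0 : E3) r))⁻¹ * f y) y) x
    have h2 : (fun z => bi r z * f (x - z)) = fun z => (Metric.ball x r).indicator
        (fun y => (volume.real (Metric.ball (0 : E3) r))⁻¹ * f y) (x - z) := by
      ext z
      unfold bi
      by_cases hz : z ∈ Metric.ball (0 : E3) r
      · have hz2 : x - z ∈ Metric.ball x r := by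
          rw [mem_ball_zero_iff] at hz
          rw [mem_ball_iff_norm]
          simpa using hz
        rw [Set.indicator_of_mem hz, Set.indicator_of_mem hz2]
      · have hz2 : x - z ∉ Metric.ball x r := by
          rw [mem_ball_zero_iff] at hz
          rw [mem_ball_iff_norm]
          simpa using hz
        rw [Set.indicator_of_notMem hz, Set.indicator_of_notMem hz2, zero_mul]
    rw [h2, h, integral_indicator measurableSet_ball, integral_const_mul]

theorem cvf_fderiv (j f : E3 → ℝ) (hj : ContDiff ℝ SM j) (hjc : HasCompactSupport j)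
    (hf : Continuous f) (v x : E3) : fderiv ℝ (cv j f) x v = cv (fun z => fderiv ℝ j z v) f x := by
  have h1 : ContDiff ℝ 1 j :=
    hj.of_le (WithTop.coe_le_coe.2 (le_top : (1 : ℕ∞) ≤ ⊤))
  have h := HasCompactSupport.hasFDerivAt_convolution_left (ContinuousLinearMap.mul ℝ ℝ)
    hjc h1 (hf.locallyIntegrable (μ := volume)) x
  rw [cv_eq_conv, h.fderiv]
  unfold MeasureTheory.convolution
  rw [ContinuousLinearMap.integral_apply]
  · rfl
  · have hc : HasCompactSupport (fderiv ℝ j) := hjc.fderiv ℝ
    have hcont : Continuous (fderiv ℝ j) := h1.continuous_fderiv (by norm_num)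
    exact HasCompactSupport.convolutionExists_left _ hc hcont
      (hf.locallyIntegrable (μ := volume)) x

/-- TARGET 3 -/
theorem cv_smooth (j f : E3 → ℝ) (hj : ContDiff ℝ SM j) (hjc : HasCompactSupport j)
    (hf : Continuous f) : ContDiff ℝ SM (cv j f) ∧
    (∀ x, lap (cv j f) x = cv (lap j) f x) ∧
    ∀ (k : Fin 3) x, fderiv ℝ (cv j f) x (EuclideanSpace.single k (1 : ℝ)) =
      cv (fun z => fderiv ℝ j z (EuclideanSpace.single k (1 : ℝ))) f x := by
  have hd : ∀ v : E3, ContDiff ℝ SM (fun z => fderiv ℝ j z v) := by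
    intro v
    have : ContDiff ℝ SM (fderiv ℝ j) := hj.fderiv_right (by simp)
    exact this.clm_apply contDiff_const
  have hdc : ∀ v : E3, HasCompactSupport (fun z => fderiv ℝ j z v) :=
    fun v => hjc.fderiv_apply ℝ v
  refine ⟨?_, ?_, fun k x => cvf_fderiv j f hj hjc hf _ x⟩
  · rw [cv_eq_conv]
    exact HasCompactSupport.contDiff_convolution_left _ hjc hj hf.locallyIntegrable
  · intro x
    unfold lap
    have e1 : ∀ k : Fin 3, (fun v => fderiv ℝ (cv j f) v (EuclideanSpace.single k (1 : ℝ))) =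
        cv (fun z => fderiv ℝ j z (EuclideanSpace.single k (1 : ℝ))) f := by
      intro k
      ext v
      exact cvf_fderiv j f hj hjc hf _ v
    simp_rw [e1]
    have e2 : ∀ k : Fin 3, fderiv ℝ
        (cv (fun z => fderiv ℝ j z (EuclideanSpace.single k (1 : ℝ))) f) x
        (EuclideanSpace.single k (1 : ℝ)) =
        cv (fun z => fderiv ℝ (fun z => fderiv ℝ j z (EuclideanSpace.single k (1 : ℝ))) z
          (EuclideanSpace.single k (1 : ℝ))) f x := by
      intro k
      exact cvf_fderiv _ f (hd _) (hdc _) hf _ x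
    simp_rw [e2]
    unfold cv
    rw [← integral_finsetSum]
    · congr 1
      ext z
      rw [Finset.sum_mul]
    · intro k _
      have hc : Continuous (fun z => fderiv ℝ (fun z => fderiv ℝ j z
          (EuclideanSpace.single k (1 : ℝ))) z (EuclideanSpace.single k (1 : ℝ))) := by
        have := ((hd (EuclideanSpace.single k (1 : ℝ))).continuous_fderiv (by simp))
        exact this.clm_apply continuous_const
      have hcs : HasCompactSupport (fun z => fderiv ℝ (fun z => fderiv ℝ j z
          (EuclideanSpace.single k (1 : ℝ))) z (EuclideanSpace.single k (1 : ℝ))) :=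
        (hdc (EuclideanSpace.single k (1 : ℝ))).fderiv_apply ℝ _
      refine Continuous.integrable_of_hasCompactSupport (hc.mul (hf.comp (by fun_prop))) ?_
      exact hcs.mul_right

/-- TARGET 4 -/
theorem DD_translate (f g : E3 → ℝ) (v : E3) :
    (∀ x, VV (fun y => f (y - v)) x = VV f (x - v)) ∧
    DD (fun y => f (y - v)) (fun y => g (y - v)) = DD f g :=
  ⟨cvf_translate f v, cvf_DD_translate f g v⟩

/-- TARGET 5 -/
theorem DD_scale (f g : E3 → ℝ) (t : ℝ) (ht : 0 < t) :
    (∀ x, VV (fun y => t ^ 3 * f (t • y)) x = t * VV f (t • x)) ∧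
    DD (fun y => t ^ 3 * f (t • y)) (fun y => t ^ 3 * g (t • y)) = t * DD f g := by
  have key : ∀ F : E3 → ℝ, ∫ y, t ^ 3 * F (t • y) = ∫ y, F y := by
    intro F
    rw [integral_const_mul, Measure.integral_comp_smul]
    rw [finrank_euclideanSpace, Fintype.card_fin, abs_of_pos (by positivity), smul_eq_mul,
      ← mul_assoc, mul_inv_cancel₀ (by positivity), one_mul]
  have h1 : ∀ (f : E3 → ℝ) x, VV (fun y => t ^ 3 * f (t • y)) x = t * VV f (t • x) := by
    intro f x
    unfold VV
    rw [← key (fun y => f y / ‖t • x - y‖), ← integral_const_mul]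
    congr 1
    ext y
    rw [← smul_sub, norm_smul, Real.norm_eq_abs, abs_of_pos ht]
    field_simp
  refine ⟨h1 f, ?_⟩
  unfold DD
  simp_rw [h1 g]
  rw [← key (fun y => f y * VV g y), ← integral_const_mul]
  congr 1
  ext y
  ring

end Pool.Agent.Helper780_CP.RD2
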