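import Pool.Agent.Helper780_CP.LLDefs2
import Pool.Agent.Helper486.TP.NewtonLap

set_option autoImplicit false

open MeasureTheory

namespace Pool.Agent.Helper780_CP.RK1

open Pool.Agent.Helper780_CP
open Pool.Agent.Helper985.CP

open Pool.Agent.Helper486.TP in
theorem lap_eq (f : E3 → ℝ) (hf : ContDiff ℝ SM f) (y : E3) :
    (Laplacian.laplacian f) y = lap f y := by
  have h := nl_lap_eq (n := 3) (φ := f) hf y
  rw [h]
  unfold lap
  apply Finset.sum_congr rfl
  intro i _
  rw [EuclideanSpace.basisFun_apply]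

theorem int_fderiv (g : E3 → ℝ) (hg : ContDiff ℝ SM g) (hs : HasCompactSupport g) (v : E3) :
    ∫ x, fderiv ℝ g x v = 0 := by
  have h := Pool.Agent.Helper486.TP.int_parts (n := 3) (fun _ => (1 : ℝ)) g contDiff_const
    (hg.of_le (by norm_cast)) hs v
  simpa using h

/-- TARGET -/
theorem newt : ∃ c : ℝ, 0 < c ∧ ∀ f : E3 → ℝ, ContDiff ℝ SM f → HasCompactSupport f →
    (∀ z, f z = -c⁻¹ * ∫ w, lap f w / ‖w - z‖) ∧ ∫ w, lap f w = 0 := by
  obtain ⟨c, hc, h⟩ := Pool.Agent.Helper486.TP.newton_laplacian (n := 3) le_rfl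
  refine ⟨c, hc, fun f hf hs => ⟨fun z => ?_, ?_⟩⟩
  · have h1 := h f hf hs z
    have h2 : ∫ w, lap f w / ‖w - z‖ = -c * f z := by
      rw [← h1]
      apply integral_congr_ae
      have h0 : ∀ᵐ y : E3, y ≠ z := by
        rw [ae_iff]; simp
      filter_upwards [h0] with y hy
      have h3 := Pool.Agent.Helper486.TP.newton_toReal (n := 3) le_rfl z y hy
      rw [h3]
      have h4 : -(((3 : ℕ) : ℝ) - 2) = -1 := by norm_num
      rw [h4, Real.rpow_neg_one, lap_eq f hf y]
      ring
    rw [h2]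
    field_simp
  · unfold lap
    have hD : ∀ {ψ : E3 → ℝ}, ContDiff ℝ SM ψ → ∀ v : E3, ContDiff ℝ SM (fun z => fderiv ℝ ψ z v) := by
      intro ψ h v
      exact (h.fderiv_right (m := SM) (by norm_cast)).clm_apply contDiff_const
    rw [integral_finset_sum]
    · apply Finset.sum_eq_zero
      intro i _
      exact int_fderiv _ (hD hf _) (hs.fderiv_apply (𝕜 := ℝ) _) _
    · intro i _
      refine Continuous.integrable_of_hasCompactSupport ?_ ?_
      · exact (hD (hD hf _) _).continuous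
      · exact (hs.fderiv_apply (𝕜 := ℝ) _).fderiv_apply (𝕜 := ℝ) _

end Pool.Agent.Helper780_CP.RK1
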