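import Pool.Agent.Helper780_CP.LLDefs2
import Pool.Agent.Helper780_CP.RK1
import Pool.Agent.Helper780_CP.RK0
import Pool.Agent.Helper780_CP.RD1
import Pool.Agent.Helper780_CP.RD2

set_option autoImplicit false

open MeasureTheory

namespace Pool.Agent.Helper780_CP.RPB

open Pool.Agent.Helper780_CP
open Pool.Agent.Helper985.CP
open Pool.Agent.Helper780_CP.RK1 (newt)
open Pool.Agent.Helper780_CP.RK0 (ker_exists)
open Pool.Agent.Helper780_CP.RD1 (VV_cont DD_symm VV_lin DD_lin DD_nonneg DD_cs)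
open Pool.Agent.Helper780_CP.RD2 (cv_facts cv_smooth DD_translate DD_scale)

open Pool.Agent.Helper985.CP

noncomputable abbrev pbe (k : Fin 3) : E3 := EuclideanSpace.single k (1 : ℝ)

theorem pb_fd_smooth {h : E3 → ℝ} (hh : ContDiff ℝ SM h) (v : E3) :
    ContDiff ℝ SM (fun z => fderiv ℝ h z v) :=
  (hh.fderiv_right (m := SM) (by norm_cast)).clm_apply contDiff_const

theorem pb_lap_smooth {h : E3 → ℝ} (hh : ContDiff ℝ SM h) : ContDiff ℝ SM (lap h) := by
  unfold lap
  exact ContDiff.sum fun k _ => pb_fd_smooth (pb_fd_smooth hh _) _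

theorem pb_fd_congr {f g : E3 → ℝ} {x : E3} (h : f =ᶠ[nhds x] g) (v : E3) :
    (fun z => fderiv ℝ f z v) =ᶠ[nhds x] fun z => fderiv ℝ g z v := by
  filter_upwards [h.fderiv (𝕜 := ℝ)] with z hz
  rw [hz]

theorem pb_lap_congr {f g : E3 → ℝ} {x : E3} (h : f =ᶠ[nhds x] g) : lap f x = lap g x := by
  unfold lap
  refine Finset.sum_congr rfl fun k _ => ?_
  exact (pb_fd_congr (pb_fd_congr h _) _).eq_of_nhds

theorem pb_fd_zero (x v : E3) : fderiv ℝ (fun _ : E3 => (0 : ℝ)) x v = 0 := by simp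

theorem pb_lap_zero (x : E3) : lap (fun _ : E3 => (0 : ℝ)) x = 0 := by
  unfold lap
  simp

theorem pb_fd_tsupp (f : E3 → ℝ) (v : E3) : tsupport (fun z => fderiv ℝ f z v) ⊆ tsupport f := by
  apply closure_minimal _ (isClosed_tsupport f)
  intro x hx
  by_contra hcon
  apply hx
  have h0 : f =ᶠ[nhds x] fun _ => 0 := notMem_tsupport_iff_eventuallyEq.1 hcon
  have h1 := (pb_fd_congr h0 v).eq_of_nhds
  exact h1.trans (pb_fd_zero x v)

theorem pb_lap_tsupp (f : E3 → ℝ) : tsupport (lap f) ⊆ tsupport f := by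
  apply closure_minimal _ (isClosed_tsupport f)
  intro x hx
  by_contra hcon
  apply hx
  have h0 : f =ᶠ[nhds x] fun _ => 0 := notMem_tsupport_iff_eventuallyEq.1 hcon
  rw [pb_lap_congr h0, pb_lap_zero]

theorem pb_cpt_of {f g : E3 → ℝ} (hf : HasCompactSupport f) (h : tsupport g ⊆ tsupport f) :
    HasCompactSupport g := hf.of_isClosed_subset (isClosed_tsupport g) h

theorem pb_fd_mul {f g : E3 → ℝ} (hf : ContDiff ℝ SM f) (hg : ContDiff ℝ SM g) (x v : E3) :
    fderiv ℝ (fun z => f z * g z) x v = fderiv ℝ f x v * g x + f x * fderiv ℝ g x v := by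
  have h1 : DifferentiableAt ℝ f x := (hf.differentiable (by simp [SM])).differentiableAt
  have h2 : DifferentiableAt ℝ g x := (hg.differentiable (by simp [SM])).differentiableAt
  have h := fderiv_fun_mul h1 h2
  rw [h]
  simp only [add_apply, smul_apply, smul_eq_mul]
  ring

theorem pb_fd_add {f g : E3 → ℝ} (hf : ContDiff ℝ SM f) (hg : ContDiff ℝ SM g) (x v : E3) :
    fderiv ℝ (fun z => f z + g z) x v = fderiv ℝ f x v + fderiv ℝ g x v := by
  have h1 : DifferentiableAt ℝ f x := (hf.differentiable (by simp [SM])).differentiableAt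
  have h2 : DifferentiableAt ℝ g x := (hg.differentiable (by simp [SM])).differentiableAt
  rw [fderiv_fun_add h1 h2]
  rfl

theorem pb_lap_mul {f g : E3 → ℝ} (hf : ContDiff ℝ SM f) (hg : ContDiff ℝ SM g) (x : E3) :
    lap (fun z => f z * g z) x = lap f x * g x
      + 2 * ∑ k : Fin 3, fderiv ℝ f x (pbe k) * fderiv ℝ g x (pbe k) + f x * lap g x := by
  unfold lap
  rw [Finset.sum_mul, Finset.mul_sum, Finset.mul_sum, ← Finset.sum_add_distrib,
    ← Finset.sum_add_distrib]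
  refine Finset.sum_congr rfl fun k _ => ?_
  have h1 : (fun z => fderiv ℝ (fun z => f z * g z) z (EuclideanSpace.single k (1 : ℝ)))
      = fun z => (fun z => fderiv ℝ f z (EuclideanSpace.single k (1 : ℝ)) * g z) z
        + (fun z => f z * fderiv ℝ g z (EuclideanSpace.single k (1 : ℝ))) z := by
    funext z
    exact pb_fd_mul hf hg z _
  rw [h1, pb_fd_add ((pb_fd_smooth hf _).mul hg) (hf.mul (pb_fd_smooth hg _)),
    pb_fd_mul (pb_fd_smooth hf _) hg, pb_fd_mul hf (pb_fd_smooth hg _)]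
  ring

theorem pb_fd_sub_const (f : E3 → ℝ) (a : ℝ) (x v : E3) :
    fderiv ℝ (fun z => f z - a) x v = fderiv ℝ f x v := by
  rw [fderiv_sub_const]

theorem pb_lap_sub_const (f : E3 → ℝ) (a : ℝ) (x : E3) : lap (fun z => f z - a) x = lap f x := by
  unfold lap
  simp only [pb_fd_sub_const]

theorem pb_int_fderiv (g : E3 → ℝ) (hg : ContDiff ℝ SM g) (hs : HasCompactSupport g) (v : E3) :
    ∫ x, fderiv ℝ g x v = 0 := by
  have hd : Differentiable ℝ g := hg.differentiable (by simp [SM])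
  have h := integral_bilinear_hasLineDerivAt_right_eq_neg_left_of_integrable
    (μ := (volume : Measure E3)) (f := fun _ : E3 => (1 : ℝ)) (f' := fun _ => 0) (g := g)
    (g' := fun x => fderiv ℝ g x v) (v := v) (B := ContinuousLinearMap.mul ℝ ℝ)
    (by simp) ?_ ?_ ?_ ?_
  · simpa using h
  · simp only [ContinuousLinearMap.mul_apply', one_mul]
    exact (pb_fd_smooth hg v).continuous.integrable_of_hasCompactSupport
      (pb_cpt_of hs (pb_fd_tsupp g v))
  · simp only [ContinuousLinearMap.mul_apply', one_mul]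
    exact hg.continuous.integrable_of_hasCompactSupport hs
  · intro x _
    exact (hasFDerivAt_const (𝕜 := ℝ) (1 : ℝ) x).hasLineDerivAt v
  · intro x _
    exact (hd x).hasFDerivAt.hasLineDerivAt v

theorem pb_cvDD (h f : E3 → ℝ) (x : E3) : cv h (VV f) x = DD (fun y => h (x - y)) f := by
  unfold cv DD
  have := integral_sub_left_eq_self (fun z => h z * VV f (x - z)) volume x
  rw [← this]
  simp only [sub_sub_cancel]

theorem pb_DD_sq {f g : E3 → ℝ} (hf : Continuous f) (hfc : HasCompactSupport f)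
    (hg : Continuous g) (hgc : HasCompactSupport g) (a b : ℝ) :
    DD (fun y => a * f y + b * g y) (fun y => a * f y + b * g y)
      = a ^ 2 * DD f f + 2 * a * b * DD g f + b ^ 2 * DD g g := by
  have hs : Continuous (fun y => a * f y + b * g y) := by fun_prop
  have hsc : HasCompactSupport (fun y => a * f y + b * g y) :=
    (hfc.mul_left (f := fun _ => a)).add (hgc.mul_left (f := fun _ => b))
  rw [DD_lin f g _ hf hfc hg hgc hs hsc, DD_symm f _ hf hfc hs hsc, DD_symm g _ hg hgc hs hsc,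
    DD_lin f g f hf hfc hg hgc hf hfc, DD_lin f g g hf hfc hg hgc hg hgc,
    DD_symm f g hf hfc hg hgc]
  ring

theorem pb_DD_refl (h : E3 → ℝ) (x : E3) :
    DD (fun y => h (x - y)) (fun y => h (x - y)) = DD (fun y => h (-y)) (fun y => h (-y)) := by
  have := (DD_translate (fun y => h (-y)) (fun y => h (-y)) x).2
  rw [← this]
  simp only [neg_sub]

theorem pb_tsupp_refl (h : E3 → ℝ) (x : E3) {r : ℝ} (hh : tsupport h ⊆ Metric.closedBall 0 r) :
    tsupport (fun y => h (x - y)) ⊆ Metric.closedBall x r := by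
  apply closure_minimal _ Metric.isClosed_closedBall
  intro y hy
  have h1 : x - y ∈ tsupport h := subset_closure hy
  have h2 := hh h1
  rw [mem_closedBall_zero_iff] at h2
  rw [Metric.mem_closedBall, dist_eq_norm, ← neg_sub, norm_neg]
  exact h2

theorem pb_cpt_ball {f : E3 → ℝ} {x : E3} {r : ℝ} (h : tsupport f ⊆ Metric.closedBall x r) :
    HasCompactSupport f :=
  (isCompact_closedBall x r).of_isClosed_subset (isClosed_tsupport f) h


theorem pb_coord_le (z : E3) (k : Fin 3) : |z k| ≤ ‖z‖ := by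
  have := PiLp.norm_apply_le z k
  rwa [Real.norm_eq_abs] at this

theorem pb_norm_le (z : E3) {R : ℝ} (hR : 0 ≤ R) (h : ∀ k, |z k| ≤ R) : ‖z‖ ≤ 2 * R := by
  have h1 : ‖z‖ ^ 2 ≤ (2 * R) ^ 2 := by
    rw [EuclideanSpace.norm_sq_eq, Fin.sum_univ_three]
    simp only [Real.norm_eq_abs]
    have b : ∀ k, |z k| ^ 2 ≤ R ^ 2 := fun k => pow_le_pow_left₀ (abs_nonneg _) (h k) 2
    nlinarith [b 0, b 1, b 2, sq_nonneg R]
  exact abs_le_of_sq_le_sq' h1 (by positivity) |>.2

/-- closed box -/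
def pbB (a b : ℝ) : Set E3 := {x | ∀ k, a ≤ x k ∧ x k ≤ b}

theorem pb_box_compact (a b : ℝ) : IsCompact (pbB a b) := by
  apply Metric.isCompact_of_isClosed_isBounded
  · have : pbB a b = ⋂ k : Fin 3, {x : E3 | a ≤ x k ∧ x k ≤ b} := by
      ext x; simp [pbB]
    rw [this]
    refine isClosed_iInter fun k => ?_
    have hk : Continuous fun x : E3 => x k := by fun_prop
    exact (isClosed_le continuous_const hk).inter (isClosed_le hk continuous_const)
  · apply (Metric.isBounded_closedBall (x := (0 : E3)) (r := 2 * (|a| + |b|))).subset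
    intro x hx
    rw [mem_closedBall_zero_iff]
    apply pb_norm_le x (by positivity)
    intro k
    have h := hx k
    rw [abs_le]
    constructor
    · linarith [neg_abs_le a, abs_nonneg b]
    · linarith [le_abs_self b, abs_nonneg a]

theorem pb_cutoff (L : ℝ) : ∃ χ : E3 → ℝ, ContDiff ℝ SM χ ∧ (∀ x, 0 ≤ χ x ∧ χ x ≤ 1) ∧
    (∀ x : E3, (∀ k, 2 ≤ x k ∧ x k ≤ L - 2) → χ x = 1) ∧ tsupport χ ⊆ pbB 1 (L - 1) := by
  refine ⟨fun x => ∏ k : Fin 3, (Real.smoothTransition (x k - 1) * Real.smoothTransition (L - 1 - x k)),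
    ?_, ?_, ?_, ?_⟩
  · have : ∀ k : Fin 3, ContDiff ℝ SM fun x : E3 => x k := by
      intro k
      fun_prop
    refine contDiff_prod fun k _ => ?_
    exact (Real.smoothTransition.contDiff.comp ((this k).sub contDiff_const)).mul
      (Real.smoothTransition.contDiff.comp (contDiff_const.sub (this k)))
  · intro x
    have h : ∀ k ∈ (Finset.univ : Finset (Fin 3)),
        0 ≤ Real.smoothTransition (x k - 1) * Real.smoothTransition (L - 1 - x k) ∧
        Real.smoothTransition (x k - 1) * Real.smoothTransition (L - 1 - x k) ≤ 1 := by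
      intro k _
      constructor
      · exact mul_nonneg (Real.smoothTransition.nonneg _) (Real.smoothTransition.nonneg _)
      · exact mul_le_one₀ (Real.smoothTransition.le_one _) (Real.smoothTransition.nonneg _)
          (Real.smoothTransition.le_one _)
    exact ⟨Finset.prod_nonneg fun k hk => (h k hk).1, Finset.prod_le_one (fun k hk => (h k hk).1)
      fun k hk => (h k hk).2⟩
  · intro x hx
    apply Finset.prod_eq_one
    intro k _
    rw [Real.smoothTransition.one_of_one_le (by linarith [(hx k).1]),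
      Real.smoothTransition.one_of_one_le (by linarith [(hx k).2]), one_mul]
  · apply closure_minimal _ (pb_box_compact 1 (L - 1)).isClosed
    intro x hx k
    rw [Function.mem_support] at hx
    constructor
    · by_contra hcon
      push Not at hcon
      apply hx
      apply Finset.prod_eq_zero (Finset.mem_univ k)
      rw [Real.smoothTransition.zero_of_nonpos (by linarith), zero_mul]
    · by_contra hcon
      push Not at hcon
      apply hx
      apply Finset.prod_eq_zero (Finset.mem_univ k)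
      rw [Real.smoothTransition.zero_of_nonpos (x := L - 1 - x k) (by linarith), mul_zero]

theorem pb_ball_cube {L : ℝ} {x : E3} (hx : x ∈ pbB 1 (L - 1)) :
    Metric.closedBall x (1 / 2) ⊆ cube L := by
  intro y hy k
  rw [Metric.mem_closedBall, dist_eq_norm] at hy
  have h := (pb_coord_le (y - x) k).trans hy
  rw [PiLp.sub_apply, abs_le] at h
  have h2 := hx k
  constructor <;> linarith [h.1, h.2, h2.1, h2.2]

/-- the centre of the cube -/
noncomputable def pbc (L : ℝ) : E3 := WithLp.toLp 2 (fun _ => L / 2)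

theorem pbc_apply (L : ℝ) (k : Fin 3) : pbc L k = L / 2 := rfl

theorem pbc_ball {L : ℝ} (hL : 0 < L) : Metric.closedBall (pbc L) (L / 4) ⊆ cube L := by
  intro y hy k
  rw [Metric.mem_closedBall, dist_eq_norm] at hy
  have h := (pb_coord_le (y - pbc L) k).trans hy
  rw [PiLp.sub_apply, abs_le, pbc_apply] at h
  constructor <;> linarith [h.1, h.2]

/-- admissible densities -/
def pbAdm (L : ℝ) (f : E3 → ℝ) : Prop :=
  ContDiff ℝ SM f ∧ HasCompactSupport f ∧ tsupport f ⊆ cube L ∧ ∫ x, f x = 1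

theorem pb_bump : ∃ C : ℝ, 0 < C ∧ ∀ L : ℝ, 20 ≤ L → ∃ f, pbAdm L f ∧ DD f f ≤ C / L := by
  obtain ⟨a, b, l, hK⟩ := ker_exists
  have hsupp : tsupport a ⊆ Metric.closedBall 0 (1 / 2) := by
    apply closure_minimal _ Metric.isClosed_closedBall
    intro x hx
    rw [mem_closedBall_zero_iff]
    by_contra hcon
    push Not at hcon
    exact hx (hK.a_supp x hcon.le)
  have hac : HasCompactSupport a := pb_cpt_ball hsupp
  have hD0 : 0 ≤ DD a a := DD_nonneg a hK.a_smooth.continuous hac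
  refine ⟨2 * DD a a + 1, by positivity, fun L hL => ?_⟩
  have hL0 : 0 < L := by linarith
  set t : ℝ := 2 / L with ht
  have ht0 : 0 < t := by positivity
  obtain ⟨s, hs⟩ : ∃ s : E3 → ℝ, s = fun y => t ^ 3 * a (t • y) := ⟨_, rfl⟩
  have hsD : DD s s = t * DD a a := by
    rw [hs]
    exact (DD_scale a a t ht0).2
  have hssm : ContDiff ℝ SM s := by
    rw [hs]
    exact contDiff_const.mul (hK.a_smooth.comp (contDiff_const_smul t))
  have hsint : ∫ x, s x = 1 := by
    rw [hs, integral_const_mul]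
    have h := scale3 t⁻¹ (inv_pos.2 ht0) a
    rw [inv_inv] at h
    rw [h, hK.a_int]
    field_simp
  have hssupp : ∀ y, s y ≠ 0 → ‖y‖ ≤ L / 4 := by
    intro y hy
    by_contra hcon
    push Not at hcon
    apply hy
    rw [hs]
    simp only
    rw [hK.a_supp, mul_zero]
    rw [norm_smul, Real.norm_of_nonneg ht0.le, ht]
    rw [div_mul_eq_mul_div, div_le_div_iff₀ (by norm_num) hL0]
    linarith
  refine ⟨fun y => s (y - pbc L), ⟨?_, ?_, ?_, ?_⟩, ?_⟩
  · exact hssm.comp (contDiff_id.sub contDiff_const)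
  · apply pb_cpt_ball (x := pbc L) (r := L / 4)
    apply closure_minimal _ Metric.isClosed_closedBall
    intro y hy
    rw [Metric.mem_closedBall, dist_eq_norm]
    exact hssupp _ hy
  · refine subset_trans ?_ (pbc_ball hL0)
    apply closure_minimal _ Metric.isClosed_closedBall
    intro y hy
    rw [Metric.mem_closedBall, dist_eq_norm]
    exact hssupp _ hy
  · rw [integral_sub_right_eq_self s (pbc L)]
    exact hsint
  · rw [(DD_translate s s (pbc L)).2, hsD, ht]
    rw [div_mul_eq_mul_div]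
    apply div_le_div_of_nonneg_right _ hL0.le
    linarith


theorem pb_min : ∃ C : ℝ, 0 < C ∧ ∀ L : ℝ, 20 ≤ L → ∃ I : ℝ, 0 ≤ I ∧ I ≤ C / L ∧
    (∀ f, pbAdm L f → I ≤ DD f f) ∧ ∀ δ : ℝ, 0 < δ → ∃ f, pbAdm L f ∧ DD f f ≤ I + δ := by
  obtain ⟨C, hC, hb⟩ := pb_bump
  refine ⟨C, hC, fun L hL => ?_⟩
  obtain ⟨f0, hf0, hf0C⟩ := hb L hL
  set S : Set ℝ := {r | ∃ f, pbAdm L f ∧ r = DD f f} with hS
  have hbdd : BddBelow S := by
    refine ⟨0, ?_⟩
    rintro r ⟨f, hf, rfl⟩
    exact DD_nonneg f hf.1.continuous hf.2.1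
  have hne : S.Nonempty := ⟨_, f0, hf0, rfl⟩
  refine ⟨sInf S, ?_, ?_, ?_, ?_⟩
  · apply le_csInf hne
    rintro r ⟨f, hf, rfl⟩
    exact DD_nonneg f hf.1.continuous hf.2.1
  · exact (csInf_le hbdd ⟨f0, hf0, rfl⟩).trans hf0C
  · intro f hf
    exact csInf_le hbdd ⟨f, hf, rfl⟩
  · intro δ hδ
    obtain ⟨r, ⟨f, hf, rfl⟩, hr⟩ := exists_lt_of_csInf_lt hne (lt_add_of_pos_right (sInf S) hδ)
    exact ⟨f, hf, hr.le⟩

/-- neutral test densities -/
def pbN (L : ℝ) (g : E3 → ℝ) : Prop :=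
  ContDiff ℝ SM g ∧ HasCompactSupport g ∧ tsupport g ⊆ cube L ∧ ∫ x, g x = 0

theorem pb_lin_smooth {f g : E3 → ℝ} (hf : ContDiff ℝ SM f) (hg : ContDiff ℝ SM g) (a b : ℝ) :
    ContDiff ℝ SM (fun y => a * f y + b * g y) :=
  (contDiff_const.mul hf).add (contDiff_const.mul hg)

theorem pb_lin_cpt {f g : E3 → ℝ} (hf : HasCompactSupport f) (hg : HasCompactSupport g) (a b : ℝ) :
    HasCompactSupport (fun y => a * f y + b * g y) :=
  (hf.mul_left (f := fun _ => a)).add (hg.mul_left (f := fun _ => b))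

theorem pb_lin_tsupp {f g : E3 → ℝ} {Q : Set E3} (hf : tsupport f ⊆ Q) (hg : tsupport g ⊆ Q)
    (a b : ℝ) : tsupport (fun y => a * f y + b * g y) ⊆ Q := by
  have h : tsupport (fun y => a * f y + b * g y) ⊆ tsupport f ∪ tsupport g := by
    apply closure_minimal _ ((isClosed_tsupport f).union (isClosed_tsupport g))
    intro x hx
    rw [Function.mem_support] at hx
    by_cases h1 : f x = 0
    · right
      apply subset_closure
      rw [Function.mem_support]
      intro h2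
      apply hx
      rw [h1, h2]; ring
    · left
      exact subset_closure h1
  exact h.trans (Set.union_subset hf hg)

theorem pb_lin_int {f g : E3 → ℝ} (hf : Continuous f) (hfc : HasCompactSupport f)
    (hg : Continuous g) (hgc : HasCompactSupport g) (a b : ℝ) :
    ∫ y, (a * f y + b * g y) = a * (∫ y, f y) + b * ∫ y, g y := by
  rw [integral_add ((hf.integrable_of_hasCompactSupport hfc).const_mul a)
    ((hg.integrable_of_hasCompactSupport hgc).const_mul b), integral_const_mul, integral_const_mul]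

theorem pb_orth {L I δ : ℝ} (hI : ∀ f, pbAdm L f → I ≤ DD f f) {f : E3 → ℝ} (hf : pbAdm L f)
    (hfI : DD f f ≤ I + δ ^ 2) (hδ : 0 ≤ δ) {g : E3 → ℝ} (hg : pbN L g) :
    |DD g f| ≤ δ * √(DD g g) := by
  have hfc := hf.1.continuous
  have hgc := hg.1.continuous
  have hDg : 0 ≤ DD g g := DD_nonneg g hgc hg.2.1
  have key : ∀ t : ℝ, 0 ≤ DD g g * (t * t) + (2 * DD g f) * t + δ ^ 2 := by
    intro t
    have hadm : pbAdm L (fun y => 1 * f y + t * g y) := by
      refine ⟨pb_lin_smooth hf.1 hg.1 _ _, pb_lin_cpt hf.2.1 hg.2.1 _ _,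
        pb_lin_tsupp hf.2.2.1 hg.2.2.1 _ _, ?_⟩
      rw [pb_lin_int hfc hf.2.1 hgc hg.2.1, hf.2.2.2, hg.2.2.2]
      ring
    have h1 := hI _ hadm
    rw [pb_DD_sq hfc hf.2.1 hgc hg.2.1] at h1
    nlinarith [h1]
  have hd := discrim_le_zero key
  unfold discrim at hd
  have h2 : (DD g f) ^ 2 ≤ δ ^ 2 * DD g g := by nlinarith [hd]
  have h3 : |DD g f| = √((DD g f) ^ 2) := (Real.sqrt_sq_eq_abs _).symm
  rw [h3]
  refine (Real.sqrt_le_sqrt h2).trans ?_
  rw [Real.sqrt_mul (sq_nonneg δ), Real.sqrt_sq hδ]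

theorem pb_DD_diff {p q : E3 → ℝ} (hp : Continuous p) (hpc : HasCompactSupport p)
    (hq : Continuous q) (hqc : HasCompactSupport q) :
    DD (fun y => 1 * p y + (-1) * q y) (fun y => 1 * p y + (-1) * q y)
      ≤ 2 * DD p p + 2 * DD q q := by
  have h1 := pb_DD_sq hp hpc hq hqc 1 (-1)
  have h2 := pb_DD_sq hp hpc hq hqc 1 1
  have h3 := DD_nonneg (fun y => 1 * p y + 1 * q y) (by fun_prop)
    ((hpc.mul_left (f := fun _ => (1 : ℝ))).add (hqc.mul_left (f := fun _ => (1 : ℝ))))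
  rw [h2] at h3
  rw [h1]
  linarith

theorem pb_int_refl (h : E3 → ℝ) (x : E3) : ∫ y, h (x - y) = ∫ y, h y :=
  integral_sub_left_eq_self h volume x

theorem pb_refl_smooth {h : E3 → ℝ} (hh : ContDiff ℝ SM h) (x : E3) :
    ContDiff ℝ SM (fun y => h (x - y)) := hh.comp (contDiff_const.sub contDiff_id)

/-- bound for the potential tested with a neutral bump -/
theorem pb_bound0 {L I δ : ℝ} (hI : ∀ f, pbAdm L f → I ≤ DD f f) {f : E3 → ℝ} (hf : pbAdm L f)
    (hfI : DD f f ≤ I + δ ^ 2) (hδ : 0 ≤ δ) {h : E3 → ℝ} (hh : ContDiff ℝ SM h)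
    (hs : tsupport h ⊆ Metric.closedBall 0 (1 / 2)) (h0 : ∫ y, h y = 0) {x : E3}
    (hx : Metric.closedBall x (1 / 2) ⊆ cube L) :
    |cv h (VV f) x| ≤ δ * √(DD (fun y => h (-y)) (fun y => h (-y))) := by
  rw [pb_cvDD, ← pb_DD_refl h x]
  apply pb_orth hI hf hfI hδ
  have ht := pb_tsupp_refl h x hs
  refine ⟨pb_refl_smooth hh x, pb_cpt_ball ht, ht.trans hx, ?_⟩
  rw [pb_int_refl, h0]

theorem pb_boundj {L I δ : ℝ} (hI : ∀ f, pbAdm L f → I ≤ DD f f) {f : E3 → ℝ} (hf : pbAdm L f)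
    (hfI : DD f f ≤ I + δ ^ 2) (hδ : 0 ≤ δ) {j : E3 → ℝ} (hj : ContDiff ℝ SM j)
    (hs : tsupport j ⊆ Metric.closedBall 0 (1 / 2)) {x x0 : E3}
    (hx : Metric.closedBall x (1 / 2) ⊆ cube L) (hx0 : Metric.closedBall x0 (1 / 2) ⊆ cube L) :
    |cv j (VV f) x - cv j (VV f) x0| ≤ δ * √(4 * DD (fun y => j (-y)) (fun y => j (-y))) := by
  have hfc := hf.1.continuous
  have t1 := pb_tsupp_refl j x hs
  have t2 := pb_tsupp_refl j x0 hs
  have c1 := (pb_refl_smooth hj x).continuous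
  have c2 := (pb_refl_smooth hj x0).continuous
  have k1 := pb_cpt_ball t1
  have k2 := pb_cpt_ball t2
  have e : cv j (VV f) x - cv j (VV f) x0
      = DD (fun y => 1 * j (x - y) + (-1) * j (x0 - y)) f := by
    rw [DD_lin _ _ f c1 k1 c2 k2 hfc hf.2.1, pb_cvDD, pb_cvDD]
    ring
  rw [e]
  have hN : pbN L (fun y => 1 * j (x - y) + (-1) * j (x0 - y)) := by
    refine ⟨pb_lin_smooth (pb_refl_smooth hj x) (pb_refl_smooth hj x0) _ _,
      pb_lin_cpt k1 k2 _ _, pb_lin_tsupp (t1.trans hx) (t2.trans hx0) _ _, ?_⟩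
    rw [pb_lin_int c1 k1 c2 k2, pb_int_refl, pb_int_refl]
    ring
  refine (pb_orth hI hf hfI hδ hN).trans ?_
  apply mul_le_mul_of_nonneg_left _ hδ
  apply Real.sqrt_le_sqrt
  refine (pb_DD_diff c1 k1 c2 k2).trans ?_
  rw [pb_DD_refl, pb_DD_refl]
  linarith

theorem pb_lapu {c : ℝ} (hc : 0 < c) (hnewt : ∀ f : E3 → ℝ, ContDiff ℝ SM f → HasCompactSupport f →
    (∀ z, f z = -c⁻¹ * ∫ w, lap f w / ‖w - z‖) ∧ ∫ w, lap f w = 0)
    {j f : E3 → ℝ} (hj : ContDiff ℝ SM j)
    (hs : tsupport j ⊆ Metric.closedBall 0 (1 / 2)) (hf : ContDiff ℝ SM f)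
    (hfc : HasCompactSupport f) (x : E3) :
    lap (cv j (VV f)) x = -c * cv j f x := by
  have hjc := pb_cpt_ball hs
  have hVc := (VV_cont f hf.continuous hfc).1
  rw [(cv_smooth j (VV f) hj hjc hVc).2.1, pb_cvDD]
  have t1 := pb_tsupp_refl (lap j) x ((pb_lap_tsupp j).trans hs)
  rw [DD_symm _ f (pb_refl_smooth (pb_lap_smooth hj) x).continuous (pb_cpt_ball t1) hf.continuous hfc]
  unfold DD
  have e1 : ∀ y, VV (fun y' => lap j (x - y')) y = -c * j (x - y) := by
    intro y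
    unfold VV
    have h1 := integral_sub_left_eq_self (fun w => lap j w / ‖w - (x - y)‖) volume x
    have h2 : (fun w => lap j (x - w) / ‖x - w - (x - y)‖) = fun w => lap j (x - w) / ‖y - w‖ := by
      funext w
      congr 2
      abel
    rw [h2] at h1
    rw [h1, (hnewt j hj hjc).1 (x - y)]
    field_simp
  simp_rw [e1]
  unfold cv
  have h3 := integral_sub_left_eq_self (fun z => j z * f (x - z)) volume x
  simp only [sub_sub_cancel] at h3
  rw [← h3, ← integral_const_mul]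
  congr 1
  funext y
  ring


/-- bound for the Laplacian of a cut off function -/
theorem pb_lapP {χ w : E3 → ℝ} (hχ : ContDiff ℝ SM χ) (hw : ContDiff ℝ SM w) {X J : ℝ}
    (hX : 0 ≤ X) {x : E3} (h1 : |χ x| ≤ 1) (h2 : ∀ k, |fderiv ℝ χ x (pbe k)| ≤ X)
    (h3 : |lap χ x| ≤ X) (w1 : |w x| ≤ J) (w2 : ∀ k, |fderiv ℝ w x (pbe k)| ≤ J)
    (w3 : |lap w x| ≤ J) :
    |lap (fun z => χ z * w z) x| ≤ (7 * X + 1) * J := by
  have hJ : 0 ≤ J := (abs_nonneg _).trans w1
  rw [pb_lap_mul hχ hw, Fin.sum_univ_three]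
  have a1 : |lap χ x * w x| ≤ X * J := by
    rw [abs_mul]; exact mul_le_mul h3 w1 (abs_nonneg _) hX
  have a2 : ∀ k, |fderiv ℝ χ x (pbe k) * fderiv ℝ w x (pbe k)| ≤ X * J := by
    intro k
    rw [abs_mul]; exact mul_le_mul (h2 k) (w2 k) (abs_nonneg _) hX
  have a3 : |χ x * lap w x| ≤ 1 * J := by
    rw [abs_mul]; exact mul_le_mul h1 w3 (abs_nonneg _) zero_le_one
  have b1 := abs_le.1 a1
  have b20 := abs_le.1 (a2 0)
  have b21 := abs_le.1 (a2 1)
  have b22 := abs_le.1 (a2 2)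
  have b3 := abs_le.1 a3
  rw [abs_le]
  constructor
  · linarith [b1.1, b20.1, b21.1, b22.1, b3.1]
  · linarith [b1.2, b20.2, b21.2, b22.2, b3.2]

/-- integrals over the box -/
theorem pb_box_int {L A B : ℝ} {f g : E3 → ℝ} (hA : 0 ≤ A)
    (hf0 : ∀ x, x ∉ pbB 1 (L - 1) → f x = 0) (hf : ∀ x ∈ pbB 1 (L - 1), |f x| ≤ A)
    (hg : ∀ x ∈ pbB 1 (L - 1), |g x| ≤ B) :
    |∫ x, f x * g x| ≤ A * B * volume.real (pbB 1 (L - 1)) := by
  have h1 : ∫ x, f x * g x = ∫ x in pbB 1 (L - 1), f x * g x := by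
    rw [setIntegral_eq_integral_of_forall_compl_eq_zero]
    intro x hx
    rw [hf0 x hx, zero_mul]
  rw [h1, ← Real.norm_eq_abs]
  apply norm_setIntegral_le_of_norm_le_const (pb_box_compact 1 (L - 1)).measure_lt_top
  intro x hx
  rw [Real.norm_eq_abs, abs_mul]
  exact mul_le_mul (hf x hx) (hg x hx) (abs_nonneg _) hA


/-- everything in terms of the near minimiser -/
theorem pb_core {c : ℝ} (hc : 0 < c) (hnewt : ∀ f : E3 → ℝ, ContDiff ℝ SM f → HasCompactSupport f →
    (∀ z, f z = -c⁻¹ * ∫ w, lap f w / ‖w - z‖) ∧ ∫ w, lap f w = 0)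
    {j : E3 → ℝ} (hj : ContDiff ℝ SM j) (hj0 : ∀ z, 0 ≤ j z) (hjs : ∀ z, 1 / 2 ≤ ‖z‖ → j z = 0)
    (hj1 : ∫ z, j z = 1)
    {L : ℝ} (hL : 20 ≤ L) {I : ℝ} (hI0 : 0 ≤ I) (hI : ∀ f, pbAdm L f → I ≤ DD f f)
    (hmin : ∀ δ : ℝ, 0 < δ → ∃ f, pbAdm L f ∧ DD f f ≤ I + δ) :
    ∃ M : ℝ, 0 ≤ M ∧ ∀ δ : ℝ, 0 < δ → δ ≤ 1 → ∃ (G : E3 → ℝ) (a : ℝ),
      ContDiff ℝ SM G ∧ HasCompactSupport G ∧
      (∀ x, G x ≠ 0 → (∀ k, -1 < x k ∧ x k < L + 1) ∧ ¬ ∀ k, 2 < x k ∧ x k < L - 2) ∧
      ∫ x, G x = 1 ∧ (∀ x, (∀ k, 2 ≤ x k ∧ x k ≤ L - 2) → VV G x = a) ∧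
      DD G G ≤ a + M * δ ∧ a ≤ I + M * δ := by
  have hs : tsupport j ⊆ Metric.closedBall 0 (1 / 2) := by
    apply closure_minimal _ Metric.isClosed_closedBall
    intro x hx
    rw [mem_closedBall_zero_iff]
    by_contra hcon
    push Not at hcon
    exact hx (hjs x hcon.le)
  have hjc : HasCompactSupport j := pb_cpt_ball hs
  obtain ⟨χ, hχ, hχ1, hχ2, hχs⟩ := pb_cutoff L
  have hχc : HasCompactSupport χ :=
    (pb_box_compact 1 (L - 1)).of_isClosed_subset (isClosed_tsupport χ) hχs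
  -- bounds for the cutoff
  obtain ⟨X, hX0, hX1, hX2⟩ : ∃ X : ℝ, 0 ≤ X ∧ (∀ x k, |fderiv ℝ χ x (pbe k)| ≤ X) ∧
      ∀ x, |lap χ x| ≤ X := by
    have h1 : ∀ k : Fin 3, ∃ C, ∀ x, ‖fderiv ℝ χ x (pbe k)‖ ≤ C := fun k =>
      (pb_fd_smooth hχ (pbe k)).continuous.bounded_above_of_compact_support
        (pb_cpt_of hχc (pb_fd_tsupp χ _))
    choose C hC using h1
    obtain ⟨C', hC'⟩ := (pb_lap_smooth hχ).continuous.bounded_above_of_compact_support
        (pb_cpt_of hχc (pb_lap_tsupp χ))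
    have p : ∀ k, 0 ≤ C k := fun k => (norm_nonneg _).trans (hC k 0)
    have p' : 0 ≤ C' := (norm_nonneg _).trans (hC' 0)
    refine ⟨C 0 + C 1 + C 2 + C', by linarith [p 0, p 1, p 2], fun x k => ?_, fun x => ?_⟩
    · have := hC k x
      rw [Real.norm_eq_abs] at this
      fin_cases k
      · simp only [Fin.zero_eta, Fin.isValue] at this ⊢
        linarith [p 0, p 1, p 2]
      · simp only [Fin.mk_one, Fin.isValue] at this ⊢
        linarith [p 0, p 1, p 2]
      · simp only [Fin.reduceFinMk, Fin.isValue] at this ⊢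
        linarith [p 0, p 1, p 2]
    · have := hC' x
      rw [Real.norm_eq_abs] at this
      linarith [p 0, p 1, p 2]
  -- constants
  obtain ⟨q, hq⟩ : ∃ q : (E3 → ℝ) → ℝ, q = fun h => DD (fun y => h (-y)) (fun y => h (-y)) := ⟨_, rfl⟩
  obtain ⟨J, hJ0, hJj, hJk, hJl⟩ : ∃ J : ℝ, 0 ≤ J ∧ √(4 * q j) ≤ J ∧
      (∀ k, √(q (fun z => fderiv ℝ j z (pbe k))) ≤ J) ∧ √(q (lap j)) ≤ J := by
    have p : ∀ t : ℝ, 0 ≤ √t := Real.sqrt_nonneg
    refine ⟨√(4 * q j) + √(q (fun z => fderiv ℝ j z (pbe 0))) + √(q (fun z => fderiv ℝ j z (pbe 1)))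
      + √(q (fun z => fderiv ℝ j z (pbe 2))) + √(q (lap j)), by positivity, ?_, ?_, ?_⟩
    · linarith [p (4 * q j), p (q (fun z => fderiv ℝ j z (pbe 0))), p (q (fun z => fderiv ℝ j z (pbe 1))),
        p (q (fun z => fderiv ℝ j z (pbe 2))), p (q (lap j))]
    · intro k
      fin_cases k
      · simp only [Fin.zero_eta, Fin.isValue]
        linarith [p (4 * q j), p (q (fun z => fderiv ℝ j z (pbe 0))), p (q (fun z => fderiv ℝ j z (pbe 1))),
          p (q (fun z => fderiv ℝ j z (pbe 2))), p (q (lap j))]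
      · simp only [Fin.mk_one, Fin.isValue]
        linarith [p (4 * q j), p (q (fun z => fderiv ℝ j z (pbe 0))), p (q (fun z => fderiv ℝ j z (pbe 1))),
          p (q (fun z => fderiv ℝ j z (pbe 2))), p (q (lap j))]
      · simp only [Fin.reduceFinMk, Fin.isValue]
        linarith [p (4 * q j), p (q (fun z => fderiv ℝ j z (pbe 0))), p (q (fun z => fderiv ℝ j z (pbe 1))),
          p (q (fun z => fderiv ℝ j z (pbe 2))), p (q (lap j))]
    · linarith [p (4 * q j), p (q (fun z => fderiv ℝ j z (pbe 0))), p (q (fun z => fderiv ℝ j z (pbe 1))),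
        p (q (fun z => fderiv ℝ j z (pbe 2))), p (q (lap j))]
  obtain ⟨V, hV⟩ : ∃ V : ℝ, V = volume.real (pbB 1 (L - 1)) := ⟨_, rfl⟩
  have hV0 : 0 ≤ V := by rw [hV]; exact measureReal_nonneg
  obtain ⟨A1, hA1⟩ : ∃ A1 : ℝ, A1 = c⁻¹ * ((7 * X + 1) * J) := ⟨_, rfl⟩
  have hA10 : 0 ≤ A1 := by rw [hA1]; positivity
  obtain ⟨B1, hB1⟩ : ∃ B1 : ℝ, B1 = √(2 * (I + 1) + 2 * q j) := ⟨_, rfl⟩
  have hB10 : 0 ≤ B1 := by rw [hB1]; exact Real.sqrt_nonneg _
  refine ⟨1 + B1 + 3 * (A1 * J * V), by positivity, fun δ hδ hδ1 => ?_⟩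
  have hδ2 : δ ^ 2 ≤ δ := by nlinarith
  obtain ⟨f, hf, hfI⟩ := hmin (δ ^ 2) (by positivity)
  have hfc := hf.1.continuous
  have hfk := hf.2.1
  obtain ⟨hVVc, _⟩ := VV_cont f hfc hfk
  obtain ⟨hFc, hFk, hF1, hFV, hFD, hFs⟩ := cv_facts j f hj.continuous.measurable hj0
    (by
      obtain ⟨B, hB⟩ := hj.continuous.bounded_above_of_compact_support hjc
      exact ⟨B, fun z => (le_abs_self _).trans (hB z)⟩)
    (1 / 2) (fun z hz => by
      by_contra hcon
      push Not at hcon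
      exact hz (hjs z hcon)) hj1 hfc hfk
  obtain ⟨hFsm, _, _⟩ := cv_smooth j f hj hjc hfc
  obtain ⟨husm, hulap, huk⟩ := cv_smooth j (VV f) hj hjc hVVc
  obtain ⟨u, hu⟩ : ∃ u : E3 → ℝ, u = cv j (VV f) := ⟨_, rfl⟩
  obtain ⟨F, hF⟩ : ∃ F : E3 → ℝ, F = cv j f := ⟨_, rfl⟩
  rw [← hF] at hFc hFk hF1 hFV hFD hFs hFsm
  rw [← hu] at husm hulap huk
  have hx0 : Metric.closedBall (pbc L) (1 / 2) ⊆ cube L :=
    (Metric.closedBall_subset_closedBall (by linarith)).trans (pbc_ball (by linarith))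
  obtain ⟨a, ha⟩ : ∃ a : ℝ, a = u (pbc L) := ⟨_, rfl⟩
  -- estimates for u
  have hδ0 : 0 ≤ δ := hδ.le
  have u1 : ∀ x ∈ pbB 1 (L - 1), |u x - a| ≤ δ * J := by
    intro x hx
    rw [ha, hu]
    refine (pb_boundj hI hf hfI hδ0 hj hs (pb_ball_cube hx) hx0).trans ?_
    apply mul_le_mul_of_nonneg_left _ hδ0
    rw [hq] at hJj
    exact hJj
  have u2 : ∀ x ∈ pbB 1 (L - 1), ∀ k, |fderiv ℝ u x (pbe k)| ≤ δ * J := by
    intro x hx k
    rw [huk k x]
    refine (pb_bound0 hI hf hfI hδ0 (pb_fd_smooth hj _) ((pb_fd_tsupp j _).trans hs)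
      (pb_int_fderiv j hj hjc _) (pb_ball_cube hx)).trans ?_
    apply mul_le_mul_of_nonneg_left _ hδ0
    have := hJk k
    rw [hq] at this
    exact this
  have u3 : ∀ x ∈ pbB 1 (L - 1), |lap u x| ≤ δ * J := by
    intro x hx
    rw [hulap x]
    refine (pb_bound0 hI hf hfI hδ0 (pb_lap_smooth hj) ((pb_lap_tsupp j).trans hs)
      (hnewt j hj hjc).2 (pb_ball_cube hx)).trans ?_
    apply mul_le_mul_of_nonneg_left _ hδ0
    rw [hq] at hJl
    exact hJl
  have ulap : ∀ x, lap u x = -c * F x := by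
    intro x
    rw [hu, hF]
    exact pb_lapu hc hnewt hj hs hf.1 hfk x
  -- the correction
  obtain ⟨w, hw⟩ : ∃ w : E3 → ℝ, w = fun z => u z - a := ⟨_, rfl⟩
  have hwsm : ContDiff ℝ SM w := by rw [hw]; exact husm.sub contDiff_const
  obtain ⟨p, hp⟩ : ∃ p : E3 → ℝ, p = fun z => χ z * w z := ⟨_, rfl⟩
  have hpsm : ContDiff ℝ SM p := by rw [hp]; exact hχ.mul hwsm
  have hpk : HasCompactSupport p := by rw [hp]; exact hχc.mul_right
  have hps : tsupport p ⊆ pbB 1 (L - 1) := by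
    refine subset_trans ?_ hχs
    rw [hp]
    exact tsupport_mul_subset_left
  have wlap : ∀ x, lap w x = lap u x := by
    intro x
    rw [hw]
    exact pb_lap_sub_const u a x
  have wk : ∀ x k, fderiv ℝ w x (pbe k) = fderiv ℝ u x (pbe k) := by
    intro x k
    rw [hw]
    exact pb_fd_sub_const u a x _
  obtain ⟨P, hP⟩ : ∃ P : E3 → ℝ, P = fun z => -c⁻¹ * lap p z := ⟨_, rfl⟩
  have hPsm : ContDiff ℝ SM P := by rw [hP]; exact contDiff_const.mul (pb_lap_smooth hpsm)
  have hPs : tsupport P ⊆ tsupport p := by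
    apply closure_minimal _ (isClosed_tsupport p)
    intro x hx
    rw [Function.mem_support, hP] at hx
    apply pb_lap_tsupp p
    apply subset_closure
    rw [Function.mem_support]
    intro h0
    apply hx
    simp only
    rw [h0, mul_zero]
  have hPk : HasCompactSupport P := pb_cpt_of hpk hPs
  have hVP : ∀ x, VV P x = p x := by
    intro x
    unfold VV
    rw [(hnewt p hpsm hpk).1 x, ← integral_const_mul, hP]
    congr 1
    funext y
    rw [norm_sub_rev]
    ring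
  have hP0 : ∫ x, P x = 0 := by
    rw [hP, integral_const_mul, (hnewt p hpsm hpk).2, mul_zero]
  have hPz : ∀ x, x ∉ pbB 1 (L - 1) → P x = 0 := by
    intro x hx
    by_contra hcon
    exact hx (hps (hPs (subset_closure hcon)))
  have hPb : ∀ x ∈ pbB 1 (L - 1), |P x| ≤ A1 * δ := by
    intro x hx
    rw [hP]
    simp only
    rw [abs_mul, abs_neg, abs_of_nonneg (inv_nonneg.2 hc.le), hA1, mul_assoc c⁻¹]
    apply mul_le_mul_of_nonneg_left _ (inv_nonneg.2 hc.le)
    rw [hp]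
    refine (pb_lapP (J := δ * J) hχ hwsm hX0 ?_ (hX1 x) (hX2 x) ?_ ?_ ?_).trans (le_of_eq (by ring))
    · rw [abs_of_nonneg (hχ1 x).1]; exact (hχ1 x).2
    · rw [hw]; exact u1 x hx
    · intro k
      rw [wk]; exact u2 x hx k
    · rw [wlap]; exact u3 x hx
  have hpb : ∀ x ∈ pbB 1 (L - 1), |p x| ≤ J * δ := by
    intro x hx
    rw [hp]
    simp only
    rw [abs_mul, abs_of_nonneg (hχ1 x).1]
    have h1 : |w x| ≤ δ * J := by rw [hw]; exact u1 x hx
    calc χ x * |w x| ≤ 1 * (δ * J) := mul_le_mul (hχ1 x).2 h1 (abs_nonneg _) zero_le_one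
      _ = J * δ := by ring
  have hwb : ∀ x ∈ pbB 1 (L - 1), |w x| ≤ J * δ := by
    intro x hx
    rw [hw]
    refine (u1 x hx).trans (le_of_eq (by ring))
  -- the energies
  have ePP : |DD P P| ≤ A1 * J * V * δ ^ 2 := by
    unfold DD
    simp_rw [hVP]
    refine (pb_box_int (L := L) (mul_nonneg hA10 hδ0) hPz hPb hpb).trans (le_of_eq ?_)
    rw [hV]; ring
  have ePF : |DD P F| ≤ A1 * J * V * δ ^ 2 := by
    have e1 : DD P F = ∫ x, P x * w x := by
      unfold DD
      have e2 : ∀ x, P x * VV F x = P x * w x + a * P x := by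
        intro x
        rw [hFV x, ← hu, hw]
        ring
      simp_rw [e2]
      rw [integral_add, integral_const_mul, hP0, mul_zero, add_zero]
      · exact (hPsm.continuous.mul hwsm.continuous).integrable_of_hasCompactSupport hPk.mul_right
      · exact (hPsm.continuous.integrable_of_hasCompactSupport hPk).const_mul a
    rw [e1]
    refine (pb_box_int (L := L) (mul_nonneg hA10 hδ0) hPz hPb hwb).trans (le_of_eq ?_)
    rw [hV]; ring
  have eff : |DD f f - a| ≤ B1 * δ := by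
    have t2 := pb_tsupp_refl j (pbc L) hs
    have c2 := (pb_refl_smooth hj (pbc L)).continuous
    have k2 := pb_cpt_ball t2
    have e : DD f f - a = DD (fun y => 1 * f y + (-1) * j (pbc L - y)) f := by
      rw [DD_lin _ _ f hfc hfk c2 k2 hfc hfk, ha, hu, pb_cvDD]
      ring
    rw [e]
    have hN : pbN L (fun y => 1 * f y + (-1) * j (pbc L - y)) := by
      refine ⟨pb_lin_smooth hf.1 (pb_refl_smooth hj _) _ _,
        pb_lin_cpt hfk k2 _ _, pb_lin_tsupp hf.2.2.1 (t2.trans hx0) _ _, ?_⟩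
      rw [pb_lin_int hfc hfk c2 k2, pb_int_refl, hf.2.2.2, hj1]
      ring
    refine (pb_orth hI hf hfI hδ0 hN).trans ?_
    rw [mul_comm]
    apply mul_le_mul_of_nonneg_right _ hδ0
    rw [hB1]
    apply Real.sqrt_le_sqrt
    refine (pb_DD_diff hfc hfk c2 k2).trans ?_
    rw [pb_DD_refl, hq]
    simp only
    linarith
  refine ⟨fun y => 1 * F y + (-1) * P y, a, pb_lin_smooth hFsm hPsm _ _,
    pb_lin_cpt hFk hPk _ _, ?_, ?_, ?_, ?_, ?_⟩
  · intro x hx
    constructor
    · by_cases hP' : P x = 0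
      · have hF' : F x ≠ 0 := by
          intro h0
          apply hx
          change 1 * F x + (-1) * P x = 0
          rw [h0, hP']; ring
        obtain ⟨y, hy, hxy⟩ := hFs x hF'
        have hyQ : y ∈ cube L := hf.2.2.1 (subset_closure hy)
        intro k
        have h1 := (pb_coord_le (x - y) k).trans hxy.le
        rw [PiLp.sub_apply, abs_le] at h1
        have h2 := hyQ k
        constructor <;> linarith [h1.1, h1.2, h2.1, h2.2]
      · have h1 : x ∈ pbB 1 (L - 1) := by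
          by_contra hcon
          exact hP' (hPz x hcon)
        intro k
        have h2 := h1 k
        constructor <;> linarith [h2.1, h2.2]
    · intro hin
      apply hx
      have hloc : p =ᶠ[nhds x] w := by
        have hopen : IsOpen {z : E3 | ∀ k, 2 < z k ∧ z k < L - 2} := by
          have : {z : E3 | ∀ k, 2 < z k ∧ z k < L - 2} = ⋂ k : Fin 3, {z : E3 | 2 < z k ∧ z k < L - 2} := by
            ext z; simp
          rw [this]
          refine isOpen_iInter_of_finite fun k => ?_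
          have hk : Continuous fun x : E3 => x k := by fun_prop
          exact (isOpen_lt continuous_const hk).inter (isOpen_lt hk continuous_const)
        filter_upwards [hopen.mem_nhds hin] with z hz
        rw [hp]
        simp only
        rw [hχ2 z fun k => ⟨(hz k).1.le, (hz k).2.le⟩, one_mul]
      have h1 : P x = F x := by
        rw [hP]
        simp only
        rw [pb_lap_congr hloc, wlap, ulap]
        field_simp
      change 1 * F x + (-1) * P x = 0
      rw [h1]; ring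
  · rw [pb_lin_int hFc hFk hPsm.continuous hPk, hF1, hf.2.2.2, hP0]
    ring
  · intro x hx
    rw [VV_lin F P hFc hFk hPsm.continuous hPk 1 (-1) x, hVP, hFV x, ← hu, hp]
    simp only
    rw [hχ2 x hx, hw]
    ring
  · rw [pb_DD_sq hFc hFk hPsm.continuous hPk]
    have h1 := (abs_le.1 ePP).2
    have h2 := (abs_le.1 ePF).1
    have h3 := (abs_le.1 eff).2
    have h4 : A1 * J * V * δ ^ 2 ≤ A1 * J * V * δ :=
      mul_le_mul_of_nonneg_left hδ2 (by positivity)
    have h5 : 0 ≤ δ := hδ0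
    nlinarith [h1, h2, h3, h4, hFD]
  · have h3 := (abs_le.1 eff).1
    have h6 : 0 ≤ A1 * J * V * δ := by positivity
    nlinarith [h3, hfI, hδ2, h6]

/-- TARGET -/
theorem shell_charge : ∃ C : ℝ, 0 < C ∧ ∀ (L ε : ℝ), 20 ≤ L → 0 < ε → ∃ (G : E3 → ℝ) (a : ℝ),
    ContDiff ℝ SM G ∧ HasCompactSupport G ∧
    (∀ x, G x ≠ 0 → (∀ k, -1 < x k ∧ x k < L + 1) ∧ ¬ ∀ k, 2 < x k ∧ x k < L - 2) ∧
    ∫ x, G x = 1 ∧ (∀ x, (∀ k, 2 ≤ x k ∧ x k ≤ L - 2) → VV G x = a) ∧
    DD G G ≤ a + ε ∧ a ≤ C / L := by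
  obtain ⟨C, hC, hmin⟩ := pb_min
  obtain ⟨c, hc, hnewt⟩ := newt
  obtain ⟨j, b, l, hK⟩ := ker_exists
  refine ⟨C + 1, by linarith, fun L ε hL hε => ?_⟩
  obtain ⟨I, hI0, hIC, hI, hIf⟩ := hmin L hL
  obtain ⟨M, hM, hcore⟩ := pb_core hc hnewt hK.a_smooth hK.a_nonneg hK.a_supp hK.a_int hL hI0 hI hIf
  have hL0 : 0 < L := by linarith
  have hm : 0 < min 1 (min ε (1 / L) / (M + 1)) := by
    apply lt_min one_pos
    apply div_pos _ (by linarith)
    exact lt_min hε (by positivity)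
  obtain ⟨G, a, h1, h2, h3, h4, h5, h6, h7⟩ := hcore _ hm (min_le_left _ _)
  have hb : M * min 1 (min ε (1 / L) / (M + 1)) ≤ min ε (1 / L) := by
    have hp : 0 ≤ min ε (1 / L) := (lt_min hε (by positivity)).le
    calc M * min 1 (min ε (1 / L) / (M + 1)) ≤ M * (min ε (1 / L) / (M + 1)) :=
          mul_le_mul_of_nonneg_left (min_le_right _ _) hM
      _ = (M / (M + 1)) * min ε (1 / L) := by ring
      _ ≤ 1 * min ε (1 / L) := by
          apply mul_le_mul_of_nonneg_right _ hp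
          rw [div_le_one (by linarith)]; linarith
      _ = _ := one_mul _
  refine ⟨G, a, h1, h2, h3, h4, h5, ?_, ?_⟩
  · exact h6.trans (by linarith [hb.trans (min_le_left _ _)])
  · have := hb.trans (min_le_right _ _)
    have e : (C + 1) / L = C / L + 1 / L := by ring
    rw [e]
    linarith

end Pool.Agent.Helper780_CP.RPB
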