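import Pool.Agent.Helper780_CP.LLDefs2
import Pool.Agent.Helper780_CP.RPB
import Pool.Agent.Helper780_CP.RD1
import Pool.Agent.Helper780_CP.RD2

set_option autoImplicit false

open MeasureTheory

namespace Pool.Agent.Helper780_CP.RPC

open Pool.Agent.Helper780_CP
open Pool.Agent.Helper985.CP
open Pool.Agent.Helper780_CP.RPB (shell_charge)
open Pool.Agent.Helper780_CP.RD1 (VV_cont DD_symm DD_lin DD_nonneg DD_fdl)
open Pool.Agent.Helper780_CP.RD2 (cv_facts bi_facts DD_translate DD_scale)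

open Pool.Agent.Helper985.CP

/-- a closed box -/
def bx (lo hi : Fin 3 → ℝ) : Set E3 := {x | ∀ k, lo k ≤ x k ∧ x k ≤ hi k}

theorem bx_eq (lo hi : Fin 3 → ℝ) : bx lo hi = (WithLp.ofLp : E3 → (Fin 3 → ℝ)) ⁻¹' (Set.Icc lo hi) := by
  ext x
  simp only [bx, Set.mem_ofPred_eq, Set.mem_preimage, Set.mem_Icc, Pi.le_def]
  exact forall_and

theorem bx_meas (lo hi : Fin 3 → ℝ) : MeasurableSet (bx lo hi) := by
  rw [bx_eq]
  exact (PiLp.volume_preserving_ofLp (Fin 3)).measurable measurableSet_Icc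

theorem bx_vol (lo hi : Fin 3 → ℝ) : volume (bx lo hi) = ∏ k, ENNReal.ofReal (hi k - lo k) := by
  rw [bx_eq, (PiLp.volume_preserving_ofLp (Fin 3)).measure_preimage measurableSet_Icc.nullMeasurableSet,
    Real.volume_Icc_pi]

/-- the layer -/
def lay (L α : ℝ) : Set E3 := ⋃ k : Fin 3,
  (bx (Function.update (fun _ => 0) k α) (Function.update (fun _ => L) k (α + 6)) ∪
    bx (Function.update (fun _ => 0) k (L - α - 6)) (Function.update (fun _ => L) k (L - α)))

theorem lay_meas (L α : ℝ) : MeasurableSet (lay L α) :=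
  MeasurableSet.iUnion fun _ => (bx_meas _ _).union (bx_meas _ _)

theorem lay_vol (L α : ℝ) (hL : 0 < L) : volume (lay L α) ≤ ENNReal.ofReal (36 * L ^ 2) := by
  have h1 : ∀ k : Fin 3, ∀ α β : ℝ, β - α = 6 →
      volume (bx (Function.update (fun _ => 0) k α) (Function.update (fun _ => L) k β)) =
        ENNReal.ofReal (6 * L ^ 2) := by
    intro k α β h
    have e : ENNReal.ofReal (6 * L ^ 2) = ENNReal.ofReal 6 * ENNReal.ofReal L * ENNReal.ofReal L := by
      rw [← ENNReal.ofReal_mul (by norm_num), ← ENNReal.ofReal_mul (by positivity)]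
      congr 1
      ring
    rw [bx_vol, Fin.prod_univ_three, e]
    fin_cases k <;> simp [Function.update, h] <;> ring
  unfold lay
  refine (measure_iUnion_le _).trans ?_
  rw [tsum_fintype]
  have h2 : ∀ k ∈ (Finset.univ : Finset (Fin 3)),
      volume (bx (Function.update (fun _ => 0) k α) (Function.update (fun _ => L) k (α + 6)) ∪
        bx (Function.update (fun _ => 0) k (L - α - 6)) (Function.update (fun _ => L) k (L - α))) ≤
      ENNReal.ofReal (12 * L ^ 2) := by
    intro k _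
    refine (measure_union_le _ _).trans ?_
    rw [h1 k α (α + 6) (by ring), h1 k (L - α - 6) (L - α) (by ring), ← ENNReal.ofReal_add (by positivity) (by positivity)]
    apply le_of_eq
    congr 1
    ring
  refine (Finset.sum_le_sum h2).trans ?_
  rw [Finset.sum_const, Finset.card_univ, Fintype.card_fin, ← ENNReal.ofReal_nsmul]
  apply le_of_eq
  congr 1
  simp
  ring

theorem lay_mem (L α : ℝ) (x : E3) (h0 : ∀ k, α ≤ x k ∧ x k ≤ L - α) (hα : 0 ≤ α)
    (h1 : ¬ ∀ k, α + 6 ≤ x k ∧ x k ≤ L - α - 6) : x ∈ lay L α := by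
  push Not at h1
  obtain ⟨k, hk⟩ := h1
  unfold lay
  rw [Set.mem_iUnion]
  refine ⟨k, ?_⟩
  by_cases h2 : α + 6 ≤ x k
  · right
    intro j
    by_cases hj : j = k
    · subst hj
      rw [Function.update_self, Function.update_self]
      exact ⟨by linarith [hk h2], (h0 j).2⟩
    · rw [Function.update_of_ne hj, Function.update_of_ne hj]
      exact ⟨by linarith [(h0 j).1], by linarith [(h0 j).2]⟩
  · left
    push Not at h2
    intro j
    by_cases hj : j = k
    · subst hj
      rw [Function.update_self, Function.update_self]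
      exact ⟨(h0 j).1, by linarith⟩
    · rw [Function.update_of_ne hj, Function.update_of_ne hj]
      exact ⟨by linarith [(h0 j).1], by linarith [(h0 j).2]⟩

theorem l1_bound (f : E3 → ℝ) (hf : Continuous f) (hc : HasCompactSupport f) (L α K : ℝ) (hL : 0 < L)
    (hα : 0 ≤ α)
    (hS : ∀ x, f x ≠ 0 → (∀ k, α ≤ x k ∧ x k ≤ L - α) ∧ ¬ ∀ k, α + 6 ≤ x k ∧ x k ≤ L - α - 6)
    (h2 : ∫ x, f x ^ 2 ≤ K / L ^ 2) : ∫ x, |f x| ≤ 18 + K := by
  have hvol := lay_vol L α hL
  have hfin : volume (lay L α) ≠ ⊤ := (lt_of_le_of_lt hvol ENNReal.ofReal_lt_top).ne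
  have hvr : volume.real (lay L α) ≤ 36 * L ^ 2 := by
    rw [Measure.real]
    exact ENNReal.toReal_le_of_le_ofReal (by positivity) hvol
  have hi1 : Integrable (fun x => |f x|) := (hf.abs).integrable_of_hasCompactSupport hc.abs
  have hc2 : HasCompactSupport (fun x => f x ^ 2) := by
    have : (fun x => f x ^ 2) = fun x => f x * f x := by
      ext x; ring
    rw [this]
    exact hc.mul_left
  have hi2 : Integrable (fun x => f x ^ 2) := (hf.pow 2).integrable_of_hasCompactSupport hc2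
  have hi3 : Integrable ((lay L α).indicator (fun _ => (1 : ℝ))) :=
    (integrable_indicator_iff (lay_meas L α)).2 (integrableOn_const hfin)
  have hpt : ∀ x, |f x| ≤ (1 / 2) * ((L ^ 2)⁻¹ * (lay L α).indicator (fun _ => (1 : ℝ)) x + L ^ 2 * f x ^ 2) := by
    intro x
    by_cases hx : f x = 0
    · rw [hx, abs_zero]
      have : 0 ≤ (lay L α).indicator (fun _ => (1 : ℝ)) x := Set.indicator_nonneg (fun _ _ => zero_le_one) x
      positivity
    · obtain ⟨a1, a2⟩ := hS x hx
      rw [Set.indicator_of_mem (lay_mem L α x a1 hα a2), ← sq_abs (f x)]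
      have h3 : 0 < L ^ 2 := by positivity
      have h4 : 0 ≤ (L⁻¹ - L * |f x|) ^ 2 := sq_nonneg _
      have h5 : (L⁻¹ - L * |f x|) ^ 2 = (L ^ 2)⁻¹ - 2 * |f x| + L ^ 2 * |f x| ^ 2 := by
        field_simp
        ring
      linarith
  have h6 := integral_mono hi1 (((hi3.const_mul _).add (hi2.const_mul _)).const_mul _) hpt
  refine h6.trans ?_
  rw [integral_const_mul]
  simp only [Pi.add_apply]
  rw [integral_add (hi3.const_mul _) (hi2.const_mul _), integral_const_mul, integral_const_mul,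
    integral_indicator (lay_meas L α), setIntegral_const, smul_eq_mul, mul_one]
  have h7 : (L ^ 2)⁻¹ * volume.real (lay L α) ≤ 36 := by
    rw [inv_mul_le_iff₀ (by positivity)]
    linarith
  have h8 : L ^ 2 * ∫ x, f x ^ 2 ≤ K := by
    rw [le_div_iff₀ (by positivity)] at h2
    linarith
  have h9 : 0 ≤ K := by
    have : 0 ≤ ∫ x, f x ^ 2 := integral_nonneg fun _ => sq_nonneg _
    have := mul_nonneg (sq_nonneg L) this
    linarith
  linarith

set_option maxHeartbeats 4000000 in
/-- TARGET -/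
theorem shell_pair : ∃ C L0 : ℝ, 0 < C ∧ 0 < L0 ∧ ∀ L : ℝ, L0 ≤ L →
    ∃ (G M : E3 → ℝ) (a : ℝ), Continuous G ∧ HasCompactSupport G ∧ Continuous M ∧
    HasCompactSupport M ∧ ∫ x, G x = 1 ∧ ∫ x, M x = 1 ∧
    (∀ x, G x ≠ 0 → (∀ k, 1 < x k ∧ x k < L - 1) ∧ ¬ ∀ k, 6 ≤ x k ∧ x k ≤ L - 6) ∧
    (∀ x, M x ≠ 0 → (∀ k, 10 < x k ∧ x k < L - 10) ∧ ¬ ∀ k, 16 ≤ x k ∧ x k ≤ L - 16) ∧
    (∀ x, (∀ k, 6 ≤ x k ∧ x k ≤ L - 6) → VV G x = a) ∧
    DD (fun x => G x - M x) (fun x => G x - M x) ≤ C / L ^ 2 ∧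
    ∫ x, G x ^ 2 ≤ C / L ^ 2 ∧ ∫ x, M x ^ 2 ≤ C / L ^ 2 ∧ ∫ x, |G x| ≤ C ∧ ∫ x, |M x| ≤ C := by
  obtain ⟨C1, hC1, hsc⟩ := shell_charge
  obtain ⟨c, hc, hfdl⟩ := DD_fdl
  set v0 := volume.real (Metric.ball (0 : E3) (1 / 2)) with hv0
  have hv0p : 0 < v0 := by
    rw [hv0, Measure.real]
    exact ENNReal.toReal_pos (Metric.measure_ball_pos _ _ (by norm_num)).ne' measure_ball_lt_top.ne
  set K : ℝ := 80 * C1 + 3 with hK
  have hKp : 0 < K := by positivity
  set K2 : ℝ := (v0⁻¹) ^ 2 * (3 * (K / c)) with hK2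
  have hK2p : 0 < K2 := by positivity
  refine ⟨K + K2 + 18, 100, by positivity, by norm_num, fun L hL => ?_⟩
  have hL0 : 0 < L := by linarith
  obtain ⟨G0, a, hG0s, hG0c, hG0supp, hG0int, hG0V, hG0D, haC⟩ := hsc (L - 6) (1 / L ^ 2) (by linarith) (by positivity)
  have hG0cont : Continuous G0 := hG0s.continuous
  -- the shifted charge
  set G1 : E3 → ℝ := fun y => G0 (y - dv 3) with hG1
  have hdv : ∀ (t : ℝ) (k : Fin 3), dv t k = t := fun t k => rfl
  have hG1cont : Continuous G1 := hG0cont.comp (continuous_id.sub continuous_const)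
  have hG1c : HasCompactSupport G1 := hG0c.comp_homeomorph (Homeomorph.subRight (dv 3))
  have hG1int : ∫ x, G1 x = 1 := by
    rw [hG1, integral_sub_right_eq_self (μ := volume) G0 (dv 3)]
    exact hG0int
  have hG1supp : ∀ x, G1 x ≠ 0 → (∀ k, 2 < x k ∧ x k < L - 2) ∧ ¬ ∀ k, 5 < x k ∧ x k < L - 5 := by
    intro x hx
    obtain ⟨b1, b2⟩ := hG0supp _ hx
    refine ⟨fun k => ?_, fun h => b2 fun k => ?_⟩
    · have := b1 k
      rw [PiLp.sub_apply, hdv] at this
      constructor <;> linarith [this.1, this.2]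
    · have := h k
      rw [PiLp.sub_apply, hdv]
      constructor <;> linarith [this.1, this.2]
  obtain ⟨htV, htD⟩ := DD_translate G0 G0 (dv 3)
  have hG1V : ∀ x, (∀ k, 5 ≤ x k ∧ x k ≤ L - 5) → VV G1 x = a := by
    intro x hx
    rw [hG1, htV x]
    apply hG0V
    intro k
    have := hx k
    rw [PiLp.sub_apply, hdv]
    constructor <;> linarith [this.1, this.2]
  have hG1D : DD G1 G1 ≤ a + 1 / L ^ 2 := by
    rw [hG1, htD]
    exact hG0D
  -- the scaled charge
  set t : ℝ := 1 - 20 / L with ht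
  have h20 : 20 / L ≤ 1 / 5 := by
    rw [div_le_div_iff₀ hL0 (by norm_num)]
    linarith
  have htp : 4 / 5 ≤ t := by linarith
  have ht1 : t < 1 := by
    have : 0 < 20 / L := by positivity
    linarith
  have htL : t * L = L - 20 := by
    rw [ht]
    field_simp
  set s : ℝ := t⁻¹ with hs
  have hsp : 0 < s := by positivity
  have hts : t * s = 1 := mul_inv_cancel₀ (by linarith)
  set v : E3 := dv ((s - 1) * (L / 2)) with hv
  set M1 : E3 → ℝ := fun y => s ^ 3 * (fun y => G1 (y - v)) (s • y) with hM1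
  have hM1cont : Continuous M1 :=
    continuous_const.mul (hG1cont.comp (by fun_prop : Continuous fun y : E3 => s • y - v))
  have hM1c : HasCompactSupport M1 := by
    have e1 : HasCompactSupport (fun y => G1 (y - v)) := hG1c.comp_homeomorph (Homeomorph.subRight v)
    have e2 : HasCompactSupport (fun y => (fun y => G1 (y - v)) (s • y)) :=
      e1.comp_smul hsp.ne'
    exact e2.mul_left
  have hM1int : ∫ x, M1 x = 1 := by
    rw [hM1, integral_const_mul, Measure.integral_comp_smul volume (fun y => G1 (y - v)) s,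
      integral_sub_right_eq_self (μ := volume) G1 v, hG1int]
    rw [show Module.finrank ℝ E3 = 3 by simp, abs_of_pos (by positivity), smul_eq_mul, mul_one]
    exact mul_inv_cancel₀ (by positivity)
  have hM1supp : ∀ x, M1 x ≠ 0 → (∀ k, 11 < x k ∧ x k < L - 11) ∧ ¬ ∀ k, 15 ≤ x k ∧ x k ≤ L - 15 := by
    intro x hx
    have hx2 : G1 (s • x - v) ≠ 0 := by
      intro h0
      apply hx
      rw [hM1]
      simp only [h0, mul_zero]
    obtain ⟨b1, b2⟩ := hG1supp _ hx2
    have key : ∀ k, x k = t * (s • x - v) k + 10 := by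
      intro k
      have e1 : (s • x - v) k = s * x k - (s - 1) * (L / 2) := by
        rw [PiLp.sub_apply, PiLp.smul_apply, smul_eq_mul, hv, hdv]
      rw [e1]
      have e2 : t * (s * x k - (s - 1) * (L / 2)) = (t * s) * x k - (t * s) * (L / 2) + (t * L) / 2 := by ring
      rw [e2, hts, htL]
      ring
    refine ⟨fun k => ?_, fun h => b2 fun k => ?_⟩
    · have b3 := b1 k
      have b4 := key k
      constructor
      · nlinarith [b3.1]
      · nlinarith [b3.2]
    · have b3 := h k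
      have b4 := key k
      constructor
      · by_contra hcon
        push Not at hcon
        nlinarith [b3.1]
      · by_contra hcon
        push Not at hcon
        nlinarith [b3.2]
  have hM1D : DD M1 M1 = s * DD G1 G1 := by
    rw [hM1, (DD_scale (fun y => G1 (y - v)) (fun y => G1 (y - v)) s hsp).2, (DD_translate G1 G1 v).2]
  have hMG : DD M1 G1 = a := by
    unfold DD
    have e1 : ∀ x, M1 x * VV G1 x = M1 x * a := by
      intro x
      by_cases hx : M1 x = 0
      · rw [hx, zero_mul, zero_mul]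
      · rw [hG1V x]
        intro k
        have := (hM1supp x hx).1 k
        constructor <;> linarith [this.1, this.2]
    rw [integral_congr_ae (Filter.Eventually.of_forall e1), integral_mul_const, hM1int, one_mul]
  -- the difference
  set d : E3 → ℝ := fun y => 1 * G1 y + (-1) * M1 y with hd
  have hdcont : Continuous d := (continuous_const.mul hG1cont).add (continuous_const.mul hM1cont)
  have hdc : HasCompactSupport d := (hG1c.mul_left).add (hM1c.mul_left)
  have hDd : DD d d ≤ K / L ^ 2 := by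
    have e1 : DD d d = 1 * DD G1 d + (-1) * DD M1 d :=
      DD_lin G1 M1 d hG1cont hG1c hM1cont hM1c hdcont hdc 1 (-1)
    have e2 : DD G1 d = 1 * DD G1 G1 + (-1) * DD M1 G1 := by
      rw [DD_symm G1 d hG1cont hG1c hdcont hdc]
      exact DD_lin G1 M1 G1 hG1cont hG1c hM1cont hM1c hG1cont hG1c 1 (-1)
    have e3 : DD M1 d = 1 * DD G1 M1 + (-1) * DD M1 M1 := by
      rw [DD_symm M1 d hM1cont hM1c hdcont hdc]
      exact DD_lin G1 M1 M1 hG1cont hG1c hM1cont hM1c hM1cont hM1c 1 (-1)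
    have e4 : DD G1 M1 = DD M1 G1 := DD_symm G1 M1 hG1cont hG1c hM1cont hM1c
    rw [e1, e2, e3, e4, hM1D, hMG]
    have e5 : s - 1 = s * (20 / L) := by
      have : s * t = 1 := by rw [mul_comm]; exact hts
      rw [ht] at this
      linarith
    have hs2 : s ≤ 5 / 4 := by
      rw [hs]
      apply inv_le_of_inv_le₀ (by norm_num)
      norm_num
      linarith
    have e6 : s - 1 ≤ 25 / L := by
      rw [e5]
      have : s * (20 / L) ≤ 5 / 4 * (20 / L) := mul_le_mul_of_nonneg_right hs2 (by positivity)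
      refine this.trans (le_of_eq ?_)
      ring
    have e7 : a * (s - 1) ≤ 80 * C1 / L ^ 2 := by
      have e8 : 0 ≤ s - 1 := by rw [e5]; positivity
      have e9 : a ≤ 2 * C1 / L := by
        refine haC.trans ?_
        rw [div_le_div_iff₀ (by linarith) hL0]
        nlinarith
      calc a * (s - 1) ≤ 2 * C1 / L * (s - 1) := mul_le_mul_of_nonneg_right e9 e8
        _ ≤ 2 * C1 / L * (25 / L) := mul_le_mul_of_nonneg_left e6 (by positivity)
        _ = 50 * C1 / L ^ 2 := by
            field_simp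
            ring
        _ ≤ 80 * C1 / L ^ 2 := by
            apply div_le_div_of_nonneg_right _ (by positivity)
            linarith
    have e10 : K / L ^ 2 = 80 * C1 / L ^ 2 + 3 * (1 / L ^ 2) := by
      rw [hK]
      ring
    rw [e10]
    have e11 : 0 < 1 / L ^ 2 := by positivity
    have e12 : s * DD G1 G1 ≤ s * (a + 1 / L ^ 2) := mul_le_mul_of_nonneg_left hG1D hsp.le
    nlinarith
  -- the radius
  obtain ⟨hint, hDDd⟩ := hfdl d hdcont hdc
  set F : ℝ → ℝ := fun r => ∫ w, (∫ x in Metric.ball w r, d x) ^ 2 with hF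
  have hF0 : ∀ r, 0 ≤ F r := fun r => integral_nonneg fun _ => sq_nonneg _
  set T : ℝ := K / c / L ^ 2 with hT
  have hTp : 0 < T := by positivity
  have hIT : ∫ r in Set.Ioi (0 : ℝ), (r ^ 5)⁻¹ * F r ≤ T := by
    have e1 : c * ∫ r in Set.Ioi (0 : ℝ), (r ^ 5)⁻¹ * F r ≤ K / L ^ 2 := by
      rw [← hDDd]
      exact hDd
    have e2 : T = (K / L ^ 2) / c := by
      rw [hT]
      field_simp
    rw [e2, le_div_iff₀ hc, mul_comm]
    exact e1
  obtain ⟨r, hr1, hr2, hFr⟩ : ∃ r : ℝ, 1 / 2 < r ∧ r < 1 ∧ F r ≤ 3 * T := by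
    by_contra hcon
    push Not at hcon
    have hsub : Set.Ioo (1 / 2 : ℝ) 1 ⊆ Set.Ioi 0 := by
      intro x hx
      exact lt_trans (by norm_num) hx.1
    have e1 : ∫ r in Set.Ioo (1 / 2 : ℝ) 1, (r ^ 5)⁻¹ * F r ≤ ∫ r in Set.Ioi (0 : ℝ), (r ^ 5)⁻¹ * F r := by
      apply setIntegral_mono_set hint
      · refine (ae_restrict_iff' measurableSet_Ioi).2 (Filter.Eventually.of_forall fun r hr => ?_)
        have hr' : (0 : ℝ) < r := hr
        exact mul_nonneg (by positivity) (hF0 r)
      · exact hsub.eventuallyLE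
    have e2 : ∫ r in Set.Ioo (1 / 2 : ℝ) 1, 3 * T ≤ ∫ r in Set.Ioo (1 / 2 : ℝ) 1, (r ^ 5)⁻¹ * F r := by
      apply setIntegral_mono_on
      · exact integrableOn_const (by simp)
      · exact hint.mono_set hsub
      · exact measurableSet_Ioo
      · intro r hr
        have e3 := hcon r hr.1 hr.2
        have e4 : 1 ≤ (r ^ 5)⁻¹ := by
          have hr0 : (0 : ℝ) < r := lt_trans (by norm_num) hr.1
          rw [one_le_inv₀ (by positivity)]
          exact pow_le_one₀ hr0.le hr.2.le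
        nlinarith
    rw [setIntegral_const, smul_eq_mul] at e2
    have e3 : volume.real (Set.Ioo (1 / 2 : ℝ) 1) = 1 / 2 := by
      rw [Real.volume_real_Ioo_of_le (by norm_num)]
      norm_num
    rw [e3] at e2
    linarith
  have hr0 : 0 < r := by linarith
  obtain ⟨hbm, hb0, hbB, hbs, hb1, hbf⟩ := bi_facts r hr0
  obtain ⟨gc, gcs, gi, gV, gD, gs⟩ := cv_facts (bi r) G1 hbm hb0 hbB r hbs hb1 hG1cont hG1c
  obtain ⟨mc, mcs, mi, mV, mD, ms⟩ := cv_facts (bi r) M1 hbm hb0 hbB r hbs hb1 hM1cont hM1c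
  obtain ⟨dc, dcs, di, dV, dD, ds⟩ := cv_facts (bi r) d hbm hb0 hbB r hbs hb1 hdcont hdc
  have hcoord : ∀ (z : E3) (k : Fin 3), |z k| ≤ ‖z‖ := fun z k => PiLp.norm_apply_le z k
  have hGsupp : ∀ x, cv (bi r) G1 x ≠ 0 →
      (∀ k, 1 < x k ∧ x k < L - 1) ∧ ¬ ∀ k, 6 ≤ x k ∧ x k ≤ L - 6 := by
    intro x hx
    obtain ⟨y, hy, hxy⟩ := gs x hx
    obtain ⟨b1, b2⟩ := hG1supp y hy
    have b3 : ∀ k, |x k - y k| < 1 := by
      intro k
      have := hcoord (x - y) k
      rw [PiLp.sub_apply] at this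
      linarith
    refine ⟨fun k => ?_, fun h => b2 fun k => ?_⟩
    · have := abs_lt.1 (b3 k)
      have := b1 k
      constructor <;> linarith [(abs_lt.1 (b3 k)).1, (abs_lt.1 (b3 k)).2, (b1 k).1, (b1 k).2]
    · constructor <;> linarith [(abs_lt.1 (b3 k)).1, (abs_lt.1 (b3 k)).2, (h k).1, (h k).2]
  have hMsupp : ∀ x, cv (bi r) M1 x ≠ 0 →
      (∀ k, 10 < x k ∧ x k < L - 10) ∧ ¬ ∀ k, 16 ≤ x k ∧ x k ≤ L - 16 := by
    intro x hx
    obtain ⟨y, hy, hxy⟩ := ms x hx
    obtain ⟨b1, b2⟩ := hM1supp y hy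
    have b3 : ∀ k, |x k - y k| < 1 := by
      intro k
      have := hcoord (x - y) k
      rw [PiLp.sub_apply] at this
      linarith
    refine ⟨fun k => ?_, fun h => b2 fun k => ?_⟩
    · constructor <;> linarith [(abs_lt.1 (b3 k)).1, (abs_lt.1 (b3 k)).2, (b1 k).1, (b1 k).2]
    · constructor <;> linarith [(abs_lt.1 (b3 k)).1, (abs_lt.1 (b3 k)).2, (h k).1, (h k).2]
  have hdisj : ∀ x, cv (bi r) G1 x = 0 ∨ cv (bi r) M1 x = 0 := by
    intro x
    by_contra hcon
    push Not at hcon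
    apply (hGsupp x hcon.1).2
    intro k
    have := (hMsupp x hcon.2).1 k
    constructor <;> linarith [this.1, this.2]
  have hGM : ∀ x, cv (bi r) G1 x - cv (bi r) M1 x = cv (bi r) d x := by
    intro x
    rw [hbf, hbf, hbf, ← mul_sub, ← integral_sub]
    · congr 2
      ext y
      rw [hd]
      ring
    · exact (hG1cont.integrable_of_hasCompactSupport hG1c).integrableOn
    · exact (hM1cont.integrable_of_hasCompactSupport hM1c).integrableOn
  have hint2 : ∫ x, (cv (bi r) d x) ^ 2 ≤ K2 / L ^ 2 := by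
    have e1 : ∫ x, (cv (bi r) d x) ^ 2 = ((volume.real (Metric.ball (0 : E3) r))⁻¹) ^ 2 * F r := by
      rw [hF, ← integral_const_mul]
      congr 1
      ext x
      rw [hbf, mul_pow]
    rw [e1]
    have e2 : v0 ≤ volume.real (Metric.ball (0 : E3) r) :=
      measureReal_mono (Metric.ball_subset_ball hr1.le) measure_ball_lt_top.ne
    have e3 : ((volume.real (Metric.ball (0 : E3) r))⁻¹) ^ 2 ≤ (v0⁻¹) ^ 2 :=
      pow_le_pow_left₀ (inv_nonneg.2 (hv0p.le.trans e2)) (inv_anti₀ hv0p e2) 2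
    calc ((volume.real (Metric.ball (0 : E3) r))⁻¹) ^ 2 * F r ≤ (v0⁻¹) ^ 2 * (3 * T) :=
          mul_le_mul e3 hFr (hF0 r) (by positivity)
      _ = K2 / L ^ 2 := by
          rw [hK2, hT]
          ring
  have hsq : ∀ f : E3 → ℝ, Continuous f → HasCompactSupport f → Integrable (fun x => f x ^ 2) := by
    intro f hf hfc
    have hc2 : HasCompactSupport (fun x => f x ^ 2) := by
      have : (fun x => f x ^ 2) = fun x => f x * f x := by
        ext x; ring
      rw [this]
      exact hfc.mul_left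
    exact (hf.pow 2).integrable_of_hasCompactSupport hc2
  have hG2 : ∫ x, (cv (bi r) G1 x) ^ 2 ≤ K2 / L ^ 2 := by
    refine le_trans (integral_mono (hsq _ gc gcs) (hsq _ dc dcs) fun x => ?_) hint2
    show cv (bi r) G1 x ^ 2 ≤ cv (bi r) d x ^ 2
    rw [← hGM x]
    rcases hdisj x with h0 | h0
    · rw [h0]
      nlinarith [sq_nonneg (cv (bi r) M1 x)]
    · rw [h0, sub_zero]
  have hM2 : ∫ x, (cv (bi r) M1 x) ^ 2 ≤ K2 / L ^ 2 := by
    refine le_trans (integral_mono (hsq _ mc mcs) (hsq _ dc dcs) fun x => ?_) hint2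
    show cv (bi r) M1 x ^ 2 ≤ cv (bi r) d x ^ 2
    rw [← hGM x]
    rcases hdisj x with h0 | h0
    · rw [h0, zero_sub, neg_sq]
    · rw [h0]
      nlinarith [sq_nonneg (cv (bi r) G1 x)]
  have hfun : (fun x => cv (bi r) G1 x - cv (bi r) M1 x) = cv (bi r) d := funext hGM
  have hL2 : 0 < L ^ 2 := by positivity
  refine ⟨cv (bi r) G1, cv (bi r) M1, a, gc, gcs, mc, mcs, gi.trans hG1int, mi.trans hM1int, hGsupp, hMsupp,
    fun x hx => ?_, ?_, ?_, ?_, ?_, ?_⟩
  · rw [gV x]
    unfold cv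
    have e1 : ∀ z, bi r z * VV G1 (x - z) = bi r z * a := by
      intro z
      by_cases hz : bi r z = 0
      · rw [hz, zero_mul, zero_mul]
      · rw [hG1V]
        intro k
        have h1 := hbs z hz
        have h2 := abs_le.1 (hcoord z k)
        rw [PiLp.sub_apply]
        constructor <;> linarith [(hx k).1, (hx k).2, h2.1, h2.2]
    rw [integral_congr_ae (Filter.Eventually.of_forall e1), integral_mul_const, hb1, one_mul]
  · rw [hfun]
    refine (dD.trans hDd).trans ?_
    apply div_le_div_of_nonneg_right _ hL2.le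
    linarith
  · refine hG2.trans ?_
    apply div_le_div_of_nonneg_right _ hL2.le
    linarith
  · refine hM2.trans ?_
    apply div_le_div_of_nonneg_right _ hL2.le
    linarith
  · refine (l1_bound _ gc gcs L 0 K2 hL0 le_rfl (fun x hx => ?_) hG2).trans (by linarith)
    obtain ⟨b1, b2⟩ := hGsupp x hx
    refine ⟨fun k => ⟨by linarith [(b1 k).1], by linarith [(b1 k).2]⟩, fun h => b2 fun k => ?_⟩
    constructor <;> linarith [(h k).1, (h k).2]
  · refine (l1_bound _ mc mcs L 10 K2 hL0 (by norm_num) (fun x hx => ?_) hM2).trans (by linarith)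
    obtain ⟨b1, b2⟩ := hMsupp x hx
    refine ⟨fun k => ⟨by linarith [(b1 k).1], by linarith [(b1 k).2]⟩, fun h => b2 fun k => ?_⟩
    constructor <;> linarith [(h k).1, (h k).2]

end Pool.Agent.Helper780_CP.RPC
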