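import Pool.Agent.Helper780_CP.LLDefs2
import Pool.Agent.Helper780_CP.RD1
import Pool.Agent.Helper780_CP.RPC

set_option autoImplicit false

open MeasureTheory
open scoped Topology

namespace Pool.Agent.Helper780_CP.RLV1

open Pool.Agent.Helper780_CP
open Pool.Agent.Helper985.CP
open Pool.Agent.Helper780_CP.RD1 (VV_cont DD_symm VV_lin DD_lin DD_nonneg DD_cs)
open Pool.Agent.Helper780_CP.RPC (shell_pair)

open Pool.Agent.Helper985.CP

theorem layers_index (p1 p2 p3 p4 : ℕ) (f1 f2 f3 f4 : E3 → ℝ) :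
    ∃ (m : ℕ) (b o : Fin m → Bool) (π : Fin m → E3 → ℝ),
      m = p1 + p2 + p3 + p4 ∧
      (∀ j, (o j = true ∧ (π j = f1 ∨ π j = f2)) ∨ (o j = false ∧ (π j = f3 ∨ π j = f4))) ∧
      ∀ F : Bool → Bool → (E3 → ℝ) → ℝ, ∑ j, F (b j) (o j) (π j) =
        p1 * F true true f1 + p2 * F false true f2 + p3 * F false false f3 +
          p4 * F true false f4 := by
  let ι := (Fin p1 ⊕ Fin p2) ⊕ (Fin p3 ⊕ Fin p4)
  let b' : ι → Bool := Sum.elim (Sum.elim (fun _ => true) (fun _ => false))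
    (Sum.elim (fun _ => false) (fun _ => true))
  let o' : ι → Bool := Sum.elim (Sum.elim (fun _ => true) (fun _ => true))
    (Sum.elim (fun _ => false) (fun _ => false))
  let π' : ι → E3 → ℝ := Sum.elim (Sum.elim (fun _ => f1) (fun _ => f2))
    (Sum.elim (fun _ => f3) (fun _ => f4))
  let e : ι ≃ Fin (Fintype.card ι) := Fintype.equivFin ι
  refine ⟨Fintype.card ι, fun j => b' (e.symm j), fun j => o' (e.symm j),
    fun j => π' (e.symm j), ?_, ?_, ?_⟩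
  · simp only [ι, Fintype.card_sum, Fintype.card_fin]
    ring
  · have key : ∀ i : ι, (o' i = true ∧ (π' i = f1 ∨ π' i = f2)) ∨
        (o' i = false ∧ (π' i = f3 ∨ π' i = f4)) := by
      rintro ((i | i) | (i | i))
      · exact Or.inl ⟨rfl, Or.inl rfl⟩
      · exact Or.inl ⟨rfl, Or.inr rfl⟩
      · exact Or.inr ⟨rfl, Or.inl rfl⟩
      · exact Or.inr ⟨rfl, Or.inr rfl⟩
    exact fun j => key (e.symm j)
  · intro F
    rw [Equiv.sum_comp e.symm (fun i => F (b' i) (o' i) (π' i))]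
    simp only [ι, Fintype.sum_sum_type, b', o', π', Sum.elim_inl, Sum.elim_inr,
      Finset.sum_const, Finset.card_univ, Fintype.card_fin, nsmul_eq_mul]
    ring

theorem layers_dens (G : E3 → ℝ) (hG : Continuous G) (hGc : HasCompactSupport G)
    (hG1 : ∫ x, G x = 1) (t : ℝ) (ht : 1 ≤ t) :
    1 ≤ ∫ x, |G x| ∧
    (Continuous (fun y => (G y + t * |G y|) / (1 + t * ∫ x, |G x|)) ∧
      HasCompactSupport (fun y => (G y + t * |G y|) / (1 + t * ∫ x, |G x|)) ∧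
      (∀ y, 0 ≤ (G y + t * |G y|) / (1 + t * ∫ x, |G x|)) ∧
      (∫ y, (G y + t * |G y|) / (1 + t * ∫ x, |G x|)) = 1 ∧
      ∀ y, (G y + t * |G y|) / (1 + t * ∫ x, |G x|) ≠ 0 → G y ≠ 0) ∧
    (Continuous (fun y => |G y| / ∫ x, |G x|) ∧
      HasCompactSupport (fun y => |G y| / ∫ x, |G x|) ∧
      (∀ y, 0 ≤ |G y| / ∫ x, |G x|) ∧
      (∫ y, |G y| / ∫ x, |G x|) = 1 ∧
      ∀ y, |G y| / ∫ x, |G x| ≠ 0 → G y ≠ 0) := by
  have hi : Integrable G := hG.integrable_of_hasCompactSupport hGc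
  have hg : 1 ≤ ∫ x, |G x| := by
    rw [← hG1]
    exact integral_mono hi hi.abs (fun x => le_abs_self _)
  set g := ∫ x, |G x| with hgdef
  have hpos : 0 < 1 + t * g := by positivity
  refine ⟨hg, ⟨?_, ?_, ?_, ?_, ?_⟩, ⟨?_, ?_, ?_, ?_, ?_⟩⟩
  · fun_prop
  · exact hGc.comp_left (g := fun z => (z + t * |z|) / (1 + t * g)) (by simp)
  · intro y
    have h1 : -|G y| ≤ G y := neg_abs_le _
    have h2 : 0 ≤ (t - 1) * |G y| := mul_nonneg (by linarith) (abs_nonneg _)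
    exact div_nonneg (by nlinarith) hpos.le
  · rw [integral_div, integral_add hi (hi.abs.const_mul t), integral_const_mul, hG1]
    exact div_self hpos.ne'
  · intro y hy h
    exact hy (by simp [h])
  · fun_prop
  · exact hGc.comp_left (g := fun z => |z| / g) (by simp)
  · intro y
    exact div_nonneg (abs_nonneg _) (by linarith)
  · rw [integral_div]
    exact div_self (by linarith)
  · intro y hy h
    exact hy (by simp [h])

theorem layers_VV (c : ℝ) (f : E3 → ℝ) (x : E3) : VV (fun y => c * f y) x = c * VV f x := by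
  unfold VV
  rw [← integral_const_mul]
  congr 1
  funext y
  ring

theorem layers_DD (c : ℝ) (f : E3 → ℝ) :
    DD (fun y => c * f y) (fun y => c * f y) = c ^ 2 * DD f f := by
  unfold DD
  rw [← integral_const_mul]
  congr 1
  funext y
  rw [layers_VV]
  ring

theorem layers_arith (k ℓ C0 : ℝ) (hk0 : 0 < k) (hk3 : k ≤ 2 * ℓ ^ 2) (hℓ : 1 ≤ ℓ)
    (hC0 : 0 < C0) : k ^ 2 * (C0 / (ℓ + 16) ^ 2) ≤ 4 * C0 * ℓ ^ 2 := by
  rw [← mul_div_assoc, div_le_iff₀ (by positivity)]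
  have h4 : k ^ 2 ≤ (2 * ℓ ^ 2) ^ 2 := pow_le_pow_left₀ hk0.le hk3 2
  have h5 : ℓ ^ 2 ≤ (ℓ + 16) ^ 2 := pow_le_pow_left₀ (by linarith) (by linarith) 2
  have h6 : k ^ 2 * C0 ≤ (2 * ℓ ^ 2) ^ 2 * C0 := mul_le_mul_of_nonneg_right h4 hC0.le
  have h7 : 4 * C0 * ℓ ^ 2 * ℓ ^ 2 ≤ 4 * C0 * ℓ ^ 2 * (ℓ + 16) ^ 2 :=
    mul_le_mul_of_nonneg_left h5 (by positivity)
  linarith [show (2 * ℓ ^ 2) ^ 2 * C0 = 4 * C0 * ℓ ^ 2 * ℓ ^ 2 by ring]

theorem layers_sq (k u v T : ℝ) (h0 : 0 ≤ T) (h1 : T ≤ k * (5 * |u|) + k * (5 * |v|)) :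
    T ^ 2 ≤ 50 * k ^ 2 * (u ^ 2 + v ^ 2) := by
  calc T ^ 2 ≤ (k * (5 * |u|) + k * (5 * |v|)) ^ 2 := pow_le_pow_left₀ h0 h1 2
    _ = 25 * k ^ 2 * (|u| + |v|) ^ 2 := by ring
    _ ≤ 25 * k ^ 2 * (2 * (|u| ^ 2 + |v| ^ 2)) := by
        refine mul_le_mul_of_nonneg_left ?_ (by positivity)
        nlinarith [sq_nonneg (|u| - |v|)]
    _ = 50 * k ^ 2 * (u ^ 2 + v ^ 2) := by rw [sq_abs, sq_abs]; ring

theorem layers_int (G M T : E3 → ℝ) (hG : Continuous G) (hGc : HasCompactSupport G)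
    (hM : Continuous M) (hMc : HasCompactSupport M) (k ℓ C0 : ℝ) (hk0 : 0 < k)
    (hk3 : k ≤ 2 * ℓ ^ 2) (hℓ : 1 ≤ ℓ) (hC0 : 0 < C0)
    (hGG : ∫ x, G x ^ 2 ≤ C0 / (ℓ + 16) ^ 2) (hMM : ∫ x, M x ^ 2 ≤ C0 / (ℓ + 16) ^ 2)
    (hT : ∀ y, T y ^ 2 ≤ 50 * k ^ 2 * (G y ^ 2 + M y ^ 2)) :
    ∫ y, T y ^ 2 ≤ 400 * C0 * ℓ ^ 2 := by
  have hGi : Integrable (fun y => G y ^ 2) := by
    refine Continuous.integrable_of_hasCompactSupport (by fun_prop) ?_
    exact hGc.comp_left (g := fun z : ℝ => z ^ 2) (by simp)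
  have hMi : Integrable (fun y => M y ^ 2) := by
    refine Continuous.integrable_of_hasCompactSupport (by fun_prop) ?_
    exact hMc.comp_left (g := fun z : ℝ => z ^ 2) (by simp)
  have h1 : (∫ y, T y ^ 2) ≤ ∫ y, 50 * k ^ 2 * (G y ^ 2 + M y ^ 2) := by
    refine integral_mono_of_nonneg (Filter.Eventually.of_forall fun y => sq_nonneg _)
      ((hGi.add hMi).const_mul _) (Filter.Eventually.of_forall hT)
  rw [integral_const_mul, integral_add hGi hMi] at h1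
  have h2 : 50 * k ^ 2 * ((∫ y, G y ^ 2) + ∫ y, M y ^ 2) ≤
      50 * k ^ 2 * (2 * (C0 / (ℓ + 16) ^ 2)) :=
    mul_le_mul_of_nonneg_left (by linarith) (by positivity)
  have h3 := layers_arith k ℓ C0 hk0 hk3 hℓ hC0
  have h4 : 50 * k ^ 2 * (2 * (C0 / (ℓ + 16) ^ 2)) = 100 * (k ^ 2 * (C0 / (ℓ + 16) ^ 2)) := by
    ring
  linarith

theorem layers_le (c r f : ℝ) (hc : 0 ≤ c) (hf : 0 ≤ f) (hr : 1 ≤ r) :
    c * f ≤ c * (r * f) :=
  mul_le_mul_of_nonneg_left (le_mul_of_one_le_left hf hr) hc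

theorem layers_abs (k t u : ℝ) (hk : 0 < k) (ht : t ≤ 2) :
    k * (u + t * |u|) + k * (t * |u|) ≤ k * (5 * |u|) := by
  rw [← mul_add]
  refine mul_le_mul_of_nonneg_left ?_ hk.le
  have h1 : t * |u| ≤ 2 * |u| := mul_le_mul_of_nonneg_right ht (abs_nonneg u)
  linarith [le_abs_self u, abs_nonneg u]

/-- choice of the multiplicity -/
theorem layers_mult (k g r : ℝ) (hk : 0 < k) (hg : 1 ≤ g) (hr : 0 < r) (hrk : r ≤ k) :
    ∃ (N : ℕ) (t : ℝ), 1 ≤ t ∧ t ≤ 2 ∧ k * (t * g) = r * N ∧ (N : ℝ) ≤ k * g / r + 1 := by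
  refine ⟨⌈k * g / r⌉₊, r * ⌈k * g / r⌉₊ / (k * g), ?_, ?_, ?_, ?_⟩
  · rw [le_div_iff₀ (by positivity)]
    have := Nat.le_ceil (k * g / r)
    rw [div_le_iff₀ hr] at this
    linarith
  · rw [div_le_iff₀ (by positivity)]
    have h1 := (Nat.ceil_lt_add_one (a := k * g / r) (by positivity)).le
    have h2 : r * (⌈k * g / r⌉₊ : ℝ) ≤ r * (k * g / r + 1) := mul_le_mul_of_nonneg_left h1 hr.le
    have h3 : r * (k * g / r + 1) = k * g + r := by field_simp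
    nlinarith
  · have : k * g ≠ 0 := by positivity
    field_simp
  · exact (Nat.ceil_lt_add_one (by positivity)).le

/-- TARGET -/
theorem layers (p q : ℕ) (hp : 0 < p) (hq : 0 < q) :
    ∃ C ℓ0 : ℝ, 0 < C ∧ 0 < ℓ0 ∧ ∀ ℓ : ℝ, ℓ0 ≤ ℓ →
      ∃ (K m : ℕ) (b : Fin m → Bool) (o : Fin m → Bool) (π : Fin m → E3 → ℝ) (a : ℝ),
      -- number of particles
      (K : ℝ) ≤ C * ℓ ^ 2 ∧ (m : ℝ) ≤ C * ℓ ^ 2 ∧
      (Finset.univ.filter (fun j => b j = true)).card = K * q ∧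
      (Finset.univ.filter (fun j => b j = false)).card = K * p ∧
      -- densities
      (∀ j, Continuous (π j) ∧ HasCompactSupport (π j) ∧ (∀ y, 0 ≤ π j y) ∧
        (∫ y, π j y) = 1 ∧ ∀ y, π j y ≠ 0 → ∀ k, 1 < y k ∧ y k < ℓ + 16 - 1) ∧
      -- outer and inner particles
      (∀ j, o j = true → ∀ y, π j y ≠ 0 → ¬ ∀ k, 6 ≤ y k ∧ y k ≤ ℓ + 16 - 6) ∧
      (∀ j, o j = false → ∀ y, π j y ≠ 0 → ∀ k, 10 < y k ∧ y k < ℓ + 16 - 10) ∧
      -- potential of the outer charges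
      (∀ x, (∀ k, 6 ≤ x k ∧ x k ≤ ℓ + 16 - 6) →
        |VV (fun y => ∑ j, if o j = true then (if b j = true then (p : ℝ) else -(q : ℝ)) * π j y
          else 0) x - a| ≤ C / ℓ) ∧
      -- charge of the inner particles
      |(∑ j, if o j = false then (if b j = true then (p : ℝ) else -(q : ℝ)) else 0) + ℓ ^ 2| ≤ C ∧
      -- energy and square integral
      DD (fun y => ∑ j, (if b j = true then (p : ℝ) else -(q : ℝ)) * π j y)
        (fun y => ∑ j, (if b j = true then (p : ℝ) else -(q : ℝ)) * π j y) ≤ C * ℓ ^ 2 ∧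
      (∫ y, (∑ j, π j y) ^ 2) ≤ C * ℓ ^ 2 := by
  obtain ⟨C0, L0, hC0, hL0, hsh⟩ := shell_pair
  have hp1 : (1 : ℝ) ≤ p := by exact_mod_cast hp
  have hq1 : (1 : ℝ) ≤ q := by exact_mod_cast hq
  have hpq1 : (1 : ℝ) ≤ (p : ℝ) * q := by nlinarith
  have hpq0 : (0 : ℝ) < (p : ℝ) * q := by linarith
  refine ⟨(p + q + 1) * (4 + 4 * C0) + p * q + 400 * C0 + 1, L0 + p * q + 1, by positivity,
    by positivity, ?_⟩
  intro ℓ hℓ
  have hℓ1 : 1 ≤ ℓ := by linarith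
  have hℓpq : (p : ℝ) * q ≤ ℓ ^ 2 := by nlinarith
  obtain ⟨G, M, a, hG, hGc, hM, hMc, hG1, hM1, hGs, hMs, hVG, hE, hGG, hMM, hGa, hMa⟩ :=
    hsh (ℓ + 16) (by linarith)
  -- the total charge `k`
  set n0 : ℕ := ⌈ℓ ^ 2 / ((p : ℝ) * q)⌉₊ with hn0
  set k : ℝ := (p : ℝ) * q * n0 with hkdef
  have hk1 : ℓ ^ 2 ≤ k := by
    have := Nat.le_ceil (ℓ ^ 2 / ((p : ℝ) * q))
    rw [div_le_iff₀ hpq0] at this
    rw [hkdef, hn0]
    linarith
  have hk2 : k ≤ ℓ ^ 2 + p * q := by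
    have h1 := (Nat.ceil_lt_add_one (a := ℓ ^ 2 / ((p : ℝ) * q)) (by positivity)).le
    have h2 : (p : ℝ) * q * n0 ≤ p * q * (ℓ ^ 2 / ((p : ℝ) * q) + 1) :=
      mul_le_mul_of_nonneg_left h1 hpq0.le
    have h3 : (p : ℝ) * q * (ℓ ^ 2 / ((p : ℝ) * q) + 1) = ℓ ^ 2 + p * q := by field_simp
    rw [hkdef]
    linarith
  have hℓ2 : 1 ≤ ℓ ^ 2 := by nlinarith
  have hk0 : 0 < k := by linarith
  have hk3 : k ≤ 2 * ℓ ^ 2 := by linarith
  -- the two layers
  obtain ⟨hg1, -⟩ := layers_dens G hG hGc hG1 1 le_rfl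
  obtain ⟨hm1, -⟩ := layers_dens M hM hMc hM1 1 le_rfl
  obtain ⟨N, t, ht1, ht2, htN, hN⟩ := layers_mult k (∫ x, |G x|) ((p : ℝ) * q) hk0 hg1 hpq0
    (by linarith)
  obtain ⟨N', t', ht1', ht2', htN', hN'⟩ := layers_mult k (∫ x, |M x|) ((p : ℝ) * q) hk0 hm1 hpq0
    (by linarith)
  obtain ⟨-, ⟨hc1, hs1, hn1, hi1, hz1⟩, ⟨hc2, hs2, hn2, hi2, hz2⟩⟩ :=
    layers_dens G hG hGc hG1 t ht1
  obtain ⟨-, ⟨hc3, hs3, hn3, hi3, hz3⟩, ⟨hc4, hs4, hn4, hi4, hz4⟩⟩ :=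
    layers_dens M hM hMc hM1 t' ht1'
  set g := ∫ x, |G x| with hgdef
  set μ := ∫ x, |M x| with hμdef
  set f1 : E3 → ℝ := fun y => (G y + t * |G y|) / (1 + t * g) with hf1
  set f2 : E3 → ℝ := fun y => |G y| / g with hf2
  set f3 : E3 → ℝ := fun y => (M y + t' * |M y|) / (1 + t' * μ) with hf3
  set f4 : E3 → ℝ := fun y => |M y| / μ with hf4
  obtain ⟨m, b, o, π, hm, hcase, hsum⟩ := layers_index (q * (n0 + N)) (p * N) (p * (n0 + N'))
    (q * N') f1 f2 f3 f4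
  have hgpos : 0 < 1 + t * g := by nlinarith
  have hμpos : 0 < 1 + t' * μ := by nlinarith
  -- the four groups of charges
  have e1 : ∀ y, ((q * (n0 + N) : ℕ) : ℝ) * (p * f1 y) = k * (G y + t * |G y|) := by
    intro y
    have h1 : ((q * (n0 + N) : ℕ) : ℝ) * p = k * (1 + t * g) := by
      push_cast
      rw [mul_add k, htN, hkdef]
      ring
    rw [← mul_assoc, h1, hf1]
    field_simp
  have e2 : ∀ y, ((p * N : ℕ) : ℝ) * (q * f2 y) = k * (t * |G y|) := by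
    intro y
    have h1 : ((p * N : ℕ) : ℝ) * q = k * (t * g) := by
      push_cast
      rw [htN]
      ring
    have hg0 : g ≠ 0 := by linarith
    rw [← mul_assoc, h1, hf2]
    field_simp
  have e3 : ∀ y, ((p * (n0 + N') : ℕ) : ℝ) * (q * f3 y) = k * (M y + t' * |M y|) := by
    intro y
    have h1 : ((p * (n0 + N') : ℕ) : ℝ) * q = k * (1 + t' * μ) := by
      push_cast
      rw [mul_add k, htN', hkdef]
      ring
    rw [← mul_assoc, h1, hf3]
    field_simp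
  have e4 : ∀ y, ((q * N' : ℕ) : ℝ) * (p * f4 y) = k * (t' * |M y|) := by
    intro y
    have h1 : ((q * N' : ℕ) : ℝ) * p = k * (t' * μ) := by
      push_cast
      rw [htN']
      ring
    have hg0 : μ ≠ 0 := by linarith
    rw [← mul_assoc, h1, hf4]
    field_simp
  have hK : ((n0 + N + N' : ℕ) : ℝ) ≤ (4 + 4 * C0) * ℓ ^ 2 := by
    have h0 : (n0 : ℝ) ≤ k := by
      rw [hkdef]
      nlinarith [(Nat.cast_nonneg n0 : (0 : ℝ) ≤ n0)]
    have h1 : k * g / ((p : ℝ) * q) ≤ k * C0 := by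
      rw [div_le_iff₀ hpq0]
      have : k * g ≤ k * C0 := mul_le_mul_of_nonneg_left hGa hk0.le
      have h2 : k * C0 * 1 ≤ k * C0 * ((p : ℝ) * q) :=
        mul_le_mul_of_nonneg_left hpq1 (by positivity)
      linarith
    have h2 : k * μ / ((p : ℝ) * q) ≤ k * C0 := by
      rw [div_le_iff₀ hpq0]
      have : k * μ ≤ k * C0 := mul_le_mul_of_nonneg_left hMa hk0.le
      have h2 : k * C0 * 1 ≤ k * C0 * ((p : ℝ) * q) :=
        mul_le_mul_of_nonneg_left hpq1 (by positivity)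
      linarith
    have h3 : k * C0 ≤ 2 * ℓ ^ 2 * C0 := mul_le_mul_of_nonneg_right hk3 hC0.le
    push_cast
    linarith [show (4 + 4 * C0) * ℓ ^ 2 = 4 * ℓ ^ 2 + 2 * (2 * ℓ ^ 2 * C0) by ring]
  have hmK : m = (p + q) * (n0 + N + N') := by
    rw [hm]
    ring
  refine ⟨n0 + N + N', m, b, o, π, k * a, ?_, ?_, ?_, ?_, ?_, ?_, ?_, ?_, ?_, ?_, ?_⟩
  · have h1 : (0 : ℝ) ≤ ((p + q) * (4 + 4 * C0) + p * q + 400 * C0 + 1) * ℓ ^ 2 := by positivity
    calc ((n0 + N + N' : ℕ) : ℝ) ≤ (4 + 4 * C0) * ℓ ^ 2 := hK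
      _ ≤ (4 + 4 * C0) * ℓ ^ 2 + ((p + q) * (4 + 4 * C0) + p * q + 400 * C0 + 1) * ℓ ^ 2 := by
          linarith
      _ = ((p + q + 1) * (4 + 4 * C0) + p * q + 400 * C0 + 1) * ℓ ^ 2 := by ring
  · rw [hmK]
    have h1 : ((p : ℝ) + q) * ((n0 + N + N' : ℕ) : ℝ) ≤ (p + q) * ((4 + 4 * C0) * ℓ ^ 2) :=
      mul_le_mul_of_nonneg_left hK (by positivity)
    have h2 : (0 : ℝ) ≤ ((4 + 4 * C0) + p * q + 400 * C0 + 1) * ℓ ^ 2 := by positivity
    calc (((p + q) * (n0 + N + N') : ℕ) : ℝ) = ((p : ℝ) + q) * ((n0 + N + N' : ℕ) : ℝ) := by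
          push_cast
          ring
      _ ≤ (p + q) * ((4 + 4 * C0) * ℓ ^ 2) := h1
      _ ≤ (p + q) * ((4 + 4 * C0) * ℓ ^ 2) + ((4 + 4 * C0) + p * q + 400 * C0 + 1) * ℓ ^ 2 := by
          linarith
      _ = ((p + q + 1) * (4 + 4 * C0) + p * q + 400 * C0 + 1) * ℓ ^ 2 := by ring
  · have h := hsum (fun b _ _ => if b = true then 1 else 0)
    have h2 : ((Finset.univ.filter (fun j => b j = true)).card : ℝ) =
        ∑ j, (if b j = true then (1 : ℝ) else 0) := by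
      rw [Finset.sum_boole]
    have h3 : ((Finset.univ.filter (fun j => b j = true)).card : ℝ) =
        (((n0 + N + N') * q : ℕ) : ℝ) := by
      rw [h2, h]
      push_cast
      simp
      ring
    exact_mod_cast h3
  · have h := hsum (fun b _ _ => if b = false then 1 else 0)
    have h2 : ((Finset.univ.filter (fun j => b j = false)).card : ℝ) =
        ∑ j, (if b j = false then (1 : ℝ) else 0) := by
      rw [Finset.sum_boole]
    have h3 : ((Finset.univ.filter (fun j => b j = false)).card : ℝ) =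
        (((n0 + N + N') * p : ℕ) : ℝ) := by
      rw [h2, h]
      push_cast
      simp
      ring
    exact_mod_cast h3
  · intro j
    rcases hcase j with ⟨-, h | h⟩ | ⟨-, h | h⟩
    · rw [h]
      exact ⟨hc1, hs1, hn1, hi1, fun y hy => (hGs y (hz1 y hy)).1⟩
    · rw [h]
      exact ⟨hc2, hs2, hn2, hi2, fun y hy => (hGs y (hz2 y hy)).1⟩
    · rw [h]
      refine ⟨hc3, hs3, hn3, hi3, fun y hy k => ?_⟩
      have := (hMs y (hz3 y hy)).1 k
      exact ⟨by linarith [this.1], by linarith [this.2]⟩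
    · rw [h]
      refine ⟨hc4, hs4, hn4, hi4, fun y hy k => ?_⟩
      have := (hMs y (hz4 y hy)).1 k
      exact ⟨by linarith [this.1], by linarith [this.2]⟩
  · intro j hj y hy
    rcases hcase j with ⟨-, h | h⟩ | ⟨h0, -⟩
    · rw [h] at hy
      exact (hGs y (hz1 y hy)).2
    · rw [h] at hy
      exact (hGs y (hz2 y hy)).2
    · rw [h0] at hj
      exact absurd hj (by simp)
  · intro j hj y hy
    rcases hcase j with ⟨h0, -⟩ | ⟨-, h | h⟩
    · rw [h0] at hj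
      exact absurd hj (by simp)
    · rw [h] at hy
      exact (hMs y (hz3 y hy)).1
    · rw [h] at hy
      exact (hMs y (hz4 y hy)).1
  · intro x hx
    have h1 : (fun y => ∑ j, if o j = true then (if b j = true then (p : ℝ) else -(q : ℝ)) * π j y
        else 0) = fun y => k * G y := by
      funext y
      rw [hsum (fun b o f => if o = true then (if b = true then (p : ℝ) else -(q : ℝ)) * f y
        else 0)]
      have := e1 y
      have := e2 y
      simp only [if_true, Bool.false_eq_true, if_false]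
      linarith
    rw [h1, layers_VV, hVG x hx, sub_self, abs_zero]
    positivity
  · have h1 := hsum (fun b o _ => if o = false then (if b = true then (p : ℝ) else -(q : ℝ)) else 0)
    have h2 : (∑ j, if o j = false then (if b j = true then (p : ℝ) else -(q : ℝ)) else 0) =
        -k := by
      rw [h1, hkdef]
      push_cast
      simp
      ring
    rw [h2, abs_le]
    constructor
    · have : (0 : ℝ) ≤ (p + q + 1) * (4 + 4 * C0) + 400 * C0 + 1 := by positivity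
      linarith
    · have : (0 : ℝ) ≤ (p + q + 1) * (4 + 4 * C0) + p * q + 400 * C0 + 1 := by positivity
      linarith
  · have h1 : (fun y => ∑ j, (if b j = true then (p : ℝ) else -(q : ℝ)) * π j y) =
        fun y => k * (G y - M y) := by
      funext y
      rw [hsum (fun b _ f => (if b = true then (p : ℝ) else -(q : ℝ)) * f y)]
      have := e1 y
      have := e2 y
      have := e3 y
      have := e4 y
      simp only [if_true, Bool.false_eq_true, if_false]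
      linarith
    rw [h1, layers_DD]
    have hL : 0 < ℓ + 16 := by linarith
    have h2 : k ^ 2 * DD (fun x => G x - M x) (fun x => G x - M x) ≤
        k ^ 2 * (C0 / (ℓ + 16) ^ 2) := mul_le_mul_of_nonneg_left hE (by positivity)
    have h3 := layers_arith k ℓ C0 hk0 hk3 hℓ1 hC0
    have h8 : (0 : ℝ) ≤ ((p + q + 1) * (4 + 4 * C0) + p * q + 396 * C0 + 1) * ℓ ^ 2 := by
      positivity
    calc k ^ 2 * DD (fun x => G x - M x) (fun x => G x - M x) ≤ 4 * C0 * ℓ ^ 2 := h2.trans h3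
      _ ≤ 4 * C0 * ℓ ^ 2 + ((p + q + 1) * (4 + 4 * C0) + p * q + 396 * C0 + 1) * ℓ ^ 2 := by
          linarith
      _ = ((p + q + 1) * (4 + 4 * C0) + p * q + 400 * C0 + 1) * ℓ ^ 2 := by ring
  · have hT : ∀ y, (∑ j, π j y) ^ 2 ≤ 50 * k ^ 2 * (G y ^ 2 + M y ^ 2) := by
      intro y
      have h0 : 0 ≤ ∑ j, π j y := by
        refine Finset.sum_nonneg fun j _ => ?_
        rcases hcase j with ⟨-, h | h⟩ | ⟨-, h | h⟩ <;> rw [h]
        · exact hn1 y
        · exact hn2 y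
        · exact hn3 y
        · exact hn4 y
      have h1 : ∑ j, π j y ≤ k * (5 * |G y|) + k * (5 * |M y|) := by
        rw [hsum (fun _ _ f => f y)]
        have a1 : ((q * (n0 + N) : ℕ) : ℝ) * f1 y ≤ ((q * (n0 + N) : ℕ) : ℝ) * (p * f1 y) :=
          layers_le _ _ _ (Nat.cast_nonneg _) (hn1 y) hp1
        have a2 : ((p * N : ℕ) : ℝ) * f2 y ≤ ((p * N : ℕ) : ℝ) * (q * f2 y) :=
          layers_le _ _ _ (Nat.cast_nonneg _) (hn2 y) hq1
        have a3 : ((p * (n0 + N') : ℕ) : ℝ) * f3 y ≤ ((p * (n0 + N') : ℕ) : ℝ) * (q * f3 y) :=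
          layers_le _ _ _ (Nat.cast_nonneg _) (hn3 y) hq1
        have a4 : ((q * N' : ℕ) : ℝ) * f4 y ≤ ((q * N' : ℕ) : ℝ) * (p * f4 y) :=
          layers_le _ _ _ (Nat.cast_nonneg _) (hn4 y) hp1
        rw [e1] at a1
        rw [e2] at a2
        rw [e3] at a3
        rw [e4] at a4
        have b1 := layers_abs k t (G y) hk0 ht2
        have b2 := layers_abs k t' (M y) hk0 ht2'
        linarith
      exact layers_sq k (G y) (M y) _ h0 h1
    have h1 := layers_int G M (fun y => ∑ j, π j y) hG hGc hM hMc k ℓ C0 hk0 hk3 hℓ1 hC0 hGG hMM hT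
    have h8 : (0 : ℝ) ≤ ((p + q + 1) * (4 + 4 * C0) + p * q + 1) * ℓ ^ 2 := by
      positivity
    calc (∫ y, (∑ j, π j y) ^ 2) ≤ 400 * C0 * ℓ ^ 2 := h1
      _ ≤ 400 * C0 * ℓ ^ 2 + ((p + q + 1) * (4 + 4 * C0) + p * q + 1) * ℓ ^ 2 := by linarith
      _ = ((p + q + 1) * (4 + 4 * C0) + p * q + 400 * C0 + 1) * ℓ ^ 2 := by ring

end Pool.Agent.Helper780_CP.RLV1
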