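import Pool.Agent.Helper780_CP.LLDefs2

set_option autoImplicit false

open MeasureTheory
open scoped Topology

namespace Pool.Agent.Helper780_CP.RTR

open Pool.Agent.Helper780_CP
open Pool.Agent.Helper985.CP

open Pool.Agent.Helper985.CP

theorem trf_wm {S : Type} (D : Species S) {I : Type} [Fintype I] [DecidableEq I]
    (t : ℝ) (Ψ : Wave D I) (W : (I → E3) → ℝ) :
    wm D W (trW D (dv t) Ψ) = wm D (fun x => W (fun i => x i + dv t)) Ψ := by
  unfold wm
  refine Finset.sum_congr rfl fun τ _ => ?_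
  have h := integral_sub_right_eq_self (μ := (volume : Measure (I → E3)))
    (fun x : I → E3 => W (fun i => x i + dv t) * ‖Ψ τ x‖ ^ 2) (fun _ : I => dv t)
  rw [← h]
  refine integral_congr_ae (Filter.Eventually.of_forall fun x => ?_)
  have e1 : (fun i => (x - fun _ : I => dv t) i + dv t) = x := by
    funext i
    simp
  show W x * ‖trW D (dv t) Ψ τ x‖ ^ 2 = W (fun i => (x - fun _ : I => dv t) i + dv t) * ‖Ψ τ (x - fun _ => dv t)‖ ^ 2
  rw [e1]
  rfl

theorem trf_mem {S : Type} (D : Species S) {I : Type} [Fintype I] [DecidableEq I] (sp : I → S)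
    (ℓ t : ℝ) (Ψ : Wave D I) (hΨ : IsState D sp ℓ Ψ) (τ : I → Fin D.g) (x : I → E3)
    (hx : x - (fun _ => dv t) ∈ tsupport (Ψ τ)) (i : I) (k : Fin 3) : t < x i k ∧ x i k < ℓ + t := by
  have h := hΨ.support τ hx i k
  have e : (x - fun _ : I => dv t) i k = x i k - t := rfl
  rw [e] at h
  constructor <;> linarith [h.1, h.2]

/-- TARGET -/
theorem tr_facts {S : Type} (D : Species S) {I : Type} [Fintype I] [DecidableEq I] (sp : I → S)
    (ℓ t : ℝ) (ht : 0 ≤ t) (Ψ : Wave D I) (hΨ : IsState D sp ℓ Ψ) :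
    IsState D sp (ℓ + 2 * t) (trW D (dv t) Ψ) ∧ nrm2 D (trW D (dv t) Ψ) = nrm2 D Ψ ∧
    energy D sp (trW D (dv t) Ψ) = energy D sp Ψ ∧
    (∀ W : (I → E3) → ℝ, wm D W (trW D (dv t) Ψ) = wm D (fun x => W (fun i => x i + dv t)) Ψ) ∧
    (∀ y, phim D sp (trW D (dv t) Ψ) y = phim D sp Ψ (y - dv t)) ∧
    (∀ y, kkm D (trW D (dv t) Ψ) y = kkm D Ψ (y - dv t)) ∧
    (∀ τ x, trW D (dv t) Ψ τ x ≠ 0 → ∀ i k, t < x i k ∧ x i k < ℓ + t) := by
  set a : I → E3 := fun _ => dv t with ha
  have htr : ∀ τ, trW D (dv t) Ψ τ = fun x => Ψ τ (x - a) := fun τ => rfl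
  refine ⟨⟨fun τ => ?_, fun τ => ?_, fun τ => ?_, fun τ hτ => ?_, ?_⟩, ?_, ?_, ?_, ?_, ?_, ?_⟩
  · rw [htr]
    exact (hΨ.smooth τ).comp (contDiff_id.sub contDiff_const)
  · rw [htr]
    exact (hΨ.compact τ).comp_homeomorph (Homeomorph.subRight a)
  · intro x hx i k
    have h1 : x - a ∈ tsupport (Ψ τ) := by
      have h2 : tsupport (Ψ τ ∘ (Homeomorph.subRight a)) =
          (Homeomorph.subRight a) ⁻¹' (tsupport (Ψ τ)) := tsupport_comp_eq_preimage _ _
      have h3 : x ∈ tsupport (Ψ τ ∘ (Homeomorph.subRight a)) := hx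
      rw [h2] at h3
      exact h3
    have h2 := trf_mem D sp ℓ t Ψ hΨ τ x h1 i k
    constructor <;> linarith [h2.1, h2.2]
  · refine hΨ.spin τ fun h0 => hτ ?_
    rw [htr, h0]
    rfl
  · intro i j hij hs τ x
    exact hΨ.symm i j hij hs τ (x - a)
  · have h := trf_wm D t Ψ (fun _ => 1)
    rw [wm_one, wm_one] at h
    exact h
  · unfold energy
    refine Finset.sum_congr rfl fun τ _ => ?_
    have h := integral_sub_right_eq_self (μ := (volume : Measure (I → E3)))
      (fun x : I → E3 => (∑ i, kin D sp i (Ψ τ) x) + coul D sp x * ‖Ψ τ x‖ ^ 2) a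
    rw [← h]
    refine integral_congr_ae (Filter.Eventually.of_forall fun x => ?_)
    have e1 : ∀ i, kin D sp i (trW D (dv t) Ψ τ) x = kin D sp i (Ψ τ) (x - a) := by
      intro i
      unfold kin
      rw [htr, fderiv_comp_sub]
    have e2 : coul D sp x = coul D sp (x - a) := by
      unfold coul
      congr 1
      refine Finset.sum_congr rfl fun i _ => Finset.sum_congr rfl fun j _ => ?_
      have e : (x - a) i - (x - a) j = x i - x j := by
        show (x i - dv t) - (x j - dv t) = _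
        abel
      rw [e]
    show (∑ i, kin D sp i (trW D (dv t) Ψ τ) x) + coul D sp x * ‖trW D (dv t) Ψ τ x‖ ^ 2 =
      (∑ i, kin D sp i (Ψ τ) (x - a)) + coul D sp (x - a) * ‖Ψ τ (x - a)‖ ^ 2
    rw [Finset.sum_congr rfl fun i _ => e1 i, ← e2]
    rfl
  · exact fun W => trf_wm D t Ψ W
  · intro y
    have h := trf_wm D t Ψ (fun x => ∑ i, D.charge (sp i) * (1 / ‖x i - y‖))
    have e : ∀ (x : I → E3) i, x i + dv t - y = x i - (y - dv t) := fun x i => by abel
    simp only [e] at h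
    exact h
  · intro y
    unfold kkm
    rw [trf_wm D t Ψ]
    have e : ∀ (x : I → E3) i, x i + dv t - y = x i - (y - dv t) := fun x i => by abel
    simp only [e]
  · intro τ x hx i k
    refine trf_mem D sp ℓ t Ψ hΨ τ x (subset_tsupport _ ?_) i k
    exact hx

end Pool.Agent.Helper780_CP.RTR
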