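import Pool.Agent.Helper780_CP.LLDefs2

set_option autoImplicit false

open MeasureTheory

namespace Pool.Agent.Helper780_CP.RVB

open Pool.Agent.Helper780_CP
open Pool.Agent.Helper985.CP

open Pool.Agent.Helper985.CP

theorem icb_meas (ℓ : ℝ) : MeasurableSet (icb ℓ) := by
  have h : icb ℓ = ⋂ k, {y : E3 | ℓ / 4 ≤ y k ∧ y k ≤ 3 * ℓ / 4} := by
    ext y
    simp [icb]
  rw [h]
  refine MeasurableSet.iInter fun k => ?_
  have hk : Measurable (fun y : E3 => y k) := by fun_prop
  exact (measurableSet_le measurable_const hk).inter (measurableSet_le hk measurable_const)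

theorem icb_convex (ℓ : ℝ) : Convex ℝ (icb ℓ) := by
  intro x hx y hy a b ha hb hab k
  have h1 := hx k
  have h2 := hy k
  have h3 : (a • x + b • y) k = a * x k + b * y k := by simp
  rw [h3]
  have hb' : b = 1 - a := by linarith
  subst hb'
  constructor
  · nlinarith [mul_le_mul_of_nonneg_left h1.1 ha, mul_le_mul_of_nonneg_left h2.1 hb]
  · nlinarith [mul_le_mul_of_nonneg_left h1.2 ha, mul_le_mul_of_nonneg_left h2.2 hb]

theorem icb_norm (ℓ : ℝ) (hℓ : 0 < ℓ) (y : E3) (hy : y ∈ icb ℓ) : ‖y‖ < 2 * ℓ := by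
  have h := EuclideanSpace.norm_sq_eq y
  rw [Fin.sum_univ_three] at h
  have h0 := hy 0
  have h1 := hy 1
  have h2 := hy 2
  have e0 : ‖y 0‖ ^ 2 ≤ (3 * ℓ / 4) ^ 2 := by
    rw [Real.norm_eq_abs, sq_abs]
    nlinarith [h0.1, h0.2]
  have e1 : ‖y 1‖ ^ 2 ≤ (3 * ℓ / 4) ^ 2 := by
    rw [Real.norm_eq_abs, sq_abs]
    nlinarith [h1.1, h1.2]
  have e2 : ‖y 2‖ ^ 2 ≤ (3 * ℓ / 4) ^ 2 := by
    rw [Real.norm_eq_abs, sq_abs]
    nlinarith [h2.1, h2.2]
  refine lt_of_pow_lt_pow_left₀ 2 (by positivity) ?_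
  nlinarith [sq_nonneg ℓ, hℓ]

/-- the truncated kernel -/
noncomputable def kb (R : ℝ) (w : E3) : ℝ := (Metric.ball (0 : E3) R).indicator (fun w => ‖w‖⁻¹) w

theorem kb_int (R : ℝ) : Integrable (kb R) := by
  unfold kb
  refine (integrable_indicator_iff Metric.isOpen_ball.measurableSet).2 ?_
  exact (pot_props_locInt.integrableOn_isCompact (isCompact_closedBall 0 R)).mono_set
    Metric.ball_subset_closedBall

theorem kb_nonneg (R : ℝ) (w : E3) : 0 ≤ kb R w := Set.indicator_nonneg (fun _ _ => by positivity) w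

theorem kb_scale (R : ℝ) (hR : 0 < R) : ∫ w, kb R w = R ^ 2 * ∫ w, kb 1 w := by
  have h1 : ∫ z, kb 1 (R⁻¹ • z) = R ^ 3 * ∫ z, kb 1 z := by
    rw [Measure.integral_comp_inv_smul_of_nonneg volume _ hR.le]
    simp
  have h2 : (fun z => kb 1 (R⁻¹ • z)) = fun z => R * kb R z := by
    funext z
    unfold kb
    by_cases hz : ‖z‖ < R
    · have hz1 : R⁻¹ • z ∈ Metric.ball (0 : E3) 1 := by
        rw [mem_ball_zero_iff, norm_smul, norm_inv, Real.norm_eq_abs, abs_of_pos hR]
        rw [inv_mul_lt_iff₀ hR]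
        simpa using hz
      have hz2 : z ∈ Metric.ball (0 : E3) R := by simpa using hz
      rw [Set.indicator_of_mem hz1, Set.indicator_of_mem hz2, norm_smul, norm_inv,
        Real.norm_eq_abs, abs_of_pos hR, mul_inv, inv_inv]
    · have hz1 : R⁻¹ • z ∉ Metric.ball (0 : E3) 1 := by
        rw [mem_ball_zero_iff, norm_smul, norm_inv, Real.norm_eq_abs, abs_of_pos hR]
        rw [inv_mul_lt_iff₀ hR]
        simpa using hz
      have hz2 : z ∉ Metric.ball (0 : E3) R := by simpa using hz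
      rw [Set.indicator_of_notMem hz1, Set.indicator_of_notMem hz2, mul_zero]
  rw [h2, integral_const_mul] at h1
  have h3 : R * ∫ w, kb R w = R * (R ^ 2 * ∫ w, kb 1 w) := by
    rw [h1]; ring
  exact mul_left_cancel₀ hR.ne' h3

theorem vb_ind (ℓ : ℝ) (z : E3) : ∫ y in icb ℓ, 1 / ‖z - y‖ =
    ∫ w, (icb ℓ).indicator (fun _ => (1 : ℝ)) (z - w) * ‖w‖⁻¹ := by
  rw [← integral_indicator (icb_meas ℓ)]
  rw [← integral_sub_left_eq_self (fun w => (icb ℓ).indicator (fun _ => (1 : ℝ)) (z - w) * ‖w‖⁻¹)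
    volume z]
  refine integral_congr_ae (Filter.Eventually.of_forall fun y => ?_)
  simp only [sub_sub_cancel]
  by_cases hy : y ∈ icb ℓ
  · rw [Set.indicator_of_mem hy, Set.indicator_of_mem hy, one_mul, one_div]
  · rw [Set.indicator_of_notMem hy, Set.indicator_of_notMem hy, zero_mul]

theorem vb_cont (ℓ : ℝ) (hℓ : 0 < ℓ) : Continuous (vb ℓ) := by
  unfold vb
  refine continuous_const.mul ?_
  simp only [vb_ind]
  rw [continuous_iff_continuousAt]
  intro z0
  refine continuousAt_of_dominated (bound := kb (‖z0‖ + 1 + 2 * ℓ)) ?_ ?_ (kb_int _) ?_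
  · refine Filter.Eventually.of_forall fun z => Measurable.aestronglyMeasurable ?_
    refine Measurable.mul ?_ (by fun_prop)
    exact ((measurable_const.indicator (icb_meas ℓ)).comp (measurable_const.sub measurable_id))
  · filter_upwards [Metric.ball_mem_nhds z0 one_pos] with z hz
    refine Filter.Eventually.of_forall fun w => ?_
    by_cases hy : z - w ∈ icb ℓ
    · have h1 := icb_norm ℓ hℓ _ hy
      have h2 : ‖z - z0‖ < 1 := by simpa [dist_eq_norm] using hz
      have h3 : ‖w‖ < ‖z0‖ + 1 + 2 * ℓ := by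
        have e : w = z0 + (z - z0) - (z - w) := by abel
        calc ‖w‖ = ‖z0 + (z - z0) - (z - w)‖ := by rw [← e]
          _ ≤ ‖z0 + (z - z0)‖ + ‖z - w‖ := norm_sub_le _ _
          _ ≤ ‖z0‖ + ‖z - z0‖ + ‖z - w‖ := by gcongr; exact norm_add_le _ _
          _ < ‖z0‖ + 1 + 2 * ℓ := by linarith
      have h4 : w ∈ Metric.ball (0 : E3) (‖z0‖ + 1 + 2 * ℓ) := by simpa using h3
      unfold kb
      rw [Set.indicator_of_mem hy, one_mul, Set.indicator_of_mem h4, norm_inv, norm_norm]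
    · rw [Set.indicator_of_notMem hy, zero_mul, norm_zero]
      exact kb_nonneg _ _
  · have h0 : volume (frontier (icb ℓ)) = 0 := (icb_convex ℓ).addHaar_frontier volume
    have h1 : ∀ᵐ y ∂(volume : Measure E3), y ∉ frontier (icb ℓ) := by
      rw [ae_iff]
      simpa using h0
    have h2 : ∀ᵐ w ∂(volume : Measure E3), z0 - w ∉ frontier (icb ℓ) :=
      (Measure.measurePreserving_sub_left (volume : Measure E3) z0).quasiMeasurePreserving.ae h1
    filter_upwards [h2] with w hw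
    refine ContinuousAt.mul ?_ continuousAt_const
    have hc : ContinuousAt (fun z : E3 => z - w) z0 := by fun_prop
    by_cases hm : z0 - w ∈ interior (icb ℓ)
    · have h3 : ∀ᶠ z in nhds z0, z - w ∈ interior (icb ℓ) :=
        hc.eventually_mem (isOpen_interior.mem_nhds hm)
      refine (continuousAt_const (y := (1 : ℝ))).congr ?_
      filter_upwards [h3] with z hz
      rw [Set.indicator_of_mem (interior_subset hz)]
    · have hm2 : z0 - w ∉ closure (icb ℓ) := fun h => hw ⟨h, hm⟩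
      have h3 : ∀ᶠ z in nhds z0, z - w ∈ (closure (icb ℓ))ᶜ :=
        hc.eventually_mem (isClosed_closure.isOpen_compl.mem_nhds hm2)
      refine (continuousAt_const (y := (0 : ℝ))).congr ?_
      filter_upwards [h3] with z hz
      rw [Set.indicator_of_notMem (fun h => hz (subset_closure h))]

theorem vb_bound : ∃ C : ℝ, 0 < C ∧ ∀ ℓ z, 0 < ℓ → 0 ≤ vb ℓ z ∧ vb ℓ z ≤ C / ℓ := by
  set K : ℝ := ∫ w, kb 1 w with hK
  set V : ℝ := (volume (Metric.ball (0 : E3) 1)).toReal with hV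
  have hK0 : 0 ≤ K := integral_nonneg (kb_nonneg 1)
  have hV0 : 0 ≤ V := ENNReal.toReal_nonneg
  refine ⟨64 * V + 8 * K + 1, by positivity, ?_⟩
  intro ℓ z hℓ
  have hnn : 0 ≤ ∫ y in icb ℓ, 1 / ‖z - y‖ := integral_nonneg fun y => by positivity
  refine ⟨mul_nonneg (by positivity) hnn, ?_⟩
  have hb : ∫ y in icb ℓ, 1 / ‖z - y‖ ≤ (8 * V + K) * ℓ ^ 2 := by
    rw [vb_ind]
    have hg1 : Integrable (fun w : E3 => (Metric.ball (0 : E3) (2 * ℓ)).indicator
        (fun _ => (1 : ℝ)) (z - w)) := by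
      have : Integrable ((Metric.ball (0 : E3) (2 * ℓ)).indicator (fun _ => (1 : ℝ))) := by
        refine (integrable_indicator_iff Metric.isOpen_ball.measurableSet).2 ?_
        exact integrableOn_const Metric.isBounded_ball.measure_lt_top.ne
      exact this.comp_sub_left z
    have hg : Integrable (fun w : E3 => ℓ⁻¹ * (Metric.ball (0 : E3) (2 * ℓ)).indicator
        (fun _ => (1 : ℝ)) (z - w) + kb ℓ w) := (hg1.const_mul _).add (kb_int ℓ)
    have hle : ∫ w, (icb ℓ).indicator (fun _ => (1 : ℝ)) (z - w) * ‖w‖⁻¹ ≤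
        ∫ w : E3, (ℓ⁻¹ * (Metric.ball (0 : E3) (2 * ℓ)).indicator
        (fun _ => (1 : ℝ)) (z - w) + kb ℓ w) := by
      refine integral_mono_of_nonneg ?_ hg ?_
      · refine Filter.Eventually.of_forall fun w => ?_
        exact mul_nonneg (Set.indicator_nonneg (fun _ _ => zero_le_one) _) (by positivity)
      · refine Filter.Eventually.of_forall fun w => ?_
        have hi : 0 ≤ (Metric.ball (0 : E3) (2 * ℓ)).indicator (fun _ => (1 : ℝ)) (z - w) :=
          Set.indicator_nonneg (fun _ _ => zero_le_one) _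
        have hi2 : 0 ≤ ℓ⁻¹ * (Metric.ball (0 : E3) (2 * ℓ)).indicator (fun _ => (1 : ℝ)) (z - w) :=
          mul_nonneg (by positivity) hi
        by_cases hy : z - w ∈ icb ℓ
        · have h4 : z - w ∈ Metric.ball (0 : E3) (2 * ℓ) := by
            simpa using icb_norm ℓ hℓ _ hy
          show (icb ℓ).indicator (fun _ => (1 : ℝ)) (z - w) * ‖w‖⁻¹ ≤ _
          rw [Set.indicator_of_mem hy, one_mul]
          by_cases hw : ‖w‖ < ℓ
          · have h5 : kb ℓ w = ‖w‖⁻¹ := by
              unfold kb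
              rw [Set.indicator_of_mem (by simpa using hw)]
            show _ ≤ ℓ⁻¹ * _ + kb ℓ w
            rw [h5]
            linarith
          · have h6 : ‖w‖⁻¹ ≤ ℓ⁻¹ := inv_anti₀ hℓ (not_lt.1 hw)
            have h7 := kb_nonneg ℓ w
            show _ ≤ ℓ⁻¹ * _ + kb ℓ w
            rw [Set.indicator_of_mem h4, mul_one]
            linarith
        · show (icb ℓ).indicator (fun _ => (1 : ℝ)) (z - w) * ‖w‖⁻¹ ≤ ℓ⁻¹ * _ + kb ℓ w
          rw [Set.indicator_of_notMem hy, zero_mul]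
          have h7 := kb_nonneg ℓ w
          linarith
    refine hle.trans ?_
    rw [integral_add (hg1.const_mul _) (kb_int ℓ), integral_const_mul, kb_scale ℓ hℓ, ← hK]
    have h8 : ∫ w, (Metric.ball (0 : E3) (2 * ℓ)).indicator (fun _ => (1 : ℝ)) (z - w) =
        8 * ℓ ^ 3 * V := by
      rw [integral_sub_left_eq_self ((Metric.ball (0 : E3) (2 * ℓ)).indicator (fun _ => (1 : ℝ)))
        volume z]
      rw [integral_indicator Metric.isOpen_ball.measurableSet, setIntegral_const, smul_eq_mul,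
        mul_one, Measure.real, Measure.addHaar_ball volume (0 : E3) (by positivity : 0 ≤ 2 * ℓ)]
      rw [ENNReal.toReal_mul, ENNReal.toReal_ofReal (by positivity)]
      simp only [finrank_euclideanSpace, Fintype.card_fin]
      rw [hV]
      ring
    rw [h8]
    have h9 : ℓ⁻¹ * (8 * ℓ ^ 3 * V) = 8 * V * ℓ ^ 2 := by
      field_simp
    rw [h9]
    nlinarith
  unfold vb
  calc 8 / ℓ ^ 3 * ∫ y in icb ℓ, 1 / ‖z - y‖ ≤ 8 / ℓ ^ 3 * ((8 * V + K) * ℓ ^ 2) := by
        gcongr
    _ = (64 * V + 8 * K) / ℓ := by field_simp; ring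
    _ ≤ (64 * V + 8 * K + 1) / ℓ := (div_le_div_iff_of_pos_right hℓ).2 (by linarith)

/-- TARGET -/
theorem vb_props : (∀ ℓ, 0 < ℓ → Continuous (vb ℓ)) ∧
    ∃ C : ℝ, 0 < C ∧ ∀ ℓ z, 0 < ℓ → 0 ≤ vb ℓ z ∧ vb ℓ z ≤ C / ℓ :=
  ⟨vb_cont, vb_bound⟩

end Pool.Agent.Helper780_CP.RVB
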