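import Pool.Agent.Helper780_CP.LLDefs2
import Pool.Agent.Helper780_CP.RVB
import Pool.Agent.Helper780_CP.RD1
import Pool.Agent.Helper780_CP.RTR
import Pool.Agent.Helper780_CP.RAVG
import Pool.Agent.Helper780_CP.RLV1

set_option autoImplicit false

open MeasureTheory
open scoped Topology

namespace Pool.Agent.Helper780_CP.RLV2

open Pool.Agent.Helper780_CP
open Pool.Agent.Helper985.CP
open Pool.Agent.Helper780_CP.RVB (vb_props)
open Pool.Agent.Helper780_CP.RD1 (VV_cont VV_lin)
open Pool.Agent.Helper780_CP.RTR (tr_facts)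
open Pool.Agent.Helper780_CP.RAVG (avg_insert)
open Pool.Agent.Helper780_CP.RLV1 (layers)

open Pool.Agent.Helper985.CP

theorem lv_norm_apply (x : E3) (k : Fin 3) : |x k| ≤ ‖x‖ := by
  have := PiLp.norm_apply_le x k
  simpa using this

theorem lv_kk_bound (z : E3) : ‖z‖⁻¹ ≤ kk z + 1 := by
  by_cases h : ‖z‖ < 1
  · have h1 : kk z = ‖z‖⁻¹ ^ 2 := by
      unfold kk
      rw [Set.indicator_of_mem]
      simpa using h
    rw [h1]
    rcases eq_or_lt_of_le (norm_nonneg z) with h0 | h0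
    · rw [← h0]; simp
    · have h2 : 1 ≤ ‖z‖⁻¹ := (one_le_inv₀ h0).mpr h.le
      nlinarith
  · rw [not_lt] at h
    have h1 : ‖z‖⁻¹ ≤ 1 := inv_le_one_of_one_le₀ h
    have := kk_nonneg z
    linarith

theorem lv_int1 (f : E3 → ℝ) (hfm : Measurable f) (B : ℝ) (hB : ∀ y, |f y| ≤ B)
    (hfi : Integrable f) (z : E3) : Integrable (fun y => f y * (1 / ‖z - y‖)) := by
  have h1 : Integrable (fun y => B * kk (z - y) + |f y|) :=
    ((kk_int.comp_sub_left z).const_mul B).add hfi.abs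
  refine h1.mono' ?_ (Filter.Eventually.of_forall fun y => ?_)
  · exact (hfm.mul (measurable_const.div ((measurable_const.sub measurable_id).norm))).aestronglyMeasurable
  · rw [norm_mul, Real.norm_eq_abs, Real.norm_of_nonneg (by positivity), one_div]
    have h2 := lv_kk_bound (z - y)
    have h3 := abs_nonneg (f y)
    have h4 := kk_nonneg (z - y)
    calc |f y| * ‖z - y‖⁻¹ ≤ |f y| * (kk (z - y) + 1) := mul_le_mul_of_nonneg_left h2 h3
      _ = |f y| * kk (z - y) + |f y| := by ring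
      _ ≤ B * kk (z - y) + |f y| := by
        have := mul_le_mul_of_nonneg_right (hB y) h4
        linarith

theorem lv_prod {I : Type} [Fintype I] (u : (I → E3) → ℝ) (hu : Integrable u)
    (hum : Measurable u) (i : I) (f : E3 → ℝ) (hfm : Measurable f) (B : ℝ) (hB : ∀ y, |f y| ≤ B)
    (hfi : Integrable f) :
    Integrable (fun q : (I → E3) × E3 => f q.2 * (1 / ‖q.1 i - q.2‖) * u q.1)
      ((volume : Measure (I → E3)).prod (volume : Measure E3)) := by
  have h1 : Integrable (fun q : (I → E3) × E3 => B * (kk (q.1 i - q.2) * |u q.1|) +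
      |u q.1| * |f q.2|) ((volume : Measure (I → E3)).prod (volume : Measure E3)) :=
    ((kk_prod (fun x => |u x|) hu.abs hum.norm i).const_mul B).add (hu.abs.mul_prod hfi.abs)
  refine h1.mono' ?_ (Filter.Eventually.of_forall fun q => ?_)
  · have a1 : Measurable (fun q : (I → E3) × E3 => q.1 i) :=
      (measurable_pi_apply i).comp measurable_fst
    exact (((hfm.comp measurable_snd).mul (measurable_const.div
      (a1.sub measurable_snd).norm)).mul (hum.comp measurable_fst)).aestronglyMeasurable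
  · rw [norm_mul, norm_mul, Real.norm_eq_abs, Real.norm_of_nonneg (by positivity : (0:ℝ) ≤ 1 / ‖q.1 i - q.2‖),
      one_div, Real.norm_eq_abs]
    have h2 := lv_kk_bound (q.1 i - q.2)
    have h3 := abs_nonneg (f q.2)
    have h4 := kk_nonneg (q.1 i - q.2)
    have h5 := abs_nonneg (u q.1)
    have h6 : |f q.2| * ‖q.1 i - q.2‖⁻¹ ≤ B * kk (q.1 i - q.2) + |f q.2| := by
      calc |f q.2| * ‖q.1 i - q.2‖⁻¹ ≤ |f q.2| * (kk (q.1 i - q.2) + 1) :=
            mul_le_mul_of_nonneg_left h2 h3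
        _ = |f q.2| * kk (q.1 i - q.2) + |f q.2| := by ring
        _ ≤ B * kk (q.1 i - q.2) + |f q.2| := by
          have := mul_le_mul_of_nonneg_right (hB q.2) h4
          linarith
    calc |f q.2| * ‖q.1 i - q.2‖⁻¹ * |u q.1| ≤ (B * kk (q.1 i - q.2) + |f q.2|) * |u q.1| :=
          mul_le_mul_of_nonneg_right h6 h5
      _ = B * (kk (q.1 i - q.2) * |u q.1|) + |u q.1| * |f q.2| := by ring

theorem lv_fub {S : Type} (D : Species S) {I : Type} [Fintype I] [DecidableEq I] (sp : I → S)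
    (ℓ : ℝ) (Ψ : Wave D I) (hΨ : IsState D sp ℓ Ψ) (f : E3 → ℝ) (hfm : Measurable f) (B : ℝ)
    (hB : ∀ y, |f y| ≤ B) (hfi : Integrable f) :
    Integrable (fun y => f y * phim D sp Ψ y) ∧
    ∫ y, f y * phim D sp Ψ y = wm D (fun x => ∑ i, D.charge (sp i) * VV f (x i)) Ψ := by
  have hΨm : ∀ τ, Measurable (fun x => ‖Ψ τ x‖ ^ 2) := fun τ =>
    ((hΨ.smooth τ).continuous.measurable.norm).pow_const 2
  have hΨi : ∀ τ, Integrable (fun x => ‖Ψ τ x‖ ^ 2) := fun τ => (int_state D sp ℓ Ψ hΨ τ).1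
  have hH : ∀ τ, Integrable (fun q : (I → E3) × E3 => ∑ i, D.charge (sp i) *
      (f q.2 * (1 / ‖q.1 i - q.2‖) * ‖Ψ τ q.1‖ ^ 2))
      ((volume : Measure (I → E3)).prod (volume : Measure E3)) := fun τ =>
    integrable_finsetSum _ fun i _ => (lv_prod _ (hΨi τ) (hΨm τ) i f hfm B hB hfi).const_mul _
  have e1 : ∀ y, f y * phim D sp Ψ y = ∑ τ, ∫ x : I → E3, ∑ i, D.charge (sp i) *
      (f y * (1 / ‖x i - y‖) * ‖Ψ τ x‖ ^ 2) := by
    intro y
    unfold phim mean
    rw [Finset.mul_sum]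
    refine Finset.sum_congr rfl fun τ _ => ?_
    rw [← integral_const_mul]
    refine integral_congr_ae (Filter.Eventually.of_forall fun x => ?_)
    simp only
    rw [Finset.sum_mul, Finset.mul_sum]
    refine Finset.sum_congr rfl fun i _ => ?_
    ring
  simp only [e1]
  refine ⟨integrable_finsetSum _ fun τ _ => (hH τ).integral_prod_right, ?_⟩
  rw [integral_finsetSum _ fun τ _ => (hH τ).integral_prod_right]
  unfold wm
  refine Finset.sum_congr rfl fun τ _ => ?_
  rw [← integral_integral_swap (f := fun (x : I → E3) (y : E3) => ∑ i, D.charge (sp i) *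
      (f y * (1 / ‖x i - y‖) * ‖Ψ τ x‖ ^ 2)) (hH τ)]
  refine integral_congr_ae (Filter.Eventually.of_forall fun x => ?_)
  simp only
  rw [integral_finsetSum _ fun i _ =>
    ((lv_int1 f hfm B hB hfi (x i)).mul_const (‖Ψ τ x‖ ^ 2)).const_mul (D.charge (sp i)),
    Finset.sum_mul]
  refine Finset.sum_congr rfl fun i _ => ?_
  rw [integral_const_mul, integral_mul_const]
  unfold VV
  simp only [mul_one_div]
  ring

/-- bounds on the support give bounds of the mean -/
theorem lv_wm_le {S : Type} (D : Species S) {I : Type} [Fintype I] [DecidableEq I] (sp : I → S)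
    (ℓ : ℝ) (Ψ : Wave D I) (hΨ : IsState D sp ℓ Ψ) (W : (I → E3) → ℝ) (B : ℝ)
    (h : ∀ τ x, Ψ τ x ≠ 0 → |W x| ≤ B) : |wm D W Ψ| ≤ B * nrm2 D Ψ := by
  have hΨi : ∀ τ, Integrable (fun x => ‖Ψ τ x‖ ^ 2) := fun τ => (int_state D sp ℓ Ψ hΨ τ).1
  unfold wm nrm2
  rw [Finset.mul_sum]
  refine (Finset.abs_sum_le_sum_abs _ _).trans (Finset.sum_le_sum fun τ _ => ?_)
  rw [← integral_const_mul]
  rw [← Real.norm_eq_abs]
  refine norm_integral_le_of_norm_le ((hΨi τ).const_mul B) (Filter.Eventually.of_forall fun x => ?_)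
  rw [norm_mul, Real.norm_eq_abs, Real.norm_of_nonneg (sq_nonneg _)]
  by_cases h0 : Ψ τ x = 0
  · rw [h0]; simp
  · exact mul_le_mul_of_nonneg_right (h τ x h0) (sq_nonneg _)

theorem lv_icb_meas (ℓ : ℝ) : MeasurableSet (icb ℓ) := by
  have h1 : icb ℓ = ⋂ k : Fin 3, {y : E3 | ℓ / 4 ≤ y k} ∩ {y : E3 | y k ≤ 3 * ℓ / 4} := by
    ext y
    simp [icb]
  rw [h1]
  refine MeasurableSet.iInter fun k => MeasurableSet.inter ?_ ?_
  · exact (isClosed_le continuous_const (by fun_prop)).measurableSet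
  · exact (isClosed_le (by fun_prop) continuous_const).measurableSet

theorem lv_icb_vol (ℓ : ℝ) (hℓ : 0 < ℓ) : volume (icb ℓ) = ENNReal.ofReal (ℓ ^ 3 / 8) := by
  have h1 : icb ℓ = (@WithLp.ofLp 2 (Fin 3 → ℝ)) ⁻¹'
      (Set.pi Set.univ (fun _ : Fin 3 => Set.Icc (ℓ / 4) (3 * ℓ / 4))) := by
    ext y
    exact ⟨fun h k _ => h k, fun h k => h k trivial⟩
  rw [h1, (PiLp.volume_preserving_ofLp (Fin 3)).measure_preimage
    (MeasurableSet.univ_pi fun _ => measurableSet_Icc).nullMeasurableSet]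
  rw [Set.pi_univ_Icc, Real.volume_Icc_pi]
  rw [Finset.prod_const, Finset.card_univ, Fintype.card_fin, ← ENNReal.ofReal_pow (by linarith)]
  congr 1
  ring

/-- the level is bounded by the square of the size -/
theorem lv_level {S : Type} (D : Species S) {I : Type} [Fintype I] [DecidableEq I] (sp : I → S)
    (ℓ : ℝ) (hℓ : 9 ≤ ℓ) (Ψ : Wave D I) (hΨ : IsState D sp ℓ Ψ) (hn : nrm2 D Ψ = 1) (U C0 T : ℝ)
    (hU : ∀ y, Metric.closedBall y 2 ⊆ cube ℓ → |phim D sp Ψ y - U| ≤ C0)
    (hT : ∀ x : I → E3, |∑ i, D.charge (sp i) * vb ℓ (x i)| ≤ T) : |U| ≤ C0 + T := by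
  have hℓ0 : 0 < ℓ := by linarith
  have h3 : (0 : ℝ) < ℓ ^ 3 := by positivity
  set f : E3 → ℝ := (icb ℓ).indicator (fun _ => 8 / ℓ ^ 3) with hf
  have hfm : Measurable f := measurable_const.indicator (lv_icb_meas ℓ)
  have hf0 : ∀ y, 0 ≤ f y := fun y => Set.indicator_nonneg (fun _ _ => by positivity) y
  have hfB : ∀ y, |f y| ≤ 8 / ℓ ^ 3 := by
    intro y
    rw [abs_of_nonneg (hf0 y)]
    exact Set.indicator_le_self' (fun _ _ => by positivity) y
  have hfi : Integrable f := by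
    refine (integrable_indicator_iff (lv_icb_meas ℓ)).2 (integrableOn_const ?_)
    rw [lv_icb_vol ℓ hℓ0]
    exact ENNReal.ofReal_ne_top
  have hf1 : ∫ y, f y = 1 := by
    rw [hf, integral_indicator (lv_icb_meas ℓ), setIntegral_const, Measure.real,
      lv_icb_vol ℓ hℓ0, ENNReal.toReal_ofReal (by positivity), smul_eq_mul]
    field_simp
  have hVV : ∀ x, VV f x = vb ℓ x := by
    intro x
    unfold VV vb
    rw [← integral_const_mul, ← integral_indicator (lv_icb_meas ℓ)]
    refine integral_congr_ae (Filter.Eventually.of_forall fun y => ?_)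
    simp only [hf]
    by_cases hy : y ∈ icb ℓ
    · rw [Set.indicator_of_mem hy, Set.indicator_of_mem hy, mul_one_div]
    · rw [Set.indicator_of_notMem hy, Set.indicator_of_notMem hy, zero_div]
  obtain ⟨hi, he⟩ := lv_fub D sp ℓ Ψ hΨ f hfm _ hfB hfi
  have h4 : |∫ y, f y * phim D sp Ψ y| ≤ T := by
    rw [he]
    have := lv_wm_le D sp ℓ Ψ hΨ (fun x => ∑ i, D.charge (sp i) * VV f (x i)) T (fun τ x _ => by
      simp only [hVV]
      exact hT x)
    rwa [hn, mul_one] at this
  have h5 : |U - ∫ y, f y * phim D sp Ψ y| ≤ C0 := by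
    have e : U - ∫ y, f y * phim D sp Ψ y = ∫ y, (f y * U - f y * phim D sp Ψ y) := by
      rw [integral_sub (hfi.mul_const U) hi, integral_mul_const, hf1, one_mul]
    rw [e, ← Real.norm_eq_abs]
    have e2 : C0 = ∫ y, f y * C0 := by rw [integral_mul_const, hf1, one_mul]
    rw [e2]
    refine norm_integral_le_of_norm_le (hfi.mul_const C0) (Filter.Eventually.of_forall fun y => ?_)
    rw [← mul_sub, norm_mul, Real.norm_of_nonneg (hf0 y)]
    by_cases hy : y ∈ icb ℓ
    · refine mul_le_mul_of_nonneg_left ?_ (hf0 y)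
      rw [Real.norm_eq_abs, abs_sub_comm]
      refine hU y fun w hw => ?_
      intro k
      have h6 := lv_norm_apply (w - y) k
      have h7 : ‖w - y‖ ≤ 2 := by rw [← dist_eq_norm]; exact hw
      have h8 : (w - y) k = w k - y k := rfl
      rw [h8] at h6
      have h9 := abs_le.mp (h6.trans h7)
      have h10 := hy k
      constructor
      · linarith [h10.1, h9.1]
      · linarith [h10.2, h9.2]
    · have : f y = 0 := Set.indicator_of_notMem hy _
      rw [this]; simp
  have h6 : U = (U - ∫ y, f y * phim D sp Ψ y) + ∫ y, f y * phim D sp Ψ y := by ring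
  rw [h6]
  exact (abs_add_le _ _).trans (add_le_add h5 h4)

theorem lv_charges {S : Type} [Fintype S] (D : Species S) {I : Type} [Fintype I] (sp : I → S)
    (t : I → ℝ) (T : ℝ) (_hT : 0 ≤ T) (ht : ∀ i, |t i| ≤ T) :
    |∑ i, D.charge (sp i) * t i| ≤ (Fintype.card I : ℝ) * (∑ s, |D.charge s|) * T := by
  refine (Finset.abs_sum_le_sum_abs _ _).trans ?_
  have h1 : ∀ i ∈ Finset.univ, |D.charge (sp i) * t i| ≤ (∑ s, |D.charge s|) * T := by
    intro i _
    rw [abs_mul]
    refine mul_le_mul ?_ (ht i) (abs_nonneg _) (Finset.sum_nonneg fun s _ => abs_nonneg _)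
    exact Finset.single_le_sum (f := fun s => |D.charge s|) (fun s _ => abs_nonneg _)
      (Finset.mem_univ (sp i))
  refine (Finset.sum_le_sum h1).trans (le_of_eq ?_)
  rw [Finset.sum_const, Finset.card_univ, nsmul_eq_mul, mul_assoc]

theorem lv_kd_int : Integrable kd := by
  unfold kd
  refine (integrable_indicator_iff Metric.isOpen_ball.measurableSet).2 ?_
  exact (locInt_inv2.integrableOn_isCompact (isCompact_closedBall 0 3)).mono_set
    Metric.ball_subset_closedBall

theorem lv_kd_nonneg (z : E3) : 0 ≤ kd z := Set.indicator_nonneg (fun _ _ => by positivity) z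

theorem lv_kd_even (z : E3) : kd (-z) = kd z := by
  unfold kd
  by_cases h : z ∈ Metric.ball (0 : E3) 3
  · have h' : -z ∈ Metric.ball (0 : E3) 3 := by
      rw [mem_ball_zero_iff] at h ⊢
      rwa [norm_neg]
    rw [Set.indicator_of_mem h, Set.indicator_of_mem h', norm_neg]
  · have h' : -z ∉ Metric.ball (0 : E3) 3 := by
      rw [mem_ball_zero_iff] at h ⊢
      rwa [norm_neg]
    rw [Set.indicator_of_notMem h, Set.indicator_of_notMem h']

/-- Schur bound -/
theorem lv_schur (P : E3 → ℝ) (hP2 : Integrable (fun x => P x ^ 2)) (hP0 : ∀ x, 0 ≤ P x) :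
    ∫ x, ∫ y, P x * P y * kd (x - y) ≤ (∫ z, kd z) * ∫ x, P x ^ 2 := by
  have hconv : Integrable (fun q : E3 × E3 => P q.2 ^ 2 * kd (q.1 - q.2))
      ((volume : Measure E3).prod (volume : Measure E3)) := by
    have := hP2.convolution_integrand (ContinuousLinearMap.mul ℝ ℝ) lv_kd_int
    simpa using this
  have hcx : ∀ x, Integrable (fun y => P x ^ 2 * kd (x - y)) := fun x =>
    (lv_kd_int.comp_sub_left x).const_mul _
  have hcy : ∀ᵐ x, Integrable (fun y => P y ^ 2 * kd (x - y)) := hconv.prod_right_ae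
  have hI2 : ∫ x, ∫ y, P y ^ 2 * kd (x - y) = (∫ z, kd z) * ∫ x, P x ^ 2 := by
    rw [integral_integral_swap hconv]
    have : ∀ y, ∫ x, P y ^ 2 * kd (x - y) = P y ^ 2 * ∫ z, kd z := by
      intro y
      rw [integral_const_mul, integral_sub_right_eq_self (fun z => kd z) y]
    simp only [this]
    rw [integral_mul_const, mul_comm]
  have hI1 : ∀ x, ∫ y, P x ^ 2 * kd (x - y) = P x ^ 2 * ∫ z, kd z := by
    intro x
    rw [integral_const_mul, integral_sub_left_eq_self (fun z => kd z) volume x]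
  have hpt : ∀ᵐ x, ∫ y, P x * P y * kd (x - y) ≤
      1 / 2 * (P x ^ 2 * ∫ z, kd z) + 1 / 2 * ∫ y, P y ^ 2 * kd (x - y) := by
    filter_upwards [hcy] with x hx
    rw [← hI1 x, ← integral_const_mul, ← integral_const_mul,
      ← integral_add ((hcx x).const_mul _) (hx.const_mul _)]
    refine integral_mono_of_nonneg (Filter.Eventually.of_forall fun y =>
      mul_nonneg (mul_nonneg (hP0 x) (hP0 y)) (lv_kd_nonneg _))
      (((hcx x).const_mul _).add (hx.const_mul _)) (Filter.Eventually.of_forall fun y => ?_)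
    have h1 := lv_kd_nonneg (x - y)
    have h2 : P x * P y ≤ 1 / 2 * P x ^ 2 + 1 / 2 * P y ^ 2 := by nlinarith [sq_nonneg (P x - P y)]
    have h3 := mul_le_mul_of_nonneg_right h2 h1
    simp only
    linarith
  have hg : Integrable (fun x => 1 / 2 * (P x ^ 2 * ∫ z, kd z) +
      1 / 2 * ∫ y, P y ^ 2 * kd (x - y)) :=
    ((hP2.mul_const _).const_mul _).add (hconv.integral_prod_left.const_mul _)
  have hfin := integral_mono_of_nonneg (Filter.Eventually.of_forall fun x =>
    integral_nonneg fun y => mul_nonneg (mul_nonneg (hP0 x) (hP0 y)) (lv_kd_nonneg _)) hg hpt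
  refine hfin.trans (le_of_eq ?_)
  rw [integral_add ((hP2.mul_const _).const_mul _) (hconv.integral_prod_left.const_mul _),
    integral_const_mul, integral_const_mul, hI2, integral_mul_const]
  ring

theorem lv_ball (L : ℝ) (y : E3) (h : ∀ k, 1 < y k ∧ y k < L - 1) :
    Metric.closedBall y 1 ⊆ cube L := by
  intro w hw k
  have h6 := lv_norm_apply (w - y) k
  have h7 : ‖w - y‖ ≤ 1 := by rw [← dist_eq_norm]; exact hw
  have h8 : (w - y) k = w k - y k := rfl
  rw [h8] at h6
  have h9 := abs_le.mp (h6.trans h7)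
  have h10 := h k
  constructor
  · linarith [h10.1, h9.1]
  · linarith [h10.2, h9.2]

theorem lv_ball2 (L : ℝ) (y : E3) (h : ∀ k, 2 < y k ∧ y k < L - 2) :
    Metric.closedBall y 2 ⊆ cube L := by
  intro w hw k
  have h6 := lv_norm_apply (w - y) k
  have h7 : ‖w - y‖ ≤ 2 := by rw [← dist_eq_norm]; exact hw
  have h8 : (w - y) k = w k - y k := rfl
  rw [h8] at h6
  have h9 := abs_le.mp (h6.trans h7)
  have h10 := h k
  constructor
  · linarith [h10.1, h9.1]
  · linarith [h10.2, h9.2]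

theorem lv_kkm_nonneg {S : Type} (D : Species S) {I : Type} [Fintype I] [DecidableEq I]
    (Ψ : Wave D I) (y : E3) : 0 ≤ kkm D Ψ y := by
  unfold kkm wm
  refine Finset.sum_nonneg fun τ _ => integral_nonneg fun x => ?_
  exact mul_nonneg (Finset.sum_nonneg fun i _ => kk_nonneg _) (sq_nonneg _)

theorem lv_kk_far (z : E3) (h : 1 ≤ ‖z‖) : kk z = 0 := by
  unfold kk
  refine Set.indicator_of_notMem ?_ _
  rw [mem_ball_zero_iff]
  exact not_lt.mpr h

theorem lv_DD_smul (T : E3 → ℝ) (ε : ℝ) (hε : ε = 1 ∨ ε = -1) :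
    DD (fun y => ε * T y) (fun y => ε * T y) = DD T T := by
  have h1 : ∀ x, VV (fun y => ε * T y) x = ε * VV T x := by
    intro x
    unfold VV
    rw [← integral_const_mul]
    refine integral_congr_ae (Filter.Eventually.of_forall fun y => ?_)
    simp only
    ring
  unfold DD
  refine integral_congr_ae (Filter.Eventually.of_forall fun x => ?_)
  simp only
  rw [h1]
  rcases hε with rfl | rfl <;> ring

set_option maxHeartbeats 4000000 in
theorem lv_core {S : Type} [Fintype S] [DecidableEq S] (D : Species S) (hD : D.Valid)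
    (sT sF : S) (p q : ℕ) (hp : 0 < p) (hq : 0 < q) (ε : ℝ) (hε : ε = 1 ∨ ε = -1)
    (hcT : D.charge sT = ε * p) (hcF : D.charge sF = -(ε * (q : ℝ))) (ρ C0 : ℝ) (hρ : 0 ≤ ρ)
    (hC0 : 0 ≤ C0) :
    ∃ C ℓ0 : ℝ, 0 < C ∧ 0 < ℓ0 ∧ ∀ {I : Type} [Fintype I] [DecidableEq I] (sp : I → S) (ℓ : ℝ),
      ℓ0 ≤ ℓ → (Fintype.card I : ℝ) ≤ ρ * ℓ ^ 3 → (∑ i, D.charge (sp i) = 0) →
      ∀ Ψ : Wave D I, IsState D sp ℓ Ψ → nrm2 D Ψ = 1 → ∀ U : ℝ,
      (∀ y, Metric.closedBall y 2 ⊆ cube ℓ → |phim D sp Ψ y - U| ≤ C0 ∧ kkm D Ψ y ≤ C0) →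
      ∀ Eb : (S → ℕ) → ℝ,
      (∀ {J : Type} [Fintype J] [DecidableEq J] (sp' : J → S) (Φ : Wave D J),
        IsState D sp' (ℓ + 16) Φ → Eb (fun s => cnt sp' s) * nrm2 D Φ ≤ energy D sp' Φ) →
      ∃ K : ℕ, (K : ℝ) ≤ C * ℓ ^ 2 ∧
        Eb (fun s => cnt sp s + ((if s = sT then K * q else 0) + (if s = sF then K * p else 0))) ≤
          energy D sp Ψ - ε * (U * ℓ ^ 2) + C * ℓ ^ 2 := by
  obtain ⟨Ca, hCa, hav⟩ := avg_insert D hD 1 one_pos le_rfl
  obtain ⟨Cl, ℓl, hCl, hℓl, hlay⟩ := layers p q hp hq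
  obtain ⟨Cv, hCv, hvb⟩ := vb_props.2
  obtain ⟨z, hz⟩ : ∃ z : ℝ, z = ∑ s, |D.charge s| := ⟨_, rfl⟩
  have hz0 : 0 ≤ z := by rw [hz]; exact Finset.sum_nonneg fun s _ => abs_nonneg _
  obtain ⟨κ, hκ⟩ : ∃ κ : ℝ, κ = ∫ w, kd w := ⟨_, rfl⟩
  have hκ0 : 0 ≤ κ := by rw [hκ]; exact integral_nonneg lv_kd_nonneg
  have hp0 : (0 : ℝ) < p := Nat.cast_pos.mpr hp
  have hq0 : (0 : ℝ) < q := Nat.cast_pos.mpr hq
  have hεne : ε ≠ 0 := by rcases hε with rfl | rfl <;> norm_num
  have hTF : sT ≠ sF := by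
    intro h
    rw [h, hcF] at hcT
    have : ε * ((p : ℝ) + q) = 0 := by linarith
    rcases mul_eq_zero.mp this with h' | h'
    · exact hεne h'
    · linarith
  refine ⟨Cl + ρ * z * Cl + (C0 + ρ * z * Cv) * Cl + Cl * ((p + q) * C0) + Cl * (Ca * (1 + C0)) +
    Cl + Ca * (κ * Cl), max ℓl 9, by positivity, lt_of_lt_of_le (by norm_num) (le_max_right _ _), ?_⟩
  intro I _ _ sp ℓ hℓ hcard hneu Ψ hΨ hn U hU Eb hEb
  have hℓ1 : ℓl ≤ ℓ := (le_max_left _ _).trans hℓ
  have hℓ5 : 9 ≤ ℓ := (le_max_right _ _).trans hℓ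
  have hℓ0 : 0 < ℓ := by linarith
  obtain ⟨K, m, b, o, π, a, hK, hm, hbT, hbF, hπ, hout, hin, hVV, hch, hDD, hsq⟩ := hlay ℓ hℓ1
  obtain ⟨v, hv⟩ : ∃ v : Fin m → ℝ, v = fun j => if b j = true then (p : ℝ) else -(q : ℝ) :=
    ⟨_, rfl⟩
  have hvj : ∀ j, (if b j = true then (p : ℝ) else -(q : ℝ)) = v j := fun j => by rw [hv]
  simp only [hvj] at hVV hch hDD
  have hvabs : ∀ j, |v j| ≤ p + q := by
    intro j
    rw [hv]
    simp only
    split_ifs
    · rw [abs_of_pos hp0]; linarith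
    · rw [abs_neg, abs_of_pos hq0]; linarith
  obtain ⟨s, hs⟩ : ∃ s : Fin m → S, s = fun j => if b j = true then sT else sF := ⟨_, rfl⟩
  have hcs : ∀ j, D.charge (s j) = ε * v j := by
    intro j
    rw [hs, hv]
    simp only
    split_ifs
    · exact hcT
    · rw [hcF]; ring
  obtain ⟨t1, t2, t3, -, t5, t6, t7⟩ := tr_facts D sp ℓ 8 (by norm_num) Ψ hΨ
  obtain ⟨Ψ', hΨ'⟩ : ∃ Ψ' : Wave D I, Ψ' = trW D (dv 8) Ψ := ⟨_, rfl⟩
  rw [← hΨ'] at t1 t2 t3 t5 t6 t7
  have hst : IsState D sp (ℓ + 16) Ψ' := by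
    have e : ℓ + 2 * 8 = ℓ + 16 := by ring
    rwa [e] at t1
  have hn' : nrm2 D Ψ' = 1 := t2.trans hn
  have hdv : ∀ (y : E3) (k : Fin 3), (y - dv 8) k = y k - 8 := by
    intro y k
    simp [dv]
  have hinb : ∀ y : E3, (∀ k, 10 < y k ∧ y k < ℓ + 16 - 10) →
      Metric.closedBall (y - dv 8) 2 ⊆ cube ℓ := by
    intro y hy
    refine lv_ball2 ℓ _ fun k => ?_
    rw [hdv]
    have := hy k
    constructor
    · linarith [this.1]
    · linarith [this.2]
  -- the short range term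
  have hkk : ∀ j y, π j y ≠ 0 → kkm D Ψ' y ≤ C0 := by
    intro j y hy
    by_cases ho : o j = true
    · have h1 := hout j ho y hy
      push Not at h1
      obtain ⟨k, hk⟩ := h1
      have h2 : |kkm D Ψ' y| ≤ 0 * nrm2 D Ψ' := by
        refine lv_wm_le D sp (ℓ + 16) Ψ' hst _ 0 fun τ x hx => ?_
        have h3 : ∑ i, kk (x i - y) = 0 := by
          refine Finset.sum_eq_zero fun i _ => lv_kk_far _ ?_
          have h4 := lv_norm_apply (x i - y) k
          have h5 : (x i - y) k = x i k - y k := rfl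
          have h6 := t7 τ x hx i k
          rw [h5] at h4
          refine le_trans ?_ h4
          by_cases h7 : 6 ≤ y k
          · have h8 := hk h7
            rw [abs_sub_comm]
            refine le_trans ?_ (le_abs_self _)
            linarith [h6.2]
          · refine le_trans ?_ (le_abs_self _)
            linarith [h6.1]
        rw [h3, abs_zero]
      rw [zero_mul] at h2
      linarith [le_abs_self (kkm D Ψ' y)]
    · have ho' : o j = false := by simpa using ho
      rw [t6]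
      exact (hU _ (hinb y (hin j ho' y hy))).2
  have hπi : ∀ j, Integrable (π j) := fun j =>
    (hπ j).1.integrable_of_hasCompactSupport (hπ j).2.1
  have hπb : ∀ j, ∃ B, ∀ y, |π j y| ≤ B := by
    intro j
    obtain ⟨B, hB⟩ := (hπ j).2.1.exists_bound_of_continuous (hπ j).1
    exact ⟨B, fun y => by rw [← Real.norm_eq_abs]; exact hB y⟩
  have hkkint : ∀ j, ∫ y, π j y * kkm D Ψ' y ≤ C0 := by
    intro j
    have e2 : C0 = ∫ y, π j y * C0 := by rw [integral_mul_const, (hπ j).2.2.2.1, one_mul]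
    rw [e2]
    refine integral_mono_of_nonneg (Filter.Eventually.of_forall fun y =>
      mul_nonneg ((hπ j).2.2.1 y) (lv_kkm_nonneg D Ψ' y)) ((hπi j).mul_const C0)
      (Filter.Eventually.of_forall fun y => ?_)
    by_cases h0 : π j y = 0
    · simp only [h0, zero_mul, le_refl]
    · exact mul_le_mul_of_nonneg_left (hkk j y h0) ((hπ j).2.2.1 y)
  -- the inner particles
  have hPi : ∀ j, Integrable (fun y => π j y * phim D sp Ψ' y) := by
    intro j
    obtain ⟨B, hB⟩ := hπb j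
    exact (lv_fub D sp (ℓ + 16) Ψ' hst (π j) (hπ j).1.measurable B hB (hπi j)).1
  obtain ⟨P, hP⟩ : ∃ P : Fin m → ℝ, P = fun j => ∫ y, π j y * phim D sp Ψ' y := ⟨_, rfl⟩
  have hPin : ∀ j, o j = false → |P j - U| ≤ C0 := by
    intro j ho
    have e : P j - U = ∫ y, (π j y * phim D sp Ψ' y - π j y * U) := by
      rw [integral_sub (hPi j) ((hπi j).mul_const U), integral_mul_const, (hπ j).2.2.2.1, one_mul, hP]
    rw [e, ← Real.norm_eq_abs]
    have e2 : C0 = ∫ y, π j y * C0 := by rw [integral_mul_const, (hπ j).2.2.2.1, one_mul]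
    rw [e2]
    refine norm_integral_le_of_norm_le ((hπi j).mul_const C0)
      (Filter.Eventually.of_forall fun y => ?_)
    rw [← mul_sub, norm_mul, Real.norm_of_nonneg ((hπ j).2.2.1 y)]
    by_cases h0 : π j y = 0
    · simp only [h0, zero_mul, le_refl]
    · refine mul_le_mul_of_nonneg_left ?_ ((hπ j).2.2.1 y)
      rw [t5, Real.norm_eq_abs]
      exact (hU _ (hinb y (hin j ho y h0))).1
  -- the outer particles
  obtain ⟨R, hR⟩ : ∃ R : E3 → ℝ, R = fun y => ∑ j, if o j = true then v j * π j y else 0 :=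
    ⟨_, rfl⟩
  rw [← hR] at hVV
  have hRc : Continuous R := by
    rw [hR]
    refine continuous_finsetSum _ fun j _ => ?_
    by_cases ho : o j = true
    · simp only [ho, if_true]
      exact continuous_const.mul (hπ j).1
    · simp only [ho]
      exact continuous_const
  have hRi : Integrable R := by
    rw [hR]
    refine integrable_finsetSum _ fun j _ => ?_
    by_cases ho : o j = true
    · simp only [ho, if_true]
      exact (hπi j).const_mul _
    · simp only [ho]
      simp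
  choose Bπ hBπ using hπb
  have hBπ0 : ∀ j, 0 ≤ Bπ j := fun j => (abs_nonneg _).trans (hBπ j 0)
  have hRB : ∀ y, |R y| ≤ ∑ j, ((p : ℝ) + q) * Bπ j := by
    intro y
    rw [hR]
    refine (Finset.abs_sum_le_sum_abs _ _).trans (Finset.sum_le_sum fun j _ => ?_)
    by_cases ho : o j = true
    · simp only [ho, if_true]
      rw [abs_mul]
      exact mul_le_mul (hvabs j) (hBπ j y) (abs_nonneg _) (by positivity)
    · simp only [ho]
      have := hBπ0 j
      simp only [Bool.false_eq_true, if_false, abs_zero]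
      positivity
  have hRint : ∫ y, R y * phim D sp Ψ' y = ∑ j, if o j = true then v j * P j else 0 := by
    have e : ∀ y, R y * phim D sp Ψ' y =
        ∑ j, (if o j = true then v j else 0) * (π j y * phim D sp Ψ' y) := by
      intro y
      rw [hR]
      simp only
      rw [Finset.sum_mul]
      refine Finset.sum_congr rfl fun j _ => ?_
      split_ifs <;> ring
    simp only [e]
    rw [integral_finsetSum _ fun j _ => (hPi j).const_mul _]
    refine Finset.sum_congr rfl fun j _ => ?_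
    rw [integral_const_mul, hP]
    split_ifs <;> ring
  have hNz : (Fintype.card I : ℝ) * z / ℓ ≤ ρ * z * ℓ ^ 2 := by
    rw [div_le_iff₀ hℓ0]
    have := mul_le_mul_of_nonneg_right hcard hz0
    calc (Fintype.card I : ℝ) * z ≤ ρ * ℓ ^ 3 * z := this
      _ = ρ * z * ℓ ^ 2 * ℓ := by ring
  have houter : |∑ j, if o j = true then v j * P j else 0| ≤ ρ * z * Cl * ℓ ^ 2 := by
    rw [← hRint, (lv_fub D sp (ℓ + 16) Ψ' hst R hRc.measurable _ hRB hRi).2]
    have h1 := lv_wm_le D sp (ℓ + 16) Ψ' hst (fun x => ∑ i, D.charge (sp i) * VV R (x i))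
      ((Fintype.card I : ℝ) * z * (Cl / ℓ)) (fun τ x hx => by
        have e : ∑ i, D.charge (sp i) * VV R (x i) = ∑ i, D.charge (sp i) * (VV R (x i) - a) := by
          simp only [mul_sub, Finset.sum_sub_distrib]
          rw [← Finset.sum_mul, hneu]
          ring
        rw [e, hz]
        refine lv_charges D sp _ (Cl / ℓ) (by positivity) fun i => ?_
        refine hVV (x i) fun k => ?_
        have := t7 τ x hx i k
        constructor
        · linarith [this.1]
        · linarith [this.2])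
    rw [hn', mul_one] at h1
    refine h1.trans ?_
    calc (Fintype.card I : ℝ) * z * (Cl / ℓ) = ((Fintype.card I : ℝ) * z / ℓ) * Cl := by ring
      _ ≤ (ρ * z * ℓ ^ 2) * Cl := mul_le_mul_of_nonneg_right hNz hCl.le
      _ = ρ * z * Cl * ℓ ^ 2 := by ring
  -- the level
  have hUb : |U| ≤ C0 + ρ * z * Cv * ℓ ^ 2 := by
    refine lv_level D sp ℓ hℓ5 Ψ hΨ hn U C0 _ (fun y hy => (hU y hy).1) fun x => ?_
    have h1 := lv_charges D sp (fun i => vb ℓ (x i)) (Cv / ℓ) (by positivity) (fun i => by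
      obtain ⟨h2, h3⟩ := hvb ℓ (x i) hℓ0
      rw [abs_of_nonneg h2]
      exact h3)
    refine h1.trans ?_
    rw [← hz]
    calc (Fintype.card I : ℝ) * z * (Cv / ℓ) = ((Fintype.card I : ℝ) * z / ℓ) * Cv := by ring
      _ ≤ (ρ * z * ℓ ^ 2) * Cv := mul_le_mul_of_nonneg_right hNz hCv.le
      _ = ρ * z * Cv * ℓ ^ 2 := by ring
  have hℓsq : 1 ≤ ℓ ^ 2 := by nlinarith
  have hUb2 : |U| ≤ (C0 + ρ * z * Cv) * ℓ ^ 2 := by
    refine hUb.trans ?_
    have : C0 ≤ C0 * ℓ ^ 2 := le_mul_of_one_le_right hC0 hℓsq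
    linarith
  -- the linear term
  have hinner : |∑ j, if o j = false then v j * (P j - U) else 0| ≤ m * ((p + q) * C0) := by
    refine (Finset.abs_sum_le_sum_abs _ _).trans ?_
    have h1 : ∀ j ∈ Finset.univ, |if o j = false then v j * (P j - U) else 0| ≤
        ((p : ℝ) + q) * C0 := by
      intro j _
      by_cases ho : o j = false
      · rw [if_pos ho, abs_mul]
        exact mul_le_mul (hvabs j) (hPin j ho) (abs_nonneg _) (by positivity)
      · rw [if_neg ho, abs_zero]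
        positivity
    refine (Finset.sum_le_sum h1).trans (le_of_eq ?_)
    rw [Finset.sum_const, Finset.card_univ, Fintype.card_fin, nsmul_eq_mul]
  have hsplit : ∑ j, v j * P j = (∑ j, if o j = true then v j * P j else 0) +
      (∑ j, if o j = false then v j * (P j - U) else 0) +
      (U * ((∑ j, if o j = false then v j else 0) + ℓ ^ 2) - U * ℓ ^ 2) := by
    have : U * ((∑ j, if o j = false then v j else 0) + ℓ ^ 2) - U * ℓ ^ 2 =
        ∑ j, if o j = false then U * v j else 0 := by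
      rw [mul_add, add_sub_cancel_right, Finset.mul_sum]
      refine Finset.sum_congr rfl fun j _ => ?_
      split_ifs <;> ring
    rw [this, ← Finset.sum_add_distrib, ← Finset.sum_add_distrib]
    refine Finset.sum_congr rfl fun j _ => ?_
    cases o j
    · simp only [Bool.false_eq_true, if_false, if_true]
      ring
    · simp only [if_true, Bool.true_eq_false, if_false]
      ring
  have hεabs : ∀ x : ℝ, ε * x ≤ |x| := by
    intro x
    rcases hε with rfl | rfl
    · rw [one_mul]; exact le_abs_self x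
    · rw [neg_one_mul]; exact neg_le_abs x
  have hlin : ∑ j, D.charge (s j) * P j ≤ -(ε * (U * ℓ ^ 2)) + ρ * z * Cl * ℓ ^ 2 +
      m * ((p + q) * C0) + |U| * Cl := by
    have e : ∑ j, D.charge (s j) * P j = ε * ∑ j, v j * P j := by
      rw [Finset.mul_sum]
      refine Finset.sum_congr rfl fun j _ => ?_
      rw [hcs]
      ring
    rw [e, hsplit]
    have a1 := (hεabs _).trans houter
    have a2 := (hεabs _).trans hinner
    have a3 := hεabs (U * ((∑ j, if o j = false then v j else 0) + ℓ ^ 2))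
    rw [abs_mul] at a3
    have a4 := mul_le_mul_of_nonneg_left hch (abs_nonneg U)
    have e3 : ∀ x y w u : ℝ, ε * (x + y + (w - u)) = ε * x + ε * y + ε * w - ε * u := by
      intro x y w u; ring
    rw [e3]
    linarith
  -- the insertion
  have hmain := hav (ℓ + 16) Eb (fun sp' Φ h => hEb sp' Φ h) m s π
    (fun j => ⟨(hπ j).1, (hπ j).2.1, (hπ j).2.2.1, (hπ j).2.2.2.1, fun y hy =>
      lv_ball (ℓ + 16) y ((hπ j).2.2.2.2 y hy)⟩) sp Ψ' hst hn'
  have hcount : ∀ t, (Finset.univ.filter (fun j => s j = t)).card =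
      (if t = sT then K * q else 0) + (if t = sF then K * p else 0) := by
    intro t
    by_cases h1 : t = sT
    · rw [if_pos h1, if_neg (by rw [h1]; exact hTF), add_zero, ← hbT]
      congr 1
      ext j
      simp only [Finset.mem_filter, Finset.mem_univ, true_and]
      rw [hs, h1]
      simp only
      by_cases hb : b j = true
      · simp [hb]
      · simp only [hb, if_false]
        exact ⟨fun h => absurd h.symm hTF, fun h => absurd h (by simp)⟩
    · rw [if_neg h1, zero_add]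
      by_cases h2 : t = sF
      · rw [if_pos h2, ← hbF]
        congr 1
        ext j
        simp only [Finset.mem_filter, Finset.mem_univ, true_and]
        rw [hs, h2]
        simp only
        by_cases hb : b j = true
        · simp only [hb, if_true]
          exact ⟨fun h => absurd h hTF, fun h => absurd h (by simp)⟩
        · have hb' : b j = false := by simpa using hb
          simp [hb']
      · rw [if_neg h2, Finset.card_eq_zero, Finset.filter_eq_empty_iff]
        intro j _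
        rw [hs]
        simp only
        split_ifs
        · exact fun h => h1 h.symm
        · exact fun h => h2 h.symm
  simp only [hcount] at hmain
  refine ⟨K, ?_, ?_⟩
  · refine hK.trans ?_
    have h1 : 0 ≤ ρ * z * Cl + (C0 + ρ * z * Cv) * Cl + Cl * ((p + q) * C0) +
      Cl * (Ca * (1 + C0)) + Cl + Ca * (κ * Cl) := by positivity
    exact mul_le_mul_of_nonneg_right (by linarith) (sq_nonneg ℓ)
  refine hmain.trans ?_
  rw [t3]
  have b1 : ∑ j, (D.charge (s j) * (∫ y, π j y * phim D sp Ψ' y) +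
      Ca * (1 + ∫ y, π j y * kkm D Ψ' y)) ≤ (∑ j, D.charge (s j) * P j) + m * (Ca * (1 + C0)) := by
    rw [Finset.sum_add_distrib]
    have h1 : ∑ j : Fin m, Ca * (1 + ∫ y, π j y * kkm D Ψ' y) ≤ m * (Ca * (1 + C0)) := by
      have h2 : ∀ j ∈ Finset.univ, Ca * (1 + ∫ y, π j y * kkm D Ψ' y) ≤ Ca * (1 + C0) := by
        intro j _
        refine mul_le_mul_of_nonneg_left ?_ hCa.le
        linarith [hkkint j]
      refine (Finset.sum_le_sum h2).trans (le_of_eq ?_)
      rw [Finset.sum_const, Finset.card_univ, Fintype.card_fin, nsmul_eq_mul]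
    rw [hP]
    simp only
    linarith
  have b2 : DD (fun y => ∑ j, D.charge (s j) * π j y) (fun y => ∑ j, D.charge (s j) * π j y) ≤
      Cl * ℓ ^ 2 := by
    have e : (fun y => ∑ j, D.charge (s j) * π j y) = fun y => ε * ∑ j, v j * π j y := by
      funext y
      rw [Finset.mul_sum]
      refine Finset.sum_congr rfl fun j _ => ?_
      rw [hcs]
      ring
    rw [e, lv_DD_smul (fun y => ∑ j, v j * π j y) ε hε]
    exact hDD
  have b3 : ∫ x, ∫ y, (∑ j, π j x) * (∑ j, π j y) * kd (x - y) ≤ κ * (Cl * ℓ ^ 2) := by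
    have hSi : Integrable (fun x => ∑ j, π j x) := integrable_finsetSum _ fun j _ => hπi j
    have hSc : Continuous (fun x => ∑ j, π j x) := continuous_finsetSum _ fun j _ => (hπ j).1
    have hS0 : ∀ x, 0 ≤ ∑ j, π j x := fun x => Finset.sum_nonneg fun j _ => (hπ j).2.2.1 x
    have hSB : ∀ x, ∑ j, π j x ≤ ∑ j, Bπ j := fun x =>
      Finset.sum_le_sum fun j _ => (le_abs_self _).trans (hBπ j x)
    have hS2 : Integrable (fun x => (∑ j, π j x) ^ 2) := by
      refine (hSi.const_mul (∑ j, Bπ j)).mono' (hSc.pow 2).aestronglyMeasurable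
        (Filter.Eventually.of_forall fun x => ?_)
      rw [Real.norm_of_nonneg (sq_nonneg _), sq]
      exact mul_le_mul_of_nonneg_right (hSB x) (hS0 x)
    refine (lv_schur (fun x => ∑ j, π j x) hS2 hS0).trans ?_
    rw [← hκ]
    exact mul_le_mul_of_nonneg_left hsq hκ0
  have b4 : |U| * Cl ≤ (C0 + ρ * z * Cv) * Cl * ℓ ^ 2 := by
    have := mul_le_mul_of_nonneg_right hUb2 hCl.le
    linarith
  have b5 : (m : ℝ) * ((p + q) * C0) ≤ Cl * ((p + q) * C0) * ℓ ^ 2 := by
    have := mul_le_mul_of_nonneg_right hm (by positivity : (0 : ℝ) ≤ ((p : ℝ) + q) * C0)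
    linarith
  have b6 : (m : ℝ) * (Ca * (1 + C0)) ≤ Cl * (Ca * (1 + C0)) * ℓ ^ 2 := by
    have := mul_le_mul_of_nonneg_right hm (by positivity : (0 : ℝ) ≤ Ca * (1 + C0))
    linarith
  have b7 := mul_le_mul_of_nonneg_left b3 hCa.le
  have b8 : 0 ≤ Cl * ℓ ^ 2 := by positivity
  have b9 : (Cl + ρ * z * Cl + (C0 + ρ * z * Cv) * Cl + Cl * ((p + q) * C0) +
      Cl * (Ca * (1 + C0)) + Cl + Ca * (κ * Cl)) * ℓ ^ 2 = Cl * ℓ ^ 2 + ρ * z * Cl * ℓ ^ 2 +
      (C0 + ρ * z * Cv) * Cl * ℓ ^ 2 + Cl * ((p + q) * C0) * ℓ ^ 2 +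
      Cl * (Ca * (1 + C0)) * ℓ ^ 2 + Cl * ℓ ^ 2 + Ca * (κ * (Cl * ℓ ^ 2)) := by ring
  rw [b9]
  linarith

/-- TARGET -/
theorem level_step {S : Type} [Fintype S] [DecidableEq S] (D : Species S) (hD : D.Valid)
    (sP sN : S) (p q : ℕ) (hp : 0 < p) (hq : 0 < q) (hcP : D.charge sP = p)
    (hcN : D.charge sN = -(q : ℝ)) (ρ C0 : ℝ) (hρ : 0 ≤ ρ) (hC0 : 0 ≤ C0) :
    ∃ C ℓ0 : ℝ, 0 < C ∧ 0 < ℓ0 ∧ ∀ {I : Type} [Fintype I] [DecidableEq I] (sp : I → S) (ℓ : ℝ),
      ℓ0 ≤ ℓ → (Fintype.card I : ℝ) ≤ ρ * ℓ ^ 3 → (∑ i, D.charge (sp i) = 0) →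
      ∀ Ψ : Wave D I, IsState D sp ℓ Ψ → nrm2 D Ψ = 1 → ∀ U : ℝ,
      (∀ y, Metric.closedBall y 2 ⊆ cube ℓ → |phim D sp Ψ y - U| ≤ C0 ∧ kkm D Ψ y ≤ C0) →
      ∀ Eb : (S → ℕ) → ℝ,
      (∀ {J : Type} [Fintype J] [DecidableEq J] (sp' : J → S) (Φ : Wave D J),
        IsState D sp' (ℓ + 16) Φ → Eb (fun s => cnt sp' s) * nrm2 D Φ ≤ energy D sp' Φ) →
      (∃ K : ℕ, (K : ℝ) ≤ C * ℓ ^ 2 ∧
        Eb (fun s => cnt sp s + (if s = sP then K * q else 0) + (if s = sN then K * p else 0)) ≤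
          energy D sp Ψ - U * ℓ ^ 2 + C * ℓ ^ 2) ∧
      (∃ K : ℕ, (K : ℝ) ≤ C * ℓ ^ 2 ∧
        Eb (fun s => cnt sp s + (if s = sP then K * q else 0) + (if s = sN then K * p else 0)) ≤
          energy D sp Ψ + U * ℓ ^ 2 + C * ℓ ^ 2) := by
  obtain ⟨C1, ℓ1, hC1, hℓ1, h1⟩ := lv_core D hD sP sN p q hp hq 1 (Or.inl rfl)
    (by rw [one_mul]; exact hcP) (by rw [one_mul]; exact hcN) ρ C0 hρ hC0
  obtain ⟨C2, ℓ2, hC2, hℓ2, h2⟩ := lv_core D hD sN sP q p hq hp (-1) (Or.inr rfl)
    (by rw [neg_one_mul]; exact hcN) (by rw [neg_one_mul, neg_neg]; exact hcP) ρ C0 hρ hC0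
  refine ⟨max C1 C2, max ℓ1 ℓ2, lt_of_lt_of_le hC1 (le_max_left _ _),
    lt_of_lt_of_le hℓ1 (le_max_left _ _), ?_⟩
  intro I _ _ sp ℓ hℓ hcard hneu Ψ hΨ hn U hU Eb hEb
  have hsq : 0 ≤ ℓ ^ 2 := sq_nonneg ℓ
  have m1 := mul_le_mul_of_nonneg_right (le_max_left C1 C2) hsq
  have m2 := mul_le_mul_of_nonneg_right (le_max_right C1 C2) hsq
  constructor
  · obtain ⟨K, hK, hE⟩ := h1 sp ℓ ((le_max_left _ _).trans hℓ) hcard hneu Ψ hΨ hn U hU Eb
      (fun sp' Φ h => hEb sp' Φ h)
    refine ⟨K, hK.trans m1, ?_⟩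
    have e : (fun s => cnt sp s + (if s = sP then K * q else 0) + (if s = sN then K * p else 0)) =
        fun s => cnt sp s + ((if s = sP then K * q else 0) + (if s = sN then K * p else 0)) := by
      funext s
      ring
    rw [e]
    linarith
  · obtain ⟨K, hK, hE⟩ := h2 sp ℓ ((le_max_right _ _).trans hℓ) hcard hneu Ψ hΨ hn U hU Eb
      (fun sp' Φ h => hEb sp' Φ h)
    refine ⟨K, hK.trans m2, ?_⟩
    have e : (fun s => cnt sp s + (if s = sP then K * q else 0) + (if s = sN then K * p else 0)) =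
        fun s => cnt sp s + ((if s = sN then K * p else 0) + (if s = sP then K * q else 0)) := by
      funext s
      ring
    rw [e]
    linarith

end Pool.Agent.Helper780_CP.RLV2
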