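import Pool.Agent.Helper780_CP.LLDefs2
import Pool.Agent.Helper780_CP.RLV2
import Pool.Agent.Helper780_CP.RGR2
import Pool.Agent.Helper780_CP.RUB
import Pool.Agent.Helper780_CP.RDIL
import Pool.Agent.Helper780_CP.Stable

set_option autoImplicit false

open MeasureTheory
open scoped Topology

namespace Pool.Agent.Helper780_CP.RLEV

open Pool.Agent.Helper780_CP
open Pool.Agent.Helper985.CP
open Pool.Agent.Helper780_CP.RLV2 (level_step)
open Pool.Agent.Helper780_CP.RGR2 (group_removal)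
open Pool.Agent.Helper780_CP.RUB (ge_spec)
open Pool.Agent.Helper780_CP.RDIL (dilation)

open Pool.Agent.Helper780_CP Pool.Agent.Helper985.CP

/-- occupation numbers with `j` groups added -/
def addG {S : Type} [DecidableEq S] (n : S → ℕ) (sP sN : S) (p q j : ℕ) (s : S) : ℕ :=
  n s + (if s = sP then j * q else 0) + (if s = sN then j * p else 0)

theorem addG_zero {S : Type} [DecidableEq S] (n : S → ℕ) (sP sN : S) (p q : ℕ) :
    addG n sP sN p q 0 = n := by
  funext s
  simp [addG]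

theorem addG_succ {S : Type} [DecidableEq S] (n : S → ℕ) (sP sN : S) (p q j : ℕ) (s : S) :
    addG n sP sN p q (j + 1) s =
      addG n sP sN p q j s + (if s = sP then q else 0) + (if s = sN then p else 0) := by
  unfold addG
  split_ifs <;> ring

theorem addG_sum {S : Type} [Fintype S] [DecidableEq S] (n : S → ℕ) (sP sN : S) (p q j : ℕ) :
    ∑ s, addG n sP sN p q j s = ∑ s, n s + j * (p + q) := by
  unfold addG
  rw [Finset.sum_add_distrib, Finset.sum_add_distrib, Finset.sum_ite_eq', Finset.sum_ite_eq']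
  simp only [Finset.mem_univ, if_true]
  ring

theorem addG_charge {S : Type} [Fintype S] [DecidableEq S] (f : S → ℝ) (n : S → ℕ) (sP sN : S)
    (p q j : ℕ) (hP : f sP = p) (hN : f sN = -(q : ℝ)) :
    ∑ s, (addG n sP sN p q j s : ℝ) * f s = ∑ s, (n s : ℝ) * f s := by
  unfold addG
  push_cast
  have h : ∀ s, ((n s : ℝ) + (if s = sP then (j : ℝ) * q else 0) + (if s = sN then (j : ℝ) * p
      else 0)) * f s = (n s : ℝ) * f s + (if s = sP then (j : ℝ) * q * f s else 0) +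
        (if s = sN then (j : ℝ) * p * f s else 0) := by
    intro s
    split_ifs <;> ring
  simp only [h]
  rw [Finset.sum_add_distrib, Finset.sum_add_distrib, Finset.sum_ite_eq', Finset.sum_ite_eq']
  simp only [Finset.mem_univ, if_true, hP, hN]
  ring

theorem cnt_card {S : Type} [Fintype S] [DecidableEq S] {I : Type} [Fintype I] (sp : I → S) :
    ∑ s, (cnt sp s : ℝ) = (Fintype.card I : ℝ) := by
  have h := sum_sp sp (fun _ => (1 : ℝ))
  simp only [mul_one, Finset.sum_const, Finset.card_univ, nsmul_eq_mul] at h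
  exact h.symm

theorem level_pair {S : Type} [Fintype S] [DecidableEq S] (D : Species S) (hD : D.Valid)
    (hst : HStable D) (hf : ∀ s, D.charge s < 0 → D.fermion s = true)
    (sP sN : S) (p q : ℕ) (hp : 0 < p) (hq : 0 < q) (hcP : D.charge sP = p)
    (hcN : D.charge sN = -(q : ℝ)) (ρ C0 c0 : ℝ) (hρ : 0 ≤ ρ) (hC0 : 0 ≤ C0) (hc0 : 0 < c0) :
    ∃ C ℓ0 : ℝ, 0 < C ∧ 0 < ℓ0 ∧ ∀ {I : Type} [Fintype I] [DecidableEq I] (sp : I → S) (ℓ : ℝ),
      ℓ0 ≤ ℓ → (Fintype.card I : ℝ) ≤ ρ * ℓ ^ 3 → (∑ i, D.charge (sp i) = 0) →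
      c0 * (Fintype.card I : ℝ) ≤ cnt sp sP → c0 * (Fintype.card I : ℝ) ≤ cnt sp sN →
      ∀ Ψ : Wave D I, IsState D sp ℓ Ψ → nrm2 D Ψ = 1 →
      energy D sp Ψ ≤ sInf (energies D sp ℓ) + 1 → ∀ U : ℝ,
      (∀ y, Metric.closedBall y 2 ⊆ cube ℓ → |phim D sp Ψ y - U| ≤ C0 ∧ kkm D Ψ y ≤ C0) →
      |U| ≤ C := by
  obtain ⟨C1, ℓ1, hC1, hℓ1, H1⟩ := level_step D hD sP sN p q hp hq hcP hcN ρ C0 hρ hC0
  have hpR : (0 : ℝ) < p := by exact_mod_cast hp
  have hqR : (0 : ℝ) < q := by exact_mod_cast hq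
  obtain ⟨c', hc'⟩ : ∃ c' : ℝ, c' = min c0 (min ((p : ℝ) / (p + q)) ((q : ℝ) / (p + q))) :=
    ⟨_, rfl⟩
  have hc'0 : 0 < c' := by
    rw [hc']
    exact lt_min hc0 (lt_min (by positivity) (by positivity))
  have hc'1 : c' ≤ c0 := by rw [hc']; exact min_le_left _ _
  have hc'p : c' * (p + q) ≤ p := by
    have : c' ≤ (p : ℝ) / (p + q) := by
      rw [hc']; exact (min_le_right _ _).trans (min_le_left _ _)
    rwa [le_div_iff₀ (by positivity)] at this
  have hc'q : c' * (p + q) ≤ q := by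
    have : c' ≤ (q : ℝ) / (p + q) := by
      rw [hc']; exact (min_le_right _ _).trans (min_le_right _ _)
    rwa [le_div_iff₀ (by positivity)] at this
  obtain ⟨C2, hC2, H2⟩ := group_removal D hD hst hf (ρ + C1 * (p + q)) c' (by positivity) hc'0
    sP sN p q hp hq hcP hcN
  obtain ⟨C3, hC3, H3⟩ := dilation D hD hf ρ hρ
  refine ⟨1 + 16 * C3 * ρ + C1 * C2 + C1, max ℓ1 16, by positivity,
    lt_of_lt_of_le (by norm_num) (le_max_right _ _), ?_⟩
  intro I _ _ sp ℓ hℓ hN hneu haP haN Ψ hΨ hΨ1 hE U hU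
  have hℓ16 : 16 ≤ ℓ := le_trans (le_max_right _ _) hℓ
  have hℓℓ1 : ℓ1 ≤ ℓ := le_trans (le_max_left _ _) hℓ
  have hsPN : sP ≠ sN := by
    intro h
    rw [h, hcN] at hcP
    linarith
  have hcard := cnt_card sp
  have key : ∀ K : ℕ, (K : ℝ) ≤ C1 * ℓ ^ 2 → sInf (energies D sp (ℓ + 16)) ≤
      groundEnergy D (ℓ + 16) (addG (fun s => cnt sp s) sP sN p q K) + K * C2 := by
    intro K
    induction K with
    | zero =>
      intro _
      rw [addG_zero, (ge_spec D hD hst (ℓ + 16) (by linarith)).1 sp]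
      simp
    | succ K ih =>
      intro hK
      push_cast at hK
      have hK' : (K : ℝ) ≤ C1 * ℓ ^ 2 := by linarith
      have h1 := ih hK'
      have hsum : (∑ s, (addG (fun s => cnt sp s) sP sN p q (K + 1) s : ℝ)) =
          (Fintype.card I : ℝ) + (K + 1) * (p + q) := by
        have := addG_sum (fun s => cnt sp s) sP sN p q (K + 1)
        rw [← hcard]
        exact_mod_cast this
      have hcd : (Fintype.card (Σ s, Fin (addG (fun s => cnt sp s) sP sN p q (K + 1) s)) : ℝ) =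
          (Fintype.card I : ℝ) + (K + 1) * (p + q) := by
        rw [← hsum, Fintype.card_sigma]
        simp only [Fintype.card_fin]
        push_cast
        rfl
      have step : groundEnergy D (ℓ + 16) (addG (fun s => cnt sp s) sP sN p q K) ≤
          groundEnergy D (ℓ + 16) (addG (fun s => cnt sp s) sP sN p q (K + 1)) + C2 := by
        unfold groundEnergy
        refine H2 (fun i : (Σ s, Fin (addG (fun s => cnt sp s) sP sN p q (K + 1) s)) => i.1)
          (fun i : (Σ s, Fin (addG (fun s => cnt sp s) sP sN p q K s)) => i.1) (ℓ + 16)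
          (by linarith) ?_ ?_ ?_ ?_ ?_
        · rw [hcd]
          have e1 : (K + 1 : ℝ) * (p + q) ≤ C1 * ℓ ^ 2 * (p + q) :=
            mul_le_mul_of_nonneg_right hK (by positivity)
          have e2 : ℓ ^ 3 ≤ (ℓ + 16) ^ 3 := by gcongr; linarith
          have e3 : ℓ ^ 2 ≤ (ℓ + 16) ^ 3 := by
            refine le_trans ?_ e2
            nlinarith [sq_nonneg ℓ]
          have e4 : ρ * ℓ ^ 3 ≤ ρ * (ℓ + 16) ^ 3 := mul_le_mul_of_nonneg_left e2 hρ
          have e5 : C1 * (p + q) * ℓ ^ 2 ≤ C1 * (p + q) * (ℓ + 16) ^ 3 :=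
            mul_le_mul_of_nonneg_left e3 (by positivity)
          have e6 : C1 * ℓ ^ 2 * (p + q) = C1 * (p + q) * ℓ ^ 2 := by ring
          have e7 : (ρ + C1 * (p + q)) * (ℓ + 16) ^ 3 =
              ρ * (ℓ + 16) ^ 3 + C1 * (p + q) * (ℓ + 16) ^ 3 := by ring
          rw [e7]
          linarith
        · rw [sum_sp]
          simp only [cnt_sigma]
          rw [addG_charge D.charge _ sP sN p q (K + 1) hcP hcN, ← sum_sp]
          exact hneu
        · rw [hcd, cnt_sigma]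
          have e0 : (addG (fun s => cnt sp s) sP sN p q (K + 1) sP : ℝ) =
              (cnt sp sP : ℝ) + (K + 1) * q := by
            unfold addG
            rw [if_pos rfl, if_neg hsPN]
            push_cast
            ring
          rw [e0]
          have e1 : c' * (Fintype.card I : ℝ) ≤ c0 * (Fintype.card I : ℝ) :=
            mul_le_mul_of_nonneg_right hc'1 (by positivity)
          have e2 : (K + 1 : ℝ) * (c' * (p + q)) ≤ (K + 1) * q :=
            mul_le_mul_of_nonneg_left hc'q (by positivity)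
          have e3 : c' * ((Fintype.card I : ℝ) + (K + 1) * (p + q)) =
              c' * (Fintype.card I : ℝ) + (K + 1) * (c' * (p + q)) := by ring
          rw [e3]
          linarith
        · rw [hcd, cnt_sigma]
          have e0 : (addG (fun s => cnt sp s) sP sN p q (K + 1) sN : ℝ) =
              (cnt sp sN : ℝ) + (K + 1) * p := by
            unfold addG
            rw [if_neg (Ne.symm hsPN), if_pos rfl]
            push_cast
            ring
          rw [e0]
          have e1 : c' * (Fintype.card I : ℝ) ≤ c0 * (Fintype.card I : ℝ) :=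
            mul_le_mul_of_nonneg_right hc'1 (by positivity)
          have e2 : (K + 1 : ℝ) * (c' * (p + q)) ≤ (K + 1) * p :=
            mul_le_mul_of_nonneg_left hc'p (by positivity)
          have e3 : c' * ((Fintype.card I : ℝ) + (K + 1) * (p + q)) =
              c' * (Fintype.card I : ℝ) + (K + 1) * (c' * (p + q)) := by ring
          rw [e3]
          linarith
        · intro s
          rw [cnt_sigma, cnt_sigma]
          exact addG_succ _ sP sN p q K s
      push_cast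
      linarith
  have hdil := H3 sp ℓ 16 (by linarith) (by norm_num) hℓ16 hN hneu
  have hdil2 : C3 * (16 / ℓ) * (Fintype.card I : ℝ) ≤ 16 * C3 * ρ * ℓ ^ 2 := by
    have h1 : C3 * (16 / ℓ) * (Fintype.card I : ℝ) ≤ C3 * (16 / ℓ) * (ρ * ℓ ^ 3) :=
      mul_le_mul_of_nonneg_left hN (by positivity)
    refine h1.trans (le_of_eq ?_)
    have : ℓ ≠ 0 := by linarith
    field_simp
  have hℓ2 : (1 : ℝ) ≤ ℓ ^ 2 := by nlinarith
  have fin : ∀ V : ℝ, ∀ K : ℕ, (K : ℝ) ≤ C1 * ℓ ^ 2 →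
      groundEnergy D (ℓ + 16) (addG (fun s => cnt sp s) sP sN p q K) ≤
        energy D sp Ψ - V * ℓ ^ 2 + C1 * ℓ ^ 2 → V ≤ 1 + 16 * C3 * ρ + C1 * C2 + C1 := by
    intro V K hK h
    have h1 := key K hK
    have h2 : (K : ℝ) * C2 ≤ C1 * ℓ ^ 2 * C2 := mul_le_mul_of_nonneg_right hK hC2.le
    have h3 : V * ℓ ^ 2 ≤ (1 + 16 * C3 * ρ + C1 * C2 + C1) * ℓ ^ 2 := by nlinarith
    exact le_of_mul_le_mul_right h3 (by linarith)
  obtain ⟨⟨K1, hK1, h1⟩, ⟨K2, hK2, h2⟩⟩ := H1 sp ℓ hℓℓ1 hN hneu Ψ hΨ hΨ1 U hU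
    (groundEnergy D (ℓ + 16))
    (fun {J} _ _ sp' Φ hΦ => (ge_spec D hD hst (ℓ + 16) (by linarith)).2 sp' Φ hΦ)
  rw [abs_le]
  constructor
  · have := fin (-U) K2 hK2 (by
      refine le_trans (le_of_eq ?_) (h2.trans (le_of_eq (by ring)))
      rfl)
    linarith
  · exact fin U K1 hK1 h1

theorem exists_freq {S : Type} [Fintype S] [DecidableEq S] (c : S → ℝ) (n : S → ℕ) (N z : ℝ)
    (hN : 0 < N) (hz : 0 < z) (hc : ∀ s, 1 ≤ |c s|) (hcz : ∀ s, |c s| ≤ z)
    (hn : ∑ s, (n s : ℝ) = N) (h0 : ∑ s, (n s : ℝ) * c s = 0) :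
    ∃ s, 0 < c s ∧ 1 / (2 * z * (Fintype.card S + 1)) * N ≤ n s := by
  by_contra hcon
  push Not at hcon
  have hS : (0 : ℝ) ≤ Fintype.card S := by positivity
  obtain ⟨c0, hc0⟩ : ∃ c0 : ℝ, c0 = 1 / (2 * z * (Fintype.card S + 1)) := ⟨_, rfl⟩
  have hc00 : 0 < c0 := by rw [hc0]; positivity
  have h1 : ∀ s, (n s : ℝ) * max (c s) 0 ≤ c0 * N * z := by
    intro s
    rcases le_or_gt (c s) 0 with h | h
    · rw [max_eq_right h, mul_zero]
      positivity
    · rw [max_eq_left h.le]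
      have := hcon s h
      rw [← hc0] at this
      have h3 : c s ≤ z := (le_abs_self _).trans (hcz s)
      exact mul_le_mul this.le h3 h.le (by positivity)
  have h2 : ∑ s, (n s : ℝ) * max (c s) 0 ≤ Fintype.card S * (c0 * N * z) := by
    refine (Finset.sum_le_sum fun s _ => h1 s).trans (le_of_eq ?_)
    rw [Finset.sum_const, Finset.card_univ, nsmul_eq_mul]
  have h3 : N ≤ ∑ s, (n s : ℝ) * (2 * max (c s) 0) := by
    have e1 : ∑ s, (n s : ℝ) * (2 * max (c s) 0) = ∑ s, (n s : ℝ) * |c s| := by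
      have e2 : ∀ s, (n s : ℝ) * (2 * max (c s) 0) = (n s : ℝ) * |c s| + (n s : ℝ) * c s := by
        intro s
        rcases le_or_gt (c s) 0 with h | h
        · rw [max_eq_right h, abs_of_nonpos h]; ring
        · rw [max_eq_left h.le, abs_of_pos h]; ring
      simp only [e2]
      rw [Finset.sum_add_distrib, h0, add_zero]
    rw [e1, ← hn]
    refine Finset.sum_le_sum fun s _ => ?_
    have := hc s
    have hns : (0 : ℝ) ≤ n s := by positivity
    nlinarith
  have h4 : ∑ s, (n s : ℝ) * (2 * max (c s) 0) = 2 * ∑ s, (n s : ℝ) * max (c s) 0 := by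
    rw [Finset.mul_sum]
    exact Finset.sum_congr rfl fun s _ => by ring
  rw [h4] at h3
  have h5 : 2 * z * (Fintype.card S + 1) * c0 = 1 := by
    rw [hc0]
    field_simp
  have h6 : N ≤ 2 * (Fintype.card S * (c0 * N * z)) := h3.trans (by linarith)
  have h7 : 2 * ((Fintype.card S : ℝ) * (c0 * N * z)) = N * (2 * z * (Fintype.card S + 1) * c0) -
      2 * z * c0 * N := by ring
  rw [h7, h5] at h6
  have : 0 < 2 * z * c0 * N := by positivity
  linarith

/-- TARGET -/
theorem level {S : Type} [Fintype S] [DecidableEq S] (D : Species S) (hD : D.Valid)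
    (hf : ∀ s, D.charge s < 0 → D.fermion s = true) (hZ : ∀ s, ∃ m : ℤ, D.charge s = m)
    (ρ C0 : ℝ) (hρ : 0 ≤ ρ) (hC0 : 0 ≤ C0) :
    ∃ C ℓ0 : ℝ, 0 < C ∧ 0 < ℓ0 ∧ ∀ {I : Type} [Fintype I] [DecidableEq I] (sp : I → S) (ℓ : ℝ),
      ℓ0 ≤ ℓ → (Fintype.card I : ℝ) ≤ ρ * ℓ ^ 3 → (∑ i, D.charge (sp i) = 0) →
      ∀ Ψ : Wave D I, IsState D sp ℓ Ψ → nrm2 D Ψ = 1 →
      energy D sp Ψ ≤ sInf (energies D sp ℓ) + 1 → ∀ U : ℝ,
      (∀ y, Metric.closedBall y 2 ⊆ cube ℓ → |phim D sp Ψ y - U| ≤ C0 ∧ kkm D Ψ y ≤ C0) →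
      |U| ≤ C := by
  classical
  have hst := hstable D hD hf
  have hc1 : ∀ s, 1 ≤ |D.charge s| := by
    intro s
    obtain ⟨m, hm⟩ := hZ s
    have h1 := hD.charge_ne s
    rw [hm] at h1 ⊢
    have h2 : m ≠ 0 := by exact_mod_cast h1
    have h3 : 1 ≤ |m| := Int.one_le_abs h2
    exact_mod_cast h3
  obtain ⟨z, hz⟩ : ∃ z : ℝ, z = 1 + ∑ s, |D.charge s| := ⟨_, rfl⟩
  have hz0 : 0 < z := by
    rw [hz]
    have : 0 ≤ ∑ s, |D.charge s| := Finset.sum_nonneg fun s _ => abs_nonneg _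
    linarith
  have hcz : ∀ s, |D.charge s| ≤ z := by
    intro s
    rw [hz]
    have h' : |D.charge s| ≤ ∑ s, |D.charge s| :=
      Finset.single_le_sum (f := fun s => |D.charge s|) (fun s _ => abs_nonneg _)
        (Finset.mem_univ s)
    linarith
  obtain ⟨c0, hc0⟩ : ∃ c0 : ℝ, c0 = 1 / (2 * z * (Fintype.card S + 1)) := ⟨_, rfl⟩
  have hc00 : 0 < c0 := by rw [hc0]; positivity
  have hpair : ∀ a : S × S, ∃ C ℓ0 : ℝ, 0 < C ∧ 0 < ℓ0 ∧ (0 < D.charge a.1 →
      D.charge a.2 < 0 → ∀ {I : Type} [Fintype I] [DecidableEq I] (sp : I → S) (ℓ : ℝ),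
      ℓ0 ≤ ℓ → (Fintype.card I : ℝ) ≤ ρ * ℓ ^ 3 → (∑ i, D.charge (sp i) = 0) →
      c0 * (Fintype.card I : ℝ) ≤ cnt sp a.1 → c0 * (Fintype.card I : ℝ) ≤ cnt sp a.2 →
      ∀ Ψ : Wave D I, IsState D sp ℓ Ψ → nrm2 D Ψ = 1 →
      energy D sp Ψ ≤ sInf (energies D sp ℓ) + 1 → ∀ U : ℝ,
      (∀ y, Metric.closedBall y 2 ⊆ cube ℓ → |phim D sp Ψ y - U| ≤ C0 ∧ kkm D Ψ y ≤ C0) →
      |U| ≤ C) := by
    intro a
    by_cases hP : 0 < D.charge a.1
    · by_cases hN : D.charge a.2 < 0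
      · obtain ⟨m, hm⟩ := hZ a.1
        obtain ⟨k, hk⟩ := hZ a.2
        have hm0 : 0 < m := by
          rw [hm] at hP
          exact_mod_cast hP
        have hk0 : k < 0 := by
          rw [hk] at hN
          exact_mod_cast hN
        have e1 : D.charge a.1 = ((m.toNat : ℕ) : ℝ) := by
          rw [hm]
          have : ((m.toNat : ℕ) : ℤ) = m := Int.toNat_of_nonneg hm0.le
          exact_mod_cast this.symm
        have e2 : D.charge a.2 = -(((-k).toNat : ℕ) : ℝ) := by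
          rw [hk]
          have : (((-k).toNat : ℕ) : ℤ) = -k := Int.toNat_of_nonneg (by omega)
          have h3 : k = -(((-k).toNat : ℕ) : ℤ) := by omega
          exact_mod_cast h3
        obtain ⟨C, ℓ0, h1, h2, h3⟩ := level_pair D hD hst hf a.1 a.2 m.toNat (-k).toNat
          (by omega) (by omega) e1 e2 ρ C0 c0 hρ hC0 hc00
        exact ⟨C, ℓ0, h1, h2, fun _ _ => h3⟩
      · exact ⟨1, 1, one_pos, one_pos, fun _ h => absurd h hN⟩
    · exact ⟨1, 1, one_pos, one_pos, fun h => absurd h hP⟩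
  choose C ℓ0 hC hℓ0 H using hpair
  have hCs : 0 ≤ ∑ a, C a := Finset.sum_nonneg fun a _ => (hC a).le
  have hℓs : 0 ≤ ∑ a, ℓ0 a := Finset.sum_nonneg fun a _ => (hℓ0 a).le
  refine ⟨1 + C0 + ∑ a, C a, 5 + ∑ a, ℓ0 a, by positivity, by positivity, ?_⟩
  intro I _ _ sp ℓ hℓ hN hneu Ψ hΨ hΨ1 hE U hU
  rcases isEmpty_or_nonempty I with hI | hI
  · have hph : ∀ y, phim D sp Ψ y = 0 := by
      intro y
      unfold phim mean
      simp
    have hy := (hU (WithLp.toLp 2 (fun _ => ℓ / 2)) (by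
      intro w hw k
      rw [Metric.mem_closedBall, dist_eq_norm] at hw
      have h1 := (PiLp.norm_apply_le (w - WithLp.toLp 2 (fun _ => ℓ / 2)) k).trans hw
      rw [PiLp.sub_apply, Real.norm_eq_abs, abs_le] at h1
      constructor <;> linarith [h1.1, h1.2])).1
    rw [hph, zero_sub, abs_neg] at hy
    linarith
  · have hNpos : (0 : ℝ) < Fintype.card I := by
      exact_mod_cast Fintype.card_pos
    have hsum : ∑ s, (cnt sp s : ℝ) * D.charge s = 0 := by
      rw [← sum_sp]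
      exact hneu
    obtain ⟨sP, hsP, hfP⟩ := exists_freq D.charge (fun s => cnt sp s) (Fintype.card I) z hNpos hz0
      hc1 hcz (cnt_card sp) hsum
    obtain ⟨sN, hsN, hfN⟩ := exists_freq (fun s => -D.charge s) (fun s => cnt sp s)
      (Fintype.card I) z hNpos hz0 (fun s => by rw [abs_neg]; exact hc1 s)
      (fun s => by rw [abs_neg]; exact hcz s) (cnt_card sp) (by
        simp only [mul_neg, Finset.sum_neg_distrib]
        rw [hsum, neg_zero])
    rw [← hc0] at hfP hfN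
    have h1 : ℓ0 (sP, sN) ≤ ∑ a, ℓ0 a :=
      Finset.single_le_sum (f := ℓ0) (fun a _ => (hℓ0 a).le) (Finset.mem_univ (sP, sN))
    have h2 : C (sP, sN) ≤ ∑ a, C a :=
      Finset.single_le_sum (f := C) (fun a _ => (hC a).le) (Finset.mem_univ (sP, sN))
    have h3 := H (sP, sN) hsP (by linarith) sp ℓ (by linarith) hN hneu hfP hfN Ψ hΨ hΨ1 hE U hU
    linarith

end Pool.Agent.Helper780_CP.RLEV
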