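import Pool.Agent.Helper780_CP.LLDefs2
import Pool.Agent.Helper780_CP.RUB
import Pool.Agent.Helper780_CP.RDIL
import Pool.Agent.Helper780_CP.RGR2
import Pool.Agent.Helper780_CP.Stable
import Pool.Agent.Helper985.CT.M_moveT_none

set_option autoImplicit false

open MeasureTheory
open scoped Topology

namespace Pool.Agent.Helper780_CP.RSMALL

open Pool.Agent.Helper780_CP
open Pool.Agent.Helper985.CP
open Pool.Agent.Helper780_CP.RUB (upper_bound)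
open Pool.Agent.Helper780_CP.RDIL (kin_bound dil_stab dilW dilW_state dilW_energy)
open Pool.Agent.Helper780_CP.RGR2 (gr_d gr_hardy1)

open Pool.Agent.Helper780_CP Pool.Agent.Helper985.CP

/-- a state in a cube is a state in every larger cube -/
theorem sm_state_mono {S : Type} (D : Species S) {I : Type} [Fintype I] [DecidableEq I]
    (sp : I → S) (ℓ L : ℝ) (hL : ℓ ≤ L) (Ψ : Wave D I) (hΨ : IsState D sp ℓ Ψ) :
    IsState D sp L Ψ := by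
  refine ⟨hΨ.smooth, hΨ.compact, fun τ x hx i k => ?_, hΨ.spin, hΨ.symm⟩
  have := hΨ.support τ hx i k
  exact ⟨this.1, lt_of_lt_of_le this.2 hL⟩

/-- the energy is the sum of the kinetic energy and of the Coulomb energy -/
theorem sm_energy_split {S : Type} (D : Species S) {I : Type} [Fintype I] [DecidableEq I]
    (sp : I → S) (ℓ : ℝ) (Ψ : Wave D I) (hΨ : IsState D sp ℓ Ψ) :
    energy D sp Ψ = (∑ τ, ∫ x, ∑ i, kin D sp i (Ψ τ) x) +
      ∑ τ, ∫ x, coul D sp x * ‖Ψ τ x‖ ^ 2 := by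
  unfold energy
  rw [← Finset.sum_add_distrib]
  refine Finset.sum_congr rfl fun τ _ => ?_
  have hst := int_state D sp ℓ Ψ hΨ τ
  rw [integral_add (integrable_finsetSum _ fun i _ => hst.2.1 i) hst.2.2.1]

theorem sm_kin_nonneg {S : Type} (D : Species S) (hD : D.Valid) {I : Type} [Fintype I]
    [DecidableEq I] (sp : I → S) (i : I) (u : (I → E3) → ℂ) (x : I → E3) :
    0 ≤ kin D sp i u x := by
  unfold kin
  have := (hD.mass_pos (sp i)).le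
  exact mul_nonneg (by positivity) (Finset.sum_nonneg fun _ _ => by positivity)

theorem sm_kinsum_nonneg {S : Type} (D : Species S) (hD : D.Valid) {I : Type} [Fintype I]
    [DecidableEq I] (sp : I → S) (Ψ : Wave D I) :
    0 ≤ ∑ τ, ∫ x, ∑ i, kin D sp i (Ψ τ) x :=
  Finset.sum_nonneg fun _ _ => integral_nonneg fun x =>
    Finset.sum_nonneg fun i _ => sm_kin_nonneg D hD sp i _ x

theorem sm_gr_kin {S : Type} (D : Species S) (hD : D.Valid) {I : Type} [Fintype I]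
    [DecidableEq I] (sp : I → S) (i : I) (u : (I → E3) → ℂ) (x : I → E3) :
    gr_d u i x = 2 * D.mass (sp i) * kin D sp i u x := by
  unfold gr_d kin
  have := (hD.mass_pos (sp i)).ne'
  field_simp

/-- Hardy's inequality in the variable `i`, integrated over the others -/
theorem sm_hardy {S : Type} (D : Species S) (hD : D.Valid) {I : Type} [Fintype I]
    [DecidableEq I] (sp : I → S) (ℓ : ℝ) (Ψ : Wave D I) (hΨ : IsState D sp ℓ Ψ) (i : I) (y : E3)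
    (τ : I → Fin D.g) :
    ∫ x, ‖x i - y‖⁻¹ ^ 2 * ‖Ψ τ x‖ ^ 2 ≤ 8 * D.mass (sp i) * ∫ x, kin D sp i (Ψ τ) x := by
  have hst := int_state D sp ℓ Ψ hΨ τ
  have hI1 : Integrable (fun x : I → E3 => ‖x i - y‖⁻¹ ^ 2 * ‖Ψ τ x‖ ^ 2) :=
    WI_one D sp ℓ i (fun z => ‖z - y‖⁻¹ ^ 2) (locInt_shift locInt_inv2 y) Ψ hΨ τ
  have hgr : ∀ x, 4 * gr_d (Ψ τ) i x = 8 * D.mass (sp i) * kin D sp i (Ψ τ) x := by
    intro x
    rw [sm_gr_kin D hD sp]
    ring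
  have hI2 : Integrable (fun x : I → E3 => 4 * gr_d (Ψ τ) i x) := by
    simp only [hgr]
    exact (hst.2.1 i).const_mul _
  have hm1 : Measurable (fun x : I → E3 => ENNReal.ofReal (‖x i - y‖⁻¹ ^ 2 * ‖Ψ τ x‖ ^ 2)) := by
    have h1 : Continuous (Ψ τ) := (hΨ.smooth τ).continuous
    have h2 : Measurable (fun x : I → E3 => ‖Ψ τ x‖ ^ 2) := (h1.norm.pow 2).measurable
    have h3 : Measurable (fun x : I → E3 => ‖x i - y‖⁻¹ ^ 2) := by fun_prop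
    exact (h3.mul h2).ennreal_ofReal
  have hm2 : Measurable (fun x : I → E3 => ENNReal.ofReal (4 * gr_d (Ψ τ) i x)) := by
    have h1 : Continuous (fderiv ℝ (Ψ τ)) := (hΨ.smooth τ).continuous_fderiv (by simp)
    have h2 : Continuous (gr_d (Ψ τ) i) := by
      unfold gr_d
      refine continuous_finsetSum _ fun k _ => ?_
      exact ((h1.clm_apply continuous_const).norm).pow 2
    exact (h2.const_mul 4).measurable.ennreal_ofReal
  have key : ∫⁻ x : I → E3, ENNReal.ofReal (‖x i - y‖⁻¹ ^ 2 * ‖Ψ τ x‖ ^ 2) ≤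
      ∫⁻ x : I → E3, ENNReal.ofReal (4 * gr_d (Ψ τ) i x) := by
    refine lintegral_le_of_lmarginal_le (μ := fun _ : I => (volume : Measure E3)) {i} hm1 hm2 ?_
    rw [lmarginal_singleton, lmarginal_singleton]
    intro x
    have h := gr_hardy1 (Ψ τ) (hΨ.smooth τ) (hΨ.compact τ) i y x
    simpa only [Function.update_self] using h
  have e1 := ofReal_integral_eq_lintegral_ofReal hI1
    (Filter.Eventually.of_forall fun x => by positivity)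
  have e2 := ofReal_integral_eq_lintegral_ofReal hI2
    (Filter.Eventually.of_forall fun x => by
      unfold gr_d
      exact mul_nonneg (by norm_num) (Finset.sum_nonneg fun _ _ => by positivity))
  rw [← e1, ← e2] at key
  have h0 : 0 ≤ ∫ x : I → E3, 4 * gr_d (Ψ τ) i x := integral_nonneg fun x => by
      unfold gr_d
      exact mul_nonneg (by norm_num) (Finset.sum_nonneg fun _ _ => by positivity)
  have h3 := (ENNReal.ofReal_le_ofReal_iff h0).1 key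
  refine h3.trans (le_of_eq ?_)
  simp only [hgr]
  rw [integral_const_mul]

/-- the mean potential is bounded by the kinetic energy -/
theorem sm_phim {S : Type} [Fintype S] [DecidableEq S] (D : Species S) (hD : D.Valid) {I : Type}
    [Fintype I] [DecidableEq I] (sp : I → S) (ℓ : ℝ) (Ψ : Wave D I) (hΨ : IsState D sp ℓ Ψ)
    (hn : nrm2 D Ψ = 1) (y : E3) :
    |phim D sp Ψ y| ≤ (∑ s, |D.charge s|) * ((Fintype.card I : ℝ) +
      8 * (∑ s, D.mass s) * ∑ τ, ∫ x, ∑ i, kin D sp i (Ψ τ) x) := by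
  have hz : ∀ s, |D.charge s| ≤ ∑ s, |D.charge s| := fun s =>
    Finset.single_le_sum (f := fun s => |D.charge s|) (fun t _ => abs_nonneg _)
      (Finset.mem_univ s)
  have hm : ∀ s, D.mass s ≤ ∑ s, D.mass s := fun s =>
    Finset.single_le_sum (f := fun s => D.mass s) (fun t _ => (hD.mass_pos t).le)
      (Finset.mem_univ s)
  have hz0 : 0 ≤ ∑ s, |D.charge s| := Finset.sum_nonneg fun t _ => abs_nonneg _
  have hm0 : 0 ≤ ∑ s, D.mass s := Finset.sum_nonneg fun t _ => (hD.mass_pos t).le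
  have hI1 : ∀ (i : I) (τ : I → Fin D.g), Integrable (fun x : I → E3 => ‖x i - y‖⁻¹ ^ 2 * ‖Ψ τ x‖ ^ 2) :=
    fun i τ => WI_one D sp ℓ i (fun z => ‖z - y‖⁻¹ ^ 2) (locInt_shift locInt_inv2 y) Ψ hΨ τ
  have hI0 : ∀ τ : I → Fin D.g, Integrable (fun x : I → E3 => ‖Ψ τ x‖ ^ 2) :=
    fun τ => (int_state D sp ℓ Ψ hΨ τ).1
  have hIk : ∀ (i : I) (τ : I → Fin D.g), Integrable (kin D sp i (Ψ τ)) :=
    fun i τ => (int_state D sp ℓ Ψ hΨ τ).2.1 i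
  have hIs : ∀ τ : I → Fin D.g, Integrable (fun x : I → E3 =>
      (∑ s, |D.charge s|) * ∑ i, (‖Ψ τ x‖ ^ 2 + ‖x i - y‖⁻¹ ^ 2 * ‖Ψ τ x‖ ^ 2)) := fun τ =>
    (integrable_finsetSum _ fun i _ => (hI0 τ).add (hI1 i τ)).const_mul _
  have hpt : ∀ (τ : I → Fin D.g) (x : I → E3),
      ‖(∑ i, D.charge (sp i) * (1 / ‖x i - y‖)) * ‖Ψ τ x‖ ^ 2‖ ≤
      (∑ s, |D.charge s|) * ∑ i, (‖Ψ τ x‖ ^ 2 + ‖x i - y‖⁻¹ ^ 2 * ‖Ψ τ x‖ ^ 2) := by
    intro τ x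
    rw [norm_mul, Real.norm_of_nonneg (sq_nonneg ‖Ψ τ x‖), Finset.mul_sum]
    have h1 : ‖∑ i, D.charge (sp i) * (1 / ‖x i - y‖)‖ ≤
        ∑ i, (∑ s, |D.charge s|) * (1 + ‖x i - y‖⁻¹ ^ 2) := by
      refine (norm_sum_le _ _).trans (Finset.sum_le_sum fun i _ => ?_)
      rw [norm_mul, one_div, Real.norm_of_nonneg (inv_nonneg.2 (norm_nonneg (x i - y))),
        Real.norm_eq_abs]
      have h2 : ‖x i - y‖⁻¹ ≤ 1 + ‖x i - y‖⁻¹ ^ 2 := by nlinarith [sq_nonneg (‖x i - y‖⁻¹ - 1)]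
      have h3 : 0 ≤ ‖x i - y‖⁻¹ := by positivity
      exact mul_le_mul (hz _) h2 h3 hz0
    refine (mul_le_mul_of_nonneg_right h1 (sq_nonneg _)).trans (le_of_eq ?_)
    rw [Finset.sum_mul]
    refine Finset.sum_congr rfl fun i _ => ?_
    ring
  have h1 : |phim D sp Ψ y| ≤ ∑ τ, ∫ x, (∑ s, |D.charge s|) *
      ∑ i, (‖Ψ τ x‖ ^ 2 + ‖x i - y‖⁻¹ ^ 2 * ‖Ψ τ x‖ ^ 2) := by
    unfold phim mean
    refine (Finset.abs_sum_le_sum_abs _ _).trans (Finset.sum_le_sum fun τ _ => ?_)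
    rw [← Real.norm_eq_abs]
    exact norm_integral_le_of_norm_le (hIs τ) (Filter.Eventually.of_forall fun x => hpt τ x)
  have h2 : ∀ τ : I → Fin D.g, ∫ x, (∑ s, |D.charge s|) *
      ∑ i, (‖Ψ τ x‖ ^ 2 + ‖x i - y‖⁻¹ ^ 2 * ‖Ψ τ x‖ ^ 2) ≤
      (∑ s, |D.charge s|) * ((Fintype.card I : ℝ) * (∫ x, ‖Ψ τ x‖ ^ 2) +
        8 * (∑ s, D.mass s) * ∫ x, ∑ i, kin D sp i (Ψ τ) x) := by
    intro τ
    rw [integral_const_mul]
    refine mul_le_mul_of_nonneg_left ?_ hz0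
    have ha : ∀ i ∈ (Finset.univ : Finset I), Integrable (fun x : I → E3 =>
        ‖Ψ τ x‖ ^ 2 + ‖x i - y‖⁻¹ ^ 2 * ‖Ψ τ x‖ ^ 2) := fun i _ => (hI0 τ).add (hI1 i τ)
    rw [integral_finsetSum _ ha,
      integral_finsetSum _ fun i _ => hIk i τ, Finset.mul_sum]
    have h3 : (Fintype.card I : ℝ) * (∫ x, ‖Ψ τ x‖ ^ 2) = ∑ _i : I, ∫ x, ‖Ψ τ x‖ ^ 2 := by
      simp
    rw [h3, ← Finset.sum_add_distrib]
    refine Finset.sum_le_sum fun i _ => ?_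
    rw [integral_add (hI0 τ) (hI1 i τ)]
    refine add_le_add le_rfl ((sm_hardy D hD sp ℓ Ψ hΨ i y τ).trans ?_)
    have h4 : 0 ≤ ∫ x, kin D sp i (Ψ τ) x := integral_nonneg fun x => sm_kin_nonneg D hD sp i _ x
    have := hm (sp i)
    gcongr
  refine h1.trans ((Finset.sum_le_sum fun τ _ => h2 τ).trans (le_of_eq ?_))
  rw [← Finset.mul_sum, Finset.sum_add_distrib, ← Finset.mul_sum, ← Finset.mul_sum]
  have h5 : ∑ τ, ∫ x, ‖Ψ τ x‖ ^ 2 = 1 := hn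
  rw [h5, mul_one]

/-- TARGET -/
theorem small {S : Type} [Fintype S] [DecidableEq S] (D : Species S) (hD : D.Valid)
    (hf : ∀ s, D.charge s < 0 → D.fermion s = true) (ρ ℓ0 : ℝ) (hρ : 0 ≤ ρ) (hℓ0 : 0 < ℓ0) :
    ∃ C : ℝ, 0 < C ∧ ∀ {I : Type} [Fintype I] [DecidableEq I] (sp : I → S) (ℓ : ℝ), 0 < ℓ →
      ℓ ≤ ℓ0 → (Fintype.card I : ℝ) ≤ ρ * ℓ ^ 3 → (∑ i, D.charge (sp i) = 0) →
      ∀ Ψ : Wave D I, IsState D sp ℓ Ψ → nrm2 D Ψ = 1 →
      energy D sp Ψ ≤ sInf (energies D sp ℓ) + 1 → ∀ y : E3, |phim D sp Ψ y| ≤ C := by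
  have hst : HStable D := hstable D hD hf
  obtain ⟨C1, hC1, HU⟩ := upper_bound D hD hst ρ hρ
  obtain ⟨C2, hC2, HK⟩ := kin_bound D hD hf ρ hρ
  obtain ⟨A, hA, HS⟩ := dil_stab D hD hf
  obtain ⟨L, hL⟩ : ∃ L, L = max ℓ0 4 := ⟨_, rfl⟩
  have hL4 : 4 ≤ L := by rw [hL]; exact le_max_right _ _
  have hL0 : ℓ0 ≤ L := by rw [hL]; exact le_max_left _ _
  have hLp : 0 < L := by linarith
  obtain ⟨M, hM⟩ : ∃ M, M = ρ * L ^ 3 := ⟨_, rfl⟩
  have hM0 : 0 ≤ M := by rw [hM]; positivity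
  obtain ⟨Λ, hΛ⟩ : ∃ Λ, Λ = L * (1 + ρ) := ⟨_, rfl⟩
  have hΛ0 : 0 ≤ Λ := by rw [hΛ]; positivity
  obtain ⟨E0, hE0⟩ : ∃ E0, E0 = Λ ^ 2 * (C2 * (1 + M)) + Λ * (C1 * M + 1) := ⟨_, rfl⟩
  have hE00 : 0 ≤ E0 := by rw [hE0]; positivity
  obtain ⟨T0, hT0⟩ : ∃ T0, T0 = 2 * (E0 + 1 + A * M) := ⟨_, rfl⟩
  have hT00 : 0 ≤ T0 := by rw [hT0]; positivity
  have hz0 : 0 ≤ ∑ s, |D.charge s| := Finset.sum_nonneg fun t _ => abs_nonneg _
  have hm0 : 0 ≤ ∑ s, D.mass s := Finset.sum_nonneg fun t _ => (hD.mass_pos t).le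
  refine ⟨1 + (∑ s, |D.charge s|) * (M + 8 * (∑ s, D.mass s) * T0), by positivity, ?_⟩
  intro I _ _ sp ℓ hℓ hℓℓ hN hneu Ψ hΨ hn hE y
  have hℓL : ℓ ≤ L := hℓℓ.trans hL0
  rcases isEmpty_or_nonempty I with hI | hI
  · have h0 : phim D sp Ψ y = 0 := by
      unfold phim mean
      simp
    rw [h0, abs_zero]
    positivity
  have hN1 : (1 : ℝ) ≤ (Fintype.card I : ℝ) := by
    exact_mod_cast Fintype.card_pos
  have hN0 : (0 : ℝ) ≤ (Fintype.card I : ℝ) := by linarith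
  have hNL : (Fintype.card I : ℝ) ≤ ρ * L ^ 3 := by
    refine hN.trans ?_
    gcongr
  have hNM : (Fintype.card I : ℝ) ≤ M := by rw [hM]; exact hNL
  -- the dilation factor
  obtain ⟨lam, hlam⟩ : ∃ lam, lam = L / ℓ := ⟨_, rfl⟩
  have hlam0 : 0 < lam := by rw [hlam]; positivity
  have hlamℓ : lam * ℓ = L := by rw [hlam]; field_simp
  have hinv : 1 ≤ (1 + ρ) * ℓ := by
    by_cases h1 : 1 ≤ ℓ
    · nlinarith
    · have h1' : ℓ ≤ 1 := by linarith [not_le.1 h1]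
      have h2 : ℓ ^ 3 ≤ ℓ := by
        have : ℓ ^ 3 = ℓ * ℓ ^ 2 := by ring
        rw [this]
        have h3 : ℓ ^ 2 ≤ 1 := by nlinarith
        nlinarith
      have h4 : 1 ≤ ρ * ℓ ^ 3 := hN1.trans hN
      nlinarith
  have hlamΛ : lam ≤ Λ := by
    rw [hlam, hΛ, div_le_iff₀ hℓ]
    nlinarith
  -- the near minimiser in the large cube
  obtain ⟨Φ0, hΦ0, hΦn, hΦE⟩ := (energies_basic D hD hst sp L hLp).2.2.2 1 one_pos
  obtain ⟨c, hc⟩ : ∃ c, c = (Real.sqrt (nrm2 D Φ0))⁻¹ := ⟨_, rfl⟩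
  have hc2 : c ^ 2 = (nrm2 D Φ0)⁻¹ := by
    rw [hc, inv_pow, Real.sq_sqrt hΦn.le]
  obtain ⟨Φ, hΦd⟩ : ∃ Φ : Wave D I, Φ = fun τ x => (c : ℂ) * Φ0 τ x := ⟨_, rfl⟩
  have hΦ : IsState D sp L Φ := by rw [hΦd]; exact MT_state_smul D sp L Φ0 hΦ0 _
  have hΦ1 : nrm2 D Φ = 1 := by
    rw [hΦd, MT_nrm2_smul, hc2, inv_mul_cancel₀ hΦn.ne']
  have hΦE1 : energy D sp Φ ≤ sInf (energies D sp L) + 1 := by
    rw [hΦd, MT_energy_smul D sp L Φ0 hΦ0, hc2, inv_mul_le_iff₀ hΦn]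
    rw [mul_comm]
    exact hΦE
  have hT := HK sp L hL4 hNL hneu Φ hΦ hΦ1 hΦE1
  have hU := HU sp L hL4 hNL hneu
  have hsp := sm_energy_split D sp L Φ hΦ
  have hTn := sm_kinsum_nonneg D hD sp Φ
  obtain ⟨T, hTd⟩ : ∃ T, T = ∑ τ, ∫ x, ∑ i, kin D sp i (Φ τ) x := ⟨_, rfl⟩
  obtain ⟨V, hVd⟩ : ∃ V, V = ∑ τ, ∫ x, coul D sp x * ‖Φ τ x‖ ^ 2 := ⟨_, rfl⟩
  rw [← hTd] at hT hTn
  rw [← hTd, ← hVd] at hsp
  have hV : V ≤ C1 * (Fintype.card I : ℝ) + 1 := by linarith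
  -- dilate
  have hΦ' : IsState D sp (lam * ℓ) Φ := by rw [hlamℓ]; exact hΦ
  obtain ⟨a, ha, han, haE⟩ := dilW_energy D sp lam ℓ hlam0 Φ hΦ'
  have hds := dilW_state D sp lam ℓ hlam0 Φ hΦ'
  have hmin := (energies_basic D hD hst sp ℓ hℓ).2.2.1 _ hds
  rw [han, haE, hΦ1, mul_one, ← hTd, ← hVd] at hmin
  have hmin' : sInf (energies D sp ℓ) ≤ lam ^ 2 * T + lam * V := by
    rw [mul_comm] at hmin
    exact le_of_mul_le_mul_left hmin ha
  have hb1 : lam ^ 2 * T ≤ Λ ^ 2 * (C2 * (1 + M)) := by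
    have h1 : T ≤ C2 * (1 + M) := hT.trans (by gcongr)
    have h2 : lam ^ 2 ≤ Λ ^ 2 := by gcongr
    exact mul_le_mul h2 h1 hTn (by positivity)
  have hb2 : lam * V ≤ Λ * (C1 * M + 1) := by
    have h1 : V ≤ C1 * M + 1 := hV.trans (by gcongr)
    calc lam * V ≤ lam * (C1 * M + 1) := by gcongr
      _ ≤ Λ * (C1 * M + 1) := by gcongr
  have hΨE : energy D sp Ψ ≤ E0 + 1 := by
    rw [hE0]
    linarith
  -- the kinetic energy of the given state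
  have hΨL := sm_state_mono D sp ℓ L hℓL Ψ hΨ
  have hTΨ := HS sp L (by linarith) Ψ hΨL
  rw [hn, mul_one] at hTΨ
  have hTΨ' : (∑ τ, ∫ x, ∑ i, kin D sp i (Ψ τ) x) ≤ T0 := by
    rw [hT0]
    have : A * (Fintype.card I : ℝ) ≤ A * M := by gcongr
    linarith
  have hfin := sm_phim D hD sp ℓ Ψ hΨ hn y
  refine hfin.trans ?_
  have h1 : (∑ s, |D.charge s|) * ((Fintype.card I : ℝ) +
      8 * (∑ s, D.mass s) * ∑ τ, ∫ x, ∑ i, kin D sp i (Ψ τ) x) ≤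
      (∑ s, |D.charge s|) * (M + 8 * (∑ s, D.mass s) * T0) := by
    gcongr
  linarith

end Pool.Agent.Helper780_CP.RSMALL
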