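import Pool.Agent.Helper780_CP.ROUT
import Pool.Agent.Helper780_CP.RLEV
import Pool.Agent.Helper780_CP.RSMALL
import Pool.Agent.Helper780_CP.RC2
import Pool.Agent.Helper780_CP.RK0

/-! The mean potential at the interior points, temperature zero. -/

set_option autoImplicit false

open MeasureTheory
open scoped Topology

namespace Pool.Agent.Helper780_CP

open Pool.Agent.Helper985.CP

/-- a finite net -/
theorem cover12 : ∃ F : Finset E3, (∀ p ∈ F, ‖p‖ ≤ 12) ∧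
    ∀ v : E3, ‖v‖ ≤ 12 → ∃ p ∈ F, ‖v - p‖ < 1 / 64 := by
  obtain ⟨t, ht1, htf, ht2⟩ := (isCompact_closedBall (0 : E3) 12).finite_cover_balls
    (e := 1 / 64) (by norm_num)
  refine ⟨htf.toFinset, fun p hp => ?_, fun v hv => ?_⟩
  · have := ht1 (htf.mem_toFinset.1 hp)
    simpa using this
  · have h1 : v ∈ Metric.closedBall (0 : E3) 12 := by simpa using hv
    have h2 := ht2 h1
    rw [Set.mem_iUnion₂] at h2
    obtain ⟨p, hp, hvp⟩ := h2
    refine ⟨p, htf.mem_toFinset.2 hp, ?_⟩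
    rw [Metric.mem_ball, dist_eq_norm] at hvp
    exact hvp

/-- The mean potential of near ground states at interior points. -/
theorem interior0 {S : Type} [Fintype S] [DecidableEq S] (D : Species S) (hD : D.Valid)
    (hf : ∀ s, D.charge s < 0 → D.fermion s = true) (hZ : ∀ s, ∃ m : ℤ, D.charge s = m)
    (ρ : ℝ) (hρ : 0 ≤ ρ) :
    ∃ (C : ℝ) (M : ℕ), 0 < C ∧
    ∀ {I : Type} [Fintype I] [DecidableEq I] (sp : I → S) (ℓ : ℝ), 0 < ℓ →
      (Fintype.card I : ℝ) ≤ ρ * ℓ ^ 3 → (∑ i, D.charge (sp i) = 0) →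
      ∀ Ψ : Wave D I, IsState D sp ℓ Ψ → nrm2 D Ψ = 1 →
      energy D sp Ψ ≤ sInf (energies D sp ℓ) + 1 / (1 + (Fintype.card I : ℝ)) ^ 2 →
      ∀ δ : ℝ, 0 < δ → δ ≤ 1 → ∀ y : E3, Metric.closedBall y δ ⊆ cube ℓ →
        |phim D sp Ψ y| ≤ C / δ ^ M := by
  have hst := hstable D hD hf
  -- bounds of the charges
  obtain ⟨z, hz0, hz⟩ : ∃ z : ℝ, 0 ≤ z ∧ ∀ s, |D.charge s| ≤ z := by
    refine ⟨∑ s, |D.charge s|, Finset.sum_nonneg fun s _ => abs_nonneg _, fun s => ?_⟩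
    exact Finset.single_le_sum (f := fun s => |D.charge s|) (fun t _ => abs_nonneg _)
      (Finset.mem_univ s)
  have hcm : ∀ s, (1 : ℝ) ≤ |D.charge s| := by
    intro s
    obtain ⟨m, hm⟩ := hZ s
    have h1 : m ≠ 0 := by
      intro h
      have := hD.charge_ne s
      rw [hm, h] at this
      simp at this
    rw [hm]
    exact_mod_cast Int.one_le_abs h1
  obtain ⟨K₁, C₁, hK₁, hC₁, hRB⟩ := RC2.ren_ball z hz0
  have hRB' : RB z K₁ C₁ := fun c x χ h1 h2 h3 => hRB c x χ h1 h2 h3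
  obtain ⟨F, hF2, hF⟩ := cover12
  obtain ⟨a, b, l, hK⟩ := RK0.ker_exists
  obtain ⟨C, M, hC, HI⟩ := ROUT.interior D hD hst hf z 1 K₁ C₁ one_pos
    (fun s => ⟨hcm s, hz s⟩) hK₁ hC₁ hRB' F hF hF2 ρ hρ a b l hK
  obtain ⟨C2, ℓ0, hC2, hℓ0, HL⟩ := RLEV.level D hD hf hZ ρ C hρ hC.le
  obtain ⟨C3, hC3, HS⟩ := RSMALL.small D hD hf ρ (max 4 ℓ0) hρ
    (lt_of_lt_of_le (by norm_num) (le_max_left _ _))
  refine ⟨C + C2 + C3, M, by positivity, ?_⟩
  intro I _ _ sp ℓ hℓ hcard hneu Ψ hΨ hn hE δ hδ hδ1 y hy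
  have hN0 : (0 : ℝ) ≤ Fintype.card I := Nat.cast_nonneg _
  have hη : (0 : ℝ) ≤ 1 / (1 + (Fintype.card I : ℝ)) ^ 2 := by positivity
  have hη1 : 1 / (1 + (Fintype.card I : ℝ)) ^ 2 * (1 + (Fintype.card I : ℝ)) ^ 2 ≤ 1 := by
    rw [div_mul_cancel₀]
    positivity
  have hη2 : 1 / (1 + (Fintype.card I : ℝ)) ^ 2 ≤ 1 := by
    rw [div_le_one (by positivity)]
    nlinarith
  have hE1 : energy D sp Ψ ≤ sInf (energies D sp ℓ) + 1 := by linarith
  have hδM : (1 : ℝ) ≤ 1 / δ ^ M := by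
    rw [le_div_iff₀ (by positivity), one_mul]
    exact pow_le_one₀ hδ.le hδ1
  have hmono : ∀ a : ℝ, 0 ≤ a → a ≤ a / δ ^ M := by
    intro a ha
    have := mul_le_mul_of_nonneg_left hδM ha
    rw [mul_one, mul_one_div] at this
    exact this
  rcases le_or_gt (max 4 ℓ0) ℓ with hbig | hsmall
  · have h4 : 4 ≤ ℓ := (le_max_left _ _).trans hbig
    have h0 : ℓ0 ≤ ℓ := (le_max_right _ _).trans hbig
    obtain ⟨h1, h2⟩ := HI sp ℓ h4 hcard hneu _ hη hη1 Ψ hΨ hn hE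
    have h3 := h1 δ hδ hδ1 y hy
    have h5 := HL sp ℓ h0 hcard hneu Ψ hΨ hn hE1 (wm D (phb D sp ℓ) Ψ) (fun y hy => by
      refine ⟨?_, h2 y hy⟩
      have := h1 1 one_pos le_rfl y
        ((Metric.closedBall_subset_closedBall (by norm_num)).trans hy)
      simpa using this)
    have h6 : |phim D sp Ψ y| ≤ |phim D sp Ψ y - wm D (phb D sp ℓ) Ψ| +
        |wm D (phb D sp ℓ) Ψ| := by
      have := abs_add_le (phim D sp Ψ y - wm D (phb D sp ℓ) Ψ) (wm D (phb D sp ℓ) Ψ)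
      simpa using this
    have h7 : (C + C2 + C3) / δ ^ M = C / δ ^ M + C2 / δ ^ M + C3 / δ ^ M := by ring
    have h8 := hmono C2 hC2.le
    have h9 := (hC3.le).trans (hmono C3 hC3.le)
    linarith
  · have h3 := HS sp ℓ hℓ hsmall.le hcard hneu Ψ hΨ hn hE1 y
    have h7 : (C + C2 + C3) / δ ^ M = C / δ ^ M + C2 / δ ^ M + C3 / δ ^ M := by ring
    have h8 := hmono C3 hC3.le
    have h9 : 0 ≤ C / δ ^ M := by positivity
    have h10 : 0 ≤ C2 / δ ^ M := by positivity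
    linarith

end Pool.Agent.Helper780_CP
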