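import Pool.Agent.Helper780_CP.TDefs
import Pool.Agent.Helper985.CT.Defs

/-! Definitions for the local removal of particles at positive temperature. -/

set_option autoImplicit false

open MeasureTheory
open scoped Topology

namespace Pool.Agent.Helper780_CP

open Pool.Agent.Helper985.CP

/-- the vector `(4, 4, 4)` -/
noncomputable def c44 : E3 := WithLp.toLp 2 (fun _ => (4 : ℝ))

/-- plane waves of the cube of side 8 with centre `y`, cut off around `y` at scale `r` -/
noncomputable def lpw (y : E3) (r : ℝ) (m : Fin 3 → ℤ) (z : E3) : ℂ :=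
  ((cy y r z : ℝ) : ℂ) * pwave 8 m (z - y + c44)

/-- families of wave functions dominated by `√c` times orthonormal ones -/
def SGc {S : Type} (D : Species S) {I : Type} [Fintype I] [DecidableEq I] {k : ℕ} (c : ℝ)
    (ψ : Fin k → Wave D I) : Prop :=
  ∀ γ : Fin k → ℂ, nrm2 D (fun τ x => ∑ j, γ j * ψ j τ x) ≤ c * ∑ j, ‖γ j‖ ^ 2

/-- kinetic energy of all particles -/
noncomputable def KN {S : Type} (D : Species S) {I : Type} [Fintype I] [DecidableEq I]
    (sp : I → S) (Ψ : Wave D I) : ℝ := ∑ τ, ∫ x, ∑ i, kin D sp i (Ψ τ) x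

/-- kinetic energy with the weight `∑ i, cy y r (x i) ^ 2` -/
noncomputable def kcy {S : Type} (D : Species S) {I : Type} [Fintype I] [DecidableEq I]
    (sp : I → S) (y : E3) (r : ℝ) (Ψ : Wave D I) : ℝ :=
  ∑ τ, ∫ x, ∑ j, (∑ i, cy y r (x i) ^ 2) * kin D sp j (Ψ τ) x

end Pool.Agent.Helper780_CP
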