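import Pool.Agent.Helper780_CP.MoveT
import Pool.Agent.Helper780_CP.Flat0
import Pool.Agent.Helper985.CT.M_lz_bounds
import Pool.Agent.Helper985.CT.M_peierls_bdd
import Pool.Agent.Helper985.CT.M_peierls_pos
import Pool.Agent.Helper985.CT.M_center_lower

set_option autoImplicit false

open MeasureTheory
open scoped Topology

namespace Pool.Agent.Helper780_CP

open Pool.Agent.Helper985.CP

/-- Gibbs' inequality for finite families -/
theorem gibbs_fin {k : ℕ} (p Y : Fin k → ℝ) (hp : ∀ j, 0 ≤ p j) (hp1 : ∑ j, p j = 1) :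
    Real.exp (∑ j, (p j * Y j - p j * Real.log (p j))) ≤ ∑ j, Real.exp (Y j) := by
  have h := MT_finjensen p (fun j => p j * Y j - p j * Real.log (p j)) hp (fun j hj => by
    rw [hj]; simp)
  rw [hp1, one_mul, div_one] at h
  refine h.trans (Finset.sum_le_sum fun j _ => ?_)
  rcases (hp j).eq_or_lt with h0 | h0
  · rw [← h0, zero_mul]
    exact (Real.exp_pos _).le
  · have e : (p j * Y j - p j * Real.log (p j)) / p j = Y j - Real.log (p j) := by
      field_simp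
    rw [e, Real.exp_sub, Real.exp_log h0]
    rw [mul_div_cancel₀ _ h0.ne']

/-- Flatness of the mean potential in states close to thermal equilibrium. -/
theorem flatT {S : Type} [Fintype S] [DecidableEq S] (D : Species S) (hD : D.Valid)
    (hst : HStable D) (δ T V ρ : ℝ) (hδ : 0 < δ) (hT : 0 < T) (hV : 0 < V) (hρ : 0 < ρ) :
    ∃ C : ℝ, 0 < C ∧ ∀ {I : Type} [Fintype I] [DecidableEq I] (sp : I → S) (ℓ : ℝ), 0 < ℓ →
      ℓ ^ 3 ≤ V * (Fintype.card I : ℝ) → (Fintype.card I : ℝ) ≤ ρ * ℓ ^ 3 →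
      (∑ i, D.charge (sp i) = 0) → ∀ {k : ℕ} (ψ : Fin k → Wave D I), Ortho D sp ℓ ψ →
      ∀ p : Fin k → ℝ, (∀ j, 0 ≤ p j) → ∑ j, p j = 1 →
      ∑ j, (p j * energy D sp (ψ j) + T * (p j * Real.log (p j))) ≤
        -T * Real.log (sSup (peierls D sp ℓ T)) + 1 →
      ∃ U : ℝ, ∀ y, Metric.closedBall y δ ⊆ cube ℓ →
        |∑ j, p j * phim D sp (ψ j) y - U| ≤ C * (1 + ∑ j, p j * wm D (near2 y) (ψ j)) := by
  obtain ⟨C, hC, H⟩ := moveT D hD δ hδ
  obtain ⟨A, hA⟩ := id hst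
  have hAA : ∀ {J : Type} [Fintype J] [DecidableEq J] (sp' : J → S) (ℓ : ℝ), 0 < ℓ →
      ∀ (Ψ : Wave D J), IsState D sp' ℓ Ψ →
      -|A| * (Fintype.card J : ℝ) * nrm2 D Ψ ≤ energy D sp' Ψ := by
    intro J _ _ sp' ℓ hℓ Ψ hΨ
    refine le_trans ?_ (stable_any D A hA sp' ℓ hℓ Ψ hΨ)
    have := nrm2_nn D Ψ
    have h2 := le_abs_self A
    have h3 : (0 : ℝ) ≤ (Fintype.card J : ℝ) * nrm2 D Ψ := by positivity
    nlinarith
  obtain ⟨cm, hcm⟩ : ∃ cm, cm = ∑ s, |D.charge s|⁻¹ := ⟨_, rfl⟩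
  have hcm1 : ∀ s, |D.charge s|⁻¹ ≤ cm := by
    intro s
    rw [hcm]
    exact Finset.single_le_sum (f := fun s => |D.charge s|⁻¹) (fun t _ => by positivity)
      (Finset.mem_univ s)
  have hcm0 : 0 ≤ cm := by rw [hcm]; exact Finset.sum_nonneg fun t _ => by positivity
  -- one-particle partition functions
  obtain ⟨ℓ0, hℓ0⟩ : ∃ ℓ0, ℓ0 = min 1 (1 / ρ) := ⟨_, rfl⟩
  have hℓ0p : 0 < ℓ0 := by rw [hℓ0]; exact lt_min one_pos (by positivity)
  have hlz : ∀ s, ∃ C : ℝ, 0 < C ∧ ∀ ℓ : ℝ, ℓ0 ≤ ℓ →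
    HasSum (fun m => Real.exp (-((1 / 2) / (2 * D.mass s * T) * pen ℓ m) -
      lz ℓ ((1 / 2) / (2 * D.mass s * T)))) 1 ∧
    Real.exp (lz ℓ ((1 / 2) / (2 * D.mass s * T))) ≤ C * ℓ ^ 3 ∧
    ℓ ^ 3 ≤ C * Real.exp (lz ℓ ((1 / 2) / (2 * D.mass s * T))) := fun s =>
    lz_bounds _ _ (by have := hD.mass_pos s; positivity) hℓ0p
  choose C2 hC2p hC2 using hlz
  obtain ⟨K, hKd⟩ : ∃ K, K = ∑ s, C2 s := ⟨_, rfl⟩
  have hK : 0 ≤ K := by rw [hKd]; exact Finset.sum_nonneg fun s _ => (hC2p s).le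
  have hKs : ∀ s, C2 s ≤ K := fun s => by
    rw [hKd]
    exact Finset.single_le_sum (f := C2) (fun t _ => (hC2p t).le) (Finset.mem_univ s)
  obtain ⟨W, hWd⟩ : ∃ W, W = K * V := ⟨_, rfl⟩
  have hW : 0 ≤ W := by rw [hWd]; positivity
  obtain ⟨M, hMd⟩ : ∃ M, M = K * ρ := ⟨_, rfl⟩
  have hM0 : 0 ≤ M := by rw [hMd]; positivity
  obtain ⟨G, hG⟩ : ∃ G, G = |Real.log ((D.g : ℝ) * (1 + M))| := ⟨_, rfl⟩
  have hG0 : 0 ≤ G := by rw [hG]; positivity
  have hS0 : (0 : ℝ) ≤ (Fintype.card S : ℝ) := Nat.cast_nonneg _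
  obtain ⟨A2, hA2⟩ : ∃ A2, A2 = 8 * |A| + T * ((Fintype.card S : ℝ) * W) := ⟨_, rfl⟩
  have hA20 : 0 ≤ A2 := by rw [hA2]; positivity
  obtain ⟨K1, hK1⟩ : ∃ K1, K1 = 1 + T * G + T * (C * (1 + 1 / T)) := ⟨_, rfl⟩
  have hK10 : 0 ≤ K1 := by rw [hK1]; positivity
  refine ⟨cm * (K1 + (Fintype.card S : ℝ) * (K1 + A2)) + 1, by positivity, ?_⟩
  intro I _ _ sp ℓ hℓ hlV hlρ hneu k ψ hψ p hp hp1 hfree
  have hw0 : ∀ y j, 0 ≤ wm D (near2 y) (ψ j) := by
    intro y j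
    unfold wm
    exact Finset.sum_nonneg fun τ _ => integral_nonneg fun x =>
      mul_nonneg (near2_nonneg y x) (sq_nonneg _)
  have hw1 : ∀ y, 0 ≤ ∑ j, p j * wm D (near2 y) (ψ j) := fun y =>
    Finset.sum_nonneg fun j _ => mul_nonneg (hp j) (hw0 y j)
  rcases isEmpty_or_nonempty I with hI | hI
  · refine ⟨0, fun y _ => ?_⟩
    have h1 : ∀ j, phim D sp (ψ j) y = 0 := by
      intro j
      unfold phim mean
      simp
    simp only [h1, mul_zero, Finset.sum_const_zero, sub_zero, abs_zero]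
    have := hw1 y
    positivity
  obtain ⟨i0, hi0⟩ := exists_abundant sp
  have hNpos : 0 < (Fintype.card I : ℝ) := by
    exact_mod_cast Fintype.card_pos
  have hN1 : (1 : ℝ) ≤ (Fintype.card I : ℝ) := by
    exact_mod_cast Fintype.card_pos
  have hℓ0ℓ : ℓ0 ≤ ℓ := by
    by_contra hcon
    push Not at hcon
    have h1 : ℓ ^ 3 < ℓ0 ^ 3 := pow_lt_pow_left₀ hcon hℓ.le (by norm_num)
    have h2 : ℓ0 ≤ 1 := by rw [hℓ0]; exact min_le_left _ _
    have h3 : ℓ0 ≤ 1 / ρ := by rw [hℓ0]; exact min_le_right _ _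
    have h4 : ℓ0 ^ 3 ≤ ℓ0 := by
      have : ℓ0 ^ 2 ≤ 1 := by nlinarith
      nlinarith
    have h5 : ρ * ℓ ^ 3 < 1 := by
      calc ρ * ℓ ^ 3 < ρ * (1 / ρ) := mul_lt_mul_of_pos_left (by linarith) hρ
        _ = 1 := by field_simp
    linarith
  let L : S → ℝ := fun s => lz ℓ ((1 / 2) / (2 * D.mass s * T))
  have hLW : ∀ s, Real.exp (L s) ≤ W * (Fintype.card I : ℝ) := by
    intro s
    calc Real.exp (L s) ≤ C2 s * ℓ ^ 3 := (hC2 s ℓ hℓ0ℓ).2.1
      _ ≤ K * ℓ ^ 3 := mul_le_mul_of_nonneg_right (hKs s) (by positivity)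
      _ ≤ K * (V * (Fintype.card I : ℝ)) := mul_le_mul_of_nonneg_left hlV hK
      _ = W * (Fintype.card I : ℝ) := by rw [hWd]; ring
  have hcle : ∀ s, (cnt sp s : ℝ) ≤ Fintype.card I := by
    intro s
    unfold cnt
    exact_mod_cast Finset.card_le_univ _
  have hLM : ∀ s, (cnt sp s : ℝ) * Real.exp (-(L s)) ≤ M := by
    intro s
    have h1 : (cnt sp s : ℝ) ≤ M * Real.exp (L s) := by
      calc (cnt sp s : ℝ) ≤ (Fintype.card I : ℝ) := hcle s
        _ ≤ ρ * ℓ ^ 3 := hlρ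
        _ ≤ ρ * (C2 s * Real.exp (L s)) :=
            mul_le_mul_of_nonneg_left (hC2 s ℓ hℓ0ℓ).2.2 hρ.le
        _ ≤ ρ * (K * Real.exp (L s)) := mul_le_mul_of_nonneg_left
            (mul_le_mul_of_nonneg_right (hKs s) (Real.exp_pos _).le) hρ.le
        _ = M * Real.exp (L s) := by rw [hMd]; ring
    rw [Real.exp_neg, ← div_eq_mul_inv, div_le_iff₀ (Real.exp_pos _)]
    exact h1
  have hHS : ∀ s, HasSum (fun m => Real.exp (-((1 / 2) / (2 * D.mass s * T) * pen ℓ m) - L s)) 1 :=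
    fun s => (hC2 s ℓ hℓ0ℓ).1
  have hgram := fun γ => (cl_ortho_norm D sp ℓ ψ hψ γ).le
  have hn1 := fun j => cl_nrm2_one D sp ℓ ψ hψ j
  obtain ⟨hne, hZpos⟩ := peierls_pos D hD hst sp ℓ T hℓ hT
  have hbdd := peierls_bdd D hD hst sp ℓ T hℓ hT
  obtain ⟨Z, hZ⟩ : ∃ Z, Z = sSup (peierls D sp ℓ T) := ⟨_, rfl⟩
  rw [← hZ] at hfree hZpos
  have hZle : ∀ z ∈ peierls D sp ℓ T, z ≤ Z := fun z hz => by rw [hZ]; exact le_csSup hbdd hz
  -- the quantities
  let q : I → ℝ := fun i => ∑ j, p j * (pe D sp i (ψ j) - (1 / 2) * kinE D sp i (ψ j)) -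
    T * (L (sp i) - Real.log (cnt sp (sp i)))
  refine ⟨q i0 / D.charge (sp i0), fun y hy => ?_⟩
  obtain ⟨Φ, hΦ⟩ : ∃ Φ, Φ = ∑ j, p j * phim D sp (ψ j) y := ⟨_, rfl⟩
  obtain ⟨κ, hκ⟩ : ∃ κ, κ = ∑ j, p j * wm D (near2 y) (ψ j) := ⟨_, rfl⟩
  rw [← hΦ, ← hκ]
  have hκ0 : 0 ≤ κ := by rw [hκ]; exact hw1 y
  have hmove : ∀ i, q i ≤ D.charge (sp i) * Φ + K1 * (1 + κ) := by
    intro i
    have h1 := H sp ℓ y hℓ hy T _ Z hT hZle i (L (sp i)) (hHS (sp i)) M (hLM (sp i))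
      (rest_lower D sp ℓ |A| (fun sp' Φ hΦ => hAA sp' ℓ hℓ Φ hΦ) i) ψ hψ.1 hgram hn1
    obtain ⟨lam, hlam⟩ : ∃ lam, lam = L (sp i) - Real.log (cnt sp (sp i)) := ⟨_, rfl⟩
    have h2 := (gibbs_fin p _ hp hp1).trans h1
    have hg1 : 0 < (D.g : ℝ) * (1 + M) := by
      by_contra hcon
      push Not at hcon
      have h3 := Real.exp_pos (∑ j, (p j * (-(energy D sp (ψ j) - pe D sp i (ψ j) +
        (1 / 2) * kinE D sp i (ψ j) + D.charge (sp i) * phim D sp (ψ j) y) / T -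
        C * (1 + 1 / T) * (1 + wm D (near2 y) (ψ j)) - (L (sp i) - Real.log (cnt sp (sp i)))) -
        p j * Real.log (p j)))
      have h4 : (D.g : ℝ) * (1 + M) * Z ≤ 0 := mul_nonpos_of_nonpos_of_nonneg hcon hZpos.le
      linarith
    have h3 := (Real.le_log_iff_exp_le (mul_pos hg1 hZpos)).2 h2
    rw [Real.log_mul hg1.ne' hZpos.ne'] at h3
    have h4 : Real.log ((D.g : ℝ) * (1 + M)) ≤ G := by rw [hG]; exact le_abs_self _
    have e1 : ∑ j, (p j * (-(energy D sp (ψ j) - pe D sp i (ψ j) +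
        (1 / 2) * kinE D sp i (ψ j) + D.charge (sp i) * phim D sp (ψ j) y) / T -
        C * (1 + 1 / T) * (1 + wm D (near2 y) (ψ j)) - (L (sp i) - Real.log (cnt sp (sp i)))) -
        p j * Real.log (p j)) =
        -(1 / T) * (∑ j, (p j * energy D sp (ψ j) + T * (p j * Real.log (p j))) -
        ∑ j, p j * (pe D sp i (ψ j) - (1 / 2) * kinE D sp i (ψ j)) + D.charge (sp i) * Φ) -
        C * (1 + 1 / T) * (1 + κ) - lam := by
      have hp2 : (1 : ℝ) = ∑ j, p j := hp1.symm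
      have e2 : C * (1 + 1 / T) * (1 + κ) = ∑ j, p j * (C * (1 + 1 / T) *
          (1 + wm D (near2 y) (ψ j))) := by
        rw [hκ]
        have : (1 : ℝ) + ∑ j, p j * wm D (near2 y) (ψ j) =
          ∑ j, p j * (1 + wm D (near2 y) (ψ j)) := by
          simp only [mul_add, mul_one]
          rw [Finset.sum_add_distrib, hp1]
        rw [this, Finset.mul_sum]
        refine Finset.sum_congr rfl fun j _ => ?_
        ring
      have e3 : lam = ∑ j, p j * lam := by rw [← Finset.sum_mul, hp1, one_mul]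
      have e4 : D.charge (sp i) * Φ = ∑ j, D.charge (sp i) * (p j * phim D sp (ψ j) y) := by
        rw [hΦ, Finset.mul_sum]
      rw [e2, e3, e4, ← Finset.sum_sub_distrib, ← Finset.sum_add_distrib, Finset.mul_sum,
        ← Finset.sum_sub_distrib, ← Finset.sum_sub_distrib]
      refine Finset.sum_congr rfl fun j _ => ?_
      rw [← hlam]
      field_simp
      ring
    rw [e1] at h3
    have h5 : -(∑ j, (p j * energy D sp (ψ j) + T * (p j * Real.log (p j))) -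
        ∑ j, p j * (pe D sp i (ψ j) - (1 / 2) * kinE D sp i (ψ j)) + D.charge (sp i) * Φ) -
        T * (C * (1 + 1 / T) * (1 + κ)) - T * lam ≤ T * (G + Real.log Z) := by
      have h6 : T * (-(1 / T) * (∑ j, (p j * energy D sp (ψ j) + T * (p j * Real.log (p j))) -
        ∑ j, p j * (pe D sp i (ψ j) - (1 / 2) * kinE D sp i (ψ j)) + D.charge (sp i) * Φ) -
        C * (1 + 1 / T) * (1 + κ) - lam) ≤ T * (G + Real.log Z) :=
        mul_le_mul_of_nonneg_left (h3.trans (by linarith)) hT.le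
      have e5 : ∀ a b c d e : ℝ, T * (-(1 / T) * (a - b + c) - d - e) =
          -(a - b + c) - T * d - T * e := by
        intro a b c d e
        field_simp
      rw [e5] at h6
      exact h6
    have h7 : q i = ∑ j, p j * (pe D sp i (ψ j) - (1 / 2) * kinE D sp i (ψ j)) - T * lam := by
      rw [hlam]
    rw [h7, hK1]
    have h8 : 0 ≤ T * G * κ := by positivity
    have e6 : (1 + T * G + T * (C * (1 + 1 / T))) * (1 + κ) = 1 + κ + T * G + T * G * κ +
      T * (C * (1 + 1 / T) * (1 + κ)) := by ring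
    rw [e6]
    have e7 : T * (G + Real.log Z) = T * G + T * Real.log Z := by ring
    rw [e7] at h5
    linarith
  have hstab : -A2 * (Fintype.card I : ℝ) ≤ ∑ i, q i := by
    have s1 : -(8 * |A|) * (Fintype.card I : ℝ) ≤
        ∑ i, ∑ j, p j * (pe D sp i (ψ j) - (1 / 2) * kinE D sp i (ψ j)) := by
      rw [Finset.sum_comm]
      have s2 : ∀ j, -(8 * |A|) * (Fintype.card I : ℝ) ≤
          ∑ i, (pe D sp i (ψ j) - (1 / 2) * kinE D sp i (ψ j)) := by
        intro j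
        have := sum_pe_half D hD |A| sp (fun ℓ hℓ Φ hΦ => hAA sp ℓ hℓ Φ hΦ) ℓ hℓ (ψ j) (hψ.1 j)
        rw [hn1 j, mul_one] at this
        exact this
      have s3 : ∀ j, p j * (-(8 * |A|) * (Fintype.card I : ℝ)) ≤
          ∑ i, p j * (pe D sp i (ψ j) - (1 / 2) * kinE D sp i (ψ j)) := by
        intro j
        rw [← Finset.mul_sum]
        exact mul_le_mul_of_nonneg_left (s2 j) (hp j)
      refine le_trans ?_ (Finset.sum_le_sum fun j _ => s3 j)
      rw [← Finset.sum_mul, hp1, one_mul]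
    have s4 : ∑ i, T * (L (sp i) - Real.log (cnt sp (sp i))) ≤
        T * ((Fintype.card S : ℝ) * W) * (Fintype.card I : ℝ) := by
      rw [cl_fib sp (fun i => T * (L (sp i) - Real.log (cnt sp (sp i))))
        (fun s => T * (L s - Real.log (cnt sp s))) (fun _ => rfl)]
      have s5 : ∀ s, (cnt sp s : ℝ) * (T * (L s - Real.log (cnt sp s))) ≤
          T * (W * (Fintype.card I : ℝ)) := by
        intro s
        have := cl_ent (cnt sp s) (L s) (W * (Fintype.card I : ℝ)) (hLW s)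
        have e : (cnt sp s : ℝ) * (T * (L s - Real.log (cnt sp s))) =
          -(T * ((cnt sp s : ℝ) * (Real.log (cnt sp s) - L s))) := by ring
        rw [e]
        have := mul_le_mul_of_nonneg_left this hT.le
        linarith
      refine (Finset.sum_le_sum fun s _ => s5 s).trans (le_of_eq ?_)
      rw [Finset.sum_const, Finset.card_univ, nsmul_eq_mul]
      ring
    have e : ∑ i, q i = ∑ i, ∑ j, p j * (pe D sp i (ψ j) - (1 / 2) * kinE D sp i (ψ j)) -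
        ∑ i, T * (L (sp i) - Real.log (cnt sp (sp i))) := by
      rw [← Finset.sum_sub_distrib]
    rw [e, hA2]
    linarith
  have hsymm : ∀ i, sp i = sp i0 → q i = q i0 := by
    intro i hi
    show ∑ j, p j * (pe D sp i (ψ j) - (1 / 2) * kinE D sp i (ψ j)) -
      T * (L (sp i) - Real.log (cnt sp (sp i))) = ∑ j, p j * (pe D sp i0 (ψ j) -
      (1 / 2) * kinE D sp i0 (ψ j)) - T * (L (sp i0) - Real.log (cnt sp (sp i0)))
    rw [hi]
    congr 1
    refine Finset.sum_congr rfl fun j _ => ?_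
    obtain ⟨a1, a2⟩ := pe_symm D sp ℓ (ψ j) (hψ.1 j) i i0 hi
    rw [a1, a2]
  have hcore := flat_core sp i0 hi0 D.charge hneu q hsymm Φ (K1 * (1 + κ)) A2 hstab hmove
    (by positivity) (by positivity)
  have hc := hD.charge_ne (sp i0)
  have e1 : Φ - q i0 / D.charge (sp i0) =
      (D.charge (sp i0))⁻¹ * (D.charge (sp i0) * Φ - q i0) := by
    field_simp
  rw [e1, abs_mul, abs_inv]
  calc |D.charge (sp i0)|⁻¹ * |D.charge (sp i0) * Φ - q i0|
      ≤ cm * (K1 * (1 + κ) + (Fintype.card S : ℝ) * (K1 * (1 + κ) + A2)) :=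
        mul_le_mul (hcm1 _) hcore (abs_nonneg _) hcm0
    _ ≤ cm * ((K1 + (Fintype.card S : ℝ) * (K1 + A2)) * (1 + κ)) := by
        refine mul_le_mul_of_nonneg_left ?_ hcm0
        have a1 : K1 * (1 + κ) + A2 ≤ (K1 + A2) * (1 + κ) := by nlinarith
        have a3 := mul_le_mul_of_nonneg_left a1 hS0
        nlinarith
    _ ≤ (cm * (K1 + (Fintype.card S : ℝ) * (K1 + A2)) + 1) * (1 + κ) := by
        nlinarith

end Pool.Agent.Helper780_CP
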