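import Pool.Agent.Helper780_CP.LLDefs2

set_option autoImplicit false

open MeasureTheory

namespace Pool.Agent.Helper780_CP.RL0

open Pool.Agent.Helper780_CP
open Pool.Agent.Helper985.CP

open Pool.Agent.Helper985.CP

/-- TARGET 1 -/
theorem mulW_stateS {S : Type} (D : Species S) {I : Type} [Fintype I] [DecidableEq I] (sp : I → S)
    (ℓ : ℝ) (Ψ : Wave D I) (hΨ : IsState D sp ℓ Ψ) (f : (I → E3) → ℝ)
    (hf : ContDiff ℝ SM f) (hs : Sy sp f) : IsState D sp ℓ (mulW D f Ψ) where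
  smooth τ := (Complex.ofRealCLM.contDiff.comp hf).mul (hΨ.smooth τ)
  compact τ := (hΨ.compact τ).mul_left
  support τ := by
    refine Set.Subset.trans ?_ (hΨ.support τ)
    exact closure_mono (Function.support_mul_subset_right _ _)
  spin τ h := by
    refine hΨ.spin τ fun h0 => h ?_
    funext x
    simp [mulW, h0]
  symm i j hij hsp τ x := by
    unfold mulW
    rw [hs i j x hsp, hΨ.symm i j hij hsp τ x]
    ring

/-- the localisation formula with the symmetry required only inside a species -/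
theorem imsS {S : Type} (D : Species S) {I : Type} [Fintype I] [DecidableEq I] (sp : I → S)
    (ℓ : ℝ) (Ψ : Wave D I) (hΨ : IsState D sp ℓ Ψ) (θ : (I → E3) → ℝ) (hθ : ContDiff ℝ SM θ)
    (hs : Sy sp θ) :
    nrm2 D (mulW D (fun x => Real.cos (θ x)) Ψ) +
      nrm2 D (mulW D (fun x => Real.sin (θ x)) Ψ) = nrm2 D Ψ ∧
    energy D sp (mulW D (fun x => Real.cos (θ x)) Ψ) +
      energy D sp (mulW D (fun x => Real.sin (θ x)) Ψ) = energy D sp Ψ +
      ∑ τ, ∫ x, (∑ i, (1 / (2 * D.mass (sp i))) * ∑ k : Fin 3,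
        (fderiv ℝ θ x (Pi.single i (EuclideanSpace.single k (1 : ℝ)))) ^ 2) * ‖Ψ τ x‖ ^ 2 := by
  have hcos : ContDiff ℝ SM (fun x => Real.cos (θ x)) := Real.contDiff_cos.comp hθ
  have hsin : ContDiff ℝ SM (fun x => Real.sin (θ x)) := Real.contDiff_sin.comp hθ
  have hC : IsState D sp ℓ (fun τ x => ((Real.cos (θ x) : ℝ) : ℂ) * Ψ τ x) :=
    mulW_stateS D sp ℓ Ψ hΨ _ hcos (fun i j x h => by rw [hs i j x h])
  have hS : IsState D sp ℓ (fun τ x => ((Real.sin (θ x) : ℝ) : ℂ) * Ψ τ x) :=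
    mulW_stateS D sp ℓ Ψ hΨ _ hsin (fun i j x h => by rw [hs i j x h])
  unfold mulW
  refine ⟨?_, ?_⟩
  · unfold nrm2
    rw [← Finset.sum_add_distrib]
    refine Finset.sum_congr rfl fun τ _ => ?_
    rw [← integral_add (int_state D sp ℓ _ hC τ).1 (int_state D sp ℓ _ hS τ).1]
    refine integral_congr_ae (Filter.Eventually.of_forall fun x => ?_)
    exact ims_alg0 (Ψ τ x) (θ x)
  · unfold energy
    rw [← Finset.sum_add_distrib, ← Finset.sum_add_distrib]
    refine Finset.sum_congr rfl fun τ _ => ?_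
    obtain ⟨-, c2, c3, -, -⟩ := int_state D sp ℓ _ hC τ
    obtain ⟨-, s2, s3, -, -⟩ := int_state D sp ℓ _ hS τ
    obtain ⟨-, p2, p3, -, -⟩ := int_state D sp ℓ _ hΨ τ
    have iC := (integrable_finsetSum Finset.univ fun i _ => c2 i).add c3
    have iS := (integrable_finsetSum Finset.univ fun i _ => s2 i).add s3
    have iP := (integrable_finsetSum Finset.univ fun i _ => p2 i).add p3
    have hdθ : ∀ x, HasFDerivAt θ (fderiv ℝ θ x) x := fun x =>
      ((hθ.differentiable (by simp)) x).hasFDerivAt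
    have hdΨ : ∀ x, DifferentiableAt ℝ (Ψ τ) x := fun x =>
      ((hΨ.smooth τ).differentiable (by simp)) x
    have hkin : ∀ i x, kin D sp i (fun x => ((Real.cos (θ x) : ℝ) : ℂ) * Ψ τ x) x +
        kin D sp i (fun x => ((Real.sin (θ x) : ℝ) : ℂ) * Ψ τ x) x =
        kin D sp i (Ψ τ) x + ((1 / (2 * D.mass (sp i))) * ∑ k : Fin 3,
          (fderiv ℝ θ x (Pi.single i (EuclideanSpace.single k (1 : ℝ)))) ^ 2) * ‖Ψ τ x‖ ^ 2 := by
      intro i x
      unfold kin
      rw [← mul_add, mul_assoc, ← mul_add, ← Finset.sum_add_distrib, Finset.sum_mul,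
        ← Finset.sum_add_distrib]
      congr 1
      refine Finset.sum_congr rfl fun k _ => ?_
      rw [ims_deriv (fun x => Real.cos (θ x)) (Ψ τ) x _ _ (hdθ x).cos (hdΨ x),
        ims_deriv (fun x => Real.sin (θ x)) (Ψ τ) x _ _ (hdθ x).sin (hdΨ x)]
      simp only [_root_.smul_apply, smul_eq_mul]
      exact ims_alg _ _ _ _
    have hpt : ∀ x, (∑ i, (1 / (2 * D.mass (sp i))) * ∑ k : Fin 3,
        (fderiv ℝ θ x (Pi.single i (EuclideanSpace.single k (1 : ℝ)))) ^ 2) * ‖Ψ τ x‖ ^ 2 =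
        (((∑ i, kin D sp i (fun x => ((Real.cos (θ x) : ℝ) : ℂ) * Ψ τ x) x) +
          coul D sp x * ‖((Real.cos (θ x) : ℝ) : ℂ) * Ψ τ x‖ ^ 2) +
        ((∑ i, kin D sp i (fun x => ((Real.sin (θ x) : ℝ) : ℂ) * Ψ τ x) x) +
          coul D sp x * ‖((Real.sin (θ x) : ℝ) : ℂ) * Ψ τ x‖ ^ 2)) -
        ((∑ i, kin D sp i (Ψ τ) x) + coul D sp x * ‖Ψ τ x‖ ^ 2) := by
      intro x
      have e1 := ims_alg0 (Ψ τ x) (θ x)
      have e2 : (∑ i, kin D sp i (fun x => ((Real.cos (θ x) : ℝ) : ℂ) * Ψ τ x) x) +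
          (∑ i, kin D sp i (fun x => ((Real.sin (θ x) : ℝ) : ℂ) * Ψ τ x) x) =
          (∑ i, kin D sp i (Ψ τ) x) + (∑ i, (1 / (2 * D.mass (sp i))) * ∑ k : Fin 3,
            (fderiv ℝ θ x (Pi.single i (EuclideanSpace.single k (1 : ℝ)))) ^ 2) *
              ‖Ψ τ x‖ ^ 2 := by
        rw [Finset.sum_mul, ← Finset.sum_add_distrib, ← Finset.sum_add_distrib]
        exact Finset.sum_congr rfl fun i _ => hkin i x
      linear_combination -e2 - coul D sp x * e1
    have e3 : ∫ x, (∑ i, (1 / (2 * D.mass (sp i))) * ∑ k : Fin 3,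
        (fderiv ℝ θ x (Pi.single i (EuclideanSpace.single k (1 : ℝ)))) ^ 2) * ‖Ψ τ x‖ ^ 2 =
        ((∫ x, ((∑ i, kin D sp i (fun x => ((Real.cos (θ x) : ℝ) : ℂ) * Ψ τ x) x) +
          coul D sp x * ‖((Real.cos (θ x) : ℝ) : ℂ) * Ψ τ x‖ ^ 2)) +
        (∫ x, ((∑ i, kin D sp i (fun x => ((Real.sin (θ x) : ℝ) : ℂ) * Ψ τ x) x) +
          coul D sp x * ‖((Real.sin (θ x) : ℝ) : ℂ) * Ψ τ x‖ ^ 2))) -
        ∫ x, ((∑ i, kin D sp i (Ψ τ) x) + coul D sp x * ‖Ψ τ x‖ ^ 2) := by
      rw [integral_congr_ae (Filter.Eventually.of_forall hpt)]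
      have a1 := integral_sub (iC.add iS) iP
      have a2 := integral_add iC iS
      exact a1.trans (congrArg₂ (fun y z : ℝ => y - z) a2 rfl)
    rw [e3]
    ring

theorem kin_const_mul {S : Type} (D : Species S) {I : Type} [Fintype I] [DecidableEq I]
    (sp : I → S) (i : I) (c : ℝ) (u : (I → E3) → ℂ) (x : I → E3) :
    kin D sp i (fun x => (c : ℂ) * u x) x = c ^ 2 * kin D sp i u x := by
  unfold kin
  by_cases hc : c = 0
  · subst hc
    simp
  · have h1 : fderiv ℝ (fun x => (c : ℂ) * u x) x = (c : ℂ) • fderiv ℝ u x := by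
      by_cases hu : DifferentiableAt ℝ u x
      · exact fderiv_const_mul hu _
      · have h2 : ¬ DifferentiableAt ℝ (fun x => (c : ℂ) * u x) x := by
          intro h
          apply hu
          have h3 := h.const_mul ((c : ℂ)⁻¹)
          have h4 : (fun x => (c : ℂ)⁻¹ * ((c : ℂ) * u x)) = u := by
            funext y
            rw [← mul_assoc, inv_mul_cancel₀ (Complex.ofReal_ne_zero.2 hc), one_mul]
          rwa [h4] at h3
        rw [fderiv_zero_of_not_differentiableAt hu, fderiv_zero_of_not_differentiableAt h2]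
        ext v
        simp
    rw [h1]
    have h2 : ∀ k : Fin 3, ‖((c : ℂ) • fderiv ℝ u x)
        (Pi.single i (EuclideanSpace.single k (1 : ℝ)))‖ ^ 2 =
        c ^ 2 * ‖fderiv ℝ u x (Pi.single i (EuclideanSpace.single k (1 : ℝ)))‖ ^ 2 := by
      intro k
      rw [_root_.smul_apply, norm_smul, mul_pow, Complex.norm_real, Real.norm_eq_abs, sq_abs]
    rw [Finset.sum_congr rfl fun k _ => h2 k, ← Finset.mul_sum]
    ring

theorem energy_const {S : Type} (D : Species S) {I : Type} [Fintype I] [DecidableEq I]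
    (sp : I → S) (c : ℝ) (Ψ : Wave D I) :
    energy D sp (mulW D (fun _ => c) Ψ) = c ^ 2 * energy D sp Ψ := by
  unfold energy
  rw [Finset.mul_sum]
  refine Finset.sum_congr rfl fun τ _ => ?_
  rw [← integral_const_mul]
  refine integral_congr_ae (Filter.Eventually.of_forall fun x => ?_)
  show (∑ i, kin D sp i (fun x => (c : ℂ) * Ψ τ x) x) + coul D sp x * ‖(c : ℂ) * Ψ τ x‖ ^ 2 =
    c ^ 2 * ((∑ i, kin D sp i (Ψ τ) x) + coul D sp x * ‖Ψ τ x‖ ^ 2)
  rw [Finset.sum_congr rfl fun i _ => kin_const_mul D sp i c (Ψ τ) x, ← Finset.mul_sum, norm_mul,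
    mul_pow, Complex.norm_real, Real.norm_eq_abs, sq_abs]
  ring

theorem nrm2_const {S : Type} (D : Species S) {I : Type} [Fintype I] [DecidableEq I]
    (c : ℝ) (Ψ : Wave D I) : nrm2 D (mulW D (fun _ => c) Ψ) = c ^ 2 * nrm2 D Ψ := by
  unfold nrm2
  rw [Finset.mul_sum]
  refine Finset.sum_congr rfl fun τ _ => ?_
  rw [← integral_const_mul]
  refine integral_congr_ae (Filter.Eventually.of_forall fun x => ?_)
  show ‖(c : ℂ) * Ψ τ x‖ ^ 2 = c ^ 2 * ‖Ψ τ x‖ ^ 2
  rw [norm_mul, mul_pow, Complex.norm_real, Real.norm_eq_abs, sq_abs]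

theorem gr_int {S : Type} (D : Species S) {I : Type} [Fintype I] [DecidableEq I] (sp : I → S)
    (ℓ : ℝ) (Ψ : Wave D I) (hΨ : IsState D sp ℓ Ψ) (f : (I → E3) → ℝ) (hf : ContDiff ℝ SM f)
    (τ : I → Fin D.g) : Integrable (fun x => gr f x * ‖Ψ τ x‖ ^ 2) := by
  have h1 : Continuous (gr f) := by
    unfold gr
    refine continuous_finsetSum _ fun i _ => continuous_finsetSum _ fun k _ => ?_
    exact ((hf.continuous_fderiv (by simp)).clm_apply continuous_const).pow 2
  have h2 : Continuous (fun x => ‖Ψ τ x‖ ^ 2) := ((hΨ.smooth τ).continuous.norm).pow 2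
  have h3 : HasCompactSupport (fun x => ‖Ψ τ x‖ ^ 2) :=
    (hΨ.compact τ).comp_left (g := fun z : ℂ => ‖z‖ ^ 2) (by simp)
  exact (h1.mul h2).integrable_of_hasCompactSupport h3.mul_left

theorem gr_nonneg {I : Type} [Fintype I] [DecidableEq I] (f : (I → E3) → ℝ) (x : I → E3) :
    0 ≤ gr f x := Finset.sum_nonneg fun _ _ => Finset.sum_nonneg fun _ _ => sq_nonneg _

theorem wm_gr_nonneg {S : Type} (D : Species S) {I : Type} [Fintype I] [DecidableEq I]
    (f : (I → E3) → ℝ) (Ψ : Wave D I) : 0 ≤ wm D (gr f) Ψ :=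
  Finset.sum_nonneg fun _ _ => integral_nonneg fun x => mul_nonneg (gr_nonneg f x) (sq_nonneg _)

/-- TARGET 2 -/
theorem near_min {S : Type} [Fintype S] (D : Species S) (hD : D.Valid) :
    ∃ C : ℝ, 0 < C ∧ ∀ {I : Type} [Fintype I] [DecidableEq I] (sp : I → S) (ℓ E η : ℝ), 0 ≤ η →
      (∀ Φ, IsState D sp ℓ Φ → E * nrm2 D Φ ≤ energy D sp Φ) →
      ∀ Ψ, IsState D sp ℓ Ψ → nrm2 D Ψ = 1 → energy D sp Ψ ≤ E + η →
      ∀ (f : (I → E3) → ℝ) (B : ℝ), ContDiff ℝ SM f → Sy sp f → (∀ x, |f x| ≤ B) →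
        energy D sp (mulW D f Ψ) ≤
          E * nrm2 D (mulW D f Ψ) + C * (wm D (gr f) Ψ + B ^ 2 * η) := by
  have hm : ∀ s, 0 < 1 / (2 * D.mass s) := fun s => by
    have := hD.mass_pos s
    positivity
  set M : ℝ := ∑ s, 1 / (2 * D.mass s) with hM
  have hM0 : 0 ≤ M := Finset.sum_nonneg fun s _ => (hm s).le
  have hMs : ∀ s, 1 / (2 * D.mass s) ≤ M := fun s =>
    Finset.single_le_sum (f := fun s => 1 / (2 * D.mass s)) (fun s _ => (hm s).le)
      (Finset.mem_univ s)
  refine ⟨4 + 4 / 3 * M, by positivity, ?_⟩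
  intro I _ _ sp ℓ E η hη hE Ψ hΨ hΨ1 hΨE f B hf hs hB
  have hB0 : 0 ≤ B := (abs_nonneg _).trans (hB 0)
  have hw0 := wm_gr_nonneg D f Ψ
  rcases hB0.eq_or_lt with hB1 | hB1
  · have hf0 : f = fun _ => 0 := by
      funext x
      have h1 := hB x
      rw [← hB1] at h1
      exact abs_eq_zero.1 (le_antisymm h1 (abs_nonneg _))
    have e1 : energy D sp (mulW D f Ψ) = 0 := by
      rw [hf0, energy_const]
      ring
    have e2 : nrm2 D (mulW D f Ψ) = 0 := by
      rw [hf0, nrm2_const]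
      ring
    rw [e1, e2, mul_zero, zero_add]
    positivity
  · have h2B : (0 : ℝ) < 2 * B := by linarith
    have hq : ∀ x, |f x / (2 * B)| ≤ 1 / 2 := by
      intro x
      rw [abs_div, abs_of_pos h2B, div_le_iff₀ h2B]
      have := hB x
      linarith
    have hq1 : ∀ x, f x / (2 * B) ≠ -1 := fun x h => by
      have := hq x
      rw [h] at this
      norm_num at this
    have hq2 : ∀ x, f x / (2 * B) ≠ 1 := fun x h => by
      have := hq x
      rw [h] at this
      norm_num at this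
    have hfq : ContDiff ℝ SM fun x => f x / (2 * B) := hf.div_const _
    let θ : (I → E3) → ℝ := fun x => Real.arcsin (f x / (2 * B))
    have hθ : ContDiff ℝ SM θ := by
      rw [contDiff_iff_contDiffAt]
      intro x
      exact ContDiffAt.comp (g := Real.arcsin) (f := fun x => f x / (2 * B)) x
        (Real.contDiffAt_arcsin (hq1 x) (hq2 x)) hfq.contDiffAt
    have hθs : Sy sp θ := fun i j x h => by
      show Real.arcsin _ = Real.arcsin _
      rw [hs i j x h]
    have hsin : ∀ x, Real.sin (θ x) = f x / (2 * B) := fun x =>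
      Real.sin_arcsin (by linarith [(abs_le.1 (hq x)).1]) (by linarith [(abs_le.1 (hq x)).2])
    have hder : ∀ x v, (fderiv ℝ θ x v) ^ 2 ≤ (1 / (3 * B ^ 2)) * (fderiv ℝ f x v) ^ 2 := by
      intro x v
      have h1 : HasFDerivAt f (fderiv ℝ f x) x := ((hf.differentiable (by simp)) x).hasFDerivAt
      have h2 : HasFDerivAt (fun x => f x / (2 * B)) ((2 * B)⁻¹ • fderiv ℝ f x) x := by
        have := h1.const_mul ((2 * B)⁻¹)
        simpa only [div_eq_inv_mul] using this
      have h3 := (Real.hasDerivAt_arcsin (hq1 x) (hq2 x)).comp_hasFDerivAt x h2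
      have h4 : fderiv ℝ θ x = _ := h3.fderiv
      rw [h4]
      simp only [_root_.smul_apply, smul_eq_mul]
      have h5 : (3 : ℝ) / 4 ≤ 1 - (f x / (2 * B)) ^ 2 := by
        have h6 := hq x
        have h7 : (f x / (2 * B)) ^ 2 ≤ (1 / 2) ^ 2 := by
          rw [← sq_abs]
          exact pow_le_pow_left₀ (abs_nonneg _) h6 2
        linarith
      have h8 : (1 / √(1 - (f x / (2 * B)) ^ 2)) ^ 2 ≤ 4 / 3 := by
        rw [div_pow, one_pow, Real.sq_sqrt (by linarith), div_le_iff₀ (by linarith)]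
        linarith
      rw [mul_pow, mul_pow]
      calc (1 / √(1 - (f x / (2 * B)) ^ 2)) ^ 2 * ((2 * B)⁻¹ ^ 2 * (fderiv ℝ f x v) ^ 2)
          ≤ 4 / 3 * ((2 * B)⁻¹ ^ 2 * (fderiv ℝ f x v) ^ 2) :=
            mul_le_mul_of_nonneg_right h8 (by positivity)
        _ = (1 / (3 * B ^ 2)) * (fderiv ℝ f x v) ^ 2 := by
            field_simp
            ring
    have hR : ∑ τ, ∫ x, (∑ i, (1 / (2 * D.mass (sp i))) * ∑ k : Fin 3,
        (fderiv ℝ θ x (Pi.single i (EuclideanSpace.single k (1 : ℝ)))) ^ 2) * ‖Ψ τ x‖ ^ 2 ≤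
        M / (3 * B ^ 2) * wm D (gr f) Ψ := by
      unfold wm
      rw [Finset.mul_sum]
      refine Finset.sum_le_sum fun τ _ => ?_
      rw [← integral_const_mul]
      refine integral_mono_of_nonneg (Filter.Eventually.of_forall fun x => ?_)
        ((gr_int D sp ℓ Ψ hΨ f hf τ).const_mul _) (Filter.Eventually.of_forall fun x => ?_)
      · exact mul_nonneg (Finset.sum_nonneg fun i _ => mul_nonneg (hm _).le
          (Finset.sum_nonneg fun k _ => sq_nonneg _)) (sq_nonneg _)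
      · show (∑ i, (1 / (2 * D.mass (sp i))) * ∑ k : Fin 3,
          (fderiv ℝ θ x (Pi.single i (EuclideanSpace.single k (1 : ℝ)))) ^ 2) * ‖Ψ τ x‖ ^ 2 ≤
          M / (3 * B ^ 2) * (gr f x * ‖Ψ τ x‖ ^ 2)
        rw [← mul_assoc]
        refine mul_le_mul_of_nonneg_right ?_ (sq_nonneg _)
        unfold gr
        rw [Finset.mul_sum]
        refine Finset.sum_le_sum fun i _ => ?_
        calc (1 / (2 * D.mass (sp i))) * ∑ k : Fin 3,
              (fderiv ℝ θ x (Pi.single i (EuclideanSpace.single k (1 : ℝ)))) ^ 2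
            ≤ M * ∑ k : Fin 3, (1 / (3 * B ^ 2)) *
              (fderiv ℝ f x (Pi.single i (EuclideanSpace.single k (1 : ℝ)))) ^ 2 :=
              mul_le_mul (hMs _) (Finset.sum_le_sum fun k _ => hder x _)
                (Finset.sum_nonneg fun k _ => sq_nonneg _) hM0
          _ = M / (3 * B ^ 2) * ∑ k : Fin 3,
              (fderiv ℝ f x (Pi.single i (EuclideanSpace.single k (1 : ℝ)))) ^ 2 := by
              rw [← Finset.mul_sum]
              ring
    obtain ⟨n1, n2⟩ := imsS D sp ℓ Ψ hΨ θ hθ hθs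
    have hcosS : IsState D sp ℓ (mulW D (fun x => Real.cos (θ x)) Ψ) :=
      mulW_stateS D sp ℓ Ψ hΨ _ (Real.contDiff_cos.comp hθ) (fun i j x h => by
        show Real.cos (θ _) = Real.cos (θ _)
        rw [hθs i j x h])
    have hc := hE _ hcosS
    have hfe : mulW D f Ψ = mulW D (fun _ => 2 * B) (mulW D (fun x => Real.sin (θ x)) Ψ) := by
      rw [mulW_mulW]
      congr 1
      funext x
      rw [hsin]
      field_simp
    rw [hfe, energy_const, nrm2_const]
    have h9 : energy D sp (mulW D (fun x => Real.sin (θ x)) Ψ) ≤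
        E * nrm2 D (mulW D (fun x => Real.sin (θ x)) Ψ) + η + M / (3 * B ^ 2) * wm D (gr f) Ψ := by
      have h10 : nrm2 D (mulW D (fun x => Real.cos (θ x)) Ψ) =
          1 - nrm2 D (mulW D (fun x => Real.sin (θ x)) Ψ) := by linarith
      rw [h10] at hc
      nlinarith
    have h11 := mul_le_mul_of_nonneg_left h9 (sq_nonneg (2 * B))
    have h12 : (2 * B) ^ 2 * (M / (3 * B ^ 2) * wm D (gr f) Ψ) = 4 / 3 * M * wm D (gr f) Ψ := by
      field_simp
      ring
    have h13 : 0 ≤ M * (B ^ 2 * η) := by positivity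
    nlinarith [h11, h12, h13, hw0]

end Pool.Agent.Helper780_CP.RL0
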