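import Pool.Agent.Helper780_CP.LLDefs3
import Pool.Agent.Helper780_CP.MoveT

/-! Definitions for the positive temperature version of the local law. -/

set_option autoImplicit false

open MeasureTheory
open scoped Topology

namespace Pool.Agent.Helper780_CP

open Pool.Agent.Helper985.CP

/-- expectation of a weight in a mixture -/
noncomputable def wx {S : Type} (D : Species S) {I : Type} [Fintype I] [DecidableEq I] {k : ℕ}
    (p : Fin k → ℝ) (ψ : Fin k → Wave D I) (W : (I → E3) → ℝ) : ℝ := ∑ j, p j * wm D W (ψ j)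

/-- families of wave functions dominated by orthonormal ones -/
def SG {S : Type} (D : Species S) {I : Type} [Fintype I] [DecidableEq I] {k : ℕ}
    (ψ : Fin k → Wave D I) : Prop :=
  ∀ γ : Fin k → ℂ, nrm2 D (fun τ x => ∑ j, γ j * ψ j τ x) ≤ ∑ j, ‖γ j‖ ^ 2

/-- mixtures whose free energy is at most `-T log Z + η`, where `Z` bounds the Peierls sums -/
structure NE {S : Type} (D : Species S) {I : Type} [Fintype I] [DecidableEq I] (sp : I → S)
    (ℓ T η Z : ℝ) {k : ℕ} (p : Fin k → ℝ) (ψ : Fin k → Wave D I) : Prop where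
  state : ∀ j, IsState D sp ℓ (ψ j)
  sg : SG D ψ
  nrm : ∀ j, nrm2 D (ψ j) = 1
  p0 : ∀ j, 0 ≤ p j
  p1 : ∑ j, p j = 1
  Zpos : 0 < Z
  Zle : ∀ z ∈ peierls D sp ℓ T, z ≤ Z
  free : ∑ j, (p j * energy D sp (ψ j) + T * (p j * Real.log (p j))) ≤ -T * Real.log Z + η

/-- weighted flatness of the potential at positive temperature -/
def FLT {S : Type} (D : Species S) {I : Type} [Fintype I] [DecidableEq I] (sp : I → S) (ℓ : ℝ)
    (pb : (I → E3) → ℝ) (C η : ℝ) (Ψ : Wave D I) : Prop :=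
  ∀ (r : ℝ) (ω : E3) (f : (I → E3) → ℝ) (B lam : ℝ), 0 < r → r ≤ 1 → 0 < lam →
    Metric.closedBall ω r ⊆ cube ℓ → ContDiff ℝ SM f → Sy sp f → (∀ x, |f x| ≤ B) →
    |wm D (fun x => f x ^ 2 * (phi D sp ω x - pb x)) Ψ| ≤
      C / r ^ 2 * (wm D (fun x => f x ^ 2 * (1 + near2 ω x)) Ψ + wm D (gr f) Ψ +
        wm D (fun x => f x ^ 2 * (f x ^ 2 / lam) ^ ((1 : ℝ) / 4)) Ψ + lam + B ^ 2 * η)

end Pool.Agent.Helper780_CP
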