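import Pool.Agent.Helper780_CP.LLDefs2
import Pool.Agent.Helper780_CP.TDefs
import Pool.Agent.Helper780_CP.FlatT
import Pool.Agent.Helper780_CP.RL0

set_option autoImplicit false

open MeasureTheory
open scoped Topology

namespace Pool.Agent.Helper780_CP.RG1

open Pool.Agent.Helper780_CP
open Pool.Agent.Helper985.CP

open Pool.Agent.Helper780_CP Pool.Agent.Helper985.CP

/-- TARGET 1 -/
theorem gibbs_w {k : ℕ} (p n X : Fin k → ℝ) (hp : ∀ j, 0 ≤ p j) (hn : ∀ j, 0 ≤ n j)
    (h0 : ∀ j, n j = 0 → X j = 0) (Y : ℝ) (hY : 0 < Y)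
    (h : ∑ j, n j * Real.exp (X j / n j) ≤ Y) :
    ∑ j, p j * X j ≤ (∑ j, p j * n j) * Real.log Y + ∑ j, p j * (n j * Real.log (p j)) -
      (∑ j, p j * n j) * Real.log (∑ j, p j * n j) := by
  have hpn : ∀ j, 0 ≤ p j * n j := fun j => mul_nonneg (hp j) (hn j)
  have hz : ∀ j, p j * n j = 0 → p j * X j - p j * (n j * Real.log (p j)) = 0 := by
    intro j hj
    rcases mul_eq_zero.1 hj with h1 | h1
    · rw [h1]; ring
    · rw [h0 j h1, h1]; ring
  have hJ := MT_finjensen (fun j => p j * n j)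
    (fun j => p j * X j - p j * (n j * Real.log (p j))) hpn hz
  have hle : ∑ j, (p j * n j) * Real.exp ((p j * X j - p j * (n j * Real.log (p j))) / (p j * n j)) ≤
      Y := by
    refine (Finset.sum_le_sum fun j _ => ?_).trans h
    rcases (hpn j).eq_or_lt with h1 | h1
    · rw [← h1, zero_mul]
      exact mul_nonneg (hn j) (Real.exp_pos _).le
    · have hp1 : 0 < p j := lt_of_le_of_ne (hp j) fun h2 => by
        rw [← h2, zero_mul] at h1; exact lt_irrefl _ h1
      have hn1 : 0 < n j := lt_of_le_of_ne (hn j) fun h2 => by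
        rw [← h2, mul_zero] at h1; exact lt_irrefl _ h1
      have e : (p j * X j - p j * (n j * Real.log (p j))) / (p j * n j) =
          X j / n j - Real.log (p j) := by
        field_simp
      rw [e, Real.exp_sub, Real.exp_log hp1]
      have : p j * n j * (Real.exp (X j / n j) / p j) = n j * Real.exp (X j / n j) := by
        field_simp
      exact this.le
  have hJ2 := hJ.trans hle
  have hs : ∑ j, (p j * X j - p j * (n j * Real.log (p j))) =
      ∑ j, p j * X j - ∑ j, p j * (n j * Real.log (p j)) := by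
    rw [Finset.sum_sub_distrib]
  rcases (Finset.sum_nonneg fun j (_ : j ∈ Finset.univ) => hpn j).eq_or_lt with h1 | h1
  · have h2 : ∀ j, p j * n j = 0 := fun j =>
      (Finset.sum_eq_zero_iff_of_nonneg fun j _ => hpn j).1 h1.symm j (Finset.mem_univ j)
    have h3 : ∑ j, (p j * X j - p j * (n j * Real.log (p j))) = 0 :=
      Finset.sum_eq_zero fun j _ => hz j (h2 j)
    rw [hs] at h3
    rw [← h1]
    simp only [zero_mul, sub_zero, zero_add]
    linarith
  · rw [hs] at hJ2
    have h4 : Real.log ((∑ j, p j * n j) * Real.exp ((∑ j, p j * X j -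
        ∑ j, p j * (n j * Real.log (p j))) / ∑ j, p j * n j)) ≤ Real.log Y :=
      Real.log_le_log (mul_pos h1 (Real.exp_pos _)) hJ2
    rw [Real.log_mul h1.ne' (Real.exp_pos _).ne', Real.log_exp] at h4
    have h5 : (∑ j, p j * X j - ∑ j, p j * (n j * Real.log (p j))) / (∑ j, p j * n j) ≤
        Real.log Y - Real.log (∑ j, p j * n j) := by linarith
    rw [div_le_iff₀ h1] at h5
    linarith

/-- the partition used in `near_minT` -/
theorem split_est {S : Type} [Fintype S] (D : Species S) (hD : D.Valid) {I : Type} [Fintype I]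
    [DecidableEq I] (sp : I → S) (f : (I → E3) → ℝ) (B : ℝ) (hB1 : 0 < B)
    (hf : ContDiff ℝ SM f) (hs : Sy sp f) (hB : ∀ x, |f x| ≤ B) :
    ∃ θ : (I → E3) → ℝ, ContDiff ℝ SM θ ∧ Sy sp θ ∧ (∀ x, Real.sin (θ x) = f x / (2 * B)) ∧
      ∀ (ℓ : ℝ) (Ψ : Wave D I), IsState D sp ℓ Ψ →
        nrm2 D (mulW D (fun x => Real.cos (θ x)) Ψ) +
          nrm2 D (mulW D (fun x => Real.sin (θ x)) Ψ) = nrm2 D Ψ ∧
        energy D sp (mulW D (fun x => Real.cos (θ x)) Ψ) +
          energy D sp (mulW D (fun x => Real.sin (θ x)) Ψ) ≤ energy D sp Ψ +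
          (∑ s, 1 / (2 * D.mass s)) / (3 * B ^ 2) * wm D (gr f) Ψ := by
  have hm : ∀ s, 0 < 1 / (2 * D.mass s) := fun s => by
    have := hD.mass_pos s
    positivity
  set M : ℝ := ∑ s, 1 / (2 * D.mass s) with hM
  have hM0 : 0 ≤ M := Finset.sum_nonneg fun s _ => (hm s).le
  have hMs : ∀ s, 1 / (2 * D.mass s) ≤ M := fun s =>
    Finset.single_le_sum (f := fun s => 1 / (2 * D.mass s)) (fun s _ => (hm s).le)
      (Finset.mem_univ s)
  have h2B : (0 : ℝ) < 2 * B := by linarith
  have hq : ∀ x, |f x / (2 * B)| ≤ 1 / 2 := by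
    intro x
    rw [abs_div, abs_of_pos h2B, div_le_iff₀ h2B]
    have := hB x
    linarith
  have hq1 : ∀ x, f x / (2 * B) ≠ -1 := fun x h => by
    have := hq x
    rw [h] at this
    norm_num at this
  have hq2 : ∀ x, f x / (2 * B) ≠ 1 := fun x h => by
    have := hq x
    rw [h] at this
    norm_num at this
  have hfq : ContDiff ℝ SM fun x => f x / (2 * B) := hf.div_const _
  let θ : (I → E3) → ℝ := fun x => Real.arcsin (f x / (2 * B))
  have hθ : ContDiff ℝ SM θ := by
    rw [contDiff_iff_contDiffAt]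
    intro x
    exact ContDiffAt.comp (g := Real.arcsin) (f := fun x => f x / (2 * B)) x
      (Real.contDiffAt_arcsin (hq1 x) (hq2 x)) hfq.contDiffAt
  have hθs : Sy sp θ := fun i j x h => by
    show Real.arcsin _ = Real.arcsin _
    rw [hs i j x h]
  have hsin : ∀ x, Real.sin (θ x) = f x / (2 * B) := fun x =>
    Real.sin_arcsin (by linarith [(abs_le.1 (hq x)).1]) (by linarith [(abs_le.1 (hq x)).2])
  have hder : ∀ x v, (fderiv ℝ θ x v) ^ 2 ≤ (1 / (3 * B ^ 2)) * (fderiv ℝ f x v) ^ 2 := by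
    intro x v
    have h1 : HasFDerivAt f (fderiv ℝ f x) x := ((hf.differentiable (by simp)) x).hasFDerivAt
    have h2 : HasFDerivAt (fun x => f x / (2 * B)) ((2 * B)⁻¹ • fderiv ℝ f x) x := by
      have := h1.const_mul ((2 * B)⁻¹)
      simpa only [div_eq_inv_mul] using this
    have h3 := (Real.hasDerivAt_arcsin (hq1 x) (hq2 x)).comp_hasFDerivAt x h2
    have h4 : fderiv ℝ θ x = _ := h3.fderiv
    rw [h4]
    simp only [_root_.smul_apply, smul_eq_mul]
    have h5 : (3 : ℝ) / 4 ≤ 1 - (f x / (2 * B)) ^ 2 := by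
      have h6 := hq x
      have h7 : (f x / (2 * B)) ^ 2 ≤ (1 / 2) ^ 2 := by
        rw [← sq_abs]
        exact pow_le_pow_left₀ (abs_nonneg _) h6 2
      linarith
    have h8 : (1 / √(1 - (f x / (2 * B)) ^ 2)) ^ 2 ≤ 4 / 3 := by
      rw [div_pow, one_pow, Real.sq_sqrt (by linarith), div_le_iff₀ (by linarith)]
      linarith
    rw [mul_pow, mul_pow]
    calc (1 / √(1 - (f x / (2 * B)) ^ 2)) ^ 2 * ((2 * B)⁻¹ ^ 2 * (fderiv ℝ f x v) ^ 2)
        ≤ 4 / 3 * ((2 * B)⁻¹ ^ 2 * (fderiv ℝ f x v) ^ 2) :=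
          mul_le_mul_of_nonneg_right h8 (by positivity)
      _ = (1 / (3 * B ^ 2)) * (fderiv ℝ f x v) ^ 2 := by
          field_simp
          ring
  refine ⟨θ, hθ, hθs, hsin, ?_⟩
  intro ℓ Ψ hΨ
  obtain ⟨n1, n2⟩ := RL0.imsS D sp ℓ Ψ hΨ θ hθ hθs
  refine ⟨n1, ?_⟩
  rw [n2]
  have hR : ∑ τ, ∫ x, (∑ i, (1 / (2 * D.mass (sp i))) * ∑ k : Fin 3,
      (fderiv ℝ θ x (Pi.single i (EuclideanSpace.single k (1 : ℝ)))) ^ 2) * ‖Ψ τ x‖ ^ 2 ≤
      M / (3 * B ^ 2) * wm D (gr f) Ψ := by
    unfold wm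
    rw [Finset.mul_sum]
    refine Finset.sum_le_sum fun τ _ => ?_
    rw [← integral_const_mul]
    refine integral_mono_of_nonneg (Filter.Eventually.of_forall fun x => ?_)
      ((RL0.gr_int D sp ℓ Ψ hΨ f hf τ).const_mul _) (Filter.Eventually.of_forall fun x => ?_)
    · exact mul_nonneg (Finset.sum_nonneg fun i _ => mul_nonneg (hm _).le
        (Finset.sum_nonneg fun k _ => sq_nonneg _)) (sq_nonneg _)
    · show (∑ i, (1 / (2 * D.mass (sp i))) * ∑ k : Fin 3,
        (fderiv ℝ θ x (Pi.single i (EuclideanSpace.single k (1 : ℝ)))) ^ 2) * ‖Ψ τ x‖ ^ 2 ≤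
        M / (3 * B ^ 2) * (gr f x * ‖Ψ τ x‖ ^ 2)
      rw [← mul_assoc]
      refine mul_le_mul_of_nonneg_right ?_ (sq_nonneg _)
      unfold gr
      rw [Finset.mul_sum]
      refine Finset.sum_le_sum fun i _ => ?_
      calc (1 / (2 * D.mass (sp i))) * ∑ k : Fin 3,
            (fderiv ℝ θ x (Pi.single i (EuclideanSpace.single k (1 : ℝ)))) ^ 2
          ≤ M * ∑ k : Fin 3, (1 / (3 * B ^ 2)) *
            (fderiv ℝ f x (Pi.single i (EuclideanSpace.single k (1 : ℝ)))) ^ 2 :=
            mul_le_mul (hMs _) (Finset.sum_le_sum fun k _ => hder x _)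
              (Finset.sum_nonneg fun k _ => sq_nonneg _) hM0
        _ = M / (3 * B ^ 2) * ∑ k : Fin 3,
            (fderiv ℝ f x (Pi.single i (EuclideanSpace.single k (1 : ℝ)))) ^ 2 := by
            rw [← Finset.mul_sum]
            ring
  linarith

theorem nrm2_wm {S : Type} (D : Species S) {I : Type} [Fintype I] [DecidableEq I]
    (f : (I → E3) → ℝ) (Ψ : Wave D I) :
    nrm2 D (mulW D f Ψ) = wm D (fun x => f x ^ 2) Ψ := by
  rw [← wm_one, wm_mulW]
  simp only [mul_one]

/-- TARGET 2 -/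
theorem near_minT {S : Type} [Fintype S] [DecidableEq S] (D : Species S) (hD : D.Valid) :
    ∃ C : ℝ, 0 < C ∧ ∀ {I : Type} [Fintype I] [DecidableEq I] (sp : I → S) (ℓ T η Z : ℝ),
      0 < T → 0 ≤ η → ∀ {k : ℕ} (p : Fin k → ℝ) (ψ : Fin k → Wave D I), NE D sp ℓ T η Z p ψ →
      ∀ (f : (I → E3) → ℝ) (B : ℝ), ContDiff ℝ SM f → Sy sp f → (∀ x, |f x| ≤ B) →
        ∑ j, p j * energy D sp (mulW D f (ψ j)) +
          T * ∑ j, p j * (nrm2 D (mulW D f (ψ j)) * Real.log (p j)) ≤
        -T * Real.log Z * wx D p ψ (fun x => f x ^ 2) + C * (wx D p ψ (gr f) + B ^ 2 * η) +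
          T * wx D p ψ (fun x => f x ^ 2) := by
  have hm : ∀ s, 0 < 1 / (2 * D.mass s) := fun s => by
    have := hD.mass_pos s
    positivity
  set M : ℝ := ∑ s, 1 / (2 * D.mass s) with hM
  have hM0 : 0 ≤ M := Finset.sum_nonneg fun s _ => (hm s).le
  refine ⟨4 + 4 / 3 * M, by positivity, ?_⟩
  intro I _ _ sp ℓ T η Z hT hη k p ψ hNE f B hf hs hB
  have hB0 : 0 ≤ B := (abs_nonneg _).trans (hB 0)
  have hw0 : 0 ≤ wx D p ψ (gr f) :=
    Finset.sum_nonneg fun j _ => mul_nonneg (hNE.p0 j) (RL0.wm_gr_nonneg D f (ψ j))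
  have hwf : wx D p ψ (fun x => f x ^ 2) = ∑ j, p j * nrm2 D (mulW D f (ψ j)) := by
    unfold wx
    refine Finset.sum_congr rfl fun j _ => ?_
    rw [nrm2_wm]
  rcases hB0.eq_or_lt with hB1 | hB1
  · have hf0 : f = fun _ => 0 := by
      funext x
      have h1 := hB x
      rw [← hB1] at h1
      exact abs_eq_zero.1 (le_antisymm h1 (abs_nonneg _))
    have e1 : ∀ j, energy D sp (mulW D f (ψ j)) = 0 := by
      intro j
      rw [hf0, RL0.energy_const]
      ring
    have e2 : ∀ j, nrm2 D (mulW D f (ψ j)) = 0 := by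
      intro j
      rw [hf0, RL0.nrm2_const]
      ring
    rw [hwf]
    simp only [e1, e2, mul_zero, zero_mul, Finset.sum_const_zero, zero_add, add_zero]
    positivity
  · obtain ⟨θ, hθ, hθs, hsin, hsp⟩ := split_est D hD sp f B hB1 hf hs hB
    have hcosd : ContDiff ℝ SM (fun x => Real.cos (θ x)) := Real.contDiff_cos.comp hθ
    have hcoss : Sy sp (fun x => Real.cos (θ x)) := fun i j x h => by
      show Real.cos (θ _) = Real.cos (θ _)
      rw [hθs i j x h]
    have hcosS : ∀ j, IsState D sp ℓ (mulW D (fun x => Real.cos (θ x)) (ψ j)) := fun j =>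
      RL0.mulW_stateS D sp ℓ (ψ j) (hNE.state j) _ hcosd hcoss
    obtain ⟨c, hc⟩ : ∃ c : Fin k → ℝ, c = fun j => nrm2 D (mulW D (fun x => Real.cos (θ x)) (ψ j)) :=
      ⟨_, rfl⟩
    obtain ⟨s, hsd⟩ : ∃ s : Fin k → ℝ, s = fun j => nrm2 D (mulW D (fun x => Real.sin (θ x)) (ψ j)) :=
      ⟨_, rfl⟩
    obtain ⟨ec, hec⟩ : ∃ ec : Fin k → ℝ, ec = fun j =>
      energy D sp (mulW D (fun x => Real.cos (θ x)) (ψ j)) := ⟨_, rfl⟩
    obtain ⟨es, hes⟩ : ∃ es : Fin k → ℝ, es = fun j =>
      energy D sp (mulW D (fun x => Real.sin (θ x)) (ψ j)) := ⟨_, rfl⟩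
    have hcs : ∀ j, c j + s j = 1 := by
      intro j
      rw [hc, hsd]
      exact (hsp ℓ (ψ j) (hNE.state j)).1.trans (hNE.nrm j)
    have hecs : ∀ j, ec j + es j ≤ energy D sp (ψ j) + M / (3 * B ^ 2) * wm D (gr f) (ψ j) := by
      intro j
      rw [hec, hes]
      exact (hsp ℓ (ψ j) (hNE.state j)).2
    have hc0 : ∀ j, 0 ≤ c j := by
      intro j; rw [hc]; exact nrm2_nn D _
    have hs0 : ∀ j, 0 ≤ s j := by
      intro j; rw [hsd]; exact nrm2_nn D _
    have hfe : ∀ j, mulW D f (ψ j) = mulW D (fun _ => 2 * B)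
        (mulW D (fun x => Real.sin (θ x)) (ψ j)) := by
      intro j
      rw [mulW_mulW]
      congr 1
      funext x
      rw [hsin]
      field_simp
    have hef : ∀ j, energy D sp (mulW D f (ψ j)) = (2 * B) ^ 2 * es j := by
      intro j
      rw [hfe, RL0.energy_const, hes]
    have hnf : ∀ j, nrm2 D (mulW D f (ψ j)) = (2 * B) ^ 2 * s j := by
      intro j
      rw [hfe, RL0.nrm2_const, hsd]
    have htb := trace_bound D sp ℓ T hT Z hNE.Zle
      (fun j => mulW D (fun x => Real.cos (θ x)) (ψ j)) hcosS 1 zero_le_one (by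
        intro γ
        rw [mulW_sum, one_mul]
        refine le_trans ?_ (hNE.sg γ)
        refine mulW_nrm_le D sp ℓ _ (state_comb D sp ℓ ψ hNE.state γ) _ hcosd.continuous ?_
        intro x
        exact Real.cos_sq_le_one _)
    rw [one_mul] at htb
    have hez : ∀ j, c j = 0 → -(ec j) / T = 0 := by
      intro j hj
      have h1 : mulW D (fun x => Real.cos (θ x)) (ψ j) = 0 := by
        by_contra hne
        have h2 := nrm2_pos D sp ℓ _ (hcosS j) hne
        rw [hc] at hj
        exact h2.ne' hj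
      have h3 : (0 : Wave D I) = mulW D (fun _ => 0) (ψ j) := by
        funext τ x
        simp [mulW]
      have h4 : ec j = 0 := by
        rw [hec]
        show energy D sp (mulW D (fun x => Real.cos (θ x)) (ψ j)) = 0
        rw [h1, h3, RL0.energy_const]
        ring
      rw [h4]; simp
    have hgb := gibbs_w p c (fun j => -(ec j) / T) hNE.p0 hc0 hez Z hNE.Zpos (by
      refine le_trans (le_of_eq ?_) htb
      refine Finset.sum_congr rfl fun j _ => ?_
      rw [hc, hec]
      simp only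
      congr 2
      rw [div_div, mul_comm T])
    -- the sums
    have t1 : ∑ j, p j * (-(ec j) / T) = -(∑ j, p j * ec j) / T := by
      rw [← Finset.sum_neg_distrib, Finset.sum_div]
      refine Finset.sum_congr rfl fun j _ => ?_
      ring
    rw [t1, div_le_iff₀ hT] at hgb
    have hp1 := hNE.p1
    have hfree := hNE.free
    have e1 : ∑ j, (p j * energy D sp (ψ j) + T * (p j * Real.log (p j))) =
        ∑ j, p j * energy D sp (ψ j) + T * ∑ j, p j * Real.log (p j) := by
      rw [Finset.sum_add_distrib, Finset.mul_sum]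
    rw [e1] at hfree
    have e2 : ∑ j, p j * c j + ∑ j, p j * s j = 1 := by
      rw [← Finset.sum_add_distrib, ← hp1]
      refine Finset.sum_congr rfl fun j _ => ?_
      rw [← mul_add, hcs, mul_one]
    have e3 : ∑ j, p j * (c j * Real.log (p j)) + ∑ j, p j * (s j * Real.log (p j)) =
        ∑ j, p j * Real.log (p j) := by
      rw [← Finset.sum_add_distrib]
      refine Finset.sum_congr rfl fun j _ => ?_
      rw [← mul_add, ← add_mul, hcs, one_mul]
    have e4 : ∑ j, p j * ec j + ∑ j, p j * es j ≤ ∑ j, p j * energy D sp (ψ j) +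
        M / (3 * B ^ 2) * wx D p ψ (gr f) := by
      unfold wx
      rw [← Finset.sum_add_distrib, Finset.mul_sum, ← Finset.sum_add_distrib]
      refine Finset.sum_le_sum fun j _ => ?_
      have := mul_le_mul_of_nonneg_left (hecs j) (hNE.p0 j)
      linarith
    obtain ⟨t2, ht2⟩ : ∃ t2, t2 = ∑ j, p j * c j := ⟨_, rfl⟩
    obtain ⟨u1, hu1⟩ : ∃ u1, u1 = ∑ j, p j * s j := ⟨_, rfl⟩
    rw [← ht2] at hgb e2
    rw [← hu1] at e2
    have hu0 : 0 ≤ u1 := by
      rw [hu1]; exact Finset.sum_nonneg fun j _ => mul_nonneg (hNE.p0 j) (hs0 j)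
    have ht0 : 0 ≤ t2 := by
      rw [ht2]; exact Finset.sum_nonneg fun j _ => mul_nonneg (hNE.p0 j) (hc0 j)
    have hlog : -(t2 * Real.log t2) ≤ u1 := by
      rcases ht0.eq_or_lt with h1 | h1
      · rw [← h1]; simpa using hu0
      · have h2 := Real.one_sub_inv_le_log_of_pos h1
        have h3 := mul_le_mul_of_nonneg_left h2 h1.le
        have h4 : t2 * (1 - t2⁻¹) = t2 - 1 := by
          field_simp
        rw [h4] at h3
        linarith
    have key : ∑ j, p j * es j + T * ∑ j, p j * (s j * Real.log (p j)) ≤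
        -T * Real.log Z * u1 + η + M / (3 * B ^ 2) * wx D p ψ (gr f) + T * u1 := by
      have h5 := mul_le_mul_of_nonneg_left hlog hT.le
      have e5 : t2 = 1 - u1 := by linarith
      have h6 : -(∑ j, p j * ec j) ≤ T * (t2 * Real.log Z) + T * ∑ j, p j * (c j * Real.log (p j)) +
          T * u1 := by
        have : (t2 * Real.log Z + ∑ j, p j * (c j * Real.log (p j)) - t2 * Real.log t2) * T =
          T * (t2 * Real.log Z) + T * ∑ j, p j * (c j * Real.log (p j)) + T * -(t2 * Real.log t2) := by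
          ring
        rw [this] at hgb
        linarith
      have h7 : T * ∑ j, p j * (c j * Real.log (p j)) + T * ∑ j, p j * (s j * Real.log (p j)) =
          T * ∑ j, p j * Real.log (p j) := by
        rw [← mul_add, e3]
      have h8 : T * (t2 * Real.log Z) = T * Real.log Z - T * Real.log Z * u1 := by
        rw [e5]; ring
      linarith
    have g1 : ∑ j, p j * energy D sp (mulW D f (ψ j)) = (2 * B) ^ 2 * ∑ j, p j * es j := by
      rw [Finset.mul_sum]
      refine Finset.sum_congr rfl fun j _ => ?_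
      rw [hef]; ring
    have g2 : ∑ j, p j * (nrm2 D (mulW D f (ψ j)) * Real.log (p j)) =
        (2 * B) ^ 2 * ∑ j, p j * (s j * Real.log (p j)) := by
      rw [Finset.mul_sum]
      refine Finset.sum_congr rfl fun j _ => ?_
      rw [hnf]; ring
    have g3 : wx D p ψ (fun x => f x ^ 2) = (2 * B) ^ 2 * u1 := by
      rw [hwf, hu1, Finset.mul_sum]
      refine Finset.sum_congr rfl fun j _ => ?_
      rw [hnf]; ring
    rw [g1, g2, g3]
    have h9 := mul_le_mul_of_nonneg_left key (sq_nonneg (2 * B))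
    have h10 : (2 * B) ^ 2 * (M / (3 * B ^ 2) * wx D p ψ (gr f)) = 4 / 3 * M * wx D p ψ (gr f) := by
      field_simp
      ring
    have h11 : 0 ≤ M * (B ^ 2 * η) := by positivity
    have h12 : (2 * B) ^ 2 * (∑ j, p j * es j + T * ∑ j, p j * (s j * Real.log (p j))) =
        (2 * B) ^ 2 * ∑ j, p j * es j + T * ((2 * B) ^ 2 * ∑ j, p j * (s j * Real.log (p j))) := by
      ring
    have h13 : (2 * B) ^ 2 * (-T * Real.log Z * u1 + η + M / (3 * B ^ 2) * wx D p ψ (gr f) + T * u1) =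
        -T * Real.log Z * ((2 * B) ^ 2 * u1) + 4 * (B ^ 2 * η) + 4 / 3 * M * wx D p ψ (gr f) +
          T * ((2 * B) ^ 2 * u1) := by
      rw [← h10]; ring
    rw [h12, h13] at h9
    have h14 : (4 + 4 / 3 * M) * (wx D p ψ (gr f) + B ^ 2 * η) = 4 * wx D p ψ (gr f) +
        4 / 3 * M * wx D p ψ (gr f) + 4 * (B ^ 2 * η) + 4 / 3 * (M * (B ^ 2 * η)) := by ring
    rw [h14]
    linarith

end Pool.Agent.Helper780_CP.RG1
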