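import Pool.Agent.Helper780_CP.LLDefs2
import Pool.Agent.Helper780_CP.LPDefs
import Pool.Agent.Helper985.CT.M_removeT_none
import Pool.Agent.Helper985.CT.M_lz_bounds
import Pool.Agent.Helper985.CT.M_peierls_relabel
import Pool.Agent.Helper780_CP.RGR1

set_option autoImplicit false

open MeasureTheory
open scoped Topology

namespace Pool.Agent.Helper780_CP.RKT1

open Pool.Agent.Helper780_CP
open Pool.Agent.Helper985.CP

open Pool.Agent.Helper780_CP Pool.Agent.Helper985.CP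

/-- the kinetic energy is the sum over the particles -/
theorem k1_KN {S : Type} (D : Species S) {I : Type} [Fintype I] [DecidableEq I]
    (sp : I → S) (ℓ : ℝ) (Ψ : Wave D I) (hΨ : IsState D sp ℓ Ψ) :
    KN D sp Ψ = ∑ i, kinE D sp i Ψ := by
  unfold KN kinE
  rw [Finset.sum_comm]
  refine Finset.sum_congr rfl fun τ _ => ?_
  rw [integral_finsetSum]
  intro i _
  exact (int_state D sp ℓ Ψ hΨ τ).2.1 i

theorem k1_KN_smul {S : Type} (D : Species S) {I : Type} [Fintype I] [DecidableEq I]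
    (sp : I → S) (ℓ : ℝ) (v : Wave D I) (hv : IsState D sp ℓ v) (r : ℝ) :
    KN D sp (fun τ x => (r : ℂ) * v τ x) = r ^ 2 * KN D sp v := by
  rw [k1_KN D sp ℓ _ (removeT_state_smul D sp ℓ v hv (r : ℂ)), k1_KN D sp ℓ v hv, Finset.mul_sum]
  exact Finset.sum_congr rfl fun i _ => removeT_kinE_smul D sp ℓ v hv r i

theorem k1_KN_relab {S : Type} (D : Species S) {I J : Type} [Fintype I] [DecidableEq I]
    [Fintype J] [DecidableEq J] (e : I ≃ J) (sp : I → S) (sp' : J → S)
    (h : ∀ i, sp' (e i) = sp i) (ℓ : ℝ) (Ψ : Wave D I) (hΨ : IsState D sp ℓ Ψ) :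
    KN D sp' (relab D e Ψ) = KN D sp Ψ := by
  rw [k1_KN D sp ℓ Ψ hΨ, k1_KN D sp' ℓ _ (relabel_state D e sp sp' h ℓ Ψ hΨ),
    ← Equiv.sum_comp e]
  exact Finset.sum_congr rfl fun i _ => (peierls_relabel D e sp sp' h ℓ 1).2 Ψ i

/-- one-particle partition functions -/
theorem k1_lz (t : ℝ) (ht : 0 < t) : ∃ C : ℝ, 0 < C ∧ ∀ ℓ : ℝ, 0 < ℓ →
    HasSum (fun m => Real.exp (-(t * pen ℓ m) - lz ℓ t)) 1 ∧
    Real.exp (lz ℓ t) ≤ C * (1 + ℓ ^ 3) := by
  obtain ⟨C, hC, h⟩ := lz_bounds t 1 ht one_pos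
  have hsum : ∀ ℓ : ℝ, 0 < ℓ → HasSum (fun m => Real.exp (-(t * pen ℓ m) - lz ℓ t)) 1 := by
    intro ℓ hℓ
    obtain ⟨C', -, h'⟩ := lz_bounds t ℓ ht hℓ
    exact (h' ℓ le_rfl).1
  have hs : ∀ ℓ : ℝ, 0 < ℓ → HasSum (fun m => Real.exp (-(t * pen ℓ m))) (Real.exp (lz ℓ t)) := by
    intro ℓ hℓ
    have h1 := (hsum ℓ hℓ).mul_left (Real.exp (lz ℓ t))
    rw [mul_one] at h1
    refine h1.congr_fun ?_ |> fun h => h
    intro m
    rw [← Real.exp_add]
    congr 1
    ring
  refine ⟨C, hC, fun ℓ hℓ => ⟨hsum ℓ hℓ, ?_⟩⟩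
  by_cases h1 : 1 ≤ ℓ
  · refine (h ℓ h1).2.1.trans ?_
    nlinarith
  · push Not at h1
    have h2 : Real.exp (lz ℓ t) ≤ Real.exp (lz 1 t) := by
      refine hasSum_le (fun m => ?_) (hs ℓ hℓ) (hs 1 one_pos)
      apply Real.exp_le_exp.2
      have h3 : pen 1 m ≤ pen ℓ m := by
        unfold pen
        refine mul_le_mul_of_nonneg_right ?_ (Finset.sum_nonneg fun i _ => sq_nonneg _)
        refine pow_le_pow_left₀ (by positivity) ?_ 2
        exact div_le_div_of_nonneg_left (by positivity) hℓ h1.le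
      nlinarith
    refine h2.trans ((h 1 le_rfl).2.1.trans ?_)
    have : 0 < ℓ ^ 3 := by positivity
    nlinarith

/-- the bound for the partition function -/
noncomputable def ZZ {S : Type} [Fintype S] [DecidableEq S] (g A : ℝ) {I : Type} [Fintype I]
    (sp : I → S) : ℝ := ∏ s, ∏ j ∈ Finset.range (cnt sp s), (g * (1 + A / ((j : ℝ) + 1)))

theorem ZZ_option {S : Type} [Fintype S] [DecidableEq S] (g A : ℝ) {J : Type} [Fintype J]
    [DecidableEq J] (sp : Option J → S) :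
    ZZ g A sp = ZZ g A (fun j => sp (some j)) * (g * (1 + A / (cnt sp (sp none) : ℝ))) := by
  unfold ZZ
  have h1 : ∀ s, ∏ j ∈ Finset.range (cnt sp s), (g * (1 + A / ((j : ℝ) + 1))) =
      (∏ j ∈ Finset.range (cnt (fun j => sp (some j)) s), (g * (1 + A / ((j : ℝ) + 1)))) *
        (if s = sp none then g * (1 + A / (cnt sp (sp none) : ℝ)) else 1) := by
    intro s
    by_cases hs : s = sp none
    · have h2 := RGR1.gs_cnt_option sp (sp none)
      rw [if_pos rfl] at h2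
      rw [hs, if_pos rfl, h2, Finset.prod_range_succ]
      push_cast
      rfl
    · have h2 := RGR1.gs_cnt_option sp s
      rw [if_neg hs, add_zero] at h2
      rw [h2, if_neg hs, mul_one]
  rw [Finset.prod_congr rfl fun s _ => h1 s, Finset.prod_mul_distrib]
  congr 1
  rw [Finset.prod_ite_eq' Finset.univ (sp none), if_pos (Finset.mem_univ _)]

theorem k1_prod (A : ℝ) (N : ℕ) (hA : 0 ≤ A) (hN : A ≤ N) (n : ℕ) :
    ∏ j ∈ Finset.range n, (1 + A / ((j : ℝ) + 1)) ≤ ((N + n).choose n : ℝ) := by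
  induction n with
  | zero => simp
  | succ n ih =>
    rw [Finset.prod_range_succ]
    have h1 : ((N + n + 1).choose (n + 1) : ℝ) = ((N + n).choose n : ℝ) * (1 + N / ((n : ℝ) + 1)) := by
      have h2 := Nat.add_one_mul_choose_eq (N + n) n
      have h3 : (((N + n + 1) * (N + n).choose n : ℕ) : ℝ) =
        (((N + n + 1).choose (n + 1) * (n + 1) : ℕ) : ℝ) := by rw [h2]
      push_cast at h3
      have h4 : ((n : ℝ) + 1) ≠ 0 := by positivity
      field_simp
      rw [← h3]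
      ring
    have h5 : (1 + A / ((n : ℝ) + 1)) ≤ (1 + N / ((n : ℝ) + 1)) := by gcongr
    have h6 : 0 ≤ (1 + A / ((n : ℝ) + 1)) := by positivity
    calc _ ≤ ((N + n).choose n : ℝ) * (1 + N / ((n : ℝ) + 1)) :=
          mul_le_mul ih h5 h6 (by positivity)
      _ = _ := by rw [← h1]; rfl

theorem k1_prod_exp (A : ℝ) (hA : 0 ≤ A) (n : ℕ) :
    ∏ j ∈ Finset.range n, (1 + A / ((j : ℝ) + 1)) ≤ Real.exp (A + 1 + n) := by
  refine (k1_prod A ⌈A⌉₊ hA (Nat.le_ceil A) n).trans ?_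
  have h1 : (((⌈A⌉₊ + n).choose n : ℕ) : ℝ) ≤ (2 : ℝ) ^ (⌈A⌉₊ + n) := by
    exact_mod_cast Nat.choose_le_two_pow _ _
  refine h1.trans ?_
  have h2 : (2 : ℝ) ≤ Real.exp 1 := by
    have := Real.add_one_le_exp (1 : ℝ)
    linarith
  calc (2 : ℝ) ^ (⌈A⌉₊ + n) ≤ (Real.exp 1) ^ (⌈A⌉₊ + n) := pow_le_pow_left₀ (by norm_num) h2 _
    _ = Real.exp ((⌈A⌉₊ + n : ℕ) : ℝ) := by rw [← Real.exp_nat_mul, mul_one]
    _ ≤ _ := by
      apply Real.exp_le_exp.2
      have := Nat.ceil_lt_add_one hA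
      push_cast
      linarith

theorem ZZ_nonneg {S : Type} [Fintype S] [DecidableEq S] (g A : ℝ) (hg : 0 ≤ g) (hA : 0 ≤ A)
    {I : Type} [Fintype I] (sp : I → S) : 0 ≤ ZZ g A sp := by
  unfold ZZ
  refine Finset.prod_nonneg fun s _ => Finset.prod_nonneg fun j _ => ?_
  positivity

theorem k1_cnt {S : Type} [Fintype S] [DecidableEq S] {I : Type} [Fintype I] (sp : I → S) :
    ∑ s, cnt sp s = Fintype.card I := by
  unfold cnt
  rw [← Finset.card_univ, Finset.card_eq_sum_card_fiberwise (f := sp) (t := Finset.univ)]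
  intro x _
  exact Finset.mem_coe.2 (Finset.mem_univ _)

theorem ZZ_le {S : Type} [Fintype S] [DecidableEq S] (g A : ℝ) (hg : 0 ≤ g) (hA : 0 ≤ A)
    {I : Type} [Fintype I] (sp : I → S) :
    ZZ g A sp ≤ Real.exp ((Fintype.card S : ℝ) * (A + 1) + (g + 1) * (Fintype.card I : ℝ)) := by
  unfold ZZ
  have h1 : ∀ s, ∏ j ∈ Finset.range (cnt sp s), (g * (1 + A / ((j : ℝ) + 1))) ≤
      Real.exp ((A + 1) + (g + 1) * (cnt sp s : ℝ)) := by
    intro s
    rw [Finset.prod_mul_distrib, Finset.prod_const, Finset.card_range]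
    have h2 : g ≤ Real.exp g := by
      have := Real.add_one_le_exp g
      linarith
    have h3 : g ^ (cnt sp s) ≤ Real.exp ((cnt sp s : ℝ) * g) := by
      rw [Real.exp_nat_mul]
      exact pow_le_pow_left₀ hg h2 _
    calc _ ≤ Real.exp ((cnt sp s : ℝ) * g) * Real.exp (A + 1 + (cnt sp s : ℝ)) :=
          mul_le_mul h3 (k1_prod_exp A hA _) (Finset.prod_nonneg fun j _ => by positivity)
            (Real.exp_pos _).le
      _ = _ := by
        rw [← Real.exp_add]
        congr 1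
        ring
  calc _ ≤ ∏ s, Real.exp ((A + 1) + (g + 1) * (cnt sp s : ℝ)) :=
        Finset.prod_le_prod (fun s _ => Finset.prod_nonneg fun j _ => by positivity)
          fun s _ => h1 s
    _ = _ := by
      rw [← Real.exp_sum, Finset.sum_add_distrib, ← Finset.mul_sum, Finset.sum_const,
        Finset.card_univ, nsmul_eq_mul]
      congr 3
      rw [← Nat.cast_sum, k1_cnt]

/-- no particles -/
theorem k1_zero {S : Type} (D : Species S) {I : Type} [Fintype I] [DecidableEq I] [IsEmpty I]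
    (B : Type) [Fintype B] (v : B → Wave D I) (c : ℝ) (hc : 0 ≤ c)
    (hB : ∀ γ : B → ℂ, nrm2 D (fun τ x => ∑ a, γ a * v a τ x) ≤ c * ∑ a, ‖γ a‖ ^ 2) :
    ∑ a, nrm2 D (v a) ≤ c := by
  obtain ⟨κ, hκ0, hκ⟩ : ∃ κ : ℝ, 0 ≤ κ ∧ ∀ Ψ : Wave D I, nrm2 D Ψ =
      κ * ‖Ψ isEmptyElim isEmptyElim‖ ^ 2 := by
    refine ⟨(volume : Measure (I → E3)).real Set.univ, measureReal_nonneg, fun Ψ => ?_⟩
    unfold nrm2
    rw [Fintype.sum_unique]
    have h1 : ∀ x : I → E3, ‖Ψ default x‖ ^ 2 = ‖Ψ isEmptyElim isEmptyElim‖ ^ 2 := by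
      intro x
      have e1 : (default : I → Fin D.g) = isEmptyElim := Subsingleton.elim _ _
      have e2 : x = isEmptyElim := Subsingleton.elim _ _
      rw [e1, e2]
    simp only [h1]
    rw [integral_const, smul_eq_mul]
  simp only [hκ]
  rw [← Finset.mul_sum]
  set N : ℝ := ∑ a, ‖v a isEmptyElim isEmptyElim‖ ^ 2 with hN
  have hN0 : 0 ≤ N := Finset.sum_nonneg fun a _ => sq_nonneg _
  have h2 := hB (fun a => (starRingEnd ℂ) (v a isEmptyElim isEmptyElim))
  rw [hκ] at h2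
  have h3 : ∑ a, (starRingEnd ℂ) (v a isEmptyElim isEmptyElim) * v a isEmptyElim isEmptyElim =
      ((N : ℝ) : ℂ) := by
    rw [hN]
    push_cast
    refine Finset.sum_congr rfl fun a _ => ?_
    rw [Complex.conj_mul']
  have h4 : ∑ a, ‖(starRingEnd ℂ) (v a isEmptyElim isEmptyElim)‖ ^ 2 = N := by
    rw [hN]
    refine Finset.sum_congr rfl fun a _ => ?_
    rw [RCLike.norm_conj]
  simp only [h3, h4] at h2
  rw [Complex.norm_real, Real.norm_eq_abs, sq_abs] at h2
  rcases hN0.eq_or_lt with h5 | h5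
  · rw [← h5, mul_zero]; exact hc
  · have h6 : (κ * N) * N ≤ c * N := by nlinarith
    exact le_of_mul_le_mul_right h6 h5

theorem k1_main {S : Type} [Fintype S] [DecidableEq S] (D : Species S) (hD : D.Valid)
    (T θ : ℝ) (hT : 0 < T) (hθ : 0 < θ) (ℓ : ℝ) (hℓ : 0 < ℓ) (A : ℝ) (hA : 0 ≤ A)
    (L : S → ℝ)
    (hL : ∀ s, HasSum (fun m => Real.exp (-(θ / (2 * D.mass s * T) * pen ℓ m) - L s)) 1)
    (hLA : ∀ s, Real.exp (L s) ≤ A) (n : ℕ) :
    ∀ {I : Type} [Fintype I] [DecidableEq I] (sp : I → S), Fintype.card I = n →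
    ∀ (B : Type) [Fintype B] (v : B → Wave D I) (_ : ∀ a, IsState D sp ℓ (v a))
      (c : ℝ) (_ : 0 ≤ c)
      (_ : ∀ γ : B → ℂ, nrm2 D (fun τ x => ∑ a, γ a * v a τ x) ≤ c * ∑ a, ‖γ a‖ ^ 2),
      ∑ a, nrm2 D (v a) * Real.exp (-(θ * KN D sp (v a)) / (nrm2 D (v a) * T)) ≤
        c * ZZ D.g A sp := by
  induction n with
  | zero =>
    intro I _ _ sp hcard B _ v hv c hc hB
    have : IsEmpty I := Fintype.card_eq_zero_iff.1 hcard
    have h1 : ∀ a, KN D sp (v a) = 0 := by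
      intro a
      unfold KN
      simp
    have h2 : ZZ (D.g : ℝ) A sp = 1 := by
      unfold ZZ
      refine Finset.prod_eq_one fun s _ => ?_
      have : cnt sp s = 0 := by
        unfold cnt
        rw [Finset.card_eq_zero, Finset.filter_eq_empty_iff]
        intro x
        exact isEmptyElim x
      rw [this]
      simp
    rw [h2, mul_one]
    refine le_trans (le_of_eq ?_) (k1_zero D B v c hc hB)
    refine Finset.sum_congr rfl fun a _ => ?_
    rw [h1]
    simp
  | succ n ih =>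
    intro I _ _ sp hcard B _ v hv c hc hB
    have hne : Nonempty I := by
      rw [← Fintype.card_pos_iff, hcard]
      exact Nat.succ_pos n
    obtain ⟨i⟩ := hne
    let e : I ≃ Option {b // b ≠ i} := (Equiv.optionSubtypeNe i).symm
    let sp2 : Option {b // b ≠ i} → S := fun o => sp (e.symm o)
    have he : ∀ k, sp2 (e k) = sp k := by
      intro k
      change sp (e.symm (e k)) = sp k
      rw [Equiv.symm_apply_apply]
    have hcard' : Fintype.card {b // b ≠ i} = n := by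
      have h1 := Fintype.card_congr e
      rw [Fintype.card_option, hcard] at h1
      omega
    have hcnt2 : ∀ s, cnt sp2 s = cnt sp s := by
      intro s
      unfold cnt
      rw [Finset.card_filter, Finset.card_filter, ← Equiv.sum_comp e]
      simp only [he]
    have hZZ : ZZ (D.g : ℝ) A sp = ZZ (D.g : ℝ) A sp2 := by
      unfold ZZ
      refine Finset.prod_congr rfl fun s _ => ?_
      rw [hcnt2]
    have hcntpos : (0 : ℝ) < (cnt sp2 (sp2 none) : ℝ) := by
      have : 0 < cnt sp2 (sp2 none) := by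
        unfold cnt
        exact Finset.card_pos.2 ⟨none, by simp⟩
      exact_mod_cast this
    let f : B ≃ Fin (Fintype.card B) := Fintype.equivFin B
    have hst : ∀ a, IsState D sp2 ℓ (relab D e (v a)) := fun a =>
      relabel_state D e sp sp2 he ℓ (v a) (hv a)
    have h1 := removeT_rem1 D hD sp2 ℓ T θ hℓ hT hθ (ZZ (D.g : ℝ) A (fun k => sp2 (some k)))
      (fun ψ => θ * KN D (fun k => sp2 (some k)) ψ)
      (fun r ψ hψ => by
        rw [k1_KN_smul D _ ℓ ψ hψ r]; ring)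
      (fun B' _ v' hv' c' hc' hB' => ih (fun k => sp2 (some k)) hcard' B' v' hv' c' hc' hB')
      (L (sp2 none)) ((cnt sp2 (sp2 none) : ℝ) * Real.exp (-L (sp2 none))) (hL _) le_rfl
      (fun j => relab D e (v (f.symm j))) (fun j => hst _) c hc
      (by
        intro γ
        have h2 := hB (fun a => γ (f a))
        have e1 : ∀ (τ : Option {b // b ≠ i} → Fin D.g) (x : Option {b // b ≠ i} → E3),
            ∑ j, γ j * relab D e (v (f.symm j)) τ x =
              relab D e (fun τ x => ∑ a, γ (f a) * v a τ x) τ x := by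
          intro τ x
          rw [← Equiv.sum_comp f]
          simp [relab]
        have e2 : ∑ j, ‖γ j‖ ^ 2 = ∑ a, ‖γ (f a)‖ ^ 2 := by
          rw [← Equiv.sum_comp f]
        simp only [e1]
        rw [e2, (relabel_num D e sp sp2 he _).1]
        exact h2)
      (fun j => θ * ∑ k, kinE D sp2 (some k) (relab D e (v (f.symm j))))
      (fun j => by
        obtain ⟨-, -, b3⟩ := psl_nrm D hD sp2 ℓ hℓ (relab D e (v (f.symm j))) (hst _)
        have s1 := (hasSum_sum fun k (_ : k ∈ Finset.univ) => b3 k).mul_left θ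
        have ef : (fun m => ∑ σ, θ * KN D (fun k => sp2 (some k))
            (psl D (pwave ℓ m) σ (relab D e (v (f.symm j))))) =
            fun m => θ * ∑ k, ∑ σ, kinE D (fun i => sp2 (some i)) k
              (psl D (pwave ℓ m) σ (relab D e (v (f.symm j)))) := by
          funext m
          rw [Finset.sum_comm, ← Finset.mul_sum]
          congr 1
          refine Finset.sum_congr rfl fun σ _ => ?_
          exact k1_KN D _ ℓ _ (psl_state D sp2 ℓ _ (hst _) (pwave ℓ m)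
            (removeT_pwave_cont ℓ m) σ)
        rw [ef]
        exact s1)
    have h3 : ∑ a, nrm2 D (v a) * Real.exp (-(θ * KN D sp (v a)) / (nrm2 D (v a) * T)) =
        (∑ j, nrm2 D (relab D e (v (f.symm j))) *
          Real.exp (-(θ * ∑ k, kinE D sp2 (some k) (relab D e (v (f.symm j))) +
            θ * kinE D sp2 none (relab D e (v (f.symm j)))) /
            (nrm2 D (relab D e (v (f.symm j))) * T) - L (sp2 none) +
            Real.log (cnt sp2 (sp2 none)))) *
          Real.exp (L (sp2 none) - Real.log (cnt sp2 (sp2 none))) := by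
      rw [← Equiv.sum_comp f (fun j => nrm2 D (relab D e (v (f.symm j))) *
          Real.exp (-(θ * ∑ k, kinE D sp2 (some k) (relab D e (v (f.symm j))) +
            θ * kinE D sp2 none (relab D e (v (f.symm j)))) /
            (nrm2 D (relab D e (v (f.symm j))) * T) - L (sp2 none) +
            Real.log (cnt sp2 (sp2 none)))), Finset.sum_mul]
      refine Finset.sum_congr rfl fun a _ => ?_
      rw [Equiv.symm_apply_apply, mul_assoc, ← Real.exp_add,
        (relabel_num D e sp sp2 he (v a)).1, ← k1_KN_relab D e sp sp2 he ℓ (v a) (hv a),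
        k1_KN D sp2 ℓ _ (hst a), Fintype.sum_option]
      congr 2
      ring
    rw [h3, hZZ, ZZ_option]
    have hexp : Real.exp (L (sp2 none) - Real.log (cnt sp2 (sp2 none))) =
        Real.exp (L (sp2 none)) / (cnt sp2 (sp2 none) : ℝ) := by
      rw [Real.exp_sub, Real.exp_log hcntpos]
    rw [hexp]
    have hE0 := Real.exp_pos (L (sp2 none))
    have hEE : Real.exp (-L (sp2 none)) * Real.exp (L (sp2 none)) = 1 := by
      rw [← Real.exp_add]; simp
    have hnn : 0 ≤ c * ZZ (D.g : ℝ) A (fun k => sp2 (some k)) :=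
      mul_nonneg hc (ZZ_nonneg _ _ (Nat.cast_nonneg _) hA _)
    have hLA' := hLA (sp2 none)
    set ee := Real.exp (L (sp2 none)) with hee
    set ff := Real.exp (-L (sp2 none)) with hff
    set cn := (cnt sp2 (sp2 none) : ℝ) with hcn
    calc _ ≤ (D.g * (1 + cn * ff)) * (c * ZZ (D.g : ℝ) A (fun k => sp2 (some k))) * (ee / cn) :=
          mul_le_mul_of_nonneg_right h1 (by positivity)
      _ = (D.g * (ee / cn + ff * ee)) * (c * ZZ (D.g : ℝ) A (fun k => sp2 (some k))) := by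
          field_simp
      _ = (D.g * (1 + ee / cn)) * (c * ZZ (D.g : ℝ) A (fun k => sp2 (some k))) := by
          rw [hEE]; ring
      _ ≤ (D.g * (1 + A / cn)) * (c * ZZ (D.g : ℝ) A (fun k => sp2 (some k))) := by
          refine mul_le_mul_of_nonneg_right ?_ hnn
          gcongr
      _ = _ := by ring

/-- TARGET -/
theorem free_bound {S : Type} [Fintype S] [DecidableEq S] (D : Species S) (hD : D.Valid)
    (T θ : ℝ) (hT : 0 < T) (hθ : 0 < θ) : ∃ C : ℝ, 0 < C ∧
    ∀ {I : Type} [Fintype I] [DecidableEq I] (sp : I → S) (ℓ : ℝ), 0 < ℓ → ∀ c : ℝ, 0 ≤ c →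
      ∀ {k : ℕ} (ψ : Fin k → Wave D I), (∀ j, IsState D sp ℓ (ψ j)) → SGc D c ψ →
      ∑ j, nrm2 D (ψ j) * Real.exp (-(θ * KN D sp (ψ j)) / (T * nrm2 D (ψ j))) ≤
        c * Real.exp (C * (1 + ℓ ^ 3 + (Fintype.card I : ℝ))) := by
  have h1 : ∀ s, ∃ C : ℝ, 0 < C ∧ ∀ ℓ : ℝ, 0 < ℓ →
      HasSum (fun m => Real.exp (-(θ / (2 * D.mass s * T) * pen ℓ m) -
        lz ℓ (θ / (2 * D.mass s * T)))) 1 ∧
      Real.exp (lz ℓ (θ / (2 * D.mass s * T))) ≤ C * (1 + ℓ ^ 3) := fun s => by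
    have := hD.mass_pos s
    exact k1_lz _ (by positivity)
  choose C1 hC1 hC using h1
  set A0 : ℝ := ∑ s, C1 s with hA0
  have hA0n : 0 ≤ A0 := Finset.sum_nonneg fun s _ => (hC1 s).le
  refine ⟨(Fintype.card S : ℝ) * (A0 + 1) + (D.g + 1), by positivity, ?_⟩
  intro I _ _ sp ℓ hℓ c hc k ψ hψ hB
  have hl3 : 0 < ℓ ^ 3 := by positivity
  have hA : 0 ≤ A0 * (1 + ℓ ^ 3) := by positivity
  have h2 := k1_main D hD T θ hT hθ ℓ hℓ (A0 * (1 + ℓ ^ 3)) hA
    (fun s => lz ℓ (θ / (2 * D.mass s * T))) (fun s => (hC s ℓ hℓ).1)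
    (fun s => (hC s ℓ hℓ).2.trans (by
      have : C1 s ≤ A0 := Finset.single_le_sum (f := C1) (fun s _ => (hC1 s).le)
        (Finset.mem_univ s)
      have h3 : 0 ≤ 1 + ℓ ^ 3 := by positivity
      exact mul_le_mul_of_nonneg_right this h3)) (Fintype.card I) sp rfl (Fin k) ψ hψ c hc hB
  have h4 : ∑ j, nrm2 D (ψ j) * Real.exp (-(θ * KN D sp (ψ j)) / (T * nrm2 D (ψ j))) =
      ∑ j, nrm2 D (ψ j) * Real.exp (-(θ * KN D sp (ψ j)) / (nrm2 D (ψ j) * T)) :=
    Finset.sum_congr rfl fun j _ => by rw [mul_comm T]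
  rw [h4]
  refine h2.trans (mul_le_mul_of_nonneg_left ?_ hc)
  refine (ZZ_le (D.g : ℝ) _ (Nat.cast_nonneg _) hA sp).trans (Real.exp_le_exp.2 ?_)
  have hs0 : (0 : ℝ) ≤ Fintype.card S := Nat.cast_nonneg _
  have hi0 : (0 : ℝ) ≤ Fintype.card I := Nat.cast_nonneg _
  have hg0 : (0 : ℝ) ≤ (D.g : ℝ) := Nat.cast_nonneg _
  have t1 : (0 : ℝ) ≤ (Fintype.card S : ℝ) * ℓ ^ 3 := by positivity
  have t2 : (0 : ℝ) ≤ (Fintype.card S : ℝ) * (A0 + 1) * (Fintype.card I : ℝ) := by positivity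
  have t3 : (0 : ℝ) ≤ ((D.g : ℝ) + 1) * (1 + ℓ ^ 3) := by positivity
  nlinarith

end Pool.Agent.Helper780_CP.RKT1
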