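import Pool.Agent.Helper780_CP.LLDefs2
import Pool.Agent.Helper780_CP.LPDefs
import Pool.Agent.Helper780_CP.RSMALL
import Pool.Agent.Helper780_CP.RDIL
import Pool.Agent.Helper985.CT.M_peierls_bdd
import Pool.Agent.Helper780_CP.RKT1
import Pool.Agent.Helper780_CP.RG1

set_option autoImplicit false

open MeasureTheory
open scoped Topology

namespace Pool.Agent.Helper780_CP.RKT10

open Pool.Agent.Helper780_CP
open Pool.Agent.Helper985.CP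
open Pool.Agent.Helper780_CP.RKT1 (free_bound)
open Pool.Agent.Helper780_CP.RG1 (gibbs_w)

open Pool.Agent.Helper780_CP Pool.Agent.Helper985.CP

open Pool.Agent.Helper780_CP.RUB (upper_bound)
open Pool.Agent.Helper780_CP.RDIL (kin_bound dil_stab dilW dilW_state dilW_energy)
open Pool.Agent.Helper780_CP.RSMALL (sm_state_mono sm_energy_split sm_kinsum_nonneg sm_phim)

/-- normalised states of bounded energy in small cubes -/
theorem low_state {S : Type} [Fintype S] [DecidableEq S] (D : Species S) (hD : D.Valid)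
    (hf : ∀ s, D.charge s < 0 → D.fermion s = true) (ρ ℓ0 : ℝ) (hρ : 0 ≤ ρ) (hℓ0 : 0 < ℓ0) :
    ∃ E0 : ℝ, 0 ≤ E0 ∧ ∀ {I : Type} [Fintype I] [DecidableEq I] [Nonempty I] (sp : I → S) (ℓ : ℝ),
      0 < ℓ → ℓ ≤ ℓ0 → (Fintype.card I : ℝ) ≤ ρ * ℓ ^ 3 → (∑ i, D.charge (sp i) = 0) →
      ∃ Ψ : Wave D I, IsState D sp ℓ Ψ ∧ nrm2 D Ψ = 1 ∧ energy D sp Ψ ≤ E0 := by
  have hst : HStable D := hstable D hD hf
  obtain ⟨C1, hC1, HU⟩ := upper_bound D hD hst ρ hρ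
  obtain ⟨C2, hC2, HK⟩ := kin_bound D hD hf ρ hρ
  obtain ⟨L, hL⟩ : ∃ L, L = max ℓ0 4 := ⟨_, rfl⟩
  have hL4 : 4 ≤ L := by rw [hL]; exact le_max_right _ _
  have hL0 : ℓ0 ≤ L := by rw [hL]; exact le_max_left _ _
  have hLp : 0 < L := by linarith
  obtain ⟨M, hM⟩ : ∃ M, M = ρ * L ^ 3 := ⟨_, rfl⟩
  have hM0 : 0 ≤ M := by rw [hM]; positivity
  obtain ⟨Λ, hΛ⟩ : ∃ Λ, Λ = L * (1 + ρ) := ⟨_, rfl⟩
  have hΛ0 : 0 ≤ Λ := by rw [hΛ]; positivity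
  obtain ⟨E0, hE0⟩ : ∃ E0, E0 = Λ ^ 2 * (C2 * (1 + M)) + Λ * (C1 * M + 1) := ⟨_, rfl⟩
  have hE00 : 0 ≤ E0 := by rw [hE0]; positivity
  refine ⟨E0, hE00, ?_⟩
  intro I _ _ _ sp ℓ hℓ hℓℓ hN hneu
  have hℓL : ℓ ≤ L := hℓℓ.trans hL0
  have hN1 : (1 : ℝ) ≤ (Fintype.card I : ℝ) := by
    exact_mod_cast Fintype.card_pos
  have hN0 : (0 : ℝ) ≤ (Fintype.card I : ℝ) := by linarith
  have hNL : (Fintype.card I : ℝ) ≤ ρ * L ^ 3 := by
    refine hN.trans ?_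
    gcongr
  have hNM : (Fintype.card I : ℝ) ≤ M := by rw [hM]; exact hNL
  -- the dilation factor
  obtain ⟨lam, hlam⟩ : ∃ lam, lam = L / ℓ := ⟨_, rfl⟩
  have hlam0 : 0 < lam := by rw [hlam]; positivity
  have hlamℓ : lam * ℓ = L := by rw [hlam]; field_simp
  have hinv : 1 ≤ (1 + ρ) * ℓ := by
    by_cases h1 : 1 ≤ ℓ
    · nlinarith
    · have h1' : ℓ ≤ 1 := by linarith [not_le.1 h1]
      have h2 : ℓ ^ 3 ≤ ℓ := by
        have : ℓ ^ 3 = ℓ * ℓ ^ 2 := by ring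
        rw [this]
        have h3 : ℓ ^ 2 ≤ 1 := by nlinarith
        nlinarith
      have h4 : 1 ≤ ρ * ℓ ^ 3 := hN1.trans hN
      nlinarith
  have hlamΛ : lam ≤ Λ := by
    rw [hlam, hΛ, div_le_iff₀ hℓ]
    nlinarith
  -- the near minimiser in the large cube
  obtain ⟨Φ0, hΦ0, hΦn, hΦE⟩ := (energies_basic D hD hst sp L hLp).2.2.2 1 one_pos
  obtain ⟨c, hc⟩ : ∃ c, c = (Real.sqrt (nrm2 D Φ0))⁻¹ := ⟨_, rfl⟩
  have hc2 : c ^ 2 = (nrm2 D Φ0)⁻¹ := by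
    rw [hc, inv_pow, Real.sq_sqrt hΦn.le]
  obtain ⟨Φ, hΦd⟩ : ∃ Φ : Wave D I, Φ = fun τ x => (c : ℂ) * Φ0 τ x := ⟨_, rfl⟩
  have hΦ : IsState D sp L Φ := by rw [hΦd]; exact MT_state_smul D sp L Φ0 hΦ0 _
  have hΦ1 : nrm2 D Φ = 1 := by
    rw [hΦd, MT_nrm2_smul, hc2, inv_mul_cancel₀ hΦn.ne']
  have hΦE1 : energy D sp Φ ≤ sInf (energies D sp L) + 1 := by
    rw [hΦd, MT_energy_smul D sp L Φ0 hΦ0, hc2, inv_mul_le_iff₀ hΦn]
    rw [mul_comm]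
    exact hΦE
  have hT := HK sp L hL4 hNL hneu Φ hΦ hΦ1 hΦE1
  have hU := HU sp L hL4 hNL hneu
  have hsp := sm_energy_split D sp L Φ hΦ
  have hTn := sm_kinsum_nonneg D hD sp Φ
  obtain ⟨T, hTd⟩ : ∃ T, T = ∑ τ, ∫ x, ∑ i, kin D sp i (Φ τ) x := ⟨_, rfl⟩
  obtain ⟨V, hVd⟩ : ∃ V, V = ∑ τ, ∫ x, coul D sp x * ‖Φ τ x‖ ^ 2 := ⟨_, rfl⟩
  rw [← hTd] at hT hTn
  rw [← hTd, ← hVd] at hsp
  have hV : V ≤ C1 * (Fintype.card I : ℝ) + 1 := by linarith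
  -- dilate
  have hΦ' : IsState D sp (lam * ℓ) Φ := by rw [hlamℓ]; exact hΦ
  obtain ⟨a, ha, han, haE⟩ := dilW_energy D sp lam ℓ hlam0 Φ hΦ'
  have hds := dilW_state D sp lam ℓ hlam0 Φ hΦ'
  rw [hΦ1, mul_one] at han
  rw [← hTd, ← hVd] at haE
  have hb1 : lam ^ 2 * T ≤ Λ ^ 2 * (C2 * (1 + M)) := by
    have h1 : T ≤ C2 * (1 + M) := hT.trans (by gcongr)
    have h2 : lam ^ 2 ≤ Λ ^ 2 := by gcongr
    exact mul_le_mul h2 h1 hTn (by positivity)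
  have hb2 : lam * V ≤ Λ * (C1 * M + 1) := by
    have h1 : V ≤ C1 * M + 1 := hV.trans (by gcongr)
    calc lam * V ≤ lam * (C1 * M + 1) := by gcongr
      _ ≤ Λ * (C1 * M + 1) := by gcongr
  obtain ⟨b, hb⟩ : ∃ b, b = (Real.sqrt a)⁻¹ := ⟨_, rfl⟩
  have hbb : b ^ 2 = a⁻¹ := by
    rw [hb, inv_pow, Real.sq_sqrt ha.le]
  refine ⟨fun τ x => (b : ℂ) * dilW D lam Φ τ x, MT_state_smul D sp ℓ _ hds _, ?_, ?_⟩
  · rw [MT_nrm2_smul, hbb, han, inv_mul_cancel₀ ha.ne']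
  · rw [MT_energy_smul D sp ℓ _ hds, hbb, haE, ← mul_assoc, inv_mul_cancel₀ ha.ne', one_mul, hE0]
    linarith

theorem log_Z_le {S : Type} [Fintype S] [DecidableEq S] (D : Species S) {I : Type} [Fintype I]
    [DecidableEq I] (sp : I → S) (ℓ T Z : ℝ) (hT : 0 < T)
    (hZ : ∀ z ∈ peierls D sp ℓ T, z ≤ Z) (Ψ : Wave D I) (hΨ : IsState D sp ℓ Ψ)
    (hn : nrm2 D Ψ = 1) : -T * Real.log Z ≤ energy D sp Ψ := by
  have h1 : Real.exp (-(energy D sp Ψ) / T) ∈ peierls D sp ℓ T := by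
    refine ⟨1, fun _ => Ψ, ⟨fun _ => hΨ, fun i j => ?_⟩, by simp⟩
    rw [if_pos (Subsingleton.elim i j), pb_self, hn]
    simp
  have h2 := hZ _ h1
  have h3 : -(energy D sp Ψ) / T ≤ Real.log Z := by
    rw [Real.le_log_iff_exp_le (lt_of_lt_of_le (Real.exp_pos _) h2)]
    exact h2
  rw [div_le_iff₀ hT] at h3
  linarith

/-- TARGET -/
theorem smallT {S : Type} [Fintype S] [DecidableEq S] (D : Species S) (hD : D.Valid)
    (hf : ∀ s, D.charge s < 0 → D.fermion s = true) (T V ρ ℓ0 : ℝ) (hT : 0 < T) (hV : 0 < V)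
    (hρ : 0 < ρ) (hℓ0 : 0 < ℓ0) :
    ∃ C : ℝ, 0 < C ∧ ∀ {I : Type} [Fintype I] [DecidableEq I] (sp : I → S) (ℓ : ℝ), 0 < ℓ →
      ℓ ≤ ℓ0 → ℓ ^ 3 ≤ V * (Fintype.card I : ℝ) → (Fintype.card I : ℝ) ≤ ρ * ℓ ^ 3 →
      (∑ i, D.charge (sp i) = 0) → ∀ η Z : ℝ, 0 ≤ η → η ≤ 1 → ∀ {k : ℕ} (p : Fin k → ℝ)
      (ψ : Fin k → Wave D I), NE D sp ℓ T η Z p ψ →
      ∀ y : E3, |∑ j, p j * phim D sp (ψ j) y| ≤ C := by
  obtain ⟨E0, hE0, HE⟩ := low_state D hD hf ρ ℓ0 hρ.le hℓ0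
  obtain ⟨A, hA, HS⟩ := dil_stab D hD hf
  obtain ⟨Cf, hCf, HF⟩ := free_bound D hD T (1 / 4) hT (by norm_num)
  obtain ⟨L, hL⟩ : ∃ L, L = max ℓ0 1 := ⟨_, rfl⟩
  have hL1 : 1 ≤ L := by rw [hL]; exact le_max_right _ _
  have hL0 : ℓ0 ≤ L := by rw [hL]; exact le_max_left _ _
  have hLp : 0 < L := by linarith
  obtain ⟨M, hM⟩ : ∃ M, M = ρ * L ^ 3 := ⟨_, rfl⟩
  have hM0 : 0 ≤ M := by rw [hM]; positivity
  obtain ⟨K0, hK0⟩ : ∃ K0, K0 = 4 * (E0 + 1 + A * M + T * (Cf * (1 + L ^ 3 + M))) := ⟨_, rfl⟩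
  have hK00 : 0 ≤ K0 := by rw [hK0]; positivity
  have hz0 : 0 ≤ ∑ s, |D.charge s| := Finset.sum_nonneg fun t _ => abs_nonneg _
  have hm0 : 0 ≤ ∑ s, D.mass s := Finset.sum_nonneg fun t _ => (hD.mass_pos t).le
  refine ⟨1 + (∑ s, |D.charge s|) * (M + 8 * (∑ s, D.mass s) * K0), by positivity, ?_⟩
  intro I _ _ sp ℓ hℓ hℓℓ hVN hN hneu η Z hη hη1 k p ψ hNE y
  have hℓL : ℓ ≤ L := hℓℓ.trans hL0
  rcases isEmpty_or_nonempty I with hI | hI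
  · have h0 : ∀ j, phim D sp (ψ j) y = 0 := by
      intro j
      unfold phim mean
      simp
    simp only [h0, mul_zero, Finset.sum_const_zero, abs_zero]
    positivity
  have hN0 : (0 : ℝ) ≤ (Fintype.card I : ℝ) := Nat.cast_nonneg _
  have hNM : (Fintype.card I : ℝ) ≤ M := by
    rw [hM]
    refine hN.trans ?_
    gcongr
  obtain ⟨Ψ0, hΨ0, hΨ01, hΨ0E⟩ := HE sp ℓ hℓ hℓℓ hN hneu
  have hZ := log_Z_le D sp ℓ T Z hT hNE.Zle Ψ0 hΨ0 hΨ01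
  have hfree := hNE.free
  -- kinetic energies
  have hK : ∀ j, KN D sp (ψ j) ≤ 2 * (energy D sp (ψ j) + A * (Fintype.card I : ℝ)) := by
    intro j
    have := HS sp L hL1 (ψ j) (sm_state_mono D sp ℓ L hℓL _ (hNE.state j))
    rw [hNE.nrm j, mul_one] at this
    exact this
  have hKn : ∀ j, 0 ≤ KN D sp (ψ j) := fun j => sm_kinsum_nonneg D hD sp (ψ j)
  have hsg : SGc D 1 ψ := by
    intro γ
    rw [one_mul]
    exact hNE.sg γ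
  have hF := HF sp ℓ hℓ 1 zero_le_one ψ hNE.state hsg
  rw [one_mul] at hF
  have hG := gibbs_w p (fun _ => 1) (fun j => -(1 / 4 * KN D sp (ψ j)) / T) hNE.p0
    (fun _ => zero_le_one) (fun j hj => absurd hj one_ne_zero) _ (Real.exp_pos _) (by
      refine le_trans (le_of_eq ?_) hF
      refine Finset.sum_congr rfl fun j _ => ?_
      rw [hNE.nrm j]
      simp only [mul_one, div_one])
  simp only [mul_one, one_mul, hNE.p1, Real.log_one, sub_zero, Real.log_exp] at hG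
  obtain ⟨KK, hKK⟩ : ∃ KK, KK = ∑ j, p j * KN D sp (ψ j) := ⟨_, rfl⟩
  have h2 : ∑ j, p j * (-(1 / 4 * KN D sp (ψ j)) / T) = -(1 / 4 * KK) / T := by
    rw [hKK, Finset.mul_sum, ← Finset.sum_neg_distrib, Finset.sum_div]
    refine Finset.sum_congr rfl fun j _ => ?_
    ring
  rw [h2, div_le_iff₀ hT] at hG
  have h3 : KK ≤ 2 * (∑ j, p j * energy D sp (ψ j) + A * (Fintype.card I : ℝ)) := by
    have e1 : A * (Fintype.card I : ℝ) = ∑ j, p j * (A * (Fintype.card I : ℝ)) := by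
      rw [← Finset.sum_mul, hNE.p1, one_mul]
    rw [e1, ← Finset.sum_add_distrib, Finset.mul_sum, hKK]
    refine Finset.sum_le_sum fun j _ => ?_
    have := mul_le_mul_of_nonneg_left (hK j) (hNE.p0 j)
    linarith
  rw [Finset.sum_add_distrib, ← Finset.mul_sum] at hfree
  have h4 : A * (Fintype.card I : ℝ) ≤ A * M := mul_le_mul_of_nonneg_left hNM hA
  have h5 : Cf * (1 + ℓ ^ 3 + (Fintype.card I : ℝ)) ≤ Cf * (1 + L ^ 3 + M) := by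
    gcongr
  have h6 : T * (Cf * (1 + ℓ ^ 3 + (Fintype.card I : ℝ))) ≤ T * (Cf * (1 + L ^ 3 + M)) :=
    mul_le_mul_of_nonneg_left h5 hT.le
  have hKK0 : KK ≤ K0 := by
    rw [hK0]
    nlinarith
  -- the potential
  have hph : ∀ j, |phim D sp (ψ j) y| ≤ (∑ s, |D.charge s|) * ((Fintype.card I : ℝ) +
      8 * (∑ s, D.mass s) * KN D sp (ψ j)) := fun j =>
    sm_phim D hD sp ℓ (ψ j) (hNE.state j) (hNE.nrm j) y
  have h7 : |∑ j, p j * phim D sp (ψ j) y| ≤ ∑ j, p j * ((∑ s, |D.charge s|) *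
      ((Fintype.card I : ℝ) + 8 * (∑ s, D.mass s) * KN D sp (ψ j))) := by
    refine (Finset.abs_sum_le_sum_abs _ _).trans (Finset.sum_le_sum fun j _ => ?_)
    rw [abs_mul, abs_of_nonneg (hNE.p0 j)]
    exact mul_le_mul_of_nonneg_left (hph j) (hNE.p0 j)
  have h8 : ∑ j, p j * ((∑ s, |D.charge s|) * ((Fintype.card I : ℝ) +
      8 * (∑ s, D.mass s) * KN D sp (ψ j))) = (∑ s, |D.charge s|) * ((Fintype.card I : ℝ) +
      8 * (∑ s, D.mass s) * KK) := by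
    have e1 : ∀ j, p j * ((∑ s, |D.charge s|) * ((Fintype.card I : ℝ) +
      8 * (∑ s, D.mass s) * KN D sp (ψ j))) = (∑ s, |D.charge s|) * (Fintype.card I : ℝ) * p j +
      (∑ s, |D.charge s|) * (8 * (∑ s, D.mass s)) * (p j * KN D sp (ψ j)) := by
      intro j
      ring
    simp only [e1]
    rw [Finset.sum_add_distrib, ← Finset.mul_sum, ← Finset.mul_sum, hNE.p1, ← hKK]
    ring
  rw [h8] at h7
  refine h7.trans ?_
  have h9 : (∑ s, |D.charge s|) * ((Fintype.card I : ℝ) + 8 * (∑ s, D.mass s) * KK) ≤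
      (∑ s, |D.charge s|) * (M + 8 * (∑ s, D.mass s) * K0) := by
    gcongr
  linarith

end Pool.Agent.Helper780_CP.RKT10
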