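import Pool.Agent.Helper780_CP.LLDefs2
import Pool.Agent.Helper780_CP.TDefs
import Pool.Agent.Helper780_CP.Multi

set_option autoImplicit false

open MeasureTheory
open scoped Topology

namespace Pool.Agent.Helper780_CP.RG5

open Pool.Agent.Helper780_CP
open Pool.Agent.Helper985.CP

open Pool.Agent.Helper780_CP Pool.Agent.Helper985.CP

section enc

variable {S : Type} (D : Species S) {I : Type}

/-- the species data with `k` copies of every spin label -/
def encD (k : ℕ) : Species S where
  charge := D.charge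
  mass := D.mass
  fermion := D.fermion
  g := D.g * k
  spin := fun s => (D.spin s ×ˢ (Finset.univ : Finset (Fin k))).map finProdFinEquiv.toEmbedding

/-- first components of the labels -/
def encS {k : ℕ} (t : I → Fin (D.g * k)) : I → Fin D.g := fun i => (finProdFinEquiv.symm (t i)).1

/-- second component of the label of one particle -/
noncomputable def encJ [Nonempty I] {k : ℕ} (t : I → Fin (D.g * k)) : Fin k :=
  (finProdFinEquiv.symm (t (Classical.arbitrary I))).2

/-- the second components are equal -/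
def encC [Nonempty I] {k : ℕ} (t : I → Fin (D.g * k)) : Prop :=
  ∀ i, (finProdFinEquiv.symm (t i)).2 = encJ D t

open Classical in
/-- the wave function which encodes the mixture -/
noncomputable def encW [Nonempty I] {k : ℕ} (p : Fin k → ℝ) (ψ : Fin k → Wave D I) :
    Wave (encD D k) I :=
  fun t x => if encC D t then ((Real.sqrt (p (encJ D t)) : ℝ) : ℂ) * ψ (encJ D t) (encS D t) x else 0

theorem encW_pos [Nonempty I] {k : ℕ} (p : Fin k → ℝ) (ψ : Fin k → Wave D I)
    (t : I → Fin (D.g * k)) (h : encC D t) :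
    encW D p ψ t = fun x => ((Real.sqrt (p (encJ D t)) : ℝ) : ℂ) * ψ (encJ D t) (encS D t) x := by
  funext x
  exact if_pos h

theorem encW_neg [Nonempty I] {k : ℕ} (p : Fin k → ℝ) (ψ : Fin k → Wave D I)
    (t : I → Fin (D.g * k)) (h : ¬ encC D t) : encW D p ψ t = 0 := by
  funext x
  exact if_neg h

theorem enc_swap [Nonempty I] [DecidableEq I] {k : ℕ} (i j : I) (t : I → Fin (D.g * k))
    (h : encC D t) : encC D (fun l => t (Equiv.swap i j l)) ∧
      encJ D (fun l => t (Equiv.swap i j l)) = encJ D t := by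
  have h2 : encJ D (fun l => t (Equiv.swap i j l)) = encJ D t := h _
  exact ⟨fun l => by rw [h2]; exact h _, h2⟩

theorem enc_swap_iff [Nonempty I] [DecidableEq I] {k : ℕ} (i j : I) (t : I → Fin (D.g * k)) :
    encC D (fun l => t (Equiv.swap i j l)) ↔ encC D t := by
  constructor
  · intro h
    have := (enc_swap D i j _ h).1
    simpa only [Equiv.swap_apply_self] using this
  · exact fun h => (enc_swap D i j t h).1

theorem encW_state {I : Type} [Fintype I] [DecidableEq I] [Nonempty I] (sp : I → S) (ℓ : ℝ) {k : ℕ}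
    (p : Fin k → ℝ) (ψ : Fin k → Wave D I) (hψ : ∀ j, IsState D sp ℓ (ψ j)) :
    IsState (encD D k) sp ℓ (encW D p ψ) := by
  refine ⟨fun t => ?_, fun t => ?_, fun t => ?_, fun t ht i => ?_, fun i j hij hs t x => ?_⟩
  · by_cases h : encC D t
    · rw [encW_pos D p ψ t h]
      exact contDiff_const.mul ((hψ _).smooth _)
    · rw [encW_neg D p ψ t h]
      exact contDiff_const
  · by_cases h : encC D t
    · rw [encW_pos D p ψ t h]
      exact ((hψ _).compact _).mul_left
    · rw [encW_neg D p ψ t h]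
      exact HasCompactSupport.zero
  · by_cases h : encC D t
    · rw [encW_pos D p ψ t h]
      exact (tsupport_mul_subset_right (f := fun _ => ((Real.sqrt (p (encJ D t)) : ℝ) : ℂ))
        (g := ψ (encJ D t) (encS D t))).trans ((hψ _).support _)
    · rw [encW_neg D p ψ t h]
      simp [tsupport]
  · by_cases h : encC D t
    · rw [encW_pos D p ψ t h] at ht
      have h1 : ψ (encJ D t) (encS D t) ≠ 0 := by
        intro h0
        apply ht
        funext x
        rw [h0]
        simp
      have h2 := (hψ _).spin _ h1 i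
      have h3 : ∀ u : Fin (D.g * k), (finProdFinEquiv.symm u).1 ∈ D.spin (sp i) →
          u ∈ (D.spin (sp i) ×ˢ (Finset.univ : Finset (Fin k))).map finProdFinEquiv.toEmbedding :=
        fun u hu => Finset.mem_map.2 ⟨finProdFinEquiv.symm u,
          Finset.mem_product.2 ⟨hu, Finset.mem_univ _⟩, Equiv.apply_symm_apply _ _⟩
      exact h3 (t i) h2
    · exact absurd (encW_neg D p ψ t h) ht
  · by_cases h : encC D t
    · obtain ⟨h1, h2⟩ := enc_swap D i j t h
      rw [encW_pos D p ψ _ h1, encW_pos D p ψ t h]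
      simp only [h2]
      have h3 := (hψ (encJ D t)).symm i j hij hs (encS D t) x
      have h4 : encS D (fun l => t (Equiv.swap i j l)) = fun l => encS D t (Equiv.swap i j l) := rfl
      rw [h4, h3]
      have h5 : exch (encD D k) (sp i) = exch D (sp i) := rfl
      rw [h5]
      ring
    · rw [encW_neg D p ψ _ (fun h' => h ((enc_swap_iff D i j t).1 h')), encW_neg D p ψ t h]
      simp

theorem encW_wm {I : Type} [Fintype I] [DecidableEq I] [Nonempty I] {k : ℕ}
    (p : Fin k → ℝ) (hp : ∀ j, 0 ≤ p j) (ψ : Fin k → Wave D I) (W : (I → E3) → ℝ) :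
    wm (encD D k) W (encW D p ψ) = wx D p ψ W := by
  classical
  have key : ∀ t : I → Fin (D.g * k), ∫ x, W x * ‖encW D p ψ t x‖ ^ 2 =
      if encC D t then p (encJ D t) * ∫ x, W x * ‖ψ (encJ D t) (encS D t) x‖ ^ 2 else 0 := by
    intro t
    by_cases h : encC D t
    · rw [if_pos h, encW_pos D p ψ t h, ← integral_const_mul]
      refine integral_congr_ae (Filter.Eventually.of_forall fun x => ?_)
      show W x * ‖((Real.sqrt (p (encJ D t)) : ℝ) : ℂ) * ψ (encJ D t) (encS D t) x‖ ^ 2 =
        p (encJ D t) * (W x * ‖ψ (encJ D t) (encS D t) x‖ ^ 2)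
      rw [norm_mul, mul_pow, Complex.norm_real, Real.norm_eq_abs, sq_abs, Real.sq_sqrt (hp _)]
      ring
    · rw [if_neg h, encW_neg D p ψ t h]
      simp
  show ∑ t : I → Fin (D.g * k), ∫ x, W x * ‖encW D p ψ t x‖ ^ 2 = _
  rw [Finset.sum_congr rfl (fun t _ => key t), ← Finset.sum_filter]
  unfold wx wm
  simp only [Finset.mul_sum]
  rw [← Finset.sum_product']
  refine Finset.sum_bij' (fun t _ => (encJ D t, encS D t))
    (fun a _ => fun i => finProdFinEquiv (a.2 i, a.1)) ?_ ?_ ?_ ?_ ?_
  · intro t _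
    exact Finset.mem_product.2 ⟨Finset.mem_univ _, Finset.mem_univ _⟩
  · intro a _
    refine Finset.mem_filter.2 ⟨Finset.mem_univ _, fun i => ?_⟩
    simp [encJ]
  · intro t ht
    have h := (Finset.mem_filter.1 ht).2
    funext i
    show finProdFinEquiv (encS D t i, encJ D t) = t i
    rw [← h i]
    exact Equiv.apply_symm_apply _ _
  · intro a _
    ext i
    · simp [encJ]
    · simp [encS]
  · intro t _
    rfl

end enc

/-- TARGET -/
theorem mix_enc {S : Type} (D : Species S) {I : Type} [Fintype I] [DecidableEq I] [Nonempty I]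
    (sp : I → S) (ℓ : ℝ) {k : ℕ} (p : Fin k → ℝ) (hp : ∀ j, 0 ≤ p j) (ψ : Fin k → Wave D I)
    (hψ : ∀ j, IsState D sp ℓ (ψ j)) :
    ∃ (D' : Species S) (Φ : Wave D' I), D'.charge = D.charge ∧ D'.mass = D.mass ∧
      D'.fermion = D.fermion ∧ IsState D' sp ℓ Φ ∧
      (∀ W : (I → E3) → ℝ, wm D' W Φ = wx D p ψ W) ∧
      (∀ ω x, phi D' sp ω x = phi D sp ω x) ∧ (∀ y, phim D' sp Φ y = ∑ j, p j * phim D sp (ψ j) y) := by
  refine ⟨encD D k, encW D p ψ, rfl, rfl, rfl, encW_state D sp ℓ p ψ hψ, encW_wm D p hp ψ,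
    fun _ _ => rfl, fun y => ?_⟩
  exact encW_wm D p hp ψ (fun x => ∑ i, D.charge (sp i) * (1 / ‖x i - y‖))

end Pool.Agent.Helper780_CP.RG5
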