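import Pool.Agent.Helper780_CP.LLDefs2
import Pool.Agent.Helper780_CP.LPDefs
import Pool.Agent.Helper780_CP.RDIL
import Pool.Agent.Helper780_CP.RUB
import Pool.Agent.Helper780_CP.Stable
import Pool.Agent.Helper780_CP.FlatT
import Pool.Agent.Helper780_CP.RKT1
import Pool.Agent.Helper780_CP.RG1

set_option autoImplicit false

open MeasureTheory
open scoped Topology

namespace Pool.Agent.Helper780_CP.RKT2

open Pool.Agent.Helper780_CP
open Pool.Agent.Helper985.CP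
open Pool.Agent.Helper780_CP.RKT1 (free_bound)
open Pool.Agent.Helper780_CP.RG1 (gibbs_w)

open Pool.Agent.Helper780_CP Pool.Agent.Helper985.CP

theorem k2_Z {S : Type} [Fintype S] [DecidableEq S] (D : Species S) (hD : D.Valid)
    (hst : HStable D) {I : Type} [Fintype I] [DecidableEq I] (sp : I → S) (ℓ T Z : ℝ)
    (hℓ : 0 < ℓ) (hT : 0 < T) (hZ : 0 < Z) (hZle : ∀ z ∈ peierls D sp ℓ T, z ≤ Z) :
    -T * Real.log Z ≤ sInf (energies D sp ℓ) + 1 := by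
  obtain ⟨-, -, -, h⟩ := energies_basic D hD hst sp ℓ hℓ
  obtain ⟨Φ, hΦ, hn, hE⟩ := h 1 one_pos
  obtain ⟨c, hc⟩ : ∃ c, c = 1 / Real.sqrt (nrm2 D Φ) := ⟨_, rfl⟩
  have hc2 : c ^ 2 * nrm2 D Φ = 1 := by
    rw [hc, div_pow, Real.sq_sqrt hn.le, one_pow, one_div, inv_mul_cancel₀ hn.ne']
  have hs := MT_state_smul D sp ℓ Φ hΦ (c : ℂ)
  have hE2 := MT_energy_smul D sp ℓ Φ hΦ c
  have hn2 := MT_nrm2_smul D Φ c
  rw [hc2] at hn2
  obtain ⟨ψ0, hψ0⟩ : ∃ ψ0 : Wave D I, ψ0 = fun τ x => (c : ℂ) * Φ τ x := ⟨_, rfl⟩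
  rw [← hψ0] at hs hE2 hn2
  have hip : ip D ψ0 ψ0 = 1 := by
    have key : ∀ τ x, (starRingEnd ℂ) (ψ0 τ x) * ψ0 τ x = ((‖ψ0 τ x‖ ^ 2 : ℝ) : ℂ) := by
      intro τ x
      rw [← Complex.normSq_eq_conj_mul_self, Complex.normSq_eq_norm_sq]
    unfold ip
    have e1 : ∀ τ : I → Fin D.g, ∫ x, (starRingEnd ℂ) (ψ0 τ x) * ψ0 τ x =
        ((∫ x, ‖ψ0 τ x‖ ^ 2 : ℝ) : ℂ) := by
      intro τ
      rw [← integral_complex_ofReal]
      congr 1
      funext x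
      exact key τ x
    rw [Finset.sum_congr rfl (fun τ _ => e1 τ), ← Complex.ofReal_sum]
    change ((nrm2 D ψ0 : ℝ) : ℂ) = 1
    rw [hn2, Complex.ofReal_one]
  have hmem : Real.exp (-(energy D sp ψ0) / T) ∈ peierls D sp ℓ T := by
    refine ⟨1, fun _ => ψ0, ⟨fun _ => hs, ?_⟩, by simp⟩
    intro i j
    rw [if_pos (Subsingleton.elim i j)]
    exact hip
  have h1 := hZle _ hmem
  have h2 : -(energy D sp ψ0) / T ≤ Real.log Z := (Real.le_log_iff_exp_le hZ).2 h1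
  have h3 : energy D sp ψ0 ≤ sInf (energies D sp ℓ) + 1 := by
    rw [hE2]
    have h4 := mul_le_mul_of_nonneg_left hE (sq_nonneg c)
    have h5 : c ^ 2 * ((sInf (energies D sp ℓ) + 1) * nrm2 D Φ) =
        (sInf (energies D sp ℓ) + 1) * (c ^ 2 * nrm2 D Φ) := by ring
    rw [h5, hc2, mul_one] at h4
    exact h4
  rw [div_le_iff₀ hT] at h2
  linarith

/-- TARGET -/
theorem kin_boundT {S : Type} [Fintype S] [DecidableEq S] (D : Species S) (hD : D.Valid)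
    (hf : ∀ s, D.charge s < 0 → D.fermion s = true) (T V ρ : ℝ) (hT : 0 < T) (hV : 0 < V)
    (hρ : 0 < ρ) : ∃ C : ℝ, 0 < C ∧
    ∀ {I : Type} [Fintype I] [DecidableEq I] (sp : I → S) (ℓ : ℝ), 4 ≤ ℓ →
      ℓ ^ 3 ≤ V * (Fintype.card I : ℝ) → (Fintype.card I : ℝ) ≤ ρ * ℓ ^ 3 →
      (∑ i, D.charge (sp i) = 0) → ∀ η Z : ℝ, 0 ≤ η → η ≤ 1 → ∀ {k : ℕ} (p : Fin k → ℝ)
      (ψ : Fin k → Wave D I), NE D sp ℓ T η Z p ψ →
      (∑ j, p j * KN D sp (ψ j)) ≤ C * (Fintype.card I : ℝ) ∧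
      -(∑ j, p j * Real.log (p j)) ≤ C * (Fintype.card I : ℝ) ∧
      (∑ j, p j * energy D sp (ψ j)) ≤ C * (Fintype.card I : ℝ) := by
  have hst := hstable D hD hf
  obtain ⟨C1, hC1, U⟩ := Pool.Agent.Helper780_CP.RUB.upper_bound D hD hst ρ hρ.le
  obtain ⟨A, hA, H⟩ := Pool.Agent.Helper780_CP.RDIL.dil_stab D hD hf
  obtain ⟨C2, hC2, F⟩ := free_bound D hD T (1 / 4) hT (by norm_num)
  obtain ⟨C3, hC3⟩ : ∃ C3, C3 = T * C2 * (2 + V) := ⟨_, rfl⟩
  have hC3p : 0 < C3 := by rw [hC3]; positivity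
  obtain ⟨C4, hC4⟩ : ∃ C4, C4 = C1 + 2 := ⟨_, rfl⟩
  have hC4p : 0 < C4 := by rw [hC4]; positivity
  refine ⟨4 * (C3 + C4 + A) + (2 * C3 + C4 + A) / T + (2 * C3 + 2 * C4 + A), by positivity, ?_⟩
  intro I _ _ sp ℓ hℓ hVN hρN hch η Z hη0 hη1 k p ψ hNE
  have hℓ0 : 0 < ℓ := by linarith
  obtain ⟨N, hN⟩ : ∃ N : ℝ, N = (Fintype.card I : ℝ) := ⟨_, rfl⟩
  have hN1 : 1 ≤ N := by
    have h64 : 0 < ℓ ^ 3 := by positivity
    have h1 : 0 < V * (Fintype.card I : ℝ) := lt_of_lt_of_le h64 hVN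
    have h2 : (0 : ℝ) < (Fintype.card I : ℝ) := by
      by_contra hcon
      have h3 : (Fintype.card I : ℝ) ≤ 0 := not_lt.1 hcon
      have h4 := mul_nonpos_of_nonneg_of_nonpos hV.le h3
      linarith
    have h3 : 0 < Fintype.card I := by exact_mod_cast h2
    rw [hN]
    exact_mod_cast h3
  have hN0 : 0 < N := by linarith
  have hU := U sp ℓ hℓ hρN hch
  have hZ := k2_Z D hD hst sp ℓ T Z hℓ0 hT hNE.Zpos hNE.Zle
  have hfree := hNE.free
  rw [Finset.sum_add_distrib, ← Finset.mul_sum] at hfree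
  obtain ⟨E, hE⟩ : ∃ E, E = ∑ j, p j * energy D sp (ψ j) := ⟨_, rfl⟩
  obtain ⟨Q, hQ⟩ : ∃ Q, Q = ∑ j, p j * Real.log (p j) := ⟨_, rfl⟩
  obtain ⟨K, hK⟩ : ∃ K, K = ∑ j, p j * KN D sp (ψ j) := ⟨_, rfl⟩
  rw [← hN] at hU hVN hρN
  rw [← hE, ← hQ] at hfree
  -- (a)
  have ha : E + T * Q ≤ C4 * N := by
    rw [hC4]; nlinarith
  -- (b)
  have hb : K ≤ 2 * (E + A * N) := by
    have h1 : ∀ j, KN D sp (ψ j) ≤ 2 * (energy D sp (ψ j) + A * N) := by
      intro j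
      have := H sp ℓ (by linarith) (ψ j) (hNE.state j)
      rw [hNE.nrm j, mul_one, ← hN] at this
      exact this
    have h2 : K ≤ ∑ j, p j * (2 * (energy D sp (ψ j) + A * N)) := by
      rw [hK]
      exact Finset.sum_le_sum fun j _ => mul_le_mul_of_nonneg_left (h1 j) (hNE.p0 j)
    have h3 : ∑ j, p j * (2 * (energy D sp (ψ j) + A * N)) = 2 * (E + A * N) := by
      have : ∀ j, p j * (2 * (energy D sp (ψ j) + A * N)) =
          2 * (p j * energy D sp (ψ j)) + 2 * A * N * p j := fun j => by ring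
      rw [Finset.sum_congr rfl fun j _ => this j, Finset.sum_add_distrib, ← Finset.mul_sum,
        ← Finset.mul_sum, hNE.p1, hE]
      ring
    linarith
  -- (c)
  have hc : -(K / 4) - T * Q ≤ C3 * N := by
    have hsg : SGc D 1 ψ := by
      intro γ
      rw [one_mul]
      exact hNE.sg γ
    have h1 := F sp ℓ hℓ0 1 zero_le_one ψ hNE.state hsg
    simp only [hNE.nrm, one_mul, mul_one] at h1
    have h2 := gibbs_fin p (fun j => -(1 / 4 * KN D sp (ψ j)) / T) hNE.p0 hNE.p1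
    have h3 := h2.trans h1
    rw [Real.exp_le_exp, ← hN] at h3
    have h4 : ∑ j, (p j * (-(1 / 4 * KN D sp (ψ j)) / T) - p j * Real.log (p j)) =
        -(K / 4) / T - Q := by
      rw [Finset.sum_sub_distrib, ← hQ]
      congr 1
      rw [hK, Finset.sum_div, ← Finset.sum_neg_distrib, Finset.sum_div]
      refine Finset.sum_congr rfl fun j _ => ?_
      ring
    rw [h4] at h3
    have h5 : C2 * (1 + ℓ ^ 3 + N) ≤ C2 * ((2 + V) * N) := by
      refine mul_le_mul_of_nonneg_left ?_ hC2.le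
      nlinarith
    have h6 : -(K / 4) / T - Q ≤ C2 * ((2 + V) * N) := h3.trans h5
    have h7 := mul_le_mul_of_nonneg_left h6 hT.le
    have h8 : T * (-(K / 4) / T - Q) = -(K / 4) - T * Q := by
      field_simp
    rw [h8] at h7
    rw [hC3]
    linarith
  have hK1 : K ≤ 4 * (C3 + C4 + A) * N := by nlinarith
  have hTS : T * (-Q) ≤ (2 * C3 + C4 + A) * N := by nlinarith
  have hE1 : E ≤ (2 * C3 + 2 * C4 + A) * N := by nlinarith
  have hS1 : -Q ≤ (2 * C3 + C4 + A) / T * N := by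
    rw [div_mul_eq_mul_div, le_div_iff₀ hT]
    linarith
  have hp1 : 0 ≤ 4 * (C3 + C4 + A) * N := by positivity
  have hp2 : 0 ≤ (2 * C3 + C4 + A) / T * N := by positivity
  have hp3 : 0 ≤ (2 * C3 + 2 * C4 + A) * N := by positivity
  rw [← hN, ← hK, ← hQ, ← hE]
  rw [add_mul, add_mul]
  refine ⟨?_, ?_, ?_⟩
  · linarith
  · linarith
  · linarith

end Pool.Agent.Helper780_CP.RKT2
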