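import Pool.Agent.Helper780_CP.LLDefs2
import Pool.Agent.Helper780_CP.LPDefs
import Pool.Agent.Helper780_CP.Stable
import Pool.Agent.Helper985.CT.M_sum_pe_half
import Pool.Agent.Helper985.CT.M_moveT_none
import Pool.Agent.Helper985.CT.M_peierls_bdd
import Pool.Agent.Helper985.CT.M_peierls_pos
import Pool.Agent.Helper780_CP.RKT2
import Pool.Agent.Helper780_CP.RG1

set_option autoImplicit false

open MeasureTheory
open scoped Topology

namespace Pool.Agent.Helper780_CP.RKT3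

open Pool.Agent.Helper780_CP
open Pool.Agent.Helper985.CP
open Pool.Agent.Helper780_CP.RKT2 (kin_boundT)
open Pool.Agent.Helper780_CP.RG1 (gibbs_w)

open Pool.Agent.Helper780_CP Pool.Agent.Helper985.CP

/-- dilation of the inner product -/
theorem k3_ip {S : Type} (D : Species S) {I : Type} [Fintype I] [DecidableEq I] (lam : ℝ)
    (a : ℝ) (Φ Ψ : Wave D I) :
    ip D (fun τ x => (a : ℂ) * sphScal D lam Φ τ x) (fun τ x => (a : ℂ) * sphScal D lam Ψ τ x) =
      ((a ^ 2 * sphJ I lam : ℝ) : ℂ) * ip D Φ Ψ := by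
  unfold ip
  rw [Finset.mul_sum]
  refine Finset.sum_congr rfl fun τ _ => ?_
  have e1 : (fun x => (starRingEnd ℂ) ((a : ℂ) * sphScal D lam Φ τ x) *
      ((a : ℂ) * sphScal D lam Ψ τ x)) =
      fun x => ((a ^ 2 : ℝ) : ℂ) * (fun y => (starRingEnd ℂ) (Φ τ y) * Ψ τ y) (lam • x) := by
    funext x
    rw [map_mul, Complex.conj_ofReal]
    simp only [sphScal]
    push_cast
    ring
  rw [e1, integral_const_mul,
    Measure.integral_comp_smul (volume : Measure (I → E3))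
      (fun y => (starRingEnd ℂ) (Φ τ y) * Ψ τ y) lam, Complex.real_smul]
  show ((a ^ 2 : ℝ) : ℂ) * (((sphJ I lam : ℝ) : ℂ) * _) = _
  push_cast
  ring

/-- dilation of an orthonormal family -/
theorem k3_dil {S : Type} (D : Species S) {I : Type} [Fintype I] [DecidableEq I] (sp : I → S)
    (lam ℓ : ℝ) (hl : 0 < lam) {k : ℕ} (ψ : Fin k → Wave D I) (h : Ortho D sp (lam * ℓ) ψ) :
    ∃ φ : Fin k → Wave D I, Ortho D sp ℓ φ ∧ ∀ j, energy D sp (φ j) =
      lam * energy D sp (ψ j) + (lam ^ 2 - lam) * KN D sp (ψ j) := by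
  have hJ := sph_J_pos (I := I) lam hl
  obtain ⟨a, ha⟩ : ∃ a, a = 1 / Real.sqrt (sphJ I lam) := ⟨_, rfl⟩
  have ha2 : a ^ 2 * sphJ I lam = 1 := by
    rw [ha, div_pow, Real.sq_sqrt hJ.le, one_pow, one_div, inv_mul_cancel₀ hJ.ne']
  have hs : ∀ j, IsState D sp ℓ (sphScal D lam (ψ j)) := by
    intro j
    have h1 := sph_isState D sp lam hl (lam * ℓ) (ψ j) (h.1 j)
    rwa [mul_div_cancel_left₀ ℓ hl.ne'] at h1
  refine ⟨fun j τ x => (a : ℂ) * sphScal D lam (ψ j) τ x,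
    ⟨fun j => MT_state_smul D sp ℓ _ (hs j) _, fun i j => ?_⟩, fun j => ?_⟩
  · rw [k3_ip, ha2, Complex.ofReal_one, one_mul, h.2 i j]
  · rw [MT_energy_smul D sp ℓ _ (hs j), sph_energy D sp ℓ _ (hs j),
      sph_K D sp lam (lam * ℓ) _ (h.1 j), sph_C D sp lam hl, sph_energy D sp (lam * ℓ) _ (h.1 j)]
    have e : KN D sp (ψ j) = sphK D sp (ψ j) := rfl
    rw [e]
    linear_combination (lam ^ 2 * sphK D sp (ψ j) + lam * sphC D sp (ψ j)) * ha2

/-- TARGET -/
theorem dilationT {S : Type} [Fintype S] [DecidableEq S] (D : Species S) (hD : D.Valid)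
    (hf : ∀ s, D.charge s < 0 → D.fermion s = true) (T V ρ : ℝ) (hT : 0 < T) (hV : 0 < V)
    (hρ : 0 < ρ) : ∃ C : ℝ, 0 < C ∧
    ∀ {I : Type} [Fintype I] [DecidableEq I] (sp : I → S) (ℓ t : ℝ), 4 ≤ ℓ → 0 ≤ t → t ≤ ℓ →
      ℓ ^ 3 ≤ V * (Fintype.card I : ℝ) → (Fintype.card I : ℝ) ≤ ρ * ℓ ^ 3 →
      (∑ i, D.charge (sp i) = 0) →
      -T * Real.log (sSup (peierls D sp ℓ T)) ≤ -T * Real.log (sSup (peierls D sp (ℓ + t) T)) +
        C * (t / ℓ) * (Fintype.card I : ℝ) := by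
  obtain ⟨C, hC, H⟩ := kin_boundT D hD hf T (8 * V) ρ hT (by positivity) hρ
  have hst := hstable D hD hf
  refine ⟨3 * C, by positivity, fun {I} _ _ sp ℓ t hℓ ht htl hV1 hN hch => ?_⟩
  have hℓ0 : 0 < ℓ := by linarith
  have hN0 : (0 : ℝ) ≤ (Fintype.card I : ℝ) := Nat.cast_nonneg _
  obtain ⟨hne1, hZ1⟩ := peierls_pos D hD hst sp (ℓ + t) T (by linarith) hT
  obtain ⟨-, hZ0⟩ := peierls_pos D hD hst sp ℓ T hℓ0 hT
  have hb1 := peierls_bdd D hD hst sp (ℓ + t) T (by linarith) hT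
  have hb0 := peierls_bdd D hD hst sp ℓ T hℓ0 hT
  obtain ⟨Z1, hZ1d⟩ : ∃ Z, Z = sSup (peierls D sp (ℓ + t) T) := ⟨_, rfl⟩
  obtain ⟨Z0, hZ0d⟩ : ∃ Z, Z = sSup (peierls D sp ℓ T) := ⟨_, rfl⟩
  obtain ⟨q, hq⟩ : ∃ q, q = t / ℓ := ⟨_, rfl⟩
  have hq0 : 0 ≤ q := by rw [hq]; positivity
  have hq1 : q ≤ 1 := by rw [hq, div_le_one hℓ0]; exact htl
  have hlam : (1 + q) * ℓ = ℓ + t := by rw [hq]; field_simp
  rw [← hZ1d] at hZ1 ⊢
  rw [← hZ0d] at hZ0 ⊢
  rw [← hq]
  have hvol : (ℓ + t) ^ 3 ≤ 8 * V * (Fintype.card I : ℝ) := by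
    have h1 : (ℓ + t) ^ 3 ≤ (2 * ℓ) ^ 3 := by
      gcongr
      linarith
    have h2 : (2 * ℓ) ^ 3 = 8 * ℓ ^ 3 := by ring
    linarith
  have hcard : (Fintype.card I : ℝ) ≤ ρ * (ℓ + t) ^ 3 := by
    refine hN.trans ?_
    gcongr
    linarith
  have key : ∀ ε : ℝ, 0 < ε → ε ≤ 1 → -T * Real.log Z0 ≤
      -T * Real.log Z1 + 3 * C * q * (Fintype.card I : ℝ) + ε := by
    intro ε hε hε1
    have hlt : Z1 * Real.exp (-(ε / T)) < sSup (peierls D sp (ℓ + t) T) := by
      rw [← hZ1d]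
      have h1 : Real.exp (-(ε / T)) < 1 := by
        rw [Real.exp_lt_one_iff]
        have : 0 < ε / T := by positivity
        linarith
      calc Z1 * Real.exp (-(ε / T)) < Z1 * 1 := by gcongr
        _ = Z1 := mul_one _
    obtain ⟨z', ⟨k, ψ, hψ, hz'⟩, hz⟩ := exists_lt_of_lt_csSup hne1 hlt
    have hz0 : 0 < z' := lt_trans (by positivity) hz
    have hzlog : Real.log Z1 - ε / T ≤ Real.log z' := by
      have h1 := Real.log_le_log (by positivity) hz.le
      rw [Real.log_mul hZ1.ne' (Real.exp_pos _).ne', Real.log_exp] at h1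
      linarith
    obtain ⟨p, hp⟩ : ∃ p : Fin k → ℝ, p = fun j => Real.exp (-(energy D sp (ψ j)) / T) / z' :=
      ⟨_, rfl⟩
    have hp0 : ∀ j, 0 ≤ p j := fun j => by rw [hp]; positivity
    have hp1 : ∑ j, p j = 1 := by
      rw [hp, ← Finset.sum_div, ← hz', div_self hz0.ne']
    have hlp : ∀ j, T * Real.log (p j) = -energy D sp (ψ j) - T * Real.log z' := by
      intro j
      rw [hp]
      simp only
      rw [Real.log_div (Real.exp_pos _).ne' hz0.ne', Real.log_exp]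
      field_simp
    obtain ⟨A, hA⟩ : ∃ A, A = ∑ j, p j * energy D sp (ψ j) := ⟨_, rfl⟩
    obtain ⟨B, hB⟩ : ∃ B, B = ∑ j, p j * Real.log (p j) := ⟨_, rfl⟩
    obtain ⟨Kp, hKp⟩ : ∃ Kp, Kp = ∑ j, p j * KN D sp (ψ j) := ⟨_, rfl⟩
    have hfree0 : ∑ j, (p j * energy D sp (ψ j) + T * (p j * Real.log (p j))) = A + T * B := by
      rw [hA, hB, Finset.mul_sum, ← Finset.sum_add_distrib]
    have hfree : A + T * B = -T * Real.log z' := by
      rw [← hfree0]
      have e : ∀ j, p j * energy D sp (ψ j) + T * (p j * Real.log (p j)) =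
          p j * (-T * Real.log z') := by
        intro j
        linear_combination p j * hlp j
      rw [Finset.sum_congr rfl fun j _ => e j, ← Finset.sum_mul, hp1, one_mul]
    have hzT : -T * Real.log z' ≤ -T * Real.log Z1 + ε := by
      have h1 := mul_le_mul_of_nonneg_left hzlog hT.le
      have h2 : T * (Real.log Z1 - ε / T) = T * Real.log Z1 - ε := by field_simp
      rw [h2] at h1
      linarith
    have hNE : NE D sp (ℓ + t) T ε Z1 p ψ :=
      { state := hψ.1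
        sg := fun γ => (pb_comb D sp (ℓ + t) ψ hψ γ).le
        nrm := fun j => pb_one D sp (ℓ + t) ψ hψ j
        p0 := hp0
        p1 := hp1
        Zpos := hZ1
        Zle := fun z hz => by rw [hZ1d]; exact le_csSup hb1 hz
        free := by rw [hfree0, hfree]; exact hzT }
    obtain ⟨hK, -, hE⟩ := H sp (ℓ + t) (by linarith) hvol hcard hch ε Z1 hε.le hε1 p ψ hNE
    rw [← hA] at hE
    rw [← hKp] at hK
    obtain ⟨φ, hφ, hφE⟩ := k3_dil D sp (1 + q) ℓ (by linarith) ψ (by rw [hlam]; exact hψ)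
    have hg := gibbs_w p (fun _ => 1) (fun j => -(energy D sp (φ j)) / T) hp0
      (fun _ => zero_le_one) (fun j h => absurd h one_ne_zero) Z0 hZ0 (by
        have e : ∑ j, (1 : ℝ) * Real.exp ((-(energy D sp (φ j)) / T) / 1) =
            ∑ j, Real.exp (-(energy D sp (φ j)) / T) :=
          Finset.sum_congr rfl fun j _ => by rw [one_mul, div_one]
        rw [hZ0d]
        exact e.trans_le (le_csSup hb0 ⟨k, φ, hφ, rfl⟩))
    simp only [mul_one, one_mul, hp1, Real.log_one, mul_zero, sub_zero] at hg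
    rw [← hB] at hg
    have hX : T * ∑ j, p j * (-(energy D sp (φ j)) / T) =
        -((1 + q) * A + ((1 + q) ^ 2 - (1 + q)) * Kp) := by
      rw [hA, hKp, Finset.mul_sum, Finset.mul_sum, Finset.mul_sum, ← Finset.sum_add_distrib,
        ← Finset.sum_neg_distrib]
      refine Finset.sum_congr rfl fun j _ => ?_
      rw [hφE j]
      field_simp
    have h5 := mul_le_mul_of_nonneg_left hg hT.le
    rw [hX] at h5
    have h6 : q * A ≤ q * (C * (Fintype.card I : ℝ)) := mul_le_mul_of_nonneg_left hE hq0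
    have h7 : ((1 + q) ^ 2 - (1 + q)) * Kp ≤ 2 * q * (C * (Fintype.card I : ℝ)) := by
      have e1 : (1 + q) ^ 2 - (1 + q) = q * (1 + q) := by ring
      rw [e1]
      have h8 : q * (1 + q) * Kp ≤ q * (1 + q) * (C * (Fintype.card I : ℝ)) :=
        mul_le_mul_of_nonneg_left hK (by positivity)
      refine h8.trans ?_
      have h9 : q * (1 + q) ≤ 2 * q := by nlinarith
      exact mul_le_mul_of_nonneg_right h9 (by positivity)
    linarith
  refine le_of_forall_pos_le_add fun δ hδ => ?_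
  have h1 := key (min δ 1) (by positivity) (min_le_right _ _)
  have h2 := min_le_left δ 1
  linarith

end Pool.Agent.Helper780_CP.RKT3
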