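import Pool.Agent.Helper780_CP.LLDefs2
import Pool.Agent.Helper780_CP.LPDefs
import Pool.Agent.Helper985.CT.M_removeT_none
import Pool.Agent.Helper985.CT.M_lz_bounds
import Pool.Agent.Helper985.CT.M_peierls_relabel
import Pool.Agent.Helper780_CP.RGR1

set_option autoImplicit false

open MeasureTheory
open scoped Topology

namespace Pool.Agent.Helper780_CP.RKT4

open Pool.Agent.Helper780_CP
open Pool.Agent.Helper985.CP

open Pool.Agent.Helper780_CP Pool.Agent.Helper985.CP Pool.Agent.Helper780_CP.RGR1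

theorem gsT_wm_smul {S : Type} (D : Species S) {I : Type} [Fintype I] [DecidableEq I]
    (W : (I → E3) → ℝ) (v : Wave D I) (r : ℝ) :
    wm D W (fun τ x => (r : ℂ) * v τ x) = r ^ 2 * wm D W v := by
  unfold wm
  rw [Finset.mul_sum]
  refine Finset.sum_congr rfl fun τ _ => ?_
  rw [← integral_const_mul]
  congr 1
  funext x
  rw [norm_mul, Complex.norm_real, mul_pow, Real.norm_eq_abs, sq_abs]
  ring

theorem gsT_smul {S : Type} (D : Species S) {I : Type} [Fintype I] [DecidableEq I]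
    (sp : I → S) (ℓ : ℝ) (G : Finset I) (v : Wave D I) (hv : IsState D sp ℓ v) (r : ℝ) :
    gsR D sp G (fun τ x => (r : ℂ) * v τ x) = r ^ 2 * gsR D sp G v := by
  unfold gsR
  rw [removeT_energy_smul D sp ℓ v hv r]
  have h1 : ∑ i ∈ G, pe D sp i (fun τ x => (r : ℂ) * v τ x) = r ^ 2 * ∑ i ∈ G, pe D sp i v := by
    rw [Finset.mul_sum]
    exact Finset.sum_congr rfl fun i _ => removeT_pe_smul D sp ℓ v hv r i
  have h2 : ∑ i ∈ G, ∑ j ∈ G, (if i = j then 0 else
        D.charge (sp i) * D.charge (sp j) * wm D (fun x => 1 / ‖x i - x j‖)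
          (fun τ x => (r : ℂ) * v τ x)) =
      r ^ 2 * ∑ i ∈ G, ∑ j ∈ G, (if i = j then 0 else
        D.charge (sp i) * D.charge (sp j) * wm D (fun x => 1 / ‖x i - x j‖) v) := by
    rw [Finset.mul_sum]
    refine Finset.sum_congr rfl fun i _ => ?_
    rw [Finset.mul_sum]
    refine Finset.sum_congr rfl fun j _ => ?_
    rw [gsT_wm_smul]
    split_ifs <;> ring
  rw [h1, h2]
  ring

theorem gsT_psl_wm {S : Type} (D : Species S) {I : Type} [Fintype I] [DecidableEq I]
    (sp : Option I → S) (ℓ : ℝ) (hℓ : 0 < ℓ) (Φ : Wave D (Option I)) (hΦ : IsState D sp ℓ Φ)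
    (j k : I) (hjk : j ≠ k) :
    HasSum (fun m => ∑ σ, wm D (fun x => 1 / ‖x j - x k‖) (psl D (pwave ℓ m) σ Φ))
      (wm D (fun x => 1 / ‖x (some j) - x (some k)‖) Φ) := by
  refine psl_energy_w D sp ℓ hℓ Φ hΦ (fun x => 1 / ‖x j - x k‖) ?_ ?_
  · fun_prop
  · intro τ'
    have hcont : Continuous (Φ τ') := (hΦ.smooth τ').continuous
    have hsq : Continuous (fun x => ‖Φ τ' x‖ ^ 2) := (hcont.norm).pow 2
    have hsqc : HasCompactSupport (fun x => ‖Φ τ' x‖ ^ 2) :=
      (hΦ.compact τ').comp_left (g := fun z : ℂ => ‖z‖ ^ 2) (by simp)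
    exact int_coul (some j) (some k) (by simpa using hjk) (fun x => ‖Φ τ' x‖ ^ 2) hsq hsqc

theorem gsT_psl {S : Type} (D : Species S) (hD : D.Valid) {I : Type} [Fintype I] [DecidableEq I]
    (sp : Option I → S) (ℓ θ : ℝ) (hℓ : 0 < ℓ) (Φ : Wave D (Option I)) (hΦ : IsState D sp ℓ Φ)
    (G : Finset I) :
    HasSum (fun m => ∑ σ, (gsR D (fun i => sp (some i)) G (psl D (pwave ℓ m) σ Φ) +
        θ * ∑ k ∈ G, kinE D (fun i => sp (some i)) k (psl D (pwave ℓ m) σ Φ)))
      (gsR D sp (Finset.insertNone G) Φ + θ * ∑ k ∈ G, kinE D sp (some k) Φ) := by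
  obtain ⟨a1, -, a3⟩ := psl_energy D sp ℓ hℓ Φ hΦ
  obtain ⟨-, -, b3⟩ := psl_nrm D hD sp ℓ hℓ Φ hΦ
  have s1 := hasSum_sum (s := G) (fun k _ => a3 k)
  have s2 := hasSum_sum (s := G) (fun k _ => b3 k)
  have w1 : ∀ j k : I, HasSum (fun m => ∑ σ, (if j = k then (0 : ℝ) else
      D.charge (sp (some j)) * D.charge (sp (some k)) *
        wm D (fun x => 1 / ‖x j - x k‖) (psl D (pwave ℓ m) σ Φ)))
      (if j = k then (0 : ℝ) else D.charge (sp (some j)) * D.charge (sp (some k)) *
        wm D (fun x => 1 / ‖x (some j) - x (some k)‖) Φ) := by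
    intro j k
    by_cases hjk : j = k
    · simp only [if_pos hjk, Finset.sum_const_zero]
      exact hasSum_zero
    · simp only [if_neg hjk, ← Finset.mul_sum]
      exact (gsT_psl_wm D sp ℓ hℓ Φ hΦ j k hjk).mul_left _
  have s3 := hasSum_sum (s := G) (fun j _ => hasSum_sum (s := G) (fun k _ => w1 j k))
  have s4 := ((a1.sub s1).add (s3.mul_left (1 / 2))).add (s2.mul_left θ)
  have ef : (fun m => ∑ σ, (gsR D (fun i => sp (some i)) G (psl D (pwave ℓ m) σ Φ) +
        θ * ∑ k ∈ G, kinE D (fun i => sp (some i)) k (psl D (pwave ℓ m) σ Φ))) =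
      fun m => ((∑ σ, energy D (fun i => sp (some i)) (psl D (pwave ℓ m) σ Φ)) -
        (∑ k ∈ G, ∑ σ, pe D (fun i => sp (some i)) k (psl D (pwave ℓ m) σ Φ)) +
        1 / 2 * ∑ j ∈ G, ∑ k ∈ G, ∑ σ, (if j = k then (0 : ℝ) else
      D.charge (sp (some j)) * D.charge (sp (some k)) *
        wm D (fun x => 1 / ‖x j - x k‖) (psl D (pwave ℓ m) σ Φ))) +
        θ * ∑ k ∈ G, ∑ σ, kinE D (fun i => sp (some i)) k (psl D (pwave ℓ m) σ Φ) := by
    funext m
    unfold gsR
    rw [Finset.sum_add_distrib, Finset.sum_add_distrib, Finset.sum_sub_distrib, ← Finset.mul_sum,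
      ← Finset.mul_sum]
    have c1 : ∑ σ : Fin D.g, ∑ k ∈ G, pe D (fun i => sp (some i)) k (psl D (pwave ℓ m) σ Φ) =
        ∑ k ∈ G, ∑ σ : Fin D.g, pe D (fun i => sp (some i)) k (psl D (pwave ℓ m) σ Φ) :=
      Finset.sum_comm
    have c2 : ∑ σ : Fin D.g, ∑ k ∈ G, kinE D (fun i => sp (some i)) k (psl D (pwave ℓ m) σ Φ) =
        ∑ k ∈ G, ∑ σ : Fin D.g, kinE D (fun i => sp (some i)) k (psl D (pwave ℓ m) σ Φ) :=
      Finset.sum_comm
    have c3 : ∑ σ : Fin D.g, ∑ j ∈ G, ∑ k ∈ G, (if j = k then (0 : ℝ) else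
      D.charge (sp (some j)) * D.charge (sp (some k)) *
        wm D (fun x => 1 / ‖x j - x k‖) (psl D (pwave ℓ m) σ Φ)) =
        ∑ j ∈ G, ∑ k ∈ G, ∑ σ : Fin D.g, (if j = k then (0 : ℝ) else
      D.charge (sp (some j)) * D.charge (sp (some k)) *
        wm D (fun x => 1 / ‖x j - x k‖) (psl D (pwave ℓ m) σ Φ)) := by
      rw [Finset.sum_comm]
      exact Finset.sum_congr rfl fun j _ => Finset.sum_comm
    rw [c1, c2, c3]
  have ev : gsR D sp (Finset.insertNone G) Φ + θ * ∑ k ∈ G, kinE D sp (some k) Φ =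
      (energy D sp Φ - pe D sp none Φ - (∑ k ∈ G, (pe D sp (some k) Φ - ∑ τ, ∫ x,
          D.charge (sp none) * D.charge (sp (some k)) /
          ‖x none - x (some k)‖ * ‖Φ τ x‖ ^ 2)) +
        1 / 2 * ∑ j ∈ G, ∑ k ∈ G, (if j = k then (0 : ℝ) else
          D.charge (sp (some j)) * D.charge (sp (some k)) *
        wm D (fun x => 1 / ‖x (some j) - x (some k)‖) Φ)) + θ * ∑ k ∈ G, kinE D sp (some k) Φ := by
    congr 1
    have h9 : ∑ k ∈ G, (pe D sp (some k) Φ - ∑ τ, ∫ x,
          D.charge (sp none) * D.charge (sp (some k)) /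
          ‖x none - x (some k)‖ * ‖Φ τ x‖ ^ 2) =
        (∑ j ∈ G, pe D sp (some j) Φ) - ∑ j ∈ G, D.charge (sp none) * D.charge (sp (some j)) *
          wm D (fun x => 1 / ‖x none - x (some j)‖) Φ := by
      rw [← Finset.sum_sub_distrib]
      apply Finset.sum_congr rfl
      intro j _
      rw [gs_pair]
    rw [h9]
    unfold gsR
    simp only [Finset.sum_insertNone, if_true, reduceCtorEq, if_false, Option.some_inj, zero_add,
      Finset.sum_add_distrib]
    have h11 : ∑ j ∈ G, D.charge (sp (some j)) * D.charge (sp none) *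
          wm D (fun x => 1 / ‖x (some j) - x none‖) Φ =
        ∑ j ∈ G, D.charge (sp none) * D.charge (sp (some j)) *
          wm D (fun x => 1 / ‖x none - x (some j)‖) Φ := by
      apply Finset.sum_congr rfl
      intro j _
      have h12 : (fun x : Option I → E3 => 1 / ‖x (some j) - x none‖) =
          fun x => 1 / ‖x none - x (some j)‖ := by
        funext x
        rw [norm_sub_rev]
      rw [mul_comm (D.charge (sp (some j))), h12]
    rw [h11]
    ring
  rw [ef, ev]
  exact s4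

theorem gsT_main {S : Type} [DecidableEq S] (D : Species S) (hD : D.Valid) {J : Type}
    [Fintype J] [DecidableEq J] (sp' : J → S) (ℓ T θ K Z : ℝ) (Lf : S → ℝ) (P : S → Prop)
    (hℓ : 0 < ℓ) (hT : 0 < T) (hθ : 0 < θ) (hK : 0 ≤ K)
    (hZ : ∀ z ∈ peierls D sp' ℓ T, z ≤ Z) (hZ0 : 0 ≤ Z)
    (hL : ∀ s, HasSum (fun m => Real.exp (-(θ / (2 * D.mass s * T) * pen ℓ m) - Lf s)) 1)
    (hf : ∀ s, P s → (D.g : ℝ) * (Real.exp (Lf s) / ((cnt sp' s : ℝ) + 1) + 1) ≤ K) (n : ℕ) :
    ∀ {I : Type} [Fintype I] [DecidableEq I] (sp : I → S) (G : Finset I), G.card = n →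
    (∀ i ∈ G, P (sp i)) →
    (∀ s, cnt sp s = cnt sp' s + (G.filter (fun i => sp i = s)).card) →
    ∀ (A : Type) [Fintype A] (v : A → Wave D I) (_ : ∀ a, IsState D sp ℓ (v a))
      (c : ℝ) (_ : 0 ≤ c)
      (_ : ∀ γ : A → ℂ, nrm2 D (fun τ x => ∑ a, γ a * v a τ x) ≤ c * ∑ a, ‖γ a‖ ^ 2),
      ∑ a, nrm2 D (v a) * Real.exp (-(gsR D sp G (v a) + θ * ∑ i ∈ G, kinE D sp i (v a)) /
        (nrm2 D (v a) * T)) ≤ c * (K ^ n * Z) := by
  induction n with
  | zero =>
    intro I _ _ sp G hG hP hcnt A _ v hv c hc hB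
    rw [Finset.card_eq_zero] at hG
    subst hG
    have hc' : ∀ s, cnt sp s = cnt sp' s := by
      intro s
      rw [hcnt s]
      simp
    obtain ⟨e, he⟩ := exists_equiv sp sp' hc'
    have h1 := trace_bound D sp' ℓ T hT Z hZ (fun a => relab D e (v a))
      (fun a => relabel_state D e sp sp' he ℓ (v a) (hv a)) c hc
      (by
        intro γ
        have h2 := (relabel_num D e sp sp' he (fun τ x => ∑ a, γ a * v a τ x)).1
        have h3 : (relab D e (fun τ x => ∑ a, γ a * v a τ x)) =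
            (fun τ x => ∑ a, γ a * relab D e (v a) τ x) := rfl
        rw [← h3, h2]
        exact hB γ)
    have h4 : ∀ a, nrm2 D (relab D e (v a)) = nrm2 D (v a) := fun a =>
      (relabel_num D e sp sp' he (v a)).1
    have h5 : ∀ a, energy D sp' (relab D e (v a)) = energy D sp (v a) := fun a =>
      (relabel_num D e sp sp' he (v a)).2.1
    simp only [h4, h5] at h1
    unfold gsR
    simpa using h1
  | succ n ih =>
    intro I _ _ sp G hG hP hcnt A _ v hv c hc hB
    have hne : G.Nonempty := by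
      rw [← Finset.card_pos, hG]
      exact Nat.succ_pos n
    obtain ⟨i, hi⟩ := hne
    let e : I ≃ Option {b // b ≠ i} := (Equiv.optionSubtypeNe i).symm
    let sp2 : Option {b // b ≠ i} → S := fun o => sp (e.symm o)
    have he : ∀ k, sp2 (e k) = sp k := by
      intro k
      change sp (e.symm (e k)) = sp k
      rw [Equiv.symm_apply_apply]
    have hei : e i = none := by
      change (Equiv.optionSubtypeNe i).symm i = none
      simp
    have hsn : sp2 none = sp i := by rw [← hei, he]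
    let G' : Finset {b // b ≠ i} := Finset.eraseNone (G.map e.toEmbedding)
    have hmem : none ∈ G.map e.toEmbedding := by
      rw [Finset.mem_map]
      exact ⟨i, hi, hei⟩
    have hG' : Finset.insertNone G' = G.map e.toEmbedding := by
      change Finset.insertNone (Finset.eraseNone (G.map e.toEmbedding)) = _
      rw [Finset.insertNone_eraseNone, Finset.insert_eq_of_mem hmem]
    have hcard : G'.card = n := by
      have h1 : (Finset.insertNone G').card = G'.card + 1 := Finset.card_insertNone G'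
      rw [hG', Finset.card_map, hG] at h1
      omega
    have hcs : ∀ s, cnt sp s = cnt sp2 s := by
      intro s
      unfold cnt
      rw [Finset.card_filter, Finset.card_filter, ← Equiv.sum_comp e]
      simp only [he]
    have hcnt' : ∀ s, cnt (fun k => sp2 (some k)) s = cnt sp' s +
        (G'.filter (fun k => sp2 (some k) = s)).card := by
      intro s
      have h1 : cnt sp s = cnt sp2 s := hcs s
      have h2 := gs_cnt_option sp2 s
      have h3 : (G.filter (fun i => sp i = s)).card =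
          (if sp2 none = s then 1 else 0) + (G'.filter (fun k => sp2 (some k) = s)).card := by
        rw [Finset.card_filter, Finset.card_filter,
          ← Finset.sum_insertNone (fun x => if sp2 x = s then 1 else 0) G', hG', Finset.sum_map]
        simp only [Equiv.coe_toEmbedding, he]
      have h4 := hcnt s
      rw [h1, h2, h3] at h4
      by_cases hs : s = sp2 none
      · rw [if_pos hs, if_pos hs.symm] at h4
        omega
      · rw [if_neg hs, if_neg (fun h => hs h.symm)] at h4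
        omega
    have hP' : ∀ k ∈ G', P (sp2 (some k)) := by
      intro k hk
      have h1 : some k ∈ G.map e.toEmbedding := by
        rw [← hG']
        exact Finset.some_mem_insertNone.2 hk
      rw [Finset.mem_map] at h1
      obtain ⟨l, hl, hle⟩ := h1
      have h2 : sp2 (some k) = sp l := by
        rw [← hle]
        exact he l
      rw [h2]
      exact hP l hl
    have hΦ : ∀ a, IsState D sp2 ℓ (relab D e (v a)) := fun a =>
      relabel_state D e sp sp2 he ℓ (v a) (hv a)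
    have hni : ∀ a, nrm2 D (relab D e (v a)) = nrm2 D (v a) := fun a =>
      (relabel_num D e sp sp2 he (v a)).1
    have hcn1 : cnt sp' (sp i) + 1 ≤ cnt sp2 (sp2 none) := by
      rw [hsn, ← hcs, hcnt (sp i)]
      have : 0 < (G.filter (fun i' => sp i' = sp i)).card :=
        Finset.card_pos.2 ⟨i, by simp [hi]⟩
      omega
    have hcpos : (0 : ℝ) < (cnt sp2 (sp2 none) : ℝ) := by
      have : 0 < cnt sp2 (sp2 none) := by omega
      exact_mod_cast this
    have eA : A ≃ Fin (Fintype.card A) := Fintype.equivFin A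
    set L : ℝ := Lf (sp2 none) with hLdef
    have h1 := removeT_rem1 D hD sp2 ℓ T θ hℓ hT hθ (K ^ n * Z)
      (fun ψ => gsR D (fun k => sp2 (some k)) G' ψ +
        θ * ∑ k ∈ G', kinE D (fun k => sp2 (some k)) k ψ)
      (fun r ψ hψ => by
        rw [gsT_smul D _ ℓ G' ψ hψ r]
        have h2 : ∑ k ∈ G', kinE D (fun k => sp2 (some k)) k (fun τ x => (r : ℂ) * ψ τ x) =
            r ^ 2 * ∑ k ∈ G', kinE D (fun k => sp2 (some k)) k ψ := by
          rw [Finset.mul_sum]
          exact Finset.sum_congr rfl fun k _ => removeT_kinE_smul D _ ℓ ψ hψ r k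
        rw [h2]
        ring)
      (fun B _ u hu c' hc' hBu => ih (fun k => sp2 (some k)) G' hcard hP' hcnt' B u hu c' hc' hBu)
      L ((cnt sp2 (sp2 none) : ℝ) * Real.exp (-L)) (hL _) le_rfl
      (fun j => relab D e (v (eA.symm j))) (fun j => hΦ _) c hc
      (by
        intro γ
        have h2 := hB (fun a => γ (eA a))
        have e1 : (fun (τ : Option {b // b ≠ i} → Fin D.g) (x : Option {b // b ≠ i} → E3) =>
            ∑ j, γ j * relab D e (v (eA.symm j)) τ x) =
            relab D e (fun τ x => ∑ a, γ (eA a) * v a τ x) := by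
          funext τ x
          show ∑ j, γ j * relab D e (v (eA.symm j)) τ x =
            ∑ a, γ (eA a) * v a (fun i => τ (e i)) (fun i => x (e i))
          rw [← Equiv.sum_comp eA]
          simp only [Equiv.symm_apply_apply]
          rfl
        have e2 : ∑ j, ‖γ j‖ ^ 2 = ∑ a, ‖γ (eA a)‖ ^ 2 := by
          rw [← Equiv.sum_comp eA]
        rw [e1, (relabel_num D e sp sp2 he _).1, e2]
        exact h2)
      (fun j => gsR D sp2 (Finset.insertNone G') (relab D e (v (eA.symm j))) +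
        θ * ∑ k ∈ G', kinE D sp2 (some k) (relab D e (v (eA.symm j))))
      (fun j => gsT_psl D hD sp2 ℓ θ hℓ _ (hΦ _) G')
    -- rewrite the terms
    have hterm : ∀ a, nrm2 D (v a) * Real.exp (-(gsR D sp G (v a) +
          θ * ∑ i ∈ G, kinE D sp i (v a)) / (nrm2 D (v a) * T)) =
        (nrm2 D (relab D e (v a)) * Real.exp (-(gsR D sp2 (Finset.insertNone G') (relab D e (v a)) +
        θ * ∑ k ∈ G', kinE D sp2 (some k) (relab D e (v a)) + θ * kinE D sp2 none (relab D e (v a))) /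
        (nrm2 D (relab D e (v a)) * T) - L + Real.log (cnt sp2 (sp2 none)))) *
        (Real.exp L / (cnt sp2 (sp2 none) : ℝ)) := by
      intro a
      have g1 : gsR D sp2 (Finset.insertNone G') (relab D e (v a)) = gsR D sp G (v a) := by
        rw [hG']
        exact gs_relabel D e sp sp2 he G (v a)
      have g2 : ∑ i ∈ G, kinE D sp i (v a) = kinE D sp2 none (relab D e (v a)) +
          ∑ k ∈ G', kinE D sp2 (some k) (relab D e (v a)) := by
        rw [← Finset.sum_insertNone (fun k => kinE D sp2 k (relab D e (v a))) G', hG',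
          Finset.sum_map]
        refine Finset.sum_congr rfl fun k _ => ?_
        exact ((peierls_relabel D e sp sp2 he ℓ T).2 (v a) k).symm
      rw [g1, hni, g2]
      have g3 : Real.exp L / (cnt sp2 (sp2 none) : ℝ) =
          Real.exp (L - Real.log (cnt sp2 (sp2 none))) := by
        rw [Real.exp_sub, Real.exp_log hcpos]
      rw [g3, mul_assoc, ← Real.exp_add]
      congr 2
      ring
    have hsum : ∑ a, nrm2 D (v a) * Real.exp (-(gsR D sp G (v a) +
          θ * ∑ i ∈ G, kinE D sp i (v a)) / (nrm2 D (v a) * T)) =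
        (∑ j, nrm2 D (relab D e (v (eA.symm j))) *
          Real.exp (-(gsR D sp2 (Finset.insertNone G') (relab D e (v (eA.symm j))) +
        θ * ∑ k ∈ G', kinE D sp2 (some k) (relab D e (v (eA.symm j))) +
        θ * kinE D sp2 none (relab D e (v (eA.symm j)))) /
        (nrm2 D (relab D e (v (eA.symm j))) * T) - L + Real.log (cnt sp2 (sp2 none)))) *
        (Real.exp L / (cnt sp2 (sp2 none) : ℝ)) := by
      rw [Finset.sum_mul, ← Equiv.sum_comp eA]
      simp only [Equiv.symm_apply_apply]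
      exact Finset.sum_congr rfl fun a _ => hterm a
    rw [hsum]
    have hex : 0 ≤ Real.exp L / (cnt sp2 (sp2 none) : ℝ) :=
      div_nonneg (Real.exp_pos _).le hcpos.le
    refine le_trans (mul_le_mul_of_nonneg_right h1 hex) ?_
    have hfac : (D.g : ℝ) * (1 + (cnt sp2 (sp2 none) : ℝ) * Real.exp (-L)) *
        (Real.exp L / (cnt sp2 (sp2 none) : ℝ)) ≤ K := by
      have h6 : (D.g : ℝ) * (1 + (cnt sp2 (sp2 none) : ℝ) * Real.exp (-L)) *
          (Real.exp L / (cnt sp2 (sp2 none) : ℝ)) =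
          (D.g : ℝ) * (Real.exp L / (cnt sp2 (sp2 none) : ℝ) + 1) := by
        rw [Real.exp_neg]
        have := (Real.exp_pos L).ne'
        field_simp
      rw [h6]
      refine le_trans ?_ (hf (sp i) (hP i hi))
      refine mul_le_mul_of_nonneg_left ?_ (Nat.cast_nonneg _)
      rw [hLdef, hsn]
      refine add_le_add ?_ le_rfl
      refine div_le_div_of_nonneg_left (Real.exp_pos _).le (by positivity) ?_
      rw [← hsn]
      rw [hsn] at hcn1 ⊢
      exact_mod_cast hcn1
    have hcZ : 0 ≤ c * (K ^ n * Z) := by positivity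
    calc (D.g : ℝ) * (1 + (cnt sp2 (sp2 none) : ℝ) * Real.exp (-L)) * (c * (K ^ n * Z)) *
          (Real.exp L / (cnt sp2 (sp2 none) : ℝ))
        = ((D.g : ℝ) * (1 + (cnt sp2 (sp2 none) : ℝ) * Real.exp (-L)) *
          (Real.exp L / (cnt sp2 (sp2 none) : ℝ))) * (c * (K ^ n * Z)) := by ring
      _ ≤ K * (c * (K ^ n * Z)) := mul_le_mul_of_nonneg_right hfac hcZ
      _ = c * (K ^ (n + 1) * Z) := by ring

/-- TARGET -/
theorem group_sliceT {S : Type} [Fintype S] [DecidableEq S] (D : Species S) (hD : D.Valid)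
    (T θ V c : ℝ) (n0 : ℕ) (hT : 0 < T) (hθ : 0 < θ) (hV : 0 < V) (hc : 0 < c) : ∃ C : ℝ, 0 < C ∧
    ∀ {I J : Type} [Fintype I] [DecidableEq I] [Fintype J] [DecidableEq J] (sp : I → S)
      (sp' : J → S) (G : Finset I), G.card ≤ n0 →
      (∀ s, cnt sp s = cnt sp' s + (G.filter (fun i => sp i = s)).card) →
      ∀ ℓ : ℝ, 1 ≤ ℓ → ℓ ^ 3 ≤ V * (Fintype.card I : ℝ) →
      (∀ i ∈ G, c * (Fintype.card I : ℝ) ≤ cnt sp (sp i)) →
      ∀ Z : ℝ, (∀ z ∈ peierls D sp' ℓ T, z ≤ Z) →
      ∀ {k : ℕ} (ψ : Fin k → Wave D I), (∀ j, IsState D sp ℓ (ψ j)) → SG D ψ →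
      (∀ j, nrm2 D (ψ j) = 1) →
      ∑ j, Real.exp (-(energy D sp (ψ j) - (∑ i ∈ G, pe D sp i (ψ j)) +
        1 / 2 * (∑ i ∈ G, ∑ i' ∈ G, if i = i' then 0 else
          D.charge (sp i) * D.charge (sp i') * wm D (fun x => 1 / ‖x i - x i'‖) (ψ j)) +
        θ * ∑ i ∈ G, kinE D sp i (ψ j)) / T) ≤ C * Z := by
  have hlz : ∀ s, ∃ C : ℝ, 0 < C ∧ ∀ ℓ : ℝ, 1 ≤ ℓ →
    HasSum (fun m => Real.exp (-(θ / (2 * D.mass s * T) * pen ℓ m) -
      lz ℓ (θ / (2 * D.mass s * T)))) 1 ∧
    Real.exp (lz ℓ (θ / (2 * D.mass s * T))) ≤ C * ℓ ^ 3 := by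
    intro s
    have hm := hD.mass_pos s
    obtain ⟨C, hC, h⟩ := lz_bounds (θ / (2 * D.mass s * T)) 1 (by positivity) one_pos
    exact ⟨C, hC, fun ℓ hℓ => ⟨(h ℓ hℓ).1, (h ℓ hℓ).2.1⟩⟩
  choose Cs hCs hlz using hlz
  set CL : ℝ := ∑ s, Cs s with hCL
  have hCL0 : 0 ≤ CL := Finset.sum_nonneg fun s _ => (hCs s).le
  have hCsL : ∀ s, Cs s ≤ CL := fun s =>
    Finset.single_le_sum (fun s _ => (hCs s).le) (Finset.mem_univ s)
  set B : ℝ := V / c * (1 + n0) with hB
  have hB0 : 0 ≤ B := by positivity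
  set K : ℝ := 1 + (D.g : ℝ) * (CL * B + 1) with hK
  have hK1 : 1 ≤ K := by
    have : 0 ≤ (D.g : ℝ) * (CL * B + 1) := by positivity
    rw [hK]; linarith
  refine ⟨K ^ n0, by positivity, ?_⟩
  intro I J _ _ _ _ sp sp' G hGn hcnt ℓ hℓ hℓV hGc Z hZ k ψ hψ hSG hnrm
  have hℓ0 : 0 < ℓ := by linarith
  have hZ0 : 0 ≤ Z := by
    have h1 := hZ 0 ⟨0, fun j => j.elim0, ⟨fun j => j.elim0, fun j => j.elim0⟩, by simp⟩
    exact h1
  have hmain := gsT_main D hD sp' ℓ T θ K Z (fun s => lz ℓ (θ / (2 * D.mass s * T)))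
    (fun s => ℓ ^ 3 ≤ B * ((cnt sp' s : ℝ) + 1)) hℓ0 hT hθ (by linarith) hZ hZ0
    (fun s => (hlz s ℓ hℓ).1)
    (by
      intro s hs
      have hq : (0 : ℝ) < (cnt sp' s : ℝ) + 1 := by positivity
      have h1 : Real.exp (lz ℓ (θ / (2 * D.mass s * T))) / ((cnt sp' s : ℝ) + 1) ≤ CL * B := by
        rw [div_le_iff₀ hq]
        calc Real.exp (lz ℓ (θ / (2 * D.mass s * T))) ≤ Cs s * ℓ ^ 3 := (hlz s ℓ hℓ).2
          _ ≤ CL * ℓ ^ 3 := mul_le_mul_of_nonneg_right (hCsL s) (by positivity)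
          _ ≤ CL * (B * ((cnt sp' s : ℝ) + 1)) := mul_le_mul_of_nonneg_left hs hCL0
          _ = _ := by ring
      have h2 : (D.g : ℝ) * (Real.exp (lz ℓ (θ / (2 * D.mass s * T))) / ((cnt sp' s : ℝ) + 1) + 1) ≤
          (D.g : ℝ) * (CL * B + 1) :=
        mul_le_mul_of_nonneg_left (by linarith) (Nat.cast_nonneg _)
      rw [hK]
      linarith)
    G.card sp G rfl
    (by
      intro i hi
      have h1 := hGc i hi
      have h2 : (cnt sp (sp i) : ℝ) ≤ (1 + n0) * ((cnt sp' (sp i) : ℝ) + 1) := by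
        have h3 := hcnt (sp i)
        have h4 : (G.filter (fun i' => sp i' = sp i)).card ≤ n0 :=
          le_trans (Finset.card_filter_le _ _) hGn
        have h5 : (cnt sp (sp i) : ℝ) ≤ (cnt sp' (sp i) : ℝ) + n0 := by
          rw [h3]
          push_cast
          have : ((G.filter (fun i' => sp i' = sp i)).card : ℝ) ≤ n0 := by exact_mod_cast h4
          linarith
        have h6 : (0 : ℝ) ≤ cnt sp' (sp i) := Nat.cast_nonneg _
        have h7 : (0 : ℝ) ≤ n0 := Nat.cast_nonneg _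
        nlinarith
      have h8 : (Fintype.card I : ℝ) ≤ (cnt sp (sp i) : ℝ) / c := by
        rw [le_div_iff₀ hc]; linarith
      calc ℓ ^ 3 ≤ V * (Fintype.card I : ℝ) := hℓV
        _ ≤ V * ((cnt sp (sp i) : ℝ) / c) := mul_le_mul_of_nonneg_left h8 hV.le
        _ ≤ V * (((1 + n0) * ((cnt sp' (sp i) : ℝ) + 1)) / c) := by
            refine mul_le_mul_of_nonneg_left ?_ hV.le
            exact div_le_div_of_nonneg_right h2 hc.le
        _ = B * ((cnt sp' (sp i) : ℝ) + 1) := by rw [hB]; ring)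
    hcnt (Fin k) ψ hψ 1 zero_le_one (by
      intro γ
      rw [one_mul]
      exact hSG γ)
  have h9 : ∑ j, Real.exp (-(energy D sp (ψ j) - (∑ i ∈ G, pe D sp i (ψ j)) +
        1 / 2 * (∑ i ∈ G, ∑ i' ∈ G, if i = i' then 0 else
          D.charge (sp i) * D.charge (sp i') * wm D (fun x => 1 / ‖x i - x i'‖) (ψ j)) +
        θ * ∑ i ∈ G, kinE D sp i (ψ j)) / T) ≤ 1 * (K ^ G.card * Z) := by
    refine le_trans (le_of_eq ?_) hmain
    refine Finset.sum_congr rfl fun j _ => ?_
    rw [hnrm j, one_mul, one_mul]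
    rfl
  refine le_trans h9 ?_
  rw [one_mul]
  exact mul_le_mul_of_nonneg_right (pow_le_pow_right₀ hK1 hGn) hZ0

end Pool.Agent.Helper780_CP.RKT4
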