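import Pool.Agent.Helper780_CP.LLDefs2
import Pool.Agent.Helper780_CP.LPDefs
import Pool.Agent.Helper780_CP.RGR2
import Pool.Agent.Helper780_CP.FlatT
import Pool.Agent.Helper780_CP.AvgT
import Pool.Agent.Helper985.CT.M_peierls_bdd
import Pool.Agent.Helper985.CT.M_peierls_pos
import Pool.Agent.Helper985.CT.M_lz_bounds
import Pool.Agent.Helper780_CP.RKT2
import Pool.Agent.Helper780_CP.RKT4
import Pool.Agent.Helper780_CP.RG1

set_option autoImplicit false

open MeasureTheory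
open scoped Topology

namespace Pool.Agent.Helper780_CP.RKT5

open Pool.Agent.Helper780_CP
open Pool.Agent.Helper985.CP
open Pool.Agent.Helper780_CP.RKT2 (kin_boundT)
open Pool.Agent.Helper780_CP.RKT4 (group_sliceT)
open Pool.Agent.Helper780_CP.RG1 (gibbs_w)

open Pool.Agent.Helper780_CP Pool.Agent.Helper985.CP

/-- Gibbs weights of an almost optimal family -/
theorem k5_ne {S : Type} [Fintype S] [DecidableEq S] (D : Species S) (hD : D.Valid)
    (hst : HStable D) {I : Type} [Fintype I] [DecidableEq I] (sp : I → S) (ℓ T : ℝ)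
    (hℓ : 0 < ℓ) (hT : 0 < T) : ∃ (k : ℕ) (p : Fin k → ℝ) (ψ : Fin k → Wave D I),
      NE D sp ℓ T 1 (sSup (peierls D sp ℓ T)) p ψ := by
  obtain ⟨hne, hZpos⟩ := peierls_pos D hD hst sp ℓ T hℓ hT
  have hbdd := peierls_bdd D hD hst sp ℓ T hℓ hT
  have he1 : Real.exp (-(1 / T)) < 1 := by
    rw [Real.exp_lt_one_iff]
    have : 0 < 1 / T := by positivity
    linarith
  have hlt : sSup (peierls D sp ℓ T) * Real.exp (-(1 / T)) < sSup (peierls D sp ℓ T) := by
    nlinarith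
  obtain ⟨z, ⟨k, ψ, hψ, rfl⟩, hz⟩ := exists_lt_of_lt_csSup hne hlt
  obtain ⟨s, hs⟩ : ∃ s, s = ∑ j, Real.exp (-(energy D sp (ψ j)) / T) := ⟨_, rfl⟩
  rw [← hs] at hz
  have hs0 : 0 < s := lt_trans (mul_pos hZpos (Real.exp_pos _)) hz
  have hsum : ∑ j, Real.exp (-(energy D sp (ψ j)) / T) / s = 1 := by
    rw [← Finset.sum_div, ← hs, div_self hs0.ne']
  refine ⟨k, fun j => Real.exp (-(energy D sp (ψ j)) / T) / s, ψ, hψ.1,
    fun γ => (cl_ortho_norm D sp ℓ ψ hψ γ).le, fun j => cl_nrm2_one D sp ℓ ψ hψ j,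
    fun j => div_nonneg (Real.exp_pos _).le hs0.le, hsum, hZpos,
    fun z hz => le_csSup hbdd hz, ?_⟩
  have h1 : ∀ j, Real.exp (-(energy D sp (ψ j)) / T) / s * energy D sp (ψ j) +
      T * (Real.exp (-(energy D sp (ψ j)) / T) / s *
        Real.log (Real.exp (-(energy D sp (ψ j)) / T) / s)) =
      Real.exp (-(energy D sp (ψ j)) / T) / s * (-T * Real.log s) := by
    intro j
    rw [Real.log_div (Real.exp_pos _).ne' hs0.ne', Real.log_exp]
    field_simp
    ring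
  simp only [h1]
  rw [← Finset.sum_mul, hsum, one_mul]
  have h2 : Real.log (sSup (peierls D sp ℓ T)) - 1 / T ≤ Real.log s := by
    have h3 := Real.log_le_log (mul_pos hZpos (Real.exp_pos _)) hz.le
    rw [Real.log_mul hZpos.ne' (Real.exp_pos _).ne', Real.log_exp] at h3
    linarith
  have h4 := mul_le_mul_of_nonneg_left h2 hT.le
  have h5 : T * (Real.log (sSup (peierls D sp ℓ T)) - 1 / T) =
      T * Real.log (sSup (peierls D sp ℓ T)) - 1 := by
    field_simp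
  rw [h5] at h4
  linarith

/-- a point far from the particles, for mixtures -/
theorem k5_center {S : Type} (D : Species S) {I : Type} [Fintype I] [DecidableEq I] (sp : I → S)
    (ℓ ρ : ℝ) (hℓ : 4 ≤ ℓ) (hρ : 0 ≤ ρ) (hN : (Fintype.card I : ℝ) ≤ ρ * ℓ ^ 3) {k : ℕ}
    (ψ : Fin k → Wave D I) (hψ : ∀ j, IsState D sp ℓ (ψ j)) (hn : ∀ j, nrm2 D (ψ j) = 1)
    (p : Fin k → ℝ) (hp : ∀ j, 0 ≤ p j) (hp1 : ∑ j, p j = 1) :
    ∃ y : E3, Metric.closedBall y (1 / 2) ⊆ cube ℓ ∧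
      ∑ j, p j * wm D (near2 y) (ψ j) ≤ 4 * (1 + (∫ z, kk z) * ρ) := by
  have hℓ0 : 0 < ℓ := by linarith
  have hk0 : 0 ≤ ∫ z, kk z := integral_nonneg kk_nonneg
  obtain ⟨K, hK⟩ : ∃ K : ℝ, K = 4 * (1 + (∫ z, kk z) * ρ) := ⟨_, rfl⟩
  have hK0 : 0 < K := by rw [hK]; positivity
  obtain ⟨T, hT⟩ : ∃ T : Set E3, T = {y : E3 | ∀ k, 1 / 2 < y k ∧ y k < ℓ - 1 / 2} := ⟨_, rfl⟩
  have hTball : ∀ y ∈ T, Metric.closedBall y (1 / 2) ⊆ cube ℓ := by
    intro y hy z hz k
    rw [hT] at hy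
    have h1 := hy k
    have h2 : |z k - y k| ≤ 1 / 2 := by
      have h3 : ‖(z - y) k‖ ≤ ‖z - y‖ := PiLp.norm_apply_le (z - y) k
      rw [Metric.mem_closedBall, dist_eq_norm] at hz
      have h4 : (z - y) k = z k - y k := rfl
      rw [h4, Real.norm_eq_abs] at h3
      linarith
    rw [abs_le] at h2
    constructor <;> linarith [h2.1, h2.2, h1.1, h1.2]
  have hTcube : ∀ y ∈ T, y ∈ cube ℓ := fun y hy =>
    hTball y hy (Metric.mem_closedBall_self (by norm_num))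
  have hTvol : volume T = ENNReal.ofReal ((ℓ - 1) ^ 3) := by
    rw [← rb_ip_XX_vol (ℓ - 1) (by linarith),
      ← measure_preimage_add_right volume (dv (-(1 / 2))) (cube (ℓ - 1))]
    congr 1
    ext y
    rw [hT]
    have hk : ∀ k, (y + dv (-(1 / 2))) k = y k - 1 / 2 := by
      intro k
      show y k + (-(1 / 2)) = y k - 1 / 2
      ring
    constructor
    · intro h k
      rw [hk k]
      have := h k
      constructor <;> linarith [this.1, this.2]
    · intro h k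
      have h2 := h k
      rw [hk k] at h2
      constructor <;> linarith [h2.1, h2.2]
  by_contra hcon
  push Not at hcon
  rw [← hK] at hcon
  have hsub : T ⊆ {y : E3 | y ∈ cube ℓ ∧ K ≤ ∑ j, p j * wm D (near2 y) (ψ j)} := by
    intro y hy
    exact ⟨hTcube y hy, (hcon y (hTball y hy)).le⟩
  have h1 := (measure_mono hsub).trans (cost_markovT D sp ℓ hℓ0 ψ hψ hn p hp hp1 K hK0)
  rw [hTvol] at h1
  have h2 : (ℓ - 1) ^ 3 ≤ (ℓ ^ 3 + (∫ z, kk z) * (Fintype.card I : ℝ)) / K := by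
    have h3 : 0 ≤ (ℓ ^ 3 + (∫ z, kk z) * (Fintype.card I : ℝ)) / K := by positivity
    exact (ENNReal.ofReal_le_ofReal_iff h3).1 h1
  rw [le_div_iff₀ hK0, hK] at h2
  have h3 : (∫ z, kk z) * (Fintype.card I : ℝ) ≤ (∫ z, kk z) * (ρ * ℓ ^ 3) :=
    mul_le_mul_of_nonneg_left hN hk0
  have h4 : (3 / 4 * ℓ) ^ 3 ≤ (ℓ - 1) ^ 3 := pow_le_pow_left₀ (by linarith) (by linarith) 3
  have h5 : 0 < 1 + (∫ z, kk z) * ρ := by positivity
  have h6 : (ℓ - 1) ^ 3 * (4 * (1 + (∫ z, kk z) * ρ)) ≤ (1 + (∫ z, kk z) * ρ) * ℓ ^ 3 := by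
    linarith
  have h7 : 4 * (ℓ - 1) ^ 3 ≤ ℓ ^ 3 := by
    have : (4 * (ℓ - 1) ^ 3) * (1 + (∫ z, kk z) * ρ) ≤ ℓ ^ 3 * (1 + (∫ z, kk z) * ρ) := by
      linarith
    exact le_of_mul_le_mul_right this h5
  have h8 : 0 < ℓ ^ 3 := by positivity
  nlinarith

theorem k5_kinE_nonneg {S : Type} (D : Species S) (hD : D.Valid) {I : Type} [Fintype I]
    [DecidableEq I] (sp : I → S) (i : I) (Ψ : Wave D I) : 0 ≤ kinE D sp i Ψ := by
  unfold kinE kin
  have := hD.mass_pos (sp i)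
  exact Finset.sum_nonneg fun τ _ => integral_nonneg fun x => by positivity

/-- mean kinetic energy of a particle of an abundant species, for mixtures -/
theorem k5_kin {S : Type} [DecidableEq S] (D : Species S) (hD : D.Valid) {I : Type} [Fintype I]
    [DecidableEq I] (sp : I → S) (ℓ c C : ℝ) (hc : 0 < c) {k : ℕ} (p : Fin k → ℝ)
    (hp : ∀ j, 0 ≤ p j) (ψ : Fin k → Wave D I) (hψ : ∀ j, IsState D sp ℓ (ψ j))
    (hkin : (∑ j, p j * KN D sp (ψ j)) ≤ C * (Fintype.card I : ℝ)) (i : I)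
    (hi : c * (Fintype.card I : ℝ) ≤ cnt sp (sp i)) :
    ∑ j, p j * kinE D sp i (ψ j) ≤ C / c := by
  have hk0 : ∀ i Ψ, 0 ≤ kinE D sp i Ψ := fun i Ψ => k5_kinE_nonneg D hD sp i Ψ
  have h1 : ∀ j, (cnt sp (sp i) : ℝ) * kinE D sp i (ψ j) ≤ KN D sp (ψ j) := by
    intro j
    have e1 : KN D sp (ψ j) = ∑ i, kinE D sp i (ψ j) := by
      unfold KN kinE
      rw [Finset.sum_comm]
      refine Finset.sum_congr rfl fun τ _ => ?_
      exact integral_finsetSum _ fun i _ => (int_state D sp ℓ (ψ j) (hψ j) τ).2.1 i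
    have h2 : (cnt sp (sp i) : ℝ) * kinE D sp i (ψ j) =
        ∑ i' ∈ Finset.univ.filter (fun i' => sp i' = sp i), kinE D sp i' (ψ j) := by
      unfold cnt
      rw [← nsmul_eq_mul, ← Finset.sum_const]
      refine Finset.sum_congr rfl fun i' hi' => ?_
      rw [Finset.mem_filter] at hi'
      exact ((pe_symm D sp ℓ (ψ j) (hψ j) i' i hi'.2).2).symm
    rw [e1, h2]
    exact Finset.sum_le_sum_of_subset_of_nonneg (Finset.filter_subset _ _)
      fun i' _ _ => hk0 i' _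
  have h3 : (cnt sp (sp i) : ℝ) * ∑ j, p j * kinE D sp i (ψ j) ≤
      C * (Fintype.card I : ℝ) := by
    refine le_trans ?_ hkin
    rw [Finset.mul_sum]
    refine Finset.sum_le_sum fun j _ => ?_
    have := mul_le_mul_of_nonneg_left (h1 j) (hp j)
    linarith
  have hS0 : 0 ≤ ∑ j, p j * kinE D sp i (ψ j) :=
    Finset.sum_nonneg fun j _ => mul_nonneg (hp j) (hk0 i _)
  have hN : (1 : ℝ) ≤ Fintype.card I := by
    have : 0 < Fintype.card I := Fintype.card_pos_iff.2 ⟨i⟩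
    exact_mod_cast this
  have h4 : c * (Fintype.card I : ℝ) * ∑ j, p j * kinE D sp i (ψ j) ≤
      C * (Fintype.card I : ℝ) := (mul_le_mul_of_nonneg_right hi hS0).trans h3
  rw [le_div_iff₀ hc]
  have h5 : ((∑ j, p j * kinE D sp i (ψ j)) * c) * (Fintype.card I : ℝ) ≤
      C * (Fintype.card I : ℝ) := by linarith
  exact le_of_mul_le_mul_right h5 (by linarith)

/-- flatness for the abundant species -/
theorem k5_flat {S : Type} [Fintype S] [DecidableEq S] (D : Species S) (hD : D.Valid)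
    (hst : HStable D) (T V ρ c W0 : ℝ) (hT : 0 < T) (hV : 0 < V) (hρ : 0 < ρ) (hc : 0 < c)
    (hW0 : 0 ≤ W0) : ∃ C' : ℝ, 0 < C' ∧ ∀ {I : Type} [Fintype I] [DecidableEq I] (sp : I → S)
      (ℓ Z : ℝ), 4 ≤ ℓ → ℓ ^ 3 ≤ V * (Fintype.card I : ℝ) → (Fintype.card I : ℝ) ≤ ρ * ℓ ^ 3 →
      (∑ i, D.charge (sp i) = 0) → ∀ {k : ℕ} (p : Fin k → ℝ) (ψ : Fin k → Wave D I),
      NE D sp ℓ T 1 Z p ψ → ∀ y, Metric.closedBall y (1 / 2) ⊆ cube ℓ →
      ∑ j, p j * wm D (near2 y) (ψ j) ≤ W0 → ∀ i, c * (Fintype.card I : ℝ) ≤ cnt sp (sp i) →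
      D.charge (sp i) * (∑ j, p j * phim D sp (ψ j) y) - C' ≤
        ∑ j, p j * (pe D sp i (ψ j) - (1 / 2) * kinE D sp i (ψ j)) := by
  obtain ⟨C, hC, H⟩ := moveT D hD (1 / 2) (by norm_num)
  obtain ⟨A, hA⟩ := id hst
  have hAA : ∀ {J : Type} [Fintype J] [DecidableEq J] (sp' : J → S) (ℓ : ℝ), 0 < ℓ →
      ∀ (Ψ : Wave D J), IsState D sp' ℓ Ψ →
      -|A| * (Fintype.card J : ℝ) * nrm2 D Ψ ≤ energy D sp' Ψ := by
    intro J _ _ sp' ℓ hℓ Ψ hΨ
    refine le_trans ?_ (stable_any D A hA sp' ℓ hℓ Ψ hΨ)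
    have := nrm2_nn D Ψ
    have h2 := le_abs_self A
    have h3 : (0 : ℝ) ≤ (Fintype.card J : ℝ) * nrm2 D Ψ := by positivity
    nlinarith
  -- one-particle partition functions
  have hlz : ∀ s, ∃ C : ℝ, 0 < C ∧ ∀ ℓ : ℝ, 1 ≤ ℓ →
    HasSum (fun m => Real.exp (-((1 / 2) / (2 * D.mass s * T) * pen ℓ m) -
      lz ℓ ((1 / 2) / (2 * D.mass s * T)))) 1 ∧
    Real.exp (lz ℓ ((1 / 2) / (2 * D.mass s * T))) ≤ C * ℓ ^ 3 ∧
    ℓ ^ 3 ≤ C * Real.exp (lz ℓ ((1 / 2) / (2 * D.mass s * T))) := fun s =>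
    lz_bounds _ _ (by have := hD.mass_pos s; positivity) one_pos
  choose C2 hC2p hC2 using hlz
  obtain ⟨K, hKd⟩ : ∃ K, K = ∑ s, C2 s := ⟨_, rfl⟩
  have hK : 0 ≤ K := by rw [hKd]; exact Finset.sum_nonneg fun s _ => (hC2p s).le
  have hKs : ∀ s, C2 s ≤ K := fun s => by
    rw [hKd]
    exact Finset.single_le_sum (f := C2) (fun t _ => (hC2p t).le) (Finset.mem_univ s)
  obtain ⟨W, hWd⟩ : ∃ W, W = K * V := ⟨_, rfl⟩
  have hW : 0 ≤ W := by rw [hWd]; positivity
  obtain ⟨M, hMd⟩ : ∃ M, M = K * ρ := ⟨_, rfl⟩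
  have hM0 : 0 ≤ M := by rw [hMd]; positivity
  obtain ⟨G, hG⟩ : ∃ G, G = |Real.log ((D.g : ℝ) * (1 + M))| := ⟨_, rfl⟩
  have hG0 : 0 ≤ G := by rw [hG]; positivity
  have hS0 : (0 : ℝ) ≤ (Fintype.card S : ℝ) := Nat.cast_nonneg _
  obtain ⟨A2, hA2⟩ : ∃ A2, A2 = 8 * |A| + T * ((Fintype.card S : ℝ) * W) := ⟨_, rfl⟩
  have hA20 : 0 ≤ A2 := by rw [hA2]; positivity
  obtain ⟨K1, hK1⟩ : ∃ K1, K1 = 1 + T * G + T * (C * (1 + 1 / T)) := ⟨_, rfl⟩
  have hK10 : 0 ≤ K1 := by rw [hK1]; positivity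
  refine ⟨K1 * (1 + W0) + c⁻¹ * (K1 * (1 + W0) + A2) + T * M + 1, by positivity, ?_⟩
  intro I _ _ sp ℓ Z hℓ4 hlV hlρ hneu k p ψ hNE y hy hκ i1 hi1
  have hℓ : 0 < ℓ := by linarith
  have hℓ1 : 1 ≤ ℓ := by linarith
  obtain ⟨hψ, hgram, hn1, hp, hp1, hZpos, hZle, hfree⟩ := hNE
  have hw0 : ∀ j, 0 ≤ wm D (near2 y) (ψ j) := fun j => wmn_nonneg D (ψ j) y
  have hκ0 : 0 ≤ ∑ j, p j * wm D (near2 y) (ψ j) :=
    Finset.sum_nonneg fun j _ => mul_nonneg (hp j) (hw0 j)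
  have hNpos : 0 < (Fintype.card I : ℝ) := by
    exact_mod_cast Fintype.card_pos_iff.2 ⟨i1⟩
  let L : S → ℝ := fun s => lz ℓ ((1 / 2) / (2 * D.mass s * T))
  have hLW : ∀ s, Real.exp (L s) ≤ W * (Fintype.card I : ℝ) := by
    intro s
    calc Real.exp (L s) ≤ C2 s * ℓ ^ 3 := (hC2 s ℓ hℓ1).2.1
      _ ≤ K * ℓ ^ 3 := mul_le_mul_of_nonneg_right (hKs s) (by positivity)
      _ ≤ K * (V * (Fintype.card I : ℝ)) := mul_le_mul_of_nonneg_left hlV hK
      _ = W * (Fintype.card I : ℝ) := by rw [hWd]; ring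
  have hcle : ∀ s, (cnt sp s : ℝ) ≤ Fintype.card I := by
    intro s
    unfold cnt
    exact_mod_cast Finset.card_le_univ _
  have hLM : ∀ s, (cnt sp s : ℝ) * Real.exp (-(L s)) ≤ M := by
    intro s
    have h1 : (cnt sp s : ℝ) ≤ M * Real.exp (L s) := by
      calc (cnt sp s : ℝ) ≤ (Fintype.card I : ℝ) := hcle s
        _ ≤ ρ * ℓ ^ 3 := hlρ
        _ ≤ ρ * (C2 s * Real.exp (L s)) :=
            mul_le_mul_of_nonneg_left (hC2 s ℓ hℓ1).2.2 hρ.le
        _ ≤ ρ * (K * Real.exp (L s)) := mul_le_mul_of_nonneg_left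
            (mul_le_mul_of_nonneg_right (hKs s) (Real.exp_pos _).le) hρ.le
        _ = M * Real.exp (L s) := by rw [hMd]; ring
    rw [Real.exp_neg, ← div_eq_mul_inv, div_le_iff₀ (Real.exp_pos _)]
    exact h1
  have hHS : ∀ s, HasSum (fun m => Real.exp (-((1 / 2) / (2 * D.mass s * T) * pen ℓ m) - L s)) 1 :=
    fun s => (hC2 s ℓ hℓ1).1
  -- the quantities
  let q : I → ℝ := fun i => ∑ j, p j * (pe D sp i (ψ j) - (1 / 2) * kinE D sp i (ψ j)) -
    T * (L (sp i) - Real.log (cnt sp (sp i)))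
  obtain ⟨Φ, hΦ⟩ : ∃ Φ, Φ = ∑ j, p j * phim D sp (ψ j) y := ⟨_, rfl⟩
  obtain ⟨κ, hκd⟩ : ∃ κ, κ = ∑ j, p j * wm D (near2 y) (ψ j) := ⟨_, rfl⟩
  rw [← hΦ]
  rw [← hκd] at hκ hκ0
  have hmove : ∀ i, q i ≤ D.charge (sp i) * Φ + K1 * (1 + κ) := by
    intro i
    have h1 := H sp ℓ y hℓ hy T _ Z hT hZle i (L (sp i)) (hHS (sp i)) M (hLM (sp i))
      (rest_lower D sp ℓ |A| (fun sp' Φ hΦ => hAA sp' ℓ hℓ Φ hΦ) i) ψ hψ hgram hn1
    obtain ⟨lam, hlam⟩ : ∃ lam, lam = L (sp i) - Real.log (cnt sp (sp i)) := ⟨_, rfl⟩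
    have h2 := (gibbs_fin p _ hp hp1).trans h1
    have hg1 : 0 < (D.g : ℝ) * (1 + M) := by
      by_contra hcon
      push Not at hcon
      have h3 := Real.exp_pos (∑ j, (p j * (-(energy D sp (ψ j) - pe D sp i (ψ j) +
        (1 / 2) * kinE D sp i (ψ j) + D.charge (sp i) * phim D sp (ψ j) y) / T -
        C * (1 + 1 / T) * (1 + wm D (near2 y) (ψ j)) - (L (sp i) - Real.log (cnt sp (sp i)))) -
        p j * Real.log (p j)))
      have h4 : (D.g : ℝ) * (1 + M) * Z ≤ 0 := mul_nonpos_of_nonpos_of_nonneg hcon hZpos.le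
      linarith
    have h3 := (Real.le_log_iff_exp_le (mul_pos hg1 hZpos)).2 h2
    rw [Real.log_mul hg1.ne' hZpos.ne'] at h3
    have h4 : Real.log ((D.g : ℝ) * (1 + M)) ≤ G := by rw [hG]; exact le_abs_self _
    have e1 : ∑ j, (p j * (-(energy D sp (ψ j) - pe D sp i (ψ j) +
        (1 / 2) * kinE D sp i (ψ j) + D.charge (sp i) * phim D sp (ψ j) y) / T -
        C * (1 + 1 / T) * (1 + wm D (near2 y) (ψ j)) - (L (sp i) - Real.log (cnt sp (sp i)))) -
        p j * Real.log (p j)) =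
        -(1 / T) * (∑ j, (p j * energy D sp (ψ j) + T * (p j * Real.log (p j))) -
        ∑ j, p j * (pe D sp i (ψ j) - (1 / 2) * kinE D sp i (ψ j)) + D.charge (sp i) * Φ) -
        C * (1 + 1 / T) * (1 + κ) - lam := by
      have hp2 : (1 : ℝ) = ∑ j, p j := hp1.symm
      have e2 : C * (1 + 1 / T) * (1 + κ) = ∑ j, p j * (C * (1 + 1 / T) *
          (1 + wm D (near2 y) (ψ j))) := by
        rw [hκd]
        have : (1 : ℝ) + ∑ j, p j * wm D (near2 y) (ψ j) =
          ∑ j, p j * (1 + wm D (near2 y) (ψ j)) := by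
          simp only [mul_add, mul_one]
          rw [Finset.sum_add_distrib, hp1]
        rw [this, Finset.mul_sum]
        refine Finset.sum_congr rfl fun j _ => ?_
        ring
      have e3 : lam = ∑ j, p j * lam := by rw [← Finset.sum_mul, hp1, one_mul]
      have e4 : D.charge (sp i) * Φ = ∑ j, D.charge (sp i) * (p j * phim D sp (ψ j) y) := by
        rw [hΦ, Finset.mul_sum]
      rw [e2, e3, e4, ← Finset.sum_sub_distrib, ← Finset.sum_add_distrib, Finset.mul_sum,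
        ← Finset.sum_sub_distrib, ← Finset.sum_sub_distrib]
      refine Finset.sum_congr rfl fun j _ => ?_
      rw [← hlam]
      field_simp
      ring
    rw [e1] at h3
    have h5 : -(∑ j, (p j * energy D sp (ψ j) + T * (p j * Real.log (p j))) -
        ∑ j, p j * (pe D sp i (ψ j) - (1 / 2) * kinE D sp i (ψ j)) + D.charge (sp i) * Φ) -
        T * (C * (1 + 1 / T) * (1 + κ)) - T * lam ≤ T * (G + Real.log Z) := by
      have h6 : T * (-(1 / T) * (∑ j, (p j * energy D sp (ψ j) + T * (p j * Real.log (p j))) -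
        ∑ j, p j * (pe D sp i (ψ j) - (1 / 2) * kinE D sp i (ψ j)) + D.charge (sp i) * Φ) -
        C * (1 + 1 / T) * (1 + κ) - lam) ≤ T * (G + Real.log Z) :=
        mul_le_mul_of_nonneg_left (h3.trans (by linarith)) hT.le
      have e5 : ∀ a b c d e : ℝ, T * (-(1 / T) * (a - b + c) - d - e) =
          -(a - b + c) - T * d - T * e := by
        intro a b c d e
        field_simp
      rw [e5] at h6
      exact h6
    have h7 : q i = ∑ j, p j * (pe D sp i (ψ j) - (1 / 2) * kinE D sp i (ψ j)) - T * lam := by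
      rw [hlam]
    rw [h7, hK1]
    have h8 : 0 ≤ T * G * κ := by positivity
    have e6 : (1 + T * G + T * (C * (1 + 1 / T))) * (1 + κ) = 1 + κ + T * G + T * G * κ +
      T * (C * (1 + 1 / T) * (1 + κ)) := by ring
    rw [e6]
    have e7 : T * (G + Real.log Z) = T * G + T * Real.log Z := by ring
    rw [e7] at h5
    linarith
  have hmove2 : ∀ i, q i ≤ D.charge (sp i) * Φ + K1 * (1 + W0) := by
    intro i
    refine (hmove i).trans ?_
    have := mul_le_mul_of_nonneg_left (show 1 + κ ≤ 1 + W0 by linarith) hK10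
    linarith
  have hstab : -A2 * (Fintype.card I : ℝ) ≤ ∑ i, q i := by
    have s1 : -(8 * |A|) * (Fintype.card I : ℝ) ≤
        ∑ i, ∑ j, p j * (pe D sp i (ψ j) - (1 / 2) * kinE D sp i (ψ j)) := by
      rw [Finset.sum_comm]
      have s2 : ∀ j, -(8 * |A|) * (Fintype.card I : ℝ) ≤
          ∑ i, (pe D sp i (ψ j) - (1 / 2) * kinE D sp i (ψ j)) := by
        intro j
        have := sum_pe_half D hD |A| sp (fun ℓ hℓ Φ hΦ => hAA sp ℓ hℓ Φ hΦ) ℓ hℓ (ψ j) (hψ j)
        rw [hn1 j, mul_one] at this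
        exact this
      have s3 : ∀ j, p j * (-(8 * |A|) * (Fintype.card I : ℝ)) ≤
          ∑ i, p j * (pe D sp i (ψ j) - (1 / 2) * kinE D sp i (ψ j)) := by
        intro j
        rw [← Finset.mul_sum]
        exact mul_le_mul_of_nonneg_left (s2 j) (hp j)
      refine le_trans ?_ (Finset.sum_le_sum fun j _ => s3 j)
      rw [← Finset.sum_mul, hp1, one_mul]
    have s4 : ∑ i, T * (L (sp i) - Real.log (cnt sp (sp i))) ≤
        T * ((Fintype.card S : ℝ) * W) * (Fintype.card I : ℝ) := by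
      rw [cl_fib sp (fun i => T * (L (sp i) - Real.log (cnt sp (sp i))))
        (fun s => T * (L s - Real.log (cnt sp s))) (fun _ => rfl)]
      have s5 : ∀ s, (cnt sp s : ℝ) * (T * (L s - Real.log (cnt sp s))) ≤
          T * (W * (Fintype.card I : ℝ)) := by
        intro s
        have := cl_ent (cnt sp s) (L s) (W * (Fintype.card I : ℝ)) (hLW s)
        have e : (cnt sp s : ℝ) * (T * (L s - Real.log (cnt sp s))) =
          -(T * ((cnt sp s : ℝ) * (Real.log (cnt sp s) - L s))) := by ring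
        rw [e]
        have := mul_le_mul_of_nonneg_left this hT.le
        linarith
      refine (Finset.sum_le_sum fun s _ => s5 s).trans (le_of_eq ?_)
      rw [Finset.sum_const, Finset.card_univ, nsmul_eq_mul]
      ring
    have e : ∑ i, q i = ∑ i, ∑ j, p j * (pe D sp i (ψ j) - (1 / 2) * kinE D sp i (ψ j)) -
        ∑ i, T * (L (sp i) - Real.log (cnt sp (sp i))) := by
      rw [← Finset.sum_sub_distrib]
    rw [e, hA2]
    linarith
  have hsymm : ∀ i, sp i = sp i1 → q i = q i1 := by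
    intro i hi
    show ∑ j, p j * (pe D sp i (ψ j) - (1 / 2) * kinE D sp i (ψ j)) -
      T * (L (sp i) - Real.log (cnt sp (sp i))) = ∑ j, p j * (pe D sp i1 (ψ j) -
      (1 / 2) * kinE D sp i1 (ψ j)) - T * (L (sp i1) - Real.log (cnt sp (sp i1)))
    rw [hi]
    congr 1
    refine Finset.sum_congr rfl fun j _ => ?_
    obtain ⟨a1, a2⟩ := pe_symm D sp ℓ (ψ j) (hψ j) i i1 hi
    rw [a1, a2]
  have hcore := RGR2.gr_core sp i1 c⁻¹ (by positivity) (by
    rw [inv_mul_eq_div, le_div_iff₀ hc]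
    linarith) D.charge hneu q hsymm Φ (K1 * (1 + W0)) A2 hstab hmove2
    (by positivity) (by positivity)
  rw [abs_le] at hcore
  -- the chemical potential term is bounded below
  have hcnt : (0 : ℝ) < cnt sp (sp i1) := by
    have : 0 < c * (Fintype.card I : ℝ) := by positivity
    linarith
  have hlow : -M ≤ L (sp i1) - Real.log (cnt sp (sp i1)) := by
    have h1 := hLM (sp i1)
    have h2 : Real.log (cnt sp (sp i1)) - L (sp i1) ≤ M := by
      have h3 : Real.exp (Real.log (cnt sp (sp i1)) - L (sp i1)) ≤ M := by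
        rw [Real.exp_sub, Real.exp_log hcnt, div_eq_mul_inv, ← Real.exp_neg]
        exact h1
      have h4 := Real.add_one_le_exp (Real.log (cnt sp (sp i1)) - L (sp i1))
      linarith
    linarith
  have hq1 : q i1 = ∑ j, p j * (pe D sp i1 (ψ j) - (1 / 2) * kinE D sp i1 (ψ j)) -
    T * (L (sp i1) - Real.log (cnt sp (sp i1))) := rfl
  have h9 := mul_le_mul_of_nonneg_left hlow hT.le
  have h10 := hcore.2
  rw [hq1] at h10
  linarith

/-- TARGET -/
theorem group_removalT {S : Type} [Fintype S] [DecidableEq S] (D : Species S) (hD : D.Valid)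
    (hst : HStable D) (hf : ∀ s, D.charge s < 0 → D.fermion s = true) (T V ρ c : ℝ) (hT : 0 < T)
    (hV : 0 < V) (hρ : 0 < ρ)
    (hc : 0 < c) (sP sN : S) (p q : ℕ) (hp : 0 < p) (hq : 0 < q) (hcP : D.charge sP = p)
    (hcN : D.charge sN = -(q : ℝ)) : ∃ C : ℝ, 0 < C ∧
    ∀ {I J : Type} [Fintype I] [DecidableEq I] [Fintype J] [DecidableEq J] (sp : I → S)
      (sp' : J → S) (ℓ : ℝ), 4 ≤ ℓ → ℓ ^ 3 ≤ V * (Fintype.card I : ℝ) →
      (Fintype.card I : ℝ) ≤ ρ * ℓ ^ 3 →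
      (∑ i, D.charge (sp i) = 0) → c * (Fintype.card I : ℝ) ≤ cnt sp sP →
      c * (Fintype.card I : ℝ) ≤ cnt sp sN →
      (∀ s, cnt sp s = cnt sp' s + (if s = sP then q else 0) + (if s = sN then p else 0)) →
      -T * Real.log (sSup (peierls D sp' ℓ T)) ≤ -T * Real.log (sSup (peierls D sp ℓ T)) + C := by
  have hPN : sP ≠ sN := by
    intro h
    rw [h, hcN] at hcP
    have h1 : (0 : ℝ) < p := by exact_mod_cast hp
    have h2 : (0 : ℝ) < q := by exact_mod_cast hq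
    linarith
  obtain ⟨m, hm0, hm⟩ : ∃ m : ℝ, 0 < m ∧ ∀ s, D.mass s ≤ m := by
    refine ⟨1 + ∑ s, D.mass s, ?_, fun s => ?_⟩
    · have : 0 ≤ ∑ s, D.mass s := Finset.sum_nonneg fun s _ => (hD.mass_pos s).le
      linarith
    · have := Finset.single_le_sum (f := D.mass) (fun t _ => (hD.mass_pos t).le)
        (Finset.mem_univ s)
      linarith
  have hk0 : 0 ≤ ∫ z, kk z := integral_nonneg kk_nonneg
  obtain ⟨W0, hW0⟩ : ∃ W0 : ℝ, W0 = 4 * (1 + (∫ z, kk z) * ρ) := ⟨_, rfl⟩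
  have hW00 : 0 < W0 := by rw [hW0]; positivity
  obtain ⟨C1, hC1, hkb⟩ := kin_boundT D hD hf T V ρ hT hV hρ
  obtain ⟨Cs, hCs, hslice⟩ := group_sliceT D hD T (1 / 2) V c (p + q) hT (by norm_num) hV hc
  obtain ⟨C', hC'0, hflat⟩ := k5_flat D hD hst T V ρ c W0 hT hV hρ hc hW00.le
  obtain ⟨W, hW⟩ : ∃ W : ℝ, W = 1 + 8 * m * (C1 / c) := ⟨_, rfl⟩
  have hWp : 0 < W := by rw [hW]; positivity
  have hpR : (0 : ℝ) < p := by exact_mod_cast hp
  have hqR : (0 : ℝ) < q := by exact_mod_cast hq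
  refine ⟨1 + T * |Real.log Cs| + ((p : ℝ) + q) * C' +
    1 / 2 * (((p : ℝ) + q) ^ 2 * (((p : ℝ) + q) ^ 2 * W)), by positivity, ?_⟩
  intro I J _ _ _ _ sp sp' ℓ hℓ hlV hN hneu haP haN hcnt
  have hℓ0 : 0 < ℓ := by linarith
  -- the group
  have hqle : q ≤ (Finset.univ.filter (fun i => sp i = sP)).card := by
    have h1 := hcnt sP
    rw [if_pos rfl] at h1
    unfold cnt at h1
    omega
  have hple : p ≤ (Finset.univ.filter (fun i => sp i = sN)).card := by
    have h1 := hcnt sN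
    rw [if_pos rfl] at h1
    unfold cnt at h1
    omega
  obtain ⟨G1, hG1, hG1c⟩ := Finset.exists_subset_card_eq hqle
  obtain ⟨G2, hG2, hG2c⟩ := Finset.exists_subset_card_eq hple
  have hs1 : ∀ i ∈ G1, sp i = sP := fun i hi => (Finset.mem_filter.1 (hG1 hi)).2
  have hs2 : ∀ i ∈ G2, sp i = sN := fun i hi => (Finset.mem_filter.1 (hG2 hi)).2
  have hdisj : Disjoint G1 G2 := by
    rw [Finset.disjoint_left]
    intro i h1 h2
    exact hPN ((hs1 i h1).symm.trans (hs2 i h2))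
  have hGcnt : ∀ s, cnt sp s = cnt sp' s + ((G1 ∪ G2).filter (fun i => sp i = s)).card := by
    intro s
    rw [hcnt s, Finset.filter_union, Finset.card_union_of_disjoint
      (Finset.disjoint_filter_filter hdisj)]
    have e1 : (G1.filter (fun i => sp i = s)).card = if s = sP then q else 0 := by
      by_cases h : s = sP
      · rw [if_pos h, Finset.filter_true_of_mem (fun i hi => (hs1 i hi).trans h.symm), hG1c]
      · rw [if_neg h, Finset.filter_false_of_mem (fun i hi h2 => h (h2.symm.trans (hs1 i hi))),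
          Finset.card_empty]
    have e2 : (G2.filter (fun i => sp i = s)).card = if s = sN then p else 0 := by
      by_cases h : s = sN
      · rw [if_pos h, Finset.filter_true_of_mem (fun i hi => (hs2 i hi).trans h.symm), hG2c]
      · rw [if_neg h, Finset.filter_false_of_mem (fun i hi h2 => h (h2.symm.trans (hs2 i hi))),
          Finset.card_empty]
    rw [e1, e2, add_assoc]
  -- the mixture
  obtain ⟨k, w, ψ, hNE⟩ := k5_ne D hD hst sp ℓ T hℓ0 hT
  obtain ⟨-, hZ'pos⟩ := peierls_pos D hD hst sp' ℓ T hℓ0 hT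
  have hbdd' := peierls_bdd D hD hst sp' ℓ T hℓ0 hT
  obtain ⟨Z, hZ⟩ : ∃ Z, Z = sSup (peierls D sp ℓ T) := ⟨_, rfl⟩
  obtain ⟨Z', hZ'⟩ : ∃ Z', Z' = sSup (peierls D sp' ℓ T) := ⟨_, rfl⟩
  have hZ'le : ∀ z ∈ peierls D sp' ℓ T, z ≤ Z' := fun z hz => by
    rw [hZ']; exact le_csSup hbdd' hz
  rw [← hZ] at hNE ⊢
  rw [← hZ'] at hZ'pos ⊢
  have hkin := (hkb sp ℓ hℓ hlV hN hneu 1 Z zero_le_one le_rfl w ψ hNE).1
  have hψ := hNE.state
  have hn1 := hNE.nrm
  have hw := hNE.p0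
  have hw1 := hNE.p1
  obtain ⟨y, hy, hwy⟩ := k5_center D sp ℓ ρ hℓ hρ.le hN ψ hψ hn1 w hw hw1
  rw [← hW0] at hwy
  -- abundance in the group
  have hab : ∀ i ∈ G1 ∪ G2, c * (Fintype.card I : ℝ) ≤ cnt sp (sp i) := by
    intro i hi
    rcases Finset.mem_union.1 hi with h | h
    · rw [hs1 i h]; exact haP
    · rw [hs2 i h]; exact haN
  have hch : ∀ i ∈ G1 ∪ G2, |D.charge (sp i)| ≤ (p : ℝ) + q := by
    intro i hi
    rcases Finset.mem_union.1 hi with h | h
    · rw [hs1 i h, hcP, abs_of_pos hpR]; linarith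
    · rw [hs2 i h, hcN, abs_neg, abs_of_pos hqR]; linarith
  have hcardN : (G1 ∪ G2).card = p + q := by
    rw [Finset.card_union_of_disjoint hdisj, hG1c, hG2c]
    ring
  have hcardG : ((G1 ∪ G2).card : ℝ) = (p : ℝ) + q := by
    rw [hcardN]
    push_cast
    ring
  -- energies of the group
  obtain ⟨U, hU⟩ : ∃ U : ℝ, U = ∑ j, w j * phim D sp (ψ j) y := ⟨_, rfl⟩
  obtain ⟨Q, hQ⟩ : ∃ Q : I → ℝ, Q = fun i => ∑ j, w j * (pe D sp i (ψ j) -
    (1 / 2) * kinE D sp i (ψ j)) := ⟨_, rfl⟩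
  have hfl : ∀ i ∈ G1 ∪ G2, D.charge (sp i) * U - C' ≤ Q i := by
    intro i hi
    rw [hU, hQ]
    exact hflat sp ℓ Z hℓ hlV hN hneu w ψ hNE y hy hwy i (hab i hi)
  have hsumpe : -(((p : ℝ) + q) * C') ≤ ∑ i ∈ G1 ∪ G2, Q i := by
    rw [Finset.sum_union hdisj]
    have h1 : (q : ℝ) * (p * U - C') ≤ ∑ i ∈ G1, Q i := by
      have : ∑ i ∈ G1, ((p : ℝ) * U - C') ≤ ∑ i ∈ G1, Q i := by
        refine Finset.sum_le_sum fun i hi => ?_
        have h2 := hfl i (Finset.mem_union_left _ hi)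
        rw [hs1 i hi, hcP] at h2
        exact h2
      rw [Finset.sum_const, hG1c, nsmul_eq_mul] at this
      exact this
    have h2 : (p : ℝ) * (-(q : ℝ) * U - C') ≤ ∑ i ∈ G2, Q i := by
      have : ∑ i ∈ G2, (-(q : ℝ) * U - C') ≤ ∑ i ∈ G2, Q i := by
        refine Finset.sum_le_sum fun i hi => ?_
        have h2 := hfl i (Finset.mem_union_right _ hi)
        rw [hs2 i hi, hcN] at h2
        exact h2
      rw [Finset.sum_const, hG2c, nsmul_eq_mul] at this
      exact this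
    linarith
  obtain ⟨R, hR⟩ : ∃ R : Fin k → ℝ, R = fun j => ∑ i ∈ G1 ∪ G2, ∑ i' ∈ G1 ∪ G2,
      (if i = i' then 0 else
        D.charge (sp i) * D.charge (sp i') * wm D (fun x => 1 / ‖x i - x i'‖) (ψ j)) := ⟨_, rfl⟩
  have hpairs : ∑ j, w j * R j ≤ ((p : ℝ) + q) ^ 2 * (((p : ℝ) + q) ^ 2 * W) := by
    have hterm : ∀ i ∈ G1 ∪ G2, ∀ i' ∈ G1 ∪ G2, ∑ j, w j * (if i = i' then 0 else
        D.charge (sp i) * D.charge (sp i') * wm D (fun x => 1 / ‖x i - x i'‖) (ψ j)) ≤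
        ((p : ℝ) + q) ^ 2 * W := by
      intro i hi i' hi'
      by_cases hij : i = i'
      · simp only [if_pos hij, mul_zero, Finset.sum_const_zero]; positivity
      · simp only [if_neg hij]
        have hmi := hm (sp i)
        have hmi0 := hD.mass_pos (sp i)
        have w1 : ∀ j, 0 ≤ wm D (fun x => 1 / ‖x i - x i'‖) (ψ j) ∧
            wm D (fun x => 1 / ‖x i - x i'‖) (ψ j) ≤ 1 + 8 * m * kinE D sp i (ψ j) := by
          intro j
          obtain ⟨w0, w1⟩ := RGR2.gr_pair D hD sp ℓ (ψ j) (hψ j) i i' (Ne.symm hij)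
          refine ⟨w0, w1.trans ?_⟩
          rw [hn1 j]
          have k0 := k5_kinE_nonneg D hD sp i (ψ j)
          have : 8 * D.mass (sp i) * kinE D sp i (ψ j) ≤ 8 * m * kinE D sp i (ψ j) :=
            mul_le_mul_of_nonneg_right (by linarith) k0
          linarith
        have w2 : ∑ j, w j * wm D (fun x => 1 / ‖x i - x i'‖) (ψ j) ≤ W := by
          calc ∑ j, w j * wm D (fun x => 1 / ‖x i - x i'‖) (ψ j)
              ≤ ∑ j, w j * (1 + 8 * m * kinE D sp i (ψ j)) :=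
                Finset.sum_le_sum fun j _ => mul_le_mul_of_nonneg_left (w1 j).2 (hw j)
            _ = 1 + 8 * m * ∑ j, w j * kinE D sp i (ψ j) := by
                simp only [mul_add, mul_one]
                rw [Finset.sum_add_distrib, hw1, Finset.mul_sum]
                congr 1
                refine Finset.sum_congr rfl fun j _ => ?_
                ring
            _ ≤ W := by
                rw [hW]
                have := k5_kin D hD sp ℓ c C1 hc w hw ψ hψ hkin i (hab i hi)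
                have := mul_le_mul_of_nonneg_left this (show 0 ≤ 8 * m by positivity)
                linarith
        have w0 : 0 ≤ ∑ j, w j * wm D (fun x => 1 / ‖x i - x i'‖) (ψ j) :=
          Finset.sum_nonneg fun j _ => mul_nonneg (hw j) (w1 j).1
        have h3 : D.charge (sp i) * D.charge (sp i') ≤ ((p : ℝ) + q) ^ 2 := by
          refine (le_abs_self _).trans ?_
          rw [abs_mul, sq]
          exact mul_le_mul (hch i hi) (hch i' hi') (abs_nonneg _) (by positivity)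
        calc ∑ j, w j * (D.charge (sp i) * D.charge (sp i') *
              wm D (fun x => 1 / ‖x i - x i'‖) (ψ j))
            = D.charge (sp i) * D.charge (sp i') *
              ∑ j, w j * wm D (fun x => 1 / ‖x i - x i'‖) (ψ j) := by
              rw [Finset.mul_sum]
              refine Finset.sum_congr rfl fun j _ => ?_
              ring
          _ ≤ ((p : ℝ) + q) ^ 2 * ∑ j, w j * wm D (fun x => 1 / ‖x i - x i'‖) (ψ j) :=
              mul_le_mul_of_nonneg_right h3 w0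
          _ ≤ ((p : ℝ) + q) ^ 2 * W := mul_le_mul_of_nonneg_left w2 (by positivity)
    have e1 : ∑ j, w j * R j = ∑ i ∈ G1 ∪ G2, ∑ i' ∈ G1 ∪ G2, ∑ j, w j *
        (if i = i' then 0 else
        D.charge (sp i) * D.charge (sp i') * wm D (fun x => 1 / ‖x i - x i'‖) (ψ j)) := by
      rw [hR]
      simp only [Finset.mul_sum]
      rw [Finset.sum_comm]
      refine Finset.sum_congr rfl fun i _ => ?_
      rw [Finset.sum_comm]
    rw [e1]
    calc ∑ i ∈ G1 ∪ G2, ∑ i' ∈ G1 ∪ G2, ∑ j, w j * (if i = i' then 0 else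
        D.charge (sp i) * D.charge (sp i') * wm D (fun x => 1 / ‖x i - x i'‖) (ψ j))
        ≤ ∑ i ∈ G1 ∪ G2, ∑ i' ∈ G1 ∪ G2, ((p : ℝ) + q) ^ 2 * W :=
          Finset.sum_le_sum fun i hi => Finset.sum_le_sum fun i' hi' => hterm i hi i' hi'
      _ = ((p : ℝ) + q) ^ 2 * (((p : ℝ) + q) ^ 2 * W) := by
          rw [Finset.sum_const, Finset.sum_const, nsmul_eq_mul, nsmul_eq_mul, hcardG]
          ring
  have hsl := hslice sp sp' (G1 ∪ G2) hcardN.le hGcnt ℓ (by linarith) hlV hab Z' hZ'le ψ hψ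
    hNE.sg hn1
  have h2 := (gibbs_fin w _ hw hw1).trans hsl
  have h3 := (Real.le_log_iff_exp_le (mul_pos hCs hZ'pos)).2 h2
  rw [Real.log_mul hCs.ne' hZ'pos.ne'] at h3
  have e1 : ∑ j, (w j * (-(energy D sp (ψ j) - (∑ i ∈ G1 ∪ G2, pe D sp i (ψ j)) +
        1 / 2 * (∑ i ∈ G1 ∪ G2, ∑ i' ∈ G1 ∪ G2, if i = i' then 0 else
          D.charge (sp i) * D.charge (sp i') * wm D (fun x => 1 / ‖x i - x i'‖) (ψ j)) +
        1 / 2 * ∑ i ∈ G1 ∪ G2, kinE D sp i (ψ j)) / T) - w j * Real.log (w j)) =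
      -(1 / T) * (∑ j, (w j * energy D sp (ψ j) + T * (w j * Real.log (w j))) -
        ∑ i ∈ G1 ∪ G2, Q i + 1 / 2 * ∑ j, w j * R j) := by
    have e2 : ∑ i ∈ G1 ∪ G2, Q i = ∑ j, w j * ((∑ i ∈ G1 ∪ G2, pe D sp i (ψ j)) -
        1 / 2 * ∑ i ∈ G1 ∪ G2, kinE D sp i (ψ j)) := by
      rw [hQ]
      simp only
      rw [Finset.sum_comm]
      refine Finset.sum_congr rfl fun j _ => ?_
      rw [← Finset.mul_sum, Finset.sum_sub_distrib, ← Finset.mul_sum]
    rw [e2, hR, Finset.mul_sum, ← Finset.sum_sub_distrib, ← Finset.sum_add_distrib,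
      Finset.mul_sum]
    refine Finset.sum_congr rfl fun j _ => ?_
    field_simp
    ring
  rw [e1] at h3
  have h6 : T * (-(1 / T) * (∑ j, (w j * energy D sp (ψ j) + T * (w j * Real.log (w j))) -
        ∑ i ∈ G1 ∪ G2, Q i + 1 / 2 * ∑ j, w j * R j)) ≤ T * (Real.log Cs + Real.log Z') :=
    mul_le_mul_of_nonneg_left h3 hT.le
  have e5 : ∀ a : ℝ, T * (-(1 / T) * a) = -a := by
    intro a
    field_simp
  rw [e5] at h6
  have h7 := mul_le_mul_of_nonneg_left (le_abs_self (Real.log Cs)) hT.le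
  have h8 := hNE.free
  linarith

end Pool.Agent.Helper780_CP.RKT5
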