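import Pool.Agent.Helper780_CP.LLDefs2
import Pool.Agent.Helper780_CP.LPDefs
import Pool.Agent.Helper780_CP.RMI
import Pool.Agent.Helper780_CP.RMC2
import Pool.Agent.Helper780_CP.RINS1
import Pool.Agent.Helper780_CP.MoveT

set_option autoImplicit false

open MeasureTheory
open scoped Topology

namespace Pool.Agent.Helper780_CP.RKT6

open Pool.Agent.Helper780_CP
open Pool.Agent.Helper985.CP

open Pool.Agent.Helper780_CP Pool.Agent.Helper985.CP

open Pool.Agent.Helper780_CP.RINS1 (ig_scale ig_disj ig_ins0)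
open Pool.Agent.Helper780_CP.RMC2 (multiD)
open Pool.Agent.Helper780_CP.RMI

theorem k6_insN_w {S : Type} [DecidableEq S] (D : Species S) {I : Type} [Fintype I]
    [DecidableEq I] (sp : I → S) (ℓ : ℝ) (s : S) (σ0 : Fin D.g) (φ : E3 → ℝ)
    (hφ : ContDiff ℝ SM φ) (hφc : HasCompactSupport φ) (hφ1 : ∫ z, φ z ^ 2 = 1)
    (Ψ : Wave D I) (hΨ : IsState D sp ℓ Ψ)
    (hv : ∀ τ x i, sp i = s → x i ∈ tsupport φ → Ψ τ x = 0) (w : S → E3 → ℝ)
    (hw : ∀ t, LocallyIntegrable (w t) volume) :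
    wm D (fun x : Option I → E3 => ∑ o : Option I, w (o.elim s sp) (x o))
        (insN D sp s σ0 φ Ψ) =
      wm D (fun x => ∑ i, w (sp i) (x i)) Ψ + (∫ z, w s z * φ z ^ 2) * nrm2 D Ψ := by
  obtain ⟨n, hn⟩ : ∃ n : ℝ, n = ((Finset.univ.filter (fun i => sp i = s)).card : ℝ) + 1 := ⟨_, rfl⟩
  have hnpos : 0 < n := by rw [hn]; positivity
  have hr : (1 / Real.sqrt n) ^ 2 * n = 1 := by
    rw [div_pow, one_pow, Real.sq_sqrt hnpos.le]
    field_simp
  have hins : insN D sp s σ0 φ Ψ = fun τ x => ((1 / Real.sqrt n : ℝ) : ℂ) * ins1 D sp s σ0 φ Ψ τ x := by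
    rw [hn]; rfl
  rw [hins, ig_scale, ig_disj D sp ℓ s σ0 φ hφ hφc Ψ hΨ hv w hw, ← hn, ← mul_assoc, hr, one_mul,
    ig_ins0 D sp ℓ s σ0 φ hφ hφc hφ1 Ψ hΨ w hw]

theorem k6_wm_zero {S : Type} (D : Species S) {I : Type} [Fintype I] [DecidableEq I]
    (W : (I → E3) → ℝ) : wm D W (0 : Wave D I) = 0 := by
  unfold wm
  refine Finset.sum_eq_zero fun τ _ => ?_
  simp

theorem k6_qf_zero {S : Type} (D : Species S) {I : Type} [Fintype I] [DecidableEq I] (sp : I → S)
    (a : I → ℝ) (W : (I → E3) → ℝ) : qf D sp a W (0 : Wave D I) = 0 := by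
  unfold qf
  refine Finset.sum_eq_zero fun τ _ => ?_
  have : ∀ x : I → E3, ((∑ l, a l * kin D sp l ((0 : Wave D I) τ) x) +
      W x * ‖(0 : Wave D I) τ x‖ ^ 2) = 0 := by
    intro x
    have hk0 : ∀ l, kin D sp l ((0 : Wave D I) τ) x = 0 := by
      intro l
      unfold kin
      have : fderiv ℝ ((0 : Wave D I) τ) x = 0 := by
        have : ((0 : Wave D I) τ) = fun _ => (0 : ℂ) := rfl
        rw [this]
        exact fderiv_const_apply 0
      rw [this]
      simp
    rw [Finset.sum_eq_zero (fun l _ => by rw [hk0 l, mul_zero])]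
    simp
  simp only [this, integral_zero]

theorem k6_step {S : Type} [Fintype S] [DecidableEq S] (D : Species S) (hD : D.Valid)
    (hst : HStable D) (T δ : ℝ) (hT : 0 < T) (hδ : 0 < δ) (hδ1 : δ ≤ 1) :
    ∃ C C' : ℝ, 0 < C ∧ 0 < C' ∧ ∀ (ℓ : ℝ), 0 < ℓ → ∀ (Zb : (S → ℕ) → ℝ)
      (s : S) (y : E3) (L : List (S × E3)), Metric.closedBall y δ ⊆ cube ℓ →
        (∀ p ∈ L, y ≠ p.2) →
      (∀ {I : Type} [Fintype I] [DecidableEq I] (sp : I → S) {k : ℕ} (ψ : Fin k → Wave D I),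
        (∀ j, IsState D sp ℓ (ψ j)) → SG D ψ →
        ∑ j, nrm2 D (ψ j) * Real.exp (-(energy D sp (ψ j) +
          (L.map (fun p => D.charge p.1 * phim D sp (ψ j) p.2 +
            C * (nrm2 D (ψ j) + kkm D (ψ j) p.2))).sum + prs D C' L * nrm2 D (ψ j)) /
              (T * nrm2 D (ψ j))) ≤
        Zb (fun s => cnt sp s + L.countP (fun p => decide (p.1 = s)))) →
      ∀ {I : Type} [Fintype I] [DecidableEq I] (sp : I → S) {k : ℕ} (ψ : Fin k → Wave D I),
        (∀ j, IsState D sp ℓ (ψ j)) → SG D ψ →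
        ∑ j, nrm2 D (ψ j) * Real.exp (-(energy D sp (ψ j) +
          ((((s, y) :: L : List (S × E3))).map (fun p => D.charge p.1 * phim D sp (ψ j) p.2 +
            C * (nrm2 D (ψ j) + kkm D (ψ j) p.2))).sum + prs D C' ((s, y) :: L) * nrm2 D (ψ j)) /
              (T * nrm2 D (ψ j))) ≤
        Zb (fun t => cnt sp t + (((s, y) :: L : List (S × E3))).countP
          (fun p => decide (p.1 = t))) := by
  obtain ⟨C₁, hC₁, H'⟩ := multiD D hD
  obtain ⟨Z, hZ⟩ : ∃ Z : ℝ, ∀ s t, |D.charge s * D.charge t| ≤ Z := by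
    obtain ⟨Z, hZ⟩ := (Set.finite_range
      (fun p : S × S => |D.charge p.1 * D.charge p.2|)).bddAbove
    exact ⟨Z, fun s t => hZ ⟨(s, t), rfl⟩⟩
  obtain ⟨Z', hZ'0, hZ'⟩ : ∃ Z' : ℝ, 0 ≤ Z' ∧ ∀ s t, |D.charge s * D.charge t| ≤ Z' :=
    ⟨max Z 0, le_max_right _ _, fun s t => (hZ s t).trans (le_max_left _ _)⟩
  obtain ⟨Cd, hCd⟩ : ∃ Cd, Cd = C₁ / δ ^ 2 := ⟨_, rfl⟩
  have hCd0 : 0 < Cd := by rw [hCd]; positivity
  obtain ⟨C, hC⟩ : ∃ C, C = (3 + 2 * T) * Cd := ⟨_, rfl⟩
  have hC0 : 0 < C := by rw [hC]; positivity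
  obtain ⟨C', hC'⟩ : ∃ C', C' = (Z' + C) * C₁ := ⟨_, rfl⟩
  refine ⟨C, C', hC0, by rw [hC']; positivity, ?_⟩
  intro ℓ hℓ Zb s y L hy hL IH I _ _ sp k ψ hψ hSG
  obtain ⟨g, h, φ, ⟨g1, g2, g3⟩, ⟨h1, h2, h3⟩, hφ, hvan, hpot, hn1, hsup, hn2, hqf, hwm, hcost,
    hlim⟩ := H' δ hδ hδ1 (I := I) sp ℓ y hy
  obtain ⟨σ0, hσ0⟩ := hD.spin_nonempty s
  rw [← hCd] at hqf hcost
  -- abbreviations
  obtain ⟨E, hE⟩ : ∃ E : ℝ, E = Zb (fun t => cnt sp t + (((s, y) :: L : List (S × E3))).countP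
          (fun p => decide (p.1 = t))) := ⟨_, rfl⟩
  have hE2 : Zb (fun t => cnt (fun o : Option I => o.elim s sp) t +
      L.countP (fun p => decide (p.1 = t))) = E := by
    rw [hE]
    congr 1
    funext t
    rw [mi_cnt, List.countP_cons]
    simp only [decide_eq_true_eq]
    omega
  have hE0 : 0 ≤ E := by
    have h0 := IH (fun o : Option I => o.elim s sp) (k := 0) (fun j => j.elim0)
      (fun j => j.elim0) (by
        intro γ
        have h00 : (fun (τ : Option I → Fin D.g) (x : Option I → E3) =>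
            ∑ j : Fin 0, γ j * (Fin.elim0 j : Wave D (Option I)) τ x) = 0 := by
          funext τ x
          simp
        have h01 : nrm2 D (0 : Wave D (Option I)) = 0 := by
          rw [← wm_one]
          exact k6_wm_zero D _
        rw [h00, h01]
        simp)
    rw [hE2] at h0
    simpa using h0
  obtain ⟨W, hW⟩ : ∃ W : (I → E3) → ℝ, W = fun x => coul D sp x +
    (((s, y) :: L : List (S × E3)).map (fun p => D.charge p.1 *
      ∑ i, D.charge (sp i) * (1 / ‖x i - p.2‖))).sum := ⟨_, rfl⟩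
  have hWI : WI D sp ℓ W := by
    rw [hW]
    exact WI_add D sp ℓ (WI_coul D sp ℓ) (mi_listWI D sp ℓ _ _ (mi_WIc D sp ℓ))
  have hq1 : ∀ Φ : Wave D I, IsState D sp ℓ Φ → qf D sp (fun _ => 1) W Φ =
      energy D sp Φ + (D.charge s * phim D sp Φ y +
        (L.map (fun p => D.charge p.1 * phim D sp Φ p.2)).sum) := by
    intro Φ hΦ
    rw [hW, mi_qf D sp ℓ _ Φ hΦ, List.map_cons, List.sum_cons]
  obtain ⟨U, hU⟩ : ∃ U : (I → E3) → ℝ, U = fun x =>
    (L.map (fun p : S × E3 => 1 + ∑ i, kk (x i - p.2))).sum := ⟨_, rfl⟩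
  have hUI : WI D sp ℓ U := by
    rw [hU]
    exact mi_listWI D sp ℓ L _ (mi_WIu D sp ℓ)
  have hU1 : ∀ Φ : Wave D I, IsState D sp ℓ Φ → wm D U Φ =
      (L.map (fun p => nrm2 D Φ + kkm D Φ p.2)).sum := by
    intro Φ hΦ
    rw [hU]
    exact mi_U D sp ℓ L Φ hΦ
  have hUn : ∀ x, 0 ≤ U x := by
    intro x
    rw [hU]
    refine List.sum_nonneg fun a ha => ?_
    obtain ⟨p, -, rfl⟩ := List.mem_map.1 ha
    have : 0 ≤ ∑ i, kk (x i - p.2) := Finset.sum_nonneg fun i _ => kk_nonneg _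
    linarith
  obtain ⟨P, hP⟩ : ∃ P, P = prs D C' ((s, y) :: L) := ⟨_, rfl⟩
  have hP2 : P = (L.map (fun q => D.charge s * D.charge q.1 / ‖y - q.2‖ +
      C' * kd (y - q.2))).sum + prs D C' L := by rw [hP]; rfl
  have hsg : ∀ j m, IsState D sp ℓ (mulW D (g m) (ψ j)) := fun j m =>
    mulW_state D sp ℓ (ψ j) (hψ j) (g m) (g1 m) (g2 m)
  have hsth : ∀ j m, IsState D sp ℓ (mulW D (h m) (ψ j)) := fun j m =>
    mulW_state D sp ℓ (ψ j) (hψ j) (h m) (h1 m) (h2 m)
  let n : Fin k → ℕ → ℝ := fun j m => nrm2 D (mulW D (g m) (ψ j))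
  let G : ℕ → ℝ := fun m => (1 / (2 * D.mass s)) * grad2 (φ m)
  let X : Fin k → ℕ → ℝ := fun j m => qf D sp (fun _ => 1) W (mulW D (g m) (ψ j)) + P * n j m +
    G m * n j m + C * wm D U (mulW D (g m) (ψ j))
  have hn0 : ∀ j m, 0 ≤ n j m := fun j m => nrm2_nn D _
  -- one scale
  have hone : ∀ m, ∑ j, n j m * Real.exp (-(X j m) / (T * n j m)) ≤ E := by
    intro m
    obtain ⟨p1, p2, p3, p4⟩ := hφ m
    have hvv : ∀ j τ x i, sp i = s → x i ∈ tsupport (φ m) → mulW D (g m) (ψ j) τ x = 0 := by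
      intro j τ x i _ hi
      unfold mulW
      rw [hvan m x i hi]
      simp
    have hprops := fun j => insN_props D hD sp ℓ s σ0 hσ0 (φ m) p1 p2 p3 p4
      (mulW D (g m) (ψ j)) (hsg j m) (hvv j)
    have hSG2 : SG D (fun j => insN D sp s σ0 (φ m) (mulW D (g m) (ψ j))) := by
      intro γ
      have e1 : (fun τ x => ∑ j, γ j * insN D sp s σ0 (φ m) (mulW D (g m) (ψ j)) τ x) =
          insN D sp s σ0 (φ m) (mulW D (g m) (fun τ x => ∑ j, γ j * ψ j τ x)) := by
        rw [← mulW_sum, MT_insN_lin]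
      rw [e1]
      have hcs : IsState D sp ℓ (fun τ x => ∑ j, γ j * ψ j τ x) := state_comb D sp ℓ ψ hψ γ
      have hp := insN_props D hD sp ℓ s σ0 hσ0 (φ m) p1 p2 p3 p4
        (mulW D (g m) (fun τ x => ∑ j, γ j * ψ j τ x))
        (mulW_state D sp ℓ _ hcs (g m) (g1 m) (g2 m)) (by
          intro τ x i _ hi
          unfold mulW
          rw [hvan m x i hi]
          simp)
      rw [hp.2.1]
      exact (mulW_nrm_le D sp ℓ _ hcs (g m) (g1 m).continuous (g3 m)).trans (hSG γ)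
    have hIH := IH (fun o : Option I => o.elim s sp)
      (fun j => insN D sp s σ0 (φ m) (mulW D (g m) (ψ j))) (fun j => (hprops j).1) hSG2
    rw [hE2] at hIH
    refine le_trans (Finset.sum_le_sum fun j _ => ?_) hIH
    obtain ⟨q1, q2, q3, -, -⟩ := hprops j
    have q4 := k6_insN_w D sp ℓ s σ0 (φ m) p1 p2 p4 (mulW D (g m) (ψ j)) (hsg j m) (hvv j)
    have e1 : mean D sp (mulW D (g m) (ψ j)) (pot (φ m)) = phim D sp (mulW D (g m) (ψ j)) y := by
      unfold phim mean
      refine Finset.sum_congr rfl fun τ _ => ?_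
      refine integral_congr_ae (Filter.Eventually.of_forall fun x => ?_)
      simp only
      by_cases hx : g m x = 0
      · unfold mulW
        rw [hx]
        simp
      · congr 1
        refine Finset.sum_congr rfl fun l _ => ?_
        rw [hpot m x hx l]
    have hpp := mi_pairs D sp ℓ hC₁.le hC0.le hδ1 hZ' s y (φ m) p1.continuous p2
      (hn1 m) (hsup m) (hn2 m) (mulW D (g m) (ψ j)) (insN D sp s σ0 (φ m) (mulW D (g m) (ψ j)))
      q2 q4 L hL
    rw [← hC', ← hU1 _ (hsg j m)] at hpp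
    rw [e1] at q3
    show n j m * _ ≤ _
    rw [q2]
    refine mul_le_mul_of_nonneg_left ?_ (hn0 j m)
    refine Real.exp_le_exp.2 ?_
    refine div_le_div_of_nonneg_right ?_ (mul_nonneg hT.le (hn0 j m))
    refine neg_le_neg ?_
    show _ ≤ qf D sp (fun _ => 1) W (mulW D (g m) (ψ j)) + P * nrm2 D (mulW D (g m) (ψ j)) +
      (1 / (2 * D.mass s)) * grad2 (φ m) * nrm2 D (mulW D (g m) (ψ j)) +
        C * wm D U (mulW D (g m) (ψ j))
    rw [hq1 _ (hsg j m), hP2, q3]
    rw [q2] at hpp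
    linarith
  -- all scales
  let N : Fin k → ℝ := fun j => nrm2 D (ψ j)
  let B0 : ℝ := sInf (energies D sp ℓ)
  let low : ℕ → Fin k → ℝ := fun K j => B0 * nrm2 D (mulW D (h K) (ψ j)) +
    (wm D W (mulW D (h K) (ψ j)) - wm D (coul D sp) (mulW D (h K) (ψ j)))
  let A : ℕ → Fin k → ℝ := fun K j => N j - nrm2 D (mulW D (h K) (ψ j))
  let Y : ℕ → Fin k → ℝ := fun K j => -(qf D sp (fun _ => 1) W (ψ j) +
    Cd * wm D (near2 y) (ψ j) - low K j + P * A K j + Cd * (N j + wm D (near2 y) (ψ j)) +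
      C * wm D U (ψ j)) / T - Cd * (N j + wm D (near2 y) (ψ j))
  have hAsum : ∀ K j, ∑ m ∈ Finset.range K, n j m = A K j := by
    intro K j
    have s2 := hwm (fun _ => 1) (WI_const D sp ℓ 1) (ψ j) (hψ j) K
    simp only [wm_one] at s2
    show ∑ m ∈ Finset.range K, nrm2 D (mulW D (g m) (ψ j)) =
      nrm2 D (ψ j) - nrm2 D (mulW D (h K) (ψ j))
    linarith
  have hA0 : ∀ K j, 0 ≤ A K j := by
    intro K j
    rw [← hAsum]
    exact Finset.sum_nonneg fun m _ => hn0 j m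
  have hlow : ∀ K j, low K j ≤ qf D sp (fun _ => 1) W (mulW D (h K) (ψ j)) := by
    intro K j
    have l1 : B0 * nrm2 D (mulW D (h K) (ψ j)) ≤ energy D sp (mulW D (h K) (ψ j)) :=
      (energies_basic D hD hst sp ℓ hℓ).2.2.1 _ (hsth j K)
    have l2 : wm D W (mulW D (h K) (ψ j)) = wm D (coul D sp) (mulW D (h K) (ψ j)) +
        (D.charge s * phim D sp (mulW D (h K) (ψ j)) y +
        (L.map (fun p => D.charge p.1 * phim D sp (mulW D (h K) (ψ j)) p.2)).sum) := by
      rw [hW, wm_add D sp ℓ (WI_coul D sp ℓ) (mi_listWI D sp ℓ _ _ (mi_WIc D sp ℓ)) _ (hsth j K),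
        mi_listwm D sp ℓ _ _ (mi_WIc D sp ℓ) _ (hsth j K), List.map_cons, List.sum_cons]
      congr 2
      · rw [wm_smul]
        rfl
      · congr 1
        refine List.map_congr_left fun p _ => ?_
        rw [wm_smul]
        rfl
    show B0 * nrm2 D (mulW D (h K) (ψ j)) +
      (wm D W (mulW D (h K) (ψ j)) - wm D (coul D sp) (mulW D (h K) (ψ j))) ≤ _
    rw [hq1 _ (hsth j K), l2]
    linarith
  have hnear0 : ∀ j, 0 ≤ wm D (near2 y) (ψ j) := fun j => mi_wm_nonneg D (near2_nonneg y) (ψ j)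
  have hYle : ∀ K j, Y K j ≤ ∑ m ∈ Finset.range K, (-(X j m) / T -
      n j m * (((m : ℝ) + 1) * Real.log 2)) := by
    intro K j
    have s1 := hqf (fun _ => 1) (fun j => by norm_num) W hWI (ψ j) (hψ j) K
    have s3 := hcost (ψ j) (hψ j) K s
    have s5 := hwm U hUI (ψ j) (hψ j) K
    have s4 := hlow K j
    have s6 : ∑ m ∈ Finset.range K, wm D U (mulW D (g m) (ψ j)) ≤ wm D U (ψ j) := by
      have := mi_wm_nonneg D hUn (mulW D (h K) (ψ j))
      linarith
    have s7 := mul_le_mul_of_nonneg_left s6 hC0.le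
    have hG0 : ∀ m, 0 ≤ G m * n j m := by
      intro m
      refine mul_nonneg (mul_nonneg ?_ ?_) (hn0 j m)
      · have := hD.mass_pos s
        positivity
      · unfold grad2
        exact integral_nonneg fun z => Finset.sum_nonneg fun l _ => sq_nonneg _
    have s8 : ∑ m ∈ Finset.range K, G m * n j m + ∑ m ∈ Finset.range K, ((m : ℝ) + 1) * n j m ≤
        Cd * (N j + wm D (near2 y) (ψ j)) := by
      rw [← Finset.sum_add_distrib]
      refine le_trans (le_of_eq ?_) s3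
      refine Finset.sum_congr rfl fun m _ => ?_
      show G m * n j m + ((m : ℝ) + 1) * n j m = (G m + ((m : ℝ) + 1)) * n j m
      ring
    have s9 : 0 ≤ ∑ m ∈ Finset.range K, G m * n j m := Finset.sum_nonneg fun m _ => hG0 m
    have s10 : 0 ≤ ∑ m ∈ Finset.range K, ((m : ℝ) + 1) * n j m :=
      Finset.sum_nonneg fun m _ => mul_nonneg (by positivity) (hn0 j m)
    have hlog : Real.log 2 ≤ 1 := by
      have := Real.log_two_lt_d9
      linarith
    have s11 : Real.log 2 * ∑ m ∈ Finset.range K, ((m : ℝ) + 1) * n j m ≤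
        Cd * (N j + wm D (near2 y) (ψ j)) := by
      calc Real.log 2 * ∑ m ∈ Finset.range K, ((m : ℝ) + 1) * n j m
          ≤ 1 * ∑ m ∈ Finset.range K, ((m : ℝ) + 1) * n j m :=
            mul_le_mul_of_nonneg_right hlog s10
        _ ≤ Cd * (N j + wm D (near2 y) (ψ j)) := by linarith
    have e1 : ∑ m ∈ Finset.range K, (-(X j m) / T - n j m * (((m : ℝ) + 1) * Real.log 2)) =
        -(∑ m ∈ Finset.range K, X j m) / T -
        Real.log 2 * ∑ m ∈ Finset.range K, ((m : ℝ) + 1) * n j m := by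
      rw [← Finset.sum_neg_distrib, Finset.sum_div, Finset.mul_sum, ← Finset.sum_sub_distrib]
      refine Finset.sum_congr rfl fun m _ => ?_
      ring
    have e2 : ∑ m ∈ Finset.range K, X j m =
        ∑ m ∈ Finset.range K, qf D sp (fun _ => 1) W (mulW D (g m) (ψ j)) + P * A K j +
        ∑ m ∈ Finset.range K, G m * n j m +
        C * ∑ m ∈ Finset.range K, wm D U (mulW D (g m) (ψ j)) := by
      rw [← hAsum, Finset.mul_sum, Finset.mul_sum, ← Finset.sum_add_distrib,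
        ← Finset.sum_add_distrib, ← Finset.sum_add_distrib]
    rw [e1, e2]
    show -(qf D sp (fun _ => 1) W (ψ j) +
      Cd * wm D (near2 y) (ψ j) - low K j + P * A K j + Cd * (N j + wm D (near2 y) (ψ j)) +
      C * wm D U (ψ j)) / T - Cd * (N j + wm D (near2 y) (ψ j)) ≤ _
    have e3 : ∑ m ∈ Finset.range K, qf D sp (fun _ => 1) W (mulW D (g m) (ψ j)) + P * A K j +
        ∑ m ∈ Finset.range K, G m * n j m +
        C * ∑ m ∈ Finset.range K, wm D U (mulW D (g m) (ψ j)) ≤ qf D sp (fun _ => 1) W (ψ j) +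
      Cd * wm D (near2 y) (ψ j) - low K j + P * A K j + Cd * (N j + wm D (near2 y) (ψ j)) +
      C * wm D U (ψ j) := by linarith
    have e4 := div_le_div_of_nonneg_right (neg_le_neg e3) hT.le
    linarith
  have hK : ∀ K, ∑ j, A K j * Real.exp (Y K j / A K j) ≤ E := by
    intro K
    have hj : ∀ j, A K j * Real.exp (Y K j / A K j) ≤ ∑ m : Fin K, ((2 : ℝ) ^ ((m : ℕ) + 1))⁻¹ *
        (n j m * Real.exp (-(X j m) / (T * n j m))) := by
      intro j
      have hx0 : ∀ m : Fin K, n j m = 0 → (-(X j m) / T -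
          n j m * ((((m : ℕ) : ℝ) + 1) * Real.log 2)) = 0 := by
        intro m hm
        have h0 : mulW D (g m) (ψ j) = 0 := by
          by_contra hne
          exact absurd hm (nrm2_pos D sp ℓ _ (hsg j m) hne).ne'
        have hz : X j m = 0 := by
          show qf D sp (fun _ => 1) W (mulW D (g m) (ψ j)) + P * n j m +
            G m * n j m + C * wm D U (mulW D (g m) (ψ j)) = 0
          rw [hm, h0, k6_qf_zero, k6_wm_zero]
          ring
        rw [hz, hm]
        simp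
      have hJ := MT_finjensen (fun m : Fin K => n j m) (fun m : Fin K =>
        (-(X j m) / T - n j m * ((((m : ℕ) : ℝ) + 1) * Real.log 2))) (fun m => hn0 j m) hx0
      have e1 : ∑ m : Fin K, n j m = A K j := by
        rw [← Finset.sum_range (fun m => n j m)]
        exact hAsum K j
      have e2 : ∑ m : Fin K, (-(X j m) / T - n j m * ((((m : ℕ) : ℝ) + 1) * Real.log 2)) =
          ∑ m ∈ Finset.range K, (-(X j m) / T - n j m * (((m : ℝ) + 1) * Real.log 2)) := by
        rw [← Finset.sum_range (fun m => (-(X j m) / T - n j m * (((m : ℝ) + 1) * Real.log 2)))]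
      rw [e1, e2] at hJ
      have hmono : A K j * Real.exp (Y K j / A K j) ≤ A K j * Real.exp
          ((∑ m ∈ Finset.range K, (-(X j m) / T -
            n j m * (((m : ℝ) + 1) * Real.log 2))) / A K j) := by
        refine mul_le_mul_of_nonneg_left ?_ (hA0 K j)
        refine Real.exp_le_exp.2 ?_
        exact div_le_div_of_nonneg_right (hYle K j) (hA0 K j)
      refine hmono.trans (hJ.trans (le_of_eq ?_))
      refine Finset.sum_congr rfl fun m _ => ?_
      rcases (hn0 j m).eq_or_lt with h0 | h0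
      · rw [← h0]; simp
      · have e3 : (-(X j m) / T - n j m * ((((m : ℕ) : ℝ) + 1) * Real.log 2)) / n j m =
            -(X j m) / (T * n j m) - (((m : ℕ) : ℝ) + 1) * Real.log 2 := by
          field_simp
        rw [e3, Real.exp_sub]
        have e4 : Real.exp ((((m : ℕ) : ℝ) + 1) * Real.log 2) = 2 ^ ((m : ℕ) + 1) := by
          rw [mul_comm, Real.exp_mul, Real.exp_log (by norm_num)]
          have : (((m : ℕ) : ℝ) + 1) = (((m : ℕ) + 1 : ℕ) : ℝ) := by push_cast; ring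
          rw [this, Real.rpow_natCast]
        rw [e4]
        field_simp
    refine (Finset.sum_le_sum fun j _ => hj j).trans ?_
    rw [Finset.sum_comm]
    have h5 : ∀ m : Fin K, ∑ j, ((2 : ℝ) ^ ((m : ℕ) + 1))⁻¹ *
        (n j m * Real.exp (-(X j m) / (T * n j m))) ≤
        ((2 : ℝ) ^ ((m : ℕ) + 1))⁻¹ * E := by
      intro m
      rw [← Finset.mul_sum]
      exact mul_le_mul_of_nonneg_left (hone m) (by positivity)
    refine (Finset.sum_le_sum fun m _ => h5 m).trans ?_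
    rw [← Finset.sum_mul]
    exact mul_le_of_le_one_left hE0 (geo2 K)
  -- the limit
  have t1 : ∀ j, Filter.Tendsto (fun K => nrm2 D (mulW D (h K) (ψ j))) Filter.atTop (𝓝 0) := by
    intro j
    have := hlim (fun _ => 1) (WI_const D sp ℓ 1) (ψ j) (hψ j)
    simpa only [wm_one] using this
  have t2 : ∀ j, Filter.Tendsto (fun K => wm D W (mulW D (h K) (ψ j))) Filter.atTop (𝓝 0) :=
    fun j => hlim _ hWI (ψ j) (hψ j)
  have t4 : ∀ j, Filter.Tendsto (fun K => wm D (coul D sp) (mulW D (h K) (ψ j))) Filter.atTop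
      (𝓝 0) := fun j => hlim _ (WI_coul D sp ℓ) (ψ j) (hψ j)
  have tA : ∀ j, Filter.Tendsto (fun K => A K j) Filter.atTop (𝓝 (N j)) := by
    intro j
    have := (t1 j).const_sub (N j)
    simpa using this
  let Yi : Fin k → ℝ := fun j => -(qf D sp (fun _ => 1) W (ψ j) +
    Cd * wm D (near2 y) (ψ j) - 0 + P * N j + Cd * (N j + wm D (near2 y) (ψ j)) +
      C * wm D U (ψ j)) / T - Cd * (N j + wm D (near2 y) (ψ j))
  have tL : ∀ j, Filter.Tendsto (fun K => low K j) Filter.atTop (𝓝 0) := by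
    intro j
    have := ((t1 j).const_mul B0).add ((t2 j).sub (t4 j))
    simpa using this
  have tY : ∀ j, Filter.Tendsto (fun K => Y K j) Filter.atTop (𝓝 (Yi j)) := by
    intro j
    exact (((((tL j).const_sub _).add ((tA j).const_mul P)).add_const _).add_const _).neg.div_const T
      |>.sub_const _
  have tall : Filter.Tendsto (fun K => ∑ j, A K j * Real.exp (Y K j / A K j)) Filter.atTop
      (𝓝 (∑ j, N j * Real.exp (Yi j / N j))) := by
    refine tendsto_finsetSum _ fun j _ => ?_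
    by_cases hN0 : N j = 0
    · have hz : ∀ K, A K j = 0 := by
        intro K
        have a1 := hA0 K j
        have a2 : A K j ≤ N j := by
          have := nrm2_nn D (mulW D (h K) (ψ j))
          show N j - _ ≤ N j
          linarith
        linarith
      simp only [hz, hN0, zero_mul]
      exact tendsto_const_nhds
    · refine (tA j).mul ?_
      exact (Real.continuous_exp.tendsto _).comp ((tY j).div (tA j) hN0)
  have hfin := le_of_tendsto' tall hK
  rw [← hE]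
  refine le_trans (Finset.sum_le_sum fun j _ => ?_) hfin
  rcases (nrm2_nn D (ψ j)).eq_or_lt with hN0 | hN0
  · show nrm2 D (ψ j) * _ ≤ nrm2 D (ψ j) * _
    rw [← hN0]
    simp
  · show nrm2 D (ψ j) * _ ≤ nrm2 D (ψ j) * _
    refine mul_le_mul_of_nonneg_left ?_ hN0.le
    refine Real.exp_le_exp.2 ?_
    rw [← div_div]
    refine div_le_div_of_nonneg_right ?_ hN0.le
    have hnear := mul_le_mul_of_nonneg_left (mi_near D sp ℓ y (ψ j) (hψ j)) hCd0.le
    have hkk0 : 0 ≤ kkm D (ψ j) y := mi_wm_nonneg D (fun x =>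
      Finset.sum_nonneg fun i _ => kk_nonneg _) (ψ j)
    have hkk : 0 ≤ Cd * kkm D (ψ j) y := mul_nonneg hCd0.le hkk0
    have hLs : (((s, y) :: L : List (S × E3)).map (fun p => D.charge p.1 * phim D sp (ψ j) p.2 +
        C * (nrm2 D (ψ j) + kkm D (ψ j) p.2))).sum = (D.charge s * phim D sp (ψ j) y +
        C * (nrm2 D (ψ j) + kkm D (ψ j) y)) +
        ((L.map (fun p => D.charge p.1 * phim D sp (ψ j) p.2)).sum +
        C * (L.map (fun p => nrm2 D (ψ j) + kkm D (ψ j) p.2)).sum) := by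
      rw [List.map_cons, List.sum_cons, List.sum_map_add, List.sum_map_mul_left]
    have hnearT := mul_le_mul_of_nonneg_left hnear hT.le
    have hkkT := mul_nonneg hT.le hkk
    have key : qf D sp (fun _ => 1) W (ψ j) +
        Cd * wm D (near2 y) (ψ j) - 0 + P * nrm2 D (ψ j) +
        Cd * (nrm2 D (ψ j) + wm D (near2 y) (ψ j)) +
        C * wm D U (ψ j) + T * (Cd * (nrm2 D (ψ j) + wm D (near2 y) (ψ j))) ≤
        energy D sp (ψ j) +
        (((s, y) :: L : List (S × E3)).map (fun p => D.charge p.1 * phim D sp (ψ j) p.2 +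
        C * (nrm2 D (ψ j) + kkm D (ψ j) p.2))).sum + prs D C' ((s, y) :: L) * nrm2 D (ψ j) := by
      rw [← hP, hLs, hq1 _ (hψ j), hU1 _ (hψ j)]
      have hCe : C * (nrm2 D (ψ j) + kkm D (ψ j) y) =
          3 * (Cd * (nrm2 D (ψ j) + kkm D (ψ j) y)) +
          2 * (T * (Cd * (nrm2 D (ψ j) + kkm D (ψ j) y))) := by
        rw [hC]; ring
      rw [hCe]
      have hTn : 0 ≤ T * (Cd * kkm D (ψ j) y) := hkkT
      nlinarith [hnear, hnearT, hkk, hTn]
    show _ ≤ -(qf D sp (fun _ => 1) W (ψ j) +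
      Cd * wm D (near2 y) (ψ j) - 0 + P * nrm2 D (ψ j) +
      Cd * (nrm2 D (ψ j) + wm D (near2 y) (ψ j)) +
      C * wm D U (ψ j)) / T - Cd * (nrm2 D (ψ j) + wm D (near2 y) (ψ j))
    have e5 : -(qf D sp (fun _ => 1) W (ψ j) +
      Cd * wm D (near2 y) (ψ j) - 0 + P * nrm2 D (ψ j) +
      Cd * (nrm2 D (ψ j) + wm D (near2 y) (ψ j)) +
      C * wm D U (ψ j)) / T - Cd * (nrm2 D (ψ j) + wm D (near2 y) (ψ j)) =
      -(qf D sp (fun _ => 1) W (ψ j) +
        Cd * wm D (near2 y) (ψ j) - 0 + P * nrm2 D (ψ j) +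
        Cd * (nrm2 D (ψ j) + wm D (near2 y) (ψ j)) +
        C * wm D U (ψ j) + T * (Cd * (nrm2 D (ψ j) + wm D (near2 y) (ψ j)))) / T := by
      field_simp
      ring
    rw [e5]
    exact div_le_div_of_nonneg_right (neg_le_neg key) hT.le

/-- TARGET -/
theorem multi_insertT {S : Type} [Fintype S] [DecidableEq S] (D : Species S) (hD : D.Valid)
    (hst : HStable D) (T δ : ℝ) (hT : 0 < T) (hδ : 0 < δ) (hδ1 : δ ≤ 1) :
    ∃ C C' : ℝ, 0 < C ∧ 0 < C' ∧ ∀ (ℓ : ℝ), 0 < ℓ → ∀ (Zb : (S → ℕ) → ℝ),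
      (∀ {I : Type} [Fintype I] [DecidableEq I] (sp : I → S),
        ∀ z ∈ peierls D sp ℓ T, z ≤ Zb (fun s => cnt sp s)) →
      ∀ L : List (S × E3), (∀ p ∈ L, Metric.closedBall p.2 δ ⊆ cube ℓ) →
        L.Pairwise (fun p q => p.2 ≠ q.2) →
      ∀ {I : Type} [Fintype I] [DecidableEq I] (sp : I → S) {k : ℕ} (ψ : Fin k → Wave D I),
        (∀ j, IsState D sp ℓ (ψ j)) → SG D ψ →
        ∑ j, nrm2 D (ψ j) * Real.exp (-(energy D sp (ψ j) +
          (L.map (fun p => D.charge p.1 * phim D sp (ψ j) p.2 +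
            C * (nrm2 D (ψ j) + kkm D (ψ j) p.2))).sum + prs D C' L * nrm2 D (ψ j)) /
              (T * nrm2 D (ψ j))) ≤
        Zb (fun s => cnt sp s + L.countP (fun p => decide (p.1 = s))) := by
  obtain ⟨C, C', hC, hC', H⟩ := k6_step D hD hst T δ hT hδ hδ1
  refine ⟨C, C', hC, hC', fun ℓ hℓ Zb hZb L => ?_⟩
  induction L with
  | nil =>
    intro _ _ I _ _ sp k ψ hψ hSG
    have := trace_bound D sp ℓ T hT (Zb (fun s => cnt sp s)) (hZb sp) ψ hψ 1 zero_le_one (by
      intro γ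
      rw [one_mul]
      exact hSG γ)
    simpa [prs, mul_comm] using this
  | cons p L ih =>
    intro hb hp I _ _ sp k ψ hψ hSG
    obtain ⟨s, y⟩ := p
    rw [List.pairwise_cons] at hp
    exact H ℓ hℓ Zb s y L (hb (s, y) (by simp)) (fun q hq => hp.1 q hq)
      (fun {J} _ _ sq {k'} Φ hΦ hS => ih (fun q hq => hb q (by simp [hq])) hp.2 sq Φ hΦ hS) sp ψ hψ hSG

end Pool.Agent.Helper780_CP.RKT6
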