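import Pool.Agent.Helper780_CP.LLDefs2
import Pool.Agent.Helper780_CP.LPDefs
import Pool.Agent.Helper780_CP.RAVG

set_option autoImplicit false

open MeasureTheory
open scoped Topology

namespace Pool.Agent.Helper780_CP.RKT7

open Pool.Agent.Helper780_CP
open Pool.Agent.Helper985.CP

open Pool.Agent.Helper780_CP Pool.Agent.Helper985.CP
open Pool.Agent.Helper780_CP.RAVG

/-- TARGET -/
theorem avg_abs {S : Type} [DecidableEq S] (D : Species S) (δ C C' : ℝ) (hδ : 0 < δ)
    (hC : 0 ≤ C) (hC' : 0 ≤ C') (ℓ E0 E1 : ℝ) (m : ℕ) (s : Fin m → S) (π : Fin m → E3 → ℝ)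
    (hπ : ∀ j, Continuous (π j) ∧ HasCompactSupport (π j) ∧ (∀ y, 0 ≤ π j y) ∧
      (∫ y, π j y) = 1 ∧ ∀ y, π j y ≠ 0 → Metric.closedBall y δ ⊆ cube ℓ)
    {I : Type} [Fintype I] [DecidableEq I] (sp : I → S) (Ψ : Wave D I) (hΨ : IsState D sp ℓ Ψ)
    (hn : nrm2 D Ψ = 1)
    (H : ∀ y : Fin m → E3, (∀ j, Metric.closedBall (y j) δ ⊆ cube ℓ) →
      (∀ i j, i < j → y i ≠ y j) →
      E0 ≤ E1 + (∑ j, (D.charge (s j) * phim D sp Ψ (y j) + C * (1 + kkm D Ψ (y j)))) +
        prs D C' (List.ofFn fun j => (s j, y j))) :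
    E0 ≤ E1 + (∑ j, (D.charge (s j) * (∫ y, π j y * phim D sp Ψ y) +
        (C + C') * (1 + ∫ y, π j y * kkm D Ψ y))) +
      1 / 2 * DD (fun y => ∑ j, D.charge (s j) * π j y) (fun y => ∑ j, D.charge (s j) * π j y) +
      (C + C') * ∫ x, ∫ y, (∑ j, π j x) * (∑ j, π j y) * kd (x - y) := by
  have hπc : ∀ j, Continuous (π j) := fun j => (hπ j).1
  have hπs : ∀ j, HasCompactSupport (π j) := fun j => (hπ j).2.1
  have hπ0 : ∀ j y, 0 ≤ π j y := fun j => (hπ j).2.2.1
  have hπ1 : ∀ j, ∫ y, π j y = 1 := fun j => (hπ j).2.2.2.1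
  have hπd : ∀ j y, π j y ≠ 0 → Metric.closedBall y δ ⊆ cube ℓ := fun j => (hπ j).2.2.2.2
  have hprob : ∀ j, IsProbabilityMeasure (avm (π j)) := fun j =>
    avm_prob _ (hπc j) (hπs j) (hπ0 j) (hπ1 j)
  obtain ⟨h, hh⟩ : ∃ h : Fin m → E3 → ℝ, h = fun j y =>
    D.charge (s j) * phim D sp Ψ y + C * (1 + kkm D Ψ y) := ⟨_, rfl⟩
  have hki : LocallyIntegrable (fun w : E3 => ‖w‖⁻¹) volume := pot_props_locInt
  have hkm : Measurable (fun w : E3 => ‖w‖⁻¹) := by fun_prop
  have hk0 : ∀ w : E3, 0 ≤ ‖w‖⁻¹ := fun w => by positivity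
  have hke : ∀ w : E3, ‖-w‖⁻¹ = ‖w‖⁻¹ := fun w => by rw [norm_neg]
  have hphi : ∀ j, Integrable (fun y => π j y * phim D sp Ψ y) := by
    intro j
    have h1 := av_wm D sp ℓ Ψ hΨ (fun i => D.charge (sp i)) (fun w => ‖w‖⁻¹) hkm hk0 hki
      (π j) (hπc j) (hπs j) (hπ0 j)
    refine h1.congr (Filter.Eventually.of_forall fun y => ?_)
    show π j y * ∑ τ, ∫ x : I → E3, (∑ i, D.charge (sp i) * ‖x i - y‖⁻¹) * ‖Ψ τ x‖ ^ 2 =
      π j y * phim D sp Ψ y
    unfold phim mean
    simp only [one_div]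
  have hkkm : ∀ j, Integrable (fun y => π j y * kkm D Ψ y) := by
    intro j
    have h1 := av_wm D sp ℓ Ψ hΨ (fun _ => 1) kk kk_meas kk_nonneg kk_int.locallyIntegrable
      (π j) (hπc j) (hπs j) (hπ0 j)
    refine h1.congr (Filter.Eventually.of_forall fun y => ?_)
    show π j y * ∑ τ, ∫ x : I → E3, (∑ i, 1 * kk (x i - y)) * ‖Ψ τ x‖ ^ 2 =
      π j y * kkm D Ψ y
    unfold kkm wm
    simp only [one_mul]
  have hkkm0 : ∀ y, 0 ≤ kkm D Ψ y := by
    intro y
    unfold kkm wm
    exact Finset.sum_nonneg fun τ _ => integral_nonneg fun x =>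
      mul_nonneg (Finset.sum_nonneg fun i _ => kk_nonneg _) (sq_nonneg _)
  have hhi : ∀ j, Integrable (h j) (avm (π j)) ∧ ∫ y, h j y ∂(avm (π j)) =
      D.charge (s j) * (∫ y, π j y * phim D sp Ψ y) + C * (1 + ∫ y, π j y * kkm D Ψ y) := by
    intro j
    have i1 := (avm_integrable (π j) (hπc j) (hπ0 j) (phim D sp Ψ)).2 (hphi j)
    have i2 := (avm_integrable (π j) (hπc j) (hπ0 j) (kkm D Ψ)).2 (hkkm j)
    have := hprob j
    have i3 : Integrable (fun y => 1 + kkm D Ψ y) (avm (π j)) := (integrable_const 1).add i2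
    rw [hh]
    refine ⟨(i1.const_mul _).add (i3.const_mul C), ?_⟩
    rw [integral_add (i1.const_mul _) (i3.const_mul C), integral_const_mul, integral_const_mul,
      integral_add (integrable_const 1) i2, avm_int (π j) (hπc j) (hπ0 j) (phim D sp Ψ),
      avm_int (π j) (hπc j) (hπ0 j) (kkm D Ψ), integral_const, probReal_univ, one_smul]
  obtain ⟨K, hK⟩ : ∃ K : Fin m → Fin m → E3 → E3 → ℝ, K = fun i j x z =>
    D.charge (s i) * D.charge (s j) / ‖x - z‖ + C' * kd (x - z) := ⟨_, rfl⟩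
  have hKi : ∀ i j, Integrable (fun q : E3 × E3 => K i j q.1 q.2)
      ((avm (π i)).prod (avm (π j))) ∧
      ∫ q, K i j q.1 q.2 ∂((avm (π i)).prod (avm (π j))) =
      D.charge (s i) * D.charge (s j) * avE (fun w => ‖w‖⁻¹) (π i) (π j) +
        C' * avE kd (π i) (π j) := by
    intro i j
    obtain ⟨a1, a2⟩ := av_pair (fun w => ‖w‖⁻¹) hkm hk0 hki (π i) (hπc i) (hπs i) (hπ0 i)
      (hπ1 i) (π j) (hπc j) (hπs j) (hπ0 j) (hπ1 j)
    obtain ⟨b1, b2⟩ := av_pair kd kd_meas kd_nonneg kd_int.locallyIntegrable (π i) (hπc i)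
      (hπs i) (hπ0 i) (hπ1 i) (π j) (hπc j) (hπs j) (hπ0 j) (hπ1 j)
    rw [hK]
    simp only [div_eq_mul_inv]
    refine ⟨(a1.const_mul _).add (b1.const_mul C'), ?_⟩
    rw [integral_add (a1.const_mul _) (b1.const_mul C'), integral_const_mul, integral_const_mul,
      a2, b2]
  obtain ⟨P, hP⟩ : ∃ P : Measure (Fin m → E3), P = Measure.pi (fun j => avm (π j)) := ⟨_, rfl⟩
  have hPp : IsProbabilityMeasure P := by rw [hP]; infer_instance
  have hev : ∀ j, MeasurePreserving (fun y : Fin m → E3 => y j) P (avm (π j)) := by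
    intro j
    rw [hP]
    exact measurePreserving_eval (fun j => avm (π j)) j
  have hpr : ∀ i j, i ≠ j → MeasurePreserving (fun y : Fin m → E3 => (y i, y j)) P
      ((avm (π i)).prod (avm (π j))) := by
    intro i j hij
    rw [hP]
    exact pair_mp (fun j => avm (π j)) i j hij
  have hae : ∀ᵐ y ∂P, E0 ≤ E1 + ∑ j, h j (y j) +
      ∑ i, ∑ j, if i < j then K i j (y i) (y j) else 0 := by
    have a1 : ∀ᵐ y ∂P, ∀ j, π j (y j) ≠ 0 := by
      rw [ae_all_iff]
      intro j
      exact (hev j).quasiMeasurePreserving.ae (avm_ne (π j) (hπc j))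
    have a2 : ∀ᵐ y ∂P, ∀ i j, i < j → y i ≠ y j := by
      rw [ae_all_iff]
      intro i
      rw [ae_all_iff]
      intro j
      by_cases hij : i < j
      · have b1 : ∀ᵐ q ∂((avm (π i)).prod (avm (π j))), q ∈ {q : E3 × E3 | q.1 ≠ q.2} := by
          refine (Measure.ae_prod_mem_iff_ae_ae_mem
            (measurableSet_eq_fun measurable_fst measurable_snd).compl).2 ?_
          exact Filter.Eventually.of_forall fun x => avm_atom (π j) x
        filter_upwards [(hpr i j (ne_of_lt hij)).quasiMeasurePreserving.ae b1] with y hy _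
        exact hy
      · exact Filter.Eventually.of_forall fun y h => absurd h hij
    filter_upwards [a1, a2] with y h1 h2
    have h3 := H y (fun j => hπd j (y j) (h1 j)) (fun i j hij => h2 i j hij)
    rw [prs_ofFn] at h3
    rw [hh, hK]
    exact h3
  have hi1 : ∀ j, Integrable (fun y : Fin m → E3 => h j (y j)) P ∧
      ∫ y, h j (y j) ∂P = ∫ z, h j z ∂(avm (π j)) := fun j => mp_int (hev j) (h j) (hhi j).1
  have hi2 : ∀ i j, Integrable (fun y : Fin m → E3 => if i < j then K i j (y i) (y j) else 0) P ∧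
      ∫ y, (if i < j then K i j (y i) (y j) else 0) ∂P = if i < j then
        ∫ q, K i j q.1 q.2 ∂((avm (π i)).prod (avm (π j))) else 0 := by
    intro i j
    by_cases hij : i < j
    · simp only [if_pos hij]
      exact mp_int (hpr i j (ne_of_lt hij)) (fun q => K i j q.1 q.2) (hKi i j).1
    · simp only [if_neg hij]
      exact ⟨integrable_zero _ _ _, integral_zero _ _⟩
  have j1 : Integrable (fun y : Fin m → E3 => E1 + ∑ j, h j (y j)) P :=
    (integrable_const _).add (integrable_finsetSum _ fun j _ => (hi1 j).1)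
  have j2 : Integrable (fun y : Fin m → E3 => ∑ i, ∑ j, if i < j then
      K i j (y i) (y j) else 0) P :=
    integrable_finsetSum _ fun i _ => integrable_finsetSum _ fun j _ => (hi2 i j).1
  have hfin := integral_mono_ae (integrable_const E0) (j1.add j2) hae
  simp only [Pi.add_apply] at hfin
  rw [integral_add j1 j2, integral_add (integrable_const _)
      (integrable_finsetSum _ fun j _ => (hi1 j).1), integral_const, integral_const,
      probReal_univ, one_smul, one_smul, integral_finsetSum _ (fun j _ => (hi1 j).1),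
      integral_finsetSum _ (fun i _ => integrable_finsetSum _ fun j _ => (hi2 i j).1)] at hfin
  have e1 : ∑ j, ∫ y, h j (y j) ∂P ≤ ∑ j, (D.charge (s j) * (∫ y, π j y * phim D sp Ψ y) +
            (C + C') * (1 + ∫ y, π j y * kkm D Ψ y)) := by
    refine Finset.sum_le_sum fun j _ => ?_
    rw [(hi1 j).2, (hhi j).2]
    have : 0 ≤ ∫ y, π j y * kkm D Ψ y := integral_nonneg fun y => mul_nonneg (hπ0 j y) (hkkm0 y)
    have h5 : 0 ≤ C' * (1 + ∫ y, π j y * kkm D Ψ y) := by positivity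
    linarith
  have e2 : ∑ i, ∫ y, (∑ j, if i < j then K i j (y i) (y j) else 0) ∂P =
      (∑ i, ∑ j, if i < j then D.charge (s i) * D.charge (s j) *
        avE (fun w => ‖w‖⁻¹) (π i) (π j) else 0) +
      C' * (∑ i, ∑ j, if i < j then avE kd (π i) (π j) else 0) := by
    rw [Finset.mul_sum, ← Finset.sum_add_distrib]
    refine Finset.sum_congr rfl fun i _ => ?_
    rw [integral_finsetSum _ (fun j _ => (hi2 i j).1), Finset.mul_sum,
      ← Finset.sum_add_distrib]
    refine Finset.sum_congr rfl fun j _ => ?_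
    rw [(hi2 i j).2, (hKi i j).2]
    split_ifs <;> ring
  have e3 : (∑ i, ∑ j, if i < j then D.charge (s i) * D.charge (s j) *
        avE (fun w => ‖w‖⁻¹) (π i) (π j) else 0) ≤
      1 / 2 * DD (fun y => ∑ j, D.charge (s j) * π j y)
            (fun y => ∑ j, D.charge (s j) * π j y) := by
    have f1 : DD (fun y => ∑ j, D.charge (s j) * π j y)
            (fun y => ∑ j, D.charge (s j) * π j y) = ∑ i, ∑ j, D.charge (s i) *
            D.charge (s j) * avE (fun w => ‖w‖⁻¹) (π i) (π j) := by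
      rw [← avE_sum (fun w => ‖w‖⁻¹) hki π hπc hπs (fun j => D.charge (s j))]
      unfold DD VV
      simp only [div_eq_mul_inv]
    rw [f1]
    refine sum_lt_half (fun i j => D.charge (s i) * D.charge (s j) *
      avE (fun w => ‖w‖⁻¹) (π i) (π j)) (fun i j => ?_) (fun i => ?_)
    · rw [avE_symm (fun w => ‖w‖⁻¹) hkm hk0 hki hke (π i) (hπc i) (hπs i) (hπ0 i)
        (hπ1 i) (π j) (hπc j) (hπs j) (hπ0 j) (hπ1 j), mul_comm (D.charge (s i))]
    · exact mul_nonneg (mul_self_nonneg _) (avE_nonneg _ hk0 _ (hπ0 i) _ (hπ0 i))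
  have e4 : (∑ i, ∑ j, if i < j then avE kd (π i) (π j) else 0) ≤
      ∫ x, ∫ y, (∑ j, π j x) * (∑ j, π j y) * kd (x - y) := by
    have f1 : ∫ x, ∫ y, (∑ j, π j x) * (∑ j, π j y) * kd (x - y) =
        ∑ i, ∑ j, avE kd (π i) (π j) := by
      have f2 := avE_sum kd kd_int.locallyIntegrable π hπc hπs (fun _ => 1)
      simp only [one_mul] at f2
      rw [← f2]
      refine integral_congr_ae (Filter.Eventually.of_forall fun x => ?_)
      show ∫ y, (∑ j, π j x) * (∑ j, π j y) * kd (x - y) =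
        (∑ i, π i x) * ∫ z, (∑ j, π j z) * kd (x - z)
      rw [← integral_const_mul]
      refine integral_congr_ae (Filter.Eventually.of_forall fun y => ?_)
      show (∑ j, π j x) * (∑ j, π j y) * kd (x - y) = (∑ i, π i x) * ((∑ j, π j y) * kd (x - y))
      ring
    rw [f1]
    exact sum_lt_all _ fun i j => avE_nonneg kd kd_nonneg _ (hπ0 i) _ (hπ0 j)
  have e5 : 0 ≤ ∫ x, ∫ y, (∑ j, π j x) * (∑ j, π j y) * kd (x - y) :=
    integral_nonneg fun x => integral_nonneg fun y => mul_nonneg (mul_nonneg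
      (Finset.sum_nonneg fun j _ => hπ0 j x) (Finset.sum_nonneg fun j _ => hπ0 j y)) (kd_nonneg _)
  rw [e2] at hfin
  have e6 := mul_le_mul_of_nonneg_left e4 hC'
  have e7 := mul_nonneg hC e5
  linarith


end Pool.Agent.Helper780_CP.RKT7
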