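import Pool.Agent.Helper780_CP.LLDefs2
import Pool.Agent.Helper780_CP.LPDefs
import Pool.Agent.Helper780_CP.RLEV
import Pool.Agent.Helper780_CP.RTR
import Pool.Agent.Helper780_CP.Stable
import Pool.Agent.Helper985.CT.M_peierls_relabel
import Pool.Agent.Helper985.CT.M_peierls_bdd
import Pool.Agent.Helper985.CT.M_peierls_pos
import Pool.Agent.Helper780_CP.RG1
import Pool.Agent.Helper780_CP.RG5
import Pool.Agent.Helper780_CP.RKT6
import Pool.Agent.Helper780_CP.RKT7
import Pool.Agent.Helper780_CP.RKT8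
import Pool.Agent.Helper780_CP.RKT3
import Pool.Agent.Helper780_CP.RKT5

set_option autoImplicit false

open MeasureTheory
open scoped Topology

namespace Pool.Agent.Helper780_CP.RKT9

open Pool.Agent.Helper780_CP
open Pool.Agent.Helper985.CP
open Pool.Agent.Helper780_CP.RG1 (gibbs_w)
open Pool.Agent.Helper780_CP.RG5 (mix_enc)
open Pool.Agent.Helper780_CP.RKT6 (multi_insertT)
open Pool.Agent.Helper780_CP.RKT7 (avg_abs)
open Pool.Agent.Helper780_CP.RKT8 (level_abs)
open Pool.Agent.Helper780_CP.RKT3 (dilationT)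
open Pool.Agent.Helper780_CP.RKT5 (group_removalT)

open Pool.Agent.Helper780_CP Pool.Agent.Helper985.CP

open Pool.Agent.Helper780_CP.RLEV (addG addG_zero addG_succ addG_sum addG_charge cnt_card exists_freq)
open Pool.Agent.Helper780_CP.RTR (tr_facts trf_wm)
open Pool.Agent.Helper780_CP.RAVG (countP_ofFn)

/-- partition function as a function of the counts -/
noncomputable def Zc {S : Type} [DecidableEq S] [Fintype S] (D : Species S) (L T : ℝ)
    (n : S → ℕ) : ℝ :=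
  sSup (peierls D (fun i : (Σ s, Fin (n s)) => i.1) L T)

theorem peierls_cnt {S : Type} [Fintype S] [DecidableEq S] (D : Species S) (L T : ℝ) {I : Type}
    [Fintype I] [DecidableEq I] (sp : I → S) :
    peierls D (fun i : (Σ s, Fin (cnt sp s)) => i.1) L T = peierls D sp L T := by
  obtain ⟨e, he⟩ := exists_equiv sp (fun i : (Σ s, Fin (cnt sp s)) => i.1)
      (fun s => (cnt_sigma (cnt sp) s).symm)
  exact (peierls_relabel D e sp _ he L T).1.symm

theorem Zc_cnt {S : Type} [Fintype S] [DecidableEq S] (D : Species S) (L T : ℝ) {I : Type}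
    [Fintype I] [DecidableEq I] (sp : I → S) :
    Zc D L T (fun s => cnt sp s) = sSup (peierls D sp L T) := by
  unfold Zc
  rw [peierls_cnt]

theorem sg_tr {S : Type} (D : Species S) {I : Type} [Fintype I] [DecidableEq I] {k : ℕ} (t : ℝ)
    (ψ : Fin k → Wave D I) (h : SG D ψ) : SG D (fun j => trW D (dv t) (ψ j)) := by
  intro γ
  have h1 : (fun τ x => ∑ j, γ j * trW D (dv t) (ψ j) τ x) =
      trW D (dv t) (fun τ x => ∑ j, γ j * ψ j τ x) := rfl
  rw [h1, ← wm_one, trf_wm, wm_one]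
  exact h γ

theorem prs_congr {S : Type} (D D' : Species S) (h : D'.charge = D.charge) (C : ℝ) :
    ∀ L : List (S × E3), prs D' C L = prs D C L := by
  intro L
  induction L with
  | nil => rfl
  | cons a L ih =>
    unfold prs
    rw [ih, h]

theorem ins_mix {S : Type} [Fintype S] [DecidableEq S] (D : Species S) (T : ℝ) (hT : 0 < T)
    (Z : ℝ) (hZ : 0 < Z) {I : Type} [Fintype I] [DecidableEq I] (sp : I → S) {k : ℕ}
    (p : Fin k → ℝ) (ψ : Fin k → Wave D I) (hn : ∀ j, nrm2 D (ψ j) = 1) (hp0 : ∀ j, 0 ≤ p j)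
    (hp1 : ∑ j, p j = 1) (A : Fin k → ℝ) (B : ℝ)
    (h : ∑ j, nrm2 D (ψ j) * Real.exp (-(energy D sp (ψ j) + A j + B * nrm2 D (ψ j)) /
      (T * nrm2 D (ψ j))) ≤ Z) :
    -T * Real.log Z ≤ ∑ j, (p j * energy D sp (ψ j) + T * (p j * Real.log (p j))) +
      ∑ j, p j * A j + B := by
  have h1 := gibbs_w p (fun _ => 1) (fun j => -(energy D sp (ψ j) + A j + B) / T) hp0
    (fun _ => zero_le_one) (fun j hj => absurd hj one_ne_zero) Z hZ (by
      refine le_trans (le_of_eq ?_) h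
      refine Finset.sum_congr rfl fun j _ => ?_
      rw [hn j]
      simp only [mul_one, div_one])
  simp only [mul_one, one_mul, hp1, Real.log_one, sub_zero] at h1
  have h2 : ∑ j, p j * (-(energy D sp (ψ j) + A j + B) / T) =
      -(∑ j, p j * energy D sp (ψ j) + ∑ j, p j * A j + B) / T := by
    have e1 : B = ∑ j, p j * B := by rw [← Finset.sum_mul, hp1, one_mul]
    conv_rhs => rw [e1]
    rw [← Finset.sum_add_distrib, ← Finset.sum_add_distrib, ← Finset.sum_neg_distrib,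
      Finset.sum_div]
    refine Finset.sum_congr rfl fun j _ => ?_
    ring
  rw [h2, div_le_iff₀ hT] at h1
  have h3 : ∑ j, (p j * energy D sp (ψ j) + T * (p j * Real.log (p j))) =
      ∑ j, p j * energy D sp (ψ j) + T * ∑ j, p j * Real.log (p j) := by
    rw [Finset.sum_add_distrib, Finset.mul_sum]
  rw [h3]
  linarith

set_option maxHeartbeats 4000000 in
theorem level_pairT {S : Type} [Fintype S] [DecidableEq S] (D : Species S) (hD : D.Valid)
    (hst : HStable D) (hf : ∀ s, D.charge s < 0 → D.fermion s = true)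
    (sP sN : S) (p q : ℕ) (hp : 0 < p) (hq : 0 < q) (hcP : D.charge sP = p)
    (hcN : D.charge sN = -(q : ℝ)) (T V ρ C0 c0 : ℝ) (hT : 0 < T) (hV : 0 < V) (hρ : 0 < ρ)
    (hC0 : 0 ≤ C0) (hc0 : 0 < c0) :
    ∃ C ℓ0 : ℝ, 0 < C ∧ 0 < ℓ0 ∧ ∀ {I : Type} [Fintype I] [DecidableEq I] [Nonempty I]
      (sp : I → S) (ℓ : ℝ), ℓ0 ≤ ℓ → ℓ ^ 3 ≤ V * (Fintype.card I : ℝ) →
      (Fintype.card I : ℝ) ≤ ρ * ℓ ^ 3 → (∑ i, D.charge (sp i) = 0) →
      c0 * (Fintype.card I : ℝ) ≤ cnt sp sP → c0 * (Fintype.card I : ℝ) ≤ cnt sp sN →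
      ∀ η : ℝ, 0 ≤ η → η ≤ 1 → ∀ {k : ℕ} (pr : Fin k → ℝ)
      (ψ : Fin k → Wave D I), NE D sp ℓ T η (sSup (peierls D sp ℓ T)) pr ψ → ∀ U : ℝ,
      (∀ y, Metric.closedBall y 2 ⊆ cube ℓ → |(∑ j, pr j * phim D sp (ψ j) y) - U| ≤ C0 ∧
        ∑ j, pr j * kkm D (ψ j) y ≤ C0) →
      |U| ≤ C := by
  obtain ⟨Cm, Cm', hCm, hCm', HM⟩ := multi_insertT D hD hst T 1 hT one_pos le_rfl
  obtain ⟨z, hz⟩ : ∃ z : ℝ, z = ∑ s, |D.charge s| := ⟨_, rfl⟩
  have hcz : ∀ s, |D.charge s| ≤ z := by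
    intro s
    rw [hz]
    exact Finset.single_le_sum (f := fun s => |D.charge s|) (fun s _ => abs_nonneg _)
      (Finset.mem_univ s)
  obtain ⟨C1, ℓ1, hC1, hℓ1, H1⟩ := level_abs sP sN p q hp hq z ρ C0 (Cm + Cm') hρ.le hC0
    (by positivity)
  have hpR : (0 : ℝ) < p := by exact_mod_cast hp
  have hqR : (0 : ℝ) < q := by exact_mod_cast hq
  obtain ⟨c', hc'⟩ : ∃ c' : ℝ, c' = min c0 (min ((p : ℝ) / (p + q)) ((q : ℝ) / (p + q))) :=
    ⟨_, rfl⟩
  have hc'0 : 0 < c' := by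
    rw [hc']
    exact lt_min hc0 (lt_min (by positivity) (by positivity))
  have hc'1 : c' ≤ c0 := by rw [hc']; exact min_le_left _ _
  have hc'p : c' * (p + q) ≤ p := by
    have : c' ≤ (p : ℝ) / (p + q) := by
      rw [hc']; exact (min_le_right _ _).trans (min_le_left _ _)
    rwa [le_div_iff₀ (by positivity)] at this
  have hc'q : c' * (p + q) ≤ q := by
    have : c' ≤ (q : ℝ) / (p + q) := by
      rw [hc']; exact (min_le_right _ _).trans (min_le_right _ _)
    rwa [le_div_iff₀ (by positivity)] at this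
  obtain ⟨C2, hC2, H2⟩ := group_removalT D hD hst hf T (8 * V) (ρ + C1 * (p + q)) c' hT
    (by positivity) (by positivity) hc'0 sP sN p q hp hq hcP hcN
  obtain ⟨C3, hC3, H3⟩ := dilationT D hD hf T V ρ hT hV hρ
  refine ⟨1 + 16 * C3 * ρ + C1 * C2 + C1, max ℓ1 16, by positivity,
    lt_of_lt_of_le (by norm_num) (le_max_right _ _), ?_⟩
  intro I _ _ _ sp ℓ hℓ hVN hN hneu haP haN η hη hη1 k pr ψ hNE U hU
  have hℓ16 : 16 ≤ ℓ := le_trans (le_max_right _ _) hℓ
  have hℓℓ1 : ℓ1 ≤ ℓ := le_trans (le_max_left _ _) hℓ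
  have hsPN : sP ≠ sN := by
    intro h
    rw [h, hcN] at hcP
    linarith
  have hcard := cnt_card sp
  have hL : (0 : ℝ) < ℓ + 16 := by linarith
  obtain ⟨FE, hFE⟩ : ∃ FE : (S → ℕ) → ℝ, FE = fun n => -T * Real.log (Zc D (ℓ + 16) T n) :=
    ⟨_, rfl⟩
  have key : ∀ K : ℕ, (K : ℝ) ≤ C1 * ℓ ^ 2 →
      -T * Real.log (sSup (peierls D sp (ℓ + 16) T)) ≤
      FE (addG (fun s => cnt sp s) sP sN p q K) + K * C2 := by
    intro K
    induction K with
    | zero =>
      intro _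
      rw [addG_zero, hFE]
      simp only [Zc_cnt]
      simp
    | succ K ih =>
      intro hK
      push_cast at hK
      have hK' : (K : ℝ) ≤ C1 * ℓ ^ 2 := by linarith
      have h1 := ih hK'
      have hsum : (∑ s, (addG (fun s => cnt sp s) sP sN p q (K + 1) s : ℝ)) =
          (Fintype.card I : ℝ) + (K + 1) * (p + q) := by
        have := addG_sum (fun s => cnt sp s) sP sN p q (K + 1)
        rw [← hcard]
        exact_mod_cast this
      have hcd : (Fintype.card (Σ s, Fin (addG (fun s => cnt sp s) sP sN p q (K + 1) s)) : ℝ) =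
          (Fintype.card I : ℝ) + (K + 1) * (p + q) := by
        rw [← hsum, Fintype.card_sigma]
        simp only [Fintype.card_fin]
        push_cast
        rfl
      have step : FE (addG (fun s => cnt sp s) sP sN p q K) ≤
          FE (addG (fun s => cnt sp s) sP sN p q (K + 1)) + C2 := by
        rw [hFE]
        refine H2 (fun i : (Σ s, Fin (addG (fun s => cnt sp s) sP sN p q (K + 1) s)) => i.1)
          (fun i : (Σ s, Fin (addG (fun s => cnt sp s) sP sN p q K s)) => i.1) (ℓ + 16)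
          (by linarith) ?_ ?_ ?_ ?_ ?_ ?_
        · rw [hcd]
          have e1 : (ℓ + 16) ^ 3 ≤ (2 * ℓ) ^ 3 := by
            gcongr
            linarith
          have e2 : 0 ≤ (K + 1 : ℝ) * (p + q) := by positivity
          have e3 : V * (Fintype.card I : ℝ) ≤ V * ((Fintype.card I : ℝ) + (K + 1) * (p + q)) :=
            mul_le_mul_of_nonneg_left (by linarith) hV.le
          nlinarith
        · rw [hcd]
          have e1 : (K + 1 : ℝ) * (p + q) ≤ C1 * ℓ ^ 2 * (p + q) :=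
            mul_le_mul_of_nonneg_right hK (by positivity)
          have e2 : ℓ ^ 3 ≤ (ℓ + 16) ^ 3 := by gcongr; linarith
          have e3 : ℓ ^ 2 ≤ (ℓ + 16) ^ 3 := by
            refine le_trans ?_ e2
            nlinarith [sq_nonneg ℓ]
          have e4 : ρ * ℓ ^ 3 ≤ ρ * (ℓ + 16) ^ 3 := mul_le_mul_of_nonneg_left e2 hρ.le
          have e5 : C1 * (p + q) * ℓ ^ 2 ≤ C1 * (p + q) * (ℓ + 16) ^ 3 :=
            mul_le_mul_of_nonneg_left e3 (by positivity)
          have e6 : C1 * ℓ ^ 2 * (p + q) = C1 * (p + q) * ℓ ^ 2 := by ring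
          have e7 : (ρ + C1 * (p + q)) * (ℓ + 16) ^ 3 =
              ρ * (ℓ + 16) ^ 3 + C1 * (p + q) * (ℓ + 16) ^ 3 := by ring
          rw [e7]
          linarith
        · rw [sum_sp]
          simp only [cnt_sigma]
          rw [addG_charge D.charge _ sP sN p q (K + 1) hcP hcN, ← sum_sp]
          exact hneu
        · rw [hcd, cnt_sigma]
          have e0 : (addG (fun s => cnt sp s) sP sN p q (K + 1) sP : ℝ) =
              (cnt sp sP : ℝ) + (K + 1) * q := by
            unfold addG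
            rw [if_pos rfl, if_neg hsPN]
            push_cast
            ring
          rw [e0]
          have e1 : c' * (Fintype.card I : ℝ) ≤ c0 * (Fintype.card I : ℝ) :=
            mul_le_mul_of_nonneg_right hc'1 (by positivity)
          have e2 : (K + 1 : ℝ) * (c' * (p + q)) ≤ (K + 1) * q :=
            mul_le_mul_of_nonneg_left hc'q (by positivity)
          have e3 : c' * ((Fintype.card I : ℝ) + (K + 1) * (p + q)) =
              c' * (Fintype.card I : ℝ) + (K + 1) * (c' * (p + q)) := by ring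
          rw [e3]
          linarith
        · rw [hcd, cnt_sigma]
          have e0 : (addG (fun s => cnt sp s) sP sN p q (K + 1) sN : ℝ) =
              (cnt sp sN : ℝ) + (K + 1) * p := by
            unfold addG
            rw [if_neg (Ne.symm hsPN), if_pos rfl]
            push_cast
            ring
          rw [e0]
          have e1 : c' * (Fintype.card I : ℝ) ≤ c0 * (Fintype.card I : ℝ) :=
            mul_le_mul_of_nonneg_right hc'1 (by positivity)
          have e2 : (K + 1 : ℝ) * (c' * (p + q)) ≤ (K + 1) * p :=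
            mul_le_mul_of_nonneg_left hc'p (by positivity)
          have e3 : c' * ((Fintype.card I : ℝ) + (K + 1) * (p + q)) =
              c' * (Fintype.card I : ℝ) + (K + 1) * (c' * (p + q)) := by ring
          rw [e3]
          linarith
        · intro s
          rw [cnt_sigma, cnt_sigma]
          exact addG_succ _ sP sN p q K s
      push_cast
      linarith
  have hdil := H3 sp ℓ 16 (by linarith) (by norm_num) hℓ16 hVN hN hneu
  have hdil2 : C3 * (16 / ℓ) * (Fintype.card I : ℝ) ≤ 16 * C3 * ρ * ℓ ^ 2 := by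
    have h1 : C3 * (16 / ℓ) * (Fintype.card I : ℝ) ≤ C3 * (16 / ℓ) * (ρ * ℓ ^ 3) :=
      mul_le_mul_of_nonneg_left hN (by positivity)
    refine h1.trans (le_of_eq ?_)
    have : ℓ ≠ 0 := by linarith
    field_simp
  have hℓ2 : (1 : ℝ) ≤ ℓ ^ 2 := by nlinarith
  obtain ⟨E1, hE1⟩ : ∃ E1 : ℝ, E1 = ∑ j, (pr j * energy D sp (ψ j) +
      T * (pr j * Real.log (pr j))) := ⟨_, rfl⟩
  have hfree : E1 ≤ -T * Real.log (sSup (peierls D sp ℓ T)) + 1 := by
    rw [hE1]
    have := hNE.free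
    linarith
  have fin : ∀ U' : ℝ, ∀ K : ℕ, (K : ℝ) ≤ C1 * ℓ ^ 2 →
      FE (addG (fun s => cnt sp s) sP sN p q K) ≤
        E1 - U' * ℓ ^ 2 + C1 * ℓ ^ 2 → U' ≤ 1 + 16 * C3 * ρ + C1 * C2 + C1 := by
    intro U' K hK h
    have h1 := key K hK
    have h2 : (K : ℝ) * C2 ≤ C1 * ℓ ^ 2 * C2 := mul_le_mul_of_nonneg_right hK hC2.le
    have h3 : U' * ℓ ^ 2 ≤ (1 + 16 * C3 * ρ + C1 * C2 + C1) * ℓ ^ 2 := by
      have e1 : (1 + 16 * C3 * ρ + C1 * C2 + C1) * ℓ ^ 2 =
          ℓ ^ 2 + 16 * C3 * ρ * ℓ ^ 2 + C1 * ℓ ^ 2 * C2 + C1 * ℓ ^ 2 := by ring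
      rw [e1]
      linarith
    exact le_of_mul_le_mul_right h3 (by linarith)
  -- the mixture encoded by one wave function
  obtain ⟨D', Φ, hc, -, -, hΦ, hwm, -, hph⟩ := mix_enc D sp ℓ pr hNE.p0 ψ hNE.state
  have hΦn : nrm2 D' Φ = 1 := by
    rw [← wm_one, hwm]
    unfold wx
    simp only [wm_one, hNE.nrm, mul_one]
    exact hNE.p1
  have hkk : ∀ y, kkm D' Φ y = ∑ j, pr j * kkm D (ψ j) y := by
    intro y
    unfold kkm
    rw [hwm]
    rfl
  obtain ⟨hS', hN', -, -, hP', hK', -⟩ := tr_facts D' sp ℓ 8 (by norm_num) Φ hΦ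
  have hS'' : IsState D' sp (ℓ + 16) (trW D' (dv 8) Φ) := by
    have : ℓ + 2 * 8 = ℓ + 16 := by ring
    rw [← this]
    exact hS'
  have htr : ∀ j, IsState D sp (ℓ + 16) (trW D (dv 8) (ψ j)) ∧
      nrm2 D (trW D (dv 8) (ψ j)) = 1 ∧
      energy D sp (trW D (dv 8) (ψ j)) = energy D sp (ψ j) ∧
      (∀ y, phim D sp (trW D (dv 8) (ψ j)) y = phim D sp (ψ j) (y - dv 8)) ∧
      (∀ y, kkm D (trW D (dv 8) (ψ j)) y = kkm D (ψ j) (y - dv 8)) := by
    intro j
    obtain ⟨a1, a2, a3, -, a5, a6, -⟩ := tr_facts D sp ℓ 8 (by norm_num) (ψ j) (hNE.state j)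
    have : ℓ + 2 * 8 = ℓ + 16 := by ring
    rw [this] at a1
    exact ⟨a1, a2.trans (hNE.nrm j), a3, a5, a6⟩
  have hins : ∀ (m : ℕ) (s : Fin m → S) (y : Fin m → E3),
      (∀ j, Metric.closedBall (y j) 1 ⊆ cube (ℓ + 16)) → (∀ i j, i < j → y i ≠ y j) →
      FE (fun t => cnt sp t + (Finset.univ.filter (fun j => s j = t)).card) ≤
      E1 + (∑ j, (D'.charge (s j) * phim D' sp (trW D' (dv 8) Φ) (y j) +
        Cm * (1 + kkm D' (trW D' (dv 8) Φ) (y j)))) +
        prs D' Cm' (List.ofFn fun j => (s j, y j)) := by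
    intro m s y hy hyy
    have h3 := HM (ℓ + 16) hL (Zc D (ℓ + 16) T)
      (fun {J} _ _ sp' z hz' => by
        rw [Zc_cnt]
        exact le_csSup (peierls_bdd D hD hst sp' (ℓ + 16) T hL hT) hz')
      (List.ofFn fun j => (s j, y j))
      (List.forall_mem_ofFn_iff.2 fun j => hy j)
      (List.pairwise_ofFn.2 fun i j hij => hyy i j hij) sp
      (fun j => trW D (dv 8) (ψ j)) (fun j => (htr j).1) (sg_tr D 8 ψ hNE.sg)
    simp only [countP_ofFn] at h3
    have hZpos : 0 < Zc D (ℓ + 16) T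
        (fun t => cnt sp t + (Finset.univ.filter (fun j => s j = t)).card) :=
      (peierls_pos D hD hst _ (ℓ + 16) T hL hT).2
    have h4 := ins_mix D T hT _ hZpos sp pr (fun j => trW D (dv 8) (ψ j))
      (fun j => (htr j).2.1) hNE.p0 hNE.p1 _ _ h3
    rw [hFE]
    refine h4.trans (le_of_eq ?_)
    have e1 : ∑ j, (pr j * energy D sp (trW D (dv 8) (ψ j)) + T * (pr j * Real.log (pr j))) =
        E1 := by
      rw [hE1]
      refine Finset.sum_congr rfl fun j _ => ?_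
      rw [(htr j).2.2.1]
    rw [e1, prs_congr D D' hc]
    congr 2
    have e2 : ∀ j, (List.map (fun p : S × E3 => D.charge p.1 *
        phim D sp (trW D (dv 8) (ψ j)) p.2 + Cm * (nrm2 D (trW D (dv 8) (ψ j)) +
          kkm D (trW D (dv 8) (ψ j)) p.2)) (List.ofFn fun j => (s j, y j))).sum =
        ∑ i, (D.charge (s i) * phim D sp (ψ j) (y i - dv 8) +
          Cm * (1 + kkm D (ψ j) (y i - dv 8))) := by
      intro j
      rw [List.map_ofFn, List.sum_ofFn]
      refine Finset.sum_congr rfl fun i _ => ?_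
      simp only [Function.comp_apply]
      rw [(htr j).2.1, (htr j).2.2.2.1, (htr j).2.2.2.2]
    simp only [e2, Finset.mul_sum]
    rw [Finset.sum_comm]
    refine Finset.sum_congr rfl fun i _ => ?_
    rw [hP', hK', hph, hkk, hc]
    have e3 : ∀ j, pr j * (D.charge (s i) * phim D sp (ψ j) (y i - dv 8) +
        Cm * (1 + kkm D (ψ j) (y i - dv 8))) =
        D.charge (s i) * (pr j * phim D sp (ψ j) (y i - dv 8)) +
          Cm * (pr j + pr j * kkm D (ψ j) (y i - dv 8)) := by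
      intro j
      ring
    simp only [e3]
    rw [Finset.sum_add_distrib, ← Finset.mul_sum, ← Finset.mul_sum, Finset.sum_add_distrib,
      hNE.p1]
  obtain ⟨⟨K1, hK1, h1⟩, ⟨K2, hK2, h2⟩⟩ := H1 D' (fun s => by rw [hc]; exact hcz s)
    (by rw [hc]; exact hcP) (by rw [hc]; exact hcN) sp ℓ hℓℓ1 hN (by rw [hc]; exact hneu)
    Φ hΦ hΦn U (fun y hy => by rw [hph, hkk]; exact hU y hy) FE E1
    (fun m s π hπ => avg_abs D' 1 Cm Cm' one_pos hCm.le hCm'.le (ℓ + 16) _ E1 m s π hπ sp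
      (trW D' (dv 8) Φ) hS'' (hN'.trans hΦn) (fun y hy hyy => hins m s y hy hyy))
  rw [abs_le]
  constructor
  · have := fin (-U) K2 hK2 (by
      refine le_trans (le_of_eq ?_) (h2.trans (le_of_eq (by ring)))
      rfl)
    linarith
  · exact fin U K1 hK1 h1

/-- TARGET -/
theorem levelT {S : Type} [Fintype S] [DecidableEq S] (D : Species S) (hD : D.Valid)
    (hf : ∀ s, D.charge s < 0 → D.fermion s = true) (hZ : ∀ s, ∃ m : ℤ, D.charge s = m)
    (T V ρ C0 : ℝ) (hT : 0 < T) (hV : 0 < V) (hρ : 0 < ρ) (hC0 : 0 ≤ C0) :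
    ∃ C ℓ0 : ℝ, 0 < C ∧ 0 < ℓ0 ∧ ∀ {I : Type} [Fintype I] [DecidableEq I] (sp : I → S) (ℓ : ℝ),
      ℓ0 ≤ ℓ → ℓ ^ 3 ≤ V * (Fintype.card I : ℝ) → (Fintype.card I : ℝ) ≤ ρ * ℓ ^ 3 →
      (∑ i, D.charge (sp i) = 0) → ∀ η : ℝ, 0 ≤ η → η ≤ 1 → ∀ {k : ℕ} (p : Fin k → ℝ)
      (ψ : Fin k → Wave D I), NE D sp ℓ T η (sSup (peierls D sp ℓ T)) p ψ → ∀ U : ℝ,
      (∀ y, Metric.closedBall y 2 ⊆ cube ℓ → |(∑ j, p j * phim D sp (ψ j) y) - U| ≤ C0 ∧
        ∑ j, p j * kkm D (ψ j) y ≤ C0) →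
      |U| ≤ C := by
  classical
  have hst := hstable D hD hf
  have hc1 : ∀ s, 1 ≤ |D.charge s| := by
    intro s
    obtain ⟨m, hm⟩ := hZ s
    have h1 := hD.charge_ne s
    rw [hm] at h1 ⊢
    have h2 : m ≠ 0 := by exact_mod_cast h1
    have h3 : 1 ≤ |m| := Int.one_le_abs h2
    exact_mod_cast h3
  obtain ⟨z, hz⟩ : ∃ z : ℝ, z = 1 + ∑ s, |D.charge s| := ⟨_, rfl⟩
  have hz0 : 0 < z := by
    rw [hz]
    have : 0 ≤ ∑ s, |D.charge s| := Finset.sum_nonneg fun s _ => abs_nonneg _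
    linarith
  have hcz : ∀ s, |D.charge s| ≤ z := by
    intro s
    rw [hz]
    have h' : |D.charge s| ≤ ∑ s, |D.charge s| :=
      Finset.single_le_sum (f := fun s => |D.charge s|) (fun s _ => abs_nonneg _)
        (Finset.mem_univ s)
    linarith
  obtain ⟨c0, hc0⟩ : ∃ c0 : ℝ, c0 = 1 / (2 * z * (Fintype.card S + 1)) := ⟨_, rfl⟩
  have hc00 : 0 < c0 := by rw [hc0]; positivity
  have hpair : ∀ a : S × S, ∃ C ℓ0 : ℝ, 0 < C ∧ 0 < ℓ0 ∧ (0 < D.charge a.1 →
      D.charge a.2 < 0 → ∀ {I : Type} [Fintype I] [DecidableEq I] [Nonempty I]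
      (sp : I → S) (ℓ : ℝ), ℓ0 ≤ ℓ → ℓ ^ 3 ≤ V * (Fintype.card I : ℝ) →
      (Fintype.card I : ℝ) ≤ ρ * ℓ ^ 3 → (∑ i, D.charge (sp i) = 0) →
      c0 * (Fintype.card I : ℝ) ≤ cnt sp a.1 → c0 * (Fintype.card I : ℝ) ≤ cnt sp a.2 →
      ∀ η : ℝ, 0 ≤ η → η ≤ 1 → ∀ {k : ℕ} (pr : Fin k → ℝ)
      (ψ : Fin k → Wave D I), NE D sp ℓ T η (sSup (peierls D sp ℓ T)) pr ψ → ∀ U : ℝ,
      (∀ y, Metric.closedBall y 2 ⊆ cube ℓ → |(∑ j, pr j * phim D sp (ψ j) y) - U| ≤ C0 ∧
        ∑ j, pr j * kkm D (ψ j) y ≤ C0) →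
      |U| ≤ C) := by
    intro a
    by_cases hP : 0 < D.charge a.1
    · by_cases hN : D.charge a.2 < 0
      · obtain ⟨m, hm⟩ := hZ a.1
        obtain ⟨k, hk⟩ := hZ a.2
        have hm0 : 0 < m := by
          rw [hm] at hP
          exact_mod_cast hP
        have hk0 : k < 0 := by
          rw [hk] at hN
          exact_mod_cast hN
        have e1 : D.charge a.1 = ((m.toNat : ℕ) : ℝ) := by
          rw [hm]
          have : ((m.toNat : ℕ) : ℤ) = m := Int.toNat_of_nonneg hm0.le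
          exact_mod_cast this.symm
        have e2 : D.charge a.2 = -(((-k).toNat : ℕ) : ℝ) := by
          rw [hk]
          have : (((-k).toNat : ℕ) : ℤ) = -k := Int.toNat_of_nonneg (by omega)
          have h3 : k = -(((-k).toNat : ℕ) : ℤ) := by omega
          exact_mod_cast h3
        obtain ⟨C, ℓ0, h1, h2, h3⟩ := level_pairT D hD hst hf a.1 a.2 m.toNat (-k).toNat
          (by omega) (by omega) e1 e2 T V ρ C0 c0 hT hV hρ hC0 hc00
        exact ⟨C, ℓ0, h1, h2, fun _ _ => h3⟩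
      · exact ⟨1, 1, one_pos, one_pos, fun _ h => absurd h hN⟩
    · exact ⟨1, 1, one_pos, one_pos, fun h => absurd h hP⟩
  choose C ℓ0 hC hℓ0 H using hpair
  have hCs : 0 ≤ ∑ a, C a := Finset.sum_nonneg fun a _ => (hC a).le
  have hℓs : 0 ≤ ∑ a, ℓ0 a := Finset.sum_nonneg fun a _ => (hℓ0 a).le
  refine ⟨1 + C0 + ∑ a, C a, 5 + ∑ a, ℓ0 a, by positivity, by positivity, ?_⟩
  intro I _ _ sp ℓ hℓ hVN hN hneu η hη hη1 k pr ψ hNE U hU
  rcases isEmpty_or_nonempty I with hI | hI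
  · have hph : ∀ j y, phim D sp (ψ j) y = 0 := by
      intro j y
      unfold phim mean
      simp
    have hy := (hU (WithLp.toLp 2 (fun _ => ℓ / 2)) (by
      intro w hw k
      rw [Metric.mem_closedBall, dist_eq_norm] at hw
      have h1 := (PiLp.norm_apply_le (w - WithLp.toLp 2 (fun _ => ℓ / 2)) k).trans hw
      rw [PiLp.sub_apply, Real.norm_eq_abs, abs_le] at h1
      constructor <;> linarith [h1.1, h1.2])).1
    simp only [hph, mul_zero, Finset.sum_const_zero] at hy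
    rw [zero_sub, abs_neg] at hy
    linarith
  · have hNpos : (0 : ℝ) < Fintype.card I := by
      exact_mod_cast Fintype.card_pos
    have hsum : ∑ s, (cnt sp s : ℝ) * D.charge s = 0 := by
      rw [← sum_sp]
      exact hneu
    obtain ⟨sP, hsP, hfP⟩ := exists_freq D.charge (fun s => cnt sp s) (Fintype.card I) z hNpos hz0
      hc1 hcz (cnt_card sp) hsum
    obtain ⟨sN, hsN, hfN⟩ := exists_freq (fun s => -D.charge s) (fun s => cnt sp s)
      (Fintype.card I) z hNpos hz0 (fun s => by rw [abs_neg]; exact hc1 s)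
      (fun s => by rw [abs_neg]; exact hcz s) (cnt_card sp) (by
        simp only [mul_neg, Finset.sum_neg_distrib]
        rw [hsum, neg_zero])
    rw [← hc0] at hfP hfN
    have h1 : ℓ0 (sP, sN) ≤ ∑ a, ℓ0 a :=
      Finset.single_le_sum (f := ℓ0) (fun a _ => (hℓ0 a).le) (Finset.mem_univ (sP, sN))
    have h2 : C (sP, sN) ≤ ∑ a, C a :=
      Finset.single_le_sum (f := C) (fun a _ => (hC a).le) (Finset.mem_univ (sP, sN))
    have h3 := H (sP, sN) hsP (by linarith) sp ℓ (by linarith) hVN hN hneu hfP hfN η hη hη1 pr ψ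
      hNE U hU
    linarith

end Pool.Agent.Helper780_CP.RKT9
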