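import Pool.Agent.Helper780_CP.RH11
import Pool.Agent.Helper780_CP.RKT9
import Pool.Agent.Helper780_CP.RKT10
import Pool.Agent.Helper780_CP.Fin0
import Pool.Agent.Helper780_CP.Stable
import Pool.Agent.Helper985.CT.M_peierls_bdd
import Pool.Agent.Helper985.CT.M_peierls_pos
import Pool.Agent.Helper985.CT.M_center_upper

/-! The mean potential at the interior points, positive temperature. -/

set_option autoImplicit false

open MeasureTheory
open scoped Topology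

namespace Pool.Agent.Helper780_CP

open Pool.Agent.Helper985.CP

/-- The mean potential of near equilibrium states at interior points. -/
theorem interior1 {S : Type} [Fintype S] [DecidableEq S] (D : Species S) (hD : D.Valid)
    (hf : ∀ s, D.charge s < 0 → D.fermion s = true) (hZ : ∀ s, ∃ m : ℤ, D.charge s = m)
    (T ρ₁ ρ₂ : ℝ) (hT : 0 < T) (hρ₁ : 0 < ρ₁) (hρ₂ : 0 < ρ₂) :
    ∃ (C : ℝ) (M : ℕ), 0 < C ∧
    ∀ {I : Type} [Fintype I] [DecidableEq I] (sp : I → S) (ℓ : ℝ), 0 < ℓ →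
      ρ₁ * ℓ ^ 3 ≤ (Fintype.card I : ℝ) →
      (Fintype.card I : ℝ) ≤ ρ₂ * ℓ ^ 3 → (∑ i, D.charge (sp i) = 0) →
      ∀ {k : ℕ} (p : Fin k → ℝ) (ψ : Fin k → Wave D I),
      NE D sp ℓ T (1 / (1 + (Fintype.card I : ℝ)) ^ 2) (sSup (peierls D sp ℓ T)) p ψ →
      ∀ δ : ℝ, 0 < δ → δ ≤ 1 → ∀ y : E3, Metric.closedBall y δ ⊆ cube ℓ →
        |∑ j, p j * phim D sp (ψ j) y| ≤ C / δ ^ M := by
  have hst := hstable D hD hf
  obtain ⟨z, hz0, hz⟩ : ∃ z : ℝ, 0 ≤ z ∧ ∀ s, |D.charge s| ≤ z := by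
    refine ⟨∑ s, |D.charge s|, Finset.sum_nonneg fun s _ => abs_nonneg _, fun s => ?_⟩
    exact Finset.single_le_sum (f := fun s => |D.charge s|) (fun t _ => abs_nonneg _)
      (Finset.mem_univ s)
  have hcm : ∀ s, (1 : ℝ) ≤ |D.charge s| := by
    intro s
    obtain ⟨m, hm⟩ := hZ s
    have h1 : m ≠ 0 := by
      intro h
      have := hD.charge_ne s
      rw [hm, h] at this
      simp at this
    rw [hm]
    exact_mod_cast Int.one_le_abs h1
  obtain ⟨K₁, C₁, hK₁, hC₁, hRB⟩ := RC2.ren_ball z hz0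
  have hRB' : RB z K₁ C₁ := fun c x χ h1 h2 h3 => hRB c x χ h1 h2 h3
  obtain ⟨F, hF2, hF⟩ := cover12
  obtain ⟨a, b, l, hK⟩ := RK0.ker_exists
  have hV : 0 < 1 / ρ₁ := by positivity
  obtain ⟨C, M, hC, HI⟩ := RH11.interiorT D hD hst hf z 1 K₁ C₁ one_pos
    (fun s => ⟨hcm s, hz s⟩) hK₁ hC₁ hRB' F hF hF2 T (1 / ρ₁) ρ₂ hT hV hρ₂ a b l hK
  obtain ⟨C2, ℓ0, hC2, hℓ0, HL⟩ := RKT9.levelT D hD hf hZ T (1 / ρ₁) ρ₂ C hT hV hρ₂ hC.le
  obtain ⟨C3, hC3, HS⟩ := RKT10.smallT D hD hf T (1 / ρ₁) ρ₂ (max 4 ℓ0) hT hV hρ₂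
    (lt_of_lt_of_le (by norm_num) (le_max_left _ _))
  refine ⟨C + C2 + C3, M, by positivity, ?_⟩
  intro I _ _ sp ℓ hℓ hc1 hcard hneu k p ψ hN δ hδ hδ1 y hy
  have hN0 : (0 : ℝ) ≤ Fintype.card I := Nat.cast_nonneg _
  have hcV : ℓ ^ 3 ≤ 1 / ρ₁ * (Fintype.card I : ℝ) := by
    rw [div_mul_eq_mul_div, le_div_iff₀ hρ₁]
    linarith
  have hη : (0 : ℝ) ≤ 1 / (1 + (Fintype.card I : ℝ)) ^ 2 := by positivity
  have hη1 : 1 / (1 + (Fintype.card I : ℝ)) ^ 2 * (1 + (Fintype.card I : ℝ)) ^ 2 ≤ 1 := by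
    rw [div_mul_cancel₀]
    positivity
  have hη2 : 1 / (1 + (Fintype.card I : ℝ)) ^ 2 ≤ 1 := by
    rw [div_le_one (by positivity)]
    nlinarith
  have hδM : (1 : ℝ) ≤ 1 / δ ^ M := by
    rw [le_div_iff₀ (by positivity), one_mul]
    exact pow_le_one₀ hδ.le hδ1
  have hmono : ∀ a : ℝ, 0 ≤ a → a ≤ a / δ ^ M := by
    intro a ha
    have := mul_le_mul_of_nonneg_left hδM ha
    rw [mul_one, mul_one_div] at this
    exact this
  have h7 : (C + C2 + C3) / δ ^ M = C / δ ^ M + C2 / δ ^ M + C3 / δ ^ M := by ring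
  rcases le_or_gt (max 4 ℓ0) ℓ with hbig | hsmall
  · have h4 : 4 ≤ ℓ := (le_max_left _ _).trans hbig
    have h0 : ℓ0 ≤ ℓ := (le_max_right _ _).trans hbig
    obtain ⟨h1, h2⟩ := HI sp ℓ h4 hcV hcard hneu _ _ hη hη1 p ψ hN
    have h3 := h1 δ hδ hδ1 y hy
    have h5 := HL sp ℓ h0 hcV hcard hneu _ hη hη2 p ψ hN (wx D p ψ (phb D sp ℓ))
      (fun y hy => by
        refine ⟨?_, h2 y hy⟩
        have := h1 1 one_pos le_rfl y
          ((Metric.closedBall_subset_closedBall (by norm_num)).trans hy)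
        simpa using this)
    have h6 : |∑ j, p j * phim D sp (ψ j) y| ≤
        |(∑ j, p j * phim D sp (ψ j) y) - wx D p ψ (phb D sp ℓ)| +
        |wx D p ψ (phb D sp ℓ)| := by
      have := abs_add_le ((∑ j, p j * phim D sp (ψ j) y) - wx D p ψ (phb D sp ℓ))
        (wx D p ψ (phb D sp ℓ))
      simpa using this
    have h8 := hmono C2 hC2.le
    have h9 := (hC3.le).trans (hmono C3 hC3.le)
    linarith
  · have h3 := HS sp ℓ hℓ hsmall.le hcV hcard hneu _ _ hη hη2 p ψ hN y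
    have h8 := hmono C3 hC3.le
    have h9 : 0 ≤ C / δ ^ M := by positivity
    have h10 : 0 ≤ C2 / δ ^ M := by positivity
    linarith

/-- orthonormal families of near minimal free energy satisfy `NE` -/
theorem ne_of_ortho {S : Type} [Fintype S] [DecidableEq S] (D : Species S) (hD : D.Valid)
    (hf : ∀ s, D.charge s < 0 → D.fermion s = true) {I : Type} [Fintype I] [DecidableEq I]
    (sp : I → S) (ℓ T η : ℝ) (hℓ : 0 < ℓ) (hT : 0 < T) {k : ℕ} (p : Fin k → ℝ)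
    (ψ : Fin k → Wave D I) (hψ : Ortho D sp ℓ ψ) (hp : ∀ j, 0 ≤ p j) (hp1 : ∑ j, p j = 1)
    (he : ∑ j, (p j * energy D sp (ψ j) + T * (p j * Real.log (p j))) ≤
      -T * Real.log (sSup (peierls D sp ℓ T)) + η) :
    NE D sp ℓ T η (sSup (peierls D sp ℓ T)) p ψ where
  state := hψ.1
  sg := fun γ => (cu_comb D sp ℓ ψ hψ γ).le
  nrm := fun j => by
    rw [(rb_nrm_cs D (ψ j) (ψ j)).1, hψ.2 j j, if_pos rfl]
    simp
  p0 := hp
  p1 := hp1
  Zpos := (peierls_pos D hD (hstable D hD hf) sp ℓ T hℓ hT).2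
  Zle := fun z hz => le_csSup (peierls_bdd D hD (hstable D hD hf) sp ℓ T hℓ hT) hz
  free := he

end Pool.Agent.Helper780_CP
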