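import Pool.Agent.Helper780_CP.LLDefs2

/-! Localised energy. -/

set_option autoImplicit false

open MeasureTheory
open scoped Topology

namespace Pool.Agent.Helper780_CP

open Pool.Agent.Helper985.CP

/-- renormalised Coulomb energy near `y` -/
noncomputable def mx {S : Type} (D : Species S) {I : Type} [Fintype I] [DecidableEq I] (sp : I → S)
    (K₁ : ℝ) (y : E3) (r : ℝ) (x : I → E3) : ℝ :=
  vl (cy y r) (fun i => D.charge (sp i)) x + K₁ * pl (cy y r) (fun i => D.charge (sp i)) x

/-- localised energy -/
noncomputable def MM {S : Type} (D : Species S) {I : Type} [Fintype I] [DecidableEq I] (sp : I → S)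
    (K₁ : ℝ) (y : E3) (r : ℝ) (Ψ : Wave D I) : ℝ :=
  klc D sp y r Ψ + wm D (mx D sp K₁ y r) Ψ

end Pool.Agent.Helper780_CP
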