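import Pool.Agent.Helper780_CP.LLDefs
import Pool.Agent.Helper780_CP.Ball

set_option autoImplicit false

namespace Pool.Agent.Helper780_CP.RC1

open Pool.Agent.Helper780_CP

theorem ball_count_same {I : Type} [Fintype I] [DecidableEq I] (a : I → ℝ) (cm : ℝ) (hcm : 0 < cm)
    (h : ∀ i, cm ≤ a i) (hn : 1 ≤ Fintype.card I) :
    cm ^ 2 * ((Fintype.card I : ℝ) * ((Fintype.card I : ℝ) - 1)) ≤ (∑ i, a i) ^ 2 - ∑ i, a i ^ 2 := by
  have hn' : (1 : ℝ) ≤ (Fintype.card I : ℝ) := by exact_mod_cast hn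
  have e1 : (∑ i, a i) ^ 2 - ∑ i, a i ^ 2 = ∑ i, a i * ((∑ j, a j) - a i) := by
    rw [sq, Finset.sum_mul, ← Finset.sum_sub_distrib]
    refine Finset.sum_congr rfl (fun i _ => ?_)
    ring
  rw [e1]
  have e2 : ∀ i, ((Fintype.card I : ℝ) - 1) * cm ≤ (∑ j, a j) - a i := by
    intro i
    have h1 : (∑ j, a j) - a i = ∑ j ∈ Finset.univ.erase i, a j := by
      rw [← Finset.add_sum_erase Finset.univ a (Finset.mem_univ i)]
      ring
    rw [h1]
    have h2 : ∑ _j ∈ Finset.univ.erase i, cm ≤ ∑ j ∈ Finset.univ.erase i, a j :=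
      Finset.sum_le_sum (fun j _ => h j)
    rw [Finset.sum_const, Finset.card_erase_of_mem (Finset.mem_univ i), nsmul_eq_mul,
      Finset.card_univ] at h2
    have h3 : ((Fintype.card I - 1 : ℕ) : ℝ) = (Fintype.card I : ℝ) - 1 := by
      push_cast [Nat.cast_sub hn]
      ring
    rw [h3] at h2
    exact h2
  have e3 : ∀ i ∈ (Finset.univ : Finset I), cm * (((Fintype.card I : ℝ) - 1) * cm) ≤
      a i * ((∑ j, a j) - a i) := by
    intro i _
    have h4 : 0 ≤ ((Fintype.card I : ℝ) - 1) * cm := mul_nonneg (by linarith) hcm.le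
    exact mul_le_mul (h i) (e2 i) h4 (by linarith [h i])
  have e4 := Finset.sum_le_sum e3
  rw [Finset.sum_const, Finset.card_univ, nsmul_eq_mul] at e4
  calc cm ^ 2 * ((Fintype.card I : ℝ) * ((Fintype.card I : ℝ) - 1)) =
      (Fintype.card I : ℝ) * (cm * (((Fintype.card I : ℝ) - 1) * cm)) := by ring
    _ ≤ _ := e4

theorem ball_count_pow {n : ℝ} (hn : 1 ≤ n) : n ^ ((5 : ℝ) / 3) ≤ n ^ 2 := by
  rw [← Real.rpow_natCast n 2]
  exact Real.rpow_le_rpow_of_exponent_le hn (by norm_num)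

/-- one sign -/
theorem ball_count_one {cm n R : ℝ} (hcm : 0 < cm) (hn : 2 ≤ n) (h : cm ^ 2 * (n * (n - 1)) ≤ R) :
    n ^ 2 ≤ 2 / cm ^ 2 * R := by
  have h3 : cm ^ 2 * n ^ 2 ≤ 2 * R := by
    have h1 : n ^ 2 ≤ 2 * (n * (n - 1)) := by nlinarith
    have := mul_le_mul_of_nonneg_left h1 (sq_nonneg cm)
    linarith
  rw [div_mul_eq_mul_div, le_div_iff₀ (by positivity)]
  linarith

/-- few negative charges, few charges -/
theorem ball_count_few {L K n k r0 R : ℝ} (hL : 0 < L) (hK : 0 ≤ K) (hr0 : 0 < r0) (hn : 0 ≤ n)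
    (hk : 1 ≤ k) (hnL : n ≤ (L + 1) * k) (hkK : k < K) (hR : r0 * k ≤ R) :
    n ^ ((5 : ℝ) / 3) ≤ ((L + 1) * K) ^ ((5 : ℝ) / 3) / r0 * R := by
  have h2 : n ^ ((5 : ℝ) / 3) ≤ ((L + 1) * K) ^ ((5 : ℝ) / 3) := by
    refine Real.rpow_le_rpow hn ?_ (by norm_num)
    refine hnL.trans ?_
    exact mul_le_mul_of_nonneg_left hkK.le (by positivity)
  have h4 : ((L + 1) * K) ^ ((5 : ℝ) / 3) = ((L + 1) * K) ^ ((5 : ℝ) / 3) / r0 * r0 := by
    field_simp
  rw [h4] at h2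
  refine h2.trans (mul_le_mul_of_nonneg_left ?_ (by positivity))
  have : r0 * 1 ≤ r0 * k := mul_le_mul_of_nonneg_left hk hr0.le
  linarith

/-- many positive charges -/
theorem ball_count_many {z cm n p r0 R : ℝ} (hcm : 0 < cm) (hz : 0 < z) (hr0 : 0 < r0) (hn : 0 ≤ n)
    (hnp : n ≤ 2 * p) (hmain : 9 / 16 * cm ^ 2 * p ^ 2 ≤ R + 2 * z ^ 2 * p) (hr1 : r0 ≤ R) :
    n ^ 2 ≤ 4 * (32 / (9 * cm ^ 2)) * (1 + 32 / 9 * z ^ 4 / cm ^ 2 / r0) * R := by
  have hamgm : 2 * z ^ 2 * p ≤ 9 / 32 * cm ^ 2 * p ^ 2 + 32 / 9 * z ^ 4 / cm ^ 2 := by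
    have h1 : 32 / 9 * z ^ 4 / cm ^ 2 = 32 / 9 * (z ^ 2 / cm) ^ 2 := by
      field_simp
    have h3 : 2 * z ^ 2 * p = 2 * (z ^ 2 / cm) * (cm * p) := by
      field_simp
    have h4 : 9 / 32 * cm ^ 2 * p ^ 2 = 9 / 32 * (cm * p) ^ 2 := by ring
    rw [h1, h3, h4]
    nlinarith [sq_nonneg (9 / 32 * (cm * p) - (z ^ 2 / cm))]
  have hc5 : 32 / 9 * z ^ 4 / cm ^ 2 ≤ 32 / 9 * z ^ 4 / cm ^ 2 / r0 * R := by
    have h0 : 0 ≤ 32 / 9 * z ^ 4 / cm ^ 2 / r0 := by positivity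
    have h1 := mul_le_mul_of_nonneg_left hr1 h0
    have h2 : 32 / 9 * z ^ 4 / cm ^ 2 / r0 * r0 = 32 / 9 * z ^ 4 / cm ^ 2 := by
      field_simp
    linarith
  have h6 : 9 / 32 * cm ^ 2 * p ^ 2 ≤ (1 + 32 / 9 * z ^ 4 / cm ^ 2 / r0) * R := by
    linarith
  have h7 : p ^ 2 ≤ 32 / (9 * cm ^ 2) * ((1 + 32 / 9 * z ^ 4 / cm ^ 2 / r0) * R) := by
    have h8 : p ^ 2 = 32 / (9 * cm ^ 2) * (9 / 32 * cm ^ 2 * p ^ 2) := by
      field_simp
    rw [h8]
    exact mul_le_mul_of_nonneg_left h6 (by positivity)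
  have h9 : n ^ 2 ≤ 4 * p ^ 2 := by
    have := pow_le_pow_left₀ hn hnp 2
    calc n ^ 2 ≤ (2 * p) ^ 2 := this
      _ = 4 * p ^ 2 := by ring
  calc n ^ 2 ≤ 4 * p ^ 2 := h9
    _ ≤ 4 * (32 / (9 * cm ^ 2) * ((1 + 32 / 9 * z ^ 4 / cm ^ 2 / r0) * R)) := by linarith
    _ = _ := by ring

/-- lower bound of the sum of the charges -/
theorem ball_count_sum {I : Type} [Fintype I] (u : I → ℝ) (z cm : ℝ)
    (hu : ∀ i, cm ≤ |u i| ∧ |u i| ≤ z) :
    cm * ((Finset.univ.filter (fun i => ¬ u i < 0)).card : ℝ) -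
      z * ((Finset.univ.filter (fun i => u i < 0)).card : ℝ) ≤ ∑ i, u i := by
  have h1 : ∑ i, (if u i < 0 then -z else cm) ≤ ∑ i, u i := by
    refine Finset.sum_le_sum (fun i _ => ?_)
    split_ifs with h
    · have := (hu i).2
      rw [abs_of_neg h] at this
      linarith
    · have := (hu i).1
      rwa [abs_of_nonneg (not_lt.1 h)] at this
  rw [Finset.sum_ite, Finset.sum_const, Finset.sum_const, nsmul_eq_mul, nsmul_eq_mul] at h1
  linarith

/-- sum of the squares -/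
theorem ball_count_sq {I : Type} [Fintype I] (u : I → ℝ) (z : ℝ) (hu : ∀ i, |u i| ≤ z) :
    ∑ i, u i ^ 2 ≤ (Fintype.card I : ℝ) * z ^ 2 := by
  have h1 : ∑ i, u i ^ 2 ≤ ∑ _i : I, z ^ 2 := by
    refine Finset.sum_le_sum (fun i _ => ?_)
    rw [← sq_abs]
    exact pow_le_pow_left₀ (abs_nonneg _) (hu i) 2
  rwa [Finset.sum_const, Finset.card_univ, nsmul_eq_mul] at h1

/-- negative part -/
theorem ball_count_neg {I : Type} [Fintype I] (u : I → ℝ) (cm : ℝ) (hu : ∀ i, cm ≤ |u i|) :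
    cm * ((Finset.univ.filter (fun i => u i < 0)).card : ℝ) ≤ ∑ i, max (-u i) 0 := by
  have h1 : ∑ i, (if u i < 0 then cm else 0) ≤ ∑ i, max (-u i) 0 := by
    refine Finset.sum_le_sum (fun i _ => ?_)
    split_ifs with h
    · have := hu i
      rw [abs_of_neg h] at this
      exact this.trans (le_max_left _ _)
    · exact le_max_right _ _
  rw [← Finset.sum_filter, Finset.sum_const, nsmul_eq_mul] at h1
  linarith

/-- the four cases -/
theorem ball_count_cases {I : Type} [Fintype I] [DecidableEq I] (u : I → ℝ) (z cm K L r0 R B n k : ℝ)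
    (hcm : 0 < cm) (hz : 0 < z) (hK : 0 ≤ K) (hL : L = 4 * z / cm) (hL4 : 4 ≤ L) (hr0 : r0 = 9 / 4 * z * cm)
    (hu : ∀ i, cm ≤ |u i| ∧ |u i| ≤ z) (hn : 2 ≤ Fintype.card I) (hndef : n = (Fintype.card I : ℝ))
    (hk : k = ((Finset.univ.filter (fun i => u i < 0)).card : ℝ))
    (hB : B = (if ∃ j, 0 < u j then ∑ i, max (-u i) 0 else 0))
    (hR : R = (∑ i, u i) ^ 2 - ∑ i, u i ^ 2 + 9 / 2 * z * B) (hRB : 9 / 4 * z * B ≤ R) (hB0 : 0 ≤ B) :
    n ^ 2 ≤ 2 / cm ^ 2 * R ∨ (K ≤ k ∧ n ≤ (L + 1) * k) ∨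
      n ^ ((5 : ℝ) / 3) ≤ ((L + 1) * K) ^ ((5 : ℝ) / 3) / r0 * R ∨
      n ^ 2 ≤ 4 * (32 / (9 * cm ^ 2)) * (1 + 32 / 9 * z ^ 4 / cm ^ 2 / r0) * R := by
  have hn2 : (2 : ℝ) ≤ n := by rw [hndef]; exact_mod_cast hn
  have hr0pos : 0 < r0 := by rw [hr0]; positivity
  have hLpos : 0 < L := by linarith
  obtain ⟨p, hp⟩ : ∃ p : ℝ, p = ((Finset.univ.filter (fun i => ¬ u i < 0)).card : ℝ) := ⟨_, rfl⟩
  have hnk : k + p = n := by
    rw [hk, hp, hndef]
    have := Finset.card_filter_add_card_filter_not (s := (Finset.univ : Finset I)) (fun i => u i < 0)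
    rw [Finset.card_univ] at this
    exact_mod_cast this
  have hk0 : 0 ≤ k := by rw [hk]; positivity
  have hp0 : 0 ≤ p := by rw [hp]; positivity
  have hzB : 0 ≤ 9 / 2 * z * B := by positivity
  by_cases hkz : ∀ i, ¬ u i < 0
  · left
    have hpos : ∀ i, cm ≤ u i := by
      intro i
      have h1 := (hu i).1
      rwa [abs_of_nonneg (not_lt.1 (hkz i))] at h1
    have h1 := ball_count_same u cm hcm hpos (by omega)
    rw [← hndef] at h1
    exact ball_count_one hcm hn2 (by rw [hR]; linarith)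
  by_cases hpz : ∀ i, u i < 0
  · left
    have hpos : ∀ i, cm ≤ -u i := by
      intro i
      have h1 := (hu i).1
      rwa [abs_of_neg (hpz i)] at h1
    have h1 := ball_count_same (fun i => -u i) cm hcm hpos (by omega)
    rw [← hndef] at h1
    have h1' : (∑ i, -u i) ^ 2 - ∑ i, (-u i) ^ 2 = (∑ i, u i) ^ 2 - ∑ i, u i ^ 2 := by
      rw [Finset.sum_neg_distrib, neg_sq]
      congr 1
      exact Finset.sum_congr rfl (fun i _ => by rw [neg_sq])
    rw [h1'] at h1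
    exact ball_count_one hcm hn2 (by rw [hR]; linarith)
  right
  have hk1 : 1 ≤ k := by
    push Not at hkz
    obtain ⟨i, hi⟩ := hkz
    rw [hk]
    have : 0 < (Finset.univ.filter (fun i => u i < 0)).card :=
      Finset.card_pos.2 ⟨i, by simp [hi]⟩
    exact_mod_cast this
  have hex : ∃ j, 0 < u j := by
    push Not at hpz
    obtain ⟨j, hj⟩ := hpz
    refine ⟨j, lt_of_le_of_ne hj ?_⟩
    intro h
    have := (hu j).1
    rw [← h, abs_zero] at this
    linarith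
  have hBk : cm * k ≤ B := by
    rw [hB, if_pos hex, hk]
    exact ball_count_neg u cm (fun i => (hu i).1)
  have hRk : r0 * k ≤ R := by
    have : 9 / 4 * z * (cm * k) ≤ 9 / 4 * z * B := mul_le_mul_of_nonneg_left hBk (by positivity)
    rw [hr0]
    linarith
  by_cases hpL : p ≤ L * k
  · have hnL : n ≤ (L + 1) * k := by rw [← hnk]; linarith
    by_cases hKk : K ≤ k
    · exact Or.inl ⟨hKk, hnL⟩
    · right; left
      exact ball_count_few hLpos hK hr0pos (by linarith) hk1 hnL (not_le.1 hKk) hRk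
  · push Not at hpL
    right; right
    have hkp : k ≤ p / L := by
      rw [le_div_iff₀ hLpos]; linarith
    have hkp1 : k ≤ p := by
      have : p / L ≤ p := div_le_self hp0 (by linarith)
      linarith
    have hsum : cm * p - z * k ≤ ∑ i, u i := by
      rw [hp, hk]; exact ball_count_sum u z cm hu
    have hzk : z * k ≤ cm * p / 4 := by
      have h1 : z * k ≤ z * (p / L) := mul_le_mul_of_nonneg_left hkp hz.le
      have h2 : z * (p / L) = cm * p / 4 := by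
        rw [hL]; field_simp
      linarith
    have hsum' : 3 / 4 * cm * p ≤ ∑ i, u i := by linarith
    have hsq : 9 / 16 * cm ^ 2 * p ^ 2 ≤ (∑ i, u i) ^ 2 := by
      have h0 : 0 ≤ 3 / 4 * cm * p := by positivity
      have := pow_le_pow_left₀ h0 hsum' 2
      calc 9 / 16 * cm ^ 2 * p ^ 2 = (3 / 4 * cm * p) ^ 2 := by ring
        _ ≤ _ := this
    have hnp : n ≤ 2 * p := by linarith
    have hus : ∑ i, u i ^ 2 ≤ 2 * z ^ 2 * p := by
      have h1 := ball_count_sq u z (fun i => (hu i).2)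
      rw [← hndef] at h1
      have h3 : n * z ^ 2 ≤ 2 * p * z ^ 2 := mul_le_mul_of_nonneg_right hnp (sq_nonneg z)
      linarith
    refine ball_count_many hcm hz hr0pos (by linarith) hnp (by rw [hR]; linarith) ?_
    have : r0 * 1 ≤ r0 * k := mul_le_mul_of_nonneg_left hk1 hr0pos.le
    linarith

/-- combination -/
theorem ball_count_fin {a b c d x R S : ℝ} (ha : 0 ≤ a) (hb : 0 ≤ b) (hc : 0 ≤ c) (hd : 0 ≤ d) (hR : 0 ≤ R)
    (hS : 0 ≤ S) (h : x ≤ a * R ∨ x ≤ b * S ∨ x ≤ c * R ∨ x ≤ d * R) :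
    x ≤ (a + b + c + d) * R + (a + b + c + d) * S := by
  have h1 := mul_nonneg ha hR
  have h2 := mul_nonneg hb hR
  have h3 := mul_nonneg hc hR
  have h4 := mul_nonneg hd hR
  have h5 := mul_nonneg ha hS
  have h6 := mul_nonneg hb hS
  have h7 := mul_nonneg hc hS
  have h8 := mul_nonneg hd hS
  have e : (a + b + c + d) * R + (a + b + c + d) * S =
    a * R + b * R + c * R + d * R + (a * S + b * S + c * S + d * S) := by ring
  rw [e]
  rcases h with h | h | h | h <;> linarith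

/-- TARGET -/
theorem ball_count (z cm K : ℝ) (hcm : 0 < cm) (hK : 0 ≤ K) :
    ∃ C : ℝ, 0 < C ∧ ∀ {I : Type} [Fintype I] [DecidableEq I] (u : I → ℝ),
      (∀ i, cm ≤ |u i| ∧ |u i| ≤ z) → 2 ≤ Fintype.card I →
      (Fintype.card I : ℝ) ^ ((5 : ℝ) / 3) ≤
        C * ((∑ i, u i) ^ 2 - ∑ i, u i ^ 2 +
          9 / 2 * z * (if ∃ j, 0 < u j then ∑ i, max (-u i) 0 else 0)) +
        C * (if K ≤ ((Finset.univ.filter (fun i => u i < 0)).card : ℝ) then
          ((Finset.univ.filter (fun i => u i < 0)).card : ℝ) ^ ((5 : ℝ) / 3) else 0) := by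
  by_cases hzc : cm ≤ z
  swap
  · refine ⟨1, one_pos, ?_⟩
    intro I _ _ u hu hn
    exfalso
    have : 0 < Fintype.card I := by omega
    obtain ⟨i⟩ := Fintype.card_pos_iff.1 this
    exact hzc ((hu i).1.trans (hu i).2)
  have hz : 0 < z := lt_of_lt_of_le hcm hzc
  obtain ⟨L, hL⟩ : ∃ L : ℝ, L = 4 * z / cm := ⟨_, rfl⟩
  have hL4 : 4 ≤ L := by
    rw [hL, le_div_iff₀ hcm]; linarith
  obtain ⟨r0, hr0⟩ : ∃ r0 : ℝ, r0 = 9 / 4 * z * cm := ⟨_, rfl⟩
  have hr0pos : 0 < r0 := by rw [hr0]; positivity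
  have hLpos : 0 < L := by linarith
  refine ⟨2 / cm ^ 2 + (L + 1) ^ ((5 : ℝ) / 3) + ((L + 1) * K) ^ ((5 : ℝ) / 3) / r0 +
    4 * (32 / (9 * cm ^ 2)) * (1 + 32 / 9 * z ^ 4 / cm ^ 2 / r0), by positivity, ?_⟩
  intro I _ _ u hu hn
  have hB0 : 0 ≤ (if ∃ j, 0 < u j then ∑ i, max (-u i) 0 else 0) := by
    split_ifs
    · exact Finset.sum_nonneg (fun i _ => le_max_right _ _)
    · exact le_refl _
  have hball := ball_ineq u z (fun i => (hu i).2)
  have hRB : 9 / 4 * z * (if ∃ j, 0 < u j then ∑ i, max (-u i) 0 else 0) ≤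
      (∑ i, u i) ^ 2 - ∑ i, u i ^ 2 +
          9 / 2 * z * (if ∃ j, 0 < u j then ∑ i, max (-u i) 0 else 0) := by linarith
  have hR0 : 0 ≤ (∑ i, u i) ^ 2 - ∑ i, u i ^ 2 +
          9 / 2 * z * (if ∃ j, 0 < u j then ∑ i, max (-u i) 0 else 0) :=
    le_trans (mul_nonneg (by positivity) hB0) hRB
  have hS0 : 0 ≤ (if K ≤ ((Finset.univ.filter (fun i => u i < 0)).card : ℝ) then
          ((Finset.univ.filter (fun i => u i < 0)).card : ℝ) ^ ((5 : ℝ) / 3) else 0) := by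
    split_ifs
    · positivity
    · exact le_refl _
  have hn2 : (2 : ℝ) ≤ (Fintype.card I : ℝ) := by exact_mod_cast hn
  have hpow : (Fintype.card I : ℝ) ^ ((5 : ℝ) / 3) ≤ (Fintype.card I : ℝ) ^ 2 :=
    ball_count_pow (by linarith)
  refine ball_count_fin (by positivity) (by positivity) (by positivity) (by positivity) hR0 hS0 ?_
  rcases ball_count_cases u z cm K L r0 _ _ _ _ hcm hz hK hL hL4 hr0 hu hn rfl rfl rfl rfl hRB hB0
    with h | ⟨h, h'⟩ | h | h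
  · exact Or.inl (hpow.trans h)
  · right; left
    rw [if_pos h]
    have h2 : (Fintype.card I : ℝ) ^ ((5 : ℝ) / 3) ≤
        ((L + 1) * ((Finset.univ.filter (fun i => u i < 0)).card : ℝ)) ^ ((5 : ℝ) / 3) :=
      Real.rpow_le_rpow (by linarith) h' (by norm_num)
    rwa [Real.mul_rpow (by positivity) (by positivity)] at h2
  · exact Or.inr (Or.inr (Or.inl h))
  · exact Or.inr (Or.inr (Or.inr (hpow.trans h)))

end Pool.Agent.Helper780_CP.RC1
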