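import Pool.Agent.Helper780_CP.LLDefs2
import Pool.Agent.Helper780_CP.RC1

set_option autoImplicit false

open MeasureTheory

namespace Pool.Agent.Helper780_CP.RNUMX

open Pool.Agent.Helper780_CP
open Pool.Agent.Helper985.CP
open Pool.Agent.Helper780_CP.RC1 (ball_count)

open Pool.Agent.Helper985.CP

theorem num_ball_nw_meas {I : Type} [Fintype I] (c : I → ℝ) (x : I → E3) (h : ℝ) :
    Measurable (nw c x h) := by
  classical
  have e : nw c x h = fun w => ∑ j, if c j < 0 ∧ (∀ t, w t - h ≤ x j t ∧ x j t < w t + h)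
      then (1 : ℝ) else 0 := by
    funext w
    rw [nw]
  rw [e]
  refine Finset.measurable_sum _ fun j _ => ?_
  refine Measurable.ite ?_ measurable_const measurable_const
  have h1 : {w : E3 | c j < 0 ∧ ∀ t, w t - h ≤ x j t ∧ x j t < w t + h} =
      {w : E3 | c j < 0} ∩ ⋂ t, ({w : E3 | w t - h ≤ x j t} ∩ {w : E3 | x j t < w t + h}) := by
    ext w
    simp
  rw [h1]
  refine (MeasurableSet.const _).inter (MeasurableSet.iInter fun t => ?_)
  have ht : Measurable fun w : E3 => w t := by fun_prop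
  exact (measurableSet_le (ht.sub_const h) measurable_const).inter
    (measurableSet_lt measurable_const (ht.add_const h))

theorem num_ball_nw_nonneg {I : Type} [Fintype I] (c : I → ℝ) (x : I → E3) (h : ℝ) (w : E3) :
    0 ≤ nw c x h w := by
  unfold nw
  exact Finset.sum_nonneg fun j _ => by split_ifs <;> norm_num

theorem num_ball_nw_le {I : Type} [Fintype I] (c : I → ℝ) (x : I → E3) (h : ℝ) (w : E3) :
    nw c x h w ≤ Fintype.card I := by
  unfold nw
  calc _ ≤ ∑ _j : I, (1 : ℝ) := Finset.sum_le_sum fun j _ => by split_ifs <;> norm_num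
    _ = _ := by simp

/-- the function of the second part -/
noncomputable def num_ball_g {I : Type} [Fintype I] (K : ℝ) (c : I → ℝ) (x : I → E3) (h : ℝ) (w : E3) : ℝ :=
  if K ≤ nw c x h w then nw c x h w ^ ((5 : ℝ) / 3) else 0

theorem num_ball_g_meas {I : Type} [Fintype I] (K : ℝ) (c : I → ℝ) (x : I → E3) (h : ℝ) :
    Measurable (num_ball_g K c x h) := by
  unfold num_ball_g
  exact Measurable.ite (measurableSet_le measurable_const (num_ball_nw_meas c x h))
    ((num_ball_nw_meas c x h).pow_const _) measurable_const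

theorem num_ball_g_nonneg {I : Type} [Fintype I] (K : ℝ) (c : I → ℝ) (x : I → E3) (h : ℝ) (w : E3) :
    0 ≤ num_ball_g K c x h w := by
  unfold num_ball_g
  split_ifs
  · exact Real.rpow_nonneg (num_ball_nw_nonneg c x h w) _
  · exact le_rfl

theorem num_ball_g_int {I : Type} [Fintype I] (K : ℝ) (c : I → ℝ) (x : I → E3) (h : ℝ) (y : E3) (R : ℝ) :
    IntegrableOn (num_ball_g K c x h) (Metric.ball y R) := by
  refine Measure.integrableOn_of_bounded (M := (Fintype.card I : ℝ) ^ ((5 : ℝ) / 3))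
    (measure_ball_lt_top.ne) (num_ball_g_meas K c x h).aestronglyMeasurable ?_
  refine Filter.Eventually.of_forall fun w => ?_
  rw [Real.norm_of_nonneg (num_ball_g_nonneg K c x h w)]
  unfold num_ball_g
  split_ifs
  · exact Real.rpow_le_rpow (num_ball_nw_nonneg c x h w) (num_ball_nw_le c x h w) (by norm_num)
  · positivity

/-- number of points in the open ball -/
noncomputable def num_ball_n {I : Type} [Fintype I] (x : I → E3) (r : ℝ) (w : E3) : ℕ :=
  (Finset.univ.filter fun j => ‖x j - w‖ < r).card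


/-- the electrostatic bound of the number of points in a ball -/
theorem num_ball_elec (z cm K : ℝ) (hcm : 0 < cm) (hK : 0 ≤ K) :
    ∃ C : ℝ, 0 < C ∧ ∀ {I : Type} [Fintype I] [DecidableEq I] (c : I → ℝ) (x : I → E3),
      (∀ i, cm ≤ |c i| ∧ |c i| ≤ z) → ∀ (r h : ℝ) (w : E3), r ≤ h → 2 ≤ num_ball_n x r w →
      (num_ball_n x r w : ℝ) ^ ((5 : ℝ) / 3) ≤ C * rb z c x r w + C * num_ball_g K c x h w := by
  obtain ⟨C, hC, hb⟩ := ball_count z cm K hcm hK
  refine ⟨C, hC, ?_⟩
  intro I _ _ c x hc r h w hrh hn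
  classical
  have hcard : Fintype.card {j // ‖x j - w‖ < r} = num_ball_n x r w := by
    rw [Fintype.card_subtype, num_ball_n]
  have h1 := hb (I := {j // ‖x j - w‖ < r}) (fun j => c j.1) (fun j => hc j.1) (by rw [hcard]; exact hn)
  rw [hcard] at h1
  refine h1.trans (add_le_add (le_of_eq ?_) ?_)
  · congr 1
    have hsub : ∀ f : I → ℝ, ∑ i : {j // ‖x j - w‖ < r}, f i.1 =
        ∑ i, if ‖x i - w‖ < r then f i else 0 := by
      intro f
      rw [← Finset.sum_filter]
      exact (Finset.sum_subtype _ (by simp) f).symm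
    have e1 := hsub c
    have e2 := hsub (fun i => c i ^ 2)
    have e3 := hsub (fun i => max (-c i) 0)
    unfold rb
    rw [e1, e2, e3]
    congr 2
    have hex : (∃ j : {j // ‖x j - w‖ < r}, 0 < c j.1) ↔ ∃ j, 0 < c j ∧ ‖x j - w‖ < r := by
      constructor
      · rintro ⟨j, hj⟩
        exact ⟨j.1, hj, j.2⟩
      · rintro ⟨j, hj, hj'⟩
        exact ⟨⟨j, hj'⟩, hj⟩
    by_cases hE : ∃ j, 0 < c j ∧ ‖x j - w‖ < r
    · rw [if_pos hE, if_pos (hex.2 hE)]
      refine Finset.sum_congr rfl fun i _ => ?_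
      by_cases h1 : ‖x i - w‖ < r
      · by_cases h2 : c i < 0
        · rw [if_pos h1, if_pos ⟨h2, h1⟩, max_eq_left (by linarith)]
        · rw [if_pos h1, if_neg (fun h => h2 h.1), max_eq_right (by linarith)]
      · rw [if_neg h1, if_neg (fun h => h1 h.2)]
    · rw [if_neg hE, if_neg (fun h => hE (hex.1 h))]
  · refine mul_le_mul_of_nonneg_left ?_ hC.le
    have hm : ((Finset.univ.filter (fun i : {j // ‖x j - w‖ < r} => c i.1 < 0)).card : ℝ) ≤
        nw c x h w := by
      unfold nw
      rw [Finset.sum_boole]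
      norm_cast
      refine Finset.card_le_card_of_injOn (fun i => i.1) ?_ (fun a _ b _ hab => Subtype.ext hab)
      intro i hi
      simp only [Finset.coe_filter, Finset.mem_univ, true_and, Set.mem_ofPred_eq] at hi ⊢
      refine ⟨hi, fun t => ?_⟩
      have h2 : |(x i.1 - w) t| ≤ ‖x i.1 - w‖ := by
        have := PiLp.norm_apply_le (x i.1 - w) t
        simpa using this
      have h3 : |x i.1 t - w t| < h := by
        have h4 : (x i.1 - w) t = x i.1 t - w t := by simp
        rw [h4] at h2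
        exact lt_of_le_of_lt h2 (lt_of_lt_of_le i.2 hrh)
      rw [abs_lt] at h3
      constructor <;> linarith [h3.1, h3.2]
    unfold num_ball_g
    split_ifs with h1 h2 h2
    · exact Real.rpow_le_rpow (by positivity) hm (by norm_num)
    · exact absurd (h1.trans hm) h2
    · exact Real.rpow_nonneg (num_ball_nw_nonneg c x h w) _
    · exact le_rfl


/-- TARGET -/
theorem num_ball (z cm K : ℝ) (hcm : 0 < cm) (hK : 0 ≤ K) (K₁ C₁ : ℝ) (hC₁ : 0 < C₁)
    (h : RB z K₁ C₁) :
    ∃ C : ℝ, 0 < C ∧ ∀ {I : Type} [Fintype I] [DecidableEq I] (c : I → ℝ) (x : I → E3),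
      (∀ i, cm ≤ |c i| ∧ |c i| ≤ z) → (∀ i j, i ≠ j → x i ≠ x j) →
      ∀ (y : E3) (r : ℝ), 0 < r → r ≤ 1 →
        nb y (r / 16) x ^ ((5 : ℝ) / 3) ≤
          1 + C * (vl (cy y r) c x + K₁ * pl (cy y r) c x) +
          C / r ^ 3 * ∫ w in Metric.ball y (r / 16),
            (if K ≤ nw c x (r / 4) w then nw c x (r / 4) w ^ ((5 : ℝ) / 3) else 0) := by
  classical
  obtain ⟨C, hC, hel⟩ := num_ball_elec z cm K hcm hK
  set V : ℝ := (volume (Metric.ball (0 : E3) 1)).toReal with hV
  have hV0 : 0 < V := ENNReal.toReal_pos (Metric.measure_ball_pos _ _ one_pos).ne'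
    measure_ball_lt_top.ne
  refine ⟨32 * C * C₁ / V + 4096 * C / V, by positivity, ?_⟩
  intro I _ _ c x hc hx y r hr hr1
  have hcz : ∀ i, |c i| ≤ z := fun i => (hc i).2
  have hχ : ∀ v, 0 ≤ cy y r v ∧ cy y r v ≤ 1 := fun v =>
    ⟨Real.smoothTransition.nonneg _, Real.smoothTransition.le_one _⟩
  obtain ⟨⟨hpl0, hplv⟩, hrb0, hRB⟩ := h c x (cy y r) hcz hx hχ
  set E : ℝ := vl (cy y r) c x + K₁ * pl (cy y r) c x with hE
  have hE0 : 0 ≤ E := hpl0.trans hplv
  set J : ℝ := ∫ w in Metric.ball y (r / 16), num_ball_g K c x (r / 4) w with hJ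
  have hJ0 : 0 ≤ J := integral_nonneg fun w => num_ball_g_nonneg K c x _ w
  have hJeq : ∫ w in Metric.ball y (r / 16),
      (if K ≤ nw c x (r / 4) w then nw c x (r / 4) w ^ ((5 : ℝ) / 3) else 0) = J := rfl
  rw [hJeq]
  -- the number of points
  set N : ℕ := (Finset.univ.filter fun i => ‖x i - y‖ ≤ r / 16).card with hN
  have hnb : nb y (r / 16) x = (N : ℝ) := by
    unfold nb
    rw [Finset.sum_boole]
  rw [hnb]
  set L : ℝ := (N : ℝ) ^ ((5 : ℝ) / 3) - 1 with hL
  by_cases hL0 : L ≤ 0
  · have h1 : 0 ≤ (32 * C * C₁ / V + 4096 * C / V) * E := by positivity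
    have h2 : 0 ≤ (32 * C * C₁ / V + 4096 * C / V) / r ^ 3 * J := by positivity
    linarith
  have hLpos : 0 < L := not_le.1 hL0
  have hN2 : 2 ≤ N := by
    by_contra hcon
    have h1 : N = 0 ∨ N = 1 := by omega
    rcases h1 with h1 | h1
    · rw [hL, h1] at hLpos
      rw [Nat.cast_zero, Real.zero_rpow (by norm_num)] at hLpos
      linarith
    · rw [hL, h1] at hLpos
      rw [Nat.cast_one, Real.one_rpow] at hLpos
      linarith
  have hpt : ∀ s ∈ Set.Ioo (r / 8) (r / 4), ∀ w ∈ Metric.ball y (r / 16),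
      L ≤ C * rb z c x s w + C * num_ball_g K c x (r / 4) w := by
    intro s hs w hw
    rw [Metric.mem_ball, dist_eq_norm] at hw
    have hle : N ≤ num_ball_n x s w := by
      rw [hN]
      unfold num_ball_n
      refine Finset.card_le_card fun i hi => ?_
      simp only [Finset.mem_filter, Finset.mem_univ, true_and] at hi ⊢
      calc ‖x i - w‖ = ‖(x i - y) - (w - y)‖ := by congr 1; abel
        _ ≤ ‖x i - y‖ + ‖w - y‖ := norm_sub_le _ _
        _ < r / 16 + r / 16 := by linarith
        _ < s := by linarith [hs.1]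
    have h1 := hel c x hc s (r / 4) w hs.2.le (by omega)
    have h2 : (N : ℝ) ^ ((5 : ℝ) / 3) ≤ (num_ball_n x s w : ℝ) ^ ((5 : ℝ) / 3) :=
      Real.rpow_le_rpow (by positivity) (by exact_mod_cast hle) (by norm_num)
    linarith
  -- integration over the centres
  have hvolb : volume (Metric.ball y (r / 16)) = ENNReal.ofReal ((r / 16) ^ 3 * V) := by
    rw [Measure.addHaar_ball _ _ (by positivity), ENNReal.ofReal_mul (by positivity),
      ENNReal.ofReal_toReal measure_ball_lt_top.ne]
    simp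
  have hvols : volume (Set.Ioo (r / 8) (r / 4)) = ENNReal.ofReal (r / 8) := by
    rw [Real.volume_Ioo]; congr 1; ring
  have hJl : ∫⁻ w in Metric.ball y (r / 16), ENNReal.ofReal (num_ball_g K c x (r / 4) w) =
      ENNReal.ofReal J := by
    rw [hJ, ofReal_integral_eq_lintegral_ofReal (num_ball_g_int K c x _ _ _)]
    exact Filter.Eventually.of_forall fun w => num_ball_g_nonneg K c x _ w
  have hstep1 : ∀ s ∈ Set.Ioo (r / 8) (r / 4), ENNReal.ofReal L * ENNReal.ofReal ((r / 16) ^ 3 * V) ≤
      ENNReal.ofReal C * (∫⁻ w in Metric.ball y (r / 16), ENNReal.ofReal (rb z c x s w)) +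
        ENNReal.ofReal C * ENNReal.ofReal J := by
    intro s hs
    rw [← hvolb, ← setLIntegral_const, ← hJl, ← lintegral_const_mul' _ _ ENNReal.ofReal_ne_top,
      ← lintegral_const_mul' _ _ ENNReal.ofReal_ne_top,
      ← lintegral_add_right _ ((num_ball_g_meas K c x _).ennreal_ofReal.const_mul _)]
    refine setLIntegral_mono' measurableSet_ball fun w hw => ?_
    refine (ENNReal.ofReal_le_ofReal (hpt s hs w hw)).trans ?_
    refine ENNReal.ofReal_add_le.trans ?_
    rw [ENNReal.ofReal_mul hC.le, ENNReal.ofReal_mul hC.le]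
  have hχ1 : ∀ v, ‖v - y‖ < r / 16 + r / 4 → cy y r v = 1 := by
    intro v hv
    unfold cy ct
    refine Real.smoothTransition.one_of_one_le ?_
    have h1 : ‖r⁻¹ • (v - y)‖ ≤ 1 := by
      rw [norm_smul, norm_inv, Real.norm_of_nonneg hr.le, inv_mul_le_iff₀ hr]
      linarith
    have h2 := norm_nonneg (r⁻¹ • (v - y))
    have h3 : ‖r⁻¹ • (v - y)‖ ^ 2 ≤ 1 := by nlinarith
    linarith
  have hRB' := hRB y (r / 16) (r / 4) hχ1
  have hstep2 : ENNReal.ofReal L * ENNReal.ofReal ((r / 16) ^ 3 * V) * ENNReal.ofReal (r / 8) ≤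
      ENNReal.ofReal (C * (r / 4) ^ 5) * ENNReal.ofReal (C₁ * E) +
        ENNReal.ofReal C * ENNReal.ofReal J * ENNReal.ofReal (r / 8) := by
    calc ENNReal.ofReal L * ENNReal.ofReal ((r / 16) ^ 3 * V) * ENNReal.ofReal (r / 8)
        = ∫⁻ _s in Set.Ioo (r / 8) (r / 4), ENNReal.ofReal L * ENNReal.ofReal ((r / 16) ^ 3 * V) := by
          rw [setLIntegral_const, hvols]
      _ ≤ ∫⁻ s in Set.Ioo (r / 8) (r / 4),
          (ENNReal.ofReal (C * (r / 4) ^ 5) * (ENNReal.ofReal ((s ^ 5)⁻¹) *
            ∫⁻ w in Metric.ball y (r / 16), ENNReal.ofReal (rb z c x s w)) +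
            ENNReal.ofReal C * ENNReal.ofReal J) := by
          refine setLIntegral_mono' measurableSet_Ioo fun s hs => ?_
          refine (hstep1 s hs).trans ?_
          refine add_le_add ?_ le_rfl
          rw [← mul_assoc, ← ENNReal.ofReal_mul (by positivity)]
          refine mul_le_mul_left (ENNReal.ofReal_le_ofReal ?_) _
          have hs0 : 0 < s := lt_trans (by positivity) hs.1
          have : 1 ≤ (r / 4) ^ 5 * (s ^ 5)⁻¹ := by
            rw [← div_eq_mul_inv, one_le_div (by positivity)]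
            have := hs.2.le
            gcongr
          calc C = C * 1 := (mul_one _).symm
            _ ≤ C * ((r / 4) ^ 5 * (s ^ 5)⁻¹) := by gcongr
            _ = _ := by ring
      _ = ENNReal.ofReal (C * (r / 4) ^ 5) * (∫⁻ s in Set.Ioo (r / 8) (r / 4),
            ENNReal.ofReal ((s ^ 5)⁻¹) *
            ∫⁻ w in Metric.ball y (r / 16), ENNReal.ofReal (rb z c x s w)) +
            ENNReal.ofReal C * ENNReal.ofReal J * ENNReal.ofReal (r / 8) := by
          rw [lintegral_add_right _ measurable_const, lintegral_const_mul' _ _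
            ENNReal.ofReal_ne_top, setLIntegral_const, hvols]
      _ ≤ _ := by
          refine add_le_add ?_ le_rfl
          refine mul_le_mul_right ?_ _
          refine le_trans (lintegral_mono_set ?_) hRB'
          exact fun s hs => ⟨lt_trans (by positivity) hs.1, hs.2⟩
  have hstep3 : L * ((r / 16) ^ 3 * V) * (r / 8) ≤
      C * (r / 4) ^ 5 * (C₁ * E) + C * J * (r / 8) := by
    rw [← ENNReal.ofReal_mul hLpos.le, ← ENNReal.ofReal_mul (by positivity),
      ← ENNReal.ofReal_mul (by positivity), ← ENNReal.ofReal_mul (by positivity),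
      ← ENNReal.ofReal_mul (by positivity), ← ENNReal.ofReal_add (by positivity) (by positivity),
      ENNReal.ofReal_le_ofReal_iff (by positivity)] at hstep2
    exact hstep2
  have hLle : L ≤ 32 * C * C₁ / V * (r * E) + 4096 * C / V / r ^ 3 * J := by
    have hpos : 0 < (r / 16) ^ 3 * V * (r / 8) := by positivity
    have h1 : L * ((r / 16) ^ 3 * V * (r / 8)) ≤
        (32 * C * C₁ / V * (r * E) + 4096 * C / V / r ^ 3 * J) * ((r / 16) ^ 3 * V * (r / 8)) := by
      have e1 : (32 * C * C₁ / V * (r * E) + 4096 * C / V / r ^ 3 * J) *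
          ((r / 16) ^ 3 * V * (r / 8)) = C * (r / 4) ^ 5 * (C₁ * E) + C * J * (r / 8) := by
        field_simp
        ring
      rw [e1]
      linarith
    exact le_of_mul_le_mul_right h1 hpos
  have hrE : r * E ≤ E := by nlinarith
  have h1 : 32 * C * C₁ / V * (r * E) ≤ (32 * C * C₁ / V + 4096 * C / V) * E := by
    have h2 : 32 * C * C₁ / V * (r * E) ≤ 32 * C * C₁ / V * E := by gcongr
    have h3 : 0 ≤ 4096 * C / V * E := by positivity
    linarith
  have h4 : 4096 * C / V / r ^ 3 * J ≤ (32 * C * C₁ / V + 4096 * C / V) / r ^ 3 * J := by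
    gcongr
    have : 0 ≤ 32 * C * C₁ / V := by positivity
    linarith
  linarith

end Pool.Agent.Helper780_CP.RNUMX
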