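import Pool.Agent.Helper985.CT.M_row_bound

set_option autoImplicit false

open MeasureTheory
open scoped Topology

namespace Pool.Agent.Helper780_CP

open Pool.Agent.Helper985.CP

/-- bounded measurable one-particle functions of bounded support -/
def nice1 (f : E3 → ℂ) : Prop :=
  Measurable f ∧ (∃ C : ℝ, ∀ z, ‖f z‖ ≤ C) ∧ ∃ R : ℝ, ∀ z, f z ≠ 0 → ‖z‖ ≤ R

theorem nice1_int (f : E3 → ℂ) (h : nice1 f) : Integrable f := by
  obtain ⟨hm, ⟨C, hC⟩, R, hR⟩ := h
  have h1 : IntegrableOn f (Metric.closedBall 0 R) := by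
    apply Measure.integrableOn_of_bounded (M := C)
    · exact (isCompact_closedBall _ _).measure_lt_top.ne
    · exact hm.aestronglyMeasurable
    · exact Filter.Eventually.of_forall hC
  rw [integrableOn_iff_integrable_of_support_subset] at h1
  · exact h1
  · intro x hx
    have := hR x hx
    simpa using this

theorem nice1_sq (f : E3 → ℂ) (h : nice1 f) : nice1 (fun z => (starRingEnd ℂ) (f z) * f z) := by
  obtain ⟨hm, ⟨C, hC⟩, R, hR⟩ := h
  refine ⟨(Complex.continuous_conj.measurable.comp hm).mul hm, ⟨C * C, fun z => ?_⟩, R,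
    fun z hz => ?_⟩
  · rw [norm_mul, RCLike.norm_conj]
    exact mul_le_mul (hC z) (hC z) (norm_nonneg _) ((norm_nonneg _).trans (hC z))
  · exact hR z (fun h => hz (by simp [h]))

/-- (one-particle function `f`, spin `σ`) tensor `χ` -/
noncomputable def tX {S : Type} (D : Species S) {I : Type} (f : E3 → ℂ)
    (σ : Fin D.g) (χ : Wave D I) : Wave D (Option I) :=
  fun τ x => if τ none = σ then f (x none) *
    χ (fun i => τ (some i)) (fun i => x (some i)) else 0

theorem elim_le {J : Type} [Fintype J] (z : E3) (x : J → E3) :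
    ‖x‖ ≤ ‖(fun o : Option J => o.elim z x)‖ ∧ ‖z‖ ≤ ‖(fun o : Option J => o.elim z x)‖ := by
  constructor
  · rw [pi_norm_le_iff_of_nonneg (norm_nonneg _)]
    intro j
    exact norm_le_pi_norm (fun o : Option J => o.elim z x) (some j)
  · exact norm_le_pi_norm (fun o : Option J => o.elim z x) none

theorem nice_psl {S : Type} (D : Species S) {I : Type} [Fintype I] (f : E3 → ℂ) (hf : nice1 f)
    (σ : Fin D.g) (Φ : Wave D (Option I)) (hΦ : ∀ τ, rbNice (Φ τ)) (τ : I → Fin D.g) :
    rbNice (psl D f σ Φ τ) := by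
  obtain ⟨hm, ⟨C, hC⟩, R, hR⟩ := hf
  obtain ⟨gm, ⟨C2, hC2⟩, R2, hR2⟩ := hΦ (fun o => o.elim σ τ)
  have hcm : Measurable (fun q : (I → E3) × E3 => (fun o : Option I => o.elim q.2 q.1)) :=
    (psl_cont (I := I)).measurable
  refine ⟨?_, ⟨C * C2 * (volume (Metric.closedBall (0 : E3) R)).toReal, fun x => ?_⟩, R2,
    fun x hx => ?_⟩
  · have h1 : Measurable (fun q : (I → E3) × E3 => (starRingEnd ℂ) (f q.2) *
        Φ (fun o => o.elim σ τ) (fun o => o.elim q.2 q.1)) :=
      (Complex.continuous_conj.measurable.comp (hm.comp measurable_snd)).mul (gm.comp hcm)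
    have h2 : StronglyMeasurable (fun x : I → E3 => ∫ z, (starRingEnd ℂ) (f z) *
        Φ (fun o => o.elim σ τ) (fun o => o.elim z x)) :=
      h1.stronglyMeasurable.integral_prod_right
    exact h2.measurable
  · have hb : ∀ z, ‖(starRingEnd ℂ) (f z) * slice D σ z Φ τ x‖ ≤ C * C2 := by
      intro z
      rw [norm_mul, RCLike.norm_conj]
      exact mul_le_mul (hC z) (hC2 _) (norm_nonneg _) ((norm_nonneg _).trans (hC z))
    have hs : psl D f σ Φ τ x =
        ∫ z in Metric.closedBall (0 : E3) R, (starRingEnd ℂ) (f z) * slice D σ z Φ τ x := by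
      unfold psl
      symm
      apply setIntegral_eq_integral_of_forall_compl_eq_zero
      intro z hz
      have : f z = 0 := by
        by_contra hne
        exact hz (by simpa using hR z hne)
      rw [this]
      simp
    rw [hs]
    have := norm_setIntegral_le_of_norm_le_const (μ := volume)
      (isCompact_closedBall (0 : E3) R).measure_lt_top (f := fun z =>
        (starRingEnd ℂ) (f z) * slice D σ z Φ τ x) (C := C * C2) (fun z _ => hb z)
    exact this
  · by_contra hcon
    apply hx
    unfold psl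
    have : ∀ z, (starRingEnd ℂ) (f z) * slice D σ z Φ τ x = 0 := by
      intro z
      have : slice D σ z Φ τ x = 0 := by
        by_contra hne
        exact hcon ((elim_le z x).1.trans (hR2 _ hne))
      rw [this, mul_zero]
    simp [this]

theorem nice_tX {S : Type} (D : Species S) {I : Type} [Fintype I] (f : E3 → ℂ) (hf : nice1 f)
    (σ : Fin D.g) (χ : Wave D I) (hχ : ∀ τ, rbNice (χ τ)) (τ : Option I → Fin D.g) :
    rbNice (tX D f σ χ τ) := by
  obtain ⟨hfm, ⟨C1, hC1⟩, R1, hR1⟩ := hf
  obtain ⟨hm, ⟨C, hC⟩, R, hR⟩ := hχ (fun i => τ (some i))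
  by_cases hτ : τ none = σ
  · have hX : tX D f σ χ τ = fun x : Option I → E3 => f (x none) *
          χ (fun i => τ (some i)) (fun i => x (some i)) := by
      funext x
      simp only [tX, if_pos hτ]
    rw [hX]
    refine ⟨?_, ⟨C1 * C, fun x => ?_⟩, |R1| + |R|, fun x hx => ?_⟩
    · apply Measurable.mul
      · exact hfm.comp (measurable_pi_apply none)
      · apply hm.comp
        exact measurable_pi_lambda _ fun i => measurable_pi_apply (some i)
    · rw [norm_mul]
      exact mul_le_mul (hC1 _) (hC _) (norm_nonneg _) ((norm_nonneg _).trans (hC1 0))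
    · have h1 : f (x none) ≠ 0 := fun h => hx (by simp [h])
      have h2 : χ (fun i => τ (some i)) (fun i => x (some i)) ≠ 0 := fun h => hx (by simp [h])
      have h3 := hR _ h2
      have h4 := hR1 _ h1
      rw [pi_norm_le_iff_of_nonneg (by positivity)]
      intro o
      cases o with
      | none =>
        have := le_abs_self R1
        have := abs_nonneg R
        linarith
      | some i =>
        have h4 : ‖x (some i)‖ ≤ ‖fun i => x (some i)‖ := norm_le_pi_norm (fun i => x (some i)) i
        have := le_abs_self R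
        have := abs_nonneg R1
        linarith
  · have hX : tX D f σ χ τ = fun _ => 0 := by
      funext x
      simp only [tX, if_neg hτ]
    rw [hX]
    exact ⟨measurable_const, ⟨0, fun x => by simp⟩, 0, fun x hx => absurd rfl hx⟩

theorem ip_tX {S : Type} (D : Species S) {I : Type} [Fintype I] [DecidableEq I]
    (f : E3 → ℂ) (hf : nice1 f) (σ : Fin D.g) (χ : Wave D I)
    (hχ : ∀ τ, rbNice (χ τ)) (Φ : Wave D (Option I)) (hΦ : ∀ τ, rbNice (Φ τ)) :
    ip D (tX D f σ χ) Φ = ip D χ (psl D f σ Φ) := by
  unfold ip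
  rw [rbs_sum_opt, Finset.sum_eq_single σ]
  · refine Finset.sum_congr rfl fun τ' _ => ?_
    have hX := nice_tX D f hf σ χ hχ (fun o => o.elim σ τ')
    have hP := hΦ (fun o => o.elim σ τ')
    rw [(rbs_fub _ (rb_nice_int _ (rb_nice_alg _ _ hX hP 0).2.2)).2]
    refine integral_congr_ae (Filter.Eventually.of_forall fun y => ?_)
    show ∫ z : E3, (starRingEnd ℂ) (tX D f σ χ (fun o => o.elim σ τ') (fun o => o.elim z y)) *
        Φ (fun o => o.elim σ τ') (fun o => o.elim z y) =
      (starRingEnd ℂ) (χ τ' y) * ∫ z, (starRingEnd ℂ) (f z) *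
        Φ (fun o => o.elim σ τ') (fun o => o.elim z y)
    rw [← integral_const_mul]
    refine integral_congr_ae (Filter.Eventually.of_forall fun z => ?_)
    show (starRingEnd ℂ) (tX D f σ χ (fun o => o.elim σ τ') (fun o => o.elim z y)) *
        Φ (fun o => o.elim σ τ') (fun o => o.elim z y) =
      (starRingEnd ℂ) (χ τ' y) * ((starRingEnd ℂ) (f z) *
        Φ (fun o => o.elim σ τ') (fun o => o.elim z y))
    have e1 : tX D f σ χ (fun o => o.elim σ τ') (fun o => o.elim z y) = f z * χ τ' y := by
      simp [tX]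
    rw [e1, map_mul]
    ring
  · intro b _ hb
    refine Finset.sum_eq_zero fun τ _ => ?_
    have : ∀ x : Option I → E3, (starRingEnd ℂ) (tX D f σ χ (fun o => o.elim b τ) x) *
        Φ (fun o => o.elim b τ) x = 0 := by
      intro x
      simp [tX, hb]
    simp only [this, integral_zero]
  · intro h; exact absurd (Finset.mem_univ _) h

theorem ip_tXX {S : Type} (D : Species S) {I : Type} [Fintype I] [DecidableEq I]
    (f : E3 → ℂ) (hf : nice1 f) (σ : Fin D.g) (χ : Wave D I) (hχ : ∀ τ, rbNice (χ τ)) :
    ip D (tX D f σ χ) (tX D f σ χ) = ((∫ z, ‖f z‖ ^ 2 : ℝ) : ℂ) * ip D χ χ := by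
  rw [ip_tX D f hf σ χ hχ _ (nice_tX D f hf σ χ hχ)]
  have h : psl D f σ (tX D f σ χ) = fun τ x => ((∫ z, ‖f z‖ ^ 2 : ℝ) : ℂ) * χ τ x := by
    funext τ x
    show ∫ z, (starRingEnd ℂ) (f z) * (tX D f σ χ (fun o => o.elim σ τ) (fun o => o.elim z x)) = _
    have e1 : ∀ z, (starRingEnd ℂ) (f z) * (tX D f σ χ (fun o => o.elim σ τ)
        (fun o => o.elim z x)) = ((‖f z‖ ^ 2 : ℝ) : ℂ) * χ τ x := by
      intro z
      have : tX D f σ χ (fun o => o.elim σ τ) (fun o => o.elim z x) = f z * χ τ x := by
        simp [tX]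
      rw [this, ← mul_assoc, Complex.conj_mul']
      push_cast
      rfl
    simp only [e1]
    rw [integral_mul_const, integral_complex_ofReal]
  rw [h]
  unfold ip
  rw [Finset.mul_sum]
  refine Finset.sum_congr rfl fun τ _ => ?_
  rw [← integral_const_mul]
  congr 1
  funext x
  ring

theorem ip_tX_swap {S : Type} (D : Species S) {J : Type} [Fintype J] [DecidableEq J]
    (f : E3 → ℂ) (hf : nice1 f) (σ : Fin D.g) (χ : Wave D (Option J))
    (hχ : ∀ τ, rbNice (χ τ)) :
    ip D (tX D f σ χ) (rbAct D (Equiv.swap none (some none)) (tX D f σ χ)) =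
      ((nrm2 D (psl D f σ χ) : ℝ) : ℂ) := by
  classical
  have hnX : ∀ τ, rbNice (tX D f σ χ τ) := nice_tX D f hf σ χ hχ
  have hint : ∀ τ, Integrable (fun x => (starRingEnd ℂ) (tX D f σ χ τ x) *
      rbAct D (Equiv.swap none (some none)) (tX D f σ χ) τ x) := fun τ =>
    rb_nice_int _ (rb_nice_alg _ _ (hnX τ) (rb_nice_act D _ (tX D f σ χ) hnX τ) 0).2.2
  have hnr : nrm2 D (psl D f σ χ) = ∑ τ : J → Fin D.g, ∫ w : J → E3,
      ‖∫ z, (starRingEnd ℂ) (f z) * χ (fun o => o.elim σ τ) (fun o => o.elim z w)‖ ^ 2 := rfl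
  rw [hnr]
  unfold ip
  rw [rbs_sum_opt, Finset.sum_eq_single σ, rbs_sum_opt, Finset.sum_eq_single σ]
  · push_cast
    refine Finset.sum_congr rfl fun τ _ => ?_
    rw [← integral_complex_ofReal]
    obtain ⟨h1, h2⟩ := rbs_fub _ (hint (fun o => o.elim σ (fun o => o.elim σ τ)))
    obtain ⟨_, h4⟩ := rbs_fub _ h1
    rw [h2, h4]
    refine integral_congr_ae (ae_of_all _ fun w => ?_)
    have hpt : ∀ z y : E3,
        (starRingEnd ℂ) (tX D f σ χ (fun o => o.elim σ (fun o => o.elim σ τ))
          (fun o => o.elim y (fun o => o.elim z w))) *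
        rbAct D (Equiv.swap none (some none)) (tX D f σ χ)
          (fun o => o.elim σ (fun o => o.elim σ τ))
          (fun o => o.elim y (fun o => o.elim z w)) =
        (starRingEnd ℂ) ((starRingEnd ℂ) (f z) *
            χ (fun o => o.elim σ τ) (fun o => o.elim z w)) *
          ((starRingEnd ℂ) (f y) *
            χ (fun o => o.elim σ τ) (fun o => o.elim y w)) := by
      intro z y
      have e1 : (fun i : Option J => ((fun o : Option (Option J) =>
          o.elim σ (fun o => o.elim σ τ)) ((Equiv.swap none (some none)) (some i)))) =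
          (fun o => o.elim σ τ) := by
        funext i
        cases i with
        | none => simp
        | some j => rw [Equiv.swap_apply_of_ne_of_ne (by simp) (by simp)]; rfl
      have e2 : (fun i : Option J => ((fun o : Option (Option J) =>
          o.elim y (fun o => o.elim z w)) ((Equiv.swap none (some none)) (some i)))) =
          (fun o => o.elim y w) := by
        funext i
        cases i with
        | none => simp
        | some j => rw [Equiv.swap_apply_of_ne_of_ne (by simp) (by simp)]; rfl
      simp only [tX, rbAct]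
      rw [e1, e2]
      simp only [Option.elim_none, Option.elim_some, Equiv.swap_apply_left, if_true, map_mul,
        Complex.conj_conj]
      ring
    simp only [hpt]
    simp only [integral_const_mul, integral_mul_const]
    rw [integral_conj]
    rw [← Complex.normSq_eq_conj_mul_self, Complex.normSq_eq_norm_sq]
  · intro b _ hb
    refine Finset.sum_eq_zero fun τ _ => ?_
    have : ∀ x : Option (Option J) → E3, (starRingEnd ℂ) (tX D f σ χ
        (fun o => o.elim σ (fun o => o.elim b τ)) x) *
        rbAct D (Equiv.swap none (some none)) (tX D f σ χ)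
          (fun o => o.elim σ (fun o => o.elim b τ)) x = 0 := by
      intro x
      simp [rbAct, tX, hb]
    simp only [this, integral_zero]
  · intro h; exact absurd (Finset.mem_univ _) h
  · intro b _ hb
    refine Finset.sum_eq_zero fun τ _ => ?_
    have : ∀ x : Option (Option J) → E3, (starRingEnd ℂ) (tX D f σ χ
        (fun o => o.elim b τ) x) *
        rbAct D (Equiv.swap none (some none)) (tX D f σ χ)
          (fun o => o.elim b τ) x = 0 := by
      intro x
      simp [tX, hb]
    simp only [this, integral_zero]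
  · intro h; exact absurd (Finset.mem_univ _) h

theorem nice_relab {S : Type} (D : Species S) {I J : Type} [Fintype I] [Fintype J]
    (e : I ≃ J) (F : Wave D I) (hF : ∀ τ, rbNice (F τ)) (τ : J → Fin D.g) :
    rbNice (relab D e F τ) := by
  obtain ⟨h1, ⟨C, hC⟩, ⟨R, hR⟩⟩ := hF (fun k => τ (e k))
  refine ⟨?_, ⟨C, fun x => hC _⟩, ⟨R, ?_⟩⟩
  · have hm : Measurable (fun x : J → E3 => (fun k => x (e k))) :=
      measurable_pi_lambda _ fun k => measurable_pi_apply _
    exact h1.comp hm
  · intro x hx
    have h2 : ‖(fun k => x (e k))‖ ≤ R := hR _ hx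
    have hR0 : 0 ≤ R := (norm_nonneg _).trans h2
    rw [pi_norm_le_iff_of_nonneg hR0]
    intro i
    have h3 := (pi_norm_le_iff_of_nonneg hR0).1 h2 (e.symm i)
    simpa using h3

/-- the exchange terms are nonnegative -/
theorem ip_tX_some {S : Type} (D : Species S) {I : Type} [Fintype I] [DecidableEq I]
    (f : E3 → ℂ) (hf : nice1 f) (σ : Fin D.g) (χ : Wave D I) (hχ : ∀ τ, rbNice (χ τ)) (i : I) :
    ∃ r : ℝ, 0 ≤ r ∧ ip D (tX D f σ χ) (rbAct D (Equiv.swap none (some i)) (tX D f σ χ)) =
      (r : ℂ) := by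
  obtain ⟨e, he⟩ : ∃ e : I ≃ Option {j // j ≠ i}, e i = none :=
    ⟨(Equiv.optionSubtypeNe i).symm, Equiv.optionSubtypeNe_symm_self i⟩
  have hst := nice_relab D e χ hχ
  have h0 := ip_tX_swap D f hf σ (relab D e χ) hst
  refine ⟨nrm2 D (psl D f σ (relab D e χ)), ?_, ?_⟩
  · rw [nrm2]
    exact Finset.sum_nonneg fun τ _ => integral_nonneg fun x => by positivity
  · rw [← h0]
    have h1 : (Equiv.optionCongr e) none = none := rfl
    have h2 : (Equiv.optionCongr e) (some i) = some none := by
      show some (e i) = some none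
      rw [he]
    have h3 := rb833_act D (Equiv.optionCongr e) none (some i) (tX D f σ χ)
    rw [h1, h2] at h3
    have h4 : tX D f σ (relab D e χ) = relab D (Equiv.optionCongr e) (tX D f σ χ) := rfl
    rw [h4, h3, rb833_ip]

theorem act_tX {S : Type} (D : Species S) {I : Type} [Fintype I] [DecidableEq I]
    (f : E3 → ℂ) (σ : Fin D.g) (χ : Wave D I) (ε : ℂ)
    (a b : I) (hs : ∀ τ x, χ (fun k => τ (Equiv.swap a b k)) (fun k => x (Equiv.swap a b k)) =
      ε * χ τ x) :
    rbAct D (Equiv.swap (some a) (some b)) (tX D f σ χ) =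
      fun τ x => ε * tX D f σ χ τ x := by
  funext τ x
  have h0 : Equiv.swap (some a) (some b) (none : Option I) = none :=
    Equiv.swap_apply_of_ne_of_ne (by simp) (by simp)
  have h1 : ∀ i : I, Equiv.swap (some a) (some b) (some i) = some (Equiv.swap a b i) := by
    intro i
    simp only [Equiv.swap_apply_def, Option.some.injEq]
    split_ifs <;> rfl
  have h2 := hs (fun i => τ (some i)) (fun i => x (some i))
  simp only [rbAct, tX, h0, h1]
  by_cases h : τ none = σ
  · rw [if_pos h, if_pos h]
    have h3 : χ (fun i => τ (some (Equiv.swap a b i))) (fun i => x (some (Equiv.swap a b i))) =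
        ε * χ (fun i => τ (some i)) (fun i => x (some i)) := h2
    rw [h3]
    ring
  · rw [if_neg h, if_neg h, mul_zero]

end Pool.Agent.Helper780_CP
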