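import Pool.Agent.Helper780_CP.PauliA

set_option autoImplicit false

open MeasureTheory
open scoped Topology

namespace Pool.Agent.Helper780_CP

open Pool.Agent.Helper985.CP

theorem psl_swap {S : Type} (D : Species S) {I : Type} [DecidableEq I]
    (f : E3 → ℂ) (σ : Fin D.g) (Φ : Wave D (Option I)) (ε : ℂ) (a b : I)
    (hs : ∀ τ x, Φ (fun k => τ (Equiv.swap (some a) (some b) k))
      (fun k => x (Equiv.swap (some a) (some b) k)) = ε * Φ τ x) (τ : I → Fin D.g) (x : I → E3) :
    psl D f σ Φ (fun k => τ (Equiv.swap a b k)) (fun k => x (Equiv.swap a b k)) =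
      ε * psl D f σ Φ τ x := by
  unfold psl
  rw [← integral_const_mul]
  congr 1
  funext z
  have h1 : slice D σ z Φ (fun k => τ (Equiv.swap a b k)) (fun k => x (Equiv.swap a b k)) =
      ε * slice D σ z Φ τ x := by
    unfold slice
    rw [← hs]
    have e : ∀ {β : Type} (c : β) (g : I → β), (fun o : Option I => (o.elim c
        (fun k => g (Equiv.swap a b k)) : β)) =
        fun k : Option I => (Equiv.swap (some a) (some b) k).elim c g := by
      intro β c g
      funext o
      cases o with
      | none =>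
        have h0 : Equiv.swap (some a) (some b) (none : Option I) = none :=
          Equiv.swap_apply_of_ne_of_ne (by simp) (by simp)
        rw [h0]
        rfl
      | some i =>
        have h1 : Equiv.swap (some a) (some b) (some i) = some (Equiv.swap a b i) := by
          simp only [Equiv.swap_apply_def, Option.some.injEq]
          split_ifs <;> rfl
        rw [h1]
        rfl
    rw [e, e]
  rw [h1]
  ring

/-- the Pauli principle for one orbital -/
theorem pauli {S : Type} [DecidableEq S] (D : Species S) {I : Type} [Fintype I]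
    [DecidableEq I] (sp : Option I → S) (f : E3 → ℂ) (hf : nice1 f) (σ : Fin D.g)
    (Φ : Wave D (Option I)) (hΦ : ∀ τ, rbNice (Φ τ))
    (hs : ∀ a b, a ≠ b → sp a = sp none → sp b = sp none → ∀ τ x,
      Φ (fun k => τ (Equiv.swap a b k)) (fun k => x (Equiv.swap a b k)) = -1 * Φ τ x) :
    (cnt sp (sp none) : ℝ) * nrm2 D (psl D f σ Φ) ≤ (∫ z, ‖f z‖ ^ 2) * nrm2 D Φ := by
  classical
  obtain ⟨n, hn⟩ : ∃ n : ℕ, n = cnt sp (sp none) := ⟨_, rfl⟩
  obtain ⟨A, hA⟩ : ∃ A : Finset (Option I), A = Finset.univ.filter (fun i => sp i = sp none) :=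
    ⟨_, rfl⟩
  have hAn : A.card = n := by rw [hA, hn, cnt]
  have hmA : ∀ a, a ∈ A → sp a = sp none := by intro a ha; rw [hA] at ha; simpa using ha
  obtain ⟨χ, hχ⟩ : ∃ χ : Wave D I, χ = psl D f σ Φ := ⟨_, rfl⟩
  have hχn : ∀ τ, rbNice (χ τ) := by rw [hχ]; exact nice_psl D f hf σ Φ hΦ
  obtain ⟨X, hX⟩ : ∃ X : Wave D (Option I), X = tX D f σ χ := ⟨_, rfl⟩
  have hXn : ∀ τ, rbNice (X τ) := by rw [hX]; exact nice_tX D f hf σ χ hχn
  have hAXn : ∀ (a : Option I) τ, rbNice (rbAct D (Equiv.swap none a) X τ) :=
    fun a τ => rb_nice_act D _ _ hXn τ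
  have hself : rbAct D (Equiv.swap none none) X = X := by
    funext τ x; simp [rbAct]
  obtain ⟨N, hN⟩ : ∃ N : ℝ, N = nrm2 D χ := ⟨_, rfl⟩
  obtain ⟨F, hF⟩ : ∃ F : ℝ, F = ∫ z, ‖f z‖ ^ 2 := ⟨_, rfl⟩
  have hF0 : 0 ≤ F := by rw [hF]; exact integral_nonneg fun z => by positivity
  have hNip : ip D χ χ = (N : ℂ) := by
    apply Complex.ext
    · rw [← (rb_nrm_cs D χ χ).1, hN]; simp
    · rw [(rb_nrm_cs D χ χ).2.1]; simp
  have hN0 : 0 ≤ N := by
    rw [hN, nrm2]
    exact Finset.sum_nonneg fun τ _ => integral_nonneg fun x => by positivity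
  have hP0 : 0 ≤ nrm2 D Φ := by
    rw [nrm2]
    exact Finset.sum_nonneg fun τ _ => integral_nonneg fun x => by positivity
  have h1 : ip D X Φ = (N : ℂ) := by
    rw [hX, ip_tX D f hf σ χ hχn Φ hΦ, ← hχ, hNip]
  obtain ⟨c, hc⟩ : ∃ c : Option I → ℂ, c = fun a => if a = none then 1 else -1 := ⟨_, rfl⟩
  have hcs : ∀ a, (starRingEnd ℂ) (c a) * c a = 1 := by
    intro a; rw [hc]; simp only; split_ifs <;> simp
  have h2 : ∀ a ∈ A, (starRingEnd ℂ) (c a) *
      ip D (rbAct D (Equiv.swap none a) X) Φ = (N : ℂ) := by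
    intro a ha
    rcases a with _ | i
    · rw [hself, hc, h1]; simp
    · have hsi := hmA _ ha
      have e1 : rbAct D (Equiv.swap none (some i)) Φ =
          fun τ x => ∑ _a ∈ ({()} : Finset Unit), (-1 : ℂ) * Φ τ x := by
        funext τ x
        simp only [Finset.sum_singleton]
        exact hs none (some i) (by simp) rfl hsi τ x
      have e2 := rb_ip_act D (Equiv.swap none (some i)) X Φ
      rw [e1, (rb_ip_lin D ({()} : Finset Unit) (fun _ => (-1 : ℂ)) (fun _ => Φ)
        (rbAct D (Equiv.swap none (some i)) X) (fun _ => hΦ) (hAXn (some i))).2.1] at e2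
      simp only [Finset.sum_singleton] at e2
      rw [← h1, ← e2, hc]
      simp
  obtain ⟨Y, hY⟩ : ∃ Y : Wave D (Option I), Y = fun τ x =>
    ∑ a ∈ A, c a * rbAct D (Equiv.swap none a) X τ x := ⟨_, rfl⟩
  have hYn : ∀ τ, rbNice (Y τ) := by
    rw [hY]
    exact (rb_ip_lin D A c (fun a => rbAct D (Equiv.swap none a) X) Φ
      (fun a => hAXn a) hΦ).2.2
  have h2' : ip D Y Φ = ((n * N : ℝ) : ℂ) := by
    rw [hY, (rb_ip_lin D A c (fun a => rbAct D (Equiv.swap none a) X) Φ
      (fun a => hAXn a) hΦ).1, Finset.sum_congr rfl h2, Finset.sum_const, hAn]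
    simp
  -- the exchange of two particles in `χ`
  have hχs : ∀ i j : I, i ≠ j → sp (some i) = sp none → sp (some j) = sp none → ∀ τ x,
      χ (fun k => τ (Equiv.swap i j k)) (fun k => x (Equiv.swap i j k)) = -1 * χ τ x := by
    intro i j hij hi hj τ x
    rw [hχ]
    exact psl_swap D f σ Φ (-1) i j
      (hs (some i) (some j) (fun h => hij (Option.some_injective _ h)) hi hj) τ x
  have hoff : ∀ a ∈ A, ∀ b ∈ A, a ≠ b → ((starRingEnd ℂ) (c a) * (c b *
      ip D (rbAct D (Equiv.swap none a) X) (rbAct D (Equiv.swap none b) X))).re ≤ 0 := by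
    intro a ha b hb hab
    rcases a with _ | i
    · rcases b with _ | j
      · exact absurd rfl hab
      · obtain ⟨r, hr, he⟩ := ip_tX_some D f hf σ χ hχn j
        rw [← hX] at he
        rw [hself, he, hc]
        simp
        exact hr
    · rcases b with _ | j
      · obtain ⟨r, hr, he⟩ := ip_tX_some D f hf σ χ hχn i
        rw [← hX] at he
        rw [hself, (rb_nrm_cs D X (rbAct D (Equiv.swap none (some i)) X)).2.2.1, he, hc]
        simp
        exact hr
      · have hij : i ≠ j := fun h => hab (by rw [h])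
        have hsi := hmA _ ha
        have hsj := hmA _ hb
        have e1 : rbAct D (Equiv.swap none (some j)) X =
            rbAct D (Equiv.swap none (some i)) (rbAct D
              (Equiv.swap none (some i) * Equiv.swap none (some j)) X) := by
          have : rbAct D (Equiv.swap none (some i)) (rbAct D
              (Equiv.swap none (some i) * Equiv.swap none (some j)) X) =
              rbAct D (Equiv.swap none (some i) *
              (Equiv.swap none (some i) * Equiv.swap none (some j))) X := rfl
          rw [this, ← mul_assoc, Equiv.swap_mul_self, one_mul]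
        have e2 : rbAct D (Equiv.swap none (some i) * Equiv.swap none (some j)) X =
            fun τ x => ∑ _a ∈ ({()} : Finset Unit), (-1 : ℂ) *
              rbAct D (Equiv.swap none (some j)) X τ x := by
          rw [rb_perm i j hij]
          have e3 : rbAct D (Equiv.swap none (some j) * Equiv.swap (some i) (some j)) X =
              rbAct D (Equiv.swap none (some j)) (rbAct D (Equiv.swap (some i) (some j)) X) :=
            rfl
          have e4 := act_tX D f σ χ (-1) i j (hχs i j hij hsi hsj)
          rw [← hX] at e4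
          rw [e3, e4]
          funext τ x
          simp only [Finset.sum_singleton]
          rfl
        obtain ⟨r, hr, he⟩ := ip_tX_some D f hf σ χ hχn j
        rw [← hX] at he
        have e5 : ip D (rbAct D (Equiv.swap none (some i)) X)
            (rbAct D (Equiv.swap none (some j)) X) = -(r : ℂ) := by
          conv_lhs => rw [e1]
          rw [rb_ip_act, e2, (rb_ip_lin D ({()} : Finset Unit) (fun _ => (-1 : ℂ))
            (fun _ => rbAct D (Equiv.swap none (some j)) X) X
            (fun _ => hAXn (some j)) hXn).2.1]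
          simp only [Finset.sum_singleton]
          rw [he]
          ring
        rw [e5, hc]
        simp
        exact hr
  have hdiag : ∀ a, ip D (rbAct D (Equiv.swap none a) X)
      (rbAct D (Equiv.swap none a) X) = ((F * N : ℝ) : ℂ) := by
    intro a
    rw [rb_ip_act, hX, ip_tXX D f hf σ χ hχn, hNip, hF]
    push_cast
    rfl
  have hYY : nrm2 D Y ≤ n * (F * N) := by
    rw [(rb_nrm_cs D Y Y).1]
    have e1 := (rb_ip_lin D A c (fun a => rbAct D (Equiv.swap none a) X) Y
      (fun a => hAXn a) hYn).1
    rw [← hY] at e1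
    rw [e1]
    have e2 : ∀ a, ip D (rbAct D (Equiv.swap none a) X) Y =
        ∑ b ∈ A, c b * ip D (rbAct D (Equiv.swap none a) X) (rbAct D (Equiv.swap none b) X) := by
      intro a
      have := (rb_ip_lin D A c (fun b => rbAct D (Equiv.swap none b) X)
        (rbAct D (Equiv.swap none a) X) (fun b => hAXn b) (hAXn a)).2.1
      rw [← hY] at this
      exact this
    simp only [e2, Finset.mul_sum]
    rw [Complex.re_sum]
    simp only [Complex.re_sum]
    calc ∑ a ∈ A, ∑ b ∈ A, ((starRingEnd ℂ) (c a) * (c b *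
          ip D (rbAct D (Equiv.swap none a) X) (rbAct D (Equiv.swap none b) X))).re
        ≤ ∑ a ∈ A, ∑ b ∈ A, (if a = b then F * N else 0) := by
          refine Finset.sum_le_sum fun a ha => Finset.sum_le_sum fun b hb => ?_
          by_cases hab : a = b
          · subst hab
            rw [if_pos rfl, hdiag, ← mul_assoc, hcs, one_mul, Complex.ofReal_re]
          · rw [if_neg hab]
            exact hoff a ha b hb hab
      _ = n * (F * N) := by
          have : ∀ a ∈ A, ∑ b ∈ A, (if a = b then F * N else 0) = F * N := by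
            intro a ha
            rw [Finset.sum_ite_eq, if_pos ha]
          rw [Finset.sum_congr rfl this, Finset.sum_const, hAn, nsmul_eq_mul]
  rw [← hχ, ← hN, ← hn, ← hF]
  have hcs2 : ∀ F' : ℝ, F < F' → n * N ≤ F' * nrm2 D Φ := by
    intro F' hF'
    have hF'0 : 0 < F' := lt_of_le_of_lt hF0 hF'
    have h3 := (rb_nrm_cs D Y Φ).2.2.2 hYn hΦ (1 / F') (by positivity)
    rw [h2', Complex.norm_real, Real.norm_of_nonneg (by positivity), one_div_one_div] at h3
    have h4 : 1 / F' * nrm2 D Y ≤ n * N := by
      calc 1 / F' * nrm2 D Y ≤ 1 / F' * (n * (F * N)) :=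
            mul_le_mul_of_nonneg_left hYY (by positivity)
        _ = (F / F') * (n * N) := by ring
        _ ≤ 1 * (n * N) := by
            refine mul_le_mul_of_nonneg_right ?_ (by positivity)
            rw [div_le_one hF'0]
            exact hF'.le
        _ = n * N := one_mul _
    linarith
  by_contra hcon
  rw [not_le] at hcon
  have h5 : 0 < nrm2 D Φ + 1 := by linarith
  have h6 := hcs2 (F + (n * N - F * nrm2 D Φ) / (nrm2 D Φ + 1)) (by
    have : 0 < (n * N - F * nrm2 D Φ) / (nrm2 D Φ + 1) := div_pos (by linarith) h5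
    linarith)
  have h7 : (n * N - F * nrm2 D Φ) / (nrm2 D Φ + 1) * nrm2 D Φ < n * N - F * nrm2 D Φ := by
    rw [div_mul_eq_mul_div, div_lt_iff₀ h5]
    nlinarith
  linarith

end Pool.Agent.Helper780_CP
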