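import Pool.Agent.Helper780_CP.LLDefs2
import Pool.Agent.H85R3.RMPoinc

set_option autoImplicit false

open MeasureTheory

namespace Pool.Agent.Helper780_CP.RC6

open Pool.Agent.Helper780_CP
open Pool.Agent.Helper985.CP

/-- the coordinates -/
noncomputable def ev : E3 ≃ᵐ (ℝ × ℝ) × ℝ :=
  (((MeasurableEquiv.toLp 2 (Fin 3 → ℝ)).symm.trans
    (MeasurableEquiv.piFinSuccAbove (fun _ => ℝ) (Fin.last 2))).trans
      MeasurableEquiv.prodComm).trans
        (MeasurableEquiv.prodCongr MeasurableEquiv.finTwoArrow (MeasurableEquiv.refl ℝ))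

theorem ev_apply (z : E3) : ev z = ((z 0, z 1), z 2) := rfl

theorem ev_mp : MeasurePreserving ev (volume : Measure E3) (volume : Measure ((ℝ × ℝ) × ℝ)) := by
  unfold ev
  have h1 := EuclideanSpace.volume_preserving_symm_measurableEquiv_toLp (Fin 3)
  have h2 := volume_preserving_piFinSuccAbove (fun _ : Fin 3 => ℝ) (Fin.last 2)
  have h3 : MeasurePreserving (MeasurableEquiv.prodComm : ℝ × (Fin 2 → ℝ) ≃ᵐ (Fin 2 → ℝ) × ℝ)
      volume volume := Measure.measurePreserving_swap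
  have h4 : MeasurePreserving (MeasurableEquiv.prodCongr MeasurableEquiv.finTwoArrow
      (MeasurableEquiv.refl ℝ) : (Fin 2 → ℝ) × ℝ ≃ᵐ (ℝ × ℝ) × ℝ) volume volume :=
    (volume_preserving_finTwoArrow ℝ).prod (MeasurePreserving.id volume)
  exact ((h1.trans h2).trans h3).trans h4

/-- the half-open cube -/
def cub (q : E3) (s : ℝ) : Set E3 := {z : E3 | ∀ k, q k ≤ z k ∧ z k < q k + s}

/-- the inverse of the coordinates -/
noncomputable def vi (p : (ℝ × ℝ) × ℝ) : E3 := !₂[p.1.1, p.1.2, p.2]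

theorem ev_vi (p : (ℝ × ℝ) × ℝ) : ev (vi p) = p := rfl

theorem vi_ev (z : E3) : vi (ev z) = z := by
  apply ev.injective
  rw [ev_vi]

theorem vi_cont : Continuous vi := by
  unfold vi
  fun_prop

theorem cub_eq (q : E3) (s : ℝ) : cub q s = ev ⁻¹'
    ((Set.Ico (q 0) (q 0 + s) ×ˢ Set.Ico (q 1) (q 1 + s)) ×ˢ Set.Ico (q 2) (q 2 + s)) := by
  ext z
  simp only [cub, Set.mem_ofPred_eq, Set.mem_preimage, ev_apply, Set.mem_prod, Set.mem_Ico,
    Fin.forall_fin_succ]
  constructor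
  · rintro ⟨h0, h1, h2, -⟩
    exact ⟨⟨h0, h1⟩, h2⟩
  · rintro ⟨⟨h0, h1⟩, h2⟩
    exact ⟨h0, h1, h2, fun i => i.elim0⟩

theorem cub_meas (q : E3) (s : ℝ) : MeasurableSet (cub q s) := by
  rw [cub_eq]
  exact ev.measurable ((measurableSet_Ico.prod measurableSet_Ico).prod measurableSet_Ico)

theorem cub_vol (q : E3) (s : ℝ) (hs : 0 < s) : (volume (cub q s)).toReal = s ^ 3 := by
  rw [cub_eq, ev_mp.measure_preimage
    ((measurableSet_Ico.prod measurableSet_Ico).prod measurableSet_Ico).nullMeasurableSet]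
  have h1 : (volume : Measure ((ℝ × ℝ) × ℝ)) = (volume.prod volume).prod volume := rfl
  rw [h1, Measure.prod_prod, Measure.prod_prod, Real.volume_Ico, Real.volume_Ico, Real.volume_Ico,
    ENNReal.toReal_mul, ENNReal.toReal_mul]
  simp only [add_sub_cancel_left]
  rw [ENNReal.toReal_ofReal hs.le]
  ring

theorem cub_int {F : Type*} [NormedAddCommGroup F] {h : E3 → F}
    (hc : Continuous h) (q : E3) (s : ℝ) : IntegrableOn h (cub q s) := by
  have hb : Bornology.IsBounded (cub q s) := by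
    have h1 : IsCompact ((Set.Icc (q 0) (q 0 + s) ×ˢ Set.Icc (q 1) (q 1 + s)) ×ˢ
        Set.Icc (q 2) (q 2 + s)) := (isCompact_Icc.prod isCompact_Icc).prod isCompact_Icc
    refine ((h1.image vi_cont).isBounded).subset ?_
    intro z hz
    exact ⟨ev z, ⟨⟨⟨(hz 0).1, (hz 0).2.le⟩, ⟨(hz 1).1, (hz 1).2.le⟩⟩, ⟨(hz 2).1, (hz 2).2.le⟩⟩,
      vi_ev z⟩
  exact (hc.continuousOn.integrableOn_compact hb.isCompact_closure).mono_set subset_closure

theorem cub_transfer {F : Type*} [NormedAddCommGroup F] [NormedSpace ℝ F] (g : E3 → F) (q : E3)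
    (s : ℝ) : ∫ p, g (vi p) ∂(((volume.restrict (Set.Ico (q 0) (q 0 + s))).prod
      (volume.restrict (Set.Ico (q 1) (q 1 + s)))).prod
      (volume.restrict (Set.Ico (q 2) (q 2 + s)))) = ∫ z in cub q s, g z := by
  have h1 : (((volume.restrict (Set.Ico (q 0) (q 0 + s))).prod
      (volume.restrict (Set.Ico (q 1) (q 1 + s)))).prod
      (volume.restrict (Set.Ico (q 2) (q 2 + s)))) = (volume : Measure ((ℝ × ℝ) × ℝ)).restrict
      ((Set.Ico (q 0) (q 0 + s) ×ˢ Set.Ico (q 1) (q 1 + s)) ×ˢ Set.Ico (q 2) (q 2 + s)) := by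
    rw [Measure.prod_restrict, Measure.prod_restrict]
    rfl
  rw [h1, cub_eq, ← ev_mp.setIntegral_preimage_emb ev.measurableEmbedding]
  simp only [vi_ev]

theorem ltransfer (g : E3 → ENNReal) (q : E3)
    (s : ℝ) : ∫⁻ p, g (vi p) ∂(((volume.restrict (Set.Ico (q 0) (q 0 + s))).prod
      (volume.restrict (Set.Ico (q 1) (q 1 + s)))).prod
      (volume.restrict (Set.Ico (q 2) (q 2 + s)))) = ∫⁻ z in cub q s, g z := by
  have h1 : (((volume.restrict (Set.Ico (q 0) (q 0 + s))).prod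
      (volume.restrict (Set.Ico (q 1) (q 1 + s)))).prod
      (volume.restrict (Set.Ico (q 2) (q 2 + s)))) = (volume : Measure ((ℝ × ℝ) × ℝ)).restrict
      ((Set.Ico (q 0) (q 0 + s) ×ˢ Set.Ico (q 1) (q 1 + s)) ×ˢ Set.Ico (q 2) (q 2 + s)) := by
    rw [Measure.prod_restrict, Measure.prod_restrict]
    rfl
  rw [h1, cub_eq, ← ev_mp.setLIntegral_comp_preimage_emb ev.measurableEmbedding]
  simp only [vi_ev]

theorem vi_deriv1 (x y z : ℝ) :
    HasDerivAt (fun t => vi ((t, y), z)) (EuclideanSpace.single 0 (1 : ℝ)) x := by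
  have h1 : (fun t => vi ((t, y), z)) =
      fun t => vi ((0, y), z) + t • (EuclideanSpace.single 0 (1 : ℝ) : E3) := by
    funext t
    ext i
    fin_cases i <;> simp [vi]
  rw [h1]
  have h2 := ((hasDerivAt_id x).smul_const (EuclideanSpace.single 0 (1 : ℝ) : E3)).const_add
    (vi ((0, y), z))
  rw [one_smul] at h2
  exact h2

theorem vi_deriv2 (x y z : ℝ) :
    HasDerivAt (fun t => vi ((x, t), z)) (EuclideanSpace.single 1 (1 : ℝ)) y := by
  have h1 : (fun t => vi ((x, t), z)) =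
      fun t => vi ((x, 0), z) + t • (EuclideanSpace.single 1 (1 : ℝ) : E3) := by
    funext t
    ext i
    fin_cases i <;> simp [vi]
  rw [h1]
  have h2 := ((hasDerivAt_id y).smul_const (EuclideanSpace.single 1 (1 : ℝ) : E3)).const_add
    (vi ((x, 0), z))
  rw [one_smul] at h2
  exact h2

theorem vi_deriv3 (x y z : ℝ) :
    HasDerivAt (fun t => vi ((x, y), t)) (EuclideanSpace.single 2 (1 : ℝ)) z := by
  have h1 : (fun t => vi ((x, y), t)) =
      fun t => vi ((x, y), 0) + t • (EuclideanSpace.single 2 (1 : ℝ) : E3) := by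
    funext t
    ext i
    fin_cases i <;> simp [vi]
  rw [h1]
  have h2 := ((hasDerivAt_id z).smul_const (EuclideanSpace.single 2 (1 : ℝ) : E3)).const_add
    (vi ((x, y), 0))
  rw [one_smul] at h2
  exact h2

/-- the real case, mean zero -/
theorem real_case (h : E3 → ℝ) (hh : ContDiff ℝ 1 h) (q : E3) (s : ℝ) (hs : 0 < s)
    (h0 : ∫ z in cub q s, h z = 0) :
    ∫ z in cub q s, h z ^ 2 ≤ 4 * s ^ 2 * ∫ z in cub q s,
      ∑ k : Fin 3, (fderiv ℝ h z (EuclideanSpace.single k (1 : ℝ))) ^ 2 := by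
  have hc : Continuous h := hh.continuous
  have hd : ∀ k : Fin 3, Continuous fun z => fderiv ℝ h z (EuclideanSpace.single k (1 : ℝ)) :=
    fun k => (hh.continuous_fderiv (by simp)).clm_apply continuous_const
  have hdiff : ∀ z, HasFDerivAt h (fderiv ℝ h z) z :=
    fun z => (hh.differentiable (by simp) z).hasFDerivAt
  have key := Pool.Agent.H85R3.RM.box_poincare (u := fun p => h (vi p))
    (d₁ := fun p => fderiv ℝ h (vi p) (EuclideanSpace.single 0 (1 : ℝ)))
    (d₂ := fun p => fderiv ℝ h (vi p) (EuclideanSpace.single 1 (1 : ℝ)))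
    (d₃ := fun p => fderiv ℝ h (vi p) (EuclideanSpace.single 2 (1 : ℝ)))
    (a₁ := q 0) (b₁ := q 0 + s) (a₂ := q 1) (b₂ := q 1 + s) (a₃ := q 2) (b₃ := q 2 + s) (δ := s)
    (hc.comp vi_cont).measurable ((hd 0).comp vi_cont).measurable ((hd 1).comp vi_cont).measurable
    ((hd 2).comp vi_cont).measurable (by linarith) (by linarith) (by linarith) (by linarith)
    (by linarith) (by linarith)
    (fun x _ y _ z _ => (hdiff _).comp_hasDerivAt x (vi_deriv1 x y z))
    (fun x _ y _ z _ => (hdiff _).comp_hasDerivAt y (vi_deriv2 x y z))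
    (fun x _ y _ z _ => (hdiff _).comp_hasDerivAt z (vi_deriv3 x y z))
    (hc.comp vi_cont).continuousOn ((hd 0).comp vi_cont).continuousOn
    ((hd 1).comp vi_cont).continuousOn ((hd 2).comp vi_cont).continuousOn
    (by rw [cub_transfer h q s]; exact h0)
  have e1 := ltransfer (fun z => ENNReal.ofReal (h z ^ 2)) q s
  have e2 := ltransfer (fun z => ENNReal.ofReal
      (fderiv ℝ h z (EuclideanSpace.single 0 (1 : ℝ)) ^ 2) + ENNReal.ofReal
      (fderiv ℝ h z (EuclideanSpace.single 1 (1 : ℝ)) ^ 2) + ENNReal.ofReal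
      (fderiv ℝ h z (EuclideanSpace.single 2 (1 : ℝ)) ^ 2)) q s
  simp only at e1 e2
  rw [e1, e2] at key
  have f1 : ∫ z in cub q s, h z ^ 2 = (∫⁻ z in cub q s, ENNReal.ofReal (h z ^ 2)).toReal := by
    rw [integral_eq_lintegral_of_nonneg_ae (Filter.Eventually.of_forall fun z => sq_nonneg _)
      (hc.pow 2).aestronglyMeasurable]
  have hcs : Continuous fun z => ∑ k : Fin 3,
      (fderiv ℝ h z (EuclideanSpace.single k (1 : ℝ))) ^ 2 :=
    continuous_finsetSum _ (fun k _ => (hd k).pow 2)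
  have f2 : ∫ z in cub q s, ∑ k : Fin 3, (fderiv ℝ h z (EuclideanSpace.single k (1 : ℝ))) ^ 2 =
      (∫⁻ z in cub q s, ENNReal.ofReal (∑ k : Fin 3,
        (fderiv ℝ h z (EuclideanSpace.single k (1 : ℝ))) ^ 2)).toReal := by
    rw [integral_eq_lintegral_of_nonneg_ae (Filter.Eventually.of_forall fun z =>
      Finset.sum_nonneg fun k _ => sq_nonneg _) hcs.aestronglyMeasurable]
  have f3 : ∀ z, ENNReal.ofReal (∑ k : Fin 3,
        (fderiv ℝ h z (EuclideanSpace.single k (1 : ℝ))) ^ 2) = ENNReal.ofReal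
      (fderiv ℝ h z (EuclideanSpace.single 0 (1 : ℝ)) ^ 2) + ENNReal.ofReal
      (fderiv ℝ h z (EuclideanSpace.single 1 (1 : ℝ)) ^ 2) + ENNReal.ofReal
      (fderiv ℝ h z (EuclideanSpace.single 2 (1 : ℝ)) ^ 2) := by
    intro z
    rw [Fin.sum_univ_three, ENNReal.ofReal_add (by positivity) (by positivity),
      ENNReal.ofReal_add (by positivity) (by positivity)]
  have hfin : ∫⁻ z in cub q s, ENNReal.ofReal (∑ k : Fin 3,
        (fderiv ℝ h z (EuclideanSpace.single k (1 : ℝ))) ^ 2) ≠ ⊤ := by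
    have h5 := (cub_int hcs q s).lintegral_lt_top
    exact h5.ne
  simp_rw [← f3] at key
  rw [f1, f2]
  have h6 := ENNReal.toReal_mono (ENNReal.mul_ne_top (by finiteness) hfin) key
  rw [ENNReal.toReal_mul, ENNReal.toReal_mul, ENNReal.toReal_pow, ENNReal.toReal_ofReal hs.le] at h6
  simpa using h6

/-- TARGET -/
theorem poinc_cube : ∃ C : ℝ, 0 < C ∧ ∀ (f : E3 → ℂ), ContDiff ℝ 1 f → ∀ (q : E3) (s : ℝ), 0 < s →
    ∫ z in {z : E3 | ∀ k, q k ≤ z k ∧ z k < q k + s},
      ‖f z - ((s ^ 3)⁻¹ : ℝ) • ∫ w in {z : E3 | ∀ k, q k ≤ z k ∧ z k < q k + s}, f w‖ ^ 2 ≤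
    C * s ^ 2 * ∫ z in {z : E3 | ∀ k, q k ≤ z k ∧ z k < q k + s},
      ∑ k : Fin 3, ‖fderiv ℝ f z (EuclideanSpace.single k (1 : ℝ))‖ ^ 2 := by
  refine ⟨4, by norm_num, ?_⟩
  intro f hf q s hs
  change ∫ z in cub q s, ‖f z - ((s ^ 3)⁻¹ : ℝ) • ∫ w in cub q s, f w‖ ^ 2 ≤
    4 * s ^ 2 * ∫ z in cub q s, ∑ k : Fin 3, ‖fderiv ℝ f z (EuclideanSpace.single k (1 : ℝ))‖ ^ 2
  set m : ℂ := ((s ^ 3)⁻¹ : ℝ) • ∫ w in cub q s, f w with hm
  have hg : ContDiff ℝ 1 (fun z => f z - m) := hf.sub contDiff_const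
  have hgc : Continuous (fun z => f z - m) := hg.continuous
  have hi : IntegrableOn (fun z => f z - m) (cub q s) := cub_int hgc q s
  have hz : ∫ z in cub q s, (f z - m) = 0 := by
    have hci : IntegrableOn (fun _ : E3 => m) (cub q s) := cub_int continuous_const q s
    rw [integral_sub (cub_int hf.continuous q s) hci, setIntegral_const, Measure.real,
      cub_vol q s hs, hm, smul_smul, mul_inv_cancel₀ (by positivity), one_smul, sub_self]
  have hre : ContDiff ℝ 1 (fun z => (f z - m).re) := Complex.reCLM.contDiff.comp hg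
  have him : ContDiff ℝ 1 (fun z => (f z - m).im) := Complex.imCLM.contDiff.comp hg
  have hzre : ∫ z in cub q s, (f z - m).re = 0 := by
    have := integral_re hi
    simp only [RCLike.re_to_complex] at this
    rw [this, hz, Complex.zero_re]
  have hzim : ∫ z in cub q s, (f z - m).im = 0 := by
    have := integral_im hi
    simp only [RCLike.im_to_complex] at this
    rw [this, hz, Complex.zero_im]
  have k1 := real_case _ hre q s hs hzre
  have k2 := real_case _ him q s hs hzim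
  have hdf : ∀ z, HasFDerivAt (fun z => f z - m) (fderiv ℝ f z) z :=
    fun z => ((hf.differentiable (by simp) z).hasFDerivAt).sub_const m
  have d1 : ∀ z v, fderiv ℝ (fun z => (f z - m).re) z v = (fderiv ℝ f z v).re := by
    intro z v
    have h1 : HasFDerivAt (fun z => (f z - m).re) (Complex.reCLM.comp (fderiv ℝ f z)) z :=
      Complex.reCLM.hasFDerivAt.comp z (hdf z)
    rw [h1.fderiv]
    rfl
  have d2 : ∀ z v, fderiv ℝ (fun z => (f z - m).im) z v = (fderiv ℝ f z v).im := by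
    intro z v
    have h1 : HasFDerivAt (fun z => (f z - m).im) (Complex.imCLM.comp (fderiv ℝ f z)) z :=
      Complex.imCLM.hasFDerivAt.comp z (hdf z)
    rw [h1.fderiv]
    rfl
  simp_rw [d1] at k1
  simp_rw [d2] at k2
  have hfd : ∀ k : Fin 3, Continuous fun z => fderiv ℝ f z (EuclideanSpace.single k (1 : ℝ)) :=
    fun k => (hf.continuous_fderiv (by simp)).clm_apply continuous_const
  have s1 : ∫ z in cub q s, ‖f z - m‖ ^ 2 =
      (∫ z in cub q s, (f z - m).re ^ 2) + ∫ z in cub q s, (f z - m).im ^ 2 := by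
    have c1 : Continuous fun z => (f z - m).re ^ 2 := hre.continuous.pow 2
    have c2 : Continuous fun z => (f z - m).im ^ 2 := him.continuous.pow 2
    rw [← integral_add (cub_int c1 q s) (cub_int c2 q s)]
    congr 1
    funext z
    rw [← Complex.normSq_eq_norm_sq, Complex.normSq_apply]
    ring
  have s2 : ∫ z in cub q s, ∑ k : Fin 3, ‖fderiv ℝ f z (EuclideanSpace.single k (1 : ℝ))‖ ^ 2 =
      (∫ z in cub q s, ∑ k : Fin 3, (fderiv ℝ f z (EuclideanSpace.single k (1 : ℝ))).re ^ 2) +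
      ∫ z in cub q s, ∑ k : Fin 3, (fderiv ℝ f z (EuclideanSpace.single k (1 : ℝ))).im ^ 2 := by
    have c1 : Continuous fun z => ∑ k : Fin 3,
        (fderiv ℝ f z (EuclideanSpace.single k (1 : ℝ))).re ^ 2 :=
      continuous_finsetSum _ (fun k _ => (Complex.continuous_re.comp (hfd k)).pow 2)
    have c2 : Continuous fun z => ∑ k : Fin 3,
        (fderiv ℝ f z (EuclideanSpace.single k (1 : ℝ))).im ^ 2 :=
      continuous_finsetSum _ (fun k _ => (Complex.continuous_im.comp (hfd k)).pow 2)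
    rw [← integral_add (cub_int c1 q s) (cub_int c2 q s)]
    congr 1
    funext z
    rw [← Finset.sum_add_distrib]
    apply Finset.sum_congr rfl
    intro k _
    rw [← Complex.normSq_eq_norm_sq, Complex.normSq_apply]
    ring
  rw [s1, s2, mul_add]
  exact add_le_add k1 k2

end Pool.Agent.Helper780_CP.RC6
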