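import Pool.Agent.Helper780_CP.LLDefs2
import Pool.Agent.Helper780_CP.RC6
import Pool.Agent.Helper780_CP.PauliA
import Pool.Agent.Helper780_CP.PauliB
import Pool.Agent.Helper985.CT.M_row_bound

set_option autoImplicit false

open MeasureTheory

namespace Pool.Agent.Helper780_CP.RC7

open Pool.Agent.Helper780_CP
open Pool.Agent.Helper985.CP
open Pool.Agent.Helper780_CP.RC6 (poinc_cube)

open Pool.Agent.Helper985.CP

theorem Qc_meas (q : E3) (s : ℝ) : MeasurableSet (Qc q s) := by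
  have h1 : Qc q s = ⋂ k : Fin 3, {y : E3 | q k ≤ y k} ∩ {y : E3 | y k < q k + s} := by
    ext y
    simp [Qc]
  rw [h1]
  refine MeasurableSet.iInter fun k => MeasurableSet.inter ?_ ?_
  · exact (isClosed_le continuous_const (by fun_prop)).measurableSet
  · exact (isOpen_lt (by fun_prop) continuous_const).measurableSet

theorem Qc_vol (q : E3) (s : ℝ) (hs : 0 < s) : volume (Qc q s) = ENNReal.ofReal (s ^ 3) := by
  have h1 : Qc q s = (@WithLp.ofLp 2 (Fin 3 → ℝ)) ⁻¹'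
      (Set.pi Set.univ (fun k : Fin 3 => Set.Ico (q k) (q k + s))) := by
    ext y
    simp [Qc, Set.mem_pi]
  rw [h1, (PiLp.volume_preserving_ofLp (Fin 3)).measure_preimage
    (MeasurableSet.univ_pi fun _ => measurableSet_Ico).nullMeasurableSet,
    Real.volume_pi_Ico]
  simp [ENNReal.ofReal_pow hs.le]

theorem Qc_fin (q : E3) (s : ℝ) (hs : 0 < s) : volume (Qc q s) ≠ ⊤ := by
  rw [Qc_vol q s hs]; exact ENNReal.ofReal_ne_top

theorem Qc_volR (q : E3) (s : ℝ) (hs : 0 < s) : (volume : Measure E3).real (Qc q s) = s ^ 3 := by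
  rw [Measure.real, Qc_vol q s hs, ENNReal.toReal_ofReal (by positivity)]

theorem Qc_bdd (q : E3) (s : ℝ) (z : E3) (hz : z ∈ Qc q s) :
    ‖z‖ ≤ ‖q‖ + Real.sqrt (∑ _k : Fin 3, s ^ 2) := by
  have h1 : ‖z - q‖ ≤ Real.sqrt (∑ _k : Fin 3, s ^ 2) := by
    rw [EuclideanSpace.norm_eq]
    apply Real.sqrt_le_sqrt
    apply Finset.sum_le_sum
    intro k _
    have := hz k
    rw [Real.norm_eq_abs, sq_abs]
    have e : (z - q) k = z k - q k := rfl
    rw [e]
    nlinarith [this.1, this.2]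
  have h2 : ‖z‖ ≤ ‖q‖ + ‖z - q‖ := by
    have := norm_add_le q (z - q)
    simpa using this
  linarith

/-- corners of the small cubes -/
noncomputable def crn (q : E3) (s : ℝ) (m : ℕ) (a : Fin 3 → Fin m) : E3 :=
  WithLp.toLp 2 (fun k => q k + (a k : ℝ) * (s / m))

theorem crn_apply (q : E3) (s : ℝ) (m : ℕ) (a : Fin 3 → Fin m) (k : Fin 3) :
    crn q s m a k = q k + (a k : ℝ) * (s / m) := rfl

theorem Qc_sub (q : E3) (s : ℝ) (hs : 0 < s) (m : ℕ) (hm : 1 ≤ m) (a : Fin 3 → Fin m) :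
    Qc (crn q s m a) (s / m) ⊆ Qc q s := by
  intro z hz k
  have hm0 : (0 : ℝ) < m := by exact_mod_cast hm
  have h1 := hz k
  rw [crn_apply] at h1
  have h2 : (0 : ℝ) ≤ (a k : ℝ) * (s / m) := by positivity
  have h3 : ((a k : ℕ) : ℝ) + 1 ≤ m := by exact_mod_cast (a k).2
  have h4 : ((a k : ℝ) + 1) * (s / m) ≤ m * (s / m) := mul_le_mul_of_nonneg_right h3 (by positivity)
  have h5 : (m : ℝ) * (s / m) = s := by field_simp
  constructor
  · linarith [h1.1]
  · linarith [h1.2]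

theorem Qc_union (q : E3) (s : ℝ) (hs : 0 < s) (m : ℕ) (hm : 1 ≤ m) :
    Qc q s = ⋃ a : Fin 3 → Fin m, Qc (crn q s m a) (s / m) := by
  have hm0 : (0 : ℝ) < m := by exact_mod_cast hm
  have hsm : 0 < s / m := by positivity
  ext z
  rw [Set.mem_iUnion]
  constructor
  · intro hz
    have h1 : ∀ k : Fin 3, ⌊(z k - q k) / (s / m)⌋₊ < m := by
      intro k
      rw [Nat.floor_lt (div_nonneg (by linarith [(hz k).1]) hsm.le), div_lt_iff₀ hsm]
      have : (m : ℝ) * (s / m) = s := by field_simp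
      rw [this]
      linarith [(hz k).2]
    refine ⟨fun k => ⟨⌊(z k - q k) / (s / m)⌋₊, h1 k⟩, fun k => ?_⟩
    rw [crn_apply]
    have h2 := Nat.floor_le (a := (z k - q k) / (s / m))
      (div_nonneg (by linarith [(hz k).1]) hsm.le)
    have h3 := Nat.lt_floor_add_one ((z k - q k) / (s / m))
    rw [le_div_iff₀ hsm] at h2
    rw [div_lt_iff₀ hsm] at h3
    constructor
    · simp only
      linarith
    · simp only
      linarith
  · rintro ⟨a, ha⟩
    exact Qc_sub q s hs m hm a ha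

theorem Qc_disj (q : E3) (s : ℝ) (hs : 0 < s) (m : ℕ) (hm : 1 ≤ m) :
    Pairwise (Function.onFun Disjoint fun a : Fin 3 → Fin m => Qc (crn q s m a) (s / m)) := by
  have hm0 : (0 : ℝ) < m := by exact_mod_cast hm
  have hsm : 0 < s / m := by positivity
  intro a b hab
  rw [Function.onFun, Set.disjoint_left]
  intro z ha hb
  apply hab
  funext k
  have h1 := ha k
  have h2 := hb k
  rw [crn_apply] at h1 h2
  have key : ∀ i j : Fin m, q k + (i : ℝ) * (s / m) ≤ z k → z k < q k + (j : ℝ) * (s / m) + s / m →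
      (i : ℕ) ≤ j := by
    intro i j hi hj
    by_contra hcon
    have h3 : ((j : ℕ) : ℝ) + 1 ≤ (i : ℕ) := by exact_mod_cast not_le.1 hcon
    have h4 : ((j : ℝ) + 1) * (s / m) ≤ (i : ℝ) * (s / m) := mul_le_mul_of_nonneg_right h3 hsm.le
    linarith
  exact Fin.ext (le_antisymm (key _ _ h1.1 h2.2) (key _ _ h2.1 h1.2))

theorem Qc_int (q : E3) (s : ℝ) (hs : 0 < s) (m : ℕ) (hm : 1 ≤ m) (f : E3 → ℝ)
    (hf : IntegrableOn f (Qc q s)) :
    ∫ z in Qc q s, f z = ∑ a : Fin 3 → Fin m, ∫ z in Qc (crn q s m a) (s / m), f z := by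
  have h := hf
  rw [Qc_union q s hs m hm] at h
  rw [Qc_union q s hs m hm, integral_iUnion (fun a => Qc_meas _ _) (Qc_disj q s hs m hm) h,
    tsum_fintype]

/-- the gradient -/
noncomputable def gr (f : E3 → ℂ) (z : E3) : ℝ :=
  ∑ k : Fin 3, ‖fderiv ℝ f z (EuclideanSpace.single k (1 : ℝ))‖ ^ 2

theorem gr_cont (f : E3 → ℂ) (hf : ContDiff ℝ 1 f) : Continuous (gr f) := by
  unfold gr
  have h : Continuous (fderiv ℝ f) := hf.continuous_fderiv (by simp)
  exact continuous_finsetSum _ fun k _ => ((h.clm_apply continuous_const).norm).pow 2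

theorem Qc_intOn {G : Type} [NormedAddCommGroup G] (f : E3 → G) (hf : Continuous f) (q : E3)
    (s : ℝ) : IntegrableOn f (Qc q s) := by
  have h1 : IntegrableOn f (Metric.closedBall 0 (‖q‖ + Real.sqrt (∑ _k : Fin 3, s ^ 2))) :=
    hf.continuousOn.integrableOn_compact (isCompact_closedBall _ _)
  refine h1.mono_set fun z hz => ?_
  rw [mem_closedBall_zero_iff]
  exact Qc_bdd q s z hz

theorem one_cube (C : ℝ) (hP : ∀ (f : E3 → ℂ), ContDiff ℝ 1 f → ∀ (q : E3) (s : ℝ), 0 < s →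
    ∫ z in {z : E3 | ∀ k, q k ≤ z k ∧ z k < q k + s},
      ‖f z - ((s ^ 3)⁻¹ : ℝ) • ∫ w in {z : E3 | ∀ k, q k ≤ z k ∧ z k < q k + s}, f w‖ ^ 2 ≤
    C * s ^ 2 * ∫ z in {z : E3 | ∀ k, q k ≤ z k ∧ z k < q k + s},
      ∑ k : Fin 3, ‖fderiv ℝ f z (EuclideanSpace.single k (1 : ℝ))‖ ^ 2)
    (f : E3 → ℂ) (hf : ContDiff ℝ 1 f) (q : E3) (s : ℝ) (hs : 0 < s) :
    ∫ z in Qc q s, ‖f z‖ ^ 2 ≤ (s ^ 3)⁻¹ * ‖∫ z in Qc q s, f z‖ ^ 2 +
      C * s ^ 2 * ∫ z in Qc q s, gr f z := by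
  have h := hP f hf q s hs
  change ∫ z in Qc q s, ‖f z - ((s ^ 3)⁻¹ : ℝ) • ∫ w in Qc q s, f w‖ ^ 2 ≤
    C * s ^ 2 * ∫ z in Qc q s, gr f z at h
  have hs3 : (0 : ℝ) < s ^ 3 := by positivity
  set A : ℂ := ∫ w in Qc q s, f w with hA
  have i1 : IntegrableOn (fun z => ‖f z‖ ^ 2) (Qc q s) := Qc_intOn _ (hf.continuous.norm.pow 2) q s
  have i0 : IntegrableOn f (Qc q s) := Qc_intOn _ hf.continuous q s
  let c : ℂ := ((s ^ 3)⁻¹ : ℝ) • A
  let L : ℂ →L[ℝ] ℝ := innerSL ℝ c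
  have hL : ∀ z, L z = inner ℝ c z := fun z => rfl
  have e1 : ∀ z, ‖f z - c‖ ^ 2 = ‖f z‖ ^ 2 - 2 * L (f z) + ‖c‖ ^ 2 := by
    intro z
    rw [hL, norm_sub_sq_real, real_inner_comm]
  have i2 : IntegrableOn (fun z => L (f z)) (Qc q s) := L.integrable_comp i0
  have e2 : ∫ z in Qc q s, ‖f z - c‖ ^ 2 =
      (∫ z in Qc q s, ‖f z‖ ^ 2) - 2 * L A + ‖c‖ ^ 2 * s ^ 3 := by
    simp only [e1]
    have i3 : IntegrableOn (fun z => 2 * L (f z)) (Qc q s) := i2.const_mul 2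
    have i4 : IntegrableOn (fun z => ‖f z‖ ^ 2 - 2 * L (f z)) (Qc q s) := i1.sub i3
    have i5 : IntegrableOn (fun _ : E3 => ‖c‖ ^ 2) (Qc q s) := integrableOn_const (Qc_fin q s hs)
    rw [integral_add i4 i5, integral_sub i1 i3, integral_const_mul, L.integral_comp_comm i0,
      setIntegral_const, Qc_volR q s hs, smul_eq_mul]
    ring
  have e3 : L A = (s ^ 3)⁻¹ * ‖A‖ ^ 2 := by
    rw [hL, inner_smul_left, real_inner_self_eq_norm_sq]
    simp
  have e4 : ‖c‖ ^ 2 = ((s ^ 3)⁻¹) ^ 2 * ‖A‖ ^ 2 := by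
    show ‖((s ^ 3)⁻¹ : ℝ) • A‖ ^ 2 = _
    rw [norm_smul, mul_pow, Real.norm_eq_abs, sq_abs]
  have e5 : ((s ^ 3)⁻¹) ^ 2 * ‖A‖ ^ 2 * s ^ 3 = (s ^ 3)⁻¹ * ‖A‖ ^ 2 := by
    field_simp
  have e6 : ∫ z in Qc q s, ‖f z - c‖ ^ 2 = (∫ z in Qc q s, ‖f z‖ ^ 2) - (s ^ 3)⁻¹ * ‖A‖ ^ 2 := by
    rw [e2, e3, e4, e5]
    ring
  have e7 : ∫ z in Qc q s, ‖f z - c‖ ^ 2 ≤ C * s ^ 2 * ∫ z in Qc q s, gr f z := h
  rw [e6] at e7
  linarith

theorem many_cubes (C : ℝ) (hP : ∀ (f : E3 → ℂ), ContDiff ℝ 1 f → ∀ (q : E3) (s : ℝ), 0 < s →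
    ∫ z in {z : E3 | ∀ k, q k ≤ z k ∧ z k < q k + s},
      ‖f z - ((s ^ 3)⁻¹ : ℝ) • ∫ w in {z : E3 | ∀ k, q k ≤ z k ∧ z k < q k + s}, f w‖ ^ 2 ≤
    C * s ^ 2 * ∫ z in {z : E3 | ∀ k, q k ≤ z k ∧ z k < q k + s},
      ∑ k : Fin 3, ‖fderiv ℝ f z (EuclideanSpace.single k (1 : ℝ))‖ ^ 2)
    (f : E3 → ℂ) (hf : ContDiff ℝ 1 f) (q : E3) (s : ℝ) (hs : 0 < s) (m : ℕ) (hm : 1 ≤ m) :
    ∫ z in Qc q s, ‖f z‖ ^ 2 ≤
      (∑ a : Fin 3 → Fin m, ((s / m) ^ 3)⁻¹ * ‖∫ z in Qc (crn q s m a) (s / m), f z‖ ^ 2) +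
      C * (s / m) ^ 2 * ∫ z in Qc q s, gr f z := by
  have hm0 : (0 : ℝ) < m := by exact_mod_cast hm
  rw [Qc_int q s hs m hm (fun z => ‖f z‖ ^ 2) (Qc_intOn _ (hf.continuous.norm.pow 2) q s),
    Qc_int q s hs m hm (gr f) (Qc_intOn _ (gr_cont f hf) q s), Finset.mul_sum,
    ← Finset.sum_add_distrib]
  exact Finset.sum_le_sum fun a _ => one_cube C hP f hf _ _ (by positivity)

open Classical in
theorem nsp_meas {S : Type} {J : Type} [Fintype J] (sp : J → S) (s0 : S) (A : Set E3)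
    (hA : MeasurableSet A) : Measurable (nsp sp s0 A) := by
  unfold nsp
  refine Finset.measurable_fun_sum _ fun j _ => ?_
  have h : MeasurableSet {x : J → E3 | sp j = s0 ∧ x j ∈ A} := by
    by_cases hj : sp j = s0
    · have : {x : J → E3 | sp j = s0 ∧ x j ∈ A} = (fun x : J → E3 => x j) ⁻¹' A := by
        ext x; simp [hj]
      rw [this]
      exact hA.preimage (measurable_pi_apply j)
    · have : {x : J → E3 | sp j = s0 ∧ x j ∈ A} = ∅ := by
        ext x; simp [hj]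
      rw [this]
      exact MeasurableSet.empty
  exact Measurable.ite h measurable_const measurable_const

theorem nsp_nat {S : Type} [DecidableEq S] {J : Type} [Fintype J] (sp : J → S) (s0 : S)
    (A : Set E3) (x : J → E3) : ∃ k : ℕ, k ≤ cnt sp s0 ∧ nsp sp s0 A x = k := by
  classical
  refine ⟨(Finset.univ.filter (fun j => sp j = s0 ∧ x j ∈ A)).card, ?_, ?_⟩
  · unfold cnt
    refine Finset.card_le_card fun j hj => ?_
    rw [Finset.mem_filter] at hj ⊢
    exact ⟨hj.1, hj.2.1⟩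
  · unfold nsp
    rw [← Finset.sum_boole]
    refine Finset.sum_congr rfl fun j _ => ?_
    by_cases h : sp j = s0 ∧ x j ∈ A
    · rw [if_pos h, if_pos h]
    · rw [if_neg h, if_neg h]

theorem nsp_swap {S : Type} {J : Type} [Fintype J] [DecidableEq J] (sp : J → S) (s0 : S)
    (A : Set E3) (x : J → E3) (a b : J) (ha : sp a = s0) (hb : sp b = s0) :
    nsp sp s0 A (fun k => x (Equiv.swap a b k)) = nsp sp s0 A x := by
  classical
  unfold nsp
  rw [← Equiv.sum_comp (Equiv.swap a b) (fun j => if sp j = s0 ∧ x j ∈ A then (1 : ℝ) else 0)]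
  refine Finset.sum_congr rfl fun j _ => ?_
  have h : sp (Equiv.swap a b j) = s0 ↔ sp j = s0 := by
    by_cases h1 : j = a
    · rw [h1, Equiv.swap_apply_left, ha, hb]
    · by_cases h2 : j = b
      · rw [h2, Equiv.swap_apply_right, ha, hb]
      · rw [Equiv.swap_apply_of_ne_of_ne h1 h2]
  by_cases h3 : sp j = s0 ∧ x (Equiv.swap a b j) ∈ A
  · rw [if_pos h3, if_pos ⟨h.2 h3.1, h3.2⟩]
  · rw [if_neg h3, if_neg (fun h4 => h3 ⟨h.1 h4.1, h4.2⟩)]

theorem nsp_elim {S : Type} {I : Type} [Fintype I] (sp : Option I → S) (s0 : S)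
    (A : Set E3) (x : I → E3) (z z' : E3) (hz : z ∈ A) (hz' : z' ∈ A) :
    nsp sp s0 A (fun o => o.elim z x) = nsp sp s0 A (fun o => o.elim z' x) := by
  classical
  unfold nsp
  rw [Fintype.sum_option, Fintype.sum_option]
  congr 1
  show (if sp none = s0 ∧ z ∈ A then (1 : ℝ) else 0) = if sp none = s0 ∧ z' ∈ A then (1 : ℝ) else 0
  simp [hz, hz']

/-- indicator of the event that there are `k` particles -/
noncomputable def chi {S : Type} {J : Type} [Fintype J] (sp : J → S) (s0 : S) (A : Set E3) (k : ℕ)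
    (x : J → E3) : ℝ := if nsp sp s0 A x = k then 1 else 0

section chi
variable {S : Type} {J : Type} [Fintype J] (sp : J → S) (s0 : S) (A : Set E3) (k : ℕ)

theorem chi_01 (x : J → E3) : chi sp s0 A k x = 0 ∨ chi sp s0 A k x = 1 := by
  unfold chi
  split_ifs
  · exact Or.inr rfl
  · exact Or.inl rfl

theorem chi_nn (x : J → E3) : 0 ≤ chi sp s0 A k x := by
  rcases chi_01 sp s0 A k x with h | h <;> rw [h]; exact zero_le_one

theorem chi_le (x : J → E3) : chi sp s0 A k x ≤ 1 := by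
  rcases chi_01 sp s0 A k x with h | h <;> rw [h]; exact zero_le_one

theorem chi_sq (x : J → E3) : chi sp s0 A k x ^ 2 = chi sp s0 A k x := by
  rcases chi_01 sp s0 A k x with h | h <;> rw [h] <;> norm_num

theorem chi_meas (hA : MeasurableSet A) : Measurable (chi sp s0 A k) := by
  unfold chi
  exact Measurable.ite (measurableSet_eq_fun (nsp_meas sp s0 A hA) measurable_const)
    measurable_const measurable_const

theorem chi_mul (x : J → E3) : nsp sp s0 A x * chi sp s0 A k x = k * chi sp s0 A k x := by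
  unfold chi
  split_ifs with h
  · rw [h]
  · simp

theorem chi_sum [DecidableEq S] (x : J → E3) (g : ℕ → ℝ) :
    ∃ k : ℕ, k ≤ cnt sp s0 ∧ nsp sp s0 A x = k ∧
      ∑ k ∈ Finset.range (cnt sp s0 + 1), g k * chi sp s0 A k x = g k := by
  obtain ⟨k, hk, he⟩ := nsp_nat sp s0 A x
  refine ⟨k, hk, he, ?_⟩
  rw [Finset.sum_eq_single k]
  · unfold chi
    rw [if_pos he, mul_one]
  · intro j _ hj
    unfold chi
    rw [if_neg, mul_zero]
    rw [he]
    exact fun h => hj (by exact_mod_cast h.symm)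
  · intro h
    exact absurd (Finset.mem_range.2 (by omega)) h

end chi

/-- indicator of the cube -/
noncomputable def iq (q : E3) (s : ℝ) (z : E3) : ℝ := (Qc q s).indicator (fun _ => (1 : ℝ)) z

theorem iq_01 (q : E3) (s : ℝ) (z : E3) : iq q s z = 0 ∨ iq q s z = 1 := by
  unfold iq
  by_cases h : z ∈ Qc q s
  · rw [Set.indicator_of_mem h]; exact Or.inr rfl
  · rw [Set.indicator_of_notMem h]; exact Or.inl rfl

theorem iq_nn (q : E3) (s : ℝ) (z : E3) : 0 ≤ iq q s z := by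
  rcases iq_01 q s z with h | h <;> rw [h]; exact zero_le_one

theorem iq_le (q : E3) (s : ℝ) (z : E3) : iq q s z ≤ 1 := by
  rcases iq_01 q s z with h | h <;> rw [h]; exact zero_le_one

theorem iq_meas (q : E3) (s : ℝ) : Measurable (iq q s) := measurable_const.indicator (Qc_meas q s)

theorem iq_int (q : E3) (s : ℝ) (f : E3 → ℝ) : ∫ z, iq q s z * f z = ∫ z in Qc q s, f z := by
  rw [← integral_indicator (Qc_meas q s)]
  congr 1
  funext z
  unfold iq
  by_cases h : z ∈ Qc q s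
  · rw [Set.indicator_of_mem h, Set.indicator_of_mem h, one_mul]
  · rw [Set.indicator_of_notMem h, Set.indicator_of_notMem h, zero_mul]

/-- the number of particles in the cube, by indicators -/
theorem nsp_eq {S : Type} [DecidableEq S] {J : Type} [Fintype J] (sp : J → S) (s0 : S) (q : E3)
    (s : ℝ) (x : J → E3) :
    nsp sp s0 (Qc q s) x = ∑ j ∈ Finset.univ.filter (fun j => sp j = s0), iq q s (x j) := by
  classical
  unfold nsp
  rw [Finset.sum_filter]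
  refine Finset.sum_congr rfl fun j _ => ?_
  unfold iq
  by_cases h1 : sp j = s0
  · by_cases h2 : x j ∈ Qc q s
    · rw [if_pos ⟨h1, h2⟩, if_pos h1, Set.indicator_of_mem h2]
    · rw [if_neg (fun h => h2 h.2), if_pos h1, Set.indicator_of_notMem h2]
  · rw [if_neg (fun h => h1 h.1), if_neg h1]

/-- the wave function cut off to the event that there are `k` particles in the cube -/
noncomputable def wk {S : Type} (D : Species S) {I : Type} [Fintype I] (sp : Option I → S)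
    (q : E3) (s : ℝ) (k : ℕ) (Φ : Wave D (Option I)) : Wave D (Option I) :=
  fun τ x => ((chi sp (sp none) (Qc q s) k x : ℝ) : ℂ) * Φ τ x

theorem wk_norm {S : Type} (D : Species S) {I : Type} [Fintype I] (sp : Option I → S)
    (q : E3) (s : ℝ) (k : ℕ) (Φ : Wave D (Option I)) (τ : Option I → Fin D.g) (x : Option I → E3) :
    ‖wk D sp q s k Φ τ x‖ ^ 2 = chi sp (sp none) (Qc q s) k x * ‖Φ τ x‖ ^ 2 := by
  unfold wk
  rw [norm_mul, mul_pow, Complex.norm_real, Real.norm_eq_abs, sq_abs, chi_sq]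

theorem wk_nice {S : Type} (D : Species S) {I : Type} [Fintype I] (sp : Option I → S)
    (q : E3) (s : ℝ) (k : ℕ) (Φ : Wave D (Option I)) (hΦ : ∀ τ, rbNice (Φ τ))
    (τ : Option I → Fin D.g) : rbNice (wk D sp q s k Φ τ) := by
  obtain ⟨hm, ⟨C, hC⟩, R, hR⟩ := hΦ τ
  refine ⟨?_, ⟨C, fun x => ?_⟩, R, fun x hx => ?_⟩
  · exact (Complex.measurable_ofReal.comp (chi_meas _ _ _ _ (Qc_meas q s))).mul hm
  · show ‖((chi sp (sp none) (Qc q s) k x : ℝ) : ℂ) * Φ τ x‖ ≤ C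
    rw [norm_mul, Complex.norm_real]
    rcases chi_01 sp (sp none) (Qc q s) k x with h | h <;> rw [h]
    · simp
      exact (norm_nonneg _).trans (hC x)
    · simp
      exact hC x
  · apply hR
    intro h
    apply hx
    show ((chi sp (sp none) (Qc q s) k x : ℝ) : ℂ) * Φ τ x = 0
    rw [h, mul_zero]

theorem wk_swap {S : Type} (D : Species S) {I : Type} [Fintype I] [DecidableEq I]
    (sp : Option I → S) (hferm : D.fermion (sp none) = true) (ℓ : ℝ) (q : E3) (s : ℝ) (k : ℕ)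
    (Φ : Wave D (Option I)) (hΦ : IsState D sp ℓ Φ) (a b : Option I) (hab : a ≠ b)
    (ha : sp a = sp none) (hb : sp b = sp none) (τ : Option I → Fin D.g) (x : Option I → E3) :
    wk D sp q s k Φ (fun k => τ (Equiv.swap a b k)) (fun k => x (Equiv.swap a b k)) =
      -1 * wk D sp q s k Φ τ x := by
  have h3 := hΦ.symm a b hab (ha.trans hb.symm) τ x
  have h4 : exch D (sp a) = -1 := by
    rw [ha, exch, hferm]
    simp
  rw [h4] at h3
  unfold wk
  have h5 : chi sp (sp none) (Qc q s) k (fun k => x (Equiv.swap a b k)) =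
      chi sp (sp none) (Qc q s) k x := by
    unfold chi
    rw [nsp_swap sp (sp none) (Qc q s) x a b ha hb]
  rw [h3, h5]
  ring

theorem nice_sqR {J : Type} [Fintype J] (f : (J → E3) → ℂ) (hf : rbNice f) :
    Integrable (fun x => ‖f x‖ ^ 2) := by
  have h2 := (rb_nice_int _ (rb_nice_alg f f hf hf 1).2.2).norm
  refine h2.congr (Filter.Eventually.of_forall fun x => ?_)
  simp [pow_two]

/-- step (a) -/
theorem step_a {S : Type} [DecidableEq S] (D : Species S) {I : Type} [Fintype I] [DecidableEq I]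
    (sp : Option I → S) (hferm : D.fermion (sp none) = true) (ℓ : ℝ) (q : E3) (s : ℝ) (k : ℕ)
    (Φ : Wave D (Option I)) (hΦ : IsState D sp ℓ Φ) :
    (k : ℝ) * nrm2 D (wk D sp q s k Φ) = (cnt sp (sp none) : ℝ) *
      ∑ τ, ∫ x, iq q s (x none) * ‖wk D sp q s k Φ τ x‖ ^ 2 := by
  have hn : ∀ τ, rbNice (wk D sp q s k Φ τ) := fun τ =>
    wk_nice D sp q s k Φ (fun τ => rb_nice_state D sp ℓ Φ hΦ τ) τ
  have hT : ∀ j, sp j = sp none →
      ∑ τ, ∫ x, iq q s (x j) * ‖wk D sp q s k Φ τ x‖ ^ 2 =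
      ∑ τ, ∫ x, iq q s (x none) * ‖wk D sp q s k Φ τ x‖ ^ 2 := by
    intro j hj
    by_cases hjn : j = none
    · rw [hjn]
    · let e : Option I ≃ Option I := Equiv.swap none j
      have hes : ∀ b, e.symm b = Equiv.swap none j b := fun b => by
        show (Equiv.swap none j).symm b = _
        rw [Equiv.symm_swap]
      rw [← rb833_sum (g := D.g) e
        (fun τ : Option I → Fin D.g => ∫ x, iq q s (x j) * ‖wk D sp q s k Φ τ x‖ ^ 2)]
      refine Finset.sum_congr rfl fun τ _ => ?_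
      rw [← rb833_int e (fun x : Option I → E3 =>
        iq q s (x j) * ‖wk D sp q s k Φ (fun b => τ (e.symm b)) x‖ ^ 2)]
      congr 1
      funext x
      simp only [hes]
      rw [wk_swap D sp hferm ℓ q s k Φ hΦ none j (fun h => hjn h.symm) rfl hj τ x,
        Equiv.swap_apply_right]
      simp
  have hI : ∀ j τ, Integrable (fun x : Option I → E3 =>
      iq q s (x j) * ‖wk D sp q s k Φ τ x‖ ^ 2) := by
    intro j τ
    refine (nice_sqR _ (hn τ)).bdd_mul (c := 1)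
      ((iq_meas q s).comp (measurable_pi_apply j)).aestronglyMeasurable
      (Filter.Eventually.of_forall fun x => ?_)
    rw [Real.norm_of_nonneg (iq_nn q s _)]
    exact iq_le q s _
  have h1 : (k : ℝ) * nrm2 D (wk D sp q s k Φ) =
      ∑ j ∈ Finset.univ.filter (fun j => sp j = sp none),
        ∑ τ, ∫ x, iq q s (x j) * ‖wk D sp q s k Φ τ x‖ ^ 2 := by
    unfold nrm2
    rw [Finset.mul_sum, Finset.sum_comm]
    refine Finset.sum_congr rfl fun τ _ => ?_
    rw [← integral_finsetSum _ fun j _ => hI j τ, ← integral_const_mul]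
    congr 1
    funext x
    rw [← Finset.sum_mul, ← nsp_eq, wk_norm, ← mul_assoc, ← mul_assoc, chi_mul]
  rw [h1, Finset.sum_congr rfl fun j hj => hT j (Finset.mem_filter.1 hj).2, Finset.sum_const,
    nsmul_eq_mul]
  rfl

/-- normalised indicator of a cube -/
noncomputable def oc (q : E3) (s : ℝ) : E3 → ℂ :=
  (Qc q s).indicator (fun _ => (((Real.sqrt (s ^ 3))⁻¹ : ℝ) : ℂ))

theorem oc_nice (q : E3) (s : ℝ) : nice1 (oc q s) := by
  refine ⟨measurable_const.indicator (Qc_meas q s), ⟨|(Real.sqrt (s ^ 3))⁻¹|, fun z => ?_⟩,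
    ‖q‖ + Real.sqrt (∑ _k : Fin 3, s ^ 2), fun z hz => ?_⟩
  · unfold oc
    by_cases h : z ∈ Qc q s
    · rw [Set.indicator_of_mem h, Complex.norm_real, Real.norm_eq_abs]
    · rw [Set.indicator_of_notMem h, norm_zero]
      exact abs_nonneg _
  · apply Qc_bdd q s z
    by_contra h
    exact hz (Set.indicator_of_notMem h _)

theorem oc_int (q : E3) (s : ℝ) (hs : 0 < s) : ∫ z, ‖oc q s z‖ ^ 2 = 1 := by
  have hs3 : (0 : ℝ) < s ^ 3 := by positivity
  have e : ∀ z, ‖oc q s z‖ ^ 2 = (Qc q s).indicator (fun _ => (s ^ 3)⁻¹) z := by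
    intro z
    unfold oc
    by_cases h : z ∈ Qc q s
    · rw [Set.indicator_of_mem h, Set.indicator_of_mem h, Complex.norm_real, Real.norm_eq_abs,
        sq_abs, inv_pow, Real.sq_sqrt hs3.le]
    · rw [Set.indicator_of_notMem h, Set.indicator_of_notMem h, norm_zero]
      norm_num
  simp only [e]
  rw [integral_indicator (Qc_meas q s), setIntegral_const, Qc_volR q s hs, smul_eq_mul,
    mul_inv_cancel₀ hs3.ne']

theorem psl_oc {S : Type} (D : Species S) {I : Type} [Fintype I] (sp : Option I → S)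
    (q : E3) (s : ℝ) (k : ℕ) (Φ : Wave D (Option I)) (q' : E3) (s' : ℝ)
    (hsub : Qc q' s' ⊆ Qc q s) (z₀ : E3) (hz₀ : z₀ ∈ Qc q s) (σ : Fin D.g) (τ : I → Fin D.g)
    (x : I → E3) :
    psl D (oc q' s') σ (wk D sp q s k Φ) τ x =
      (((Real.sqrt (s' ^ 3))⁻¹ * chi sp (sp none) (Qc q s) k (fun o => o.elim z₀ x) : ℝ) : ℂ) *
        ∫ z in Qc q' s', Φ (fun o => o.elim σ τ) (fun o => o.elim z x) := by
  unfold psl
  rw [← integral_const_mul, ← integral_indicator (Qc_meas q' s')]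
  congr 1
  funext z
  show (starRingEnd ℂ) (oc q' s' z) * wk D sp q s k Φ (fun o => o.elim σ τ)
    (fun o => o.elim z x) = _
  unfold oc
  by_cases h : z ∈ Qc q' s'
  · rw [Set.indicator_of_mem h, Set.indicator_of_mem h, Complex.conj_ofReal]
    have h1 : chi sp (sp none) (Qc q s) k (fun o => o.elim z x) =
        chi sp (sp none) (Qc q s) k (fun o => o.elim z₀ x) := by
      unfold chi
      rw [nsp_elim sp (sp none) (Qc q s) x z z₀ (hsub h) hz₀]
    unfold wk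
    rw [h1]
    push_cast
    ring
  · rw [Set.indicator_of_notMem h, Set.indicator_of_notMem h, map_zero, zero_mul]

/-- the density of the kinetic energy of the extra particle -/
noncomputable def gr3 {I : Type} [DecidableEq I] (F : (Option I → E3) → ℂ) (y : Option I → E3) : ℝ :=
  ∑ k : Fin 3, ‖fderiv ℝ F y (Pi.single none (EuclideanSpace.single k (1 : ℝ)))‖ ^ 2

theorem gr3_nn {I : Type} [Fintype I] [DecidableEq I] (F : (Option I → E3) → ℂ)
    (y : Option I → E3) : 0 ≤ gr3 F y :=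
  Finset.sum_nonneg fun _ _ => by positivity

theorem gr3_int {I : Type} [Fintype I] [DecidableEq I] (F : (Option I → E3) → ℂ)
    (hF : ContDiff ℝ SM F) (hc : HasCompactSupport F) : Integrable (gr3 F) := by
  have hf : Continuous (fderiv ℝ F) := hF.continuous_fderiv (by simp [SM])
  have hfc : HasCompactSupport (fderiv ℝ F) := hc.fderiv (𝕜 := ℝ)
  have h1 : Continuous (gr3 F) := by
    unfold gr3
    exact continuous_finsetSum _ fun k _ => ((hf.clm_apply continuous_const).norm).pow 2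
  have h2 : HasCompactSupport (gr3 F) := by
    have h3 := hfc.comp_left (g := fun L : (Option I → E3) →L[ℝ] ℂ =>
      ∑ k : Fin 3, ‖L (Pi.single none (EuclideanSpace.single k (1 : ℝ)))‖ ^ 2) (by simp)
    exact h3
  exact h1.integrable_of_hasCompactSupport h2

/-- pointwise form of step (b) -/
theorem step_pt {S : Type} (D : Species S) {I : Type} [Fintype I] [DecidableEq I]
    (sp : Option I → S) (ℓ : ℝ) (C : ℝ)
    (hP : ∀ (f : E3 → ℂ), ContDiff ℝ 1 f → ∀ (q : E3) (s : ℝ), 0 < s →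
    ∫ z in {z : E3 | ∀ k, q k ≤ z k ∧ z k < q k + s},
      ‖f z - ((s ^ 3)⁻¹ : ℝ) • ∫ w in {z : E3 | ∀ k, q k ≤ z k ∧ z k < q k + s}, f w‖ ^ 2 ≤
    C * s ^ 2 * ∫ z in {z : E3 | ∀ k, q k ≤ z k ∧ z k < q k + s},
      ∑ k : Fin 3, ‖fderiv ℝ f z (EuclideanSpace.single k (1 : ℝ))‖ ^ 2)
    (q : E3) (s : ℝ) (hs : 0 < s) (k : ℕ) (m : ℕ) (hm : 1 ≤ m)
    (Φ : Wave D (Option I)) (hΦ : IsState D sp ℓ Φ) (σ : Fin D.g) (τ : I → Fin D.g)
    (x : I → E3) :
    ∫ z : E3, iq q s z * ‖wk D sp q s k Φ (fun o => o.elim σ τ) (fun o => o.elim z x)‖ ^ 2 ≤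
      (∑ a : Fin 3 → Fin m, ‖psl D (oc (crn q s m a) (s / m)) σ (wk D sp q s k Φ) τ x‖ ^ 2) +
      C * (s / m) ^ 2 * ∫ z : E3, iq q s z * (chi sp (sp none) (Qc q s) k (fun o => o.elim z x) *
        gr3 (Φ (fun o => o.elim σ τ)) (fun o => o.elim z x)) := by
  have hm0 : (0 : ℝ) < m := by exact_mod_cast hm
  have hsm : 0 < s / m := by positivity
  have hz₀ : q ∈ Qc q s := fun k => ⟨le_rfl, by linarith⟩
  obtain ⟨f1, -, -, f4⟩ := psl_slice ℓ (Φ (fun o => o.elim σ τ)) (hΦ.smooth _) (hΦ.compact _)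
    (fun y hy => hΦ.support _ hy none) x
  set f : E3 → ℂ := fun z => Φ (fun o => o.elim σ τ) (fun o => o.elim z x) with hf
  have hf1 : ContDiff ℝ 1 f := f1.of_le (by simp [SM])
  have hch : ∀ z ∈ Qc q s, chi sp (sp none) (Qc q s) k (fun o => o.elim z x) =
      chi sp (sp none) (Qc q s) k (fun o => o.elim q x) := by
    intro z hz
    unfold chi
    rw [nsp_elim sp (sp none) (Qc q s) x z q hz hz₀]
  set c : ℝ := chi sp (sp none) (Qc q s) k (fun o => o.elim q x) with hc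
  have hc0 : 0 ≤ c := chi_nn _ _ _ _ _
  have hc2 : c ^ 2 = c := chi_sq _ _ _ _ _
  have e1 : ∫ z : E3, iq q s z * ‖wk D sp q s k Φ (fun o => o.elim σ τ)
      (fun o => o.elim z x)‖ ^ 2 = c * ∫ z in Qc q s, ‖f z‖ ^ 2 := by
    rw [iq_int, ← integral_const_mul]
    refine setIntegral_congr_fun (Qc_meas q s) fun z hz => ?_
    show ‖wk D sp q s k Φ (fun o => o.elim σ τ) (fun o => o.elim z x)‖ ^ 2 = c * ‖f z‖ ^ 2
    rw [wk_norm, hch z hz]
  have e2 : ∫ z : E3, iq q s z * (chi sp (sp none) (Qc q s) k (fun o => o.elim z x) *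
        gr3 (Φ (fun o => o.elim σ τ)) (fun o => o.elim z x)) = c * ∫ z in Qc q s, gr f z := by
    rw [iq_int, ← integral_const_mul]
    refine setIntegral_congr_fun (Qc_meas q s) fun z hz => ?_
    show chi sp (sp none) (Qc q s) k (fun o => o.elim z x) *
      gr3 (Φ (fun o => o.elim σ τ)) (fun o => o.elim z x) = c * gr f z
    rw [hch z hz]
    unfold gr gr3
    simp only [f4]
  have e3 : ∀ a : Fin 3 → Fin m,
      ‖psl D (oc (crn q s m a) (s / m)) σ (wk D sp q s k Φ) τ x‖ ^ 2 =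
      c * (((s / m) ^ 3)⁻¹ * ‖∫ z in Qc (crn q s m a) (s / m), f z‖ ^ 2) := by
    intro a
    rw [psl_oc D sp q s k Φ _ _ (Qc_sub q s hs m hm a) q hz₀ σ τ x, norm_mul, mul_pow,
      Complex.norm_real, Real.norm_eq_abs, sq_abs, mul_pow, inv_pow,
      Real.sq_sqrt (by positivity)]
    rw [← hc, hc2]
    ring
  rw [e1, e2, Finset.sum_congr rfl fun a _ => e3 a, ← Finset.mul_sum]
  have h := mul_le_mul_of_nonneg_left (many_cubes C hP f hf1 q s hs m hm) hc0
  refine h.trans (le_of_eq ?_)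
  ring

/-- step (b) -/
theorem step_b {S : Type} (D : Species S) {I : Type} [Fintype I] [DecidableEq I]
    (sp : Option I → S) (ℓ : ℝ) (C : ℝ)
    (hP : ∀ (f : E3 → ℂ), ContDiff ℝ 1 f → ∀ (q : E3) (s : ℝ), 0 < s →
    ∫ z in {z : E3 | ∀ k, q k ≤ z k ∧ z k < q k + s},
      ‖f z - ((s ^ 3)⁻¹ : ℝ) • ∫ w in {z : E3 | ∀ k, q k ≤ z k ∧ z k < q k + s}, f w‖ ^ 2 ≤
    C * s ^ 2 * ∫ z in {z : E3 | ∀ k, q k ≤ z k ∧ z k < q k + s},
      ∑ k : Fin 3, ‖fderiv ℝ f z (EuclideanSpace.single k (1 : ℝ))‖ ^ 2)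
    (q : E3) (s : ℝ) (hs : 0 < s) (k : ℕ) (m : ℕ) (hm : 1 ≤ m)
    (Φ : Wave D (Option I)) (hΦ : IsState D sp ℓ Φ) :
    ∑ τ, ∫ x, iq q s (x none) * ‖wk D sp q s k Φ τ x‖ ^ 2 ≤
      (∑ a : Fin 3 → Fin m, ∑ σ, nrm2 D (psl D (oc (crn q s m a) (s / m)) σ (wk D sp q s k Φ))) +
      C * (s / m) ^ 2 * ∑ τ, ∫ x, iq q s (x none) *
        (chi sp (sp none) (Qc q s) k x * gr3 (Φ τ) x) := by
  have hn : ∀ τ, rbNice (wk D sp q s k Φ τ) := fun τ =>
    wk_nice D sp q s k Φ (fun τ => rb_nice_state D sp ℓ Φ hΦ τ) τ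
  have hmn : Measurable (fun x : Option I → E3 => iq q s (x none)) :=
    (iq_meas q s).comp (measurable_pi_apply none)
  have hI1 : ∀ τ, Integrable (fun x : Option I → E3 =>
      iq q s (x none) * ‖wk D sp q s k Φ τ x‖ ^ 2) := by
    intro τ
    refine (nice_sqR _ (hn τ)).bdd_mul (c := 1) hmn.aestronglyMeasurable
      (Filter.Eventually.of_forall fun x => ?_)
    rw [Real.norm_of_nonneg (iq_nn q s _)]
    exact iq_le q s _
  have hI2 : ∀ τ, Integrable (fun x : Option I → E3 =>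
      iq q s (x none) * (chi sp (sp none) (Qc q s) k x * gr3 (Φ τ) x)) := by
    intro τ
    refine Integrable.bdd_mul (c := 1) ?_ hmn.aestronglyMeasurable
      (Filter.Eventually.of_forall fun x => ?_)
    · refine (gr3_int _ (hΦ.smooth τ) (hΦ.compact τ)).bdd_mul (c := 1)
        (chi_meas _ _ _ _ (Qc_meas q s)).aestronglyMeasurable
        (Filter.Eventually.of_forall fun x => ?_)
      rw [Real.norm_of_nonneg (chi_nn _ _ _ _ _)]
      exact chi_le _ _ _ _ _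
    · rw [Real.norm_of_nonneg (iq_nn q s _)]
      exact iq_le q s _
  have hI3 : ∀ (a : Fin 3 → Fin m) (σ : Fin D.g) (τ : I → Fin D.g), Integrable
      (fun x => ‖psl D (oc (crn q s m a) (s / m)) σ (wk D sp q s k Φ) τ x‖ ^ 2) :=
    fun a σ τ => nice_sqR _ (Pool.Agent.Helper780_CP.nice_psl D _ (oc_nice _ _) σ _ hn τ)
  have eL : ∑ τ, ∫ x, iq q s (x none) * ‖wk D sp q s k Φ τ x‖ ^ 2 =
      ∑ σ : Fin D.g, ∑ τ : I → Fin D.g, ∫ x : I → E3, ∫ z : E3,
        iq q s z * ‖wk D sp q s k Φ (fun o => o.elim σ τ) (fun o => o.elim z x)‖ ^ 2 := by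
    rw [pslx_sum]
    refine Finset.sum_congr rfl fun σ _ => Finset.sum_congr rfl fun τ _ => ?_
    rw [(psl_fubini _ (hI1 (fun o => o.elim σ τ))).2]
    rfl
  have eR : ∑ τ, ∫ x, iq q s (x none) * (chi sp (sp none) (Qc q s) k x * gr3 (Φ τ) x) =
      ∑ σ : Fin D.g, ∑ τ : I → Fin D.g, ∫ x : I → E3, ∫ z : E3,
        iq q s z * (chi sp (sp none) (Qc q s) k (fun o => o.elim z x) *
        gr3 (Φ (fun o => o.elim σ τ)) (fun o => o.elim z x)) := by
    rw [pslx_sum]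
    refine Finset.sum_congr rfl fun σ _ => Finset.sum_congr rfl fun τ _ => ?_
    rw [(psl_fubini _ (hI2 (fun o => o.elim σ τ))).2]
    rfl
  have eM : ∑ a : Fin 3 → Fin m, ∑ σ,
      nrm2 D (psl D (oc (crn q s m a) (s / m)) σ (wk D sp q s k Φ)) =
      ∑ σ : Fin D.g, ∑ τ : I → Fin D.g, ∫ x : I → E3, ∑ a : Fin 3 → Fin m,
        ‖psl D (oc (crn q s m a) (s / m)) σ (wk D sp q s k Φ) τ x‖ ^ 2 := by
    rw [Finset.sum_comm]
    refine Finset.sum_congr rfl fun σ _ => ?_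
    unfold nrm2
    rw [Finset.sum_comm]
    refine Finset.sum_congr rfl fun τ _ => ?_
    rw [integral_finsetSum _ fun a _ => hI3 a σ τ]
  rw [eL, eR, eM, Finset.mul_sum, ← Finset.sum_add_distrib]
  refine Finset.sum_le_sum fun σ _ => ?_
  rw [Finset.mul_sum, ← Finset.sum_add_distrib]
  refine Finset.sum_le_sum fun τ _ => ?_
  have j1 : Integrable (fun x : I → E3 => ∫ z : E3,
      iq q s z * ‖wk D sp q s k Φ (fun o => o.elim σ τ) (fun o => o.elim z x)‖ ^ 2) :=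
    (psl_fubini _ (hI1 (fun o => o.elim σ τ))).1.integral_prod_left
  have j2 : Integrable (fun x : I → E3 => ∫ z : E3,
      iq q s z * (chi sp (sp none) (Qc q s) k (fun o => o.elim z x) *
        gr3 (Φ (fun o => o.elim σ τ)) (fun o => o.elim z x))) :=
    (psl_fubini _ (hI2 (fun o => o.elim σ τ))).1.integral_prod_left
  have j3 : Integrable (fun x : I → E3 => ∑ a : Fin 3 → Fin m,
        ‖psl D (oc (crn q s m a) (s / m)) σ (wk D sp q s k Φ) τ x‖ ^ 2) :=
    integrable_finsetSum _ fun a _ => hI3 a σ τ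
  rw [← integral_const_mul, ← integral_add j3 (j2.const_mul _)]
  exact integral_mono j1 (j3.add (j2.const_mul _)) fun x =>
    step_pt D sp ℓ C hP q s hs k m hm Φ hΦ σ τ x

/-- step (c) -/
theorem step_c {S : Type} [DecidableEq S] (D : Species S) {I : Type} [Fintype I] [DecidableEq I]
    (sp : Option I → S) (hferm : D.fermion (sp none) = true) (ℓ : ℝ) (C : ℝ)
    (hP : ∀ (f : E3 → ℂ), ContDiff ℝ 1 f → ∀ (q : E3) (s : ℝ), 0 < s →
    ∫ z in {z : E3 | ∀ k, q k ≤ z k ∧ z k < q k + s},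
      ‖f z - ((s ^ 3)⁻¹ : ℝ) • ∫ w in {z : E3 | ∀ k, q k ≤ z k ∧ z k < q k + s}, f w‖ ^ 2 ≤
    C * s ^ 2 * ∫ z in {z : E3 | ∀ k, q k ≤ z k ∧ z k < q k + s},
      ∑ k : Fin 3, ‖fderiv ℝ f z (EuclideanSpace.single k (1 : ℝ))‖ ^ 2)
    (q : E3) (s : ℝ) (hs : 0 < s) (k : ℕ) (m : ℕ) (hm : 1 ≤ m)
    (Φ : Wave D (Option I)) (hΦ : IsState D sp ℓ Φ) :
    ((k : ℝ) - D.g * (m : ℝ) ^ 3) * nrm2 D (wk D sp q s k Φ) ≤
      C * (s / m) ^ 2 * ((cnt sp (sp none) : ℝ) * ∑ τ, ∫ x, iq q s (x none) *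
        (chi sp (sp none) (Qc q s) k x * gr3 (Φ τ) x)) := by
  have hm0 : (0 : ℝ) < m := by exact_mod_cast hm
  have hsm : 0 < s / m := by positivity
  have hn : ∀ τ, rbNice (wk D sp q s k Φ τ) := fun τ =>
    wk_nice D sp q s k Φ (fun τ => rb_nice_state D sp ℓ Φ hΦ τ) τ
  have h1 := step_a D sp hferm ℓ q s k Φ hΦ
  have h2 := mul_le_mul_of_nonneg_left (step_b D sp ℓ C hP q s hs k m hm Φ hΦ)
    (Nat.cast_nonneg (α := ℝ) (cnt sp (sp none)))
  have h3 : (cnt sp (sp none) : ℝ) * ∑ a : Fin 3 → Fin m, ∑ σ,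
      nrm2 D (psl D (oc (crn q s m a) (s / m)) σ (wk D sp q s k Φ)) ≤
      D.g * (m : ℝ) ^ 3 * nrm2 D (wk D sp q s k Φ) := by
    rw [Finset.mul_sum]
    have h4 : ∀ a : Fin 3 → Fin m, (cnt sp (sp none) : ℝ) * ∑ σ,
        nrm2 D (psl D (oc (crn q s m a) (s / m)) σ (wk D sp q s k Φ)) ≤
        D.g * nrm2 D (wk D sp q s k Φ) := by
      intro a
      rw [Finset.mul_sum]
      have h5 : ∀ σ : Fin D.g, (cnt sp (sp none) : ℝ) *
          nrm2 D (psl D (oc (crn q s m a) (s / m)) σ (wk D sp q s k Φ)) ≤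
          nrm2 D (wk D sp q s k Φ) := by
        intro σ
        have h := pauli D sp (oc (crn q s m a) (s / m)) (oc_nice _ _) σ (wk D sp q s k Φ) hn
          (fun a b hab ha hb τ x => wk_swap D sp hferm ℓ q s k Φ hΦ a b hab ha hb τ x)
        rwa [oc_int _ _ hsm, one_mul] at h
      refine (Finset.sum_le_sum fun σ _ => h5 σ).trans (le_of_eq ?_)
      rw [Finset.sum_const, Finset.card_univ, Fintype.card_fin, nsmul_eq_mul]
    refine (Finset.sum_le_sum fun a _ => h4 a).trans (le_of_eq ?_)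
    rw [Finset.sum_const, Finset.card_univ, Fintype.card_fun, Fintype.card_fin, Fintype.card_fin,
      nsmul_eq_mul]
    push_cast
    ring
  rw [mul_add] at h2
  rw [← h1] at h2
  nlinarith [h2, h3]

/-- step (d) -/
theorem step_d (g : ℕ) (hg : 1 ≤ g) (C : ℝ) (hC : 0 ≤ C) (s : ℝ) (k : ℕ) (hk : 2 * (g : ℝ) ≤ k)
    (X K : ℝ) (hX : 0 ≤ X) (hK : 0 ≤ K)
    (h : ∀ m : ℕ, 1 ≤ m → ((k : ℝ) - g * (m : ℝ) ^ 3) * X ≤ C * (s / m) ^ 2 * K) :
    (k : ℝ) ^ ((5 : ℝ) / 3) * X ≤ 8 * C * (2 * (g : ℝ)) ^ ((2 : ℝ) / 3) * s ^ 2 * K := by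
  have hg0 : (0 : ℝ) < g := by exact_mod_cast hg
  have h2g : (0 : ℝ) < 2 * g := by linarith
  have hk0 : (0 : ℝ) < k := by linarith
  have hr : (1 : ℝ) ≤ k / (2 * g) := by rw [le_div_iff₀ h2g]; linarith
  set t : ℝ := ((k : ℝ) / (2 * g)) ^ ((1 : ℝ) / 3) with ht
  have ht1 : 1 ≤ t := Real.one_le_rpow hr (by norm_num)
  have ht0 : 0 < t := by linarith
  have ht3 : t ^ 3 = (k : ℝ) / (2 * g) := by
    rw [ht, ← Real.rpow_natCast, ← Real.rpow_mul (by positivity)]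
    norm_num
  have ht2 : t ^ 2 * (2 * (g : ℝ)) ^ ((2 : ℝ) / 3) = (k : ℝ) ^ ((2 : ℝ) / 3) := by
    have e1 : t ^ 2 = ((k : ℝ) / (2 * g)) ^ ((2 : ℝ) / 3) := by
      rw [ht, ← Real.rpow_natCast, ← Real.rpow_mul (by positivity)]
      norm_num
    rw [e1, ← Real.mul_rpow (by positivity) (by positivity)]
    congr 1
    field_simp
  have hm1 : 1 ≤ ⌊t⌋₊ := by
    rw [Nat.one_le_floor_iff]
    exact ht1
  set m : ℕ := ⌊t⌋₊ with hm
  have hm0 : (0 : ℝ) < m := by exact_mod_cast hm1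
  have hmle : (m : ℝ) ≤ t := Nat.floor_le ht0.le
  have hmge : t < m + 1 := Nat.lt_floor_add_one t
  have hm1' : (1 : ℝ) ≤ m := by exact_mod_cast hm1
  have ht2m : t ≤ 2 * m := by linarith
  have h3 : (m : ℝ) ^ 3 ≤ k / (2 * g) := by
    rw [← ht3]
    exact pow_le_pow_left₀ hm0.le hmle 3
  have h4 : (g : ℝ) * (m : ℝ) ^ 3 ≤ k / 2 := by
    have := mul_le_mul_of_nonneg_left h3 hg0.le
    have e : (g : ℝ) * (k / (2 * g)) = k / 2 := by field_simp
    linarith
  have h5 := h m hm1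
  have h6 : (k : ℝ) / 2 * X ≤ C * (s / m) ^ 2 * K := by
    refine le_trans ?_ h5
    exact mul_le_mul_of_nonneg_right (by linarith) hX
  have h7 : t ^ 2 * (s / m) ^ 2 ≤ 4 * s ^ 2 := by
    rw [div_pow]
    have : t ^ 2 * (s ^ 2 / (m : ℝ) ^ 2) = (t / m) ^ 2 * s ^ 2 := by
      field_simp
    rw [this]
    have h8 : t / m ≤ 2 := by rw [div_le_iff₀ hm0]; linarith
    have h9 : (t / m) ^ 2 ≤ 2 ^ 2 := pow_le_pow_left₀ (by positivity) h8 2
    nlinarith [sq_nonneg s]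
  have h8 : (k : ℝ) * t ^ 2 * X ≤ 8 * C * s ^ 2 * K := by
    have h9 : t ^ 2 * ((k : ℝ) / 2 * X) ≤ t ^ 2 * (C * (s / m) ^ 2 * K) :=
      mul_le_mul_of_nonneg_left h6 (by positivity)
    have h10 : t ^ 2 * (C * (s / m) ^ 2 * K) ≤ C * K * (4 * s ^ 2) := by
      have := mul_le_mul_of_nonneg_left h7 (mul_nonneg hC hK)
      linarith
    linarith
  have h9 : (k : ℝ) ^ ((5 : ℝ) / 3) = k * (k : ℝ) ^ ((2 : ℝ) / 3) := by
    have : (5 : ℝ) / 3 = 1 + 2 / 3 := by norm_num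
    rw [this, Real.rpow_add hk0, Real.rpow_one]
  rw [h9, ← ht2]
  have h10 : 0 ≤ (2 * (g : ℝ)) ^ ((2 : ℝ) / 3) := by positivity
  have h11 := mul_le_mul_of_nonneg_right h8 h10
  nlinarith [h11]

/-- TARGET -/
theorem pauli_cube {S : Type} [DecidableEq S] (D : Species S) :
    ∃ C : ℝ, 0 < C ∧ ∀ {I : Type} [Fintype I] [DecidableEq I] (sp : Option I → S) (ℓ : ℝ),
      D.fermion (sp none) = true → ∀ (Φ : Wave D (Option I)), IsState D sp ℓ Φ →
      ∀ (q : E3) (s : ℝ), 0 < s →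
      ∑ τ, ∫ x, (if 2 * (D.g : ℝ) ≤ nsp sp (sp none) (Qc q s) x then
          nsp sp (sp none) (Qc q s) x ^ ((5 : ℝ) / 3) else 0) * ‖Φ τ x‖ ^ 2 ≤
        C * s ^ 2 * ((cnt sp (sp none) : ℝ) * ∑ τ, ∫ x, (Qc q s).indicator (fun _ => (1 : ℝ)) (x none) *
          ∑ k : Fin 3, ‖fderiv ℝ (Φ τ) x (Pi.single none (EuclideanSpace.single k (1 : ℝ)))‖ ^ 2) := by
  obtain ⟨C, hC0, hP⟩ := poinc_cube
  have h10 : 0 ≤ (2 * (D.g : ℝ)) ^ ((2 : ℝ) / 3) := by positivity
  refine ⟨8 * C * (2 * (D.g : ℝ)) ^ ((2 : ℝ) / 3) + 1, by positivity, ?_⟩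
  intro I _ _ sp ℓ hferm Φ hΦ q s hs
  have hnΦ : ∀ τ, rbNice (Φ τ) := fun τ => rb_nice_state D sp ℓ Φ hΦ τ
  set N : ℕ := cnt sp (sp none) with hN
  let w : ℝ → ℝ := fun n => if 2 * (D.g : ℝ) ≤ n then n ^ ((5 : ℝ) / 3) else 0
  have hmn : Measurable (fun x : Option I → E3 => iq q s (x none)) :=
    (iq_meas q s).comp (measurable_pi_apply none)
  have hIg : ∀ (k : ℕ) (τ : Option I → Fin D.g), Integrable (fun x : Option I → E3 =>
      iq q s (x none) * (chi sp (sp none) (Qc q s) k x * gr3 (Φ τ) x)) := by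
    intro k τ
    refine Integrable.bdd_mul (c := 1) ?_ hmn.aestronglyMeasurable
      (Filter.Eventually.of_forall fun x => ?_)
    · refine (gr3_int _ (hΦ.smooth τ) (hΦ.compact τ)).bdd_mul (c := 1)
        (chi_meas _ _ _ _ (Qc_meas q s)).aestronglyMeasurable
        (Filter.Eventually.of_forall fun x => ?_)
      rw [Real.norm_of_nonneg (chi_nn _ _ _ _ _)]
      exact chi_le _ _ _ _ _
    · rw [Real.norm_of_nonneg (iq_nn q s _)]
      exact iq_le q s _
  let K : ℕ → ℝ := fun k => (N : ℝ) * ∑ τ, ∫ x, iq q s (x none) *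
        (chi sp (sp none) (Qc q s) k x * gr3 (Φ τ) x)
  have hK0 : ∀ k, 0 ≤ K k := fun k => mul_nonneg (Nat.cast_nonneg _)
    (Finset.sum_nonneg fun τ _ => integral_nonneg fun x =>
      mul_nonneg (iq_nn _ _ _) (mul_nonneg (chi_nn _ _ _ _ _) (gr3_nn _ _)))
  have hX0 : ∀ k, 0 ≤ nrm2 D (wk D sp q s k Φ) := fun k =>
    Finset.sum_nonneg fun τ _ => integral_nonneg fun x => by positivity
  -- the left side
  have eL : ∑ τ, ∫ x, (if 2 * (D.g : ℝ) ≤ nsp sp (sp none) (Qc q s) x then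
          nsp sp (sp none) (Qc q s) x ^ ((5 : ℝ) / 3) else 0) * ‖Φ τ x‖ ^ 2 =
      ∑ k ∈ Finset.range (N + 1), w k * nrm2 D (wk D sp q s k Φ) := by
    unfold nrm2
    simp only [Finset.mul_sum]
    rw [Finset.sum_comm]
    refine Finset.sum_congr rfl fun τ _ => ?_
    have hI : ∀ k ∈ Finset.range (N + 1), Integrable (fun x =>
        w k * ‖wk D sp q s k Φ τ x‖ ^ 2) := fun k _ =>
      (nice_sqR _ (wk_nice D sp q s k Φ hnΦ τ)).const_mul _
    have e0 : ∀ k ∈ Finset.range (N + 1), w k * ∫ x, ‖wk D sp q s k Φ τ x‖ ^ 2 =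
        ∫ x, w k * ‖wk D sp q s k Φ τ x‖ ^ 2 := fun k _ => (integral_const_mul _ _).symm
    rw [Finset.sum_congr rfl e0, ← integral_finsetSum _ hI]
    congr 1
    funext x
    obtain ⟨k, hk, he, hsum⟩ := chi_sum sp (sp none) (Qc q s) x (fun k => w k)
    have e1 : ∀ j ∈ Finset.range (N + 1), w j * ‖wk D sp q s j Φ τ x‖ ^ 2 =
        (w j * chi sp (sp none) (Qc q s) j x) * ‖Φ τ x‖ ^ 2 := fun j _ => by
      rw [wk_norm]; ring
    rw [Finset.sum_congr rfl e1, ← Finset.sum_mul]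
    rw [hN, hsum, he]
  -- the right side
  have eR : (N : ℝ) * ∑ τ, ∫ x, (Qc q s).indicator (fun _ => (1 : ℝ)) (x none) *
          ∑ k : Fin 3, ‖fderiv ℝ (Φ τ) x (Pi.single none (EuclideanSpace.single k (1 : ℝ)))‖ ^ 2 =
      ∑ k ∈ Finset.range (N + 1), K k := by
    rw [← Finset.mul_sum]
    congr 1
    rw [Finset.sum_comm]
    refine Finset.sum_congr rfl fun τ _ => ?_
    rw [← integral_finsetSum _ fun k _ => hIg k τ]
    congr 1
    funext x
    obtain ⟨k, hk, he, hsum⟩ := chi_sum sp (sp none) (Qc q s) x (fun _ => 1)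
    have e1 : ∀ j ∈ Finset.range (N + 1), iq q s (x none) *
        (chi sp (sp none) (Qc q s) j x * gr3 (Φ τ) x) =
        (1 * chi sp (sp none) (Qc q s) j x) * (iq q s (x none) * gr3 (Φ τ) x) := fun j _ => by
      ring
    rw [Finset.sum_congr rfl e1, ← Finset.sum_mul]
    rw [hN, hsum, one_mul]
    rfl
  rw [eL, eR, Finset.mul_sum]
  refine Finset.sum_le_sum fun k _ => ?_
  have hCs : 0 ≤ (8 * C * (2 * (D.g : ℝ)) ^ ((2 : ℝ) / 3) + 1) * s ^ 2 := by positivity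
  by_cases hk : 2 * (D.g : ℝ) ≤ k
  · have hw : w k = (k : ℝ) ^ ((5 : ℝ) / 3) := if_pos hk
    rw [hw]
    by_cases hg : D.g = 0
    · have : nrm2 D (wk D sp q s k Φ) = 0 := by
        unfold nrm2
        have : IsEmpty (Option I → Fin D.g) := by
          rw [hg]
          exact ⟨fun f => (f none).elim0⟩
        exact Finset.sum_of_isEmpty _
      rw [this, mul_zero]
      exact mul_nonneg hCs (hK0 k)
    · have h := step_d D.g (Nat.one_le_iff_ne_zero.2 hg) C hC0.le s k hk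
        (nrm2 D (wk D sp q s k Φ)) (K k) (hX0 k) (hK0 k)
        (fun m hm => step_c D sp hferm ℓ C hP q s hs k m hm Φ hΦ)
      refine h.trans ?_
      have h2 : 0 ≤ s ^ 2 * K k := mul_nonneg (by positivity) (hK0 k)
      nlinarith [h2]
  · have hw : w k = 0 := if_neg hk
    rw [hw, zero_mul]
    exact mul_nonneg hCs (hK0 k)

end Pool.Agent.Helper780_CP.RC7
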