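import Pool.Agent.Helper780_CP.LLDefs2
import Pool.Agent.Helper780_CP.Stable
import Pool.Agent.Helper780_CP.RC7

set_option autoImplicit false

open MeasureTheory

namespace Pool.Agent.Helper780_CP.RPAU

open Pool.Agent.Helper780_CP
open Pool.Agent.Helper985.CP
open Pool.Agent.Helper780_CP.RC7 (pauli_cube)

open Pool.Agent.Helper985.CP

/-- the lower corner of the cube with centre `w` -/
noncomputable def pauQ (w : E3) (h : ℝ) : E3 := WithLp.toLp 2 (fun k => w k - h)

theorem pauQ_apply (w : E3) (h : ℝ) (k : Fin 3) : pauQ w h k = w k - h := rfl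

theorem mem_pauQ (w : E3) (h : ℝ) (z : E3) : z ∈ Qc (pauQ w h) (2 * h) ↔
    ∀ t, w t - h ≤ z t ∧ z t < w t + h := by
  unfold Qc
  simp only [Set.mem_ofPred_eq, pauQ_apply]
  refine forall_congr' fun k => and_congr_right fun _ => ?_
  rw [show w k - h + 2 * h = w k + h by ring]

theorem nsp_nonneg' {S : Type} {J : Type} [Fintype J] (sp : J → S) (s0 : S) (A : Set E3)
    (x : J → E3) : 0 ≤ nsp sp s0 A x := by
  unfold nsp
  exact Finset.sum_nonneg fun j _ => by split_ifs <;> norm_num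

theorem nw_eq {S : Type} [Fintype S] [DecidableEq S] (D : Species S) {I : Type} [Fintype I]
    (sp : I → S) (x : I → E3) (h : ℝ) (w : E3) :
    nw (fun i => D.charge (sp i)) x h w =
      ∑ s ∈ Finset.univ.filter (fun s => D.charge s < 0), nsp sp s (Qc (pauQ w h) (2 * h)) x := by
  classical
  unfold nw nsp
  rw [Finset.sum_comm]
  refine Finset.sum_congr rfl fun j _ => ?_
  simp only [mem_pauQ]
  rw [Finset.sum_filter]
  have h1 : ∀ s : S, (if D.charge s < 0 then (if sp j = s ∧ (∀ t, w t - h ≤ x j t ∧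
      x j t < w t + h) then (1 : ℝ) else 0) else 0) =
      if sp j = s then (if D.charge (sp j) < 0 ∧ (∀ t, w t - h ≤ x j t ∧
      x j t < w t + h) then (1 : ℝ) else 0) else 0 := by
    intro s
    by_cases hs : sp j = s
    · subst hs
      by_cases h2 : D.charge (sp j) < 0 <;> simp [h2]
    · simp [hs]
  rw [Finset.sum_congr rfl fun s _ => h1 s, Finset.sum_ite_eq]
  simp

theorem pow53 {S : Type} [Fintype S] [DecidableEq S] (T : Finset S) (a : S → ℝ)
    (ha : ∀ s, 0 ≤ a s) (g : ℝ) (hg : 0 ≤ g)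
    (hK : 2 * g * (Fintype.card S : ℝ) ≤ ∑ s ∈ T, a s) :
    (∑ s ∈ T, a s) ^ ((5 : ℝ) / 3) ≤ (Fintype.card S : ℝ) ^ ((5 : ℝ) / 3) *
      ∑ s ∈ T, (if 2 * g ≤ a s then a s ^ ((5 : ℝ) / 3) else 0) := by
  rcases T.eq_empty_or_nonempty with rfl | hne
  · simp only [Finset.sum_empty, mul_zero]
    rw [Real.zero_rpow (by norm_num)]
  · obtain ⟨s0, hs0, hmax⟩ := Finset.exists_max_image T a hne
    have hS : (0 : ℝ) < (Fintype.card S : ℝ) := by
      have : 0 < Fintype.card S := Fintype.card_pos_iff.2 ⟨s0⟩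
      exact_mod_cast this
    have h1 : ∑ s ∈ T, a s ≤ (Fintype.card S : ℝ) * a s0 := by
      calc ∑ s ∈ T, a s ≤ ∑ _s ∈ T, a s0 := Finset.sum_le_sum hmax
        _ = (T.card : ℝ) * a s0 := by rw [Finset.sum_const, nsmul_eq_mul]
        _ ≤ (Fintype.card S : ℝ) * a s0 := by
            refine mul_le_mul_of_nonneg_right ?_ (ha s0)
            exact_mod_cast Finset.card_le_univ T
    have h2 : 2 * g ≤ a s0 := by
      have : (Fintype.card S : ℝ) * (2 * g) ≤ (Fintype.card S : ℝ) * a s0 := by linarith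
      exact le_of_mul_le_mul_left this hS
    have h3 : a s0 ^ ((5 : ℝ) / 3) ≤ ∑ s ∈ T, (if 2 * g ≤ a s then a s ^ ((5 : ℝ) / 3) else 0) := by
      have := Finset.single_le_sum (f := fun s => if 2 * g ≤ a s then a s ^ ((5 : ℝ) / 3) else 0)
        (fun s _ => by
          split_ifs
          · exact Real.rpow_nonneg (ha s) _
          · exact le_rfl) hs0
      simpa only [if_pos h2] using this
    have h4 : 0 ≤ ∑ s ∈ T, a s := Finset.sum_nonneg fun s _ => ha s
    calc (∑ s ∈ T, a s) ^ ((5 : ℝ) / 3) ≤ ((Fintype.card S : ℝ) * a s0) ^ ((5 : ℝ) / 3) :=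
          Real.rpow_le_rpow h4 h1 (by norm_num)
      _ = (Fintype.card S : ℝ) ^ ((5 : ℝ) / 3) * a s0 ^ ((5 : ℝ) / 3) :=
          Real.mul_rpow hS.le (ha s0)
      _ ≤ _ := mul_le_mul_of_nonneg_left h3 (Real.rpow_nonneg hS.le _)

theorem nsp_relab {S : Type} {I J : Type} [Fintype I] [Fintype J] (e : I ≃ J) (sp : I → S)
    (sp' : J → S) (h : ∀ i, sp' (e i) = sp i) (s : S) (A : Set E3) (x : J → E3) :
    nsp sp' s A x = nsp sp s A (fun i => x (e i)) := by
  classical
  unfold nsp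
  rw [← Equiv.sum_comp e]
  refine Finset.sum_congr rfl fun i _ => ?_
  rw [h i]

theorem grad_kin {S : Type} (D : Species S) (hD : D.Valid) {I : Type} [Fintype I] [DecidableEq I]
    (sp : I → S) (i : I) (u : (I → E3) → ℂ) (x : I → E3) :
    ∑ k : Fin 3, ‖fderiv ℝ u x (Pi.single i (EuclideanSpace.single k (1 : ℝ)))‖ ^ 2 =
      2 * D.mass (sp i) * kin D sp i u x := by
  unfold kin
  have := hD.mass_pos (sp i)
  field_simp

/-- the Pauli principle in a cube for any particle -/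
theorem pauli_any {S : Type} [DecidableEq S] (D : Species S) (hD : D.Valid) :
    ∃ C : ℝ, 0 < C ∧ ∀ {I : Type} [Fintype I] [DecidableEq I] (sp : I → S) (ℓ : ℝ) (i : I),
      D.fermion (sp i) = true → ∀ (Ψ : Wave D I), IsState D sp ℓ Ψ →
      ∀ (q : E3) (s : ℝ), 0 < s →
      ∑ τ, ∫ x, (if 2 * (D.g : ℝ) ≤ nsp sp (sp i) (Qc q s) x then
          nsp sp (sp i) (Qc q s) x ^ ((5 : ℝ) / 3) else 0) * ‖Ψ τ x‖ ^ 2 ≤
        C * s ^ 2 * ((cnt sp (sp i) : ℝ) * (2 * D.mass (sp i) *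
          ∑ τ, ∫ x, (Qc q s).indicator (fun _ => (1 : ℝ)) (x i) * kin D sp i (Ψ τ) x)) := by
  obtain ⟨C, hC, H⟩ := pauli_cube D
  refine ⟨C, hC, ?_⟩
  intro I _ _ sp ℓ i hf Ψ hΨ q s hs
  obtain ⟨e, he⟩ : ∃ e : I ≃ Option {j // j ≠ i}, e i = none :=
    ⟨(Equiv.optionSubtypeNe i).symm, Equiv.optionSubtypeNe_symm_self i⟩
  obtain ⟨sp', hsp'⟩ : ∃ sp' : Option {j // j ≠ i} → S, sp' = fun j => sp (e.symm j) := ⟨_, rfl⟩
  have h : ∀ k, sp' (e k) = sp k := fun k => by rw [hsp']; simp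
  have hnone : sp' none = sp i := by rw [← he, h]
  have h1 := H sp' ℓ (by rw [hnone]; exact hf) (relab D e Ψ) (relabel_state D e sp sp' h ℓ Ψ hΨ)
    q s hs
  have h2 : ∑ τ, ∫ x, (if 2 * (D.g : ℝ) ≤ nsp sp' (sp i) (Qc q s) x then
          nsp sp' (sp i) (Qc q s) x ^ ((5 : ℝ) / 3) else 0) * ‖relab D e Ψ τ x‖ ^ 2 =
      ∑ τ, ∫ x, (if 2 * (D.g : ℝ) ≤ nsp sp (sp i) (Qc q s) x then
          nsp sp (sp i) (Qc q s) x ^ ((5 : ℝ) / 3) else 0) * ‖Ψ τ x‖ ^ 2 := by
    rw [← relaux_sum e]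
    refine Finset.sum_congr rfl fun τ _ => ?_
    rw [← relaux_int e]
    congr 1
    funext x
    rw [nsp_relab e sp sp' h]
    rfl
  have h3 : ∑ τ, ∫ x, (Qc q s).indicator (fun _ => (1 : ℝ)) (x none) *
      ∑ k : Fin 3, ‖fderiv ℝ (relab D e Ψ τ) x
        (Pi.single none (EuclideanSpace.single k (1 : ℝ)))‖ ^ 2 =
      2 * D.mass (sp i) *
          ∑ τ, ∫ x, (Qc q s).indicator (fun _ => (1 : ℝ)) (x i) * kin D sp i (Ψ τ) x := by
    rw [← relaux_sum e, Finset.mul_sum]
    refine Finset.sum_congr rfl fun τ _ => ?_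
    rw [← relaux_int e, ← integral_const_mul]
    congr 1
    funext x
    rw [grad_kin D hD sp', hnone, ← he]
    have h4 := relaux_kin D e sp sp' h i (Ψ (fun i => τ (e i))) x
    have h5 : kin D sp' (e i) (relab D e Ψ τ) x =
      kin D sp i (Ψ (fun i => τ (e i))) (fun k => x (e k)) := h4
    rw [h5]
    ring
  rw [hnone, h2, cnt_relab e sp sp' h, h3] at h1
  exact h1

/-- Fubini for a bounded weight -/
theorem pau_fub {I : Type} [Fintype I] (G : (I → E3) → E3 → ℝ)
    (hG : Measurable (fun p : (I → E3) × E3 => G p.1 p.2)) (M : ℝ) (hM : ∀ x w, |G x w| ≤ M)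
    (f : (I → E3) → ℝ) (hf : Integrable f) (y : E3) (ρ : ℝ) :
    Integrable (fun x => (∫ w in Metric.ball y ρ, G x w) * f x) ∧
    Integrable (fun w => ∫ x, G x w * f x) (volume.restrict (Metric.ball y ρ)) ∧
    ∫ x, (∫ w in Metric.ball y ρ, G x w) * f x = ∫ w in Metric.ball y ρ, ∫ x, G x w * f x := by
  have : IsFiniteMeasure (volume.restrict (Metric.ball y ρ)) :=
    ⟨by rw [Measure.restrict_apply_univ]; exact measure_ball_lt_top⟩
  have h0 : Integrable (fun p : (I → E3) × E3 => f p.1 * (1 : ℝ))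
      ((volume : Measure (I → E3)).prod (volume.restrict (Metric.ball y ρ))) :=
    hf.mul_prod (integrable_const (1 : ℝ))
  have h1 : Integrable (fun p : (I → E3) × E3 => G p.1 p.2 * f p.1)
      ((volume : Measure (I → E3)).prod (volume.restrict (Metric.ball y ρ))) := by
    have h00 := (h0.norm.const_mul M)
    refine h00.mono' ?_ (Filter.Eventually.of_forall fun p => ?_)
    · refine hG.aestronglyMeasurable.mul ?_
      have := h0.aestronglyMeasurable
      simpa using this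
    · rw [norm_mul, mul_one]
      exact mul_le_mul_of_nonneg_right (hM p.1 p.2) (norm_nonneg _)
  have h2 : ∀ x, (∫ w in Metric.ball y ρ, G x w) * f x = ∫ w in Metric.ball y ρ, G x w * f x :=
    fun x => (integral_mul_const _ _).symm
  refine ⟨?_, ?_, ?_⟩
  · simp only [h2]
    exact h1.integral_prod_left
  · exact h1.integral_prod_right
  · simp only [h2]
    exact integral_integral_swap h1

theorem nw_meas {I : Type} [Fintype I] (c : I → ℝ) (h : ℝ) :
    Measurable (fun p : (I → E3) × E3 => nw c p.1 h p.2) := by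
  unfold nw
  refine Finset.measurable_sum _ fun j _ => ?_
  refine Measurable.ite ?_ measurable_const measurable_const
  refine MeasurableSet.inter (MeasurableSet.const _) ?_
  have : {p : (I → E3) × E3 | ∀ t, p.2 t - h ≤ p.1 j t ∧ p.1 j t < p.2 t + h} =
      ⋂ t, ({p : (I → E3) × E3 | p.2 t - h ≤ p.1 j t} ∩ {p | p.1 j t < p.2 t + h}) := by
    ext p
    simp
  change MeasurableSet {p : (I → E3) × E3 | ∀ t, p.2 t - h ≤ p.1 j t ∧ p.1 j t < p.2 t + h}
  rw [this]
  refine MeasurableSet.iInter fun t => ?_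
  have e1 : Measurable (fun p : (I → E3) × E3 => p.2 t) := by fun_prop
  have e2 : Measurable (fun p : (I → E3) × E3 => p.1 j t) := by fun_prop
  exact (measurableSet_le (e1.sub_const h) e2).inter (measurableSet_lt e2 (e1.add_const h))

theorem nw_nonneg' {I : Type} [Fintype I] (c : I → ℝ) (x : I → E3) (h : ℝ) (w : E3) :
    0 ≤ nw c x h w := by
  unfold nw
  exact Finset.sum_nonneg fun j _ => by split_ifs <;> norm_num

theorem nw_le_card {I : Type} [Fintype I] (c : I → ℝ) (x : I → E3) (h : ℝ) (w : E3) :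
    nw c x h w ≤ (Fintype.card I : ℝ) := by
  unfold nw
  calc _ ≤ ∑ _j : I, (1 : ℝ) := Finset.sum_le_sum fun j _ => by split_ifs <;> norm_num
    _ = (Fintype.card I : ℝ) := by simp

theorem nsp_le_card {S : Type} {J : Type} [Fintype J] (sp : J → S) (s0 : S) (A : Set E3)
    (x : J → E3) : nsp sp s0 A x ≤ (Fintype.card J : ℝ) := by
  unfold nsp
  calc _ ≤ ∑ _j : J, (1 : ℝ) := Finset.sum_le_sum fun j _ => by split_ifs <;> norm_num
    _ = (Fintype.card J : ℝ) := by simp

theorem cut53_bound {n N a : ℝ} (h0 : 0 ≤ n) (h1 : n ≤ N) :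
    |if a ≤ n then n ^ ((5 : ℝ) / 3) else 0| ≤ N ^ ((5 : ℝ) / 3) := by
  split_ifs
  · rw [abs_of_nonneg (Real.rpow_nonneg h0 _)]
    exact Real.rpow_le_rpow h0 h1 (by norm_num)
  · rw [abs_zero]
    exact Real.rpow_nonneg (h0.trans h1) _

theorem Qc_meas (q : E3) (s : ℝ) : MeasurableSet (Qc q s) := by
  have : Qc q s = ⋂ k, ({z : E3 | q k ≤ z k} ∩ {z | z k < q k + s}) := by
    ext z
    simp [Qc]
  rw [this]
  refine MeasurableSet.iInter fun t => ?_
  have e1 : Measurable (fun z : E3 => z t) := by fun_prop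
  exact (measurableSet_le measurable_const e1).inter (measurableSet_lt e1 measurable_const)

theorem nsp_meas {S : Type} {J : Type} [Fintype J] (sp : J → S) (s0 : S) (A : Set E3)
    (hA : MeasurableSet A) : Measurable (nsp sp s0 A) := by
  unfold nsp
  refine Finset.measurable_sum _ fun j _ => ?_
  refine Measurable.ite ?_ measurable_const measurable_const
  refine MeasurableSet.inter (MeasurableSet.const _) ?_
  exact (measurable_pi_apply j) hA

theorem cut53_meas {A : Type} [MeasurableSpace A] (f : A → ℝ) (hf : Measurable f) (a : ℝ) :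
    Measurable (fun x => if a ≤ f x then f x ^ ((5 : ℝ) / 3) else 0) := by
  refine Measurable.ite (measurableSet_le measurable_const hf) ?_ measurable_const
  exact hf.pow_const _

theorem bdd_int {I : Type} [Fintype I] (W : (I → E3) → ℝ) (hW : Measurable W) (M : ℝ)
    (hM : ∀ x, |W x| ≤ M) (f : (I → E3) → ℝ) (hf : Integrable f) :
    Integrable (fun x => W x * f x) := by
  refine (hf.norm.const_mul M).mono' (hW.aestronglyMeasurable.mul hf.aestronglyMeasurable)
    (Filter.Eventually.of_forall fun x => ?_)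
  rw [norm_mul]
  exact mul_le_mul_of_nonneg_right (hM x) (norm_nonneg _)

theorem kin_nonneg' {S : Type} (D : Species S) (hD : D.Valid) {I : Type} [Fintype I]
    [DecidableEq I] (sp : I → S) (i : I) (u : (I → E3) → ℂ) (x : I → E3) : 0 ≤ kin D sp i u x := by
  unfold kin
  have := (hD.mass_pos (sp i)).le
  positivity

/-- one species, all its particles -/
theorem pauli_species {S : Type} [DecidableEq S] (D : Species S) (hD : D.Valid) :
    ∃ C : ℝ, 0 < C ∧ ∀ {I : Type} [Fintype I] [DecidableEq I] (sp : I → S) (ℓ : ℝ) (s0 : S),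
      D.fermion s0 = true → ∀ (Ψ : Wave D I), IsState D sp ℓ Ψ →
      ∀ (q : E3) (s : ℝ), 0 < s →
      ∑ τ, ∫ x, (if 2 * (D.g : ℝ) ≤ nsp sp s0 (Qc q s) x then
          nsp sp s0 (Qc q s) x ^ ((5 : ℝ) / 3) else 0) * ‖Ψ τ x‖ ^ 2 ≤
        C * s ^ 2 * (2 * D.mass s0 * ∑ i ∈ Finset.univ.filter (fun i => sp i = s0),
          ∑ τ, ∫ x, (Qc q s).indicator (fun _ => (1 : ℝ)) (x i) * kin D sp i (Ψ τ) x) := by
  obtain ⟨C, hC, H⟩ := pauli_any D hD
  refine ⟨C, hC, ?_⟩
  intro I _ _ sp ℓ s0 hf Ψ hΨ q s hs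
  by_cases h0 : cnt sp s0 = 0
  · have h1 : ∀ i, sp i ≠ s0 := by
      intro i hi
      unfold cnt at h0
      rw [Finset.card_eq_zero, Finset.filter_eq_empty_iff] at h0
      exact h0 (Finset.mem_univ i) hi
    have h2 : ∀ x, nsp sp s0 (Qc q s) x = 0 := by
      intro x
      unfold nsp
      refine Finset.sum_eq_zero fun j _ => ?_
      rw [if_neg]
      exact fun h => h1 j h.1
    have h3 : Finset.univ.filter (fun i => sp i = s0) = ∅ := by
      rw [Finset.filter_eq_empty_iff]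
      exact fun i _ => h1 i
    rw [h3]
    simp only [h2, Finset.sum_empty, mul_zero]
    rw [Real.zero_rpow (by norm_num)]
    simp
  · have hcn : (0 : ℝ) < (cnt sp s0 : ℝ) := by
      exact_mod_cast Nat.pos_of_ne_zero h0
    obtain ⟨L, hL⟩ : ∃ L, L = ∑ τ, ∫ x, (if 2 * (D.g : ℝ) ≤ nsp sp s0 (Qc q s) x then
          nsp sp s0 (Qc q s) x ^ ((5 : ℝ) / 3) else 0) * ‖Ψ τ x‖ ^ 2 := ⟨_, rfl⟩
    have h1 : ∑ i ∈ Finset.univ.filter (fun i => sp i = s0), L ≤
        ∑ i ∈ Finset.univ.filter (fun i => sp i = s0), C * s ^ 2 * ((cnt sp s0 : ℝ) *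
          (2 * D.mass s0 *
          ∑ τ, ∫ x, (Qc q s).indicator (fun _ => (1 : ℝ)) (x i) * kin D sp i (Ψ τ) x)) := by
      refine Finset.sum_le_sum fun i hi => ?_
      rw [Finset.mem_filter] at hi
      have h2 := H sp ℓ i (by rw [hi.2]; exact hf) Ψ hΨ q s hs
      rw [hi.2] at h2
      rw [hL]
      exact h2
    rw [Finset.sum_const, nsmul_eq_mul] at h1
    have h2 : ∑ i ∈ Finset.univ.filter (fun i => sp i = s0), C * s ^ 2 * ((cnt sp s0 : ℝ) *
          (2 * D.mass s0 *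
          ∑ τ, ∫ x, (Qc q s).indicator (fun _ => (1 : ℝ)) (x i) * kin D sp i (Ψ τ) x)) =
        (cnt sp s0 : ℝ) * (C * s ^ 2 * (2 * D.mass s0 *
          ∑ i ∈ Finset.univ.filter (fun i => sp i = s0),
          ∑ τ, ∫ x, (Qc q s).indicator (fun _ => (1 : ℝ)) (x i) * kin D sp i (Ψ τ) x)) := by
      simp only [Finset.mul_sum]
      refine Finset.sum_congr rfl fun i _ => Finset.sum_congr rfl fun τ _ => ?_
      ring
    rw [h2] at h1
    rw [← hL]
    exact le_of_mul_le_mul_left h1 hcn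

/-- the estimate for one cube -/
theorem pau_point {S : Type} [Fintype S] [DecidableEq S] (D : Species S) (hD : D.Valid)
    (hf : ∀ s, D.charge s < 0 → D.fermion s = true) :
    ∃ C : ℝ, 0 ≤ C ∧ ∀ {I : Type} [Fintype I] [DecidableEq I] (sp : I → S) (ℓ : ℝ)
      (Ψ : Wave D I), IsState D sp ℓ Ψ → ∀ (w : E3) (h : ℝ), 0 < h →
      ∑ τ, ∫ x, (if 2 * (D.g : ℝ) * (Fintype.card S : ℝ) ≤
          nw (fun i => D.charge (sp i)) x h w then
          nw (fun i => D.charge (sp i)) x h w ^ ((5 : ℝ) / 3) else 0) * ‖Ψ τ x‖ ^ 2 ≤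
        C * h ^ 2 * ∑ i, ∑ τ, ∫ x, (Qc (pauQ w h) (2 * h)).indicator (fun _ => (1 : ℝ)) (x i) *
          kin D sp i (Ψ τ) x := by
  obtain ⟨C, hC, H⟩ := pauli_species D hD
  obtain ⟨mm, hmm⟩ : ∃ mm, mm = ∑ s, D.mass s := ⟨_, rfl⟩
  have hm1 : ∀ s, D.mass s ≤ mm := by
    intro s
    rw [hmm]
    exact Finset.single_le_sum (f := fun s => D.mass s) (fun t _ => (hD.mass_pos t).le)
      (Finset.mem_univ s)
  have hm0 : 0 ≤ mm := by rw [hmm]; exact Finset.sum_nonneg fun t _ => (hD.mass_pos t).le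
  refine ⟨(Fintype.card S : ℝ) ^ ((5 : ℝ) / 3) * (C * 4 * (2 * mm)), by positivity, ?_⟩
  intro I _ _ sp ℓ Ψ hΨ w h hh
  have hQm := Qc_meas (pauQ w h) (2 * h)
  have hst := fun τ => int_state D sp ℓ Ψ hΨ τ
  obtain ⟨T, hT⟩ : ∃ T : I → ℝ, T = fun i => ∑ τ, ∫ x,
      (Qc (pauQ w h) (2 * h)).indicator (fun _ => (1 : ℝ)) (x i) * kin D sp i (Ψ τ) x := ⟨_, rfl⟩
  have hT0 : ∀ i, 0 ≤ T i := by
    intro i
    rw [hT]
    refine Finset.sum_nonneg fun τ _ => integral_nonneg fun x => ?_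
    exact mul_nonneg (Set.indicator_nonneg (fun _ _ => zero_le_one) _) (kin_nonneg' D hD sp i _ x)
  obtain ⟨N, hN⟩ : ∃ N : S → (I → E3) → ℝ, N = fun s x =>
      (if 2 * (D.g : ℝ) ≤ nsp sp s (Qc (pauQ w h) (2 * h)) x then
        nsp sp s (Qc (pauQ w h) (2 * h)) x ^ ((5 : ℝ) / 3) else 0) := ⟨_, rfl⟩
  have hNint : ∀ s τ, Integrable (fun x => N s x * ‖Ψ τ x‖ ^ 2) := by
    intro s τ
    rw [hN]
    exact bdd_int _ (cut53_meas _ (nsp_meas sp s _ hQm) _) _
      (fun x => cut53_bound (nsp_nonneg' sp s _ x) (nsp_le_card sp s _ x)) _ (hst τ).1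
  have h1 : ∀ x, (if 2 * (D.g : ℝ) * (Fintype.card S : ℝ) ≤
          nw (fun i => D.charge (sp i)) x h w then
          nw (fun i => D.charge (sp i)) x h w ^ ((5 : ℝ) / 3) else 0) ≤
        (Fintype.card S : ℝ) ^ ((5 : ℝ) / 3) *
          ∑ s ∈ Finset.univ.filter (fun s => D.charge s < 0), N s x := by
    intro x
    rw [hN]
    split_ifs with hK
    · rw [nw_eq] at hK ⊢
      exact pow53 _ (fun s => nsp sp s (Qc (pauQ w h) (2 * h)) x)
        (fun s => nsp_nonneg' sp s _ x) (D.g : ℝ) (Nat.cast_nonneg _) hK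
    · refine mul_nonneg (by positivity) (Finset.sum_nonneg fun s _ => ?_)
      simp only
      split_ifs
      · exact Real.rpow_nonneg (nsp_nonneg' sp s _ x) _
      · exact le_rfl
  have hGint : ∀ τ, Integrable (fun x => (if 2 * (D.g : ℝ) * (Fintype.card S : ℝ) ≤
          nw (fun i => D.charge (sp i)) x h w then
          nw (fun i => D.charge (sp i)) x h w ^ ((5 : ℝ) / 3) else 0) * ‖Ψ τ x‖ ^ 2) := by
    intro τ
    have e1 : Measurable (fun x : I → E3 => nw (fun i => D.charge (sp i)) x h w) :=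
      (nw_meas (fun i => D.charge (sp i)) h).comp (measurable_id.prodMk measurable_const)
    exact bdd_int _ (cut53_meas _ e1 _) _
      (fun x => cut53_bound (nw_nonneg' _ x h w) (nw_le_card _ x h w)) _ (hst τ).1
  have h2 : ∑ τ, ∫ x, (if 2 * (D.g : ℝ) * (Fintype.card S : ℝ) ≤
          nw (fun i => D.charge (sp i)) x h w then
          nw (fun i => D.charge (sp i)) x h w ^ ((5 : ℝ) / 3) else 0) * ‖Ψ τ x‖ ^ 2 ≤
      (Fintype.card S : ℝ) ^ ((5 : ℝ) / 3) *
        ∑ s ∈ Finset.univ.filter (fun s => D.charge s < 0), ∑ τ, ∫ x, N s x * ‖Ψ τ x‖ ^ 2 := by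
    rw [Finset.sum_comm, Finset.mul_sum]
    refine Finset.sum_le_sum fun τ _ => ?_
    rw [← integral_finsetSum _ fun s _ => hNint s τ, ← integral_const_mul]
    refine integral_mono (hGint τ) ?_ fun x => ?_
    · exact (integrable_finsetSum _ fun s _ => hNint s τ).const_mul _
    · simp only
      rw [← Finset.sum_mul, ← mul_assoc]
      exact mul_le_mul_of_nonneg_right (h1 x) (sq_nonneg _)
  refine h2.trans ?_
  have h3 : ∀ s ∈ Finset.univ.filter (fun s => D.charge s < 0),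
      ∑ τ, ∫ x, N s x * ‖Ψ τ x‖ ^ 2 ≤ C * (2 * h) ^ 2 * (2 * mm *
        ∑ i ∈ Finset.univ.filter (fun i => sp i = s), T i) := by
    intro s hs
    rw [Finset.mem_filter] at hs
    have h4 := H sp ℓ s (hf s hs.2) Ψ hΨ (pauQ w h) (2 * h) (by positivity)
    rw [hN, hT]
    refine h4.trans ?_
    have h5 : 0 ≤ ∑ i ∈ Finset.univ.filter (fun i => sp i = s), T i :=
      Finset.sum_nonneg fun i _ => hT0 i
    rw [hT] at h5
    have h6 := hm1 s
    gcongr
  have h4 := Finset.sum_le_sum h3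
  have h5 : ∑ s ∈ Finset.univ.filter (fun s => D.charge s < 0),
      ∑ i ∈ Finset.univ.filter (fun i => sp i = s), T i ≤ ∑ i, T i := by
    calc _ ≤ ∑ s, ∑ i ∈ Finset.univ.filter (fun i => sp i = s), T i :=
          Finset.sum_le_sum_of_subset_of_nonneg (Finset.filter_subset _ _)
            fun s _ _ => Finset.sum_nonneg fun i _ => hT0 i
      _ = ∑ i, T i := Finset.sum_fiberwise _ _ _
  rw [← Finset.mul_sum, ← Finset.mul_sum] at h4
  have h6 : (Fintype.card S : ℝ) ^ ((5 : ℝ) / 3) *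
      ∑ s ∈ Finset.univ.filter (fun s => D.charge s < 0), ∑ τ, ∫ x, N s x * ‖Ψ τ x‖ ^ 2 ≤
      (Fintype.card S : ℝ) ^ ((5 : ℝ) / 3) * (C * (2 * h) ^ 2 * (2 * mm * ∑ i, T i)) := by
    refine mul_le_mul_of_nonneg_left (h4.trans ?_) (by positivity)
    gcongr
  refine h6.trans (le_of_eq ?_)
  rw [hT]
  ring

theorem pau_ind_meas {I : Type} [Fintype I] (i : I) (h : ℝ) :
    Measurable (fun p : (I → E3) × E3 =>
      (Qc (pauQ p.2 h) (2 * h)).indicator (fun _ => (1 : ℝ)) (p.1 i)) := by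
  classical
  have h1 : (fun p : (I → E3) × E3 =>
      (Qc (pauQ p.2 h) (2 * h)).indicator (fun _ => (1 : ℝ)) (p.1 i)) =
      fun p => if (∀ t, p.2 t - h ≤ p.1 i t ∧ p.1 i t < p.2 t + h) then (1 : ℝ) else 0 := by
    funext p
    rw [Set.indicator_apply]
    simp only [mem_pauQ]
  rw [h1]
  refine Measurable.ite ?_ measurable_const measurable_const
  have : {p : (I → E3) × E3 | ∀ t, p.2 t - h ≤ p.1 i t ∧ p.1 i t < p.2 t + h} =
      ⋂ t, ({p : (I → E3) × E3 | p.2 t - h ≤ p.1 i t} ∩ {p | p.1 i t < p.2 t + h}) := by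
    ext p
    simp
  rw [this]
  refine MeasurableSet.iInter fun t => ?_
  have e1 : Measurable (fun p : (I → E3) × E3 => p.2 t) := by fun_prop
  have e2 : Measurable (fun p : (I → E3) × E3 => p.1 i t) := by fun_prop
  exact (measurableSet_le (e1.sub_const h) e2).inter (measurableSet_lt e2 (e1.add_const h))

theorem pau_ind_bound (w z : E3) (h : ℝ) :
    |(Qc (pauQ w h) (2 * h)).indicator (fun _ => (1 : ℝ)) z| ≤ 1 := by
  classical
  rw [Set.indicator_apply]
  split_ifs <;> simp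

theorem pau_near {w z : E3} {h : ℝ} (hh : 0 < h) (hz : z ∈ Qc (pauQ w h) (2 * h)) :
    ‖z - w‖ < 2 * h := by
  rw [mem_pauQ] at hz
  have h1 : ‖z - w‖ ^ 2 = ∑ t : Fin 3, (z t - w t) ^ 2 := by
    rw [EuclideanSpace.norm_sq_eq]
    refine Finset.sum_congr rfl fun t _ => ?_
    rw [PiLp.sub_apply, Real.norm_eq_abs, sq_abs]
  have h2 : ∀ t : Fin 3, (z t - w t) ^ 2 ≤ h ^ 2 := by
    intro t
    have := hz t
    rw [sq_le_sq, abs_of_pos hh, abs_le]
    constructor <;> linarith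
  have h3 : ‖z - w‖ ^ 2 ≤ 3 * h ^ 2 := by
    rw [h1, Fin.sum_univ_three]
    linarith [h2 0, h2 1, h2 2]
  by_contra hc
  push Not at hc
  nlinarith [norm_nonneg (z - w)]

/-- the volume of the set of centres -/
theorem pau_vol (y z : E3) (ρ h : ℝ) (hh : 0 < h) :
    ∫ w in Metric.ball y ρ, (Qc (pauQ w h) (2 * h)).indicator (fun _ => (1 : ℝ)) z ≤
      (if ‖z - y‖ < ρ + 2 * h then (volume (Metric.ball (0 : E3) 1)).toReal * (2 * h) ^ 3 else 0) := by
  classical
  split_ifs with hz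
  · have h1 : ∫ w in Metric.ball y ρ, (Qc (pauQ w h) (2 * h)).indicator (fun _ => (1 : ℝ)) z ≤
        ∫ w in Metric.ball y ρ, (Metric.ball z (2 * h)).indicator (fun _ => (1 : ℝ)) w := by
      refine integral_mono_of_nonneg (Filter.Eventually.of_forall fun w =>
        Set.indicator_nonneg (fun _ _ => zero_le_one) _) ?_ (Filter.Eventually.of_forall fun w => ?_)
      · refine Integrable.mono_measure ?_ Measure.restrict_le_self
        rw [integrable_indicator_iff measurableSet_ball]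
        exact integrableOn_const (measure_ball_lt_top).ne
      · simp only [Set.indicator_apply]
        split_ifs with h1 h2
        · exact le_rfl
        · refine absurd ?_ h2
          rw [Metric.mem_ball, dist_comm, dist_eq_norm]
          exact pau_near hh h1
        · exact zero_le_one
        · exact le_rfl
    refine h1.trans ?_
    have h2 : ∫ w in Metric.ball y ρ, (Metric.ball z (2 * h)).indicator (fun _ => (1 : ℝ)) w ≤
        ∫ w, (Metric.ball z (2 * h)).indicator (fun _ => (1 : ℝ)) w := by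
      refine setIntegral_le_integral ?_ (Filter.Eventually.of_forall fun w =>
        Set.indicator_nonneg (fun _ _ => zero_le_one) _)
      rw [integrable_indicator_iff measurableSet_ball]
      exact integrableOn_const (measure_ball_lt_top).ne
    refine h2.trans (le_of_eq ?_)
    rw [integral_indicator measurableSet_ball, setIntegral_const, smul_eq_mul, mul_one,
      measureReal_def, Measure.addHaar_ball _ _ (by positivity), ENNReal.toReal_mul,
      ENNReal.toReal_ofReal (by positivity), finrank_euclideanSpace, Fintype.card_fin, mul_comm]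
  · have h1 : ∀ w ∈ Metric.ball y ρ,
        (Qc (pauQ w h) (2 * h)).indicator (fun _ => (1 : ℝ)) z = 0 := by
      intro w hw
      rw [Set.indicator_of_notMem]
      intro hc
      apply hz
      have h2 := pau_near hh hc
      rw [Metric.mem_ball, dist_eq_norm] at hw
      calc ‖z - y‖ = ‖(z - w) + (w - y)‖ := by congr 1; abel
        _ ≤ ‖z - w‖ + ‖w - y‖ := norm_add_le _ _
        _ < ρ + 2 * h := by linarith
    rw [setIntegral_congr_fun measurableSet_ball h1]
    simp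

/-- TARGET -/
theorem nw_kin {S : Type} [Fintype S] [DecidableEq S] (D : Species S) (hD : D.Valid)
    (hf : ∀ s, D.charge s < 0 → D.fermion s = true) :
    ∃ K C : ℝ, 0 ≤ K ∧ 0 < C ∧ ∀ {I : Type} [Fintype I] [DecidableEq I] (sp : I → S) (ℓ : ℝ),
      ∀ (y : E3) (ρ h : ℝ), 0 < ρ → 0 < h →
      WI D sp ℓ (fun x => ∫ w in Metric.ball y ρ,
        (if K ≤ nw (fun i => D.charge (sp i)) x h w then
          nw (fun i => D.charge (sp i)) x h w ^ ((5 : ℝ) / 3) else 0)) ∧
      ∀ Ψ : Wave D I, IsState D sp ℓ Ψ →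
      wm D (fun x => ∫ w in Metric.ball y ρ, (if K ≤ nw (fun i => D.charge (sp i)) x h w then
          nw (fun i => D.charge (sp i)) x h w ^ ((5 : ℝ) / 3) else 0)) Ψ ≤
        C * h ^ 5 * kb D sp y (ρ + 2 * h) Ψ := by
  obtain ⟨C1, hC1, H⟩ := pau_point D hD hf
  obtain ⟨v, hv⟩ : ∃ v, v = (volume (Metric.ball (0 : E3) 1)).toReal := ⟨_, rfl⟩
  have hv0 : 0 ≤ v := by rw [hv]; exact ENNReal.toReal_nonneg
  refine ⟨2 * (D.g : ℝ) * (Fintype.card S : ℝ), C1 * (v * 8) + 1, by positivity, by positivity, ?_⟩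
  intro I _ _ sp ℓ y ρ h hρ hh
  obtain ⟨G, hG⟩ : ∃ G : (I → E3) → E3 → ℝ, G = fun x w =>
      (if 2 * (D.g : ℝ) * (Fintype.card S : ℝ) ≤ nw (fun i => D.charge (sp i)) x h w then
          nw (fun i => D.charge (sp i)) x h w ^ ((5 : ℝ) / 3) else 0) := ⟨_, rfl⟩
  have hGm : Measurable (fun p : (I → E3) × E3 => G p.1 p.2) := by
    rw [hG]
    exact cut53_meas _ (nw_meas (fun i => D.charge (sp i)) h) _
  have hGb : ∀ x w, |G x w| ≤ (Fintype.card I : ℝ) ^ ((5 : ℝ) / 3) := by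
    intro x w
    rw [hG]
    exact cut53_bound (nw_nonneg' _ x h w) (nw_le_card _ x h w)
  have hfub := fun (f : (I → E3) → ℝ) (hf : Integrable f) => pau_fub G hGm _ hGb f hf y ρ
  have hfub2 := fun (i : I) (f : (I → E3) → ℝ) (hf : Integrable f) =>
    pau_fub (fun x w => (Qc (pauQ w h) (2 * h)).indicator (fun _ => (1 : ℝ)) (x i))
      (pau_ind_meas i h) 1 (fun x w => pau_ind_bound w (x i) h) f hf y ρ
  have hGG : ∀ x w, (if 2 * (D.g : ℝ) * (Fintype.card S : ℝ) ≤
      nw (fun i => D.charge (sp i)) x h w then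
          nw (fun i => D.charge (sp i)) x h w ^ ((5 : ℝ) / 3) else 0) = G x w := by
    intro x w; rw [hG]
  simp only [hGG] at H ⊢
  refine ⟨fun Ψ hΨ τ => (hfub _ (int_state D sp ℓ Ψ hΨ τ).1).1, ?_⟩
  intro Ψ hΨ
  have hst := fun τ => int_state D sp ℓ Ψ hΨ τ
  have : IsFiniteMeasure (volume.restrict (Metric.ball y ρ)) :=
    ⟨by rw [Measure.restrict_apply_univ]; exact measure_ball_lt_top⟩
  have e1 : wm D (fun x => ∫ w in Metric.ball y ρ, G x w) Ψ =
      ∫ w in Metric.ball y ρ, ∑ τ, ∫ x, G x w * ‖Ψ τ x‖ ^ 2 := by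
    unfold wm
    rw [integral_finsetSum _ fun τ _ => (hfub _ (hst τ).1).2.1]
    exact Finset.sum_congr rfl fun τ _ => (hfub _ (hst τ).1).2.2
  have e2 : ∫ w in Metric.ball y ρ, ∑ τ, ∫ x, G x w * ‖Ψ τ x‖ ^ 2 ≤
      ∫ w in Metric.ball y ρ, C1 * h ^ 2 * ∑ i, ∑ τ, ∫ x,
        (Qc (pauQ w h) (2 * h)).indicator (fun _ => (1 : ℝ)) (x i) * kin D sp i (Ψ τ) x := by
    refine integral_mono (integrable_finsetSum _ fun τ _ => (hfub _ (hst τ).1).2.1) ?_ ?_
    · exact (integrable_finsetSum _ fun i _ => integrable_finsetSum _ fun τ _ =>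
        (hfub2 i _ ((hst τ).2.1 i)).2.1).const_mul _
    · intro w
      have := H sp ℓ Ψ hΨ w h hh
      rw [hG]
      exact this
  have e3 : ∫ w in Metric.ball y ρ, C1 * h ^ 2 * ∑ i, ∑ τ, ∫ x,
        (Qc (pauQ w h) (2 * h)).indicator (fun _ => (1 : ℝ)) (x i) * kin D sp i (Ψ τ) x =
      C1 * h ^ 2 * ∑ i, ∑ τ, ∫ x, (∫ w in Metric.ball y ρ,
        (Qc (pauQ w h) (2 * h)).indicator (fun _ => (1 : ℝ)) (x i)) * kin D sp i (Ψ τ) x := by
    rw [integral_const_mul, integral_finsetSum _ fun i _ => integrable_finsetSum _ fun τ _ =>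
        (hfub2 i _ ((hst τ).2.1 i)).2.1]
    congr 1
    refine Finset.sum_congr rfl fun i _ => ?_
    rw [integral_finsetSum _ fun τ _ => (hfub2 i _ ((hst τ).2.1 i)).2.1]
    refine Finset.sum_congr rfl fun τ _ => ?_
    exact (hfub2 i _ ((hst τ).2.1 i)).2.2.symm
  have hifm : ∀ i : I, Measurable (fun x : I → E3 => if ‖x i - y‖ < ρ + 2 * h then (1 : ℝ) else 0) := by
    intro i
    refine Measurable.ite ?_ measurable_const measurable_const
    exact measurableSet_lt (by fun_prop) measurable_const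
  have hkint : ∀ i τ, Integrable (fun x : I → E3 =>
      if ‖x i - y‖ < ρ + 2 * h then kin D sp i (Ψ τ) x else 0) := by
    intro i τ
    refine (bdd_int _ (hifm i) 1 (fun x => by split_ifs <;> simp) _ ((hst τ).2.1 i)).congr
      (Filter.Eventually.of_forall fun x => ?_)
    simp only
    split_ifs <;> simp
  have e4 : ∀ i τ, ∫ x, (∫ w in Metric.ball y ρ,
        (Qc (pauQ w h) (2 * h)).indicator (fun _ => (1 : ℝ)) (x i)) * kin D sp i (Ψ τ) x ≤
      v * (2 * h) ^ 3 * ∫ x, if ‖x i - y‖ < ρ + 2 * h then kin D sp i (Ψ τ) x else 0 := by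
    intro i τ
    rw [← integral_const_mul]
    refine integral_mono (hfub2 i _ ((hst τ).2.1 i)).1 ((hkint i τ).const_mul _) fun x => ?_
    have h1 := mul_le_mul_of_nonneg_right (pau_vol y (x i) ρ h hh)
      (kin_nonneg' D hD sp i (Ψ τ) x)
    refine h1.trans (le_of_eq ?_)
    rw [hv]
    split_ifs <;> simp
  have e5 : kb D sp y (ρ + 2 * h) Ψ =
      ∑ i, ∑ τ, ∫ x, if ‖x i - y‖ < ρ + 2 * h then kin D sp i (Ψ τ) x else 0 := by
    unfold kb
    rw [Finset.sum_comm]
    refine Finset.sum_congr rfl fun τ _ => ?_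
    rw [integral_finsetSum _ fun i _ => hkint i τ]
  have e6 : ∑ i, ∑ τ, ∫ x, (∫ w in Metric.ball y ρ,
        (Qc (pauQ w h) (2 * h)).indicator (fun _ => (1 : ℝ)) (x i)) * kin D sp i (Ψ τ) x ≤
      v * (2 * h) ^ 3 * kb D sp y (ρ + 2 * h) Ψ := by
    rw [e5, Finset.mul_sum]
    refine Finset.sum_le_sum fun i _ => ?_
    rw [Finset.mul_sum]
    exact Finset.sum_le_sum fun τ _ => e4 i τ
  have hkb0 : 0 ≤ kb D sp y (ρ + 2 * h) Ψ := by
    rw [e5]
    refine Finset.sum_nonneg fun i _ => Finset.sum_nonneg fun τ _ => integral_nonneg fun x => ?_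
    simp only [Pi.zero_apply]
    split_ifs
    · exact kin_nonneg' D hD sp i _ x
    · exact le_rfl
  rw [e1]
  refine e2.trans ?_
  rw [e3]
  have e7 : C1 * h ^ 2 * (∑ i, ∑ τ, ∫ x, (∫ w in Metric.ball y ρ,
        (Qc (pauQ w h) (2 * h)).indicator (fun _ => (1 : ℝ)) (x i)) * kin D sp i (Ψ τ) x) ≤
      C1 * h ^ 2 * (v * (2 * h) ^ 3 * kb D sp y (ρ + 2 * h) Ψ) :=
    mul_le_mul_of_nonneg_left e6 (by positivity)
  refine e7.trans ?_
  have e8 : 0 ≤ h ^ 5 * kb D sp y (ρ + 2 * h) Ψ := mul_nonneg (by positivity) hkb0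
  nlinarith

end Pool.Agent.Helper780_CP.RPAU
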