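import Pool.Agent.Helper780_CP.LLDefs2
import Pool.Agent.Helper780_CP.LLDefs3
import Pool.Agent.Helper780_CP.Stable

set_option autoImplicit false

open MeasureTheory
open scoped Topology

namespace Pool.Agent.Helper780_CP.RWT

open Pool.Agent.Helper780_CP
open Pool.Agent.Helper985.CP

open Pool.Agent.Helper780_CP Pool.Agent.Helper985.CP

theorem cy_meas (y : E3) (r : ℝ) : Measurable (cy y r) := by
  have h : Continuous (cy y r) := by
    unfold cy ct
    exact Real.smoothTransition.continuous.comp (by fun_prop)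
  exact h.measurable

theorem cy_nonneg (y : E3) (r : ℝ) (v : E3) : 0 ≤ cy y r v := Real.smoothTransition.nonneg _

theorem cy_le_one (y : E3) (r : ℝ) (v : E3) : cy y r v ≤ 1 := Real.smoothTransition.le_one _

section aux

variable {S : Type} (D : Species S) {I : Type} [Fintype I] [DecidableEq I] (sp : I → S)

theorem WI_bdd (ℓ : ℝ) {f V : (I → E3) → ℝ} (hf : Measurable f) (B : ℝ) (hB : ∀ x, |f x| ≤ B)
    (hV : WI D sp ℓ V) : WI D sp ℓ (fun x => f x * V x) := by
  intro Ψ hΨ τ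
  have h := (hV Ψ hΨ τ).bdd_mul hf.aestronglyMeasurable
    (Filter.Eventually.of_forall fun x => (by rw [Real.norm_eq_abs]; exact hB x : ‖f x‖ ≤ B))
  refine h.congr (Filter.Eventually.of_forall fun x => ?_)
  simp only
  ring

theorem WI_pr (hD : D.Valid) (ℓ : ℝ) (i j : I) (hij : i ≠ j) :
    WI D sp ℓ (fun x => ‖x i - x j‖⁻¹) := by
  intro Ψ hΨ τ
  have h3 := ((int_state D sp ℓ Ψ hΨ τ).2.2.2.1 i j hij).const_mul
    ((D.charge (sp i) * D.charge (sp j))⁻¹)
  refine h3.congr (Filter.Eventually.of_forall fun x => ?_)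
  have h4 := hD.charge_ne (sp i)
  have h5 := hD.charge_ne (sp j)
  show (D.charge (sp i) * D.charge (sp j))⁻¹ * (D.charge (sp i) * D.charge (sp j) /
    ‖x i - x j‖ * ‖Ψ τ x‖ ^ 2) = _
  field_simp

omit [Fintype I] [DecidableEq I] in
theorem pv_pinv (i : I) (x : I → E3) :
    pv (fun i => D.charge (sp i)) x i = pinv D sp i x := rfl

theorem WI_pinv (hD : D.Valid) (ℓ : ℝ) (i : I) : WI D sp ℓ (fun x => pinv D sp i x) :=
  fun Ψ hΨ τ => pinv_intg D hD sp ℓ Ψ hΨ i τ

/-- one pair with cutoff -/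
theorem WI_vl1 (hD : D.Valid) (ℓ : ℝ) (y : E3) (r : ℝ) (i j : I) :
    WI D sp ℓ (fun x => if i = j then 0 else
      (D.charge (sp i) * cy y r (x i)) * (D.charge (sp j) * cy y r (x j)) / ‖x i - x j‖) := by
  by_cases hij : i = j
  · simp only [if_pos hij]
    exact WI_zero D sp ℓ
  · simp only [if_neg hij]
    have hm : Measurable (fun x : I → E3 => (D.charge (sp i) * cy y r (x i)) *
        (D.charge (sp j) * cy y r (x j))) :=
      (((cy_meas y r).comp (measurable_pi_apply i)).const_mul _).mul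
        (((cy_meas y r).comp (measurable_pi_apply j)).const_mul _)
    have h := WI_bdd D sp ℓ hm (|D.charge (sp i)| * |D.charge (sp j)|) (by
      intro x
      rw [abs_mul, abs_mul, abs_mul, abs_of_nonneg (cy_nonneg y r (x i)),
        abs_of_nonneg (cy_nonneg y r (x j))]
      have a1 := cy_le_one y r (x i)
      have a2 := cy_le_one y r (x j)
      have b1 := cy_nonneg y r (x i)
      have b2 := cy_nonneg y r (x j)
      have c1 := abs_nonneg (D.charge (sp i))
      have c2 := abs_nonneg (D.charge (sp j))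
      calc |D.charge (sp i)| * cy y r (x i) * (|D.charge (sp j)| * cy y r (x j))
          ≤ |D.charge (sp i)| * 1 * (|D.charge (sp j)| * 1) := by gcongr
        _ = _ := by ring) (WI_pr D sp hD ℓ i j hij)
    intro Ψ hΨ τ
    refine (h Ψ hΨ τ).congr (Filter.Eventually.of_forall fun x => ?_)
    simp only [div_eq_mul_inv]

theorem WI_vl (hD : D.Valid) (ℓ : ℝ) (y : E3) (r : ℝ) :
    WI D sp ℓ (vl (cy y r) (fun i => D.charge (sp i))) := by
  have h := WI_sum D sp ℓ Finset.univ (fun i x => ∑ j, if i = j then 0 else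
      (D.charge (sp i) * cy y r (x i)) * (D.charge (sp j) * cy y r (x j)) / ‖x i - x j‖)
    (fun i _ => WI_sum D sp ℓ Finset.univ _ fun j _ => WI_vl1 D sp hD ℓ y r i j)
  exact h

theorem WI_pl (hD : D.Valid) (ℓ : ℝ) (y : E3) (r : ℝ) :
    WI D sp ℓ (pl (cy y r) (fun i => D.charge (sp i))) := by
  have h := WI_sum D sp ℓ Finset.univ (fun i x => if D.charge (sp i) < 0 then
      cy y r (x i) * pinv D sp i x else 0) (fun i _ => by
    by_cases hi : D.charge (sp i) < 0
    · simp only [if_pos hi]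
      refine WI_bdd D sp ℓ ((cy_meas y r).comp (measurable_pi_apply i)) 1 (fun x => ?_)
        (WI_pinv D sp hD ℓ i)
      show |cy y r (x i)| ≤ 1
      rw [abs_of_nonneg (cy_nonneg _ _ _)]
      exact cy_le_one _ _ _
    · simp only [if_neg hi]
      exact WI_zero D sp ℓ)
  exact h

theorem WI_mx (hD : D.Valid) (ℓ : ℝ) (y : E3) (r K₁ : ℝ) : WI D sp ℓ (mx D sp K₁ y r) :=
  WI_add D sp ℓ (WI_vl D sp hD ℓ y r) (WI_smul D sp ℓ (WI_pl D sp hD ℓ y r) K₁)

/-- the dominating weight -/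
noncomputable def dom (K₁ : ℝ) (x : I → E3) : ℝ :=
  (∑ i, ∑ j, if i = j then 0 else (|D.charge (sp i)| * |D.charge (sp j)|) * ‖x i - x j‖⁻¹) +
    K₁ * ∑ i, pinv D sp i x

theorem WI_dom (hD : D.Valid) (ℓ K₁ : ℝ) : WI D sp ℓ (dom D sp K₁) := by
  refine WI_add D sp ℓ (WI_sum D sp ℓ Finset.univ _ fun i _ => WI_sum D sp ℓ Finset.univ _
    fun j _ => ?_) (WI_smul D sp ℓ (WI_sum D sp ℓ Finset.univ _ fun i _ =>
    WI_pinv D sp hD ℓ i) K₁)
  by_cases hij : i = j
  · simp only [if_pos hij]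
    exact WI_zero D sp ℓ
  · simp only [if_neg hij]
    exact WI_smul D sp ℓ (WI_pr D sp hD ℓ i j hij) _

theorem mx_le_dom (y : E3) (r K₁ : ℝ) (hK : 0 ≤ K₁) (x : I → E3) :
    mx D sp K₁ y r x ≤ dom D sp K₁ x := by
  unfold mx dom
  refine add_le_add ?_ (mul_le_mul_of_nonneg_left ?_ hK)
  · unfold vl
    refine Finset.sum_le_sum fun i _ => Finset.sum_le_sum fun j _ => ?_
    split_ifs with hij
    · exact le_rfl
    · rw [div_eq_mul_inv]
      refine mul_le_mul_of_nonneg_right ?_ (by positivity)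
      refine (le_abs_self _).trans ?_
      rw [abs_mul, abs_mul, abs_mul, abs_of_nonneg (cy_nonneg y r (x i)),
        abs_of_nonneg (cy_nonneg y r (x j))]
      have a1 := cy_le_one y r (x i)
      have a2 := cy_le_one y r (x j)
      have b1 := cy_nonneg y r (x i)
      have b2 := cy_nonneg y r (x j)
      have c1 := abs_nonneg (D.charge (sp i))
      have c2 := abs_nonneg (D.charge (sp j))
      calc |D.charge (sp i)| * cy y r (x i) * (|D.charge (sp j)| * cy y r (x j))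
          ≤ |D.charge (sp i)| * 1 * (|D.charge (sp j)| * 1) := by gcongr
        _ = _ := by ring
  · unfold pl
    refine Finset.sum_le_sum fun i _ => ?_
    have h0 := pinv_nonneg D sp i x
    split_ifs with hi
    · rw [pv_pinv]
      calc cy y r (x i) * pinv D sp i x ≤ 1 * pinv D sp i x :=
            mul_le_mul_of_nonneg_right (cy_le_one _ _ _) h0
        _ = _ := one_mul _
    · exact h0

omit [Fintype I] in
theorem kin_nn (hD : D.Valid) (i : I) (u : (I → E3) → ℂ) (x : I → E3) :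
    0 ≤ kin D sp i u x := by
  unfold kin
  have := (hD.mass_pos (sp i)).le
  exact mul_nonneg (by positivity) (Finset.sum_nonneg fun _ _ => by positivity)

theorem klc_le (hD : D.Valid) (ℓ : ℝ) (Ψ : Wave D I) (hΨ : IsState D sp ℓ Ψ) (y : E3) (r : ℝ) :
    klc D sp y r Ψ ≤ ∑ τ, ∫ x, ∑ j, kin D sp j (Ψ τ) x := by
  unfold klc
  refine Finset.sum_le_sum fun τ _ => ?_
  refine integral_mono_of_nonneg (Filter.Eventually.of_forall fun x => ?_)
    (integrable_finsetSum _ fun j _ => (int_state D sp ℓ Ψ hΨ τ).2.1 j)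
    (Filter.Eventually.of_forall fun x => ?_)
  · exact Finset.sum_nonneg fun j _ => mul_nonneg (sq_nonneg _) (kin_nn D sp hD j _ x)
  · refine Finset.sum_le_sum fun j _ => ?_
    have h1 : cy y r (x j) ^ 2 ≤ 1 := by
      have a1 := cy_le_one y r (x j)
      have b1 := cy_nonneg y r (x j)
      nlinarith
    calc cy y r (x j) ^ 2 * kin D sp j (Ψ τ) x ≤ 1 * kin D sp j (Ψ τ) x :=
          mul_le_mul_of_nonneg_right h1 (kin_nn D sp hD j _ x)
      _ = _ := one_mul _

end aux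

theorem nb_meas {I : Type} [Fintype I] (y : E3) (R : ℝ) :
    Measurable (fun x : I → E3 => nb y R x) := by
  unfold nb
  refine Finset.measurable_sum _ fun i _ => ?_
  refine Measurable.ite ?_ measurable_const measurable_const
  exact measurableSet_le (((measurable_pi_apply i).sub measurable_const).norm) measurable_const

theorem nb_nn {I : Type} [Fintype I] (y : E3) (R : ℝ) (x : I → E3) : 0 ≤ nb y R x := by
  unfold nb
  exact Finset.sum_nonneg fun i _ => by split_ifs <;> norm_num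

theorem nb_le {I : Type} [Fintype I] (y : E3) (R : ℝ) (x : I → E3) :
    nb y R x ≤ Fintype.card I := by
  unfold nb
  calc ∑ i, (if ‖x i - y‖ ≤ R then (1 : ℝ) else 0) ≤ ∑ _i : I, (1 : ℝ) :=
        Finset.sum_le_sum fun i _ => by split_ifs <;> norm_num
    _ = Fintype.card I := by simp

/-- TARGET -/
theorem wt_facts {S : Type} [Fintype S] [DecidableEq S] (D : Species S) (hD : D.Valid) {I : Type}
    [Fintype I] [DecidableEq I] (sp : I → S) (ℓ : ℝ) :
    (∀ (f : (I → E3) → ℝ), Measurable f → ∀ B : ℝ, (∀ x, |f x| ≤ B) → WI D sp ℓ f) ∧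
    (∀ (y : E3) (R p : ℝ), 0 ≤ p → WI D sp ℓ (fun x => nb y R x ^ p)) ∧
    (∀ (y : E3) (r : ℝ), WI D sp ℓ (vl (cy y r) (fun i => D.charge (sp i)))) ∧
    (∀ (y : E3) (r : ℝ), WI D sp ℓ (pl (cy y r) (fun i => D.charge (sp i)))) ∧
    (∀ (y : E3) (r K₁ : ℝ), WI D sp ℓ (mx D sp K₁ y r)) ∧
    (∀ (y : E3) (r : ℝ), WI D sp ℓ (fun x => ∑ i, cy y r (x i) ^ 2 * ∑ j, if i = j then 0 else
      D.charge (sp i) * D.charge (sp j) / ‖x i - x j‖)) ∧
    (∀ (Ψ : Wave D I), IsState D sp ℓ Ψ → ∀ K₁ : ℝ, 0 ≤ K₁ → ∃ B : ℝ, ∀ (y : E3) (r : ℝ),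
      MM D sp K₁ y r Ψ ≤ B) := by
  have h1 : ∀ (f : (I → E3) → ℝ), Measurable f → ∀ B : ℝ, (∀ x, |f x| ≤ B) → WI D sp ℓ f := by
    intro f hf B hB
    have h := WI_bdd D sp ℓ hf B hB (WI_const D sp ℓ 1)
    simpa only [mul_one] using h
  refine ⟨h1, ?_, fun y r => WI_vl D sp hD ℓ y r, fun y r => WI_pl D sp hD ℓ y r,
    fun y r K₁ => WI_mx D sp hD ℓ y r K₁, ?_, ?_⟩
  · intro y R p hp
    refine h1 _ ((nb_meas y R).pow_const p) ((Fintype.card I : ℝ) ^ p) fun x => ?_
    rw [abs_of_nonneg (Real.rpow_nonneg (nb_nn y R x) p)]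
    exact Real.rpow_le_rpow (nb_nn y R x) (nb_le y R x) hp
  · intro y r
    refine WI_sum D sp ℓ Finset.univ _ fun i _ => ?_
    refine WI_bdd D sp ℓ (((cy_meas y r).comp (measurable_pi_apply i)).pow_const 2) 1
      (fun x => ?_) (WI_pair D sp ℓ i)
    show |cy y r (x i) ^ 2| ≤ 1
    have a1 := cy_le_one y r (x i)
    have b1 := cy_nonneg y r (x i)
    rw [abs_of_nonneg (sq_nonneg _)]
    nlinarith
  · intro Ψ hΨ K₁ hK
    refine ⟨(∑ τ, ∫ x, ∑ j, kin D sp j (Ψ τ) x) + wm D (dom D sp K₁) Ψ, fun y r => ?_⟩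
    unfold MM
    refine add_le_add (klc_le D sp hD ℓ Ψ hΨ y r) ?_
    exact wm_mono D sp ℓ (WI_mx D sp hD ℓ y r K₁) (WI_dom D sp hD ℓ K₁) Ψ hΨ
      (Filter.Eventually.of_forall fun x => mx_le_dom D sp y r K₁ hK x)

end Pool.Agent.Helper780_CP.RWT
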