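import Pool.Agent.Helper780_CP.BnDefs
import Pool.Agent.Helper780_CP.Fin1
import Pool.Agent.Helper780_CP.RNL

/-! The states considered satisfy `BS`. -/

set_option autoImplicit false

open MeasureTheory
open scoped Topology

namespace Pool.Agent.Helper780_CP

open Pool.Agent.Helper985.CP

/-- the interior law gives the field `int` of `BS` -/
theorem bs_int {S : Type} [Fintype S] [DecidableEq S] (D : Species S) (hD : D.Valid)
    (hf : ∀ s, D.charge s < 0 → D.fermion s = true) (z cm K₁ C₁ : ℝ) (hcm : 0 < cm)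
    (hz : ∀ s, cm ≤ |D.charge s| ∧ |D.charge s| ≤ z) (hK₁ : 0 < K₁) (hC₁ : 0 < C₁)
    (h : RB z K₁ C₁) (F : Finset E3) (hF : ∀ v : E3, ‖v‖ ≤ 12 → ∃ p ∈ F, ‖v - p‖ < 1 / 64)
    (hF2 : ∀ p ∈ F, ‖p‖ ≤ 12) (CL : ℝ) (hCL : 0 ≤ CL) (m : ℕ) : ∃ C : ℝ, 0 < C ∧
    ∀ {I : Type} [Fintype I] [DecidableEq I] (sp : I → S) (ℓ : ℝ) {k : ℕ} (p : Fin k → ℝ)
      (ψ : Fin k → Wave D I), (∀ j, IsState D sp ℓ (ψ j)) → (∀ j, nrm2 D (ψ j) = 1) →
      (∀ j, 0 ≤ p j) → ∑ j, p j = 1 →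
      (∀ (y : E3) (r : ℝ), 0 < r → r ≤ 1 → Metric.closedBall y (16 * r) ⊆ cube ℓ →
        ∑ j, p j * MM D sp K₁ y r (ψ j) ≤ CL / r ^ m) →
      ∀ y : E3, Metric.closedBall y 4 ⊆ cube ℓ →
        ∑ j, p j * kb D sp y 3 (ψ j) ≤ C ∧ wx D p ψ (fun x => nb y 3 x ^ ((5 : ℝ) / 3)) ≤ C := by
  obtain ⟨CN, hCN, HN⟩ := RNL.num_law D hD hf z cm K₁ C₁ hcm hz hK₁ hC₁ h F hF
  refine ⟨(1 + CN) * (1 + F.card * (CL / (1 / 16) ^ m)), by positivity, ?_⟩
  intro I _ _ sp ℓ k p ψ hst hn hp hp1 HL y hy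
  have hcov : ∀ q ∈ F, ∑ j, p j * MM D sp K₁ (y + (1 / 4 : ℝ) • q) (1 / 4 / 4) (ψ j) ≤
      CL / (1 / 16) ^ m := by
    intro q hq
    have h1 : Metric.closedBall (y + (1 / 4 : ℝ) • q) (16 * (1 / 4 / 4)) ⊆ cube ℓ := by
      refine Set.Subset.trans (Metric.closedBall_subset_closedBall' ?_) hy
      rw [dist_eq_norm, add_sub_cancel_left, norm_smul]
      have := hF2 q hq
      rw [Real.norm_of_nonneg (by norm_num)]
      linarith
    have h2 := HL (y + (1 / 4 : ℝ) • q) (1 / 4 / 4) (by norm_num) (by norm_num) h1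
    have e : (1 / 4 / 4 : ℝ) = 1 / 16 := by norm_num
    rw [e] at h2 ⊢
    exact h2
  have hsum : ∑ j, p j * ∑ q ∈ F, MM D sp K₁ (y + (1 / 4 : ℝ) • q) (1 / 4 / 4) (ψ j) ≤
      F.card * (CL / (1 / 16) ^ m) := by
    simp_rw [Finset.mul_sum]
    rw [Finset.sum_comm]
    refine (Finset.sum_le_sum hcov).trans ?_
    rw [Finset.sum_const, nsmul_eq_mul]
  have e3 : (12 * (1 / 4) : ℝ) = 3 := by norm_num
  have hX : 0 ≤ F.card * (CL / (1 / 16 : ℝ) ^ m) := by positivity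
  constructor
  · have h1 : ∑ j, p j * kb D sp y 3 (ψ j) ≤
        ∑ j, p j * ∑ q ∈ F, MM D sp K₁ (y + (1 / 4 : ℝ) • q) (1 / 4 / 4) (ψ j) := by
      refine Finset.sum_le_sum fun j _ => mul_le_mul_of_nonneg_left ?_ (hp j)
      have h2 := (HN sp ℓ (ψ j) (hst j) (hn j) y (1 / 4) (by norm_num) (by norm_num)).2.2.2.2.2
      rw [e3] at h2
      refine h2.trans (Finset.sum_le_sum fun q _ => ?_)
      have h3 := (HN sp ℓ (ψ j) (hst j) (hn j) (y + (1 / 4 : ℝ) • q) (1 / 4 / 4) (by norm_num)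
        (by norm_num)).2.1
      unfold MM
      linarith
    nlinarith
  · have h1 : wx D p ψ (fun x => nb y 3 x ^ ((5 : ℝ) / 3)) ≤
        ∑ j, p j * (CN * (1 + ∑ q ∈ F, MM D sp K₁ (y + (1 / 4 : ℝ) • q) (1 / 4 / 4) (ψ j))) := by
      unfold wx
      refine Finset.sum_le_sum fun j _ => mul_le_mul_of_nonneg_left ?_ (hp j)
      have h2 := (HN sp ℓ (ψ j) (hst j) (hn j) y (1 / 4) (by norm_num) (by norm_num)).2.2.2.2.1
      rw [e3] at h2
      exact h2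
    have h2 : ∑ j, p j * (CN * (1 + ∑ q ∈ F, MM D sp K₁ (y + (1 / 4 : ℝ) • q) (1 / 4 / 4) (ψ j)))
        = CN * (1 + ∑ j, p j * ∑ q ∈ F, MM D sp K₁ (y + (1 / 4 : ℝ) • q) (1 / 4 / 4) (ψ j)) := by
      have h3 : ∀ G : Fin k → ℝ, ∑ j, p j * (CN * (1 + G j)) = CN * (1 + ∑ j, p j * G j) := by
        intro G
        have h4 : ∑ j, p j * (CN * (1 + G j)) = CN * (∑ j, p j) + CN * ∑ j, p j * G j := by
          rw [Finset.mul_sum, Finset.mul_sum, ← Finset.sum_add_distrib]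
          refine Finset.sum_congr rfl fun j _ => ?_
          ring
        rw [h4, hp1]
        ring
      exact h3 _
    rw [h2] at h1
    nlinarith

theorem wx_one {S : Type} (D : Species S) {I : Type} [Fintype I] [DecidableEq I] (Ψ : Wave D I)
    (W : (I → E3) → ℝ) : wx D (fun _ : Fin 1 => (1 : ℝ)) (fun _ => Ψ) W = wm D W Ψ := by
  unfold wx
  simp

theorem nb_pow {I : Type} [Fintype I] (y : E3) (R : ℝ) (x : I → E3) :
    nb y R x ≤ nb y R x ^ ((4 : ℝ) / 3) := by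
  have h : nb y R x = ((Finset.univ.filter (fun i => ‖x i - y‖ ≤ R)).card : ℝ) := by
    unfold nb
    rw [Finset.card_filter]
    push_cast
    rfl
  rw [h]
  rcases Nat.eq_zero_or_pos (Finset.univ.filter (fun i => ‖x i - y‖ ≤ R)).card with h0 | h0
  · rw [h0]; norm_num
  · have h1 : (1 : ℝ) ≤ ((Finset.univ.filter (fun i => ‖x i - y‖ ≤ R)).card : ℝ) := by
      exact_mod_cast h0
    calc ((Finset.univ.filter (fun i => ‖x i - y‖ ≤ R)).card : ℝ) =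
        ((Finset.univ.filter (fun i => ‖x i - y‖ ≤ R)).card : ℝ) ^ (1 : ℝ) := by rw [Real.rpow_one]
      _ ≤ _ := Real.rpow_le_rpow_of_exponent_le h1 (by norm_num)

/-- comparison of moments of the number -/
theorem wm_nb_pow {S : Type} (D : Species S) {I : Type} [Fintype I] [DecidableEq I] (sp : I → S)
    (ℓ : ℝ) (Ψ : Wave D I) (hΨ : IsState D sp ℓ Ψ) (y : E3) :
    wm D (nb y 2) Ψ ≤ wm D (fun x => nb y 2 x ^ ((4 : ℝ) / 3)) Ψ := by
  refine RQ10.wm_mono (fun x => RQ10.nb_nonneg y 2 x) (fun x => nb_pow y 2 x) ?_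
  exact RH7.loc_energyT_WI_nb43 D sp ℓ y 2 Ψ hΨ

/-- a lower bound of the charges -/
theorem exists_cm {S : Type} [Fintype S] (D : Species S) (hD : D.Valid) :
    ∃ cm : ℝ, 0 < cm ∧ ∀ s, cm ≤ |D.charge s| := by
  refine ⟨(1 + ∑ s, |D.charge s|⁻¹)⁻¹, ?_, fun s => ?_⟩
  · have : 0 ≤ ∑ s, |D.charge s|⁻¹ := Finset.sum_nonneg fun s _ => by positivity
    positivity
  · have h1 : |D.charge s|⁻¹ ≤ ∑ s, |D.charge s|⁻¹ :=
      Finset.single_le_sum (f := fun s => |D.charge s|⁻¹) (fun t _ => by positivity)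
        (Finset.mem_univ s)
    have h2 : 0 < |D.charge s| := abs_pos.2 (hD.charge_ne s)
    have h3 : (0 : ℝ) < 1 + ∑ s, |D.charge s|⁻¹ := by
      have : 0 ≤ ∑ s, |D.charge s|⁻¹ := Finset.sum_nonneg fun s _ => by positivity
      linarith
    rw [inv_le_comm₀ h3 h2]
    linarith

/-- the setting near the walls at zero temperature -/
theorem bs0 {S : Type} [Fintype S] [DecidableEq S] (D : Species S) (hD : D.Valid)
    (hf : ∀ s, D.charge s < 0 → D.fermion s = true) (ρ : ℝ) (hρ : 0 ≤ ρ) : ∃ C : ℝ, 0 < C ∧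
    ∀ {I : Type} [Fintype I] [DecidableEq I] (sp : I → S) (ℓ : ℝ), 1000 ≤ ℓ →
      (Fintype.card I : ℝ) ≤ ρ * ℓ ^ 3 → (∑ i, D.charge (sp i) = 0) → ∀ η : ℝ, 0 ≤ η →
      η * (1 + (Fintype.card I : ℝ)) ^ 3 ≤ 1 →
      ∀ Ψ : Wave D I, IsState D sp ℓ Ψ → nrm2 D Ψ = 1 →
      energy D sp Ψ ≤ sInf (energies D sp ℓ) + η →
      BS D sp ℓ C η (fun _ : Fin 1 => 1) (fun _ => Ψ) := by
  have hst := hstable D hD hf
  obtain ⟨cm, hcm0, hcm⟩ := exists_cm D hD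
  obtain ⟨z, hz0, hz⟩ : ∃ z : ℝ, 0 ≤ z ∧ ∀ s, |D.charge s| ≤ z := by
    refine ⟨∑ s, |D.charge s|, Finset.sum_nonneg fun s _ => abs_nonneg _, fun s => ?_⟩
    exact Finset.single_le_sum (f := fun s => |D.charge s|) (fun t _ => abs_nonneg _)
      (Finset.mem_univ s)
  obtain ⟨K₁, C₁, hK₁, hC₁, hRB⟩ := RC2.ren_ball z hz0
  have hRB' : RB z K₁ C₁ := fun c x χ h1 h2 h3 => hRB c x χ h1 h2 h3
  obtain ⟨F, hF2, hF⟩ := cover12
  obtain ⟨a, b, l, hK⟩ := RK0.ker_exists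
  obtain ⟨CL, m, hCL, HL⟩ := RLAW.law D hD hst hf z cm K₁ C₁ hcm0
    (fun s => ⟨hcm s, hz s⟩) hK₁ hC₁ hRB' F hF hF2 ρ hρ a b l hK
  obtain ⟨CI, hCI, HI⟩ := bs_int D hD hf z cm K₁ C₁ hcm0
    (fun s => ⟨hcm s, hz s⟩) hK₁ hC₁ hRB' F hF hF2 CL hCL.le m
  obtain ⟨CE, hCE, HE⟩ := RL2c.loc_energy D hD hst ρ hρ
  obtain ⟨CF, hCF, HF⟩ := RL1.FL_near_min D hD hst ρ hρ
  refine ⟨ρ + CI + CE + CF, by positivity, ?_⟩
  intro I _ _ sp ℓ hℓ hcard hneu η hη hη1 Ψ hΨ hn hE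
  have h4 : 4 ≤ ℓ := by linarith
  have hN0 : (0 : ℝ) ≤ Fintype.card I := Nat.cast_nonneg _
  have hη2 : η * (1 + (Fintype.card I : ℝ)) ^ 2 ≤ 1 := by
    refine le_trans (mul_le_mul_of_nonneg_left ?_ hη) hη1
    exact pow_le_pow_right₀ (by linarith) (by norm_num)
  have hη3 : (1 + (Fintype.card I : ℝ)) * η ≤ 1 := by
    rw [mul_comm]
    refine le_trans (mul_le_mul_of_nonneg_left ?_ hη) hη1
    calc (1 + (Fintype.card I : ℝ)) = (1 + (Fintype.card I : ℝ)) ^ 1 := (pow_one _).symm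
      _ ≤ _ := pow_le_pow_right₀ (by linarith) (by norm_num)
  refine ⟨fun _ => hΨ, fun _ => hn, fun _ => zero_le_one, by simp, hneu, ?_, hℓ, hη, hη1, ?_, ?_, ?_⟩
  · have : 0 ≤ (CI + CE + CF) * ℓ ^ 3 := by positivity
    linarith
  · intro y
    have h1 := HE sp ℓ h4 hcard η hη Ψ hΨ hn hE y 1 one_pos le_rfl
    have h2 : 0 ≤ klc D sp y 1 Ψ := by
      obtain ⟨CN, hCN, HN⟩ := RNL.num_law D hD hf z cm K₁ C₁ hcm0
        (fun s => ⟨hcm s, hz s⟩) hK₁ hC₁ hRB' F hF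
      exact (HN sp ℓ Ψ hΨ hn y 1 one_pos le_rfl).1
    have h3 := wm_nb_pow D sp ℓ Ψ hΨ y
    have h5 : 0 ≤ wm D (fun x => nb y 2 x ^ ((4 : ℝ) / 3)) Ψ :=
      RQ10.wm_nonneg fun x => Real.rpow_nonneg (RQ10.nb_nonneg y 2 x) _
    rw [wx_one, wx_one]
    rw [Fin.sum_univ_one, one_mul]
    have h6 : wm D (fun x => (∑ i, cy y 1 (x i) ^ 2 * ∑ j, if i = j then 0 else
              D.charge (sp i) * D.charge (sp j) / ‖x i - x j‖) -
            phb D sp ℓ x * ∑ i, D.charge (sp i) * cy y 1 (x i) ^ 2) Ψ =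
        wm D (tq D sp ℓ (fun v => cy y 1 v ^ 2)) Ψ := rfl
    rw [h6, mul_one] at h1
    have h7 : CE / 1 ^ 2 * wm D (nb y 2) Ψ ≤ CE * wm D (fun x => nb y 2 x ^ ((4 : ℝ) / 3)) Ψ := by
      rw [one_pow, div_one]
      exact mul_le_mul_of_nonneg_left h3 hCE.le
    have h8 : CE * (1 + (Fintype.card I : ℝ)) * η ≤ CE := by
      calc CE * (1 + (Fintype.card I : ℝ)) * η = CE * ((1 + (Fintype.card I : ℝ)) * η) := by ring
        _ ≤ CE * 1 := mul_le_mul_of_nonneg_left hη3 hCE.le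
        _ = CE := mul_one _
    have h9 : 0 ≤ (ρ + CI + CF) * (1 + wm D (fun x => nb y 2 x ^ ((4 : ℝ) / 3)) Ψ) := by
      positivity
    linarith
  · intro ω f B hω hfs hfy hfB
    have h1 := HF sp ℓ h4 hcard hneu η hη Ψ hΨ hn hE 1 ω f B one_pos le_rfl hω hfs hfy hfB
    rw [wx_one, wx_one, wx_one, wx_one]
    have h2 : 0 ≤ wm D (fun x => f x ^ 2 * (1 + near2 ω x)) Ψ :=
      RQ10.wm_nonneg fun x => mul_nonneg (sq_nonneg _)
        (add_nonneg zero_le_one (Real.iSup_nonneg fun i => by positivity))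
    have h3 : 0 ≤ wm D (gr f) Ψ := RQ10.wm_nonneg fun x => by
      unfold gr
      positivity
    have h4 : 0 ≤ wm D (fun x => f x ^ 2 * (f x ^ 2) ^ ((1 : ℝ) / 4)) Ψ :=
      RQ10.wm_nonneg fun x => by positivity
    have h5 : 0 ≤ B ^ 2 * η := by positivity
    rw [one_pow, div_one] at h1
    refine h1.trans ?_
    have h6 : CF * (wm D (fun x => f x ^ 2 * (1 + near2 ω x)) Ψ + wm D (gr f) Ψ + B ^ 2 * η) ≤
        CF * (wm D (fun x => f x ^ 2 * (1 + near2 ω x)) Ψ + wm D (gr f) Ψ +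
          wm D (fun x => f x ^ 2 * (f x ^ 2) ^ ((1 : ℝ) / 4)) Ψ + 1 + B ^ 2 * η) :=
      mul_le_mul_of_nonneg_left (by linarith) hCF.le
    refine h6.trans (mul_le_mul_of_nonneg_right (by linarith) (by linarith))
  · intro y hy
    have h1 := HI sp ℓ (fun _ : Fin 1 => (1 : ℝ)) (fun _ => Ψ) (fun _ => hΨ) (fun _ => hn)
      (fun _ => zero_le_one) (by simp) (fun y r hr hr1 hy => by
        have := (HL sp ℓ h4 hcard hneu η hη hη2 Ψ hΨ hn hE y r hr hr1 hy).2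
        simpa using this) y hy
    exact ⟨h1.1.trans (by linarith), h1.2.trans (by linarith)⟩

/-- the setting near the walls at positive temperature -/
theorem bsT {S : Type} [Fintype S] [DecidableEq S] (D : Species S) (hD : D.Valid)
    (hf : ∀ s, D.charge s < 0 → D.fermion s = true)
    (T V ρ : ℝ) (hT : 0 < T) (hV : 0 < V) (hρ : 0 < ρ) : ∃ C : ℝ, 0 < C ∧
    ∀ {I : Type} [Fintype I] [DecidableEq I] (sp : I → S) (ℓ : ℝ), 1000 ≤ ℓ →
      ℓ ^ 3 ≤ V * (Fintype.card I : ℝ) → (Fintype.card I : ℝ) ≤ ρ * ℓ ^ 3 →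
      (∑ i, D.charge (sp i) = 0) → ∀ η Z : ℝ, 0 ≤ η →
      η * (1 + (Fintype.card I : ℝ)) ^ 3 ≤ 1 → ∀ {k : ℕ} (p : Fin k → ℝ)
      (ψ : Fin k → Wave D I), NE D sp ℓ T η Z p ψ → BS D sp ℓ C η p ψ := by
  have hst := hstable D hD hf
  obtain ⟨cm, hcm0, hcm⟩ := exists_cm D hD
  obtain ⟨z, hz0, hz⟩ : ∃ z : ℝ, 0 ≤ z ∧ ∀ s, |D.charge s| ≤ z := by
    refine ⟨∑ s, |D.charge s|, Finset.sum_nonneg fun s _ => abs_nonneg _, fun s => ?_⟩
    exact Finset.single_le_sum (f := fun s => |D.charge s|) (fun t _ => abs_nonneg _)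
      (Finset.mem_univ s)
  obtain ⟨K₁, C₁, hK₁, hC₁, hRB⟩ := RC2.ren_ball z hz0
  have hRB' : RB z K₁ C₁ := fun c x χ h1 h2 h3 => hRB c x χ h1 h2 h3
  obtain ⟨F, hF2, hF⟩ := cover12
  obtain ⟨a, b, l, hK⟩ := RK0.ker_exists
  obtain ⟨CL, m, hCL, HL⟩ := RH10.lawT D hD hst hf z cm K₁ C₁ hcm0
    (fun s => ⟨hcm s, hz s⟩) hK₁ hC₁ hRB' F hF hF2 T V ρ hT hV hρ a b l hK
  obtain ⟨CI, hCI, HI⟩ := bs_int D hD hf z cm K₁ C₁ hcm0
    (fun s => ⟨hcm s, hz s⟩) hK₁ hC₁ hRB' F hF hF2 CL hCL.le m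
  obtain ⟨CE, hCE, HE⟩ := RH7.loc_energyT D hD hst T ρ hT hρ.le
  obtain ⟨CF, hCF, HF⟩ := RH8.flt_mix D hD hst T V ρ hT hV hρ
  refine ⟨ρ + CI + 2 * CE + CF, by positivity, ?_⟩
  intro I _ _ sp ℓ hℓ hV1 hcard hneu η Z hη hη1 k p ψ hN
  have h4 : 4 ≤ ℓ := by linarith
  have hN0 : (0 : ℝ) ≤ Fintype.card I := Nat.cast_nonneg _
  have hη2 : η * (1 + (Fintype.card I : ℝ)) ^ 2 ≤ 1 := by
    refine le_trans (mul_le_mul_of_nonneg_left ?_ hη) hη1
    exact pow_le_pow_right₀ (by linarith) (by norm_num)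
  have hη3 : (1 + (Fintype.card I : ℝ)) * η ≤ 1 := by
    rw [mul_comm]
    refine le_trans (mul_le_mul_of_nonneg_left ?_ hη) hη1
    calc (1 + (Fintype.card I : ℝ)) = (1 + (Fintype.card I : ℝ)) ^ 1 := (pow_one _).symm
      _ ≤ _ := pow_le_pow_right₀ (by linarith) (by norm_num)
  have hη4 : η ≤ 1 := by nlinarith
  have hwx : ∀ W : (I → E3) → ℝ, (∀ x, 0 ≤ W x) → 0 ≤ wx D p ψ W := fun W hW =>
    Finset.sum_nonneg fun j _ => mul_nonneg (hN.p0 j) (RQ10.wm_nonneg hW)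
  refine ⟨hN.state, hN.nrm, hN.p0, hN.p1, hneu, ?_, hℓ, hη, hη1, ?_, ?_, ?_⟩
  · have : 0 ≤ (CI + 2 * CE + CF) * ℓ ^ 3 := by positivity
    linarith
  · intro y
    have h1 := HE sp ℓ h4 hcard η Z hη p ψ hN y 1 one_pos le_rfl
    have h5 : 0 ≤ wx D p ψ (fun x => nb y 2 x ^ ((4 : ℝ) / 3)) :=
      hwx _ fun x => Real.rpow_nonneg (RQ10.nb_nonneg y 2 x) _
    have h6 : wx D p ψ (fun x => (∑ i, cy y 1 (x i) ^ 2 * ∑ j, if i = j then 0 else
              D.charge (sp i) * D.charge (sp j) / ‖x i - x j‖) -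
            phb D sp ℓ x * ∑ i, D.charge (sp i) * cy y 1 (x i) ^ 2) =
        wx D p ψ (tq D sp ℓ (fun v => cy y 1 v ^ 2)) := rfl
    rw [h6, mul_one, one_pow, div_one] at h1
    have h8 : CE * (1 + (Fintype.card I : ℝ)) * η ≤ CE := by
      calc CE * (1 + (Fintype.card I : ℝ)) * η = CE * ((1 + (Fintype.card I : ℝ)) * η) := by ring
        _ ≤ CE * 1 := mul_le_mul_of_nonneg_left hη3 hCE.le
        _ = CE := mul_one _
    have h9 : 0 ≤ (ρ + CI + CF) * (1 + wx D p ψ (fun x => nb y 2 x ^ ((4 : ℝ) / 3))) := by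
      positivity
    have h10 : 0 ≤ CE * wx D p ψ (fun x => nb y 2 x ^ ((4 : ℝ) / 3)) := by positivity
    linarith
  · intro ω f B hω hfs hfy hfB
    obtain ⟨D', Φ, -, -, -, hW, -, hphi, hFLT⟩ := HF sp ℓ h4 hV1 hcard hneu η Z hη hη4 p ψ hN
    have h1 := hFLT 1 ω f B 1 one_pos le_rfl one_pos hω hfs hfy hfB
    rw [one_pow, div_one] at h1
    have e1 : (fun x => f x ^ 2 * (phi D' sp ω x - phb D sp ℓ x)) =
        fun x => f x ^ 2 * (phi D sp ω x - phb D sp ℓ x) := by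
      funext x
      rw [hphi]
    rw [e1] at h1
    simp only [hW, div_one] at h1
    have h2 : 0 ≤ wx D p ψ (fun x => f x ^ 2 * (1 + near2 ω x)) :=
      hwx _ fun x => mul_nonneg (sq_nonneg _)
        (add_nonneg zero_le_one (Real.iSup_nonneg fun i => by positivity))
    have h3 : 0 ≤ wx D p ψ (gr f) := hwx _ fun x => by
      unfold gr
      positivity
    have h4 : 0 ≤ wx D p ψ (fun x => f x ^ 2 * (f x ^ 2) ^ ((1 : ℝ) / 4)) :=
      hwx _ fun x => by positivity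
    have h5 : 0 ≤ B ^ 2 * η := by positivity
    refine h1.trans (mul_le_mul_of_nonneg_right (by linarith) (by linarith))
  · intro y hy
    have h1 := HI sp ℓ p ψ hN.state hN.nrm hN.p0 hN.p1 (fun y r hr hr1 hy =>
        (HL sp ℓ h4 hV1 hcard hneu η Z hη hη2 p ψ hN y r hr hr1 hy).2) y hy
    exact ⟨h1.1.trans (by linarith), h1.2.trans (by linarith)⟩

end Pool.Agent.Helper780_CP
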