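import Pool.Agent.Helper780_CP.Fdl
import Pool.Agent.Helper780_CP.Ball

set_option autoImplicit false

open MeasureTheory Set
open scoped Topology

namespace Pool.Agent.Helper780_CP

open Pool.Agent.Helper985.CP

/-- inverse distance of particle `i` to the nearest particle of positive charge -/
noncomputable def pinv {S : Type} (D : Species S) {I : Type} (sp : I → S) (i : I)
    (x : I → E3) : ℝ := ⨆ j, (if 0 < D.charge (sp j) then ‖x i - x j‖⁻¹ else 0)

theorem pinv_nonneg {S : Type} (D : Species S) {I : Type} (sp : I → S) (i : I) (x : I → E3) :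
    0 ≤ pinv D sp i x := by
  unfold pinv
  refine Real.iSup_nonneg fun j => ?_
  split_ifs
  · positivity
  · exact le_rfl

theorem le_pinv {S : Type} (D : Species S) {I : Type} [Finite I] (sp : I → S) (i j : I)
    (x : I → E3) (h : 0 < D.charge (sp j)) : ‖x i - x j‖⁻¹ ≤ pinv D sp i x := by
  have h1 := le_ciSup (f := fun j => (if 0 < D.charge (sp j) then ‖x i - x j‖⁻¹ else 0))
    (Set.finite_range _).bddAbove j
  simp only [if_pos h] at h1
  exact h1

/-- the radial integral of the ball inequality -/
theorem shell_int {S : Type} (D : Species S) {I : Type} [Fintype I] [DecidableEq I] (sp : I → S)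
    (i : I) (x : I → E3) (hx : ∀ j, 0 < D.charge (sp j) → x i ≠ x j) :
    IntegrableOn (fun r : ℝ => if (∃ j, 0 < D.charge (sp j) ∧ ‖x i - x j‖ < 2 * r) then
      (r ^ 2)⁻¹ else 0) (Ioi 0) ∧
    ∫ r in Ioi (0 : ℝ), (if (∃ j, 0 < D.charge (sp j) ∧ ‖x i - x j‖ < 2 * r) then
      (r ^ 2)⁻¹ else 0) ≤ 2 * pinv D sp i x := by
  classical
  by_cases hp : ∃ j, 0 < D.charge (sp j)
  · obtain ⟨j0, hj0⟩ := hp
    have hne : (Finset.univ.filter (fun j => 0 < D.charge (sp j))).Nonempty :=
      ⟨j0, by simp [hj0]⟩
    obtain ⟨m, hm, hmin⟩ := Finset.exists_min_image _ (fun j => ‖x i - x j‖) hne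
    rw [Finset.mem_filter] at hm
    have hd : 0 < ‖x i - x m‖ := norm_pos_iff.2 (sub_ne_zero.2 (hx m hm.2))
    have hd2 : 0 < ‖x i - x m‖ / 2 := by linarith
    have e : ∀ r : ℝ, (if (∃ j, 0 < D.charge (sp j) ∧ ‖x i - x j‖ < 2 * r) then
        (r ^ 2)⁻¹ else 0) = (Ioi (‖x i - x m‖ / 2)).indicator (fun r : ℝ => (r ^ 2)⁻¹) r := by
      intro r
      by_cases hr : ‖x i - x m‖ / 2 < r
      · rw [indicator_of_mem (show r ∈ Ioi (‖x i - x m‖ / 2) from hr), if_pos]
        exact ⟨m, hm.2, by linarith⟩
      · rw [indicator_of_notMem (show r ∉ Ioi (‖x i - x m‖ / 2) from hr), if_neg]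
        rintro ⟨j, hj, hlt⟩
        have := hmin j (by simp [hj])
        linarith
    simp only [e]
    obtain ⟨s1, s2⟩ := sq_int _ hd2
    have hint : Integrable ((Ioi (‖x i - x m‖ / 2)).indicator (fun r : ℝ => (r ^ 2)⁻¹)) :=
      (integrable_indicator_iff measurableSet_Ioi).2 s1
    refine ⟨hint.integrableOn, ?_⟩
    rw [setIntegral_indicator measurableSet_Ioi]
    have hI : Ioi (0 : ℝ) ∩ Ioi (‖x i - x m‖ / 2) = Ioi (‖x i - x m‖ / 2) := by
      rw [inter_eq_right]
      exact Ioi_subset_Ioi hd2.le
    rw [hI, s2]
    have := le_pinv D sp i m x hm.2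
    rw [inv_div, div_eq_mul_inv]
    linarith
  · have e : ∀ r : ℝ, (if (∃ j, 0 < D.charge (sp j) ∧ ‖x i - x j‖ < 2 * r) then
        (r ^ 2)⁻¹ else 0) = 0 := by
      intro r
      rw [if_neg]
      rintro ⟨j, hj, -⟩
      exact hp ⟨j, hj⟩
    simp only [e]
    refine ⟨integrableOn_zero, ?_⟩
    have := pinv_nonneg D sp i x
    simp
    exact this

/-- A lower bound of the Coulomb energy in the manner of Baxter. -/
theorem baxter {S : Type} [Fintype S] (D : Species S) :
    ∃ C : ℝ, 0 ≤ C ∧ ∀ {I : Type} [Fintype I] [DecidableEq I] (sp : I → S) (x : I → E3),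
      (∀ i j, i ≠ j → x i ≠ x j) →
      -C * ∑ i, (if D.charge (sp i) < 0 then pinv D sp i x else 0) ≤ coul D sp x := by
  classical
  obtain ⟨c, hc, hfdl⟩ := fdl
  obtain ⟨z, hz⟩ : ∃ z, z = ∑ s, |D.charge s| := ⟨_, rfl⟩
  have hz1 : ∀ s, |D.charge s| ≤ z := by
    intro s
    rw [hz]
    exact Finset.single_le_sum (f := fun s => |D.charge s|) (fun t _ => abs_nonneg _)
      (Finset.mem_univ s)
  have hz0 : 0 ≤ z := by rw [hz]; exact Finset.sum_nonneg fun t _ => abs_nonneg _
  refine ⟨3 * Real.pi * z ^ 2 / c, by positivity, ?_⟩
  intro I _ _ sp x hx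
  -- the inequality at one radius
  have hrad : ∀ r : ℝ, 0 < r → -(3 * Real.pi * z ^ 2) * ∑ i, (if D.charge (sp i) < 0 then
      (if (∃ j, 0 < D.charge (sp j) ∧ ‖x i - x j‖ < 2 * r) then (r ^ 2)⁻¹ else 0) else 0) ≤
      ∑ i, ∑ j, (if i = j then 0 else D.charge (sp i) * D.charge (sp j) *
        ((r ^ 5)⁻¹ * lens (x i) (x j) r)) := by
    intro r hr
    let b : I → E3 → ℝ := fun i => (Metric.ball (x i) r).indicator (fun _ => 1)
    have hb01 : ∀ i w, b i w = 0 ∨ b i w = 1 := by
      intro i w
      by_cases h : w ∈ Metric.ball (x i) r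
      · right; exact indicator_of_mem h _
      · left; exact indicator_of_notMem h _
    have hbm : ∀ i, MeasurableSet (Metric.ball (x i) r) := fun i => Metric.isOpen_ball.measurableSet
    have hbi : ∀ i, Integrable (b i) := by
      intro i
      refine (integrable_indicator_iff (hbm i)).2 ?_
      exact integrableOn_const (measure_ball_lt_top).ne
    have hbb : ∀ i j, ∀ w, b i w * b j w =
        (Metric.ball (x i) r ∩ Metric.ball (x j) r).indicator (fun _ => (1 : ℝ)) w := by
      intro i j w
      by_cases h1 : w ∈ Metric.ball (x i) r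
      · by_cases h2 : w ∈ Metric.ball (x j) r
        · rw [indicator_of_mem (show w ∈ _ ∩ _ from ⟨h1, h2⟩)]
          simp only [b, indicator_of_mem h1, indicator_of_mem h2, mul_one]
        · rw [indicator_of_notMem (fun h => h2 h.2)]
          simp only [b, indicator_of_notMem h2, mul_zero]
      · rw [indicator_of_notMem (fun h => h1 h.1)]
        simp only [b, indicator_of_notMem h1, zero_mul]
    have hbbi : ∀ i j, Integrable (fun w => b i w * b j w) := by
      intro i j
      simp only [hbb]
      refine (integrable_indicator_iff ((hbm i).inter (hbm j))).2 ?_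
      exact integrableOn_const (lens_fin _ _ _)
    have hbbint : ∀ i j, ∫ w, b i w * b j w = lens (x i) (x j) r := by
      intro i j
      simp only [hbb]
      rw [integral_indicator ((hbm i).inter (hbm j))]
      simp [lens]
    have hbint : ∀ i, ∫ w, b i w = 4 / 3 * Real.pi * r ^ 3 := by
      intro i
      rw [← vol_ball3 (x i) r hr.le]
      show ∫ w, (Metric.ball (x i) r).indicator (fun _ => (1 : ℝ)) w = _
      rw [integral_indicator (hbm i)]
      simp
    -- pointwise
    have hpt : ∀ w, -(9 / 4 * z ^ 2) * ∑ i, (if D.charge (sp i) < 0 then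
        (if (∃ j, 0 < D.charge (sp j) ∧ ‖x i - x j‖ < 2 * r) then b i w else 0) else 0) ≤
        ∑ i, ∑ j, (if i = j then 0 else D.charge (sp i) * D.charge (sp j) *
          (b i w * b j w)) := by
      intro w
      have h1 := ball_ineq (fun i => D.charge (sp i) * b i w) z (by
        intro i
        rw [abs_mul]
        have h2 : |b i w| ≤ 1 := by
          rcases hb01 i w with h | h <;> rw [h] <;> simp
        calc |D.charge (sp i)| * |b i w| ≤ z * 1 :=
              mul_le_mul (hz1 _) h2 (abs_nonneg _) hz0
          _ = z := mul_one z)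
      have e1 : (∑ i, D.charge (sp i) * b i w) ^ 2 - ∑ i, (D.charge (sp i) * b i w) ^ 2 =
          ∑ i, ∑ j, (if i = j then 0 else D.charge (sp i) * D.charge (sp j) *
          (b i w * b j w)) := by
        rw [sq, Finset.sum_mul_sum, ← Finset.sum_sub_distrib]
        refine Finset.sum_congr rfl fun i _ => ?_
        rw [← Finset.add_sum_erase _ _ (Finset.mem_univ i),
          ← Finset.add_sum_erase Finset.univ (fun j => (if i = j then 0 else
            D.charge (sp i) * D.charge (sp j) * (b i w * b j w))) (Finset.mem_univ i), if_pos rfl]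
        have e2 : ∑ j ∈ Finset.univ.erase i, (if i = j then 0 else
            D.charge (sp i) * D.charge (sp j) * (b i w * b j w)) =
            ∑ j ∈ Finset.univ.erase i, D.charge (sp i) * b i w * (D.charge (sp j) * b j w) := by
          refine Finset.sum_congr rfl fun j hj => ?_
          rw [if_neg (Finset.ne_of_mem_erase hj).symm]
          ring
        rw [e2]
        ring
      rw [e1] at h1
      refine le_trans ?_ h1
      have h3 : (if ∃ j, 0 < D.charge (sp j) * b j w then
          ∑ i, max (-(D.charge (sp i) * b i w)) 0 else 0) ≤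
          z * ∑ i, (if D.charge (sp i) < 0 then
          (if (∃ j, 0 < D.charge (sp j) ∧ ‖x i - x j‖ < 2 * r) then b i w else 0) else 0) := by
        have hnn : ∀ i, 0 ≤ (if D.charge (sp i) < 0 then
          (if (∃ j, 0 < D.charge (sp j) ∧ ‖x i - x j‖ < 2 * r) then b i w else 0) else 0) := by
          intro i
          have hb0 : 0 ≤ b i w := by rcases hb01 i w with h | h <;> rw [h] <;> norm_num
          split_ifs <;> first | exact hb0 | exact le_rfl
        split_ifs with hpos
        · obtain ⟨j, hj⟩ := hpos
          have hbj : b j w = 1 := by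
            rcases hb01 j w with h | h
            · rw [h, mul_zero] at hj
              exact absurd hj (lt_irrefl _)
            · exact h
          rw [hbj, mul_one] at hj
          have hjw : w ∈ Metric.ball (x j) r := by
            by_contra hcon
            have : b j w = 0 := indicator_of_notMem hcon _
            rw [this] at hbj
            exact zero_ne_one hbj
          rw [Finset.mul_sum]
          refine Finset.sum_le_sum fun i _ => ?_
          by_cases hneg : D.charge (sp i) < 0
          · rw [if_pos hneg]
            rcases hb01 i w with h | h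
            · rw [h]
              simp
            · have hiw : w ∈ Metric.ball (x i) r := by
                by_contra hcon
                have : b i w = 0 := indicator_of_notMem hcon _
                rw [this] at h
                exact zero_ne_one h
              rw [if_pos, h, mul_one, mul_one]
              · have := hz1 (sp i)
                rw [abs_of_neg hneg] at this
                exact max_le this hz0
              · refine ⟨j, hj, ?_⟩
                rw [Metric.mem_ball, dist_eq_norm] at hjw hiw
                have h3 : ‖x i - x j‖ ≤ ‖w - x j‖ + ‖w - x i‖ := by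
                  have : x i - x j = (w - x j) - (w - x i) := by abel
                  rw [this]
                  exact norm_sub_le _ _
                linarith
          · rw [if_neg hneg, mul_zero]
            refine max_le ?_ le_rfl
            have hb0 : 0 ≤ b i w := by rcases hb01 i w with h | h <;> rw [h] <;> norm_num
            have := mul_nonneg (not_lt.1 hneg) hb0
            linarith
        · exact mul_nonneg hz0 (Finset.sum_nonneg fun i _ => hnn i)
      have h4 : 0 ≤ 9 / 4 * z := by positivity
      calc -(9 / 4 * z ^ 2) * ∑ i, (if D.charge (sp i) < 0 then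
          (if (∃ j, 0 < D.charge (sp j) ∧ ‖x i - x j‖ < 2 * r) then b i w else 0) else 0)
          = -((9 / 4 * z) * (z * ∑ i, (if D.charge (sp i) < 0 then
          (if (∃ j, 0 < D.charge (sp j) ∧ ‖x i - x j‖ < 2 * r) then b i w else 0) else 0))) := by
            ring
        _ ≤ -((9 / 4 * z) * (if ∃ j, 0 < D.charge (sp j) * b j w then
          ∑ i, max (-(D.charge (sp i) * b i w)) 0 else 0)) :=
            neg_le_neg (mul_le_mul_of_nonneg_left h3 h4)
        _ = _ := by ring
    -- integrate over the centre
    have i1 : Integrable (fun w => -(9 / 4 * z ^ 2) * ∑ i, (if D.charge (sp i) < 0 then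
        (if (∃ j, 0 < D.charge (sp j) ∧ ‖x i - x j‖ < 2 * r) then b i w else 0) else 0)) := by
      refine Integrable.const_mul (integrable_finsetSum _ fun i _ => ?_) _
      split_ifs
      · exact hbi i
      · exact integrable_zero _ _ _
      · exact integrable_zero _ _ _
    have i2 : Integrable (fun w => ∑ i, ∑ j, (if i = j then 0 else D.charge (sp i) *
        D.charge (sp j) * (b i w * b j w))) := by
      refine integrable_finsetSum _ fun i _ => integrable_finsetSum _ fun j _ => ?_
      split_ifs
      · exact integrable_zero _ _ _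
      · exact (hbbi i j).const_mul _
    have h5 := integral_mono i1 i2 hpt
    have e3 : ∫ w, -(9 / 4 * z ^ 2) * ∑ i, (if D.charge (sp i) < 0 then
        (if (∃ j, 0 < D.charge (sp j) ∧ ‖x i - x j‖ < 2 * r) then b i w else 0) else 0) =
        -(9 / 4 * z ^ 2) * ∑ i, (if D.charge (sp i) < 0 then
        (if (∃ j, 0 < D.charge (sp j) ∧ ‖x i - x j‖ < 2 * r) then
          4 / 3 * Real.pi * r ^ 3 else 0) else 0) := by
      rw [integral_const_mul, integral_finsetSum]
      · congr 1
        refine Finset.sum_congr rfl fun i _ => ?_
        split_ifs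
        · exact hbint i
        · simp
        · simp
      · intro i _
        split_ifs
        · exact hbi i
        · exact integrable_zero _ _ _
        · exact integrable_zero _ _ _
    have e4 : ∫ w, ∑ i, ∑ j, (if i = j then 0 else D.charge (sp i) *
        D.charge (sp j) * (b i w * b j w)) = ∑ i, ∑ j, (if i = j then 0 else
        D.charge (sp i) * D.charge (sp j) * lens (x i) (x j) r) := by
      rw [integral_finsetSum]
      · refine Finset.sum_congr rfl fun i _ => ?_
        rw [integral_finsetSum]
        · refine Finset.sum_congr rfl fun j _ => ?_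
          split_ifs
          · simp
          · rw [integral_const_mul, hbbint]
        · intro j _
          split_ifs
          · exact integrable_zero _ _ _
          · exact (hbbi i j).const_mul _
      · intro i _
        refine integrable_finsetSum _ fun j _ => ?_
        split_ifs
        · exact integrable_zero _ _ _
        · exact (hbbi i j).const_mul _
    rw [e3, e4] at h5
    have h6 := mul_le_mul_of_nonneg_left h5 (show 0 ≤ (r ^ 5)⁻¹ by positivity)
    refine le_trans (le_of_eq ?_) (h6.trans (le_of_eq ?_))
    · rw [Finset.mul_sum, Finset.mul_sum, Finset.mul_sum]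
      refine Finset.sum_congr rfl fun i _ => ?_
      split_ifs
      · field_simp
        ring
      · simp
      · simp
    · rw [Finset.mul_sum]
      refine Finset.sum_congr rfl fun i _ => ?_
      rw [Finset.mul_sum]
      refine Finset.sum_congr rfl fun j _ => ?_
      split_ifs
      · simp
      · ring
  -- integrate over the radius
  have hsh : ∀ i, D.charge (sp i) < 0 → IntegrableOn (fun r : ℝ =>
      if (∃ j, 0 < D.charge (sp j) ∧ ‖x i - x j‖ < 2 * r) then (r ^ 2)⁻¹ else 0) (Ioi 0) ∧
      ∫ r in Ioi (0 : ℝ), (if (∃ j, 0 < D.charge (sp j) ∧ ‖x i - x j‖ < 2 * r) then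
      (r ^ 2)⁻¹ else 0) ≤ 2 * pinv D sp i x := by
    intro i hi
    refine shell_int D sp i x fun j hj => hx i j ?_
    rintro rfl
    linarith
  have j1 : IntegrableOn (fun r : ℝ => -(3 * Real.pi * z ^ 2) * ∑ i, (if D.charge (sp i) < 0 then
      (if (∃ j, 0 < D.charge (sp j) ∧ ‖x i - x j‖ < 2 * r) then (r ^ 2)⁻¹ else 0) else 0))
      (Ioi 0) := by
    refine Integrable.const_mul (integrable_finsetSum _ fun i _ => ?_) _
    by_cases hi : D.charge (sp i) < 0
    · simp only [if_pos hi]
      exact (hsh i hi).1
    · simp only [if_neg hi]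
      exact integrable_zero _ _ _
  have j2 : IntegrableOn (fun r : ℝ => ∑ i, ∑ j, (if i = j then 0 else D.charge (sp i) *
      D.charge (sp j) * ((r ^ 5)⁻¹ * lens (x i) (x j) r))) (Ioi 0) := by
    refine integrable_finsetSum _ fun i _ => integrable_finsetSum _ fun j _ => ?_
    by_cases hij : i = j
    · simp only [if_pos hij]
      exact integrable_zero _ _ _
    · simp only [if_neg hij]
      exact (lens_int (x i) (x j) (hx i j hij)).const_mul _
  have h7 := setIntegral_mono_on j1 j2 measurableSet_Ioi (fun r hr => hrad r hr)
  have e5 : ∫ r in Ioi (0 : ℝ), ∑ i, ∑ j, (if i = j then 0 else D.charge (sp i) *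
      D.charge (sp j) * ((r ^ 5)⁻¹ * lens (x i) (x j) r)) = 2 * c * coul D sp x := by
    unfold coul
    rw [integral_finsetSum]
    · have : 2 * c * (1 / 2 * ∑ i, ∑ j, (if i = j then 0 else D.charge (sp i) *
          D.charge (sp j) / ‖x i - x j‖)) = ∑ i, ∑ j, (if i = j then 0 else
          D.charge (sp i) * D.charge (sp j) * (c / ‖x i - x j‖)) := by
        rw [← mul_assoc, Finset.mul_sum]
        refine Finset.sum_congr rfl fun i _ => ?_
        rw [Finset.mul_sum]
        refine Finset.sum_congr rfl fun j _ => ?_
        split_ifs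
        · simp
        · ring
      rw [this]
      refine Finset.sum_congr rfl fun i _ => ?_
      rw [integral_finsetSum]
      · refine Finset.sum_congr rfl fun j _ => ?_
        by_cases hij : i = j
        · simp [hij]
        · simp only [if_neg hij]
          rw [integral_const_mul, hfdl _ _ (hx i j hij)]
      · intro j _
        by_cases hij : i = j
        · simp only [if_pos hij]
          exact integrable_zero _ _ _
        · simp only [if_neg hij]
          exact (lens_int (x i) (x j) (hx i j hij)).const_mul _
    · intro i _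
      refine integrable_finsetSum _ fun j _ => ?_
      by_cases hij : i = j
      · simp only [if_pos hij]
        exact integrable_zero _ _ _
      · simp only [if_neg hij]
        exact (lens_int (x i) (x j) (hx i j hij)).const_mul _
  have e6 : -(3 * Real.pi * z ^ 2) * ∑ i, (if D.charge (sp i) < 0 then
      2 * pinv D sp i x else 0) ≤ ∫ r in Ioi (0 : ℝ), -(3 * Real.pi * z ^ 2) *
      ∑ i, (if D.charge (sp i) < 0 then
      (if (∃ j, 0 < D.charge (sp j) ∧ ‖x i - x j‖ < 2 * r) then (r ^ 2)⁻¹ else 0) else 0) := by
    rw [integral_const_mul]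
    have h8 : ∫ r in Ioi (0 : ℝ), ∑ i, (if D.charge (sp i) < 0 then
        (if (∃ j, 0 < D.charge (sp j) ∧ ‖x i - x j‖ < 2 * r) then (r ^ 2)⁻¹ else 0) else 0) ≤
        ∑ i, (if D.charge (sp i) < 0 then 2 * pinv D sp i x else 0) := by
      rw [integral_finsetSum]
      · refine Finset.sum_le_sum fun i _ => ?_
        by_cases hi : D.charge (sp i) < 0
        · simp only [if_pos hi]
          exact (hsh i hi).2
        · simp only [if_neg hi]
          simp
      · intro i _
        by_cases hi : D.charge (sp i) < 0
        · simp only [if_pos hi]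
          exact (hsh i hi).1
        · simp only [if_neg hi]
          exact integrable_zero _ _ _
    have h9 : 0 ≤ 3 * Real.pi * z ^ 2 := by positivity
    nlinarith [mul_le_mul_of_nonneg_left h8 h9]
  rw [e5] at h7
  have h10 := e6.trans h7
  have e7 : ∑ i, (if D.charge (sp i) < 0 then 2 * pinv D sp i x else 0) =
      2 * ∑ i, (if D.charge (sp i) < 0 then pinv D sp i x else 0) := by
    rw [Finset.mul_sum]
    refine Finset.sum_congr rfl fun i _ => ?_
    split_ifs <;> simp
  rw [e7] at h10
  have e8 : -(3 * Real.pi * z ^ 2 / c) * ∑ i, (if D.charge (sp i) < 0 then pinv D sp i x else 0) =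
      (-(3 * Real.pi * z ^ 2) * (2 * ∑ i, (if D.charge (sp i) < 0 then pinv D sp i x else 0))) /
        (2 * c) := by
    field_simp
  rw [e8, div_le_iff₀ (by positivity)]
  linarith

end Pool.Agent.Helper780_CP
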