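import Pool.Agent.Helper780_CP.LPDefs

/-! Definitions for the bounds up to the boundary. -/

set_option autoImplicit false

open MeasureTheory
open scoped Topology

namespace Pool.Agent.Helper780_CP

open Pool.Agent.Helper985.CP

/-- Yukawa kernel -/
noncomputable def Yk (μ : ℝ) (w : E3) : ℝ := Real.exp (-(μ * ‖w‖)) / ‖w‖

/-- Coulomb kernel minus Yukawa kernel -/
noncomputable def Lk (μ : ℝ) (w : E3) : ℝ :=
  if w = 0 then μ else (1 - Real.exp (-(μ * ‖w‖))) / ‖w‖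

/-- minus the gradient of `Lk μ` -/
noncomputable def Gk (μ : ℝ) (w : E3) : E3 :=
  ((1 - Real.exp (-(μ * ‖w‖)) * (1 + μ * ‖w‖)) / ‖w‖ ^ 3) • w

/-- regular part of the potential at `ω`, minus the level `pb` -/
noncomputable def vp {I : Type} [Fintype I] (c : I → ℝ) (x : I → E3) (μ pb : ℝ) (ω : E3) : ℝ :=
  (∑ i, c i * Lk μ (x i - ω)) - pb

/-- singular part of the potential -/
noncomputable def yp {I : Type} [Fintype I] (c : I → ℝ) (x : I → E3) (μ : ℝ) (ω : E3) : ℝ :=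
  ∑ i, c i * Yk μ (x i - ω)

/-- gradient of the regular part of the potential -/
noncomputable def gp {I : Type} [Fintype I] (c : I → ℝ) (x : I → E3) (μ : ℝ) (ω : E3) : E3 :=
  ∑ i, c i • Gk μ (x i - ω)

/-- smeared number of particles -/
noncomputable def nn {I : Type} [Fintype I] (ω : E3) (x : I → E3) : ℝ :=
  ∑ j, Real.exp (-‖x j - ω‖)

/-- smooth smeared number of particles -/
noncomputable def nh {I : Type} [Fintype I] (y : E3) (x : I → E3) : ℝ :=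
  ∑ j, Real.exp (1 - √(1 + ‖x j - y‖ ^ 2))

/-- inverse length, adapted to the number of particles near `y` -/
noncomputable def mu {I : Type} [Fintype I] (K : ℝ) (y : E3) (x : I → E3) : ℝ :=
  (K * (1 + nh y x)) ^ ((1 : ℝ) / 3)

/-- weights of the decomposition of `exp(-μ|·|)` into balls -/
noncomputable def mR (μ R : ℝ) : ℝ :=
  μ ^ 2 / Real.pi * (2 * μ / R + 1 / R ^ 2) * Real.exp (-(2 * μ * R))

/-- kernel comparable with `min μ (1/|w|)` -/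
noncomputable def Mk (μ : ℝ) (w : E3) : ℝ := μ / (1 + μ * ‖w‖)

/-- the functions `√(1 + v²) ± v` -/
noncomputable def hs (s v : ℝ) : ℝ := √(1 + v ^ 2) + s * v

/-- smooth radial bump, supported in the ball of radius `1/2`, with `∫ al² = 1` -/
noncomputable def al (w : E3) : ℝ := ct ((4 : ℝ) • w) / √(∫ u : E3, ct ((4 : ℝ) • u) ^ 2)

/-- kinetic energy with the weight `∑ i, W (x i)` on the particle itself -/
noncomputable def kinW {S : Type} (D : Species S) {I : Type} [Fintype I] [DecidableEq I]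
    (sp : I → S) (W : E3 → ℝ) (Ψ : Wave D I) : ℝ :=
  ∑ τ, ∫ x, ∑ j, W (x j) * kin D sp j (Ψ τ) x

/-- admissible weights of the localised electrostatic energy -/
structure Wt (y0 : E3) (σ : Fin 3 → ℝ) (R L : ℝ) (W Γ Γ2 Γ3 : E3 → ℝ) : Prop where
  sgn : ∀ k, σ k = 1 ∨ σ k = -1
  W_smooth : ContDiff ℝ SM W
  W_nn : ∀ ω, 0 ≤ W ω
  W_le : ∀ ω, W ω ≤ 1
  W_supp : ∀ ω, R ≤ ‖ω - y0‖ → W ω = 0
  W_oct : ∀ ω, W ω ≠ 0 → 1 ≤ ‖ω - y0‖ ∧ ¬ ∀ k, 0 < σ k * (ω k - y0 k)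
  Γ_cont : Continuous Γ
  Γ_nn : ∀ ω, 0 ≤ Γ ω
  Γ_le : ∀ ω, Γ ω ≤ L
  Γ_supp : ∀ ω, R ≤ ‖ω - y0‖ → Γ ω = 0
  Γ2_cont : Continuous Γ2
  Γ2_nn : ∀ ω, 0 ≤ Γ2 ω
  Γ2_supp : ∀ ω, R ≤ ‖ω - y0‖ → Γ2 ω = 0
  Γ3_nn : ∀ ω, 0 ≤ Γ3 ω
  dW : ∀ ω, ‖fderiv ℝ W ω‖ ^ 2 ≤ 4 * W ω * Γ ω
  lapW : ∀ ω, |lap W ω| ≤ 2 * Γ ω + 2 * √(W ω * Γ3 ω)
  Γ_hardy : ∀ ω, Γ ω ≤ 1 / 2 * (W ω / ‖ω - y0‖ ^ 2) + Γ2 ω
  Γ3_hardy : ∀ ω, Γ3 ω ≤ W ω / ‖ω - y0‖ ^ 2 + Γ2 ω
  W_lip : ∀ ω ω', |√(W ω) - √(W ω')| ≤ L * ‖ω - ω'‖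

/-- regular part of the potential of the particles, minus the level -/
noncomputable def vv {S : Type} (D : Species S) {I : Type} [Fintype I] (sp : I → S) (ℓ K : ℝ)
    (y : E3) (x : I → E3) (ω : E3) : ℝ :=
  vp (fun i => D.charge (sp i)) x (mu K y x) (phb D sp ℓ x) ω

/-- singular part of the potential of the particles -/
noncomputable def yy {S : Type} (D : Species S) {I : Type} [Fintype I] (sp : I → S) (K : ℝ)
    (y : E3) (x : I → E3) (ω : E3) : ℝ :=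
  yp (fun i => D.charge (sp i)) x (mu K y x) ω

/-- gradient of `vv` -/
noncomputable def gg {S : Type} (D : Species S) {I : Type} [Fintype I] (sp : I → S) (K : ℝ)
    (y : E3) (x : I → E3) (ω : E3) : E3 :=
  gp (fun i => D.charge (sp i)) x (mu K y x) ω

/-- test functions of the second moment of the regular part of the potential -/
noncomputable def fz {S : Type} (D : Species S) {I : Type} [Fintype I] (sp : I → S) (ℓ K s : ℝ)
    (y ω z : E3) (x : I → E3) : ℝ :=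
  √(hs s (vv D sp ℓ K y x ω)) * (mu K y x ^ ((3 : ℝ) / 2) * al (mu K y x • z))

/-- the layer near the walls -/
def wall (ℓ : ℝ) : Set E3 :=
  {y | (∀ k, -3 ≤ y k ∧ y k ≤ ℓ + 3) ∧ ¬ ∀ k, 20 ≤ y k ∧ y k ≤ ℓ - 20}

/-- kinetic and electrostatic energy near `y` -/
noncomputable def qB {S : Type} (D : Species S) {I : Type} [Fintype I] [DecidableEq I]
    (sp : I → S) (K : ℝ) {k : ℕ} (p : Fin k → ℝ) (ψ : Fin k → Wave D I) (y : E3) : ℝ :=
  ∑ j, p j * kb D sp y 8 (ψ j) +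
    wx D p ψ (fun x => ∫ ω in Metric.ball y 60, ‖gg D sp K y x ω‖ ^ 2)

/-- interaction energy weighted with `W`, with the potential measured from the level -/
noncomputable def tq {S : Type} (D : Species S) {I : Type} [Fintype I] [DecidableEq I]
    (sp : I → S) (ℓ : ℝ) (W : E3 → ℝ) (x : I → E3) : ℝ :=
  (∑ i, W (x i) * ∑ j, if i = j then 0 else
    D.charge (sp i) * D.charge (sp j) / ‖x i - x j‖) -
    phb D sp ℓ x * ∑ i, D.charge (sp i) * W (x i)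

/-- what is used of the states near the boundary -/
structure BS {S : Type} (D : Species S) {I : Type} [Fintype I] [DecidableEq I] (sp : I → S)
    (ℓ C0 η : ℝ) {k : ℕ} (p : Fin k → ℝ) (ψ : Fin k → Wave D I) : Prop where
  state : ∀ j, IsState D sp ℓ (ψ j)
  nrm : ∀ j, nrm2 D (ψ j) = 1
  p0 : ∀ j, 0 ≤ p j
  p1 : ∑ j, p j = 1
  neu : ∑ i, D.charge (sp i) = 0
  card : (Fintype.card I : ℝ) ≤ C0 * ℓ ^ 3
  len : 1000 ≤ ℓ
  eta : 0 ≤ η
  eta1 : η * (1 + (Fintype.card I : ℝ)) ^ 3 ≤ 1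
  en : ∀ y : E3, 1 / 4 * (∑ j, p j * klc D sp y 1 (ψ j)) +
      wx D p ψ (tq D sp ℓ (fun v => cy y 1 v ^ 2)) ≤
    C0 * (1 + wx D p ψ (fun x => nb y 2 x ^ ((4 : ℝ) / 3)))
  fl : ∀ (ω : E3) (f : (I → E3) → ℝ) (B : ℝ), Metric.closedBall ω 1 ⊆ cube ℓ →
    ContDiff ℝ SM f → Sy sp f → (∀ x, |f x| ≤ B) →
    |wx D p ψ (fun x => f x ^ 2 * (phi D sp ω x - phb D sp ℓ x))| ≤
      C0 * (wx D p ψ (fun x => f x ^ 2 * (1 + near2 ω x)) + wx D p ψ (gr f) +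
        wx D p ψ (fun x => f x ^ 2 * (f x ^ 2) ^ ((1 : ℝ) / 4)) + 1 + B ^ 2 * η)
  int : ∀ y : E3, Metric.closedBall y 4 ⊆ cube ℓ →
    ∑ j, p j * kb D sp y 3 (ψ j) ≤ C0 ∧ wx D p ψ (fun x => nb y 3 x ^ ((5 : ℝ) / 3)) ≤ C0

end Pool.Agent.Helper780_CP
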