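import Pool.Agent.Helper780_CP.BnDefs

/-! Energies in the presence of a small test charge. -/

set_option autoImplicit false

open MeasureTheory
open scoped Topology

namespace Pool.Agent.Helper780_CP

open Pool.Agent.Helper985.CP

/-- The energy of a wave function in the presence of a fixed test charge `t` at the point `y`:
the quadratic form of `H + t φ(y)`. -/
noncomputable def energyQ {S : Type} (D : Species S) {I : Type} [Fintype I] [DecidableEq I]
    (sp : I → S) (y : E3) (t : ℝ) (Ψ : Wave D I) : ℝ :=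
  energy D sp Ψ + t * phim D sp Ψ y

/-- The sums `∑ⱼ exp(-⟨ψⱼ, (H + t φ(y)) ψⱼ⟩ / T)` over finite orthonormal families of states. -/
def peierlsQ {S : Type} (D : Species S) {I : Type} [Fintype I] [DecidableEq I] (sp : I → S)
    (ℓ T : ℝ) (y : E3) (t : ℝ) : Set ℝ :=
  {z : ℝ | ∃ (k : ℕ) (ψ : Fin k → Wave D I), Ortho D sp ℓ ψ ∧
    z = ∑ j, Real.exp (-(energyQ D sp y t (ψ j)) / T)}

/-- The energies `⟨Ψ, (H + t φ(y)) Ψ⟩ / ⟨Ψ, Ψ⟩` of the nonzero states. -/
def energiesQ {S : Type} (D : Species S) {I : Type} [Fintype I] [DecidableEq I] (sp : I → S)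
    (ℓ : ℝ) (y : E3) (t : ℝ) : Set ℝ :=
  {e : ℝ | ∃ Ψ : Wave D I, IsState D sp ℓ Ψ ∧ Ψ ≠ 0 ∧ e = energyQ D sp y t Ψ / nrm2 D Ψ}

end Pool.Agent.Helper780_CP
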