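import Pool.Agent.Helper985.CP.Defs
import Pool.Agent.Helper985.CP.M_exists_cut

set_option autoImplicit false

open MeasureTheory
open scoped Topology

namespace Pool.Agent.Helper780_CP

open Pool.Agent.Helper985.CP

/-- the probability of exactly one success is at most one -/
theorem one_success {I : Type} [DecidableEq I] (s : Finset I) (c : I → ℝ)
    (hc : ∀ i, 0 ≤ c i ∧ c i ≤ 1) :
    ∏ j ∈ s, (1 - c j) + ∑ i ∈ s, c i * ∏ j ∈ s.erase i, (1 - c j) ≤ 1 := by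
  induction s using Finset.induction_on with
  | empty => simp
  | insert a s ha ih =>
    have hP : 0 ≤ ∏ j ∈ s, (1 - c j) := Finset.prod_nonneg fun j _ => by linarith [(hc j).2]
    have hS : 0 ≤ ∑ i ∈ s, c i * ∏ j ∈ s.erase i, (1 - c j) :=
      Finset.sum_nonneg fun i _ => mul_nonneg (hc i).1
        (Finset.prod_nonneg fun j _ => by linarith [(hc j).2])
    rw [Finset.prod_insert ha, Finset.sum_insert ha, Finset.erase_insert ha]
    have h1 : ∑ i ∈ s, c i * ∏ j ∈ (insert a s).erase i, (1 - c j) =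
        (1 - c a) * ∑ i ∈ s, c i * ∏ j ∈ s.erase i, (1 - c j) := by
      rw [Finset.mul_sum]
      refine Finset.sum_congr rfl fun i hi => ?_
      have hne : a ≠ i := fun h => ha (h ▸ hi)
      rw [Finset.erase_insert_of_ne hne, Finset.prod_insert (by simp [ha])]
      ring
    rw [h1]
    have := (hc a).1
    have := (hc a).2
    nlinarith

/-- cutting out a ball, with a gradient bound that does not count the particles -/
theorem exists_cut2 : ∃ C : ℝ, 0 < C ∧ ∀ (r : ℝ), 0 < r → ∀ {I : Type} [Fintype I]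
    [DecidableEq I] (x0 : E3), ∃ θ : (I → E3) → ℝ, ContDiff ℝ SM θ ∧
      (∀ i j x, θ (fun k => x (Equiv.swap i j k)) = θ x) ∧
      (∀ x i, x i ∈ Metric.closedBall x0 r → θ x = Real.pi / 2) ∧
      (∀ x, (∀ i, x i ∉ Metric.ball x0 (2 * r)) → θ x = 0) ∧
      (∀ x, ∑ i, ∑ k : Fin 3,
        (fderiv ℝ θ x (Pi.single i (EuclideanSpace.single k (1 : ℝ)))) ^ 2 ≤ C / r ^ 2) ∧
      (∀ x, (∀ i, x i ∉ Metric.ball x0 (2 * r)) → ∀ i v,
        fderiv ℝ θ x (Pi.single i v) = 0) := by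
  obtain ⟨χ, B, hχ, h01, hone, hzero, hB, hfz⟩ := exists_cut_bump 1 one_pos
  refine ⟨3 * Real.pi ^ 2 * B ^ 2 + 1, by positivity, ?_⟩
  intro r hr I _ _ x0
  set ζ : E3 → ℝ := fun y => χ (r⁻¹ • y) ^ 2 with hζ
  have hζs : ContDiff ℝ SM ζ := (hχ.comp (contDiff_id.const_smul r⁻¹)).pow 2
  have hnorm : ∀ y : E3, ‖r⁻¹ • y‖ = ‖y‖ / r := by
    intro y
    rw [norm_smul, norm_inv, Real.norm_of_nonneg hr.le, inv_mul_eq_div]
  have hζ01 : ∀ y, 0 ≤ ζ y ∧ ζ y ≤ 1 := by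
    intro y
    obtain ⟨a, b⟩ := h01 (r⁻¹ • y)
    exact ⟨sq_nonneg _, by simp only [hζ]; nlinarith⟩
  have hζ1 : ∀ y, ‖y‖ ≤ r → ζ y = 1 := by
    intro y hy
    simp only [hζ]
    rw [hone]
    · norm_num
    · rw [hnorm, div_le_one hr]; exact hy
  have hζ0 : ∀ y, 2 * r ≤ ‖y‖ → ζ y = 0 := by
    intro y hy
    simp only [hζ]
    rw [hzero]
    · norm_num
    · rw [hnorm, le_div_iff₀ hr]; linarith
  have hχd : Differentiable ℝ χ := hχ.differentiable (by simp)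
  have hζd : ∀ y v, fderiv ℝ ζ y v = 2 * χ (r⁻¹ • y) * (r⁻¹ * fderiv ℝ χ (r⁻¹ • y) v) := by
    intro y v
    have h1 : HasFDerivAt (fun y : E3 => χ (r⁻¹ • y))
        ((fderiv ℝ χ (r⁻¹ • y)).comp (r⁻¹ • ContinuousLinearMap.id ℝ E3)) y := by
      exact HasFDerivAt.comp y (hχd (r⁻¹ • y)).hasFDerivAt ((hasFDerivAt_id y).const_smul r⁻¹)
    have h2 := h1.pow 2
    have h3 : fderiv ℝ ζ y = _ := h2.fderiv
    rw [h3]
    simp
  have hζg : ∀ y (k : Fin 3), (fderiv ℝ ζ y (EuclideanSpace.single k (1 : ℝ))) ^ 2 ≤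
      4 * B ^ 2 / r ^ 2 * ζ y := by
    intro y k
    rw [hζd]
    have h1 : |fderiv ℝ χ (r⁻¹ • y) (EuclideanSpace.single k (1 : ℝ))| ≤ B := by
      have := (fderiv ℝ χ (r⁻¹ • y)).le_opNorm (EuclideanSpace.single k (1 : ℝ))
      rw [EuclideanSpace.norm_single, norm_one, mul_one] at this
      exact this.trans (hB _)
    have h2 : (fderiv ℝ χ (r⁻¹ • y) (EuclideanSpace.single k (1 : ℝ))) ^ 2 ≤ B ^ 2 := by
      rw [← sq_abs]
      exact pow_le_pow_left₀ (abs_nonneg _) h1 2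
    have h3 : (2 * χ (r⁻¹ • y) * (r⁻¹ * fderiv ℝ χ (r⁻¹ • y)
        (EuclideanSpace.single k (1 : ℝ)))) ^ 2 = 4 / r ^ 2 * ζ y *
        (fderiv ℝ χ (r⁻¹ • y) (EuclideanSpace.single k (1 : ℝ))) ^ 2 := by
      simp only [hζ]
      field_simp
      ring
    rw [h3]
    have h4 : 4 * B ^ 2 / r ^ 2 * ζ y = 4 / r ^ 2 * ζ y * B ^ 2 := by ring
    rw [h4]
    exact mul_le_mul_of_nonneg_left h2 (mul_nonneg (by positivity) (hζ01 y).1)
  refine ⟨fun x : I → E3 => Real.pi / 2 * (1 - ∏ j, (1 - ζ (x j - x0))), ?_, ?_, ?_, ?_, ?_, ?_⟩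
  · refine contDiff_const.mul (contDiff_const.sub (contDiff_prod fun j _ => ?_))
    exact contDiff_const.sub (hζs.comp ((contDiff_apply ℝ E3 j).sub contDiff_const))
  · intro i j x
    show Real.pi / 2 * (1 - ∏ k, (1 - ζ (x (Equiv.swap i j k) - x0))) =
      Real.pi / 2 * (1 - ∏ k, (1 - ζ (x k - x0)))
    rw [Equiv.prod_comp (Equiv.swap i j) (fun k => 1 - ζ (x k - x0))]
  · intro x i hi
    have h1 : ζ (x i - x0) = 1 := by
      apply hζ1
      rw [← dist_eq_norm]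
      exact hi
    have h2 : ∏ j, (1 - ζ (x j - x0)) = 0 :=
      Finset.prod_eq_zero (Finset.mem_univ i) (by rw [h1, sub_self])
    show Real.pi / 2 * (1 - ∏ j, (1 - ζ (x j - x0))) = Real.pi / 2
    rw [h2, sub_zero, mul_one]
  · intro x hx
    show Real.pi / 2 * (1 - ∏ j, (1 - ζ (x j - x0))) = 0
    rw [Finset.prod_eq_one]
    · simp
    · intro j _
      rw [hζ0, sub_zero]
      have := hx j
      rw [Metric.mem_ball, dist_eq_norm] at this
      linarith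
  · intro x
    have h1 : ∀ i, ∑ k : Fin 3,
        (fderiv ℝ (fun x : I → E3 => Real.pi / 2 * (1 - ∏ j, (1 - ζ (x j - x0)))) x
          (Pi.single i (EuclideanSpace.single k (1 : ℝ)))) ^ 2 ≤
        3 * Real.pi ^ 2 * B ^ 2 / r ^ 2 * (ζ (x i - x0) * ∏ j ∈ Finset.univ.erase i,
          (1 - ζ (x j - x0))) := by
      intro i
      have h2 : ∀ k : Fin 3, (fderiv ℝ (fun x : I → E3 => Real.pi / 2 *
          (1 - ∏ j, (1 - ζ (x j - x0)))) x
          (Pi.single i (EuclideanSpace.single k (1 : ℝ)))) ^ 2 ≤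
          Real.pi ^ 2 * B ^ 2 / r ^ 2 * (ζ (x i - x0) * ∏ j ∈ Finset.univ.erase i,
          (1 - ζ (x j - x0))) := by
        intro k
        rw [exists_cut_deriv ζ hζs x0 x i]
        set P := ∏ j ∈ Finset.univ.erase i, (1 - ζ (x j - x0)) with hP
        have hP0 : 0 ≤ P := Finset.prod_nonneg fun j _ => by linarith [(hζ01 (x j - x0)).2]
        have hP1 : P ≤ 1 := Finset.prod_le_one (fun j _ => by linarith [(hζ01 (x j - x0)).2])
          (fun j _ => by linarith [(hζ01 (x j - x0)).1])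
        have h3 := hζg (x i - x0) k
        have h4 : (Real.pi / 2 * (fderiv ℝ ζ (x i - x0) (EuclideanSpace.single k (1 : ℝ)) * P)) ^ 2
            = Real.pi ^ 2 / 4 * P ^ 2 *
              (fderiv ℝ ζ (x i - x0) (EuclideanSpace.single k (1 : ℝ))) ^ 2 := by ring
        rw [h4]
        have h5 : P ^ 2 ≤ P := by nlinarith
        calc Real.pi ^ 2 / 4 * P ^ 2 *
              (fderiv ℝ ζ (x i - x0) (EuclideanSpace.single k (1 : ℝ))) ^ 2
            ≤ Real.pi ^ 2 / 4 * P * (4 * B ^ 2 / r ^ 2 * ζ (x i - x0)) := by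
              apply mul_le_mul _ h3 (sq_nonneg _) (by positivity)
              exact mul_le_mul_of_nonneg_left h5 (by positivity)
          _ = Real.pi ^ 2 * B ^ 2 / r ^ 2 * (ζ (x i - x0) * P) := by ring
      refine (Finset.sum_le_sum fun k _ => h2 k).trans (le_of_eq ?_)
      rw [Finset.sum_const, Finset.card_univ, Fintype.card_fin, nsmul_eq_mul]
      push_cast
      ring
    refine (Finset.sum_le_sum fun i _ => h1 i).trans ?_
    rw [← Finset.mul_sum]
    have h6 := one_success Finset.univ (fun i => ζ (x i - x0)) (fun i => hζ01 _)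
    have h7 : 0 ≤ ∏ j, (1 - ζ (x j - x0)) := Finset.prod_nonneg fun j _ => by
      linarith [(hζ01 (x j - x0)).2]
    have h8 : ∑ i, ζ (x i - x0) * ∏ j ∈ Finset.univ.erase i, (1 - ζ (x j - x0)) ≤ 1 := by
      linarith
    have h9 : 0 ≤ 3 * Real.pi ^ 2 * B ^ 2 / r ^ 2 := by positivity
    calc 3 * Real.pi ^ 2 * B ^ 2 / r ^ 2 *
          ∑ i, ζ (x i - x0) * ∏ j ∈ Finset.univ.erase i, (1 - ζ (x j - x0))
        ≤ 3 * Real.pi ^ 2 * B ^ 2 / r ^ 2 * 1 := mul_le_mul_of_nonneg_left h8 h9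
      _ ≤ (3 * Real.pi ^ 2 * B ^ 2 + 1) / r ^ 2 := by
          rw [mul_one]
          gcongr
          linarith
  · intro x hx i v
    rw [exists_cut_deriv ζ hζs x0 x i]
    have h1 : 2 * r ≤ ‖x i - x0‖ := by
      have := hx i
      rw [Metric.mem_ball, dist_eq_norm] at this
      linarith
    have h2 : fderiv ℝ ζ (x i - x0) v = 0 := by
      rw [hζd, hzero]
      · ring
      · rw [hnorm, le_div_iff₀ hr]; linarith
    rw [h2]
    ring

/-- the cuts at all dyadic scales -/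
theorem exists_scales : ∃ C : ℝ, 0 < C ∧ ∀ (δ : ℝ), 0 < δ → ∀ {I : Type} [Fintype I]
    [DecidableEq I] (y : E3), ∃ θ : ℕ → (I → E3) → ℝ, (∀ k, ContDiff ℝ SM (θ k)) ∧
      (∀ k i j x, θ k (fun l => x (Equiv.swap i j l)) = θ k x) ∧
      (∀ k x i, x i ∈ Metric.closedBall y (δ / 2 ^ k) → θ k x = Real.pi / 2) ∧
      (∀ k x, (∀ i, x i ∉ Metric.ball y (2 * (δ / 2 ^ k))) → θ k x = 0) ∧
      (∀ k x, ∑ i, ∑ l : Fin 3,
        (fderiv ℝ (θ k) x (Pi.single i (EuclideanSpace.single l (1 : ℝ)))) ^ 2 ≤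
          C / (δ / 2 ^ k) ^ 2) ∧
      (∀ k x, (∀ i, x i ∉ Metric.ball y (2 * (δ / 2 ^ k))) → ∀ i v,
        fderiv ℝ (θ k) x (Pi.single i v) = 0) := by
  obtain ⟨C, hC, H⟩ := exists_cut2
  refine ⟨C, hC, ?_⟩
  intro δ hδ I _ _ y
  have h : ∀ k : ℕ, 0 < δ / 2 ^ k := fun k => by positivity
  choose θ h1 h2 h3 h4 h5 h6 using fun k : ℕ => H (δ / 2 ^ k) (h k) (I := I) y
  exact ⟨θ, h1, h2, h3, h4, h5, h6⟩

end Pool.Agent.Helper780_CP
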