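import Pool.Agent.Helper780_CP.LLDefs2
import Pool.Agent.Helper780_CP.BnDefs

set_option autoImplicit false

open MeasureTheory
open scoped Topology

namespace Pool.Agent.Helper780_CP.RB1

open Pool.Agent.Helper780_CP
open Pool.Agent.Helper985.CP

open Pool.Agent.Helper780_CP Pool.Agent.Helper985.CP

/-- `1 - exp(-t)(1+t)` with `t = μ s` -/
noncomputable def Am (μ s : ℝ) : ℝ := 1 - Real.exp (-(μ * s)) * (1 + μ * s)

/-- regularised distance -/
noncomputable def sx (x : E3) (ε : ℝ) (ω : E3) : ℝ := √(‖x - ω‖ ^ 2 + ε ^ 2)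

theorem sx_pos (x : E3) {ε : ℝ} (hε : 0 < ε) (ω : E3) : 0 < sx x ε ω :=
  Real.sqrt_pos.2 (by positivity)

theorem le_sx (x : E3) (ε : ℝ) (ω : E3) : ‖x - ω‖ ≤ sx x ε ω := by
  unfold sx
  apply Real.le_sqrt_of_sq_le
  nlinarith [sq_nonneg ε]

theorem sx_sq (x : E3) (ε : ℝ) (ω : E3) : sx x ε ω ^ 2 = ‖x - ω‖ ^ 2 + ε ^ 2 :=
  Real.sq_sqrt (by positivity)

theorem Am_nonneg {μ s : ℝ} (h : 0 ≤ μ * s) : 0 ≤ Am μ s := by
  unfold Am
  have h1 : 1 + μ * s ≤ Real.exp (μ * s) := by linarith [Real.add_one_le_exp (μ * s)]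
  have h2 : Real.exp (-(μ * s)) * (1 + μ * s) ≤ Real.exp (-(μ * s)) * Real.exp (μ * s) := by
    gcongr
  rw [← Real.exp_add, neg_add_cancel, Real.exp_zero] at h2
  linarith

theorem Am_le {μ s : ℝ} (h : 0 ≤ μ * s) : Am μ s ≤ (μ * s) ^ 2 := by
  unfold Am
  have h1 : 1 - μ * s ≤ Real.exp (-(μ * s)) := by linarith [Real.add_one_le_exp (-(μ * s))]
  have h2 := mul_le_mul_of_nonneg_right h1 (by linarith : 0 ≤ 1 + μ * s)
  nlinarith

theorem L_nonneg {μ s : ℝ} (hμ : 0 < μ) (hs : 0 < s) : 0 ≤ (1 - Real.exp (-(μ * s))) / s := by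
  have : Real.exp (-(μ * s)) ≤ 1 := Real.exp_le_one_iff.2 (by nlinarith [mul_pos hμ hs])
  apply div_nonneg _ hs.le
  linarith

theorem L_le {μ s : ℝ} (hs : 0 < s) : (1 - Real.exp (-(μ * s))) / s ≤ μ := by
  rw [div_le_iff₀ hs]
  linarith [Real.add_one_le_exp (-(μ * s))]

theorem hasDerivAt_L (μ : ℝ) {s : ℝ} (hs : 0 < s) :
    HasDerivAt (fun s : ℝ => (1 - Real.exp (-(μ * s))) / s) (-(Am μ s) / s ^ 2) s := by
  have h0 : HasDerivAt (fun s : ℝ => -(μ * s)) (-(μ * 1)) s := ((hasDerivAt_id s).const_mul μ).neg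
  have h1 : HasDerivAt (fun s : ℝ => Real.exp (-(μ * s))) (Real.exp (-(μ * s)) * (-(μ * 1))) s :=
    h0.exp
  have h2 := (h1.const_sub 1).div (hasDerivAt_id s) hs.ne'
  refine h2.congr_deriv ?_
  simp only [Am, id]
  congr 1
  ring

theorem hasDerivAt_g (μ : ℝ) {s : ℝ} (hs : 0 < s) :
    HasDerivAt (fun s : ℝ => -(Am μ s) / s ^ 3)
      (-(μ ^ 2 * Real.exp (-(μ * s))) / s ^ 2 + 3 * Am μ s / s ^ 4) s := by
  have h0 : HasDerivAt (fun s : ℝ => -(μ * s)) (-(μ * 1)) s := ((hasDerivAt_id s).const_mul μ).neg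
  have h1 : HasDerivAt (fun s : ℝ => Real.exp (-(μ * s))) (Real.exp (-(μ * s)) * (-(μ * 1))) s :=
    h0.exp
  have h2 : HasDerivAt (fun s : ℝ => 1 + μ * s) (μ * 1) s :=
    ((hasDerivAt_id s).const_mul μ).const_add 1
  have h3 := (((h1.mul h2).const_sub 1).neg).div (hasDerivAt_pow 3 s) (pow_ne_zero 3 hs.ne')
  have h4 : HasDerivAt (fun s : ℝ => -(Am μ s) / s ^ 3) _ s := h3
  refine h4.congr_deriv ?_
  simp only [Am, Pi.mul_apply, Pi.sub_apply, Pi.neg_apply]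
  have := hs.ne'
  field_simp
  push_cast
  ring

theorem hasFDerivAt_sx (x : E3) {ε : ℝ} (hε : 0 < ε) (ω : E3) :
    HasFDerivAt (sx x ε) ((1 / sx x ε ω) • innerSL ℝ (ω - x)) ω := by
  have h1 : HasFDerivAt (fun ω : E3 => ω - x) (ContinuousLinearMap.id ℝ E3) ω :=
    (hasFDerivAt_id ω).sub_const x
  have h2 : HasFDerivAt (fun ω : E3 => ‖ω - x‖ ^ 2) (2 • innerSL ℝ (ω - x)) ω := by
    have := (hasStrictFDerivAt_norm_sq (ω - x)).hasFDerivAt.comp ω h1
    rw [ContinuousLinearMap.comp_id] at this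
    exact this
  have h3 : HasFDerivAt (fun ω : E3 => ‖x - ω‖ ^ 2 + ε ^ 2) (2 • innerSL ℝ (ω - x)) ω := by
    have := h2.add_const (ε ^ 2)
    refine this.congr_of_eventuallyEq (Filter.Eventually.of_forall fun w => ?_)
    simp only [norm_sub_rev x w]
  have h4 := h3.sqrt (by positivity)
  have h5 : HasFDerivAt (sx x ε) ((1 / (2 * √(‖x - ω‖ ^ 2 + ε ^ 2))) • (2 • innerSL ℝ (ω - x))) ω := h4
  refine h5.congr_fderiv ?_
  rw [two_smul ℕ, ← two_smul ℝ, smul_smul]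
  congr 1
  unfold sx
  have : √(‖x - ω‖ ^ 2 + ε ^ 2) ≠ 0 := (sx_pos x hε ω).ne'
  field_simp

theorem hasFDerivAt_comp {x : E3} {ε : ℝ} (hε : 0 < ε) {ω : E3} {φ : ℝ → ℝ} {φ' : ℝ}
    (h : HasDerivAt φ φ' (sx x ε ω)) :
    HasFDerivAt (fun ω => φ (sx x ε ω)) ((φ' / sx x ε ω) • innerSL ℝ (ω - x)) ω := by
  have := h.comp_hasFDerivAt ω (hasFDerivAt_sx x hε ω)
  refine this.congr_fderiv ?_
  rw [smul_smul]
  congr 1
  ring

/-- the approximations -/
noncomputable def uu {I : Type} [Fintype I] (c : I → ℝ) (x : I → E3) (μ pb ε : ℝ) (ω : E3) : ℝ :=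
  (∑ i, c i * ((1 - Real.exp (-(μ * sx (x i) ε ω))) / sx (x i) ε ω)) - pb

theorem hasFDerivAt_uu {I : Type} [Fintype I] (c : I → ℝ) (x : I → E3) (μ pb : ℝ) {ε : ℝ}
    (hε : 0 < ε) (ω : E3) :
    HasFDerivAt (uu c x μ pb ε)
      (∑ i, (c i * (-(Am μ (sx (x i) ε ω)) / sx (x i) ε ω ^ 3)) • innerSL ℝ (ω - x i)) ω := by
  have h1 : ∀ i ∈ (Finset.univ : Finset I), HasFDerivAt
      (fun ω => c i * ((1 - Real.exp (-(μ * sx (x i) ε ω))) / sx (x i) ε ω))
      ((c i * (-(Am μ (sx (x i) ε ω)) / sx (x i) ε ω ^ 3)) • innerSL ℝ (ω - x i)) ω := by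
    intro i _
    have h2 := (hasFDerivAt_comp (x := x i) hε
      (hasDerivAt_L μ (sx_pos (x i) hε ω))).const_mul (c i)
    refine h2.congr_fderiv ?_
    rw [smul_smul]
    congr 1
    have := (sx_pos (x i) hε ω).ne'
    field_simp
  have h3 := (HasFDerivAt.fun_sum h1).sub_const pb
  exact h3

theorem fderiv_uu {I : Type} [Fintype I] (c : I → ℝ) (x : I → E3) (μ pb : ℝ) {ε : ℝ}
    (hε : 0 < ε) (ω h : E3) :
    fderiv ℝ (uu c x μ pb ε) ω h =
      ∑ i, (c i * (-(Am μ (sx (x i) ε ω)) / sx (x i) ε ω ^ 3)) * inner ℝ (ω - x i) h := by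
  rw [(hasFDerivAt_uu c x μ pb hε ω).fderiv]
  simp [inner_sub_left]

theorem lap_uu {I : Type} [Fintype I] (c : I → ℝ) (x : I → E3) (μ pb : ℝ) {ε : ℝ}
    (hε : 0 < ε) (ω : E3) :
    lap (uu c x μ pb ε) ω =
      ∑ i, c i * (-(μ ^ 2 * Real.exp (-(μ * sx (x i) ε ω))) * ‖x i - ω‖ ^ 2 / sx (x i) ε ω ^ 3 -
        3 * Am μ (sx (x i) ε ω) * ε ^ 2 / sx (x i) ε ω ^ 5) := by
  unfold lap
  have h1 : ∀ k : Fin 3, HasFDerivAt
      (fun v => fderiv ℝ (uu c x μ pb ε) v (EuclideanSpace.single k (1 : ℝ)))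
      (∑ i, (c i • ((-(Am μ (sx (x i) ε ω)) / sx (x i) ε ω ^ 3) • EuclideanSpace.proj (𝕜 := ℝ) k +
        (ω k - x i k) • (((-(μ ^ 2 * Real.exp (-(μ * sx (x i) ε ω))) / sx (x i) ε ω ^ 2 +
          3 * Am μ (sx (x i) ε ω) / sx (x i) ε ω ^ 4) / sx (x i) ε ω) • innerSL ℝ (ω - x i))))) ω := by
    intro k
    have h2 : (fun v => fderiv ℝ (uu c x μ pb ε) v (EuclideanSpace.single k (1 : ℝ))) =
        fun v => ∑ i, c i * ((-(Am μ (sx (x i) ε v)) / sx (x i) ε v ^ 3) * (v k - x i k)) := by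
      funext v
      rw [fderiv_uu c x μ pb hε v]
      refine Finset.sum_congr rfl fun i _ => ?_
      rw [EuclideanSpace.inner_single_right]
      simp
      ring
    rw [h2]
    refine HasFDerivAt.fun_sum fun i _ => ?_
    have h3 := hasFDerivAt_comp (x := x i) hε (hasDerivAt_g μ (sx_pos (x i) hε ω))
    have h4 : HasFDerivAt (fun v : E3 => v k - x i k) (EuclideanSpace.proj (𝕜 := ℝ) k) ω :=
      (EuclideanSpace.proj (𝕜 := ℝ) k).hasFDerivAt.sub_const (x i k)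
    exact (h3.mul h4).const_mul (c i)
  have h5 : ∀ k : Fin 3, fderiv ℝ (fun v => fderiv ℝ (uu c x μ pb ε) v
      (EuclideanSpace.single k (1 : ℝ))) ω (EuclideanSpace.single k (1 : ℝ)) =
      ∑ i, (c i * ((-(Am μ (sx (x i) ε ω)) / sx (x i) ε ω ^ 3) +
        (ω k - x i k) ^ 2 * ((-(μ ^ 2 * Real.exp (-(μ * sx (x i) ε ω))) / sx (x i) ε ω ^ 2 +
          3 * Am μ (sx (x i) ε ω) / sx (x i) ε ω ^ 4) / sx (x i) ε ω))) := by
    intro k
    rw [(h1 k).fderiv]
    rw [ContinuousLinearMap.sum_apply]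
    refine Finset.sum_congr rfl fun i _ => ?_
    simp only [ContinuousLinearMap.smul_apply, ContinuousLinearMap.add_apply, innerSL_apply_apply,
      smul_eq_mul, EuclideanSpace.inner_single_right]
    simp
    left
    ring
  simp only [h5]
  rw [Finset.sum_comm]
  refine Finset.sum_congr rfl fun i _ => ?_
  rw [← Finset.mul_sum, Finset.sum_add_distrib, ← Finset.sum_mul]
  have h6 : ∑ k : Fin 3, (ω k - x i k) ^ 2 = ‖x i - ω‖ ^ 2 := by
    rw [EuclideanSpace.real_norm_sq_eq]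
    refine Finset.sum_congr rfl fun k _ => ?_
    simp
    ring
  rw [h6]
  simp only [Finset.sum_const, Finset.card_univ, Fintype.card_fin, nsmul_eq_mul]
  congr 1
  have h7 := sx_sq (x i) ε ω
  have h8 := (sx_pos (x i) hε ω).ne'
  set s := sx (x i) ε ω
  set a := Am μ s
  set e := Real.exp (-(μ * s))
  have h9 : ε ^ 2 = s ^ 2 - ‖x i - ω‖ ^ 2 := by linarith
  rw [h9]
  field_simp
  push_cast
  ring

theorem sx_smooth (x : E3) {ε : ℝ} (hε : 0 < ε) : ContDiff ℝ SM (sx x ε) := by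
  unfold sx
  refine ContDiff.sqrt ?_ (fun ω => by positivity)
  exact ((contDiff_const.sub contDiff_id).norm_sq ℝ).add contDiff_const

theorem uu_smooth {I : Type} [Fintype I] (c : I → ℝ) (x : I → E3) (μ pb : ℝ) {ε : ℝ}
    (hε : 0 < ε) : ContDiff ℝ SM (uu c x μ pb ε) := by
  unfold uu
  refine ContDiff.sub (ContDiff.sum fun i _ => ?_) contDiff_const
  refine contDiff_const.mul (ContDiff.div ?_ (sx_smooth (x i) hε) fun ω => (sx_pos (x i) hε ω).ne')
  exact contDiff_const.sub (Real.contDiff_exp.comp ((contDiff_const.mul (sx_smooth (x i) hε)).neg))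

theorem Lk_eq_dslope (μ : ℝ) (w : E3) :
    Lk μ w = dslope (fun s : ℝ => -Real.exp (-(μ * s))) 0 ‖w‖ := by
  unfold Lk
  have h0 : HasDerivAt (fun s : ℝ => -(μ * s)) (-(μ * 1)) 0 := ((hasDerivAt_id 0).const_mul μ).neg
  have h1 : HasDerivAt (fun s : ℝ => -Real.exp (-(μ * s)))
      (-(Real.exp (-(μ * 0)) * (-(μ * 1)))) 0 := h0.exp.neg
  by_cases hw : w = 0
  · rw [if_pos hw, hw, norm_zero, dslope_same, h1.deriv]
    simp
  · rw [if_neg hw, dslope_of_ne _ (by simpa using hw), slope_def_field]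
    simp
    ring

theorem dslope_cont (μ : ℝ) : Continuous (dslope (fun s : ℝ => -Real.exp (-(μ * s))) 0) := by
  rw [continuous_iff_continuousAt]
  intro s
  have h0 : Differentiable ℝ (fun s : ℝ => -Real.exp (-(μ * s))) := by fun_prop
  by_cases hs : s = 0
  · rw [hs, continuousAt_dslope_same]
    exact h0 0
  · rw [continuousAt_dslope_of_ne hs]
    exact (h0 s).continuousAt

theorem L_eq_dslope (μ : ℝ) {s : ℝ} (hs : 0 < s) :
    (1 - Real.exp (-(μ * s))) / s = dslope (fun s : ℝ => -Real.exp (-(μ * s))) 0 s := by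
  rw [dslope_of_ne _ hs.ne', slope_def_field]
  simp
  ring

theorem Lk_cont (μ : ℝ) : Continuous (Lk μ) := by
  have : Lk μ = fun w => dslope (fun s : ℝ => -Real.exp (-(μ * s))) 0 ‖w‖ :=
    funext (Lk_eq_dslope μ)
  rw [this]
  exact (dslope_cont μ).comp continuous_norm

theorem eps_pos (n : ℕ) : (0 : ℝ) < 1 / ((n : ℝ) + 1) := by positivity

theorem tendsto_sx (x ω : E3) :
    Filter.Tendsto (fun n : ℕ => sx x (1 / ((n : ℝ) + 1)) ω) Filter.atTop (𝓝 ‖x - ω‖) := by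
  have h1 : Filter.Tendsto (fun n : ℕ => 1 / ((n : ℝ) + 1)) Filter.atTop (𝓝 0) :=
    tendsto_one_div_add_atTop_nhds_zero_nat
  have h2 : Continuous (fun e : ℝ => √(‖x - ω‖ ^ 2 + e ^ 2)) := by fun_prop
  have h3 := (h2.tendsto 0).comp h1
  have h4 : √(‖x - ω‖ ^ 2 + (0 : ℝ) ^ 2) = ‖x - ω‖ := by
    rw [zero_pow two_ne_zero, add_zero, Real.sqrt_sq (norm_nonneg _)]
  rw [h4] at h3
  exact h3

theorem Gk_norm {μ : ℝ} (hμ : 0 < μ) (w : E3) : ‖Gk μ w‖ ≤ μ ^ 2 := by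
  unfold Gk
  rw [norm_smul]
  by_cases hw : w = 0
  · rw [hw]
    simp
    positivity
  · have hr : 0 < ‖w‖ := norm_pos_iff.2 hw
    have h0 : 0 ≤ μ * ‖w‖ := by positivity
    have h1 : (1 - Real.exp (-(μ * ‖w‖)) * (1 + μ * ‖w‖)) = Am μ ‖w‖ := rfl
    rw [h1, Real.norm_eq_abs, abs_of_nonneg (div_nonneg (Am_nonneg h0) (by positivity)),
      div_mul_eq_mul_div, div_le_iff₀ (by positivity)]
    have h2 := Am_le h0
    calc Am μ ‖w‖ * ‖w‖ ≤ (μ * ‖w‖) ^ 2 * ‖w‖ := by gcongr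
      _ = μ ^ 2 * ‖w‖ ^ 3 := by ring

theorem Lk_abs {μ : ℝ} (hμ : 0 < μ) (w : E3) : |Lk μ w| ≤ μ := by
  unfold Lk
  split_ifs with hw
  · rw [abs_of_pos hμ]
  · have hr : 0 < ‖w‖ := norm_pos_iff.2 hw
    rw [abs_of_nonneg (L_nonneg hμ hr)]
    exact L_le hr

theorem approx_v {I : Type} [Fintype I] (c : I → ℝ) (x : I → E3) (μ pb : ℝ) (hμ : 0 < μ) :
    ∃ (u : ℕ → E3 → ℝ) (B : ℝ), 0 ≤ B ∧ (∀ n, ContDiff ℝ SM (u n)) ∧ (∀ n ω, |u n ω| ≤ B) ∧
      (∀ n ω, ‖fderiv ℝ (u n) ω‖ ≤ B) ∧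
      (∀ n ω, (∀ i, x i ≠ ω) → |lap (u n) ω| ≤ B * ∑ i, ‖x i - ω‖⁻¹) ∧
      (∀ ω, Filter.Tendsto (fun n => u n ω) Filter.atTop (𝓝 (vp c x μ pb ω))) ∧
      (∀ ω, (∀ i, x i ≠ ω) → ∀ h : E3, Filter.Tendsto (fun n => fderiv ℝ (u n) ω h) Filter.atTop
        (𝓝 (inner ℝ (gp c x μ ω) h))) ∧
      (∀ ω, (∀ i, x i ≠ ω) → Filter.Tendsto (fun n => lap (u n) ω) Filter.atTop
        (𝓝 (-(μ ^ 2 * yp c x μ ω)))) := by
  have hC : 0 ≤ ∑ i, |c i| := Finset.sum_nonneg fun i _ => abs_nonneg _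
  refine ⟨fun n => uu c x μ pb (1 / ((n : ℝ) + 1)), (∑ i, |c i|) * (μ + 4 * μ ^ 2) + |pb|,
    by positivity, fun n => uu_smooth c x μ pb (eps_pos n), ?_, ?_, ?_, ?_, ?_, ?_⟩
  · intro n ω
    have h1 : |∑ i, c i * ((1 - Real.exp (-(μ * sx (x i) (1 / ((n : ℝ) + 1)) ω))) /
        sx (x i) (1 / ((n : ℝ) + 1)) ω)| ≤ (∑ i, |c i|) * μ := by
      rw [Finset.sum_mul]
      refine (Finset.abs_sum_le_sum_abs _ _).trans (Finset.sum_le_sum fun i _ => ?_)
      rw [abs_mul]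
      have hs := sx_pos (x i) (eps_pos n) ω
      rw [abs_of_nonneg (L_nonneg hμ hs)]
      exact mul_le_mul_of_nonneg_left (L_le hs) (abs_nonneg _)
    unfold uu
    refine (abs_sub _ _).trans ?_
    have h2 : (∑ i, |c i|) * μ ≤ (∑ i, |c i|) * (μ + 4 * μ ^ 2) := by
      gcongr
      nlinarith [sq_nonneg μ]
    linarith
  · intro n ω
    rw [(hasFDerivAt_uu c x μ pb (eps_pos n) ω).fderiv]
    have h1 : ‖∑ i, (c i * (-(Am μ (sx (x i) (1 / ((n : ℝ) + 1)) ω)) /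
        sx (x i) (1 / ((n : ℝ) + 1)) ω ^ 3)) • innerSL ℝ (ω - x i)‖ ≤ (∑ i, |c i|) * μ ^ 2 := by
      rw [Finset.sum_mul]
      refine (norm_sum_le _ _).trans (Finset.sum_le_sum fun i _ => ?_)
      have hs := sx_pos (x i) (eps_pos n) ω
      have hr := le_sx (x i) (1 / ((n : ℝ) + 1)) ω
      set s := sx (x i) (1 / ((n : ℝ) + 1)) ω
      have h0 : 0 ≤ μ * s := by positivity
      rw [norm_smul, norm_mul, Real.norm_eq_abs, mul_assoc]
      refine mul_le_mul_of_nonneg_left ?_ (abs_nonneg _)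
      rw [innerSL_apply_norm, Real.norm_eq_abs, neg_div, abs_neg,
        abs_of_nonneg (div_nonneg (Am_nonneg h0) (by positivity)), norm_sub_rev,
        div_mul_eq_mul_div, div_le_iff₀ (by positivity)]
      calc Am μ s * ‖x i - ω‖ ≤ (μ * s) ^ 2 * s :=
            mul_le_mul (Am_le h0) hr (norm_nonneg _) (by positivity)
        _ = μ ^ 2 * s ^ 3 := by ring
    have h2 : (∑ i, |c i|) * μ ^ 2 ≤ (∑ i, |c i|) * (μ + 4 * μ ^ 2) := by
      gcongr
      nlinarith [sq_nonneg μ]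
    have h3 := abs_nonneg pb
    linarith
  · intro n ω hω
    rw [lap_uu c x μ pb (eps_pos n) ω]
    set C := ∑ i, |c i| with hCdef
    have h1 : ∀ i, |c i| ≤ C := fun i =>
      Finset.single_le_sum (f := fun i => |c i|) (fun j _ => abs_nonneg _) (Finset.mem_univ i)
    rw [Finset.mul_sum]
    refine (Finset.abs_sum_le_sum_abs _ _).trans (Finset.sum_le_sum fun i _ => ?_)
    have hs := sx_pos (x i) (eps_pos n) ω
    have hr := le_sx (x i) (1 / ((n : ℝ) + 1)) ω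
    have hq := sx_sq (x i) (1 / ((n : ℝ) + 1)) ω
    have hr0 : 0 < ‖x i - ω‖ := norm_pos_iff.2 (sub_ne_zero.2 (hω i))
    set s := sx (x i) (1 / ((n : ℝ) + 1)) ω
    set r := ‖x i - ω‖
    set ε := 1 / ((n : ℝ) + 1) with hε
    have h0 : 0 ≤ μ * s := by positivity
    have hA := Am_le h0
    have hA0 := Am_nonneg h0
    have he : Real.exp (-(μ * s)) ≤ 1 := Real.exp_le_one_iff.2 (by linarith)
    have he0 := Real.exp_pos (-(μ * s))
    rw [abs_mul]
    have h2 : |(-(μ ^ 2 * Real.exp (-(μ * s))) * r ^ 2 / s ^ 3 - 3 * Am μ s * ε ^ 2 / s ^ 5)| ≤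
        4 * μ ^ 2 * r⁻¹ := by
      have h3 : (-(μ ^ 2 * Real.exp (-(μ * s))) * r ^ 2 / s ^ 3 - 3 * Am μ s * ε ^ 2 / s ^ 5) =
          -((μ ^ 2 * Real.exp (-(μ * s))) * r ^ 2 / s ^ 3 + 3 * Am μ s * ε ^ 2 / s ^ 5) := by ring
      rw [h3, abs_neg, abs_of_nonneg (by positivity)]
      have h4 : (μ ^ 2 * Real.exp (-(μ * s))) * r ^ 2 / s ^ 3 ≤ μ ^ 2 * s⁻¹ := by
        rw [div_le_iff₀ (by positivity)]
        have : μ ^ 2 * s⁻¹ * s ^ 3 = μ ^ 2 * s ^ 2 := by field_simp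
        rw [this]
        have h5 : r ^ 2 ≤ s ^ 2 := by gcongr
        calc μ ^ 2 * Real.exp (-(μ * s)) * r ^ 2 ≤ μ ^ 2 * 1 * s ^ 2 := by gcongr
          _ = μ ^ 2 * s ^ 2 := by ring
      have h6 : 3 * Am μ s * ε ^ 2 / s ^ 5 ≤ 3 * μ ^ 2 * s⁻¹ := by
        rw [div_le_iff₀ (by positivity)]
        have : 3 * μ ^ 2 * s⁻¹ * s ^ 5 = 3 * (μ * s) ^ 2 * s ^ 2 := by field_simp
        rw [this]
        have h5 : ε ^ 2 ≤ s ^ 2 := by nlinarith [sq_nonneg r]
        gcongr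
      have h7 : s⁻¹ ≤ r⁻¹ := by gcongr
      have h8 : μ ^ 2 * s⁻¹ ≤ μ ^ 2 * r⁻¹ := by gcongr
      nlinarith
    calc |c i| * |(-(μ ^ 2 * Real.exp (-(μ * s))) * r ^ 2 / s ^ 3 - 3 * Am μ s * ε ^ 2 / s ^ 5)|
        ≤ C * (4 * μ ^ 2 * r⁻¹) := mul_le_mul (h1 i) h2 (abs_nonneg _) hC
      _ = (C * (4 * μ ^ 2)) * r⁻¹ := by ring
      _ ≤ (C * (μ + 4 * μ ^ 2) + |pb|) * r⁻¹ := by
        have : C * (4 * μ ^ 2) ≤ C * (μ + 4 * μ ^ 2) := by
          gcongr
          linarith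
        have h3 := abs_nonneg pb
        gcongr
        linarith
  · intro ω
    unfold uu vp
    refine Filter.Tendsto.sub_const (tendsto_finset_sum _ fun i _ => ?_) _
    refine Filter.Tendsto.const_mul _ ?_
    rw [Lk_eq_dslope]
    have h1 := ((dslope_cont μ).tendsto ‖x i - ω‖).comp (tendsto_sx (x i) ω)
    refine h1.congr fun n => ?_
    rw [L_eq_dslope μ (sx_pos (x i) (eps_pos n) ω)]
    rfl
  · intro ω hω h
    simp only [fderiv_uu c x μ pb (eps_pos _) ω]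
    unfold gp
    rw [sum_inner]
    refine tendsto_finset_sum _ fun i _ => ?_
    have hr0 : 0 < ‖x i - ω‖ := norm_pos_iff.2 (sub_ne_zero.2 (hω i))
    have h1 : ContinuousAt (fun s : ℝ => (c i * (-(Am μ s) / s ^ 3)) * inner ℝ (ω - x i) h)
        ‖x i - ω‖ := by
      have := (hasDerivAt_g μ hr0).continuousAt
      exact (continuousAt_const.mul this).mul continuousAt_const
    have h2 := h1.tendsto.comp (tendsto_sx (x i) ω)
    have h3 : inner ℝ (c i • Gk μ (x i - ω)) h =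
        (c i * (-(Am μ ‖x i - ω‖) / ‖x i - ω‖ ^ 3)) * inner ℝ (ω - x i) h := by
      unfold Gk Am
      rw [real_inner_smul_left, real_inner_smul_left, ← neg_sub ω (x i), inner_neg_left, norm_neg]
      ring
    rw [h3]
    exact h2
  · intro ω hω
    simp only [lap_uu c x μ pb (eps_pos _) ω]
    unfold yp
    rw [Finset.mul_sum, ← Finset.sum_neg_distrib]
    refine tendsto_finset_sum _ fun i _ => ?_
    have hr0 : 0 < ‖x i - ω‖ := norm_pos_iff.2 (sub_ne_zero.2 (hω i))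
    have hA : ContinuousAt (Am μ) ‖x i - ω‖ := by
      unfold Am
      fun_prop
    have h1 : ContinuousAt (fun p : ℝ × ℝ => c i * (-(μ ^ 2 * Real.exp (-(μ * p.1))) *
        ‖x i - ω‖ ^ 2 / p.1 ^ 3 - 3 * Am μ p.1 * p.2 ^ 2 / p.1 ^ 5)) (‖x i - ω‖, 0) := by
      have hA' : ContinuousAt (fun p : ℝ × ℝ => Am μ p.1) (‖x i - ω‖, 0) := by
        unfold Am
        fun_prop
      refine continuousAt_const.mul (ContinuousAt.sub (ContinuousAt.div ?_ ?_ ?_)
        (ContinuousAt.div ?_ ?_ ?_))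
      · fun_prop
      · fun_prop
      · exact pow_ne_zero 3 hr0.ne'
      · exact (continuousAt_const.mul hA').mul (by fun_prop)
      · fun_prop
      · exact pow_ne_zero 5 hr0.ne'
    have h2 := h1.tendsto.comp ((tendsto_sx (x i) ω).prodMk_nhds
      (tendsto_one_div_add_atTop_nhds_zero_nat (𝕜 := ℝ)))
    have h3 : -(μ ^ 2 * (c i * Yk μ (x i - ω))) = c i * (-(μ ^ 2 * Real.exp (-(μ * ‖x i - ω‖))) *
        ‖x i - ω‖ ^ 2 / ‖x i - ω‖ ^ 3 - 3 * Am μ ‖x i - ω‖ * (0 : ℝ) ^ 2 / ‖x i - ω‖ ^ 5) := by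
      unfold Yk
      have := hr0.ne'
      field_simp
      ring
    rw [h3]
    exact h2

/-- the inverse square is locally integrable -/
theorem locInt_inv2 : LocallyIntegrable (fun w : E3 => ‖w‖⁻¹ ^ 2) volume := by
  intro x
  refine ⟨Metric.ball 0 (‖x‖ + 1), Metric.isOpen_ball.mem_nhds (by simp), ?_⟩
  set R : ℝ := ‖x‖ + 1 with hR
  have hRpos : 0 < R := by positivity
  have key : Integrable (fun w : E3 => (Set.Iio R).indicator (fun r : ℝ => r⁻¹ ^ 2) ‖w‖)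
      volume := by
    rw [integrable_fun_norm_addHaar (μ := (volume : Measure E3))
      (f := (Set.Iio R).indicator (fun r : ℝ => r⁻¹ ^ 2))]
    have hd : Module.finrank ℝ E3 - 1 = 2 := by simp
    rw [hd]
    have h1 : IntegrableOn (fun y : ℝ => (Set.Iio R).indicator (fun _ : ℝ => (1 : ℝ)) y)
        (Set.Ioi 0) := by
      rw [IntegrableOn, integrable_indicator_iff measurableSet_Iio, IntegrableOn,
        Measure.restrict_restrict measurableSet_Iio]
      have : Set.Iio R ∩ Set.Ioi 0 = Set.Ioo 0 R := by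
        ext t; simp [and_comm]
      rw [this]
      exact (continuous_const.integrableOn_Icc (a := 0) (b := R)).mono_set Set.Ioo_subset_Icc_self
    refine h1.congr_fun ?_ measurableSet_Ioi
    intro y hy
    have hy0 : (0 : ℝ) < y := hy
    by_cases hyR : y < R
    · simp only [Set.indicator, Set.mem_Iio, hyR, if_true, smul_eq_mul]
      field_simp
    · simp [Set.indicator, hyR]
  have h2 : Integrable ((Metric.ball (0 : E3) R).indicator (fun w : E3 => ‖w‖⁻¹ ^ 2)) volume := by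
    refine key.congr (Filter.Eventually.of_forall fun w => ?_)
    by_cases hw : ‖w‖ < R
    · simp [Set.indicator, hw]
    · simp [Set.indicator, hw]
  exact (integrable_indicator_iff Metric.isOpen_ball.measurableSet).1 h2

theorem intOn_inv2 (p y0 : E3) (R : ℝ) :
    IntegrableOn (fun ω : E3 => ‖p - ω‖⁻¹ ^ 2) (Metric.closedBall y0 R) := by
  have h0 := (locallyIntegrable_iff.1 locInt_inv2)
    (Metric.closedBall (p - y0) R) (isCompact_closedBall _ _)
  have h1 := (integrable_indicator_iff Metric.isClosed_closedBall.measurableSet).2 h0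
  have h2 := h1.comp_sub_left p
  refine (integrable_indicator_iff Metric.isClosed_closedBall.measurableSet).1 ?_
  refine h2.congr (Filter.Eventually.of_forall fun z => ?_)
  have hz : p - z ∈ Metric.closedBall (p - y0) R ↔ z ∈ Metric.closedBall y0 R := by
    rw [Metric.mem_closedBall, Metric.mem_closedBall, dist_sub_left]
  by_cases h : z ∈ Metric.closedBall y0 R
  · rw [Set.indicator_of_mem h]
    exact Set.indicator_of_mem (hz.2 h) _
  · rw [Set.indicator_of_notMem h]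
    exact Set.indicator_of_notMem (fun h' => h (hz.1 h')) _

theorem Yk_sq {μ : ℝ} (hμ : 0 < μ) (w : E3) : Yk μ w ^ 2 ≤ ‖w‖⁻¹ ^ 2 := by
  unfold Yk
  rw [div_eq_mul_inv, mul_pow]
  have : Real.exp (-(μ * ‖w‖)) ≤ 1 := Real.exp_le_one_iff.2 (by
    have := norm_nonneg w
    nlinarith)
  have h0 := Real.exp_pos (-(μ * ‖w‖))
  have h2 : Real.exp (-(μ * ‖w‖)) ^ 2 ≤ 1 := pow_le_one₀ h0.le this
  have h3 : 0 ≤ ‖w‖⁻¹ ^ 2 := by positivity
  nlinarith

theorem Yk_meas (μ : ℝ) : Measurable (Yk μ) := by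
  unfold Yk
  fun_prop

theorem Gk_meas (μ : ℝ) : Measurable (Gk μ) := by
  unfold Gk
  fun_prop

theorem kern_facts {I : Type} [Fintype I] (c : I → ℝ) (x : I → E3) (μ pb : ℝ) (hμ : 0 < μ) :
    Continuous (vp c x μ pb) ∧ Measurable (gp c x μ) ∧ Measurable (yp c x μ) ∧
      (∃ B, ∀ ω, |vp c x μ pb ω| ≤ B ∧ ‖gp c x μ ω‖ ≤ B) ∧
      (∀ (y0 : E3) (R : ℝ), IntegrableOn (fun ω => yp c x μ ω ^ 2) (Metric.closedBall y0 R)) := by
  have hC : 0 ≤ ∑ i, |c i| := Finset.sum_nonneg fun i _ => abs_nonneg _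
  have hy : Measurable (yp c x μ) := by
    unfold yp
    refine Finset.measurable_fun_sum _ fun i _ => ?_
    exact ((Yk_meas μ).comp (measurable_const.sub measurable_id)).const_mul (c i)
  refine ⟨?_, ?_, hy, ?_, ?_⟩
  · unfold vp
    refine Continuous.sub (continuous_finset_sum _ fun i _ => ?_) continuous_const
    exact continuous_const.mul ((Lk_cont μ).comp (continuous_const.sub continuous_id))
  · unfold gp
    refine Finset.measurable_fun_sum _ fun i _ => ?_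
    exact ((Gk_meas μ).comp (measurable_const.sub measurable_id)).const_smul (c i)
  · refine ⟨(∑ i, |c i|) * (μ + μ ^ 2) + |pb|, fun ω => ⟨?_, ?_⟩⟩
    · unfold vp
      refine (abs_sub _ _).trans ?_
      have h1 : |∑ i, c i * Lk μ (x i - ω)| ≤ (∑ i, |c i|) * μ := by
        rw [Finset.sum_mul]
        refine (Finset.abs_sum_le_sum_abs _ _).trans (Finset.sum_le_sum fun i _ => ?_)
        rw [abs_mul]
        exact mul_le_mul_of_nonneg_left (Lk_abs hμ _) (abs_nonneg _)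
      have h2 : (∑ i, |c i|) * μ ≤ (∑ i, |c i|) * (μ + μ ^ 2) := by
        gcongr
        nlinarith [sq_nonneg μ]
      linarith
    · unfold gp
      have h1 : ‖∑ i, c i • Gk μ (x i - ω)‖ ≤ (∑ i, |c i|) * μ ^ 2 := by
        rw [Finset.sum_mul]
        refine (norm_sum_le _ _).trans (Finset.sum_le_sum fun i _ => ?_)
        rw [norm_smul, Real.norm_eq_abs]
        exact mul_le_mul_of_nonneg_left (Gk_norm hμ _) (abs_nonneg _)
      have h2 : (∑ i, |c i|) * μ ^ 2 ≤ (∑ i, |c i|) * (μ + μ ^ 2) := by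
        gcongr
        linarith
      have h3 := abs_nonneg pb
      linarith
  · intro y0 R
    have h1 : IntegrableOn (fun ω : E3 => ((Fintype.card I : ℝ)) * ∑ i, c i ^ 2 * ‖x i - ω‖⁻¹ ^ 2)
        (Metric.closedBall y0 R) := by
      refine Integrable.const_mul ?_ _
      refine integrable_finset_sum _ fun i _ => ?_
      exact (intOn_inv2 (x i) y0 R).const_mul _
    refine Integrable.mono' h1 (hy.pow_const 2).aestronglyMeasurable ?_
    refine Filter.Eventually.of_forall fun ω => ?_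
    rw [Real.norm_eq_abs, abs_of_nonneg (sq_nonneg _)]
    unfold yp
    have h2 := sq_sum_le_card_mul_sum_sq (s := (Finset.univ : Finset I))
      (f := fun i => c i * Yk μ (x i - ω))
    refine h2.trans ?_
    rw [Finset.card_univ]
    refine mul_le_mul_of_nonneg_left (Finset.sum_le_sum fun i _ => ?_) (Nat.cast_nonneg _)
    rw [mul_pow]
    exact mul_le_mul_of_nonneg_left (Yk_sq hμ _) (sq_nonneg _)

end Pool.Agent.Helper780_CP.RB1
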