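import Pool.Agent.Helper780_CP.LLDefs2
import Pool.Agent.Helper780_CP.BnDefs
import Pool.Agent.Helper780_CP.RK1
import Pool.Agent.Helper780_CP.RB1

set_option autoImplicit false

open MeasureTheory
open scoped Topology

namespace Pool.Agent.Helper780_CP.RB2

open Pool.Agent.Helper780_CP
open Pool.Agent.Helper985.CP
open Pool.Agent.Helper780_CP.RB1 (approx_v kern_facts)

open Pool.Agent.Helper780_CP Pool.Agent.Helper985.CP

/-- basis vectors -/
noncomputable abbrev ek (k : Fin 3) : E3 := EuclideanSpace.single k (1 : ℝ)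

theorem D_sm {f : E3 → ℝ} (hf : ContDiff ℝ SM f) (v : E3) :
    ContDiff ℝ SM (fun z => fderiv ℝ f z v) :=
  (hf.fderiv_right (m := SM) (by norm_cast)).clm_apply contDiff_const

theorem lap_cont {f : E3 → ℝ} (hf : ContDiff ℝ SM f) : Continuous (lap f) := by
  unfold lap
  exact continuous_finsetSum _ fun k _ => (D_sm (D_sm hf _) _).continuous

theorem lap_supp {f : E3 → ℝ} (hs : HasCompactSupport f) : HasCompactSupport (lap f) := by
  refine HasCompactSupport.intro hs.isCompact (fun z hz => ?_)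
  unfold lap
  apply Finset.sum_eq_zero
  intro k _
  have h1 : z ∉ tsupport (fun v => fderiv ℝ f v (EuclideanSpace.single k (1 : ℝ))) := by
    intro h
    exact hz (tsupport_fderiv_apply_subset ℝ _ h)
  have h2 : fderiv ℝ (fun v => fderiv ℝ f v (EuclideanSpace.single k (1 : ℝ))) z = 0 := by
    by_contra h3
    exact h1 (support_fderiv_subset ℝ h3)
  rw [h2]
  rfl

theorem dual_expand (L : E3 →L[ℝ] ℝ) (v : E3) : L v = ∑ k, v k * L (ek k) := by
  conv_lhs => rw [← (EuclideanSpace.basisFun (Fin 3) ℝ).sum_repr v]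
  simp [map_sum, EuclideanSpace.basisFun_apply, ek]

theorem inner_ek (v : E3) (k : Fin 3) : inner ℝ v (ek k) = v k := by
  simp [ek, EuclideanSpace.inner_single_right]

theorem ek_norm (k : Fin 3) : ‖ek k‖ = 1 := by
  simp [ek]


theorem ae_ne {I : Type} [Fintype I] (x : I → E3) : ∀ᵐ ω : E3, ∀ i, x i ≠ ω := by
  rw [ae_all_iff]
  intro i
  rw [ae_iff]
  have : {a : E3 | ¬ x i ≠ a} = {x i} := by
    ext a
    simp [eq_comm]
  rw [this]
  simp

theorem dom_int {I : Type} [Fintype I] (x : I → E3) (K : Set E3) (hK : IsCompact K) (A : ℝ) :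
    Integrable (K.indicator (fun ω => A * (1 + ∑ i, ‖x i - ω‖⁻¹ ^ 2))) := by
  rw [integrable_indicator_iff hK.measurableSet]
  apply Integrable.const_mul
  apply Integrable.add
  · exact continuous_const.continuousOn.integrableOn_compact hK
  · apply integrable_finsetSum
    intro i _
    have h := (locInt_shift locInt_inv2 (x i)).integrableOn_isCompact hK
    refine h.congr (Filter.Eventually.of_forall fun ω => ?_)
    simp only [norm_sub_rev]

theorem int_of_dom {I : Type} [Fintype I] (x : I → E3) (K : Set E3) (hK : IsCompact K) (A : ℝ)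
    (g : E3 → ℝ) (hg : AEStronglyMeasurable g volume)
    (hb : ∀ ω, (∀ i, x i ≠ ω) → |g ω| ≤ A * (1 + ∑ i, ‖x i - ω‖⁻¹ ^ 2))
    (hs : ∀ ω, ω ∉ K → g ω = 0) : Integrable g := by
  refine (dom_int x K hK A).mono' hg ?_
  filter_upwards [ae_ne x] with ω hω
  by_cases h : ω ∈ K
  · rw [Set.indicator_of_mem h]
    exact hb ω hω
  · rw [Set.indicator_of_notMem h, hs ω h, norm_zero]

theorem S_le {I : Type} [Fintype I] (r : I → ℝ) :
    ∑ i, r i ≤ (Fintype.card I + 1) * (1 + ∑ i, r i ^ 2) ∧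
    (∑ i, r i) ^ 2 ≤ (Fintype.card I + 1) * (1 + ∑ i, r i ^ 2) := by
  have hQ : 0 ≤ ∑ i, r i ^ 2 := Finset.sum_nonneg fun i _ => sq_nonneg _
  have hN : (0 : ℝ) ≤ Fintype.card I := Nat.cast_nonneg _
  constructor
  · have h1 : ∑ i, r i ≤ ∑ i, (1 + r i ^ 2) := by
      apply Finset.sum_le_sum
      intro i _
      nlinarith [sq_nonneg (r i - 1), sq_nonneg (r i)]
    rw [Finset.sum_add_distrib] at h1
    simp only [Finset.sum_const, Finset.card_univ, nsmul_eq_mul, mul_one] at h1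
    nlinarith
  · have h1 := sq_sum_le_card_mul_sum_sq (s := (Finset.univ : Finset I)) (f := r)
    rw [Finset.card_univ] at h1
    nlinarith

theorem Yk_le (μ : ℝ) (hμ : 0 < μ) (w : E3) : |Yk μ w| ≤ ‖w‖⁻¹ := by
  unfold Yk
  rw [abs_div, abs_of_pos (Real.exp_pos _), abs_of_nonneg (norm_nonneg _), div_eq_mul_inv]
  have h1 : Real.exp (-(μ * ‖w‖)) ≤ 1 := by
    rw [Real.exp_le_one_iff]
    have := mul_nonneg hμ.le (norm_nonneg w)
    linarith
  exact mul_le_of_le_one_left (inv_nonneg.2 (norm_nonneg _)) h1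

theorem yp_le {I : Type} [Fintype I] (c : I → ℝ) (x : I → E3) (μ : ℝ) (hμ : 0 < μ) (ω : E3) :
    |yp c x μ ω| ≤ (∑ i, |c i|) * ∑ i, ‖x i - ω‖⁻¹ := by
  unfold yp
  refine (Finset.abs_sum_le_sum_abs _ _).trans ?_
  rw [Finset.mul_sum]
  apply Finset.sum_le_sum
  intro i hi
  rw [abs_mul]
  apply mul_le_mul _ (Yk_le μ hμ _) (abs_nonneg _) (Finset.sum_nonneg fun _ _ => abs_nonneg _)
  exact Finset.single_le_sum (f := fun i => |c i|) (fun _ _ => abs_nonneg _) hi

/-- the radial example -/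
theorem ex_lap (g : ℝ → ℝ) (hg : ContDiff ℝ SM g) (w : E3) :
    lap (fun v => g (‖v‖ ^ 2)) w = 4 * deriv (deriv g) (‖w‖ ^ 2) * ‖w‖ ^ 2 + 6 * deriv g (‖w‖ ^ 2) := by
  have hd : ContDiff ℝ SM (deriv g) := by
    have := contDiff_infty_iff_deriv.1 hg
    exact this.2
  have h1 : ∀ (h : ℝ → ℝ), ContDiff ℝ SM h → ∀ v e : E3,
      fderiv ℝ (fun v : E3 => h (‖v‖ ^ 2)) v e = deriv h (‖v‖ ^ 2) * (2 * inner ℝ v e) := by
    intro h hh v e
    have e1 : HasFDerivAt (fun v : E3 => ‖v‖ ^ 2) (2 • (innerSL ℝ v)) v :=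
      (hasStrictFDerivAt_norm_sq v).hasFDerivAt
    have e2 : HasDerivAt h (deriv h (‖v‖ ^ 2)) (‖v‖ ^ 2) :=
      ((hh.differentiable (by simp)) _).hasDerivAt
    have e3 := e2.comp_hasFDerivAt v e1
    have e4 : fderiv ℝ (fun v : E3 => h (‖v‖ ^ 2)) v = deriv h (‖v‖ ^ 2) • (2 • (innerSL ℝ v)) := e3.fderiv
    rw [e4]
    simp
  have h2 : ∀ k : Fin 3, fderiv ℝ (fun v => fderiv ℝ (fun v : E3 => g (‖v‖ ^ 2)) v (ek k)) w (ek k) =
      4 * deriv (deriv g) (‖w‖ ^ 2) * (w k) ^ 2 + 2 * deriv g (‖w‖ ^ 2) := by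
    intro k
    have e0 : (fun v => fderiv ℝ (fun v : E3 => g (‖v‖ ^ 2)) v (ek k)) =
        fun v => deriv g (‖v‖ ^ 2) * (2 * inner ℝ v (ek k)) := by
      funext v
      exact h1 g hg v _
    rw [e0]
    have d1 : DifferentiableAt ℝ (fun v : E3 => deriv g (‖v‖ ^ 2)) w := by
      have : ContDiff ℝ SM (fun v : E3 => deriv g (‖v‖ ^ 2)) := hd.comp (contDiff_norm_sq ℝ)
      exact (this.differentiable (by simp)) w
    have hL : (fun v : E3 => 2 * inner ℝ v (ek k)) = ((2 : ℝ) • (innerSL ℝ (ek k)) : E3 →L[ℝ] ℝ) := by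
      funext v
      simp [real_inner_comm]
    have d2 : DifferentiableAt ℝ (fun v : E3 => 2 * inner ℝ v (ek k)) w := by
      rw [hL]
      exact ((2 : ℝ) • (innerSL ℝ (ek k)) : E3 →L[ℝ] ℝ).differentiableAt
    rw [fderiv_fun_mul d1 d2]
    have e5 : fderiv ℝ (fun v : E3 => 2 * inner ℝ v (ek k)) w (ek k) = 2 := by
      rw [hL, ContinuousLinearMap.fderiv]
      simp [ek]
    simp only [add_apply, smul_apply, smul_eq_mul]
    rw [h1 (deriv g) hd w (ek k), e5, inner_ek]
    ring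
  unfold lap
  have h3 : ∑ k : Fin 3, fderiv ℝ (fun v => fderiv ℝ (fun v : E3 => g (‖v‖ ^ 2)) v
      (EuclideanSpace.single k (1 : ℝ))) w (EuclideanSpace.single k (1 : ℝ)) =
      ∑ k : Fin 3, (4 * deriv (deriv g) (‖w‖ ^ 2) * (w k) ^ 2 + 2 * deriv g (‖w‖ ^ 2)) :=
    Finset.sum_congr rfl fun k _ => h2 k
  rw [h3, EuclideanSpace.norm_sq_eq, Finset.sum_add_distrib, ← Finset.mul_sum]
  simp only [Finset.sum_const, Finset.card_univ, Fintype.card_fin, nsmul_eq_mul, Real.norm_eq_abs, sq_abs]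
  push_cast
  ring


theorem ex_int : ∃ f : E3 → ℝ, ContDiff ℝ SM f ∧ HasCompactSupport f ∧ f 0 = 1 ∧
    ∫ w, lap f w / ‖w‖ = -(4 * Real.pi) := by
  obtain ⟨g, hgd⟩ : ∃ g : ℝ → ℝ, g = fun s => Real.smoothTransition (1 - s) := ⟨_, rfl⟩
  have hg : ContDiff ℝ SM g := by
    rw [hgd]
    exact (Real.smoothTransition.contDiff (n := ((⊤ : ℕ∞)))).comp (contDiff_const.sub contDiff_id)
  have hg1 : ∀ s, 1 ≤ s → g s = 0 := by
    intro s hs
    rw [hgd]
    exact Real.smoothTransition.zero_of_nonpos (by linarith)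
  have hg2 : ∀ s, 1 < s → deriv g s = 0 := by
    intro s hs
    have : g =ᶠ[𝓝 s] fun _ => (0 : ℝ) := by
      filter_upwards [lt_mem_nhds hs] with t ht
      exact hg1 t (le_of_lt ht)
    rw [this.deriv_eq]
    simp
  have hg0 : g 0 = 1 := by
    rw [hgd]
    exact Real.smoothTransition.one_of_one_le (by norm_num)
  have hd : ContDiff ℝ SM (deriv g) := by
    have := contDiff_infty_iff_deriv.1 hg
    exact this.2
  refine ⟨fun v => g (‖v‖ ^ 2), hg.comp (contDiff_norm_sq ℝ), ?_, ?_, ?_⟩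
  · refine HasCompactSupport.intro (isCompact_closedBall (0 : E3) 1) (fun v hv => ?_)
    rw [Metric.mem_closedBall, dist_zero_right, not_le] at hv
    exact hg1 _ (by nlinarith)
  · simp [hg0]
  · obtain ⟨G, hG⟩ : ∃ G : ℝ → ℝ, G = fun r => 2 * r ^ 2 * deriv g (r ^ 2) + g (r ^ 2) := ⟨_, rfl⟩
    have hGs : ContDiff ℝ 1 G := by
      rw [hG]
      have h1 : ContDiff ℝ SM (fun r : ℝ => r ^ 2) := contDiff_id.pow 2
      have h2 : ContDiff ℝ SM (fun r : ℝ => 2 * r ^ 2 * deriv g (r ^ 2) + g (r ^ 2)) :=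
        ((contDiff_const.mul h1).mul (hd.comp h1)).add (hg.comp h1)
      exact h2.of_le (by norm_cast)
    have hGc : HasCompactSupport G := by
      refine HasCompactSupport.intro (isCompact_Icc (a := (-1 : ℝ)) (b := 1)) (fun r hr => ?_)
      have h1 : 1 < r ^ 2 := by
        rw [one_lt_sq_iff_one_lt_abs]
        by_contra h
        push Not at h
        exact hr (abs_le.1 h)
      rw [hG]
      simp only
      rw [hg2 _ h1, hg1 _ h1.le]
      ring
    have hGd : ∀ r, deriv G r = r * (4 * deriv (deriv g) (r ^ 2) * r ^ 2 + 6 * deriv g (r ^ 2)) := by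
      intro r
      have h0 : HasDerivAt (fun r : ℝ => r ^ 2) (2 * r) r := by
        simpa using hasDerivAt_pow 2 r
      have h1 : HasDerivAt (fun r => deriv g (r ^ 2)) (deriv (deriv g) (r ^ 2) * (2 * r)) r := by
        have e2 : HasDerivAt (deriv g) (deriv (deriv g) (r ^ 2)) (r ^ 2) :=
          ((hd.differentiable (by simp)) _).hasDerivAt
        exact HasDerivAt.comp (h := fun r : ℝ => r ^ 2) r e2 h0
      have h2 : HasDerivAt (fun r => g (r ^ 2)) (deriv g (r ^ 2) * (2 * r)) r := by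
        have e2 : HasDerivAt g (deriv g (r ^ 2)) (r ^ 2) :=
          ((hg.differentiable (by simp)) _).hasDerivAt
        exact HasDerivAt.comp (h := fun r : ℝ => r ^ 2) r e2 h0
      have h3 : HasDerivAt G (2 * (2 * r) * deriv g (r ^ 2) +
          2 * r ^ 2 * (deriv (deriv g) (r ^ 2) * (2 * r)) + deriv g (r ^ 2) * (2 * r)) r := by
        rw [hG]
        exact ((h0.const_mul 2).mul h1).add h2
      rw [h3.deriv]
      ring
    have h2 : ∫ r in Set.Ioi (0 : ℝ), deriv G r = -G 0 := HasCompactSupport.integral_Ioi_deriv_eq hGs hGc 0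
    have hG0 : G 0 = 1 := by
      rw [hG]
      simp [hg0]
    have e1 : ∀ w : E3, lap (fun v => g (‖v‖ ^ 2)) w / ‖w‖ =
        (fun r : ℝ => (4 * deriv (deriv g) (r ^ 2) * r ^ 2 + 6 * deriv g (r ^ 2)) / r) ‖w‖ := by
      intro w
      rw [ex_lap g hg w]
    have e3 := MeasureTheory.integral_fun_norm_addHaar (volume : Measure E3)
      (fun r : ℝ => (4 * deriv (deriv g) (r ^ 2) * r ^ 2 + 6 * deriv g (r ^ 2)) / r)
    rw [integral_congr_ae (Filter.Eventually.of_forall e1), e3]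
    have hfr : Module.finrank ℝ E3 = 3 := by simp
    rw [hfr]
    have hvol : (volume : Measure E3).real (Metric.ball 0 1) = 4 / 3 * Real.pi := by
      unfold Measure.real
      rw [EuclideanSpace.volume_ball_fin_three]
      rw [ENNReal.toReal_mul]
      simp
      rw [ENNReal.toReal_ofReal (by positivity)]
      ring
    rw [hvol]
    simp only [nsmul_eq_mul, smul_eq_mul]
    have e2 : ∫ y in Set.Ioi (0 : ℝ), y ^ (3 - 1) *
        ((4 * deriv (deriv g) (y ^ 2) * y ^ 2 + 6 * deriv g (y ^ 2)) / y) =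
        ∫ r in Set.Ioi (0 : ℝ), deriv G r := by
      apply setIntegral_congr_fun measurableSet_Ioi
      intro y hy
      have hy0 : y ≠ 0 := ne_of_gt hy
      simp only
      rw [hGd]
      field_simp
    rw [e2, h2, hG0]
    push_cast
    ring

theorem newt4 (f : E3 → ℝ) (hf : ContDiff ℝ SM f) (hs : HasCompactSupport f) :
    (∀ z, 4 * Real.pi * f z = -∫ w, lap f w / ‖w - z‖) ∧ ∫ w, lap f w = 0 := by
  obtain ⟨c, hc, h⟩ := RK1.newt
  obtain ⟨f0, h1, h2, h3, h4⟩ := ex_int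
  have h5 := (h f0 h1 h2).1 0
  simp only [sub_zero] at h5
  rw [h4, h3] at h5
  have hcc : c = 4 * Real.pi := by
    field_simp at h5
    linarith
  refine ⟨fun z => ?_, (h f hf hs).2⟩
  rw [(h f hf hs).1 z, hcc]
  have := Real.pi_pos
  field_simp


theorem kern_sum {I : Type} [Fintype I] (c : I → ℝ) (x : I → E3) (μ pb : ℝ) (ω : E3)
    (hω : ∀ i, x i ≠ ω) :
    ∑ i, c i * ‖ω - x i‖⁻¹ = vp c x μ pb ω + yp c x μ ω + pb := by
  unfold vp yp
  have h1 : ∀ i, c i * ‖ω - x i‖⁻¹ = c i * Lk μ (x i - ω) + c i * Yk μ (x i - ω) := by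
    intro i
    unfold Lk Yk
    rw [if_neg (sub_ne_zero.2 (hω i)), norm_sub_rev, ← mul_add, ← add_div, sub_add_cancel, one_div]
  rw [Finset.sum_congr rfl fun i _ => h1 i, Finset.sum_add_distrib]
  ring

theorem lap_zero {f : E3 → ℝ} (ω : E3) (h : ω ∉ tsupport f) : lap f ω = 0 := by
  unfold lap
  apply Finset.sum_eq_zero
  intro k _
  have h1 : ω ∉ tsupport (fun v => fderiv ℝ f v (EuclideanSpace.single k (1 : ℝ))) := by
    intro h2
    exact h (tsupport_fderiv_apply_subset ℝ _ h2)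
  have h2 : fderiv ℝ (fun v => fderiv ℝ f v (EuclideanSpace.single k (1 : ℝ))) ω = 0 := by
    by_contra h3
    exact h1 (support_fderiv_subset ℝ h3)
  rw [h2]
  rfl

theorem fd_zero {f : E3 → ℝ} (ω : E3) (h : ω ∉ tsupport f) : fderiv ℝ f ω = 0 := by
  by_contra h3
  exact h (support_fderiv_subset ℝ h3)

theorem lap_bd {f : E3 → ℝ} (hf : ContDiff ℝ SM f) (hs : HasCompactSupport f) :
    ∃ M, 0 ≤ M ∧ ∀ ω, |f ω| ≤ M ∧ ‖fderiv ℝ f ω‖ ≤ M ∧ |lap f ω| ≤ M := by
  obtain ⟨C1, h1⟩ := hs.exists_bound_of_continuous hf.continuous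
  obtain ⟨C2, h2⟩ := (hs.fderiv (𝕜 := ℝ)).exists_bound_of_continuous (hf.continuous_fderiv (by simp))
  obtain ⟨C3, h3⟩ := (lap_supp hs).exists_bound_of_continuous (lap_cont hf)
  have p1 := (norm_nonneg _).trans (h1 0)
  have p2 := (norm_nonneg _).trans (h2 0)
  have p3 := (norm_nonneg _).trans (h3 0)
  refine ⟨C1 + C2 + C3, by positivity, fun ω => ⟨?_, ?_, ?_⟩⟩
  · have := h1 ω
    rw [Real.norm_eq_abs] at this
    linarith
  · have := h2 ω
    linarith
  · have := h3 ω
    rw [Real.norm_eq_abs] at this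
    linarith

theorem int_lap_div (f : E3 → ℝ) (hf : ContDiff ℝ SM f) (hs : HasCompactSupport f) (z : E3) :
    Integrable (fun w => lap f w / ‖w - z‖) := by
  obtain ⟨M, hM, hb⟩ := lap_bd hf hs
  apply int_of_dom (I := Unit) (fun _ => z) (tsupport f) hs M
  · apply Measurable.aestronglyMeasurable
    exact (lap_cont hf).measurable.div (by fun_prop)
  · intro ω _
    rw [abs_div, abs_of_nonneg (norm_nonneg _), div_eq_mul_inv, norm_sub_rev]
    simp only [Finset.univ_unique, Finset.sum_singleton]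
    apply mul_le_mul (hb ω).2.2 _ (inv_nonneg.2 (norm_nonneg _)) hM
    nlinarith [sq_nonneg (‖z - ω‖⁻¹ - 1), sq_nonneg (‖z - ω‖⁻¹)]
  · intro ω hω
    rw [lap_zero ω hω, zero_div]

theorem int_yp_mul {I : Type} [Fintype I] (c : I → ℝ) (x : I → E3) (μ : ℝ) (hμ : 0 < μ)
    (h : E3 → ℝ) (hh : Continuous h) (hs : HasCompactSupport h) :
    Integrable (fun w => yp c x μ w * h w) := by
  obtain ⟨M, hb⟩ := hs.exists_bound_of_continuous hh
  have hM := (norm_nonneg _).trans (hb 0)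
  have hm := (kern_facts c x μ 0 hμ).2.2.1
  have hC : 0 ≤ ∑ i, |c i| := Finset.sum_nonneg fun _ _ => abs_nonneg _
  apply int_of_dom x (tsupport h) hs ((∑ i, |c i|) * M * (Fintype.card I + 1))
  · exact (hm.mul hh.measurable).aestronglyMeasurable
  · intro ω _
    rw [abs_mul]
    have h1 := yp_le c x μ hμ ω
    have h2 := hb ω
    rw [Real.norm_eq_abs] at h2
    have h3 := (S_le (fun i => ‖x i - ω‖⁻¹)).1
    calc |yp c x μ ω| * |h ω| ≤ ((∑ i, |c i|) * ∑ i, ‖x i - ω‖⁻¹) * M :=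
          mul_le_mul h1 h2 (abs_nonneg _) ((abs_nonneg _).trans h1)
      _ = ((∑ i, |c i|) * M) * ∑ i, ‖x i - ω‖⁻¹ := by ring
      _ ≤ ((∑ i, |c i|) * M) * ((Fintype.card I + 1) * (1 + ∑ i, ‖x i - ω‖⁻¹ ^ 2)) := by
          apply mul_le_mul_of_nonneg_left h3 (mul_nonneg hC hM)
      _ = _ := by ring
  · intro ω hω
    rw [image_eq_zero_of_notMem_tsupport hω, mul_zero]

theorem step2 {I : Type} [Fintype I] (c : I → ℝ) (x : I → E3) (μ pb : ℝ) (hμ : 0 < μ)
    (f : E3 → ℝ) (hf : ContDiff ℝ SM f) (hs : HasCompactSupport f) :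
    4 * Real.pi * ∑ i, c i * f (x i) =
      -(∫ ω, vp c x μ pb ω * lap f ω) - ∫ ω, yp c x μ ω * lap f ω := by
  obtain ⟨h1, h2⟩ := newt4 f hf hs
  have hvc := (kern_facts c x μ pb hμ).1
  have i1 : Integrable (fun ω => vp c x μ pb ω * lap f ω) :=
    (hvc.mul (lap_cont hf)).integrable_of_hasCompactSupport (lap_supp hs).mul_left
  have i2 : Integrable (fun ω => yp c x μ ω * lap f ω) :=
    int_yp_mul c x μ hμ _ (lap_cont hf) (lap_supp hs)
  have i3 : Integrable (fun ω => pb * lap f ω) :=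
    ((lap_cont hf).integrable_of_hasCompactSupport (lap_supp hs)).const_mul _
  have h3 : ∫ ω, ∑ i, c i * (lap f ω / ‖ω - x i‖) =
      ∫ ω, (vp c x μ pb ω * lap f ω + yp c x μ ω * lap f ω + pb * lap f ω) := by
    apply integral_congr_ae
    filter_upwards [ae_ne x] with ω hω
    have h4 := kern_sum c x μ pb ω hω
    have h5 : ∑ i, c i * (lap f ω / ‖ω - x i‖) = lap f ω * ∑ i, c i * ‖ω - x i‖⁻¹ := by
      rw [Finset.mul_sum]
      apply Finset.sum_congr rfl
      intro i _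
      rw [div_eq_mul_inv]
      ring
    rw [h5, h4]
    ring
  have h6 : ∫ ω, ∑ i, c i * (lap f ω / ‖ω - x i‖) = ∑ i, c i * ∫ ω, lap f ω / ‖ω - x i‖ := by
    rw [integral_finsetSum]
    · apply Finset.sum_congr rfl
      intro i _
      rw [integral_const_mul]
    · intro i _
      exact (int_lap_div f hf hs (x i)).const_mul _
  have h7 : 4 * Real.pi * ∑ i, c i * f (x i) = -∑ i, c i * ∫ ω, lap f ω / ‖ω - x i‖ := by
    rw [Finset.mul_sum, ← Finset.sum_neg_distrib]
    apply Finset.sum_congr rfl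
    intro i _
    have := h1 (x i)
    linear_combination c i * this
  have i12 : Integrable (fun ω => vp c x μ pb ω * lap f ω + yp c x μ ω * lap f ω) := i1.add i2
  rw [h7, ← h6, h3, integral_add i12 i3, integral_add i1 i2, integral_const_mul, h2]
  ring

theorem step3 {I : Type} [Fintype I] (c : I → ℝ) (x : I → E3) (μ pb : ℝ) (hμ : 0 < μ)
    (f : E3 → ℝ) (hf : ContDiff ℝ SM f) (hs : HasCompactSupport f) :
    -(∫ ω, vp c x μ pb ω * lap f ω) = ∫ ω, fderiv ℝ f ω (gp c x μ ω) := by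
  obtain ⟨u, B, hB, hu, hub, hud, -, hu1, hu2, -⟩ := approx_v c x μ pb hμ
  have hDf : ∀ k, Continuous (fun ω => fderiv ℝ f ω (ek k)) := fun k => (D_sm hf _).continuous
  have hDs : ∀ k, HasCompactSupport (fun ω => fderiv ℝ f ω (ek k)) := fun k => hs.fderiv_apply (𝕜 := ℝ) _
  have e1 : ∀ n, -(∫ ω, u n ω * lap f ω) = ∫ ω, ∑ k, fderiv ℝ (u n) ω (ek k) * fderiv ℝ f ω (ek k) := by
    intro n
    have h1 : ∀ ω, u n ω * lap f ω = ∑ k, u n ω * fderiv ℝ (fun v => fderiv ℝ f v (ek k)) ω (ek k) := by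
      intro ω
      unfold lap
      rw [Finset.mul_sum]
    have h2 : ∀ k, Continuous (fun ω => u n ω * fderiv ℝ (fun v => fderiv ℝ f v (ek k)) ω (ek k)) :=
      fun k => (hu n).continuous.mul (D_sm (D_sm hf _) _).continuous
    rw [integral_congr_ae (Filter.Eventually.of_forall h1), integral_finsetSum, integral_finsetSum,
      ← Finset.sum_neg_distrib]
    · apply Finset.sum_congr rfl
      intro k _
      rw [Pool.Agent.Helper486.TP.int_parts (n := 3) (u n) (fun v => fderiv ℝ f v (ek k))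
        ((hu n).of_le (by norm_cast)) ((D_sm hf _).of_le (by norm_cast)) (hDs k) (ek k), neg_neg]
    · intro k _
      exact (((D_sm (hu n) _).continuous).mul (hDf k)).integrable_of_hasCompactSupport (hDs k).mul_left
    · intro k _
      refine (h2 k).integrable_of_hasCompactSupport ?_
      exact HasCompactSupport.mul_left ((hDs k).fderiv_apply (𝕜 := ℝ) _)
  have t1 : Filter.Tendsto (fun n => ∫ ω, u n ω * lap f ω) Filter.atTop
      (𝓝 (∫ ω, vp c x μ pb ω * lap f ω)) := by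
    apply tendsto_integral_of_dominated_convergence (fun ω => B * |lap f ω|)
    · intro n
      exact ((hu n).continuous.mul (lap_cont hf)).aestronglyMeasurable
    · exact ((lap_cont hf).integrable_of_hasCompactSupport (lap_supp hs)).abs.const_mul _
    · intro n
      refine Filter.Eventually.of_forall fun ω => ?_
      rw [Real.norm_eq_abs, abs_mul]
      exact mul_le_mul_of_nonneg_right (hub n ω) (abs_nonneg _)
    · refine Filter.Eventually.of_forall fun ω => ?_
      exact (hu1 ω).mul_const _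
  have t2 : Filter.Tendsto (fun n => ∫ ω, ∑ k, fderiv ℝ (u n) ω (ek k) * fderiv ℝ f ω (ek k)) Filter.atTop
      (𝓝 (∫ ω, ∑ k, inner ℝ (gp c x μ ω) (ek k) * fderiv ℝ f ω (ek k))) := by
    apply tendsto_integral_of_dominated_convergence (fun ω => ∑ k, B * |fderiv ℝ f ω (ek k)|)
    · intro n
      apply Continuous.aestronglyMeasurable
      exact continuous_finsetSum _ fun k _ => ((D_sm (hu n) _).continuous).mul (hDf k)
    · apply integrable_finsetSum
      intro k _
      exact ((hDf k).integrable_of_hasCompactSupport (hDs k)).abs.const_mul _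
    · intro n
      refine Filter.Eventually.of_forall fun ω => ?_
      rw [Real.norm_eq_abs]
      refine (Finset.abs_sum_le_sum_abs _ _).trans ?_
      apply Finset.sum_le_sum
      intro k _
      rw [abs_mul]
      apply mul_le_mul_of_nonneg_right _ (abs_nonneg _)
      have h1 := (fderiv ℝ (u n) ω).le_opNorm (ek k)
      rw [ek_norm, mul_one, Real.norm_eq_abs] at h1
      exact h1.trans (hud n ω)
    · filter_upwards [ae_ne x] with ω hω
      apply tendsto_finsetSum
      intro k _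
      exact (hu2 ω hω (ek k)).mul_const _
  have t3 := t1.neg
  simp only [e1] at t3
  have h1 := tendsto_nhds_unique t3 t2
  rw [h1]
  apply integral_congr_ae
  refine Filter.Eventually.of_forall fun ω => ?_
  simp only
  rw [dual_expand (fderiv ℝ f ω) (gp c x μ ω)]
  simp only [inner_ek]


theorem fd_expand_meas {I : Type} [Fintype I] (c : I → ℝ) (x : I → E3) (μ : ℝ) (hμ : 0 < μ)
    (f : E3 → ℝ) (hf : ContDiff ℝ SM f) : Measurable (fun ω => fderiv ℝ f ω (gp c x μ ω)) := by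
  have hm := (kern_facts c x μ 0 hμ).2.1
  have h1 : (fun ω => fderiv ℝ f ω (gp c x μ ω)) =
      fun ω => ∑ k, (gp c x μ ω) k * fderiv ℝ f ω (ek k) := by
    funext ω
    exact dual_expand _ _
  rw [h1]
  apply Finset.measurable_sum
  intro k _
  refine Measurable.mul ?_ (D_sm hf _).continuous.measurable
  have h2 : Continuous (fun v : E3 => v k) := by fun_prop
  exact h2.measurable.comp hm

theorem ident {I : Type} [Fintype I] (c : I → ℝ) (x : I → E3) (μ : ℝ) (hμ : 0 < μ)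
    (f : E3 → ℝ) (hf : ContDiff ℝ SM f) (hs : HasCompactSupport f) :
    4 * Real.pi * ∑ i, c i * f (x i) =
      ∫ ω, (fderiv ℝ f ω (gp c x μ ω) - yp c x μ ω * lap f ω) := by
  rw [step2 c x μ 0 hμ f hf hs, step3 c x μ 0 hμ f hf hs, integral_sub]
  · obtain ⟨G, hG⟩ := (kern_facts c x μ 0 hμ).2.2.2.1
    obtain ⟨M, hM, hb⟩ := lap_bd hf hs
    have hG0 : 0 ≤ G := (norm_nonneg _).trans (hG 0).2
    apply int_of_dom x (tsupport f) hs (M * G)
    · exact (fd_expand_meas c x μ hμ f hf).aestronglyMeasurable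
    · intro ω _
      have h1 := (fderiv ℝ f ω).le_opNorm (gp c x μ ω)
      rw [Real.norm_eq_abs] at h1
      have h2 : ‖fderiv ℝ f ω‖ * ‖gp c x μ ω‖ ≤ M * G :=
        mul_le_mul (hb ω).2.1 (hG ω).2 (norm_nonneg _) hM
      have h3 : 0 ≤ ∑ i, ‖x i - ω‖⁻¹ ^ 2 := Finset.sum_nonneg fun _ _ => sq_nonneg _
      have h4 : 0 ≤ M * G := mul_nonneg hM hG0
      nlinarith
    · intro ω hω
      rw [fd_zero ω hω]
      rfl
  · exact int_yp_mul c x μ hμ _ (lap_cont hf) (lap_supp hs)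

theorem fd_mul {W u : E3 → ℝ} (hW : ContDiff ℝ SM W) (hu : ContDiff ℝ SM u) (ω h : E3) :
    fderiv ℝ (fun v => W v * u v) ω h = W ω * fderiv ℝ u ω h + u ω * fderiv ℝ W ω h := by
  rw [fderiv_fun_mul ((hW.differentiable (by simp)) ω) ((hu.differentiable (by simp)) ω)]
  simp only [add_apply, smul_apply, smul_eq_mul]

theorem lap_mul {W u : E3 → ℝ} (hW : ContDiff ℝ SM W) (hu : ContDiff ℝ SM u) (ω : E3) :
    lap (fun v => W v * u v) ω = W ω * lap u ω +
      2 * (∑ k, fderiv ℝ W ω (ek k) * fderiv ℝ u ω (ek k)) + u ω * lap W ω := by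
  have h1 : ∀ k : Fin 3, fderiv ℝ (fun z => fderiv ℝ (fun v => W v * u v) z (ek k)) ω (ek k) =
      W ω * fderiv ℝ (fun z => fderiv ℝ u z (ek k)) ω (ek k) +
      2 * (fderiv ℝ W ω (ek k) * fderiv ℝ u ω (ek k)) +
      u ω * fderiv ℝ (fun z => fderiv ℝ W z (ek k)) ω (ek k) := by
    intro k
    have e0 : (fun z => fderiv ℝ (fun v => W v * u v) z (ek k)) =
        fun z => W z * fderiv ℝ u z (ek k) + u z * fderiv ℝ W z (ek k) := by
      funext z
      exact fd_mul hW hu z _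
    have dW := D_sm hW (ek k)
    have du := D_sm hu (ek k)
    rw [e0, fderiv_fun_add]
    · rw [add_apply, fd_mul hW du, fd_mul hu dW]
      ring
    · exact ((hW.mul du).differentiable (by simp)) ω
    · exact ((hu.mul dW).differentiable (by simp)) ω
  unfold lap
  rw [Finset.sum_congr rfl fun k _ => h1 k, Finset.sum_add_distrib, Finset.sum_add_distrib,
    ← Finset.mul_sum, ← Finset.mul_sum, ← Finset.mul_sum]

/-- TARGET -/
theorem elec_id {I : Type} [Fintype I] (c : I → ℝ) (x : I → E3) (μ pb : ℝ) (hμ : 0 < μ)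
    (W : E3 → ℝ) (hW : ContDiff ℝ SM W) (hc : HasCompactSupport W) :
    4 * Real.pi * ∑ i, c i * (W (x i) * vp c x μ pb (x i)) =
      ∫ ω, (W ω * ‖gp c x μ ω‖ ^ 2 + vp c x μ pb ω * fderiv ℝ W ω (gp c x μ ω) +
        μ ^ 2 * (W ω * yp c x μ ω ^ 2) - 2 * (yp c x μ ω * fderiv ℝ W ω (gp c x μ ω)) -
        yp c x μ ω * vp c x μ pb ω * lap W ω) ∧
    4 * Real.pi * ∑ i, c i * W (x i) =
      ∫ ω, (fderiv ℝ W ω (gp c x μ ω) - yp c x μ ω * lap W ω) := by
  refine ⟨?_, ident c x μ hμ W hW hc⟩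
  obtain ⟨u, B, hB, hu, hub, hud, hul, hu1, hu2, hu3⟩ := approx_v c x μ pb hμ
  obtain ⟨M, hM, hb⟩ := lap_bd hW hc
  obtain ⟨-, hgm, hym, ⟨G, hG⟩, -⟩ := kern_facts c x μ pb hμ
  have hG0 : 0 ≤ G := (norm_nonneg _).trans (hG 0).2
  have hWu : ∀ n, ContDiff ℝ SM (fun v => W v * u n v) := fun n => hW.mul (hu n)
  have hWc : ∀ n, HasCompactSupport (fun v => W v * u n v) := fun n => hc.mul_right
  have e1 : ∀ n, 4 * Real.pi * ∑ i, c i * (W (x i) * u n (x i)) =
      ∫ ω, (fderiv ℝ (fun v => W v * u n v) ω (gp c x μ ω) - yp c x μ ω * lap (fun v => W v * u n v) ω) :=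
    fun n => ident c x μ hμ _ (hWu n) (hWc n)
  obtain ⟨C, hCd⟩ : ∃ C, C = ∑ i, |c i| := ⟨_, rfl⟩
  have hC : 0 ≤ C := by
    rw [hCd]
    exact Finset.sum_nonneg fun _ _ => abs_nonneg _
  have t1 : Filter.Tendsto (fun n => 4 * Real.pi * ∑ i, c i * (W (x i) * u n (x i))) Filter.atTop
      (𝓝 (4 * Real.pi * ∑ i, c i * (W (x i) * vp c x μ pb (x i)))) := by
    apply Filter.Tendsto.const_mul
    apply tendsto_finsetSum
    intro i _
    exact ((hu1 (x i)).const_mul _).const_mul _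
  have t2 : Filter.Tendsto (fun n => ∫ ω, (fderiv ℝ (fun v => W v * u n v) ω (gp c x μ ω) -
      yp c x μ ω * lap (fun v => W v * u n v) ω)) Filter.atTop
      (𝓝 (∫ ω, (W ω * ‖gp c x μ ω‖ ^ 2 + vp c x μ pb ω * fderiv ℝ W ω (gp c x μ ω) +
        μ ^ 2 * (W ω * yp c x μ ω ^ 2) - 2 * (yp c x μ ω * fderiv ℝ W ω (gp c x μ ω)) -
        yp c x μ ω * vp c x μ pb ω * lap W ω))) := by
    apply tendsto_integral_of_dominated_convergence ((tsupport W).indicator (fun ω =>
      (((2 * M * B * G + 8 * C * M * B) * (Fintype.card I + 1)) * (1 + ∑ i, ‖x i - ω‖⁻¹ ^ 2))))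
    · intro n
      exact ((fd_expand_meas c x μ hμ _ (hWu n)).sub
        (hym.mul (lap_cont (hWu n)).measurable)).aestronglyMeasurable
    · exact dom_int x (tsupport W) hc _
    · intro n
      filter_upwards [ae_ne x] with ω hω
      rw [fd_mul hW (hu n), lap_mul hW (hu n)]
      by_cases h : ω ∈ tsupport W
      · rw [Set.indicator_of_mem h, Real.norm_eq_abs]
        obtain ⟨b1, b2, b3⟩ := hb ω
        have b4 := hub n ω
        have b5 := hud n ω
        have b6 := hul n ω hω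
        have b7 := (hG ω).2
        have b8 := yp_le c x μ hμ ω
        rw [← hCd] at b8
        obtain ⟨s1, s2⟩ := S_le (fun i => ‖x i - ω‖⁻¹)
        obtain ⟨S, hS⟩ : ∃ S, S = ∑ i, ‖x i - ω‖⁻¹ := ⟨_, rfl⟩
        obtain ⟨Q, hQ⟩ : ∃ Q, Q = ∑ i, ‖x i - ω‖⁻¹ ^ 2 := ⟨_, rfl⟩
        obtain ⟨N, hN⟩ : ∃ N : ℝ, N = Fintype.card I := ⟨_, rfl⟩
        rw [← hS] at b6 b8
        have hS0 : 0 ≤ S := by
          rw [hS]
          exact Finset.sum_nonneg fun _ _ => inv_nonneg.2 (norm_nonneg _)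
        have hQ0 : 0 ≤ Q := by
          rw [hQ]
          exact Finset.sum_nonneg fun _ _ => sq_nonneg _
        have hN0 : 0 ≤ N := by
          rw [hN]
          exact Nat.cast_nonneg _
        have s1' : S ≤ (N + 1) * (1 + Q) := by rw [hS, hQ, hN]; exact s1
        have s2' : S ^ 2 ≤ (N + 1) * (1 + Q) := by rw [hS, hQ, hN]; exact s2
        rw [← hQ, ← hN]
        have s3 : 1 ≤ (N + 1) * (1 + Q) := by nlinarith [mul_nonneg hN0 hQ0]
        obtain ⟨Z, hZ⟩ : ∃ Z, Z = (N + 1) * (1 + Q) := ⟨_, rfl⟩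
        rw [mul_assoc, ← hZ]
        rw [← hZ] at s1' s2' s3
        have c1 : |W ω * fderiv ℝ (u n) ω (gp c x μ ω)| ≤ M * (B * G) := by
          rw [abs_mul]
          apply mul_le_mul b1 _ (abs_nonneg _) hM
          have h1 := (fderiv ℝ (u n) ω).le_opNorm (gp c x μ ω)
          rw [Real.norm_eq_abs] at h1
          exact h1.trans (mul_le_mul b5 b7 (norm_nonneg _) hB)
        have c2 : |u n ω * fderiv ℝ W ω (gp c x μ ω)| ≤ B * (M * G) := by
          rw [abs_mul]
          apply mul_le_mul b4 _ (abs_nonneg _) hB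
          have h1 := (fderiv ℝ W ω).le_opNorm (gp c x μ ω)
          rw [Real.norm_eq_abs] at h1
          exact h1.trans (mul_le_mul b2 b7 (norm_nonneg _) hM)
        have c3 : |W ω * lap (u n) ω| ≤ M * (B * S) := by
          rw [abs_mul]
          exact mul_le_mul b1 b6 (abs_nonneg _) hM
        have c4 : |∑ k, fderiv ℝ W ω (ek k) * fderiv ℝ (u n) ω (ek k)| ≤ 3 * (M * B) := by
          refine (Finset.abs_sum_le_sum_abs _ _).trans ?_
          have : ∀ k ∈ (Finset.univ : Finset (Fin 3)),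
              |fderiv ℝ W ω (ek k) * fderiv ℝ (u n) ω (ek k)| ≤ M * B := by
            intro k _
            rw [abs_mul]
            have h1 := (fderiv ℝ W ω).le_opNorm (ek k)
            have h2 := (fderiv ℝ (u n) ω).le_opNorm (ek k)
            rw [ek_norm, mul_one, Real.norm_eq_abs] at h1 h2
            exact mul_le_mul (h1.trans b2) (h2.trans b5) (abs_nonneg _) hM
          refine (Finset.sum_le_card_nsmul _ _ _ this).trans ?_
          simp
        have c5 : |u n ω * lap W ω| ≤ B * M := by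
          rw [abs_mul]
          exact mul_le_mul b4 b3 (abs_nonneg _) hB
        have c6 : |W ω * lap (u n) ω + 2 * (∑ k, fderiv ℝ W ω (ek k) * fderiv ℝ (u n) ω (ek k)) +
            u n ω * lap W ω| ≤ M * (B * S) + 7 * (M * B) := by
          refine (abs_add_le _ _).trans ?_
          have := abs_add_le (W ω * lap (u n) ω) (2 * (∑ k, fderiv ℝ W ω (ek k) * fderiv ℝ (u n) ω (ek k)))
          rw [abs_mul 2, abs_of_pos (by norm_num : (0 : ℝ) < 2)] at this
          linarith
        have c7 : |yp c x μ ω * (W ω * lap (u n) ω + 2 * (∑ k, fderiv ℝ W ω (ek k) * fderiv ℝ (u n) ω (ek k)) +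
            u n ω * lap W ω)| ≤ (C * S) * (M * (B * S) + 7 * (M * B)) := by
          rw [abs_mul]
          exact mul_le_mul b8 c6 (abs_nonneg _) (mul_nonneg hC hS0)
        refine (abs_sub _ _).trans ?_
        refine (add_le_add (abs_add_le _ _) c7).trans ?_
        have p1 : 0 ≤ C * (M * B) := mul_nonneg hC (mul_nonneg hM hB)
        have p2 : 0 ≤ M * B * G := mul_nonneg (mul_nonneg hM hB) hG0
        have p3 := mul_le_mul_of_nonneg_left s1' p1
        have p4 := mul_le_mul_of_nonneg_left s2' p1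
        have p5 := mul_le_mul_of_nonneg_left s3 p2
        nlinarith
      · rw [Set.indicator_of_notMem h, lap_zero ω h, fd_zero ω h, image_eq_zero_of_notMem_tsupport h]
        simp
    · filter_upwards [ae_ne x] with ω hω
      have l1 := hu1 ω
      have l2 := hu2 ω hω (gp c x μ ω)
      have l3 := hu3 ω hω
      have l4 : Filter.Tendsto (fun n => ∑ k, fderiv ℝ W ω (ek k) * fderiv ℝ (u n) ω (ek k)) Filter.atTop
          (𝓝 (∑ k, fderiv ℝ W ω (ek k) * inner ℝ (gp c x μ ω) (ek k))) := by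
        apply tendsto_finsetSum
        intro k _
        exact (hu2 ω hω (ek k)).const_mul _
      have l5 : ∑ k, fderiv ℝ W ω (ek k) * inner ℝ (gp c x μ ω) (ek k) = fderiv ℝ W ω (gp c x μ ω) := by
        rw [dual_expand (fderiv ℝ W ω) (gp c x μ ω)]
        apply Finset.sum_congr rfl
        intro k _
        rw [inner_ek, mul_comm]
      rw [l5] at l4
      rw [real_inner_self_eq_norm_sq] at l2
      have l6 := ((l2.const_mul (W ω)).add (l1.mul_const (fderiv ℝ W ω (gp c x μ ω)))).sub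
        ((((l3.const_mul (W ω)).add (l4.const_mul 2)).add (l1.mul_const (lap W ω))).const_mul (yp c x μ ω))
      have l7 : W ω * ‖gp c x μ ω‖ ^ 2 + vp c x μ pb ω * fderiv ℝ W ω (gp c x μ ω) +
          μ ^ 2 * (W ω * yp c x μ ω ^ 2) - 2 * (yp c x μ ω * fderiv ℝ W ω (gp c x μ ω)) -
          yp c x μ ω * vp c x μ pb ω * lap W ω =
          W ω * ‖gp c x μ ω‖ ^ 2 + vp c x μ pb ω * fderiv ℝ W ω (gp c x μ ω) -
          yp c x μ ω * (W ω * -(μ ^ 2 * yp c x μ ω) + 2 * fderiv ℝ W ω (gp c x μ ω) +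
            vp c x μ pb ω * lap W ω) := by ring
      rw [l7]
      refine Filter.Tendsto.congr (fun n => ?_) l6
      rw [fd_mul hW (hu n), lap_mul hW (hu n)]
  simp only [e1] at t1
  exact tendsto_nhds_unique t1 t2

end Pool.Agent.Helper780_CP.RB2
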