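import Pool.Agent.Helper780_CP.LLDefs2
import Pool.Agent.Helper780_CP.BnDefs

set_option autoImplicit false

open MeasureTheory
open scoped Topology

namespace Pool.Agent.Helper780_CP.RB8

open Pool.Agent.Helper780_CP
open Pool.Agent.Helper985.CP

open Pool.Agent.Helper780_CP Pool.Agent.Helper985.CP

noncomputable def k2 (ν y : ℝ) : ℝ := Real.exp (-(ν * y)) * y⁻¹ ^ 2

theorem k2_nonneg (ν y : ℝ) : 0 ≤ k2 ν y := by
  unfold k2; positivity

theorem vol1 : (volume : Measure E3).real (Metric.ball 0 1) = 4 / 3 * Real.pi := by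
  unfold Measure.real
  rw [EuclideanSpace.volume_ball_fin_three]
  rw [ENNReal.toReal_mul]
  simp
  rw [ENNReal.toReal_ofReal (by positivity)]
  ring

theorem k2_int {ν : ℝ} (hν : 0 < ν) : Integrable (fun w : E3 => k2 ν ‖w‖) ∧
    ∫ w : E3, k2 ν ‖w‖ = 4 * Real.pi / ν := by
  have hdim0 : Module.finrank ℝ E3 = 3 := finrank_euclideanSpace_fin
  have hdim : Module.finrank ℝ E3 - 1 = 2 := by rw [hdim0]
  have h1 : ∀ y ∈ Set.Ioi (0 : ℝ), y ^ (Module.finrank ℝ E3 - 1) • k2 ν y =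
      Real.exp (-ν * y) := by
    intro y hy
    have hy' : (0 : ℝ) < y := hy
    rw [hdim]
    unfold k2
    rw [smul_eq_mul, neg_mul]
    field_simp
  constructor
  · rw [integrable_fun_norm_addHaar volume (f := k2 ν), integrableOn_congr_fun h1 measurableSet_Ioi]
    exact integrableOn_exp_mul_Ioi (by linarith) 0
  · rw [integral_fun_norm_addHaar volume (k2 ν), setIntegral_congr_fun measurableSet_Ioi h1,
      integral_exp_mul_Ioi (by linarith) 0, vol1, hdim0]
    simp only [smul_eq_mul, nsmul_eq_mul, mul_zero, Real.exp_zero]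
    push_cast
    field_simp

theorem k2_intx {ν : ℝ} (hν : 0 < ν) (a : E3) : Integrable (fun w : E3 => k2 ν ‖a - w‖) ∧
    ∫ w : E3, k2 ν ‖a - w‖ = 4 * Real.pi / ν := by
  obtain ⟨h1, h2⟩ := k2_int hν
  constructor
  · exact h1.comp_sub_left a
  · rw [integral_sub_left_eq_self (fun w : E3 => k2 ν ‖w‖) volume a, h2]

theorem Yk_nonneg (μ : ℝ) (w : E3) : 0 ≤ Yk μ w := by
  unfold Yk; positivity

theorem yp_le {I : Type} [Fintype I] (c : I → ℝ) (x : I → E3) (z μ : ℝ) (hc : ∀ i, |c i| ≤ z)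
    (ω : E3) : |yp c x μ ω| ≤ z * ∑ i, Yk μ (x i - ω) := by
  unfold yp
  refine (Finset.abs_sum_le_sum_abs _ _).trans ?_
  rw [Finset.mul_sum]
  refine Finset.sum_le_sum fun i _ => ?_
  rw [abs_mul, abs_of_nonneg (Yk_nonneg μ _)]
  exact mul_le_mul_of_nonneg_right (hc i) (Yk_nonneg μ _)

theorem yp_sq_le {I : Type} [Fintype I] (c : I → ℝ) (x : I → E3) (z μ : ℝ) (hc : ∀ i, |c i| ≤ z)
    (ω : E3) : yp c x μ ω ^ 2 ≤ z ^ 2 * (∑ i, Yk μ (x i - ω)) ^ 2 := by
  have h := yp_le c x z μ hc ω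
  rw [← mul_pow, ← sq_abs]
  exact pow_le_pow_left₀ (abs_nonneg _) h 2

/-- the case of a close point -/
theorem pair_near {μ a b d : ℝ} (hμ : 2 ≤ μ) (ha : 0 ≤ a) (hb : 0 ≤ b) (hd : d ≤ a + b) :
    Real.exp (-(μ * a)) / a * (Real.exp (-(μ * b)) / b) ≤
      Real.exp (-d) * (1 / 2 * (k2 μ a + k2 μ b)) := by
  have h1 : Real.exp (-(μ * a)) / a * (Real.exp (-(μ * b)) / b) =
      Real.exp (-(μ * (a + b) / 2)) * ((Real.exp (-(μ * a / 2)) * a⁻¹) *
        (Real.exp (-(μ * b / 2)) * b⁻¹)) := by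
    have e1 : Real.exp (-(μ * a)) = Real.exp (-(μ * a / 2)) * Real.exp (-(μ * a / 2)) := by
      rw [← Real.exp_add]; ring_nf
    have e2 : Real.exp (-(μ * b)) = Real.exp (-(μ * b / 2)) * Real.exp (-(μ * b / 2)) := by
      rw [← Real.exp_add]; ring_nf
    have e3 : Real.exp (-(μ * (a + b) / 2)) =
        Real.exp (-(μ * a / 2)) * Real.exp (-(μ * b / 2)) := by
      rw [← Real.exp_add]; ring_nf
    rw [e1, e2, e3, div_eq_mul_inv, div_eq_mul_inv]
    ring
  have h2 : (Real.exp (-(μ * a / 2)) * a⁻¹) * (Real.exp (-(μ * b / 2)) * b⁻¹) ≤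
      1 / 2 * (k2 μ a + k2 μ b) := by
    have e1 : k2 μ a = (Real.exp (-(μ * a / 2)) * a⁻¹) ^ 2 := by
      unfold k2
      rw [mul_pow, ← Real.exp_nat_mul]
      congr 2
      push_cast
      ring
    have e2 : k2 μ b = (Real.exp (-(μ * b / 2)) * b⁻¹) ^ 2 := by
      unfold k2
      rw [mul_pow, ← Real.exp_nat_mul]
      congr 2
      push_cast
      ring
    rw [e1, e2]
    nlinarith [sq_nonneg (Real.exp (-(μ * a / 2)) * a⁻¹ - Real.exp (-(μ * b / 2)) * b⁻¹)]
  have h3 : Real.exp (-(μ * (a + b) / 2)) ≤ Real.exp (-d) := by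
    rw [Real.exp_le_exp]
    nlinarith
  rw [h1]
  refine mul_le_mul h3 h2 (by positivity) (Real.exp_nonneg _)

/-- the case of two far points -/
theorem pair_far {μ a b : ℝ} (hμ : 2 ≤ μ) (ha : 1 ≤ a) (hb : 1 ≤ b) :
    Real.exp (-(μ * a)) / a * (Real.exp (-(μ * b)) / b) ≤
      Real.exp (-μ) * (Real.exp (-a) * Real.exp (-b)) := by
  have h1 : Real.exp (-(μ * a)) / a ≤ Real.exp (-(μ * a)) := div_le_self (Real.exp_nonneg _) ha
  have h2 : Real.exp (-(μ * b)) / b ≤ Real.exp (-(μ * b)) := div_le_self (Real.exp_nonneg _) hb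
  calc Real.exp (-(μ * a)) / a * (Real.exp (-(μ * b)) / b)
      ≤ Real.exp (-(μ * a)) * Real.exp (-(μ * b)) :=
        mul_le_mul h1 h2 (by positivity) (Real.exp_nonneg _)
    _ = Real.exp (-(μ * (a + b))) := by rw [← Real.exp_add]; ring_nf
    _ ≤ Real.exp (-μ + (-a + -b)) := by
        rw [Real.exp_le_exp]
        nlinarith
    _ = _ := by rw [Real.exp_add, Real.exp_add]

theorem nn_cont {I : Type} [Fintype I] (x : I → E3) : Continuous (fun ω : E3 => nn ω x) := by
  unfold nn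
  fun_prop

theorem nn_nonneg {I : Type} [Fintype I] (ω : E3) (x : I → E3) : 0 ≤ nn ω x :=
  Finset.sum_nonneg fun _ _ => Real.exp_nonneg _

/-- TARGET 1 -/
theorem y2_bound {I : Type} [Fintype I] (c : I → ℝ) (x : I → E3) (z μ : ℝ) (hc : ∀ i, |c i| ≤ z)
    (hμ : 2 ≤ μ) (y0 : E3) (R : ℝ) (hR : 0 ≤ R) :
    ∫ ω in Metric.closedBall y0 R, yp c x μ ω ^ 2 ≤
      z ^ 2 * (8 * Real.pi / μ * (∑ i, if ‖x i - y0‖ ≤ R + 1 then nn (x i) x else 0) +
        Real.exp (-μ) * ∫ ω in Metric.closedBall y0 R, nn ω x ^ 2) := by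
  classical
  set χ : I → ℝ := fun i => if ‖x i - y0‖ ≤ R + 1 then 1 else 0 with hχ
  have hχ0 : ∀ i, 0 ≤ χ i := by
    intro i
    simp only [hχ]
    split_ifs <;> norm_num
  set P : I → I → E3 → ℝ := fun i j ω =>
    χ i * (Real.exp (-‖x j - x i‖) * (1 / 2 * (k2 μ ‖x i - ω‖ + k2 μ ‖x j - ω‖))) with hP
  have hP0 : ∀ i j ω, 0 ≤ P i j ω := by
    intro i j ω
    simp only [hP]
    have h1 := k2_nonneg μ ‖x i - ω‖
    have h2 := k2_nonneg μ ‖x j - ω‖
    have h3 := hχ0 i
    positivity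
  have hpair1 : ∀ i j, ∀ ω ∈ Metric.closedBall y0 R, ‖x i - ω‖ ≤ ‖x j - ω‖ →
      Yk μ (x i - ω) * Yk μ (x j - ω) ≤ P i j ω +
        Real.exp (-μ) * (Real.exp (-‖x i - ω‖) * Real.exp (-‖x j - ω‖)) := by
    intro i j ω hω hle
    unfold Yk
    rcases le_or_gt ‖x i - ω‖ 1 with h | h
    · have hyi : ‖x i - y0‖ ≤ R + 1 := by
        rw [Metric.mem_closedBall, dist_eq_norm] at hω
        calc ‖x i - y0‖ = ‖(x i - ω) + (ω - y0)‖ := by congr 1; abel
          _ ≤ ‖x i - ω‖ + ‖ω - y0‖ := norm_add_le _ _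
          _ ≤ R + 1 := by linarith
      have hχi : χ i = 1 := by simp only [hχ, if_pos hyi]
      have hd : ‖x j - x i‖ ≤ ‖x i - ω‖ + ‖x j - ω‖ := by
        calc ‖x j - x i‖ = ‖(x j - ω) - (x i - ω)‖ := by congr 1; abel
          _ ≤ ‖x j - ω‖ + ‖x i - ω‖ := norm_sub_le _ _
          _ = _ := add_comm _ _
      have := pair_near hμ (norm_nonneg (x i - ω)) (norm_nonneg (x j - ω)) hd
      have h0 : 0 ≤ Real.exp (-μ) * (Real.exp (-‖x i - ω‖) * Real.exp (-‖x j - ω‖)) := by
        positivity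
      simp only [hP, hχi, one_mul]
      linarith
    · have := pair_far hμ h.le (h.le.trans hle)
      have h0 := hP0 i j ω
      linarith
  have hpair : ∀ i j, ∀ ω ∈ Metric.closedBall y0 R,
      Yk μ (x i - ω) * Yk μ (x j - ω) ≤ P i j ω + P j i ω +
        Real.exp (-μ) * (Real.exp (-‖x i - ω‖) * Real.exp (-‖x j - ω‖)) := by
    intro i j ω hω
    rcases le_total ‖x i - ω‖ ‖x j - ω‖ with h | h
    · have h1 := hpair1 i j ω hω h
      have h2 := hP0 j i ω
      linarith
    · have h1 := hpair1 j i ω hω h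
      have h2 := hP0 i j ω
      rw [mul_comm (Yk μ (x j - ω)), mul_comm (Real.exp (-‖x j - ω‖))] at h1
      linarith
  have hpt : ∀ ω ∈ Metric.closedBall y0 R, yp c x μ ω ^ 2 ≤
      z ^ 2 * (2 * (∑ i, ∑ j, P i j ω) + Real.exp (-μ) * nn ω x ^ 2) := by
    intro ω hω
    refine (yp_sq_le c x z μ hc ω).trans (mul_le_mul_of_nonneg_left ?_ (sq_nonneg z))
    rw [sq, Finset.sum_mul_sum]
    have e1 : 2 * (∑ i, ∑ j, P i j ω) = (∑ i, ∑ j, P i j ω) + ∑ i, ∑ j, P j i ω := by
      rw [Finset.sum_comm (f := fun i j => P j i ω)]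
      ring
    have e2 : nn ω x ^ 2 = ∑ i, ∑ j, Real.exp (-‖x i - ω‖) * Real.exp (-‖x j - ω‖) := by
      rw [sq]
      unfold nn
      rw [Finset.sum_mul_sum]
    rw [e1, e2, Finset.mul_sum, ← Finset.sum_add_distrib, ← Finset.sum_add_distrib]
    refine Finset.sum_le_sum fun i _ => ?_
    rw [Finset.mul_sum, ← Finset.sum_add_distrib, ← Finset.sum_add_distrib]
    exact Finset.sum_le_sum fun j _ => hpair i j ω hω
  have hμ0 : 0 < μ := by linarith
  have hPi : ∀ i j, Integrable (P i j) := by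
    intro i j
    simp only [hP]
    exact ((((k2_intx hμ0 (x i)).1.add (k2_intx hμ0 (x j)).1).const_mul _).const_mul _).const_mul _
  have hPint : ∀ i j, ∫ ω, P i j ω = χ i * (Real.exp (-‖x j - x i‖) * (4 * Real.pi / μ)) := by
    intro i j
    simp only [hP]
    rw [integral_const_mul, integral_const_mul, integral_const_mul,
      integral_add (k2_intx hμ0 (x i)).1 (k2_intx hμ0 (x j)).1, (k2_intx hμ0 (x i)).2,
      (k2_intx hμ0 (x j)).2]
    ring
  have hnni : IntegrableOn (fun ω => nn ω x ^ 2) (Metric.closedBall y0 R) :=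
    ((nn_cont x).pow 2).continuousOn.integrableOn_compact (isCompact_closedBall y0 R)
  have hSi : Integrable (fun ω => ∑ i, ∑ j, P i j ω) :=
    integrable_finsetSum _ fun i _ => integrable_finsetSum _ fun j _ => hPi i j
  calc ∫ ω in Metric.closedBall y0 R, yp c x μ ω ^ 2
      ≤ ∫ ω in Metric.closedBall y0 R,
          z ^ 2 * (2 * (∑ i, ∑ j, P i j ω) + Real.exp (-μ) * nn ω x ^ 2) := by
        refine integral_mono_of_nonneg ?_ ?_ ?_
        · exact Filter.Eventually.of_forall fun ω => sq_nonneg _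
        · exact ((hSi.integrableOn.const_mul 2).add (hnni.const_mul _)).const_mul _
        · exact (ae_restrict_iff' Metric.isClosed_closedBall.measurableSet).2
            (Filter.Eventually.of_forall hpt)
    _ = z ^ 2 * (2 * (∫ ω in Metric.closedBall y0 R, ∑ i, ∑ j, P i j ω) +
          Real.exp (-μ) * ∫ ω in Metric.closedBall y0 R, nn ω x ^ 2) := by
        rw [integral_const_mul, integral_add (hSi.integrableOn.const_mul 2) (hnni.const_mul _),
          integral_const_mul, integral_const_mul]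
    _ ≤ z ^ 2 * (2 * (∫ ω, ∑ i, ∑ j, P i j ω) +
          Real.exp (-μ) * ∫ ω in Metric.closedBall y0 R, nn ω x ^ 2) := by
        have h : ∫ ω in Metric.closedBall y0 R, ∑ i, ∑ j, P i j ω ≤ ∫ ω, ∑ i, ∑ j, P i j ω :=
          setIntegral_le_integral hSi (Filter.Eventually.of_forall fun ω =>
            Finset.sum_nonneg fun i _ => Finset.sum_nonneg fun j _ => hP0 i j ω)
        have := sq_nonneg z
        gcongr
    _ = _ := by
        congr 1
        congr 1
        rw [integral_finsetSum _ fun i _ => integrable_finsetSum _ fun j _ => hPi i j]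
        rw [Finset.mul_sum, Finset.mul_sum]
        refine Finset.sum_congr rfl fun i _ => ?_
        rw [integral_finsetSum _ fun j _ => hPi i j]
        simp only [hPint]
        rw [← Finset.mul_sum, ← Finset.sum_mul]
        simp only [hχ]
        unfold nn
        split_ifs
        · ring
        · ring

theorem ball_k2 {μ d r : ℝ} (hμ : 2 ≤ μ) (hr : 0 ≤ r) (hd : d ≤ r + 1) :
    (Real.exp (-(μ * r)) / r) ^ 2 ≤ Real.exp 2 * Real.exp (-(2 * d)) * k2 μ r := by
  have e1 : (Real.exp (-(μ * r)) / r) ^ 2 = Real.exp (-(μ * r)) * k2 μ r := by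
    unfold k2
    rw [div_eq_mul_inv, mul_pow]
    ring
  rw [e1, ← Real.exp_add]
  refine mul_le_mul_of_nonneg_right ?_ (k2_nonneg _ _)
  rw [Real.exp_le_exp]
  nlinarith

theorem ball_k1 {μ d r : ℝ} (hμ : 2 ≤ μ) (hr : 0 ≤ r) (hd : d ≤ r + 2) :
    Real.exp (-(μ * r)) / r ≤ Real.exp 2 * Real.exp (-d) * (4 / μ) * k2 (μ / 4) r := by
  have hμ0 : 0 < μ := by linarith
  rcases hr.eq_or_lt with rfl | hr0
  · unfold k2
    simp
  have h1 : r ≤ 4 / μ * Real.exp (μ / 4 * r) := by
    have := Real.add_one_le_exp (μ / 4 * r)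
    have h2 : μ / 4 * r ≤ Real.exp (μ / 4 * r) := by linarith
    calc r = 4 / μ * (μ / 4 * r) := by field_simp
      _ ≤ _ := by gcongr
  unfold k2
  have h3 : Real.exp (-(μ * r)) / r = Real.exp (-(μ * r)) * r * r⁻¹ ^ 2 := by
    field_simp
  rw [h3, ← mul_assoc]
  refine mul_le_mul_of_nonneg_right ?_ (by positivity)
  calc Real.exp (-(μ * r)) * r ≤ Real.exp (-(μ * r)) * (4 / μ * Real.exp (μ / 4 * r)) := by gcongr
    _ = 4 / μ * Real.exp (-(μ * r) + μ / 4 * r) := by rw [Real.exp_add]; ring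
    _ ≤ 4 / μ * Real.exp (2 + -d + -(μ / 4 * r)) := by
        have : -(μ * r) + μ / 4 * r ≤ 2 + -d + -(μ / 4 * r) := by nlinarith
        gcongr
    _ = _ := by rw [Real.exp_add, Real.exp_add]; ring

/-- first bound -/
theorem bd2 {I : Type} [Fintype I] (c : I → ℝ) (x : I → E3) (z μ : ℝ) (hc : ∀ i, |c i| ≤ z)
    (hμ : 2 ≤ μ) (w : E3) :
    IntegrableOn (fun ω => yp c x μ ω ^ 2) (Metric.ball w 1) ∧
    ∫ ω in Metric.ball w 1, yp c x μ ω ^ 2 ≤
      (4 * Real.pi * Real.exp 2) * z ^ 2 / μ * nn w x ^ 2 := by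
  have hμ0 : 0 < μ := by linarith
  set H : E3 → ℝ := fun ω => z ^ 2 * (nn w x * ∑ i, Real.exp ‖x i - w‖ *
    (Real.exp 2 * Real.exp (-(2 * ‖x i - w‖)) * k2 μ ‖x i - ω‖)) with hH
  have hpt : ∀ ω ∈ Metric.ball w 1, yp c x μ ω ^ 2 ≤ H ω := by
    intro ω hω
    refine (yp_sq_le c x z μ hc ω).trans (mul_le_mul_of_nonneg_left ?_ (sq_nonneg z))
    have h1 : (∑ i, Yk μ (x i - ω)) ^ 2 ≤ (∑ i, Real.exp (-(‖x i - w‖ / 2)) ^ 2) *
        ∑ i, (Real.exp (‖x i - w‖ / 2) * Yk μ (x i - ω)) ^ 2 := by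
      have := Finset.sum_mul_sq_le_sq_mul_sq Finset.univ
        (fun i => Real.exp (-(‖x i - w‖ / 2)))
        (fun i => Real.exp (‖x i - w‖ / 2) * Yk μ (x i - ω))
      refine le_trans (le_of_eq ?_) this
      congr 1
      refine Finset.sum_congr rfl fun i _ => ?_
      rw [← mul_assoc, ← Real.exp_add]
      simp
    refine h1.trans ?_
    have h2 : ∑ i, Real.exp (-(‖x i - w‖ / 2)) ^ 2 = nn w x := by
      unfold nn
      refine Finset.sum_congr rfl fun i _ => ?_
      rw [← Real.exp_nat_mul]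
      congr 1
      push_cast
      ring
    rw [h2]
    refine mul_le_mul_of_nonneg_left ?_ (nn_nonneg _ _)
    refine Finset.sum_le_sum fun i _ => ?_
    rw [mul_pow]
    have h3 : Real.exp (‖x i - w‖ / 2) ^ 2 = Real.exp ‖x i - w‖ := by
      rw [← Real.exp_nat_mul]
      congr 1
      push_cast
      ring
    rw [h3]
    refine mul_le_mul_of_nonneg_left ?_ (Real.exp_nonneg _)
    refine ball_k2 hμ (norm_nonneg _) ?_
    rw [Metric.mem_ball, dist_eq_norm] at hω
    calc ‖x i - w‖ = ‖(x i - ω) + (ω - w)‖ := by congr 1; abel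
      _ ≤ ‖x i - ω‖ + ‖ω - w‖ := norm_add_le _ _
      _ ≤ _ := by linarith
  have hHi : Integrable H := by
    simp only [hH]
    refine Integrable.const_mul (Integrable.const_mul ?_ _) _
    exact integrable_finsetSum _ fun i _ => ((k2_intx hμ0 (x i)).1.const_mul _).const_mul _
  have hH0 : ∀ ω, 0 ≤ H ω := by
    intro ω
    simp only [hH]
    refine mul_nonneg (sq_nonneg z) (mul_nonneg (nn_nonneg _ _) (Finset.sum_nonneg fun i _ => ?_))
    have := k2_nonneg μ ‖x i - ω‖
    positivity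
  have hae : ∀ᵐ ω ∂(volume.restrict (Metric.ball w 1)), yp c x μ ω ^ 2 ≤ H ω :=
    (ae_restrict_iff' measurableSet_ball).2 (Filter.Eventually.of_forall hpt)
  have hm : Measurable (fun ω => yp c x μ ω ^ 2) := by
    unfold yp Yk
    fun_prop
  constructor
  · refine Integrable.mono' hHi.integrableOn hm.aestronglyMeasurable ?_
    filter_upwards [hae] with ω hω
    rw [Real.norm_of_nonneg (sq_nonneg _)]
    exact hω
  · calc ∫ ω in Metric.ball w 1, yp c x μ ω ^ 2 ≤ ∫ ω in Metric.ball w 1, H ω :=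
          integral_mono_of_nonneg (Filter.Eventually.of_forall fun ω => sq_nonneg _)
            hHi.integrableOn hae
      _ ≤ ∫ ω, H ω := setIntegral_le_integral hHi (Filter.Eventually.of_forall hH0)
      _ = _ := by
          simp only [hH]
          rw [integral_const_mul, integral_const_mul,
            integral_finsetSum _ fun i _ => ((k2_intx hμ0 (x i)).1.const_mul _).const_mul _]
          simp only [integral_const_mul, (k2_intx hμ0 _).2]
          have e : ∀ i : I, Real.exp ‖x i - w‖ * (Real.exp 2 * Real.exp (-(2 * ‖x i - w‖)) *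
              (4 * Real.pi / μ)) = (Real.exp 2 * (4 * Real.pi / μ)) * Real.exp (-‖x i - w‖) := by
            intro i
            have : Real.exp (-(2 * ‖x i - w‖)) * Real.exp ‖x i - w‖ = Real.exp (-‖x i - w‖) := by
              rw [← Real.exp_add]; ring_nf
            rw [← this]
            ring
          simp only [e]
          rw [← Finset.mul_sum]
          change z ^ 2 * (nn w x * (Real.exp 2 * (4 * Real.pi / μ) * nn w x)) = _
          ring

/-- second bound -/
theorem bd1 {I : Type} [Fintype I] (c : I → ℝ) (x : I → E3) (z μ : ℝ) (hc : ∀ i, |c i| ≤ z)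
    (hμ : 2 ≤ μ) (w : E3) :
    ∫ ω in Metric.ball w 2, |yp c x μ ω| ≤
      (64 * Real.pi * Real.exp 2) * z / μ ^ 2 * nn w x := by
  have hμ0 : 0 < μ := by linarith
  have hμ4 : 0 < μ / 4 := by linarith
  set H : E3 → ℝ := fun ω => z * ∑ i, Real.exp 2 * Real.exp (-‖x i - w‖) * (4 / μ) *
    k2 (μ / 4) ‖x i - ω‖ with hH
  rcases isEmpty_or_nonempty I with hI | hI
  · have : ∀ ω, |yp c x μ ω| = 0 := by
      intro ω
      unfold yp
      simp
    simp only [this]
    unfold nn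
    simp
  have hz : 0 ≤ z := by
    obtain ⟨i⟩ := hI
    exact (abs_nonneg _).trans (hc i)
  have hpt : ∀ ω ∈ Metric.ball w 2, |yp c x μ ω| ≤ H ω := by
    intro ω hω
    refine (yp_le c x z μ hc ω).trans (mul_le_mul_of_nonneg_left ?_ hz)
    refine Finset.sum_le_sum fun i _ => ?_
    refine ball_k1 hμ (norm_nonneg _) ?_
    rw [Metric.mem_ball, dist_eq_norm] at hω
    calc ‖x i - w‖ = ‖(x i - ω) + (ω - w)‖ := by congr 1; abel
      _ ≤ ‖x i - ω‖ + ‖ω - w‖ := norm_add_le _ _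
      _ ≤ _ := by linarith
  have hHi : Integrable H := by
    simp only [hH]
    refine Integrable.const_mul ?_ _
    exact integrable_finsetSum _ fun i _ => (k2_intx hμ4 (x i)).1.const_mul _
  have hH0 : ∀ ω, 0 ≤ H ω := by
    intro ω
    simp only [hH]
    refine mul_nonneg hz (Finset.sum_nonneg fun i _ => ?_)
    have := k2_nonneg (μ / 4) ‖x i - ω‖
    positivity
  have hae : ∀ᵐ ω ∂(volume.restrict (Metric.ball w 2)), |yp c x μ ω| ≤ H ω :=
    (ae_restrict_iff' measurableSet_ball).2 (Filter.Eventually.of_forall hpt)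
  calc ∫ ω in Metric.ball w 2, |yp c x μ ω| ≤ ∫ ω in Metric.ball w 2, H ω :=
        integral_mono_of_nonneg (Filter.Eventually.of_forall fun ω => abs_nonneg _)
          hHi.integrableOn hae
    _ ≤ ∫ ω, H ω := setIntegral_le_integral hHi (Filter.Eventually.of_forall hH0)
    _ = _ := by
        simp only [hH]
        rw [integral_const_mul, integral_finsetSum _ fun i _ => (k2_intx hμ4 (x i)).1.const_mul _]
        simp only [integral_const_mul, (k2_intx hμ4 _).2]
        have e : ∀ i : I, Real.exp 2 * Real.exp (-‖x i - w‖) * (4 / μ) *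
            (4 * Real.pi / (μ / 4)) = (64 * Real.pi * Real.exp 2) / μ ^ 2 *
              Real.exp (-‖x i - w‖) := by
          intro i
          field_simp
          ring
        simp only [e]
        rw [← Finset.mul_sum]
        change z * ((64 * Real.pi * Real.exp 2) / μ ^ 2 * nn w x) = _
        ring

theorem vp_sub {I : Type} [Fintype I] (c : I → ℝ) (x : I → E3) (μ μ' pb : ℝ) (ω : E3)
    (h : ∀ i, x i ≠ ω) : vp c x μ pb ω - vp c x μ' pb ω = yp c x μ' ω - yp c x μ ω := by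
  unfold vp yp
  rw [← Finset.sum_sub_distrib]
  have : (∑ i, c i * Lk μ (x i - ω)) - pb - ((∑ i, c i * Lk μ' (x i - ω)) - pb) =
      ∑ i, (c i * Lk μ (x i - ω) - c i * Lk μ' (x i - ω)) := by
    rw [Finset.sum_sub_distrib]; ring
  rw [this]
  refine Finset.sum_congr rfl fun i _ => ?_
  unfold Lk Yk
  rw [if_neg (sub_ne_zero.2 (h i)), if_neg (sub_ne_zero.2 (h i))]
  ring

/-- TARGET 2 -/
theorem yl : ∃ C : ℝ, 0 < C ∧ ∀ {I : Type} [Fintype I] (c : I → ℝ) (x : I → E3) (z μ : ℝ),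
    (∀ i, |c i| ≤ z) → 2 ≤ μ → ∀ w : E3,
      (∫ ω in Metric.ball w 1, yp c x μ ω ^ 2 ≤ C * z ^ 2 / μ * nn w x ^ 2) ∧
      (∫ ω in Metric.ball w 2, |yp c x μ ω| ≤ C * z / μ ^ 2 * nn w x) ∧
      ∀ pb μ', 2 ≤ μ' → ∫ ω in Metric.ball w 1, (vp c x μ pb ω - vp c x μ' pb ω) ^ 2 ≤
        C * z ^ 2 * (1 / μ + 1 / μ') * nn w x ^ 2 := by
  refine ⟨64 * Real.pi * Real.exp 2, by positivity, ?_⟩
  intro I _ c x z μ hc hμ w
  have hμ0 : 0 < μ := by linarith
  have hA := (bd2 c x z μ hc hμ w)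
  have hAA : 0 ≤ Real.pi * Real.exp 2 * (z ^ 2 / μ * nn w x ^ 2) := by positivity
  refine ⟨?_, bd1 c x z μ hc hμ w, ?_⟩
  · refine hA.2.trans ?_
    have e1 : (4 * Real.pi * Real.exp 2) * z ^ 2 / μ * nn w x ^ 2 =
      4 * (Real.pi * Real.exp 2 * (z ^ 2 / μ * nn w x ^ 2)) := by ring
    have e2 : (64 * Real.pi * Real.exp 2) * z ^ 2 / μ * nn w x ^ 2 =
      64 * (Real.pi * Real.exp 2 * (z ^ 2 / μ * nn w x ^ 2)) := by ring
    rw [e1, e2]
    linarith
  · intro pb μ' hμ'
    have hμ0' : 0 < μ' := by linarith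
    have hA' := (bd2 c x z μ' hc hμ' w)
    have hne : ∀ᵐ ω ∂(volume.restrict (Metric.ball w 1)), ∀ i, x i ≠ ω := by
      refine ae_restrict_of_ae ?_
      have hfin : (Set.range x).Finite := Set.finite_range x
      have h0 : (volume : Measure E3) (Set.range x) = 0 := hfin.measure_zero _
      rw [measure_eq_zero_iff_ae_notMem] at h0
      filter_upwards [h0] with ω hω i hi
      exact hω ⟨i, hi⟩
    calc ∫ ω in Metric.ball w 1, (vp c x μ pb ω - vp c x μ' pb ω) ^ 2
        ≤ ∫ ω in Metric.ball w 1, (2 * yp c x μ ω ^ 2 + 2 * yp c x μ' ω ^ 2) := by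
          refine integral_mono_of_nonneg (Filter.Eventually.of_forall fun ω => sq_nonneg _) ?_ ?_
          · exact (hA.1.const_mul 2).add (hA'.1.const_mul 2)
          · filter_upwards [hne] with ω hω
            rw [vp_sub c x μ μ' pb ω hω]
            nlinarith [sq_nonneg (yp c x μ' ω + yp c x μ ω)]
      _ = 2 * (∫ ω in Metric.ball w 1, yp c x μ ω ^ 2) +
            2 * ∫ ω in Metric.ball w 1, yp c x μ' ω ^ 2 := by
          rw [integral_add (hA.1.const_mul 2) (hA'.1.const_mul 2), integral_const_mul,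
            integral_const_mul]
      _ ≤ _ := by
          have h1 := hA.2
          have h2 := hA'.2
          have hB : 0 ≤ Real.pi * Real.exp 2 * (z ^ 2 / μ' * nn w x ^ 2) := by positivity
          have e1 : (4 * Real.pi * Real.exp 2) * z ^ 2 / μ * nn w x ^ 2 =
            4 * (Real.pi * Real.exp 2 * (z ^ 2 / μ * nn w x ^ 2)) := by ring
          have e2 : (4 * Real.pi * Real.exp 2) * z ^ 2 / μ' * nn w x ^ 2 =
            4 * (Real.pi * Real.exp 2 * (z ^ 2 / μ' * nn w x ^ 2)) := by ring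
          have e3 : (64 * Real.pi * Real.exp 2) * z ^ 2 * (1 / μ + 1 / μ') * nn w x ^ 2 =
            64 * (Real.pi * Real.exp 2 * (z ^ 2 / μ * nn w x ^ 2)) +
            64 * (Real.pi * Real.exp 2 * (z ^ 2 / μ' * nn w x ^ 2)) := by ring
          rw [e1] at h1
          rw [e2] at h2
          rw [e3]
          linarith

end Pool.Agent.Helper780_CP.RB8
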