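import Pool.Agent.Helper780_CP.LLDefs2
import Pool.Agent.Helper780_CP.BnDefs
import Pool.Agent.Helper780_CP.RPAU
import Pool.Agent.Helper780_CP.RB1
import Pool.Agent.Helper780_CP.RB2
import Pool.Agent.Helper780_CP.RB8

set_option autoImplicit false

open MeasureTheory
open scoped Topology

namespace Pool.Agent.Helper780_CP.RB14

open Pool.Agent.Helper780_CP
open Pool.Agent.Helper985.CP
open Pool.Agent.Helper780_CP.RB1 (kern_facts)
open Pool.Agent.Helper780_CP.RB2 (elec_id)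
open Pool.Agent.Helper780_CP.RB8 (yl)

open Pool.Agent.Helper780_CP Pool.Agent.Helper985.CP

theorem ct_smooth : ContDiff ℝ SM ct := by
  unfold ct
  apply Real.smoothTransition.contDiff.comp
  apply ContDiff.div_const
  exact contDiff_const.sub (contDiff_norm_sq ℝ)

theorem ct_nonneg (w : E3) : 0 ≤ ct w := Real.smoothTransition.nonneg _

theorem ct_le_one (w : E3) : ct w ≤ 1 := Real.smoothTransition.le_one _

theorem ct_zero {w : E3} (hw : 2 ≤ ‖w‖) : ct w = 0 := by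
  unfold ct
  apply Real.smoothTransition.zero_of_nonpos
  nlinarith

theorem ct_one {w : E3} (hw : ‖w‖ ≤ 1) : ct w = 1 := by
  unfold ct
  apply Real.smoothTransition.one_of_one_le
  nlinarith [norm_nonneg w]

theorem ct_cs : HasCompactSupport ct := by
  apply HasCompactSupport.intro (isCompact_closedBall (0 : E3) 2)
  intro x hx
  apply ct_zero
  rw [mem_closedBall_zero_iff, not_le] at hx
  exact hx.le

theorem cy_eq (w : E3) : cy w 1 = fun ω => ct (ω + (-w)) := by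
  funext ω
  unfold cy
  rw [inv_one, one_smul, sub_eq_add_neg]

theorem cy_smooth (w : E3) : ContDiff ℝ SM (cy w 1) := by
  rw [cy_eq]
  exact ct_smooth.comp (contDiff_id.add contDiff_const)

theorem cy_cs (w : E3) : HasCompactSupport (cy w 1) := by
  apply HasCompactSupport.intro (isCompact_closedBall (w : E3) 2)
  intro x hx
  rw [mem_closedBall_iff_norm, not_le] at hx
  rw [cy_eq]
  apply ct_zero
  rw [← sub_eq_add_neg]
  exact hx.le

theorem fderiv_cy (w ω : E3) : fderiv ℝ (cy w 1) ω = fderiv ℝ ct (ω + (-w)) := by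
  rw [cy_eq, fderiv_comp_add_right]

theorem lap_cy (w ω : E3) : lap (cy w 1) ω = lap ct (ω + (-w)) := by
  unfold lap
  refine Finset.sum_congr rfl fun k _ => ?_
  have h1 : (fun v => fderiv ℝ (cy w 1) v (EuclideanSpace.single k (1 : ℝ))) =
      fun v => (fun u => fderiv ℝ ct u (EuclideanSpace.single k (1 : ℝ))) (v + (-w)) := by
    funext v
    rw [fderiv_cy]
  rw [h1]
  exact congrArg (fun A : E3 →L[ℝ] ℝ => A (EuclideanSpace.single k (1 : ℝ)))
    (fderiv_comp_add_right (f := fun u => fderiv ℝ ct u (EuclideanSpace.single k (1 : ℝ))) (-w))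

theorem ct_bounds : ∃ K : ℝ, 0 ≤ K ∧ (∀ v, ‖fderiv ℝ ct v‖ ≤ K) ∧ (∀ v, |lap ct v| ≤ K) := by
  obtain ⟨K1, hK1⟩ := (ct_smooth.continuous_fderiv (by simp)).bounded_above_of_compact_support
    (ct_cs.fderiv (𝕜 := ℝ))
  have hg : ∀ k : Fin 3, ContDiff ℝ SM (fun v => fderiv ℝ ct v (EuclideanSpace.single k (1 : ℝ))) :=
    fun k => (ct_smooth.fderiv_right (m := SM) (by simp)).clm_apply contDiff_const
  have hgs : ∀ k : Fin 3,
      HasCompactSupport (fun v => fderiv ℝ ct v (EuclideanSpace.single k (1 : ℝ))) :=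
    fun k => ct_cs.fderiv_apply (𝕜 := ℝ) _
  have hc : Continuous (lap ct) := by
    unfold lap
    exact continuous_finsetSum _ fun k _ => ((hg k).continuous_fderiv (by simp)).clm_apply
      continuous_const
  have hs : HasCompactSupport (lap ct) := by
    apply HasCompactSupport.intro (isCompact_closedBall (0 : E3) 2)
    intro x hx
    rw [mem_closedBall_zero_iff, not_le] at hx
    have h0 : ct =ᶠ[𝓝 x] fun _ => (0 : ℝ) := by
      have h1 : ∀ᶠ y in 𝓝 x, 2 < ‖y‖ := (continuous_norm.tendsto x).eventually_const_lt hx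
      exact h1.mono fun y hy => ct_zero hy.le
    have h2 : fderiv ℝ ct =ᶠ[𝓝 x] fun _ => 0 := by
      refine h0.fderiv.trans ?_
      exact Filter.Eventually.of_forall fun y => by simp
    unfold lap
    refine Finset.sum_eq_zero fun k _ => ?_
    have h3 : (fun v => fderiv ℝ ct v (EuclideanSpace.single k (1 : ℝ))) =ᶠ[𝓝 x] fun _ => 0 :=
      h2.mono fun y hy => by simp [hy]
    rw [h3.fderiv_eq]
    simp
  obtain ⟨K2, hK2⟩ := hc.bounded_above_of_compact_support hs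
  refine ⟨max K1 K2, (norm_nonneg _).trans ((hK1 0).trans (le_max_left _ _)),
    fun v => (hK1 v).trans (le_max_left _ _), fun v => ?_⟩
  have h := hK2 v
  rw [Real.norm_eq_abs] at h
  exact h.trans (le_max_right _ _)

theorem fderiv_cy_zero {w ω : E3} (h : 2 < ‖ω - w‖) : fderiv ℝ (cy w 1) ω = 0 := by
  have h0 : cy w 1 =ᶠ[𝓝 ω] fun _ => (0 : ℝ) := by
    have h1 : ∀ᶠ y in 𝓝 ω, 2 < ‖y - w‖ :=
      ((continuous_id.sub continuous_const).norm.tendsto ω).eventually_const_lt h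
    refine h1.mono fun y hy => ?_
    rw [cy_eq]
    apply ct_zero
    rw [← sub_eq_add_neg]
    exact hy.le
  rw [h0.fderiv_eq]
  simp

theorem lap_cy_zero {w ω : E3} (h : 2 < ‖ω - w‖) : lap (cy w 1) ω = 0 := by
  have h1 : ∀ᶠ y in 𝓝 ω, 2 < ‖y - w‖ :=
    ((continuous_id.sub continuous_const).norm.tendsto ω).eventually_const_lt h
  unfold lap
  refine Finset.sum_eq_zero fun k _ => ?_
  have h3 : (fun v => fderiv ℝ (cy w 1) v (EuclideanSpace.single k (1 : ℝ))) =ᶠ[𝓝 ω] fun _ => 0 :=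
    h1.mono fun y hy => by simp [fderiv_cy_zero hy]
  rw [h3.fderiv_eq]
  simp

theorem ball_ae (w : E3) (r : ℝ) (hr : r ≠ 0) :
    (volume : Measure E3).restrict (Metric.closedBall w r) =
      (volume : Measure E3).restrict (Metric.ball w r) := by
  apply Measure.restrict_congr_set
  rw [← Metric.ball_union_sphere]
  have h : volume (Metric.sphere w r) = 0 := Measure.addHaar_sphere_of_ne_zero volume w hr
  exact union_ae_eq_left_of_ae_eq_empty (ae_eq_empty.2 h)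

/-- the bound of the total charge by the fields -/
theorem charge_le {I : Type} [Fintype I] (c : I → ℝ) (x : I → E3) (μ : ℝ) (hμ : 0 < μ) (w : E3)
    (K : ℝ) (hK0 : 0 ≤ K) (hK1 : ∀ v, ‖fderiv ℝ ct v‖ ≤ K) (hK2 : ∀ v, |lap ct v| ≤ K) :
    4 * Real.pi * |∑ i, c i * cy w 1 (x i)| ≤
      K * (∫ ω in Metric.ball w 2, ‖gp c x μ ω‖) + K * (∫ ω in Metric.ball w 2, |yp c x μ ω|) := by
  obtain ⟨-, hgm, hym, ⟨B, hB⟩, hy2⟩ := kern_facts c x μ 0 hμ
  have h1 := (elec_id c x μ 0 hμ (cy w 1) (cy_smooth w) (cy_cs w)).2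
  have hpi : (0 : ℝ) < 4 * Real.pi := by positivity
  have hfin : IsFiniteMeasure (volume.restrict (Metric.ball w (2 : ℝ))) :=
    ⟨by rw [Measure.restrict_apply_univ]; exact measure_ball_lt_top⟩
  have hgi : Integrable (fun ω => ‖gp c x μ ω‖) (volume.restrict (Metric.ball w 2)) := by
    refine (integrable_const B).mono' hgm.norm.aestronglyMeasurable
      (Filter.Eventually.of_forall fun ω => ?_)
    rw [norm_norm]
    exact (hB ω).2
  have hyi : Integrable (fun ω => |yp c x μ ω|) (volume.restrict (Metric.ball w 2)) := by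
    have h2 : Integrable (fun ω => 1 + yp c x μ ω ^ 2) (volume.restrict (Metric.ball w 2)) :=
      (integrable_const (1 : ℝ)).add ((hy2 w 2).mono_set Metric.ball_subset_closedBall)
    refine h2.mono' hym.abs.aestronglyMeasurable (Filter.Eventually.of_forall fun ω => ?_)
    rw [Real.norm_eq_abs, abs_abs]
    nlinarith [sq_abs (yp c x μ ω), sq_nonneg (|yp c x μ ω| - 1), abs_nonneg (yp c x μ ω)]
  rw [← abs_of_pos hpi, ← abs_mul, h1]
  have h2 : ∫ ω, (fderiv ℝ (cy w 1) ω (gp c x μ ω) - yp c x μ ω * lap (cy w 1) ω) =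
      ∫ ω in Metric.ball w 2, (fderiv ℝ (cy w 1) ω (gp c x μ ω) - yp c x μ ω * lap (cy w 1) ω) := by
    rw [← ball_ae w 2 (by norm_num)]
    refine (setIntegral_eq_integral_of_forall_compl_eq_zero fun ω hω => ?_).symm
    rw [mem_closedBall_iff_norm, not_le] at hω
    rw [fderiv_cy_zero hω, lap_cy_zero hω]
    simp
  rw [h2, ← integral_const_mul, ← integral_const_mul, ← integral_add (hgi.const_mul K)
    (hyi.const_mul K)]
  refine (abs_integral_le_integral_abs).trans ?_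
  refine integral_mono_of_nonneg (Filter.Eventually.of_forall fun ω => abs_nonneg _)
    ((hgi.const_mul K).add (hyi.const_mul K)) (Filter.Eventually.of_forall fun ω => ?_)
  simp only
  refine (abs_sub _ _).trans (add_le_add ?_ ?_)
  · rw [← Real.norm_eq_abs]
    refine (ContinuousLinearMap.le_opNorm _ _).trans ?_
    refine mul_le_mul_of_nonneg_right ?_ (norm_nonneg _)
    rw [fderiv_cy]
    exact hK1 _
  · rw [abs_mul, mul_comm]
    refine mul_le_mul_of_nonneg_right ?_ (abs_nonneg _)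
    rw [lap_cy]
    exact hK2 _

/-- a form of the Cauchy–Schwarz inequality -/
theorem l1_le_l2 (w : E3) (g : E3 → E3) (hg : Measurable g) (B : ℝ) (hB : ∀ ω, ‖g ω‖ ≤ B) :
    ∫ ω in Metric.ball w 2, ‖g ω‖ ≤
      ((volume (Metric.ball (0 : E3) 2)).toReal + 1) *
        √(1 + ∫ ω in Metric.ball w 2, ‖g ω‖ ^ 2) := by
  obtain ⟨V, hV⟩ : ∃ V, V = (volume (Metric.ball (0 : E3) 2)).toReal := ⟨_, rfl⟩
  obtain ⟨G, hG⟩ : ∃ G, G = ∫ ω in Metric.ball w 2, ‖g ω‖ ^ 2 := ⟨_, rfl⟩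
  rw [← hV, ← hG]
  have hV0 : 0 ≤ V := by rw [hV]; exact ENNReal.toReal_nonneg
  have hG0 : 0 ≤ G := by rw [hG]; exact integral_nonneg fun ω => by positivity
  obtain ⟨s, hs⟩ : ∃ s, s = √(1 + G) := ⟨_, rfl⟩
  rw [← hs]
  have hs2 : s ^ 2 = 1 + G := by rw [hs]; exact Real.sq_sqrt (by linarith)
  have hs0 : 0 < s := by rw [hs]; exact Real.sqrt_pos.2 (by linarith)
  have hfin : IsFiniteMeasure (volume.restrict (Metric.ball w (2 : ℝ))) :=
    ⟨by rw [Measure.restrict_apply_univ]; exact measure_ball_lt_top⟩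
  have hgi : Integrable (fun ω => ‖g ω‖) (volume.restrict (Metric.ball w 2)) := by
    refine (integrable_const B).mono' hg.norm.aestronglyMeasurable
      (Filter.Eventually.of_forall fun ω => ?_)
    rw [norm_norm]
    exact hB ω
  have hgi2 : Integrable (fun ω => ‖g ω‖ ^ 2) (volume.restrict (Metric.ball w 2)) := by
    refine (integrable_const (B ^ 2)).mono' (hg.norm.pow_const 2).aestronglyMeasurable
      (Filter.Eventually.of_forall fun ω => ?_)
    rw [Real.norm_eq_abs, abs_of_nonneg (by positivity)]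
    exact pow_le_pow_left₀ (norm_nonneg _) (hB ω) 2
  have h1 : ∀ ω, ‖g ω‖ ≤ s / 2 + 1 / (2 * s) * ‖g ω‖ ^ 2 := by
    intro ω
    have h2 : s / 2 + 1 / (2 * s) * ‖g ω‖ ^ 2 - ‖g ω‖ = (s - ‖g ω‖) ^ 2 / (2 * s) := by
      field_simp
      ring
    have h3 : 0 ≤ (s - ‖g ω‖) ^ 2 / (2 * s) := by positivity
    linarith
  have h2 : ∫ ω in Metric.ball w 2, ‖g ω‖ ≤
      ∫ ω in Metric.ball w 2, (s / 2 + 1 / (2 * s) * ‖g ω‖ ^ 2) :=
    integral_mono hgi ((integrable_const _).add (hgi2.const_mul _)) h1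
  refine h2.trans ?_
  rw [integral_add (integrable_const _) (hgi2.const_mul _), integral_const_mul, ← hG,
    setIntegral_const, smul_eq_mul, measureReal_def, Measure.addHaar_ball_center, ← hV]
  have h3 : 1 / (2 * s) * G ≤ s := by
    rw [one_div, inv_mul_le_iff₀ (by positivity)]
    nlinarith
  nlinarith [mul_nonneg hV0 hs0.le]

theorem nn_nonneg {I : Type} [Fintype I] (w : E3) (x : I → E3) : 0 ≤ nn w x :=
  Finset.sum_nonneg fun _ _ => (Real.exp_pos _).le

theorem nn_le_nh {I : Type} [Fintype I] (w : E3) (x : I → E3) : nn w x ≤ nh w x := by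
  unfold nn nh
  refine Finset.sum_le_sum fun j _ => Real.exp_le_exp.2 ?_
  have h1 : √(1 + ‖x j - w‖ ^ 2) ≤ 1 + ‖x j - w‖ := by
    rw [Real.sqrt_le_left (by positivity)]
    nlinarith [norm_nonneg (x j - w)]
  linarith

theorem nh_le_card {I : Type} [Fintype I] (w : E3) (x : I → E3) :
    nh w x ≤ (Fintype.card I : ℝ) := by
  unfold nh
  calc ∑ j, Real.exp (1 - √(1 + ‖x j - w‖ ^ 2)) ≤ ∑ _j : I, (1 : ℝ) := by
        refine Finset.sum_le_sum fun j _ => ?_
        rw [Real.exp_le_one_iff]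
        have h1 : 1 ≤ √(1 + ‖x j - w‖ ^ 2) := by
          rw [Real.one_le_sqrt]
          nlinarith [sq_nonneg ‖x j - w‖]
        linarith
    _ = (Fintype.card I : ℝ) := by simp

theorem nh_nonneg {I : Type} [Fintype I] (w : E3) (x : I → E3) : 0 ≤ nh w x :=
  (nn_nonneg w x).trans (nn_le_nh w x)

theorem mu_ge {I : Type} [Fintype I] {K : ℝ} (hK : 8 ≤ K) (w : E3) (x : I → E3) :
    2 ≤ mu K w x := by
  have h0 := nh_nonneg w x
  unfold mu
  have h1 : (8 : ℝ) ^ ((1 : ℝ) / 3) ≤ (K * (1 + nh w x)) ^ ((1 : ℝ) / 3) :=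
    Real.rpow_le_rpow (by norm_num) (by nlinarith) (by norm_num)
  have h2 : (8 : ℝ) ^ ((1 : ℝ) / 3) = 2 := by
    rw [show (8 : ℝ) = 2 ^ (3 : ℝ) by norm_num, ← Real.rpow_mul (by norm_num)]
    norm_num
  linarith

theorem mu_le {I : Type} [Fintype I] {K : ℝ} (hK : 8 ≤ K) (w : E3) (x : I → E3) :
    mu K w x ≤ (K * (1 + (Fintype.card I : ℝ))) ^ ((1 : ℝ) / 3) := by
  have h0 := nh_nonneg w x
  have h1 := nh_le_card w x
  unfold mu
  exact Real.rpow_le_rpow (by nlinarith) (by nlinarith) (by norm_num)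

/-- `nn / μ ^ 2 ≤ nn ^ (1/3)` -/
theorem nn_div_mu {I : Type} [Fintype I] {K : ℝ} (hK : 8 ≤ K) (w : E3) (x : I → E3) :
    nn w x / mu K w x ^ 2 ≤ nn w x ^ ((1 : ℝ) / 3) := by
  have h0 := nn_nonneg w x
  have h1 := nn_le_nh w x
  have hm := mu_ge hK w x
  rcases h0.eq_or_lt with h2 | h2
  · rw [← h2, zero_div]
    positivity
  · rw [div_le_iff₀ (by positivity)]
    have h3 : nn w x ^ ((2 : ℝ) / 3) ≤ mu K w x ^ 2 := by
      have e : mu K w x ^ 2 = (K * (1 + nh w x)) ^ ((2 : ℝ) / 3) := by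
        unfold mu
        rw [← Real.rpow_natCast, ← Real.rpow_mul (by nlinarith)]
        norm_num
      rw [e]
      exact Real.rpow_le_rpow h2.le (by nlinarith) (by norm_num)
    calc nn w x = nn w x ^ ((1 : ℝ) / 3) * nn w x ^ ((2 : ℝ) / 3) := by
          rw [← Real.rpow_add h2]
          norm_num
      _ ≤ nn w x ^ ((1 : ℝ) / 3) * mu K w x ^ 2 :=
          mul_le_mul_of_nonneg_left h3 (by positivity)

theorem Gk_meas : Measurable (fun q : ℝ × E3 => Gk q.1 q.2) := by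
  unfold Gk
  fun_prop

theorem Gk_le {μ : ℝ} (hμ : 0 ≤ μ) (w : E3) : ‖Gk μ w‖ ≤ μ ^ 2 := by
  unfold Gk
  rcases eq_or_ne w 0 with h | h
  · rw [h]
    simp only [smul_zero, norm_zero]
    positivity
  · have hr : 0 < ‖w‖ := norm_pos_iff.2 h
    have ht : 0 ≤ μ * ‖w‖ := by positivity
    have h1 : Real.exp (-(μ * ‖w‖)) * (1 + μ * ‖w‖) ≤ 1 := by
      have h2 := Real.add_one_le_exp (μ * ‖w‖)
      rw [Real.exp_neg, inv_mul_le_iff₀ (Real.exp_pos _)]
      linarith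
    have h3 : 1 - Real.exp (-(μ * ‖w‖)) * (1 + μ * ‖w‖) ≤ (μ * ‖w‖) ^ 2 := by
      have h2 := Real.add_one_le_exp (-(μ * ‖w‖))
      nlinarith
    rw [norm_smul, norm_div, norm_pow, norm_norm, Real.norm_of_nonneg (by linarith),
      div_mul_eq_mul_div, div_le_iff₀ (by positivity)]
    calc (1 - Real.exp (-(μ * ‖w‖)) * (1 + μ * ‖w‖)) * ‖w‖ ≤ (μ * ‖w‖) ^ 2 * ‖w‖ :=
          mul_le_mul_of_nonneg_right h3 hr.le
      _ = μ ^ 2 * ‖w‖ ^ 3 := by ring

theorem mu_meas {I : Type} [Fintype I] (K : ℝ) (w : E3) :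
    Measurable (fun x : I → E3 => mu K w x) := by
  unfold mu nh
  fun_prop

theorem gg_meas {S : Type} (D : Species S) {I : Type} [Fintype I] (sp : I → S) (K : ℝ) (w : E3) :
    Measurable (fun q : (I → E3) × E3 => gg D sp K w q.1 q.2) := by
  unfold gg gp
  refine Finset.measurable_sum _ fun i _ => ?_
  have h1 : Measurable (fun q : (I → E3) × E3 => ((mu K w q.1, q.1 i - q.2) : ℝ × E3)) := by
    refine ((mu_meas K w).comp measurable_fst).prodMk ?_
    fun_prop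
  exact (Gk_meas.comp h1).const_smul (D.charge (sp i))

theorem gg_le {S : Type} (D : Species S) {I : Type} [Fintype I] (sp : I → S) {K : ℝ} (hK : 8 ≤ K)
    (w : E3) (x : I → E3) (ω : E3) : ‖gg D sp K w x ω‖ ≤
      ∑ i, |D.charge (sp i)| * ((K * (1 + (Fintype.card I : ℝ))) ^ ((1 : ℝ) / 3)) ^ 2 := by
  unfold gg gp
  refine (norm_sum_le _ _).trans (Finset.sum_le_sum fun i _ => ?_)
  rw [norm_smul, Real.norm_eq_abs]
  have h1 := mu_ge hK w x
  refine mul_le_mul_of_nonneg_left ((Gk_le (by linarith) _).trans ?_) (abs_nonneg _)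
  exact pow_le_pow_left₀ (by linarith) (mu_le hK w x) 2

section wx

variable {S : Type} (D : Species S) {I : Type} [Fintype I] [DecidableEq I] (sp : I → S)
  {k : ℕ} (p : Fin k → ℝ) (ψ : Fin k → Wave D I)

theorem wx_add (ℓ : ℝ) {V W : (I → E3) → ℝ} (hV : WI D sp ℓ V) (hW : WI D sp ℓ W)
    (hψ : ∀ j, IsState D sp ℓ (ψ j)) :
    wx D p ψ (fun x => V x + W x) = wx D p ψ V + wx D p ψ W := by
  unfold wx
  rw [← Finset.sum_add_distrib]
  refine Finset.sum_congr rfl fun j _ => ?_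
  rw [wm_add D sp ℓ hV hW (ψ j) (hψ j)]
  ring

theorem wx_smul (V : (I → E3) → ℝ) (c : ℝ) :
    wx D p ψ (fun x => c * V x) = c * wx D p ψ V := by
  unfold wx
  rw [Finset.mul_sum]
  refine Finset.sum_congr rfl fun j _ => ?_
  rw [wm_smul D V c (ψ j)]
  ring

theorem wx_mono (ℓ : ℝ) {V W : (I → E3) → ℝ} (hV : WI D sp ℓ V) (hW : WI D sp ℓ W)
    (hψ : ∀ j, IsState D sp ℓ (ψ j)) (hp : ∀ j, 0 ≤ p j) (h : ∀ x, V x ≤ W x) :
    wx D p ψ V ≤ wx D p ψ W := by
  unfold wx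
  refine Finset.sum_le_sum fun j _ => ?_
  exact mul_le_mul_of_nonneg_left
    (wm_mono D sp ℓ hV hW (ψ j) (hψ j) (Filter.Eventually.of_forall h)) (hp j)

theorem wx_nonneg {V : (I → E3) → ℝ} (hp : ∀ j, 0 ≤ p j) (h : ∀ x, 0 ≤ V x) :
    0 ≤ wx D p ψ V := by
  unfold wx wm
  exact Finset.sum_nonneg fun j _ => mul_nonneg (hp j) (Finset.sum_nonneg fun τ _ =>
    integral_nonneg fun x => mul_nonneg (h x) (sq_nonneg _))

theorem wx_one (hp1 : ∑ j, p j = 1) (hn : ∀ j, nrm2 D (ψ j) = 1) :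
    wx D p ψ (fun _ => 1) = 1 := by
  unfold wx
  have h : ∀ j, p j * wm D (fun _ => 1) (ψ j) = p j := fun j => by rw [wm_one, hn, mul_one]
  rw [Finset.sum_congr rfl fun j _ => h j, hp1]

theorem WI_bm (ℓ : ℝ) (V : (I → E3) → ℝ) (hV : Measurable V) (B : ℝ) (hB : ∀ x, |V x| ≤ B) :
    WI D sp ℓ V := by
  intro Ψ hΨ τ
  exact RPAU.bdd_int V hV B hB _ (int_state D sp ℓ Ψ hΨ τ).1

end wx

theorem nb_nonneg {I : Type} [Fintype I] (y : E3) (R : ℝ) (x : I → E3) : 0 ≤ nb y R x := by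
  unfold nb
  exact Finset.sum_nonneg fun j _ => by split_ifs <;> norm_num

theorem nb_le {I : Type} [Fintype I] (y : E3) (R : ℝ) (x : I → E3) :
    nb y R x ≤ (Fintype.card I : ℝ) := by
  unfold nb
  calc _ ≤ ∑ _j : I, (1 : ℝ) := Finset.sum_le_sum fun j _ => by split_ifs <;> norm_num
    _ = (Fintype.card I : ℝ) := by simp

theorem nb_meas {I : Type} [Fintype I] (y : E3) (R : ℝ) :
    Measurable (fun x : I → E3 => nb y R x) := by
  unfold nb
  refine Finset.measurable_sum _ fun i _ => Measurable.ite ?_ measurable_const measurable_const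
  exact measurableSet_le (by fun_prop) measurable_const

theorem nn_meas {I : Type} [Fintype I] (y : E3) : Measurable (fun x : I → E3 => nn y x) := by
  unfold nn
  fun_prop

theorem kb_mono {S : Type} (D : Species S) (hD : D.Valid) {I : Type} [Fintype I] [DecidableEq I]
    (sp : I → S) (ℓ : ℝ) (Ψ : Wave D I) (hΨ : IsState D sp ℓ Ψ) (y : E3) {R R' : ℝ} (h : R ≤ R') :
    kb D sp y R Ψ ≤ kb D sp y R' Ψ := by
  unfold kb
  have hint : ∀ (R : ℝ) (τ : I → Fin D.g), Integrable (fun x : I → E3 =>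
      ∑ j, if ‖x j - y‖ < R then kin D sp j (Ψ τ) x else 0) := by
    intro R τ
    refine integrable_finsetSum _ fun i _ => ?_
    have hm : Measurable (fun x : I → E3 => if ‖x i - y‖ < R then (1 : ℝ) else 0) := by
      refine Measurable.ite ?_ measurable_const measurable_const
      exact measurableSet_lt (by fun_prop) measurable_const
    refine (RPAU.bdd_int _ hm 1 (fun x => by split_ifs <;> simp) _
      ((int_state D sp ℓ Ψ hΨ τ).2.1 i)).congr (Filter.Eventually.of_forall fun x => ?_)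
    simp only
    split_ifs <;> simp
  refine Finset.sum_le_sum fun τ _ => integral_mono (hint R τ) (hint R' τ) fun x => ?_
  refine Finset.sum_le_sum fun j _ => ?_
  have h0 := RPAU.kin_nonneg' D hD sp j (Ψ τ) x
  split_ifs with h1 h2
  · exact le_rfl
  · exact absurd (h1.trans_le h) h2
  · exact h0
  · exact le_rfl

theorem three53 {a b c : ℝ} (ha : 0 ≤ a) (hb : 0 ≤ b) (hc : 0 ≤ c) :
    (a + b + c) ^ ((5 : ℝ) / 3) ≤
      3 ^ ((5 : ℝ) / 3) * (a ^ ((5 : ℝ) / 3) + b ^ ((5 : ℝ) / 3) + c ^ ((5 : ℝ) / 3)) := by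
  have h1 : ∀ m, 0 ≤ m → a ≤ m → b ≤ m → c ≤ m →
      (a + b + c) ^ ((5 : ℝ) / 3) ≤ 3 ^ ((5 : ℝ) / 3) * m ^ ((5 : ℝ) / 3) := by
    intro m hm h1 h2 h3
    rw [← Real.mul_rpow (by norm_num) hm]
    exact Real.rpow_le_rpow (by positivity) (by linarith) (by norm_num)
  have ha' : 0 ≤ a ^ ((5 : ℝ) / 3) := Real.rpow_nonneg ha _
  have hb' : 0 ≤ b ^ ((5 : ℝ) / 3) := Real.rpow_nonneg hb _
  have hc' : 0 ≤ c ^ ((5 : ℝ) / 3) := Real.rpow_nonneg hc _
  have h3 : (0 : ℝ) ≤ 3 ^ ((5 : ℝ) / 3) := by positivity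
  rcases le_total a b with hab | hab
  · rcases le_total b c with hbc | hbc
    · exact (h1 c hc (hab.trans hbc) hbc le_rfl).trans (mul_le_mul_of_nonneg_left (by linarith) h3)
    · exact (h1 b hb hab le_rfl hbc).trans (mul_le_mul_of_nonneg_left (by linarith) h3)
  · rcases le_total a c with hac | hac
    · exact (h1 c hc hac (hab.trans hac) le_rfl).trans (mul_le_mul_of_nonneg_left (by linarith) h3)
    · exact (h1 a ha le_rfl hab hac).trans (mul_le_mul_of_nonneg_left (by linarith) h3)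

/-- number of the negative particles in the ball of radius 2 -/
noncomputable def nneg {I : Type} [Fintype I] (c : I → ℝ) (w : E3) (x : I → E3) : ℝ :=
  open Classical in ∑ i, if c i < 0 ∧ ‖x i - w‖ ≤ 2 then 1 else 0

theorem nneg_nonneg {I : Type} [Fintype I] (c : I → ℝ) (w : E3) (x : I → E3) :
    0 ≤ nneg c w x := by
  unfold nneg
  exact Finset.sum_nonneg fun j _ => by split_ifs <;> norm_num

/-- the number of particles is controlled by the charge and the number of negative particles -/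
theorem nb_le_charge {I : Type} [Fintype I] (c : I → ℝ) (w : E3) (x : I → E3) (z : ℝ)
    (hc1 : ∀ i, 1 ≤ |c i|) (hcz : ∀ i, |c i| ≤ z) :
    nb w 1 x ≤ |∑ i, c i * cy w 1 (x i)| + (1 + z) * nneg c w x := by
  classical
  refine le_trans ?_ (add_le_add_left (le_abs_self _) _)
  unfold nb nneg
  rw [Finset.mul_sum, ← Finset.sum_add_distrib]
  refine Finset.sum_le_sum fun i _ => ?_
  have h0 : 0 ≤ cy w 1 (x i) := Real.smoothTransition.nonneg _
  have h1 : cy w 1 (x i) ≤ 1 := Real.smoothTransition.le_one _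
  have hone : ‖x i - w‖ ≤ 1 → cy w 1 (x i) = 1 := by
    intro h
    rw [cy_eq]
    apply ct_one
    rwa [← sub_eq_add_neg]
  have hzero : 2 < ‖x i - w‖ → cy w 1 (x i) = 0 := by
    intro h
    rw [cy_eq]
    apply ct_zero
    rw [← sub_eq_add_neg]
    exact h.le
  have h2 := hc1 i
  have h3 := hcz i
  have hz1 : 1 ≤ z := h2.trans h3
  rcases lt_or_ge (c i) 0 with hneg | hpos
  · rw [abs_of_neg hneg] at h2 h3
    by_cases hd : ‖x i - w‖ ≤ 2
    · have e1 : ∀ inst : Decidable (c i < 0 ∧ ‖x i - w‖ ≤ 2), @ite ℝ _ inst 1 0 = 1 :=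
        fun inst => if_pos ⟨hneg, hd⟩
      rw [e1]
      have h4 : (if ‖x i - w‖ ≤ 1 then (1 : ℝ) else 0) ≤ 1 := by split_ifs <;> norm_num
      nlinarith
    · have h5 : ¬ ‖x i - w‖ ≤ 1 := fun h => hd (h.trans (by norm_num))
      have e1 : ∀ inst : Decidable (c i < 0 ∧ ‖x i - w‖ ≤ 2), @ite ℝ _ inst 1 0 = 0 :=
        fun inst => if_neg (fun h => hd h.2)
      rw [if_neg h5, e1, hzero (not_le.1 hd)]
      simp
  · rw [abs_of_nonneg hpos] at h2 h3
    have e1 : ∀ inst : Decidable (c i < 0 ∧ ‖x i - w‖ ≤ 2), @ite ℝ _ inst 1 0 = 0 :=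
      fun inst => if_neg (fun h => absurd h.1 (not_lt.2 hpos))
    rw [e1, mul_zero, add_zero]
    split_ifs with h4
    · rw [hone h4]
      linarith
    · positivity

/-- the number of particles is controlled by the charge, charges bounded from below -/
theorem nb_le_charge' {I : Type} [Fintype I] (c : I → ℝ) (w : E3) (x : I → E3) (z β : ℝ)
    (hβ : 0 < β) (hc1 : ∀ i, 1 ≤ β * |c i|) (hcz : ∀ i, |c i| ≤ z) :
    nb w 1 x ≤ β * |∑ i, c i * cy w 1 (x i)| + (1 + β * z) * nneg c w x := by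
  have h := nb_le_charge (fun i => β * c i) w x (β * z)
    (fun i => by rw [abs_mul, abs_of_pos hβ]; exact hc1 i)
    (fun i => by rw [abs_mul, abs_of_pos hβ]; exact mul_le_mul_of_nonneg_left (hcz i) hβ.le)
  have e1 : ∑ i, β * c i * cy w 1 (x i) = β * ∑ i, c i * cy w 1 (x i) := by
    rw [Finset.mul_sum]
    exact Finset.sum_congr rfl fun i _ => by ring
  have e2 : nneg (fun i => β * c i) w x = nneg c w x := by
    unfold nneg
    refine Finset.sum_congr rfl fun i _ => ?_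
    have : (β * c i < 0 ∧ ‖x i - w‖ ≤ 2) ↔ (c i < 0 ∧ ‖x i - w‖ ≤ 2) := by
      rw [mul_neg_iff]
      constructor
      · rintro ⟨h1 | h1, h2⟩
        · exact ⟨h1.2, h2⟩
        · exact absurd h1.1 (not_lt.2 hβ.le)
      · rintro ⟨h1, h2⟩
        exact ⟨Or.inl ⟨hβ, h1⟩, h2⟩
    simp only [this]
  rw [e1, e2, abs_mul, abs_of_pos hβ] at h
  exact h

/-- the number of the negative particles and the windows -/
theorem nneg_pow_le {I : Type} [Fintype I] (c : I → ℝ) (w : E3) (x : I → E3) (K : ℝ) (hK : 0 ≤ K) :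
    (volume (Metric.ball (0 : E3) 1)).toReal * nneg c w x ^ ((5 : ℝ) / 3) ≤
      (volume (Metric.ball (0 : E3) 1)).toReal * K ^ ((5 : ℝ) / 3) +
      ∫ u in Metric.ball w 1, (if K ≤ nw c x 3 u then nw c x 3 u ^ ((5 : ℝ) / 3) else 0) := by
  classical
  have hfin : IsFiniteMeasure (volume.restrict (Metric.ball w (1 : ℝ))) :=
    ⟨by rw [Measure.restrict_apply_univ]; exact measure_ball_lt_top⟩
  have hm : Measurable (fun u : E3 => nw c x 3 u) :=
    (RPAU.nw_meas c 3).comp (measurable_const.prodMk measurable_id)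
  have hi : Integrable (fun u : E3 => if K ≤ nw c x 3 u then nw c x 3 u ^ ((5 : ℝ) / 3) else 0)
      (volume.restrict (Metric.ball w 1)) := by
    refine (integrable_const ((Fintype.card I : ℝ) ^ ((5 : ℝ) / 3))).mono'
      (RPAU.cut53_meas _ hm K).aestronglyMeasurable (Filter.Eventually.of_forall fun u => ?_)
    rw [Real.norm_eq_abs]
    exact RPAU.cut53_bound (RPAU.nw_nonneg' c x 3 u) (RPAU.nw_le_card c x 3 u)
  have hconst : ∀ a : ℝ, ∫ _u in Metric.ball w (1 : ℝ), a =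
      (volume (Metric.ball (0 : E3) 1)).toReal * a := by
    intro a
    rw [setIntegral_const, smul_eq_mul, measureReal_def, Measure.addHaar_ball_center]
  rw [← hconst, ← hconst, ← integral_add (integrable_const _) hi]
  refine setIntegral_mono_on (integrable_const _) ((integrable_const _).add hi) measurableSet_ball
    fun u hu => ?_
  have h1 : nneg c w x ≤ nw c x 3 u := by
    unfold nneg nw
    refine Finset.sum_le_sum fun i _ => ?_
    by_cases h : c i < 0 ∧ ‖x i - w‖ ≤ 2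
    · rw [if_pos h, if_pos]
      refine ⟨h.1, fun t => ?_⟩
      rw [mem_ball_iff_norm] at hu
      have h2 : ‖x i - u‖ < 3 := by
        calc ‖x i - u‖ = ‖(x i - w) - (u - w)‖ := by congr 1; abel
          _ ≤ ‖x i - w‖ + ‖u - w‖ := norm_sub_le _ _
          _ < 3 := by linarith [h.2]
      have h3 : |x i t - u t| ≤ ‖x i - u‖ := by
        have := EuclideanSpace.norm_eq (x i - u)
        have h4 : (x i t - u t) ^ 2 ≤ ‖x i - u‖ ^ 2 := by
          rw [EuclideanSpace.norm_sq_eq]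
          have h5 := Finset.single_le_sum (f := fun t => ‖(x i - u) t‖ ^ 2)
            (fun t _ => sq_nonneg _) (Finset.mem_univ t)
          simpa only [PiLp.sub_apply, Real.norm_eq_abs, sq_abs] using h5
        exact abs_le_of_sq_le_sq h4 (norm_nonneg _)
      have h6 := abs_lt.1 (h3.trans_lt h2)
      constructor <;> linarith [h6.1, h6.2]
    · rw [if_neg h]
      split_ifs <;> norm_num
  have h0 := nneg_nonneg c w x
  by_cases hKn : K ≤ nw c x 3 u
  · rw [if_pos hKn]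
    have h2 := Real.rpow_le_rpow h0 h1 (by norm_num : (0 : ℝ) ≤ 5 / 3)
    have h3 : 0 ≤ K ^ ((5 : ℝ) / 3) := Real.rpow_nonneg hK _
    linarith
  · rw [if_neg hKn, add_zero]
    exact Real.rpow_le_rpow h0 (h1.trans (not_le.1 hKn).le) (by norm_num)

/-- TARGET -/
theorem num1 {S : Type} [Fintype S] [DecidableEq S] (D : Species S) (hD : D.Valid)
    (hf : ∀ s, D.charge s < 0 → D.fermion s = true) (hz : ∀ s, 0 < |D.charge s|) :
    ∃ C : ℝ, 0 < C ∧ ∀ {I : Type} [Fintype I] [DecidableEq I] (sp : I → S) (ℓ : ℝ) {k : ℕ}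
      (p : Fin k → ℝ) (ψ : Fin k → Wave D I), (∀ j, 0 ≤ p j) → ∑ j, p j = 1 →
      (∀ j, IsState D sp ℓ (ψ j)) → (∀ j, nrm2 D (ψ j) = 1) → ∀ (K : ℝ) (w : E3), 8 ≤ K →
      wx D p ψ (fun x => nb w 1 x ^ ((5 : ℝ) / 3)) ≤
        C * (1 + ∑ j, p j * kb D sp w 8 (ψ j) +
          wx D p ψ (fun x => ∫ ω in Metric.ball w 2, ‖gg D sp K w x ω‖ ^ 2) +
          wx D p ψ (fun x => nn w x ^ ((5 : ℝ) / 9))) := by
  classical
  obtain ⟨K0, Cn, hK0, hCn, Hn⟩ := RPAU.nw_kin D hD hf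
  obtain ⟨Kc, hKc0, hKc1, hKc2⟩ := ct_bounds
  obtain ⟨Cy, hCy, Hy⟩ := yl
  obtain ⟨z, hzdef⟩ : ∃ z, z = ∑ s, |D.charge s| := ⟨_, rfl⟩
  have hz0 : 0 ≤ z := by rw [hzdef]; exact Finset.sum_nonneg fun s _ => abs_nonneg _
  have hzle : ∀ s, |D.charge s| ≤ z := by
    intro s
    rw [hzdef]
    exact Finset.single_le_sum (f := fun s => |D.charge s|) (fun t _ => abs_nonneg _)
      (Finset.mem_univ s)
  obtain ⟨β, hβ, hβc⟩ : ∃ β : ℝ, 0 < β ∧ ∀ s, 1 ≤ β * |D.charge s| := by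
    refine ⟨1 + ∑ s, |D.charge s|⁻¹, ?_, fun s => ?_⟩
    · have : 0 ≤ ∑ s, |D.charge s|⁻¹ := Finset.sum_nonneg fun s _ => by positivity
      linarith
    · have h1 : |D.charge s|⁻¹ ≤ ∑ s, |D.charge s|⁻¹ :=
        Finset.single_le_sum (f := fun s => |D.charge s|⁻¹) (fun t _ => by positivity)
          (Finset.mem_univ s)
      have h2 := hz s
      have h3 : |D.charge s|⁻¹ * |D.charge s| = 1 := inv_mul_cancel₀ h2.ne'
      calc (1 : ℝ) = |D.charge s|⁻¹ * |D.charge s| := h3.symm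
        _ ≤ (1 + ∑ s, |D.charge s|⁻¹) * |D.charge s| :=
          mul_le_mul_of_nonneg_right (by linarith) h2.le
  obtain ⟨V1, hV1⟩ : ∃ V, V = (volume (Metric.ball (0 : E3) 1)).toReal := ⟨_, rfl⟩
  have hV1p : 0 < V1 := by
    rw [hV1]
    exact ENNReal.toReal_pos (Metric.measure_ball_pos _ _ one_pos).ne' measure_ball_lt_top.ne
  obtain ⟨V2, hV2⟩ : ∃ V, V = (volume (Metric.ball (0 : E3) 2)).toReal := ⟨_, rfl⟩
  have hV2p : 0 ≤ V2 := by rw [hV2]; exact ENNReal.toReal_nonneg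
  -- the constant in the bound of the charge
  obtain ⟨Cr, hCr⟩ : ∃ Cr, Cr = Kc * (V2 + 1) + Kc * (Cy * z) := ⟨_, rfl⟩
  have hCr0 : 0 ≤ Cr := by rw [hCr]; positivity
  obtain ⟨Cq, hCq⟩ : ∃ Cq, Cq = β * Cr := ⟨_, rfl⟩
  have hCq0 : 0 ≤ Cq := by rw [hCq]; positivity
  obtain ⟨Cx, hCx⟩ : ∃ Cx, Cx = 3 ^ ((5 : ℝ) / 3) * ((1 + β * z) ^ ((5 : ℝ) / 3) *
      (K0 ^ ((5 : ℝ) / 3) + 1 / V1) + Cq ^ ((5 : ℝ) / 3)) := ⟨_, rfl⟩
  have hCx0 : 0 ≤ Cx := by rw [hCx]; positivity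
  refine ⟨Cx * (Cn * 3 ^ 5 + 1) + 1, by positivity, ?_⟩
  intro I _ _ sp ℓ k p ψ hp hp1 hψ hn K w hK
  have hz' : ∀ i, |D.charge (sp i)| ≤ z := fun i => hzle _
  obtain ⟨J, hJ⟩ : ∃ J : (I → E3) → ℝ, J = fun x => ∫ u in Metric.ball w 1,
    (if K0 ≤ nw (fun i => D.charge (sp i)) x 3 u then
      nw (fun i => D.charge (sp i)) x 3 u ^ ((5 : ℝ) / 3) else 0) := ⟨_, rfl⟩
  obtain ⟨G, hG⟩ : ∃ G : (I → E3) → ℝ, G = fun x =>
    ∫ ω in Metric.ball w 2, ‖gg D sp K w x ω‖ ^ 2 := ⟨_, rfl⟩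
  have hJ0 : ∀ x, 0 ≤ J x := by
    intro x
    rw [hJ]
    refine integral_nonneg fun u => ?_
    simp only [Pi.zero_apply]
    split_ifs
    · exact Real.rpow_nonneg (RPAU.nw_nonneg' _ _ _ _) _
    · exact le_rfl
  have hG0 : ∀ x, 0 ≤ G x := by
    intro x
    rw [hG]
    exact integral_nonneg fun u => by positivity
  obtain ⟨hJI, hJw⟩ := Hn sp ℓ w 1 3 one_pos (by norm_num)
  rw [← hJ] at hJI hJw
  -- the pointwise bound
  have hpt : ∀ x, nb w 1 x ^ ((5 : ℝ) / 3) ≤ Cx * (1 + J x + G x + nn w x ^ ((5 : ℝ) / 9)) := by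
    intro x
    have hmu := mu_ge hK w x
    have hmu0 : 0 < mu K w x := by linarith
    have hnn0 := nn_nonneg w x
    obtain ⟨Q, hQ⟩ : ∃ Q, Q = |∑ i, D.charge (sp i) * cy w 1 (x i)| := ⟨_, rfl⟩
    have hQ0 : 0 ≤ Q := by rw [hQ]; exact abs_nonneg _
    have h1 := nb_le_charge' (fun i => D.charge (sp i)) w x z β hβ (fun i => hβc _) hz'
    rw [← hQ] at h1
    have h2 := charge_le (fun i => D.charge (sp i)) x (mu K w x) hmu0 w Kc hKc0 hKc1 hKc2
    rw [← hQ] at h2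
    obtain ⟨-, hgm, -, ⟨B, hB⟩, -⟩ := kern_facts (fun i => D.charge (sp i)) x (mu K w x) 0 hmu0
    have h3 := l1_le_l2 w (gp (fun i => D.charge (sp i)) x (mu K w x)) hgm B (fun ω => (hB ω).2)
    have hGx : G x = ∫ ω in Metric.ball w 2, ‖gp (fun i => D.charge (sp i)) x (mu K w x) ω‖ ^ 2 := by
      rw [hG]
      rfl
    rw [← hV2, ← hGx] at h3
    have h4 := (Hy (fun i => D.charge (sp i)) x z (mu K w x) hz' hmu w).2.1
    have h5 := nn_div_mu hK w x
    have h6 : Cy * z / mu K w x ^ 2 * nn w x = Cy * z * (nn w x / mu K w x ^ 2) := by ring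
    rw [h6] at h4
    have h7 : Cy * z * (nn w x / mu K w x ^ 2) ≤ Cy * z * nn w x ^ ((1 : ℝ) / 3) :=
      mul_le_mul_of_nonneg_left h5 (by positivity)
    have hs0 : 0 ≤ √(1 + G x) := Real.sqrt_nonneg _
    have hr0 : 0 ≤ nn w x ^ ((1 : ℝ) / 3) := Real.rpow_nonneg hnn0 _
    have h8 : Q ≤ Cr * √(1 + G x) + Cr * nn w x ^ ((1 : ℝ) / 3) := by
      have h9 : Q ≤ 4 * Real.pi * Q := by nlinarith [Real.pi_gt_three]
      have h10 : Kc * ∫ ω in Metric.ball w 2, ‖gp (fun i => D.charge (sp i)) x (mu K w x) ω‖ ≤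
          Kc * ((V2 + 1) * √(1 + G x)) := mul_le_mul_of_nonneg_left h3 hKc0
      have h11 : Kc * ∫ ω in Metric.ball w 2, |yp (fun i => D.charge (sp i)) x (mu K w x) ω| ≤
          Kc * (Cy * z * nn w x ^ ((1 : ℝ) / 3)) := mul_le_mul_of_nonneg_left (h4.trans h7) hKc0
      have h12 : Kc * (V2 + 1) ≤ Cr := by
        rw [hCr]
        have : 0 ≤ Kc * (Cy * z) := by positivity
        linarith
      have h13 : Kc * (Cy * z) ≤ Cr := by
        rw [hCr]
        have : 0 ≤ Kc * (V2 + 1) := by positivity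
        linarith
      have h14 := mul_le_mul_of_nonneg_right h12 hs0
      have h15 := mul_le_mul_of_nonneg_right h13 hr0
      nlinarith
    have h8' : β * Q ≤ Cq * √(1 + G x) + Cq * nn w x ^ ((1 : ℝ) / 3) := by
      have := mul_le_mul_of_nonneg_left h8 hβ.le
      rw [hCq]
      calc β * Q ≤ β * (Cr * √(1 + G x) + Cr * nn w x ^ ((1 : ℝ) / 3)) := this
        _ = _ := by ring
    have hn0 := nneg_nonneg (fun i => D.charge (sp i)) w x
    have h9 : nb w 1 x ≤ (1 + β * z) * nneg (fun i => D.charge (sp i)) w x + Cq * √(1 + G x) +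
        Cq * nn w x ^ ((1 : ℝ) / 3) := by linarith
    have h10 := Real.rpow_le_rpow (nb_nonneg w 1 x) h9 (by norm_num : (0 : ℝ) ≤ 5 / 3)
    refine h10.trans ((three53 (by positivity) (by positivity) (by positivity)).trans ?_)
    have hsp0 : (0 : ℝ) ≤ 3 ^ ((5 : ℝ) / 3) := by positivity
    rw [hCx, mul_assoc]
    refine mul_le_mul_of_nonneg_left ?_ hsp0
    -- the three terms
    have t1 : ((1 + β * z) * nneg (fun i => D.charge (sp i)) w x) ^ ((5 : ℝ) / 3) ≤
        (1 + β * z) ^ ((5 : ℝ) / 3) * (K0 ^ ((5 : ℝ) / 3) + 1 / V1) * (1 + J x) := by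
      rw [Real.mul_rpow (by positivity) hn0, mul_assoc]
      refine mul_le_mul_of_nonneg_left ?_ (by positivity)
      have h11 := nneg_pow_le (fun i => D.charge (sp i)) w x K0 hK0
      have h12 : J x = ∫ u in Metric.ball w 1, (if K0 ≤ nw (fun i => D.charge (sp i)) x 3 u then
        nw (fun i => D.charge (sp i)) x 3 u ^ ((5 : ℝ) / 3) else 0) := by rw [hJ]
      rw [← hV1, ← h12] at h11
      have h13 : nneg (fun i => D.charge (sp i)) w x ^ ((5 : ℝ) / 3) ≤
          K0 ^ ((5 : ℝ) / 3) + 1 / V1 * J x := by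
        have h14 : V1 * (K0 ^ ((5 : ℝ) / 3) + 1 / V1 * J x) = V1 * K0 ^ ((5 : ℝ) / 3) + J x := by
          field_simp
        exact le_of_mul_le_mul_left (h11.trans_eq h14.symm) hV1p
      have h15 : 0 ≤ K0 ^ ((5 : ℝ) / 3) := Real.rpow_nonneg hK0 _
      have h16 : 0 ≤ 1 / V1 := by positivity
      have h17 := hJ0 x
      nlinarith [mul_nonneg h15 h17]
    have t2 : (Cq * √(1 + G x)) ^ ((5 : ℝ) / 3) ≤ Cq ^ ((5 : ℝ) / 3) * (1 + G x) := by
      rw [Real.mul_rpow hCq0 hs0]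
      refine mul_le_mul_of_nonneg_left ?_ (Real.rpow_nonneg hCq0 _)
      have h11 : 1 ≤ 1 + G x := by linarith [hG0 x]
      rw [Real.sqrt_eq_rpow, ← Real.rpow_mul (by linarith)]
      calc (1 + G x) ^ ((1 : ℝ) / 2 * (5 / 3)) ≤ (1 + G x) ^ (1 : ℝ) :=
            Real.rpow_le_rpow_of_exponent_le h11 (by norm_num)
        _ = 1 + G x := Real.rpow_one _
    have t3 : (Cq * nn w x ^ ((1 : ℝ) / 3)) ^ ((5 : ℝ) / 3) =
        Cq ^ ((5 : ℝ) / 3) * nn w x ^ ((5 : ℝ) / 9) := by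
      rw [Real.mul_rpow hCq0 hr0, ← Real.rpow_mul hnn0]
      norm_num
    rw [t3]
    have a1 : 0 ≤ (1 + β * z) ^ ((5 : ℝ) / 3) * (K0 ^ ((5 : ℝ) / 3) + 1 / V1) := by positivity
    have a2 : 0 ≤ Cq ^ ((5 : ℝ) / 3) := Real.rpow_nonneg hCq0 _
    have a3 := hJ0 x
    have a4 := hG0 x
    have a5 : 0 ≤ nn w x ^ ((5 : ℝ) / 9) := Real.rpow_nonneg hnn0 _
    nlinarith [mul_nonneg a1 a4, mul_nonneg a1 a5, mul_nonneg a2 a3]
  -- integrability
  have hnbI : WI D sp ℓ (fun x => nb w 1 x ^ ((5 : ℝ) / 3)) := by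
    refine WI_bm D sp ℓ _ ((nb_meas w 1).pow_const _) ((Fintype.card I : ℝ) ^ ((5 : ℝ) / 3))
      fun x => ?_
    rw [abs_of_nonneg (Real.rpow_nonneg (nb_nonneg w 1 x) _)]
    exact Real.rpow_le_rpow (nb_nonneg w 1 x) (nb_le w 1 x) (by norm_num)
  have hnnI : WI D sp ℓ (fun x => nn w x ^ ((5 : ℝ) / 9)) := by
    refine WI_bm D sp ℓ _ ((nn_meas w).pow_const _) ((Fintype.card I : ℝ) ^ ((5 : ℝ) / 9))
      fun x => ?_
    rw [abs_of_nonneg (Real.rpow_nonneg (nn_nonneg w x) _)]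
    exact Real.rpow_le_rpow (nn_nonneg w x) ((nn_le_nh w x).trans (nh_le_card w x)) (by norm_num)
  have hGI : WI D sp ℓ G := by
    have hfin : IsFiniteMeasure (volume.restrict (Metric.ball w (2 : ℝ))) :=
      ⟨by rw [Measure.restrict_apply_univ]; exact measure_ball_lt_top⟩
    obtain ⟨B, hB⟩ : ∃ B, B = ∑ i, |D.charge (sp i)| *
      ((K * (1 + (Fintype.card I : ℝ))) ^ ((1 : ℝ) / 3)) ^ 2 := ⟨_, rfl⟩
    refine WI_bm D sp ℓ _ ?_ (B ^ 2 * V2) fun x => ?_
    · rw [hG]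
      have h1 : Measurable (fun q : (I → E3) × E3 => ‖gg D sp K w q.1 q.2‖ ^ 2) :=
        (gg_meas D sp K w).norm.pow_const 2
      exact (h1.stronglyMeasurable.integral_prod_right
        (ν := volume.restrict (Metric.ball w (2 : ℝ)))).measurable
    · rw [abs_of_nonneg (hG0 x), hG]
      have h1 : ∀ ω, ‖gg D sp K w x ω‖ ^ 2 ≤ B ^ 2 := fun ω =>
        pow_le_pow_left₀ (norm_nonneg _) (by rw [hB]; exact gg_le D sp hK w x ω) 2
      calc ∫ ω in Metric.ball w 2, ‖gg D sp K w x ω‖ ^ 2 ≤ ∫ _ω in Metric.ball w (2 : ℝ), B ^ 2 :=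
            integral_mono_of_nonneg (Filter.Eventually.of_forall fun ω => by positivity)
              (integrable_const _) (Filter.Eventually.of_forall h1)
        _ = B ^ 2 * V2 := by
            rw [setIntegral_const, smul_eq_mul, measureReal_def, Measure.addHaar_ball_center,
              ← hV2, mul_comm]
  have h1I : WI D sp ℓ (fun _ => (1 : ℝ)) := WI_const D sp ℓ 1
  have hA := WI_add D sp ℓ h1I hJI
  have hB := WI_add D sp ℓ hA hGI
  have hC := WI_add D sp ℓ hB hnnI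
  have hmono := wx_mono D sp p ψ ℓ hnbI (WI_smul D sp ℓ hC Cx) hψ hp hpt
  refine hmono.trans ?_
  rw [wx_smul, wx_add D sp p ψ ℓ hB hnnI hψ, wx_add D sp p ψ ℓ hA hGI hψ,
    wx_add D sp p ψ ℓ h1I hJI hψ, wx_one D p ψ hp1 hn]
  have hkb : wx D p ψ J ≤ Cn * 3 ^ 5 * ∑ j, p j * kb D sp w 8 (ψ j) := by
    unfold wx
    rw [Finset.mul_sum]
    refine Finset.sum_le_sum fun j _ => ?_
    have h1 := hJw (ψ j) (hψ j)
    have h2 := kb_mono D hD sp ℓ (ψ j) (hψ j) w (by norm_num : (1 : ℝ) + 2 * 3 ≤ 8)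
    have h3 : wm D J (ψ j) ≤ Cn * 3 ^ 5 * kb D sp w 8 (ψ j) :=
      h1.trans (mul_le_mul_of_nonneg_left h2 (by positivity))
    calc p j * wm D J (ψ j) ≤ p j * (Cn * 3 ^ 5 * kb D sp w 8 (ψ j)) :=
          mul_le_mul_of_nonneg_left h3 (hp j)
      _ = Cn * 3 ^ 5 * (p j * kb D sp w 8 (ψ j)) := by ring
  have hkb0 : 0 ≤ ∑ j, p j * kb D sp w 8 (ψ j) := by
    refine Finset.sum_nonneg fun j _ => mul_nonneg (hp j) ?_
    unfold kb
    refine Finset.sum_nonneg fun τ _ => integral_nonneg fun x => Finset.sum_nonneg fun i _ => ?_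
    simp only
    split_ifs
    · exact RPAU.kin_nonneg' D hD sp i _ x
    · exact le_rfl
  have hG0' : 0 ≤ wx D p ψ G := wx_nonneg D p ψ hp hG0
  have hnn0' : 0 ≤ wx D p ψ (fun x => nn w x ^ ((5 : ℝ) / 9)) :=
    wx_nonneg D p ψ hp fun x => Real.rpow_nonneg (nn_nonneg w x) _
  have hGe : wx D p ψ (fun x => ∫ ω in Metric.ball w 2, ‖gg D sp K w x ω‖ ^ 2) = wx D p ψ G := by
    rw [hG]
  rw [hGe]
  obtain ⟨T, hT⟩ : ∃ T, T = ∑ j, p j * kb D sp w 8 (ψ j) := ⟨_, rfl⟩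
  rw [← hT] at hkb hkb0 ⊢
  obtain ⟨X, hX⟩ : ∃ X, X = Cn * 3 ^ 5 := ⟨_, rfl⟩
  have hX0 : 0 ≤ X := by rw [hX]; positivity
  rw [← hX] at hkb ⊢
  obtain ⟨a, ha⟩ : ∃ a, a = wx D p ψ G := ⟨_, rfl⟩
  obtain ⟨b, hb⟩ : ∃ b, b = wx D p ψ (fun x => nn w x ^ ((5 : ℝ) / 9)) := ⟨_, rfl⟩
  rw [← ha] at hG0' ⊢
  rw [← hb] at hnn0' ⊢
  have s0 : 0 ≤ 1 + T + a + b := by linarith
  have s1 : 1 + wx D p ψ J + a + b ≤ (X + 1) * (1 + T + a + b) := by
    have s2 : 0 ≤ X * (1 + a + b) := mul_nonneg hX0 (by linarith)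
    nlinarith
  calc Cx * (1 + wx D p ψ J + a + b) ≤ Cx * ((X + 1) * (1 + T + a + b)) :=
        mul_le_mul_of_nonneg_left s1 hCx0
    _ = Cx * (X + 1) * (1 + T + a + b) := by ring
    _ ≤ (Cx * (X + 1) + 1) * (1 + T + a + b) :=
        mul_le_mul_of_nonneg_right (by linarith) s0

end Pool.Agent.Helper780_CP.RB14
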