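import Pool.Agent.Helper780_CP.LLDefs2
import Pool.Agent.Helper780_CP.BnDefs
import Pool.Agent.Helper780_CP.RPAU
import Pool.Agent.Helper780_CP.RB14

set_option autoImplicit false

open MeasureTheory
open scoped Topology

namespace Pool.Agent.Helper780_CP.RB15

open Pool.Agent.Helper780_CP
open Pool.Agent.Helper985.CP
open Pool.Agent.Helper780_CP.RB14 (num1)

open Pool.Agent.Helper780_CP Pool.Agent.Helper985.CP

theorem nn_nonneg {I : Type} [Fintype I] (w : E3) (x : I → E3) : 0 ≤ nn w x :=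
  Finset.sum_nonneg fun _ _ => (Real.exp_pos _).le

theorem nn_le_nh {I : Type} [Fintype I] (w : E3) (x : I → E3) : nn w x ≤ nh w x := by
  unfold nn nh
  refine Finset.sum_le_sum fun j _ => Real.exp_le_exp.2 ?_
  have h1 : √(1 + ‖x j - w‖ ^ 2) ≤ 1 + ‖x j - w‖ := by
    rw [Real.sqrt_le_left (by positivity)]
    nlinarith [norm_nonneg (x j - w)]
  linarith

theorem nh_le_card {I : Type} [Fintype I] (w : E3) (x : I → E3) :
    nh w x ≤ (Fintype.card I : ℝ) := by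
  unfold nh
  calc ∑ j, Real.exp (1 - √(1 + ‖x j - w‖ ^ 2)) ≤ ∑ _j : I, (1 : ℝ) := by
        refine Finset.sum_le_sum fun j _ => ?_
        rw [Real.exp_le_one_iff]
        have h1 : 1 ≤ √(1 + ‖x j - w‖ ^ 2) := by
          rw [Real.one_le_sqrt]
          nlinarith [sq_nonneg ‖x j - w‖]
        linarith
    _ = (Fintype.card I : ℝ) := by simp

theorem nh_nonneg {I : Type} [Fintype I] (w : E3) (x : I → E3) : 0 ≤ nh w x :=
  (nn_nonneg w x).trans (nn_le_nh w x)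

theorem mu_ge {I : Type} [Fintype I] {K : ℝ} (hK : 8 ≤ K) (w : E3) (x : I → E3) :
    2 ≤ mu K w x := by
  have h0 := nh_nonneg w x
  unfold mu
  have h1 : (8 : ℝ) ^ ((1 : ℝ) / 3) ≤ (K * (1 + nh w x)) ^ ((1 : ℝ) / 3) :=
    Real.rpow_le_rpow (by norm_num) (by nlinarith) (by norm_num)
  have h2 : (8 : ℝ) ^ ((1 : ℝ) / 3) = 2 := by
    rw [show (8 : ℝ) = 2 ^ (3 : ℝ) by norm_num, ← Real.rpow_mul (by norm_num)]
    norm_num
  linarith

theorem mu_le {I : Type} [Fintype I] {K : ℝ} (hK : 8 ≤ K) (w : E3) (x : I → E3) :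
    mu K w x ≤ (K * (1 + (Fintype.card I : ℝ))) ^ ((1 : ℝ) / 3) := by
  have h0 := nh_nonneg w x
  have h1 := nh_le_card w x
  unfold mu
  exact Real.rpow_le_rpow (by nlinarith) (by nlinarith) (by norm_num)

theorem Gk_meas : Measurable (fun q : ℝ × E3 => Gk q.1 q.2) := by
  unfold Gk
  fun_prop

theorem Gk_le {μ : ℝ} (hμ : 0 ≤ μ) (w : E3) : ‖Gk μ w‖ ≤ μ ^ 2 := by
  unfold Gk
  rcases eq_or_ne w 0 with h | h
  · rw [h]
    simp only [smul_zero, norm_zero]
    positivity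
  · have hr : 0 < ‖w‖ := norm_pos_iff.2 h
    have ht : 0 ≤ μ * ‖w‖ := by positivity
    have h1 : Real.exp (-(μ * ‖w‖)) * (1 + μ * ‖w‖) ≤ 1 := by
      have h2 := Real.add_one_le_exp (μ * ‖w‖)
      rw [Real.exp_neg, inv_mul_le_iff₀ (Real.exp_pos _)]
      linarith
    have h3 : 1 - Real.exp (-(μ * ‖w‖)) * (1 + μ * ‖w‖) ≤ (μ * ‖w‖) ^ 2 := by
      have h2 := Real.add_one_le_exp (-(μ * ‖w‖))
      nlinarith
    rw [norm_smul, norm_div, norm_pow, norm_norm, Real.norm_of_nonneg (by linarith),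
      div_mul_eq_mul_div, div_le_iff₀ (by positivity)]
    calc (1 - Real.exp (-(μ * ‖w‖)) * (1 + μ * ‖w‖)) * ‖w‖ ≤ (μ * ‖w‖) ^ 2 * ‖w‖ :=
          mul_le_mul_of_nonneg_right h3 hr.le
      _ = μ ^ 2 * ‖w‖ ^ 3 := by ring

theorem mu_meas {I : Type} [Fintype I] (K : ℝ) (w : E3) :
    Measurable (fun x : I → E3 => mu K w x) := by
  unfold mu nh
  fun_prop

theorem gg_meas {S : Type} (D : Species S) {I : Type} [Fintype I] (sp : I → S) (K : ℝ) (w : E3) :
    Measurable (fun q : (I → E3) × E3 => gg D sp K w q.1 q.2) := by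
  unfold gg gp
  refine Finset.measurable_sum _ fun i _ => ?_
  have h1 : Measurable (fun q : (I → E3) × E3 => ((mu K w q.1, q.1 i - q.2) : ℝ × E3)) := by
    refine ((mu_meas K w).comp measurable_fst).prodMk ?_
    fun_prop
  exact (Gk_meas.comp h1).const_smul (D.charge (sp i))

theorem gg_le {S : Type} (D : Species S) {I : Type} [Fintype I] (sp : I → S) {K : ℝ} (hK : 8 ≤ K)
    (w : E3) (x : I → E3) (ω : E3) : ‖gg D sp K w x ω‖ ≤
      ∑ i, |D.charge (sp i)| * ((K * (1 + (Fintype.card I : ℝ))) ^ ((1 : ℝ) / 3)) ^ 2 := by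
  unfold gg gp
  refine (norm_sum_le _ _).trans (Finset.sum_le_sum fun i _ => ?_)
  rw [norm_smul, Real.norm_eq_abs]
  have h1 := mu_ge hK w x
  refine mul_le_mul_of_nonneg_left ((Gk_le (by linarith) _).trans ?_) (abs_nonneg _)
  exact pow_le_pow_left₀ (by linarith) (mu_le hK w x) 2

section wx

variable {S : Type} (D : Species S) {I : Type} [Fintype I] [DecidableEq I] (sp : I → S)
  {k : ℕ} (p : Fin k → ℝ) (ψ : Fin k → Wave D I)

theorem wx_add (ℓ : ℝ) {V W : (I → E3) → ℝ} (hV : WI D sp ℓ V) (hW : WI D sp ℓ W)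
    (hψ : ∀ j, IsState D sp ℓ (ψ j)) :
    wx D p ψ (fun x => V x + W x) = wx D p ψ V + wx D p ψ W := by
  unfold wx
  rw [← Finset.sum_add_distrib]
  refine Finset.sum_congr rfl fun j _ => ?_
  rw [wm_add D sp ℓ hV hW (ψ j) (hψ j)]
  ring

theorem wx_smul (V : (I → E3) → ℝ) (c : ℝ) :
    wx D p ψ (fun x => c * V x) = c * wx D p ψ V := by
  unfold wx
  rw [Finset.mul_sum]
  refine Finset.sum_congr rfl fun j _ => ?_
  rw [wm_smul D V c (ψ j)]
  ring

theorem wx_mono (ℓ : ℝ) {V W : (I → E3) → ℝ} (hV : WI D sp ℓ V) (hW : WI D sp ℓ W)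
    (hψ : ∀ j, IsState D sp ℓ (ψ j)) (hp : ∀ j, 0 ≤ p j) (h : ∀ x, V x ≤ W x) :
    wx D p ψ V ≤ wx D p ψ W := by
  unfold wx
  refine Finset.sum_le_sum fun j _ => ?_
  exact mul_le_mul_of_nonneg_left
    (wm_mono D sp ℓ hV hW (ψ j) (hψ j) (Filter.Eventually.of_forall h)) (hp j)

theorem wx_nonneg {V : (I → E3) → ℝ} (hp : ∀ j, 0 ≤ p j) (h : ∀ x, 0 ≤ V x) :
    0 ≤ wx D p ψ V := by
  unfold wx wm
  exact Finset.sum_nonneg fun j _ => mul_nonneg (hp j) (Finset.sum_nonneg fun τ _ =>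
    integral_nonneg fun x => mul_nonneg (h x) (sq_nonneg _))

theorem wx_one (hp1 : ∑ j, p j = 1) (hn : ∀ j, nrm2 D (ψ j) = 1) :
    wx D p ψ (fun _ => 1) = 1 := by
  unfold wx
  have h : ∀ j, p j * wm D (fun _ => 1) (ψ j) = p j := fun j => by rw [wm_one, hn, mul_one]
  rw [Finset.sum_congr rfl fun j _ => h j, hp1]

theorem WI_bm (ℓ : ℝ) (V : (I → E3) → ℝ) (hV : Measurable V) (B : ℝ) (hB : ∀ x, |V x| ≤ B) :
    WI D sp ℓ V := by
  intro Ψ hΨ τ
  exact RPAU.bdd_int V hV B hB _ (int_state D sp ℓ Ψ hΨ τ).1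

end wx

theorem nb_nonneg {I : Type} [Fintype I] (y : E3) (R : ℝ) (x : I → E3) : 0 ≤ nb y R x := by
  unfold nb
  exact Finset.sum_nonneg fun j _ => by split_ifs <;> norm_num

theorem nb_le {I : Type} [Fintype I] (y : E3) (R : ℝ) (x : I → E3) :
    nb y R x ≤ (Fintype.card I : ℝ) := by
  unfold nb
  calc _ ≤ ∑ _j : I, (1 : ℝ) := Finset.sum_le_sum fun j _ => by split_ifs <;> norm_num
    _ = (Fintype.card I : ℝ) := by simp

theorem nb_meas {I : Type} [Fintype I] (y : E3) (R : ℝ) :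
    Measurable (fun x : I → E3 => nb y R x) := by
  unfold nb
  refine Finset.measurable_sum _ fun i _ => Measurable.ite ?_ measurable_const measurable_const
  exact measurableSet_le (by fun_prop) measurable_const

theorem nn_meas {I : Type} [Fintype I] (y : E3) : Measurable (fun x : I → E3 => nn y x) := by
  unfold nn
  fun_prop

theorem kb_mono {S : Type} (D : Species S) (hD : D.Valid) {I : Type} [Fintype I] [DecidableEq I]
    (sp : I → S) (ℓ : ℝ) (Ψ : Wave D I) (hΨ : IsState D sp ℓ Ψ) (y : E3) {R R' : ℝ} (h : R ≤ R') :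
    kb D sp y R Ψ ≤ kb D sp y R' Ψ := by
  unfold kb
  have hint : ∀ (R : ℝ) (τ : I → Fin D.g), Integrable (fun x : I → E3 =>
      ∑ j, if ‖x j - y‖ < R then kin D sp j (Ψ τ) x else 0) := by
    intro R τ
    refine integrable_finsetSum _ fun i _ => ?_
    have hm : Measurable (fun x : I → E3 => if ‖x i - y‖ < R then (1 : ℝ) else 0) := by
      refine Measurable.ite ?_ measurable_const measurable_const
      exact measurableSet_lt (by fun_prop) measurable_const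
    refine (RPAU.bdd_int _ hm 1 (fun x => by split_ifs <;> simp) _
      ((int_state D sp ℓ Ψ hΨ τ).2.1 i)).congr (Filter.Eventually.of_forall fun x => ?_)
    simp only
    split_ifs <;> simp
  refine Finset.sum_le_sum fun τ _ => integral_mono (hint R τ) (hint R' τ) fun x => ?_
  refine Finset.sum_le_sum fun j _ => ?_
  have h0 := RPAU.kin_nonneg' D hD sp j (Ψ τ) x
  split_ifs with h1 h2
  · exact le_rfl
  · exact absurd (h1.trans_le h) h2
  · exact h0
  · exact le_rfl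

section supp

variable {S : Type} (D : Species S) {I : Type} [Fintype I] [DecidableEq I] (sp : I → S)
  {k : ℕ} (p : Fin k → ℝ) (ψ : Fin k → Wave D I)

theorem zero_out (ℓ : ℝ) {Ψ : Wave D I} (hΨ : IsState D sp ℓ Ψ) (τ : I → Fin D.g) {x : I → E3}
    (hx : ¬ ∀ i, x i ∈ cube ℓ) : x ∉ tsupport (Ψ τ) := fun h => hx (hΨ.support τ h)

theorem wx_mono_supp (ℓ : ℝ) {V W : (I → E3) → ℝ} (hV : WI D sp ℓ V) (hW : WI D sp ℓ W)
    (hψ : ∀ j, IsState D sp ℓ (ψ j)) (hp : ∀ j, 0 ≤ p j)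
    (h : ∀ x, (∀ i, x i ∈ cube ℓ) → V x ≤ W x) :
    wx D p ψ V ≤ wx D p ψ W := by
  unfold wx wm
  refine Finset.sum_le_sum fun j _ => mul_le_mul_of_nonneg_left ?_ (hp j)
  refine Finset.sum_le_sum fun τ _ => integral_mono (hV _ (hψ j) τ) (hW _ (hψ j) τ) fun x => ?_
  by_cases hx : ∀ i, x i ∈ cube ℓ
  · exact mul_le_mul_of_nonneg_right (h x hx) (sq_nonneg _)
  · have h1 := image_eq_zero_of_notMem_tsupport (zero_out D sp ℓ (hψ j) τ hx)
    simp only [h1, norm_zero]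
    simp

end supp

theorem coord_le (z : E3) (k : Fin 3) : |z k| ≤ ‖z‖ := by
  have h4 : z k ^ 2 ≤ ‖z‖ ^ 2 := by
    rw [EuclideanSpace.norm_sq_eq]
    have h5 := Finset.single_le_sum (f := fun t => ‖z t‖ ^ 2)
      (fun t _ => sq_nonneg _) (Finset.mem_univ k)
    simpa only [Real.norm_eq_abs, sq_abs] using h5
  exact abs_le_of_sq_le_sq h4 (norm_nonneg _)

theorem cube_norm {ℓ : ℝ} {z : E3} (hz : z ∈ cube ℓ) : ‖z‖ ≤ 3 * ℓ := by
  have h0 := hz 0
  have h1 := hz 1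
  have h2 := hz 2
  have hl : 0 ≤ 3 * ℓ := by linarith [h0.1, h0.2]
  have h3 : ‖z‖ ^ 2 ≤ (3 * ℓ) ^ 2 := by
    rw [EuclideanSpace.norm_sq_eq, Fin.sum_univ_three]
    simp only [Real.norm_eq_abs, sq_abs]
    nlinarith [h0.1, h0.2, h1.1, h1.2, h2.1, h2.2]
  exact le_of_sq_le_sq h3 hl |>.trans le_rfl

theorem cover3 : ∃ F : Finset E3, ∀ z : E3, ‖z‖ ≤ 3 → ∃ q ∈ F, ‖z - q‖ ≤ 1 := by
  obtain ⟨t, -, htf, ht2⟩ := (isCompact_closedBall (0 : E3) 3).finite_cover_balls
    (e := 1) one_pos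
  refine ⟨htf.toFinset, fun z hz => ?_⟩
  have h1 := ht2 (mem_closedBall_zero_iff.2 hz)
  rw [Set.mem_iUnion₂] at h1
  obtain ⟨q, hq, hzq⟩ := h1
  exact ⟨q, htf.mem_toFinset.2 hq, (mem_ball_iff_norm.1 hzq).le⟩

theorem nb_cover {I : Type} [Fintype I] (F : Finset E3)
    (hF : ∀ z : E3, ‖z‖ ≤ 3 → ∃ q ∈ F, ‖z - q‖ ≤ 1) (w : E3) (x : I → E3) :
    nb w 3 x ≤ ∑ q ∈ F, nb (w + q) 1 x := by
  unfold nb
  rw [Finset.sum_comm]
  refine Finset.sum_le_sum fun i _ => ?_
  by_cases h : ‖x i - w‖ ≤ 3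
  · rw [if_pos h]
    obtain ⟨q, hq, h1⟩ := hF _ h
    have h2 := Finset.single_le_sum (f := fun q => if ‖x i - (w + q)‖ ≤ 1 then (1 : ℝ) else 0)
      (fun q _ => by split_ifs <;> norm_num) hq
    refine le_trans (le_of_eq ?_) h2
    rw [if_pos]
    rwa [← sub_sub]
  · rw [if_neg h]
    exact Finset.sum_nonneg fun q _ => by split_ifs <;> norm_num

theorem exp_int : Integrable (fun u : E3 => Real.exp (-‖u‖)) := by
  have h := (integrable_one_add_norm (E := E3) (μ := volume) (r := 4)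
    (by rw [finrank_euclideanSpace, Fintype.card_fin]; norm_num)).const_mul (24 * Real.exp 1)
  refine h.mono' (by fun_prop) (Filter.Eventually.of_forall fun u => ?_)
  rw [Real.norm_of_nonneg (Real.exp_pos _).le]
  have h0 : 0 ≤ ‖u‖ := norm_nonneg u
  have h1 := Real.pow_div_factorial_le_exp (1 + ‖u‖) (by positivity) 4
  rw [Real.exp_add] at h1
  have h2 : ((Nat.factorial 4 : ℕ) : ℝ) = 24 := by norm_num [Nat.factorial]
  rw [h2, div_le_iff₀ (by norm_num)] at h1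
  have h3 : (1 + ‖u‖) ^ (-(4 : ℝ)) = ((1 + ‖u‖) ^ 4)⁻¹ := by
    rw [Real.rpow_neg (by positivity)]
    congr 1
    rw [← Real.rpow_natCast]
    norm_num
  rw [h3, Real.exp_neg, ← div_eq_mul_inv, inv_eq_one_div, div_le_div_iff₀ (Real.exp_pos _)
    (by positivity)]
  linarith

theorem exp_ball (w : E3) (ρ : ℝ) :
    ∫ u in Metric.ball w ρ, Real.exp (-‖u - w‖) ≤ ∫ u : E3, Real.exp (-‖u‖) := by
  have h1 : Integrable (fun u : E3 => Real.exp (-‖u - w‖)) := exp_int.comp_sub_right w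
  calc ∫ u in Metric.ball w ρ, Real.exp (-‖u - w‖) ≤ ∫ u : E3, Real.exp (-‖u - w‖) :=
        setIntegral_le_integral h1 (Filter.Eventually.of_forall fun u => (Real.exp_pos _).le)
    _ = ∫ u : E3, Real.exp (-‖u‖) :=
        integral_sub_right_eq_self (fun u : E3 => Real.exp (-‖u‖)) w

theorem bint (w : E3) (ρ : ℝ) (f : E3 → ℝ) (hf : Measurable f) (B : ℝ) (hB : ∀ u, |f u| ≤ B) :
    Integrable f (volume.restrict (Metric.ball w ρ)) := by
  have hfin : IsFiniteMeasure (volume.restrict (Metric.ball w ρ)) :=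
    ⟨by rw [Measure.restrict_apply_univ]; exact measure_ball_lt_top⟩
  exact (integrable_const B).mono' hf.aestronglyMeasurable (Filter.Eventually.of_forall hB)

theorem exp_le_one' (w u : E3) : |Real.exp (-‖u - w‖)| ≤ 1 := by
  rw [abs_of_pos (Real.exp_pos _), Real.exp_le_one_iff]
  linarith [norm_nonneg (u - w)]

theorem one_part (w z : E3) (ρ : ℝ) (h : Metric.closedBall z 1 ⊆ Metric.ball w ρ) :
    (volume (Metric.closedBall (0 : E3) 1)).toReal * Real.exp (-‖z - w‖) ≤ Real.exp 1 *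
      ∫ u in Metric.ball w ρ, Real.exp (-‖u - w‖) * (if ‖z - u‖ ≤ 1 then 1 else 0) := by
  have hm : Measurable (fun u : E3 => Real.exp (-‖u - w‖) * (if ‖z - u‖ ≤ 1 then (1 : ℝ) else 0)) := by
    refine Measurable.mul (by fun_prop) (Measurable.ite ?_ measurable_const measurable_const)
    exact measurableSet_le (by fun_prop) measurable_const
  have hb : ∀ u : E3, |Real.exp (-‖u - w‖) * (if ‖z - u‖ ≤ 1 then (1 : ℝ) else 0)| ≤ 1 := by
    intro u
    rw [abs_mul]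
    have h1 := exp_le_one' w u
    have h2 : |if ‖z - u‖ ≤ 1 then (1 : ℝ) else 0| ≤ 1 := by split_ifs <;> simp
    exact mul_le_one₀ h1 (abs_nonneg _) h2
  have hi := bint w ρ _ hm 1 hb
  have h1 : ∫ u in Metric.closedBall z 1,
      Real.exp (-‖u - w‖) * (if ‖z - u‖ ≤ 1 then (1 : ℝ) else 0) ≤
      ∫ u in Metric.ball w ρ, Real.exp (-‖u - w‖) * (if ‖z - u‖ ≤ 1 then (1 : ℝ) else 0) := by
    refine setIntegral_mono_set hi (Filter.Eventually.of_forall fun u => ?_)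
      (Filter.Eventually.of_forall h)
    simp only [Pi.zero_apply]
    split_ifs
    · positivity
    · simp
  have h2 : ∫ _u in Metric.closedBall z (1 : ℝ), Real.exp (-‖z - w‖ - 1) ≤
      ∫ u in Metric.closedBall z 1,
        Real.exp (-‖u - w‖) * (if ‖z - u‖ ≤ 1 then (1 : ℝ) else 0) := by
    refine setIntegral_mono_on ?_ ?_ measurableSet_closedBall fun u hu => ?_
    · exact integrableOn_const (isCompact_closedBall _ _).measure_lt_top.ne
    · exact IntegrableOn.mono_set hi h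
    · rw [mem_closedBall_iff_norm] at hu
      have h3 : ‖z - u‖ ≤ 1 := by rwa [norm_sub_rev]
      rw [if_pos h3, mul_one]
      apply Real.exp_le_exp.2
      have h4 : ‖u - w‖ ≤ ‖u - z‖ + ‖z - w‖ := by
        calc ‖u - w‖ = ‖(u - z) + (z - w)‖ := by congr 1; abel
          _ ≤ ‖u - z‖ + ‖z - w‖ := norm_add_le _ _
      linarith
  rw [setIntegral_const, smul_eq_mul, measureReal_def, Measure.addHaar_closedBall_center] at h2
  have h3 := mul_le_mul_of_nonneg_left (h2.trans h1) (Real.exp_pos 1).le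
  refine le_trans (le_of_eq ?_) h3
  rw [show -‖z - w‖ - 1 = -‖z - w‖ + (-1) by ring, Real.exp_add]
  have h4 : Real.exp 1 * Real.exp (-1) = 1 := by
    rw [← Real.exp_add]
    norm_num
  linear_combination (-(volume (Metric.closedBall (0 : E3) 1)).toReal * Real.exp (-‖z - w‖)) * h4

theorem nb_meas2 {I : Type} [Fintype I] (R : ℝ) :
    Measurable (fun q : (I → E3) × E3 => nb q.2 R q.1) := by
  unfold nb
  refine Finset.measurable_sum _ fun i _ => Measurable.ite ?_ measurable_const measurable_const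
  exact measurableSet_le (by fun_prop) measurable_const

theorem nn_avg {I : Type} [Fintype I] (w : E3) (x : I → E3) (ρ : ℝ)
    (h : ∀ i, Metric.closedBall (x i) 1 ⊆ Metric.ball w ρ) :
    (volume (Metric.closedBall (0 : E3) 1)).toReal * nn w x ≤ Real.exp 1 *
      ∫ u in Metric.ball w ρ, Real.exp (-‖u - w‖) * nb u 1 x := by
  have e1 : ∫ u in Metric.ball w ρ, Real.exp (-‖u - w‖) * nb u 1 x =
      ∑ i, ∫ u in Metric.ball w ρ, Real.exp (-‖u - w‖) * (if ‖x i - u‖ ≤ 1 then 1 else 0) := by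
    rw [← integral_finsetSum]
    · refine integral_congr_ae (Filter.Eventually.of_forall fun u => ?_)
      simp only [nb, Finset.mul_sum]
    · intro i _
      refine bint w ρ _ ?_ 1 fun u => ?_
      · refine Measurable.mul (by fun_prop) (Measurable.ite ?_ measurable_const measurable_const)
        exact measurableSet_le (by fun_prop) measurable_const
      · rw [abs_mul]
        have h1 := exp_le_one' w u
        have h2 : |if ‖x i - u‖ ≤ 1 then (1 : ℝ) else 0| ≤ 1 := by split_ifs <;> simp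
        exact mul_le_one₀ h1 (abs_nonneg _) h2
  rw [e1, Finset.mul_sum]
  unfold nn
  rw [Finset.mul_sum]
  exact Finset.sum_le_sum fun i _ => one_part w (x i) ρ (h i)

theorem young53 {s t : ℝ} (hs : 0 ≤ s) (ht : 0 ≤ t) :
    5 / 3 * (s ^ ((2 : ℝ) / 3) * t) ≤ t ^ ((5 : ℝ) / 3) + 2 / 3 * s ^ ((5 : ℝ) / 3) := by
  have hpq : (5 / 2 : ℝ).HolderConjugate (5 / 3) := by
    rw [Real.holderConjugate_iff]
    norm_num
  have h1 := Real.young_inequality_of_nonneg (Real.rpow_nonneg hs ((2 : ℝ) / 3)) ht hpq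
  rw [← Real.rpow_mul hs] at h1
  norm_num at h1
  linarith

theorem jensen53 {α : Type} [MeasurableSpace α] (μ : Measure α) (a f : α → ℝ)
    (ha : ∀ u, 0 ≤ a u) (hf : ∀ u, 0 ≤ f u) (h0 : Integrable a μ)
    (h1 : Integrable (fun u => a u * f u) μ)
    (h2 : Integrable (fun u => a u * f u ^ ((5 : ℝ) / 3)) μ) (M : ℝ) (hM : 0 < M)
    (haM : ∫ u, a u ∂μ ≤ M) :
    (∫ u, a u * f u ∂μ) ^ ((5 : ℝ) / 3) ≤
      M ^ ((2 : ℝ) / 3) * ∫ u, a u * f u ^ ((5 : ℝ) / 3) ∂μ := by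
  obtain ⟨X, hX⟩ : ∃ X, X = ∫ u, a u * f u ∂μ := ⟨_, rfl⟩
  obtain ⟨Y, hY⟩ : ∃ Y, Y = ∫ u, a u * f u ^ ((5 : ℝ) / 3) ∂μ := ⟨_, rfl⟩
  rw [← hX, ← hY]
  have hX0 : 0 ≤ X := by
    rw [hX]
    exact integral_nonneg fun u => mul_nonneg (ha u) (hf u)
  obtain ⟨s, hs⟩ : ∃ s, s = X / M := ⟨_, rfl⟩
  have hs0 : 0 ≤ s := by rw [hs]; positivity
  have hXs : X = s * M := by rw [hs]; field_simp
  have h3 : ∫ u, (5 / 3 * s ^ ((2 : ℝ) / 3) * (a u * f u) - 2 / 3 * s ^ ((5 : ℝ) / 3) * a u) ∂μ ≤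
      Y := by
    rw [hY]
    refine integral_mono ((h1.const_mul _).sub (h0.const_mul _)) h2 fun u => ?_
    have h4 := mul_le_mul_of_nonneg_left (young53 hs0 (hf u)) (ha u)
    simp only
    linarith
  rw [integral_sub (h1.const_mul _) (h0.const_mul _), integral_const_mul, integral_const_mul,
    ← hX] at h3
  have h4 : s ^ ((5 : ℝ) / 3) = s ^ ((2 : ℝ) / 3) * s := by
    have : s ^ ((2 : ℝ) / 3 + 1) = s ^ ((2 : ℝ) / 3) * s ^ (1 : ℝ) :=
      Real.rpow_add_of_nonneg hs0 (by norm_num) (by norm_num)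
    rw [Real.rpow_one] at this
    rw [← this]
    norm_num
  have h5 : 0 ≤ s ^ ((5 : ℝ) / 3) := Real.rpow_nonneg hs0 _
  have h6 : s ^ ((5 : ℝ) / 3) * ∫ u, a u ∂μ ≤ s ^ ((5 : ℝ) / 3) * M :=
    mul_le_mul_of_nonneg_left haM h5
  have h7 : s ^ ((5 : ℝ) / 3) * M ≤ Y := by
    have h8 : 5 / 3 * s ^ ((2 : ℝ) / 3) * X = 5 / 3 * (s ^ ((5 : ℝ) / 3) * M) := by
      rw [hXs, h4]
      ring
    rw [h8] at h3
    linarith
  have h8 : M ^ ((5 : ℝ) / 3) = M ^ ((2 : ℝ) / 3) * M := by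
    have : M ^ ((2 : ℝ) / 3 + 1) = M ^ ((2 : ℝ) / 3) * M ^ (1 : ℝ) :=
      Real.rpow_add hM _ _
    rw [Real.rpow_one] at this
    rw [← this]
    norm_num
  rw [hXs, Real.mul_rpow hs0 hM.le, h8]
  calc s ^ ((5 : ℝ) / 3) * (M ^ ((2 : ℝ) / 3) * M) = M ^ ((2 : ℝ) / 3) * (s ^ ((5 : ℝ) / 3) * M) := by
        ring
    _ ≤ M ^ ((2 : ℝ) / 3) * Y := mul_le_mul_of_nonneg_left h7 (Real.rpow_nonneg hM.le _)

/-- Fubini for the average over the centre -/
theorem wx_avg {S : Type} (D : Species S) {I : Type} [Fintype I] [DecidableEq I] (sp : I → S)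
    {k : ℕ} (p : Fin k → ℝ) (ψ : Fin k → Wave D I) (ℓ : ℝ) (hψ : ∀ j, IsState D sp ℓ (ψ j))
    (N : ℝ) (hN0 : 0 ≤ N) (hN : ∀ u : E3, wx D p ψ (fun x => nb u 1 x ^ ((5 : ℝ) / 3)) ≤ N)
    (w : E3) (ρ : ℝ) :
    WI D sp ℓ (fun x => ∫ u in Metric.ball w ρ,
      Real.exp (-‖u - w‖) * nb u 1 x ^ ((5 : ℝ) / 3)) ∧
    wx D p ψ (fun x => ∫ u in Metric.ball w ρ,
      Real.exp (-‖u - w‖) * nb u 1 x ^ ((5 : ℝ) / 3)) ≤ (∫ u : E3, Real.exp (-‖u‖)) * N := by
  obtain ⟨G, hG⟩ : ∃ G : (I → E3) → E3 → ℝ, G = fun x u =>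
    Real.exp (-‖u - w‖) * nb u 1 x ^ ((5 : ℝ) / 3) := ⟨_, rfl⟩
  have hGm : Measurable (fun q : (I → E3) × E3 => G q.1 q.2) := by
    rw [hG]
    exact Measurable.mul (by fun_prop) ((nb_meas2 1).pow_const _)
  have hGb : ∀ x u, |G x u| ≤ (Fintype.card I : ℝ) ^ ((5 : ℝ) / 3) := by
    intro x u
    rw [hG]
    simp only
    rw [abs_mul, abs_of_nonneg (Real.rpow_nonneg (nb_nonneg u 1 x) _)]
    have h1 := exp_le_one' w u
    have h2 : nb u 1 x ^ ((5 : ℝ) / 3) ≤ (Fintype.card I : ℝ) ^ ((5 : ℝ) / 3) :=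
      Real.rpow_le_rpow (nb_nonneg _ _ _) (nb_le _ _ _) (by norm_num)
    calc |Real.exp (-‖u - w‖)| * nb u 1 x ^ ((5 : ℝ) / 3) ≤ 1 * nb u 1 x ^ ((5 : ℝ) / 3) :=
          mul_le_mul_of_nonneg_right h1 (Real.rpow_nonneg (nb_nonneg _ _ _) _)
      _ ≤ _ := by rw [one_mul]; exact h2
  have hfub := fun (f : (I → E3) → ℝ) (hf : Integrable f) => RPAU.pau_fub G hGm _ hGb f hf w ρ
  have hst := fun j τ => (int_state D sp ℓ (ψ j) (hψ j) τ).1
  have hGe : (fun x : I → E3 => ∫ u in Metric.ball w ρ,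
      Real.exp (-‖u - w‖) * nb u 1 x ^ ((5 : ℝ) / 3)) =
      fun x => ∫ u in Metric.ball w ρ, G x u := by rw [hG]
  rw [hGe]
  refine ⟨fun Ψ hΨ τ => (hfub _ (int_state D sp ℓ Ψ hΨ τ).1).1, ?_⟩
  obtain ⟨g, hg⟩ : ∃ g : E3 → ℝ, g = fun u => ∑ j, p j * ∑ τ, ∫ x, G x u * ‖ψ j τ x‖ ^ 2 :=
    ⟨_, rfl⟩
  have hgi : Integrable g (volume.restrict (Metric.ball w ρ)) := by
    rw [hg]
    exact integrable_finsetSum _ fun j _ => (integrable_finsetSum _ fun τ _ =>
      (hfub _ (hst j τ)).2.1).const_mul _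
  have e1 : wx D p ψ (fun x => ∫ u in Metric.ball w ρ, G x u) = ∫ u in Metric.ball w ρ, g u := by
    rw [hg, integral_finsetSum _ fun j _ => (integrable_finsetSum _ fun τ _ =>
      (hfub _ (hst j τ)).2.1).const_mul _]
    unfold wx wm
    refine Finset.sum_congr rfl fun j _ => ?_
    rw [integral_const_mul, integral_finsetSum _ fun τ _ => (hfub _ (hst j τ)).2.1]
    congr 1
    exact Finset.sum_congr rfl fun τ _ => (hfub _ (hst j τ)).2.2
  have e2 : ∀ u, g u = Real.exp (-‖u - w‖) * wx D p ψ (fun x => nb u 1 x ^ ((5 : ℝ) / 3)) := by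
    intro u
    rw [hg, hG]
    unfold wx wm
    simp only
    rw [Finset.mul_sum]
    refine Finset.sum_congr rfl fun j _ => ?_
    rw [mul_left_comm]
    congr 1
    rw [Finset.mul_sum]
    refine Finset.sum_congr rfl fun τ _ => ?_
    rw [← integral_const_mul]
    refine integral_congr_ae (Filter.Eventually.of_forall fun x => ?_)
    simp only
    ring
  rw [e1]
  have hei : Integrable (fun u : E3 => Real.exp (-‖u - w‖)) (volume.restrict (Metric.ball w ρ)) :=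
    bint w ρ _ (by fun_prop) 1 (exp_le_one' w)
  calc ∫ u in Metric.ball w ρ, g u ≤ ∫ u in Metric.ball w ρ, Real.exp (-‖u - w‖) * N := by
        refine integral_mono hgi (hei.mul_const N) fun u => ?_
        simp only
        rw [e2]
        exact mul_le_mul_of_nonneg_left (hN u) (Real.exp_pos _).le
    _ = (∫ u in Metric.ball w ρ, Real.exp (-‖u - w‖)) * N := integral_mul_const _ _
    _ ≤ (∫ u : E3, Real.exp (-‖u‖)) * N := mul_le_mul_of_nonneg_right (exp_ball w ρ) hN0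

/-- the smeared number -/
theorem wx_nn {S : Type} (D : Species S) : ∃ C : ℝ, 0 < C ∧
    ∀ {I : Type} [Fintype I] [DecidableEq I] (sp : I → S)
    {k : ℕ} (p : Fin k → ℝ) (ψ : Fin k → Wave D I) (ℓ : ℝ), (∀ j, IsState D sp ℓ (ψ j)) →
    (∀ j, 0 ≤ p j) →
    ∀ (N : ℝ), 0 ≤ N → (∀ u : E3, wx D p ψ (fun x => nb u 1 x ^ ((5 : ℝ) / 3)) ≤ N) →
    ∀ w : E3, wx D p ψ (fun x => nn w x ^ ((5 : ℝ) / 3)) ≤ C * N := by
  obtain ⟨M0, hM0⟩ : ∃ M0, M0 = ∫ u : E3, Real.exp (-‖u‖) := ⟨_, rfl⟩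
  have hM0p : 0 ≤ M0 := by rw [hM0]; exact integral_nonneg fun u => (Real.exp_pos _).le
  obtain ⟨V1, hV1⟩ : ∃ V, V = (volume (Metric.closedBall (0 : E3) 1)).toReal := ⟨_, rfl⟩
  have hV1p : 0 < V1 := by
    rw [hV1]
    exact ENNReal.toReal_pos (Metric.measure_closedBall_pos _ _ one_pos).ne'
      (isCompact_closedBall _ _).measure_lt_top.ne
  refine ⟨(Real.exp 1 / V1) ^ ((5 : ℝ) / 3) * ((M0 + 1) ^ ((2 : ℝ) / 3) * (M0 + 1)),
    by positivity, ?_⟩
  intro I _ _ sp k p ψ ℓ hψ hp N hN0 hN w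
  obtain ⟨ρ, hρ⟩ : ∃ ρ, ρ = ‖w‖ + 3 * ℓ + 2 := ⟨_, rfl⟩
  obtain ⟨h1, h2⟩ := wx_avg D sp p ψ ℓ hψ N hN0 hN w ρ
  obtain ⟨Y, hY⟩ : ∃ Y : (I → E3) → ℝ, Y = fun x => ∫ u in Metric.ball w ρ,
      Real.exp (-‖u - w‖) * nb u 1 x ^ ((5 : ℝ) / 3) := ⟨_, rfl⟩
  rw [← hY, ← hM0] at h2
  rw [← hY] at h1
  obtain ⟨Cc, hCc⟩ : ∃ Cc, Cc = (Real.exp 1 / V1) ^ ((5 : ℝ) / 3) * (M0 + 1) ^ ((2 : ℝ) / 3) :=
    ⟨_, rfl⟩
  have hCc0 : 0 ≤ Cc := by rw [hCc]; positivity
  have hnnI : WI D sp ℓ (fun x => nn w x ^ ((5 : ℝ) / 3)) := by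
    refine WI_bm D sp ℓ _ ((nn_meas w).pow_const _) ((Fintype.card I : ℝ) ^ ((5 : ℝ) / 3))
      fun x => ?_
    rw [abs_of_nonneg (Real.rpow_nonneg (nn_nonneg w x) _)]
    exact Real.rpow_le_rpow (nn_nonneg w x) ((nn_le_nh w x).trans (nh_le_card w x)) (by norm_num)
  have h3 : wx D p ψ (fun x => nn w x ^ ((5 : ℝ) / 3)) ≤ wx D p ψ (fun x => Cc * Y x) := by
    refine wx_mono_supp D sp p ψ ℓ hnnI (WI_smul D sp ℓ h1 Cc) hψ hp fun x hx => ?_
    have h4 : ∀ i, Metric.closedBall (x i) 1 ⊆ Metric.ball w ρ := by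
      intro i v hv
      rw [mem_closedBall_iff_norm] at hv
      rw [mem_ball_iff_norm, hρ]
      have h5 := cube_norm (hx i)
      calc ‖v - w‖ = ‖(v - x i) + (x i) - w‖ := by congr 1; abel
        _ ≤ ‖(v - x i) + (x i)‖ + ‖w‖ := norm_sub_le _ _
        _ ≤ ‖v - x i‖ + ‖x i‖ + ‖w‖ := by linarith [norm_add_le (v - x i) (x i)]
        _ < ‖w‖ + 3 * ℓ + 2 := by linarith
    have h5 := nn_avg w x ρ h4
    rw [← hV1] at h5
    have hbm : Measurable (fun u : E3 => nb u 1 x) := by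
      unfold nb
      refine Finset.measurable_sum _ fun i _ => Measurable.ite ?_ measurable_const measurable_const
      exact measurableSet_le (by fun_prop) measurable_const
    have i0 : Integrable (fun u : E3 => Real.exp (-‖u - w‖)) (volume.restrict (Metric.ball w ρ)) :=
      bint w ρ _ (by fun_prop) 1 (exp_le_one' w)
    have i1 : Integrable (fun u : E3 => Real.exp (-‖u - w‖) * nb u 1 x)
        (volume.restrict (Metric.ball w ρ)) := by
      refine bint w ρ _ (Measurable.mul (by fun_prop) hbm) (Fintype.card I : ℝ) fun u => ?_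
      rw [abs_mul, abs_of_nonneg (nb_nonneg u 1 x)]
      calc |Real.exp (-‖u - w‖)| * nb u 1 x ≤ 1 * nb u 1 x :=
            mul_le_mul_of_nonneg_right (exp_le_one' w u) (nb_nonneg u 1 x)
        _ ≤ (Fintype.card I : ℝ) := by rw [one_mul]; exact nb_le u 1 x
    have i2 : Integrable (fun u : E3 => Real.exp (-‖u - w‖) * nb u 1 x ^ ((5 : ℝ) / 3))
        (volume.restrict (Metric.ball w ρ)) := by
      refine bint w ρ _ (Measurable.mul (by fun_prop) (hbm.pow_const _))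
        ((Fintype.card I : ℝ) ^ ((5 : ℝ) / 3)) fun u => ?_
      rw [abs_mul, abs_of_nonneg (Real.rpow_nonneg (nb_nonneg u 1 x) _)]
      calc |Real.exp (-‖u - w‖)| * nb u 1 x ^ ((5 : ℝ) / 3) ≤ 1 * nb u 1 x ^ ((5 : ℝ) / 3) :=
            mul_le_mul_of_nonneg_right (exp_le_one' w u) (Real.rpow_nonneg (nb_nonneg u 1 x) _)
        _ ≤ (Fintype.card I : ℝ) ^ ((5 : ℝ) / 3) := by
            rw [one_mul]
            exact Real.rpow_le_rpow (nb_nonneg _ _ _) (nb_le _ _ _) (by norm_num)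
    have hM1 : 0 < M0 + 1 := by linarith
    have hM2 : ∫ u in Metric.ball w ρ, Real.exp (-‖u - w‖) ≤ M0 + 1 := by
      rw [hM0]
      linarith [exp_ball w ρ]
    have h6 := jensen53 (volume.restrict (Metric.ball w ρ)) (fun u : E3 => Real.exp (-‖u - w‖))
      (fun u : E3 => nb u 1 x) (fun u => (Real.exp_pos _).le) (fun u => nb_nonneg u 1 x)
      i0 i1 i2 (M0 + 1) hM1 hM2
    have hYx : Y x = ∫ u in Metric.ball w ρ,
        Real.exp (-‖u - w‖) * nb u 1 x ^ ((5 : ℝ) / 3) := by rw [hY]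
    rw [← hYx] at h6
    have hX0 : 0 ≤ ∫ u in Metric.ball w ρ, Real.exp (-‖u - w‖) * nb u 1 x :=
      integral_nonneg fun u => mul_nonneg (Real.exp_pos _).le (nb_nonneg u 1 x)
    have h7 : nn w x ≤ Real.exp 1 / V1 *
        ∫ u in Metric.ball w ρ, Real.exp (-‖u - w‖) * nb u 1 x := by
      rw [div_mul_eq_mul_div, le_div_iff₀ hV1p]
      linarith
    calc nn w x ^ ((5 : ℝ) / 3) ≤ (Real.exp 1 / V1 *
          ∫ u in Metric.ball w ρ, Real.exp (-‖u - w‖) * nb u 1 x) ^ ((5 : ℝ) / 3) :=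
          Real.rpow_le_rpow (nn_nonneg w x) h7 (by norm_num)
      _ = (Real.exp 1 / V1) ^ ((5 : ℝ) / 3) *
          (∫ u in Metric.ball w ρ, Real.exp (-‖u - w‖) * nb u 1 x) ^ ((5 : ℝ) / 3) :=
          Real.mul_rpow (by positivity) hX0
      _ ≤ (Real.exp 1 / V1) ^ ((5 : ℝ) / 3) * ((M0 + 1) ^ ((2 : ℝ) / 3) * Y x) :=
          mul_le_mul_of_nonneg_left h6 (by positivity)
      _ = Cc * Y x := by rw [hCc]; ring
  rw [wx_smul] at h3
  refine h3.trans ?_
  have h8 : M0 * N ≤ (M0 + 1) * N := mul_le_mul_of_nonneg_right (by linarith) hN0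
  calc Cc * wx D p ψ Y ≤ Cc * ((M0 + 1) * N) := mul_le_mul_of_nonneg_left (h2.trans h8) hCc0
    _ = (Real.exp 1 / V1) ^ ((5 : ℝ) / 3) * ((M0 + 1) ^ ((2 : ℝ) / 3) * (M0 + 1)) * N := by
        rw [hCc]; ring

theorem gg_meas1 {S : Type} (D : Species S) {I : Type} [Fintype I] (sp : I → S) (K : ℝ) (w : E3)
    (x : I → E3) : Measurable (fun ω : E3 => ‖gg D sp K w x ω‖ ^ 2) := by
  have h0 : Measurable (fun ω : E3 => gg D sp K w x ω) := by
    unfold gg gp
    refine Finset.measurable_sum _ fun i _ => ?_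
    have h1 : Measurable (fun ω : E3 => ((mu K w x, x i - ω) : ℝ × E3)) :=
      measurable_const.prodMk (by fun_prop)
    exact (Gk_meas.comp h1).const_smul (D.charge (sp i))
  exact h0.norm.pow_const 2

theorem G_mono {S : Type} (D : Species S) {I : Type} [Fintype I] [DecidableEq I] (sp : I → S)
    {k : ℕ} (p : Fin k → ℝ) (ψ : Fin k → Wave D I) (ℓ : ℝ) (hψ : ∀ j, IsState D sp ℓ (ψ j))
    (hp : ∀ j, 0 ≤ p j) (K : ℝ) (hK : 8 ≤ K) (u : E3) :
    wx D p ψ (fun x => ∫ ω in Metric.ball u 2, ‖gg D sp K u x ω‖ ^ 2) ≤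
      wx D p ψ (fun x => ∫ ω in Metric.ball u 60, ‖gg D sp K u x ω‖ ^ 2) := by
  obtain ⟨B, hB⟩ : ∃ B, B = ∑ i, |D.charge (sp i)| *
    ((K * (1 + (Fintype.card I : ℝ))) ^ ((1 : ℝ) / 3)) ^ 2 := ⟨_, rfl⟩
  have hgb0 : ∀ (x : I → E3) (ω : E3), ‖gg D sp K u x ω‖ ^ 2 ≤ B ^ 2 := fun x ω =>
    pow_le_pow_left₀ (norm_nonneg _) (by rw [hB]; exact gg_le D sp hK u x ω) 2
  have hgm0 : Measurable (fun q : (I → E3) × E3 => ‖gg D sp K u q.1 q.2‖ ^ 2) :=
    (gg_meas D sp K u).norm.pow_const 2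
  have hg10 : ∀ x : I → E3, Measurable (fun ω : E3 => ‖gg D sp K u x ω‖ ^ 2) :=
    fun x => gg_meas1 D sp K u x
  have hg00 : ∀ (x : I → E3) (ω : E3), 0 ≤ ‖gg D sp K u x ω‖ ^ 2 := fun x ω => by positivity
  obtain ⟨G, hG⟩ : ∃ G : (I → E3) → E3 → ℝ, G = fun x ω => ‖gg D sp K u x ω‖ ^ 2 := ⟨_, rfl⟩
  have hGx : ∀ x ω, ‖gg D sp K u x ω‖ ^ 2 = G x ω := fun x ω => by rw [hG]
  simp only [hGx] at hgb0 hgm0 hg10 hg00 ⊢
  clear hGx hG
  have hgi : ∀ (R : ℝ) (x : I → E3), Integrable (fun ω => G x ω)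
      (volume.restrict (Metric.ball u R)) := by
    intro R x
    refine bint u R _ (hg10 x) (B ^ 2) fun ω => ?_
    rw [abs_of_nonneg (hg00 x ω)]
    exact hgb0 x ω
  have hGI : ∀ R : ℝ, WI D sp ℓ (fun x => ∫ ω in Metric.ball u R, G x ω) := by
    intro R
    have hfin : IsFiniteMeasure (volume.restrict (Metric.ball u R)) :=
      ⟨by rw [Measure.restrict_apply_univ]; exact measure_ball_lt_top⟩
    refine WI_bm D sp ℓ _ ?_ (∫ _ω in Metric.ball u R, B ^ 2) fun x => ?_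
    · have h2 : StronglyMeasurable (fun q : (I → E3) × E3 => G q.1 q.2) := hgm0.stronglyMeasurable
      exact (h2.integral_prod_right (ν := volume.restrict (Metric.ball u R))).measurable
    · rw [abs_of_nonneg (integral_nonneg fun ω => hg00 x ω)]
      exact integral_mono (hgi R x) (integrable_const _) fun ω => hgb0 x ω
  refine wx_mono D sp p ψ ℓ (hGI 2) (hGI 60) hψ hp fun x => ?_
  exact setIntegral_mono_set (hgi 60 x) (Filter.Eventually.of_forall fun ω => hg00 x ω)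
    (Filter.Eventually.of_forall (Metric.ball_subset_ball (by norm_num)))

/-- TARGET -/
theorem num_sup {S : Type} [Fintype S] [DecidableEq S] (D : Species S) (hD : D.Valid)
    (hf : ∀ s, D.charge s < 0 → D.fermion s = true) (hz : ∀ s, 0 < |D.charge s|) (C0 : ℝ)
    (hC0 : 0 ≤ C0) : ∃ C : ℝ, 0 < C ∧
    ∀ {I : Type} [Fintype I] [DecidableEq I] (sp : I → S) (ℓ η : ℝ) {k : ℕ} (p : Fin k → ℝ)
      (ψ : Fin k → Wave D I), BS D sp ℓ C0 η p ψ → ∀ K A : ℝ, 8 ≤ K → 0 ≤ A →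
      (∀ y ∈ wall ℓ, qB D sp K p ψ y ≤ A) → ∀ w : E3,
      (∑ j, p j * kb D sp w 3 (ψ j) ≤ C * (1 + A)) ∧
      wx D p ψ (fun x => nb w 3 x ^ ((5 : ℝ) / 3)) ≤ C * (1 + A) ∧
      wx D p ψ (fun x => nn w x ^ ((5 : ℝ) / 3)) ≤ C * (1 + A) ∧
      wx D p ψ (fun x => nh w x ^ ((5 : ℝ) / 3)) ≤ C * (1 + A) := by
  classical
  obtain ⟨C1, hC1, Hnum⟩ := num1 D hD hf hz
  obtain ⟨C2, hC2, Hnn⟩ := wx_nn D
  obtain ⟨F, hF⟩ := cover3
  obtain ⟨δ, hδ⟩ : ∃ δ, δ = 1 / (2 * C1 * C2) := ⟨_, rfl⟩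
  have hδ0 : 0 < δ := by rw [hδ]; positivity
  have hδ1 : C1 * (δ * C2) = 1 / 2 := by
    rw [hδ]
    field_simp
  obtain ⟨Cd, hCd⟩ : ∃ Cd, Cd = 1 / δ + 1 := ⟨_, rfl⟩
  have hCd0 : 0 < Cd := by rw [hCd]; positivity
  obtain ⟨E, hE⟩ : ∃ E, E = 2 * (C1 * (1 + Cd) + C0) := ⟨_, rfl⟩
  have hE0 : 0 < E := by
    rw [hE]
    have : 0 < C1 * (1 + Cd) := by positivity
    linarith
  obtain ⟨CF, hCF⟩ : ∃ CF : ℝ, CF = (F.card : ℝ) ^ ((5 : ℝ) / 3 - 1) * F.card := ⟨_, rfl⟩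
  have hCF0 : 0 ≤ CF := by rw [hCF]; positivity
  obtain ⟨e5, he5⟩ : ∃ e5, e5 = Real.exp 1 ^ ((5 : ℝ) / 3) := ⟨_, rfl⟩
  have he50 : 0 < e5 := by rw [he5]; positivity
  refine ⟨(1 + C0) + CF * E + C2 * E + e5 * (C2 * E), by positivity, ?_⟩
  intro I _ _ sp ℓ η k p ψ hBS K A hK hA hwall
  have hψ := hBS.state
  have hp := hBS.p0
  have hp1 := hBS.p1
  have hn := hBS.nrm
  have hℓ := hBS.len
  have hnbI : ∀ (u : E3) (R : ℝ), WI D sp ℓ (fun x => nb u R x ^ ((5 : ℝ) / 3)) := by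
    intro u R
    refine WI_bm D sp ℓ _ ((nb_meas u R).pow_const _) ((Fintype.card I : ℝ) ^ ((5 : ℝ) / 3))
      fun x => ?_
    rw [abs_of_nonneg (Real.rpow_nonneg (nb_nonneg u R x) _)]
    exact Real.rpow_le_rpow (nb_nonneg u R x) (nb_le u R x) (by norm_num)
  have hnnI : ∀ (u : E3) (s : ℝ), 0 ≤ s → WI D sp ℓ (fun x => nn u x ^ s) := by
    intro u s hs
    refine WI_bm D sp ℓ _ ((nn_meas u).pow_const _) ((Fintype.card I : ℝ) ^ s)
      fun x => ?_
    rw [abs_of_nonneg (Real.rpow_nonneg (nn_nonneg u x) _)]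
    exact Real.rpow_le_rpow (nn_nonneg u x) ((nn_le_nh u x).trans (nh_le_card u x)) hs
  have hnhI : ∀ (u : E3) (s : ℝ), 0 ≤ s → WI D sp ℓ (fun x => nh u x ^ s) := by
    intro u s hs
    have hm : Measurable (fun x : I → E3 => nh u x) := by
      unfold nh
      fun_prop
    refine WI_bm D sp ℓ _ (hm.pow_const _) ((Fintype.card I : ℝ) ^ s)
      fun x => ?_
    rw [abs_of_nonneg (Real.rpow_nonneg (nh_nonneg u x) _)]
    exact Real.rpow_le_rpow (nh_nonneg u x) (nh_le_card u x) hs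
  have hconst : ∀ c : ℝ, wx D p ψ (fun _ => c) = c := by
    intro c
    have h1 := wx_smul D p ψ (fun _ => (1 : ℝ)) c
    rw [wx_one D p ψ hp1 hn, mul_one] at h1
    simpa only [mul_one] using h1
  -- the supremum
  obtain ⟨f, hf'⟩ : ∃ f : E3 → ℝ, f = fun u => wx D p ψ (fun x => nb u 1 x ^ ((5 : ℝ) / 3)) :=
    ⟨_, rfl⟩
  have hfb : ∀ u, f u ≤ (Fintype.card I : ℝ) ^ ((5 : ℝ) / 3) := by
    intro u
    rw [hf', ← hconst ((Fintype.card I : ℝ) ^ ((5 : ℝ) / 3))]
    exact wx_mono D sp p ψ ℓ (hnbI u 1) (WI_const D sp ℓ _) hψ hp fun x =>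
      Real.rpow_le_rpow (nb_nonneg u 1 x) (nb_le u 1 x) (by norm_num)
  have hf0 : ∀ u, 0 ≤ f u := by
    intro u
    rw [hf']
    exact wx_nonneg D p ψ hp fun x => Real.rpow_nonneg (nb_nonneg u 1 x) _
  obtain ⟨N, hN⟩ : ∃ N, N = ⨆ u, f u := ⟨_, rfl⟩
  have hfN : ∀ u, f u ≤ N := by
    intro u
    rw [hN]
    exact le_ciSup (f := f) ⟨_, by rintro y ⟨u, rfl⟩; exact hfb u⟩ u
  have hN0 : 0 ≤ N := (hf0 0).trans (hfN 0)
  have hfN' : ∀ u : E3, wx D p ψ (fun x => nb u 1 x ^ ((5 : ℝ) / 3)) ≤ N := by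
    intro u
    have := hfN u
    rw [hf'] at this
    exact this
  have hnn53 := Hnn sp p ψ ℓ hψ hp N hN0 hfN'
  have hkb0 : ∀ (u : E3) (R : ℝ) (j : Fin k), 0 ≤ kb D sp u R (ψ j) := by
    intro u R j
    unfold kb
    refine Finset.sum_nonneg fun τ _ => integral_nonneg fun x => Finset.sum_nonneg fun i _ => ?_
    simp only
    split_ifs
    · exact RPAU.kin_nonneg' D hD sp i _ x
    · exact le_rfl
  -- the three cases
  have hcases : ∀ u : E3, (∑ j, p j * kb D sp u 3 (ψ j) ≤ A + C0) ∧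
      f u ≤ C1 * (1 + A + Cd) + C0 + N / 2 := by
    intro u
    have hpos : 0 ≤ C1 * (1 + A + Cd) := by positivity
    by_cases h1 : ∀ k, 20 ≤ u k ∧ u k ≤ ℓ - 20
    · -- the interior
      have h2 : Metric.closedBall u 4 ⊆ cube ℓ := by
        intro v hv t
        rw [mem_closedBall_iff_norm] at hv
        have h3 := (coord_le (v - u) t).trans hv
        rw [PiLp.sub_apply] at h3
        have h4 := abs_le.1 h3
        have h5 := h1 t
        constructor <;> linarith [h4.1, h4.2, h5.1, h5.2]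
      obtain ⟨h3, h4⟩ := hBS.int u h2
      refine ⟨by linarith, ?_⟩
      have h5 : f u ≤ wx D p ψ (fun x => nb u 3 x ^ ((5 : ℝ) / 3)) := by
        rw [hf']
        refine wx_mono D sp p ψ ℓ (hnbI u 1) (hnbI u 3) hψ hp fun x => ?_
        refine Real.rpow_le_rpow (nb_nonneg u 1 x) ?_ (by norm_num)
        unfold nb
        refine Finset.sum_le_sum fun i _ => ?_
        split_ifs with h6 h7
        · exact le_rfl
        · exact absurd (h6.trans (by norm_num)) h7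
        · exact zero_le_one
        · exact le_rfl
      linarith
    · by_cases h2 : ∀ k, -3 ≤ u k ∧ u k ≤ ℓ + 3
      · -- the layer near the walls
        have hq := hwall u ⟨h2, h1⟩
        unfold qB at hq
        have hG : wx D p ψ (fun x => ∫ ω in Metric.ball u 2, ‖gg D sp K u x ω‖ ^ 2) ≤
            wx D p ψ (fun x => ∫ ω in Metric.ball u 60, ‖gg D sp K u x ω‖ ^ 2) := by
          exact G_mono D sp p ψ ℓ hψ hp K hK u
        have hkbm : ∑ j, p j * kb D sp u 3 (ψ j) ≤ ∑ j, p j * kb D sp u 8 (ψ j) :=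
          Finset.sum_le_sum fun j _ => mul_le_mul_of_nonneg_left
            (kb_mono D hD sp ℓ (ψ j) (hψ j) u (by norm_num)) (hp j)
        have hG0 : 0 ≤ wx D p ψ (fun x => ∫ ω in Metric.ball u 60, ‖gg D sp K u x ω‖ ^ 2) :=
          wx_nonneg D p ψ hp fun x => integral_nonneg fun ω => by positivity
        refine ⟨by linarith, ?_⟩
        have h3 := Hnum sp ℓ p ψ hp hp1 hψ hn K u hK
        have h4 : wx D p ψ (fun x => nn u x ^ ((5 : ℝ) / 9)) ≤ δ * (C2 * N) + Cd := by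
          have h5 : wx D p ψ (fun x => nn u x ^ ((5 : ℝ) / 9)) ≤
              wx D p ψ (fun x => δ * nn u x ^ ((5 : ℝ) / 3) + Cd) := by
            refine wx_mono D sp p ψ ℓ (hnnI u _ (by norm_num)) (WI_add D sp ℓ
              (WI_smul D sp ℓ (hnnI u _ (by norm_num)) δ) (WI_const D sp ℓ Cd)) hψ hp fun x => ?_
            obtain ⟨s, hs⟩ : ∃ s, s = nn u x ^ ((5 : ℝ) / 9) := ⟨_, rfl⟩
            have hs0 : 0 ≤ s := by rw [hs]; exact Real.rpow_nonneg (nn_nonneg u x) _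
            have hs3 : nn u x ^ ((5 : ℝ) / 3) = s ^ 3 := by
              rw [hs, ← Real.rpow_natCast, ← Real.rpow_mul (nn_nonneg u x)]
              norm_num
            rw [hs3, ← hs]
            rcases le_or_gt s Cd with h6 | h6
            · have : 0 ≤ δ * s ^ 3 := by positivity
              linarith
            · have h7 : 1 / δ < s := by
                rw [hCd] at h6
                linarith
              have h8 : 1 < s := by
                have h9 : 0 < 1 / δ := by positivity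
                rw [hCd] at h6
                linarith
              have h9 : 1 < δ * s := by
                rw [div_lt_iff₀ hδ0] at h7
                linarith
              have h10 : s ≤ δ * s ^ 3 := by
                have h11 : s ^ 2 ≤ (δ * s) * s ^ 2 := by nlinarith [sq_nonneg s]
                nlinarith
              linarith
          have h6 := wx_add D sp p ψ ℓ (WI_smul D sp ℓ (hnnI u ((5 : ℝ) / 3) (by norm_num)) δ)
            (WI_const D sp ℓ Cd) hψ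
          rw [h6, wx_smul, hconst] at h5
          have h7 := mul_le_mul_of_nonneg_left (hnn53 u) hδ0.le
          linarith
        have h5 : f u ≤ C1 * (1 + A + (δ * (C2 * N) + Cd)) := by
          rw [hf']
          refine h3.trans (mul_le_mul_of_nonneg_left ?_ hC1.le)
          linarith
        have h6 : C1 * (1 + A + (δ * (C2 * N) + Cd)) =
            C1 * (1 + A + Cd) + C1 * (δ * C2) * N := by ring
        rw [h6, hδ1] at h5
        linarith
      · -- outside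
        push Not at h2
        obtain ⟨t, ht⟩ := h2
        have h3 : ∀ v ∈ cube ℓ, 3 < ‖v - u‖ := by
          intro v hv
          have h4 := hv t
          have h5 := coord_le (v - u) t
          rw [PiLp.sub_apply] at h5
          refine lt_of_lt_of_le ?_ h5
          by_cases h6 : -3 ≤ u t
          · have h7 := ht h6
            rw [abs_sub_comm]
            exact lt_of_lt_of_le (by linarith [h4.2]) (le_abs_self _)
          · exact lt_of_lt_of_le (by linarith [h4.1]) (le_abs_self _)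
        have h4 : f u ≤ 0 := by
          rw [hf', ← hconst 0]
          refine wx_mono_supp D sp p ψ ℓ (hnbI u 1) (WI_const D sp ℓ 0) hψ hp fun x hx => ?_
          have h5 : nb u 1 x = 0 := by
            unfold nb
            refine Finset.sum_eq_zero fun i _ => if_neg ?_
            have := h3 (x i) (hx i)
            linarith
          rw [h5, Real.zero_rpow (by norm_num)]
        have h5 : ∀ j, kb D sp u 3 (ψ j) = 0 := by
          intro j
          unfold kb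
          refine Finset.sum_eq_zero fun τ _ => ?_
          have h6 : ∀ x, (∑ i, if ‖x i - u‖ < 3 then kin D sp i (ψ j τ) x else 0) = 0 := by
            intro x
            refine Finset.sum_eq_zero fun i _ => ?_
            by_cases hx : x ∈ tsupport (ψ j τ)
            · rw [if_neg]
              have := h3 (x i) ((hψ j).support τ hx i)
              linarith
            · have h7 : fderiv ℝ (ψ j τ) x = 0 := fderiv_of_notMem_tsupport ℝ hx
              unfold kin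
              rw [h7]
              simp
          simp only [h6, integral_zero]
        refine ⟨?_, by linarith⟩
        simp only [h5, mul_zero, Finset.sum_const_zero]
        linarith
  -- the bound of the supremum
  have hNle : N ≤ E * (1 + A) := by
    have h1 : N ≤ C1 * (1 + A + Cd) + C0 + N / 2 := by
      rw [hN]
      refine ciSup_le fun u => ?_
      rw [← hN]
      exact (hcases u).2
    have h2 : C1 * (1 + A + Cd) + C0 ≤ (C1 * (1 + Cd) + C0) * (1 + A) := by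
      have h3 : 0 ≤ C1 * Cd * A := by positivity
      have h4 : 0 ≤ C0 * A := by positivity
      nlinarith
    rw [hE]
    linarith
  have hA1 : 0 ≤ 1 + A := by linarith
  have x1 : 0 ≤ CF * E * (1 + A) := by positivity
  have x2 : 0 ≤ C2 * E * (1 + A) := by positivity
  have x3 : 0 ≤ e5 * (C2 * E) * (1 + A) := by positivity
  have x4 : 0 ≤ (1 + C0) * (1 + A) := by positivity
  intro w
  have hnnw : wx D p ψ (fun x => nn w x ^ ((5 : ℝ) / 3)) ≤ C2 * E * (1 + A) := by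
    calc wx D p ψ (fun x => nn w x ^ ((5 : ℝ) / 3)) ≤ C2 * N := hnn53 w
      _ ≤ C2 * (E * (1 + A)) := mul_le_mul_of_nonneg_left hNle hC2.le
      _ = C2 * E * (1 + A) := by ring
  refine ⟨?_, ?_, ?_, ?_⟩
  · have h1 := (hcases w).1
    have h2 : A + C0 ≤ (1 + C0) * (1 + A) := by nlinarith
    nlinarith
  · have h1 : wx D p ψ (fun x => nb w 3 x ^ ((5 : ℝ) / 3)) ≤
        wx D p ψ (fun x => (F.card : ℝ) ^ ((5 : ℝ) / 3 - 1) *
          ∑ q ∈ F, nb (w + q) 1 x ^ ((5 : ℝ) / 3)) := by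
      refine wx_mono D sp p ψ ℓ (hnbI w 3) (WI_smul D sp ℓ (WI_sum D sp ℓ F _
        fun q _ => hnbI (w + q) 1) _) hψ hp fun x => ?_
      refine (Real.rpow_le_rpow (nb_nonneg w 3 x) (nb_cover F hF w x) (by norm_num)).trans ?_
      exact Real.rpow_sum_le_const_mul_sum_rpow_of_nonneg F (by norm_num)
        fun q _ => nb_nonneg _ _ _
    have h2 : wx D p ψ (fun x => (F.card : ℝ) ^ ((5 : ℝ) / 3 - 1) *
          ∑ q ∈ F, nb (w + q) 1 x ^ ((5 : ℝ) / 3)) =
        (F.card : ℝ) ^ ((5 : ℝ) / 3 - 1) * ∑ q ∈ F, f (w + q) := by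
      rw [wx_smul]
      congr 1
      rw [hf']
      unfold wx
      rw [Finset.sum_comm]
      refine Finset.sum_congr rfl fun j _ => ?_
      rw [wm_sum D sp ℓ F _ (fun q _ => hnbI (w + q) 1) (ψ j) (hψ j), Finset.mul_sum]
    rw [h2] at h1
    have h3 : ∑ q ∈ F, f (w + q) ≤ F.card * (E * (1 + A)) := by
      calc ∑ q ∈ F, f (w + q) ≤ ∑ _q ∈ F, (E * (1 + A)) :=
            Finset.sum_le_sum fun q _ => (hfN _).trans hNle
        _ = F.card * (E * (1 + A)) := by rw [Finset.sum_const, nsmul_eq_mul]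
    have h4 : (F.card : ℝ) ^ ((5 : ℝ) / 3 - 1) * ∑ q ∈ F, f (w + q) ≤
        (F.card : ℝ) ^ ((5 : ℝ) / 3 - 1) * (F.card * (E * (1 + A))) :=
      mul_le_mul_of_nonneg_left h3 (by positivity)
    have h5 : (F.card : ℝ) ^ ((5 : ℝ) / 3 - 1) * (F.card * (E * (1 + A))) = CF * E * (1 + A) := by
      rw [hCF]
      ring
    linarith
  · linarith
  · have h1 : wx D p ψ (fun x => nh w x ^ ((5 : ℝ) / 3)) ≤
        wx D p ψ (fun x => e5 * nn w x ^ ((5 : ℝ) / 3)) := by
      refine wx_mono D sp p ψ ℓ (hnhI w _ (by norm_num)) (WI_smul D sp ℓ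
        (hnnI w _ (by norm_num)) e5) hψ hp fun x => ?_
      have h2 : nh w x ≤ Real.exp 1 * nn w x := by
        unfold nh nn
        rw [Finset.mul_sum]
        refine Finset.sum_le_sum fun i _ => ?_
        rw [← Real.exp_add]
        apply Real.exp_le_exp.2
        have h3 : ‖x i - w‖ ≤ √(1 + ‖x i - w‖ ^ 2) := by
          apply Real.le_sqrt_of_sq_le
          linarith
        linarith
      calc nh w x ^ ((5 : ℝ) / 3) ≤ (Real.exp 1 * nn w x) ^ ((5 : ℝ) / 3) :=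
            Real.rpow_le_rpow (nh_nonneg w x) h2 (by norm_num)
        _ = e5 * nn w x ^ ((5 : ℝ) / 3) := by
            rw [Real.mul_rpow (Real.exp_pos 1).le (nn_nonneg w x), he5]
    rw [wx_smul] at h1
    have h2 := mul_le_mul_of_nonneg_left hnnw he50.le
    linarith

end Pool.Agent.Helper780_CP.RB15
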