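import Pool.Agent.Helper780_CP.LLDefs2
import Pool.Agent.Helper780_CP.BnDefs
import Pool.Agent.Helper780_CP.RVB

set_option autoImplicit false

open MeasureTheory
open scoped Topology

namespace Pool.Agent.Helper780_CP.RB16

open Pool.Agent.Helper780_CP
open Pool.Agent.Helper985.CP

open Pool.Agent.Helper780_CP Pool.Agent.Helper985.CP

theorem wx_lim {S : Type} (D : Species S) {I : Type} [Fintype I] [DecidableEq I] {k : ℕ}
    (p : Fin k → ℝ) (ψ : Fin k → Wave D I) (hc : ∀ j τ, Continuous (ψ j τ))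
    (W : ℕ → (I → E3) → ℝ) (W0 K : (I → E3) → ℝ) (hm : ∀ n, Measurable (W n))
    (hK : ∀ j τ, Integrable (fun x => K x * ‖ψ j τ x‖ ^ 2)) (hb : ∀ n x, |W n x| ≤ K x)
    (hl : ∀ x, Filter.Tendsto (fun n => W n x) Filter.atTop (𝓝 (W0 x))) :
    Filter.Tendsto (fun n => wx D p ψ (W n)) Filter.atTop (𝓝 (wx D p ψ W0)) := by
  unfold wx wm
  refine tendsto_finsetSum _ fun j _ => ?_
  refine Filter.Tendsto.const_mul _ ?_
  refine tendsto_finsetSum _ fun τ _ => ?_
  refine tendsto_integral_of_dominated_convergence (fun x => K x * ‖ψ j τ x‖ ^ 2) ?_ (hK j τ) ?_ ?_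
  · intro n
    exact (hm n).aestronglyMeasurable.mul (((hc j τ).norm.pow 2).aestronglyMeasurable)
  · intro n
    refine Filter.Eventually.of_forall fun x => ?_
    rw [Real.norm_eq_abs, abs_mul, abs_of_nonneg (sq_nonneg ‖ψ j τ x‖)]
    exact mul_le_mul_of_nonneg_right (hb n x) (sq_nonneg _)
  · refine Filter.Eventually.of_forall fun x => ?_
    exact (hl x).mul_const _

theorem phi_meas {S : Type} (D : Species S) {I : Type} [Fintype I] (sp : I → S) (ω : E3) :
    Measurable (phi D sp ω) := by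
  unfold phi
  refine Finset.measurable_sum _ fun i _ => ?_
  refine measurable_const.mul ?_
  refine measurable_const.div ?_
  fun_prop

theorem phb_cont {S : Type} (D : Species S) {I : Type} [Fintype I] (sp : I → S) (ℓ : ℝ)
    (hℓ : 0 < ℓ) : Continuous (phb D sp ℓ) := by
  unfold phb
  refine continuous_finsetSum _ fun i _ => ?_
  exact continuous_const.mul ((RVB.vb_props.1 ℓ hℓ).comp (continuous_apply i))

theorem gr_nonneg {I : Type} [Fintype I] [DecidableEq I] (f : (I → E3) → ℝ) (x : I → E3) :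
    0 ≤ gr f x := by
  unfold gr
  exact Finset.sum_nonneg fun i _ => Finset.sum_nonneg fun k _ => sq_nonneg _

/-- TARGET -/
theorem fl_ext {S : Type} [Fintype S] [DecidableEq S] (D : Species S) (hD : D.Valid) {I : Type}
    [Fintype I] [DecidableEq I] (sp : I → S) (ℓ C0 η : ℝ) (hC0 : 0 ≤ C0) {k : ℕ} (p : Fin k → ℝ)
    (ψ : Fin k → Wave D I) (hB : BS D sp ℓ C0 η p ψ) (ω : E3)
    (hω : Metric.closedBall ω 1 ⊆ cube ℓ) (f : (I → E3) → ℝ) (fn : ℕ → (I → E3) → ℝ) (B : ℝ)
    (G : (I → E3) → ℝ) (h1 : ∀ n, ContDiff ℝ SM (fn n)) (h2 : ∀ n, Sy sp (fn n))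
    (h3 : ∀ n x, |fn n x| ≤ B)
    (h4 : ∀ x, Filter.Tendsto (fun n => fn n x) Filter.atTop (𝓝 (f x)))
    (h5 : ∀ n x, gr (fn n) x ≤ G x)
    (h6 : ∀ j τ, Integrable (fun x => G x * ‖ψ j τ x‖ ^ 2)) :
    |wx D p ψ (fun x => f x ^ 2 * (phi D sp ω x - phb D sp ℓ x))| ≤
      C0 * (wx D p ψ (fun x => f x ^ 2 * (1 + near2 ω x)) + wx D p ψ G +
        wx D p ψ (fun x => f x ^ 2 * (f x ^ 2) ^ ((1 : ℝ) / 4)) + 1 + B ^ 2 * η) := by
  have hℓ : 0 < ℓ := by linarith [hB.len]
  have hB0 : 0 ≤ B := (abs_nonneg _).trans (h3 0 0)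
  have hc : ∀ j τ, Continuous (ψ j τ) := fun j τ => ((hB.state j).smooth τ).continuous
  have hfm : ∀ n, Measurable (fn n) := fun n => (h1 n).continuous.measurable
  have hphi : Measurable (phi D sp ω) := phi_meas D sp ω
  have hphbc := phb_cont D sp ℓ hℓ
  have hphb : Measurable (phb D sp ℓ) := hphbc.measurable
  have hsq : ∀ n x, (fn n x) ^ 2 ≤ B ^ 2 := fun n x => sq_le_sq' (by
    have := (abs_le.1 (h3 n x)).1
    linarith) (abs_le.1 (h3 n x)).2
  have hlsq : ∀ x, Filter.Tendsto (fun n => fn n x ^ 2) Filter.atTop (𝓝 (f x ^ 2)) := fun x =>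
    (h4 x).pow 2
  -- the first limit
  have L1 : Filter.Tendsto (fun n => wx D p ψ (fun x => fn n x ^ 2 * (phi D sp ω x - phb D sp ℓ x)))
      Filter.atTop (𝓝 (wx D p ψ (fun x => f x ^ 2 * (phi D sp ω x - phb D sp ℓ x)))) := by
    refine wx_lim D p ψ hc _ _ (fun x => B ^ 2 * |phi D sp ω x - phb D sp ℓ x|) ?_ ?_ ?_ ?_
    · intro n
      exact ((hfm n).pow_const 2).mul (hphi.sub hphb)
    · intro j τ
      have i1 := WI_phi D sp ℓ ω (ψ j) (hB.state j) τ
      have i2 : Integrable (fun x => phb D sp ℓ x * ‖ψ j τ x‖ ^ 2) := by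
        have hcs := (hB.state j).compact τ
        refine Continuous.integrable_of_hasCompactSupport ?_ ?_
        · exact hphbc.mul ((hc j τ).norm.pow 2)
        · have h9 : HasCompactSupport (fun x => ‖ψ j τ x‖ ^ 2) :=
            hcs.comp_left (g := fun z : ℂ => ‖z‖ ^ 2) (by simp)
          exact h9.mul_left
      refine (((i1.sub i2).norm).const_mul (B ^ 2)).congr (Filter.Eventually.of_forall fun x => ?_)
      simp only [Pi.sub_apply]
      rw [← sub_mul, Real.norm_eq_abs, abs_mul, abs_of_nonneg (sq_nonneg ‖ψ j τ x‖)]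
      unfold phi
      ring
    · intro n x
      rw [abs_mul, abs_of_nonneg (sq_nonneg (fn n x))]
      exact mul_le_mul_of_nonneg_right (hsq n x) (abs_nonneg _)
    · intro x
      exact (hlsq x).mul_const _
  have L2 : Filter.Tendsto (fun n => wx D p ψ (fun x => fn n x ^ 2 * (1 + near2 ω x)))
      Filter.atTop (𝓝 (wx D p ψ (fun x => f x ^ 2 * (1 + near2 ω x)))) := by
    refine wx_lim D p ψ hc _ _ (fun x => B ^ 2 * (1 + near2 ω x)) ?_ ?_ ?_ ?_
    · intro n
      exact ((hfm n).pow_const 2).mul (measurable_const.add (near2_meas ω))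
    · intro j τ
      exact WI_smul D sp ℓ (WI_add D sp ℓ (WI_const D sp ℓ 1) (WI_near2 D sp ℓ ω)) (B ^ 2) (ψ j)
        (hB.state j) τ
    · intro n x
      have h0 : 0 ≤ 1 + near2 ω x := by linarith [near2_nonneg ω x]
      rw [abs_mul, abs_of_nonneg (sq_nonneg (fn n x)), abs_of_nonneg h0]
      exact mul_le_mul_of_nonneg_right (hsq n x) h0
    · intro x
      exact (hlsq x).mul_const _
  have L3 : Filter.Tendsto (fun n => wx D p ψ (fun x => fn n x ^ 2 * (fn n x ^ 2) ^ ((1 : ℝ) / 4)))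
      Filter.atTop (𝓝 (wx D p ψ (fun x => f x ^ 2 * (f x ^ 2) ^ ((1 : ℝ) / 4)))) := by
    refine wx_lim D p ψ hc _ _ (fun _ => B ^ 2 * (B ^ 2) ^ ((1 : ℝ) / 4)) ?_ ?_ ?_ ?_
    · intro n
      exact ((hfm n).pow_const 2).mul (((hfm n).pow_const 2).pow_const _)
    · intro j τ
      exact WI_const D sp ℓ _ (ψ j) (hB.state j) τ
    · intro n x
      rw [abs_of_nonneg (by positivity)]
      have := hsq n x
      gcongr
    · intro x
      refine (hlsq x).mul ?_
      exact (hlsq x).rpow_const (Or.inr (by norm_num))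
  have key : ∀ n, |wx D p ψ (fun x => fn n x ^ 2 * (phi D sp ω x - phb D sp ℓ x))| ≤
      C0 * (wx D p ψ (fun x => fn n x ^ 2 * (1 + near2 ω x)) + wx D p ψ G +
        wx D p ψ (fun x => fn n x ^ 2 * (fn n x ^ 2) ^ ((1 : ℝ) / 4)) + 1 + B ^ 2 * η) := by
    intro n
    have h7 := hB.fl ω (fn n) B hω (h1 n) (h2 n) (h3 n)
    have h8 : wx D p ψ (gr (fn n)) ≤ wx D p ψ G := by
      unfold wx wm
      refine Finset.sum_le_sum fun j _ => ?_
      refine mul_le_mul_of_nonneg_left ?_ (hB.p0 j)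
      refine Finset.sum_le_sum fun τ _ => ?_
      refine integral_mono_of_nonneg ?_ (h6 j τ) ?_
      · exact Filter.Eventually.of_forall fun x => mul_nonneg (gr_nonneg _ _) (sq_nonneg _)
      · exact Filter.Eventually.of_forall fun x =>
          mul_le_mul_of_nonneg_right (h5 n x) (sq_nonneg _)
    refine h7.trans ?_
    refine mul_le_mul_of_nonneg_left ?_ hC0
    linarith
  refine le_of_tendsto_of_tendsto' L1.abs ?_ key
  exact ((((L2.add tendsto_const_nhds).add L3).add tendsto_const_nhds).add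
    tendsto_const_nhds).const_mul C0

end Pool.Agent.Helper780_CP.RB16
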