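import Pool.Agent.Helper780_CP.LLDefs2

set_option autoImplicit false

open MeasureTheory

namespace Pool.Agent.Helper780_CP.RC3

open Pool.Agent.Helper780_CP
open Pool.Agent.Helper985.CP

noncomputable def C3f (t y : ℝ) : ℝ := if y < t then y⁻¹ ^ 2 else 0

theorem C3f_nonneg (t y : ℝ) : 0 ≤ C3f t y := by
  unfold C3f
  split_ifs <;> positivity

theorem C3_g {t : ℝ} (ht : 0 < t) : Integrable (fun w : E3 => C3f t ‖w‖) volume ∧
    ∫ w : E3, C3f t ‖w‖ = 3 * volume.real (Metric.ball (0 : E3) 1) * t := by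
  have hdim0 : Module.finrank ℝ E3 = 3 := finrank_euclideanSpace_fin
  have hdim : Module.finrank ℝ E3 - 1 = 2 := by rw [hdim0]
  have h1 : ∀ y ∈ Set.Ioi (0 : ℝ), y ^ (Module.finrank ℝ E3 - 1) • C3f t y =
      (Set.Iio t).indicator (fun _ => (1 : ℝ)) y := by
    intro y hy
    have hy' : (0 : ℝ) < y := hy
    rw [hdim]
    unfold C3f
    by_cases h : y < t
    · rw [if_pos h, Set.indicator_of_mem (show y ∈ Set.Iio t from h), smul_eq_mul]
      field_simp
    · rw [if_neg h, Set.indicator_of_notMem (show y ∉ Set.Iio t from h), smul_zero]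
  have h2 : (volume.restrict (Set.Ioi (0 : ℝ))) (Set.Iio t) = ENNReal.ofReal t := by
    rw [Measure.restrict_apply measurableSet_Iio, Set.Iio_inter_Ioi, Real.volume_Ioo, sub_zero]
  have h3 : (volume.restrict (Set.Ioi (0 : ℝ))).real (Set.Iio t) = t := by
    rw [measureReal_def, h2, ENNReal.toReal_ofReal ht.le]
  constructor
  · rw [integrable_fun_norm_addHaar volume (f := C3f t), integrableOn_congr_fun h1 measurableSet_Ioi,
      IntegrableOn, integrable_indicator_iff measurableSet_Iio]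
    exact integrableOn_const (by rw [h2]; exact ENNReal.ofReal_ne_top)
  · rw [integral_fun_norm_addHaar volume (C3f t), setIntegral_congr_fun measurableSet_Ioi h1,
      integral_indicator measurableSet_Iio, setIntegral_const, h3, hdim0]
    simp only [smul_eq_mul, mul_one, nsmul_eq_mul]
    push_cast
    ring

theorem C3_gx {t : ℝ} (ht : 0 < t) (a : E3) : Integrable (fun w : E3 => C3f t ‖a - w‖) volume ∧
    ∫ w : E3, C3f t ‖a - w‖ = 3 * volume.real (Metric.ball (0 : E3) 1) * t := by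
  obtain ⟨h1, h2⟩ := C3_g ht
  constructor
  · exact h1.comp_sub_left a
  · rw [integral_sub_left_eq_self (fun w : E3 => C3f t ‖w‖) volume a, h2]

theorem C3_s {N : ℝ} (hN : 1 ≤ N) : ∃ s : ℝ, 1 ≤ s ∧ N = s ^ 3 ∧ N ^ ((2 : ℝ) / 3) = s ^ 2 := by
  have hN0 : 0 ≤ N := by linarith
  refine ⟨N ^ ((1 : ℝ) / 3), Real.one_le_rpow hN (by norm_num), ?_, ?_⟩
  · rw [← Real.rpow_natCast, ← Real.rpow_mul hN0]
    norm_num
  · rw [← Real.rpow_natCast, ← Real.rpow_mul hN0]
    norm_num

/-- TARGET -/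
theorem near2_ball : ∃ C : ℝ, 0 < C ∧ ∀ {I : Type} [Fintype I] (x : I → E3) (v : E3) (R : ℝ),
    0 < R → IntegrableOn (fun w => near2 w x) (Metric.ball v R) ∧
      ∫ w in Metric.ball v R, near2 w x ≤
        C * R * (1 + ((Finset.univ.filter (fun i => ‖x i - v‖ ≤ 2 * R)).card : ℝ) ^ ((2 : ℝ) / 3)) := by
  set c3 : ℝ := volume.real (Metric.ball (0 : E3) 1) with hc3
  have hc3p : 0 < c3 := by
    rw [hc3, measureReal_def]
    exact ENNReal.toReal_pos (Metric.measure_ball_pos volume _ one_pos).ne' measure_ball_lt_top.ne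
  refine ⟨4 * c3, by positivity, ?_⟩
  intro I _ x v R hR
  set F := Finset.univ.filter (fun i => ‖x i - v‖ ≤ 2 * R) with hF
  have hpt : ∀ t : ℝ, 0 < t → t ≤ R → ∀ w ∈ Metric.ball v R,
      near2 w x ≤ t⁻¹ ^ 2 + ∑ i ∈ F, C3f t ‖x i - w‖ := by
    intro t ht htR w hw
    have h6 : 0 ≤ ∑ i ∈ F, C3f t ‖x i - w‖ := Finset.sum_nonneg fun j _ => C3f_nonneg _ _
    have h7 : 0 ≤ t⁻¹ ^ 2 := by positivity
    refine Real.iSup_le (fun i => ?_) (by linarith)
    by_cases h : ‖x i - w‖ < t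
    · have hiF : i ∈ F := by
        rw [hF, Finset.mem_filter]
        refine ⟨Finset.mem_univ _, ?_⟩
        have hwv : ‖w - v‖ < R := by rwa [Metric.mem_ball, dist_eq_norm] at hw
        calc ‖x i - v‖ = ‖(x i - w) + (w - v)‖ := by congr 1; abel
          _ ≤ ‖x i - w‖ + ‖w - v‖ := norm_add_le _ _
          _ ≤ 2 * R := by linarith
      have h2 := Finset.single_le_sum (f := fun i => C3f t ‖x i - w‖)
        (fun j _ => C3f_nonneg _ _) hiF
      have h3 : C3f t ‖x i - w‖ = ‖x i - w‖⁻¹ ^ 2 := if_pos h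
      rw [h3] at h2
      linarith
    · have h4 : t ≤ ‖x i - w‖ := not_lt.1 h
      have h5 : ‖x i - w‖⁻¹ ^ 2 ≤ t⁻¹ ^ 2 := by gcongr
      linarith
  have hdom : ∀ t : ℝ, 0 < t → IntegrableOn
      (fun w => t⁻¹ ^ 2 + ∑ i ∈ F, C3f t ‖x i - w‖) (Metric.ball v R) := by
    intro t ht
    refine Integrable.add (integrableOn_const measure_ball_lt_top.ne) ?_
    exact integrable_finsetSum _ fun i _ => (C3_gx ht (x i)).1.integrableOn
  have hmeas : Measurable (fun w => near2 w x) := by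
    unfold near2
    exact Measurable.iSup fun i => by fun_prop
  have hnn : ∀ w, 0 ≤ near2 w x := fun w => Real.iSup_nonneg fun i => by positivity
  have hint : IntegrableOn (fun w => near2 w x) (Metric.ball v R) := by
    refine Integrable.mono' (hdom R hR) hmeas.aestronglyMeasurable ?_
    refine (ae_restrict_iff' measurableSet_ball).2 (Filter.Eventually.of_forall fun w hw => ?_)
    rw [Real.norm_eq_abs, abs_of_nonneg (hnn w)]
    exact hpt R hR le_rfl w hw
  refine ⟨hint, ?_⟩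
  have hvol : volume.real (Metric.ball v R) = R ^ 3 * c3 := by
    rw [measureReal_def, Measure.addHaar_ball_of_pos volume v hR, ENNReal.toReal_mul,
      ENNReal.toReal_ofReal (by positivity), finrank_euclideanSpace_fin]
    rfl
  have hbd : ∀ t : ℝ, 0 < t → t ≤ R → ∫ w in Metric.ball v R, near2 w x ≤
      t⁻¹ ^ 2 * (R ^ 3 * c3) + F.card * (3 * c3 * t) := by
    intro t ht htR
    refine (setIntegral_mono_on hint (hdom t ht) measurableSet_ball (hpt t ht htR)).trans ?_
    have i1 : IntegrableOn (fun _ : E3 => t⁻¹ ^ 2) (Metric.ball v R) volume :=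
      integrableOn_const measure_ball_lt_top.ne
    have i2 : ∀ i ∈ F, IntegrableOn (fun w : E3 => C3f t ‖x i - w‖) (Metric.ball v R) volume :=
      fun i _ => (C3_gx ht (x i)).1.integrableOn
    rw [integral_add i1 (integrable_finsetSum _ i2), integral_finsetSum _ i2, setIntegral_const,
      hvol, smul_eq_mul, mul_comm (R ^ 3 * c3)]
    refine add_le_add le_rfl ?_
    calc ∑ i ∈ F, ∫ w in Metric.ball v R, C3f t ‖x i - w‖ ≤ ∑ i ∈ F, 3 * c3 * t := by
          refine Finset.sum_le_sum fun i _ => ?_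
          rw [← (C3_gx ht (x i)).2]
          exact setIntegral_le_integral (C3_gx ht (x i)).1
            (Filter.Eventually.of_forall fun w => C3f_nonneg _ _)
      _ = F.card * (3 * c3 * t) := by rw [Finset.sum_const, nsmul_eq_mul]
  rcases Nat.eq_zero_or_pos F.card with h0 | h0
  · refine (hbd R hR le_rfl).trans ?_
    rw [h0]
    have h1 : (0 : ℝ) ≤ ((0 : ℕ) : ℝ) ^ ((2 : ℝ) / 3) := by positivity
    have h2 : R⁻¹ ^ 2 * (R ^ 3 * c3) = c3 * R := by field_simp
    rw [h2]
    have h3 : 0 < c3 * R := by positivity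
    have h4 : 0 ≤ c3 * R * ((0 : ℕ) : ℝ) ^ ((2 : ℝ) / 3) := by positivity
    push_cast at h4 ⊢
    nlinarith
  · have hN : (1 : ℝ) ≤ (F.card : ℝ) := by exact_mod_cast h0
    obtain ⟨s, hs1, hs3, hs2⟩ := C3_s hN
    have hs0 : 0 < s := by linarith
    refine (hbd (R / s) (by positivity) (div_le_self hR.le hs1)).trans ?_
    rw [hs2, hs3]
    have h1 : (R / s)⁻¹ ^ 2 * (R ^ 3 * c3) + s ^ 3 * (3 * c3 * (R / s)) = 4 * c3 * R * s ^ 2 := by
      field_simp
      ring
    rw [h1]
    have h2 : 0 < c3 * R := by positivity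
    nlinarith

end Pool.Agent.Helper780_CP.RC3
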