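import Pool.Agent.Helper780_CP.LLDefs2
import Pool.Agent.Helper780_CP.BnDefs
import Pool.Agent.Helper780_CP.RVB
import Pool.Agent.Helper780_CP.RC3

set_option autoImplicit false
set_option linter.unusedSectionVars false

open MeasureTheory
open scoped Topology

namespace Pool.Agent.Helper780_CP.RB17

open Pool.Agent.Helper780_CP
open Pool.Agent.Helper985.CP

open scoped Convolution
open Pool.Agent.Helper780_CP Pool.Agent.Helper985.CP


theorem icb_fin (ℓ : ℝ) (hℓ : 0 < ℓ) : volume (icb ℓ) < ⊤ := by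
  refine lt_of_le_of_lt (measure_mono (fun y hy => ?_)) (measure_ball_lt_top (x := (0 : E3)) (r := 2 * ℓ))
  rw [mem_ball_zero_iff]
  exact RVB.icb_norm ℓ hℓ y hy

theorem icb_vol (ℓ : ℝ) (hℓ : 0 < ℓ) : volume.real (icb ℓ) ≤
    8 * ℓ ^ 3 * volume.real (Metric.ball (0 : E3) 1) := by
  have h1 : volume.real (icb ℓ) ≤ volume.real (Metric.ball (0 : E3) (2 * ℓ)) := by
    refine measureReal_mono (fun y hy => ?_) measure_ball_lt_top.ne
    rw [mem_ball_zero_iff]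
    exact RVB.icb_norm ℓ hℓ y hy
  refine h1.trans (le_of_eq ?_)
  rw [measureReal_def, measureReal_def, Measure.addHaar_ball volume (0 : E3) (by positivity : 0 ≤ 2 * ℓ),
    ENNReal.toReal_mul, ENNReal.toReal_ofReal (by positivity)]
  simp only [finrank_euclideanSpace, Fintype.card_fin]
  ring

/-- dominating function -/
noncomputable def gd (ℓ : ℝ) (z y : E3) : ℝ := ℓ⁻¹ ^ 2 + RC3.C3f ℓ ‖z - y‖

theorem gd_ge {ℓ : ℝ} (hℓ : 0 < ℓ) (z y : E3) : ‖z - y‖⁻¹ ^ 2 ≤ gd ℓ z y := by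
  unfold gd RC3.C3f
  split_ifs with h
  · have : 0 ≤ ℓ⁻¹ ^ 2 := by positivity
    linarith
  · have h4 : ℓ ≤ ‖z - y‖ := not_lt.1 h
    have h5 : ‖z - y‖⁻¹ ^ 2 ≤ ℓ⁻¹ ^ 2 := by gcongr
    linarith

theorem gd_int {ℓ : ℝ} (hℓ : 0 < ℓ) (z : E3) : IntegrableOn (gd ℓ z) (icb ℓ) := by
  unfold gd
  refine Integrable.add (integrableOn_const (icb_fin ℓ hℓ).ne) ?_
  exact (RC3.C3_gx hℓ z).1.integrableOn

theorem gd_le {ℓ : ℝ} (hℓ : 0 < ℓ) (z : E3) : ∫ y in icb ℓ, gd ℓ z y ≤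
    11 * volume.real (Metric.ball (0 : E3) 1) * ℓ := by
  unfold gd
  have h0 : IntegrableOn (fun _ : E3 => (ℓ⁻¹ ^ 2 : ℝ)) (icb ℓ) :=
    integrableOn_const (icb_fin ℓ hℓ).ne
  rw [integral_add h0 (RC3.C3_gx hℓ z).1.integrableOn]
  have h1 : ∫ y in icb ℓ, RC3.C3f ℓ ‖z - y‖ ≤ 3 * volume.real (Metric.ball (0 : E3) 1) * ℓ := by
    rw [← (RC3.C3_gx hℓ z).2]
    exact setIntegral_le_integral (RC3.C3_gx hℓ z).1
      (Filter.Eventually.of_forall fun y => RC3.C3f_nonneg _ _)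
  have h2 : ∫ y in icb ℓ, (ℓ⁻¹ ^ 2 : ℝ) ≤ 8 * volume.real (Metric.ball (0 : E3) 1) * ℓ := by
    rw [setIntegral_const, smul_eq_mul]
    have h3 := icb_vol ℓ hℓ
    calc volume.real (icb ℓ) * ℓ⁻¹ ^ 2 ≤
        (8 * ℓ ^ 3 * volume.real (Metric.ball (0 : E3) 1)) * ℓ⁻¹ ^ 2 := by gcongr
      _ = _ := by field_simp
  linarith

theorem vb_int {ℓ : ℝ} (hℓ : 0 < ℓ) (z : E3) : IntegrableOn (fun y => 1 / ‖z - y‖) (icb ℓ) := by
  have h0 : IntegrableOn (fun _ : E3 => (1 : ℝ)) (icb ℓ) := integrableOn_const (icb_fin ℓ hℓ).ne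
  refine Integrable.mono' (h0.add (gd_int hℓ z)) ?_ ?_
  · exact (by fun_prop : Measurable (fun y : E3 => 1 / ‖z - y‖)).aestronglyMeasurable
  · refine Filter.Eventually.of_forall fun y => ?_
    have h1 := gd_ge hℓ z y
    rw [Real.norm_eq_abs, abs_of_nonneg (by positivity), one_div]
    change ‖z - y‖⁻¹ ≤ 1 + gd ℓ z y
    nlinarith [sq_nonneg (‖z - y‖⁻¹ - 1)]

theorem vb_lip : ∃ C : ℝ, 0 < C ∧ ∀ ℓ : ℝ, 0 < ℓ → ∀ z z' : E3,
    |vb ℓ z - vb ℓ z'| ≤ C / ℓ ^ 2 * ‖z - z'‖ := by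
  set c3 : ℝ := volume.real (Metric.ball (0 : E3) 1) with hc3
  have hc30 : 0 ≤ c3 := measureReal_nonneg
  refine ⟨88 * c3 + 1, by positivity, fun ℓ hℓ z z' => ?_⟩
  have h1 : vb ℓ z - vb ℓ z' = 8 / ℓ ^ 3 * ∫ y in icb ℓ, (1 / ‖z - y‖ - 1 / ‖z' - y‖) := by
    rw [integral_sub (vb_int hℓ z) (vb_int hℓ z')]
    unfold vb
    ring
  have h2 : |∫ y in icb ℓ, (1 / ‖z - y‖ - 1 / ‖z' - y‖)| ≤
      ∫ y in icb ℓ, ‖z - z'‖ / 2 * (gd ℓ z y + gd ℓ z' y) := by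
    rw [← Real.norm_eq_abs]
    refine norm_integral_le_of_norm_le (((gd_int hℓ z).add (gd_int hℓ z')).const_mul _) ?_
    have a1 : ∀ᵐ y ∂(volume : Measure E3), y ≠ z := by
      rw [ae_iff]
      simp
    have a2 : ∀ᵐ y ∂(volume : Measure E3), y ≠ z' := by
      rw [ae_iff]
      simp
    filter_upwards [ae_restrict_of_ae a1, ae_restrict_of_ae a2] with y hy1 hy2
    have b1 : 0 < ‖z - y‖ := norm_pos_iff.2 (sub_ne_zero.2 (Ne.symm hy1))
    have b2 : 0 < ‖z' - y‖ := norm_pos_iff.2 (sub_ne_zero.2 (Ne.symm hy2))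
    have e1 := gd_ge hℓ z y
    have e2 := gd_ge hℓ z' y
    have e3 : 1 / ‖z - y‖ - 1 / ‖z' - y‖ = (‖z' - y‖ - ‖z - y‖) * (‖z - y‖⁻¹ * ‖z' - y‖⁻¹) := by
      field_simp
    have e4 : |‖z' - y‖ - ‖z - y‖| ≤ ‖z - z'‖ := by
      refine (abs_norm_sub_norm_le _ _).trans (le_of_eq ?_)
      rw [← norm_neg]
      congr 1
      abel
    rw [Real.norm_eq_abs, e3, abs_mul, abs_of_nonneg (by positivity : 0 ≤ ‖z - y‖⁻¹ * ‖z' - y‖⁻¹)]
    have e5 : ‖z - y‖⁻¹ * ‖z' - y‖⁻¹ ≤ 1 / 2 * (gd ℓ z y + gd ℓ z' y) := by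
      nlinarith [sq_nonneg (‖z - y‖⁻¹ - ‖z' - y‖⁻¹)]
    calc |‖z' - y‖ - ‖z - y‖| * (‖z - y‖⁻¹ * ‖z' - y‖⁻¹) ≤
        ‖z - z'‖ * (1 / 2 * (gd ℓ z y + gd ℓ z' y)) :=
          mul_le_mul e4 e5 (by positivity) (norm_nonneg _)
      _ = ‖z - z'‖ / 2 * (gd ℓ z y + gd ℓ z' y) := by ring
  rw [integral_const_mul, integral_add (gd_int hℓ z) (gd_int hℓ z')] at h2
  have h3 := gd_le hℓ z
  have h4 := gd_le hℓ z'
  rw [h1, abs_mul, abs_of_nonneg (by positivity : 0 ≤ 8 / ℓ ^ 3)]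
  have h5 : |∫ y in icb ℓ, (1 / ‖z - y‖ - 1 / ‖z' - y‖)| ≤ 11 * c3 * ℓ * ‖z - z'‖ := by
    refine h2.trans ?_
    have h6 : 0 ≤ ‖z - z'‖ := norm_nonneg _
    nlinarith
  calc 8 / ℓ ^ 3 * |∫ y in icb ℓ, (1 / ‖z - y‖ - 1 / ‖z' - y‖)| ≤
      8 / ℓ ^ 3 * (11 * c3 * ℓ * ‖z - z'‖) := mul_le_mul_of_nonneg_left h5 (by positivity)
    _ = 88 * c3 / ℓ ^ 2 * ‖z - z'‖ := by field_simp; ring
    _ ≤ (88 * c3 + 1) / ℓ ^ 2 * ‖z - z'‖ := by
      refine mul_le_mul_of_nonneg_right ?_ (norm_nonneg _)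
      gcongr
      linarith

/-- smooth approximation of Lipschitz functions -/
theorem mollify (g : E3 → ℝ) (Λ : ℝ) (hΛ : 0 ≤ Λ) (hg : ∀ z z', |g z - g z'| ≤ Λ * ‖z - z'‖)
    {δ : ℝ} (hδ : 0 < δ) : ∃ u : E3 → ℝ, ContDiff ℝ SM u ∧ (∀ z, |u z - g z| ≤ δ) ∧
      ∀ z, ‖fderiv ℝ u z‖ ≤ Λ := by
  have hgl : LipschitzWith Λ.toNNReal g := by
    refine LipschitzWith.of_dist_le_mul fun z z' => ?_
    rw [Real.dist_eq, dist_eq_norm, Real.coe_toNNReal _ hΛ]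
    exact hg z z'
  have hgc : Continuous g := hgl.continuous
  have hr : 0 < δ / (Λ + 1) := by positivity
  let φ : ContDiffBump (0 : E3) := ⟨δ / (Λ + 1) / 2, δ / (Λ + 1), by positivity, by linarith⟩
  set u : E3 → ℝ := (φ.normed volume ⋆[ContinuousLinearMap.lsmul ℝ ℝ, volume] g) with hu
  have hint : ∀ z, Integrable (fun t => φ.normed volume t * g (z - t)) := by
    intro z
    refine Continuous.integrable_of_hasCompactSupport ?_ ?_
    · exact (φ.continuous_normed (μ := volume)).mul (hgc.comp (continuous_const.sub continuous_id))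
    · exact (φ.hasCompactSupport_normed (μ := volume)).mul_right
  have huz : ∀ z, u z = ∫ t, φ.normed volume t * g (z - t) := fun z => rfl
  have hul : ∀ z z', |u z - u z'| ≤ Λ * ‖z - z'‖ := by
    intro z z'
    rw [huz, huz, ← integral_sub (hint z) (hint z')]
    have h1 : |∫ t, (φ.normed volume t * g (z - t) - φ.normed volume t * g (z' - t))| ≤
        ∫ t, φ.normed volume t * (Λ * ‖z - z'‖) := by
      rw [← Real.norm_eq_abs]
      refine norm_integral_le_of_norm_le ((φ.integrable_normed (μ := volume)).mul_const _) ?_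
      refine Filter.Eventually.of_forall fun t => ?_
      rw [← mul_sub, Real.norm_eq_abs, abs_mul, abs_of_nonneg (φ.nonneg_normed t)]
      refine mul_le_mul_of_nonneg_left ?_ (φ.nonneg_normed t)
      have := hg (z - t) (z' - t)
      rwa [sub_sub_sub_cancel_right] at this
    refine h1.trans (le_of_eq ?_)
    rw [integral_mul_const, φ.integral_normed, one_mul]
  refine ⟨u, ?_, ?_, ?_⟩
  · exact (φ.hasCompactSupport_normed (μ := volume)).contDiff_convolution_left _ φ.contDiff_normed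
      hgc.locallyIntegrable
  · intro z
    have h1 := φ.dist_normed_convolution_le (μ := volume) (x₀ := z) (ε := δ)
      hgc.aestronglyMeasurable (by
        intro t ht
        have ht' : ‖t - z‖ < δ / (Λ + 1) := by rwa [Metric.mem_ball, dist_eq_norm] at ht
        rw [Real.dist_eq]
        refine (hg t z).trans ?_
        calc Λ * ‖t - z‖ ≤ (Λ + 1) * (δ / (Λ + 1)) :=
              mul_le_mul (by linarith) ht'.le (norm_nonneg _) (by positivity)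
          _ = δ := by field_simp)
    rwa [Real.dist_eq] at h1
  · intro z
    have h1 : LipschitzWith Λ.toNNReal u := by
      refine LipschitzWith.of_dist_le_mul fun z z' => ?_
      rw [Real.dist_eq, dist_eq_norm, Real.coe_toNNReal _ hΛ]
      exact hul z z'
    have h2 := norm_fderiv_le_of_lipschitz ℝ (x₀ := z) h1
    rwa [Real.coe_toNNReal _ hΛ] at h2



/-- regularised norm -/
noncomputable def sg (a : ℝ) (w : E3) : ℝ := √(‖w‖ ^ 2 + a ^ 2)

theorem sg_pos {a : ℝ} (ha : 0 < a) (w : E3) : 0 < sg a w := Real.sqrt_pos.2 (by positivity)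

theorem sg_ge {a : ℝ} (w : E3) : ‖w‖ ≤ sg a w := by
  unfold sg
  refine Real.le_sqrt_of_sq_le ?_
  nlinarith [sq_nonneg a]

theorem sg_le {a : ℝ} (ha : 0 ≤ a) (w : E3) : sg a w ≤ ‖w‖ + a := by
  unfold sg
  rw [Real.sqrt_le_left (by positivity)]
  nlinarith [norm_nonneg w, mul_nonneg (norm_nonneg w) ha]

theorem sg_smooth {a : ℝ} (ha : 0 < a) : ContDiff ℝ SM (sg a) := by
  unfold sg
  exact ((contDiff_norm_sq ℝ).add contDiff_const).sqrt fun w => by positivity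

/-- derivative of the regularised norm -/
noncomputable def sg' (a : ℝ) (w : E3) : E3 →L[ℝ] ℝ := (1 / sg a w) • innerSL ℝ w

theorem sg_deriv {a : ℝ} (ha : 0 < a) (w : E3) : HasFDerivAt (sg a) (sg' a w) w := by
  have h1 : HasFDerivAt (fun w : E3 => ‖w‖ ^ 2 + a ^ 2) (2 • innerSL ℝ w) w :=
    (hasStrictFDerivAt_norm_sq w).hasFDerivAt.add_const _
  have h2 := h1.sqrt (by positivity)
  refine h2.congr_fderiv ?_
  unfold sg' sg
  have h3 : √(‖w‖ ^ 2 + a ^ 2) ≠ 0 := (sg_pos ha w).ne'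
  ext v
  simp only [_root_.smul_apply, smul_eq_mul, nsmul_eq_mul]
  push_cast
  field_simp

theorem sg'_norm {a : ℝ} (ha : 0 < a) (w : E3) : ‖sg' a w‖ ≤ 1 := by
  unfold sg'
  rw [norm_smul, innerSL_apply_norm, Real.norm_eq_abs, abs_of_nonneg (by
    have := sg_pos ha w
    positivity), one_div, inv_mul_le_iff₀ (sg_pos ha w), mul_one]
  exact sg_ge w

/-- the function of two variables -/
noncomputable def GG (μ s : ℝ) : ℝ := (1 - Real.exp (-(μ * s))) / s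

/-- coefficient of the derivative -/
noncomputable def kap (μ s : ℝ) : ℝ := (μ * s * Real.exp (-(μ * s)) - (1 - Real.exp (-(μ * s)))) / s ^ 2

theorem kap_abs {μ s : ℝ} (hμ : 0 ≤ μ) (hs : 0 < s) : |kap μ s| ≤ μ ^ 2 ∧ |kap μ s| ≤ 1 / s ^ 2 := by
  set x := μ * s with hx
  have hx0 : 0 ≤ x := by positivity
  have h1 : 1 - x ≤ Real.exp (-x) := by
    have := Real.add_one_le_exp (-x)
    linarith
  have h2 : (1 + x) * Real.exp (-x) ≤ 1 := by
    have h3 := Real.add_one_le_exp x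
    have h4 : Real.exp x * Real.exp (-x) = 1 := by rw [← Real.exp_add]; simp
    have h5 := Real.exp_pos (-x)
    nlinarith
  have h3 := Real.exp_pos (-x)
  have e1 : x * Real.exp (-x) - (1 - Real.exp (-x)) = -(1 - (1 + x) * Real.exp (-x)) := by ring
  have e2 : |kap μ s| = (1 - (1 + x) * Real.exp (-x)) / s ^ 2 := by
    unfold kap
    rw [← hx, e1, abs_div, abs_neg, abs_of_nonneg (by linarith), abs_of_nonneg (by positivity)]
  rw [e2]
  constructor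
  · rw [div_le_iff₀ (by positivity)]
    have : μ ^ 2 * s ^ 2 = x ^ 2 := by rw [hx]; ring
    rw [this]
    nlinarith
  · refine div_le_div_of_nonneg_right ?_ (by positivity)
    nlinarith

theorem kap_Mk {μ a : ℝ} (hμ : 0 < μ) (ha : 0 < a) (w : E3) :
    |kap μ (sg a w)| ≤ 4 * Mk μ w ^ 2 := by
  obtain ⟨h1, h2⟩ := kap_abs hμ.le (sg_pos ha w)
  have hw := norm_nonneg w
  unfold Mk
  rw [div_pow]
  by_cases h : μ * ‖w‖ ≤ 1
  · refine h1.trans ?_
    rw [← mul_div_assoc, le_div_iff₀ (by positivity)]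
    have h3 : (1 + μ * ‖w‖) ^ 2 ≤ 4 := by
      have : 0 ≤ μ * ‖w‖ := by positivity
      nlinarith
    nlinarith [sq_nonneg μ]
  · have h' : 1 < μ * ‖w‖ := not_le.1 h
    have hw0 : 0 < ‖w‖ := by
      by_contra hc
      have : ‖w‖ = 0 := le_antisymm (not_lt.1 hc) hw
      rw [this, mul_zero] at h'
      linarith
    have h4 : 1 / sg a w ^ 2 ≤ 1 / ‖w‖ ^ 2 := by
      have := sg_ge (a := a) w
      gcongr
    refine h2.trans (h4.trans ?_)
    rw [← mul_div_assoc, div_le_div_iff₀ (by positivity) (by positivity)]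
    have h5 : (1 + μ * ‖w‖) ^ 2 ≤ (2 * (μ * ‖w‖)) ^ 2 := by
      refine pow_le_pow_left₀ (by positivity) (by linarith) 2
    nlinarith

theorem GG_deriv (μ : ℝ) {s : ℝ} (hs : 0 < s) : HasDerivAt (GG μ) (kap μ s) s := by
  have h1 : HasDerivAt (fun s : ℝ => 1 - Real.exp (-(μ * s))) (-(Real.exp (-(μ * s)) * (-(μ * 1)))) s :=
    (((hasDerivAt_id s).const_mul μ).neg.exp).const_sub 1
  have h2 := h1.div (hasDerivAt_id s) hs.ne'
  refine h2.congr_deriv ?_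
  unfold kap
  simp only [id]
  congr 1
  ring

theorem GG_lip {μ : ℝ} (hμ : 0 ≤ μ) {s s' : ℝ} (hs : 0 < s) (h : s ≤ s') :
    |GG μ s' - GG μ s| ≤ μ ^ 2 * (s' - s) := by
  have h1 : ∀ x ∈ Set.Ici s, HasDerivWithinAt (GG μ) (kap μ x) (Set.Ici s) x := fun x hx =>
    (GG_deriv μ (lt_of_lt_of_le hs hx)).hasDerivWithinAt
  have h2 : ∀ x ∈ Set.Ici s, ‖kap μ x‖ ≤ μ ^ 2 := fun x hx =>
    (kap_abs hμ (lt_of_lt_of_le hs hx)).1
  have h3 := (convex_Ici s).norm_image_sub_le_of_norm_hasDerivWithin_le h1 h2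
    (Set.mem_Ici.2 (le_refl s)) (Set.mem_Ici.2 h)
  rw [Real.norm_eq_abs, Real.norm_eq_abs, abs_of_nonneg (by linarith : 0 ≤ s' - s)] at h3
  exact h3

theorem exp_quad {x : ℝ} (hx : 0 ≤ x) : |1 - Real.exp (-x) - x| ≤ x ^ 2 := by
  have h1 : 1 - x ≤ Real.exp (-x) := by
    have := Real.add_one_le_exp (-x)
    linarith
  have h2 : (1 + x) * Real.exp (-x) ≤ 1 := by
    have h3 := Real.add_one_le_exp x
    have h4 : Real.exp x * Real.exp (-x) = 1 := by rw [← Real.exp_add]; simp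
    have h5 := Real.exp_pos (-x)
    nlinarith
  rw [abs_le]
  constructor
  · have : Real.exp (-x) ≤ 1 - x + x ^ 2 := by
      have h6 : (1 + x) * Real.exp (-x) ≤ (1 + x) * (1 - x + x ^ 2) := by
        refine h2.trans ?_
        nlinarith [pow_nonneg hx 3]
      exact le_of_mul_le_mul_left h6 (by linarith)
    linarith
  · nlinarith [sq_nonneg x]

theorem GG_Lk {μ a : ℝ} (hμ : 0 ≤ μ) (ha : 0 < a) (w : E3) :
    |GG μ (sg a w) - Lk μ w| ≤ μ ^ 2 * a := by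
  unfold Lk
  by_cases hw : w = 0
  · rw [if_pos hw]
    have h1 : sg a w = a := by
      unfold sg
      rw [hw, norm_zero]
      simp only [ne_eq, OfNat.ofNat_ne_zero, not_false_eq_true, zero_pow, zero_add]
      exact Real.sqrt_sq ha.le
    rw [h1]
    unfold GG
    have h2 : (1 - Real.exp (-(μ * a))) / a - μ = (1 - Real.exp (-(μ * a)) - μ * a) / a := by
      field_simp
    rw [h2, abs_div, abs_of_pos ha, div_le_iff₀ ha]
    refine (exp_quad (by positivity)).trans (le_of_eq ?_)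
    ring
  · rw [if_neg hw]
    have hw0 : 0 < ‖w‖ := norm_pos_iff.2 hw
    have h1 := GG_lip hμ hw0 (sg_ge (a := a) w)
    have h2 : GG μ ‖w‖ = (1 - Real.exp (-(μ * ‖w‖))) / ‖w‖ := rfl
    rw [h2] at h1
    refine h1.trans ?_
    have h3 := sg_le ha.le w
    exact mul_le_mul_of_nonneg_left (by linarith) (by positivity)

theorem Lk_bd {μ : ℝ} (hμ : 0 ≤ μ) (w : E3) : 0 ≤ Lk μ w ∧ Lk μ w ≤ μ := by
  unfold Lk
  split_ifs with h
  · exact ⟨hμ, le_rfl⟩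
  · have hw0 : 0 < ‖w‖ := norm_pos_iff.2 h
    have h1 : Real.exp (-(μ * ‖w‖)) ≤ 1 := by
      rw [Real.exp_le_one_iff]
      have : 0 ≤ μ * ‖w‖ := by positivity
      linarith
    have h2 := Real.add_one_le_exp (-(μ * ‖w‖))
    constructor
    · exact div_nonneg (by linarith) hw0.le
    · rw [div_le_iff₀ hw0]
      linarith

theorem hs_facts {s : ℝ} (hs1 : s = 1 ∨ s = -1) (t : ℝ) : 0 < hs s t ∧ hs s t ≤ 1 + 2 * |t| ∧
    hs s t ≤ 2 * √(1 + t ^ 2) := by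
  have h0 : 0 < √(1 + t ^ 2) := Real.sqrt_pos.2 (by positivity)
  have h1 : √(1 + t ^ 2) ^ 2 = 1 + t ^ 2 := Real.sq_sqrt (by positivity)
  have h2 : |t| < √(1 + t ^ 2) := by
    rw [Real.lt_sqrt (abs_nonneg t), sq_abs]
    linarith
  have h3 : √(1 + t ^ 2) ≤ 1 + |t| := by
    rw [Real.sqrt_le_left (by positivity)]
    nlinarith [sq_abs t, abs_nonneg t]
  have h4 : |s * t| = |t| := by
    rcases hs1 with rfl | rfl <;> simp
  have h5 := abs_le.1 (le_of_eq h4)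
  unfold hs
  exact ⟨by linarith, by linarith, by linarith⟩

theorem hs_smooth (s : ℝ) : ContDiff ℝ SM (hs s) := by
  unfold hs
  refine ContDiff.add ?_ (contDiff_const.mul contDiff_id)
  exact (contDiff_const.add (contDiff_id.pow 2)).sqrt fun t => by positivity

theorem rhs_deriv {s : ℝ} (hs1 : s = 1 ∨ s = -1) (t : ℝ) :
    ∃ d : ℝ, HasDerivAt (fun t => √(hs s t)) d t ∧ d ^ 2 ≤ 1 / 2 := by
  obtain ⟨f1, f2, f3⟩ := hs_facts hs1 t
  set r := √(1 + t ^ 2) with hr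
  have h0 : 0 < r := Real.sqrt_pos.2 (by positivity)
  have h1 : r ^ 2 = 1 + t ^ 2 := Real.sq_sqrt (by positivity)
  have h2 : HasDerivAt (fun t : ℝ => √(1 + t ^ 2)) ((2 * t) / (2 * r)) t := by
    have h3 : HasDerivAt (fun t : ℝ => 1 + t ^ 2) (2 * t) t := by
      have := ((hasDerivAt_id t).pow 2).const_add 1
      simpa using this
    exact h3.sqrt (by positivity)
  have h4 : HasDerivAt (hs s) ((2 * t) / (2 * r) + s * 1) t := by
    unfold hs
    exact h2.add ((hasDerivAt_id t).const_mul s)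
  have h5 := h4.sqrt f1.ne'
  refine ⟨_, h5, ?_⟩
  have e1 : (2 * t) / (2 * r) + s * 1 = s * hs s t / r := by
    have hss : s * s = 1 := by rcases hs1 with rfl | rfl <;> norm_num
    unfold hs
    rw [← hr]
    field_simp
    linear_combination (-t) * hss
  rw [e1]
  have e2 : (s * hs s t / r / (2 * √(hs s t))) ^ 2 = hs s t / (4 * r ^ 2) := by
    have hss : s ^ 2 = 1 := by rcases hs1 with rfl | rfl <;> norm_num
    have h6 : √(hs s t) ^ 2 = hs s t := Real.sq_sqrt f1.le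
    have h7 : 0 < √(hs s t) := Real.sqrt_pos.2 f1
    rw [div_pow, div_pow, mul_pow, mul_pow, hss, h6]
    field_simp
    ring
  rw [e2, div_le_iff₀ (by positivity)]
  have h8 : 1 ≤ r := by
    rw [hr]
    exact Real.one_le_sqrt.2 (by nlinarith [sq_nonneg t])
  nlinarith

theorem ct_smooth' : ContDiff ℝ SM ct := by
  unfold ct
  apply Real.smoothTransition.contDiff.comp
  apply ContDiff.div_const
  exact contDiff_const.sub (contDiff_norm_sq ℝ)

theorem ct_zero' (w : E3) (hw : 2 ≤ ‖w‖) : ct w = 0 := by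
  unfold ct
  apply Real.smoothTransition.zero_of_nonpos
  nlinarith

theorem al_smooth : ContDiff ℝ SM al := by
  unfold al
  exact (ct_smooth'.comp (contDiff_id.const_smul (4 : ℝ))).div_const _

theorem al_zero {w : E3} (hw : 1 / 2 ≤ ‖w‖) : al w = 0 := by
  unfold al
  rw [ct_zero', zero_div]
  rw [norm_smul, Real.norm_eq_abs, abs_of_pos (by norm_num : (0:ℝ) < 4)]
  linarith

theorem al_fd_zero {w : E3} (hw : 1 / 2 < ‖w‖) : fderiv ℝ al w = 0 := by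
  have h : al =ᶠ[nhds w] fun _ => 0 := by
    have ho : IsOpen {z : E3 | 1 / 2 < ‖z‖} := isOpen_lt continuous_const continuous_norm
    filter_upwards [ho.mem_nhds hw] with z hz
    exact al_zero (le_of_lt hz)
  rw [h.fderiv_eq]
  simp

theorem al_cs : HasCompactSupport al := by
  apply HasCompactSupport.intro (isCompact_closedBall (0 : E3) 1)
  intro x hx
  apply al_zero
  rw [mem_closedBall_zero_iff, not_le] at hx
  linarith

theorem al_bd : ∃ Ka : ℝ, 0 ≤ Ka ∧ (∀ w, |al w| ≤ Ka) ∧ ∀ w, ‖fderiv ℝ al w‖ ≤ Ka := by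
  obtain ⟨K1, hK1⟩ := al_cs.exists_bound_of_continuous al_smooth.continuous
  obtain ⟨K2, hK2⟩ := (al_cs.fderiv (𝕜 := ℝ)).exists_bound_of_continuous
    (al_smooth.continuous_fderiv (by simp))
  refine ⟨max K1 K2, ?_, fun w => (hK1 w).trans (le_max_left _ _), fun w =>
    (hK2 w).trans (le_max_right _ _)⟩
  exact ((norm_nonneg _).trans (hK1 0)).trans (le_max_left _ _)

/-- the function `μ ^ (3/2) al (μ v)` -/
theorem Phi_deriv : ∃ C : ℝ, 0 ≤ C ∧ ∀ (v : E3) (μ : ℝ), 0 < μ →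
    ∃ d : ℝ, HasDerivAt (fun μ : ℝ => μ ^ ((3 : ℝ) / 2) * al (μ • v)) d μ ∧
      d ^ 2 ≤ C * μ * (if μ * ‖v‖ ≤ 1 / 2 then 1 else 0) := by
  obtain ⟨Ka, hKa, h1, h2⟩ := al_bd
  refine ⟨4 * Ka ^ 2, by positivity, fun v μ hμ => ?_⟩
  have d1 : HasDerivAt (fun μ : ℝ => μ ^ ((3 : ℝ) / 2)) ((3 / 2) * μ ^ ((3 : ℝ) / 2 - 1)) μ :=
    Real.hasDerivAt_rpow_const (Or.inl hμ.ne')
  have d2 : HasDerivAt (fun μ : ℝ => al (μ • v)) (fderiv ℝ al (μ • v) v) μ := by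
    have e1 : HasFDerivAt al (fderiv ℝ al (μ • v)) (μ • v) :=
      ((al_smooth.differentiable (by simp)) _).hasFDerivAt
    have e2 : HasDerivAt (fun μ : ℝ => μ • v) v μ := by
      simpa using (hasDerivAt_id μ).smul_const v
    exact e1.comp_hasDerivAt μ e2
  refine ⟨_, d1.mul d2, ?_⟩
  have hn : ‖μ • v‖ = μ * ‖v‖ := by rw [norm_smul, Real.norm_eq_abs, abs_of_pos hμ]
  have r1 : μ ^ ((3 : ℝ) / 2 - 1) = √μ := by
    rw [Real.sqrt_eq_rpow]
    norm_num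
  have r2 : μ ^ ((3 : ℝ) / 2) = √μ * μ := by
    rw [Real.sqrt_eq_rpow, ← Real.rpow_add_one hμ.ne']
    norm_num
  rw [r1, r2]
  by_cases h : μ * ‖v‖ ≤ 1 / 2
  · rw [if_pos h, mul_one]
    have b1 : |fderiv ℝ al (μ • v) v| ≤ Ka * ‖v‖ :=
      ((fderiv ℝ al (μ • v)).le_opNorm v).trans (mul_le_mul_of_nonneg_right (h2 _) (norm_nonneg _))
    have b2 := h1 (μ • v)
    have hs0 : 0 ≤ √μ := Real.sqrt_nonneg _
    have hs2 : √μ ^ 2 = μ := Real.sq_sqrt hμ.le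
    have b3 : |3 / 2 * √μ * al (μ • v) + √μ * μ * fderiv ℝ al (μ • v) v| ≤ 2 * Ka * √μ := by
      refine (abs_add_le _ _).trans ?_
      rw [abs_mul, abs_mul (√μ * μ), abs_of_nonneg (by positivity : 0 ≤ 3 / 2 * √μ),
        abs_of_nonneg (by positivity : 0 ≤ √μ * μ)]
      have b4 : 3 / 2 * √μ * |al (μ • v)| ≤ 3 / 2 * √μ * Ka :=
        mul_le_mul_of_nonneg_left b2 (by positivity)
      have b5 : √μ * μ * |fderiv ℝ al (μ • v) v| ≤ √μ * (1 / 2 * Ka) := by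
        calc √μ * μ * |fderiv ℝ al (μ • v) v| ≤ √μ * μ * (Ka * ‖v‖) :=
              mul_le_mul_of_nonneg_left b1 (by positivity)
          _ = √μ * ((μ * ‖v‖) * Ka) := by ring
          _ ≤ √μ * (1 / 2 * Ka) :=
              mul_le_mul_of_nonneg_left (mul_le_mul_of_nonneg_right h hKa) hs0
      linarith
    calc (3 / 2 * √μ * al (μ • v) + √μ * μ * fderiv ℝ al (μ • v) v) ^ 2 =
        |3 / 2 * √μ * al (μ • v) + √μ * μ * fderiv ℝ al (μ • v) v| ^ 2 := (sq_abs _).symm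
      _ ≤ (2 * Ka * √μ) ^ 2 := pow_le_pow_left₀ (abs_nonneg _) b3 2
      _ = 4 * Ka ^ 2 * μ := by rw [mul_pow, hs2]; ring
  · rw [if_neg h]
    have h' : 1 / 2 < ‖μ • v‖ := by rw [hn]; exact not_le.1 h
    rw [al_zero h'.le, al_fd_zero h']
    simp



section pa

variable {I : Type} [Fintype I] [DecidableEq I]

/-- restriction of a functional to the coordinate `i` -/
noncomputable def pa (A : (I → E3) →L[ℝ] ℝ) (i : I) : E3 →L[ℝ] ℝ :=
  A.comp (ContinuousLinearMap.single ℝ (fun _ : I => E3) i)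

theorem pa_apply (A : (I → E3) →L[ℝ] ℝ) (i : I) (v : E3) : pa A i v = A (Pi.single i v) := rfl

theorem pa_add (A B : (I → E3) →L[ℝ] ℝ) (i : I) : pa (A + B) i = pa A i + pa B i := by
  ext v; simp [pa]

theorem pa_sub (A B : (I → E3) →L[ℝ] ℝ) (i : I) : pa (A - B) i = pa A i - pa B i := by
  ext v; simp [pa]

theorem pa_smul (c : ℝ) (A : (I → E3) →L[ℝ] ℝ) (i : I) : pa (c • A) i = c • pa A i := by
  ext v; simp [pa]

theorem pa_sum {J : Type} (s : Finset J) (A : J → (I → E3) →L[ℝ] ℝ) (i : I) :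
    pa (∑ j ∈ s, A j) i = ∑ j ∈ s, pa (A j) i := by
  ext v
  simp [pa]

theorem pa_proj (l : E3 →L[ℝ] ℝ) (i j : I) :
    pa (l.comp (ContinuousLinearMap.proj j : (I → E3) →L[ℝ] E3)) i = if i = j then l else 0 := by
  ext v
  rw [pa_apply]
  simp only [ContinuousLinearMap.comp_apply, ContinuousLinearMap.proj_apply]
  by_cases h : i = j
  · subst h
    simp
  · rw [if_neg h, Pi.single_eq_of_ne (Ne.symm h)]
    simp

theorem fun_norm (l : E3 →L[ℝ] ℝ) :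
    ∑ k : Fin 3, (l (EuclideanSpace.single k (1 : ℝ))) ^ 2 ≤ ‖l‖ ^ 2 := by
  set a : Fin 3 → ℝ := fun k => l (EuclideanSpace.single k (1 : ℝ)) with ha
  set w : E3 := ∑ k : Fin 3, a k • EuclideanSpace.single k (1 : ℝ) with hw
  have h1 : l w = ∑ k : Fin 3, a k ^ 2 := by
    rw [hw, map_sum]
    refine Finset.sum_congr rfl fun k _ => ?_
    rw [map_smul, smul_eq_mul]
    rw [ha]
    ring
  have h2 : ‖w‖ ^ 2 = ∑ k : Fin 3, a k ^ 2 := by
    rw [EuclideanSpace.norm_sq_eq]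
    refine Finset.sum_congr rfl fun k _ => ?_
    have : w k = a k := by
      rw [hw, Fin.sum_univ_three]
      fin_cases k <;> simp
    rw [this, Real.norm_eq_abs, sq_abs]
  have h3 : l w ≤ ‖l‖ * ‖w‖ := (le_abs_self _).trans (l.le_opNorm w)
  have h4 : 0 ≤ ‖w‖ := norm_nonneg w
  have h5 : 0 ≤ ‖l‖ := norm_nonneg l
  change ∑ k : Fin 3, a k ^ 2 ≤ _
  rw [← h2]
  rw [h1, ← h2] at h3
  rcases h4.eq_or_lt with h6 | h6
  · rw [← h6]
    nlinarith
  · have h7 : ‖w‖ ≤ ‖l‖ := by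
      have : ‖w‖ * ‖w‖ ≤ ‖l‖ * ‖w‖ := by rw [← sq]; exact h3
      exact le_of_mul_le_mul_right this h6
    exact pow_le_pow_left₀ h4 h7 2

theorem gr_le {f : (I → E3) → ℝ} {A : (I → E3) →L[ℝ] ℝ} {x : I → E3} (h : HasFDerivAt f A x) :
    gr f x ≤ ∑ i, ‖pa A i‖ ^ 2 := by
  unfold gr
  rw [h.fderiv]
  exact Finset.sum_le_sum fun i _ => fun_norm (pa A i)

/-- weights -/
noncomputable def ew (y : E3) (x : I → E3) (i : I) : ℝ := Real.exp (1 - √(1 + ‖x i - y‖ ^ 2))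

omit [Fintype I] [DecidableEq I] in
theorem ew_bd (y : E3) (x : I → E3) (i : I) : 0 < ew y x i ∧ ew y x i ≤ 1 := by
  unfold ew
  refine ⟨Real.exp_pos _, ?_⟩
  rw [Real.exp_le_one_iff]
  have : 1 ≤ √(1 + ‖x i - y‖ ^ 2) := Real.one_le_sqrt.2 (by nlinarith [sq_nonneg ‖x i - y‖])
  linarith

omit [DecidableEq I] in
theorem nh_eq (y : E3) (x : I → E3) : nh y x = ∑ j, ew y x j := rfl

omit [DecidableEq I] in
theorem nh_bd (y : E3) (x : I → E3) : 0 ≤ nh y x ∧ nh y x ≤ Fintype.card I := by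
  rw [nh_eq]
  constructor
  · exact Finset.sum_nonneg fun i _ => (ew_bd y x i).1.le
  · calc ∑ j, ew y x j ≤ ∑ _j : I, (1 : ℝ) := Finset.sum_le_sum fun i _ => (ew_bd y x i).2
      _ = _ := by simp

/-- derivative of `nh` -/
noncomputable def nh' (y : E3) (x : I → E3) : (I → E3) →L[ℝ] ℝ :=
  ∑ j, (-(ew y x j)) • (sg' 1 (x j - y)).comp (ContinuousLinearMap.proj j : (I → E3) →L[ℝ] E3)

theorem proj_sub_deriv (y : E3) (x : I → E3) (j : I) :
    HasFDerivAt (fun x : I → E3 => x j - y) (ContinuousLinearMap.proj j : (I → E3) →L[ℝ] E3) x :=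
  (ContinuousLinearMap.proj j : (I → E3) →L[ℝ] E3).hasFDerivAt.sub_const y

theorem sgx_deriv {a : ℝ} (ha : 0 < a) (y : E3) (x : I → E3) (j : I) :
    HasFDerivAt (fun x : I → E3 => sg a (x j - y))
      ((sg' a (x j - y)).comp (ContinuousLinearMap.proj j : (I → E3) →L[ℝ] E3)) x :=
  HasFDerivAt.comp (g := sg a) (f := fun x : I → E3 => x j - y) x (sg_deriv ha (x j - y))
    (proj_sub_deriv y x j)

theorem nh_deriv (y : E3) (x : I → E3) : HasFDerivAt (fun x : I → E3 => nh y x) (nh' y x) x := by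
  unfold nh nh'
  refine HasFDerivAt.fun_sum fun j _ => ?_
  have h1 : (fun x : I → E3 => Real.exp (1 - √(1 + ‖x j - y‖ ^ 2))) =
      fun x : I → E3 => Real.exp (1 - sg 1 (x j - y)) := by
    funext x
    unfold sg
    rw [one_pow, add_comm (‖x j - y‖ ^ 2)]
  rw [h1]
  have h2 := ((sgx_deriv one_pos y x j).const_sub 1).exp
  refine h2.congr_fderiv ?_
  have h3 : Real.exp (1 - sg 1 (x j - y)) = ew y x j := by
    unfold ew sg
    rw [one_pow, add_comm (‖x j - y‖ ^ 2)]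
  rw [h3]
  ext v
  simp

theorem nh'_pa (y : E3) (x : I → E3) (i : I) : ‖pa (nh' y x) i‖ ≤ ew y x i := by
  unfold nh'
  rw [pa_sum]
  simp only [pa_smul, pa_proj]
  have h1 : ∑ j, (-(ew y x j)) • (if i = j then sg' 1 (x j - y) else 0) =
      (-(ew y x i)) • sg' 1 (x i - y) := by
    rw [Finset.sum_eq_single i]
    · rw [if_pos rfl]
    · intro j _ hj
      rw [if_neg (Ne.symm hj), smul_zero]
    · intro h
      exact absurd (Finset.mem_univ i) h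
  rw [h1, norm_smul, norm_neg, Real.norm_eq_abs, abs_of_pos (ew_bd y x i).1]
  have := sg'_norm one_pos (x i - y)
  have h2 := (ew_bd y x i).1
  nlinarith

theorem nh_smooth (y : E3) : ContDiff ℝ SM (fun x : I → E3 => nh y x) := by
  unfold nh
  refine ContDiff.sum fun j _ => ?_
  refine Real.contDiff_exp.comp (contDiff_const.sub ?_)
  refine ContDiff.sqrt ?_ fun x => by positivity
  refine contDiff_const.add ?_
  exact (contDiff_norm_sq ℝ).comp ((contDiff_apply ℝ E3 j).sub contDiff_const)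

omit [DecidableEq I] in
theorem mu_facts {K : ℝ} (hK : 1 ≤ K) (y : E3) (x : I → E3) :
    1 ≤ mu K y x ∧ mu K y x ^ 3 = K * (1 + nh y x) := by
  have h0 := (nh_bd y x).1
  have h1 : 1 ≤ K * (1 + nh y x) := by nlinarith
  unfold mu
  refine ⟨Real.one_le_rpow h1 (by norm_num), ?_⟩
  rw [← Real.rpow_natCast, ← Real.rpow_mul (by linarith)]
  norm_num

/-- derivative of `mu` -/
noncomputable def mu' (K : ℝ) (y : E3) (x : I → E3) : (I → E3) →L[ℝ] ℝ :=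
  (K / (3 * mu K y x ^ 2)) • nh' y x

theorem mu_deriv {K : ℝ} (hK : 1 ≤ K) (y : E3) (x : I → E3) :
    HasFDerivAt (fun x : I → E3 => mu K y x) (mu' K y x) x := by
  obtain ⟨h1, h3⟩ := mu_facts hK y x
  have h0 := (nh_bd y x).1
  have hT : 0 < K * (1 + nh y x) := by nlinarith
  have h2 : HasFDerivAt (fun x : I → E3 => K * (1 + nh y x)) (K • nh' y x) x :=
    ((nh_deriv y x).const_add 1).const_mul K
  have h4 := h2.rpow_const (p := (1 : ℝ) / 3) (Or.inl hT.ne')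
  have h5 : HasFDerivAt (fun x : I → E3 => mu K y x)
      ((1 / 3 * (K * (1 + nh y x)) ^ ((1 : ℝ) / 3 - 1)) • (K • nh' y x)) x := h4
  refine h5.congr_fderiv ?_
  unfold mu'
  rw [smul_smul]
  congr 1
  rw [Real.rpow_sub_one hT.ne']
  have h6 : (K * (1 + nh y x)) ^ ((1 : ℝ) / 3) = mu K y x := rfl
  rw [h6, ← h3]
  have : mu K y x ≠ 0 := by linarith
  field_simp

theorem mu'_pa {K : ℝ} (hK : 1 ≤ K) (y : E3) (x : I → E3) :
    ∑ i, ‖pa (mu' K y x) i‖ ^ 2 ≤ K / (9 * mu K y x) := by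
  obtain ⟨h1, h3⟩ := mu_facts hK y x
  have hm : 0 < mu K y x := by linarith
  have h4 : ∀ i, ‖pa (mu' K y x) i‖ ^ 2 ≤ (K / (3 * mu K y x ^ 2)) ^ 2 * ew y x i := by
    intro i
    unfold mu'
    rw [pa_smul, norm_smul, mul_pow, Real.norm_eq_abs, sq_abs]
    refine mul_le_mul_of_nonneg_left ?_ (sq_nonneg _)
    have a1 := nh'_pa y x i
    obtain ⟨a2, a3⟩ := ew_bd y x i
    calc ‖pa (nh' y x) i‖ ^ 2 ≤ ew y x i ^ 2 := pow_le_pow_left₀ (norm_nonneg _) a1 2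
      _ ≤ ew y x i := by nlinarith
  refine (Finset.sum_le_sum fun i _ => h4 i).trans ?_
  rw [← Finset.mul_sum, ← nh_eq, div_pow, div_mul_eq_mul_div, div_le_div_iff₀ (by positivity) (by positivity)]
  have h5 : K * nh y x ≤ mu K y x ^ 3 := by rw [h3]; nlinarith
  have h6 : K ^ 2 * nh y x * (9 * mu K y x) = 9 * K * mu K y x * (K * nh y x) := by ring
  have h7 : K * (3 * mu K y x ^ 2) ^ 2 = 9 * K * mu K y x * mu K y x ^ 3 := by ring
  rw [h6, h7]
  exact mul_le_mul_of_nonneg_left h5 (by positivity)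

theorem mu_smooth {K : ℝ} (hK : 1 ≤ K) (y : E3) : ContDiff ℝ SM (fun x : I → E3 => mu K y x) := by
  unfold mu
  refine ContDiff.rpow_const_of_ne (contDiff_const.mul (contDiff_const.add (nh_smooth y))) ?_
  intro x
  have h0 := (nh_bd y x).1
  have hT : 0 < K * (1 + nh y x) := by nlinarith
  exact hT.ne'

end pa



section wv

variable {I : Type} [Fintype I] [DecidableEq I]

/-- regularised potential -/
noncomputable def wv (c : I → ℝ) (a : ℝ) (u : E3 → ℝ) (K : ℝ) (y ω : E3) (x : I → E3) : ℝ :=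
  (∑ j, c j * GG (mu K y x) (sg a (x j - ω))) - ∑ j, c j * u (x j)

/-- derivative of one term -/
noncomputable def tj (a : ℝ) (K : ℝ) (y ω : E3) (x : I → E3) (j : I) : (I → E3) →L[ℝ] ℝ :=
  Real.exp (-(mu K y x * sg a (x j - ω))) • mu' K y x +
    kap (mu K y x) (sg a (x j - ω)) •
      (sg' a (x j - ω)).comp (ContinuousLinearMap.proj j : (I → E3) →L[ℝ] E3)

theorem tj_deriv {a : ℝ} (ha : 0 < a) {K : ℝ} (hK : 1 ≤ K) (y ω : E3) (x : I → E3) (j : I) :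
    HasFDerivAt (fun x : I → E3 => GG (mu K y x) (sg a (x j - ω))) (tj a K y ω x j) x := by
  have hs : 0 < sg a (x j - ω) := sg_pos ha _
  have h1 := mu_deriv hK y x
  have h2 := sgx_deriv ha ω x j
  have h3 : HasFDerivAt (fun x : I → E3 => 1 - Real.exp (-(mu K y x * sg a (x j - ω))))
      (-(Real.exp (-(mu K y x * sg a (x j - ω))) •
        -(mu K y x • (sg' a (x j - ω)).comp (ContinuousLinearMap.proj j : (I → E3) →L[ℝ] E3) +
          sg a (x j - ω) • mu' K y x))) x := ((h1.mul h2).neg.exp).const_sub 1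
  have h4 : HasFDerivAt (fun x : I → E3 => (sg a (x j - ω))⁻¹)
      ((-(sg a (x j - ω) ^ 2)⁻¹) •
        (sg' a (x j - ω)).comp (ContinuousLinearMap.proj j : (I → E3) →L[ℝ] E3)) x :=
    (hasDerivAt_inv hs.ne').comp_hasFDerivAt x h2
  have h5 := h3.mul h4
  have h6 : (fun x : I → E3 => GG (mu K y x) (sg a (x j - ω))) =
      fun x : I → E3 => (1 - Real.exp (-(mu K y x * sg a (x j - ω)))) * (sg a (x j - ω))⁻¹ := by
    funext x
    unfold GG
    rw [div_eq_mul_inv]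
  rw [h6]
  refine h5.congr_fderiv ?_
  unfold tj kap
  ext v
  simp only [_root_.add_apply, _root_.smul_apply, smul_eq_mul, _root_.neg_apply]
  field_simp
  ring

/-- derivative of `wv` -/
noncomputable def wv' (c : I → ℝ) (a : ℝ) (u : E3 → ℝ) (K : ℝ) (y ω : E3) (x : I → E3) :
    (I → E3) →L[ℝ] ℝ :=
  (∑ j, c j • tj a K y ω x j) - ∑ j, c j •
    (fderiv ℝ u (x j)).comp (ContinuousLinearMap.proj j : (I → E3) →L[ℝ] E3)

theorem wv_deriv (c : I → ℝ) {a : ℝ} (ha : 0 < a) {u : E3 → ℝ} (hu : ContDiff ℝ SM u) {K : ℝ}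
    (hK : 1 ≤ K) (y ω : E3) (x : I → E3) :
    HasFDerivAt (wv c a u K y ω) (wv' c a u K y ω x) x := by
  unfold wv wv'
  refine HasFDerivAt.fun_sub (HasFDerivAt.fun_sum fun j _ => ?_) (HasFDerivAt.fun_sum fun j _ => ?_)
  · exact (tj_deriv ha hK y ω x j).const_mul (c j)
  · have h1 : HasFDerivAt u (fderiv ℝ u (x j)) (x j) := ((hu.differentiable (by simp)) _).hasFDerivAt
    have h2 : HasFDerivAt (fun x : I → E3 => u (x j))
        ((fderiv ℝ u (x j)).comp (ContinuousLinearMap.proj j : (I → E3) →L[ℝ] E3)) x :=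
      HasFDerivAt.comp (g := u) (f := fun x : I → E3 => x j) x h1
        (ContinuousLinearMap.proj j : (I → E3) →L[ℝ] E3).hasFDerivAt
    exact h2.const_mul (c j)

theorem wv_smooth (c : I → ℝ) {a : ℝ} (ha : 0 < a) {u : E3 → ℝ} (hu : ContDiff ℝ SM u) {K : ℝ}
    (hK : 1 ≤ K) (y ω : E3) : ContDiff ℝ SM (wv c a u K y ω) := by
  unfold wv GG
  have hp : ∀ j, ContDiff ℝ SM (fun x : I → E3 => sg a (x j - ω)) := fun j =>
    (sg_smooth ha).comp ((contDiff_apply ℝ E3 j).sub contDiff_const)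
  refine ContDiff.sub (ContDiff.sum fun j _ => contDiff_const.mul ?_)
    (ContDiff.sum fun j _ => contDiff_const.mul (hu.comp (contDiff_apply ℝ E3 j)))
  refine ContDiff.div (contDiff_const.sub (Real.contDiff_exp.comp ((mu_smooth hK y).mul (hp j)).neg))
    (hp j) fun x => (sg_pos ha _).ne'

theorem wv'_pa (c : I → ℝ) {a : ℝ} {u : E3 → ℝ} {K : ℝ} (y ω : E3) (x : I → E3) (i : I) :
    pa (wv' c a u K y ω x) i =
      (∑ j, c j * Real.exp (-(mu K y x * sg a (x j - ω)))) • pa (mu' K y x) i +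
      (c i * kap (mu K y x) (sg a (x i - ω))) • sg' a (x i - ω) - c i • fderiv ℝ u (x i) := by
  unfold wv' tj
  rw [pa_sub, pa_sum, pa_sum]
  simp only [pa_smul, pa_add, pa_proj, smul_add, Finset.sum_add_distrib]
  congr 1
  · congr 1
    · rw [Finset.sum_smul]
      exact Finset.sum_congr rfl fun j _ => smul_smul _ _ _
    · rw [Finset.sum_eq_single i]
      · rw [if_pos rfl, smul_smul]
      · intro j _ hj
        rw [if_neg (Ne.symm hj), smul_zero, smul_zero]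
      · intro h
        exact absurd (Finset.mem_univ i) h
  · rw [Finset.sum_eq_single i]
    · rw [if_pos rfl]
    · intro j _ hj
      rw [if_neg (Ne.symm hj), smul_zero]
    · intro h
      exact absurd (Finset.mem_univ i) h

theorem three_sq (a b c : ℝ) : (a + b + c) ^ 2 ≤ 3 * a ^ 2 + 3 * b ^ 2 + 3 * c ^ 2 := by
  nlinarith [sq_nonneg (a - b), sq_nonneg (b - c), sq_nonneg (a - c)]

theorem wv'_grad (c : I → ℝ) {Z : ℝ} (hZ : 0 ≤ Z) (hc : ∀ i, |c i| ≤ Z) {a : ℝ} (ha : 0 < a)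
    {u : E3 → ℝ} {Λ : ℝ} (hΛ : ∀ z, ‖fderiv ℝ u z‖ ≤ Λ) {K : ℝ} (hK : 1 ≤ K) (y ω : E3)
    (x : I → E3) : ∑ i, ‖pa (wv' c a u K y ω x) i‖ ^ 2 ≤
      Z ^ 2 / 3 * (∑ i, mu K y x * Real.exp (-(mu K y x * ‖x i - ω‖))) ^ 2 +
      48 * Z ^ 2 * ∑ i, Mk (mu K y x) (x i - ω) ^ 4 + 3 * Z ^ 2 * Fintype.card I * Λ ^ 2 := by
  obtain ⟨m1, m3⟩ := mu_facts hK y x
  have hm : 0 < mu K y x := by linarith
  set E : ℝ := ∑ i, Real.exp (-(mu K y x * ‖x i - ω‖)) with hE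
  have hE0 : 0 ≤ E := Finset.sum_nonneg fun i _ => (Real.exp_pos _).le
  have hc1 : |∑ j, c j * Real.exp (-(mu K y x * sg a (x j - ω)))| ≤ Z * E := by
    refine (Finset.abs_sum_le_sum_abs _ _).trans ?_
    rw [hE, Finset.mul_sum]
    refine Finset.sum_le_sum fun j _ => ?_
    rw [abs_mul, abs_of_pos (Real.exp_pos _)]
    refine mul_le_mul (hc j) ?_ (Real.exp_pos _).le hZ
    rw [Real.exp_le_exp]
    have := sg_ge (a := a) (x j - ω)
    nlinarith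
  have hpt : ∀ i, ‖pa (wv' c a u K y ω x) i‖ ^ 2 ≤ 3 * (Z * E) ^ 2 * ‖pa (mu' K y x) i‖ ^ 2 +
      48 * Z ^ 2 * Mk (mu K y x) (x i - ω) ^ 4 + 3 * Z ^ 2 * Λ ^ 2 := by
    intro i
    rw [wv'_pa]
    have b1 : ‖(∑ j, c j * Real.exp (-(mu K y x * sg a (x j - ω)))) • pa (mu' K y x) i +
        (c i * kap (mu K y x) (sg a (x i - ω))) • sg' a (x i - ω) - c i • fderiv ℝ u (x i)‖ ≤
        (Z * E) * ‖pa (mu' K y x) i‖ + Z * (4 * Mk (mu K y x) (x i - ω) ^ 2) + Z * Λ := by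
      refine (norm_sub_le _ _).trans (add_le_add ((norm_add_le _ _).trans (add_le_add ?_ ?_)) ?_)
      · rw [norm_smul, Real.norm_eq_abs]
        exact mul_le_mul_of_nonneg_right hc1 (norm_nonneg _)
      · rw [norm_smul, Real.norm_eq_abs, abs_mul]
        have k1 := kap_Mk hm ha (x i - ω)
        have k2 := sg'_norm ha (x i - ω)
        have k3 : |c i| * |kap (mu K y x) (sg a (x i - ω))| ≤
            Z * (4 * Mk (mu K y x) (x i - ω) ^ 2) :=
          mul_le_mul (hc i) k1 (abs_nonneg _) hZ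
        calc |c i| * |kap (mu K y x) (sg a (x i - ω))| * ‖sg' a (x i - ω)‖ ≤
            |c i| * |kap (mu K y x) (sg a (x i - ω))| * 1 :=
              mul_le_mul_of_nonneg_left k2 (by positivity)
          _ ≤ _ := by rw [mul_one]; exact k3
      · rw [norm_smul, Real.norm_eq_abs]
        exact mul_le_mul (hc i) (hΛ _) (norm_nonneg _) hZ
    refine (pow_le_pow_left₀ (norm_nonneg _) b1 2).trans ((three_sq _ _ _).trans (le_of_eq ?_))
    ring
  refine (Finset.sum_le_sum fun i _ => hpt i).trans ?_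
  rw [Finset.sum_add_distrib, Finset.sum_add_distrib, ← Finset.mul_sum, ← Finset.mul_sum,
    Finset.sum_const, Finset.card_univ, nsmul_eq_mul]
  have h4 := mu'_pa hK y x
  have h5 : K / (9 * mu K y x) ≤ mu K y x ^ 2 / 9 := by
    rw [div_le_div_iff₀ (by positivity) (by norm_num)]
    have h6 : K ≤ mu K y x ^ 3 := by
      rw [m3]
      have := (nh_bd y x).1
      nlinarith
    nlinarith
  have h6 : 3 * (Z * E) ^ 2 * ∑ i, ‖pa (mu' K y x) i‖ ^ 2 ≤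
      Z ^ 2 / 3 * (∑ i, mu K y x * Real.exp (-(mu K y x * ‖x i - ω‖))) ^ 2 := by
    rw [← Finset.mul_sum, ← hE]
    calc 3 * (Z * E) ^ 2 * ∑ i, ‖pa (mu' K y x) i‖ ^ 2 ≤ 3 * (Z * E) ^ 2 * (mu K y x ^ 2 / 9) :=
          mul_le_mul_of_nonneg_left (h4.trans h5) (by positivity)
      _ = _ := by ring
  have h7 : (Fintype.card I : ℝ) * (3 * Z ^ 2 * Λ ^ 2) = 3 * Z ^ 2 * Fintype.card I * Λ ^ 2 := by ring
  rw [h7]
  linarith

theorem wv_close (c : I → ℝ) {Z : ℝ} (hZ : 0 ≤ Z) (hc : ∀ i, |c i| ≤ Z) {a : ℝ} (ha : 0 < a)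
    {u g : E3 → ℝ} {δ : ℝ} (hu : ∀ z, |u z - g z| ≤ δ) {K : ℝ} (hK : 1 ≤ K) (y ω : E3)
    (x : I → E3) : |wv c a u K y ω x -
      ((∑ i, c i * Lk (mu K y x) (x i - ω)) - ∑ i, c i * g (x i))| ≤
      Fintype.card I * (Z * (K * (1 + Fintype.card I) * a)) + Fintype.card I * (Z * δ) := by
  obtain ⟨m1, m3⟩ := mu_facts hK y x
  have hm : 0 < mu K y x := by linarith
  have hmu2 : mu K y x ^ 2 ≤ K * (1 + Fintype.card I) := by
    have h1 : mu K y x ^ 2 ≤ mu K y x ^ 3 := by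
      have := sq_nonneg (mu K y x)
      nlinarith
    rw [m3] at h1
    refine h1.trans ?_
    have := (nh_bd y x).2
    nlinarith
  unfold wv
  have e1 : ((∑ j, c j * GG (mu K y x) (sg a (x j - ω))) - ∑ j, c j * u (x j)) -
      ((∑ i, c i * Lk (mu K y x) (x i - ω)) - ∑ i, c i * g (x i)) =
      (∑ j, c j * (GG (mu K y x) (sg a (x j - ω)) - Lk (mu K y x) (x j - ω))) -
        ∑ j, c j * (u (x j) - g (x j)) := by
    simp only [mul_sub, Finset.sum_sub_distrib]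
    ring
  rw [e1]
  refine (abs_sub _ _).trans (add_le_add ?_ ?_)
  · refine (Finset.abs_sum_le_sum_abs _ _).trans ?_
    have : ∀ j, |c j * (GG (mu K y x) (sg a (x j - ω)) - Lk (mu K y x) (x j - ω))| ≤
        Z * (K * (1 + Fintype.card I) * a) := by
      intro j
      rw [abs_mul]
      refine mul_le_mul (hc j) ((GG_Lk hm.le ha _).trans ?_) (abs_nonneg _) hZ
      exact mul_le_mul_of_nonneg_right hmu2 ha.le
    refine (Finset.sum_le_sum fun j _ => this j).trans (le_of_eq ?_)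
    rw [Finset.sum_const, Finset.card_univ, nsmul_eq_mul]
  · refine (Finset.abs_sum_le_sum_abs _ _).trans ?_
    have : ∀ j, |c j * (u (x j) - g (x j))| ≤ Z * δ := by
      intro j
      rw [abs_mul]
      exact mul_le_mul (hc j) (hu _) (abs_nonneg _) hZ
    refine (Finset.sum_le_sum fun j _ => this j).trans (le_of_eq ?_)
    rw [Finset.sum_const, Finset.card_univ, nsmul_eq_mul]

/-- test function -/
noncomputable def ff (c : I → ℝ) (a : ℝ) (u : E3 → ℝ) (K s : ℝ) (y ω v : E3) (x : I → E3) : ℝ :=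
  √(hs s (wv c a u K y ω x)) * (mu K y x ^ ((3 : ℝ) / 2) * al (mu K y x • v))

theorem ff_smooth (c : I → ℝ) {a : ℝ} (ha : 0 < a) {u : E3 → ℝ} (hu : ContDiff ℝ SM u) {K : ℝ}
    (hK : 1 ≤ K) {s : ℝ} (hs1 : s = 1 ∨ s = -1) (y ω v : E3) :
    ContDiff ℝ SM (ff c a u K s y ω v) := by
  unfold ff
  refine ContDiff.mul ?_ (ContDiff.mul ?_ ?_)
  · exact ((hs_smooth s).comp (wv_smooth c ha hu hK y ω)).sqrt fun x => (hs_facts hs1 _).1.ne'
  · refine ContDiff.rpow_const_of_ne (mu_smooth hK y) fun x => ?_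
    have := (mu_facts hK y x).1
    linarith
  · exact al_smooth.comp ((mu_smooth hK y).smul contDiff_const)

theorem rp_sq {m : ℝ} (hm : 0 < m) : (m ^ ((3 : ℝ) / 2)) ^ 2 = m ^ 3 := by
  rw [← Real.rpow_natCast, ← Real.rpow_mul hm.le, ← Real.rpow_natCast]
  norm_num

theorem ff_gr {C : ℝ} (hC : 0 ≤ C) (hΦ : ∀ (v : E3) (μ : ℝ), 0 < μ →
    ∃ d : ℝ, HasDerivAt (fun μ : ℝ => μ ^ ((3 : ℝ) / 2) * al (μ • v)) d μ ∧
      d ^ 2 ≤ C * μ * (if μ * ‖v‖ ≤ 1 / 2 then 1 else 0))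
    (c : I → ℝ) {a : ℝ} (ha : 0 < a) {u : E3 → ℝ} (hu : ContDiff ℝ SM u)
    {K : ℝ} (hK : 1 ≤ K) {s : ℝ} (hs1 : s = 1 ∨ s = -1) (y ω v : E3) (x : I → E3) :
    gr (ff c a u K s y ω v) x ≤
      (mu K y x ^ 3 * al (mu K y x • v) ^ 2) * ∑ i, ‖pa (wv' c a u K y ω x) i‖ ^ 2 +
      C * K * (1 + 2 * |wv c a u K y ω x|) * (if mu K y x * ‖v‖ ≤ 1 / 2 then 1 else 0) := by
  obtain ⟨m1, m3⟩ := mu_facts hK y x
  have hm : 0 < mu K y x := by linarith
  obtain ⟨dφ, hdφ, hdφ2⟩ := hΦ v (mu K y x) hm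
  obtain ⟨dψ, hdψ, hdψ2⟩ := rhs_deriv hs1 (wv c a u K y ω x)
  obtain ⟨f1, f2, f3⟩ := hs_facts hs1 (wv c a u K y ω x)
  set P : ℝ := mu K y x ^ ((3 : ℝ) / 2) * al (mu K y x • v) with hP
  have hP2 : P ^ 2 = mu K y x ^ 3 * al (mu K y x • v) ^ 2 := by
    rw [hP, mul_pow, rp_sq hm]
  set A : ℝ := √(hs s (wv c a u K y ω x)) with hA
  have hA2 : A ^ 2 = hs s (wv c a u K y ω x) := Real.sq_sqrt f1.le
  have h1 : HasFDerivAt (fun x : I → E3 => √(hs s (wv c a u K y ω x)))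
      (dψ • wv' c a u K y ω x) x := hdψ.comp_hasFDerivAt x (wv_deriv c ha hu hK y ω x)
  have h2 : HasFDerivAt (fun x : I → E3 => mu K y x ^ ((3 : ℝ) / 2) * al (mu K y x • v))
      (dφ • mu' K y x) x := hdφ.comp_hasFDerivAt x (mu_deriv hK y x)
  have h3 : HasFDerivAt (ff c a u K s y ω v)
      (A • (dφ • mu' K y x) + P • (dψ • wv' c a u K y ω x)) x := h1.mul h2
  refine (gr_le h3).trans ?_
  have hpt : ∀ i, ‖pa (A • (dφ • mu' K y x) + P • (dψ • wv' c a u K y ω x)) i‖ ^ 2 ≤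
      2 * (A ^ 2 * dφ ^ 2) * ‖pa (mu' K y x) i‖ ^ 2 + P ^ 2 * ‖pa (wv' c a u K y ω x) i‖ ^ 2 := by
    intro i
    rw [pa_add, pa_smul, pa_smul, pa_smul, pa_smul]
    have b1 : ‖A • (dφ • pa (mu' K y x) i) + P • (dψ • pa (wv' c a u K y ω x) i)‖ ≤
        |A| * |dφ| * ‖pa (mu' K y x) i‖ + |P| * |dψ| * ‖pa (wv' c a u K y ω x) i‖ := by
      refine (norm_add_le _ _).trans (le_of_eq ?_)
      rw [norm_smul, norm_smul, norm_smul, norm_smul, Real.norm_eq_abs, Real.norm_eq_abs,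
        Real.norm_eq_abs, Real.norm_eq_abs]
      ring
    refine (pow_le_pow_left₀ (norm_nonneg _) b1 2).trans ?_
    have b2 : ∀ p q : ℝ, (p + q) ^ 2 ≤ 2 * p ^ 2 + 2 * q ^ 2 := fun p q => by
      nlinarith [sq_nonneg (p - q)]
    refine (b2 _ _).trans ?_
    have b3 : 2 * (|A| * |dφ| * ‖pa (mu' K y x) i‖) ^ 2 =
        2 * (A ^ 2 * dφ ^ 2) * ‖pa (mu' K y x) i‖ ^ 2 := by
      rw [mul_pow, mul_pow, sq_abs, sq_abs]
      ring
    have b4 : 2 * (|P| * |dψ| * ‖pa (wv' c a u K y ω x) i‖) ^ 2 =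
        2 * dψ ^ 2 * (P ^ 2 * ‖pa (wv' c a u K y ω x) i‖ ^ 2) := by
      rw [mul_pow, mul_pow, sq_abs, sq_abs]
      ring
    rw [b3, b4]
    have b5 : 2 * dψ ^ 2 * (P ^ 2 * ‖pa (wv' c a u K y ω x) i‖ ^ 2) ≤
        1 * (P ^ 2 * ‖pa (wv' c a u K y ω x) i‖ ^ 2) :=
      mul_le_mul_of_nonneg_right (by linarith) (by positivity)
    linarith
  refine (Finset.sum_le_sum fun i _ => hpt i).trans ?_
  rw [Finset.sum_add_distrib, ← Finset.mul_sum, ← Finset.mul_sum, hP2, hA2, add_comm]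
  refine add_le_add le_rfl ?_
  set ind : ℝ := (if mu K y x * ‖v‖ ≤ 1 / 2 then 1 else 0) with hind
  have hind0 : 0 ≤ ind := by
    rw [hind]
    split_ifs <;> norm_num
  have h4 := mu'_pa hK y x
  have h5 : 0 ≤ ∑ i, ‖pa (mu' K y x) i‖ ^ 2 := Finset.sum_nonneg fun i _ => sq_nonneg _
  have h6 : hs s (wv c a u K y ω x) * dφ ^ 2 ≤ (1 + 2 * |wv c a u K y ω x|) * (C * mu K y x * ind) :=
    mul_le_mul f2 hdφ2 (sq_nonneg _) (by positivity)
  calc 2 * (hs s (wv c a u K y ω x) * dφ ^ 2) * ∑ i, ‖pa (mu' K y x) i‖ ^ 2 ≤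
      2 * ((1 + 2 * |wv c a u K y ω x|) * (C * mu K y x * ind)) * (K / (9 * mu K y x)) := by
        refine mul_le_mul (by linarith) h4 h5 (by positivity)
    _ = 2 / 9 * (C * K * (1 + 2 * |wv c a u K y ω x|) * ind) := by
        field_simp
    _ ≤ 1 * (C * K * (1 + 2 * |wv c a u K y ω x|) * ind) :=
        mul_le_mul_of_nonneg_right (by norm_num) (by positivity)
    _ = _ := one_mul _

end wv



section fin

variable {I : Type} [Fintype I] [DecidableEq I]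

theorem nh_perm (σ : Equiv.Perm I) (y : E3) (x : I → E3) : nh y (fun k => x (σ k)) = nh y x := by
  unfold nh
  exact Equiv.sum_comp σ (fun j => Real.exp (1 - √(1 + ‖x j - y‖ ^ 2)))

theorem mu_perm (σ : Equiv.Perm I) (K : ℝ) (y : E3) (x : I → E3) :
    mu K y (fun k => x (σ k)) = mu K y x := by
  unfold mu
  rw [nh_perm]

theorem wv_perm (σ : Equiv.Perm I) (c : I → ℝ) (hc : ∀ k, c (σ k) = c k) (a : ℝ) (u : E3 → ℝ)
    (K : ℝ) (y ω : E3) (x : I → E3) :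
    wv c a u K y ω (fun k => x (σ k)) = wv c a u K y ω x := by
  unfold wv
  rw [mu_perm]
  have h1 := Equiv.sum_comp σ (fun j => c j * GG (mu K y x) (sg a (x j - ω)))
  have h2 := Equiv.sum_comp σ (fun j => c j * u (x j))
  simp only [hc] at h1 h2
  rw [h1, h2]

theorem sp_swap {S : Type} (sp : I → S) {i j : I} (h : sp i = sp j) (k : I) :
    sp (Equiv.swap i j k) = sp k := by
  rw [Equiv.swap_apply_def]
  split_ifs with h1 h2
  · rw [h1, h]
  · rw [h2, h]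
  · rfl

theorem vv_bd {S : Type} (D : Species S) {Z : ℝ} (hZ : 0 ≤ Z) (hz : ∀ s, |D.charge s| ≤ Z)
    {Cb : ℝ} (hCb : ∀ ℓ z, 0 < ℓ → 0 ≤ vb ℓ z ∧ vb ℓ z ≤ Cb / ℓ) (hCb0 : 0 < Cb) (sp : I → S)
    {ℓ : ℝ} (hℓ : 1 ≤ ℓ) {K : ℝ} (hK : 1 ≤ K) (y ω : E3) (x : I → E3) :
    |vv D sp ℓ K y x ω| ≤ Z * Fintype.card I * mu K y x + Z * Fintype.card I * Cb := by
  obtain ⟨m1, m3⟩ := mu_facts hK y x
  have hm : 0 ≤ mu K y x := by linarith
  unfold vv vp phb
  refine (abs_sub _ _).trans (add_le_add ?_ ?_)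
  · refine (Finset.abs_sum_le_sum_abs _ _).trans ?_
    have : ∀ j, |D.charge (sp j) * Lk (mu K y x) (x j - ω)| ≤ Z * mu K y x := by
      intro j
      obtain ⟨l1, l2⟩ := Lk_bd hm (x j - ω)
      rw [abs_mul, abs_of_nonneg l1]
      exact mul_le_mul (hz _) l2 l1 hZ
    refine (Finset.sum_le_sum fun j _ => this j).trans (le_of_eq ?_)
    rw [Finset.sum_const, Finset.card_univ, nsmul_eq_mul]
    ring
  · refine (Finset.abs_sum_le_sum_abs _ _).trans ?_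
    have : ∀ j, |D.charge (sp j) * vb ℓ (x j)| ≤ Z * Cb := by
      intro j
      obtain ⟨l1, l2⟩ := hCb ℓ (x j) (by linarith)
      rw [abs_mul, abs_of_nonneg l1]
      refine mul_le_mul (hz _) (l2.trans ?_) l1 hZ
      exact div_le_self hCb0.le hℓ
    refine (Finset.sum_le_sum fun j _ => this j).trans (le_of_eq ?_)
    rw [Finset.sum_const, Finset.card_univ, nsmul_eq_mul]
    ring

theorem ff_bd {V : ℝ} (c : I → ℝ) {a : ℝ} {u : E3 → ℝ} {K : ℝ} (hK : 1 ≤ K) {s : ℝ}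
    (hs1 : s = 1 ∨ s = -1) (y ω v : E3) {Ka : ℝ} (hal : ∀ w, |al w| ≤ Ka)
    (x : I → E3) {Z Cb : ℝ} (hZ : 0 ≤ Z) (hCb : 0 ≤ Cb)
    (hw : 1 + 2 * |wv c a u K y ω x| ≤ 3 * (1 + V))
    (hV : V ≤ Z * Fintype.card I * mu K y x + Z * Fintype.card I * Cb) :
    ff c a u K s y ω v x ^ 2 ≤
      3 * Ka ^ 2 * (1 + Z + Z * Cb) * K ^ 2 * (1 + (Fintype.card I : ℝ)) ^ 3 := by
  obtain ⟨m1, m3⟩ := mu_facts hK y x
  have hm : 0 < mu K y x := by linarith
  obtain ⟨f1, f2, f3⟩ := hs_facts hs1 (wv c a u K y ω x)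
  set N : ℝ := (Fintype.card I : ℝ) with hN
  have hN0 : 0 ≤ N := Nat.cast_nonneg _
  set m := mu K y x with hmm
  have hm3 : m ^ 3 ≤ K * (1 + N) := by
    rw [m3]
    have := (nh_bd y x).2
    nlinarith
  have hm1 : m ≤ K * (1 + N) := by
    refine le_trans ?_ hm3
    have h1 : 1 ≤ m ^ 2 := by nlinarith
    nlinarith
  have hKN : 1 ≤ K * (1 + N) := by nlinarith
  have e1 : ff c a u K s y ω v x ^ 2 = hs s (wv c a u K y ω x) * (m ^ 3 * al (m • v) ^ 2) := by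
    unfold ff
    rw [mul_pow, mul_pow, rp_sq hm, Real.sq_sqrt f1.le]
  have e2 : al (m • v) ^ 2 ≤ Ka ^ 2 := by
    rw [← sq_abs]
    exact pow_le_pow_left₀ (abs_nonneg _) (hal _) 2
  have e3 : 1 + V ≤ (1 + Z + Z * Cb) * (K * (1 + N) ^ 2) := by
    have a1 : Z * N * m ≤ Z * (K * (1 + N) ^ 2) := by
      have : N * m ≤ (1 + N) * (K * (1 + N)) := mul_le_mul (by linarith) hm1 hm.le (by linarith)
      nlinarith
    have a2 : Z * N * Cb ≤ Z * Cb * (K * (1 + N) ^ 2) := by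
      have h1 : N ≤ K * (1 + N) ^ 2 := by nlinarith
      have h2 : 0 ≤ Z * Cb := mul_nonneg hZ hCb
      nlinarith
    have a3 : 1 ≤ K * (1 + N) ^ 2 := by nlinarith
    nlinarith
  rw [e1]
  have h0 : 0 ≤ m ^ 3 * al (m • v) ^ 2 := by positivity
  calc hs s (wv c a u K y ω x) * (m ^ 3 * al (m • v) ^ 2) ≤
      (3 * ((1 + Z + Z * Cb) * (K * (1 + N) ^ 2))) * ((K * (1 + N)) * Ka ^ 2) := by
        refine mul_le_mul ?_ (mul_le_mul hm3 e2 (sq_nonneg _) (by positivity)) h0 (by positivity)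
        linarith
    _ = _ := by ring

end fin

theorem alg0 {N Cv ℓ C0 : ℝ} (hℓ : 1 ≤ ℓ) (hC0 : 0 ≤ C0) (hN : N ≤ C0 * ℓ ^ 3) :
    N * (Cv / ℓ ^ 2) ^ 2 ≤ C0 * Cv ^ 2 := by
  have hℓ0 : 0 < ℓ := by linarith
  have e1 : N * (Cv / ℓ ^ 2) ^ 2 ≤ (C0 * ℓ ^ 3) * (Cv / ℓ ^ 2) ^ 2 :=
    mul_le_mul_of_nonneg_right hN (sq_nonneg _)
  have e2 : (C0 * ℓ ^ 3) * (Cv / ℓ ^ 2) ^ 2 = C0 * Cv ^ 2 / ℓ := by field_simp
  have e3 : C0 * Cv ^ 2 / ℓ ≤ C0 * Cv ^ 2 := div_le_self (by positivity) hℓ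
  linarith

theorem alg1 {Z T Cf CB M E : ℝ} (hT : 0 ≤ T) (hf : 0 ≤ Cf) (hB : 0 ≤ CB) (hM : 0 ≤ M)
    (hE : 0 ≤ E) : Z ^ 2 / 3 * E + 48 * Z ^ 2 * M + T ≤
      (Z ^ 2 / 3 + 48 * Z ^ 2 + T + 3 * Cf + CB + 1) * (1 + M + E) := by
  have q1 : 0 ≤ Z ^ 2 := sq_nonneg _
  have q2 : 0 ≤ Z ^ 2 * M := mul_nonneg q1 hM
  have q3 : 0 ≤ Z ^ 2 * E := mul_nonneg q1 hE
  have q4 : 0 ≤ T * M := mul_nonneg hT hM
  have q5 : 0 ≤ T * E := mul_nonneg hT hE
  have q6 : 0 ≤ Cf * (1 + M + E) := by positivity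
  have q7 : 0 ≤ CB * (1 + M + E) := by positivity
  nlinarith

theorem alg3 {Z T Cf CB M E P ind SS K W V g T' : ℝ} (hf : 0 ≤ Cf) (hB : 0 ≤ CB) (hT : 0 ≤ T)
    (hM : 0 ≤ M) (hE : 0 ≤ E) (hP : 0 ≤ P) (hi : 0 ≤ ind) (hK : 0 ≤ K)
    (h1 : g ≤ P * SS + Cf * K * W * ind) (h2 : SS ≤ Z ^ 2 / 3 * E + 48 * Z ^ 2 * M + T')
    (h3 : T' ≤ T) (hW : W ≤ 3 * (1 + V)) (hV : 0 ≤ V) :
    g ≤ (Z ^ 2 / 3 + 48 * Z ^ 2 + T + 3 * Cf + CB + 1) * (1 + M + E) * P +
      (Z ^ 2 / 3 + 48 * Z ^ 2 + T + 3 * Cf + CB + 1) * K * (1 + V) * ind := by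
  have e1 : SS ≤ (Z ^ 2 / 3 + 48 * Z ^ 2 + T + 3 * Cf + CB + 1) * (1 + M + E) :=
    (h2.trans (by linarith)).trans (alg1 (Z := Z) hT hf hB hM hE)
  have e2 := mul_le_mul_of_nonneg_left e1 hP
  have e3 : Cf * K * W * ind ≤ (Z ^ 2 / 3 + 48 * Z ^ 2 + T + 3 * Cf + CB + 1) * K * (1 + V) * ind := by
    refine mul_le_mul_of_nonneg_right ?_ hi
    have e4 : Cf * K * W ≤ Cf * K * (3 * (1 + V)) := mul_le_mul_of_nonneg_left hW (by positivity)
    have e5 : Cf * K * (3 * (1 + V)) = 3 * Cf * (K * (1 + V)) := by ring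
    rw [e5] at e4
    refine e4.trans ?_
    rw [mul_assoc _ K]
    refine mul_le_mul_of_nonneg_right ?_ (by positivity)
    have : 0 ≤ Z ^ 2 / 3 + 48 * Z ^ 2 + T + CB + 1 := by positivity
    linarith
  linarith [mul_comm P ((Z ^ 2 / 3 + 48 * Z ^ 2 + T + 3 * Cf + CB + 1) * (1 + M + E))]

/-- TARGET -/
theorem fz_approx {S : Type} [Fintype S] (D : Species S) (z C0 : ℝ) (hz : ∀ s, |D.charge s| ≤ z)
    (hC0 : 0 ≤ C0) : ∃ C : ℝ, 0 < C ∧
    ∀ {I : Type} [Fintype I] [DecidableEq I] (sp : I → S) (ℓ : ℝ), 1 ≤ ℓ →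
      (Fintype.card I : ℝ) ≤ C0 * ℓ ^ 3 → ∀ (K s : ℝ) (y ω v : E3), 1 ≤ K → (s = 1 ∨ s = -1) →
      ∃ (fn : ℕ → (I → E3) → ℝ) (B : ℝ), B ^ 2 ≤ C * K ^ 2 * (1 + (Fintype.card I : ℝ)) ^ 3 ∧
        (∀ n, ContDiff ℝ SM (fn n)) ∧ (∀ n, Sy sp (fn n)) ∧ (∀ n x, |fn n x| ≤ B) ∧
        (∀ x, Filter.Tendsto (fun n => fn n x) Filter.atTop (𝓝 (fz D sp ℓ K s y ω v x))) ∧
        ∀ n x, gr (fn n) x ≤
          C * (1 + ∑ i, Mk (mu K y x) (x i - ω) ^ 4 +
              (∑ i, mu K y x * Real.exp (-(mu K y x * ‖x i - ω‖))) ^ 2) *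
            (mu K y x ^ 3 * al (mu K y x • v) ^ 2) +
          C * K * (1 + |vv D sp ℓ K y x ω|) * (if mu K y x * ‖v‖ ≤ 1 / 2 then 1 else 0) := by
  obtain ⟨Ka, hKa, hal, -⟩ := al_bd
  obtain ⟨Cb, hCb0, hCb⟩ := RVB.vb_bound
  obtain ⟨Cv, hCv0, hCv⟩ := vb_lip
  obtain ⟨Cφ, hCφ0, hΦ⟩ := Phi_deriv
  set Z : ℝ := max z 0 with hZd
  have hZ : 0 ≤ Z := le_max_right _ _
  have hzZ : ∀ s, |D.charge s| ≤ Z := fun s => (hz s).trans (le_max_left _ _)
  set CB : ℝ := 3 * Ka ^ 2 * (1 + Z + Z * Cb) with hCB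
  have hCB0 : 0 ≤ CB := by positivity
  refine ⟨Z ^ 2 / 3 + 48 * Z ^ 2 + 3 * Z ^ 2 * (C0 * Cv ^ 2) + 3 * Cφ + CB + 1, by positivity, ?_⟩
  intro I _ _ sp ℓ hℓ hN K s y ω v hK hs1
  have hℓ0 : 0 < ℓ := by linarith
  set N : ℝ := (Fintype.card I : ℝ) with hNd
  have hN0 : 0 ≤ N := Nat.cast_nonneg _
  set c : I → ℝ := fun i => D.charge (sp i) with hcd
  have hc : ∀ i, |c i| ≤ Z := fun i => hzZ _
  have hδ : ∀ n : ℕ, 0 < 1 / ((n : ℝ) + 1) ∧ 1 / ((n : ℝ) + 1) ≤ 1 := by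
    intro n
    have : 0 ≤ (n : ℝ) := Nat.cast_nonneg n
    refine ⟨by positivity, ?_⟩
    rw [div_le_one (by positivity)]
    linarith
  have hmol : ∀ n : ℕ, ∃ u : E3 → ℝ, ContDiff ℝ SM u ∧
      (∀ w, |u w - vb ℓ w| ≤ 1 / ((n : ℝ) + 1) / (2 * (Z + 1) * (N + 1))) ∧
      ∀ w, ‖fderiv ℝ u w‖ ≤ Cv / ℓ ^ 2 := by
    intro n
    have h1 := (hδ n).1
    exact mollify (vb ℓ) (Cv / ℓ ^ 2) (by positivity) (hCv ℓ hℓ0) (by positivity)
  choose u hu1 hu2 hu3 using hmol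
  set a : ℕ → ℝ := fun n => 1 / ((n : ℝ) + 1) / (2 * (Z + 1) * (N + 1)) / (K * (1 + N)) with had
  have ha : ∀ n, 0 < a n := by
    intro n
    have h1 := (hδ n).1
    rw [had]
    positivity
  have hclose : ∀ n x, |wv c (a n) (u n) K y ω x - vv D sp ℓ K y x ω| ≤ 1 / ((n : ℝ) + 1) := by
    intro n x
    have h1 := wv_close c hZ hc (ha n) (hu2 n) hK y ω x
    have h2 : vv D sp ℓ K y x ω = (∑ i, c i * Lk (mu K y x) (x i - ω)) - ∑ i, c i * vb ℓ (x i) := rfl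
    rw [h2]
    refine h1.trans ?_
    have h3 := (hδ n).1
    have h4 : K * (1 + N) * a n = 1 / ((n : ℝ) + 1) / (2 * (Z + 1) * (N + 1)) := by
      rw [had]
      field_simp
    rw [← hNd, h4]
    set δ := 1 / ((n : ℝ) + 1) with hδd
    have h5 : N * (Z * (δ / (2 * (Z + 1) * (N + 1)))) + N * (Z * (δ / (2 * (Z + 1) * (N + 1)))) =
        (N * Z) / ((Z + 1) * (N + 1)) * δ := by
      field_simp
      ring
    rw [h5]
    have h6 : (N * Z) / ((Z + 1) * (N + 1)) ≤ 1 := by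
      rw [div_le_one (by positivity)]
      nlinarith
    calc (N * Z) / ((Z + 1) * (N + 1)) * δ ≤ 1 * δ := mul_le_mul_of_nonneg_right h6 h3.le
      _ = δ := one_mul _
  have hw : ∀ n x, 1 + 2 * |wv c (a n) (u n) K y ω x| ≤ 3 * (1 + |vv D sp ℓ K y x ω|) := by
    intro n x
    have h1 := hclose n x
    have h2 := (hδ n).2
    have h3 : |wv c (a n) (u n) K y ω x| ≤ |vv D sp ℓ K y x ω| + 1 := by
      have h4 := abs_sub_abs_le_abs_sub (wv c (a n) (u n) K y ω x) (vv D sp ℓ K y x ω)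
      linarith
    have := abs_nonneg (vv D sp ℓ K y x ω)
    linarith
  refine ⟨fun n => ff c (a n) (u n) K s y ω v, √(CB * K ^ 2 * (1 + N) ^ 3), ?_, ?_, ?_, ?_, ?_, ?_⟩
  · rw [Real.sq_sqrt (by positivity)]
    have h1 : CB ≤ Z ^ 2 / 3 + 48 * Z ^ 2 + 3 * Z ^ 2 * (C0 * Cv ^ 2) + 3 * Cφ + CB + 1 := by
      have : 0 ≤ Z ^ 2 / 3 + 48 * Z ^ 2 + 3 * Z ^ 2 * (C0 * Cv ^ 2) + 3 * Cφ := by positivity
      linarith
    exact mul_le_mul_of_nonneg_right (mul_le_mul_of_nonneg_right h1 (sq_nonneg _)) (by positivity)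
  · exact fun n => ff_smooth c (ha n) (hu1 n) hK hs1 y ω v
  · intro n i j x hij
    have hcs : ∀ k, c (Equiv.swap i j k) = c k := fun k => by
      change D.charge (sp (Equiv.swap i j k)) = D.charge (sp k)
      rw [sp_swap sp hij]
    change ff c (a n) (u n) K s y ω v (fun k => x (Equiv.swap i j k)) = ff c (a n) (u n) K s y ω v x
    unfold ff
    rw [wv_perm (Equiv.swap i j) c hcs, mu_perm]
  · intro n x
    refine Real.abs_le_sqrt ?_
    exact ff_bd (V := |vv D sp ℓ K y x ω|) c hK hs1 y ω v hal x hZ hCb0.le (hw n x)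
      (vv_bd D hZ hzZ hCb hCb0 sp hℓ hK y ω x)
  · intro x
    have h1 : Filter.Tendsto (fun n => wv c (a n) (u n) K y ω x) Filter.atTop
        (𝓝 (vv D sp ℓ K y x ω)) := by
      rw [tendsto_iff_dist_tendsto_zero]
      refine squeeze_zero (fun n => dist_nonneg) (fun n => ?_) tendsto_one_div_add_atTop_nhds_zero_nat
      rw [Real.dist_eq]
      exact hclose n x
    have h2 : Continuous (fun t => √(hs s t)) := (hs_smooth s).continuous.sqrt
    have h3 := ((h2.tendsto _).comp h1).mul_const (mu K y x ^ ((3 : ℝ) / 2) * al (mu K y x • v))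
    exact h3
  · intro n x
    have h1 := ff_gr hCφ0 hΦ c (ha n) (hu1 n) hK hs1 y ω v x
    have h2 := wv'_grad c hZ hc (ha n) (hu3 n) hK y ω x
    obtain ⟨m1, m3⟩ := mu_facts hK y x
    have h3 : N * (Cv / ℓ ^ 2) ^ 2 ≤ C0 * Cv ^ 2 := alg0 hℓ hC0 hN
    have h4 : 3 * Z ^ 2 * (Fintype.card I : ℝ) * (Cv / ℓ ^ 2) ^ 2 ≤ 3 * Z ^ 2 * (C0 * Cv ^ 2) := by
      rw [← hNd, mul_assoc]
      exact mul_le_mul_of_nonneg_left h3 (by positivity)
    refine alg3 hCφ0 hCB0 (by positivity) ?_ (sq_nonneg _) ?_ ?_ (by linarith) h1 h2 h4 (hw n x)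
      (abs_nonneg _)
    · exact Finset.sum_nonneg fun i _ => by positivity
    · have : 0 ≤ mu K y x := by linarith
      positivity
    · split_ifs <;> norm_num

end Pool.Agent.Helper780_CP.RB17
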