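import Pool.Agent.Helper780_CP.LLDefs2
import Pool.Agent.Helper780_CP.BnDefs
import Pool.Agent.Helper780_CP.Newt
import Pool.Agent.Helper780_CP.Integ

set_option autoImplicit false

open MeasureTheory
open scoped Topology

namespace Pool.Agent.Helper780_CP.RB18

open Pool.Agent.Helper780_CP
open Pool.Agent.Helper985.CP

open Pool.Agent.Helper780_CP Pool.Agent.Helper985.CP

theorem b18_inv1 : LocallyIntegrable (fun w : E3 => ‖w‖⁻¹) volume := by
  have h1 : LocallyIntegrable (fun w : E3 => (1 : ℝ) + ‖w‖⁻¹ ^ 2) volume :=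
    (locallyIntegrable_const (1 : ℝ)).add locInt_inv2
  refine h1.mono ?_ (Filter.Eventually.of_forall fun w => ?_)
  · exact (measurable_norm.inv).aestronglyMeasurable
  · have h2 : (0 : ℝ) ≤ ‖w‖⁻¹ := by positivity
    rw [Real.norm_of_nonneg h2, Real.norm_of_nonneg (by positivity)]
    nlinarith [sq_nonneg (‖w‖⁻¹ - 1)]

theorem b18_ct_cont : Continuous ct := by
  unfold ct
  exact Real.smoothTransition.continuous.comp (by fun_prop)

theorem b18_ct_one (w : E3) (hw : ‖w‖ ≤ 1) : ct w = 1 := by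
  refine Real.smoothTransition.one_of_one_le ?_
  have := norm_nonneg w
  nlinarith

theorem b18_ct_zero (w : E3) (hw : 2 ≤ ‖w‖) : ct w = 0 := by
  refine Real.smoothTransition.zero_of_nonpos ?_
  have := norm_nonneg w
  nlinarith

theorem b18_al_zero (w : E3) (hw : 1 / 2 ≤ ‖w‖) : al w = 0 := by
  unfold al
  rw [b18_ct_zero, zero_div]
  rw [norm_smul]
  norm_num
  linarith

theorem b18_al_cont : Continuous al := by
  unfold al
  exact (b18_ct_cont.comp (by fun_prop)).div_const _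

theorem b18_cs {f : E3 → ℝ} {r : ℝ} (h : ∀ w, r ≤ ‖w‖ → f w = 0) : HasCompactSupport f := by
  apply HasCompactSupport.intro (isCompact_closedBall (0 : E3) r)
  intro w hw
  rw [Metric.mem_closedBall, dist_zero_right, not_le] at hw
  exact h w hw.le

theorem b18_N : 0 < ∫ u : E3, ct ((4 : ℝ) • u) ^ 2 := by
  have hc : Continuous (fun u : E3 => ct ((4 : ℝ) • u) ^ 2) :=
    (b18_ct_cont.comp (by fun_prop)).pow 2
  apply hc.integral_pos_of_hasCompactSupport_nonneg_nonzero (x := 0)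
  · apply b18_cs (r := 1 / 2)
    intro w hw
    rw [b18_ct_zero, zero_pow two_ne_zero]
    rw [norm_smul]
    norm_num
    linarith
  · intro u
    positivity
  · rw [b18_ct_one]
    · norm_num
    · simp

theorem b18_al_sq : ∫ u : E3, al u ^ 2 = 1 := by
  have h := b18_N
  have h1 : ∀ u : E3, al u ^ 2 = ct ((4 : ℝ) • u) ^ 2 / (∫ u : E3, ct ((4 : ℝ) • u) ^ 2) := by
    intro u
    unfold al
    rw [div_pow, Real.sq_sqrt h.le]
  simp only [h1]
  rw [integral_div]
  exact div_self h.ne'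

theorem b18_al_rad : ∃ h : ℝ → ℝ, Measurable h ∧ (∀ w : E3, al w ^ 2 = h ‖w‖) ∧
    ∀ t, 1 / 2 ≤ t → h t = 0 := by
  refine ⟨fun t => (Real.smoothTransition ((4 - (4 * t) ^ 2) / 3) /
    √(∫ u : E3, ct ((4 : ℝ) • u) ^ 2)) ^ 2, ?_, ?_, ?_⟩
  · apply Continuous.measurable
    apply Continuous.pow
    apply Continuous.div_const
    exact Real.smoothTransition.continuous.comp (by fun_prop)
  · intro w
    unfold al ct
    simp only [norm_smul]
    norm_num
  · intro t ht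
    have : Real.smoothTransition ((4 - (4 * t) ^ 2) / 3) = 0 := by
      apply Real.smoothTransition.zero_of_nonpos
      nlinarith
    simp only [this]
    norm_num

theorem b18_int (g : E3 → ℝ) (hg : Continuous g) (r : ℝ) (h : ∀ w, r ≤ ‖w‖ → g w = 0) (w : E3) :
    Integrable (fun v : E3 => g v * (1 / ‖w - v‖)) := by
  have h1 : Integrable (fun v : E3 => g (w - v) * ‖v‖⁻¹) := by
    have h2 := b18_inv1.integrable_smul_left_of_hasCompactSupport (f := fun v : E3 => ‖v‖⁻¹)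
      (g := fun v : E3 => g (w - v)) (hg.comp (by fun_prop)) ?_
    · simpa using h2
    · apply b18_cs (r := r + ‖w‖)
      intro v hv
      apply h
      have := norm_sub_norm_le v w
      rw [norm_sub_rev] at this
      linarith
  have h3 := h1.comp_sub_left w
  simpa using h3

theorem b18_scale (μ : ℝ) (hμ : 0 < μ) (f : E3 → ℝ) :
    ∫ v : E3, μ ^ 3 * f (μ • v) = ∫ v : E3, f v := by
  rw [integral_const_mul, Measure.integral_comp_smul]
  have hfr : Module.finrank ℝ E3 = 3 := by simp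
  rw [hfr, abs_of_pos (by positivity), smul_eq_mul]
  field_simp

theorem b18_S (μ : ℝ) (hμ : 0 < μ) (w : E3) :
    ∫ v : E3, μ ^ 3 * al (μ • v) ^ 2 * (1 / ‖w - v‖) =
      μ * ∫ u : E3, al u ^ 2 * (1 / ‖μ • w - u‖) := by
  rw [← b18_scale μ hμ (fun u => al u ^ 2 * (1 / ‖μ • w - u‖)), ← integral_const_mul]
  apply integral_congr_ae
  refine Filter.Eventually.of_forall fun v => ?_
  simp only
  rw [← smul_sub, norm_smul, Real.norm_of_nonneg hμ.le]
  field_simp

theorem b18_al2 : Continuous (fun u : E3 => al u ^ 2) := b18_al_cont.pow 2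

theorem b18_bd : ∃ C : ℝ, 0 ≤ C ∧ ∀ w : E3, ‖w‖ ≤ 1 / 2 →
    0 ≤ ∫ u : E3, al u ^ 2 * (1 / ‖w - u‖) ∧ ∫ u : E3, al u ^ 2 * (1 / ‖w - u‖) ≤ C := by
  have hcs : HasCompactSupport (fun u => al u ^ 2) :=
    b18_cs (r := 1 / 2) fun w hw => by rw [b18_al_zero w hw, zero_pow two_ne_zero]
  obtain ⟨M, hM⟩ := b18_al2.bounded_above_of_compact_support hcs
  have hM0 : 0 ≤ M := le_trans (norm_nonneg _) (hM 0)
  have hG : Integrable (fun u : E3 => (Metric.closedBall (0 : E3) 1).indicator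
      (fun v : E3 => M * ‖v‖⁻¹) u) := by
    rw [integrable_indicator_iff Metric.isClosed_closedBall.measurableSet]
    exact (b18_inv1.integrableOn_isCompact (isCompact_closedBall _ _)).const_mul M
  refine ⟨∫ u : E3, (Metric.closedBall (0 : E3) 1).indicator (fun v : E3 => M * ‖v‖⁻¹) u,
    integral_nonneg fun u => Set.indicator_nonneg (fun v _ => by positivity) u, ?_⟩
  intro w hw
  refine ⟨integral_nonneg fun u => by positivity, ?_⟩
  rw [← integral_sub_left_eq_self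
    (fun u : E3 => (Metric.closedBall (0 : E3) 1).indicator (fun v : E3 => M * ‖v‖⁻¹) u)
    volume w]
  apply integral_mono
  · exact b18_int _ b18_al2 (1 / 2)
      (fun w hw => by rw [b18_al_zero w hw, zero_pow two_ne_zero]) w
  · exact hG.comp_sub_left w
  · intro u
    simp only
    rcases le_or_gt (1 / 2) ‖u‖ with h | h
    · rw [b18_al_zero u h, zero_pow two_ne_zero, zero_mul]
      exact Set.indicator_nonneg (fun v _ => by positivity) _
    · rw [Set.indicator_of_mem]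
      · rw [one_div]
        apply mul_le_mul_of_nonneg_right _ (by positivity)
        have := hM u
        rwa [Real.norm_of_nonneg (by positivity)] at this
      · rw [Metric.mem_closedBall, dist_zero_right]
        have := norm_sub_le w u
        linarith

theorem b18_out (w : E3) (hw : 1 / 2 ≤ ‖w‖) :
    ∫ u : E3, al u ^ 2 * (1 / ‖w - u‖) = 1 / ‖w‖ := by
  obtain ⟨h, hm, hh, h0⟩ := b18_al_rad
  have h1 : ∫ w : E3, h ‖w‖ = 1 := by
    rw [← b18_al_sq]
    exact integral_congr_ae (Filter.Eventually.of_forall fun z => (hh z).symm)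
  rw [← newton_out h hm (1 / 2) (by norm_num) h0 h1 w hw]
  refine integral_congr_ae (Filter.Eventually.of_forall fun z => ?_)
  simp only
  rw [hh, mul_one_div]

theorem b18_ker : ∃ C : ℝ, 0 < C ∧ ∀ (μ : ℝ), 0 < μ → ∀ w : E3,
    |(∫ v : E3, μ ^ 3 * al (μ • v) ^ 2 * (1 / ‖w - v‖)) - Lk μ w| ≤
      C * (μ * Real.exp (-(μ * ‖w‖))) := by
  obtain ⟨C, hC, hb⟩ := b18_bd
  refine ⟨2 + (C + 1) * Real.exp (1 / 2), by positivity, ?_⟩
  intro μ hμ w
  rw [b18_S μ hμ w]
  have hn : ‖μ • w‖ = μ * ‖w‖ := by rw [norm_smul, Real.norm_of_nonneg hμ.le]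
  have he := Real.exp_pos (-(μ * ‖w‖))
  rcases le_or_gt (1 / 2) (μ * ‖w‖) with h | h
  · have hw0 : 0 < ‖w‖ := by
      by_contra hcon
      have : ‖w‖ = 0 := le_antisymm (not_lt.1 hcon) (norm_nonneg _)
      rw [this] at h
      norm_num at h
    have hw1 : w ≠ 0 := norm_pos_iff.1 hw0
    rw [b18_out _ (by rw [hn]; exact h), hn]
    unfold Lk
    rw [if_neg hw1]
    have e1 : μ * (1 / (μ * ‖w‖)) - (1 - Real.exp (-(μ * ‖w‖))) / ‖w‖ =
        Real.exp (-(μ * ‖w‖)) / ‖w‖ := by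
      field_simp
      ring
    rw [e1, abs_of_nonneg (by positivity), div_le_iff₀ hw0]
    have h2 : Real.exp (-(μ * ‖w‖)) * 1 ≤ Real.exp (-(μ * ‖w‖)) * (2 * (μ * ‖w‖)) :=
      mul_le_mul_of_nonneg_left (by linarith) he.le
    have h3 : 0 ≤ (C + 1) * Real.exp (1 / 2) * (μ * Real.exp (-(μ * ‖w‖))) * ‖w‖ := by positivity
    nlinarith
  · obtain ⟨h1, h2⟩ := hb (μ • w) (by rw [hn]; exact h.le)
    have hL : 0 ≤ Lk μ w ∧ Lk μ w ≤ μ := by
      unfold Lk
      split_ifs with h0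
      · exact ⟨hμ.le, le_rfl⟩
      · have hw0 : 0 < ‖w‖ := norm_pos_iff.2 h0
        constructor
        · apply div_nonneg _ hw0.le
          have : Real.exp (-(μ * ‖w‖)) ≤ 1 := Real.exp_le_one_iff.2 (by
            have : 0 ≤ μ * ‖w‖ := by positivity
            linarith)
          linarith
        · rw [div_le_iff₀ hw0]
          have := Real.add_one_le_exp (-(μ * ‖w‖))
          linarith
    have hS1 : 0 ≤ μ * ∫ u : E3, al u ^ 2 * (1 / ‖μ • w - u‖) := mul_nonneg hμ.le h1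
    have hS2 : μ * ∫ u : E3, al u ^ 2 * (1 / ‖μ • w - u‖) ≤ μ * C :=
      mul_le_mul_of_nonneg_left h2 hμ.le
    have h3 : |(μ * ∫ u : E3, al u ^ 2 * (1 / ‖μ • w - u‖)) - Lk μ w| ≤ (C + 1) * μ := by
      rw [abs_le]
      constructor <;> nlinarith [mul_nonneg hC hμ.le]
    refine h3.trans ?_
    have h4 : 1 ≤ Real.exp (1 / 2) * Real.exp (-(μ * ‖w‖)) := by
      rw [← Real.exp_add]
      apply Real.one_le_exp
      linarith
    have h5 : (C + 1) * μ * 1 ≤ (C + 1) * μ * (Real.exp (1 / 2) * Real.exp (-(μ * ‖w‖))) :=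
      mul_le_mul_of_nonneg_left h4 (by positivity)
    have h6 : 0 ≤ 2 * (μ * Real.exp (-(μ * ‖w‖))) := by positivity
    nlinarith

/-- TARGET -/
theorem smear : ∃ C : ℝ, 0 < C ∧ ∀ {I : Type} [Fintype I] (c : I → ℝ) (x : I → E3)
    (z μ pb : ℝ) (ω : E3), (∀ i, |c i| ≤ z) → 1 ≤ μ →
      Integrable (fun v : E3 => μ ^ 3 * al (μ • v) ^ 2 *
        ((∑ i, c i * (1 / ‖x i - (ω + v)‖)) - pb)) ∧
      |(∫ v : E3, μ ^ 3 * al (μ • v) ^ 2 * ((∑ i, c i * (1 / ‖x i - (ω + v)‖)) - pb)) -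
          vp c x μ pb ω| ≤ C * z * ∑ i, μ * Real.exp (-(μ * ‖x i - ω‖)) := by
  obtain ⟨C, hC, hk⟩ := b18_ker
  refine ⟨C, hC, ?_⟩
  intro I _ c x z μ pb ω hc hμ1
  have hμ : 0 < μ := by linarith
  have hgc : Continuous (fun v : E3 => μ ^ 3 * al (μ • v) ^ 2) :=
    continuous_const.mul ((b18_al_cont.comp (by fun_prop)).pow 2)
  have hgz : ∀ v : E3, 1 / 2 ≤ ‖v‖ → μ ^ 3 * al (μ • v) ^ 2 = 0 := by
    intro v hv
    rw [b18_al_zero, zero_pow two_ne_zero, mul_zero]
    rw [norm_smul, Real.norm_of_nonneg hμ.le]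
    nlinarith [norm_nonneg v]
  have hgi : Integrable (fun v : E3 => μ ^ 3 * al (μ • v) ^ 2) :=
    hgc.integrable_of_hasCompactSupport (b18_cs (r := 1 / 2) hgz)
  have hgm : ∫ v : E3, μ ^ 3 * al (μ • v) ^ 2 = 1 := by
    rw [b18_scale μ hμ (fun u => al u ^ 2), b18_al_sq]
  have hi : ∀ i, Integrable (fun v : E3 => μ ^ 3 * al (μ • v) ^ 2 * (1 / ‖(x i - ω) - v‖)) :=
    fun i => b18_int _ hgc (1 / 2) hgz (x i - ω)
  have he : ∀ v : E3, μ ^ 3 * al (μ • v) ^ 2 * ((∑ i, c i * (1 / ‖x i - (ω + v)‖)) - pb) =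
      (∑ i, c i * (μ ^ 3 * al (μ • v) ^ 2 * (1 / ‖(x i - ω) - v‖))) -
        pb * (μ ^ 3 * al (μ • v) ^ 2) := by
    intro v
    rw [mul_sub, Finset.mul_sum]
    congr 1
    · refine Finset.sum_congr rfl fun i _ => ?_
      rw [sub_sub]
      ring
    · ring
  have hs : Integrable (fun v : E3 =>
      ∑ i, c i * (μ ^ 3 * al (μ • v) ^ 2 * (1 / ‖(x i - ω) - v‖))) :=
    integrable_finsetSum _ fun i _ => (hi i).const_mul (c i)
  simp only [he]
  refine ⟨hs.sub (hgi.const_mul pb), ?_⟩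
  rw [integral_sub hs (hgi.const_mul pb), integral_finsetSum _ fun i _ => (hi i).const_mul (c i),
    integral_const_mul, hgm]
  simp only [integral_const_mul]
  unfold vp
  have e2 : (∑ i, c i * ∫ v : E3, μ ^ 3 * al (μ • v) ^ 2 * (1 / ‖(x i - ω) - v‖)) - pb * 1 -
      ((∑ i, c i * Lk μ (x i - ω)) - pb) =
      ∑ i, c i * ((∫ v : E3, μ ^ 3 * al (μ • v) ^ 2 * (1 / ‖(x i - ω) - v‖)) - Lk μ (x i - ω)) := by
    simp only [mul_sub, Finset.sum_sub_distrib]
    ring
  rw [e2, Finset.mul_sum]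
  refine (Finset.abs_sum_le_sum_abs _ _).trans (Finset.sum_le_sum fun i _ => ?_)
  rw [abs_mul]
  have hz : 0 ≤ z := (abs_nonneg _).trans (hc i)
  calc |c i| * |(∫ v : E3, μ ^ 3 * al (μ • v) ^ 2 * (1 / ‖(x i - ω) - v‖)) - Lk μ (x i - ω)|
      ≤ z * (C * (μ * Real.exp (-(μ * ‖x i - ω‖)))) :=
        mul_le_mul (hc i) (hk μ hμ (x i - ω)) (abs_nonneg _) hz
    _ = C * z * (μ * Real.exp (-(μ * ‖x i - ω‖))) := by ring

end Pool.Agent.Helper780_CP.RB18
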