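import Pool.Agent.Helper780_CP.LLDefs2
import Pool.Agent.Helper780_CP.BnDefs
import Pool.Agent.Helper780_CP.RC3

set_option autoImplicit false

open MeasureTheory
open scoped Topology

namespace Pool.Agent.Helper780_CP.RB19

open Pool.Agent.Helper780_CP
open Pool.Agent.Helper985.CP

open Pool.Agent.Helper780_CP Pool.Agent.Helper985.CP


noncomputable def b19_h4 (v : E3) : ℝ := ((1 + ‖v‖) ^ 4)⁻¹

theorem b19_h4_int : Integrable b19_h4 := by
  have h : ((Module.finrank ℝ E3 : ℕ) : ℝ) < 4 := by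
    rw [finrank_euclideanSpace_fin]; norm_num
  have h1 := integrable_one_add_norm (μ := (volume : Measure E3)) h
  refine h1.congr (Filter.Eventually.of_forall fun v => ?_)
  have hp : (0 : ℝ) ≤ 1 + ‖v‖ := by positivity
  change (1 + ‖v‖) ^ (-(4 : ℝ)) = ((1 + ‖v‖) ^ 4)⁻¹
  rw [Real.rpow_neg hp]
  congr 1
  exact_mod_cast Real.rpow_natCast (1 + ‖v‖) 4

noncomputable def b19_e (v : E3) : ℝ := Real.exp (-‖v‖)

theorem b19_e_int : Integrable b19_e := by
  refine Integrable.mono' (b19_h4_int.const_mul (24 * Real.exp 1)) ?_ ?_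
  · exact (by unfold b19_e; fun_prop : Continuous b19_e).aestronglyMeasurable
  · refine Filter.Eventually.of_forall fun v => ?_
    unfold b19_e b19_h4
    rw [Real.norm_eq_abs, abs_of_pos (Real.exp_pos _)]
    have hp : (0 : ℝ) < 1 + ‖v‖ := by positivity
    have h1 := Real.pow_div_factorial_le_exp (1 + ‖v‖) hp.le 4
    have h2 : Real.exp (-‖v‖) = Real.exp 1 * (Real.exp (1 + ‖v‖))⁻¹ := by
      rw [← Real.exp_neg, ← Real.exp_add]; congr 1; ring
    rw [h2]
    have h3 : (Real.exp (1 + ‖v‖))⁻¹ ≤ 24 * ((1 + ‖v‖) ^ 4)⁻¹ := by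
      have h4 : (0 : ℝ) < (1 + ‖v‖) ^ 4 / 24 := by positivity
      have h5 : (1 + ‖v‖) ^ 4 / 24 ≤ Real.exp (1 + ‖v‖) := by
        have : ((Nat.factorial 4 : ℕ) : ℝ) = 24 := by norm_num [Nat.factorial]
        rw [this] at h1
        exact h1
      calc (Real.exp (1 + ‖v‖))⁻¹ ≤ ((1 + ‖v‖) ^ 4 / 24)⁻¹ := inv_anti₀ h4 h5
        _ = 24 * ((1 + ‖v‖) ^ 4)⁻¹ := by rw [inv_div]; ring
    have := mul_le_mul_of_nonneg_left h3 (Real.exp_pos 1).le
    linarith

/-- scaling and translation -/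
theorem b19_scale {f : E3 → ℝ} (hf : Integrable f) {μ : ℝ} (hμ : 0 < μ) (a : E3) :
    Integrable (fun ω => f (μ • (a - ω))) ∧ ∫ ω, f (μ • (a - ω)) = (μ ^ 3)⁻¹ * ∫ v, f v := by
  have h1 : Integrable (fun v => f (μ • v)) := hf.comp_smul hμ.ne'
  constructor
  · exact h1.comp_sub_left a
  · rw [integral_sub_left_eq_self (fun w : E3 => f (μ • w)) volume a,
      Measure.integral_comp_smul_of_nonneg volume f μ (hR := hμ.le), finrank_euclideanSpace_fin,
      smul_eq_mul]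

theorem b19_Mk4 {μ : ℝ} (hμ : 0 < μ) (v : E3) : Mk μ v ^ 4 = μ ^ 4 * b19_h4 (μ • v) := by
  unfold Mk b19_h4
  rw [norm_smul, Real.norm_eq_abs, abs_of_pos hμ, div_pow, div_eq_mul_inv]

theorem b19_exp {μ : ℝ} (hμ : 0 < μ) (v : E3) : Real.exp (-(μ * ‖v‖)) = b19_e (μ • v) := by
  unfold b19_e
  rw [norm_smul, Real.norm_eq_abs, abs_of_pos hμ]

theorem b19_Mk_int {μ : ℝ} (hμ : 0 < μ) (a : E3) :
    Integrable (fun ω => Mk μ (a - ω) ^ 4) ∧ ∫ ω, Mk μ (a - ω) ^ 4 = μ * ∫ v, b19_h4 v := by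
  obtain ⟨h1, h2⟩ := b19_scale b19_h4_int hμ a
  simp only [b19_Mk4 hμ]
  refine ⟨h1.const_mul _, ?_⟩
  rw [integral_const_mul, h2]
  field_simp

theorem b19_Mk_nonneg {μ : ℝ} (hμ : 0 < μ) (v : E3) : 0 ≤ Mk μ v := by
  unfold Mk; positivity

/-- part 1 -/
theorem b19_one {I : Type} [Fintype I] (x : I → E3) (w : E3) (μ : ℝ) (hμ : 2 ≤ μ) :
    (∫ ω in Metric.ball w 1, (∑ i, μ * Real.exp (-(μ * ‖x i - ω‖))) ^ 2 ≤
        (Real.exp 2 * ∫ v, b19_e v) / μ * nn w x ^ 2) := by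
  have hμ0 : 0 < μ := by linarith
  set a : I → ℝ := fun i => Real.exp (-‖x i - w‖) with ha
  have ha0 : ∀ i, 0 ≤ a i := fun i => (Real.exp_pos _).le
  have hpt : ∀ ω ∈ Metric.ball w 1, (∑ i, μ * Real.exp (-(μ * ‖x i - ω‖))) ^ 2 ≤
      μ ^ 2 * Real.exp 2 * (∑ i, a i) * ∑ i, a i * Real.exp (-(μ * ‖x i - ω‖)) := by
    intro ω hω
    have hωw : ‖ω - w‖ < 1 := by rwa [Metric.mem_ball, dist_eq_norm] at hω
    set g : I → ℝ := fun i => Real.exp (-((μ - 1) * ‖x i - ω‖)) with hg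
    have h1 : ∀ i, μ * Real.exp (-(μ * ‖x i - ω‖)) ≤ μ * Real.exp 1 * (a i * g i) := by
      intro i
      have h2 : Real.exp (-(μ * ‖x i - ω‖)) = Real.exp (-‖x i - ω‖) * g i := by
        rw [hg, ← Real.exp_add]; congr 1; ring
      have h3 : Real.exp (-‖x i - ω‖) ≤ Real.exp 1 * a i := by
        rw [ha, ← Real.exp_add]
        apply Real.exp_le_exp.2
        have h4 : ‖x i - w‖ ≤ ‖x i - ω‖ + ‖ω - w‖ := by
          calc ‖x i - w‖ = ‖(x i - ω) + (ω - w)‖ := by congr 1; abel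
            _ ≤ _ := norm_add_le _ _
        linarith
      rw [h2]
      have h5 : 0 < g i := Real.exp_pos _
      have h6 := mul_le_mul_of_nonneg_right h3 h5.le
      have h7 := mul_le_mul_of_nonneg_left h6 hμ0.le
      calc _ ≤ _ := h7
        _ = _ := by ring
    have h8 : 0 ≤ ∑ i, μ * Real.exp (-(μ * ‖x i - ω‖)) :=
      Finset.sum_nonneg fun i _ => by positivity
    have h9 : (∑ i, μ * Real.exp (-(μ * ‖x i - ω‖))) ≤ μ * Real.exp 1 * ∑ i, a i * g i := by
      rw [Finset.mul_sum]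
      exact Finset.sum_le_sum fun i _ => h1 i
    have hcs : (∑ i, a i * g i) ^ 2 ≤ (∑ i, a i) * ∑ i, a i * g i ^ 2 := by
      have := Finset.sum_mul_sq_le_sq_mul_sq Finset.univ (fun i => √(a i))
        (fun i => √(a i) * g i)
      have e1 : ∀ i, √(a i) * (√(a i) * g i) = a i * g i := fun i => by
        rw [← mul_assoc, Real.mul_self_sqrt (ha0 i)]
      have e2 : ∀ i, √(a i) ^ 2 = a i := fun i => Real.sq_sqrt (ha0 i)
      have e3 : ∀ i, (√(a i) * g i) ^ 2 = a i * g i ^ 2 := fun i => by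
        rw [mul_pow, e2]
      simp only [e1, e2, e3] at this
      exact this
    have h10 : ∑ i, a i * g i ^ 2 ≤ ∑ i, a i * Real.exp (-(μ * ‖x i - ω‖)) := by
      refine Finset.sum_le_sum fun i _ => mul_le_mul_of_nonneg_left ?_ (ha0 i)
      rw [hg]
      change Real.exp (-((μ - 1) * ‖x i - ω‖)) ^ 2 ≤ _
      rw [← Real.exp_nat_mul]
      apply Real.exp_le_exp.2
      have := norm_nonneg (x i - ω)
      push_cast
      nlinarith
    have hS : 0 ≤ ∑ i, a i := Finset.sum_nonneg fun i _ => ha0 i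
    have he : Real.exp 1 ^ 2 = Real.exp 2 := by
      rw [← Real.exp_nat_mul]; norm_num
    calc (∑ i, μ * Real.exp (-(μ * ‖x i - ω‖))) ^ 2 ≤ (μ * Real.exp 1 * ∑ i, a i * g i) ^ 2 :=
          pow_le_pow_left₀ h8 h9 2
      _ = μ ^ 2 * Real.exp 2 * (∑ i, a i * g i) ^ 2 := by rw [← he]; ring
      _ ≤ μ ^ 2 * Real.exp 2 * ((∑ i, a i) * ∑ i, a i * g i ^ 2) :=
          mul_le_mul_of_nonneg_left hcs (by positivity)
      _ ≤ μ ^ 2 * Real.exp 2 * ((∑ i, a i) * ∑ i, a i * Real.exp (-(μ * ‖x i - ω‖))) :=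
          mul_le_mul_of_nonneg_left (mul_le_mul_of_nonneg_left h10 hS) (by positivity)
      _ = _ := by ring
  have hint : ∀ i, Integrable (fun ω => Real.exp (-(μ * ‖x i - ω‖))) ∧
      ∫ ω, Real.exp (-(μ * ‖x i - ω‖)) = (μ ^ 3)⁻¹ * ∫ v, b19_e v := by
    intro i
    have := b19_scale b19_e_int hμ0 (x i)
    simp only [← b19_exp hμ0] at this
    exact this
  have hdom : Integrable (fun ω => μ ^ 2 * Real.exp 2 * (∑ i, a i) *
      ∑ i, a i * Real.exp (-(μ * ‖x i - ω‖))) :=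
    (integrable_finsetSum _ fun i _ => (hint i).1.const_mul _).const_mul _
  have hcont : Continuous (fun ω => (∑ i, μ * Real.exp (-(μ * ‖x i - ω‖))) ^ 2) := by fun_prop
  have hli : IntegrableOn (fun ω => (∑ i, μ * Real.exp (-(μ * ‖x i - ω‖))) ^ 2)
      (Metric.ball w 1) := by
    refine Integrable.mono' hdom.integrableOn hcont.aestronglyMeasurable ?_
    refine (ae_restrict_iff' measurableSet_ball).2 (Filter.Eventually.of_forall fun ω hω => ?_)
    rw [Real.norm_eq_abs, abs_of_nonneg (sq_nonneg _)]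
    exact hpt ω hω
  refine (setIntegral_mono_on hli hdom.integrableOn measurableSet_ball hpt).trans ?_
  have hnn : ∀ ω : E3, 0 ≤ μ ^ 2 * Real.exp 2 * (∑ i, a i) *
      ∑ i, a i * Real.exp (-(μ * ‖x i - ω‖)) := fun ω => by
    have h1 : 0 ≤ ∑ i, a i := Finset.sum_nonneg fun i _ => ha0 i
    have h2 : 0 ≤ ∑ i, a i * Real.exp (-(μ * ‖x i - ω‖)) :=
      Finset.sum_nonneg fun i _ => mul_nonneg (ha0 i) (Real.exp_pos _).le
    positivity
  refine (setIntegral_le_integral hdom (Filter.Eventually.of_forall hnn)).trans ?_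
  rw [integral_const_mul, integral_finsetSum _ fun i _ => (hint i).1.const_mul _]
  simp only [integral_const_mul, (hint _).2]
  rw [← Finset.sum_mul]
  have e4 : nn w x = ∑ i, a i := rfl
  rw [e4]
  apply le_of_eq
  field_simp

/-- part 2 -/
theorem b19_two {I : Type} [Fintype I] (x : I → E3) (w : E3) (μ : ℝ) (hμ : 2 ≤ μ) :
    IntegrableOn (fun ω => ∑ i, Mk μ (x i - ω) ^ 4) (Metric.ball w 1) ∧
    (∫ ω in Metric.ball w 1, ∑ i, Mk μ (x i - ω) ^ 4 ≤
        ((∫ v, b19_h4 v) + 81 * volume.real (Metric.ball (0 : E3) 1)) *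
          (μ * nb w 2 x + ∑ i, ((1 + ‖x i - w‖) ^ 4)⁻¹)) := by
  have hμ0 : 0 < μ := by linarith
  have hint : ∀ i, Integrable (fun ω => Mk μ (x i - ω) ^ 4) := fun i => (b19_Mk_int hμ0 (x i)).1
  refine ⟨(integrable_finsetSum _ fun i _ => hint i).integrableOn, ?_⟩
  rw [integral_finsetSum _ fun i _ => (hint i).integrableOn]
  set c4 := ∫ v, b19_h4 v with hc4
  have hc4n : 0 ≤ c4 := integral_nonneg fun v => by unfold b19_h4; positivity
  set c3 : ℝ := volume.real (Metric.ball (0 : E3) 1) with hc3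
  have hc3n : 0 ≤ c3 := measureReal_nonneg
  have hvol : volume.real (Metric.ball w 1) = c3 := by
    rw [hc3, measureReal_def, measureReal_def, Measure.addHaar_ball_center volume w 1]
  have key : ∀ i, ∫ ω in Metric.ball w 1, Mk μ (x i - ω) ^ 4 ≤
      c4 * (μ * (if ‖x i - w‖ ≤ 2 then 1 else 0)) + 81 * c3 * ((1 + ‖x i - w‖) ^ 4)⁻¹ := by
    intro i
    have hnn : ∀ ω, 0 ≤ Mk μ (x i - ω) ^ 4 := fun ω => pow_nonneg (b19_Mk_nonneg hμ0 _) 4
    by_cases h : ‖x i - w‖ ≤ 2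
    · rw [if_pos h, mul_one]
      have h1 := setIntegral_le_integral (s := Metric.ball w 1) (hint i)
        (Filter.Eventually.of_forall hnn)
      rw [(b19_Mk_int hμ0 (x i)).2] at h1
      have h2 : 0 ≤ 81 * c3 * ((1 + ‖x i - w‖) ^ 4)⁻¹ := by positivity
      linarith
    · rw [if_neg h, mul_zero, mul_zero, zero_add]
      push Not at h
      have hpt : ∀ ω ∈ Metric.ball w 1, Mk μ (x i - ω) ^ 4 ≤ 81 * ((1 + ‖x i - w‖) ^ 4)⁻¹ := by
        intro ω hω
        have hωw : ‖ω - w‖ < 1 := by rwa [Metric.mem_ball, dist_eq_norm] at hω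
        have h4 : ‖x i - w‖ ≤ ‖x i - ω‖ + ‖ω - w‖ := by
          calc ‖x i - w‖ = ‖(x i - ω) + (ω - w)‖ := by congr 1; abel
            _ ≤ _ := norm_add_le _ _
        have h5 : (1 + ‖x i - w‖) / 3 ≤ ‖x i - ω‖ := by linarith
        have h6 : 0 < (1 + ‖x i - w‖) / 3 := by positivity
        have h7 : Mk μ (x i - ω) ≤ 3 * (1 + ‖x i - w‖)⁻¹ := by
          unfold Mk
          rw [div_le_iff₀ (by positivity)]
          have h8 : 3 * (1 + ‖x i - w‖)⁻¹ * (1 + μ * ‖x i - ω‖) ≥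
              3 * (1 + ‖x i - w‖)⁻¹ * (μ * ((1 + ‖x i - w‖) / 3)) := by
            apply mul_le_mul_of_nonneg_left _ (by positivity)
            nlinarith
          have h9 : 3 * (1 + ‖x i - w‖)⁻¹ * (μ * ((1 + ‖x i - w‖) / 3)) = μ := by
            field_simp
          linarith
        calc Mk μ (x i - ω) ^ 4 ≤ (3 * (1 + ‖x i - w‖)⁻¹) ^ 4 :=
              pow_le_pow_left₀ (b19_Mk_nonneg hμ0 _) h7 4
          _ = 81 * ((1 + ‖x i - w‖) ^ 4)⁻¹ := by rw [mul_pow, inv_pow]; norm_num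
      have h1 := setIntegral_mono_on (hint i).integrableOn
        (integrableOn_const (C := 81 * ((1 + ‖x i - w‖) ^ 4)⁻¹)
          (measure_ball_lt_top (x := w) (r := 1)).ne) measurableSet_ball hpt
      rw [setIntegral_const, hvol, smul_eq_mul] at h1
      linarith
  calc ∑ i, ∫ ω in Metric.ball w 1, Mk μ (x i - ω) ^ 4 ≤
      ∑ i, (c4 * (μ * (if ‖x i - w‖ ≤ 2 then 1 else 0)) +
        81 * c3 * ((1 + ‖x i - w‖) ^ 4)⁻¹) := Finset.sum_le_sum fun i _ => key i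
    _ = c4 * (μ * nb w 2 x) + 81 * c3 * ∑ i, ((1 + ‖x i - w‖) ^ 4)⁻¹ := by
      rw [Finset.sum_add_distrib, ← Finset.mul_sum, ← Finset.mul_sum, ← Finset.mul_sum]
      rfl
    _ ≤ _ := by
      have h1 : 0 ≤ nb w 2 x := Finset.sum_nonneg fun i _ => by split_ifs <;> norm_num
      have h2 : 0 ≤ ∑ i, ((1 + ‖x i - w‖) ^ 4)⁻¹ := Finset.sum_nonneg fun i _ => by positivity
      have h3 : 0 ≤ c4 * ∑ i, ((1 + ‖x i - w‖) ^ 4)⁻¹ := mul_nonneg hc4n h2
      have h4 : 0 ≤ 81 * c3 * (μ * nb w 2 x) := by positivity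
      linarith


theorem b19_ct_cont : Continuous ct := by
  unfold ct
  exact Real.smoothTransition.continuous.comp (by fun_prop)

theorem b19_al_cont : Continuous al := by
  unfold al
  exact (b19_ct_cont.comp (continuous_const_smul _)).div_const _

theorem b19_al_nonneg (w : E3) : 0 ≤ al w := by
  unfold al
  exact div_nonneg (Real.smoothTransition.nonneg _) (Real.sqrt_nonneg _)

theorem b19_near2_le {I : Type} [Fintype I] {w : E3} {x : I → E3} {B : ℝ} (hB : 0 ≤ B)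
    (h : ∀ i, ‖x i - w‖⁻¹ ^ 2 ≤ B) : near2 w x ≤ B := Real.iSup_le h hB

/-- bound of `al` -/
noncomputable def b19_A : ℝ := (√(∫ u : E3, ct ((4 : ℝ) • u) ^ 2))⁻¹

theorem b19_A_nonneg : 0 ≤ b19_A := inv_nonneg.2 (Real.sqrt_nonneg _)

theorem b19_al_le (w : E3) : al w ≤ b19_A := by
  unfold al b19_A
  rw [div_eq_mul_inv]
  exact mul_le_of_le_one_left (inv_nonneg.2 (Real.sqrt_nonneg _)) (Real.smoothTransition.le_one _)

theorem b19_al_zero {w : E3} (h : 1 / 2 ≤ ‖w‖) : al w = 0 := by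
  unfold al
  have : ct ((4 : ℝ) • w) = 0 := by
    unfold ct
    apply Real.smoothTransition.zero_of_nonpos
    have h1 : ‖(4 : ℝ) • w‖ = 4 * ‖w‖ := by
      rw [norm_smul, Real.norm_eq_abs, abs_of_pos (by norm_num)]
    rw [h1]
    have : 4 ≤ (4 * ‖w‖) ^ 2 := by nlinarith
    linarith
  rw [this, zero_div]

theorem b19_near2_nonneg {I : Type} [Fintype I] (w : E3) (x : I → E3) : 0 ≤ near2 w x :=
  Real.iSup_nonneg fun i => by positivity

theorem b19_near2_meas {I : Type} [Fintype I] (x : I → E3) : Measurable (fun w => near2 w x) := by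
  unfold near2
  exact Measurable.iSup fun i => by fun_prop

theorem b19_near2_ge {I : Type} [Fintype I] (w : E3) (x : I → E3) (i : I) :
    ‖x i - w‖⁻¹ ^ 2 ≤ near2 w x := by
  unfold near2
  exact le_ciSup (f := fun i => ‖x i - w‖⁻¹ ^ 2) (Set.finite_range _).bddAbove i

attribute [local irreducible] al near2 b19_A ct

/-- the integrand -/
noncomputable def b19_f {I : Type} [Fintype I] (x : I → E3) (μ : ℝ) (ω v : E3) : ℝ :=
  μ ^ 3 * al (μ • v) ^ 2 * near2 (ω + v) x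

theorem b19_f_nonneg {I : Type} [Fintype I] (x : I → E3) {μ : ℝ} (hμ : 0 < μ) (ω v : E3) :
    0 ≤ b19_f x μ ω v := by
  unfold b19_f
  have := b19_near2_nonneg (ω + v) x
  positivity

theorem b19_f_meas {I : Type} [Fintype I] (x : I → E3) (μ : ℝ) :
    Measurable (fun q : E3 × E3 => b19_f x μ q.1 q.2) := by
  unfold b19_f
  have h0 : Continuous (fun q : E3 × E3 => al (μ • q.2)) :=
    b19_al_cont.comp (by fun_prop)
  have h1 : Measurable (fun q : E3 × E3 => μ ^ 3 * al (μ • q.2) ^ 2) :=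
    (h0.measurable.pow_const 2).const_mul (μ ^ 3)
  exact h1.mul ((b19_near2_meas x).comp (measurable_fst.add measurable_snd))

/-- domination by the indicator -/
theorem b19_f_le {I : Type} [Fintype I] (x : I → E3) {μ : ℝ} (hμ : 0 < μ) (ω v : E3) :
    b19_f x μ ω v ≤ (μ ^ 3 * b19_A ^ 2) *
      (Metric.ball ω (1 / (2 * μ))).indicator (fun w => near2 w x) (ω + v) := by
  have hA0 : 0 ≤ b19_A := b19_A_nonneg
  unfold b19_f
  by_cases h : ω + v ∈ Metric.ball ω (1 / (2 * μ))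
  · rw [Set.indicator_of_mem h]
    have h1 := b19_near2_nonneg (ω + v) x
    have h2 : al (μ • v) ^ 2 ≤ b19_A ^ 2 := pow_le_pow_left₀ (b19_al_nonneg _) (b19_al_le _) 2
    have h3 : μ ^ 3 * al (μ • v) ^ 2 ≤ μ ^ 3 * b19_A ^ 2 :=
      mul_le_mul_of_nonneg_left h2 (by positivity)
    exact mul_le_mul_of_nonneg_right h3 h1
  · rw [Set.indicator_of_notMem h]
    have h1 : 1 / (2 * μ) ≤ ‖v‖ := by
      rw [Metric.mem_ball, dist_eq_norm, add_sub_cancel_left] at h
      exact not_lt.1 h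
    have h2 : al (μ • v) = 0 := by
      apply b19_al_zero
      rw [norm_smul, Real.norm_eq_abs, abs_of_pos hμ]
      rw [div_le_iff₀ (by positivity)] at h1
      linarith
    rw [h2]
    simp

set_option maxHeartbeats 400000 in
theorem b19_three {I : Type} [Fintype I] (x : I → E3) {μ : ℝ} (hμ : 0 < μ) (ω : E3) :
    Integrable (fun v : E3 => b19_f x μ ω v) ∧
    ∫ v, b19_f x μ ω v ≤ (μ ^ 3 * b19_A ^ 2) *
      ∫ w in Metric.ball ω (1 / (2 * μ)), near2 w x := by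
  obtain ⟨C, hC, h⟩ := Pool.Agent.Helper780_CP.RC3.near2_ball
  obtain ⟨h1, h2⟩ := h x ω (1 / (2 * μ)) (by positivity)
  set G : E3 → ℝ := (Metric.ball ω (1 / (2 * μ))).indicator (fun w => near2 w x) with hG
  have h3 : Integrable G := h1.integrable_indicator measurableSet_ball
  have h4 : Integrable (fun v => G (ω + v)) := h3.comp_add_left ω
  have hGi : ∫ v, G v = ∫ w in Metric.ball ω (1 / (2 * μ)), near2 w x := by
    rw [hG, integral_indicator measurableSet_ball]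
  have hle : ∀ v, b19_f x μ ω v ≤ (μ ^ 3 * b19_A ^ 2) * G (ω + v) := fun v => b19_f_le x hμ ω v
  clear_value G
  have hm : Measurable (fun v : E3 => b19_f x μ ω v) :=
    (b19_f_meas x μ).comp (measurable_const.prodMk measurable_id)
  have h5 : Integrable (fun v : E3 => b19_f x μ ω v) := by
    refine Integrable.mono' (h4.const_mul (μ ^ 3 * b19_A ^ 2)) hm.aestronglyMeasurable
      (Filter.Eventually.of_forall fun v => ?_)
    rw [Real.norm_eq_abs, abs_of_nonneg (b19_f_nonneg x hμ ω v)]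
    exact hle v
  refine ⟨h5, ?_⟩
  refine (integral_mono h5 (h4.const_mul (μ ^ 3 * b19_A ^ 2)) hle).trans ?_
  rw [integral_const_mul, integral_add_left_eq_self G ω, hGi]

/-- pointwise bound of the square -/
theorem b19_point : ∃ K : ℝ, 0 < K ∧ ∀ {I : Type} [Fintype I] (x : I → E3) (w : E3) (μ : ℝ),
    2 ≤ μ → ∀ ω ∈ Metric.ball w 1, (∫ v : E3, b19_f x μ ω v) ^ 2 ≤
      K * (1 + (1 + nb w 2 x ^ ((1 : ℝ) / 3)) *
        ∑ i, if ‖x i - w‖ ≤ 2 then Mk μ (x i - ω) ^ 4 else 0) := by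
  classical
  obtain ⟨C, hC, hball⟩ := Pool.Agent.Helper780_CP.RC3.near2_ball
  set A := b19_A with hA
  have hA0 : 0 ≤ A := b19_A_nonneg
  set c3 : ℝ := volume.real (Metric.ball (0 : E3) 1) with hc3
  have hc3n : 0 ≤ c3 := measureReal_nonneg
  refine ⟨16 * (A ^ 2 * c3 / 2) ^ 2 + 16 * (A ^ 2 * C) ^ 2 + 1, by positivity, ?_⟩
  intro I _ x w μ hμ ω hω
  have hμ0 : 0 < μ := by linarith
  have hωw : ‖ω - w‖ < 1 := by rwa [Metric.mem_ball, dist_eq_norm] at hω
  set R : ℝ := 1 / (2 * μ) with hR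
  have hR0 : 0 < R := by positivity
  have h2R : 2 * R = 1 / μ := by rw [hR]; field_simp
  set X := ∫ v : E3, b19_f x μ ω v with hX
  have hX0 : 0 ≤ X := integral_nonneg fun v => b19_f_nonneg x hμ0 ω v
  have hXle : X ≤ (μ ^ 3 * A ^ 2) * ∫ w in Metric.ball ω R, near2 w x :=
    (b19_three x hμ0 ω).2
  set SM4 : ℝ := ∑ i, (if ‖x i - w‖ ≤ 2 then Mk μ (x i - ω) ^ 4 else 0) with hSM
  have hterm : ∀ i, 0 ≤ (if ‖x i - w‖ ≤ 2 then Mk μ (x i - ω) ^ 4 else 0) := fun i => by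
    split_ifs
    · exact pow_nonneg (b19_Mk_nonneg hμ0 _) 4
    · exact le_rfl
  have hSM0 : 0 ≤ SM4 := Finset.sum_nonneg fun i _ => hterm i
  have hnb0 : 0 ≤ nb w 2 x := Finset.sum_nonneg fun i _ => by split_ifs <;> norm_num
  have hnb13 : 0 ≤ nb w 2 x ^ ((1 : ℝ) / 3) := Real.rpow_nonneg hnb0 _
  have htri : ∀ i, ‖x i - w‖ ≤ ‖x i - ω‖ + ‖ω - w‖ := fun i => by
    calc ‖x i - w‖ = ‖(x i - ω) + (ω - w)‖ := by congr 1; abel
      _ ≤ _ := norm_add_le _ _
  set F := Finset.univ.filter (fun i => ‖x i - ω‖ ≤ 2 * R) with hF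
  obtain ⟨hbi, hbb⟩ := hball x ω R hR0
  have hmain : ∀ B : ℝ, 0 ≤ B → B ≤ (1 + nb w 2 x ^ ((1 : ℝ) / 3)) * SM4 ∨ B ≤ 1 + SM4 →
      B ≤ 1 + (1 + nb w 2 x ^ ((1 : ℝ) / 3)) * SM4 := by
    rintro B _ (h | h)
    · linarith
    · have : 0 ≤ nb w 2 x ^ ((1 : ℝ) / 3) * SM4 := mul_nonneg hnb13 hSM0
      nlinarith
  rcases Nat.eq_zero_or_pos F.card with h0 | h0
  · -- no particle near
    have hfar : ∀ i, 1 / μ < ‖x i - ω‖ := by
      intro i
      by_contra hcon
      push Not at hcon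
      have : i ∈ F := by rw [hF, Finset.mem_filter]; exact ⟨Finset.mem_univ _, by rw [h2R]; exact hcon⟩
      rw [Finset.card_eq_zero] at h0
      rw [h0] at this
      exact absurd this (Finset.notMem_empty _)
    have hn4 : ∀ v ∈ Metric.ball ω R, near2 v x ≤ 4 * near2 ω x := by
      intro v hv
      have hvω : ‖v - ω‖ < R := by rwa [Metric.mem_ball, dist_eq_norm] at hv
      have hnn := b19_near2_nonneg ω x
      refine b19_near2_le (by positivity) (fun i => ?_)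
      have h1 := hfar i
      have h2 : ‖x i - ω‖ ≤ ‖x i - v‖ + ‖v - ω‖ := by
        calc ‖x i - ω‖ = ‖(x i - v) + (v - ω)‖ := by congr 1; abel
          _ ≤ _ := norm_add_le _ _
      have h3 : ‖x i - ω‖ / 2 ≤ ‖x i - v‖ := by
        have : R = 1 / μ / 2 := by rw [← h2R]; ring
        linarith
      have h4 : 0 < ‖x i - ω‖ / 2 := by
        have : 0 < 1 / μ := by positivity
        linarith
      have h5 : ‖x i - v‖⁻¹ ≤ (‖x i - ω‖ / 2)⁻¹ := inv_anti₀ h4 h3
      have h6 := b19_near2_ge ω x i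
      calc ‖x i - v‖⁻¹ ^ 2 ≤ ((‖x i - ω‖ / 2)⁻¹) ^ 2 := pow_le_pow_left₀ (by positivity) h5 2
        _ = 4 * ‖x i - ω‖⁻¹ ^ 2 := by rw [inv_div]; ring
        _ ≤ _ := by linarith
    have hvol : volume.real (Metric.ball ω R) = R ^ 3 * c3 := by
      rw [measureReal_def, Measure.addHaar_ball_of_pos volume ω hR0, ENNReal.toReal_mul,
        ENNReal.toReal_ofReal (by positivity), finrank_euclideanSpace_fin]
      rfl
    have h1 := setIntegral_mono_on hbi (integrableOn_const (C := 4 * near2 ω x)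
      (measure_ball_lt_top (x := ω) (r := R)).ne) measurableSet_ball hn4
    rw [setIntegral_const, hvol, smul_eq_mul] at h1
    have h2 : X ≤ (A ^ 2 * c3 / 2) * near2 ω x := by
      refine hXle.trans ((mul_le_mul_of_nonneg_left h1 (by positivity)).trans (le_of_eq ?_))
      rw [hR]
      field_simp
      ring
    have h3 : near2 ω x ^ 2 ≤ 16 * (1 + SM4) := by
      have h4 : near2 ω x ≤ √(16 * (1 + SM4)) := by
        refine b19_near2_le (Real.sqrt_nonneg _) (fun i => ?_)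
        apply Real.le_sqrt_of_sq_le
        have hfi := hfar i
        have hr0 : 0 < ‖x i - ω‖ := lt_trans (by positivity) hfi
        by_cases hi : ‖x i - w‖ ≤ 2
        · have h5 : ‖x i - ω‖⁻¹ ≤ 2 * Mk μ (x i - ω) := by
            unfold Mk
            rw [inv_eq_one_div, div_le_iff₀ hr0]
            rw [show 2 * (μ / (1 + μ * ‖x i - ω‖)) * ‖x i - ω‖ =
              2 * μ * ‖x i - ω‖ / (1 + μ * ‖x i - ω‖) by ring, le_div_iff₀ (by positivity)]
            have : 1 < μ * ‖x i - ω‖ := by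
              rw [div_lt_iff₀ hμ0] at hfi
              linarith
            linarith
          have h6 : (if ‖x i - w‖ ≤ 2 then Mk μ (x i - ω) ^ 4 else 0) ≤ SM4 :=
            Finset.single_le_sum (f := fun i => if ‖x i - w‖ ≤ 2 then Mk μ (x i - ω) ^ 4 else 0)
              (fun j _ => hterm j) (Finset.mem_univ i)
          rw [if_pos hi] at h6
          calc (‖x i - ω‖⁻¹ ^ 2) ^ 2 = ‖x i - ω‖⁻¹ ^ 4 := by ring
            _ ≤ (2 * Mk μ (x i - ω)) ^ 4 := pow_le_pow_left₀ (by positivity) h5 4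
            _ = 16 * Mk μ (x i - ω) ^ 4 := by ring
            _ ≤ _ := by linarith
        · push Not at hi
          have h5 : 1 ≤ ‖x i - ω‖ := by have := htri i; linarith
          have h6 : ‖x i - ω‖⁻¹ ≤ 1 := inv_le_one_of_one_le₀ h5
          calc (‖x i - ω‖⁻¹ ^ 2) ^ 2 = ‖x i - ω‖⁻¹ ^ 4 := by ring
            _ ≤ 1 := pow_le_one₀ (by positivity) h6
            _ ≤ _ := by linarith
      calc near2 ω x ^ 2 ≤ (√(16 * (1 + SM4))) ^ 2 :=
            pow_le_pow_left₀ (b19_near2_nonneg ω x) h4 2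
        _ = _ := Real.sq_sqrt (by positivity)
    have h5 : X ^ 2 ≤ 16 * (A ^ 2 * c3 / 2) ^ 2 * (1 + SM4) := by
      calc X ^ 2 ≤ ((A ^ 2 * c3 / 2) * near2 ω x) ^ 2 := pow_le_pow_left₀ hX0 h2 2
        _ = (A ^ 2 * c3 / 2) ^ 2 * near2 ω x ^ 2 := by ring
        _ ≤ (A ^ 2 * c3 / 2) ^ 2 * (16 * (1 + SM4)) :=
          mul_le_mul_of_nonneg_left h3 (by positivity)
        _ = _ := by ring
    have h6 := hmain (1 + SM4) (by positivity) (Or.inr le_rfl)
    have h7 : 16 * (A ^ 2 * c3 / 2) ^ 2 * (1 + SM4) ≤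
        (16 * (A ^ 2 * c3 / 2) ^ 2 + 16 * (A ^ 2 * C) ^ 2 + 1) * (1 + SM4) := by
      have : 0 ≤ 16 * (A ^ 2 * C) ^ 2 + 1 := by positivity
      nlinarith
    exact h5.trans (h7.trans (mul_le_mul_of_nonneg_left h6 (by positivity)))
  · -- some particle near
    have hN : (1 : ℝ) ≤ (F.card : ℝ) := by exact_mod_cast h0
    have hN0 : (0 : ℝ) < (F.card : ℝ) := by linarith
    have hN23 : 1 ≤ (F.card : ℝ) ^ ((2 : ℝ) / 3) := Real.one_le_rpow hN (by norm_num)
    have h1 : X ≤ A ^ 2 * C * μ ^ 2 * (F.card : ℝ) ^ ((2 : ℝ) / 3) := by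
      refine hXle.trans ((mul_le_mul_of_nonneg_left hbb (by positivity)).trans ?_)
      have h2 : (μ ^ 3 * A ^ 2) * (C * R * (1 + (F.card : ℝ) ^ ((2 : ℝ) / 3))) =
          A ^ 2 * C * μ ^ 2 * ((1 + (F.card : ℝ) ^ ((2 : ℝ) / 3)) / 2) := by
        rw [hR]; field_simp
      rw [h2]
      exact mul_le_mul_of_nonneg_left (by linarith) (by positivity)
    have hcard : (F.card : ℝ) ≤ nb w 2 x := by
      have h3 : (F.card : ℝ) = ∑ i, if ‖x i - ω‖ ≤ 2 * R then (1 : ℝ) else 0 := by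
        rw [hF, Finset.sum_boole]
      rw [h3]
      refine Finset.sum_le_sum fun i _ => ?_
      by_cases hi : ‖x i - ω‖ ≤ 2 * R
      · have h4 : ‖x i - w‖ ≤ 2 := by
          have h5 := htri i
          have h6 : 1 / μ ≤ 1 / 2 := one_div_le_one_div_of_le (by norm_num) hμ
          rw [h2R] at hi
          linarith
        rw [if_pos hi, if_pos h4]
      · rw [if_neg hi]
        split_ifs <;> norm_num
    have hcard4 : μ ^ 4 * (F.card : ℝ) ≤ 16 * SM4 := by
      have h3 : (F.card : ℝ) = ∑ i, if ‖x i - ω‖ ≤ 2 * R then (1 : ℝ) else 0 := by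
        rw [hF, Finset.sum_boole]
      rw [h3, hSM, Finset.mul_sum, Finset.mul_sum]
      refine Finset.sum_le_sum fun i _ => ?_
      by_cases hi : ‖x i - ω‖ ≤ 2 * R
      · have h4 : ‖x i - w‖ ≤ 2 := by
          have h5 := htri i
          have h6 : 1 / μ ≤ 1 / 2 := one_div_le_one_div_of_le (by norm_num) hμ
          rw [h2R] at hi
          linarith
        rw [if_pos hi, if_pos h4, mul_one]
        have h5 : μ / 2 ≤ Mk μ (x i - ω) := by
          unfold Mk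
          rw [h2R] at hi
          have h6 : μ * ‖x i - ω‖ ≤ 1 := by
            rw [le_div_iff₀ hμ0] at hi
            linarith
          rw [div_le_div_iff₀ (by norm_num) (by positivity)]
          nlinarith
        calc μ ^ 4 = 16 * (μ / 2) ^ 4 := by ring
          _ ≤ 16 * Mk μ (x i - ω) ^ 4 :=
            mul_le_mul_of_nonneg_left (pow_le_pow_left₀ (by positivity) h5 4) (by norm_num)
      · rw [if_neg hi, mul_zero]
        exact mul_nonneg (by norm_num) (hterm i)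
    have hpow : ((F.card : ℝ) ^ ((2 : ℝ) / 3)) ^ 2 =
        (F.card : ℝ) ^ ((1 : ℝ) / 3) * (F.card : ℝ) := by
      rw [← Real.rpow_natCast, ← Real.rpow_mul hN0.le]
      nth_rw 3 [← Real.rpow_one (F.card : ℝ)]
      rw [← Real.rpow_add hN0]
      norm_num
    have h13 : (F.card : ℝ) ^ ((1 : ℝ) / 3) ≤ nb w 2 x ^ ((1 : ℝ) / 3) :=
      Real.rpow_le_rpow hN0.le hcard (by norm_num)
    have h5 : X ^ 2 ≤ 16 * (A ^ 2 * C) ^ 2 * (nb w 2 x ^ ((1 : ℝ) / 3) * SM4) := by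
      calc X ^ 2 ≤ (A ^ 2 * C * μ ^ 2 * (F.card : ℝ) ^ ((2 : ℝ) / 3)) ^ 2 :=
            pow_le_pow_left₀ hX0 h1 2
        _ = (A ^ 2 * C) ^ 2 * ((F.card : ℝ) ^ ((1 : ℝ) / 3) * (μ ^ 4 * (F.card : ℝ))) := by
            rw [mul_pow _ ((F.card : ℝ) ^ ((2 : ℝ) / 3)), hpow]; ring
        _ ≤ (A ^ 2 * C) ^ 2 * (nb w 2 x ^ ((1 : ℝ) / 3) * (16 * SM4)) := by
            apply mul_le_mul_of_nonneg_left _ (by positivity)
            exact mul_le_mul h13 hcard4 (by positivity) hnb13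
        _ = _ := by ring
    have h6 := hmain (nb w 2 x ^ ((1 : ℝ) / 3) * SM4) (by positivity) (Or.inl (by linarith))
    have h7 : 16 * (A ^ 2 * C) ^ 2 * (nb w 2 x ^ ((1 : ℝ) / 3) * SM4) ≤
        (16 * (A ^ 2 * c3 / 2) ^ 2 + 16 * (A ^ 2 * C) ^ 2 + 1) *
          (nb w 2 x ^ ((1 : ℝ) / 3) * SM4) := by
      have h8 : 0 ≤ 16 * (A ^ 2 * c3 / 2) ^ 2 + 1 := by positivity
      have h9 : 0 ≤ nb w 2 x ^ ((1 : ℝ) / 3) * SM4 := by positivity
      nlinarith
    exact h5.trans (h7.trans (mul_le_mul_of_nonneg_left h6 (by positivity)))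

theorem b19_nb_pow {I : Type} [Fintype I] (x : I → E3) (w : E3) :
    nb w 2 x * (1 + nb w 2 x ^ ((1 : ℝ) / 3)) ≤ 2 * nb w 3 x ^ ((4 : ℝ) / 3) := by
  classical
  have h1 : nb w 2 x = ((Finset.univ.filter (fun i => ‖x i - w‖ ≤ 2)).card : ℝ) := by
    unfold nb
    rw [Finset.sum_boole]
  have h2 : nb w 2 x ≤ nb w 3 x := by
    unfold nb
    refine Finset.sum_le_sum fun i _ => ?_
    by_cases hi : ‖x i - w‖ ≤ 2
    · rw [if_pos hi, if_pos (by linarith)]
    · rw [if_neg hi]; split_ifs <;> norm_num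
  have h0 : 0 ≤ nb w 2 x := by rw [h1]; positivity
  have h3 : nb w 2 x ^ ((4 : ℝ) / 3) ≤ nb w 3 x ^ ((4 : ℝ) / 3) :=
    Real.rpow_le_rpow h0 h2 (by norm_num)
  rcases Nat.eq_zero_or_pos (Finset.univ.filter (fun i => ‖x i - w‖ ≤ 2)).card with h4 | h4
  · have h5 : nb w 2 x = 0 := by rw [h1, h4]; norm_num
    rw [h5, zero_mul]
    have h6 : 0 ≤ nb w 2 x ^ ((4 : ℝ) / 3) := Real.rpow_nonneg h0 _
    linarith
  · have h5 : 1 ≤ nb w 2 x := by rw [h1]; exact_mod_cast h4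
    have h50 : 0 < nb w 2 x := by linarith
    have h6 : nb w 2 x * nb w 2 x ^ ((1 : ℝ) / 3) = nb w 2 x ^ ((4 : ℝ) / 3) := by
      nth_rw 1 [← Real.rpow_one (nb w 2 x)]
      rw [← Real.rpow_add h50]
      norm_num
    have h7 : nb w 2 x ≤ nb w 2 x ^ ((4 : ℝ) / 3) := by
      nth_rw 1 [← Real.rpow_one (nb w 2 x)]
      exact Real.rpow_le_rpow_of_exponent_le h5 (by norm_num)
    calc _ = nb w 2 x + nb w 2 x * nb w 2 x ^ ((1 : ℝ) / 3) := by ring
      _ ≤ _ := by rw [h6]; linarith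

/-- TARGET -/
theorem int_bounds : ∃ C : ℝ, 0 < C ∧ ∀ {I : Type} [Fintype I] (x : I → E3) (w : E3) (μ : ℝ),
    2 ≤ μ →
      (∫ ω in Metric.ball w 1, (∑ i, μ * Real.exp (-(μ * ‖x i - ω‖))) ^ 2 ≤
        C / μ * nn w x ^ 2) ∧
      (∫ ω in Metric.ball w 1, ∑ i, Mk μ (x i - ω) ^ 4 ≤
        C * (μ * nb w 2 x + ∑ i, ((1 + ‖x i - w‖) ^ 4)⁻¹)) ∧
      (∀ ω, Integrable (fun v : E3 => μ ^ 3 * al (μ • v) ^ 2 * near2 (ω + v) x)) ∧
      IntegrableOn (fun ω => (∫ v : E3, μ ^ 3 * al (μ • v) ^ 2 * near2 (ω + v) x) ^ 2)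
        (Metric.ball w 1) ∧
      ∫ ω in Metric.ball w 1, (∫ v : E3, μ ^ 3 * al (μ • v) ^ 2 * near2 (ω + v) x) ^ 2 ≤
        C * (1 + μ * nb w 3 x ^ ((4 : ℝ) / 3)) := by
  obtain ⟨K, hK, hpt⟩ := b19_point
  set cE := ∫ v, b19_e v with hcE
  set c4 := ∫ v, b19_h4 v with hc4
  set c3 : ℝ := volume.real (Metric.ball (0 : E3) 1) with hc3
  have hc4n : 0 ≤ c4 := integral_nonneg fun v => by unfold b19_h4; positivity
  have hcEn : 0 ≤ cE := integral_nonneg fun v => by unfold b19_e; positivity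
  have hc3n : 0 ≤ c3 := measureReal_nonneg
  refine ⟨Real.exp 2 * cE + (c4 + 81 * c3) + (K * c3 + 2 * K * c4) + 1, by positivity, ?_⟩
  set C := Real.exp 2 * cE + (c4 + 81 * c3) + (K * c3 + 2 * K * c4) + 1 with hC
  have hKc3 : 0 ≤ K * c3 := by positivity
  have hKc4 : 0 ≤ 2 * K * c4 := by positivity
  have hEc : 0 ≤ Real.exp 2 * cE := by positivity
  have hC1 : Real.exp 2 * cE ≤ C := by rw [hC]; linarith
  have hC2 : c4 + 81 * c3 ≤ C := by rw [hC]; linarith
  have hC3 : K * c3 ≤ C := by rw [hC]; linarith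
  have hC4 : 2 * K * c4 ≤ C := by rw [hC]; linarith
  clear_value C
  intro I _ x w μ hμ
  have hμ0 : 0 < μ := by linarith
  have hnb0 : 0 ≤ nb w 2 x := Finset.sum_nonneg fun i _ => by split_ifs <;> norm_num
  have hnb30 : 0 ≤ nb w 3 x := Finset.sum_nonneg fun i _ => by split_ifs <;> norm_num
  have hnb13 : 0 ≤ nb w 2 x ^ ((1 : ℝ) / 3) := Real.rpow_nonneg hnb0 _
  have hnb43 : 0 ≤ nb w 3 x ^ ((4 : ℝ) / 3) := Real.rpow_nonneg hnb30 _
  have hvol : volume.real (Metric.ball w 1) = c3 := by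
    rw [hc3, measureReal_def, measureReal_def, Measure.addHaar_ball_center volume w 1]
  set g : I → E3 → ℝ := fun i ω => if ‖x i - w‖ ≤ 2 then Mk μ (x i - ω) ^ 4 else 0 with hg
  have hgi : ∀ i, Integrable (g i) ∧ ∫ ω, g i ω = c4 * (μ * (if ‖x i - w‖ ≤ 2 then 1 else 0)) := by
    intro i
    obtain ⟨h1, h2⟩ := b19_Mk_int hμ0 (x i)
    by_cases h : ‖x i - w‖ ≤ 2
    · have e : g i = fun ω => Mk μ (x i - ω) ^ 4 := by
        funext ω
        simp only [hg, if_pos h]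
      rw [e, if_pos h]
      refine ⟨h1, ?_⟩
      rw [h2]
      ring
    · have e : g i = fun _ => 0 := by
        funext ω
        simp only [hg, if_neg h]
      rw [e, if_neg h]
      refine ⟨integrable_zero _ _ _, ?_⟩
      simp
  have hg0 : ∀ i ω, 0 ≤ g i ω := by
    intro i ω
    simp only [hg]
    split_ifs
    · exact pow_nonneg (b19_Mk_nonneg hμ0 _) 4
    · exact le_rfl
  have hsum : Integrable (fun ω => ∑ i, g i ω) := integrable_finsetSum _ fun i _ => (hgi i).1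
  have hone : IntegrableOn (fun _ : E3 => (1 : ℝ)) (Metric.ball w 1) :=
    integrableOn_const measure_ball_lt_top.ne
  have hdom : IntegrableOn (fun ω => K * (1 + (1 + nb w 2 x ^ ((1 : ℝ) / 3)) * ∑ i, g i ω))
      (Metric.ball w 1) :=
    (hone.add (hsum.integrableOn.const_mul (1 + nb w 2 x ^ ((1 : ℝ) / 3)))).const_mul K
  have hmeas : StronglyMeasurable (fun ω => ∫ v : E3, b19_f x μ ω v) :=
    (b19_f_meas x μ).stronglyMeasurable.integral_prod_right'
  have hpt' : ∀ ω ∈ Metric.ball w 1, (∫ v : E3, b19_f x μ ω v) ^ 2 ≤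
      K * (1 + (1 + nb w 2 x ^ ((1 : ℝ) / 3)) * ∑ i, g i ω) := fun ω hω => hpt x w μ hμ ω hω
  have hint4 : IntegrableOn (fun ω => (∫ v : E3, b19_f x μ ω v) ^ 2) (Metric.ball w 1) := by
    refine Integrable.mono' hdom (hmeas.measurable.pow_const 2).aestronglyMeasurable ?_
    refine (ae_restrict_iff' measurableSet_ball).2 (Filter.Eventually.of_forall fun ω hω => ?_)
    rw [Real.norm_eq_abs, abs_of_nonneg (sq_nonneg _)]
    exact hpt' ω hω
  refine ⟨?_, ?_, fun ω => (b19_three x hμ0 ω).1, hint4, ?_⟩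
  · refine (b19_one x w μ hμ).trans ?_
    exact mul_le_mul_of_nonneg_right (div_le_div_of_nonneg_right hC1 hμ0.le) (sq_nonneg _)
  · refine (b19_two x w μ hμ).2.trans (mul_le_mul_of_nonneg_right hC2 ?_)
    have h2 : 0 ≤ ∑ i, ((1 + ‖x i - w‖) ^ 4)⁻¹ := Finset.sum_nonneg fun i _ => by positivity
    positivity
  · change ∫ ω in Metric.ball w 1, (∫ v : E3, b19_f x μ ω v) ^ 2 ≤ _
    refine (setIntegral_mono_on hint4 hdom measurableSet_ball hpt').trans ?_
    rw [integral_const_mul, integral_add hone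
      (hsum.integrableOn.const_mul (1 + nb w 2 x ^ ((1 : ℝ) / 3))), integral_const_mul,
      setIntegral_const, hvol, smul_eq_mul, mul_one]
    have h1 : ∫ ω in Metric.ball w 1, ∑ i, g i ω ≤ c4 * (μ * nb w 2 x) := by
      refine (setIntegral_le_integral hsum (Filter.Eventually.of_forall fun ω =>
        Finset.sum_nonneg fun i _ => hg0 i ω)).trans ?_
      rw [integral_finsetSum _ fun i _ => (hgi i).1]
      simp only [(hgi _).2]
      rw [← Finset.mul_sum, ← Finset.mul_sum]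
      exact le_rfl
    have h2 := mul_le_mul_of_nonneg_left h1
      (show 0 ≤ 1 + nb w 2 x ^ ((1 : ℝ) / 3) by linarith)
    have h3 := b19_nb_pow x w
    have h4 : (1 + nb w 2 x ^ ((1 : ℝ) / 3)) * (c4 * (μ * nb w 2 x)) ≤
        c4 * μ * (2 * nb w 3 x ^ ((4 : ℝ) / 3)) := by
      have h5 := mul_le_mul_of_nonneg_left h3 (show 0 ≤ c4 * μ by positivity)
      calc _ = c4 * μ * (nb w 2 x * (1 + nb w 2 x ^ ((1 : ℝ) / 3))) := by ring
        _ ≤ _ := h5
    have h5 : K * (c3 + (1 + nb w 2 x ^ ((1 : ℝ) / 3)) * ∫ ω in Metric.ball w 1, ∑ i, g i ω) ≤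
        K * (c3 + c4 * μ * (2 * nb w 3 x ^ ((4 : ℝ) / 3))) :=
      mul_le_mul_of_nonneg_left (by linarith) hK.le
    refine h5.trans ?_
    have h6 : 0 ≤ μ * nb w 3 x ^ ((4 : ℝ) / 3) := by positivity
    have h7 := mul_le_mul_of_nonneg_right hC4 h6
    calc K * (c3 + c4 * μ * (2 * nb w 3 x ^ ((4 : ℝ) / 3))) =
        K * c3 + 2 * K * c4 * (μ * nb w 3 x ^ ((4 : ℝ) / 3)) := by ring
      _ ≤ C + C * (μ * nb w 3 x ^ ((4 : ℝ) / 3)) := by linarith
      _ = _ := by ring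

end Pool.Agent.Helper780_CP.RB19
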