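import Pool.Agent.Helper780_CP.LLDefs2
import Pool.Agent.Helper780_CP.BnDefs
import Pool.Agent.Helper780_CP.RVB
import Pool.Agent.Helper780_CP.RB1
import Pool.Agent.Helper780_CP.RB16
import Pool.Agent.Helper780_CP.RB17
import Pool.Agent.Helper780_CP.RB18
import Pool.Agent.Helper780_CP.RB19

set_option autoImplicit false

open MeasureTheory
open scoped Topology

namespace Pool.Agent.Helper780_CP.RB20

open Pool.Agent.Helper780_CP
open Pool.Agent.Helper985.CP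
open Pool.Agent.Helper780_CP.RB1 (kern_facts)
open Pool.Agent.Helper780_CP.RB16 (fl_ext)
open Pool.Agent.Helper780_CP.RB17 (fz_approx)
open Pool.Agent.Helper780_CP.RB18 (smear)
open Pool.Agent.Helper780_CP.RB19 (int_bounds)

open Pool.Agent.Helper780_CP Pool.Agent.Helper985.CP

section law

variable {S : Type} (D : Species S) {I : Type} [Fintype I] [DecidableEq I] {k : ℕ}

/-- law of the positions -/
noncomputable def nu (p : Fin k → ℝ) (ψ : Fin k → Wave D I) : Measure (I → E3) :=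
  ∑ j, ∑ τ, (volume : Measure (I → E3)).withDensity
    (fun x => ((Real.toNNReal (p j * ‖ψ j τ x‖ ^ 2) : NNReal) : ENNReal))

theorem nu_int_iff (p : Fin k → ℝ) (hp : ∀ j, 0 ≤ p j) (ψ : Fin k → Wave D I)
    (hm : ∀ j τ, Measurable (ψ j τ)) (W : (I → E3) → ℝ) :
    Integrable W (nu D p ψ) ↔ ∀ j τ, Integrable (fun x => p j * (W x * ‖ψ j τ x‖ ^ 2)) := by
  unfold nu
  rw [integrable_finsetSum_measure]
  have h1 : ∀ j : Fin k, Integrable W (∑ τ, (volume : Measure (I → E3)).withDensity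
      (fun x => ((Real.toNNReal (p j * ‖ψ j τ x‖ ^ 2) : NNReal) : ENNReal))) ↔
      ∀ τ, Integrable (fun x => p j * (W x * ‖ψ j τ x‖ ^ 2)) := by
    intro j
    rw [integrable_finsetSum_measure]
    have h2 : ∀ τ, Integrable W ((volume : Measure (I → E3)).withDensity
      (fun x => ((Real.toNNReal (p j * ‖ψ j τ x‖ ^ 2) : NNReal) : ENNReal))) ↔
      Integrable (fun x => p j * (W x * ‖ψ j τ x‖ ^ 2)) := by
      intro τ
      have hmm := hm j τ
      rw [integrable_withDensity_iff_integrable_smul (by fun_prop)]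
      refine integrable_congr (Filter.Eventually.of_forall fun x => ?_)
      simp only [NNReal.smul_def, smul_eq_mul]
      rw [Real.coe_toNNReal _ (mul_nonneg (hp j) (sq_nonneg _))]
      ring
    simp [h2]
  simp [h1]

theorem nu_integral (p : Fin k → ℝ) (hp : ∀ j, 0 ≤ p j) (ψ : Fin k → Wave D I)
    (hm : ∀ j τ, Measurable (ψ j τ)) (W : (I → E3) → ℝ) (hW : Integrable W (nu D p ψ)) :
    ∫ x, W x ∂(nu D p ψ) = wx D p ψ W := by
  have h0 := hW
  unfold nu at h0 ⊢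
  rw [integrable_finsetSum_measure] at h0
  rw [integral_finsetSum_measure h0]
  unfold wx wm
  refine Finset.sum_congr rfl fun j _ => ?_
  have h1 := h0 j (Finset.mem_univ j)
  rw [integrable_finsetSum_measure] at h1
  rw [integral_finsetSum_measure h1, Finset.mul_sum]
  refine Finset.sum_congr rfl fun τ _ => ?_
  have hmm := hm j τ
  rw [integral_withDensity_eq_integral_smul (by fun_prop), ← integral_const_mul]
  refine integral_congr_ae (Filter.Eventually.of_forall fun x => ?_)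
  simp only [NNReal.smul_def, smul_eq_mul]
  rw [Real.coe_toNNReal _ (mul_nonneg (hp j) (sq_nonneg _))]
  ring

theorem bs_meas [DecidableEq S] {sp : I → S} {ℓ C0 η : ℝ} {p : Fin k → ℝ}
    {ψ : Fin k → Wave D I} (hB : BS D sp ℓ C0 η p ψ) (j : Fin k) (τ : I → Fin D.g) :
    Measurable (ψ j τ) := ((hB.state j).smooth τ).continuous.measurable

theorem nu_WI [DecidableEq S] {sp : I → S} {ℓ C0 η : ℝ} {p : Fin k → ℝ}
    {ψ : Fin k → Wave D I} (hB : BS D sp ℓ C0 η p ψ) (W : (I → E3) → ℝ) (hW : WI D sp ℓ W) :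
    Integrable W (nu D p ψ) := by
  rw [nu_int_iff D p hB.p0 ψ (bs_meas D hB)]
  intro j τ
  exact (hW (ψ j) (hB.state j) τ).const_mul _

theorem nu_fin [DecidableEq S] {sp : I → S} {ℓ C0 η : ℝ} {p : Fin k → ℝ}
    {ψ : Fin k → Wave D I} (hB : BS D sp ℓ C0 η p ψ) : IsFiniteMeasure (nu D p ψ) := by
  have h := nu_WI D hB (fun _ => 1) (WI_const D sp ℓ 1)
  have h2 := h.hasFiniteIntegral
  rw [hasFiniteIntegral_const_iff] at h2
  rcases h2 with h2 | h2
  · norm_num at h2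
  · exact h2

theorem nu_one [DecidableEq S] {sp : I → S} {ℓ C0 η : ℝ} {p : Fin k → ℝ}
    {ψ : Fin k → Wave D I} (hB : BS D sp ℓ C0 η p ψ) : (nu D p ψ).real Set.univ = 1 := by
  have h := nu_WI D hB (fun _ => 1) (WI_const D sp ℓ 1)
  have h2 := nu_integral D p hB.p0 ψ (bs_meas D hB) _ h
  rw [integral_const, smul_eq_mul, mul_one] at h2
  have h3 : wx D p ψ (fun _ => 1) = ∑ j, p j := by
    unfold wx
    refine Finset.sum_congr rfl fun j _ => ?_
    rw [wm_one, hB.nrm, mul_one]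
  rw [h2, h3, hB.p1]

theorem WI_bdd (sp : I → S) (ℓ : ℝ) (W : (I → E3) → ℝ) (hW : Measurable W) (B : ℝ)
    (hb : ∀ x, |W x| ≤ B) : WI D sp ℓ W := by
  intro Ψ hΨ τ
  exact (int_state D sp ℓ Ψ hΨ τ).1.bdd_mul hW.aestronglyMeasurable
    (Filter.Eventually.of_forall fun x => by rw [Real.norm_eq_abs]; exact hb x)

end law

section elem

theorem ct_nn (w : E3) : 0 ≤ ct w := Real.smoothTransition.nonneg _

theorem ct_le (w : E3) : ct w ≤ 1 := Real.smoothTransition.le_one _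

theorem ct_cont : Continuous ct := by
  unfold ct
  exact Real.smoothTransition.continuous.comp (by fun_prop)

theorem al_cont : Continuous al := by
  unfold al
  exact (ct_cont.comp (by fun_prop)).div_const _

theorem al_zero (w : E3) (hw : 1 / 2 ≤ ‖w‖) : al w = 0 := by
  unfold al ct
  rw [Real.smoothTransition.zero_of_nonpos, zero_div]
  rw [norm_smul, Real.norm_eq_abs, abs_of_pos (by norm_num : (0 : ℝ) < 4)]
  nlinarith [norm_nonneg w]

theorem al_bdd : ∃ Ma : ℝ, 0 ≤ Ma ∧ ∀ w, al w ^ 2 ≤ Ma := by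
  refine ⟨(1 / √(∫ u : E3, ct ((4 : ℝ) • u) ^ 2)) ^ 2, sq_nonneg _, fun w => ?_⟩
  unfold al
  have h1 : 0 ≤ √(∫ u : E3, ct ((4 : ℝ) • u) ^ 2) := Real.sqrt_nonneg _
  refine pow_le_pow_left₀ (div_nonneg (ct_nn _) h1) ?_ 2
  exact div_le_div_of_nonneg_right (ct_le _) h1

theorem hs_nn (s v : ℝ) (hs' : s = 1 ∨ s = -1) : 0 ≤ hs s v := by
  unfold hs
  have h1 : |v| ≤ √(1 + v ^ 2) := by
    rw [← Real.sqrt_sq_eq_abs]
    exact Real.sqrt_le_sqrt (by linarith)
  have h2 := abs_le.1 h1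
  rcases hs' with h | h <;> subst h <;> linarith [h2.1, h2.2]

theorem hs_sq (s v : ℝ) (hs' : s = 1 ∨ s = -1) : hs s v ^ 2 ≤ 4 * (1 + v ^ 2) := by
  unfold hs
  have h1 : √(1 + v ^ 2) ^ 2 = 1 + v ^ 2 := Real.sq_sqrt (by positivity)
  have h3 : s ^ 2 = 1 := by rcases hs' with h | h <;> subst h <;> norm_num
  nlinarith [sq_nonneg (√(1 + v ^ 2) - s * v), mul_pow s v 2]

theorem hs_diff (v : ℝ) : hs 1 v - hs (-1) v = 2 * v := by
  unfold hs
  ring

theorem hs_cont (s : ℝ) : Continuous (hs s) := by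
  unfold hs
  fun_prop

/-- weighted inequality of means -/
theorem young (M θ : ℝ) (hM : 0 ≤ M) (hθ : 0 < θ) : ∃ Cθ : ℝ, 0 ≤ Cθ ∧ ∀ t m : ℝ, 0 ≤ t →
    0 ≤ m → t * (t * (m ^ 3 * M)) ^ ((1 : ℝ) / 4) ≤ θ * t ^ 2 + Cθ * m ^ 2 := by
  set L : ℝ := max 1 (M / θ ^ 4) with hL
  have hL1 : 1 ≤ L := le_max_left _ _
  have hL2 : M ≤ θ ^ 4 * L ^ 3 := by
    have h1 : M / θ ^ 4 ≤ L := le_max_right _ _
    have h2 : L ≤ L ^ 3 := by nlinarith [sq_nonneg L, sq_nonneg (L - 1)]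
    rw [div_le_iff₀ (by positivity)] at h1
    nlinarith [mul_le_mul_of_nonneg_left h2 (by positivity : 0 ≤ θ ^ 4)]
  refine ⟨L * (L * M) ^ ((1 : ℝ) / 4), by positivity, fun t m ht hm => ?_⟩
  have r4 : ∀ a : ℝ, 0 ≤ a → (a ^ 4) ^ ((1 : ℝ) / 4) = a := by
    intro a ha
    rw [← Real.rpow_natCast, ← Real.rpow_mul ha]
    norm_num
  rcases le_or_gt (L * m) t with h | h
  · have h1 : t * (m ^ 3 * M) ≤ (θ * t) ^ 4 := by
      have h2 : m ^ 3 * L ^ 3 ≤ t ^ 3 := by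
        rw [← mul_pow, mul_comm]
        exact pow_le_pow_left₀ (by positivity) h 3
      calc t * (m ^ 3 * M) ≤ t * (m ^ 3 * (θ ^ 4 * L ^ 3)) := by gcongr
        _ = θ ^ 4 * t * (m ^ 3 * L ^ 3) := by ring
        _ ≤ θ ^ 4 * t * t ^ 3 := by gcongr
        _ = (θ * t) ^ 4 := by ring
    have h3 : (t * (m ^ 3 * M)) ^ ((1 : ℝ) / 4) ≤ θ * t := by
      refine (Real.rpow_le_rpow (by positivity) h1 (by norm_num)).trans ?_
      rw [r4 _ (by positivity)]
    calc t * (t * (m ^ 3 * M)) ^ ((1 : ℝ) / 4) ≤ t * (θ * t) := by gcongr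
      _ = θ * t ^ 2 := by ring
      _ ≤ _ := le_add_of_nonneg_right (by positivity)
  · have h1 : t * (m ^ 3 * M) ≤ (L * M) * m ^ 4 := by
      calc t * (m ^ 3 * M) ≤ (L * m) * (m ^ 3 * M) := by gcongr
        _ = (L * M) * m ^ 4 := by ring
    have h3 : (t * (m ^ 3 * M)) ^ ((1 : ℝ) / 4) ≤ (L * M) ^ ((1 : ℝ) / 4) * m := by
      refine (Real.rpow_le_rpow (by positivity) h1 (by norm_num)).trans ?_
      rw [Real.mul_rpow (by positivity) (by positivity), r4 _ hm]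
    calc t * (t * (m ^ 3 * M)) ^ ((1 : ℝ) / 4) ≤ (L * m) * ((L * M) ^ ((1 : ℝ) / 4) * m) := by
          gcongr
      _ = L * (L * M) ^ ((1 : ℝ) / 4) * m ^ 2 := by ring
      _ ≤ _ := le_add_of_nonneg_left (by positivity)

theorem Lk_bd (μ : ℝ) (hμ : 0 ≤ μ) (w : E3) : |Lk μ w| ≤ μ := by
  unfold Lk
  split_ifs with h
  · rw [abs_of_nonneg hμ]
  · have h1 : 0 < ‖w‖ := norm_pos_iff.2 h
    have h2 : Real.exp (-(μ * ‖w‖)) ≤ 1 := by
      rw [Real.exp_le_one_iff]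
      nlinarith [mul_nonneg hμ h1.le]
    rw [abs_of_nonneg (div_nonneg (by linarith) h1.le), div_le_iff₀ h1]
    have := Real.add_one_le_exp (-(μ * ‖w‖))
    linarith

theorem Lk_meas : Measurable (fun q : ℝ × E3 => Lk q.1 q.2) := by
  unfold Lk
  refine Measurable.ite ?_ (by fun_prop) (by fun_prop)
  exact measurableSet_eq_fun (by fun_prop) (by fun_prop)

theorem Mk_nn (μ : ℝ) (hμ : 0 ≤ μ) (w : E3) : 0 ≤ Mk μ w ∧ Mk μ w ≤ μ := by
  unfold Mk
  constructor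
  · positivity
  · rw [div_le_iff₀ (by positivity)]
    nlinarith [mul_nonneg hμ (norm_nonneg w)]

end elem

section det

/-- weights of the smearing -/
noncomputable def Ak (μ : ℝ) (u : E3) : ℝ := μ ^ 3 * al (μ • u) ^ 2

/-- indicator of the support -/
noncomputable def ind (μ : ℝ) (u : E3) : ℝ := if μ * ‖u‖ ≤ 1 / 2 then 1 else 0

/-- shifts -/
def UU : Set E3 := Metric.closedBall (0 : E3) (1 / 2)

noncomputable def DD {I : Type} [Fintype I] (x : I → E3) (μ : ℝ) (ω : E3) : ℝ :=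
  ∑ i, μ * Real.exp (-(μ * ‖x i - ω‖))

noncomputable def M4 {I : Type} [Fintype I] (x : I → E3) (μ : ℝ) (ω : E3) : ℝ :=
  ∑ i, Mk μ (x i - ω) ^ 4

noncomputable def PH {I : Type} [Fintype I] (c : I → ℝ) (x : I → E3) (ω : E3) : ℝ :=
  ∑ i, c i * (1 / ‖x i - ω‖)

noncomputable def XX {I : Type} [Fintype I] (x : I → E3) (μ : ℝ) (ω : E3) : ℝ :=
  ∫ v : E3, μ ^ 3 * al (μ • v) ^ 2 * near2 (ω + v) x

noncomputable def VT {I : Type} [Fintype I] (c : I → ℝ) (x : I → E3) (μ pb : ℝ) (ω : E3) : ℝ :=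
  ∫ v : E3, μ ^ 3 * al (μ • v) ^ 2 * ((∑ i, c i * (1 / ‖x i - (ω + v)‖)) - pb)

noncomputable def F1 {I : Type} [Fintype I] (s : ℝ) (c : I → ℝ) (x : I → E3) (μ pb : ℝ)
    (q : E3 × E3) : ℝ :=
  hs s (vp c x μ pb q.1) * (Ak μ q.2 * (PH c x (q.1 + q.2) - pb))

noncomputable def F3 {I : Type} [Fintype I] (Cf K θ Cθ s : ℝ) (c : I → ℝ) (x : I → E3)
    (μ pb : ℝ) (q : E3 × E3) : ℝ :=
  hs s (vp c x μ pb q.1) * (Ak μ q.2 * (1 + near2 (q.1 + q.2) x)) +
    Cf * (1 + M4 x μ q.1 + DD x μ q.1 ^ 2) * Ak μ q.2 +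
    Cf * K * (1 + |vp c x μ pb q.1|) * ind μ q.2 +
    Ak μ q.2 * (θ * hs s (vp c x μ pb q.1) ^ 2 + Cθ * μ ^ 2) + (1 + Cf * K ^ 2)

theorem UU_meas : MeasurableSet UU := Metric.isClosed_closedBall.measurableSet

theorem UU_fin : volume UU < ⊤ := (isCompact_closedBall (0 : E3) (1 / 2)).measure_lt_top

theorem Ak_cont (μ : ℝ) : Continuous (Ak μ) := by
  unfold Ak
  exact continuous_const.mul ((al_cont.comp (by fun_prop)).pow 2)

theorem Ak_nn (μ : ℝ) (hμ : 0 ≤ μ) (u : E3) : 0 ≤ Ak μ u := by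
  unfold Ak
  positivity

theorem Ak_zero (μ : ℝ) (hμ : 2 ≤ μ) (u : E3) (hu : u ∉ UU) : Ak μ u = 0 := by
  unfold Ak
  rw [al_zero, zero_pow two_ne_zero, mul_zero]
  have h1 : 1 / 2 < ‖u‖ := by
    simpa [UU] using hu
  rw [norm_smul, Real.norm_eq_abs, abs_of_nonneg (by linarith)]
  nlinarith

theorem Ak_int (μ : ℝ) (hμ : 2 ≤ μ) : ∫ u in UU, Ak μ u = ∫ u : E3, al u ^ 2 := by
  rw [setIntegral_eq_integral_of_forall_compl_eq_zero (fun u hu => Ak_zero μ hμ u hu)]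
  unfold Ak
  rw [integral_const_mul, Measure.integral_comp_smul_of_nonneg volume (fun u => al u ^ 2) μ
    (hR := by linarith)]
  simp only [finrank_euclideanSpace, Fintype.card_fin, smul_eq_mul]
  rw [← mul_assoc, mul_inv_cancel₀ (by positivity), one_mul]

theorem Ak_on (μ : ℝ) : IntegrableOn (Ak μ) UU :=
  ((Ak_cont μ).continuousOn).integrableOn_compact (isCompact_closedBall _ _)

theorem ind_meas (μ : ℝ) : Measurable (ind μ) := by
  unfold ind
  exact Measurable.ite (measurableSet_le (by fun_prop) measurable_const) measurable_const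
    measurable_const

theorem ind_01 (μ : ℝ) (u : E3) : 0 ≤ ind μ u ∧ ind μ u ≤ 1 := by
  unfold ind
  split_ifs <;> norm_num

theorem ind_on (μ : ℝ) : IntegrableOn (ind μ) UU := by
  have : IsFiniteMeasure (volume.restrict UU) := ⟨by simpa using UU_fin⟩
  refine Integrable.of_bound (ind_meas μ).aestronglyMeasurable 1 ?_
  refine Filter.Eventually.of_forall fun u => ?_
  rw [Real.norm_eq_abs, abs_of_nonneg (ind_01 μ u).1]
  exact (ind_01 μ u).2

theorem ind_int (μ : ℝ) (hμ : 2 ≤ μ) : ∫ u in UU, ind μ u ≤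
    volume.real (Metric.ball (0 : E3) 1) / μ ^ 3 := by
  have e : ∀ u, ind μ u = (Metric.closedBall (0 : E3) (1 / (2 * μ))).indicator (fun _ => (1 : ℝ)) u := by
    intro u
    unfold ind
    by_cases h : μ * ‖u‖ ≤ 1 / 2
    · rw [if_pos h, Set.indicator_of_mem]
      rw [mem_closedBall_zero_iff, le_div_iff₀ (by linarith)]
      linarith
    · rw [if_neg h, Set.indicator_of_notMem]
      rw [mem_closedBall_zero_iff, le_div_iff₀ (by linarith)]
      intro h2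
      apply h
      linarith
  have h1 : ∫ u in UU, ind μ u ≤ ∫ u, ind μ u := by
    refine setIntegral_le_integral ?_ (Filter.Eventually.of_forall fun u => (ind_01 μ u).1)
    have : ind μ = (Metric.closedBall (0 : E3) (1 / (2 * μ))).indicator (fun _ => (1 : ℝ)) := by
      funext u
      exact e u
    rw [this, integrable_indicator_iff Metric.isClosed_closedBall.measurableSet]
    exact integrableOn_const (isCompact_closedBall _ _).measure_lt_top.ne
  refine h1.trans ?_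
  simp_rw [e]
  rw [integral_indicator_const _ Metric.isClosed_closedBall.measurableSet, smul_eq_mul, mul_one]
  have h2 : volume.real (Metric.closedBall (0 : E3) (1 / (2 * μ))) =
      (1 / (2 * μ)) ^ 3 * volume.real (Metric.ball (0 : E3) 1) := by
    have h3 := Measure.addHaar_closedBall (volume : Measure E3) 0
      (r := 1 / (2 * μ)) (by positivity)
    rw [Measure.real, h3, ENNReal.toReal_mul, ENNReal.toReal_ofReal (by positivity)]
    simp [Measure.real]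
  rw [h2]
  have h4 : (0 : ℝ) ≤ volume.real (Metric.ball (0 : E3) 1) := measureReal_nonneg
  have h5 : (1 / (2 * μ)) ^ 3 ≤ 1 / μ ^ 3 := by
    rw [div_pow, one_pow]
    apply one_div_le_one_div_of_le (by positivity)
    rw [mul_pow]
    nlinarith [pow_pos (by linarith : (0 : ℝ) < μ) 3]
  calc (1 / (2 * μ)) ^ 3 * volume.real (Metric.ball (0 : E3) 1)
      ≤ 1 / μ ^ 3 * volume.real (Metric.ball (0 : E3) 1) := by gcongr
    _ = _ := by ring

end det

section det2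

theorem DD_bd {I : Type} [Fintype I] (x : I → E3) (μ : ℝ) (hμ : 0 ≤ μ) (ω : E3) :
    0 ≤ DD x μ ω ∧ DD x μ ω ≤ Fintype.card I * μ := by
  unfold DD
  constructor
  · positivity
  · calc ∑ i, μ * Real.exp (-(μ * ‖x i - ω‖)) ≤ ∑ _i : I, μ := by
          refine Finset.sum_le_sum fun i _ => ?_
          have : Real.exp (-(μ * ‖x i - ω‖)) ≤ 1 := by
            rw [Real.exp_le_one_iff]
            nlinarith [mul_nonneg hμ (norm_nonneg (x i - ω))]
          nlinarith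
      _ = Fintype.card I * μ := by simp

theorem M4_bd {I : Type} [Fintype I] (x : I → E3) (μ : ℝ) (hμ : 0 ≤ μ) (ω : E3) :
    0 ≤ M4 x μ ω ∧ M4 x μ ω ≤ Fintype.card I * μ ^ 4 := by
  unfold M4
  constructor
  · exact Finset.sum_nonneg fun i _ => pow_nonneg (Mk_nn μ hμ _).1 4
  · calc ∑ i, Mk μ (x i - ω) ^ 4 ≤ ∑ _i : I, μ ^ 4 :=
          Finset.sum_le_sum fun i _ => pow_le_pow_left₀ (Mk_nn μ hμ _).1 (Mk_nn μ hμ _).2 4
      _ = Fintype.card I * μ ^ 4 := by simp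

theorem vp_bd {I : Type} [Fintype I] (c : I → ℝ) (x : I → E3) (z μ pb : ℝ) (hz : ∀ i, |c i| ≤ z)
    (hμ : 0 ≤ μ) (ω : E3) : |vp c x μ pb ω| ≤ Fintype.card I * (z * μ) + |pb| := by
  unfold vp
  refine (abs_sub _ _).trans (add_le_add ?_ le_rfl)
  refine (Finset.abs_sum_le_sum_abs _ _).trans ?_
  calc ∑ i, |c i * Lk μ (x i - ω)| ≤ ∑ _i : I, z * μ := by
        refine Finset.sum_le_sum fun i _ => ?_
        rw [abs_mul]
        exact mul_le_mul (hz i) (Lk_bd μ hμ _) (abs_nonneg _) ((abs_nonneg _).trans (hz i))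
    _ = Fintype.card I * (z * μ) := by simp

theorem hs_le (s v : ℝ) (hs' : s = 1 ∨ s = -1) : hs s v ≤ 2 * (1 + |v|) := by
  have h1 := hs_sq s v hs'
  have h2 : hs s v ^ 2 ≤ (2 * (1 + |v|)) ^ 2 := by
    refine h1.trans ?_
    have := sq_abs v
    nlinarith [abs_nonneg v]
  exact le_of_sq_le_sq h2 (by positivity) |>.trans le_rfl

theorem PH_bd {I : Type} [Fintype I] (c : I → ℝ) (x : I → E3) (z : ℝ) (hz : ∀ i, |c i| ≤ z)
    (ω : E3) : |PH c x ω| ≤ Fintype.card I * (z * (1 + near2 ω x)) := by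
  unfold PH
  refine (Finset.abs_sum_le_sum_abs _ _).trans ?_
  calc ∑ i, |c i * (1 / ‖x i - ω‖)| ≤ ∑ _i : I, z * (1 + near2 ω x) := by
        refine Finset.sum_le_sum fun i _ => ?_
        rw [abs_mul]
        refine mul_le_mul (hz i) ?_ (abs_nonneg _) ((abs_nonneg _).trans (hz i))
        rw [abs_of_nonneg (by positivity), one_div]
        have h1 := le_near2 ω x i
        nlinarith [sq_nonneg (‖x i - ω‖⁻¹ - 1)]
    _ = Fintype.card I * (z * (1 + near2 ω x)) := by simp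

end det2

section dom

theorem dom1 {I : Type} [Fintype I] (z Mm Pm : ℝ) (hz0 : 0 ≤ z) (hM0 : 0 ≤ Mm) (hP0 : 0 ≤ Pm) :
    ∃ B : ℝ, 0 ≤ B ∧ ∀ (c : I → ℝ) (x : I → E3) (μ pb s : ℝ) (q : E3 × E3),
      (∀ i, |c i| ≤ z) → 2 ≤ μ → μ ≤ Mm → |pb| ≤ Pm → (s = 1 ∨ s = -1) →
      |F1 s c x μ pb q| ≤ B * (1 + Ak μ q.2 * near2 (q.1 + q.2) x) := by
  obtain ⟨Ma, hMa, hal⟩ := al_bdd
  set N : ℝ := (Fintype.card I : ℝ) with hN
  have hN0 : 0 ≤ N := by positivity
  set Vm : ℝ := N * (z * Mm) + Pm with hVm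
  have hVm0 : 0 ≤ Vm := by positivity
  set Am : ℝ := Mm ^ 3 * Ma with hAm
  have hAm0 : 0 ≤ Am := by positivity
  refine ⟨2 * (1 + Vm) * (N * z + Pm) * (1 + Am), by positivity, ?_⟩
  intro c x μ pb s q hz hμ hμM hpb hs'
  have hμ0 : 0 ≤ μ := by linarith
  have hv : |vp c x μ pb q.1| ≤ Vm := by
    refine (vp_bd c x z μ pb hz hμ0 q.1).trans ?_
    rw [hVm]
    gcongr
  have hh : hs s (vp c x μ pb q.1) ≤ 2 * (1 + Vm) := by
    refine (hs_le s _ hs').trans ?_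
    gcongr
  have hh0 := hs_nn s (vp c x μ pb q.1) hs'
  have hA0 := Ak_nn μ hμ0 q.2
  have hA : Ak μ q.2 ≤ Am := by
    unfold Ak
    rw [hAm]
    exact mul_le_mul (pow_le_pow_left₀ hμ0 hμM 3) (hal _) (sq_nonneg _) (by positivity)
  have hn := near2_nonneg (q.1 + q.2) x
  have hph := PH_bd c x z hz (q.1 + q.2)
  have h1 : |PH c x (q.1 + q.2) - pb| ≤ (N * z + Pm) * (1 + near2 (q.1 + q.2) x) := by
    refine (abs_sub _ _).trans ?_
    have : Pm ≤ Pm * (1 + near2 (q.1 + q.2) x) := by nlinarith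
    calc |PH c x (q.1 + q.2)| + |pb| ≤ N * (z * (1 + near2 (q.1 + q.2) x)) + Pm :=
          add_le_add hph hpb
      _ ≤ _ := by nlinarith
  unfold F1
  rw [abs_mul, abs_mul, abs_of_nonneg hh0, abs_of_nonneg hA0]
  calc hs s (vp c x μ pb q.1) * (Ak μ q.2 * |PH c x (q.1 + q.2) - pb|)
      ≤ 2 * (1 + Vm) * (Ak μ q.2 * ((N * z + Pm) * (1 + near2 (q.1 + q.2) x))) := by gcongr
    _ = 2 * (1 + Vm) * (N * z + Pm) * (Ak μ q.2 * 1 + Ak μ q.2 * near2 (q.1 + q.2) x) := by ring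
    _ ≤ 2 * (1 + Vm) * (N * z + Pm) * ((1 + Am) * (1 + Ak μ q.2 * near2 (q.1 + q.2) x)) := by
        refine mul_le_mul_of_nonneg_left ?_ (by positivity)
        nlinarith [mul_nonneg hA0 hn, mul_nonneg hAm0 (mul_nonneg hA0 hn)]
    _ = _ := by ring

theorem dom3 {I : Type} [Fintype I] (z Mm Pm Cf K θ Cθ : ℝ) (hz0 : 0 ≤ z) (hM0 : 0 ≤ Mm)
    (hP0 : 0 ≤ Pm) (hCf : 0 ≤ Cf) (hK : 0 ≤ K) (hθ : 0 ≤ θ) (hCθ : 0 ≤ Cθ) :
    ∃ B : ℝ, 0 ≤ B ∧ ∀ (c : I → ℝ) (x : I → E3) (μ pb s : ℝ) (q : E3 × E3),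
      (∀ i, |c i| ≤ z) → 2 ≤ μ → μ ≤ Mm → |pb| ≤ Pm → (s = 1 ∨ s = -1) →
      0 ≤ F3 Cf K θ Cθ s c x μ pb q ∧
      |F3 Cf K θ Cθ s c x μ pb q| ≤ B * (1 + Ak μ q.2 * near2 (q.1 + q.2) x) := by
  obtain ⟨Ma, hMa, hal⟩ := al_bdd
  set N : ℝ := (Fintype.card I : ℝ) with hN
  have hN0 : 0 ≤ N := by positivity
  set Vm : ℝ := N * (z * Mm) + Pm with hVm
  have hVm0 : 0 ≤ Vm := by positivity
  set Am : ℝ := Mm ^ 3 * Ma with hAm
  have hAm0 : 0 ≤ Am := by positivity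
  set H : ℝ := 2 * (1 + Vm) with hH
  have hH0 : 0 ≤ H := by positivity
  refine ⟨H * (1 + Am) + Cf * (1 + N * Mm ^ 4 + (N * Mm) ^ 2) * Am + Cf * K * (1 + Vm) +
    Am * (θ * H ^ 2 + Cθ * Mm ^ 2) + (1 + Cf * K ^ 2), by positivity, ?_⟩
  intro c x μ pb s q hz hμ hμM hpb hs'
  have hμ0 : 0 ≤ μ := by linarith
  have hv : |vp c x μ pb q.1| ≤ Vm := by
    refine (vp_bd c x z μ pb hz hμ0 q.1).trans ?_
    rw [hVm]
    gcongr
  have hh : hs s (vp c x μ pb q.1) ≤ H := by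
    refine (hs_le s _ hs').trans ?_
    rw [hH]
    gcongr
  have hh0 := hs_nn s (vp c x μ pb q.1) hs'
  have hA0 := Ak_nn μ hμ0 q.2
  have hA : Ak μ q.2 ≤ Am := by
    unfold Ak
    rw [hAm]
    exact mul_le_mul (pow_le_pow_left₀ hμ0 hμM 3) (hal _) (sq_nonneg _) (by positivity)
  have hn := near2_nonneg (q.1 + q.2) x
  have hD := DD_bd x μ hμ0 q.1
  have hD2 : DD x μ q.1 ≤ N * Mm := hD.2.trans (by gcongr)
  have hM := M4_bd x μ hμ0 q.1
  have hM2 : M4 x μ q.1 ≤ N * Mm ^ 4 := hM.2.trans (by gcongr)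
  have hi := ind_01 μ q.2
  have hD0 := hD.1
  have hM0' := hM.1
  have hi0 := hi.1
  have hi1 := hi.2
  have hAn := mul_nonneg hA0 hn
  have hnn : 0 ≤ F3 Cf K θ Cθ s c x μ pb q := by
    unfold F3
    positivity
  refine ⟨hnn, ?_⟩
  rw [abs_of_nonneg hnn]
  set Y : ℝ := 1 + Ak μ q.2 * near2 (q.1 + q.2) x with hY
  have hY1 : 1 ≤ Y := by rw [hY]; linarith
  have t1 : hs s (vp c x μ pb q.1) * (Ak μ q.2 * (1 + near2 (q.1 + q.2) x)) ≤
      H * (1 + Am) * Y := by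
    calc hs s (vp c x μ pb q.1) * (Ak μ q.2 * (1 + near2 (q.1 + q.2) x))
        ≤ H * (Ak μ q.2 * (1 + near2 (q.1 + q.2) x)) := by gcongr
      _ ≤ H * ((1 + Am) * Y) := by
          refine mul_le_mul_of_nonneg_left ?_ hH0
          rw [hY]
          nlinarith [mul_nonneg hA0 hn, mul_nonneg hAm0 (mul_nonneg hA0 hn)]
      _ = _ := by ring
  have t2 : Cf * (1 + M4 x μ q.1 + DD x μ q.1 ^ 2) * Ak μ q.2 ≤
      Cf * (1 + N * Mm ^ 4 + (N * Mm) ^ 2) * Am * Y := by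
    calc Cf * (1 + M4 x μ q.1 + DD x μ q.1 ^ 2) * Ak μ q.2
        ≤ Cf * (1 + N * Mm ^ 4 + (N * Mm) ^ 2) * Am := by gcongr
      _ = Cf * (1 + N * Mm ^ 4 + (N * Mm) ^ 2) * Am * 1 := by ring
      _ ≤ _ := by gcongr
  have t3 : Cf * K * (1 + |vp c x μ pb q.1|) * ind μ q.2 ≤ Cf * K * (1 + Vm) * Y := by
    calc Cf * K * (1 + |vp c x μ pb q.1|) * ind μ q.2
        ≤ Cf * K * (1 + Vm) * 1 := by gcongr
      _ ≤ _ := by gcongr
  have t4 : Ak μ q.2 * (θ * hs s (vp c x μ pb q.1) ^ 2 + Cθ * μ ^ 2) ≤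
      Am * (θ * H ^ 2 + Cθ * Mm ^ 2) * Y := by
    calc Ak μ q.2 * (θ * hs s (vp c x μ pb q.1) ^ 2 + Cθ * μ ^ 2)
        ≤ Am * (θ * H ^ 2 + Cθ * Mm ^ 2) := by gcongr
      _ = Am * (θ * H ^ 2 + Cθ * Mm ^ 2) * 1 := by ring
      _ ≤ _ := by gcongr
  have t5 : (1 + Cf * K ^ 2) ≤ (1 + Cf * K ^ 2) * Y := by
    calc (1 + Cf * K ^ 2) = (1 + Cf * K ^ 2) * 1 := by ring
      _ ≤ _ := by gcongr
  unfold F3
  calc _ ≤ H * (1 + Am) * Y + Cf * (1 + N * Mm ^ 4 + (N * Mm) ^ 2) * Am * Y +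
        Cf * K * (1 + Vm) * Y + Am * (θ * H ^ 2 + Cθ * Mm ^ 2) * Y + (1 + Cf * K ^ 2) * Y := by
        exact add_le_add (add_le_add (add_le_add (add_le_add t1 t2) t3) t4) t5
    _ = _ := by ring

end dom

section meas

variable {T : Type} [MeasurableSpace T] {I : Type} [Fintype I]

theorem m_near2 {X : T → I → E3} {Q : T → E3} (hX : Measurable X) (hQ : Measurable Q) :
    Measurable (fun t => near2 (Q t) (X t)) := by
  unfold near2
  have h : ∀ i, Measurable (fun t => X t i) := fun i => (measurable_pi_apply i).comp hX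
  refine Measurable.iSup fun i => ?_
  have hi := h i
  fun_prop

theorem m_vp (c : I → ℝ) {X : T → I → E3} {Q : T → E3} {M P : T → ℝ} (hX : Measurable X)
    (hQ : Measurable Q) (hM : Measurable M) (hP : Measurable P) :
    Measurable (fun t => vp c (X t) (M t) (P t) (Q t)) := by
  unfold vp
  have h : ∀ i, Measurable (fun t => X t i) := fun i => (measurable_pi_apply i).comp hX
  refine Measurable.sub ?_ hP
  refine Finset.measurable_sum _ fun i _ => ?_
  exact (Lk_meas.comp (hM.prodMk ((h i).sub hQ))).const_mul _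

theorem m_DD {X : T → I → E3} {Q : T → E3} {M : T → ℝ} (hX : Measurable X)
    (hQ : Measurable Q) (hM : Measurable M) :
    Measurable (fun t => DD (X t) (M t) (Q t)) := by
  unfold DD
  have h : ∀ i, Measurable (fun t => X t i) := fun i => (measurable_pi_apply i).comp hX
  refine Finset.measurable_sum _ fun i _ => ?_
  have hi := h i
  fun_prop

theorem m_M4 {X : T → I → E3} {Q : T → E3} {M : T → ℝ} (hX : Measurable X)
    (hQ : Measurable Q) (hM : Measurable M) :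
    Measurable (fun t => M4 (X t) (M t) (Q t)) := by
  unfold M4 Mk
  have h : ∀ i, Measurable (fun t => X t i) := fun i => (measurable_pi_apply i).comp hX
  refine Finset.measurable_sum _ fun i _ => ?_
  have hi := h i
  fun_prop

theorem m_PH (c : I → ℝ) {X : T → I → E3} {Q : T → E3} (hX : Measurable X)
    (hQ : Measurable Q) : Measurable (fun t => PH c (X t) (Q t)) := by
  unfold PH
  have h : ∀ i, Measurable (fun t => X t i) := fun i => (measurable_pi_apply i).comp hX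
  refine Finset.measurable_sum _ fun i _ => ?_
  have hi := h i
  fun_prop

theorem m_Ak {Q : T → E3} {M : T → ℝ} (hQ : Measurable Q) (hM : Measurable M) :
    Measurable (fun t => Ak (M t) (Q t)) := by
  unfold Ak
  exact (hM.pow_const 3).mul ((al_cont.measurable.comp (hM.smul hQ)).pow_const 2)

theorem m_ind {Q : T → E3} {M : T → ℝ} (hQ : Measurable Q) (hM : Measurable M) :
    Measurable (fun t => ind (M t) (Q t)) := by
  unfold ind
  exact Measurable.ite (measurableSet_le (by fun_prop) measurable_const) measurable_const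
    measurable_const

theorem m_F1 (s : ℝ) (c : I → ℝ) {X : T → I → E3} {Q : T → E3 × E3} {M P : T → ℝ}
    (hX : Measurable X) (hQ : Measurable Q) (hM : Measurable M) (hP : Measurable P) :
    Measurable (fun t => F1 s c (X t) (M t) (P t) (Q t)) := by
  unfold F1
  have h1 := m_vp c hX (measurable_fst.comp hQ) hM hP
  have h2 := m_PH c hX ((measurable_fst.comp hQ).add (measurable_snd.comp hQ))
  have h3 := m_Ak (measurable_snd.comp hQ) hM
  exact ((hs_cont s).measurable.comp h1).mul (h3.mul (h2.sub hP))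

theorem m_F3 (Cf K θ Cθ s : ℝ) (c : I → ℝ) {X : T → I → E3} {Q : T → E3 × E3} {M P : T → ℝ}
    (hX : Measurable X) (hQ : Measurable Q) (hM : Measurable M) (hP : Measurable P) :
    Measurable (fun t => F3 Cf K θ Cθ s c (X t) (M t) (P t) (Q t)) := by
  unfold F3
  have h1 := m_vp c hX (measurable_fst.comp hQ) hM hP
  have h2 := m_near2 hX ((measurable_fst.comp hQ).add (measurable_snd.comp hQ))
  have h3 := m_Ak (measurable_snd.comp hQ) hM
  have h4 := m_ind (measurable_snd.comp hQ) hM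
  have h5 := m_DD hX (measurable_fst.comp hQ) hM
  have h6 := m_M4 hX (measurable_fst.comp hQ) hM
  have h7 := (hs_cont s).measurable.comp h1
  simp only [Function.comp_def] at h1 h2 h3 h4 h5 h6 h7
  refine Measurable.add (Measurable.add (Measurable.add (Measurable.add ?_ ?_) ?_) ?_) ?_
  · exact h7.mul (h3.mul (h2.const_add 1))
  · exact ((h6.const_add 1).add (h5.pow_const 2)).const_mul Cf |>.mul h3
  · exact (((_root_.continuous_abs.measurable.comp h1).const_add 1).const_mul (Cf * K)).mul h4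
  · exact h3.mul (((h7.pow_const 2).const_mul θ).add ((hM.pow_const 2).const_mul Cθ))
  · exact measurable_const

end meas

section prodint

/-- the measure of the centres and shifts -/
noncomputable def PP (w : E3) : Measure (E3 × E3) :=
  (volume.restrict (Metric.ball w 1)).prod (volume.restrict UU)

instance : IsFiniteMeasure ((volume : Measure E3).restrict UU) := ⟨by simpa using UU_fin⟩

instance (w : E3) : IsFiniteMeasure ((volume : Measure E3).restrict (Metric.ball w 1)) :=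
  ⟨by simp [measure_ball_lt_top]⟩

instance (w : E3) : IsFiniteMeasure (PP w) := by
  unfold PP
  infer_instance

theorem PP_ae (w : E3) : ∀ᵐ q ∂(PP w), q.1 ∈ Metric.ball w 1 ∧ q.2 ∈ UU := by
  unfold PP
  rw [Measure.prod_restrict]
  filter_upwards [ae_restrict_mem (Metric.isOpen_ball.measurableSet.prod UU_meas)] with q hq
  exact hq

/-- for a fixed configuration the singular weight is integrable -/
theorem An_int {I : Type} [Fintype I] (x : I → E3) (w : E3) (μ : ℝ) (hμ : 2 ≤ μ)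
    (h1 : ∀ ω, Integrable (fun v : E3 => μ ^ 3 * al (μ • v) ^ 2 * near2 (ω + v) x))
    (h2 : IntegrableOn (fun ω => (∫ v : E3, μ ^ 3 * al (μ • v) ^ 2 * near2 (ω + v) x) ^ 2)
        (Metric.ball w 1)) :
    Integrable (fun q : E3 × E3 => Ak μ q.2 * near2 (q.1 + q.2) x) (PP w) ∧
    ∫ q, Ak μ q.2 * near2 (q.1 + q.2) x ∂(PP w) = ∫ ω in Metric.ball w 1, XX x μ ω := by
  have hm : Measurable (fun q : E3 × E3 => Ak μ q.2 * near2 (q.1 + q.2) x) :=
    (m_Ak measurable_snd measurable_const).mul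
      (m_near2 measurable_const (measurable_fst.add measurable_snd))
  have hμ0 : 0 ≤ μ := by linarith
  have hnn : ∀ q : E3 × E3, 0 ≤ Ak μ q.2 * near2 (q.1 + q.2) x := fun q =>
    mul_nonneg (Ak_nn μ hμ0 _) (near2_nonneg _ _)
  have e1 : ∀ ω : E3, ∫ u in UU, Ak μ u * near2 (ω + u) x = XX x μ ω := by
    intro ω
    unfold XX
    rw [setIntegral_eq_integral_of_forall_compl_eq_zero]
    · rfl
    · intro u hu
      rw [Ak_zero μ hμ u hu, zero_mul]
  have hXm : AEStronglyMeasurable (XX x μ) (volume.restrict (Metric.ball w 1)) := by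
    have h3 : StronglyMeasurable (fun ω : E3 => ∫ u in UU, Ak μ u * near2 (ω + u) x) :=
      StronglyMeasurable.integral_prod_right (f := fun ω u => Ak μ u * near2 (ω + u) x)
        hm.stronglyMeasurable
    simp_rw [e1] at h3
    exact h3.aestronglyMeasurable
  have hX : Integrable (XX x μ) (volume.restrict (Metric.ball w 1)) := by
    refine ((integrable_const (1 : ℝ)).add h2).mono' hXm ?_
    refine Filter.Eventually.of_forall fun ω => ?_
    rw [Real.norm_eq_abs]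
    simp only [Pi.add_apply]
    change |XX x μ ω| ≤ 1 + (XX x μ ω) ^ 2
    nlinarith [sq_abs (XX x μ ω), sq_nonneg (|XX x μ ω| - 1)]
  have hint : Integrable (fun q : E3 × E3 => Ak μ q.2 * near2 (q.1 + q.2) x) (PP w) := by
    unfold PP
    rw [integrable_prod_iff hm.aestronglyMeasurable]
    constructor
    · refine Filter.Eventually.of_forall fun ω => ?_
      exact (h1 ω).restrict
    · refine hX.congr (Filter.Eventually.of_forall fun ω => ?_)
      simp only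
      rw [← e1]
      refine integral_congr_ae (Filter.Eventually.of_forall fun u => ?_)
      simp only
      rw [Real.norm_of_nonneg (hnn (ω, u))]
  refine ⟨hint, ?_⟩
  unfold PP at hint ⊢
  rw [integral_prod _ hint]
  exact integral_congr_ae (Filter.Eventually.of_forall fun ω => e1 ω)

end prodint

section uint

noncomputable def ca : ℝ := ∫ u : E3, al u ^ 2

noncomputable def cb : ℝ := volume.real (Metric.ball (0 : E3) 1)

noncomputable def cu : ℝ := volume.real UU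

theorem ca_nn : 0 ≤ ca := integral_nonneg fun _ => sq_nonneg _

theorem cb_nn : 0 ≤ cb := measureReal_nonneg

theorem cu_nn : 0 ≤ cu := measureReal_nonneg

theorem int4 (f1 f2 f3 : E3 → ℝ) (a b d g : ℝ) (h1 : IntegrableOn f1 UU)
    (h2 : IntegrableOn f2 UU) (h3 : IntegrableOn f3 UU) :
    ∫ u in UU, (a * f1 u + b * f2 u + d * f3 u + g) =
      a * (∫ u in UU, f1 u) + b * (∫ u in UU, f2 u) + d * (∫ u in UU, f3 u) + g * cu := by
  have i1 : Integrable (fun u => a * f1 u) (volume.restrict UU) := h1.const_mul a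
  have i2 : Integrable (fun u => b * f2 u) (volume.restrict UU) := h2.const_mul b
  have i3 : Integrable (fun u => d * f3 u) (volume.restrict UU) := h3.const_mul d
  have i4 : Integrable (fun _ : E3 => g) (volume.restrict UU) := integrable_const g
  have j1 := integral_add ((i1.add i2).add i3) i4
  have j2 := integral_add (i1.add i2) i3
  have j3 := integral_add i1 i2
  simp only [Pi.add_apply] at j1 j2 j3
  rw [j1, j2, j3, integral_const_mul, integral_const_mul, integral_const_mul, integral_const]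
  unfold cu
  simp only [smul_eq_mul, measureReal_restrict_apply_univ]
  ring

theorem F3_u {I : Type} [Fintype I] (Cf K θ Cθ s : ℝ) (c : I → ℝ) (x : I → E3) (μ pb : ℝ)
    (ω : E3) (hμ : 2 ≤ μ)
    (hX : Integrable (fun v : E3 => μ ^ 3 * al (μ • v) ^ 2 * near2 (ω + v) x)) :
    ∫ u in UU, F3 Cf K θ Cθ s c x μ pb (ω, u) =
      hs s (vp c x μ pb ω) * (ca + XX x μ ω) + Cf * (1 + M4 x μ ω + DD x μ ω ^ 2) * ca +
      Cf * K * (1 + |vp c x μ pb ω|) * (∫ u in UU, ind μ u) +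
      ca * (θ * hs s (vp c x μ pb ω) ^ 2 + Cθ * μ ^ 2) + (1 + Cf * K ^ 2) * cu := by
  have e1 : ∫ u in UU, Ak μ u * near2 (ω + u) x = XX x μ ω := by
    unfold XX
    rw [setIntegral_eq_integral_of_forall_compl_eq_zero]
    · rfl
    · intro u hu
      rw [Ak_zero μ hμ u hu, zero_mul]
  have h2 : IntegrableOn (fun u => Ak μ u * near2 (ω + u) x) UU := hX.integrableOn
  have h3 := int4 (Ak μ) (fun u => Ak μ u * near2 (ω + u) x) (ind μ)
    (hs s (vp c x μ pb ω) + Cf * (1 + M4 x μ ω + DD x μ ω ^ 2) +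
      (θ * hs s (vp c x μ pb ω) ^ 2 + Cθ * μ ^ 2)) (hs s (vp c x μ pb ω))
    (Cf * K * (1 + |vp c x μ pb ω|)) (1 + Cf * K ^ 2) (Ak_on μ) h2 (ind_on μ)
  rw [Ak_int μ hμ, e1] at h3
  have h4 : ∫ u in UU, F3 Cf K θ Cθ s c x μ pb (ω, u) = ∫ u in UU,
      ((hs s (vp c x μ pb ω) + Cf * (1 + M4 x μ ω + DD x μ ω ^ 2) +
      (θ * hs s (vp c x μ pb ω) ^ 2 + Cθ * μ ^ 2)) * Ak μ u + hs s (vp c x μ pb ω) *
        (Ak μ u * near2 (ω + u) x) + (Cf * K * (1 + |vp c x μ pb ω|)) * ind μ u +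
        (1 + Cf * K ^ 2)) := by
    refine integral_congr_ae (Filter.Eventually.of_forall fun u => ?_)
    simp only [F3]
    ring
  rw [h4, h3]
  unfold ca
  ring

theorem F3_le (Cf θ Cθ : ℝ) (hCf : 0 ≤ Cf) (hθ : 0 < θ) (hCθ : 0 ≤ Cθ) :
    ∃ L : ℝ, 0 ≤ L ∧ ∀ {I : Type} [Fintype I] (K s : ℝ) (c : I → ℝ) (x : I → E3) (μ pb : ℝ)
      (ω : E3), 2 ≤ μ → 0 ≤ K → K ≤ μ ^ 3 → (s = 1 ∨ s = -1) →
      Integrable (fun v : E3 => μ ^ 3 * al (μ • v) ^ 2 * near2 (ω + v) x) →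
      ∫ u in UU, F3 Cf K θ Cθ s c x μ pb (ω, u) ≤
        θ * (4 + 4 * ca + Cf * cb) * vp c x μ pb ω ^ 2 +
        L * (1 + K ^ 2 + μ ^ 2 + M4 x μ ω + DD x μ ω ^ 2 + XX x μ ω ^ 2) := by
  have hca := ca_nn
  have hcb := cb_nn
  have hcu := cu_nn
  refine ⟨4 * θ + ca ^ 2 / (2 * θ) + 1 / (2 * θ) + Cf * ca + 4 * ca * θ + ca * Cθ +
    Cf * cb * (1 + 1 / (4 * θ)) + (1 + Cf) * cu, by positivity, ?_⟩
  intro I _ K s c x μ pb ω hμ hK hKμ hs' hX
  have hμ0 : 0 < μ := by linarith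
  rw [F3_u Cf K θ Cθ s c x μ pb ω hμ hX]
  set v := vp c x μ pb ω with hv
  set t := hs s v with ht
  set X := XX x μ ω with hXX
  set m4 := M4 x μ ω with hm4
  set d := DD x μ ω with hd
  have hm0 : 0 ≤ m4 := (M4_bd x μ hμ0.le ω).1
  have ht0 : 0 ≤ t := hs_nn s v hs'
  have ht2 : t ^ 2 ≤ 4 * (1 + v ^ 2) := hs_sq s v hs'
  set Y := 1 + K ^ 2 + μ ^ 2 + m4 + d ^ 2 + X ^ 2 with hY
  have hK2 := sq_nonneg K
  have hμ2 := sq_nonneg μ
  have hd2 := sq_nonneg d
  have hX2 := sq_nonneg X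
  have hY1 : 1 ≤ Y := by rw [hY]; linarith
  have hind := ind_int μ hμ
  have hind0 : 0 ≤ ∫ u in UU, ind μ u := integral_nonneg fun u => (ind_01 μ u).1
  have hKb : K * (∫ u in UU, ind μ u) ≤ cb := by
    have h1 : cb / μ ^ 3 * K ≤ cb := by
      rw [div_mul_eq_mul_div, div_le_iff₀ (by positivity)]
      exact mul_le_mul_of_nonneg_left hKμ hcb
    calc K * (∫ u in UU, ind μ u) ≤ K * (cb / μ ^ 3) := mul_le_mul_of_nonneg_left hind hK
      _ = cb / μ ^ 3 * K := by ring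
      _ ≤ cb := h1
  -- the first term
  have t1 : t * (ca + X) ≤ 4 * θ * v ^ 2 + (4 * θ + ca ^ 2 / (2 * θ) + 1 / (2 * θ)) * Y := by
    have h1 : t * (ca + X) ≤ θ * t ^ 2 + (ca + X) ^ 2 / (4 * θ) := by
      have h0 : 0 ≤ (2 * θ * t - (ca + X)) ^ 2 / (4 * θ) := by positivity
      have e : (2 * θ * t - (ca + X)) ^ 2 / (4 * θ) =
        θ * t ^ 2 + (ca + X) ^ 2 / (4 * θ) - t * (ca + X) := by
        field_simp
        ring
      linarith
    have h2 : (ca + X) ^ 2 / (4 * θ) ≤ ca ^ 2 / (2 * θ) + 1 / (2 * θ) * X ^ 2 := by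
      have h0 : 0 ≤ (ca - X) ^ 2 / (4 * θ) := by positivity
      have e : ca ^ 2 / (2 * θ) + 1 / (2 * θ) * X ^ 2 - (ca + X) ^ 2 / (4 * θ) =
        (ca - X) ^ 2 / (4 * θ) := by
        field_simp
        ring
      linarith
    have h3 : θ * t ^ 2 ≤ 4 * θ * v ^ 2 + 4 * θ * 1 := by nlinarith
    have h4 : 4 * θ * 1 ≤ 4 * θ * Y := by gcongr
    have h5 : ca ^ 2 / (2 * θ) * 1 ≤ ca ^ 2 / (2 * θ) * Y := by gcongr
    have h6 : 1 / (2 * θ) * X ^ 2 ≤ 1 / (2 * θ) * Y := by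
      gcongr
      rw [hY]; linarith
    linarith
  have t2 : Cf * (1 + m4 + d ^ 2) * ca ≤ Cf * ca * Y := by
    have : 1 + m4 + d ^ 2 ≤ Y := by rw [hY]; linarith
    calc Cf * (1 + m4 + d ^ 2) * ca = Cf * ca * (1 + m4 + d ^ 2) := by ring
      _ ≤ _ := by gcongr
  have t3 : Cf * K * (1 + |v|) * (∫ u in UU, ind μ u) ≤
      θ * (Cf * cb) * v ^ 2 + Cf * cb * (1 + 1 / (4 * θ)) * Y := by
    have h1 : Cf * K * (1 + |v|) * (∫ u in UU, ind μ u) ≤ Cf * cb * (1 + |v|) := by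
      calc Cf * K * (1 + |v|) * (∫ u in UU, ind μ u)
          = Cf * (1 + |v|) * (K * (∫ u in UU, ind μ u)) := by ring
        _ ≤ Cf * (1 + |v|) * cb := by gcongr
        _ = _ := by ring
    have h2 : |v| ≤ θ * v ^ 2 + 1 / (4 * θ) := by
      have h0 : 0 ≤ (2 * θ * |v| - 1) ^ 2 / (4 * θ) := by positivity
      have e : (2 * θ * |v| - 1) ^ 2 / (4 * θ) = θ * |v| ^ 2 + 1 / (4 * θ) - |v| := by
        field_simp
        ring
      rw [sq_abs] at e
      linarith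
    have h3 : Cf * cb * (1 + |v|) ≤ Cf * cb * (1 + (θ * v ^ 2 + 1 / (4 * θ))) := by gcongr
    have h4 : Cf * cb * (1 + 1 / (4 * θ)) * 1 ≤ Cf * cb * (1 + 1 / (4 * θ)) * Y := by gcongr
    linarith
  have t4 : ca * (θ * t ^ 2 + Cθ * μ ^ 2) ≤
      θ * (4 * ca) * v ^ 2 + (4 * ca * θ + ca * Cθ) * Y := by
    have h1 : ca * (θ * t ^ 2) ≤ ca * (θ * (4 * (1 + v ^ 2))) := by gcongr
    have h2 : 4 * ca * θ * 1 ≤ 4 * ca * θ * Y := by gcongr
    have h3 : ca * Cθ * μ ^ 2 ≤ ca * Cθ * Y := by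
      gcongr
      rw [hY]; linarith
    linarith
  have t5 : (1 + Cf * K ^ 2) * cu ≤ (1 + Cf) * cu * Y := by
    have h1 : 1 + Cf * K ^ 2 ≤ (1 + Cf) * Y := by
      have h2 : Cf * K ^ 2 ≤ Cf * Y := by
        gcongr
        rw [hY]; linarith
      linarith
    calc (1 + Cf * K ^ 2) * cu ≤ (1 + Cf) * Y * cu := by gcongr
      _ = _ := by ring
  calc _ ≤ (4 * θ * v ^ 2 + (4 * θ + ca ^ 2 / (2 * θ) + 1 / (2 * θ)) * Y) + Cf * ca * Y +
        (θ * (Cf * cb) * v ^ 2 + Cf * cb * (1 + 1 / (4 * θ)) * Y) +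
        (θ * (4 * ca) * v ^ 2 + (4 * ca * θ + ca * Cθ) * Y) + (1 + Cf) * cu * Y :=
        add_le_add (add_le_add (add_le_add (add_le_add t1 t2) t3) t4) t5
    _ = _ := by ring

end uint

section fixx

/-- the bounds on the integrals for a fixed configuration -/
structure IB {I : Type} [Fintype I] (C : ℝ) (x : I → E3) (w : E3) (μ : ℝ) : Prop where
  d : ∫ ω in Metric.ball w 1, DD x μ ω ^ 2 ≤ C / μ * nn w x ^ 2
  m : ∫ ω in Metric.ball w 1, M4 x μ ω ≤ C * (μ * nb w 2 x + ∑ i, ((1 + ‖x i - w‖) ^ 4)⁻¹)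
  n : ∀ ω, Integrable (fun v : E3 => μ ^ 3 * al (μ • v) ^ 2 * near2 (ω + v) x)
  x2 : IntegrableOn (fun ω => XX x μ ω ^ 2) (Metric.ball w 1)
  xx : ∫ ω in Metric.ball w 1, XX x μ ω ^ 2 ≤ C * (1 + μ * nb w 3 x ^ ((4 : ℝ) / 3))

theorem nb_nn {I : Type} [Fintype I] (y : E3) (R : ℝ) (x : I → E3) : 0 ≤ nb y R x := by
  unfold nb
  exact Finset.sum_nonneg fun i _ => by split_ifs <;> norm_num

theorem nb_le_card {I : Type} [Fintype I] (y : E3) (R : ℝ) (x : I → E3) :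
    nb y R x ≤ Fintype.card I := by
  unfold nb
  calc ∑ i, (if ‖x i - y‖ ≤ R then (1 : ℝ) else 0) ≤ ∑ _i : I, (1 : ℝ) :=
        Finset.sum_le_sum fun i _ => by split_ifs <;> norm_num
    _ = _ := by simp

theorem nb_23 {I : Type} [Fintype I] (y : E3) (x : I → E3) :
    nb y 2 x ≤ nb y 3 x ^ ((4 : ℝ) / 3) := by
  have h1 : nb y 2 x ≤ nb y 3 x := by
    unfold nb
    refine Finset.sum_le_sum fun i _ => ?_
    by_cases h : ‖x i - y‖ ≤ 2
    · rw [if_pos h, if_pos (by linarith)]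
    · rw [if_neg h]
      split_ifs <;> norm_num
  refine h1.trans ?_
  have h2 : nb y 3 x = ((Finset.univ.filter (fun i => ‖x i - y‖ ≤ 3)).card : ℝ) := by
    unfold nb
    rw [Finset.sum_boole]
  rw [h2]
  rcases Nat.eq_zero_or_pos (Finset.univ.filter (fun i => ‖x i - y‖ ≤ 3)).card with h | h
  · rw [h]
    simp
  · refine Real.self_le_rpow_of_one_le ?_ (by norm_num)
    exact_mod_cast h

theorem fix_int {I : Type} [Fintype I] (C : ℝ) (x : I → E3) (w : E3) (μ : ℝ) (hμ : 2 ≤ μ)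
    (h : IB C x w μ) (Cf K θ Cθ s z pb : ℝ) (c : I → ℝ) (hz : ∀ i, |c i| ≤ z) (hz0 : 0 ≤ z)
    (hCf : 0 ≤ Cf) (hK : 0 ≤ K) (hθ : 0 ≤ θ) (hCθ : 0 ≤ Cθ) (hs' : s = 1 ∨ s = -1) :
    Integrable (F1 s c x μ pb) (PP w) ∧ Integrable (F3 Cf K θ Cθ s c x μ pb) (PP w) := by
  obtain ⟨hA, -⟩ := An_int x w μ hμ h.n h.x2
  have hμ0 : 0 ≤ μ := by linarith
  obtain ⟨B1, -, hB1⟩ := dom1 (I := I) z μ |pb| hz0 hμ0 (abs_nonneg _)
  obtain ⟨B3, -, hB3⟩ := dom3 (I := I) z μ |pb| Cf K θ Cθ hz0 hμ0 (abs_nonneg _) hCf hK hθ hCθ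
  have h1 : Integrable (fun q : E3 × E3 => 1 + Ak μ q.2 * near2 (q.1 + q.2) x) (PP w) :=
    (integrable_const 1).add hA
  constructor
  · refine (h1.const_mul B1).mono' ?_ (Filter.Eventually.of_forall fun q => ?_)
    · exact (m_F1 s c measurable_const measurable_id measurable_const
        measurable_const).aestronglyMeasurable
    · rw [Real.norm_eq_abs]
      exact hB1 c x μ pb s q hz hμ le_rfl le_rfl hs'
  · refine (h1.const_mul B3).mono' ?_ (Filter.Eventually.of_forall fun q => ?_)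
    · exact (m_F3 Cf K θ Cθ s c measurable_const measurable_id measurable_const
        measurable_const).aestronglyMeasurable
    · rw [Real.norm_eq_abs]
      exact (hB3 c x μ pb s q hz hμ le_rfl le_rfl hs').2

theorem v2_int {I : Type} [Fintype I] (c : I → ℝ) (x : I → E3) (z μ pb : ℝ)
    (hz : ∀ i, |c i| ≤ z) (hμ : 0 ≤ μ) (w : E3) :
    Integrable (fun ω => vp c x μ pb ω ^ 2) (volume.restrict (Metric.ball w 1)) := by
  refine Integrable.of_bound ((m_vp c measurable_const measurable_id measurable_const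
    measurable_const).pow_const 2).aestronglyMeasurable
    ((Fintype.card I * (z * μ) + |pb|) ^ 2) (Filter.Eventually.of_forall fun ω => ?_)
  rw [Real.norm_of_nonneg (sq_nonneg _), ← sq_abs]
  exact pow_le_pow_left₀ (abs_nonneg _) (vp_bd c x z μ pb hz hμ ω) 2

theorem d2_int {I : Type} [Fintype I] (x : I → E3) (μ : ℝ) (hμ : 0 ≤ μ) (w : E3) :
    Integrable (fun ω => DD x μ ω ^ 2) (volume.restrict (Metric.ball w 1)) := by
  refine Integrable.of_bound ((m_DD measurable_const measurable_id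
    measurable_const).pow_const 2).aestronglyMeasurable
    ((Fintype.card I * μ) ^ 2) (Filter.Eventually.of_forall fun ω => ?_)
  rw [Real.norm_of_nonneg (sq_nonneg _)]
  exact pow_le_pow_left₀ (DD_bd x μ hμ ω).1 (DD_bd x μ hμ ω).2 2

theorem m4_int {I : Type} [Fintype I] (x : I → E3) (μ : ℝ) (hμ : 0 ≤ μ) (w : E3) :
    Integrable (fun ω => M4 x μ ω) (volume.restrict (Metric.ball w 1)) := by
  refine Integrable.of_bound (m_M4 measurable_const measurable_id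
    measurable_const).aestronglyMeasurable
    (Fintype.card I * μ ^ 4) (Filter.Eventually.of_forall fun ω => ?_)
  rw [Real.norm_of_nonneg (M4_bd x μ hμ ω).1]
  exact (M4_bd x μ hμ ω).2

/-- `∫ F1` in terms of the smeared potential -/
theorem F1_W {I : Type} [Fintype I] (C : ℝ) (x : I → E3) (w : E3) (μ : ℝ) (hμ : 2 ≤ μ)
    (h : IB C x w μ) (s z pb : ℝ) (c : I → ℝ) (hz : ∀ i, |c i| ≤ z) (hz0 : 0 ≤ z)
    (hs' : s = 1 ∨ s = -1) :
    Integrable (fun ω => hs s (vp c x μ pb ω) * VT c x μ pb ω)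
      (volume.restrict (Metric.ball w 1)) ∧
    ∫ q, F1 s c x μ pb q ∂(PP w) =
      ∫ ω in Metric.ball w 1, hs s (vp c x μ pb ω) * VT c x μ pb ω := by
  have hi := (fix_int C x w μ hμ h 0 0 0 0 s z pb c hz hz0 le_rfl le_rfl le_rfl le_rfl hs').1
  have e1 : ∀ ω, ∫ u in UU, F1 s c x μ pb (ω, u) = hs s (vp c x μ pb ω) * VT c x μ pb ω := by
    intro ω
    unfold F1
    simp only
    rw [integral_const_mul]
    congr 1
    unfold VT
    rw [setIntegral_eq_integral_of_forall_compl_eq_zero]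
    · rfl
    · intro u hu
      rw [Ak_zero μ hμ u hu, zero_mul]
  constructor
  · have h2 := hi.integral_prod_left
    refine h2.congr (Filter.Eventually.of_forall fun ω => ?_)
    exact e1 ω
  · have h3 := integral_prod _ hi
    unfold PP
    rw [h3]
    exact integral_congr_ae (Filter.Eventually.of_forall fun ω => e1 ω)

/-- lower bound for the difference of the two signs -/
theorem F1_lower {I : Type} [Fintype I] (C : ℝ) (x : I → E3) (w : E3) (μ : ℝ) (hμ : 2 ≤ μ)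
    (h : IB C x w μ) (z pb Cs : ℝ) (c : I → ℝ) (hz : ∀ i, |c i| ≤ z) (hz0 : 0 ≤ z)
    (hVT : ∀ ω, |VT c x μ pb ω - vp c x μ pb ω| ≤ Cs * z * DD x μ ω) :
    3 / 2 * (∫ ω in Metric.ball w 1, vp c x μ pb ω ^ 2) ≤
      (∫ q, F1 1 c x μ pb q ∂(PP w)) - (∫ q, F1 (-1) c x μ pb q ∂(PP w)) +
      2 * (Cs * z) ^ 2 * (∫ ω in Metric.ball w 1, DD x μ ω ^ 2) := by
  obtain ⟨i1, e1⟩ := F1_W C x w μ hμ h 1 z pb c hz hz0 (Or.inl rfl)
  obtain ⟨i2, e2⟩ := F1_W C x w μ hμ h (-1) z pb c hz hz0 (Or.inr rfl)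
  have hμ0 : 0 ≤ μ := by linarith
  have iv := v2_int c x z μ pb hz hμ0 w
  have id2 := d2_int x μ hμ0 w
  have key : ∫ ω in Metric.ball w 1, 3 / 2 * vp c x μ pb ω ^ 2 ≤
      ∫ ω in Metric.ball w 1, ((hs 1 (vp c x μ pb ω) * VT c x μ pb ω -
        hs (-1) (vp c x μ pb ω) * VT c x μ pb ω) + 2 * (Cs * z) ^ 2 * DD x μ ω ^ 2) := by
    refine integral_mono (iv.const_mul _) ((i1.sub i2).add (id2.const_mul _)) fun ω => ?_
    simp only [Pi.add_apply, Pi.sub_apply]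
    set v := vp c x μ pb ω with hv
    set V := VT c x μ pb ω with hV
    set d := DD x μ ω with hd
    have hd0 : 0 ≤ d := (DD_bd x μ hμ0 ω).1
    have h1 : hs 1 v * V - hs (-1) v * V = 2 * v * V := by
      rw [← sub_mul, hs_diff]
    rw [h1]
    have h2 : |V - v| ^ 2 ≤ (Cs * z * d) ^ 2 := pow_le_pow_left₀ (abs_nonneg _) (hVT ω) 2
    rw [sq_abs] at h2
    nlinarith [sq_nonneg (v + 2 * (V - v))]
  have j1 := integral_add (i1.sub i2) (id2.const_mul (2 * (Cs * z) ^ 2))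
  have j2 := integral_sub i1 i2
  simp only [Pi.add_apply, Pi.sub_apply] at j1 j2
  rw [j1, j2, integral_const_mul, integral_const_mul] at key
  rw [e1, e2]
  exact key

/-- upper bound for the other side -/
theorem F3_W (Cf θ Cθ Ci : ℝ) (hCf : 0 ≤ Cf) (hθ : 0 < θ) (hCθ : 0 ≤ Cθ) (hCi : 0 ≤ Ci) :
    ∃ L : ℝ, 0 ≤ L ∧ ∀ {I : Type} [Fintype I] (K s z : ℝ) (c : I → ℝ) (x : I → E3) (μ pb : ℝ)
      (w : E3), 2 ≤ μ → 0 ≤ K → K ≤ μ ^ 3 → (s = 1 ∨ s = -1) → IB Ci x w μ →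
      (∀ i, |c i| ≤ z) → 0 ≤ z →
      ∫ q, F3 Cf K θ Cθ s c x μ pb q ∂(PP w) ≤
        θ * (4 + 4 * ca + Cf * cb) * (∫ ω in Metric.ball w 1, vp c x μ pb ω ^ 2) +
        L * ((1 + K ^ 2) * (1 + μ ^ 2 + μ * nb w 3 x ^ ((4 : ℝ) / 3) +
          ∑ i, ((1 + ‖x i - w‖) ^ 4)⁻¹) + nn w x ^ 2 / μ) := by
  obtain ⟨L, hL, hLe⟩ := F3_le Cf θ Cθ hCf hθ hCθ
  have hcb := cb_nn
  refine ⟨L * (cb + 2 * Ci), by positivity, ?_⟩
  intro I _ K s z c x μ pb w hμ hK hKμ hs' hib hz hz0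
  have hμ0 : 0 ≤ μ := by linarith
  have hi := (fix_int Ci x w μ hμ hib Cf K θ Cθ s z pb c hz hz0 hCf hK hθ.le hCθ hs').2
  have h3 := integral_prod _ hi
  have iv := v2_int c x z μ pb hz hμ0 w
  have id2 := d2_int x μ hμ0 w
  have im := m4_int x μ hμ0 w
  have ix : Integrable (fun ω => XX x μ ω ^ 2) (volume.restrict (Metric.ball w 1)) := hib.x2
  have ic : Integrable (fun _ : E3 => 1 + K ^ 2 + μ ^ 2) (volume.restrict (Metric.ball w 1)) :=
    integrable_const _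
  have key : ∫ q, F3 Cf K θ Cθ s c x μ pb q ∂(PP w) ≤
      ∫ ω in Metric.ball w 1, (θ * (4 + 4 * ca + Cf * cb) * vp c x μ pb ω ^ 2 +
        L * ((1 + K ^ 2 + μ ^ 2) + M4 x μ ω + DD x μ ω ^ 2 + XX x μ ω ^ 2)) := by
    unfold PP
    rw [h3]
    refine integral_mono hi.integral_prod_left
      ((iv.const_mul _).add ((((ic.add im).add id2).add ix).const_mul L)) fun ω => ?_
    exact hLe K s c x μ pb ω hμ hK hKμ hs' (hib.n ω)
  refine key.trans ?_
  have j1 := integral_add (iv.const_mul (θ * (4 + 4 * ca + Cf * cb)))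
    ((((ic.add im).add id2).add ix).const_mul L)
  have j2 := integral_add ((ic.add im).add id2) ix
  have j3 := integral_add (ic.add im) id2
  have j4 := integral_add ic im
  simp only [Pi.add_apply] at j1 j2 j3 j4
  rw [j1, integral_const_mul, integral_const_mul, j2, j3, j4, integral_const]
  have hvol : (volume.restrict (Metric.ball w 1)).real Set.univ = cb := by
    rw [measureReal_restrict_apply_univ]
    unfold cb
    rw [Measure.real, Measure.real, Measure.addHaar_ball_center]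
  rw [hvol, smul_eq_mul]
  refine add_le_add le_rfl ?_
  rw [mul_assoc]
  refine mul_le_mul_of_nonneg_left ?_ hL
  have hnb := nb_23 w x
  have hnb0 := nb_nn w 2 x
  have hS : 0 ≤ ∑ i, ((1 + ‖x i - w‖) ^ 4)⁻¹ := by positivity
  set A := μ * nb w 3 x ^ ((4 : ℝ) / 3) with hA
  have hA0 : μ * nb w 2 x ≤ A := by
    rw [hA]
    gcongr
  have hA1 : 0 ≤ A := (by positivity : 0 ≤ μ * nb w 2 x).trans hA0
  set Sg := ∑ i, ((1 + ‖x i - w‖) ^ 4)⁻¹ with hSg
  have hd := hib.d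
  have hm := hib.m
  have hx := hib.xx
  have hq : 0 ≤ nn w x ^ 2 / μ := by positivity
  have hd' : Ci / μ * nn w x ^ 2 = Ci * (nn w x ^ 2 / μ) := by ring
  rw [hd'] at hd
  rw [← hSg] at hm
  have hm' : Ci * (μ * nb w 2 x + Sg) ≤ Ci * (A + Sg) := by gcongr
  set Y := 1 + μ ^ 2 + A + Sg with hY
  have hY0 : 0 ≤ Y := by positivity
  have hYK : Y ≤ (1 + K ^ 2) * Y := by
    have := mul_nonneg (sq_nonneg K) hY0
    linarith
  have h5 : cb * (1 + K ^ 2 + μ ^ 2) ≤ cb * ((1 + K ^ 2) * Y) := by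
    refine mul_le_mul_of_nonneg_left ?_ hcb
    have : 1 + K ^ 2 + μ ^ 2 ≤ (1 + K ^ 2) * (1 + μ ^ 2) := by
      have := mul_nonneg (sq_nonneg K) (sq_nonneg μ)
      linarith
    refine this.trans ?_
    gcongr
    rw [hY]
    linarith
  have h6 : Ci * (A + Sg) + Ci * (1 + A) ≤ 2 * Ci * ((1 + K ^ 2) * Y) := by
    have h7 : (A + Sg) + (1 + A) ≤ 2 * ((1 + K ^ 2) * Y) := by
      have : (A + Sg) + (1 + A) ≤ 2 * Y := by
        rw [hY]
        have := sq_nonneg μ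
        linarith
      linarith
    calc Ci * (A + Sg) + Ci * (1 + A) = Ci * ((A + Sg) + (1 + A)) := by ring
      _ ≤ Ci * (2 * ((1 + K ^ 2) * Y)) := mul_le_mul_of_nonneg_left h7 hCi
      _ = _ := by ring
  have h8 : Ci * (nn w x ^ 2 / μ) ≤ (cb + 2 * Ci) * (nn w x ^ 2 / μ) := by
    refine mul_le_mul_of_nonneg_right ?_ hq
    linarith
  calc _ ≤ cb * (1 + K ^ 2 + μ ^ 2) + Ci * (A + Sg) + Ci * (nn w x ^ 2 / μ) + Ci * (1 + A) := by
        linarith
    _ ≤ _ := by linarith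

end fixx

section joint

/-- Fubini for inequalities -/
theorem fub {X Y : Type} [MeasurableSpace X] [MeasurableSpace Y] (ν : Measure X) (P : Measure Y)
    [IsFiniteMeasure ν] [IsFiniteMeasure P] (F G : X → Y → ℝ) (c : ℝ)
    (hF : Integrable (Function.uncurry F) (ν.prod P))
    (hG : Integrable (Function.uncurry G) (ν.prod P))
    (h : ∀ᵐ q ∂P, |∫ x, F x q ∂ν| ≤ c * ∫ x, G x q ∂ν) :
    |∫ x, ∫ q, F x q ∂P ∂ν| ≤ c * ∫ x, ∫ q, G x q ∂P ∂ν := by
  rw [integral_integral_swap hF, integral_integral_swap hG, ← integral_const_mul]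
  refine (abs_integral_le_integral_abs).trans ?_
  refine integral_mono_ae ?_ ?_ h
  · exact (hF.integral_prod_right).abs
  · exact (hG.integral_prod_right).const_mul c

/-- the singular weight is jointly integrable -/
theorem joint_An {I : Type} [Fintype I] (ν : Measure (I → E3)) [IsFiniteMeasure ν]
    (m : (I → E3) → ℝ) (hm : Measurable m) (Mm Ci : ℝ) (hCi : 0 ≤ Ci) (w : E3)
    (h2 : ∀ x, 2 ≤ m x) (hM : ∀ x, m x ≤ Mm) (hib : ∀ x, IB Ci x w (m x)) :
    Integrable (fun t : (I → E3) × (E3 × E3) =>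
      Ak (m t.1) t.2.2 * near2 (t.2.1 + t.2.2) t.1) (ν.prod (PP w)) := by
  have hmeas : Measurable (fun t : (I → E3) × (E3 × E3) =>
      Ak (m t.1) t.2.2 * near2 (t.2.1 + t.2.2) t.1) :=
    (m_Ak (measurable_snd.comp measurable_snd) (hm.comp measurable_fst)).mul
      (m_near2 measurable_fst ((measurable_fst.comp measurable_snd).add
        (measurable_snd.comp measurable_snd)))
  have hnn : ∀ (x : I → E3) (q : E3 × E3), 0 ≤ Ak (m x) q.2 * near2 (q.1 + q.2) x := fun x q =>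
    mul_nonneg (Ak_nn _ (by linarith [h2 x]) _) (near2_nonneg _ _)
  rw [integrable_prod_iff hmeas.aestronglyMeasurable]
  constructor
  · exact Filter.Eventually.of_forall fun x => (An_int x w (m x) (h2 x) (hib x).n (hib x).x2).1
  · have e : ∀ x : I → E3, ∫ q : E3 × E3, ‖Ak (m x) q.2 * near2 (q.1 + q.2) x‖ ∂(PP w) =
        ∫ ω in Metric.ball w 1, XX x (m x) ω := by
      intro x
      rw [← (An_int x w (m x) (h2 x) (hib x).n (hib x).x2).2]
      refine integral_congr_ae (Filter.Eventually.of_forall fun q => ?_)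
      simp only
      rw [Real.norm_of_nonneg (hnn x q)]
    have hb : ∀ x : I → E3, ∫ ω in Metric.ball w 1, XX x (m x) ω ≤
        cb + Ci * (1 + Mm * (Fintype.card I : ℝ) ^ ((4 : ℝ) / 3)) := by
      intro x
      have hx2 : Integrable (fun ω => XX x (m x) ω ^ 2) (volume.restrict (Metric.ball w 1)) :=
        (hib x).x2
      have hvol : (volume.restrict (Metric.ball w 1)).real Set.univ = cb := by
        rw [measureReal_restrict_apply_univ]
        unfold cb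
        rw [Measure.real, Measure.real, Measure.addHaar_ball_center]
      have h3 : ∫ ω in Metric.ball w 1, XX x (m x) ω ≤
          ∫ ω in Metric.ball w 1, (1 + XX x (m x) ω ^ 2) := by
        by_cases hX : Integrable (XX x (m x)) (volume.restrict (Metric.ball w 1))
        · refine integral_mono hX ((integrable_const 1).add hx2) fun ω => ?_
          simp only [Pi.add_apply]
          nlinarith [sq_nonneg (XX x (m x) ω - 1)]
        · rw [integral_undef hX]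
          exact integral_nonneg fun ω => by positivity
      have h4 := integral_add (integrable_const (1 : ℝ)) hx2
      rw [integral_const, hvol, smul_eq_mul, mul_one] at h4
      rw [h4] at h3
      refine h3.trans (add_le_add le_rfl ((hib x).xx.trans ?_))
      have h5 := nb_le_card w 3 x
      have h6 := nb_nn w 3 x
      have h7 := hM x
      have h8 := h2 x
      have h9 : m x * nb w 3 x ^ ((4 : ℝ) / 3) ≤
          Mm * (Fintype.card I : ℝ) ^ ((4 : ℝ) / 3) := by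
        refine mul_le_mul h7 (Real.rpow_le_rpow h6 h5 (by norm_num)) (by positivity)
          (by linarith)
      exact mul_le_mul_of_nonneg_left (by linarith) hCi
    have hm2 : StronglyMeasurable (fun x : I → E3 =>
        ∫ q : E3 × E3, ‖Ak (m x) q.2 * near2 (q.1 + q.2) x‖ ∂(PP w)) :=
      StronglyMeasurable.integral_prod_right
        (f := fun (x : I → E3) (q : E3 × E3) => ‖Ak (m x) q.2 * near2 (q.1 + q.2) x‖)
        hmeas.norm.stronglyMeasurable
    refine Integrable.of_bound hm2.aestronglyMeasurable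
      (cb + Ci * (1 + Mm * (Fintype.card I : ℝ) ^ ((4 : ℝ) / 3)))
      (Filter.Eventually.of_forall fun x => ?_)
    simp only
    rw [Real.norm_of_nonneg (integral_nonneg fun q => norm_nonneg _), e]
    exact hb x

/-- joint integrability -/
theorem joint_F {I : Type} [Fintype I] (ν : Measure (I → E3)) [IsFiniteMeasure ν]
    (m pb : (I → E3) → ℝ) (hm : Measurable m) (hpm : Measurable pb) (z Mm Pm Ci : ℝ)
    (hz0 : 0 ≤ z) (hM0 : 0 ≤ Mm) (hP0 : 0 ≤ Pm) (hCi : 0 ≤ Ci) (w : E3)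
    (h2 : ∀ x, 2 ≤ m x) (hM : ∀ x, m x ≤ Mm) (hP : ∀ x, |pb x| ≤ Pm)
    (hib : ∀ x, IB Ci x w (m x)) (Cf K θ Cθ s : ℝ) (c : I → ℝ) (hz : ∀ i, |c i| ≤ z)
    (hCf : 0 ≤ Cf) (hK : 0 ≤ K) (hθ : 0 ≤ θ) (hCθ : 0 ≤ Cθ) (hs' : s = 1 ∨ s = -1) :
    Integrable (Function.uncurry (fun (x : I → E3) (q : E3 × E3) => F1 s c x (m x) (pb x) q))
      (ν.prod (PP w)) ∧
    Integrable (Function.uncurry (fun (x : I → E3) (q : E3 × E3) =>
      F3 Cf K θ Cθ s c x (m x) (pb x) q)) (ν.prod (PP w)) := by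
  have hA := joint_An ν m hm Mm Ci hCi w h2 hM hib
  obtain ⟨B1, -, hB1⟩ := dom1 (I := I) z Mm Pm hz0 hM0 hP0
  obtain ⟨B3, -, hB3⟩ := dom3 (I := I) z Mm Pm Cf K θ Cθ hz0 hM0 hP0 hCf hK hθ hCθ
  have h1 : Integrable (fun t : (I → E3) × (E3 × E3) =>
      1 + Ak (m t.1) t.2.2 * near2 (t.2.1 + t.2.2) t.1) (ν.prod (PP w)) :=
    (integrable_const 1).add hA
  constructor
  · refine (h1.const_mul B1).mono' ?_ (Filter.Eventually.of_forall fun t => ?_)
    · exact (m_F1 s c measurable_fst measurable_snd (hm.comp measurable_fst)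
        (hpm.comp measurable_fst)).aestronglyMeasurable
    · rw [Real.norm_eq_abs]
      exact hB1 c t.1 (m t.1) (pb t.1) s t.2 hz (h2 _) (hM _) (hP _) hs'
  · refine (h1.const_mul B3).mono' ?_ (Filter.Eventually.of_forall fun t => ?_)
    · exact (m_F3 Cf K θ Cθ s c measurable_fst measurable_snd (hm.comp measurable_fst)
        (hpm.comp measurable_fst)).aestronglyMeasurable
    · rw [Real.norm_eq_abs]
      exact (hB3 c t.1 (m t.1) (pb t.1) s t.2 hz (h2 _) (hM _) (hP _) hs').2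

end joint

section mu

theorem nh_bd {I : Type} [Fintype I] (y : E3) (x : I → E3) :
    0 ≤ nh y x ∧ nh y x ≤ Fintype.card I := by
  unfold nh
  constructor
  · positivity
  · calc ∑ j, Real.exp (1 - √(1 + ‖x j - y‖ ^ 2)) ≤ ∑ _j : I, (1 : ℝ) := by
          refine Finset.sum_le_sum fun j _ => ?_
          rw [Real.exp_le_one_iff]
          have : (1 : ℝ) ≤ √(1 + ‖x j - y‖ ^ 2) := by
            rw [Real.one_le_sqrt]
            nlinarith [sq_nonneg ‖x j - y‖]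
          linarith
      _ = _ := by simp

theorem mu_bd {I : Type} [Fintype I] (K : ℝ) (hK : 8 ≤ K) (y : E3) (x : I → E3) :
    2 ≤ mu K y x ∧ K ≤ mu K y x ^ 3 ∧
      mu K y x ≤ (K * (1 + (Fintype.card I : ℝ))) ^ ((1 : ℝ) / 3) := by
  obtain ⟨h0, h1⟩ := nh_bd y x
  have h2 : K ≤ K * (1 + nh y x) := by nlinarith
  refine ⟨?_, ?_, ?_⟩
  · have h3 : (8 : ℝ) ^ ((1 : ℝ) / 3) = 2 := by
      rw [show (8 : ℝ) = 2 ^ (3 : ℝ) by norm_num, ← Real.rpow_mul (by norm_num)]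
      norm_num
    unfold mu
    rw [← h3]
    exact Real.rpow_le_rpow (by norm_num) (by linarith) (by norm_num)
  · have h3 : mu K y x ^ 3 = K * (1 + nh y x) := by
      unfold mu
      rw [← Real.rpow_natCast, ← Real.rpow_mul (by nlinarith)]
      norm_num
    rw [h3]
    exact h2
  · unfold mu
    refine Real.rpow_le_rpow (by nlinarith) ?_ (by norm_num)
    nlinarith

theorem mu_meas {I : Type} [Fintype I] (K : ℝ) (y : E3) :
    Measurable (fun x : I → E3 => mu K y x) := by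
  unfold mu nh
  fun_prop

theorem phb_facts {S : Type} [Fintype S] (D : Species S) {I : Type} [Fintype I] (sp : I → S)
    (ℓ : ℝ) (hℓ : 0 < ℓ) (z : ℝ) (hz : ∀ s, |D.charge s| ≤ z) (hz0 : 0 ≤ z) :
    Measurable (fun x : I → E3 => phb D sp ℓ x) ∧ ∃ Pm : ℝ, 0 ≤ Pm ∧ ∀ x : I → E3,
      |phb D sp ℓ x| ≤ Pm := by
  obtain ⟨C, hC, hb⟩ := RVB.vb_bound
  constructor
  · have hc := (RVB.vb_cont ℓ hℓ).measurable
    unfold phb
    refine Finset.measurable_sum _ fun i _ => ?_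
    exact (hc.comp (measurable_pi_apply i)).const_mul _
  · refine ⟨Fintype.card I * (z * (C / ℓ)), by positivity, fun x => ?_⟩
    unfold phb
    refine (Finset.abs_sum_le_sum_abs _ _).trans ?_
    calc ∑ i, |D.charge (sp i) * vb ℓ (x i)| ≤ ∑ _i : I, z * (C / ℓ) := by
          refine Finset.sum_le_sum fun i _ => ?_
          rw [abs_mul]
          obtain ⟨h1, h2⟩ := hb ℓ (x i) hℓ
          rw [abs_of_nonneg h1]
          exact mul_le_mul (hz _) h2 h1 hz0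
      _ = _ := by simp

end mu

section point

theorem WI_dom {S : Type} (D : Species S) {I : Type} [Fintype I] [DecidableEq I] (sp : I → S)
    (ℓ : ℝ) (W V : (I → E3) → ℝ) (hW : Measurable W) (h : ∀ x, |W x| ≤ V x)
    (hV : WI D sp ℓ V) : WI D sp ℓ W := by
  intro Ψ hΨ τ
  refine (hV Ψ hΨ τ).mono' ?_ (Filter.Eventually.of_forall fun x => ?_)
  · exact hW.aestronglyMeasurable.mul
      (((hΨ.smooth τ).continuous.norm).pow 2).aestronglyMeasurable
  · rw [norm_mul, Real.norm_eq_abs, Real.norm_of_nonneg (sq_nonneg _)]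
    exact mul_le_mul_of_nonneg_right (h x) (sq_nonneg _)

theorem fz_sq {S : Type} (D : Species S) {I : Type} [Fintype I] (sp : I → S) (ℓ K s : ℝ)
    (hK : 8 ≤ K) (hs' : s = 1 ∨ s = -1) (y ω u : E3) (x : I → E3) :
    fz D sp ℓ K s y ω u x ^ 2 =
      hs s (vp (fun i => D.charge (sp i)) x (mu K y x) (phb D sp ℓ x) ω) *
        Ak (mu K y x) u := by
  obtain ⟨h2, -, -⟩ := mu_bd K hK y x
  unfold fz Ak
  rw [mul_pow, Real.sq_sqrt (hs_nn s _ hs'), mul_pow]
  have h3 : (mu K y x ^ ((3 : ℝ) / 2)) ^ 2 = mu K y x ^ 3 := by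
    rw [← Real.rpow_natCast, ← Real.rpow_mul (by linarith)]
    norm_num
  rw [h3]
  rfl

/-- the flatness bound at one point -/
theorem point {S : Type} [Fintype S] [DecidableEq S] (D : Species S) (hD : D.Valid) (C0 : ℝ)
    (hC0 : 0 ≤ C0) (z : ℝ) (hz : ∀ s, |D.charge s| ≤ z) (hz0 : 0 ≤ z) (Cf : ℝ) (hCf : 0 < Cf)
    (Ma θ Cθ : ℝ) (hMa : 0 ≤ Ma) (hal : ∀ w, al w ^ 2 ≤ Ma) (hθ : 0 < θ) (hCθ : 0 ≤ Cθ)
    (hyo : ∀ t m : ℝ, 0 ≤ t → 0 ≤ m → t * (t * (m ^ 3 * Ma)) ^ ((1 : ℝ) / 4) ≤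
      θ * t ^ 2 + Cθ * m ^ 2)
    {I : Type} [Fintype I] [DecidableEq I] (sp : I → S) (ℓ η : ℝ) {k : ℕ} (p : Fin k → ℝ)
    (ψ : Fin k → Wave D I) (hB : BS D sp ℓ C0 η p ψ) (K s : ℝ) (hK : 8 ≤ K)
    (hs' : s = 1 ∨ s = -1) (y ω u : E3) (hω : Metric.closedBall (ω + u) 1 ⊆ cube ℓ)
    (hap : ∃ (fn : ℕ → (I → E3) → ℝ) (B : ℝ),
      B ^ 2 ≤ Cf * K ^ 2 * (1 + (Fintype.card I : ℝ)) ^ 3 ∧
        (∀ n, ContDiff ℝ SM (fn n)) ∧ (∀ n, Sy sp (fn n)) ∧ (∀ n x, |fn n x| ≤ B) ∧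
        (∀ x, Filter.Tendsto (fun n => fn n x) Filter.atTop (𝓝 (fz D sp ℓ K s y ω u x))) ∧
        ∀ n x, gr (fn n) x ≤
          Cf * (1 + ∑ i, Mk (mu K y x) (x i - ω) ^ 4 +
              (∑ i, mu K y x * Real.exp (-(mu K y x * ‖x i - ω‖))) ^ 2) *
            (mu K y x ^ 3 * al (mu K y x • u) ^ 2) +
          Cf * K * (1 + |vv D sp ℓ K y x ω|) * (if mu K y x * ‖u‖ ≤ 1 / 2 then 1 else 0)) :
    |∫ x, F1 s (fun i => D.charge (sp i)) x (mu K y x) (phb D sp ℓ x) (ω, u) ∂(nu D p ψ)| ≤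
      C0 * ∫ x, F3 Cf K θ Cθ s (fun i => D.charge (sp i)) x (mu K y x) (phb D sp ℓ x) (ω, u)
        ∂(nu D p ψ) := by
  obtain ⟨fn, B, hB2, a1, a2, a3, a4, a5⟩ := hap
  have hℓ : 0 < ℓ := by linarith [hB.len]
  have hK0 : 0 ≤ K := by linarith
  set c : I → ℝ := fun i => D.charge (sp i) with hc
  have hcz : ∀ i, |c i| ≤ z := fun i => hz _
  obtain ⟨hpm, Pm, hPm0, hPm⟩ := phb_facts D sp ℓ hℓ z hz hz0
  set m : (I → E3) → ℝ := fun x => mu K y x with hm
  have hmm : Measurable m := mu_meas K y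
  set Mm : ℝ := (K * (1 + (Fintype.card I : ℝ))) ^ ((1 : ℝ) / 3) with hMm
  have hMm0 : 0 ≤ Mm := by positivity
  have hm2 : ∀ x, 2 ≤ m x := fun x => (mu_bd K hK y x).1
  have hmM : ∀ x, m x ≤ Mm := fun x => (mu_bd K hK y x).2.2
  obtain ⟨B1, hB10, hB1⟩ := dom1 (I := I) z Mm Pm hz0 hMm0 hPm0
  obtain ⟨B3, hB30, hB3⟩ := dom3 (I := I) z Mm Pm Cf K θ Cθ hz0 hMm0 hPm0 hCf.le hK0 hθ.le hCθ
  set pb : (I → E3) → ℝ := fun x => phb D sp ℓ x with hpb
  have hAle : ∀ x, Ak (m x) u ≤ Mm ^ 3 * Ma := by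
    intro x
    unfold Ak
    exact mul_le_mul (pow_le_pow_left₀ (by linarith [hm2 x]) (hmM x) 3) (hal _) (sq_nonneg _)
      (by positivity)
  -- the dominating weight
  have hVW : ∀ b : ℝ, WI D sp ℓ (fun x => b * (1 + (Mm ^ 3 * Ma) * near2 (ω + u) x)) :=
    fun b => WI_smul D sp ℓ (WI_add D sp ℓ (WI_const D sp ℓ 1)
      (WI_smul D sp ℓ (WI_near2 D sp ℓ (ω + u)) _)) b
  have hVle : ∀ (b : ℝ), 0 ≤ b → ∀ x : I → E3, b * (1 + Ak (m x) u * near2 (ω + u) x) ≤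
      b * (1 + (Mm ^ 3 * Ma) * near2 (ω + u) x) := by
    intro b hb x
    have := near2_nonneg (ω + u) x
    have := hAle x
    gcongr
  -- the terms
  set t1 : (I → E3) → ℝ := fun x => hs s (vp c x (m x) (pb x) ω) *
    (Ak (m x) u * (1 + near2 (ω + u) x)) with ht1
  set G : (I → E3) → ℝ := fun x =>
    Cf * (1 + M4 x (m x) ω + DD x (m x) ω ^ 2) * Ak (m x) u +
    Cf * K * (1 + |vp c x (m x) (pb x) ω|) * ind (m x) u with hG
  set t4 : (I → E3) → ℝ := fun x =>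
    Ak (m x) u * (θ * hs s (vp c x (m x) (pb x) ω) ^ 2 + Cθ * m x ^ 2) with ht4
  set t3 : (I → E3) → ℝ := fun x => hs s (vp c x (m x) (pb x) ω) * Ak (m x) u *
    (hs s (vp c x (m x) (pb x) ω) * Ak (m x) u) ^ ((1 : ℝ) / 4) with ht3
  have hF3 : ∀ x, F3 Cf K θ Cθ s c x (m x) (pb x) (ω, u) =
      t1 x + G x + t4 x + (1 + Cf * K ^ 2) := by
    intro x
    simp only [F3, ht1, hG, ht4]
    ring
  have mid : Measurable (fun x : I → E3 => x) := measurable_id
  have mω : Measurable (fun _ : I → E3 => ω) := measurable_const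
  have mu' : Measurable (fun _ : I → E3 => u) := measurable_const
  have mωu : Measurable (fun _ : I → E3 => ω + u) := measurable_const
  have mv := m_vp c mid mω hmm hpm
  have mh : Measurable (fun x => hs s (vp c x (m x) (pb x) ω)) := (hs_cont s).measurable.comp mv
  have mA := m_Ak mu' hmm
  have mI := m_ind mu' hmm
  have mN := m_near2 mid mωu
  have mt1 : Measurable t1 := mh.mul (mA.mul (mN.const_add 1))
  have mG : Measurable G :=
    ((((m_M4 mid mω hmm).const_add 1).add ((m_DD mid mω hmm).pow_const 2)).const_mul Cf |>.mul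
      mA).add (((_root_.continuous_abs.measurable.comp mv).const_add 1).const_mul (Cf * K)
        |>.mul mI)
  have mt4 : Measurable t4 := mA.mul (((mh.pow_const 2).const_mul θ).add
    ((hmm.pow_const 2).const_mul Cθ))
  have mt3 : Measurable t3 := (mh.mul mA).mul ((mh.mul mA).pow_const _)
  have nn1 : ∀ x, 0 ≤ hs s (vp c x (m x) (pb x) ω) := fun x => hs_nn s _ hs'
  have nnA : ∀ x, 0 ≤ Ak (m x) u := fun x => Ak_nn _ (by linarith [hm2 x]) _
  have nt1 : ∀ x, 0 ≤ t1 x := fun x => by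
    have h1 := nn1 x
    have h2 := nnA x
    have h3 := near2_nonneg (ω + u) x
    simp only [ht1]
    positivity
  have nG : ∀ x, 0 ≤ G x := fun x => by
    have h1 := nnA x
    have h2 := (ind_01 (m x) u).1
    have h3 := (M4_bd x (m x) (by linarith [hm2 x]) ω).1
    simp only [hG]
    positivity
  have nt4 : ∀ x, 0 ≤ t4 x := fun x => by
    have h1 := nnA x
    simp only [ht4]
    positivity
  have nt3 : ∀ x, 0 ≤ t3 x := fun x => by
    have h1 := nn1 x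
    have h2 := nnA x
    simp only [ht3]
    positivity
  have h34 : ∀ x, t3 x ≤ t4 x := by
    intro x
    have h1 := nn1 x
    have h2 := nnA x
    have h3 : 0 ≤ m x := by linarith [hm2 x]
    have h4 : Ak (m x) u ≤ m x ^ 3 * Ma := by
      unfold Ak
      exact mul_le_mul_of_nonneg_left (hal _) (by positivity)
    simp only [ht3, ht4]
    set t := hs s (vp c x (m x) (pb x) ω) with ht
    have h5 : (t * Ak (m x) u) ^ ((1 : ℝ) / 4) ≤ (t * (m x ^ 3 * Ma)) ^ ((1 : ℝ) / 4) := by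
      refine Real.rpow_le_rpow (by positivity) ?_ (by norm_num)
      gcongr
    calc t * Ak (m x) u * (t * Ak (m x) u) ^ ((1 : ℝ) / 4)
        ≤ t * Ak (m x) u * (t * (m x ^ 3 * Ma)) ^ ((1 : ℝ) / 4) := by gcongr
      _ = Ak (m x) u * (t * (t * (m x ^ 3 * Ma)) ^ ((1 : ℝ) / 4)) := by ring
      _ ≤ _ := mul_le_mul_of_nonneg_left (hyo t (m x) h1 h3) h2
  have hCK : 0 ≤ 1 + Cf * K ^ 2 := by positivity
  have hdomF3 : ∀ x, |F3 Cf K θ Cθ s c x (m x) (pb x) (ω, u)| ≤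
      B3 * (1 + (Mm ^ 3 * Ma) * near2 (ω + u) x) := fun x =>
    (hB3 c x (m x) (pb x) s (ω, u) hcz (hm2 x) (hmM x) (hPm x) hs').2.trans (hVle B3 hB30 x)
  have hle3 : ∀ x, t1 x + G x + t4 x + (1 + Cf * K ^ 2) ≤
      B3 * (1 + (Mm ^ 3 * Ma) * near2 (ω + u) x) := fun x => by
    rw [← hF3]
    exact (le_abs_self _).trans (hdomF3 x)
  have wF3 : WI D sp ℓ (fun x => F3 Cf K θ Cθ s c x (m x) (pb x) (ω, u)) :=
    WI_dom D sp ℓ _ _ (m_F3 Cf K θ Cθ s c mid measurable_const hmm hpm) hdomF3 (hVW B3)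
  have wF1 : WI D sp ℓ (fun x => F1 s c x (m x) (pb x) (ω, u)) :=
    WI_dom D sp ℓ _ _ (m_F1 s c mid measurable_const hmm hpm)
      (fun x => (hB1 c x (m x) (pb x) s (ω, u) hcz (hm2 x) (hmM x) (hPm x) hs').trans
        (hVle B1 hB10 x)) (hVW B1)
  have wt1 : WI D sp ℓ t1 := WI_dom D sp ℓ _ _ mt1 (fun x => by
    rw [abs_of_nonneg (nt1 x)]
    linarith [hle3 x, nG x, nt4 x]) (hVW B3)
  have wG : WI D sp ℓ G := WI_dom D sp ℓ _ _ mG (fun x => by
    rw [abs_of_nonneg (nG x)]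
    linarith [hle3 x, nt1 x, nt4 x]) (hVW B3)
  have wt4 : WI D sp ℓ t4 := WI_dom D sp ℓ _ _ mt4 (fun x => by
    rw [abs_of_nonneg (nt4 x)]
    linarith [hle3 x, nt1 x, nG x]) (hVW B3)
  have wt3 : WI D sp ℓ t3 := WI_dom D sp ℓ _ _ mt3 (fun x => by
    rw [abs_of_nonneg (nt3 x)]
    linarith [hle3 x, nt1 x, nG x, h34 x]) (hVW B3)
  have bm := bs_meas D hB
  have E1 := nu_integral D p hB.p0 ψ bm _ (nu_WI D hB _ wF1)
  have Et1 := nu_integral D p hB.p0 ψ bm _ (nu_WI D hB _ wt1)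
  have EG := nu_integral D p hB.p0 ψ bm _ (nu_WI D hB _ wG)
  have Et3 := nu_integral D p hB.p0 ψ bm _ (nu_WI D hB _ wt3)
  have hfl := fl_ext D hD sp ℓ C0 η hC0 p ψ hB (ω + u) hω (fz D sp ℓ K s y ω u) fn B G a1 a2 a3 a4
    a5 (fun j τ => wG (ψ j) (hB.state j) τ)
  have e1 : (fun x => fz D sp ℓ K s y ω u x ^ 2 * (phi D sp (ω + u) x - phb D sp ℓ x)) =
      fun x => F1 s c x (m x) (pb x) (ω, u) := by
    funext x
    rw [fz_sq D sp ℓ K s hK hs']
    simp only [F1]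
    rw [mul_assoc]
    rfl
  have e2 : (fun x => fz D sp ℓ K s y ω u x ^ 2 * (1 + near2 (ω + u) x)) = t1 := by
    funext x
    rw [fz_sq D sp ℓ K s hK hs', mul_assoc]
  have e3 : (fun x => fz D sp ℓ K s y ω u x ^ 2 *
      (fz D sp ℓ K s y ω u x ^ 2) ^ ((1 : ℝ) / 4)) = t3 := by
    funext x
    rw [fz_sq D sp ℓ K s hK hs']
  rw [e1, e2, e3, ← E1, ← Et1, ← EG, ← Et3] at hfl
  refine hfl.trans (mul_le_mul_of_nonneg_left ?_ hC0)
  have := nu_fin D hB
  have j1 := integral_add (((nu_WI D hB _ wt1).add (nu_WI D hB _ wG)).add (nu_WI D hB _ wt4))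
    (integrable_const (μ := nu D p ψ) (1 + Cf * K ^ 2))
  have j2 := integral_add ((nu_WI D hB _ wt1).add (nu_WI D hB _ wG)) (nu_WI D hB _ wt4)
  have j3 := integral_add (nu_WI D hB _ wt1) (nu_WI D hB _ wG)
  simp only [Pi.add_apply] at j1 j2 j3
  have e4 : ∫ x, F3 Cf K θ Cθ s c x (m x) (pb x) (ω, u) ∂(nu D p ψ) =
      ∫ x, (t1 x + G x + t4 x + (1 + Cf * K ^ 2)) ∂(nu D p ψ) :=
    integral_congr_ae (Filter.Eventually.of_forall hF3)
  refine le_trans ?_ (le_of_eq e4.symm)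
  rw [j1, j2, j3, integral_const, nu_one D hB, one_smul]
  have k1 : ∫ x, t3 x ∂(nu D p ψ) ≤ ∫ x, t4 x ∂(nu D p ψ) :=
    integral_mono (nu_WI D hB _ wt3) (nu_WI D hB _ wt4) h34
  have k2 : B ^ 2 * η ≤ Cf * K ^ 2 := by
    calc B ^ 2 * η ≤ Cf * K ^ 2 * (1 + (Fintype.card I : ℝ)) ^ 3 * η :=
          mul_le_mul_of_nonneg_right hB2 hB.eta
      _ = Cf * K ^ 2 * (η * (1 + (Fintype.card I : ℝ)) ^ 3) := by ring
      _ ≤ Cf * K ^ 2 * 1 := mul_le_mul_of_nonneg_left hB.eta1 (by positivity)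
      _ = _ := by ring
  linarith

end point

section fin

theorem nn_bd {I : Type} [Fintype I] (w : E3) (x : I → E3) :
    0 ≤ nn w x ∧ nn w x ≤ Fintype.card I := by
  unfold nn
  constructor
  · positivity
  · calc ∑ j, Real.exp (-‖x j - w‖) ≤ ∑ _j : I, (1 : ℝ) := by
          refine Finset.sum_le_sum fun j _ => ?_
          rw [Real.exp_le_one_iff]
          linarith [norm_nonneg (x j - w)]
      _ = _ := by simp

theorem nb_meas {I : Type} [Fintype I] (w : E3) (R : ℝ) : Measurable (fun x : I → E3 => nb w R x) := by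
  unfold nb
  refine Finset.measurable_sum _ fun i _ => ?_
  exact Measurable.ite (measurableSet_le (by fun_prop) measurable_const) measurable_const
    measurable_const

/-- bounded measurable functions are integrable -/
theorem bmi {X : Type} [MeasurableSpace X] (ν : Measure X) [IsFiniteMeasure ν] (f : X → ℝ)
    (hf : Measurable f) (B : ℝ) (hb : ∀ x, 0 ≤ f x ∧ f x ≤ B) : Integrable f ν := by
  refine Integrable.of_bound hf.aestronglyMeasurable B (Filter.Eventually.of_forall fun x => ?_)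
  rw [Real.norm_of_nonneg (hb x).1]
  exact (hb x).2

/-- the four weights on the right side -/
theorem rhs_int {I : Type} [Fintype I] (ν : Measure (I → E3)) [IsFiniteMeasure ν] (m : (I → E3) → ℝ)
    (hm : Measurable m) (Mm : ℝ) (h2 : ∀ x, 2 ≤ m x) (hM : ∀ x, m x ≤ Mm) (w : E3) :
    Integrable (fun x => m x ^ 2) ν ∧ Integrable (fun x => m x * nb w 3 x ^ ((4 : ℝ) / 3)) ν ∧
    Integrable (fun x => ∑ i, ((1 + ‖x i - w‖) ^ 4)⁻¹) ν ∧
    Integrable (fun x => nn w x ^ 2 / m x) ν := by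
  refine ⟨?_, ?_, ?_, ?_⟩
  · refine bmi ν _ (hm.pow_const 2) (Mm ^ 2) fun x => ⟨sq_nonneg _, ?_⟩
    exact pow_le_pow_left₀ (by linarith [h2 x]) (hM x) 2
  · refine bmi ν _ (hm.mul ((nb_meas w 3).pow_const _))
      (Mm * (Fintype.card I : ℝ) ^ ((4 : ℝ) / 3)) fun x => ⟨?_, ?_⟩
    · have h3 := nb_nn w 3 x
      have h4 : 0 ≤ m x := by linarith [h2 x]
      positivity
    · exact mul_le_mul (hM x) (Real.rpow_le_rpow (nb_nn w 3 x) (nb_le_card w 3 x) (by norm_num))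
        (Real.rpow_nonneg (nb_nn w 3 x) _) (by linarith [h2 x, hM x])
  · refine bmi ν _ (by fun_prop) (Fintype.card I : ℝ) fun x => ⟨by positivity, ?_⟩
    calc ∑ i, ((1 + ‖x i - w‖) ^ 4)⁻¹ ≤ ∑ _i : I, (1 : ℝ) := by
          refine Finset.sum_le_sum fun i _ => ?_
          refine inv_le_one_of_one_le₀ ?_
          exact one_le_pow₀ (by linarith [norm_nonneg (x i - w)])
      _ = _ := by simp
  · have hnm : Measurable (fun x : I → E3 => nn w x) := by
      unfold nn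
      fun_prop
    refine bmi ν _ ((hnm.pow_const 2).div hm) ((Fintype.card I : ℝ) ^ 2) fun x => ⟨?_, ?_⟩
    · have h4 : 0 ≤ m x := by linarith [h2 x]
      positivity
    · have h4 := h2 x
      rw [div_le_iff₀ (by linarith)]
      have h5 := pow_le_pow_left₀ (nn_bd w x).1 (nn_bd w x).2 2
      nlinarith [sq_nonneg (Fintype.card I : ℝ)]

theorem vv_int {I : Type} [Fintype I] (ν : Measure (I → E3)) [IsFiniteMeasure ν]
    (m pb : (I → E3) → ℝ) (hm : Measurable m) (hpm : Measurable pb) (Mm Pm z : ℝ) (hz0 : 0 ≤ z)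
    (h2 : ∀ x, 2 ≤ m x) (hM : ∀ x, m x ≤ Mm) (hP : ∀ x, |pb x| ≤ Pm) (c : I → ℝ)
    (hz : ∀ i, |c i| ≤ z) (w : E3) :
    Integrable (fun x => ∫ ω in Metric.ball w 1, vp c x (m x) (pb x) ω ^ 2) ν := by
  have h : Integrable (fun t : (I → E3) × E3 => vp c t.1 (m t.1) (pb t.1) t.2 ^ 2)
      (ν.prod (volume.restrict (Metric.ball w 1))) := by
    refine bmi _ _ ((m_vp c measurable_fst measurable_snd (hm.comp measurable_fst)
      (hpm.comp measurable_fst)).pow_const 2) ((Fintype.card I * (z * Mm) + Pm) ^ 2)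
      fun t => ⟨sq_nonneg _, ?_⟩
    rw [← sq_abs]
    refine pow_le_pow_left₀ (abs_nonneg _) ((vp_bd c t.1 z (m t.1) (pb t.1) hz
      (by linarith [h2 t.1]) t.2).trans ?_) 2
    have := hM t.1
    have := hP t.1
    gcongr
  exact h.integral_prod_left

/-- TARGET -/
theorem int2 {S : Type} [Fintype S] [DecidableEq S] (D : Species S) (hD : D.Valid) (C0 : ℝ)
    (hC0 : 0 ≤ C0) : ∃ C : ℝ, 0 < C ∧ ∀ K : ℝ, 8 ≤ K → ∃ CK : ℝ, 0 < CK ∧
    ∀ {I : Type} [Fintype I] [DecidableEq I] (sp : I → S) (ℓ η : ℝ) {k : ℕ} (p : Fin k → ℝ)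
      (ψ : Fin k → Wave D I), BS D sp ℓ C0 η p ψ → ∀ y w : E3, Metric.closedBall w 4 ⊆ cube ℓ →
      wx D p ψ (fun x => ∫ ω in Metric.ball w 1, vv D sp ℓ K y x ω ^ 2) ≤
        CK * (1 + wx D p ψ (fun x => mu K y x ^ 2) +
          wx D p ψ (fun x => mu K y x * nb w 3 x ^ ((4 : ℝ) / 3)) +
          wx D p ψ (fun x => ∑ i, ((1 + ‖x i - w‖) ^ 4)⁻¹)) +
        C * wx D p ψ (fun x => nn w x ^ 2 / mu K y x) := by
  obtain ⟨Ma, hMa, hal⟩ := al_bdd
  set z : ℝ := ∑ s, |D.charge s| with hzdef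
  have hz : ∀ s, |D.charge s| ≤ z := fun s =>
    Finset.single_le_sum (f := fun s => |D.charge s|) (fun _ _ => abs_nonneg _)
      (Finset.mem_univ s)
  have hz0 : 0 ≤ z := Finset.sum_nonneg fun _ _ => abs_nonneg _
  obtain ⟨Cf, hCf, hfz⟩ := fz_approx D z C0 hz hC0
  obtain ⟨Cs, hCs, hsm⟩ := smear
  obtain ⟨Ci, hCi, hint⟩ := int_bounds
  have hca := ca_nn
  have hcb := cb_nn
  set Q : ℝ := 4 + 4 * ca + Cf * cb with hQ
  have hQ0 : 0 < Q := by positivity
  set θ : ℝ := 1 / (4 * (1 + C0) * Q) with hθdef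
  have hθ : 0 < θ := by positivity
  have hθQ : 2 * C0 * (θ * Q) ≤ 1 / 2 := by
    have e : θ * Q = 1 / (4 * (1 + C0)) := by
      rw [hθdef]
      field_simp
    rw [e, mul_one_div, div_le_iff₀ (by positivity)]
    linarith
  obtain ⟨Cθ, hCθ, hyo⟩ := young Ma θ hMa hθ
  obtain ⟨L, hL, hLe⟩ := F3_W Cf θ Cθ Ci hCf.le hθ hCθ hCi.le
  refine ⟨2 * C0 * L + 2 * (Cs * z) ^ 2 * Ci + 1, by positivity, fun K hK =>
    ⟨2 * C0 * L * (1 + K ^ 2) + 1, by positivity, ?_⟩⟩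
  intro I _ _ sp ℓ η k p ψ hB y w hw
  have hℓ : 0 < ℓ := by linarith [hB.len]
  have hK0 : 0 ≤ K := by linarith
  have hνf := nu_fin D hB
  have bm := bs_meas D hB
  set ν := nu D p ψ with hν
  have hν1 : ν.real Set.univ = 1 := nu_one D hB
  set c : I → ℝ := fun i => D.charge (sp i) with hc
  have hcz : ∀ i, |c i| ≤ z := fun i => hz _
  obtain ⟨hpm, Pm, hPm0, hPm⟩ := phb_facts D sp ℓ hℓ z hz hz0
  set m : (I → E3) → ℝ := fun x => mu K y x with hm
  have hmm : Measurable m := mu_meas K y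
  set Mm : ℝ := (K * (1 + (Fintype.card I : ℝ))) ^ ((1 : ℝ) / 3) with hMm
  have hMm0 : 0 ≤ Mm := by positivity
  have hm2 : ∀ x, 2 ≤ m x := fun x => (mu_bd K hK y x).1
  have hmK : ∀ x, K ≤ m x ^ 3 := fun x => (mu_bd K hK y x).2.1
  have hmM : ∀ x, m x ≤ Mm := fun x => (mu_bd K hK y x).2.2
  set pb : (I → E3) → ℝ := fun x => phb D sp ℓ x with hpb
  have hib : ∀ x, IB Ci x w (m x) := fun x => by
    obtain ⟨h1, h2, h3, h4, h5⟩ := hint x w (m x) (hm2 x)
    exact ⟨h1, h2, h3, h4, h5⟩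
  obtain ⟨r1, r2, r3, r4⟩ := rhs_int ν m hmm Mm hm2 hmM w
  have rv := vv_int ν m pb hmm hpm Mm Pm z hz0 hm2 hmM hPm c hcz w
  have hJ : ∀ s : ℝ, (s = 1 ∨ s = -1) → _ := fun s hs' =>
    joint_F ν m pb hmm hpm z Mm Pm Ci hz0 hMm0 hPm0 hCi.le w hm2 hmM hPm hib Cf K θ Cθ s c hcz
      hCf.le hK0 hθ.le hCθ hs'
  -- flatness, integrated
  have hfub : ∀ s : ℝ, (s = 1 ∨ s = -1) →
      |∫ x, ∫ q, F1 s c x (m x) (pb x) q ∂(PP w) ∂ν| ≤
        C0 * ∫ x, ∫ q, F3 Cf K θ Cθ s c x (m x) (pb x) q ∂(PP w) ∂ν := by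
    intro s hs'
    obtain ⟨J1, J3⟩ := hJ s hs'
    refine fub ν (PP w) _ _ C0 J1 J3 ?_
    filter_upwards [PP_ae w] with q hq
    obtain ⟨hq1, hq2⟩ := hq
    have hsub : Metric.closedBall (q.1 + q.2) 1 ⊆ cube ℓ := by
      refine Set.Subset.trans ?_ hw
      intro v hv
      rw [Metric.mem_closedBall, dist_eq_norm] at hv ⊢
      rw [Metric.mem_ball, dist_eq_norm] at hq1
      have hq2' : ‖q.2‖ ≤ 1 / 2 := by simpa [UU] using hq2
      have e : v - w = (v - (q.1 + q.2)) + (q.1 - w) + q.2 := by abel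
      rw [e]
      calc ‖(v - (q.1 + q.2)) + (q.1 - w) + q.2‖ ≤ ‖v - (q.1 + q.2)‖ + ‖q.1 - w‖ + ‖q.2‖ :=
            norm_add₃_le
        _ ≤ 4 := by linarith
    exact point D hD C0 hC0 z hz hz0 Cf hCf Ma θ Cθ hMa hal hθ hCθ hyo sp ℓ η p ψ hB K s hK hs'
      y q.1 q.2 hsub (hfz sp ℓ (by linarith [hB.len]) hB.card K s y q.1 q.2 (by linarith) hs')
  -- the upper bound
  set V : ℝ := ∫ x, (∫ ω in Metric.ball w 1, vp c x (m x) (pb x) ω ^ 2) ∂ν with hV
  set Eq : ℝ := ∫ x, nn w x ^ 2 / m x ∂ν with hEq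
  set EY : ℝ := 1 + (∫ x, m x ^ 2 ∂ν) + (∫ x, m x * nb w 3 x ^ ((4 : ℝ) / 3) ∂ν) +
    ∫ x, ∑ i, ((1 + ‖x i - w‖) ^ 4)⁻¹ ∂ν with hEY
  have hup : ∀ s : ℝ, (s = 1 ∨ s = -1) →
      ∫ x, ∫ q, F3 Cf K θ Cθ s c x (m x) (pb x) q ∂(PP w) ∂ν ≤
        θ * Q * V + L * ((1 + K ^ 2) * EY + Eq) := by
    intro s hs'
    obtain ⟨J1, J3⟩ := hJ s hs'
    have iY : Integrable (fun x => 1 + m x ^ 2 + m x * nb w 3 x ^ ((4 : ℝ) / 3) +
      ∑ i, ((1 + ‖x i - w‖) ^ 4)⁻¹) ν := (((integrable_const 1).add r1).add r2).add r3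
    have h1 : ∫ x, ∫ q, F3 Cf K θ Cθ s c x (m x) (pb x) q ∂(PP w) ∂ν ≤
        ∫ x, (θ * Q * (∫ ω in Metric.ball w 1, vp c x (m x) (pb x) ω ^ 2) +
          L * ((1 + K ^ 2) * (1 + m x ^ 2 + m x * nb w 3 x ^ ((4 : ℝ) / 3) +
            ∑ i, ((1 + ‖x i - w‖) ^ 4)⁻¹) + nn w x ^ 2 / m x)) ∂ν := by
      refine integral_mono J3.integral_prod_left
        ((rv.const_mul _).add (((iY.const_mul _).add r4).const_mul L)) fun x => ?_
      exact hLe K s z c x (m x) (pb x) w (hm2 x) hK0 (hmK x) hs' (hib x) hcz hz0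
    refine h1.trans (le_of_eq ?_)
    have j1 := integral_add (rv.const_mul (θ * Q)) (((iY.const_mul (1 + K ^ 2)).add r4).const_mul L)
    have j2 := integral_add (iY.const_mul (1 + K ^ 2)) r4
    have j3 := integral_add (((integrable_const (μ := ν) (1 : ℝ)).add r1).add r2) r3
    have j4 := integral_add ((integrable_const (μ := ν) (1 : ℝ)).add r1) r2
    have j5 := integral_add (integrable_const (μ := ν) (1 : ℝ)) r1
    simp only [Pi.add_apply] at j1 j2 j3 j4 j5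
    rw [integral_const, hν1, one_smul] at j5
    rw [j1, integral_const_mul, integral_const_mul, j2, integral_const_mul, j3, j4, j5]
  -- the lower bound
  have hlow : 3 / 2 * V ≤ (∫ x, ∫ q, F1 1 c x (m x) (pb x) q ∂(PP w) ∂ν) -
      (∫ x, ∫ q, F1 (-1) c x (m x) (pb x) q ∂(PP w) ∂ν) + 2 * (Cs * z) ^ 2 * Ci * Eq := by
    obtain ⟨J1, -⟩ := hJ 1 (Or.inl rfl)
    obtain ⟨J2, -⟩ := hJ (-1) (Or.inr rfl)
    have i1 : Integrable (fun x => ∫ q, F1 1 c x (m x) (pb x) q ∂(PP w)) ν :=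
      J1.integral_prod_left
    have i2 : Integrable (fun x => ∫ q, F1 (-1) c x (m x) (pb x) q ∂(PP w)) ν :=
      J2.integral_prod_left
    have h1 : ∫ x, 3 / 2 * (∫ ω in Metric.ball w 1, vp c x (m x) (pb x) ω ^ 2) ∂ν ≤
        ∫ x, (((∫ q, F1 1 c x (m x) (pb x) q ∂(PP w)) -
          (∫ q, F1 (-1) c x (m x) (pb x) q ∂(PP w))) +
          2 * (Cs * z) ^ 2 * Ci * (nn w x ^ 2 / m x)) ∂ν := by
      refine integral_mono (rv.const_mul _) ((i1.sub i2).add (r4.const_mul _)) fun x => ?_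
      have h2 := F1_lower Ci x w (m x) (hm2 x) (hib x) z (pb x) Cs c hcz hz0 (fun ω =>
        (hsm c x z (m x) (pb x) ω hcz (by linarith [hm2 x])).2)
      have h3 := (hib x).d
      have h4 : 2 * (Cs * z) ^ 2 * (∫ ω in Metric.ball w 1, DD x (m x) ω ^ 2) ≤
          2 * (Cs * z) ^ 2 * (Ci / m x * nn w x ^ 2) :=
        mul_le_mul_of_nonneg_left h3 (by positivity)
      simp only [Pi.add_apply, Pi.sub_apply]
      calc _ ≤ _ := h2
        _ ≤ (∫ q, F1 1 c x (m x) (pb x) q ∂(PP w)) -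
          (∫ q, F1 (-1) c x (m x) (pb x) q ∂(PP w)) +
            2 * (Cs * z) ^ 2 * (Ci / m x * nn w x ^ 2) := by linarith
        _ = _ := by ring
    have j1 := integral_add (i1.sub i2) (r4.const_mul (2 * (Cs * z) ^ 2 * Ci))
    have j2 := integral_sub i1 i2
    simp only [Pi.sub_apply] at j1 j2
    rw [j1, j2, integral_const_mul, integral_const_mul] at h1
    exact h1
  have hVn : 0 ≤ V := integral_nonneg fun x => integral_nonneg fun ω => sq_nonneg _
  have a1 := (abs_le.1 (hfub 1 (Or.inl rfl))).2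
  have a2 := (abs_le.1 (hfub (-1) (Or.inr rfl))).1
  have b1 := mul_le_mul_of_nonneg_left (hup 1 (Or.inl rfl)) hC0
  have b2 := mul_le_mul_of_nonneg_left (hup (-1) (Or.inr rfl)) hC0
  have hEY0 : 0 ≤ EY := by
    have q1 : 0 ≤ ∫ x, m x ^ 2 ∂ν := integral_nonneg fun x => sq_nonneg _
    have q2 : 0 ≤ ∫ x, m x * nb w 3 x ^ ((4 : ℝ) / 3) ∂ν := integral_nonneg fun x =>
      mul_nonneg (by linarith [hm2 x]) (Real.rpow_nonneg (nb_nn w 3 x) _)
    have q3 : 0 ≤ ∫ x, ∑ i, ((1 + ‖x i - w‖) ^ 4)⁻¹ ∂ν := integral_nonneg fun x => by positivity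
    rw [hEY]
    positivity
  have hEq0 : 0 ≤ Eq := integral_nonneg fun x =>
    div_nonneg (sq_nonneg _) (by linarith [hm2 x])
  have hfin : V ≤ 2 * C0 * L * (1 + K ^ 2) * EY + (2 * C0 * L + 2 * (Cs * z) ^ 2 * Ci) * Eq := by
    have h1 : 3 / 2 * V ≤ 2 * C0 * (θ * Q) * V + 2 * C0 * L * (1 + K ^ 2) * EY +
        (2 * C0 * L + 2 * (Cs * z) ^ 2 * Ci) * Eq := by linarith
    have h2 : 2 * C0 * (θ * Q) * V ≤ 1 / 2 * V := mul_le_mul_of_nonneg_right hθQ hVn
    linarith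
  have w0 := nu_integral D p hB.p0 ψ bm _ rv
  have w1 := nu_integral D p hB.p0 ψ bm _ r1
  have w2 := nu_integral D p hB.p0 ψ bm _ r2
  have w3 := nu_integral D p hB.p0 ψ bm _ r3
  have w4 := nu_integral D p hB.p0 ψ bm _ r4
  have g0 : wx D p ψ (fun x => ∫ ω in Metric.ball w 1, vv D sp ℓ K y x ω ^ 2) = V := w0.symm
  have g1 : wx D p ψ (fun x => mu K y x ^ 2) = ∫ x, m x ^ 2 ∂ν := w1.symm
  have g2 : wx D p ψ (fun x => mu K y x * nb w 3 x ^ ((4 : ℝ) / 3)) =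
    ∫ x, m x * nb w 3 x ^ ((4 : ℝ) / 3) ∂ν := w2.symm
  have g3 : wx D p ψ (fun x => ∑ i, ((1 + ‖x i - w‖) ^ 4)⁻¹) =
    ∫ x, ∑ i, ((1 + ‖x i - w‖) ^ 4)⁻¹ ∂ν := w3.symm
  have g4 : wx D p ψ (fun x => nn w x ^ 2 / mu K y x) = Eq := w4.symm
  rw [g0, g1, g2, g3, g4, ← hEY]
  calc V ≤ _ := hfin
    _ ≤ _ := by
      have : 0 ≤ EY := hEY0
      nlinarith

end fin

end Pool.Agent.Helper780_CP.RB20
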