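import Pool.Agent.Helper780_CP.LLDefs2
import Pool.Agent.Helper780_CP.BnDefs
import Pool.Agent.Helper780_CP.RB15
import Pool.Agent.Helper780_CP.RB20

set_option autoImplicit false

open MeasureTheory
open scoped Topology

namespace Pool.Agent.Helper780_CP.RB21

open Pool.Agent.Helper780_CP
open Pool.Agent.Helper985.CP
open Pool.Agent.Helper780_CP.RB15 (num_sup)
open Pool.Agent.Helper780_CP.RB20 (int2)

open Pool.Agent.Helper780_CP Pool.Agent.Helper985.CP

section api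

variable {S : Type} (D : Species S) {I : Type} [Fintype I] [DecidableEq I] (sp : I → S)

theorem wib (ℓ : ℝ) {W : (I → E3) → ℝ} (hW : Measurable W) (B : ℝ) (hb : ∀ x, |W x| ≤ B) :
    WI D sp ℓ W := by
  intro Ψ hΨ τ
  exact (int_state D sp ℓ Ψ hΨ τ).1.bdd_mul (c := B) hW.aestronglyMeasurable
    (Filter.Eventually.of_forall fun x => by rw [Real.norm_eq_abs]; exact hb x)

variable {k : ℕ} {p : Fin k → ℝ} {ψ : Fin k → Wave D I} {ℓ : ℝ}

theorem wxm (hs : ∀ j, IsState D sp ℓ (ψ j)) (hp : ∀ j, 0 ≤ p j) {V W : (I → E3) → ℝ}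
    (hV : WI D sp ℓ V) (hW : WI D sp ℓ W) (h : ∀ x, V x ≤ W x) : wx D p ψ V ≤ wx D p ψ W :=
  Finset.sum_le_sum fun j _ => mul_le_mul_of_nonneg_left
    (wm_mono D sp ℓ hV hW (ψ j) (hs j) (Filter.Eventually.of_forall h)) (hp j)

theorem wxa (hs : ∀ j, IsState D sp ℓ (ψ j)) {V W : (I → E3) → ℝ}
    (hV : WI D sp ℓ V) (hW : WI D sp ℓ W) :
    wx D p ψ (fun x => V x + W x) = wx D p ψ V + wx D p ψ W := by
  unfold wx
  rw [← Finset.sum_add_distrib]
  refine Finset.sum_congr rfl fun j _ => ?_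
  rw [wm_add D sp ℓ hV hW (ψ j) (hs j)]
  ring

theorem wxs (V : (I → E3) → ℝ) (c : ℝ) : wx D p ψ (fun x => c * V x) = c * wx D p ψ V := by
  unfold wx
  rw [Finset.mul_sum]
  refine Finset.sum_congr rfl fun j _ => ?_
  rw [wm_smul]
  ring

theorem wxc (hn : ∀ j, nrm2 D (ψ j) = 1) (hp1 : ∑ j, p j = 1) (c : ℝ) :
    wx D p ψ (fun _ => c) = c := by
  have e : (fun _ : I → E3 => c) = fun _ => c * 1 := by simp
  rw [e, wxs D (fun _ => 1) c]
  unfold wx
  simp only [wm_one, hn, mul_one, hp1]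

/-- the density -/
noncomputable def rho (p : Fin k → ℝ) (ψ : Fin k → Wave D I) (x : I → E3) : ℝ :=
  ∑ j, p j * ∑ τ, ‖ψ j τ x‖ ^ 2

theorem rho_nn (hp : ∀ j, 0 ≤ p j) (x : I → E3) : 0 ≤ rho D p ψ x :=
  Finset.sum_nonneg fun j _ => mul_nonneg (hp j) (Finset.sum_nonneg fun τ _ => sq_nonneg _)

theorem rho_cont (hs : ∀ j, IsState D sp ℓ (ψ j)) : Continuous (rho D p ψ) := by
  unfold rho
  refine continuous_finsetSum _ fun j _ => continuous_const.mul
    (continuous_finsetSum _ fun τ _ => ?_)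
  exact (((hs j).smooth τ).continuous.norm).pow 2

theorem rho_int (hs : ∀ j, IsState D sp ℓ (ψ j)) : Integrable (rho D p ψ) := by
  unfold rho
  refine integrable_finsetSum _ fun j _ => Integrable.const_mul
    (integrable_finsetSum _ fun τ _ => ?_) _
  exact (int_state D sp ℓ (ψ j) (hs j) τ).1

theorem wx_rho (hs : ∀ j, IsState D sp ℓ (ψ j)) {W : (I → E3) → ℝ} (hW : WI D sp ℓ W) :
    wx D p ψ W = ∫ x, W x * rho D p ψ x := by
  have e : (fun x => W x * rho D p ψ x) = fun x => ∑ j, p j * ∑ τ, W x * ‖ψ j τ x‖ ^ 2 := by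
    funext x
    unfold rho
    rw [Finset.mul_sum]
    refine Finset.sum_congr rfl fun j _ => ?_
    rw [← Finset.mul_sum]
    ring
  rw [e, integral_finsetSum _ fun j _ => Integrable.const_mul
    (integrable_finsetSum _ fun τ _ => hW (ψ j) (hs j) τ) _]
  unfold wx wm
  refine Finset.sum_congr rfl fun j _ => ?_
  rw [integral_const_mul, integral_finsetSum _ fun τ _ => hW (ψ j) (hs j) τ]

end api

section nbs

variable {I : Type} [Fintype I]

theorem nb0 (y : E3) (R : ℝ) (x : I → E3) : 0 ≤ nb y R x := by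
  unfold nb
  exact Finset.sum_nonneg fun i _ => by split_ifs <;> norm_num

theorem nbN (y : E3) (R : ℝ) (x : I → E3) : nb y R x ≤ Fintype.card I := by
  unfold nb
  calc _ ≤ ∑ _i : I, (1 : ℝ) := Finset.sum_le_sum fun i _ => by split_ifs <;> norm_num
    _ = _ := by simp

theorem nb_me (y : E3) (R : ℝ) : Measurable (fun x : I → E3 => nb y R x) := by
  unfold nb
  refine Finset.measurable_fun_sum _ fun i _ => ?_
  refine Measurable.ite ?_ measurable_const measurable_const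
  exact measurableSet_le (by fun_prop) measurable_const

theorem nb_me2 (R : ℝ) : Measurable (fun z : (I → E3) × E3 => nb z.2 R z.1) := by
  unfold nb
  refine Finset.measurable_fun_sum _ fun i _ => ?_
  refine Measurable.ite ?_ measurable_const measurable_const
  exact measurableSet_le (by fun_prop) measurable_const

theorem nb_mono (y : E3) {R R' : ℝ} (h : R ≤ R') (x : I → E3) : nb y R x ≤ nb y R' x := by
  unfold nb
  refine Finset.sum_le_sum fun i _ => ?_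
  by_cases h1 : ‖x i - y‖ ≤ R
  · rw [if_pos h1, if_pos (h1.trans h)]
  · rw [if_neg h1]
    split_ifs <;> norm_num

theorem nn0 (y : E3) (x : I → E3) : 0 ≤ nn y x :=
  Finset.sum_nonneg fun i _ => (Real.exp_pos _).le

theorem nh0 (y : E3) (x : I → E3) : 0 ≤ nh y x :=
  Finset.sum_nonneg fun i _ => (Real.exp_pos _).le

theorem nnN (y : E3) (x : I → E3) : nn y x ≤ Fintype.card I := by
  unfold nn
  calc _ ≤ ∑ _i : I, (1 : ℝ) := Finset.sum_le_sum fun i _ =>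
        Real.exp_le_one_iff.2 (neg_nonpos.2 (norm_nonneg _))
    _ = _ := by simp

theorem nhN (y : E3) (x : I → E3) : nh y x ≤ Fintype.card I := by
  unfold nh
  calc _ ≤ ∑ _i : I, (1 : ℝ) := Finset.sum_le_sum fun i _ => by
        refine Real.exp_le_one_iff.2 ?_
        have : 1 ≤ √(1 + ‖x i - y‖ ^ 2) := by
          rw [Real.one_le_sqrt]
          nlinarith [sq_nonneg ‖x i - y‖]
        linarith
    _ = _ := by simp

theorem nn_me (y : E3) : Measurable (fun x : I → E3 => nn y x) := by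
  unfold nn
  fun_prop

theorem nh_me (y : E3) : Measurable (fun x : I → E3 => nh y x) := by
  unfold nh
  fun_prop

theorem mu_me (K : ℝ) (y : E3) : Measurable (fun x : I → E3 => mu K y x) := by
  unfold mu
  exact (measurable_const.mul (measurable_const.add (nh_me y))).pow_const _

theorem nn_le_nh (y w : E3) {R : ℝ} (h : ‖w - y‖ ≤ R) (x : I → E3) :
    nn w x ≤ Real.exp R * nh y x := by
  unfold nn nh
  rw [Finset.mul_sum]
  refine Finset.sum_le_sum fun i _ => ?_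
  rw [← Real.exp_add]
  refine Real.exp_le_exp.2 ?_
  have h1 : √(1 + ‖x i - y‖ ^ 2) ≤ 1 + ‖x i - y‖ := by
    rw [Real.sqrt_le_left (by positivity)]
    nlinarith [norm_nonneg (x i - y)]
  have h2 : ‖x i - y‖ ≤ ‖x i - w‖ + ‖w - y‖ := by
    have e : x i - y = (x i - w) + (w - y) := by abel
    rw [e]
    exact norm_add_le _ _
  linarith

end nbs

section tail

theorem h_int : Integrable (fun z : E3 => ((1 + ‖z‖) ^ 4)⁻¹) := by
  have h := integrable_one_add_norm (E := E3) (μ := volume) (r := 4) (by simp; norm_num)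
  refine h.congr (Filter.Eventually.of_forall fun z => ?_)
  have h0 : (0:ℝ) < 1 + ‖z‖ := by positivity
  simp only
  rw [Real.rpow_neg h0.le]
  norm_cast

/-- the constant -/
noncomputable def Ct : ℝ :=
  16 / (volume : Measure E3).real (Metric.closedBall 0 1) * ∫ z : E3, ((1 + ‖z‖) ^ 4)⁻¹

theorem vol_pos : 0 < (volume : Measure E3).real (Metric.closedBall 0 1) :=
  ENNReal.toReal_pos (Metric.measure_closedBall_pos volume 0 one_pos).ne'
    measure_closedBall_lt_top.ne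

theorem Ct_nn : 0 ≤ Ct := by
  unfold Ct
  have := vol_pos
  have : 0 ≤ ∫ z : E3, ((1 + ‖z‖) ^ 4)⁻¹ := integral_nonneg fun z => by positivity
  positivity

variable {S : Type} (D : Species S) {I : Type} [Fintype I] [DecidableEq I] (sp : I → S)

omit [DecidableEq I] in
theorem pt_tail (w : E3) (x : I → E3) :
    ∑ i, ((1 + ‖x i - w‖) ^ 4)⁻¹ ≤ 16 / (volume : Measure E3).real (Metric.closedBall 0 1) *
      ∫ u : E3, ((1 + ‖u - w‖) ^ 4)⁻¹ * nb u 1 x := by
  have hv := vol_pos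
  have hI : Integrable (fun u : E3 => ((1 + ‖u - w‖) ^ 4)⁻¹) := h_int.comp_sub_right w
  have hterm : ∀ i, Integrable (fun u : E3 => ((1 + ‖u - w‖) ^ 4)⁻¹ *
      (if ‖x i - u‖ ≤ 1 then (1 : ℝ) else 0)) := by
    intro i
    refine Integrable.mono hI ?_ (Filter.Eventually.of_forall fun u => ?_)
    · refine hI.1.mul (Measurable.aestronglyMeasurable ?_)
      refine Measurable.ite ?_ measurable_const measurable_const
      exact measurableSet_le (by fun_prop) measurable_const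
    · rw [norm_mul]
      refine mul_le_of_le_one_right (norm_nonneg _) ?_
      split_ifs <;> norm_num
  have hi : ∀ i, ((1 + ‖x i - w‖) ^ 4)⁻¹ * (volume : Measure E3).real (Metric.closedBall 0 1) ≤
      16 * ∫ u : E3, ((1 + ‖u - w‖) ^ 4)⁻¹ * (if ‖x i - u‖ ≤ 1 then (1 : ℝ) else 0) := by
    intro i
    have e1 : ((1 + ‖x i - w‖) ^ 4)⁻¹ / 16 * (volume : Measure E3).real (Metric.closedBall 0 1) =
        ∫ u : E3, (Metric.closedBall (x i) 1).indicator
          (fun _ => ((1 + ‖x i - w‖) ^ 4)⁻¹ / 16) u := by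
      rw [integral_indicator_const _ measurableSet_closedBall]
      rw [smul_eq_mul, mul_comm]
      congr 1
      unfold Measure.real
      rw [Measure.addHaar_closedBall_center volume (x i) 1]
    have e2 : ∫ u : E3, (Metric.closedBall (x i) 1).indicator
          (fun _ => ((1 + ‖x i - w‖) ^ 4)⁻¹ / 16) u ≤
        ∫ u : E3, ((1 + ‖u - w‖) ^ 4)⁻¹ * (if ‖x i - u‖ ≤ 1 then (1 : ℝ) else 0) := by
      refine integral_mono ?_ (hterm i) fun u => ?_
      · rw [integrable_indicator_iff measurableSet_closedBall]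
        exact integrableOn_const (measure_closedBall_lt_top.ne)
      · show (Metric.closedBall (x i) 1).indicator (fun _ => ((1 + ‖x i - w‖) ^ 4)⁻¹ / 16) u ≤
          ((1 + ‖u - w‖) ^ 4)⁻¹ * (if ‖x i - u‖ ≤ 1 then (1 : ℝ) else 0)
        by_cases hu : ‖x i - u‖ ≤ 1
        · have hu' : u ∈ Metric.closedBall (x i) 1 := by
            rw [Metric.mem_closedBall, dist_eq_norm, norm_sub_rev]
            exact hu
          rw [Set.indicator_of_mem hu', if_pos hu, mul_one]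
          have h1 : 1 + ‖u - w‖ ≤ 2 * (1 + ‖x i - w‖) := by
            have h2 : ‖u - w‖ ≤ ‖x i - u‖ + ‖x i - w‖ := by
              have e : u - w = -(x i - u) + (x i - w) := by abel
              rw [e]
              exact (norm_add_le _ _).trans (by rw [norm_neg])
            linarith [norm_nonneg (x i - w)]
          have h3 : (1 + ‖u - w‖) ^ 4 ≤ 16 * (1 + ‖x i - w‖) ^ 4 := by
            calc (1 + ‖u - w‖) ^ 4 ≤ (2 * (1 + ‖x i - w‖)) ^ 4 :=
                  pow_le_pow_left₀ (by positivity) h1 4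
              _ = _ := by ring
          have h4 : (16 * (1 + ‖x i - w‖) ^ 4)⁻¹ ≤ ((1 + ‖u - w‖) ^ 4)⁻¹ :=
            inv_anti₀ (by positivity) h3
          rw [mul_inv] at h4
          linarith
        · have hu' : u ∉ Metric.closedBall (x i) 1 := by
            rw [Metric.mem_closedBall, dist_eq_norm, norm_sub_rev]
            exact hu
          rw [Set.indicator_of_notMem hu', if_neg hu, mul_zero]
    rw [← e1] at e2
    linarith
  have hsum : ∫ u : E3, ((1 + ‖u - w‖) ^ 4)⁻¹ * nb u 1 x =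
      ∑ i, ∫ u : E3, ((1 + ‖u - w‖) ^ 4)⁻¹ * (if ‖x i - u‖ ≤ 1 then (1 : ℝ) else 0) := by
    rw [← integral_finsetSum _ fun i _ => hterm i]
    refine integral_congr_ae (Filter.Eventually.of_forall fun u => ?_)
    simp only [nb, Finset.mul_sum]
  rw [hsum, Finset.mul_sum]
  refine Finset.sum_le_sum fun i _ => ?_
  rw [div_mul_eq_mul_div, le_div_iff₀ hv]
  exact hi i

theorem wx_tail {k : ℕ} {p : Fin k → ℝ} {ψ : Fin k → Wave D I} {ℓ : ℝ}
    (hs : ∀ j, IsState D sp ℓ (ψ j)) (hp : ∀ j, 0 ≤ p j) (w : E3) (M : ℝ)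
    (hM : ∀ u, wx D p ψ (nb u 1) ≤ M) :
    wx D p ψ (fun x => ∑ i, ((1 + ‖x i - w‖) ^ 4)⁻¹) ≤ Ct * M := by
  have hv := vol_pos
  have hI : Integrable (fun u : E3 => ((1 + ‖u - w‖) ^ 4)⁻¹) := h_int.comp_sub_right w
  have hWI : WI D sp ℓ (fun x : I → E3 => ∑ i, ((1 + ‖x i - w‖) ^ 4)⁻¹) := by
    refine wib D sp ℓ (by fun_prop) (Fintype.card I) fun x => ?_
    rw [abs_of_nonneg (Finset.sum_nonneg fun i _ => by positivity)]
    calc _ ≤ ∑ _i : I, (1 : ℝ) := Finset.sum_le_sum fun i _ => by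
          refine inv_le_one_of_one_le₀ (one_le_pow₀ ?_)
          linarith [norm_nonneg (x i - w)]
      _ = _ := by simp
  rw [wx_rho D sp hs hWI]
  set F : (I → E3) → E3 → ℝ := fun x u =>
    ((1 + ‖u - w‖) ^ 4)⁻¹ * nb u 1 x * rho D p ψ x with hF
  have hFI : Integrable (Function.uncurry F) (volume.prod volume) := by
    have h1 : Integrable (fun z : (I → E3) × E3 => (Fintype.card I * rho D p ψ z.1) *
        ((1 + ‖z.2 - w‖) ^ 4)⁻¹) (volume.prod volume) :=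
      ((rho_int D sp hs).const_mul _).mul_prod hI
    refine Integrable.mono h1 ?_ (Filter.Eventually.of_forall fun z => ?_)
    · refine Measurable.aestronglyMeasurable ?_
      show Measurable fun z : (I → E3) × E3 =>
        ((1 + ‖z.2 - w‖) ^ 4)⁻¹ * nb z.2 1 z.1 * rho D p ψ z.1
      refine (Measurable.mul (by fun_prop) (nb_me2 1)).mul ?_
      exact (rho_cont D sp hs).measurable.comp measurable_fst
    · show ‖((1 + ‖z.2 - w‖) ^ 4)⁻¹ * nb z.2 1 z.1 * rho D p ψ z.1‖ ≤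
        ‖(Fintype.card I * rho D p ψ z.1) * ((1 + ‖z.2 - w‖) ^ 4)⁻¹‖
      have h2 := rho_nn D (ψ := ψ) hp z.1
      have h3 := nb0 z.2 1 z.1
      have h4 : 0 ≤ ((1 + ‖z.2 - w‖) ^ 4)⁻¹ := by positivity
      rw [Real.norm_of_nonneg (by positivity), Real.norm_of_nonneg (by positivity)]
      calc ((1 + ‖z.2 - w‖) ^ 4)⁻¹ * nb z.2 1 z.1 * rho D p ψ z.1
          ≤ ((1 + ‖z.2 - w‖) ^ 4)⁻¹ * (Fintype.card I : ℝ) * rho D p ψ z.1 := by
            gcongr
            exact nbN _ _ _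
        _ = _ := by ring
  have h1 : ∫ x, (∑ i, ((1 + ‖x i - w‖) ^ 4)⁻¹) * rho D p ψ x ≤
      ∫ x, 16 / (volume : Measure E3).real (Metric.closedBall 0 1) * ∫ u : E3, F x u := by
    refine integral_mono ?_ ?_ fun x => ?_
    · have e : (fun x => (∑ i, ((1 + ‖x i - w‖) ^ 4)⁻¹) * rho D p ψ x) = fun x =>
          ∑ j, p j * ∑ τ, (∑ i, ((1 + ‖x i - w‖) ^ 4)⁻¹) * ‖ψ j τ x‖ ^ 2 := by
        funext x
        unfold rho
        rw [Finset.mul_sum]
        refine Finset.sum_congr rfl fun j _ => ?_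
        rw [← Finset.mul_sum]
        ring
      rw [e]
      exact integrable_finsetSum _ fun j _ => Integrable.const_mul
        (integrable_finsetSum _ fun τ _ => hWI (ψ j) (hs j) τ) _
    · exact hFI.integral_prod_left.const_mul _
    · show (∑ i, ((1 + ‖x i - w‖) ^ 4)⁻¹) * rho D p ψ x ≤
        16 / (volume : Measure E3).real (Metric.closedBall 0 1) * ∫ u : E3, F x u
      have e : ∫ u : E3, F x u = (∫ u : E3, ((1 + ‖u - w‖) ^ 4)⁻¹ * nb u 1 x) * rho D p ψ x := by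
        rw [← integral_mul_const]
      rw [e, ← mul_assoc]
      exact mul_le_mul_of_nonneg_right (pt_tail w x) (rho_nn D hp x)
  refine h1.trans ?_
  rw [integral_const_mul]
  have h2 : ∫ x, ∫ u : E3, F x u = ∫ u : E3, ∫ x, F x u := integral_integral_swap hFI
  rw [h2]
  have h3 : ∫ u : E3, ∫ x, F x u ≤ ∫ u : E3, ((1 + ‖u - w‖) ^ 4)⁻¹ * M := by
    refine integral_mono hFI.integral_prod_right (hI.mul_const M) fun u => ?_
    show ∫ x, F x u ≤ ((1 + ‖u - w‖) ^ 4)⁻¹ * M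
    have e : ∫ x, F x u = ((1 + ‖u - w‖) ^ 4)⁻¹ * ∫ x, nb u 1 x * rho D p ψ x := by
      rw [← integral_const_mul]
      refine integral_congr_ae (Filter.Eventually.of_forall fun x => ?_)
      simp only [hF]
      ring
    rw [e]
    refine mul_le_mul_of_nonneg_left ?_ (by positivity)
    rw [← wx_rho D sp hs (wib D sp ℓ (nb_me u 1) (Fintype.card I) fun x => by
      rw [abs_of_nonneg (nb0 u 1 x)]
      exact nbN u 1 x)]
    exact hM u
  have h4 : ∫ u : E3, ((1 + ‖u - w‖) ^ 4)⁻¹ * M = (∫ z : E3, ((1 + ‖z‖) ^ 4)⁻¹) * M := by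
    rw [integral_mul_const]
    congr 1
    exact integral_sub_right_eq_self (fun z : E3 => ((1 + ‖z‖) ^ 4)⁻¹) w
  rw [h4] at h3
  unfold Ct
  rw [mul_assoc]
  exact mul_le_mul_of_nonneg_left h3 (by positivity)

end tail

section real

/-- powers below `4/5` -/
theorem pw {B v θ : ℝ} (hB : 1 ≤ B) (hv : 0 ≤ v) (h0 : 0 ≤ θ) (h1 : θ ≤ 4 / 5) :
    v ^ θ ≤ B ^ (-(1 / 5) : ℝ) * v + B ^ ((4 : ℝ) / 5) := by
  have hB0 : 0 < B := by linarith
  have hn1 : 0 ≤ B ^ (-(1 / 5) : ℝ) := Real.rpow_nonneg hB0.le _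
  have hn2 : 0 ≤ B ^ ((4 : ℝ) / 5) := Real.rpow_nonneg hB0.le _
  rcases le_total v B with h | h
  · have : v ^ θ ≤ B ^ ((4 : ℝ) / 5) :=
      (Real.rpow_le_rpow hv h h0).trans (Real.rpow_le_rpow_of_exponent_le hB h1)
    have := mul_nonneg hn1 hv
    linarith
  · have hv1 : 1 ≤ v := hB.trans h
    have hv0 : 0 < v := by linarith
    have h2 : v ^ θ ≤ v ^ ((4 : ℝ) / 5) := Real.rpow_le_rpow_of_exponent_le hv1 h1
    have h3 : v ^ ((4 : ℝ) / 5) = v ^ (-(1 / 5) : ℝ) * v := by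
      rw [← Real.rpow_add_one hv0.ne']
      norm_num
    have h4 : v ^ (-(1 / 5) : ℝ) ≤ B ^ (-(1 / 5) : ℝ) :=
      Real.rpow_le_rpow_of_nonpos hB0 h (by norm_num)
    have h5 : v ^ (-(1 / 5) : ℝ) * v ≤ B ^ (-(1 / 5) : ℝ) * v :=
      mul_le_mul_of_nonneg_right h4 hv
    linarith

/-- the mixed term -/
theorem pw2 {B v m : ℝ} (hB : 1 ≤ B) (hv : 0 ≤ v) (hm : 0 ≤ m) :
    v ^ ((1 : ℝ) / 5) * m ^ ((4 : ℝ) / 5) ≤
      B ^ (-(4 / 5) : ℝ) * v + B ^ ((1 : ℝ) / 5) * m := by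
  have hB0 : 0 < B := by linarith
  have hn1 : 0 ≤ B ^ (-(4 / 5) : ℝ) * v := mul_nonneg (Real.rpow_nonneg hB0.le _) hv
  have hn2 : 0 ≤ B ^ ((1 : ℝ) / 5) * m := mul_nonneg (Real.rpow_nonneg hB0.le _) hm
  rcases le_total v (B * m) with h | h
  · have h1 : v ^ ((1 : ℝ) / 5) ≤ B ^ ((1 : ℝ) / 5) * m ^ ((1 : ℝ) / 5) := by
      rw [← Real.mul_rpow hB0.le hm]
      exact Real.rpow_le_rpow hv h (by norm_num)
    have h2 : m ^ ((1 : ℝ) / 5) * m ^ ((4 : ℝ) / 5) = m := by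
      rw [← Real.rpow_add_of_nonneg hm (by norm_num) (by norm_num)]
      norm_num
    calc v ^ ((1 : ℝ) / 5) * m ^ ((4 : ℝ) / 5)
        ≤ B ^ ((1 : ℝ) / 5) * m ^ ((1 : ℝ) / 5) * m ^ ((4 : ℝ) / 5) :=
          mul_le_mul_of_nonneg_right h1 (Real.rpow_nonneg hm _)
      _ = B ^ ((1 : ℝ) / 5) * m := by rw [mul_assoc, h2]
      _ ≤ _ := by linarith
  · have h0 : m ≤ B⁻¹ * v := by
      rw [inv_mul_eq_div, le_div_iff₀ hB0]
      linarith
    have h1 : m ^ ((4 : ℝ) / 5) ≤ B ^ (-(4 / 5) : ℝ) * v ^ ((4 : ℝ) / 5) := by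
      have h3 := Real.rpow_le_rpow hm h0 (show (0 : ℝ) ≤ 4 / 5 by norm_num)
      rw [Real.mul_rpow (by positivity) hv, Real.inv_rpow hB0.le, ← Real.rpow_neg hB0.le] at h3
      exact h3
    have h2 : v ^ ((1 : ℝ) / 5) * v ^ ((4 : ℝ) / 5) = v := by
      rw [← Real.rpow_add_of_nonneg hv (by norm_num) (by norm_num)]
      norm_num
    calc v ^ ((1 : ℝ) / 5) * m ^ ((4 : ℝ) / 5)
        ≤ v ^ ((1 : ℝ) / 5) * (B ^ (-(4 / 5) : ℝ) * v ^ ((4 : ℝ) / 5)) :=
          mul_le_mul_of_nonneg_left h1 (Real.rpow_nonneg hv _)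
      _ = B ^ (-(4 / 5) : ℝ) * (v ^ ((1 : ℝ) / 5) * v ^ ((4 : ℝ) / 5)) := by ring
      _ = B ^ (-(4 / 5) : ℝ) * v := by rw [h2]
      _ ≤ _ := by linarith

theorem one_add_pow {t : ℝ} (ht : 0 ≤ t) :
    (1 + t) ^ ((5 : ℝ) / 3) ≤ 4 * (1 + t ^ ((5 : ℝ) / 3)) := by
  have h2 : (2 : ℝ) ^ ((5 : ℝ) / 3) ≤ 4 := by
    have : (2 : ℝ) ^ ((5 : ℝ) / 3) ≤ (2 : ℝ) ^ (2 : ℝ) :=
      Real.rpow_le_rpow_of_exponent_le (by norm_num) (by norm_num)
    refine this.trans ?_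
    norm_num
  have ht0 : 0 ≤ t ^ ((5 : ℝ) / 3) := Real.rpow_nonneg ht _
  rcases le_total t 1 with h | h
  · have : (1 + t) ^ ((5 : ℝ) / 3) ≤ 2 ^ ((5 : ℝ) / 3) :=
      Real.rpow_le_rpow (by linarith) (by linarith) (by norm_num)
    linarith
  · have h3 : (1 + t) ^ ((5 : ℝ) / 3) ≤ (2 * t) ^ ((5 : ℝ) / 3) :=
      Real.rpow_le_rpow (by linarith) (by linarith) (by norm_num)
    rw [Real.mul_rpow (by norm_num) ht] at h3
    have : (2 : ℝ) ^ ((5 : ℝ) / 3) * t ^ ((5 : ℝ) / 3) ≤ 4 * t ^ ((5 : ℝ) / 3) :=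
      mul_le_mul_of_nonneg_right h2 ht0
    linarith

end real

/-- TARGET -/
theorem int2A {S : Type} [Fintype S] [DecidableEq S] (D : Species S) (hD : D.Valid)
    (hf : ∀ s, D.charge s < 0 → D.fermion s = true) (hz : ∀ s, 0 < |D.charge s|) (C0 R : ℝ)
    (hC0 : 0 ≤ C0) (hR : 0 ≤ R) : ∃ C : ℝ, 0 < C ∧ ∀ K : ℝ, 8 ≤ K → ∃ CK : ℝ, 0 < CK ∧
    ∀ {I : Type} [Fintype I] [DecidableEq I] (sp : I → S) (ℓ η : ℝ) {k : ℕ} (p : Fin k → ℝ)
      (ψ : Fin k → Wave D I), BS D sp ℓ C0 η p ψ → ∀ A : ℝ, 0 ≤ A →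
      (∀ y ∈ wall ℓ, qB D sp K p ψ y ≤ A) → ∀ y w : E3, ‖w - y‖ ≤ R →
      Metric.closedBall w 4 ⊆ cube ℓ →
      wx D p ψ (fun x => ∫ ω in Metric.ball w 1, vv D sp ℓ K y x ω ^ 2) ≤
        CK * (1 + A) ^ ((4 : ℝ) / 5) + C / K ^ ((1 : ℝ) / 3) * (1 + A) := by
  obtain ⟨C1, hC1, h1⟩ := int2 D hD C0 hC0
  obtain ⟨C2, hC2, h2⟩ := num_sup D hD hf hz C0 hC0
  refine ⟨C1 * (Real.exp (R / 3) * C2), by positivity, fun K hK => ?_⟩
  obtain ⟨CK, hCK, h3⟩ := h1 K hK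
  have hK0 : 0 < K := by linarith
  have hCt := Ct_nn
  set C3 : ℝ := 4 * (1 + C2) with hC3
  have hC30 : 0 < C3 := by positivity
  refine ⟨CK * (1 + K ^ ((2 : ℝ) / 3) * (C3 + 1) + K ^ ((1 : ℝ) / 3) * (C3 + C0) +
    Ct * (C2 + 1)), by positivity, ?_⟩
  intro I _ _ sp ℓ η k p ψ hb A hA hq y w hyw hw
  have hst := hb.state
  have hp0 := hb.p0
  set B : ℝ := 1 + A with hB
  have hB1 : 1 ≤ B := by linarith
  have hB0 : 0 < B := by linarith
  set N : ℝ := (Fintype.card I : ℝ) with hN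
  have hN0 : 0 ≤ N := by positivity
  have hnum := h2 sp ℓ η p ψ hb K A hK hA hq
  -- powers of B
  have b45 : 1 ≤ B ^ ((4 : ℝ) / 5) := Real.one_le_rpow hB1 (by norm_num)
  have b15 : B ^ ((1 : ℝ) / 5) ≤ B ^ ((4 : ℝ) / 5) :=
    Real.rpow_le_rpow_of_exponent_le hB1 (by norm_num)
  have bm1 : B ^ (-(1 / 5) : ℝ) * B = B ^ ((4 : ℝ) / 5) := by
    rw [← Real.rpow_add_one hB0.ne']
    norm_num
  have bm4 : B ^ (-(4 / 5) : ℝ) * B = B ^ ((1 : ℝ) / 5) := by
    rw [← Real.rpow_add_one hB0.ne']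
    norm_num
  have bn1 : 0 ≤ B ^ (-(1 / 5) : ℝ) := Real.rpow_nonneg hB0.le _
  have bn4 : 0 ≤ B ^ (-(4 / 5) : ℝ) := Real.rpow_nonneg hB0.le _
  have bn15 : 0 ≤ B ^ ((1 : ℝ) / 5) := Real.rpow_nonneg hB0.le _
  -- the function `v = (1 + nh)^(5/3)`
  have hu1 : ∀ x : I → E3, 1 ≤ 1 + nh y x := fun x => by linarith [nh0 y x]
  have hvm : Measurable fun x : I → E3 => (1 + nh y x) ^ ((5 : ℝ) / 3) :=
    (measurable_const.add (nh_me y)).pow_const _
  have hvW : WI D sp ℓ fun x : I → E3 => (1 + nh y x) ^ ((5 : ℝ) / 3) := by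
    refine wib D sp ℓ hvm ((1 + N) ^ ((5 : ℝ) / 3)) fun x => ?_
    rw [abs_of_nonneg (Real.rpow_nonneg (by linarith [hu1 x]) _)]
    exact Real.rpow_le_rpow (by linarith [hu1 x]) (by linarith [nhN y x]) (by norm_num)
  have hnhW : WI D sp ℓ fun x : I → E3 => nh y x ^ ((5 : ℝ) / 3) := by
    refine wib D sp ℓ ((nh_me y).pow_const _) (N ^ ((5 : ℝ) / 3)) fun x => ?_
    rw [abs_of_nonneg (Real.rpow_nonneg (nh0 y x) _)]
    exact Real.rpow_le_rpow (nh0 y x) (nhN y x) (by norm_num)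
  have hEv : wx D p ψ (fun x => (1 + nh y x) ^ ((5 : ℝ) / 3)) ≤ C3 * B := by
    have e1 : wx D p ψ (fun x => (1 + nh y x) ^ ((5 : ℝ) / 3)) ≤
        wx D p ψ (fun x => 4 * (1 + nh y x ^ ((5 : ℝ) / 3))) :=
      wxm D sp hst hp0 hvW (WI_smul D sp ℓ (WI_add D sp ℓ (WI_const D sp ℓ 1) hnhW) 4)
        fun x => one_add_pow (nh0 y x)
    rw [wxs, wxa D sp hst (WI_const D sp ℓ 1) hnhW, wxc D hb.nrm hb.p1] at e1
    have e2 := (hnum y).2.2.2
    have : C2 * (1 + A) = C2 * B := rfl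
    nlinarith
  -- the number of particles near a point
  have hmW : ∀ u : E3, WI D sp ℓ fun x : I → E3 => nb u 3 x ^ ((5 : ℝ) / 3) := by
    intro u
    refine wib D sp ℓ ((nb_me u 3).pow_const _) (N ^ ((5 : ℝ) / 3)) fun x => ?_
    rw [abs_of_nonneg (Real.rpow_nonneg (nb0 u 3 x) _)]
    exact Real.rpow_le_rpow (nb0 u 3 x) (nbN u 3 x) (by norm_num)
  -- (a)
  have hmu0 : ∀ x : I → E3, 0 ≤ K * (1 + nh y x) := fun x =>
    mul_nonneg hK0.le (by linarith [hu1 x])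
  have hmup : ∀ x : I → E3, 0 < mu K y x := fun x =>
    Real.rpow_pos_of_pos (mul_pos hK0 (by linarith [hu1 x])) _
  have hmuB : ∀ x : I → E3, mu K y x ≤ (K * (1 + N)) ^ ((1 : ℝ) / 3) := fun x =>
    Real.rpow_le_rpow (hmu0 x) (by
      have := nhN y x
      gcongr) (by norm_num)
  have Ta : wx D p ψ (fun x => mu K y x ^ 2) ≤
      K ^ ((2 : ℝ) / 3) * (C3 + 1) * B ^ ((4 : ℝ) / 5) := by
    have hWa : WI D sp ℓ fun x : I → E3 => mu K y x ^ 2 := by
      refine wib D sp ℓ ((mu_me K y).pow_const 2) (((K * (1 + N)) ^ ((1 : ℝ) / 3)) ^ 2)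
        fun x => ?_
      rw [abs_of_nonneg (sq_nonneg _)]
      exact pow_le_pow_left₀ (hmup x).le (hmuB x) 2
    have hWr := WI_smul D sp ℓ (WI_add D sp ℓ (WI_smul D sp ℓ hvW (B ^ (-(1 / 5) : ℝ)))
      (WI_const D sp ℓ (B ^ ((4 : ℝ) / 5)))) (K ^ ((2 : ℝ) / 3))
    have e1 := wxm D sp hst hp0 hWa hWr fun x => by
      have e : mu K y x ^ 2 = K ^ ((2 : ℝ) / 3) *
          ((1 + nh y x) ^ ((5 : ℝ) / 3)) ^ ((2 : ℝ) / 5) := by
        have hu : 0 ≤ 1 + nh y x := by linarith [hu1 x]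
        unfold mu
        rw [← Real.rpow_natCast, ← Real.rpow_mul (mul_nonneg hK0.le hu), ← Real.rpow_mul hu,
          Real.mul_rpow hK0.le hu]
        norm_num
      rw [e]
      refine mul_le_mul_of_nonneg_left ?_ (Real.rpow_nonneg hK0.le _)
      exact pw hB1 (Real.rpow_nonneg (by linarith [hu1 x]) _) (by norm_num) (by norm_num)
    rw [wxs, wxa D sp hst (WI_smul D sp ℓ hvW _) (WI_const D sp ℓ _), wxs,
      wxc D hb.nrm hb.p1] at e1
    refine e1.trans ?_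
    rw [mul_assoc]
    refine mul_le_mul_of_nonneg_left ?_ (Real.rpow_nonneg hK0.le _)
    have e2 := mul_le_mul_of_nonneg_left hEv bn1
    have e3 : B ^ (-(1 / 5) : ℝ) * (C3 * B) = C3 * B ^ ((4 : ℝ) / 5) := by
      rw [← bm1]
      ring
    linarith
  -- (b)
  have Tb : wx D p ψ (fun x => mu K y x * nb w 3 x ^ ((4 : ℝ) / 3)) ≤
      K ^ ((1 : ℝ) / 3) * (C3 + C0) * B ^ ((4 : ℝ) / 5) := by
    have hWa : WI D sp ℓ fun x : I → E3 => mu K y x * nb w 3 x ^ ((4 : ℝ) / 3) := by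
      refine wib D sp ℓ ((mu_me K y).mul ((nb_me w 3).pow_const _))
        ((K * (1 + N)) ^ ((1 : ℝ) / 3) * N ^ ((4 : ℝ) / 3)) fun x => ?_
      have h4 := Real.rpow_nonneg (nb0 w 3 x) ((4 : ℝ) / 3)
      rw [abs_of_nonneg (mul_nonneg (hmup x).le h4)]
      exact mul_le_mul (hmuB x) (Real.rpow_le_rpow (nb0 w 3 x) (nbN w 3 x) (by norm_num)) h4
        (Real.rpow_nonneg (by positivity) _)
    have hWr := WI_smul D sp ℓ (WI_add D sp ℓ (WI_smul D sp ℓ hvW (B ^ (-(4 / 5) : ℝ)))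
      (WI_smul D sp ℓ (hmW w) (B ^ ((1 : ℝ) / 5)))) (K ^ ((1 : ℝ) / 3))
    have e1 := wxm D sp hst hp0 hWa hWr fun x => by
      have hu : 0 ≤ 1 + nh y x := by linarith [hu1 x]
      have e : mu K y x * nb w 3 x ^ ((4 : ℝ) / 3) = K ^ ((1 : ℝ) / 3) *
          (((1 + nh y x) ^ ((5 : ℝ) / 3)) ^ ((1 : ℝ) / 5) *
          (nb w 3 x ^ ((5 : ℝ) / 3)) ^ ((4 : ℝ) / 5)) := by
        unfold mu
        rw [← Real.rpow_mul hu, ← Real.rpow_mul (nb0 w 3 x), Real.mul_rpow hK0.le hu]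
        norm_num
        ring
      rw [e]
      refine mul_le_mul_of_nonneg_left ?_ (Real.rpow_nonneg hK0.le _)
      exact pw2 hB1 (Real.rpow_nonneg hu _) (Real.rpow_nonneg (nb0 w 3 x) _)
    rw [wxs, wxa D sp hst (WI_smul D sp ℓ hvW _) (WI_smul D sp ℓ (hmW w) _), wxs, wxs] at e1
    refine e1.trans ?_
    rw [mul_assoc]
    refine mul_le_mul_of_nonneg_left ?_ (Real.rpow_nonneg hK0.le _)
    have e2 := mul_le_mul_of_nonneg_left hEv bn4
    have e3 : B ^ (-(4 / 5) : ℝ) * (C3 * B) = C3 * B ^ ((1 : ℝ) / 5) := by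
      rw [← bm4]
      ring
    have e4 := mul_le_mul_of_nonneg_left (hb.int w hw).2 bn15
    have e5 := mul_le_mul_of_nonneg_left b15 (show 0 ≤ C3 + C0 by positivity)
    linarith
  -- (c)
  have Tc : wx D p ψ (fun x => ∑ i, ((1 + ‖x i - w‖) ^ 4)⁻¹) ≤
      Ct * (C2 + 1) * B ^ ((4 : ℝ) / 5) := by
    rw [mul_assoc]
    refine wx_tail D sp hst hp0 w _ fun u => ?_
    have hWr := WI_add D sp ℓ (WI_smul D sp ℓ (hmW u) (B ^ (-(1 / 5) : ℝ)))
      (WI_const D sp ℓ (B ^ ((4 : ℝ) / 5)))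
    have hWa : WI D sp ℓ (nb (I := I) u 1) := wib D sp ℓ (nb_me u 1) N fun x => by
      rw [abs_of_nonneg (nb0 u 1 x)]
      exact nbN u 1 x
    have e1 := wxm D sp hst hp0 hWa hWr fun x => by
      have e := pw (θ := 3 / 5) hB1 (Real.rpow_nonneg (nb0 u 3 x) ((5 : ℝ) / 3)) (by norm_num)
        (by norm_num)
      rw [← Real.rpow_mul (nb0 u 3 x)] at e
      have e0 : (5 : ℝ) / 3 * (3 / 5) = 1 := by norm_num
      rw [e0, Real.rpow_one] at e
      exact (nb_mono u (by norm_num) x).trans e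
    rw [wxa D sp hst (WI_smul D sp ℓ (hmW u) _) (WI_const D sp ℓ _), wxs,
      wxc D hb.nrm hb.p1] at e1
    refine e1.trans ?_
    have e2 := mul_le_mul_of_nonneg_left (hnum u).2.1 bn1
    have e3 : B ^ (-(1 / 5) : ℝ) * (C2 * (1 + A)) = C2 * B ^ ((4 : ℝ) / 5) := by
      rw [← bm1]
      ring
    linarith
  -- (d)
  have Td : wx D p ψ (fun x => nn w x ^ 2 / mu K y x) ≤
      Real.exp (R / 3) * C2 / K ^ ((1 : ℝ) / 3) * B := by
    have hnnW : WI D sp ℓ fun x : I → E3 => nn w x ^ ((5 : ℝ) / 3) := by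
      refine wib D sp ℓ ((nn_me w).pow_const _) (N ^ ((5 : ℝ) / 3)) fun x => ?_
      rw [abs_of_nonneg (Real.rpow_nonneg (nn0 w x) _)]
      exact Real.rpow_le_rpow (nn0 w x) (nnN w x) (by norm_num)
    have hpt : ∀ x : I → E3, nn w x ^ 2 / mu K y x ≤
        Real.exp (R / 3) / K ^ ((1 : ℝ) / 3) * nn w x ^ ((5 : ℝ) / 3) := by
      intro x
      have hn := nn0 w x
      have hu : 0 ≤ 1 + nh y x := by linarith [hu1 x]
      have g1 : nn w x ≤ Real.exp R * (1 + nh y x) := by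
        refine (nn_le_nh y w hyw x).trans ?_
        have := Real.exp_pos R
        nlinarith
      have g2 : nn w x ^ ((1 : ℝ) / 3) ≤ Real.exp (R / 3) * (1 + nh y x) ^ ((1 : ℝ) / 3) := by
        have g3 := Real.rpow_le_rpow hn g1 (show (0 : ℝ) ≤ 1 / 3 by norm_num)
        rw [Real.mul_rpow (Real.exp_pos R).le hu, ← Real.exp_mul] at g3
        rwa [show R * (1 / 3) = R / 3 by ring] at g3
      have g4 : nn w x ^ 2 = nn w x ^ ((1 : ℝ) / 3) * nn w x ^ ((5 : ℝ) / 3) := by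
        rw [← Real.rpow_add_of_nonneg hn (by norm_num) (by norm_num), ← Real.rpow_natCast]
        norm_num
      have g5 : mu K y x = K ^ ((1 : ℝ) / 3) * (1 + nh y x) ^ ((1 : ℝ) / 3) := by
        unfold mu
        rw [Real.mul_rpow hK0.le hu]
      rw [div_le_iff₀ (hmup x), g4, g5]
      have g6 : 0 < K ^ ((1 : ℝ) / 3) := Real.rpow_pos_of_pos hK0 _
      have g7 : 0 ≤ nn w x ^ ((5 : ℝ) / 3) := Real.rpow_nonneg hn _
      calc nn w x ^ ((1 : ℝ) / 3) * nn w x ^ ((5 : ℝ) / 3)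
          ≤ Real.exp (R / 3) * (1 + nh y x) ^ ((1 : ℝ) / 3) * nn w x ^ ((5 : ℝ) / 3) :=
            mul_le_mul_of_nonneg_right g2 g7
        _ = Real.exp (R / 3) / K ^ ((1 : ℝ) / 3) * nn w x ^ ((5 : ℝ) / 3) *
            (K ^ ((1 : ℝ) / 3) * (1 + nh y x) ^ ((1 : ℝ) / 3)) := by
            field_simp
    have hWa : WI D sp ℓ fun x : I → E3 => nn w x ^ 2 / mu K y x := by
      refine wib D sp ℓ (((nn_me w).pow_const 2).div (mu_me K y))
        (Real.exp (R / 3) / K ^ ((1 : ℝ) / 3) * N ^ ((5 : ℝ) / 3)) fun x => ?_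
      rw [abs_of_nonneg (div_nonneg (sq_nonneg _) (hmup x).le)]
      refine (hpt x).trans ?_
      refine mul_le_mul_of_nonneg_left ?_
        (div_nonneg (Real.exp_pos _).le (Real.rpow_nonneg hK0.le _))
      exact Real.rpow_le_rpow (nn0 w x) (nnN w x) (by norm_num)
    have e1 := wxm D sp hst hp0 hWa
      (WI_smul D sp ℓ hnnW (Real.exp (R / 3) / K ^ ((1 : ℝ) / 3))) hpt
    rw [wxs] at e1
    refine e1.trans ?_
    have e2 := mul_le_mul_of_nonneg_left (hnum w).2.2.1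
      (show 0 ≤ Real.exp (R / 3) / K ^ ((1 : ℝ) / 3) from
        div_nonneg (Real.exp_pos _).le (Real.rpow_nonneg hK0.le _))
    refine e2.trans (le_of_eq ?_)
    ring
  have hfin := h3 sp ℓ η p ψ hb y w hw
  refine hfin.trans ?_
  have m1 := mul_le_mul_of_nonneg_left Td hC1.le
  have m2 : CK * (1 + wx D p ψ (fun x => mu K y x ^ 2) +
      wx D p ψ (fun x => mu K y x * nb w 3 x ^ ((4 : ℝ) / 3)) +
      wx D p ψ (fun x => ∑ i, ((1 + ‖x i - w‖) ^ 4)⁻¹)) ≤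
      CK * ((1 + K ^ ((2 : ℝ) / 3) * (C3 + 1) + K ^ ((1 : ℝ) / 3) * (C3 + C0) +
        Ct * (C2 + 1)) * B ^ ((4 : ℝ) / 5)) := by
    refine mul_le_mul_of_nonneg_left ?_ hCK.le
    linarith
  have m3 : C1 * (Real.exp (R / 3) * C2 / K ^ ((1 : ℝ) / 3) * B) =
      C1 * (Real.exp (R / 3) * C2) / K ^ ((1 : ℝ) / 3) * B := by ring
  rw [m3] at m1
  rw [← mul_assoc] at m2
  exact add_le_add m2 m1

end Pool.Agent.Helper780_CP.RB21
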