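import Pool.Agent.Helper780_CP.LLDefs2
import Pool.Agent.Helper780_CP.BnDefs
import Pool.Agent.Helper780_CP.RB1

set_option autoImplicit false

open MeasureTheory
open scoped Topology

namespace Pool.Agent.Helper780_CP.RB24

open Pool.Agent.Helper780_CP
open Pool.Agent.Helper985.CP
open Pool.Agent.Helper780_CP.RB1 (approx_v kern_facts)

open Pool.Agent.Helper780_CP Pool.Agent.Helper985.CP

/-- the square of the mean is at most the mean of the squares -/
theorem sq_mean (f : ℝ → ℝ) (hf : Continuous f) :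
    (∫ t in (0 : ℝ)..1, f t) ^ 2 ≤ ∫ t in (0 : ℝ)..1, f t ^ 2 := by
  obtain ⟨c, hc⟩ : ∃ c, c = ∫ t in (0 : ℝ)..1, f t := ⟨_, rfl⟩
  have h0 : 0 ≤ ∫ t in (0 : ℝ)..1, (f t - c) ^ 2 :=
    intervalIntegral.integral_nonneg zero_le_one fun t _ => sq_nonneg _
  have h1 : ∫ t in (0 : ℝ)..1, (f t - c) ^ 2 = (∫ t in (0 : ℝ)..1, f t ^ 2) - 2 * c * c + c ^ 2 := by
    have h2 : ∀ t, (f t - c) ^ 2 = f t ^ 2 - 2 * c * f t + c ^ 2 := fun t => by ring
    simp_rw [h2]
    have i1 : IntervalIntegrable (fun t => f t ^ 2) volume 0 1 := (hf.pow 2).intervalIntegrable _ _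
    have i2 : IntervalIntegrable (fun t => 2 * c * f t) volume 0 1 :=
      (continuous_const.mul hf).intervalIntegrable _ _
    have i3 : IntervalIntegrable (fun _ : ℝ => c ^ 2) volume 0 1 := continuous_const.intervalIntegrable _ _
    rw [intervalIntegral.integral_add (i1.sub i2) i3, intervalIntegral.integral_sub i1 i2,
      intervalIntegral.integral_const_mul, intervalIntegral.integral_const, ← hc]
    simp
  rw [← hc]
  nlinarith

/-- comparison along a path for smooth functions -/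
theorem path_smooth (u : E3 → ℝ) (hu : ContDiff ℝ 1 u) (y a b : E3) (ha : ‖a - y‖ ≤ 59)
    (hb : ‖b - y‖ ≤ 59) : ∫ ω in Metric.ball b 1, u ω ^ 2 ≤
      2 * (∫ ω in Metric.ball a 1, u ω ^ 2) +
        2 * ∫ ω in Metric.ball y 60, (fderiv ℝ u ω (b - a)) ^ 2 := by
  have hD : Continuous fun ω => fderiv ℝ u ω (b - a) :=
    (hu.continuous_fderiv one_ne_zero).clm_apply continuous_const
  have hu0 := hu.continuous
  have tr : ∀ (f : E3 → ℝ) (p : E3), ∫ ω in Metric.ball p 1, f ω =
      ∫ h in Metric.ball (0 : E3) 1, f (p + h) := by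
    intro f p
    have h1 := (measurePreserving_add_left (volume : Measure E3) p).setIntegral_preimage_emb
      (measurableEmbedding_addLeft p) f (Metric.ball p 1)
    have h2 : (fun h => p + h) ⁻¹' Metric.ball p 1 = Metric.ball (0 : E3) 1 := by
      ext h
      simp [Metric.mem_ball, dist_eq_norm]
    rw [h2] at h1
    exact h1.symm
  have hint : ∀ (f : E3 → ℝ), Continuous f → ∀ (p : E3) (r : ℝ), IntegrableOn f (Metric.ball p r) :=
    fun f hf p r => (hf.continuousOn.integrableOn_compact (isCompact_closedBall p r)).mono_set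
      Metric.ball_subset_closedBall
  have pw : ∀ h : E3, u (b + h) ^ 2 ≤ 2 * u (a + h) ^ 2 +
      2 * ∫ t in Set.Ioc (0 : ℝ) 1, (fderiv ℝ u (a + h + t • (b - a)) (b - a)) ^ 2 := by
    intro h
    have hder : ∀ t : ℝ, HasDerivAt (fun t : ℝ => u (a + h + t • (b - a)))
        (fderiv ℝ u (a + h + t • (b - a)) (b - a)) t := by
      intro t
      have h1 : HasDerivAt (fun t : ℝ => a + h + t • (b - a)) (b - a) t := by
        have := ((hasDerivAt_id t).smul_const (b - a)).const_add (a + h)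
        simpa using this
      exact (hu.differentiable one_ne_zero _).hasFDerivAt.comp_hasDerivAt t h1
    have hcont : Continuous fun t : ℝ => fderiv ℝ u (a + h + t • (b - a)) (b - a) :=
      hD.comp (by fun_prop)
    have hftc : ∫ t in (0 : ℝ)..1, fderiv ℝ u (a + h + t • (b - a)) (b - a) =
        u (b + h) - u (a + h) := by
      rw [intervalIntegral.integral_eq_sub_of_hasDerivAt (fun t _ => hder t)
        (hcont.intervalIntegrable _ _)]
      congr 2
      · rw [one_smul]; abel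
      · rw [zero_smul, add_zero]
    have hcs := sq_mean _ hcont
    rw [hftc, intervalIntegral.integral_of_le zero_le_one] at hcs
    nlinarith [sq_nonneg (u (b + h) - 2 * u (a + h))]
  have hFc : Continuous fun q : E3 × ℝ => (fderiv ℝ u (a + q.1 + q.2 • (b - a)) (b - a)) ^ 2 :=
    (hD.comp (by fun_prop)).pow 2
  have hFi : Integrable (fun q : E3 × ℝ => (fderiv ℝ u (a + q.1 + q.2 • (b - a)) (b - a)) ^ 2)
      ((volume.restrict (Metric.ball (0 : E3) 1)).prod (volume.restrict (Set.Ioc (0 : ℝ) 1))) := by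
    rw [Measure.prod_restrict]
    refine IntegrableOn.mono_set (t := Metric.closedBall (0 : E3) 1 ×ˢ Set.Icc (0 : ℝ) 1) ?_
      (Set.prod_mono Metric.ball_subset_closedBall Set.Ioc_subset_Icc_self)
    exact hFc.continuousOn.integrableOn_compact ((isCompact_closedBall _ _).prod isCompact_Icc)
  have hI : ∀ t ∈ Set.Ioc (0 : ℝ) 1, ∫ h in Metric.ball (0 : E3) 1,
      (fderiv ℝ u (a + h + t • (b - a)) (b - a)) ^ 2 ≤
      ∫ ω in Metric.ball y 60, (fderiv ℝ u ω (b - a)) ^ 2 := by
    intro t ht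
    have h1 := tr (fun ω => (fderiv ℝ u ω (b - a)) ^ 2) (a + t • (b - a))
    have h2 : ∀ h : E3, a + t • (b - a) + h = a + h + t • (b - a) := fun h => by abel
    simp_rw [h2] at h1
    rw [← h1]
    refine setIntegral_mono_set (hint _ (hD.pow 2) _ _) (Filter.Eventually.of_forall fun ω => sq_nonneg _) ?_
    refine Filter.Eventually.of_forall ?_
    refine Metric.ball_subset_ball' ?_
    have h3 : a + t • (b - a) - y = (1 - t) • (a - y) + t • (b - y) := by module
    have h4 : ‖a + t • (b - a) - y‖ ≤ 59 := by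
      rw [h3]
      refine (norm_add_le _ _).trans ?_
      rw [norm_smul, norm_smul, Real.norm_of_nonneg (by linarith [ht.2]), Real.norm_of_nonneg ht.1.le]
      nlinarith [ht.1, ht.2]
    rw [dist_eq_norm]
    linarith
  have hdouble : ∫ h in Metric.ball (0 : E3) 1, ∫ t in Set.Ioc (0 : ℝ) 1,
      (fderiv ℝ u (a + h + t • (b - a)) (b - a)) ^ 2 ≤
      ∫ ω in Metric.ball y 60, (fderiv ℝ u ω (b - a)) ^ 2 := by
    rw [integral_integral_swap (f := fun (h : E3) (t : ℝ) => (fderiv ℝ u (a + h + t • (b - a)) (b - a)) ^ 2) hFi]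
    calc _ ≤ ∫ t in Set.Ioc (0 : ℝ) 1, ∫ ω in Metric.ball y 60, (fderiv ℝ u ω (b - a)) ^ 2 :=
          setIntegral_mono_on hFi.integral_prod_right
            (by simp) measurableSet_Ioc hI
      _ = _ := by simp
  rw [tr (fun ω => u ω ^ 2) b, tr (fun ω => u ω ^ 2) a]
  calc ∫ h in Metric.ball (0 : E3) 1, u (b + h) ^ 2 ≤ ∫ h in Metric.ball (0 : E3) 1, (2 * u (a + h) ^ 2 +
      2 * ∫ t in Set.Ioc (0 : ℝ) 1, (fderiv ℝ u (a + h + t • (b - a)) (b - a)) ^ 2) := by
        refine integral_mono (hint _ (by fun_prop) _ _) ?_ pw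
        exact (hint _ (by fun_prop) _ _).add (hFi.integral_prod_left.const_mul 2)
    _ = 2 * (∫ h in Metric.ball (0 : E3) 1, u (a + h) ^ 2) + 2 * ∫ h in Metric.ball (0 : E3) 1,
        ∫ t in Set.Ioc (0 : ℝ) 1, (fderiv ℝ u (a + h + t • (b - a)) (b - a)) ^ 2 := by
        rw [integral_add (hint _ (by fun_prop) _ _) (hFi.integral_prod_left.const_mul 2),
          integral_const_mul, integral_const_mul]
    _ ≤ _ := by linarith

/-- TARGET -/
theorem path_v {I : Type} [Fintype I] (c : I → ℝ) (x : I → E3) (μ pb : ℝ) (hμ : 0 < μ)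
    (y a b : E3) (ha : ‖a - y‖ ≤ 59) (hb : ‖b - y‖ ≤ 59) :
    ∫ ω in Metric.ball b 1, vp c x μ pb ω ^ 2 ≤
      2 * (∫ ω in Metric.ball a 1, vp c x μ pb ω ^ 2) +
      2 * ‖b - a‖ ^ 2 * ∫ ω in Metric.ball y 60, ‖gp c x μ ω‖ ^ 2 := by
  obtain ⟨u, B, hB, husm, huB, hudB, -, huv, hug, -⟩ := approx_v c x μ pb hμ
  obtain ⟨-, hgm, -, ⟨B', hB'⟩, -⟩ := kern_facts c x μ pb hμ
  have hoff : ∀ᵐ ω : E3, ∀ i, x i ≠ ω := by
    have h0 : volume (Set.range x) = 0 := (Set.finite_range x).measure_zero volume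
    filter_upwards [measure_eq_zero_iff_ae_notMem.1 h0] with ω hω i hi
    exact hω ⟨i, hi⟩
  have hfin : ∀ (p : E3) (r C : ℝ), Integrable (fun _ : E3 => C) (volume.restrict (Metric.ball p r)) :=
    fun p r C => integrableOn_const measure_ball_lt_top.ne
  have hlim1 : ∀ p : E3, Filter.Tendsto (fun n => ∫ ω in Metric.ball p 1, u n ω ^ 2) Filter.atTop
      (𝓝 (∫ ω in Metric.ball p 1, vp c x μ pb ω ^ 2)) := by
    intro p
    refine tendsto_integral_of_dominated_convergence (fun _ => B ^ 2) (fun n => ?_) (hfin _ _ _)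
      (fun n => ?_) ?_
    · exact ((husm n).continuous.pow 2).aestronglyMeasurable
    · exact ae_of_all _ fun ω => by
        rw [Real.norm_of_nonneg (sq_nonneg _), ← sq_abs]
        exact pow_le_pow_left₀ (abs_nonneg _) (huB n ω) 2
    · exact ae_of_all _ fun ω => (huv ω).pow 2
  have hlim2 : Filter.Tendsto (fun n => ∫ ω in Metric.ball y 60, (fderiv ℝ (u n) ω (b - a)) ^ 2) Filter.atTop
      (𝓝 (∫ ω in Metric.ball y 60, (inner ℝ (gp c x μ ω) (b - a)) ^ 2)) := by
    refine tendsto_integral_of_dominated_convergence (fun _ => (B * ‖b - a‖) ^ 2) (fun n => ?_) (hfin _ _ _)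
      (fun n => ?_) ?_
    · have hD : Continuous fun ω => fderiv ℝ (u n) ω (b - a) :=
        ((husm n).continuous_fderiv (by simp)).clm_apply continuous_const
      exact (hD.pow 2).aestronglyMeasurable
    · exact ae_of_all _ fun ω => by
        rw [Real.norm_of_nonneg (sq_nonneg _), ← sq_abs]
        refine pow_le_pow_left₀ (abs_nonneg _) ?_ 2
        rw [← Real.norm_eq_abs]
        exact ((fderiv ℝ (u n) ω).le_opNorm _).trans (mul_le_mul_of_nonneg_right (hudB n ω) (norm_nonneg _))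
    · refine ae_restrict_of_ae ?_
      filter_upwards [hoff] with ω hω
      exact (hug ω hω (b - a)).pow 2
  have hmain : ∀ n, ∫ ω in Metric.ball b 1, u n ω ^ 2 ≤ 2 * (∫ ω in Metric.ball a 1, u n ω ^ 2) +
      2 * ∫ ω in Metric.ball y 60, (fderiv ℝ (u n) ω (b - a)) ^ 2 := fun n =>
    path_smooth (u n) ((husm n).of_le (WithTop.coe_le_coe.2 le_top)) y a b ha hb
  have h1 := le_of_tendsto_of_tendsto' (hlim1 b) (((hlim1 a).const_mul 2).add (hlim2.const_mul 2)) hmain
  refine h1.trans ?_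
  have h2 : ∫ ω in Metric.ball y 60, (inner ℝ (gp c x μ ω) (b - a)) ^ 2 ≤
      ∫ ω in Metric.ball y 60, ‖b - a‖ ^ 2 * ‖gp c x μ ω‖ ^ 2 := by
    refine integral_mono_of_nonneg (ae_of_all _ fun ω => sq_nonneg _) ?_ (ae_of_all _ fun ω => ?_)
    · refine (hfin y 60 (‖b - a‖ ^ 2 * B' ^ 2)).mono' ?_ (ae_of_all _ fun ω => ?_)
      · exact ((hgm.norm.pow_const 2).const_mul _).aestronglyMeasurable
      · rw [Real.norm_of_nonneg (by positivity)]
        exact mul_le_mul_of_nonneg_left (pow_le_pow_left₀ (norm_nonneg _) (hB' ω).2 2) (by positivity)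
    · show (inner ℝ (gp c x μ ω) (b - a)) ^ 2 ≤ ‖b - a‖ ^ 2 * ‖gp c x μ ω‖ ^ 2
      rw [← mul_pow, ← sq_abs]
      refine pow_le_pow_left₀ (abs_nonneg _) ?_ 2
      rw [mul_comm]
      exact abs_real_inner_le_norm _ _
  rw [integral_const_mul] at h2
  have h3 : 2 * ∫ ω in Metric.ball y 60, (inner ℝ (gp c x μ ω) (b - a)) ^ 2 ≤
      2 * ‖b - a‖ ^ 2 * ∫ ω in Metric.ball y 60, ‖gp c x μ ω‖ ^ 2 := by
    rw [mul_assoc]
    exact mul_le_mul_of_nonneg_left h2 (by norm_num)
  exact add_le_add le_rfl h3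

end Pool.Agent.Helper780_CP.RB24
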