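import Pool.Agent.Helper780_CP.LLDefs2
import Pool.Agent.Helper780_CP.BnDefs
import Pool.Agent.Helper780_CP.RB1

set_option autoImplicit false

open MeasureTheory
open scoped Topology

namespace Pool.Agent.Helper780_CP.RB3

open Pool.Agent.Helper780_CP
open Pool.Agent.Helper985.CP
open Pool.Agent.Helper780_CP.RB1 (approx_v kern_facts)

open Pool.Agent.Helper780_CP Pool.Agent.Helper985.CP

/-- basis vectors -/
noncomputable abbrev b3v (k : Fin 3) : E3 := EuclideanSpace.single k (1 : ℝ)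

/-- divergence -/
noncomputable def dvg (X : E3 → E3) (ω : E3) : ℝ := ∑ k : Fin 3, (fderiv ℝ X ω (b3v k)) k

theorem dvg_congr {X Y : E3 → E3} {ω : E3} (h : X =ᶠ[𝓝 ω] Y) : dvg X ω = dvg Y ω := by
  unfold dvg
  rw [h.fderiv_eq]

theorem dvg_add {X Y : E3 → E3} {ω : E3} (hX : DifferentiableAt ℝ X ω)
    (hY : DifferentiableAt ℝ Y ω) : dvg (fun z => X z + Y z) ω = dvg X ω + dvg Y ω := by
  unfold dvg
  rw [fderiv_fun_add hX hY, ← Finset.sum_add_distrib]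
  rfl

theorem dvg_sub {X Y : E3 → E3} {ω : E3} (hX : DifferentiableAt ℝ X ω)
    (hY : DifferentiableAt ℝ Y ω) : dvg (fun z => X z - Y z) ω = dvg X ω - dvg Y ω := by
  unfold dvg
  rw [fderiv_fun_sub hX hY, ← Finset.sum_sub_distrib]
  rfl

theorem clm_sum (L : E3 →L[ℝ] ℝ) (v : E3) : L v = ∑ k : Fin 3, v k * L (b3v k) := by
  have h : v = ∑ k : Fin 3, v k • b3v k := by
    ext j
    simp [b3v, Finset.sum_apply, Pi.single_apply]
  conv_lhs => rw [h]
  simp [map_sum]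

theorem dvg_smul {φ : E3 → ℝ} {X : E3 → E3} {ω : E3} (hφ : DifferentiableAt ℝ φ ω)
    (hX : DifferentiableAt ℝ X ω) :
    dvg (fun z => φ z • X z) ω = φ ω * dvg X ω + fderiv ℝ φ ω (X ω) := by
  unfold dvg
  rw [fderiv_fun_smul hφ hX, clm_sum (fderiv ℝ φ ω) (X ω), Finset.mul_sum,
    ← Finset.sum_add_distrib]
  refine Finset.sum_congr rfl fun k _ => ?_
  simp
  ring

theorem dvg_id (y0 ω : E3) : dvg (fun z => z - y0) ω = 3 := by
  unfold dvg
  simp [fderiv_sub_const]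

theorem dvg_const (e ω : E3) : dvg (fun _ => e) ω = 0 := by
  unfold dvg
  simp

section field

variable (y0 e : E3)

/-- `s` -/
noncomputable def fs (ω : E3) : ℝ := ‖ω - y0‖

/-- `s - p` -/
noncomputable def fd (ω : E3) : ℝ := ‖ω - y0‖ - inner ℝ e (ω - y0)

/-- `h` -/
noncomputable def fh (ω : E3) : ℝ := 7 / 4 + Real.log (fd y0 e ω) - Real.log (fs y0 ω)

/-- gradient of `h` -/
noncomputable def fG (ω : E3) : E3 :=
  ((fs y0 ω * fd y0 e ω)⁻¹ • (ω - y0) - (fd y0 e ω)⁻¹ • e) - (fs y0 ω ^ 2)⁻¹ • (ω - y0)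

/-- the field -/
noncomputable def fF (ω : E3) : E3 :=
  (-(1 / 2) * (fs y0 ω ^ 2)⁻¹) • (ω - y0) + (fh y0 e ω)⁻¹ • fG y0 e ω

variable {y0 e} {ω : E3} (h0 : ω ≠ y0)

include h0

theorem fs_pos : 0 < fs y0 ω := norm_pos_iff.2 (sub_ne_zero.2 h0)

theorem fs_smooth : ContDiffAt ℝ 1 (fs y0) ω := by
  unfold fs
  exact (contDiffAt_id.sub contDiffAt_const).norm ℝ (sub_ne_zero.2 h0)

theorem fd_smooth : ContDiffAt ℝ 1 (fd y0 e) ω := by
  unfold fd
  exact (fs_smooth h0).sub (contDiffAt_const.inner ℝ (contDiffAt_id.sub contDiffAt_const))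

theorem fs_deriv : HasFDerivAt (fs y0) ((fs y0 ω)⁻¹ • innerSL ℝ (ω - y0)) ω := by
  have hp := fs_pos h0
  have h1 : HasFDerivAt (fun z : E3 => ‖z - y0‖ ^ 2) (2 • (innerSL ℝ (ω - y0))) ω := by
    have := (hasStrictFDerivAt_norm_sq (ω - y0)).hasFDerivAt.comp ω ((hasFDerivAt_id ω).sub_const y0)
    exact this
  have h2 := h1.sqrt (by unfold fs at hp; positivity)
  have h3 : (fun z : E3 => √(‖z - y0‖ ^ 2)) = fs y0 := by
    funext z
    rw [Real.sqrt_sq (norm_nonneg _)]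
    rfl
  rw [h3] at h2
  refine h2.congr_fderiv ?_
  ext v
  rw [Real.sqrt_sq (norm_nonneg _)]
  simp [fs]
  unfold fs at hp
  field_simp

theorem fd_deriv : HasFDerivAt (fd y0 e) ((fs y0 ω)⁻¹ • innerSL ℝ (ω - y0) - innerSL ℝ e) ω := by
  have h1 := fs_deriv h0
  have h2 : HasFDerivAt (fun z : E3 => (inner ℝ e (z - y0) : ℝ)) (innerSL ℝ e) ω := by
    have := (innerSL ℝ e).hasFDerivAt.comp ω ((hasFDerivAt_id ω).sub_const y0)
    exact this
  exact h1.sub h2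

variable (hd : 0 < fd y0 e ω)

include hd

theorem fh_smooth : ContDiffAt ℝ 1 (fh y0 e) ω := by
  unfold fh
  exact (contDiffAt_const.add ((fd_smooth h0).log hd.ne')).sub ((fs_smooth h0).log (fs_pos h0).ne')

theorem fG_smooth : ContDiffAt ℝ 1 (fG y0 e) ω := by
  have hp := fs_pos h0
  unfold fG
  have h1 : ContDiffAt ℝ 1 (fun z : E3 => z - y0) ω := contDiffAt_id.sub contDiffAt_const
  refine ContDiffAt.sub (ContDiffAt.sub ?_ ?_) ?_
  · exact (((fs_smooth h0).mul (fd_smooth h0)).inv (by positivity)).smul h1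
  · exact ((fd_smooth h0).inv hd.ne').smul contDiffAt_const
  · exact (((fs_smooth h0).pow 2).inv (by positivity)).smul h1

theorem fh_deriv (v : E3) : fderiv ℝ (fh y0 e) ω v = inner ℝ (fG y0 e ω) v := by
  have hp := fs_pos h0
  have h1 := (fd_deriv (e := e) h0).log hd.ne'
  have h2 := (fs_deriv h0).log hp.ne'
  have h3 : HasFDerivAt (fh y0 e) _ ω := (h1.const_add (7 / 4)).sub h2
  rw [h3.fderiv]
  unfold fG
  simp only [sub_apply, smul_apply, innerSL_apply_apply,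
    smul_eq_mul, inner_sub_left, inner_smul_left, conj_trivial]
  field_simp

theorem fG_perp : inner ℝ (fG y0 e ω) (ω - y0) = (0 : ℝ) := by
  have hp := fs_pos h0
  have h1 : (inner ℝ e (ω - y0) : ℝ) = fs y0 ω - fd y0 e ω := by
    unfold fd fs
    ring
  have h2 : (inner ℝ (ω - y0) (ω - y0) : ℝ) = fs y0 ω ^ 2 := real_inner_self_eq_norm_sq _
  unfold fG
  rw [inner_sub_left, inner_sub_left, inner_smul_left, inner_smul_left, inner_smul_left, h1, h2]
  simp only [conj_trivial]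
  field_simp
  ring

theorem dvg_G (he : ‖e‖ = 1) : dvg (fG y0 e) ω = -(fs y0 ω ^ 2)⁻¹ := by
  have hp := fs_pos h0
  have hid : DifferentiableAt ℝ (fun z : E3 => z - y0) ω := by fun_prop
  have hs : DifferentiableAt ℝ (fs y0) ω := (fs_deriv h0).differentiableAt
  have hD : DifferentiableAt ℝ (fd y0 e) ω := (fd_deriv h0).differentiableAt
  have d1 : DifferentiableAt ℝ (fun z => (fs y0 z * fd y0 e z)⁻¹) ω :=
    (hs.fun_mul hD).fun_inv (mul_pos hp hd).ne'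
  have d2 : DifferentiableAt ℝ (fun z => (fd y0 e z)⁻¹) ω := hD.fun_inv hd.ne'
  have d3 : DifferentiableAt ℝ (fun z => (fs y0 z ^ 2)⁻¹) ω :=
    (hs.fun_pow 2).fun_inv (pow_pos hp 2).ne'
  have hs1 := fs_deriv h0
  have hD1 := fd_deriv (e := e) h0
  have hw : (inner ℝ (ω - y0) (ω - y0) : ℝ) = fs y0 ω ^ 2 := real_inner_self_eq_norm_sq _
  have hew : (inner ℝ e (ω - y0) : ℝ) = fs y0 ω - fd y0 e ω := by
    unfold fd fs
    ring
  have hee : (inner ℝ e e : ℝ) = 1 := by rw [real_inner_self_eq_norm_sq, he]; norm_num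
  have hwe : (inner ℝ (ω - y0) e : ℝ) = fs y0 ω - fd y0 e ω := by rw [real_inner_comm, hew]
  have e1 : fderiv ℝ (fun z => (fs y0 z * fd y0 e z)⁻¹) ω (ω - y0) =
      -2 * (fs y0 ω * fd y0 e ω)⁻¹ := by
    have h1 := (hasDerivAt_inv (mul_pos hp hd).ne').comp_hasFDerivAt ω (hs1.mul hD1)
    have h2 : HasFDerivAt (fun z => (fs y0 z * fd y0 e z)⁻¹) _ ω := h1
    rw [h2.fderiv]
    simp only [smul_apply, add_apply, sub_apply, innerSL_apply_apply, smul_eq_mul, hw, hew]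
    field_simp
    ring
  have e2 : fderiv ℝ (fun z => (fd y0 e z)⁻¹) ω e = (fs y0 ω * fd y0 e ω)⁻¹ := by
    have h1 := (hasDerivAt_inv hd.ne').comp_hasFDerivAt ω hD1
    have h2 : HasFDerivAt (fun z => (fd y0 e z)⁻¹) _ ω := h1
    rw [h2.fderiv]
    simp only [smul_apply, add_apply, sub_apply, innerSL_apply_apply, smul_eq_mul, hwe, hee]
    field_simp
    ring
  have e3 : fderiv ℝ (fun z => (fs y0 z ^ 2)⁻¹) ω (ω - y0) = -2 * (fs y0 ω ^ 2)⁻¹ := by
    have h1 := (hasDerivAt_inv (pow_pos hp 2).ne').comp_hasFDerivAt ω (hs1.pow 2)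
    have h2 : HasFDerivAt (fun z => (fs y0 z ^ 2)⁻¹) _ ω := h1
    rw [h2.fderiv]
    simp only [smul_apply, add_apply, sub_apply, innerSL_apply_apply, smul_eq_mul, hw]
    field_simp
    simp only [nsmul_eq_mul]
    norm_num
    ring
  have h1 : dvg (fG y0 e) ω = dvg (fun z => ((fs y0 z * fd y0 e z)⁻¹ • (z - y0) -
    (fd y0 e z)⁻¹ • e) - (fs y0 z ^ 2)⁻¹ • (z - y0)) ω := rfl
  rw [h1, dvg_sub (X := fun z => ((fs y0 z * fd y0 e z)⁻¹ • (z - y0) -
    (fd y0 e z)⁻¹ • e)) (Y := fun z => (fs y0 z ^ 2)⁻¹ • (z - y0))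
      ((d1.fun_smul hid).fun_sub (d2.smul_const e)) (d3.fun_smul hid),
    dvg_sub (X := fun z => (fs y0 z * fd y0 e z)⁻¹ • (z - y0)) (Y := fun z => (fd y0 e z)⁻¹ • e)
      (d1.fun_smul hid) (d2.smul_const e), dvg_smul d1 hid, dvg_smul d3 hid,
    dvg_smul (X := fun _ => e) d2 (by fun_prop), dvg_id, dvg_const, e1, e2, e3]
  ring

theorem fF_smooth (hh : 0 < fh y0 e ω) : ContDiffAt ℝ 1 (fF y0 e) ω := by
  have hp := fs_pos h0
  unfold fF
  have h1 : ContDiffAt ℝ 1 (fun z : E3 => z - y0) ω := contDiffAt_id.sub contDiffAt_const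
  refine ContDiffAt.add ?_ ?_
  · exact (contDiffAt_const.mul (((fs_smooth h0).pow 2).inv (by positivity))).smul h1
  · exact ((fh_smooth h0 hd).inv hh.ne').smul (fG_smooth h0 hd)

theorem dvg_F (he : ‖e‖ = 1) (hh : 0 < fh y0 e ω) (hh2 : fh y0 e ω ≤ 5 / 2) :
    dvg (fF y0 e) ω ≤ -‖fF y0 e ω‖ ^ 2 - 13 / 20 * (fs y0 ω ^ 2)⁻¹ := by
  have hp := fs_pos h0
  have hid : DifferentiableAt ℝ (fun z : E3 => z - y0) ω := by fun_prop
  have hs : DifferentiableAt ℝ (fs y0) ω := (fs_deriv h0).differentiableAt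
  have hG : DifferentiableAt ℝ (fG y0 e) ω := (fG_smooth h0 hd).differentiableAt (by simp)
  have hH : DifferentiableAt ℝ (fh y0 e) ω := (fh_smooth h0 hd).differentiableAt (by simp)
  have hw : (inner ℝ (ω - y0) (ω - y0) : ℝ) = fs y0 ω ^ 2 := real_inner_self_eq_norm_sq _
  have d1 : DifferentiableAt ℝ (fun z => -(1 / 2) * (fs y0 z ^ 2)⁻¹) ω :=
    ((hs.fun_pow 2).fun_inv (pow_pos hp 2).ne').const_mul _
  have d2 : DifferentiableAt ℝ (fun z => (fh y0 e z)⁻¹) ω := hH.fun_inv hh.ne'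
  have e1 : fderiv ℝ (fun z => -(1 / 2) * (fs y0 z ^ 2)⁻¹) ω (ω - y0) = (fs y0 ω ^ 2)⁻¹ := by
    have h1 := ((hasDerivAt_inv (pow_pos hp 2).ne').comp_hasFDerivAt ω
      ((fs_deriv h0).pow 2)).const_mul (-(1 / 2))
    have h2 : HasFDerivAt (fun z => -(1 / 2) * (fs y0 z ^ 2)⁻¹) _ ω := h1
    rw [h2.fderiv]
    simp only [smul_apply, add_apply, sub_apply, innerSL_apply_apply, smul_eq_mul, hw]
    field_simp
    simp
  have e2 : fderiv ℝ (fun z => (fh y0 e z)⁻¹) ω (fG y0 e ω) =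
      -(‖fG y0 e ω‖ ^ 2 / fh y0 e ω ^ 2) := by
    have h1 := (hasDerivAt_inv hh.ne').comp_hasFDerivAt ω hH.hasFDerivAt
    have h2 : HasFDerivAt (fun z => (fh y0 e z)⁻¹) _ ω := h1
    rw [h2.fderiv]
    simp only [smul_apply, smul_eq_mul]
    rw [fh_deriv h0 hd, real_inner_self_eq_norm_sq]
    ring
  have h1 : dvg (fF y0 e) ω = dvg (fun z => (-(1 / 2) * (fs y0 z ^ 2)⁻¹) • (z - y0) +
    (fh y0 e z)⁻¹ • fG y0 e z) ω := rfl
  have h2 : ‖fF y0 e ω‖ ^ 2 = 1 / 4 * (fs y0 ω ^ 2)⁻¹ + ‖fG y0 e ω‖ ^ 2 / fh y0 e ω ^ 2 := by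
    unfold fF
    rw [norm_add_sq_real, inner_smul_left, inner_smul_right, real_inner_comm, fG_perp h0 hd,
      norm_smul, norm_smul, mul_pow, mul_pow, Real.norm_eq_abs, Real.norm_eq_abs, sq_abs, sq_abs]
    have : ‖ω - y0‖ = fs y0 ω := rfl
    rw [this]
    field_simp
    ring
  rw [h1, dvg_add (X := fun z => (-(1 / 2) * (fs y0 z ^ 2)⁻¹) • (z - y0))
    (Y := fun z => (fh y0 e z)⁻¹ • fG y0 e z) (d1.fun_smul hid) (d2.fun_smul hG),
    dvg_smul d1 hid, dvg_smul d2 hG, dvg_id, dvg_G h0 hd he, e1, e2, h2]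
  have h3 : (2 / 5 : ℝ) ≤ (fh y0 e ω)⁻¹ := by
    rw [le_inv_comm₀ (by norm_num) hh]
    norm_num
    exact hh2
  have h4 : 0 ≤ (fs y0 ω ^ 2)⁻¹ := by positivity
  nlinarith [mul_le_mul_of_nonneg_right h3 h4]

end field

/-- the closed set on which `W` may be nonzero -/
def KK (y0 : E3) (σ : Fin 3 → ℝ) : Set E3 :=
  {ω | 1 ≤ ‖ω - y0‖ ∧ ∃ k, σ k * (ω k - y0 k) ≤ 0}

theorem KK_closed (y0 : E3) (σ : Fin 3 → ℝ) : IsClosed (KK y0 σ) := by
  have h1 : KK y0 σ = {ω | 1 ≤ ‖ω - y0‖} ∩ ⋃ k, {ω : E3 | σ k * (ω k - y0 k) ≤ 0} := by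
    ext ω
    simp [KK]
  rw [h1]
  refine IsClosed.inter (isClosed_le continuous_const (by fun_prop)) ?_
  refine isClosed_iUnion_of_finite fun k => isClosed_le (by fun_prop) continuous_const

/-- the unit vector -/
noncomputable def ev (σ : Fin 3 → ℝ) : E3 := WithLp.toLp 2 (fun k => σ k / √3)

theorem ev_norm {σ : Fin 3 → ℝ} (hσ : ∀ k, σ k = 1 ∨ σ k = -1) : ‖ev σ‖ = 1 := by
  have h1 : ‖ev σ‖ ^ 2 = 1 := by
    rw [EuclideanSpace.real_norm_sq_eq, Fin.sum_univ_three]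
    have h3 : √3 ^ 2 = (3 : ℝ) := Real.sq_sqrt (by norm_num)
    have h2 : ∀ k, σ k ^ 2 = 1 := fun k => by rcases hσ k with h | h <;> rw [h] <;> norm_num
    simp only [ev, div_pow, h2, h3]
    norm_num
  nlinarith [norm_nonneg (ev σ)]

theorem ev_inner {y0 : E3} {σ : Fin 3 → ℝ} (hσ : ∀ k, σ k = 1 ∨ σ k = -1) {ω : E3}
    (hω : ω ∈ KK y0 σ) : (inner ℝ (ev σ) (ω - y0) : ℝ) ≤ 8165 / 10000 * ‖ω - y0‖ := by
  obtain ⟨h1, k, hk⟩ := hω
  set w : E3 := ω - y0 with hw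
  have hwk : σ k * w k ≤ 0 := by rw [hw]; exact hk
  have h3 : √3 ^ 2 = (3 : ℝ) := Real.sq_sqrt (by norm_num)
  have h3p : 0 < √3 := Real.sqrt_pos.2 (by norm_num)
  have hin : (inner ℝ (ev σ) w : ℝ) = (σ 0 * w 0 + σ 1 * w 1 + σ 2 * w 2) / √3 := by
    rw [PiLp.inner_apply, Fin.sum_univ_three]
    simp only [ev, RCLike.inner_apply, conj_trivial]
    ring
  have hn : ‖w‖ ^ 2 = (σ 0 * w 0) ^ 2 + (σ 1 * w 1) ^ 2 + (σ 2 * w 2) ^ 2 := by
    rw [EuclideanSpace.real_norm_sq_eq, Fin.sum_univ_three]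
    have h2 : ∀ k, σ k ^ 2 = 1 := fun k => by rcases hσ k with h | h <;> rw [h] <;> norm_num
    simp only [mul_pow, h2, one_mul]
  have hwp : 0 < ‖w‖ := by linarith
  rw [hin, div_le_iff₀ h3p]
  set S := σ 0 * w 0 + σ 1 * w 1 + σ 2 * w 2 with hS
  by_cases hS0 : S ≤ 0
  · exact hS0.trans (by positivity)
  rw [not_le] at hS0
  have hS2 : S ^ 2 ≤ 2 * ‖w‖ ^ 2 := by
    rw [hn]
    set a := σ 0 * w 0
    set b := σ 1 * w 1
    set c := σ 2 * w 2
    have hk' : a ≤ 0 ∨ b ≤ 0 ∨ c ≤ 0 := by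
      fin_cases k
      · exact Or.inl hwk
      · exact Or.inr (Or.inl hwk)
      · exact Or.inr (Or.inr hwk)
    rcases hk' with h | h | h
    · nlinarith [sq_nonneg (b - c), sq_nonneg a]
    · nlinarith [sq_nonneg (a - c), sq_nonneg b]
    · nlinarith [sq_nonneg (a - b), sq_nonneg c]
  have h5 : S ^ 2 ≤ (8165 / 10000 * ‖w‖ * √3) ^ 2 := by
    rw [mul_pow, mul_pow, h3]
    nlinarith [sq_nonneg ‖w‖]
  exact (pow_le_pow_iff_left₀ hS0.le (by positivity) (by norm_num)).1 h5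

theorem K_facts {y0 : E3} {σ : Fin 3 → ℝ} (hσ : ∀ k, σ k = 1 ∨ σ k = -1) {ω : E3}
    (hω : ω ∈ KK y0 σ) : ω ≠ y0 ∧ 0 < fd y0 (ev σ) ω ∧ 0 < fh y0 (ev σ) ω ∧
      fh y0 (ev σ) ω ≤ 5 / 2 := by
  have h1 := hω.1
  have h0 : ω ≠ y0 := by
    rintro rfl
    simp at h1
    linarith
  have hs : 0 < fs y0 ω := fs_pos h0
  have h2 := ev_inner hσ hω
  have h3 : 1835 / 10000 * fs y0 ω ≤ fd y0 (ev σ) ω := by
    unfold fd fs
    linarith
  have hd : 0 < fd y0 (ev σ) ω := lt_of_lt_of_le (by positivity) h3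
  have h4 : fd y0 (ev σ) ω ≤ 2 * fs y0 ω := by
    unfold fd fs
    have := abs_real_inner_le_norm (ev σ) (ω - y0)
    rw [ev_norm hσ, one_mul] at this
    have := neg_abs_le (inner ℝ (ev σ) (ω - y0) : ℝ)
    linarith
  have h5 : fh y0 (ev σ) ω = 7 / 4 + Real.log (fd y0 (ev σ) ω / fs y0 ω) := by
    unfold fh
    rw [Real.log_div hd.ne' hs.ne']
    ring
  refine ⟨h0, hd, ?_, ?_⟩
  · rw [h5]
    have h6 : 1835 / 10000 ≤ fd y0 (ev σ) ω / fs y0 ω := by
      rw [le_div_iff₀ hs]; exact h3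
    have h7 : -(7 / 4) < Real.log (fd y0 (ev σ) ω / fs y0 ω) := by
      rw [Real.lt_log_iff_exp_lt (div_pos hd hs)]
      refine lt_of_lt_of_le ?_ h6
      have h8 : Real.exp (7 / 4) = Real.exp 1 * Real.exp (3 / 4) := by
        rw [← Real.exp_add]; norm_num
      have h9 := Real.exp_one_gt_d9
      have h10 := Real.quadratic_le_exp_of_nonneg (x := 3 / 4) (by norm_num)
      have h11 : (5.5 : ℝ) < Real.exp (7 / 4) := by
        rw [h8]
        nlinarith [Real.exp_pos (3 / 4)]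
      rw [Real.exp_neg, inv_lt_comm₀ (Real.exp_pos _) (by norm_num)]
      refine lt_trans ?_ h11
      norm_num
    linarith
  · rw [h5]
    have h6 : fd y0 (ev σ) ω / fs y0 ω ≤ 2 := by
      rw [div_le_iff₀ hs]; exact h4
    have h7 := Real.log_le_log (div_pos hd hs) h6
    have h8 := Real.log_two_lt_d9
    linarith

theorem int_div {V : E3 → E3} (hV : ContDiff ℝ 1 V) (hc : HasCompactSupport V) {u : E3 → ℝ}
    (hu : ContDiff ℝ SM u) :
    ∫ ω, (u ω ^ 2 * dvg V ω + 2 * u ω * fderiv ℝ u ω (V ω)) = 0 := by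
  have hu2 : ContDiff ℝ 1 (fun ω => u ω ^ 2) := (hu.pow 2).of_le (by simp [SM])
  have hud : Differentiable ℝ u := hu.differentiable (by simp [SM])
  have hVk : ∀ k, ContDiff ℝ 1 (fun ω => V ω k) := fun k =>
    (EuclideanSpace.proj k : E3 →L[ℝ] ℝ).contDiff.comp hV
  have hVkc : ∀ k, HasCompactSupport (fun ω => V ω k) := fun k =>
    hc.comp_left (g := fun v : E3 => v k) (by simp)
  have hdV : ∀ k ω, (fderiv ℝ V ω (b3v k)) k = fderiv ℝ (fun ω => V ω k) ω (b3v k) := by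
    intro k ω
    have h1 : HasFDerivAt V (fderiv ℝ V ω) ω := ((hV.differentiable (by simp)) ω).hasFDerivAt
    have h2 : HasFDerivAt (fun ω => V ω k) ((EuclideanSpace.proj k : E3 →L[ℝ] ℝ).comp
      (fderiv ℝ V ω)) ω := (EuclideanSpace.proj k : E3 →L[ℝ] ℝ).hasFDerivAt.comp ω h1
    rw [h2.fderiv]
    rfl
  have c1 : ∀ k, Continuous (fun ω => fderiv ℝ (fun ω => V ω k) ω (b3v k)) := fun k =>
    ((hVk k).continuous_fderiv (by simp)).clm_apply continuous_const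
  have c2 : ∀ k, Continuous (fun ω => fderiv ℝ (fun ω => u ω ^ 2) ω (b3v k)) := fun k =>
    (hu2.continuous_fderiv (by simp)).clm_apply continuous_const
  have i1 : ∀ k, Integrable (fun ω => u ω ^ 2 * fderiv ℝ (fun ω => V ω k) ω (b3v k)) := fun k =>
    (hu2.continuous.mul (c1 k)).integrable_of_hasCompactSupport
      (((hVkc k).fderiv_apply (𝕜 := ℝ) _).mul_left)
  have i2 : ∀ k, Integrable (fun ω => fderiv ℝ (fun ω => u ω ^ 2) ω (b3v k) * V ω k) := fun k =>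
    ((c2 k).mul (hVk k).continuous).integrable_of_hasCompactSupport (hVkc k).mul_left
  have i3 : ∀ k, Integrable (fun ω => u ω ^ 2 * V ω k) := fun k =>
    (hu2.continuous.mul (hVk k).continuous).integrable_of_hasCompactSupport (hVkc k).mul_left
  have key : ∀ k, ∫ ω, u ω ^ 2 * fderiv ℝ (fun ω => V ω k) ω (b3v k) =
      -∫ ω, fderiv ℝ (fun ω => u ω ^ 2) ω (b3v k) * V ω k := fun k =>
    integral_mul_fderiv_eq_neg_fderiv_mul_of_integrable (𝕜 := ℝ) (μ := volume) (i2 k) (i1 k) (i3 k)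
      (fun x _ => (hu2.differentiable (by simp)) x)
      (fun x _ => ((hVk k).differentiable (by simp)) x)
  have hpt : ∀ ω, u ω ^ 2 * dvg V ω + 2 * u ω * fderiv ℝ u ω (V ω) =
      ∑ k : Fin 3, (u ω ^ 2 * fderiv ℝ (fun ω => V ω k) ω (b3v k) +
        fderiv ℝ (fun ω => u ω ^ 2) ω (b3v k) * V ω k) := by
    intro ω
    unfold dvg
    rw [clm_sum (fderiv ℝ u ω) (V ω), Finset.mul_sum, Finset.mul_sum, ← Finset.sum_add_distrib]
    refine Finset.sum_congr rfl fun k _ => ?_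
    rw [hdV k ω]
    have : fderiv ℝ (fun ω => u ω ^ 2) ω (b3v k) = 2 * u ω * fderiv ℝ u ω (b3v k) := by
      have h1 := ((hud ω).hasFDerivAt.pow 2)
      have h2 : HasFDerivAt (fun ω => u ω ^ 2) _ ω := h1
      rw [h2.fderiv]
      simp
    rw [this]
    ring
  simp_rw [hpt]
  have i4 : ∀ k, Integrable (fun ω => u ω ^ 2 * fderiv ℝ (fun ω => V ω k) ω (b3v k) +
      fderiv ℝ (fun ω => u ω ^ 2) ω (b3v k) * V ω k) := fun k => (i1 k).add (i2 k)
  rw [integral_finsetSum _ fun k _ => i4 k]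
  refine Finset.sum_eq_zero fun k _ => ?_
  rw [integral_add (i1 k) (i2 k), key k]
  ring


theorem dvg_cont {V : E3 → E3} (hV : ContDiff ℝ 1 V) : Continuous (dvg V) := by
  unfold dvg
  refine continuous_finsetSum _ fun k _ => ?_
  exact (EuclideanSpace.proj k : E3 →L[ℝ] ℝ).continuous.comp
    ((hV.continuous_fderiv (by simp)).clm_apply continuous_const)

theorem dvg_supp {V : E3 → E3} (hc : HasCompactSupport V) : HasCompactSupport (dvg V) := by
  have h := hc.fderiv (𝕜 := ℝ)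
  refine h.comp_left (g := fun L : E3 →L[ℝ] E3 => ∑ k : Fin 3, (L (b3v k)) k) ?_
  simp

theorem int_lim {I : Type} [Fintype I] (c : I → ℝ) (x : I → E3) (μ pb : ℝ) (hμ : 0 < μ)
    {V : E3 → E3} (hV : ContDiff ℝ 1 V) (hc : HasCompactSupport V) :
    ∫ ω, (vp c x μ pb ω ^ 2 * dvg V ω + 2 * vp c x μ pb ω * inner ℝ (gp c x μ ω) (V ω)) = 0 := by
  obtain ⟨u, B, hB, hu, hub, hdu, -, hlim, hdlim, -⟩ := approx_v c x μ pb hμ
  have hdc := dvg_cont hV
  have hds := dvg_supp hc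
  have hbound : Integrable (fun ω => B ^ 2 * ‖dvg V ω‖ + 2 * B * (B * ‖V ω‖)) := by
    refine ((hdc.norm.integrable_of_hasCompactSupport hds.norm).const_mul _).add ?_
    exact ((hV.continuous.norm.integrable_of_hasCompactSupport hc.norm).const_mul B).const_mul _
  have hae : ∀ᵐ ω : E3, ∀ i, x i ≠ ω := by
    have h1 : (Set.range x).Finite := Set.finite_range x
    have h2 : volume (Set.range x) = 0 := h1.measure_zero _
    have h3 : ∀ᵐ ω : E3, ω ∉ Set.range x := measure_eq_zero_iff_ae_notMem.1 h2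
    filter_upwards [h3] with ω hω i hi
    exact hω ⟨i, hi⟩
  have h := tendsto_integral_of_dominated_convergence
    (F := fun n ω => u n ω ^ 2 * dvg V ω + 2 * u n ω * fderiv ℝ (u n) ω (V ω))
    (f := fun ω => vp c x μ pb ω ^ 2 * dvg V ω + 2 * vp c x μ pb ω * inner ℝ (gp c x μ ω) (V ω))
    (fun ω => B ^ 2 * ‖dvg V ω‖ + 2 * B * (B * ‖V ω‖)) ?_ hbound ?_ ?_
  · have h0 : ∀ n, ∫ ω, (u n ω ^ 2 * dvg V ω + 2 * u n ω * fderiv ℝ (u n) ω (V ω)) = 0 :=
      fun n => int_div hV hc (hu n)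
    simp_rw [h0] at h
    exact (tendsto_nhds_unique h tendsto_const_nhds)
  · intro n
    refine Continuous.aestronglyMeasurable ?_
    have h1 : Continuous (u n) := (hu n).continuous
    have h2 : Continuous (fun ω => fderiv ℝ (u n) ω (V ω)) :=
      ((hu n).continuous_fderiv (by simp [SM])).clm_apply hV.continuous
    fun_prop
  · intro n
    refine Filter.Eventually.of_forall fun ω => ?_
    rw [Real.norm_eq_abs]
    refine (abs_add_le _ _).trans (add_le_add ?_ ?_)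
    · rw [abs_mul, abs_pow]
      exact mul_le_mul (pow_le_pow_left₀ (abs_nonneg _) (hub n ω) 2) le_rfl (abs_nonneg _)
        (by positivity)
    · rw [abs_mul, abs_mul, abs_two]
      refine mul_le_mul (mul_le_mul_of_nonneg_left (hub n ω) (by norm_num)) ?_ (abs_nonneg _)
        (by positivity)
      refine ((fderiv ℝ (u n) ω).le_opNorm (V ω)).trans ?_
      exact mul_le_mul_of_nonneg_right (hdu n ω) (norm_nonneg _)
  · filter_upwards [hae] with ω hω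
    exact (((hlim ω).pow 2).mul_const _).add (((hlim ω).const_mul 2).mul (hdlim ω hω (V ω)))

theorem W_field {y0 : E3} {σ : Fin 3 → ℝ} {R L : ℝ} {W Γ Γ2 Γ3 : E3 → ℝ}
    (hw : Wt y0 σ R L W Γ Γ2 Γ3) : ∃ V : E3 → E3, ContDiff ℝ 1 V ∧ HasCompactSupport V ∧
      (∀ ω, W ω = 0 → V ω = 0 ∧ dvg V ω = 0) ∧
      ∀ ω, W ω ≠ 0 → ∃ F : E3, V ω = W ω • F ∧
        dvg V ω ≤ fderiv ℝ W ω F - W ω * ‖F‖ ^ 2 - 13 / 20 * (W ω / ‖ω - y0‖ ^ 2) := by
  have hσ := hw.sgn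
  have hWd : Differentiable ℝ W := hw.W_smooth.differentiable (by simp [SM])
  have hK : ∀ ω, W ω ≠ 0 → ω ∈ KK y0 σ := by
    intro ω h
    obtain ⟨h1, h2⟩ := hw.W_oct ω h
    push Not at h2
    exact ⟨h1, h2⟩
  have hev : ∀ ω, ω ∉ KK y0 σ → (fun z => W z • fF y0 (ev σ) z) =ᶠ[𝓝 ω] fun _ => 0 := by
    intro ω h
    filter_upwards [(KK_closed y0 σ).isOpen_compl.mem_nhds h] with z hz
    have : W z = 0 := by
      by_contra h'
      exact hz (hK z h')
    rw [this, zero_smul]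
  have hdW : ∀ ω, W ω = 0 → fderiv ℝ W ω = 0 := by
    intro ω h
    have h1 := hw.dW ω
    rw [h] at h1
    have h2 : ‖fderiv ℝ W ω‖ ^ 2 ≤ 0 := by linarith
    have h3 : ‖fderiv ℝ W ω‖ = 0 := by nlinarith [norm_nonneg (fderiv ℝ W ω)]
    exact norm_eq_zero.1 h3
  have hin : ∀ ω ∈ KK y0 σ, dvg (fun z => W z • fF y0 (ev σ) z) ω =
      W ω * dvg (fF y0 (ev σ)) ω + fderiv ℝ W ω (fF y0 (ev σ) ω) := by
    intro ω h
    obtain ⟨h0, hd, hh, hh2⟩ := K_facts hσ h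
    exact dvg_smul (hWd ω) ((fF_smooth h0 hd hh).differentiableAt (by simp))
  refine ⟨fun z => W z • fF y0 (ev σ) z, ?_, ?_, ?_, ?_⟩
  · rw [contDiff_iff_contDiffAt]
    intro ω
    by_cases h : ω ∈ KK y0 σ
    · obtain ⟨h0, hd, hh, hh2⟩ := K_facts hσ h
      exact ((hw.W_smooth.of_le (by simp [SM])).contDiffAt).smul (fF_smooth h0 hd hh)
    · exact contDiffAt_const.congr_of_eventuallyEq (hev ω h)
  · refine HasCompactSupport.intro (isCompact_closedBall y0 R) fun ω hω => ?_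
    rw [Metric.mem_closedBall, dist_eq_norm, not_le] at hω
    rw [hw.W_supp ω hω.le, zero_smul]
  · intro ω h
    refine ⟨by simp [h], ?_⟩
    by_cases hk : ω ∈ KK y0 σ
    · rw [hin ω hk, h, hdW ω h]
      simp
    · rw [dvg_congr (hev ω hk), dvg_const]
  · intro ω h
    have hk := hK ω h
    obtain ⟨h0, hd, hh, hh2⟩ := K_facts hσ hk
    refine ⟨fF y0 (ev σ) ω, rfl, ?_⟩
    rw [hin ω hk]
    have h1 := dvg_F h0 hd (ev_norm hσ) hh hh2
    have h2 := mul_le_mul_of_nonneg_left h1 (hw.W_nn ω)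
    have h3 : fs y0 ω = ‖ω - y0‖ := rfl
    rw [h3] at h2
    have h4 : W ω / ‖ω - y0‖ ^ 2 = W ω * (‖ω - y0‖ ^ 2)⁻¹ := div_eq_mul_inv _ _
    rw [h4]
    linarith

theorem int_bd {f : E3 → ℝ} (hf : Measurable f) (y0 : E3) (R M : ℝ) (hb : ∀ ω, |f ω| ≤ M)
    (hs : ∀ ω, R ≤ ‖ω - y0‖ → f ω = 0) : Integrable f := by
  have h1 : IntegrableOn f (Metric.closedBall y0 R) := by
    refine IntegrableOn.of_bound measure_closedBall_lt_top hf.aestronglyMeasurable M ?_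
    exact Filter.Eventually.of_forall fun ω => by rw [Real.norm_eq_abs]; exact hb ω
  refine (integrableOn_iff_integrable_of_support_subset ?_).1 h1
  intro ω hω
  rw [Metric.mem_closedBall, dist_eq_norm]
  by_contra h
  rw [not_le] at h
  exact hω (hs ω h.le)

/-- TARGET -/
theorem hardy_pot {I : Type} [Fintype I] (c : I → ℝ) (x : I → E3) (μ pb : ℝ) (hμ : 0 < μ)
    (y0 : E3) (σ : Fin 3 → ℝ) (R L : ℝ) (W Γ Γ2 Γ3 : E3 → ℝ) (hw : Wt y0 σ R L W Γ Γ2 Γ3) :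
    13 / 20 * ∫ ω, W ω * (vp c x μ pb ω ^ 2 / ‖ω - y0‖ ^ 2) ≤
      ∫ ω, (W ω * ‖gp c x μ ω‖ ^ 2 + vp c x μ pb ω * fderiv ℝ W ω (gp c x μ ω) +
        Γ ω * vp c x μ pb ω ^ 2) := by
  obtain ⟨V, hV, hVc, hV0, hV1⟩ := W_field hw
  have hint := int_lim c x μ pb hμ hV hVc
  obtain ⟨hvc, hgm, -, ⟨B, hB⟩, -⟩ := kern_facts c x μ pb hμ
  have hB0 : 0 ≤ B := (abs_nonneg _).trans (hB 0).1
  have hWc : Continuous W := hw.W_smooth.continuous
  have hdWc : Continuous (fderiv ℝ W) := hw.W_smooth.continuous_fderiv (by simp [SM])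
  have hL0 : 0 ≤ L := (hw.Γ_nn 0).trans (hw.Γ_le 0)
  have hdW : ∀ ω, ‖fderiv ℝ W ω‖ ≤ 2 * √(W ω * Γ ω) := by
    intro ω
    have h1 : ‖fderiv ℝ W ω‖ ^ 2 ≤ (2 * √(W ω * Γ ω)) ^ 2 := by
      rw [mul_pow, Real.sq_sqrt (mul_nonneg (hw.W_nn ω) (hw.Γ_nn ω))]
      linarith [hw.dW ω]
    exact (pow_le_pow_iff_left₀ (norm_nonneg _) (by positivity) (by norm_num)).1 h1
  have hdWs : ∀ ω, R ≤ ‖ω - y0‖ → fderiv ℝ W ω = 0 := by
    intro ω h
    have h1 := hdW ω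
    rw [hw.W_supp ω h, zero_mul, Real.sqrt_zero, mul_zero] at h1
    exact norm_eq_zero.1 (le_antisymm h1 (norm_nonneg _))
  have hdWb : ∀ ω, ‖fderiv ℝ W ω‖ ≤ 2 * √L := by
    intro ω
    refine (hdW ω).trans (mul_le_mul_of_nonneg_left (Real.sqrt_le_sqrt ?_) (by norm_num))
    calc W ω * Γ ω ≤ 1 * L := mul_le_mul (hw.W_le ω) (hw.Γ_le ω) (hw.Γ_nn ω) (by norm_num)
      _ = L := one_mul L
  have hdWg : Measurable (fun ω => fderiv ℝ W ω (gp c x μ ω)) := by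
    have h1 : (fun ω => fderiv ℝ W ω (gp c x μ ω)) =
        fun ω => ∑ k : Fin 3, (gp c x μ ω) k * fderiv ℝ W ω (b3v k) := by
      funext ω
      exact clm_sum _ _
    rw [h1]
    refine Finset.measurable_sum _ fun k _ => ?_
    refine Measurable.mul ?_ ?_
    · exact (EuclideanSpace.proj k : E3 →L[ℝ] ℝ).continuous.measurable.comp hgm
    · exact (hdWc.clm_apply continuous_const).measurable
  have hVg : Measurable (fun ω => (inner ℝ (gp c x μ ω) (V ω) : ℝ)) :=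
    hgm.inner hV.continuous.measurable
  have hvm : Measurable (vp c x μ pb) := hvc.measurable
  -- integrability
  have i1 : Integrable (fun ω => W ω * (vp c x μ pb ω ^ 2 / ‖ω - y0‖ ^ 2)) := by
    refine int_bd ?_ y0 R (B ^ 2) ?_ ?_
    · exact hWc.measurable.mul ((hvm.pow_const 2).div (by fun_prop))
    · intro ω
      by_cases h : W ω = 0
      · rw [h, zero_mul, abs_zero]; positivity
      · have h1 := (hw.W_oct ω h).1
        rw [abs_mul, abs_of_nonneg (hw.W_nn ω), abs_div, abs_pow, abs_pow, abs_norm]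
        have h2 : |vp c x μ pb ω| ^ 2 / ‖ω - y0‖ ^ 2 ≤ B ^ 2 := by
          rw [div_le_iff₀ (by positivity)]
          have h3 : |vp c x μ pb ω| ^ 2 ≤ B ^ 2 := pow_le_pow_left₀ (abs_nonneg _) (hB ω).1 2
          have h4 : 1 ≤ ‖ω - y0‖ ^ 2 := one_le_pow₀ h1
          nlinarith [sq_nonneg B]
        calc W ω * (|vp c x μ pb ω| ^ 2 / ‖ω - y0‖ ^ 2) ≤ 1 * B ^ 2 :=
              mul_le_mul (hw.W_le ω) h2 (by positivity) (by norm_num)
          _ = B ^ 2 := one_mul _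
    · intro ω h
      rw [hw.W_supp ω h, zero_mul]
  have i2 : Integrable (fun ω => W ω * ‖gp c x μ ω‖ ^ 2 +
      vp c x μ pb ω * fderiv ℝ W ω (gp c x μ ω) + Γ ω * vp c x μ pb ω ^ 2) := by
    refine int_bd ?_ y0 R (1 * B ^ 2 + B * (2 * √L * B) + L * B ^ 2) ?_ ?_
    · exact ((hWc.measurable.mul (hgm.norm.pow_const 2)).add (hvm.mul hdWg)).add
        (hw.Γ_cont.measurable.mul (hvm.pow_const 2))
    · intro ω
      refine (abs_add_le _ _).trans (add_le_add ((abs_add_le _ _).trans (add_le_add ?_ ?_)) ?_)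
      · rw [abs_mul, abs_of_nonneg (hw.W_nn ω), abs_pow, abs_norm]
        exact mul_le_mul (hw.W_le ω) (pow_le_pow_left₀ (norm_nonneg _) (hB ω).2 2)
          (by positivity) (by norm_num)
      · rw [abs_mul]
        refine mul_le_mul (hB ω).1 ?_ (abs_nonneg _) hB0
        refine ((fderiv ℝ W ω).le_opNorm _).trans ?_
        exact mul_le_mul (hdWb ω) (hB ω).2 (norm_nonneg _) (by positivity)
      · rw [abs_mul, abs_of_nonneg (hw.Γ_nn ω), abs_pow]
        exact mul_le_mul (hw.Γ_le ω) (pow_le_pow_left₀ (abs_nonneg _) (hB ω).1 2)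
          (by positivity) hL0
    · intro ω h
      rw [hw.W_supp ω h, hdWs ω h, hw.Γ_supp ω h]
      simp
  obtain ⟨M1, hM1⟩ := hV.continuous.bounded_above_of_compact_support hVc
  obtain ⟨M2, hM2⟩ := (dvg_cont hV).bounded_above_of_compact_support (dvg_supp hVc)
  have i3 : Integrable (fun ω => vp c x μ pb ω ^ 2 * dvg V ω +
      2 * vp c x μ pb ω * inner ℝ (gp c x μ ω) (V ω)) := by
    have hM10 : 0 ≤ M1 := (norm_nonneg _).trans (hM1 0)
    refine int_bd ?_ y0 R (B ^ 2 * M2 + 2 * B * (B * M1)) ?_ ?_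
    · exact ((hvm.pow_const 2).mul (dvg_cont hV).measurable).add ((hvm.const_mul 2).mul hVg)
    · intro ω
      refine (abs_add_le _ _).trans (add_le_add ?_ ?_)
      · rw [abs_mul, abs_pow]
        exact mul_le_mul (pow_le_pow_left₀ (abs_nonneg _) (hB ω).1 2)
          (by rw [← Real.norm_eq_abs]; exact hM2 ω) (abs_nonneg _) (by positivity)
      · rw [abs_mul, abs_mul, abs_two]
        refine mul_le_mul (mul_le_mul_of_nonneg_left (hB ω).1 (by norm_num)) ?_ (abs_nonneg _)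
          (by positivity)
        refine (abs_real_inner_le_norm _ _).trans ?_
        exact mul_le_mul (hB ω).2 (hM1 ω) (norm_nonneg _) hB0
    · intro ω h
      obtain ⟨h1, h2⟩ := hV0 ω (hw.W_supp ω h)
      rw [h1, h2]
      simp
  have hpt : ∀ ω, vp c x μ pb ω ^ 2 * dvg V ω + 2 * vp c x μ pb ω * inner ℝ (gp c x μ ω) (V ω) ≤
      (W ω * ‖gp c x μ ω‖ ^ 2 + vp c x μ pb ω * fderiv ℝ W ω (gp c x μ ω) +
        Γ ω * vp c x μ pb ω ^ 2) - 13 / 20 * (W ω * (vp c x μ pb ω ^ 2 / ‖ω - y0‖ ^ 2)) := by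
    intro ω
    set v := vp c x μ pb ω
    set g := gp c x μ ω
    by_cases h : W ω = 0
    · obtain ⟨h1, h2⟩ := hV0 ω h
      have h3 : fderiv ℝ W ω = 0 := by
        have h1 := hdW ω
        rw [h, zero_mul, Real.sqrt_zero, mul_zero] at h1
        exact norm_eq_zero.1 (le_antisymm h1 (norm_nonneg _))
      rw [h1, h2, h, h3]
      have := mul_nonneg (hw.Γ_nn ω) (sq_nonneg v)
      simp
      linarith
    · obtain ⟨F, h1, h2⟩ := hV1 ω h
      rw [h1, inner_smul_right]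
      have h3 : v ^ 2 * dvg V ω ≤ v ^ 2 * (fderiv ℝ W ω F - W ω * ‖F‖ ^ 2 -
          13 / 20 * (W ω / ‖ω - y0‖ ^ 2)) := mul_le_mul_of_nonneg_left h2 (sq_nonneg v)
      have h4 : 0 ≤ W ω * ‖g - v • F‖ ^ 2 + v * fderiv ℝ W ω (g - v • F) + Γ ω * v ^ 2 := by
        have h5 : |v * fderiv ℝ W ω (g - v • F)| ≤ |v| * (2 * √(W ω * Γ ω) * ‖g - v • F‖) := by
          rw [abs_mul]
          refine mul_le_mul_of_nonneg_left ?_ (abs_nonneg _)
          refine ((fderiv ℝ W ω).le_opNorm _).trans ?_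
          exact mul_le_mul_of_nonneg_right (hdW ω) (norm_nonneg _)
        have h6 := neg_le_of_abs_le h5
        have h7 : √(W ω * Γ ω) = √(W ω) * √(Γ ω) := Real.sqrt_mul (hw.W_nn ω) _
        have h8 := Real.sq_sqrt (hw.W_nn ω)
        have h9 := Real.sq_sqrt (hw.Γ_nn ω)
        rw [h7] at h6
        have h10 : W ω * ‖g - v • F‖ ^ 2 = (√(W ω) * ‖g - v • F‖) ^ 2 := by rw [mul_pow, h8]
        have h11 : Γ ω * v ^ 2 = (√(Γ ω) * |v|) ^ 2 := by rw [mul_pow, h9, sq_abs]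
        rw [h10, h11]
        nlinarith [sq_nonneg (√(W ω) * ‖g - v • F‖ - √(Γ ω) * |v|)]
      have h5 : ‖g - v • F‖ ^ 2 = ‖g‖ ^ 2 - 2 * (v * inner ℝ g F) + v ^ 2 * ‖F‖ ^ 2 := by
        rw [norm_sub_sq_real, inner_smul_right, norm_smul, mul_pow, Real.norm_eq_abs, sq_abs]
      have h6 : fderiv ℝ W ω (g - v • F) = fderiv ℝ W ω g - v * fderiv ℝ W ω F := by
        rw [map_sub, map_smul, smul_eq_mul]
      rw [h5, h6] at h4
      have h7 : W ω * (v ^ 2 / ‖ω - y0‖ ^ 2) = v ^ 2 * (W ω / ‖ω - y0‖ ^ 2) := by ring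
      rw [h7]
      nlinarith
  have hfin : ∫ ω, (vp c x μ pb ω ^ 2 * dvg V ω +
      2 * vp c x μ pb ω * inner ℝ (gp c x μ ω) (V ω)) ≤
      ∫ ω, ((W ω * ‖gp c x μ ω‖ ^ 2 + vp c x μ pb ω * fderiv ℝ W ω (gp c x μ ω) +
        Γ ω * vp c x μ pb ω ^ 2) - 13 / 20 * (W ω * (vp c x μ pb ω ^ 2 / ‖ω - y0‖ ^ 2))) :=
    integral_mono i3 (i2.sub (i1.const_mul (13 / 20))) hpt
  rw [hint, integral_sub i2 (i1.const_mul (13 / 20)), integral_const_mul] at hfin
  linarith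

end Pool.Agent.Helper780_CP.RB3
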