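import Pool.Agent.Helper780_CP.LLDefs2
import Pool.Agent.Helper780_CP.BnDefs
import Pool.Agent.Helper780_CP.RB1
import Pool.Agent.Helper780_CP.RB2
import Pool.Agent.Helper780_CP.RB3

set_option autoImplicit false

open MeasureTheory
open scoped Topology

namespace Pool.Agent.Helper780_CP.RB4

open Pool.Agent.Helper780_CP
open Pool.Agent.Helper985.CP
open Pool.Agent.Helper780_CP.RB1 (kern_facts)
open Pool.Agent.Helper780_CP.RB2 (elec_id)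
open Pool.Agent.Helper780_CP.RB3 (hardy_pot)

open Pool.Agent.Helper780_CP Pool.Agent.Helper985.CP

theorem b4_lap_cont {g : E3 → ℝ} (h : ContDiff ℝ SM g) : Continuous (lap g) := by
  unfold lap
  refine continuous_finsetSum _ fun k _ => ?_
  have h1 : ContDiff ℝ SM (fun v => fderiv ℝ g v (EuclideanSpace.single k (1 : ℝ))) := by
    refine ContDiff.clm_apply ?_ contDiff_const
    exact h.fderiv_right (by simp [SM])
  exact (h1.continuous_fderiv (by simp [SM])).clm_apply continuous_const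

theorem b4_bdd {f : E3 → ℝ} (hf : Continuous f) {y0 : E3} {R : ℝ}
    (hs : ∀ ω, R ≤ ‖ω - y0‖ → f ω = 0) : ∃ M, 0 ≤ M ∧ ∀ ω, |f ω| ≤ M := by
  obtain ⟨C, hC⟩ := (isCompact_closedBall y0 R).exists_bound_of_continuousOn hf.continuousOn
  refine ⟨|C|, abs_nonneg _, fun ω => ?_⟩
  by_cases h : R ≤ ‖ω - y0‖
  · rw [hs ω h, abs_zero]
    exact abs_nonneg _
  · have h1 : ω ∈ Metric.closedBall y0 R := by
      rw [Metric.mem_closedBall, dist_eq_norm]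
      exact (not_le.1 h).le
    exact (hC ω h1).trans (le_abs_self _)

/-- integrability criterion -/
theorem b4_int {y : E3 → ℝ} {y0 : E3} {R : ℝ}
    (hy : IntegrableOn (fun ω => y ω ^ 2) (Metric.closedBall y0 R)) {F : E3 → ℝ}
    (hF : Measurable F) (C : ℝ) (hb : ∀ ω, |F ω| ≤ C * (1 + y ω ^ 2))
    (hs : ∀ ω, R ≤ ‖ω - y0‖ → F ω = 0) : Integrable F := by
  have hfin : volume (Metric.closedBall y0 R) < ⊤ := measure_closedBall_lt_top
  have h0 : IntegrableOn (fun ω => C * (1 + y ω ^ 2)) (Metric.closedBall y0 R) := by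
    have h1 : IntegrableOn (fun _ : E3 => (1 : ℝ)) (Metric.closedBall y0 R) :=
      integrableOn_const hfin.ne
    exact (h1.add hy).const_mul C
  have h1 : IntegrableOn F (Metric.closedBall y0 R) :=
    Integrable.mono' h0 hF.aestronglyMeasurable (Filter.Eventually.of_forall fun ω => hb ω)
  refine (integrableOn_iff_integrable_of_support_subset ?_).1 h1
  intro ω hω
  rw [Metric.mem_closedBall, dist_eq_norm]
  by_contra hc
  exact hω (hs ω (not_le.1 hc).le)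

theorem b4_am {a b t : ℝ} (ha : 0 ≤ a) (hb : 0 ≤ b) (h : t ^ 2 ≤ 4 * a * b) : |t| ≤ a + b := by
  refine abs_le_of_sq_le_sq ?_ (by positivity)
  nlinarith [sq_nonneg (a - b)]

/-- the pointwise inequality; `s2 = 1 / |ω - y0|²` -/
theorem b4_point {W Γ Γ2 Γ3 v y D n μ l s2 : ℝ} (hW : 0 ≤ W) (hΓ : 0 ≤ Γ) (hΓ2 : 0 ≤ Γ2)
    (hΓ3 : 0 ≤ Γ3) (hs2 : 0 ≤ s2) (hD : D ^ 2 ≤ 4 * W * Γ * n ^ 2) (hl : |l| ≤ 2 * Γ + 2 * √(W * Γ3))
    (h1 : Γ ≤ 1 / 2 * (W * s2) + Γ2) (h2 : Γ3 ≤ W * s2 + Γ2) (hμ : 20 ≤ μ) :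
    9 / 10 * (W * n ^ 2 + v * D + Γ * v ^ 2) + 1 / 40 * (W * n ^ 2) - 2 * (Γ2 * v ^ 2)
        - 300 * (Γ * y ^ 2) ≤
      (W * n ^ 2 + v * D + μ ^ 2 * (W * y ^ 2) - 2 * (y * D) - y * v * l) +
        117 / 200 * (W * (v ^ 2 * s2)) := by
  have hv2 : 0 ≤ v ^ 2 := sq_nonneg v
  have hy2 : 0 ≤ y ^ 2 := sq_nonneg y
  have hn2 : 0 ≤ n ^ 2 := sq_nonneg n
  have hw1 : 0 ≤ W * n ^ 2 := mul_nonneg hW hn2
  have hb : 0 ≤ Γ * v ^ 2 := mul_nonneg hΓ hv2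
  have hz : 0 ≤ Γ * y ^ 2 := mul_nonneg hΓ hy2
  have he : 0 ≤ Γ2 * v ^ 2 := mul_nonneg hΓ2 hv2
  have hh : 0 ≤ W * (v ^ 2 * s2) := by positivity
  have hWy : 0 ≤ W * y ^ 2 := mul_nonneg hW hy2
  -- P1
  have p1 : |2 * (v * D)| ≤ W * n ^ 2 + 4 * (Γ * v ^ 2) := by
    refine b4_am hw1 (by positivity) ?_
    have := mul_le_mul_of_nonneg_left hD hv2
    nlinarith [this]
  -- P3
  have p3 : |2 * (y * D)| ≤ 1 / 50 * (W * n ^ 2) + 200 * (Γ * y ^ 2) := by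
    refine b4_am (by positivity) (by positivity) ?_
    have := mul_le_mul_of_nonneg_left hD hy2
    nlinarith [this]
  -- P4
  have p4 : |2 * (y * v)| ≤ 1 / 100 * v ^ 2 + 100 * y ^ 2 := by
    refine b4_am (by positivity) (by positivity) ?_
    nlinarith
  have p5 : |2 * (y * v) * √(W * Γ3)| ≤ 1 / 100 * (Γ3 * v ^ 2) + 100 * (W * y ^ 2) := by
    refine b4_am (by positivity) (by positivity) ?_
    rw [mul_pow, Real.sq_sqrt (by positivity)]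
    nlinarith
  have p6 : |y * v * l| ≤ Γ * (1 / 100 * v ^ 2 + 100 * y ^ 2) +
      (1 / 100 * (Γ3 * v ^ 2) + 100 * (W * y ^ 2)) := by
    have q1 : |y * v * l| ≤ |y * v| * (2 * Γ + 2 * √(W * Γ3)) := by
      rw [abs_mul]
      exact mul_le_mul_of_nonneg_left hl (abs_nonneg _)
    have q2 : |2 * (y * v)| = 2 * |y * v| := by
      rw [abs_mul, abs_two]
    have q3 : |2 * (y * v) * √(W * Γ3)| = 2 * |y * v| * √(W * Γ3) := by
      rw [abs_mul, abs_mul, abs_two, abs_of_nonneg (Real.sqrt_nonneg _)]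
    rw [q2] at p4
    rw [q3] at p5
    have q4 := mul_le_mul_of_nonneg_left p4 hΓ
    nlinarith [q1, q4, p5]
  have r1 := mul_le_mul_of_nonneg_right h1 hv2
  have r2 := mul_le_mul_of_nonneg_right h2 hv2
  have r3 : 100 * (W * y ^ 2) ≤ μ ^ 2 * (W * y ^ 2) :=
    mul_le_mul_of_nonneg_right (by nlinarith) hWy
  have a1 := (abs_le.1 p1).1
  have a3 := (abs_le.1 p3).2
  have a6 := (abs_le.1 p6).2
  nlinarith [a1, a3, a6, r1, r2, r3, hh, he, hw1, hb, hz]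

/-- TARGET -/
theorem elec_lower {I : Type} [Fintype I] (c : I → ℝ) (x : I → E3) (μ pb : ℝ) (hμ : 20 ≤ μ)
    (y0 : E3) (σ : Fin 3 → ℝ) (R L : ℝ) (W Γ Γ2 Γ3 : E3 → ℝ) (hw : Wt y0 σ R L W Γ Γ2 Γ3) :
    1 / 40 * (∫ ω, W ω * ‖gp c x μ ω‖ ^ 2) - 2 * (∫ ω, Γ2 ω * vp c x μ pb ω ^ 2) -
        300 * (∫ ω, Γ ω * yp c x μ ω ^ 2) ≤
      4 * Real.pi * ∑ i, c i * (W (x i) * vp c x μ pb (x i)) := by
  have hμ0 : 0 < μ := by linarith
  obtain ⟨hvc, hgm, hym, ⟨B, hB⟩, hyi⟩ := kern_facts c x μ pb hμ0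
  have hyR := hyi y0 R
  set v := vp c x μ pb with hv
  set g := gp c x μ with hg
  set y := yp c x μ with hy
  have hB0 : 0 ≤ B := (abs_nonneg _).trans (hB 0).1
  have hL0 : 0 ≤ L := (hw.Γ_nn 0).trans (hw.Γ_le 0)
  have hWc : Continuous W := hw.W_smooth.continuous
  have hWd : Continuous (fderiv ℝ W) := hw.W_smooth.continuous_fderiv (by simp [SM])
  have hlc : Continuous (lap W) := b4_lap_cont hw.W_smooth
  have hWcs : HasCompactSupport W := by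
    refine HasCompactSupport.of_support_subset_isCompact (isCompact_closedBall y0 R) ?_
    intro ω hω
    rw [Metric.mem_closedBall, dist_eq_norm]
    by_contra hc
    exact hω (hw.W_supp ω (not_le.1 hc).le)
  set D : E3 → ℝ := fun ω => fderiv ℝ W ω (g ω) with hD
  have hDm : Measurable D := by
    have h1 : Continuous (fun p : (E3 →L[ℝ] ℝ) × E3 => p.1 p.2) :=
      isBoundedBilinearMap_apply.continuous
    exact h1.measurable.comp (hWd.measurable.prodMk hgm)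
  have hDsq : ∀ ω, D ω ^ 2 ≤ 4 * W ω * Γ ω * ‖g ω‖ ^ 2 := by
    intro ω
    have h1 : |D ω| ≤ ‖fderiv ℝ W ω‖ * ‖g ω‖ := (fderiv ℝ W ω).le_opNorm (g ω)
    have h2 : D ω ^ 2 ≤ (‖fderiv ℝ W ω‖ * ‖g ω‖) ^ 2 := by
      rw [← sq_abs]
      exact pow_le_pow_left₀ (abs_nonneg _) h1 2
    rw [mul_pow] at h2
    exact h2.trans (mul_le_mul_of_nonneg_right (hw.dW ω) (sq_nonneg _))
  have hgB : ∀ ω, ‖g ω‖ ^ 2 ≤ B ^ 2 := fun ω => pow_le_pow_left₀ (norm_nonneg _) (hB ω).2 2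
  have hvB : ∀ ω, v ω ^ 2 ≤ B ^ 2 := fun ω => by
    rw [← sq_abs]
    exact pow_le_pow_left₀ (abs_nonneg _) (hB ω).1 2
  have hDb : ∀ ω, |D ω| ≤ 1 + 4 * L * B ^ 2 := by
    intro ω
    have h1 : D ω ^ 2 ≤ 4 * L * B ^ 2 := by
      refine (hDsq ω).trans ?_
      have h2 : 4 * W ω * Γ ω ≤ 4 * L := by
        have := mul_le_mul (hw.W_le ω) (hw.Γ_le ω) (hw.Γ_nn ω) zero_le_one
        nlinarith
      have h3 : 0 ≤ 4 * W ω * Γ ω := by
        have := mul_nonneg (hw.W_nn ω) (hw.Γ_nn ω)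
        nlinarith
      exact mul_le_mul h2 (hgB ω) (sq_nonneg _) (by positivity)
    have h2 : |D ω| ≤ 1 + D ω ^ 2 := by
      rw [← sq_abs (D ω)]
      nlinarith [sq_nonneg (|D ω| - 1 / 2)]
    linarith
  have hD0 : ∀ ω, R ≤ ‖ω - y0‖ → D ω = 0 := by
    intro ω hω
    have h1 := hDsq ω
    rw [hw.W_supp ω hω] at h1
    have h2 : D ω ^ 2 ≤ 0 := by linarith
    exact pow_eq_zero_iff two_ne_zero |>.1 (le_antisymm h2 (sq_nonneg _))
  have hl0 : ∀ ω, R ≤ ‖ω - y0‖ → lap W ω = 0 := by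
    intro ω hω
    have h1 := hw.lapW ω
    rw [hw.W_supp ω hω, hw.Γ_supp ω hω, zero_mul, Real.sqrt_zero] at h1
    have h2 : |lap W ω| ≤ 0 := by linarith
    exact abs_nonpos_iff.1 h2
  obtain ⟨Ml, hMl0, hMl⟩ := b4_bdd hlc hl0
  obtain ⟨M2, hM20, hM2⟩ := b4_bdd hw.Γ2_cont hw.Γ2_supp
  have hyq : ∀ ω, 2 * |y ω| ≤ 1 + y ω ^ 2 := fun ω => by
    rw [← sq_abs (y ω)]
    nlinarith [sq_nonneg (|y ω| - 1)]
  have hy1 : ∀ ω, 1 ≤ 1 + y ω ^ 2 := fun ω => by nlinarith [sq_nonneg (y ω)]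
  -- a bound without `y`
  have hbd : ∀ {t C : ℝ} (ω : E3), |t| ≤ C → |t| ≤ C * (1 + y ω ^ 2) := by
    intro t C ω h
    have hC : 0 ≤ C := (abs_nonneg _).trans h
    nlinarith [hy1 ω, sq_nonneg (y ω), mul_nonneg hC (sq_nonneg (y ω))]
  have iG : Integrable (fun ω => W ω * ‖g ω‖ ^ 2) := by
    refine b4_int hyR (hWc.measurable.mul (hgm.norm.pow_const 2)) (B ^ 2) (fun ω => hbd ω ?_) ?_
    · rw [abs_mul, abs_of_nonneg (hw.W_nn ω), abs_of_nonneg (sq_nonneg _)]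
      exact (mul_le_mul (hw.W_le ω) (hgB ω) (sq_nonneg _) zero_le_one).trans (one_mul _).le
    · intro ω hω
      rw [hw.W_supp ω hω, zero_mul]
  have iV : Integrable (fun ω => v ω * D ω) := by
    refine b4_int hyR (hvc.measurable.mul hDm) (B * (1 + 4 * L * B ^ 2)) (fun ω => hbd ω ?_) ?_
    · rw [abs_mul]
      exact mul_le_mul (hB ω).1 (hDb ω) (abs_nonneg _) hB0
    · intro ω hω
      rw [hD0 ω hω, mul_zero]
  have iΓ : Integrable (fun ω => Γ ω * v ω ^ 2) := by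
    refine b4_int hyR (hw.Γ_cont.measurable.mul (hvc.measurable.pow_const 2)) (L * B ^ 2)
      (fun ω => hbd ω ?_) ?_
    · rw [abs_mul, abs_of_nonneg (hw.Γ_nn ω), abs_of_nonneg (sq_nonneg _)]
      exact mul_le_mul (hw.Γ_le ω) (hvB ω) (sq_nonneg _) hL0
    · intro ω hω
      rw [hw.Γ_supp ω hω, zero_mul]
  have iE : Integrable (fun ω => Γ2 ω * v ω ^ 2) := by
    refine b4_int hyR (hw.Γ2_cont.measurable.mul (hvc.measurable.pow_const 2)) (M2 * B ^ 2)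
      (fun ω => hbd ω ?_) ?_
    · rw [abs_mul, abs_of_nonneg (sq_nonneg (v ω))]
      exact mul_le_mul (hM2 ω) (hvB ω) (sq_nonneg _) hM20
    · intro ω hω
      rw [hw.Γ2_supp ω hω, zero_mul]
  have iZ : Integrable (fun ω => Γ ω * y ω ^ 2) := by
    refine b4_int hyR (hw.Γ_cont.measurable.mul (hym.pow_const 2)) L (fun ω => ?_) ?_
    · rw [abs_mul, abs_of_nonneg (hw.Γ_nn ω), abs_of_nonneg (sq_nonneg _)]
      refine mul_le_mul (hw.Γ_le ω) (by linarith) (sq_nonneg _) hL0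
    · intro ω hω
      rw [hw.Γ_supp ω hω, zero_mul]
  have iH : Integrable (fun ω => W ω * (v ω ^ 2 / ‖ω - y0‖ ^ 2)) := by
    refine b4_int hyR (hWc.measurable.mul ((hvc.measurable.pow_const 2).div
      ((measurable_id.sub_const y0).norm.pow_const 2))) (B ^ 2) (fun ω => hbd ω ?_) ?_
    · by_cases h0 : W ω = 0
      · rw [h0, zero_mul, abs_zero]
        positivity
      · have h1 := (hw.W_oct ω h0).1
        have h2 : 1 ≤ ‖ω - y0‖ ^ 2 := one_le_pow₀ h1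
        have h3 : 0 ≤ v ω ^ 2 / ‖ω - y0‖ ^ 2 := by positivity
        have h4 : v ω ^ 2 / ‖ω - y0‖ ^ 2 ≤ B ^ 2 :=
          (div_le_self (sq_nonneg _) h2).trans (hvB ω)
        rw [abs_mul, abs_of_nonneg (hw.W_nn ω), abs_of_nonneg h3]
        exact (mul_le_mul (hw.W_le ω) h4 h3 zero_le_one).trans (one_mul _).le
    · intro ω hω
      rw [hw.W_supp ω hω, zero_mul]
  have iM : Integrable (fun ω => μ ^ 2 * (W ω * y ω ^ 2)) := by
    refine b4_int hyR ((hWc.measurable.mul (hym.pow_const 2)).const_mul _) (μ ^ 2)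
      (fun ω => ?_) ?_
    · rw [abs_mul, abs_mul, abs_of_nonneg (hw.W_nn ω), abs_of_nonneg (sq_nonneg μ),
        abs_of_nonneg (sq_nonneg (y ω))]
      refine mul_le_mul_of_nonneg_left ?_ (sq_nonneg _)
      have := mul_le_mul_of_nonneg_right (hw.W_le ω) (sq_nonneg (y ω))
      linarith
    · intro ω hω
      rw [hw.W_supp ω hω, zero_mul, mul_zero]
  have iD : Integrable (fun ω => 2 * (y ω * D ω)) := by
    refine b4_int hyR ((hym.mul hDm).const_mul _) (1 + 4 * L * B ^ 2) (fun ω => ?_) ?_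
    · rw [abs_mul, abs_mul, abs_two]
      have h1 := mul_le_mul (hyq ω) (hDb ω) (abs_nonneg _) (by positivity)
      linarith
    · intro ω hω
      rw [hD0 ω hω, mul_zero, mul_zero]
  have iL : Integrable (fun ω => y ω * v ω * lap W ω) := by
    refine b4_int hyR ((hym.mul hvc.measurable).mul hlc.measurable) (B * Ml) (fun ω => ?_) ?_
    · rw [abs_mul, abs_mul]
      have h1 : |y ω| ≤ 1 + y ω ^ 2 := by
        have := hyq ω
        have := abs_nonneg (y ω)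
        linarith
      have h2 := mul_le_mul (hB ω).1 (hMl ω) (abs_nonneg _) hB0
      have h3 := mul_le_mul h1 h2 (by positivity) (by positivity)
      calc |y ω| * |v ω| * |lap W ω| = |y ω| * (|v ω| * |lap W ω|) := by ring
        _ ≤ (1 + y ω ^ 2) * (B * Ml) := h3
        _ = B * Ml * (1 + y ω ^ 2) := by ring
    · intro ω hω
      rw [hl0 ω hω, mul_zero]
  have iI : Integrable (fun ω => W ω * ‖g ω‖ ^ 2 + v ω * D ω + μ ^ 2 * (W ω * y ω ^ 2) -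
      2 * (y ω * D ω) - y ω * v ω * lap W ω) := (((iG.add iV).add iM).sub iD).sub iL
  have iX : Integrable (fun ω => W ω * ‖g ω‖ ^ 2 + v ω * D ω + Γ ω * v ω ^ 2) :=
    (iG.add iV).add iΓ
  have hpt : ∀ ω, 9 / 10 * (W ω * ‖g ω‖ ^ 2 + v ω * D ω + Γ ω * v ω ^ 2) +
      1 / 40 * (W ω * ‖g ω‖ ^ 2) - 2 * (Γ2 ω * v ω ^ 2) - 300 * (Γ ω * y ω ^ 2) ≤
      (W ω * ‖g ω‖ ^ 2 + v ω * D ω + μ ^ 2 * (W ω * y ω ^ 2) -
      2 * (y ω * D ω) - y ω * v ω * lap W ω) + 117 / 200 * (W ω * (v ω ^ 2 / ‖ω - y0‖ ^ 2)) := by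
    intro ω
    rw [div_eq_mul_inv (v ω ^ 2)]
    refine b4_point (hw.W_nn ω) (hw.Γ_nn ω) (hw.Γ2_nn ω) (hw.Γ3_nn ω) (by positivity)
      (hDsq ω) (hw.lapW ω) ?_ ?_ hμ
    · rw [← div_eq_mul_inv]
      exact hw.Γ_hardy ω
    · rw [← div_eq_mul_inv]
      exact hw.Γ3_hardy ω
  have hint := integral_mono (((iX.const_mul (9 / 10)).add (iG.const_mul (1 / 40))).sub
    (iE.const_mul 2) |>.sub (iZ.const_mul 300)) (iI.add (iH.const_mul (117 / 200))) hpt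
  have e1 : ∫ ω, (9 / 10 * (W ω * ‖g ω‖ ^ 2 + v ω * D ω + Γ ω * v ω ^ 2) +
      1 / 40 * (W ω * ‖g ω‖ ^ 2) - 2 * (Γ2 ω * v ω ^ 2) - 300 * (Γ ω * y ω ^ 2)) =
      9 / 10 * (∫ ω, (W ω * ‖g ω‖ ^ 2 + v ω * D ω + Γ ω * v ω ^ 2)) +
      1 / 40 * (∫ ω, W ω * ‖g ω‖ ^ 2) - 2 * (∫ ω, Γ2 ω * v ω ^ 2) -
      300 * (∫ ω, Γ ω * y ω ^ 2) := by
    have j1 : Integrable (fun ω => 9 / 10 * (W ω * ‖g ω‖ ^ 2 + v ω * D ω + Γ ω * v ω ^ 2) +
        1 / 40 * (W ω * ‖g ω‖ ^ 2)) := (iX.const_mul (9 / 10)).add (iG.const_mul (1 / 40))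
    have j2 : Integrable (fun ω => 9 / 10 * (W ω * ‖g ω‖ ^ 2 + v ω * D ω + Γ ω * v ω ^ 2) +
        1 / 40 * (W ω * ‖g ω‖ ^ 2) - 2 * (Γ2 ω * v ω ^ 2)) := j1.sub (iE.const_mul 2)
    rw [integral_sub j2 (iZ.const_mul 300), integral_sub j1 (iE.const_mul 2),
      integral_add (iX.const_mul (9 / 10))
      (iG.const_mul (1 / 40)), integral_const_mul, integral_const_mul, integral_const_mul,
      integral_const_mul]
  have e2 : ∫ ω, ((W ω * ‖g ω‖ ^ 2 + v ω * D ω + μ ^ 2 * (W ω * y ω ^ 2) -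
      2 * (y ω * D ω) - y ω * v ω * lap W ω) + 117 / 200 * (W ω * (v ω ^ 2 / ‖ω - y0‖ ^ 2))) =
      (∫ ω, (W ω * ‖g ω‖ ^ 2 + v ω * D ω + μ ^ 2 * (W ω * y ω ^ 2) -
      2 * (y ω * D ω) - y ω * v ω * lap W ω)) +
      117 / 200 * (∫ ω, W ω * (v ω ^ 2 / ‖ω - y0‖ ^ 2)) := by
    rw [integral_add iI (iH.const_mul (117 / 200)), integral_const_mul]
  have hint' : ∫ ω, (9 / 10 * (W ω * ‖g ω‖ ^ 2 + v ω * D ω + Γ ω * v ω ^ 2) +
      1 / 40 * (W ω * ‖g ω‖ ^ 2) - 2 * (Γ2 ω * v ω ^ 2) - 300 * (Γ ω * y ω ^ 2)) ≤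
      ∫ ω, ((W ω * ‖g ω‖ ^ 2 + v ω * D ω + μ ^ 2 * (W ω * y ω ^ 2) -
      2 * (y ω * D ω) - y ω * v ω * lap W ω) + 117 / 200 * (W ω * (v ω ^ 2 / ‖ω - y0‖ ^ 2))) :=
    hint
  rw [e1, e2] at hint'
  have hel := (elec_id c x μ pb hμ0 W hw.W_smooth hWcs).1
  have hhp := hardy_pot c x μ pb hμ0 y0 σ R L W Γ Γ2 Γ3 hw
  have hhp' : 13 / 20 * (∫ ω, W ω * (v ω ^ 2 / ‖ω - y0‖ ^ 2)) ≤
      ∫ ω, (W ω * ‖g ω‖ ^ 2 + v ω * D ω + Γ ω * v ω ^ 2) := hhp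
  rw [hel]
  have goal' : 1 / 40 * (∫ ω, W ω * ‖g ω‖ ^ 2) - 2 * (∫ ω, Γ2 ω * v ω ^ 2) -
        300 * (∫ ω, Γ ω * y ω ^ 2) ≤ ∫ ω, (W ω * ‖g ω‖ ^ 2 + v ω * D ω +
        μ ^ 2 * (W ω * y ω ^ 2) - 2 * (y ω * D ω) - y ω * v ω * lap W ω) := by
    linarith
  exact goal'

end Pool.Agent.Helper780_CP.RB4
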