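import Pool.Agent.Helper780_CP.LLDefs2
import Pool.Agent.Helper780_CP.BnDefs
import Pool.Agent.Helper780_CP.RC2
import Pool.Agent.H5R2.NL.KernA

set_option autoImplicit false

open MeasureTheory
open scoped Topology

namespace Pool.Agent.Helper780_CP.RB5

open Pool.Agent.Helper780_CP
open Pool.Agent.Helper985.CP

open Pool.Agent.Helper780_CP Pool.Agent.Helper985.CP

open Filter Set in
theorem lint_aux {a l : ℝ} {g g' : ℝ → ℝ} (hcont : ContinuousWithinAt g (Ici a) a)
    (hderiv : ∀ x ∈ Ioi a, HasDerivAt g (g' x) x) (g'pos : ∀ x ∈ Ioi a, 0 ≤ g' x)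
    (hg : Tendsto g atTop (𝓝 l)) :
    ∫⁻ x in Ioi a, ENNReal.ofReal (g' x) = ENNReal.ofReal (l - g a) := by
  rw [← integral_Ioi_of_hasDerivAt_of_nonneg hcont hderiv g'pos hg]
  rw [ofReal_integral_eq_lintegral_ofReal (integrableOn_Ioi_deriv_of_nonneg hcont hderiv g'pos hg)]
  exact (ae_restrict_mem measurableSet_Ioi).mono fun x hx => g'pos x hx

theorem tend_aux (μ : ℝ) (hμ : 0 < μ) (n : ℕ) :
    Filter.Tendsto (fun R : ℝ => R ^ n * Real.exp (-(2 * μ * R))) Filter.atTop (𝓝 0) := by
  have h := tendsto_rpow_mul_exp_neg_mul_atTop_nhds_zero (n : ℝ) (2 * μ) (by positivity)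
  refine h.congr fun R => ?_
  rw [Real.rpow_natCast]
  congr 2
  ring

theorem der_aux (μ R : ℝ) :
    HasDerivAt (fun R : ℝ => Real.exp (-(2 * μ * R))) (Real.exp (-(2 * μ * R)) * (-(2 * μ))) R := by
  have h1 : HasDerivAt (fun R : ℝ => -(2 * μ * R)) (-(2 * μ)) R := by
    have h0 : HasDerivAt (fun R : ℝ => 2 * μ * R) (2 * μ) R := by
      have := (hasDerivAt_id R).const_mul (2 * μ)
      simpa using this
    exact h0.neg
  exact h1.exp

theorem vol_lens (a b : E3) (R : ℝ) (hR : ‖a - b‖ < 2 * R) :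
    volume (Metric.ball a R ∩ Metric.ball b R) =
      ENNReal.ofReal (Real.pi / 12 * (4 * R + ‖a - b‖) * (2 * R - ‖a - b‖) ^ 2) := by
  have h1 := Pool.Agent.H5R2.NL.kerna_lens1 R (b - a) (by rwa [norm_sub_rev])
  have h2 : volume {w : E3 | ‖w‖ < R ∧ ‖w - (b - a)‖ < R} =
      volume (Metric.ball a R ∩ Metric.ball b R) := by
    have h3 : {w : E3 | ‖w‖ < R ∧ ‖w - (b - a)‖ < R} =
        (fun w => a + w) ⁻¹' (Metric.ball a R ∩ Metric.ball b R) := by
      ext w
      simp only [Set.mem_ofPred_eq, Set.mem_preimage, Set.mem_inter_iff, Metric.mem_ball,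
        dist_eq_norm]
      have e1 : a + w - a = w := by abel
      have e2 : a + w - b = w - (b - a) := by abel
      rw [e1, e2]
    rw [h3, measure_preimage_add]
  rw [norm_sub_rev b a] at h1
  rw [← h2, ← h1, Measure.real, ENNReal.ofReal_toReal]
  rw [h2]
  exact ((measure_mono Set.inter_subset_left).trans_lt measure_ball_lt_top).ne

theorem vol_lens0 (a b : E3) (R : ℝ) (hR : 2 * R ≤ ‖a - b‖) :
    volume (Metric.ball a R ∩ Metric.ball b R) = 0 := by
  have h : Metric.ball a R ∩ Metric.ball b R = ∅ := by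
    refine Set.disjoint_iff_inter_eq_empty.1 (Metric.ball_disjoint_ball ?_)
    rw [dist_eq_norm]; linarith
  rw [h, measure_empty]

theorem vol_ball (a : E3) (R : ℝ) (hR : 0 ≤ R) :
    volume (Metric.ball a R) = ENNReal.ofReal (4 / 3 * Real.pi * R ^ 3) := by
  rw [← RC2.ren_ball_vol a R hR, Measure.real, ENNReal.ofReal_toReal measure_ball_lt_top.ne]

theorem mR_nonneg (μ R : ℝ) (hμ : 0 < μ) (hR : 0 < R) : 0 ≤ mR μ R := by
  unfold mR
  positivity

open Set in
/-- TARGET -/
theorem exp_balls (μ : ℝ) (hμ : 0 < μ) :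
    (∀ a b : E3, ∫⁻ R in Set.Ioi (0 : ℝ), ENNReal.ofReal (mR μ R) *
        volume (Metric.ball a R ∩ Metric.ball b R) =
      ENNReal.ofReal (Real.exp (-(μ * ‖a - b‖)))) ∧
    (∀ a : E3, ∫⁻ R in Set.Ioi (0 : ℝ), ENNReal.ofReal (mR μ R * (2 * R)) *
        volume (Metric.ball a R) = ENNReal.ofReal (8 / (3 * μ))) ∧
    (20 ≤ μ → ∀ a : E3, ∫⁻ R in Set.Ioi (1 / 2 : ℝ), ENNReal.ofReal (mR μ R) *
        volume (Metric.ball a R) ≤ ENNReal.ofReal (Real.exp (-(μ / 2)))) := by
  have hπ : Real.pi ≠ 0 := Real.pi_ne_zero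
  have t0 := tend_aux μ hμ 0
  have t1 := tend_aux μ hμ 1
  have t2 := tend_aux μ hμ 2
  have t3 := tend_aux μ hμ 3
  refine ⟨?_, ?_, ?_⟩
  · intro a b
    set d := ‖a - b‖ with hd
    have hd0 : 0 ≤ d := norm_nonneg _
    have h1 : ∫⁻ R in Set.Ioi (0 : ℝ), ENNReal.ofReal (mR μ R) *
        volume (Metric.ball a R ∩ Metric.ball b R) =
        ∫⁻ R in Set.Ioi (d / 2), ENNReal.ofReal (mR μ R *
          (Real.pi / 12 * (4 * R + d) * (2 * R - d) ^ 2)) := by
      have h2 : Ioi (0 : ℝ) ∩ Ioi (d / 2) = Ioi (d / 2) :=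
        inter_eq_right.2 (Ioi_subset_Ioi (by positivity))
      rw [← h2, inter_comm, ← setLIntegral_indicator measurableSet_Ioi]
      refine setLIntegral_congr_fun measurableSet_Ioi fun R hR => ?_
      have hR0 : 0 < R := hR
      by_cases h : R ∈ Ioi (d / 2)
      · have h' : d / 2 < R := h
        simp only [indicator_of_mem h]
        rw [vol_lens a b R (by rw [← hd]; linarith), ENNReal.ofReal_mul (mR_nonneg μ R hμ hR0)]
      · have h' : R ≤ d / 2 := not_lt.1 h
        simp only [indicator_of_notMem h]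
        rw [vol_lens0 a b R (by rw [← hd]; linarith), mul_zero]
    rw [h1]
    have h3 := lint_aux (a := d / 2) (l := 0)
      (g := fun R => -(μ ^ 2 / 12 * (16 * R ^ 2 - 12 * R * d + d ^ 3 / R) + μ * (2 * R - d) + 1) *
        Real.exp (-(2 * μ * R)))
      (g' := fun R => mR μ R * (Real.pi / 12 * (4 * R + d) * (2 * R - d) ^ 2)) ?_ ?_ ?_ ?_
    · rw [h3]
      congr 1
      rcases hd0.eq_or_lt with h | h
      · rw [← h]; simp
      · have hdne : d ≠ 0 := h.ne'
        field_simp
        ring_nf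
    · refine ContinuousWithinAt.mul ?_ (der_aux μ _).continuousAt.continuousWithinAt
      have hc : ContinuousWithinAt (fun R : ℝ => d ^ 3 / R) (Ici (d / 2)) (d / 2) := by
        rcases hd0.eq_or_lt with h | h
        · rw [← h]; simp [continuousWithinAt_const]
        · exact (continuousAt_const.div continuousAt_id (ne_of_gt (by
            show (0 : ℝ) < d / 2
            linarith))).continuousWithinAt
      refine ContinuousWithinAt.neg (ContinuousWithinAt.add (ContinuousWithinAt.add
        (ContinuousWithinAt.mul continuousWithinAt_const (ContinuousWithinAt.add ?_ hc)) ?_)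
        continuousWithinAt_const)
      · exact Continuous.continuousWithinAt (by fun_prop)
      · exact Continuous.continuousWithinAt (by fun_prop)
    · intro R hR
      have hR0 : 0 < R := lt_of_le_of_lt (by positivity) hR
      have hRne : R ≠ 0 := hR0.ne'
      have e1 : HasDerivAt (fun R : ℝ => d ^ 3 / R) (d ^ 3 * (-(R ^ 2)⁻¹)) R := by
        have := (hasDerivAt_inv hRne).const_mul (d ^ 3)
        exact this
      have e2 : HasDerivAt (fun R : ℝ => 16 * R ^ 2 - 12 * R * d) (16 * (2 * R) - 12 * d) R := by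
        have a1 : HasDerivAt (fun R : ℝ => 16 * R ^ 2) (16 * (2 * R)) R := by
          have := (hasDerivAt_pow 2 R).const_mul 16
          simpa using this
        have a2 : HasDerivAt (fun R : ℝ => 12 * R * d) (12 * d) R := by
          have := ((hasDerivAt_id R).const_mul 12).mul_const d
          simpa using this
        exact a1.sub a2
      have e3 : HasDerivAt (fun R : ℝ => μ * (2 * R - d)) (μ * 2) R := by
        have := (((hasDerivAt_id R).const_mul 2).sub_const d).const_mul μ
        simpa using this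
      have e4 := (((((e2.add e1).const_mul (μ ^ 2 / 12)).add e3).add_const 1).neg).mul (der_aux μ R)
      refine HasDerivAt.congr_deriv e4 ?_
      simp only [Pi.add_apply, Pi.neg_apply]
      unfold mR
      field_simp
      ring
    · intro R hR
      have hR0 : 0 < R := lt_of_le_of_lt (by positivity) hR
      exact mul_nonneg (mR_nonneg μ R hμ hR0) (by positivity)
    · have t4 : Filter.Tendsto (fun R : ℝ => R⁻¹ * (R ^ 0 * Real.exp (-(2 * μ * R)))) Filter.atTop
          (𝓝 0) := by
        have := tendsto_inv_atTop_zero.mul t0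
        simpa using this
      have t5 := ((((t2.const_mul (-(16 * μ ^ 2 / 12))).add (t1.const_mul (d * μ ^ 2 - 2 * μ))).add
        (t4.const_mul (-(d ^ 3 * μ ^ 2 / 12)))).add (t0.const_mul (μ * d - 1)))
      simp only [mul_zero, add_zero] at t5
      refine t5.congr fun R => ?_
      rw [div_eq_mul_inv (d ^ 3) R]
      ring
  · intro a
    have h1 : ∫⁻ R in Set.Ioi (0 : ℝ), ENNReal.ofReal (mR μ R * (2 * R)) *
        volume (Metric.ball a R) =
        ∫⁻ R in Set.Ioi (0 : ℝ), ENNReal.ofReal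
          ((8 * μ ^ 2 / 3 * (2 * μ * R ^ 3 + R ^ 2)) * Real.exp (-(2 * μ * R))) := by
      refine setLIntegral_congr_fun measurableSet_Ioi fun R hR => ?_
      have hR0 : 0 < R := hR
      have hRne : R ≠ 0 := hR0.ne'
      show _ * volume (Metric.ball a R) = _
      rw [vol_ball a R hR0.le, ← ENNReal.ofReal_mul (mul_nonneg (mR_nonneg μ R hμ hR0)
        (by positivity))]
      congr 1
      unfold mR
      field_simp
      ring
    rw [h1]
    have h3 := lint_aux (a := 0) (l := 0)
      (g := fun R => -(8 * μ ^ 2 / 3 * R ^ 3 + 16 * μ / 3 * R ^ 2 + 16 / 3 * R + 8 / (3 * μ)) *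
        Real.exp (-(2 * μ * R)))
      (g' := fun R => (8 * μ ^ 2 / 3 * (2 * μ * R ^ 3 + R ^ 2)) * Real.exp (-(2 * μ * R))) ?_ ?_ ?_ ?_
    · rw [h3]
      congr 1
      simp
    · exact Continuous.continuousWithinAt (by fun_prop)
    · intro R hR
      have e1 : HasDerivAt (fun R : ℝ => 8 * μ ^ 2 / 3 * R ^ 3) (8 * μ ^ 2 / 3 * (3 * R ^ 2)) R := by
        have := (hasDerivAt_pow 3 R).const_mul (8 * μ ^ 2 / 3)
        simpa using this
      have e2 : HasDerivAt (fun R : ℝ => 16 * μ / 3 * R ^ 2) (16 * μ / 3 * (2 * R)) R := by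
        have := (hasDerivAt_pow 2 R).const_mul (16 * μ / 3)
        simpa using this
      have e3 : HasDerivAt (fun R : ℝ => 16 / 3 * R) (16 / 3) R := by
        have := (hasDerivAt_id R).const_mul (16 / 3)
        simpa using this
      have e4 := ((((e1.add e2).add e3).add_const (8 / (3 * μ))).neg).mul (der_aux μ R)
      refine HasDerivAt.congr_deriv e4 ?_
      simp only [Pi.add_apply, Pi.neg_apply]
      field_simp
      ring
    · intro R hR
      have hR0 : 0 < R := hR
      positivity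
    · have t5 := ((((t3.const_mul (-(8 * μ ^ 2 / 3))).add (t2.const_mul (-(16 * μ / 3)))).add
        (t1.const_mul (-(16 / 3 : ℝ)))).add (t0.const_mul (-(8 / (3 * μ)))))
      simp only [mul_zero, add_zero] at t5
      refine t5.congr fun R => ?_
      ring
  · intro h20 a
    have h1 : ∫⁻ R in Set.Ioi (1 / 2 : ℝ), ENNReal.ofReal (mR μ R) *
        volume (Metric.ball a R) =
        ∫⁻ R in Set.Ioi (1 / 2 : ℝ), ENNReal.ofReal
          ((4 * μ ^ 2 / 3 * (2 * μ * R ^ 2 + R)) * Real.exp (-(2 * μ * R))) := by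
      refine setLIntegral_congr_fun measurableSet_Ioi fun R hR => ?_
      have hR0 : 0 < R := lt_trans (by norm_num) hR
      have hRne : R ≠ 0 := hR0.ne'
      show _ * volume (Metric.ball a R) = _
      rw [vol_ball a R hR0.le, ← ENNReal.ofReal_mul (mR_nonneg μ R hμ hR0)]
      congr 1
      unfold mR
      field_simp
    rw [h1]
    have h3 := lint_aux (a := 1 / 2) (l := 0)
      (g := fun R => -(4 * μ ^ 2 / 3 * R ^ 2 + 2 * μ * R + 1) *
        Real.exp (-(2 * μ * R)))
      (g' := fun R => (4 * μ ^ 2 / 3 * (2 * μ * R ^ 2 + R)) * Real.exp (-(2 * μ * R))) ?_ ?_ ?_ ?_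
    · rw [h3]
      refine ENNReal.ofReal_le_ofReal ?_
      have hq := Real.quadratic_le_exp_of_nonneg (x := μ / 4) (by positivity)
      have hE : Real.exp (-(2 * μ * (1 / 2))) = Real.exp (-(μ / 2)) * Real.exp (-(μ / 2)) := by
        rw [← Real.exp_add]; congr 1; ring
      have hE2 : Real.exp (μ / 4) ^ 2 * Real.exp (-(μ / 2)) = 1 := by
        rw [← Real.exp_nat_mul, ← Real.exp_add]
        norm_num
        ring
      have hpos := Real.exp_pos (-(μ / 2))
      have hsq : (1 + μ / 4 + (μ / 4) ^ 2 / 2) ^ 2 ≤ Real.exp (μ / 4) ^ 2 :=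
        pow_le_pow_left₀ (by positivity) hq 2
      have hpoly : 4 * μ ^ 2 / 3 * (1 / 2) ^ 2 + 2 * μ * (1 / 2) + 1 ≤
          (1 + μ / 4 + (μ / 4) ^ 2 / 2) ^ 2 := by
        nlinarith [mul_nonneg (sub_nonneg.2 h20) (sub_nonneg.2 h20), mul_pos hμ hμ,
          mul_pos (mul_pos hμ hμ) hμ, mul_nonneg (mul_nonneg hμ.le hμ.le)
            (mul_nonneg (sub_nonneg.2 h20) hμ.le), mul_nonneg (mul_nonneg hμ.le hμ.le)
            (sub_nonneg.2 h20)]
      have hle := hpoly.trans hsq
      have h9 : (4 * μ ^ 2 / 3 * (1 / 2) ^ 2 + 2 * μ * (1 / 2) + 1) * Real.exp (-(μ / 2)) ≤ 1 := by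
        calc _ ≤ Real.exp (μ / 4) ^ 2 * Real.exp (-(μ / 2)) :=
              mul_le_mul_of_nonneg_right hle hpos.le
          _ = 1 := hE2
      show 0 - -(4 * μ ^ 2 / 3 * (1 / 2) ^ 2 + 2 * μ * (1 / 2) + 1) *
        Real.exp (-(2 * μ * (1 / 2))) ≤ Real.exp (-(μ / 2))
      rw [hE]
      nlinarith [mul_le_mul_of_nonneg_right h9 hpos.le]
    · exact Continuous.continuousWithinAt (by fun_prop)
    · intro R hR
      have e2 : HasDerivAt (fun R : ℝ => 4 * μ ^ 2 / 3 * R ^ 2) (4 * μ ^ 2 / 3 * (2 * R)) R := by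
        have := (hasDerivAt_pow 2 R).const_mul (4 * μ ^ 2 / 3)
        simpa using this
      have e3 : HasDerivAt (fun R : ℝ => 2 * μ * R) (2 * μ) R := by
        have := (hasDerivAt_id R).const_mul (2 * μ)
        simpa using this
      have e4 := (((e2.add e3).add_const 1).neg).mul (der_aux μ R)
      refine HasDerivAt.congr_deriv e4 ?_
      simp only [Pi.add_apply, Pi.neg_apply]
      ring
    · intro R hR
      have hR0 : 0 < R := lt_trans (by norm_num) hR
      positivity
    · have t5 := (((t2.const_mul (-(4 * μ ^ 2 / 3))).add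
        (t1.const_mul (-(2 * μ)))).add (t0.const_mul (-1 : ℝ)))
      simp only [mul_zero, add_zero] at t5
      refine t5.congr fun R => ?_
      ring

end Pool.Agent.Helper780_CP.RB5
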