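import Pool.Agent.Helper780_CP.LLDefs2
import Pool.Agent.Helper780_CP.BnDefs
import Pool.Agent.Helper780_CP.RB5

set_option autoImplicit false

open MeasureTheory
open scoped Topology

namespace Pool.Agent.Helper780_CP.RB6

open Pool.Agent.Helper780_CP
open Pool.Agent.Helper985.CP
open Pool.Agent.Helper780_CP.RB5 (exp_balls)

open Pool.Agent.Helper780_CP Pool.Agent.Helper985.CP

lemma mR_nn {μ R : ℝ} (hμ : 0 < μ) (hR : 0 < R) : 0 ≤ mR μ R := by
  unfold mR
  have := Real.pi_pos
  positivity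

lemma mR_meas (μ : ℝ) : Measurable (mR μ) := by
  unfold mR
  fun_prop

/-- volume of the intersection of two balls -/
noncomputable def Vb (a b : E3) (R : ℝ) : ℝ := volume.real (Metric.ball a R ∩ Metric.ball b R)

lemma Vb_fin (a b : E3) (R : ℝ) : volume (Metric.ball a R ∩ Metric.ball b R) ≠ ⊤ :=
  ne_top_of_le_ne_top measure_ball_lt_top.ne (measure_mono Set.inter_subset_left)

lemma Vb_mono (a b : E3) : Monotone (Vb a b) := by
  intro r s hrs
  exact measureReal_mono (Set.inter_subset_inter (Metric.ball_subset_ball hrs)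
    (Metric.ball_subset_ball hrs)) (Vb_fin a b s)

lemma Vb_nn (a b : E3) (R : ℝ) : 0 ≤ Vb a b R := measureReal_nonneg

lemma ofReal_Vb (a b : E3) (R : ℝ) :
    ENNReal.ofReal (Vb a b R) = volume (Metric.ball a R ∩ Metric.ball b R) :=
  ENNReal.ofReal_toReal (Vb_fin a b R)

lemma int_of_lint {g : ℝ → ℝ} (hg : Measurable g) (h0 : ∀ R, 0 < R → 0 ≤ g R) {A : ℝ} (hA : 0 ≤ A)
    (h : ∫⁻ R in Set.Ioi (0 : ℝ), ENNReal.ofReal (g R) = ENNReal.ofReal A) :
    IntegrableOn g (Set.Ioi 0) ∧ ∫ R in Set.Ioi (0 : ℝ), g R = A := by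
  have hae : 0 ≤ᵐ[volume.restrict (Set.Ioi (0 : ℝ))] g := by
    filter_upwards [ae_restrict_mem measurableSet_Ioi] with R hR using h0 R hR
  constructor
  · refine ⟨hg.aestronglyMeasurable, ?_⟩
    rw [hasFiniteIntegral_iff_ofReal hae, h]
    exact ENNReal.ofReal_lt_top
  · rw [integral_eq_lintegral_of_nonneg_ae hae hg.aestronglyMeasurable, h, ENNReal.toReal_ofReal hA]

lemma int_V {μ : ℝ} (hμ : 0 < μ) (a b : E3) :
    IntegrableOn (fun R => mR μ R * Vb a b R) (Set.Ioi 0) ∧
      ∫ R in Set.Ioi (0 : ℝ), mR μ R * Vb a b R = Real.exp (-(μ * ‖a - b‖)) := by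
  refine int_of_lint ((mR_meas μ).mul (Vb_mono a b).measurable)
    (fun R hR => mul_nonneg (mR_nn hμ hR) (Vb_nn a b R)) (Real.exp_pos _).le ?_
  rw [← (exp_balls μ hμ).1 a b]
  refine setLIntegral_congr_fun measurableSet_Ioi ?_
  intro R hR
  show ENNReal.ofReal (mR μ R * Vb a b R) = _
  rw [ENNReal.ofReal_mul (mR_nn hμ hR), ofReal_Vb]

lemma int_V2 {μ : ℝ} (hμ : 0 < μ) (a : E3) :
    IntegrableOn (fun R => mR μ R * (2 * R) * Vb a a R) (Set.Ioi 0) ∧
      ∫ R in Set.Ioi (0 : ℝ), mR μ R * (2 * R) * Vb a a R = 8 / (3 * μ) := by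
  have hm : ∀ R : ℝ, 0 < R → 0 ≤ mR μ R * (2 * R) := fun R hR =>
    mul_nonneg (mR_nn hμ hR) (by linarith)
  refine int_of_lint (((mR_meas μ).mul (by fun_prop)).mul (Vb_mono a a).measurable)
    (fun R hR => mul_nonneg (hm R hR) (Vb_nn a a R)) (by positivity) ?_
  rw [← (exp_balls μ hμ).2.1 a]
  refine setLIntegral_congr_fun measurableSet_Ioi ?_
  intro R hR
  show ENNReal.ofReal (mR μ R * (2 * R) * Vb a a R) = _
  rw [ENNReal.ofReal_mul (hm R hR), ofReal_Vb, Set.inter_self]

lemma pv_nn {I : Type} (c : I → ℝ) (x : I → E3) (i : I) : 0 ≤ pv c x i := by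
  unfold pv
  refine Real.iSup_nonneg fun j => ?_
  split_ifs
  · positivity
  · exact le_rfl

/-- the pointwise inequality -/
lemma point (z K₁ C₁ : ℝ) (hK₁ : 0 < K₁) (h : RB z K₁ C₁) {I : Type} [Fintype I]
    [DecidableEq I] (c : I → ℝ) (x : I → E3) (hc : ∀ i, |c i| ≤ z)
    (hx : ∀ i j, i ≠ j → x i ≠ x j) (f : E3 → ℝ) (L : ℝ) (hL : 0 ≤ L)
    (hf : ∀ v, 0 ≤ f v ∧ f v ≤ 1) (hLip : ∀ v w, |f v - f w| ≤ L * ‖v - w‖) (u : E3) (R : ℝ)
    (hR : 0 < R) (F : I → ℝ) (hF : ∀ i, F i = if ‖x i - u‖ < R then f (x i) else 0) :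
    0 ≤ (∑ i, ∑ j, if i = j then 0 else F i * F j * (c i * c j / ‖x i - x j‖)) +
      ∑ i, if c i < 0 then K₁ * pv c x i * (f (x i) + L * (2 * R)) * F i else 0 := by
  have hFn : ∀ i, 0 ≤ F i := by
    intro i; rw [hF]; split_ifs
    · exact (hf _).1
    · exact le_rfl
  have hlip1 : ∀ v, ‖v - u‖ < R → f v ≤ f u + L * R := by
    intro v hv
    have h1 := (abs_le.1 (hLip v u)).2
    have h2 : L * ‖v - u‖ ≤ L * R := by gcongr
    linarith
  have hlip2 : ∀ v, ‖v - u‖ < R → f u ≤ f v + L * R := by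
    intro v hv
    have h1 := (abs_le.1 (hLip v u)).1
    have h2 : L * ‖v - u‖ ≤ L * R := by gcongr
    linarith
  set s : ℝ := f u + L * R with hs
  have hs0 : 0 ≤ s := add_nonneg (hf u).1 (mul_nonneg hL hR.le)
  rcases hs0.eq_or_lt with h0 | h0
  · have hF0 : ∀ i, F i = 0 := by
      intro i
      rw [hF]
      split_ifs with h1
      · have := hlip1 _ h1
        exact le_antisymm (by linarith) (hf _).1
      · rfl
    simp [hF0]
  · let χ : E3 → ℝ := fun v => if ‖v - u‖ < R then f v / s else 0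
    have hχ : ∀ v, 0 ≤ χ v ∧ χ v ≤ 1 := by
      intro v
      show 0 ≤ (if ‖v - u‖ < R then f v / s else 0) ∧ (if ‖v - u‖ < R then f v / s else 0) ≤ 1
      split_ifs with h1
      · exact ⟨div_nonneg (hf v).1 h0.le, (div_le_one h0).2 (hlip1 v h1)⟩
      · exact ⟨le_rfl, zero_le_one⟩
    have hχF : ∀ i, χ (x i) = F i / s := by
      intro i
      show (if ‖x i - u‖ < R then f (x i) / s else 0) = F i / s
      rw [hF]
      split_ifs
      · rfl
      · simp
    obtain ⟨⟨hp0, hp1⟩, -⟩ := h c x χ hc hx hχ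
    set T : ℝ := ∑ i, ∑ j, if i = j then 0 else F i * F j * (c i * c j / ‖x i - x j‖) with hT
    set Q : ℝ := ∑ i, if c i < 0 then F i * pv c x i else 0 with hQ
    have e1 : vl χ c x = T / s ^ 2 := by
      unfold vl
      rw [hT, Finset.sum_div]
      refine Finset.sum_congr rfl fun i _ => ?_
      rw [Finset.sum_div]
      refine Finset.sum_congr rfl fun j _ => ?_
      split_ifs with h1
      · simp
      · rw [hχF, hχF]
        ring_nf
    have e2 : pl χ c x = Q / s := by
      unfold pl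
      rw [hQ, Finset.sum_div]
      refine Finset.sum_congr rfl fun i _ => ?_
      split_ifs with h1
      · rw [hχF]; ring
      · simp
    rw [e1, e2] at hp1
    rw [e2] at hp0
    have h2 : 0 ≤ T / s ^ 2 + K₁ * (Q / s) := hp0.trans hp1
    have h3 : T / s ^ 2 + K₁ * (Q / s) = (T + K₁ * (s * Q)) / s ^ 2 := by
      field_simp
    rw [h3] at h2
    have h4 : 0 ≤ T + K₁ * (s * Q) := by
      have h5 := mul_nonneg h2 (sq_nonneg s)
      rwa [div_mul_cancel₀] at h5
      positivity
    refine h4.trans ?_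
    gcongr
    rw [hQ, Finset.mul_sum, Finset.mul_sum]
    refine Finset.sum_le_sum fun i _ => ?_
    split_ifs with h1
    · have hpv := pv_nn c x i
      have h5 : s * F i ≤ (f (x i) + L * (2 * R)) * F i := by
        by_cases h6 : ‖x i - u‖ < R
        · have := hlip2 _ h6
          refine mul_le_mul_of_nonneg_right ?_ (hFn i)
          rw [hs]; linarith
        · rw [hF, if_neg h6]; simp
      calc K₁ * (s * (F i * pv c x i)) = K₁ * pv c x i * (s * F i) := by ring
        _ ≤ K₁ * pv c x i * ((f (x i) + L * (2 * R)) * F i) := by gcongr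
        _ = _ := by ring
    · simp

/-- TARGET -/
theorem sh_pos (z K₁ C₁ : ℝ) (hK₁ : 0 < K₁) (h : RB z K₁ C₁) {I : Type} [Fintype I]
    [DecidableEq I] (c : I → ℝ) (x : I → E3) (hc : ∀ i, |c i| ≤ z)
    (hx : ∀ i j, i ≠ j → x i ≠ x j) (f : E3 → ℝ) (L : ℝ) (hL : 0 ≤ L)
    (hf : ∀ v, 0 ≤ f v ∧ f v ≤ 1) (hLip : ∀ v w, |f v - f w| ≤ L * ‖v - w‖) (μ : ℝ)
    (hμ : 20 ≤ μ) :
    -(K₁ * ∑ i, if c i < 0 then
        pv c x i * (f (x i) * (f (x i) + 8 / 3 * L / μ + Real.exp (-(μ / 2)))) else 0) ≤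
      ∑ i, ∑ j, if i = j then 0 else f (x i) * f (x j) * (c i * c j * Yk μ (x i - x j)) := by
  have hμ0 : 0 < μ := by linarith
  let a : I → I → ℝ := fun i j =>
    if i = j then 0 else f (x i) * f (x j) * (c i * c j / ‖x i - x j‖)
  let b : I → ℝ := fun i => if c i < 0 then K₁ * pv c x i * f (x i) else 0
  have hb : ∀ i, 0 ≤ b i := by
    intro i
    show 0 ≤ (if c i < 0 then K₁ * pv c x i * f (x i) else 0)
    split_ifs
    · exact mul_nonneg (mul_nonneg hK₁.le (pv_nn c x i)) (hf _).1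
    · exact le_rfl
  -- for fixed radius
  have key : ∀ R : ℝ, 0 < R → 0 ≤ (∑ i, ∑ j, a i j * Vb (x i) (x j) R) +
      ∑ i, b i * (f (x i) + L * (2 * R)) * Vb (x i) (x i) R := by
    intro R hR
    let B : I → I → Set E3 := fun i j => Metric.ball (x i) R ∩ Metric.ball (x j) R
    have hBm : ∀ i j, MeasurableSet (B i j) := fun i j =>
      measurableSet_ball.inter measurableSet_ball
    have hBi : ∀ i j, Integrable ((B i j).indicator (fun _ => (1 : ℝ))) := fun i j =>
      (integrable_indicator_iff (hBm i j)).2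
        (integrableOn_const (Vb_fin (x i) (x j) R))
    have hBint : ∀ i j, ∫ u, (B i j).indicator (fun _ => (1 : ℝ)) u = Vb (x i) (x j) R := by
      intro i j
      rw [integral_indicator (hBm i j), setIntegral_const]
      simp [Vb, B]
    have hpt : ∀ u : E3, 0 ≤ (∑ i, ∑ j, a i j * (B i j).indicator (fun _ => (1 : ℝ)) u) +
        ∑ i, b i * (f (x i) + L * (2 * R)) * (B i i).indicator (fun _ => (1 : ℝ)) u := by
      intro u
      have h1 := point z K₁ C₁ hK₁ h c x hc hx f L hL hf hLip u R hR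
        (fun i => if ‖x i - u‖ < R then f (x i) else 0) (fun i => rfl)
      have hind : ∀ i j, (B i j).indicator (fun _ => (1 : ℝ)) u =
          if ‖x i - u‖ < R ∧ ‖x j - u‖ < R then 1 else 0 := by
        intro i j
        have h3 : u ∈ B i j ↔ (‖x i - u‖ < R ∧ ‖x j - u‖ < R) := by
          simp only [B, Set.mem_inter_iff, Metric.mem_ball, dist_eq_norm, norm_sub_rev u]
        by_cases h4 : ‖x i - u‖ < R ∧ ‖x j - u‖ < R
        · rw [Set.indicator_of_mem (h3.2 h4), if_pos h4]
        · rw [Set.indicator_of_notMem (fun h5 => h4 (h3.1 h5)), if_neg h4]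
      refine h1.trans (le_of_eq ?_)
      congr 1
      · refine Finset.sum_congr rfl fun i _ => Finset.sum_congr rfl fun j _ => ?_
        rw [hind]
        show _ = (if i = j then 0 else f (x i) * f (x j) * (c i * c j / ‖x i - x j‖)) * _
        by_cases h2 : i = j
        · simp [h2]
        · by_cases h3 : ‖x i - u‖ < R <;> by_cases h4 : ‖x j - u‖ < R <;> simp [h2, h3, h4]
      · refine Finset.sum_congr rfl fun i _ => ?_
        rw [hind]
        show _ = (if c i < 0 then K₁ * pv c x i * f (x i) else 0) * _ * _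
        by_cases h2 : c i < 0
        · by_cases h3 : ‖x i - u‖ < R
          · simp only [h2, h3, if_true, and_self]; ring
          · simp [h2, h3]
        · simp [h2]
    have h2 : 0 ≤ ∫ u : E3, ((∑ i, ∑ j, a i j * (B i j).indicator (fun _ => (1 : ℝ)) u) +
        ∑ i, b i * (f (x i) + L * (2 * R)) * (B i i).indicator (fun _ => (1 : ℝ)) u) :=
      integral_nonneg (fun u => hpt u)
    rw [integral_add, integral_finsetSum, integral_finsetSum] at h2
    · refine h2.trans (le_of_eq ?_)
      congr 1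
      · refine Finset.sum_congr rfl fun i _ => ?_
        rw [integral_finsetSum]
        · refine Finset.sum_congr rfl fun j _ => ?_
          rw [integral_const_mul, hBint]
        · intro j _; exact (hBi i j).const_mul _
      · refine Finset.sum_congr rfl fun i _ => ?_
        rw [integral_const_mul, hBint]
    · intro i _; exact (hBi i i).const_mul _
    · intro i _; exact integrable_finsetSum _ fun j _ => (hBi i j).const_mul _
    · exact integrable_finsetSum _ fun i _ => integrable_finsetSum _ fun j _ =>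
        (hBi i j).const_mul _
    · exact integrable_finsetSum _ fun i _ => (hBi i i).const_mul _
  -- integrate over the radius
  have key2 : 0 ≤ ∫ R in Set.Ioi (0 : ℝ), ((∑ i, ∑ j, a i j * (mR μ R * Vb (x i) (x j) R)) +
      ∑ i, (b i * f (x i) * (mR μ R * Vb (x i) (x i) R) +
        b i * L * (mR μ R * (2 * R) * Vb (x i) (x i) R))) := by
    refine setIntegral_nonneg measurableSet_Ioi ?_
    intro R hR
    have h1 := mul_nonneg (mR_nn hμ0 hR) (key R hR)
    refine h1.trans (le_of_eq ?_)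
    rw [mul_add, Finset.mul_sum, Finset.mul_sum]
    congr 1
    · refine Finset.sum_congr rfl fun i _ => ?_
      rw [Finset.mul_sum]
      refine Finset.sum_congr rfl fun j _ => ?_
      ring
    · refine Finset.sum_congr rfl fun i _ => ?_
      ring
  have hI1 : ∀ i j, Integrable (fun R => a i j * (mR μ R * Vb (x i) (x j) R))
      (volume.restrict (Set.Ioi (0 : ℝ))) := fun i j => (int_V hμ0 (x i) (x j)).1.const_mul _
  have hI2 : ∀ i, Integrable (fun R => b i * f (x i) * (mR μ R * Vb (x i) (x i) R))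
      (volume.restrict (Set.Ioi (0 : ℝ))) := fun i => (int_V hμ0 (x i) (x i)).1.const_mul _
  have hI3 : ∀ i, Integrable (fun R => b i * L * (mR μ R * (2 * R) * Vb (x i) (x i) R))
      (volume.restrict (Set.Ioi (0 : ℝ))) := fun i => (int_V2 hμ0 (x i)).1.const_mul _
  have hI23 : ∀ i, Integrable (fun R => b i * f (x i) * (mR μ R * Vb (x i) (x i) R) +
      b i * L * (mR μ R * (2 * R) * Vb (x i) (x i) R))
      (volume.restrict (Set.Ioi (0 : ℝ))) := fun i => (hI2 i).add (hI3 i)
  rw [integral_add (integrable_finsetSum _ fun i _ => integrable_finsetSum _ fun j _ => hI1 i j)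
    (integrable_finsetSum _ fun i _ => hI23 i),
    integral_finsetSum _ (fun i _ => integrable_finsetSum _ fun j _ => hI1 i j),
    integral_finsetSum _ (fun i _ => hI23 i)] at key2
  have e1 : (∑ i, ∫ R in Set.Ioi (0 : ℝ), ∑ j, a i j * (mR μ R * Vb (x i) (x j) R)) =
      ∑ i, ∑ j, if i = j then 0 else f (x i) * f (x j) * (c i * c j * Yk μ (x i - x j)) := by
    refine Finset.sum_congr rfl fun i _ => ?_
    rw [integral_finsetSum _ (fun j _ => hI1 i j)]
    refine Finset.sum_congr rfl fun j _ => ?_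
    rw [integral_const_mul, (int_V hμ0 (x i) (x j)).2]
    show (if i = j then 0 else f (x i) * f (x j) * (c i * c j / ‖x i - x j‖)) * _ = _
    split_ifs
    · simp
    · unfold Yk; ring
  have e2 : (∑ i, ∫ R in Set.Ioi (0 : ℝ), (b i * f (x i) * (mR μ R * Vb (x i) (x i) R) +
      b i * L * (mR μ R * (2 * R) * Vb (x i) (x i) R))) =
      ∑ i, b i * (f (x i) + 8 / 3 * L / μ) := by
    refine Finset.sum_congr rfl fun i _ => ?_
    rw [integral_add (hI2 i) (hI3 i), integral_const_mul, integral_const_mul,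
      (int_V hμ0 (x i) (x i)).2, (int_V2 hμ0 (x i)).2]
    simp only [sub_self, norm_zero, mul_zero, neg_zero, Real.exp_zero]
    field_simp
  rw [e1, e2] at key2
  have e3 : ∑ i, b i * (f (x i) + 8 / 3 * L / μ) ≤ K₁ * ∑ i, if c i < 0 then
        pv c x i * (f (x i) * (f (x i) + 8 / 3 * L / μ + Real.exp (-(μ / 2)))) else 0 := by
    rw [Finset.mul_sum]
    refine Finset.sum_le_sum fun i _ => ?_
    show (if c i < 0 then K₁ * pv c x i * f (x i) else 0) * _ ≤ _
    split_ifs
    · have hpv := pv_nn c x i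
      have hfi := (hf (x i)).1
      have he := Real.exp_pos (-(μ / 2))
      calc K₁ * pv c x i * f (x i) * (f (x i) + 8 / 3 * L / μ)
          ≤ K₁ * pv c x i * f (x i) * (f (x i) + 8 / 3 * L / μ + Real.exp (-(μ / 2))) :=
            mul_le_mul_of_nonneg_left (by linarith) (by positivity)
        _ = _ := by ring
    · simp
  linarith

end Pool.Agent.Helper780_CP.RB6
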