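import Pool.Agent.Helper780_CP.LLDefs2
import Pool.Agent.Helper780_CP.BnDefs
import Pool.Agent.Helper780_CP.RB6

set_option autoImplicit false

open MeasureTheory
open scoped Topology

namespace Pool.Agent.Helper780_CP.RB7

open Pool.Agent.Helper780_CP
open Pool.Agent.Helper985.CP
open Pool.Agent.Helper780_CP.RB6 (sh_pos)

open Pool.Agent.Helper780_CP Pool.Agent.Helper985.CP

theorem pv_nn {I : Type} (c : I → ℝ) (x : I → E3) (i : I) : 0 ≤ pv c x i := by
  unfold pv
  exact Real.iSup_nonneg fun j => by split_ifs <;> positivity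

theorem Yk_symm (μ : ℝ) (v w : E3) : Yk μ (v - w) = Yk μ (w - v) := by
  unfold Yk; rw [norm_sub_rev]

theorem Yk_nn (μ : ℝ) (v : E3) : 0 ≤ Yk μ v := by unfold Yk; positivity

/-- pair bound -/
theorem pair_bd (L μ : ℝ) (hμ : 20 ≤ μ) (y0 : E3) (R : ℝ) (f : E3 → ℝ)
    (hf : ∀ v, 0 ≤ f v ∧ f v ≤ 1) (hLip : ∀ v w, |f v - f w| ≤ L * ‖v - w‖)
    (hs : ∀ v, R ≤ ‖v - y0‖ → f v = 0) (v w : E3) (hvw : v ≠ w) :
    (f v - f w) ^ 2 * Yk μ (v - w) ≤ (L ^ 2 + 1) / μ *
      (((if ‖v - y0‖ ≤ R + 1 then 1 else 0) + (if ‖w - y0‖ ≤ R + 1 then 1 else 0)) *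
        Real.exp (-‖v - w‖)) := by
  have hμ0 : 0 < μ := by linarith
  have hr : 0 < ‖v - w‖ := norm_pos_iff.2 (sub_ne_zero.2 hvw)
  obtain ⟨r, hrd⟩ : ∃ r, r = ‖v - w‖ := ⟨_, rfl⟩
  rw [← hrd] at hr
  have hY : Yk μ (v - w) = Real.exp (-(μ * r)) / r := by unfold Yk; rw [← hrd]
  rw [hY, ← hrd]
  have ind0 : ∀ u : E3, (0 : ℝ) ≤ (if ‖u - y0‖ ≤ R + 1 then 1 else 0) := fun u => by
    split_ifs <;> norm_num
  by_cases hzero : f v = 0 ∧ f w = 0
  · rw [hzero.1, hzero.2]
    have := ind0 v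
    have := ind0 w
    have h1 : (0 : ℝ) ≤ (L ^ 2 + 1) / μ *
      (((if ‖v - y0‖ ≤ R + 1 then 1 else 0) + (if ‖w - y0‖ ≤ R + 1 then 1 else 0)) *
        Real.exp (-r)) := by positivity
    simpa using h1
  have hR : ∀ u, f u ≠ 0 → ‖u - y0‖ < R := fun u hu => by
    by_contra hcon
    exact hu (hs u (not_lt.1 hcon))
  rcases le_or_gt r 1 with hr1 | hr1
  · -- both in the ball
    have hin : ‖v - y0‖ ≤ R + 1 ∧ ‖w - y0‖ ≤ R + 1 := by
      rcases not_and_or.1 hzero with hv | hw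
      · have := hR v hv
        have h2 : ‖w - y0‖ ≤ ‖w - v‖ + ‖v - y0‖ := norm_sub_le_norm_sub_add_norm_sub _ _ _
        rw [norm_sub_rev w v, ← hrd] at h2
        exact ⟨by linarith, by linarith⟩
      · have := hR w hw
        have h2 : ‖v - y0‖ ≤ ‖v - w‖ + ‖w - y0‖ := norm_sub_le_norm_sub_add_norm_sub _ _ _
        rw [← hrd] at h2
        exact ⟨by linarith, by linarith⟩
    rw [if_pos hin.1, if_pos hin.2]
    have h1 : (f v - f w) ^ 2 ≤ (L * r) ^ 2 := by
      rw [← sq_abs]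
      have := hLip v w
      rw [← hrd] at this
      exact pow_le_pow_left₀ (abs_nonneg _) this 2
    have h2 : Real.exp (-(μ * r)) * (μ * r) ≤ 2 * Real.exp (-r) := by
      have h3 : μ * r / 2 + 1 ≤ Real.exp (μ * r / 2) := Real.add_one_le_exp _
      have h4 : Real.exp (-(μ * r)) = Real.exp (-(μ * r / 2)) * Real.exp (-(μ * r / 2)) := by
        rw [← Real.exp_add]; congr 1; ring
      have h5 : Real.exp (-(μ * r / 2)) * Real.exp (μ * r / 2) = 1 := by
        rw [← Real.exp_add]; simp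
      have h6 : Real.exp (-(μ * r / 2)) * (μ * r) ≤ 2 := by
        have h7 : Real.exp (-(μ * r / 2)) * (μ * r / 2) ≤
            Real.exp (-(μ * r / 2)) * Real.exp (μ * r / 2) :=
          mul_le_mul_of_nonneg_left (by linarith) (Real.exp_pos _).le
        linarith
      have h8 : Real.exp (-(μ * r / 2)) ≤ Real.exp (-r) := by
        apply Real.exp_le_exp.2
        nlinarith
      calc Real.exp (-(μ * r)) * (μ * r)
          = Real.exp (-(μ * r / 2)) * (Real.exp (-(μ * r / 2)) * (μ * r)) := by rw [h4]; ring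
        _ ≤ Real.exp (-(μ * r / 2)) * 2 := mul_le_mul_of_nonneg_left h6 (Real.exp_pos _).le
        _ ≤ Real.exp (-r) * 2 := mul_le_mul_of_nonneg_right h8 (by norm_num)
        _ = 2 * Real.exp (-r) := by ring
    calc (f v - f w) ^ 2 * (Real.exp (-(μ * r)) / r)
        ≤ (L * r) ^ 2 * (Real.exp (-(μ * r)) / r) :=
          mul_le_mul_of_nonneg_right h1 (by positivity)
      _ = L ^ 2 / μ * (Real.exp (-(μ * r)) * (μ * r)) := by
          field_simp
      _ ≤ L ^ 2 / μ * (2 * Real.exp (-r)) := mul_le_mul_of_nonneg_left h2 (by positivity)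
      _ ≤ (L ^ 2 + 1) / μ * (2 * Real.exp (-r)) := by
          apply mul_le_mul_of_nonneg_right _ (by positivity)
          exact div_le_div_of_nonneg_right (by linarith) hμ0.le
      _ = (L ^ 2 + 1) / μ * ((1 + 1) * Real.exp (-r)) := by ring
  · have hN : ∀ u, f u ^ 2 ≤ (if ‖u - y0‖ ≤ R + 1 then 1 else 0) := fun u => by
      by_cases hu : f u = 0
      · rw [hu]; simpa using ind0 u
      · rw [if_pos (by linarith [hR u hu])]
        have := hf u
        nlinarith
    have h1 : (f v - f w) ^ 2 ≤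
        (if ‖v - y0‖ ≤ R + 1 then 1 else 0) + (if ‖w - y0‖ ≤ R + 1 then 1 else 0) := by
      have := hN v
      have := hN w
      have := mul_nonneg (hf v).1 (hf w).1
      nlinarith
    have h2 : Real.exp (-(μ * r)) / r ≤ 1 / μ * Real.exp (-r) := by
      have h3 : Real.exp (-(μ * r)) / r ≤ Real.exp (-(μ * r)) :=
        div_le_self (Real.exp_pos _).le hr1.le
      have h4 : Real.exp (-(μ * r)) = Real.exp (-r) * Real.exp (-((μ - 1) * r)) := by
        rw [← Real.exp_add]; congr 1; ring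
      have h5 : Real.exp (-((μ - 1) * r)) ≤ 1 / μ := by
        rw [Real.exp_neg, ← one_div]
        apply one_div_le_one_div_of_le hμ0
        have := Real.add_one_le_exp ((μ - 1) * r)
        nlinarith
      calc Real.exp (-(μ * r)) / r ≤ Real.exp (-r) * Real.exp (-((μ - 1) * r)) := by
            rw [← h4]; exact h3
        _ ≤ Real.exp (-r) * (1 / μ) := mul_le_mul_of_nonneg_left h5 (Real.exp_pos _).le
        _ = 1 / μ * Real.exp (-r) := by ring
    have hI := add_nonneg (ind0 v) (ind0 w)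
    calc (f v - f w) ^ 2 * (Real.exp (-(μ * r)) / r)
        ≤ ((if ‖v - y0‖ ≤ R + 1 then 1 else 0) + (if ‖w - y0‖ ≤ R + 1 then 1 else 0)) *
          (1 / μ * Real.exp (-r)) :=
          mul_le_mul h1 h2 (by positivity) hI
      _ = 1 / μ * (((if ‖v - y0‖ ≤ R + 1 then 1 else 0) + (if ‖w - y0‖ ≤ R + 1 then 1 else 0)) *
          Real.exp (-r)) := by ring
      _ ≤ _ := by
          apply mul_le_mul_of_nonneg_right _ (mul_nonneg hI (Real.exp_pos _).le)
          exact div_le_div_of_nonneg_right (by nlinarith) hμ0.le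

/-- TARGET -/
theorem sh_lower (z K₁ C₁ L : ℝ) (hz : 0 ≤ z) (hK₁ : 0 < K₁) (hL : 0 ≤ L) (h : RB z K₁ C₁) :
    ∃ C : ℝ, 0 < C ∧ ∀ {I : Type} [Fintype I] [DecidableEq I] (c : I → ℝ) (x : I → E3),
      (∀ i, |c i| ≤ z) → (∀ i j, i ≠ j → x i ≠ x j) → ∀ (μ : ℝ), 20 ≤ μ →
      ∀ (y0 : E3) (σ : Fin 3 → ℝ) (R : ℝ) (W Γ Γ2 Γ3 : E3 → ℝ), Wt y0 σ R L W Γ Γ2 Γ3 →
      -(C * ∑ i, if c i < 0 ∧ ‖x i - y0‖ ≤ R then pv c x i * (W (x i) + 1 / μ ^ 2) else 0) -
          C / μ * (∑ i, if ‖x i - y0‖ ≤ R + 1 then nn (x i) x else 0) ≤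
        ∑ i, ∑ j, if i = j then 0 else W (x i) * (c i * c j * Yk μ (x i - x j)) := by
  refine ⟨K₁ * (2 + 4 * L ^ 2) + z ^ 2 * (L ^ 2 + 1), by positivity, ?_⟩
  intro I _ _ c x hc hx μ hμ y0 σ R W Γ Γ2 Γ3 hW
  have hμ0 : 0 < μ := by linarith
  set f : E3 → ℝ := fun v => √(W v) with hfdef
  have hf2 : ∀ v, f v ^ 2 = W v := fun v => Real.sq_sqrt (hW.W_nn v)
  have hf : ∀ v, 0 ≤ f v ∧ f v ≤ 1 := fun v =>
    ⟨Real.sqrt_nonneg _, Real.sqrt_le_one.2 (hW.W_le v)⟩
  have hLip : ∀ v w, |f v - f w| ≤ L * ‖v - w‖ := hW.W_lip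
  have hs : ∀ v, R ≤ ‖v - y0‖ → f v = 0 := fun v hv => by
    simp only [hfdef]; rw [hW.W_supp v hv, Real.sqrt_zero]
  -- symmetrisation
  have hsym : (∑ i, ∑ j, if i = j then 0 else W (x i) * (c i * c j * Yk μ (x i - x j))) =
      (∑ i, ∑ j, if i = j then 0 else f (x i) * f (x j) * (c i * c j * Yk μ (x i - x j))) +
      1 / 2 * ∑ i, ∑ j, if i = j then 0 else
        (f (x i) - f (x j)) ^ 2 * (c i * c j * Yk μ (x i - x j)) := by
    have e1 : (∑ i, ∑ j, if i = j then 0 else W (x i) * (c i * c j * Yk μ (x i - x j))) =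
        ∑ i, ∑ j, if i = j then 0 else W (x j) * (c i * c j * Yk μ (x i - x j)) := by
      rw [Finset.sum_comm]
      refine Finset.sum_congr rfl fun i _ => Finset.sum_congr rfl fun j _ => ?_
      by_cases hij : i = j
      · rw [if_pos hij.symm, if_pos hij]
      · rw [if_neg (Ne.symm hij), if_neg hij, Yk_symm μ (x j) (x i)]; ring
    have e2 : (∑ i, ∑ j, if i = j then 0 else W (x i) * (c i * c j * Yk μ (x i - x j))) +
        (∑ i, ∑ j, if i = j then 0 else W (x j) * (c i * c j * Yk μ (x i - x j))) =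
        2 * (∑ i, ∑ j, if i = j then 0 else f (x i) * f (x j) *
          (c i * c j * Yk μ (x i - x j))) +
        ∑ i, ∑ j, if i = j then 0 else
          (f (x i) - f (x j)) ^ 2 * (c i * c j * Yk μ (x i - x j)) := by
      simp only [Finset.mul_sum, ← Finset.sum_add_distrib]
      refine Finset.sum_congr rfl fun i _ => Finset.sum_congr rfl fun j _ => ?_
      by_cases hij : i = j
      · simp [hij]
      · simp only [if_neg hij, ← hf2]; ring
    linarith
  rw [hsym]
  -- first sum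
  have hfirst := sh_pos z K₁ C₁ hK₁ h c x hc hx f L hL hf hLip μ hμ
  have hA : (∑ i, if c i < 0 then
        pv c x i * (f (x i) * (f (x i) + 8 / 3 * L / μ + Real.exp (-(μ / 2)))) else 0) ≤
      (2 + 4 * L ^ 2) *
        ∑ i, if c i < 0 ∧ ‖x i - y0‖ ≤ R then pv c x i * (W (x i) + 1 / μ ^ 2) else 0 := by
    rw [Finset.mul_sum]
    refine Finset.sum_le_sum fun i _ => ?_
    have hp := pv_nn c x i
    by_cases hci : c i < 0
    · rw [if_pos hci]
      by_cases hfi : f (x i) = 0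
      · rw [hfi]
        have : 0 ≤ (2 + 4 * L ^ 2) * (if c i < 0 ∧ ‖x i - y0‖ ≤ R then
            pv c x i * (W (x i) + 1 / μ ^ 2) else 0) := by
          apply mul_nonneg (by positivity)
          split_ifs
          · exact mul_nonneg hp (add_nonneg (hW.W_nn _) (by positivity))
          · exact le_refl _
        simpa using this
      · have hin : ‖x i - y0‖ ≤ R := by
          by_contra hcon
          exact hfi (hs _ (not_le.1 hcon).le)
        rw [if_pos ⟨hci, hin⟩, ← hf2]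
        have he : Real.exp (-(μ / 2)) ≤ 2 / μ := by
          rw [Real.exp_neg, ← one_div, div_le_div_iff₀ (Real.exp_pos _) hμ0]
          have := Real.add_one_le_exp (μ / 2)
          linarith
        have he0 := Real.exp_pos (-(μ / 2))
        have hff := (hf (x i)).1
        have key : f (x i) * (f (x i) + 8 / 3 * L / μ + Real.exp (-(μ / 2))) ≤
            (2 + 4 * L ^ 2) * (f (x i) ^ 2 + 1 / μ ^ 2) := by
          have k1 : f (x i) * Real.exp (-(μ / 2)) ≤ f (x i) * (2 / μ) :=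
            mul_le_mul_of_nonneg_left he hff
          have k2 : f (x i) * (8 / 3 * L / μ) ≤ 1 / 2 * f (x i) ^ 2 + 32 / 9 * L ^ 2 / μ ^ 2 := by
            have := sq_nonneg (f (x i) - 8 / 3 * L / μ)
            have e : (f (x i) - 8 / 3 * L / μ) ^ 2 =
              f (x i) ^ 2 - 2 * (f (x i) * (8 / 3 * L / μ)) + 64 / 9 * L ^ 2 / μ ^ 2 := by
              ring
            rw [e] at this
            have e3 : 64 / 9 * L ^ 2 / μ ^ 2 = 2 * (32 / 9 * L ^ 2 / μ ^ 2) := by ring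
            linarith
          have k3 : f (x i) * (2 / μ) ≤ 1 / 2 * f (x i) ^ 2 + 2 / μ ^ 2 := by
            have := sq_nonneg (f (x i) - 2 / μ)
            have e : (f (x i) - 2 / μ) ^ 2 =
              f (x i) ^ 2 - 2 * (f (x i) * (2 / μ)) + 2 * (2 / μ ^ 2) := by
              ring
            rw [e] at this
            linarith
          have k4 : (2 + 4 * L ^ 2) * (f (x i) ^ 2 + 1 / μ ^ 2) =
            2 * f (x i) ^ 2 + 2 / μ ^ 2 + 4 * L ^ 2 * f (x i) ^ 2 + 4 * L ^ 2 / μ ^ 2 := by ring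
          have k5 : 0 ≤ 4 * L ^ 2 * f (x i) ^ 2 := by positivity
          have k6 : 32 / 9 * L ^ 2 / μ ^ 2 ≤ 4 * L ^ 2 / μ ^ 2 := by
            apply div_le_div_of_nonneg_right _ (by positivity)
            nlinarith [sq_nonneg L]
          rw [k4]
          nlinarith
        calc _ ≤ pv c x i * ((2 + 4 * L ^ 2) * (f (x i) ^ 2 + 1 / μ ^ 2)) :=
              mul_le_mul_of_nonneg_left key hp
          _ = _ := by ring
    · rw [if_neg hci, if_neg (fun hcon => hci hcon.1), mul_zero]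
  -- second sum
  have hB : -(z ^ 2 * (2 * ((L ^ 2 + 1) / μ * ∑ i, if ‖x i - y0‖ ≤ R + 1 then nn (x i) x else 0))) ≤
      ∑ i, ∑ j, if i = j then 0 else
        (f (x i) - f (x j)) ^ 2 * (c i * c j * Yk μ (x i - x j)) := by
    have b1 : ∀ i j, -(z ^ 2 * ((L ^ 2 + 1) / μ *
        (((if ‖x i - y0‖ ≤ R + 1 then 1 else 0) + (if ‖x j - y0‖ ≤ R + 1 then 1 else 0)) *
        Real.exp (-‖x i - x j‖)))) ≤ (if i = j then 0 else
        (f (x i) - f (x j)) ^ 2 * (c i * c j * Yk μ (x i - x j))) := fun i j => by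
      by_cases hij : i = j
      · rw [if_pos hij, neg_nonpos]
        have : (0 : ℝ) ≤ (if ‖x i - y0‖ ≤ R + 1 then 1 else 0) := by split_ifs <;> norm_num
        have : (0 : ℝ) ≤ (if ‖x j - y0‖ ≤ R + 1 then 1 else 0) := by split_ifs <;> norm_num
        positivity
      · rw [if_neg hij]
        have p1 := pair_bd L μ hμ y0 R f hf hLip hs (x i) (x j) (hx i j hij)
        have p2 : -(z ^ 2) ≤ c i * c j := by
          have q1 : |c i * c j| ≤ z * z := by
            rw [abs_mul]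
            exact mul_le_mul (hc i) (hc j) (abs_nonneg _) hz
          have := (abs_le.1 q1).1
          nlinarith
        have p3 : 0 ≤ (f (x i) - f (x j)) ^ 2 * Yk μ (x i - x j) :=
          mul_nonneg (sq_nonneg _) (Yk_nn _ _)
        have p4 := mul_le_mul_of_nonneg_right p2 p3
        have p5 := mul_le_mul_of_nonneg_left p1 (sq_nonneg z)
        calc _ ≤ -(z ^ 2 * ((f (x i) - f (x j)) ^ 2 * Yk μ (x i - x j))) := by linarith
          _ ≤ _ := by
            have e : (f (x i) - f (x j)) ^ 2 * (c i * c j * Yk μ (x i - x j)) =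
              c i * c j * ((f (x i) - f (x j)) ^ 2 * Yk μ (x i - x j)) := by ring
            rw [e]; linarith
    have b2 : (∑ i, ∑ j, -(z ^ 2 * ((L ^ 2 + 1) / μ *
        (((if ‖x i - y0‖ ≤ R + 1 then 1 else 0) + (if ‖x j - y0‖ ≤ R + 1 then 1 else 0)) *
        Real.exp (-‖x i - x j‖))))) =
        -(z ^ 2 * (2 * ((L ^ 2 + 1) / μ *
          ∑ i, if ‖x i - y0‖ ≤ R + 1 then nn (x i) x else 0))) := by
      have s1 : (∑ i, ∑ j, (((if ‖x i - y0‖ ≤ R + 1 then (1 : ℝ) else 0)) *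
          Real.exp (-‖x i - x j‖))) = ∑ i, if ‖x i - y0‖ ≤ R + 1 then nn (x i) x else 0 := by
        refine Finset.sum_congr rfl fun i _ => ?_
        rw [← Finset.mul_sum]
        split_ifs
        · rw [one_mul]; unfold nn
          exact Finset.sum_congr rfl fun j _ => by rw [norm_sub_rev]
        · rw [zero_mul]
      have s2 : (∑ i, ∑ j, (((if ‖x j - y0‖ ≤ R + 1 then (1 : ℝ) else 0)) *
          Real.exp (-‖x i - x j‖))) = ∑ i, if ‖x i - y0‖ ≤ R + 1 then nn (x i) x else 0 := by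
        rw [Finset.sum_comm, ← s1]
        exact Finset.sum_congr rfl fun i _ => Finset.sum_congr rfl fun j _ => by
          rw [norm_sub_rev (x j) (x i)]
      have s3 : (∑ i, ∑ j, -(z ^ 2 * ((L ^ 2 + 1) / μ *
        (((if ‖x i - y0‖ ≤ R + 1 then 1 else 0) + (if ‖x j - y0‖ ≤ R + 1 then 1 else 0)) *
        Real.exp (-‖x i - x j‖))))) = -(z ^ 2 * ((L ^ 2 + 1) / μ)) *
        ((∑ i, ∑ j, (((if ‖x i - y0‖ ≤ R + 1 then (1 : ℝ) else 0)) *
          Real.exp (-‖x i - x j‖))) + ∑ i, ∑ j, (((if ‖x j - y0‖ ≤ R + 1 then (1 : ℝ) else 0)) *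
          Real.exp (-‖x i - x j‖))) := by
        rw [← Finset.sum_add_distrib, Finset.mul_sum]
        refine Finset.sum_congr rfl fun i _ => ?_
        rw [← Finset.sum_add_distrib, Finset.mul_sum]
        refine Finset.sum_congr rfl fun j _ => ?_
        ring
      rw [s3, s1, s2]
      ring
    rw [← b2]
    exact Finset.sum_le_sum fun i _ => Finset.sum_le_sum fun j _ => b1 i j
  -- assembly
  set P := ∑ i, if c i < 0 ∧ ‖x i - y0‖ ≤ R then pv c x i * (W (x i) + 1 / μ ^ 2) else 0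
  set Q := ∑ i, if ‖x i - y0‖ ≤ R + 1 then nn (x i) x else 0
  have hP : 0 ≤ P := by
    refine Finset.sum_nonneg fun i _ => ?_
    split_ifs
    · exact mul_nonneg (pv_nn c x i) (add_nonneg (hW.W_nn _) (by positivity))
    · exact le_refl _
  have hQ : 0 ≤ Q := by
    refine Finset.sum_nonneg fun i _ => ?_
    split_ifs
    · exact Finset.sum_nonneg fun j _ => (Real.exp_pos _).le
    · exact le_refl _
  have hA' := mul_le_mul_of_nonneg_left hA hK₁.le
  have f1 : 0 ≤ z ^ 2 * (L ^ 2 + 1) * P := by positivity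
  have f2 : 0 ≤ K₁ * (2 + 4 * L ^ 2) / μ * Q := by positivity
  have f3 : (K₁ * (2 + 4 * L ^ 2) + z ^ 2 * (L ^ 2 + 1)) / μ * Q =
    K₁ * (2 + 4 * L ^ 2) / μ * Q + z ^ 2 * ((L ^ 2 + 1) / μ * Q) := by ring
  rw [f3]
  linarith

end Pool.Agent.Helper780_CP.RB7
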