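import Pool.Agent.Helper780_CP.LLDefs2
import Pool.Agent.Helper780_CP.BnDefs
import Pool.Agent.Helper780_CP.RB1
import Pool.Agent.Helper780_CP.RB4
import Pool.Agent.Helper780_CP.RB7
import Pool.Agent.Helper780_CP.RB8

set_option autoImplicit false

open MeasureTheory
open scoped Topology

namespace Pool.Agent.Helper780_CP.RB9

open Pool.Agent.Helper780_CP
open Pool.Agent.Helper985.CP
open Pool.Agent.Helper780_CP.RB1 (kern_facts)
open Pool.Agent.Helper780_CP.RB4 (elec_lower)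
open Pool.Agent.Helper780_CP.RB7 (sh_lower)
open Pool.Agent.Helper780_CP.RB8 (y2_bound)

open Pool.Agent.Helper780_CP Pool.Agent.Helper985.CP

lemma Lk_neg (μ : ℝ) (w : E3) : Lk μ (-w) = Lk μ w := by
  unfold Lk
  by_cases h : w = 0
  · simp [h]
  · rw [if_neg h, if_neg (neg_ne_zero.2 h), norm_neg]

lemma LkYk (μ : ℝ) {w : E3} (hw : w ≠ 0) : Lk μ w + Yk μ w = 1 / ‖w‖ := by
  have : ‖w‖ ≠ 0 := norm_ne_zero_iff.2 hw
  rw [Lk, if_neg hw, Yk]
  field_simp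
  ring

lemma pv_nonneg' {I : Type} (c : I → ℝ) (x : I → E3) (i : I) : 0 ≤ pv c x i := by
  unfold pv
  apply Real.iSup_nonneg
  intro j
  split_ifs
  · exact inv_nonneg.2 (norm_nonneg _)
  · exact le_rfl

lemma nn_nonneg' {I : Type} [Fintype I] (ω : E3) (x : I → E3) : 0 ≤ nn ω x :=
  Finset.sum_nonneg (fun _ _ => (Real.exp_pos _).le)

lemma ident {I : Type} [Fintype I] [DecidableEq I] (c : I → ℝ) (x : I → E3) (pb μ : ℝ)
    (hx : ∀ i j, i ≠ j → x i ≠ x j) (W : E3 → ℝ) :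
    ∑ i, c i * (W (x i) * vp c x μ pb (x i)) =
      ((∑ i, W (x i) * ∑ j, if i = j then 0 else c i * c j / ‖x i - x j‖) -
          pb * ∑ i, c i * W (x i)) + μ * (∑ i, c i ^ 2 * W (x i)) -
        ∑ i, ∑ j, if i = j then 0 else W (x i) * (c i * c j * Yk μ (x i - x j)) := by
  rw [Finset.mul_sum, Finset.mul_sum, ← Finset.sum_sub_distrib, ← Finset.sum_add_distrib,
    ← Finset.sum_sub_distrib]
  apply Finset.sum_congr rfl
  intro i _
  have h1 : vp c x μ pb (x i) = (c i * μ + ∑ j, if i = j then 0 else c j * Lk μ (x i - x j)) -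
      pb := by
    unfold vp
    congr 1
    have h2 : c i * μ = ∑ j, if i = j then c i * μ else 0 := by
      rw [Finset.sum_ite_eq]; simp
    rw [h2, ← Finset.sum_add_distrib]
    apply Finset.sum_congr rfl
    intro j _
    by_cases hij : i = j
    · subst hij
      simp [Lk]
    · rw [if_neg hij, if_neg hij, zero_add, ← Lk_neg, neg_sub]
  have h3 : (∑ j, if i = j then 0 else c i * c j / ‖x i - x j‖) =
      c i * (∑ j, if i = j then 0 else c j * Lk μ (x i - x j)) +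
        ∑ j, if i = j then 0 else c i * c j * Yk μ (x i - x j) := by
    rw [Finset.mul_sum, ← Finset.sum_add_distrib]
    apply Finset.sum_congr rfl
    intro j _
    by_cases hij : i = j
    · simp [hij]
    · rw [if_neg hij, if_neg hij, if_neg hij]
      have h4 := LkYk μ (sub_ne_zero.2 (hx i j hij))
      rw [div_eq_mul_one_div, ← h4]
      ring
  have h5 : (∑ j, if i = j then 0 else W (x i) * (c i * c j * Yk μ (x i - x j))) =
      W (x i) * ∑ j, if i = j then 0 else c i * c j * Yk μ (x i - x j) := by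
    rw [Finset.mul_sum]
    apply Finset.sum_congr rfl
    intro j _
    by_cases hij : i = j
    · simp [hij]
    · rw [if_neg hij, if_neg hij]
  rw [h1, h3, h5]
  ring

lemma fin_arith {pi z C₂ L GG Y V' T Sh A B μ G Y2 V E : ℝ} (hpi : 0 < pi) (hC₂ : 0 < C₂)
    (hL : 0 ≤ L) (hμ0 : 0 < μ) (hA0 : 0 ≤ A) (hB0 : 0 ≤ B) (hG0 : 0 ≤ G) (hV0 : 0 ≤ V)
    (hE0 : 0 ≤ E)
    (h1 : 1 / 40 * GG - 2 * G - 300 * Y ≤ 4 * pi * (T + V' - Sh))
    (h2 : -(C₂ * A) - C₂ / μ * B ≤ Sh) (h4 : Y ≤ L * Y2)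
    (h3 : Y2 ≤ z ^ 2 * (8 * pi / μ * B + E)) (h5 : V' ≤ z ^ 2 * V) :
    1 / 40 * GG ≤ 4 * pi * T +
      (2 + 4 * pi * z ^ 2 + 4 * pi * C₂ + 2400 * pi * (L * z ^ 2) + 300 * (L * z ^ 2)) * G +
      (2 + 4 * pi * z ^ 2 + 4 * pi * C₂ + 2400 * pi * (L * z ^ 2) + 300 * (L * z ^ 2)) * V +
      (2 + 4 * pi * z ^ 2 + 4 * pi * C₂ + 2400 * pi * (L * z ^ 2) + 300 * (L * z ^ 2)) / μ * B +
      (2 + 4 * pi * z ^ 2 + 4 * pi * C₂ + 2400 * pi * (L * z ^ 2) + 300 * (L * z ^ 2)) * E +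
      (2 + 4 * pi * z ^ 2 + 4 * pi * C₂ + 2400 * pi * (L * z ^ 2) + 300 * (L * z ^ 2)) * A := by
  have hBm : 0 ≤ B / μ := div_nonneg hB0 hμ0.le
  have e1 : C₂ / μ * B = C₂ * (B / μ) := by ring
  have e2 : (2 + 4 * pi * z ^ 2 + 4 * pi * C₂ + 2400 * pi * (L * z ^ 2) +
    300 * (L * z ^ 2)) / μ * B = (2 + 4 * pi * z ^ 2 + 4 * pi * C₂ +
      2400 * pi * (L * z ^ 2) + 300 * (L * z ^ 2)) * (B / μ) := by ring
  have h6 : L * Y2 ≤ L * z ^ 2 * (8 * pi) * (B / μ) + L * z ^ 2 * E := by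
    calc L * Y2 ≤ L * (z ^ 2 * (8 * pi / μ * B + E)) := mul_le_mul_of_nonneg_left h3 hL
      _ = _ := by ring
  rw [e1] at h2
  rw [e2]
  have h7 : 4 * pi * V' ≤ 4 * pi * (z ^ 2 * V) := mul_le_mul_of_nonneg_left h5 (by positivity)
  have h8 : 4 * pi * (-Sh) ≤ 4 * pi * (C₂ * A + C₂ * (B / μ)) :=
    mul_le_mul_of_nonneg_left (by linarith) (by positivity)
  have q1 : 0 ≤ (4 * pi * z ^ 2 + 4 * pi * C₂ + 2400 * pi * (L * z ^ 2) +
    300 * (L * z ^ 2)) * G := mul_nonneg (by positivity) hG0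
  have q2 : 0 ≤ (2 + 4 * pi * C₂ + 2400 * pi * (L * z ^ 2) +
    300 * (L * z ^ 2)) * V := mul_nonneg (by positivity) hV0
  have q3 : 0 ≤ (2 + 4 * pi * z ^ 2 + 300 * (L * z ^ 2)) * (B / μ) :=
    mul_nonneg (by positivity) hBm
  have q4 : 0 ≤ (2 + 4 * pi * z ^ 2 + 4 * pi * C₂ +
    2400 * pi * (L * z ^ 2)) * E := mul_nonneg (by positivity) hE0
  have q5 : 0 ≤ (2 + 4 * pi * z ^ 2 + 2400 * pi * (L * z ^ 2) +
    300 * (L * z ^ 2)) * A := mul_nonneg (by positivity) hA0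
  linarith

/-- TARGET -/
theorem elec_main (z K₁ C₁ L : ℝ) (hz : 0 ≤ z) (hK₁ : 0 < K₁) (hL : 0 ≤ L) (h : RB z K₁ C₁) :
    ∃ C : ℝ, 0 < C ∧ ∀ {I : Type} [Fintype I] [DecidableEq I] (c : I → ℝ) (x : I → E3) (pb : ℝ),
      (∀ i, |c i| ≤ z) → (∀ i j, i ≠ j → x i ≠ x j) → ∀ (μ : ℝ), 20 ≤ μ →
      ∀ (y0 : E3) (σ : Fin 3 → ℝ) (R : ℝ) (W Γ Γ2 Γ3 : E3 → ℝ), 0 ≤ R →
        Wt y0 σ R L W Γ Γ2 Γ3 →
      1 / 40 * (∫ ω, W ω * ‖gp c x μ ω‖ ^ 2) ≤
        4 * Real.pi * ((∑ i, W (x i) * ∑ j, if i = j then 0 else c i * c j / ‖x i - x j‖) -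
          pb * ∑ i, c i * W (x i)) +
        C * (∫ ω, Γ2 ω * vp c x μ pb ω ^ 2) + C * (μ * ∑ i, W (x i)) +
        C / μ * (∑ i, if ‖x i - y0‖ ≤ R + 1 then nn (x i) x else 0) +
        C * (Real.exp (-μ) * ∫ ω in Metric.closedBall y0 R, nn ω x ^ 2) +
        C * (∑ i, if c i < 0 ∧ ‖x i - y0‖ ≤ R then pv c x i * (W (x i) + 1 / μ ^ 2) else 0) := by
  obtain ⟨C₂, hC₂, hsh⟩ := sh_lower z K₁ C₁ L hz hK₁ hL h
  have hpi := Real.pi_pos
  refine ⟨2 + 4 * Real.pi * z ^ 2 + 4 * Real.pi * C₂ + 2400 * Real.pi * (L * z ^ 2) +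
    300 * (L * z ^ 2), by positivity, ?_⟩
  intro I _ _ c x pb hc hx μ hμ y0 σ R W Γ Γ2 Γ3 hR hw
  have hμ0 : 0 < μ := by linarith
  have h1 := elec_lower c x μ pb hμ y0 σ R L W Γ Γ2 Γ3 hw
  have h2 := hsh c x hc hx μ hμ y0 σ R W Γ Γ2 Γ3 hw
  have h3 := y2_bound c x z μ hc (by linarith) y0 R hR
  obtain ⟨_, _, _, _, hint⟩ := kern_facts c x μ pb hμ0
  have h4 : ∫ ω, Γ ω * yp c x μ ω ^ 2 ≤ L * ∫ ω in Metric.closedBall y0 R, yp c x μ ω ^ 2 := by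
    have e : ∫ ω in Metric.closedBall y0 R, Γ ω * yp c x μ ω ^ 2 =
        ∫ ω, Γ ω * yp c x μ ω ^ 2 := by
      apply setIntegral_eq_integral_of_forall_compl_eq_zero
      intro ω hω
      rw [Metric.mem_closedBall, dist_eq_norm, not_le] at hω
      rw [hw.Γ_supp ω hω.le, zero_mul]
    rw [← e, ← integral_const_mul]
    apply integral_mono_of_nonneg
    · exact Filter.Eventually.of_forall (fun ω => mul_nonneg (hw.Γ_nn ω) (sq_nonneg _))
    · exact (hint y0 R).const_mul L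
    · exact Filter.Eventually.of_forall (fun ω =>
        mul_le_mul_of_nonneg_right (hw.Γ_le ω) (sq_nonneg _))
  rw [ident c x pb μ hx W] at h1
  have hA0 : 0 ≤ ∑ i, if c i < 0 ∧ ‖x i - y0‖ ≤ R then pv c x i * (W (x i) + 1 / μ ^ 2)
      else 0 := by
    apply Finset.sum_nonneg
    intro i _
    split_ifs
    · exact mul_nonneg (pv_nonneg' c x i) (add_nonneg (hw.W_nn _) (by positivity))
    · exact le_rfl
  have hB0 : 0 ≤ ∑ i, if ‖x i - y0‖ ≤ R + 1 then nn (x i) x else 0 := by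
    apply Finset.sum_nonneg
    intro i _
    split_ifs
    · exact nn_nonneg' _ _
    · exact le_rfl
  have hQ0 : 0 ≤ ∫ ω in Metric.closedBall y0 R, nn ω x ^ 2 :=
    integral_nonneg (fun _ => sq_nonneg _)
  have hG0 : 0 ≤ ∫ ω, Γ2 ω * vp c x μ pb ω ^ 2 :=
    integral_nonneg (fun ω => mul_nonneg (hw.Γ2_nn ω) (sq_nonneg _))
  have hW0 : 0 ≤ ∑ i, W (x i) := Finset.sum_nonneg (fun i _ => hw.W_nn _)
  have h5 : μ * (∑ i, c i ^ 2 * W (x i)) ≤ z ^ 2 * (μ * ∑ i, W (x i)) := by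
    have : ∑ i, c i ^ 2 * W (x i) ≤ z ^ 2 * ∑ i, W (x i) := by
      rw [Finset.mul_sum]
      apply Finset.sum_le_sum
      intro i _
      apply mul_le_mul_of_nonneg_right _ (hw.W_nn _)
      rw [← sq_abs]
      exact pow_le_pow_left₀ (abs_nonneg _) (hc i) 2
    calc μ * (∑ i, c i ^ 2 * W (x i)) ≤ μ * (z ^ 2 * ∑ i, W (x i)) :=
          mul_le_mul_of_nonneg_left this hμ0.le
      _ = _ := by ring
  exact fin_arith hpi hC₂ hL hμ0 hA0 hB0 hG0 (mul_nonneg hμ0.le hW0)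
    (mul_nonneg (Real.exp_pos _).le hQ0) h1 h2 h4 h3 h5


end Pool.Agent.Helper780_CP.RB9
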