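import Pool.Agent.Helper780_CP.LLDefs2
import Pool.Agent.Helper780_CP.BnDefs
import Pool.Agent.Helper780_CP.RB9

set_option autoImplicit false

open MeasureTheory
open scoped Topology

namespace Pool.Agent.Helper780_CP.RB10

open Pool.Agent.Helper780_CP
open Pool.Agent.Helper985.CP
open Pool.Agent.Helper780_CP.RB9 (elec_main)

open Pool.Agent.Helper780_CP Pool.Agent.Helper985.CP

lemma nn_nonneg {I : Type} [Fintype I] (ω : E3) (x : I → E3) : 0 ≤ nn ω x :=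
  Finset.sum_nonneg fun _ _ => (Real.exp_pos _).le

lemma nh_nonneg {I : Type} [Fintype I] (ω : E3) (x : I → E3) : 0 ≤ nh ω x :=
  Finset.sum_nonneg fun _ _ => (Real.exp_pos _).le

lemma nn_le_nh {I : Type} [Fintype I] (y ω : E3) (x : I → E3) :
    nn ω x ≤ Real.exp ‖ω - y‖ * nh y x := by
  unfold nn nh
  rw [Finset.mul_sum]
  refine Finset.sum_le_sum fun j _ => ?_
  rw [← Real.exp_add]
  apply Real.exp_le_exp.2
  have h1 : ‖x j - y‖ ≤ ‖x j - ω‖ + ‖ω - y‖ := by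
    calc ‖x j - y‖ = ‖(x j - ω) + (ω - y)‖ := by congr 1; abel
      _ ≤ _ := norm_add_le _ _
  have h2 : √(1 + ‖x j - y‖ ^ 2) ≤ 1 + ‖x j - y‖ := by
    rw [Real.sqrt_le_left (by positivity)]
    nlinarith [norm_nonneg (x j - y)]
  linarith

lemma young (a b p : ℝ) (ha : 0 ≤ a) (hb : 0 ≤ b) (hp : 0 ≤ p) :
    a ^ p * b ≤ a ^ (p + 1) + b ^ (p + 1) := by
  rcases le_total b a with h | h
  · have h1 : a ^ p * b ≤ a ^ p * a := mul_le_mul_of_nonneg_left h (Real.rpow_nonneg ha _)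
    have h2 : a ^ (p + 1) = a ^ p * a := by
      rw [Real.rpow_add_of_nonneg ha hp (by norm_num), Real.rpow_one]
    have h3 : 0 ≤ b ^ (p + 1) := Real.rpow_nonneg hb _
    linarith
  · have h1 : a ^ p * b ≤ b ^ p * b := mul_le_mul_of_nonneg_right (Real.rpow_le_rpow ha h hp) hb
    have h2 : b ^ (p + 1) = b ^ p * b := by
      rw [Real.rpow_add_of_nonneg hb hp (by norm_num), Real.rpow_one]
    have h3 : 0 ≤ a ^ (p + 1) := Real.rpow_nonneg ha _
    linarith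

lemma one_add_rpow (N : ℝ) (hN : 0 ≤ N) :
    (1 + N) ^ ((4 : ℝ) / 3) ≤ 4 * (1 + N ^ ((4 : ℝ) / 3)) := by
  have h4 : (2 : ℝ) ^ ((4 : ℝ) / 3) ≤ 4 := by
    calc (2 : ℝ) ^ ((4 : ℝ) / 3) ≤ (2 : ℝ) ^ (2 : ℝ) :=
          Real.rpow_le_rpow_of_exponent_le (by norm_num) (by norm_num)
      _ = 4 := by norm_num
  rcases le_total N 1 with h | h
  · have h1 : (1 + N) ^ ((4 : ℝ) / 3) ≤ 2 ^ ((4 : ℝ) / 3) :=
      Real.rpow_le_rpow (by linarith) (by linarith) (by norm_num)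
    have h3 : 0 ≤ N ^ ((4 : ℝ) / 3) := Real.rpow_nonneg hN _
    linarith
  · have h1 : (1 + N) ^ ((4 : ℝ) / 3) ≤ (2 * N) ^ ((4 : ℝ) / 3) :=
      Real.rpow_le_rpow (by linarith) (by linarith) (by norm_num)
    rw [Real.mul_rpow (by norm_num) hN] at h1
    have h3 : 0 ≤ N ^ ((4 : ℝ) / 3) := Real.rpow_nonneg hN _
    nlinarith

/-- TARGET -/
theorem elec_fin (z K₁ C₁ L : ℝ) (hz : 0 ≤ z) (hK₁ : 0 < K₁) (hL : 0 ≤ L) (h : RB z K₁ C₁) :
    ∃ C : ℝ, 0 < C ∧ ∀ R : ℝ, 0 ≤ R → ∃ CR : ℝ, 0 < CR ∧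
      ∀ {S : Type} (D : Species S) {I : Type} [Fintype I] [DecidableEq I] (sp : I → S) (ℓ : ℝ),
      (∀ s, |D.charge s| ≤ z) → ∀ (K : ℝ) (y y0 : E3), 8000 ≤ K → ‖y - y0‖ ≤ R →
      ∀ (σ : Fin 3 → ℝ) (W Γ Γ2 Γ3 : E3 → ℝ), Wt y0 σ R L W Γ Γ2 Γ3 →
      ∀ x : I → E3, (∀ i j, i ≠ j → x i ≠ x j) →
      1 / 40 * (∫ ω, W ω * ‖gg D sp K y x ω‖ ^ 2) ≤
        4 * Real.pi * tq D sp ℓ W x + C * (∫ ω, Γ2 ω * vv D sp ℓ K y x ω ^ 2) +
        CR * K * (1 + nh y x ^ ((4 : ℝ) / 3) + nb y0 (R + 1) x ^ ((4 : ℝ) / 3)) +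
        CR / K ^ ((1 : ℝ) / 3) * (nh y x ^ ((5 : ℝ) / 3) + nb y0 (R + 1) x ^ ((5 : ℝ) / 3)) +
        C * (∑ i, if D.charge (sp i) < 0 ∧ ‖x i - y0‖ ≤ R then
          pv (fun i => D.charge (sp i)) x i else 0) := by
  obtain ⟨C, hC, H⟩ := elec_main z K₁ C₁ L hz hK₁ hL h
  refine ⟨2 * C, by positivity, fun R hR => ?_⟩
  set V : ℝ := (volume (Metric.closedBall (0 : E3) R)).toReal with hV
  have hV0 : 0 ≤ V := ENNReal.toReal_nonneg
  refine ⟨4 * C + C * Real.exp (2 * R + 1) + C * (V * Real.exp (4 * R)), by positivity, ?_⟩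
  intro S D I _ _ sp ℓ hch K y y0 hK hyy0 σ W Γ Γ2 Γ3 hW x hx
  set N : ℝ := nh y x with hNdef
  set n : ℝ := nb y0 (R + 1) x with hndef
  set μ : ℝ := mu K y x with hμdef
  have hN : 0 ≤ N := nh_nonneg y x
  have hn : 0 ≤ n := by
    rw [hndef]; unfold nb
    exact Finset.sum_nonneg fun i _ => by split_ifs <;> norm_num
  have hK0 : (0 : ℝ) < K := by linarith
  have hKN : 8000 ≤ K * (1 + N) := by nlinarith
  have hμ : 20 ≤ μ := by
    rw [hμdef]; unfold mu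
    rw [← hNdef]
    have e : (20 : ℝ) = (8000 : ℝ) ^ ((1 : ℝ) / 3) := by
      rw [show (8000 : ℝ) = 20 ^ (3 : ℝ) by norm_num, ← Real.rpow_mul (by norm_num)]
      norm_num
    rw [e]
    exact Real.rpow_le_rpow (by norm_num) hKN (by norm_num)
  have hμ0 : 0 < μ := by linarith
  have hμeq : μ = K ^ ((1 : ℝ) / 3) * (1 + N) ^ ((1 : ℝ) / 3) := by
    rw [hμdef]; unfold mu
    rw [← hNdef, Real.mul_rpow hK0.le (by linarith)]
  set κ : ℝ := K ^ ((1 : ℝ) / 3) with hκdef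
  have hκ0 : 0 < κ := Real.rpow_pos_of_pos hK0 _
  have hκK : κ ≤ K := by
    rw [hκdef]
    calc K ^ ((1 : ℝ) / 3) ≤ K ^ (1 : ℝ) :=
          Real.rpow_le_rpow_of_exponent_le (by linarith) (by norm_num)
      _ = K := Real.rpow_one K
  have h1N : (0 : ℝ) < 1 + N := by linarith
  have main := H (fun i => D.charge (sp i)) x (phb D sp ℓ x) (fun i => hch _) hx μ hμ y0 σ R W Γ Γ2 Γ3
    hR hW
  have hsumW : ∑ i, W (x i) ≤ n := by
    rw [hndef]; unfold nb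
    refine Finset.sum_le_sum fun i _ => ?_
    by_cases hi : ‖x i - y0‖ ≤ R + 1
    · rw [if_pos hi]; exact hW.W_le _
    · rw [if_neg hi, hW.W_supp _ (by linarith)]
  -- T2
  have hT2 : C * (∫ ω, Γ2 ω * vp (fun i => D.charge (sp i)) x μ (phb D sp ℓ x) ω ^ 2) ≤
      2 * C * (∫ ω, Γ2 ω * vv D sp ℓ K y x ω ^ 2) := by
    have e : (∫ ω, Γ2 ω * vp (fun i => D.charge (sp i)) x μ (phb D sp ℓ x) ω ^ 2) =
        ∫ ω, Γ2 ω * vv D sp ℓ K y x ω ^ 2 := rfl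
    have h0 : 0 ≤ ∫ ω, Γ2 ω * vv D sp ℓ K y x ω ^ 2 :=
      integral_nonneg fun ω => mul_nonneg (hW.Γ2_nn ω) (sq_nonneg _)
    rw [e]
    nlinarith
  -- T3
  have hT3 : C * (μ * ∑ i, W (x i)) ≤
      4 * C * K * (1 + N ^ ((4 : ℝ) / 3) + n ^ ((4 : ℝ) / 3)) := by
    have h1 : μ * ∑ i, W (x i) ≤ μ * n := mul_le_mul_of_nonneg_left hsumW hμ0.le
    have h2 : (1 + N) ^ ((1 : ℝ) / 3) * n ≤ (1 + N) ^ ((4 : ℝ) / 3) + n ^ ((4 : ℝ) / 3) := by
      have := young (1 + N) n (1 / 3) h1N.le hn (by norm_num)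
      rwa [show (1 : ℝ) / 3 + 1 = 4 / 3 by norm_num] at this
    have h3 := one_add_rpow N hN
    have h5 : 0 ≤ n ^ ((4 : ℝ) / 3) := Real.rpow_nonneg hn _
    have h6 : 0 ≤ N ^ ((4 : ℝ) / 3) := Real.rpow_nonneg hN _
    have h7 : μ * n ≤ K * (4 * (1 + N ^ ((4 : ℝ) / 3) + n ^ ((4 : ℝ) / 3))) := by
      rw [hμeq]
      have h8 : 0 ≤ (1 + N) ^ ((1 : ℝ) / 3) * n := mul_nonneg (Real.rpow_nonneg h1N.le _) hn
      calc κ * (1 + N) ^ ((1 : ℝ) / 3) * n = κ * ((1 + N) ^ ((1 : ℝ) / 3) * n) := by ring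
        _ ≤ K * ((1 + N) ^ ((1 : ℝ) / 3) * n) := mul_le_mul_of_nonneg_right hκK h8
        _ ≤ K * (4 * (1 + N ^ ((4 : ℝ) / 3) + n ^ ((4 : ℝ) / 3))) := by
            refine mul_le_mul_of_nonneg_left ?_ hK0.le
            linarith
    calc C * (μ * ∑ i, W (x i)) ≤ C * (K * (4 * (1 + N ^ ((4 : ℝ) / 3) + n ^ ((4 : ℝ) / 3)))) :=
          mul_le_mul_of_nonneg_left (h1.trans h7) hC.le
      _ = _ := by ring
  have hcube : N ^ ((1 : ℝ) / 3) ≤ (1 + N) ^ ((1 : ℝ) / 3) :=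
    Real.rpow_le_rpow hN (by linarith) (by norm_num)
  have hinv : N ^ ((1 : ℝ) / 3) / μ ≤ 1 / κ := by
    rw [hμeq, div_le_div_iff₀ (by positivity) hκ0]
    nlinarith
  have h53n : 0 ≤ n ^ ((5 : ℝ) / 3) := Real.rpow_nonneg hn _
  have h53N : 0 ≤ N ^ ((5 : ℝ) / 3) := Real.rpow_nonneg hN _
  -- T4
  have hT4 : C / μ * (∑ i, if ‖x i - y0‖ ≤ R + 1 then nn (x i) x else 0) ≤
      C * Real.exp (2 * R + 1) / κ * (N ^ ((5 : ℝ) / 3) + n ^ ((5 : ℝ) / 3)) := by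
    have h1 : (∑ i, if ‖x i - y0‖ ≤ R + 1 then nn (x i) x else 0) ≤
        n * (Real.exp (2 * R + 1) * N) := by
      rw [hndef]; unfold nb
      rw [Finset.sum_mul]
      refine Finset.sum_le_sum fun i _ => ?_
      by_cases hi : ‖x i - y0‖ ≤ R + 1
      · rw [if_pos hi, if_pos hi, one_mul]
        refine (nn_le_nh y (x i) x).trans ?_
        refine mul_le_mul_of_nonneg_right (Real.exp_le_exp.2 ?_) hN
        calc ‖x i - y‖ = ‖(x i - y0) - (y - y0)‖ := by congr 1; abel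
          _ ≤ ‖x i - y0‖ + ‖y - y0‖ := norm_sub_le _ _
          _ ≤ 2 * R + 1 := by linarith
      · rw [if_neg hi, if_neg hi, zero_mul]
    have h2 : N ^ ((2 : ℝ) / 3) * n ≤ N ^ ((5 : ℝ) / 3) + n ^ ((5 : ℝ) / 3) := by
      have := young N n (2 / 3) hN hn (by norm_num)
      rwa [show (2 : ℝ) / 3 + 1 = 5 / 3 by norm_num] at this
    have h3 : N = N ^ ((2 : ℝ) / 3) * N ^ ((1 : ℝ) / 3) := by
      rw [← Real.rpow_add_of_nonneg hN (by norm_num) (by norm_num)]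
      norm_num
    have h4 : N / μ * n ≤ 1 / κ * (N ^ ((5 : ℝ) / 3) + n ^ ((5 : ℝ) / 3)) := by
      have e : N / μ * n = (N ^ ((1 : ℝ) / 3) / μ) * (N ^ ((2 : ℝ) / 3) * n) := by
        conv_lhs => rw [h3]
        ring
      rw [e]
      have h5 : 0 ≤ N ^ ((2 : ℝ) / 3) * n := mul_nonneg (Real.rpow_nonneg hN _) hn
      calc (N ^ ((1 : ℝ) / 3) / μ) * (N ^ ((2 : ℝ) / 3) * n) ≤
            1 / κ * (N ^ ((2 : ℝ) / 3) * n) := mul_le_mul_of_nonneg_right hinv h5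
        _ ≤ _ := mul_le_mul_of_nonneg_left h2 (by positivity)
    calc C / μ * (∑ i, if ‖x i - y0‖ ≤ R + 1 then nn (x i) x else 0)
        ≤ C / μ * (n * (Real.exp (2 * R + 1) * N)) := mul_le_mul_of_nonneg_left h1 (by positivity)
      _ = C * Real.exp (2 * R + 1) * (N / μ * n) := by ring
      _ ≤ C * Real.exp (2 * R + 1) * (1 / κ * (N ^ ((5 : ℝ) / 3) + n ^ ((5 : ℝ) / 3))) :=
          mul_le_mul_of_nonneg_left h4 (by positivity)
      _ = _ := by ring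
  -- T5
  have hT5 : C * (Real.exp (-μ) * ∫ ω in Metric.closedBall y0 R, nn ω x ^ 2) ≤
      C * (V * Real.exp (4 * R)) / κ * (N ^ ((5 : ℝ) / 3) + n ^ ((5 : ℝ) / 3)) := by
    have hvol : volume (Metric.closedBall y0 R) = volume (Metric.closedBall (0 : E3) R) :=
      Measure.addHaar_closedBall_center _ _ _
    have hfin : volume (Metric.closedBall y0 R) < ⊤ := measure_closedBall_lt_top
    have h1 : (∫ ω in Metric.closedBall y0 R, nn ω x ^ 2) ≤ Real.exp (4 * R) * N ^ 2 * V := by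
      have h2 : ‖∫ ω in Metric.closedBall y0 R, nn ω x ^ 2‖ ≤
          Real.exp (4 * R) * N ^ 2 * volume.real (Metric.closedBall y0 R) := by
        refine norm_setIntegral_le_of_norm_le_const hfin fun ω hω => ?_
        have h3 : nn ω x ≤ Real.exp (2 * R) * N := by
          refine (nn_le_nh y ω x).trans (mul_le_mul_of_nonneg_right (Real.exp_le_exp.2 ?_) hN)
          rw [Metric.mem_closedBall, dist_eq_norm] at hω
          calc ‖ω - y‖ = ‖(ω - y0) - (y - y0)‖ := by congr 1; abel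
            _ ≤ ‖ω - y0‖ + ‖y - y0‖ := norm_sub_le _ _
            _ ≤ 2 * R := by linarith
        rw [Real.norm_of_nonneg (sq_nonneg _)]
        have h4 : nn ω x ^ 2 ≤ (Real.exp (2 * R) * N) ^ 2 :=
          pow_le_pow_left₀ (nn_nonneg ω x) h3 2
        have h5 : (Real.exp (2 * R) * N) ^ 2 = Real.exp (4 * R) * N ^ 2 := by
          rw [mul_pow, ← Real.exp_nat_mul]
          congr 2
          push_cast
          ring
        rwa [h5] at h4
      have h6 : volume.real (Metric.closedBall y0 R) = V := by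
        rw [hV, Measure.real, hvol]
      rw [h6] at h2
      exact (le_abs_self _).trans h2
    have h7 : Real.exp (-μ) ≤ 1 / μ := by
      rw [Real.exp_neg, one_div]
      exact inv_anti₀ hμ0 (by linarith [Real.add_one_le_exp μ])
    have h8 : N ^ 2 / μ ≤ 1 / κ * N ^ ((5 : ℝ) / 3) := by
      have e : N ^ 2 = N ^ ((5 : ℝ) / 3) * N ^ ((1 : ℝ) / 3) := by
        rw [← Real.rpow_add_of_nonneg hN (by norm_num) (by norm_num), ← Real.rpow_natCast]
        norm_num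
      rw [e]
      calc N ^ ((5 : ℝ) / 3) * N ^ ((1 : ℝ) / 3) / μ = N ^ ((5 : ℝ) / 3) * (N ^ ((1 : ℝ) / 3) / μ) := by
            ring
        _ ≤ N ^ ((5 : ℝ) / 3) * (1 / κ) := mul_le_mul_of_nonneg_left hinv h53N
        _ = _ := by ring
    have h9 : Real.exp (-μ) * ∫ ω in Metric.closedBall y0 R, nn ω x ^ 2 ≤
        V * Real.exp (4 * R) * (1 / κ * N ^ ((5 : ℝ) / 3)) := by
      calc Real.exp (-μ) * ∫ ω in Metric.closedBall y0 R, nn ω x ^ 2
          ≤ Real.exp (-μ) * (Real.exp (4 * R) * N ^ 2 * V) :=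
            mul_le_mul_of_nonneg_left h1 (Real.exp_pos _).le
        _ ≤ 1 / μ * (Real.exp (4 * R) * N ^ 2 * V) :=
            mul_le_mul_of_nonneg_right h7 (by positivity)
        _ = V * Real.exp (4 * R) * (N ^ 2 / μ) := by ring
        _ ≤ _ := mul_le_mul_of_nonneg_left h8 (by positivity)
    calc C * (Real.exp (-μ) * ∫ ω in Metric.closedBall y0 R, nn ω x ^ 2)
        ≤ C * (V * Real.exp (4 * R) * (1 / κ * N ^ ((5 : ℝ) / 3))) :=
          mul_le_mul_of_nonneg_left h9 hC.le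
      _ = C * (V * Real.exp (4 * R)) / κ * N ^ ((5 : ℝ) / 3) := by ring
      _ ≤ C * (V * Real.exp (4 * R)) / κ * (N ^ ((5 : ℝ) / 3) + n ^ ((5 : ℝ) / 3)) :=
          mul_le_mul_of_nonneg_left (by linarith) (by positivity)
  -- T6
  have hT6 : C * (∑ i, if D.charge (sp i) < 0 ∧ ‖x i - y0‖ ≤ R then
        pv (fun i => D.charge (sp i)) x i * (W (x i) + 1 / μ ^ 2) else 0) ≤
      2 * C * (∑ i, if D.charge (sp i) < 0 ∧ ‖x i - y0‖ ≤ R then
          pv (fun i => D.charge (sp i)) x i else 0) := by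
    have h1 : (∑ i, if D.charge (sp i) < 0 ∧ ‖x i - y0‖ ≤ R then
        pv (fun i => D.charge (sp i)) x i * (W (x i) + 1 / μ ^ 2) else 0) ≤
        2 * ∑ i, if D.charge (sp i) < 0 ∧ ‖x i - y0‖ ≤ R then
          pv (fun i => D.charge (sp i)) x i else 0 := by
      rw [Finset.mul_sum]
      refine Finset.sum_le_sum fun i _ => ?_
      split_ifs with hi
      · have hp : 0 ≤ pv (fun i => D.charge (sp i)) x i := by
          unfold pv
          refine Real.iSup_nonneg fun j => ?_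
          split_ifs
          · positivity
          · exact le_rfl
        have hw : W (x i) ≤ 1 := hW.W_le _
        have hm : 1 / μ ^ 2 ≤ 1 := by
          rw [div_le_one (by positivity)]
          nlinarith
        calc pv (fun i => D.charge (sp i)) x i * (W (x i) + 1 / μ ^ 2)
            ≤ pv (fun i => D.charge (sp i)) x i * 2 := mul_le_mul_of_nonneg_left (by linarith) hp
          _ = _ := by ring
      · simp
    calc _ ≤ C * (2 * ∑ i, if D.charge (sp i) < 0 ∧ ‖x i - y0‖ ≤ R then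
          pv (fun i => D.charge (sp i)) x i else 0) := mul_le_mul_of_nonneg_left h1 hC.le
      _ = _ := by ring
  have e1 : 1 / 40 * (∫ ω, W ω * ‖gg D sp K y x ω‖ ^ 2) =
      1 / 40 * (∫ ω, W ω * ‖gp (fun i => D.charge (sp i)) x μ ω‖ ^ 2) := rfl
  have e2 : tq D sp ℓ W x = (∑ i, W (x i) * ∑ j, if i = j then 0 else
      D.charge (sp i) * D.charge (sp j) / ‖x i - x j‖) -
      phb D sp ℓ x * ∑ i, D.charge (sp i) * W (x i) := rfl
  rw [e1, e2]
  have hA : 0 ≤ 1 + N ^ ((4 : ℝ) / 3) + n ^ ((4 : ℝ) / 3) := by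
    have h5 : 0 ≤ n ^ ((4 : ℝ) / 3) := Real.rpow_nonneg hn _
    have h6 : 0 ≤ N ^ ((4 : ℝ) / 3) := Real.rpow_nonneg hN _
    linarith
  have f1 : 4 * C * K * (1 + N ^ ((4 : ℝ) / 3) + n ^ ((4 : ℝ) / 3)) ≤
      (4 * C + C * Real.exp (2 * R + 1) + C * (V * Real.exp (4 * R))) * K *
        (1 + N ^ ((4 : ℝ) / 3) + n ^ ((4 : ℝ) / 3)) := by
    refine mul_le_mul_of_nonneg_right (mul_le_mul_of_nonneg_right ?_ hK0.le) hA
    have : 0 ≤ C * Real.exp (2 * R + 1) := by positivity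
    have : 0 ≤ C * (V * Real.exp (4 * R)) := by positivity
    linarith
  have f2 : C * Real.exp (2 * R + 1) / κ * (N ^ ((5 : ℝ) / 3) + n ^ ((5 : ℝ) / 3)) +
      C * (V * Real.exp (4 * R)) / κ * (N ^ ((5 : ℝ) / 3) + n ^ ((5 : ℝ) / 3)) ≤
      (4 * C + C * Real.exp (2 * R + 1) + C * (V * Real.exp (4 * R))) / κ *
        (N ^ ((5 : ℝ) / 3) + n ^ ((5 : ℝ) / 3)) := by
    have h1 : 0 ≤ 4 * C / κ * (N ^ ((5 : ℝ) / 3) + n ^ ((5 : ℝ) / 3)) := by positivity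
    have h2 : (4 * C + C * Real.exp (2 * R + 1) + C * (V * Real.exp (4 * R))) / κ *
        (N ^ ((5 : ℝ) / 3) + n ^ ((5 : ℝ) / 3)) =
        4 * C / κ * (N ^ ((5 : ℝ) / 3) + n ^ ((5 : ℝ) / 3)) +
        C * Real.exp (2 * R + 1) / κ * (N ^ ((5 : ℝ) / 3) + n ^ ((5 : ℝ) / 3)) +
        C * (V * Real.exp (4 * R)) / κ * (N ^ ((5 : ℝ) / 3) + n ^ ((5 : ℝ) / 3)) := by ring
    linarith
  linarith

end Pool.Agent.Helper780_CP.RB10
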