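import Pool.Agent.Helper780_CP.LLDefs2
import Pool.Agent.Helper780_CP.RK1

set_option autoImplicit false

open MeasureTheory

namespace Pool.Agent.Helper780_CP.RK4

open Pool.Agent.Helper780_CP
open Pool.Agent.Helper985.CP
open Pool.Agent.Helper780_CP.RK1 (newt)

/-- second derivative in the direction e -/
noncomputable def ddk (e : E3) (f : E3 → ℝ) (z : E3) : ℝ :=
  fderiv ℝ (fun v => fderiv ℝ f v e) z e

theorem sm_one_le : (1 : WithTop ℕ∞) ≤ SM := by simp [SM]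

theorem sm_succ : SM + 1 ≤ SM := by simp [SM]

theorem sm_dir (f : E3 → ℝ) (hf : ContDiff ℝ SM f) (e : E3) :
    ContDiff ℝ SM (fun v => fderiv ℝ f v e) :=
  (hf.fderiv_right sm_succ).clm_apply contDiff_const

theorem sm_diff (f : E3 → ℝ) (hf : ContDiff ℝ SM f) : Differentiable ℝ f :=
  hf.differentiable (by simp [SM])

theorem fd_scale (h : E3 → ℝ) (hh : Differentiable ℝ h) (c : ℝ) (d e z : E3) :
    fderiv ℝ (fun z => h (c • z + d)) z e = c * fderiv ℝ h (c • z + d) e := by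
  have h1 : HasFDerivAt (fun z : E3 => c • z + d) (c • ContinuousLinearMap.id ℝ E3) z :=
    ((hasFDerivAt_id z).const_smul c).add_const d
  have h2 := (hh (c • z + d)).hasFDerivAt.comp z h1
  have h3 : fderiv ℝ (fun z => h (c • z + d)) z =
      (fderiv ℝ h (c • z + d)).comp (c • ContinuousLinearMap.id ℝ E3) := h2.fderiv
  rw [h3]
  simp

theorem dd_scale (h : E3 → ℝ) (hh : ContDiff ℝ SM h) (c : ℝ) (d e z : E3) :
    ddk e (fun z => h (c • z + d)) z = c ^ 2 * ddk e h (c • z + d) := by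
  unfold ddk
  have h1 : (fun v => fderiv ℝ (fun z => h (c • z + d)) v e) =
      fun v => c * (fun w => fderiv ℝ h w e) (c • v + d) :=
    funext fun v => fd_scale h (sm_diff h hh) c d e v
  have h2 : Differentiable ℝ (fun v : E3 => (fun w => fderiv ℝ h w e) (c • v + d)) :=
    (sm_diff _ (sm_dir h hh e)).comp ((differentiable_id.const_smul c).add_const d)
  rw [h1, fderiv_const_mul (h2 z), smul_apply, fd_scale _ (sm_diff _ (sm_dir h hh e))]
  rw [smul_eq_mul]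
  ring

theorem fd_mul (f g : E3 → ℝ) (hf : Differentiable ℝ f) (hg : Differentiable ℝ g) (e z : E3) :
    fderiv ℝ (fun z => f z * g z) z e = f z * fderiv ℝ g z e + g z * fderiv ℝ f z e := by
  rw [fderiv_fun_mul (hf z) (hg z)]
  simp

theorem dd_mul (f g : E3 → ℝ) (hf : ContDiff ℝ SM f) (hg : ContDiff ℝ SM g) (e z : E3) :
    ddk e (fun z => f z * g z) z =
      f z * ddk e g z + 2 * (fderiv ℝ f z e * fderiv ℝ g z e) + g z * ddk e f z := by
  unfold ddk
  have h1 : (fun v => fderiv ℝ (fun z => f z * g z) v e) =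
      fun v => (fun v => f v * (fun w => fderiv ℝ g w e) v) v + (fun v => g v * (fun w => fderiv ℝ f w e) v) v :=
    funext fun v => fd_mul f g (sm_diff f hf) (sm_diff g hg) e v
  have hfe := sm_diff _ (sm_dir f hf e)
  have hge := sm_diff _ (sm_dir g hg e)
  have h2 : Differentiable ℝ (fun v => f v * (fun w => fderiv ℝ g w e) v) := (sm_diff f hf).mul hge
  have h3 : Differentiable ℝ (fun v => g v * (fun w => fderiv ℝ f w e) v) := (sm_diff g hg).mul hfe
  rw [h1, fderiv_fun_add (h2 z) (h3 z), add_apply,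
    fd_mul f _ (sm_diff f hf) hge, fd_mul g _ (sm_diff g hg) hfe]
  ring

theorem ct_smooth : ContDiff ℝ SM ct := by
  have h1 : ContDiff ℝ SM (fun w : E3 => (4 - ‖w‖ ^ 2) / 3) :=
    (contDiff_const.sub (contDiff_norm_sq ℝ)).div_const 3
  exact Real.smoothTransition.contDiff.comp h1

theorem ct_zero (w : E3) (hw : 2 ≤ ‖w‖) : ct w = 0 := by
  apply Real.smoothTransition.zero_of_nonpos
  have : 4 ≤ ‖w‖ ^ 2 := by nlinarith
  linarith

theorem ct_compact : HasCompactSupport ct := by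
  refine HasCompactSupport.intro (isCompact_closedBall (0 : E3) 2) ?_
  intro x hx
  rw [mem_closedBall_zero_iff, not_le] at hx
  exact ct_zero x hx.le

/-- bounds for ct -/
theorem ct_bounds (e : E3) : ∃ B : ℝ, 0 ≤ B ∧ (∀ w, |ct w| ≤ B) ∧ (∀ w, |fderiv ℝ ct w e| ≤ B) ∧
    (∀ w, |ddk e ct w| ≤ B) := by
  have h0 := ct_compact
  have h1 : HasCompactSupport (fun v => fderiv ℝ ct v e) := h0.fderiv_apply ℝ e
  have h2 : HasCompactSupport (fun v => fderiv ℝ (fun v => fderiv ℝ ct v e) v e) := h1.fderiv_apply ℝ e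
  have c1 := sm_dir ct ct_smooth e
  have c2 := sm_dir _ c1 e
  obtain ⟨B0, hB0⟩ := h0.exists_bound_of_continuous ct_smooth.continuous
  obtain ⟨B1, hB1⟩ := h1.exists_bound_of_continuous c1.continuous
  obtain ⟨B2, hB2⟩ := h2.exists_bound_of_continuous c2.continuous
  refine ⟨max |B0| (max |B1| |B2|), by positivity, ?_, ?_, ?_⟩
  · intro w
    exact ((hB0 w).trans (le_abs_self _)).trans (le_max_left _ _)
  · intro w
    exact ((hB1 w).trans (le_abs_self _)).trans ((le_max_left _ _).trans (le_max_right _ _))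
  · intro w
    exact ((hB2 w).trans (le_abs_self _)).trans ((le_max_right _ _).trans (le_max_right _ _))

/-- homogeneity of degree minus one outside the small ball -/
theorem b_fd_homog (b : E3 → ℝ) (hb : ContDiff ℝ SM b) (hb1 : ∀ w, 1 / 2 ≤ ‖w‖ → b w = 1 / ‖w‖)
    (e : E3) (t : ℝ) (ht : 1 ≤ t) (w : E3) (hw : 1 / 2 < ‖w‖) :
    fderiv ℝ b (t • w) e = t⁻¹ ^ 2 * fderiv ℝ b w e := by
  have ht0 : 0 < t := by linarith
  have h1 := fd_scale b (sm_diff b hb) t 0 e w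
  have h2 : (fun z => b (t • z + 0)) =ᶠ[nhds w] fun z => t⁻¹ * b z := by
    have hopen : {z : E3 | 1 / 2 < ‖z‖} ∈ nhds w := (isOpen_lt continuous_const continuous_norm).mem_nhds hw
    filter_upwards [hopen] with z hz
    have hz' : 1 / 2 < ‖z‖ := hz
    have h3 : 1 / 2 ≤ ‖t • z‖ := by
      rw [norm_smul, Real.norm_eq_abs, abs_of_pos ht0]
      nlinarith
    rw [add_zero, hb1 _ h3, hb1 z hz'.le, norm_smul, Real.norm_eq_abs, abs_of_pos ht0]
    have : ‖z‖ ≠ 0 := by linarith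
    field_simp
  rw [h2.fderiv_eq, fderiv_const_mul (sm_diff b hb w), smul_apply, smul_eq_mul, add_zero] at h1
  field_simp
  field_simp at h1
  linarith

theorem b_dd_homog (b : E3 → ℝ) (hb : ContDiff ℝ SM b) (hb1 : ∀ w, 1 / 2 ≤ ‖w‖ → b w = 1 / ‖w‖)
    (e : E3) (t : ℝ) (ht : 1 ≤ t) (w : E3) (hw : 1 / 2 < ‖w‖) :
    ddk e b (t • w) = t⁻¹ ^ 3 * ddk e b w := by
  have ht0 : 0 < t := by linarith
  have hd := sm_diff _ (sm_dir b hb e)
  have h1 := fd_scale (fun v => fderiv ℝ b v e) hd t 0 e w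
  have h2 : (fun z => (fun v => fderiv ℝ b v e) (t • z + 0)) =ᶠ[nhds w] fun z => t⁻¹ ^ 2 * fderiv ℝ b z e := by
    have hopen : {z : E3 | 1 / 2 < ‖z‖} ∈ nhds w := (isOpen_lt continuous_const continuous_norm).mem_nhds hw
    filter_upwards [hopen] with z hz
    rw [add_zero]
    exact b_fd_homog b hb hb1 e t ht z hz
  rw [h2.fderiv_eq, fderiv_const_mul (hd w), smul_apply, smul_eq_mul, add_zero] at h1
  unfold ddk
  field_simp
  field_simp at h1
  linarith

theorem b_bounds (b : E3 → ℝ) (hb : ContDiff ℝ SM b) (hb1 : ∀ w, 1 / 2 ≤ ‖w‖ → b w = 1 / ‖w‖) (e : E3) :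
    ∃ B : ℝ, 0 ≤ B ∧ (∀ w, |b w| ≤ B) ∧ (∀ w, |fderiv ℝ b w e| ≤ B) ∧ (∀ w, |ddk e b w| ≤ B) := by
  have c1 := sm_dir b hb e
  have c2 : Continuous (ddk e b) := (sm_dir _ c1 e).continuous
  obtain ⟨B0, hB0⟩ := (isCompact_closedBall (0 : E3) 1).exists_bound_of_continuousOn hb.continuous.continuousOn
  obtain ⟨B1, hB1⟩ := (isCompact_closedBall (0 : E3) 1).exists_bound_of_continuousOn c1.continuous.continuousOn
  obtain ⟨B2, hB2⟩ := (isCompact_closedBall (0 : E3) 1).exists_bound_of_continuousOn c2.continuousOn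
  simp only [mem_closedBall_zero_iff, Real.norm_eq_abs] at hB0 hB1 hB2
  have key : ∀ w : E3, 1 < ‖w‖ → ∃ (t : ℝ) (v : E3), 1 ≤ t ∧ ‖v‖ = 1 ∧ w = t • v := by
    intro w hw
    have h0 : ‖w‖ ≠ 0 := by linarith
    refine ⟨‖w‖, ‖w‖⁻¹ • w, hw.le, ?_, ?_⟩
    · rw [norm_smul, norm_inv, norm_norm, inv_mul_cancel₀ h0]
    · rw [smul_smul, mul_inv_cancel₀ h0, one_smul]
  refine ⟨max 1 (max |B0| (max |B1| |B2|)), by positivity, ?_, ?_, ?_⟩
  · intro w
    by_cases hw : ‖w‖ ≤ 1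
    · exact ((hB0 w hw).trans (le_abs_self _)).trans ((le_max_left _ _).trans (le_max_right _ _))
    · push Not at hw
      refine le_trans ?_ (le_max_left _ _)
      rw [hb1 w (by linarith), abs_of_pos (by positivity)]
      rw [div_le_one (by linarith)]
      exact hw.le
  · intro w
    by_cases hw : ‖w‖ ≤ 1
    · exact ((hB1 w hw).trans (le_abs_self _)).trans
        ((le_max_left _ _).trans ((le_max_right _ _).trans (le_max_right _ _)))
    · push Not at hw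
      obtain ⟨t, v, ht, hv, rfl⟩ := key w hw
      rw [b_fd_homog b hb hb1 e t ht v (by rw [hv]; norm_num), abs_mul]
      have h1 : |t⁻¹ ^ 2| ≤ 1 := by
        rw [abs_of_nonneg (by positivity)]
        exact pow_le_one₀ (by positivity) (inv_le_one_of_one_le₀ ht)
      calc |t⁻¹ ^ 2| * |fderiv ℝ b v e| ≤ 1 * |fderiv ℝ b v e| :=
            mul_le_mul_of_nonneg_right h1 (abs_nonneg _)
        _ = |fderiv ℝ b v e| := one_mul _
        _ ≤ _ := ((hB1 v hv.le).trans (le_abs_self _)).trans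
            ((le_max_left _ _).trans ((le_max_right _ _).trans (le_max_right _ _)))
  · intro w
    by_cases hw : ‖w‖ ≤ 1
    · exact ((hB2 w hw).trans (le_abs_self _)).trans
        ((le_max_right _ _).trans ((le_max_right _ _).trans (le_max_right _ _)))
    · push Not at hw
      obtain ⟨t, v, ht, hv, rfl⟩ := key w hw
      rw [b_dd_homog b hb hb1 e t ht v (by rw [hv]; norm_num), abs_mul]
      have h1 : |t⁻¹ ^ 3| ≤ 1 := by
        rw [abs_of_nonneg (by positivity)]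
        exact pow_le_one₀ (by positivity) (inv_le_one_of_one_le₀ ht)
      calc |t⁻¹ ^ 3| * |ddk e b v| ≤ 1 * |ddk e b v| :=
            mul_le_mul_of_nonneg_right h1 (abs_nonneg _)
        _ = |ddk e b v| := one_mul _
        _ ≤ _ := ((hB2 v hv.le).trans (le_abs_self _)).trans
            ((le_max_right _ _).trans ((le_max_right _ _).trans (le_max_right _ _)))

/-- the product of the two scaled functions -/
theorem prod_bound (b : E3 → ℝ) (hb : ContDiff ℝ SM b) (hb1 : ∀ w, 1 / 2 ≤ ‖w‖ → b w = 1 / ‖w‖) (e : E3) :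
    ∃ C : ℝ, 0 ≤ C ∧ ∀ (y u z : E3) (r s : ℝ), 0 < r → 1 ≤ s * r →
      |ddk e (fun z => cy y r z * (s * b (s • (u - z)))) z| ≤ C * s ^ 3 := by
  obtain ⟨A, hA0, hA1, hA2, hA3⟩ := ct_bounds e
  obtain ⟨B, hB0, hB1, hB2, hB3⟩ := b_bounds b hb hb1 e
  refine ⟨4 * (A * B), by positivity, ?_⟩
  intro y u z r s hr hs
  have hs0 : 0 < s := by
    by_contra hcon
    push Not at hcon
    nlinarith
  have hrs : r⁻¹ ≤ s := by
    rw [inv_le_iff_one_le_mul₀ hr]
    exact hs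
  have hr' : 0 < r⁻¹ := inv_pos.mpr hr
  set f : E3 → ℝ := fun z => ct (r⁻¹ • z + (-(r⁻¹ • y))) with hf
  set g0 : E3 → ℝ := fun z => b ((-s) • z + s • u) with hg0
  have haff1 : ContDiff ℝ SM (fun z : E3 => r⁻¹ • z + (-(r⁻¹ • y))) :=
    (contDiff_id.const_smul _).add contDiff_const
  have haff2 : ContDiff ℝ SM (fun z : E3 => (-s) • z + s • u) :=
    (contDiff_id.const_smul _).add contDiff_const
  have hfs : ContDiff ℝ SM f := ct_smooth.comp haff1
  have hg0s : ContDiff ℝ SM g0 := hb.comp haff2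
  have hgs : ContDiff ℝ SM (fun z => s * g0 z) := contDiff_const.mul hg0s
  have heq : (fun z => cy y r z * (s * b (s • (u - z)))) = fun z => f z * (fun z => s * g0 z) z := by
    funext z
    have h1 : r⁻¹ • (z - y) = r⁻¹ • z + (-(r⁻¹ • y)) := by rw [smul_sub, sub_eq_add_neg]
    have h2 : s • (u - z) = (-s) • z + s • u := by rw [smul_sub, neg_smul]; abel
    simp only [cy, hf, hg0, h1, h2]
  have hcm1 : ∀ z, fderiv ℝ (fun z => s * g0 z) z e = s * fderiv ℝ g0 z e := by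
    intro z
    rw [fderiv_const_mul (sm_diff g0 hg0s z), smul_apply, smul_eq_mul]
  have hcm2 : ddk e (fun z => s * g0 z) z = s * ddk e g0 z := by
    unfold ddk
    rw [show (fun v => fderiv ℝ (fun z => s * g0 z) v e) = fun v => s * fderiv ℝ g0 v e from funext hcm1]
    rw [fderiv_const_mul (sm_diff _ (sm_dir g0 hg0s e) z), smul_apply, smul_eq_mul]
  rw [heq, dd_mul f _ hfs hgs, hcm1, hcm2]
  have e1 : fderiv ℝ f z e = r⁻¹ * fderiv ℝ ct (r⁻¹ • z + (-(r⁻¹ • y))) e :=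
    fd_scale ct (sm_diff ct ct_smooth) _ _ _ _
  have e2 : ddk e f z = r⁻¹ ^ 2 * ddk e ct (r⁻¹ • z + (-(r⁻¹ • y))) := dd_scale ct ct_smooth _ _ _ _
  have e3 : fderiv ℝ g0 z e = (-s) * fderiv ℝ b ((-s) • z + s • u) e :=
    fd_scale b (sm_diff b hb) _ _ _ _
  have e4 : ddk e g0 z = (-s) ^ 2 * ddk e b ((-s) • z + s • u) := dd_scale b hb _ _ _ _
  rw [e1, e2, e3, e4]
  set w1 := r⁻¹ • z + (-(r⁻¹ • y))
  set w2 := (-s) • z + s • u
  have hfz : f z = ct w1 := rfl
  have hgz : g0 z = b w2 := rfl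
  rw [hfz, hgz]
  have t1 : |ct w1 * (s * ((-s) ^ 2 * ddk e b w2))| ≤ A * B * s ^ 3 := by
    rw [abs_mul, abs_mul, abs_mul, abs_of_pos hs0, abs_of_nonneg (by positivity : (0:ℝ) ≤ (-s) ^ 2)]
    calc |ct w1| * (s * ((-s) ^ 2 * |ddk e b w2|)) ≤ A * (s * ((-s) ^ 2 * B)) := by
          apply mul_le_mul (hA1 w1) _ (by positivity) hA0
          apply mul_le_mul_of_nonneg_left _ hs0.le
          exact mul_le_mul_of_nonneg_left (hB3 w2) (by positivity)
      _ = A * B * s ^ 3 := by ring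
  have hr2 : r⁻¹ ^ 2 ≤ s ^ 2 := pow_le_pow_left₀ hr'.le hrs 2
  have t2 : |2 * (r⁻¹ * fderiv ℝ ct w1 e * (s * (-s * fderiv ℝ b w2 e)))| ≤ 2 * (A * B * s ^ 3) := by
    rw [abs_mul, abs_mul, abs_mul, abs_mul, abs_mul, abs_neg, abs_of_pos hs0, abs_of_pos hr',
      abs_of_pos (two_pos : (0:ℝ) < 2)]
    calc 2 * (r⁻¹ * |fderiv ℝ ct w1 e| * (s * (s * |fderiv ℝ b w2 e|))) ≤
          2 * (s * A * (s * (s * B))) := by
          apply mul_le_mul_of_nonneg_left _ two_pos.le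
          apply mul_le_mul _ _ (by positivity) (by positivity)
          · exact mul_le_mul hrs (hA2 w1) (abs_nonneg _) hs0.le
          · apply mul_le_mul_of_nonneg_left _ hs0.le
            exact mul_le_mul_of_nonneg_left (hB2 w2) hs0.le
      _ = 2 * (A * B * s ^ 3) := by ring
  have t3 : |s * b w2 * (r⁻¹ ^ 2 * ddk e ct w1)| ≤ A * B * s ^ 3 := by
    rw [abs_mul, abs_mul, abs_mul, abs_of_pos hs0, abs_of_pos (by positivity : (0:ℝ) < r⁻¹ ^ 2)]
    calc s * |b w2| * (r⁻¹ ^ 2 * |ddk e ct w1|) ≤ s * B * (s ^ 2 * A) := by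
          apply mul_le_mul _ _ (by positivity) (by positivity)
          · exact mul_le_mul_of_nonneg_left (hB1 w2) hs0.le
          · exact mul_le_mul hr2 (hA3 w1) (abs_nonneg _) (by positivity)
      _ = A * B * s ^ 3 := by ring
  calc |ct w1 * (s * ((-s) ^ 2 * ddk e b w2)) +
        2 * (r⁻¹ * fderiv ℝ ct w1 e * (s * (-s * fderiv ℝ b w2 e))) +
        s * b w2 * (r⁻¹ ^ 2 * ddk e ct w1)| ≤ A * B * s ^ 3 + 2 * (A * B * s ^ 3) + A * B * s ^ 3 :=
        (abs_add_le _ _).trans (add_le_add ((abs_add_le _ _).trans (add_le_add t1 t2)) t3)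
    _ = 4 * (A * B) * s ^ 3 := by ring

/-- differentiation in the second variable keeps joint smoothness -/
theorem sm_second (F : E3 → E3 → ℝ) (hF : ContDiff ℝ SM (fun p : E3 × E3 => F p.1 p.2)) (e : E3) :
    ContDiff ℝ SM (fun p : E3 × E3 => fderiv ℝ (F p.1) p.2 e) := by
  have h1 : ContDiff ℝ SM (Function.uncurry (fun (p : E3 × E3) (v : E3) => F p.1 v)) := by
    have h2 : ContDiff ℝ SM (fun q : (E3 × E3) × E3 => (q.1.1, q.2)) :=
      (contDiff_fst.comp contDiff_fst).prodMk contDiff_snd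
    exact hF.comp h2
  exact (ContDiff.fderiv h1 (contDiff_snd : ContDiff ℝ SM (fun p : E3 × E3 => p.2)) sm_succ).clm_apply
    contDiff_const

/-- the Laplacian in the second variable keeps joint smoothness -/
theorem sm_lap (F : E3 → E3 → ℝ) (hF : ContDiff ℝ SM (fun p : E3 × E3 => F p.1 p.2)) :
    ContDiff ℝ SM (fun p : E3 × E3 => lap (F p.1) p.2) := by
  have h1 : ∀ e : E3, ContDiff ℝ SM
      (fun p : E3 × E3 => fderiv ℝ (fun v => fderiv ℝ (F p.1) v e) p.2 e) := by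
    intro e
    have h2 := sm_second F hF e
    have h3 := sm_second (fun u v => fderiv ℝ (F u) v e) h2 e
    exact h3
  have h4 : (fun p : E3 × E3 => lap (F p.1) p.2) = fun p : E3 × E3 =>
      ∑ k : Fin 3, fderiv ℝ (fun v => fderiv ℝ (F p.1) v (EuclideanSpace.single k (1 : ℝ))) p.2
        (EuclideanSpace.single k (1 : ℝ)) := rfl
  rw [h4]
  exact ContDiff.sum fun i _ => h1 _

theorem sm_sect (F : E3 → E3 → ℝ) (hF : ContDiff ℝ SM (fun p : E3 × E3 => F p.1 p.2)) (u : E3) :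
    ContDiff ℝ SM (F u) := by
  have h1 : ContDiff ℝ SM (fun z : E3 => (u, z)) := contDiff_const.prodMk contDiff_id
  have h2 := hF.comp h1
  exact h2

/-- the localised kernel -/
noncomputable def gk (b : E3 → ℝ) (y : E3) (r s : ℝ) (u z : E3) : ℝ :=
  cy y r z * (s * b (s • (u - z)))

theorem gk_smooth (b : E3 → ℝ) (hb : ContDiff ℝ SM b) (y : E3) (r s : ℝ) :
    ContDiff ℝ SM (fun p : E3 × E3 => gk b y r s p.1 p.2) := by
  have h1 : ContDiff ℝ SM (fun p : E3 × E3 => cy y r p.2) := by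
    have h2 : ContDiff ℝ SM (fun p : E3 × E3 => r⁻¹ • (p.2 - y)) :=
      (contDiff_snd.sub contDiff_const).const_smul _
    exact ct_smooth.comp h2
  have h3 : ContDiff ℝ SM (fun p : E3 × E3 => b (s • (p.1 - p.2))) := by
    have h2 : ContDiff ℝ SM (fun p : E3 × E3 => s • (p.1 - p.2)) :=
      (contDiff_fst.sub contDiff_snd).const_smul _
    exact hb.comp h2
  exact h1.mul (contDiff_const.mul h3)

theorem gk_zero (b : E3 → ℝ) (y : E3) (r s : ℝ) (hr : 0 < r) (u z : E3) (hz : 2 * r < ‖z - y‖) :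
    gk b y r s u z = 0 := by
  have h1 : 2 ≤ ‖r⁻¹ • (z - y)‖ := by
    rw [norm_smul, Real.norm_eq_abs, abs_of_pos (inv_pos.mpr hr), inv_mul_eq_div, le_div_iff₀ hr]
    exact hz.le
  rw [gk, cy, ct_zero _ h1, zero_mul]

theorem gk_compact (b : E3 → ℝ) (y : E3) (r s : ℝ) (hr : 0 < r) (u : E3) :
    HasCompactSupport (gk b y r s u) := by
  refine HasCompactSupport.intro (isCompact_closedBall y (2 * r)) ?_
  intro z hz
  rw [mem_closedBall_iff_norm, not_le] at hz
  exact gk_zero b y r s hr u z hz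

theorem gk_lap_zero (b : E3 → ℝ) (y : E3) (r s : ℝ) (hr : 0 < r) (u ω : E3) (hz : 2 * r < ‖ω - y‖) :
    lap (gk b y r s u) ω = 0 := by
  have h1 : gk b y r s u =ᶠ[nhds ω] fun _ => 0 := by
    have hopen : {z : E3 | 2 * r < ‖z - y‖} ∈ nhds ω :=
      (isOpen_lt continuous_const (continuous_id.sub continuous_const).norm).mem_nhds hz
    filter_upwards [hopen] with z hz
    exact gk_zero b y r s hr u z hz
  unfold lap
  apply Finset.sum_eq_zero
  intro i _
  have h3 : (fun v => fderiv ℝ (gk b y r s u) v (EuclideanSpace.single i (1 : ℝ))) =ᶠ[nhds ω]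
      fun _ => 0 := by
    filter_upwards [h1.fderiv (𝕜 := ℝ)] with v hv
    rw [hv]
    simp
  rw [h3.fderiv_eq]
  simp

/-- TARGET -/
theorem kern_b (b : E3 → ℝ) (hb : ContDiff ℝ SM b) (hb1 : ∀ w, 1 / 2 ≤ ‖w‖ → b w = 1 / ‖w‖) :
    ∃ C : ℝ, 0 < C ∧ ∀ (y : E3) (r : ℝ) (k : ℕ), 0 < r → r ≤ 1 → 1 ≤ 2 ^ k * r →
      ∃ P : E3 → E3 → ℝ, ContDiff ℝ SM (fun p : E3 × E3 => P p.1 p.2) ∧
        (∀ u ω, |P u ω| ≤ C * 8 ^ k) ∧
        (∀ u ω, P u ω ≠ 0 → ‖ω - y‖ ≤ 2 * r) ∧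
        (∀ u z, cy y r z * (2 ^ k * b ((2 : ℝ) ^ k • (u - z))) = ∫ ω, P u ω / ‖ω - z‖) ∧
        (∀ u, ∫ ω, P u ω = 0) := by
  obtain ⟨c, hc, hnewt⟩ := newt
  have hall : ∀ i : Fin 3, ∃ C : ℝ, 0 ≤ C ∧ ∀ (y u z : E3) (r s : ℝ), 0 < r → 1 ≤ s * r →
      |ddk (EuclideanSpace.single i (1 : ℝ)) (fun z => cy y r z * (s * b (s • (u - z)))) z| ≤ C * s ^ 3 :=
    fun i => prod_bound b hb hb1 _
  choose Cf hCf0 hCf using hall
  have hsum0 : 0 ≤ ∑ i, Cf i := Finset.sum_nonneg fun i _ => hCf0 i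
  have hc' : 0 < c⁻¹ := inv_pos.mpr hc
  refine ⟨c⁻¹ * (∑ i, Cf i) + 1, by positivity, ?_⟩
  intro y r k hr hr1 hkr
  have hG := gk_smooth b hb y r (2 ^ k)
  refine ⟨fun u ω => -c⁻¹ * lap (gk b y r (2 ^ k) u) ω, contDiff_const.mul (sm_lap _ hG), ?_, ?_, ?_, ?_⟩
  · intro u ω
    have h1 : |lap (gk b y r (2 ^ k) u) ω| ≤ (∑ i, Cf i) * 8 ^ k := by
      unfold lap
      refine (Finset.abs_sum_le_sum_abs _ _).trans ?_
      rw [Finset.sum_mul]
      refine Finset.sum_le_sum fun i _ => ?_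
      have h2 := hCf i y u ω r (2 ^ k) hr hkr
      have h3 : ((2 : ℝ) ^ k) ^ 3 = 8 ^ k := by
        rw [← pow_mul, mul_comm, pow_mul]; norm_num
      rw [h3] at h2
      exact h2
    show |-c⁻¹ * lap (gk b y r (2 ^ k) u) ω| ≤ _
    rw [abs_mul, abs_neg, abs_of_pos hc']
    calc c⁻¹ * |lap (gk b y r (2 ^ k) u) ω| ≤ c⁻¹ * ((∑ i, Cf i) * 8 ^ k) :=
          mul_le_mul_of_nonneg_left h1 hc'.le
      _ ≤ (c⁻¹ * (∑ i, Cf i) + 1) * 8 ^ k := by
        have h8 : (0 : ℝ) < 8 ^ k := by positivity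
        nlinarith
  · intro u ω hP
    by_contra hcon
    push Not at hcon
    apply hP
    show -c⁻¹ * lap (gk b y r (2 ^ k) u) ω = 0
    rw [gk_lap_zero b y r (2 ^ k) hr u ω hcon, mul_zero]
  · intro u z
    have h1 := (hnewt (gk b y r (2 ^ k) u) (sm_sect _ hG u) (gk_compact b y r (2 ^ k) hr u)).1 z
    have h2 : cy y r z * (2 ^ k * b ((2 : ℝ) ^ k • (u - z))) = gk b y r (2 ^ k) u z := rfl
    rw [h2, h1, ← integral_const_mul]
    congr 1
    funext w
    rw [mul_div_assoc]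
  · intro u
    have h1 := (hnewt (gk b y r (2 ^ k) u) (sm_sect _ hG u) (gk_compact b y r (2 ^ k) hr u)).2
    show ∫ ω, -c⁻¹ * lap (gk b y r (2 ^ k) u) ω = 0
    rw [integral_const_mul, h1, mul_zero]

end Pool.Agent.Helper780_CP.RK4
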