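import Pool.Agent.Helper780_CP.LLDefs2
import Pool.Agent.Helper780_CP.RK1

set_option autoImplicit false

open MeasureTheory

namespace Pool.Agent.Helper780_CP.RK3

open Pool.Agent.Helper780_CP
open Pool.Agent.Helper985.CP
open Pool.Agent.Helper780_CP.RK1 (newt)

/-- parametric integrals over the unit interval are smooth -/
theorem kern_param {P : Type} [NormedAddCommGroup P] [NormedSpace ℝ P]
    (G : P × ℝ → ℝ) (hG : ContDiff ℝ SM G) : ContDiff ℝ SM (fun q : P => ∫ t in (0:ℝ)..1, G (q, t)) := by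
  obtain ⟨χ, hχ⟩ : ∃ χ : ContDiffBump (0 : ℝ), χ.rIn = 1 ∧ χ.rOut = 2 :=
    ⟨⟨1, 2, one_pos, one_lt_two⟩, rfl, rfl⟩
  have h1 : LocallyIntegrable (Set.indicator (Set.Ioc (0:ℝ) 1) (fun _ => (1:ℝ))) volume := by
    have : Integrable (Set.indicator (Set.Ioc (0:ℝ) 1) (fun _ => (1:ℝ))) volume := by
      rw [integrable_indicator_iff measurableSet_Ioc]
      exact integrableOn_const (by simp)
    exact this.locallyIntegrable
  have h2 := contDiffOn_convolution_right_with_param_comp (𝕜 := ℝ) (n := ⊤) (μ := volume)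
    (ContinuousLinearMap.mul ℝ ℝ) (s := (Set.univ : Set P)) (v := fun _ => (0:ℝ)) contDiffOn_const
    (f := Set.indicator (Set.Ioc (0:ℝ) 1) (fun _ => (1:ℝ)))
    (g := fun q x => χ x * G (q, -x)) (k := Metric.closedBall (0:ℝ) 2) isOpen_univ
    (isCompact_closedBall _ _)
    (by
      intro p x _ hx
      have : χ x = 0 := by
        apply χ.zero_of_le_dist
        rw [hχ.2]
        rw [Metric.mem_closedBall, not_le] at hx
        exact hx.le
      rw [this, zero_mul]) h1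
    (by
      apply ContDiff.contDiffOn
      have e : (Function.HasUncurry.uncurry fun (q : P) (x : ℝ) => χ x * G (q, -x)) =
          fun z : P × ℝ => χ z.2 * G (z.1, -z.2) := rfl
      rw [e]
      exact (χ.contDiff.comp contDiff_snd).mul (hG.comp (contDiff_fst.prodMk contDiff_snd.neg)))
  rw [contDiffOn_univ] at h2
  convert h2 using 1
  funext q
  rw [convolution_def, intervalIntegral.integral_of_le zero_le_one,
    ← integral_indicator measurableSet_Ioc]
  congr 1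
  funext t
  by_cases ht : t ∈ Set.Ioc (0:ℝ) 1
  · rw [Set.indicator_of_mem ht, Set.indicator_of_mem ht]
    have : χ (0 - t) = 1 := by
      apply χ.one_of_mem_closedBall
      rw [hχ.1, Metric.mem_closedBall, dist_zero_right, zero_sub, norm_neg, Real.norm_eq_abs,
        abs_of_pos ht.1]
      exact ht.2
    simp only [ContinuousLinearMap.mul_apply']
    rw [this]
    simp
  · rw [Set.indicator_of_notMem ht, Set.indicator_of_notMem ht]
    simp

/-- Hadamard's lemma -/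
theorem kern_hadamard {P : Type} [NormedAddCommGroup P] [NormedSpace ℝ P] (F : P × ℝ → ℝ)
    (hF : ContDiff ℝ SM F) (h0 : ∀ p, F (p, 0) = 0) :
    ∃ H : P × ℝ → ℝ, ContDiff ℝ SM H ∧ ∀ p s, F (p, s) = s * H (p, s) := by
  have hD : ContDiff ℝ SM (fun q : P × ℝ => fderiv ℝ F q (0, 1)) :=
    (hF.fderiv_right (m := SM) (by simp)).clm_apply contDiff_const
  refine ⟨fun q => ∫ t in (0:ℝ)..1, fderiv ℝ F (q.1, t * q.2) (0, 1), ?_, ?_⟩
  · refine kern_param (fun z : (P × ℝ) × ℝ => fderiv ℝ F (z.1.1, z.2 * z.1.2) (0, 1)) ?_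
    exact hD.comp ((contDiff_fst.comp contDiff_fst).prodMk
      (contDiff_snd.mul (contDiff_snd.comp contDiff_fst)))
  · intro p s
    have h1 : ∀ t : ℝ, HasDerivAt (fun t : ℝ => F (p, t * s)) (s * fderiv ℝ F (p, t * s) (0, 1)) t := by
      intro t
      have h2 : HasFDerivAt F (fderiv ℝ F (p, t * s)) (p, t * s) :=
        (hF.differentiable (by simp) _).hasFDerivAt
      have h3 : HasDerivAt (fun t : ℝ => (p, t * s)) ((0, s) : P × ℝ) t := by
        have h5 : HasDerivAt (fun t : ℝ => t * s) s t := by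
          simpa using (hasDerivAt_id t).mul_const s
        exact (hasDerivAt_const t p).prodMk h5
      have h4 := h2.comp_hasDerivAt t h3
      have e : fderiv ℝ F (p, t * s) (0, s) = s * fderiv ℝ F (p, t * s) (0, 1) := by
        have : ((0, s) : P × ℝ) = s • ((0, 1) : P × ℝ) := by simp
        rw [this, map_smul, smul_eq_mul]
      rw [e] at h4
      exact h4
    have h5 := intervalIntegral.integral_eq_sub_of_hasDerivAt (a := 0) (b := 1) (fun t _ => h1 t)
      (by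
        apply Continuous.intervalIntegrable
        have : Continuous fun t : ℝ => fderiv ℝ F (p, t * s) (0, 1) :=
          hD.continuous.comp (by fun_prop : Continuous fun t : ℝ => (p, t * s))
        exact continuous_const.mul this)
    rw [intervalIntegral.integral_const_mul] at h5
    simp only [one_mul, zero_mul, h0, sub_zero] at h5
    exact h5.symm

theorem kern_ct_smooth : ContDiff ℝ SM ct := by
  unfold ct
  exact Real.smoothTransition.contDiff.comp
    (((contDiff_const.sub (contDiff_norm_sq ℝ)).div_const 3))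

theorem kern_ct_zero {w : E3} (h : 2 ≤ ‖w‖) : ct w = 0 := by
  unfold ct
  apply Real.smoothTransition.zero_of_nonpos
  have : 4 ≤ ‖w‖ ^ 2 := by nlinarith
  linarith

/-- the space of the scaled variables: position, difference, ratio of the scales -/
abbrev Q3 : Type := (E3 × E3) × ℝ

/-- the basis vectors in the difference variable -/
noncomputable def vb (k : Fin 3) : Q3 := ((0, EuclideanSpace.single k (1 : ℝ)), 0)

/-- the Laplacian in the difference variable -/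
noncomputable def lb (G : Q3 → ℝ) (q : Q3) : ℝ :=
  ∑ k : Fin 3, fderiv ℝ (fun v => fderiv ℝ G v (vb k)) q (vb k)

theorem kern_lb_smooth {G : Q3 → ℝ} (hG : ContDiff ℝ SM G) : ContDiff ℝ SM (lb G) := by
  unfold lb
  apply ContDiff.sum
  intro k _
  have h1 : ContDiff ℝ SM (fun v => fderiv ℝ G v (vb k)) :=
    (hG.fderiv_right (m := SM) (by simp)).clm_apply contDiff_const
  exact (h1.fderiv_right (m := SM) (by simp)).clm_apply contDiff_const

theorem kern_lb_zero {G : Q3 → ℝ} {U : Set Q3} (hU : IsOpen U) (h : ∀ q ∈ U, G q = 0) :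
    ∀ q ∈ U, lb G q = 0 := by
  intro q hq
  unfold lb
  apply Finset.sum_eq_zero
  intro k _
  have h1 : ∀ v ∈ U, fderiv ℝ G v = 0 := by
    intro v hv
    have h2 : G =ᶠ[nhds v] fun _ => 0 := Filter.mem_of_superset (hU.mem_nhds hv) h
    rw [h2.fderiv_eq]
    simp
  have h3 : (fun v => fderiv ℝ G v (vb k)) =ᶠ[nhds q] fun _ => 0 := by
    refine Filter.mem_of_superset (hU.mem_nhds hq) fun v hv => ?_
    show fderiv ℝ G v (vb k) = 0
    rw [h1 v hv]
    simp
  rw [h3.fderiv_eq]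
  simp

theorem kern_fderiv_zero {G : Q3 → ℝ} {U : Set Q3} (hU : IsOpen U) (h : ∀ q ∈ U, G q = 0) :
    ∀ q ∈ U, fderiv ℝ G q = 0 := by
  intro v hv
  have h2 : G =ᶠ[nhds v] fun _ => 0 := Filter.mem_of_superset (hU.mem_nhds hv) h
  rw [h2.fderiv_eq]
  simp

/-- the Laplacian of an affine substitution -/
theorem kern_lap_comp {G : Q3 → ℝ} (hG : ContDiff ℝ SM G) (a x : E3) (m s : ℝ) (ω : E3) :
    lap (fun z => G ((a, m • (x - z)), s)) ω = m ^ 2 * lb G ((a, m • (x - ω)), s) := by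
  have key : ∀ F : Q3 → ℝ, ContDiff ℝ SM F → ∀ z : E3, ∀ v : E3,
      fderiv ℝ (fun z => F ((a, m • (x - z)), s)) z v =
        -m * fderiv ℝ F ((a, m • (x - z)), s) ((0, v), 0) := by
    intro F hF z v
    have h1 : HasFDerivAt F (fderiv ℝ F ((a, m • (x - z)), s)) ((a, m • (x - z)), s) :=
      (hF.differentiable (by simp) _).hasFDerivAt
    have h2 : HasFDerivAt (fun z : E3 => m • (x - z)) (m • (-(ContinuousLinearMap.id ℝ E3))) z := by
      have h3 : HasFDerivAt (fun z : E3 => x - z) (-(ContinuousLinearMap.id ℝ E3)) z :=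
        (hasFDerivAt_id z).const_sub x
      exact h3.const_smul m
    have h4 : HasFDerivAt (fun z : E3 => (((a, m • (x - z)), s) : Q3))
        (((0 : E3 →L[ℝ] E3).prod (m • (-(ContinuousLinearMap.id ℝ E3)))).prod (0 : E3 →L[ℝ] ℝ)) z :=
      ((hasFDerivAt_const a z).prodMk h2).prodMk (hasFDerivAt_const s z)
    have h5 := (h1.comp z h4).fderiv
    have h6 : (F ∘ fun z : E3 => (((a, m • (x - z)), s) : Q3)) =
        fun z => F ((a, m • (x - z)), s) := rfl
    rw [h6] at h5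
    rw [h5, ContinuousLinearMap.comp_apply]
    have h7 : (((0 : E3 →L[ℝ] E3).prod (m • (-(ContinuousLinearMap.id ℝ E3)))).prod
        (0 : E3 →L[ℝ] ℝ)) v = (-m) • (((0, v), 0) : Q3) := by
      ext <;> simp
    rw [h7, map_smul, smul_eq_mul]
  unfold lap lb
  rw [Finset.mul_sum]
  refine Finset.sum_congr rfl fun k _ => ?_
  have h1 : (fun v : E3 => fderiv ℝ (fun z => G ((a, m • (x - z)), s)) v
      (EuclideanSpace.single k (1 : ℝ))) =
      fun v => (fun q => -m * fderiv ℝ G q (vb k)) ((a, m • (x - v)), s) := by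
    funext v
    rw [key G hG v]
    rfl
  have h2 : ContDiff ℝ SM (fun q => -m * fderiv ℝ G q (vb k)) :=
    contDiff_const.mul ((hG.fderiv_right (m := SM) (by simp)).clm_apply contDiff_const)
  rw [h1, key _ h2 ω]
  have h3 : fderiv ℝ (fun q => -m * fderiv ℝ G q (vb k)) ((a, m • (x - ω)), s) =
      (-m) • fderiv ℝ (fun q => fderiv ℝ G q (vb k)) ((a, m • (x - ω)), s) := by
    have h4 : ContDiff ℝ SM (fun q => fderiv ℝ G q (vb k)) :=
      (hG.fderiv_right (m := SM) (by simp)).clm_apply contDiff_const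
    exact fderiv_const_mul (h4.differentiable (by simp) _) _
  rw [h3]
  simp only [_root_.smul_apply, smul_eq_mul]
  show -m * (-m * _) = _
  unfold vb
  ring

/-- the scaled data -/
theorem kern_data (l : E3 → ℝ) (hl : ContDiff ℝ SM l) (hl1 : ∀ w, 1 ≤ ‖w‖ → l w = 1 / ‖w‖) :
    ∃ G : Q3 → ℝ, ContDiff ℝ SM G ∧
      (∀ q : Q3, 1 < ‖q.1.2‖ → G q = 0) ∧
      (∀ q : Q3, q.2 ≠ 0 → 2 < ‖q.1.1‖ → 2 < ‖q.1.1 - q.2 • q.1.2‖ → G q = 0) ∧
      ∀ (y : E3) (r : ℝ) (k : ℕ), 0 < r → ∀ x ω : E3,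
        (cy y r x - cy y r ω) ^ 2 / 2 * psi l k (x - ω) =
          2 ^ k * (1 / (2 ^ k * r)) ^ 2 *
            G ((r⁻¹ • (x - y), (2 : ℝ) ^ k • (x - ω)), 1 / (2 ^ k * r)) := by
  obtain ⟨H, hH, hF⟩ := kern_hadamard (P := E3 × E3)
    (fun q => ct q.1.1 - ct (q.1.1 - q.2 • q.1.2))
    (by
      have h1 : ContDiff ℝ SM (fun q : Q3 => q.1.1) := contDiff_fst.comp contDiff_fst
      have h2 : ContDiff ℝ SM (fun q : Q3 => q.1.2) := contDiff_snd.comp contDiff_fst
      have h3 : ContDiff ℝ SM (fun q : Q3 => q.2) := contDiff_snd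
      exact (kern_ct_smooth.comp h1).sub (kern_ct_smooth.comp (h1.sub (h3.smul h2))))
    (by intro p; simp)
  refine ⟨fun q => H q ^ 2 / 2 * (2 * l ((2 : ℝ) • q.1.2) - l q.1.2), ?_, ?_, ?_, ?_⟩
  · have h2 : ContDiff ℝ SM (fun q : Q3 => q.1.2) := contDiff_snd.comp contDiff_fst
    have h3 : ContDiff ℝ SM (fun q : Q3 => (2 : ℝ) • q.1.2) := h2.const_smul (2 : ℝ)
    exact ((hH.pow 2).div_const 2).mul ((contDiff_const.mul (hl.comp h3)).sub (hl.comp h2))
  · intro q hq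
    have h1 : l q.1.2 = 1 / ‖q.1.2‖ := hl1 _ hq.le
    have h2 : ‖(2 : ℝ) • q.1.2‖ = 2 * ‖q.1.2‖ := by rw [norm_smul]; simp
    have h3 : l ((2 : ℝ) • q.1.2) = 1 / (2 * ‖q.1.2‖) := by
      rw [hl1 _ (by rw [h2]; linarith), h2]
    simp only
    rw [h1, h3]
    have : ‖q.1.2‖ ≠ 0 := by linarith
    field_simp
    ring
  · intro q h0 h1 h2
    have h3 := hF q.1 q.2
    simp only at h3
    rw [kern_ct_zero h1.le, kern_ct_zero h2.le, sub_zero] at h3
    have h4 : H q = 0 := (mul_eq_zero.1 h3.symm).resolve_left h0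
    simp only
    rw [h4]
    simp
  · intro y r k hr x ω
    have hk : (0 : ℝ) < 2 ^ k := by positivity
    have h3 := hF (r⁻¹ • (x - y), (2 : ℝ) ^ k • (x - ω)) (1 / (2 ^ k * r))
    simp only at h3
    have h4 : r⁻¹ • (x - y) - (1 / (2 ^ k * r)) • (2 : ℝ) ^ k • (x - ω) = r⁻¹ • (ω - y) := by
      rw [smul_smul]
      have : 1 / (2 ^ k * r) * 2 ^ k = r⁻¹ := by field_simp
      rw [this, ← smul_sub]
      congr 1
      abel
    rw [h4] at h3
    have h5 : cy y r x - cy y r ω = 1 / (2 ^ k * r) *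
        H ((r⁻¹ • (x - y), (2 : ℝ) ^ k • (x - ω)), 1 / (2 ^ k * r)) := h3
    rw [h5]
    have h6 : psi l k (x - ω) = 2 ^ k * (2 * l ((2 : ℝ) • ((2 : ℝ) ^ k • (x - ω))) -
        l ((2 : ℝ) ^ k • (x - ω))) := by
      unfold psi
      rw [smul_smul, ← pow_succ']
      ring
    rw [h6]
    ring

/-- uniform bounds -/
theorem kern_bounds (G : Q3 → ℝ) (hG : ContDiff ℝ SM G) (h1 : ∀ q : Q3, 1 < ‖q.1.2‖ → G q = 0)
    (h2 : ∀ q : Q3, q.2 ≠ 0 → 2 < ‖q.1.1‖ → 2 < ‖q.1.1 - q.2 • q.1.2‖ → G q = 0) :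
    ∃ C : ℝ, 0 < C ∧ ∀ q : Q3, 0 < q.2 → q.2 ≤ 1 → |lb G q| ≤ C ∧ ‖fderiv ℝ (lb G) q‖ ≤ C ∧
      (lb G q ≠ 0 → ‖q.1.2‖ ≤ 1 ∧ ‖q.1.1‖ ≤ 3 ∧ ‖q.1.1 - q.2 • q.1.2‖ ≤ 3) := by
  have hs := kern_lb_smooth hG
  obtain ⟨U, hU⟩ : ∃ U : Set Q3, U = {q | 1 < ‖q.1.2‖} ∪
      {q | q.2 ≠ 0 ∧ 2 < ‖q.1.1‖ ∧ 2 < ‖q.1.1 - q.2 • q.1.2‖} := ⟨_, rfl⟩
  have hUo : IsOpen U := by
    rw [hU]
    apply IsOpen.union
    · exact isOpen_lt continuous_const (by fun_prop)
    · have e : {q : Q3 | q.2 ≠ 0 ∧ 2 < ‖q.1.1‖ ∧ 2 < ‖q.1.1 - q.2 • q.1.2‖} =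
          {q : Q3 | q.2 ≠ 0} ∩ ({q : Q3 | 2 < ‖q.1.1‖} ∩ {q : Q3 | 2 < ‖q.1.1 - q.2 • q.1.2‖}) := rfl
      rw [e]
      refine IsOpen.inter ?_ (IsOpen.inter ?_ ?_)
      · exact isOpen_ne_fun (by fun_prop) continuous_const
      · exact isOpen_lt continuous_const (by fun_prop)
      · exact isOpen_lt continuous_const (by fun_prop)
  have hGU : ∀ q ∈ U, G q = 0 := by
    intro q hq
    rw [hU] at hq
    rcases hq with hq | hq
    · exact h1 q hq
    · exact h2 q hq.1 hq.2.1 hq.2.2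
  have hlU := kern_lb_zero hUo hGU
  have hdU := kern_fderiv_zero hUo hlU
  obtain ⟨Kc, hKc⟩ : ∃ Kc : Set Q3, Kc = (Metric.closedBall (0 : E3) 3 ×ˢ
      Metric.closedBall (0 : E3) 1) ×ˢ Set.Icc (0 : ℝ) 1 := ⟨_, rfl⟩
  have hKcc : IsCompact Kc := by
    rw [hKc]
    exact ((isCompact_closedBall _ _).prod (isCompact_closedBall _ _)).prod isCompact_Icc
  obtain ⟨C₁, hC₁⟩ := hKcc.exists_bound_of_continuousOn hs.continuous.continuousOn
  obtain ⟨C₂, hC₂⟩ := hKcc.exists_bound_of_continuousOn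
    (hs.continuous_fderiv (by simp)).continuousOn
  have hout : ∀ q : Q3, 0 < q.2 → q.2 ≤ 1 → q ∉ Kc → q ∈ U := by
    intro q h3 h4 h5
    rw [hU]
    by_cases h6 : 1 < ‖q.1.2‖
    · exact Or.inl h6
    · right
      push Not at h6
      have h7 : 3 < ‖q.1.1‖ := by
        by_contra h8
        push Not at h8
        apply h5
        rw [hKc]
        refine ⟨⟨?_, ?_⟩, h3.le, h4⟩
        · rwa [mem_closedBall_zero_iff]
        · rwa [mem_closedBall_zero_iff]
      refine ⟨h3.ne', by linarith, ?_⟩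
      have h9 : ‖q.2 • q.1.2‖ ≤ 1 := by
        rw [norm_smul, Real.norm_eq_abs, abs_of_pos h3]
        nlinarith [norm_nonneg q.1.2]
      have h10 := norm_sub_norm_le q.1.1 (q.2 • q.1.2)
      linarith
  refine ⟨1 + |C₁| + |C₂|, by positivity, fun q h3 h4 => ⟨?_, ?_, ?_⟩⟩
  · by_cases h5 : q ∈ Kc
    · have h6 := hC₁ q h5
      rw [Real.norm_eq_abs] at h6
      linarith [le_abs_self C₁, abs_nonneg C₂]
    · rw [hlU q (hout q h3 h4 h5), abs_zero]
      positivity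
  · by_cases h5 : q ∈ Kc
    · have h6 := hC₂ q h5
      linarith [le_abs_self C₂, abs_nonneg C₁]
    · rw [hdU q (hout q h3 h4 h5), norm_zero]
      positivity
  · intro h5
    have h6 : q ∉ U := fun h => h5 (hlU q h)
    have h7 : ‖q.1.2‖ ≤ 1 := by
      by_contra h8
      push Not at h8
      apply h6
      rw [hU]
      exact Or.inl h8
    have h9 : ‖q.2 • q.1.2‖ ≤ 1 := by
      rw [norm_smul, Real.norm_eq_abs, abs_of_pos h3]
      nlinarith [norm_nonneg q.1.2]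
    have h10 : ‖q.1.1‖ ≤ 2 ∨ ‖q.1.1 - q.2 • q.1.2‖ ≤ 2 := by
      by_contra h8
      push Not at h8
      apply h6
      rw [hU]
      exact Or.inr ⟨h3.ne', h8.1, h8.2⟩
    refine ⟨h7, ?_, ?_⟩
    · rcases h10 with h | h
      · linarith
      · have h11 := norm_sub_norm_le q.1.1 (q.2 • q.1.2)
        linarith
    · rcases h10 with h | h
      · have h11 := norm_sub_le q.1.1 (q.2 • q.1.2)
        linarith
      · linarith

/-- TARGET -/
theorem kern_e (l : E3 → ℝ) (hl : ContDiff ℝ SM l) (hl1 : ∀ w, 1 ≤ ‖w‖ → l w = 1 / ‖w‖) :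
    ∃ C : ℝ, 0 < C ∧ ∀ (y : E3) (r : ℝ) (k : ℕ), 0 < r → r ≤ 1 → 1 ≤ 2 ^ k * r →
      ∃ P : E3 → E3 → ℝ, ContDiff ℝ SM (fun p : E3 × E3 => P p.1 p.2) ∧
        (∀ x ω, |P x ω| ≤ C * 2 ^ k / r ^ 2) ∧
        (∀ x ω, ‖fderiv ℝ (fun v => P v ω) x‖ ≤ C * 4 ^ k / r ^ 2) ∧
        (∀ x ω, P x ω ≠ 0 → 2 ^ k * ‖x - ω‖ ≤ 1 ∧ ‖x - y‖ ≤ 3 * r ∧ ‖ω - y‖ ≤ 3 * r) ∧
        (∀ x z, (cy y r x - cy y r z) ^ 2 / 2 * psi l k (x - z) = ∫ ω, P x ω / ‖ω - z‖) ∧
        (∀ x, ∫ ω, P x ω = 0) := by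
  obtain ⟨c, hc, hnewt⟩ := newt
  obtain ⟨G, hG, hG1, hG2, hGe⟩ := kern_data l hl hl1
  obtain ⟨C, hC, hCb⟩ := kern_bounds G hG hG1 hG2
  have hs := kern_lb_smooth hG
  refine ⟨c⁻¹ * C, by positivity, fun y r k hr hr1 hkr => ?_⟩
  have hk : (0 : ℝ) < 2 ^ k := by positivity
  have hs0 : 0 < 1 / (2 ^ k * r) := by positivity
  have hs1 : 1 / (2 ^ k * r) ≤ 1 := by
    rw [div_le_one (by positivity)]
    exact hkr
  obtain ⟨m, hm⟩ : ∃ m : ℝ, m = -c⁻¹ * (2 ^ k / r ^ 2) := ⟨_, rfl⟩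
  have hmabs : |m| = c⁻¹ * (2 ^ k / r ^ 2) := by
    rw [hm, neg_mul, abs_neg, abs_of_pos (by positivity)]
  obtain ⟨q, hq⟩ : ∃ q : E3 → E3 → Q3, q = fun x ω =>
      ((r⁻¹ • (x - y), (2 : ℝ) ^ k • (x - ω)), 1 / (2 ^ k * r)) := ⟨_, rfl⟩
  have hqb := fun x ω => hCb (q x ω) (by rw [hq]; exact hs0) (by rw [hq]; exact hs1)
  -- the Laplacian of the kernel
  have hlap : ∀ x ω, -c⁻¹ * lap (fun z => (cy y r x - cy y r z) ^ 2 / 2 * psi l k (x - z)) ω =
      m * lb G (q x ω) := by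
    intro x ω
    have h1 : (fun z => (cy y r x - cy y r z) ^ 2 / 2 * psi l k (x - z)) =
        fun z => (fun q => 2 ^ k * (1 / (2 ^ k * r)) ^ 2 * G q)
          ((r⁻¹ • (x - y), (2 : ℝ) ^ k • (x - z)), 1 / (2 ^ k * r)) := by
      funext z
      exact hGe y r k hr x z
    have h2 : ContDiff ℝ SM (fun q => 2 ^ k * (1 / (2 ^ k * r)) ^ 2 * G q) :=
      contDiff_const.mul hG
    rw [h1, kern_lap_comp h2]
    have h3 : lb (fun q => 2 ^ k * (1 / (2 ^ k * r)) ^ 2 * G q) (q x ω) =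
        2 ^ k * (1 / (2 ^ k * r)) ^ 2 * lb G (q x ω) := by
      unfold lb
      rw [Finset.mul_sum]
      refine Finset.sum_congr rfl fun j _ => ?_
      have h4 : (fun v => fderiv ℝ (fun q => 2 ^ k * (1 / (2 ^ k * r)) ^ 2 * G q) v (vb j)) =
          fun v => 2 ^ k * (1 / (2 ^ k * r)) ^ 2 * fderiv ℝ G v (vb j) := by
        funext v
        rw [fderiv_const_mul (hG.differentiable (by simp) _)]
        simp
      have h5 : ContDiff ℝ SM (fun v => fderiv ℝ G v (vb j)) :=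
        (hG.fderiv_right (m := SM) (by simp)).clm_apply contDiff_const
      rw [h4, fderiv_const_mul (h5.differentiable (by simp) _)]
      simp
    rw [hq] at h3 ⊢
    simp only at h3 ⊢
    rw [h3, hm]
    field_simp
  have hqsm : ContDiff ℝ SM (fun p : E3 × E3 => q p.1 p.2) := by
    rw [hq]
    have h1 : ContDiff ℝ SM (fun p : E3 × E3 => p.1 - y) := contDiff_fst.sub contDiff_const
    have h2 : ContDiff ℝ SM (fun p : E3 × E3 => p.1 - p.2) := contDiff_fst.sub contDiff_snd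
    exact ((h1.const_smul r⁻¹).prodMk (h2.const_smul ((2 : ℝ) ^ k))).prodMk contDiff_const
  have hfs : ∀ x, ContDiff ℝ SM (fun z => (cy y r x - cy y r z) ^ 2 / 2 * psi l k (x - z)) ∧
      HasCompactSupport (fun z => (cy y r x - cy y r z) ^ 2 / 2 * psi l k (x - z)) := by
    intro x
    have h1 : (fun z => (cy y r x - cy y r z) ^ 2 / 2 * psi l k (x - z)) =
        fun z => 2 ^ k * (1 / (2 ^ k * r)) ^ 2 * G (q x z) := by
      funext z
      rw [hGe y r k hr x z, hq]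
    rw [h1]
    constructor
    · exact contDiff_const.mul (hG.comp (hqsm.comp (contDiff_const.prodMk contDiff_id)))
    · refine HasCompactSupport.intro (isCompact_closedBall x 1) fun z hz => ?_
      have h2 : G (q x z) = 0 := by
        apply hG1
        rw [hq]
        simp only
        rw [norm_smul, Real.norm_eq_abs, abs_of_pos hk]
        rw [Metric.mem_closedBall, not_le, dist_comm, dist_eq_norm] at hz
        have h3 : (1 : ℝ) ≤ 2 ^ k := one_le_pow₀ (by norm_num)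
        nlinarith
      rw [h2, mul_zero]
  refine ⟨fun x ω => m * lb G (q x ω), contDiff_const.mul (hs.comp hqsm), ?_, ?_, ?_, ?_, ?_⟩
  · intro x ω
    rw [abs_mul, hmabs]
    calc c⁻¹ * (2 ^ k / r ^ 2) * |lb G (q x ω)| ≤ c⁻¹ * (2 ^ k / r ^ 2) * C :=
          mul_le_mul_of_nonneg_left (hqb x ω).1 (by positivity)
      _ = c⁻¹ * C * 2 ^ k / r ^ 2 := by ring
  · intro x ω
    have h1 : HasFDerivAt (lb G) (fderiv ℝ (lb G) (q x ω)) (q x ω) :=
      (hs.differentiable (by simp) _).hasFDerivAt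
    have h2 : HasFDerivAt (fun v : E3 => q v ω)
        (((r⁻¹ • (ContinuousLinearMap.id ℝ E3)).prod
          ((2 : ℝ) ^ k • (ContinuousLinearMap.id ℝ E3))).prod (0 : E3 →L[ℝ] ℝ)) x := by
      rw [hq]
      exact ((((hasFDerivAt_id x).sub_const y).const_smul r⁻¹).prodMk
        (((hasFDerivAt_id x).sub_const ω).const_smul ((2 : ℝ) ^ k))).prodMk
        (hasFDerivAt_const _ x)
    have h3 := ((h1.comp x h2).const_mul m).fderiv
    have h4 : fderiv ℝ (fun v => m * lb G (q v ω)) x = m • ((fderiv ℝ (lb G) (q x ω)).comp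
        (((r⁻¹ • (ContinuousLinearMap.id ℝ E3)).prod
          ((2 : ℝ) ^ k • (ContinuousLinearMap.id ℝ E3))).prod (0 : E3 →L[ℝ] ℝ))) := h3
    rw [h4, norm_smul, Real.norm_eq_abs, hmabs]
    have h5 : ‖((r⁻¹ • (ContinuousLinearMap.id ℝ E3)).prod
          ((2 : ℝ) ^ k • (ContinuousLinearMap.id ℝ E3))).prod (0 : E3 →L[ℝ] ℝ)‖ ≤ 2 ^ k := by
      apply ContinuousLinearMap.opNorm_le_bound _ hk.le
      intro v
      have h6 : r⁻¹ ≤ 2 ^ k := by
        rw [inv_le_iff_one_le_mul₀ hr]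
        exact hkr
      simp only [ContinuousLinearMap.prod_apply, _root_.smul_apply,
        ContinuousLinearMap.id_apply, _root_.zero_apply, Prod.norm_def]
      refine max_le (max_le ?_ ?_) ?_
      · rw [norm_smul, Real.norm_eq_abs, abs_of_pos (by positivity)]
        exact mul_le_mul_of_nonneg_right h6 (norm_nonneg v)
      · rw [norm_smul, Real.norm_eq_abs, abs_of_pos hk]
      · rw [norm_zero]
        positivity
    have h7 : ‖(fderiv ℝ (lb G) (q x ω)).comp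
        (((r⁻¹ • (ContinuousLinearMap.id ℝ E3)).prod
          ((2 : ℝ) ^ k • (ContinuousLinearMap.id ℝ E3))).prod (0 : E3 →L[ℝ] ℝ))‖ ≤ C * 2 ^ k :=
      (ContinuousLinearMap.opNorm_comp_le _ _).trans
        (mul_le_mul (hqb x ω).2.1 h5 (norm_nonneg _) hC.le)
    have h8 : (4 : ℝ) ^ k = 2 ^ k * 2 ^ k := by
      rw [← mul_pow]
      norm_num
    calc c⁻¹ * (2 ^ k / r ^ 2) * _ ≤ c⁻¹ * (2 ^ k / r ^ 2) * (C * 2 ^ k) :=
          mul_le_mul_of_nonneg_left h7 (by positivity)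
      _ = c⁻¹ * C * 4 ^ k / r ^ 2 := by rw [h8]; ring
  · intro x ω h1
    have h2 : lb G (q x ω) ≠ 0 := fun h => h1 (by simp only; rw [h, mul_zero])
    obtain ⟨h3, h4, h5⟩ := (hqb x ω).2.2 h2
    rw [hq] at h3 h4 h5
    simp only at h3 h4 h5
    rw [norm_smul, Real.norm_eq_abs, abs_of_pos hk] at h3
    rw [norm_smul, Real.norm_eq_abs, abs_of_pos (by positivity), inv_mul_le_iff₀ hr] at h4
    have h6 : r⁻¹ • (x - y) - (1 / (2 ^ k * r)) • (2 : ℝ) ^ k • (x - ω) = r⁻¹ • (ω - y) := by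
      rw [smul_smul]
      have : 1 / (2 ^ k * r) * 2 ^ k = r⁻¹ := by field_simp
      rw [this, ← smul_sub]
      congr 1
      abel
    rw [h6, norm_smul, Real.norm_eq_abs, abs_of_pos (by positivity), inv_mul_le_iff₀ hr] at h5
    exact ⟨h3, by linarith, by linarith⟩
  · intro x z
    obtain ⟨f, hf⟩ : ∃ f : E3 → ℝ, f = fun z => (cy y r x - cy y r z) ^ 2 / 2 * psi l k (x - z) :=
      ⟨_, rfl⟩
    have hn := hnewt f ?_ ?_
    · have h1 := hn.1 z
      rw [hf] at h1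
      simp only at h1
      rw [h1, ← integral_const_mul]
      congr 1
      funext ω
      show _ = m * lb G (q x ω) / _
      rw [← hlap x ω]
      ring
    · rw [hf]
      exact (hfs x).1
    · rw [hf]
      exact (hfs x).2
  · intro x
    obtain ⟨f, hf⟩ : ∃ f : E3 → ℝ, f = fun z => (cy y r x - cy y r z) ^ 2 / 2 * psi l k (x - z) :=
      ⟨_, rfl⟩
    have hn := hnewt f ?_ ?_
    · have h1 := hn.2
      rw [hf] at h1
      have h2 : ∀ ω, m * lb G (q x ω) = -c⁻¹ *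
          lap (fun z => (cy y r x - cy y r z) ^ 2 / 2 * psi l k (x - z)) ω :=
        fun ω => (hlap x ω).symm
      simp only [h2]
      rw [integral_const_mul, h1, mul_zero]
    · rw [hf]
      exact (hfs x).1
    · rw [hf]
      exact (hfs x).2

end Pool.Agent.Helper780_CP.RK3
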