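import Pool.Agent.Helper780_CP.LLDefs2

set_option autoImplicit false

open MeasureTheory

namespace Pool.Agent.Helper780_CP.RTCI

open Pool.Agent.Helper780_CP
open Pool.Agent.Helper985.CP

open Pool.Agent.Helper985.CP

namespace Aux

theorem locInt_inv2 : LocallyIntegrable (fun w : E3 => ‖w‖⁻¹ ^ 2) volume := by
  intro x
  refine ⟨Metric.ball 0 (‖x‖ + 1), Metric.isOpen_ball.mem_nhds (by simp), ?_⟩
  set R : ℝ := ‖x‖ + 1 with hR
  have hRpos : 0 < R := by positivity
  have key : Integrable (fun w : E3 => (Set.Iio R).indicator (fun r : ℝ => r⁻¹ ^ 2) ‖w‖)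
      volume := by
    rw [integrable_fun_norm_addHaar (μ := (volume : Measure E3))
      (f := (Set.Iio R).indicator (fun r : ℝ => r⁻¹ ^ 2))]
    have hd : Module.finrank ℝ E3 - 1 = 2 := by simp
    rw [hd]
    have h1 : IntegrableOn (fun y : ℝ => (Set.Iio R).indicator (fun _ : ℝ => (1 : ℝ)) y)
        (Set.Ioi 0) := by
      rw [IntegrableOn, integrable_indicator_iff measurableSet_Iio, IntegrableOn,
        Measure.restrict_restrict measurableSet_Iio]
      have : Set.Iio R ∩ Set.Ioi 0 = Set.Ioo 0 R := by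
        ext t; simp [and_comm]
      rw [this]
      exact (continuous_const.integrableOn_Icc (a := 0) (b := R)).mono_set Set.Ioo_subset_Icc_self
    refine h1.congr_fun ?_ measurableSet_Ioi
    intro y hy
    have hy0 : (0 : ℝ) < y := hy
    by_cases hyR : y < R
    · simp only [Set.indicator, Set.mem_Iio, hyR, if_true, smul_eq_mul]
      field_simp
    · simp [Set.indicator, hyR]
  have h2 : Integrable ((Metric.ball (0 : E3) R).indicator (fun w : E3 => ‖w‖⁻¹ ^ 2)) volume := by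
    refine key.congr (Filter.Eventually.of_forall fun w => ?_)
    by_cases hw : ‖w‖ < R
    · simp [Set.indicator, hw]
    · simp [Set.indicator, hw]
  exact (integrable_indicator_iff Metric.isOpen_ball.measurableSet).1 h2

theorem int_one {I : Type} [Fintype I] [DecidableEq I] (i : I) (w : E3 → ℝ)
    (hw : LocallyIntegrable w volume) (u : (I → E3) → ℝ) (hu : Continuous u)
    (huc : HasCompactSupport u) : Integrable (fun x => w (x i) * u x) := by
  obtain ⟨R, hR⟩ := (huc.isCompact.isBounded).subset_closedBall (0 : I → E3)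
  obtain ⟨C, hC⟩ := huc.exists_bound_of_continuous hu
  have hC0 : 0 ≤ C := (norm_nonneg _).trans (hC 0)
  let f : I → E3 → ℝ := fun j => if j = i then
    (Metric.closedBall (0 : E3) R).indicator w else
    (Metric.closedBall (0 : E3) R).indicator (fun _ => (1 : ℝ))
  have hf : ∀ j, Integrable (f j) volume := by
    intro j
    by_cases hj : j = i
    · simp only [f, if_pos hj]
      exact (integrable_indicator_iff Metric.isClosed_closedBall.measurableSet).2
        ((locallyIntegrable_iff.1 hw) _ (isCompact_closedBall 0 R))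
    · simp only [f, if_neg hj]
      refine (integrable_indicator_iff Metric.isClosed_closedBall.measurableSet).2 ?_
      exact integrableOn_const (by
        exact (measure_closedBall_lt_top (μ := (volume : Measure E3))).ne)
  have hprod : Integrable (fun x : I → E3 => ∏ j, f j (x j)) volume :=
    Integrable.fintype_prod (fun j => hf j)
  have hmeas : AEStronglyMeasurable (fun x : I → E3 => w (x i) * u x) volume := by
    have h1 : AEStronglyMeasurable (fun x : I → E3 => w (x i)) volume := by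
      have := hw.aestronglyMeasurable
      exact this.comp_quasiMeasurePreserving (Measure.quasiMeasurePreserving_eval _ i)
    exact h1.mul hu.aestronglyMeasurable
  refine (hprod.const_mul C).mono hmeas (Filter.Eventually.of_forall fun x => ?_)
  by_cases hx : x ∈ tsupport u
  · have hxb := hR hx
    rw [mem_closedBall_zero_iff] at hxb
    have hxj : ∀ j, x j ∈ Metric.closedBall (0 : E3) R := by
      intro j
      rw [mem_closedBall_zero_iff]
      exact (norm_le_pi_norm x j).trans hxb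
    have hpr : ∏ j, f j (x j) = w (x i) := by
      rw [Finset.prod_eq_single i]
      · simp only [f, if_true]
        rw [Set.indicator_of_mem (hxj i)]
      · intro j _ hj
        simp only [f, if_neg hj]
        rw [Set.indicator_of_mem (hxj j)]
      · intro h
        exact absurd (Finset.mem_univ i) h
    rw [hpr, norm_mul, norm_mul, mul_comm, Real.norm_of_nonneg hC0]
    exact mul_le_mul_of_nonneg_right (hC x) (norm_nonneg _)
  · have : u x = 0 := image_eq_zero_of_notMem_tsupport hx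
    rw [this, mul_zero, norm_zero]
    exact norm_nonneg _

noncomputable def kk (z : E3) : ℝ := (Metric.ball (0 : E3) 1).indicator (fun z => ‖z‖⁻¹ ^ 2) z

theorem kk_int : Integrable kk := by
  unfold kk
  refine (integrable_indicator_iff Metric.isOpen_ball.measurableSet).2 ?_
  exact (locInt_inv2.integrableOn_isCompact (isCompact_closedBall 0 1)).mono_set
    Metric.ball_subset_closedBall

theorem kk_nonneg (z : E3) : 0 ≤ kk z := Set.indicator_nonneg (fun _ _ => by positivity) z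

theorem kk_meas : Measurable kk := by
  unfold kk
  exact (by fun_prop : Measurable (fun z : E3 => ‖z‖⁻¹ ^ 2)).indicator
    Metric.isOpen_ball.measurableSet

theorem near2_le_kk {I : Type} [Fintype I] (y : E3) (x : I → E3) :
    near2 y x ≤ 1 + ∑ i, kk (x i - y) := by
  have hnn : 0 ≤ ∑ i, kk (x i - y) := Finset.sum_nonneg fun i _ => kk_nonneg _
  unfold near2
  refine Real.iSup_le (fun i => ?_) (by linarith)
  by_cases h : ‖x i - y‖ < 1
  · have h1 : kk (x i - y) = ‖x i - y‖⁻¹ ^ 2 := by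
      unfold kk
      rw [Set.indicator_of_mem]
      simpa using h
    have h2 := Finset.single_le_sum (f := fun i => kk (x i - y)) (fun j _ => kk_nonneg _)
      (Finset.mem_univ i)
    rw [h1] at h2
    linarith
  · rw [not_lt] at h
    have h1 : ‖x i - y‖⁻¹ ≤ 1 := inv_le_one_of_one_le₀ h
    have h2 : ‖x i - y‖⁻¹ ^ 2 ≤ 1 := pow_le_one₀ (by positivity) h1
    linarith

theorem near2_meas2 {I : Type} [Fintype I] :
    Measurable (fun q : (I → E3) × E3 => near2 q.2 q.1) := by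
  unfold near2
  refine Measurable.iSup fun i => ?_
  have h1 : Measurable (fun q : (I → E3) × E3 => q.1 i) :=
    (measurable_pi_apply i).comp measurable_fst
  have h2 : Measurable (fun q : (I → E3) × E3 => ‖q.1 i - q.2‖) := (h1.sub measurable_snd).norm
  exact (h2.inv).pow_const 2

theorem kk_prod {I : Type} [Fintype I] (f : (I → E3) → ℝ) (hf : Integrable f)
    (hfm : Measurable f) (i : I) :
    Integrable (fun q : (I → E3) × E3 => kk (q.1 i - q.2) * f q.1)
      ((volume : Measure (I → E3)).prod (volume : Measure E3)) := by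
  have h1 : Measurable (fun q : (I → E3) × E3 => kk (q.1 i - q.2) * f q.1) :=
    (kk_meas.comp (((measurable_pi_apply i).comp measurable_fst).sub measurable_snd)).mul
      (hfm.comp measurable_fst)
  refine (integrable_prod_iff h1.aestronglyMeasurable).2 ⟨?_, ?_⟩
  · refine Filter.Eventually.of_forall fun x => ?_
    exact (kk_int.comp_sub_left (x i)).mul_const (f x)
  · have h2 : ∀ x : I → E3, ∫ y, ‖kk (x i - y) * f x‖ = (∫ z, kk z) * ‖f x‖ := by
      intro x
      have : ∀ y, ‖kk (x i - y) * f x‖ = kk (x i - y) * ‖f x‖ := by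
        intro y
        rw [norm_mul, Real.norm_of_nonneg (kk_nonneg _)]
      simp only [this]
      rw [integral_mul_const, integral_sub_left_eq_self (fun z => kk z) volume (x i)]
    simp only [h2]
    exact hf.norm.const_mul _


theorem near2_nonneg {I : Type} [Fintype I] (y : E3) (x : I → E3) : 0 ≤ near2 y x := by
  unfold near2
  exact Real.iSup_nonneg fun i => by positivity

/-- the dominating weight -/
noncomputable def dm {I : Type} [Fintype I] (ω : E3) (x : I → E3) : ℝ := 1 + ∑ i, kk (x i - ω)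

theorem dm_ge {I : Type} [Fintype I] (ω : E3) (x : I → E3) : 1 ≤ dm ω x := by
  have : 0 ≤ ∑ i, kk (x i - ω) := Finset.sum_nonneg fun i _ => kk_nonneg _
  unfold dm; linarith

theorem inv_le_dm {I : Type} [Fintype I] (ω : E3) (x : I → E3) (i : I) :
    1 / ‖x i - ω‖ ≤ dm ω x := by
  have h1 := Finset.single_le_sum (f := fun i => kk (x i - ω)) (fun j _ => kk_nonneg _)
      (Finset.mem_univ i)
  have hnn : 0 ≤ ∑ i, kk (x i - ω) := Finset.sum_nonneg fun i _ => kk_nonneg _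
  unfold dm
  by_cases h : ‖x i - ω‖ < 1
  · have h2 : kk (x i - ω) = ‖x i - ω‖⁻¹ ^ 2 := by
      unfold kk
      rw [Set.indicator_of_mem]
      simpa using h
    rw [h2] at h1
    rw [one_div]
    nlinarith [sq_nonneg (‖x i - ω‖⁻¹ - 1), inv_nonneg.2 (norm_nonneg (x i - ω))]
  · rw [not_lt] at h
    have h2 : ‖x i - ω‖⁻¹ ≤ 1 := inv_le_one_of_one_le₀ h
    rw [one_div]
    linarith

theorem phi_le {S : Type} (D : Species S) {I : Type} [Fintype I] (sp : I → S) (ω : E3)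
    (x : I → E3) : |phi D sp ω x| ≤ (∑ i, |D.charge (sp i)|) * dm ω x := by
  unfold phi
  refine (Finset.abs_sum_le_sum_abs _ _).trans ?_
  rw [Finset.sum_mul]
  refine Finset.sum_le_sum fun i _ => ?_
  rw [abs_mul, abs_of_nonneg (by positivity : 0 ≤ 1 / ‖x i - ω‖)]
  exact mul_le_mul_of_nonneg_left (inv_le_dm ω x i) (abs_nonneg _)

theorem phi_meas {S : Type} (D : Species S) {I : Type} [Fintype I] (sp : I → S) :
    Measurable (fun q : (I → E3) × E3 => phi D sp q.2 q.1) := by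
  unfold phi
  refine Finset.measurable_sum _ fun i _ => ?_
  refine measurable_const.mul (measurable_const.div ?_)
  exact (((measurable_pi_apply i).comp measurable_fst).sub measurable_snd).norm

/-- integrability at a fixed point -/
theorem dom1 {I : Type} [Fintype I] [DecidableEq I] (u : (I → E3) → ℝ) (hu : Continuous u)
    (huc : HasCompactSupport u) (hu0 : ∀ x, 0 ≤ u x) (ω : E3) (W : (I → E3) → ℝ)
    (hW : Measurable W) (K : ℝ) (hK : ∀ x, |W x| * u x ≤ K * (dm ω x * u x)) :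
    Integrable (fun x => W x * u x) := by
  have h1 : ∀ i, Integrable (fun x : I → E3 => kk (x i - ω) * u x) := fun i =>
    int_one i (fun z => kk (z - ω)) ((kk_int.comp_sub_right ω).locallyIntegrable) u hu huc
  have h2 : Integrable (fun x : I → E3 => K * (u x + ∑ i, kk (x i - ω) * u x)) :=
    ((hu.integrable_of_hasCompactSupport huc).add (integrable_finsetSum _ fun i _ => h1 i)).const_mul K
  refine h2.mono' (hW.mul hu.measurable).aestronglyMeasurable (Filter.Eventually.of_forall fun x => ?_)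
  rw [norm_mul, Real.norm_eq_abs, Real.norm_of_nonneg (hu0 x)]
  refine (hK x).trans (le_of_eq ?_)
  unfold dm
  rw [add_mul, Finset.sum_mul, one_mul]

/-- joint integrability -/
theorem dom2 {I : Type} [Fintype I] [DecidableEq I] (u : (I → E3) → ℝ) (hu : Continuous u)
    (huc : HasCompactSupport u) (hu0 : ∀ x, 0 ≤ u x) (A : Set E3) (hA : MeasurableSet A)
    (hAf : volume A ≠ ⊤) (W : (I → E3) → E3 → ℝ)
    (hW : Measurable (fun q : (I → E3) × E3 => W q.1 q.2)) (K : ℝ)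
    (hK : ∀ x, ∀ ω ∈ A, |W x ω| * u x ≤ K * (dm ω x * u x)) :
    Integrable (fun q : (I → E3) × E3 => W q.1 q.2 * u q.1)
      ((volume : Measure (I → E3)).prod ((volume : Measure E3).restrict A)) := by
  have hui : Integrable u := hu.integrable_of_hasCompactSupport huc
  haveI : IsFiniteMeasure ((volume : Measure E3).restrict A) :=
    ⟨by rw [Measure.restrict_apply_univ]; exact lt_top_iff_ne_top.2 hAf⟩
  have hle : (volume : Measure (I → E3)).prod ((volume : Measure E3).restrict A) ≤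
      (volume : Measure (I → E3)).prod (volume : Measure E3) :=
    Measure.prod_mono le_rfl Measure.restrict_le_self
  have h1 : Integrable (fun q : (I → E3) × E3 => u q.1 * (1 : ℝ))
      ((volume : Measure (I → E3)).prod ((volume : Measure E3).restrict A)) :=
    hui.mul_prod (integrable_const (1 : ℝ))
  have h2 : Integrable (fun q : (I → E3) × E3 => K * (u q.1 * (1 : ℝ) +
      ∑ i, kk (q.1 i - q.2) * u q.1))
      ((volume : Measure (I → E3)).prod ((volume : Measure E3).restrict A)) := by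
    refine (h1.add (integrable_finsetSum _ fun i _ => ?_)).const_mul K
    exact (kk_prod u hui hu.measurable i).mono_measure hle
  refine h2.mono' ?_ ?_
  · exact (hW.mul (hu.measurable.comp measurable_fst)).aestronglyMeasurable
  · have h3 : ∀ᵐ q ∂((volume : Measure (I → E3)).prod ((volume : Measure E3).restrict A)),
        q.2 ∈ A := by
      have := (Measure.quasiMeasurePreserving_snd (μ := (volume : Measure (I → E3)))
        (ν := (volume : Measure E3).restrict A)).ae (ae_restrict_mem hA)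
      exact this
    filter_upwards [h3] with q hq
    rw [norm_mul, Real.norm_eq_abs, Real.norm_of_nonneg (hu0 q.1)]
    refine (hK q.1 q.2 hq).trans (le_of_eq ?_)
    unfold dm
    rw [add_mul, Finset.sum_mul, one_mul, mul_one]

/-- Fubini -/
theorem fub {S : Type} (D : Species S) {I : Type} [Fintype I] [DecidableEq I] (Ψ : Wave D I)
    (A : Set E3) (W : (I → E3) → E3 → ℝ)
    (hW : ∀ τ, Integrable (fun q : (I → E3) × E3 => W q.1 q.2 * ‖Ψ τ q.1‖ ^ 2)
      ((volume : Measure (I → E3)).prod ((volume : Measure E3).restrict A))) :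
    Integrable (fun ω => wm D (fun x => W x ω) Ψ) (volume.restrict A) ∧
    wm D (fun x => ∫ ω in A, W x ω) Ψ = ∫ ω in A, wm D (fun x => W x ω) Ψ := by
  unfold wm
  refine ⟨integrable_finsetSum _ fun τ _ => (hW τ).integral_prod_right, ?_⟩
  rw [integral_finsetSum _ fun τ _ => (hW τ).integral_prod_right]
  refine Finset.sum_congr rfl fun τ _ => ?_
  rw [← integral_integral_swap (f := fun (x : I → E3) (ω : E3) => W x ω * ‖Ψ τ x‖ ^ 2) (hW τ)]
  refine integral_congr_ae (Filter.Eventually.of_forall fun x => ?_)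
  show (∫ ω in A, W x ω) * ‖Ψ τ x‖ ^ 2 = ∫ ω in A, W x ω * ‖Ψ τ x‖ ^ 2
  rw [integral_mul_const]

theorem pb_bound {S : Type} (D : Species S) {I : Type} [Fintype I] [DecidableEq I]
    (pb : (I → E3) → ℝ) (hpb : Continuous pb) (Ψ : Wave D I)
    (hPs : ∀ τ, HasCompactSupport (fun x => ‖Ψ τ x‖ ^ 2)) :
    ∃ Kp : ℝ, 0 ≤ Kp ∧ ∀ τ x, |pb x| * ‖Ψ τ x‖ ^ 2 ≤ Kp * ‖Ψ τ x‖ ^ 2 := by
  have hP0 : ∀ τ x, 0 ≤ ‖Ψ τ x‖ ^ 2 := fun τ x => by positivity
  have h1 : ∀ τ, ∃ K : ℝ, 0 ≤ K ∧ ∀ x, |pb x| * ‖Ψ τ x‖ ^ 2 ≤ K * ‖Ψ τ x‖ ^ 2 := by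
    intro τ
    obtain ⟨u, hu⟩ : ∃ u : (I → E3) → ℝ, u = fun x => ‖Ψ τ x‖ ^ 2 := ⟨_, rfl⟩
    have hs : HasCompactSupport u := by rw [hu]; exact hPs τ
    obtain ⟨K, hK⟩ := hs.isCompact.exists_bound_of_continuousOn (f := pb) hpb.continuousOn
    refine ⟨max K 0, le_max_right _ _, fun x => ?_⟩
    by_cases hx : x ∈ tsupport u
    · have := hK x hx
      rw [Real.norm_eq_abs] at this
      exact mul_le_mul_of_nonneg_right (this.trans (le_max_left _ _)) (hP0 τ x)
    · have h2 : u x = 0 := image_eq_zero_of_notMem_tsupport hx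
      have h3 : ‖Ψ τ x‖ ^ 2 = 0 := by rw [hu] at h2; exact h2
      rw [h3]; simp
  choose K hK0 hK using h1
  refine ⟨∑ τ, K τ, Finset.sum_nonneg fun τ _ => hK0 τ, fun τ x => (hK τ x).trans ?_⟩
  exact mul_le_mul_of_nonneg_right (Finset.single_le_sum (fun τ _ => hK0 τ)
    (Finset.mem_univ τ)) (hP0 τ x)

theorem diff_bound (c Kp a b d u : ℝ) (h2 : |a| ≤ c * d) (h3 : |b| * u ≤ Kp * u)
    (h4 : 1 ≤ d) (h5 : 0 ≤ u) (hKp0 : 0 ≤ Kp) :
    |a - b| * u ≤ (c + Kp) * (d * u) := by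
  have h1 : |a - b| ≤ |a| + |b| := abs_sub _ _
  have h6 : Kp * u ≤ Kp * (d * u) :=
    mul_le_mul_of_nonneg_left (le_mul_of_one_le_left h5 h4) hKp0
  calc |a - b| * u ≤ (|a| + |b|) * u :=
        mul_le_mul_of_nonneg_right h1 h5
    _ = |a| * u + |b| * u := by ring
    _ ≤ (c * d) * u + Kp * u :=
        add_le_add (mul_le_mul_of_nonneg_right h2 h5) h3
    _ ≤ (c * d) * u + Kp * (d * u) := by linarith
    _ = _ := by ring

theorem F_bound (a b B : ℝ) (h5 : |a| ≤ B) (h6 : |b| ≤ B) : |a ^ 2 - b ^ 2| ≤ B ^ 2 := by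
  have h1 : a ^ 2 ≤ B ^ 2 := sq_le_sq' (by linarith [(abs_le.1 h5).1]) (abs_le.1 h5).2
  have h2 : b ^ 2 ≤ B ^ 2 := sq_le_sq' (by linarith [(abs_le.1 h6).1]) (abs_le.1 h6).2
  rw [abs_le]
  constructor
  · linarith [sq_nonneg a, sq_nonneg b]
  · linarith [sq_nonneg a, sq_nonneg b]

theorem G_bound (g g' n d M : ℝ) (j2 : 0 ≤ g) (j4 : g ≤ M) (j5 : g' ≤ M) (j1 : 0 ≤ 1 + n)
    (j7 : 1 + n ≤ 2 * d) (j6 : 1 ≤ d) : g * (1 + n) + g' ≤ M * 3 * d := by
  have hM0 : 0 ≤ M := j2.trans j4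
  have j8 : g * (1 + n) ≤ M * (2 * d) := mul_le_mul j4 j7 j1 hM0
  have j9 : M ≤ M * d := le_mul_of_one_le_right hM0 j6
  linarith

/-- the basic facts on `u = ‖Ψ τ‖²` -/
structure Ok {I : Type} [Fintype I] [DecidableEq I] (u : (I → E3) → ℝ) : Prop where
  c : Continuous u
  s : HasCompactSupport u
  n : ∀ x, 0 ≤ u x

theorem m_sec {X Y : Type} [MeasurableSpace X] [MeasurableSpace Y] (f : X → Y → ℝ)
    (hf : Measurable (fun q : X × Y => f q.1 q.2)) (y : Y) : Measurable (fun x => f x y) := by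
  have h : Measurable (fun x : X => (x, y)) := measurable_id.prodMk measurable_const
  have h2 := hf.comp h
  exact h2

theorem near2_m1 {I : Type} [Fintype I] (ω : E3) : Measurable (near2 (I := I) ω) :=
  m_sec (fun (x : I → E3) (ω : E3) => near2 ω x) near2_meas2 ω

theorem phi_m1 {S : Type} (D : Species S) {I : Type} [Fintype I] (sp : I → S) (ω : E3) :
    Measurable (phi D sp ω) :=
  m_sec (fun (x : I → E3) (ω : E3) => phi D sp ω x) (phi_meas D sp) ω

theorem near2_dm {I : Type} [Fintype I] (ω : E3) (x : I → E3) : 1 + near2 ω x ≤ 2 * dm ω x := by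
  have h1 := near2_le_kk ω x
  have h2 := dm_ge ω x
  unfold dm at *
  linarith

theorem I1 {S : Type} (D : Species S) {I : Type} [Fintype I] [DecidableEq I] (sp : I → S)
    (u : (I → E3) → ℝ) (hu : Ok u) (ω : E3) (pb : (I → E3) → ℝ) (hpb : Continuous pb) (L : ℝ)
    (hL : ∀ x, |phi D sp ω x - pb x| * u x ≤ L * (dm ω x * u x))
    (g : (I → E3) → ℝ) (hg : Measurable g) (K : ℝ) (hK : ∀ x, |g x| ≤ K) :
    Integrable (fun x => (g x * (phi D sp ω x - pb x)) * u x) := by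
  have hK0 : 0 ≤ K := (abs_nonneg _).trans (hK 0)
  refine dom1 _ hu.c hu.s hu.n ω _ (hg.mul ((phi_m1 D sp ω).sub hpb.measurable))
    (K * L) fun x => ?_
  rw [abs_mul, mul_assoc, mul_assoc]
  exact mul_le_mul (hK x) (hL x) (mul_nonneg (abs_nonneg _) (hu.n x)) hK0

theorem I2 {I : Type} [Fintype I] [DecidableEq I]
    (u : (I → E3) → ℝ) (hu : Ok u) (ω : E3)
    (g : (I → E3) → ℝ) (hg : Measurable g) (K : ℝ) (hK : ∀ x, |g x| ≤ K) :
    Integrable (fun x => (g x * (1 + near2 ω x)) * u x) := by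
  have hK0 : 0 ≤ K := (abs_nonneg _).trans (hK 0)
  refine dom1 _ hu.c hu.s hu.n ω _ (hg.mul (measurable_const.add (near2_m1 ω)))
    (K * 2) fun x => ?_
  have h1 : 0 ≤ 1 + near2 ω x := by linarith [near2_nonneg ω x]
  rw [abs_mul, abs_of_nonneg h1, mul_assoc, mul_assoc]
  refine mul_le_mul (hK x) ?_ (mul_nonneg h1 (hu.n x)) hK0
  rw [← mul_assoc]
  exact mul_le_mul_of_nonneg_right (near2_dm ω x) (hu.n x)

theorem I3 {I : Type} [Fintype I] [DecidableEq I]
    (u : (I → E3) → ℝ) (hu : Ok u)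
    (g : (I → E3) → ℝ) (hg : Measurable g) (K : ℝ) (hK : ∀ x, |g x| ≤ K) :
    Integrable (fun x => g x * u x) := by
  have hK0 : 0 ≤ K := (abs_nonneg _).trans (hK 0)
  refine dom1 _ hu.c hu.s hu.n 0 _ hg K fun x => ?_
  refine mul_le_mul (hK x) ?_ (hu.n x) hK0
  exact le_mul_of_one_le_left (hu.n x) (dm_ge 0 x)

theorem gr_nonneg {I : Type} [Fintype I] [DecidableEq I] (f : (I → E3) → ℝ) (x : I → E3) :
    0 ≤ gr f x := by
  unfold gr
  exact Finset.sum_nonneg fun i _ => Finset.sum_nonneg fun k _ => sq_nonneg _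

theorem gr_meas {I : Type} [Fintype I] [DecidableEq I] (f : (I → E3) → ℝ) (hf : ContDiff ℝ SM f) :
    Measurable (gr f) := by
  have hc1 : Continuous (fderiv ℝ f) := hf.continuous_fderiv (by simp [SM])
  unfold gr
  refine Continuous.measurable ?_
  refine continuous_finsetSum _ fun i _ => continuous_finsetSum _ fun k _ => ?_
  exact (hc1.clm_apply continuous_const).pow 2

/-- the integral inequality at a point, one component -/
theorem comp_le {I : Type} [Fintype I] [DecidableEq I]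
    (u : (I → E3) → ℝ) (hu : Ok u) (ω : E3) (f₁ f₂ g g' : (I → E3) → ℝ)
    (h1 : ContDiff ℝ SM f₁) (h2 : ContDiff ℝ SM f₂) (B M : ℝ)
    (h5 : ∀ x, |f₁ x| ≤ B) (h6 : ∀ x, |f₂ x| ≤ B)
    (h8 : ∀ x, f₁ x ^ 2 + f₂ x ^ 2 ≤ g x) (h9 : ∀ x, gr f₁ x + gr f₂ x ≤ g' x)
    (hg : Measurable g) (hg' : Measurable g') (hM : ∀ x, g x ≤ M) (hM' : ∀ x, g' x ≤ M) :
    (∫ x, f₁ x ^ 2 * (1 + near2 ω x) * u x) + (∫ x, gr f₁ x * u x) +
      ((∫ x, f₂ x ^ 2 * (1 + near2 ω x) * u x) + (∫ x, gr f₂ x * u x)) ≤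
      ∫ x, (g x * (1 + near2 ω x) + g' x) * u x := by
  have hsq : ∀ f : (I → E3) → ℝ, (∀ x, |f x| ≤ B) → ∀ x, |f x ^ 2| ≤ B ^ 2 := by
    intro f hf x
    rw [abs_of_nonneg (sq_nonneg _)]
    exact sq_le_sq' (by linarith [(abs_le.1 (hf x)).1]) (abs_le.1 (hf x)).2
  have m1 : Measurable (fun x => f₁ x ^ 2) := (h1.continuous.pow 2).measurable
  have m2 : Measurable (fun x => f₂ x ^ 2) := (h2.continuous.pow 2).measurable
  have g1 : ∀ x, 0 ≤ g x := fun x => (add_nonneg (sq_nonneg _) (sq_nonneg _)).trans (h8 x)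
  have g2 : ∀ x, 0 ≤ g' x := fun x => (add_nonneg (gr_nonneg f₁ x) (gr_nonneg f₂ x)).trans (h9 x)
  have i1 := I2 u hu ω _ m1 (B ^ 2) (hsq f₁ h5)
  have i2 := I2 u hu ω _ m2 (B ^ 2) (hsq f₂ h6)
  have i3 := I3 u hu _ (gr_meas f₁ h1) M (fun x => by
    rw [abs_of_nonneg (gr_nonneg _ x)]
    linarith [h9 x, gr_nonneg f₂ x, hM' x])
  have i4 := I3 u hu _ (gr_meas f₂ h2) M (fun x => by
    rw [abs_of_nonneg (gr_nonneg _ x)]
    linarith [h9 x, gr_nonneg f₁ x, hM' x])
  have i5 := I2 u hu ω _ hg M (fun x => by rw [abs_of_nonneg (g1 x)]; exact hM x)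
  have i6 := I3 u hu _ hg' M (fun x => by rw [abs_of_nonneg (g2 x)]; exact hM' x)
  have s1 := integral_add i1 i3
  have s2 := integral_add i2 i4
  have s3 := integral_add (i1.add i3) (i2.add i4)
  simp only [Pi.add_apply] at s1 s2 s3
  rw [← s1, ← s2, ← s3]
  refine integral_mono ((i1.add i3).add (i2.add i4)) ?_ fun x => ?_
  · refine (i5.add i6).congr (Filter.Eventually.of_forall fun x => ?_)
    show g x * (1 + near2 ω x) * u x + g' x * u x = (g x * (1 + near2 ω x) + g' x) * u x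
    ring
  · show f₁ x ^ 2 * (1 + near2 ω x) * u x + gr f₁ x * u x +
      (f₂ x ^ 2 * (1 + near2 ω x) * u x + gr f₂ x * u x) ≤
      (g x * (1 + near2 ω x) + g' x) * u x
    have j1 : 0 ≤ 1 + near2 ω x := by linarith [near2_nonneg ω x]
    have j2 : (f₁ x ^ 2 + f₂ x ^ 2) * (1 + near2 ω x) ≤ g x * (1 + near2 ω x) :=
      mul_le_mul_of_nonneg_right (h8 x) j1
    have j3 : (f₁ x ^ 2 + f₂ x ^ 2) * (1 + near2 ω x) + (gr f₁ x + gr f₂ x) ≤
        g x * (1 + near2 ω x) + g' x := add_le_add j2 (h9 x)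
    calc _ = ((f₁ x ^ 2 + f₂ x ^ 2) * (1 + near2 ω x) + (gr f₁ x + gr f₂ x)) *
          u x := by ring
      _ ≤ _ := mul_le_mul_of_nonneg_right j3 (hu.n x)

/-- the difference at a point, one component -/
theorem comp_eq {S : Type} (D : Species S) {I : Type} [Fintype I] [DecidableEq I] (sp : I → S)
    (u : (I → E3) → ℝ) (hu : Ok u) (ω : E3) (pb : (I → E3) → ℝ) (hpb : Continuous pb) (L : ℝ)
    (hL : ∀ x, |phi D sp ω x - pb x| * u x ≤ L * (dm ω x * u x)) (f₁ f₂ F : (I → E3) → ℝ)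
    (h1 : ContDiff ℝ SM f₁) (h2 : ContDiff ℝ SM f₂) (B : ℝ)
    (h5 : ∀ x, |f₁ x| ≤ B) (h6 : ∀ x, |f₂ x| ≤ B) (h7 : ∀ x, f₁ x ^ 2 - f₂ x ^ 2 = F x) :
    ∫ x, (F x * (phi D sp ω x - pb x)) * u x =
      (∫ x, (f₁ x ^ 2 * (phi D sp ω x - pb x)) * u x) -
      (∫ x, (f₂ x ^ 2 * (phi D sp ω x - pb x)) * u x) := by
  have hsq : ∀ f : (I → E3) → ℝ, (∀ x, |f x| ≤ B) → ∀ x, |f x ^ 2| ≤ B ^ 2 := by
    intro f hf x
    rw [abs_of_nonneg (sq_nonneg _)]
    exact sq_le_sq' (by linarith [(abs_le.1 (hf x)).1]) (abs_le.1 (hf x)).2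
  have m1 : Measurable (fun x => f₁ x ^ 2) := (h1.continuous.pow 2).measurable
  have m2 : Measurable (fun x => f₂ x ^ 2) := (h2.continuous.pow 2).measurable
  rw [← integral_sub (I1 D sp u hu ω pb hpb L hL _ m1 _ (hsq f₁ h5))
    (I1 D sp u hu ω pb hpb L hL _ m2 _ (hsq f₂ h6))]
  refine integral_congr_ae (Filter.Eventually.of_forall fun x => ?_)
  show F x * (phi D sp ω x - pb x) * u x = f₁ x ^ 2 * (phi D sp ω x - pb x) * u x -
    f₂ x ^ 2 * (phi D sp ω x - pb x) * u x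
  rw [← h7 x]; ring

theorem J1 {S : Type} (D : Species S) {I : Type} [Fintype I] [DecidableEq I] (sp : I → S)
    (u : (I → E3) → ℝ) (hu : Ok u) (pb : (I → E3) → ℝ) (hpb : Continuous pb) (L : ℝ)
    (A : Set E3) (hA : MeasurableSet A) (hAf : volume A ≠ ⊤)
    (hL : ∀ ω x, |phi D sp ω x - pb x| * u x ≤ L * (dm ω x * u x)) (F : (I → E3) → E3 → ℝ)
    (hF : Measurable (fun p : (I → E3) × E3 => F p.1 p.2)) (K : ℝ)
    (hK0 : 0 ≤ K) (hK : ∀ x, ∀ ω ∈ A, |F x ω| ≤ K) :
    Integrable (fun q : (I → E3) × E3 =>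
      (F q.1 q.2 * (phi D sp q.2 q.1 - pb q.1)) * u q.1)
      ((volume : Measure (I → E3)).prod ((volume : Measure E3).restrict A)) := by
  refine dom2 _ hu.c hu.s hu.n A hA hAf
    (fun x ω => F x ω * (phi D sp ω x - pb x))
    (hF.mul ((phi_meas D sp).sub (hpb.measurable.comp measurable_fst)))
    (K * L) fun x ω hω => ?_
  rw [abs_mul, mul_assoc, mul_assoc]
  exact mul_le_mul (hK x ω hω) (hL ω x) (mul_nonneg (abs_nonneg _) (hu.n x)) hK0

theorem J2 {I : Type} [Fintype I] [DecidableEq I]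
    (u : (I → E3) → ℝ) (hu : Ok u)
    (A : Set E3) (hA : MeasurableSet A) (hAf : volume A ≠ ⊤)
    (G G' : (I → E3) → E3 → ℝ)
    (hG : Measurable (fun p : (I → E3) × E3 => G p.1 p.2))
    (hG' : Measurable (fun p : (I → E3) × E3 => G' p.1 p.2)) (M : ℝ)
    (h0 : ∀ x, ∀ ω ∈ A, 0 ≤ G x ω) (h0' : ∀ x, ∀ ω ∈ A, 0 ≤ G' x ω)
    (hM : ∀ x, ∀ ω ∈ A, G x ω ≤ M ∧ G' x ω ≤ M) :
    Integrable (fun q : (I → E3) × E3 =>
      (G q.1 q.2 * (1 + near2 q.2 q.1) + G' q.1 q.2) * u q.1)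
      ((volume : Measure (I → E3)).prod ((volume : Measure E3).restrict A)) := by
  refine dom2 _ hu.c hu.s hu.n A hA hAf
    (fun x ω => G x ω * (1 + near2 ω x) + G' x ω)
    ((hG.mul (measurable_const.add near2_meas2)).add hG')
    (M * 3) fun x ω hω => ?_
  have j1 : 0 ≤ 1 + near2 ω x := by linarith [near2_nonneg ω x]
  have j2 := h0 x ω hω
  have j3 := h0' x ω hω
  obtain ⟨j4, j5⟩ := hM x ω hω
  rw [abs_of_nonneg (add_nonneg (mul_nonneg j2 j1) j3), ← mul_assoc]
  refine mul_le_mul_of_nonneg_right ?_ (hu.n x)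
  exact G_bound _ _ _ _ _ j2 j4 j5 j1 (near2_dm ω x) (dm_ge ω x)

end Aux

open Aux

/-- TARGET -/
theorem tci {S : Type} (D : Species S) {I : Type} [Fintype I] [DecidableEq I] (sp : I → S) (ℓ : ℝ)
    (pb : (I → E3) → ℝ) (hpb : Continuous pb) (C η : ℝ) (hC : 0 ≤ C) (hη : 0 ≤ η) (Ψ : Wave D I)
    (hΨ : IsState D sp ℓ Ψ) (hn : nrm2 D Ψ = 1) (hFL : FL D sp ℓ pb C η Ψ)
    (r : ℝ) (hr : 0 < r) (hr1 : r ≤ 1) (A : Set E3) (hA : MeasurableSet A)
    (hAb : ∃ R, A ⊆ Metric.closedBall 0 R) (hAc : ∀ ω ∈ A, Metric.closedBall ω r ⊆ cube ℓ)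
    (F G G' : (I → E3) → E3 → ℝ) (B M : ℝ)
    (hF : Measurable (fun p : (I → E3) × E3 => F p.1 p.2))
    (hG : Measurable (fun p : (I → E3) × E3 => G p.1 p.2))
    (hG' : Measurable (fun p : (I → E3) × E3 => G' p.1 p.2))
    (hM : ∀ x, ∀ ω ∈ A, G x ω ≤ M ∧ G' x ω ≤ M)
    (h : ∀ ω ∈ A, ∃ f₁ f₂ : (I → E3) → ℝ, ContDiff ℝ SM f₁ ∧ ContDiff ℝ SM f₂ ∧ Sy sp f₁ ∧
      Sy sp f₂ ∧ (∀ x, |f₁ x| ≤ B) ∧ (∀ x, |f₂ x| ≤ B) ∧ (∀ x, f₁ x ^ 2 - f₂ x ^ 2 = F x ω) ∧
      (∀ x, f₁ x ^ 2 + f₂ x ^ 2 ≤ G x ω) ∧ (∀ x, gr f₁ x + gr f₂ x ≤ G' x ω)) :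
    |wm D (fun x => ∫ ω in A, F x ω * (phi D sp ω x - pb x)) Ψ| ≤
      C / r ^ 2 * (wm D (fun x => ∫ ω in A, (G x ω * (1 + near2 ω x) + G' x ω)) Ψ +
        2 * B ^ 2 * η * (volume A).toReal) := by
  obtain ⟨R, hR⟩ := hAb
  have hAf : volume A ≠ ⊤ :=
    ((measure_mono hR).trans_lt (measure_closedBall_lt_top (μ := (volume : Measure E3)))).ne
  have hPs : ∀ τ, HasCompactSupport (fun x => ‖Ψ τ x‖ ^ 2) := fun τ =>
    (hΨ.compact τ).comp_left (g := fun z : ℂ => ‖z‖ ^ 2) (by simp)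
  have hok : ∀ τ, Ok (fun x => ‖Ψ τ x‖ ^ 2) := fun τ =>
    ⟨((hΨ.smooth τ).continuous.norm).pow 2, hPs τ, fun x => sq_nonneg _⟩
  obtain ⟨Kp, hKp0, hKp⟩ := pb_bound D pb hpb Ψ hPs
  obtain ⟨L, hL⟩ : ∃ L : ℝ, ∀ τ ω x, |phi D sp ω x - pb x| * ‖Ψ τ x‖ ^ 2 ≤
      L * (dm ω x * ‖Ψ τ x‖ ^ 2) :=
    ⟨_, fun τ ω x => diff_bound _ Kp _ _ _ _ (phi_le D sp ω x) (hKp τ x) (dm_ge ω x)
      (sq_nonneg _) hKp0⟩
  have hGnn : ∀ x, ∀ ω ∈ A, 0 ≤ G x ω := by
    intro x ω hω
    obtain ⟨f₁, f₂, -, -, -, -, -, -, -, h8, -⟩ := h ω hω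
    exact (add_nonneg (sq_nonneg _) (sq_nonneg _)).trans (h8 x)
  have hGnn' : ∀ x, ∀ ω ∈ A, 0 ≤ G' x ω := by
    intro x ω hω
    obtain ⟨f₁, f₂, -, -, -, -, -, -, -, -, h9⟩ := h ω hω
    exact (add_nonneg (gr_nonneg f₁ x) (gr_nonneg f₂ x)).trans (h9 x)
  have hFb : ∀ x, ∀ ω ∈ A, |F x ω| ≤ B ^ 2 := by
    intro x ω hω
    obtain ⟨f₁, f₂, -, -, -, -, h5, h6, h7, -, -⟩ := h ω hω
    rw [← h7 x]
    exact F_bound _ _ _ (h5 x) (h6 x)
  have hG1 : ∀ ω, Measurable (fun x => G x ω) := fun ω => m_sec G hG ω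
  have hG1' : ∀ ω, Measurable (fun x => G' x ω) := fun ω => m_sec G' hG' ω
  -- the estimate at a point
  have hpt : ∀ ω ∈ A, |wm D (fun x => F x ω * (phi D sp ω x - pb x)) Ψ| ≤
      C / r ^ 2 * (wm D (fun x => G x ω * (1 + near2 ω x) + G' x ω) Ψ + 2 * B ^ 2 * η) := by
    intro ω hω
    obtain ⟨f₁, f₂, h1, h2, h3, h4, h5, h6, h7, h8, h9⟩ := h ω hω
    have e1 := hFL r ω f₁ B hr hr1 (hAc ω hω) h1 h3 h5
    have e2 := hFL r ω f₂ B hr hr1 (hAc ω hω) h2 h4 h6
    have e3 : wm D (fun x => F x ω * (phi D sp ω x - pb x)) Ψ =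
        wm D (fun x => f₁ x ^ 2 * (phi D sp ω x - pb x)) Ψ -
        wm D (fun x => f₂ x ^ 2 * (phi D sp ω x - pb x)) Ψ := by
      unfold wm
      rw [← Finset.sum_sub_distrib]
      exact Finset.sum_congr rfl fun τ _ =>
        comp_eq D sp _ (hok τ) ω pb hpb L (hL τ ω) f₁ f₂ _ h1 h2 B h5 h6 h7
    have e4 : wm D (fun x => f₁ x ^ 2 * (1 + near2 ω x)) Ψ + wm D (gr f₁) Ψ +
        (wm D (fun x => f₂ x ^ 2 * (1 + near2 ω x)) Ψ + wm D (gr f₂) Ψ) ≤
        wm D (fun x => G x ω * (1 + near2 ω x) + G' x ω) Ψ := by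
      unfold wm
      rw [← Finset.sum_add_distrib, ← Finset.sum_add_distrib, ← Finset.sum_add_distrib]
      exact Finset.sum_le_sum fun τ _ =>
        comp_le _ (hok τ) ω f₁ f₂ _ _ h1 h2 B M h5 h6 h8 h9 (hG1 ω) (hG1' ω)
          (fun x => (hM x ω hω).1) (fun x => (hM x ω hω).2)
    rw [e3]
    have hCr : 0 ≤ C / r ^ 2 := div_nonneg hC (sq_nonneg _)
    have e5 : wm D (fun x => f₁ x ^ 2 * (1 + near2 ω x)) Ψ + wm D (gr f₁) Ψ +
        (wm D (fun x => f₂ x ^ 2 * (1 + near2 ω x)) Ψ + wm D (gr f₂) Ψ) + 2 * B ^ 2 * η ≤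
        wm D (fun x => G x ω * (1 + near2 ω x) + G' x ω) Ψ + 2 * B ^ 2 * η := by linarith
    have e6 := mul_le_mul_of_nonneg_left e5 hCr
    have e7 := (abs_sub (wm D (fun x => f₁ x ^ 2 * (phi D sp ω x - pb x)) Ψ)
      (wm D (fun x => f₂ x ^ 2 * (phi D sp ω x - pb x)) Ψ)).trans (add_le_add e1 e2)
    refine e7.trans (le_of_eq_of_le ?_ e6)
    ring
  -- Fubini
  obtain ⟨k1, k2⟩ := fub D Ψ A (fun x ω => F x ω * (phi D sp ω x - pb x)) (fun τ =>
    J1 D sp _ (hok τ) pb hpb L A hA hAf (hL τ) F hF (B ^ 2) (sq_nonneg _) hFb)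
  obtain ⟨k3, k4⟩ := fub D Ψ A (fun x ω => G x ω * (1 + near2 ω x) + G' x ω) (fun τ =>
    J2 _ (hok τ) A hA hAf G G' hG hG' M hGnn hGnn' hM)
  rw [k2, k4]
  haveI : IsFiniteMeasure ((volume : Measure E3).restrict A) :=
    ⟨by rw [Measure.restrict_apply_univ]; exact lt_top_iff_ne_top.2 hAf⟩
  have k5 : Integrable (fun ω => C / r ^ 2 *
      (wm D (fun x => G x ω * (1 + near2 ω x) + G' x ω) Ψ + 2 * B ^ 2 * η))
      ((volume : Measure E3).restrict A) := (k3.add (integrable_const _)).const_mul _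
  calc |∫ ω in A, wm D (fun x => F x ω * (phi D sp ω x - pb x)) Ψ| ≤
        ∫ ω in A, |wm D (fun x => F x ω * (phi D sp ω x - pb x)) Ψ| := abs_integral_le_integral_abs
    _ ≤ ∫ ω in A, C / r ^ 2 *
      (wm D (fun x => G x ω * (1 + near2 ω x) + G' x ω) Ψ + 2 * B ^ 2 * η) := by
        refine setIntegral_mono_on k1.abs k5 hA fun ω hω => hpt ω hω
    _ = _ := by
        rw [integral_const_mul, integral_add k3 (integrable_const _), setIntegral_const,
          Measure.real, smul_eq_mul]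
        ring

end Pool.Agent.Helper780_CP.RTCI
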