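import Pool.Agent.Helper780_CP.LLDefs2
import Pool.Agent.Helper780_CP.RTCI
import Pool.Agent.Helper780_CP.RC3
import Pool.Agent.Helper780_CP.RK1
import Pool.Agent.Helper780_CP.RK3

set_option autoImplicit false

open MeasureTheory

namespace Pool.Agent.Helper780_CP.RQ11

open Pool.Agent.Helper780_CP
open Pool.Agent.Helper985.CP
open Pool.Agent.Helper780_CP.RTCI (tci)
open Pool.Agent.Helper780_CP.RC3 (near2_ball)
open Pool.Agent.Helper780_CP.RK1 (newt)
open Pool.Agent.Helper780_CP.RK3 (kern_e)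

open Pool.Agent.Helper985.CP

theorem ct_smooth : ContDiff ℝ SM ct := by
  unfold ct
  exact Real.smoothTransition.contDiff.comp
    ((contDiff_const.sub (contDiff_norm_sq ℝ)).div_const 3)

theorem ct_nonneg (w : E3) : 0 ≤ ct w := Real.smoothTransition.nonneg _

theorem ct_le_one (w : E3) : ct w ≤ 1 := Real.smoothTransition.le_one _

theorem ct_one {w : E3} (h : ‖w‖ ≤ 1) : ct w = 1 := by
  unfold ct
  apply Real.smoothTransition.one_of_one_le
  have : ‖w‖ ^ 2 ≤ 1 := pow_le_one₀ (norm_nonneg _) h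
  linarith

theorem ct_zero {w : E3} (h : 2 ≤ ‖w‖) : ct w = 0 := by
  unfold ct
  apply Real.smoothTransition.zero_of_nonpos
  have : 4 ≤ ‖w‖ ^ 2 := by nlinarith
  linarith

theorem ct_supp : HasCompactSupport ct := by
  apply HasCompactSupport.intro (isCompact_closedBall (0 : E3) 2)
  intro w hw
  apply ct_zero
  rw [mem_closedBall_zero_iff, not_le] at hw
  exact hw.le

theorem ct_deriv : ∃ L : ℝ, 0 ≤ L ∧ ∀ w, ‖fderiv ℝ ct w‖ ≤ L := by
  have h1 : Continuous (fderiv ℝ ct) := ct_smooth.continuous_fderiv (by simp [SM])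
  obtain ⟨L, hL⟩ := (ct_supp.fderiv (𝕜 := ℝ)).exists_bound_of_continuous h1
  exact ⟨max L 0, le_max_right _ _, fun w => (hL w).trans (le_max_left _ _)⟩

theorem sT_deriv_zero {u : ℝ} (h : u < 0 ∨ 1 < u) : deriv Real.smoothTransition u = 0 := by
  rcases h with h | h
  · have : Real.smoothTransition =ᶠ[nhds u] fun _ => 0 := by
      filter_upwards [Iio_mem_nhds h] with v hv
      exact Real.smoothTransition.zero_of_nonpos (le_of_lt hv)
    rw [this.deriv_eq]; simp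
  · have : Real.smoothTransition =ᶠ[nhds u] fun _ => 1 := by
      filter_upwards [Ioi_mem_nhds h] with v hv
      exact Real.smoothTransition.one_of_one_le (le_of_lt hv)
    rw [this.deriv_eq]; simp

theorem sT_deriv : ∃ K : ℝ, 0 ≤ K ∧ ∀ u : ℝ,
    (deriv Real.smoothTransition u) ^ 2 * (|u| + 1) ≤ K := by
  have h1 : Continuous (deriv Real.smoothTransition) :=
    (Real.smoothTransition.contDiff (n := 1)).continuous_deriv le_rfl
  have h2 : Continuous fun u : ℝ => (deriv Real.smoothTransition u) ^ 2 * (|u| + 1) :=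
    (h1.pow 2).mul (continuous_abs.add continuous_const)
  have h3 : HasCompactSupport fun u : ℝ =>
      (deriv Real.smoothTransition u) ^ 2 * (|u| + 1) := by
    apply HasCompactSupport.intro (isCompact_Icc (a := (0 : ℝ)) (b := 1))
    intro u hu
    rw [sT_deriv_zero]
    · simp
    · rw [Set.mem_Icc, not_and_or, not_le, not_le] at hu
      exact hu
  obtain ⟨K, hK⟩ := h3.exists_bound_of_continuous h2
  refine ⟨max K 0, le_max_right _ _, fun u => ?_⟩
  exact (le_abs_self _).trans ((hK u).trans (le_max_left _ _))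

section grad

variable {I : Type} [Fintype I] [DecidableEq I]

/-- unit vector of coordinate `(i, k)` -/
noncomputable def ev (i : I) (k : Fin 3) : I → E3 :=
  Pi.single i (EuclideanSpace.single k (1 : ℝ))

theorem gr_nonneg (f : (I → E3) → ℝ) (x : I → E3) : 0 ≤ gr f x :=
  Finset.sum_nonneg fun _ _ => Finset.sum_nonneg fun _ _ => sq_nonneg _

/-- gradient of `b √S` -/
theorem gr_mul_sqrt (b S : (I → E3) → ℝ) (x : I → E3) (hb : DifferentiableAt ℝ b x)
    (hS : DifferentiableAt ℝ S x) (hpos : 0 < S x) :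
    gr (fun x => b x * Real.sqrt (S x)) x ≤ 2 * S x * gr b x + b x ^ 2 / (2 * S x) * gr S x := by
  have hsq : 0 < Real.sqrt (S x) := Real.sqrt_pos.2 hpos
  have h1 : HasFDerivAt (fun x => Real.sqrt (S x))
      ((1 / (2 * Real.sqrt (S x))) • fderiv ℝ S x) x := hS.hasFDerivAt.sqrt hpos.ne'
  have h2 : HasFDerivAt (fun x => b x * Real.sqrt (S x))
      (b x • ((1 / (2 * Real.sqrt (S x))) • fderiv ℝ S x) + Real.sqrt (S x) • fderiv ℝ b x) x :=
    hb.hasFDerivAt.mul h1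
  have key : ∀ v : I → E3, (fderiv ℝ (fun x => b x * Real.sqrt (S x)) x v) ^ 2 ≤
      2 * S x * (fderiv ℝ b x v) ^ 2 + b x ^ 2 / (2 * S x) * (fderiv ℝ S x v) ^ 2 := by
    intro v
    rw [h2.fderiv]
    simp only [ContinuousLinearMap.add_apply, ContinuousLinearMap.smul_apply, smul_eq_mul]
    set p := fderiv ℝ b x v
    set q := fderiv ℝ S x v
    have e1 : Real.sqrt (S x) ^ 2 = S x := Real.sq_sqrt hpos.le
    have e2 : 2 * S x * p ^ 2 = 2 * (Real.sqrt (S x) * p) ^ 2 := by rw [mul_pow, e1]; ring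
    have e3 : b x ^ 2 / (2 * S x) * q ^ 2 = 2 * (b x * (1 / (2 * Real.sqrt (S x)) * q)) ^ 2 := by
      rw [mul_pow, mul_pow, div_pow, mul_pow, e1]
      field_simp
    rw [e2, e3]
    nlinarith [sq_nonneg (b x * (1 / (2 * Real.sqrt (S x)) * q) - Real.sqrt (S x) * p)]
  unfold gr
  rw [Finset.mul_sum, Finset.mul_sum, ← Finset.sum_add_distrib]
  refine Finset.sum_le_sum fun i _ => ?_
  rw [Finset.mul_sum, Finset.mul_sum, ← Finset.sum_add_distrib]
  exact Finset.sum_le_sum fun k _ => key _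

/-- gradient of a sum of one-particle functions -/
theorem gr_sum (τ : ℝ) (g : I → E3 → ℝ) (x : I → E3) (hg : ∀ i, DifferentiableAt ℝ (g i) (x i)) :
    gr (fun x => τ + ∑ i, g i (x i)) x ≤ 3 * ∑ i, ‖fderiv ℝ (g i) (x i)‖ ^ 2 := by
  have h1 : ∀ i, HasFDerivAt (fun x : I → E3 => g i (x i))
      ((fderiv ℝ (g i) (x i)).comp (ContinuousLinearMap.proj (R := ℝ) (φ := fun _ : I => E3) i)) x :=
    fun i => ((hg i).hasFDerivAt).comp x (hasFDerivAt_apply i x)
  have h2 : HasFDerivAt (fun x : I → E3 => τ + ∑ i, g i (x i))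
      (∑ i, (fderiv ℝ (g i) (x i)).comp
        (ContinuousLinearMap.proj (R := ℝ) (φ := fun _ : I => E3) i)) x := by
    have := HasFDerivAt.fun_sum (u := Finset.univ) (fun i _ => h1 i)
    exact (this.const_add τ)
  unfold gr
  rw [h2.fderiv, Finset.mul_sum]
  refine Finset.sum_le_sum fun i _ => ?_
  have h3 : ∀ k : Fin 3, ((∑ i, (fderiv ℝ (g i) (x i)).comp
        (ContinuousLinearMap.proj (R := ℝ) (φ := fun _ : I => E3) i))
        (Pi.single i (EuclideanSpace.single k (1 : ℝ)))) =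
        fderiv ℝ (g i) (x i) (EuclideanSpace.single k (1 : ℝ)) := by
    intro k
    rw [ContinuousLinearMap.sum_apply, Finset.sum_eq_single i]
    · simp
    · intro j _ hj
      simp [Pi.single_eq_of_ne hj]
    · intro h; exact absurd (Finset.mem_univ i) h
  have h4 : ∀ k : Fin 3, (fderiv ℝ (g i) (x i) (EuclideanSpace.single k (1 : ℝ))) ^ 2 ≤
      ‖fderiv ℝ (g i) (x i)‖ ^ 2 := by
    intro k
    have h5 := (fderiv ℝ (g i) (x i)).le_opNorm (EuclideanSpace.single k (1 : ℝ))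
    rw [EuclideanSpace.norm_single, norm_one, mul_one] at h5
    have h6 : (fderiv ℝ (g i) (x i) (EuclideanSpace.single k (1 : ℝ))) ^ 2 =
      ‖fderiv ℝ (g i) (x i) (EuclideanSpace.single k (1 : ℝ))‖ ^ 2 := by
      rw [Real.norm_eq_abs, sq_abs]
    rw [h6]
    exact pow_le_pow_left₀ (norm_nonneg _) h5 2
  calc _ = ∑ k : Fin 3, (fderiv ℝ (g i) (x i) (EuclideanSpace.single k (1 : ℝ))) ^ 2 :=
        Finset.sum_congr rfl fun k _ => by rw [h3 k]
    _ ≤ ∑ _k : Fin 3, ‖fderiv ℝ (g i) (x i)‖ ^ 2 := Finset.sum_le_sum fun k _ => h4 k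
    _ = 3 * ‖fderiv ℝ (g i) (x i)‖ ^ 2 := by simp

/-- gradient of a composition -/
theorem gr_comp (φ : ℝ → ℝ) (N : (I → E3) → ℝ) (x : I → E3) (hφ : DifferentiableAt ℝ φ (N x))
    (hN : DifferentiableAt ℝ N x) :
    gr (fun x => φ (N x)) x = (deriv φ (N x)) ^ 2 * gr N x := by
  have h1 : HasFDerivAt (fun x => φ (N x)) (deriv φ (N x) • fderiv ℝ N x) x :=
    hφ.hasDerivAt.comp_hasFDerivAt x hN.hasFDerivAt
  unfold gr
  rw [h1.fderiv, Finset.mul_sum]
  refine Finset.sum_congr rfl fun i _ => ?_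
  rw [Finset.mul_sum]
  refine Finset.sum_congr rfl fun k _ => ?_
  simp only [ContinuousLinearMap.smul_apply, smul_eq_mul, mul_pow]

end grad

section loc

attribute [local irreducible] ct

theorem scal_smooth (k : ℕ) (ω : E3) : ContDiff ℝ SM (fun v : E3 => (2 : ℝ) ^ k • (v - ω)) := by
  fun_prop

theorem ctk_smooth (k : ℕ) (ω : E3) :
    ContDiff ℝ SM (fun v : E3 => ct ((2 : ℝ) ^ k • (v - ω))) :=
  ct_smooth.comp (scal_smooth k ω)

/-- the comparison function -/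
noncomputable def HH (Ak : ℝ) (k : ℕ) (ω v : E3) : ℝ := Ak * ct ((2 : ℝ) ^ k • (v - ω)) ^ 2

theorem HH_nonneg {Ak : ℝ} (hA : 0 ≤ Ak) (k : ℕ) (ω v : E3) : 0 ≤ HH Ak k ω v := by
  unfold HH; positivity

theorem norm_smul2 (k : ℕ) (w : E3) : ‖(2 : ℝ) ^ k • w‖ = 2 ^ k * ‖w‖ := by
  rw [norm_smul, Real.norm_eq_abs, abs_of_pos (by positivity)]

theorem HH_one {Ak : ℝ} {k : ℕ} {ω v : E3} (h : 2 ^ k * ‖v - ω‖ ≤ 1) : HH Ak k ω v = Ak := by
  unfold HH
  rw [ct_one (by rw [norm_smul2]; exact h)]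
  ring

/-- indicator of `2^k ‖v - ω‖ < 2` -/
noncomputable def ind (k : ℕ) (ω v : E3) : ℝ := if 2 ^ k * ‖v - ω‖ < 2 then 1 else 0

theorem ind_nonneg (k : ℕ) (ω v : E3) : 0 ≤ ind k ω v := by
  unfold ind; split <;> norm_num

theorem ind_le (k : ℕ) (ω v : E3) : ind k ω v ≤ 1 := by
  unfold ind; split <;> norm_num

theorem HH_le {Ak : ℝ} (hA : 0 ≤ Ak) (k : ℕ) (ω v : E3) : HH Ak k ω v ≤ Ak * ind k ω v := by
  unfold ind
  split
  · unfold HH
    have h1 : ct ((2 : ℝ) ^ k • (v - ω)) ^ 2 ≤ 1 := pow_le_one₀ (ct_nonneg _) (ct_le_one _)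
    nlinarith
  · rename_i h
    unfold HH
    rw [ct_zero (by rw [norm_smul2]; exact not_lt.1 h)]
    simp

theorem HH_smooth (Ak : ℝ) (k : ℕ) (ω : E3) : ContDiff ℝ SM (HH Ak k ω) := by
  have h := ctk_smooth k ω
  have h2 : ContDiff ℝ SM (fun v : E3 => Ak * ct ((2 : ℝ) ^ k • (v - ω)) ^ 2) :=
    contDiff_const.mul (h.pow 2)
  exact h2

theorem ct_scal_deriv {L : ℝ} (hL : ∀ w, ‖fderiv ℝ ct w‖ ≤ L) (s : ℝ) (hs : 0 ≤ s) (ω v : E3) :
    ‖fderiv ℝ (fun v => ct (s • (v - ω))) v‖ ≤ s * L := by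
  have h1 : HasFDerivAt (fun v : E3 => s • (v - ω)) (s • ContinuousLinearMap.id ℝ E3) v :=
    ((hasFDerivAt_id v).sub_const ω).const_smul s
  have h2 : HasFDerivAt ct (fderiv ℝ ct (s • (v - ω))) (s • (v - ω)) :=
    ((ct_smooth.differentiable (by simp [SM])) _).hasFDerivAt
  have h3 := h2.comp v h1
  have h4 : fderiv ℝ (fun v => ct (s • (v - ω))) v =
      (fderiv ℝ ct (s • (v - ω))).comp (s • ContinuousLinearMap.id ℝ E3) := h3.fderiv
  rw [h4]
  refine (ContinuousLinearMap.opNorm_comp_le _ _).trans ?_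
  have h5 : ‖s • ContinuousLinearMap.id ℝ E3‖ ≤ s := by
    rw [norm_smul, Real.norm_eq_abs, abs_of_nonneg hs]
    have := ContinuousLinearMap.norm_id_le (𝕜 := ℝ) (E := E3)
    nlinarith
  have h6 : 0 ≤ L := (norm_nonneg _).trans (hL 0)
  calc _ ≤ L * s := mul_le_mul (hL _) h5 (norm_nonneg _) h6
    _ = s * L := mul_comm _ _

theorem sq_deriv {f : E3 → ℝ} {v : E3} (hf : DifferentiableAt ℝ f v) (a : ℝ) :
    ‖fderiv ℝ (fun v => a * f v ^ 2) v‖ = |a| * (2 * |f v| * ‖fderiv ℝ f v‖) := by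
  have h1 : HasFDerivAt (fun v => a * f v ^ 2) (a • ((2 * f v) • fderiv ℝ f v)) v := by
    have := (hf.hasFDerivAt.pow 2).const_mul a
    simpa using this
  rw [h1.fderiv, norm_smul, norm_smul, Real.norm_eq_abs, Real.norm_eq_abs, abs_mul]
  norm_num

theorem HH_grad {L : ℝ} (hL : ∀ w, ‖fderiv ℝ ct w‖ ≤ L) {Ak : ℝ} (hA : 0 ≤ Ak) (k : ℕ)
    (ω v : E3) : ‖fderiv ℝ (HH Ak k ω) v‖ ^ 2 ≤ 4 * L ^ 2 * Ak * 4 ^ k * HH Ak k ω v := by
  have hd : DifferentiableAt ℝ (fun v => ct ((2 : ℝ) ^ k • (v - ω))) v :=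
    ((ctk_smooth k ω).differentiable (by simp [SM])) v
  have h1 : ‖fderiv ℝ (HH Ak k ω) v‖ = |Ak| * (2 * |ct ((2 : ℝ) ^ k • (v - ω))| *
      ‖fderiv ℝ (fun v => ct ((2 : ℝ) ^ k • (v - ω))) v‖) := sq_deriv hd Ak
  have h2 := ct_scal_deriv hL ((2 : ℝ) ^ k) (by positivity) ω v
  rw [h1, abs_of_nonneg hA, abs_of_nonneg (ct_nonneg _)]
  unfold HH
  set c := ct ((2 : ℝ) ^ k • (v - ω)) with hc
  have hc0 : 0 ≤ c := ct_nonneg _
  set D := ‖fderiv ℝ (fun v => ct ((2 : ℝ) ^ k • (v - ω))) v‖ with hD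
  have hD0 : 0 ≤ D := norm_nonneg _
  have h3 : D ^ 2 ≤ (2 ^ k * L) ^ 2 := pow_le_pow_left₀ hD0 h2 2
  have h4 : ((2 : ℝ) ^ k * L) ^ 2 = 4 ^ k * L ^ 2 := by
    rw [mul_pow, ← pow_mul, mul_comm k 2, pow_mul]; norm_num
  rw [h4] at h3
  calc (Ak * (2 * c * D)) ^ 2 = 4 * Ak ^ 2 * c ^ 2 * D ^ 2 := by ring
    _ ≤ 4 * Ak ^ 2 * c ^ 2 * (4 ^ k * L ^ 2) := by gcongr
    _ = 4 * L ^ 2 * Ak * 4 ^ k * (Ak * c ^ 2) := by ring

/-- the hypotheses on the representing charge -/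
structure KP (K z' r : ℝ) (k : ℕ) (y : E3) (P : E3 → E3 → ℝ) : Prop where
  smooth : ContDiff ℝ SM (fun p : E3 × E3 => P p.1 p.2)
  bd : ∀ x ω, |P x ω| ≤ K * 2 ^ k / r ^ 2
  dbd : ∀ x ω, ‖fderiv ℝ (fun v => P v ω) x‖ ≤ K * 4 ^ k / r ^ 2
  supp : ∀ x ω, P x ω ≠ 0 → 2 ^ k * ‖x - ω‖ ≤ 1 ∧ ‖x - y‖ ≤ 3 * r ∧ ‖ω - y‖ ≤ 3 * r
  K0 : 0 < K
  z0 : 0 < z'
  r0 : 0 < r
  r1 : r ≤ 1
  kr : 1 ≤ 2 ^ k * r

/-- the number `A_k` -/
noncomputable def AK (K z' r : ℝ) (k : ℕ) : ℝ := 2 * z' * K * 2 ^ k / r ^ 2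

variable {K z' r : ℝ} {k : ℕ} {y : E3} {P : E3 → E3 → ℝ}

theorem KP.AK_pos (h : KP K z' r k y P) : 0 < AK K z' r k := by
  have := h.K0; have := h.z0; have := h.r0
  unfold AK; positivity

theorem KP.slice (h : KP K z' r k y P) (ω : E3) : ContDiff ℝ SM (fun v => P v ω) :=
  h.smooth.comp (contDiff_id.prodMk contDiff_const)

theorem KP.cP (h : KP K z' r k y P) {c : ℝ} (hc : |c| ≤ z') (ω v : E3) :
    |c * P v ω| ≤ HH (AK K z' r k) k ω v / 2 := by
  by_cases hP : P v ω = 0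
  · rw [hP]; simp only [mul_zero, abs_zero]
    have := HH_nonneg h.AK_pos.le k ω v
    linarith
  · rw [HH_one (h.supp v ω hP).1, abs_mul]
    have h1 := h.bd v ω
    have h2 : 0 ≤ |P v ω| := abs_nonneg _
    have h3 : |c| * |P v ω| ≤ z' * (K * 2 ^ k / r ^ 2) :=
      mul_le_mul hc h1 h2 h.z0.le
    refine h3.trans (le_of_eq ?_)
    unfold AK
    ring

/-- the positive function -/
noncomputable def gg (K z' r : ℝ) (k : ℕ) (P : E3 → E3 → ℝ) (c : ℝ) (ω v : E3) : ℝ :=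
  HH (AK K z' r k) k ω v + c * P v ω

theorem KP.gg_low (h : KP K z' r k y P) {c : ℝ} (hc : |c| ≤ z') (ω v : E3) :
    HH (AK K z' r k) k ω v ≤ 2 * gg K z' r k P c ω v := by
  have := abs_le.1 (h.cP hc ω v)
  unfold gg
  linarith [this.1]

theorem KP.gg_nonneg (h : KP K z' r k y P) {c : ℝ} (hc : |c| ≤ z') (ω v : E3) :
    0 ≤ gg K z' r k P c ω v := by
  have := h.gg_low hc ω v
  have := HH_nonneg h.AK_pos.le k ω v
  linarith

theorem KP.gg_up (h : KP K z' r k y P) {c : ℝ} (hc : |c| ≤ z') (ω v : E3) :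
    gg K z' r k P c ω v ≤ 3 / 2 * (AK K z' r k * ind k ω v) := by
  have := abs_le.1 (h.cP hc ω v)
  have h2 := HH_le h.AK_pos.le k ω v
  have h3 := HH_nonneg h.AK_pos.le k ω v
  unfold gg
  linarith [this.2]

theorem KP.gg_smooth (h : KP K z' r k y P) (c : ℝ) (ω : E3) :
    ContDiff ℝ SM (gg K z' r k P c ω) := by
  unfold gg
  exact (HH_smooth _ _ _).add (contDiff_const.mul (h.slice ω))

theorem KP.P_deriv (h : KP K z' r k y P) (ω v : E3) :
    (z' * ‖fderiv ℝ (fun v => P v ω) v‖) ^ 2 ≤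
      AK K z' r k * 4 ^ k / 4 * HH (AK K z' r k) k ω v := by
  have hA := h.AK_pos
  have hH := HH_nonneg hA.le k ω v
  by_cases h1 : 2 ^ k * ‖v - ω‖ ≤ 1
  · rw [HH_one h1]
    have h2 := h.dbd v ω
    have h3 : z' * ‖fderiv ℝ (fun v => P v ω) v‖ ≤ z' * (K * 4 ^ k / r ^ 2) :=
      mul_le_mul_of_nonneg_left h2 h.z0.le
    have h4 : 0 ≤ z' * ‖fderiv ℝ (fun v => P v ω) v‖ := mul_nonneg h.z0.le (norm_nonneg _)
    refine (pow_le_pow_left₀ h4 h3 2).trans (le_of_eq ?_)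
    unfold AK
    have e : (4 : ℝ) ^ k = 2 ^ k * 2 ^ k := by
      rw [← mul_pow]; norm_num
    have hr := h.r0.ne'
    rw [e]
    field_simp
    ring
  · have h2 : (fun v => P v ω) =ᶠ[nhds v] fun _ => 0 := by
      have hop : IsOpen {v : E3 | 1 < 2 ^ k * ‖v - ω‖} :=
        isOpen_lt continuous_const (continuous_const.mul
          (continuous_id.sub continuous_const).norm)
      filter_upwards [hop.mem_nhds (not_le.1 h1)] with w hw
      by_contra hP
      exact absurd (h.supp w ω hP).1 (not_le.2 hw)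
    rw [h2.fderiv_eq]
    simp only [fderiv_fun_const, Pi.zero_apply, norm_zero, mul_zero]
    have : 0 ≤ AK K z' r k * 4 ^ k / 4 * HH (AK K z' r k) k ω v := by positivity
    simpa using this

theorem KP.gg_grad (h : KP K z' r k y P) {L : ℝ} (hL : ∀ w, ‖fderiv ℝ ct w‖ ≤ L) {c : ℝ}
    (hc : |c| ≤ z') (ω v : E3) : ‖fderiv ℝ (gg K z' r k P c ω) v‖ ^ 2 ≤
      (16 * L ^ 2 + 1) * (AK K z' r k) * 4 ^ k * gg K z' r k P c ω v := by
  have hA := h.AK_pos
  have hH := HH_nonneg hA.le k ω v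
  have h1 : HasFDerivAt (gg K z' r k P c ω) (fderiv ℝ (HH (AK K z' r k) k ω) v +
      c • fderiv ℝ (fun v => P v ω) v) v := by
    have a1 := (((HH_smooth (AK K z' r k) k ω).differentiable (by simp [SM])) v).hasFDerivAt
    have a2 := (((h.slice ω).differentiable (by simp [SM])) v).hasFDerivAt
    exact a1.add (a2.const_mul c)
  rw [h1.fderiv]
  have h2 := norm_add_le (fderiv ℝ (HH (AK K z' r k) k ω) v) (c • fderiv ℝ (fun v => P v ω) v)
  rw [norm_smul, Real.norm_eq_abs] at h2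
  have h3 : |c| * ‖fderiv ℝ (fun v => P v ω) v‖ ≤ z' * ‖fderiv ℝ (fun v => P v ω) v‖ :=
    mul_le_mul_of_nonneg_right hc (norm_nonneg _)
  have h4 := HH_grad hL hA.le k ω v
  have h5 := h.P_deriv ω v
  have h6 := h.gg_low hc ω v
  set a := ‖fderiv ℝ (HH (AK K z' r k) k ω) v‖ with ha
  set b := z' * ‖fderiv ℝ (fun v => P v ω) v‖ with hb
  have h7 : ‖fderiv ℝ (HH (AK K z' r k) k ω) v + c • fderiv ℝ (fun v => P v ω) v‖ ^ 2 ≤
      (a + b) ^ 2 := pow_le_pow_left₀ (norm_nonneg _) (h2.trans (by linarith)) 2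
  have h8 : (a + b) ^ 2 ≤ 2 * a ^ 2 + 2 * b ^ 2 := by nlinarith [sq_nonneg (a - b)]
  have h9 : 0 ≤ AK K z' r k * 4 ^ k := by positivity
  calc _ ≤ 2 * a ^ 2 + 2 * b ^ 2 := h7.trans h8
    _ ≤ (8 * L ^ 2 + 1 / 2) * (AK K z' r k * 4 ^ k) * HH (AK K z' r k) k ω v := by nlinarith
    _ ≤ (8 * L ^ 2 + 1 / 2) * (AK K z' r k * 4 ^ k) * (2 * gg K z' r k P c ω v) := by
        apply mul_le_mul_of_nonneg_left h6; positivity
    _ = _ := by ring

end loc

section btsec

attribute [local irreducible] ct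

variable {I : Type} [Fintype I] [DecidableEq I]

theorem cy_smooth (y : E3) (r : ℝ) : ContDiff ℝ SM (cy y r) := by
  have h : ContDiff ℝ SM (fun x : E3 => r⁻¹ • (x - y)) := by fun_prop
  have h2 : ContDiff ℝ SM (fun x : E3 => ct (r⁻¹ • (x - y))) := ct_smooth.comp h
  exact h2

theorem cy_deriv {L : ℝ} (hL : ∀ w, ‖fderiv ℝ ct w‖ ≤ L) {r : ℝ} (hr : 0 < r) (y v : E3) :
    ‖fderiv ℝ (cy y r) v‖ ≤ r⁻¹ * L :=
  ct_scal_deriv hL r⁻¹ (by positivity) y v

theorem nT_smooth (y : E3) (r : ℝ) : ContDiff ℝ SM (nT y r : (I → E3) → ℝ) := by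
  have h : ∀ i : I, ContDiff ℝ SM (fun x : I → E3 => cy y (6 * r) (x i) ^ 2) := fun i =>
    ((cy_smooth y (6 * r)).comp (contDiff_apply ℝ E3 i)).pow 2
  have h2 : ContDiff ℝ SM (fun x : I → E3 => ∑ i, cy y (6 * r) (x i) ^ 2) :=
    ContDiff.sum fun i _ => h i
  exact h2

theorem nT_nonneg (y : E3) (r : ℝ) (x : I → E3) : 0 ≤ nT y r x :=
  Finset.sum_nonneg fun _ _ => sq_nonneg _

theorem bt_smooth (y : E3) (r : ℝ) (k : ℕ) : ContDiff ℝ SM (bt y r k : (I → E3) → ℝ) := by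
  have h1 : ContDiff ℝ SM (fun x : I → E3 => (1 + nT y r x) / (2 ^ k * r ^ 2) - 1) :=
    ((contDiff_const.add (nT_smooth y r)).div_const _).sub contDiff_const
  have h2 : ContDiff ℝ SM (fun x : I → E3 =>
      Real.smoothTransition ((1 + nT y r x) / (2 ^ k * r ^ 2) - 1)) :=
    Real.smoothTransition.contDiff.comp h1
  exact h2

theorem bt_nonneg (y : E3) (r : ℝ) (k : ℕ) (x : I → E3) : 0 ≤ bt y r k x :=
  Real.smoothTransition.nonneg _

theorem bt_le_one (y : E3) (r : ℝ) (k : ℕ) (x : I → E3) : bt y r k x ≤ 1 :=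
  Real.smoothTransition.le_one _

theorem bt_sq_le (y : E3) (r : ℝ) (k : ℕ) (x : I → E3) : bt y r k x ^ 2 ≤ 1 :=
  pow_le_one₀ (bt_nonneg _ _ _ _) (bt_le_one _ _ _ _)

theorem nT_perm (y : E3) (r : ℝ) (x : I → E3) (σ : Equiv.Perm I) :
    nT y r (fun k => x (σ k)) = nT y r x := by
  unfold nT
  exact Equiv.sum_comp σ (fun i => cy y (6 * r) (x i) ^ 2)

theorem bt_perm (y : E3) (r : ℝ) (k : ℕ) (x : I → E3) (σ : Equiv.Perm I) :
    bt y r k (fun k => x (σ k)) = bt y r k x := by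
  unfold bt
  rw [nT_perm]

theorem bt_gr : ∃ Db : ℝ, 0 ≤ Db ∧ ∀ {I : Type} [Fintype I] [DecidableEq I] (y : E3) (r : ℝ)
    (k : ℕ) (x : I → E3), 0 < r → gr (bt y r k) x ≤ Db / (2 ^ k * r ^ 4) := by
  obtain ⟨L, hL0, hL⟩ := ct_deriv
  obtain ⟨Ks, hKs0, hKs⟩ := sT_deriv
  refine ⟨Ks * L ^ 2, by positivity, ?_⟩
  intro I _ _ y r k x hr
  have hk : (0 : ℝ) < 2 ^ k := by positivity
  -- gradient of `nT`
  have hN : gr (nT y r) x ≤ L ^ 2 / (3 * r ^ 2) * nT y r x := by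
    have h1 := gr_sum (I := I) 0 (fun _ v => cy y (6 * r) v ^ 2) x (fun i =>
      (((cy_smooth y (6 * r)).pow 2).differentiable (by simp [SM])) _)
    have h2 : (fun x : I → E3 => (0 : ℝ) + ∑ i, cy y (6 * r) (x i) ^ 2) = nT y r := by
      funext x; rw [zero_add]; rfl
    rw [h2] at h1
    refine h1.trans ?_
    have h3 : ∀ v : E3, ‖fderiv ℝ (fun v => cy y (6 * r) v ^ 2) v‖ ^ 2 ≤
        L ^ 2 / (9 * r ^ 2) * cy y (6 * r) v ^ 2 := by
      intro v
      have hd : DifferentiableAt ℝ (cy y (6 * r)) v :=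
        ((cy_smooth y (6 * r)).differentiable (by simp [SM])) v
      have h4 := sq_deriv hd 1
      simp only [one_mul, abs_one] at h4
      rw [h4]
      have h5 := cy_deriv hL (show 0 < 6 * r by linarith) y v
      have h6 : ‖fderiv ℝ (cy y (6 * r)) v‖ ^ 2 ≤ ((6 * r)⁻¹ * L) ^ 2 :=
        pow_le_pow_left₀ (norm_nonneg _) h5 2
      calc (2 * |cy y (6 * r) v| * ‖fderiv ℝ (cy y (6 * r)) v‖) ^ 2
          = 4 * cy y (6 * r) v ^ 2 * ‖fderiv ℝ (cy y (6 * r)) v‖ ^ 2 := by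
            rw [mul_pow, mul_pow, sq_abs]; ring
        _ ≤ 4 * cy y (6 * r) v ^ 2 * ((6 * r)⁻¹ * L) ^ 2 := by gcongr
        _ = L ^ 2 / (9 * r ^ 2) * cy y (6 * r) v ^ 2 := by
            field_simp
            ring
    calc 3 * ∑ i, ‖fderiv ℝ (fun v => cy y (6 * r) v ^ 2) (x i)‖ ^ 2
        ≤ 3 * ∑ i, L ^ 2 / (9 * r ^ 2) * cy y (6 * r) (x i) ^ 2 := by
          gcongr with i _
          exact h3 (x i)
      _ = L ^ 2 / (3 * r ^ 2) * nT y r x := by
          rw [← Finset.mul_sum]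
          unfold nT
          field_simp
          ring
  -- the composition
  have hφ : ∀ n : ℝ, HasDerivAt (fun n => Real.smoothTransition ((1 + n) / (2 ^ k * r ^ 2) - 1))
      (deriv Real.smoothTransition ((1 + n) / (2 ^ k * r ^ 2) - 1) * (1 / (2 ^ k * r ^ 2))) n := by
    intro n
    have h1 : HasDerivAt (fun n : ℝ => (1 + n) / (2 ^ k * r ^ 2) - 1) (1 / (2 ^ k * r ^ 2)) n :=
      (((hasDerivAt_id n).const_add 1).div_const _).sub_const 1
    have h2 : HasDerivAt Real.smoothTransition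
        (deriv Real.smoothTransition ((1 + n) / (2 ^ k * r ^ 2) - 1))
        ((1 + n) / (2 ^ k * r ^ 2) - 1) :=
      (((Real.smoothTransition.contDiff (n := 1)).differentiable (by simp)) _).hasDerivAt
    exact h2.comp n h1
  have h1 := gr_comp (fun n => Real.smoothTransition ((1 + n) / (2 ^ k * r ^ 2) - 1)) (nT y r) x
    (hφ _).differentiableAt (((nT_smooth y r).differentiable (by simp [SM])) x)
  have h2 : (fun x : I → E3 => (fun n => Real.smoothTransition ((1 + n) / (2 ^ k * r ^ 2) - 1))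
      (nT y r x)) = bt y r k := rfl
  rw [h2, (hφ _).deriv] at h1
  rw [h1]
  set u : ℝ := (1 + nT y r x) / (2 ^ k * r ^ 2) - 1 with hu
  have hn := nT_nonneg y r x
  have h3 : nT y r x ≤ (|u| + 1) * (2 ^ k * r ^ 2) := by
    have h4 : (1 + nT y r x) / (2 ^ k * r ^ 2) ≤ |u| + 1 := by
      have := le_abs_self u
      linarith
    rw [div_le_iff₀ (by positivity)] at h4
    linarith
  set s := deriv Real.smoothTransition u with hs
  calc (s * (1 / (2 ^ k * r ^ 2))) ^ 2 * gr (nT y r) x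
      ≤ (s * (1 / (2 ^ k * r ^ 2))) ^ 2 * (L ^ 2 / (3 * r ^ 2) * nT y r x) := by gcongr
    _ ≤ (s * (1 / (2 ^ k * r ^ 2))) ^ 2 *
        (L ^ 2 / (3 * r ^ 2) * ((|u| + 1) * (2 ^ k * r ^ 2))) := by gcongr
    _ = (s ^ 2 * (|u| + 1)) * L ^ 2 / (3 * (2 ^ k * r ^ 4)) := by
        field_simp
    _ ≤ Ks * L ^ 2 / (3 * (2 ^ k * r ^ 4)) := by
        gcongr
        exact hKs u
    _ ≤ Ks * L ^ 2 / (2 ^ k * r ^ 4) := by
        apply div_le_div_of_nonneg_left (by positivity) (by positivity)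
        have : 0 < 2 ^ k * r ^ 4 := by positivity
        linarith

/-- number of points close to `ω` -/
noncomputable def n2 (k : ℕ) (ω : E3) (x : I → E3) : ℝ := ∑ i, ind k ω (x i)

theorem n2_nonneg (k : ℕ) (ω : E3) (x : I → E3) : 0 ≤ n2 k ω x :=
  Finset.sum_nonneg fun _ _ => ind_nonneg _ _ _

theorem n2_le (k : ℕ) (ω : E3) (x : I → E3) : n2 k ω x ≤ Fintype.card I := by
  unfold n2
  calc _ ≤ ∑ _i : I, (1 : ℝ) := Finset.sum_le_sum fun i _ => ind_le _ _ _
    _ = _ := by simp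

/-- the trial functions -/
noncomputable def fF (K z' r : ℝ) (k : ℕ) (y : E3) (P : E3 → E3 → ℝ) (c : I → ℝ) (ω : E3)
    (x : I → E3) : ℝ :=
  bt y r k x * Real.sqrt (1 / 2 ^ k + ∑ i, gg K z' r k P (c i) ω (x i))

variable {K z' r : ℝ} {k : ℕ} {y : E3} {P : E3 → E3 → ℝ}

theorem sumgg_nonneg (h : KP K z' r k y P) {c : I → ℝ} (hc : ∀ i, |c i| ≤ z') (ω : E3)
    (x : I → E3) : 0 ≤ ∑ i, gg K z' r k P (c i) ω (x i) :=
  Finset.sum_nonneg fun i _ => h.gg_nonneg (hc i) ω (x i)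

theorem S_pos (h : KP K z' r k y P) {c : I → ℝ} (hc : ∀ i, |c i| ≤ z') (ω : E3)
    (x : I → E3) : 0 < 1 / 2 ^ k + ∑ i, gg K z' r k P (c i) ω (x i) := by
  have h1 := sumgg_nonneg h hc ω x
  have h2 : (0 : ℝ) < 1 / 2 ^ k := by positivity
  linarith

theorem sumgg_le (h : KP K z' r k y P) {c : I → ℝ} (hc : ∀ i, |c i| ≤ z') (ω : E3)
    (x : I → E3) : ∑ i, gg K z' r k P (c i) ω (x i) ≤ 3 / 2 * (AK K z' r k * n2 k ω x) := by
  unfold n2
  rw [Finset.mul_sum, Finset.mul_sum]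
  exact Finset.sum_le_sum fun i _ => h.gg_up (hc i) ω (x i)

theorem S_smooth (h : KP K z' r k y P) (c : I → ℝ) (ω : E3) :
    ContDiff ℝ SM (fun x : I → E3 => 1 / 2 ^ k + ∑ i, gg K z' r k P (c i) ω (x i)) := by
  have h1 : ∀ i : I, ContDiff ℝ SM (fun x : I → E3 => gg K z' r k P (c i) ω (x i)) := fun i =>
    (h.gg_smooth (c i) ω).comp (contDiff_apply ℝ E3 i)
  exact contDiff_const.add (ContDiff.sum fun i _ => h1 i)

theorem fF_smooth (h : KP K z' r k y P) {c : I → ℝ} (hc : ∀ i, |c i| ≤ z') (ω : E3) :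
    ContDiff ℝ SM (fF K z' r k y P c ω : (I → E3) → ℝ) := by
  have h1 := S_smooth h c ω
  have h2 : ContDiff ℝ SM (fun x : I → E3 =>
      Real.sqrt (1 / 2 ^ k + ∑ i, gg K z' r k P (c i) ω (x i))) :=
    h1.sqrt fun x => (S_pos h hc ω x).ne'
  exact (bt_smooth y r k).mul h2

theorem fF_sy {S : Type} (sp : I → S) (c : I → ℝ) (hcs : ∀ i j, sp i = sp j → c i = c j)
    (ω : E3) : Sy sp (fF K z' r k y P c ω) := by
  intro i j x hij
  unfold fF
  rw [bt_perm y r k x (Equiv.swap i j)]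
  congr 3
  have h1 : ∀ l, c l = c (Equiv.swap i j l) := by
    intro l
    by_cases h1 : l = i
    · subst h1; rw [Equiv.swap_apply_left]; exact hcs _ _ hij
    · by_cases h2 : l = j
      · subst h2; rw [Equiv.swap_apply_right]; exact hcs _ _ hij.symm
      · rw [Equiv.swap_apply_of_ne_of_ne h1 h2]
  calc ∑ l, gg K z' r k P (c l) ω (x (Equiv.swap i j l))
      = ∑ l, gg K z' r k P (c (Equiv.swap i j l)) ω (x (Equiv.swap i j l)) :=
        Finset.sum_congr rfl fun l _ => by rw [← h1 l]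
    _ = _ := Equiv.sum_comp (Equiv.swap i j) (fun l => gg K z' r k P (c l) ω (x l))

theorem fF_sq (h : KP K z' r k y P) {c : I → ℝ} (hc : ∀ i, |c i| ≤ z') (ω : E3) (x : I → E3) :
    fF K z' r k y P c ω x ^ 2 =
      bt y r k x ^ 2 * (1 / 2 ^ k + ∑ i, gg K z' r k P (c i) ω (x i)) := by
  unfold fF
  rw [mul_pow, Real.sq_sqrt (S_pos h hc ω x).le]

theorem fF_bd (h : KP K z' r k y P) {c : I → ℝ} (hc : ∀ i, |c i| ≤ z') (ω : E3) (x : I → E3) :
    |fF K z' r k y P c ω x| ≤ Real.sqrt (1 + 2 * AK K z' r k * Fintype.card I) := by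
  apply Real.abs_le_sqrt
  rw [fF_sq h hc]
  have h1 := sumgg_le h hc ω x
  have h2 := n2_le k ω x
  have h3 := h.AK_pos
  have h4 := bt_sq_le y r k x
  have h5 := (S_pos h hc ω x).le
  have h6 : (1 : ℝ) / 2 ^ k ≤ 1 := by
    rw [div_le_one (by positivity)]; exact one_le_pow₀ (by norm_num)
  have h7 : AK K z' r k * n2 k ω x ≤ AK K z' r k * Fintype.card I :=
    mul_le_mul_of_nonneg_left h2 h3.le
  have h8 : 0 ≤ AK K z' r k * Fintype.card I := by positivity
  calc _ ≤ 1 * (1 / 2 ^ k + ∑ i, gg K z' r k P (c i) ω (x i)) :=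
        mul_le_mul_of_nonneg_right h4 h5
    _ ≤ _ := by linarith

theorem fF_gr (h : KP K z' r k y P) {L : ℝ} (hL : ∀ w, ‖fderiv ℝ ct w‖ ≤ L) {Db : ℝ}
    (hDb : ∀ x : I → E3, gr (bt y r k) x ≤ Db / (2 ^ k * r ^ 4)) (hDb0 : 0 ≤ Db) {c : I → ℝ}
    (hc : ∀ i, |c i| ≤ z') (ω : E3) (x : I → E3) :
    gr (fF K z' r k y P c ω) x ≤
      2 * (1 / 2 ^ k + 3 / 2 * (AK K z' r k * n2 k ω x)) * (Db / (2 ^ k * r ^ 4)) +
      3 / 2 * (16 * L ^ 2 + 1) * (AK K z' r k) * 4 ^ k * (bt y r k x ^ 2 * n2 k ω x) := by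
  have hA := h.AK_pos
  have hS := S_pos h hc ω x
  have h1 := gr_mul_sqrt (bt y r k) (fun x => 1 / 2 ^ k + ∑ i, gg K z' r k P (c i) ω (x i)) x
    (((bt_smooth y r k).differentiable (by simp [SM])) x)
    (((S_smooth h c ω).differentiable (by simp [SM])) x) hS
  have h2 : gr (fun x : I → E3 => 1 / 2 ^ k + ∑ i, gg K z' r k P (c i) ω (x i)) x ≤
      3 * ((16 * L ^ 2 + 1) * (AK K z' r k) * 4 ^ k *
        ∑ i, gg K z' r k P (c i) ω (x i)) := by
    refine (gr_sum _ (fun i => gg K z' r k P (c i) ω) x fun i =>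
      ((h.gg_smooth (c i) ω).differentiable (by simp [SM])) _).trans ?_
    calc 3 * ∑ i, ‖fderiv ℝ (gg K z' r k P (c i) ω) (x i)‖ ^ 2
        ≤ 3 * ∑ i, (16 * L ^ 2 + 1) * (AK K z' r k) * 4 ^ k * gg K z' r k P (c i) ω (x i) :=
          mul_le_mul_of_nonneg_left (Finset.sum_le_sum fun i _ => h.gg_grad hL (hc i) ω (x i))
            (by norm_num)
      _ = _ := by rw [← Finset.mul_sum]
  have hs0 := sumgg_nonneg h hc ω x
  have h3 := sumgg_le h hc ω x
  set T := ∑ i, gg K z' r k P (c i) ω (x i) with hT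
  -- `T / S ≤ n2`
  have h4 : T / (1 / 2 ^ k + T) ≤ n2 k ω x := by
    by_cases h0 : T = 0
    · rw [h0]; simpa using n2_nonneg k ω x
    · have h5 : ∃ i, ind k ω (x i) ≠ 0 := by
        by_contra hcon
        push Not at hcon
        have : n2 k ω x = 0 := Finset.sum_eq_zero fun i _ => hcon i
        rw [this] at h3
        simp only [mul_zero] at h3
        exact h0 (le_antisymm h3 hs0)
      obtain ⟨i, hi⟩ := h5
      have h6 : ind k ω (x i) = 1 := by
        unfold ind at hi ⊢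
        split
        · rfl
        · rename_i hh
          simp [hh] at hi
      have h7 : 1 ≤ n2 k ω x := by
        rw [← h6]
        exact Finset.single_le_sum (f := fun i => ind k ω (x i)) (fun i _ => ind_nonneg _ _ _)
          (Finset.mem_univ i)
      refine le_trans ?_ h7
      rw [div_le_one hS]
      have : (0 : ℝ) < 1 / 2 ^ k := by positivity
      linarith
  have h8 : (fun x : I → E3 => bt y r k x *
      Real.sqrt ((fun x => 1 / 2 ^ k + ∑ i, gg K z' r k P (c i) ω (x i)) x)) =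
      fF K z' r k y P c ω := rfl
  rw [h8] at h1
  refine h1.trans ?_
  have hb2 : 0 ≤ bt y r k x ^ 2 := sq_nonneg _
  refine add_le_add ?_ ?_
  · have h9 := hDb x
    have h10 := gr_nonneg (bt y r k) x
    show 2 * (1 / 2 ^ k + T) * gr (bt y r k) x ≤ _
    have h11 : 0 ≤ 1 / 2 ^ k + T := hS.le
    calc 2 * (1 / 2 ^ k + T) * gr (bt y r k) x ≤ 2 * (1 / 2 ^ k + T) * (Db / (2 ^ k * r ^ 4)) := by
          gcongr
      _ ≤ _ := by
          have : 0 ≤ Db / (2 ^ k * r ^ 4) := by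
            have := h.r0
            positivity
          gcongr
  · show bt y r k x ^ 2 / (2 * (1 / 2 ^ k + T)) * gr _ x ≤ _
    calc _ ≤ bt y r k x ^ 2 / (2 * (1 / 2 ^ k + T)) *
          (3 * ((16 * L ^ 2 + 1) * (AK K z' r k) * 4 ^ k * T)) := by
          apply mul_le_mul_of_nonneg_left h2
          positivity
      _ = 3 / 2 * (16 * L ^ 2 + 1) * (AK K z' r k) * 4 ^ k *
          (bt y r k x ^ 2 * (T / (1 / 2 ^ k + T))) := by
          field_simp
      _ ≤ _ := by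
          gcongr

end btsec

section integrals

attribute [local irreducible] ct

variable {I : Type} [Fintype I]

theorem near2_nonneg (w : E3) (x : I → E3) : 0 ≤ near2 w x :=
  Real.iSup_nonneg fun _ => sq_nonneg _

theorem near2_int (x : I → E3) (v : E3) (R : ℝ) (hR : 0 < R) :
    IntegrableOn (fun w => near2 w x) (Metric.ball v R) := by
  obtain ⟨C, -, hC⟩ := near2_ball
  exact (hC x v R hR).1

theorem inv_int (z v : E3) (R : ℝ) (hR : 0 < R) :
    IntegrableOn (fun w : E3 => 1 / ‖w - z‖) (Metric.ball v R) := by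
  have h1 := near2_int (fun _ : Unit => z) v R hR
  have h2 : IntegrableOn (fun w : E3 => 1 + near2 w (fun _ : Unit => z)) (Metric.ball v R) := by
    refine Integrable.add ?_ h1
    exact integrableOn_const (hs := measure_ball_lt_top.ne)
  refine Integrable.mono' h2 ?_ (Filter.Eventually.of_forall fun w => ?_)
  · exact (((measurable_id.sub_const z).norm).const_div 1).aestronglyMeasurable
  · have h3 : near2 w (fun _ : Unit => z) = ‖z - w‖⁻¹ ^ 2 := by
      unfold near2; exact ciSup_const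
    rw [h3, norm_sub_rev z w, Real.norm_eq_abs, abs_of_nonneg (by positivity), one_div]
    nlinarith [sq_nonneg (‖w - z‖⁻¹ - 1), sq_nonneg (‖w - z‖⁻¹)]

variable {K z' r : ℝ} {k : ℕ} {y : E3} {P : E3 → E3 → ℝ}

theorem A_sub (hr : 0 < r) : Metric.closedBall y (3 * r) ⊆ Metric.ball y (4 * r) :=
  Metric.closedBall_subset_ball (by linarith)

theorem KP.cont2 (h : KP K z' r k y P) (v : E3) : Continuous (fun ω => P v ω) :=
  h.smooth.continuous.comp (continuous_const.prodMk continuous_id)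

theorem KP.out (h : KP K z' r k y P) (v ω : E3) (hω : ω ∉ Metric.closedBall y (3 * r)) :
    P v ω = 0 := by
  by_contra hP
  apply hω
  rw [mem_closedBall_iff_norm]
  exact (h.supp v ω hP).2.2

theorem KP.int_inv (h : KP K z' r k y P) (v z : E3) :
    IntegrableOn (fun ω => P v ω / ‖ω - z‖) (Metric.closedBall y (3 * r)) := by
  have h1 := (inv_int z y (4 * r) (by linarith [h.r0])).mono_set (A_sub (y := y) h.r0)
  have h2 : IntegrableOn (fun ω => P v ω * (1 / ‖ω - z‖)) (Metric.closedBall y (3 * r)) := by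
    refine Integrable.bdd_mul (c := K * 2 ^ k / r ^ 2) h1
      (h.cont2 v).aestronglyMeasurable (Filter.Eventually.of_forall fun ω => ?_)
    rw [Real.norm_eq_abs]
    exact h.bd v ω
  refine h2.congr (Filter.Eventually.of_forall fun ω => ?_)
  show P v ω * (1 / ‖ω - z‖) = P v ω / ‖ω - z‖
  ring

theorem KP.int_P (h : KP K z' r k y P) (v : E3) :
    IntegrableOn (fun ω => P v ω) (Metric.closedBall y (3 * r)) :=
  (h.cont2 v).continuousOn.integrableOn_compact (isCompact_closedBall _ _)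

/-- the interaction as an integral over test charges -/
theorem ident {S : Type} (D : Species S) (sp : I → S) (l : E3 → ℝ) (h : KP K z' r k y P)
    (hP1 : ∀ x z, (cy y r x - cy y r z) ^ 2 / 2 * psi l k (x - z) = ∫ ω, P x ω / ‖ω - z‖)
    (hP2 : ∀ x, ∫ ω, P x ω = 0) (b p : ℝ) (x : I → E3) :
    b * ∑ i, ∑ j, D.charge (sp i) * D.charge (sp j) *
            ((cy y r (x i) - cy y r (x j)) ^ 2 / 2 * psi l k (x i - x j)) =
      ∫ ω in Metric.closedBall y (3 * r), (b * ∑ i, D.charge (sp i) * P (x i) ω) *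
        (phi D sp ω x - p) := by
  have e1 : ∀ ω, (b * ∑ i, D.charge (sp i) * P (x i) ω) * (phi D sp ω x - p) =
      (∑ i, ∑ j, (b * (D.charge (sp i) * D.charge (sp j))) * (P (x i) ω / ‖ω - x j‖)) -
      ∑ i, (b * D.charge (sp i) * p) * P (x i) ω := by
    intro ω
    unfold phi
    rw [mul_sub]
    congr 1
    · rw [mul_assoc, Finset.sum_mul_sum, Finset.mul_sum]
      refine Finset.sum_congr rfl fun i _ => ?_
      rw [Finset.mul_sum]
      refine Finset.sum_congr rfl fun j _ => ?_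
      rw [norm_sub_rev (x j) ω]
      ring
    · rw [Finset.mul_sum, Finset.sum_mul]
      refine Finset.sum_congr rfl fun i _ => ?_
      ring
  have hs1 : ∀ i j, ∫ ω in Metric.closedBall y (3 * r), P (x i) ω / ‖ω - x j‖ =
      (cy y r (x i) - cy y r (x j)) ^ 2 / 2 * psi l k (x i - x j) := by
    intro i j
    rw [hP1]
    refine setIntegral_eq_integral_of_forall_compl_eq_zero fun ω hω => ?_
    rw [h.out _ _ hω, zero_div]
  have hs2 : ∀ i, ∫ ω in Metric.closedBall y (3 * r), P (x i) ω = 0 := by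
    intro i
    rw [← hP2 (x i)]
    exact setIntegral_eq_integral_of_forall_compl_eq_zero fun ω hω => h.out _ _ hω
  have i1 : ∀ i j, Integrable (fun ω => (b * (D.charge (sp i) * D.charge (sp j))) *
      (P (x i) ω / ‖ω - x j‖)) (volume.restrict (Metric.closedBall y (3 * r))) := fun i j =>
    (h.int_inv (x i) (x j)).const_mul _
  have i2 : ∀ i, Integrable (fun ω => (b * D.charge (sp i) * p) * P (x i) ω)
      (volume.restrict (Metric.closedBall y (3 * r))) := fun i => (h.int_P (x i)).const_mul _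
  simp_rw [e1]
  rw [integral_sub (integrable_finsetSum _ fun i _ => integrable_finsetSum _ fun j _ => i1 i j)
    (integrable_finsetSum _ fun i _ => i2 i), integral_finsetSum _ (fun i _ => i2 i),
    integral_finsetSum _ (fun i _ => integrable_finsetSum _ fun j _ => i1 i j)]
  have e2 : ∀ i, ∫ ω in Metric.closedBall y (3 * r), (b * D.charge (sp i) * p) * P (x i) ω = 0 := by
    intro i
    rw [integral_const_mul, hs2 i, mul_zero]
  simp only [e2, Finset.sum_const_zero, sub_zero]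
  rw [Finset.mul_sum]
  refine Finset.sum_congr rfl fun i _ => ?_
  rw [integral_finsetSum _ (fun j _ => i1 i j), Finset.mul_sum]
  refine Finset.sum_congr rfl fun j _ => ?_
  rw [integral_const_mul, hs1 i j]
  ring

theorem ind_mem (k : ℕ) (ω v : E3) : 2 ^ k * ‖v - ω‖ < 2 ↔ ω ∈ Metric.ball v (2 / 2 ^ k) := by
  rw [mem_ball_iff_norm, norm_sub_rev, lt_div_iff₀ (by positivity), mul_comm]

theorem ind_meas (k : ℕ) (v : E3) : Measurable (fun ω => ind k ω v) := by
  unfold ind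
  refine Measurable.ite ?_ measurable_const measurable_const
  exact measurableSet_lt (((measurable_const.sub measurable_id).norm).const_mul _) measurable_const

/-- integral of the local number against a nonnegative function -/
theorem n2_int (hr : 0 < r) (hkr : 1 ≤ 2 ^ k * r) (u : E3 → ℝ) (hu : ∀ w, 0 ≤ u w)
    (hui : ∀ v R, 0 < R → IntegrableOn u (Metric.ball v R)) (x : I → E3) :
    IntegrableOn (fun ω => n2 k ω x * u ω) (Metric.closedBall y (3 * r)) ∧
    ∫ ω in Metric.closedBall y (3 * r), n2 k ω x * u ω ≤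
      ∑ i, if ‖x i - y‖ < 6 * r then ∫ ω in Metric.ball (x i) (2 / 2 ^ k), u ω else 0 := by
  have huA : IntegrableOn u (Metric.closedBall y (3 * r)) :=
    (hui y (4 * r) (by linarith)).mono_set (A_sub hr)
  have hint : ∀ i, Integrable (fun ω => ind k ω (x i) * u ω)
      (volume.restrict (Metric.closedBall y (3 * r))) := by
    intro i
    refine Integrable.bdd_mul (c := 1) huA (ind_meas k (x i)).aestronglyMeasurable
      (Filter.Eventually.of_forall fun ω => ?_)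
    rw [Real.norm_eq_abs, abs_of_nonneg (ind_nonneg _ _ _)]
    exact ind_le _ _ _
  have e : ∀ ω, n2 k ω x * u ω = ∑ i, ind k ω (x i) * u ω := by
    intro ω; unfold n2; rw [Finset.sum_mul]
  refine ⟨?_, ?_⟩
  · simp_rw [e]
    exact integrable_finsetSum _ fun i _ => hint i
  · simp_rw [e]
    rw [integral_finsetSum _ fun i _ => hint i]
    refine Finset.sum_le_sum fun i _ => ?_
    have hρ : (0 : ℝ) < 2 / 2 ^ k := by positivity
    have e2 : ∀ ω, ind k ω (x i) * u ω = (Metric.ball (x i) (2 / 2 ^ k)).indicator u ω := by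
      intro ω
      unfold ind
      by_cases hω : 2 ^ k * ‖x i - ω‖ < 2
      · rw [if_pos hω, Set.indicator_of_mem ((ind_mem k ω (x i)).1 hω), one_mul]
      · rw [if_neg hω, Set.indicator_of_notMem (fun hh => hω ((ind_mem k ω (x i)).2 hh)), zero_mul]
    simp_rw [e2]
    rw [setIntegral_indicator measurableSet_ball]
    split
    · exact setIntegral_mono_set (hui _ _ hρ) (Filter.Eventually.of_forall fun w => hu w)
        (Set.inter_subset_right).eventuallyLE
    · rename_i hfar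
      have hempty : Metric.closedBall y (3 * r) ∩ Metric.ball (x i) (2 / 2 ^ k) = ∅ := by
        rw [Set.eq_empty_iff_forall_notMem]
        rintro ω ⟨h1, h2⟩
        rw [mem_closedBall_iff_norm] at h1
        rw [mem_ball_iff_norm] at h2
        have h3 : (2 : ℝ) / 2 ^ k ≤ 2 * r := by
          rw [div_le_iff₀ (by positivity)]
          nlinarith
        apply hfar
        have h4 : ‖x i - y‖ ≤ ‖ω - y‖ + ‖ω - x i‖ := by
          have : x i - y = (ω - y) - (ω - x i) := by abel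
          rw [this]; exact norm_sub_le _ _
        linarith
      rw [hempty]
      simp

theorem vol_ball (v : E3) (R : ℝ) (hR : 0 ≤ R) :
    (volume (Metric.ball v R)).toReal = R ^ 3 * (Real.pi * 4 / 3) := by
  rw [EuclideanSpace.volume_ball_fin_three, ENNReal.toReal_mul, ENNReal.toReal_pow,
    ENNReal.toReal_ofReal hR, ENNReal.toReal_ofReal (by positivity)]

theorem vol_A (hr : 0 < r) (hr1 : r ≤ 1) :
    (volume (Metric.closedBall y (3 * r))).toReal ≤ 36 * Real.pi := by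
  have h1 : (volume (Metric.closedBall y (3 * r))).toReal = (3 * r) ^ 3 * (Real.pi * 4 / 3) := by
    rw [EuclideanSpace.volume_closedBall_fin_three, ENNReal.toReal_mul, ENNReal.toReal_pow,
      ENNReal.toReal_ofReal (by linarith), ENNReal.toReal_ofReal (by positivity)]
  rw [h1]
  have h2 : r ^ 3 ≤ 1 := pow_le_one₀ hr.le hr1
  have := Real.pi_pos
  nlinarith

end integrals

section pointwise

attribute [local irreducible] ct

variable {I : Type} [Fintype I]

theorem dm {a r : ℝ} (ha : 0 ≤ a) (hr : 0 < r) (hr1 : r ≤ 1) {m n : ℕ} (h : m ≤ n) :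
    a / r ^ m ≤ a / r ^ n :=
  div_le_div_of_nonneg_left ha (by positivity) (pow_le_pow_of_le_one hr.le hr1 h)

theorem nk_eq (x : I → E3) (k : ℕ) (i : I) : nk x k i =
    ((Finset.univ.filter (fun j => ‖x j - x i‖ ≤ 2 * (2 / 2 ^ k))).card : ℝ) := by
  unfold nk
  rw [Finset.card_filter]
  push_cast
  refine Finset.sum_congr rfl fun j _ => ?_
  have h : (2 ^ k * ‖x j - x i‖ ≤ 4) ↔ (‖x j - x i‖ ≤ 2 * (2 / 2 ^ k)) := by
    have h2 : (2 : ℝ) * (2 / 2 ^ k) = 4 / 2 ^ k := by ring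
    rw [h2, le_div_iff₀ (by positivity), mul_comm]
  by_cases hh : 2 ^ k * ‖x j - x i‖ ≤ 4
  · rw [if_pos hh, if_pos (h.1 hh)]
  · rw [if_neg hh, if_neg (fun h3 => hh (h.2 h3))]

theorem nk_one (x : I → E3) (k : ℕ) (i : I) : 1 ≤ nk x k i := by
  unfold nk
  have h1 : (if 2 ^ k * ‖x i - x i‖ ≤ 4 then (1 : ℝ) else 0) = 1 := by simp
  have h := Finset.single_le_sum (s := Finset.univ)
    (f := fun j => if 2 ^ k * ‖x j - x i‖ ≤ 4 then (1 : ℝ) else 0)
    (fun j _ => by split <;> norm_num) (Finset.mem_univ i)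
  exact h1.symm.le.trans h

theorem nk_rpow_one (x : I → E3) (k : ℕ) (i : I) : 1 ≤ nk x k i ^ ((2 : ℝ) / 3) :=
  Real.one_le_rpow (nk_one x k i) (by norm_num)

theorem nb_eq (y : E3) (R : ℝ) (x : I → E3) :
    nb y R x = ((Finset.univ.filter (fun i => ‖x i - y‖ ≤ R)).card : ℝ) := by
  unfold nb
  rw [Finset.card_filter]
  push_cast
  rfl

theorem nb_nonneg (y : E3) (R : ℝ) (x : I → E3) : 0 ≤ nb y R x := by
  rw [nb_eq]; positivity

theorem rpow_le_add {n : ℝ} (hn : 0 ≤ n) : n ^ ((2 : ℝ) / 3) ≤ 1 + n := by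
  rcases le_or_gt n 1 with h | h
  · have := Real.rpow_le_one hn h (show (0 : ℝ) ≤ 2 / 3 by norm_num)
    linarith
  · have := Real.rpow_le_rpow_of_exponent_le h.le (show (2 : ℝ) / 3 ≤ 1 by norm_num)
    rw [Real.rpow_one] at this
    linarith

/-- the constant `8 · 4π/3` -/
noncomputable def v8 : ℝ := 8 * (Real.pi * 4 / 3)

theorem v8_pos : 0 < v8 := by unfold v8; have := Real.pi_pos; positivity

theorem int_one_ball (k : ℕ) (v : E3) :
    ∫ _ω in Metric.ball v (2 / 2 ^ k), (1 : ℝ) = v8 / 8 ^ k := by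
  rw [setIntegral_const, smul_eq_mul, mul_one, Measure.real, vol_ball _ _ (by positivity)]
  unfold v8
  rw [div_pow]
  have : ((2 : ℝ) ^ k) ^ 3 = 8 ^ k := by rw [← pow_mul, mul_comm, pow_mul]; norm_num
  rw [this]
  ring

theorem near_ball {Cn : ℝ} (hCn0 : 0 < Cn)
    (hCn : ∀ (x : I → E3) (v : E3) (R : ℝ), 0 < R → ∫ w in Metric.ball v R, near2 w x ≤
        Cn * R * (1 + ((Finset.univ.filter (fun i => ‖x i - v‖ ≤ 2 * R)).card : ℝ) ^ ((2 : ℝ) / 3)))
    (x : I → E3) (k : ℕ) (i : I) :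
    ∫ ω in Metric.ball (x i) (2 / 2 ^ k), (1 + near2 ω x) ≤
      (v8 + 4 * Cn) / 2 ^ k * nk x k i ^ ((2 : ℝ) / 3) := by
  have hρ : (0 : ℝ) < 2 / 2 ^ k := by positivity
  have i0 : IntegrableOn (fun _ : E3 => (1 : ℝ)) (Metric.ball (x i) (2 / 2 ^ k)) :=
    integrableOn_const (hs := measure_ball_lt_top.ne)
  rw [integral_add i0 (near2_int x _ _ hρ), int_one_ball]
  have h1 := hCn x (x i) (2 / 2 ^ k) hρ
  rw [← nk_eq] at h1
  have h2 := nk_rpow_one x k i
  set q := nk x k i ^ ((2 : ℝ) / 3) with hq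
  have h3 : v8 / 8 ^ k ≤ v8 / 2 ^ k * q := by
    have h4 : v8 / 8 ^ k ≤ v8 / 2 ^ k :=
      div_le_div_of_nonneg_left v8_pos.le (by positivity) (pow_le_pow_left₀ (by norm_num)
        (by norm_num) k)
    have h5 : 0 ≤ v8 / 2 ^ k := by have := v8_pos; positivity
    nlinarith
  have h6 : Cn * (2 / 2 ^ k) * (1 + q) ≤ 4 * Cn / 2 ^ k * q := by
    have h7 : Cn * (2 / 2 ^ k) * (1 + q) ≤ Cn * (2 / 2 ^ k) * (2 * q) := by
      apply mul_le_mul_of_nonneg_left (by linarith); positivity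
    refine h7.trans (le_of_eq ?_)
    ring
  calc _ ≤ v8 / 2 ^ k * q + 4 * Cn / 2 ^ k * q := add_le_add h3 (h1.trans h6)
    _ = _ := by ring

/-- the sum over the particles close to `y` -/
noncomputable def S1 (y : E3) (r : ℝ) (k : ℕ) (x : I → E3) : ℝ :=
  ∑ i, if ‖x i - y‖ < 6 * r then nk x k i ^ ((2 : ℝ) / 3) else 0

theorem S1_nonneg (y : E3) (r : ℝ) (k : ℕ) (x : I → E3) : 0 ≤ S1 y r k x := by
  refine Finset.sum_nonneg fun i _ => ?_
  split
  · have := nk_rpow_one x k i; linarith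
  · exact le_rfl

variable {K z' r : ℝ} {k : ℕ} {y : E3} {P : E3 → E3 → ℝ}

theorem I1 (hr : 0 < r) (hkr : 1 ≤ 2 ^ k * r) {Cn : ℝ} (hCn0 : 0 < Cn)
    (hCn : ∀ (x : I → E3) (v : E3) (R : ℝ), 0 < R → ∫ w in Metric.ball v R, near2 w x ≤
        Cn * R * (1 + ((Finset.univ.filter (fun i => ‖x i - v‖ ≤ 2 * R)).card : ℝ) ^ ((2 : ℝ) / 3)))
    (x : I → E3) :
    IntegrableOn (fun ω => n2 k ω x * (1 + near2 ω x)) (Metric.closedBall y (3 * r)) ∧
    ∫ ω in Metric.closedBall y (3 * r), n2 k ω x * (1 + near2 ω x) ≤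
      (v8 + 4 * Cn) / 2 ^ k * S1 y r k x := by
  have h := n2_int (y := y) hr hkr (fun ω => 1 + near2 ω x)
    (fun w => by have := near2_nonneg w x; linarith)
    (fun v R hR => (integrableOn_const (hs := measure_ball_lt_top.ne)).add (near2_int x v R hR)) x
  refine ⟨h.1, h.2.trans ?_⟩
  unfold S1
  rw [Finset.mul_sum]
  refine Finset.sum_le_sum fun i _ => ?_
  split
  · exact near_ball hCn0 hCn x k i
  · simp

theorem I2 (hr : 0 < r) (hkr : 1 ≤ 2 ^ k * r) (x : I → E3) :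
    IntegrableOn (fun ω => n2 k ω x) (Metric.closedBall y (3 * r)) ∧
    ∫ ω in Metric.closedBall y (3 * r), n2 k ω x ≤ v8 / 8 ^ k * S1 y r k x ∧
    ∫ ω in Metric.closedBall y (3 * r), n2 k ω x ≤ v8 / 8 ^ k * nb y (8 * r) x := by
  have h := n2_int (y := y) hr hkr (fun _ => 1) (fun w => zero_le_one)
    (fun v R hR => (integrableOn_const (hs := measure_ball_lt_top.ne))) x
  simp only [mul_one, int_one_ball] at h
  have hv : 0 ≤ v8 / 8 ^ k := by have := v8_pos; positivity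
  refine ⟨h.1, h.2.trans ?_, h.2.trans ?_⟩
  · unfold S1
    rw [Finset.mul_sum]
    refine Finset.sum_le_sum fun i _ => ?_
    split
    · have := nk_rpow_one x k i
      nlinarith
    · simp
  · unfold nb
    rw [Finset.mul_sum]
    refine Finset.sum_le_sum fun i _ => ?_
    split
    · rw [if_pos (by linarith), mul_one]
    · split
      · simpa using hv
      · simp

theorem I3 (hr : 0 < r) (hr1 : r ≤ 1) {Cn : ℝ} (hCn0 : 0 < Cn)
    (hCn : ∀ (x : I → E3) (v : E3) (R : ℝ), 0 < R → ∫ w in Metric.ball v R, near2 w x ≤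
        Cn * R * (1 + ((Finset.univ.filter (fun i => ‖x i - v‖ ≤ 2 * R)).card : ℝ) ^ ((2 : ℝ) / 3)))
    (x : I → E3) :
    IntegrableOn (fun ω => 1 + near2 ω x) (Metric.closedBall y (3 * r)) ∧
    ∫ ω in Metric.closedBall y (3 * r), (1 + near2 ω x) ≤
      (36 * Real.pi + 8 * Cn) * (1 + nb y (8 * r) x) := by
  have h4 : (0 : ℝ) < 4 * r := by linarith
  have i1 : IntegrableOn (fun ω => near2 ω x) (Metric.closedBall y (3 * r)) :=
    (near2_int x y (4 * r) h4).mono_set (A_sub hr)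
  have hfin : volume (Metric.closedBall y (3 * r)) ≠ ⊤ := measure_closedBall_lt_top.ne
  have i0 : IntegrableOn (fun _ : E3 => (1 : ℝ)) (Metric.closedBall y (3 * r)) :=
    integrableOn_const (hs := hfin)
  refine ⟨i0.add i1, ?_⟩
  rw [integral_add i0 i1, setIntegral_const, smul_eq_mul, mul_one, Measure.real]
  have h1 := vol_A (y := y) hr hr1
  have h2 : ∫ ω in Metric.closedBall y (3 * r), near2 ω x ≤
      ∫ ω in Metric.ball y (4 * r), near2 ω x :=
    setIntegral_mono_set (near2_int x y (4 * r) h4)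
      (Filter.Eventually.of_forall fun w => near2_nonneg w x) (A_sub hr).eventuallyLE
  have h3 := hCn x y (4 * r) h4
  have h5 : (2 : ℝ) * (4 * r) = 8 * r := by ring
  rw [h5, ← nb_eq] at h3
  have hn := nb_nonneg y (8 * r) x
  have h6 := rpow_le_add hn
  set n := nb y (8 * r) x with hn'
  have h7 : Cn * (4 * r) * (1 + n ^ ((2 : ℝ) / 3)) ≤ 8 * Cn * (1 + n) := by
    have h8 : 0 ≤ n ^ ((2 : ℝ) / 3) := Real.rpow_nonneg hn _
    calc Cn * (4 * r) * (1 + n ^ ((2 : ℝ) / 3)) ≤ Cn * (4 * 1) * (1 + n ^ ((2 : ℝ) / 3)) := by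
          gcongr
      _ ≤ Cn * (4 * 1) * (2 * (1 + n)) := by
          gcongr
          linarith
      _ = _ := by ring
  have hpi := Real.pi_pos
  nlinarith

/-- the majorant `G` -/
noncomputable def GG (K z' r : ℝ) (k : ℕ) (y : E3) (x : I → E3) (ω : E3) : ℝ :=
  bt y r k x ^ 2 * (2 / 2 ^ k + 3 * AK K z' r k * n2 k ω x)

/-- the majorant `G'` -/
noncomputable def GG' (K z' r Db L : ℝ) (k : ℕ) (y : E3) (x : I → E3) (ω : E3) : ℝ :=
  4 * (1 / 2 ^ k + 3 / 2 * (AK K z' r k * n2 k ω x)) * (Db / (2 ^ k * r ^ 4)) +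
      3 * (16 * L ^ 2 + 1) * (AK K z' r k) * 4 ^ k * (bt y r k x ^ 2 * n2 k ω x)

theorem pointwise (h : KP K z' r k y P) {Cn : ℝ} (hCn0 : 0 < Cn)
    (hCn : ∀ (x : I → E3) (v : E3) (R : ℝ), 0 < R → ∫ w in Metric.ball v R, near2 w x ≤
        Cn * R * (1 + ((Finset.univ.filter (fun i => ‖x i - v‖ ≤ 2 * R)).card : ℝ) ^ ((2 : ℝ) / 3)))
    {Db L : ℝ} (hDb0 : 0 ≤ Db) (x : I → E3) :
    ∫ ω in Metric.closedBall y (3 * r), (GG K z' r k y x ω * (1 + near2 ω x) +
      GG' K z' r Db L k y x ω) ≤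
      (6 * z' * K * (v8 + 4 * Cn) + 6 * (16 * L ^ 2 + 1) * z' * K * v8) / r ^ 6 *
        (bt y r k x ^ 2 * S1 y r k x) +
      (2 * (36 * Real.pi + 8 * Cn) + 144 * Real.pi * Db + 12 * z' * K * Db * v8) / r ^ 6 *
        (1 / 2 ^ k) * (1 + nb y (8 * r) x) := by
  have hr := h.r0
  have hr1 := h.r1
  have hK := h.K0
  have hz := h.z0
  have hpi := Real.pi_pos
  have hv8 := v8_pos
  have hA := h.AK_pos
  obtain ⟨i1, b1⟩ := I1 (y := y) hr h.kr hCn0 hCn x
  obtain ⟨i2, b2, b2'⟩ := I2 (y := y) hr h.kr x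
  obtain ⟨i3, b3⟩ := I3 (y := y) hr hr1 hCn0 hCn x
  have hfin : volume (Metric.closedBall y (3 * r)) ≠ ⊤ := measure_closedBall_lt_top.ne
  have i0 : IntegrableOn (fun _ : E3 => 4 * (1 / 2 ^ k) * (Db / (2 ^ k * r ^ 4)))
    (Metric.closedBall y (3 * r)) := integrableOn_const (hs := hfin)
  set bb := bt y r k x ^ 2 with hbb
  have hbb0 : 0 ≤ bb := sq_nonneg _
  have hbb1 : bb ≤ 1 := by
    classical exact bt_sq_le y r k x
  set A := AK K z' r k with hAdef
  have e : ∀ ω, GG K z' r k y x ω * (1 + near2 ω x) + GG' K z' r Db L k y x ω =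
      (bb * (2 / 2 ^ k)) * (1 + near2 ω x) + (3 * A * bb) * (n2 k ω x * (1 + near2 ω x)) +
      4 * (1 / 2 ^ k) * (Db / (2 ^ k * r ^ 4)) +
      (6 * A * (Db / (2 ^ k * r ^ 4)) + 3 * (16 * L ^ 2 + 1) * A * 4 ^ k * bb) * n2 k ω x := by
    intro ω
    unfold GG GG'
    rw [← hbb, ← hAdef]
    ring
  simp_rw [e]
  have j1 : Integrable (fun ω => (bb * (2 / 2 ^ k)) * (1 + near2 ω x))
    (volume.restrict (Metric.closedBall y (3 * r))) := Integrable.const_mul i3 _
  have j2 : Integrable (fun ω => (3 * A * bb) * (n2 k ω x * (1 + near2 ω x)))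
    (volume.restrict (Metric.closedBall y (3 * r))) := Integrable.const_mul i1 _
  have j3 : Integrable (fun ω => (6 * A * (Db / (2 ^ k * r ^ 4)) +
      3 * (16 * L ^ 2 + 1) * A * 4 ^ k * bb) * n2 k ω x)
    (volume.restrict (Metric.closedBall y (3 * r))) := Integrable.const_mul i2 _
  have j12 : Integrable (fun ω => (bb * (2 / 2 ^ k)) * (1 + near2 ω x) +
      (3 * A * bb) * (n2 k ω x * (1 + near2 ω x)))
    (volume.restrict (Metric.closedBall y (3 * r))) := j1.add j2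
  have j120 : Integrable (fun ω => (bb * (2 / 2 ^ k)) * (1 + near2 ω x) +
      (3 * A * bb) * (n2 k ω x * (1 + near2 ω x)) + 4 * (1 / 2 ^ k) * (Db / (2 ^ k * r ^ 4)))
    (volume.restrict (Metric.closedBall y (3 * r))) := j12.add i0
  rw [integral_add j120 j3, integral_add j12 i0, integral_add j1 j2,
    setIntegral_const, smul_eq_mul, Measure.real, integral_const_mul, integral_const_mul,
    integral_const_mul]
  have hv := vol_A (y := y) hr hr1
  have hn := nb_nonneg y (8 * r) x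
  have hS := S1_nonneg y r k x
  set n := nb y (8 * r) x with hn'
  set s := S1 y r k x with hs'
  set V := (volume (Metric.closedBall y (3 * r))).toReal with hV
  have hV0 : 0 ≤ V := ENNReal.toReal_nonneg
  have h2k : (1 : ℝ) ≤ 2 ^ k := one_le_pow₀ (by norm_num)
  have h2k' : (1 : ℝ) / 2 ^ k ≤ 1 := by
    rw [div_le_one (by positivity)]; exact h2k
  have t1 : bb * (2 / 2 ^ k) * ∫ ω in Metric.closedBall y (3 * r), (1 + near2 ω x) ≤
      2 * (36 * Real.pi + 8 * Cn) / r ^ 6 * (1 / 2 ^ k) * (1 + n) := by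
    have h0 : 0 ≤ (36 * Real.pi + 8 * Cn) * (1 + n) := by positivity
    calc _ ≤ bb * (2 / 2 ^ k) * ((36 * Real.pi + 8 * Cn) * (1 + n)) := by gcongr
      _ ≤ 1 * (2 / 2 ^ k) * ((36 * Real.pi + 8 * Cn) * (1 + n)) := by gcongr
      _ = 2 * (36 * Real.pi + 8 * Cn) / r ^ 0 * (1 / 2 ^ k) * (1 + n) := by ring
      _ ≤ _ := by
          gcongr ?_ * _ * _
          exact dm (by positivity) hr hr1 (by norm_num)
  have t2 : 3 * A * bb * ∫ ω in Metric.closedBall y (3 * r), n2 k ω x * (1 + near2 ω x) ≤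
      6 * z' * K * (v8 + 4 * Cn) / r ^ 6 * (bb * s) := by
    calc _ ≤ 3 * A * bb * ((v8 + 4 * Cn) / 2 ^ k * s) := by gcongr
      _ = 6 * z' * K * (v8 + 4 * Cn) / r ^ 2 * (bb * s) := by
          rw [hAdef]; unfold AK; field_simp; ring
      _ ≤ _ := by
          gcongr ?_ * _
          exact dm (by positivity) hr hr1 (by norm_num)
  have t3 : V * (4 * (1 / 2 ^ k) * (Db / (2 ^ k * r ^ 4))) ≤
      144 * Real.pi * Db / r ^ 6 * (1 / 2 ^ k) * (1 + n) := by
    have h0 : Db / (2 ^ k * r ^ 4) ≤ Db / (1 * r ^ 4) := by gcongr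
    calc _ ≤ 36 * Real.pi * (4 * (1 / 2 ^ k) * (Db / (1 * r ^ 4))) := by gcongr
      _ = 144 * Real.pi * Db / r ^ 4 * (1 / 2 ^ k) * 1 := by rw [one_mul]; ring
      _ ≤ 144 * Real.pi * Db / r ^ 4 * (1 / 2 ^ k) * (1 + n) := by gcongr; linarith
      _ ≤ _ := by
          gcongr ?_ * _ * _
          exact dm (by positivity) hr hr1 (by norm_num)
  have hI0 : 0 ≤ ∫ ω in Metric.closedBall y (3 * r), n2 k ω x := by
    classical exact integral_nonneg fun ω => n2_nonneg k ω x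
  have t4 : 6 * A * (Db / (2 ^ k * r ^ 4)) * ∫ ω in Metric.closedBall y (3 * r), n2 k ω x ≤
      12 * z' * K * Db * v8 / r ^ 6 * (1 / 2 ^ k) * (1 + n) := by
    have h8 : v8 / 8 ^ k ≤ v8 / 2 ^ k :=
      div_le_div_of_nonneg_left v8_pos.le (by positivity) (pow_le_pow_left₀ (by norm_num)
        (by norm_num) k)
    calc _ ≤ 6 * A * (Db / (2 ^ k * r ^ 4)) * (v8 / 8 ^ k * n) := by gcongr
      _ ≤ 6 * A * (Db / (2 ^ k * r ^ 4)) * (v8 / 2 ^ k * (1 + n)) := by
          gcongr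
          linarith
      _ = _ := by
          rw [hAdef]; unfold AK; field_simp
          ring
  have t5 : 3 * (16 * L ^ 2 + 1) * A * 4 ^ k * bb *
      ∫ ω in Metric.closedBall y (3 * r), n2 k ω x ≤
      6 * (16 * L ^ 2 + 1) * z' * K * v8 / r ^ 6 * (bb * s) := by
    have e8 : (8 : ℝ) ^ k = 2 ^ k * 4 ^ k := by rw [← mul_pow]; norm_num
    calc _ ≤ 3 * (16 * L ^ 2 + 1) * A * 4 ^ k * bb * (v8 / 8 ^ k * s) := by gcongr
      _ = 6 * (16 * L ^ 2 + 1) * z' * K * v8 / r ^ 2 * (bb * s) := by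
          rw [hAdef, e8]; unfold AK; field_simp; ring
      _ ≤ _ := by
          gcongr ?_ * _
          exact dm (by positivity) hr hr1 (by norm_num)
  have e6 : (6 * A * (Db / (2 ^ k * r ^ 4)) + 3 * (16 * L ^ 2 + 1) * A * 4 ^ k * bb) *
      ∫ ω in Metric.closedBall y (3 * r), n2 k ω x =
      6 * A * (Db / (2 ^ k * r ^ 4)) * (∫ ω in Metric.closedBall y (3 * r), n2 k ω x) +
      3 * (16 * L ^ 2 + 1) * A * 4 ^ k * bb *
        ∫ ω in Metric.closedBall y (3 * r), n2 k ω x := by ring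
  rw [e6]
  have e7 : (6 * z' * K * (v8 + 4 * Cn) + 6 * (16 * L ^ 2 + 1) * z' * K * v8) / r ^ 6 * (bb * s) +
      (2 * (36 * Real.pi + 8 * Cn) + 144 * Real.pi * Db + 12 * z' * K * Db * v8) / r ^ 6 *
        (1 / 2 ^ k) * (1 + n) =
      (2 * (36 * Real.pi + 8 * Cn) / r ^ 6 * (1 / 2 ^ k) * (1 + n) +
      6 * z' * K * (v8 + 4 * Cn) / r ^ 6 * (bb * s) +
      144 * Real.pi * Db / r ^ 6 * (1 / 2 ^ k) * (1 + n)) +
      (12 * z' * K * Db * v8 / r ^ 6 * (1 / 2 ^ k) * (1 + n) +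
      6 * (16 * L ^ 2 + 1) * z' * K * v8 / r ^ 6 * (bb * s)) := by ring
  rw [e7]
  exact add_le_add (add_le_add (add_le_add t1 t2) t3) (add_le_add t4 t5)

end pointwise

section fin

attribute [local irreducible] ct

variable {S : Type} (D : Species S) {I : Type} [Fintype I] [DecidableEq I]

theorem bdd_int {sp : I → S} {ℓ : ℝ} {Ψ : Wave D I} (hΨ : IsState D sp ℓ Ψ)
    (W : (I → E3) → ℝ) (hW : Measurable W) (M : ℝ) (hM : ∀ x, |W x| ≤ M) (τ : I → Fin D.g) :
    Integrable (fun x => W x * ‖Ψ τ x‖ ^ 2) :=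
  Integrable.bdd_mul (c := M) (int_state D sp ℓ Ψ hΨ τ).1 hW.aestronglyMeasurable
    (Filter.Eventually.of_forall fun x => by rw [Real.norm_eq_abs]; exact hM x)

theorem wm_mono (W₁ W₂ : (I → E3) → ℝ) (Ψ : Wave D I) (h0 : ∀ x, 0 ≤ W₁ x)
    (h : ∀ x, W₁ x ≤ W₂ x) (hi : ∀ τ, Integrable (fun x => W₂ x * ‖Ψ τ x‖ ^ 2)) :
    wm D W₁ Ψ ≤ wm D W₂ Ψ :=
  Finset.sum_le_sum fun τ _ => integral_mono_of_nonneg
    (Filter.Eventually.of_forall fun x => mul_nonneg (h0 x) (sq_nonneg _)) (hi τ)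
    (Filter.Eventually.of_forall fun x => mul_le_mul_of_nonneg_right (h x) (sq_nonneg _))

theorem wm_nonneg (W : (I → E3) → ℝ) (Ψ : Wave D I) (h0 : ∀ x, 0 ≤ W x) : 0 ≤ wm D W Ψ :=
  Finset.sum_nonneg fun τ _ => integral_nonneg fun x => mul_nonneg (h0 x) (sq_nonneg _)

theorem wm_lin (a b : ℝ) (W₁ W₂ : (I → E3) → ℝ) (Ψ : Wave D I)
    (h1 : ∀ τ, Integrable (fun x => W₁ x * ‖Ψ τ x‖ ^ 2))
    (h2 : ∀ τ, Integrable (fun x => W₂ x * ‖Ψ τ x‖ ^ 2)) :
    wm D (fun x => a * W₁ x + b * W₂ x) Ψ = a * wm D W₁ Ψ + b * wm D W₂ Ψ := by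
  unfold wm
  rw [Finset.mul_sum, Finset.mul_sum, ← Finset.sum_add_distrib]
  refine Finset.sum_congr rfl fun τ _ => ?_
  rw [← integral_const_mul, ← integral_const_mul, ← integral_add ((h1 τ).const_mul a)
    ((h2 τ).const_mul b)]
  refine integral_congr_ae (Filter.Eventually.of_forall fun x => ?_)
  show (a * W₁ x + b * W₂ x) * ‖Ψ τ x‖ ^ 2 = a * (W₁ x * ‖Ψ τ x‖ ^ 2) + b * (W₂ x * ‖Ψ τ x‖ ^ 2)
  ring

theorem bt_meas (y : E3) (r : ℝ) (k : ℕ) : Measurable (bt y r k : (I → E3) → ℝ) :=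
  (bt_smooth y r k).continuous.measurable

theorem nk_meas (k : ℕ) (i : I) : Measurable (fun x : I → E3 => nk x k i) := by
  unfold nk
  refine Finset.measurable_fun_sum _ fun j _ => ?_
  refine Measurable.ite ?_ measurable_const measurable_const
  exact measurableSet_le ((((measurable_pi_apply j).sub (measurable_pi_apply i)).norm).const_mul _)
    measurable_const

theorem nk_le (x : I → E3) (k : ℕ) (i : I) : nk x k i ≤ Fintype.card I := by
  unfold nk
  calc _ ≤ ∑ _j : I, (1 : ℝ) := Finset.sum_le_sum fun j _ => by split <;> norm_num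
    _ = _ := by simp

theorem dist_meas (i : I) (y : E3) : Measurable (fun x : I → E3 => ‖x i - y‖) := by
  have h : Continuous (fun x : I → E3 => ‖x i - y‖) := by fun_prop
  exact h.measurable

theorem S1_meas (y : E3) (r : ℝ) (k : ℕ) : Measurable (S1 y r k : (I → E3) → ℝ) := by
  have h : ∀ i : I, Measurable (fun x : I → E3 =>
      if ‖x i - y‖ < 6 * r then nk x k i ^ ((2 : ℝ) / 3) else 0) := by
    intro i
    have h1 : MeasurableSet {x : I → E3 | ‖x i - y‖ < 6 * r} :=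
      measurableSet_lt (dist_meas i y) measurable_const
    exact Measurable.ite h1 ((nk_meas k i).pow_const _) measurable_const
  exact Finset.measurable_fun_sum _ fun i _ => h i

theorem S1_le (y : E3) (r : ℝ) (k : ℕ) (x : I → E3) :
    S1 y r k x ≤ Fintype.card I * (Fintype.card I : ℝ) ^ ((2 : ℝ) / 3) := by
  unfold S1
  calc _ ≤ ∑ _i : I, (Fintype.card I : ℝ) ^ ((2 : ℝ) / 3) := by
        refine Finset.sum_le_sum fun i _ => ?_
        split
        · exact Real.rpow_le_rpow (by have := nk_one x k i; linarith) (nk_le x k i) (by norm_num)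
        · positivity
    _ = _ := by simp

theorem nb_meas (y : E3) (R : ℝ) : Measurable (fun x : I → E3 => nb y R x) := by
  have h : ∀ i : I, Measurable (fun x : I → E3 => if ‖x i - y‖ ≤ R then (1 : ℝ) else 0) := by
    intro i
    have h1 : MeasurableSet {x : I → E3 | ‖x i - y‖ ≤ R} :=
      measurableSet_le (dist_meas i y) measurable_const
    exact Measurable.ite h1 measurable_const measurable_const
  exact Finset.measurable_fun_sum _ fun i _ => h i

theorem nb_le (y : E3) (R : ℝ) (x : I → E3) : nb y R x ≤ Fintype.card I := by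
  unfold nb
  calc _ ≤ ∑ _i : I, (1 : ℝ) := Finset.sum_le_sum fun i _ => by split <;> norm_num
    _ = _ := by simp

theorem n2_meas (k : ℕ) : Measurable (fun p : (I → E3) × E3 => n2 k p.2 p.1) := by
  unfold n2 ind
  refine Finset.measurable_fun_sum _ fun i _ => ?_
  refine Measurable.ite ?_ measurable_const measurable_const
  exact measurableSet_lt
    (((((measurable_pi_apply i).comp measurable_fst).sub measurable_snd).norm).const_mul _)
    measurable_const

end fin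

/-- TARGET (`C', m` depend only on `z`, `l` and on the constant `C` of `FL`) -/
theorem scale_term (z C : ℝ) (hz : 0 ≤ z) (hC : 0 ≤ C) (l : E3 → ℝ) (hl : ContDiff ℝ SM l)
    (hl1 : ∀ w, 1 ≤ ‖w‖ → l w = 1 / ‖w‖) :
    ∃ (C' : ℝ) (m : ℕ), 0 < C' ∧
    ∀ {S : Type} (D : Species S) {I : Type} [Fintype I] [DecidableEq I] (sp : I → S) (ℓ : ℝ)
      (pb : (I → E3) → ℝ), Continuous pb → (∀ s, |D.charge s| ≤ z) →
      ∀ (η : ℝ), 0 ≤ η → ∀ Ψ : Wave D I, IsState D sp ℓ Ψ →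
      nrm2 D Ψ = 1 → FL D sp ℓ pb C η Ψ →
      ∀ (y : E3) (r : ℝ) (k : ℕ), 0 < r → r ≤ 1 → 1 ≤ 2 ^ k * r →
        Metric.closedBall y (4 * r) ⊆ cube ℓ →
        |wm D (fun x => bt y r k x ^ 2 * ∑ i, ∑ j, D.charge (sp i) * D.charge (sp j) *
            ((cy y r (x i) - cy y r (x j)) ^ 2 / 2 * psi l k (x i - x j))) Ψ| ≤
          C' / r ^ m * (wm D (fun x => bt y r k x ^ 2 * ∑ i, (if ‖x i - y‖ < 6 * r then
              nk x k i ^ ((2 : ℝ) / 3) else 0)) Ψ +
            1 / 2 ^ k * wm D (fun x => 1 + nb y (8 * r) x) Ψ +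
            (1 + (Fintype.card I : ℝ)) * 2 ^ k * η) := by
  obtain ⟨K, hK, hker⟩ := kern_e l hl hl1
  obtain ⟨Cn, hCn0, hCn⟩ := near2_ball
  obtain ⟨L, hL0, hL⟩ := ct_deriv
  obtain ⟨Db, hDb0, hDb⟩ := bt_gr
  have hpi := Real.pi_pos
  have hv8 := v8_pos
  obtain ⟨z', hz'⟩ : ∃ z', z' = z + 1 := ⟨_, rfl⟩
  have hz'0 : 0 < z' := by linarith
  obtain ⟨a₀, ha₀⟩ : ∃ a₀, a₀ = 6 * z' * K * (v8 + 4 * Cn) + 6 * (16 * L ^ 2 + 1) * z' * K * v8 :=
    ⟨_, rfl⟩
  obtain ⟨b₀, hb₀⟩ : ∃ b₀, b₀ = 2 * (36 * Real.pi + 8 * Cn) + 144 * Real.pi * Db +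
    12 * z' * K * Db * v8 := ⟨_, rfl⟩
  obtain ⟨e₀, he₀⟩ : ∃ e₀, e₀ = 72 * Real.pi * (1 + 4 * z' * K) := ⟨_, rfl⟩
  have ha₀' : 0 ≤ a₀ := by rw [ha₀]; positivity
  have hb₀' : 0 ≤ b₀ := by rw [hb₀]; positivity
  have he₀' : 0 ≤ e₀ := by rw [he₀]; positivity
  refine ⟨C * (a₀ + b₀ + e₀) + 1, 8, by positivity, ?_⟩
  intro S D I _ _ sp ℓ pb hpb hch η hη Ψ hΨ hn hFL y r k hr hr1 hkr hball
  obtain ⟨P, hP1, hP2, hP3, hP4, hP5, hP6⟩ := hker y r k hr hr1 hkr
  have h : KP K z' r k y P := ⟨hP1, hP2, hP3, hP4, hK, hz'0, hr, hr1, hkr⟩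
  have hA := h.AK_pos
  have hc : ∀ i, |D.charge (sp i)| ≤ z' := fun i => (hch _).trans (by linarith)
  have hc0 : ∀ i : I, |(0 : ℝ)| ≤ z' := fun i => by simpa using hz'0.le
  have h2k : (1 : ℝ) ≤ 2 ^ k := one_le_pow₀ (by norm_num)
  set N : ℝ := (Fintype.card I : ℝ) with hN
  have hN0 : 0 ≤ N := Nat.cast_nonneg _
  have hDb' : ∀ x : I → E3, gr (bt y r k) x ≤ Db / (2 ^ k * r ^ 4) := fun x => hDb y r k x hr
  have key := tci D sp ℓ pb hpb C η hC hη Ψ hΨ hn hFL r hr hr1 (Metric.closedBall y (3 * r))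
    measurableSet_closedBall ?_ ?_
    (fun x ω => bt y r k x ^ 2 * ∑ i, D.charge (sp i) * P (x i) ω)
    (GG K z' r k y) (GG' K z' r Db L k y) (Real.sqrt (1 + 2 * AK K z' r k * N))
    (max (2 / 2 ^ k + 3 * AK K z' r k * N)
      (4 * (1 / 2 ^ k + 3 / 2 * (AK K z' r k * N)) * (Db / (2 ^ k * r ^ 4)) +
      3 * (16 * L ^ 2 + 1) * (AK K z' r k) * 4 ^ k * N)) ?_ ?_ ?_ ?_ ?_
  rotate_left
  · refine ⟨‖y‖ + 3 * r, fun w hw => ?_⟩
    rw [mem_closedBall_iff_norm] at hw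
    rw [mem_closedBall_zero_iff]
    have : w = y + (w - y) := by abel
    rw [this]
    exact (norm_add_le _ _).trans (by linarith)
  · intro ω hω
    refine subset_trans ?_ hball
    refine Metric.closedBall_subset_closedBall' ?_
    have := Metric.mem_closedBall.1 hω
    linarith
  · have hcont : Continuous (fun p : (I → E3) × E3 =>
        bt y r k p.1 ^ 2 * ∑ i, D.charge (sp i) * P (p.1 i) p.2) := by
      refine (((bt_smooth y r k).continuous.comp continuous_fst).pow 2).mul ?_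
      refine continuous_finsetSum _ fun i _ => continuous_const.mul ?_
      have hPc : Continuous (fun p : E3 × E3 => P p.1 p.2) := h.smooth.continuous
      have hq : Continuous (fun p : (I → E3) × E3 => (p.1 i, p.2)) :=
        ((continuous_apply i).comp continuous_fst).prodMk continuous_snd
      exact hPc.comp hq
    exact hcont.measurable
  · unfold GG
    exact (((bt_meas y r k).comp measurable_fst).pow_const 2).mul
      (((n2_meas k).const_mul _).const_add _)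
  · unfold GG'
    refine Measurable.add ?_ ?_
    · exact (((((n2_meas k).const_mul _).const_mul _).const_add _).const_mul _).mul_const _
    · exact ((((bt_meas y r k).comp measurable_fst).pow_const 2).mul (n2_meas k)).const_mul _
  · intro x ω _
    have a1 := n2_le k ω x
    have a2 := n2_nonneg k ω x
    have a3 := bt_sq_le y r k x
    have a4 : 0 ≤ bt y r k x ^ 2 := sq_nonneg _
    constructor
    · refine le_trans ?_ (le_max_left _ _)
      unfold GG
      calc _ ≤ 1 * (2 / 2 ^ k + 3 * AK K z' r k * n2 k ω x) := by gcongr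
        _ ≤ _ := by rw [one_mul]; gcongr
    · refine le_trans ?_ (le_max_right _ _)
      unfold GG'
      have a5 : bt y r k x ^ 2 * n2 k ω x ≤ N := by
        calc _ ≤ 1 * n2 k ω x := by gcongr
          _ ≤ N := by rw [one_mul]; exact a1
      gcongr
  · intro ω _
    refine ⟨fF K z' r k y P (fun i => D.charge (sp i)) ω, fF K z' r k y P (fun _ => 0) ω,
      fF_smooth h hc ω, fF_smooth h hc0 ω,
      fF_sy sp _ (fun i j hij => by simp only [hij]) ω, fF_sy sp _ (fun _ _ _ => rfl) ω,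
      fF_bd h hc ω, fF_bd h hc0 ω, ?_, ?_, ?_⟩
    · intro x
      rw [fF_sq h hc, fF_sq h hc0, ← mul_sub]
      congr 1
      unfold gg
      rw [Finset.sum_add_distrib, Finset.sum_add_distrib]
      simp only [zero_mul, Finset.sum_const_zero]
      ring
    · intro x
      rw [fF_sq h hc, fF_sq h hc0, ← mul_add]
      unfold GG
      apply mul_le_mul_of_nonneg_left _ (sq_nonneg _)
      have b1 := sumgg_le h hc ω x
      have b2 := sumgg_le h hc0 ω x
      have b3 : (2 : ℝ) / 2 ^ k = 1 / 2 ^ k + 1 / 2 ^ k := by ring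
      rw [b3]
      linarith
    · intro x
      have b1 := fF_gr h hL hDb' hDb0 hc ω x
      have b2 := fF_gr h hL hDb' hDb0 hc0 ω x
      refine (add_le_add b1 b2).trans (le_of_eq ?_)
      unfold GG'
      ring
  · -- assembly
    have hid : (fun x => bt y r k x ^ 2 * ∑ i, ∑ j, D.charge (sp i) * D.charge (sp j) *
            ((cy y r (x i) - cy y r (x j)) ^ 2 / 2 * psi l k (x i - x j))) =
        (fun x : I → E3 => ∫ ω in Metric.closedBall y (3 * r),
          (bt y r k x ^ 2 * ∑ i, D.charge (sp i) * P (x i) ω) * (phi D sp ω x - pb x)) := by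
      funext x
      exact ident D sp l h hP5 hP6 (bt y r k x ^ 2) (pb x) x
    rw [hid]
    refine key.trans ?_
    set T1 : (I → E3) → ℝ := fun x => bt y r k x ^ 2 * S1 y r k x with hT1
    set T2 : (I → E3) → ℝ := fun x => 1 + nb y (8 * r) x with hT2
    have hT1' : (fun x : I → E3 => bt y r k x ^ 2 * ∑ i, (if ‖x i - y‖ < 6 * r then
              nk x k i ^ ((2 : ℝ) / 3) else 0)) = T1 := rfl
    rw [hT1']
    have m1 : Measurable T1 := ((bt_meas y r k).pow_const 2).mul (S1_meas y r k)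
    have m2 : Measurable T2 := (nb_meas y (8 * r)).const_add 1
    have n1 : ∀ x, 0 ≤ T1 x := fun x => mul_nonneg (sq_nonneg _) (S1_nonneg y r k x)
    have n2' : ∀ x, 0 ≤ T2 x := fun x => by
      have := nb_nonneg y (8 * r) x
      show 0 ≤ 1 + nb y (8 * r) x
      linarith
    have q1 : ∀ x, |T1 x| ≤ N * N ^ ((2 : ℝ) / 3) := fun x => by
      rw [abs_of_nonneg (n1 x)]
      have := S1_le y r k x
      have h3 := bt_sq_le y r k x
      have h4 := S1_nonneg y r k x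
      calc bt y r k x ^ 2 * S1 y r k x ≤ 1 * S1 y r k x := by gcongr
        _ ≤ _ := by rw [one_mul]; exact this
    have q2 : ∀ x, |T2 x| ≤ 1 + N := fun x => by
      rw [abs_of_nonneg (n2' x)]
      have := nb_le y (8 * r) x
      show 1 + nb y (8 * r) x ≤ 1 + N
      linarith
    have i1 := bdd_int D hΨ T1 m1 _ q1
    have i2 := bdd_int D hΨ T2 m2 _ q2
    have w1 : wm D (fun x => ∫ ω in Metric.closedBall y (3 * r),
        (GG K z' r k y x ω * (1 + near2 ω x) + GG' K z' r Db L k y x ω)) Ψ ≤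
        wm D (fun x => a₀ / r ^ 6 * T1 x + b₀ / r ^ 6 * (1 / 2 ^ k) * T2 x) Ψ := by
      refine wm_mono D _ _ Ψ (fun x => integral_nonneg fun ω => ?_) (fun x => ?_) fun τ => ?_
      · have a1 := n2_nonneg k ω x
        have a2 := near2_nonneg ω x
        show 0 ≤ GG K z' r k y x ω * (1 + near2 ω x) + GG' K z' r Db L k y x ω
        unfold GG GG'
        positivity
      · have := pointwise h hCn0 (fun x v R hR => (hCn x v R hR).2) (L := L) hDb0 x
        rw [ha₀, hb₀]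
        exact this
      · have := ((i1 τ).const_mul (a₀ / r ^ 6)).add ((i2 τ).const_mul (b₀ / r ^ 6 * (1 / 2 ^ k)))
        refine this.congr (Filter.Eventually.of_forall fun x => ?_)
        show a₀ / r ^ 6 * (T1 x * ‖Ψ τ x‖ ^ 2) + b₀ / r ^ 6 * (1 / 2 ^ k) * (T2 x * ‖Ψ τ x‖ ^ 2) =
          (a₀ / r ^ 6 * T1 x + b₀ / r ^ 6 * (1 / 2 ^ k) * T2 x) * ‖Ψ τ x‖ ^ 2
        ring
    rw [wm_lin D _ _ T1 T2 Ψ i1 i2] at w1
    have p1 := wm_nonneg D T1 Ψ n1
    have p2 := wm_nonneg D T2 Ψ n2'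
    set U := wm D T1 Ψ
    set V := wm D T2 Ψ
    -- the last term
    have w2 : 2 * Real.sqrt (1 + 2 * AK K z' r k * N) ^ 2 * η *
        (volume (Metric.closedBall y (3 * r))).toReal ≤ e₀ / r ^ 6 * ((1 + N) * 2 ^ k * η) := by
      rw [Real.sq_sqrt (by positivity)]
      have v1 := vol_A (y := y) hr hr1
      have v2 : 1 + 2 * AK K z' r k * N ≤ (1 + 4 * z' * K) / r ^ 2 * (2 ^ k * (1 + N)) := by
        have v3 : (1 : ℝ) ≤ 1 / r ^ 2 := by
          rw [le_div_iff₀ (by positivity), one_mul]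
          exact pow_le_one₀ hr.le hr1
        have v4 : 1 + 2 * AK K z' r k * N = 1 + 4 * z' * K * (2 ^ k * N) * (1 / r ^ 2) := by
          unfold AK; ring
        have v5 : (1 + 4 * z' * K) / r ^ 2 * (2 ^ k * (1 + N)) =
            (1 / r ^ 2) * (2 ^ k * (1 + N)) + 4 * z' * K * (2 ^ k * (1 + N)) * (1 / r ^ 2) := by
          ring
        rw [v4, v5]
        have v6 : 1 ≤ (1 / r ^ 2) * (2 ^ k * (1 + N)) := by
          have : (1 : ℝ) ≤ 2 ^ k * (1 + N) := by nlinarith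
          nlinarith
        have v7 : 4 * z' * K * (2 ^ k * N) * (1 / r ^ 2) ≤
            4 * z' * K * (2 ^ k * (1 + N)) * (1 / r ^ 2) := by
          gcongr
          linarith
        linarith
      calc 2 * (1 + 2 * AK K z' r k * N) * η * (volume (Metric.closedBall y (3 * r))).toReal
          ≤ 2 * ((1 + 4 * z' * K) / r ^ 2 * (2 ^ k * (1 + N))) * η * (36 * Real.pi) := by gcongr
        _ = e₀ / r ^ 2 * ((1 + N) * 2 ^ k * η) := by rw [he₀]; ring
        _ ≤ _ := by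
            gcongr ?_ * _
            exact dm he₀' hr hr1 (by norm_num)
    calc _ ≤ C / r ^ 2 * ((a₀ / r ^ 6 * U + b₀ / r ^ 6 * (1 / 2 ^ k) * V) +
          e₀ / r ^ 6 * ((1 + N) * 2 ^ k * η)) := by
          apply mul_le_mul_of_nonneg_left (add_le_add w1 w2)
          positivity
      _ = 1 / r ^ 8 * (C * (a₀ * U + b₀ * (1 / 2 ^ k * V) + e₀ * ((1 + N) * 2 ^ k * η))) := by
          field_simp
      _ ≤ 1 / r ^ 8 * ((C * (a₀ + b₀ + e₀) + 1) * (U + 1 / 2 ^ k * V + (1 + N) * 2 ^ k * η)) := by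
          apply mul_le_mul_of_nonneg_left _ (by positivity)
          have hV' : 0 ≤ 1 / 2 ^ k * V := by positivity
          have hE' : 0 ≤ (1 + N) * 2 ^ k * η := by positivity
          have g1 : a₀ * U + b₀ * (1 / 2 ^ k * V) + e₀ * ((1 + N) * 2 ^ k * η) ≤
              (a₀ + b₀ + e₀) * (U + 1 / 2 ^ k * V + (1 + N) * 2 ^ k * η) := by
            have : 0 ≤ a₀ * (1 / 2 ^ k * V + (1 + N) * 2 ^ k * η) +
                b₀ * (U + (1 + N) * 2 ^ k * η) + e₀ * (U + 1 / 2 ^ k * V) := by positivity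
            linarith [this]
          have g2 := mul_le_mul_of_nonneg_left g1 hC
          have g3 : 0 ≤ U + 1 / 2 ^ k * V + (1 + N) * 2 ^ k * η := by positivity
          linarith
      _ = _ := by ring

end Pool.Agent.Helper780_CP.RQ11
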