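import Pool.Agent.Helper780_CP.LLDefs2
import Pool.Agent.Helper780_CP.BnDefs
import Pool.Agent.Helper780_CP.RK4
import Pool.Agent.Helper780_CP.RQ11

set_option autoImplicit false

open MeasureTheory
open scoped Topology

namespace Pool.Agent.Helper780_CP.RB11

open Pool.Agent.Helper780_CP
open Pool.Agent.Helper985.CP

open Pool.Agent.Helper780_CP Pool.Agent.Helper985.CP
open Pool.Agent.Helper780_CP.RK4 (ddk sm_one_le sm_succ sm_dir sm_diff fd_scale dd_scale fd_mul dd_mul ct_bounds)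
open Pool.Agent.Helper780_CP.RQ11 (ct_smooth ct_nonneg ct_le_one ct_one ct_supp ct_zero)

theorem ct2_int_pos : 0 < ∫ w : E3, ct w ^ 2 := by
  apply Continuous.integral_pos_of_hasCompactSupport_nonneg_nonzero (x := 0)
  · exact ct_smooth.continuous.pow 2
  · exact HasCompactSupport.intro (isCompact_closedBall (0 : E3) 2) (fun x hx => by
      rw [mem_closedBall_zero_iff, not_le] at hx
      rw [ct_zero hx.le]; simp)
  · intro w; positivity
  · rw [ct_one (by simp)]; norm_num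

/-- normalised kernel -/
noncomputable def kq (v : E3) : ℝ := ct v ^ 2 / ∫ w : E3, ct w ^ 2

theorem kq_smooth : ContDiff ℝ SM kq := (ct_smooth.pow 2).div_const _

theorem kq_nn (v : E3) : 0 ≤ kq v := div_nonneg (sq_nonneg _) ct2_int_pos.le

theorem kq_zero {v : E3} (h : 2 ≤ ‖v‖) : kq v = 0 := by
  unfold kq; rw [ct_zero h]; simp

theorem kq_supp : HasCompactSupport kq :=
  HasCompactSupport.intro (isCompact_closedBall (0 : E3) 2) (fun x hx => by
      rw [mem_closedBall_zero_iff, not_le] at hx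
      exact kq_zero hx.le)

theorem kq_int (v : E3) : ∫ w, kq (v - w) = 1 := by
  rw [integral_sub_left_eq_self kq volume v]
  unfold kq
  rw [integral_div, div_self ct2_int_pos.ne']

/-- average -/
noncomputable def Av (f : E3 → ℝ) (v : E3) : ℝ := ∫ w, f w * kq (v - w)

theorem Av_int {f : E3 → ℝ} (hf : Continuous f) (v : E3) :
    Integrable (fun w => f w * kq (v - w)) := by
  apply Continuous.integrable_of_hasCompactSupport
  · exact hf.mul (kq_smooth.continuous.comp (continuous_const.sub continuous_id))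
  · exact HasCompactSupport.intro (isCompact_closedBall v 2) (fun x hx => by
      rw [Metric.mem_closedBall, not_le, dist_comm, dist_eq_norm] at hx
      rw [kq_zero hx.le, mul_zero])

theorem Av_const (c : ℝ) (v : E3) : Av (fun _ => c) v = c := by
  unfold Av
  rw [integral_const_mul, kq_int, mul_one]

theorem Av_nn {f : E3 → ℝ} (h : ∀ w, 0 ≤ f w) (v : E3) : 0 ≤ Av f v :=
  integral_nonneg fun w => mul_nonneg (h w) (kq_nn _)

theorem Av_le {f : E3 → ℝ} (hf : Continuous f) (v : E3) (a b : ℝ) {g : E3 → ℝ}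
    (hg : Continuous g) (h : ∀ w, ‖v - w‖ < 2 → f w ≤ a * g w + b) :
    Av f v ≤ a * Av g v + b := by
  have h1 : a * Av g v + b = ∫ w, (a * (g w * kq (v - w)) + b * kq (v - w)) := by
    rw [integral_add ((Av_int hg v).const_mul a) (Av_int (continuous_const (y := b)) v),
      integral_const_mul, integral_const_mul, kq_int, mul_one]
    rfl
  rw [h1]
  refine integral_mono (Av_int hf v) (((Av_int hg v).const_mul a).add
    (Av_int (continuous_const (y := b)) v)) fun w => ?_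
  by_cases hw : ‖v - w‖ < 2
  · have := mul_le_mul_of_nonneg_right (h w hw) (kq_nn (v - w))
    simp only
    linarith [this]
  · simp only [kq_zero (not_lt.1 hw), mul_zero, add_zero, le_refl]

theorem Av_zero {f : E3 → ℝ} (v : E3) (h : ∀ w, ‖v - w‖ < 2 → f w = 0) : Av f v = 0 := by
  unfold Av
  rw [← integral_zero E3 ℝ (μ := volume)]
  congr 1
  ext w
  by_cases hw : ‖v - w‖ < 2
  · rw [h w hw, zero_mul]
  · rw [kq_zero (not_lt.1 hw), mul_zero]

theorem Av_cs {f g : E3 → ℝ} (hf : Continuous f) (hg : Continuous g) (v : E3) :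
    Av (fun w => f w * g w) v ^ 2 ≤ Av (fun w => f w ^ 2) v * Av (fun w => g w ^ 2) v := by
  have key : ∀ t : ℝ, 0 ≤ Av (fun w => f w ^ 2) v * (t * t) + (2 * Av (fun w => f w * g w) v) * t
      + Av (fun w => g w ^ 2) v := by
    intro t
    have h1 : Av (fun w => f w ^ 2) v * (t * t) + (2 * Av (fun w => f w * g w) v) * t
      + Av (fun w => g w ^ 2) v = Av (fun w => (t * f w + g w) ^ 2) v := by
      have e1 : Integrable (fun w => f w ^ 2 * kq (v - w)) := Av_int (hf.pow 2) v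
      have e2 : Integrable (fun w => f w * g w * kq (v - w)) := Av_int (hf.mul hg) v
      have e3 : Integrable (fun w => g w ^ 2 * kq (v - w)) := Av_int (hg.pow 2) v
      have : Av (fun w => (t * f w + g w) ^ 2) v = ∫ w, (((t * t) * (f w ^ 2 * kq (v - w)) +
          (2 * t) * (f w * g w * kq (v - w))) + g w ^ 2 * kq (v - w)) := by
        unfold Av
        congr 1
        ext w
        ring
      have e4 : Integrable (fun w => (t * t) * (f w ^ 2 * kq (v - w)) +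
          (2 * t) * (f w * g w * kq (v - w))) := (e1.const_mul _).add (e2.const_mul _)
      rw [this, integral_add e4 e3,
        integral_add (e1.const_mul _) (e2.const_mul _), integral_const_mul, integral_const_mul]
      unfold Av
      ring
    rw [h1]
    exact Av_nn (fun w => sq_nonneg _) v
  have := discrim_le_zero key
  unfold discrim at this
  nlinarith

theorem Av_conv (f : E3 → ℝ) :
    Av f = MeasureTheory.convolution f kq (ContinuousLinearMap.mul ℝ ℝ) volume := by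
  ext v
  rfl

theorem Av_smooth {f : E3 → ℝ} (hf : Continuous f) : ContDiff ℝ SM (Av f) := by
  rw [Av_conv]
  exact kq_supp.contDiff_convolution_right _ hf.locallyIntegrable kq_smooth

theorem Av_fd {f : E3 → ℝ} (hf : ContDiff ℝ SM f) (hc : HasCompactSupport f) (e v : E3) :
    fderiv ℝ (Av f) v e = Av (fun w => fderiv ℝ f w e) v := by
  have h1 := hc.hasFDerivAt_convolution_left (ContinuousLinearMap.mul ℝ ℝ) (μ := volume)
    (hf.of_le sm_one_le) (kq_smooth.continuous.locallyIntegrable) v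
  rw [← Av_conv] at h1
  rw [h1.fderiv]
  have h2 : ConvolutionExistsAt (fderiv ℝ f) kq v
      ((ContinuousLinearMap.mul ℝ ℝ).precompL E3) volume :=
    (HasCompactSupport.convolutionExists_left _ (hc.fderiv (𝕜 := ℝ))
      (hf.continuous_fderiv (by simp [SM])) kq_smooth.continuous.locallyIntegrable) v
  rw [convolution_def, ContinuousLinearMap.integral_apply h2]
  rfl

theorem Av_dd {f : E3 → ℝ} (hf : ContDiff ℝ SM f) (hc : HasCompactSupport f) (e v : E3) :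
    ddk e (Av f) v = Av (ddk e f) v := by
  unfold ddk
  have h1 : (fun v => fderiv ℝ (Av f) v e) = Av (fun w => fderiv ℝ f w e) :=
    funext fun v => Av_fd hf hc e v
  rw [h1]
  exact Av_fd (sm_dir f hf e) (hc.fderiv_apply ℝ e) e v

theorem norm_sq_le (A : E3 →L[ℝ] ℝ) : ‖A‖ ^ 2 ≤ ∑ k, A (EuclideanSpace.single k 1) ^ 2 := by
  have h0 : 0 ≤ ∑ k, A (EuclideanSpace.single k 1) ^ 2 := Finset.sum_nonneg fun _ _ => sq_nonneg _
  have h1 : ‖A‖ ≤ √(∑ k, A (EuclideanSpace.single k 1) ^ 2) := by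
    refine A.opNorm_le_bound (Real.sqrt_nonneg _) fun v => ?_
    have h2 : v = ∑ k, v k • (EuclideanSpace.single k (1 : ℝ) : E3) := by
      ext i
      simp [Fin.sum_univ_three]
      fin_cases i <;> simp
    have h3 : A v = ∑ k, v k * A (EuclideanSpace.single k 1) := by
      conv_lhs => rw [h2]
      rw [map_sum]
      simp
    have h4 : (A v) ^ 2 ≤ (‖v‖ ^ 2) * ∑ k, A (EuclideanSpace.single k 1) ^ 2 := by
      rw [h3, EuclideanSpace.real_norm_sq_eq]
      exact Finset.sum_mul_sq_le_sq_mul_sq _ _ _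
    rw [Real.norm_eq_abs]
    refine abs_le_of_sq_le_sq ?_ (mul_nonneg (Real.sqrt_nonneg _) (norm_nonneg _))
    rw [mul_pow, Real.sq_sqrt h0]
    linarith
  calc ‖A‖ ^ 2 ≤ √(∑ k, A (EuclideanSpace.single k 1) ^ 2) ^ 2 :=
        pow_le_pow_left₀ (norm_nonneg _) h1 2
    _ = _ := Real.sq_sqrt h0

/-- squared gradient -/
noncomputable def G1 (f : E3 → ℝ) (w : E3) : ℝ := ∑ k, fderiv ℝ f w (EuclideanSpace.single k 1) ^ 2

theorem G1_nn (f : E3 → ℝ) (w : E3) : 0 ≤ G1 f w := Finset.sum_nonneg fun _ _ => sq_nonneg _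

theorem G1_cont {f : E3 → ℝ} (hf : ContDiff ℝ SM f) : Continuous (G1 f) := by
  unfold G1
  exact continuous_finsetSum _ fun k _ => ((sm_dir f hf _).continuous).pow 2

theorem lap_cont {f : E3 → ℝ} (hf : ContDiff ℝ SM f) : Continuous (lap f) := by
  unfold lap
  exact continuous_finsetSum _ fun k _ => (sm_dir _ (sm_dir f hf _) _).continuous

theorem Av_sum {f : Fin 3 → E3 → ℝ} (hf : ∀ k, Continuous (f k)) (v : E3) :
    ∑ k, Av (f k) v = Av (fun w => ∑ k, f k w) v := by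
  unfold Av
  rw [← integral_finsetSum _ fun k _ => Av_int (hf k) v]
  congr 1
  ext w
  rw [Finset.sum_mul]

theorem Av_lin {f g : E3 → ℝ} (hf : Continuous f) (hg : Continuous g) (a b : ℝ) (v : E3) :
    Av (fun w => a * f w + b * g w) v = a * Av f v + b * Av g v := by
  unfold Av
  rw [← integral_const_mul, ← integral_const_mul, ← integral_add ((Av_int hf v).const_mul a)
    ((Av_int hg v).const_mul b)]
  congr 1
  ext w
  ring

theorem core_fd {ρ : E3 → ℝ} (hρ : ContDiff ℝ SM ρ) (hc : HasCompactSupport ρ) (e v : E3) :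
    fderiv ℝ (Av fun w => ρ w ^ 2) v e = 2 * Av (fun w => ρ w * fderiv ℝ ρ w e) v := by
  have hc2 : HasCompactSupport fun w => ρ w ^ 2 := by
    have := hc.comp_left (g := fun t : ℝ => t ^ 2) (by norm_num)
    exact this
  rw [Av_fd (hρ.pow 2) hc2]
  have h1 : (fun w => fderiv ℝ (fun w => ρ w ^ 2) w e) = fun w => 2 * (ρ w * fderiv ℝ ρ w e) +
      0 * ρ w := by
    ext w
    have : (fun w => ρ w ^ 2) = fun w => ρ w * ρ w := by ext w; ring
    rw [this, fd_mul ρ ρ (sm_diff ρ hρ) (sm_diff ρ hρ)]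
    ring
  rw [h1, Av_lin (f := fun w => ρ w * fderiv ℝ ρ w e) (g := ρ)
    (hρ.continuous.mul (sm_dir ρ hρ e).continuous) hρ.continuous, zero_mul, add_zero]

theorem core_dW {ρ : E3 → ℝ} (hρ : ContDiff ℝ SM ρ) (hc : HasCompactSupport ρ) (v : E3) :
    ‖fderiv ℝ (Av fun w => ρ w ^ 2) v‖ ^ 2 ≤ 4 * Av (fun w => ρ w ^ 2) v * Av (G1 ρ) v := by
  refine (norm_sq_le _).trans ?_
  have h1 : ∀ k, (fderiv ℝ (Av fun w => ρ w ^ 2) v (EuclideanSpace.single k 1)) ^ 2 ≤
      4 * Av (fun w => ρ w ^ 2) v *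
        Av (fun w => fderiv ℝ ρ w (EuclideanSpace.single k 1) ^ 2) v := by
    intro k
    rw [core_fd hρ hc]
    have := Av_cs hρ.continuous (sm_dir ρ hρ (EuclideanSpace.single k 1)).continuous v
    nlinarith
  refine (Finset.sum_le_sum fun k _ => h1 k).trans (le_of_eq ?_)
  rw [← Finset.mul_sum, Av_sum (f := fun k w => fderiv ℝ ρ w (EuclideanSpace.single k 1) ^ 2)
    fun k => ((sm_dir ρ hρ _).continuous).pow 2]
  rfl

theorem core_lap {ρ : E3 → ℝ} (hρ : ContDiff ℝ SM ρ) (hc : HasCompactSupport ρ) (v : E3) :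
    |lap (Av fun w => ρ w ^ 2) v| ≤ 2 * Av (G1 ρ) v +
      2 * √(Av (fun w => ρ w ^ 2) v * Av (fun w => lap ρ w ^ 2) v) := by
  have hc2 : HasCompactSupport fun w => ρ w ^ 2 := by
    have := hc.comp_left (g := fun t : ℝ => t ^ 2) (by norm_num)
    exact this
  have h1 : lap (Av fun w => ρ w ^ 2) v = 2 * Av (G1 ρ) v + 2 * Av (fun w => ρ w * lap ρ w) v := by
    have e1 : lap (Av fun w => ρ w ^ 2) v =
        ∑ k, ddk (EuclideanSpace.single k 1) (Av fun w => ρ w ^ 2) v := rfl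
    rw [e1]
    simp_rw [Av_dd (hρ.pow 2) hc2]
    rw [Av_sum (f := fun k => ddk (EuclideanSpace.single k 1) fun x => ρ x ^ 2)
        fun k => (sm_dir _ (sm_dir _ (hρ.pow 2) _) _).continuous,
      ← Av_lin (f := G1 ρ) (g := fun w => ρ w * lap ρ w) (G1_cont hρ)
        (hρ.continuous.mul (lap_cont hρ))]
    congr 1
    ext w
    have : (fun w => ρ w ^ 2) = fun w => ρ w * ρ w := by ext w; ring
    rw [this]
    simp_rw [dd_mul ρ ρ hρ hρ]
    have e2 : lap ρ w = ∑ k, ddk (EuclideanSpace.single k 1) ρ w := rfl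
    rw [e2, G1, Finset.mul_sum, Finset.mul_sum, Finset.mul_sum, ← Finset.sum_add_distrib]
    refine Finset.sum_congr rfl fun k _ => ?_
    ring
  rw [h1]
  have h2 : |Av (fun w => ρ w * lap ρ w) v| ≤
      √(Av (fun w => ρ w ^ 2) v * Av (fun w => lap ρ w ^ 2) v) := by
    apply Real.abs_le_sqrt
    exact Av_cs hρ.continuous (lap_cont hρ) v
  have h3 := Av_nn (G1_nn ρ) v
  calc _ ≤ |2 * Av (G1 ρ) v| + |2 * Av (fun w => ρ w * lap ρ w) v| := abs_add_le _ _
    _ = 2 * Av (G1 ρ) v + 2 * |Av (fun w => ρ w * lap ρ w) v| := by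
        rw [abs_of_nonneg (by positivity), abs_mul, abs_of_pos (by norm_num : (0 : ℝ) < 2)]
    _ ≤ _ := by linarith

theorem core_lip {ρ : E3 → ℝ} (hρ : ContDiff ℝ SM ρ) (hc : HasCompactSupport ρ) {C : ℝ}
    (hC : 0 ≤ C) (hG : ∀ w, G1 ρ w ≤ C ^ 2) (ω ω' : E3) :
    |√(Av (fun w => ρ w ^ 2) ω) - √(Av (fun w => ρ w ^ 2) ω')| ≤ C * ‖ω - ω'‖ := by
  set W := Av fun w => ρ w ^ 2 with hW
  have hWs : ContDiff ℝ SM W := Av_smooth (hρ.continuous.pow 2)
  have hWn : ∀ v, 0 ≤ W v := Av_nn fun w => sq_nonneg _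
  have hΓ : ∀ v, Av (G1 ρ) v ≤ C ^ 2 := by
    intro v
    have := Av_le (G1_cont hρ) v 0 (C ^ 2) (G1_cont hρ) (fun w _ => by rw [zero_mul, zero_add]; exact hG w)
    linarith
  have key : ∀ ε : ℝ, 0 < ε → |√(W ω + ε) - √(W ω' + ε)| ≤ C * ‖ω - ω'‖ := by
    intro ε hε
    have hd : ∀ v, HasFDerivAt (fun v => √(W v + ε))
        ((1 / (2 * √(W v + ε))) • fderiv ℝ W v) v := by
      intro v
      have h1 : HasFDerivAt (fun v => W v + ε) (fderiv ℝ W v) v :=
        ((sm_diff W hWs) v).hasFDerivAt.add_const ε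
      exact h1.sqrt (by have := hWn v; positivity)
    have hb : ∀ v, ‖(1 / (2 * √(W v + ε))) • fderiv ℝ W v‖ ≤ C := by
      intro v
      have hp : 0 < W v + ε := by have := hWn v; positivity
      have hs : 0 < √(W v + ε) := Real.sqrt_pos.2 hp
      rw [norm_smul, Real.norm_eq_abs, abs_of_pos (by positivity), one_div, inv_mul_le_iff₀ (by positivity)]
      apply (pow_le_pow_iff_left₀ (norm_nonneg _) (by positivity) two_ne_zero).1
      have h1 := core_dW hρ hc v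
      rw [← hW] at h1
      have h2 : (2 * √(W v + ε) * C) ^ 2 = 4 * (W v + ε) * C ^ 2 := by
        rw [mul_pow, mul_pow, Real.sq_sqrt hp.le]; ring
      rw [h2]
      have h3 := hΓ v
      have h4 := hWn v
      have h5 : 4 * W v * Av (G1 ρ) v ≤ 4 * W v * C ^ 2 :=
        mul_le_mul_of_nonneg_left h3 (by positivity)
      nlinarith [sq_nonneg C]
    have := (convex_univ (𝕜 := ℝ) (E := E3)).norm_image_sub_le_of_norm_hasFDerivWithin_le
      (f := fun v => √(W v + ε)) (fun v _ => (hd v).hasFDerivWithinAt) (fun v _ => hb v)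
      (Set.mem_univ ω') (Set.mem_univ ω)
    rw [Real.norm_eq_abs] at this
    exact this
  have hlim : Filter.Tendsto (fun ε : ℝ => |√(W ω + ε) - √(W ω' + ε)|) (𝓝[>] 0)
      (𝓝 |√(W ω + 0) - √(W ω' + 0)|) := by
    apply Filter.Tendsto.mono_left _ nhdsWithin_le_nhds
    have : Continuous fun ε : ℝ => |√(W ω + ε) - √(W ω' + ε)| := by fun_prop
    exact this.tendsto 0
  rw [add_zero, add_zero] at hlim
  refine le_of_tendsto hlim ?_
  filter_upwards [self_mem_nhdsWithin] with ε hε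
  exact key ε hε

/-- uniform bounds of a function and its derivatives -/
def Bd (B : ℝ) (f : E3 → ℝ) : Prop :=
  ContDiff ℝ SM f ∧ 0 ≤ B ∧ ∀ w, |f w| ≤ B ∧ ∀ k : Fin 3,
    |fderiv ℝ f w (EuclideanSpace.single k 1)| ≤ B ∧ |ddk (EuclideanSpace.single k 1) f w| ≤ B

theorem Bd_mul {B B' : ℝ} {f g : E3 → ℝ} (hf : Bd B f) (hg : Bd B' g) :
    Bd (4 * B * B') (fun w => f w * g w) := by
  obtain ⟨f1, f2, f3⟩ := hf
  obtain ⟨g1, g2, g3⟩ := hg
  have hBB : 0 ≤ B * B' := mul_nonneg f2 g2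
  have key : ∀ a b : ℝ, |a| ≤ B → |b| ≤ B' → |a * b| ≤ B * B' := fun a b ha hb => by
    rw [abs_mul]; exact mul_le_mul ha hb (abs_nonneg _) f2
  refine ⟨f1.mul g1, by positivity, fun w => ⟨?_, fun k => ⟨?_, ?_⟩⟩⟩
  · have := key _ _ (f3 w).1 (g3 w).1
    linarith
  · rw [fd_mul f g (sm_diff f f1) (sm_diff g g1)]
    have e1 := key _ _ (f3 w).1 ((g3 w).2 k).1
    have e2 := key _ _ ((f3 w).2 k).1 (g3 w).1
    rw [mul_comm (g w)]
    refine (abs_add_le _ _).trans ?_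
    linarith
  · rw [dd_mul f g f1 g1]
    have e1 := key _ _ (f3 w).1 ((g3 w).2 k).2
    have e2 := key _ _ ((f3 w).2 k).2 (g3 w).1
    have e3 := key _ _ ((f3 w).2 k).1 ((g3 w).2 k).1
    rw [mul_comm (g w)]
    refine (abs_add_le _ _).trans ?_
    have e4 := abs_add_le (f w * ddk (EuclideanSpace.single k 1) g w)
      (2 * (fderiv ℝ f w (EuclideanSpace.single k 1) * fderiv ℝ g w (EuclideanSpace.single k 1)))
    rw [abs_mul 2, abs_two] at e4
    linarith

theorem Bd_one_sub {B : ℝ} {f : E3 → ℝ} (hf : Bd B f) : Bd (1 + B) (fun w => 1 - f w) := by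
  obtain ⟨f1, f2, f3⟩ := hf
  have h1 : ∀ w e, fderiv ℝ (fun w => 1 - f w) w e = - fderiv ℝ f w e := by
    intro w e
    rw [fderiv_const_sub]
    rfl
  refine ⟨contDiff_const.sub f1, by positivity, fun w => ⟨?_, fun k => ⟨?_, ?_⟩⟩⟩
  · have h := (f3 w).1
    have := abs_sub (1 : ℝ) (f w)
    rw [abs_one] at this
    linarith
  · rw [h1, abs_neg]
    have := ((f3 w).2 k).1
    linarith
  · unfold ddk
    simp_rw [h1]
    have h2 : fderiv ℝ (fun v => -(fderiv ℝ f v (EuclideanSpace.single k (1 : ℝ)))) w =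
      - fderiv ℝ (fun v => fderiv ℝ f v (EuclideanSpace.single k (1 : ℝ))) w := fderiv_fun_neg
    rw [h2]
    have := ((f3 w).2 k).2
    unfold ddk at this
    rw [neg_apply, abs_neg]
    linarith

theorem fd_1d (φ : ℝ → ℝ) (hφ : Differentiable ℝ φ) (a b : ℝ) (k : Fin 3) (w e : E3) :
    fderiv ℝ (fun w : E3 => φ (a * w k + b)) w e = (a * e k) * deriv φ (a * w k + b) := by
  have h1 : HasFDerivAt (fun w : E3 => w k) (EuclideanSpace.proj k : E3 →L[ℝ] ℝ) w :=
    (EuclideanSpace.proj k : E3 →L[ℝ] ℝ).hasFDerivAt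
  have h2 : HasFDerivAt (fun w : E3 => a * w k + b)
      (a • (EuclideanSpace.proj k : E3 →L[ℝ] ℝ)) w := (h1.const_mul a).add_const b
  have h3 := ((hφ (a * w k + b)).hasDerivAt.comp_hasFDerivAt w h2).fderiv
  have h4 : (φ ∘ fun w : E3 => a * w k + b) = (fun w : E3 => φ (a * w k + b)) := rfl
  rw [h4] at h3
  rw [h3]
  simp
  ring

theorem sT_bounds : ∃ B : ℝ, 0 ≤ B ∧ ∀ u : ℝ, |Real.smoothTransition u| ≤ B ∧
    |deriv Real.smoothTransition u| ≤ B ∧ |deriv (deriv Real.smoothTransition) u| ≤ B := by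
  have hs : ContDiff ℝ SM Real.smoothTransition := Real.smoothTransition.contDiff
  have h1 : ContDiff ℝ SM (deriv Real.smoothTransition) := by
    have : ContDiff ℝ (SM + 1) Real.smoothTransition := Real.smoothTransition.contDiff
    exact this.deriv'
  have h2 : ContDiff ℝ SM (deriv (deriv Real.smoothTransition)) := by
    have h1' : ContDiff ℝ (SM + 1) (deriv Real.smoothTransition) := h1.of_le sm_succ
    exact h1'.deriv'
  have c1 : HasCompactSupport (deriv Real.smoothTransition) := by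
    apply HasCompactSupport.intro (isCompact_Icc (a := (0 : ℝ)) (b := 1))
    intro u hu
    rw [RQ11.sT_deriv_zero]
    rw [Set.mem_Icc, not_and_or, not_le, not_le] at hu
    exact hu
  have c2 : HasCompactSupport (deriv (deriv Real.smoothTransition)) := c1.deriv
  obtain ⟨B1, hB1⟩ := c1.exists_bound_of_continuous h1.continuous
  obtain ⟨B2, hB2⟩ := c2.exists_bound_of_continuous h2.continuous
  have b1 : 0 ≤ B1 := (norm_nonneg _).trans (hB1 0)
  have b2 : 0 ≤ B2 := (norm_nonneg _).trans (hB2 0)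
  refine ⟨1 + B1 + B2, by positivity, fun u => ⟨?_, ?_, ?_⟩⟩
  · rw [abs_of_nonneg (Real.smoothTransition.nonneg _)]
    have := Real.smoothTransition.le_one u
    linarith
  · have := hB1 u
    rw [Real.norm_eq_abs] at this
    linarith
  · have := hB2 u
    rw [Real.norm_eq_abs] at this
    linarith

theorem Bd_1d {B : ℝ} (hB0 : 0 ≤ B) (hB : ∀ u : ℝ, |Real.smoothTransition u| ≤ B ∧
    |deriv Real.smoothTransition u| ≤ B ∧ |deriv (deriv Real.smoothTransition) u| ≤ B)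
    (a b : ℝ) (ha : |a| ≤ 1) (k : Fin 3) :
    Bd B (fun w : E3 => Real.smoothTransition (a * w k + b)) := by
  have hs : ContDiff ℝ SM Real.smoothTransition := Real.smoothTransition.contDiff
  have h1 : ContDiff ℝ SM (deriv Real.smoothTransition) := by
    have : ContDiff ℝ (SM + 1) Real.smoothTransition := Real.smoothTransition.contDiff
    exact this.deriv'
  have hlin : ContDiff ℝ SM (fun w : E3 => a * w k + b) :=
    ((contDiff_const (c := a)).mul (contDiff_piLp_apply (p := 2))).add contDiff_const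
  have hd0 : Differentiable ℝ Real.smoothTransition := hs.differentiable (by simp [SM])
  have hd1 : Differentiable ℝ (deriv Real.smoothTransition) := h1.differentiable (by simp [SM])
  have hle : ∀ j : Fin 3, |a * (EuclideanSpace.single j (1 : ℝ) : E3) k| ≤ 1 := by
    intro j
    rw [abs_mul]
    have : |(EuclideanSpace.single j (1 : ℝ) : E3) k| ≤ 1 := by
      by_cases hjk : k = j
      · simp [hjk]
      · simp [hjk]
    calc |a| * |(EuclideanSpace.single j (1 : ℝ) : E3) k| ≤ 1 * 1 :=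
          mul_le_mul ha this (abs_nonneg _) zero_le_one
      _ = 1 := one_mul _
  refine ⟨hs.comp hlin, hB0, fun w => ⟨(hB _).1, fun j => ⟨?_, ?_⟩⟩⟩
  · rw [fd_1d _ hd0, abs_mul]
    calc _ ≤ 1 * B := mul_le_mul (hle j) (hB _).2.1 (abs_nonneg _) zero_le_one
      _ = B := one_mul _
  · unfold ddk
    simp_rw [fd_1d _ hd0]
    have hdd : Differentiable ℝ (fun v : E3 => deriv Real.smoothTransition (a * v k + b)) :=
      hd1.comp (hlin.differentiable (by simp [SM]))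
    rw [fderiv_const_mul (hdd w), smul_apply, smul_eq_mul, fd_1d _ hd1, abs_mul, abs_mul (_ * _) (deriv _ _)]
    have e1 := hle j
    have e2 := (hB (a * w k + b)).2.2
    have e3 := mul_le_mul e1 e2 (abs_nonneg _) zero_le_one
    have e4 := mul_le_mul e1 e3 (by positivity) zero_le_one
    linarith

/-- one plus the squared distance -/
noncomputable def qv (y0 w : E3) : ℝ := 1 + ‖w - y0‖ ^ 2

/-- the weight `(1 + |w - y0|²)^(-3/10)` -/
noncomputable def wh (y0 w : E3) : ℝ := qv y0 w ^ (-(3 : ℝ) / 10)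

theorem qv_one (y0 w : E3) : 1 ≤ qv y0 w := by unfold qv; nlinarith [sq_nonneg ‖w - y0‖]

theorem qv_pos (y0 w : E3) : 0 < qv y0 w := zero_lt_one.trans_le (qv_one y0 w)

theorem wh_pos (y0 w : E3) : 0 < wh y0 w := Real.rpow_pos_of_pos (qv_pos y0 w) _

theorem wh_le (y0 w : E3) : wh y0 w ≤ 1 :=
  Real.rpow_le_one_of_one_le_of_nonpos (qv_one y0 w) (by norm_num)

theorem qv_smooth (y0 : E3) : ContDiff ℝ SM (qv y0) :=
  contDiff_const.add ((contDiff_norm_sq ℝ).comp (contDiff_id.sub contDiff_const))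

theorem qvp_smooth (y0 : E3) (p : ℝ) : ContDiff ℝ SM (fun w => qv y0 w ^ p) :=
  (qv_smooth y0).rpow_const_of_ne fun w => (qv_pos y0 w).ne'

theorem wh_smooth (y0 : E3) : ContDiff ℝ SM (wh y0) := qvp_smooth y0 _

theorem fd_qvp (y0 : E3) (p : ℝ) (w : E3) (k : Fin 3) :
    fderiv ℝ (fun w => qv y0 w ^ p) w (EuclideanSpace.single k 1) =
      2 * p * (qv y0 w ^ (p - 1) * (w k - y0 k)) := by
  have h0 : HasFDerivAt (fun w : E3 => w - y0) (ContinuousLinearMap.id ℝ E3) w :=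
    (hasFDerivAt_id w).sub_const y0
  have h1 := (h0.norm_sq.const_add 1).rpow_const (p := p) (Or.inl (qv_pos y0 w).ne')
  have h2 := h1.fderiv
  have h3 : (fun w => qv y0 w ^ p) = fun x => (1 + ‖x - y0‖ ^ 2) ^ p := rfl
  rw [h3, h2]
  simp [EuclideanSpace.inner_single_right, qv]
  ring

theorem dd_qvp (y0 : E3) (p : ℝ) (w : E3) (k : Fin 3) :
    ddk (EuclideanSpace.single k 1) (fun w => qv y0 w ^ p) w =
      2 * p * (qv y0 w ^ (p - 1) + 2 * (p - 1) * (qv y0 w ^ (p - 1 - 1) * (w k - y0 k) ^ 2)) := by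
  unfold ddk
  simp_rw [fd_qvp]
  have h1 : Differentiable ℝ (fun v : E3 => qv y0 v ^ (p - 1)) :=
    (qvp_smooth y0 _).differentiable (by simp [SM])
  have h0 : ∀ w : E3, HasFDerivAt (fun w : E3 => w k - y0 k) (EuclideanSpace.proj k : E3 →L[ℝ] ℝ) w :=
    fun w => (EuclideanSpace.proj k : E3 →L[ℝ] ℝ).hasFDerivAt.sub_const _
  have h2 : Differentiable ℝ (fun v : E3 => v k - y0 k) := fun w => (h0 w).differentiableAt
  have h3 : Differentiable ℝ (fun v : E3 => qv y0 v ^ (p - 1) * (v k - y0 k)) := h1.mul h2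
  rw [fderiv_const_mul (h3 w), smul_apply, smul_eq_mul, fd_mul _ _ h1 h2, fd_qvp,
    (h0 w).fderiv]
  have h5 : (EuclideanSpace.proj k : E3 →L[ℝ] ℝ) (EuclideanSpace.single k 1) = 1 := by simp
  rw [h5]
  ring

theorem fd_wh (y0 w : E3) (k : Fin 3) :
    fderiv ℝ (wh y0) w (EuclideanSpace.single k 1) =
      -(3 / 5) * (wh y0 w / qv y0 w * (w k - y0 k)) := by
  have h1 := fd_qvp y0 (-(3 : ℝ) / 10) w k
  rw [Real.rpow_sub_one (qv_pos y0 w).ne'] at h1
  have h2 : (fun w => qv y0 w ^ (-(3 : ℝ) / 10)) = wh y0 := rfl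
  have h3 : qv y0 w ^ (-(3 : ℝ) / 10) = wh y0 w := rfl
  rw [h2, h3] at h1
  rw [h1]
  ring

theorem dd_wh (y0 w : E3) (k : Fin 3) :
    ddk (EuclideanSpace.single k 1) (wh y0) w =
      -(3 / 5) * (wh y0 w / qv y0 w) * (1 - 13 / 5 * ((w k - y0 k) ^ 2 / qv y0 w)) := by
  have h1 := dd_qvp y0 (-(3 : ℝ) / 10) w k
  rw [Real.rpow_sub_one (qv_pos y0 w).ne' (-(3 : ℝ) / 10 - 1), Real.rpow_sub_one (qv_pos y0 w).ne'] at h1
  have h2 : (fun w => qv y0 w ^ (-(3 : ℝ) / 10)) = wh y0 := rfl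
  have h3 : qv y0 w ^ (-(3 : ℝ) / 10) = wh y0 w := rfl
  rw [h2, h3] at h1
  rw [h1]
  ring

theorem nsq (v : E3) : ‖v‖ ^ 2 = v 0 ^ 2 + v 1 ^ 2 + v 2 ^ 2 := by
  rw [EuclideanSpace.real_norm_sq_eq, Fin.sum_univ_three]

theorem qv_eq (y0 w : E3) : qv y0 w = 1 + ((w 0 - y0 0) ^ 2 + (w 1 - y0 1) ^ 2 + (w 2 - y0 2) ^ 2) := by
  unfold qv
  rw [nsq]
  simp

theorem co_sq_le (y0 w : E3) (k : Fin 3) : (w k - y0 k) ^ 2 ≤ qv y0 w := by
  rw [qv_eq]
  fin_cases k <;> simp <;> nlinarith [sq_nonneg (w 0 - y0 0), sq_nonneg (w 1 - y0 1), sq_nonneg (w 2 - y0 2)]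

theorem G1_wh (y0 w : E3) : G1 (wh y0) w ≤ 9 / 25 * (wh y0 w ^ 2 / qv y0 w) := by
  unfold G1
  simp_rw [fd_wh]
  rw [Fin.sum_univ_three]
  have hq := qv_pos y0 w
  have h1 : (-(3 / 5) * (wh y0 w / qv y0 w * (w 0 - y0 0))) ^ 2 +
      (-(3 / 5) * (wh y0 w / qv y0 w * (w 1 - y0 1))) ^ 2 +
      (-(3 / 5) * (wh y0 w / qv y0 w * (w 2 - y0 2))) ^ 2 =
      9 / 25 * (wh y0 w ^ 2 / qv y0 w) * ((qv y0 w - 1) / qv y0 w) := by
    rw [qv_eq]
    rw [qv_eq] at hq
    field_simp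
    ring
  rw [h1]
  have h2 : (qv y0 w - 1) / qv y0 w ≤ 1 := by
    rw [div_le_one hq]; linarith
  have h3 : 0 ≤ 9 / 25 * (wh y0 w ^ 2 / qv y0 w) := by positivity
  nlinarith

theorem lap_wh (y0 w : E3) : |lap (wh y0) w| ≤ 9 / 5 * (wh y0 w / qv y0 w) := by
  have e1 : lap (wh y0) w = ∑ k, ddk (EuclideanSpace.single k 1) (wh y0) w := rfl
  rw [e1]
  simp_rw [dd_wh]
  rw [Fin.sum_univ_three]
  have hq := qv_pos y0 w
  have hu : 0 < wh y0 w / qv y0 w := div_pos (wh_pos y0 w) hq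
  set u := wh y0 w / qv y0 w
  have h1 : -(3 / 5) * u * (1 - 13 / 5 * ((w 0 - y0 0) ^ 2 / qv y0 w)) +
      -(3 / 5) * u * (1 - 13 / 5 * ((w 1 - y0 1) ^ 2 / qv y0 w)) +
      -(3 / 5) * u * (1 - 13 / 5 * ((w 2 - y0 2) ^ 2 / qv y0 w)) =
      -(3 / 5) * u * (3 - 13 / 5 * ((qv y0 w - 1) / qv y0 w)) := by
    rw [show qv y0 w - 1 = (w 0 - y0 0) ^ 2 + (w 1 - y0 1) ^ 2 + (w 2 - y0 2) ^ 2 by
      rw [qv_eq]; ring]
    ring
  rw [h1]
  have h2 : (qv y0 w - 1) / qv y0 w ≤ 1 := by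
    rw [div_le_one hq]; linarith
  have h3 : 0 ≤ (qv y0 w - 1) / qv y0 w := div_nonneg (by linarith [qv_one y0 w]) hq.le
  rw [abs_le]
  constructor <;> nlinarith

theorem Bd_wh (y0 : E3) : Bd 3 (wh y0) := by
  refine ⟨wh_smooth y0, by norm_num, fun w => ⟨?_, fun k => ⟨?_, ?_⟩⟩⟩
  · rw [abs_of_pos (wh_pos y0 w)]
    linarith [wh_le y0 w]
  · rw [fd_wh]
    have hq := qv_pos y0 w
    have hq1 := qv_one y0 w
    have h1 := co_sq_le y0 w k
    have h2 : |w k - y0 k| ≤ qv y0 w := by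
      apply abs_le_of_sq_le_sq _ hq.le
      nlinarith
    have h3 : |wh y0 w / qv y0 w * (w k - y0 k)| ≤ 1 := by
      rw [abs_mul, abs_of_pos (div_pos (wh_pos y0 w) hq), div_mul_eq_mul_div, div_le_one hq]
      calc wh y0 w * |w k - y0 k| ≤ 1 * qv y0 w :=
            mul_le_mul (wh_le y0 w) h2 (abs_nonneg _) zero_le_one
        _ = qv y0 w := one_mul _
    rw [abs_mul]
    have : |(-(3 / 5) : ℝ)| = 3 / 5 := by rw [abs_neg, abs_of_pos]; norm_num
    rw [this]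
    linarith
  · rw [dd_wh]
    have hq := qv_pos y0 w
    have hq1 := qv_one y0 w
    have h1 : (w k - y0 k) ^ 2 / qv y0 w ≤ 1 := (div_le_one hq).2 (co_sq_le y0 w k)
    have h2 : 0 ≤ (w k - y0 k) ^ 2 / qv y0 w := by positivity
    have h3 : wh y0 w / qv y0 w ≤ 1 := (div_le_one hq).2 ((wh_le y0 w).trans hq1)
    have h4 : 0 < wh y0 w / qv y0 w := div_pos (wh_pos y0 w) hq
    rw [abs_le]
    constructor <;> nlinarith

theorem ct_all : ∃ B : ℝ, 0 ≤ B ∧ ∀ (k : Fin 3) (w : E3), |ct w| ≤ B ∧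
    |fderiv ℝ ct w (EuclideanSpace.single k 1)| ≤ B ∧
    |ddk (EuclideanSpace.single k 1) ct w| ≤ B := by
  choose B h0 h1 h2 h3 using fun k : Fin 3 => ct_bounds (EuclideanSpace.single k 1)
  have hle : ∀ k, B k ≤ ∑ k, B k := fun k =>
    Finset.single_le_sum (fun k _ => h0 k) (Finset.mem_univ k)
  exact ⟨∑ k, B k, Finset.sum_nonneg fun k _ => h0 k, fun k w =>
    ⟨(h1 k w).trans (hle k), (h2 k w).trans (hle k), (h3 k w).trans (hle k)⟩⟩

theorem cy_eq (y0 : E3) (R : ℝ) : cy y0 R = fun z => ct (R⁻¹ • z + (-(R⁻¹ • y0))) := by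
  funext z
  unfold cy
  rw [smul_sub, sub_eq_add_neg]

theorem cy_sm (y0 : E3) (R : ℝ) : ContDiff ℝ SM (cy y0 R) := RQ11.cy_smooth y0 R

theorem cy_fd {B : ℝ} (h : ∀ (k : Fin 3) (w : E3), |ct w| ≤ B ∧
    |fderiv ℝ ct w (EuclideanSpace.single k 1)| ≤ B ∧
    |ddk (EuclideanSpace.single k 1) ct w| ≤ B) {R : ℝ} (hR : 1 ≤ R) (y0 w : E3) (k : Fin 3) :
    |fderiv ℝ (cy y0 R) w (EuclideanSpace.single k 1)| ≤ B / R ∧
    |ddk (EuclideanSpace.single k 1) (cy y0 R) w| ≤ B / R := by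
  have hR0 : 0 < R := by linarith
  have hRi : R⁻¹ ≤ 1 := inv_le_one_of_one_le₀ hR
  have hRi0 : 0 < R⁻¹ := inv_pos.2 hR0
  rw [cy_eq]
  constructor
  · rw [fd_scale ct (sm_diff ct ct_smooth), abs_mul, abs_of_pos hRi0, div_eq_inv_mul]
    exact mul_le_mul_of_nonneg_left (h k _).2.1 hRi0.le
  · rw [dd_scale ct ct_smooth, abs_mul, abs_of_pos (by positivity), div_eq_inv_mul]
    have h1 : (R⁻¹) ^ 2 ≤ R⁻¹ := by nlinarith
    exact mul_le_mul h1 (h k _).2.2 (abs_nonneg _) hRi0.le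

theorem cy_near {R : ℝ} (hR : 0 < R) (y0 w : E3) (hw : ‖w - y0‖ < R) :
    cy y0 R =ᶠ[𝓝 w] fun _ => (1 : ℝ) := by
  have ho : {z : E3 | ‖z - y0‖ < R} ∈ 𝓝 w :=
    (isOpen_lt (continuous_id.sub continuous_const).norm continuous_const).mem_nhds hw
  filter_upwards [ho] with z hz
  unfold cy
  apply ct_one
  rw [norm_smul, norm_inv, Real.norm_eq_abs, abs_of_pos hR]
  have hz' : ‖z - y0‖ < R := hz
  rw [inv_mul_le_iff₀ hR]
  linarith

theorem loc_fd {f g : E3 → ℝ} {w : E3} (h : f =ᶠ[𝓝 w] g) (e : E3) :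
    fderiv ℝ f w e = fderiv ℝ g w e ∧ ddk e f w = ddk e g w := by
  refine ⟨by rw [h.fderiv_eq], ?_⟩
  unfold ddk
  have h1 : (fun v => fderiv ℝ f v e) =ᶠ[𝓝 w] fun v => fderiv ℝ g v e := by
    filter_upwards [h.fderiv (𝕜 := ℝ)] with v hv
    rw [hv]
  rw [h1.fderiv_eq]

theorem loc_G1 {f g : E3 → ℝ} {w : E3} (h : f =ᶠ[𝓝 w] g) : G1 f w = G1 g w ∧ lap f w = lap g w := by
  constructor
  · unfold G1
    exact Finset.sum_congr rfl fun k _ => by rw [(loc_fd h _).1]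
  · have e1 : lap f w = ∑ k, ddk (EuclideanSpace.single k 1) f w := rfl
    have e2 : lap g w = ∑ k, ddk (EuclideanSpace.single k 1) g w := rfl
    rw [e1, e2]
    exact Finset.sum_congr rfl fun k _ => by rw [(loc_fd h _).2]

theorem A_eq {R : ℝ} (hR : 0 < R) :
    ((R ^ 2) ^ (-(3 : ℝ) / 10)) ^ 2 * (R ^ 2)⁻¹ = (R ^ ((16 : ℝ) / 5))⁻¹ := by
  rw [← Real.rpow_natCast R 2, ← Real.rpow_mul hR.le, ← Real.rpow_natCast (R ^ _) 2,
    ← Real.rpow_mul hR.le, ← Real.rpow_neg hR.le, ← Real.rpow_neg hR.le, ← Real.rpow_add hR]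
  norm_num

theorem eta_dec {B : ℝ} (h : ∀ (k : Fin 3) (w : E3), |ct w| ≤ B ∧
    |fderiv ℝ ct w (EuclideanSpace.single k 1)| ≤ B ∧
    |ddk (EuclideanSpace.single k 1) ct w| ≤ B) {R : ℝ} (hR : 1 ≤ R) (y0 w : E3) (k : Fin 3) :
    (wh y0 w * fderiv ℝ (cy y0 R) w (EuclideanSpace.single k 1)) ^ 2 ≤
      B ^ 2 * (R ^ ((16 : ℝ) / 5))⁻¹ ∧
    (wh y0 w * ddk (EuclideanSpace.single k 1) (cy y0 R) w) ^ 2 ≤
      B ^ 2 * (R ^ ((16 : ℝ) / 5))⁻¹ := by
  have hR0 : 0 < R := by linarith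
  have hA : 0 < (R ^ ((16 : ℝ) / 5))⁻¹ := by positivity
  by_cases hs : ‖w - y0‖ < R
  · have h1 := loc_fd (cy_near hR0 y0 w hs) (EuclideanSpace.single k 1)
    have h2 : fderiv ℝ (fun _ : E3 => (1 : ℝ)) w (EuclideanSpace.single k 1) = 0 := by simp
    have h3 : ddk (EuclideanSpace.single k 1) (fun _ : E3 => (1 : ℝ)) w = 0 := by
      unfold ddk; simp
    rw [h1.1, h1.2, h2, h3]
    constructor <;> · rw [mul_zero, zero_pow two_ne_zero]; positivity
  · push Not at hs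
    have hw1 : wh y0 w ≤ (R ^ 2) ^ (-(3 : ℝ) / 10) := by
      apply Real.rpow_le_rpow_of_nonpos (by positivity) _ (by norm_num)
      unfold qv
      nlinarith
    have key : ∀ t : ℝ, |t| ≤ B / R → (wh y0 w * t) ^ 2 ≤ B ^ 2 * (R ^ ((16 : ℝ) / 5))⁻¹ := by
      intro t ht
      have h1 : t ^ 2 ≤ (B / R) ^ 2 := sq_le_sq' (by linarith [neg_abs_le t]) (by linarith [le_abs_self t])
      have h2 : wh y0 w ^ 2 ≤ ((R ^ 2) ^ (-(3 : ℝ) / 10)) ^ 2 :=
        pow_le_pow_left₀ (wh_pos y0 w).le hw1 2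
      rw [← A_eq hR0, mul_pow]
      calc wh y0 w ^ 2 * t ^ 2 ≤ ((R ^ 2) ^ (-(3 : ℝ) / 10)) ^ 2 * (B / R) ^ 2 :=
            mul_le_mul h2 h1 (sq_nonneg _) (sq_nonneg _)
        _ = _ := by rw [div_pow]; ring
    have h1 := cy_fd h hR y0 w k
    exact ⟨key _ h1.1, key _ h1.2⟩

theorem fdwh_sq (y0 w : E3) (k : Fin 3) :
    (fderiv ℝ (wh y0) w (EuclideanSpace.single k 1)) ^ 2 ≤ wh y0 w ^ 2 := by
  rw [fd_wh]
  have hq := qv_pos y0 w
  have hq1 := qv_one y0 w
  have h1 : (w k - y0 k) ^ 2 / qv y0 w ^ 2 ≤ 1 := by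
    rw [div_le_one (by positivity)]
    nlinarith [co_sq_le y0 w k]
  have h2 : 0 ≤ (w k - y0 k) ^ 2 / qv y0 w ^ 2 := by positivity
  have h3 : (-(3 / 5) * (wh y0 w / qv y0 w * (w k - y0 k))) ^ 2 =
      9 / 25 * wh y0 w ^ 2 * ((w k - y0 k) ^ 2 / qv y0 w ^ 2) := by
    field_simp
    ring
  rw [h3]
  nlinarith [sq_nonneg (wh y0 w)]

theorem pw {B : ℝ} (h : ∀ (k : Fin 3) (w : E3), |ct w| ≤ B ∧
    |fderiv ℝ ct w (EuclideanSpace.single k 1)| ≤ B ∧
    |ddk (EuclideanSpace.single k 1) ct w| ≤ B) {R : ℝ} (hR : 1 ≤ R) (y0 w : E3)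
    (hw : cy y0 R w = 0 ∨ 4 ≤ qv y0 w) :
    G1 (fun w => wh y0 w * cy y0 R w) w ≤ 2 / 5 * ((wh y0 w * cy y0 R w) ^ 2 / qv y0 w) +
      33 * (B ^ 2 * (R ^ ((16 : ℝ) / 5))⁻¹) ∧
    (lap (fun w => wh y0 w * cy y0 R w) w) ^ 2 ≤
      9 / 10 * ((wh y0 w * cy y0 R w) ^ 2 / qv y0 w) +
      891 * (B ^ 2 * (R ^ ((16 : ℝ) / 5))⁻¹) := by
  have hA : 0 < (R ^ ((16 : ℝ) / 5))⁻¹ := by positivity
  set A := (R ^ ((16 : ℝ) / 5))⁻¹ with hAd
  have hq := qv_pos y0 w
  have hd := eta_dec h hR y0 w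
  have hcs := cy_sm y0 R
  constructor
  · unfold G1
    simp_rw [fd_mul (wh y0) (cy y0 R) (sm_diff _ (wh_smooth y0)) (sm_diff _ hcs)]
    have h1 : ∀ k : Fin 3, (wh y0 w * fderiv ℝ (cy y0 R) w (EuclideanSpace.single k 1) +
        cy y0 R w * fderiv ℝ (wh y0) w (EuclideanSpace.single k 1)) ^ 2 ≤
        11 / 10 * cy y0 R w ^ 2 * (fderiv ℝ (wh y0) w (EuclideanSpace.single k 1)) ^ 2 +
          11 * (B ^ 2 * A) := by
      intro k
      have e1 := (hd k).1
      set a := wh y0 w * fderiv ℝ (cy y0 R) w (EuclideanSpace.single k 1)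
      set b := fderiv ℝ (wh y0) w (EuclideanSpace.single k 1)
      nlinarith [sq_nonneg (10 * a - cy y0 R w * b)]
    refine (Finset.sum_le_sum fun k _ => h1 k).trans ?_
    rw [Finset.sum_add_distrib, ← Finset.mul_sum]
    have h2 := G1_wh y0 w
    unfold G1 at h2
    have h3 : 11 / 10 * cy y0 R w ^ 2 * ∑ k, (fderiv ℝ (wh y0) w (EuclideanSpace.single k 1)) ^ 2 ≤
        11 / 10 * cy y0 R w ^ 2 * (9 / 25 * (wh y0 w ^ 2 / qv y0 w)) :=
      mul_le_mul_of_nonneg_left h2 (by positivity)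
    have h4 : 11 / 10 * cy y0 R w ^ 2 * (9 / 25 * (wh y0 w ^ 2 / qv y0 w)) =
        99 / 250 * ((wh y0 w * cy y0 R w) ^ 2 / qv y0 w) := by
      rw [mul_pow]; ring
    have h5 : 0 ≤ (wh y0 w * cy y0 R w) ^ 2 / qv y0 w := by positivity
    simp only [Finset.sum_const, Finset.card_univ, Fintype.card_fin, nsmul_eq_mul]
    push_cast
    linarith
  · have e1 : lap (fun w => wh y0 w * cy y0 R w) w =
        ∑ k, ddk (EuclideanSpace.single k 1) (fun w => wh y0 w * cy y0 R w) w := rfl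
    have e2 : lap (wh y0) w = ∑ k, ddk (EuclideanSpace.single k 1) (wh y0) w := rfl
    have h1 : lap (fun w => wh y0 w * cy y0 R w) w =
        (∑ k, (wh y0 w * ddk (EuclideanSpace.single k 1) (cy y0 R) w +
          2 * (fderiv ℝ (wh y0) w (EuclideanSpace.single k 1) *
            fderiv ℝ (cy y0 R) w (EuclideanSpace.single k 1)))) + cy y0 R w * lap (wh y0) w := by
      rw [e1, e2, Finset.mul_sum, ← Finset.sum_add_distrib]
      exact Finset.sum_congr rfl fun k _ => dd_mul _ _ (wh_smooth y0) hcs _ _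
    set M := √(B ^ 2 * A) with hM
    have hM0 : 0 ≤ M := Real.sqrt_nonneg _
    have hM2 : M ^ 2 = B ^ 2 * A := Real.sq_sqrt (by positivity)
    have h2 : ∀ k : Fin 3, |wh y0 w * ddk (EuclideanSpace.single k 1) (cy y0 R) w +
          2 * (fderiv ℝ (wh y0) w (EuclideanSpace.single k 1) *
            fderiv ℝ (cy y0 R) w (EuclideanSpace.single k 1))| ≤ 3 * M := by
      intro k
      have a1 : |wh y0 w * ddk (EuclideanSpace.single k 1) (cy y0 R) w| ≤ M :=
        Real.abs_le_sqrt (hd k).2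
      have a2 : |fderiv ℝ (wh y0) w (EuclideanSpace.single k 1) *
            fderiv ℝ (cy y0 R) w (EuclideanSpace.single k 1)| ≤ M := by
        apply Real.abs_le_sqrt
        have b1 := (hd k).1
        have b2 := fdwh_sq y0 w k
        rw [mul_pow] at b1 ⊢
        exact (mul_le_mul_of_nonneg_right b2 (sq_nonneg _)).trans b1
      refine (abs_add_le _ _).trans ?_
      rw [abs_mul 2, abs_two]
      linarith
    set X := ∑ k : Fin 3, (wh y0 w * ddk (EuclideanSpace.single k 1) (cy y0 R) w +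
          2 * (fderiv ℝ (wh y0) w (EuclideanSpace.single k 1) *
            fderiv ℝ (cy y0 R) w (EuclideanSpace.single k 1))) with hX
    have h3 : |X| ≤ 9 * M := by
      rw [hX]
      refine (Finset.abs_sum_le_sum_abs _ _).trans ?_
      refine (Finset.sum_le_sum fun k _ => h2 k).trans ?_
      simp only [Finset.sum_const, Finset.card_univ, Fintype.card_fin, nsmul_eq_mul]
      push_cast
      linarith
    have h4 : X ^ 2 ≤ 81 * (B ^ 2 * A) := by
      have := sq_le_sq' (by linarith [neg_abs_le X] : -(9 * M) ≤ X) (by linarith [le_abs_self X])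
      rw [mul_pow, hM2] at this
      linarith
    have h5 : (cy y0 R w * lap (wh y0) w) ^ 2 ≤ 81 / 100 * ((wh y0 w * cy y0 R w) ^ 2 / qv y0 w) := by
      rcases hw with hw | hw
      · rw [hw]; simp
      · have b1 := lap_wh y0 w
        have b2 : (lap (wh y0) w) ^ 2 ≤ (9 / 5 * (wh y0 w / qv y0 w)) ^ 2 :=
          sq_le_sq' (by linarith [neg_abs_le (lap (wh y0) w)]) (by linarith [le_abs_self (lap (wh y0) w)])
        have b3 : (9 / 5 * (wh y0 w / qv y0 w)) ^ 2 ≤ 81 / 100 * (wh y0 w ^ 2 / qv y0 w) := by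
          have : (9 / 5 * (wh y0 w / qv y0 w)) ^ 2 =
              81 / 25 * ((wh y0 w ^ 2 / qv y0 w) * (1 / qv y0 w)) := by
            field_simp
            ring
          rw [this]
          have c1 : 1 / qv y0 w ≤ 1 / 4 := one_div_le_one_div_of_le (by norm_num) hw
          have c2 : 0 ≤ wh y0 w ^ 2 / qv y0 w := by positivity
          have c3 := mul_le_mul_of_nonneg_left c1 c2
          linarith
        have b4 := mul_le_mul_of_nonneg_left (b2.trans b3) (sq_nonneg (cy y0 R w))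
        have b5 : (cy y0 R w) ^ 2 * (81 / 100 * (wh y0 w ^ 2 / qv y0 w)) =
          81 / 100 * ((wh y0 w * cy y0 R w) ^ 2 / qv y0 w) := by
          rw [mul_pow]; ring
        rw [mul_pow]
        linarith
    rw [h1]
    have h6 : 0 ≤ (wh y0 w * cy y0 R w) ^ 2 / qv y0 w := by positivity
    nlinarith [sq_nonneg (10 * X - cy y0 R w * lap (wh y0) w)]

/-- one dimensional cutoff -/
noncomputable def pc (ℓ t : ℝ) : ℝ :=
  Real.smoothTransition (1 / 10 * t + (-10)) * Real.smoothTransition (-(1 / 10) * t + (ℓ - 100) / 10)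

/-- the cutoff of the interior of the cube -/
noncomputable def ze (ℓ : ℝ) (w : E3) : ℝ := 1 - pc ℓ (w 0) * pc ℓ (w 1) * pc ℓ (w 2)

theorem pc_nn (ℓ t : ℝ) : 0 ≤ pc ℓ t :=
  mul_nonneg (Real.smoothTransition.nonneg _) (Real.smoothTransition.nonneg _)

theorem pc_le (ℓ t : ℝ) : pc ℓ t ≤ 1 :=
  mul_le_one₀ (Real.smoothTransition.le_one _) (Real.smoothTransition.nonneg _)
    (Real.smoothTransition.le_one _)

theorem pc_one {ℓ t : ℝ} (h1 : 110 ≤ t) (h2 : t ≤ ℓ - 110) : pc ℓ t = 1 := by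
  unfold pc
  rw [Real.smoothTransition.one_of_one_le (by linarith),
    Real.smoothTransition.one_of_one_le (by linarith), one_mul]

theorem pc_zero {ℓ t : ℝ} (h : t ≤ 100 ∨ ℓ - 100 ≤ t) : pc ℓ t = 0 := by
  unfold pc
  rcases h with h | h
  · rw [Real.smoothTransition.zero_of_nonpos (by linarith), zero_mul]
  · rw [Real.smoothTransition.zero_of_nonpos (x := -(1 / 10) * t + (ℓ - 100) / 10) (by linarith),
      mul_zero]

theorem ze_nn (ℓ : ℝ) (w : E3) : 0 ≤ ze ℓ w := by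
  unfold ze
  have h1 := mul_le_one₀ (pc_le ℓ (w 0)) (pc_nn ℓ (w 1)) (pc_le ℓ (w 1))
  have h2 := mul_le_one₀ h1 (pc_nn ℓ (w 2)) (pc_le ℓ (w 2))
  linarith

theorem ze_le (ℓ : ℝ) (w : E3) : ze ℓ w ≤ 1 := by
  unfold ze
  have := mul_nonneg (mul_nonneg (pc_nn ℓ (w 0)) (pc_nn ℓ (w 1))) (pc_nn ℓ (w 2))
  linarith

theorem ze_one {ℓ : ℝ} {w : E3} {k : Fin 3} (h : w k ≤ 100 ∨ ℓ - 100 ≤ w k) : ze ℓ w = 1 := by
  have h1 := pc_zero h
  unfold ze
  fin_cases k <;> simp at h1 <;> simp [h1]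

theorem ze_zero {ℓ : ℝ} {w : E3} (h : ∀ k, 110 ≤ w k ∧ w k ≤ ℓ - 110) : ze ℓ w = 0 := by
  unfold ze
  rw [pc_one (h 0).1 (h 0).2, pc_one (h 1).1 (h 1).2, pc_one (h 2).1 (h 2).2]
  norm_num

theorem Bd_ze : ∃ Z : ℝ, 0 ≤ Z ∧ ∀ ℓ, Bd Z (ze ℓ) := by
  obtain ⟨B, hB0, hB⟩ := sT_bounds
  have h1 : ∀ (ℓ : ℝ) (k : Fin 3), Bd (4 * B * B) (fun w : E3 => pc ℓ (w k)) := by
    intro ℓ k
    exact Bd_mul (Bd_1d hB0 hB (1 / 10) (-10) (by rw [abs_of_pos] <;> norm_num) k)
      (Bd_1d hB0 hB (-(1 / 10)) ((ℓ - 100) / 10) (by rw [abs_neg, abs_of_pos] <;> norm_num) k)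
  have h2 := fun ℓ => Bd_one_sub (Bd_mul (Bd_mul (h1 ℓ 0) (h1 ℓ 1)) (h1 ℓ 2))
  exact ⟨_, (h2 0).2.1, fun ℓ => h2 ℓ⟩

/-- the localising function -/
noncomputable def rh (y0 : E3) (R ℓ : ℝ) (w : E3) : ℝ := ze ℓ w * (wh y0 w * cy y0 R w)

theorem Bd_rh : ∃ C : ℝ, 0 ≤ C ∧ ∀ (y0 : E3) (R ℓ : ℝ), 1 ≤ R → Bd C (rh y0 R ℓ) := by
  obtain ⟨B, hB0, hB⟩ := ct_all
  obtain ⟨Z, hZ0, hZ⟩ := Bd_ze
  have h1 : ∀ (y0 : E3) (R : ℝ), 1 ≤ R → Bd B (cy y0 R) := by
    intro y0 R hR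
    have hBR : B / R ≤ B := div_le_self hB0 hR
    refine ⟨cy_sm y0 R, hB0, fun w => ⟨(hB 0 _).1, fun k => ?_⟩⟩
    have := cy_fd hB hR y0 w k
    exact ⟨this.1.trans hBR, this.2.trans hBR⟩
  exact ⟨4 * Z * (4 * 3 * B), by positivity, fun y0 R ℓ hR =>
    Bd_mul (hZ ℓ) (Bd_mul (Bd_wh y0) (h1 y0 R hR))⟩

theorem Bd_G1 {C : ℝ} {f : E3 → ℝ} (h : Bd C f) (w : E3) : G1 f w ≤ 3 * C ^ 2 ∧
    (lap f w) ^ 2 ≤ 9 * C ^ 2 := by
  have hC := h.2.1
  constructor
  · unfold G1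
    have h1 : ∀ k : Fin 3, (fderiv ℝ f w (EuclideanSpace.single k 1)) ^ 2 ≤ C ^ 2 := by
      intro k
      have := ((h.2.2 w).2 k).1
      exact sq_le_sq' (by linarith [neg_abs_le (fderiv ℝ f w (EuclideanSpace.single k 1))])
        (by linarith [le_abs_self (fderiv ℝ f w (EuclideanSpace.single k 1))])
    refine (Finset.sum_le_sum fun k _ => h1 k).trans ?_
    simp
  · have e1 : lap f w = ∑ k, ddk (EuclideanSpace.single k 1) f w := rfl
    have h1 : |lap f w| ≤ 3 * C := by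
      rw [e1]
      refine (Finset.abs_sum_le_sum_abs _ _).trans ?_
      refine (Finset.sum_le_sum fun k _ => ((h.2.2 w).2 k).2).trans ?_
      simp
    have := sq_le_sq' (by linarith [neg_abs_le (lap f w)] : -(3 * C) ≤ lap f w)
      (by linarith [le_abs_self (lap f w)])
    linarith [mul_pow 3 C 2]

section rh

variable {y0 : E3} {R ℓ : ℝ}

theorem cy_nn (w : E3) : 0 ≤ cy y0 R w := ct_nonneg _

theorem cy_le (w : E3) : cy y0 R w ≤ 1 := ct_le_one _

theorem rh_nn (w : E3) : 0 ≤ rh y0 R ℓ w :=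
  mul_nonneg (ze_nn _ _) (mul_nonneg (wh_pos _ _).le (cy_nn _))

theorem rh_le (w : E3) : rh y0 R ℓ w ≤ 1 :=
  mul_le_one₀ (ze_le _ _) (mul_nonneg (wh_pos _ _).le (cy_nn _))
    (mul_le_one₀ (wh_le _ _) (cy_nn _) (cy_le _))

theorem rh_far (hR : 1 ≤ R) {w : E3} (hw : 2 * R ≤ ‖w - y0‖) : rh y0 R ℓ w = 0 := by
  have h1 : cy y0 R w = 0 := by
    unfold cy
    apply ct_zero
    rw [norm_smul, norm_inv, Real.norm_eq_abs, abs_of_pos (by linarith : (0 : ℝ) < R),
      le_inv_mul_iff₀ (by linarith)]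
    linarith
  unfold rh
  rw [h1, mul_zero, mul_zero]

theorem rh_cs (hR : 1 ≤ R) : HasCompactSupport (rh y0 R ℓ) := by
  apply HasCompactSupport.intro (isCompact_closedBall y0 (2 * R))
  intro w hw
  rw [Metric.mem_closedBall, not_le, dist_eq_norm] at hw
  exact rh_far hR hw.le

theorem rh_loc0 (hR : 1 ≤ R) {w : E3} (hw : 2 * R < ‖w - y0‖) :
    G1 (rh y0 R ℓ) w = 0 ∧ lap (rh y0 R ℓ) w = 0 := by
  have h1 : rh y0 R ℓ =ᶠ[𝓝 w] fun _ => (0 : ℝ) := by
    have ho : {z : E3 | 2 * R < ‖z - y0‖} ∈ 𝓝 w :=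
      (isOpen_lt continuous_const (continuous_id.sub continuous_const).norm).mem_nhds hw
    filter_upwards [ho] with z hz
    exact rh_far hR (le_of_lt hz)
  have h2 := loc_G1 h1
  rw [h2.1, h2.2]
  constructor
  · unfold G1; simp
  · unfold lap; simp

theorem rh_loc1 {w : E3} (hw : ¬ ∀ k, 100 ≤ w k ∧ w k ≤ ℓ - 100) :
    rh y0 R ℓ =ᶠ[𝓝 w] fun w => wh y0 w * cy y0 R w := by
  push Not at hw
  obtain ⟨k, hk⟩ := hw
  have hc : Continuous fun z : E3 => z k := (EuclideanSpace.proj k : E3 →L[ℝ] ℝ).continuous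
  by_cases h1 : w k < 100
  · have ho : {z : E3 | z k < 100} ∈ 𝓝 w := (isOpen_lt hc continuous_const).mem_nhds h1
    filter_upwards [ho] with z hz
    unfold rh
    rw [ze_one (Or.inl (le_of_lt hz)), one_mul]
  · have h2 : ℓ - 100 < w k := hk (not_lt.1 h1)
    have ho : {z : E3 | ℓ - 100 < z k} ∈ 𝓝 w := (isOpen_lt continuous_const hc).mem_nhds h2
    filter_upwards [ho] with z hz
    unfold rh
    rw [ze_one (Or.inr (le_of_lt hz)), one_mul]

theorem rh_ne {w : E3} (hw : rh y0 R ℓ w ≠ 0) : ∃ k, w k < 110 ∨ ℓ - 110 < w k := by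
  by_contra hcon
  push Not at hcon
  apply hw
  unfold rh
  rw [ze_zero fun k => ⟨(hcon k).1, (hcon k).2⟩, zero_mul]

theorem co_le (v w : E3) (k : Fin 3) : |v k - w k| ≤ ‖v - w‖ := by
  have := PiLp.norm_apply_le (v - w) k
  simpa using this

theorem rh_112 (h0 : ∀ k, 222 ≤ y0 k ∧ y0 k ≤ ℓ - 222) {w : E3} (hw : rh y0 R ℓ w ≠ 0) :
    112 ≤ ‖w - y0‖ := by
  obtain ⟨k, hk⟩ := rh_ne hw
  refine le_trans ?_ (co_le w y0 k)
  obtain ⟨h1, h2⟩ := h0 k
  rcases hk with hk | hk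
  · rw [abs_sub_comm]
    exact le_trans (by linarith) (le_abs_self _)
  · exact le_trans (by linarith) (le_abs_self _)

end rh

/-- cutoff -/
noncomputable def c1 (ℓ t : ℝ) : ℝ := max 0 (min 1 (min ((t - 90) / 8) ((ℓ - 90 - t) / 8)))

theorem c1_nn (ℓ t : ℝ) : 0 ≤ c1 ℓ t := le_max_left _ _

theorem c1_le (ℓ t : ℝ) : c1 ℓ t ≤ 1 := max_le zero_le_one (min_le_left _ _)

theorem c1_one {ℓ t : ℝ} (h1 : 98 ≤ t) (h2 : t ≤ ℓ - 98) : c1 ℓ t = 1 := by
  unfold c1
  rw [min_eq_left, max_eq_right zero_le_one]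
  apply le_min <;> linarith

theorem c1_supp {ℓ t : ℝ} (h : c1 ℓ t ≠ 0) : 90 < t ∧ t < ℓ - 90 := by
  by_contra hcon
  apply h
  unfold c1
  apply max_eq_left
  rw [not_and_or, not_lt, not_lt] at hcon
  rcases hcon with hcon | hcon
  · exact ((min_le_right _ _).trans (min_le_left _ _)).trans (by linarith)
  · exact ((min_le_right _ _).trans (min_le_right _ _)).trans (by linarith)

/-- cutoff -/
noncomputable def x1 (ℓ : ℝ) (w : E3) : ℝ := c1 ℓ (w 0) * c1 ℓ (w 1) * c1 ℓ (w 2)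

/-- cutoff -/
noncomputable def x2 (y0 : E3) (R : ℝ) (w : E3) : ℝ := max 0 (min 1 ((2 * R + 9 - ‖w - y0‖) / 6))

theorem x1_nn (ℓ : ℝ) (w : E3) : 0 ≤ x1 ℓ w :=
  mul_nonneg (mul_nonneg (c1_nn _ _) (c1_nn _ _)) (c1_nn _ _)

theorem x1_le (ℓ : ℝ) (w : E3) : x1 ℓ w ≤ 1 :=
  mul_le_one₀ (mul_le_one₀ (c1_le _ _) (c1_nn _ _) (c1_le _ _)) (c1_nn _ _) (c1_le _ _)

theorem x1_cont (ℓ : ℝ) : Continuous (x1 ℓ) := by
  unfold x1 c1
  fun_prop

theorem x2_cont (y0 : E3) (R : ℝ) : Continuous (x2 y0 R) := by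
  unfold x2
  fun_prop

theorem x2_nn (y0 : E3) (R : ℝ) (w : E3) : 0 ≤ x2 y0 R w := le_max_left _ _

theorem x2_le (y0 : E3) (R : ℝ) (w : E3) : x2 y0 R w ≤ 1 := max_le zero_le_one (min_le_left _ _)

theorem x2_one {y0 : E3} {R : ℝ} {w : E3} (h : ‖w - y0‖ ≤ 2 * R + 3) : x2 y0 R w = 1 := by
  unfold x2
  rw [min_eq_left, max_eq_right zero_le_one]
  linarith

theorem x2_zero {y0 : E3} {R : ℝ} {w : E3} (h : 2 * R + 9 ≤ ‖w - y0‖) : x2 y0 R w = 0 := by
  unfold x2
  apply max_eq_left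
  exact (min_le_right _ _).trans (by linarith)

theorem x1_ind (ℓ : ℝ) (w : E3) : x1 ℓ w ≤
    Set.indicator {ω : E3 | Metric.closedBall ω 60 ⊆ cube ℓ} (fun _ => (1 : ℝ)) w := by
  by_cases h : x1 ℓ w = 0
  · rw [h]
    exact Set.indicator_nonneg (fun _ _ => zero_le_one) _
  · have h1 : w ∈ {ω : E3 | Metric.closedBall ω 60 ⊆ cube ℓ} := by
      unfold x1 at h
      have a0 : c1 ℓ (w 0) ≠ 0 := fun h' => h (by rw [h']; ring)
      have a1 : c1 ℓ (w 1) ≠ 0 := fun h' => h (by rw [h']; ring)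
      have a2 : c1 ℓ (w 2) ≠ 0 := fun h' => h (by rw [h']; ring)
      have ha : ∀ k : Fin 3, 90 < w k ∧ w k < ℓ - 90 := by
        intro k
        fin_cases k
        · exact c1_supp a0
        · exact c1_supp a1
        · exact c1_supp a2
      intro u hu k
      rw [Metric.mem_closedBall, dist_eq_norm] at hu
      have h2 := (co_le u w k).trans hu
      rw [abs_le] at h2
      have h3 := ha k
      constructor <;> linarith
    rw [Set.indicator_of_mem h1]
    exact x1_le _ _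

theorem pw2 {B C : ℝ} (h : ∀ (k : Fin 3) (w : E3), |ct w| ≤ B ∧
    |fderiv ℝ ct w (EuclideanSpace.single k 1)| ≤ B ∧
    |ddk (EuclideanSpace.single k 1) ct w| ≤ B) {R ℓ : ℝ} (hR : 1 ≤ R) (y0 : E3)
    (hC : Bd C (rh y0 R ℓ)) (h0 : ∀ k, 222 ≤ y0 k ∧ y0 k ≤ ℓ - 222) (ω w : E3)
    (hw : ‖ω - w‖ < 2) :
    G1 (rh y0 R ℓ) w ≤ 2 / 5 * (rh y0 R ℓ w ^ 2 / qv y0 w) +
      (9 * C ^ 2 + 891 * B ^ 2) * ((R ^ ((16 : ℝ) / 5))⁻¹ + x1 ℓ ω) * x2 y0 R ω ∧
    (lap (rh y0 R ℓ) w) ^ 2 ≤ 9 / 10 * (rh y0 R ℓ w ^ 2 / qv y0 w) +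
      (9 * C ^ 2 + 891 * B ^ 2) * ((R ^ ((16 : ℝ) / 5))⁻¹ + x1 ℓ ω) * x2 y0 R ω := by
  have hA : 0 < (R ^ ((16 : ℝ) / 5))⁻¹ := by
    have : 0 < R := by linarith
    positivity
  set A := (R ^ ((16 : ℝ) / 5))⁻¹ with hAd
  have hq := qv_pos y0 w
  have hx1 := x1_nn ℓ ω
  have hx2 := x2_nn y0 R ω
  have hB2 : 0 ≤ B ^ 2 * A := by positivity
  have hC2 : 0 ≤ C ^ 2 * A := by positivity
  have hrq : 0 ≤ rh y0 R ℓ w ^ 2 / qv y0 w := by positivity
  by_cases hs : 2 * R < ‖w - y0‖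
  · rw [(rh_loc0 hR hs).1, (rh_loc0 hR hs).2]
    constructor
    · positivity
    · rw [zero_pow two_ne_zero]; positivity
  · push Not at hs
    have h1 : ‖ω - y0‖ ≤ 2 * R + 3 := by
      have : ω - y0 = (ω - w) + (w - y0) := by abel
      rw [this]
      exact (norm_add_le _ _).trans (by linarith)
    rw [x2_one h1, mul_one]
    by_cases hb : ∀ k, 100 ≤ w k ∧ w k ≤ ℓ - 100
    · have h2 : x1 ℓ ω = 1 := by
        have h3 : ∀ k, c1 ℓ (ω k) = 1 := by
          intro k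
          have h4 := (co_le ω w k).trans hw.le
          rw [abs_le] at h4
          have := hb k
          exact c1_one (by linarith) (by linarith)
        unfold x1
        rw [h3, h3, h3]
        norm_num
      rw [h2]
      have h3 := Bd_G1 hC w
      constructor <;> nlinarith [h3.1, h3.2, sq_nonneg C, sq_nonneg B]
    · have h2 := rh_loc1 (y0 := y0) (R := R) hb
      have h3 := loc_G1 h2
      have h4 : rh y0 R ℓ w = wh y0 w * cy y0 R w := h2.eq_of_nhds
      have h5 : cy y0 R w = 0 ∨ 4 ≤ qv y0 w := by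
        by_cases hc : cy y0 R w = 0
        · exact Or.inl hc
        · right
          have : rh y0 R ℓ w ≠ 0 := by
            rw [h4]
            exact mul_ne_zero (wh_pos _ _).ne' hc
          have := rh_112 h0 this
          unfold qv
          nlinarith
      have h6 := pw h hR y0 w h5
      rw [h3.1, h3.2, h4]
      have h7 : 0 ≤ (9 * C ^ 2 + 891 * B ^ 2) * x1 ℓ ω := by positivity
      constructor
      · linarith [h6.1]
      · linarith [h6.2]

theorem avg {y0 : E3} {R ℓ : ℝ} (h0 : ∀ k, 222 ≤ y0 k ∧ y0 k ≤ ℓ - 222)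
    (hρ : Continuous (rh y0 R ℓ)) {F : E3 → ℝ} (hF : Continuous F) (a b c : ℝ) (ha : 0 ≤ a)
    (hc : 26 / 25 * a ≤ c) (ω : E3)
    (h : ∀ w, ‖ω - w‖ < 2 → F w ≤ a * (rh y0 R ℓ w ^ 2 / qv y0 w) + b) :
    Av F ω ≤ c * (Av (fun w => rh y0 R ℓ w ^ 2) ω / ‖ω - y0‖ ^ 2) + b := by
  have h1 : Av F ω ≤ (26 / 25 * a / ‖ω - y0‖ ^ 2) * Av (fun w => rh y0 R ℓ w ^ 2) ω + b := by
    refine Av_le hF ω _ _ (hρ.pow 2) fun w hw => ?_
    refine (h w hw).trans ?_
    have key : rh y0 R ℓ w ^ 2 / qv y0 w ≤ 26 / 25 * (rh y0 R ℓ w ^ 2 / ‖ω - y0‖ ^ 2) := by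
      by_cases hr : rh y0 R ℓ w = 0
      · rw [hr]; simp
      · have e1 := rh_112 h0 hr
        have e2 : ‖ω - y0‖ ≤ ‖w - y0‖ + 2 := by
          have : ω - y0 = (ω - w) + (w - y0) := by abel
          rw [this]
          exact (norm_add_le _ _).trans (by linarith)
        have e3 : ‖w - y0‖ ≤ ‖ω - y0‖ + 2 := by
          have : w - y0 = -(ω - w) + (ω - y0) := by abel
          rw [this]
          refine (norm_add_le _ _).trans ?_
          rw [norm_neg]
          linarith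
        have e4 : 0 < ‖ω - y0‖ := by linarith
        have e5 : ‖ω - y0‖ ^ 2 ≤ 26 / 25 * qv y0 w := by
          have e6 : ‖ω - y0‖ ^ 2 ≤ (‖w - y0‖ + 2) ^ 2 := pow_le_pow_left₀ e4.le e2 2
          unfold qv
          nlinarith
        have hq := qv_pos y0 w
        rw [← mul_div_assoc, div_le_div_iff₀ hq (by positivity)]
        have := mul_le_mul_of_nonneg_left e5 (sq_nonneg (rh y0 R ℓ w))
        linarith
    have := mul_le_mul_of_nonneg_left key ha
    have e : 26 / 25 * a / ‖ω - y0‖ ^ 2 * rh y0 R ℓ w ^ 2 =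
      a * (26 / 25 * (rh y0 R ℓ w ^ 2 / ‖ω - y0‖ ^ 2)) := by ring
    rw [e]
    linarith
  have h2 : 0 ≤ Av (fun w => rh y0 R ℓ w ^ 2) ω / ‖ω - y0‖ ^ 2 :=
    div_nonneg (Av_nn (fun w => sq_nonneg _) _) (sq_nonneg _)
  have h3 : 26 / 25 * a / ‖ω - y0‖ ^ 2 * Av (fun w => rh y0 R ℓ w ^ 2) ω =
    26 / 25 * a * (Av (fun w => rh y0 R ℓ w ^ 2) ω / ‖ω - y0‖ ^ 2) := by ring
  rw [h3] at h1
  have h4 := mul_le_mul_of_nonneg_right hc h2
  linarith

/-- TARGET -/
theorem weights : ∃ L c : ℝ, 0 < L ∧ 0 < c ∧ ∀ (R ℓ : ℝ) (y : E3), 1000 ≤ R →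
    10 * R + 2000 ≤ ℓ → y ∈ wall ℓ →
    ∃ (y0 : E3) (σ : Fin 3 → ℝ) (ρ W Γ Γ2 Γ3 : E3 → ℝ),
      Wt y0 σ (2 * R + 10) L W Γ Γ2 Γ3 ∧ ‖y - y0‖ ≤ 400 ∧ ContDiff ℝ SM ρ ∧
      (∀ w, 0 ≤ ρ w ∧ ρ w ≤ 1) ∧ (∀ w, 2 * R ≤ ‖w - y0‖ → ρ w = 0) ∧
      (∀ v, W v = (∫ w, ρ w ^ 2 * cy w 1 v ^ 2) / ∫ w : E3, ct w ^ 2) ∧
      (∀ v, ‖v - y‖ ≤ 61 → c ≤ W v) ∧
      (∀ ω, Γ2 ω ≤ L * ((R ^ ((16 : ℝ) / 5))⁻¹ +
        Set.indicator {ω : E3 | Metric.closedBall ω 60 ⊆ cube ℓ} (fun _ => (1 : ℝ)) ω)) := by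
  obtain ⟨B, hB0, hB⟩ := ct_all
  obtain ⟨C, hC0, hC⟩ := Bd_rh
  set C1 := 9 * C ^ 2 + 891 * B ^ 2 with hC1
  have hC1n : 0 ≤ C1 := by positivity
  refine ⟨1 + 2 * C + C1, (((1 : ℝ) + 463 ^ 2) ^ (-(3 : ℝ) / 10)) ^ 2, by positivity, by positivity,
    fun R ℓ y hR hℓ hy => ?_⟩
  have hR1 : 1 ≤ R := by linarith
  set y0 : E3 := WithLp.toLp 2 (fun k => max (min (y k) (ℓ - 222)) 222) with hy0
  have hy0k : ∀ k, y0 k = max (min (y k) (ℓ - 222)) 222 := fun k => rfl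
  have h0 : ∀ k, 222 ≤ y0 k ∧ y0 k ≤ ℓ - 222 := by
    intro k
    rw [hy0k]
    exact ⟨le_max_right _ _, max_le (min_le_right _ _) (by linarith)⟩
  have hyy : ∀ k, |y k - y0 k| ≤ 225 := by
    intro k
    have h1 := hy.1 k
    rw [hy0k, abs_le]
    constructor
    · have : max (min (y k) (ℓ - 222)) 222 ≤ y k + 225 :=
        max_le ((min_le_left _ _).trans (by linarith)) (by linarith)
      linarith
    · have h2 : y k - 225 ≤ min (y k) (ℓ - 222) := le_min (by linarith) (by linarith)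
      have := h2.trans (le_max_left _ (222 : ℝ))
      linarith
  have hyn : ‖y - y0‖ ≤ 400 := by
    have h1 := nsq (y - y0)
    have h2 : ∀ k : Fin 3, ((y - y0) k) ^ 2 ≤ 225 ^ 2 := by
      intro k
      have := hyy k
      rw [abs_le] at this
      have e : (y - y0) k = y k - y0 k := rfl
      rw [e]
      exact sq_le_sq' this.1 this.2
    have h3 := h2 0
    have h4 := h2 1
    have h5 := h2 2
    have h6 : ‖y - y0‖ ^ 2 ≤ 400 ^ 2 := by rw [h1]; linarith
    exact (pow_le_pow_iff_left₀ (norm_nonneg _) (by norm_num) two_ne_zero).1 h6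
  set ρ := rh y0 R ℓ with hρ
  have hbd : Bd C ρ := hC y0 R ℓ hR1
  have hsm : ContDiff ℝ SM ρ := hbd.1
  have hcs : HasCompactSupport ρ := rh_cs hR1
  have hG : ∀ w, G1 ρ w ≤ 3 * C ^ 2 := fun w => (Bd_G1 hbd w).1
  have hWne : ∀ ω, Av (fun w => ρ w ^ 2) ω ≠ 0 → ∃ w, ‖ω - w‖ < 2 ∧ ρ w ≠ 0 := by
    intro ω hω
    by_contra hcon
    push Not at hcon
    exact hω (Av_zero ω fun w hw => by rw [hcon w hw]; norm_num)
  have htri : ∀ ω w : E3, ‖ω - w‖ < 2 → ‖w - y0‖ ≤ ‖ω - y0‖ + 2 ∧ ‖ω - y0‖ ≤ ‖w - y0‖ + 2 := by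
    intro ω w hw
    constructor
    · have : w - y0 = -(ω - w) + (ω - y0) := by abel
      rw [this]
      refine (norm_add_le _ _).trans ?_
      rw [norm_neg]
      linarith
    · have : ω - y0 = (ω - w) + (w - y0) := by abel
      rw [this]
      exact (norm_add_le _ _).trans (by linarith)
  have hA : 0 < (R ^ ((16 : ℝ) / 5))⁻¹ := by positivity
  refine ⟨y0, fun k => if y k ≤ ℓ / 2 then 1 else -1, ρ, Av fun w => ρ w ^ 2, Av (G1 ρ),
    fun ω => C1 * ((R ^ ((16 : ℝ) / 5))⁻¹ + x1 ℓ ω) * x2 y0 R ω, Av fun w => lap ρ w ^ 2,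
    ?_, hyn, hsm, fun w => ⟨rh_nn w, rh_le w⟩, fun w hw => rh_far hR1 hw, ?_, ?_, ?_⟩
  · constructor
    · intro k
      by_cases h : y k ≤ ℓ / 2
      · left; simp [h]
      · right; simp [h]
    · exact Av_smooth (hsm.continuous.pow 2)
    · exact fun ω => Av_nn (fun w => sq_nonneg _) ω
    · intro ω
      have := Av_le (f := fun w => ρ w ^ 2) (hsm.continuous.pow 2) ω 0 1 hsm.continuous (fun w _ => by
        rw [zero_mul, zero_add]
        exact pow_le_one₀ (rh_nn w) (rh_le w))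
      rw [zero_mul, zero_add] at this
      exact this
    · intro ω hω
      exact Av_zero ω fun w hw => by
        have := htri ω w hw
        have h1 : ρ w = 0 := rh_far hR1 (by linarith)
        rw [h1]; norm_num
    · intro ω hω
      obtain ⟨w, hw, hne⟩ := hWne ω hω
      have h1 := rh_112 h0 hne
      have h2 := htri ω w hw
      refine ⟨by linarith, fun hall => ?_⟩
      have h3 : ‖w - y0‖ < 2 * R := by
        by_contra hcon
        exact hne (rh_far hR1 (not_lt.1 hcon))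
      obtain ⟨k, hk⟩ := rh_ne hne
      have h4 := hall k
      have h5 := (co_le ω w k).trans hw.le
      have h6 := (co_le w y0 k).trans h3.le
      rw [abs_le] at h5 h6
      have h7 := h0 k
      by_cases h : y k ≤ ℓ / 2
      · have h8 : y0 k ≤ ℓ / 2 := by
          rw [hy0k]
          exact max_le ((min_le_left _ _).trans h) (by linarith)
        simp only [h, if_true, one_mul] at h4
        rcases hk with hk | hk <;> linarith
      · have h8 : ℓ / 2 ≤ y0 k := by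
          rw [hy0k]
          exact (le_min (not_le.1 h).le (by linarith)).trans (le_max_left _ _)
        simp only [h, if_false] at h4
        rcases hk with hk | hk <;> linarith
    · exact (Av_smooth (G1_cont hsm)).continuous
    · exact fun ω => Av_nn (G1_nn ρ) ω
    · intro ω
      have h1 := Av_le (G1_cont hsm) ω 0 (3 * C ^ 2) hsm.continuous (fun w _ => by
        rw [zero_mul, zero_add]
        exact hG w)
      have h2 : 3 * C ^ 2 ≤ C1 := by rw [hC1]; nlinarith [sq_nonneg C, sq_nonneg B]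
      linarith
    · intro ω hω
      exact Av_zero ω fun w hw => by
        have := htri ω w hw
        exact (rh_loc0 hR1 (by linarith)).1
    · exact (continuous_const.mul (continuous_const.add (x1_cont ℓ))).mul (x2_cont y0 R)
    · intro ω
      have h1 := x1_nn ℓ ω
      have h2 := x2_nn y0 R ω
      positivity
    · intro ω hω
      rw [x2_zero (by linarith), mul_zero]
    · exact fun ω => Av_nn (fun w => sq_nonneg _) ω
    · exact fun ω => core_dW hsm hcs ω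
    · exact fun ω => core_lap hsm hcs ω
    · exact fun ω => avg h0 hsm.continuous (G1_cont hsm) (2 / 5) _ (1 / 2) (by norm_num)
        (by norm_num) ω fun w hw => (pw2 hB hR1 y0 hbd h0 ω w hw).1
    · intro ω
      have := avg h0 hsm.continuous ((lap_cont hsm).pow 2) (9 / 10)
        (C1 * ((R ^ ((16 : ℝ) / 5))⁻¹ + x1 ℓ ω) * x2 y0 R ω) 1 (by norm_num)
        (by norm_num) ω fun w hw => (pw2 hB hR1 y0 hbd h0 ω w hw).2
      rw [one_mul] at this
      exact this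
    · intro ω ω'
      have h1 := core_lip hsm hcs (C := 2 * C) (by positivity)
        (fun w => (hG w).trans (by nlinarith [sq_nonneg C])) ω ω'
      refine h1.trans ?_
      exact mul_le_mul_of_nonneg_right (by linarith) (norm_nonneg _)
  · intro v
    unfold Av
    rw [← integral_div]
    congr 1
    ext w
    unfold kq cy
    rw [inv_one, one_smul, mul_div_assoc]
  · intro v hv
    have h1 : ∀ w, ‖v - w‖ < 2 → ((1 : ℝ) + 463 ^ 2) ^ (-(3 : ℝ) / 10) ≤ ρ w := by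
      intro w hw
      have h2 : ‖w - y‖ ≤ 63 := by
        have : w - y = -(v - w) + (v - y) := by abel
        rw [this]
        refine (norm_add_le _ _).trans ?_
        rw [norm_neg]
        linarith
      have h3 : ‖w - y0‖ ≤ 463 := by
        have : w - y0 = (w - y) + (y - y0) := by abel
        rw [this]
        exact (norm_add_le _ _).trans (by linarith)
      have h4 : ze ℓ w = 1 := by
        have h5 := hy.2
        push Not at h5
        obtain ⟨k, hk⟩ := h5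
        have h6 := (co_le w y k).trans h2
        rw [abs_le] at h6
        by_cases h7 : y k < 20
        · exact ze_one (k := k) (Or.inl (by linarith))
        · have := hk (not_lt.1 h7)
          exact ze_one (k := k) (Or.inr (by linarith))
      have h5 : cy y0 R w = 1 := (cy_near (by linarith) y0 w (by linarith)).eq_of_nhds
      have h6 : ρ w = wh y0 w := by
        rw [hρ]
        unfold rh
        rw [h4, h5, one_mul, mul_one]
      rw [h6]
      unfold wh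
      apply Real.rpow_le_rpow_of_nonpos (qv_pos y0 w) _ (by norm_num)
      unfold qv
      nlinarith [norm_nonneg (w - y0)]
    have h2 := Av_le (f := fun _ => (((1 : ℝ) + 463 ^ 2) ^ (-(3 : ℝ) / 10)) ^ 2) continuous_const v 1 0
      (hsm.continuous.pow 2) (fun w hw => by
        rw [one_mul, add_zero]
        exact pow_le_pow_left₀ (by positivity) (h1 w hw) 2)
    rw [Av_const, one_mul, add_zero] at h2
    exact h2
  · intro ω
    have h1 := x1_ind ℓ ω
    have h2 := x1_nn ℓ ω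
    have h3 := x2_nn y0 R ω
    have h4 := x2_le y0 R ω
    set I := Set.indicator {ω : E3 | Metric.closedBall ω 60 ⊆ cube ℓ} (fun _ => (1 : ℝ)) ω
    have h5 : 0 ≤ C1 * ((R ^ ((16 : ℝ) / 5))⁻¹ + x1 ℓ ω) := by positivity
    calc C1 * ((R ^ ((16 : ℝ) / 5))⁻¹ + x1 ℓ ω) * x2 y0 R ω
        ≤ C1 * ((R ^ ((16 : ℝ) / 5))⁻¹ + x1 ℓ ω) * 1 := mul_le_mul_of_nonneg_left h4 h5
      _ = C1 * ((R ^ ((16 : ℝ) / 5))⁻¹ + x1 ℓ ω) := mul_one _
      _ ≤ (1 + 2 * C + C1) * ((R ^ ((16 : ℝ) / 5))⁻¹ + I) := by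
        apply mul_le_mul (by linarith) (by linarith) (by positivity) (by positivity)

end Pool.Agent.Helper780_CP.RB11
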