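import Pool.Agent.Helper780_CP.LLDefs2
import Pool.Agent.Helper780_CP.RVB
import Pool.Agent.Helper780_CP.RL0
import Pool.Agent.Helper780_CP.Flat0
import Pool.Agent.Helper780_CP.Avg

set_option autoImplicit false

open MeasureTheory

namespace Pool.Agent.Helper780_CP.RL1

open Pool.Agent.Helper780_CP
open Pool.Agent.Helper985.CP
open Pool.Agent.Helper780_CP.RVB (vb_props)
open Pool.Agent.Helper780_CP.RL0 (mulW_stateS near_min)

open Pool.Agent.Helper985.CP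

theorem icb_eq (ℓ : ℝ) : icb ℓ = (@WithLp.ofLp 2 (Fin 3 → ℝ)) ⁻¹'
    (Set.pi Set.univ (fun _ : Fin 3 => Set.Icc (ℓ / 4) (3 * ℓ / 4))) := by
  ext y
  simp only [icb, Set.mem_ofPred_eq, Set.mem_preimage, Set.mem_pi, Set.mem_univ, Set.mem_Icc,
    true_implies]

theorem icb_meas (ℓ : ℝ) : MeasurableSet (icb ℓ) := by
  rw [icb_eq]
  exact (PiLp.volume_preserving_ofLp (Fin 3)).measurable
    (MeasurableSet.univ_pi fun _ => measurableSet_Icc)

theorem icb_vol (ℓ : ℝ) (hℓ : 0 < ℓ) : volume (icb ℓ) = ENNReal.ofReal (ℓ ^ 3 / 8) := by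
  rw [icb_eq, (PiLp.volume_preserving_ofLp (Fin 3)).measure_preimage
    (MeasurableSet.univ_pi fun _ => measurableSet_Icc).nullMeasurableSet, Set.pi_univ_Icc,
    Real.volume_Icc_pi]
  have h1 : 3 * ℓ / 4 - ℓ / 4 = ℓ / 2 := by ring
  simp only [h1, Finset.prod_const, Finset.card_univ, Fintype.card_fin]
  rw [← ENNReal.ofReal_pow (by positivity)]
  congr 1
  ring

/-- indicator of the inner cube -/
noncomputable def ic (ℓ : ℝ) (y : E3) : ℝ := (icb ℓ).indicator (fun _ => (1 : ℝ)) y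

theorem ic_nonneg (ℓ : ℝ) (y : E3) : 0 ≤ ic ℓ y := Set.indicator_nonneg (fun _ _ => zero_le_one) y

theorem ic_meas (ℓ : ℝ) : Measurable (ic ℓ) := measurable_const.indicator (icb_meas ℓ)

theorem ic_int (ℓ : ℝ) (hℓ : 0 < ℓ) : Integrable (ic ℓ) := by
  unfold ic
  refine (integrable_indicator_iff (icb_meas ℓ)).2 (integrableOn_const ?_)
  rw [icb_vol ℓ hℓ]
  exact ENNReal.ofReal_ne_top

theorem ic_integral (ℓ : ℝ) (hℓ : 0 < ℓ) : ∫ y, ic ℓ y = ℓ ^ 3 / 8 := by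
  unfold ic
  rw [integral_indicator (icb_meas ℓ), setIntegral_const, Measure.real, icb_vol ℓ hℓ,
    ENNReal.toReal_ofReal (by positivity)]
  simp

theorem icb_compact (ℓ : ℝ) : IsCompact (icb ℓ) := by
  have h1 : IsCompact (Set.pi Set.univ (fun _ : Fin 3 => Set.Icc (ℓ / 4) (3 * ℓ / 4))) :=
    isCompact_univ_pi fun _ => isCompact_Icc
  have h2 : icb ℓ = (PiLp.homeomorph 2 (fun _ : Fin 3 => ℝ)) ⁻¹'
      (Set.pi Set.univ (fun _ : Fin 3 => Set.Icc (ℓ / 4) (3 * ℓ / 4))) := by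
    rw [icb_eq]
    rfl
  rw [h2]
  exact (Homeomorph.isCompact_preimage _).2 h1

theorem icb_pot_int (ℓ : ℝ) (z : E3) : Integrable (fun y => ic ℓ y * (1 / ‖z - y‖)) := by
  have h1 : LocallyIntegrable (fun y : E3 => ‖y - z‖⁻¹) volume := locInt_shift pot_props_locInt z
  have h2 := (integrable_indicator_iff (icb_meas ℓ)).2
    (h1.integrableOn_isCompact (icb_compact ℓ))
  refine h2.congr (Filter.Eventually.of_forall fun y => ?_)
  unfold ic
  by_cases hy : y ∈ icb ℓ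
  · simp only [Set.indicator_of_mem hy, one_mul, one_div]
    rw [norm_sub_rev]
  · simp only [Set.indicator_of_notMem hy, zero_mul]

theorem icb_pot_eq (ℓ : ℝ) (hℓ : 0 < ℓ) (z : E3) :
    ∫ y, ic ℓ y * (1 / ‖z - y‖) = ℓ ^ 3 / 8 * vb ℓ z := by
  unfold vb
  have h1 : ∫ y, ic ℓ y * (1 / ‖z - y‖) = ∫ y in icb ℓ, 1 / ‖z - y‖ := by
    rw [← integral_indicator (icb_meas ℓ)]
    refine integral_congr_ae (Filter.Eventually.of_forall fun y => ?_)
    unfold ic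
    by_cases hy : y ∈ icb ℓ
    · simp only [Set.indicator_of_mem hy, one_mul]
    · simp only [Set.indicator_of_notMem hy, zero_mul]
  rw [h1]
  field_simp

section

variable {S : Type} (D : Species S) {I : Type} [Fintype I] [DecidableEq I] (sp : I → S)

theorem WI_vb (ℓ : ℝ) (hℓ : 0 < ℓ) (i : I) : WI D sp ℓ (fun x => vb ℓ (x i)) :=
  WI_one D sp ℓ i (vb ℓ) (vb_props.1 ℓ hℓ).locallyIntegrable

theorem WI_phb (ℓ : ℝ) (hℓ : 0 < ℓ) : WI D sp ℓ (phb D sp ℓ) := by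
  unfold phb
  exact WI_sum D sp ℓ _ _ fun i _ => WI_smul D sp ℓ (WI_vb D sp ℓ hℓ i) _

theorem prod_int (ℓ : ℝ) (hℓ : 0 < ℓ) (Φ : Wave D I) (hΦ : IsState D sp ℓ Φ) (i : I)
    (τ : I → Fin D.g) :
    Integrable (fun q : (I → E3) × E3 => ic ℓ q.2 * ((1 / ‖q.1 i - q.2‖) * ‖Φ τ q.1‖ ^ 2))
      ((volume : Measure (I → E3)).prod (volume : Measure E3)) := by
  have hm : Measurable (fun x => ‖Φ τ x‖ ^ 2) :=
    ((hΦ.smooth τ).continuous.measurable.norm).pow_const 2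
  have h0 : Measurable (fun q : (I → E3) × E3 => 1 / ‖q.1 i - q.2‖) := by
    have h1 : Measurable (fun q : (I → E3) × E3 => q.1 i) :=
      (measurable_pi_apply i).comp measurable_fst
    simp only [one_div]
    exact ((h1.sub measurable_snd).norm).inv
  have h1 : Measurable (fun q : (I → E3) × E3 =>
      ic ℓ q.2 * ((1 / ‖q.1 i - q.2‖) * ‖Φ τ q.1‖ ^ 2)) :=
    ((ic_meas ℓ).comp measurable_snd).mul (h0.mul (hm.comp measurable_fst))
  refine (integrable_prod_iff h1.aestronglyMeasurable).2 ⟨?_, ?_⟩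
  · refine Filter.Eventually.of_forall fun x => ?_
    refine ((icb_pot_int ℓ (x i)).mul_const (‖Φ τ x‖ ^ 2)).congr
      (Filter.Eventually.of_forall fun y => ?_)
    simp only
    ring
  · have h2 : ∀ x : I → E3, ∫ y, ‖ic ℓ y * ((1 / ‖x i - y‖) * ‖Φ τ x‖ ^ 2)‖ =
        ℓ ^ 3 / 8 * (vb ℓ (x i) * ‖Φ τ x‖ ^ 2) := by
      intro x
      have h3 : ∀ y, ‖ic ℓ y * ((1 / ‖x i - y‖) * ‖Φ τ x‖ ^ 2)‖ =
          (ic ℓ y * (1 / ‖x i - y‖)) * ‖Φ τ x‖ ^ 2 := by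
        intro y
        have := ic_nonneg ℓ y
        rw [Real.norm_of_nonneg (by positivity)]
        ring
      simp only [h3]
      rw [integral_mul_const, icb_pot_eq ℓ hℓ]
      ring
    simp only [h2]
    exact (WI_vb D sp ℓ hℓ i Φ hΦ τ).const_mul _

/-- the potential, cut off -/
theorem ic_phim (ℓ : ℝ) (Φ : Wave D I) (hΦ : IsState D sp ℓ Φ) (y : E3) :
    ic ℓ y * phim D sp Φ y = ∑ τ, ∑ i, D.charge (sp i) *
      ∫ x : I → E3, ic ℓ y * ((1 / ‖x i - y‖) * ‖Φ τ x‖ ^ 2) := by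
  have hw : ∀ i, WI D sp ℓ (fun x => 1 / ‖x i - y‖) := by
    intro i
    have h := locInt_shift pot_props_locInt y
    have h2 := WI_one D sp ℓ i (fun z => ‖z - y‖⁻¹) h
    simpa only [one_div] using h2
  unfold phim mean
  rw [Finset.mul_sum]
  refine Finset.sum_congr rfl fun τ _ => ?_
  have h1 : ∫ x : I → E3, (∑ i, D.charge (sp i) * (1 / ‖x i - y‖)) * ‖Φ τ x‖ ^ 2 =
      ∑ i, D.charge (sp i) * ∫ x : I → E3, (1 / ‖x i - y‖) * ‖Φ τ x‖ ^ 2 := by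
    simp only [← integral_const_mul]
    rw [← integral_finsetSum _ fun i _ => (hw i Φ hΦ τ).const_mul _]
    refine integral_congr_ae (Filter.Eventually.of_forall fun x => ?_)
    simp only
    rw [Finset.sum_mul]
    refine Finset.sum_congr rfl fun i _ => ?_
    ring
  rw [h1, Finset.mul_sum]
  refine Finset.sum_congr rfl fun i _ => ?_
  rw [integral_const_mul]
  ring

theorem phim_avg (ℓ : ℝ) (hℓ : 0 < ℓ) (Φ : Wave D I) (hΦ : IsState D sp ℓ Φ) :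
    Integrable (fun y => ic ℓ y * phim D sp Φ y) ∧
    ∫ y, ic ℓ y * phim D sp Φ y = ℓ ^ 3 / 8 * wm D (phb D sp ℓ) Φ := by
  have hF := prod_int D sp ℓ hℓ Φ hΦ
  simp only [ic_phim D sp ℓ Φ hΦ]
  refine ⟨integrable_finsetSum _ fun τ _ => integrable_finsetSum _ fun i _ =>
    ((hF i τ).integral_prod_right).const_mul _, ?_⟩
  rw [integral_finsetSum _ fun τ _ => integrable_finsetSum _ fun i _ =>
    ((hF i τ).integral_prod_right).const_mul _]
  unfold wm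
  rw [Finset.mul_sum]
  refine Finset.sum_congr rfl fun τ _ => ?_
  rw [integral_finsetSum _ fun i _ => ((hF i τ).integral_prod_right).const_mul _]
  have h1 : ∫ x : I → E3, phb D sp ℓ x * ‖Φ τ x‖ ^ 2 =
      ∑ i, D.charge (sp i) * ∫ x : I → E3, vb ℓ (x i) * ‖Φ τ x‖ ^ 2 := by
    simp only [← integral_const_mul]
    rw [← integral_finsetSum _ fun i _ => (WI_vb D sp ℓ hℓ i Φ hΦ τ).const_mul _]
    refine integral_congr_ae (Filter.Eventually.of_forall fun x => ?_)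
    simp only [phb]
    rw [Finset.sum_mul]
    refine Finset.sum_congr rfl fun i _ => ?_
    ring
  rw [h1, Finset.mul_sum]
  refine Finset.sum_congr rfl fun i _ => ?_
  rw [integral_const_mul]
  rw [← integral_integral_swap (f := fun (x : I → E3) (y : E3) =>
    ic ℓ y * ((1 / ‖x i - y‖) * ‖Φ τ x‖ ^ 2)) (hF i τ)]
  have h2 : ∀ x : I → E3, ∫ y, ic ℓ y * ((1 / ‖x i - y‖) * ‖Φ τ x‖ ^ 2) =
      ℓ ^ 3 / 8 * (vb ℓ (x i) * ‖Φ τ x‖ ^ 2) := by
    intro x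
    have h3 : ∀ y, ic ℓ y * ((1 / ‖x i - y‖) * ‖Φ τ x‖ ^ 2) =
        (ic ℓ y * (1 / ‖x i - y‖)) * ‖Φ τ x‖ ^ 2 := by
      intro y
      ring
    simp only [h3]
    rw [integral_mul_const, icb_pot_eq ℓ hℓ]
    ring
  simp only [h2]
  rw [integral_const_mul]
  ring

/-- expectation of nonnegative weights -/
theorem wm_nn (W : (I → E3) → ℝ) (hW : ∀ x, 0 ≤ W x) (Φ : Wave D I) : 0 ≤ wm D W Φ := by
  unfold wm
  exact Finset.sum_nonneg fun τ _ => integral_nonneg fun x => mul_nonneg (hW x) (sq_nonneg _)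

/-- the mean over the inner cube is close to any level which is pointwise close -/
theorem avg_close (ℓ : ℝ) (hℓ : 0 < ℓ) (κ : ℝ) (hκ : κ = ∫ z, kk z) (ρ : ℝ)
    (hcard : (Fintype.card I : ℝ) ≤ ρ * ℓ ^ 3) (Φ : Wave D I) (hΦ : IsState D sp ℓ Φ)
    (U a b : ℝ) (hb : 0 ≤ b)
    (h : ∀ y ∈ icb ℓ, |phim D sp Φ y - U| ≤ a + b * wm D (near2 y) Φ) :
    |wm D (phb D sp ℓ) Φ - U| ≤ a + 8 * b * (1 + κ * ρ) * nrm2 D Φ := by
  obtain ⟨h1, h2⟩ := phim_avg D sp ℓ hℓ Φ hΦ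
  obtain ⟨h3, h4⟩ := cost_avg D sp ℓ hℓ Φ hΦ
  have hκ0 : 0 ≤ κ := by rw [hκ]; exact integral_nonneg kk_nonneg
  have hl3 : 0 < ℓ ^ 3 := by positivity
  have e1 : ∫ y, ic ℓ y * (phim D sp Φ y - U) = ℓ ^ 3 / 8 * (wm D (phb D sp ℓ) Φ - U) := by
    have : ∀ y, ic ℓ y * (phim D sp Φ y - U) = ic ℓ y * phim D sp Φ y - ic ℓ y * U := fun y => by
      ring
    simp only [this]
    rw [integral_sub h1 ((ic_int ℓ hℓ).mul_const U), h2, integral_mul_const, ic_integral ℓ hℓ]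
    ring
  have e2 : ‖∫ y, ic ℓ y * (phim D sp Φ y - U)‖ ≤
      ∫ y, (a * ic ℓ y + b * ((cube ℓ).indicator (fun _ => (1 : ℝ)) y * wm D (near2 y) Φ)) := by
    refine norm_integral_le_of_norm_le (((ic_int ℓ hℓ).const_mul a).add (h3.const_mul b))
      (Filter.Eventually.of_forall fun y => ?_)
    have hw := wm_nn D (near2 y) (near2_nonneg y) Φ
    by_cases hy : y ∈ icb ℓ
    · have hyc : y ∈ cube ℓ := by
        intro k
        have := hy k
        constructor <;> linarith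
      have e3 : ic ℓ y = 1 := by unfold ic; rw [Set.indicator_of_mem hy]
      rw [e3, Set.indicator_of_mem hyc, one_mul, one_mul, mul_one, Real.norm_eq_abs]
      exact h y hy
    · have e3 : ic ℓ y = 0 := by unfold ic; rw [Set.indicator_of_notMem hy]
      rw [e3, zero_mul, norm_zero, mul_zero, zero_add]
      have := Set.indicator_nonneg (s := cube ℓ) (f := fun _ => (1 : ℝ))
        (fun _ _ => zero_le_one) y
      positivity
  rw [integral_add ((ic_int ℓ hℓ).const_mul a) (h3.const_mul b), integral_const_mul,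
    integral_const_mul, ic_integral ℓ hℓ, e1, Real.norm_eq_abs, abs_mul,
    abs_of_pos (by positivity : 0 < ℓ ^ 3 / 8)] at e2
  have hn := nrm2_nn D Φ
  have e4 : ∫ y, (cube ℓ).indicator (fun _ => (1 : ℝ)) y * wm D (near2 y) Φ ≤
      ℓ ^ 3 * (1 + κ * ρ) * nrm2 D Φ := by
    refine h4.trans (mul_le_mul_of_nonneg_right ?_ hn)
    rw [← hκ]
    have := mul_le_mul_of_nonneg_left hcard hκ0
    linarith
  have e5 := mul_le_mul_of_nonneg_left e4 hb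
  have e6 : ℓ ^ 3 / 8 * |wm D (phb D sp ℓ) Φ - U| ≤
      ℓ ^ 3 / 8 * (a + 8 * b * (1 + κ * ρ) * nrm2 D Φ) := by
    refine e2.trans ?_
    have : a * (ℓ ^ 3 / 8) + b * (ℓ ^ 3 * (1 + κ * ρ) * nrm2 D Φ) =
      ℓ ^ 3 / 8 * (a + 8 * b * (1 + κ * ρ) * nrm2 D Φ) := by ring
    linarith
  exact le_of_mul_le_mul_left e6 (by positivity)

end

/-- TARGET -/
theorem FL_near_min {S : Type} [Fintype S] [DecidableEq S] (D : Species S) (hD : D.Valid)
    (hst : HStable D) (ρ : ℝ) (hρ : 0 ≤ ρ) : ∃ C : ℝ, 0 < C ∧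
    ∀ {I : Type} [Fintype I] [DecidableEq I] (sp : I → S) (ℓ : ℝ), 4 ≤ ℓ →
      (Fintype.card I : ℝ) ≤ ρ * ℓ ^ 3 → (∑ i, D.charge (sp i) = 0) → ∀ η : ℝ, 0 ≤ η →
      ∀ Ψ : Wave D I, IsState D sp ℓ Ψ → nrm2 D Ψ = 1 →
      energy D sp Ψ ≤ sInf (energies D sp ℓ) + η →
      FL D sp ℓ (phb D sp ℓ) C η Ψ := by
  obtain ⟨C₁, hC₁, H₁⟩ := move0C D hD
  obtain ⟨C₂, hC₂, H₂⟩ := near_min D hD
  obtain ⟨A, hA⟩ := id hst
  have hAA : ∀ {J : Type} [Fintype J] [DecidableEq J] (sp' : J → S) (ℓ : ℝ), 0 < ℓ →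
      ∀ (Ψ : Wave D J), IsState D sp' ℓ Ψ →
      -|A| * (Fintype.card J : ℝ) * nrm2 D Ψ ≤ energy D sp' Ψ := by
    intro J _ _ sp' ℓ hℓ Ψ hΨ
    refine le_trans ?_ (stable_any D A hA sp' ℓ hℓ Ψ hΨ)
    have := nrm2_nn D Ψ
    have h2 := le_abs_self A
    have h3 : (0 : ℝ) ≤ (Fintype.card J : ℝ) * nrm2 D Ψ := by positivity
    nlinarith
  obtain ⟨cm, hcm⟩ : ∃ cm, cm = ∑ s, |D.charge s|⁻¹ := ⟨_, rfl⟩
  have hcm1 : ∀ s, |D.charge s|⁻¹ ≤ cm := by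
    intro s
    rw [hcm]
    exact Finset.single_le_sum (f := fun s => |D.charge s|⁻¹) (fun t _ => by positivity)
      (Finset.mem_univ s)
  have hcm0 : 0 ≤ cm := by rw [hcm]; exact Finset.sum_nonneg fun t _ => by positivity
  obtain ⟨κ, hκ⟩ : ∃ κ, κ = ∫ z, kk z := ⟨_, rfl⟩
  have hκ0 : 0 ≤ κ := by rw [hκ]; exact integral_nonneg kk_nonneg
  obtain ⟨n, hn⟩ : ∃ n : ℝ, n = (Fintype.card S : ℝ) := ⟨_, rfl⟩
  have hn0 : 0 ≤ n := by rw [hn]; exact Nat.cast_nonneg _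
  obtain ⟨m, hm⟩ : ∃ m : ℝ, m = cm * (1 + n) := ⟨_, rfl⟩
  have hm0 : 0 ≤ m := by rw [hm]; positivity
  obtain ⟨q, hq⟩ : ∃ q : ℝ, q = cm * n * (4 * |A|) := ⟨_, rfl⟩
  have hq0 : 0 ≤ q := by rw [hq]; positivity
  refine ⟨2 * m * C₂ + (m * C₁ + 2 * q + 4 * (m * C₁) + 32 * (m * C₁) * (1 + κ * ρ)) + 1,
    by positivity, ?_⟩
  intro I _ _ sp ℓ hℓ hcard hneu η hη Ψ hΨ hn1 hgap r ω f B hr hr1 hball hf hfs hfB
  have hℓ0 : 0 < ℓ := by linarith
  -- the state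
  obtain ⟨Φ, hΦe⟩ : ∃ Φ, Φ = mulW D f Ψ := ⟨_, rfl⟩
  have hΦ : IsState D sp ℓ Φ := by
    rw [hΦe]
    exact mulW_stateS D sp ℓ Ψ hΨ f hf hfs
  have hN := nrm2_nn D Φ
  have hw0 : 0 ≤ wm D (near2 ω) Φ := wm_nn D _ (near2_nonneg ω) Φ
  have hgr0 : 0 ≤ wm D (gr f) Ψ := wm_nn D _ (fun x => by unfold gr; positivity) Ψ
  have hWphi : WI D sp ℓ (phi D sp ω) := WI_phi D sp ℓ ω
  have hWphb := WI_phb D sp ℓ hℓ0
  have e1 : wm D (fun x => f x ^ 2 * (phi D sp ω x - phb D sp ℓ x)) Ψ =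
      phim D sp Φ ω - wm D (phb D sp ℓ) Φ := by
    rw [← wm_mulW D (fun x => phi D sp ω x - phb D sp ℓ x) f Ψ, ← hΦe]
    have h1 : (fun x => phi D sp ω x - phb D sp ℓ x) =
        fun x => phi D sp ω x + (-1) * phb D sp ℓ x := by
      funext x
      ring
    rw [h1, wm_add D sp ℓ hWphi (WI_smul D sp ℓ hWphb (-1)) Φ hΦ, wm_smul]
    have h2 : wm D (phi D sp ω) Φ = phim D sp Φ ω := rfl
    rw [h2]
    ring
  have e2 : wm D (fun x => f x ^ 2 * (1 + near2 ω x)) Ψ = nrm2 D Φ + wm D (near2 ω) Φ := by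
    rw [← wm_mulW D (fun x => 1 + near2 ω x) f Ψ, ← hΦe,
      wm_add D sp ℓ (WI_const D sp ℓ 1) (WI_near2 D sp ℓ ω) Φ hΦ, wm_one]
  rw [e1, e2]
  obtain ⟨Y, hY⟩ : ∃ Y, Y = wm D (gr f) Ψ + B ^ 2 * η := ⟨_, rfl⟩
  have hY0 : 0 ≤ Y := by rw [hY]; positivity
  have e3 : nrm2 D Φ + wm D (near2 ω) Φ + wm D (gr f) Ψ + B ^ 2 * η =
      (nrm2 D Φ + wm D (near2 ω) Φ) + Y := by rw [hY]; ring
  rw [e3]
  have hr2 : 1 ≤ 1 / r ^ 2 := by
    rw [le_div_iff₀ (by positivity), one_mul]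
    exact pow_le_one₀ hr.le hr1
  rcases isEmpty_or_nonempty I with hI | hI
  · have h1 : phim D sp Φ ω = 0 := by
      unfold phim mean
      simp
    have h2 : wm D (phb D sp ℓ) Φ = 0 := by
      unfold wm phb
      simp
    rw [h1, h2, sub_zero, abs_zero]
    positivity
  obtain ⟨i0, hi0⟩ := exists_abundant sp
  obtain ⟨-, -, hE, -⟩ := energies_basic D hD hst sp ℓ hℓ0
  obtain ⟨G, hG⟩ : ∃ G, G = energy D sp Φ - sInf (energies D sp ℓ) * nrm2 D Φ := ⟨_, rfl⟩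
  have hG0 : 0 ≤ G := by
    have := hE Φ hΦ
    rw [hG]
    linarith
  have hG1 : G ≤ C₂ * Y := by
    have := H₂ sp ℓ (sInf (energies D sp ℓ)) η hη hE Ψ hΨ hn1 hgap f B hf hfs hfB
    rw [← hΦe] at this
    rw [hG, hY]
    linarith
  have hstab : -(4 * |A| * nrm2 D Φ) * (Fintype.card I : ℝ) ≤ ∑ i, pe D sp i Φ := by
    have := sum_pe D |A| sp (fun ℓ hℓ Φ hΦ => hAA sp ℓ hℓ Φ hΦ) ℓ hℓ0 Φ hΦ
    refine le_trans (le_of_eq ?_) this
    ring
  have hc := hD.charge_ne (sp i0)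
  -- pointwise closeness
  have hpt : ∀ δ : ℝ, 0 < δ → δ ≤ 1 → ∀ y, Metric.closedBall y δ ⊆ cube ℓ →
      |phim D sp Φ y - pe D sp i0 Φ / D.charge (sp i0)| ≤
        m * (G + C₁ / δ ^ 2 * (nrm2 D Φ + wm D (near2 y) Φ)) + q * nrm2 D Φ := by
    intro δ hδ hδ1 y hy
    have hwy : 0 ≤ wm D (near2 y) Φ := wm_nn D _ (near2_nonneg y) Φ
    obtain ⟨K, hK⟩ : ∃ K, K = G + C₁ / δ ^ 2 * (nrm2 D Φ + wm D (near2 y) Φ) := ⟨_, rfl⟩
    have hK0 : 0 ≤ K := by rw [hK]; positivity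
    have hmove : ∀ i, pe D sp i Φ ≤ D.charge (sp i) * phim D sp Φ y + K := by
      intro i
      have h1 := H₁ δ hδ hδ1 sp ℓ y hy (sInf (energies D sp ℓ)) _ hE i
        (rest_lower D sp ℓ |A| (fun sp' Φ hΦ => hAA sp' ℓ hℓ0 Φ hΦ) i) Φ hΦ
      rw [hK, hG]
      linarith
    have hcore := flat_core sp i0 hi0 D.charge hneu (fun i => pe D sp i Φ)
      (fun i hi => (pe_symm D sp ℓ Φ hΦ i i0 hi).1) (phim D sp Φ y) K (4 * |A| * nrm2 D Φ)
      hstab hmove hK0 (by positivity)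
    have e4 : phim D sp Φ y - pe D sp i0 Φ / D.charge (sp i0) =
        (D.charge (sp i0))⁻¹ * (D.charge (sp i0) * phim D sp Φ y - pe D sp i0 Φ) := by
      field_simp
    rw [e4, abs_mul, abs_inv, ← hK]
    rw [← hn] at hcore
    calc |D.charge (sp i0)|⁻¹ * |D.charge (sp i0) * phim D sp Φ y - pe D sp i0 Φ|
        ≤ cm * (K + n * (K + 4 * |A| * nrm2 D Φ)) :=
          mul_le_mul (hcm1 _) hcore (abs_nonneg _) hcm0
      _ = m * K + q * nrm2 D Φ := by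
          rw [hm, hq]
          ring
  have hω := hpt r hr hr1 ω hball
  have hic : ∀ y ∈ icb ℓ, |phim D sp Φ y - pe D sp i0 Φ / D.charge (sp i0)| ≤
      (m * (G + 4 * C₁ * nrm2 D Φ) + q * nrm2 D Φ) + (4 * (m * C₁)) * wm D (near2 y) Φ := by
    intro y hy
    have hsub : Metric.closedBall y (1 / 2) ⊆ cube ℓ := by
      intro z hz k
      rw [Metric.mem_closedBall, dist_eq_norm] at hz
      have h1 : |z k - y k| ≤ 1 / 2 := by
        have := EuclideanSpace.norm_eq (z - y)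
        have h2 : ‖(z - y) k‖ ≤ ‖z - y‖ := PiLp.norm_apply_le (z - y) k
        rw [PiLp.sub_apply, Real.norm_eq_abs] at h2
        linarith
      rw [abs_le] at h1
      have := hy k
      constructor <;> linarith
    have := hpt (1 / 2) (by norm_num) (by norm_num) y hsub
    refine this.trans (le_of_eq ?_)
    ring
  have hav := avg_close D sp ℓ hℓ0 κ hκ ρ hcard Φ hΦ _ _ _ (by positivity) hic
  obtain ⟨N, hNe⟩ : ∃ N, N = nrm2 D Φ := ⟨_, rfl⟩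
  obtain ⟨w, hwe⟩ : ∃ w, w = wm D (near2 ω) Φ := ⟨_, rfl⟩
  obtain ⟨R, hR⟩ : ∃ R, R = 1 / r ^ 2 := ⟨_, rfl⟩
  rw [← hNe, ← hwe] at hω
  rw [← hNe] at hav
  rw [← hNe, ← hwe]
  rw [← hNe] at hN
  rw [← hwe] at hw0
  rw [← hR] at hr2
  have e5 : C₁ / r ^ 2 = C₁ * R := by rw [hR]; ring
  rw [e5] at hω
  rw [div_eq_mul_one_div, ← hR]
  have htri : |phim D sp Φ ω - wm D (phb D sp ℓ) Φ| ≤
      |phim D sp Φ ω - pe D sp i0 Φ / D.charge (sp i0)| +
      |wm D (phb D sp ℓ) Φ - pe D sp i0 Φ / D.charge (sp i0)| := by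
    have h1 : phim D sp Φ ω - wm D (phb D sp ℓ) Φ =
      (phim D sp Φ ω - pe D sp i0 Φ / D.charge (sp i0)) -
      (wm D (phb D sp ℓ) Φ - pe D sp i0 Φ / D.charge (sp i0)) := by ring
    rw [h1]
    exact abs_sub _ _
  refine htri.trans ((add_le_add hω hav).trans ?_)
  -- bookkeeping
  have hR0 : 0 ≤ R := by linarith
  have b1 : m * G ≤ m * (C₂ * Y) := mul_le_mul_of_nonneg_left hG1 hm0
  have b2 : m * (C₂ * Y) ≤ R * (m * (C₂ * Y)) := by
    have : 0 ≤ m * (C₂ * Y) := by positivity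
    exact le_mul_of_one_le_left this hr2
  have hX0 : 0 ≤ N + w := by linarith
  have b3 : N ≤ R * (N + w) :=
    (show N ≤ N + w by linarith).trans (le_mul_of_one_le_left hX0 hr2)
  have hmC : 0 ≤ m * C₁ := by positivity
  have hk : 0 ≤ 1 + κ * ρ := by positivity
  have b4 : q * N ≤ q * (R * (N + w)) := mul_le_mul_of_nonneg_left b3 hq0
  have b5 : (m * C₁) * N ≤ (m * C₁) * (R * (N + w)) := mul_le_mul_of_nonneg_left b3 hmC
  have b6 : (32 * (m * C₁) * (1 + κ * ρ)) * N ≤ (32 * (m * C₁) * (1 + κ * ρ)) * (R * (N + w)) :=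
    mul_le_mul_of_nonneg_left b3 (by positivity)
  have b7 : 0 ≤ R * (N + w) := by positivity
  have b8 : 0 ≤ R * Y := by positivity
  have b9 : 0 ≤ (m * C₁ + 2 * q + 4 * (m * C₁) + 32 * (m * C₁) * (1 + κ * ρ)) * (R * Y) := by
    positivity
  have b10 : 0 ≤ (2 * m * C₂) * (R * (N + w)) := by positivity
  linarith [b1, b2, b4, b5, b6, b7, b8, b9, b10]

end Pool.Agent.Helper780_CP.RL1
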