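import Pool.Agent.Helper780_CP.LLDefs2

set_option autoImplicit false

open MeasureTheory

namespace Pool.Agent.Helper780_CP

open Pool.Agent.Helper985.CP

theorem ins_any {S : Type} [Fintype S] (D : Species S) (hD : D.Valid) (δ : ℝ) (hδ : 0 < δ) :
    ∃ C : ℝ, 0 < C ∧ ∀ {I : Type} [Fintype I] [DecidableEq I] (sp : Option I → S) (ℓ : ℝ) (v : E3),
      Metric.closedBall v δ ⊆ cube ℓ → ∀ E Bd : ℝ,
      (∀ Φ, IsState D sp ℓ Φ → E * nrm2 D Φ ≤ energy D sp Φ) →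
      (∀ Φ, IsState D (fun i => sp (some i)) ℓ Φ →
        Bd * nrm2 D Φ ≤ energy D (fun i => sp (some i)) Φ) →
      ∀ Ψ, IsState D (fun i => sp (some i)) ℓ Ψ →
        E * nrm2 D Ψ ≤ energy D (fun i => sp (some i)) Ψ +
          D.charge (sp none) * wm D (phi D (fun i => sp (some i)) v) Ψ +
          C * (nrm2 D Ψ + wm D (near2 v) Ψ) := by
  obtain ⟨C, hC, H⟩ := ins_anyC D hD
  have hm : 0 < min δ 1 := lt_min hδ one_pos
  refine ⟨C / (min δ 1) ^ 2, by positivity, ?_⟩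
  intro I _ _ sp ℓ v hv E Bd hE hBd Ψ hΨ
  exact H (min δ 1) hm (min_le_right _ _) sp ℓ v
    ((Metric.closedBall_subset_closedBall (min_le_left _ _)).trans hv) E Bd hE hBd Ψ hΨ

end Pool.Agent.Helper780_CP
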