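import Pool.Agent.Helper780_CP.LLDefs2
import Pool.Agent.Helper780_CP.InsAny
import Pool.Agent.Helper985.CP.M_slice_state
import Pool.Agent.Helper985.CP.M_slice_basic
import Pool.Agent.Helper985.CP.M_slice_energy
import Pool.Agent.Helper985.CP.M_relabel_state
import Pool.Agent.Helper985.CP.M_relabel_num
import Pool.Agent.Helper985.CP.M_stable_any

set_option autoImplicit false

open MeasureTheory

namespace Pool.Agent.Helper780_CP.RL2a

open Pool.Agent.Helper780_CP
open Pool.Agent.Helper985.CP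

open Pool.Agent.Helper985.CP

namespace RM

theorem locInt_inv1 : LocallyIntegrable (fun w : E3 => ‖w‖⁻¹) volume := by
  intro x
  refine ⟨Metric.ball 0 (‖x‖ + 1), Metric.isOpen_ball.mem_nhds (by simp), ?_⟩
  set R : ℝ := ‖x‖ + 1 with hR
  have hRpos : 0 < R := by positivity
  have key : Integrable (fun w : E3 => (Set.Iio R).indicator (fun r : ℝ => r⁻¹) ‖w‖) volume := by
    rw [integrable_fun_norm_addHaar (μ := (volume : Measure E3))
      (f := (Set.Iio R).indicator (fun r : ℝ => r⁻¹))]
    have hd : Module.finrank ℝ E3 - 1 = 2 := by simp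
    rw [hd]
    have h1 : IntegrableOn (fun y : ℝ => (Set.Iio R).indicator (fun r : ℝ => r) y)
        (Set.Ioi 0) := by
      rw [IntegrableOn, integrable_indicator_iff measurableSet_Iio, IntegrableOn,
        Measure.restrict_restrict measurableSet_Iio]
      have : Set.Iio R ∩ Set.Ioi 0 = Set.Ioo 0 R := by
        ext t; simp [and_comm]
      rw [this]
      exact (continuous_id.integrableOn_Icc (a := 0) (b := R)).mono_set Set.Ioo_subset_Icc_self
    refine h1.congr_fun ?_ measurableSet_Ioi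
    intro y hy
    have hy0 : (0 : ℝ) < y := hy
    by_cases hyR : y < R
    · simp only [Set.indicator, Set.mem_Iio, hyR, if_true, smul_eq_mul]
      field_simp
    · simp [Set.indicator, hyR]
  have h2 : Integrable ((Metric.ball (0 : E3) R).indicator (fun w : E3 => ‖w‖⁻¹)) volume := by
    refine key.congr (Filter.Eventually.of_forall fun w => ?_)
    by_cases hw : ‖w‖ < R
    · simp [Set.indicator, hw]
    · simp [Set.indicator, hw]
  exact (integrable_indicator_iff Metric.isOpen_ball.measurableSet).1 h2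

/-- the inverse square is locally integrable -/
theorem locInt_inv2 : LocallyIntegrable (fun w : E3 => ‖w‖⁻¹ ^ 2) volume := by
  intro x
  refine ⟨Metric.ball 0 (‖x‖ + 1), Metric.isOpen_ball.mem_nhds (by simp), ?_⟩
  set R : ℝ := ‖x‖ + 1 with hR
  have hRpos : 0 < R := by positivity
  have key : Integrable (fun w : E3 => (Set.Iio R).indicator (fun r : ℝ => r⁻¹ ^ 2) ‖w‖)
      volume := by
    rw [integrable_fun_norm_addHaar (μ := (volume : Measure E3))
      (f := (Set.Iio R).indicator (fun r : ℝ => r⁻¹ ^ 2))]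
    have hd : Module.finrank ℝ E3 - 1 = 2 := by simp
    rw [hd]
    have h1 : IntegrableOn (fun y : ℝ => (Set.Iio R).indicator (fun _ : ℝ => (1 : ℝ)) y)
        (Set.Ioi 0) := by
      rw [IntegrableOn, integrable_indicator_iff measurableSet_Iio, IntegrableOn,
        Measure.restrict_restrict measurableSet_Iio]
      have : Set.Iio R ∩ Set.Ioi 0 = Set.Ioo 0 R := by
        ext t; simp [and_comm]
      rw [this]
      exact (continuous_const.integrableOn_Icc (a := 0) (b := R)).mono_set Set.Ioo_subset_Icc_self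
    refine h1.congr_fun ?_ measurableSet_Ioi
    intro y hy
    have hy0 : (0 : ℝ) < y := hy
    by_cases hyR : y < R
    · simp only [Set.indicator, Set.mem_Iio, hyR, if_true, smul_eq_mul]
      field_simp
    · simp [Set.indicator, hyR]
  have h2 : Integrable ((Metric.ball (0 : E3) R).indicator (fun w : E3 => ‖w‖⁻¹ ^ 2)) volume := by
    refine key.congr (Filter.Eventually.of_forall fun w => ?_)
    by_cases hw : ‖w‖ < R
    · simp [Set.indicator, hw]
    · simp [Set.indicator, hw]
  exact (integrable_indicator_iff Metric.isOpen_ball.measurableSet).1 h2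

theorem locInt_shift {w : E3 → ℝ} (hw : LocallyIntegrable w volume) (y : E3) :
    LocallyIntegrable (fun z => w (z - y)) volume := by
  rw [locallyIntegrable_iff] at hw ⊢
  intro k hk
  have h1 : IsCompact ((fun z => z - y) '' k) := hk.image (by fun_prop)
  have h2 := (integrable_indicator_iff h1.measurableSet).2 (hw _ h1)
  have h3 := h2.comp_sub_right y
  refine (integrable_indicator_iff hk.measurableSet).1 ?_
  refine h3.mono ?_ ?_
  · have hs : AEStronglyMeasurable (fun z => ((fun z => z - y) '' k).indicator w (z - y))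
      volume := h3.aestronglyMeasurable
    refine (hs.indicator hk.measurableSet).congr (Filter.Eventually.of_forall fun z => ?_)
    by_cases hz : z ∈ k
    · simp only [Set.indicator_of_mem hz]
      rw [Set.indicator_of_mem (Set.mem_image_of_mem (fun z => z - y) hz)]
    · simp only [Set.indicator_of_notMem hz]
  · refine Filter.Eventually.of_forall fun z => ?_
    by_cases hz : z ∈ k
    · simp only [Set.indicator_of_mem hz]
      rw [Set.indicator_of_mem (Set.mem_image_of_mem (fun z => z - y) hz)]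
    · simp only [Set.indicator_of_notMem hz, norm_zero]
      exact norm_nonneg _

/-- one-particle functions against continuous compactly supported ones -/
theorem int_one {I : Type} [Fintype I] [DecidableEq I] (i : I) (w : E3 → ℝ)
    (hw : LocallyIntegrable w volume) (u : (I → E3) → ℝ) (hu : Continuous u)
    (huc : HasCompactSupport u) : Integrable (fun x => w (x i) * u x) := by
  obtain ⟨R, hR⟩ := (huc.isCompact.isBounded).subset_closedBall (0 : I → E3)
  obtain ⟨C, hC⟩ := huc.exists_bound_of_continuous hu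
  have hC0 : 0 ≤ C := (norm_nonneg _).trans (hC 0)
  let f : I → E3 → ℝ := fun j => if j = i then
    (Metric.closedBall (0 : E3) R).indicator w else
    (Metric.closedBall (0 : E3) R).indicator (fun _ => (1 : ℝ))
  have hf : ∀ j, Integrable (f j) volume := by
    intro j
    by_cases hj : j = i
    · simp only [f, if_pos hj]
      exact (integrable_indicator_iff Metric.isClosed_closedBall.measurableSet).2
        ((locallyIntegrable_iff.1 hw) _ (isCompact_closedBall 0 R))
    · simp only [f, if_neg hj]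
      refine (integrable_indicator_iff Metric.isClosed_closedBall.measurableSet).2 ?_
      exact integrableOn_const (by
        exact (measure_closedBall_lt_top (μ := (volume : Measure E3))).ne)
  have hprod : Integrable (fun x : I → E3 => ∏ j, f j (x j)) volume :=
    Integrable.fintype_prod (fun j => hf j)
  have hmeas : AEStronglyMeasurable (fun x : I → E3 => w (x i) * u x) volume := by
    have h1 : AEStronglyMeasurable (fun x : I → E3 => w (x i)) volume := by
      have := hw.aestronglyMeasurable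
      exact this.comp_quasiMeasurePreserving (Measure.quasiMeasurePreserving_eval _ i)
    exact h1.mul hu.aestronglyMeasurable
  refine (hprod.const_mul C).mono hmeas (Filter.Eventually.of_forall fun x => ?_)
  by_cases hx : x ∈ tsupport u
  · have hxb := hR hx
    rw [mem_closedBall_zero_iff] at hxb
    have hxj : ∀ j, x j ∈ Metric.closedBall (0 : E3) R := by
      intro j
      rw [mem_closedBall_zero_iff]
      exact (norm_le_pi_norm x j).trans hxb
    have hpr : ∏ j, f j (x j) = w (x i) := by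
      rw [Finset.prod_eq_single i]
      · simp only [f, if_true]
        rw [Set.indicator_of_mem (hxj i)]
      · intro j _ hj
        simp only [f, if_neg hj]
        rw [Set.indicator_of_mem (hxj j)]
      · intro h
        exact absurd (Finset.mem_univ i) h
    rw [hpr, norm_mul, norm_mul, mul_comm, Real.norm_of_nonneg hC0]
    exact mul_le_mul_of_nonneg_right (hC x) (norm_nonneg _)
  · have : u x = 0 := image_eq_zero_of_notMem_tsupport hx
    rw [this, mul_zero, norm_zero]
    exact norm_nonneg _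



section

variable {S : Type} (D : Species S) {I : Type} [Fintype I] [DecidableEq I] (sp : I → S)

/-- weights which are integrable against all states -/
def WI (ℓ : ℝ) (W : (I → E3) → ℝ) : Prop :=
  ∀ Ψ : Wave D I, IsState D sp ℓ Ψ → ∀ τ, Integrable (fun x => W x * ‖Ψ τ x‖ ^ 2)

theorem WI_add (ℓ : ℝ) {V W : (I → E3) → ℝ} (hV : WI D sp ℓ V) (hW : WI D sp ℓ W) :
    WI D sp ℓ (fun x => V x + W x) := by
  intro Ψ hΨ τ
  refine ((hV Ψ hΨ τ).add (hW Ψ hΨ τ)).congr (Filter.Eventually.of_forall fun x => ?_)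
  simp only [Pi.add_apply]
  ring

theorem WI_smul (ℓ : ℝ) {V : (I → E3) → ℝ} (hV : WI D sp ℓ V) (c : ℝ) :
    WI D sp ℓ (fun x => c * V x) := by
  intro Ψ hΨ τ
  refine ((hV Ψ hΨ τ).const_mul c).congr (Filter.Eventually.of_forall fun x => ?_)
  simp only
  ring

theorem WI_sum (ℓ : ℝ) {A : Type} (s : Finset A) (V : A → (I → E3) → ℝ)
    (hV : ∀ a ∈ s, WI D sp ℓ (V a)) : WI D sp ℓ (fun x => ∑ a ∈ s, V a x) := by
  intro Ψ hΨ τ
  refine (integrable_finsetSum s fun a ha => hV a ha Ψ hΨ τ).congr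
    (Filter.Eventually.of_forall fun x => ?_)
  simp only
  rw [Finset.sum_mul]

theorem WI_zero (ℓ : ℝ) : WI D sp ℓ (fun _ => 0) := by
  intro Ψ hΨ τ
  simp

theorem WI_const (ℓ : ℝ) (c : ℝ) : WI D sp ℓ (fun _ => c) := by
  intro Ψ hΨ τ
  exact (int_state D sp ℓ Ψ hΨ τ).1.const_mul c

theorem WI_coul (ℓ : ℝ) : WI D sp ℓ (coul D sp) := by
  intro Ψ hΨ τ
  exact (int_state D sp ℓ Ψ hΨ τ).2.2.1

theorem WI_one (ℓ : ℝ) (i : I) (w : E3 → ℝ) (hw : LocallyIntegrable w volume) :
    WI D sp ℓ (fun x => w (x i)) := by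
  intro Ψ hΨ τ
  have hcs := hΨ.compact τ
  have hsq : Continuous (fun x => ‖Ψ τ x‖ ^ 2) := ((hΨ.smooth τ).continuous.norm).pow 2
  have hsqc : HasCompactSupport (fun x => ‖Ψ τ x‖ ^ 2) :=
    hcs.comp_left (g := fun z : ℂ => ‖z‖ ^ 2) (by simp)
  exact int_one i w hw _ hsq hsqc

theorem WI_pair (ℓ : ℝ) (i : I) : WI D sp ℓ (fun x => ∑ j, if i = j then 0 else
    D.charge (sp i) * D.charge (sp j) / ‖x i - x j‖) := by
  apply WI_sum
  intro j _
  by_cases hij : i = j
  · simp only [if_pos hij]
    exact WI_zero D sp ℓ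
  · simp only [if_neg hij]
    intro Ψ hΨ τ
    exact (int_state D sp ℓ Ψ hΨ τ).2.2.2.1 i j hij

theorem WI_at (ℓ : ℝ) (v : E3) (i : I) (c : ℝ) : WI D sp ℓ (fun x => c / ‖x i - v‖) := by
  have h := locInt_shift locInt_inv1 v
  have h2 := WI_smul D sp ℓ (WI_one D sp ℓ i (fun z => ‖z - v‖⁻¹) h) c
  simpa only [div_eq_mul_inv] using h2

theorem WI_phi (ℓ : ℝ) (v : E3) : WI D sp ℓ (phi D sp v) := by
  unfold phi
  apply WI_sum
  intro i _
  have := WI_at D sp ℓ v i (D.charge (sp i))
  simpa only [mul_one_div] using this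

theorem WI_phi' (ℓ : ℝ) (v : E3) (k : I) : WI D sp ℓ (fun x => ∑ j, if k = j then 0 else
    D.charge (sp j) / ‖x j - v‖) := by
  apply WI_sum
  intro j _
  by_cases hij : k = j
  · simp only [if_pos hij]
    exact WI_zero D sp ℓ
  · simp only [if_neg hij]
    exact WI_at D sp ℓ v j _

omit [DecidableEq I] in
theorem near2_nonneg (y : E3) (x : I → E3) : 0 ≤ near2 y x :=
  Real.iSup_nonneg fun i => by positivity

omit [DecidableEq I] in
theorem le_near2 (y : E3) (x : I → E3) (i : I) : ‖x i - y‖⁻¹ ^ 2 ≤ near2 y x :=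
  le_ciSup (f := fun i => ‖x i - y‖⁻¹ ^ 2) (Set.finite_range _).bddAbove i

omit [DecidableEq I] in
theorem near2_le (y : E3) (x : I → E3) : near2 y x ≤ ∑ i, ‖x i - y‖⁻¹ ^ 2 := by
  rcases isEmpty_or_nonempty I with h | h
  · unfold near2
    rw [Real.iSup_of_isEmpty]
    simp
  · refine ciSup_le fun i => ?_
    exact Finset.single_le_sum (f := fun i => ‖x i - y‖⁻¹ ^ 2) (fun j _ => by positivity)
      (Finset.mem_univ i)

omit [DecidableEq I] in
theorem near2_meas (y : E3) : Measurable (near2 (I := I) y) := by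
  unfold near2
  exact Measurable.iSup fun i => by fun_prop

/-- integrability from a pointwise bound -/
theorem WI_mono (ℓ : ℝ) {V W : (I → E3) → ℝ} (hV : WI D sp ℓ V) (hm : Measurable W)
    (h0 : ∀ x, 0 ≤ W x) (hle : ∀ x, W x ≤ V x) : WI D sp ℓ W := by
  intro Ψ hΨ τ
  refine (hV Ψ hΨ τ).mono ?_ (Filter.Eventually.of_forall fun x => ?_)
  · exact hm.aestronglyMeasurable.mul
      (((hΨ.smooth τ).continuous.norm).pow 2).aestronglyMeasurable
  · rw [Real.norm_of_nonneg (mul_nonneg (h0 x) (sq_nonneg _)),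
      Real.norm_of_nonneg (mul_nonneg ((h0 x).trans (hle x)) (sq_nonneg _))]
    exact mul_le_mul_of_nonneg_right (hle x) (sq_nonneg _)

theorem WI_near2 (ℓ : ℝ) (y : E3) : WI D sp ℓ (near2 y) := by
  have h1 : WI D sp ℓ (fun x : I → E3 => ∑ i, ‖x i - y‖⁻¹ ^ 2) := by
    apply WI_sum
    intro i _
    exact WI_one D sp ℓ i (fun z => ‖z - y‖⁻¹ ^ 2) (locInt_shift locInt_inv2 y)
  exact WI_mono D sp ℓ h1 (near2_meas y) (near2_nonneg y) (near2_le y)

omit [DecidableEq I] in
/-- multiplication with the bounded continuous weight -/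
theorem bmul (W : E3 → ℝ) (hW : Continuous W) (h0 : ∀ z, 0 ≤ W z) (M : ℝ) (hM : ∀ z, W z ≤ M)
    (i : I) {f : (I → E3) → ℝ} (hf : Integrable f) : Integrable (fun x => W (x i) * f x) := by
  refine hf.bdd_mul (c := M) ?_ (Filter.Eventually.of_forall fun x => ?_)
  · exact (hW.comp (continuous_apply i)).aestronglyMeasurable
  · rw [Real.norm_of_nonneg (h0 _)]
    exact hM _

/-- the potential part of the removal functional -/
noncomputable def Up (v : E3) (k : I) (x : I → E3) : ℝ :=
  coul D sp x - (∑ j, if k = j then 0 else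
      D.charge (sp k) * D.charge (sp j) / ‖x k - x j‖) +
    D.charge (sp k) * ∑ j, if k = j then 0 else D.charge (sp j) / ‖x j - v‖

/-- the kinetic part of the removal functional -/
noncomputable def Kp (k : I) (u : (I → E3) → ℂ) (x : I → E3) : ℝ :=
  ∑ j, if k = j then 0 else kin D sp j u x

theorem WI_Up (ℓ : ℝ) (v : E3) (k : I) : WI D sp ℓ (Up D sp v k) := by
  have h := WI_add D sp ℓ (WI_add D sp ℓ (WI_coul D sp ℓ) (WI_smul D sp ℓ (WI_pair D sp ℓ k) (-1)))
    (WI_smul D sp ℓ (WI_phi' D sp ℓ v k) (D.charge (sp k)))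
  intro Ψ hΨ τ
  refine (h Ψ hΨ τ).congr (Filter.Eventually.of_forall fun x => ?_)
  simp only [Up]
  ring

theorem int_Kp (ℓ : ℝ) (k : I) (Ψ : Wave D I) (hΨ : IsState D sp ℓ Ψ) (τ : I → Fin D.g) :
    Integrable (Kp D sp k (Ψ τ)) := by
  unfold Kp
  refine integrable_finsetSum _ fun j _ => ?_
  by_cases h : k = j
  · simp only [if_pos h]
    exact integrable_zero _ _ _
  · simp only [if_neg h]
    exact (int_state D sp ℓ Ψ hΨ τ).2.1 j

/-- the removal functional -/
noncomputable def RF (v : E3) (W : E3 → ℝ) (C : ℝ) (k : I) (Ψ : Wave D I) : ℝ :=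
  ∑ τ, ∫ x, (W (x k) * Kp D sp k (Ψ τ) x + W (x k) * (Up D sp v k x * ‖Ψ τ x‖ ^ 2) +
    C * (W (x k) * ((1 + near2 v x) * ‖Ψ τ x‖ ^ 2)))

end


section

variable {S : Type} (D : Species S) {I : Type} [Fintype I] [DecidableEq I] (sp : Option I → S)

/-- the energy density of the other particles -/
noncomputable def Gd (T : Option I → Fin D.g) (Φ : Wave D (Option I)) (X : Option I → E3) : ℝ :=
  (∑ i : I, kin D sp (some i) (Φ T) X) +
      coul D (fun i => sp (some i)) (fun i => X (some i)) * ‖Φ T X‖ ^ 2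

theorem coul_split (X : Option I → E3) :
    coul D sp X = coul D (fun i => sp (some i)) (fun i => X (some i)) +
        (∑ j, if none = j then 0 else D.charge (sp none) * D.charge (sp j) / ‖X none - X j‖) := by
  unfold coul
  simp only [Fintype.sum_option, Option.some_inj, if_true, reduceCtorEq, if_false, zero_add]
  rw [Finset.sum_add_distrib]
  have e2 : ∑ x : I, D.charge (sp (some x)) * D.charge (sp none) / ‖X (some x) - X none‖ =
      ∑ x : I, D.charge (sp none) * D.charge (sp (some x)) / ‖X none - X (some x)‖ := by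
    refine Finset.sum_congr rfl fun i _ => ?_
    rw [norm_sub_rev, mul_comm (D.charge (sp (some i)))]
  rw [e2]
  ring

theorem WI_coul_rest (ℓ : ℝ) :
    WI D sp ℓ (fun X => coul D (fun i => sp (some i)) (fun i => X (some i))) := by
  have h := WI_add D sp ℓ (WI_coul D sp ℓ) (WI_smul D sp ℓ (WI_pair D sp ℓ none) (-1))
  intro Ψ hΨ τ
  refine (h Ψ hΨ τ).congr (Filter.Eventually.of_forall fun x => ?_)
  simp only
  rw [coul_split D sp x]
  ring

theorem WI_phi_rest (ℓ : ℝ) (v : E3) :
    WI D sp ℓ (fun X => phi D (fun i => sp (some i)) v (fun i => X (some i))) := by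
  unfold phi
  apply WI_sum
  intro i _
  have := WI_at D sp ℓ v (some i) (D.charge (sp (some i)))
  simpa only [mul_one_div] using this

theorem WI_near2_rest (ℓ : ℝ) (v : E3) :
    WI D sp ℓ (fun X => near2 v (fun i : I => X (some i))) := by
  have h1 : WI D sp ℓ (fun x : Option I → E3 => ∑ i : I, ‖x (some i) - v‖⁻¹ ^ 2) := by
    apply WI_sum
    intro i _
    exact WI_one D sp ℓ (some i) (fun z => ‖z - v‖⁻¹ ^ 2) (locInt_shift locInt_inv2 v)
  refine WI_mono D sp ℓ h1 ?_ (fun X => near2_nonneg v _) (fun X => near2_le v _)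
  have hm : Measurable (fun X : Option I → E3 => (fun i : I => X (some i))) := by fun_prop
  exact (near2_meas v).comp hm

omit [DecidableEq I] in
theorem near2_rest_le (v : E3) (X : Option I → E3) :
    near2 v (fun i : I => X (some i)) ≤ near2 v X := by
  rcases isEmpty_or_nonempty I with h | h
  · have : near2 v (fun i : I => X (some i)) = 0 := by
      unfold near2
      rw [Real.iSup_of_isEmpty]
    rw [this]
    exact near2_nonneg v X
  · unfold near2
    exact ciSup_le fun i => le_near2 v X (some i)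

theorem int_Gd (ℓ : ℝ) (Φ : Wave D (Option I)) (hΦ : IsState D sp ℓ Φ) (T : Option I → Fin D.g) :
    Integrable (Gd D sp T Φ) := by
  unfold Gd
  exact (integrable_finsetSum _ fun i _ => (int_state D sp ℓ Φ hΦ T).2.1 (some i)).add
    (WI_coul_rest D sp ℓ Φ hΦ T)

/-- the energy of a slice -/
theorem energy_slice (ℓ : ℝ) (Φ : Wave D (Option I)) (hΦ : IsState D sp ℓ Φ) (σ : Fin D.g)
    (z : E3) : energy D (fun i => sp (some i)) (slice D σ z Φ) =
      ∑ τ : I → Fin D.g, ∫ x : I → E3, Gd D sp (fun o => o.elim σ τ) Φ (fun o => o.elim z x) := by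
  unfold energy
  refine Finset.sum_congr rfl fun τ _ => ?_
  congr 1
  funext x
  unfold Gd
  congr 1
  refine Finset.sum_congr rfl fun i _ => ?_
  unfold kin
  congr 1
  refine Finset.sum_congr rfl fun k _ => ?_
  have hdiff : Differentiable ℝ (Φ (fun o => o.elim σ τ)) :=
    (hΦ.smooth _).differentiable (by simp)
  have := slice_energy_fderiv (Φ (fun o => o.elim σ τ)) hdiff z x i
    (EuclideanSpace.single k (1 : ℝ))
  rw [show (fun o : Option I => o.elim z x) = slice_energy_ins z x from rfl, ← this]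
  rfl

theorem int_comb {X : Type*} [MeasurableSpace X] {μ : Measure X} {g1 g2 g3 g4 : X → ℝ}
    (h1 : Integrable g1 μ) (h2 : Integrable g2 μ) (h3 : Integrable g3 μ) (h4 : Integrable g4 μ)
    (c C E : ℝ) : ∫ x, (g1 x + c * g2 x + C * (g3 x + g4 x) - E * g3 x) ∂μ =
      (∫ x, g1 x ∂μ) + c * (∫ x, g2 x ∂μ) + C * ((∫ x, g3 x ∂μ) + ∫ x, g4 x ∂μ) -
        E * ∫ x, g3 x ∂μ := by
  have a1 := integral_const_mul (μ := μ) c g2
  have a2 := integral_const_mul (μ := μ) E g3
  have a3 := integral_const_mul (μ := μ) C (fun x => g3 x + g4 x)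
  have a4 : ∫ x, (g3 x + g4 x) ∂μ = (∫ x, g3 x ∂μ) + ∫ x, g4 x ∂μ := integral_add h3 h4
  have b2 : Integrable (fun x => c * g2 x) μ := h2.const_mul c
  have b3 : Integrable (fun x => C * (g3 x + g4 x)) μ := (h3.add h4).const_mul C
  have b4 : Integrable (fun x => E * g3 x) μ := h3.const_mul E
  have b5 : Integrable (fun x => g1 x + c * g2 x) μ := h1.add b2
  have b6 : Integrable (fun x => g1 x + c * g2 x + C * (g3 x + g4 x)) μ := b5.add b3
  rw [integral_sub b6 b4, integral_add b5 b3, integral_add h1 b2, a1, a2, a3, a4]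

theorem main_none (ℓ : ℝ) (v : E3) (E C : ℝ) (hC : 0 ≤ C)
    (hins : ∀ Ψ, IsState D (fun i => sp (some i)) ℓ Ψ →
        E * nrm2 D Ψ ≤ energy D (fun i => sp (some i)) Ψ +
          D.charge (sp none) * wm D (phi D (fun i => sp (some i)) v) Ψ +
          C * (nrm2 D Ψ + wm D (near2 v) Ψ))
    (W : E3 → ℝ) (hW : Continuous W) (h0 : ∀ z, 0 ≤ W z) (M : ℝ) (hM : ∀ z, W z ≤ M)
    (Φ : Wave D (Option I)) (hΦ : IsState D sp ℓ Φ) :
    E * wm D (fun X => W (X none)) Φ ≤ RF D sp v W C none Φ := by
  -- the density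
  set c : ℝ := D.charge (sp none) with hc
  set H : (Option I → Fin D.g) → (Option I → E3) → ℝ := fun T X =>
    W (X none) * (Gd D sp T Φ X +
      c * (phi D (fun i => sp (some i)) v (fun i => X (some i)) * ‖Φ T X‖ ^ 2) +
      C * (‖Φ T X‖ ^ 2 + near2 v (fun i : I => X (some i)) * ‖Φ T X‖ ^ 2) - E * ‖Φ T X‖ ^ 2)
    with hH
  have iG := int_Gd D sp ℓ Φ hΦ
  have iP := WI_phi_rest D sp ℓ v Φ hΦ
  have iN := WI_near2_rest D sp ℓ v Φ hΦ
  have i0 := fun T => (int_state D sp ℓ Φ hΦ T).1
  have iH : ∀ T, Integrable (H T) := by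
    intro T
    rw [hH]
    refine bmul W hW h0 M hM none (f := fun X => Gd D sp T Φ X +
      c * (phi D (fun i => sp (some i)) v (fun i => X (some i)) * ‖Φ T X‖ ^ 2) +
      C * (‖Φ T X‖ ^ 2 + near2 v (fun i : I => X (some i)) * ‖Φ T X‖ ^ 2) - E * ‖Φ T X‖ ^ 2) ?_
    exact (((iG T).add ((iP T).const_mul c)).add (((i0 T).add (iN T)).const_mul C)).sub
      ((i0 T).const_mul E)
  obtain ⟨-, hsum⟩ := sb_sum H iH
  have hpos : 0 ≤ ∑ T, ∫ X, H T X := by
    rw [← hsum]
    refine Finset.sum_nonneg fun σ _ => integral_nonneg fun z => ?_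
    have hst := slice_state D sp ℓ Φ hΦ σ z
    set Ψ := slice D σ z Φ with hΨ
    have j0 := fun τ => (int_state D (fun i => sp (some i)) ℓ Ψ hst τ).1
    have jP := WI_phi D (fun i => sp (some i)) ℓ v Ψ hst
    have jN := WI_near2 D (fun i => sp (some i)) ℓ v Ψ hst
    have jk := fun τ => (int_state D (fun i => sp (some i)) ℓ Ψ hst τ).2.1
    have jc := WI_coul D (fun i => sp (some i)) ℓ Ψ hst
    have hdiff : ∀ T, Differentiable ℝ (Φ T) := fun T =>
      (hΦ.smooth _).differentiable (by simp)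
    have hGeq : ∀ (τ : I → Fin D.g) (x : I → E3),
        Gd D sp (fun o => o.elim σ τ) Φ (fun o => o.elim z x) =
        (∑ i, kin D (fun i => sp (some i)) i (Ψ τ) x) +
          coul D (fun i => sp (some i)) x * ‖Ψ τ x‖ ^ 2 := by
      intro τ x
      unfold Gd
      congr 1
      refine Finset.sum_congr rfl fun i _ => ?_
      unfold kin
      congr 1
      refine Finset.sum_congr rfl fun k _ => ?_
      have := slice_energy_fderiv (Φ (fun o => o.elim σ τ)) (hdiff _) z x i
        (EuclideanSpace.single k (1 : ℝ))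
      rw [show (fun o : Option I => o.elim z x) = slice_energy_ins z x from rfl, ← this]
      rfl
    have hτ : ∀ τ : I → Fin D.g, ∫ x : I → E3, H (fun o => o.elim σ τ) (fun o => o.elim z x) =
        W z * ((∫ x, ((∑ i, kin D (fun i => sp (some i)) i (Ψ τ) x) +
          coul D (fun i => sp (some i)) x * ‖Ψ τ x‖ ^ 2)) +
          c * (∫ x, phi D (fun i => sp (some i)) v x * ‖Ψ τ x‖ ^ 2) +
          C * ((∫ x, ‖Ψ τ x‖ ^ 2) + ∫ x, near2 v x * ‖Ψ τ x‖ ^ 2) -
          E * ∫ x, ‖Ψ τ x‖ ^ 2) := by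
      intro τ
      have jG : Integrable (fun x => (∑ i, kin D (fun i => sp (some i)) i (Ψ τ) x) +
          coul D (fun i => sp (some i)) x * ‖Ψ τ x‖ ^ 2) :=
        (integrable_finsetSum _ fun i _ => jk τ i).add (jc τ)
      rw [← int_comb jG (jP τ) (j0 τ) (jN τ) c C E, ← integral_const_mul]
      refine integral_congr_ae (Filter.Eventually.of_forall fun x => ?_)
      simp only [hH]
      rw [hGeq]
      rfl
    simp only [hτ]
    show 0 ≤ ∑ τ : I → Fin D.g, _
    rw [← Finset.mul_sum]
    refine mul_nonneg (h0 z) ?_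
    rw [Finset.sum_sub_distrib, Finset.sum_add_distrib, Finset.sum_add_distrib, ← Finset.mul_sum,
      ← Finset.mul_sum, ← Finset.mul_sum, Finset.sum_add_distrib]
    have := hins Ψ hst
    unfold energy nrm2 wm at this
    linarith
  -- comparison
  have key : (∑ T, ∫ X, H T X) ≤ RF D sp v W C none Φ - E * wm D (fun X => W (X none)) Φ := by
    unfold RF wm
    rw [Finset.mul_sum, ← Finset.sum_sub_distrib]
    refine Finset.sum_le_sum fun T _ => ?_
    have k1 : Integrable (fun X : Option I → E3 => W (X none) * Kp D sp none (Φ T) X) :=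
      bmul W hW h0 M hM none (int_Kp D sp ℓ none Φ hΦ T)
    have k2 : Integrable (fun X : Option I → E3 => W (X none) * (Up D sp v none X * ‖Φ T X‖ ^ 2)) :=
      bmul W hW h0 M hM none (WI_Up D sp ℓ v none Φ hΦ T)
    have k3 : Integrable (fun X : Option I → E3 =>
        C * (W (X none) * ((1 + near2 v X) * ‖Φ T X‖ ^ 2))) :=
      (bmul W hW h0 M hM none
        (WI_add D sp ℓ (WI_const D sp ℓ 1) (WI_near2 D sp ℓ v) Φ hΦ T)).const_mul C
    have k4 : Integrable (fun X : Option I → E3 => E * (W (X none) * ‖Φ T X‖ ^ 2)) :=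
      (bmul W hW h0 M hM none (i0 T)).const_mul E
    have k123 : Integrable (fun X : Option I → E3 => W (X none) * Kp D sp none (Φ T) X +
        W (X none) * (Up D sp v none X * ‖Φ T X‖ ^ 2) +
        C * (W (X none) * ((1 + near2 v X) * ‖Φ T X‖ ^ 2))) := (k1.add k2).add k3
    rw [← integral_const_mul]
    have hsub := integral_sub k123 k4
    refine le_trans ?_ (le_of_eq hsub)
    refine integral_mono (iH T) (k123.sub k4) fun X => ?_
    simp only [hH]
    have hKp : Kp D sp none (Φ T) X = ∑ i : I, kin D sp (some i) (Φ T) X := by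
      unfold Kp
      rw [Fintype.sum_option, if_pos rfl, zero_add]
      refine Finset.sum_congr rfl fun j _ => ?_
      rw [if_neg (by simp)]
    have hUp : Up D sp v none X = coul D (fun i => sp (some i)) (fun i => X (some i)) +
        c * phi D (fun i => sp (some i)) v (fun i => X (some i)) := by
      unfold Up phi
      rw [coul_split D sp X, Fintype.sum_option (f := fun j => if none = j then 0 else
        D.charge (sp j) / ‖X j - v‖), if_pos rfl, zero_add]
      have : ∀ i : I, (if none = some i then 0 else D.charge (sp (some i)) / ‖X (some i) - v‖) =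
          D.charge (sp (some i)) * (1 / ‖X (some i) - v‖) := by
        intro i
        rw [if_neg (by simp), mul_one_div]
      simp only [this]
      ring
    have hn := near2_rest_le v X
    have hsq : 0 ≤ ‖Φ T X‖ ^ 2 := sq_nonneg _
    have hlast : C * (W (X none) * (near2 v (fun i : I => X (some i)) * ‖Φ T X‖ ^ 2)) ≤
        C * (W (X none) * (near2 v X * ‖Φ T X‖ ^ 2)) :=
      mul_le_mul_of_nonneg_left (mul_le_mul_of_nonneg_left
        (mul_le_mul_of_nonneg_right hn hsq) (h0 _)) hC
    rw [hKp, hUp]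
    unfold Gd
    nlinarith [hlast]
  linarith

end


section

variable {S : Type} (D : Species S) {I J : Type} [Fintype I] [DecidableEq I]
  [Fintype J] [DecidableEq J]

omit [Fintype I] [DecidableEq I] [Fintype J] [DecidableEq J] in
theorem near2_relab (e : I ≃ J) (v : E3) (x : J → E3) :
    near2 v x = near2 v (fun i => x (e i)) := by
  unfold near2
  exact (e.iSup_comp (g := fun j => ‖x j - v‖⁻¹ ^ 2)).symm

theorem Kp_relab (e : I ≃ J) (sp : I → S) (sp' : J → S) (h : ∀ i, sp' (e i) = sp i) (i : I)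
    (u : (I → E3) → ℂ) (x : J → E3) :
    Kp D sp' (e i) (fun y : J → E3 => u (fun k => y (e k))) x =
      Kp D sp i u (fun k => x (e k)) := by
  unfold Kp
  rw [← Equiv.sum_comp e]
  refine Finset.sum_congr rfl fun j _ => ?_
  by_cases hij : i = j
  · rw [if_pos hij, if_pos (congrArg e hij)]
  · rw [if_neg hij, if_neg (fun hh => hij (e.injective hh))]
    exact relaux_kin D e sp sp' h j u x

theorem Up_relab (e : I ≃ J) (sp : I → S) (sp' : J → S) (h : ∀ i, sp' (e i) = sp i) (i : I)
    (v : E3) (x : J → E3) :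
    Up D sp' v (e i) x = Up D sp v i (fun k => x (e k)) := by
  unfold Up
  have h3 : (∑ j, if e i = j then 0 else D.charge (sp' j) / ‖x j - v‖) =
      ∑ j, if i = j then 0 else D.charge (sp j) / ‖x (e j) - v‖ := by
    rw [← Equiv.sum_comp e]
    refine Finset.sum_congr rfl fun j _ => ?_
    by_cases hij : i = j
    · rw [if_pos hij, if_pos (congrArg e hij)]
    · rw [if_neg hij, if_neg (fun hh => hij (e.injective hh)), h j]
  rw [relaux_coul D e sp sp' h x, relaux_inter D e sp sp' h i x, h3, h i]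

theorem RF_relab (e : I ≃ J) (sp : I → S) (sp' : J → S) (h : ∀ i, sp' (e i) = sp i) (i : I)
    (v : E3) (W : E3 → ℝ) (C : ℝ) (Ψ : Wave D I) :
    RF D sp' v W C (e i) (relab D e Ψ) = RF D sp v W C i Ψ := by
  unfold RF
  rw [← relaux_sum e]
  refine Finset.sum_congr rfl fun τ _ => ?_
  rw [← relaux_int e]
  congr 1
  funext x
  have h1 : Kp D sp' (e i) (relab D e Ψ τ) x =
      Kp D sp i (Ψ (fun i => τ (e i))) (fun k => x (e k)) :=
    Kp_relab D e sp sp' h i (Ψ (fun i => τ (e i))) x
  rw [h1, Up_relab D e sp sp' h i v x, near2_relab e v x]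
  rfl

theorem wm_relab (e : I ≃ J) (i : I) (W : E3 → ℝ) (Ψ : Wave D I) :
    wm D (fun X : J → E3 => W (X (e i))) (relab D e Ψ) = wm D (fun x => W (x i)) Ψ := by
  unfold wm
  rw [← relaux_sum e]
  refine Finset.sum_congr rfl fun τ _ => ?_
  rw [← relaux_int e]
  rfl

end

section

variable {S : Type} (D : Species S) {I : Type} [Fintype I] [DecidableEq I] (sp : I → S)

theorem sum_RF (ℓ : ℝ) (v : E3) (W : E3 → ℝ) (hW : Continuous W) (h0 : ∀ z, 0 ≤ W z) (M : ℝ)
    (hM : ∀ z, W z ≤ M) (C : ℝ) (Ψ : Wave D I) (hΨ : IsState D sp ℓ Ψ) :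
    ∑ i, RF D sp v W C i Ψ =
      (∑ τ, ∫ x, ∑ j, ((∑ i, W (x i)) - W (x j)) * kin D sp j (Ψ τ) x) +
          wm D (fun x => (∑ i, W (x i)) * coul D sp x -
            (∑ i, W (x i) * ∑ j, if i = j then 0 else
              D.charge (sp i) * D.charge (sp j) / ‖x i - x j‖) +
            ∑ i, W (x i) * (D.charge (sp i) * ∑ j, if i = j then 0 else
              D.charge (sp j) / ‖x j - v‖)) Ψ +
          C * wm D (fun x => (∑ i, W (x i)) * (1 + near2 v x)) Ψ := by
  unfold RF wm
  rw [Finset.sum_comm, Finset.mul_sum, ← Finset.sum_add_distrib, ← Finset.sum_add_distrib]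
  refine Finset.sum_congr rfl fun τ _ => ?_
  have k1 : ∀ i, Integrable (fun x : I → E3 => W (x i) * Kp D sp i (Ψ τ) x) := fun i =>
    bmul W hW h0 M hM i (int_Kp D sp ℓ i Ψ hΨ τ)
  have k2 : ∀ i, Integrable (fun x : I → E3 => W (x i) * (Up D sp v i x * ‖Ψ τ x‖ ^ 2)) := fun i =>
    bmul W hW h0 M hM i (WI_Up D sp ℓ v i Ψ hΨ τ)
  have k3 : ∀ i, Integrable (fun x : I → E3 =>
      C * (W (x i) * ((1 + near2 v x) * ‖Ψ τ x‖ ^ 2))) := fun i =>
    (bmul W hW h0 M hM i
      (WI_add D sp ℓ (WI_const D sp ℓ 1) (WI_near2 D sp ℓ v) Ψ hΨ τ)).const_mul C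
  have e1 : ∀ i, ∫ x : I → E3, (W (x i) * Kp D sp i (Ψ τ) x +
      W (x i) * (Up D sp v i x * ‖Ψ τ x‖ ^ 2) + C * (W (x i) * ((1 + near2 v x) * ‖Ψ τ x‖ ^ 2))) =
      (∫ x : I → E3, W (x i) * Kp D sp i (Ψ τ) x) +
      (∫ x : I → E3, W (x i) * (Up D sp v i x * ‖Ψ τ x‖ ^ 2)) +
      ∫ x : I → E3, C * (W (x i) * ((1 + near2 v x) * ‖Ψ τ x‖ ^ 2)) := by
    intro i
    have k12 : Integrable (fun x : I → E3 => W (x i) * Kp D sp i (Ψ τ) x +
      W (x i) * (Up D sp v i x * ‖Ψ τ x‖ ^ 2)) := (k1 i).add (k2 i)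
    rw [integral_add k12 (k3 i), integral_add (k1 i) (k2 i)]
  simp only [e1]
  rw [Finset.sum_add_distrib, Finset.sum_add_distrib, ← integral_finsetSum _ fun i _ => k1 i,
    ← integral_finsetSum _ fun i _ => k2 i, ← integral_finsetSum _ fun i _ => k3 i,
    ← integral_const_mul]
  congr 1
  · congr 1
    · refine integral_congr_ae (Filter.Eventually.of_forall fun x => ?_)
      simp only
      have hK : ∀ i, Kp D sp i (Ψ τ) x = (∑ j, kin D sp j (Ψ τ) x) - kin D sp i (Ψ τ) x := by
        intro i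
        unfold Kp
        rw [← Finset.add_sum_erase _ _ (Finset.mem_univ i),
          ← Finset.add_sum_erase _ (fun j => kin D sp j (Ψ τ) x) (Finset.mem_univ i), if_pos rfl]
        have : ∑ j ∈ Finset.univ.erase i, (if i = j then 0 else kin D sp j (Ψ τ) x) =
            ∑ j ∈ Finset.univ.erase i, kin D sp j (Ψ τ) x := by
          refine Finset.sum_congr rfl fun j hj => ?_
          rw [if_neg (Finset.ne_of_mem_erase hj).symm]
        rw [this]
        ring
      simp only [hK, mul_sub, sub_mul, Finset.sum_sub_distrib]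
      rw [← Finset.sum_mul, ← Finset.mul_sum]
    · refine integral_congr_ae (Filter.Eventually.of_forall fun x => ?_)
      simp only
      rw [Finset.sum_mul, ← Finset.sum_sub_distrib, ← Finset.sum_add_distrib, Finset.sum_mul]
      refine Finset.sum_congr rfl fun i _ => ?_
      unfold Up
      ring
  · refine integral_congr_ae (Filter.Eventually.of_forall fun x => ?_)
    simp only
    rw [Finset.sum_mul, Finset.sum_mul, Finset.mul_sum]
    refine Finset.sum_congr rfl fun i _ => ?_
    ring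

end

end RM

open RM

/-- TARGET -/
theorem removal {S : Type} [Fintype S] [DecidableEq S] (D : Species S) (hD : D.Valid)
    (hst : HStable D) (δ : ℝ) (hδ : 0 < δ) :
    ∃ C : ℝ, 0 < C ∧ ∀ {I : Type} [Fintype I] [DecidableEq I] (sp : I → S) (ℓ : ℝ), 0 < ℓ →
      ∀ (v : E3), Metric.closedBall v δ ⊆ cube ℓ → ∀ E : ℝ,
      (∀ Φ, IsState D sp ℓ Φ → E * nrm2 D Φ ≤ energy D sp Φ) →
      ∀ (W : E3 → ℝ), Continuous W → (∀ z, 0 ≤ W z) → (∃ M, ∀ z, W z ≤ M) →
      ∀ Ψ, IsState D sp ℓ Ψ →
        E * wm D (fun x => ∑ i, W (x i)) Ψ ≤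
          (∑ τ, ∫ x, ∑ j, ((∑ i, W (x i)) - W (x j)) * kin D sp j (Ψ τ) x) +
          wm D (fun x => (∑ i, W (x i)) * coul D sp x -
            (∑ i, W (x i) * ∑ j, if i = j then 0 else
              D.charge (sp i) * D.charge (sp j) / ‖x i - x j‖) +
            ∑ i, W (x i) * (D.charge (sp i) * ∑ j, if i = j then 0 else
              D.charge (sp j) / ‖x j - v‖)) Ψ +
          C * wm D (fun x => (∑ i, W (x i)) * (1 + near2 v x)) Ψ := by
  obtain ⟨A, hA⟩ := hst
  obtain ⟨C, hC, hins⟩ := ins_any D hD δ hδ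
  refine ⟨C, hC, ?_⟩
  intro I _ _ sp ℓ hℓ v hv E hE W hW h0 hMM Ψ hΨ
  obtain ⟨M, hM⟩ := hMM
  rw [← sum_RF D sp ℓ v W hW h0 M hM C Ψ hΨ]
  have hone : ∀ i, E * wm D (fun x => W (x i)) Ψ ≤ RF D sp v W C i Ψ := by
    intro i
    let e : I ≃ Option {j // j ≠ i} := (Equiv.optionSubtypeNe i).symm
    have hei : e i = none := by
      simp [e]
    let sp' : Option {j // j ≠ i} → S := fun o => sp (e.symm o)
    have h : ∀ j, sp' (e j) = sp j := fun j => by simp [sp']
    have h' : ∀ o, sp (e.symm o) = sp' o := fun o => rfl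
    have hst := relabel_state D e sp sp' h ℓ Ψ hΨ
    have hE' : ∀ Φ, IsState D sp' ℓ Φ → E * nrm2 D Φ ≤ energy D sp' Φ := by
      intro Φ hΦ
      have h1 := hE (relab D e.symm Φ) (relabel_state D e.symm sp' sp h' ℓ Φ hΦ)
      obtain ⟨r1, r2, -, -⟩ := relabel_num D e.symm sp' sp h' Φ
      rw [r1, r2] at h1
      exact h1
    have key := main_none D sp' ℓ v E C hC.le
      (hins sp' ℓ v hv E (-A * (Fintype.card {j // j ≠ i} : ℝ)) hE'
        (fun Φ hΦ => stable_any D A hA (fun i => sp' (some i)) ℓ hℓ Φ hΦ))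
      W hW h0 M hM (relab D e Ψ) hst
    rw [← hei, RF_relab D e sp sp' h i v W C Ψ, wm_relab D e i W Ψ] at key
    exact key
  have hsum : E * wm D (fun x => ∑ i, W (x i)) Ψ = ∑ i, E * wm D (fun x => W (x i)) Ψ := by
    rw [← Finset.mul_sum]
    congr 1
    unfold wm
    rw [Finset.sum_comm]
    refine Finset.sum_congr rfl fun τ _ => ?_
    rw [← integral_finsetSum _ fun i _ =>
      bmul W hW h0 M hM i (int_state D sp ℓ Ψ hΨ τ).1]
    refine integral_congr_ae (Filter.Eventually.of_forall fun x => ?_)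
    simp only
    rw [Finset.sum_mul]
  rw [hsum]
  exact Finset.sum_le_sum fun i _ => hone i

end Pool.Agent.Helper780_CP.RL2a
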