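import Pool.Agent.Helper780_CP.LLDefs2
import Pool.Agent.Helper780_CP.BnDefs
import Pool.Agent.Helper780_CP.RVB
import Pool.Agent.Helper985.CP.M_int_coul
import Pool.Agent.Helper780_CP.RL1
import Pool.Agent.Helper780_CP.RL2a

set_option autoImplicit false

open MeasureTheory
open scoped Topology

namespace Pool.Agent.Helper780_CP.RB12

open Pool.Agent.Helper780_CP
open Pool.Agent.Helper985.CP

open Pool.Agent.Helper780_CP Pool.Agent.Helper985.CP

theorem ct_nn (w : E3) : 0 ≤ ct w := Real.smoothTransition.nonneg _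

theorem ct_le1 (w : E3) : ct w ≤ 1 := Real.smoothTransition.le_one _

theorem ct_cont : Continuous ct := by
  unfold ct
  exact Real.smoothTransition.continuous.comp (by fun_prop)

theorem ct_zero (w : E3) (hw : 2 ≤ ‖w‖) : ct w = 0 := by
  unfold ct
  apply Real.smoothTransition.zero_of_nonpos
  nlinarith [norm_nonneg w]

theorem ct_one (w : E3) (hw : ‖w‖ ≤ 1) : ct w = 1 := by
  unfold ct
  apply Real.smoothTransition.one_of_one_le
  nlinarith [norm_nonneg w]

theorem ct_int : Integrable (fun w : E3 => ct w ^ 2) := by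
  refine Continuous.integrable_of_hasCompactSupport (ct_cont.pow 2) ?_
  refine HasCompactSupport.of_support_subset_isCompact (isCompact_closedBall (0 : E3) 2) ?_
  intro w hw
  rw [Function.mem_support] at hw
  by_contra h
  rw [mem_closedBall_zero_iff, not_le] at h
  exact hw (by rw [ct_zero w h.le]; ring)

theorem kappa_pos : 0 < ∫ w : E3, ct w ^ 2 := by
  have h : ∫ w in Metric.closedBall (0 : E3) 1, ct w ^ 2 ≤ ∫ w : E3, ct w ^ 2 :=
    setIntegral_le_integral ct_int (Filter.Eventually.of_forall fun w => sq_nonneg _)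
  refine lt_of_lt_of_le ?_ h
  have h2 : ∫ w in Metric.closedBall (0 : E3) 1, ct w ^ 2 =
      ∫ w in Metric.closedBall (0 : E3) 1, (1 : ℝ) := by
    refine setIntegral_congr_fun Metric.isClosed_closedBall.measurableSet ?_
    intro w hw
    rw [mem_closedBall_zero_iff] at hw
    simp only
    rw [ct_one w hw]
    ring
  rw [h2, setIntegral_const, smul_eq_mul, mul_one, Measure.real]
  exact ENNReal.toReal_pos (Metric.measure_closedBall_pos volume (0 : E3) one_pos).ne'
    measure_closedBall_lt_top.ne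

/-- the core of the use of Fubini's theorem -/
theorem core {I : Type} [Fintype I] [DecidableEq I] (g : E3 → ℝ) (hg : Integrable g)
    (i : I) (h : (I → E3) → ℝ) (hh : Integrable h) :
    Integrable (fun w => g w * ∫ x, cy w 1 (x i) ^ 2 * h x) ∧
    ∫ w, g w * (∫ x, cy w 1 (x i) ^ 2 * h x) = ∫ x, (∫ w, g w * cy w 1 (x i) ^ 2) * h x := by
  have hc : Continuous (fun q : E3 × (I → E3) => cy q.1 1 (q.2 i) ^ 2) := by
    unfold cy
    refine (ct_cont.comp ?_).pow 2
    fun_prop
  have hprod : Integrable (fun q : E3 × (I → E3) => g q.1 * h q.2)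
      ((volume : Measure E3).prod (volume : Measure (I → E3))) := hg.mul_prod hh
  have hF : Integrable (fun q : E3 × (I → E3) => cy q.1 1 (q.2 i) ^ 2 * (g q.1 * h q.2))
      ((volume : Measure E3).prod (volume : Measure (I → E3))) := by
    refine hprod.bdd_mul (c := 1) hc.aestronglyMeasurable (Filter.Eventually.of_forall fun q => ?_)
    rw [Real.norm_of_nonneg (sq_nonneg _)]
    have h0 : 0 ≤ cy q.1 1 (q.2 i) := ct_nn _
    have h1 : cy q.1 1 (q.2 i) ≤ 1 := ct_le1 _
    nlinarith
  have e1 : ∀ w : E3, g w * (∫ x, cy w 1 (x i) ^ 2 * h x) =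
      ∫ x, cy w 1 (x i) ^ 2 * (g w * h x) := by
    intro w
    rw [← integral_const_mul]
    refine integral_congr_ae (Filter.Eventually.of_forall fun x => ?_)
    simp only
    ring
  have e2 : ∀ x : I → E3, (∫ w, g w * cy w 1 (x i) ^ 2) * h x =
      ∫ w, cy w 1 (x i) ^ 2 * (g w * h x) := by
    intro x
    rw [← integral_mul_const]
    refine integral_congr_ae (Filter.Eventually.of_forall fun w => ?_)
    simp only
    ring
  constructor
  · refine hF.integral_prod_left.congr (Filter.Eventually.of_forall fun w => ?_)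
    simp only
    rw [e1 w]
  · simp only [e1, e2]
    exact integral_integral_swap (f := fun (w : E3) (x : I → E3) =>
      cy w 1 (x i) ^ 2 * (g w * h x)) hF

/-- the core for a finite sum -/
theorem core_sum {I A : Type} [Fintype I] [DecidableEq I] [Fintype A] (g : E3 → ℝ)
    (hg : Integrable g) (h : A → I → (I → E3) → ℝ) (hh : ∀ a i, Integrable (h a i)) (W : E3 → ℝ)
    (hW : ∀ v, W v = ∫ w, g w * cy w 1 v ^ 2) (hWi : ∀ a i, Integrable (fun x => W (x i) * h a i x)) :
    Integrable (fun w => g w * ∑ a, ∫ x, ∑ i, cy w 1 (x i) ^ 2 * h a i x) ∧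
    ∫ w, g w * (∑ a, ∫ x, ∑ i, cy w 1 (x i) ^ 2 * h a i x) =
      ∑ a, ∫ x, ∑ i, W (x i) * h a i x := by
  have hi : ∀ w a i, Integrable (fun x => cy w 1 (x i) ^ 2 * h a i x) := by
    intro w a i
    refine (hh a i).bdd_mul (c := 1) ?_ (Filter.Eventually.of_forall fun x => ?_)
    · refine Continuous.aestronglyMeasurable ?_
      unfold cy
      refine (ct_cont.comp ?_).pow 2
      fun_prop
    · rw [Real.norm_of_nonneg (sq_nonneg _)]
      have h0 : 0 ≤ cy w 1 (x i) := ct_nn _
      have h1 : cy w 1 (x i) ≤ 1 := ct_le1 _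
      nlinarith
  have e1 : ∀ w, g w * (∑ a, ∫ x, ∑ i, cy w 1 (x i) ^ 2 * h a i x) =
      ∑ a, ∑ i, g w * ∫ x, cy w 1 (x i) ^ 2 * h a i x := by
    intro w
    rw [Finset.mul_sum]
    refine Finset.sum_congr rfl fun a _ => ?_
    rw [integral_finsetSum _ (fun i _ => hi w a i), Finset.mul_sum]
  have e2 : ∑ a, ∫ x, ∑ i, W (x i) * h a i x =
      ∑ a, ∑ i, ∫ x, (∫ w, g w * cy w 1 (x i) ^ 2) * h a i x := by
    refine Finset.sum_congr rfl fun a _ => ?_
    rw [integral_finsetSum _ (fun i _ => hWi a i)]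
    refine Finset.sum_congr rfl fun i _ => ?_
    simp only [hW]
  constructor
  · simp only [e1]
    exact integrable_finsetSum _ fun a _ => integrable_finsetSum _ fun i _ =>
      (core g hg i (h a i) (hh a i)).1
  · simp only [e1]
    rw [e2, integral_finsetSum _ (fun a _ => integrable_finsetSum _ fun i _ =>
      (core g hg i (h a i) (hh a i)).1)]
    refine Finset.sum_congr rfl fun a _ => ?_
    rw [integral_finsetSum _ (fun i _ => (core g hg i (h a i) (hh a i)).1)]
    refine Finset.sum_congr rfl fun i _ => ?_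
    exact (core g hg i (h a i) (hh a i)).2

/-- TARGET -/
theorem le_w {S : Type} [Fintype S] [DecidableEq S] (D : Species S) (hD : D.Valid) (C0 : ℝ)
    (hC0 : 0 ≤ C0) : ∃ C : ℝ, 0 < C ∧
    ∀ {I : Type} [Fintype I] [DecidableEq I] (sp : I → S) (ℓ η : ℝ) {k : ℕ} (p : Fin k → ℝ)
      (ψ : Fin k → Wave D I), BS D sp ℓ C0 η p ψ → ∀ (y0 : E3) (R : ℝ) (ρ W : E3 → ℝ), 1 ≤ R →
      ContDiff ℝ SM ρ → (∀ w, 0 ≤ ρ w ∧ ρ w ≤ 1) → (∀ w, R ≤ ‖w - y0‖ → ρ w = 0) →
      (∀ v, W v = (∫ w, ρ w ^ 2 * cy w 1 v ^ 2) / ∫ w : E3, ct w ^ 2) →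
      ∀ X : ℝ, (∀ w, wx D p ψ (fun x => nb w 2 x ^ ((4 : ℝ) / 3)) ≤ X) →
      1 / 4 * (∑ j, p j * kinW D sp W (ψ j)) + wx D p ψ (tq D sp ℓ W) ≤ C * R ^ 3 * (1 + X) := by
  classical
  obtain ⟨κ, hκ⟩ : ∃ κ : ℝ, κ = ∫ w : E3, ct w ^ 2 := ⟨_, rfl⟩
  have hκ0 : 0 < κ := by rw [hκ]; exact kappa_pos
  obtain ⟨v1, hv1⟩ : ∃ v1 : ℝ, v1 = (volume (Metric.closedBall (0 : E3) 1)).toReal := ⟨_, rfl⟩
  have hv0 : 0 ≤ v1 := by rw [hv1]; exact ENNReal.toReal_nonneg
  refine ⟨C0 * v1 / κ + 1, by positivity, ?_⟩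
  intro I _ _ sp ℓ η k p ψ hB y0 R ρ W hR hρ hρ1 hρ0 hW X hX
  have hℓ : 0 < ℓ := by linarith [hB.len]
  have hR0 : 0 < R := by linarith
  rw [← hκ] at hW
  -- the weight
  obtain ⟨g, hgd⟩ : ∃ g : E3 → ℝ, g = fun w => ρ w ^ 2 / κ := ⟨_, rfl⟩
  have hg0 : ∀ w, 0 ≤ g w := by
    intro w
    rw [hgd]
    positivity
  have hgc : Continuous g := by
    rw [hgd]
    exact (hρ.continuous.pow 2).div_const κ
  have hgz : ∀ w, w ∉ Metric.closedBall y0 R → g w = 0 := by
    intro w hw
    rw [Metric.mem_closedBall, dist_eq_norm, not_le] at hw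
    rw [hgd]
    simp only
    rw [hρ0 w hw.le]
    ring
  have hgs : HasCompactSupport g := by
    refine HasCompactSupport.of_support_subset_isCompact (isCompact_closedBall y0 R) ?_
    intro w hw
    by_contra h
    exact hw (hgz w h)
  have hg : Integrable g := hgc.integrable_of_hasCompactSupport hgs
  have hWg : ∀ v, W v = ∫ w, g w * cy w 1 v ^ 2 := by
    intro v
    rw [hW v, ← integral_div]
    refine integral_congr_ae (Filter.Eventually.of_forall fun w => ?_)
    rw [hgd]
    simp only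
    ring
  -- the integral of the weight
  have hgint : ∫ w, g w ≤ v1 / κ * R ^ 3 := by
    have h1 : ∫ w, g w = ∫ w in Metric.closedBall y0 R, g w := by
      rw [← integral_indicator Metric.isClosed_closedBall.measurableSet]
      refine integral_congr_ae (Filter.Eventually.of_forall fun w => ?_)
      by_cases hw : w ∈ Metric.closedBall y0 R
      · simp only [Set.indicator_of_mem hw]
      · simp only [Set.indicator_of_notMem hw]
        exact hgz w hw
    rw [h1]
    have h2 : ∫ w in Metric.closedBall y0 R, g w ≤ ∫ w in Metric.closedBall y0 R, (1 / κ : ℝ) := by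
      refine setIntegral_mono_on hg.integrableOn
        (integrableOn_const measure_closedBall_lt_top.ne) Metric.isClosed_closedBall.measurableSet ?_
      intro w _
      rw [hgd]
      simp only
      have h3 := hρ1 w
      have h4 : ρ w ^ 2 ≤ 1 := by nlinarith
      gcongr
    refine h2.trans ?_
    rw [setIntegral_const, smul_eq_mul, Measure.real, Measure.addHaar_closedBall' volume y0 hR0.le,
      ENNReal.toReal_mul, ENNReal.toReal_ofReal (by positivity), ← hv1]
    simp only [finrank_euclideanSpace, Fintype.card_fin]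
    apply le_of_eq
    field_simp
  -- continuity and bounds of `W`
  have hWm : Continuous W := by
    have h1 : W = fun v => ∫ w, g w * cy w 1 v ^ 2 := funext hWg
    rw [h1]
    refine continuous_of_dominated (bound := fun w => g w) ?_ ?_ hg ?_
    · intro v
      refine (hgc.mul ?_).aestronglyMeasurable
      unfold cy
      refine (ct_cont.comp ?_).pow 2
      fun_prop
    · intro v
      refine Filter.Eventually.of_forall fun w => ?_
      have h0 : 0 ≤ cy w 1 v := ct_nn _
      have h1 : cy w 1 v ≤ 1 := ct_le1 _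
      have h2 := hg0 w
      rw [Real.norm_of_nonneg (by positivity)]
      have h3 : cy w 1 v ^ 2 ≤ 1 := by nlinarith
      nlinarith
    · refine Filter.Eventually.of_forall fun w => ?_
      refine continuous_const.mul ?_
      unfold cy
      refine (ct_cont.comp ?_).pow 2
      fun_prop
  have hW0 : ∀ v, 0 ≤ W v := by
    intro v
    rw [hWg v]
    refine integral_nonneg fun w => ?_
    have := hg0 w
    simp only [Pi.zero_apply]
    positivity
  have hWb : ∀ v, W v ≤ ∫ w, g w := by
    intro v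
    rw [hWg v]
    refine integral_mono_of_nonneg (Filter.Eventually.of_forall fun w => ?_) hg
      (Filter.Eventually.of_forall fun w => ?_)
    · have := hg0 w
      simp only [Pi.zero_apply]
      positivity
    · have h0 : 0 ≤ cy w 1 v := ct_nn _
      have h1 : cy w 1 v ≤ 1 := ct_le1 _
      have h2 := hg0 w
      have h3 : cy w 1 v ^ 2 ≤ 1 := by nlinarith
      simp only
      nlinarith
  have hWint : ∀ (i : I) (h : (I → E3) → ℝ), Integrable h → Integrable (fun x => W (x i) * h x) := by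
    intro i h hh
    exact RL2a.RM.bmul W hWm hW0 _ hWb i hh
  -- the kinetic energy
  have hkin : ∀ j, Integrable (fun w => g w * klc D sp w 1 (ψ j)) ∧
      ∫ w, g w * klc D sp w 1 (ψ j) = kinW D sp W (ψ j) := by
    intro j
    have hst := hB.state j
    exact core_sum g hg (fun τ i x => kin D sp i (ψ j τ) x)
      (fun τ i => (int_state D sp ℓ (ψ j) hst τ).2.1 i) W hWg
      (fun τ i => hWint i _ ((int_state D sp ℓ (ψ j) hst τ).2.1 i))
  -- the potential energy
  have hq : ∀ (V : E3 → ℝ) (x : I → E3), tq D sp ℓ V x = ∑ i, V (x i) *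
      ((∑ j, if i = j then 0 else D.charge (sp i) * D.charge (sp j) / ‖x i - x j‖) -
        D.charge (sp i) * phb D sp ℓ x) := by
    intro V x
    unfold tq
    rw [Finset.mul_sum, ← Finset.sum_sub_distrib]
    refine Finset.sum_congr rfl fun i _ => ?_
    ring
  have hBi : ∀ (i : I), RL2a.RM.WI D sp ℓ (fun x =>
      (∑ j, if i = j then 0 else D.charge (sp i) * D.charge (sp j) / ‖x i - x j‖) -
        D.charge (sp i) * phb D sp ℓ x) := by
    intro i
    have h1 := RL2a.RM.WI_add D sp ℓ (RL2a.RM.WI_pair D sp ℓ i)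
      (RL2a.RM.WI_smul D sp ℓ (RL1.WI_phb D sp ℓ hℓ) (-(D.charge (sp i))))
    intro Ψ hΨ τ
    refine (h1 Ψ hΨ τ).congr (Filter.Eventually.of_forall fun x => ?_)
    simp only
    ring
  have hpot : ∀ j, Integrable (fun w => g w * wm D (tq D sp ℓ (fun v => cy w 1 v ^ 2)) (ψ j)) ∧
      ∫ w, g w * wm D (tq D sp ℓ (fun v => cy w 1 v ^ 2)) (ψ j) = wm D (tq D sp ℓ W) (ψ j) := by
    intro j
    have hst := hB.state j
    have hc := core_sum g hg (fun (τ : I → Fin D.g) i x =>
      ((∑ j, if i = j then 0 else D.charge (sp i) * D.charge (sp j) / ‖x i - x j‖) -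
        D.charge (sp i) * phb D sp ℓ x) * ‖ψ j τ x‖ ^ 2)
      (fun τ i => hBi i (ψ j) hst τ) W hWg
      (fun τ i => hWint i _ (hBi i (ψ j) hst τ))
    have e : ∀ V : E3 → ℝ, wm D (tq D sp ℓ V) (ψ j) = ∑ τ, ∫ x, ∑ i, V (x i) *
      (((∑ j, if i = j then 0 else D.charge (sp i) * D.charge (sp j) / ‖x i - x j‖) -
        D.charge (sp i) * phb D sp ℓ x) * ‖ψ j τ x‖ ^ 2) := by
      intro V
      unfold wm
      refine Finset.sum_congr rfl fun τ _ => ?_
      refine integral_congr_ae (Filter.Eventually.of_forall fun x => ?_)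
      simp only
      rw [hq V x, Finset.sum_mul]
      refine Finset.sum_congr rfl fun i _ => ?_
      ring
    simp only [e]
    exact hc
  -- put together
  have hL : Integrable (fun w => g w * (1 / 4 * (∑ j, p j * klc D sp w 1 (ψ j)) +
      wx D p ψ (tq D sp ℓ (fun v => cy w 1 v ^ 2)))) ∧
      ∫ w, g w * (1 / 4 * (∑ j, p j * klc D sp w 1 (ψ j)) +
      wx D p ψ (tq D sp ℓ (fun v => cy w 1 v ^ 2))) =
      1 / 4 * (∑ j, p j * kinW D sp W (ψ j)) + wx D p ψ (tq D sp ℓ W) := by
    have e : ∀ w, g w * (1 / 4 * (∑ j, p j * klc D sp w 1 (ψ j)) +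
        wx D p ψ (tq D sp ℓ (fun v => cy w 1 v ^ 2))) =
        ∑ j, (1 / 4 * p j) * (g w * klc D sp w 1 (ψ j)) +
        ∑ j, p j * (g w * wm D (tq D sp ℓ (fun v => cy w 1 v ^ 2)) (ψ j)) := by
      intro w
      unfold wx
      rw [mul_add, Finset.mul_sum, Finset.mul_sum, Finset.mul_sum]
      congr 1
      · refine Finset.sum_congr rfl fun j _ => ?_
        ring
      · refine Finset.sum_congr rfl fun j _ => ?_
        ring
    have i1 : Integrable (fun w => ∑ j, (1 / 4 * p j) * (g w * klc D sp w 1 (ψ j))) :=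
      integrable_finsetSum _ fun j _ => (hkin j).1.const_mul _
    have i2 : Integrable (fun w => ∑ j, p j * (g w * wm D (tq D sp ℓ (fun v => cy w 1 v ^ 2)) (ψ j))) :=
      integrable_finsetSum _ fun j _ => (hpot j).1.const_mul _
    simp only [e]
    refine ⟨i1.add i2, ?_⟩
    rw [integral_add i1 i2, integral_finsetSum _ (fun j _ => (hkin j).1.const_mul _),
      integral_finsetSum _ (fun j _ => (hpot j).1.const_mul _)]
    unfold wx
    rw [Finset.mul_sum]
    congr 1
    · refine Finset.sum_congr rfl fun j _ => ?_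
      rw [integral_const_mul, (hkin j).2]
      ring
    · refine Finset.sum_congr rfl fun j _ => ?_
      rw [integral_const_mul, (hpot j).2]
  rw [← hL.2]
  have hX0 : 0 ≤ X := by
    refine le_trans ?_ (hX y0)
    unfold wx
    refine Finset.sum_nonneg fun j _ => mul_nonneg (hB.p0 j) ?_
    unfold wm
    refine Finset.sum_nonneg fun τ _ => integral_nonneg fun x => ?_
    have hn : 0 ≤ nb y0 2 x := by
      unfold nb
      refine Finset.sum_nonneg fun i _ => ?_
      split_ifs <;> norm_num
    simp only [Pi.zero_apply]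
    positivity
  have hfin : ∫ w, g w * (1 / 4 * (∑ j, p j * klc D sp w 1 (ψ j)) +
      wx D p ψ (tq D sp ℓ (fun v => cy w 1 v ^ 2))) ≤ ∫ w, g w * (C0 * (1 + X)) := by
    refine integral_mono hL.1 (hg.mul_const _) fun w => ?_
    simp only
    refine mul_le_mul_of_nonneg_left ((hB.en w).trans ?_) (hg0 w)
    have := hX w
    gcongr
  refine hfin.trans ?_
  rw [integral_mul_const]
  calc (∫ w, g w) * (C0 * (1 + X)) ≤ (v1 / κ * R ^ 3) * (C0 * (1 + X)) := by gcongr
    _ = (C0 * v1 / κ) * R ^ 3 * (1 + X) := by ring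
    _ ≤ (C0 * v1 / κ + 1) * R ^ 3 * (1 + X) := by
      gcongr
      linarith

end Pool.Agent.Helper780_CP.RB12
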