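import Pool.Agent.Helper780_CP.LLDefs2
import Pool.Agent.Helper780_CP.RC6
import Pool.Agent.Helper780_CP.PauliA
import Pool.Agent.Helper780_CP.PauliB
import Pool.Agent.Helper985.CT.M_row_bound

set_option autoImplicit false

open MeasureTheory

namespace Pool.Agent.Helper780_CP.RC8

open Pool.Agent.Helper780_CP
open Pool.Agent.Helper985.CP
open Pool.Agent.Helper780_CP.RC6 (poinc_cube)

open Pool.Agent.Helper985.CP

theorem Qc_meas (q : E3) (s : ℝ) : MeasurableSet (Qc q s) := by
  have h1 : Qc q s = ⋂ k : Fin 3, {y : E3 | q k ≤ y k} ∩ {y : E3 | y k < q k + s} := by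
    ext y
    simp [Qc]
  rw [h1]
  refine MeasurableSet.iInter fun k => MeasurableSet.inter ?_ ?_
  · exact (isClosed_le continuous_const (by fun_prop)).measurableSet
  · exact (isOpen_lt (by fun_prop) continuous_const).measurableSet

theorem Qc_bdd (q : E3) (s : ℝ) (z : E3) (hz : z ∈ Qc q s) :
    ‖z‖ ≤ Real.sqrt (∑ k : Fin 3, (|q k| + |s|) ^ 2) := by
  rw [EuclideanSpace.norm_eq]
  apply Real.sqrt_le_sqrt
  apply Finset.sum_le_sum
  intro k _
  have := hz k
  rw [Real.norm_eq_abs]
  refine pow_le_pow_left₀ (abs_nonneg _) ?_ 2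
  rw [abs_le]
  constructor
  · linarith [neg_abs_le (q k), abs_nonneg s]
  · linarith [le_abs_self (q k), le_abs_self s]

theorem Qc_vol (q : E3) (s : ℝ) (hs : 0 ≤ s) : volume (Qc q s) = ENNReal.ofReal (s ^ 3) := by
  have h1 : Qc q s = (@WithLp.ofLp 2 (Fin 3 → ℝ)) ⁻¹'
      (Set.pi Set.univ (fun k : Fin 3 => Set.Ico (q k) (q k + s))) := by
    ext y
    simp [Qc, Set.mem_pi]
  rw [h1, (PiLp.volume_preserving_ofLp (Fin 3)).measure_preimage
    (MeasurableSet.univ_pi fun _ => measurableSet_Ico).nullMeasurableSet,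
    Real.volume_pi_Ico]
  simp [ENNReal.ofReal_pow hs]

theorem Qc_fin (q : E3) (s : ℝ) : volume (Qc q s) < ⊤ := by
  refine lt_of_le_of_lt (measure_mono fun z hz => ?_)
    (isCompact_closedBall (0 : E3) (Real.sqrt (∑ k : Fin 3, (|q k| + |s|) ^ 2))).measure_lt_top
  simpa using Qc_bdd q s z hz

/-- indicator of the cube -/
noncomputable def iQ (q : E3) (s : ℝ) (z : E3) : ℝ := (Qc q s).indicator (fun _ => (1 : ℝ)) z

theorem iQ_01 (q : E3) (s : ℝ) (z : E3) : iQ q s z = 0 ∨ iQ q s z = 1 := by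
  unfold iQ
  by_cases h : z ∈ Qc q s
  · right; rw [Set.indicator_of_mem h]
  · left; rw [Set.indicator_of_notMem h]

theorem iQ_nn (q : E3) (s : ℝ) (z : E3) : 0 ≤ iQ q s z := by
  rcases iQ_01 q s z with h | h <;> rw [h]
  exact zero_le_one

theorem iQ_le (q : E3) (s : ℝ) (z : E3) : iQ q s z ≤ 1 := by
  rcases iQ_01 q s z with h | h <;> rw [h]
  exact zero_le_one

theorem iQ_meas (q : E3) (s : ℝ) : Measurable (iQ q s) :=
  measurable_const.indicator (Qc_meas q s)

theorem iQ_out (q : E3) (s : ℝ) (z : E3) (h : z ∉ Qc q s) : iQ q s z = 0 :=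
  Set.indicator_of_notMem h _

theorem iQ_in (q : E3) (s : ℝ) (z : E3) (h : z ∈ Qc q s) : iQ q s z = 1 :=
  Set.indicator_of_mem h _

theorem iQ_prod (q : E3) (s : ℝ) (z : E3) :
    iQ q s z = ∏ k : Fin 3, (if q k ≤ z k ∧ z k < q k + s then (1 : ℝ) else 0) := by
  by_cases h : z ∈ Qc q s
  · rw [iQ_in q s z h]
    symm
    exact Finset.prod_eq_one fun k _ => if_pos (h k)
  · rw [iQ_out q s z h]
    symm
    have h2 : ∃ k, ¬ (q k ≤ z k ∧ z k < q k + s) := by
      by_contra hcon
      apply h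
      intro k
      by_contra hk
      exact hcon ⟨k, hk⟩
    obtain ⟨k, hk⟩ := h2
    exact Finset.prod_eq_zero (Finset.mem_univ k) (if_neg hk)

/-- corner of a small cube -/
noncomputable def crn (q : E3) (l : ℝ) (a : Fin 3 → ℕ) : E3 :=
  WithLp.toLp 2 (fun k => q k + l * (a k : ℝ))

/-- index set of the small cubes -/
def idx (n : ℕ) : Finset (Fin 3 → ℕ) := Fintype.piFinset (fun _ : Fin 3 => Finset.range n)

theorem cut1 (q l t : ℝ) (hl : 0 < l) (n : ℕ) :
    (if q ≤ t ∧ t < q + n * l then (1 : ℝ) else 0) =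
      ∑ a ∈ Finset.range n, (if q + l * (a : ℝ) ≤ t ∧ t < q + l * (a : ℝ) + l then (1 : ℝ) else 0) := by
  induction n with
  | zero =>
    rw [Finset.range_zero, Finset.sum_empty, if_neg]
    rintro ⟨h1, h2⟩
    simp at h2
    linarith
  | succ n ih =>
    rw [Finset.sum_range_succ, ← ih]
    push_cast
    have hnl : 0 ≤ (n : ℝ) * l := by positivity
    by_cases h1 : q ≤ t
    · by_cases h2 : t < q + n * l
      · rw [if_pos ⟨h1, by nlinarith⟩, if_pos ⟨h1, h2⟩, if_neg (by rintro ⟨h3, -⟩; nlinarith)]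
        norm_num
      · by_cases h3 : t < q + (n + 1) * l
        · rw [if_pos ⟨h1, h3⟩, if_neg (fun h => h2 h.2), if_pos ⟨by nlinarith, by nlinarith⟩]
          norm_num
        · rw [if_neg (fun h => h3 h.2), if_neg (fun h => h2 h.2),
            if_neg (by rintro ⟨-, h4⟩; apply h3; nlinarith)]
          norm_num
    · rw [if_neg (fun h => h1 h.1), if_neg (fun h => h1 h.1),
        if_neg (by rintro ⟨h3, -⟩; apply h1; nlinarith)]
      norm_num

theorem iQ_cut (q : E3) (l : ℝ) (hl : 0 < l) (n : ℕ) (z : E3) :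
    iQ q (n * l) z = ∑ a ∈ idx n, iQ (crn q l a) l z := by
  rw [iQ_prod]
  simp only [iQ_prod, cut1 _ l _ hl n]
  rw [Finset.prod_univ_sum]
  rfl

/-- configurations in which `z` is within `r` of a particle of positive charge -/
def nst {S : Type} (D : Species S) {I : Type} (sp : Option I → S) (r : ℝ) :
    Set ((I → E3) × E3) :=
  {p | ∃ j, 0 < D.charge (sp (some j)) ∧ ‖p.2 - p.1 j‖ < r}

theorem nst_meas {S : Type} (D : Species S) {I : Type} [Finite I] (sp : Option I → S) (r : ℝ) :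
    MeasurableSet (nst D sp r) := by
  have h : nst D sp r =
      ⋃ j : I, {p : (I → E3) × E3 | 0 < D.charge (sp (some j)) ∧ ‖p.2 - p.1 j‖ < r} := by
    ext p
    simp [nst]
  rw [h]
  refine MeasurableSet.iUnion fun j => ?_
  by_cases hj : 0 < D.charge (sp (some j))
  · have e : {p : (I → E3) × E3 | 0 < D.charge (sp (some j)) ∧ ‖p.2 - p.1 j‖ < r} =
        {p : (I → E3) × E3 | ‖p.2 - p.1 j‖ < r} := by
      ext p
      simp [hj]
    rw [e]
    have h1 : Measurable (fun p : (I → E3) × E3 => p.1 j) :=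
      (measurable_pi_apply j).comp measurable_fst
    have h2 : Measurable (fun p : (I → E3) × E3 => ‖p.2 - p.1 j‖) := (measurable_snd.sub h1).norm
    exact measurableSet_lt h2 measurable_const
  · have e : {p : (I → E3) × E3 | 0 < D.charge (sp (some j)) ∧ ‖p.2 - p.1 j‖ < r} = ∅ := by
      ext p
      simp [hj]
    rw [e]
    exact MeasurableSet.empty

/-- indicator: a positive particle within `r` of `z`, and `z` in the cube -/
noncomputable def nr {S : Type} (D : Species S) {I : Type} (sp : Option I → S) (r : ℝ) (q : E3)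
    (s : ℝ) (z : E3) (x : I → E3) : ℝ :=
  iQ q s z * (nst D sp r).indicator (fun _ => 1) (x, z)

theorem nr_01 {S : Type} (D : Species S) {I : Type} (sp : Option I → S) (r : ℝ) (q : E3)
    (s : ℝ) (z : E3) (x : I → E3) : nr D sp r q s z x = 0 ∨ nr D sp r q s z x = 1 := by
  unfold nr
  by_cases h : (x, z) ∈ nst D sp r
  · rw [Set.indicator_of_mem h, mul_one]
    exact iQ_01 q s z
  · left; rw [Set.indicator_of_notMem h, mul_zero]

theorem nr_nn {S : Type} (D : Species S) {I : Type} (sp : Option I → S) (r : ℝ) (q : E3)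
    (s : ℝ) (z : E3) (x : I → E3) : 0 ≤ nr D sp r q s z x := by
  rcases nr_01 D sp r q s z x with h | h <;> rw [h]
  exact zero_le_one

theorem nr_le {S : Type} (D : Species S) {I : Type} (sp : Option I → S) (r : ℝ) (q : E3)
    (s : ℝ) (z : E3) (x : I → E3) : nr D sp r q s z x ≤ iQ q s z := by
  unfold nr
  by_cases h : (x, z) ∈ nst D sp r
  · rw [Set.indicator_of_mem h, mul_one]
  · rw [Set.indicator_of_notMem h, mul_zero]
    exact iQ_nn q s z

theorem nr_meas {S : Type} (D : Species S) {I : Type} [Finite I] (sp : Option I → S)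
    (r : ℝ) (q : E3) (s : ℝ) : Measurable (fun p : (I → E3) × E3 => nr D sp r q s p.2 p.1) := by
  unfold nr
  exact ((iQ_meas q s).comp measurable_snd).mul (measurable_const.indicator (nst_meas D sp r))

theorem nr_out {S : Type} (D : Species S) {I : Type} (sp : Option I → S) (r : ℝ) (q : E3)
    (s : ℝ) (z : E3) (x : I → E3) (h : z ∉ Qc q s) : nr D sp r q s z x = 0 := by
  unfold nr
  rw [iQ_out q s z h, zero_mul]

theorem nr_swap {S : Type} (D : Species S) {I : Type} [DecidableEq I] (sp : Option I → S)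
    (hneg : D.charge (sp none) < 0) (r : ℝ) (q : E3) (s : ℝ) (z : E3) (x : Option I → E3)
    (a b : Option I) (ha : sp a = sp none) (hb : sp b = sp none) :
    nr D sp r q s z (fun j => x (Equiv.swap a b (some j))) =
      nr D sp r q s z (fun j => x (some j)) := by
  have h : ((fun j => x (Equiv.swap a b (some j))), z) ∈ nst D sp r ↔
      ((fun j => x (some j)), z) ∈ nst D sp r := by
    unfold nst
    refine exists_congr fun j => and_congr_right fun hj => ?_
    have h1 : Equiv.swap a b (some j) = some j := by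
      refine Equiv.swap_apply_of_ne_of_ne ?_ ?_
      · intro h; rw [h, ha] at hj; linarith
      · intro h; rw [h, hb] at hj; linarith
    show ‖z - x (Equiv.swap a b (some j))‖ < r ↔ ‖z - x (some j)‖ < r
    rw [h1]
  unfold nr
  congr 1
  by_cases h2 : ((fun j => x (some j)), z) ∈ nst D sp r
  · rw [Set.indicator_of_mem h2, Set.indicator_of_mem (h.2 h2)]
  · rw [Set.indicator_of_notMem h2, Set.indicator_of_notMem (fun h3 => h2 (h.1 h3))]

theorem iQ_int (q : E3) (s : ℝ) : Integrable (iQ q s) := by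
  refine (integrable_indicator_iff (Qc_meas q s)).2 ?_
  exact integrableOn_const (Qc_fin q s).ne

theorem iQ_intv (q : E3) (s : ℝ) (hs : 0 ≤ s) : ∫ z, iQ q s z = s ^ 3 := by
  unfold iQ
  rw [integral_indicator (Qc_meas q s), setIntegral_const, Measure.real, Qc_vol q s hs,
    ENNReal.toReal_ofReal (by positivity)]
  simp

theorem nr_int {S : Type} (D : Species S) {I : Type} [Finite I] (sp : Option I → S) (r : ℝ)
    (q : E3) (s : ℝ) (x : I → E3) : Integrable (fun z => nr D sp r q s z x) := by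
  refine (iQ_int q s).mono' ?_ (Filter.Eventually.of_forall fun z => ?_)
  · exact ((nr_meas D sp r q s).comp
      (measurable_const.prodMk measurable_id)).aestronglyMeasurable
  · rw [Real.norm_of_nonneg (nr_nn D sp r q s z x)]
    exact nr_le D sp r q s z x

/-- volume of the points of the cube within `r` of a positive particle -/
noncomputable def vv {S : Type} (D : Species S) {I : Type} (sp : Option I → S) (r : ℝ) (q : E3)
    (s : ℝ) (x : I → E3) : ℝ := ∫ z, nr D sp r q s z x

theorem vv_nn {S : Type} (D : Species S) {I : Type} (sp : Option I → S) (r : ℝ) (q : E3)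
    (s : ℝ) (x : I → E3) : 0 ≤ vv D sp r q s x :=
  integral_nonneg fun z => nr_nn D sp r q s z x

theorem vv_le {S : Type} (D : Species S) {I : Type} [Finite I] (sp : Option I → S) (r : ℝ) (q : E3)
    (s : ℝ) (hs : 0 ≤ s) (x : I → E3) : vv D sp r q s x ≤ s ^ 3 := by
  rw [← iQ_intv q s hs]
  exact integral_mono (nr_int D sp r q s x) (iQ_int q s) fun z => nr_le D sp r q s z x

theorem vv_meas {S : Type} (D : Species S) {I : Type} [Fintype I] (sp : Option I → S) (r : ℝ)
    (q : E3) (s : ℝ) : Measurable (vv D sp r q s) := by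
  have h2 : StronglyMeasurable (fun x : I → E3 => ∫ z, nr D sp r q s z x) :=
    (nr_meas D sp r q s).stronglyMeasurable.integral_prod_right
  exact h2.measurable

theorem vv_swap {S : Type} (D : Species S) {I : Type} [DecidableEq I] (sp : Option I → S)
    (hneg : D.charge (sp none) < 0) (r : ℝ) (q : E3) (s : ℝ) (x : Option I → E3)
    (a b : Option I) (ha : sp a = sp none) (hb : sp b = sp none) :
    vv D sp r q s (fun j => x (Equiv.swap a b (some j))) =
      vv D sp r q s (fun j => x (some j)) := by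
  unfold vv
  simp only [nr_swap D sp hneg r q s _ x a b ha hb]

theorem vv_cut {S : Type} (D : Species S) {I : Type} [Finite I] (sp : Option I → S) (r : ℝ)
    (q : E3) (l : ℝ) (hl : 0 < l) (n : ℕ) (x : I → E3) :
    ∑ a ∈ idx n, vv D sp r (crn q l a) l x = vv D sp r q (n * l) x := by
  unfold vv
  rw [← integral_finsetSum _ fun a _ => nr_int D sp r (crn q l a) l x]
  congr 1
  funext z
  unfold nr
  rw [← Finset.sum_mul, ← iQ_cut q l hl n z]

theorem vol_ballC8 (x : E3) (r : ℝ) (hr : 0 ≤ r) :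
    (volume (Metric.ball x r)).toReal = 4 / 3 * Real.pi * r ^ 3 := by
  rw [EuclideanSpace.volume_ball_fin_three, ENNReal.toReal_mul, ENNReal.toReal_pow,
    ENNReal.toReal_ofReal hr, ENNReal.toReal_ofReal (by positivity)]
  ring

theorem vv_npl {S : Type} (D : Species S) {I : Type} [Fintype I] (sp : Option I → S) (r : ℝ)
    (q : E3) (s : ℝ) (hr : 0 ≤ r) (hrs : r ≤ s) (x : Option I → E3) :
    vv D sp r q s (fun j => x (some j)) ≤ (4 / 3 * Real.pi * r ^ 3) * npl D sp (Qp q s) x := by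
  classical
  have hbi : ∀ j, Integrable ((Metric.ball (x (some j)) r).indicator (fun _ => (1 : ℝ))) := by
    intro j
    refine (integrable_indicator_iff Metric.isOpen_ball.measurableSet).2 ?_
    exact integrableOn_const (measure_ball_lt_top).ne
  have h1 : ∀ z, nr D sp r q s z (fun j => x (some j)) ≤
      ∑ j : I, (if 0 < D.charge (sp (some j)) ∧ x (some j) ∈ Qp q s then (1 : ℝ) else 0) *
      (Metric.ball (x (some j)) r).indicator (fun _ => (1 : ℝ)) z := by
    intro z
    have hnn : ∀ j ∈ (Finset.univ : Finset I), 0 ≤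
        (if 0 < D.charge (sp (some j)) ∧ x (some j) ∈ Qp q s then (1 : ℝ) else 0) *
        (Metric.ball (x (some j)) r).indicator (fun _ => (1 : ℝ)) z := fun j _ => by
      refine mul_nonneg ?_ (Set.indicator_nonneg (fun _ _ => zero_le_one) z)
      split_ifs
      · exact zero_le_one
      · exact le_rfl
    by_cases hz : z ∈ Qc q s
    · by_cases h : ((fun j => x (some j)), z) ∈ nst D sp r
      · obtain ⟨j, hj, hlt⟩ := h
        have hlt' : ‖z - x (some j)‖ < r := hlt
        have hle := Finset.single_le_sum hnn (Finset.mem_univ j)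
        have hb : z ∈ Metric.ball (x (some j)) r := by
          rw [Metric.mem_ball, dist_eq_norm]
          exact hlt'
        have hp : x (some j) ∈ Qp q s := by
          intro k
          have h3 : |z k - x (some j) k| ≤ ‖z - x (some j)‖ := by
            have := PiLp.norm_apply_le (z - x (some j)) k
            simpa [Real.norm_eq_abs] using this
          have h4 := abs_le.1 h3
          have h5 := hz k
          constructor
          · linarith [h4.2, h5.1]
          · linarith [h4.1, h5.2]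
        rw [Set.indicator_of_mem hb, if_pos ⟨hj, hp⟩, mul_one] at hle
        refine le_trans ?_ hle
        rcases nr_01 D sp r q s z (fun j => x (some j)) with h | h <;> rw [h]
        exact zero_le_one
      · have : nr D sp r q s z (fun j => x (some j)) = 0 := by
          unfold nr
          rw [Set.indicator_of_notMem h, mul_zero]
        rw [this]
        exact Finset.sum_nonneg hnn
    · rw [nr_out D sp r q s z _ hz]
      exact Finset.sum_nonneg hnn
  have h2 : vv D sp r q s (fun j => x (some j)) ≤ ∫ z, ∑ j : I,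
      (if 0 < D.charge (sp (some j)) ∧ x (some j) ∈ Qp q s then (1 : ℝ) else 0) *
      (Metric.ball (x (some j)) r).indicator (fun _ => (1 : ℝ)) z :=
    integral_mono (nr_int D sp r q s _)
      (integrable_finsetSum _ fun j _ => (hbi j).const_mul _) h1
  refine h2.trans ?_
  rw [integral_finsetSum _ fun j _ => (hbi j).const_mul _]
  have h3 : ∀ j, ∫ z, (if 0 < D.charge (sp (some j)) ∧ x (some j) ∈ Qp q s then (1 : ℝ) else 0) *
      (Metric.ball (x (some j)) r).indicator (fun _ => (1 : ℝ)) z =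
      (4 / 3 * Real.pi * r ^ 3) *
      (if 0 < D.charge (sp (some j)) ∧ x (some j) ∈ Qp q s then (1 : ℝ) else 0) := by
    intro j
    rw [integral_const_mul, integral_indicator Metric.isOpen_ball.measurableSet,
      setIntegral_const, Measure.real, vol_ballC8 _ r hr]
    simp [mul_comm]
  simp only [h3]
  rw [← Finset.mul_sum]
  refine mul_le_mul_of_nonneg_left ?_ (by positivity)
  unfold npl
  rw [Fintype.sum_option]
  have h4 : (0 : ℝ) ≤ (if 0 < D.charge (sp none) ∧ x none ∈ Qp q s then (1 : ℝ) else 0) := by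
    split_ifs
    · exact zero_le_one
    · exact le_rfl
  have h5 : ∑ j : I, (if 0 < D.charge (sp (some j)) ∧ x (some j) ∈ Qp q s then (1 : ℝ) else 0) =
      ∑ j : I, @ite ℝ (0 < D.charge (sp (some j)) ∧ x (some j) ∈ Qp q s)
        (Classical.propDecidable _) 1 0 :=
    Finset.sum_congr rfl fun j _ => by congr
  rw [h5]
  have h6 : (0 : ℝ) ≤ @ite ℝ (0 < D.charge (sp none) ∧ x none ∈ Qp q s)
        (Classical.propDecidable _) 1 0 := by
    split_ifs
    · exact zero_le_one
    · exact le_rfl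
  linarith

/-- one cell, one particle -/
theorem cell_pt (C : ℝ) (hC : ∀ (f : E3 → ℂ), ContDiff ℝ 1 f → ∀ (q : E3) (s : ℝ), 0 < s →
    ∫ z in Qc q s, ‖f z - ((s ^ 3)⁻¹ : ℝ) • ∫ w in Qc q s, f w‖ ^ 2 ≤
    C * s ^ 2 * ∫ z in Qc q s,
      ∑ k : Fin 3, ‖fderiv ℝ f z (EuclideanSpace.single k (1 : ℝ))‖ ^ 2)
    (f : E3 → ℂ) (hf : ContDiff ℝ 1 f) (p : E3) (l : ℝ) (hl : 0 < l) (w : E3 → ℝ)
    (hw : Measurable w) (w0 : ∀ z, 0 ≤ w z) (w1 : ∀ z, w z ≤ 1)
    (ws : ∀ z, z ∉ Qc p l → w z = 0) :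
    ∫ z, w z * ‖f z‖ ^ 2 ≤ 2 * ((∫ z, w z) * (((l ^ 3)⁻¹) ^ 2 * ‖∫ z in Qc p l, f z‖ ^ 2)) +
      2 * (C * l ^ 2 * ∫ z in Qc p l,
        ∑ k : Fin 3, ‖fderiv ℝ f z (EuclideanSpace.single k (1 : ℝ))‖ ^ 2) := by
  obtain ⟨m, hm⟩ : ∃ m : ℂ, m = ((l ^ 3)⁻¹ : ℝ) • ∫ w in Qc p l, f w := ⟨_, rfl⟩
  have hP := hC f hf p l hl
  rw [← hm] at hP
  have hcont : ∀ g : E3 → ℝ, Continuous g → IntegrableOn g (Qc p l) := by
    intro g hg
    refine (hg.continuousOn.integrableOn_compact (isCompact_closedBall (0 : E3)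
      (Real.sqrt (∑ k : Fin 3, (|p k| + |l|) ^ 2)))).mono_set fun z hz => ?_
    simpa using Qc_bdd p l z hz
  have hfc : Continuous f := hf.continuous
  have i1 : IntegrableOn (fun z => ‖f z‖ ^ 2) (Qc p l) := hcont _ ((hfc.norm).pow 2)
  have i2 : IntegrableOn (fun z => ‖f z - m‖ ^ 2) (Qc p l) :=
    hcont _ (((hfc.sub continuous_const).norm).pow 2)
  have i3 : IntegrableOn (fun z => w z * ‖f z‖ ^ 2) (Qc p l) := by
    refine Integrable.bdd_mul (c := 1) i1 hw.aestronglyMeasurable
      (Filter.Eventually.of_forall fun z => ?_)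
    rw [Real.norm_of_nonneg (w0 z)]
    exact w1 z
  have i4 : IntegrableOn (fun z => w z * ‖m‖ ^ 2) (Qc p l) := by
    refine Integrable.bdd_mul (c := 1) (hcont _ continuous_const) hw.aestronglyMeasurable
      (Filter.Eventually.of_forall fun z => ?_)
    rw [Real.norm_of_nonneg (w0 z)]
    exact w1 z
  have e1 : ∫ z in Qc p l, w z * ‖f z‖ ^ 2 = ∫ z, w z * ‖f z‖ ^ 2 := by
    apply setIntegral_eq_integral_of_forall_compl_eq_zero
    intro z hz
    rw [ws z hz, zero_mul]
  have e2 : ∫ z in Qc p l, w z * ‖m‖ ^ 2 = (∫ z, w z) * ‖m‖ ^ 2 := by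
    rw [integral_mul_const]
    congr 1
    apply setIntegral_eq_integral_of_forall_compl_eq_zero
    intro z hz
    exact ws z hz
  have hm2 : ‖m‖ ^ 2 = ((l ^ 3)⁻¹) ^ 2 * ‖∫ z in Qc p l, f z‖ ^ 2 := by
    rw [hm, norm_smul, Real.norm_of_nonneg (by positivity), mul_pow]
  rw [← e1, ← hm2, ← e2]
  have h1 : ∫ z in Qc p l, w z * ‖f z‖ ^ 2 ≤
      ∫ z in Qc p l, (2 * (w z * ‖m‖ ^ 2) + 2 * ‖f z - m‖ ^ 2) := by
    refine integral_mono i3 ((i4.const_mul 2).add (i2.const_mul 2)) fun z => ?_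
    show w z * ‖f z‖ ^ 2 ≤ 2 * (w z * ‖m‖ ^ 2) + 2 * ‖f z - m‖ ^ 2
    have h2 : ‖f z‖ ≤ ‖m‖ + ‖f z - m‖ := by
      have := norm_add_le m (f z - m)
      simpa using this
    have h3 := pow_le_pow_left₀ (norm_nonneg _) h2 2
    have h4 : ‖f z‖ ^ 2 ≤ 2 * ‖m‖ ^ 2 + 2 * ‖f z - m‖ ^ 2 := by
      nlinarith [sq_nonneg (‖m‖ - ‖f z - m‖)]
    have h5 := mul_le_mul_of_nonneg_left h4 (w0 z)
    have h6 : w z * ‖f z - m‖ ^ 2 ≤ 1 * ‖f z - m‖ ^ 2 :=
      mul_le_mul_of_nonneg_right (w1 z) (by positivity)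
    linarith
  rw [integral_add (i4.const_mul 2) (i2.const_mul 2), integral_const_mul, integral_const_mul] at h1
  linarith

theorem elim_leC8 {J : Type} [Fintype J] (z : E3) (x : J → E3) :
    ‖x‖ ≤ ‖(fun o : Option J => o.elim z x)‖ ∧ ‖z‖ ≤ ‖(fun o : Option J => o.elim z x)‖ := by
  constructor
  · rw [pi_norm_le_iff_of_nonneg (norm_nonneg _)]
    intro j
    exact norm_le_pi_norm (fun o : Option J => o.elim z x) (some j)
  · exact norm_le_pi_norm (fun o : Option J => o.elim z x) none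

theorem nice_pslC8 {S : Type} (D : Species S) {I : Type} [Fintype I] (f : E3 → ℂ) (hf : nice1 f)
    (σ : Fin D.g) (Φ : Wave D (Option I)) (hΦ : ∀ τ, rbNice (Φ τ)) (τ : I → Fin D.g) :
    rbNice (psl D f σ Φ τ) := by
  obtain ⟨hm, ⟨C, hC⟩, R, hR⟩ := hf
  obtain ⟨gm, ⟨C2, hC2⟩, R2, hR2⟩ := hΦ (fun o => o.elim σ τ)
  have hcm : Measurable (fun q : (I → E3) × E3 => (fun o : Option I => o.elim q.2 q.1)) :=
    (psl_cont (I := I)).measurable
  refine ⟨?_, ⟨C * C2 * (volume (Metric.closedBall (0 : E3) R)).toReal, fun x => ?_⟩, R2,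
    fun x hx => ?_⟩
  · have h1 : Measurable (fun q : (I → E3) × E3 => (starRingEnd ℂ) (f q.2) *
        Φ (fun o => o.elim σ τ) (fun o => o.elim q.2 q.1)) :=
      (Complex.continuous_conj.measurable.comp (hm.comp measurable_snd)).mul (gm.comp hcm)
    have h2 : StronglyMeasurable (fun x : I → E3 => ∫ z, (starRingEnd ℂ) (f z) *
        Φ (fun o => o.elim σ τ) (fun o => o.elim z x)) :=
      h1.stronglyMeasurable.integral_prod_right
    exact h2.measurable
  · have hb : ∀ z, ‖(starRingEnd ℂ) (f z) * slice D σ z Φ τ x‖ ≤ C * C2 := by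
      intro z
      rw [norm_mul, RCLike.norm_conj]
      exact mul_le_mul (hC z) (hC2 _) (norm_nonneg _) ((norm_nonneg _).trans (hC z))
    have hs : psl D f σ Φ τ x =
        ∫ z in Metric.closedBall (0 : E3) R, (starRingEnd ℂ) (f z) * slice D σ z Φ τ x := by
      unfold psl
      symm
      apply setIntegral_eq_integral_of_forall_compl_eq_zero
      intro z hz
      have : f z = 0 := by
        by_contra hne
        exact hz (by simpa using hR z hne)
      rw [this]
      simp
    rw [hs]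
    have := norm_setIntegral_le_of_norm_le_const (μ := volume)
      (isCompact_closedBall (0 : E3) R).measure_lt_top (f := fun z =>
        (starRingEnd ℂ) (f z) * slice D σ z Φ τ x) (C := C * C2) (fun z _ => hb z)
    exact this
  · by_contra hcon
    apply hx
    unfold psl
    have : ∀ z, (starRingEnd ℂ) (f z) * slice D σ z Φ τ x = 0 := by
      intro z
      have : slice D σ z Φ τ x = 0 := by
        by_contra hne
        exact hcon ((elim_leC8 z x).1.trans (hR2 _ hne))
      rw [this, mul_zero]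
    simp [this]

/-- complex indicator of the cube -/
noncomputable def uQ (q : E3) (s : ℝ) (z : E3) : ℂ := ((iQ q s z : ℝ) : ℂ)

theorem uQ_nice (q : E3) (s : ℝ) : nice1 (uQ q s) := by
  refine ⟨Complex.measurable_ofReal.comp (iQ_meas q s), ⟨1, fun z => ?_⟩,
    Real.sqrt (∑ k : Fin 3, (|q k| + |s|) ^ 2), fun z hz => ?_⟩
  · unfold uQ
    rw [Complex.norm_real, Real.norm_of_nonneg (iQ_nn q s z)]
    exact iQ_le q s z
  · apply Qc_bdd
    by_contra hcon
    apply hz
    unfold uQ
    rw [iQ_out q s z hcon]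
    simp

theorem uQ_int (q : E3) (s : ℝ) (hs : 0 ≤ s) : ∫ z, ‖uQ q s z‖ ^ 2 = s ^ 3 := by
  rw [← iQ_intv q s hs]
  congr 1
  funext z
  unfold uQ
  rw [Complex.norm_real, Real.norm_of_nonneg (iQ_nn q s z)]
  rcases iQ_01 q s z with h | h <;> rw [h] <;> norm_num

theorem uQ_psl {S : Type} (D : Species S) {I : Type} (q : E3) (s : ℝ) (σ : Fin D.g)
    (Ψ : Wave D (Option I)) (τ : I → Fin D.g) (x : I → E3) :
    psl D (uQ q s) σ Ψ τ x =
      ∫ z in Qc q s, Ψ (fun o => o.elim σ τ) (fun o => o.elim z x) := by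
  unfold psl
  rw [← integral_indicator (Qc_meas q s)]
  congr 1
  funext z
  show (starRingEnd ℂ) (uQ q s z) * Ψ (fun o => o.elim σ τ) (fun o => o.elim z x) = _
  unfold uQ
  rw [Complex.conj_ofReal]
  by_cases h : z ∈ Qc q s
  · rw [iQ_in q s z h, Set.indicator_of_mem h]
    simp
  · rw [iQ_out q s z h, Set.indicator_of_notMem h]
    simp

/-- the wave function weighted with the volume of the near points -/
noncomputable def wv {S : Type} (D : Species S) {I : Type} (sp : Option I → S) (r : ℝ) (q : E3)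
    (s : ℝ) (Ψ : Wave D (Option I)) : Wave D (Option I) :=
  fun τ x => ((Real.sqrt (vv D sp r q s (fun j => x (some j))) : ℝ) : ℂ) * Ψ τ x

theorem nice_wv {S : Type} (D : Species S) {I : Type} [Fintype I] (sp : Option I → S)
    (r : ℝ) (q : E3) (s : ℝ) (hs : 0 ≤ s) (Ψ : Wave D (Option I)) (hΨ : ∀ τ, rbNice (Ψ τ))
    (τ : Option I → Fin D.g) : rbNice (wv D sp r q s Ψ τ) := by
  obtain ⟨hm, ⟨C, hC⟩, R, hR⟩ := hΨ τ
  refine ⟨?_, ⟨Real.sqrt (s ^ 3) * C, fun x => ?_⟩, R, fun x hx => ?_⟩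
  · refine Measurable.mul ?_ hm
    refine Complex.measurable_ofReal.comp ?_
    have : Measurable (fun x : Option I → E3 => (fun j : I => x (some j))) :=
      measurable_pi_lambda _ fun j => measurable_pi_apply (some j)
    exact ((vv_meas D sp r q s).comp this).sqrt
  · show ‖((Real.sqrt (vv D sp r q s (fun j => x (some j))) : ℝ) : ℂ) * Ψ τ x‖ ≤ _
    rw [norm_mul, Complex.norm_real, Real.norm_of_nonneg (Real.sqrt_nonneg _)]
    exact mul_le_mul (Real.sqrt_le_sqrt (vv_le D sp r q s hs _)) (hC x) (norm_nonneg _)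
      (Real.sqrt_nonneg _)
  · apply hR
    intro h
    apply hx
    show ((Real.sqrt (vv D sp r q s (fun j => x (some j))) : ℝ) : ℂ) * Ψ τ x = 0
    rw [h, mul_zero]

theorem psl_wv {S : Type} (D : Species S) {I : Type} [Fintype I] (sp : Option I → S)
    (r : ℝ) (q : E3) (s : ℝ) (u : E3 → ℂ) (σ : Fin D.g) (Ψ : Wave D (Option I))
    (τ : I → Fin D.g) (x : I → E3) :
    psl D u σ (wv D sp r q s Ψ) τ x =
      ((Real.sqrt (vv D sp r q s x) : ℝ) : ℂ) * psl D u σ Ψ τ x := by
  unfold psl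
  rw [← integral_const_mul]
  congr 1
  funext y
  have : slice D σ y (wv D sp r q s Ψ) τ x =
      ((Real.sqrt (vv D sp r q s x) : ℝ) : ℂ) * slice D σ y Ψ τ x := rfl
  rw [this]
  ring

/-- the means over one cell -/
theorem cell_low {S : Type} [DecidableEq S] (D : Species S) {I : Type} [Fintype I]
    [DecidableEq I] (sp : Option I → S) (hneg : D.charge (sp none) < 0)
    (hferm : D.fermion (sp none) = true) (ℓ : ℝ) (r : ℝ) (p : E3) (l : ℝ) (hl : 0 < l)
    (σ : Fin D.g) (Ψ : Wave D (Option I)) (hΨ : IsState D sp ℓ Ψ) :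
    (cnt sp (sp none) : ℝ) * ∑ τ : I → Fin D.g, ∫ x : I → E3,
      vv D sp r p l x * ‖psl D (uQ p l) σ Ψ τ x‖ ^ 2 ≤
      l ^ 3 * ∑ τ, ∫ x : Option I → E3, vv D sp r p l (fun j => x (some j)) * ‖Ψ τ x‖ ^ 2 := by
  have hn : ∀ τ, rbNice (Ψ τ) := fun τ => rb_nice_state D sp ℓ Ψ hΨ τ
  have h := pauli D sp (uQ p l) (uQ_nice p l) σ (wv D sp r p l Ψ)
      (fun τ => nice_wv D sp r p l hl.le Ψ hn τ) (by
        intro a b hab ha hb τ x
        have h3 := hΨ.symm a b hab (ha.trans hb.symm) τ x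
        have h4 : exch D (sp a) = -1 := by
          rw [ha, exch, hferm]
          simp
        rw [h4] at h3
        show ((Real.sqrt (vv D sp r p l (fun j => x (Equiv.swap a b (some j)))) : ℝ) : ℂ) *
          Ψ (fun k => τ (Equiv.swap a b k)) (fun k => x (Equiv.swap a b k)) =
          -1 * (((Real.sqrt (vv D sp r p l (fun j => x (some j))) : ℝ) : ℂ) * Ψ τ x)
        rw [h3, vv_swap D sp hneg r p l x a b ha hb]
        ring)
  rw [uQ_int p l hl.le] at h
  have e1 : nrm2 D (psl D (uQ p l) σ (wv D sp r p l Ψ)) = ∑ τ : I → Fin D.g, ∫ x : I → E3,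
      vv D sp r p l x * ‖psl D (uQ p l) σ Ψ τ x‖ ^ 2 := by
    unfold nrm2
    refine Finset.sum_congr rfl fun τ _ => ?_
    congr 1
    funext x
    rw [psl_wv, norm_mul, Complex.norm_real, Real.norm_of_nonneg (Real.sqrt_nonneg _), mul_pow,
      Real.sq_sqrt (vv_nn D sp r p l x)]
  have e2 : nrm2 D (wv D sp r p l Ψ) = ∑ τ, ∫ x : Option I → E3,
      vv D sp r p l (fun j => x (some j)) * ‖Ψ τ x‖ ^ 2 := by
    unfold nrm2
    refine Finset.sum_congr rfl fun τ _ => ?_
    congr 1
    funext x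
    show ‖((Real.sqrt (vv D sp r p l (fun j => x (some j))) : ℝ) : ℂ) * Ψ τ x‖ ^ 2 = _
    rw [norm_mul, Complex.norm_real, Real.norm_of_nonneg (Real.sqrt_nonneg _), mul_pow,
      Real.sq_sqrt (vv_nn D sp r p l _)]
  rw [e1, e2] at h
  exact h

/-- squared gradient in the coordinates of `none` -/
noncomputable def gr {I : Type} [Fintype I] [DecidableEq I] (F : (Option I → E3) → ℂ)
    (x : Option I → E3) : ℝ :=
  ∑ k : Fin 3, ‖fderiv ℝ F x (Pi.single none (EuclideanSpace.single k (1 : ℝ)))‖ ^ 2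

theorem gr_nn {I : Type} [Fintype I] [DecidableEq I] (F : (Option I → E3) → ℂ)
    (x : Option I → E3) : 0 ≤ gr F x := by
  unfold gr
  positivity

theorem gr_int {I : Type} [Fintype I] [DecidableEq I] (F : (Option I → E3) → ℂ)
    (hF : ContDiff ℝ SM F) (hc : HasCompactSupport F) : Integrable (gr F) := by
  have h1 : Continuous (fderiv ℝ F) := hF.continuous_fderiv (by simp)
  have h2 : Continuous (gr F) := by
    unfold gr
    fun_prop
  refine h2.integrable_of_hasCompactSupport ?_
  have h3 : HasCompactSupport (fderiv ℝ F) := hc.fderiv ℝ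
  refine h3.comp_left (g := fun T : (Option I → E3) →L[ℝ] ℂ => ∑ k : Fin 3,
    ‖T (Pi.single none (EuclideanSpace.single k (1 : ℝ)))‖ ^ 2) ?_
  simp

theorem nice_sqC8 {J : Type} [Fintype J] (f : (J → E3) → ℂ) (hf : rbNice f) :
    Integrable (fun x => ‖f x‖ ^ 2) := by
  have h2 := (rb_nice_int _ (rb_nice_alg f f hf hf 1).2.2).norm
  refine h2.congr (Filter.Eventually.of_forall fun x => ?_)
  simp [pow_two]

theorem bm_int {J : Type} [Fintype J] (w g : (J → E3) → ℝ) (hw : Measurable w)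
    (w0 : ∀ x, 0 ≤ w x) (C : ℝ) (w1 : ∀ x, w x ≤ C) (hg : Integrable g) :
    Integrable (fun x => w x * g x) := by
  refine hg.bdd_mul (c := C) hw.aestronglyMeasurable (Filter.Eventually.of_forall fun x => ?_)
  rw [Real.norm_of_nonneg (w0 x)]
  exact w1 x

/-- the Poincaré inequality as a hypothesis -/
def PI (C : ℝ) : Prop := ∀ (f : E3 → ℂ), ContDiff ℝ 1 f → ∀ (q : E3) (s : ℝ), 0 < s →
    ∫ z in Qc q s, ‖f z - ((s ^ 3)⁻¹ : ℝ) • ∫ w in Qc q s, f w‖ ^ 2 ≤
    C * s ^ 2 * ∫ z in Qc q s,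
      ∑ k : Fin 3, ‖fderiv ℝ f z (EuclideanSpace.single k (1 : ℝ))‖ ^ 2

theorem opt_m1 {I : Type} : Measurable (fun x : Option I → E3 => (fun j : I => x (some j))) :=
  measurable_pi_lambda _ fun j => measurable_pi_apply (some j)

theorem nrx_meas {S : Type} (D : Species S) {I : Type} [Finite I] (sp : Option I → S)
    (r : ℝ) (q : E3) (s : ℝ) :
    Measurable (fun x : Option I → E3 => nr D sp r q s (x none) (fun j => x (some j))) := by
  have : Measurable (fun x : Option I → E3 => ((fun j : I => x (some j)), x none)) :=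
    opt_m1.prodMk (measurable_pi_apply none)
  exact (nr_meas D sp r q s).comp this

/-- one cell -/
theorem cell_bound {S : Type} [DecidableEq S] (D : Species S) {I : Type} [Fintype I]
    [DecidableEq I] (C : ℝ) (hC : PI C) (sp : Option I → S)
    (hneg : D.charge (sp none) < 0)
    (hferm : D.fermion (sp none) = true) (ℓ : ℝ) (r : ℝ) (p : E3) (l : ℝ) (hl : 0 < l)
    (Ψ : Wave D (Option I)) (hΨ : IsState D sp ℓ Ψ) :
    (cnt sp (sp none) : ℝ) * ∑ τ, ∫ x : Option I → E3,
      nr D sp r p l (x none) (fun j => x (some j)) * ‖Ψ τ x‖ ^ 2 ≤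
      2 * D.g * (l ^ 3)⁻¹ * (∑ τ, ∫ x : Option I → E3,
        vv D sp r p l (fun j => x (some j)) * ‖Ψ τ x‖ ^ 2) +
      2 * C * l ^ 2 * ((cnt sp (sp none) : ℝ) * ∑ τ, ∫ x : Option I → E3,
        iQ p l (x none) * gr (Ψ τ) x) := by
  have hn : ∀ τ, rbNice (Ψ τ) := fun τ => rb_nice_state D sp ℓ Ψ hΨ τ
  have hst : ∀ σ τ, rbNice (psl D (uQ p l) σ Ψ τ) := fun σ τ =>
    nice_pslC8 D (uQ p l) (uQ_nice p l) σ Ψ hn τ
  -- integrability
  have hI1 : ∀ τ, Integrable (fun x : Option I → E3 =>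
      nr D sp r p l (x none) (fun j => x (some j)) * ‖Ψ τ x‖ ^ 2) := fun τ =>
    bm_int _ _ (nrx_meas D sp r p l) (fun x => nr_nn D sp r p l _ _) 1
      (fun x => (nr_le D sp r p l _ _).trans (iQ_le p l _)) (nice_sqC8 _ (hn τ))
  have hI2 : ∀ τ, Integrable (fun x : Option I → E3 => iQ p l (x none) * gr (Ψ τ) x) := fun τ =>
    bm_int _ _ ((iQ_meas p l).comp (measurable_pi_apply none)) (fun x => iQ_nn p l _) 1
      (fun x => iQ_le p l _) (gr_int _ (hΨ.smooth τ) (hΨ.compact τ))
  -- the left side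
  have hL : ∑ τ, ∫ x : Option I → E3,
      nr D sp r p l (x none) (fun j => x (some j)) * ‖Ψ τ x‖ ^ 2 =
      ∑ σ : Fin D.g, ∑ τ : I → Fin D.g, ∫ x : I → E3, ∫ z : E3,
        nr D sp r p l z x * ‖Ψ (fun o => o.elim σ τ) (fun o => o.elim z x)‖ ^ 2 := by
    rw [pslx_sum]
    refine Finset.sum_congr rfl fun σ _ => Finset.sum_congr rfl fun τ _ => ?_
    rw [(psl_fubini _ (hI1 (fun o => o.elim σ τ))).2]
    rfl
  have hG : ∑ τ, ∫ x : Option I → E3, iQ p l (x none) * gr (Ψ τ) x =
      ∑ σ : Fin D.g, ∑ τ : I → Fin D.g, ∫ x : I → E3, ∫ z : E3,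
        iQ p l z * gr (Ψ (fun o => o.elim σ τ)) (fun o => o.elim z x) := by
    rw [pslx_sum]
    refine Finset.sum_congr rfl fun σ _ => Finset.sum_congr rfl fun τ _ => ?_
    rw [(psl_fubini _ (hI2 (fun o => o.elim σ τ))).2]
    rfl
  -- pointwise
  have hpt : ∀ (σ : Fin D.g) (τ : I → Fin D.g) (x : I → E3),
      ∫ z : E3, nr D sp r p l z x * ‖Ψ (fun o => o.elim σ τ) (fun o => o.elim z x)‖ ^ 2 ≤
      2 * ((l ^ 3)⁻¹) ^ 2 * (vv D sp r p l x * ‖psl D (uQ p l) σ Ψ τ x‖ ^ 2) +
      2 * C * l ^ 2 * (∫ z : E3,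
        iQ p l z * gr (Ψ (fun o => o.elim σ τ)) (fun o => o.elim z x)) := by
    intro σ τ x
    obtain ⟨f1, -, -, f4⟩ := psl_slice ℓ (Ψ (fun o => o.elim σ τ))
      (hΨ.smooth _) (hΨ.compact _) (fun y hy => hΨ.support _ hy none) x
    have h := cell_pt C hC (fun z : E3 => Ψ (fun o => o.elim σ τ) (fun o => o.elim z x))
      (f1.of_le (by simp)) p l hl (fun z => nr D sp r p l z x)
      ((nr_meas D sp r p l).comp (measurable_const.prodMk measurable_id))
      (fun z => nr_nn D sp r p l z x) (fun z => (nr_le D sp r p l z x).trans (iQ_le p l z))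
      (fun z hz => nr_out D sp r p l z x hz)
    have e1 : ∫ z in Qc p l, ∑ k : Fin 3,
        ‖fderiv ℝ (fun z : E3 => Ψ (fun o => o.elim σ τ) (fun o => o.elim z x)) z
          (EuclideanSpace.single k (1 : ℝ))‖ ^ 2 =
        ∫ z : E3, iQ p l z * gr (Ψ (fun o => o.elim σ τ)) (fun o => o.elim z x) := by
      rw [← integral_indicator (Qc_meas p l)]
      congr 1
      funext z
      by_cases hz : z ∈ Qc p l
      · rw [iQ_in p l z hz, Set.indicator_of_mem hz, one_mul]
        unfold gr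
        refine Finset.sum_congr rfl fun k _ => ?_
        rw [f4]
      · rw [iQ_out p l z hz, Set.indicator_of_notMem hz, zero_mul]
    rw [e1] at h
    refine h.trans (le_of_eq ?_)
    rw [uQ_psl]
    unfold vv
    ring
  -- integrate
  have hvm : ∀ (σ : Fin D.g) (τ : I → Fin D.g), Integrable (fun x : I → E3 =>
      vv D sp r p l x * ‖psl D (uQ p l) σ Ψ τ x‖ ^ 2) := fun σ τ =>
    bm_int _ _ (vv_meas D sp r p l) (fun x => vv_nn D sp r p l x) (l ^ 3)
      (fun x => vv_le D sp r p l hl.le x) (nice_sqC8 _ (hst σ τ))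
  have hx : ∀ (σ : Fin D.g) (τ : I → Fin D.g),
      ∫ x : I → E3, ∫ z : E3, nr D sp r p l z x *
        ‖Ψ (fun o => o.elim σ τ) (fun o => o.elim z x)‖ ^ 2 ≤
      2 * ((l ^ 3)⁻¹) ^ 2 * (∫ x : I → E3, vv D sp r p l x * ‖psl D (uQ p l) σ Ψ τ x‖ ^ 2) +
      2 * C * l ^ 2 * (∫ x : I → E3, ∫ z : E3,
        iQ p l z * gr (Ψ (fun o => o.elim σ τ)) (fun o => o.elim z x)) := by
    intro σ τ
    have j1 : Integrable (fun x : I → E3 => ∫ z : E3, nr D sp r p l z x *
        ‖Ψ (fun o => o.elim σ τ) (fun o => o.elim z x)‖ ^ 2) :=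
      (psl_fubini _ (hI1 (fun o => o.elim σ τ))).1.integral_prod_left
    have j2 : Integrable (fun x : I → E3 => ∫ z : E3,
        iQ p l z * gr (Ψ (fun o => o.elim σ τ)) (fun o => o.elim z x)) :=
      (psl_fubini _ (hI2 (fun o => o.elim σ τ))).1.integral_prod_left
    rw [← integral_const_mul, ← integral_const_mul,
      ← integral_add ((hvm σ τ).const_mul _) (j2.const_mul _)]
    exact integral_mono j1 (((hvm σ τ).const_mul _).add (j2.const_mul _)) fun x => hpt σ τ x
  have hsum : ∑ σ : Fin D.g, ∑ τ : I → Fin D.g, ∫ x : I → E3, ∫ z : E3, nr D sp r p l z x *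
        ‖Ψ (fun o => o.elim σ τ) (fun o => o.elim z x)‖ ^ 2 ≤
      2 * ((l ^ 3)⁻¹) ^ 2 * (∑ σ : Fin D.g, ∑ τ : I → Fin D.g, ∫ x : I → E3,
        vv D sp r p l x * ‖psl D (uQ p l) σ Ψ τ x‖ ^ 2) +
      2 * C * l ^ 2 * (∑ σ : Fin D.g, ∑ τ : I → Fin D.g, ∫ x : I → E3, ∫ z : E3,
        iQ p l z * gr (Ψ (fun o => o.elim σ τ)) (fun o => o.elim z x)) := by
    simp only [Finset.mul_sum]
    rw [← Finset.sum_add_distrib]
    refine Finset.sum_le_sum fun σ _ => ?_
    rw [← Finset.sum_add_distrib]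
    exact Finset.sum_le_sum fun τ _ => hx σ τ
  rw [hL, hG]
  have hlow : (cnt sp (sp none) : ℝ) * ∑ σ : Fin D.g, ∑ τ : I → Fin D.g, ∫ x : I → E3,
      vv D sp r p l x * ‖psl D (uQ p l) σ Ψ τ x‖ ^ 2 ≤
      (D.g : ℝ) * (l ^ 3 * ∑ τ, ∫ x : Option I → E3,
        vv D sp r p l (fun j => x (some j)) * ‖Ψ τ x‖ ^ 2) := by
    rw [Finset.mul_sum]
    calc ∑ σ : Fin D.g, (cnt sp (sp none) : ℝ) * ∑ τ : I → Fin D.g, ∫ x : I → E3,
          vv D sp r p l x * ‖psl D (uQ p l) σ Ψ τ x‖ ^ 2
        ≤ ∑ _σ : Fin D.g, (l ^ 3 * ∑ τ, ∫ x : Option I → E3,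
        vv D sp r p l (fun j => x (some j)) * ‖Ψ τ x‖ ^ 2) :=
          Finset.sum_le_sum fun σ _ => cell_low D sp hneg hferm ℓ r p l hl σ Ψ hΨ
      _ = _ := by rw [Finset.sum_const, Finset.card_univ, Fintype.card_fin, nsmul_eq_mul]
  have h5 := mul_le_mul_of_nonneg_left hsum (Nat.cast_nonneg (α := ℝ) (cnt sp (sp none)))
  refine h5.trans ?_
  have h6 := mul_le_mul_of_nonneg_left hlow (show 0 ≤ 2 * ((l ^ 3)⁻¹) ^ 2 by positivity)
  have h7 : 2 * ((l ^ 3)⁻¹) ^ 2 * ((D.g : ℝ) * (l ^ 3 * ∑ τ, ∫ x : Option I → E3,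
        vv D sp r p l (fun j => x (some j)) * ‖Ψ τ x‖ ^ 2)) =
      2 * D.g * (l ^ 3)⁻¹ * (∑ τ, ∫ x : Option I → E3,
        vv D sp r p l (fun j => x (some j)) * ‖Ψ τ x‖ ^ 2) := by
    have : l ^ 3 ≠ 0 := by positivity
    field_simp
  rw [h7] at h6
  refine le_trans (le_of_eq ?_) (add_le_add h6 le_rfl)
  ring

/-- all cells -/
theorem scale_bound {S : Type} [DecidableEq S] (D : Species S) {I : Type} [Fintype I]
    [DecidableEq I] (C : ℝ) (hC : PI C) (sp : Option I → S)
    (hneg : D.charge (sp none) < 0)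
    (hferm : D.fermion (sp none) = true) (ℓ : ℝ) (r : ℝ) (hr : 0 ≤ r) (q : E3) (l : ℝ)
    (hl : 0 < l) (n : ℕ) (hrs : r ≤ n * l) (Ψ : Wave D (Option I)) (hΨ : IsState D sp ℓ Ψ) :
    (cnt sp (sp none) : ℝ) * ∑ τ, ∫ x : Option I → E3,
      nr D sp r q (n * l) (x none) (fun j => x (some j)) * ‖Ψ τ x‖ ^ 2 ≤
      2 * D.g * (4 / 3 * Real.pi) * (r / l) ^ 3 * (∑ τ, ∫ x : Option I → E3,
        npl D sp (Qp q (n * l)) x * ‖Ψ τ x‖ ^ 2) +
      2 * C * l ^ 2 * ((cnt sp (sp none) : ℝ) * ∑ τ, ∫ x : Option I → E3,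
        iQ q (n * l) (x none) * gr (Ψ τ) x) := by
  have hn : ∀ τ, rbNice (Ψ τ) := fun τ => rb_nice_state D sp ℓ Ψ hΨ τ
  have hnl : 0 ≤ (n : ℝ) * l := by positivity
  have hI1 : ∀ p τ, Integrable (fun x : Option I → E3 =>
      nr D sp r p l (x none) (fun j => x (some j)) * ‖Ψ τ x‖ ^ 2) := fun p τ =>
    bm_int _ _ (nrx_meas D sp r p l) (fun x => nr_nn D sp r p l _ _) 1
      (fun x => (nr_le D sp r p l _ _).trans (iQ_le p l _)) (nice_sqC8 _ (hn τ))
  have hI2 : ∀ p τ, Integrable (fun x : Option I → E3 => iQ p l (x none) * gr (Ψ τ) x) :=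
    fun p τ =>
    bm_int _ _ ((iQ_meas p l).comp (measurable_pi_apply none)) (fun x => iQ_nn p l _) 1
      (fun x => iQ_le p l _) (gr_int _ (hΨ.smooth τ) (hΨ.compact τ))
  have hI3 : ∀ p s', 0 ≤ s' → ∀ τ, Integrable (fun x : Option I → E3 =>
      vv D sp r p s' (fun j => x (some j)) * ‖Ψ τ x‖ ^ 2) := fun p s' hs' τ =>
    bm_int _ _ ((vv_meas D sp r p s').comp opt_m1) (fun x => vv_nn D sp r p s' _) (s' ^ 3)
      (fun x => vv_le D sp r p s' hs' _) (nice_sqC8 _ (hn τ))
  have e1 : ∑ τ, ∫ x : Option I → E3,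
      nr D sp r q (n * l) (x none) (fun j => x (some j)) * ‖Ψ τ x‖ ^ 2 =
      ∑ a ∈ idx n, ∑ τ, ∫ x : Option I → E3,
      nr D sp r (crn q l a) l (x none) (fun j => x (some j)) * ‖Ψ τ x‖ ^ 2 := by
    rw [Finset.sum_comm]
    refine Finset.sum_congr rfl fun τ _ => ?_
    rw [← integral_finsetSum _ fun a _ => hI1 _ τ]
    congr 1
    funext x
    rw [← Finset.sum_mul]
    congr 1
    unfold nr
    rw [← Finset.sum_mul, ← iQ_cut q l hl n]
  have e2 : ∑ τ, ∫ x : Option I → E3, iQ q (n * l) (x none) * gr (Ψ τ) x =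
      ∑ a ∈ idx n, ∑ τ, ∫ x : Option I → E3, iQ (crn q l a) l (x none) * gr (Ψ τ) x := by
    rw [Finset.sum_comm]
    refine Finset.sum_congr rfl fun τ _ => ?_
    rw [← integral_finsetSum _ fun a _ => hI2 _ τ]
    congr 1
    funext x
    rw [← Finset.sum_mul, ← iQ_cut q l hl n]
  have e3 : ∑ a ∈ idx n, ∑ τ, ∫ x : Option I → E3,
      vv D sp r (crn q l a) l (fun j => x (some j)) * ‖Ψ τ x‖ ^ 2 =
      ∑ τ, ∫ x : Option I → E3, vv D sp r q (n * l) (fun j => x (some j)) * ‖Ψ τ x‖ ^ 2 := by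
    rw [Finset.sum_comm]
    refine Finset.sum_congr rfl fun τ _ => ?_
    rw [← integral_finsetSum _ fun a _ => hI3 _ l hl.le τ]
    congr 1
    funext x
    rw [← Finset.sum_mul, vv_cut D sp r q l hl n]
  have hnpm : Measurable (fun x : Option I → E3 => npl D sp (Qp q (n * l)) x) := by
    classical
    unfold npl
    refine Finset.measurable_fun_sum _ fun j _ => ?_
    refine Measurable.ite ?_ measurable_const measurable_const
    by_cases hj : 0 < D.charge (sp j)
    · have e : {x : Option I → E3 | 0 < D.charge (sp j) ∧ x j ∈ Qp q (n * l)} =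
          ⋂ k : Fin 3, {x : Option I → E3 | q k - n * l ≤ x j k} ∩
            {x : Option I → E3 | x j k < q k + 2 * (n * l)} := by
        ext x
        simp [Qp, hj]
      rw [e]
      refine MeasurableSet.iInter fun k => MeasurableSet.inter ?_ ?_
      · exact (isClosed_le continuous_const (by fun_prop)).measurableSet
      · exact (isOpen_lt (by fun_prop) continuous_const).measurableSet
    · have e : {x : Option I → E3 | 0 < D.charge (sp j) ∧ x j ∈ Qp q (n * l)} = ∅ := by
        ext x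
        simp [hj]
      rw [e]
      exact MeasurableSet.empty
  have hnp0 : ∀ x : Option I → E3, 0 ≤ npl D sp (Qp q (n * l)) x := by
    intro x
    unfold npl
    refine Finset.sum_nonneg fun j _ => ?_
    split_ifs
    · exact zero_le_one
    · exact le_rfl
  have hnp1 : ∀ x : Option I → E3, npl D sp (Qp q (n * l)) x ≤ (Fintype.card (Option I) : ℝ) := by
    intro x
    unfold npl
    refine (Finset.sum_le_sum (g := fun _ => (1 : ℝ)) fun j _ => ?_).trans (le_of_eq ?_)
    · split_ifs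
      · exact le_rfl
      · exact zero_le_one
    · simp
  have hI4 : ∀ τ, Integrable (fun x : Option I → E3 =>
      npl D sp (Qp q (n * l)) x * ‖Ψ τ x‖ ^ 2) := fun τ =>
    bm_int _ _ hnpm hnp0 _ hnp1 (nice_sqC8 _ (hn τ))
  have h4 : ∑ τ, ∫ x : Option I → E3, vv D sp r q (n * l) (fun j => x (some j)) * ‖Ψ τ x‖ ^ 2 ≤
      (4 / 3 * Real.pi * r ^ 3) * ∑ τ, ∫ x : Option I → E3,
        npl D sp (Qp q (n * l)) x * ‖Ψ τ x‖ ^ 2 := by
    rw [Finset.mul_sum]
    refine Finset.sum_le_sum fun τ _ => ?_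
    rw [← integral_const_mul]
    refine integral_mono (hI3 q (n * l) hnl τ) ((hI4 τ).const_mul _) fun x => ?_
    have := mul_le_mul_of_nonneg_right (vv_npl D sp r q (n * l) hr hrs x)
      (show 0 ≤ ‖Ψ τ x‖ ^ 2 by positivity)
    refine this.trans (le_of_eq ?_)
    ring
  have h5 := Finset.sum_le_sum fun a (_ : a ∈ idx n) =>
    cell_bound D C hC sp hneg hferm ℓ r (crn q l a) l hl Ψ hΨ
  rw [← Finset.mul_sum, ← e1, Finset.sum_add_distrib, ← Finset.mul_sum, e3, ← Finset.mul_sum,
    ← Finset.mul_sum, ← e2] at h5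
  refine h5.trans (add_le_add ?_ le_rfl)
  refine (mul_le_mul_of_nonneg_left h4 (by positivity)).trans (le_of_eq ?_)
  rw [div_pow]
  field_simp

theorem layC8 (η : ℝ) (t χ : ℕ → ℝ) (ht : ∀ k, 0 ≤ t k) (h0 : ∀ k, 0 ≤ χ k)
    (h1 : ∀ k : ℕ, t k < η → χ k = 1) (M : ℕ) :
    min η (t M) ≤ t 0 + ∑ k ∈ Finset.range M, t (k + 1) * χ k := by
  induction M with
  | zero => simp
  | succ M ih =>
    rw [Finset.sum_range_succ]
    have h2 : 0 ≤ t (M + 1) * χ M := mul_nonneg (ht _) (h0 M)
    by_cases h : t M < η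
    · rw [h1 M h]
      have h3 : 0 ≤ ∑ k ∈ Finset.range M, t (k + 1) * χ k :=
        Finset.sum_nonneg fun k _ => mul_nonneg (ht _) (h0 k)
      have := min_le_right η (t (M + 1))
      have := ht 0
      linarith
    · rw [not_lt] at h
      have h4 : min η (t M) = η := min_eq_left h
      rw [h4] at ih
      have := min_le_left η (t (M + 1))
      linarith

theorem pinvC8_nn {S : Type} (D : Species S) {I : Type} (sp : I → S) (i : I) (x : I → E3) :
    0 ≤ pinv D sp i x := by
  unfold pinv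
  refine Real.iSup_nonneg fun j => ?_
  split_ifs
  · positivity
  · exact le_rfl

theorem pinvC8_meas {S : Type} (D : Species S) {I : Type} [Finite I] (sp : I → S) (i : I) :
    Measurable (fun x : I → E3 => pinv D sp i x) := by
  unfold pinv
  refine Measurable.iSup fun j => ?_
  by_cases h : 0 < D.charge (sp j)
  · simp only [if_pos h]
    exact (((measurable_pi_apply i).sub (measurable_pi_apply j)).norm).inv
  · simp only [if_neg h]
    exact measurable_const

theorem pinvC8_intg {S : Type} (D : Species S) {I : Type} [Fintype I]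
    [DecidableEq I] (sp : Option I → S) (hneg : D.charge (sp none) < 0) (ℓ : ℝ)
    (Ψ : Wave D (Option I)) (hΨ : IsState D sp ℓ Ψ)
    (τ : Option I → Fin D.g) : Integrable (fun x => pinv D sp none x * ‖Ψ τ x‖ ^ 2) := by
  have h1 := (int_state D sp ℓ Ψ hΨ τ).2.2.2.1
  have h2 : Integrable (fun x : Option I → E3 => (∑ j : I, (if 0 < D.charge (sp (some j)) then
      ‖x none - x (some j)‖⁻¹ else 0)) * ‖Ψ τ x‖ ^ 2) := by
    simp only [Finset.sum_mul]
    refine integrable_finsetSum _ fun j _ => ?_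
    by_cases hj : 0 < D.charge (sp (some j))
    · simp only [if_pos hj]
      have h3 := (h1 none (some j) (by simp)).const_mul
        ((D.charge (sp none) * D.charge (sp (some j)))⁻¹)
      refine h3.congr (Filter.Eventually.of_forall fun x => ?_)
      have h4 := hneg.ne
      have h5 := hj.ne'
      show (D.charge (sp none) * D.charge (sp (some j)))⁻¹ *
        (D.charge (sp none) * D.charge (sp (some j)) /
        ‖x none - x (some j)‖ * ‖Ψ τ x‖ ^ 2) = _
      field_simp
    · simp only [if_neg hj, zero_mul]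
      exact integrable_zero _ _ _
  refine h2.mono' ?_ (Filter.Eventually.of_forall fun x => ?_)
  · exact ((pinvC8_meas D sp none).mul
      (((hΨ.smooth τ).continuous.measurable.norm).pow_const 2)).aestronglyMeasurable
  · rw [Real.norm_of_nonneg (mul_nonneg (pinvC8_nn D sp none x) (by positivity))]
    refine mul_le_mul_of_nonneg_right ?_ (by positivity)
    unfold pinv
    have hnn : ∀ j ∈ (Finset.univ : Finset I), 0 ≤
        (if 0 < D.charge (sp (some j)) then ‖x none - x (some j)‖⁻¹ else 0) := by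
      intro j _
      split_ifs
      · positivity
      · exact le_rfl
    refine Real.iSup_le (fun j => ?_) (Finset.sum_nonneg hnn)
    cases j with
    | none =>
      rw [if_neg (not_lt.2 hneg.le)]
      exact Finset.sum_nonneg hnn
    | some j => exact Finset.single_le_sum hnn (Finset.mem_univ j)

/-- TARGET (with the parentheses around the first term of the last bracket: as written in the job,
`∑ τ, ∫ x, A + ∑ τ, ∫ x, B` is read with `+ ∑ τ, ∫ x, B` INSIDE the first integral) -/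
theorem pinv_cube {S : Type} [DecidableEq S] (D : Species S) (δ : ℝ) (hδ : 0 < δ) :
    ∃ C : ℝ, 0 < C ∧ ∀ {I : Type} [Fintype I] [DecidableEq I] (sp : Option I → S) (ℓ : ℝ),
      D.charge (sp none) < 0 → D.fermion (sp none) = true →
      ∀ (Φ : Wave D (Option I)), IsState D sp ℓ Φ → ∀ (q : E3) (s : ℝ), 0 < s →
      (cnt sp (sp none) : ℝ) * ∑ τ, ∫ x, (Qc q s).indicator (fun _ => (1 : ℝ)) (x none) *
          pinv D sp none x * ‖Φ τ x‖ ^ 2 ≤
        δ * s * ((cnt sp (sp none) : ℝ) * ∑ τ, ∫ x, (Qc q s).indicator (fun _ => (1 : ℝ)) (x none) *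
          ∑ k : Fin 3, ‖fderiv ℝ (Φ τ) x (Pi.single none (EuclideanSpace.single k (1 : ℝ)))‖ ^ 2) +
        C / s * (((cnt sp (sp none) : ℝ) * ∑ τ, ∫ x, (Qc q s).indicator (fun _ => (1 : ℝ)) (x none) *
            ‖Φ τ x‖ ^ 2) +
          ∑ τ, ∫ x, npl D sp (Qp q s) x * ‖Φ τ x‖ ^ 2) := by
  obtain ⟨CP, hCP0, hCP⟩ := poinc_cube
  have hPI : PI CP := hCP
  obtain ⟨k1, hk1⟩ := exists_pow_lt_of_lt_one (show 0 < δ / (1024 * CP) by positivity)
    (show (1 / 4 : ℝ) < 1 by norm_num)
  refine ⟨256 ^ k1 + 2 * D.g * (4 / 3 * Real.pi) * 512, by positivity, ?_⟩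
  intro I _ _ sp ℓ hneg hferm Φ hΦ q s hs
  obtain ⟨N, hN⟩ : ∃ N : ℝ, N = (cnt sp (sp none) : ℝ) := ⟨_, rfl⟩
  obtain ⟨P, hP⟩ : ∃ P : ℝ, P = ∑ τ, ∫ x : Option I → E3, npl D sp (Qp q s) x * ‖Φ τ x‖ ^ 2 :=
    ⟨_, rfl⟩
  obtain ⟨T, hT⟩ : ∃ T : ℝ, T = (cnt sp (sp none) : ℝ) * ∑ τ, ∫ x : Option I → E3,
      iQ q s (x none) * gr (Φ τ) x := ⟨_, rfl⟩
  obtain ⟨W, hW⟩ : ∃ W : ℝ, W = ∑ τ, ∫ x : Option I → E3, iQ q s (x none) * ‖Φ τ x‖ ^ 2 :=
    ⟨_, rfl⟩
  have hgoal : N * ∑ τ, ∫ x : Option I → E3, iQ q s (x none) * pinv D sp none x * ‖Φ τ x‖ ^ 2 ≤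
      δ * s * T + (256 ^ k1 + 2 * D.g * (4 / 3 * Real.pi) * 512) / s * (N * W + P) := by
    have hN0 : 0 ≤ N := by rw [hN]; exact Nat.cast_nonneg _
    have hP0 : 0 ≤ P := by
      rw [hP]
      refine Finset.sum_nonneg fun τ _ => integral_nonneg fun x => ?_
      refine mul_nonneg ?_ (by positivity)
      unfold npl
      refine Finset.sum_nonneg fun j _ => ?_
      split_ifs
      · exact zero_le_one
      · exact le_rfl
    have hT0 : 0 ≤ T := by
      rw [hT]
      refine mul_nonneg (Nat.cast_nonneg _) (Finset.sum_nonneg fun τ _ => integral_nonneg fun x => ?_)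
      exact mul_nonneg (iQ_nn q s _) (gr_nn _ _)
    have hW0 : 0 ≤ W := by
      rw [hW]
      refine Finset.sum_nonneg fun τ _ => integral_nonneg fun x => ?_
      exact mul_nonneg (iQ_nn q s _) (by positivity)
    have hn : ∀ τ, rbNice (Φ τ) := fun τ => rb_nice_state D sp ℓ Φ hΦ τ
    have hIn : ∀ r τ, Integrable (fun x : Option I → E3 =>
        nr D sp r q s (x none) (fun j => x (some j)) * ‖Φ τ x‖ ^ 2) := fun r τ =>
      bm_int _ _ (nrx_meas D sp r q s) (fun x => nr_nn D sp r q s _ _) 1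
        (fun x => (nr_le D sp r q s _ _).trans (iQ_le q s _)) (nice_sqC8 _ (hn τ))
    have hIq : ∀ τ, Integrable (fun x : Option I → E3 => iQ q s (x none) * ‖Φ τ x‖ ^ 2) := fun τ =>
      bm_int _ _ ((iQ_meas q s).comp (measurable_pi_apply none)) (fun x => iQ_nn q s _) 1
        (fun x => iQ_le q s _) (nice_sqC8 _ (hn τ))
    obtain ⟨t, ht⟩ : ∃ t : ℕ → ℝ, t = fun k => 256 ^ (k1 + k) / s := ⟨_, rfl⟩
    obtain ⟨rr, hrr⟩ : ∃ rr : ℕ → ℝ, rr = fun k => s / 256 ^ (k1 + k) := ⟨_, rfl⟩
    have ht0 : ∀ k, 0 < t k := by intro k; rw [ht]; positivity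
    have htr1 : ∀ k, (t k)⁻¹ = rr k := by
      intro k
      rw [ht, hrr]
      simp
    -- the truncated bound
    have htr : ∀ M : ℕ, N * ∑ τ, ∫ x : Option I → E3,
        iQ q s (x none) * min (pinv D sp none x) (t M) * ‖Φ τ x‖ ^ 2 ≤
        δ * s * T + (256 ^ k1 + 2 * D.g * (4 / 3 * Real.pi) * 512) / s * (N * W + P) := by
      intro M
      have hpt : ∀ τ x, iQ q s (x none) * min (pinv D sp none x) (t M) * ‖Φ τ x‖ ^ 2 ≤
          t 0 * (iQ q s (x none) * ‖Φ τ x‖ ^ 2) + ∑ k ∈ Finset.range M, t (k + 1) *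
          (nr D sp (rr k) q s (x none) (fun j => x (some j)) * ‖Φ τ x‖ ^ 2) := by
        intro τ x
        have hχ := layC8 (pinv D sp none x) t
          (fun k => (nst D sp (rr k)).indicator (fun _ => (1 : ℝ)) ((fun j => x (some j)), x none))
          (fun k => (ht0 k).le) (fun k => Set.indicator_nonneg (fun _ _ => zero_le_one) _)
          (fun k hk => by
            have h2 : ∃ j, t k < (if 0 < D.charge (sp j) then ‖x none - x j‖⁻¹ else 0) := by
              by_contra hcon
              simp only [not_exists, not_lt] at hcon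
              have : pinv D sp none x ≤ t k := Real.iSup_le hcon (ht0 k).le
              linarith
            obtain ⟨j, hj⟩ := h2
            by_cases hp : 0 < D.charge (sp j)
            · rw [if_pos hp] at hj
              cases j with
              | none => linarith
              | some j =>
                have h3 : ‖x none - x (some j)‖ < rr k := by
                  have h4 : 0 < ‖x none - x (some j)‖⁻¹ := lt_trans (ht0 k) hj
                  rw [← inv_inv ‖x none - x (some j)‖, ← htr1 k]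
                  exact inv_strictAnti₀ (ht0 k) hj
                show (nst D sp (rr k)).indicator (fun _ => (1 : ℝ))
                  ((fun j => x (some j)), x none) = 1
                rw [Set.indicator_of_mem]
                exact ⟨j, hp, h3⟩
            · rw [if_neg hp] at hj
              have := ht0 k
              linarith) M
        have h2 := mul_le_mul_of_nonneg_right hχ
          (show 0 ≤ iQ q s (x none) * ‖Φ τ x‖ ^ 2 from
            mul_nonneg (iQ_nn q s _) (by positivity))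
        rw [add_mul, Finset.sum_mul] at h2
        calc iQ q s (x none) * min (pinv D sp none x) (t M) * ‖Φ τ x‖ ^ 2
            = min (pinv D sp none x) (t M) * (iQ q s (x none) * ‖Φ τ x‖ ^ 2) := by ring
          _ ≤ _ := h2
          _ = _ := by
            congr 1
            refine Finset.sum_congr rfl fun k _ => ?_
            unfold nr
            ring
      have hint : ∀ τ, ∫ x : Option I → E3,
          iQ q s (x none) * min (pinv D sp none x) (t M) * ‖Φ τ x‖ ^ 2 ≤
          t 0 * (∫ x : Option I → E3, iQ q s (x none) * ‖Φ τ x‖ ^ 2) +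
          ∑ k ∈ Finset.range M, t (k + 1) *
          ∫ x : Option I → E3, nr D sp (rr k) q s (x none) (fun j => x (some j)) *
            ‖Φ τ x‖ ^ 2 := by
        intro τ
        have e : t 0 * (∫ x : Option I → E3, iQ q s (x none) * ‖Φ τ x‖ ^ 2) +
            ∑ k ∈ Finset.range M, t (k + 1) *
            ∫ x : Option I → E3, nr D sp (rr k) q s (x none) (fun j => x (some j)) *
              ‖Φ τ x‖ ^ 2 =
            ∫ x : Option I → E3, (t 0 * (iQ q s (x none) * ‖Φ τ x‖ ^ 2) +
            ∑ k ∈ Finset.range M, t (k + 1) *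
            (nr D sp (rr k) q s (x none) (fun j => x (some j)) * ‖Φ τ x‖ ^ 2)) := by
          rw [integral_add ((hIq τ).const_mul _)
            (integrable_finsetSum _ fun k _ => (hIn _ τ).const_mul _),
            integral_finsetSum _ fun k _ => (hIn _ τ).const_mul _, integral_const_mul]
          congr 1
          refine Finset.sum_congr rfl fun k _ => ?_
          rw [integral_const_mul]
        rw [e]
        refine integral_mono_of_nonneg (Filter.Eventually.of_forall fun x => ?_)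
          (((hIq τ).const_mul _).add (integrable_finsetSum _ fun k _ => (hIn _ τ).const_mul _))
          (Filter.Eventually.of_forall fun x => hpt τ x)
        exact mul_nonneg (mul_nonneg (iQ_nn q s _) (le_min (pinvC8_nn D sp none x) (ht0 M).le))
          (by positivity)
      have hs1 : ∑ τ, ∫ x : Option I → E3,
          iQ q s (x none) * min (pinv D sp none x) (t M) * ‖Φ τ x‖ ^ 2 ≤
          t 0 * W + ∑ k ∈ Finset.range M, t (k + 1) *
          ∑ τ, ∫ x : Option I → E3, nr D sp (rr k) q s (x none) (fun j => x (some j)) *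
            ‖Φ τ x‖ ^ 2 := by
        refine (Finset.sum_le_sum fun τ _ => hint τ).trans (le_of_eq ?_)
        rw [Finset.sum_add_distrib, hW, Finset.mul_sum]
        congr 1
        rw [Finset.sum_comm]
        refine Finset.sum_congr rfl fun k _ => ?_
        rw [Finset.mul_sum]
      have hs2 := mul_le_mul_of_nonneg_left hs1 hN0
      refine hs2.trans ?_
      rw [mul_add]
      have hk : ∀ k ∈ Finset.range M, N * (t (k + 1) *
          ∑ τ, ∫ x : Option I → E3, nr D sp (rr k) q s (x none) (fun j => x (some j)) *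
            ‖Φ τ x‖ ^ 2) ≤ (2 * D.g * (4 / 3 * Real.pi) * 256 / s * P +
              512 * CP * (1 / 4) ^ k1 * s * T) * (1 / 2) ^ k := by
        intro k _
        obtain ⟨K, hK⟩ : ∃ K : ℕ, K = k1 + k := ⟨_, rfl⟩
        have hnl : ((32 ^ K : ℕ) : ℝ) * (s / 32 ^ K) = s := by
          push_cast
          field_simp
        have h256 : (1 : ℝ) ≤ 256 ^ K := one_le_pow₀ (by norm_num)
        have hrs : rr k ≤ s := by
          rw [hrr]
          show s / 256 ^ (k1 + k) ≤ s
          rw [← hK]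
          exact div_le_self hs.le h256
        have hr0 : 0 ≤ rr k := by
          rw [hrr]
          positivity
        have h1 := scale_bound D CP hPI sp hneg hferm ℓ (rr k) hr0 q (s / 32 ^ K)
          (by positivity) (32 ^ K) (by rw [hnl]; exact hrs) Φ hΦ
        rw [hnl, ← hN, ← hP] at h1
        rw [← hN] at hT
        rw [← hT] at h1
        have h2 := mul_le_mul_of_nonneg_left h1 (ht0 (k + 1)).le
        have hA : t (k + 1) * (rr k / (s / 32 ^ K)) ^ 3 = 256 / s * ((1 / 2) ^ k1 * (1 / 2) ^ k) := by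
          rw [← pow_add, ← hK, ht, hrr]
          show 256 ^ (k1 + (k + 1)) / s * (s / 256 ^ (k1 + k) / (s / 32 ^ K)) ^ 3 = _
          rw [← add_assoc, ← hK, pow_succ]
          have e256 : (256 : ℝ) ^ K = 2 ^ K * 2 ^ K * 2 ^ K * 32 ^ K := by
            rw [← mul_pow, ← mul_pow, ← mul_pow]; norm_num
          have e2 : (1 / 2 : ℝ) ^ K = (2 ^ K)⁻¹ := by rw [one_div, inv_pow]
          have e32 : (32 : ℝ) ^ K = 2 ^ K * 2 ^ K * 2 ^ K * 2 ^ K * 2 ^ K := by
            rw [← mul_pow, ← mul_pow, ← mul_pow, ← mul_pow]; norm_num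
          rw [e256, e32, e2]
          have : (2 : ℝ) ^ K ≠ 0 := by positivity
          have : s ≠ 0 := hs.ne'
          field_simp
        have hB : t (k + 1) * (s / 32 ^ K) ^ 2 = 256 * s * ((1 / 4) ^ k1 * (1 / 4) ^ k) := by
          rw [← pow_add, ← hK, ht]
          show 256 ^ (k1 + (k + 1)) / s * (s / 32 ^ K) ^ 2 = _
          rw [← add_assoc, ← hK, pow_succ]
          have e256 : (256 : ℝ) ^ K * 4 ^ K = 32 ^ K * 32 ^ K := by
            rw [← mul_pow, ← mul_pow]; norm_num
          have e4 : (1 / 4 : ℝ) ^ K = (4 ^ K)⁻¹ := by rw [one_div, inv_pow]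
          rw [e4]
          have h4 : (4 : ℝ) ^ K ≠ 0 := by positivity
          have h32 : (32 : ℝ) ^ K ≠ 0 := by positivity
          have : s ≠ 0 := hs.ne'
          field_simp
          nlinarith [e256]
        have h12 : (1 / 2 : ℝ) ^ k1 ≤ 1 := pow_le_one₀ (by norm_num) (by norm_num)
        have h14 : (1 / 4 : ℝ) ^ k ≤ (1 / 2) ^ k :=
          pow_le_pow_left₀ (by norm_num) (by norm_num) k
        have hk0 : 0 ≤ (1 / 2 : ℝ) ^ k := by positivity
        calc N * (t (k + 1) * ∑ τ, ∫ x : Option I → E3,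
            nr D sp (rr k) q s (x none) (fun j => x (some j)) * ‖Φ τ x‖ ^ 2)
            = t (k + 1) * (N * ∑ τ, ∫ x : Option I → E3,
              nr D sp (rr k) q s (x none) (fun j => x (some j)) * ‖Φ τ x‖ ^ 2) := by ring
          _ ≤ _ := h2
          _ = 2 * D.g * (4 / 3 * Real.pi) * P * (t (k + 1) * (rr k / (s / 32 ^ K)) ^ 3) +
              2 * CP * T * (t (k + 1) * (s / 32 ^ K) ^ 2) := by ring
          _ = 2 * D.g * (4 / 3 * Real.pi) * P * (256 / s) * ((1 / 2) ^ k1 * (1 / 2) ^ k) +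
              2 * CP * T * (256 * s) * ((1 / 4) ^ k1 * (1 / 4) ^ k) := by rw [hA, hB]; ring
          _ ≤ 2 * D.g * (4 / 3 * Real.pi) * P * (256 / s) * (1 * (1 / 2) ^ k) +
              2 * CP * T * (256 * s) * ((1 / 4) ^ k1 * (1 / 2) ^ k) := by gcongr
          _ = _ := by ring
      have hs3 := Finset.sum_le_sum hk
      rw [← Finset.mul_sum, ← Finset.mul_sum] at hs3
      have hg : ∑ k ∈ Finset.range M, (1 / 2 : ℝ) ^ k ≤ 2 := sum_geometric_two_le M
      have hs4 := mul_le_mul_of_nonneg_left hg (show 0 ≤ 2 * D.g * (4 / 3 * Real.pi) * 256 / s * P +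
              512 * CP * (1 / 4) ^ k1 * s * T by positivity)
      have h6 : 1024 * CP * (1 / 4) ^ k1 ≤ δ := by
        have h7 := (lt_div_iff₀ (by positivity)).1 hk1
        linarith
      have h8 := mul_le_mul_of_nonneg_right h6 (show 0 ≤ s * T by positivity)
      have ht00 : t 0 = 256 ^ k1 / s := by rw [ht]; rfl
      have h9 : N * (t 0 * W) = 256 ^ k1 / s * (N * W) := by rw [ht00]; ring
      have h10 : (256 ^ k1 + 2 * D.g * (4 / 3 * Real.pi) * 512) / s * (N * W + P) =
          256 ^ k1 / s * (N * W) + 2 * D.g * (4 / 3 * Real.pi) * 512 / s * P +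
          (256 ^ k1 / s * P + 2 * D.g * (4 / 3 * Real.pi) * 512 / s * (N * W)) := by ring
      have h11 : 0 ≤ 256 ^ k1 / s * P + 2 * D.g * (4 / 3 * Real.pi) * 512 / s * (N * W) := by
        positivity
      rw [h9, h10]
      have h12 : (2 * D.g * (4 / 3 * Real.pi) * 256 / s * P +
              512 * CP * (1 / 4) ^ k1 * s * T) * 2 =
          2 * D.g * (4 / 3 * Real.pi) * 512 / s * P + 1024 * CP * (1 / 4) ^ k1 * (s * T) := by
        ring
      rw [h12] at hs4
      have h13 : δ * (s * T) = δ * s * T := by ring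
      rw [h13] at h8
      linarith
    -- the limit
    have hlim : Filter.Tendsto (fun M : ℕ => N * ∑ τ, ∫ x : Option I → E3,
        iQ q s (x none) * min (pinv D sp none x) (t M) * ‖Φ τ x‖ ^ 2) Filter.atTop
        (nhds (N * ∑ τ, ∫ x : Option I → E3,
          iQ q s (x none) * pinv D sp none x * ‖Φ τ x‖ ^ 2)) := by
      refine Filter.Tendsto.const_mul _ (tendsto_finsetSum _ fun τ _ => ?_)
      have hmq : Measurable (fun x : Option I → E3 => iQ q s (x none)) :=
        (iQ_meas q s).comp (measurable_pi_apply none)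
      refine tendsto_integral_of_dominated_convergence
        (fun x => pinv D sp none x * ‖Φ τ x‖ ^ 2) (fun M => ?_)
        (pinvC8_intg D sp hneg ℓ Φ hΦ τ) (fun M => Filter.Eventually.of_forall fun x => ?_)
        (Filter.Eventually.of_forall fun x => ?_)
      · exact ((hmq.mul ((pinvC8_meas D sp none).min measurable_const)).mul
          (((hΦ.smooth τ).continuous.measurable.norm).pow_const 2)).aestronglyMeasurable
      · have h1 : 0 ≤ min (pinv D sp none x) (t M) := le_min (pinvC8_nn D sp none x) (ht0 M).le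
        rw [Real.norm_of_nonneg (mul_nonneg (mul_nonneg (iQ_nn q s _) h1) (by positivity))]
        refine mul_le_mul_of_nonneg_right ?_ (by positivity)
        calc iQ q s (x none) * min (pinv D sp none x) (t M)
            ≤ 1 * pinv D sp none x :=
              mul_le_mul (iQ_le q s _) (min_le_left _ _) h1 zero_le_one
          _ = _ := one_mul _
      · refine Filter.Tendsto.mul_const _ (Filter.Tendsto.const_mul _ ?_)
        have h1 : Filter.Tendsto t Filter.atTop Filter.atTop := by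
          rw [ht]
          refine Filter.Tendsto.atTop_div_const hs ?_
          have h2 : Filter.Tendsto (fun k : ℕ => (256 : ℝ) ^ k) Filter.atTop Filter.atTop :=
            tendsto_pow_atTop_atTop_of_one_lt (by norm_num)
          exact h2.comp (Filter.tendsto_add_atTop_nat k1 |>.congr fun k => by omega)
        refine tendsto_const_nhds.congr' ?_
        filter_upwards [h1.eventually_ge_atTop (pinv D sp none x)] with M hM
        exact (min_eq_left hM).symm
    exact le_of_tendsto hlim (Filter.Eventually.of_forall htr)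
  rw [hN, hT, hW, hP] at hgoal
  exact hgoal

end Pool.Agent.Helper780_CP.RC8
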