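import Pool.Agent.Helper780_CP.LLDefs2
import Pool.Agent.Helper780_CP.Stable
import Pool.Agent.Helper780_CP.RC8

set_option autoImplicit false

open MeasureTheory

namespace Pool.Agent.Helper780_CP.RPEN

open Pool.Agent.Helper780_CP
open Pool.Agent.Helper985.CP
open Pool.Agent.Helper780_CP.RC8 (pinv_cube)

open Pool.Agent.Helper985.CP

theorem pen_wm_relab {S : Type} (D : Species S) {I J : Type} [Fintype I] [DecidableEq I]
    [Fintype J] [DecidableEq J] (e : I ≃ J) (F : (J → E3) → ℝ) (G : (I → E3) → ℝ)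
    (h : ∀ x : J → E3, F x = G (fun k => x (e k))) (Ψ : Wave D I) :
    wm D F (relab D e Ψ) = wm D G Ψ := by
  unfold wm
  rw [← relaux_sum e (fun τ => ∫ x, G x * ‖Ψ τ x‖ ^ 2)]
  apply Finset.sum_congr rfl
  intro τ _
  rw [← relaux_int e (fun x => G x * ‖Ψ (fun i => τ (e i)) x‖ ^ 2)]
  congr 1
  funext x
  rw [h]
  rfl

theorem pen_kin_relab {S : Type} (D : Species S) {I J : Type} [Fintype I] [DecidableEq I]
    [Fintype J] [DecidableEq J] (e : I ≃ J) (sp : I → S) (sp' : J → S)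
    (h : ∀ i, sp' (e i) = sp i) (f : E3 → ℝ) (i : I) (Ψ : Wave D I) :
    ∑ τ, ∫ x, f (x (e i)) * kin D sp' (e i) (relab D e Ψ τ) x =
      ∑ τ, ∫ x, f (x i) * kin D sp i (Ψ τ) x := by
  rw [← relaux_sum e (fun τ => ∫ x, f (x i) * kin D sp i (Ψ τ) x)]
  apply Finset.sum_congr rfl
  intro τ _
  rw [← relaux_int e (fun x => f (x i) * kin D sp i (Ψ fun i => τ (e i)) x)]
  congr 1
  funext x
  have h1 := relaux_kin D e sp sp' h i (Ψ fun k => τ (e k)) x
  show f (x (e i)) * kin D sp' (e i) (fun y => Ψ (fun k => τ (e k)) (fun k => y (e k))) x = _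
  rw [h1]

theorem pen_npl_relab {S : Type} (D : Species S) {I J : Type} [Fintype I]
    [Fintype J] (e : I ≃ J) (sp : I → S) (sp' : J → S)
    (h : ∀ i, sp' (e i) = sp i) (A : Set E3) (x : J → E3) :
    npl D sp' A x = npl D sp A (fun k => x (e k)) := by
  unfold npl
  rw [← Equiv.sum_comp e]
  refine Finset.sum_congr rfl fun i _ => ?_
  rw [h]

theorem pen_kin_eq {S : Type} (D : Species S) (hD : D.Valid) {I : Type} [Fintype I]
    [DecidableEq I] (sp : I → S) (i : I) (u : (I → E3) → ℂ) (x : I → E3) :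
    ∑ k : Fin 3, ‖fderiv ℝ u x (Pi.single i (EuclideanSpace.single k (1 : ℝ)))‖ ^ 2 =
      2 * D.mass (sp i) * kin D sp i u x := by
  unfold kin
  have := hD.mass_pos (sp i)
  field_simp

/-- the indicator of the cube -/
noncomputable def iq (q : E3) (s : ℝ) (v : E3) : ℝ := (Qc q s).indicator (fun _ => (1 : ℝ)) v

/-- localised kinetic energy of one particle -/
noncomputable def kf {S : Type} (D : Species S) {I : Type} [Fintype I] [DecidableEq I]
    (sp : I → S) (f : E3 → ℝ) (i : I) (Ψ : Wave D I) : ℝ :=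
  ∑ τ, ∫ x, f (x i) * kin D sp i (Ψ τ) x

theorem pen_cube_any {S : Type} [DecidableEq S] (D : Species S) (hD : D.Valid) (δ : ℝ)
    (hδ : 0 < δ) :
    ∃ C : ℝ, 0 < C ∧ ∀ {I : Type} [Fintype I] [DecidableEq I] (sp : I → S) (ℓ : ℝ) (i : I),
      D.charge (sp i) < 0 → D.fermion (sp i) = true →
      ∀ (Ψ : Wave D I), IsState D sp ℓ Ψ → ∀ (q : E3) (s : ℝ), 0 < s →
      (cnt sp (sp i) : ℝ) * wm D (fun x => iq q s (x i) * pinv D sp i x) Ψ ≤
        δ * s * ((cnt sp (sp i) : ℝ) * (2 * D.mass (sp i) * kf D sp (iq q s) i Ψ)) +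
        C / s * ((cnt sp (sp i) : ℝ) * wm D (fun x => iq q s (x i)) Ψ +
          wm D (npl D sp (Qp q s)) Ψ) := by
  obtain ⟨C, hC, H⟩ := pinv_cube D δ hδ
  refine ⟨C, hC, ?_⟩
  intro I _ _ sp ℓ i hneg hferm Ψ hΨ q s hs
  obtain ⟨e, he⟩ : ∃ e : I ≃ Option {j // j ≠ i}, e i = none :=
    ⟨(Equiv.optionSubtypeNe i).symm, Equiv.optionSubtypeNe_symm_self i⟩
  obtain ⟨sp', hsp'⟩ : ∃ sp' : Option {j // j ≠ i} → S, sp' = fun j => sp (e.symm j) := ⟨_, rfl⟩
  have h : ∀ k, sp' (e k) = sp k := fun k => by rw [hsp']; simp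
  have hnone : sp' none = sp i := by rw [← he, h]
  have h1 := H sp' ℓ (by rw [hnone]; exact hneg) (by rw [hnone]; exact hferm)
    (relab D e Ψ) (relabel_state D e sp sp' h ℓ Ψ hΨ) q s hs
  have e1 : ∑ τ, ∫ x, (Qc q s).indicator (fun _ => (1 : ℝ)) (x none) *
      pinv D sp' none x * ‖relab D e Ψ τ x‖ ^ 2 =
      wm D (fun x => iq q s (x i) * pinv D sp i x) Ψ := by
    refine pen_wm_relab D e (fun x => (Qc q s).indicator (fun _ => (1 : ℝ)) (x none) *
      pinv D sp' none x) _ (fun x => ?_) Ψ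
    rw [← he, pinv_relab D e sp sp' h i x]
    rfl
  have e2 : ∑ τ, ∫ x, (Qc q s).indicator (fun _ => (1 : ℝ)) (x none) *
      ∑ k : Fin 3, ‖fderiv ℝ (relab D e Ψ τ) x
        (Pi.single none (EuclideanSpace.single k (1 : ℝ)))‖ ^ 2 =
      2 * D.mass (sp i) * kf D sp (iq q s) i Ψ := by
    unfold kf
    rw [← pen_kin_relab D e sp sp' h (iq q s) i Ψ, Finset.mul_sum]
    refine Finset.sum_congr rfl fun τ _ => ?_
    rw [← integral_const_mul]
    congr 1
    funext x
    rw [pen_kin_eq D hD sp' none, he, hnone]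
    unfold iq
    ring
  have e3 : ∑ τ, ∫ x, (Qc q s).indicator (fun _ => (1 : ℝ)) (x none) *
      ‖relab D e Ψ τ x‖ ^ 2 = wm D (fun x => iq q s (x i)) Ψ := by
    refine pen_wm_relab D e (fun x => (Qc q s).indicator (fun _ => (1 : ℝ)) (x none))
      _ (fun x => ?_) Ψ
    rw [← he]
    rfl
  have e4 : ∑ τ, ∫ x, npl D sp' (Qp q s) x * ‖relab D e Ψ τ x‖ ^ 2 =
      wm D (npl D sp (Qp q s)) Ψ :=
    pen_wm_relab D e (npl D sp' (Qp q s)) (npl D sp (Qp q s))
      (fun x => pen_npl_relab D e sp sp' h _ x) Ψ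
  rw [e1, e2, e3, e4, hnone, cnt_relab e sp sp' h] at h1
  exact h1

theorem iq_nonneg (q : E3) (s : ℝ) (v : E3) : 0 ≤ iq q s v :=
  Set.indicator_nonneg (fun _ _ => zero_le_one) v

theorem iq_le (q : E3) (s : ℝ) (v : E3) : iq q s v ≤ 1 := by
  unfold iq
  by_cases h : v ∈ Qc q s
  · rw [Set.indicator_of_mem h]
  · rw [Set.indicator_of_notMem h]; exact zero_le_one

theorem pen_kin_nonneg {S : Type} (D : Species S) (hD : D.Valid) {I : Type} [Fintype I]
    [DecidableEq I] (sp : I → S) (i : I) (u : (I → E3) → ℂ) (x : I → E3) :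
    0 ≤ kin D sp i u x := by
  unfold kin
  have := (hD.mass_pos (sp i)).le
  exact mul_nonneg (by positivity) (Finset.sum_nonneg fun _ _ => by positivity)

theorem pen_wm_nonneg {S : Type} (D : Species S) {I : Type} [Fintype I] [DecidableEq I]
    (W : (I → E3) → ℝ) (hW : ∀ x, 0 ≤ W x) (Ψ : Wave D I) : 0 ≤ wm D W Ψ := by
  unfold wm
  exact Finset.sum_nonneg fun τ _ => integral_nonneg fun x => mul_nonneg (hW x) (sq_nonneg _)

theorem npl_nonneg {S : Type} (D : Species S) {I : Type} [Fintype I] (sp : I → S) (A : Set E3)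
    (x : I → E3) : 0 ≤ npl D sp A x := by
  unfold npl
  refine Finset.sum_nonneg fun j _ => ?_
  split_ifs
  · exact zero_le_one
  · exact le_rfl

theorem kf_nonneg {S : Type} (D : Species S) (hD : D.Valid) {I : Type} [Fintype I]
    [DecidableEq I] (sp : I → S) (f : E3 → ℝ) (hf : ∀ v, 0 ≤ f v) (i : I) (Ψ : Wave D I) :
    0 ≤ kf D sp f i Ψ :=
  Finset.sum_nonneg fun _ _ => integral_nonneg fun x =>
    mul_nonneg (hf _) (pen_kin_nonneg D hD sp i _ x)

theorem pen_cube_sum {S : Type} [Fintype S] [DecidableEq S] (D : Species S) (hD : D.Valid)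
    (hf : ∀ s, D.charge s < 0 → D.fermion s = true) (δ : ℝ) (hδ : 0 < δ) :
    ∃ C : ℝ, 0 < C ∧ ∀ {I : Type} [Fintype I] [DecidableEq I] (sp : I → S) (ℓ : ℝ)
      (Ψ : Wave D I), IsState D sp ℓ Ψ → ∀ (q : E3) (s : ℝ), 0 < s → s ≤ 1 →
      ∑ i, (if D.charge (sp i) < 0 then wm D (fun x => iq q s (x i) * pinv D sp i x) Ψ else 0) ≤
        δ * ∑ i, kf D sp (iq q s) i Ψ +
        C / s * (∑ i, wm D (fun x => iq q s (x i)) Ψ + wm D (npl D sp (Qp q s)) Ψ) := by
  obtain ⟨ms, hms⟩ : ∃ ms, ms = ∑ s, D.mass s := ⟨_, rfl⟩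
  have hms1 : ∀ s, D.mass s ≤ ms := by
    intro s
    rw [hms]
    exact Finset.single_le_sum (f := fun s => D.mass s) (fun t _ => (hD.mass_pos t).le)
      (Finset.mem_univ s)
  have hms0 : 0 ≤ ms := by rw [hms]; exact Finset.sum_nonneg fun t _ => (hD.mass_pos t).le
  obtain ⟨δ', hδ'⟩ : ∃ δ', δ' = δ / (2 * ms + 1) := ⟨_, rfl⟩
  have hδ0 : 0 < δ' := by rw [hδ']; positivity
  have hδ1 : ∀ s, δ' * (2 * D.mass s) ≤ δ := by
    intro s
    have h1 := hms1 s
    rw [hδ', div_mul_eq_mul_div, div_le_iff₀ (by positivity)]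
    exact mul_le_mul_of_nonneg_left (by linarith) hδ.le
  obtain ⟨C, hC, H⟩ := pen_cube_any D hD δ' hδ0
  refine ⟨C * (1 + (Fintype.card S : ℝ)), by positivity, ?_⟩
  intro I _ _ sp ℓ Ψ hΨ q s hs hs1
  have hN : 0 ≤ wm D (npl D sp (Qp q s)) Ψ := pen_wm_nonneg D _ (npl_nonneg D sp _) Ψ
  have hn : ∀ i, 0 ≤ wm D (fun x => iq q s (x i)) Ψ := fun i =>
    pen_wm_nonneg D _ (fun x => iq_nonneg q s _) Ψ
  have hk : ∀ i, 0 ≤ kf D sp (iq q s) i Ψ := fun i => kf_nonneg D hD sp _ (iq_nonneg q s) i Ψ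
  have h4 : ∀ i, (if D.charge (sp i) < 0 then
      wm D (fun x => iq q s (x i) * pinv D sp i x) Ψ else 0) ≤
      δ * kf D sp (iq q s) i Ψ + C / s * (wm D (fun x => iq q s (x i)) Ψ +
        1 / (cnt sp (sp i) : ℝ) * wm D (npl D sp (Qp q s)) Ψ) := by
    intro i
    have hcn : 0 < (cnt sp (sp i) : ℝ) := by
      have : 0 < cnt sp (sp i) := by
        unfold cnt
        exact Finset.card_pos.2 ⟨i, by simp⟩
      exact_mod_cast this
    have hki := hk i
    have hni := hn i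
    by_cases hi : D.charge (sp i) < 0
    · rw [if_pos hi]
      have h5 := H sp ℓ i hi (hf _ hi) Ψ hΨ q s hs
      have h6 : wm D (fun x => iq q s (x i) * pinv D sp i x) Ψ ≤
          δ' * s * (2 * D.mass (sp i) * kf D sp (iq q s) i Ψ) +
          C / s * (wm D (fun x => iq q s (x i)) Ψ +
            1 / (cnt sp (sp i) : ℝ) * wm D (npl D sp (Qp q s)) Ψ) := by
        refine le_of_mul_le_mul_left (h5.trans (le_of_eq ?_)) hcn
        field_simp
      refine h6.trans (add_le_add_left ?_ _)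
      have h7 : 0 ≤ 2 * D.mass (sp i) * kf D sp (iq q s) i Ψ :=
        mul_nonneg (mul_nonneg (by norm_num) (hD.mass_pos _).le) hki
      calc δ' * s * (2 * D.mass (sp i) * kf D sp (iq q s) i Ψ)
          ≤ δ' * 1 * (2 * D.mass (sp i) * kf D sp (iq q s) i Ψ) :=
            mul_le_mul_of_nonneg_right (mul_le_mul_of_nonneg_left hs1 hδ0.le) h7
        _ = δ' * (2 * D.mass (sp i)) * kf D sp (iq q s) i Ψ := by ring
        _ ≤ δ * kf D sp (iq q s) i Ψ := mul_le_mul_of_nonneg_right (hδ1 _) hki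
    · rw [if_neg hi]
      positivity
  refine (Finset.sum_le_sum fun i _ => h4 i).trans ?_
  rw [Finset.sum_add_distrib, ← Finset.mul_sum, ← Finset.mul_sum, Finset.sum_add_distrib,
    ← Finset.sum_mul]
  have h6 : ∑ i, (1 / (cnt sp (sp i) : ℝ)) ≤ (Fintype.card S : ℝ) := by
    rw [sum_sp sp (fun s => 1 / (cnt sp s : ℝ))]
    calc ∑ s, (cnt sp s : ℝ) * (1 / (cnt sp s : ℝ)) ≤ ∑ _s : S, (1 : ℝ) := by
          refine Finset.sum_le_sum fun s _ => ?_
          by_cases h0 : (cnt sp s : ℝ) = 0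
          · rw [h0]; simp
          · rw [mul_one_div, div_self h0]
      _ = (Fintype.card S : ℝ) := by simp
  have h7 : 0 ≤ ∑ i, wm D (fun x => iq q s (x i)) Ψ := Finset.sum_nonneg fun i _ => hn i
  have h8 : C / s * (∑ i, wm D (fun x => iq q s (x i)) Ψ +
      (∑ i, 1 / (cnt sp (sp i) : ℝ)) * wm D (npl D sp (Qp q s)) Ψ) ≤
      C / s * ((1 + (Fintype.card S : ℝ)) * (∑ i, wm D (fun x => iq q s (x i)) Ψ +
        wm D (npl D sp (Qp q s)) Ψ)) := by
    refine mul_le_mul_of_nonneg_left ?_ (by positivity)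
    have h9 := mul_le_mul_of_nonneg_right h6 hN
    have h10 : 0 ≤ (Fintype.card S : ℝ) * ∑ i, wm D (fun x => iq q s (x i)) Ψ := by positivity
    nlinarith
  have e : C * (1 + (Fintype.card S : ℝ)) / s * (∑ i, wm D (fun x => iq q s (x i)) Ψ +
      wm D (npl D sp (Qp q s)) Ψ) = C / s * ((1 + (Fintype.card S : ℝ)) *
        (∑ i, wm D (fun x => iq q s (x i)) Ψ + wm D (npl D sp (Qp q s)) Ψ)) := by ring
  rw [e]
  linarith


theorem WI_mulm {S : Type} (D : Species S) {I : Type} [Fintype I] [DecidableEq I] (sp : I → S)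
    (ℓ : ℝ) {W : (I → E3) → ℝ} (hW : WI D sp ℓ W) (f : (I → E3) → ℝ)
    (hf : Measurable f) (hb : ∀ x, |f x| ≤ 1) : WI D sp ℓ (fun x => f x * W x) := by
  intro Ψ hΨ τ
  have h := (hW Ψ hΨ τ).bdd_mul (c := 1) hf.aestronglyMeasurable
    (Filter.Eventually.of_forall fun x => by rw [Real.norm_eq_abs]; exact hb x)
  refine h.congr (Filter.Eventually.of_forall fun x => ?_)
  simp only
  ring

theorem WI_bm {S : Type} (D : Species S) {I : Type} [Fintype I] [DecidableEq I] (sp : I → S)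
    (ℓ : ℝ) (f : (I → E3) → ℝ)
    (hf : Measurable f) (hb : ∀ x, |f x| ≤ 1) : WI D sp ℓ f := by
  have h := WI_mulm D sp ℓ (WI_const D sp ℓ 1) f hf hb
  simpa only [mul_one] using h

theorem Qc_meas (q : E3) (s : ℝ) : MeasurableSet (Qc q s) := by
  have e : Qc q s = ⋂ k, ({z : E3 | q k ≤ z k} ∩ {z : E3 | z k < q k + s}) := by
    ext z
    simp [Qc]
  rw [e]
  refine MeasurableSet.iInter fun k => ?_
  exact (measurableSet_le (by fun_prop) (by fun_prop)).inter
    (measurableSet_lt (by fun_prop) (by fun_prop))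

theorem Qp_meas (q : E3) (s : ℝ) : MeasurableSet (Qp q s) := by
  have e : Qp q s = ⋂ k, ({z : E3 | q k - s ≤ z k} ∩ {z : E3 | z k < q k + 2 * s}) := by
    ext z
    simp [Qp]
  rw [e]
  refine MeasurableSet.iInter fun k => ?_
  exact (measurableSet_le (by fun_prop) (by fun_prop)).inter
    (measurableSet_lt (by fun_prop) (by fun_prop))

theorem iq_meas (q : E3) (s : ℝ) : Measurable (iq q s) :=
  measurable_const.indicator (Qc_meas q s)

theorem abs_le_one_of {a : ℝ} (h0 : 0 ≤ a) (h1 : a ≤ 1) : |a| ≤ 1 := by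
  rw [abs_of_nonneg h0]; exact h1

theorem WI_iq {S : Type} (D : Species S) {I : Type} [Fintype I] [DecidableEq I] (sp : I → S)
    (ℓ : ℝ) (q : E3) (s : ℝ) (i : I) : WI D sp ℓ (fun x => iq q s (x i)) :=
  WI_bm D sp ℓ _ ((iq_meas q s).comp (measurable_pi_apply i))
    (fun x => abs_le_one_of (iq_nonneg q s _) (iq_le q s _))

theorem WI_npl {S : Type} (D : Species S) {I : Type} [Fintype I] [DecidableEq I] (sp : I → S)
    (ℓ : ℝ) (q : E3) (s : ℝ) : WI D sp ℓ (npl D sp (Qp q s)) := by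
  classical
  have e : npl D sp (Qp q s) = fun x => ∑ j, (if 0 < D.charge (sp j) then
      (Qp q s).indicator (fun _ => (1 : ℝ)) (x j) else 0) := by
    funext x
    unfold npl
    refine Finset.sum_congr rfl fun j _ => ?_
    by_cases h1 : 0 < D.charge (sp j)
    · by_cases h2 : x j ∈ Qp q s
      · rw [if_pos ⟨h1, h2⟩, if_pos h1, Set.indicator_of_mem h2]
      · rw [if_neg (fun h => h2 h.2), if_pos h1, Set.indicator_of_notMem h2]
    · rw [if_neg (fun h => h1 h.1), if_neg h1]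
  rw [e]
  apply WI_sum
  intro j _
  by_cases h1 : 0 < D.charge (sp j)
  · simp only [if_pos h1]
    refine WI_bm D sp ℓ _ ((measurable_const.indicator (Qp_meas q s)).comp
      (measurable_pi_apply j)) (fun x => abs_le_one_of (Set.indicator_nonneg
        (fun _ _ => zero_le_one) _) ?_)
    by_cases h : x j ∈ Qp q s
    · rw [Set.indicator_of_mem h]
    · rw [Set.indicator_of_notMem h]; exact zero_le_one
  · simp only [if_neg h1]
    exact WI_zero D sp ℓ

theorem WI_nb {S : Type} (D : Species S) {I : Type} [Fintype I] [DecidableEq I] (sp : I → S)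
    (ℓ : ℝ) (y : E3) (R : ℝ) : WI D sp ℓ (nb y R) := by
  unfold nb
  apply WI_sum
  intro i _
  refine WI_bm D sp ℓ _ ?_ (fun x => ?_)
  · refine Measurable.ite (measurableSet_le ?_ measurable_const) measurable_const measurable_const
    exact ((measurable_pi_apply i).sub measurable_const).norm
  · split_ifs
    · simp
    · simp

theorem WI_pinv {S : Type} (D : Species S) (hD : D.Valid) {I : Type} [Fintype I]
    [DecidableEq I] (sp : I → S) (ℓ : ℝ) (i : I) : WI D sp ℓ (pinv D sp i) :=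
  fun Ψ hΨ τ => pinv_intg D hD sp ℓ Ψ hΨ i τ

/-- the grid -/
noncomputable def gm : Finset (Fin 3 → ℤ) := Fintype.piFinset (fun _ => Finset.Icc (-17) 17)

/-- the corner of a cube of the grid -/
noncomputable def gc (y : E3) (s : ℝ) (m : Fin 3 → ℤ) : E3 :=
  WithLp.toLp 2 (fun k => y k + s * (m k : ℝ))

open Classical in
/-- the cubes which meet the ball -/
noncomputable def gf (y : E3) (r : ℝ) : Finset (Fin 3 → ℤ) :=
  gm.filter (fun m => ∃ z ∈ Qc (gc y (r / 8) m) (r / 8), ‖z - y‖ < 2 * r)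

theorem gf_mem (y : E3) (r : ℝ) (m : Fin 3 → ℤ) : m ∈ gf y r ↔
    m ∈ gm ∧ ∃ z ∈ Qc (gc y (r / 8) m) (r / 8), ‖z - y‖ < 2 * r := by
  classical
  unfold gf
  simp only [Finset.mem_filter]

theorem gf_card (y : E3) (r : ℝ) : (gf y r).card ≤ gm.card :=
  Finset.card_le_card fun m hm => ((gf_mem y r m).1 hm).1

theorem gc_floor (y : E3) (s : ℝ) (hs : 0 < s) (m : Fin 3 → ℤ) (v : E3) :
    v ∈ Qc (gc y s m) s ↔ m = fun k => ⌊(v k - y k) / s⌋ := by
  constructor
  · intro h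
    funext k
    have h1 : y k + s * (m k : ℝ) ≤ v k ∧ v k < y k + s * (m k : ℝ) + s := h k
    symm
    rw [Int.floor_eq_iff]
    constructor
    · rw [le_div_iff₀ hs]; linarith [h1.1]
    · rw [div_lt_iff₀ hs]; linarith [h1.2]
  · intro h k
    show y k + s * (m k : ℝ) ≤ v k ∧ v k < y k + s * (m k : ℝ) + s
    have h1 : m k = ⌊(v k - y k) / s⌋ := by rw [h]
    have h2 := Int.floor_le ((v k - y k) / s)
    have h3 := Int.lt_floor_add_one ((v k - y k) / s)
    rw [← h1] at h2 h3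
    rw [le_div_iff₀ hs] at h2
    rw [div_lt_iff₀ hs] at h3
    constructor <;> linarith

theorem abs_coord (v : E3) (k : Fin 3) : |v k| ≤ ‖v‖ := by
  have := PiLp.norm_apply_le (p := 2) v k
  simpa [Real.norm_eq_abs] using this

theorem gf_cover (y : E3) (r : ℝ) (hr : 0 < r) (v : E3) (hv : ‖v - y‖ < 2 * r) :
    1 ≤ ∑ m ∈ gf y r, iq (gc y (r / 8) m) (r / 8) v := by
  have hs : 0 < r / 8 := by positivity
  obtain ⟨m, hm⟩ : ∃ m : Fin 3 → ℤ, m = fun k => ⌊(v k - y k) / (r / 8)⌋ := ⟨_, rfl⟩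
  have hq : v ∈ Qc (gc y (r / 8) m) (r / 8) := (gc_floor y _ hs m v).2 hm
  have hmem : m ∈ gf y r := by
    rw [gf_mem]
    refine ⟨?_, v, hq, hv⟩
    unfold gm
    rw [Fintype.mem_piFinset]
    intro k
    have h1 := abs_coord (v - y) k
    have h2 : |v k - y k| < 2 * r := lt_of_le_of_lt h1 hv
    rw [abs_lt] at h2
    rw [Finset.mem_Icc, hm]
    constructor
    · refine Int.le_floor.2 ?_
      rw [le_div_iff₀ hs]
      push_cast
      linarith [h2.1]
    · refine Int.le_of_lt_add_one (Int.floor_lt.2 ?_)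
      rw [div_lt_iff₀ hs]
      push_cast
      linarith [h2.2]
  have h1 := Finset.single_le_sum (f := fun m => iq (gc y (r / 8) m) (r / 8) v)
    (fun m _ => iq_nonneg _ _ _) hmem
  refine le_trans (le_of_eq ?_) h1
  show 1 = iq (gc y (r / 8) m) (r / 8) v
  unfold iq
  rw [Set.indicator_of_mem hq]

theorem gf_in (y : E3) (r : ℝ) (hr : 0 < r) (m : Fin 3 → ℤ) (hm : m ∈ gf y r) (v : E3)
    (hv : v ∈ Qp (gc y (r / 8) m) (r / 8)) : ‖v - y‖ < 3 * r := by
  rw [gf_mem] at hm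
  obtain ⟨-, z, hz, hz2⟩ := hm
  have h1 : ∀ k, (v k - z k) ^ 2 ≤ (r / 4) ^ 2 := by
    intro k
    have h2 := hz k
    have h3 := hv k
    apply sq_le_sq'
    · linarith [h2.2, h3.1]
    · linarith [h2.1, h3.2]
  have h4 : ‖v - z‖ < r := by
    have h5 : ‖v - z‖ ^ 2 < r ^ 2 := by
      rw [EuclideanSpace.norm_sq_eq, Fin.sum_univ_three]
      have h6 : ∀ k, ‖(v - z) k‖ ^ 2 ≤ (r / 4) ^ 2 := by
        intro k
        have e : (v - z) k = v k - z k := rfl
        rw [e, Real.norm_eq_abs, sq_abs]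
        exact h1 k
      have h7 := h6 0
      have h8 := h6 1
      have h9 := h6 2
      nlinarith [sq_nonneg r, mul_pos hr hr]
    exact lt_of_pow_lt_pow_left₀ 2 hr.le h5
  have e : v - y = (v - z) + (z - y) := by abel
  rw [e]
  exact (norm_add_le _ _).trans_lt (by linarith)

theorem Qc_sub_Qp (q : E3) (s : ℝ) (hs : 0 < s) : Qc q s ⊆ Qp q s := by
  intro z hz k
  have := hz k
  exact ⟨by linarith [this.1], by linarith [this.2]⟩

theorem gf_le (y : E3) (r : ℝ) (hr : 0 < r) (v : E3) :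
    ∑ m ∈ gf y r, iq (gc y (r / 8) m) (r / 8) v ≤ if ‖v - y‖ < 3 * r then 1 else 0 := by
  classical
  have hs : 0 < r / 8 := by positivity
  by_cases h : ∃ m ∈ gf y r, v ∈ Qc (gc y (r / 8) m) (r / 8)
  · obtain ⟨m, hm, hv⟩ := h
    rw [if_pos (gf_in y r hr m hm v (Qc_sub_Qp _ _ hs hv))]
    have h1 : ∀ m' ∈ gf y r, iq (gc y (r / 8) m') (r / 8) v ≤ if m' = m then 1 else 0 := by
      intro m' _
      by_cases h2 : v ∈ Qc (gc y (r / 8) m') (r / 8)
      · rw [if_pos]
        · exact iq_le _ _ _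
        · rw [(gc_floor y _ hs m' v).1 h2, (gc_floor y _ hs m v).1 hv]
      · unfold iq
        rw [Set.indicator_of_notMem h2]
        split_ifs <;> norm_num
    refine (Finset.sum_le_sum h1).trans ?_
    rw [Finset.sum_ite_eq' (gf y r) m]
    split_ifs <;> norm_num
  · push Not at h
    rw [Finset.sum_eq_zero]
    · split_ifs <;> norm_num
    · intro m hm
      unfold iq
      rw [Set.indicator_of_notMem (h m hm)]

theorem cy_nonneg' (y : E3) (r : ℝ) (v : E3) : 0 ≤ cy y r v := Real.smoothTransition.nonneg _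

theorem cy_le_one' (y : E3) (r : ℝ) (v : E3) : cy y r v ≤ 1 := Real.smoothTransition.le_one _

theorem cy_out (y : E3) (r : ℝ) (hr : 0 < r) (v : E3) (hv : 2 * r ≤ ‖v - y‖) : cy y r v = 0 := by
  unfold cy ct
  refine Real.smoothTransition.zero_of_nonpos ?_
  rw [norm_smul, norm_inv, Real.norm_of_nonneg hr.le]
  have h1 : 2 ≤ r⁻¹ * ‖v - y‖ := by
    rw [inv_mul_eq_div, le_div_iff₀ hr]
    exact hv
  have h2 : 4 ≤ (r⁻¹ * ‖v - y‖) ^ 2 := by nlinarith
  linarith

theorem cy_meas (y : E3) (r : ℝ) : Measurable (cy y r) := by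
  unfold cy ct
  refine Real.smoothTransition.continuous.measurable.comp ?_
  fun_prop

theorem cy_le_sum (y : E3) (r : ℝ) (hr : 0 < r) (v : E3) :
    cy y r v ≤ ∑ m ∈ gf y r, iq (gc y (r / 8) m) (r / 8) v := by
  by_cases h : ‖v - y‖ < 2 * r
  · exact (cy_le_one' y r v).trans (gf_cover y r hr v h)
  · rw [cy_out y r hr v (not_lt.1 h)]
    exact Finset.sum_nonneg fun m _ => iq_nonneg _ _ _

theorem kin_intg {S : Type} (D : Species S) {I : Type} [Fintype I] [DecidableEq I]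
    (sp : I → S) (ℓ : ℝ) (Ψ : Wave D I) (hΨ : IsState D sp ℓ Ψ) (i : I) (τ : I → Fin D.g)
    (f : (I → E3) → ℝ) (hf : Measurable f) (hb : ∀ x, |f x| ≤ 1) :
    Integrable (fun x => f x * kin D sp i (Ψ τ) x) := by
  have h := ((int_state D sp ℓ Ψ hΨ τ).2.1 i).bdd_mul (c := 1) hf.aestronglyMeasurable
    (Filter.Eventually.of_forall fun x => by rw [Real.norm_eq_abs]; exact hb x)
  exact h

/-- TARGET -/
theorem pen_kin {S : Type} [Fintype S] [DecidableEq S] (D : Species S) (hD : D.Valid)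
    (hf : ∀ s, D.charge s < 0 → D.fermion s = true) (δ : ℝ) (hδ : 0 < δ) :
    ∃ C : ℝ, 0 < C ∧ ∀ {I : Type} [Fintype I] [DecidableEq I] (sp : I → S) (ℓ : ℝ)
      (Ψ : Wave D I), IsState D sp ℓ Ψ → ∀ (y : E3) (r : ℝ), 0 < r → r ≤ 1 →
        wm D (pl (cy y r) (fun i => D.charge (sp i))) Ψ ≤
          δ * kb D sp y (3 * r) Ψ + C / r * wm D (nb y (3 * r)) Ψ := by
  obtain ⟨C, hC, H⟩ := pen_cube_sum D hD hf δ hδ
  refine ⟨8 * C * (1 + (gm.card : ℝ)), by positivity, ?_⟩
  intro I _ _ sp ℓ Ψ hΨ y r hr hr1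
  have hs : 0 < r / 8 := by positivity
  have hs1 : r / 8 ≤ 1 := by linarith
  have hcy : ∀ i, WI D sp ℓ (fun x => cy y r (x i) * pinv D sp i x) := fun i =>
    WI_mulm D sp ℓ (WI_pinv D hD sp ℓ i) _ ((cy_meas y r).comp (measurable_pi_apply i))
      (fun x => abs_le_one_of (cy_nonneg' y r _) (cy_le_one' y r _))
  have hiq : ∀ q s i, WI D sp ℓ (fun x => iq q s (x i) * pinv D sp i x) := fun q s i =>
    WI_mulm D sp ℓ (WI_pinv D hD sp ℓ i) _ ((iq_meas q s).comp (measurable_pi_apply i))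
      (fun x => abs_le_one_of (iq_nonneg q s _) (iq_le q s _))
  -- the penalty as a sum
  have h1 : wm D (pl (cy y r) (fun i => D.charge (sp i))) Ψ =
      ∑ i, (if D.charge (sp i) < 0 then wm D (fun x => cy y r (x i) * pinv D sp i x) Ψ
        else 0) := by
    have e : pl (I := I) (cy y r) (fun i => D.charge (sp i)) = fun x => ∑ i, (fun (i : I)
        (x : I → E3) => if D.charge (sp i) < 0 then cy y r (x i) * pinv D sp i x else 0) i x := by
      funext x
      rfl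
    rw [e, wm_sum D sp ℓ Finset.univ _ _ Ψ hΨ]
    · refine Finset.sum_congr rfl fun i _ => ?_
      by_cases hi : D.charge (sp i) < 0
      · simp only [if_pos hi]
      · simp only [if_neg hi]
        unfold wm
        simp
    · intro i _
      by_cases hi : D.charge (sp i) < 0
      · simp only [if_pos hi]
        exact hcy i
      · simp only [if_neg hi]
        exact WI_zero D sp ℓ
  -- the cover
  have h2 : ∀ i, wm D (fun x => cy y r (x i) * pinv D sp i x) Ψ ≤
      ∑ m ∈ gf y r, wm D (fun x => iq (gc y (r / 8) m) (r / 8) (x i) * pinv D sp i x) Ψ := by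
    intro i
    rw [← wm_sum D sp ℓ (gf y r) (fun m x => iq (gc y (r / 8) m) (r / 8) (x i) *
      pinv D sp i x) (fun m _ => hiq _ _ i) Ψ hΨ]
    refine wm_mono D sp ℓ (hcy i) (WI_sum D sp ℓ _ _ fun m _ => hiq _ _ i) Ψ hΨ
      (Filter.Eventually.of_forall fun x => ?_)
    rw [← Finset.sum_mul]
    exact mul_le_mul_of_nonneg_right (cy_le_sum y r hr _) (pinv_nonneg D sp i x)
  have h3 : ∑ i, (if D.charge (sp i) < 0 then
      wm D (fun x => cy y r (x i) * pinv D sp i x) Ψ else 0) ≤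
      ∑ m ∈ gf y r, ∑ i, (if D.charge (sp i) < 0 then
        wm D (fun x => iq (gc y (r / 8) m) (r / 8) (x i) * pinv D sp i x) Ψ else 0) := by
    rw [Finset.sum_comm]
    refine Finset.sum_le_sum fun i _ => ?_
    by_cases hi : D.charge (sp i) < 0
    · simp only [if_pos hi]
      exact h2 i
    · simp only [if_neg hi]
      simp
  have h4 := Finset.sum_le_sum fun m (_ : m ∈ gf y r) =>
    H sp ℓ Ψ hΨ (gc y (r / 8) m) (r / 8) hs hs1
  rw [Finset.sum_add_distrib, ← Finset.mul_sum, ← Finset.mul_sum, Finset.sum_add_distrib] at h4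
  -- kinetic energy
  have h5 : ∑ m ∈ gf y r, ∑ i, kf D sp (iq (gc y (r / 8) m) (r / 8)) i Ψ ≤
      kb D sp y (3 * r) Ψ := by
    unfold kf kb
    rw [Finset.sum_comm]
    have e1 : ∀ i, ∑ m ∈ gf y r, ∑ τ, ∫ x, iq (gc y (r / 8) m) (r / 8) (x i) *
        kin D sp i (Ψ τ) x = ∑ τ, ∫ x, (∑ m ∈ gf y r, iq (gc y (r / 8) m) (r / 8) (x i)) *
        kin D sp i (Ψ τ) x := by
      intro i
      rw [Finset.sum_comm]
      refine Finset.sum_congr rfl fun τ _ => ?_
      rw [← integral_finsetSum]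
      · congr 1
        funext x
        rw [Finset.sum_mul]
      · intro m _
        exact kin_intg D sp ℓ Ψ hΨ i τ _ ((iq_meas _ _).comp (measurable_pi_apply i))
          (fun x => abs_le_one_of (iq_nonneg _ _ _) (iq_le _ _ _))
    simp only [e1]
    rw [Finset.sum_comm]
    refine Finset.sum_le_sum fun τ _ => ?_
    have hm1 : ∀ i, Measurable (fun x : I → E3 => ∑ m ∈ gf y r,
        iq (gc y (r / 8) m) (r / 8) (x i)) := fun i =>
      Finset.measurable_sum _ fun m _ => (iq_meas _ _).comp (measurable_pi_apply i)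
    have hb1 : ∀ (i : I) (x : I → E3), |∑ m ∈ gf y r, iq (gc y (r / 8) m) (r / 8) (x i)| ≤ 1 := by
      intro i x
      refine abs_le_one_of (Finset.sum_nonneg fun m _ => iq_nonneg _ _ _) ?_
      refine (gf_le y r hr _).trans ?_
      split_ifs <;> norm_num
    have hm2 : ∀ i, Measurable (fun x : I → E3 => if ‖x i - y‖ < 3 * r then (1 : ℝ) else 0) := by
      intro i
      refine Measurable.ite (measurableSet_lt ?_ measurable_const) measurable_const
        measurable_const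
      exact ((measurable_pi_apply i).sub measurable_const).norm
    have hb2 : ∀ (i : I) (x : I → E3), |if ‖x i - y‖ < 3 * r then (1 : ℝ) else 0| ≤ 1 := by
      intro i x
      split_ifs <;> simp
    have e2 : ∀ (j : I) (x : I → E3), (if ‖x j - y‖ < 3 * r then kin D sp j (Ψ τ) x else 0) =
        (if ‖x j - y‖ < 3 * r then (1 : ℝ) else 0) * kin D sp j (Ψ τ) x := by
      intro j x
      split_ifs <;> simp
    simp only [e2]
    rw [integral_finsetSum _ (fun j _ => kin_intg D sp ℓ Ψ hΨ j τ _ (hm2 j) (hb2 j))]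
    refine Finset.sum_le_sum fun i _ => ?_
    refine integral_mono (kin_intg D sp ℓ Ψ hΨ i τ _ (hm1 i) (hb1 i))
      (kin_intg D sp ℓ Ψ hΨ i τ _ (hm2 i) (hb2 i)) fun x => ?_
    exact mul_le_mul_of_nonneg_right (gf_le y r hr _) (pen_kin_nonneg D hD sp i _ x)
  -- numbers
  have hnb := WI_nb D sp ℓ y (3 * r)
  have h6 : ∑ m ∈ gf y r, ∑ i, wm D (fun x => iq (gc y (r / 8) m) (r / 8) (x i)) Ψ ≤
      wm D (nb y (3 * r)) Ψ := by
    have e1 : ∀ m, ∑ i, wm D (fun x => iq (gc y (r / 8) m) (r / 8) (x i)) Ψ =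
        wm D (fun x => ∑ i, iq (gc y (r / 8) m) (r / 8) (x i)) Ψ := by
      intro m
      rw [wm_sum D sp ℓ Finset.univ (fun i x => iq (gc y (r / 8) m) (r / 8) (x i))
        (fun i _ => WI_iq D sp ℓ _ _ i) Ψ hΨ]
    have w1 : ∀ m, WI D sp ℓ (fun x => ∑ i, iq (gc y (r / 8) m) (r / 8) (x i)) := fun m =>
      WI_sum D sp ℓ _ _ fun i _ => WI_iq D sp ℓ _ _ i
    simp only [e1]
    rw [← wm_sum D sp ℓ (gf y r) (fun m x => ∑ i, iq (gc y (r / 8) m) (r / 8) (x i))
      (fun m _ => w1 m) Ψ hΨ]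
    refine wm_mono D sp ℓ (WI_sum D sp ℓ _ _ fun m _ => w1 m) hnb Ψ hΨ
      (Filter.Eventually.of_forall fun x => ?_)
    rw [Finset.sum_comm]
    unfold nb
    refine Finset.sum_le_sum fun i _ => (gf_le y r hr _).trans ?_
    by_cases h : ‖x i - y‖ < 3 * r
    · rw [if_pos h, if_pos h.le]
    · rw [if_neg h]
      split_ifs <;> norm_num
  have h7 : ∑ m ∈ gf y r, wm D (npl D sp (Qp (gc y (r / 8) m) (r / 8))) Ψ ≤
      (gm.card : ℝ) * wm D (nb y (3 * r)) Ψ := by
    have hn0 : 0 ≤ wm D (nb y (3 * r)) Ψ := by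
      refine pen_wm_nonneg D _ (fun x => ?_) Ψ
      unfold nb
      refine Finset.sum_nonneg fun i _ => ?_
      split_ifs <;> norm_num
    have h8 : ∀ m ∈ gf y r, wm D (npl D sp (Qp (gc y (r / 8) m) (r / 8))) Ψ ≤
        wm D (nb y (3 * r)) Ψ := by
      intro m hm
      refine wm_mono D sp ℓ (WI_npl D sp ℓ _ _) hnb Ψ hΨ
        (Filter.Eventually.of_forall fun x => ?_)
      unfold npl nb
      refine Finset.sum_le_sum fun i _ => ?_
      by_cases h : 0 < D.charge (sp i) ∧ x i ∈ Qp (gc y (r / 8) m) (r / 8)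
      · rw [if_pos h, if_pos (gf_in y r hr m hm _ h.2).le]
      · rw [if_neg h]
        split_ifs <;> norm_num
    refine (Finset.sum_le_sum h8).trans ?_
    rw [Finset.sum_const, nsmul_eq_mul]
    refine mul_le_mul_of_nonneg_right ?_ hn0
    have h9 : (gf y r).card ≤ gm.card := gf_card y r
    exact_mod_cast h9
  rw [h1]
  refine (h3.trans h4).trans ?_
  have h10 := mul_le_mul_of_nonneg_left h5 hδ.le
  have h11 : C / (r / 8) * (∑ m ∈ gf y r, ∑ i, wm D (fun x =>
      iq (gc y (r / 8) m) (r / 8) (x i)) Ψ +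
      ∑ m ∈ gf y r, wm D (npl D sp (Qp (gc y (r / 8) m) (r / 8))) Ψ) ≤
      C / (r / 8) * (wm D (nb y (3 * r)) Ψ + (gm.card : ℝ) * wm D (nb y (3 * r)) Ψ) :=
    mul_le_mul_of_nonneg_left (add_le_add h6 h7) (by positivity)
  have e : C / (r / 8) * (wm D (nb y (3 * r)) Ψ + (gm.card : ℝ) * wm D (nb y (3 * r)) Ψ) =
      8 * C * (1 + (gm.card : ℝ)) / r * wm D (nb y (3 * r)) Ψ := by
    field_simp
  rw [← e]
  exact add_le_add h10 h11

end Pool.Agent.Helper780_CP.RPEN
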