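import Pool.Agent.Helper780_CP.LLDefs2
import Pool.Agent.Helper780_CP.BnDefs
import Pool.Agent.Helper780_CP.RPEN

set_option autoImplicit false

open MeasureTheory
open scoped Topology

namespace Pool.Agent.Helper780_CP.RB13

open Pool.Agent.Helper780_CP
open Pool.Agent.Helper985.CP

open Pool.Agent.Helper780_CP Pool.Agent.Helper985.CP

theorem cover_ball (R : ℝ) : ∃ F : Finset E3, ∀ v : E3, ‖v‖ ≤ R → ∃ q ∈ F, ‖v - q‖ ≤ 1 := by
  have h := (isCompact_closedBall (0 : E3) R).finite_cover_balls (e := 1) one_pos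
  obtain ⟨t, -, ht, hc⟩ := h
  refine ⟨ht.toFinset, fun v hv => ?_⟩
  have h1 := hc (mem_closedBall_zero_iff.2 hv)
  simp only [Set.mem_iUnion] at h1
  obtain ⟨q, hq, hq2⟩ := h1
  exact ⟨q, ht.mem_toFinset.2 hq, by rw [← dist_eq_norm]; exact (Metric.mem_ball.1 hq2).le⟩

theorem cy_one (w v : E3) (h : ‖v - w‖ ≤ 1) : cy w 1 v = 1 := by
  unfold cy ct
  refine Real.smoothTransition.one_of_one_le ?_
  rw [inv_one, one_smul, le_div_iff₀ (by norm_num)]
  have h0 := norm_nonneg (v - w)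
  nlinarith

theorem kb_nonneg {S : Type} (D : Species S) (hD : D.Valid) {I : Type} [Fintype I]
    [DecidableEq I] (sp : I → S) (y : E3) (R : ℝ) (Ψ : Wave D I) : 0 ≤ kb D sp y R Ψ := by
  unfold kb
  refine Finset.sum_nonneg fun τ _ => integral_nonneg fun x => Finset.sum_nonneg fun j _ => ?_
  show (0 : ℝ) ≤ if ‖x j - y‖ < R then kin D sp j (Ψ τ) x else 0
  split_ifs
  · exact RPEN.pen_kin_nonneg D hD sp j _ x
  · exact le_rfl

theorem nb_nonneg {I : Type} [Fintype I] (y : E3) (R : ℝ) (x : I → E3) : 0 ≤ nb y R x := by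
  unfold nb
  exact Finset.sum_nonneg fun i _ => by split_ifs <;> norm_num

open Classical in
/-- TARGET -/
theorem pen_grid' {S : Type} [Fintype S] [DecidableEq S] (D : Species S) (hD : D.Valid)
    (hf : ∀ s, D.charge s < 0 → D.fermion s = true) (R δ : ℝ) (hδ : 0 < δ) :
    ∃ C : ℝ, 0 < C ∧ ∀ {I : Type} [Fintype I] [DecidableEq I] (sp : I → S) (ℓ : ℝ) {k : ℕ}
      (p : Fin k → ℝ) (ψ : Fin k → Wave D I), (∀ j, 0 ≤ p j) → (∀ j, IsState D sp ℓ (ψ j)) →
      ∀ X Y : ℝ, (∀ w, ∑ j, p j * kb D sp w 3 (ψ j) ≤ X) → (∀ w, wx D p ψ (nb w 3) ≤ Y) →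
      ∀ y0 : E3, wx D p ψ (fun x => ∑ i, if D.charge (sp i) < 0 ∧ ‖x i - y0‖ ≤ R then
        pv (fun i => D.charge (sp i)) x i else 0) ≤ δ * X + C * Y := by
  obtain ⟨F, hF⟩ := cover_ball R
  obtain ⟨M, hM⟩ : ∃ M : ℝ, M = (F.card : ℝ) := ⟨_, rfl⟩
  have hM0 : 0 ≤ M := by rw [hM]; positivity
  obtain ⟨C, hC, H⟩ := RPEN.pen_kin D hD hf (δ / (M + 1)) (by positivity)
  refine ⟨(M + 1) * C, by positivity, ?_⟩
  intro I _ _ sp ℓ k p ψ hp hψ X Y hX hY y0
  have hX0 : 0 ≤ X := le_trans (Finset.sum_nonneg fun j _ =>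
    mul_nonneg (hp j) (kb_nonneg D hD sp 0 3 (ψ j))) (hX 0)
  have hY0 : 0 ≤ Y := le_trans (Finset.sum_nonneg fun j _ =>
    mul_nonneg (hp j) (RPEN.pen_wm_nonneg D _ (nb_nonneg 0 3) (ψ j))) (hY 0)
  have hpl : ∀ w, WI D sp ℓ (pl (cy w 1) (fun i => D.charge (sp i))) := by
    intro w
    have e : pl (I := I) (cy w 1) (fun i => D.charge (sp i)) = fun x => ∑ i, (fun (i : I)
        (x : I → E3) => (if D.charge (sp i) < 0 then cy w 1 (x i) else 0) * pinv D sp i x) i x := by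
      funext x
      unfold pl
      refine Finset.sum_congr rfl fun i _ => ?_
      by_cases hi : D.charge (sp i) < 0
      · simp only [if_pos hi]
        rfl
      · simp only [if_neg hi, zero_mul]
    rw [e]
    refine WI_sum D sp ℓ _ _ fun i _ => ?_
    refine RPEN.WI_mulm D sp ℓ (RPEN.WI_pinv D hD sp ℓ i) _ ?_ (fun x => ?_)
    · by_cases hi : D.charge (sp i) < 0
      · simp only [if_pos hi]
        exact (RPEN.cy_meas w 1).comp (measurable_pi_apply i)
      · simp only [if_neg hi]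
        exact measurable_const
    · split_ifs
      · exact RPEN.abs_le_one_of (RPEN.cy_nonneg' _ _ _) (RPEN.cy_le_one' _ _ _)
      · simp
  have hL : WI D sp ℓ (fun x => ∑ i, if D.charge (sp i) < 0 ∧ ‖x i - y0‖ ≤ R then
      pv (fun i => D.charge (sp i)) x i else 0) := by
    have e : (fun x : I → E3 => ∑ i, if D.charge (sp i) < 0 ∧ ‖x i - y0‖ ≤ R then
        pv (fun i => D.charge (sp i)) x i else 0) = fun x => ∑ i, (fun (i : I)
        (x : I → E3) => (if D.charge (sp i) < 0 ∧ ‖x i - y0‖ ≤ R then (1 : ℝ) else 0) *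
          pinv D sp i x) i x := by
      funext x
      refine Finset.sum_congr rfl fun i _ => ?_
      by_cases hi : D.charge (sp i) < 0 ∧ ‖x i - y0‖ ≤ R
      · simp only [if_pos hi, one_mul]
        rfl
      · simp only [if_neg hi, zero_mul]
    rw [e]
    refine WI_sum D sp ℓ _ _ fun i _ => ?_
    refine RPEN.WI_mulm D sp ℓ (RPEN.WI_pinv D hD sp ℓ i) _ ?_ (fun x => ?_)
    · refine Measurable.ite ?_ measurable_const measurable_const
      by_cases hi : D.charge (sp i) < 0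
      · simp only [hi, true_and]
        exact measurableSet_le ((measurable_pi_apply i).sub measurable_const).norm measurable_const
      · simp only [hi, false_and]
        exact MeasurableSet.const _
    · split_ifs <;> simp
  have hS : WI D sp ℓ (fun x => ∑ q ∈ F, pl (cy (y0 + q) 1) (fun i => D.charge (sp i)) x) :=
    WI_sum D sp ℓ _ _ fun q _ => hpl _
  have h1 : ∀ j, wm D (fun x => ∑ i, if D.charge (sp i) < 0 ∧ ‖x i - y0‖ ≤ R then
      pv (fun i => D.charge (sp i)) x i else 0) (ψ j) ≤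
      ∑ q ∈ F, (δ / (M + 1) * kb D sp (y0 + q) 3 (ψ j) + C * wm D (nb (y0 + q) 3) (ψ j)) := by
    intro j
    have h2 : wm D (fun x => ∑ i, if D.charge (sp i) < 0 ∧ ‖x i - y0‖ ≤ R then
        pv (fun i => D.charge (sp i)) x i else 0) (ψ j) ≤
        wm D (fun x => ∑ q ∈ F, pl (cy (y0 + q) 1) (fun i => D.charge (sp i)) x) (ψ j) := by
      refine wm_mono D sp ℓ hL hS (ψ j) (hψ j) (Filter.Eventually.of_forall fun x => ?_)
      unfold pl
      rw [Finset.sum_comm]
      refine Finset.sum_le_sum fun i _ => ?_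
      have hpv : 0 ≤ pv (fun i => D.charge (sp i)) x i := pinv_nonneg D sp i x
      by_cases hi : D.charge (sp i) < 0
      · simp only [hi, true_and, if_true]
        rw [← Finset.sum_mul]
        by_cases hR : ‖x i - y0‖ ≤ R
        · rw [if_pos hR]
          obtain ⟨q, hq, hq1⟩ := hF _ hR
          have h3 : 1 ≤ ∑ q ∈ F, cy (y0 + q) 1 (x i) := by
            have h4 := Finset.single_le_sum (f := fun q => cy (y0 + q) 1 (x i))
              (fun q _ => RPEN.cy_nonneg' _ _ _) hq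
            refine le_trans (le_of_eq ?_) h4
            rw [cy_one]
            rw [← sub_sub]
            exact hq1
          nlinarith
        · rw [if_neg hR]
          exact mul_nonneg (Finset.sum_nonneg fun q _ => RPEN.cy_nonneg' _ _ _) hpv
      · simp [hi]
    refine h2.trans ?_
    rw [wm_sum D sp ℓ F (fun q x => pl (cy (y0 + q) 1) (fun i => D.charge (sp i)) x)
      (fun q _ => hpl _) (ψ j) (hψ j)]
    refine Finset.sum_le_sum fun q _ => ?_
    have h5 := H sp ℓ (ψ j) (hψ j) (y0 + q) 1 one_pos le_rfl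
    simpa only [mul_one, div_one] using h5
  have h2 : wx D p ψ (fun x => ∑ i, if D.charge (sp i) < 0 ∧ ‖x i - y0‖ ≤ R then
      pv (fun i => D.charge (sp i)) x i else 0) ≤
      ∑ q ∈ F, (δ / (M + 1) * ∑ j, p j * kb D sp (y0 + q) 3 (ψ j) +
        C * wx D p ψ (nb (y0 + q) 3)) := by
    unfold wx
    refine (Finset.sum_le_sum fun j _ => mul_le_mul_of_nonneg_left (h1 j) (hp j)).trans ?_
    refine le_of_eq ?_
    simp only [Finset.mul_sum]
    rw [Finset.sum_comm]
    refine Finset.sum_congr rfl fun q _ => ?_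
    rw [← Finset.sum_add_distrib]
    refine Finset.sum_congr rfl fun j _ => ?_
    ring
  refine h2.trans ?_
  have h3 : ∀ q ∈ F, (δ / (M + 1) * ∑ j, p j * kb D sp (y0 + q) 3 (ψ j) +
        C * wx D p ψ (nb (y0 + q) 3)) ≤ δ / (M + 1) * X + C * Y := fun q _ =>
    add_le_add (mul_le_mul_of_nonneg_left (hX _) (by positivity))
      (mul_le_mul_of_nonneg_left (hY _) hC.le)
  refine (Finset.sum_le_sum h3).trans ?_
  rw [Finset.sum_const, nsmul_eq_mul, ← hM]
  have h4 : M * (δ / (M + 1) * X) ≤ δ * X := by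
    have h5 : M * (δ / (M + 1) * X) = M / (M + 1) * (δ * X) := by ring
    rw [h5]
    have h6 : M / (M + 1) ≤ 1 := by rw [div_le_one (by positivity)]; linarith
    have h7 : 0 ≤ δ * X := by positivity
    nlinarith
  have h5 : M * (C * Y) ≤ (M + 1) * C * Y := by
    have : 0 ≤ C * Y := by positivity
    nlinarith
  linarith

/-- TARGET -/
theorem pen_grid {S : Type} [Fintype S] [DecidableEq S] (D : Species S) (hD : D.Valid)
    (hf : ∀ s, D.charge s < 0 → D.fermion s = true) (R δ : ℝ) (hR : 0 ≤ R) (hδ : 0 < δ) :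
    ∃ C : ℝ, 0 < C ∧ ∀ {I : Type} [Fintype I] [DecidableEq I] (sp : I → S) (ℓ : ℝ) {k : ℕ}
      (p : Fin k → ℝ) (ψ : Fin k → Wave D I), (∀ j, 0 ≤ p j) → (∀ j, IsState D sp ℓ (ψ j)) →
      ∀ X Y : ℝ, (∀ w, ∑ j, p j * kb D sp w 3 (ψ j) ≤ X) → (∀ w, wx D p ψ (nb w 3) ≤ Y) →
      ∀ y0 : E3, wx D p ψ (fun x => ∑ i, if D.charge (sp i) < 0 ∧ ‖x i - y0‖ ≤ R then
        pv (fun i => D.charge (sp i)) x i else 0) ≤ δ * X + C * Y := by
  obtain ⟨C, hC, H⟩ := pen_grid' D hD hf R δ hδ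
  refine ⟨C, hC, ?_⟩
  intro I _ _ sp ℓ k p ψ hp hψ X Y hX hY y0
  convert H sp ℓ p ψ hp hψ X Y hX hY y0 using 2

end Pool.Agent.Helper780_CP.RB13
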