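import Pool.Agent.Helper780_CP.LLDefs2
import Pool.Agent.Helper780_CP.BnDefs
import Pool.Agent.Helper780_CP.Newt

set_option autoImplicit false

open MeasureTheory
open scoped Topology

namespace Pool.Agent.Helper780_CP.RB22

open Pool.Agent.Helper780_CP
open Pool.Agent.Helper985.CP

open Pool.Agent.Helper780_CP Pool.Agent.Helper985.CP

theorem vol_pos : 0 < volume.real (Metric.ball (0 : E3) (1 / 2)) := by
  unfold Measure.real
  exact ENNReal.toReal_pos (Metric.measure_ball_pos volume (0 : E3) (by norm_num)).ne'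
    Metric.isBounded_ball.measure_lt_top.ne

theorem vol_eq (ω : E3) : volume.real (Metric.ball ω (1 / 2)) =
    volume.real (Metric.ball (0 : E3) (1 / 2)) := by
  unfold Measure.real
  rw [Measure.addHaar_ball_center]

theorem avg_inv (a ω : E3) (h : 1 / 2 < ‖a - ω‖) :
    ∫ v in Metric.ball ω (1 / 2), 1 / ‖a - v‖ =
      volume.real (Metric.ball (0 : E3) (1 / 2)) * (1 / ‖a - ω‖) := by
  set V := volume.real (Metric.ball (0 : E3) (1 / 2)) with hV
  have hVp : 0 < V := vol_pos
  have hm : Measurable (fun t : ℝ => if t < 1 / 2 then V⁻¹ else 0) :=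
    Measurable.ite measurableSet_Iio measurable_const measurable_const
  have e0 : ∀ w : E3, (if ‖w‖ < 1 / 2 then V⁻¹ else 0) =
      (Metric.ball (0 : E3) (1 / 2)).indicator (fun _ => V⁻¹) w := by
    intro w
    by_cases hw : ‖w‖ < 1 / 2
    · rw [if_pos hw, Set.indicator_of_mem (by simpa using hw)]
    · rw [if_neg hw, Set.indicator_of_notMem (by simpa using hw)]
  have h1 : ∫ w : E3, (fun t : ℝ => if t < 1 / 2 then V⁻¹ else 0) ‖w‖ = 1 := by
    simp only [e0]
    rw [integral_indicator Metric.isOpen_ball.measurableSet, setIntegral_const, smul_eq_mul, ← hV]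
    exact mul_inv_cancel₀ hVp.ne'
  have key := newton_out _ hm (1 / 2) (by norm_num) (fun t ht => if_neg (not_lt.2 ht)) h1 (a - ω)
    h.le
  have e2 : ∫ w : E3, (fun t : ℝ => if t < 1 / 2 then V⁻¹ else 0) ‖w‖ / ‖a - ω - w‖ =
      V⁻¹ * ∫ v in Metric.ball ω (1 / 2), 1 / ‖a - v‖ := by
    rw [← integral_indicator Metric.isOpen_ball.measurableSet, ← integral_const_mul]
    rw [← integral_sub_right_eq_self (fun w : E3 =>
      (fun t : ℝ => if t < 1 / 2 then V⁻¹ else 0) ‖w‖ / ‖a - ω - w‖) ω]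
    refine integral_congr_ae (Filter.Eventually.of_forall fun v => ?_)
    have e3 : a - ω - (v - ω) = a - v := by abel
    simp only [e3]
    by_cases hv : ‖v - ω‖ < 1 / 2
    · rw [if_pos hv, Set.indicator_of_mem (by simpa [dist_eq_norm] using hv)]
      ring
    · rw [if_neg hv, Set.indicator_of_notMem (by simpa [dist_eq_norm] using hv)]
      ring
  rw [e2] at key
  rw [← key, ← mul_assoc, mul_inv_cancel₀ hVp.ne', one_mul]

/-- TARGET -/
theorem ext_sub {I : Type} [Fintype I] (c : I → ℝ) (x : I → E3) (ω : E3) (pb : ℝ)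
    (h : ∀ i, 1 / 2 < ‖x i - ω‖) :
    ((∑ i, c i * (1 / ‖x i - ω‖)) - pb) ^ 2 ≤ (volume.real (Metric.ball (0 : E3) (1 / 2)))⁻¹ *
      ∫ v in Metric.ball ω (1 / 2), ((∑ i, c i * (1 / ‖x i - v‖)) - pb) ^ 2 := by
  set V := volume.real (Metric.ball (0 : E3) (1 / 2)) with hV
  have hVp : 0 < V := vol_pos
  have hc : ∀ i, ContinuousOn (fun v : E3 => 1 / ‖x i - v‖) (Metric.closedBall ω (1 / 2)) := by
    intro i
    refine ContinuousOn.div continuousOn_const (by fun_prop) ?_
    intro v hv h0
    rw [norm_eq_zero, sub_eq_zero] at h0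
    rw [← h0, Metric.mem_closedBall, dist_eq_norm] at hv
    exact absurd hv (not_le.2 (h i))
  have hF : ContinuousOn (fun v : E3 => (∑ i, c i * (1 / ‖x i - v‖)) - pb)
      (Metric.closedBall ω (1 / 2)) :=
    (continuousOn_finsetSum _ fun i _ => continuousOn_const.mul (hc i)).sub continuousOn_const
  have hI : ∀ f : E3 → ℝ, ContinuousOn f (Metric.closedBall ω (1 / 2)) →
      IntegrableOn f (Metric.ball ω (1 / 2)) := fun f hf =>
    (hf.integrableOn_compact (isCompact_closedBall ω (1 / 2))).mono_set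
      Metric.ball_subset_closedBall
  set F : E3 → ℝ := fun v : E3 => (∑ i, c i * (1 / ‖x i - v‖)) - pb with hFd
  have hF1 := hI F hF
  have hF2 := hI (fun v => F v ^ 2) (hF.pow 2)
  have hvol : ∀ t : ℝ, ∫ v in Metric.ball ω (1 / 2), t = V * t := by
    intro t
    rw [setIntegral_const, smul_eq_mul, vol_eq]
  have hfin : IsFiniteMeasure (volume.restrict (Metric.ball ω (1 / 2))) :=
    ⟨by rw [Measure.restrict_apply_univ]; exact Metric.isBounded_ball.measure_lt_top⟩
  have hint : ∫ v in Metric.ball ω (1 / 2), F v = V * F ω := by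
    simp only [hFd]
    rw [integral_sub (integrable_finsetSum _ fun i _ => (hI _ (hc i)).const_mul _)
      (integrable_const _), hvol, integral_finsetSum _ fun i _ => (hI _ (hc i)).const_mul _]
    simp only [integral_const_mul, avg_inv _ _ (h _)]
    rw [mul_sub, Finset.mul_sum]
    congr 1
    refine Finset.sum_congr rfl fun i _ => ?_
    ring
  have hnn : 0 ≤ ∫ v in Metric.ball ω (1 / 2), (F v - F ω) ^ 2 :=
    integral_nonneg fun v => sq_nonneg _
  have hexp : ∫ v in Metric.ball ω (1 / 2), (F v - F ω) ^ 2 =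
      (∫ v in Metric.ball ω (1 / 2), F v ^ 2) - V * F ω ^ 2 := by
    have e : ∀ v, (F v - F ω) ^ 2 = F v ^ 2 - 2 * F ω * F v + F ω ^ 2 := fun v => by ring
    simp only [e]
    have hA : IntegrableOn (fun v => F v ^ 2 - 2 * F ω * F v) (Metric.ball ω (1 / 2)) :=
      hF2.sub (hF1.const_mul _)
    rw [integral_add hA (integrable_const _),
      integral_sub hF2 (hF1.const_mul _), integral_const_mul, hint, hvol]
    ring
  rw [hexp] at hnn
  show F ω ^ 2 ≤ V⁻¹ * ∫ v in Metric.ball ω (1 / 2), F v ^ 2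
  rw [inv_mul_eq_div, le_div_iff₀ hVp]
  linarith

end Pool.Agent.Helper780_CP.RB22
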