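import Pool.Agent.Helper780_CP.LLDefs2
import Pool.Agent.Helper780_CP.BnDefs
import Pool.Agent.Helper780_CP.RVB
import Pool.Agent.Helper780_CP.Newt
import Pool.Agent.Helper780_CP.RB22

set_option autoImplicit false

open MeasureTheory
open scoped Topology

namespace Pool.Agent.Helper780_CP.RB23

open Pool.Agent.Helper780_CP
open Pool.Agent.Helper985.CP
open Pool.Agent.Helper780_CP.RB22 (ext_sub)

open Pool.Agent.Helper780_CP Pool.Agent.Helper985.CP

theorem vol_pos : 0 < volume.real (Metric.ball (0 : E3) (1 / 2)) := by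
  unfold Measure.real
  exact ENNReal.toReal_pos (Metric.measure_ball_pos volume (0 : E3) (by norm_num)).ne'
    Metric.isBounded_ball.measure_lt_top.ne

theorem vol_eq (ω : E3) : volume.real (Metric.ball ω (1 / 2)) =
    volume.real (Metric.ball (0 : E3) (1 / 2)) := by
  unfold Measure.real
  rw [Measure.addHaar_ball_center]

theorem avg_inv (a ω : E3) (h : 1 / 2 < ‖a - ω‖) :
    ∫ v in Metric.ball ω (1 / 2), 1 / ‖a - v‖ =
      volume.real (Metric.ball (0 : E3) (1 / 2)) * (1 / ‖a - ω‖) := by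
  set V := volume.real (Metric.ball (0 : E3) (1 / 2)) with hV
  have hVp : 0 < V := vol_pos
  have hm : Measurable (fun t : ℝ => if t < 1 / 2 then V⁻¹ else 0) :=
    Measurable.ite measurableSet_Iio measurable_const measurable_const
  have e0 : ∀ w : E3, (if ‖w‖ < 1 / 2 then V⁻¹ else 0) =
      (Metric.ball (0 : E3) (1 / 2)).indicator (fun _ => V⁻¹) w := by
    intro w
    by_cases hw : ‖w‖ < 1 / 2
    · rw [if_pos hw, Set.indicator_of_mem (by simpa using hw)]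
    · rw [if_neg hw, Set.indicator_of_notMem (by simpa using hw)]
  have h1 : ∫ w : E3, (fun t : ℝ => if t < 1 / 2 then V⁻¹ else 0) ‖w‖ = 1 := by
    simp only [e0]
    rw [integral_indicator Metric.isOpen_ball.measurableSet, setIntegral_const, smul_eq_mul, ← hV]
    exact mul_inv_cancel₀ hVp.ne'
  have key := newton_out _ hm (1 / 2) (by norm_num) (fun t ht => if_neg (not_lt.2 ht)) h1 (a - ω)
    h.le
  have e2 : ∫ w : E3, (fun t : ℝ => if t < 1 / 2 then V⁻¹ else 0) ‖w‖ / ‖a - ω - w‖ =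
      V⁻¹ * ∫ v in Metric.ball ω (1 / 2), 1 / ‖a - v‖ := by
    rw [← integral_indicator Metric.isOpen_ball.measurableSet, ← integral_const_mul]
    rw [← integral_sub_right_eq_self (fun w : E3 =>
      (fun t : ℝ => if t < 1 / 2 then V⁻¹ else 0) ‖w‖ / ‖a - ω - w‖) ω]
    refine integral_congr_ae (Filter.Eventually.of_forall fun v => ?_)
    have e3 : a - ω - (v - ω) = a - v := by abel
    simp only [e3]
    by_cases hv : ‖v - ω‖ < 1 / 2
    · rw [if_pos hv, Set.indicator_of_mem (by simpa [dist_eq_norm] using hv)]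
      ring
    · rw [if_neg hv, Set.indicator_of_notMem (by simpa [dist_eq_norm] using hv)]
      ring
  rw [e2] at key
  rw [← key, ← mul_assoc, mul_inv_cancel₀ hVp.ne', one_mul]

/-- boxes around the cube -/
def Bx (ℓ r : ℝ) : Set E3 := {ω | ∀ k, -r ≤ ω k ∧ ω k ≤ ℓ + r}

theorem Bx_closed (ℓ r : ℝ) : IsClosed (Bx ℓ r) := by
  have h : Bx ℓ r = ⋂ k, {ω : E3 | -r ≤ ω k ∧ ω k ≤ ℓ + r} := by
    ext y
    simp [Bx]
  rw [h]
  refine isClosed_iInter fun k => ?_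
  have hk : Continuous (fun y : E3 => y k) := by fun_prop
  exact (isClosed_le continuous_const hk).inter (isClosed_le hk continuous_const)

theorem coord_le (z : E3) (k : Fin 3) : |z k| ≤ ‖z‖ := by
  rw [← Real.norm_eq_abs]
  exact PiLp.norm_apply_le z k

theorem notMem_Bx {ℓ r : ℝ} {ω : E3} (h : ω ∉ Bx ℓ r) : ∃ k, ω k < -r ∨ ℓ + r < ω k := by
  by_contra hc
  push Not at hc
  exact h fun k => ⟨(hc k).1, (hc k).2⟩

theorem Bx_far {ℓ r : ℝ} {ω x : E3} (h : ω ∉ Bx ℓ r) (hx : x ∈ cube ℓ) : r < ‖x - ω‖ := by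
  obtain ⟨k, hk⟩ := notMem_Bx h
  have h1 := coord_le (x - ω) k
  have h2 := hx k
  have h3 : (x - ω) k = x k - ω k := rfl
  rw [h3] at h1
  refine lt_of_lt_of_le ?_ h1
  rcases hk with hk | hk
  · rw [lt_abs]; left; linarith [h2.1]
  · rw [lt_abs]; right; linarith [h2.2]

theorem Bx_ball {ℓ r : ℝ} {ω v : E3} (h : ω ∉ Bx ℓ (r + 1)) (hv : v ∈ Metric.closedBall ω (1 / 2)) :
    v ∉ Bx ℓ r := by
  obtain ⟨k, hk⟩ := notMem_Bx h
  intro hv2
  have h1 := coord_le (v - ω) k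
  have h2 := hv2 k
  have h3 : (v - ω) k = v k - ω k := rfl
  rw [h3] at h1
  rw [Metric.mem_closedBall, dist_eq_norm] at hv
  have h4 := abs_le.1 (h1.trans hv)
  rcases hk with hk | hk
  · linarith [h2.1, h4.2]
  · linarith [h2.2, h4.1]

/-- the centre of the cube -/
noncomputable def ctr (ℓ : ℝ) : E3 := WithLp.toLp 2 (fun _ => ℓ / 2)

theorem ctr_apply (ℓ : ℝ) (k : Fin 3) : ctr ℓ k = ℓ / 2 := rfl

theorem ctr_far {ℓ r : ℝ} {ω : E3} (h : ω ∉ Bx ℓ r) : ℓ / 2 + r < ‖ctr ℓ - ω‖ := by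
  obtain ⟨k, hk⟩ := notMem_Bx h
  have h1 := coord_le (ctr ℓ - ω) k
  have h3 : (ctr ℓ - ω) k = ℓ / 2 - ω k := rfl
  rw [h3] at h1
  refine lt_of_lt_of_le ?_ h1
  rcases hk with hk | hk
  · rw [lt_abs]; left; linarith
  · rw [lt_abs]; right; linarith

theorem cube_ctr {ℓ : ℝ} (hℓ : 0 < ℓ) {x : E3} (hx : x ∈ cube ℓ) : ‖x - ctr ℓ‖ ≤ ℓ := by
  have h := EuclideanSpace.norm_sq_eq (x - ctr ℓ)
  rw [Fin.sum_univ_three] at h
  have e : ∀ k, ‖(x - ctr ℓ) k‖ ^ 2 ≤ (ℓ / 2) ^ 2 := by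
    intro k
    have h3 : (x - ctr ℓ) k = x k - ℓ / 2 := rfl
    rw [h3, Real.norm_eq_abs, sq_abs]
    have h2 := hx k
    nlinarith [h2.1, h2.2]
  refine le_of_sq_le_sq ?_ hℓ.le |>.trans le_rfl
  nlinarith [e 0, e 1, e 2]

/-- the mean value inequality -/
def MV (ℓ : ℝ) (u : E3 → ℝ) : Prop :=
  ContinuousOn u (Bx ℓ 1)ᶜ ∧ ∀ ω, ω ∉ Bx ℓ 2 →
    u ω ≤ (volume.real (Metric.ball (0 : E3) (1 / 2)))⁻¹ * ∫ v in Metric.ball ω (1 / 2), u v

theorem Bx_cb {ℓ : ℝ} {ω : E3} (h : ω ∉ Bx ℓ 2) : Metric.closedBall ω (1 / 2) ⊆ (Bx ℓ 1)ᶜ := by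
  intro v hv
  have h' : ω ∉ Bx ℓ (1 + 1) := by
    have e : (1 : ℝ) + 1 = 2 := by norm_num
    rw [e]; exact h
  exact Bx_ball h' hv

theorem MV_int {ℓ : ℝ} {u : E3 → ℝ} (hu : ContinuousOn u (Bx ℓ 1)ᶜ) {ω : E3} (h : ω ∉ Bx ℓ 2) :
    IntegrableOn u (Metric.ball ω (1 / 2)) :=
  ((hu.mono (Bx_cb h)).integrableOn_compact (isCompact_closedBall ω (1 / 2))).mono_set
    Metric.ball_subset_closedBall

theorem fin_ball (ω : E3) : IsFiniteMeasure (volume.restrict (Metric.ball ω (1 / 2))) :=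
  ⟨by rw [Measure.restrict_apply_univ]; exact Metric.isBounded_ball.measure_lt_top⟩

theorem max_princ (ℓ : ℝ) (u : E3 → ℝ) (hu : MV ℓ u)
    (hl : ∀ ω, ω ∈ Bx ℓ 2 → ω ∉ Bx ℓ 1 → u ω ≤ 0)
    (hinf : ∀ ε : ℝ, 0 < ε → ∃ R : ℝ, ∀ ω : E3, R ≤ ‖ω‖ → u ω ≤ ε) (ω : E3) (hω : ω ∉ Bx ℓ 1) :
    u ω ≤ 0 := by
  by_contra hpos
  push Not at hpos
  obtain ⟨R, hR⟩ := hinf (u ω / 2) (by linarith)
  set T : Set E3 := Metric.closedBall 0 R ∩ closure (Bx ℓ 2)ᶜ with hT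
  have hTc : IsCompact T := (isCompact_closedBall 0 R).inter_right isClosed_closure
  have hT1 : closure (Bx ℓ 2)ᶜ ⊆ (Bx ℓ 1)ᶜ := by
    intro v hv
    obtain ⟨b, hb, hvb⟩ := Metric.mem_closure_iff.1 hv (1 / 2) (by norm_num)
    exact Bx_cb hb (Metric.mem_closedBall.2 hvb.le)
  have hTcont : ContinuousOn u T := hu.1.mono (Set.inter_subset_right.trans hT1)
  have hmem : ∀ v, v ∉ Bx ℓ 1 → u ω / 2 < u v → v ∈ T := by
    intro v hv1 hv2
    refine ⟨?_, ?_⟩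
    · rw [Metric.mem_closedBall, dist_zero_right]
      by_contra h
      push Not at h
      linarith [hR v h.le]
    · apply subset_closure
      intro h
      linarith [hl v h hv1]
  have hωT : ω ∈ T := hmem ω hω (by linarith)
  obtain ⟨ω0, hω0T, hmax⟩ := hTc.exists_isMaxOn ⟨ω, hωT⟩ hTcont
  set s := u ω0 with hs
  have hsω : u ω ≤ s := hmax hωT
  have hub : ∀ v, v ∉ Bx ℓ 1 → u v ≤ s := by
    intro v hv
    by_cases h : u ω / 2 < u v
    · exact hmax (hmem v hv h)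
    · push Not at h
      linarith
  set T' : Set E3 := T ∩ u ⁻¹' {s} with hT'
  have hT'c : IsCompact T' :=
    hTc.of_isClosed_subset (hTcont.preimage_isClosed_of_isClosed hTc.isClosed isClosed_singleton)
      Set.inter_subset_left
  have hco : Continuous (fun v : E3 => v 0) := by fun_prop
  obtain ⟨a, haT, hamax⟩ := hT'c.exists_isMaxOn ⟨ω0, hω0T, rfl⟩ hco.continuousOn
  have hua : u a = s := haT.2
  have ha1 : a ∉ Bx ℓ 1 := hT1 haT.1.2
  have ha2 : a ∉ Bx ℓ 2 := fun h => by linarith [hl a h ha1]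
  have hmv := hu.2 a ha2
  have hVp := vol_pos
  set V := volume.real (Metric.ball (0 : E3) (1 / 2)) with hV
  have hint := MV_int hu.1 ha2
  have := fin_ball a
  have hsub : ∀ v ∈ Metric.ball a (1 / 2), v ∉ Bx ℓ 1 := fun v hv =>
    Bx_cb ha2 (Metric.ball_subset_closedBall hv)
  have hz : ∫ v in Metric.ball a (1 / 2), (s - u v) = 0 := by
    refine le_antisymm ?_ ?_
    · rw [integral_sub (integrable_const _) hint, setIntegral_const, smul_eq_mul, vol_eq]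
      rw [hua, inv_mul_eq_div, le_div_iff₀ hVp] at hmv
      linarith
    · refine setIntegral_nonneg Metric.isOpen_ball.measurableSet fun v hv => ?_
      linarith [hub v (hsub v hv)]
  have hae : (fun v => s - u v) =ᵐ[volume.restrict (Metric.ball a (1 / 2))] 0 := by
    refine (integral_eq_zero_iff_of_nonneg_ae ?_ ((integrable_const _).sub hint)).1 hz
    refine (ae_restrict_iff' Metric.isOpen_ball.measurableSet).2
      (Filter.Eventually.of_forall fun v hv => ?_)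
    show (0 : ℝ) ≤ s - u v
    linarith [hub v (hsub v hv)]
  have hcb : ContinuousOn (fun v => s - u v) (Metric.ball a (1 / 2)) :=
    continuousOn_const.sub (hu.1.mono fun v hv => hsub v hv)
  have heq := Measure.eqOn_open_of_ae_eq hae Metric.isOpen_ball hcb continuousOn_const
  set b : E3 := a + EuclideanSpace.single 0 (1 / 4 : ℝ) with hb
  have hbb : b ∈ Metric.ball a (1 / 2) := by
    rw [Metric.mem_ball, dist_eq_norm, hb, add_sub_cancel_left, PiLp.norm_single]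
    rw [Real.norm_eq_abs, abs_of_pos (by norm_num)]
    norm_num
  have hub' : u b = s := by
    have := heq hbb
    simp only [Pi.zero_apply] at this
    linarith
  have hbT : b ∈ T' := ⟨hmem b (hsub b hbb) (by rw [hub']; linarith), hub'⟩
  have h5 : b 0 ≤ a 0 := hamax hbT
  have h6 : b 0 = a 0 + 1 / 4 := by
    rw [hb]
    simp
  linarith

/-- functions with the mean value inequality and with a limit at infinity -/
def Gd (ℓ : ℝ) (u : E3 → ℝ) (m : ℝ) : Prop :=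
  MV ℓ u ∧ ∃ C R : ℝ, ∀ ω, R ≤ ‖ctr ℓ - ω‖ → |u ω - m| ≤ C / ‖ctr ℓ - ω‖ ^ 2

theorem Gd_zero (ℓ : ℝ) : Gd ℓ (fun _ => 0) 0 := by
  refine ⟨⟨continuousOn_const, fun ω _ => by simp⟩, 0, 0, fun ω _ => by simp⟩

theorem Gd_add {ℓ : ℝ} {u v : E3 → ℝ} {m n : ℝ} (hu : Gd ℓ u m) (hv : Gd ℓ v n) :
    Gd ℓ (fun ω => u ω + v ω) (m + n) := by
  obtain ⟨⟨hu1, hu2⟩, C, R, hu3⟩ := hu
  obtain ⟨⟨hv1, hv2⟩, C', R', hv3⟩ := hv
  refine ⟨⟨hu1.add hv1, fun ω hω => ?_⟩, C + C', max R R', fun ω hω => ?_⟩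
  · rw [integral_add (MV_int hu1 hω) (MV_int hv1 hω), mul_add]
    exact add_le_add (hu2 ω hω) (hv2 ω hω)
  · have h1 := hu3 ω ((le_max_left _ _).trans hω)
    have h2 := hv3 ω ((le_max_right _ _).trans hω)
    have e : u ω + v ω - (m + n) = (u ω - m) + (v ω - n) := by ring
    rw [e, add_div]
    exact (abs_add_le _ _).trans (add_le_add h1 h2)

theorem Gd_smul {ℓ : ℝ} {u : E3 → ℝ} {m : ℝ} (a : ℝ) (ha : 0 ≤ a) (hu : Gd ℓ u m) :
    Gd ℓ (fun ω => a * u ω) (a * m) := by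
  obtain ⟨⟨hu1, hu2⟩, C, R, hu3⟩ := hu
  refine ⟨⟨continuousOn_const.mul hu1, fun ω hω => ?_⟩, a * C, R, fun ω hω => ?_⟩
  · rw [integral_const_mul, mul_left_comm]
    exact mul_le_mul_of_nonneg_left (hu2 ω hω) ha
  · have h1 := hu3 ω hω
    rw [← mul_sub, abs_mul, abs_of_nonneg ha, mul_div_assoc]
    exact mul_le_mul_of_nonneg_left h1 ha

theorem Gd_sum {ℓ : ℝ} {A : Type} (s : Finset A) (u : A → E3 → ℝ) (m : A → ℝ)
    (h : ∀ a ∈ s, Gd ℓ (u a) (m a)) : Gd ℓ (fun ω => ∑ a ∈ s, u a ω) (∑ a ∈ s, m a) := by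
  classical
  induction s using Finset.induction_on with
  | empty => simpa using Gd_zero ℓ
  | insert b s hb ih =>
    simp only [Finset.sum_insert hb]
    exact Gd_add (h b (Finset.mem_insert_self _ _))
      (ih fun a ha => h a (Finset.mem_insert_of_mem ha))

/-- the conclusion for functions with the mean value inequality and with a limit at infinity -/
theorem Gd_max {ℓ : ℝ} (hℓ : 0 < ℓ) {M : E3 → ℝ} {m : ℝ} (hM : Gd ℓ M m) (B : ℝ)
    (h : ∀ ω, ω ∈ Bx ℓ 2 → ω ∉ Bx ℓ 1 → M ω ≤ B) (ω : E3) (hω : ω ∉ Bx ℓ 1) : M ω ≤ B := by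
  obtain ⟨hM1, C, R, hM3⟩ := hM
  have hVp := vol_pos
  set V := volume.real (Metric.ball (0 : E3) (1 / 2)) with hV
  -- distances
  have hdist : ∀ v : E3, ‖v‖ ≤ ‖ctr ℓ - v‖ + ‖ctr ℓ‖ := fun v => by
    have e : v = ctr ℓ - (ctr ℓ - v) := by abel
    calc ‖v‖ = ‖ctr ℓ - (ctr ℓ - v)‖ := by rw [← e]
      _ ≤ ‖ctr ℓ‖ + ‖ctr ℓ - v‖ := norm_sub_le _ _
      _ = _ := add_comm _ _
  have hmB : m ≤ B := by
    by_contra hmB
    push Not at hmB
    set a : ℝ := (m - B) * (ℓ / 2 + 1) with ha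
    have hap : 0 < a := mul_pos (by linarith) (by linarith)
    have hi : ContinuousOn (fun w : E3 => 1 / ‖ctr ℓ - w‖) (Bx ℓ 1)ᶜ := by
      refine ContinuousOn.div continuousOn_const (by fun_prop) ?_
      intro v hv h0
      have := ctr_far (ℓ := ℓ) (r := 1) hv
      rw [h0] at this
      linarith
    have hu : MV ℓ (fun w => M w + (a * (1 / ‖ctr ℓ - w‖) + -m)) := by
      refine ⟨hM1.1.add ((continuousOn_const.mul hi).add continuousOn_const), fun w hw => ?_⟩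
      have := fin_ball w
      have hi2 := MV_int hi hw
      have hi3 : IntegrableOn (fun v => a * (1 / ‖ctr ℓ - v‖) + -m) (Metric.ball w (1 / 2)) :=
        (hi2.const_mul a).add (integrable_const _)
      show M w + (a * (1 / ‖ctr ℓ - w‖) + -m) ≤ V⁻¹ *
        ∫ v in Metric.ball w (1 / 2), (M v + (a * (1 / ‖ctr ℓ - v‖) + -m))
      rw [integral_add (MV_int hM1.1 hw) hi3,
        integral_add (hi2.const_mul a) (integrable_const _), integral_const_mul,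
        avg_inv _ _ (by have := ctr_far (ℓ := ℓ) (r := 2) hw; linarith), setIntegral_const,
        smul_eq_mul, vol_eq w, mul_add]
      refine add_le_add (hM1.2 w hw) (le_of_eq ?_)
      rw [← hV]
      field_simp
    have key : ∀ v, v ∉ Bx ℓ 1 → M v + (a * (1 / ‖ctr ℓ - v‖) + -m) ≤ 0 := by
      refine max_princ ℓ _ hu ?_ ?_
      · intro w hw2 hw1
        have h1 := h w hw2 hw1
        have h2 := ctr_far (ℓ := ℓ) (r := 1) hw1
        have h3 : a * (1 / ‖ctr ℓ - w‖) ≤ m - B := by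
          rw [mul_one_div, div_le_iff₀ (by linarith), ha]
          exact mul_le_mul_of_nonneg_left h2.le (by linarith)
        linarith
      · intro ε hε
        refine ⟨max R 1 + 2 * a / ε + 2 * |C| / ε + ‖ctr ℓ‖, fun v hv => ?_⟩
        have h1 := hdist v
        have p1 : 0 < 2 * a / ε := by positivity
        have p2 : 0 ≤ 2 * |C| / ε := by positivity
        have h4 : max R 1 + 2 * a / ε + 2 * |C| / ε ≤ ‖ctr ℓ - v‖ := by linarith
        have h5 : R ≤ ‖ctr ℓ - v‖ := by linarith [le_max_left R 1]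
        have h6 : 1 ≤ ‖ctr ℓ - v‖ := by linarith [le_max_right R 1]
        have h7 : 2 * a / ε ≤ ‖ctr ℓ - v‖ := by linarith [le_max_right R 1]
        have h8 : 2 * |C| / ε ≤ ‖ctr ℓ - v‖ := by linarith [le_max_right R 1]
        have h9 := (abs_le.1 (hM3 v h5)).2
        have h10 : a * (1 / ‖ctr ℓ - v‖) ≤ ε / 2 := by
          rw [mul_one_div, div_le_iff₀ (by linarith)]
          rw [div_le_iff₀ hε] at h7
          linarith
        have h11 : C / ‖ctr ℓ - v‖ ^ 2 ≤ ε / 2 := by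
          rw [div_le_iff₀ (by positivity)]
          rw [div_le_iff₀ hε] at h8
          have h12 : C ≤ |C| := le_abs_self C
          nlinarith [mul_nonneg hε.le (norm_nonneg (ctr ℓ - v))]
        linarith
    -- contradiction at infinity
    set ρ : ℝ := max R 1 + |C| / a + 1 + ℓ with hρ
    have p2 : 0 ≤ |C| / a := by positivity
    set w : E3 := ctr ℓ - EuclideanSpace.single 0 ρ with hw
    have hρp : 0 < ρ := by linarith [le_max_right R 1]
    have hwn : ‖ctr ℓ - w‖ = ρ := by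
      rw [hw, sub_sub_cancel, PiLp.norm_single, Real.norm_eq_abs, abs_of_pos hρp]
    have hw1 : w ∉ Bx ℓ 1 := by
      intro h1
      have h2 := (h1 0).1
      have h3 : w 0 = ℓ / 2 - ρ := by
        rw [hw]
        simp [ctr]
      linarith [le_max_right R 1]
    have h1 := key w hw1
    have h2 := (abs_le.1 (hM3 w (by rw [hwn]; linarith [le_max_left R 1]))).1
    rw [hwn] at h1 h2
    have h3 : a * (1 / ρ) ≤ C / ρ ^ 2 := by linarith
    rw [mul_one_div, div_le_div_iff₀ hρp (by positivity)] at h3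
    have h4 : a * ρ ≤ C := by
      have h5 : (a * ρ) * ρ ≤ C * ρ := by nlinarith
      exact le_of_mul_le_mul_right h5 hρp
    have h6 : a * ρ > |C| := by
      have h7 : a * ρ = |C| + a * (max R 1 + 1 + ℓ) := by
        rw [hρ]
        field_simp
        ring
      have h8 : 0 < a * (max R 1 + 1 + ℓ) := mul_pos hap (by linarith [le_max_right R 1])
      linarith
    linarith [le_abs_self C]
  have hu : MV ℓ (fun w => M w + -B) := by
    refine ⟨hM1.1.add continuousOn_const, fun w hw => ?_⟩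
    have := fin_ball w
    show M w + -B ≤ V⁻¹ * ∫ v in Metric.ball w (1 / 2), (M v + -B)
    rw [integral_add (MV_int hM1.1 hw) (integrable_const _), setIntegral_const,
      smul_eq_mul, vol_eq w, mul_add]
    refine add_le_add (hM1.2 w hw) (le_of_eq ?_)
    rw [← hV]
    field_simp
  have := max_princ ℓ _ hu (fun w hw2 hw1 => by linarith [h w hw2 hw1]) (by
    intro ε hε
    refine ⟨max R 1 + |C| / ε + ‖ctr ℓ‖, fun v hv => ?_⟩
    have h1 := hdist v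
    have p2 : 0 ≤ |C| / ε := by positivity
    have h4 : max R 1 + |C| / ε ≤ ‖ctr ℓ - v‖ := by linarith
    have h5 : R ≤ ‖ctr ℓ - v‖ := by linarith [le_max_left R 1]
    have h6 : 1 ≤ ‖ctr ℓ - v‖ := by linarith [le_max_right R 1]
    have h8 : |C| / ε ≤ ‖ctr ℓ - v‖ := by linarith [le_max_right R 1]
    have h9 := (abs_le.1 (hM3 v h5)).2
    have h11 : C / ‖ctr ℓ - v‖ ^ 2 ≤ ε := by
      rw [div_le_iff₀ (by positivity)]
      rw [div_le_iff₀ hε] at h8
      have h12 : C ≤ |C| := le_abs_self C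
      nlinarith [mul_nonneg hε.le (norm_nonneg (ctr ℓ - v))]
    linarith) ω hω
  linarith

theorem ext_sub' {I : Type} [Fintype I] (c : I → ℝ) (x : I → E3) (ω : E3) (pb : ℝ)
    (h : ∀ i, 1 / 2 < ‖x i - ω‖) :
    ((∑ i, c i * (1 / ‖x i - ω‖)) - pb) ^ 2 ≤ (volume.real (Metric.ball (0 : E3) (1 / 2)))⁻¹ *
      ∫ v in Metric.ball ω (1 / 2), ((∑ i, c i * (1 / ‖x i - v‖)) - pb) ^ 2 := ext_sub c x ω pb h

section Comp

variable {I : Type} [Fintype I]

/-- second moment against a density -/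
noncomputable def Nf (c : I → ℝ) (pb g : (I → E3) → ℝ) (ω : E3) : ℝ :=
  ∫ x, ((∑ i, c i * (1 / ‖x i - ω‖)) - pb x) ^ 2 * g x

/-- the dominating function -/
noncomputable def Gb (c : I → ℝ) (pb g : (I → E3) → ℝ) (x : I → E3) : ℝ :=
  ((∑ i, |c i|) + |pb x|) ^ 2 * g x

theorem Gb_int (c : I → ℝ) (pb g : (I → E3) → ℝ) (hpb : Continuous pb) (hg : Continuous g)
    (hgc : HasCompactSupport g) : Integrable (Gb c pb g) := by
  have h1 : Continuous (Gb c pb g) := by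
    unfold Gb
    exact ((continuous_const.add hpb.abs).pow 2).mul hg
  refine h1.integrable_of_hasCompactSupport ?_
  unfold Gb
  exact hgc.mul_left

theorem phi_bd (ℓ : ℝ) (c : I → ℝ) (x : I → E3) (hx : ∀ i, x i ∈ cube ℓ) (ω : E3)
    (hω : ω ∉ Bx ℓ 1) : |∑ i, c i * (1 / ‖x i - ω‖)| ≤ ∑ i, |c i| := by
  refine (Finset.abs_sum_le_sum_abs _ _).trans (Finset.sum_le_sum fun i _ => ?_)
  have h1 := Bx_far hω (hx i)
  rw [abs_mul]
  have h2 : |1 / ‖x i - ω‖| ≤ 1 := by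
    rw [abs_of_nonneg (by positivity), div_le_one (by linarith)]
    exact h1.le
  exact mul_le_of_le_one_right (abs_nonneg _) h2

theorem F_bd (ℓ : ℝ) (c : I → ℝ) (pb g : (I → E3) → ℝ) (hg0 : ∀ x, 0 ≤ g x)
    (hgs : ∀ x, g x ≠ 0 → ∀ i, x i ∈ cube ℓ) (x : I → E3) (ω : E3)
    (hω : ω ∉ Bx ℓ 1) :
    ‖((∑ i, c i * (1 / ‖x i - ω‖)) - pb x) ^ 2 * g x‖ ≤ Gb c pb g x := by
  by_cases hgx : g x = 0
  · rw [hgx, mul_zero, norm_zero]
    unfold Gb
    rw [hgx, mul_zero]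
  have h1 := phi_bd ℓ c x (hgs x hgx) ω hω
  unfold Gb
  rw [Real.norm_eq_abs, abs_mul, abs_of_nonneg (hg0 x), abs_of_nonneg (sq_nonneg _)]
  refine mul_le_mul_of_nonneg_right ?_ (hg0 x)
  rw [← sq_abs ((∑ i, c i * (1 / ‖x i - ω‖)) - pb x)]
  refine pow_le_pow_left₀ (abs_nonneg _) ?_ 2
  exact (abs_sub _ _).trans (add_le_add h1 le_rfl)

theorem F_meas (c : I → ℝ) (pb g : (I → E3) → ℝ) (hpb : Continuous pb) (hg : Continuous g) :
    Measurable (fun z : (I → E3) × E3 =>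
      ((∑ i, c i * (1 / ‖z.1 i - z.2‖)) - pb z.1) ^ 2 * g z.1) := by
  have h1 : Measurable pb := hpb.measurable
  have h2 : Measurable g := hg.measurable
  have h3 : ∀ i : I, Measurable (fun z : (I → E3) × E3 => c i * (1 / ‖z.1 i - z.2‖)) := by
    intro i
    have : Measurable (fun z : (I → E3) × E3 => z.1 i - z.2) :=
      ((measurable_pi_apply i).comp measurable_fst).sub measurable_snd
    exact measurable_const.mul (measurable_const.div this.norm)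
  refine Measurable.mul (Measurable.pow_const ?_ 2) (h2.comp measurable_fst)
  exact (Finset.measurable_sum _ fun i _ => h3 i).sub (h1.comp measurable_fst)

theorem F_int (ℓ : ℝ) (c : I → ℝ) (pb g : (I → E3) → ℝ) (hpb : Continuous pb)
    (hg : Continuous g) (hgc : HasCompactSupport g) (hg0 : ∀ x, 0 ≤ g x)
    (hgs : ∀ x, g x ≠ 0 → ∀ i, x i ∈ cube ℓ) (ω : E3) (hω : ω ∉ Bx ℓ 1) :
    Integrable (fun x : I → E3 => ((∑ i, c i * (1 / ‖x i - ω‖)) - pb x) ^ 2 * g x) := by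
  refine (Gb_int c pb g hpb hg hgc).mono' ?_ (Filter.Eventually.of_forall fun x =>
    F_bd ℓ c pb g hg0 hgs x ω hω)
  exact ((F_meas c pb g hpb hg).comp (measurable_id.prodMk measurable_const)).aestronglyMeasurable

theorem Nf_cont (ℓ : ℝ) (c : I → ℝ) (pb g : (I → E3) → ℝ) (hpb : Continuous pb)
    (hg : Continuous g) (hgc : HasCompactSupport g) (hg0 : ∀ x, 0 ≤ g x)
    (hgs : ∀ x, g x ≠ 0 → ∀ i, x i ∈ cube ℓ) : ContinuousOn (Nf c pb g) (Bx ℓ 1)ᶜ := by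
  unfold Nf
  refine continuousOn_of_dominated (bound := Gb c pb g) ?_ ?_ (Gb_int c pb g hpb hg hgc) ?_
  · intro ω hω
    exact (F_int ℓ c pb g hpb hg hgc hg0 hgs ω hω).aestronglyMeasurable
  · intro ω hω
    exact Filter.Eventually.of_forall fun x => F_bd ℓ c pb g hg0 hgs x ω hω
  · refine Filter.Eventually.of_forall fun x => ?_
    by_cases hgx : g x = 0
    · simp only [hgx, mul_zero]
      exact continuousOn_const
    · refine ContinuousOn.mul (ContinuousOn.pow (ContinuousOn.sub ?_ continuousOn_const) 2)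
        continuousOn_const
      refine continuousOn_finsetSum _ fun i _ => continuousOn_const.mul ?_
      refine ContinuousOn.div continuousOn_const (by fun_prop) ?_
      intro ω hω h0
      have := Bx_far (ℓ := ℓ) (r := 1) hω (hgs x hgx i)
      rw [h0] at this
      linarith

theorem Nf_mv (ℓ : ℝ) (c : I → ℝ) (pb g : (I → E3) → ℝ) (hpb : Continuous pb)
    (hg : Continuous g) (hgc : HasCompactSupport g) (hg0 : ∀ x, 0 ≤ g x)
    (hgs : ∀ x, g x ≠ 0 → ∀ i, x i ∈ cube ℓ) (ω : E3) (hω : ω ∉ Bx ℓ 2) :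
    Nf c pb g ω ≤ (volume.real (Metric.ball (0 : E3) (1 / 2)))⁻¹ *
      ∫ v in Metric.ball ω (1 / 2), Nf c pb g v := by
  have hVp := vol_pos
  set V := volume.real (Metric.ball (0 : E3) (1 / 2)) with hV
  have hfb := fin_ball ω
  have hω1 : ω ∉ Bx ℓ 1 := Bx_cb hω (Metric.mem_closedBall_self (by norm_num))
  have hP : Integrable (fun z : (I → E3) × E3 =>
      ((∑ i, c i * (1 / ‖z.1 i - z.2‖)) - pb z.1) ^ 2 * g z.1)
      (volume.prod (volume.restrict (Metric.ball ω (1 / 2)))) := by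
    have hG : Integrable (fun z : (I → E3) × E3 => Gb c pb g z.1)
        (volume.prod (volume.restrict (Metric.ball ω (1 / 2)))) :=
      (Gb_int c pb g hpb hg hgc).comp_fst _
    refine hG.mono' (F_meas c pb g hpb hg).aestronglyMeasurable ?_
    have h2 : ∀ᵐ z : (I → E3) × E3 ∂(volume.prod (volume.restrict (Metric.ball ω (1 / 2)))),
        z.2 ∈ Metric.ball ω (1 / 2) := by
      have h3 : ∀ᵐ v ∂(volume.restrict (Metric.ball ω (1 / 2))), v ∈ Metric.ball ω (1 / 2) :=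
        ae_restrict_mem Metric.isOpen_ball.measurableSet
      exact Measure.quasiMeasurePreserving_snd.ae h3
    filter_upwards [h2] with z hz
    exact F_bd ℓ c pb g hg0 hgs z.1 z.2 (Bx_cb hω (Metric.ball_subset_closedBall hz))
  have hsw : ∫ v in Metric.ball ω (1 / 2), Nf c pb g v =
      ∫ x, ∫ v in Metric.ball ω (1 / 2),
        ((∑ i, c i * (1 / ‖x i - v‖)) - pb x) ^ 2 * g x := by
    unfold Nf
    exact (integral_integral_swap hP).symm
  rw [hsw, ← integral_const_mul]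
  unfold Nf
  refine integral_mono (F_int ℓ c pb g hpb hg hgc hg0 hgs ω hω1) (hP.integral_prod_left.const_mul _) ?_
  intro x
  show _ ≤ V⁻¹ * ∫ v in Metric.ball ω (1 / 2), ((∑ i, c i * (1 / ‖x i - v‖)) - pb x) ^ 2 * g x
  rw [integral_mul_const, ← mul_assoc]
  by_cases hgx : g x = 0
  · show ((∑ i, c i * (1 / ‖x i - ω‖)) - pb x) ^ 2 * g x ≤ _
    rw [hgx, mul_zero, mul_zero]
  · refine mul_le_mul_of_nonneg_right ?_ (hg0 x)
    refine ext_sub' c x ω (pb x) fun i => ?_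
    linarith [Bx_far hω (hgs x hgx i)]

theorem phi_far (ℓ : ℝ) (hℓ : 1 ≤ ℓ) (c : I → ℝ) (hc : ∑ i, c i = 0) (x : I → E3)
    (hx : ∀ i, x i ∈ cube ℓ) (ω : E3) (hω : 2 * ℓ ≤ ‖ctr ℓ - ω‖) :
    |∑ i, c i * (1 / ‖x i - ω‖)| ≤ (2 * ℓ * ∑ i, |c i|) / ‖ctr ℓ - ω‖ ^ 2 := by
  have hρ : 0 < ‖ctr ℓ - ω‖ := by linarith
  have e1 : ∑ i, c i * (1 / ‖x i - ω‖) = ∑ i, c i * (1 / ‖x i - ω‖ - 1 / ‖ctr ℓ - ω‖) := by
    simp only [mul_sub]
    rw [Finset.sum_sub_distrib, ← Finset.sum_mul, hc, zero_mul, sub_zero]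
  rw [e1]
  refine (Finset.abs_sum_le_sum_abs _ _).trans ?_
  rw [mul_comm (2 * ℓ), Finset.sum_mul, Finset.sum_div]
  refine Finset.sum_le_sum fun i _ => ?_
  rw [abs_mul, mul_div_assoc]
  refine mul_le_mul_of_nonneg_left ?_ (abs_nonneg _)
  have h1 := cube_ctr (by linarith) (hx i)
  have h2 : ‖ctr ℓ - ω‖ - ℓ ≤ ‖x i - ω‖ := by
    have h3 : ‖ctr ℓ - ω‖ ≤ ‖ctr ℓ - x i‖ + ‖x i - ω‖ := by
      have := norm_add_le (ctr ℓ - x i) (x i - ω)
      rwa [sub_add_sub_cancel] at this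
    rw [norm_sub_rev] at h1
    linarith
  have h4 : ‖ctr ℓ - ω‖ / 2 ≤ ‖x i - ω‖ := by linarith
  have h5 : 0 < ‖x i - ω‖ := by linarith
  have h6 : |‖ctr ℓ - ω‖ - ‖x i - ω‖| ≤ ℓ := by
    refine (abs_norm_sub_norm_le _ _).trans ?_
    have : ctr ℓ - ω - (x i - ω) = -(x i - ctr ℓ) := by abel
    rw [this, norm_neg]
    exact h1
  rw [div_sub_div _ _ h5.ne' hρ.ne', abs_div, one_mul, mul_one, abs_of_pos (mul_pos h5 hρ),
    div_le_div_iff₀ (mul_pos h5 hρ) (by positivity)]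
  have h7 : ‖ctr ℓ - ω‖ ^ 2 ≤ 2 * (‖x i - ω‖ * ‖ctr ℓ - ω‖) := by nlinarith
  calc |‖ctr ℓ - ω‖ - ‖x i - ω‖| * ‖ctr ℓ - ω‖ ^ 2 ≤ ℓ * ‖ctr ℓ - ω‖ ^ 2 :=
        mul_le_mul_of_nonneg_right h6 (by positivity)
    _ ≤ ℓ * (2 * (‖x i - ω‖ * ‖ctr ℓ - ω‖)) := mul_le_mul_of_nonneg_left h7 (by linarith)
    _ = 2 * ℓ * (‖x i - ω‖ * ‖ctr ℓ - ω‖) := by ring

theorem Nf_Gd (ℓ : ℝ) (hℓ : 1 ≤ ℓ) (c : I → ℝ) (hc : ∑ i, c i = 0) (pb g : (I → E3) → ℝ)
    (hpb : Continuous pb)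
    (hg : Continuous g) (hgc : HasCompactSupport g) (hg0 : ∀ x, 0 ≤ g x)
    (hgs : ∀ x, g x ≠ 0 → ∀ i, x i ∈ cube ℓ) : Gd ℓ (Nf c pb g) (∫ x, pb x ^ 2 * g x) := by
  refine ⟨⟨Nf_cont ℓ c pb g hpb hg hgc hg0 hgs, fun ω hω => Nf_mv ℓ c pb g hpb hg hgc hg0 hgs ω hω⟩,
    ∫ x, ((2 * ℓ * ∑ i, |c i|) * ((∑ i, |c i|) + 2 * |pb x|)) * g x, 2 * ℓ + 2, fun ω hω => ?_⟩
  have hρ : 0 < ‖ctr ℓ - ω‖ := by linarith
  have hω1 : ω ∉ Bx ℓ 1 := by
    intro h
    have h1 : ‖ctr ℓ - ω‖ ^ 2 ≤ 3 * (ℓ / 2 + 1) ^ 2 := by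
      rw [EuclideanSpace.norm_sq_eq, Fin.sum_univ_three]
      have e : ∀ k, ‖(ctr ℓ - ω) k‖ ^ 2 ≤ (ℓ / 2 + 1) ^ 2 := by
        intro k
        have h3 : (ctr ℓ - ω) k = ℓ / 2 - ω k := rfl
        rw [h3, Real.norm_eq_abs, sq_abs]
        have h2 := h k
        nlinarith [h2.1, h2.2]
      linarith [e 0, e 1, e 2]
    nlinarith
  have hi1 := F_int ℓ c pb g hpb hg hgc hg0 hgs ω hω1
  have hcs : ∀ f : (I → E3) → ℝ, Continuous f → Integrable (fun x => f x * g x) := fun f hf =>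
    (hf.mul hg).integrable_of_hasCompactSupport hgc.mul_left
  have hi2 : Integrable (fun x => pb x ^ 2 * g x) := hcs _ (hpb.pow 2)
  have hi3 : Integrable (fun x => ((2 * ℓ * ∑ i, |c i|) * ((∑ i, |c i|) + 2 * |pb x|)) * g x) :=
    hcs _ (continuous_const.mul (continuous_const.add (continuous_const.mul hpb.abs)))
  unfold Nf
  rw [← integral_sub hi1 hi2, ← integral_div]
  refine (abs_integral_le_integral_abs).trans ?_
  refine integral_mono (hi1.sub hi2).abs (hi3.div_const _) ?_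
  intro x
  show |((∑ i, c i * (1 / ‖x i - ω‖)) - pb x) ^ 2 * g x - pb x ^ 2 * g x| ≤
    ((2 * ℓ * ∑ i, |c i|) * ((∑ i, |c i|) + 2 * |pb x|)) * g x / ‖ctr ℓ - ω‖ ^ 2
  by_cases hgx : g x = 0
  · simp [hgx]
  have h1 := phi_bd ℓ c x (hgs x hgx) ω hω1
  have h2 := phi_far ℓ hℓ c hc x (hgs x hgx) ω (by linarith)
  set φ := ∑ i, c i * (1 / ‖x i - ω‖) with hφ
  have e1 : (φ - pb x) ^ 2 * g x - pb x ^ 2 * g x = (φ * (φ - 2 * pb x)) * g x := by ring
  rw [e1, abs_mul, abs_of_nonneg (hg0 x), abs_mul]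
  have h3 : |φ - 2 * pb x| ≤ (∑ i, |c i|) + 2 * |pb x| := by
    refine (abs_sub _ _).trans (add_le_add h1 ?_)
    rw [abs_mul, abs_of_pos (by norm_num : (0 : ℝ) < 2)]
  calc |φ| * |φ - 2 * pb x| * g x ≤
      ((2 * ℓ * ∑ i, |c i|) / ‖ctr ℓ - ω‖ ^ 2) * ((∑ i, |c i|) + 2 * |pb x|) * g x := by
        refine mul_le_mul_of_nonneg_right ?_ (hg0 x)
        exact mul_le_mul h2 h3 (abs_nonneg _) (le_trans (abs_nonneg _) h2)
    _ = _ := by ring

end Comp

/-- TARGET -/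
theorem ext_max {S : Type} [Fintype S] [DecidableEq S] (D : Species S) {I : Type} [Fintype I]
    [DecidableEq I] (sp : I → S) (ℓ : ℝ) (hℓ : 1 ≤ ℓ) (hneu : ∑ i, D.charge (sp i) = 0) {k : ℕ}
    (p : Fin k → ℝ) (ψ : Fin k → Wave D I) (hp : ∀ j, 0 ≤ p j) (hp1 : ∑ j, p j = 1)
    (hψ : ∀ j, IsState D sp ℓ (ψ j)) (hn : ∀ j, nrm2 D (ψ j) = 1) (B : ℝ)
    (h : ∀ ω : E3, (¬ ∀ k, -1 ≤ ω k ∧ ω k ≤ ℓ + 1) → (∀ k, -2 ≤ ω k ∧ ω k ≤ ℓ + 2) →
      wx D p ψ (fun x => (phi D sp ω x - phb D sp ℓ x) ^ 2) ≤ B) (ω : E3)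
    (hω : ¬ ∀ k, -1 ≤ ω k ∧ ω k ≤ ℓ + 1) :
    wx D p ψ (fun x => (phi D sp ω x - phb D sp ℓ x) ^ 2) ≤ B := by
  have hpb : Continuous (phb D sp ℓ (I := I)) := by
    unfold phb
    refine continuous_finsetSum _ fun i _ => continuous_const.mul ?_
    exact (RVB.vb_props.1 ℓ (by linarith)).comp (continuous_apply i)
  have hcomp : ∀ j τ, Gd ℓ (Nf (fun i => D.charge (sp i)) (phb D sp ℓ) (fun x => ‖ψ j τ x‖ ^ 2))
      (∫ x, phb D sp ℓ x ^ 2 * ‖ψ j τ x‖ ^ 2) := by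
    intro j τ
    refine Nf_Gd ℓ hℓ _ hneu _ _ hpb (((hψ j).smooth τ).continuous.norm.pow 2) ?_
      (fun x => sq_nonneg _) ?_
    · exact ((hψ j).compact τ).comp_left (g := fun z : ℂ => ‖z‖ ^ 2) (by simp)
    · intro x hx
      have h1 : ψ j τ x ≠ 0 := by
        intro h0
        apply hx
        simp [h0]
      exact (hψ j).support τ (subset_tsupport _ h1)
  have hM := Gd_sum (ℓ := ℓ) Finset.univ _ _ fun (j : Fin k) _ => Gd_smul (p j) (hp j)
    (Gd_sum (ℓ := ℓ) Finset.univ _ _ fun (τ : I → Fin D.g) _ => hcomp j τ)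
  have hfin := Gd_max (by linarith) hM B (fun w hw2 hw1 => h w hw1 hw2) ω hω
  exact hfin

end Pool.Agent.Helper780_CP.RB23
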