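import Pool.Agent.Helper780_CP.LLDefs2
import Pool.Agent.Helper780_CP.BnDefs
import Pool.Agent.Helper780_CP.RVB
import Pool.Agent.Helper780_CP.RB1
import Pool.Agent.Helper780_CP.RB8
import Pool.Agent.Helper780_CP.RB15
import Pool.Agent.Helper780_CP.RB21
import Pool.Agent.Helper780_CP.RB22
import Pool.Agent.Helper780_CP.RB23
import Pool.Agent.Helper780_CP.RB24

set_option autoImplicit false

open MeasureTheory
open scoped Topology

namespace Pool.Agent.Helper780_CP.RB25

open Pool.Agent.Helper780_CP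
open Pool.Agent.Helper985.CP
open Pool.Agent.Helper780_CP.RB1 (kern_facts)
open Pool.Agent.Helper780_CP.RB8 (yl)
open Pool.Agent.Helper780_CP.RB15 (num_sup)
open Pool.Agent.Helper780_CP.RB21 (int2A)
open Pool.Agent.Helper780_CP.RB22 (ext_sub)
open Pool.Agent.Helper780_CP.RB23 (ext_max)
open Pool.Agent.Helper780_CP.RB24 (path_v)

open Pool.Agent.Helper780_CP Pool.Agent.Helper985.CP

section B25aux

variable {S : Type} (D : Species S) {I : Type} [Fintype I] [DecidableEq I] (sp : I → S)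

theorem b25_supp {ℓ : ℝ} {Ψ : Wave D I} (hΨ : IsState D sp ℓ Ψ) (τ : I → Fin D.g) (x : I → E3)
    (h : ¬ ∀ i, x i ∈ cube ℓ) : Ψ τ x = 0 := by
  by_contra h0
  exact h (hΨ.support τ (subset_tsupport _ (Function.mem_support.2 h0)))

theorem b25_WI (ℓ : ℝ) (V : (I → E3) → ℝ) (hm : Measurable V) (B : ℝ)
    (hB : ∀ x, (∀ i, x i ∈ cube ℓ) → |V x| ≤ B) : WI D sp ℓ V := by
  intro Ψ hΨ τ
  have h1 : Integrable (fun x => ‖Ψ τ x‖ ^ 2) := (int_state D sp ℓ Ψ hΨ τ).1
  refine Integrable.mono' (h1.const_mul B) ?_ ?_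
  · exact (hm.aestronglyMeasurable).mul h1.aestronglyMeasurable
  · refine Filter.Eventually.of_forall fun x => ?_
    by_cases hx : ∀ i, x i ∈ cube ℓ
    · rw [Real.norm_eq_abs, abs_mul, abs_of_nonneg (sq_nonneg ‖Ψ τ x‖)]
      exact mul_le_mul_of_nonneg_right (hB x hx) (sq_nonneg _)
    · rw [b25_supp D sp hΨ τ x hx]
      simp

theorem b25_mono {ℓ : ℝ} {k : ℕ} {p : Fin k → ℝ} {ψ : Fin k → Wave D I} (hp : ∀ j, 0 ≤ p j)
    (hψ : ∀ j, IsState D sp ℓ (ψ j)) {V W : (I → E3) → ℝ} (hV0 : ∀ x, 0 ≤ V x)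
    (hW : WI D sp ℓ W) (h : ∀ x, (∀ i, x i ∈ cube ℓ) → V x ≤ W x) :
    wx D p ψ V ≤ wx D p ψ W := by
  unfold wx wm
  refine Finset.sum_le_sum fun j _ => mul_le_mul_of_nonneg_left ?_ (hp j)
  refine Finset.sum_le_sum fun τ _ => ?_
  refine integral_mono_of_nonneg (Filter.Eventually.of_forall fun x => ?_) (hW _ (hψ j) τ)
    (Filter.Eventually.of_forall fun x => ?_)
  · exact mul_nonneg (hV0 x) (sq_nonneg _)
  · show V x * ‖ψ j τ x‖ ^ 2 ≤ W x * ‖ψ j τ x‖ ^ 2
    by_cases hx : ∀ i, x i ∈ cube ℓ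
    · exact mul_le_mul_of_nonneg_right (h x hx) (sq_nonneg _)
    · rw [b25_supp D sp (hψ j) τ x hx]
      simp

theorem b25_add {ℓ : ℝ} {k : ℕ} {p : Fin k → ℝ} {ψ : Fin k → Wave D I}
    (hψ : ∀ j, IsState D sp ℓ (ψ j)) {V W : (I → E3) → ℝ} (hV : WI D sp ℓ V)
    (hW : WI D sp ℓ W) : wx D p ψ (fun x => V x + W x) = wx D p ψ V + wx D p ψ W := by
  unfold wx
  rw [← Finset.sum_add_distrib]
  refine Finset.sum_congr rfl fun j _ => ?_
  rw [wm_add D sp ℓ hV hW _ (hψ j)]
  ring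

theorem b25_smul {k : ℕ} {p : Fin k → ℝ} {ψ : Fin k → Wave D I} (V : (I → E3) → ℝ) (c : ℝ) :
    wx D p ψ (fun x => c * V x) = c * wx D p ψ V := by
  unfold wx
  rw [Finset.mul_sum]
  refine Finset.sum_congr rfl fun j _ => ?_
  rw [wm_smul]
  ring

theorem b25_nn {k : ℕ} {p : Fin k → ℝ} {ψ : Fin k → Wave D I} (hp : ∀ j, 0 ≤ p j)
    {V : (I → E3) → ℝ} (hV0 : ∀ x, 0 ≤ V x) : 0 ≤ wx D p ψ V := by
  unfold wx wm
  refine Finset.sum_nonneg fun j _ => mul_nonneg (hp j) ?_
  refine Finset.sum_nonneg fun τ _ => integral_nonneg fun x => ?_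
  exact mul_nonneg (hV0 x) (sq_nonneg _)

/-- `V ≤ a W1 + b W2` -/
theorem b25_two {ℓ : ℝ} {k : ℕ} {p : Fin k → ℝ} {ψ : Fin k → Wave D I} (hp : ∀ j, 0 ≤ p j)
    (hψ : ∀ j, IsState D sp ℓ (ψ j)) {V W1 W2 : (I → E3) → ℝ} (a b : ℝ) (hV0 : ∀ x, 0 ≤ V x)
    (hW1 : WI D sp ℓ W1) (hW2 : WI D sp ℓ W2)
    (h : ∀ x, (∀ i, x i ∈ cube ℓ) → V x ≤ a * W1 x + b * W2 x) :
    wx D p ψ V ≤ a * wx D p ψ W1 + b * wx D p ψ W2 := by
  have h1 := WI_smul D sp ℓ hW1 a
  have h2 := WI_smul D sp ℓ hW2 b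
  have h3 := b25_mono D sp hp hψ hV0 (WI_add D sp ℓ h1 h2) h
  rw [b25_add D sp hψ h1 h2, b25_smul, b25_smul] at h3
  exact h3

theorem b25_swap {ℓ : ℝ} {k : ℕ} {p : Fin k → ℝ} {ψ : Fin k → Wave D I}
    (hψ : ∀ j, IsState D sp ℓ (ψ j)) (s : Set E3) (hs : volume s ≠ ⊤) (F : (I → E3) → E3 → ℝ)
    (hF : Measurable (Function.uncurry F)) (B : ℝ) (hsm : MeasurableSet s)
    (hB : ∀ x, (∀ i, x i ∈ cube ℓ) → ∀ ω ∈ s, |F x ω| ≤ B) (M : ℝ)
    (hM : ∀ ω ∈ s, wx D p ψ (fun x => F x ω) ≤ M) :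
    wx D p ψ (fun x => ∫ ω in s, F x ω) ≤ volume.real s * M := by
  have hint : ∀ j τ, Integrable (Function.uncurry fun (x : I → E3) (ω : E3) =>
      F x ω * ‖ψ j τ x‖ ^ 2) ((volume : Measure (I → E3)).prod (volume.restrict s)) := by
    intro j τ
    have h1 : Integrable (fun x => ‖ψ j τ x‖ ^ 2) := (int_state D sp ℓ (ψ j) (hψ j) τ).1
    have hfin : IsFiniteMeasure (volume.restrict s) := ⟨by
      rw [Measure.restrict_apply_univ]; exact hs.lt_top⟩
    have h2 : Integrable (fun _ : E3 => B) (volume.restrict s) := integrable_const _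
    have h3 := h1.mul_prod h2
    refine Integrable.mono' h3 ?_ ?_
    · have hc : Measurable (fun x => ‖ψ j τ x‖ ^ 2) :=
        (((hψ j).smooth τ).continuous.norm.pow 2).measurable
      exact (hF.mul (hc.comp measurable_fst)).aestronglyMeasurable
    · have h4 : ∀ᵐ q : (I → E3) × E3 ∂((volume : Measure (I → E3)).prod (volume.restrict s)),
          q.2 ∈ s := by
        have h5 : ∀ᵐ ω ∂(volume.restrict s), ω ∈ s := ae_restrict_mem hsm
        exact (Measure.quasiMeasurePreserving_snd (μ := (volume : Measure (I → E3)))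
          (ν := volume.restrict s)).ae h5
      filter_upwards [h4] with q hq
      obtain ⟨x, ω⟩ := q
      simp only at hq
      simp only [Function.uncurry_apply_pair]
      by_cases hx : ∀ i, x i ∈ cube ℓ
      · rw [Real.norm_eq_abs, abs_mul, abs_of_nonneg (sq_nonneg ‖ψ j τ x‖), mul_comm]
        exact mul_le_mul_of_nonneg_left (hB x hx ω hq) (sq_nonneg _)
      · rw [b25_supp D sp (hψ j) τ x hx]
        simp
  have e : wx D p ψ (fun x => ∫ ω in s, F x ω) = ∫ ω in s, wx D p ψ (fun x => F x ω) := by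
    unfold wx wm
    have hI : ∀ j τ, Integrable (fun ω => ∫ x, F x ω * ‖ψ j τ x‖ ^ 2) (volume.restrict s) :=
      fun j τ => (hint j τ).integral_prod_right
    rw [integral_finsetSum _ fun j _ => (integrable_finsetSum _ fun τ _ => hI j τ).const_mul _]
    refine Finset.sum_congr rfl fun j _ => ?_
    rw [integral_const_mul]
    congr 1
    rw [integral_finsetSum _ fun τ _ => hI j τ]
    refine Finset.sum_congr rfl fun τ _ => ?_
    rw [← integral_integral_swap (hint j τ)]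
    refine integral_congr_ae (Filter.Eventually.of_forall fun x => ?_)
    simp only
    rw [integral_mul_const]
  rw [e]
  have hI : Integrable (fun ω => wx D p ψ (fun x => F x ω)) (volume.restrict s) := by
    unfold wx wm
    exact integrable_finsetSum _ fun j _ =>
      (integrable_finsetSum _ fun τ _ => (hint j τ).integral_prod_right).const_mul _
  calc ∫ ω in s, wx D p ψ (fun x => F x ω) ≤ ∫ _ω in s, M := by
        refine setIntegral_mono_on hI (integrableOn_const hs) hsm fun ω hω => hM ω hω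
    _ = volume.real s * M := by
        rw [setIntegral_const, smul_eq_mul]

omit [Fintype I] [DecidableEq I] in
theorem b25_par (s : Set E3) (F : (I → E3) → E3 → ℝ) [Fintype I]
    (hF : Measurable (Function.uncurry F)) :
    Measurable (fun x => ∫ ω in s, F x ω) := by
  have h : StronglyMeasurable (Function.uncurry F) := hF.stronglyMeasurable
  exact (h.integral_prod_right (ν := volume.restrict s)).measurable

end B25aux

section kernels

theorem b25_Lk_meas : Measurable (fun q : ℝ × E3 => Lk q.1 q.2) := by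
  unfold Lk
  refine Measurable.ite ?_ measurable_fst ?_
  · exact measurableSet_eq_fun measurable_snd measurable_const
  · fun_prop

theorem b25_Gk_meas : Measurable (fun q : ℝ × E3 => Gk q.1 q.2) := by
  unfold Gk
  fun_prop

theorem b25_Lk_bd (μ : ℝ) (hμ : 0 ≤ μ) (w : E3) : 0 ≤ Lk μ w ∧ Lk μ w ≤ μ := by
  unfold Lk
  split_ifs with h
  · exact ⟨hμ, le_rfl⟩
  · have hn : 0 < ‖w‖ := norm_pos_iff.2 h
    have h1 : Real.exp (-(μ * ‖w‖)) ≤ 1 := Real.exp_le_one_iff.2 (by
      have := mul_nonneg hμ hn.le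
      linarith)
    have h2 := Real.add_one_le_exp (-(μ * ‖w‖))
    constructor
    · exact div_nonneg (by linarith) hn.le
    · rw [div_le_iff₀ hn]
      linarith

theorem b25_Gk_bd (μ : ℝ) (hμ : 0 ≤ μ) (w : E3) : ‖Gk μ w‖ ≤ μ ^ 2 := by
  unfold Gk
  rcases eq_or_ne w 0 with h | h
  · subst h
    simp
    positivity
  · have hn : 0 < ‖w‖ := norm_pos_iff.2 h
    set r := ‖w‖ with hr
    have ht : 0 ≤ μ * r := mul_nonneg hμ hn.le
    have h2 := Real.add_one_le_exp (-(μ * r))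
    have h3 := Real.add_one_le_exp (μ * r)
    have h4 : 0 < Real.exp (-(μ * r)) := Real.exp_pos _
    have h5 : Real.exp (-(μ * r)) * Real.exp (μ * r) = 1 := by
      rw [← Real.exp_add]
      simp
    have h6 : Real.exp (-(μ * r)) * (1 + μ * r) ≤ 1 := by
      rw [← h5]
      exact mul_le_mul_of_nonneg_left (by linarith) h4.le
    have h7 : 1 - Real.exp (-(μ * r)) * (1 + μ * r) ≤ (μ * r) ^ 2 := by
      nlinarith
    rw [norm_smul, Real.norm_eq_abs, abs_of_nonneg (div_nonneg (by linarith) (by positivity)),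
      ← hr]
    calc (1 - Real.exp (-(μ * r)) * (1 + μ * r)) / r ^ 3 * r ≤ (μ * r) ^ 2 / r ^ 3 * r := by
          gcongr
      _ = μ ^ 2 := by
          field_simp

theorem b25_split (μ : ℝ) (w : E3) (h : w ≠ 0) : 1 / ‖w‖ = Lk μ w + Yk μ w := by
  unfold Lk Yk
  rw [if_neg h]
  ring

variable {I : Type} [Fintype I]

theorem b25_nh_meas (y : E3) : Measurable (fun x : I → E3 => nh y x) := by
  unfold nh
  fun_prop

theorem b25_nn_meas (y : E3) : Measurable (fun x : I → E3 => nn y x) := by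
  unfold nn
  fun_prop

theorem b25_mu_meas (K : ℝ) (y : E3) : Measurable (fun x : I → E3 => mu K y x) := by
  unfold mu
  exact ((measurable_const.mul (measurable_const.add (b25_nh_meas y)))).pow_const _

theorem b25_nh_bd (y : E3) (x : I → E3) : 0 ≤ nh y x ∧ nh y x ≤ Fintype.card I := by
  unfold nh
  constructor
  · exact Finset.sum_nonneg fun _ _ => (Real.exp_pos _).le
  · calc ∑ j, Real.exp (1 - √(1 + ‖x j - y‖ ^ 2)) ≤ ∑ _j : I, (1 : ℝ) := by
          refine Finset.sum_le_sum fun j _ => ?_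
          rw [Real.exp_le_one_iff]
          have : (1 : ℝ) ≤ √(1 + ‖x j - y‖ ^ 2) := by
            rw [Real.one_le_sqrt]
            nlinarith [sq_nonneg ‖x j - y‖]
          linarith
      _ = Fintype.card I := by simp

theorem b25_nn_nonneg (y : E3) (x : I → E3) : 0 ≤ nn y x :=
  Finset.sum_nonneg fun _ _ => (Real.exp_pos _).le

theorem b25_nn_le (y : E3) (x : I → E3) : nn y x ≤ nh y x := by
  unfold nn nh
  refine Finset.sum_le_sum fun j _ => Real.exp_le_exp.2 ?_
  have h0 := norm_nonneg (x j - y)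
  have : √(1 + ‖x j - y‖ ^ 2) ≤ 1 + ‖x j - y‖ := by
    rw [Real.sqrt_le_left (by positivity)]
    nlinarith
  linarith

theorem b25_nn_move (R : ℝ) (y w : E3) (h : ‖w - y‖ ≤ R) (x : I → E3) :
    nn w x ≤ Real.exp R * nn y x := by
  unfold nn
  rw [Finset.mul_sum]
  refine Finset.sum_le_sum fun j _ => ?_
  rw [← Real.exp_add]
  apply Real.exp_le_exp.2
  have h1 : x j - y = (x j - w) + (w - y) := by abel
  have h2 := norm_add_le (x j - w) (w - y)
  rw [← h1] at h2
  linarith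

theorem b25_mu_cube (K : ℝ) (hK : 8 ≤ K) (y : E3) (x : I → E3) :
    mu K y x ^ 3 = K * (1 + nh y x) := by
  have h0 := (b25_nh_bd y x).1
  unfold mu
  rw [← Real.rpow_natCast, ← Real.rpow_mul (by positivity)]
  norm_num

theorem b25_mu_two (K : ℝ) (hK : 8 ≤ K) (y : E3) (x : I → E3) : 2 ≤ mu K y x := by
  have h0 := (b25_nh_bd y x).1
  unfold mu
  have h1 : (2 : ℝ) = (8 : ℝ) ^ ((1 : ℝ) / 3) := by
    rw [show (8 : ℝ) = 2 ^ (3 : ℝ) by norm_num, ← Real.rpow_mul (by norm_num)]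
    norm_num
  rw [h1]
  exact Real.rpow_le_rpow (by norm_num) (by nlinarith) (by norm_num)

theorem b25_mu_bd (K : ℝ) (hK : 8 ≤ K) (y : E3) (x : I → E3) :
    mu K y x ≤ (K * (1 + Fintype.card I)) ^ ((1 : ℝ) / 3) := by
  have h0 := b25_nh_bd y x
  unfold mu
  refine Real.rpow_le_rpow (mul_nonneg (by linarith) (by linarith)) ?_ (by norm_num)
  exact mul_le_mul_of_nonneg_left (by linarith) (by linarith)

theorem b25_53 (n μ : ℝ) (hn : 0 ≤ n) (hμ : 0 < μ) (h : n ≤ μ ^ 3) :
    1 / μ * n ^ 2 ≤ n ^ ((5 : ℝ) / 3) := by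
  have h1 : n ^ 2 = n ^ ((5 : ℝ) / 3) * n ^ ((1 : ℝ) / 3) := by
    rw [← Real.rpow_add_of_nonneg hn (by norm_num) (by norm_num), ← Real.rpow_natCast]
    norm_num
  have h2 : n ^ ((1 : ℝ) / 3) ≤ μ := by
    calc n ^ ((1 : ℝ) / 3) ≤ (μ ^ 3) ^ ((1 : ℝ) / 3) := Real.rpow_le_rpow hn h (by norm_num)
      _ = μ := by
        rw [← Real.rpow_natCast, ← Real.rpow_mul hμ.le]
        norm_num
  have h3 : 0 ≤ n ^ ((5 : ℝ) / 3) := Real.rpow_nonneg hn _
  rw [h1]
  calc 1 / μ * (n ^ ((5 : ℝ) / 3) * n ^ ((1 : ℝ) / 3)) ≤ 1 / μ * (n ^ ((5 : ℝ) / 3) * μ) := by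
        gcongr
    _ = n ^ ((5 : ℝ) / 3) := by field_simp

end kernels

section B25two

variable {S : Type} (D : Species S) {I : Type} [Fintype I] [DecidableEq I] (sp : I → S)

omit [DecidableEq I] in
theorem b25_phb (ℓ : ℝ) (hℓ : 0 < ℓ) : Measurable (phb D sp ℓ) ∧ ∃ B : ℝ, 0 ≤ B ∧
    ∀ x, |phb D sp ℓ x| ≤ B := by
  obtain ⟨C, hC, hb⟩ := RVB.vb_bound
  have hc := RVB.vb_cont ℓ hℓ
  constructor
  · unfold phb
    refine Finset.measurable_fun_sum _ fun i _ => ?_
    exact (hc.measurable.comp (measurable_pi_apply i)).const_mul _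
  · refine ⟨∑ i : I, |D.charge (sp i)| * (C / ℓ), by positivity, fun x => ?_⟩
    unfold phb
    refine (Finset.abs_sum_le_sum_abs _ _).trans (Finset.sum_le_sum fun i _ => ?_)
    rw [abs_mul, abs_of_nonneg (hb ℓ (x i) hℓ).1]
    exact mul_le_mul_of_nonneg_left (hb ℓ (x i) hℓ).2 (abs_nonneg _)

omit [DecidableEq I] in
theorem b25_vv_meas (ℓ : ℝ) (hℓ : 0 < ℓ) (K : ℝ) (y : E3) :
    Measurable (Function.uncurry fun (x : I → E3) (ω : E3) => vv D sp ℓ K y x ω) := by
  unfold vv vp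
  have h1 : Measurable (fun q : (I → E3) × E3 => mu K y q.1) :=
    (b25_mu_meas K y).comp measurable_fst
  have h2 : Measurable (fun q : (I → E3) × E3 => phb D sp ℓ q.1) :=
    (b25_phb D sp ℓ hℓ).1.comp measurable_fst
  refine Measurable.sub ?_ h2
  refine Finset.measurable_fun_sum _ fun i _ => ?_
  refine Measurable.const_mul ?_ _
  have h3 : Measurable (fun q : (I → E3) × E3 => q.1 i - q.2) :=
    ((measurable_pi_apply i).comp measurable_fst).sub measurable_snd
  exact b25_Lk_meas.comp (h1.prodMk h3)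

omit [DecidableEq I] in
theorem b25_gg_meas (K : ℝ) (y : E3) :
    Measurable (Function.uncurry fun (x : I → E3) (ω : E3) => gg D sp K y x ω) := by
  unfold gg gp
  have h1 : Measurable (fun q : (I → E3) × E3 => mu K y q.1) :=
    (b25_mu_meas K y).comp measurable_fst
  refine Finset.measurable_fun_sum _ fun i _ => ?_
  have h3 : Measurable (fun q : (I → E3) × E3 => q.1 i - q.2) :=
    ((measurable_pi_apply i).comp measurable_fst).sub measurable_snd
  exact (b25_Gk_meas.comp (h1.prodMk h3)).const_smul (D.charge (sp i))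

omit [DecidableEq I] in
theorem b25_vv_bd (ℓ : ℝ) (hℓ : 0 < ℓ) (K : ℝ) (hK : 8 ≤ K) (y : E3) :
    ∃ B : ℝ, 0 ≤ B ∧ ∀ (x : I → E3) (ω : E3), |vv D sp ℓ K y x ω| ≤ B := by
  obtain ⟨B, hB0, hB⟩ := (b25_phb D sp ℓ hℓ).2
  set m := (K * (1 + Fintype.card I)) ^ ((1 : ℝ) / 3) with hm
  have hm0 : 0 ≤ m := by
    rw [hm]
    positivity
  refine ⟨∑ i : I, |D.charge (sp i)| * m + B, by positivity, fun x ω => ?_⟩
  unfold vv vp
  refine (abs_sub _ _).trans (add_le_add ?_ (hB x))
  refine (Finset.abs_sum_le_sum_abs _ _).trans (Finset.sum_le_sum fun i _ => ?_)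
  have h2 := b25_mu_two K hK y x
  have h3 := b25_Lk_bd (mu K y x) (by linarith) (x i - ω)
  rw [abs_mul, abs_of_nonneg h3.1]
  exact mul_le_mul_of_nonneg_left (h3.2.trans (b25_mu_bd K hK y x)) (abs_nonneg _)

omit [DecidableEq I] in
theorem b25_gg_bd (K : ℝ) (hK : 8 ≤ K) (y : E3) :
    ∃ B : ℝ, 0 ≤ B ∧ ∀ (x : I → E3) (ω : E3), ‖gg D sp K y x ω‖ ≤ B := by
  set m := (K * (1 + Fintype.card I)) ^ ((1 : ℝ) / 3) with hm
  have hm0 : 0 ≤ m := by
    rw [hm]
    positivity
  refine ⟨∑ i : I, |D.charge (sp i)| * m ^ 2, by positivity, fun x ω => ?_⟩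
  unfold gg gp
  refine (norm_sum_le _ _).trans (Finset.sum_le_sum fun i _ => ?_)
  have h2 := b25_mu_two K hK y x
  have h3 := b25_Gk_bd (mu K y x) (by linarith) (x i - ω)
  rw [norm_smul, Real.norm_eq_abs]
  refine mul_le_mul_of_nonneg_left (h3.trans ?_) (abs_nonneg _)
  exact pow_le_pow_left₀ (by linarith) (b25_mu_bd K hK y x) 2

omit [Fintype I] [DecidableEq I] in
theorem b25_ballbd (c : E3) (r : ℝ) (f : E3 → ℝ) (B : ℝ) (hB : ∀ ω ∈ Metric.ball c r, |f ω| ≤ B) :
    |∫ ω in Metric.ball c r, f ω| ≤ B * volume.real (Metric.ball c r) := by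
  rw [← Real.norm_eq_abs]
  exact norm_setIntegral_le_of_norm_le_const measure_ball_lt_top fun ω hω => by
    rw [Real.norm_eq_abs]; exact hB ω hω

/-- the second moments of the regular part are admissible weights -/
theorem b25_WI_vv (ℓ : ℝ) (hℓ : 0 < ℓ) (K : ℝ) (hK : 8 ≤ K) (y c : E3) (r : ℝ) :
    WI D sp ℓ (fun x => ∫ ω in Metric.ball c r, vv D sp ℓ K y x ω ^ 2) := by
  obtain ⟨B, hB0, hB⟩ := b25_vv_bd D sp ℓ hℓ K hK y
  refine b25_WI D sp ℓ _ (b25_par _ _ ?_) (B ^ 2 * volume.real (Metric.ball c r)) ?_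
  · exact (b25_vv_meas D sp ℓ hℓ K y).pow_const 2
  · intro x _
    refine b25_ballbd c r _ _ fun ω _ => ?_
    rw [abs_of_nonneg (sq_nonneg _), ← sq_abs]
    exact pow_le_pow_left₀ (abs_nonneg _) (hB x ω) 2

theorem b25_WI_gg (ℓ : ℝ) (K : ℝ) (hK : 8 ≤ K) (y c : E3) (r : ℝ) :
    WI D sp ℓ (fun x => ∫ ω in Metric.ball c r, ‖gg D sp K y x ω‖ ^ 2) := by
  obtain ⟨B, hB0, hB⟩ := b25_gg_bd D sp K hK y
  refine b25_WI D sp ℓ _ (b25_par _ _ ?_) (B ^ 2 * volume.real (Metric.ball c r)) ?_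
  · exact (b25_gg_meas D sp K y).norm.pow_const 2
  · intro x _
    refine b25_ballbd c r _ _ fun ω _ => ?_
    rw [abs_of_nonneg (sq_nonneg _)]
    exact pow_le_pow_left₀ (norm_nonneg _) (hB x ω) 2

theorem b25_WI_nn (ℓ : ℝ) (y : E3) : WI D sp ℓ (fun x => nn y x ^ ((5 : ℝ) / 3)) := by
  refine b25_WI D sp ℓ _ ((b25_nn_meas y).pow_const _) ((Fintype.card I : ℝ) ^ ((5 : ℝ) / 3)) ?_
  intro x _
  have h0 := b25_nn_nonneg y x
  rw [abs_of_nonneg (Real.rpow_nonneg h0 _)]
  exact Real.rpow_le_rpow h0 ((b25_nn_le y x).trans (b25_nh_bd y x).2) (by norm_num)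

theorem b25_kb_nonneg (hD : D.Valid) (Ψ : Wave D I) (y : E3) (R : ℝ) :
    0 ≤ kb D sp y R Ψ := by
  unfold kb
  refine Finset.sum_nonneg fun τ _ => integral_nonneg fun x => ?_
  refine Finset.sum_nonneg fun j _ => ?_
  show 0 ≤ (if ‖x j - y‖ < R then kin D sp j (Ψ τ) x else 0)
  split_ifs
  · unfold kin
    have := hD.mass_pos (sp j)
    positivity
  · exact le_rfl

end B25two
theorem b25_sq1 (a b : ℝ) : (a + b) ^ 2 ≤ 2 * a ^ 2 + 2 * b ^ 2 := by
  nlinarith [sq_nonneg (a - b)]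

theorem b25_sq2 (a b : ℝ) : a ^ 2 ≤ 2 * (a + b) ^ 2 + 2 * b ^ 2 := by
  nlinarith [sq_nonneg (a + 2 * b)]

theorem b25_sq3 (a b : ℝ) : b ^ 2 ≤ 2 * a ^ 2 + 2 * (a - b) ^ 2 := by
  nlinarith [sq_nonneg (2 * a - b)]

theorem b25_coord (v : E3) (k : Fin 3) : |v k| ≤ ‖v‖ := by
  have h := PiLp.norm_apply_le v k
  simpa [Real.norm_eq_abs] using h

/-- the moved point -/
theorem b25_move (ℓ : ℝ) (hℓ : 1000 ≤ ℓ) (w : E3) (hw : ∀ k, -3 ≤ w k ∧ w k ≤ ℓ + 3) :
    ∃ a : E3, ‖a - w‖ ≤ 59 ∧ Metric.closedBall a 4 ⊆ cube ℓ := by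
  let a : E3 := WithLp.toLp 2 (fun k => min (max (w k) 30) (ℓ - 30))
  have ha : ∀ k, a k = min (max (w k) 30) (ℓ - 30) := fun k => rfl
  refine ⟨a, ?_, ?_⟩
  · have h1 : ∀ k, |a k - w k| ≤ 33 := by
      intro k
      obtain ⟨h2, h3⟩ := hw k
      rw [ha, abs_le]
      rcases le_total (w k) 30 with h4 | h4
      · rw [max_eq_right h4, min_eq_left (by linarith)]
        constructor <;> linarith
      · rw [max_eq_left h4]
        rcases le_total (w k) (ℓ - 30) with h5 | h5
        · rw [min_eq_left h5]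
          constructor <;> linarith
        · rw [min_eq_right h5]
          constructor <;> linarith
    rw [EuclideanSpace.norm_eq, Real.sqrt_le_left (by norm_num), Fin.sum_univ_three]
    have h6 : ∀ k, ‖(a - w) k‖ ^ 2 ≤ 33 ^ 2 := by
      intro k
      rw [Real.norm_eq_abs]
      exact pow_le_pow_left₀ (abs_nonneg _) (h1 k) 2
    have e0 := h6 0
    have e1 := h6 1
    have e2 := h6 2
    norm_num at e0 e1 e2 ⊢
    linarith
  · intro v hv k
    rw [Metric.mem_closedBall, dist_eq_norm] at hv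
    have h1 := (b25_coord (v - a) k).trans hv
    have h2 : (v - a) k = v k - a k := rfl
    rw [h2, abs_le] at h1
    have h3 : 30 ≤ a k := by
      rw [ha]
      exact le_min (le_max_right _ _) (by linarith)
    have h4 : a k ≤ ℓ - 30 := by
      rw [ha]
      exact min_le_right _ _
    constructor <;> linarith

/-- TARGET -/
theorem wall2 {S : Type} [Fintype S] [DecidableEq S] (D : Species S) (hD : D.Valid)
    (hf : ∀ s, D.charge s < 0 → D.fermion s = true) (hz : ∀ s, 0 < |D.charge s|) (C0 : ℝ)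
    (hC0 : 0 ≤ C0) : ∃ C : ℝ, 0 < C ∧ ∀ R : ℝ, 0 ≤ R → ∃ K0 : ℝ, 8 ≤ K0 ∧ ∀ K : ℝ, K0 ≤ K →
    ∃ CK : ℝ, 0 < CK ∧
    ∀ {I : Type} [Fintype I] [DecidableEq I] (sp : I → S) (ℓ η : ℝ) {k : ℕ} (p : Fin k → ℝ)
      (ψ : Fin k → Wave D I), BS D sp ℓ C0 η p ψ → ∀ A : ℝ, 0 ≤ A →
      (∀ y ∈ wall ℓ, qB D sp K p ψ y ≤ A) → ∀ y w : E3, ‖w - y‖ ≤ R →
      wx D p ψ (fun x => ∫ ω in Metric.ball w 1, vv D sp ℓ K y x ω ^ 2) ≤
        C * (1 + A) + CK * (1 + A) ^ ((4 : ℝ) / 5) := by
  obtain ⟨Cy, hCy, Hy⟩ := yl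
  obtain ⟨Cn, hCn, Hn⟩ := num_sup D hD hf hz C0 hC0
  obtain ⟨C5, hC5, H5⟩ := int2A D hD hf hz C0 59 hC0 (by norm_num)
  let z : ℝ := ∑ s, |D.charge s|
  have hz0 : 0 ≤ z := Finset.sum_nonneg fun s _ => abs_nonneg _
  have hzc : ∀ s, |D.charge s| ≤ z := fun s =>
    Finset.single_le_sum (f := fun s => |D.charge s|) (fun t _ => abs_nonneg _)
      (Finset.mem_univ s)
  let Vi : ℝ := (volume.real (Metric.ball (0 : E3) (1 / 2)))⁻¹
  let V1 : ℝ := volume.real (Metric.ball (0 : E3) 1)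
  have hVi : 0 ≤ Vi := inv_nonneg.2 measureReal_nonneg
  have hV1 : 0 ≤ V1 := measureReal_nonneg
  let Q : ℝ := Cy * z ^ 2
  have hQ : 0 ≤ Q := by positivity
  let P : ℝ := 2 * C5 + 2 * 59 ^ 2
  have hP : 0 ≤ P := by positivity
  refine ⟨(2 * P + 4 * Q * Cn) + (2 * V1 * (Vi * (2 * P + 2 * Q * Cn)) + 2 * Q * Cn) + 1,
    by positivity, fun R hR => ?_⟩
  obtain ⟨CR, hCR, HR⟩ := int2A D hD hf hz C0 R hC0 hR
  refine ⟨max 8 (max (Real.exp R) (CR ^ 3)), le_max_left _ _, fun K hK => ?_⟩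
  have hK8 : 8 ≤ K := (le_max_left _ _).trans hK
  have hKR : Real.exp R ≤ K := ((le_max_left _ _).trans (le_max_right _ _)).trans hK
  have hKC : CR ^ 3 ≤ K := ((le_max_right _ _).trans (le_max_right _ _)).trans hK
  obtain ⟨CK5, hCK5, H5K⟩ := H5 K hK8
  obtain ⟨CKR, hCKR, HRK⟩ := HR K hK8
  refine ⟨(2 * (2 * CK5)) + 2 * V1 * (Vi * (2 * (2 * CK5))) + CKR, by positivity, ?_⟩
  intro I _ _ sp ℓ η k p ψ hB A hA hq y w hwy
  have hℓ : 0 < ℓ := by linarith [hB.len]
  have hp := hB.p0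
  have hψ := hB.state
  set X : ℝ := (1 + A) ^ ((4 : ℝ) / 5) with hX
  have hX0 : 0 ≤ X := Real.rpow_nonneg (by linarith) _
  have hci : ∀ i, |D.charge (sp i)| ≤ z := fun i => hzc _
  -- numbers
  have hnn : ∀ w : E3, wx D p ψ (fun x => nn w x ^ ((5 : ℝ) / 3)) ≤ Cn * (1 + A) := fun w =>
    (Hn sp ℓ η p ψ hB K A hK8 hA hq w).2.2.1
  have hnW : ∀ w : E3, WI D sp ℓ (fun x => nn w x ^ ((5 : ℝ) / 3)) := fun w =>
    b25_WI_nn D sp ℓ w
  have h13 : (2 : ℝ) ≤ K ^ ((1 : ℝ) / 3) := by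
    have h1 : (2 : ℝ) = (8 : ℝ) ^ ((1 : ℝ) / 3) := by
      rw [show (8 : ℝ) = 2 ^ (3 : ℝ) by norm_num, ← Real.rpow_mul (by norm_num)]
      norm_num
    rw [h1]
    exact Real.rpow_le_rpow (by norm_num) hK8 (by norm_num)
  have hmu : ∀ (w : E3) (x : I → E3), 2 ≤ mu K w x := fun w x => b25_mu_two K hK8 w x
  -- number against the inverse length
  have hn1 : ∀ (w : E3) (x : I → E3), 1 / mu K w x * nn w x ^ 2 ≤ nn w x ^ ((5 : ℝ) / 3) := by
    intro w x
    refine b25_53 _ _ (b25_nn_nonneg w x) (by linarith [hmu w x]) ?_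
    rw [b25_mu_cube K hK8]
    have h1 := b25_nn_le w x
    have h2 := (b25_nh_bd w x).1
    nlinarith
  have hn2 : ∀ x : I → E3, 1 / mu K y x * nn w x ^ 2 ≤ nn w x ^ ((5 : ℝ) / 3) := by
    intro x
    refine b25_53 _ _ (b25_nn_nonneg w x) (by linarith [hmu y x]) ?_
    rw [b25_mu_cube K hK8]
    have h1 := b25_nn_le y x
    have h2 := (b25_nh_bd y x).1
    have h3 := b25_nn_move R y w hwy x
    have h4 := b25_nn_nonneg y x
    calc nn w x ≤ Real.exp R * nn y x := h3
      _ ≤ K * nn y x := mul_le_mul_of_nonneg_right hKR h4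
      _ ≤ K * (1 + nh y x) := mul_le_mul_of_nonneg_left (by linarith) (by linarith)
  -- the singular part
  have hyw : ∀ (w : E3) (x : I → E3), ∫ ω in Metric.ball w 1, yy D sp K w x ω ^ 2 ≤
      Q * nn w x ^ ((5 : ℝ) / 3) := by
    intro w x
    have h1 := (Hy (fun i => D.charge (sp i)) x z (mu K w x) hci (hmu w x) w).1
    refine h1.trans ?_
    have h2 := mul_le_mul_of_nonneg_left (hn1 w x) hQ
    calc Cy * z ^ 2 / mu K w x * nn w x ^ 2 = Q * (1 / mu K w x * nn w x ^ 2) := by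
          show Cy * z ^ 2 / mu K w x * nn w x ^ 2 = Cy * z ^ 2 * (1 / mu K w x * nn w x ^ 2)
          ring
      _ ≤ _ := h2
  have hyy : ∀ x : I → E3, ∫ ω in Metric.ball w 1, yy D sp K y x ω ^ 2 ≤
      Q * nn w x ^ ((5 : ℝ) / 3) := by
    intro x
    have h1 := (Hy (fun i => D.charge (sp i)) x z (mu K y x) hci (hmu y x) w).1
    refine h1.trans ?_
    have h2 := mul_le_mul_of_nonneg_left (hn2 x) hQ
    calc Cy * z ^ 2 / mu K y x * nn w x ^ 2 = Q * (1 / mu K y x * nn w x ^ 2) := by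
          show Cy * z ^ 2 / mu K y x * nn w x ^ 2 = Cy * z ^ 2 * (1 / mu K y x * nn w x ^ 2)
          ring
      _ ≤ _ := h2
  -- (a)
  have ha : ∀ w ∈ wall ℓ, wx D p ψ (fun x => ∫ ω in Metric.ball w 1, vv D sp ℓ K w x ω ^ 2) ≤
      2 * CK5 * X + P * (1 + A) := by
    intro w hw
    obtain ⟨a, ha1, ha2⟩ := b25_move ℓ hB.len w hw.1
    have h1 := b25_two D sp (p := p) (ψ := ψ) hp hψ
      (V := fun x => ∫ ω in Metric.ball w 1, vv D sp ℓ K w x ω ^ 2)
      (W1 := fun x => ∫ ω in Metric.ball a 1, vv D sp ℓ K w x ω ^ 2)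
      (W2 := fun x => ∫ ω in Metric.ball w 60, ‖gg D sp K w x ω‖ ^ 2) 2 (2 * 59 ^ 2)
      (fun x => integral_nonneg fun ω => sq_nonneg _) (b25_WI_vv D sp ℓ hℓ K hK8 w a 1)
      (b25_WI_gg D sp ℓ K hK8 w w 60) (fun x _ => by
        have h2 := path_v (fun i => D.charge (sp i)) x (mu K w x) (phb D sp ℓ x)
          (by linarith [hmu w x]) w a w ha1 (by rw [sub_self, norm_zero]; norm_num)
        have h3 : 0 ≤ ∫ ω in Metric.ball w 60, ‖gg D sp K w x ω‖ ^ 2 :=
          integral_nonneg fun ω => sq_nonneg _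
        have h4 : ‖w - a‖ ^ 2 ≤ 59 ^ 2 := by
          rw [norm_sub_rev]
          exact pow_le_pow_left₀ (norm_nonneg _) ha1 2
        have h5 := mul_le_mul_of_nonneg_right h4 h3
        refine h2.trans ?_
        show 2 * (∫ ω in Metric.ball a 1, vv D sp ℓ K w x ω ^ 2) + 2 * ‖w - a‖ ^ 2 *
          ∫ ω in Metric.ball w 60, ‖gg D sp K w x ω‖ ^ 2 ≤ _
        linarith)
    have h2 := H5K sp ℓ η p ψ hB A hA hq w a ha1 ha2
    have h3 : wx D p ψ (fun x => ∫ ω in Metric.ball w 60, ‖gg D sp K w x ω‖ ^ 2) ≤ A := by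
      have h4 := hq w hw
      unfold qB at h4
      have h5 : 0 ≤ ∑ j, p j * kb D sp w 8 (ψ j) :=
        Finset.sum_nonneg fun j _ => mul_nonneg (hp j) (b25_kb_nonneg D sp hD _ _ _)
      linarith
    have h4 : C5 / K ^ ((1 : ℝ) / 3) * (1 + A) ≤ C5 * (1 + A) := by
      refine mul_le_mul_of_nonneg_right ?_ (by linarith)
      exact div_le_self hC5.le (by linarith)
    have h6 : P * (1 + A) = 2 * (C5 * (1 + A)) + 2 * 59 ^ 2 * (1 + A) := by
      show (2 * C5 + 2 * 59 ^ 2) * (1 + A) = _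
      ring
    rw [h6]
    linarith
  -- phi - pb = v + y
  have hsplit : ∀ (y : E3) (x : I → E3) (ω : E3), (∀ i, x i ≠ ω) →
      phi D sp ω x - phb D sp ℓ x = vv D sp ℓ K y x ω + yy D sp K y x ω := by
    intro y x ω h
    unfold phi vv yy vp yp
    have h1 : ∀ i, D.charge (sp i) * (1 / ‖x i - ω‖) =
        D.charge (sp i) * Lk (mu K y x) (x i - ω) + D.charge (sp i) * Yk (mu K y x) (x i - ω) := by
      intro i
      rw [b25_split (mu K y x) (x i - ω) (sub_ne_zero.2 (h i))]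
      ring
    rw [Finset.sum_congr rfl fun i _ => h1 i, Finset.sum_add_distrib]
    ring
  -- far from the cube
  have hfar : ∀ (ω' : E3), (¬ ∀ k, -1 ≤ ω' k ∧ ω' k ≤ ℓ + 1) → ∀ x : I → E3,
      (∀ i, x i ∈ cube ℓ) → ∀ i, 1 < ‖x i - ω'‖ := by
    intro ω' hω x hx i
    push Not at hω
    obtain ⟨k, hk⟩ := hω
    have h1 := hx i k
    have h2 := b25_coord (x i - ω') k
    have h3 : (x i - ω') k = x i k - ω' k := rfl
    rw [h3] at h2
    refine lt_of_lt_of_le ?_ h2
    rcases lt_or_ge (ω' k) (-1) with h4 | h4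
    · rw [lt_abs]
      left
      linarith
    · have h5 := hk h4
      rw [lt_abs]
      right
      linarith
  -- integrability of the squares
  have hiv : ∀ (y c : E3) (x : I → E3), IntegrableOn (fun ω => vv D sp ℓ K y x ω ^ 2)
      (Metric.ball c 1) := by
    intro y c x
    have h1 := (kern_facts (fun i => D.charge (sp i)) x (mu K y x) (phb D sp ℓ x)
      (by linarith [hmu y x])).1
    exact ((h1.pow 2).continuousOn.integrableOn_compact (isCompact_closedBall c 1)).mono_set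
      Metric.ball_subset_closedBall
  have hiy : ∀ (y c : E3) (x : I → E3), IntegrableOn (fun ω => yy D sp K y x ω ^ 2)
      (Metric.ball c 1) := by
    intro y c x
    have h1 := (kern_facts (fun i => D.charge (sp i)) x (mu K y x) (phb D sp ℓ x)
      (by linarith [hmu y x])).2.2.2.2 c 1
    exact h1.mono_set Metric.ball_subset_closedBall
  -- (b), the layer
  set Bd : ℝ := Vi * (2 * (2 * CK5 * X + P * (1 + A)) + 2 * Q * (Cn * (1 + A))) with hBd
  have hb1 : ∀ ω : E3, (¬ ∀ k, -1 ≤ ω k ∧ ω k ≤ ℓ + 1) → (∀ k, -2 ≤ ω k ∧ ω k ≤ ℓ + 2) →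
      wx D p ψ (fun x => (phi D sp ω x - phb D sp ℓ x) ^ 2) ≤ Bd := by
    intro ω' h1 h2
    have hwall : ω' ∈ wall ℓ := by
      refine ⟨fun k => ⟨by linarith [(h2 k).1], by linarith [(h2 k).2]⟩, fun h3 => h1 fun k =>
        ⟨by linarith [(h3 k).1], by linarith [(h3 k).2]⟩⟩
    have h3 := b25_two D sp (p := p) (ψ := ψ) hp hψ
      (V := fun x => (phi D sp ω' x - phb D sp ℓ x) ^ 2)
      (W1 := fun x => ∫ ω in Metric.ball ω' 1, vv D sp ℓ K ω' x ω ^ 2)
      (W2 := fun x => nn ω' x ^ ((5 : ℝ) / 3)) (Vi * 2) (Vi * (2 * Q))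
      (fun x => sq_nonneg _) (b25_WI_vv D sp ℓ hℓ K hK8 ω' ω' 1) (hnW ω') (fun x hx => by
        have h4 := hfar ω' h1 x hx
        have h5 := ext_sub (fun i => D.charge (sp i)) x ω' (phb D sp ℓ x)
          (fun i => by linarith [h4 i])
        refine h5.trans ?_
        have hne : ∀ ω ∈ Metric.ball ω' (1 / 2 : ℝ), ∀ i, x i ≠ ω := by
          intro ω hω i hi
          rw [Metric.mem_ball, dist_eq_norm] at hω
          have := h4 i
          rw [hi] at this
          linarith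
        have h6 : ∫ v in Metric.ball ω' (1 / 2), ((∑ i, D.charge (sp i) *
            (1 / ‖x i - v‖)) - phb D sp ℓ x) ^ 2 ≤
            ∫ v in Metric.ball ω' (1 / 2), (2 * vv D sp ℓ K ω' x v ^ 2 +
              2 * yy D sp K ω' x v ^ 2) := by
          have hsub : Metric.ball ω' (1 / 2 : ℝ) ⊆ Metric.ball ω' 1 :=
            Metric.ball_subset_ball (by norm_num)
          refine integral_mono_of_nonneg (Filter.Eventually.of_forall fun v => sq_nonneg _) ?_ ?_
          · exact ((hiv ω' ω' x).mono_set hsub).const_mul 2 |>.add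
              (((hiy ω' ω' x).mono_set hsub).const_mul 2)
          · filter_upwards [ae_restrict_mem measurableSet_ball] with v hv
            have h7 := hsplit ω' x v (hne v hv)
            unfold phi at h7
            rw [h7]
            exact b25_sq1 _ _
        have h8 : ∫ v in Metric.ball ω' (1 / 2), (2 * vv D sp ℓ K ω' x v ^ 2 +
              2 * yy D sp K ω' x v ^ 2) ≤
            ∫ v in Metric.ball ω' 1, (2 * vv D sp ℓ K ω' x v ^ 2 +
              2 * yy D sp K ω' x v ^ 2) := by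
          refine setIntegral_mono_set ?_ (Filter.Eventually.of_forall fun v => ?_) ?_
          · exact ((hiv ω' ω' x).const_mul 2).add ((hiy ω' ω' x).const_mul 2)
          · show 0 ≤ 2 * vv D sp ℓ K ω' x v ^ 2 + 2 * yy D sp K ω' x v ^ 2
            positivity
          · exact (Metric.ball_subset_ball (by norm_num)).eventuallyLE
        have h9 : ∫ v in Metric.ball ω' 1, (2 * vv D sp ℓ K ω' x v ^ 2 +
              2 * yy D sp K ω' x v ^ 2) =
            2 * (∫ v in Metric.ball ω' 1, vv D sp ℓ K ω' x v ^ 2) +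
              2 * ∫ v in Metric.ball ω' 1, yy D sp K ω' x v ^ 2 := by
          rw [integral_add ((hiv ω' ω' x).const_mul 2) ((hiy ω' ω' x).const_mul 2),
            integral_const_mul, integral_const_mul]
        have h10 := hyw ω' x
        calc Vi * ∫ v in Metric.ball ω' (1 / 2), ((∑ i, D.charge (sp i) *
            (1 / ‖x i - v‖)) - phb D sp ℓ x) ^ 2 ≤
              Vi * (2 * (∫ v in Metric.ball ω' 1, vv D sp ℓ K ω' x v ^ 2) +
                2 * (Q * nn ω' x ^ ((5 : ℝ) / 3))) := by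
              refine mul_le_mul_of_nonneg_left ?_ hVi
              linarith
          _ = _ := by ring)
    refine h3.trans ?_
    have h4 := ha ω' hwall
    have h5 := hnn ω'
    have h6 : 0 ≤ Vi * 2 := by positivity
    have h7 : 0 ≤ Vi * (2 * Q) := by positivity
    have h8 := mul_le_mul_of_nonneg_left h4 h6
    have h9 := mul_le_mul_of_nonneg_left h5 h7
    rw [hBd]
    calc _ ≤ Vi * 2 * (2 * CK5 * X + P * (1 + A)) + Vi * (2 * Q) * (Cn * (1 + A)) :=
          add_le_add h8 h9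
      _ = _ := by ring
  have hb2 := ext_max D sp ℓ (by linarith [hB.len]) hB.neu p ψ hp hB.p1 hψ hB.nrm Bd hb1
  -- the cases
  have hA1 : 0 ≤ 1 + A := by linarith
  have hbd0 : 0 ≤ 2 * V1 * (Vi * (2 * P + 2 * Q * Cn)) + 2 * Q * Cn := by positivity
  have had0 : 0 ≤ 2 * P + 4 * Q * Cn := by positivity
  by_cases hw : ∀ k, -3 ≤ w k ∧ w k ≤ ℓ + 3
  · by_cases hw2 : ∀ k, 20 ≤ w k ∧ w k ≤ ℓ - 20
    · -- interior
      have h1 := HRK sp ℓ η p ψ hB A hA hq y w hwy (by
        intro v hv k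
        rw [Metric.mem_closedBall, dist_eq_norm] at hv
        have h1 := (b25_coord (v - w) k).trans hv
        have h2 : (v - w) k = v k - w k := rfl
        rw [h2, abs_le] at h1
        have h3 := hw2 k
        constructor <;> linarith)
      refine h1.trans ?_
      have h2 : CR ≤ K ^ ((1 : ℝ) / 3) := by
        calc CR = (CR ^ 3) ^ ((1 : ℝ) / 3) := by
              rw [← Real.rpow_natCast, ← Real.rpow_mul hCR.le]
              norm_num
          _ ≤ K ^ ((1 : ℝ) / 3) := Real.rpow_le_rpow (by positivity) hKC (by norm_num)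
      have h3 : CR / K ^ ((1 : ℝ) / 3) ≤ 1 := by
        rw [div_le_one (by linarith)]
        exact h2
      have h4 := mul_le_mul_of_nonneg_right h3 hA1
      have h5 : 0 ≤ 2 * (2 * CK5) + 2 * V1 * (Vi * (2 * (2 * CK5))) := by positivity
      have h6 := mul_nonneg h5 hX0
      have h7 := mul_nonneg hbd0 hA1
      have h8 := mul_nonneg had0 hA1
      rw [← hX]
      linarith
    · -- near the wall
      have hwall : w ∈ wall ℓ := ⟨hw, hw2⟩
      have h1 := b25_two D sp (p := p) (ψ := ψ) hp hψ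
        (V := fun x => ∫ ω in Metric.ball w 1, vv D sp ℓ K y x ω ^ 2)
        (W1 := fun x => ∫ ω in Metric.ball w 1, vv D sp ℓ K w x ω ^ 2)
        (W2 := fun x => nn w x ^ ((5 : ℝ) / 3)) 2 (2 * (2 * Q))
        (fun x => integral_nonneg fun ω => sq_nonneg _) (b25_WI_vv D sp ℓ hℓ K hK8 w w 1)
        (hnW w) (fun x _ => by
          have h2 := (Hy (fun i => D.charge (sp i)) x z (mu K w x) hci (hmu w x) w).2.2
            (phb D sp ℓ x) (mu K y x) (hmu y x)
          have h3 : Cy * z ^ 2 * (1 / mu K w x + 1 / mu K y x) * nn w x ^ 2 ≤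
              2 * Q * nn w x ^ ((5 : ℝ) / 3) := by
            have h4 := mul_le_mul_of_nonneg_left (hn1 w x) hQ
            have h5 := mul_le_mul_of_nonneg_left (hn2 x) hQ
            calc Cy * z ^ 2 * (1 / mu K w x + 1 / mu K y x) * nn w x ^ 2 =
                Q * (1 / mu K w x * nn w x ^ 2) + Q * (1 / mu K y x * nn w x ^ 2) := by
                  show _ = Cy * z ^ 2 * (1 / mu K w x * nn w x ^ 2) +
                    Cy * z ^ 2 * (1 / mu K y x * nn w x ^ 2)
                  ring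
              _ ≤ _ := by linarith
          have hcv : ∀ y : E3, Continuous (vv D sp ℓ K y x) := fun y =>
            (kern_facts (fun i => D.charge (sp i)) x (mu K y x) (phb D sp ℓ x)
              (by linarith [hmu y x])).1
          have hid : IntegrableOn (fun ω => (vv D sp ℓ K w x ω - vv D sp ℓ K y x ω) ^ 2)
              (Metric.ball w 1) :=
            ((((hcv w).sub (hcv y)).pow 2).continuousOn.integrableOn_compact
              (isCompact_closedBall w 1)).mono_set Metric.ball_subset_closedBall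
          have h6 : ∫ ω in Metric.ball w 1, vv D sp ℓ K y x ω ^ 2 ≤
              ∫ ω in Metric.ball w 1, (2 * vv D sp ℓ K w x ω ^ 2 +
                2 * (vv D sp ℓ K w x ω - vv D sp ℓ K y x ω) ^ 2) := by
            refine integral_mono_of_nonneg (Filter.Eventually.of_forall fun v => sq_nonneg _)
              (((hiv w w x).const_mul 2).add (hid.const_mul 2))
              (Filter.Eventually.of_forall fun v => ?_)
            exact b25_sq3 _ _
          rw [integral_add ((hiv w w x).const_mul 2) (hid.const_mul 2),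
            integral_const_mul, integral_const_mul] at h6
          have h7 : ∫ ω in Metric.ball w 1, (vv D sp ℓ K w x ω - vv D sp ℓ K y x ω) ^ 2 ≤
              2 * Q * nn w x ^ ((5 : ℝ) / 3) := h2.trans h3
          linarith)
      have h2 := ha w hwall
      have h3 := hnn w
      have h4 := mul_le_mul_of_nonneg_left h3 (show 0 ≤ 2 * (2 * Q) by positivity)
      refine h1.trans ?_
      have h5 : 0 ≤ 2 * V1 * (Vi * (2 * (2 * CK5))) + CKR := by positivity
      have h6 := mul_nonneg h5 hX0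
      have h7 := mul_nonneg hbd0 hA1
      linarith
  · -- outside
    have hout : ∀ ω ∈ Metric.ball w 1, ¬ ∀ k, -1 ≤ ω k ∧ ω k ≤ ℓ + 1 := by
      intro ω hω h1
      apply hw
      intro k
      rw [Metric.mem_ball, dist_eq_norm] at hω
      have h2 := b25_coord (ω - w) k
      have h3 : (ω - w) k = ω k - w k := rfl
      rw [h3] at h2
      have h4 := abs_le.1 (h2.trans hω.le)
      have h5 := h1 k
      constructor <;> linarith
    obtain ⟨Bp, hBp0, hBp⟩ := (b25_phb D sp ℓ hℓ).2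
    have hFm : Measurable (Function.uncurry fun (x : I → E3) (ω : E3) =>
        (phi D sp ω x - phb D sp ℓ x) ^ 2) := by
      have h1 : Measurable (fun q : (I → E3) × E3 => phb D sp ℓ q.1) :=
        (b25_phb D sp ℓ hℓ).1.comp measurable_fst
      unfold phi
      refine Measurable.pow_const (Measurable.sub ?_ h1) 2
      refine Finset.measurable_fun_sum _ fun i _ => ?_
      have h3 : Measurable (fun q : (I → E3) × E3 => q.1 i - q.2) :=
        ((measurable_pi_apply i).comp measurable_fst).sub measurable_snd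
      exact (measurable_const.div h3.norm).const_mul _
    have hFb : ∀ x : I → E3, (∀ i, x i ∈ cube ℓ) → ∀ ω ∈ Metric.ball w 1,
        |(phi D sp ω x - phb D sp ℓ x) ^ 2| ≤ (∑ i, |D.charge (sp i)| + Bp) ^ 2 := by
      intro x hx ω hω
      have h1 := hfar ω (hout ω hω) x hx
      rw [abs_of_nonneg (sq_nonneg _), ← sq_abs]
      refine pow_le_pow_left₀ (abs_nonneg _) ((abs_sub _ _).trans (add_le_add ?_ (hBp x))) 2
      unfold phi
      refine (Finset.abs_sum_le_sum_abs _ _).trans (Finset.sum_le_sum fun i _ => ?_)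
      rw [abs_mul, abs_of_nonneg (show (0 : ℝ) ≤ 1 / ‖x i - ω‖ by positivity)]
      refine mul_le_of_le_one_right (abs_nonneg _) ?_
      rw [div_le_one (by linarith [h1 i])]
      exact (h1 i).le
    have hWF : WI D sp ℓ (fun x => ∫ ω in Metric.ball w 1,
        (phi D sp ω x - phb D sp ℓ x) ^ 2) := by
      refine b25_WI D sp ℓ _ (b25_par _ _ hFm)
        ((∑ i, |D.charge (sp i)| + Bp) ^ 2 * volume.real (Metric.ball w 1)) ?_
      intro x hx
      exact b25_ballbd w 1 _ _ fun ω hω => hFb x hx ω hω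
    have hsw : wx D p ψ (fun x => ∫ ω in Metric.ball w 1, (phi D sp ω x - phb D sp ℓ x) ^ 2) ≤
        volume.real (Metric.ball w 1) * Bd :=
      b25_swap D sp hψ (Metric.ball w 1) measure_ball_lt_top.ne
        (fun x ω => (phi D sp ω x - phb D sp ℓ x) ^ 2) hFm _ measurableSet_ball hFb Bd
        (fun ω hω => hb2 ω (hout ω hω))
    have hvol : volume.real (Metric.ball w 1) = V1 := by
      show volume.real (Metric.ball w 1) = volume.real (Metric.ball (0 : E3) 1)
      simp only [Measure.real, Measure.addHaar_ball_center]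
    rw [hvol] at hsw
    have h1 := b25_two D sp (p := p) (ψ := ψ) hp hψ
      (V := fun x => ∫ ω in Metric.ball w 1, vv D sp ℓ K y x ω ^ 2)
      (W1 := fun x => ∫ ω in Metric.ball w 1, (phi D sp ω x - phb D sp ℓ x) ^ 2)
      (W2 := fun x => nn w x ^ ((5 : ℝ) / 3)) 2 (2 * Q)
      (fun x => integral_nonneg fun ω => sq_nonneg _) hWF (hnW w) (fun x hx => by
        have hne : ∀ ω ∈ Metric.ball w 1, ∀ i, x i ≠ ω := by
          intro ω hω i hi
          have := hfar ω (hout ω hω) x hx i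
          rw [hi, sub_self, norm_zero] at this
          linarith
        have hiF : IntegrableOn (fun ω => (phi D sp ω x - phb D sp ℓ x) ^ 2)
            (Metric.ball w 1) := by
          have hm : Measurable (fun ω => (phi D sp ω x - phb D sp ℓ x) ^ 2) :=
            Measurable.of_uncurry_left hFm
          have hc : IntegrableOn (fun _ : E3 => (∑ i, |D.charge (sp i)| + Bp) ^ 2)
              (Metric.ball w 1) := integrableOn_const measure_ball_lt_top.ne
          refine Integrable.mono' hc hm.aestronglyMeasurable ?_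
          filter_upwards [ae_restrict_mem measurableSet_ball] with ω hω
          rw [Real.norm_eq_abs]
          exact hFb x hx ω hω
        have h6 : ∫ ω in Metric.ball w 1, vv D sp ℓ K y x ω ^ 2 ≤
            ∫ ω in Metric.ball w 1, (2 * (phi D sp ω x - phb D sp ℓ x) ^ 2 +
              2 * yy D sp K y x ω ^ 2) := by
          refine integral_mono_of_nonneg (Filter.Eventually.of_forall fun v => sq_nonneg _)
            ((hiF.const_mul 2).add ((hiy y w x).const_mul 2)) ?_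
          filter_upwards [ae_restrict_mem measurableSet_ball] with v hv
          have h7 := hsplit y x v (hne v hv)
          rw [h7]
          exact b25_sq2 _ _
        rw [integral_add (hiF.const_mul 2) ((hiy y w x).const_mul 2),
          integral_const_mul, integral_const_mul] at h6
        have h7 := hyy x
        linarith)
    refine h1.trans ?_
    have h3 := hnn w
    have h4 := mul_le_mul_of_nonneg_left h3 (show 0 ≤ 2 * Q by positivity)
    have h5 : 0 ≤ 2 * (2 * CK5) + CKR := by positivity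
    have h6 := mul_nonneg h5 hX0
    have h8 := mul_nonneg had0 hA1
    have h9 : 2 * (V1 * Bd) = 2 * V1 * (Vi * (2 * (2 * CK5))) * X +
        2 * V1 * (Vi * (2 * P + 2 * Q * Cn)) * (1 + A) := by
      rw [hBd]
      ring
    linarith

end Pool.Agent.Helper780_CP.RB25
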