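import Pool.Agent.Helper780_CP.LLDefs2
import Pool.Agent.Helper780_CP.BnDefs
import Pool.Agent.Helper780_CP.RC2
import Pool.Agent.Helper780_CP.RWT
import Pool.Agent.Helper780_CP.RL1
import Pool.Agent.Helper780_CP.RVB
import Pool.Agent.Helper780_CP.Stable
import Pool.Agent.Helper780_CP.RB1
import Pool.Agent.Helper780_CP.RB10
import Pool.Agent.Helper780_CP.RB11
import Pool.Agent.Helper780_CP.RB12
import Pool.Agent.Helper780_CP.RB13
import Pool.Agent.Helper780_CP.RB15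
import Pool.Agent.Helper780_CP.RB21
import Pool.Agent.Helper780_CP.RB25

set_option autoImplicit false

open MeasureTheory
open scoped Topology

namespace Pool.Agent.Helper780_CP.RB26

open Pool.Agent.Helper780_CP
open Pool.Agent.Helper985.CP
open Pool.Agent.Helper780_CP.RB1 (kern_facts)
open Pool.Agent.Helper780_CP.RB10 (elec_fin)
open Pool.Agent.Helper780_CP.RB11 (weights)
open Pool.Agent.Helper780_CP.RB12 (le_w)
open Pool.Agent.Helper780_CP.RB13 (pen_grid)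
open Pool.Agent.Helper780_CP.RB15 (num_sup)
open Pool.Agent.Helper780_CP.RB21 (int2A)
open Pool.Agent.Helper780_CP.RB25 (wall2)

open Pool.Agent.Helper780_CP Pool.Agent.Helper985.CP

section tools

variable {S : Type} (D : Species S) {I : Type} [Fintype I] [DecidableEq I] (sp : I → S)
  {k : ℕ} (p : Fin k → ℝ) (ψ : Fin k → Wave D I)

theorem e_add (ℓ : ℝ) (hst : ∀ j, IsState D sp ℓ (ψ j)) {V W : (I → E3) → ℝ}
    (hV : WI D sp ℓ V) (hW : WI D sp ℓ W) :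
    wx D p ψ (fun x => V x + W x) = wx D p ψ V + wx D p ψ W := by
  unfold wx
  rw [← Finset.sum_add_distrib]
  refine Finset.sum_congr rfl fun j _ => ?_
  rw [wm_add D sp ℓ hV hW (ψ j) (hst j)]
  ring

theorem e_smul (V : (I → E3) → ℝ) (c : ℝ) :
    wx D p ψ (fun x => c * V x) = c * wx D p ψ V := by
  unfold wx
  rw [Finset.mul_sum]
  refine Finset.sum_congr rfl fun j _ => ?_
  rw [wm_smul D V c (ψ j)]
  ring

theorem e_mono (ℓ : ℝ) (hst : ∀ j, IsState D sp ℓ (ψ j)) (hp : ∀ j, 0 ≤ p j)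
    {V W : (I → E3) → ℝ} (hV : WI D sp ℓ V) (hW : WI D sp ℓ W) (h : ∀ᵐ x, V x ≤ W x) :
    wx D p ψ V ≤ wx D p ψ W := by
  unfold wx
  refine Finset.sum_le_sum fun j _ => ?_
  exact mul_le_mul_of_nonneg_left (wm_mono D sp ℓ hV hW (ψ j) (hst j) h) (hp j)

theorem e_sum (ℓ : ℝ) (hst : ∀ j, IsState D sp ℓ (ψ j)) {A : Type} (s : Finset A)
    (V : A → (I → E3) → ℝ) (hV : ∀ a ∈ s, WI D sp ℓ (V a)) :
    wx D p ψ (fun x => ∑ a ∈ s, V a x) = ∑ a ∈ s, wx D p ψ (V a) := by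
  classical
  induction s using Finset.induction_on with
  | empty =>
    have h := e_smul D p ψ (fun _ => (0 : ℝ)) 0
    simpa using h
  | insert a s ha ih =>
    simp only [Finset.sum_insert ha]
    rw [e_add D sp p ψ ℓ hst (hV a (Finset.mem_insert_self a s))
      (WI_sum D sp ℓ s V fun b hb => hV b (Finset.mem_insert_of_mem hb)),
      ih fun b hb => hV b (Finset.mem_insert_of_mem hb)]

theorem e_const (hn : ∀ j, nrm2 D (ψ j) = 1) (hp1 : ∑ j, p j = 1) (c : ℝ) :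
    wx D p ψ (fun _ => c) = c := by
  have h1 : wx D p ψ (fun _ => (1 : ℝ)) = 1 := by
    unfold wx
    simp only [wm_one, hn, mul_one]
    exact hp1
  have h2 := e_smul D p ψ (fun _ => (1 : ℝ)) c
  simpa [h1] using h2

theorem e_nonneg (hp : ∀ j, 0 ≤ p j) {V : (I → E3) → ℝ} (h : ∀ x, 0 ≤ V x) :
    0 ≤ wx D p ψ V := by
  unfold wx wm
  exact Finset.sum_nonneg fun j _ => mul_nonneg (hp j) (Finset.sum_nonneg fun τ _ =>
    integral_nonneg fun x => mul_nonneg (h x) (sq_nonneg _))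

theorem wi_bd (ℓ : ℝ) {f : (I → E3) → ℝ} (hf : Measurable f) (M : ℝ) (hM : ∀ x, |f x| ≤ M) :
    WI D sp ℓ f := by
  have h := RWT.WI_bdd D sp ℓ hf M hM (WI_const D sp ℓ 1)
  intro Ψ hΨ τ
  refine (h Ψ hΨ τ).congr (Filter.Eventually.of_forall fun x => ?_)
  simp only [mul_one]

theorem wi_int (ℓ : ℝ) (ν : Measure E3) [SFinite ν] (f : (I → E3) → E3 → ℝ)
    (hm : Measurable (fun q : (I → E3) × E3 => f q.1 q.2)) (G : E3 → ℝ) (hG : Integrable G ν)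
    (hb : ∀ x ω, |f x ω| ≤ G ω) :
    WI D sp ℓ (fun x => ∫ ω, f x ω ∂ν) ∧ ∀ x, Integrable (f x) ν := by
  have h1 : Measurable (fun x => ∫ ω, f x ω ∂ν) :=
    (hm.stronglyMeasurable.integral_prod_right' (ν := ν)).measurable
  refine ⟨wi_bd D sp ℓ h1 (∫ ω, G ω ∂ν) fun x => ?_, fun x => ?_⟩
  · rw [← Real.norm_eq_abs]
    exact norm_integral_le_of_norm_le hG (Filter.Eventually.of_forall fun ω => hb x ω)
  · refine hG.mono' ?_ (Filter.Eventually.of_forall fun ω => hb x ω)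
    exact (hm.comp measurable_prodMk_left).aestronglyMeasurable

end tools

section kern

theorem lk_meas : Measurable (fun q : ℝ × E3 => Lk q.1 q.2) := by
  unfold Lk
  refine Measurable.ite ?_ measurable_fst ?_
  · exact (measurableSet_singleton (0 : E3)).preimage measurable_snd
  · fun_prop

theorem gk_meas : Measurable (fun q : ℝ × E3 => Gk q.1 q.2) := by
  unfold Gk
  fun_prop

theorem lk_bd {μ : ℝ} (hμ : 0 ≤ μ) (w : E3) : |Lk μ w| ≤ μ := by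
  unfold Lk
  split_ifs with h
  · rw [abs_of_nonneg hμ]
  · have hw : 0 < ‖w‖ := norm_pos_iff.2 h
    have h1 : Real.exp (-(μ * ‖w‖)) ≤ 1 := Real.exp_le_one_iff.2 (by
      have := mul_nonneg hμ hw.le; linarith)
    have h2 := Real.add_one_le_exp (-(μ * ‖w‖))
    rw [abs_of_nonneg (div_nonneg (by linarith) hw.le), div_le_iff₀ hw]
    linarith

theorem gk_bd {μ : ℝ} (hμ : 0 ≤ μ) (w : E3) : ‖Gk μ w‖ ≤ μ ^ 2 := by
  unfold Gk
  rcases eq_or_ne w 0 with rfl | h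
  · simp [sq_nonneg]
  · have hw : 0 < ‖w‖ := norm_pos_iff.2 h
    set t := μ * ‖w‖ with ht
    have ht0 : 0 ≤ t := mul_nonneg hμ hw.le
    have h2 := Real.add_one_le_exp (-t)
    have h3 : Real.exp (-t) * (1 + t) ≤ 1 := by
      have := Real.add_one_le_exp t
      calc Real.exp (-t) * (1 + t) ≤ Real.exp (-t) * Real.exp t := by
            apply mul_le_mul_of_nonneg_left (by linarith) (Real.exp_pos _).le
        _ = 1 := by rw [← Real.exp_add]; simp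
    have h4 : 1 - Real.exp (-t) * (1 + t) ≤ t ^ 2 := by nlinarith
    rw [norm_smul, Real.norm_eq_abs, abs_of_nonneg (div_nonneg (by linarith) (by positivity))]
    rw [div_mul_eq_mul_div, div_le_iff₀ (by positivity)]
    have h5 : t ^ 2 * ‖w‖ = μ ^ 2 * ‖w‖ ^ 3 := by rw [ht]; ring
    nlinarith

variable {I : Type} [Fintype I]

theorem nh_cont (y : E3) : Continuous (nh (I := I) y) := by
  unfold nh
  fun_prop

theorem nh_nn (y : E3) (x : I → E3) : 0 ≤ nh y x :=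
  Finset.sum_nonneg fun _ _ => (Real.exp_pos _).le

theorem nh_le (y : E3) (x : I → E3) : nh y x ≤ Fintype.card I := by
  unfold nh
  have : ∀ j ∈ (Finset.univ : Finset I), Real.exp (1 - √(1 + ‖x j - y‖ ^ 2)) ≤ 1 := by
    intro j _
    apply Real.exp_le_one_iff.2
    have : 1 ≤ √(1 + ‖x j - y‖ ^ 2) := by
      rw [Real.one_le_sqrt]
      nlinarith [sq_nonneg ‖x j - y‖]
    linarith
  refine (Finset.sum_le_sum this).trans ?_
  simp

theorem mu_meas (K : ℝ) (y : E3) : Measurable (mu (I := I) K y) := by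
  unfold mu
  exact ((nh_cont y).measurable.const_add 1 |>.const_mul K).pow_const _

theorem mu_nn {K : ℝ} (hK : 0 ≤ K) (y : E3) (x : I → E3) : 0 ≤ mu K y x := by
  unfold mu
  have := nh_nn y x
  positivity

theorem mu_le {K : ℝ} (hK : 0 ≤ K) (y : E3) (x : I → E3) :
    mu K y x ≤ (K * (1 + Fintype.card I)) ^ ((1 : ℝ) / 3) := by
  unfold mu
  have h1 := nh_nn y x
  have h2 := nh_le y x
  apply Real.rpow_le_rpow (by positivity) _ (by norm_num)
  apply mul_le_mul_of_nonneg_left _ hK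
  linarith

theorem nb_meas (y : E3) (R : ℝ) : Measurable (nb (I := I) y R) := by
  unfold nb
  refine Finset.measurable_sum _ fun i _ => ?_
  refine Measurable.ite ?_ measurable_const measurable_const
  have : Measurable (fun x : I → E3 => ‖x i - y‖) := by fun_prop
  exact measurableSet_le this measurable_const

theorem nb_nn (y : E3) (R : ℝ) (x : I → E3) : 0 ≤ nb y R x :=
  Finset.sum_nonneg fun i _ => by split_ifs <;> norm_num

theorem nb_le (y : E3) (R : ℝ) (x : I → E3) : nb y R x ≤ Fintype.card I := by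
  unfold nb
  have : ∀ i ∈ (Finset.univ : Finset I), (if ‖x i - y‖ ≤ R then (1 : ℝ) else 0) ≤ 1 := by
    intro i _
    split_ifs <;> norm_num
  refine (Finset.sum_le_sum this).trans ?_
  simp

variable [DecidableEq I] {S : Type} (D : Species S) (sp : I → S)

theorem phb_meas {ℓ : ℝ} (hℓ : 0 < ℓ) : Measurable (phb D sp ℓ) := by
  unfold phb
  have := (RVB.vb_props.1 ℓ hℓ).measurable
  exact Finset.measurable_sum _ fun i _ => (this.comp (measurable_pi_apply i)).const_mul _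

theorem phb_bd {ℓ : ℝ} (hℓ : 0 < ℓ) : ∃ B, ∀ x : I → E3, |phb D sp ℓ x| ≤ B := by
  obtain ⟨C, hC, h⟩ := RVB.vb_props.2
  refine ⟨∑ i, |D.charge (sp i)| * (C / ℓ), fun x => ?_⟩
  unfold phb
  refine (Finset.abs_sum_le_sum_abs _ _).trans (Finset.sum_le_sum fun i _ => ?_)
  rw [abs_mul]
  have := h ℓ (x i) hℓ
  rw [abs_of_nonneg this.1]
  exact mul_le_mul_of_nonneg_left this.2 (abs_nonneg _)

theorem vv_meas {ℓ : ℝ} (hℓ : 0 < ℓ) (K : ℝ) (y : E3) :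
    Measurable (fun q : (I → E3) × E3 => vv D sp ℓ K y q.1 q.2) := by
  unfold vv vp
  refine Measurable.sub ?_ ((phb_meas D sp hℓ).comp measurable_fst)
  refine Finset.measurable_sum _ fun i _ => Measurable.const_mul ?_ _
  have h1 : Measurable (fun q : (I → E3) × E3 => (mu K y q.1, q.1 i - q.2)) := by
    refine Measurable.prodMk ((mu_meas K y).comp measurable_fst) ?_
    exact ((measurable_pi_apply i).comp measurable_fst).sub measurable_snd
  exact lk_meas.comp h1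

theorem gg_meas (K : ℝ) (y : E3) :
    Measurable (fun q : (I → E3) × E3 => gg D sp K y q.1 q.2) := by
  unfold gg gp
  refine Finset.measurable_sum _ fun i _ => ?_
  have h1 : Measurable (fun q : (I → E3) × E3 => (mu K y q.1, q.1 i - q.2)) := by
    refine Measurable.prodMk ((mu_meas K y).comp measurable_fst) ?_
    exact ((measurable_pi_apply i).comp measurable_fst).sub measurable_snd
  exact (gk_meas.comp h1).const_smul (D.charge (sp i))

theorem vv_bd {ℓ K : ℝ} (hℓ : 0 < ℓ) (hK : 0 ≤ K) (y : E3) :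
    ∃ B, 0 ≤ B ∧ ∀ (x : I → E3) (ω : E3), |vv D sp ℓ K y x ω| ≤ B := by
  obtain ⟨B0, h0⟩ := phb_bd D sp hℓ
  set m := (K * (1 + Fintype.card I)) ^ ((1 : ℝ) / 3) with hm
  refine ⟨∑ i, |D.charge (sp i)| * m + |B0|, by positivity, fun x ω => ?_⟩
  unfold vv vp
  refine (abs_sub _ _).trans (add_le_add ?_ ((h0 x).trans (le_abs_self _)))
  refine (Finset.abs_sum_le_sum_abs _ _).trans (Finset.sum_le_sum fun i _ => ?_)
  rw [abs_mul]
  exact mul_le_mul_of_nonneg_left ((lk_bd (mu_nn hK y x) _).trans (mu_le hK y x)) (abs_nonneg _)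

theorem gg_bd {K : ℝ} (hK : 0 ≤ K) (y : E3) :
    ∃ B, 0 ≤ B ∧ ∀ (x : I → E3) (ω : E3), ‖gg D sp K y x ω‖ ≤ B := by
  set m := (K * (1 + Fintype.card I)) ^ ((1 : ℝ) / 3) with hm
  refine ⟨∑ i, |D.charge (sp i)| * m ^ 2, by positivity, fun x ω => ?_⟩
  unfold gg gp
  refine (norm_sum_le _ _).trans (Finset.sum_le_sum fun i _ => ?_)
  rw [norm_smul, Real.norm_eq_abs]
  refine mul_le_mul_of_nonneg_left ((gk_bd (mu_nn hK y x) _).trans ?_) (abs_nonneg _)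
  exact pow_le_pow_left₀ (mu_nn hK y x) (mu_le hK y x) 2

end kern

section grid

theorem grid (y0 : E3) (ρ : ℝ) (hρ : 0 ≤ ρ) : ∃ G : Finset E3, (G.card : ℝ) ≤ (2 * ρ + 5) ^ 3 ∧
    (∀ w ∈ G, ‖w - y0‖ ≤ 3 * (ρ + 2)) ∧ ∀ ω, ‖ω - y0‖ ≤ ρ → ∃ w ∈ G, ‖ω - w‖ < 1 := by
  classical
  set M : ℕ := ⌈ρ⌉₊ + 1 with hM
  have hM1 : (M : ℝ) ≤ ρ + 2 := by
    have := (Nat.ceil_lt_add_one hρ).le
    rw [hM]; push_cast; linarith
  have hM2 : ρ + 1 ≤ (M : ℝ) := by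
    have := Nat.le_ceil ρ
    rw [hM]; push_cast; linarith
  set T : Finset (Fin 3 → ℤ) := Fintype.piFinset fun _ : Fin 3 => Finset.Icc (-(M : ℤ)) M with hT
  set e : (Fin 3 → ℤ) → E3 := fun m => y0 + WithLp.toLp 2 (fun k => (m k : ℝ)) with he
  refine ⟨T.image e, ?_, ?_, ?_⟩
  · have h1 : (T.image e).card ≤ T.card := Finset.card_image_le
    have h2 : T.card = (2 * M + 1) ^ 3 := by
      rw [hT, Fintype.card_piFinset]
      simp only [Int.card_Icc, Finset.prod_const, Finset.card_univ, Fintype.card_fin]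
      congr 1
      omega
    calc ((T.image e).card : ℝ) ≤ ((2 * M + 1) ^ 3 : ℕ) := by
          rw [← h2]; exact_mod_cast h1
      _ = (2 * (M : ℝ) + 1) ^ 3 := by push_cast; ring
      _ ≤ (2 * ρ + 5) ^ 3 := by
          apply pow_le_pow_left₀ (by positivity)
          linarith
  · intro w hw
    rw [Finset.mem_image] at hw
    obtain ⟨m, hm, rfl⟩ := hw
    rw [hT, Fintype.mem_piFinset] at hm
    have h1 : e m - y0 = WithLp.toLp 2 (fun k => (m k : ℝ)) := by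
      simp [he]
    rw [h1]
    have h2 : ‖(WithLp.toLp 2 (fun k => (m k : ℝ)) : E3)‖ ^ 2 ≤ (3 * (M : ℝ)) ^ 2 := by
      rw [EuclideanSpace.norm_sq_eq]
      have h3 : ∀ k, ‖(m k : ℝ)‖ ^ 2 ≤ (M : ℝ) ^ 2 := by
        intro k
        have h4 := Finset.mem_Icc.1 (hm k)
        rw [Real.norm_eq_abs, sq_abs]
        have h5 : (-(M : ℝ)) ≤ m k := by exact_mod_cast h4.1
        have h6 : (m k : ℝ) ≤ M := by exact_mod_cast h4.2
        nlinarith
      calc ∑ k, ‖(WithLp.toLp 2 (fun k => (m k : ℝ)) : E3) k‖ ^ 2 ≤ ∑ _k : Fin 3, (M : ℝ) ^ 2 :=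
            Finset.sum_le_sum fun k _ => h3 k
        _ ≤ (3 * (M : ℝ)) ^ 2 := by
            simp only [Finset.sum_const, Finset.card_univ, Fintype.card_fin, nsmul_eq_mul]
            push_cast
            nlinarith [sq_nonneg (M : ℝ)]
    have h3 := abs_le_of_sq_le_sq h2 (by positivity)
    rw [abs_of_nonneg (norm_nonneg _)] at h3
    linarith
  · intro ω hω
    set m : Fin 3 → ℤ := fun k => round (ω k - y0 k) with hm
    refine ⟨e m, Finset.mem_image.2 ⟨m, ?_, rfl⟩, ?_⟩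
    · rw [hT, Fintype.mem_piFinset]
      intro k
      have h1 : |ω k - y0 k| ≤ ρ := by
        have := PiLp.norm_apply_le (ω - y0) k
        rw [Real.norm_eq_abs] at this
        exact this.trans hω
      have h2 := abs_sub_round (ω k - y0 k)
      rw [abs_le] at h1 h2
      have h3 : (m k : ℝ) ≤ M := by
        simp only [hm]; linarith
      have h4 : -(M : ℝ) ≤ m k := by
        simp only [hm]; linarith
      rw [Finset.mem_Icc]
      exact ⟨by exact_mod_cast h4, by exact_mod_cast h3⟩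
    · have h2 : ‖ω - e m‖ ^ 2 < 1 ^ 2 := by
        rw [EuclideanSpace.norm_sq_eq]
        have h3 : ∀ k, ‖(ω - e m) k‖ ^ 2 ≤ 1 / 4 := by
          intro k
          have h4 : (ω - e m) k = (ω k - y0 k) - m k := by
            simp [he]; ring
          rw [h4, Real.norm_eq_abs, sq_abs]
          have h5 := abs_sub_round (ω k - y0 k)
          rw [abs_le] at h5
          have h6 : (m k : ℝ) = (round (ω k - y0 k) : ℤ) := rfl
          rw [h6]
          nlinarith [h5.1, h5.2]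
        calc ∑ k, ‖(ω - e m) k‖ ^ 2 ≤ ∑ _k : Fin 3, (1 / 4 : ℝ) :=
              Finset.sum_le_sum fun k _ => h3 k
          _ < 1 ^ 2 := by norm_num
      exact lt_of_pow_lt_pow_left₀ 2 (by norm_num) h2

theorem nb_mono {I : Type} [Fintype I] (y : E3) {r r' : ℝ} (h : r ≤ r') (x : I → E3) :
    nb y r x ≤ nb y r' x := by
  unfold nb
  refine Finset.sum_le_sum fun i _ => ?_
  split_ifs with h1 h2 h2
  · exact le_rfl
  · exact absurd (h1.trans h) h2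
  · norm_num
  · exact le_rfl

theorem nb_cover {I : Type} [Fintype I] (y0 : E3) (ρ : ℝ) (G : Finset E3)
    (hG : ∀ ω, ‖ω - y0‖ ≤ ρ → ∃ w ∈ G, ‖ω - w‖ < 1) (x : I → E3) :
    nb y0 ρ x ≤ ∑ w ∈ G, nb w 3 x := by
  unfold nb
  rw [Finset.sum_comm]
  refine Finset.sum_le_sum fun i _ => ?_
  split_ifs with h
  · obtain ⟨w, hw, hw1⟩ := hG _ h
    refine le_trans ?_ (Finset.single_le_sum (f := fun w => if ‖x i - w‖ ≤ 3 then (1 : ℝ) else 0)
      (fun w _ => by split_ifs <;> norm_num) hw)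
    rw [if_pos (by linarith)]
  · exact Finset.sum_nonneg fun w _ => by split_ifs <;> norm_num

theorem pow_sum {A : Type} (s : Finset A) (a : A → ℝ) (ha : ∀ i ∈ s, 0 ≤ a i) :
    (∑ i ∈ s, a i) ^ ((5 : ℝ) / 3) ≤ (s.card : ℝ) ^ ((5 : ℝ) / 3) * ∑ i ∈ s, a i ^ ((5 : ℝ) / 3) := by
  rcases s.eq_empty_or_nonempty with rfl | hs
  · simp
  · obtain ⟨i, hi, hmax⟩ := s.exists_max_image a hs
    have h1 : ∑ j ∈ s, a j ≤ s.card * a i := by
      refine (Finset.sum_le_sum hmax).trans ?_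
      simp
    calc (∑ i ∈ s, a i) ^ ((5 : ℝ) / 3) ≤ (s.card * a i) ^ ((5 : ℝ) / 3) :=
          Real.rpow_le_rpow (Finset.sum_nonneg ha) h1 (by norm_num)
      _ = (s.card : ℝ) ^ ((5 : ℝ) / 3) * a i ^ ((5 : ℝ) / 3) :=
          Real.mul_rpow (by positivity) (ha i hi)
      _ ≤ _ := by
          apply mul_le_mul_of_nonneg_left _ (by positivity)
          exact Finset.single_le_sum (f := fun j => a j ^ ((5 : ℝ) / 3))
            (fun j hj => Real.rpow_nonneg (ha j hj) _) hi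

/-- tangent inequality -/
theorem tan45 {u B : ℝ} (hu : 0 ≤ u) (hB : 1 ≤ B) :
    u ^ ((4 : ℝ) / 3) ≤ B ^ (-(1 : ℝ) / 5) * u ^ ((5 : ℝ) / 3) + B ^ ((4 : ℝ) / 5) := by
  have hB0 : 0 < B := by linarith
  rcases le_or_gt (u ^ ((5 : ℝ) / 3)) B with h | h
  · have h1 : u ^ ((4 : ℝ) / 3) = (u ^ ((5 : ℝ) / 3)) ^ ((4 : ℝ) / 5) := by
      rw [← Real.rpow_mul hu]; norm_num
    rw [h1]
    have h2 : (u ^ ((5 : ℝ) / 3)) ^ ((4 : ℝ) / 5) ≤ B ^ ((4 : ℝ) / 5) :=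
      Real.rpow_le_rpow (by positivity) h (by norm_num)
    have h3 : 0 ≤ B ^ (-(1 : ℝ) / 5) * u ^ ((5 : ℝ) / 3) := by positivity
    linarith
  · have hu0 : 0 < u := by
      rcases hu.eq_or_lt with h0 | h0
      · rw [← h0, Real.zero_rpow (by norm_num)] at h
        linarith
      · exact h0
    have h1 : u ^ ((4 : ℝ) / 3) = (u ^ ((5 : ℝ) / 3)) ^ (-(1 : ℝ) / 5) * u ^ ((5 : ℝ) / 3) := by
      rw [← Real.rpow_mul hu, ← Real.rpow_add hu0]; norm_num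
    rw [h1]
    have h2 : (u ^ ((5 : ℝ) / 3)) ^ (-(1 : ℝ) / 5) ≤ B ^ (-(1 : ℝ) / 5) :=
      Real.rpow_le_rpow_of_nonpos hB0 h.le (by norm_num)
    have h3 := mul_le_mul_of_nonneg_right h2 (Real.rpow_nonneg hu ((5 : ℝ) / 3))
    have h4 : 0 ≤ B ^ ((4 : ℝ) / 5) := by positivity
    linarith

end grid

section kinpart

variable {S : Type} (D : Species S) {I : Type} [Fintype I] [DecidableEq I] (sp : I → S)

theorem kin_nn (hD : D.Valid) (i : I) (u : (I → E3) → ℂ) (x : I → E3) : 0 ≤ kin D sp i u x := by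
  unfold kin
  have := hD.mass_pos (sp i)
  positivity

theorem kin_wint (ℓ : ℝ) (Ψ : Wave D I) (hΨ : IsState D sp ℓ Ψ) (W : E3 → ℝ)
    (hW : Measurable W) (M : ℝ) (hM : ∀ v, |W v| ≤ M) (τ : I → Fin D.g) :
    Integrable (fun x => ∑ j, W (x j) * kin D sp j (Ψ τ) x) := by
  refine integrable_finsetSum _ fun j _ => ?_
  refine ((int_state D sp ℓ Ψ hΨ τ).2.1 j).bdd_mul
    (hW.comp (measurable_pi_apply j)).aestronglyMeasurable (c := M)
    (Filter.Eventually.of_forall fun x => ?_)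
  rw [Real.norm_eq_abs]
  exact hM _

theorem kb_le_kinW (hD : D.Valid) (ℓ : ℝ) (Ψ : Wave D I) (hΨ : IsState D sp ℓ Ψ) (W : E3 → ℝ)
    (hW : Measurable W) (h0 : ∀ v, 0 ≤ W v) (h1 : ∀ v, W v ≤ 1) (y : E3) (c : ℝ)
    (hc : ∀ v, ‖v - y‖ < 8 → c ≤ W v) : c * kb D sp y 8 Ψ ≤ kinW D sp W Ψ := by
  classical
  unfold kb kinW
  rw [Finset.mul_sum]
  refine Finset.sum_le_sum fun τ _ => ?_
  rw [← integral_const_mul]
  set χ : E3 → ℝ := fun v => if ‖v - y‖ < 8 then (1 : ℝ) else 0 with hχ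
  have hχm : Measurable χ := by
    refine Measurable.ite ?_ measurable_const measurable_const
    have : Measurable (fun v : E3 => ‖v - y‖) := by fun_prop
    exact measurableSet_lt this measurable_const
  have hχb : ∀ v, |χ v| ≤ 1 := by
    intro v
    simp only [hχ]
    split_ifs <;> simp
  have i1 := (kin_wint D sp ℓ Ψ hΨ χ hχm 1 hχb τ).const_mul c
  have i2 := kin_wint D sp ℓ Ψ hΨ W hW 1 (fun v => by rw [abs_of_nonneg (h0 v)]; exact h1 v) τ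
  have e1 : ∀ x : I → E3, (∑ j, if ‖x j - y‖ < 8 then kin D sp j (Ψ τ) x else 0) =
      ∑ j, χ (x j) * kin D sp j (Ψ τ) x := by
    intro x
    refine Finset.sum_congr rfl fun j _ => ?_
    simp only [hχ]
    split_ifs <;> simp
  simp only [e1]
  refine integral_mono i1 i2 fun x => ?_
  simp only
  rw [Finset.mul_sum]
  refine Finset.sum_le_sum fun j _ => ?_
  have hk := kin_nn D sp hD j (Ψ τ) x
  simp only [hχ]
  split_ifs with h
  · rw [one_mul]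
    exact mul_le_mul_of_nonneg_right (hc _ h) hk
  · rw [zero_mul, mul_zero]
    exact mul_nonneg (h0 _) hk

end kinpart

section wis

variable {S : Type} (D : Species S) {I : Type} [Fintype I] [DecidableEq I] (sp : I → S)

theorem wi_tq {ℓ : ℝ} (hℓ : 0 < ℓ) (W : E3 → ℝ) (hW : Measurable W) (h0 : ∀ v, 0 ≤ W v)
    (h1 : ∀ v, W v ≤ 1) : WI D sp ℓ (tq D sp ℓ W) := by
  have a1 : WI D sp ℓ (fun x => ∑ i, W (x i) * ∑ j, if i = j then 0 else
      D.charge (sp i) * D.charge (sp j) / ‖x i - x j‖) := by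
    refine WI_sum D sp ℓ Finset.univ _ fun i _ => ?_
    refine RWT.WI_bdd D sp ℓ (hW.comp (measurable_pi_apply i)) 1 (fun x => ?_)
      (WI_pair D sp ℓ i)
    show |W (x i)| ≤ 1
    rw [abs_of_nonneg (h0 _)]
    exact h1 _
  have a2 : WI D sp ℓ (fun x => (∑ i, D.charge (sp i) * W (x i)) * phb D sp ℓ x) := by
    refine RWT.WI_bdd D sp ℓ ?_ (∑ i, |D.charge (sp i)|) (fun x => ?_) (RL1.WI_phb D sp ℓ hℓ)
    · exact Finset.measurable_sum _ fun i _ => (hW.comp (measurable_pi_apply i)).const_mul _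
    · refine (Finset.abs_sum_le_sum_abs _ _).trans (Finset.sum_le_sum fun i _ => ?_)
      rw [abs_mul, abs_of_nonneg (h0 _)]
      have := mul_le_mul_of_nonneg_left (h1 (x i)) (abs_nonneg (D.charge (sp i)))
      linarith
  have a3 := WI_add D sp ℓ a1 (WI_smul D sp ℓ a2 (-1))
  intro Ψ hΨ τ
  refine (a3 Ψ hΨ τ).congr (Filter.Eventually.of_forall fun x => ?_)
  simp only [tq]
  ring

theorem wi_pvs (hD : D.Valid) (ℓ : ℝ) (y0 : E3) (R : ℝ) :
    WI D sp ℓ (fun x => ∑ i, if D.charge (sp i) < 0 ∧ ‖x i - y0‖ ≤ R then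
        pv (fun i => D.charge (sp i)) x i else 0) := by
  refine WI_sum D sp ℓ Finset.univ _ fun i _ => ?_
  have a1 := RWT.WI_bdd D sp ℓ (f := fun x : I → E3 =>
      if D.charge (sp i) < 0 ∧ ‖x i - y0‖ ≤ R then (1 : ℝ) else 0) ?_ 1 (fun x => by
        split_ifs <;> simp) (RWT.WI_pinv D sp hD ℓ i)
  · intro Ψ hΨ τ
    refine (a1 Ψ hΨ τ).congr (Filter.Eventually.of_forall fun x => ?_)
    have : pv (fun i => D.charge (sp i)) x i = pinv D sp i x := rfl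
    simp only [this]
    split_ifs <;> simp
  · by_cases h : D.charge (sp i) < 0
    · simp only [h, true_and]
      refine Measurable.ite ?_ measurable_const measurable_const
      have : Measurable (fun x : I → E3 => ‖x i - y0‖) := by fun_prop
      exact measurableSet_le this measurable_const
    · simp only [h, false_and, if_false]
      exact measurable_const

theorem wi_nb (ℓ : ℝ) (w : E3) (r a : ℝ) (ha : 0 ≤ a) : WI D sp ℓ (fun x => nb w r x ^ a) := by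
  refine wi_bd D sp ℓ ((nb_meas w r).pow_const a) ((Fintype.card I : ℝ) ^ a) fun x => ?_
  rw [abs_of_nonneg (Real.rpow_nonneg (nb_nn w r x) _)]
  exact Real.rpow_le_rpow (nb_nn w r x) (nb_le w r x) ha

theorem wi_nb1 (ℓ : ℝ) (w : E3) (r : ℝ) : WI D sp ℓ (nb w r) := by
  refine wi_bd D sp ℓ (nb_meas w r) (Fintype.card I : ℝ) fun x => ?_
  rw [abs_of_nonneg (nb_nn w r x)]
  exact nb_le w r x

theorem wi_nh (ℓ : ℝ) (w : E3) (a : ℝ) (ha : 0 ≤ a) : WI D sp ℓ (fun x => nh w x ^ a) := by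
  refine wi_bd D sp ℓ ((nh_cont w).measurable.pow_const a) ((Fintype.card I : ℝ) ^ a) fun x => ?_
  rw [abs_of_nonneg (Real.rpow_nonneg (nh_nn w x) _)]
  exact Real.rpow_le_rpow (nh_nn w x) (nh_le w x) ha

/-- integrals of the square of `vv` -/
theorem wi_vv {ℓ K : ℝ} (hℓ : 0 < ℓ) (hK : 0 ≤ K) (y : E3) (ν : Measure E3) [SFinite ν]
    (g : E3 → ℝ) (hg : Measurable g) (hgi : Integrable g ν) :
    WI D sp ℓ (fun x => ∫ ω, g ω * vv D sp ℓ K y x ω ^ 2 ∂ν) ∧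
      ∀ x, Integrable (fun ω => g ω * vv D sp ℓ K y x ω ^ 2) ν := by
  obtain ⟨B, hB, h⟩ := vv_bd (I := I) D sp hℓ hK y
  refine wi_int D sp ℓ ν (fun x ω => g ω * vv D sp ℓ K y x ω ^ 2) ?_ (fun ω => |g ω| * B ^ 2)
    (hgi.abs.mul_const _) fun x ω => ?_
  · exact (hg.comp measurable_snd).mul ((vv_meas D sp hℓ K y).pow_const 2)
  · rw [abs_mul]
    apply mul_le_mul_of_nonneg_left _ (abs_nonneg _)
    rw [abs_of_nonneg (sq_nonneg _)]
    exact sq_le_sq' (by have := (abs_le.1 (h x ω)).1; linarith) (abs_le.1 (h x ω)).2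

/-- integrals of the square of `gg` -/
theorem wi_gg {ℓ K : ℝ} (hK : 0 ≤ K) (y : E3) (ν : Measure E3) [SFinite ν]
    (g : E3 → ℝ) (hg : Measurable g) (hgi : Integrable g ν) :
    WI D sp ℓ (fun x => ∫ ω, g ω * ‖gg D sp K y x ω‖ ^ 2 ∂ν) ∧
      ∀ x, Integrable (fun ω => g ω * ‖gg D sp K y x ω‖ ^ 2) ν := by
  obtain ⟨B, hB, h⟩ := gg_bd (I := I) D sp hK y
  refine wi_int D sp ℓ ν (fun x ω => g ω * ‖gg D sp K y x ω‖ ^ 2) ?_ (fun ω => |g ω| * B ^ 2)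
    (hgi.abs.mul_const _) fun x ω => ?_
  · exact (hg.comp measurable_snd).mul ((gg_meas D sp K y).norm.pow_const 2)
  · rw [abs_mul]
    apply mul_le_mul_of_nonneg_left _ (abs_nonneg _)
    rw [abs_of_nonneg (sq_nonneg _)]
    exact pow_le_pow_left₀ (norm_nonneg _) (h x ω) 2

end wis

section lin

variable {S : Type} (D : Species S) {I : Type} [Fintype I] [DecidableEq I] (sp : I → S)
  {k : ℕ} (p : Fin k → ℝ) (ψ : Fin k → Wave D I)

theorem e_lin5 (ℓ : ℝ) (hst : ∀ j, IsState D sp ℓ (ψ j)) (a b c d e : ℝ)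
    {f1 f2 f3 f4 f5 : (I → E3) → ℝ} (h1 : WI D sp ℓ f1) (h2 : WI D sp ℓ f2)
    (h3 : WI D sp ℓ f3) (h4 : WI D sp ℓ f4) (h5 : WI D sp ℓ f5) :
    WI D sp ℓ (fun x => a * f1 x + b * f2 x + c * f3 x + d * f4 x + e * f5 x) ∧
    wx D p ψ (fun x => a * f1 x + b * f2 x + c * f3 x + d * f4 x + e * f5 x) =
      a * wx D p ψ f1 + b * wx D p ψ f2 + c * wx D p ψ f3 + d * wx D p ψ f4 +
        e * wx D p ψ f5 := by
  have g1 := WI_smul D sp ℓ h1 a
  have g2 := WI_smul D sp ℓ h2 b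
  have g3 := WI_smul D sp ℓ h3 c
  have g4 := WI_smul D sp ℓ h4 d
  have g5 := WI_smul D sp ℓ h5 e
  have k2 := WI_add D sp ℓ g1 g2
  have k3 := WI_add D sp ℓ k2 g3
  have k4 := WI_add D sp ℓ k3 g4
  refine ⟨WI_add D sp ℓ k4 g5, ?_⟩
  rw [e_add D sp p ψ ℓ hst k4 g5, e_add D sp p ψ ℓ hst k3 g4, e_add D sp p ψ ℓ hst k2 g3,
    e_add D sp p ψ ℓ hst g1 g2, e_smul, e_smul, e_smul, e_smul, e_smul]

/-- moments of order 4/3 from moments of order 5/3 -/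
theorem e_43 (ℓ : ℝ) (hst : ∀ j, IsState D sp ℓ (ψ j)) (hp : ∀ j, 0 ≤ p j)
    (hn : ∀ j, nrm2 D (ψ j) = 1) (hp1 : ∑ j, p j = 1) {f g : (I → E3) → ℝ}
    (hf0 : ∀ x, 0 ≤ f x) (hfg : ∀ x, f x ≤ g x)
    (hf : WI D sp ℓ (fun x => f x ^ ((4 : ℝ) / 3))) (hg : WI D sp ℓ (fun x => g x ^ ((5 : ℝ) / 3)))
    {B N : ℝ} (hB : 1 ≤ B) (h : wx D p ψ (fun x => g x ^ ((5 : ℝ) / 3)) ≤ N * B) :
    wx D p ψ (fun x => f x ^ ((4 : ℝ) / 3)) ≤ (N + 1) * B ^ ((4 : ℝ) / 5) := by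
  have hB0 : 0 < B := by linarith
  have c1 := WI_const D sp ℓ (B ^ ((4 : ℝ) / 5))
  have c2 := WI_smul D sp ℓ hg (B ^ (-(1 : ℝ) / 5))
  have c3 := WI_add D sp ℓ c2 c1
  have h1 := e_mono D sp p ψ ℓ hst hp hf c3 (Filter.Eventually.of_forall fun x =>
    ((Real.rpow_le_rpow (hf0 x) (hfg x) (by norm_num)).trans
      (tan45 ((hf0 x).trans (hfg x)) hB)))
  rw [e_add D sp p ψ ℓ hst c2 c1, e_smul, e_const D p ψ hn hp1] at h1
  have h2 : B ^ (-(1 : ℝ) / 5) * wx D p ψ (fun x => g x ^ ((5 : ℝ) / 3)) ≤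
      B ^ (-(1 : ℝ) / 5) * (N * B) := mul_le_mul_of_nonneg_left h (by positivity)
  have h3 : B ^ (-(1 : ℝ) / 5) * B = B ^ ((4 : ℝ) / 5) := by
    nth_rewrite 2 [← Real.rpow_one B]
    rw [← Real.rpow_add hB0]
    norm_num
  calc wx D p ψ (fun x => f x ^ ((4 : ℝ) / 3)) ≤ B ^ (-(1 : ℝ) / 5) * (N * B) +
        B ^ ((4 : ℝ) / 5) := by linarith
    _ = N * (B ^ (-(1 : ℝ) / 5) * B) + B ^ ((4 : ℝ) / 5) := by ring
    _ = (N + 1) * B ^ ((4 : ℝ) / 5) := by rw [h3]; ring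

end lin

section f2

theorem f2_pt (Γ2 v : E3 → ℝ) (y0 : E3) (R' L Rm : ℝ) (hL : 0 ≤ L) (hRm : 0 ≤ Rm) (Q : Set E3)
    (G : Finset E3) (g : E3 → ℝ) (hg0 : ∀ w, 0 ≤ g w)
    (hG : ∀ ω, ‖ω - y0‖ ≤ R' → ∃ w ∈ G, ‖ω - w‖ < 1)
    (hsupp : ∀ ω, R' ≤ ‖ω - y0‖ → Γ2 ω = 0)
    (hΓ : ∀ ω, Γ2 ω ≤ L * (Rm + Set.indicator Q (fun _ => (1 : ℝ)) ω))
    (hgQ : ∀ w, ∀ ω ∈ Metric.ball w 1, Set.indicator Q (fun _ => (1 : ℝ)) ω ≤ g w)
    (hi1 : Integrable (fun ω => Γ2 ω * v ω ^ 2))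
    (hi2 : ∀ w, IntegrableOn (fun ω => v ω ^ 2) (Metric.ball w 1)) :
    ∫ ω, Γ2 ω * v ω ^ 2 ≤ ∑ w ∈ G, (L * (Rm + g w)) * ∫ ω in Metric.ball w 1, v ω ^ 2 := by
  have h1 : ∀ w ∈ G, Integrable (Set.indicator (Metric.ball w 1)
      (fun ω => (L * (Rm + g w)) * v ω ^ 2)) := by
    intro w _
    rw [integrable_indicator_iff Metric.isOpen_ball.measurableSet]
    exact (hi2 w).const_mul _
  have h2 : ∑ w ∈ G, (L * (Rm + g w)) * ∫ ω in Metric.ball w 1, v ω ^ 2 =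
      ∫ ω, ∑ w ∈ G, Set.indicator (Metric.ball w 1) (fun ω => (L * (Rm + g w)) * v ω ^ 2) ω := by
    rw [integral_finset_sum _ h1]
    refine Finset.sum_congr rfl fun w _ => ?_
    rw [integral_indicator Metric.isOpen_ball.measurableSet, integral_const_mul]
  rw [h2]
  refine integral_mono hi1 (integrable_finsetSum _ h1) fun ω => ?_
  have hnn : ∀ w, 0 ≤ Set.indicator (Metric.ball w 1) (fun ω => (L * (Rm + g w)) * v ω ^ 2) ω := by
    intro w
    refine Set.indicator_nonneg (fun ω _ => ?_) ω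
    have := hg0 w
    positivity
  show Γ2 ω * v ω ^ 2 ≤ _
  by_cases hω : R' ≤ ‖ω - y0‖
  · rw [hsupp ω hω, zero_mul]
    exact Finset.sum_nonneg fun w _ => hnn w
  · obtain ⟨w, hw, hw1⟩ := hG ω (not_le.1 hω).le
    refine le_trans ?_ (Finset.single_le_sum (f := fun w => Set.indicator (Metric.ball w 1)
      (fun ω => (L * (Rm + g w)) * v ω ^ 2) ω) (fun w _ => hnn w) hw)
    have hwb : ω ∈ Metric.ball w 1 := by rw [Metric.mem_ball, dist_eq_norm]; exact hw1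
    rw [Set.indicator_of_mem hwb]
    apply mul_le_mul_of_nonneg_right _ (sq_nonneg _)
    refine (hΓ ω).trans (mul_le_mul_of_nonneg_left ?_ hL)
    linarith [hgQ w ω hwb]

variable {S : Type} (D : Species S) {I : Type} [Fintype I] [DecidableEq I] (sp : I → S)
  {k : ℕ} (p : Fin k → ℝ) (ψ : Fin k → Wave D I)

theorem f2_bound {ℓ K : ℝ} (hℓ : 0 < ℓ) (hK : 0 ≤ K) (y : E3)
    (hst : ∀ j, IsState D sp ℓ (ψ j)) (hp : ∀ j, 0 ≤ p j)
    (Γ2 : E3 → ℝ) (y0 : E3) (R' L Rm : ℝ) (hL : 0 ≤ L) (hRm : 0 ≤ Rm)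
    (G : Finset E3) (hG : ∀ ω, ‖ω - y0‖ ≤ R' → ∃ w ∈ G, ‖ω - w‖ < 1)
    (hc : Continuous Γ2) (hsupp : ∀ ω, R' ≤ ‖ω - y0‖ → Γ2 ω = 0)
    (hΓ : ∀ ω, Γ2 ω ≤ L * (Rm +
      Set.indicator {ω : E3 | Metric.closedBall ω 60 ⊆ cube ℓ} (fun _ => (1 : ℝ)) ω))
    (a b : ℝ) (hb0 : 0 ≤ b)
    (ha : ∀ w ∈ G, wx D p ψ (fun x => ∫ ω in Metric.ball w 1, vv D sp ℓ K y x ω ^ 2) ≤ a)
    (hb : ∀ w ∈ G, Metric.closedBall w 4 ⊆ cube ℓ →
      wx D p ψ (fun x => ∫ ω in Metric.ball w 1, vv D sp ℓ K y x ω ^ 2) ≤ b) :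
    WI D sp ℓ (fun x => ∫ ω, Γ2 ω * vv D sp ℓ K y x ω ^ 2) ∧
    wx D p ψ (fun x => ∫ ω, Γ2 ω * vv D sp ℓ K y x ω ^ 2) ≤ G.card * (L * (Rm * a + b)) := by
  classical
  have hcs : HasCompactSupport Γ2 := by
    refine HasCompactSupport.intro (isCompact_closedBall y0 R') fun ω hω => ?_
    apply hsupp
    rw [Metric.mem_closedBall, dist_eq_norm, not_le] at hω
    exact hω.le
  have w1 := wi_vv D sp hℓ hK y volume Γ2 hc.measurable (hc.integrable_of_hasCompactSupport hcs)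
  have w2 : ∀ w : E3, WI D sp ℓ (fun x => ∫ ω in Metric.ball w 1, vv D sp ℓ K y x ω ^ 2) ∧
      ∀ x, IntegrableOn (fun ω => vv D sp ℓ K y x ω ^ 2) (Metric.ball w 1) := by
    intro w
    have hfin : IsFiniteMeasure ((volume : Measure E3).restrict (Metric.ball w 1)) :=
      ⟨by rw [Measure.restrict_apply_univ]; exact measure_ball_lt_top⟩
    have := wi_vv D sp hℓ hK y (volume.restrict (Metric.ball w 1)) (fun _ => (1 : ℝ))
      measurable_const (integrable_const _)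
    refine ⟨by simpa only [one_mul] using this.1, fun x => ?_⟩
    have h2 := this.2 x
    simp only [one_mul] at h2
    exact h2
  refine ⟨w1.1, ?_⟩
  set Q : Set E3 := {ω : E3 | Metric.closedBall ω 60 ⊆ cube ℓ} with hQ
  set g : E3 → ℝ := fun w => if ∃ ω ∈ Metric.ball w 1, ω ∈ Q then (1 : ℝ) else 0 with hg
  have hg0 : ∀ w, 0 ≤ g w := fun w => by simp only [hg]; split_ifs <;> norm_num
  have hgQ : ∀ w, ∀ ω ∈ Metric.ball w 1, Set.indicator Q (fun _ => (1 : ℝ)) ω ≤ g w := by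
    intro w ω hω
    by_cases h : ω ∈ Q
    · rw [Set.indicator_of_mem h]
      simp only [hg]
      rw [if_pos ⟨ω, hω, h⟩]
    · rw [Set.indicator_of_notMem h]
      exact hg0 w
  have h1 := e_mono D sp p ψ ℓ hst hp w1.1
    (WI_sum D sp ℓ G (fun w x => (L * (Rm + g w)) * ∫ ω in Metric.ball w 1, vv D sp ℓ K y x ω ^ 2)
      fun w _ => WI_smul D sp ℓ (w2 w).1 _)
    (Filter.Eventually.of_forall fun x => f2_pt Γ2 (vv D sp ℓ K y x) y0 R' L Rm hL hRm Q G g hg0 hG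
      hsupp hΓ hgQ (w1.2 x) fun w => (w2 w).2 x)
  refine h1.trans ?_
  rw [e_sum D sp p ψ ℓ hst G _ fun w _ => WI_smul D sp ℓ (w2 w).1 _]
  have h2 : ∀ w ∈ G, wx D p ψ (fun x => (L * (Rm + g w)) *
      ∫ ω in Metric.ball w 1, vv D sp ℓ K y x ω ^ 2) ≤ L * (Rm * a + b) := by
    intro w hw
    rw [e_smul]
    have h3 := ha w hw
    set X := wx D p ψ (fun x => ∫ ω in Metric.ball w 1, vv D sp ℓ K y x ω ^ 2) with hX
    have h4 : g w * X ≤ b := by
      simp only [hg]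
      split_ifs with h
      · rw [one_mul]
        obtain ⟨ω, hω, hωQ⟩ := h
        apply hb w hw
        refine subset_trans ?_ hωQ
        intro u hu
        rw [Metric.mem_closedBall] at hu ⊢
        rw [Metric.mem_ball] at hω
        have := dist_triangle u w ω
        rw [dist_comm w ω] at this
        linarith
      · rw [zero_mul]; exact hb0
    have h5 : L * (Rm + g w) * X = L * (Rm * X + g w * X) := by ring
    rw [h5]
    apply mul_le_mul_of_nonneg_left _ hL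
    have := mul_le_mul_of_nonneg_left h3 hRm
    linarith
  refine (Finset.sum_le_sum h2).trans ?_
  simp

end f2

section fin

theorem choose_R (M ε : ℝ) (hM : 0 ≤ M) (hε : 0 < ε) :
    ∃ R : ℝ, 1000 ≤ R ∧ (2 * (2 * R + 10) + 5) ^ 3 * (R ^ ((16 : ℝ) / 5))⁻¹ * M ≤ ε := by
  set T := 125 * M / ε with hT
  have hT0 : 0 ≤ T := by positivity
  refine ⟨max 1000 (T ^ 5), le_max_left _ _, ?_⟩
  set R := max 1000 (T ^ 5) with hR
  have hR1 : 1000 ≤ R := le_max_left _ _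
  have hR0 : 0 < R := by linarith
  have h1 : T ≤ R ^ ((1 : ℝ) / 5) := by
    have h0 : T = (T ^ 5) ^ ((1 : ℝ) / 5) := by
      rw [← Real.rpow_natCast, ← Real.rpow_mul hT0]; norm_num
    rw [h0]
    exact Real.rpow_le_rpow (by positivity) (le_max_right _ _) (by norm_num)
  have h2 : R ^ ((16 : ℝ) / 5) = R ^ 3 * R ^ ((1 : ℝ) / 5) := by
    rw [← Real.rpow_natCast R 3, ← Real.rpow_add hR0]; norm_num
  have h3 : 0 < R ^ ((1 : ℝ) / 5) := by positivity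
  rw [h2]
  have h4 : (2 * (2 * R + 10) + 5) ^ 3 ≤ 125 * R ^ 3 := by
    calc (2 * (2 * R + 10) + 5) ^ 3 ≤ (5 * R) ^ 3 :=
          pow_le_pow_left₀ (by positivity) (by linarith) 3
      _ = 125 * R ^ 3 := by ring
  calc (2 * (2 * R + 10) + 5) ^ 3 * (R ^ 3 * R ^ ((1 : ℝ) / 5))⁻¹ * M ≤
      125 * R ^ 3 * (R ^ 3 * R ^ ((1 : ℝ) / 5))⁻¹ * M := by gcongr
    _ = 125 * M / R ^ ((1 : ℝ) / 5) := by field_simp
    _ ≤ ε := by
      rw [div_le_iff₀ h3]
      have h5 : T * ε = 125 * M := by rw [hT]; field_simp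
      nlinarith

theorem choose_K (K0 M ε : ℝ) (hM : 0 ≤ M) (hε : 0 < ε) :
    ∃ K : ℝ, K0 ≤ K ∧ 8000 ≤ K ∧ M * (K ^ ((1 : ℝ) / 3))⁻¹ ≤ ε := by
  set T := M / ε with hT
  have hT0 : 0 ≤ T := by positivity
  refine ⟨max (max K0 8000) (T ^ 3), (le_max_left _ _).trans (le_max_left _ _),
    (le_max_right _ _).trans (le_max_left _ _), ?_⟩
  set K := max (max K0 8000) (T ^ 3) with hK
  have hK1 : 8000 ≤ K := (le_max_right _ _).trans (le_max_left _ _)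
  have hK0 : 0 < K := by linarith
  have h1 : T ≤ K ^ ((1 : ℝ) / 3) := by
    have h0 : T = (T ^ 3) ^ ((1 : ℝ) / 3) := by
      rw [← Real.rpow_natCast, ← Real.rpow_mul hT0]; norm_num
    rw [h0]
    exact Real.rpow_le_rpow (by positivity) (le_max_right _ _) (by norm_num)
  have h3 : 0 < K ^ ((1 : ℝ) / 3) := by positivity
  rw [← div_eq_mul_inv, div_le_iff₀ h3]
  have h5 : T * ε = M := by rw [hT]; field_simp
  nlinarith

/-- the final arithmetic -/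
theorem fin_arith {c EW P T F2 F3 F4 PV kbs ggs A B B45 Ce CR K i Cl R3 X Cn N2 δ Cp m0 L Rm C1 CK
    CK2 C2 : ℝ} (hc : 0 < c) (hB : B = 1 + A) (hB45 : 1 ≤ B45) (hP : 0 ≤ P)
    (hCe : 0 ≤ Ce) (hCR : 0 ≤ CR) (hK : 0 ≤ K) (hi : 0 ≤ i) (hCl : 0 ≤ Cl) (hR3 : 0 ≤ R3)
    (hCn : 0 ≤ Cn) (hN2 : 0 ≤ N2)
    (h1 : 1 / 40 * EW ≤ 4 * Real.pi * T + Ce * F2 + CR * K * F3 + CR * i * F4 + Ce * PV)
    (h2 : 1 / 4 * P + T ≤ Cl * R3 * (1 + X)) (hX : X = (Cn + 1) * B45)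
    (h3 : F3 ≤ 1 + (Cn + 1) * B45 + (N2 + 1) * B45) (h4 : F4 ≤ Cn * B + N2 * B)
    (h5 : PV ≤ δ * (Cn * B) + Cp * ((Cn + 2) * B45))
    (h6 : F2 ≤ m0 * (L * (Rm * (C1 * B + CK * B45) + (CK2 * B45 + C2 * i * B))))
    (h7 : c * kbs ≤ P) (h8 : c * ggs ≤ EW)
    (s1 : 40 * Ce * m0 * L * Rm * C1 ≤ c / 8)
    (s2 : 40 * (Ce * m0 * L * C2 + CR * (Cn + N2)) * i ≤ c / 4)
    (s3 : 40 * Ce * δ * Cn ≤ c / 8) (hB0 : 0 ≤ B) :
    kbs + ggs ≤ (40 * (4 * Real.pi * Cl * R3 * (Cn + 2) + Ce * m0 * L * (Rm * CK + CK2) +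
      CR * K * (Cn + N2 + 3) + Ce * Cp * (Cn + 2)) / c + 1 / 2) * B45 + 1 / 2 * A := by
  have hpi := Real.pi_gt_three
  have a1 : 4 * Real.pi * (1 / 4 * P + T) ≤ 4 * Real.pi * (Cl * R3 * (1 + X)) :=
    mul_le_mul_of_nonneg_left h2 (by positivity)
  have a1b : Cl * R3 * (1 + X) ≤ Cl * R3 * ((Cn + 2) * B45) :=
    mul_le_mul_of_nonneg_left (by rw [hX]; linarith) (by positivity)
  have a1c : 4 * Real.pi * (Cl * R3 * (1 + X)) ≤ 4 * Real.pi * (Cl * R3 * ((Cn + 2) * B45)) :=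
    mul_le_mul_of_nonneg_left a1b (by positivity)
  have a2 := mul_le_mul_of_nonneg_left h6 hCe
  have h3' : F3 ≤ (Cn + N2 + 3) * B45 := by linarith
  have a3 := mul_le_mul_of_nonneg_left h3' (mul_nonneg hCR hK)
  have a4 := mul_le_mul_of_nonneg_left h4 (mul_nonneg hCR hi)
  have a5 := mul_le_mul_of_nonneg_left h5 hCe
  have b1 := mul_le_mul_of_nonneg_right s1 hB0
  have b2 := mul_le_mul_of_nonneg_right s2 hB0
  have b3 := mul_le_mul_of_nonneg_right s3 hB0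
  have a6 : P ≤ Real.pi * P := by nlinarith
  set Q := 40 * (4 * Real.pi * Cl * R3 * (Cn + 2) + Ce * m0 * L * (Rm * CK + CK2) +
      CR * K * (Cn + N2 + 3) + Ce * Cp * (Cn + 2)) with hQ
  have key : c * (kbs + ggs) ≤ Q * B45 + c / 2 * B := by
    have e1 : Q * B45 = 40 * (4 * Real.pi * (Cl * R3 * ((Cn + 2) * B45))) +
        40 * (Ce * (m0 * (L * (Rm * (CK * B45) + CK2 * B45)))) +
        40 * (CR * K * ((Cn + N2 + 3) * B45)) + 40 * (Ce * (Cp * ((Cn + 2) * B45))) := by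
      rw [hQ]; ring
    have e2 : c / 2 * B = c / 8 * B + c / 4 * B + c / 8 * B := by ring
    have e3 : Ce * (m0 * (L * (Rm * (C1 * B + CK * B45) + (CK2 * B45 + C2 * i * B)))) =
        Ce * (m0 * (L * (Rm * (CK * B45) + CK2 * B45))) + Ce * m0 * L * Rm * C1 * B +
          Ce * m0 * L * C2 * i * B := by ring
    have e4 : CR * i * (Cn * B + N2 * B) = CR * (Cn + N2) * i * B := by ring
    have e5 : Ce * (δ * (Cn * B) + Cp * ((Cn + 2) * B45)) = Ce * δ * Cn * B +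
        Ce * (Cp * ((Cn + 2) * B45)) := by ring
    have e6 : 40 * Ce * m0 * L * Rm * C1 * B = 40 * (Ce * m0 * L * Rm * C1 * B) := by ring
    have e7 : 40 * (Ce * m0 * L * C2 + CR * (Cn + N2)) * i * B =
        40 * (Ce * m0 * L * C2 * i * B) + 40 * (CR * (Cn + N2) * i * B) := by ring
    have e8 : 40 * Ce * δ * Cn * B = 40 * (Ce * δ * Cn * B) := by ring
    have e9 : 4 * Real.pi * (1 / 4 * P + T) = Real.pi * P + 4 * Real.pi * T := by ring
    rw [e3] at a2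
    rw [e4] at a4
    rw [e5] at a5
    rw [e6] at b1
    rw [e7] at b2
    rw [e8] at b3
    rw [e9] at a1
    rw [e1, e2]
    have hPP : 0 ≤ Real.pi * P := by positivity
    linarith
  have h9 : kbs + ggs ≤ (Q * B45 + c / 2 * B) / c := by
    rw [le_div_iff₀ hc]; linarith
  refine h9.trans ?_
  have h10 : (Q * B45 + c / 2 * B) / c = Q / c * B45 + 1 / 2 * B := by field_simp
  rw [h10, hB]
  linarith

variable {S : Type} (D : Species S) {I : Type} [Fintype I] [DecidableEq I] (sp : I → S)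
  {k : ℕ} (p : Fin k → ℝ) (ψ : Fin k → Wave D I)

theorem nbR (ℓ : ℝ) (hst : ∀ j, IsState D sp ℓ (ψ j)) (hp : ∀ j, 0 ≤ p j) (N B : ℝ)
    (hNB : 0 ≤ N * B) (h : ∀ w, wx D p ψ (fun x => nb w 3 x ^ ((5 : ℝ) / 3)) ≤ N * B)
    (y0 : E3) (ρ : ℝ) (hρ : 0 ≤ ρ) :
    wx D p ψ (fun x => nb y0 ρ x ^ ((5 : ℝ) / 3)) ≤
      (((2 * ρ + 5) ^ 3) ^ ((5 : ℝ) / 3) * ((2 * ρ + 5) ^ 3 * N)) * B := by
  obtain ⟨G, hG1, -, hG3⟩ := grid y0 ρ hρ
  have w0 : ∀ w ∈ G, WI D sp ℓ (fun x => nb w 3 x ^ ((5 : ℝ) / 3)) :=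
    fun w _ => wi_nb D sp ℓ w 3 _ (by norm_num)
  have w1 := WI_smul D sp ℓ (WI_sum D sp ℓ G (fun w x => nb w 3 x ^ ((5 : ℝ) / 3)) w0)
    ((G.card : ℝ) ^ ((5 : ℝ) / 3))
  have h1 := e_mono D sp p ψ ℓ hst hp (wi_nb D sp ℓ y0 ρ ((5 : ℝ) / 3) (by norm_num)) w1
    (Filter.Eventually.of_forall fun x => (Real.rpow_le_rpow (nb_nn y0 ρ x)
      (nb_cover y0 ρ G hG3 x) (by norm_num)).trans
        (pow_sum G (fun w => nb w 3 x) fun w _ => nb_nn w 3 x))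
  refine h1.trans ?_
  rw [e_smul, e_sum D sp p ψ ℓ hst G _ w0]
  have h2 : ∑ w ∈ G, wx D p ψ (fun x => nb w 3 x ^ ((5 : ℝ) / 3)) ≤
      (2 * ρ + 5) ^ 3 * (N * B) := by
    refine (Finset.sum_le_sum fun w _ => h w).trans ?_
    rw [Finset.sum_const, nsmul_eq_mul]
    exact mul_le_mul_of_nonneg_right hG1 hNB
  have h3 : (G.card : ℝ) ^ ((5 : ℝ) / 3) ≤ ((2 * ρ + 5) ^ 3) ^ ((5 : ℝ) / 3) :=
    Real.rpow_le_rpow (by positivity) hG1 (by norm_num)
  have h4 : 0 ≤ ∑ w ∈ G, wx D p ψ (fun x => nb w 3 x ^ ((5 : ℝ) / 3)) :=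
    Finset.sum_nonneg fun w _ => e_nonneg D p ψ hp fun x => Real.rpow_nonneg (nb_nn w 3 x) _
  calc _ ≤ ((2 * ρ + 5) ^ 3) ^ ((5 : ℝ) / 3) * ((2 * ρ + 5) ^ 3 * (N * B)) :=
        mul_le_mul h3 h2 h4 (by positivity)
    _ = _ := by ring

theorem kinW_nn (hD : D.Valid) (W : E3 → ℝ) (h0 : ∀ v, 0 ≤ W v) (Ψ : Wave D I) :
    0 ≤ kinW D sp W Ψ := by
  unfold kinW
  exact Finset.sum_nonneg fun τ _ => integral_nonneg fun x => Finset.sum_nonneg fun j _ =>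
    mul_nonneg (h0 _) (kin_nn D sp hD j (Ψ τ) x)

theorem gg_ball {ℓ K : ℝ} (hK : 0 ≤ K) (y : E3) (hst : ∀ j, IsState D sp ℓ (ψ j))
    (hp : ∀ j, 0 ≤ p j) (W : E3 → ℝ) (hWc : Continuous W) (hWs : HasCompactSupport W)
    (h0 : ∀ v, 0 ≤ W v) (c : ℝ) (hc : ∀ v, ‖v - y‖ ≤ 61 → c ≤ W v) :
    c * wx D p ψ (fun x => ∫ ω in Metric.ball y 60, ‖gg D sp K y x ω‖ ^ 2) ≤
      wx D p ψ (fun x => ∫ ω, W ω * ‖gg D sp K y x ω‖ ^ 2) := by
  have w1 := wi_gg D sp (ℓ := ℓ) hK y volume W hWc.measurable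
    (hWc.integrable_of_hasCompactSupport hWs)
  have hfin : IsFiniteMeasure ((volume : Measure E3).restrict (Metric.ball y 60)) :=
    ⟨by rw [Measure.restrict_apply_univ]; exact measure_ball_lt_top⟩
  have w2 := wi_gg D sp (ℓ := ℓ) hK y (volume.restrict (Metric.ball y 60)) (fun _ => c)
    measurable_const (integrable_const _)
  have h1 := e_mono D sp p ψ ℓ hst hp w2.1 w1.1 (Filter.Eventually.of_forall fun x => ?_)
  · refine le_trans (le_of_eq ?_) h1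
    rw [← e_smul]
    congr 1
    funext x
    rw [integral_const_mul]
  · refine le_trans (setIntegral_mono_on (w2.2 x) (w1.2 x).integrableOn
      Metric.isOpen_ball.measurableSet fun ω hω => ?_) (setIntegral_le_integral (w1.2 x)
      (Filter.Eventually.of_forall fun ω => mul_nonneg (h0 ω) (sq_nonneg _)))
    refine mul_le_mul_of_nonneg_right (hc ω ?_) (sq_nonneg _)
    rw [Metric.mem_ball, dist_eq_norm] at hω
    linarith

end fin


/-- TARGET -/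
theorem main_q {S : Type} [Fintype S] [DecidableEq S] (D : Species S) (hD : D.Valid)
    (hf : ∀ s, D.charge s < 0 → D.fermion s = true) (hz : ∀ s, 0 < |D.charge s|) (C0 : ℝ)
    (hC0 : 0 ≤ C0) : ∃ K ℓ0 C : ℝ, 8 ≤ K ∧ 0 < C ∧
    ∀ {I : Type} [Fintype I] [DecidableEq I] (sp : I → S) (ℓ η : ℝ) {k : ℕ} (p : Fin k → ℝ)
      (ψ : Fin k → Wave D I), ℓ0 ≤ ℓ → BS D sp ℓ C0 η p ψ → ∀ A : ℝ, 0 ≤ A →
      (∀ y ∈ wall ℓ, qB D sp K p ψ y ≤ A) → ∀ y ∈ wall ℓ,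
      qB D sp K p ψ y ≤ C * (1 + A) ^ ((4 : ℝ) / 5) + 1 / 2 * A := by
  classical
  set z := ∑ s, |D.charge s| with hz0
  have hz1 : 0 ≤ z := Finset.sum_nonneg fun s _ => abs_nonneg _
  have hzs : ∀ s, |D.charge s| ≤ z := fun s =>
    Finset.single_le_sum (f := fun s => |D.charge s|) (fun s _ => abs_nonneg _) (Finset.mem_univ s)
  obtain ⟨K₁, C₁, hK₁, hC₁, hRB⟩ := RC2.ren_ball z hz1
  obtain ⟨L, c, hL, hc, hw⟩ := weights
  obtain ⟨Ce, hCe, hel⟩ := elec_fin z K₁ C₁ L hz1 hK₁ hL.le hRB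
  obtain ⟨Cl, hCl, hle⟩ := le_w D hD C0 hC0
  obtain ⟨Cn, hCn, hnum⟩ := num_sup D hD hf hz C0 hC0
  obtain ⟨C1, hC1, hwall⟩ := wall2 D hD hf hz C0 hC0
  obtain ⟨R, hR, hRs⟩ := choose_R (40 * Ce * L * C1) (c / 8) (by positivity) (by positivity)
  have hR0 : 0 < R := by linarith
  set R' := 2 * R + 10 with hR'
  set Rm := (R ^ ((16 : ℝ) / 5))⁻¹ with hRm
  have hR'0 : 0 ≤ R' := by rw [hR']; positivity
  have hR'1 : 2010 ≤ R' := by rw [hR']; linarith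
  have hRm0 : 0 ≤ Rm := by rw [hRm]; positivity
  set m0 := (2 * R' + 5) ^ 3 with hm0
  have hm00 : 0 ≤ m0 := by rw [hm0]; positivity
  obtain ⟨CR, hCR, hel2⟩ := hel R' hR'0
  obtain ⟨C2, hC2, hint⟩ := int2A D hD hf hz C0 (3 * (R' + 2) + 400) hC0 (by positivity)
  obtain ⟨K0, hK0, hwall2⟩ := hwall (3 * (R' + 2) + 400) (by positivity)
  set δ := c / (320 * Ce * Cn) with hδ
  have hδ0 : 0 < δ := by rw [hδ]; positivity
  obtain ⟨Cp, hCp, hpen⟩ := pen_grid D hD hf R' δ hR'0 hδ0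
  set N2 := ((2 * (R' + 1) + 5) ^ 3) ^ ((5 : ℝ) / 3) * ((2 * (R' + 1) + 5) ^ 3 * Cn) with hN2
  have hN20 : 0 ≤ N2 := by rw [hN2]; positivity
  obtain ⟨K, hKK0, hK8, hKs⟩ := choose_K K0 (40 * (Ce * m0 * L * C2 + CR * (Cn + N2))) (c / 4)
    (by positivity) (by positivity)
  obtain ⟨CK, hCK, hwall3⟩ := hwall2 K hKK0
  obtain ⟨CK2, hCK2, hint2⟩ := hint K (by linarith)
  set i := (K ^ ((1 : ℝ) / 3))⁻¹ with hi
  have hK00 : 0 < K := by linarith
  have hi0 : 0 ≤ i := by rw [hi]; positivity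
  refine ⟨K, 10 * R + 2000, 40 * (4 * Real.pi * Cl * R' ^ 3 * (Cn + 2) +
      Ce * m0 * L * (Rm * CK + CK2) + CR * K * (Cn + N2 + 3) + Ce * Cp * (Cn + 2)) / c + 1 / 2,
      by linarith, by positivity, ?_⟩
  intro I _ _ sp ℓ η k p ψ hℓ hBS A hA hq y hy
  have hℓ0 : 0 < ℓ := by linarith [hBS.len]
  have hst := hBS.state
  have hp := hBS.p0
  set B := 1 + A with hB
  have hB1 : 1 ≤ B := by rw [hB]; linarith
  have hB0 : 0 ≤ B := by linarith
  set B45 := B ^ ((4 : ℝ) / 5) with hB45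
  have hB451 : 1 ≤ B45 := by rw [hB45]; exact Real.one_le_rpow hB1 (by norm_num)
  obtain ⟨y0, σ, ρ, W, Γ, Γ2, Γ3, hWt, hyy, hρs, hρ01, hρ0, hWρ, hWc, hΓ⟩ := hw R ℓ y hR hℓ hy
  have hnum2 := hnum sp ℓ η p ψ hBS K A (by linarith) hA hq
  have hkb : ∀ w, ∑ j, p j * kb D sp w 3 (ψ j) ≤ Cn * B := fun w => (hnum2 w).1
  have hnb : ∀ w, wx D p ψ (fun x => nb w 3 x ^ ((5 : ℝ) / 3)) ≤ Cn * B := fun w => (hnum2 w).2.1
  have hnh : wx D p ψ (fun x => nh y x ^ ((5 : ℝ) / 3)) ≤ Cn * B := (hnum2 y).2.2.2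
  have w53 : ∀ w r, WI D sp ℓ (fun x => nb w r x ^ ((5 : ℝ) / 3)) := fun w r =>
    wi_nb D sp ℓ w r _ (by norm_num)
  have w43 : ∀ w r, WI D sp ℓ (fun x => nb w r x ^ ((4 : ℝ) / 3)) := fun w r =>
    wi_nb D sp ℓ w r _ (by norm_num)
  have v53 : WI D sp ℓ (fun x => nh y x ^ ((5 : ℝ) / 3)) := wi_nh D sp ℓ y _ (by norm_num)
  have v43 : WI D sp ℓ (fun x => nh y x ^ ((4 : ℝ) / 3)) := wi_nh D sp ℓ y _ (by norm_num)
  have nb43 : ∀ w, wx D p ψ (fun x => nb w 2 x ^ ((4 : ℝ) / 3)) ≤ (Cn + 1) * B45 := fun w =>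
    e_43 D sp p ψ ℓ hst hp hBS.nrm hBS.p1 (fun x => nb_nn w 2 x)
      (fun x => nb_mono w (by norm_num) x) (w43 w 2) (w53 w 3) hB1 (hnb w)
  have nb343 : ∀ w, wx D p ψ (fun x => nb w 3 x ^ ((4 : ℝ) / 3)) ≤ (Cn + 1) * B45 := fun w =>
    e_43 D sp p ψ ℓ hst hp hBS.nrm hBS.p1 (fun x => nb_nn w 3 x)
      (fun x => le_rfl) (w43 w 3) (w53 w 3) hB1 (hnb w)
  have nh43 : wx D p ψ (fun x => nh y x ^ ((4 : ℝ) / 3)) ≤ (Cn + 1) * B45 :=
    e_43 D sp p ψ ℓ hst hp hBS.nrm hBS.p1 (fun x => nh_nn y x)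
      (fun x => le_rfl) v43 v53 hB1 hnh
  have nbR53 : wx D p ψ (fun x => nb y0 (R' + 1) x ^ ((5 : ℝ) / 3)) ≤ N2 * B :=
    nbR D sp p ψ ℓ hst hp Cn B (by positivity) hnb y0 (R' + 1) (by positivity)
  have nbR43 : wx D p ψ (fun x => nb y0 (R' + 1) x ^ ((4 : ℝ) / 3)) ≤ (N2 + 1) * B45 :=
    e_43 D sp p ψ ℓ hst hp hBS.nrm hBS.p1 (fun x => nb_nn y0 (R' + 1) x)
      (fun x => le_rfl) (w43 y0 (R' + 1)) (w53 y0 (R' + 1)) hB1 nbR53
  have nb1 : ∀ w, wx D p ψ (nb w 3) ≤ (Cn + 2) * B45 := by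
    intro w
    have h1 := e_mono D sp p ψ ℓ hst hp (wi_nb1 D sp ℓ w 3)
      (WI_add D sp ℓ (WI_const D sp ℓ 1) (w43 w 3)) (Filter.Eventually.of_forall fun x => by
        have h0 := nb_nn w 3 x
        show nb w 3 x ≤ 1 + nb w 3 x ^ ((4 : ℝ) / 3)
        rcases le_or_gt (nb w 3 x) 1 with h | h
        · have := Real.rpow_nonneg h0 ((4 : ℝ) / 3)
          linarith
        · have := Real.rpow_le_rpow_of_exponent_le h.le (show (1 : ℝ) ≤ 4 / 3 by norm_num)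
          rw [Real.rpow_one] at this
          linarith)
    rw [e_add D sp p ψ ℓ hst (WI_const D sp ℓ 1) (w43 w 3), e_const D p ψ hBS.nrm hBS.p1] at h1
    linarith [nb343 w]
  -- energy
  have h2 := hle sp ℓ η p ψ hBS y0 R' ρ W (by linarith) hρs hρ01
    (fun w hw => hρ0 w (by rw [hR'] at hw; linarith)) hWρ ((Cn + 1) * B45) nb43
  have hWcont : Continuous W := hWt.W_smooth.continuous
  have hWcs : HasCompactSupport W := by
    refine HasCompactSupport.intro (isCompact_closedBall y0 R') fun ω hω => ?_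
    apply hWt.W_supp
    rw [Metric.mem_closedBall, dist_eq_norm, not_le] at hω
    exact hω.le
  have wgg := wi_gg D sp (ℓ := ℓ) (K := K) hK00.le y volume W hWcont.measurable
    (hWcont.integrable_of_hasCompactSupport hWcs)
  obtain ⟨G, hG1, hG2, hG3⟩ := grid y0 R' hR'0
  have hdist : ∀ w ∈ G, ‖w - y‖ ≤ 3 * (R' + 2) + 400 := by
    intro w hw
    have h1 := hG2 w hw
    have h3 : ‖w - y‖ ≤ ‖w - y0‖ + ‖y - y0‖ := by
      have h4 : w - y = (w - y0) - (y - y0) := by abel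
      rw [h4]
      exact norm_sub_le _ _
    linarith
  have hf2 := f2_bound D sp p ψ hℓ0 (K := K) hK00.le y hst hp Γ2 y0 R' L Rm hL.le hRm0 G hG3
    hWt.Γ2_cont hWt.Γ2_supp hΓ (C1 * B + CK * B45) (CK2 * B45 + C2 * i * B) (by positivity)
    (fun w hw => hwall3 sp ℓ η p ψ hBS A hA hq y w (hdist w hw))
    (fun w hw hcl => by
      have h3 := hint2 sp ℓ η p ψ hBS A hA hq y w (hdist w hw) hcl
      rw [div_eq_mul_inv] at h3
      exact h3)
  have h6 : wx D p ψ (fun x => ∫ ω, Γ2 ω * vv D sp ℓ K y x ω ^ 2) ≤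
      m0 * (L * (Rm * (C1 * B + CK * B45) + (CK2 * B45 + C2 * i * B))) :=
    hf2.2.trans (mul_le_mul_of_nonneg_right hG1 (by positivity))
  have w3 := WI_add D sp ℓ (WI_add D sp ℓ (WI_const D sp ℓ 1) v43) (w43 y0 (R' + 1))
  have w4 := WI_add D sp ℓ v53 (w53 y0 (R' + 1))
  have hlin := e_lin5 D sp p ψ ℓ hst (4 * Real.pi) Ce (CR * K) (CR * i) Ce
    (wi_tq D sp hℓ0 W hWcont.measurable hWt.W_nn hWt.W_le) hf2.1 w3 w4 (wi_pvs D sp hD ℓ y0 R')
  have hmain := e_mono D sp p ψ ℓ hst hp (WI_smul D sp ℓ wgg.1 (1 / 40)) hlin.1 (by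
    filter_upwards [ae_distinct (I := I)] with x hx
    have h7 := hel2 D sp ℓ hzs K y y0 hK8 (by linarith) σ W Γ Γ2 Γ3 hWt x hx
    rw [div_eq_mul_inv CR (K ^ ((1 : ℝ) / 3))] at h7
    exact h7)
  rw [e_smul, hlin.2] at hmain
  have h3 : wx D p ψ (fun x => 1 + nh y x ^ ((4 : ℝ) / 3) + nb y0 (R' + 1) x ^ ((4 : ℝ) / 3)) ≤
      1 + (Cn + 1) * B45 + (N2 + 1) * B45 := by
    rw [e_add D sp p ψ ℓ hst (WI_add D sp ℓ (WI_const D sp ℓ 1) v43) (w43 y0 (R' + 1)),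
      e_add D sp p ψ ℓ hst (WI_const D sp ℓ 1) v43, e_const D p ψ hBS.nrm hBS.p1]
    linarith
  have h4 : wx D p ψ (fun x => nh y x ^ ((5 : ℝ) / 3) + nb y0 (R' + 1) x ^ ((5 : ℝ) / 3)) ≤
      Cn * B + N2 * B := by
    rw [e_add D sp p ψ ℓ hst v53 (w53 y0 (R' + 1))]
    linarith
  have h5 := hpen sp ℓ p ψ hp hst (Cn * B) ((Cn + 2) * B45) hkb nb1 y0
  have h7 : c * (∑ j, p j * kb D sp y 8 (ψ j)) ≤ ∑ j, p j * kinW D sp W (ψ j) := by
    rw [Finset.mul_sum]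
    refine Finset.sum_le_sum fun j _ => ?_
    have h8 := mul_le_mul_of_nonneg_left (kb_le_kinW D sp hD ℓ (ψ j) (hst j) W
      hWcont.measurable hWt.W_nn hWt.W_le y c fun v hv => hWc v (by linarith)) (hp j)
    linarith
  have h8 := gg_ball D sp p ψ (ℓ := ℓ) (K := K) hK00.le y hst hp W hWcont hWcs hWt.W_nn c hWc
  have hP : 0 ≤ ∑ j, p j * kinW D sp W (ψ j) := Finset.sum_nonneg fun j _ =>
    mul_nonneg (hp j) (kinW_nn D sp hD W hWt.W_nn (ψ j))
  have s1 : 40 * Ce * m0 * L * Rm * C1 ≤ c / 8 := by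
    have : 40 * Ce * m0 * L * Rm * C1 = m0 * Rm * (40 * Ce * L * C1) := by ring
    rw [this]
    exact hRs
  have s3 : 40 * Ce * δ * Cn ≤ c / 8 := by
    have : 40 * Ce * δ * Cn = c / 8 := by
      rw [hδ]; field_simp; norm_num
    rw [this]
  exact fin_arith hc hB hB451 hP hCe.le hCR.le hK00.le hi0 hCl.le (by positivity) hCn.le hN20
    hmain h2 rfl h3 h4 h5 h6 h7 h8 s1 hKs s3 hB0

end Pool.Agent.Helper780_CP.RB26
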