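import Pool.Agent.Helper780_CP.LLDefs2
import Pool.Agent.Helper780_CP.BnDefs
import Pool.Agent.Helper780_CP.RB26

set_option autoImplicit false

open MeasureTheory
open scoped Topology

namespace Pool.Agent.Helper780_CP.RB27

open Pool.Agent.Helper780_CP
open Pool.Agent.Helper985.CP
open Pool.Agent.Helper780_CP.RB26 (main_q)

open Pool.Agent.Helper780_CP Pool.Agent.Helper985.CP

theorem closure_kin_nonneg {S : Type} (D : Species S) (hD : D.Valid) {I : Type} [Fintype I]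
    [DecidableEq I] (sp : I → S) (i : I) (u : (I → E3) → ℂ) (x : I → E3) : 0 ≤ kin D sp i u x := by
  unfold kin
  have := hD.mass_pos (sp i)
  positivity

theorem closure_kb_le {S : Type} (D : Species S) (hD : D.Valid) {I : Type} [Fintype I]
    [DecidableEq I] (sp : I → S) (ℓ : ℝ) (Ψ : Wave D I) (hΨ : IsState D sp ℓ Ψ) (y : E3) (R : ℝ) :
    kb D sp y R Ψ ≤ ∑ τ, ∫ x, ∑ j, kin D sp j (Ψ τ) x := by
  unfold kb
  refine Finset.sum_le_sum fun τ _ => ?_
  refine integral_mono_of_nonneg (Filter.Eventually.of_forall fun x => ?_)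
    (integrable_finsetSum _ fun j _ => (int_state D sp ℓ Ψ hΨ τ).2.1 j)
    (Filter.Eventually.of_forall fun x => ?_)
  · refine Finset.sum_nonneg fun j _ => ?_
    split_ifs
    · exact closure_kin_nonneg D hD sp j _ _
    · exact le_rfl
  · refine Finset.sum_le_sum fun j _ => ?_
    split_ifs
    · exact le_rfl
    · exact closure_kin_nonneg D hD sp j _ _

theorem closure_Gk_le (μ : ℝ) (hμ : 0 ≤ μ) (w : E3) : ‖Gk μ w‖ ≤ μ ^ 2 := by
  unfold Gk
  rcases eq_or_ne w 0 with rfl | hw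
  · simp
    positivity
  have hr : 0 < ‖w‖ := norm_pos_iff.2 hw
  set t := μ * ‖w‖ with ht
  have ht0 : 0 ≤ t := by positivity
  have h1 : 0 ≤ 1 - Real.exp (-t) * (1 + t) := by
    have h2 : 1 + t ≤ Real.exp t := by linarith [Real.add_one_le_exp t]
    have h3 : Real.exp (-t) * (1 + t) ≤ Real.exp (-t) * Real.exp t :=
      mul_le_mul_of_nonneg_left h2 (Real.exp_pos _).le
    rw [← Real.exp_add, neg_add_cancel, Real.exp_zero] at h3
    linarith
  have h2 : 1 - Real.exp (-t) * (1 + t) ≤ t ^ 2 := by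
    have h3 : 1 - t ≤ Real.exp (-t) := by linarith [Real.add_one_le_exp (-t)]
    nlinarith [mul_le_mul_of_nonneg_right h3 (show (0:ℝ) ≤ 1 + t by linarith)]
  rw [norm_smul, Real.norm_of_nonneg (by positivity)]
  rw [div_mul_eq_mul_div, div_le_iff₀ (by positivity)]
  calc (1 - Real.exp (-t) * (1 + t)) * ‖w‖ ≤ t ^ 2 * ‖w‖ :=
        mul_le_mul_of_nonneg_right h2 hr.le
    _ = μ ^ 2 * ‖w‖ ^ 3 := by rw [ht]; ring

theorem closure_mu_le {I : Type} [Fintype I] (K : ℝ) (hK : 8 ≤ K) (y : E3) (x : I → E3) :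
    0 ≤ mu K y x ∧ mu K y x ≤ (K * (1 + Fintype.card I)) ^ ((1 : ℝ) / 3) := by
  have h0 : 0 ≤ nh y x := by
    unfold nh
    exact Finset.sum_nonneg fun j _ => (Real.exp_pos _).le
  have h1 : nh y x ≤ Fintype.card I := by
    unfold nh
    calc ∑ j, Real.exp (1 - √(1 + ‖x j - y‖ ^ 2)) ≤ ∑ _j : I, (1 : ℝ) := by
          refine Finset.sum_le_sum fun j _ => ?_
          rw [Real.exp_le_one_iff]
          have : (1 : ℝ) ≤ √(1 + ‖x j - y‖ ^ 2) := by
            rw [Real.one_le_sqrt]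
            nlinarith [sq_nonneg ‖x j - y‖]
          linarith
      _ = Fintype.card I := by simp
  unfold mu
  have h2 : 0 ≤ K * (1 + nh y x) := by positivity
  refine ⟨by positivity, ?_⟩
  exact Real.rpow_le_rpow h2 (by gcongr) (by norm_num)

theorem closure_bdd {S : Type} (D : Species S) (hD : D.Valid) {I : Type} [Fintype I]
    [DecidableEq I] (sp : I → S) (ℓ : ℝ) (K : ℝ) (hK : 8 ≤ K) {k : ℕ} (p : Fin k → ℝ)
    (ψ : Fin k → Wave D I) (hst : ∀ j, IsState D sp ℓ (ψ j)) (hp : ∀ j, 0 ≤ p j) :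
    ∃ B : ℝ, ∀ y, qB D sp K p ψ y ≤ B := by
  set M : ℝ := (K * (1 + Fintype.card I)) ^ ((1 : ℝ) / 3) with hM
  set G : ℝ := ((∑ i, |D.charge (sp i)|) * M ^ 2) ^ 2 with hG
  set V : ℝ := volume.real (Metric.ball (0 : E3) 60) with hV
  have hV0 : 0 ≤ V := measureReal_nonneg
  have hG0 : 0 ≤ G := sq_nonneg _
  have hM0 : 0 ≤ M := by positivity
  have hgg : ∀ y x ω, ‖gg D sp K y x ω‖ ^ 2 ≤ G := by
    intro y x ω
    obtain ⟨m0, m1⟩ := closure_mu_le K hK y x
    refine pow_le_pow_left₀ (norm_nonneg _) ?_ 2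
    unfold gg gp
    refine (norm_sum_le _ _).trans ?_
    rw [Finset.sum_mul]
    refine Finset.sum_le_sum fun i _ => ?_
    rw [norm_smul, Real.norm_eq_abs]
    refine mul_le_mul_of_nonneg_left ?_ (abs_nonneg _)
    exact (closure_Gk_le _ m0 _).trans (pow_le_pow_left₀ m0 m1 2)
  have hint : ∀ y x, 0 ≤ (∫ ω in Metric.ball y 60, ‖gg D sp K y x ω‖ ^ 2) ∧
      (∫ ω in Metric.ball y 60, ‖gg D sp K y x ω‖ ^ 2) ≤ G * V := by
    intro y x
    refine ⟨integral_nonneg fun ω => sq_nonneg _, ?_⟩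
    have h1 : (∫ ω in Metric.ball y 60, ‖gg D sp K y x ω‖ ^ 2) ≤
        ∫ ω in Metric.ball y (60 : ℝ), G := by
      refine integral_mono_of_nonneg (Filter.Eventually.of_forall fun ω => sq_nonneg _) ?_
        (Filter.Eventually.of_forall fun ω => hgg y x ω)
      exact integrableOn_const (by finiteness [measure_ball_lt_top (μ := (volume : Measure E3)) (x := y) (r := 60)])
    refine h1.trans (le_of_eq ?_)
    rw [setIntegral_const, smul_eq_mul, mul_comm]
    congr 1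
    rw [hV, Measure.real, Measure.real, Measure.addHaar_ball_center]
  refine ⟨∑ j, p j * (∑ τ, ∫ x, ∑ i, kin D sp i (ψ j τ) x) + ∑ j, p j * (G * V * nrm2 D (ψ j)),
    fun y => ?_⟩
  unfold qB wx
  refine add_le_add (Finset.sum_le_sum fun j _ => mul_le_mul_of_nonneg_left
    (closure_kb_le D hD sp ℓ _ (hst j) y 8) (hp j)) (Finset.sum_le_sum fun j _ =>
    mul_le_mul_of_nonneg_left ?_ (hp j))
  unfold wm nrm2
  rw [Finset.mul_sum]
  refine Finset.sum_le_sum fun τ _ => ?_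
  rw [← integral_const_mul]
  refine integral_mono_of_nonneg (Filter.Eventually.of_forall fun x => ?_)
    ((int_state D sp ℓ _ (hst j) τ).1.const_mul _) (Filter.Eventually.of_forall fun x => ?_)
  · exact mul_nonneg (hint y x).1 (sq_nonneg _)
  · exact mul_le_mul_of_nonneg_right (hint y x).2 (sq_nonneg _)

/-- TARGET -/
theorem closure {S : Type} [Fintype S] [DecidableEq S] (D : Species S) (hD : D.Valid)
    (hf : ∀ s, D.charge s < 0 → D.fermion s = true) (hz : ∀ s, 0 < |D.charge s|) (C0 : ℝ)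
    (hC0 : 0 ≤ C0) : ∃ K ℓ0 C : ℝ, 8 ≤ K ∧ 0 < C ∧
    ∀ {I : Type} [Fintype I] [DecidableEq I] (sp : I → S) (ℓ η : ℝ) {k : ℕ} (p : Fin k → ℝ)
      (ψ : Fin k → Wave D I), ℓ0 ≤ ℓ → BS D sp ℓ C0 η p ψ →
      ∀ y ∈ wall ℓ, qB D sp K p ψ y ≤ C := by
  obtain ⟨K, ℓ0, C, hK, hC, hmain⟩ := main_q D hD hf hz C0 hC0
  refine ⟨K, ℓ0, (1 + 2 * C) ^ 5, hK, by positivity, ?_⟩
  intro I _ _ sp ℓ η k p ψ hℓ hBS y hy
  obtain ⟨B, hB⟩ := closure_bdd D hD sp ℓ K hK p ψ hBS.state hBS.p0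
  set s : Set ℝ := insert 0 ((fun z => qB D sp K p ψ z) '' wall ℓ) with hs
  have hbdd : BddAbove s := by
    refine ⟨max 0 B, ?_⟩
    rintro a (rfl | ⟨z, _, rfl⟩)
    · exact le_max_left _ _
    · exact (hB z).trans (le_max_right _ _)
  set A : ℝ := sSup s with hA
  have hA0 : 0 ≤ A := le_csSup hbdd (Set.mem_insert _ _)
  have hAq : ∀ z ∈ wall ℓ, qB D sp K p ψ z ≤ A := fun z hz' =>
    le_csSup hbdd (Set.mem_insert_of_mem _ ⟨z, hz', rfl⟩)
  have h1 := hmain sp ℓ η p ψ hℓ hBS A hA0 hAq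
  have h2 : A ≤ C * (1 + A) ^ ((4 : ℝ) / 5) + 1 / 2 * A := by
    refine csSup_le ⟨0, Set.mem_insert _ _⟩ ?_
    rintro a (rfl | ⟨z, hz', rfl⟩)
    · positivity
    · exact h1 z hz'
  set t : ℝ := (1 + A) ^ ((1 : ℝ) / 5) with ht
  have ht1 : 1 ≤ t := Real.one_le_rpow (by linarith) (by norm_num)
  have ht5 : t ^ 5 = 1 + A := by
    rw [ht, ← Real.rpow_natCast, ← Real.rpow_mul (by linarith)]
    norm_num
  have ht4 : (1 + A) ^ ((4 : ℝ) / 5) = t ^ 4 := by
    rw [ht, ← Real.rpow_natCast, ← Real.rpow_mul (by linarith)]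
    norm_num
  rw [ht4] at h2
  have ht4' : (1 : ℝ) ≤ t ^ 4 := one_le_pow₀ ht1
  have h3 : t ^ 5 ≤ (1 + 2 * C) * t ^ 4 := by
    rw [ht5]
    nlinarith
  have h4 : t ≤ 1 + 2 * C := by
    have h5 : t * t ^ 4 ≤ (1 + 2 * C) * t ^ 4 := by
      calc t * t ^ 4 = t ^ 5 := by ring
        _ ≤ _ := h3
    exact le_of_mul_le_mul_right h5 (by linarith)
  calc qB D sp K p ψ y ≤ A := hAq y hy
    _ ≤ t ^ 5 := by rw [ht5]; linarith
    _ ≤ (1 + 2 * C) ^ 5 := pow_le_pow_left₀ (by linarith) h4 5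

end Pool.Agent.Helper780_CP.RB27
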