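import Pool.Agent.Helper780_CP.LLDefs2
import Pool.Agent.H5R2.NL.Cut

set_option autoImplicit false

open MeasureTheory
open scoped ENNReal

namespace Pool.Agent.Helper780_CP.RHN

open Pool.Agent.Helper780_CP
open Pool.Agent.Helper985.CP

open Pool.Agent.Helper985.CP

theorem hn_ct_smooth : ContDiff ℝ SM ct := by
  unfold ct
  refine Real.smoothTransition.contDiff.comp ?_
  exact ((contDiff_const.sub (contDiff_id.norm_sq ℝ)).div_const 3)

theorem hn_ct_nonneg (w : E3) : 0 ≤ ct w := Real.smoothTransition.nonneg _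

theorem hn_ct_le_one (w : E3) : ct w ≤ 1 := Real.smoothTransition.le_one _

theorem hn_ct_one (w : E3) (hw : ‖w‖ ≤ 1) : ct w = 1 := by
  refine Real.smoothTransition.one_of_one_le ?_
  have := norm_nonneg w
  nlinarith

theorem hn_ct_zero (w : E3) (hw : 2 ≤ ‖w‖) : ct w = 0 := by
  refine Real.smoothTransition.zero_of_nonpos ?_
  have := norm_nonneg w
  nlinarith

theorem hn_ct_bound : ∃ C : ℝ, 0 < C ∧ ∀ w : E3, ‖fderiv ℝ ct w‖ ≤ C := by
  have hcs : HasCompactSupport ct := by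
    apply HasCompactSupport.intro (isCompact_closedBall (0 : E3) 2)
    intro w hw
    rw [Metric.mem_closedBall, dist_zero_right, not_le] at hw
    exact hn_ct_zero w hw.le
  have hfc : Continuous (fderiv ℝ ct) := hn_ct_smooth.continuous_fderiv (by simp [SM])
  obtain ⟨C, hC⟩ := hfc.bounded_above_of_compact_support (hcs.fderiv ℝ)
  exact ⟨|C| + 1, by positivity, fun w => (hC w).trans (by linarith [le_abs_self C])⟩

theorem hn_cy_nonneg (y : E3) (r : ℝ) (z : E3) : 0 ≤ cy y r z := hn_ct_nonneg _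

theorem hn_cy_le_one (y : E3) (r : ℝ) (z : E3) : cy y r z ≤ 1 := hn_ct_le_one _

theorem hn_cy_one (y : E3) {r : ℝ} (hr : 0 < r) (z : E3) (hz : ‖z - y‖ ≤ r) : cy y r z = 1 := by
  refine hn_ct_one _ ?_
  rw [norm_smul, norm_inv, Real.norm_of_nonneg hr.le, inv_mul_le_iff₀ hr]
  linarith

theorem hn_cy_zero (y : E3) {r : ℝ} (hr : 0 < r) (z : E3) (hz : 2 * r ≤ ‖z - y‖) :
    cy y r z = 0 := by
  refine hn_ct_zero _ ?_
  rw [norm_smul, norm_inv, Real.norm_of_nonneg hr.le, le_inv_mul_iff₀ hr]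
  linarith

theorem hn_cy_smooth (y : E3) (r : ℝ) : ContDiff ℝ SM (cy y r) := by
  unfold cy
  exact hn_ct_smooth.comp (by fun_prop)

theorem hn_cy_bound {C : ℝ} (hC0 : 0 < C) (hC : ∀ w : E3, ‖fderiv ℝ ct w‖ ≤ C) (y : E3) {r : ℝ}
    (hr : 0 < r) (z : E3) :
    ‖fderiv ℝ (cy y r) z‖ ≤ C / r * (if ‖z - y‖ ≤ 2 * r then 1 else 0) := by
  by_cases hz : ‖z - y‖ ≤ 2 * r
  · rw [if_pos hz, mul_one]
    have h1 : HasFDerivAt (fun x : E3 => r⁻¹ • (x - y)) (r⁻¹ • ContinuousLinearMap.id ℝ E3) z :=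
      ((hasFDerivAt_id z).sub_const y).const_smul r⁻¹
    have h2 : HasFDerivAt ct (fderiv ℝ ct (r⁻¹ • (z - y))) (r⁻¹ • (z - y)) :=
      (hn_ct_smooth.differentiable (by simp [SM]) _).hasFDerivAt
    have h12 : HasFDerivAt (cy y r)
        ((fderiv ℝ ct (r⁻¹ • (z - y))).comp (r⁻¹ • ContinuousLinearMap.id ℝ E3)) z :=
      h2.comp z h1
    rw [h12.fderiv]
    refine (ContinuousLinearMap.opNorm_comp_le _ _).trans ?_
    have h3 : ‖r⁻¹ • ContinuousLinearMap.id ℝ E3‖ ≤ r⁻¹ := by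
      rw [norm_smul, norm_inv, Real.norm_eq_abs, abs_of_pos hr]
      calc r⁻¹ * ‖ContinuousLinearMap.id ℝ E3‖ ≤ r⁻¹ * 1 := by
            gcongr
            exact ContinuousLinearMap.norm_id_le
        _ = _ := mul_one _
    rw [div_eq_mul_inv]
    exact mul_le_mul (hC _) h3 (norm_nonneg _) hC0.le
  · rw [if_neg hz, mul_zero]
    push Not at hz
    have h3 : IsLocalMin (cy y r) z := Filter.Eventually.of_forall fun w => by
      rw [hn_cy_zero y hr z hz.le]
      exact hn_cy_nonneg y r w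
    rw [h3.fderiv_eq_zero, norm_zero]

theorem hn_upd {I : Type} [Fintype I] [DecidableEq I] (u : (I → E3) → ℂ) (hu : ContDiff ℝ SM u)
    (i : I) (x : I → E3) (z v : E3) :
    fderiv ℝ (fun z => u (Function.update x i z)) z v =
      fderiv ℝ u (Function.update x i z) (Pi.single i v) := by
  have h1 := hasFDerivAt_update (𝕜 := ℝ) x (i := i) z
  have h2 : HasFDerivAt u (fderiv ℝ u (Function.update x i z)) (Function.update x i z) :=
    (hu.differentiable (by simp [SM]) _).hasFDerivAt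
  have h3 : HasFDerivAt (fun z => u (Function.update x i z)) _ z := h2.comp z h1
  rw [h3.fderiv, ContinuousLinearMap.comp_apply]
  congr 1
  funext j
  by_cases hj : j = i
  · subst hj
    simp
  · simp [hj]

/-- the integrand on the right hand side -/
noncomputable def hn_g {I : Type} [Fintype I] [DecidableEq I] (C : ℝ) (u : (I → E3) → ℂ) (i : I)
    (y : E3) (r : ℝ) (x : I → E3) : ℝ :=
  8 * (cy y r (x i) ^ 2 *
      ∑ k : Fin 3, ‖fderiv ℝ u x (Pi.single i (EuclideanSpace.single k (1 : ℝ)))‖ ^ 2) +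
    24 * (C / r) ^ 2 * ((if ‖x i - y‖ ≤ 2 * r then 1 else 0) * ‖u x‖ ^ 2)

theorem hn_g_nonneg {I : Type} [Fintype I] [DecidableEq I] (C : ℝ) (u : (I → E3) → ℂ) (i : I)
    (y : E3) (r : ℝ) (x : I → E3) : 0 ≤ hn_g C u i y r x := by
  unfold hn_g
  have h1 : (0 : ℝ) ≤ if ‖x i - y‖ ≤ 2 * r then 1 else 0 := by
    split_ifs <;> norm_num
  positivity

theorem hn_pt {I : Type} [Fintype I] [DecidableEq I] {C : ℝ} (hC0 : 0 < C)
    (hC : ∀ w : E3, ‖fderiv ℝ ct w‖ ≤ C) (u : (I → E3) → ℂ) (hu : ContDiff ℝ SM u) (i : I)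
    (y : E3) {r : ℝ} (hr : 0 < r) (x : I → E3) (z : E3) :
    4 * Pool.Agent.H5R2.NL.gsq
      (fun z => ((cy y r z : ℝ) : ℂ) * u (Function.update x i z)) z ≤
      hn_g C u i y r (Function.update x i z) := by
  have hd1 : HasFDerivAt (cy y r) (fderiv ℝ (cy y r) z) z :=
    ((hn_cy_smooth y r).differentiable (by simp [SM]) z).hasFDerivAt
  have hd2 : DifferentiableAt ℝ (fun z => u (Function.update x i z)) z := by
    have h1 := hasFDerivAt_update (𝕜 := ℝ) x (i := i) z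
    exact ((hu.differentiable (by simp [SM]) _)).comp z h1.differentiableAt
  have key : ∀ k : Fin 3, ‖fderiv ℝ (fun z => ((cy y r z : ℝ) : ℂ) * u (Function.update x i z)) z
      (EuclideanSpace.single k (1 : ℝ))‖ ^ 2 ≤ 2 * (cy y r z ^ 2 *
      ‖fderiv ℝ u (Function.update x i z) (Pi.single i (EuclideanSpace.single k (1 : ℝ)))‖ ^ 2) +
      2 * (C / r) ^ 2 * ((if ‖z - y‖ ≤ 2 * r then 1 else 0) * ‖u (Function.update x i z)‖ ^ 2) := by
    intro k
    rw [ims_deriv (cy y r) (fun z => u (Function.update x i z)) z _ _ hd1 hd2, hn_upd u hu i x z]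
    obtain ⟨p, hp⟩ : ∃ p, p = ‖fderiv ℝ u (Function.update x i z)
      (Pi.single i (EuclideanSpace.single k (1 : ℝ)))‖ := ⟨_, rfl⟩
    obtain ⟨q, hq⟩ : ∃ q, q = ‖u (Function.update x i z)‖ := ⟨_, rfl⟩
    obtain ⟨χ, hχ⟩ : ∃ χ, χ = cy y r z := ⟨_, rfl⟩
    have hχ0 : 0 ≤ χ := hχ ▸ hn_cy_nonneg y r z
    have hb := hn_cy_bound hC0 hC y hr z
    obtain ⟨e, he⟩ : ∃ e : ℝ, e = if ‖z - y‖ ≤ 2 * r then 1 else 0 := ⟨_, rfl⟩
    rw [← he] at hb ⊢
    have he2 : e * e = e := by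
      rw [he]
      split_ifs <;> norm_num
    have he0 : 0 ≤ e := by rw [← he2]; exact mul_self_nonneg e
    have h1 : ‖(fderiv ℝ (cy y r) z) (EuclideanSpace.single k (1 : ℝ))‖ ≤ C / r * e := by
      refine (ContinuousLinearMap.le_opNorm _ _).trans ?_
      rw [PiLp.norm_single, norm_one, mul_one]
      exact hb
    have hp0 : 0 ≤ p := hp ▸ norm_nonneg _
    have hq0 : 0 ≤ q := hq ▸ norm_nonneg _
    have h2 := norm_add_le (((cy y r z : ℝ) : ℂ) * fderiv ℝ u (Function.update x i z)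
      (Pi.single i (EuclideanSpace.single k (1 : ℝ)))) (u (Function.update x i z) *
      (((fderiv ℝ (cy y r) z) (EuclideanSpace.single k (1 : ℝ)) : ℝ) : ℂ))
    rw [norm_mul, norm_mul, Complex.norm_real, Complex.norm_real,
      Real.norm_of_nonneg (hn_cy_nonneg y r z), ← hp, ← hq, ← hχ] at h2
    have h3 : q * ‖(fderiv ℝ (cy y r) z) (EuclideanSpace.single k (1 : ℝ))‖ ≤ q * (C / r * e) :=
      mul_le_mul_of_nonneg_left h1 hq0
    rw [← hp, ← hq, ← hχ]
    refine (pow_le_pow_left₀ (norm_nonneg _) (h2.trans (add_le_add le_rfl h3)) 2).trans ?_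
    have h4 := sq_nonneg (χ * p - q * (C / r * e))
    have h5 : (q * (C / r * e)) ^ 2 = (C / r) ^ 2 * (e * q ^ 2) := by
      calc (q * (C / r * e)) ^ 2 = (C / r) ^ 2 * ((e * e) * q ^ 2) := by ring
        _ = _ := by rw [he2]
    nlinarith
  unfold Pool.Agent.H5R2.NL.gsq hn_g
  rw [Function.update_self]
  have hs := Finset.sum_le_sum fun k (_ : k ∈ (Finset.univ : Finset (Fin 3))) => key k
  rw [Finset.sum_add_distrib, ← Finset.mul_sum, ← Finset.mul_sum] at hs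
  simp only [Finset.sum_const, Finset.card_univ, Fintype.card_fin, nsmul_eq_mul] at hs
  push_cast at hs
  linarith

theorem hn_hardy {I : Type} [Fintype I] [DecidableEq I] {C : ℝ} (hC0 : 0 < C)
    (hC : ∀ w : E3, ‖fderiv ℝ ct w‖ ≤ C) (u : (I → E3) → ℂ) (hu : ContDiff ℝ SM u) (i : I)
    (y : E3) {r : ℝ} (hr : 0 < r) (x : I → E3) :
    ∫⁻ z, ENNReal.ofReal (cy y r z ^ 2 * ‖z - y‖⁻¹ ^ 2 * ‖u (Function.update x i z)‖ ^ 2) ≤
      ∫⁻ z, ENNReal.ofReal (hn_g C u i y r (Function.update x i z)) := by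
  obtain ⟨U, hU⟩ : ∃ U : E3 → ℂ, U = fun z => ((cy y r z : ℝ) : ℂ) * u (Function.update x i z) :=
    ⟨_, rfl⟩
  have hUs : ContDiff ℝ 1 U := by
    rw [hU]
    have h1 : ContDiff ℝ 1 (cy y r) := (hn_cy_smooth y r).of_le (by simp [SM])
    have h2 : ContDiff ℝ 1 (fun z => u (Function.update x i z)) :=
      (hu.of_le (by simp [SM])).comp (contDiff_update 1 x i)
    exact (Complex.ofRealCLM.contDiff.comp h1).mul h2
  have hUc : HasCompactSupport U := by
    apply HasCompactSupport.intro (isCompact_closedBall y (2 * r))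
    intro z hz
    rw [Metric.mem_closedBall, dist_eq_norm, not_le] at hz
    rw [hU]
    simp only
    rw [hn_cy_zero y hr z hz.le]
    simp
  obtain ⟨h1, h2⟩ := Pool.Agent.H5R2.NL.hardy y U hUs hUc
  have hG : Integrable (fun z => 4 * Pool.Agent.H5R2.NL.gsq U z) := by
    refine Integrable.const_mul ?_ 4
    refine (Pool.Agent.H5R2.NL.pba_continuous_gsq hUs).integrable_of_hasCompactSupport ?_
    have h3 : Pool.Agent.H5R2.NL.gsq U = (fun A : E3 →L[ℝ] ℂ =>
        ∑ c : Fin 3, ‖A (EuclideanSpace.single c (1 : ℝ))‖ ^ 2) ∘ fderiv ℝ U := rfl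
    rw [h3]
    exact (hUc.fderiv ℝ).comp_left (by simp)
  have e1 : ∫⁻ z, ENNReal.ofReal (cy y r z ^ 2 * ‖z - y‖⁻¹ ^ 2 *
      ‖u (Function.update x i z)‖ ^ 2) = ENNReal.ofReal (∫ z, ‖U z‖ ^ 2 / ‖z - y‖ ^ 2) := by
    rw [ofReal_integral_eq_lintegral_ofReal h1 (Filter.Eventually.of_forall fun z => by positivity)]
    refine lintegral_congr fun z => ?_
    congr 1
    rw [hU]
    simp only
    rw [norm_mul, Complex.norm_real, Real.norm_of_nonneg (hn_cy_nonneg y r z)]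
    rw [mul_pow, inv_pow, div_eq_mul_inv]
    ring
  have e2 : ENNReal.ofReal (∫ z, 4 * Pool.Agent.H5R2.NL.gsq U z) =
      ∫⁻ z, ENNReal.ofReal (4 * Pool.Agent.H5R2.NL.gsq U z) :=
    ofReal_integral_eq_lintegral_ofReal hG (Filter.Eventually.of_forall fun z =>
      mul_nonneg (by norm_num) (Pool.Agent.H5R2.NL.pba_gsq_nonneg U z))
  rw [e1]
  calc ENNReal.ofReal (∫ z, ‖U z‖ ^ 2 / ‖z - y‖ ^ 2)
      ≤ ENNReal.ofReal (∫ z, 4 * Pool.Agent.H5R2.NL.gsq U z) := by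
        refine ENNReal.ofReal_le_ofReal ?_
        rw [integral_const_mul]
        exact h2
    _ = ∫⁻ z, ENNReal.ofReal (4 * Pool.Agent.H5R2.NL.gsq U z) := e2
    _ ≤ _ := by
        refine lintegral_mono fun z => ENNReal.ofReal_le_ofReal ?_
        rw [hU]
        exact hn_pt hC0 hC u hu i y hr x z

theorem hn_ind_meas (y : E3) (r : ℝ) :
    Measurable (fun z : E3 => if ‖z - y‖ ≤ 2 * r then (1 : ℝ) else 0) :=
  Measurable.ite (measurableSet_le (by fun_prop) measurable_const) measurable_const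
    measurable_const

theorem hn_D_cont {I : Type} [Fintype I] [DecidableEq I] (u : (I → E3) → ℂ)
    (hu : ContDiff ℝ SM u) (i : I) : Continuous (fun x : I → E3 =>
      ∑ k : Fin 3, ‖fderiv ℝ u x (Pi.single i (EuclideanSpace.single k (1 : ℝ)))‖ ^ 2) := by
  have h : Continuous (fderiv ℝ u) := hu.continuous_fderiv (by simp [SM])
  exact continuous_finsetSum _ fun k _ => ((h.clm_apply continuous_const).norm).pow 2

theorem hn_D_cs {I : Type} [Fintype I] [DecidableEq I] (u : (I → E3) → ℂ)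
    (huc : HasCompactSupport u) (i : I) : HasCompactSupport (fun x : I → E3 =>
      ∑ k : Fin 3, ‖fderiv ℝ u x (Pi.single i (EuclideanSpace.single k (1 : ℝ)))‖ ^ 2) := by
  have h3 : (fun x : I → E3 =>
      ∑ k : Fin 3, ‖fderiv ℝ u x (Pi.single i (EuclideanSpace.single k (1 : ℝ)))‖ ^ 2) =
      (fun A : (I → E3) →L[ℝ] ℂ =>
        ∑ k : Fin 3, ‖A (Pi.single i (EuclideanSpace.single k (1 : ℝ)))‖ ^ 2) ∘ fderiv ℝ u := rfl
  rw [h3]
  exact (huc.fderiv ℝ).comp_left (by simp)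

theorem hn_int1 {I : Type} [Fintype I] [DecidableEq I] (u : (I → E3) → ℂ)
    (hu : ContDiff ℝ SM u) (huc : HasCompactSupport u) (i : I) (y : E3) (r : ℝ) :
    Integrable (fun x : I → E3 => cy y r (x i) ^ 2 *
      ∑ k : Fin 3, ‖fderiv ℝ u x (Pi.single i (EuclideanSpace.single k (1 : ℝ)))‖ ^ 2) := by
  have h1 : Continuous (fun x : I → E3 => cy y r (x i) ^ 2) :=
    ((hn_cy_smooth y r).continuous.comp (continuous_apply i)).pow 2
  exact (h1.mul (hn_D_cont u hu i)).integrable_of_hasCompactSupport (hn_D_cs u huc i).mul_left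

theorem hn_int2 {I : Type} [Fintype I] [DecidableEq I] (u : (I → E3) → ℂ)
    (hu : ContDiff ℝ SM u) (huc : HasCompactSupport u) (i : I) (y : E3) (r : ℝ) :
    Integrable (fun x : I → E3 => (if ‖x i - y‖ ≤ 2 * r then (1 : ℝ) else 0) * ‖u x‖ ^ 2) := by
  have hsq : Continuous (fun x => ‖u x‖ ^ 2) := (hu.continuous.norm).pow 2
  have hsqc : HasCompactSupport (fun x => ‖u x‖ ^ 2) :=
    huc.comp_left (g := fun z : ℂ => ‖z‖ ^ 2) (by simp)
  have h1 : Integrable (fun x => ‖u x‖ ^ 2) := hsq.integrable_of_hasCompactSupport hsqc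
  refine h1.mono ?_ (Filter.Eventually.of_forall fun x => ?_)
  · exact ((hn_ind_meas y r).comp (measurable_pi_apply i)).aestronglyMeasurable.mul
      hsq.aestronglyMeasurable
  · rw [norm_mul]
    refine mul_le_of_le_one_left (norm_nonneg _) ?_
    split_ifs <;> simp

theorem hn_g_int {I : Type} [Fintype I] [DecidableEq I] (C : ℝ) (u : (I → E3) → ℂ)
    (hu : ContDiff ℝ SM u) (huc : HasCompactSupport u) (i : I) (y : E3) (r : ℝ) :
    Integrable (hn_g C u i y r) :=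
  ((hn_int1 u hu huc i y r).const_mul 8).add ((hn_int2 u hu huc i y r).const_mul _)

theorem hn_glob {I : Type} [Fintype I] [DecidableEq I] {C : ℝ} (hC0 : 0 < C)
    (hC : ∀ w : E3, ‖fderiv ℝ ct w‖ ≤ C) (u : (I → E3) → ℂ) (hu : ContDiff ℝ SM u)
    (huc : HasCompactSupport u) (i : I) (y : E3) {r : ℝ} (hr : 0 < r) :
    ∫ x : I → E3, cy y r (x i) ^ 2 * ‖x i - y‖⁻¹ ^ 2 * ‖u x‖ ^ 2 ≤
      8 * (∫ x : I → E3, cy y r (x i) ^ 2 *
        ∑ k : Fin 3, ‖fderiv ℝ u x (Pi.single i (EuclideanSpace.single k (1 : ℝ)))‖ ^ 2) +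
      24 * (C / r) ^ 2 *
        ∫ x : I → E3, (if ‖x i - y‖ ≤ 2 * r then (1 : ℝ) else 0) * ‖u x‖ ^ 2 := by
  have hfm : Measurable (fun x : I → E3 => cy y r (x i) ^ 2 * ‖x i - y‖⁻¹ ^ 2 * ‖u x‖ ^ 2) := by
    have h1 : Measurable (fun x : I → E3 => cy y r (x i)) :=
      ((hn_cy_smooth y r).continuous.comp (continuous_apply i)).measurable
    have h2 : Measurable (fun x : I → E3 => ‖x i - y‖⁻¹) := by fun_prop
    exact ((h1.pow_const 2).mul (h2.pow_const 2)).mul (hu.continuous.measurable.norm.pow_const 2)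
  have hgm : Measurable (hn_g C u i y r) := by
    unfold hn_g
    have h1 : Measurable (fun x : I → E3 => cy y r (x i)) :=
      ((hn_cy_smooth y r).continuous.comp (continuous_apply i)).measurable
    have h2 := (hn_ind_meas y r).comp (measurable_pi_apply (X := fun _ : I => E3) i)
    exact (((h1.pow_const 2).mul (hn_D_cont u hu i).measurable).const_mul 8).add
      ((h2.mul (hu.continuous.measurable.norm.pow_const 2)).const_mul _)
  have hl : ∫⁻ x : I → E3, ENNReal.ofReal (cy y r (x i) ^ 2 * ‖x i - y‖⁻¹ ^ 2 * ‖u x‖ ^ 2) ≤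
      ∫⁻ x : I → E3, ENNReal.ofReal (hn_g C u i y r x) := by
    refine lintegral_le_of_lmarginal_le (μ := fun _ : I => (volume : Measure E3)) {i}
      hfm.ennreal_ofReal hgm.ennreal_ofReal ?_
    rw [lmarginal_singleton, lmarginal_singleton]
    intro x
    have h := hn_hardy hC0 hC u hu i y hr x
    simpa only [Function.update_self] using h
  have hgi := hn_g_int C u hu huc i y r
  have hgn : 0 ≤ᵐ[volume] hn_g C u i y r :=
    Filter.Eventually.of_forall fun x => hn_g_nonneg C u i y r x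
  have hfin : ∫⁻ x : I → E3, ENNReal.ofReal (hn_g C u i y r x) ≠ ⊤ := by
    have := hgi.lintegral_lt_top
    exact this.ne
  have e1 : ∫ x : I → E3, cy y r (x i) ^ 2 * ‖x i - y‖⁻¹ ^ 2 * ‖u x‖ ^ 2 ≤
      ∫ x : I → E3, hn_g C u i y r x := by
    rw [integral_eq_lintegral_of_nonneg_ae (Filter.Eventually.of_forall fun x => by positivity)
      hfm.aestronglyMeasurable, integral_eq_lintegral_of_nonneg_ae hgn hgm.aestronglyMeasurable]
    exact ENNReal.toReal_mono hfin hl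
  refine e1.trans (le_of_eq ?_)
  have e2 := integral_add ((hn_int1 u hu huc i y r).const_mul 8)
      ((hn_int2 u hu huc i y r).const_mul (24 * (C / r) ^ 2))
  rw [integral_const_mul, integral_const_mul] at e2
  exact e2

theorem hn_near2 {I : Type} [Fintype I] (y : E3) {r : ℝ} (hr : 0 < r) (x : I → E3) :
    near2 y x ≤ r⁻¹ ^ 2 + ∑ i, cy y r (x i) ^ 2 * ‖x i - y‖⁻¹ ^ 2 := by
  have h0 : 0 ≤ ∑ i, cy y r (x i) ^ 2 * ‖x i - y‖⁻¹ ^ 2 :=
    Finset.sum_nonneg fun i _ => by positivity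
  rcases isEmpty_or_nonempty I with h | h
  · unfold near2
    rw [Real.iSup_of_isEmpty]
    positivity
  · refine ciSup_le fun i => ?_
    by_cases hi : ‖x i - y‖ ≤ r
    · have h1 : cy y r (x i) ^ 2 * ‖x i - y‖⁻¹ ^ 2 ≤ ∑ i, cy y r (x i) ^ 2 * ‖x i - y‖⁻¹ ^ 2 :=
        Finset.single_le_sum (f := fun i => cy y r (x i) ^ 2 * ‖x i - y‖⁻¹ ^ 2)
          (fun j _ => by positivity) (Finset.mem_univ i)
      rw [hn_cy_one y hr _ hi, one_pow, one_mul] at h1
      have h2 : 0 ≤ r⁻¹ ^ 2 := by positivity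
      linarith
    · push Not at hi
      have h1 : ‖x i - y‖⁻¹ ≤ r⁻¹ := inv_anti₀ hr hi.le
      have h2 : ‖x i - y‖⁻¹ ^ 2 ≤ r⁻¹ ^ 2 := pow_le_pow_left₀ (by positivity) h1 2
      linarith

/-- TARGET -/
theorem near2_local {S : Type} [Fintype S] (D : Species S) (hD : D.Valid) :
    ∃ C : ℝ, 0 < C ∧ ∀ {I : Type} [Fintype I] [DecidableEq I] (sp : I → S) (ℓ : ℝ)
      (Ψ : Wave D I), IsState D sp ℓ Ψ → ∀ (y : E3) (r : ℝ), 0 < r → r ≤ 1 →
        wm D (near2 y) Ψ ≤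
          C / r ^ 2 * (nrm2 D Ψ + wm D (nb y (2 * r)) Ψ + klc D sp y r Ψ) := by
  obtain ⟨C, hC0, hC⟩ := hn_ct_bound
  obtain ⟨m, hm0, hm⟩ : ∃ m : ℝ, 0 < m ∧ ∀ s, D.mass s ≤ m := by
    refine ⟨1 + ∑ s, D.mass s, ?_, fun s => ?_⟩
    · have : 0 ≤ ∑ s, D.mass s := Finset.sum_nonneg fun s _ => (hD.mass_pos s).le
      linarith
    · have := Finset.single_le_sum (f := D.mass) (fun t _ => (hD.mass_pos t).le)
        (Finset.mem_univ s)
      linarith
  refine ⟨1 + 16 * m + 24 * C ^ 2, by positivity, ?_⟩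
  intro I _ _ sp ℓ Ψ hΨ y r hr hr1
  -- integrability
  have hN : ∀ τ, Integrable (fun x => ‖Ψ τ x‖ ^ 2) := fun τ => (int_state D sp ℓ Ψ hΨ τ).1
  have hA : ∀ τ i, Integrable (fun x => cy y r (x i) ^ 2 * ‖x i - y‖⁻¹ ^ 2 * ‖Ψ τ x‖ ^ 2) := by
    intro τ i
    have h1 := WI_one D sp ℓ i (fun z => ‖z - y‖⁻¹ ^ 2) (locInt_shift locInt_inv2 y) Ψ hΨ τ
    refine h1.mono ?_ (Filter.Eventually.of_forall fun x => ?_)
    · have h2 : Measurable (fun x : I → E3 => cy y r (x i)) :=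
        ((hn_cy_smooth y r).continuous.comp (continuous_apply i)).measurable
      have h3 : Measurable (fun x : I → E3 => ‖x i - y‖⁻¹) := by fun_prop
      exact (((h2.pow_const 2).mul (h3.pow_const 2)).mul
        ((hΨ.smooth τ).continuous.measurable.norm.pow_const 2)).aestronglyMeasurable
    · rw [mul_assoc, norm_mul]
      refine mul_le_of_le_one_left (norm_nonneg _) ?_
      rw [norm_pow, Real.norm_of_nonneg (hn_cy_nonneg y r _)]
      exact pow_le_one₀ (hn_cy_nonneg y r _) (hn_cy_le_one y r _)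
  have hB : ∀ τ i, Integrable (fun x => cy y r (x i) ^ 2 * kin D sp i (Ψ τ) x) := by
    intro τ i
    have h1 := (hn_int1 (Ψ τ) (hΨ.smooth τ) (hΨ.compact τ) i y r).const_mul
      (1 / (2 * D.mass (sp i)))
    refine h1.congr (Filter.Eventually.of_forall fun x => ?_)
    simp only [kin]
    ring
  have hE : ∀ τ i, Integrable (fun x : I → E3 =>
      (if ‖x i - y‖ ≤ 2 * r then (1 : ℝ) else 0) * ‖Ψ τ x‖ ^ 2) :=
    fun τ i => hn_int2 (Ψ τ) (hΨ.smooth τ) (hΨ.compact τ) i y r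
  -- one particle
  have hone : ∀ τ i, ∫ x, cy y r (x i) ^ 2 * ‖x i - y‖⁻¹ ^ 2 * ‖Ψ τ x‖ ^ 2 ≤
      16 * m * (∫ x, cy y r (x i) ^ 2 * kin D sp i (Ψ τ) x) + 24 * (C / r) ^ 2 *
        ∫ x : I → E3, (if ‖x i - y‖ ≤ 2 * r then (1 : ℝ) else 0) * ‖Ψ τ x‖ ^ 2 := by
    intro τ i
    have h1 := hn_glob hC0 hC (Ψ τ) (hΨ.smooth τ) (hΨ.compact τ) i y hr
    have hmi := hD.mass_pos (sp i)
    have e1 : ∫ x, cy y r (x i) ^ 2 * kin D sp i (Ψ τ) x = (1 / (2 * D.mass (sp i))) *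
        ∫ x : I → E3, cy y r (x i) ^ 2 * ∑ k : Fin 3,
          ‖fderiv ℝ (Ψ τ) x (Pi.single i (EuclideanSpace.single k (1 : ℝ)))‖ ^ 2 := by
      rw [← integral_const_mul]
      refine integral_congr_ae (Filter.Eventually.of_forall fun x => ?_)
      simp only [kin]
      ring
    obtain ⟨J, hJ⟩ : ∃ J : ℝ, J = ∫ x : I → E3, cy y r (x i) ^ 2 * ∑ k : Fin 3,
          ‖fderiv ℝ (Ψ τ) x (Pi.single i (EuclideanSpace.single k (1 : ℝ)))‖ ^ 2 := ⟨_, rfl⟩
    have hJ0 : 0 ≤ J := by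
      rw [hJ]
      exact integral_nonneg fun x => by positivity
    rw [← hJ] at h1 e1
    have h2 : 8 * J ≤ 16 * m * (∫ x, cy y r (x i) ^ 2 * kin D sp i (Ψ τ) x) := by
      rw [e1]
      have h3 : 8 * J = 16 * D.mass (sp i) * (1 / (2 * D.mass (sp i)) * J) := by
        field_simp
        ring
      rw [h3]
      refine mul_le_mul_of_nonneg_right ?_ (by positivity)
      linarith [hm (sp i)]
    linarith
  -- for each spin configuration
  have hτ : ∀ τ, ∫ x, near2 y x * ‖Ψ τ x‖ ^ 2 ≤ r⁻¹ ^ 2 * (∫ x, ‖Ψ τ x‖ ^ 2) +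
      (16 * m * (∫ x, ∑ j, cy y r (x j) ^ 2 * kin D sp j (Ψ τ) x) +
      24 * (C / r) ^ 2 * ∫ x, nb y (2 * r) x * ‖Ψ τ x‖ ^ 2) := by
    intro τ
    have h1 : ∫ x, near2 y x * ‖Ψ τ x‖ ^ 2 ≤ ∫ x, (r⁻¹ ^ 2 * ‖Ψ τ x‖ ^ 2 +
        ∑ i, cy y r (x i) ^ 2 * ‖x i - y‖⁻¹ ^ 2 * ‖Ψ τ x‖ ^ 2) := by
      refine integral_mono (WI_near2 D sp ℓ y Ψ hΨ τ)
        (((hN τ).const_mul _).add (integrable_finsetSum _ fun i _ => hA τ i)) fun x => ?_
      have h2 := mul_le_mul_of_nonneg_right (hn_near2 y hr x) (sq_nonneg ‖Ψ τ x‖)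
      rw [add_mul, Finset.sum_mul] at h2
      exact h2
    refine h1.trans ?_
    rw [integral_add ((hN τ).const_mul _) (integrable_finsetSum _ fun i _ => hA τ i),
      integral_const_mul, integral_finsetSum _ fun i _ => hA τ i,
      integral_finsetSum _ fun i _ => hB τ i]
    have e2 : ∫ x, nb y (2 * r) x * ‖Ψ τ x‖ ^ 2 =
        ∑ i, ∫ x : I → E3, (if ‖x i - y‖ ≤ 2 * r then (1 : ℝ) else 0) * ‖Ψ τ x‖ ^ 2 := by
      rw [← integral_finsetSum _ fun i _ => hE τ i]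
      refine integral_congr_ae (Filter.Eventually.of_forall fun x => ?_)
      simp only [nb]
      rw [Finset.sum_mul]
    rw [e2, Finset.mul_sum, Finset.mul_sum, ← Finset.sum_add_distrib]
    exact add_le_add le_rfl (Finset.sum_le_sum fun i _ => hone τ i)
  have htot := Finset.sum_le_sum fun τ (_ : τ ∈ (Finset.univ : Finset (I → Fin D.g))) => hτ τ
  rw [Finset.sum_add_distrib, Finset.sum_add_distrib, ← Finset.mul_sum, ← Finset.mul_sum,
    ← Finset.mul_sum] at htot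
  have n1 : 0 ≤ nrm2 D Ψ := by
    unfold nrm2
    exact Finset.sum_nonneg fun τ _ => integral_nonneg fun x => sq_nonneg _
  have n2 : 0 ≤ wm D (nb y (2 * r)) Ψ := by
    unfold wm
    refine Finset.sum_nonneg fun τ _ => integral_nonneg fun x => mul_nonneg ?_ (sq_nonneg _)
    unfold nb
    refine Finset.sum_nonneg fun i _ => ?_
    split_ifs <;> norm_num
  have n3 : 0 ≤ klc D sp y r Ψ := by
    unfold klc
    refine Finset.sum_nonneg fun τ _ => integral_nonneg fun x =>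
      Finset.sum_nonneg fun j _ => mul_nonneg (sq_nonneg _) ?_
    unfold kin
    have := hD.mass_pos (sp j)
    positivity
  have key : wm D (near2 y) Ψ ≤ r⁻¹ ^ 2 * nrm2 D Ψ + (16 * m * klc D sp y r Ψ +
      24 * (C / r) ^ 2 * wm D (nb y (2 * r)) Ψ) := htot
  have hr2 : 1 ≤ r⁻¹ ^ 2 := by
    have : 1 ≤ r⁻¹ := (one_le_inv₀ hr).2 hr1
    nlinarith
  have e3 : (1 + 16 * m + 24 * C ^ 2) / r ^ 2 = r⁻¹ ^ 2 + r⁻¹ ^ 2 * (16 * m) +
      24 * (C / r) ^ 2 := by
    field_simp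
  rw [e3]
  have p1 : 0 ≤ 24 * (C / r) ^ 2 := by positivity
  have p2 : 0 ≤ r⁻¹ ^ 2 * (16 * m) := by positivity
  have p3 : 16 * m ≤ r⁻¹ ^ 2 * (16 * m) := by nlinarith
  have q1 : 16 * m * klc D sp y r Ψ ≤ r⁻¹ ^ 2 * (16 * m) * klc D sp y r Ψ :=
    mul_le_mul_of_nonneg_right p3 n3
  have p0 : 0 ≤ r⁻¹ ^ 2 := by positivity
  have a1 := mul_nonneg p0 n2
  have a2 := mul_nonneg p0 n3
  have a3 := mul_nonneg p2 n1
  have a4 := mul_nonneg p2 n2
  have a5 := mul_nonneg p1 n1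
  have a6 := mul_nonneg p1 n3
  nlinarith

end Pool.Agent.Helper780_CP.RHN
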