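import Pool.Agent.Helper780_CP.LLDefs2

set_option autoImplicit false

open MeasureTheory

namespace Pool.Agent.Helper780_CP.RDEC

open Pool.Agent.Helper780_CP
open Pool.Agent.Helper985.CP

open Pool.Agent.Helper985.CP

lemma st_lip : ∃ M : ℝ, 0 < M ∧ ∀ s t : ℝ,
    |Real.smoothTransition s - Real.smoothTransition t| ≤ M * |s - t| := by
  have hC : ContDiff ℝ 1 Real.smoothTransition := Real.smoothTransition.contDiff
  have hcont : Continuous (deriv Real.smoothTransition) := hC.continuous_deriv le_rfl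
  have hdiff : Differentiable ℝ Real.smoothTransition := hC.differentiable (by norm_num)
  obtain ⟨M, hM⟩ := (isCompact_Icc (a := (0 : ℝ)) (b := 1)).exists_bound_of_continuousOn hcont.continuousOn
  refine ⟨max M 1, lt_of_lt_of_le one_pos (le_max_right _ _), fun s t => ?_⟩
  have hproj : ∀ u : ℝ, Real.smoothTransition (max 0 (min u 1)) = Real.smoothTransition u := by
    intro u
    rcases le_total u 0 with h | h
    · rw [min_eq_left (h.trans zero_le_one), max_eq_left h, Real.smoothTransition.zero,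
        Real.smoothTransition.zero_of_nonpos h]
    · rcases le_total u 1 with h1 | h1
      · rw [min_eq_left h1, max_eq_right h]
      · rw [min_eq_right h1, max_eq_right zero_le_one, Real.smoothTransition.one,
          Real.smoothTransition.one_of_one_le h1]
  have hmem : ∀ u : ℝ, max 0 (min u 1) ∈ Set.Icc (0 : ℝ) 1 := fun u =>
    ⟨le_max_left _ _, max_le zero_le_one (min_le_right _ _)⟩
  have h1 := (convex_Icc (0 : ℝ) 1).norm_image_sub_le_of_norm_deriv_le
    (f := Real.smoothTransition) (C := M) (fun x _ => hdiff x) hM (hmem t) (hmem s)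
  rw [hproj, hproj, Real.norm_eq_abs, Real.norm_eq_abs] at h1
  have h2 : |max 0 (min s 1) - max 0 (min t 1)| ≤ |s - t| := by
    have h3 := abs_max_sub_max_le_abs (min s 1) (min t 1) 0
    have h4 := abs_min_sub_min_le_max s 1 t 1
    rw [sub_self, abs_zero, max_eq_left (abs_nonneg _)] at h4
    rw [max_comm 0 (min s 1), max_comm 0 (min t 1)]
    exact h3.trans h4
  calc |Real.smoothTransition s - Real.smoothTransition t| ≤ M * |max 0 (min s 1) - max 0 (min t 1)| := h1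
    _ ≤ max M 1 * |max 0 (min s 1) - max 0 (min t 1)| :=
        mul_le_mul_of_nonneg_right (le_max_left _ _) (abs_nonneg _)
    _ ≤ max M 1 * |s - t| := mul_le_mul_of_nonneg_left h2 (le_trans zero_le_one (le_max_right _ _))

lemma ct_min (w : E3) : ct w = Real.smoothTransition ((4 - (min ‖w‖ 2) ^ 2) / 3) := by
  unfold ct
  rcases le_total ‖w‖ 2 with h | h
  · rw [min_eq_left h]
  · rw [min_eq_right h, Real.smoothTransition.zero_of_nonpos, Real.smoothTransition.zero_of_nonpos]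
    · norm_num
    · nlinarith

lemma ct_lip : ∃ M : ℝ, 0 < M ∧ ∀ w w' : E3, |ct w - ct w'| ≤ M * ‖w - w'‖ := by
  obtain ⟨M, hM, h⟩ := st_lip
  refine ⟨M * (4 / 3), by positivity, fun w w' => ?_⟩
  rw [ct_min, ct_min]
  refine (h _ _).trans ?_
  rw [mul_assoc]
  refine mul_le_mul_of_nonneg_left ?_ hM.le
  have h4 := abs_min_sub_min_le_max ‖w‖ 2 ‖w'‖ 2
  rw [sub_self, abs_zero, max_eq_left (abs_nonneg _)] at h4
  have h5 : |min ‖w‖ 2 - min ‖w'‖ 2| ≤ ‖w - w'‖ := h4.trans (abs_norm_sub_norm_le w w')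
  have h6 : (4 - (min ‖w‖ 2) ^ 2) / 3 - (4 - (min ‖w'‖ 2) ^ 2) / 3 =
      -((min ‖w‖ 2 - min ‖w'‖ 2) * ((min ‖w‖ 2 + min ‖w'‖ 2) / 3)) := by ring
  have h7 : 0 ≤ min ‖w‖ 2 := le_min (norm_nonneg _) (by norm_num)
  have h8 : 0 ≤ min ‖w'‖ 2 := le_min (norm_nonneg _) (by norm_num)
  have h9 : min ‖w‖ 2 ≤ 2 := min_le_right _ _
  have h10 : min ‖w'‖ 2 ≤ 2 := min_le_right _ _
  rw [h6, abs_neg, abs_mul, abs_of_nonneg (by positivity : 0 ≤ (min ‖w‖ 2 + min ‖w'‖ 2) / 3)]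
  calc |min ‖w‖ 2 - min ‖w'‖ 2| * ((min ‖w‖ 2 + min ‖w'‖ 2) / 3) ≤ ‖w - w'‖ * (4 / 3) := by
        refine mul_le_mul h5 (by linarith) (by positivity) (norm_nonneg _)
    _ = _ := by ring

lemma cy_lip : ∃ M : ℝ, 0 < M ∧ ∀ (y : E3) (r : ℝ), 0 < r → ∀ x x' : E3,
    |cy y r x - cy y r x'| ≤ M / r * ‖x - x'‖ := by
  obtain ⟨M, hM, h⟩ := ct_lip
  refine ⟨M, hM, fun y r hr x x' => ?_⟩
  unfold cy
  refine (h _ _).trans (le_of_eq ?_)
  rw [← smul_sub, sub_sub_sub_cancel_right, norm_smul, norm_inv, Real.norm_of_nonneg hr.le]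
  field_simp

lemma cy_zero (y : E3) (r : ℝ) (hr : 0 < r) (x : E3) (h : 2 * r ≤ ‖x - y‖) : cy y r x = 0 := by
  unfold cy ct
  apply Real.smoothTransition.zero_of_nonpos
  rw [norm_smul, norm_inv, Real.norm_of_nonneg hr.le]
  have h1 : 2 ≤ r⁻¹ * ‖x - y‖ := by
    rw [inv_mul_eq_div, le_div_iff₀ hr]; exact h
  nlinarith

lemma cy_one (y : E3) (r : ℝ) (hr : 0 < r) (x : E3) (h : ‖x - y‖ ≤ r) : cy y r x = 1 := by
  unfold cy ct
  apply Real.smoothTransition.one_of_one_le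
  rw [norm_smul, norm_inv, Real.norm_of_nonneg hr.le]
  have h1 : r⁻¹ * ‖x - y‖ ≤ 1 := by
    rw [inv_mul_eq_div, div_le_iff₀ hr]; linarith
  have h2 : 0 ≤ r⁻¹ * ‖x - y‖ := by positivity
  nlinarith

lemma l_bound (l : E3 → ℝ) (hl : Continuous l) (hl1 : ∀ w, 1 ≤ ‖w‖ → l w = 1 / ‖w‖) :
    ∃ B : ℝ, 1 ≤ B ∧ ∀ w, |l w| ≤ B := by
  obtain ⟨B, hB⟩ := (isCompact_closedBall (0 : E3) 1).exists_bound_of_continuousOn hl.continuousOn
  refine ⟨max B 1, le_max_right _ _, fun w => ?_⟩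
  rcases le_total ‖w‖ 1 with h | h
  · exact (hB w (by simpa using h)).trans (le_max_left _ _)
  · rw [hl1 w h, abs_of_nonneg (by positivity)]
    refine le_trans ?_ (le_max_right _ _)
    rw [div_le_one (by linarith)]
    exact h

/-- the rescaled kernel -/
noncomputable def LK (l : E3 → ℝ) (k : ℕ) (w : E3) : ℝ := 2 ^ k * l ((2 : ℝ) ^ k • w)

lemma LK_out (l : E3 → ℝ) (hl1 : ∀ w, 1 ≤ ‖w‖ → l w = 1 / ‖w‖) (k : ℕ) (w : E3)
    (h : 1 ≤ 2 ^ k * ‖w‖) : LK l k w = 1 / ‖w‖ := by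
  unfold LK
  have h1 : ‖(2 : ℝ) ^ k • w‖ = 2 ^ k * ‖w‖ := by
    rw [norm_smul, norm_pow, Real.norm_of_nonneg (by norm_num : (0:ℝ) ≤ 2)]
  rw [hl1 _ (by rw [h1]; exact h), h1]
  have h2 : (0 : ℝ) < ‖w‖ := by
    rcases (norm_nonneg w).eq_or_lt with h3 | h3
    · rw [← h3, mul_zero] at h; linarith
    · exact h3
  field_simp

lemma LK_bd (l : E3 → ℝ) (B : ℝ) (hB : ∀ w, |l w| ≤ B) (k : ℕ) (w : E3) : |LK l k w| ≤ 2 ^ k * B := by
  unfold LK
  rw [abs_mul, abs_of_nonneg (by positivity : (0:ℝ) ≤ 2 ^ k)]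
  exact mul_le_mul_of_nonneg_left (hB _) (by positivity)

lemma LK_even (l : E3 → ℝ) (hl2 : ∀ w, l (-w) = l w) (k : ℕ) (w : E3) : LK l k (-w) = LK l k w := by
  unfold LK
  rw [smul_neg, hl2]

lemma psi_LK (l : E3 → ℝ) (k : ℕ) (w : E3) : psi l k w = LK l (k + 1) w - LK l k w := rfl

lemma pairsum {I : Type} [Fintype I] (c : I → ℝ) (x : I → E3) (X : E3 → ℝ) (κ : E3 → ℝ)
    (hκ : ∀ w, κ (-w) = κ w) :
    ∑ i, ∑ j, X (x i) * (X (x i) - X (x j)) * (c i * c j) * κ (x i - x j) =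
      ∑ i, ∑ j, c i * c j * ((X (x i) - X (x j)) ^ 2 / 2 * κ (x i - x j)) := by
  have h1 : ∑ i, ∑ j, X (x i) * (X (x i) - X (x j)) * (c i * c j) * κ (x i - x j) =
      ∑ i, ∑ j, X (x j) * (X (x j) - X (x i)) * (c j * c i) * κ (x i - x j) := by
    rw [Finset.sum_comm]
    refine Finset.sum_congr rfl (fun i _ => Finset.sum_congr rfl (fun j _ => ?_))
    rw [← hκ (x i - x j), neg_sub]
  have h2 : 2 * (∑ i, ∑ j, X (x i) * (X (x i) - X (x j)) * (c i * c j) * κ (x i - x j)) =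
      2 * ∑ i, ∑ j, c i * c j * ((X (x i) - X (x j)) ^ 2 / 2 * κ (x i - x j)) := by
    rw [two_mul]
    nth_rewrite 2 [h1]
    rw [← Finset.sum_add_distrib, Finset.mul_sum]
    refine Finset.sum_congr rfl (fun i _ => ?_)
    rw [← Finset.sum_add_distrib, Finset.mul_sum]
    refine Finset.sum_congr rfl (fun j _ => ?_)
    ring
  linarith

lemma pairbound {I : Type} [Fintype I] (x : I → E3) (y : E3) (R B : ℝ) (G : I → I → ℝ)
    (hG : ∀ i j, |G i j| ≤ B * ((if ‖x i - y‖ ≤ R then 1 else 0) * (if ‖x j - y‖ ≤ R then 1 else 0))) :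
    |∑ i, ∑ j, G i j| ≤ B * nb y R x ^ 2 := by
  have h1 : B * nb y R x ^ 2 = ∑ i, ∑ j, B *
      ((if ‖x i - y‖ ≤ R then (1 : ℝ) else 0) * (if ‖x j - y‖ ≤ R then 1 else 0)) := by
    unfold nb
    rw [sq, Finset.sum_mul_sum, Finset.mul_sum]
    refine Finset.sum_congr rfl (fun i _ => ?_)
    rw [Finset.mul_sum]
  rw [h1]
  refine (Finset.abs_sum_le_sum_abs _ _).trans (Finset.sum_le_sum (fun i _ => ?_))
  exact (Finset.abs_sum_le_sum_abs _ _).trans (Finset.sum_le_sum (fun j _ => hG i j))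

/-- if the cutoffs differ and the points are close, both points are in the larger ball -/
lemma both_in (y : E3) (r : ℝ) (hr : 0 < r) (u v : E3) (huv : ‖u - v‖ ≤ r)
    (hne : cy y r u ≠ cy y r v) : ‖u - y‖ ≤ 3 * r ∧ ‖v - y‖ ≤ 3 * r := by
  have h : ‖u - y‖ < 2 * r ∨ ‖v - y‖ < 2 * r := by
    by_contra hcon
    rw [not_or, not_lt, not_lt] at hcon
    exact hne (by rw [cy_zero y r hr u hcon.1, cy_zero y r hr v hcon.2])
  rcases h with h | h
  · refine ⟨by linarith, ?_⟩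
    have h1 : v - y = (u - y) - (u - v) := by abel
    rw [h1]
    have := norm_sub_le (u - y) (u - v)
    linarith
  · refine ⟨?_, by linarith⟩
    have h1 : u - y = (v - y) + (u - v) := by abel
    rw [h1]
    have := norm_add_le (v - y) (u - v)
    linarith

lemma geo (t : ℝ) (ht : 0 < t) (m : ℕ) :
    ∑ k ∈ Finset.range m, (if 1 / (2 : ℝ) ^ k < t then 1 / (2 : ℝ) ^ k else 0) ≤
      max 0 (2 * t - 2 * (1 / 2 ^ m)) := by
  induction m with
  | zero => simp
  | succ m ih =>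
    rw [Finset.sum_range_succ]
    have e : (1 : ℝ) / 2 ^ (m + 1) = (1 / 2 ^ m) / 2 := by rw [pow_succ]; field_simp
    rw [e]
    have hp : (0 : ℝ) < 1 / 2 ^ m := by positivity
    by_cases h : 1 / (2 : ℝ) ^ m < t
    · rw [if_pos h]
      rcases le_total 0 (2 * t - 2 * (1 / (2 : ℝ) ^ m)) with h1 | h1
      · rw [max_eq_right h1] at ih
        refine le_trans ?_ (le_max_right _ _)
        linarith
      · rw [max_eq_left h1] at ih
        refine le_trans ?_ (le_max_right _ _)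
        linarith
    · rw [if_neg h, add_zero]
      have h1 : 2 * t - 2 * (1 / (2 : ℝ) ^ m) ≤ 0 := by linarith [not_lt.1 h]
      rw [max_eq_left h1] at ih
      exact ih.trans (le_max_left _ _)

lemma nb_nonneg {I : Type} [Fintype I] (y : E3) (R : ℝ) (x : I → E3) : 0 ≤ nb y R x := by
  unfold nb
  exact Finset.sum_nonneg (fun i _ => by split_ifs <;> norm_num)

lemma nb_le_card {I : Type} [Fintype I] (y : E3) (R : ℝ) (x : I → E3) :
    nb y R x ≤ Fintype.card I := by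
  unfold nb
  calc ∑ i, (if ‖x i - y‖ ≤ R then (1 : ℝ) else 0) ≤ ∑ _i : I, (1 : ℝ) :=
        Finset.sum_le_sum (fun i _ => by split_ifs <;> norm_num)
    _ = _ := by simp

lemma nb_le_nT {I : Type} [Fintype I] (y : E3) (r : ℝ) (hr : 0 < r) (x : I → E3) :
    nb y (3 * r) x ≤ nT y r x := by
  unfold nb nT
  refine Finset.sum_le_sum (fun i _ => ?_)
  split_ifs with h
  · rw [cy_one y (6 * r) (by positivity) (x i) (by linarith)]; norm_num
  · positivity

/-- TARGET -/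
theorem dec (z : ℝ) (hz : 0 ≤ z) (l : E3 → ℝ) (hl : ContDiff ℝ SM l)
    (hl1 : ∀ w, 1 ≤ ‖w‖ → l w = 1 / ‖w‖) (hl2 : ∀ w, l (-w) = l w) :
    ∃ C : ℝ, 0 < C ∧ ∀ {I : Type} [Fintype I] [DecidableEq I] (c : I → ℝ) (x : I → E3),
      (∀ i, |c i| ≤ z) → (∀ i j, i ≠ j → x i ≠ x j) →
      ∀ (y : E3) (r : ℝ) (k0 k1 : ℕ), 0 < r → r ≤ 1 → 1 ≤ 2 ^ k0 * r → k0 ≤ k1 →
        1 + (Fintype.card I : ℝ) ≤ 2 ^ k1 * r ^ 2 →
        |(∑ i, cy y r (x i) ^ 2 * ∑ j, if i = j then 0 else c i * c j / ‖x i - x j‖) -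
          vl (cy y r) c x -
          (∑ i, ∑ j, cy y r (x i) * (cy y r (x i) - cy y r (x j)) * (c i * c j) *
            (2 ^ k0 * l ((2 : ℝ) ^ k0 • (x i - x j)))) -
          ∑ k ∈ Finset.Ico k0 k1, bt y r k x ^ 2 * ∑ i, ∑ j, c i * c j *
            ((cy y r (x i) - cy y r (x j)) ^ 2 / 2 * psi l k (x i - x j))| ≤
          C * nb y (3 * r) x := by
  obtain ⟨M, hM, hlip⟩ := cy_lip
  obtain ⟨B, hB1, hlB⟩ := l_bound l hl.continuous hl1
  set Q : ℝ := 2 * z ^ 2 * M ^ 2 * B with hQ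
  have hB0 : 0 < B := by linarith
  have hQ0 : 0 ≤ Q := by positivity
  refine ⟨5 * Q + 1, by linarith, ?_⟩
  intro I _ _ c x hc hx y r k0 k1 hr hr1 hk0 hk01 hcard
  set X : E3 → ℝ := cy y r with hX
  set n : ℝ := nb y (3 * r) x with hn
  have hn0 : 0 ≤ n := nb_nonneg _ _ _
  -- the pieces
  set W : ℕ → ℝ := fun k => ∑ i, ∑ j, c i * c j * ((X (x i) - X (x j)) ^ 2 / 2 * LK l k (x i - x j)) with hW
  set A : ℝ := ∑ i, ∑ j, c i * c j * ((X (x i) - X (x j)) ^ 2 / 2 * (1 / ‖x i - x j‖)) with hA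
  set E : ℕ → ℝ := fun k => ∑ i, ∑ j, c i * c j * ((X (x i) - X (x j)) ^ 2 / 2 * psi l k (x i - x j)) with hE
  have hEW : ∀ k, E k = W (k + 1) - W k := by
    intro k
    simp only [hE, hW]
    rw [← Finset.sum_sub_distrib]
    refine Finset.sum_congr rfl (fun i _ => ?_)
    rw [← Finset.sum_sub_distrib]
    refine Finset.sum_congr rfl (fun j _ => ?_)
    rw [psi_LK]; ring
  have hsumE : ∑ k ∈ Finset.Ico k0 k1, E k = W k1 - W k0 := by
    rw [Finset.sum_congr rfl (fun k _ => hEW k)]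
    exact Finset.sum_Ico_sub W hk01
  have hfirst : (∑ i, X (x i) ^ 2 * ∑ j, if i = j then 0 else c i * c j / ‖x i - x j‖) - vl X c x = A := by
    rw [hA, ← pairsum c x X (fun w => 1 / ‖w‖) (fun w => by rw [norm_neg])]
    unfold vl
    rw [← Finset.sum_sub_distrib]
    refine Finset.sum_congr rfl (fun i _ => ?_)
    rw [Finset.mul_sum, ← Finset.sum_sub_distrib]
    refine Finset.sum_congr rfl (fun j _ => ?_)
    split_ifs with h
    · subst h; simp
    · ring
  have hthird : (∑ i, ∑ j, X (x i) * (X (x i) - X (x j)) * (c i * c j) *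
      (2 ^ k0 * l ((2 : ℝ) ^ k0 • (x i - x j)))) = W k0 :=
    pairsum c x X (LK l k0) (LK_even l hl2 k0)
  have hmain : (∑ i, X (x i) ^ 2 * ∑ j, if i = j then 0 else c i * c j / ‖x i - x j‖) - vl X c x -
      (∑ i, ∑ j, X (x i) * (X (x i) - X (x j)) * (c i * c j) *
      (2 ^ k0 * l ((2 : ℝ) ^ k0 • (x i - x j)))) - ∑ k ∈ Finset.Ico k0 k1, bt y r k x ^ 2 * E k =
      (A - W k1) + ∑ k ∈ Finset.Ico k0 k1, (1 - bt y r k x ^ 2) * E k := by
    rw [hfirst, hthird]
    have : ∑ k ∈ Finset.Ico k0 k1, (1 - bt y r k x ^ 2) * E k =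
        (∑ k ∈ Finset.Ico k0 k1, E k) - ∑ k ∈ Finset.Ico k0 k1, bt y r k x ^ 2 * E k := by
      rw [← Finset.sum_sub_distrib]
      exact Finset.sum_congr rfl (fun k _ => by ring)
    rw [this, hsumE]
    ring
  have hcc : ∀ i j, |c i * c j| ≤ z ^ 2 := by
    intro i j
    rw [abs_mul, sq]
    exact mul_le_mul (hc i) (hc j) (abs_nonneg _) hz
  have hXX : ∀ i j, (X (x i) - X (x j)) ^ 2 ≤ (M / r) ^ 2 * ‖x i - x j‖ ^ 2 := by
    intro i j
    rw [← mul_pow, ← sq_abs]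
    exact pow_le_pow_left₀ (abs_nonneg _) (hlip y r hr _ _) 2
  -- general pair estimate
  have hgen : ∀ (κ : E3 → ℝ) (k : ℕ) (b : ℝ), k0 ≤ k → (∀ w, 1 ≤ 2 ^ k * ‖w‖ → κ w = 0) →
      (∀ i j, i ≠ j → 2 ^ k * ‖x i - x j‖ < 1 → ‖x i - x j‖ ^ 2 * |κ (x i - x j)| ≤ b) → 0 ≤ b →
      |∑ i, ∑ j, c i * c j * ((X (x i) - X (x j)) ^ 2 / 2 * κ (x i - x j))| ≤
        (z ^ 2 * ((M / r) ^ 2 / 2) * b) * n ^ 2 := by
    intro κ k b hk hκ0 hκ hb
    refine pairbound x y (3 * r) _ _ (fun i j => ?_)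
    by_cases hXe : X (x i) = X (x j)
    · rw [hXe, sub_self]
      have : c i * c j * ((0 : ℝ) ^ 2 / 2 * κ (x i - x j)) = 0 := by ring
      rw [this, abs_zero]
      exact mul_nonneg (by positivity) (mul_nonneg (by split_ifs <;> norm_num) (by split_ifs <;> norm_num))
    · have hij : i ≠ j := fun h => hXe (by rw [h])
      by_cases hd : 1 ≤ 2 ^ k * ‖x i - x j‖
      · rw [hκ0 _ hd, mul_zero, mul_zero, abs_zero]
        exact mul_nonneg (by positivity) (mul_nonneg (by split_ifs <;> norm_num) (by split_ifs <;> norm_num))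
      · rw [not_le] at hd
        have hdr : ‖x i - x j‖ ≤ r := by
          have h2 : (2 : ℝ) ^ k0 ≤ 2 ^ k := pow_le_pow_right₀ (by norm_num) hk
          have h3 : (2 : ℝ) ^ k0 * ‖x i - x j‖ ≤ 2 ^ k * ‖x i - x j‖ :=
            mul_le_mul_of_nonneg_right h2 (norm_nonneg _)
          have h4 : (2 : ℝ) ^ k0 * ‖x i - x j‖ ≤ 2 ^ k0 * r := by linarith
          exact le_of_mul_le_mul_left h4 (by positivity)
        obtain ⟨h1, h2⟩ := both_in y r hr _ _ hdr hXe
        rw [if_pos h1, if_pos h2, mul_one, mul_one, abs_mul (c i * c j),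
          abs_mul ((X (x i) - X (x j)) ^ 2 / 2),
          abs_of_nonneg (by positivity : 0 ≤ (X (x i) - X (x j)) ^ 2 / 2)]
        calc |c i * c j| * ((X (x i) - X (x j)) ^ 2 / 2 * |κ (x i - x j)|)
            ≤ z ^ 2 * (((M / r) ^ 2 * ‖x i - x j‖ ^ 2) / 2 * |κ (x i - x j)|) := by
              refine mul_le_mul (hcc i j) ?_ (by positivity) (by positivity)
              refine mul_le_mul_of_nonneg_right ?_ (abs_nonneg _)
              linarith [hXX i j]
          _ = z ^ 2 * ((M / r) ^ 2 / 2) * (‖x i - x j‖ ^ 2 * |κ (x i - x j)|) := by ring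
          _ ≤ _ := mul_le_mul_of_nonneg_left (hκ i j hij hd) (by positivity)
  -- the scales
  have hEk : ∀ k, k0 ≤ k → |E k| ≤ Q / r ^ 2 * (1 / 2 ^ k) * n ^ 2 := by
    intro k hk
    have h1 := hgen (psi l k) k (3 * B * (1 / 2 ^ k)) hk (by
      intro w hw
      rw [psi_LK, LK_out l hl1 k w hw, LK_out l hl1 (k + 1) w, sub_self]
      rw [pow_succ]
      linarith) (by
      intro i j _ hd
      have h2 : |psi l k (x i - x j)| ≤ 3 * B * 2 ^ k := by
        rw [psi_LK]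
        have h3 := LK_bd l B hlB (k + 1) (x i - x j)
        have h4 := LK_bd l B hlB k (x i - x j)
        rw [pow_succ] at h3
        calc _ ≤ |LK l (k + 1) (x i - x j)| + |LK l k (x i - x j)| := abs_sub _ _
          _ ≤ _ := by linarith
      have h5 : (2 ^ k * ‖x i - x j‖) ^ 2 ≤ 1 := by
        have h6 : 0 ≤ 2 ^ k * ‖x i - x j‖ := by positivity
        nlinarith
      calc ‖x i - x j‖ ^ 2 * |psi l k (x i - x j)| ≤ ‖x i - x j‖ ^ 2 * (3 * B * 2 ^ k) :=
            mul_le_mul_of_nonneg_left h2 (by positivity)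
        _ = 3 * B * (1 / 2 ^ k) * (2 ^ k * ‖x i - x j‖) ^ 2 := by field_simp
        _ ≤ 3 * B * (1 / 2 ^ k) * 1 := mul_le_mul_of_nonneg_left h5 (by positivity)
        _ = _ := mul_one _) (by positivity)
    refine h1.trans ?_
    refine mul_le_mul_of_nonneg_right ?_ (by positivity)
    have h2 : z ^ 2 * ((M / r) ^ 2 / 2) * (3 * B * (1 / 2 ^ k)) =
        (3 / 4) * (Q / r ^ 2 * (1 / 2 ^ k)) := by
      rw [hQ]; field_simp; ring
    rw [h2]
    have h3 : 0 ≤ Q / r ^ 2 * (1 / 2 ^ k) := by positivity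
    linarith
  -- the remainder
  have hR : |A - W k1| ≤ Q / r ^ 2 * (1 / 2 ^ k1) * n ^ 2 := by
    have h1 := hgen (fun w => 1 / ‖w‖ - LK l k1 w) k1 ((1 + B) * (1 / 2 ^ k1)) hk01 (by
      intro w hw
      show 1 / ‖w‖ - LK l k1 w = 0
      rw [LK_out l hl1 k1 w hw, sub_self]) (by
      intro i j hij hd
      show ‖x i - x j‖ ^ 2 * |1 / ‖x i - x j‖ - LK l k1 (x i - x j)| ≤ _
      have hd0 : 0 < ‖x i - x j‖ := norm_pos_iff.2 (sub_ne_zero.2 (hx i j hij))
      have h3 := LK_bd l B hlB k1 (x i - x j)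
      have h4 : |1 / ‖x i - x j‖ - LK l k1 (x i - x j)| ≤ 1 / ‖x i - x j‖ + 2 ^ k1 * B := by
        calc _ ≤ |1 / ‖x i - x j‖| + |LK l k1 (x i - x j)| := abs_sub _ _
          _ ≤ _ := by rw [abs_of_nonneg (by positivity : 0 ≤ 1 / ‖x i - x j‖)]; linarith
      have hp : (0 : ℝ) < 2 ^ k1 := by positivity
      have h6 : ‖x i - x j‖ ≤ 1 / 2 ^ k1 := by
        rw [le_div_iff₀ hp]; linarith
      calc ‖x i - x j‖ ^ 2 * |1 / ‖x i - x j‖ - LK l k1 (x i - x j)|
          ≤ ‖x i - x j‖ ^ 2 * (1 / ‖x i - x j‖ + 2 ^ k1 * B) := mul_le_mul_of_nonneg_left h4 (by positivity)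
        _ = ‖x i - x j‖ * (1 + (2 ^ k1 * ‖x i - x j‖) * B) := by field_simp
        _ ≤ (1 / 2 ^ k1) * (1 + 1 * B) := by
            refine mul_le_mul h6 ?_ (by positivity) (by positivity)
            have := mul_le_mul_of_nonneg_right hd.le hB0.le
            linarith
        _ = _ := by ring) (by positivity)
    have h2 : ∑ i, ∑ j, c i * c j * ((X (x i) - X (x j)) ^ 2 / 2 *
        (fun w => 1 / ‖w‖ - LK l k1 w) (x i - x j)) = A - W k1 := by
      rw [hA, hW, ← Finset.sum_sub_distrib]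
      refine Finset.sum_congr rfl (fun i _ => ?_)
      rw [← Finset.sum_sub_distrib]
      refine Finset.sum_congr rfl (fun j _ => ?_)
      simp only
      ring
    rw [h2] at h1
    refine h1.trans ?_
    refine mul_le_mul_of_nonneg_right ?_ (by positivity)
    have h3 : z ^ 2 * ((M / r) ^ 2 / 2) * ((1 + B) * (1 / 2 ^ k1)) =
        (z ^ 2 * (M / r) ^ 2 / 2 * (1 / 2 ^ k1)) * (1 + B) := by ring
    have h4 : Q / r ^ 2 * (1 / 2 ^ k1) = (z ^ 2 * (M / r) ^ 2 / 2 * (1 / 2 ^ k1)) * (4 * B) := by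
      rw [hQ]; field_simp; ring
    rw [h3, h4]
    exact mul_le_mul_of_nonneg_left (by linarith) (by positivity)
  -- bounds by `n`
  have hr2 : 0 < r ^ 2 := by positivity
  have hRn : |A - W k1| ≤ Q * n := by
    refine hR.trans ?_
    have hp : (0 : ℝ) < 2 ^ k1 := by positivity
    have h1 : n ≤ 2 ^ k1 * r ^ 2 := by
      have := nb_le_card y (3 * r) x
      linarith
    calc Q / r ^ 2 * (1 / 2 ^ k1) * n ^ 2 = (Q * n) * (n / (2 ^ k1 * r ^ 2)) := by field_simp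
      _ ≤ (Q * n) * 1 := by
          refine mul_le_mul_of_nonneg_left ?_ (by positivity)
          rw [div_le_one (by positivity)]; exact h1
      _ = _ := mul_one _
  have hnT : n ≤ nT y r x := nb_le_nT y r hr x
  have hnT0 : 0 < 1 + nT y r x := by linarith
  have hbt0 : ∀ k, 0 ≤ bt y r k x := fun k => Real.smoothTransition.nonneg _
  have hbt1 : ∀ k, bt y r k x ≤ 1 := fun k => Real.smoothTransition.le_one _
  have hsum : |∑ k ∈ Finset.Ico k0 k1, (1 - bt y r k x ^ 2) * E k| ≤ 4 * Q * n := by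
    set t : ℝ := 2 * r ^ 2 / (1 + nT y r x) with ht
    have ht0 : 0 < t := by positivity
    have h1 : ∀ k ∈ Finset.Ico k0 k1, |(1 - bt y r k x ^ 2) * E k| ≤
        Q / r ^ 2 * n ^ 2 * (if 1 / (2 : ℝ) ^ k < t then 1 / (2 : ℝ) ^ k else 0) := by
      intro k hk
      rw [Finset.mem_Ico] at hk
      have hb := hbt0 k
      have hb' := hbt1 k
      have h2 : 0 ≤ 1 - bt y r k x ^ 2 := by nlinarith
      have h3 : 1 - bt y r k x ^ 2 ≤ 1 := by nlinarith
      split_ifs with hlt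
      · rw [abs_mul, abs_of_nonneg h2]
        calc (1 - bt y r k x ^ 2) * |E k| ≤ 1 * |E k| := mul_le_mul_of_nonneg_right h3 (abs_nonneg _)
          _ ≤ Q / r ^ 2 * (1 / 2 ^ k) * n ^ 2 := by rw [one_mul]; exact hEk k hk.1
          _ = _ := by ring
      · have h4 : bt y r k x = 1 := by
          unfold bt
          apply Real.smoothTransition.one_of_one_le
          have h5 := not_lt.1 hlt
          rw [ht, div_le_div_iff₀ hnT0 (by positivity)] at h5
          have h6 : 2 ≤ (1 + nT y r x) / (2 ^ k * r ^ 2) := by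
            rw [le_div_iff₀ (by positivity)]
            linarith
          linarith
        rw [h4]
        simp
    calc |∑ k ∈ Finset.Ico k0 k1, (1 - bt y r k x ^ 2) * E k|
        ≤ ∑ k ∈ Finset.Ico k0 k1, Q / r ^ 2 * n ^ 2 * (if 1 / (2 : ℝ) ^ k < t then 1 / (2 : ℝ) ^ k else 0) :=
          (Finset.abs_sum_le_sum_abs _ _).trans (Finset.sum_le_sum h1)
      _ = Q / r ^ 2 * n ^ 2 * ∑ k ∈ Finset.Ico k0 k1, (if 1 / (2 : ℝ) ^ k < t then 1 / (2 : ℝ) ^ k else 0) := by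
          rw [Finset.mul_sum]
      _ ≤ Q / r ^ 2 * n ^ 2 * (2 * t) := by
          refine mul_le_mul_of_nonneg_left ?_ (by positivity)
          have h2 : ∑ k ∈ Finset.Ico k0 k1, (if 1 / (2 : ℝ) ^ k < t then 1 / (2 : ℝ) ^ k else 0) ≤
              ∑ k ∈ Finset.range k1, (if 1 / (2 : ℝ) ^ k < t then 1 / (2 : ℝ) ^ k else 0) := by
            refine Finset.sum_le_sum_of_subset_of_nonneg ?_ (fun k _ _ => ?_)
            · intro k hk
              rw [Finset.mem_Ico] at hk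
              exact Finset.mem_range.2 hk.2
            · split_ifs
              · positivity
              · exact le_rfl
          refine h2.trans ((geo t ht0 k1).trans ?_)
          refine max_le (by positivity) ?_
          have : (0 : ℝ) < 1 / 2 ^ k1 := by positivity
          linarith
      _ = 4 * Q * n * (n / (1 + nT y r x)) := by rw [ht]; field_simp; ring
      _ ≤ 4 * Q * n * 1 := by
          refine mul_le_mul_of_nonneg_left ?_ (by positivity)
          rw [div_le_one hnT0]; linarith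
      _ = _ := mul_one _
  rw [hmain]
  calc _ ≤ |A - W k1| + |∑ k ∈ Finset.Ico k0 k1, (1 - bt y r k x ^ 2) * E k| := abs_add_le _ _
    _ ≤ Q * n + 4 * Q * n := add_le_add hRn hsum
    _ ≤ _ := by nlinarith

end Pool.Agent.Helper780_CP.RDEC
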