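import Pool.Agent.Helper780_CP.LLDefs2
import Pool.Agent.Helper780_CP.RL0

set_option autoImplicit false

open MeasureTheory

namespace Pool.Agent.Helper780_CP.RL2b

open Pool.Agent.Helper780_CP
open Pool.Agent.Helper985.CP
open Pool.Agent.Helper780_CP.RL0 (mulW_stateS near_min)

open Pool.Agent.Helper985.CP

theorem loc_upper_ct_smooth : ContDiff ℝ SM ct := by
  unfold ct
  apply Real.smoothTransition.contDiff.comp
  apply ContDiff.div_const
  exact contDiff_const.sub (contDiff_norm_sq ℝ)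

theorem loc_upper_ct_zero (w : E3) (hw : 2 ≤ ‖w‖) : ct w = 0 := by
  unfold ct
  apply Real.smoothTransition.zero_of_nonpos
  nlinarith

theorem loc_upper_ct_cs : HasCompactSupport ct := by
  apply HasCompactSupport.intro (isCompact_closedBall (0 : E3) 2)
  intro x hx
  apply loc_upper_ct_zero
  rw [mem_closedBall_zero_iff, not_le] at hx
  exact hx.le

theorem loc_upper_ct_bd : ∃ K : ℝ, 0 ≤ K ∧ ∀ w, ‖fderiv ℝ ct w‖ ≤ K := by
  obtain ⟨K, hK⟩ := (loc_upper_ct_cs.fderiv (𝕜 := ℝ)).exists_bound_of_continuous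
    (loc_upper_ct_smooth.continuous_fderiv (by simp))
  exact ⟨K, (norm_nonneg _).trans (hK 0), hK⟩

theorem loc_upper_cy_smooth (y : E3) (r : ℝ) : ContDiff ℝ SM (cy y r) := by
  have h0 : ContDiff ℝ SM (fun x : E3 => x - y) := contDiff_id.sub contDiff_const
  have h : ContDiff ℝ SM (fun x : E3 => r⁻¹ • (x - y)) := h0.const_smul r⁻¹
  exact loc_upper_ct_smooth.comp h

theorem loc_upper_cy_le (y : E3) (r : ℝ) (x : E3) : cy y r x ^ 2 ≤ 1 := by
  have h0 : 0 ≤ cy y r x := Real.smoothTransition.nonneg _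
  have h1 : cy y r x ≤ 1 := Real.smoothTransition.le_one _
  nlinarith

theorem loc_upper_cy_fderiv (y : E3) {r : ℝ} (x v : E3) :
    fderiv ℝ (cy y r) x v = r⁻¹ * fderiv ℝ ct (r⁻¹ • (x - y)) v := by
  have h1 : HasFDerivAt ct (fderiv ℝ ct (r⁻¹ • (x - y))) (r⁻¹ • (x - y)) :=
    ((loc_upper_ct_smooth.differentiable (by simp)) _).hasFDerivAt
  have h2 : HasFDerivAt (fun x : E3 => r⁻¹ • (x - y)) (r⁻¹ • ContinuousLinearMap.id ℝ E3) x :=
    ((hasFDerivAt_id x).sub_const y).const_smul r⁻¹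
  have h3 := (h1.comp x h2).fderiv
  have h4 : fderiv ℝ (cy y r) x = fderiv ℝ (ct ∘ fun x : E3 => r⁻¹ • (x - y)) x := rfl
  rw [h4, h3]
  simp

theorem loc_upper_cy_far (y : E3) {r : ℝ} (hr : 0 < r) (x v : E3) (hx : 2 * r < ‖x - y‖) :
    fderiv ℝ (cy y r) x v = 0 := by
  have h : cy y r =ᶠ[nhds x] fun _ => 0 := by
    have ho : IsOpen {z : E3 | 2 * r < ‖z - y‖} :=
      isOpen_lt continuous_const (continuous_id.sub continuous_const).norm
    filter_upwards [ho.mem_nhds hx] with z hz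
    apply loc_upper_ct_zero
    rw [norm_smul, Real.norm_of_nonneg (by positivity), ← div_eq_inv_mul, le_div_iff₀ hr]
    have hz' : 2 * r < ‖z - y‖ := hz
    exact hz'.le
  rw [h.fderiv_eq]
  simp

/-- `∑ |∇χ(x_j)|²` -/
noncomputable def loc_upper_Q {I : Type} [Fintype I] (y : E3) (r : ℝ) (x : I → E3) : ℝ :=
  ∑ j, ∑ k : Fin 3, (fderiv ℝ (cy y r) (x j) (EuclideanSpace.single k (1 : ℝ))) ^ 2

theorem loc_upper_Q_le {K : ℝ} (hK0 : 0 ≤ K) (hK : ∀ w, ‖fderiv ℝ ct w‖ ≤ K) {I : Type}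
    [Fintype I] (y : E3) {r : ℝ} (hr : 0 < r) (x : I → E3) :
    loc_upper_Q y r x ≤ 3 * K ^ 2 / r ^ 2 * nb y (2 * r) x := by
  unfold loc_upper_Q nb
  rw [Finset.mul_sum]
  apply Finset.sum_le_sum
  intro j _
  split_ifs with h
  · rw [Fin.sum_univ_three]
    have hk : ∀ k : Fin 3, (fderiv ℝ (cy y r) (x j) (EuclideanSpace.single k (1 : ℝ))) ^ 2 ≤
        K ^ 2 / r ^ 2 := by
      intro k
      rw [loc_upper_cy_fderiv, mul_pow, inv_pow, ← div_eq_inv_mul]
      apply div_le_div_of_nonneg_right _ (by positivity)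
      rw [← sq_abs]
      apply pow_le_pow_left₀ (abs_nonneg _)
      have h1 := (fderiv ℝ ct (r⁻¹ • (x j - y))).le_opNorm (EuclideanSpace.single k (1 : ℝ))
      rw [EuclideanSpace.norm_single, norm_one, mul_one, Real.norm_eq_abs] at h1
      exact h1.trans (hK _)
    have e : 3 * K ^ 2 / r ^ 2 * 1 = K ^ 2 / r ^ 2 + K ^ 2 / r ^ 2 + K ^ 2 / r ^ 2 := by ring
    rw [e]
    exact add_le_add (add_le_add (hk 0) (hk 1)) (hk 2)
  · push Not at h
    rw [mul_zero]
    apply le_of_eq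
    apply Finset.sum_eq_zero
    intro k _
    rw [loc_upper_cy_far y hr _ _ h]
    simp

/-- the weight -/
noncomputable def loc_upper_g {I : Type} [Fintype I] (y : E3) (r : ℝ) (x : I → E3) : ℝ :=
  ∑ i, cy y r (x i) ^ 2

theorem loc_upper_g_nonneg {I : Type} [Fintype I] (y : E3) (r : ℝ) (x : I → E3) :
    0 ≤ loc_upper_g y r x := Finset.sum_nonneg fun _ _ => sq_nonneg _

theorem loc_upper_g_le {I : Type} [Fintype I] (y : E3) (r : ℝ) (x : I → E3) :
    loc_upper_g y r x ≤ Fintype.card I := by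
  unfold loc_upper_g
  calc ∑ i, cy y r (x i) ^ 2 ≤ ∑ _i : I, (1 : ℝ) :=
        Finset.sum_le_sum fun i _ => loc_upper_cy_le y r (x i)
    _ = Fintype.card I := by simp

theorem loc_upper_g_smooth {I : Type} [Fintype I] (y : E3) (r : ℝ) :
    ContDiff ℝ SM (loc_upper_g (I := I) y r) := by
  unfold loc_upper_g
  apply ContDiff.sum
  intro i _
  exact ((loc_upper_cy_smooth y r).comp (contDiff_apply ℝ E3 i)).pow 2

noncomputable def loc_upper_f {I : Type} [Fintype I] (y : E3) (r : ℝ) (x : I → E3) : ℝ :=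
  √(1 + loc_upper_g y r x)

theorem loc_upper_f_sq {I : Type} [Fintype I] (y : E3) (r : ℝ) (x : I → E3) :
    loc_upper_f y r x ^ 2 = 1 + loc_upper_g y r x :=
  Real.sq_sqrt (by linarith [loc_upper_g_nonneg y r x])

theorem loc_upper_f_smooth {I : Type} [Fintype I] (y : E3) (r : ℝ) :
    ContDiff ℝ SM (loc_upper_f (I := I) y r) := by
  unfold loc_upper_f
  apply ContDiff.sqrt
  · exact contDiff_const.add (loc_upper_g_smooth y r)
  · intro x
    have := loc_upper_g_nonneg y r x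
    positivity

theorem loc_upper_f_sy {S I : Type} [Fintype I] [DecidableEq I] (sp : I → S) (y : E3) (r : ℝ) :
    Sy sp (loc_upper_f (I := I) y r) := by
  intro i j x _
  unfold loc_upper_f loc_upper_g
  congr 2
  exact Equiv.sum_comp (Equiv.swap i j) fun k => cy y r (x k) ^ 2

/-- the derivative of `f` -/
theorem loc_upper_f_fderiv {I : Type} [Fintype I] [DecidableEq I] (y : E3) (r : ℝ) (x : I → E3)
    (j : I) (e : E3) :
    loc_upper_f y r x * fderiv ℝ (loc_upper_f y r) x (Pi.single j e) =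
      cy y r (x j) * fderiv ℝ (cy y r) (x j) e := by
  have hf : HasFDerivAt (loc_upper_f y r) (fderiv ℝ (loc_upper_f y r) x) x :=
    (((loc_upper_f_smooth y r).differentiable (by simp)) x).hasFDerivAt
  have h1 : HasFDerivAt (fun x => loc_upper_f y r x ^ 2)
      ((2 * loc_upper_f y r x ^ (2 - 1)) • fderiv ℝ (loc_upper_f y r) x) x := by
    have := hf.pow 2
    simpa using this
  have hc : ∀ i : I, HasFDerivAt (fun x : I → E3 => cy y r (x i) ^ 2)
      ((2 * cy y r (x i) ^ (2 - 1)) • ((fderiv ℝ (cy y r) (x i)).comp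
        (ContinuousLinearMap.proj (R := ℝ) (φ := fun _ : I => E3) i))) x := by
    intro i
    have a1 : HasFDerivAt (cy y r) (fderiv ℝ (cy y r) (x i)) (x i) :=
      (((loc_upper_cy_smooth y r).differentiable (by simp)) (x i)).hasFDerivAt
    have a2 : HasFDerivAt (fun x : I → E3 => x i)
        (ContinuousLinearMap.proj (R := ℝ) (φ := fun _ : I => E3) i) x :=
      hasFDerivAt_apply i x
    have a3 := (a1.comp x a2).pow 2
    simpa using a3
  have h2 : HasFDerivAt (fun x : I → E3 => 1 + ∑ i, cy y r (x i) ^ 2)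
      (∑ i, (2 * cy y r (x i) ^ (2 - 1)) • ((fderiv ℝ (cy y r) (x i)).comp
        (ContinuousLinearMap.proj (R := ℝ) (φ := fun _ : I => E3) i))) x := by
    have := (HasFDerivAt.fun_sum (u := Finset.univ) fun i _ => hc i).const_add 1
    exact this
  have he : (fun x : I → E3 => loc_upper_f y r x ^ 2) =
      fun x : I → E3 => 1 + ∑ i, cy y r (x i) ^ 2 := by
    funext z
    exact loc_upper_f_sq y r z
  rw [he] at h1
  have h3 := h1.unique h2
  have h4 := congrArg (fun L : (I → E3) →L[ℝ] ℝ => L (Pi.single j e)) h3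
  simp only [_root_.smul_apply, smul_eq_mul, ContinuousLinearMap.sum_apply,
    ContinuousLinearMap.comp_apply, ContinuousLinearMap.proj_apply] at h4
  rw [Finset.sum_eq_single j] at h4
  · rw [Pi.single_eq_same] at h4
    norm_num at h4
    linarith
  · intro i _ hi
    rw [Pi.single_eq_of_ne hi, map_zero, mul_zero]
  · intro h
    exact absurd (Finset.mem_univ j) h

theorem loc_upper_alg (f t χ p : ℝ) (a b : ℂ) (h : f * t = χ * p) :
    f ^ 2 * ‖a‖ ^ 2 - 1 / 2 * χ ^ 2 * ‖a‖ ^ 2 - 2 * p ^ 2 * ‖b‖ ^ 2 ≤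
      ‖((f : ℝ) : ℂ) * a + b * ((t : ℝ) : ℂ)‖ ^ 2 := by
  have e : ‖((f : ℝ) : ℂ) * a + b * ((t : ℝ) : ℂ)‖ ^ 2 =
      f ^ 2 * ‖a‖ ^ 2 + t ^ 2 * ‖b‖ ^ 2 + 2 * (χ * p) * (a.re * b.re + a.im * b.im) := by
    rw [← h, Complex.sq_norm, Complex.sq_norm, Complex.sq_norm]
    simp only [Complex.normSq_apply, Complex.add_re, Complex.add_im, Complex.mul_re,
      Complex.mul_im, Complex.ofReal_re, Complex.ofReal_im]
    ring
  rw [e, Complex.sq_norm, Complex.sq_norm, Complex.normSq_apply, Complex.normSq_apply]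
  nlinarith [sq_nonneg (χ * a.re + 2 * p * b.re), sq_nonneg (χ * a.im + 2 * p * b.im),
    mul_nonneg (sq_nonneg t) (add_nonneg (mul_self_nonneg b.re) (mul_self_nonneg b.im))]

theorem loc_upper_kin {S : Type} (D : Species S) (hD : D.Valid) {I : Type} [Fintype I]
    [DecidableEq I] (sp : I → S) (ℓ : ℝ) (Ψ : Wave D I) (hΨ : IsState D sp ℓ Ψ) (y : E3) (r : ℝ)
    (j : I) (τ : I → Fin D.g) (x : I → E3) :
    (1 + loc_upper_g y r x) * kin D sp j (Ψ τ) x - 1 / 2 * (cy y r (x j) ^ 2 *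
      kin D sp j (Ψ τ) x) - 2 * ((1 / (2 * D.mass (sp j))) * ∑ k : Fin 3,
        (fderiv ℝ (cy y r) (x j) (EuclideanSpace.single k (1 : ℝ))) ^ 2) * ‖Ψ τ x‖ ^ 2 ≤
      kin D sp j (mulW D (loc_upper_f y r) Ψ τ) x := by
  have hm := hD.mass_pos (sp j)
  unfold kin
  have hd : ∀ k : Fin 3, fderiv ℝ (mulW D (loc_upper_f y r) Ψ τ) x
      (Pi.single j (EuclideanSpace.single k (1 : ℝ))) =
      ((loc_upper_f y r x : ℝ) : ℂ) * fderiv ℝ (Ψ τ) x
        (Pi.single j (EuclideanSpace.single k (1 : ℝ))) +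
      Ψ τ x * ((fderiv ℝ (loc_upper_f y r) x (Pi.single j (EuclideanSpace.single k (1 : ℝ))) : ℝ)
        : ℂ) := by
    intro k
    have e1 : mulW D (loc_upper_f y r) Ψ τ = fun x => ((loc_upper_f y r x : ℝ) : ℂ) * Ψ τ x := rfl
    rw [e1, ims_deriv (loc_upper_f y r) (Ψ τ) x _ _
      (((loc_upper_f_smooth y r).differentiable (by simp)) x).hasFDerivAt
      (((hΨ.smooth τ).differentiable (by simp)) x)]
  simp only [hd]
  have hk : ∀ k : Fin 3, _ := fun k => loc_upper_alg (loc_upper_f y r x)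
    (fderiv ℝ (loc_upper_f y r) x (Pi.single j (EuclideanSpace.single k (1 : ℝ))))
    (cy y r (x j)) (fderiv ℝ (cy y r) (x j) (EuclideanSpace.single k (1 : ℝ)))
    (fderiv ℝ (Ψ τ) x (Pi.single j (EuclideanSpace.single k (1 : ℝ)))) (Ψ τ x)
    (loc_upper_f_fderiv y r x j _)
  simp only [loc_upper_f_sq] at hk
  have hs := Finset.sum_le_sum fun (k : Fin 3) (_ : k ∈ Finset.univ) => hk k
  have hs2 := mul_le_mul_of_nonneg_left hs (show 0 ≤ 1 / (2 * D.mass (sp j)) by positivity)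
  refine le_trans (le_of_eq ?_) hs2
  rw [Finset.sum_sub_distrib, Finset.sum_sub_distrib, ← Finset.mul_sum, ← Finset.mul_sum,
    ← Finset.sum_mul, ← Finset.mul_sum]
  ring

theorem loc_upper_kin_cont {S : Type} (D : Species S) {I : Type} [Fintype I]
    [DecidableEq I] (sp : I → S) (ℓ : ℝ) (Ψ : Wave D I) (hΨ : IsState D sp ℓ Ψ) (j : I)
    (τ : I → Fin D.g) : Continuous (kin D sp j (Ψ τ)) ∧ HasCompactSupport (kin D sp j (Ψ τ)) := by
  have hcd := hΨ.smooth τ
  have hcs := hΨ.compact τ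
  have hf : Continuous (fderiv ℝ (Ψ τ)) := hcd.continuous_fderiv (by simp [SM])
  have hfc : HasCompactSupport (fderiv ℝ (Ψ τ)) := hcs.fderiv (𝕜 := ℝ)
  constructor
  · unfold kin
    apply Continuous.mul continuous_const
    apply continuous_finsetSum
    intro k _
    exact ((hf.clm_apply continuous_const).norm).pow 2
  · apply hfc.mono
    intro x hx
    rw [Function.mem_support] at hx ⊢
    intro h0
    apply hx
    unfold kin
    rw [h0]
    simp

theorem loc_upper_kin_int {S : Type} (D : Species S) {I : Type} [Fintype I]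
    [DecidableEq I] (sp : I → S) (ℓ : ℝ) (Ψ : Wave D I) (hΨ : IsState D sp ℓ Ψ) (j : I)
    (τ : I → Fin D.g) (h : (I → E3) → ℝ) (hc : Continuous h) :
    Integrable (fun x => h x * kin D sp j (Ψ τ) x) := by
  obtain ⟨h1, h2⟩ := loc_upper_kin_cont D sp ℓ Ψ hΨ j τ
  exact (hc.mul h1).integrable_of_hasCompactSupport h2.mul_left

theorem loc_upper_WI_cont {S : Type} (D : Species S) {I : Type} [Fintype I]
    [DecidableEq I] (sp : I → S) (ℓ : ℝ) (h : (I → E3) → ℝ) (hc : Continuous h) :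
    WI D sp ℓ h := by
  intro Ψ hΨ τ
  have hsq : Continuous (fun x => ‖Ψ τ x‖ ^ 2) := ((hΨ.smooth τ).continuous.norm).pow 2
  have hsqc : HasCompactSupport (fun x => ‖Ψ τ x‖ ^ 2) :=
    (hΨ.compact τ).comp_left (g := fun z : ℂ => ‖z‖ ^ 2) (by simp)
  exact (hc.mul hsq).integrable_of_hasCompactSupport hsqc.mul_left

theorem loc_upper_WI_bdd {S : Type} (D : Species S) {I : Type} [Fintype I]
    [DecidableEq I] (sp : I → S) (ℓ : ℝ) (h W : (I → E3) → ℝ) (hc : Continuous h) (B : ℝ)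
    (hB : ∀ x, |h x| ≤ B) (hW : WI D sp ℓ W) : WI D sp ℓ (fun x => h x * W x) := by
  intro Ψ hΨ τ
  have := (hW Ψ hΨ τ).bdd_mul (c := B) hc.aestronglyMeasurable
    (Filter.Eventually.of_forall fun x => by rw [Real.norm_eq_abs]; exact hB x)
  refine this.congr (Filter.Eventually.of_forall fun x => ?_)
  simp only
  ring

theorem loc_upper_WI_nb {S : Type} (D : Species S) {I : Type} [Fintype I]
    [DecidableEq I] (sp : I → S) (ℓ : ℝ) (y : E3) (R : ℝ) : WI D sp ℓ (nb y R) := by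
  unfold nb
  apply WI_sum
  intro i _
  apply WI_one D sp ℓ i (fun z => if ‖z - y‖ ≤ R then 1 else 0)
  have h1 : (fun z : E3 => if ‖z - y‖ ≤ R then (1 : ℝ) else 0) =
      (Metric.closedBall y R).indicator (fun _ => (1 : ℝ)) := by
    funext z
    by_cases h : ‖z - y‖ ≤ R
    · rw [if_pos h, Set.indicator_of_mem]
      rw [mem_closedBall_iff_norm]; exact h
    · rw [if_neg h, Set.indicator_of_notMem]
      rw [mem_closedBall_iff_norm]; exact h
  rw [h1]
  exact (locallyIntegrable_const (1 : ℝ)).indicator Metric.isClosed_closedBall.measurableSet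

theorem loc_upper_Q_cont {I : Type} [Fintype I] (y : E3) (r : ℝ) :
    Continuous (loc_upper_Q (I := I) y r) := by
  unfold loc_upper_Q
  apply continuous_finsetSum
  intro j _
  apply continuous_finsetSum
  intro k _
  have h : Continuous (fderiv ℝ (cy y r)) :=
    (loc_upper_cy_smooth y r).continuous_fderiv (by simp)
  exact ((h.comp (continuous_apply j)).clm_apply continuous_const).pow 2

theorem loc_upper_gr_cont {I : Type} [Fintype I] [DecidableEq I] (y : E3) (r : ℝ) :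
    Continuous (gr (loc_upper_f (I := I) y r)) := by
  unfold gr
  apply continuous_finsetSum
  intro j _
  apply continuous_finsetSum
  intro k _
  have h : Continuous (fderiv ℝ (loc_upper_f (I := I) y r)) :=
    (loc_upper_f_smooth y r).continuous_fderiv (by simp)
  exact (h.clm_apply continuous_const).pow 2

theorem loc_upper_gr_le {I : Type} [Fintype I] [DecidableEq I] (y : E3) (r : ℝ) (x : I → E3) :
    gr (loc_upper_f y r) x ≤ loc_upper_Q y r x := by
  unfold gr loc_upper_Q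
  apply Finset.sum_le_sum
  intro j _
  apply Finset.sum_le_sum
  intro k _
  have h1 := loc_upper_f_fderiv y r x j (EuclideanSpace.single k (1 : ℝ))
  have h2 := loc_upper_f_sq y r x
  have h3 := loc_upper_g_nonneg y r x
  have h4 := loc_upper_cy_le y r (x j)
  set t := fderiv ℝ (loc_upper_f y r) x (Pi.single j (EuclideanSpace.single k (1 : ℝ)))
  set p := fderiv ℝ (cy y r) (x j) (EuclideanSpace.single k (1 : ℝ))
  set f := loc_upper_f y r x
  set χ := cy y r (x j)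
  have h5 : f ^ 2 * t ^ 2 = χ ^ 2 * p ^ 2 := by
    rw [← mul_pow, h1, mul_pow]
  have h6 : 1 * t ^ 2 ≤ f ^ 2 * t ^ 2 := mul_le_mul_of_nonneg_right (by linarith) (sq_nonneg _)
  have h7 : χ ^ 2 * p ^ 2 ≤ 1 * p ^ 2 := mul_le_mul_of_nonneg_right h4 (sq_nonneg _)
  linarith

/-- lower bound for the energy of `f Ψ` -/
theorem loc_upper_lower {S : Type} (D : Species S) (hD : D.Valid) {Cm : ℝ}
    (hCm : ∀ s, 1 / (2 * D.mass s) ≤ Cm) {I : Type} [Fintype I]
    [DecidableEq I] (sp : I → S) (ℓ : ℝ) (Ψ : Wave D I) (hΨ : IsState D sp ℓ Ψ) (y : E3) (r : ℝ) :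
    energy D sp Ψ + (∑ τ, ∫ x, ∑ j, loc_upper_g y r x * kin D sp j (Ψ τ) x) +
      wm D (fun x => loc_upper_g y r x * coul D sp x) Ψ - 1 / 2 * klc D sp y r Ψ -
      2 * Cm * wm D (loc_upper_Q y r) Ψ ≤ energy D sp (mulW D (loc_upper_f y r) Ψ) := by
  have hg : Continuous (loc_upper_g (I := I) y r) := (loc_upper_g_smooth y r).continuous
  have hgB : ∀ x : I → E3, |loc_upper_g y r x| ≤ Fintype.card I := fun x => by
    rw [abs_of_nonneg (loc_upper_g_nonneg y r x)]; exact loc_upper_g_le y r x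
  have hcy : ∀ j : I, Continuous (fun x : I → E3 => cy y r (x j) ^ 2) := fun j =>
    ((loc_upper_cy_smooth y r).continuous.comp (continuous_apply j)).pow 2
  have hS : IsState D sp ℓ (mulW D (loc_upper_f y r) Ψ) :=
    mulW_stateS D sp ℓ Ψ hΨ _ (loc_upper_f_smooth y r) (loc_upper_f_sy sp y r)
  unfold energy klc wm
  rw [Finset.mul_sum, Finset.mul_sum, ← Finset.sum_add_distrib, ← Finset.sum_add_distrib,
    ← Finset.sum_sub_distrib, ← Finset.sum_sub_distrib]
  apply Finset.sum_le_sum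
  intro τ _
  obtain ⟨-, h2, h3, -, -⟩ := int_state D sp ℓ Ψ hΨ τ
  obtain ⟨-, h2', h3', -, -⟩ := int_state D sp ℓ _ hS τ
  have i1 : Integrable (fun x => (∑ i, kin D sp i (Ψ τ) x) + coul D sp x * ‖Ψ τ x‖ ^ 2) :=
    (integrable_finsetSum _ fun j _ => h2 j).add h3
  have i1' : Integrable (fun x => (∑ i, kin D sp i (mulW D (loc_upper_f y r) Ψ τ) x) +
      coul D sp x * ‖mulW D (loc_upper_f y r) Ψ τ x‖ ^ 2) :=
    (integrable_finsetSum _ fun j _ => h2' j).add h3'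
  have i2 : Integrable (fun x => ∑ j, loc_upper_g y r x * kin D sp j (Ψ τ) x) :=
    integrable_finsetSum _ fun j _ => loc_upper_kin_int D sp ℓ Ψ hΨ j τ _ hg
  have i3 : Integrable (fun x => loc_upper_g y r x * coul D sp x * ‖Ψ τ x‖ ^ 2) :=
    loc_upper_WI_bdd D sp ℓ _ _ hg _ hgB (WI_coul D sp ℓ) Ψ hΨ τ
  have i4 : Integrable (fun x => ∑ j, cy y r (x j) ^ 2 * kin D sp j (Ψ τ) x) :=
    integrable_finsetSum _ fun j _ => loc_upper_kin_int D sp ℓ Ψ hΨ j τ _ (hcy j)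
  have i5 : Integrable (fun x => loc_upper_Q y r x * ‖Ψ τ x‖ ^ 2) :=
    loc_upper_WI_cont D sp ℓ _ (loc_upper_Q_cont y r) Ψ hΨ τ
  rw [← integral_const_mul, ← integral_const_mul]
  have j1 := integral_add i1 i2
  have j2 := integral_add (i1.add i2) i3
  have j3 := integral_sub ((i1.add i2).add i3) (i4.const_mul (1 / 2))
  have j4 := integral_sub (((i1.add i2).add i3).sub (i4.const_mul (1 / 2)))
    (i5.const_mul (2 * Cm))
  simp only [Pi.add_apply, Pi.sub_apply] at j1 j2 j3 j4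
  rw [← j1, ← j2, ← j3, ← j4]
  apply integral_mono ((((i1.add i2).add i3).sub (i4.const_mul (1 / 2))).sub
    (i5.const_mul (2 * Cm))) i1'
  intro x
  simp only [Pi.add_apply, Pi.sub_apply]
  rw [mulW_norm, loc_upper_f_sq]
  have hk : ∀ j, (1 + loc_upper_g y r x) * kin D sp j (Ψ τ) x - 1 / 2 * (cy y r (x j) ^ 2 *
      kin D sp j (Ψ τ) x) - 2 * Cm * (∑ k : Fin 3,
        (fderiv ℝ (cy y r) (x j) (EuclideanSpace.single k (1 : ℝ))) ^ 2) * ‖Ψ τ x‖ ^ 2 ≤
      kin D sp j (mulW D (loc_upper_f y r) Ψ τ) x := by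
    intro j
    refine le_trans ?_ (loc_upper_kin D hD sp ℓ Ψ hΨ y r j τ x)
    have h1 : (1 / (2 * D.mass (sp j))) * (∑ k : Fin 3,
        (fderiv ℝ (cy y r) (x j) (EuclideanSpace.single k (1 : ℝ))) ^ 2) * ‖Ψ τ x‖ ^ 2 ≤
        Cm * (∑ k : Fin 3,
        (fderiv ℝ (cy y r) (x j) (EuclideanSpace.single k (1 : ℝ))) ^ 2) * ‖Ψ τ x‖ ^ 2 := by
      have h0 : 0 ≤ ∑ k : Fin 3,
        (fderiv ℝ (cy y r) (x j) (EuclideanSpace.single k (1 : ℝ))) ^ 2 :=
        Finset.sum_nonneg fun _ _ => sq_nonneg _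
      apply mul_le_mul_of_nonneg_right _ (sq_nonneg _)
      exact mul_le_mul_of_nonneg_right (hCm _) h0
    linarith
  have hs := Finset.sum_le_sum fun (j : I) (_ : j ∈ Finset.univ) => hk j
  rw [Finset.sum_sub_distrib, Finset.sum_sub_distrib, ← Finset.mul_sum, ← Finset.mul_sum,
    ← Finset.sum_mul, ← Finset.mul_sum] at hs
  have hQ : loc_upper_Q y r x = ∑ j, ∑ k : Fin 3,
    (fderiv ℝ (cy y r) (x j) (EuclideanSpace.single k (1 : ℝ))) ^ 2 := rfl
  rw [← hQ] at hs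
  rw [← Finset.mul_sum]
  linarith

/-- TARGET -/
theorem loc_upper {S : Type} [Fintype S] (D : Species S) (hD : D.Valid) :
    ∃ C : ℝ, 0 < C ∧ ∀ {I : Type} [Fintype I] [DecidableEq I] (sp : I → S) (ℓ E η : ℝ), 0 ≤ η →
      (∀ Φ, IsState D sp ℓ Φ → E * nrm2 D Φ ≤ energy D sp Φ) →
      ∀ Ψ, IsState D sp ℓ Ψ → nrm2 D Ψ = 1 → energy D sp Ψ ≤ E + η →
      ∀ (y : E3) (r : ℝ), 0 < r → r ≤ 1 →
        (∑ τ, ∫ x, ∑ j, (∑ i, cy y r (x i) ^ 2) * kin D sp j (Ψ τ) x) +
          wm D (fun x => (∑ i, cy y r (x i) ^ 2) * coul D sp x) Ψ ≤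
        E * wm D (fun x => ∑ i, cy y r (x i) ^ 2) Ψ + 1 / 2 * klc D sp y r Ψ +
          C / r ^ 2 * wm D (nb y (2 * r)) Ψ + C * (1 + (Fintype.card I : ℝ)) * η := by
  classical
  obtain ⟨C', hC', HN⟩ := near_min D hD
  obtain ⟨K, hK0, hK⟩ := loc_upper_ct_bd
  obtain ⟨Cm, hCm0, hCm⟩ : ∃ Cm : ℝ, 0 ≤ Cm ∧ ∀ s, 1 / (2 * D.mass s) ≤ Cm := by
    refine ⟨∑ s, 1 / (2 * D.mass s), Finset.sum_nonneg fun s _ => ?_, fun s => ?_⟩
    · have := hD.mass_pos s
      positivity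
    · exact Finset.single_le_sum (f := fun s => 1 / (2 * D.mass s))
        (fun s _ => by have := hD.mass_pos s; positivity) (Finset.mem_univ s)
  refine ⟨C' + (C' + 2 * Cm) * (3 * K ^ 2), by positivity, ?_⟩
  intro I _ _ sp ℓ E η hη hE Ψ hΨ hn hmin y r hr hr1
  have hfB : ∀ x : I → E3, |loc_upper_f y r x| ≤ √(1 + Fintype.card I) := by
    intro x
    have h0 : 0 ≤ loc_upper_f y r x := Real.sqrt_nonneg _
    rw [abs_of_nonneg h0]
    exact Real.sqrt_le_sqrt (by linarith [loc_upper_g_le y r x])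
  have h1 := HN sp ℓ E η hη hE Ψ hΨ hn hmin (loc_upper_f y r) _ (loc_upper_f_smooth y r)
    (loc_upper_f_sy sp y r) hfB
  rw [Real.sq_sqrt (by positivity)] at h1
  have h2 := loc_upper_lower D hD hCm sp ℓ Ψ hΨ y r
  have h3 : E ≤ energy D sp Ψ := by
    have := hE Ψ hΨ
    rwa [hn, mul_one] at this
  have hg : Continuous (loc_upper_g (I := I) y r) := (loc_upper_g_smooth y r).continuous
  have WQ : WI D sp ℓ (loc_upper_Q y r) := loc_upper_WI_cont D sp ℓ _ (loc_upper_Q_cont y r)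
  have Wg : WI D sp ℓ (loc_upper_g y r) := loc_upper_WI_cont D sp ℓ _ hg
  have Wgr : WI D sp ℓ (gr (loc_upper_f y r)) :=
    loc_upper_WI_cont D sp ℓ _ (loc_upper_gr_cont y r)
  have h4 : nrm2 D (mulW D (loc_upper_f y r) Ψ) = 1 + wm D (loc_upper_g y r) Ψ := by
    have e1 : nrm2 D (mulW D (loc_upper_f y r) Ψ) = wm D (fun x => 1 + loc_upper_g y r x) Ψ := by
      unfold nrm2 wm
      simp only [mulW_norm, loc_upper_f_sq]
    rw [e1, wm_add D sp ℓ (WI_const D sp ℓ 1) Wg Ψ hΨ, wm_one, hn]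
  rw [h4] at h1
  have h5 : wm D (gr (loc_upper_f y r)) Ψ ≤ wm D (loc_upper_Q y r) Ψ :=
    wm_mono D sp ℓ Wgr WQ Ψ hΨ (Filter.Eventually.of_forall fun x => loc_upper_gr_le y r x)
  have h6 : wm D (loc_upper_Q y r) Ψ ≤ 3 * K ^ 2 / r ^ 2 * wm D (nb y (2 * r)) Ψ := by
    rw [← wm_smul]
    exact wm_mono D sp ℓ WQ (WI_smul D sp ℓ (loc_upper_WI_nb D sp ℓ y (2 * r)) _) Ψ hΨ
      (Filter.Eventually.of_forall fun x => loc_upper_Q_le hK0 hK y hr x)
  have h7 : 0 ≤ wm D (nb y (2 * r)) Ψ := by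
    unfold wm
    refine Finset.sum_nonneg fun τ _ => integral_nonneg fun x => ?_
    apply mul_nonneg _ (sq_nonneg _)
    unfold nb
    exact Finset.sum_nonneg fun i _ => by split_ifs <;> norm_num
  have e1 : (∑ τ, ∫ x, ∑ j, (∑ i, cy y r (x i) ^ 2) * kin D sp j (Ψ τ) x) =
      ∑ τ, ∫ x, ∑ j, loc_upper_g y r x * kin D sp j (Ψ τ) x := rfl
  have e2 : wm D (fun x => (∑ i, cy y r (x i) ^ 2) * coul D sp x) Ψ =
      wm D (fun x => loc_upper_g y r x * coul D sp x) Ψ := rfl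
  have e3 : wm D (fun x => ∑ i, cy y r (x i) ^ 2) Ψ = wm D (loc_upper_g y r) Ψ := rfl
  rw [e1, e2, e3]
  have hN0 : (0:ℝ) ≤ Fintype.card I := by positivity
  have h8 : C' * wm D (gr (loc_upper_f y r)) Ψ + 2 * Cm * wm D (loc_upper_Q y r) Ψ ≤
      (C' + 2 * Cm) * (3 * K ^ 2 / r ^ 2 * wm D (nb y (2 * r)) Ψ) := by
    have a1 := mul_le_mul_of_nonneg_left (h5.trans h6) hC'.le
    have a2 := mul_le_mul_of_nonneg_left h6 (show 0 ≤ 2 * Cm by positivity)
    linarith
  have h9 : (C' + 2 * Cm) * (3 * K ^ 2 / r ^ 2 * wm D (nb y (2 * r)) Ψ) ≤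
      (C' + (C' + 2 * Cm) * (3 * K ^ 2)) / r ^ 2 * wm D (nb y (2 * r)) Ψ := by
    have : (C' + 2 * Cm) * (3 * K ^ 2 / r ^ 2 * wm D (nb y (2 * r)) Ψ) =
      ((C' + 2 * Cm) * (3 * K ^ 2)) / r ^ 2 * wm D (nb y (2 * r)) Ψ := by ring
    rw [this]
    apply mul_le_mul_of_nonneg_right _ h7
    apply div_le_div_of_nonneg_right _ (by positivity)
    linarith
  have h10 : C' * ((1 + (Fintype.card I : ℝ)) * η) ≤
      (C' + (C' + 2 * Cm) * (3 * K ^ 2)) * (1 + (Fintype.card I : ℝ)) * η := by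
    rw [mul_assoc]
    apply mul_le_mul_of_nonneg_right _ (by positivity)
    have : 0 ≤ (C' + 2 * Cm) * (3 * K ^ 2) := by positivity
    linarith
  linarith

end Pool.Agent.Helper780_CP.RL2b
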