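import Pool.Agent.Helper780_CP.LLDefs2
import Pool.Agent.Helper780_CP.RVB
import Pool.Agent.Helper780_CP.RL2b
import Pool.Agent.Helper780_CP.RL2a
import Pool.Agent.Helper985.CP.M_energies_basic

set_option autoImplicit false

open MeasureTheory

namespace Pool.Agent.Helper780_CP.RL2c

open Pool.Agent.Helper780_CP
open Pool.Agent.Helper985.CP
open Pool.Agent.Helper780_CP.RVB (vb_props)
open Pool.Agent.Helper780_CP.RL2b (loc_upper)
open Pool.Agent.Helper780_CP.RL2a (removal)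

open Pool.Agent.Helper985.CP

theorem le_icb_meas (ℓ : ℝ) : MeasurableSet (icb ℓ) := by
  have h1 : icb ℓ = ⋂ k : Fin 3, {y : E3 | ℓ / 4 ≤ y k} ∩ {y : E3 | y k ≤ 3 * ℓ / 4} := by
    ext y
    simp [icb]
  rw [h1]
  refine MeasurableSet.iInter fun k => MeasurableSet.inter ?_ ?_
  · exact (isClosed_le continuous_const (by fun_prop)).measurableSet
  · exact (isClosed_le (by fun_prop) continuous_const).measurableSet

theorem le_icb_vol (ℓ : ℝ) (hℓ : 0 < ℓ) : volume (icb ℓ) = ENNReal.ofReal (ℓ ^ 3 / 8) := by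
  have h1 : icb ℓ = (@WithLp.ofLp 2 (Fin 3 → ℝ)) ⁻¹'
      (Set.Icc (fun _ : Fin 3 => ℓ / 4) (fun _ : Fin 3 => 3 * ℓ / 4)) := by
    ext y
    simp [icb, Pi.le_def, forall_and]
  rw [h1, (PiLp.volume_preserving_ofLp (Fin 3)).measure_preimage
    measurableSet_Icc.nullMeasurableSet, Real.volume_Icc_pi]
  have h2 : 3 * ℓ / 4 - ℓ / 4 = ℓ / 2 := by ring
  simp only [h2, Finset.prod_const, Finset.card_univ, Fintype.card_fin]
  rw [← ENNReal.ofReal_pow (by positivity)]
  congr 1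
  ring

theorem le_avg {S : Type} (D : Species S) {I : Type} [Fintype I] [DecidableEq I] (sp : I → S)
    (ℓ : ℝ) (hℓ : 0 < ℓ) (Ψ : Wave D I) (hΨ : IsState D sp ℓ Ψ) (A : E3 → (I → E3) → ℝ)
    (hAm : Measurable (fun q : (I → E3) × E3 => A q.2 q.1)) (M : ℝ) (hM0 : 0 ≤ M)
    (hAM : ∀ v x, |A v x| ≤ M * (1 + ∑ i, kk (x i - v))) (T : ℝ)
    (hT : ∀ v ∈ icb ℓ, T ≤ wm D (A v) Ψ) (B : (I → E3) → ℝ) (hB : WI D sp ℓ B)
    (hAB : ∀ x, ∫ v in icb ℓ, A v x ≤ ℓ ^ 3 / 8 * B x) : T ≤ wm D B Ψ := by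
  obtain ⟨c, hc⟩ : ∃ c : E3 → ℝ, c = (icb ℓ).indicator (fun _ => (1 : ℝ)) := ⟨_, rfl⟩
  have hcm : Measurable c := by rw [hc]; exact measurable_const.indicator (le_icb_meas ℓ)
  have hc0 : ∀ y, 0 ≤ c y := by
    intro y; rw [hc]; exact Set.indicator_nonneg (fun _ _ => zero_le_one) y
  have hc1 : ∀ y, c y ≤ 1 := by
    intro y; rw [hc]; exact Set.indicator_le_self' (fun _ _ => zero_le_one) y
  have hci : Integrable c := by
    rw [hc]
    refine (integrable_indicator_iff (le_icb_meas ℓ)).2 ?_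
    refine integrableOn_const ?_
    rw [le_icb_vol ℓ hℓ]
    exact ENNReal.ofReal_ne_top
  have hcint : ∫ y, c y = ℓ ^ 3 / 8 := by
    rw [hc, integral_indicator (le_icb_meas ℓ)]
    rw [setIntegral_const, Measure.real, le_icb_vol ℓ hℓ,
      ENNReal.toReal_ofReal (by positivity)]
    simp
  have hΨm : ∀ τ, Measurable (fun x => ‖Ψ τ x‖ ^ 2) := fun τ =>
    ((hΨ.smooth τ).continuous.measurable.norm).pow_const 2
  have hΨi : ∀ τ, Integrable (fun x => ‖Ψ τ x‖ ^ 2) := fun τ => (int_state D sp ℓ Ψ hΨ τ).1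
  have hdom : ∀ τ, Integrable (fun q : (I → E3) × E3 => M * (c q.2 * ‖Ψ τ q.1‖ ^ 2 +
      ∑ i, kk (q.1 i - q.2) * ‖Ψ τ q.1‖ ^ 2))
      ((volume : Measure (I → E3)).prod (volume : Measure E3)) := by
    intro τ
    refine (Integrable.add ?_ (integrable_finsetSum _ fun i _ =>
      kk_prod _ (hΨi τ) (hΨm τ) i)).const_mul M
    have h1 := (hΨi τ).mul_prod hci
    refine h1.congr (Filter.Eventually.of_forall fun q => ?_)
    show ‖Ψ τ q.1‖ ^ 2 * c q.2 = _
    ring
  have hpt : ∀ τ (q : (I → E3) × E3), |c q.2 * (A q.2 q.1 * ‖Ψ τ q.1‖ ^ 2)| ≤ M * (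
      c q.2 * ‖Ψ τ q.1‖ ^ 2 + ∑ i, kk (q.1 i - q.2) * ‖Ψ τ q.1‖ ^ 2) := by
    intro τ q
    have h2 : 0 ≤ ∑ i, kk (q.1 i - q.2) := Finset.sum_nonneg fun i _ => kk_nonneg _
    have h3 : 0 ≤ ‖Ψ τ q.1‖ ^ 2 := by positivity
    have h4 := hc0 q.2
    rw [← Finset.sum_mul, abs_mul, abs_mul, abs_of_nonneg h4, abs_of_nonneg h3]
    calc c q.2 * (|A q.2 q.1| * ‖Ψ τ q.1‖ ^ 2)
        ≤ c q.2 * ((M * (1 + ∑ i, kk (q.1 i - q.2))) * ‖Ψ τ q.1‖ ^ 2) :=
          mul_le_mul_of_nonneg_left (mul_le_mul_of_nonneg_right (hAM _ _) h3) h4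
      _ = M * (c q.2 * ‖Ψ τ q.1‖ ^ 2) +
          c q.2 * (M * ((∑ i, kk (q.1 i - q.2)) * ‖Ψ τ q.1‖ ^ 2)) := by ring
      _ ≤ M * (c q.2 * ‖Ψ τ q.1‖ ^ 2) +
          1 * (M * ((∑ i, kk (q.1 i - q.2)) * ‖Ψ τ q.1‖ ^ 2)) := by
          have := mul_le_mul_of_nonneg_right (hc1 q.2)
            (mul_nonneg hM0 (mul_nonneg h2 h3))
          linarith
      _ = _ := by ring
  have hF : ∀ τ, Integrable (fun q : (I → E3) × E3 => c q.2 * (A q.2 q.1 * ‖Ψ τ q.1‖ ^ 2))
      ((volume : Measure (I → E3)).prod (volume : Measure E3)) := by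
    intro τ
    refine (hdom τ).mono' ?_ (Filter.Eventually.of_forall fun q => ?_)
    · exact ((hcm.comp measurable_snd).mul (hAm.mul
        ((hΨm τ).comp measurable_fst))).aestronglyMeasurable
    · rw [Real.norm_eq_abs]
      exact hpt τ q
  have e1 : ∀ y, c y * wm D (A y) Ψ = ∑ τ, ∫ x : I → E3, c y * (A y x * ‖Ψ τ x‖ ^ 2) := by
    intro y
    unfold wm
    rw [Finset.mul_sum]
    refine Finset.sum_congr rfl fun τ _ => ?_
    rw [integral_const_mul]
  have i1 : Integrable (fun v => c v * wm D (A v) Ψ) := by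
    simp only [e1]
    exact integrable_finsetSum _ fun τ _ => (hF τ).integral_prod_right
  have h1 : (ℓ ^ 3 / 8) * T ≤ ∫ v, c v * wm D (A v) Ψ := by
    rw [← hcint, ← integral_mul_const]
    refine integral_mono (hci.mul_const _) i1 fun v => ?_
    by_cases hv : v ∈ icb ℓ
    · exact mul_le_mul_of_nonneg_left (hT v hv) (hc0 v)
    · have : c v = 0 := by rw [hc, Set.indicator_of_notMem hv]
      simp only [this, zero_mul, le_refl]
  have h2 : ∫ v, c v * wm D (A v) Ψ ≤ (ℓ ^ 3 / 8) * wm D B Ψ := by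
    simp only [e1]
    rw [integral_finsetSum _ fun τ _ => (hF τ).integral_prod_right]
    unfold wm
    rw [Finset.mul_sum]
    refine Finset.sum_le_sum fun τ _ => ?_
    rw [← integral_integral_swap (f := fun (x : I → E3) (y : E3) =>
      c y * (A y x * ‖Ψ τ x‖ ^ 2)) (hF τ), ← integral_const_mul]
    refine integral_mono (hF τ).integral_prod_left ((hB Ψ hΨ τ).const_mul _) fun x => ?_
    have e2 : ∫ y, c y * (A y x * ‖Ψ τ x‖ ^ 2) = (∫ v in icb ℓ, A v x) * ‖Ψ τ x‖ ^ 2 := by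
      rw [← integral_indicator (le_icb_meas ℓ), ← integral_mul_const]
      refine integral_congr_ae (Filter.Eventually.of_forall fun v => ?_)
      simp only [hc]
      by_cases hv : v ∈ icb ℓ
      · simp only [Set.indicator_of_mem hv]; ring
      · simp only [Set.indicator_of_notMem hv]; ring
    show ∫ y, c y * (A y x * ‖Ψ τ x‖ ^ 2) ≤ ℓ ^ 3 / 8 * (B x * ‖Ψ τ x‖ ^ 2)
    rw [e2, ← mul_assoc]
    exact mul_le_mul_of_nonneg_right (hAB x) (by positivity)
  have h3 : 0 < ℓ ^ 3 / 8 := by positivity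
  exact le_of_mul_le_mul_left (h1.trans h2) h3

theorem le_inv_kk (z v : E3) : 1 / ‖z - v‖ ≤ 1 + kk (z - v) := by
  have h0 : 0 ≤ ‖z - v‖⁻¹ := by positivity
  by_cases h : ‖z - v‖ < 1
  · have h1 : kk (z - v) = ‖z - v‖⁻¹ ^ 2 := by
      unfold kk
      rw [Set.indicator_of_mem]
      simpa using h
    rw [h1, one_div]
    nlinarith [sq_nonneg (‖z - v‖⁻¹ - 1)]
  · rw [not_lt] at h
    have h1 : ‖z - v‖⁻¹ ≤ 1 := inv_le_one_of_one_le₀ h
    have := kk_nonneg (z - v)
    rw [one_div]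
    linarith

theorem le_int_one (ℓ : ℝ) (hℓ : 0 < ℓ) (a : ℝ) : IntegrableOn (fun _ : E3 => a) (icb ℓ) :=
  integrableOn_const (by rw [le_icb_vol ℓ hℓ]; exact ENNReal.ofReal_ne_top)

theorem le_int_inv (ℓ : ℝ) (hℓ : 0 < ℓ) (z : E3) :
    IntegrableOn (fun v => 1 / ‖z - v‖) (icb ℓ) := by
  have h1 : IntegrableOn (fun v : E3 => 1 + kk (z - v)) (icb ℓ) :=
    Integrable.add (le_int_one ℓ hℓ 1) (kk_int.comp_sub_left z).integrableOn
  refine Integrable.mono' h1 ?_ (Filter.Eventually.of_forall fun v => ?_)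
  · exact (by fun_prop : Measurable fun v : E3 => 1 / ‖z - v‖).aestronglyMeasurable
  · rw [Real.norm_of_nonneg (by positivity)]
    exact le_inv_kk z v

theorem le_int_near (ℓ : ℝ) (hℓ : 0 < ℓ) {I : Type} [Fintype I] (x : I → E3) :
    IntegrableOn (fun v => 1 + near2 v x) (icb ℓ) ∧
    ∫ v in icb ℓ, (1 + near2 v x) ≤ ℓ ^ 3 / 8 * 2 + (∫ z, kk z) * (Fintype.card I : ℝ) := by
  have hk : ∀ i, IntegrableOn (fun v : E3 => kk (x i - v)) (icb ℓ) := fun i =>
    (kk_int.comp_sub_left (x i)).integrableOn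
  have h1 : IntegrableOn (fun v : E3 => 2 + ∑ i, kk (x i - v)) (icb ℓ) :=
    Integrable.add (le_int_one ℓ hℓ 2) (integrable_finsetSum _ fun i _ => hk i)
  have hle : ∀ v, 1 + near2 v x ≤ 2 + ∑ i, kk (x i - v) := by
    intro v
    have := near2_le_kk v x
    linarith
  have hm0 : Measurable (fun v : E3 => near2 v x) := by
    unfold near2
    exact Measurable.iSup fun i => by fun_prop
  have hm : Measurable (fun v : E3 => 1 + near2 v x) := hm0.const_add 1
  have hi : IntegrableOn (fun v => 1 + near2 v x) (icb ℓ) := by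
    refine Integrable.mono' h1 hm.aestronglyMeasurable (Filter.Eventually.of_forall fun v => ?_)
    have := near2_nonneg v x
    rw [Real.norm_of_nonneg (by linarith)]
    exact hle v
  refine ⟨hi, ?_⟩
  have h2 : ∫ v in icb ℓ, (1 + near2 v x) ≤ ∫ v in icb ℓ, (2 + ∑ i, kk (x i - v)) :=
    integral_mono hi h1 hle
  refine h2.trans ?_
  rw [integral_add (le_int_one ℓ hℓ 2) (integrable_finsetSum _ fun i _ => hk i),
    integral_finsetSum _ fun i _ => hk i]
  have h3 : ∫ _ in icb ℓ, (2 : ℝ) = ℓ ^ 3 / 8 * 2 := by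
    rw [setIntegral_const, Measure.real, le_icb_vol ℓ hℓ, ENNReal.toReal_ofReal (by positivity)]
    simp
  have h4 : ∀ i, ∫ v in icb ℓ, kk (x i - v) ≤ ∫ z, kk z := by
    intro i
    rw [← integral_sub_left_eq_self (fun z => kk z) volume (x i)]
    exact setIntegral_le_integral (kk_int.comp_sub_left (x i))
      (Filter.Eventually.of_forall fun v => kk_nonneg _)
  rw [h3]
  have h5 : ∑ i, ∫ v in icb ℓ, kk (x i - v) ≤ (∫ z, kk z) * (Fintype.card I : ℝ) := by
    calc ∑ i, ∫ v in icb ℓ, kk (x i - v) ≤ ∑ _i : I, ∫ z, kk z :=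
          Finset.sum_le_sum fun i _ => h4 i
      _ = _ := by
        rw [Finset.sum_const, Finset.card_univ, nsmul_eq_mul, mul_comm]
  linarith

section

variable {S : Type} (D : Species S) {I : Type} [Fintype I] [DecidableEq I] (sp : I → S)

theorem le_WI_cont (ℓ : ℝ) (h : (I → E3) → ℝ) (hh : Continuous h) : WI D sp ℓ h := by
  intro Ψ hΨ τ
  have hcs := hΨ.compact τ
  have hsq : Continuous (fun x => ‖Ψ τ x‖ ^ 2) := ((hΨ.smooth τ).continuous.norm).pow 2
  have hsqc : HasCompactSupport (fun x => ‖Ψ τ x‖ ^ 2) :=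
    hcs.comp_left (g := fun z : ℂ => ‖z‖ ^ 2) (by simp)
  exact (hh.mul hsq).integrable_of_hasCompactSupport hsqc.mul_left

theorem le_WI_mul (ℓ : ℝ) {W : (I → E3) → ℝ} (hW : WI D sp ℓ W) (f : (I → E3) → ℝ)
    (hf : Continuous f) (M : ℝ) (hb : ∀ x, |f x| ≤ M) : WI D sp ℓ (fun x => f x * W x) := by
  intro Ψ hΨ τ
  have h := (hW Ψ hΨ τ).bdd_mul (c := M) hf.aestronglyMeasurable
    (Filter.Eventually.of_forall fun x => by rw [Real.norm_eq_abs]; exact hb x)
  refine h.congr (Filter.Eventually.of_forall fun x => ?_)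
  simp only
  ring

theorem le_WI_nb (ℓ : ℝ) (y : E3) (R : ℝ) : WI D sp ℓ (nb y R) := by
  unfold nb
  apply WI_sum
  intro i _
  refine WI_one D sp ℓ i (fun z => if ‖z - y‖ ≤ R then (1 : ℝ) else 0) ?_
  refine (locallyIntegrable_const (1 : ℝ)).mono ?_ (Filter.Eventually.of_forall fun z => ?_)
  · exact (Measurable.ite (measurableSet_le (by fun_prop) measurable_const) measurable_const
      measurable_const).aestronglyMeasurable
  · split_ifs <;> simp

end

theorem le_sum_ne {I : Type} [Fintype I] [DecidableEq I] (i : I) (f : I → ℝ) :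
    (∑ j, if i = j then 0 else f j) = (∑ j, f j) - f i := by
  have h : ∀ j, (if i = j then 0 else f j) = f j - (if i = j then f j else 0) := by
    intro j
    split_ifs <;> simp
  simp only [h]
  rw [Finset.sum_sub_distrib, Finset.sum_ite_eq]
  simp

/-- TARGET -/
theorem loc_energy {S : Type} [Fintype S] [DecidableEq S] (D : Species S) (hD : D.Valid)
    (hst : HStable D) (ρ : ℝ) (hρ : 0 ≤ ρ) : ∃ C : ℝ, 0 < C ∧
    ∀ {I : Type} [Fintype I] [DecidableEq I] (sp : I → S) (ℓ : ℝ), 4 ≤ ℓ →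
      (Fintype.card I : ℝ) ≤ ρ * ℓ ^ 3 → ∀ η : ℝ, 0 ≤ η →
      ∀ Ψ : Wave D I, IsState D sp ℓ Ψ → nrm2 D Ψ = 1 →
      energy D sp Ψ ≤ sInf (energies D sp ℓ) + η →
      ∀ (y : E3) (r : ℝ), 0 < r → r ≤ 1 →
        1 / 2 * klc D sp y r Ψ +
          wm D (fun x => (∑ i, cy y r (x i) ^ 2 * ∑ j, if i = j then 0 else
              D.charge (sp i) * D.charge (sp j) / ‖x i - x j‖) -
            phb D sp ℓ x * ∑ i, D.charge (sp i) * cy y r (x i) ^ 2) Ψ ≤
        C / r ^ 2 * wm D (nb y (2 * r)) Ψ + C * (1 + (Fintype.card I : ℝ)) * η := by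
  obtain ⟨C1, hC1, H1⟩ := removal D hD hst (1 / 2) (by norm_num)
  obtain ⟨C2, hC2, H2⟩ := loc_upper D hD
  obtain ⟨K, hK⟩ : ∃ K, K = ∫ z, kk z := ⟨_, rfl⟩
  have hK0 : 0 ≤ K := by rw [hK]; exact integral_nonneg kk_nonneg
  obtain ⟨C3, hC3⟩ : ∃ C3, C3 = C1 * (2 + 8 * ρ * K) := ⟨_, rfl⟩
  have hC30 : 0 ≤ C3 := by rw [hC3]; positivity
  refine ⟨C3 + C2, by positivity, ?_⟩
  intro I _ _ sp ℓ hℓ4 hN η hη Ψ hΨ hn1 hE y r hr hr1
  have hℓ : 0 < ℓ := by linarith
  obtain ⟨-, -, hEn, -⟩ := energies_basic D hD hst sp ℓ hℓ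
  obtain ⟨E, hEE⟩ : ∃ E, E = sInf (energies D sp ℓ) := ⟨_, rfl⟩
  rw [← hEE] at hEn hE
  have hU := H2 sp ℓ E η hη hEn Ψ hΨ hn1 hE y r hr hr1
  have hctc : Continuous ct := by
    unfold ct
    exact Real.smoothTransition.continuous.comp (by fun_prop)
  have hcyc : Continuous (cy y r) := by
    unfold cy
    exact hctc.comp (by fun_prop)
  have hct0 : ∀ w, 0 ≤ ct w := fun w => Real.smoothTransition.nonneg _
  have hct1 : ∀ w, ct w ≤ 1 := fun w => Real.smoothTransition.le_one _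
  obtain ⟨W, hW⟩ : ∃ W : E3 → ℝ, W = fun z => cy y r z ^ 2 := ⟨_, rfl⟩
  have hWz : ∀ z, cy y r z ^ 2 = W z := fun z => by rw [hW]
  have hWc : Continuous W := by rw [hW]; exact hcyc.pow 2
  have hW0 : ∀ z, 0 ≤ W z := fun z => by rw [hW]; exact sq_nonneg _
  have hW1 : ∀ z, W z ≤ 1 := fun z => by
    rw [hW]
    exact pow_le_one₀ (hct0 _) (hct1 _)
  have hWnb : ∀ z, W z ≤ if ‖z - y‖ ≤ 2 * r then 1 else 0 := by
    intro z
    split_ifs with h
    · exact hW1 z
    · rw [not_le] at h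
      have h1 : ct (r⁻¹ • (z - y)) = 0 := by
        unfold ct
        apply Real.smoothTransition.zero_of_nonpos
        have h2 : 2 ≤ ‖r⁻¹ • (z - y)‖ := by
          rw [norm_smul, Real.norm_of_nonneg (by positivity), inv_mul_eq_div, le_div_iff₀ hr]
          exact h.le
        nlinarith
      rw [hW]
      simp only [cy, h1]
      norm_num
  obtain ⟨g, hg⟩ : ∃ g : (I → E3) → ℝ, g = fun x => ∑ i, W (x i) := ⟨_, rfl⟩
  obtain ⟨P, hP⟩ : ∃ P : (I → E3) → ℝ, P = fun x => ∑ i, W (x i) * ∑ j, if i = j then 0 else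
      D.charge (sp i) * D.charge (sp j) / ‖x i - x j‖ := ⟨_, rfl⟩
  obtain ⟨Q, hQ⟩ : ∃ Q : E3 → (I → E3) → ℝ, Q = fun v x => ∑ i, W (x i) *
      (D.charge (sp i) * ∑ j, if i = j then 0 else D.charge (sp j) / ‖x j - v‖) := ⟨_, rfl⟩
  obtain ⟨F, hF⟩ : ∃ F : (I → E3) → ℝ, F = fun x => phb D sp ℓ x *
      ∑ i, D.charge (sp i) * W (x i) := ⟨_, rfl⟩
  have hgx : ∀ x : I → E3, ∑ i, W (x i) = g x := fun x => by rw [hg]
  have hPx : ∀ x : I → E3, (∑ i, W (x i) * ∑ j, if i = j then 0 else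
      D.charge (sp i) * D.charge (sp j) / ‖x i - x j‖) = P x := fun x => by rw [hP]
  have hFx : ∀ x : I → E3, (phb D sp ℓ x * ∑ i, D.charge (sp i) * W (x i)) = F x :=
    fun x => by rw [hF]
  have hQx : ∀ (v : E3) (x : I → E3), (∑ i, W (x i) *
      (D.charge (sp i) * ∑ j, if i = j then 0 else D.charge (sp j) / ‖x j - v‖)) = Q v x :=
    fun v x => by rw [hQ]
  have hR : ∀ v ∈ icb ℓ, E * wm D g Ψ ≤
      (∑ τ, ∫ x, ∑ j, (g x - W (x j)) * kin D sp j (Ψ τ) x) +
        wm D (fun x => g x * coul D sp x - P x + Q v x) Ψ +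
        C1 * wm D (fun x => g x * (1 + near2 v x)) Ψ := by
    intro v hv
    have hb : Metric.closedBall v (1 / 2) ⊆ cube ℓ := by
      intro z hz k
      rw [Metric.mem_closedBall, dist_eq_norm] at hz
      have h1 : |z k - v k| ≤ 1 / 2 := by
        have := EuclideanSpace.norm_eq (z - v)
        have h2 : ‖(z - v) k‖ ≤ ‖z - v‖ := PiLp.norm_apply_le (z - v) k
        rw [PiLp.sub_apply, Real.norm_eq_abs] at h2
        exact h2.trans hz
      have h3 := hv k
      rw [abs_le] at h1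
      constructor <;> linarith [h1.1, h1.2, h3.1, h3.2]
    have h := H1 sp ℓ hℓ v hb E hEn W hWc hW0 ⟨1, hW1⟩ Ψ hΨ
    simp only [hgx, hPx, hQx] at h
    have e : wm D (fun x => ∑ i, W (x i)) Ψ = wm D g Ψ := by rw [hg]
    simpa only [e] using h
  simp only [hWz] at hU ⊢
  simp only [hgx] at hU
  simp only [hPx, hFx]
  have hklc : klc D sp y r Ψ = ∑ τ, ∫ x, ∑ j, W (x j) * kin D sp j (Ψ τ) x := by
    unfold klc
    simp only [hWz]
  have hgc : Continuous g := by
    rw [hg]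
    exact continuous_finsetSum _ fun i _ => hWc.comp (continuous_apply i)
  have hg0 : ∀ x, 0 ≤ g x := fun x => by
    rw [hg]; exact Finset.sum_nonneg fun i _ => hW0 _
  have hgN : ∀ x, g x ≤ (Fintype.card I : ℝ) := fun x => by
    rw [hg]
    calc ∑ i, W (x i) ≤ ∑ _i : I, (1 : ℝ) := Finset.sum_le_sum fun i _ => hW1 _
      _ = _ := by simp
  have hgab : ∀ x, |g x| ≤ (Fintype.card I : ℝ) := fun x => by
    rw [abs_of_nonneg (hg0 x)]; exact hgN x
  have hWab : ∀ (i : I) (x : I → E3), |W (x i)| ≤ 1 := fun i x => by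
    rw [abs_of_nonneg (hW0 _)]; exact hW1 _
  have hWic : ∀ i : I, Continuous (fun x : I → E3 => W (x i)) := fun i =>
    hWc.comp (continuous_apply i)
  have hwg : WI D sp ℓ g := le_WI_cont D sp ℓ g hgc
  have hwgc : WI D sp ℓ (fun x => g x * coul D sp x) :=
    le_WI_mul D sp ℓ (WI_coul D sp ℓ) g hgc _ hgab
  have hwP : WI D sp ℓ P := by
    rw [hP]
    exact WI_sum D sp ℓ _ _ fun i _ => le_WI_mul D sp ℓ (WI_pair D sp ℓ i) _ (hWic i) 1 (hWab i)
  have hwQ : ∀ v, WI D sp ℓ (Q v) := by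
    intro v
    rw [hQ]
    refine WI_sum D sp ℓ _ _ fun i _ => le_WI_mul D sp ℓ ?_ _ (hWic i) 1 (hWab i)
    refine WI_smul D sp ℓ ?_ _
    refine WI_sum D sp ℓ _ _ fun j _ => ?_
    by_cases hij : i = j
    · simp only [if_pos hij]
      exact WI_zero D sp ℓ
    · simp only [if_neg hij]
      have h := locInt_shift pot_props_locInt v
      have h2 := WI_smul D sp ℓ (WI_one D sp ℓ j (fun z => ‖z - v‖⁻¹) h) (D.charge (sp j))
      simpa only [div_eq_mul_inv] using h2
  have hwG : ∀ v, WI D sp ℓ (fun x => g x * (1 + near2 v x)) := fun v =>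
    le_WI_mul D sp ℓ (WI_add D sp ℓ (WI_const D sp ℓ 1) (WI_near2 D sp ℓ v)) g hgc _ hgab
  have hvbc := vb_props.1 ℓ hℓ
  obtain ⟨-, Cv, hCv, hvb⟩ := vb_props
  have hvb0 : ∀ z, 0 ≤ vb ℓ z := fun z => (hvb ℓ z hℓ).1
  have hphc : Continuous (phb D sp ℓ (I := I)) := by
    unfold phb
    exact continuous_finsetSum _ fun i _ =>
      continuous_const.mul (hvbc.comp (continuous_apply i))
  have hwF : WI D sp ℓ F := by
    rw [hF]
    refine le_WI_cont D sp ℓ _ (hphc.mul ?_)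
    exact continuous_finsetSum _ fun i _ => continuous_const.mul (hWic i)
  have hwnb := le_WI_nb D sp ℓ y (2 * r)
  -- splitting
  obtain ⟨KR, hKR⟩ : ∃ KR, KR = ∑ τ, ∫ x, ∑ j, (g x - W (x j)) * kin D sp j (Ψ τ) x := ⟨_, rfl⟩
  rw [← hKR] at hR
  have hTv : ∀ v ∈ icb ℓ, E * wm D g Ψ - KR - wm D (fun x => g x * coul D sp x) Ψ +
      wm D P Ψ ≤ wm D (fun x => Q v x + C1 * (g x * (1 + near2 v x))) Ψ := by
    intro v hv
    have h := hR v hv
    have e1 : (fun x => g x * coul D sp x - P x + Q v x) =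
        fun x => (g x * coul D sp x + (-1) * P x) + Q v x := by
      funext x; ring
    rw [e1, wm_add D sp ℓ (WI_add D sp ℓ hwgc (WI_smul D sp ℓ hwP (-1))) (hwQ v) Ψ hΨ,
      wm_add D sp ℓ hwgc (WI_smul D sp ℓ hwP (-1)) Ψ hΨ, wm_smul] at h
    rw [wm_add D sp ℓ (hwQ v) (WI_smul D sp ℓ (hwG v) C1) Ψ hΨ, wm_smul]
    linarith
  have hWim : ∀ i : I, Measurable (fun q : (I → E3) × E3 => W (q.1 i)) := fun i =>
    hWc.measurable.comp ((measurable_pi_apply i).comp measurable_fst)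
  have hAm : Measurable (fun q : (I → E3) × E3 => (fun v x => Q v x +
      C1 * (g x * (1 + near2 v x))) q.2 q.1) := by
    simp only
    refine Measurable.add ?_ ?_
    · rw [hQ]
      refine Finset.measurable_fun_sum _ fun i _ => (hWim i).mul (Measurable.const_mul ?_ _)
      refine Finset.measurable_fun_sum _ fun j _ => ?_
      by_cases hij : i = j
      · simp only [if_pos hij]
        exact measurable_const
      · simp only [if_neg hij]
        have h1 : Measurable (fun q : (I → E3) × E3 => q.1 j) :=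
          (measurable_pi_apply j).comp measurable_fst
        have h2 : Measurable (fun q : (I → E3) × E3 => ‖q.1 j - q.2‖) :=
          (h1.sub measurable_snd).norm
        exact measurable_const.div h2
    · refine Measurable.const_mul ?_ _
      exact (hgc.measurable.comp measurable_fst).mul (measurable_const.add near2_meas2)
  obtain ⟨Z, hZ⟩ : ∃ Z, Z = ∑ i, |D.charge (sp i)| := ⟨_, rfl⟩
  have hZ0 : 0 ≤ Z := by rw [hZ]; exact Finset.sum_nonneg fun i _ => abs_nonneg _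
  have hQab : ∀ v x, |Q v x| ≤ Z * (Z * (1 + ∑ i, kk (x i - v))) := by
    intro v x
    have hs0 : 0 ≤ 1 + ∑ i, kk (x i - v) := by
      have : 0 ≤ ∑ i, kk (x i - v) := Finset.sum_nonneg fun i _ => kk_nonneg _
      linarith
    have hin : ∀ i, |∑ j, if i = j then 0 else D.charge (sp j) / ‖x j - v‖| ≤
        Z * (1 + ∑ i, kk (x i - v)) := by
      intro i
      refine (Finset.abs_sum_le_sum_abs _ _).trans ?_
      rw [hZ, Finset.sum_mul]
      refine Finset.sum_le_sum fun j _ => ?_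
      have h1 : 1 / ‖x j - v‖ ≤ 1 + ∑ i, kk (x i - v) := by
        have h2 := le_inv_kk (x j) v
        have h3 := Finset.single_le_sum (f := fun i => kk (x i - v)) (fun j _ => kk_nonneg _)
          (Finset.mem_univ j)
        linarith
      split_ifs
      · rw [abs_zero]
        exact mul_nonneg (abs_nonneg _) hs0
      · rw [abs_div, abs_of_nonneg (norm_nonneg _), div_eq_mul_one_div]
        exact mul_le_mul_of_nonneg_left h1 (abs_nonneg _)
    rw [hQ]
    simp only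
    refine (Finset.abs_sum_le_sum_abs _ _).trans ?_
    nth_rewrite 1 [hZ]
    rw [Finset.sum_mul]
    refine Finset.sum_le_sum fun i _ => ?_
    rw [abs_mul, abs_mul]
    calc |W (x i)| * (|D.charge (sp i)| * |∑ j, if i = j then 0 else
          D.charge (sp j) / ‖x j - v‖|)
        ≤ 1 * (|D.charge (sp i)| * (Z * (1 + ∑ i, kk (x i - v)))) :=
          mul_le_mul (hWab i x) (mul_le_mul_of_nonneg_left (hin i) (abs_nonneg _))
            (by positivity) zero_le_one
      _ = _ := by rw [one_mul]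
  have hcard0 : (0 : ℝ) ≤ (Fintype.card I : ℝ) := Nat.cast_nonneg _
  have hAM : ∀ v x, |Q v x + C1 * (g x * (1 + near2 v x))| ≤
      (Z * Z + C1 * ((Fintype.card I : ℝ) * 2)) * (1 + ∑ i, kk (x i - v)) := by
    intro v x
    have hs0 : 0 ≤ ∑ i, kk (x i - v) := Finset.sum_nonneg fun i _ => kk_nonneg _
    have h1 := hQab v x
    have h2 := near2_le_kk v x
    have h3 := near2_nonneg v x
    have h4 : |C1 * (g x * (1 + near2 v x))| ≤
        C1 * ((Fintype.card I : ℝ) * (2 * (1 + ∑ i, kk (x i - v)))) := by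
      rw [abs_of_nonneg (mul_nonneg hC1.le (mul_nonneg (hg0 x) (by linarith)))]
      refine mul_le_mul_of_nonneg_left ?_ hC1.le
      exact mul_le_mul (hgN x) (by linarith) (by linarith) hcard0
    calc |Q v x + C1 * (g x * (1 + near2 v x))| ≤ |Q v x| + |C1 * (g x * (1 + near2 v x))| :=
          abs_add_le _ _
      _ ≤ Z * (Z * (1 + ∑ i, kk (x i - v))) +
          C1 * ((Fintype.card I : ℝ) * (2 * (1 + ∑ i, kk (x i - v)))) := add_le_add h1 h4
      _ = _ := by ring
  have hwB : WI D sp ℓ (fun x => F x + C3 * g x) := WI_add D sp ℓ hwF (WI_smul D sp ℓ hwg C3)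
  have hAB : ∀ x, ∫ v in icb ℓ, (fun v x => Q v x + C1 * (g x * (1 + near2 v x))) v x ≤
      ℓ ^ 3 / 8 * (F x + C3 * g x) := by
    intro x
    have hij : ∀ i j, IntegrableOn (fun v : E3 => if i = j then 0 else
        D.charge (sp j) / ‖x j - v‖) (icb ℓ) := by
      intro i j
      by_cases hij : i = j
      · simp only [if_pos hij]
        exact le_int_one ℓ hℓ 0
      · simp only [if_neg hij]
        have := (le_int_inv ℓ hℓ (x j)).const_mul (D.charge (sp j))
        refine this.congr (Filter.Eventually.of_forall fun v => ?_)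
        simp only
        rw [mul_one_div]
    have hQi : ∀ i, IntegrableOn (fun v : E3 => W (x i) *
      (D.charge (sp i) * ∑ j, if i = j then 0 else D.charge (sp j) / ‖x j - v‖)) (icb ℓ) := by
      intro i
      exact ((integrable_finsetSum _ fun j _ => hij i j).const_mul _).const_mul _
    have hQint : IntegrableOn (fun v => Q v x) (icb ℓ) := by
      rw [hQ]
      exact integrable_finsetSum _ fun i _ => hQi i
    obtain ⟨n1, n2⟩ := le_int_near ℓ hℓ x
    have hGint : IntegrableOn (fun v => C1 * (g x * (1 + near2 v x))) (icb ℓ) :=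
      (n1.const_mul _).const_mul _
    simp only
    rw [integral_add hQint hGint, integral_const_mul, integral_const_mul]
    have hvbe : ∀ j, ∫ v in icb ℓ, D.charge (sp j) / ‖x j - v‖ =
        D.charge (sp j) * (ℓ ^ 3 / 8 * vb ℓ (x j)) := by
      intro j
      have : ∀ v, D.charge (sp j) / ‖x j - v‖ = D.charge (sp j) * (1 / ‖x j - v‖) := by
        intro v; rw [mul_one_div]
      simp only [this]
      rw [integral_const_mul]
      unfold vb
      congr 1
      field_simp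
    have hQe : ∫ v in icb ℓ, Q v x = ℓ ^ 3 / 8 * (F x -
        ∑ i, W (x i) * (D.charge (sp i) ^ 2 * vb ℓ (x i))) := by
      rw [hQ]
      simp only
      rw [integral_finsetSum _ fun i _ => hQi i]
      have h1 : ∀ i, ∫ v in icb ℓ, W (x i) *
          (D.charge (sp i) * ∑ j, if i = j then 0 else D.charge (sp j) / ‖x j - v‖) =
          W (x i) * (D.charge (sp i) * (ℓ ^ 3 / 8 * (phb D sp ℓ x -
            D.charge (sp i) * vb ℓ (x i)))) := by
        intro i
        rw [integral_const_mul, integral_const_mul,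
          integral_finsetSum _ fun j _ => hij i j]
        congr 2
        have h2 : ∀ j, ∫ v in icb ℓ, (if i = j then 0 else D.charge (sp j) / ‖x j - v‖) =
            ℓ ^ 3 / 8 * (if i = j then 0 else D.charge (sp j) * vb ℓ (x j)) := by
          intro j
          split_ifs
          · simp
          · rw [hvbe j]; ring
        simp only [h2]
        rw [← Finset.mul_sum, le_sum_ne]
        rfl
      simp only [h1]
      rw [hF]
      beta_reduce
      rw [Finset.mul_sum, ← Finset.sum_sub_distrib, Finset.mul_sum]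
      refine Finset.sum_congr rfl fun i _ => ?_
      ring
    rw [hQe]
    have hs : 0 ≤ ∑ i, W (x i) * (D.charge (sp i) ^ 2 * vb ℓ (x i)) :=
      Finset.sum_nonneg fun i _ => mul_nonneg (hW0 _) (mul_nonneg (sq_nonneg _) (hvb0 _))
    have hl3 : 0 < ℓ ^ 3 := by positivity
    rw [← hK] at n2
    have hKN : K * (Fintype.card I : ℝ) ≤ ℓ ^ 3 / 8 * (8 * ρ * K) := by
      have := mul_le_mul_of_nonneg_left hN hK0
      linarith
    have hn3 : C1 * (g x * ∫ v in icb ℓ, (1 + near2 v x)) ≤ ℓ ^ 3 / 8 * (C3 * g x) := by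
      have h1 : g x * ∫ v in icb ℓ, (1 + near2 v x) ≤
          g x * (ℓ ^ 3 / 8 * (2 + 8 * ρ * K)) :=
        mul_le_mul_of_nonneg_left (by linarith) (hg0 x)
      calc C1 * (g x * ∫ v in icb ℓ, (1 + near2 v x)) ≤
            C1 * (g x * (ℓ ^ 3 / 8 * (2 + 8 * ρ * K))) := mul_le_mul_of_nonneg_left h1 hC1.le
        _ = _ := by rw [hC3]; ring
    have hs2 : 0 ≤ ℓ ^ 3 / 8 * ∑ i, W (x i) * (D.charge (sp i) ^ 2 * vb ℓ (x i)) :=
      mul_nonneg (by positivity) hs
    calc ℓ ^ 3 / 8 * (F x - ∑ i, W (x i) * (D.charge (sp i) ^ 2 * vb ℓ (x i))) +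
          C1 * (g x * ∫ v in icb ℓ, (1 + near2 v x))
        ≤ ℓ ^ 3 / 8 * (F x - ∑ i, W (x i) * (D.charge (sp i) ^ 2 * vb ℓ (x i))) +
          ℓ ^ 3 / 8 * (C3 * g x) := by linarith
      _ = ℓ ^ 3 / 8 * (F x + C3 * g x) -
          ℓ ^ 3 / 8 * ∑ i, W (x i) * (D.charge (sp i) ^ 2 * vb ℓ (x i)) := by ring
      _ ≤ _ := by linarith
  have hT := le_avg D sp ℓ hℓ Ψ hΨ (fun v x => Q v x + C1 * (g x * (1 + near2 v x))) hAm
    (Z * Z + C1 * ((Fintype.card I : ℝ) * 2)) (by positivity) hAM _ hTv _ hwB hAB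
  rw [wm_add D sp ℓ hwF (WI_smul D sp ℓ hwg C3) Ψ hΨ, wm_smul] at hT
  -- kinetic energy
  have hkin : (∑ τ, ∫ x, ∑ j, g x * kin D sp j (Ψ τ) x) - KR = klc D sp y r Ψ := by
    rw [hKR, hklc, ← Finset.sum_sub_distrib]
    refine Finset.sum_congr rfl fun τ _ => ?_
    obtain ⟨-, h2, -, -, -⟩ := int_state D sp ℓ Ψ hΨ τ
    have i1 : ∀ j, Integrable (fun x => g x * kin D sp j (Ψ τ) x) := fun j =>
      (h2 j).bdd_mul (c := (Fintype.card I : ℝ)) hgc.aestronglyMeasurable
        (Filter.Eventually.of_forall fun x => by rw [Real.norm_eq_abs]; exact hgab x)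
    have i2 : ∀ j, Integrable (fun x => W (x j) * kin D sp j (Ψ τ) x) := fun j =>
      (h2 j).bdd_mul (c := 1) (hWic j).aestronglyMeasurable
        (Filter.Eventually.of_forall fun x => by rw [Real.norm_eq_abs]; exact hWab j x)
    have i3 : ∀ j, Integrable (fun x => (g x - W (x j)) * kin D sp j (Ψ τ) x) := fun j => by
      refine ((i1 j).sub (i2 j)).congr (Filter.Eventually.of_forall fun x => ?_)
      simp only [Pi.sub_apply]
      ring
    rw [integral_finsetSum _ fun j _ => i1 j, integral_finsetSum _ fun j _ => i3 j,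
      integral_finsetSum _ fun j _ => i2 j, ← Finset.sum_sub_distrib]
    refine Finset.sum_congr rfl fun j _ => ?_
    rw [← integral_sub (i1 j) (i3 j)]
    refine integral_congr_ae (Filter.Eventually.of_forall fun x => ?_)
    simp only
    ring
  have hkin2 : (∑ τ, ∫ x, ∑ j, g x * kin D sp j (Ψ τ) x) = KR + klc D sp y r Ψ := by
    linarith
  have hPF : wm D (fun x => P x - F x) Ψ = wm D P Ψ - wm D F Ψ := by
    have e1 : (fun x => P x - F x) = fun x => P x + (-1) * F x := by funext x; ring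
    rw [e1, wm_add D sp ℓ hwP (WI_smul D sp ℓ hwF (-1)) Ψ hΨ, wm_smul]
    ring
  have hgnb : wm D g Ψ ≤ wm D (nb y (2 * r)) Ψ := by
    refine wm_mono D sp ℓ hwg hwnb Ψ hΨ (Filter.Eventually.of_forall fun x => ?_)
    rw [hg]
    unfold nb
    exact Finset.sum_le_sum fun i _ => hWnb _
  have hnb0 : 0 ≤ wm D (nb y (2 * r)) Ψ := by
    unfold wm
    refine Finset.sum_nonneg fun τ _ => integral_nonneg fun x => mul_nonneg ?_ (sq_nonneg _)
    unfold nb
    exact Finset.sum_nonneg fun i _ => by split_ifs <;> norm_num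
  rw [hPF]
  rw [hkin2] at hU
  have hr2 : r ^ 2 ≤ 1 := pow_le_one₀ hr.le hr1
  have hC3r : C3 ≤ C3 / r ^ 2 := by
    rw [le_div_iff₀ (by positivity)]
    exact mul_le_of_le_one_right hC30 hr2
  have h1 : C3 * wm D g Ψ ≤ C3 / r ^ 2 * wm D (nb y (2 * r)) Ψ :=
    mul_le_mul hC3r hgnb (by
      unfold wm
      exact Finset.sum_nonneg fun τ _ => integral_nonneg fun x =>
        mul_nonneg (hg0 x) (sq_nonneg _)) (by positivity)
  have h2 : 0 ≤ C3 * (1 + (Fintype.card I : ℝ)) * η := by positivity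
  have e3 : (C3 + C2) / r ^ 2 * wm D (nb y (2 * r)) Ψ =
      C3 / r ^ 2 * wm D (nb y (2 * r)) Ψ + C2 / r ^ 2 * wm D (nb y (2 * r)) Ψ := by
    rw [add_div, add_mul]
  have e4 : (C3 + C2) * (1 + (Fintype.card I : ℝ)) * η = C3 * (1 + (Fintype.card I : ℝ)) * η +
      C2 * (1 + (Fintype.card I : ℝ)) * η := by ring
  rw [e3, e4]
  linarith

end Pool.Agent.Helper780_CP.RL2c
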