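import Pool.Agent.Helper780_CP.LLDefs2
import Pool.Agent.Helper780_CP.RTCI
import Pool.Agent.Helper780_CP.RC3
import Pool.Agent.Helper780_CP.RK1

set_option autoImplicit false

open MeasureTheory

namespace Pool.Agent.Helper780_CP.RQ9

open Pool.Agent.Helper780_CP
open Pool.Agent.Helper985.CP
open Pool.Agent.Helper780_CP.RTCI (tci)
open Pool.Agent.Helper780_CP.RC3 (near2_ball)
open Pool.Agent.Helper780_CP.RK1 (newt)

open Pool.Agent.Helper985.CP

theorem fluct_fd0 {g : E3 → ℝ} {U : Set E3} (hU : IsOpen U) (h : ∀ v ∈ U, g v = 0) :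
    ∀ v ∈ U, fderiv ℝ g v = 0 := by
  intro v hv
  have h1 : g =ᶠ[nhds v] fun _ => 0 := by
    filter_upwards [hU.mem_nhds hv] with w hw using h w hw
  rw [h1.fderiv_eq]
  simp

theorem fluct_lap0 {g : E3 → ℝ} {U : Set E3} (hU : IsOpen U) (h : ∀ v ∈ U, g v = 0) :
    ∀ v ∈ U, lap g v = 0 := by
  intro v hv
  unfold lap
  refine Finset.sum_eq_zero fun k _ => ?_
  have h2 : ∀ w ∈ U, fderiv ℝ g w (EuclideanSpace.single k (1 : ℝ)) = 0 := by
    intro w hw
    rw [fluct_fd0 hU h w hw]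
    rfl
  rw [fluct_fd0 hU h2 v hv]
  rfl

theorem fluct_lap_cont {g : E3 → ℝ} (h : ContDiff ℝ SM g) : Continuous (lap g) := by
  unfold lap
  refine continuous_finsetSum _ fun k _ => ?_
  have h1 : ContDiff ℝ SM (fun v => fderiv ℝ g v (EuclideanSpace.single k (1 : ℝ))) := by
    refine ContDiff.clm_apply ?_ contDiff_const
    exact h.fderiv_right (by simp [SM])
  exact (h1.continuous_fderiv (by simp [SM])).clm_apply continuous_const

theorem fluct_int0 (R : ℝ) :
    Integrable (fun y : E3 => (fun r : ℝ => if r ≤ R then 1 / r else 0) ‖y‖) := by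
  rw [integrable_fun_norm_addHaar (volume : Measure E3) (f := fun r : ℝ => if r ≤ R then 1 / r else 0)]
  have hdim : Module.finrank ℝ E3 = 3 := by simp
  rw [hdim]
  have hm : Measurable (fun y : ℝ => y ^ (3 - 1) • (if y ≤ R then 1 / y else 0)) := by
    refine Measurable.mul (f := fun y : ℝ => y ^ (3 - 1)) (g := fun y : ℝ => (if y ≤ R then 1 / y else 0)) (by fun_prop) ?_
    exact Measurable.ite measurableSet_Iic (by fun_prop) measurable_const
  have h2 : IntegrableOn (fun y : ℝ => (Set.Icc 0 R).indicator (fun _ => R) y) (Set.Ioi 0) := by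
    apply Integrable.integrableOn
    rw [integrable_indicator_iff measurableSet_Icc]
    exact (continuous_const).integrableOn_Icc
  refine Integrable.mono' h2 hm.aestronglyMeasurable ?_
  rw [ae_restrict_iff' measurableSet_Ioi]
  refine Filter.Eventually.of_forall (fun y hy => ?_)
  have hy0 : 0 < y := hy
  by_cases hyR : y ≤ R
  · rw [if_pos hyR, Set.indicator_of_mem (show y ∈ Set.Icc 0 R from ⟨hy0.le, hyR⟩)]
    have : y ^ (3 - 1) • (1 / y) = y := by
      simp only [smul_eq_mul]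
      field_simp
    rw [this, Real.norm_eq_abs, abs_of_pos hy0]
    exact hyR
  · rw [if_neg hyR, Set.indicator_of_notMem (fun h => hyR h.2)]
    simp

theorem fluct_Tint {T : E3 → ℝ} (hT : Continuous T) {M : ℝ} (hM : ∀ w, |T w| ≤ M) {y : E3}
    {R0 : ℝ} (hs : ∀ w, R0 < ‖w - y‖ → T w = 0) (z : E3) :
    Integrable (fun w => T w * (1 / ‖z - w‖)) := by
  have h1 := ((fluct_int0 (‖z - y‖ + R0)).comp_sub_right z).const_mul M
  refine Integrable.mono' h1 ?_ (Filter.Eventually.of_forall fun w => ?_)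
  · exact (hT.measurable.mul (by fun_prop)).aestronglyMeasurable
  · have hM0 : 0 ≤ M := (abs_nonneg _).trans (hM w)
    have e1 : ‖z - w‖ = ‖w - z‖ := norm_sub_rev _ _
    rw [Real.norm_eq_abs, abs_mul, e1, abs_of_nonneg (by positivity : 0 ≤ 1 / ‖w - z‖)]
    simp only
    by_cases h : R0 < ‖w - y‖
    · rw [hs w h, abs_zero, zero_mul]
      refine mul_nonneg hM0 ?_
      split_ifs <;> positivity
    · rw [if_pos]
      · exact mul_le_mul_of_nonneg_right (hM w) (by positivity)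
      · have : w - z = (w - y) - (z - y) := by abel
        rw [this]
        refine (norm_sub_le _ _).trans ?_
        linarith [not_lt.1 h]

theorem fluct_Tint0 {T : E3 → ℝ} (hT : Continuous T) {y : E3}
    {R0 : ℝ} (hs : ∀ w, R0 < ‖w - y‖ → T w = 0) : Integrable T := by
  refine hT.integrable_of_hasCompactSupport ?_
  refine HasCompactSupport.intro (isCompact_closedBall y R0) fun w hw => hs w ?_
  rw [Metric.mem_closedBall, dist_eq_norm] at hw
  exact not_le.1 hw

theorem fluct_rep {S : Type} (D : Species S) {I : Type} [Fintype I] (sp : I → S)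
    {t T : E3 → ℝ} (hT : Continuous T) {M : ℝ} (hM : ∀ w, |T w| ≤ M) {y : E3}
    {R0 : ℝ} (hs : ∀ w, R0 < ‖w - y‖ → T w = 0)
    (hrep : ∀ z, t z = ∫ w, T w * (1 / ‖z - w‖)) (h0 : ∫ w, T w = 0) (b : ℝ) (x : I → E3) :
    ∫ w in Metric.closedBall y R0, T w * (phi D sp w x - b) = ∑ i, D.charge (sp i) * t (x i) := by
  rw [setIntegral_eq_integral_of_forall_compl_eq_zero]
  · have h1 : ∀ w, T w * (phi D sp w x - b) =
        (∑ i, D.charge (sp i) * (T w * (1 / ‖x i - w‖))) - b * T w := by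
      intro w
      unfold phi
      rw [mul_sub, Finset.mul_sum]
      congr 1
      · refine Finset.sum_congr rfl fun i _ => by ring
      · ring
    simp_rw [h1]
    rw [integral_sub, integral_finsetSum, integral_const_mul, h0, mul_zero, sub_zero]
    · refine Finset.sum_congr rfl fun i _ => ?_
      rw [integral_const_mul, hrep]
    · intro i _
      exact (fluct_Tint hT hM hs (x i)).const_mul _
    · exact integrable_finsetSum _ fun i _ => (fluct_Tint hT hM hs (x i)).const_mul _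
    · exact (fluct_Tint0 hT hs).const_mul _
  · intro w hw
    rw [Metric.mem_closedBall, dist_eq_norm, not_le] at hw
    rw [hs w hw, zero_mul]

/-- the charge functional -/
noncomputable def fluct_q {S : Type} (D : Species S) {I : Type} [Fintype I] (sp : I → S)
    (t : E3 → ℝ) (x : I → E3) : ℝ := ∑ i, D.charge (sp i) * t (x i)

theorem fluct_q_cd {S : Type} (D : Species S) {I : Type} [Fintype I] (sp : I → S)
    {t : E3 → ℝ} (ht : ContDiff ℝ SM t) : ContDiff ℝ SM (fluct_q D sp t) := by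
  unfold fluct_q
  refine ContDiff.sum fun i _ => ?_
  exact contDiff_const.mul (ht.comp (contDiff_apply ℝ E3 i))

theorem fluct_q_fd {S : Type} (D : Species S) {I : Type} [Fintype I] [DecidableEq I] (sp : I → S)
    {t : E3 → ℝ} (ht : ContDiff ℝ SM t) (x : I → E3) (i : I) (v : E3) :
    fderiv ℝ (fluct_q D sp t) x (Pi.single i v) = D.charge (sp i) * fderiv ℝ t (x i) v := by
  have hd : Differentiable ℝ t := ht.differentiable (by simp [SM])
  have h1 : ∀ j : I, HasFDerivAt (fun x : I → E3 => D.charge (sp j) * t (x j))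
      (D.charge (sp j) • (fderiv ℝ t (x j)).comp
        (ContinuousLinearMap.proj (R := ℝ) (φ := fun _ : I => E3) j)) x := by
    intro j
    have h2 : HasFDerivAt (fun x : I → E3 => x j)
      (ContinuousLinearMap.proj (R := ℝ) (φ := fun _ : I => E3) j) x :=
      (ContinuousLinearMap.proj (R := ℝ) (φ := fun _ : I => E3) j).hasFDerivAt
    exact ((hd (x j)).hasFDerivAt.comp x h2).const_mul _
  have h3 : HasFDerivAt (fluct_q D sp t) (∑ j : I, (D.charge (sp j) • (fderiv ℝ t (x j)).comp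
        (ContinuousLinearMap.proj (R := ℝ) (φ := fun _ : I => E3) j))) x := by
    unfold fluct_q
    exact HasFDerivAt.fun_sum fun j _ => h1 j
  rw [h3.fderiv, ContinuousLinearMap.sum_apply, Finset.sum_eq_single i]
  · simp
  · intro j _ hj
    simp [Pi.single_eq_of_ne hj]
  · intro h
    exact absurd (Finset.mem_univ _) h

theorem fluct_q_sy {S : Type} (D : Species S) {I : Type} [Fintype I] [DecidableEq I] (sp : I → S)
    (t : E3 → ℝ) : Sy sp (fluct_q D sp t) := by
  intro i j x hij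
  unfold fluct_q
  refine Fintype.sum_equiv (Equiv.swap i j) _ _ fun k => ?_
  have : sp (Equiv.swap i j k) = sp k := by
    rcases eq_or_ne k i with rfl | hki
    · rw [Equiv.swap_apply_left, hij]
    rcases eq_or_ne k j with rfl | hkj
    · rw [Equiv.swap_apply_right, hij]
    · rw [Equiv.swap_apply_of_ne_of_ne hki hkj]
  rw [this]

/-- the trial functions -/
noncomputable def fluct_f {S : Type} (D : Species S) {I : Type} [Fintype I] (sp : I → S)
    (t : E3 → ℝ) (a s : ℝ) (x : I → E3) : ℝ :=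
  a * Real.exp (s * Real.arsinh (fluct_q D sp t x) / 2)

theorem fluct_f_cd {S : Type} (D : Species S) {I : Type} [Fintype I] (sp : I → S)
    {t : E3 → ℝ} (ht : ContDiff ℝ SM t) (a s : ℝ) : ContDiff ℝ SM (fluct_f D sp t a s) := by
  unfold fluct_f
  refine contDiff_const.mul (Real.contDiff_exp.comp ?_)
  exact (contDiff_const.mul (Real.contDiff_arsinh.comp (fluct_q_cd D sp ht))).div_const _

theorem fluct_f_sy {S : Type} (D : Species S) {I : Type} [Fintype I] [DecidableEq I] (sp : I → S)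
    (t : E3 → ℝ) (a s : ℝ) : Sy sp (fluct_f D sp t a s) := by
  intro i j x hij
  unfold fluct_f
  rw [fluct_q_sy D sp t i j x hij]

theorem fluct_f_sq {S : Type} (D : Species S) {I : Type} [Fintype I] (sp : I → S)
    (t : E3 → ℝ) (a s : ℝ) (x : I → E3) : fluct_f D sp t a s x ^ 2 =
      a ^ 2 * Real.exp (s * Real.arsinh (fluct_q D sp t x)) := by
  unfold fluct_f
  rw [mul_pow, ← Real.exp_nat_mul]
  congr 2
  push_cast
  ring

theorem fluct_exp_le (q : ℝ) (s : ℝ) (hs : s = 1 ∨ s = -1) :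
    Real.exp (s * Real.arsinh q) ≤ 2 * √(1 + q ^ 2) := by
  rw [← Real.cosh_arsinh, Real.cosh_eq]
  have h1 := Real.exp_pos (Real.arsinh q)
  have h2 := Real.exp_pos (-Real.arsinh q)
  rcases hs with rfl | rfl
  · rw [one_mul]; linarith
  · rw [neg_one_mul]; linarith

theorem fluct_sqrt_le (q : ℝ) : √(1 + q ^ 2) ≤ 1 + |q| := by
  rw [Real.sqrt_le_left (by positivity)]
  have := sq_abs q
  nlinarith [abs_nonneg q]

theorem fluct_gr_f {S : Type} (D : Species S) {I : Type} [Fintype I] [DecidableEq I] (sp : I → S)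
    {t : E3 → ℝ} (ht : ContDiff ℝ SM t) (a s : ℝ) (hs : s = 1 ∨ s = -1) {z A : ℝ}
    (hch : ∀ s, |D.charge s| ≤ z) {y : E3} {R0 : ℝ} (hsupp : ∀ v, R0 < ‖v - y‖ → t v = 0)
    (hdt : ∀ v, ‖fderiv ℝ t v‖ ≤ A) (x : I → E3) :
    gr (fluct_f D sp t a s) x ≤ a ^ 2 * (2 * (z ^ 2 * A ^ 2 * nb y R0 x)) := by
  have hA0 : 0 ≤ A := (norm_nonneg _).trans (hdt 0)
  have hd : DifferentiableAt ℝ (fluct_q D sp t) x :=
    (fluct_q_cd D sp ht).differentiable (by simp [SM]) x
  obtain ⟨κ, hκ⟩ : ∃ κ : ℝ, κ = a * (Real.exp (s * Real.arsinh (fluct_q D sp t x) / 2) *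
    (s * (√(1 + fluct_q D sp t x ^ 2))⁻¹ / 2)) := ⟨_, rfl⟩
  have h1 : HasFDerivAt (fluct_f D sp t a s) (κ • fderiv ℝ (fluct_q D sp t) x) x := by
    have h2 : HasDerivAt (fun u : ℝ => a * Real.exp (s * Real.arsinh u / 2)) κ
        (fluct_q D sp t x) := by
      rw [hκ]
      exact (((((Real.hasDerivAt_arsinh _).const_mul s).div_const 2).exp).const_mul a)
    exact h2.comp_hasFDerivAt x hd.hasFDerivAt
  have hκ2 : κ ^ 2 ≤ a ^ 2 / 2 := by
    have hsq : 1 ≤ √(1 + fluct_q D sp t x ^ 2) := by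
      rw [Real.one_le_sqrt]; nlinarith [sq_nonneg (fluct_q D sp t x)]
    have hs2 : s ^ 2 = 1 := by rcases hs with rfl | rfl <;> norm_num
    have e1 : κ ^ 2 = a ^ 2 * (Real.exp (s * Real.arsinh (fluct_q D sp t x)) *
        ((√(1 + fluct_q D sp t x ^ 2))⁻¹ ^ 2 / 4)) := by
      rw [hκ]
      have e2 : Real.exp (s * Real.arsinh (fluct_q D sp t x)) =
          Real.exp (s * Real.arsinh (fluct_q D sp t x) / 2) ^ 2 := by
        rw [← Real.exp_nat_mul]
        congr 1
        push_cast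
        ring
      rw [e2]
      linear_combination (a ^ 2 * (Real.exp (s * Real.arsinh (fluct_q D sp t x) / 2) ^ 2 *
        ((√(1 + fluct_q D sp t x ^ 2))⁻¹ ^ 2 / 4))) * hs2
    rw [e1]
    have e3 := fluct_exp_le (fluct_q D sp t x) s hs
    have e4 : Real.exp (s * Real.arsinh (fluct_q D sp t x)) *
        ((√(1 + fluct_q D sp t x ^ 2))⁻¹ ^ 2 / 4) ≤ 1 / 2 := by
      calc _ ≤ (2 * √(1 + fluct_q D sp t x ^ 2)) * ((√(1 + fluct_q D sp t x ^ 2))⁻¹ ^ 2 / 4) :=
            mul_le_mul_of_nonneg_right e3 (by positivity)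
        _ = (√(1 + fluct_q D sp t x ^ 2))⁻¹ / 2 := by
            field_simp
            ring
        _ ≤ 1 / 2 := by
            have := inv_le_one_of_one_le₀ hsq
            linarith
    nlinarith [sq_nonneg a]
  unfold gr nb
  rw [h1.fderiv]
  have h3 : ∀ i : I, ∑ k : Fin 3, ((κ • fderiv ℝ (fluct_q D sp t) x)
      (Pi.single i (EuclideanSpace.single k (1 : ℝ)))) ^ 2 ≤
      a ^ 2 / 2 * (3 * (z ^ 2 * A ^ 2 * (if ‖x i - y‖ ≤ R0 then 1 else 0))) := by
    intro i
    by_cases hx : ‖x i - y‖ ≤ R0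
    · rw [if_pos hx]
      have h4 : ∀ k : Fin 3, ((κ • fderiv ℝ (fluct_q D sp t) x)
          (Pi.single i (EuclideanSpace.single k (1 : ℝ)))) ^ 2 ≤ a ^ 2 / 2 * (z ^ 2 * A ^ 2) := by
        intro k
        rw [ContinuousLinearMap.smul_apply, fluct_q_fd D sp ht, smul_eq_mul, mul_pow, mul_pow]
        have h5 : |fderiv ℝ t (x i) (EuclideanSpace.single k (1 : ℝ))| ≤ A := by
          have := (fderiv ℝ t (x i)).le_opNorm (EuclideanSpace.single k (1 : ℝ))
          rw [Real.norm_eq_abs] at this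
          simp only [EuclideanSpace.norm_single, norm_one, mul_one] at this
          exact this.trans (hdt _)
        have h6 : (fderiv ℝ t (x i) (EuclideanSpace.single k (1 : ℝ))) ^ 2 ≤ A ^ 2 := by
          rw [← sq_abs]; gcongr
        have h7 : (D.charge (sp i)) ^ 2 ≤ z ^ 2 := by
          rw [← sq_abs]; gcongr; exact hch _
        gcongr
      calc _ ≤ ∑ _k : Fin 3, a ^ 2 / 2 * (z ^ 2 * A ^ 2) := Finset.sum_le_sum fun k _ => h4 k
        _ = _ := by simp; ring
    · rw [if_neg hx]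
      have hU : IsOpen {v : E3 | R0 < ‖v - y‖} := isOpen_lt continuous_const (by fun_prop)
      have h4 : fderiv ℝ t (x i) = 0 := fluct_fd0 hU (fun v hv => hsupp v hv) (x i)
        (not_le.1 hx)
      have h5 : ∀ k : Fin 3, ((κ • fderiv ℝ (fluct_q D sp t) x)
          (Pi.single i (EuclideanSpace.single k (1 : ℝ)))) ^ 2 = 0 := by
        intro k
        rw [ContinuousLinearMap.smul_apply, fluct_q_fd D sp ht, h4]
        simp
      rw [Finset.sum_congr rfl fun k _ => h5 k]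
      simp
  refine (Finset.sum_le_sum fun i _ => h3 i).trans ?_
  rw [← Finset.mul_sum, ← Finset.mul_sum, ← Finset.mul_sum]
  have h8 : 0 ≤ a ^ 2 * (z ^ 2 * A ^ 2 * ∑ i : I, (if ‖x i - y‖ ≤ R0 then (1 : ℝ) else 0)) := by
    refine mul_nonneg (sq_nonneg a) (mul_nonneg (by positivity) (Finset.sum_nonneg fun i _ => ?_))
    split_ifs <;> norm_num
  nlinarith [h8]

theorem fluct_nb_nonneg {I : Type} [Fintype I] (y : E3) (R : ℝ) (x : I → E3) : 0 ≤ nb y R x := by
  unfold nb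
  refine Finset.sum_nonneg fun i _ => ?_
  split_ifs <;> norm_num

theorem fluct_nb_mono {I : Type} [Fintype I] (y : E3) {R R' : ℝ} (h : R ≤ R') (x : I → E3) :
    nb y R x ≤ nb y R' x := by
  unfold nb
  refine Finset.sum_le_sum fun i _ => ?_
  by_cases h1 : ‖x i - y‖ ≤ R
  · rw [if_pos h1, if_pos (h1.trans h)]
  · rw [if_neg h1]
    split_ifs <;> norm_num

theorem fluct_nb_card {I : Type} [Fintype I] (y : E3) (R : ℝ) (x : I → E3) :
    ((Finset.univ.filter (fun i => ‖x i - y‖ ≤ R)).card : ℝ) = nb y R x := by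
  unfold nb
  rw [Finset.sum_boole]

theorem fluct_nb_le {I : Type} [Fintype I] (y : E3) (R : ℝ) (x : I → E3) :
    nb y R x ≤ Fintype.card I := by
  rw [← fluct_nb_card]
  exact_mod_cast Finset.card_le_univ _

theorem fluct_nb_meas {I : Type} [Fintype I] (y : E3) (R : ℝ) :
    Measurable (fun x : I → E3 => nb y R x) := by
  unfold nb
  refine Finset.measurable_fun_sum _ fun i _ => ?_
  refine Measurable.ite ?_ measurable_const measurable_const
  exact measurableSet_le (by fun_prop) measurable_const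

theorem fluct_nb_le_pow {I : Type} [Fintype I] (y : E3) (R : ℝ) (x : I → E3) :
    nb y R x ≤ 1 + nb y R x ^ ((4 : ℝ) / 3) := by
  have h0 := fluct_nb_nonneg y R x
  rcases le_total (nb y R x) 1 with h | h
  · have := Real.rpow_nonneg h0 ((4 : ℝ) / 3)
    linarith
  · have := Real.rpow_le_rpow_of_exponent_le h (by norm_num : (1 : ℝ) ≤ 4 / 3)
    rw [Real.rpow_one] at this
    linarith

theorem fluct_near_nonneg {I : Type} (w : E3) (x : I → E3) : 0 ≤ near2 w x := by
  unfold near2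
  exact Real.iSup_nonneg fun i => by positivity

theorem fluct_vol (y : E3) {r : ℝ} (hr : 0 < r) :
    (volume (Metric.closedBall y (3 * r))).toReal =
      27 * r ^ 3 * (volume (Metric.ball (0 : E3) 1)).toReal := by
  rw [Measure.addHaar_closedBall _ _ (by positivity), ENNReal.toReal_mul, ENNReal.toReal_ofReal
    (by positivity)]
  have hdim : Module.finrank ℝ E3 = 3 := by simp
  rw [hdim]
  ring

theorem fluct_pt {I : Type} [Fintype I] {c2 : ℝ}
    (hc2 : ∀ (x : I → E3) (v : E3) (R : ℝ),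
    0 < R → IntegrableOn (fun w => near2 w x) (Metric.ball v R) ∧
      ∫ w in Metric.ball v R, near2 w x ≤
        c2 * R * (1 + ((Finset.univ.filter (fun i => ‖x i - v‖ ≤ 2 * R)).card : ℝ) ^ ((2 : ℝ) / 3)))
    {T : E3 → ℝ} {M : ℝ} (hM : ∀ w, |T w| ≤ M) {y : E3} {r : ℝ}
    (hr : 0 < r) (x : I → E3) {p k : ℝ} (hp : 0 ≤ p) (hk : 0 ≤ k) :
    0 ≤ (∫ w in Metric.closedBall y (3 * r), (|T w| * p * (1 + near2 w x) + k * |T w| * nb y (3 * r) x)) ∧
    (∫ w in Metric.closedBall y (3 * r), (|T w| * p * (1 + near2 w x) + k * |T w| * nb y (3 * r) x)) ≤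
      M * (p * (27 * r ^ 3 * (volume (Metric.ball (0 : E3) 1)).toReal +
        c2 * (4 * r) * (1 + nb y (8 * r) x ^ ((2 : ℝ) / 3))) +
        k * nb y (8 * r) x * (27 * r ^ 3 * (volume (Metric.ball (0 : E3) 1)).toReal)) := by
  have hM0 : 0 ≤ M := (abs_nonneg _).trans (hM 0)
  obtain ⟨h1, h2⟩ := hc2 x y (4 * r) (by positivity)
  rw [fluct_nb_card, show 2 * (4 * r) = 8 * r by ring] at h2
  have hsub : Metric.closedBall y (3 * r) ⊆ Metric.ball y (4 * r) :=
    Metric.closedBall_subset_ball (by linarith)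
  have h3 : IntegrableOn (fun w => near2 w x) (Metric.closedBall y (3 * r)) := h1.mono_set hsub
  have hfin : volume (Metric.closedBall y (3 * r)) ≠ ⊤ := measure_closedBall_lt_top.ne
  have h4 : ∫ w in Metric.closedBall y (3 * r), near2 w x ≤
      ∫ w in Metric.ball y (4 * r), near2 w x :=
    setIntegral_mono_set h1 (Filter.Eventually.of_forall fun w => fluct_near_nonneg w x)
      (HasSubset.Subset.eventuallyLE hsub)
  have hn3 := fluct_nb_nonneg y (3 * r) x
  constructor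
  · refine integral_nonneg fun w => ?_
    have := fluct_near_nonneg w x
    positivity
  · have h5 : IntegrableOn (fun w => M * (p * (1 + near2 w x)) + k * M * nb y (3 * r) x)
        (Metric.closedBall y (3 * r)) := by
      have hc : ∀ a : ℝ, IntegrableOn (fun _ : E3 => a) (Metric.closedBall y (3 * r)) :=
        fun a => integrableOn_const hfin
      exact ((((hc 1).add h3).const_mul p).const_mul M).add (hc _)
    have h6 : (∫ w in Metric.closedBall y (3 * r),
        (|T w| * p * (1 + near2 w x) + k * |T w| * nb y (3 * r) x)) ≤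
        ∫ w in Metric.closedBall y (3 * r), (M * (p * (1 + near2 w x)) + k * M * nb y (3 * r) x) := by
      refine integral_mono_of_nonneg (Filter.Eventually.of_forall fun w => ?_) h5
        (Filter.Eventually.of_forall fun w => ?_)
      · have := fluct_near_nonneg w x
        simp only [Pi.zero_apply]
        positivity
      · have h7 := fluct_near_nonneg w x
        have h8 := hM w
        simp only
        have e1 : |T w| * p * (1 + near2 w x) ≤ M * (p * (1 + near2 w x)) := by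
          rw [mul_assoc]
          exact mul_le_mul_of_nonneg_right h8 (by positivity)
        have e2 : k * |T w| * nb y (3 * r) x ≤ k * M * nb y (3 * r) x := by gcongr
        linarith
    refine h6.trans ?_
    have h9 : ∫ w in Metric.closedBall y (3 * r),
        (M * (p * (1 + near2 w x)) + k * M * nb y (3 * r) x) =
        M * (p * (27 * r ^ 3 * (volume (Metric.ball (0 : E3) 1)).toReal +
          ∫ w in Metric.closedBall y (3 * r), near2 w x)) +
        k * M * nb y (3 * r) x * (27 * r ^ 3 * (volume (Metric.ball (0 : E3) 1)).toReal) := by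
      have hc : ∀ a : ℝ, IntegrableOn (fun _ : E3 => a) (Metric.closedBall y (3 * r)) :=
        fun a => integrableOn_const hfin
      have i1 : IntegrableOn (fun w => 1 + near2 w x) (Metric.closedBall y (3 * r)) :=
        (hc 1).add h3
      have i2 : IntegrableOn (fun w => M * (p * (1 + near2 w x)))
        (Metric.closedBall y (3 * r)) := (i1.const_mul p).const_mul M
      have e3 : ∫ w in Metric.closedBall y (3 * r), (1 + near2 w x) =
          (volume (Metric.closedBall y (3 * r))).toReal +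
          ∫ w in Metric.closedBall y (3 * r), near2 w x := by
        rw [integral_add (hc 1) h3, setIntegral_const]
        simp [Measure.real]
      rw [integral_add i2 (hc _), integral_const_mul, integral_const_mul, e3,
        setIntegral_const, ← fluct_vol y hr]
      simp only [smul_eq_mul, Measure.real]
      ring
    rw [h9]
    have hV : 0 ≤ (volume (Metric.ball (0 : E3) 1)).toReal := ENNReal.toReal_nonneg
    have h10 := h4.trans h2
    have h11 : nb y (3 * r) x ≤ nb y (8 * r) x := fluct_nb_mono y (by linarith) x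
    have h12 : M * (p * (27 * r ^ 3 * (volume (Metric.ball (0 : E3) 1)).toReal +
          ∫ w in Metric.closedBall y (3 * r), near2 w x)) ≤
        M * (p * (27 * r ^ 3 * (volume (Metric.ball (0 : E3) 1)).toReal +
          c2 * (4 * r) * (1 + nb y (8 * r) x ^ ((2 : ℝ) / 3)))) := by
      refine mul_le_mul_of_nonneg_left (mul_le_mul_of_nonneg_left ?_ hp) hM0
      linarith
    have h13 : k * M * nb y (3 * r) x * (27 * r ^ 3 * (volume (Metric.ball (0 : E3) 1)).toReal) ≤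
        k * M * nb y (8 * r) x * (27 * r ^ 3 * (volume (Metric.ball (0 : E3) 1)).toReal) := by
      gcongr
    linarith [h12, h13]

theorem fluct_int {S : Type} (D : Species S) {I : Type} [Fintype I] [DecidableEq I]
    (sp : I → S) (ℓ : ℝ) (Ψ : Wave D I) (hΨ : IsState D sp ℓ Ψ) (τ : I → Fin D.g)
    {W : (I → E3) → ℝ} (hW : Measurable W) {M : ℝ} (hM : ∀ x, |W x| ≤ M) :
    Integrable (fun x => W x * ‖Ψ τ x‖ ^ 2) := by
  have h1 := (int_state D sp ℓ Ψ hΨ τ).1
  refine Integrable.mono' (h1.const_mul M) (hW.aestronglyMeasurable.mul h1.aestronglyMeasurable)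
    (Filter.Eventually.of_forall fun x => ?_)
  rw [Real.norm_eq_abs, abs_mul, abs_of_nonneg (by positivity : 0 ≤ ‖Ψ τ x‖ ^ 2)]
  exact mul_le_mul_of_nonneg_right (hM x) (by positivity)

theorem fluct_wm_mono {S : Type} (D : Species S) {I : Type} [Fintype I] [DecidableEq I]
    (sp : I → S) (ℓ : ℝ) (Ψ : Wave D I) (hΨ : IsState D sp ℓ Ψ)
    {W1 W2 : (I → E3) → ℝ} (h0 : ∀ x, 0 ≤ W1 x) (h : ∀ x, W1 x ≤ W2 x) (hW : Measurable W2)
    {M : ℝ} (hM : ∀ x, |W2 x| ≤ M) : wm D W1 Ψ ≤ wm D W2 Ψ := by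
  unfold wm
  refine Finset.sum_le_sum fun τ _ => ?_
  refine integral_mono_of_nonneg (Filter.Eventually.of_forall fun x => ?_)
    (fluct_int D sp ℓ Ψ hΨ τ hW hM) (Filter.Eventually.of_forall fun x => ?_)
  · exact mul_nonneg (h0 x) (by positivity)
  · exact mul_le_mul_of_nonneg_right (h x) (by positivity)

theorem fluct_wm_nonneg {S : Type} (D : Species S) {I : Type} [Fintype I] [DecidableEq I]
    (Ψ : Wave D I) {W : (I → E3) → ℝ} (h0 : ∀ x, 0 ≤ W x) : 0 ≤ wm D W Ψ := by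
  unfold wm
  exact Finset.sum_nonneg fun τ _ => integral_nonneg fun x => mul_nonneg (h0 x) (by positivity)

theorem fluct_wm_lin {S : Type} (D : Species S) {I : Type} [Fintype I] [DecidableEq I]
    (sp : I → S) (ℓ : ℝ) (Ψ : Wave D I) (hΨ : IsState D sp ℓ Ψ) (hn : nrm2 D Ψ = 1)
    {W1 W2 : (I → E3) → ℝ} (hW1 : Measurable W1) (hW2 : Measurable W2)
    {M1 M2 : ℝ} (hM1 : ∀ x, |W1 x| ≤ M1) (hM2 : ∀ x, |W2 x| ≤ M2) (a b : ℝ) :
    wm D (fun x => a * W1 x + b * (1 + W2 x)) Ψ = a * wm D W1 Ψ + b * (1 + wm D W2 Ψ) := by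
  have hn' : a * wm D W1 Ψ + b * (1 + wm D W2 Ψ) = a * wm D W1 Ψ + b * (nrm2 D Ψ + wm D W2 Ψ) := by
    rw [hn]
  rw [hn']
  unfold nrm2 wm
  rw [← Finset.sum_add_distrib, Finset.mul_sum, Finset.mul_sum, ← Finset.sum_add_distrib]
  refine Finset.sum_congr rfl fun τ _ => ?_
  have h1 := fluct_int D sp ℓ Ψ hΨ τ hW1 hM1
  have h2 := fluct_int D sp ℓ Ψ hΨ τ hW2 hM2
  have h3 := (int_state D sp ℓ Ψ hΨ τ).1
  have e : ∀ x, (a * W1 x + b * (1 + W2 x)) * ‖Ψ τ x‖ ^ 2 =
      a * (W1 x * ‖Ψ τ x‖ ^ 2) + b * (‖Ψ τ x‖ ^ 2 + W2 x * ‖Ψ τ x‖ ^ 2) := fun x => by ring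
  simp_rw [e]
  have h4 : Integrable (fun x => ‖Ψ τ x‖ ^ 2 + W2 x * ‖Ψ τ x‖ ^ 2) := h3.add h2
  rw [integral_add (h1.const_mul a) (h4.const_mul b), integral_const_mul,
    integral_const_mul, integral_add h3 h2]

/-- the algebra at the end -/
theorem fluct_alg {C L M V z A c r q n c2 : ℝ} (hC : 0 ≤ C) (hc : 0 < c) (hA : 1 ≤ A)
    (hr : 0 < r) (hr1 : r ≤ 1) (hV : 0 ≤ V) (hc2 : 0 < c2) (hL : L = 27 * V + 4 * c2)
    (hM : M = A / c) (hn : 0 ≤ n) (hn1 : n ≤ 1 + n ^ ((4 : ℝ) / 3)) :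
    C / r ^ 2 * (M * ((1 + |q|) * (27 * r ^ 3 * V +
        c2 * (4 * r) * (1 + n ^ ((2 : ℝ) / 3))) +
        2 * (z ^ 2 * A ^ 2) * n * (27 * r ^ 3 * V))) ≤
      1 / 2 * q ^ 2 + (((C * L / c) ^ 2 + 2 * (C * L / c) + 54 * (C * z ^ 2 * V) / c) *
        (A ^ 3 / r ^ 4)) * (1 + n ^ ((4 : ℝ) / 3)) := by
  obtain ⟨s, hs⟩ : ∃ s : ℝ, s = n ^ ((2 : ℝ) / 3) := ⟨_, rfl⟩
  have hs0 : 0 ≤ s := by rw [hs]; exact Real.rpow_nonneg hn _
  have hs2 : n ^ ((4 : ℝ) / 3) = s ^ 2 := by
    rw [hs, ← Real.rpow_natCast, ← Real.rpow_mul hn]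
    norm_num
  rw [hs2] at hn1 ⊢
  rw [← hs]
  have hr3 : r ^ 3 ≤ r := by
    have : r ^ 2 ≤ 1 := pow_le_one₀ hr.le hr1
    nlinarith
  have hM0 : 0 < M := by rw [hM]; positivity
  have hL0 : 0 < L := by rw [hL]; positivity
  obtain ⟨β, hβ⟩ : ∃ β : ℝ, β = C * L / c * (A / r) := ⟨_, rfl⟩
  have hβ0 : 0 ≤ β := by rw [hβ]; positivity
  have e1 : 27 * r ^ 3 * V + c2 * (4 * r) * (1 + s) ≤ L * r * (1 + s) := by
    rw [hL]
    nlinarith [mul_nonneg hV (sub_nonneg.2 hr3), mul_nonneg (mul_nonneg hV hr.le) hs0]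
  have hq0 := abs_nonneg q
  have e2 : C / r ^ 2 * (M * ((1 + |q|) * (27 * r ^ 3 * V + c2 * (4 * r) * (1 + s)))) ≤
      β * (1 + |q|) * (1 + s) := by
    calc _ ≤ C / r ^ 2 * (M * ((1 + |q|) * (L * r * (1 + s)))) := by gcongr
      _ = β * (1 + |q|) * (1 + s) := by
        rw [hβ, hM]
        field_simp
  have e3 : β * (1 + |q|) * (1 + s) ≤ 1 / 2 * q ^ 2 + (β ^ 2 + 2 * β) * (1 + s ^ 2) := by
    have h1 := sq_abs q
    have h2 : β * |q| * (1 + s) ≤ 1 / 2 * |q| ^ 2 + 1 / 2 * (β * (1 + s)) ^ 2 := by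
      nlinarith [sq_nonneg (|q| - β * (1 + s))]
    have h3 : (1 + s) ^ 2 ≤ 2 * (1 + s ^ 2) := by nlinarith [sq_nonneg (s - 1)]
    have h4 : (1 + s) ≤ 2 * (1 + s ^ 2) := by nlinarith [sq_nonneg (s - 1)]
    have h5 : 1 / 2 * (β * (1 + s)) ^ 2 ≤ β ^ 2 * (1 + s ^ 2) := by
      rw [mul_pow]
      nlinarith [mul_le_mul_of_nonneg_left h3 (sq_nonneg β)]
    have h6 : β * (1 + s) ≤ 2 * β * (1 + s ^ 2) := by nlinarith
    nlinarith
  have hr4 : 0 < r ^ 4 := by positivity
  have hAr : 0 < A ^ 3 / r ^ 4 := by positivity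
  have g1 : A ^ 2 / r ^ 2 ≤ A ^ 3 / r ^ 4 := by
    have h1 : A ^ 2 ≤ A ^ 3 := pow_le_pow_right₀ hA (by norm_num)
    have h2 : r ^ 4 ≤ r ^ 2 := pow_le_pow_of_le_one hr.le hr1 (by norm_num)
    gcongr
  have g2 : A / r ≤ A ^ 3 / r ^ 4 := by
    have h1 : A ≤ A ^ 3 := by
      calc A = A ^ 1 := (pow_one A).symm
        _ ≤ A ^ 3 := pow_le_pow_right₀ hA (by norm_num)
    have h2 : r ^ 4 ≤ r := by
      calc r ^ 4 ≤ r ^ 1 := pow_le_pow_of_le_one hr.le hr1 (by norm_num)
        _ = r := pow_one r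
    gcongr
  have g3 : A ^ 3 * r ≤ A ^ 3 / r ^ 4 := by
    rw [le_div_iff₀ hr4]
    have h2 : r * r ^ 4 ≤ 1 := by
      calc r * r ^ 4 = r ^ 5 := by ring
        _ ≤ 1 := pow_le_one₀ hr.le hr1
    have hA3 : 0 ≤ A ^ 3 := by positivity
    nlinarith
  have e4 : β ^ 2 + 2 * β ≤ ((C * L / c) ^ 2 + 2 * (C * L / c)) * (A ^ 3 / r ^ 4) := by
    have h1 : β ^ 2 = (C * L / c) ^ 2 * (A ^ 2 / r ^ 2) := by rw [hβ]; ring
    rw [h1, hβ]
    have h2 : (C * L / c) ^ 2 * (A ^ 2 / r ^ 2) ≤ (C * L / c) ^ 2 * (A ^ 3 / r ^ 4) := by gcongr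
    have h3 : C * L / c * (A / r) ≤ C * L / c * (A ^ 3 / r ^ 4) := by gcongr
    linarith
  have e5 : C / r ^ 2 * (M * (2 * (z ^ 2 * A ^ 2) * n * (27 * r ^ 3 * V))) ≤
      54 * (C * z ^ 2 * V) / c * (A ^ 3 / r ^ 4) * (1 + s ^ 2) := by
    calc _ = 54 * (C * z ^ 2 * V) / c * (A ^ 3 * r) * n := by
          rw [hM]
          field_simp
          ring
      _ ≤ 54 * (C * z ^ 2 * V) / c * (A ^ 3 / r ^ 4) * (1 + s ^ 2) := by gcongr
  have e6 : (β ^ 2 + 2 * β) * (1 + s ^ 2) ≤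
      ((C * L / c) ^ 2 + 2 * (C * L / c)) * (A ^ 3 / r ^ 4) * (1 + s ^ 2) := by gcongr
  have e7 : C / r ^ 2 * (M * ((1 + |q|) * (27 * r ^ 3 * V + c2 * (4 * r) * (1 + s)) +
      2 * (z ^ 2 * A ^ 2) * n * (27 * r ^ 3 * V))) =
      C / r ^ 2 * (M * ((1 + |q|) * (27 * r ^ 3 * V + c2 * (4 * r) * (1 + s)))) +
      C / r ^ 2 * (M * (2 * (z ^ 2 * A ^ 2) * n * (27 * r ^ 3 * V))) := by ring
  rw [e7]
  linarith

theorem fluct_alg2 {C V z A c r N η : ℝ} (hC : 0 ≤ C) (hz : 0 ≤ z) (hc : 0 < c) (hA : 1 ≤ A)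
    (hr : 0 < r) (hr1 : r ≤ 1) (hV : 0 ≤ V) (hN : 0 ≤ N) (hη : 0 ≤ η) (hη1 : η * (1 + N) ≤ 1) :
    C / r ^ 2 * (2 * (A / c * (1 + z * N * A)) * η * (27 * r ^ 3 * V)) ≤
      54 * (C * V * (1 + z)) / c * (A ^ 3 / r ^ 4) := by
  have h1 : 1 + z * N * A ≤ (1 + z) * (1 + N) * A := by
    nlinarith [mul_nonneg hz (by linarith : (0:ℝ) ≤ A), mul_nonneg hN (by linarith : (0:ℝ) ≤ A),
      mul_nonneg (mul_nonneg hz hN) (by linarith : (0:ℝ) ≤ A)]
  have hA0 : 0 < A := by linarith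
  calc C / r ^ 2 * (2 * (A / c * (1 + z * N * A)) * η * (27 * r ^ 3 * V))
      ≤ C / r ^ 2 * (2 * (A / c * ((1 + z) * (1 + N) * A)) * η * (27 * r ^ 3 * V)) := by gcongr
    _ = 54 * (C * V * (1 + z)) / c * (A ^ 2 * r) * (η * (1 + N)) := by
        field_simp
        ring
    _ ≤ 54 * (C * V * (1 + z)) / c * (A ^ 2 * r) * 1 := by gcongr
    _ = 54 * (C * V * (1 + z)) / c * (A ^ 2 * r) := mul_one _
    _ ≤ 54 * (C * V * (1 + z)) / c * (A ^ 3 / r ^ 4) := by
        have g3 : A ^ 2 * r ≤ A ^ 3 / r ^ 4 := by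
          rw [le_div_iff₀ (by positivity)]
          have h2 : r * r ^ 4 ≤ 1 := by
            calc r * r ^ 4 = r ^ 5 := by ring
              _ ≤ 1 := pow_le_one₀ hr.le hr1
          have hA2 : 0 ≤ A ^ 2 := by positivity
          have hA3 : A ^ 2 ≤ A ^ 3 := pow_le_pow_right₀ hA (by norm_num)
          nlinarith
        gcongr

/-- TARGET (`C'` depends only on `z` and on the constant `C` of `FL`) -/
theorem fluct (z C : ℝ) (hz : 0 ≤ z) (hC : 0 ≤ C) : ∃ C' : ℝ, 0 < C' ∧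
    ∀ {S : Type} (D : Species S) {I : Type} [Fintype I] [DecidableEq I] (sp : I → S) (ℓ : ℝ)
      (pb : (I → E3) → ℝ), Continuous pb → (∀ s, |D.charge s| ≤ z) →
      ∀ (η : ℝ), 0 ≤ η → η * (1 + (Fintype.card I : ℝ)) ≤ 1 → ∀ Ψ : Wave D I, IsState D sp ℓ Ψ →
      nrm2 D Ψ = 1 → FL D sp ℓ pb C η Ψ →
      ∀ (y : E3) (r : ℝ), 0 < r → r ≤ 1 → Metric.closedBall y (4 * r) ⊆ cube ℓ →
      ∀ (t : E3 → ℝ) (A : ℝ), ContDiff ℝ SM t → 1 ≤ A → (∀ v, 3 * r < ‖v - y‖ → t v = 0) →
        (∀ v, |t v| ≤ A) → (∀ v, ‖fderiv ℝ t v‖ ≤ A) → (∀ v, |lap t v| ≤ A) →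
        wm D (fun x => (∑ i, D.charge (sp i) * t (x i)) ^ 2) Ψ ≤
          C' * A ^ 3 / r ^ 4 * (1 + wm D (fun x => nb y (8 * r) x ^ ((4 : ℝ) / 3)) Ψ) := by
  obtain ⟨c, hc, hnewt⟩ := newt
  obtain ⟨c2, hc2, hnear⟩ := near2_ball
  obtain ⟨V, hV⟩ : ∃ V : ℝ, V = (volume (Metric.ball (0 : E3) 1)).toReal := ⟨_, rfl⟩
  have hV0 : 0 ≤ V := by rw [hV]; exact ENNReal.toReal_nonneg
  obtain ⟨L, hL⟩ : ∃ L : ℝ, L = 27 * V + 4 * c2 := ⟨_, rfl⟩
  have hL0 : 0 < L := by rw [hL]; positivity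
  obtain ⟨K3, hK3⟩ : ∃ K3 : ℝ, K3 = (C * L / c) ^ 2 + 2 * (C * L / c) + 54 * (C * z ^ 2 * V) / c :=
    ⟨_, rfl⟩
  obtain ⟨K4, hK4⟩ : ∃ K4 : ℝ, K4 = 54 * (C * V * (1 + z)) / c := ⟨_, rfl⟩
  have hK30 : 0 ≤ K3 := by rw [hK3]; positivity
  have hK40 : 0 ≤ K4 := by rw [hK4]; positivity
  refine ⟨2 * (K3 + K4) + 1, by positivity, ?_⟩
  intro S D I _ _ sp ℓ pb hpb hch η hη hη1 Ψ hΨ hn hFL y r hr hr1 hcube t A ht hA hsupp htA hdt hlap
  have hA0 : 0 < A := by linarith
  -- the density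
  obtain ⟨T, hTdef⟩ : ∃ T : E3 → ℝ, T = fun w => -c⁻¹ * lap t w := ⟨_, rfl⟩
  have hTc : Continuous T := by rw [hTdef]; exact continuous_const.mul (fluct_lap_cont ht)
  have hU : IsOpen {v : E3 | 3 * r < ‖v - y‖} := isOpen_lt continuous_const (by fun_prop)
  have hTs : ∀ w, 3 * r < ‖w - y‖ → T w = 0 := by
    intro w hw
    rw [hTdef]
    simp only
    rw [fluct_lap0 hU (fun v hv => hsupp v hv) w hw, mul_zero]
  have hTM : ∀ w, |T w| ≤ A / c := by
    intro w
    rw [hTdef]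
    simp only
    rw [abs_mul, abs_neg, abs_of_pos (inv_pos.2 hc), div_eq_inv_mul]
    exact mul_le_mul_of_nonneg_left (hlap w) (inv_nonneg.2 hc.le)
  have hcs : HasCompactSupport t := by
    refine HasCompactSupport.intro (isCompact_closedBall y (3 * r)) fun w hw => hsupp w ?_
    rw [Metric.mem_closedBall, dist_eq_norm] at hw
    exact not_le.1 hw
  obtain ⟨hn1, hn2⟩ := hnewt t ht hcs
  have hrep : ∀ v, t v = ∫ w, T w * (1 / ‖v - w‖) := by
    intro v
    rw [hn1 v, ← integral_const_mul]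
    refine integral_congr_ae (Filter.Eventually.of_forall fun w => ?_)
    rw [hTdef]
    simp only
    rw [norm_sub_rev v w]
    ring
  have hT0 : ∫ w, T w = 0 := by
    rw [hTdef, integral_const_mul, hn2, mul_zero]
  -- the charge
  obtain ⟨q, hq⟩ : ∃ q : (I → E3) → ℝ, q = fluct_q D sp t := ⟨_, rfl⟩
  have hqc : Continuous q := by rw [hq]; exact (fluct_q_cd D sp ht).continuous
  have hqb : ∀ x, |q x| ≤ z * (Fintype.card I : ℝ) * A := by
    intro x
    rw [hq]
    unfold fluct_q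
    refine (Finset.abs_sum_le_sum_abs _ _).trans ?_
    calc ∑ i, |D.charge (sp i) * t (x i)| ≤ ∑ _i : I, z * A := by
          refine Finset.sum_le_sum fun i _ => ?_
          rw [abs_mul]
          exact mul_le_mul (hch _) (htA _) (abs_nonneg _) hz
      _ = z * (Fintype.card I : ℝ) * A := by simp; ring
  have hrep2 : ∀ x, ∫ w in Metric.closedBall y (3 * r), T w * (phi D sp w x - pb x) = q x := by
    intro x
    rw [fluct_rep D sp hTc hTM hTs hrep hT0 (pb x) x, hq]
    rfl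
  obtain ⟨B, hB⟩ : ∃ B : ℝ, B = √(A / c * (1 + z * (Fintype.card I : ℝ) * A)) := ⟨_, rfl⟩
  have hB2 : B ^ 2 = A / c * (1 + z * (Fintype.card I : ℝ) * A) := by
    rw [hB, Real.sq_sqrt]
    positivity
  have hmain := tci D sp ℓ pb hpb C η hC hη Ψ hΨ hn hFL r hr hr1 (Metric.closedBall y (3 * r))
    Metric.isClosed_closedBall.measurableSet
    ⟨‖y‖ + 3 * r, fun w hw => by
      rw [Metric.mem_closedBall, dist_eq_norm] at hw
      rw [mem_closedBall_zero_iff]
      have := norm_add_le (w - y) y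
      rw [sub_add_cancel] at this
      linarith⟩
    (fun w hw => by
      refine Set.Subset.trans (fun v hv => ?_) hcube
      rw [Metric.mem_closedBall] at hv hw ⊢
      have := dist_triangle v w y
      linarith)
    (fun x w => T w * q x) (fun x w => |T w| * (1 + |q x|))
    (fun x w => 2 * (z ^ 2 * A ^ 2) * |T w| * nb y (3 * r) x) B
    (A / c * (1 + z * (Fintype.card I : ℝ) * A) +
      2 * (z ^ 2 * A ^ 2) * (A / c) * (Fintype.card I : ℝ))
    (by
      exact (hTc.measurable.comp measurable_snd).mul (hqc.measurable.comp measurable_fst))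
    (by
      exact ((hTc.measurable.comp measurable_snd).abs).mul
        (measurable_const.add ((hqc.measurable.comp measurable_fst).abs)))
    (by
      exact (measurable_const.mul ((hTc.measurable.comp measurable_snd).abs)).mul
        ((fluct_nb_meas y (3 * r)).comp measurable_fst))
    (fun x w _ => by
      have h1 := hTM w
      have h2 := hqb x
      have h3 := fluct_nb_le y (3 * r) x
      have h4 := fluct_nb_nonneg y (3 * r) x
      have e1 : |T w| * (1 + |q x|) ≤ A / c * (1 + z * (Fintype.card I : ℝ) * A) := by gcongr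
      have e2 : 2 * (z ^ 2 * A ^ 2) * |T w| * nb y (3 * r) x ≤
        2 * (z ^ 2 * A ^ 2) * (A / c) * (Fintype.card I : ℝ) := by gcongr
      have e3 : 0 ≤ A / c * (1 + z * (Fintype.card I : ℝ) * A) := by positivity
      have e4 : 0 ≤ 2 * (z ^ 2 * A ^ 2) * (A / c) * (Fintype.card I : ℝ) := by positivity
      exact ⟨by linarith, by linarith⟩)
    (fun w _ => by
      -- trial functions
      obtain ⟨a, ha⟩ : ∃ a : ℝ, a = √(|T w| / 2) := ⟨_, rfl⟩
      have ha0 : 0 ≤ a := by rw [ha]; exact Real.sqrt_nonneg _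
      have ha2 : a ^ 2 = |T w| / 2 := by rw [ha, Real.sq_sqrt]; positivity
      obtain ⟨s, hs, hsT⟩ : ∃ s : ℝ, (s = 1 ∨ s = -1) ∧ |T w| * s = T w := by
        rcases le_total 0 (T w) with h | h
        · exact ⟨1, Or.inl rfl, by rw [abs_of_nonneg h, mul_one]⟩
        · exact ⟨-1, Or.inr rfl, by rw [abs_of_nonpos h]; ring⟩
      have hs' : -s = 1 ∨ -s = -1 := by
        rcases hs with h | h
        · exact Or.inr (by rw [h])
        · exact Or.inl (by rw [h]; norm_num)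
      have hcosh : ∀ x, Real.exp (s * Real.arsinh (fluct_q D sp t x)) +
          Real.exp (-s * Real.arsinh (fluct_q D sp t x)) = 2 * √(1 + q x ^ 2) := by
        intro x
        have h1 := Real.cosh_arsinh (q x)
        rw [Real.cosh_eq] at h1
        rw [← hq]
        rcases hs with h | h <;> rw [h] <;> simp only [one_mul, neg_mul, neg_neg] <;> linarith
      have hsinh : ∀ x, Real.exp (s * Real.arsinh (fluct_q D sp t x)) -
          Real.exp (-s * Real.arsinh (fluct_q D sp t x)) = 2 * s * q x := by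
        intro x
        have h1 := Real.sinh_arsinh (q x)
        rw [Real.sinh_eq] at h1
        rw [← hq]
        rcases hs with h | h <;> rw [h] <;> simp only [one_mul, neg_mul, neg_neg] <;> linarith
      have hbd : ∀ s' : ℝ, (s' = 1 ∨ s' = -1) → ∀ x, |fluct_f D sp t a s' x| ≤ B := by
        intro s' hs1 x
        refine abs_le_of_sq_le_sq ?_ (by rw [hB]; exact Real.sqrt_nonneg _)
        rw [fluct_f_sq, hB2, ha2]
        have h1 := fluct_exp_le (fluct_q D sp t x) s' hs1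
        have h2 := fluct_sqrt_le (fluct_q D sp t x)
        have h3 := hqb x
        rw [hq] at h3
        have h4 := hTM w
        calc |T w| / 2 * Real.exp (s' * Real.arsinh (fluct_q D sp t x))
            ≤ |T w| / 2 * (2 * (1 + |fluct_q D sp t x|)) := by
              refine mul_le_mul_of_nonneg_left (h1.trans ?_) (by positivity)
              linarith
          _ = |T w| * (1 + |fluct_q D sp t x|) := by ring
          _ ≤ A / c * (1 + z * (Fintype.card I : ℝ) * A) := by gcongr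
      refine ⟨fluct_f D sp t a s, fluct_f D sp t a (-s), fluct_f_cd D sp ht a s,
        fluct_f_cd D sp ht a (-s), fluct_f_sy D sp t a s, fluct_f_sy D sp t a (-s),
        hbd s hs, hbd (-s) hs', fun x => ?_, fun x => ?_, fun x => ?_⟩
      · rw [fluct_f_sq, fluct_f_sq, ← mul_sub, hsinh, ha2]
        linear_combination q x * hsT
      · rw [fluct_f_sq, fluct_f_sq, ← mul_add, hcosh, ha2]
        have h2 := fluct_sqrt_le (q x)
        calc |T w| / 2 * (2 * √(1 + q x ^ 2)) = |T w| * √(1 + q x ^ 2) := by ring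
          _ ≤ |T w| * (1 + |q x|) := mul_le_mul_of_nonneg_left h2 (abs_nonneg _)
      · have g1 := fluct_gr_f D sp ht a s hs hch hsupp hdt x
        have g2 := fluct_gr_f D sp ht a (-s) hs' hch hsupp hdt x
        rw [ha2] at g1 g2
        refine (add_le_add g1 g2).trans (le_of_eq ?_)
        ring)
  -- the left side
  have hl : (fun x => ∫ w in Metric.closedBall y (3 * r), T w * q x * (phi D sp w x - pb x)) =
      fun x => q x ^ 2 := by
    funext x
    have e : ∀ w, T w * q x * (phi D sp w x - pb x) = q x * (T w * (phi D sp w x - pb x)) :=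
      fun w => by ring
    simp_rw [e]
    rw [integral_const_mul, hrep2]
    ring
  rw [hl, fluct_vol y hr, ← hV, hB2] at hmain
  -- the right side
  obtain ⟨R, hR⟩ : ∃ R : (I → E3) → ℝ, R = fun x =>
      A / c * ((1 + |q x|) * (27 * r ^ 3 * V + c2 * (4 * r) * (1 + nb y (8 * r) x ^ ((2 : ℝ) / 3))) +
      2 * (z ^ 2 * A ^ 2) * nb y (8 * r) x * (27 * r ^ 3 * V)) := ⟨_, rfl⟩
  obtain ⟨a, ha⟩ : ∃ a : ℝ, a = wm D (fun x => q x ^ 2) Ψ := ⟨_, rfl⟩
  obtain ⟨P, hP⟩ : ∃ P : ℝ, P = wm D (fun x => nb y (8 * r) x ^ ((4 : ℝ) / 3)) Ψ := ⟨_, rfl⟩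
  have hP0 : 0 ≤ P := by
    rw [hP]
    exact fluct_wm_nonneg D Ψ fun x => Real.rpow_nonneg (fluct_nb_nonneg _ _ _) _
  have hnbm := fluct_nb_meas (I := I) y (8 * r)
  have hW1 : wm D (fun x => C / r ^ 2 * ∫ w in Metric.closedBall y (3 * r),
      (|T w| * (1 + |q x|) * (1 + near2 w x) + 2 * (z ^ 2 * A ^ 2) * |T w| * nb y (3 * r) x)) Ψ ≤
      wm D (fun x => 1 / 2 * q x ^ 2 + (K3 * (A ^ 3 / r ^ 4)) *
        (1 + nb y (8 * r) x ^ ((4 : ℝ) / 3))) Ψ := by
    refine fluct_wm_mono D sp ℓ Ψ hΨ (M := 1 / 2 * (z * (Fintype.card I : ℝ) * A) ^ 2 +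
      (K3 * (A ^ 3 / r ^ 4)) * (1 + (Fintype.card I : ℝ) ^ ((4 : ℝ) / 3))) ?_ ?_ ?_ ?_
    · intro x
      have := (fluct_pt (fun x v R hR => hnear x v R hR) hTM (y := y) hr x (p := 1 + |q x|)
        (k := 2 * (z ^ 2 * A ^ 2)) (by positivity) (by positivity)).1
      positivity
    · intro x
      have h1 := (fluct_pt (fun x v R hR => hnear x v R hR) hTM (y := y) hr x (p := 1 + |q x|)
        (k := 2 * (z ^ 2 * A ^ 2)) (by positivity) (by positivity)).2
      rw [← hV] at h1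
      have h2 : C / r ^ 2 * (∫ w in Metric.closedBall y (3 * r),
        (|T w| * (1 + |q x|) * (1 + near2 w x) + 2 * (z ^ 2 * A ^ 2) * |T w| * nb y (3 * r) x)) ≤
          C / r ^ 2 * (A / c * ((1 + |q x|) * (27 * r ^ 3 * V + c2 * (4 * r) *
            (1 + nb y (8 * r) x ^ ((2 : ℝ) / 3))) +
            2 * (z ^ 2 * A ^ 2) * nb y (8 * r) x * (27 * r ^ 3 * V))) :=
        mul_le_mul_of_nonneg_left h1 (by positivity)
      refine h2.trans ?_
      rw [hK3]
      exact fluct_alg hC hc hA hr hr1 hV0 hc2 hL rfl (fluct_nb_nonneg _ _ _)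
        (fluct_nb_le_pow _ _ _)
    · exact ((hqc.measurable.pow_const 2).const_mul _).add
        (((hnbm.pow_const _).const_add 1).const_mul _)
    · intro x
      have h1 : 0 ≤ nb y (8 * r) x ^ ((4 : ℝ) / 3) := Real.rpow_nonneg (fluct_nb_nonneg _ _ _) _
      have h2 : nb y (8 * r) x ^ ((4 : ℝ) / 3) ≤ (Fintype.card I : ℝ) ^ ((4 : ℝ) / 3) :=
        Real.rpow_le_rpow (fluct_nb_nonneg _ _ _) (fluct_nb_le _ _ _) (by norm_num)
      have h3 : q x ^ 2 ≤ (z * (Fintype.card I : ℝ) * A) ^ 2 := by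
        rw [← sq_abs]
        have := hqb x
        gcongr
      rw [abs_of_nonneg (by positivity)]
      gcongr
  have hlin := fluct_wm_lin D sp ℓ Ψ hΨ hn (W1 := fun x => q x ^ 2)
    (W2 := fun x => nb y (8 * r) x ^ ((4 : ℝ) / 3)) (hqc.measurable.pow_const 2)
    (hnbm.pow_const _) (M1 := (z * (Fintype.card I : ℝ) * A) ^ 2)
    (M2 := (Fintype.card I : ℝ) ^ ((4 : ℝ) / 3))
    (fun x => by
      rw [abs_of_nonneg (sq_nonneg _), ← sq_abs]
      have := hqb x
      gcongr)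
    (fun x => by
      rw [abs_of_nonneg (Real.rpow_nonneg (fluct_nb_nonneg _ _ _) _)]
      exact Real.rpow_le_rpow (fluct_nb_nonneg _ _ _) (fluct_nb_le _ _ _) (by norm_num))
    (1 / 2) (K3 * (A ^ 3 / r ^ 4))
  have hcm : wm D (fun x => C / r ^ 2 * ∫ w in Metric.closedBall y (3 * r),
      (|T w| * (1 + |q x|) * (1 + near2 w x) + 2 * (z ^ 2 * A ^ 2) * |T w| * nb y (3 * r) x)) Ψ =
      C / r ^ 2 * wm D (fun x => ∫ w in Metric.closedBall y (3 * r),
      (|T w| * (1 + |q x|) * (1 + near2 w x) + 2 * (z ^ 2 * A ^ 2) * |T w| * nb y (3 * r) x)) Ψ := by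
    unfold wm
    rw [Finset.mul_sum]
    refine Finset.sum_congr rfl fun τ _ => ?_
    rw [← integral_const_mul]
    refine integral_congr_ae (Filter.Eventually.of_forall fun x => ?_)
    simp only
    ring
  have hlast := fluct_alg2 (N := (Fintype.card I : ℝ)) hC hz hc hA hr hr1 hV0 (Nat.cast_nonneg _)
    hη hη1
  have hle := (le_abs_self _).trans hmain
  have hgoal : (fun x => (∑ i, D.charge (sp i) * t (x i)) ^ 2) = fun x => q x ^ 2 := by
    funext x
    rw [hq]
    rfl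
  rw [hgoal, ← ha, ← hP]
  rw [mul_add, ← hcm, ← ha] at hle
  rw [hlin, ← ha, ← hP] at hW1
  rw [← hK4] at hlast
  have hAr : 0 < A ^ 3 / r ^ 4 := by positivity
  have e1 : a ≤ 1 / 2 * a + K3 * (A ^ 3 / r ^ 4) * (1 + P) + K4 * (A ^ 3 / r ^ 4) := by
    linarith
  have e2 : K4 * (A ^ 3 / r ^ 4) ≤ K4 * (A ^ 3 / r ^ 4) * (1 + P) := by
    have : 0 ≤ K4 * (A ^ 3 / r ^ 4) := by positivity
    nlinarith
  have e3 : a ≤ 2 * (K3 + K4) * (A ^ 3 / r ^ 4) * (1 + P) := by nlinarith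
  have e4 : 0 ≤ (A ^ 3 / r ^ 4) * (1 + P) := by positivity
  calc a ≤ 2 * (K3 + K4) * (A ^ 3 / r ^ 4) * (1 + P) := e3
    _ ≤ 2 * (K3 + K4) * (A ^ 3 / r ^ 4) * (1 + P) + (A ^ 3 / r ^ 4) * (1 + P) := by linarith
    _ = (2 * (K3 + K4) + 1) * A ^ 3 / r ^ 4 * (1 + P) := by ring


end Pool.Agent.Helper780_CP.RQ9
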