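import Pool.Agent.Helper780_CP.LLDefs2
import Pool.Agent.Helper780_CP.RTCI
import Pool.Agent.Helper780_CP.RC3
import Pool.Agent.Helper780_CP.RK1
import Pool.Agent.Helper780_CP.RQ9
import Pool.Agent.Helper780_CP.RK4

set_option autoImplicit false

open MeasureTheory

namespace Pool.Agent.Helper780_CP.RQ10

open Pool.Agent.Helper780_CP
open Pool.Agent.Helper985.CP
open Pool.Agent.Helper780_CP.RTCI (tci)
open Pool.Agent.Helper780_CP.RC3 (near2_ball)
open Pool.Agent.Helper780_CP.RK1 (newt)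
open Pool.Agent.Helper780_CP.RQ9 (fluct)
open Pool.Agent.Helper780_CP.RK4 (kern_b)

open Pool.Agent.Helper985.CP

theorem sm_ge (n : ℕ) : (n : WithTop ℕ∞) ≤ SM := by
  show ((n : ℕ∞) : WithTop ℕ∞) ≤ ((⊤ : ℕ∞) : WithTop ℕ∞)
  exact WithTop.coe_le_coe.2 le_top

/-- smooth with bounds of the derivatives up to order 2 -/
def SB (f : E3 → ℝ) (M L : ℝ) : Prop :=
  ContDiff ℝ SM f ∧ ∀ n : ℕ, n ≤ 2 → ∀ x, ‖iteratedFDeriv ℝ n f x‖ ≤ M * L ^ n

theorem SB.mul {f g : E3 → ℝ} {M M' L L' : ℝ} (hf : SB f M L) (hg : SB g M' L')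
    (hM : 0 ≤ M) (hL : 0 ≤ L) :
    SB (fun v => f v * g v) (M * M') (L + L') := by
  refine ⟨hf.1.mul hg.1, fun n hn x => ?_⟩
  refine (norm_iteratedFDeriv_mul_le (N := SM) hf.1 hg.1 x (n := n) ?_).trans ?_
  · exact sm_ge n
  · rw [add_pow, Finset.mul_sum]
    refine Finset.sum_le_sum fun i hi => ?_
    have hi' : i ≤ n := Nat.lt_succ_iff.1 (Finset.mem_range.1 hi)
    have h1 := hf.2 i (hi'.trans hn) x
    have h2 := hg.2 (n - i) ((Nat.sub_le _ _).trans hn) x
    calc (n.choose i : ℝ) * ‖iteratedFDeriv ℝ i f x‖ * ‖iteratedFDeriv ℝ (n - i) g x‖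
        ≤ (n.choose i : ℝ) * (M * L ^ i) * (M' * L' ^ (n - i)) := by
          gcongr
      _ = _ := by ring

theorem SB.mono {f : E3 → ℝ} {M M' L L' : ℝ} (hf : SB f M L) (hM : M ≤ M') (hL : L ≤ L')
    (hM0 : 0 ≤ M) (hL0 : 0 ≤ L) : SB f M' L' := by
  refine ⟨hf.1, fun n hn x => (hf.2 n hn x).trans ?_⟩
  gcongr
  exact hM0.trans hM

theorem SB.const_mul {f : E3 → ℝ} {M L : ℝ} (hf : SB f M L) (c : ℝ) (hc : 0 ≤ c) :
    SB (fun v => c * f v) (c * M) L := by
  refine ⟨contDiff_const.mul hf.1, fun n hn x => ?_⟩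
  have h1 : iteratedFDeriv ℝ n (fun v => c * f v) x = c • iteratedFDeriv ℝ n f x := by
    have := iteratedFDeriv_const_smul_apply (𝕜 := ℝ) (a := c) (f := f) (i := n) (x := x)
      ((hf.1.of_le (sm_ge n)).contDiffAt)
    exact this
  rw [h1, norm_smul, Real.norm_of_nonneg hc, mul_assoc]
  exact mul_le_mul_of_nonneg_left (hf.2 n hn x) hc

theorem SB.scale {f : E3 → ℝ} {M L : ℝ} (hf : SB f M L) (c : ℝ) (hc : 0 ≤ c) (u : E3)
    (hM : 0 ≤ M) (hL : 0 ≤ L) :
    SB (fun v => f (c • (v - u))) M (c * L) := by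
  have hs : ContDiff ℝ SM (fun v : E3 => c • (v - u)) := by fun_prop
  refine ⟨hf.1.comp hs, fun n hn x => ?_⟩
  have h1 : (fun v => f (c • (v - u))) =
      fun v => (f ∘ (c • ContinuousLinearMap.id ℝ E3)) (v - u) := by
    funext v
    simp
  rw [h1, iteratedFDeriv_comp_sub, ContinuousLinearMap.iteratedFDeriv_comp_right
    (c • ContinuousLinearMap.id ℝ E3) hf.1 (x - u) (i := n) (sm_ge n)]
  refine (ContinuousMultilinearMap.norm_compContinuousLinearMap_le _ _).trans ?_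
  have h2 : ‖(c • ContinuousLinearMap.id ℝ E3)‖ ≤ c := by
    apply ContinuousLinearMap.opNorm_le_bound _ hc
    intro x
    simp [norm_smul, abs_of_nonneg hc]
  have h3 : ∏ _i : Fin n, ‖(c • ContinuousLinearMap.id ℝ E3)‖ ≤ c ^ n := by
    calc ∏ _i : Fin n, ‖(c • ContinuousLinearMap.id ℝ E3)‖ ≤ ∏ _i : Fin n, c :=
          Finset.prod_le_prod (fun _ _ => norm_nonneg _) (fun _ _ => h2)
      _ = c ^ n := by simp
  calc _ ≤ (M * L ^ n) * c ^ n := by
        refine mul_le_mul (hf.2 n hn _) h3 (Finset.prod_nonneg fun _ _ => norm_nonneg _) ?_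
        positivity
    _ = _ := by ring

theorem SB.of_compact {f : E3 → ℝ} (hf : ContDiff ℝ SM f) (hc : HasCompactSupport f) :
    ∃ M : ℝ, 0 < M ∧ SB f M 1 := by
  have h : ∀ n : ℕ, ∃ C : ℝ, ∀ x, ‖iteratedFDeriv ℝ n f x‖ ≤ C := by
    intro n
    exact (hc.iteratedFDeriv (𝕜 := ℝ) n).exists_bound_of_continuous
      (hf.continuous_iteratedFDeriv (sm_ge n))
  choose C hC using h
  refine ⟨1 + |C 0| + |C 1| + |C 2|, by positivity, hf, fun n hn x => ?_⟩
  rw [one_pow, mul_one]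
  have h1 := hC n x
  have h2 : C n ≤ |C n| := le_abs_self _
  have p0 := abs_nonneg (C 0)
  have p1 := abs_nonneg (C 1)
  have p2 := abs_nonneg (C 2)
  interval_cases n
  all_goals linarith

theorem SB.bd {f : E3 → ℝ} {M L : ℝ} (hf : SB f M L) (hM : 0 ≤ M) (hL : 1 ≤ L) :
    (∀ v, |f v| ≤ M * (3 * L ^ 2)) ∧ (∀ v, ‖fderiv ℝ f v‖ ≤ M * (3 * L ^ 2)) ∧
    (∀ v, |lap f v| ≤ M * (3 * L ^ 2)) := by
  have hL2 : 1 ≤ L ^ 2 := one_le_pow₀ hL
  refine ⟨fun v => ?_, fun v => ?_, fun v => ?_⟩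
  · have h := hf.2 0 (by norm_num) v
    rw [norm_iteratedFDeriv_zero, Real.norm_eq_abs] at h
    refine h.trans ?_
    gcongr
    rw [pow_zero]
    linarith
  · have h := hf.2 1 (by norm_num) v
    rw [norm_iteratedFDeriv_one] at h
    refine h.trans ?_
    gcongr
    nlinarith
  · have h := hf.2 2 le_rfl v
    have h1 : ∀ k : Fin 3, |fderiv ℝ (fun v => fderiv ℝ f v (EuclideanSpace.single k (1 : ℝ))) v
        (EuclideanSpace.single k (1 : ℝ))| ≤ M * L ^ 2 := by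
      intro k
      have hd : DifferentiableAt ℝ (fderiv ℝ f) v := by
        have : ContDiff ℝ 1 (fderiv ℝ f) := hf.1.fderiv_right (sm_ge 2)
        exact this.differentiable one_ne_zero v
      have h2 : fderiv ℝ (fun v => fderiv ℝ f v (EuclideanSpace.single k (1 : ℝ))) v
          (EuclideanSpace.single k (1 : ℝ)) = iteratedFDeriv ℝ 2 f v
            ![EuclideanSpace.single k (1 : ℝ), EuclideanSpace.single k (1 : ℝ)] := by
        rw [iteratedFDeriv_two_apply]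
        rw [fderiv_clm_apply hd (differentiableAt_const _)]
        simp
      rw [h2, ← Real.norm_eq_abs]
      refine (ContinuousMultilinearMap.le_opNorm _ _).trans ?_
      simp only [Fin.prod_univ_two, Matrix.cons_val_zero, Matrix.cons_val_one]
      have h3 : ‖(EuclideanSpace.single k (1 : ℝ) : E3)‖ = 1 := by simp
      rw [h3]
      linarith
    unfold lap
    refine (Finset.abs_sum_le_sum_abs _ _).trans ?_
    calc _ ≤ ∑ _k : Fin 3, M * L ^ 2 := Finset.sum_le_sum fun k _ => h1 k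
      _ = M * (3 * L ^ 2) := by simp; ring

theorem ct_smooth : ContDiff ℝ SM ct := by
  unfold ct
  have h1 : ContDiff ℝ SM (fun w : E3 => (4 - ‖w‖ ^ 2) / 3) := by
    have := contDiff_norm_sq ℝ (E := E3) (n := SM)
    exact (contDiff_const.sub this).div_const 3
  exact Real.smoothTransition.contDiff.comp h1

theorem ct_zero (w : E3) (hw : 2 ≤ ‖w‖) : ct w = 0 := by
  unfold ct
  apply Real.smoothTransition.zero_of_nonpos
  nlinarith

theorem compact_of_zero {f : E3 → ℝ} (y : E3) (R : ℝ) (h : ∀ w, R < ‖w - y‖ → f w = 0) :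
    HasCompactSupport f := by
  apply HasCompactSupport.of_support_subset_isCompact (isCompact_closedBall y R)
  intro w hw
  rw [Metric.mem_closedBall, dist_eq_norm]
  by_contra hh
  exact hw (h w (not_le.1 hh))

theorem ct_compact : HasCompactSupport ct :=
  compact_of_zero 0 2 (fun w hw => ct_zero w (by rw [sub_zero] at hw; exact hw.le))

theorem cy_zero (y : E3) (r : ℝ) (hr : 0 < r) (v : E3) (hv : 2 * r < ‖v - y‖) : cy y r v = 0 := by
  unfold cy
  apply ct_zero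
  rw [norm_smul, Real.norm_of_nonneg (inv_nonneg.2 hr.le), inv_mul_eq_div, le_div_iff₀ hr]
  exact hv.le

theorem cy_smooth (y : E3) (r : ℝ) : ContDiff ℝ SM (cy y r) := by
  unfold cy
  exact ct_smooth.comp (by fun_prop)

/-- the two test functions -/
theorem t_bounds (a : E3 → ℝ) (ha : ContDiff ℝ SM a) (hs : ∀ z, 1 / 2 ≤ ‖z‖ → a z = 0) :
    ∃ CA : ℝ, 1 ≤ CA ∧ (∀ v, |a v| ≤ CA) ∧ ∀ (y u : E3) (r : ℝ) (k : ℕ), 0 < r → r ≤ 1 → 1 ≤ 2 ^ k * r →
      (∀ t : E3 → ℝ, (t = fun v => cy y r v ^ 2 * (8 ^ k * a ((2 : ℝ) ^ k • (v - u)))) ∨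
        (t = fun v => cy y r v * (8 ^ k * a ((2 : ℝ) ^ k • (v - u)))) →
        ContDiff ℝ SM t ∧ (∀ v, 2 * r < ‖v - y‖ → t v = 0) ∧
        (∀ v, |t v| ≤ CA * (2 ^ k) ^ 5) ∧ (∀ v, ‖fderiv ℝ t v‖ ≤ CA * (2 ^ k) ^ 5) ∧
        (∀ v, |lap t v| ≤ CA * (2 ^ k) ^ 5)) := by
  obtain ⟨Ma, hMa, hA⟩ := SB.of_compact ha (compact_of_zero 0 1 (fun w hw => hs w (by
    rw [sub_zero] at hw; linarith)))
  obtain ⟨Mc, hMc, hCt⟩ := SB.of_compact ct_smooth ct_compact
  refine ⟨1 + Ma + Ma * 27 * Mc ^ 2 + Ma * 12 * Mc, ?_, ?_, ?_⟩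
  · have : 0 ≤ Ma + Ma * 27 * Mc ^ 2 + Ma * 12 * Mc := by positivity
    linarith
  · intro v
    have h := hA.2 0 (by norm_num) v
    rw [norm_iteratedFDeriv_zero, Real.norm_eq_abs, pow_zero, mul_one] at h
    have : 0 ≤ Ma * 27 * Mc ^ 2 + Ma * 12 * Mc := by positivity
    linarith
  intro y u r k hr hr1 hk t ht
  have hK : (1 : ℝ) ≤ 2 ^ k := one_le_pow₀ (by norm_num)
  have hrK : r⁻¹ ≤ 2 ^ k := by
    rw [inv_le_iff_one_le_mul₀ hr]
    exact hk
  have h8 : (8 : ℝ) ^ k = (2 ^ k) ^ 3 := by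
    rw [← pow_mul, mul_comm k 3, pow_mul]; norm_num
  have hχ : SB (cy y r) Mc (2 ^ k) := by
    have h1 := hCt.scale r⁻¹ (inv_nonneg.2 hr.le) y hMc.le (by norm_num)
    refine SB.mono h1 le_rfl ?_ hMc.le ?_
    · rw [mul_one]; exact hrK
    · rw [mul_one]; exact inv_nonneg.2 hr.le
  have haK : SB (fun v => 8 ^ k * a ((2 : ℝ) ^ k • (v - u))) (8 ^ k * Ma) (2 ^ k) := by
    have h1 := (hA.scale ((2 : ℝ) ^ k) (by positivity) u hMa.le (by norm_num)).const_mul
      ((8 : ℝ) ^ k) (by positivity)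
    rw [mul_one] at h1
    exact h1
  have hKp : (0 : ℝ) < 2 ^ k := by positivity
  rcases ht with rfl | rfl
  · have hb : SB (fun v => cy y r v ^ 2 * (8 ^ k * a ((2 : ℝ) ^ k • (v - u))))
        (Mc * Mc * (8 ^ k * Ma)) (2 ^ k + 2 ^ k + 2 ^ k) := by
      have h1 := (hχ.mul hχ hMc.le hKp.le).mul haK (by positivity) (by positivity)
      simpa only [sq] using h1
    have hb2 := hb.bd (by positivity) (by linarith)
    have hle : Mc * Mc * (8 ^ k * Ma) * (3 * (2 ^ k + 2 ^ k + 2 ^ k) ^ 2) ≤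
        (1 + Ma + Ma * 27 * Mc ^ 2 + Ma * 12 * Mc) * (2 ^ k) ^ 5 := by
      rw [h8]
      have e : Mc * Mc * ((2 ^ k) ^ 3 * Ma) * (3 * ((2 : ℝ) ^ k + 2 ^ k + 2 ^ k) ^ 2) =
        (Ma * 27 * Mc ^ 2) * (2 ^ k) ^ 5 := by ring
      rw [e]
      gcongr
      have : 0 ≤ Ma * 12 * Mc := by positivity
      linarith
    refine ⟨hb.1, fun v hv => ?_, fun v => (hb2.1 v).trans hle, fun v => (hb2.2.1 v).trans hle,
      fun v => (hb2.2.2 v).trans hle⟩
    show cy y r v ^ 2 * _ = 0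
    rw [cy_zero y r hr v hv]
    ring
  · have hb : SB (fun v => cy y r v * (8 ^ k * a ((2 : ℝ) ^ k • (v - u))))
        (Mc * (8 ^ k * Ma)) (2 ^ k + 2 ^ k) := hχ.mul haK hMc.le hKp.le
    have hb2 := hb.bd (by positivity) (by linarith)
    have hle : Mc * (8 ^ k * Ma) * (3 * (2 ^ k + 2 ^ k) ^ 2) ≤
        (1 + Ma + Ma * 27 * Mc ^ 2 + Ma * 12 * Mc) * (2 ^ k) ^ 5 := by
      rw [h8]
      have e : Mc * ((2 ^ k) ^ 3 * Ma) * (3 * ((2 : ℝ) ^ k + 2 ^ k) ^ 2) =
        (Ma * 12 * Mc) * (2 ^ k) ^ 5 := by ring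
      rw [e]
      gcongr
      have : 0 ≤ Ma * 27 * Mc ^ 2 := by positivity
      linarith
    refine ⟨hb.1, fun v hv => ?_, fun v => (hb2.1 v).trans hle, fun v => (hb2.2.1 v).trans hle,
      fun v => (hb2.2.2 v).trans hle⟩
    show cy y r v * _ = 0
    rw [cy_zero y r hr v hv]
    ring

theorem int_inv (p : E3 → ℝ) (hp : Continuous p) (hc : HasCompactSupport p) (z : E3) :
    Integrable (fun ω => p ω * (1 / ‖z - ω‖)) := by
  obtain ⟨R0, hR0⟩ := (hc.isCompact.isBounded).subset_closedBall (0 : E3)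
  obtain ⟨C, hC⟩ := hc.exists_bound_of_continuous hp
  set R := max R0 (1 + ‖z‖) with hRdef
  have hR : 0 < R := lt_of_lt_of_le (by positivity) (le_max_right _ _)
  have hz : ‖z‖ ≤ R := le_trans (by linarith) (le_max_right _ _)
  have hsub : tsupport p ⊆ Metric.closedBall (0 : E3) R :=
    hR0.trans (Metric.closedBall_subset_closedBall (le_max_left _ _))
  have h1 := (h21_shift_int R hR z hz).trans_lt (h21_ball_int (2 * R) (by linarith))
  refine ⟨?_, ?_⟩
  · apply Measurable.aestronglyMeasurable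
    apply Measurable.mul hp.measurable
    fun_prop
  · unfold HasFiniteIntegral
    refine lt_of_le_of_lt (lintegral_mono (g := fun x : E3 => ENNReal.ofReal C *
      (ENNReal.ofReal (1 / ‖x - z‖) * (Metric.closedBall (0 : E3) R).indicator 1 x))
      (fun x => ?_)) ?_
    · by_cases hx : x ∈ Metric.closedBall (0 : E3) R
      · simp only [Set.indicator_of_mem hx, Pi.one_apply, mul_one]
        rw [enorm_mul]
        apply mul_le_mul'
        · rw [← ofReal_norm]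
          exact ENNReal.ofReal_le_ofReal (hC x)
        · rw [← ofReal_norm, Real.norm_of_nonneg (by positivity), norm_sub_rev]
      · have : p x = 0 := by
          by_contra h
          exact hx (hsub (subset_tsupport p h))
        simp [this]
    · rw [lintegral_const_mul']
      · exact ENNReal.mul_lt_top ENNReal.ofReal_lt_top h1
      · exact ENNReal.ofReal_ne_top

/-- restricting to a set containing the support -/
theorem set_int {p : E3 → ℝ} {A : Set E3} (h : ∀ ω, p ω ≠ 0 → ω ∈ A) :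
    ∫ ω in A, p ω = ∫ ω, p ω := by
  apply setIntegral_eq_integral_of_forall_compl_eq_zero
  intro x hx
  by_contra hh
  exact hx (h x hh)

/-- the smeared potential at a fixed configuration -/
theorem phi_int {S : Type} (D : Species S) {I : Type} [Fintype I] (sp : I → S)
    (x : I → E3) (c q : ℝ) (p : E3 → ℝ) (hp : Continuous p) (hc : HasCompactSupport p)
    (A : Set E3) (hA : ∀ ω, p ω ≠ 0 → ω ∈ A) :
    ∫ ω in A, (p ω * q) * (phi D sp ω x - c) =
      q * ((∑ j, D.charge (sp j) * ∫ ω, p ω / ‖ω - x j‖) - c * ∫ ω, p ω) := by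
  rw [set_int (p := fun ω => (p ω * q) * (phi D sp ω x - c))]
  · have h1 : (fun ω => (p ω * q) * (phi D sp ω x - c)) = fun ω =>
        q * ((∑ j, D.charge (sp j) * (p ω * (1 / ‖x j - ω‖))) - c * p ω) := by
      funext ω
      unfold phi
      have : ∑ j, D.charge (sp j) * (p ω * (1 / ‖x j - ω‖)) =
          p ω * ∑ j, D.charge (sp j) * (1 / ‖x j - ω‖) := by
        rw [Finset.mul_sum]
        exact Finset.sum_congr rfl fun j _ => by ring
      rw [this]
      ring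
    rw [h1, integral_const_mul, integral_sub]
    · rw [integral_finsetSum]
      · rw [integral_const_mul]
        congr 2
        refine Finset.sum_congr rfl fun j _ => ?_
        rw [integral_const_mul]
        congr 1
        refine integral_congr_ae (Filter.Eventually.of_forall fun ω => ?_)
        show p ω * (1 / ‖x j - ω‖) = p ω / ‖ω - x j‖
        rw [norm_sub_rev]
        ring
      · intro j _
        exact (int_inv p hp hc (x j)).const_mul _
    · exact integrable_finsetSum _ fun j _ => (int_inv p hp hc (x j)).const_mul _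
    · exact (hp.integrable_of_hasCompactSupport hc).const_mul _
  · intro ω hω
    apply hA
    intro h
    apply hω
    show p ω * q * _ = 0
    rw [h]
    ring

/-- scaling of integrals -/
theorem scale_int (f : E3 → ℝ) (K : ℝ) (hK : 0 < K) :
    ∫ z, f z = ∫ z, K ^ 3 * f (K • z) := by
  rw [integral_const_mul, Measure.integral_comp_smul volume f K]
  have hdim : Module.finrank ℝ E3 = 3 := by simp
  rw [hdim, smul_eq_mul, abs_of_pos (by positivity), ← mul_assoc, mul_inv_cancel₀ (by positivity),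
    one_mul]

theorem ker_one {a b l : E3 → ℝ} (hK : Ker a b l) (k : ℕ) (v : E3) :
    ∫ u, 8 ^ k * a ((2 : ℝ) ^ k • (v - u)) = 1 := by
  rw [integral_sub_left_eq_self (fun u => 8 ^ k * a ((2 : ℝ) ^ k • u)) volume v]
  have h8 : (8 : ℝ) ^ k = (2 ^ k) ^ 3 := by
    rw [← pow_mul, mul_comm k 3, pow_mul]; norm_num
  rw [h8, ← scale_int a ((2 : ℝ) ^ k) (by positivity), hK.a_int]

theorem ker_b {a b l : E3 → ℝ} (hK : Ker a b l) (k : ℕ) (u w : E3) :
    2 ^ k * b ((2 : ℝ) ^ k • (u - w)) = ∫ ω, 8 ^ k * a ((2 : ℝ) ^ k • (u - ω)) / ‖ω - w‖ := by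
  have h8 : (8 : ℝ) ^ k = (2 ^ k) ^ 3 := by
    rw [← pow_mul, mul_comm k 3, pow_mul]; norm_num
  have hp : (0 : ℝ) < 2 ^ k := by positivity
  rw [hK.b_eq, scale_int _ ((2 : ℝ) ^ k) hp, ← integral_const_mul]
  rw [← integral_sub_left_eq_self (fun ω => 8 ^ k * a ((2 : ℝ) ^ k • (u - ω)) / ‖ω - w‖) volume u]
  refine integral_congr_ae (Filter.Eventually.of_forall fun ω => ?_)
  show 2 ^ k * ((2 ^ k) ^ 3 * (a ((2 : ℝ) ^ k • ω) / ‖(2 : ℝ) ^ k • (u - w) - (2 : ℝ) ^ k • ω‖)) =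
    8 ^ k * a ((2 : ℝ) ^ k • (u - (u - ω))) / ‖u - ω - w‖
  rw [sub_sub_cancel, ← smul_sub, norm_smul, Real.norm_of_nonneg hp.le, h8]
  have : u - w - ω = u - ω - w := by abel
  rw [this]
  by_cases h0 : ‖u - ω - w‖ = 0
  · rw [h0]; simp
  · field_simp

theorem ker_l {a b l : E3 → ℝ} (hK : Ker a b l) (k : ℕ) (v w : E3) :
    2 ^ k * l ((2 : ℝ) ^ k • (v - w)) =
      ∫ u, (8 ^ k * a ((2 : ℝ) ^ k • (v - u))) * (2 ^ k * b ((2 : ℝ) ^ k • (u - w))) := by
  have h8 : (8 : ℝ) ^ k = (2 ^ k) ^ 3 := by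
    rw [← pow_mul, mul_comm k 3, pow_mul]; norm_num
  have hp : (0 : ℝ) < 2 ^ k := by positivity
  rw [hK.l_eq, scale_int _ ((2 : ℝ) ^ k) hp, ← integral_const_mul]
  rw [← integral_sub_left_eq_self (fun u => (8 ^ k * a ((2 : ℝ) ^ k • (v - u))) *
    (2 ^ k * b ((2 : ℝ) ^ k • (u - w)))) volume v]
  refine integral_congr_ae (Filter.Eventually.of_forall fun u => ?_)
  show 2 ^ k * ((2 ^ k) ^ 3 * (a ((2 : ℝ) ^ k • u) * b ((2 : ℝ) ^ k • (v - w) - (2 : ℝ) ^ k • u))) =
    (8 ^ k * a ((2 : ℝ) ^ k • (v - (v - u)))) * (2 ^ k * b ((2 : ℝ) ^ k • (v - u - w)))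
  rw [sub_sub_cancel, ← smul_sub, h8]
  have : v - w - u = v - u - w := by abel
  rw [this]
  ring

noncomputable def gp (s : ℝ) : ℝ := √(√(1 + s ^ 2) + s)
noncomputable def gh (s : ℝ) : ℝ := √(√(1 + s ^ 2))

theorem gp_pos (s : ℝ) : 0 < √(1 + s ^ 2) + s := by
  have h : |s| < √(1 + s ^ 2) := by
    rw [← Real.sqrt_sq_eq_abs]
    exact Real.sqrt_lt_sqrt (sq_nonneg s) (by linarith)
  have := neg_abs_le s
  linarith

theorem gp_smooth : ContDiff ℝ SM gp := by
  unfold gp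
  refine ContDiff.sqrt ?_ (fun s => (gp_pos s).ne')
  refine ContDiff.add ?_ contDiff_id
  exact ContDiff.sqrt (by fun_prop) (fun s => by positivity)

theorem gh_smooth : ContDiff ℝ SM gh := by
  unfold gh
  refine ContDiff.sqrt ?_ (fun s => by positivity)
  exact ContDiff.sqrt (by fun_prop) (fun s => by positivity)

theorem gp_sq (s : ℝ) : gp s ^ 2 = √(1 + s ^ 2) + s := Real.sq_sqrt (gp_pos s).le

theorem gh_sq (s : ℝ) : gh s ^ 2 = √(1 + s ^ 2) := Real.sq_sqrt (by positivity)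

theorem sq_one (s : ℝ) : HasDerivAt (fun s : ℝ => √(1 + s ^ 2)) (s / √(1 + s ^ 2)) s := by
  have h1 : HasDerivAt (fun s : ℝ => 1 + s ^ 2) (2 * s) s := by
    have := (hasDerivAt_pow 2 s).const_add 1
    simpa using this
  have h2 := h1.sqrt (by positivity)
  convert h2 using 1
  rw [mul_div_mul_left _ _ (two_ne_zero)]

theorem gp_deriv (s : ℝ) : |deriv gp s| ≤ 1 := by
  have h0 := gp_pos s
  have h1 : HasDerivAt gp ((s / √(1 + s ^ 2) + 1) / (2 * √(√(1 + s ^ 2) + s))) s :=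
    ((sq_one s).add (hasDerivAt_id s)).sqrt h0.ne'
  rw [h1.deriv]
  have hw : 0 < √(1 + s ^ 2) := by positivity
  have hw1 : 1 ≤ √(1 + s ^ 2) := by
    rw [Real.one_le_sqrt]
    nlinarith [sq_nonneg s]
  have hg : 0 < √(√(1 + s ^ 2) + s) := Real.sqrt_pos.2 h0
  have hg2 : √(√(1 + s ^ 2) + s) ^ 2 = √(1 + s ^ 2) + s := Real.sq_sqrt h0.le
  have hss : s ≤ √(1 + s ^ 2) := by
    refine (le_abs_self s).trans ?_
    rw [← Real.sqrt_sq_eq_abs]
    exact Real.sqrt_le_sqrt (by linarith)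
  have e : (s / √(1 + s ^ 2) + 1) / (2 * √(√(1 + s ^ 2) + s)) =
      √(√(1 + s ^ 2) + s) / (2 * √(1 + s ^ 2)) := by
    field_simp
    rw [hg2]
    ring
  rw [e, abs_of_pos (by positivity), div_le_one (by positivity)]
  have : √(√(1 + s ^ 2) + s) ^ 2 ≤ (2 * √(1 + s ^ 2)) ^ 2 := by
    rw [hg2]; nlinarith
  exact le_of_sq_le_sq this (by positivity)

theorem gh_deriv (s : ℝ) : |deriv gh s| ≤ 1 := by
  have hw : 0 < √(1 + s ^ 2) := by positivity
  have h1 : HasDerivAt gh ((s / √(1 + s ^ 2)) / (2 * √(√(1 + s ^ 2)))) s :=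
    (sq_one s).sqrt hw.ne'
  rw [h1.deriv]
  have hw1 : 1 ≤ √(1 + s ^ 2) := by
    rw [Real.one_le_sqrt]
    nlinarith [sq_nonneg s]
  have hg1 : 1 ≤ √(√(1 + s ^ 2)) := by
    rw [Real.one_le_sqrt]
    exact hw1
  have hss : |s| ≤ √(1 + s ^ 2) := by
    rw [← Real.sqrt_sq_eq_abs]
    exact Real.sqrt_le_sqrt (by linarith)
  rw [abs_div, abs_div, abs_of_pos hw, abs_of_pos (show 0 < 2 * √(√(1 + s ^ 2)) by positivity)]
  rw [div_le_one (by positivity)]
  calc |s| / √(1 + s ^ 2) ≤ 1 := by rw [div_le_one hw]; exact hss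
    _ ≤ _ := by linarith

section
variable {I : Type} [Fintype I] [DecidableEq I]

theorem gr_comp (f : (I → E3) → ℝ) (hf : ContDiff ℝ SM f) (φ : ℝ → ℝ) (hφ : ContDiff ℝ SM φ)
    (h1 : ∀ s, |deriv φ s| ≤ 1) (m σ : ℝ) (hσ : σ ^ 2 = 1) (x : I → E3) :
    gr (fun x => m * φ (σ * f x)) x ≤ m ^ 2 * gr f x := by
  unfold gr
  rw [Finset.mul_sum]
  refine Finset.sum_le_sum fun i _ => ?_
  rw [Finset.mul_sum]
  refine Finset.sum_le_sum fun k _ => ?_
  have hfx : HasFDerivAt f (fderiv ℝ f x) x :=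
    (hf.differentiable (by simp [SM]) x).hasFDerivAt
  have hφx : HasDerivAt φ (deriv φ (σ * f x)) (σ * f x) :=
    (hφ.differentiable (by simp [SM]) _).hasDerivAt
  have h2 : HasFDerivAt (fun x => m * φ (σ * f x))
      (m • (deriv φ (σ * f x) • (σ • fderiv ℝ f x))) x := by
    exact (hφx.comp_hasFDerivAt x (hfx.const_mul σ)).const_mul m
  rw [h2.fderiv]
  simp only [ContinuousLinearMap.smul_apply, smul_eq_mul]
  have h3 := h1 (σ * f x)
  have h4 : deriv φ (σ * f x) ^ 2 ≤ 1 := by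
    rw [← sq_abs]
    exact pow_le_one₀ (abs_nonneg _) h3
  calc _ = (m ^ 2 * fderiv ℝ f x (Pi.single i (EuclideanSpace.single k (1 : ℝ))) ^ 2) *
        (deriv φ (σ * f x) ^ 2 * σ ^ 2) := by ring
    _ ≤ (m ^ 2 * fderiv ℝ f x (Pi.single i (EuclideanSpace.single k (1 : ℝ))) ^ 2) * 1 := by
        rw [hσ, mul_one]
        exact mul_le_mul_of_nonneg_left h4 (by positivity)
    _ = _ := mul_one _

theorem f12 {S : Type} (sp : I → S) (p0 : ℝ) (q : (I → E3) → ℝ) (hq : ContDiff ℝ SM q)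
    (hs : Sy sp q) (Q : ℝ) (hQ : ∀ x, |q x| ≤ Q) :
    ∃ f₁ f₂ : (I → E3) → ℝ, ContDiff ℝ SM f₁ ∧ ContDiff ℝ SM f₂ ∧ Sy sp f₁ ∧ Sy sp f₂ ∧
      (∀ x, |f₁ x| ≤ √(|p0| * (2 + 3 * Q))) ∧ (∀ x, |f₂ x| ≤ √(|p0| * (2 + 3 * Q))) ∧
      (∀ x, f₁ x ^ 2 - f₂ x ^ 2 = p0 * q x) ∧
      (∀ x, f₁ x ^ 2 + f₂ x ^ 2 ≤ |p0| * (2 + 3 * |q x|)) ∧
      (∀ x, gr f₁ x + gr f₂ x ≤ 2 * |p0| * gr q x) := by
  obtain ⟨σ, hσ, hσp⟩ : ∃ σ : ℝ, σ ^ 2 = 1 ∧ |p0| * σ = p0 := by
    rcases le_or_gt 0 p0 with h | h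
    · exact ⟨1, by norm_num, by rw [abs_of_nonneg h, mul_one]⟩
    · exact ⟨-1, by norm_num, by rw [abs_of_neg h]; ring⟩
  have hm : √|p0| ^ 2 = |p0| := Real.sq_sqrt (abs_nonneg _)
  have hσa : ∀ s : ℝ, σ * s ≤ |s| := by
    intro s
    refine (le_abs_self _).trans ?_
    rw [abs_mul]
    have : |σ| = 1 := by
      have h2 : |σ| ^ 2 = 1 := by rw [sq_abs, hσ]
      nlinarith [abs_nonneg σ]
    rw [this, one_mul]
  have hw : ∀ s : ℝ, √(1 + s ^ 2) ≤ 1 + |s| := by
    intro s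
    rw [Real.sqrt_le_left (by positivity)]
    nlinarith [sq_abs s, abs_nonneg s]
  have e1 : ∀ x, (√|p0| * gp (σ * q x)) ^ 2 = |p0| * (√(1 + (q x) ^ 2) + σ * q x) := by
    intro x
    rw [mul_pow, hm, gp_sq, mul_pow, hσ, one_mul]
  have e2 : ∀ x, (√|p0| * gh (1 * q x)) ^ 2 = |p0| * √(1 + (q x) ^ 2) := by
    intro x
    rw [mul_pow, hm, gh_sq, one_mul]
  have e3 : ∀ x, (√|p0| * gp (σ * q x)) ^ 2 + (√|p0| * gh (1 * q x)) ^ 2 ≤
      |p0| * (2 + 3 * |q x|) := by
    intro x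
    rw [e1, e2, ← mul_add]
    refine mul_le_mul_of_nonneg_left ?_ (abs_nonneg _)
    have := hw (q x)
    have := hσa (q x)
    linarith
  have e4 : ∀ x, |p0| * (2 + 3 * |q x|) ≤ |p0| * (2 + 3 * Q) := by
    intro x
    refine mul_le_mul_of_nonneg_left ?_ (abs_nonneg _)
    have := hQ x
    linarith
  refine ⟨fun x => √|p0| * gp (σ * q x), fun x => √|p0| * gh (1 * q x), ?_, ?_, ?_, ?_, ?_, ?_,
    ?_, e3, ?_⟩
  · exact contDiff_const.mul (gp_smooth.comp (contDiff_const.mul hq))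
  · exact contDiff_const.mul (gh_smooth.comp (contDiff_const.mul hq))
  · intro i j x hij
    show _ * gp (σ * _) = _
    rw [hs i j x hij]
  · intro i j x hij
    show _ * gh (1 * _) = _
    rw [hs i j x hij]
  · intro x
    apply Real.abs_le_sqrt
    have := e3 x
    have := e4 x
    nlinarith [sq_nonneg (√|p0| * gh (1 * q x))]
  · intro x
    apply Real.abs_le_sqrt
    have := e3 x
    have := e4 x
    nlinarith [sq_nonneg (√|p0| * gp (σ * q x))]
  · intro x
    show (√|p0| * gp (σ * q x)) ^ 2 - (√|p0| * gh (1 * q x)) ^ 2 = _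
    rw [e1, e2]
    calc _ = (|p0| * σ) * q x := by ring
      _ = _ := by rw [hσp]
  · intro x
    have h1 := gr_comp q hq gp gp_smooth gp_deriv (√|p0|) σ hσ x
    have h2 := gr_comp q hq gh gh_smooth gh_deriv (√|p0|) 1 (by norm_num) x
    rw [hm] at h1 h2
    linarith

theorem q_smooth (c : I → ℝ) (t : E3 → ℝ) (ht : ContDiff ℝ SM t) :
    ContDiff ℝ SM (fun x : I → E3 => ∑ i, c i * t (x i)) := by
  refine ContDiff.sum fun i _ => contDiff_const.mul (ht.comp ?_)
  exact contDiff_apply ℝ E3 i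

theorem q_sy {S : Type} (sp : I → S) (c : S → ℝ) (t : E3 → ℝ) :
    Sy sp (fun x : I → E3 => ∑ i, c (sp i) * t (x i)) := by
  intro i j x hij
  have h : ∀ k, sp (Equiv.swap i j k) = sp k := by
    intro k
    rcases eq_or_ne k i with rfl | h1
    · rw [Equiv.swap_apply_left]; exact hij.symm
    · rcases eq_or_ne k j with rfl | h2
      · rw [Equiv.swap_apply_right]; exact hij
      · rw [Equiv.swap_apply_of_ne_of_ne h1 h2]
  show ∑ k, c (sp k) * t (x (Equiv.swap i j k)) = ∑ k, c (sp k) * t (x k)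
  rw [← Equiv.sum_comp (Equiv.swap i j) (fun k => c (sp k) * t (x k))]
  exact Finset.sum_congr rfl fun k _ => by rw [h k]

theorem gr_q (c : I → ℝ) (z A : ℝ) (hc : ∀ i, |c i| ≤ z) (t : E3 → ℝ) (ht : ContDiff ℝ SM t)
    (y : E3) (r : ℝ) (hr : 0 < r) (h0 : ∀ v, 2 * r < ‖v - y‖ → t v = 0)
    (hA : ∀ v, ‖fderiv ℝ t v‖ ≤ A) (x : I → E3) :
    gr (fun x : I → E3 => ∑ i, c i * t (x i)) x ≤ 3 * z ^ 2 * A ^ 2 * nb y (8 * r) x := by
  have hd : HasFDerivAt (fun x : I → E3 => ∑ i, c i * t (x i))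
      (∑ i, c i • ((fderiv ℝ t (x i)).comp (ContinuousLinearMap.proj (R := ℝ) i))) x := by
    refine HasFDerivAt.fun_sum fun i _ => ?_
    have h1 : HasFDerivAt t (fderiv ℝ t (x i)) (x i) :=
      (ht.differentiable (by simp [SM]) _).hasFDerivAt
    have h2 : HasFDerivAt (fun x : I → E3 => x i) (ContinuousLinearMap.proj (R := ℝ) i) x :=
      hasFDerivAt_apply i x
    exact (h1.comp x h2).const_mul (c i)
  have key : ∀ i (w : E3), fderiv ℝ (fun x : I → E3 => ∑ i, c i * t (x i)) x (Pi.single i w) =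
      c i * fderiv ℝ t (x i) w := by
    intro i w
    rw [hd.fderiv, ContinuousLinearMap.sum_apply, Finset.sum_eq_single i]
    · simp
    · intro j _ hj
      simp [Pi.single_eq_of_ne hj]
    · intro h
      exact absurd (Finset.mem_univ i) h
  unfold gr nb
  rw [Finset.mul_sum]
  refine Finset.sum_le_sum fun i _ => ?_
  simp only [key]
  by_cases hi : ‖x i - y‖ ≤ 8 * r
  · rw [if_pos hi, mul_one]
    have h1 : ∀ k : Fin 3, (c i * fderiv ℝ t (x i) (EuclideanSpace.single k (1 : ℝ))) ^ 2 ≤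
        z ^ 2 * A ^ 2 := by
      intro k
      rw [← mul_pow, ← sq_abs]
      refine pow_le_pow_left₀ (abs_nonneg _) ?_ 2
      rw [abs_mul]
      refine mul_le_mul (hc i) ?_ (abs_nonneg _) ((abs_nonneg _).trans (hc i))
      rw [← Real.norm_eq_abs]
      refine (ContinuousLinearMap.le_opNorm _ _).trans ?_
      simp only [EuclideanSpace.norm_single, norm_one, mul_one]
      exact hA _
    calc _ ≤ ∑ _k : Fin 3, z ^ 2 * A ^ 2 := Finset.sum_le_sum fun k _ => h1 k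
      _ = _ := by simp; ring
  · rw [if_neg hi, mul_zero]
    have hi' : 2 * r < ‖x i - y‖ := by
      push Not at hi
      linarith
    have h2 : t =ᶠ[nhds (x i)] fun _ => 0 := by
      have ho : IsOpen {v : E3 | 2 * r < ‖v - y‖} := isOpen_lt (by fun_prop) (by fun_prop)
      filter_upwards [ho.mem_nhds hi'] with v hv
      exact h0 v hv
    have h3 : fderiv ℝ t (x i) = 0 := by
      rw [h2.fderiv_eq]
      simp
    simp [h3]

end

section
variable {S : Type} {D : Species S} {I : Type} [Fintype I] [DecidableEq I]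

/-- integrable weights -/
def WI (W : (I → E3) → ℝ) (Ψ : Wave D I) : Prop := ∀ τ, Integrable (fun x => W x * ‖Ψ τ x‖ ^ 2)

theorem WI.of_cont {sp : I → S} {ℓ : ℝ} {Ψ : Wave D I} (hΨ : IsState D sp ℓ Ψ)
    {W : (I → E3) → ℝ} (hW : Continuous W) : WI W Ψ := by
  intro τ
  have hcont : Continuous (Ψ τ) := (hΨ.smooth τ).continuous
  have hsq : Continuous (fun x => ‖Ψ τ x‖ ^ 2) := (hcont.norm).pow 2
  have hsqc : HasCompactSupport (fun x => ‖Ψ τ x‖ ^ 2) :=
    (hΨ.compact τ).comp_left (g := fun z : ℂ => ‖z‖ ^ 2) (by simp)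
  exact (hW.mul hsq).integrable_of_hasCompactSupport (hsqc.mul_left)

theorem WI.of_bdd {sp : I → S} {ℓ : ℝ} {Ψ : Wave D I} (hΨ : IsState D sp ℓ Ψ)
    {W : (I → E3) → ℝ} (hW : Measurable W) (M : ℝ) (hM : ∀ x, |W x| ≤ M) : WI W Ψ := by
  intro τ
  have h := WI.of_cont hΨ (W := fun _ => 1) continuous_const τ
  simp only [one_mul] at h
  exact h.bdd_mul (c := M) hW.aestronglyMeasurable (Filter.Eventually.of_forall fun x => hM x)

theorem WI.add {W W' : (I → E3) → ℝ} {Ψ : Wave D I} (h : WI W Ψ) (h' : WI W' Ψ) :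
    WI (fun x => W x + W' x) Ψ := by
  intro τ
  have := (h τ).add (h' τ)
  refine this.congr (Filter.Eventually.of_forall fun x => ?_)
  show W x * _ + W' x * _ = (W x + W' x) * _
  ring

theorem WI.const_mul {W : (I → E3) → ℝ} {Ψ : Wave D I} (h : WI W Ψ) (c : ℝ) :
    WI (fun x => c * W x) Ψ := by
  intro τ
  have := (h τ).const_mul c
  refine this.congr (Filter.Eventually.of_forall fun x => ?_)
  show c * (W x * _) = (c * W x) * _
  ring

theorem wm_add {W W' : (I → E3) → ℝ} {Ψ : Wave D I} (h : WI W Ψ) (h' : WI W' Ψ) :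
    wm D (fun x => W x + W' x) Ψ = wm D W Ψ + wm D W' Ψ := by
  unfold wm
  rw [← Finset.sum_add_distrib]
  refine Finset.sum_congr rfl fun τ _ => ?_
  rw [← integral_add (h τ) (h' τ)]
  refine integral_congr_ae (Filter.Eventually.of_forall fun x => ?_)
  show (W x + W' x) * _ = W x * _ + W' x * _
  ring

theorem wm_const_mul {W : (I → E3) → ℝ} {Ψ : Wave D I} (c : ℝ) :
    wm D (fun x => c * W x) Ψ = c * wm D W Ψ := by
  unfold wm
  rw [Finset.mul_sum]
  refine Finset.sum_congr rfl fun τ _ => ?_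
  rw [← integral_const_mul]
  refine integral_congr_ae (Filter.Eventually.of_forall fun x => ?_)
  show (c * W x) * _ = c * (W x * _)
  ring

theorem wm_const {Ψ : Wave D I} (c : ℝ) : wm D (fun _ => c) Ψ = c * nrm2 D Ψ := by
  unfold wm nrm2
  rw [Finset.mul_sum]
  exact Finset.sum_congr rfl fun τ _ => integral_const_mul _ _

theorem wm_mono {W W' : (I → E3) → ℝ} {Ψ : Wave D I} (h0 : ∀ x, 0 ≤ W x) (h : ∀ x, W x ≤ W' x)
    (h' : WI W' Ψ) : wm D W Ψ ≤ wm D W' Ψ := by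
  unfold wm
  refine Finset.sum_le_sum fun τ _ => ?_
  refine integral_mono_of_nonneg (Filter.Eventually.of_forall fun x => ?_) (h' τ)
    (Filter.Eventually.of_forall fun x => ?_)
  · exact mul_nonneg (h0 x) (sq_nonneg _)
  · exact mul_le_mul_of_nonneg_right (h x) (sq_nonneg _)

theorem wm_nonneg {W : (I → E3) → ℝ} {Ψ : Wave D I} (h0 : ∀ x, 0 ≤ W x) : 0 ≤ wm D W Ψ := by
  unfold wm
  refine Finset.sum_nonneg fun τ _ => integral_nonneg fun x => ?_
  exact mul_nonneg (h0 x) (sq_nonneg _)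

end

section
variable {I : Type} [Fintype I]

theorem nb_meas (y : E3) (R : ℝ) : Measurable (fun x : I → E3 => nb y R x) := by
  unfold nb
  refine Finset.measurable_fun_sum _ fun i _ => ?_
  refine Measurable.ite ?_ measurable_const measurable_const
  exact measurableSet_le (by fun_prop) measurable_const

theorem nb_nonneg (y : E3) (R : ℝ) (x : I → E3) : 0 ≤ nb y R x := by
  unfold nb
  exact Finset.sum_nonneg fun i _ => by split_ifs <;> norm_num

theorem nb_le (y : E3) (R : ℝ) (x : I → E3) : nb y R x ≤ Fintype.card I := by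
  unfold nb
  calc _ ≤ ∑ _i : I, (1 : ℝ) := Finset.sum_le_sum fun i _ => by split_ifs <;> norm_num
    _ = _ := by simp

theorem nb_card (y : E3) (R : ℝ) (x : I → E3) :
    ((Finset.univ.filter (fun i => ‖x i - y‖ ≤ R)).card : ℝ) = nb y R x := by
  unfold nb
  rw [Finset.sum_boole]

theorem near2_nonneg (w : E3) (x : I → E3) : 0 ≤ near2 w x :=
  Real.iSup_nonneg fun _ => sq_nonneg _

end

theorem rp1 {n : ℝ} (hn : 0 ≤ n) : (n ^ ((2 : ℝ) / 3)) ^ 2 = n ^ ((4 : ℝ) / 3) := by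
  rw [← Real.rpow_natCast, ← Real.rpow_mul hn]
  norm_num

theorem rp2 {n : ℝ} (hn : 0 ≤ n) : n ≤ 1 + n ^ ((4 : ℝ) / 3) := by
  have h0 : 0 ≤ n ^ ((4 : ℝ) / 3) := Real.rpow_nonneg hn _
  rcases le_total n 1 with h | h
  · linarith
  · have : n ^ (1 : ℝ) ≤ n ^ ((4 : ℝ) / 3) := Real.rpow_le_rpow_of_exponent_le h (by norm_num)
    rw [Real.rpow_one] at this
    linarith

/-- the bound at a fixed configuration -/
theorem fix_x (z Cn : ℝ) (hz : 0 ≤ z) (hCn : 0 < Cn)
    (hnear : ∀ {I : Type} [Fintype I] (x : I → E3) (v : E3) (R : ℝ),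
    0 < R → IntegrableOn (fun w => near2 w x) (Metric.ball v R) ∧
      ∫ w in Metric.ball v R, near2 w x ≤
        Cn * R * (1 + ((Finset.univ.filter (fun i => ‖x i - v‖ ≤ 2 * R)).card : ℝ) ^ ((2 : ℝ) / 3)))
    {I : Type} [Fintype I] (x : I → E3) (y : E3) (r : ℝ) (hr : 0 < r) (hr1 : r ≤ 1)
    (A Bp : ℝ) (hA : 1 ≤ A) (hBp : 0 ≤ Bp) (p : E3 → ℝ) (hp : ∀ ω, |p ω| ≤ Bp) (q : ℝ) :
    ∫ ω in Metric.closedBall y (3 * r), (|p ω| * (2 + 3 * |q|) * (1 + near2 ω x) +
      2 * |p ω| * (3 * z ^ 2 * A ^ 2 * nb y (8 * r) x)) ≤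
      Bp * A ^ 2 * (5 * ((volume (Metric.closedBall (0 : E3) 3)).toReal + 4 * Cn) +
        6 * z ^ 2 * (volume (Metric.closedBall (0 : E3) 3)).toReal) *
        (1 + (q ^ 2 + nb y (8 * r) x ^ ((4 : ℝ) / 3))) := by
  obtain ⟨hi, hle⟩ := hnear x y (4 * r) (by linarith)
  have e8 : 2 * (4 * r) = 8 * r := by ring
  rw [e8, nb_card] at hle
  set V := (volume (Metric.closedBall (0 : E3) 3)).toReal with hV
  have hV0 : 0 ≤ V := ENNReal.toReal_nonneg
  set n := nb y (8 * r) x with hn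
  have hn0 : 0 ≤ n := nb_nonneg _ _ _
  set m := n ^ ((2 : ℝ) / 3) with hm
  have hm0 : 0 ≤ m := Real.rpow_nonneg hn0 _
  have hms : n ^ ((4 : ℝ) / 3) = m ^ 2 := (rp1 hn0).symm
  have hnm : n ≤ 1 + m ^ 2 := by rw [← hms]; exact rp2 hn0
  have hsub : Metric.closedBall y (3 * r) ⊆ Metric.ball y (4 * r) :=
    Metric.closedBall_subset_ball (by linarith)
  have hiA : IntegrableOn (fun w => near2 w x) (Metric.closedBall y (3 * r)) := hi.mono_set hsub
  have hleA : ∫ w in Metric.closedBall y (3 * r), near2 w x ≤ Cn * (4 * r) * (1 + m) := by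
    refine le_trans ?_ hle
    exact setIntegral_mono_set hi (Filter.Eventually.of_forall fun w => near2_nonneg w x)
      (Filter.Eventually.of_forall hsub)
  have hvol : volume.real (Metric.closedBall y (3 * r)) ≤ V := by
    have h1 : volume (Metric.closedBall y (3 * r)) ≤ volume (Metric.closedBall (0 : E3) 3) := by
      rw [Measure.addHaar_closedBall_center]
      exact measure_mono (Metric.closedBall_subset_closedBall (by linarith))
    exact ENNReal.toReal_mono measure_closedBall_lt_top.ne h1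
  have hci : ∀ c : ℝ, IntegrableOn (fun _ : E3 => c) (Metric.closedBall y (3 * r)) := fun c =>
    integrableOn_const measure_closedBall_lt_top.ne
  have hb : ∫ ω in Metric.closedBall y (3 * r), (|p ω| * (2 + 3 * |q|) * (1 + near2 ω x) +
      2 * |p ω| * (3 * z ^ 2 * A ^ 2 * n)) ≤
      ∫ ω in Metric.closedBall y (3 * r), (Bp * (2 + 3 * |q|) * (1 + near2 ω x) +
      2 * Bp * (3 * z ^ 2 * A ^ 2 * n)) := by
    refine integral_mono_of_nonneg (Filter.Eventually.of_forall fun ω => ?_) ?_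
      (Filter.Eventually.of_forall fun ω => ?_)
    · have := near2_nonneg ω x
      show 0 ≤ |p ω| * (2 + 3 * |q|) * (1 + near2 ω x) + 2 * |p ω| * (3 * z ^ 2 * A ^ 2 * n)
      positivity
    · exact ((((hci 1).add hiA).const_mul (Bp * (2 + 3 * |q|)))).add (hci _)
    · have := near2_nonneg ω x
      have := hp ω
      show |p ω| * (2 + 3 * |q|) * (1 + near2 ω x) + 2 * |p ω| * (3 * z ^ 2 * A ^ 2 * n) ≤
        Bp * (2 + 3 * |q|) * (1 + near2 ω x) + 2 * Bp * (3 * z ^ 2 * A ^ 2 * n)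
      gcongr
  refine hb.trans ?_
  have e1 : ∫ ω in Metric.closedBall y (3 * r), (Bp * (2 + 3 * |q|) * (1 + near2 ω x) +
      2 * Bp * (3 * z ^ 2 * A ^ 2 * n)) =
      Bp * (2 + 3 * |q|) * (volume.real (Metric.closedBall y (3 * r)) +
        ∫ ω in Metric.closedBall y (3 * r), near2 ω x) +
        2 * Bp * (3 * z ^ 2 * A ^ 2 * n) * volume.real (Metric.closedBall y (3 * r)) := by
    rw [integral_add, integral_const_mul, integral_add (hci 1) hiA]
    · simp only [integral_const, smul_eq_mul, mul_one, measureReal_restrict_apply_univ]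
      ring
    · exact (((hci 1).add hiA).const_mul (Bp * (2 + 3 * |q|)))
    · exact hci _
  rw [e1]
  have h2 : Bp * (2 + 3 * |q|) * (volume.real (Metric.closedBall y (3 * r)) +
        ∫ ω in Metric.closedBall y (3 * r), near2 ω x) ≤
      Bp * (2 + 3 * |q|) * ((V + 4 * Cn) * (1 + m)) := by
    refine mul_le_mul_of_nonneg_left ?_ (by positivity)
    have h3 : Cn * (4 * r) * (1 + m) ≤ 4 * Cn * (1 + m) := by
      have : Cn * (4 * r) ≤ 4 * Cn := by nlinarith
      gcongr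
    nlinarith
  have h4 : 2 * Bp * (3 * z ^ 2 * A ^ 2 * n) * volume.real (Metric.closedBall y (3 * r)) ≤
      2 * Bp * (3 * z ^ 2 * A ^ 2 * (1 + m ^ 2)) * V := by
    gcongr
  refine (add_le_add h2 h4).trans ?_
  rw [hms]
  have h5 : (2 + 3 * |q|) * (1 + m) ≤ 5 * (1 + (q ^ 2 + m ^ 2)) := by
    have e : q ^ 2 = |q| ^ 2 := (sq_abs q).symm
    rw [e]
    nlinarith [sq_nonneg (|q| - m), sq_nonneg (|q| - 1), sq_nonneg (m - 1), abs_nonneg q]
  have hA2 : 1 ≤ A ^ 2 := one_le_pow₀ hA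
  have h6 : Bp * (2 + 3 * |q|) * ((V + 4 * Cn) * (1 + m)) ≤
      Bp * A ^ 2 * (5 * (V + 4 * Cn)) * (1 + (q ^ 2 + m ^ 2)) := by
    calc _ = Bp * 1 * (V + 4 * Cn) * ((2 + 3 * |q|) * (1 + m)) := by ring
      _ ≤ Bp * A ^ 2 * (V + 4 * Cn) * (5 * (1 + (q ^ 2 + m ^ 2))) := by gcongr
      _ = _ := by ring
  have h7 : 2 * Bp * (3 * z ^ 2 * A ^ 2 * (1 + m ^ 2)) * V ≤
      Bp * A ^ 2 * (6 * z ^ 2 * V) * (1 + (q ^ 2 + m ^ 2)) := by
    have : 1 + m ^ 2 ≤ 1 + (q ^ 2 + m ^ 2) := by nlinarith [sq_nonneg q]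
    calc _ = Bp * A ^ 2 * (6 * z ^ 2 * V) * (1 + m ^ 2) := by ring
      _ ≤ _ := by gcongr
  calc _ ≤ Bp * A ^ 2 * (5 * (V + 4 * Cn)) * (1 + (q ^ 2 + m ^ 2)) +
      Bp * A ^ 2 * (6 * z ^ 2 * V) * (1 + (q ^ 2 + m ^ 2)) := add_le_add h6 h7
    _ = _ := by ring

/-- the estimate for fixed `u` -/
theorem fixu (z C : ℝ) (hz : 0 ≤ z) (hC : 0 ≤ C) : ∃ C' : ℝ, 0 < C' ∧
    ∀ {S : Type} (D : Species S) {I : Type} [Fintype I] [DecidableEq I] (sp : I → S) (ℓ : ℝ)
      (pb : (I → E3) → ℝ), Continuous pb → (∀ s, |D.charge s| ≤ z) →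
      ∀ (η : ℝ), 0 ≤ η → η * (1 + (Fintype.card I : ℝ)) ≤ 1 → ∀ Ψ : Wave D I, IsState D sp ℓ Ψ →
      nrm2 D Ψ = 1 → FL D sp ℓ pb C η Ψ →
      ∀ (y : E3) (r : ℝ), 0 < r → r ≤ 1 → Metric.closedBall y (4 * r) ⊆ cube ℓ →
      ∀ (t : E3 → ℝ) (A : ℝ), ContDiff ℝ SM t → 1 ≤ A → (∀ v, 2 * r < ‖v - y‖ → t v = 0) →
        (∀ v, |t v| ≤ A) → (∀ v, ‖fderiv ℝ t v‖ ≤ A) → (∀ v, |lap t v| ≤ A) →
      ∀ (p : E3 → ℝ) (Bp : ℝ), Continuous p → 0 ≤ Bp → (∀ ω, |p ω| ≤ Bp) →
        (∀ ω, p ω ≠ 0 → ‖ω - y‖ ≤ 3 * r) →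
        |wm D (fun x => (∑ i, D.charge (sp i) * t (x i)) *
          ((∑ j, D.charge (sp j) * ∫ ω, p ω / ‖ω - x j‖) - pb x * ∫ ω, p ω)) Ψ| ≤
          C' * Bp * A ^ 5 / r ^ 6 * (1 + wm D (fun x => nb y (8 * r) x ^ ((4 : ℝ) / 3)) Ψ) := by
  obtain ⟨Cn, hCn, hnear⟩ := near2_ball
  obtain ⟨C1, hC1, hfl⟩ := fluct z C hz hC
  set V := (volume (Metric.closedBall (0 : E3) 3)).toReal with hV
  have hV0 : 0 ≤ V := ENNReal.toReal_nonneg
  set K1 := 5 * (V + 4 * Cn) + 6 * z ^ 2 * V with hK1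
  have hK1p : 0 < K1 := by positivity
  refine ⟨(C + 1) * (K1 * (1 + C1) + 2 * (2 + 3 * z) * V), by positivity, ?_⟩
  intro S D I _ _ sp ℓ pb hpb hz' η hη hηN Ψ hΨ hn hFL y r hr hr1 hcube t A ht hA ht0 htA htA' htL
    p Bp hpc hBp hpB hp0
  set N : ℝ := (Fintype.card I : ℝ) with hN
  have hN0 : 0 ≤ N := Nat.cast_nonneg _
  set q : (I → E3) → ℝ := fun x => ∑ i, D.charge (sp i) * t (x i) with hq
  have hqs : ContDiff ℝ SM q := q_smooth (fun i => D.charge (sp i)) t ht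
  have hqS : Sy sp q := q_sy sp D.charge t
  have hA0 : 0 ≤ A := by linarith
  have hqQ : ∀ x, |q x| ≤ z * A * N := by
    intro x
    refine (Finset.abs_sum_le_sum_abs _ _).trans ?_
    calc _ ≤ ∑ _i : I, z * A := Finset.sum_le_sum fun i _ => by
            rw [abs_mul]
            exact mul_le_mul (hz' _) (htA _) (abs_nonneg _) hz
      _ = _ := by simp [hN]; ring
  have hpcomp : HasCompactSupport p := by
    refine compact_of_zero y (3 * r) fun w hw => ?_
    by_contra h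
    exact absurd (hp0 w h) (not_le.2 hw)
  set AA := Metric.closedBall y (3 * r) with hAA
  have hpA : ∀ ω, p ω ≠ 0 → ω ∈ AA := by
    intro ω h
    rw [hAA, Metric.mem_closedBall, dist_eq_norm]
    exact hp0 ω h
  set s : (I → E3) → ℝ := fun x => nb y (8 * r) x ^ ((4 : ℝ) / 3) with hs
  have hs0 : ∀ x, 0 ≤ s x := fun x => Real.rpow_nonneg (nb_nonneg _ _ _) _
  have hsm : Measurable s := (nb_meas y (8 * r)).pow_const _
  have hsM : ∀ x, |s x| ≤ N ^ ((4 : ℝ) / 3) := by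
    intro x
    rw [abs_of_nonneg (hs0 x)]
    exact Real.rpow_le_rpow (nb_nonneg _ _ _) (nb_le _ _ _) (by norm_num)
  -- the identity
  have hid : (fun x => (∑ i, D.charge (sp i) * t (x i)) *
          ((∑ j, D.charge (sp j) * ∫ ω, p ω / ‖ω - x j‖) - pb x * ∫ ω, p ω)) =
      fun x => ∫ ω in AA, (p ω * q x) * (phi D sp ω x - pb x) := by
    funext x
    rw [phi_int D sp x (pb x) (q x) p hpc hpcomp AA hpA]
  rw [hid]
  set M : ℝ := Bp * (2 + 3 * (z * A * N)) + 2 * Bp * (3 * z ^ 2 * A ^ 2 * N) with hM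
  have hmain := tci D sp ℓ pb hpb C η hC hη Ψ hΨ hn hFL r hr hr1 AA
    Metric.isClosed_closedBall.measurableSet
    ⟨3 * r + ‖y‖, by
      intro ω hω
      rw [hAA, Metric.mem_closedBall, dist_eq_norm] at hω
      rw [Metric.mem_closedBall, dist_eq_norm, sub_zero]
      calc ‖ω‖ = ‖(ω - y) + y‖ := by rw [sub_add_cancel]
        _ ≤ ‖ω - y‖ + ‖y‖ := norm_add_le _ _
        _ ≤ _ := by linarith⟩
    (by
      intro ω hω
      refine subset_trans ?_ hcube
      intro v hv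
      rw [Metric.mem_closedBall, dist_eq_norm] at hv ⊢
      rw [hAA, Metric.mem_closedBall, dist_eq_norm] at hω
      calc ‖v - y‖ = ‖(v - ω) + (ω - y)‖ := by rw [sub_add_sub_cancel]
        _ ≤ ‖v - ω‖ + ‖ω - y‖ := norm_add_le _ _
        _ ≤ _ := by linarith)
    (fun x ω => p ω * q x) (fun x ω => |p ω| * (2 + 3 * |q x|))
    (fun x ω => 2 * |p ω| * (3 * z ^ 2 * A ^ 2 * nb y (8 * r) x))
    (√(Bp * (2 + 3 * (z * A * N)))) M
    (by
      have h1 : Measurable (fun pp : (I → E3) × E3 => p pp.2) :=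
        hpc.measurable.comp measurable_snd
      have h2 : Measurable (fun pp : (I → E3) × E3 => q pp.1) :=
        hqs.continuous.measurable.comp measurable_fst
      exact h1.mul h2)
    (by
      have h1 : Measurable (fun pp : (I → E3) × E3 => |p pp.2|) :=
        (hpc.abs.measurable).comp measurable_snd
      have h2 : Measurable (fun pp : (I → E3) × E3 => |q pp.1|) :=
        (hqs.continuous.abs.measurable).comp measurable_fst
      exact h1.mul ((h2.const_mul 3).const_add 2))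
    (by
      have h1 : Measurable (fun pp : (I → E3) × E3 => |p pp.2|) :=
        (hpc.abs.measurable).comp measurable_snd
      have h2 : Measurable (fun pp : (I → E3) × E3 => nb y (8 * r) pp.1) :=
        (nb_meas y (8 * r)).comp measurable_fst
      exact (h1.const_mul 2).mul (h2.const_mul _))
    (by
      intro x ω _
      have h1 : |p ω| * (2 + 3 * |q x|) ≤ Bp * (2 + 3 * (z * A * N)) := by
        have := hqQ x
        have := hpB ω
        gcongr
      have h2 : 2 * |p ω| * (3 * z ^ 2 * A ^ 2 * nb y (8 * r) x) ≤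
          2 * Bp * (3 * z ^ 2 * A ^ 2 * N) := by
        have := hpB ω
        have := nb_le y (8 * r) x
        gcongr
        exact mul_nonneg (by positivity) (nb_nonneg _ _ _)
      have h3 : 0 ≤ Bp * (2 + 3 * (z * A * N)) := by positivity
      have h4 : 0 ≤ 2 * Bp * (3 * z ^ 2 * A ^ 2 * N) := by positivity
      constructor
      · show |p ω| * (2 + 3 * |q x|) ≤ M
        linarith
      · show 2 * |p ω| * (3 * z ^ 2 * A ^ 2 * nb y (8 * r) x) ≤ M
        linarith)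
    (by
      intro ω _
      obtain ⟨f₁, f₂, g1, g2, g3, g4, g5, g6, g7, g8, g9⟩ :=
        f12 sp (p ω) q hqs hqS (z * A * N) hqQ
      have hle : √(|p ω| * (2 + 3 * (z * A * N))) ≤ √(Bp * (2 + 3 * (z * A * N))) := by
        apply Real.sqrt_le_sqrt
        have := hpB ω
        gcongr
      refine ⟨f₁, f₂, g1, g2, g3, g4, fun x => (g5 x).trans hle, fun x => (g6 x).trans hle, g7, g8,
        fun x => (g9 x).trans ?_⟩
      refine mul_le_mul_of_nonneg_left ?_ (by positivity)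
      exact gr_q (fun i => D.charge (sp i)) z A (fun i => hz' _) t ht y r hr ht0 htA' x)
  refine hmain.trans ?_
  -- bounding
  have hX : wm D (fun x => ∫ ω in AA, (|p ω| * (2 + 3 * |q x|) * (1 + near2 ω x) +
      2 * |p ω| * (3 * z ^ 2 * A ^ 2 * nb y (8 * r) x))) Ψ ≤
      wm D (fun x => Bp * A ^ 2 * K1 * (1 + (q x ^ 2 + s x))) Ψ := by
    refine wm_mono (fun x => ?_) (fun x => ?_) ?_
    · refine integral_nonneg fun ω => ?_
      have := near2_nonneg ω x
      have := nb_nonneg y (8 * r) x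
      show 0 ≤ |p ω| * (2 + 3 * |q x|) * (1 + near2 ω x) +
        2 * |p ω| * (3 * z ^ 2 * A ^ 2 * nb y (8 * r) x)
      positivity
    · exact fix_x z Cn hz hCn hnear x y r hr hr1 A Bp hA hBp p hpB (q x)
    · refine WI.const_mul ?_ _
      refine WI.add (WI.of_cont hΨ continuous_const) ?_
      exact WI.add (WI.of_cont hΨ (hqs.continuous.pow 2)) (WI.of_bdd hΨ hsm _ hsM)
  have hY : wm D (fun x => Bp * A ^ 2 * K1 * (1 + (q x ^ 2 + s x))) Ψ =
      Bp * A ^ 2 * K1 * (1 + (wm D (fun x => q x ^ 2) Ψ + wm D s Ψ)) := by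
    have hq2 : WI (fun x => q x ^ 2) Ψ := WI.of_cont hΨ (hqs.continuous.pow 2)
    have hs2 : WI s Ψ := WI.of_bdd hΨ hsm _ hsM
    rw [wm_const_mul]
    have e1 := wm_add (W := fun _ => (1 : ℝ)) (WI.of_cont hΨ continuous_const) (WI.add hq2 hs2)
    have e2 := wm_add hq2 hs2
    rw [e1, e2, wm_const, hn, one_mul]
  have hQ2 : wm D (fun x => q x ^ 2) Ψ ≤ C1 * A ^ 3 / r ^ 4 * (1 + wm D s Ψ) :=
    hfl D sp ℓ pb hpb hz' η hη hηN Ψ hΨ hn hFL y r hr hr1 hcube t A ht hA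
      (fun v hv => ht0 v (by linarith)) htA htA' htL
  set T := wm D s Ψ with hT
  have hT0 : 0 ≤ T := wm_nonneg hs0
  have hvol : (volume AA).toReal ≤ V := by
    have h1 : volume AA ≤ volume (Metric.closedBall (0 : E3) 3) := by
      rw [hAA, Measure.addHaar_closedBall_center]
      exact measure_mono (Metric.closedBall_subset_closedBall (by linarith))
    exact ENNReal.toReal_mono measure_closedBall_lt_top.ne h1
  have hB : √(Bp * (2 + 3 * (z * A * N))) ^ 2 = Bp * (2 + 3 * (z * A * N)) :=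
    Real.sq_sqrt (by positivity)
  have hZ : 2 * √(Bp * (2 + 3 * (z * A * N))) ^ 2 * η * (volume AA).toReal ≤
      2 * Bp * (2 + 3 * z) * A * V := by
    rw [hB]
    have h1 : (2 + 3 * (z * A * N)) * η ≤ (2 + 3 * z) * A := by
      have h2 : 2 + 3 * (z * A * N) ≤ (2 + 3 * z) * A * (1 + N) := by
        have h3 : 0 ≤ A * N := by positivity
        have h4 : 0 ≤ z * A := by positivity
        nlinarith
      calc (2 + 3 * (z * A * N)) * η ≤ ((2 + 3 * z) * A * (1 + N)) * η := by gcongr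
        _ = (2 + 3 * z) * A * (η * (1 + N)) := by ring
        _ ≤ (2 + 3 * z) * A * 1 := by gcongr
        _ = _ := by ring
    calc _ = 2 * Bp * ((2 + 3 * (z * A * N)) * η) * (volume AA).toReal := by ring
      _ ≤ 2 * Bp * ((2 + 3 * z) * A) * V := by gcongr
      _ = _ := by ring
  have hAr : 1 ≤ A ^ 3 / r ^ 4 := by
    rw [one_le_div (by positivity)]
    calc r ^ 4 ≤ 1 := pow_le_one₀ hr.le hr1
      _ ≤ A ^ 3 := one_le_pow₀ hA
  have hfin1 : Bp * A ^ 2 * K1 * (1 + (wm D (fun x => q x ^ 2) Ψ + T)) ≤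
      Bp * A ^ 2 * K1 * ((1 + C1) * (A ^ 3 / r ^ 4) * (1 + T)) := by
    refine mul_le_mul_of_nonneg_left ?_ (by positivity)
    have h1 : (1 + T) ≤ (A ^ 3 / r ^ 4) * (1 + T) := le_mul_of_one_le_left (by positivity) hAr
    have h2 : C1 * A ^ 3 / r ^ 4 * (1 + T) = C1 * (A ^ 3 / r ^ 4) * (1 + T) := by ring
    rw [h2] at hQ2
    nlinarith
  have hfin2 : 2 * Bp * (2 + 3 * z) * A * V ≤
      2 * Bp * (2 + 3 * z) * V * (A ^ 5 / r ^ 4) * (1 + T) := by
    have h1 : A ≤ (A ^ 5 / r ^ 4) * (1 + T) := by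
      have h2 : A ≤ A ^ 5 / r ^ 4 := by
        rw [le_div_iff₀ (by positivity)]
        calc A * r ^ 4 ≤ A * 1 := by
              gcongr
              exact pow_le_one₀ hr.le hr1
          _ = A ^ 1 := by ring
          _ ≤ A ^ 5 := pow_le_pow_right₀ hA (by norm_num)
      exact h2.trans (le_mul_of_one_le_right (by positivity) (by linarith))
    calc 2 * Bp * (2 + 3 * z) * A * V = 2 * Bp * (2 + 3 * z) * V * A := by ring
      _ ≤ 2 * Bp * (2 + 3 * z) * V * ((A ^ 5 / r ^ 4) * (1 + T)) := by gcongr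
      _ = _ := by ring
  have hCr : 0 ≤ C / r ^ 2 := by positivity
  calc C / r ^ 2 * (wm D (fun x => ∫ ω in AA, (|p ω| * (2 + 3 * |q x|) * (1 + near2 ω x) +
      2 * |p ω| * (3 * z ^ 2 * A ^ 2 * nb y (8 * r) x))) Ψ +
        2 * √(Bp * (2 + 3 * (z * A * N))) ^ 2 * η * (volume AA).toReal)
      ≤ C / r ^ 2 * (Bp * A ^ 2 * K1 * ((1 + C1) * (A ^ 3 / r ^ 4) * (1 + T)) +
        2 * Bp * (2 + 3 * z) * V * (A ^ 5 / r ^ 4) * (1 + T)) := by
        refine mul_le_mul_of_nonneg_left ?_ hCr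
        refine add_le_add ?_ (hZ.trans hfin2)
        exact (hX.trans hY.le).trans hfin1
    _ = C * ((K1 * (1 + C1) + 2 * (2 + 3 * z) * V) * (Bp * A ^ 5 / r ^ 6) * (1 + T)) := by
        have hr0 : r ≠ 0 := hr.ne'
        field_simp
    _ ≤ (C + 1) * ((K1 * (1 + C1) + 2 * (2 + 3 * z) * V) * (Bp * A ^ 5 / r ^ 6) * (1 + T)) := by
        gcongr
        linarith
    _ = _ := by ring

theorem prod_int {S : Type} {D : Species S} {I : Type} [Fintype I] [DecidableEq I] {sp : I → S}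
    {ℓ : ℝ} {Ψ : Wave D I} (hΨ : IsState D sp ℓ Ψ) (H : (I → E3) → E3 → ℝ)
    (hH : Continuous (fun p : (I → E3) × E3 => H p.1 p.2)) (y : E3) (R : ℝ)
    (h0 : ∀ x u, R < ‖u - y‖ → H x u = 0) (τ : I → Fin D.g) :
    Integrable (fun p : (I → E3) × E3 => H p.1 p.2 * ‖Ψ τ p.1‖ ^ 2)
      ((volume : Measure (I → E3)).prod (volume : Measure E3)) := by
  have hcont : Continuous (fun p : (I → E3) × E3 => H p.1 p.2 * ‖Ψ τ p.1‖ ^ 2) := by
    have h1 : Continuous (Ψ τ) := (hΨ.smooth τ).continuous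
    exact hH.mul ((h1.comp continuous_fst).norm.pow 2)
  refine hcont.integrable_of_hasCompactSupport ?_
  apply HasCompactSupport.of_support_subset_isCompact
    ((hΨ.compact τ).isCompact.prod (isCompact_closedBall y R))
  intro p hp
  rw [Function.mem_support] at hp
  refine ⟨?_, ?_⟩
  · apply subset_tsupport
    intro h
    apply hp
    rw [h]
    simp
  · rw [Metric.mem_closedBall, dist_eq_norm]
    by_contra hh
    apply hp
    rw [h0 p.1 p.2 (not_le.1 hh), zero_mul]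

theorem swap_int {S : Type} {D : Species S} {I : Type} [Fintype I] [DecidableEq I] {sp : I → S}
    {ℓ : ℝ} {Ψ : Wave D I} (hΨ : IsState D sp ℓ Ψ) (H : (I → E3) → E3 → ℝ)
    (hH : Continuous (fun p : (I → E3) × E3 => H p.1 p.2)) (y : E3) (R : ℝ)
    (h0 : ∀ x u, R < ‖u - y‖ → H x u = 0) :
    wm D (fun x => ∫ u, H x u) Ψ = ∫ u, wm D (fun x => H x u) Ψ := by
  unfold wm
  rw [integral_finsetSum]
  · refine Finset.sum_congr rfl fun τ _ => ?_
    have h1 : ∀ x, (∫ u, H x u) * ‖Ψ τ x‖ ^ 2 = ∫ u, H x u * ‖Ψ τ x‖ ^ 2 := by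
      intro x
      rw [integral_mul_const]
    simp only [h1]
    exact integral_integral_swap (f := fun x u => H x u * ‖Ψ τ x‖ ^ 2)
      (prod_int hΨ H hH y R h0 τ)
  · intro τ _
    exact (prod_int hΨ H hH y R h0 τ).integral_prod_right

theorem swap_bound {S : Type} {D : Species S} {I : Type} [Fintype I] [DecidableEq I] {sp : I → S}
    {ℓ : ℝ} {Ψ : Wave D I} (hΨ : IsState D sp ℓ Ψ) (H : (I → E3) → E3 → ℝ)
    (hH : Continuous (fun p : (I → E3) × E3 => H p.1 p.2)) (y : E3) (R : ℝ) (hR : R ≤ 3)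
    (h0 : ∀ x u, R < ‖u - y‖ → H x u = 0) (B : ℝ) (hB0 : 0 ≤ B)
    (hB : ∀ u, ‖u - y‖ ≤ R → |wm D (fun x => H x u) Ψ| ≤ B) :
    |wm D (fun x => ∫ u, H x u) Ψ| ≤ B * (volume (Metric.closedBall (0 : E3) 3)).toReal := by
  rw [swap_int hΨ H hH y R h0]
  have h1 : ∫ u in Metric.closedBall y R, wm D (fun x => H x u) Ψ =
      ∫ u, wm D (fun x => H x u) Ψ := by
    apply setIntegral_eq_integral_of_forall_compl_eq_zero
    intro u hu
    rw [Metric.mem_closedBall, dist_eq_norm, not_le] at hu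
    have : (fun x => H x u) = fun _ => 0 := by
      funext x
      exact h0 x u hu
    rw [this, wm_const, zero_mul]
  rw [← h1, ← Real.norm_eq_abs]
  refine (norm_setIntegral_le_of_norm_le_const (C := B) measure_closedBall_lt_top ?_).trans ?_
  · intro u hu
    rw [Metric.mem_closedBall, dist_eq_norm] at hu
    exact hB u hu
  · refine mul_le_mul_of_nonneg_left ?_ hB0
    have h2 : volume (Metric.closedBall y R) ≤ volume (Metric.closedBall (0 : E3) 3) := by
      rw [Measure.addHaar_closedBall_center]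
      exact measure_mono (Metric.closedBall_subset_closedBall hR)
    exact ENNReal.toReal_mono measure_closedBall_lt_top.ne h2

theorem main_repr {a b l : E3 → ℝ} (hK : Ker a b l) {I : Type} [Fintype I] [DecidableEq I]
    (c : I → ℝ) (χ : E3 → ℝ) (x : I → E3) (p0 : ℝ) (k : ℕ) :
    (∑ i, ∑ j, χ (x i) * (χ (x i) - χ (x j)) * (c i * c j) *
        (2 ^ k * l ((2 : ℝ) ^ k • (x i - x j)))) - p0 * ∑ i, c i * χ (x i) ^ 2 =
    ∫ u, ((∑ i, c i * (χ (x i) ^ 2 * (8 ^ k * a ((2 : ℝ) ^ k • (x i - u))))) *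
        ((∑ j, c j * (2 ^ k * b ((2 : ℝ) ^ k • (u - x j)))) - p0) -
      (∑ i, c i * (χ (x i) * (8 ^ k * a ((2 : ℝ) ^ k • (x i - u))))) *
        (∑ j, c j * (χ (x j) * (2 ^ k * b ((2 : ℝ) ^ k • (u - x j)))))) := by
  have hca : Continuous a := hK.a_smooth.continuous
  have hcb : Continuous b := hK.b_smooth.continuous
  have hp : (0 : ℝ) < 2 ^ k := by positivity
  have hc1 : ∀ v : E3, HasCompactSupport (fun u => 8 ^ k * a ((2 : ℝ) ^ k • (v - u))) := by
    intro v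
    refine compact_of_zero v ((2 ^ k)⁻¹) fun w hw => ?_
    rw [hK.a_supp, mul_zero]
    rw [norm_smul, Real.norm_of_nonneg hp.le, norm_sub_rev]
    have : 1 < 2 ^ k * ‖w - v‖ := by
      calc (1 : ℝ) = 2 ^ k * (2 ^ k)⁻¹ := by rw [mul_inv_cancel₀ hp.ne']
        _ < _ := by gcongr
    linarith
  have hi1 : ∀ v : E3, Integrable (fun u => 8 ^ k * a ((2 : ℝ) ^ k • (v - u))) := by
    intro v
    refine Continuous.integrable_of_hasCompactSupport ?_ (hc1 v)
    exact continuous_const.mul (hca.comp (by fun_prop))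
  have hi2 : ∀ v w : E3, Integrable (fun u => (8 ^ k * a ((2 : ℝ) ^ k • (v - u))) *
      (2 ^ k * b ((2 : ℝ) ^ k • (u - w)))) := by
    intro v w
    refine Continuous.integrable_of_hasCompactSupport ?_ ((hc1 v).mul_right)
    exact (continuous_const.mul (hca.comp (by fun_prop))).mul
      (continuous_const.mul (hcb.comp (by fun_prop)))
  have e1 : (fun u => ((∑ i, c i * (χ (x i) ^ 2 * (8 ^ k * a ((2 : ℝ) ^ k • (x i - u))))) *
        ((∑ j, c j * (2 ^ k * b ((2 : ℝ) ^ k • (u - x j)))) - p0) -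
      (∑ i, c i * (χ (x i) * (8 ^ k * a ((2 : ℝ) ^ k • (x i - u))))) *
        (∑ j, c j * (χ (x j) * (2 ^ k * b ((2 : ℝ) ^ k • (u - x j))))))) =
      fun u => (∑ i, ∑ j, (χ (x i) * (χ (x i) - χ (x j)) * (c i * c j)) *
        ((8 ^ k * a ((2 : ℝ) ^ k • (x i - u))) * (2 ^ k * b ((2 : ℝ) ^ k • (u - x j))))) -
        ∑ i, (p0 * (c i * χ (x i) ^ 2)) * (8 ^ k * a ((2 : ℝ) ^ k • (x i - u))) := by
    funext u
    rw [mul_sub, Finset.sum_mul_sum, Finset.sum_mul_sum, sub_right_comm, ← Finset.sum_sub_distrib]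
    congr 1
    · refine Finset.sum_congr rfl fun i _ => ?_
      rw [← Finset.sum_sub_distrib]
      refine Finset.sum_congr rfl fun j _ => ?_
      ring
    · rw [Finset.sum_mul]
      refine Finset.sum_congr rfl fun i _ => ?_
      ring
  rw [e1, integral_sub, integral_finsetSum, integral_finsetSum]
  · congr 1
    · refine Finset.sum_congr rfl fun i _ => ?_
      rw [integral_finsetSum]
      · refine Finset.sum_congr rfl fun j _ => ?_
        rw [integral_const_mul, ker_l hK]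
      · intro j _
        exact (hi2 _ _).const_mul _
    · rw [Finset.mul_sum]
      refine Finset.sum_congr rfl fun i _ => ?_
      rw [integral_const_mul, ker_one hK, mul_one]
  · intro i _
    exact (hi1 _).const_mul _
  · intro i _
    exact integrable_finsetSum _ fun j _ => (hi2 _ _).const_mul _
  · exact integrable_finsetSum _ fun i _ => integrable_finsetSum _ fun j _ => (hi2 _ _).const_mul _
  · exact integrable_finsetSum _ fun i _ => (hi1 _).const_mul _

/-- TARGET (`C', m` depend only on `z`, on the kernels and on the constant `C` of `FL`) -/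
theorem main_term (z C : ℝ) (hz : 0 ≤ z) (hC : 0 ≤ C) (a b l : E3 → ℝ) (hK : Ker a b l) :
    ∃ (C' : ℝ) (m : ℕ), 0 < C' ∧
    ∀ {S : Type} (D : Species S) {I : Type} [Fintype I] [DecidableEq I] (sp : I → S) (ℓ : ℝ)
      (pb : (I → E3) → ℝ), Continuous pb → (∀ s, |D.charge s| ≤ z) →
      ∀ (η : ℝ), 0 ≤ η → η * (1 + (Fintype.card I : ℝ)) ≤ 1 → ∀ Ψ : Wave D I, IsState D sp ℓ Ψ →
      nrm2 D Ψ = 1 → FL D sp ℓ pb C η Ψ →
      ∀ (y : E3) (r : ℝ) (k : ℕ), 0 < r → r ≤ 1 → 1 ≤ 2 ^ k * r →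
        Metric.closedBall y (4 * r) ⊆ cube ℓ →
        |wm D (fun x => (∑ i, ∑ j, cy y r (x i) * (cy y r (x i) - cy y r (x j)) *
            (D.charge (sp i) * D.charge (sp j)) * (2 ^ k * l ((2 : ℝ) ^ k • (x i - x j)))) -
            pb x * ∑ i, D.charge (sp i) * cy y r (x i) ^ 2) Ψ| ≤
          C' * (2 ^ k) ^ m * (1 + wm D (fun x => nb y (8 * r) x ^ ((4 : ℝ) / 3)) Ψ) := by
  obtain ⟨C0, hC0, hfix⟩ := fixu z C hz hC
  obtain ⟨CA, hCA, haCA, htb⟩ := t_bounds a hK.a_smooth hK.a_supp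
  obtain ⟨C2, hC2, hker⟩ := kern_b b hK.b_smooth hK.b_out
  set V := (volume (Metric.closedBall (0 : E3) 3)).toReal with hV
  have hV0 : 0 ≤ V := ENNReal.toReal_nonneg
  refine ⟨2 * (C0 * (CA + C2) * CA ^ 5) * V + 1, 34, by positivity, ?_⟩
  intro S D I _ _ sp ℓ pb hpb hz' η hη hηN Ψ hΨ hn hFL y r k hr hr1 hk hcube
  obtain ⟨P, hPs, hPb, hP0, hPe, hPi⟩ := hker y r k hr hr1 hk
  set T := wm D (fun x => nb y (8 * r) x ^ ((4 : ℝ) / 3)) Ψ with hT
  have hT0 : 0 ≤ T := wm_nonneg fun x => Real.rpow_nonneg (nb_nonneg _ _ _) _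
  have hKp : (0 : ℝ) < 2 ^ k := by positivity
  have hK1 : (1 : ℝ) ≤ 2 ^ k := one_le_pow₀ (by norm_num)
  have h8 : (8 : ℝ) ^ k = (2 ^ k) ^ 3 := by
    rw [← pow_mul, mul_comm k 3, pow_mul]; norm_num
  have hca : Continuous a := hK.a_smooth.continuous
  have hcb : Continuous b := hK.b_smooth.continuous
  have hcy : Continuous (cy y r) := (cy_smooth y r).continuous
  -- the integrand
  set H1 : (I → E3) → E3 → ℝ := fun x u =>
    (∑ i, D.charge (sp i) * (cy y r (x i) ^ 2 * (8 ^ k * a ((2 : ℝ) ^ k • (x i - u))))) *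
        ((∑ j, D.charge (sp j) * (2 ^ k * b ((2 : ℝ) ^ k • (u - x j)))) - pb x) with hH1
  set H2 : (I → E3) → E3 → ℝ := fun x u =>
    (∑ i, D.charge (sp i) * (cy y r (x i) * (8 ^ k * a ((2 : ℝ) ^ k • (x i - u))))) *
        (∑ j, D.charge (sp j) * (cy y r (x j) * (2 ^ k * b ((2 : ℝ) ^ k • (u - x j))))) with hH2
  clear_value H1 H2
  have cH1 : Continuous (fun p : (I → E3) × E3 => H1 p.1 p.2) := by
    rw [hH1]
    fun_prop
  have cH2 : Continuous (fun p : (I → E3) × E3 => H2 p.1 p.2) := by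
    rw [hH2]
    fun_prop
  have hrep : (fun x : I → E3 => (∑ i, ∑ j, cy y r (x i) * (cy y r (x i) - cy y r (x j)) *
            (D.charge (sp i) * D.charge (sp j)) * (2 ^ k * l ((2 : ℝ) ^ k • (x i - x j)))) -
            pb x * ∑ i, D.charge (sp i) * cy y r (x i) ^ 2) =
      fun x => ∫ u, (H1 x u - H2 x u) := by
    funext x
    rw [hH1, hH2]
    exact main_repr hK (fun i => D.charge (sp i)) (cy y r) x (pb x) k
  rw [hrep]
  -- vanishing
  have hvan : ∀ (x : I → E3) u, 5 / 2 * r < ‖u - y‖ → ∀ i,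
      cy y r (x i) * (8 ^ k * a ((2 : ℝ) ^ k • (x i - u))) = 0 := by
    intro x u hu i
    by_cases h1 : 2 * r < ‖x i - y‖
    · rw [cy_zero y r hr _ h1, zero_mul]
    · rw [hK.a_supp, mul_zero, mul_zero]
      rw [norm_smul, Real.norm_of_nonneg hKp.le]
      have h2 : ‖u - y‖ ≤ ‖x i - u‖ + ‖x i - y‖ := by
        calc ‖u - y‖ = ‖(x i - y) - (x i - u)‖ := by congr 1; abel
          _ ≤ ‖x i - y‖ + ‖x i - u‖ := norm_sub_le _ _
          _ = _ := add_comm _ _
      have h3 : r / 2 ≤ ‖x i - u‖ := by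
        push Not at h1
        linarith
      nlinarith
  have hvan0 : ∀ (x : I → E3) u, 5 / 2 * r < ‖u - y‖ → H1 x u - H2 x u = 0 := by
    intro x u hu
    have h1 : H1 x u = 0 := by
      rw [hH1]
      show (∑ i, D.charge (sp i) * (cy y r (x i) ^ 2 * (8 ^ k * a ((2 : ℝ) ^ k • (x i - u))))) *
        _ = 0
      rw [Finset.sum_eq_zero, zero_mul]
      intro i _
      have := hvan x u hu i
      calc _ = D.charge (sp i) * cy y r (x i) *
            (cy y r (x i) * (8 ^ k * a ((2 : ℝ) ^ k • (x i - u)))) := by ring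
        _ = 0 := by rw [this, mul_zero]
    have h2 : H2 x u = 0 := by
      rw [hH2]
      show (∑ i, D.charge (sp i) * (cy y r (x i) * (8 ^ k * a ((2 : ℝ) ^ k • (x i - u))))) *
        _ = 0
      rw [Finset.sum_eq_zero, zero_mul]
      intro i _
      rw [hvan x u hu i, mul_zero]
    rw [h1, h2, sub_zero]
  -- constants
  set B := C0 * ((CA + C2) * 8 ^ k) * (CA * (2 ^ k) ^ 5) ^ 5 / r ^ 6 * (1 + T) with hB
  have hCA0 : 0 < CA := by linarith
  have hB0 : 0 ≤ B := by positivity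
  have hA1 : 1 ≤ CA * (2 ^ k) ^ 5 := by
    have : (1 : ℝ) ≤ (2 ^ k) ^ 5 := one_le_pow₀ hK1
    nlinarith
  have hrK : 1 / r ^ 6 ≤ (2 ^ k) ^ 6 := by
    rw [div_le_iff₀ (by positivity), ← mul_pow]
    exact one_le_pow₀ hk
  have hBle : B ≤ C0 * (CA + C2) * CA ^ 5 * (2 ^ k) ^ 34 * (1 + T) := by
    rw [hB, h8]
    calc C0 * ((CA + C2) * (2 ^ k) ^ 3) * (CA * (2 ^ k) ^ 5) ^ 5 / r ^ 6 * (1 + T)
        = C0 * (CA + C2) * CA ^ 5 * (2 ^ k) ^ 28 * (1 / r ^ 6) * (1 + T) := by ring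
      _ ≤ C0 * (CA + C2) * CA ^ 5 * (2 ^ k) ^ 28 * (2 ^ k) ^ 6 * (1 + T) := by gcongr
      _ = _ := by ring
  have hmain : |wm D (fun x => ∫ u, (H1 x u - H2 x u)) Ψ| ≤ (2 * B) * V := by
    refine swap_bound hΨ (fun x u => H1 x u - H2 x u) (cH1.sub cH2) y (5 / 2 * r) (by linarith)
      hvan0 (2 * B) (by positivity) ?_
    intro u hu
    have hc1 : Continuous (fun x => H1 x u) := by
      exact cH1.comp (Continuous.prodMk continuous_id continuous_const)
    have hc2 : Continuous (fun x => H2 x u) := by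
      exact cH2.comp (Continuous.prodMk continuous_id continuous_const)
    have hsub : wm D (fun x => H1 x u - H2 x u) Ψ = wm D (fun x => H1 x u) Ψ +
        (-1) * wm D (fun x => H2 x u) Ψ := by
      rw [← wm_const_mul, ← wm_add (WI.of_cont hΨ hc1) ((WI.of_cont hΨ hc2).const_mul (-1))]
      congr 1
      funext x
      ring
    rw [hsub]
    have b1 : |wm D (fun x => H1 x u) Ψ| ≤ B := by
      obtain ⟨g1, g2, g3, g4, g5⟩ := htb y u r k hr hr1 hk
        (fun v => cy y r v ^ 2 * (8 ^ k * a ((2 : ℝ) ^ k • (v - u)))) (Or.inl rfl)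
      have hh := hfix D sp ℓ pb hpb hz' η hη hηN Ψ hΨ hn hFL y r hr hr1 hcube
        (fun v => cy y r v ^ 2 * (8 ^ k * a ((2 : ℝ) ^ k • (v - u)))) (CA * (2 ^ k) ^ 5)
        g1 hA1 g2 g3 g4 g5
        (fun ω => 8 ^ k * a ((2 : ℝ) ^ k • (u - ω))) ((CA + C2) * 8 ^ k)
        (continuous_const.mul (hca.comp (by fun_prop))) (by positivity)
        (by
          intro ω
          rw [abs_mul, abs_of_pos (by positivity : (0 : ℝ) < 8 ^ k), mul_comm]
          refine mul_le_mul_of_nonneg_right ?_ (by positivity)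
          have := haCA ((2 : ℝ) ^ k • (u - ω))
          linarith)
        (by
          intro ω hω
          by_contra hlt
          push Not at hlt
          apply hω
          have h3 : r / 2 ≤ ‖u - ω‖ := by
            have h2 : ‖ω - y‖ ≤ ‖u - y‖ + ‖u - ω‖ := by
              calc ‖ω - y‖ = ‖(u - y) - (u - ω)‖ := by congr 1; abel
                _ ≤ _ := norm_sub_le _ _
            linarith
          rw [hK.a_supp, mul_zero]
          rw [norm_smul, Real.norm_of_nonneg hKp.le]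
          nlinarith)
      refine le_trans (le_of_eq ?_) hh
      congr 2
      funext x
      rw [hH1]
      show (∑ i, D.charge (sp i) * (cy y r (x i) ^ 2 * (8 ^ k * a ((2 : ℝ) ^ k • (x i - u))))) *
        ((∑ j, D.charge (sp j) * (2 ^ k * b ((2 : ℝ) ^ k • (u - x j)))) - pb x) =
        (∑ i, D.charge (sp i) * (cy y r (x i) ^ 2 * (8 ^ k * a ((2 : ℝ) ^ k • (x i - u))))) *
          ((∑ j, D.charge (sp j) * ∫ ω, 8 ^ k * a ((2 : ℝ) ^ k • (u - ω)) / ‖ω - x j‖) -
            pb x * ∫ ω, 8 ^ k * a ((2 : ℝ) ^ k • (u - ω)))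
      rw [ker_one hK, mul_one]
      congr 2
      refine Finset.sum_congr rfl fun j _ => ?_
      rw [ker_b hK]
    have b2 : |wm D (fun x => H2 x u) Ψ| ≤ B := by
      obtain ⟨g1, g2, g3, g4, g5⟩ := htb y u r k hr hr1 hk
        (fun v => cy y r v * (8 ^ k * a ((2 : ℝ) ^ k • (v - u)))) (Or.inr rfl)
      have hPu : Continuous (fun ω => P u ω) :=
        hPs.continuous.comp (by fun_prop : Continuous fun ω : E3 => (u, ω))
      have hh := hfix D sp ℓ pb hpb hz' η hη hηN Ψ hΨ hn hFL y r hr hr1 hcube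
        (fun v => cy y r v * (8 ^ k * a ((2 : ℝ) ^ k • (v - u)))) (CA * (2 ^ k) ^ 5)
        g1 hA1 g2 g3 g4 g5
        (fun ω => P u ω) ((CA + C2) * 8 ^ k) hPu (by positivity)
        (by
          intro ω
          refine (hPb u ω).trans ?_
          refine mul_le_mul_of_nonneg_right ?_ (by positivity)
          linarith)
        (by
          intro ω hω
          have := hP0 u ω hω
          linarith)
      refine le_trans (le_of_eq ?_) hh
      congr 2
      funext x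
      rw [hH2]
      show (∑ i, D.charge (sp i) * (cy y r (x i) * (8 ^ k * a ((2 : ℝ) ^ k • (x i - u))))) *
        (∑ j, D.charge (sp j) * (cy y r (x j) * (2 ^ k * b ((2 : ℝ) ^ k • (u - x j))))) =
        (∑ i, D.charge (sp i) * (cy y r (x i) * (8 ^ k * a ((2 : ℝ) ^ k • (x i - u))))) *
          ((∑ j, D.charge (sp j) * ∫ ω, P u ω / ‖ω - x j‖) - pb x * ∫ ω, P u ω)
      rw [hPi, mul_zero, sub_zero]
      congr 1
      refine Finset.sum_congr rfl fun j _ => ?_
      rw [hPe]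
    rw [abs_le] at b1 b2 ⊢
    constructor <;> linarith
  refine hmain.trans ?_
  have hX0 : 0 ≤ (2 ^ k) ^ 34 * (1 + T) := by positivity
  calc 2 * B * V ≤ 2 * (C0 * (CA + C2) * CA ^ 5 * (2 ^ k) ^ 34 * (1 + T)) * V := by gcongr
    _ = 2 * (C0 * (CA + C2) * CA ^ 5) * V * ((2 ^ k) ^ 34 * (1 + T)) := by ring
    _ ≤ (2 * (C0 * (CA + C2) * CA ^ 5) * V + 1) * ((2 ^ k) ^ 34 * (1 + T)) := by
        refine mul_le_mul_of_nonneg_right (by linarith) hX0
    _ = _ := by ring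

end Pool.Agent.Helper780_CP.RQ10
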