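import Pool.Agent.Helper780_CP.LLDefs2

set_option autoImplicit false

open MeasureTheory

namespace Pool.Agent.Helper780_CP.RACT

open Pool.Agent.Helper780_CP
open Pool.Agent.Helper985.CP

open Pool.Agent.Helper985.CP

theorem act_rpow {s : ℝ} (hs : 1 ≤ s) : s ^ ((2 : ℝ) / 3) ≤ 1 + (s - 1) ^ ((2 : ℝ) / 3) := by
  have h := Real.rpow_add_le_add_rpow (by norm_num : (0:ℝ) ≤ 1) (by linarith : (0:ℝ) ≤ s - 1)
    (by norm_num : (0:ℝ) ≤ 2 / 3) (by norm_num : (2:ℝ)/3 ≤ 1)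
  have e : (1:ℝ) + (s - 1) = s := by ring
  rw [e, Real.one_rpow] at h
  exact h

theorem act_nk_ge {I : Type} [Fintype I] (x : I → E3) (k : ℕ) (i : I) : 1 ≤ nk x k i := by
  unfold nk
  have h0 : ∀ j ∈ Finset.univ, (0:ℝ) ≤ (if 2 ^ k * ‖x j - x i‖ ≤ 4 then (1:ℝ) else 0) := by
    intro j _
    split_ifs <;> norm_num
  have h := Finset.single_le_sum h0 (Finset.mem_univ i)
  have e : (if 2 ^ k * ‖x i - x i‖ ≤ 4 then (1:ℝ) else 0) = 1 := by
    rw [if_pos]
    simp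
  rw [e] at h
  exact h

theorem act_nT_le {I : Type} [Fintype I] (y : E3) {r : ℝ} (hr : 0 < r) (x : I → E3) :
    nT y r x ≤ nb y (12 * r) x := by
  unfold nT nb
  refine Finset.sum_le_sum ?_
  intro i _
  unfold cy ct
  split_ifs with h
  · have h1 := Real.smoothTransition.le_one ((4 - ‖(6 * r)⁻¹ • (x i - y)‖ ^ 2) / 3)
    have h2 := Real.smoothTransition.nonneg ((4 - ‖(6 * r)⁻¹ • (x i - y)‖ ^ 2) / 3)
    nlinarith
  · have h3 : 2 ≤ ‖(6 * r)⁻¹ • (x i - y)‖ := by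
      rw [norm_smul, norm_inv, Real.norm_of_nonneg (by positivity), inv_mul_eq_div,
        le_div_iff₀ (by positivity)]
      push Not at h
      linarith
    rw [Real.smoothTransition.zero_of_nonpos (by nlinarith)]
    norm_num

theorem act_nb_nonneg {I : Type} [Fintype I] (y : E3) (R : ℝ) (x : I → E3) : 0 ≤ nb y R x := by
  unfold nb
  exact Finset.sum_nonneg fun i _ => by split_ifs <;> norm_num

theorem act_bt_sq_le {I : Type} [Fintype I] (y : E3) {r : ℝ} (hr : 0 < r) (k : ℕ) (x : I → E3) :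
    bt y r k x ^ 2 ≤ (if (2:ℝ) ^ k < (1 + nb y (12 * r) x) / r ^ 2 then 1 else 0) := by
  have h1 : bt y r k x ≤ 1 := Real.smoothTransition.le_one _
  have h2 : 0 ≤ bt y r k x := Real.smoothTransition.nonneg _
  split_ifs with h
  · nlinarith
  · have h3 : bt y r k x = 0 := by
      unfold bt
      apply Real.smoothTransition.zero_of_nonpos
      push Not at h
      have h4 := act_nT_le y hr x
      rw [div_le_iff₀ (by positivity)] at h
      have : (1 + nT y r x) / (2 ^ k * r ^ 2) ≤ 1 := by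
        rw [div_le_one (by positivity)]
        linarith
      linarith
    rw [h3]; norm_num

theorem act_count (M : ℝ) (hM : 1 ≤ M) (k0 k1 : ℕ) :
    ∑ k ∈ Finset.Ico k0 k1, (if (2:ℝ) ^ k < M then (1:ℝ) else 0) ≤ 6 * M ^ ((1:ℝ) / 3) := by
  have hM0 : 0 < M := by linarith
  rw [← Finset.sum_filter, Finset.sum_const, nsmul_eq_mul, mul_one]
  have hsub : (Finset.Ico k0 k1).filter (fun k => (2:ℝ) ^ k < M) ⊆
      Finset.range (⌈Real.logb 2 M⌉₊) := by
    intro k hk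
    rw [Finset.mem_filter] at hk
    rw [Finset.mem_range, Nat.lt_ceil, Real.lt_logb_iff_rpow_lt (by norm_num) hM0,
      Real.rpow_natCast]
    exact hk.2
  have hcard := Finset.card_le_card hsub
  rw [Finset.card_range] at hcard
  have hc : (((Finset.Ico k0 k1).filter (fun k => (2:ℝ) ^ k < M)).card : ℝ) ≤
      (⌈Real.logb 2 M⌉₊ : ℝ) := by exact_mod_cast hcard
  have hlog0 : 0 ≤ Real.logb 2 M := Real.logb_nonneg (by norm_num) hM
  have h1 := Nat.ceil_lt_add_one hlog0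
  have h2 : Real.log M ≤ M ^ ((1:ℝ)/3) / (1/3) := Real.log_le_rpow_div hM0.le (by norm_num)
  have h3 : (1:ℝ) ≤ M ^ ((1:ℝ)/3) := Real.one_le_rpow hM (by norm_num)
  have h4 : Real.logb 2 M ≤ 5 * M ^ ((1:ℝ)/3) := by
    unfold Real.logb
    rw [div_le_iff₀ (Real.log_pos (by norm_num))]
    have := Real.log_two_gt_d9
    have h5 : Real.log M ≤ 3 * M ^ ((1:ℝ)/3) := by linarith
    nlinarith
  linarith

/-- TARGET -/
theorem act : ∃ C : ℝ, 0 < C ∧ ∀ {I : Type} [Fintype I] [DecidableEq I] (x : I → E3) (y : E3)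
    (r : ℝ) (k0 k1 : ℕ), 0 < r → r ≤ 1 →
    ∑ k ∈ Finset.Ico k0 k1, bt y r k x ^ 2 * ∑ i, (if ‖x i - y‖ < 6 * r then
        nk x k i ^ ((2 : ℝ) / 3) else 0) ≤
      (∑ k ∈ Finset.Ico k0 k1, ∑ i, if ‖x i - y‖ < 6 * r then
        (nk x k i - 1) ^ ((2 : ℝ) / 3) else 0) +
      C / r * (1 + nb y (12 * r) x ^ ((4 : ℝ) / 3)) := by
  refine ⟨12, by norm_num, ?_⟩
  intro I _ _ x y r k0 k1 hr hr1
  set n := nb y (12 * r) x with hn
  have hn0 : 0 ≤ n := act_nb_nonneg _ _ _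
  have hN : (∑ i, if ‖x i - y‖ < 6 * r then (1:ℝ) else 0) ≤ n := by
    rw [hn]; unfold nb
    refine Finset.sum_le_sum fun i _ => ?_
    by_cases h : ‖x i - y‖ < 6 * r
    · rw [if_pos h, if_pos (by linarith)]
    · rw [if_neg h]; split_ifs <;> norm_num
  have hN0 : 0 ≤ (∑ i, if ‖x i - y‖ < 6 * r then (1:ℝ) else 0) :=
    Finset.sum_nonneg fun i _ => by split_ifs <;> norm_num
  set N := (∑ i, if ‖x i - y‖ < 6 * r then (1:ℝ) else 0) with hNd
  have hk : ∀ k ∈ Finset.Ico k0 k1, bt y r k x ^ 2 * ∑ i, (if ‖x i - y‖ < 6 * r then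
        nk x k i ^ ((2 : ℝ) / 3) else 0) ≤
        (∑ i, if ‖x i - y‖ < 6 * r then (nk x k i - 1) ^ ((2 : ℝ) / 3) else 0) +
        (if (2:ℝ) ^ k < (1 + n) / r ^ 2 then 1 else 0) * n := by
    intro k _
    have hb1 : bt y r k x ^ 2 ≤ 1 := by
      have h1 : bt y r k x ≤ 1 := Real.smoothTransition.le_one _
      have h2 : 0 ≤ bt y r k x := Real.smoothTransition.nonneg _
      nlinarith
    have hb0 : 0 ≤ bt y r k x ^ 2 := sq_nonneg _
    have hb2 := act_bt_sq_le y hr k x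
    rw [← hn] at hb2
    have hS : ∑ i, (if ‖x i - y‖ < 6 * r then nk x k i ^ ((2 : ℝ) / 3) else 0) ≤
        N + ∑ i, (if ‖x i - y‖ < 6 * r then (nk x k i - 1) ^ ((2 : ℝ) / 3) else 0) := by
      rw [hNd, ← Finset.sum_add_distrib]
      refine Finset.sum_le_sum fun i _ => ?_
      by_cases h : ‖x i - y‖ < 6 * r
      · simp only [if_pos h]
        exact act_rpow (act_nk_ge x k i)
      · simp only [if_neg h]; norm_num
    have hT0 : 0 ≤ ∑ i, (if ‖x i - y‖ < 6 * r then (nk x k i - 1) ^ ((2 : ℝ) / 3) else 0) :=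
      Finset.sum_nonneg fun i _ => by
        split_ifs
        · exact Real.rpow_nonneg (by linarith [act_nk_ge x k i]) _
        · exact le_rfl
    calc bt y r k x ^ 2 * ∑ i, (if ‖x i - y‖ < 6 * r then nk x k i ^ ((2 : ℝ) / 3) else 0)
        ≤ bt y r k x ^ 2 * (N + ∑ i, (if ‖x i - y‖ < 6 * r then
          (nk x k i - 1) ^ ((2 : ℝ) / 3) else 0)) := mul_le_mul_of_nonneg_left hS hb0
      _ = bt y r k x ^ 2 * N + bt y r k x ^ 2 * ∑ i, (if ‖x i - y‖ < 6 * r then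
          (nk x k i - 1) ^ ((2 : ℝ) / 3) else 0) := by ring
      _ ≤ (if (2:ℝ) ^ k < (1 + n) / r ^ 2 then 1 else 0) * n + 1 * ∑ i, (if ‖x i - y‖ < 6 * r then
          (nk x k i - 1) ^ ((2 : ℝ) / 3) else 0) := by
          refine add_le_add ?_ (mul_le_mul_of_nonneg_right hb1 hT0)
          refine mul_le_mul hb2 hN hN0 ?_
          split_ifs <;> norm_num
      _ = _ := by ring
  refine (Finset.sum_le_sum hk).trans ?_
  rw [Finset.sum_add_distrib, ← Finset.sum_mul]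
  have hM : 1 ≤ (1 + n) / r ^ 2 := by
    rw [le_div_iff₀ (by positivity)]
    nlinarith
  have hc := act_count ((1 + n) / r ^ 2) hM k0 k1
  have h1 : ((1 + n) / r ^ 2) ^ ((1:ℝ)/3) ≤ (1 + n ^ ((1:ℝ)/3)) * (1 / r) := by
    rw [Real.div_rpow (by linarith) (by positivity), div_eq_mul_one_div]
    have ha := Real.rpow_add_le_add_rpow (by norm_num : (0:ℝ) ≤ 1) hn0
      (by norm_num : (0:ℝ) ≤ 1 / 3) (by norm_num : (1:ℝ)/3 ≤ 1)
    rw [Real.one_rpow] at ha
    have hb : 1 / (r ^ 2) ^ ((1:ℝ)/3) ≤ 1 / r := by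
      apply one_div_le_one_div_of_le hr
      rw [← Real.rpow_natCast r 2, ← Real.rpow_mul hr.le]
      nth_rewrite 1 [← Real.rpow_one r]
      apply Real.rpow_le_rpow_of_exponent_ge hr hr1
      norm_num
    have hp : 0 ≤ 1 / (r ^ 2) ^ ((1:ℝ)/3) := by positivity
    exact mul_le_mul ha hb hp (by positivity)
  have h2 : n * (1 + n ^ ((1:ℝ)/3)) ≤ 2 * (1 + n ^ ((4:ℝ)/3)) := by
    have e : n * n ^ ((1:ℝ)/3) = n ^ ((4:ℝ)/3) := by
      rcases hn0.eq_or_lt with h | h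
      · rw [← h, Real.zero_rpow (by norm_num), Real.zero_rpow (by norm_num)]; norm_num
      · nth_rewrite 1 [← Real.rpow_one n]
        rw [← Real.rpow_add h]; norm_num
    have h3 : n ≤ 1 + n ^ ((4:ℝ)/3) := by
      rcases le_or_gt n 1 with h | h
      · have : 0 ≤ n ^ ((4:ℝ)/3) := Real.rpow_nonneg hn0 _
        linarith
      · have : n ^ (1:ℝ) ≤ n ^ ((4:ℝ)/3) := Real.rpow_le_rpow_of_exponent_le h.le (by norm_num)
        rw [Real.rpow_one] at this
        linarith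
    have h4 : 0 ≤ n ^ ((4:ℝ)/3) := Real.rpow_nonneg hn0 _
    rw [mul_add, e, mul_one]
    linarith
  have h5 : (∑ k ∈ Finset.Ico k0 k1, (if (2:ℝ) ^ k < (1 + n) / r ^ 2 then (1:ℝ) else 0)) * n ≤
      12 / r * (1 + n ^ ((4:ℝ)/3)) := by
    have h6 : (∑ k ∈ Finset.Ico k0 k1, (if (2:ℝ) ^ k < (1 + n) / r ^ 2 then (1:ℝ) else 0)) * n ≤
        (6 * ((1 + n ^ ((1:ℝ)/3)) * (1 / r))) * n :=
      mul_le_mul_of_nonneg_right (hc.trans (mul_le_mul_of_nonneg_left h1 (by norm_num))) hn0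
    refine h6.trans ?_
    have h7 : (6 * ((1 + n ^ ((1:ℝ)/3)) * (1 / r))) * n =
        (6 / r) * (n * (1 + n ^ ((1:ℝ)/3))) := by ring
    rw [h7]
    have h8 := mul_le_mul_of_nonneg_left h2 (by positivity : 0 ≤ 6 / r)
    refine h8.trans (le_of_eq ?_)
    ring
  linarith

end Pool.Agent.Helper780_CP.RACT
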