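import Pool.Agent.Helper780_CP.LLDefs2
import Pool.Agent.Helper780_CP.RC1

set_option autoImplicit false

open MeasureTheory

namespace Pool.Agent.Helper780_CP.RC4

open Pool.Agent.Helper780_CP
open Pool.Agent.Helper985.CP
open Pool.Agent.Helper780_CP.RC1 (ball_count)

theorem C4_nw_meas {I : Type} [Fintype I] (c : I → ℝ) (x : I → E3) (h : ℝ) :
    Measurable (nw c x h) := by
  classical
  have e : nw c x h = fun w => ∑ j, if c j < 0 ∧ (∀ t, w t - h ≤ x j t ∧ x j t < w t + h)
      then (1 : ℝ) else 0 := by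
    funext w
    rw [nw]
  rw [e]
  refine Finset.measurable_sum _ fun j _ => ?_
  refine Measurable.ite ?_ measurable_const measurable_const
  have h1 : {w : E3 | c j < 0 ∧ ∀ t, w t - h ≤ x j t ∧ x j t < w t + h} =
      {w : E3 | c j < 0} ∩ ⋂ t, ({w : E3 | w t - h ≤ x j t} ∩ {w : E3 | x j t < w t + h}) := by
    ext w
    simp
  rw [h1]
  refine (MeasurableSet.const _).inter (MeasurableSet.iInter fun t => ?_)
  have ht : Measurable fun w : E3 => w t := by fun_prop
  exact (measurableSet_le (ht.sub_const h) measurable_const).inter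
    (measurableSet_lt measurable_const (ht.add_const h))

theorem C4_nw_nonneg {I : Type} [Fintype I] (c : I → ℝ) (x : I → E3) (h : ℝ) (w : E3) :
    0 ≤ nw c x h w := by
  unfold nw
  exact Finset.sum_nonneg fun j _ => by split_ifs <;> norm_num

theorem C4_nw_le {I : Type} [Fintype I] (c : I → ℝ) (x : I → E3) (h : ℝ) (w : E3) :
    nw c x h w ≤ Fintype.card I := by
  unfold nw
  calc _ ≤ ∑ _j : I, (1 : ℝ) := Finset.sum_le_sum fun j _ => by split_ifs <;> norm_num
    _ = _ := by simp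

/-- the function of the second part -/
noncomputable def C4_g {I : Type} [Fintype I] (K : ℝ) (c : I → ℝ) (x : I → E3) (h : ℝ) (w : E3) : ℝ :=
  if K ≤ nw c x h w then nw c x h w ^ ((5 : ℝ) / 3) else 0

theorem C4_g_meas {I : Type} [Fintype I] (K : ℝ) (c : I → ℝ) (x : I → E3) (h : ℝ) :
    Measurable (C4_g K c x h) := by
  unfold C4_g
  exact Measurable.ite (measurableSet_le measurable_const (C4_nw_meas c x h))
    ((C4_nw_meas c x h).pow_const _) measurable_const

theorem C4_g_nonneg {I : Type} [Fintype I] (K : ℝ) (c : I → ℝ) (x : I → E3) (h : ℝ) (w : E3) :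
    0 ≤ C4_g K c x h w := by
  unfold C4_g
  split_ifs
  · exact Real.rpow_nonneg (C4_nw_nonneg c x h w) _
  · exact le_rfl

theorem C4_g_int {I : Type} [Fintype I] (K : ℝ) (c : I → ℝ) (x : I → E3) (h : ℝ) (y : E3) (R : ℝ) :
    IntegrableOn (C4_g K c x h) (Metric.ball y R) := by
  refine Measure.integrableOn_of_bounded (M := (Fintype.card I : ℝ) ^ ((5 : ℝ) / 3))
    (measure_ball_lt_top.ne) (C4_g_meas K c x h).aestronglyMeasurable ?_
  refine Filter.Eventually.of_forall fun w => ?_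
  rw [Real.norm_of_nonneg (C4_g_nonneg K c x h w)]
  unfold C4_g
  split_ifs
  · exact Real.rpow_le_rpow (C4_nw_nonneg c x h w) (C4_nw_le c x h w) (by norm_num)
  · positivity

/-- number of points in the open ball -/
noncomputable def C4_n {I : Type} [Fintype I] (x : I → E3) (r : ℝ) (w : E3) : ℕ :=
  (Finset.univ.filter fun j => ‖x j - w‖ < r).card


/-- the electrostatic bound of the number of points in a ball -/
theorem C4_elec (z cm K : ℝ) (hcm : 0 < cm) (hK : 0 ≤ K) :
    ∃ C : ℝ, 0 < C ∧ ∀ {I : Type} [Fintype I] [DecidableEq I] (c : I → ℝ) (x : I → E3),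
      (∀ i, cm ≤ |c i| ∧ |c i| ≤ z) → ∀ (r h : ℝ) (w : E3), r ≤ h → 2 ≤ C4_n x r w →
      (C4_n x r w : ℝ) ^ ((5 : ℝ) / 3) ≤ C * rb z c x r w + C * C4_g K c x h w := by
  obtain ⟨C, hC, hb⟩ := ball_count z cm K hcm hK
  refine ⟨C, hC, ?_⟩
  intro I _ _ c x hc r h w hrh hn
  classical
  have hcard : Fintype.card {j // ‖x j - w‖ < r} = C4_n x r w := by
    rw [Fintype.card_subtype, C4_n]
  have h1 := hb (I := {j // ‖x j - w‖ < r}) (fun j => c j.1) (fun j => hc j.1) (by rw [hcard]; exact hn)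
  rw [hcard] at h1
  refine h1.trans (add_le_add (le_of_eq ?_) ?_)
  · congr 1
    have hsub : ∀ f : I → ℝ, ∑ i : {j // ‖x j - w‖ < r}, f i.1 =
        ∑ i, if ‖x i - w‖ < r then f i else 0 := by
      intro f
      rw [← Finset.sum_filter]
      exact (Finset.sum_subtype _ (by simp) f).symm
    have e1 := hsub c
    have e2 := hsub (fun i => c i ^ 2)
    have e3 := hsub (fun i => max (-c i) 0)
    unfold rb
    rw [e1, e2, e3]
    congr 2
    have hex : (∃ j : {j // ‖x j - w‖ < r}, 0 < c j.1) ↔ ∃ j, 0 < c j ∧ ‖x j - w‖ < r := by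
      constructor
      · rintro ⟨j, hj⟩
        exact ⟨j.1, hj, j.2⟩
      · rintro ⟨j, hj, hj'⟩
        exact ⟨⟨j, hj'⟩, hj⟩
    by_cases hE : ∃ j, 0 < c j ∧ ‖x j - w‖ < r
    · rw [if_pos hE, if_pos (hex.2 hE)]
      refine Finset.sum_congr rfl fun i _ => ?_
      by_cases h1 : ‖x i - w‖ < r
      · by_cases h2 : c i < 0
        · rw [if_pos h1, if_pos ⟨h2, h1⟩, max_eq_left (by linarith)]
        · rw [if_pos h1, if_neg (fun h => h2 h.1), max_eq_right (by linarith)]
      · rw [if_neg h1, if_neg (fun h => h1 h.2)]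
    · rw [if_neg hE, if_neg (fun h => hE (hex.1 h))]
  · refine mul_le_mul_of_nonneg_left ?_ hC.le
    have hm : ((Finset.univ.filter (fun i : {j // ‖x j - w‖ < r} => c i.1 < 0)).card : ℝ) ≤
        nw c x h w := by
      unfold nw
      rw [Finset.sum_boole]
      norm_cast
      refine Finset.card_le_card_of_injOn (fun i => i.1) ?_ (fun a _ b _ hab => Subtype.ext hab)
      intro i hi
      simp only [Finset.coe_filter, Finset.mem_univ, true_and, Set.mem_ofPred_eq] at hi ⊢
      refine ⟨hi, fun t => ?_⟩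
      have h2 : |(x i.1 - w) t| ≤ ‖x i.1 - w‖ := by
        have := PiLp.norm_apply_le (x i.1 - w) t
        simpa using this
      have h3 : |x i.1 t - w t| < h := by
        have h4 : (x i.1 - w) t = x i.1 t - w t := by simp
        rw [h4] at h2
        exact lt_of_le_of_lt h2 (lt_of_lt_of_le i.2 hrh)
      rw [abs_lt] at h3
      constructor <;> linarith [h3.1, h3.2]
    unfold C4_g
    split_ifs with h1 h2 h2
    · exact Real.rpow_le_rpow (by positivity) hm (by norm_num)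
    · exact absurd (h1.trans hm) h2
    · exact Real.rpow_nonneg (C4_nw_nonneg c x h w) _
    · exact le_rfl

theorem C4_nk_eq {I : Type} [Fintype I] (x : I → E3) (k : ℕ) (i : I) :
    nk x k i = ((Finset.univ.filter fun j => 2 ^ k * ‖x j - x i‖ ≤ 4).card : ℝ) := by
  unfold nk
  rw [Finset.sum_boole]

/-- the pointwise bound -/
theorem C4_point {I : Type} [Fintype I] (x : I → E3) (k : ℕ) (y : E3) (R r : ℝ) (w : E3)
    (hr : 5 / 2 ^ k ≤ r) :
    (∑ i, if ‖w - x i‖ < 1 / 2 ^ k then (if ‖x i - y‖ < R then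
      (nk x k i - 1) ^ ((2 : ℝ) / 3) else 0) else 0) ≤
      if ‖w - y‖ < R + 1 / 2 ^ k then
        (if 2 ≤ C4_n x r w then (C4_n x r w : ℝ) ^ ((5 : ℝ) / 3) else 0) else 0 := by
  classical
  have h2k : (0 : ℝ) < 2 ^ k := by positivity
  have hterm : ∀ i, ‖w - x i‖ < 1 / 2 ^ k → ‖x i - y‖ < R →
      ‖w - y‖ < R + 1 / 2 ^ k ∧ (nk x k i - 1) ^ ((2 : ℝ) / 3) ≤
        (if 2 ≤ C4_n x r w then (C4_n x r w : ℝ) ^ ((2 : ℝ) / 3) else 0) := by
    intro i h1 h2
    constructor
    · calc ‖w - y‖ = ‖(w - x i) + (x i - y)‖ := by congr 1; abel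
        _ ≤ ‖w - x i‖ + ‖x i - y‖ := norm_add_le _ _
        _ < R + 1 / 2 ^ k := by linarith
    · have hle : (Finset.univ.filter fun j => 2 ^ k * ‖x j - x i‖ ≤ 4).card ≤ C4_n x r w := by
        unfold C4_n
        refine Finset.card_le_card fun j hj => ?_
        simp only [Finset.mem_filter, Finset.mem_univ, true_and] at hj ⊢
        have h3 : ‖x j - x i‖ ≤ 4 / 2 ^ k := by
          rw [le_div_iff₀ h2k]; linarith
        calc ‖x j - w‖ = ‖(x j - x i) - (w - x i)‖ := by congr 1; abel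
          _ ≤ ‖x j - x i‖ + ‖w - x i‖ := norm_sub_le _ _
          _ < 4 / 2 ^ k + 1 / 2 ^ k := by linarith
          _ = 5 / 2 ^ k := by ring
          _ ≤ r := hr
      have hone : 1 ≤ (Finset.univ.filter fun j => 2 ^ k * ‖x j - x i‖ ≤ 4).card := by
        rw [Nat.one_le_iff_ne_zero, Finset.card_ne_zero]
        exact ⟨i, by simp⟩
      rw [C4_nk_eq]
      rcases Nat.lt_or_ge 1 (Finset.univ.filter fun j => 2 ^ k * ‖x j - x i‖ ≤ 4).card with h | h
      · rw [if_pos (by omega)]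
        refine Real.rpow_le_rpow ?_ ?_ (by norm_num)
        · have : (1 : ℝ) ≤ ((Finset.univ.filter fun j => 2 ^ k * ‖x j - x i‖ ≤ 4).card : ℝ) := by
            exact_mod_cast hone
          linarith
        · have : ((Finset.univ.filter fun j => 2 ^ k * ‖x j - x i‖ ≤ 4).card : ℝ) ≤
            (C4_n x r w : ℝ) := by exact_mod_cast hle
          linarith
      · have : (Finset.univ.filter fun j => 2 ^ k * ‖x j - x i‖ ≤ 4).card = 1 := by omega
        rw [this]
        simp only [Nat.cast_one, sub_self]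
        rw [Real.zero_rpow (by norm_num)]
        split_ifs <;> positivity
  by_cases hw : ‖w - y‖ < R + 1 / 2 ^ k
  · rw [if_pos hw]
    have h1 : ∀ i, (if ‖w - x i‖ < 1 / 2 ^ k then (if ‖x i - y‖ < R then
      (nk x k i - 1) ^ ((2 : ℝ) / 3) else 0) else 0) ≤ if ‖x i - w‖ < r then
        (if 2 ≤ C4_n x r w then (C4_n x r w : ℝ) ^ ((2 : ℝ) / 3) else 0) else 0 := by
      intro i
      have hnn : (0 : ℝ) ≤ (if 2 ≤ C4_n x r w then (C4_n x r w : ℝ) ^ ((2 : ℝ) / 3) else 0) := by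
        split_ifs <;> positivity
      by_cases h1 : ‖w - x i‖ < 1 / 2 ^ k
      · have h2 : ‖x i - w‖ < r := by
          rw [norm_sub_rev]
          refine lt_of_lt_of_le h1 (le_trans ?_ hr)
          gcongr
          norm_num
        rw [if_pos h1, if_pos h2]
        by_cases h3 : ‖x i - y‖ < R
        · rw [if_pos h3]
          exact (hterm i h1 h3).2
        · rw [if_neg h3]
          exact hnn
      · rw [if_neg h1]
        split_ifs <;> positivity
    refine (Finset.sum_le_sum fun i _ => h1 i).trans ?_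
    rw [← Finset.sum_filter, Finset.sum_const]
    change C4_n x r w • _ ≤ _
    split_ifs with h2
    · rw [nsmul_eq_mul]
      have hpos : (0 : ℝ) < C4_n x r w := by
        have : 0 < C4_n x r w := by omega
        exact_mod_cast this
      have : (C4_n x r w : ℝ) ^ ((5 : ℝ) / 3) = C4_n x r w * (C4_n x r w : ℝ) ^ ((2 : ℝ) / 3) := by
        nth_rewrite 2 [← Real.rpow_one (C4_n x r w : ℝ)]
        rw [← Real.rpow_add hpos]
        norm_num
      rw [this]
    · simp
  · rw [if_neg hw]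
    refine le_of_eq (Finset.sum_eq_zero fun i _ => ?_)
    by_cases h1 : ‖w - x i‖ < 1 / 2 ^ k
    · rw [if_pos h1, if_neg]
      intro h2
      exact hw (hterm i h1 h2).1
    · rw [if_neg h1]


open scoped ENNReal in
/-- the bound for one `k` and one radius -/
theorem C4_stepA (z cm K C1 : ℝ) (hC1 : 0 < C1) {I : Type} [Fintype I] (c : I → ℝ) (x : I → E3)
    (hel : ∀ (r h : ℝ) (w : E3), r ≤ h → 2 ≤ C4_n x r w →
      (C4_n x r w : ℝ) ^ ((5 : ℝ) / 3) ≤ C1 * rb z c x r w + C1 * C4_g K c x h w)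
    (y : E3) (R : ℝ) (k0 k : ℕ) (hk : k0 ≤ k) (r : ℝ) (hr : r ∈ Set.Ico (5 / 2 ^ k : ℝ) (10 / 2 ^ k)) :
    ENNReal.ofReal ((∑ i, if ‖x i - y‖ < R then (nk x k i - 1) ^ ((2 : ℝ) / 3) else 0) *
      ((1 / 2 ^ k) ^ 3 * (volume (Metric.ball (0 : E3) 1)).toReal)) ≤
      ENNReal.ofReal C1 * (∫⁻ w in Metric.ball y (R + 1 / 2 ^ k0), ENNReal.ofReal (rb z c x r w)) +
      ENNReal.ofReal C1 * (∫⁻ w in Metric.ball y (R + 1 / 2 ^ k0),
        ENNReal.ofReal (C4_g K c x (10 / 2 ^ k) w)) := by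
  classical
  set a : I → ℝ := fun i => if ‖x i - y‖ < R then (nk x k i - 1) ^ ((2 : ℝ) / 3) else 0 with ha
  have ha0 : ∀ i, 0 ≤ a i := by
    intro i
    simp only [ha]
    split_ifs
    · refine Real.rpow_nonneg ?_ _
      rw [C4_nk_eq]
      have : 1 ≤ (Finset.univ.filter fun j => 2 ^ k * ‖x j - x i‖ ≤ 4).card := by
        rw [Nat.one_le_iff_ne_zero, Finset.card_ne_zero]
        exact ⟨i, by simp⟩
      have : (1 : ℝ) ≤ ((Finset.univ.filter fun j => 2 ^ k * ‖x j - x i‖ ≤ 4).card : ℝ) := by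
        exact_mod_cast this
      linarith
    · exact le_rfl
  have hh : (0 : ℝ) < 1 / 2 ^ k := by positivity
  have hball : ∀ i, volume (Metric.ball (x i) (1 / 2 ^ k : ℝ)) =
      ENNReal.ofReal ((1 / 2 ^ k) ^ 3 * (volume (Metric.ball (0 : E3) 1)).toReal) := by
    intro i
    rw [Measure.addHaar_ball _ _ hh.le, ENNReal.ofReal_mul (by positivity),
      ENNReal.ofReal_toReal measure_ball_lt_top.ne]
    simp
  have e1 : ENNReal.ofReal ((∑ i, a i) *
      ((1 / 2 ^ k) ^ 3 * (volume (Metric.ball (0 : E3) 1)).toReal)) =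
      ∫⁻ w, ∑ i, (Metric.ball (x i) (1 / 2 ^ k : ℝ)).indicator (fun _ => ENNReal.ofReal (a i)) w := by
    rw [lintegral_finsetSum _ (fun i _ => measurable_const.indicator measurableSet_ball),
      Finset.sum_mul, ENNReal.ofReal_sum_of_nonneg (fun i _ => by
        have := ha0 i
        positivity)]
    refine Finset.sum_congr rfl fun i _ => ?_
    rw [lintegral_indicator_const measurableSet_ball, hball i, ENNReal.ofReal_mul (ha0 i)]
  have e2 : ∀ w, ∑ i, (Metric.ball (x i) (1 / 2 ^ k : ℝ)).indicator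
      (fun _ => ENNReal.ofReal (a i)) w ≤ (Metric.ball y (R + 1 / 2 ^ k0)).indicator
        (fun w => ENNReal.ofReal C1 * ENNReal.ofReal (rb z c x r w) +
          ENNReal.ofReal C1 * ENNReal.ofReal (C4_g K c x (10 / 2 ^ k) w)) w := by
    intro w
    have h1 : ∑ i, (Metric.ball (x i) (1 / 2 ^ k : ℝ)).indicator
      (fun _ => ENNReal.ofReal (a i)) w = ENNReal.ofReal (∑ i, if ‖w - x i‖ < 1 / 2 ^ k then
        a i else 0) := by
      rw [ENNReal.ofReal_sum_of_nonneg (fun i _ => by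
        split_ifs
        · exact ha0 i
        · exact le_rfl)]
      refine Finset.sum_congr rfl fun i _ => ?_
      by_cases h : ‖w - x i‖ < 1 / 2 ^ k
      · rw [Set.indicator_of_mem (by rwa [Metric.mem_ball, dist_eq_norm]), if_pos h]
      · rw [Set.indicator_of_notMem (by rwa [Metric.mem_ball, dist_eq_norm]), if_neg h]
        simp
    rw [h1]
    refine (ENNReal.ofReal_le_ofReal (C4_point x k y R r w hr.1)).trans ?_
    by_cases hw : ‖w - y‖ < R + 1 / 2 ^ k
    · have hw' : w ∈ Metric.ball y (R + 1 / 2 ^ k0) := by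
        rw [Metric.mem_ball, dist_eq_norm]
        refine lt_of_lt_of_le hw ?_
        gcongr
        norm_num
      rw [if_pos hw, Set.indicator_of_mem hw']
      split_ifs with h2
      · refine (ENNReal.ofReal_le_ofReal (hel r (10 / 2 ^ k) w hr.2.le h2)).trans ?_
        refine ENNReal.ofReal_add_le.trans ?_
        rw [ENNReal.ofReal_mul hC1.le, ENNReal.ofReal_mul hC1.le]
      · simp
    · rw [if_neg hw]
      simp
  rw [e1]
  refine (lintegral_mono e2).trans (le_of_eq ?_)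
  rw [lintegral_indicator measurableSet_ball, lintegral_add_right _
    ((C4_g_meas K c x _).ennreal_ofReal.const_mul _),
    lintegral_const_mul' _ _ ENNReal.ofReal_ne_top, lintegral_const_mul' _ _ ENNReal.ofReal_ne_top]

open scoped ENNReal in
/-- the bound for one `k` -/
theorem C4_stepB (z cm K C1 : ℝ) (hC1 : 0 < C1) {I : Type} [Fintype I] (c : I → ℝ) (x : I → E3)
    (hel : ∀ (r h : ℝ) (w : E3), r ≤ h → 2 ≤ C4_n x r w →
      (C4_n x r w : ℝ) ^ ((5 : ℝ) / 3) ≤ C1 * rb z c x r w + C1 * C4_g K c x h w)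
    (y : E3) (R : ℝ) (k0 k : ℕ) (hk : k0 ≤ k) :
    ENNReal.ofReal (∑ i, if ‖x i - y‖ < R then (nk x k i - 1) ^ ((2 : ℝ) / 3) else 0) ≤
      ENNReal.ofReal (C1 * 20000 / (volume (Metric.ball (0 : E3) 1)).toReal / 2 ^ k0) *
        (∫⁻ r in Set.Ico (5 / 2 ^ k : ℝ) (10 / 2 ^ k), ENNReal.ofReal ((r ^ 5)⁻¹) *
          ∫⁻ w in Metric.ball y (R + 1 / 2 ^ k0), ENNReal.ofReal (rb z c x r w)) +
      ENNReal.ofReal (C1 / (volume (Metric.ball (0 : E3) 1)).toReal * 8 ^ k) *
        (∫⁻ w in Metric.ball y (R + 1 / 2 ^ k0), ENNReal.ofReal (C4_g K c x (10 / 2 ^ k) w)) := by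
  classical
  set V : ℝ := (volume (Metric.ball (0 : E3) 1)).toReal with hV
  have hV0 : 0 < V := ENNReal.toReal_pos (Metric.measure_ball_pos _ _ one_pos).ne'
    measure_ball_lt_top.ne
  set P : ℝ → ℝ≥0∞ := fun r => ∫⁻ w in Metric.ball y (R + 1 / 2 ^ k0),
    ENNReal.ofReal (rb z c x r w) with hP
  set Q : ℝ≥0∞ := ∫⁻ w in Metric.ball y (R + 1 / 2 ^ k0),
        ENNReal.ofReal (C4_g K c x (10 / 2 ^ k) w) with hQ
  set L : ℝ := ∑ i, if ‖x i - y‖ < R then (nk x k i - 1) ^ ((2 : ℝ) / 3) else 0 with hL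
  have hh : (0 : ℝ) < 1 / 2 ^ k := by positivity
  set h : ℝ := 1 / 2 ^ k with hhdef
  have e5 : (5 / 2 ^ k : ℝ) = 5 * h := by rw [hhdef]; ring
  have e10 : (10 / 2 ^ k : ℝ) = 10 * h := by rw [hhdef]; ring
  have hvol : volume (Set.Ico (5 / 2 ^ k : ℝ) (10 / 2 ^ k)) = ENNReal.ofReal (5 * h) := by
    rw [Real.volume_Ico, e5, e10]; congr 1; ring
  have h1 : ENNReal.ofReal (L * (h ^ 3 * V)) * ENNReal.ofReal (5 * h) ≤
      ENNReal.ofReal (C1 * (10 * h) ^ 5) * (∫⁻ r in Set.Ico (5 / 2 ^ k : ℝ) (10 / 2 ^ k),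
        ENNReal.ofReal ((r ^ 5)⁻¹) * P r) + ENNReal.ofReal C1 * Q * ENNReal.ofReal (5 * h) := by
    calc ENNReal.ofReal (L * (h ^ 3 * V)) * ENNReal.ofReal (5 * h)
        = ∫⁻ _r in Set.Ico (5 / 2 ^ k : ℝ) (10 / 2 ^ k), ENNReal.ofReal (L * (h ^ 3 * V)) := by
          rw [setLIntegral_const, hvol]
      _ ≤ ∫⁻ r in Set.Ico (5 / 2 ^ k : ℝ) (10 / 2 ^ k),
          (ENNReal.ofReal (C1 * (10 * h) ^ 5) * (ENNReal.ofReal ((r ^ 5)⁻¹) * P r) +
            ENNReal.ofReal C1 * Q) := by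
          refine setLIntegral_mono' measurableSet_Ico fun r hr => ?_
          refine (C4_stepA z cm K C1 hC1 c x hel y R k0 k hk r hr).trans ?_
          refine add_le_add ?_ le_rfl
          rw [← mul_assoc, ← ENNReal.ofReal_mul (by positivity)]
          refine mul_le_mul_left (ENNReal.ofReal_le_ofReal ?_) _
          have hr0 : 0 < r := lt_of_lt_of_le (by positivity) hr.1
          have hr1 : r ≤ 10 * h := by rw [← e10]; exact hr.2.le
          have : 1 ≤ (10 * h) ^ 5 * (r ^ 5)⁻¹ := by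
            rw [← div_eq_mul_inv, one_le_div (by positivity)]
            gcongr
          calc C1 = C1 * 1 := (mul_one _).symm
            _ ≤ C1 * ((10 * h) ^ 5 * (r ^ 5)⁻¹) := by gcongr
            _ = _ := by ring
      _ = _ := by
          rw [lintegral_add_right _ measurable_const, lintegral_const_mul' _ _
            ENNReal.ofReal_ne_top, setLIntegral_const, hvol]
  have h2 : ENNReal.ofReal L = ENNReal.ofReal (1 / (5 * V * h ^ 4)) *
      (ENNReal.ofReal (L * (h ^ 3 * V)) * ENNReal.ofReal (5 * h)) := by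
    rw [← ENNReal.ofReal_mul' (by positivity), ← ENNReal.ofReal_mul (by positivity)]
    congr 1
    field_simp
  rw [h2]
  refine (mul_le_mul_right h1 _).trans ?_
  rw [mul_add]
  refine add_le_add ?_ ?_
  · rw [← mul_assoc, ← ENNReal.ofReal_mul (by positivity)]
    refine mul_le_mul_left (ENNReal.ofReal_le_ofReal ?_) _
    have : 1 / (5 * V * h ^ 4) * (C1 * (10 * h) ^ 5) = C1 * 20000 / V * h := by
      field_simp
      norm_num
    rw [this]
    have h3 : h ≤ 1 / 2 ^ k0 := by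
      rw [hhdef]
      gcongr
      norm_num
    calc C1 * 20000 / V * h ≤ C1 * 20000 / V * (1 / 2 ^ k0) := by gcongr
      _ = _ := by ring
  · refine le_of_eq ?_
    have : ENNReal.ofReal (C1 / V * 8 ^ k) = ENNReal.ofReal (1 / (5 * V * h ^ 4)) *
        (ENNReal.ofReal C1 * ENNReal.ofReal (5 * h)) := by
      rw [← ENNReal.ofReal_mul (by positivity), ← ENNReal.ofReal_mul (by positivity)]
      congr 1
      have e8 : (8 : ℝ) ^ k = 1 / h ^ 3 := by
        rw [hhdef]
        have : (8 : ℝ) = 2 ^ 3 := by norm_num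
        rw [this]
        field_simp
        rw [← pow_mul, ← pow_mul]
        ring
      rw [e8]
      field_simp
    rw [this]
    ring

/-- TARGET -/
theorem pairs (z cm K : ℝ) (hcm : 0 < cm) (hK : 0 ≤ K) :
    ∃ C : ℝ, 0 < C ∧ ∀ {I : Type} [Fintype I] [DecidableEq I] (c : I → ℝ) (x : I → E3),
      (∀ i, cm ≤ |c i| ∧ |c i| ≤ z) → ∀ (y : E3) (R : ℝ) (k0 k1 : ℕ), 0 < R →
      ENNReal.ofReal (∑ k ∈ Finset.Ico k0 k1, ∑ i, if ‖x i - y‖ < R then
          (nk x k i - 1) ^ ((2 : ℝ) / 3) else 0) ≤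
        ENNReal.ofReal (C / 2 ^ k0) * (∫⁻ r in Set.Ioo (0 : ℝ) (10 / 2 ^ k0),
          ENNReal.ofReal ((r ^ 5)⁻¹) * ∫⁻ w in Metric.ball y (R + 1 / 2 ^ k0),
            ENNReal.ofReal (rb z c x r w)) +
        ENNReal.ofReal (C * ∑ k ∈ Finset.Ico k0 k1, 8 ^ k * ∫ w in Metric.ball y (R + 1 / 2 ^ k0),
          (if K ≤ nw c x (10 / 2 ^ k) w then nw c x (10 / 2 ^ k) w ^ ((5 : ℝ) / 3) else 0)) := by
  classical
  obtain ⟨C1, hC1, hel⟩ := C4_elec z cm K hcm hK
  set V : ℝ := (volume (Metric.ball (0 : E3) 1)).toReal with hV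
  have hV0 : 0 < V := ENNReal.toReal_pos (Metric.measure_ball_pos _ _ one_pos).ne'
    measure_ball_lt_top.ne
  refine ⟨C1 * 20000 / V, by positivity, ?_⟩
  intro I _ _ c x hc y R k0 k1 hR
  have hL0 : ∀ k, 0 ≤ ∑ i, (if ‖x i - y‖ < R then (nk x k i - 1) ^ ((2 : ℝ) / 3) else 0) := by
    intro k
    refine Finset.sum_nonneg fun i _ => ?_
    split_ifs
    · refine Real.rpow_nonneg ?_ _
      rw [C4_nk_eq]
      have : 1 ≤ (Finset.univ.filter fun j => 2 ^ k * ‖x j - x i‖ ≤ 4).card := by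
        rw [Nat.one_le_iff_ne_zero, Finset.card_ne_zero]
        exact ⟨i, by simp⟩
      have : (1 : ℝ) ≤ ((Finset.univ.filter fun j => 2 ^ k * ‖x j - x i‖ ≤ 4).card : ℝ) := by
        exact_mod_cast this
      linarith
    · exact le_rfl
  rw [ENNReal.ofReal_sum_of_nonneg (fun k _ => hL0 k)]
  refine (Finset.sum_le_sum fun k hk => C4_stepB z cm K C1 hC1 c x (hel c x hc) y R k0 k
    (Finset.mem_Ico.1 hk).1).trans ?_
  rw [Finset.sum_add_distrib, ← Finset.mul_sum]
  refine add_le_add ?_ ?_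
  · refine mul_le_mul_right ?_ _
    rw [← lintegral_biUnion_finset ?_ (fun k _ => measurableSet_Ico)]
    · refine lintegral_mono_set ?_
      intro r hr
      simp only [Set.mem_iUnion, exists_prop] at hr
      obtain ⟨k, hk, hr1, hr2⟩ := hr
      have hk' := (Finset.mem_Ico.1 hk).1
      refine ⟨lt_of_lt_of_le (by positivity) hr1, lt_of_lt_of_le hr2 ?_⟩
      gcongr
      norm_num
    · intro k _ l _ hkl
      have key : ∀ k l : ℕ, k < l → Disjoint (Set.Ico (5 / 2 ^ k : ℝ) (10 / 2 ^ k))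
          (Set.Ico (5 / 2 ^ l : ℝ) (10 / 2 ^ l)) := by
        intro k l h
        rw [Set.disjoint_left]
        rintro r ⟨h1, _⟩ ⟨_, h4⟩
        have : (10 / 2 ^ l : ℝ) ≤ 5 / 2 ^ k := by
          calc (10 / 2 ^ l : ℝ) ≤ 10 / 2 ^ (k + 1) := by
                gcongr
                · norm_num
                · omega
            _ = 5 / 2 ^ k := by rw [pow_succ]; field_simp; norm_num
        linarith
      rcases lt_or_gt_of_ne hkl with h | h
      · exact key k l h
      · exact (key l k h).symm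
  · have hQ : ∀ k, (∫⁻ w in Metric.ball y (R + 1 / 2 ^ k0),
        ENNReal.ofReal (C4_g K c x (10 / 2 ^ k) w)) =
        ENNReal.ofReal (∫ w in Metric.ball y (R + 1 / 2 ^ k0), C4_g K c x (10 / 2 ^ k) w) := by
      intro k
      rw [ofReal_integral_eq_lintegral_ofReal (C4_g_int K c x _ _ _)]
      exact Filter.Eventually.of_forall fun w => C4_g_nonneg K c x _ w
    have hI0 : ∀ k : ℕ, 0 ≤ ∫ w in Metric.ball y (R + 1 / 2 ^ k0), C4_g K c x (10 / 2 ^ k) w :=
      fun k => integral_nonneg fun w => C4_g_nonneg K c x _ w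
    simp only [hQ]
    have e : ∀ k, ENNReal.ofReal (C1 / V * 8 ^ k) * ENNReal.ofReal
        (∫ w in Metric.ball y (R + 1 / 2 ^ k0), C4_g K c x (10 / 2 ^ k) w) =
        ENNReal.ofReal (C1 / V * 8 ^ k *
          ∫ w in Metric.ball y (R + 1 / 2 ^ k0), C4_g K c x (10 / 2 ^ k) w) := by
      intro k
      rw [← ENNReal.ofReal_mul (by positivity)]
    simp only [← hV, e]
    rw [← ENNReal.ofReal_sum_of_nonneg (fun k _ => by
      have := hI0 k
      positivity)]
    refine ENNReal.ofReal_le_ofReal ?_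
    rw [Finset.mul_sum]
    refine Finset.sum_le_sum fun k _ => ?_
    have h1 : C1 / V ≤ C1 * 20000 / V := by
      gcongr
      linarith
    have h2 : 0 ≤ 8 ^ k * ∫ w in Metric.ball y (R + 1 / 2 ^ k0), C4_g K c x (10 / 2 ^ k) w := by
      have := hI0 k
      positivity
    calc C1 / V * 8 ^ k * ∫ w in Metric.ball y (R + 1 / 2 ^ k0), C4_g K c x (10 / 2 ^ k) w
        = C1 / V * (8 ^ k * ∫ w in Metric.ball y (R + 1 / 2 ^ k0),
          C4_g K c x (10 / 2 ^ k) w) := by ring
      _ ≤ C1 * 20000 / V * (8 ^ k * ∫ w in Metric.ball y (R + 1 / 2 ^ k0),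
          C4_g K c x (10 / 2 ^ k) w) := by gcongr

end Pool.Agent.Helper780_CP.RC4
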