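import Pool.Agent.Helper780_CP.LLDefs2
import Pool.Agent.Helper780_CP.RC4

set_option autoImplicit false

open MeasureTheory

namespace Pool.Agent.Helper780_CP.RPAIRX

open Pool.Agent.Helper780_CP
open Pool.Agent.Helper985.CP
open Pool.Agent.Helper780_CP.RC4 (pairs)

open Pool.Agent.Helper985.CP

theorem PX_nw_meas {I : Type} [Fintype I] (c : I → ℝ) (x : I → E3) (h : ℝ) :
    Measurable (nw c x h) := by
  classical
  have e : nw c x h = fun w => ∑ j, if c j < 0 ∧ (∀ t, w t - h ≤ x j t ∧ x j t < w t + h)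
      then (1 : ℝ) else 0 := by
    funext w
    rw [nw]
  rw [e]
  refine Finset.measurable_sum _ fun j _ => ?_
  refine Measurable.ite ?_ measurable_const measurable_const
  have h1 : {w : E3 | c j < 0 ∧ ∀ t, w t - h ≤ x j t ∧ x j t < w t + h} =
      {w : E3 | c j < 0} ∩ ⋂ t, ({w : E3 | w t - h ≤ x j t} ∩ {w : E3 | x j t < w t + h}) := by
    ext w
    simp
  rw [h1]
  refine (MeasurableSet.const _).inter (MeasurableSet.iInter fun t => ?_)
  have ht : Measurable fun w : E3 => w t := by fun_prop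
  exact (measurableSet_le (ht.sub_const h) measurable_const).inter
    (measurableSet_lt measurable_const (ht.add_const h))

theorem PX_nw_nonneg {I : Type} [Fintype I] (c : I → ℝ) (x : I → E3) (h : ℝ) (w : E3) :
    0 ≤ nw c x h w := by
  unfold nw
  exact Finset.sum_nonneg fun j _ => by split_ifs <;> norm_num

theorem PX_nw_le {I : Type} [Fintype I] (c : I → ℝ) (x : I → E3) (h : ℝ) (w : E3) :
    nw c x h w ≤ Fintype.card I := by
  unfold nw
  calc _ ≤ ∑ _j : I, (1 : ℝ) := Finset.sum_le_sum fun j _ => by split_ifs <;> norm_num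
    _ = _ := by simp

/-- the function of the second part -/
noncomputable def PX_g {I : Type} [Fintype I] (K : ℝ) (c : I → ℝ) (x : I → E3) (h : ℝ) (w : E3) : ℝ :=
  if K ≤ nw c x h w then nw c x h w ^ ((5 : ℝ) / 3) else 0

theorem PX_g_meas {I : Type} [Fintype I] (K : ℝ) (c : I → ℝ) (x : I → E3) (h : ℝ) :
    Measurable (PX_g K c x h) := by
  unfold PX_g
  exact Measurable.ite (measurableSet_le measurable_const (PX_nw_meas c x h))
    ((PX_nw_meas c x h).pow_const _) measurable_const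

theorem PX_g_nonneg {I : Type} [Fintype I] (K : ℝ) (c : I → ℝ) (x : I → E3) (h : ℝ) (w : E3) :
    0 ≤ PX_g K c x h w := by
  unfold PX_g
  split_ifs
  · exact Real.rpow_nonneg (PX_nw_nonneg c x h w) _
  · exact le_rfl

theorem PX_g_int {I : Type} [Fintype I] (K : ℝ) (c : I → ℝ) (x : I → E3) (h : ℝ) (y : E3) (R : ℝ) :
    IntegrableOn (PX_g K c x h) (Metric.ball y R) := by
  refine Measure.integrableOn_of_bounded (M := (Fintype.card I : ℝ) ^ ((5 : ℝ) / 3))
    (measure_ball_lt_top.ne) (PX_g_meas K c x h).aestronglyMeasurable ?_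
  refine Filter.Eventually.of_forall fun w => ?_
  rw [Real.norm_of_nonneg (PX_g_nonneg K c x h w)]
  unfold PX_g
  split_ifs
  · exact Real.rpow_le_rpow (PX_nw_nonneg c x h w) (PX_nw_le c x h w) (by norm_num)
  · positivity


theorem PX_rb_meas {I : Type} [Fintype I] (z : ℝ) (c : I → ℝ) (x : I → E3) :
    Measurable fun q : ℝ × E3 => rb z c x q.1 q.2 := by
  classical
  have h1 : ∀ i, MeasurableSet {q : ℝ × E3 | ‖x i - q.2‖ < q.1} := fun i =>
    measurableSet_lt (by fun_prop) measurable_fst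
  have e : (fun q : ℝ × E3 => rb z c x q.1 q.2) = fun q : ℝ × E3 =>
      (∑ i, if ‖x i - q.2‖ < q.1 then c i else 0) ^ 2 -
        (∑ i, if ‖x i - q.2‖ < q.1 then c i ^ 2 else 0) +
      9 / 2 * z * (if ∃ j, 0 < c j ∧ ‖x j - q.2‖ < q.1 then
        ∑ i, (if c i < 0 ∧ ‖x i - q.2‖ < q.1 then -c i else 0) else 0) := by
    funext q
    rw [rb]
  rw [e]
  refine Measurable.add (Measurable.sub ?_ ?_) (Measurable.const_mul ?_ _)
  · refine Measurable.pow_const (Finset.measurable_sum _ fun i _ => ?_) _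
    exact Measurable.ite (h1 i) measurable_const measurable_const
  · refine Finset.measurable_sum _ fun i _ => ?_
    exact Measurable.ite (h1 i) measurable_const measurable_const
  · refine Measurable.ite ?_ (Finset.measurable_sum _ fun i _ => ?_) measurable_const
    · have h2 : {q : ℝ × E3 | ∃ j, 0 < c j ∧ ‖x j - q.2‖ < q.1} =
          ⋃ j, ({q : ℝ × E3 | 0 < c j} ∩ {q : ℝ × E3 | ‖x j - q.2‖ < q.1}) := by
        ext q
        simp
      rw [h2]
      exact MeasurableSet.iUnion fun j => (MeasurableSet.const _).inter (h1 j)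
    · refine Measurable.ite ?_ measurable_const measurable_const
      have h2 : {q : ℝ × E3 | c i < 0 ∧ ‖x i - q.2‖ < q.1} =
          ({q : ℝ × E3 | c i < 0} ∩ {q : ℝ × E3 | ‖x i - q.2‖ < q.1}) := by
        ext q
        simp
      rw [h2]
      exact (MeasurableSet.const _).inter (h1 i)

theorem PX_int_meas {I : Type} [Fintype I] (z : ℝ) (c : I → ℝ) (x : I → E3) (A : Set E3) :
    Measurable fun s : ℝ => ENNReal.ofReal ((s ^ 5)⁻¹) *
      ∫⁻ w in A, ENNReal.ofReal (rb z c x s w) := by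
  refine Measurable.mul (by fun_prop) ?_
  exact Measurable.lintegral_prod_right' (ν := volume.restrict A)
    (f := fun q : ℝ × E3 => ENNReal.ofReal (rb z c x q.1 q.2)) (PX_rb_meas z c x).ennreal_ofReal

theorem PX_cover (F : Finset E3) (hF : ∀ v : E3, ‖v‖ ≤ 12 → ∃ p ∈ F, ‖v - p‖ < 1 / 64)
    (y : E3) (r : ℝ) (hr : 0 < r) (f : E3 → ENNReal) :
    ∫⁻ w in Metric.ball y (7 * r), f w ≤ ∑ p ∈ F, ∫⁻ w in Metric.ball (y + r • p) (r / 64), f w := by
  have h1 : Metric.ball y (7 * r) ⊆ ⋃ p ∈ F, Metric.ball (y + r • p) (r / 64) := by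
    intro w hw
    rw [Metric.mem_ball, dist_eq_norm] at hw
    obtain ⟨p, hp, hv⟩ := hF (r⁻¹ • (w - y)) (by
      rw [norm_smul, norm_inv, Real.norm_eq_abs, abs_of_pos hr, inv_mul_le_iff₀ hr]
      linarith)
    rw [Set.mem_iUnion₂]
    refine ⟨p, hp, ?_⟩
    rw [Metric.mem_ball, dist_eq_norm]
    have e : w - (y + r • p) = r • (r⁻¹ • (w - y) - p) := by
      rw [smul_sub, smul_smul, mul_inv_cancel₀ hr.ne', one_smul]
      abel
    rw [e, norm_smul, Real.norm_eq_abs, abs_of_pos hr]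
    nlinarith
  refine (lintegral_mono_set h1).trans ?_
  clear h1 hF
  induction F using Finset.induction_on with
  | empty => simp
  | insert a s ha ih =>
    rw [Finset.sum_insert ha, Finset.set_biUnion_insert]
    exact (lintegral_union_le _ _ _).trans (add_le_add le_rfl ih)

theorem PX_cy (y : E3) (r : ℝ) (v : E3) : 0 ≤ cy y r v ∧ cy y r v ≤ 1 :=
  ⟨Real.smoothTransition.nonneg _, Real.smoothTransition.le_one _⟩

theorem PX_cy_one (y : E3) (r : ℝ) (hr : 0 < r) (v : E3) (hv : ‖v - y‖ ≤ r) : cy y r v = 1 := by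
  unfold cy ct
  refine Real.smoothTransition.one_of_one_le ?_
  have h1 : ‖r⁻¹ • (v - y)‖ ≤ 1 := by
    rw [norm_smul, norm_inv, Real.norm_eq_abs, abs_of_pos hr, inv_mul_le_iff₀ hr, mul_one]
    exact hv
  have h2 := norm_nonneg (r⁻¹ • (v - y))
  nlinarith

/-- TARGET -/
theorem pairs_loc (z cm K : ℝ) (hcm : 0 < cm) (hK : 0 ≤ K) (K₁ C₁ : ℝ) (hC₁ : 0 < C₁)
    (h : RB z K₁ C₁) (F : Finset E3) (hF : ∀ v : E3, ‖v‖ ≤ 12 → ∃ p ∈ F, ‖v - p‖ < 1 / 64) :
    ∃ C : ℝ, 0 < C ∧ ∀ {I : Type} [Fintype I] [DecidableEq I] (c : I → ℝ) (x : I → E3),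
      (∀ i, cm ≤ |c i| ∧ |c i| ≤ z) → (∀ i j, i ≠ j → x i ≠ x j) →
      ∀ (y : E3) (r : ℝ) (k0 k1 : ℕ), 0 < r → r ≤ 1 → 100 ≤ 2 ^ k0 * r →
        ∑ k ∈ Finset.Ico k0 k1, ∑ i, (if ‖x i - y‖ < 6 * r then
          (nk x k i - 1) ^ ((2 : ℝ) / 3) else 0) ≤
        C / 2 ^ k0 * (∑ p ∈ F, (vl (cy (y + r • p) (r / 4)) c x +
          K₁ * pl (cy (y + r • p) (r / 4)) c x)) +
        C * ∑ k ∈ Finset.Ico k0 k1, 8 ^ k * ∫ w in Metric.ball y (7 * r),
          (if K ≤ nw c x (10 / 2 ^ k) w then nw c x (10 / 2 ^ k) w ^ ((5 : ℝ) / 3) else 0) := by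
  obtain ⟨C, hC, H⟩ := pairs z cm K hcm hK
  refine ⟨C * C₁ + C, by positivity, ?_⟩
  intro I _ _ c x hc hx y r k0 k1 hr hr1 hk
  have h2k : (0 : ℝ) < 2 ^ k0 := by positivity
  have h1k : 1 / 2 ^ k0 ≤ r / 100 := by
    rw [div_le_div_iff₀ h2k (by norm_num)]
    linarith
  have hsub : Metric.ball y (6 * r + 1 / 2 ^ k0) ⊆ Metric.ball y (7 * r) :=
    Metric.ball_subset_ball (by linarith)
  have hRB := fun χ : E3 → ℝ => h c x χ (fun i => (hc i).2) hx
  set S : E3 → ℝ := fun p => vl (cy (y + r • p) (r / 4)) c x +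
    K₁ * pl (cy (y + r • p) (r / 4)) c x with hS
  have hS0 : ∀ p, 0 ≤ S p := by
    intro p
    have := (hRB _ (PX_cy (y + r • p) (r / 4))).1
    exact this.1.trans this.2
  have hloc : ∀ p, ∫⁻ s in Set.Ioo (0 : ℝ) (10 / 2 ^ k0), ENNReal.ofReal ((s ^ 5)⁻¹) *
      ∫⁻ w in Metric.ball (y + r • p) (r / 64), ENNReal.ofReal (rb z c x s w) ≤
      ENNReal.ofReal (C₁ * S p) := by
    intro p
    refine (hRB _ (PX_cy (y + r • p) (r / 4))).2.2 (y + r • p) (r / 64) (10 / 2 ^ k0) ?_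
    intro v hv
    refine PX_cy_one _ _ (by positivity) _ ?_
    have : 10 / 2 ^ k0 = 10 * (1 / (2 : ℝ) ^ k0) := by ring
    rw [this] at hv
    linarith
  have hfirst : ∫⁻ s in Set.Ioo (0 : ℝ) (10 / 2 ^ k0), ENNReal.ofReal ((s ^ 5)⁻¹) *
      ∫⁻ w in Metric.ball y (6 * r + 1 / 2 ^ k0), ENNReal.ofReal (rb z c x s w) ≤
      ENNReal.ofReal (C₁ * ∑ p ∈ F, S p) := by
    calc _ ≤ ∫⁻ s in Set.Ioo (0 : ℝ) (10 / 2 ^ k0), ∑ p ∈ F, ENNReal.ofReal ((s ^ 5)⁻¹) *
          ∫⁻ w in Metric.ball (y + r • p) (r / 64), ENNReal.ofReal (rb z c x s w) := by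
          refine lintegral_mono fun s => ?_
          rw [← Finset.mul_sum]
          refine mul_le_mul_right ?_ _
          exact (lintegral_mono_set hsub).trans (PX_cover F hF y r hr _)
      _ = ∑ p ∈ F, ∫⁻ s in Set.Ioo (0 : ℝ) (10 / 2 ^ k0), ENNReal.ofReal ((s ^ 5)⁻¹) *
          ∫⁻ w in Metric.ball (y + r • p) (r / 64), ENNReal.ofReal (rb z c x s w) :=
          lintegral_finsetSum _ fun p _ => PX_int_meas z c x _
      _ ≤ ∑ p ∈ F, ENNReal.ofReal (C₁ * S p) := Finset.sum_le_sum fun p _ => hloc p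
      _ = ENNReal.ofReal (∑ p ∈ F, C₁ * S p) :=
          (ENNReal.ofReal_sum_of_nonneg fun p _ => mul_nonneg hC₁.le (hS0 p)).symm
      _ = _ := by rw [Finset.mul_sum]
  have h2nd : ∑ k ∈ Finset.Ico k0 k1, 8 ^ k * ∫ w in Metric.ball y (6 * r + 1 / 2 ^ k0),
        (if K ≤ nw c x (10 / 2 ^ k) w then nw c x (10 / 2 ^ k) w ^ ((5 : ℝ) / 3) else 0) ≤
      ∑ k ∈ Finset.Ico k0 k1, 8 ^ k * ∫ w in Metric.ball y (7 * r),
        (if K ≤ nw c x (10 / 2 ^ k) w then nw c x (10 / 2 ^ k) w ^ ((5 : ℝ) / 3) else 0) := by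
    refine Finset.sum_le_sum fun k _ => mul_le_mul_of_nonneg_left ?_ (by positivity)
    exact setIntegral_mono_set (PX_g_int K c x (10 / 2 ^ k) y (7 * r))
      (Filter.Eventually.of_forall fun w => PX_g_nonneg K c x (10 / 2 ^ k) w)
      hsub.eventuallyLE
  set T : ℝ := ∑ k ∈ Finset.Ico k0 k1, 8 ^ k * ∫ w in Metric.ball y (7 * r),
        (if K ≤ nw c x (10 / 2 ^ k) w then nw c x (10 / 2 ^ k) w ^ ((5 : ℝ) / 3) else 0) with hT
  have hT0 : 0 ≤ T := Finset.sum_nonneg fun k _ => mul_nonneg (by positivity)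
    (integral_nonneg fun w => PX_g_nonneg K c x (10 / 2 ^ k) w)
  have hSs : 0 ≤ ∑ p ∈ F, S p := Finset.sum_nonneg fun p _ => hS0 p
  have hmain := H c x hc y (6 * r) k0 k1 (by positivity)
  have hle : ENNReal.ofReal (∑ k ∈ Finset.Ico k0 k1, ∑ i, if ‖x i - y‖ < 6 * r then
          (nk x k i - 1) ^ ((2 : ℝ) / 3) else 0) ≤
      ENNReal.ofReal (C / 2 ^ k0 * (C₁ * ∑ p ∈ F, S p) + C * T) := by
    rw [ENNReal.ofReal_add (by positivity) (by positivity), ENNReal.ofReal_mul (by positivity)]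
    exact hmain.trans (add_le_add (mul_le_mul_right hfirst _)
      (ENNReal.ofReal_le_ofReal (mul_le_mul_of_nonneg_left h2nd hC.le)))
  have hreal := (ENNReal.ofReal_le_ofReal_iff (by positivity)).1 hle
  refine hreal.trans (add_le_add ?_ ?_)
  · have e : C / 2 ^ k0 * (C₁ * ∑ p ∈ F, S p) = (C * C₁) / 2 ^ k0 * ∑ p ∈ F, S p := by ring
    rw [e]
    refine mul_le_mul_of_nonneg_right ?_ hSs
    gcongr
    linarith
  · refine mul_le_mul_of_nonneg_right ?_ hT0
    have : 0 ≤ C * C₁ := by positivity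
    linarith

end Pool.Agent.Helper780_CP.RPAIRX
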