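import Pool.Agent.Helper780_CP.LLDefs2
import Pool.Agent.Helper780_CP.LLDefs3
import Pool.Agent.Helper780_CP.RWT
import Pool.Agent.Helper780_CP.RACT
import Pool.Agent.Helper780_CP.RPAIRX
import Pool.Agent.Helper780_CP.RPAU

set_option autoImplicit false

open MeasureTheory
open scoped Topology

namespace Pool.Agent.Helper780_CP.RSL

open Pool.Agent.Helper780_CP
open Pool.Agent.Helper985.CP
open Pool.Agent.Helper780_CP.RWT (wt_facts)
open Pool.Agent.Helper780_CP.RACT (act)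
open Pool.Agent.Helper780_CP.RPAIRX (pairs_loc)
open Pool.Agent.Helper780_CP.RPAU (nw_kin)

open Pool.Agent.Helper780_CP Pool.Agent.Helper985.CP

section Aux

variable {S : Type} (D : Species S) {I : Type} [Fintype I] [DecidableEq I] (sp : I → S)

theorem sl_kin_nonneg (hD : D.Valid) (i : I) (u : (I → E3) → ℂ) (x : I → E3) :
    0 ≤ kin D sp i u x := by
  unfold kin
  have := hD.mass_pos (sp i)
  positivity

theorem sl_kb_mono (hD : D.Valid) (ℓ : ℝ) (Ψ : Wave D I) (hΨ : IsState D sp ℓ Ψ) (y : E3)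
    (R R' : ℝ) (hR : R ≤ R') : kb D sp y R Ψ ≤ kb D sp y R' Ψ := by
  unfold kb
  refine Finset.sum_le_sum fun τ _ => ?_
  refine integral_mono_of_nonneg (Filter.Eventually.of_forall fun x => ?_) ?_
    (Filter.Eventually.of_forall fun x => ?_)
  · refine Finset.sum_nonneg fun j _ => ?_
    show 0 ≤ (if ‖x j - y‖ < R then kin D sp j (Ψ τ) x else 0)
    split_ifs
    · exact sl_kin_nonneg D sp hD j _ x
    · exact le_rfl
  · refine integrable_finsetSum _ fun j _ => ?_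
    have h1 : (fun x => if ‖x j - y‖ < R' then kin D sp j (Ψ τ) x else 0) =
        Set.indicator {x : I → E3 | ‖x j - y‖ < R'} (kin D sp j (Ψ τ)) := by
      funext x
      simp only [Set.indicator_apply, Set.mem_ofPred_eq]
    rw [h1]
    exact ((int_state D sp ℓ Ψ hΨ τ).2.1 j).indicator
      (measurableSet_lt (by fun_prop) measurable_const)
  · refine Finset.sum_le_sum fun j _ => ?_
    show (if ‖x j - y‖ < R then kin D sp j (Ψ τ) x else 0) ≤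
      (if ‖x j - y‖ < R' then kin D sp j (Ψ τ) x else 0)
    have h0 := sl_kin_nonneg D sp hD j (Ψ τ) x
    split_ifs with h1 h2
    · exact le_rfl
    · exact absurd (h1.trans_le hR) h2
    · exact h0
    · exact le_rfl

theorem sl_klc_nonneg (hD : D.Valid) (Ψ : Wave D I) (y : E3) (r : ℝ) :
    0 ≤ klc D sp y r Ψ := by
  unfold klc
  refine Finset.sum_nonneg fun τ _ => integral_nonneg fun x => ?_
  refine Finset.sum_nonneg fun j _ => ?_
  exact mul_nonneg (sq_nonneg _) (sl_kin_nonneg D sp hD j _ x)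

theorem sl_kb_nonneg (hD : D.Valid) (Ψ : Wave D I) (y : E3) (R : ℝ) :
    0 ≤ kb D sp y R Ψ := by
  unfold kb
  refine Finset.sum_nonneg fun τ _ => integral_nonneg fun x => ?_
  refine Finset.sum_nonneg fun j _ => ?_
  show 0 ≤ (if ‖x j - y‖ < R then kin D sp j (Ψ τ) x else 0)
  split_ifs
  · exact sl_kin_nonneg D sp hD j _ x
  · exact le_rfl

theorem sl_wm_nonneg (W : (I → E3) → ℝ) (Ψ : Wave D I) (h : ∀ᵐ x, 0 ≤ W x) : 0 ≤ wm D W Ψ := by
  unfold wm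
  refine Finset.sum_nonneg fun τ _ => integral_nonneg_of_ae ?_
  filter_upwards [h] with x hx
  exact mul_nonneg hx (sq_nonneg _)

end Aux

theorem sl_ct_cont : Continuous ct := by
  unfold ct
  exact Real.smoothTransition.continuous.comp (by fun_prop)

theorem sl_cy_cont (y : E3) (r : ℝ) : Continuous (cy y r) := by
  unfold cy
  exact sl_ct_cont.comp (by fun_prop)

theorem sl_cy_mem (y : E3) (r : ℝ) (v : E3) : 0 ≤ cy y r v ∧ cy y r v ≤ 1 :=
  ⟨Real.smoothTransition.nonneg _, Real.smoothTransition.le_one _⟩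

section Aux2

variable {I : Type} [Fintype I]

theorem sl_bt_cont (y : E3) (r : ℝ) (k : ℕ) : Continuous (fun x : I → E3 => bt y r k x) := by
  unfold bt nT
  refine Real.smoothTransition.continuous.comp ?_
  refine Continuous.sub (Continuous.div_const ?_ _) continuous_const
  refine continuous_const.add (continuous_finsetSum _ fun i _ => ?_)
  exact ((sl_cy_cont y (6 * r)).comp (continuous_apply i)).pow 2

theorem sl_bt_mem (y : E3) (r : ℝ) (k : ℕ) (x : I → E3) : 0 ≤ bt y r k x ∧ bt y r k x ≤ 1 :=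
  ⟨Real.smoothTransition.nonneg _, Real.smoothTransition.le_one _⟩

theorem sl_nk_meas (k : ℕ) (i : I) : Measurable (fun x : I → E3 => nk x k i) := by
  unfold nk
  refine Finset.measurable_fun_sum _ fun j _ => ?_
  refine Measurable.ite ?_ measurable_const measurable_const
  exact measurableSet_le (by fun_prop) measurable_const

theorem sl_nk_le (k : ℕ) (i : I) (x : I → E3) : nk x k i ≤ Fintype.card I := by
  unfold nk
  calc _ ≤ ∑ _j : I, (1 : ℝ) := Finset.sum_le_sum fun j _ => by split_ifs <;> norm_num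
    _ = _ := by simp

theorem sl_nk_ge (k : ℕ) (i : I) (x : I → E3) : 1 ≤ nk x k i := by
  unfold nk
  have h : (if 2 ^ k * ‖x i - x i‖ ≤ 4 then (1 : ℝ) else 0) = 1 := by
    rw [if_pos]
    rw [sub_self, norm_zero, mul_zero]
    norm_num
  calc (1 : ℝ) = (if 2 ^ k * ‖x i - x i‖ ≤ 4 then (1 : ℝ) else 0) := h.symm
    _ ≤ _ := Finset.single_le_sum (f := fun j => if 2 ^ k * ‖x j - x i‖ ≤ 4 then (1 : ℝ) else 0)
      (fun j _ => by show 0 ≤ (if 2 ^ k * ‖x j - x i‖ ≤ 4 then (1 : ℝ) else 0)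
                     split_ifs <;> norm_num) (Finset.mem_univ i)

/-- the two kinds of sums over the particles -/
theorem sl_sum_meas (y : E3) (R : ℝ) (k : ℕ) (a : ℝ) : Measurable (fun x : I → E3 =>
    ∑ i, if ‖x i - y‖ < R then (nk x k i - a) ^ ((2 : ℝ) / 3) else 0) := by
  refine Finset.measurable_fun_sum _ fun i _ => ?_
  refine Measurable.ite ?_ ?_ measurable_const
  · exact measurableSet_lt (by fun_prop) measurable_const
  · exact ((sl_nk_meas k i).sub_const a).pow_const _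

theorem sl_sum_bd (y : E3) (R : ℝ) (k : ℕ) (a : ℝ) (ha0 : 0 ≤ a) (ha : a ≤ 1) (x : I → E3) :
    |∑ i, if ‖x i - y‖ < R then (nk x k i - a) ^ ((2 : ℝ) / 3) else 0| ≤
      (Fintype.card I : ℝ) * (Fintype.card I : ℝ) ^ ((2 : ℝ) / 3) := by
  refine (Finset.abs_sum_le_sum_abs _ _).trans ?_
  calc _ ≤ ∑ _i : I, (Fintype.card I : ℝ) ^ ((2 : ℝ) / 3) := Finset.sum_le_sum fun i _ => ?_
    _ = _ := by simp
  have h1 := sl_nk_ge k i x
  have h2 := sl_nk_le k i x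
  have h3 : (0 : ℝ) ≤ (Fintype.card I : ℝ) ^ ((2 : ℝ) / 3) := by positivity
  split_ifs
  · rw [abs_of_nonneg (Real.rpow_nonneg (by linarith) _)]
    exact Real.rpow_le_rpow (by linarith) (by linarith) (by norm_num)
  · rw [abs_zero]
    exact h3

end Aux2

theorem sl_geom (k0 k1 : ℕ) : ∑ k ∈ Finset.Ico k0 k1, (1 / 4 : ℝ) ^ k ≤ 4 / 3 / 2 ^ k0 := by
  refine (geom_sum_Ico_le_of_lt_one (by norm_num) (by norm_num)).trans ?_
  have h1 : (1 / 4 : ℝ) ^ k0 ≤ (1 / 2) ^ k0 := pow_le_pow_left₀ (by norm_num) (by norm_num) _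
  have h2 : (1 / 2 : ℝ) ^ k0 = 1 / 2 ^ k0 := by rw [one_div_pow]
  rw [h2] at h1
  calc (1 / 4 : ℝ) ^ k0 / (1 - 1 / 4) = 4 / 3 * (1 / 4 : ℝ) ^ k0 := by ring
    _ ≤ 4 / 3 * (1 / 2 ^ k0) := by gcongr
    _ = _ := by ring

/-- TARGET -/
theorem scales_law {S : Type} [Fintype S] [DecidableEq S] (D : Species S) (hD : D.Valid)
    (hf : ∀ s, D.charge s < 0 → D.fermion s = true) (z cm K₁ C₁ : ℝ) (hcm : 0 < cm)
    (hz : ∀ s, cm ≤ |D.charge s| ∧ |D.charge s| ≤ z) (hK₁ : 0 < K₁) (hC₁ : 0 < C₁)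
    (h : RB z K₁ C₁) (F : Finset E3) (hF : ∀ v : E3, ‖v‖ ≤ 12 → ∃ p ∈ F, ‖v - p‖ < 1 / 64) :
    ∃ C : ℝ, 0 < C ∧ ∀ {I : Type} [Fintype I] [DecidableEq I] (sp : I → S) (ℓ : ℝ)
      (Ψ : Wave D I), IsState D sp ℓ Ψ → nrm2 D Ψ = 1 → ∀ (y : E3) (r : ℝ) (k0 k1 : ℕ), 0 < r →
      r ≤ 1 → 100 ≤ 2 ^ k0 * r →
      kb D sp y (12 * r) Ψ ≤ ∑ p ∈ F, klc D sp (y + r • p) (r / 4) Ψ →
      ∑ k ∈ Finset.Ico k0 k1, wm D (fun x => bt y r k x ^ 2 * ∑ i, (if ‖x i - y‖ < 6 * r then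
        nk x k i ^ ((2 : ℝ) / 3) else 0)) Ψ ≤
      C / 2 ^ k0 * (∑ p ∈ F, MM D sp K₁ (y + r • p) (r / 4) Ψ) +
      C / r * (1 + wm D (fun x => nb y (12 * r) x ^ ((4 : ℝ) / 3)) Ψ) := by
  obtain ⟨Ca, hCa, hact⟩ := act
  obtain ⟨K, Cn, hK, hCn, hnw⟩ := nw_kin D hD hf
  obtain ⟨Cp, hCp, hpl⟩ := pairs_loc z cm K hcm hK K₁ C₁ hC₁ h F hF
  refine ⟨Ca + Cp + Cp * (Cn * 10 ^ 5 * (4 / 3)), by positivity, ?_⟩
  intro I _ _ sp ℓ Ψ hΨ hn y r k0 k1 hr hr1 hk0 hkb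
  obtain ⟨w1, w2, -, -, w5, -, -⟩ := wt_facts D hD sp ℓ
  set V : ℕ → (I → E3) → ℝ := fun k x => bt y r k x ^ 2 * ∑ i, (if ‖x i - y‖ < 6 * r then
        nk x k i ^ ((2 : ℝ) / 3) else 0) with hVdef
  set U : ℕ → (I → E3) → ℝ := fun k x => ∑ i, (if ‖x i - y‖ < 6 * r then
        (nk x k i - 1) ^ ((2 : ℝ) / 3) else 0) with hUdef
  set G : (I → E3) → ℝ := fun x => nb y (12 * r) x ^ ((4 : ℝ) / 3) with hG
  set Q : ℕ → (I → E3) → ℝ := fun k x => ∫ w in Metric.ball y (7 * r),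
        (if K ≤ nw (fun i => D.charge (sp i)) x (10 / 2 ^ k) w then
          nw (fun i => D.charge (sp i)) x (10 / 2 ^ k) w ^ ((5 : ℝ) / 3) else 0) with hQ
  set X : E3 → (I → E3) → ℝ := fun p x => mx D sp K₁ (y + r • p) (r / 4) x with hX
  have hV : ∀ k, WI D sp ℓ (V k) := by
    intro k
    refine w1 _ ?_ ((Fintype.card I : ℝ) * (Fintype.card I : ℝ) ^ ((2 : ℝ) / 3)) ?_
    · have h1 := sl_sum_meas (I := I) y (6 * r) k 0
      simp only [sub_zero] at h1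
      exact ((sl_bt_cont y r k).measurable.pow_const 2).mul h1
    · intro x
      have h1 := sl_sum_bd y (6 * r) k 0 le_rfl zero_le_one x
      simp only [sub_zero] at h1
      have h2 := sl_bt_mem y r k x
      show |bt y r k x ^ 2 * _| ≤ _
      rw [abs_mul, abs_of_nonneg (sq_nonneg _)]
      calc _ ≤ 1 * _ := mul_le_mul_of_nonneg_right (pow_le_one₀ h2.1 h2.2) (abs_nonneg _)
        _ = _ := one_mul _
        _ ≤ _ := h1
  have hU : ∀ k, WI D sp ℓ (U k) := fun k =>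
    w1 _ (sl_sum_meas y (6 * r) k 1) _ (sl_sum_bd y (6 * r) k 1 zero_le_one le_rfl)
  have hGI : WI D sp ℓ G := w2 y (12 * r) (4 / 3) (by norm_num)
  have hQI : ∀ k, WI D sp ℓ (Q k) := fun k =>
    (hnw sp ℓ y (7 * r) (10 / 2 ^ k) (by positivity) (by positivity)).1
  have hXI : ∀ p, WI D sp ℓ (X p) := fun p => w5 (y + r • p) (r / 4) K₁
  have hG1 : WI D sp ℓ (fun x => Ca / r * (1 + G x)) :=
    WI_smul D sp ℓ (WI_add D sp ℓ (WI_const D sp ℓ 1) hGI) _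
  have hsU : WI D sp ℓ (fun x => ∑ k ∈ Finset.Ico k0 k1, U k x) :=
    WI_sum D sp ℓ _ U fun k _ => hU k
  -- step 1
  have s1 : ∑ k ∈ Finset.Ico k0 k1, wm D (V k) Ψ ≤
      wm D (fun x => (∑ k ∈ Finset.Ico k0 k1, U k x) + Ca / r * (1 + G x)) Ψ := by
    rw [← wm_sum D sp ℓ (Finset.Ico k0 k1) V (fun k _ => hV k) Ψ hΨ]
    exact wm_mono D sp ℓ (WI_sum D sp ℓ _ V fun k _ => hV k) (WI_add D sp ℓ hsU hG1) Ψ hΨ
      (Filter.Eventually.of_forall fun x => hact x y r k0 k1 hr hr1)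
  have s2 : wm D (fun x => (∑ k ∈ Finset.Ico k0 k1, U k x) + Ca / r * (1 + G x)) Ψ =
      wm D (fun x => ∑ k ∈ Finset.Ico k0 k1, U k x) Ψ + Ca / r * (1 + wm D G Ψ) := by
    rw [wm_add D sp ℓ hsU hG1 Ψ hΨ, wm_smul, wm_add D sp ℓ (WI_const D sp ℓ 1) hGI Ψ hΨ, wm_one, hn]
  -- step 2
  have hA : WI D sp ℓ (fun x => Cp / 2 ^ k0 * ∑ p ∈ F, X p x) :=
    WI_smul D sp ℓ (WI_sum D sp ℓ F X fun p _ => hXI p) _
  have hB0 : WI D sp ℓ (fun x => ∑ k ∈ Finset.Ico k0 k1, 8 ^ k * Q k x) :=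
    WI_sum D sp ℓ _ (fun k x => 8 ^ k * Q k x) fun k _ => WI_smul D sp ℓ (hQI k) _
  have hB : WI D sp ℓ (fun x => Cp * ∑ k ∈ Finset.Ico k0 k1, 8 ^ k * Q k x) :=
    WI_smul D sp ℓ hB0 _
  have s3 : wm D (fun x => ∑ k ∈ Finset.Ico k0 k1, U k x) Ψ ≤
      wm D (fun x => Cp / 2 ^ k0 * (∑ p ∈ F, X p x) +
        Cp * ∑ k ∈ Finset.Ico k0 k1, 8 ^ k * Q k x) Ψ := by
    refine wm_mono D sp ℓ hsU (WI_add D sp ℓ hA hB) Ψ hΨ ?_
    filter_upwards [ae_distinct (I := I)] with x hx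
    exact hpl (fun i => D.charge (sp i)) x (fun i => hz (sp i)) hx y r k0 k1 hr hr1 hk0
  have s4 : wm D (fun x => Cp / 2 ^ k0 * (∑ p ∈ F, X p x) +
        Cp * ∑ k ∈ Finset.Ico k0 k1, 8 ^ k * Q k x) Ψ =
      Cp / 2 ^ k0 * (∑ p ∈ F, wm D (X p) Ψ) +
        Cp * ∑ k ∈ Finset.Ico k0 k1, 8 ^ k * wm D (Q k) Ψ := by
    rw [wm_add D sp ℓ hA hB Ψ hΨ, wm_smul, wm_smul, wm_sum D sp ℓ F X (fun p _ => hXI p) Ψ hΨ,
      wm_sum D sp ℓ (Finset.Ico k0 k1) (fun k x => 8 ^ k * Q k x)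
        (fun k _ => WI_smul D sp ℓ (hQI k) _) Ψ hΨ]
    congr 2
    exact Finset.sum_congr rfl fun k _ => wm_smul D (Q k) (8 ^ k) Ψ
  -- kinetic part
  set T := ∑ p ∈ F, klc D sp (y + r • p) (r / 4) Ψ with hT
  have hT0 : 0 ≤ T := Finset.sum_nonneg fun p _ => sl_klc_nonneg D sp hD Ψ _ _
  have s5 : ∀ k ∈ Finset.Ico k0 k1, 8 ^ k * wm D (Q k) Ψ ≤ Cn * 10 ^ 5 * T * (1 / 4) ^ k := by
    intro k hk
    have hkk : k0 ≤ k := (Finset.mem_Ico.1 hk).1
    have h1 := (hnw sp ℓ y (7 * r) (10 / 2 ^ k) (by positivity) (by positivity)).2 Ψ hΨ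
    have h2 : 7 * r + 2 * (10 / 2 ^ k) ≤ 12 * r := by
      have h3 : (2 : ℝ) ^ k0 ≤ 2 ^ k := pow_le_pow_right₀ (by norm_num) hkk
      have h4 : (10 : ℝ) / 2 ^ k ≤ r / 10 := by
        rw [div_le_iff₀ (by positivity)]
        have h5 : 2 ^ k0 * r ≤ 2 ^ k * r := by gcongr
        linarith
      linarith
    have h6 := (sl_kb_mono D sp hD ℓ Ψ hΨ y _ _ h2).trans hkb
    have h7 : wm D (Q k) Ψ ≤ Cn * (10 / 2 ^ k) ^ 5 * T := by
      refine h1.trans ?_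
      exact mul_le_mul_of_nonneg_left h6 (by positivity)
    calc 8 ^ k * wm D (Q k) Ψ ≤ 8 ^ k * (Cn * (10 / 2 ^ k) ^ 5 * T) := by gcongr
      _ = Cn * 10 ^ 5 * T * (1 / 4) ^ k := by
          have e1 : (8 : ℝ) ^ k = (2 ^ k) ^ 3 := by
            rw [← pow_mul, mul_comm k 3, pow_mul]; norm_num
          have e2 : (1 / 4 : ℝ) ^ k = 1 / (2 ^ k) ^ 2 := by
            rw [one_div_pow, ← pow_mul, mul_comm k 2, pow_mul]; norm_num
          rw [e1, e2]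
          have : (2 : ℝ) ^ k ≠ 0 := by positivity
          field_simp
  have s6 : ∑ k ∈ Finset.Ico k0 k1, 8 ^ k * wm D (Q k) Ψ ≤
      Cn * 10 ^ 5 * T * (4 / 3 / 2 ^ k0) := by
    refine (Finset.sum_le_sum s5).trans ?_
    rw [← Finset.mul_sum]
    exact mul_le_mul_of_nonneg_left (sl_geom k0 k1) (by positivity)
  -- the renormalised potential is nonnegative
  have hX0 : ∀ p, 0 ≤ wm D (X p) Ψ := by
    intro p
    refine sl_wm_nonneg D _ Ψ ?_
    filter_upwards [ae_distinct (I := I)] with x hx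
    have h1 := (h (fun i => D.charge (sp i)) x (cy (y + r • p) (r / 4))
      (fun i => (hz (sp i)).2) hx (sl_cy_mem _ _)).1
    exact h1.1.trans h1.2
  set Y := ∑ p ∈ F, wm D (X p) Ψ with hY
  have hY0 : 0 ≤ Y := Finset.sum_nonneg fun p _ => hX0 p
  have hMM : ∑ p ∈ F, MM D sp K₁ (y + r • p) (r / 4) Ψ = T + Y := by
    rw [hT, hY, ← Finset.sum_add_distrib]
    rfl
  rw [hMM]
  have hW0 : 0 ≤ wm D G Ψ := by
    refine sl_wm_nonneg D _ Ψ ?_
    refine Filter.Eventually.of_forall fun x => ?_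
    refine Real.rpow_nonneg ?_ _
    unfold nb
    exact Finset.sum_nonneg fun i _ => by split_ifs <;> norm_num
  have h2k : (0 : ℝ) < 2 ^ k0 := by positivity
  have f1 : Cp * ∑ k ∈ Finset.Ico k0 k1, 8 ^ k * wm D (Q k) Ψ ≤
      Cp * (Cn * 10 ^ 5 * T * (4 / 3 / 2 ^ k0)) := mul_le_mul_of_nonneg_left s6 hCp.le
  have f2 : Cp / 2 ^ k0 * Y + Cp * (Cn * 10 ^ 5 * T * (4 / 3 / 2 ^ k0)) ≤
      (Ca + Cp + Cp * (Cn * 10 ^ 5 * (4 / 3))) / 2 ^ k0 * (T + Y) := by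
    have e : Cp / 2 ^ k0 * Y + Cp * (Cn * 10 ^ 5 * T * (4 / 3 / 2 ^ k0)) =
        (Cp * Y + Cp * (Cn * 10 ^ 5 * (4 / 3)) * T) / 2 ^ k0 := by
      field_simp
    rw [e, div_mul_eq_mul_div]
    refine div_le_div_of_nonneg_right ?_ h2k.le
    have g1 : 0 ≤ Ca * (T + Y) := by positivity
    have g2 : 0 ≤ Cp * T := by positivity
    have g3 : 0 ≤ Cp * (Cn * 10 ^ 5 * (4 / 3)) * Y := by positivity
    nlinarith
  have f3 : Ca / r * (1 + wm D G Ψ) ≤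
      (Ca + Cp + Cp * (Cn * 10 ^ 5 * (4 / 3))) / r * (1 + wm D G Ψ) := by
    refine mul_le_mul_of_nonneg_right ?_ (by positivity)
    refine div_le_div_of_nonneg_right ?_ hr.le
    have : 0 ≤ Cp * (Cn * 10 ^ 5 * (4 / 3)) := by positivity
    linarith
  calc ∑ k ∈ Finset.Ico k0 k1, wm D (V k) Ψ
      ≤ wm D (fun x => ∑ k ∈ Finset.Ico k0 k1, U k x) Ψ + Ca / r * (1 + wm D G Ψ) :=
        s1.trans s2.le
    _ ≤ (Cp / 2 ^ k0 * Y + Cp * ∑ k ∈ Finset.Ico k0 k1, 8 ^ k * wm D (Q k) Ψ) +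
        Ca / r * (1 + wm D G Ψ) := by
        have := s3.trans s4.le
        linarith
    _ ≤ _ := by linarith

end Pool.Agent.Helper780_CP.RSL
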