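import Pool.Agent.Helper780_CP.LLDefs2
import Pool.Agent.Helper780_CP.LLDefs3
import Pool.Agent.Helper780_CP.RWT
import Pool.Agent.Helper780_CP.RNL
import Pool.Agent.Helper780_CP.RSL
import Pool.Agent.Helper780_CP.RL2c
import Pool.Agent.Helper780_CP.RDEC
import Pool.Agent.Helper780_CP.RQ10
import Pool.Agent.Helper780_CP.RQ11
import Pool.Agent.Helper780_CP.RL1
import Pool.Agent.Helper780_CP.RPEN
import Pool.Agent.Helper780_CP.RVB

set_option autoImplicit false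

open MeasureTheory
open scoped Topology

namespace Pool.Agent.Helper780_CP.ROS

open Pool.Agent.Helper780_CP
open Pool.Agent.Helper985.CP
open Pool.Agent.Helper780_CP.RWT (wt_facts)
open Pool.Agent.Helper780_CP.RNL (num_law)
open Pool.Agent.Helper780_CP.RSL (scales_law)
open Pool.Agent.Helper780_CP.RL2c (loc_energy)
open Pool.Agent.Helper780_CP.RDEC (dec)
open Pool.Agent.Helper780_CP.RQ10 (main_term)
open Pool.Agent.Helper780_CP.RQ11 (scale_term)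
open Pool.Agent.Helper780_CP.RL1 (FL_near_min)
open Pool.Agent.Helper780_CP.RPEN (pen_kin)
open Pool.Agent.Helper780_CP.RVB (vb_props)

open Pool.Agent.Helper780_CP Pool.Agent.Helper985.CP

section aux

variable {S : Type} (D : Species S) {I : Type} [Fintype I] [DecidableEq I] (sp : I → S)

theorem os_ct_cont : Continuous ct := by
  unfold ct
  exact Real.smoothTransition.continuous.comp (by fun_prop)

theorem os_cy_cont (y : E3) (r : ℝ) : Continuous (cy y r) := by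
  unfold cy
  exact os_ct_cont.comp (by fun_prop)

theorem os_cy_nonneg (y : E3) (r : ℝ) (x : E3) : 0 ≤ cy y r x :=
  Real.smoothTransition.nonneg _

theorem os_cy_le (y : E3) (r : ℝ) (x : E3) : cy y r x ≤ 1 :=
  Real.smoothTransition.le_one _

theorem os_l_bdd (l : E3 → ℝ) (hl : Continuous l) (h : ∀ w, 1 ≤ ‖w‖ → l w = 1 / ‖w‖) :
    ∃ B : ℝ, 0 ≤ B ∧ ∀ w, |l w| ≤ B := by
  obtain ⟨B, hB⟩ := (isCompact_closedBall (0 : E3) 1).exists_bound_of_continuousOn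
    hl.continuousOn
  refine ⟨max B 1, le_trans zero_le_one (le_max_right _ _), fun w => ?_⟩
  by_cases hw : ‖w‖ ≤ 1
  · refine le_trans ?_ (le_max_left _ _)
    have := hB w (by simpa using hw)
    simpa [Real.norm_eq_abs] using this
  · have hw' : 1 ≤ ‖w‖ := le_of_lt (not_le.1 hw)
    rw [h w hw', abs_of_nonneg (by positivity)]
    refine le_trans ?_ (le_max_right _ _)
    rw [div_le_one (by linarith)]
    exact hw'

omit [DecidableEq I] in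
theorem os_nb_eq (y : E3) (R : ℝ) (x : I → E3) :
    nb y R x = ((Finset.univ.filter (fun i => ‖x i - y‖ ≤ R)).card : ℝ) := by
  unfold nb
  rw [Finset.sum_ite]
  simp

omit [DecidableEq I] in
theorem os_nb_nonneg (y : E3) (R : ℝ) (x : I → E3) : 0 ≤ nb y R x := by
  rw [os_nb_eq]
  positivity

omit [DecidableEq I] in
theorem os_nb_mono (y : E3) {R R' : ℝ} (h : R ≤ R') (x : I → E3) : nb y R x ≤ nb y R' x := by
  unfold nb
  refine Finset.sum_le_sum fun i _ => ?_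
  by_cases h1 : ‖x i - y‖ ≤ R
  · rw [if_pos h1, if_pos (h1.trans h)]
  · rw [if_neg h1]
    split_ifs <;> norm_num

omit [DecidableEq I] in
theorem os_nb_le_pow (y : E3) (R : ℝ) (x : I → E3) : nb y R x ≤ nb y R x ^ ((4 : ℝ) / 3) := by
  rw [os_nb_eq]
  rcases Nat.eq_zero_or_pos (Finset.univ.filter (fun i => ‖x i - y‖ ≤ R)).card with h | h
  · rw [h]
    simp
  · have h1 : (1 : ℝ) ≤ ((Finset.univ.filter (fun i => ‖x i - y‖ ≤ R)).card : ℝ) := by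
      exact_mod_cast h
    calc ((Finset.univ.filter (fun i => ‖x i - y‖ ≤ R)).card : ℝ)
        = ((Finset.univ.filter (fun i => ‖x i - y‖ ≤ R)).card : ℝ) ^ (1 : ℝ) := by simp
      _ ≤ _ := Real.rpow_le_rpow_of_exponent_le h1 (by norm_num)

omit [DecidableEq I] in
theorem os_nb_le (y : E3) {R R' : ℝ} (h : R ≤ R') (x : I → E3) :
    nb y R x ≤ nb y R' x ^ ((4 : ℝ) / 3) :=
  (os_nb_mono y h x).trans (os_nb_le_pow y R' x)

omit [DecidableEq I] in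
theorem os_nb_pow_le (y : E3) {R R' : ℝ} (h : R ≤ R') (x : I → E3) :
    nb y R x ^ ((4 : ℝ) / 3) ≤ nb y R' x ^ ((4 : ℝ) / 3) :=
  Real.rpow_le_rpow (os_nb_nonneg y R x) (os_nb_mono y h x) (by norm_num)

omit [Fintype I] in
theorem os_kin_nonneg (hD : D.Valid) (i : I) (u : (I → E3) → ℂ) (x : I → E3) :
    0 ≤ kin D sp i u x := by
  unfold kin
  have := hD.mass_pos (sp i)
  positivity

theorem os_kb_mono (hD : D.Valid) (ℓ : ℝ) (Ψ : Wave D I) (hΨ : IsState D sp ℓ Ψ) (y : E3)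
    {R R' : ℝ} (h : R ≤ R') : kb D sp y R Ψ ≤ kb D sp y R' Ψ := by
  have hint : ∀ (R : ℝ) (τ : I → Fin D.g), Integrable (fun x : I → E3 =>
      ∑ j, if ‖x j - y‖ < R then kin D sp j (Ψ τ) x else 0) := by
    intro R τ
    refine integrable_finsetSum _ fun j _ => ?_
    have h1 := (int_state D sp ℓ Ψ hΨ τ).2.1 j
    have hm : MeasurableSet {x : I → E3 | ‖x j - y‖ < R} := by
      refine measurableSet_lt ?_ measurable_const
      fun_prop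
    refine (h1.indicator hm).congr (Filter.Eventually.of_forall fun x => ?_)
    simp only [Set.indicator_apply, Set.mem_ofPred_eq]
  unfold kb
  refine Finset.sum_le_sum fun τ _ => ?_
  refine integral_mono (hint R τ) (hint R' τ) fun x => ?_
  refine Finset.sum_le_sum fun j _ => ?_
  by_cases h1 : ‖x j - y‖ < R
  · rw [if_pos h1, if_pos (h1.trans_le h)]
  · rw [if_neg h1]
    split_ifs
    · exact os_kin_nonneg D sp hD j _ x
    · exact le_rfl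


theorem os_WI_sub (ℓ : ℝ) {V W : (I → E3) → ℝ} (hV : WI D sp ℓ V) (hW : WI D sp ℓ W) :
    WI D sp ℓ (fun x => V x - W x) := by
  have h := WI_add D sp ℓ hV (WI_smul D sp ℓ hW (-1))
  have e : (fun x => V x - W x) = fun x => V x + -1 * W x := by
    funext x
    ring
  rw [e]
  exact h

theorem os_wm_sub (ℓ : ℝ) {V W : (I → E3) → ℝ} (hV : WI D sp ℓ V) (hW : WI D sp ℓ W)
    (Ψ : Wave D I) (hΨ : IsState D sp ℓ Ψ) :
    wm D (fun x => V x - W x) Ψ = wm D V Ψ - wm D W Ψ := by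
  have e : (fun x => V x - W x) = fun x => V x + -1 * W x := by
    funext x
    ring
  rw [e, wm_add D sp ℓ hV (WI_smul D sp ℓ hW (-1)) Ψ hΨ, wm_smul]
  ring

theorem os_nb_meas (y : E3) (R : ℝ) : Measurable (nb (I := I) y R) := by
  unfold nb
  refine Finset.measurable_sum _ fun i _ => ?_
  refine Measurable.ite ?_ measurable_const measurable_const
  refine measurableSet_le ?_ measurable_const
  fun_prop

theorem os_nb_card (y : E3) (R : ℝ) (x : I → E3) : nb y R x ≤ (Fintype.card I : ℝ) := by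
  rw [os_nb_eq]
  exact_mod_cast Finset.card_le_univ _

end aux

section wts

variable {S : Type} [Fintype S] [DecidableEq S] (D : Species S) (hD : D.Valid) {I : Type}
  [Fintype I] [DecidableEq I] (sp : I → S)

include hD

theorem os_WI_nb (ℓ : ℝ) (y : E3) (R : ℝ) : WI D sp ℓ (nb y R) := by
  refine (wt_facts D hD sp ℓ).1 _ (os_nb_meas y R) (Fintype.card I) fun x => ?_
  rw [abs_of_nonneg (os_nb_nonneg y R x)]
  exact os_nb_card y R x

/-- `Q = Σ c_i cy²` -/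
noncomputable def os_Q (y : E3) (r : ℝ) (x : I → E3) : ℝ :=
  ∑ i, D.charge (sp i) * cy y r (x i) ^ 2

/-- the main kernel -/
noncomputable def os_M (l : E3 → ℝ) (y : E3) (r : ℝ) (k : ℕ) (x : I → E3) : ℝ :=
  ∑ i, ∑ j, cy y r (x i) * (cy y r (x i) - cy y r (x j)) *
            (D.charge (sp i) * D.charge (sp j)) * (2 ^ k * l ((2 : ℝ) ^ k • (x i - x j)))

/-- the scale kernel -/
noncomputable def os_P (l : E3 → ℝ) (y : E3) (r : ℝ) (k : ℕ) (x : I → E3) : ℝ :=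
  bt y r k x ^ 2 * ∑ i, ∑ j, D.charge (sp i) * D.charge (sp j) *
            ((cy y r (x i) - cy y r (x j)) ^ 2 / 2 * psi l k (x i - x j))

/-- the Coulomb energy with the cutoff at one point -/
noncomputable def os_T (y : E3) (r : ℝ) (x : I → E3) : ℝ :=
  ∑ i, cy y r (x i) ^ 2 * ∑ j, if i = j then 0 else
      D.charge (sp i) * D.charge (sp j) / ‖x i - x j‖

end wts

section wts2

variable {S : Type} [Fintype S] [DecidableEq S] (D : Species S) (hD : D.Valid) {I : Type}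
  [Fintype I] [DecidableEq I] (sp : I → S)

omit [Fintype S] [DecidableEq S] [DecidableEq I] in
theorem os_phbQ_cont (ℓ : ℝ) (hv : Continuous (vb ℓ)) (y : E3) (r : ℝ) :
    Continuous (fun x => phb D sp ℓ x * os_Q D sp y r x) := by
  have hc := os_cy_cont y r
  unfold phb os_Q
  fun_prop

omit [Fintype S] [DecidableEq S] [DecidableEq I] in
theorem os_phbQ_bdd (ℓ B : ℝ) (hB : ∀ w, 0 ≤ vb ℓ w ∧ vb ℓ w ≤ B) (y : E3) (r : ℝ)
    (x : I → E3) : |phb D sp ℓ x * os_Q D sp y r x| ≤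
      (∑ i, |D.charge (sp i)| * B) * ∑ i, |D.charge (sp i)| := by
  rw [abs_mul]
  have hB0 : 0 ≤ B := (hB 0).1.trans (hB 0).2
  refine mul_le_mul ?_ ?_ (abs_nonneg _) (Finset.sum_nonneg fun i _ => by positivity)
  · unfold phb
    refine (Finset.abs_sum_le_sum_abs _ _).trans (Finset.sum_le_sum fun i _ => ?_)
    rw [abs_mul, abs_of_nonneg (hB (x i)).1]
    exact mul_le_mul_of_nonneg_left (hB (x i)).2 (abs_nonneg _)
  · unfold os_Q
    refine (Finset.abs_sum_le_sum_abs _ _).trans (Finset.sum_le_sum fun i _ => ?_)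
    rw [abs_mul, abs_of_nonneg (sq_nonneg (cy y r (x i)))]
    have h1 : cy y r (x i) ^ 2 ≤ 1 := pow_le_one₀ (os_cy_nonneg y r _) (os_cy_le y r _)
    calc _ ≤ |D.charge (sp i)| * 1 := mul_le_mul_of_nonneg_left h1 (abs_nonneg _)
      _ = _ := mul_one _

omit [Fintype S] [DecidableEq S] [DecidableEq I] in
theorem os_M_cont (l : E3 → ℝ) (hl : Continuous l) (y : E3) (r : ℝ) (k : ℕ) :
    Continuous (os_M D sp l y r k) := by
  have hc := os_cy_cont y r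
  unfold os_M
  fun_prop

omit [Fintype S] [DecidableEq S] [DecidableEq I] in
theorem os_M_bdd (l : E3 → ℝ) (B : ℝ) (hB0 : 0 ≤ B) (hB : ∀ w, |l w| ≤ B) (y : E3) (r : ℝ)
    (k : ℕ) (x : I → E3) : |os_M D sp l y r k x| ≤
      ∑ i, ∑ j, |D.charge (sp i) * D.charge (sp j)| * (2 ^ k * B) := by
  unfold os_M
  refine (Finset.abs_sum_le_sum_abs _ _).trans (Finset.sum_le_sum fun i _ => ?_)
  refine (Finset.abs_sum_le_sum_abs _ _).trans (Finset.sum_le_sum fun j _ => ?_)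
  have h1 : |cy y r (x i) * (cy y r (x i) - cy y r (x j))| ≤ 1 := by
    rw [abs_mul]
    have h2 : |cy y r (x i)| ≤ 1 := by
      rw [abs_of_nonneg (os_cy_nonneg y r _)]
      exact os_cy_le y r _
    have h3 : |cy y r (x i) - cy y r (x j)| ≤ 1 := by
      rw [abs_le]
      constructor <;> linarith [os_cy_nonneg y r (x i), os_cy_le y r (x i),
        os_cy_nonneg y r (x j), os_cy_le y r (x j)]
    exact mul_le_one₀ h2 (abs_nonneg _) h3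
  have h4 : |(2 : ℝ) ^ k * l ((2 : ℝ) ^ k • (x i - x j))| ≤ 2 ^ k * B := by
    rw [abs_mul, abs_of_nonneg (by positivity : (0 : ℝ) ≤ 2 ^ k)]
    exact mul_le_mul_of_nonneg_left (hB _) (by positivity)
  rw [abs_mul, abs_mul]
  calc _ ≤ 1 * |D.charge (sp i) * D.charge (sp j)| * (2 ^ k * B) := by gcongr
    _ = _ := by ring

omit [Fintype S] [DecidableEq S] [DecidableEq I] in
theorem os_P_cont (l : E3 → ℝ) (hl : Continuous l) (y : E3) (r : ℝ) (k : ℕ) :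
    Continuous (os_P D sp l y r k) := by
  have hc := os_cy_cont y r
  have hc6 := os_cy_cont y (6 * r)
  have hs := Real.smoothTransition.continuous
  unfold os_P bt nT psi
  fun_prop

omit [Fintype S] [DecidableEq S] [DecidableEq I] in
theorem os_P_bdd (l : E3 → ℝ) (B : ℝ) (hB0 : 0 ≤ B) (hB : ∀ w, |l w| ≤ B) (y : E3) (r : ℝ)
    (k : ℕ) (x : I → E3) : |os_P D sp l y r k x| ≤
      ∑ i, ∑ j, |D.charge (sp i) * D.charge (sp j)| * (2 ^ (k + 1) * B + 2 ^ k * B) := by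
  unfold os_P
  have hbt : |bt y r k x ^ 2| ≤ 1 := by
    rw [abs_of_nonneg (sq_nonneg _)]
    exact pow_le_one₀ (Real.smoothTransition.nonneg _) (Real.smoothTransition.le_one _)
  rw [abs_mul]
  have hs : |∑ i, ∑ j, D.charge (sp i) * D.charge (sp j) *
            ((cy y r (x i) - cy y r (x j)) ^ 2 / 2 * psi l k (x i - x j))| ≤
      ∑ i, ∑ j, |D.charge (sp i) * D.charge (sp j)| * (2 ^ (k + 1) * B + 2 ^ k * B) := by
    refine (Finset.abs_sum_le_sum_abs _ _).trans (Finset.sum_le_sum fun i _ => ?_)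
    refine (Finset.abs_sum_le_sum_abs _ _).trans (Finset.sum_le_sum fun j _ => ?_)
    have h3 : |(cy y r (x i) - cy y r (x j)) ^ 2 / 2| ≤ 1 := by
      have h3' : |cy y r (x i) - cy y r (x j)| ≤ 1 := by
        rw [abs_le]
        constructor <;> linarith [os_cy_nonneg y r (x i), os_cy_le y r (x i),
          os_cy_nonneg y r (x j), os_cy_le y r (x j)]
      rw [abs_of_nonneg (by positivity)]
      have h3'' : (cy y r (x i) - cy y r (x j)) ^ 2 ≤ 1 := (sq_le_one_iff_abs_le_one _).2 h3'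
      linarith
    have h4 : |psi l k (x i - x j)| ≤ 2 ^ (k + 1) * B + 2 ^ k * B := by
      unfold psi
      refine (abs_sub _ _).trans (add_le_add ?_ ?_)
      · rw [abs_mul, abs_of_nonneg (by positivity : (0 : ℝ) ≤ 2 ^ (k + 1))]
        exact mul_le_mul_of_nonneg_left (hB _) (by positivity)
      · rw [abs_mul, abs_of_nonneg (by positivity : (0 : ℝ) ≤ 2 ^ k)]
        exact mul_le_mul_of_nonneg_left (hB _) (by positivity)
    rw [abs_mul (D.charge (sp i) * D.charge (sp j)), abs_mul ((cy y r (x i) - cy y r (x j)) ^ 2 / 2)]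
    calc _ ≤ |D.charge (sp i) * D.charge (sp j)| * (1 * (2 ^ (k + 1) * B + 2 ^ k * B)) := by
          gcongr
      _ = _ := by ring
  calc _ ≤ 1 * (∑ i, ∑ j, |D.charge (sp i) * D.charge (sp j)| *
        (2 ^ (k + 1) * B + 2 ^ k * B)) := by gcongr
    _ = _ := one_mul _

include hD in
theorem os_key (ℓ : ℝ) (hv : Continuous (vb ℓ)) (Bv : ℝ) (hBv : ∀ w, 0 ≤ vb ℓ w ∧ vb ℓ w ≤ Bv)
    (l : E3 → ℝ) (hl : Continuous l) (hl1 : ∀ w, 1 ≤ ‖w‖ → l w = 1 / ‖w‖) (Cd : ℝ) (y : E3)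
    (r : ℝ) (k0 k1 : ℕ)
    (hdec : ∀ x : I → E3, (∀ i j, i ≠ j → x i ≠ x j) → |os_T D sp y r x -
      vl (cy y r) (fun i => D.charge (sp i)) x - os_M D sp l y r k0 x -
      ∑ k ∈ Finset.Ico k0 k1, os_P D sp l y r k x| ≤ Cd * nb y (3 * r) x)
    (Ψ : Wave D I) (hΨ : IsState D sp ℓ Ψ) :
    wm D (vl (cy y r) (fun i => D.charge (sp i))) Ψ +
      wm D (fun x => os_M D sp l y r k0 x - phb D sp ℓ x * os_Q D sp y r x) Ψ +
      ∑ k ∈ Finset.Ico k0 k1, wm D (os_P D sp l y r k) Ψ - Cd * wm D (nb y (3 * r)) Ψ ≤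
    wm D (fun x => os_T D sp y r x - phb D sp ℓ x * os_Q D sp y r x) Ψ := by
  obtain ⟨w1, w2, w3, w4, w5, w6, w7⟩ := wt_facts D hD sp ℓ
  obtain ⟨B, hB0, hB⟩ := os_l_bdd l hl hl1
  have iPQ : WI D sp ℓ (fun x => phb D sp ℓ x * os_Q D sp y r x) :=
    w1 _ (os_phbQ_cont D sp ℓ hv y r).measurable _ (os_phbQ_bdd D sp ℓ Bv hBv y r)
  have iM : WI D sp ℓ (os_M D sp l y r k0) :=
    w1 _ (os_M_cont D sp l hl y r k0).measurable _ (os_M_bdd D sp l B hB0 hB y r k0)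
  have iP : ∀ k, WI D sp ℓ (os_P D sp l y r k) := fun k =>
    w1 _ (os_P_cont D sp l hl y r k).measurable _ (os_P_bdd D sp l B hB0 hB y r k)
  have iT : WI D sp ℓ (os_T D sp y r) := w6 y r
  have iV := w3 y r
  have iN := os_WI_nb D hD sp ℓ y (3 * r)
  have iMQ := os_WI_sub D sp ℓ iM iPQ
  have iS := WI_sum D sp ℓ (Finset.Ico k0 k1) (fun k => os_P D sp l y r k) (fun k _ => iP k)
  have iN' := WI_smul D sp ℓ iN Cd
  have iVM := WI_add D sp ℓ iV iMQ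
  have iVMS := WI_add D sp ℓ iVM iS
  have iL := os_WI_sub D sp ℓ iVMS iN'
  have iR := os_WI_sub D sp ℓ iT iPQ
  have e : wm D (vl (cy y r) (fun i => D.charge (sp i))) Ψ +
      wm D (fun x => os_M D sp l y r k0 x - phb D sp ℓ x * os_Q D sp y r x) Ψ +
      ∑ k ∈ Finset.Ico k0 k1, wm D (os_P D sp l y r k) Ψ - Cd * wm D (nb y (3 * r)) Ψ =
      wm D (fun x => vl (cy y r) (fun i => D.charge (sp i)) x +
        (os_M D sp l y r k0 x - phb D sp ℓ x * os_Q D sp y r x) +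
        ∑ k ∈ Finset.Ico k0 k1, os_P D sp l y r k x - Cd * nb y (3 * r) x) Ψ := by
    rw [os_wm_sub D sp ℓ iVMS iN' Ψ hΨ, wm_add D sp ℓ iVM iS Ψ hΨ, wm_add D sp ℓ iV iMQ Ψ hΨ,
      wm_sum D sp ℓ (Finset.Ico k0 k1) (fun k => os_P D sp l y r k) (fun k _ => iP k) Ψ hΨ,
      wm_smul]
  rw [e]
  refine wm_mono D sp ℓ iL iR Ψ hΨ ?_
  filter_upwards [ae_distinct (I := I)] with x hx
  have h1 := (abs_le.1 (hdec x hx)).1
  linarith

end wts2

theorem os_pow (Q : ℝ) (hQ : 1 ≤ Q) : ∃ k : ℕ, Q ≤ 2 ^ k ∧ (2 : ℝ) ^ k ≤ 2 * Q := by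
  obtain ⟨n, h1, h2⟩ := exists_nat_pow_near hQ (by norm_num : (1 : ℝ) < 2)
  refine ⟨n + 1, h2.le, ?_⟩
  rw [pow_succ]
  linarith

theorem os_geo (k0 k1 : ℕ) : ∑ k ∈ Finset.Ico k0 k1, (1 : ℝ) / 2 ^ k ≤ 2 / 2 ^ k0 := by
  have h : ∀ n : ℕ, ∑ k ∈ Finset.Ico k0 (k0 + n), (1 : ℝ) / 2 ^ k =
      2 / 2 ^ k0 - 2 / 2 ^ (k0 + n) := by
    intro n
    induction n with
    | zero => simp
    | succ n ih =>
      rw [← Nat.add_assoc, Finset.sum_Ico_succ_top (Nat.le_add_right _ _), ih, pow_succ]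
      field_simp
      ring
  rcases le_total k0 k1 with h0 | h0
  · obtain ⟨n, rfl⟩ := Nat.exists_eq_add_of_le h0
    rw [h]
    have : (0 : ℝ) ≤ 2 / 2 ^ (k0 + n) := by positivity
    linarith
  · rw [Finset.Ico_eq_empty_of_le h0]
    simp
    positivity

theorem os_geo2 (k0 k1 : ℕ) : ∑ k ∈ Finset.Ico k0 k1, (2 : ℝ) ^ k ≤ 2 ^ k1 := by
  have h : ∀ n : ℕ, ∑ k ∈ Finset.Ico k0 (k0 + n), (2 : ℝ) ^ k = 2 ^ (k0 + n) - 2 ^ k0 := by
    intro n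
    induction n with
    | zero => simp
    | succ n ih =>
      rw [← Nat.add_assoc, Finset.sum_Ico_succ_top (Nat.le_add_right _ _), ih, pow_succ]
      ring
  rcases le_total k0 k1 with h0 | h0
  · obtain ⟨n, rfl⟩ := Nat.exists_eq_add_of_le h0
    rw [h]
    have : (0 : ℝ) ≤ 2 ^ k0 := by positivity
    linarith
  · rw [Finset.Ico_eq_empty_of_le h0]
    simp



theorem os_g5 (Ct Cs c₀ δ X r T : ℝ) (mt : ℕ) (hCt : 0 < Ct) (hCs : 0 < Cs) (hδ : 0 < δ)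
    (hX0 : 0 ≤ X) (hr : 0 < r) (hr1 : r ≤ 1) (hT : 0 < T) (hc₀ : c₀ = 100 + 4 * Ct * Cs / δ)
    (hc₀pos : 0 < c₀) (hk0a : c₀ / r ^ (mt + 2) ≤ T) :
    Ct / r ^ mt * (Cs / T * X) ≤ δ / 4 * X := by
  have h1 : Ct / r ^ mt * (Cs / T) ≤ δ / 4 := by
    rw [div_mul_div_comm, div_le_iff₀ (by positivity)]
    have h2 : c₀ / r ^ mt ≤ T := by
      refine le_trans ?_ hk0a
      have : r ^ (mt + 2) ≤ r ^ mt := pow_le_pow_of_le_one hr.le hr1 (by omega)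
      gcongr
    rw [div_le_iff₀ (by positivity)] at h2
    have h3 : 4 * Ct * Cs / δ ≤ c₀ := by rw [hc₀]; linarith
    rw [div_le_iff₀ hδ] at h3
    have h4 := mul_le_mul_of_nonneg_left h2 hδ.le
    linarith
  calc _ = Ct / r ^ mt * (Cs / T) * X := by ring
    _ ≤ _ := mul_le_mul_of_nonneg_right h1 hX0

theorem os_g6 (Ct Cs Z r W : ℝ) (mt : ℕ) (hCt : 0 < Ct) (hCs : 0 < Cs)
    (hZ : 0 ≤ Z) (hr : 0 < r) (h1 : 1 / r ^ (mt + 1) ≤ W) :
    Ct / r ^ mt * (Cs / r * (1 + Z)) ≤ Ct * Cs * W * (1 + Z) := by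
  calc Ct / r ^ mt * (Cs / r * (1 + Z)) = Ct * Cs * (1 / r ^ (mt + 1)) * (1 + Z) := by
        rw [pow_succ]
        field_simp
    _ ≤ _ := by gcongr

theorem os_g7 (Ct Z r W T : ℝ) (mt : ℕ) (hCt : 0 < Ct) (hT : 1 ≤ T)
    (hZ : 0 ≤ Z) (hr : 0 < r) (h1 : 1 / r ^ mt ≤ W) :
    Ct / r ^ mt * (2 / T * (1 + Z)) ≤ Ct * 2 * W * (1 + Z) := by
  have h2 : 2 / T ≤ 2 := div_le_self (by norm_num) hT
  have h0 : 0 < T := by linarith
  calc Ct / r ^ mt * (2 / T * (1 + Z)) = Ct * (2 / T) * (1 / r ^ mt) * (1 + Z) := by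
        field_simp
    _ ≤ Ct * 2 * W * (1 + Z) := by gcongr

theorem os_g8 (Ct c₀ N η r W T T' : ℝ) (mt : ℕ) (hCt : 0 < Ct) (hT : 0 < T)
    (hc₀ : 0 < c₀) (hN : 0 ≤ N) (hη : 0 ≤ η) (hη2 : η * (1 + N) ^ 2 ≤ 1) (hr : 0 < r)
    (hTb : T ≤ 2 * (c₀ / r ^ (mt + 2))) (hT'b : T' ≤ 2 * (1 + N))
    (h1 : 1 / r ^ (mt + (mt + 2)) ≤ W) :
    Ct / r ^ mt * ((1 + N) * (T * T') * η) ≤ Ct * (4 * c₀) * W := by
  have h2 : (1 + N) * (T * T') * η ≤ 4 * (c₀ / r ^ (mt + 2)) := by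
    calc (1 + N) * (T * T') * η = T * (T' * ((1 + N) * η)) := by ring
      _ ≤ T * (2 * (1 + N) * ((1 + N) * η)) := by gcongr
      _ = T * (2 * (η * (1 + N) ^ 2)) := by ring
      _ ≤ T * (2 * 1) := by gcongr
      _ ≤ 2 * (c₀ / r ^ (mt + 2)) * (2 * 1) := by gcongr
      _ = _ := by ring
  calc Ct / r ^ mt * ((1 + N) * (T * T') * η) ≤ Ct / r ^ mt * (4 * (c₀ / r ^ (mt + 2))) := by
        gcongr
    _ = Ct * (4 * c₀) * (1 / r ^ (mt + (mt + 2))) := by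
        rw [pow_add r mt (mt + 2)]
        field_simp
    _ ≤ _ := by gcongr

theorem os_g9 (K₁ Cp δ r W X Z pw kw nw : ℝ) (hK₁ : 0 < K₁) (hCp : 0 < Cp)
    (hδ : 0 < δ) (hr : 0 < r) (h1 : 1 / r ≤ W) (h2 : nw ≤ Z) (hZ : 0 ≤ Z)
    (s7 : pw ≤ δ / (4 * K₁) * kw + Cp / r * nw) (s8 : kw ≤ X) :
    K₁ * pw ≤ δ / 4 * X + K₁ * Cp * W * Z := by
  calc K₁ * pw ≤ K₁ * (δ / (4 * K₁) * kw + Cp / r * nw) := by gcongr
    _ ≤ K₁ * (δ / (4 * K₁) * X + Cp * (1 / r) * Z) := by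
        rw [div_eq_mul_one_div Cp r]
        gcongr
    _ = δ / 4 * X + K₁ * Cp * (1 / r) * Z := by field_simp
    _ ≤ _ := by gcongr


theorem os_fin (Ce Cd Q Ct Cs c₀ K₁ Cp W Z X δ klc wmx wvl wpl wMQ wP wT A1 A2 A3 : ℝ)
    (hCe : 0 < Ce) (hCd : 0 < Cd) (hCt : 0 < Ct) (hc₀ : 0 < c₀)
    (hK₁ : 0 < K₁) (hCp : 0 < Cp) (hW1 : 1 ≤ W) (hZ0 : 0 ≤ Z) (hmx : 0 ≤ wmx)
    (s1 : 1 / 2 * klc + wT ≤ A1 + A2) (s2 : wvl + wMQ + wP - A3 ≤ wT)
    (g1 : A1 ≤ Ce * W * Z) (g2 : A2 ≤ Ce) (g3 : A3 ≤ Cd * Z)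
    (t3 : -(Q * W * (1 + Z)) ≤ wMQ)
    (s6 : -(δ / 4 * X + Ct * Cs * W * (1 + Z) + Ct * 2 * W * (1 + Z) + Ct * (4 * c₀) * W) ≤ wP)
    (s9 : wmx = wvl + K₁ * wpl) (g9 : K₁ * wpl ≤ δ / 4 * X + K₁ * Cp * W * Z) :
    klc + wmx ≤ 2 * (Ce + Ce + Cd + Q + Ct * (Cs + 2 + 4 * c₀) + K₁ * Cp) * W * (1 + Z) +
      δ * X := by
  have hW0 : 0 < W := by linarith
  have u1 : 1 / 2 * klc + wmx ≤
      Ce * W * Z + Ce + Cd * Z + Q * W * (1 + Z) +
      (δ / 4 * X + Ct * Cs * W * (1 + Z) + Ct * 2 * W * (1 + Z) + Ct * (4 * c₀) * W) +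
      (δ / 4 * X + K₁ * Cp * W * Z) := by
    rw [s9]
    linarith
  have e1 : Ce * W * Z ≤ Ce * W * (1 + Z) :=
    mul_le_mul_of_nonneg_left (by linarith) (by positivity)
  have hWZ : 1 ≤ W * (1 + Z) := one_le_mul_of_one_le_of_one_le hW1 (by linarith)
  have e2 : Ce ≤ Ce * (W * (1 + Z)) := le_mul_of_one_le_right hCe.le hWZ
  have hZW : Z ≤ W * (1 + Z) := by
    calc Z ≤ 1 + Z := by linarith
      _ ≤ W * (1 + Z) := le_mul_of_one_le_left (by linarith) hW1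
  have e3 : Cd * Z ≤ Cd * (W * (1 + Z)) := mul_le_mul_of_nonneg_left hZW hCd.le
  have e4 : Ct * (4 * c₀) * W ≤ Ct * (4 * c₀) * W * (1 + Z) :=
    le_mul_of_one_le_right (by positivity) (by linarith)
  have e5 : K₁ * Cp * W * Z ≤ K₁ * Cp * W * (1 + Z) :=
    mul_le_mul_of_nonneg_left (by linarith) (by positivity)
  have e7 : 2 * (Ce + Ce + Cd + Q + Ct * (Cs + 2 + 4 * c₀) + K₁ * Cp) * W *
      (1 + Z) = 2 * (Ce * W * (1 + Z) + Ce * (W * (1 + Z)) + Cd * (W * (1 + Z)) +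
      Q * W * (1 + Z) + Ct * Cs * W * (1 + Z) + Ct * 2 * W * (1 + Z) +
      Ct * (4 * c₀) * W * (1 + Z) + K₁ * Cp * W * (1 + Z)) := by ring
  rw [e7]
  linarith

/-- TARGET -/
theorem one_step {S : Type} [Fintype S] [DecidableEq S] (D : Species S) (hD : D.Valid)
    (hst : HStable D) (hf : ∀ s, D.charge s < 0 → D.fermion s = true) (z cm K₁ C₁ : ℝ)
    (hcm : 0 < cm) (hz : ∀ s, cm ≤ |D.charge s| ∧ |D.charge s| ≤ z) (hK₁ : 0 < K₁) (hC₁ : 0 < C₁)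
    (h : RB z K₁ C₁) (F : Finset E3) (hF : ∀ v : E3, ‖v‖ ≤ 12 → ∃ p ∈ F, ‖v - p‖ < 1 / 64)
    (ρ : ℝ) (hρ : 0 ≤ ρ) (a b l : E3 → ℝ) (hK : Ker a b l) :
    ∃ m : ℕ, ∀ δ : ℝ, 0 < δ → ∃ C : ℝ, 0 < C ∧
    ∀ {I : Type} [Fintype I] [DecidableEq I] (sp : I → S) (ℓ : ℝ), 4 ≤ ℓ →
      (Fintype.card I : ℝ) ≤ ρ * ℓ ^ 3 → (∑ i, D.charge (sp i) = 0) → ∀ η : ℝ, 0 ≤ η →
      η * (1 + (Fintype.card I : ℝ)) ^ 2 ≤ 1 →
      ∀ Ψ : Wave D I, IsState D sp ℓ Ψ → nrm2 D Ψ = 1 →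
      energy D sp Ψ ≤ sInf (energies D sp ℓ) + η →
      ∀ (y : E3) (r : ℝ), 0 < r → r ≤ 1 → Metric.closedBall y (4 * r) ⊆ cube ℓ →
      MM D sp K₁ y r Ψ ≤
        C / r ^ m * (1 + wm D (fun x => nb y (12 * r) x ^ ((4 : ℝ) / 3)) Ψ) +
        δ * ∑ p ∈ F, MM D sp K₁ (y + r • p) (r / 4) Ψ := by
  obtain ⟨Cn, hCn, hn⟩ := num_law D hD hf z cm K₁ C₁ hcm hz hK₁ hC₁ h F hF
  obtain ⟨Cs, hCs, hs⟩ := scales_law D hD hf z cm K₁ C₁ hcm hz hK₁ hC₁ h F hF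
  obtain ⟨Ce, hCe, he⟩ := loc_energy D hD hst ρ hρ
  obtain ⟨Cd, hCd, hd⟩ := dec (max z 0) (le_max_right _ _) l hK.l_smooth hK.l_out hK.l_even
  obtain ⟨Cf, hCf, hfl⟩ := FL_near_min D hD hst ρ hρ
  obtain ⟨Cm, mm, hCm, hm⟩ := main_term (max z 0) Cf (le_max_right _ _) hCf.le a b l hK
  obtain ⟨Ct, mt, hCt, ht⟩ := scale_term (max z 0) Cf (le_max_right _ _) hCf.le l hK.l_smooth
    hK.l_out
  obtain ⟨hvc, Cv, hCv, hvb⟩ := vb_props
  refine ⟨(mt + 2) * mm + mt + (mt + 2) + 2, fun δ hδ => ?_⟩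
  obtain ⟨Cp, hCp, hp⟩ := pen_kin D hD hf (δ / (4 * K₁)) (by positivity)
  obtain ⟨c₀, hc₀⟩ : ∃ c₀ : ℝ, c₀ = 100 + 4 * Ct * Cs / δ := ⟨_, rfl⟩
  have hc₀pos : 0 < c₀ := by rw [hc₀]; positivity
  have hc₀100 : 100 ≤ c₀ := by
    rw [hc₀]
    have : 0 ≤ 4 * Ct * Cs / δ := by positivity
    linarith
  refine ⟨2 * (Ce + Ce + Cd + Cm * (2 * c₀) ^ mm + Ct * (Cs + 2 + 4 * c₀) + K₁ * Cp),
    by positivity, ?_⟩
  intro I _ _ sp ℓ hℓ hρℓ hneu η hη hη2 Ψ hΨ hn1 hen y r hr hr1 hball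
  have hℓ0 : 0 < ℓ := by linarith
  -- abbreviations
  obtain ⟨N, hN⟩ : ∃ N : ℝ, N = (Fintype.card I : ℝ) := ⟨_, rfl⟩
  obtain ⟨Z, hZ⟩ : ∃ Z : ℝ, Z = wm D (fun x => nb y (12 * r) x ^ ((4 : ℝ) / 3)) Ψ := ⟨_, rfl⟩
  obtain ⟨X, hX⟩ : ∃ X : ℝ, X = ∑ p ∈ F, MM D sp K₁ (y + r • p) (r / 4) Ψ := ⟨_, rfl⟩
  rw [← hN] at hρℓ hη2
  rw [← hZ, ← hX]
  have hN0 : 0 ≤ N := by rw [hN]; positivity
  have hη1 : η * (1 + N) ≤ 1 := by
    refine le_trans ?_ hη2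
    refine mul_le_mul_of_nonneg_left ?_ hη
    nlinarith
  obtain ⟨w1, w2, w3, w4, w5, w6, w7⟩ := wt_facts D hD sp ℓ
  have iZ : WI D sp ℓ (fun x => nb y (12 * r) x ^ ((4 : ℝ) / 3)) := w2 y (12 * r) _ (by norm_num)
  have hnum : ∀ R, R ≤ 12 * r → wm D (nb y R) Ψ ≤ Z := fun R hR => by
    rw [hZ]
    exact wm_mono D sp ℓ (os_WI_nb D hD sp ℓ y R) iZ Ψ hΨ
      (Filter.Eventually.of_forall fun x => os_nb_le y hR x)
  have hnumn : ∀ R, 0 ≤ wm D (nb y R) Ψ := fun R => by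
    unfold wm
    exact Finset.sum_nonneg fun τ _ => integral_nonneg fun x =>
      mul_nonneg (os_nb_nonneg y R x) (sq_nonneg _)
  have hZ0 : 0 ≤ Z := (hnumn 0).trans (hnum 0 (by positivity))
  have hnum8 : wm D (fun x => nb y (8 * r) x ^ ((4 : ℝ) / 3)) Ψ ≤ Z := by
    rw [hZ]
    exact wm_mono D sp ℓ (w2 y (8 * r) _ (by norm_num)) iZ Ψ hΨ
      (Filter.Eventually.of_forall fun x => os_nb_pow_le y (by linarith) x)
  have hone : wm D (fun x => 1 + nb y (8 * r) x) Ψ ≤ 1 + Z := by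
    rw [wm_add D sp ℓ (WI_const D sp ℓ 1) (os_WI_nb D hD sp ℓ y (8 * r)) Ψ hΨ, wm_one, hn1]
    linarith [hnum (8 * r) (by linarith)]
  -- positivity of the local energies
  have hloc : ∀ (y : E3) (r : ℝ), 0 < r → r ≤ 1 → 0 ≤ klc D sp y r Ψ ∧
      0 ≤ wm D (mx D sp K₁ y r) Ψ := fun y r h1 h2 =>
    ⟨(hn sp ℓ Ψ hΨ hn1 y r h1 h2).1, (hn sp ℓ Ψ hΨ hn1 y r h1 h2).2.1⟩
  obtain ⟨hk0', hmx0, hpl, -, -, hkb⟩ := hn sp ℓ Ψ hΨ hn1 y r hr hr1
  have hkX : ∑ p ∈ F, klc D sp (y + r • p) (r / 4) Ψ ≤ X := by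
    rw [hX]
    refine Finset.sum_le_sum fun p _ => ?_
    have := (hloc (y + r • p) (r / 4) (by positivity) (by linarith)).2
    unfold MM
    linarith
  have hX0 : 0 ≤ X := by
    refine le_trans (Finset.sum_nonneg fun p _ => ?_) hkX
    exact (hloc (y + r • p) (r / 4) (by positivity) (by linarith)).1
  -- the choice of scales
  obtain ⟨k0, hk0a, hk0b⟩ := os_pow (c₀ / r ^ (mt + 2)) (by
    rw [one_le_div (by positivity)]
    have : r ^ (mt + 2) ≤ 1 := pow_le_one₀ hr.le hr1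
    linarith)
  obtain ⟨K', hK'a, hK'b⟩ := os_pow (1 + N) (by linarith)
  have hp2 : ∀ k : ℕ, (0 : ℝ) < 2 ^ k := fun k => by positivity
  have hr2 : c₀ / r ^ 2 ≤ 2 ^ k0 := by
    refine le_trans ?_ hk0a
    have : r ^ (mt + 2) ≤ r ^ 2 := pow_le_pow_of_le_one hr.le hr1 (by omega)
    gcongr
  have hr2' : 100 ≤ 2 ^ k0 * r ^ 2 := by
    rw [div_le_iff₀ (by positivity)] at hr2
    linarith
  have hr1' : 100 ≤ 2 ^ k0 * r := by
    refine hr2'.trans ?_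
    have : r ^ 2 ≤ r := by nlinarith
    exact mul_le_mul_of_nonneg_left this (hp2 _).le
  have h1N : 1 + N ≤ 2 ^ (k0 + K') * r ^ 2 := by
    rw [pow_add]
    calc 1 + N ≤ 2 ^ K' := hK'a
      _ = 1 * 2 ^ K' := (one_mul _).symm
      _ ≤ (2 ^ k0 * r ^ 2) * 2 ^ K' := by
          refine mul_le_mul_of_nonneg_right ?_ (hp2 _).le
          linarith
      _ = 2 ^ k0 * 2 ^ K' * r ^ 2 := by ring
  -- (i) local energy
  have s1 := he sp ℓ hℓ (by rw [← hN]; exact hρℓ) η hη Ψ hΨ hn1 hen y r hr hr1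
  -- (ii) decomposition
  have hcz : ∀ i, |D.charge (sp i)| ≤ max z 0 := fun i => (hz (sp i)).2.trans (le_max_left _ _)
  have s2 := os_key D hD sp ℓ (hvc ℓ hℓ0) (Cv / ℓ) (fun w => hvb ℓ w hℓ0) l
    hK.l_smooth.continuous hK.l_out Cd y r k0 (k0 + K')
    (fun x hx => hd (fun i => D.charge (sp i)) x hcz hx y r k0 (k0 + K') hr hr1
      (by linarith) (Nat.le_add_right _ _) (by rw [← hN]; exact h1N)) Ψ hΨ
  -- (iii) main term
  have hFL := hfl sp ℓ hℓ (by rw [← hN]; exact hρℓ) hneu η hη Ψ hΨ hn1 hen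
  have hphc : Continuous (phb D sp ℓ) := by
    have := hvc ℓ hℓ0
    unfold phb
    fun_prop
  have s3 := hm D sp ℓ (phb D sp ℓ) hphc (fun s => (hz s).2.trans (le_max_left _ _)) η hη
    (by rw [← hN]; exact hη1) Ψ hΨ hn1 hFL y r k0 hr hr1 (by linarith) hball
  -- (iv) scales
  have s4 : ∀ k ∈ Finset.Ico k0 (k0 + K'), |wm D (os_P D sp l y r k) Ψ| ≤
      Ct / r ^ mt * (wm D (fun x => bt y r k x ^ 2 * ∑ i, (if ‖x i - y‖ < 6 * r then
              nk x k i ^ ((2 : ℝ) / 3) else 0)) Ψ +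
            1 / 2 ^ k * wm D (fun x => 1 + nb y (8 * r) x) Ψ +
            (1 + (Fintype.card I : ℝ)) * 2 ^ k * η) := fun k hk => by
    refine ht D sp ℓ (phb D sp ℓ) hphc (fun s => (hz s).2.trans (le_max_left _ _)) η hη
      Ψ hΨ hn1 hFL y r k hr hr1 ?_ hball
    have h1 : (2 : ℝ) ^ k0 ≤ 2 ^ k :=
      pow_le_pow_right₀ (by norm_num) (Finset.mem_Ico.1 hk).1
    calc (1 : ℝ) ≤ 2 ^ k0 * r := by linarith
      _ ≤ 2 ^ k * r := mul_le_mul_of_nonneg_right h1 hr.le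
  have s5 := hs sp ℓ Ψ hΨ hn1 y r k0 (k0 + K') hr hr1 hr1' hkb
  rw [← hX, ← hZ] at s5
  have s6 : -(Ct / r ^ mt * (Cs / 2 ^ k0 * X + Cs / r * (1 + Z) + 2 / 2 ^ k0 * (1 + Z) +
      (1 + N) * 2 ^ (k0 + K') * η)) ≤
      ∑ k ∈ Finset.Ico k0 (k0 + K'), wm D (os_P D sp l y r k) Ψ := by
    have h1 : |∑ k ∈ Finset.Ico k0 (k0 + K'), wm D (os_P D sp l y r k) Ψ| ≤
        Ct / r ^ mt * (Cs / 2 ^ k0 * X + Cs / r * (1 + Z) + 2 / 2 ^ k0 * (1 + Z) +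
      (1 + N) * 2 ^ (k0 + K') * η) := by
      refine (Finset.abs_sum_le_sum_abs _ _).trans ((Finset.sum_le_sum s4).trans ?_)
      rw [← Finset.mul_sum]
      refine mul_le_mul_of_nonneg_left ?_ (by positivity)
      rw [Finset.sum_add_distrib, Finset.sum_add_distrib]
      refine add_le_add (add_le_add s5 ?_) ?_
      · rw [← Finset.sum_mul]
        have hwn : 0 ≤ wm D (fun x => 1 + nb y (8 * r) x) Ψ := by
          unfold wm
          exact Finset.sum_nonneg fun τ _ => integral_nonneg fun x =>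
            mul_nonneg (add_nonneg zero_le_one (os_nb_nonneg y _ x)) (sq_nonneg _)
        exact mul_le_mul (os_geo _ _) hone hwn (by positivity)
      · rw [← hN, ← Finset.sum_mul, ← Finset.mul_sum]
        refine mul_le_mul_of_nonneg_right ?_ hη
        exact mul_le_mul_of_nonneg_left (os_geo2 _ _) (by linarith)
    linarith [neg_abs_le (∑ k ∈ Finset.Ico k0 (k0 + K'), wm D (os_P D sp l y r k) Ψ)]
  -- (v) penalty
  have s7 := hp sp ℓ Ψ hΨ y r hr hr1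
  have s8 : kb D sp y (3 * r) Ψ ≤ X :=
    (os_kb_mono D sp hD ℓ Ψ hΨ y (by linarith)).trans (hkb.trans hkX)
  -- energy
  have s9 : wm D (mx D sp K₁ y r) Ψ = wm D (vl (cy y r) (fun i => D.charge (sp i))) Ψ +
      K₁ * wm D (pl (cy y r) (fun i => D.charge (sp i))) Ψ := by
    have := wm_add D sp ℓ (w3 y r) (WI_smul D sp ℓ (w4 y r) K₁) Ψ hΨ
    rw [wm_smul] at this
    exact this
  have s10 : MM D sp K₁ y r Ψ = klc D sp y r Ψ + wm D (mx D sp K₁ y r) Ψ := rfl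
  -- arithmetic
  have hrM : ∀ e : ℕ, e ≤ (mt + 2) * mm + mt + (mt + 2) + 2 →
      1 / r ^ e ≤ 1 / r ^ ((mt + 2) * mm + mt + (mt + 2) + 2) := fun e he' => by
    refine one_div_le_one_div_of_le (by positivity) ?_
    exact pow_le_pow_of_le_one hr.le hr1 he'
  obtain ⟨W, hW⟩ : ∃ W : ℝ, W = 1 / r ^ ((mt + 2) * mm + mt + (mt + 2) + 2) := ⟨_, rfl⟩
  rw [← hW] at hrM
  have hW1 : 1 ≤ W := by simpa using hrM 0 (by omega)
  have g1 : Ce / r ^ 2 * wm D (nb y (2 * r)) Ψ ≤ Ce * W * Z := by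
    rw [div_eq_mul_one_div]
    have := hrM 2 (by omega)
    have h2 := hnum (2 * r) (by linarith)
    have h3 := hnumn (2 * r)
    gcongr
  have g2 : Ce * (1 + (Fintype.card I : ℝ)) * η ≤ Ce := by
    rw [← hN, mul_assoc, mul_comm (1 + N) η]
    exact mul_le_of_le_one_right hCe.le hη1
  have g3 : Cd * wm D (nb y (3 * r)) Ψ ≤ Cd * Z :=
    mul_le_mul_of_nonneg_left (hnum (3 * r) (by linarith)) hCd.le
  have g4 : Cm * (2 ^ k0) ^ mm * (1 + wm D (fun x => nb y (8 * r) x ^ ((4 : ℝ) / 3)) Ψ) ≤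
      Cm * (2 * c₀) ^ mm * W * (1 + Z) := by
    have h1 : ((2 : ℝ) ^ k0) ^ mm ≤ (2 * c₀) ^ mm * W := by
      calc ((2 : ℝ) ^ k0) ^ mm ≤ (2 * (c₀ / r ^ (mt + 2))) ^ mm := by gcongr
        _ = (2 * c₀) ^ mm * (1 / r ^ ((mt + 2) * mm)) := by
            rw [pow_mul, ← div_eq_mul_one_div, ← mul_div_assoc, div_pow]
        _ ≤ (2 * c₀) ^ mm * W := by
            refine mul_le_mul_of_nonneg_left (hrM _ ?_) (by positivity)
            omega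
    have h8 : 0 ≤ 1 + Z := by linarith
    calc Cm * (2 ^ k0) ^ mm * (1 + wm D (fun x => nb y (8 * r) x ^ ((4 : ℝ) / 3)) Ψ)
        ≤ Cm * (2 ^ k0) ^ mm * (1 + Z) := by
          refine mul_le_mul_of_nonneg_left ?_ (by positivity)
          linarith
      _ ≤ Cm * ((2 * c₀) ^ mm * W) * (1 + Z) := by gcongr
      _ = _ := by ring
  have g5 : Ct / r ^ mt * (Cs / 2 ^ k0 * X) ≤ δ / 4 * X :=
    os_g5 Ct Cs c₀ δ X r (2 ^ k0) mt hCt hCs hδ hX0 hr hr1 (hp2 k0) hc₀ hc₀pos hk0a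
  have g6 : Ct / r ^ mt * (Cs / r * (1 + Z)) ≤ Ct * Cs * W * (1 + Z) :=
    os_g6 Ct Cs Z r W mt hCt hCs hZ0 hr (hrM (mt + 1) (by omega))
  have g7 : Ct / r ^ mt * (2 / 2 ^ k0 * (1 + Z)) ≤ Ct * 2 * W * (1 + Z) :=
    os_g7 Ct Z r W (2 ^ k0) mt hCt (one_le_pow₀ (by norm_num)) hZ0 hr (hrM mt (by omega))
  have g8 : Ct / r ^ mt * ((1 + N) * 2 ^ (k0 + K') * η) ≤ Ct * (4 * c₀) * W := by
    rw [pow_add 2 k0 K']
    exact os_g8 Ct c₀ N η r W (2 ^ k0) (2 ^ K') mt hCt (hp2 k0) hc₀pos hN0 hη hη2 hr hk0b hK'b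
      (hrM (mt + (mt + 2)) (by omega))
  have g9 : K₁ * wm D (pl (cy y r) (fun i => D.charge (sp i))) Ψ ≤
      δ / 4 * X + K₁ * Cp * W * Z := by
    have h1 := hrM 1 (by omega)
    rw [pow_one] at h1
    exact os_g9 K₁ Cp δ r W X Z _ _ _ hK₁ hCp hδ hr h1 (hnum (3 * r) (by linarith)) hZ0 s7 s8
  -- the sum
  have t3 := (abs_le.1 s3).1
  have t3' : -(Cm * (2 * c₀) ^ mm * W * (1 + Z)) ≤
      wm D (fun x => os_M D sp l y r k0 x - phb D sp ℓ x * os_Q D sp y r x) Ψ := by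
    have : -(Cm * (2 ^ k0) ^ mm * (1 + wm D (fun x => nb y (8 * r) x ^ ((4 : ℝ) / 3)) Ψ)) ≤
      wm D (fun x => os_M D sp l y r k0 x - phb D sp ℓ x * os_Q D sp y r x) Ψ := t3
    linarith
  have s1' : 1 / 2 * klc D sp y r Ψ +
      wm D (fun x => os_T D sp y r x - phb D sp ℓ x * os_Q D sp y r x) Ψ ≤
      Ce / r ^ 2 * wm D (nb y (2 * r)) Ψ + Ce * (1 + (Fintype.card I : ℝ)) * η := s1
  have s6' : -(δ / 4 * X + Ct * Cs * W * (1 + Z) + Ct * 2 * W * (1 + Z) + Ct * (4 * c₀) * W) ≤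
      ∑ k ∈ Finset.Ico k0 (k0 + K'), wm D (os_P D sp l y r k) Ψ := by
    refine le_trans ?_ s6
    have : Ct / r ^ mt * (Cs / 2 ^ k0 * X + Cs / r * (1 + Z) + 2 / 2 ^ k0 * (1 + Z) +
      (1 + N) * 2 ^ (k0 + K') * η) = Ct / r ^ mt * (Cs / 2 ^ k0 * X) +
      Ct / r ^ mt * (Cs / r * (1 + Z)) + Ct / r ^ mt * (2 / 2 ^ k0 * (1 + Z)) +
      Ct / r ^ mt * ((1 + N) * 2 ^ (k0 + K') * η) := by ring
    rw [this]
    linarith
  have e6 : 2 * (Ce + Ce + Cd + Cm * (2 * c₀) ^ mm + Ct * (Cs + 2 + 4 * c₀) + K₁ * Cp) /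
      r ^ ((mt + 2) * mm + mt + (mt + 2) + 2) =
      2 * (Ce + Ce + Cd + Cm * (2 * c₀) ^ mm + Ct * (Cs + 2 + 4 * c₀) + K₁ * Cp) * W := by
    rw [hW]
    exact div_eq_mul_one_div _ _
  rw [e6, s10]
  exact os_fin Ce Cd (Cm * (2 * c₀) ^ mm) Ct Cs c₀ K₁ Cp W Z X δ _ _ _ _ _ _ _ _ _ _ hCe hCd hCt
    hc₀pos hK₁ hCp hW1 hZ0 hmx0 s1' s2 g1 g2 g3 t3' s6' s9 g9

end Pool.Agent.Helper780_CP.ROS
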