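import Pool.Agent.Helper780_CP.LLDefs2
import Pool.Agent.Helper780_CP.LLDefs3
import Pool.Agent.Helper780_CP.RWT
import Pool.Agent.Helper780_CP.RNL
import Pool.Agent.Helper780_CP.RLAW
import Pool.Agent.Helper780_CP.RHN
import Pool.Agent.Helper780_CP.RL1

set_option autoImplicit false

open MeasureTheory
open scoped Topology

namespace Pool.Agent.Helper780_CP.ROUT

open Pool.Agent.Helper780_CP
open Pool.Agent.Helper985.CP
open Pool.Agent.Helper780_CP.RWT (wt_facts)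
open Pool.Agent.Helper780_CP.RNL (num_law)
open Pool.Agent.Helper780_CP.RLAW (law)
open Pool.Agent.Helper780_CP.RHN (near2_local)
open Pool.Agent.Helper780_CP.RL1 (FL_near_min)

open Pool.Agent.Helper780_CP Pool.Agent.Helper985.CP

section hardy

variable {I : Type} [Fintype I] [DecidableEq I]

/-- coordinate direction -/
noncomputable def dr (i : I) (k : Fin 3) : I → E3 := Pi.single i (EuclideanSpace.single k (1 : ℝ))

omit [DecidableEq I] in
theorem hd_co (i : I) (k : Fin 3) (y : E3) (x : I → E3) :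
    HasFDerivAt (fun x : I → E3 => x i k - y k)
      ((EuclideanSpace.proj k : E3 →L[ℝ] ℝ) ∘L (ContinuousLinearMap.proj i : (I → E3) →L[ℝ] E3)) x := by
  have h := ((EuclideanSpace.proj k : E3 →L[ℝ] ℝ) ∘L
    (ContinuousLinearMap.proj i : (I → E3) →L[ℝ] E3)).hasFDerivAt (x := x)
  exact h.sub_const (y k)

omit [DecidableEq I] in
theorem hd_s (i : I) (y : E3) (x : I → E3) :
    HasFDerivAt (fun x : I → E3 => ‖x i - y‖ ^ 2)
      (2 • (innerSL ℝ (x i - y)) ∘L (ContinuousLinearMap.proj i : (I → E3) →L[ℝ] E3)) x := by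
  have h : HasFDerivAt (fun x : I → E3 => x i - y)
      (ContinuousLinearMap.proj i : (I → E3) →L[ℝ] E3) x :=
    ((ContinuousLinearMap.proj i : (I → E3) →L[ℝ] E3).hasFDerivAt (x := x)).sub_const y
  exact h.norm_sq

omit [Fintype I] in
theorem dr_co (i : I) (k : Fin 3) :
    ((EuclideanSpace.proj k : E3 →L[ℝ] ℝ) ∘L
      (ContinuousLinearMap.proj i : (I → E3) →L[ℝ] E3)) (dr i k) = 1 := by
  simp [dr]

omit [Fintype I] in
theorem dr_s (i : I) (k : Fin 3) (w : E3) :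
    ((innerSL ℝ w) ∘L (ContinuousLinearMap.proj i : (I → E3) →L[ℝ] E3)) (dr i k)
      = w k := by
  simp [dr, EuclideanSpace.inner_single_right]

/-- regularised field -/
noncomputable def Fk (i : I) (y : E3) (ε : ℝ) (k : Fin 3) (x : I → E3) : ℝ :=
  (x i k - y k) * (‖x i - y‖ ^ 2 + ε)⁻¹

theorem Fk_deriv (i : I) (y : E3) (ε : ℝ) (hε : 0 < ε) (k : Fin 3) (x : I → E3) :
    DifferentiableAt ℝ (Fk i y ε k) x ∧ fderiv ℝ (Fk i y ε k) x (dr i k) =
      (‖x i - y‖ ^ 2 + ε)⁻¹ - 2 * (x i k - y k) ^ 2 * (‖x i - y‖ ^ 2 + ε)⁻¹ ^ 2 := by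
  have hpos : 0 < ‖x i - y‖ ^ 2 + ε := by positivity
  have h1 := hd_co i k y x
  have h2 := (hd_s i y x).add_const ε
  have h3 := (hasDerivAt_inv hpos.ne').comp_hasFDerivAt x h2
  have h4 := h1.mul h3
  refine ⟨h4.differentiableAt, ?_⟩
  have h5 : fderiv ℝ (Fk i y ε k) x = _ := h4.fderiv
  rw [h5]
  have e1 := dr_co (I := I) i k
  have e2 := dr_s (I := I) i k (x i - y)
  simp only [_root_.add_apply, _root_.smul_apply, e1, e2]
  simp only [smul_eq_mul, Function.comp, PiLp.sub_apply, nsmul_eq_mul, Nat.cast_ofNat]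
  field_simp
  ring

omit [DecidableEq I] in
theorem sum_sq_co (i : I) (y : E3) (x : I → E3) :
    ∑ k : Fin 3, (x i k - y k) ^ 2 = ‖x i - y‖ ^ 2 := by
  rw [EuclideanSpace.real_norm_sq_eq]
  rfl

theorem Fk_div (i : I) (y : E3) (ε : ℝ) (hε : 0 < ε) (x : I → E3) :
    (‖x i - y‖ ^ 2 + ε)⁻¹ ≤ ∑ k : Fin 3, fderiv ℝ (Fk i y ε k) x (dr i k) := by
  have hpos : 0 < ‖x i - y‖ ^ 2 + ε := by positivity
  have h1 : ∑ k : Fin 3, fderiv ℝ (Fk i y ε k) x (dr i k) =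
      3 * (‖x i - y‖ ^ 2 + ε)⁻¹ - 2 * ‖x i - y‖ ^ 2 * (‖x i - y‖ ^ 2 + ε)⁻¹ ^ 2 := by
    rw [← sum_sq_co i y x]
    simp only [fun k => (Fk_deriv i y ε hε k x).2, ← sum_sq_co i y x]
    rw [Finset.sum_sub_distrib, Finset.mul_sum, Finset.sum_mul]
    simp
  rw [h1]
  have h2 : ‖x i - y‖ ^ 2 * (‖x i - y‖ ^ 2 + ε)⁻¹ ≤ 1 := by
    rw [← div_eq_mul_inv, div_le_one hpos]
    linarith
  have h3 : 0 < (‖x i - y‖ ^ 2 + ε)⁻¹ := by positivity
  nlinarith [mul_le_mul_of_nonneg_right h2 h3.le]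

theorem Fk_sq (i : I) (y : E3) (ε : ℝ) (hε : 0 < ε) (x : I → E3) :
    ∑ k : Fin 3, Fk i y ε k x ^ 2 ≤ (‖x i - y‖ ^ 2 + ε)⁻¹ := by
  have hpos : 0 < ‖x i - y‖ ^ 2 + ε := by positivity
  have h1 : ∑ k : Fin 3, Fk i y ε k x ^ 2 = ‖x i - y‖ ^ 2 * (‖x i - y‖ ^ 2 + ε)⁻¹ ^ 2 := by
    rw [← sum_sq_co i y x, Finset.sum_mul]
    refine Finset.sum_congr rfl fun k _ => ?_
    rw [Fk, mul_pow, ← sum_sq_co i y x]
  rw [h1]
  have h2 : ‖x i - y‖ ^ 2 * (‖x i - y‖ ^ 2 + ε)⁻¹ ≤ 1 := by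
    rw [← div_eq_mul_inv, div_le_one hpos]
    linarith
  have h3 : 0 < (‖x i - y‖ ^ 2 + ε)⁻¹ := by positivity
  nlinarith [mul_le_mul_of_nonneg_right h2 h3.le]

omit [DecidableEq I] in
/-- derivative of the square of the modulus -/
theorem sq_deriv (u : (I → E3) → ℂ) (x v : I → E3) (h : DifferentiableAt ℝ u x) :
    DifferentiableAt ℝ (fun x => ‖u x‖ ^ 2) x ∧
      |fderiv ℝ (fun x => ‖u x‖ ^ 2) x v| ≤ 2 * ‖u x‖ * ‖fderiv ℝ u x v‖ := by
  have h1 := h.hasFDerivAt.norm_sq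
  refine ⟨h1.differentiableAt, ?_⟩
  rw [h1.fderiv]
  have e : (2 • (innerSL ℝ) (u x) ∘SL fderiv ℝ u x) v = 2 * inner ℝ (u x) (fderiv ℝ u x v) := by
    simp
    ring
  rw [e, abs_mul, abs_of_pos (by norm_num : (0 : ℝ) < 2), mul_assoc]
  exact mul_le_mul_of_nonneg_left (abs_real_inner_le_norm _ _) (by norm_num)

omit [DecidableEq I] in
theorem Fk_smooth (i : I) (y : E3) (ε : ℝ) (hε : 0 < ε) (k : Fin 3) :
    ContDiff ℝ SM (Fk i y ε k) := by
  unfold Fk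
  have h1 : ContDiff ℝ SM (fun x : I → E3 => x i k - y k) := by fun_prop
  have h2 : ContDiff ℝ SM (fun x : I → E3 => ‖x i - y‖ ^ 2 + ε) := by
    apply ContDiff.add _ contDiff_const
    apply ContDiff.norm_sq ℝ
    fun_prop
  exact h1.mul (h2.inv fun x => by positivity)

theorem hardy_eps (i : I) (y : E3) (u : (I → E3) → ℂ) (hu : ContDiff ℝ SM u)
    (hc : HasCompactSupport u) (ε : ℝ) (hε : 0 < ε) :
    ∫ x, (‖x i - y‖ ^ 2 + ε)⁻¹ * ‖u x‖ ^ 2 ≤
      4 * ∫ x, ∑ k : Fin 3, ‖fderiv ℝ u x (dr i k)‖ ^ 2 := by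
  have hg : ContDiff ℝ SM (fun x => ‖u x‖ ^ 2) := hu.norm_sq ℝ
  have hgc : HasCompactSupport (fun x => ‖u x‖ ^ 2) :=
    hc.comp_left (g := fun z : ℂ => ‖z‖ ^ 2) (by simp)
  have hdu : ∀ k, Continuous (fun x => fderiv ℝ u x (dr i k)) := fun k =>
    (hu.continuous_fderiv (by simp [SM])).clm_apply continuous_const
  have hduc : ∀ k, HasCompactSupport (fun x => fderiv ℝ u x (dr i k)) := fun k =>
    (hc.fderiv_apply (𝕜 := ℝ) _)
  have hdg : ∀ k, Continuous (fun x => fderiv ℝ (fun x => ‖u x‖ ^ 2) x (dr i k)) := fun k =>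
    (hg.continuous_fderiv (by simp [SM])).clm_apply continuous_const
  have hdF : ∀ k, Continuous (fun x => fderiv ℝ (Fk i y ε k) x (dr i k)) := fun k =>
    ((Fk_smooth i y ε hε k).continuous_fderiv (by simp [SM])).clm_apply continuous_const
  have hF : ∀ k, Continuous (Fk i y ε k) := fun k => (Fk_smooth i y ε hε k).continuous
  have hinv : Continuous (fun x : I → E3 => (‖x i - y‖ ^ 2 + ε)⁻¹) := by
    apply Continuous.inv₀
    · fun_prop
    · intro x; positivity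
  -- integrability
  have i1 : ∀ k, Integrable (fun x => ‖u x‖ ^ 2 * fderiv ℝ (Fk i y ε k) x (dr i k)) := fun k =>
    (hg.continuous.mul (hdF k)).integrable_of_hasCompactSupport hgc.mul_right
  have i2 : ∀ k, Integrable (fun x => fderiv ℝ (fun x => ‖u x‖ ^ 2) x (dr i k) * Fk i y ε k x) :=
    fun k => ((hdg k).mul (hF k)).integrable_of_hasCompactSupport
      ((hgc.fderiv_apply (𝕜 := ℝ) _).mul_right)
  have i3 : ∀ k, Integrable (fun x => ‖u x‖ ^ 2 * Fk i y ε k x) := fun k =>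
    (hg.continuous.mul (hF k)).integrable_of_hasCompactSupport hgc.mul_right
  have i4 : Integrable (fun x => (‖x i - y‖ ^ 2 + ε)⁻¹ * ‖u x‖ ^ 2) :=
    (hinv.mul hg.continuous).integrable_of_hasCompactSupport hgc.mul_left
  have i5 : ∀ k, Integrable (fun x => ‖fderiv ℝ u x (dr i k)‖ ^ 2) := fun k => by
    have h1 : Continuous (fun x => ‖fderiv ℝ u x (dr i k)‖ ^ 2) := (hdu k).norm.pow 2
    have h2 : HasCompactSupport (fun x => ‖fderiv ℝ u x (dr i k)‖ ^ 2) :=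
      (hduc k).comp_left (g := fun z : ℂ => ‖z‖ ^ 2) (by simp)
    exact h1.integrable_of_hasCompactSupport h2
  have i6 : ∀ k, Integrable (fun x => Fk i y ε k x ^ 2 * ‖u x‖ ^ 2) := fun k =>
    (((hF k).pow 2).mul hg.continuous).integrable_of_hasCompactSupport hgc.mul_left
  have key : ∀ k, ∫ x, ‖u x‖ ^ 2 * fderiv ℝ (Fk i y ε k) x (dr i k) =
      -∫ x, fderiv ℝ (fun x => ‖u x‖ ^ 2) x (dr i k) * Fk i y ε k x := fun k =>
    integral_mul_fderiv_eq_neg_fderiv_mul_of_integrable (𝕜 := ℝ) (μ := volume) (i2 k) (i1 k) (i3 k)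
      (fun x _ => (hg.differentiable (by simp [SM])) x)
      (fun x _ => ((Fk_smooth i y ε hε k).differentiable (by simp [SM])) x)
  have h1 : ∀ k, ∫ x, ‖u x‖ ^ 2 * fderiv ℝ (Fk i y ε k) x (dr i k) ≤
      (1 / 2) * (∫ x, Fk i y ε k x ^ 2 * ‖u x‖ ^ 2) + 2 * ∫ x, ‖fderiv ℝ u x (dr i k)‖ ^ 2 := by
    intro k
    rw [key k, ← integral_neg, ← integral_const_mul, ← integral_const_mul,
      ← integral_add ((i6 k).const_mul _) ((i5 k).const_mul _)]
    refine integral_mono (i2 k).neg (((i6 k).const_mul _).add ((i5 k).const_mul _)) fun x => ?_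
    have h2 := (sq_deriv u x (dr i k) ((hu.differentiable (by simp [SM])) x)).2
    have h3 : -(fderiv ℝ (fun x => ‖u x‖ ^ 2) x (dr i k) * Fk i y ε k x) ≤
        (2 * ‖u x‖ * ‖fderiv ℝ u x (dr i k)‖) * |Fk i y ε k x| := by
      refine (neg_le_abs _).trans ?_
      rw [abs_mul]
      exact mul_le_mul_of_nonneg_right h2 (abs_nonneg _)
    show -(fderiv ℝ (fun x => ‖u x‖ ^ 2) x (dr i k) * Fk i y ε k x) ≤
      1 / 2 * (Fk i y ε k x ^ 2 * ‖u x‖ ^ 2) + 2 * ‖fderiv ℝ u x (dr i k)‖ ^ 2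
    refine h3.trans ?_
    rw [← sq_abs (Fk i y ε k x)]
    nlinarith [sq_nonneg (|Fk i y ε k x| * ‖u x‖ - 2 * ‖fderiv ℝ u x (dr i k)‖)]
  have h2 : ∫ x, (‖x i - y‖ ^ 2 + ε)⁻¹ * ‖u x‖ ^ 2 ≤
      ∑ k : Fin 3, ∫ x, ‖u x‖ ^ 2 * fderiv ℝ (Fk i y ε k) x (dr i k) := by
    rw [← integral_finsetSum _ fun k _ => i1 k]
    refine integral_mono i4 (integrable_finsetSum _ fun k _ => i1 k) fun x => ?_
    show (‖x i - y‖ ^ 2 + ε)⁻¹ * ‖u x‖ ^ 2 ≤
      ∑ k : Fin 3, ‖u x‖ ^ 2 * fderiv ℝ (Fk i y ε k) x (dr i k)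
    rw [← Finset.mul_sum, mul_comm]
    exact mul_le_mul_of_nonneg_left (Fk_div i y ε hε x) (sq_nonneg _)
  have h3 : ∑ k : Fin 3, ∫ x, Fk i y ε k x ^ 2 * ‖u x‖ ^ 2 ≤
      ∫ x, (‖x i - y‖ ^ 2 + ε)⁻¹ * ‖u x‖ ^ 2 := by
    rw [← integral_finsetSum _ fun k _ => i6 k]
    refine integral_mono (integrable_finsetSum _ fun k _ => i6 k) i4 fun x => ?_
    show ∑ k : Fin 3, Fk i y ε k x ^ 2 * ‖u x‖ ^ 2 ≤ (‖x i - y‖ ^ 2 + ε)⁻¹ * ‖u x‖ ^ 2
    rw [← Finset.sum_mul]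
    exact mul_le_mul_of_nonneg_right (Fk_sq i y ε hε x) (sq_nonneg _)
  have h4 := Finset.sum_le_sum fun k (_ : k ∈ Finset.univ) => h1 k
  rw [Finset.sum_add_distrib, ← Finset.mul_sum, ← Finset.mul_sum] at h4
  rw [integral_finsetSum _ fun k _ => i5 k]
  linarith

theorem hardy (i : I) (y : E3) (u : (I → E3) → ℂ) (hu : ContDiff ℝ SM u)
    (hc : HasCompactSupport u) :
    Integrable (fun x => ‖x i - y‖⁻¹ ^ 2 * ‖u x‖ ^ 2) ∧
    ∫ x, ‖x i - y‖⁻¹ ^ 2 * ‖u x‖ ^ 2 ≤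
      4 * ∫ x, ∑ k : Fin 3, ‖fderiv ℝ u x (dr i k)‖ ^ 2 := by
  have hg : Continuous (fun x => ‖u x‖ ^ 2) := hu.continuous.norm.pow 2
  have hgc : HasCompactSupport (fun x => ‖u x‖ ^ 2) :=
    hc.comp_left (g := fun z : ℂ => ‖z‖ ^ 2) (by simp)
  have hint : Integrable (fun x : I → E3 => ‖x i - y‖⁻¹ ^ 2 * ‖u x‖ ^ 2) :=
    int_one i (fun z => ‖z - y‖⁻¹ ^ 2) (locInt_shift locInt_inv2 y) _ hg hgc
  refine ⟨hint, ?_⟩
  have hlim : Filter.Tendsto (fun n : ℕ => ∫ x : I → E3,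
      (‖x i - y‖ ^ 2 + 1 / ((n : ℝ) + 1))⁻¹ * ‖u x‖ ^ 2) Filter.atTop
      (𝓝 (∫ x, ‖x i - y‖⁻¹ ^ 2 * ‖u x‖ ^ 2)) := by
    refine tendsto_integral_of_dominated_convergence _ (fun n => ?_) hint (fun n => ?_) ?_
    · refine (Continuous.mul ?_ hg).aestronglyMeasurable
      apply Continuous.inv₀
      · fun_prop
      · intro x; positivity
    · filter_upwards [ae_ne y] with x hx
      have h3 : 0 < ‖x i - y‖ := norm_pos_iff.2 (sub_ne_zero.2 (hx i))
      rw [Real.norm_of_nonneg (by positivity), inv_pow]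
      refine mul_le_mul_of_nonneg_right ?_ (sq_nonneg _)
      apply inv_anti₀ (by positivity)
      have : 0 < 1 / ((n : ℝ) + 1) := by positivity
      linarith
    · filter_upwards [ae_ne y] with x hx
      have h3 : 0 < ‖x i - y‖ := norm_pos_iff.2 (sub_ne_zero.2 (hx i))
      refine Filter.Tendsto.mul_const _ ?_
      rw [inv_pow]
      apply Filter.Tendsto.inv₀ _ (by positivity)
      have := tendsto_one_div_add_atTop_nhds_zero_nat (𝕜 := ℝ)
      simpa using this.const_add (‖x i - y‖ ^ 2)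
  exact le_of_tendsto' hlim fun n => hardy_eps i y u hu hc _ (by positivity)

end hardy


theorem ct_smooth : ContDiff ℝ SM ct := by
  unfold ct
  apply Real.smoothTransition.contDiff.comp
  apply ContDiff.div_const
  apply ContDiff.sub contDiff_const
  exact contDiff_norm_sq ℝ

theorem ct_one (w : E3) (h : ‖w‖ ≤ 1) : ct w = 1 := by
  unfold ct
  apply Real.smoothTransition.one_of_one_le
  have : ‖w‖ ^ 2 ≤ 1 := by nlinarith [norm_nonneg w]
  linarith

theorem ct_zero (w : E3) (h : 2 ≤ ‖w‖) : ct w = 0 := by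
  unfold ct
  apply Real.smoothTransition.zero_of_nonpos
  have : 4 ≤ ‖w‖ ^ 2 := by nlinarith [norm_nonneg w]
  linarith

theorem ct_fd_zero (w : E3) (h : 2 < ‖w‖) : fderiv ℝ ct w = 0 := by
  have h1 : ct =ᶠ[𝓝 w] fun _ => 0 := by
    have h2 : {v : E3 | 2 < ‖v‖} ∈ 𝓝 w := (isOpen_lt continuous_const continuous_norm).mem_nhds h
    filter_upwards [h2] with v hv
    exact ct_zero v (le_of_lt hv)
  rw [h1.fderiv_eq]
  simp

theorem ct_fd_bdd : ∃ C : ℝ, 0 ≤ C ∧ ∀ w, ‖fderiv ℝ ct w‖ ≤ C := by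
  have h1 : Continuous (fun w => fderiv ℝ ct w) := ct_smooth.continuous_fderiv (by simp [SM])
  have h2 : HasCompactSupport (fun w => fderiv ℝ ct w) := by
    refine HasCompactSupport.intro (isCompact_closedBall (0 : E3) 2) fun w hw => ?_
    rw [mem_closedBall_zero_iff, not_le] at hw
    exact ct_fd_zero w hw
  obtain ⟨C, hC⟩ := h2.exists_bound_of_continuous h1
  exact ⟨C, (norm_nonneg _).trans (hC 0), hC⟩

section

variable {I : Type} [Fintype I] [DecidableEq I]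

theorem cy_fd (i : I) (k : Fin 3) (y : E3) (r : ℝ) (hr : 0 < r) (C : ℝ)
    (hC : ∀ w, ‖fderiv ℝ ct w‖ ≤ C) (x : I → E3) :
    ∃ f' : (I → E3) →L[ℝ] ℝ, HasFDerivAt (fun x : I → E3 => cy y r (x i)) f' x ∧
      (f' (dr i k)) ^ 2 ≤ (C / r) ^ 2 * (if ‖x i - y‖ ≤ 2 * r then 1 else 0) := by
  have h1 : HasFDerivAt (fun x : I → E3 => r⁻¹ • (x i - y))
      (r⁻¹ • (ContinuousLinearMap.proj i : (I → E3) →L[ℝ] E3)) x :=
    (((ContinuousLinearMap.proj i : (I → E3) →L[ℝ] E3).hasFDerivAt (x := x)).sub_const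
      y).const_smul r⁻¹
  have h2 : HasFDerivAt ct (fderiv ℝ ct (r⁻¹ • (x i - y))) (r⁻¹ • (x i - y)) :=
    ((ct_smooth.differentiable (by simp [SM])) _).hasFDerivAt
  have h3 := h2.comp x h1
  refine ⟨_, h3, ?_⟩
  have e : (fderiv ℝ ct (r⁻¹ • (x i - y)) ∘L
      (r⁻¹ • (ContinuousLinearMap.proj i : (I → E3) →L[ℝ] E3))) (dr i k) =
      r⁻¹ * fderiv ℝ ct (r⁻¹ • (x i - y)) (EuclideanSpace.single k 1) := by
    simp [dr]
  rw [e]
  by_cases h : ‖x i - y‖ ≤ 2 * r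
  · rw [if_pos h, mul_one]
    have h4 : |fderiv ℝ ct (r⁻¹ • (x i - y)) (EuclideanSpace.single k 1)| ≤ C := by
      rw [← Real.norm_eq_abs]
      refine (ContinuousLinearMap.le_opNorm _ _).trans ?_
      simpa using hC _
    rw [mul_comm, ← div_eq_mul_inv, ← sq_abs, abs_div, abs_of_pos hr]
    gcongr
  · rw [if_neg h, mul_zero]
    have h4 : fderiv ℝ ct (r⁻¹ • (x i - y)) = 0 := by
      apply ct_fd_zero
      rw [norm_smul, norm_inv, Real.norm_of_nonneg hr.le]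
      rw [not_le] at h
      rw [lt_inv_mul_iff₀ hr]
      linarith
    rw [h4]
    simp

end

theorem cy_smooth' (y : E3) (r : ℝ) : ContDiff ℝ SM (cy y r) := by
  have : cy y r = fun x => ct (r⁻¹ • (x - y)) := rfl
  rw [this]
  apply ct_smooth.comp
  fun_prop

theorem cy_le (y : E3) (r : ℝ) (x : E3) : 0 ≤ cy y r x ∧ cy y r x ≤ 1 :=
  ⟨Real.smoothTransition.nonneg _, Real.smoothTransition.le_one _⟩

theorem kk_le (z y : E3) :
    kk (z - y) ≤ cy y (1 / 8) z ^ 2 * ‖z - y‖⁻¹ ^ 2 + 64 * (if ‖z - y‖ ≤ 1 then 1 else 0) := by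
  unfold kk
  by_cases h : ‖z - y‖ < 1
  · rw [Set.indicator_of_mem (by simpa using h), if_pos h.le]
    by_cases h8 : ‖z - y‖ ≤ 1 / 8
    · have h1 : cy y (1 / 8) z = 1 := by
        apply ct_one
        rw [norm_smul]
        norm_num
        linarith
      rw [h1]
      norm_num
    · have h1 : ‖z - y‖⁻¹ ≤ 8 := by
        rw [inv_le_comm₀ (by linarith) (by norm_num)]
        linarith
      have h2 : ‖z - y‖⁻¹ ^ 2 ≤ 64 := by
        have : 0 ≤ ‖z - y‖⁻¹ := by positivity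
        nlinarith
      have h3 : 0 ≤ cy y (1 / 8) z ^ 2 * ‖z - y‖⁻¹ ^ 2 := by positivity
      linarith
  · rw [Set.indicator_of_notMem (by simpa using h)]
    positivity


theorem cut_one {S : Type} (D : Species S) (hD : D.Valid) {I : Type} [Fintype I] [DecidableEq I]
    (sp : I → S) (ℓ : ℝ) (Ψ : Wave D I) (hΨ : IsState D sp ℓ Ψ) (C₀ : ℝ)
    (hC₀ : ∀ w, ‖fderiv ℝ ct w‖ ≤ C₀) (y : E3) (τ : I → Fin D.g) (i : I) :
    Integrable (fun x => cy y (1 / 8) (x i) ^ 2 * kin D sp i (Ψ τ) x) ∧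
    Integrable (fun x : I → E3 => (if ‖x i - y‖ ≤ 1 then 1 else 0) * ‖Ψ τ x‖ ^ 2) ∧
    Integrable (fun x : I → E3 => kk (x i - y) * ‖Ψ τ x‖ ^ 2) ∧
    ∫ x, kk (x i - y) * ‖Ψ τ x‖ ^ 2 ≤
      16 * D.mass (sp i) * (∫ x, cy y (1 / 8) (x i) ^ 2 * kin D sp i (Ψ τ) x) +
      (1536 * C₀ ^ 2 + 64) *
        ∫ x, (if ‖x i - y‖ ≤ 1 then 1 else 0) * ‖Ψ τ x‖ ^ 2 := by
  have hm := hD.mass_pos (sp i)
  have hs := hΨ.smooth τ
  have hc := hΨ.compact τ
  have hsq : Continuous (fun x => ‖Ψ τ x‖ ^ 2) := hs.continuous.norm.pow 2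
  have hsqc : HasCompactSupport (fun x => ‖Ψ τ x‖ ^ 2) :=
    hc.comp_left (g := fun z : ℂ => ‖z‖ ^ 2) (by simp)
  have hcy : ContDiff ℝ SM (fun x : I → E3 => cy y (1 / 8) (x i)) :=
    (cy_smooth' y (1 / 8)).comp (contDiff_apply ℝ E3 i)
  have hki := (int_state D sp ℓ Ψ hΨ τ).2.1 i
  have i1 : Integrable (fun x => cy y (1 / 8) (x i) ^ 2 * kin D sp i (Ψ τ) x) := by
    refine hki.bdd_mul (c := 1) (hcy.continuous.pow 2).aestronglyMeasurable
      (Filter.Eventually.of_forall fun x => ?_)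
    rw [Real.norm_of_nonneg (sq_nonneg _)]
    have h1 := cy_le y (1 / 8) (x i)
    nlinarith [h1.1, h1.2]
  have hind : LocallyIntegrable (fun z : E3 => (if ‖z - y‖ ≤ 1 then (1 : ℝ) else 0)) volume := by
    have hm : Measurable (fun z : E3 => (if ‖z - y‖ ≤ 1 then (1 : ℝ) else 0)) :=
      Measurable.ite (measurableSet_le (by fun_prop) measurable_const) measurable_const
        measurable_const
    have h1 : LocallyIntegrable (fun _ : E3 => (1 : ℝ)) volume := locallyIntegrable_const 1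
    exact h1.mono hm.aestronglyMeasurable (Filter.Eventually.of_forall fun z => by
      split_ifs <;> simp)
  have i2 : Integrable (fun x : I → E3 => (if ‖x i - y‖ ≤ 1 then 1 else 0) * ‖Ψ τ x‖ ^ 2) :=
    int_one i _ hind _ hsq hsqc
  -- the cut function
  let u : (I → E3) → ℂ := fun x => ((cy y (1 / 8) (x i) : ℝ) : ℂ) * Ψ τ x
  have hu : ContDiff ℝ SM u := (Complex.ofRealCLM.contDiff.comp hcy).mul hs
  have huc : HasCompactSupport u := hc.mul_left
  obtain ⟨i3, h3⟩ := hardy i y u hu huc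
  have hun : ∀ x, ‖u x‖ ^ 2 = cy y (1 / 8) (x i) ^ 2 * ‖Ψ τ x‖ ^ 2 := by
    intro x
    simp only [u]
    rw [norm_mul, mul_pow, Complex.norm_real, Real.norm_eq_abs, sq_abs]
  have hkkm : Measurable (fun x : I → E3 => kk (x i - y)) :=
    kk_meas.comp (by fun_prop)
  have hle : ∀ x : I → E3, kk (x i - y) * ‖Ψ τ x‖ ^ 2 ≤ ‖x i - y‖⁻¹ ^ 2 * ‖u x‖ ^ 2 +
      64 * ((if ‖x i - y‖ ≤ 1 then 1 else 0) * ‖Ψ τ x‖ ^ 2) := by
    intro x
    rw [hun]
    have h1 := mul_le_mul_of_nonneg_right (kk_le (x i) y) (sq_nonneg ‖Ψ τ x‖)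
    calc _ ≤ _ := h1
      _ = _ := by ring
  have i4 : Integrable (fun x : I → E3 => kk (x i - y) * ‖Ψ τ x‖ ^ 2) := by
    refine (i3.add (i2.const_mul 64)).mono (hkkm.aestronglyMeasurable.mul
      hsq.aestronglyMeasurable) (Filter.Eventually.of_forall fun x => ?_)
    rw [Real.norm_of_nonneg (mul_nonneg (kk_nonneg _) (sq_nonneg _))]
    exact (hle x).trans (le_abs_self _)
  refine ⟨i1, i2, i4, ?_⟩
  have h4 : ∫ x, kk (x i - y) * ‖Ψ τ x‖ ^ 2 ≤ (∫ x, ‖x i - y‖⁻¹ ^ 2 * ‖u x‖ ^ 2) +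
      64 * ∫ x, (if ‖x i - y‖ ≤ 1 then 1 else 0) * ‖Ψ τ x‖ ^ 2 := by
    rw [← integral_const_mul, ← integral_add i3 (i2.const_mul 64)]
    exact integral_mono i4 (i3.add (i2.const_mul 64)) hle
  have i5 : Integrable (fun x => ∑ k : Fin 3, ‖fderiv ℝ u x (dr i k)‖ ^ 2) := by
    refine integrable_finsetSum _ fun k _ => ?_
    have h1 : Continuous (fun x => ‖fderiv ℝ u x (dr i k)‖ ^ 2) :=
      ((hu.continuous_fderiv (by simp [SM])).clm_apply continuous_const).norm.pow 2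
    have h2 : HasCompactSupport (fun x => ‖fderiv ℝ u x (dr i k)‖ ^ 2) :=
      (huc.fderiv_apply (𝕜 := ℝ) _).comp_left (g := fun z : ℂ => ‖z‖ ^ 2) (by simp)
    exact h1.integrable_of_hasCompactSupport h2
  have hpt : ∀ x, ∑ k : Fin 3, ‖fderiv ℝ u x (dr i k)‖ ^ 2 ≤
      (4 * D.mass (sp i)) * (cy y (1 / 8) (x i) ^ 2 * kin D sp i (Ψ τ) x) +
      (384 * C₀ ^ 2) * ((if ‖x i - y‖ ≤ 1 then 1 else 0) * ‖Ψ τ x‖ ^ 2) := by
    intro x
    have hk : ∀ k : Fin 3, ‖fderiv ℝ u x (dr i k)‖ ^ 2 ≤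
        2 * (cy y (1 / 8) (x i) ^ 2 * ‖fderiv ℝ (Ψ τ) x (dr i k)‖ ^ 2) +
        2 * ((64 * C₀ ^ 2) * ((if ‖x i - y‖ ≤ 1 then 1 else 0) * ‖Ψ τ x‖ ^ 2)) := by
      intro k
      obtain ⟨f', hf', hb⟩ := cy_fd i k y (1 / 8) (by norm_num) C₀ hC₀ x
      have h5 : fderiv ℝ u x (dr i k) = _ := ims_deriv (fun x : I → E3 => cy y (1 / 8) (x i))
        (Ψ τ) x (dr i k) f' hf' ((hs.differentiable (by simp)) x)
      rw [h5]
      have h6 : f' (dr i k) ^ 2 ≤ (64 * C₀ ^ 2) * (if ‖x i - y‖ ≤ 1 then 1 else 0) := by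
        refine hb.trans ?_
        have e1 : (C₀ / (1 / 8)) ^ 2 = 64 * C₀ ^ 2 := by ring
        rw [e1]
        refine mul_le_mul_of_nonneg_left ?_ (by positivity)
        split_ifs with a b
        · exact le_rfl
        · exfalso
          apply b
          linarith
        · norm_num
        · exact le_rfl
      have h7 : ∀ a b : ℂ, ‖a + b‖ ^ 2 ≤ 2 * ‖a‖ ^ 2 + 2 * ‖b‖ ^ 2 := by
        intro a b
        have := norm_add_le a b
        nlinarith [norm_nonneg a, norm_nonneg b, norm_nonneg (a + b), sq_nonneg (‖a‖ - ‖b‖)]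
      refine (h7 _ _).trans ?_
      rw [norm_mul, norm_mul, mul_pow, mul_pow, Complex.norm_real, Complex.norm_real,
        Real.norm_eq_abs, Real.norm_eq_abs, sq_abs, sq_abs]
      have h8 := mul_le_mul_of_nonneg_left h6 (sq_nonneg ‖Ψ τ x‖)
      nlinarith [h8]
    refine (Finset.sum_le_sum fun k _ => hk k).trans ?_
    rw [Finset.sum_add_distrib, ← Finset.mul_sum, ← Finset.mul_sum]
    have e1 : ∑ k : Fin 3, ‖fderiv ℝ (Ψ τ) x (dr i k)‖ ^ 2 =
        2 * D.mass (sp i) * kin D sp i (Ψ τ) x := by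
      unfold kin dr
      field_simp
    rw [e1]
    simp only [Finset.sum_const, Finset.card_univ, Fintype.card_fin, nsmul_eq_mul]
    apply le_of_eq
    push_cast
    ring
  have h5 : ∫ x, ∑ k : Fin 3, ‖fderiv ℝ u x (dr i k)‖ ^ 2 ≤
      (4 * D.mass (sp i)) * (∫ x, cy y (1 / 8) (x i) ^ 2 * kin D sp i (Ψ τ) x) +
      (384 * C₀ ^ 2) * ∫ x, (if ‖x i - y‖ ≤ 1 then 1 else 0) * ‖Ψ τ x‖ ^ 2 := by
    rw [← integral_const_mul, ← integral_const_mul,
      ← integral_add (i1.const_mul _) (i2.const_mul _)]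
    exact integral_mono i5 ((i1.const_mul _).add (i2.const_mul _)) hpt
  have h6 := mul_le_mul_of_nonneg_left h5 (by norm_num : (0 : ℝ) ≤ 4)
  calc _ ≤ _ := h4
    _ ≤ _ := add_le_add (h3.trans h6) le_rfl
    _ = _ := by ring

theorem kkm_le {S : Type} [Fintype S] (D : Species S) (hD : D.Valid) :
    ∃ C : ℝ, 0 < C ∧ ∀ {I : Type} [Fintype I] [DecidableEq I] (sp : I → S) (ℓ : ℝ)
      (Ψ : Wave D I), IsState D sp ℓ Ψ → ∀ y : E3,
        kkm D Ψ y ≤ C * (klc D sp y (1 / 8) Ψ + wm D (nb y 1) Ψ) := by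
  classical
  obtain ⟨C₀, hC₀, hb⟩ := ct_fd_bdd
  let M : ℝ := ∑ s, D.mass s
  have hM : ∀ s, D.mass s ≤ M := fun s =>
    Finset.single_le_sum (f := D.mass) (fun s _ => (hD.mass_pos s).le) (Finset.mem_univ s)
  have hM0 : 0 ≤ M := Finset.sum_nonneg fun s _ => (hD.mass_pos s).le
  refine ⟨16 * M + (1536 * C₀ ^ 2 + 64), by positivity, ?_⟩
  intro I _ _ sp ℓ Ψ hΨ y
  have e1 : kkm D Ψ y = ∑ τ, ∑ i, ∫ x, kk (x i - y) * ‖Ψ τ x‖ ^ 2 := by
    unfold kkm wm
    refine Finset.sum_congr rfl fun τ _ => ?_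
    rw [← integral_finsetSum _ fun i _ => (cut_one D hD sp ℓ Ψ hΨ C₀ hb y τ i).2.2.1]
    refine integral_congr_ae (Filter.Eventually.of_forall fun x => ?_)
    simp only
    rw [Finset.sum_mul]
  have e2 : klc D sp y (1 / 8) Ψ = ∑ τ, ∑ i, ∫ x, cy y (1 / 8) (x i) ^ 2 *
      kin D sp i (Ψ τ) x := by
    unfold klc
    refine Finset.sum_congr rfl fun τ _ => ?_
    rw [← integral_finsetSum _ fun i _ => (cut_one D hD sp ℓ Ψ hΨ C₀ hb y τ i).1]
  have e3 : wm D (nb y 1) Ψ = ∑ τ, ∑ i, ∫ x : I → E3,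
      (if ‖x i - y‖ ≤ 1 then 1 else 0) * ‖Ψ τ x‖ ^ 2 := by
    unfold wm nb
    refine Finset.sum_congr rfl fun τ _ => ?_
    rw [← integral_finsetSum _ fun i _ => (cut_one D hD sp ℓ Ψ hΨ C₀ hb y τ i).2.1]
    refine integral_congr_ae (Filter.Eventually.of_forall fun x => ?_)
    simp only
    rw [Finset.sum_mul]
  rw [e1, e2, e3, ← Finset.sum_add_distrib, Finset.mul_sum]
  refine Finset.sum_le_sum fun τ _ => ?_
  rw [← Finset.sum_add_distrib, Finset.mul_sum]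
  refine Finset.sum_le_sum fun i _ => ?_
  refine (cut_one D hD sp ℓ Ψ hΨ C₀ hb y τ i).2.2.2.trans ?_
  have h1 : 0 ≤ ∫ x, cy y (1 / 8) (x i) ^ 2 * kin D sp i (Ψ τ) x := by
    refine integral_nonneg fun x => mul_nonneg (sq_nonneg _) ?_
    unfold kin
    have := hD.mass_pos (sp i)
    positivity
  have h2 : 0 ≤ ∫ x : I → E3, (if ‖x i - y‖ ≤ 1 then 1 else 0) * ‖Ψ τ x‖ ^ 2 := by
    refine integral_nonneg fun x => mul_nonneg ?_ (sq_nonneg _)
    split_ifs <;> norm_num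
  have h3 := mul_le_mul_of_nonneg_right (hM (sp i)) h1
  nlinarith [mul_nonneg hM0 h2, mul_nonneg (by positivity : 0 ≤ 1536 * C₀ ^ 2 + 64) h1]

theorem inv_le_ind (w : E3) :
    ‖w‖⁻¹ ≤ 1 + (Metric.ball (0 : E3) 1).indicator (fun w => ‖w‖⁻¹) w := by
  by_cases h : ‖w‖ < 1
  · rw [Set.indicator_of_mem (by simpa using h)]
    linarith
  · rw [Set.indicator_of_notMem (by simpa using h), add_zero]
    rw [not_lt] at h
    exact inv_le_one_of_one_le₀ h

theorem ind_int : Integrable ((Metric.ball (0 : E3) 1).indicator (fun w : E3 => ‖w‖⁻¹)) := by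
  refine (integrable_indicator_iff Metric.isOpen_ball.measurableSet).2 ?_
  exact (pot_props_locInt.integrableOn_isCompact (isCompact_closedBall 0 1)).mono_set
    Metric.ball_subset_closedBall

theorem icb_meas (ℓ : ℝ) : MeasurableSet (icb ℓ) := by
  have : icb ℓ = ⋂ k : Fin 3, {y : E3 | ℓ / 4 ≤ y k ∧ y k ≤ 3 * ℓ / 4} := by
    ext y; simp [icb]
  rw [this]
  refine MeasurableSet.iInter fun k => ?_
  have hk : Measurable fun y : E3 => y k := by fun_prop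
  exact (measurableSet_le measurable_const hk).inter (measurableSet_le hk measurable_const)

theorem icb_fin (ℓ : ℝ) : volume (icb ℓ) ≠ ⊤ := by
  have h : icb ℓ ⊆ Metric.closedBall (0 : E3) (3 * |ℓ|) := by
    intro y hy
    rw [mem_closedBall_zero_iff, EuclideanSpace.norm_eq]
    have h1 : ∀ k : Fin 3, ‖y k‖ ^ 2 ≤ ℓ ^ 2 := by
      intro k
      rw [Real.norm_eq_abs, sq_abs]
      obtain ⟨h1, h2⟩ := hy k
      nlinarith
    calc √(∑ k, ‖y k‖ ^ 2) ≤ √(∑ k : Fin 3, ℓ ^ 2) :=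
          Real.sqrt_le_sqrt (Finset.sum_le_sum fun k _ => h1 k)
      _ ≤ √((3 * |ℓ|) ^ 2) := by
          apply Real.sqrt_le_sqrt
          simp only [Finset.sum_const, Finset.card_univ, Fintype.card_fin, nsmul_eq_mul]
          rw [mul_pow, sq_abs]
          push_cast
          nlinarith [sq_nonneg ℓ]
      _ = 3 * |ℓ| := Real.sqrt_sq (by positivity)
  exact ne_top_of_le_ne_top (measure_closedBall_lt_top (μ := (volume : Measure E3))).ne
    (measure_mono h)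

theorem vb_meas (ℓ : ℝ) : Measurable (vb ℓ) := by
  unfold vb
  refine Measurable.const_mul ?_ _
  have h : StronglyMeasurable (fun q : E3 × E3 => 1 / ‖q.1 - q.2‖) := by
    apply Measurable.stronglyMeasurable
    fun_prop
  exact (h.integral_prod_right (ν := volume.restrict (icb ℓ))).measurable

theorem vb_bdd (ℓ : ℝ) (hℓ : 0 < ℓ) : ∃ B : ℝ, ∀ z, |vb ℓ z| ≤ B := by
  let J : E3 → ℝ := (Metric.ball (0 : E3) 1).indicator (fun w : E3 => ‖w‖⁻¹)
  have hJ : Integrable J := ind_int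
  have hJ0 : ∀ w, 0 ≤ J w := Set.indicator_nonneg (fun _ _ => by positivity)
  refine ⟨8 / ℓ ^ 3 * (volume.real (icb ℓ) + ∫ w, J w), fun z => ?_⟩
  unfold vb
  have h1 : 0 ≤ ∫ y in icb ℓ, 1 / ‖z - y‖ := integral_nonneg fun y => by positivity
  rw [abs_of_nonneg (by positivity)]
  refine mul_le_mul_of_nonneg_left ?_ (by positivity)
  have hJz : Integrable (fun y => J (z - y)) := hJ.comp_sub_left z
  have i1 : IntegrableOn (fun y => 1 + J (z - y)) (icb ℓ) :=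
    (integrableOn_const (icb_fin ℓ)).add hJz.integrableOn
  have hle : ∀ y, 1 / ‖z - y‖ ≤ 1 + J (z - y) := fun y => by
    rw [one_div]; exact inv_le_ind _
  calc ∫ y in icb ℓ, 1 / ‖z - y‖ ≤ ∫ y in icb ℓ, (1 + J (z - y)) := by
        refine integral_mono_of_nonneg (Filter.Eventually.of_forall fun y => ?_) i1
          (Filter.Eventually.of_forall hle)
        show (0 : ℝ) ≤ 1 / ‖z - y‖
        positivity
    _ = volume.real (icb ℓ) + ∫ y in icb ℓ, J (z - y) := by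
        have i0 : IntegrableOn (fun _ : E3 => (1 : ℝ)) (icb ℓ) := integrableOn_const (icb_fin ℓ)
        have h5 := integral_add i0 hJz.integrableOn
        rw [h5]
        simp
    _ ≤ volume.real (icb ℓ) + ∫ y, J (z - y) := by
        have := setIntegral_le_integral (s := icb ℓ) hJz
          (Filter.Eventually.of_forall fun y => hJ0 _)
        linarith
    _ = volume.real (icb ℓ) + ∫ w, J w := by
        rw [integral_sub_left_eq_self]

theorem phb_facts {S : Type} [Fintype S] (D : Species S) {I : Type} [Fintype I] (sp : I → S)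
    (ℓ : ℝ) (hℓ : 0 < ℓ) : Measurable (phb D sp ℓ) ∧ ∃ B : ℝ, ∀ x, |phb D sp ℓ x| ≤ B := by
  obtain ⟨B, hB⟩ := vb_bdd ℓ hℓ
  constructor
  · unfold phb
    refine Finset.measurable_sum _ fun i _ => ?_
    exact ((vb_meas ℓ).comp (measurable_pi_apply i)).const_mul _
  · refine ⟨∑ i : I, |D.charge (sp i)| * B, fun x => ?_⟩
    unfold phb
    refine (Finset.abs_sum_le_sum_abs _ _).trans (Finset.sum_le_sum fun i _ => ?_)
    rw [abs_mul]
    exact mul_le_mul_of_nonneg_left (hB _) (abs_nonneg _)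


/-- TARGET -/
theorem interior {S : Type} [Fintype S] [DecidableEq S] (D : Species S) (hD : D.Valid)
    (hst : HStable D) (hf : ∀ s, D.charge s < 0 → D.fermion s = true) (z cm K₁ C₁ : ℝ)
    (hcm : 0 < cm) (hz : ∀ s, cm ≤ |D.charge s| ∧ |D.charge s| ≤ z) (hK₁ : 0 < K₁) (hC₁ : 0 < C₁)
    (h : RB z K₁ C₁) (F : Finset E3) (hF : ∀ v : E3, ‖v‖ ≤ 12 → ∃ p ∈ F, ‖v - p‖ < 1 / 64)
    (hF2 : ∀ p ∈ F, ‖p‖ ≤ 12) (ρ : ℝ) (hρ : 0 ≤ ρ) (a b l : E3 → ℝ) (hK : Ker a b l) :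
    ∃ (C : ℝ) (M : ℕ), 0 < C ∧
    ∀ {I : Type} [Fintype I] [DecidableEq I] (sp : I → S) (ℓ : ℝ), 4 ≤ ℓ →
      (Fintype.card I : ℝ) ≤ ρ * ℓ ^ 3 → (∑ i, D.charge (sp i) = 0) → ∀ η : ℝ, 0 ≤ η →
      η * (1 + (Fintype.card I : ℝ)) ^ 2 ≤ 1 →
      ∀ Ψ : Wave D I, IsState D sp ℓ Ψ → nrm2 D Ψ = 1 →
      energy D sp Ψ ≤ sInf (energies D sp ℓ) + η →
      (∀ δ : ℝ, 0 < δ → δ ≤ 1 → ∀ y : E3, Metric.closedBall y δ ⊆ cube ℓ →
        |phim D sp Ψ y - wm D (phb D sp ℓ) Ψ| ≤ C / δ ^ M) ∧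
      (∀ y : E3, Metric.closedBall y 2 ⊆ cube ℓ → kkm D Ψ y ≤ C) := by
  classical
  obtain ⟨CF, hCF, hFL⟩ := FL_near_min D hD hst ρ hρ
  obtain ⟨CN, hCN, hN⟩ := near2_local D hD
  obtain ⟨CL, m, hCL, hL⟩ := law D hD hst hf z cm K₁ C₁ hcm hz hK₁ hC₁ h F hF hF2 ρ hρ a b l hK
  obtain ⟨CU, hCU, hU⟩ := num_law D hD hf z cm K₁ C₁ hcm hz hK₁ hC₁ h F hF
  obtain ⟨CK, hCK, hK1⟩ := kkm_le D hD
  -- constants
  let B1 : ℝ := CL / (1 / 8) ^ m
  let B2 : ℝ := CU * (1 + ∑ p ∈ F, CL / (1 / 48) ^ m)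
  let A5 : ℝ := CK * (B1 + B2)
  have hB1 : 0 < B1 := by positivity
  have hB2 : 0 < B2 := by positivity
  have hA5 : 0 < A5 := by positivity
  let A6 : ℝ := CF * (2 + CN * 512 ^ 2 * (1 + CU * (1 + CL * 16 ^ m) + CL * 512 ^ m))
  have hA6 : 0 < A6 := by positivity
  refine ⟨A6 + A5, m + 4, by positivity, ?_⟩
  intro I _ _ sp ℓ hℓ hcard hneu η hη hη1 Ψ hΨ hn hE
  have hℓ0 : 0 < ℓ := by linarith
  have hη2 : η ≤ 1 := by
    have h1 : (1 : ℝ) ≤ (1 + (Fintype.card I : ℝ)) ^ 2 := by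
      have : (0 : ℝ) ≤ Fintype.card I := by positivity
      nlinarith
    nlinarith
  obtain ⟨w1, w2, -⟩ := wt_facts D hD sp ℓ
  have hlaw : ∀ (y : E3) (r : ℝ), 0 < r → r ≤ 1 → Metric.closedBall y (16 * r) ⊆ cube ℓ →
      0 ≤ MM D sp K₁ y r Ψ ∧ MM D sp K₁ y r Ψ ≤ CL / r ^ m :=
    fun y r hr hr1 hb => hL sp ℓ hℓ hcard hneu η hη hη1 Ψ hΨ hn hE y r hr hr1 hb
  have hnum := hU sp ℓ Ψ hΨ hn
  -- numbers of particles
  have hnbint : ∀ (y : E3) (R : ℝ) (x : I → E3), nb y R x ≤ nb y R x ^ ((5 : ℝ) / 3) := by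
    intro y R x
    have e : nb y R x = (((Finset.univ.filter fun i => ‖x i - y‖ ≤ R).card : ℕ) : ℝ) := by
      unfold nb
      rw [Finset.sum_boole]
    rw [e]
    rcases Nat.eq_zero_or_pos (Finset.univ.filter fun i => ‖x i - y‖ ≤ R).card with h0 | h0
    · rw [h0]
      simp
    · exact Real.self_le_rpow_of_one_le (by exact_mod_cast h0) (by norm_num)
  have hWnb : ∀ (y : E3) (R : ℝ), WI D sp ℓ (fun x => nb y R x) := by
    intro y R
    have h1 := w2 y R 1 (by norm_num)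
    simpa only [Real.rpow_one] using h1
  have hnb : ∀ (y : E3) (R : ℝ), wm D (nb y R) Ψ ≤
      wm D (fun x => nb y R x ^ ((5 : ℝ) / 3)) Ψ := fun y R =>
    wm_mono D sp ℓ (hWnb y R) (w2 y R _ (by norm_num)) Ψ hΨ
      (Filter.Eventually.of_forall (hnbint y R))
  constructor
  · intro δ hδ hδ1 y hy
    -- first part
    let r₀ : ℝ := δ / 512
    have hr₀ : 0 < r₀ := by positivity
    let A1 : ℝ := CU * (1 + CL / (δ / 16) ^ m)
    let A2 : ℝ := CL / r₀ ^ m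
    let A3 : ℝ := CN / r₀ ^ 2 * (1 + A1 + A2)
    let A4 : ℝ := CF / δ ^ 2 * (2 + A3)
    have hA1 : 0 < A1 := by positivity
    have hA2 : 0 < A2 := by positivity
    have hA3 : 0 < A3 := by positivity
    have hA4 : 0 < A4 := by positivity
    have hA46 : A4 ≤ A6 / δ ^ (m + 4) := by
      have hdm : (0 : ℝ) < δ ^ m := by positivity
      have hdm1 : δ ^ m ≤ 1 := pow_le_one₀ hδ.le hδ1
      have q1 : (1 : ℝ) ≤ 1 / δ ^ m := by rw [le_div_iff₀ hdm, one_mul]; exact hdm1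
      have q2 : (1 : ℝ) ≤ 1 / δ ^ (m + 2) := by
        rw [le_div_iff₀ (by positivity), one_mul]; exact pow_le_one₀ hδ.le hδ1
      have q3 : A1 ≤ CU * (1 + CL * 16 ^ m) * (1 / δ ^ m) := by
        have e : CL / (δ / 16) ^ m = CL * 16 ^ m * (1 / δ ^ m) := by
          rw [div_pow]; field_simp
        simp only [A1]
        rw [e]
        have : CU * 1 ≤ CU * (1 / δ ^ m) := mul_le_mul_of_nonneg_left q1 hCU.le
        nlinarith
      have q4 : A2 = CL * 512 ^ m * (1 / δ ^ m) := by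
        simp only [A2, r₀]
        rw [div_pow]; field_simp
      have q5 : A3 ≤ CN * 512 ^ 2 * (1 + CU * (1 + CL * 16 ^ m) + CL * 512 ^ m) *
          (1 / δ ^ (m + 2)) := by
        have e1 : CN / r₀ ^ 2 = CN * 512 ^ 2 * (1 / δ ^ 2) := by
          simp only [r₀]
          rw [div_pow]; field_simp
        have e2 : (1 : ℝ) / δ ^ (m + 2) = 1 / δ ^ 2 * (1 / δ ^ m) := by
          rw [pow_add]; field_simp
        simp only [A3]
        rw [e1, e2]
        have e3 : 1 + A1 + A2 ≤ (1 + CU * (1 + CL * 16 ^ m) + CL * 512 ^ m) * (1 / δ ^ m) := by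
          rw [q4]
          nlinarith
        calc CN * 512 ^ 2 * (1 / δ ^ 2) * (1 + A1 + A2)
            ≤ CN * 512 ^ 2 * (1 / δ ^ 2) * ((1 + CU * (1 + CL * 16 ^ m) + CL * 512 ^ m) *
              (1 / δ ^ m)) := mul_le_mul_of_nonneg_left e3 (by positivity)
          _ = _ := by ring
      have e4 : A6 / δ ^ (m + 4) = CF * (1 / δ ^ 2) * ((2 + CN * 512 ^ 2 *
          (1 + CU * (1 + CL * 16 ^ m) + CL * 512 ^ m)) * (1 / δ ^ (m + 2))) := by
        have : δ ^ (m + 4) = δ ^ 2 * δ ^ (m + 2) := by rw [← pow_add]; congr 1; ring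
        simp only [A6]
        rw [this]
        field_simp
      rw [e4]
      simp only [A4]
      have e5 : CF / δ ^ 2 = CF * (1 / δ ^ 2) := by ring
      rw [e5]
      refine mul_le_mul_of_nonneg_left ?_ (by positivity)
      nlinarith
    have h16 : Metric.closedBall y (16 * (δ / 16)) ⊆ cube ℓ := by
      rw [show 16 * (δ / 16) = δ by ring]
      exact hy
    have h16' : Metric.closedBall y (16 * r₀) ⊆ cube ℓ :=
      (Metric.closedBall_subset_closedBall (by simp only [r₀]; linarith)).trans hy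
    have hM1 := hlaw y (δ / 16) (by positivity) (by linarith) h16
    have hM2 := hlaw y r₀ hr₀ (by simp only [r₀]; linarith) h16'
    have hn1 := (hnum y (δ / 16) (by positivity) (by linarith)).2.2.2.1
    have hn2 := hnum y r₀ hr₀ (by simp only [r₀]; linarith)
    have hk : klc D sp y r₀ Ψ ≤ A2 := by
      have h1 : MM D sp K₁ y r₀ Ψ = klc D sp y r₀ Ψ + wm D (mx D sp K₁ y r₀) Ψ := rfl
      have h2 := hn2.2.1
      have h3 := hM2.2
      simp only [A2]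
      linarith
    have hnn : wm D (nb y (2 * r₀)) Ψ ≤ A1 := by
      refine (hnb y (2 * r₀)).trans ?_
      have e : 2 * r₀ = δ / 16 / 16 := by simp only [r₀]; ring
      rw [e]
      refine hn1.trans ?_
      simp only [A1]
      gcongr
      exact hM1.2
    have hnear : wm D (near2 y) Ψ ≤ A3 := by
      refine (hN sp ℓ Ψ hΨ y r₀ hr₀ (by simp only [r₀]; linarith)).trans ?_
      simp only [A3]
      rw [hn]
      gcongr
    have hfl := hFL sp ℓ hℓ hcard hneu η hη Ψ hΨ hn hE δ y (fun _ => 1) 1 hδ hδ1 hy contDiff_const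
      (fun i j x _ => rfl) (fun x => by simp)
    obtain ⟨hpm, B, hpb⟩ := phb_facts D sp ℓ hℓ0
    have hWp : WI D sp ℓ (phb D sp ℓ) := w1 _ hpm B hpb
    have hWphi : WI D sp ℓ (phi D sp y) := WI_phi D sp ℓ y
    have e1 : wm D (fun x => (1 : ℝ) ^ 2 * (phi D sp y x - phb D sp ℓ x)) Ψ =
        phim D sp Ψ y - wm D (phb D sp ℓ) Ψ := by
      have h1 : (fun x : I → E3 => (1 : ℝ) ^ 2 * (phi D sp y x - phb D sp ℓ x)) =
          fun x => phi D sp y x + (-1) * phb D sp ℓ x := by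
        funext x; ring
      rw [h1, wm_add D sp ℓ hWphi (WI_smul D sp ℓ hWp (-1)) Ψ hΨ, wm_smul]
      have h2 : wm D (phi D sp y) Ψ = phim D sp Ψ y := rfl
      rw [h2]
      ring
    have e2 : wm D (fun x : I → E3 => (1 : ℝ) ^ 2 * (1 + near2 y x)) Ψ =
        1 + wm D (near2 y) Ψ := by
      have h1 : (fun x : I → E3 => (1 : ℝ) ^ 2 * (1 + near2 y x)) =
          fun x => (fun _ => (1 : ℝ)) x + near2 y x := by
        funext x; ring
      rw [h1, wm_add D sp ℓ (WI_const D sp ℓ 1) (WI_near2 D sp ℓ y) Ψ hΨ, wm_one, hn]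
    have e3 : wm D (gr (fun _ : I → E3 => (1 : ℝ))) Ψ = 0 := by
      have h1 : gr (fun _ : I → E3 => (1 : ℝ)) = fun _ => 0 := by
        funext x
        unfold gr
        simp
      rw [h1]
      unfold wm
      simp
    rw [e1, e2, e3] at hfl
    refine hfl.trans ?_
    have h5 : CF / δ ^ 2 * (1 + wm D (near2 y) Ψ + 0 + 1 ^ 2 * η) ≤ A4 := by
      have h6 : 1 + wm D (near2 y) Ψ + 0 + 1 ^ 2 * η ≤ 2 + A3 := by linarith
      exact mul_le_mul_of_nonneg_left h6 (by positivity)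
    have h7 : A6 / δ ^ (m + 4) ≤ (A6 + A5) / δ ^ (m + 4) :=
      div_le_div_of_nonneg_right (by linarith) (by positivity)
    linarith
  · intro y hy
    have h2 : Metric.closedBall y (16 * (1 / 8)) ⊆ cube ℓ := by
      norm_num
      exact hy
    have hM1 := hlaw y (1 / 8) (by norm_num) (by norm_num) h2
    have hn1 := hnum y (1 / 8) (by norm_num) (by norm_num)
    have hk : klc D sp y (1 / 8) Ψ ≤ B1 := by
      have h1 : MM D sp K₁ y (1 / 8) Ψ =
        klc D sp y (1 / 8) Ψ + wm D (mx D sp K₁ y (1 / 8)) Ψ := rfl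
      have h2 := hn1.2.1
      have h3 := hM1.2
      simp only [B1]
      linarith
    have hn2 := (hnum y (1 / 12) (by norm_num) (by norm_num)).2.2.2.2.1
    have hnn : wm D (nb y 1) Ψ ≤ B2 := by
      refine (hnb y 1).trans ?_
      have e : (12 : ℝ) * (1 / 12) = 1 := by norm_num
      rw [e] at hn2
      refine hn2.trans ?_
      simp only [B2]
      gcongr with p hp
      have e2 : (1 : ℝ) / 12 / 4 = 1 / 48 := by norm_num
      rw [e2]
      refine (hlaw _ (1 / 48) (by norm_num) (by norm_num) ?_).2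
      refine Set.Subset.trans (Metric.closedBall_subset_closedBall' ?_) hy
      rw [dist_eq_norm, add_sub_cancel_left, norm_smul, Real.norm_of_nonneg (by norm_num)]
      have := hF2 p hp
      linarith
    refine (hK1 sp ℓ Ψ hΨ y).trans ?_
    have h5 : CK * (klc D sp y (1 / 8) Ψ + wm D (nb y 1) Ψ) ≤ A5 := by
      simp only [A5]
      gcongr
    linarith

end Pool.Agent.Helper780_CP.ROUT
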