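import Pool.Agent.Helper780_CP.LLDefs2
import Pool.Agent.Helper780_CP.BnDefs
import Pool.Agent.Helper780_CP.RHN
import Pool.Agent.Helper780_CP.ROUT

set_option autoImplicit false

open MeasureTheory
open scoped Topology

namespace Pool.Agent.Helper780_CP.RB28

open Pool.Agent.Helper780_CP
open Pool.Agent.Helper985.CP

open Pool.Agent.Helper780_CP Pool.Agent.Helper985.CP

theorem b28_klc_le {S : Type} (D : Species S) (hD : D.Valid) {I : Type} [Fintype I]
    [DecidableEq I] (sp : I → S) (ℓ : ℝ) (Ψ : Wave D I) (hΨ : IsState D sp ℓ Ψ) (y : E3) :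
    klc D sp y (1 / 8) Ψ ≤ kb D sp y 8 Ψ := by
  unfold klc kb
  refine Finset.sum_le_sum fun τ _ => ?_
  have hkn : ∀ j x, 0 ≤ kin D sp j (Ψ τ) x := by
    intro j x
    unfold kin
    have := hD.mass_pos (sp j)
    positivity
  refine integral_mono_of_nonneg (Filter.Eventually.of_forall fun x => ?_) ?_
    (Filter.Eventually.of_forall fun x => ?_)
  · exact Finset.sum_nonneg fun j _ => mul_nonneg (sq_nonneg _) (hkn j x)
  · refine integrable_finsetSum _ fun j _ => ?_
    have hk := (int_state D sp ℓ Ψ hΨ τ).2.1 j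
    have hm : MeasurableSet {x : I → E3 | ‖x j - y‖ < 8} :=
      measurableSet_lt (by fun_prop) measurable_const
    refine (hk.indicator hm).congr (Filter.Eventually.of_forall fun x => ?_)
    simp only [Set.indicator_apply, Set.mem_ofPred_eq]
  · refine Finset.sum_le_sum fun j _ => ?_
    split_ifs with h
    · have h1 := RHN.hn_cy_nonneg y (1 / 8) (x j)
      have h2 := RHN.hn_cy_le_one y (1 / 8) (x j)
      have h3 : cy y (1 / 8) (x j) ^ 2 ≤ 1 := pow_le_one₀ h1 h2
      exact mul_le_of_le_one_left (hkn j x) h3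
    · rw [RHN.hn_cy_zero y (by norm_num) (x j) (by linarith)]
      simp

theorem b28_nb_le {S : Type} (D : Species S) {I : Type} [Fintype I]
    [DecidableEq I] (sp : I → S) (ℓ : ℝ) (Ψ : Wave D I) (hΨ : IsState D sp ℓ Ψ) (y : E3) :
    wm D (nb y 1) Ψ ≤ wm D (nb y 3) Ψ := by
  unfold wm
  refine Finset.sum_le_sum fun τ _ => ?_
  refine integral_mono_of_nonneg (Filter.Eventually.of_forall fun x => ?_) ?_
    (Filter.Eventually.of_forall fun x => ?_)
  · refine mul_nonneg ?_ (sq_nonneg _)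
    unfold nb
    refine Finset.sum_nonneg fun i _ => ?_
    split_ifs <;> norm_num
  · have h1 : Integrable (fun x : I → E3 =>
        ∑ i, (if ‖x i - y‖ ≤ 2 * (3 / 2) then (1 : ℝ) else 0) * ‖Ψ τ x‖ ^ 2) :=
      integrable_finsetSum _ fun i _ =>
        RHN.hn_int2 (Ψ τ) (hΨ.smooth τ) (hΨ.compact τ) i y (3 / 2)
    refine h1.congr (Filter.Eventually.of_forall fun x => ?_)
    simp only [nb]
    rw [Finset.sum_mul]
    norm_num
  · refine mul_le_mul_of_nonneg_right ?_ (sq_nonneg _)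
    unfold nb
    refine Finset.sum_le_sum fun i _ => ?_
    split_ifs with h1 h2
    · exact le_rfl
    · exact absurd (h1.trans (by norm_num)) h2
    · norm_num
    · exact le_rfl

/-- TARGET -/
theorem kk_local {S : Type} [Fintype S] (D : Species S) (hD : D.Valid) : ∃ C : ℝ, 0 < C ∧
    ∀ {I : Type} [Fintype I] [DecidableEq I] (sp : I → S) (ℓ : ℝ) (Ψ : Wave D I),
      IsState D sp ℓ Ψ → ∀ y : E3,
      kkm D Ψ y ≤ C * (kb D sp y 8 Ψ + wm D (nb y 3) Ψ) := by
  obtain ⟨C, hC, h⟩ := ROUT.kkm_le D hD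
  refine ⟨C, hC, fun sp ℓ Ψ hΨ y => (h sp ℓ Ψ hΨ y).trans ?_⟩
  exact mul_le_mul_of_nonneg_left (add_le_add (b28_klc_le D hD sp ℓ Ψ hΨ y)
    (b28_nb_le D sp ℓ Ψ hΨ y)) hC.le

end Pool.Agent.Helper780_CP.RB28
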