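import Pool.Agent.Helper780_CP.LLDefs2
import Pool.Agent.Helper780_CP.BnDefs
import Pool.Agent.Helper780_CP.Newt
import Pool.Agent.Helper780_CP.RVB
import Pool.Agent.Helper780_CP.RB1
import Pool.Agent.Helper780_CP.RB8
import Pool.Agent.Helper780_CP.RB15
import Pool.Agent.Helper780_CP.RB21
import Pool.Agent.Helper780_CP.RB24
import Pool.Agent.Helper780_CP.RB27
import Pool.Agent.Helper780_CP.RB28

set_option autoImplicit false

open MeasureTheory
open scoped Topology

namespace Pool.Agent.Helper780_CP.RB29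

open Pool.Agent.Helper780_CP
open Pool.Agent.Helper985.CP
open Pool.Agent.Helper780_CP.RB1 (kern_facts)
open Pool.Agent.Helper780_CP.RB8 (yl)
open Pool.Agent.Helper780_CP.RB15 (num_sup)
open Pool.Agent.Helper780_CP.RB21 (int2A)
open Pool.Agent.Helper780_CP.RB24 (path_v)
open Pool.Agent.Helper780_CP.RB27 (closure)
open Pool.Agent.Helper780_CP.RB28 (kk_local)

open Pool.Agent.Helper780_CP Pool.Agent.Helper985.CP

section aux

theorem fp_WI_bd {S : Type} (D : Species S) {I : Type} [Fintype I] [DecidableEq I] (sp : I → S)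
    (ℓ : ℝ) (h : (I → E3) → ℝ) (hh : Measurable h) (M : ℝ)
    (hM : ∀ x, |h x| ≤ M) : WI D sp ℓ h := by
  intro Ψ hΨ τ
  have := (int_state D sp ℓ Ψ hΨ τ).1
  exact this.bdd_mul (c := M) hh.aestronglyMeasurable
    (Filter.Eventually.of_forall fun x => by rw [Real.norm_eq_abs]; exact hM x)

theorem fp_wx_add {S : Type} (D : Species S) {I : Type} [Fintype I] [DecidableEq I] (sp : I → S)
    (ℓ : ℝ) {k : ℕ} (p : Fin k → ℝ) (ψ : Fin k → Wave D I) (hψ : ∀ j, IsState D sp ℓ (ψ j))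
    {V W : (I → E3) → ℝ} (hV : WI D sp ℓ V) (hW : WI D sp ℓ W) :
    wx D p ψ (fun x => V x + W x) = wx D p ψ V + wx D p ψ W := by
  unfold wx
  rw [← Finset.sum_add_distrib]
  refine Finset.sum_congr rfl fun j _ => ?_
  rw [wm_add D sp ℓ hV hW (ψ j) (hψ j)]
  ring

theorem fp_wx_mono {S : Type} (D : Species S) {I : Type} [Fintype I] [DecidableEq I] (sp : I → S)
    (ℓ : ℝ) {k : ℕ} (p : Fin k → ℝ) (hp : ∀ j, 0 ≤ p j) (ψ : Fin k → Wave D I)
    (hψ : ∀ j, IsState D sp ℓ (ψ j))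
    {V W : (I → E3) → ℝ} (hV : WI D sp ℓ V) (hW : WI D sp ℓ W) (h : ∀ x, V x ≤ W x) :
    wx D p ψ V ≤ wx D p ψ W := by
  unfold wx
  refine Finset.sum_le_sum fun j _ => mul_le_mul_of_nonneg_left ?_ (hp j)
  exact wm_mono D sp ℓ hV hW (ψ j) (hψ j) (Filter.Eventually.of_forall h)

theorem fp_wx_smul {S : Type} (D : Species S) {I : Type} [Fintype I] [DecidableEq I] {k : ℕ}
    (p : Fin k → ℝ) (ψ : Fin k → Wave D I) (c : ℝ) (W : (I → E3) → ℝ) :
    wx D p ψ (fun x => c * W x) = c * wx D p ψ W := by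
  unfold wx
  rw [Finset.mul_sum]
  refine Finset.sum_congr rfl fun j _ => ?_
  rw [wm_smul]
  ring

theorem fp_wx_const {S : Type} (D : Species S) {I : Type} [Fintype I] [DecidableEq I] {k : ℕ}
    (p : Fin k → ℝ) (ψ : Fin k → Wave D I) (hn : ∀ j, nrm2 D (ψ j) = 1) (hp : ∑ j, p j = 1)
    (c : ℝ) : wx D p ψ (fun _ => c) = c := by
  have h1 : wx D p ψ (fun _ => c) = wx D p ψ (fun _ => c * 1) := by simp
  rw [h1, fp_wx_smul D p ψ c (fun _ => 1)]
  unfold wx
  have h2 : ∀ j, p j * wm D (fun _ => 1) (ψ j) = p j := by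
    intro j
    rw [wm_one, hn j, mul_one]
  rw [Finset.sum_congr rfl (fun j _ => h2 j), hp, mul_one]

theorem fp_wx_nonneg {S : Type} (D : Species S) {I : Type} [Fintype I] [DecidableEq I] {k : ℕ}
    (p : Fin k → ℝ) (hp : ∀ j, 0 ≤ p j) (ψ : Fin k → Wave D I) (W : (I → E3) → ℝ)
    (hW : ∀ x, 0 ≤ W x) : 0 ≤ wx D p ψ W := by
  unfold wx wm
  exact Finset.sum_nonneg fun j _ => mul_nonneg (hp j) (Finset.sum_nonneg fun τ _ =>
    integral_nonneg fun x => mul_nonneg (hW x) (sq_nonneg _))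

theorem fp_wx_abs {S : Type} (D : Species S) {I : Type} [Fintype I] [DecidableEq I] (sp : I → S)
    (ℓ : ℝ) {k : ℕ} (p : Fin k → ℝ) (hp : ∀ j, 0 ≤ p j) (ψ : Fin k → Wave D I)
    (hψ : ∀ j, IsState D sp ℓ (ψ j))
    {V W : (I → E3) → ℝ} (hV : WI D sp ℓ V) (hW : WI D sp ℓ W) (h : ∀ x, |V x| ≤ W x) :
    |wx D p ψ V| ≤ wx D p ψ W := by
  rw [abs_le]
  constructor
  · have h1 := fp_wx_mono D sp ℓ p hp ψ hψ (WI_smul D sp ℓ hW (-1)) hV
      (fun x => by have := (abs_le.1 (h x)).1; linarith)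
    rw [fp_wx_smul] at h1
    linarith
  · exact fp_wx_mono D sp ℓ p hp ψ hψ hV hW (fun x => (abs_le.1 (h x)).2)

theorem fp_rpow (t : ℝ) (ht : 0 ≤ t) : t ≤ 1 + t ^ ((5 : ℝ) / 3) := by
  rcases le_or_gt t 1 with h | h
  · have := Real.rpow_nonneg ht ((5 : ℝ) / 3)
    linarith
  · have h1 : t ^ (1 : ℝ) ≤ t ^ ((5 : ℝ) / 3) :=
      Real.rpow_le_rpow_of_exponent_le h.le (by norm_num)
    rw [Real.rpow_one] at h1
    linarith

theorem fp_Lk_bd (μ : ℝ) (hμ : 0 ≤ μ) (w : E3) : |Lk μ w| ≤ μ := by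
  unfold Lk
  split_ifs with h
  · rw [abs_of_nonneg hμ]
  · have hw : 0 < ‖w‖ := norm_pos_iff.2 h
    have h1 : Real.exp (-(μ * ‖w‖)) ≤ 1 := by
      rw [Real.exp_le_one_iff]
      have : 0 ≤ μ * ‖w‖ := by positivity
      linarith
    have h2 : 1 - μ * ‖w‖ ≤ Real.exp (-(μ * ‖w‖)) := by
      have := Real.add_one_le_exp (-(μ * ‖w‖))
      linarith
    rw [abs_of_nonneg (div_nonneg (by linarith) hw.le), div_le_iff₀ hw]
    linarith

theorem fp_Gk_bd (μ : ℝ) (hμ : 0 ≤ μ) (w : E3) : ‖Gk μ w‖ ≤ μ ^ 2 := by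
  unfold Gk
  rcases eq_or_ne w 0 with h | h
  · rw [h, smul_zero, norm_zero]
    positivity
  have hw : 0 < ‖w‖ := norm_pos_iff.2 h
  set t := μ * ‖w‖ with ht
  have ht0 : 0 ≤ t := by positivity
  have h1 : Real.exp (-t) * (1 + t) ≤ 1 := by
    have h2 : 1 + t ≤ Real.exp t := by
      have := Real.add_one_le_exp t
      linarith
    have h3 : Real.exp (-t) * Real.exp t = 1 := by
      rw [← Real.exp_add]; simp
    have h4 := mul_le_mul_of_nonneg_left h2 (Real.exp_pos (-t)).le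
    linarith
  have h5 : 1 - t ^ 2 ≤ Real.exp (-t) * (1 + t) := by
    have h6 : 1 - t ≤ Real.exp (-t) := by
      have := Real.add_one_le_exp (-t)
      linarith
    have h7 := mul_le_mul_of_nonneg_right h6 (by linarith : (0 : ℝ) ≤ 1 + t)
    nlinarith
  rw [norm_smul, Real.norm_eq_abs, abs_div, abs_of_pos (by positivity : 0 < ‖w‖ ^ 3),
    abs_of_nonneg (by linarith : 0 ≤ 1 - Real.exp (-t) * (1 + t))]
  rw [div_mul_eq_mul_div, div_le_iff₀ (by positivity)]
  have h8 : 1 - Real.exp (-t) * (1 + t) ≤ t ^ 2 := by linarith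
  calc (1 - Real.exp (-t) * (1 + t)) * ‖w‖ ≤ t ^ 2 * ‖w‖ :=
        mul_le_mul_of_nonneg_right h8 hw.le
    _ = μ ^ 2 * ‖w‖ ^ 3 := by rw [ht]; ring

theorem fp_Lk_meas : Measurable (fun q : ℝ × E3 => Lk q.1 q.2) := by
  unfold Lk
  refine Measurable.ite (measurableSet_eq_fun measurable_snd measurable_const) measurable_fst ?_
  exact (measurable_const.sub
    ((measurable_fst.mul measurable_snd.norm).neg.exp)).div measurable_snd.norm

theorem fp_Gk_meas : Measurable (fun q : ℝ × E3 => Gk q.1 q.2) := by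
  unfold Gk
  have h : Measurable (fun q : ℝ × E3 =>
      (1 - Real.exp (-(q.1 * ‖q.2‖)) * (1 + q.1 * ‖q.2‖)) / ‖q.2‖ ^ 3) :=
    (measurable_const.sub (((measurable_fst.mul measurable_snd.norm).neg.exp).mul
    (measurable_const.add (measurable_fst.mul measurable_snd.norm)))).div
    (measurable_snd.norm.pow_const 3)
  exact h.smul measurable_snd

theorem fp_nh_nn {I : Type} [Fintype I] (y : E3) (x : I → E3) : 0 ≤ nh y x :=
  Finset.sum_nonneg fun _ _ => (Real.exp_pos _).le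

theorem fp_nh_le {I : Type} [Fintype I] (y : E3) (x : I → E3) :
    nh y x ≤ (Fintype.card I : ℝ) := by
  unfold nh
  have h1 : ∀ j ∈ (Finset.univ : Finset I), Real.exp (1 - √(1 + ‖x j - y‖ ^ 2)) ≤ 1 := by
    intro j _
    rw [Real.exp_le_one_iff]
    have : (1 : ℝ) ≤ √(1 + ‖x j - y‖ ^ 2) := by
      rw [Real.one_le_sqrt]
      nlinarith [sq_nonneg ‖x j - y‖]
    linarith
  have h2 := Finset.sum_le_sum h1
  simpa using h2

theorem fp_mu_ge {I : Type} [Fintype I] (K : ℝ) (hK : 8 ≤ K) (y : E3) (x : I → E3) :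
    2 ≤ mu K y x := by
  unfold mu
  have h1 : (8 : ℝ) ≤ K * (1 + nh y x) := by
    have := fp_nh_nn y x
    nlinarith
  have h2 : (2 : ℝ) = (8 : ℝ) ^ ((1 : ℝ) / 3) := by
    rw [show (8 : ℝ) = 2 ^ (3 : ℕ) by norm_num, show ((1 : ℝ) / 3) = ((3 : ℕ) : ℝ)⁻¹ by norm_num]
    rw [Real.pow_rpow_inv_natCast (by norm_num) (by norm_num)]
  rw [h2]
  exact Real.rpow_le_rpow (by norm_num) h1 (by norm_num)

theorem fp_mu_le {I : Type} [Fintype I] (K : ℝ) (hK : 8 ≤ K) (y : E3) (x : I → E3) :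
    mu K y x ≤ K * (1 + (Fintype.card I : ℝ)) := by
  unfold mu
  have h0 := fp_nh_nn y x
  have h1 : (1 : ℝ) ≤ K * (1 + nh y x) := by nlinarith
  have h2 : (K * (1 + nh y x)) ^ ((1 : ℝ) / 3) ≤ (K * (1 + nh y x)) ^ (1 : ℝ) :=
    Real.rpow_le_rpow_of_exponent_le h1 (by norm_num)
  rw [Real.rpow_one] at h2
  have h3 := fp_nh_le y x
  have h4 : K * (1 + nh y x) ≤ K * (1 + (Fintype.card I : ℝ)) :=
    mul_le_mul_of_nonneg_left (by linarith) (by linarith)
  linarith

theorem fp_mu_meas {I : Type} [Fintype I] (K : ℝ) (y : E3) :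
    Measurable (fun x : I → E3 => mu K y x) := by
  unfold mu nh
  refine Measurable.pow_const (measurable_const.mul (measurable_const.add ?_)) _
  refine Finset.measurable_fun_sum _ fun j _ => ?_
  have h1 : Continuous fun x : I → E3 => Real.exp (1 - √(1 + ‖x j - y‖ ^ 2)) := by fun_prop
  exact h1.measurable

theorem fp_phb_meas {S : Type} (D : Species S) {I : Type} [Fintype I] (sp : I → S) (ℓ : ℝ)
    (hℓ : 0 < ℓ) : Measurable (fun x : I → E3 => phb D sp ℓ x) := by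
  unfold phb
  refine Finset.measurable_fun_sum _ fun j _ => ?_
  exact (((RVB.vb_cont ℓ hℓ).comp (continuous_apply j)).measurable).const_mul _

theorem fp_phb_bd {S : Type} (D : Species S) {I : Type} [Fintype I] (sp : I → S) (ℓ : ℝ)
    (hℓ : 0 < ℓ) : ∃ B : ℝ, ∀ x : I → E3, |phb D sp ℓ x| ≤ B := by
  obtain ⟨C, hC, hv⟩ := RVB.vb_bound
  refine ⟨∑ i, |D.charge (sp i)| * (C / ℓ), fun x => ?_⟩
  unfold phb
  refine (Finset.abs_sum_le_sum_abs _ _).trans (Finset.sum_le_sum fun i _ => ?_)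
  rw [abs_mul]
  obtain ⟨h1, h2⟩ := hv ℓ (x i) hℓ
  rw [abs_of_nonneg h1]
  exact mul_le_mul_of_nonneg_left h2 (abs_nonneg _)

theorem fp_vv_meas {S : Type} (D : Species S) {I : Type} [Fintype I] (sp : I → S) (ℓ K : ℝ)
    (hℓ : 0 < ℓ) (y : E3) :
    Measurable (fun q : (I → E3) × E3 => vv D sp ℓ K y q.1 q.2) := by
  unfold vv vp
  refine Measurable.sub ?_ ((fp_phb_meas D sp ℓ hℓ).comp measurable_fst)
  refine Finset.measurable_fun_sum _ fun i _ => ?_
  have h1 : Measurable (fun q : (I → E3) × E3 => q.1 i) :=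
    (measurable_pi_apply i).comp measurable_fst
  have h2 : Measurable (fun q : (I → E3) × E3 => (mu K y q.1, q.1 i - q.2)) :=
    ((fp_mu_meas K y).comp measurable_fst).prodMk (h1.sub measurable_snd)
  exact (fp_Lk_meas.comp h2).const_mul _

theorem fp_vv_bd {S : Type} (D : Species S) {I : Type} [Fintype I] (sp : I → S) (ℓ K : ℝ)
    (hℓ : 0 < ℓ) (hK : 8 ≤ K) (y : E3) :
    ∃ B : ℝ, ∀ (x : I → E3) (ω : E3), |vv D sp ℓ K y x ω| ≤ B := by
  obtain ⟨B, hB⟩ := fp_phb_bd D sp ℓ hℓ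
  refine ⟨(∑ i, |D.charge (sp i)| * (K * (1 + (Fintype.card I : ℝ)))) + B, fun x ω => ?_⟩
  unfold vv vp
  have h0 := fp_mu_ge K hK y x
  have h1 := fp_mu_le K hK y x
  refine (abs_sub _ _).trans (add_le_add ?_ (hB x))
  refine (Finset.abs_sum_le_sum_abs _ _).trans (Finset.sum_le_sum fun i _ => ?_)
  rw [abs_mul]
  exact mul_le_mul_of_nonneg_left ((fp_Lk_bd _ (by linarith) _).trans h1) (abs_nonneg _)

theorem fp_gg_meas {S : Type} (D : Species S) {I : Type} [Fintype I] (sp : I → S) (K : ℝ)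
    (y : E3) : Measurable (fun q : (I → E3) × E3 => gg D sp K y q.1 q.2) := by
  have h3 : ∀ i : I, Measurable
      (fun q : (I → E3) × E3 => D.charge (sp i) • Gk (mu K y q.1) (q.1 i - q.2)) := by
    intro i
    have h1 : Measurable (fun q : (I → E3) × E3 => q.1 i) :=
      (measurable_pi_apply i).comp measurable_fst
    have h2 : Measurable (fun q : (I → E3) × E3 => (mu K y q.1, q.1 i - q.2)) :=
      ((fp_mu_meas K y).comp measurable_fst).prodMk (h1.sub measurable_snd)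
    have h3 : Measurable ((fun q : ℝ × E3 => Gk q.1 q.2) ∘
        fun q : (I → E3) × E3 => (mu K y q.1, q.1 i - q.2)) :=
      Measurable.comp fp_Gk_meas h2
    have h5 : Measurable (fun v : E3 => D.charge (sp i) • v) :=
      (continuous_const_smul (D.charge (sp i))).measurable
    have h6 : Measurable ((fun v : E3 => D.charge (sp i) • v) ∘ ((fun q : ℝ × E3 => Gk q.1 q.2) ∘
        fun q : (I → E3) × E3 => (mu K y q.1, q.1 i - q.2))) := Measurable.comp h5 h3
    exact h6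
  have h4 : Measurable (fun q : (I → E3) × E3 =>
      ∑ i, D.charge (sp i) • Gk (mu K y q.1) (q.1 i - q.2)) :=
    Finset.measurable_fun_sum _ fun i _ => h3 i
  exact h4

theorem fp_gg_bd {S : Type} (D : Species S) {I : Type} [Fintype I] (sp : I → S) (K : ℝ)
    (hK : 8 ≤ K) (y : E3) :
    ∃ B : ℝ, ∀ (x : I → E3) (ω : E3), ‖gg D sp K y x ω‖ ≤ B := by
  refine ⟨∑ i, |D.charge (sp i)| * (K * (1 + (Fintype.card I : ℝ))) ^ 2, fun x ω => ?_⟩
  unfold gg gp
  have h0 := fp_mu_ge K hK y x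
  have h1 := fp_mu_le K hK y x
  refine (norm_sum_le _ _).trans (Finset.sum_le_sum fun i _ => ?_)
  rw [norm_smul, Real.norm_eq_abs]
  refine mul_le_mul_of_nonneg_left ((fp_Gk_bd _ (by linarith) _).trans ?_) (abs_nonneg _)
  exact pow_le_pow_left₀ (by linarith) h1 2

/-- parametric integrals of bounded jointly measurable functions are admissible weights -/
theorem fp_WI_par {S : Type} (D : Species S) {I : Type} [Fintype I] [DecidableEq I] (sp : I → S)
    (ℓ : ℝ) (s : Set E3) (hs : volume s < ⊤) (F : (I → E3) → E3 → ℝ)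
    (hF : Measurable (fun q : (I → E3) × E3 => F q.1 q.2)) (B : ℝ)
    (hB : ∀ x ω, |F x ω| ≤ B) : WI D sp ℓ (fun x => ∫ ω in s, F x ω) := by
  have h1 : StronglyMeasurable (fun x : I → E3 => ∫ ω in s, F x ω) :=
    StronglyMeasurable.integral_prod_right (f := F) hF.stronglyMeasurable
  refine fp_WI_bd D sp ℓ _ h1.measurable (B * volume.real s) fun x => ?_
  have h2 := norm_setIntegral_le_of_norm_le_const (μ := volume) (s := s) (f := F x) (C := B) hs
    (fun ω _ => by rw [Real.norm_eq_abs]; exact hB x ω)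
  rwa [Real.norm_eq_abs] at h2

end aux

section newton

theorem fp_locInt : LocallyIntegrable (fun w : E3 => ‖w‖⁻¹) volume := pot_props_locInt

/-- the potential of the uniform density on the unit ball, from outside -/
theorem fp_out (y p : E3) (h : 1 ≤ ‖p - y‖) :
    ∫ ω in Metric.ball y 1, 1 / ‖p - ω‖ = volume.real (Metric.ball (0 : E3) 1) / ‖p - y‖ := by
  set V := volume.real (Metric.ball (0 : E3) 1) with hV
  have hVpos : 0 < V := by
    rw [hV, Measure.real]
    exact ENNReal.toReal_pos (Metric.measure_ball_pos volume 0 one_pos).ne'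
      measure_ball_lt_top.ne
  have e1 : ∀ w : E3, (if ‖w‖ < 1 then V⁻¹ else 0) =
      (Metric.ball (0 : E3) 1).indicator (fun _ => V⁻¹) w := by
    intro w
    by_cases hw : ‖w‖ < 1
    · rw [if_pos hw, Set.indicator_of_mem (by simpa using hw)]
    · rw [if_neg hw, Set.indicator_of_notMem (by simpa using hw)]
  have hm : Measurable (fun t : ℝ => if t < 1 then V⁻¹ else 0) :=
    Measurable.ite measurableSet_Iio measurable_const measurable_const
  have h1 : ∫ w : E3, (if ‖w‖ < 1 then V⁻¹ else 0) = 1 := by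
    simp only [e1]
    rw [integral_indicator measurableSet_ball, setIntegral_const, smul_eq_mul, ← hV]
    exact mul_inv_cancel₀ hVpos.ne'
  have h2 := newton_out (fun t : ℝ => if t < 1 then V⁻¹ else 0) hm 1 one_pos
    (fun t ht => if_neg (not_lt.2 ht)) h1 (p - y) h
  have h3 : ∀ w : E3, (if ‖w‖ < 1 then V⁻¹ else 0) / ‖p - y - w‖ =
      V⁻¹ * (Metric.ball (0 : E3) 1).indicator (fun w => 1 / ‖p - y - w‖) w := by
    intro w
    by_cases hw : ‖w‖ < 1
    · rw [if_pos hw, Set.indicator_of_mem (by simpa using hw)]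
      ring
    · rw [if_neg hw, Set.indicator_of_notMem (by simpa using hw)]
      ring
  simp only [h3] at h2
  rw [integral_const_mul, integral_indicator measurableSet_ball] at h2
  have h4 : ∫ ω in Metric.ball y 1, 1 / ‖p - ω‖ =
      ∫ w in Metric.ball (0 : E3) 1, 1 / ‖p - y - w‖ := by
    rw [← integral_indicator measurableSet_ball, ← integral_indicator measurableSet_ball]
    rw [← integral_add_left_eq_self (fun ω => (Metric.ball y 1).indicator
      (fun ω => 1 / ‖p - ω‖) ω) y]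
    refine integral_congr_ae (Filter.Eventually.of_forall fun w => ?_)
    simp only
    by_cases hw : ‖w‖ < 1
    · rw [Set.indicator_of_mem (by simpa using hw), Set.indicator_of_mem (by simpa using hw)]
      rw [sub_sub]
    · rw [Set.indicator_of_notMem (by simpa using hw), Set.indicator_of_notMem (by simpa using hw)]
  rw [h4]
  field_simp at h2 ⊢
  linarith

/-- integrability of the Coulomb kernel on balls -/
theorem fp_int (p y : E3) (r : ℝ) : IntegrableOn (fun ω => 1 / ‖p - ω‖) (Metric.ball y r) := by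
  have h1 : LocallyIntegrable (fun ω : E3 => ‖p - ω‖⁻¹) volume := by
    have := fp_locInt
    intro x
    obtain ⟨s, hs, hi⟩ := this (p - x)
    refine ⟨(fun ω => p - ω) ⁻¹' s, ?_, ?_⟩
    · exact (continuous_const.sub continuous_id).continuousAt hs
    · have h2 := (Measure.measurePreserving_sub_left (volume : Measure E3) p)
      exact h2.integrableOn_comp_preimage
        (MeasurableEquiv.subLeft p).measurableEmbedding |>.2 hi
  have h2 := (h1.integrableOn_isCompact (isCompact_closedBall y r)).mono_set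
    Metric.ball_subset_closedBall
  simpa only [one_div] using h2

/-- the potential of the uniform density on the unit ball, inside -/
theorem fp_in (y p : E3) (h : ‖p - y‖ < 1) :
    0 ≤ ∫ ω in Metric.ball y 1, 1 / ‖p - ω‖ ∧
    ∫ ω in Metric.ball y 1, 1 / ‖p - ω‖ ≤ ∫ ω in Metric.ball (0 : E3) 2, 1 / ‖(0 : E3) - ω‖ := by
  refine ⟨integral_nonneg fun ω => by positivity, ?_⟩
  have h1 : ∫ ω in Metric.ball y 1, 1 / ‖p - ω‖ ≤ ∫ ω in Metric.ball p 2, 1 / ‖p - ω‖ := by
    refine setIntegral_mono_set (fp_int p p 2) (Filter.Eventually.of_forall fun ω => by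
      simp only [Pi.zero_apply]; positivity) (Filter.Eventually.of_forall ?_)
    intro ω hω
    have hω' : dist ω y < 1 := hω
    have hpy : dist p y < 1 := by rw [dist_eq_norm]; exact h
    show dist ω p < 2
    have := dist_triangle_right ω p y
    linarith
  refine h1.trans (le_of_eq ?_)
  rw [← integral_indicator measurableSet_ball, ← integral_indicator measurableSet_ball]
  rw [← integral_add_left_eq_self (fun ω => (Metric.ball p 2).indicator
      (fun ω => 1 / ‖p - ω‖) ω) p]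
  refine integral_congr_ae (Filter.Eventually.of_forall fun w => ?_)
  simp only
  by_cases hw : ‖w‖ < 2
  · rw [Set.indicator_of_mem (by simpa using hw), Set.indicator_of_mem (by simpa using hw)]
    congr 2
    abel
  · rw [Set.indicator_of_notMem (by simpa using hw), Set.indicator_of_notMem (by simpa using hw)]

end newton


section point

theorem fp_LY (μ : ℝ) (w : E3) (hw : w ≠ 0) : Lk μ w + Yk μ w = 1 / ‖w‖ := by
  unfold Lk Yk
  rw [if_neg hw, ← add_div]
  congr 1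
  ring

theorem fp_kk_le (w : E3) (hw : ‖w‖ < 1) : 1 / ‖w‖ ≤ kk w := by
  unfold kk
  rw [Set.indicator_of_mem (by simpa using hw)]
  rcases eq_or_lt_of_le (norm_nonneg w) with h | h
  · rw [← h]; norm_num
  · rw [one_div]
    have h1 : 1 ≤ ‖w‖⁻¹ := (one_le_inv₀ h).2 hw.le
    nlinarith

/-- the difference between the kernel and its average -/
theorem fp_diff (y p : E3) :
    |volume.real (Metric.ball (0 : E3) 1) * (1 / ‖p - y‖) - ∫ ω in Metric.ball y 1, 1 / ‖p - ω‖| ≤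
      volume.real (Metric.ball (0 : E3) 1) * kk (p - y) +
      (∫ ω in Metric.ball (0 : E3) 2, 1 / ‖(0 : E3) - ω‖) * (if ‖p - y‖ ≤ 3 then 1 else 0) := by
  set V := volume.real (Metric.ball (0 : E3) 1) with hV
  set U := ∫ ω in Metric.ball (0 : E3) 2, 1 / ‖(0 : E3) - ω‖ with hU
  have hV0 : 0 ≤ V := measureReal_nonneg
  have hU0 : 0 ≤ U := integral_nonneg fun ω => by positivity
  rcases le_or_gt 1 ‖p - y‖ with h | h
  · rw [fp_out y p h, ← hV, mul_one_div, sub_self, abs_zero]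
    have h1 := kk_nonneg (p - y)
    have h2 : (0 : ℝ) ≤ if ‖p - y‖ ≤ 3 then 1 else 0 := by split_ifs <;> norm_num
    exact add_nonneg (mul_nonneg hV0 h1) (mul_nonneg hU0 h2)
  · obtain ⟨h1, h2⟩ := fp_in y p h
    rw [← hU] at h2
    rw [if_pos (by linarith), mul_one]
    have h3 := mul_le_mul_of_nonneg_left (fp_kk_le _ h) hV0
    have h4 : 0 ≤ V * (1 / ‖p - y‖) := by positivity
    have h5 : 0 ≤ V * kk (p - y) := mul_nonneg hV0 (kk_nonneg _)
    rw [abs_le]
    constructor <;> linarith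

theorem fp_point {S : Type} (D : Species S) {I : Type} [Fintype I]
    (sp : I → S) (ℓ K : ℝ) (hK : 8 ≤ K) (C4 z : ℝ) (hz : ∀ s, |D.charge s| ≤ z)
    (hz0 : 0 ≤ z) (hC4 : 0 ≤ C4)
    (hyl : ∀ (c : I → ℝ) (x : I → E3) (z μ : ℝ), (∀ i, |c i| ≤ z) → 2 ≤ μ → ∀ w : E3,
      ∫ ω in Metric.ball w 2, |yp c x μ ω| ≤ C4 * z / μ ^ 2 * nn w x)
    (y : E3) (x : I → E3) :
    volume.real (Metric.ball (0 : E3) 1) * |phi D sp y x - phb D sp ℓ x| ≤
      (z * (volume.real (Metric.ball (0 : E3) 1) * ∑ i, kk (x i - y)) +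
        z * ((∫ ω in Metric.ball (0 : E3) 2, 1 / ‖(0 : E3) - ω‖) * nb y 3 x)) +
      (volume.real (Metric.ball (0 : E3) 1) +
        ∫ ω in Metric.ball y 1, vv D sp ℓ K y x ω ^ 2) + C4 * z / 4 * nn y x := by
  set V := volume.real (Metric.ball (0 : E3) 1) with hV
  set U := ∫ ω in Metric.ball (0 : E3) 2, 1 / ‖(0 : E3) - ω‖ with hU
  have hV0 : 0 ≤ V := measureReal_nonneg
  have hVy : volume.real (Metric.ball y 1) = V := by
    rw [hV, Measure.real, Measure.real, Measure.addHaar_ball_center]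
  have hμ := fp_mu_ge K hK y x
  obtain ⟨hc1, hc2, -, ⟨B, hB⟩, hc5⟩ := kern_facts (fun i => D.charge (sp i)) x (mu K y x)
    (phb D sp ℓ x) (by linarith)
  have hvi : IntegrableOn (fun ω => vv D sp ℓ K y x ω) (Metric.ball y 1) := by
    have h1 : Continuous (fun ω => vv D sp ℓ K y x ω) := hc1
    exact (h1.continuousOn.integrableOn_compact (isCompact_closedBall y 1)).mono_set
      Metric.ball_subset_closedBall
  have hv2 : IntegrableOn (fun ω => vv D sp ℓ K y x ω ^ 2) (Metric.ball y 1) := by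
    have h1 : Continuous (fun ω => vv D sp ℓ K y x ω) := hc1
    exact ((h1.pow 2).continuousOn.integrableOn_compact (isCompact_closedBall y 1)).mono_set
      Metric.ball_subset_closedBall
  have hyi : ∀ r : ℝ, IntegrableOn (fun ω => yy D sp K y x ω) (Metric.ball y r) := by
    intro r
    have h1 : IntegrableOn (fun ω => 1 + yy D sp K y x ω ^ 2) (Metric.ball y r) := by
      refine Integrable.add ?_ ((hc5 y r).mono_set Metric.ball_subset_closedBall)
      exact integrableOn_const measure_ball_lt_top.ne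
    have h2 : Measurable (fun ω => yy D sp K y x ω) := by
      unfold yy yp Yk
      refine Finset.measurable_fun_sum _ fun i _ => ?_
      refine Measurable.const_mul ?_ _
      have h3 : Measurable (fun ω : E3 => ‖x i - ω‖) := (measurable_const.sub measurable_id).norm
      exact (h3.const_mul _).neg.exp.div h3
    refine Integrable.mono' h1 h2.aestronglyMeasurable (Filter.Eventually.of_forall fun ω => ?_)
    rw [Real.norm_eq_abs]
    have := sq_nonneg (|yy D sp K y x ω| - 1)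
    nlinarith [sq_abs (yy D sp K y x ω), abs_nonneg (yy D sp K y x ω)]
  -- the average
  have hA : ∀ i : I, IntegrableOn (fun ω => D.charge (sp i) * (1 / ‖x i - ω‖)) (Metric.ball y 1) :=
    fun i => (fp_int (x i) y 1).const_mul _
  have e1 : ∫ ω in Metric.ball y 1, (vv D sp ℓ K y x ω + yy D sp K y x ω) =
      (∑ i, D.charge (sp i) * ∫ ω in Metric.ball y 1, 1 / ‖x i - ω‖) - V * phb D sp ℓ x := by
    have h1 : ∀ᵐ ω : E3, ∀ i, ω ≠ x i := by
      rw [ae_all_iff]
      intro i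
      exact (Set.finite_singleton (x i)).countable.ae_notMem volume |>.mono fun ω hω h =>
        hω (by simpa using h)
    have h2 : ∫ ω in Metric.ball y 1, (vv D sp ℓ K y x ω + yy D sp K y x ω) =
        ∫ ω in Metric.ball y 1, ((∑ i, D.charge (sp i) * (1 / ‖x i - ω‖)) - phb D sp ℓ x) := by
      refine integral_congr_ae (ae_restrict_of_ae ?_)
      filter_upwards [h1] with ω hω
      unfold vv yy vp yp
      have h3 : ∀ i, D.charge (sp i) * (1 / ‖x i - ω‖) =
          D.charge (sp i) * Lk (mu K y x) (x i - ω) + D.charge (sp i) * Yk (mu K y x) (x i - ω) := by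
        intro i
        rw [← fp_LY (mu K y x) (x i - ω) (sub_ne_zero.2 (hω i).symm)]
        ring
      simp only [h3, Finset.sum_add_distrib]
      ring
    rw [h2, integral_sub (integrable_finsetSum _ fun i _ => hA i)
      (integrableOn_const measure_ball_lt_top.ne)]
    rw [integral_finsetSum _ fun i _ => hA i]
    rw [setIntegral_const, smul_eq_mul, hVy]
    congr 1
    refine Finset.sum_congr rfl fun i _ => ?_
    rw [integral_const_mul]
  have e2 : V * (phi D sp y x - phb D sp ℓ x) =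
      (∑ i, D.charge (sp i) * (V * (1 / ‖x i - y‖) - ∫ ω in Metric.ball y 1, 1 / ‖x i - ω‖)) +
      ∫ ω in Metric.ball y 1, (vv D sp ℓ K y x ω + yy D sp K y x ω) := by
    rw [e1]
    unfold phi
    simp only [mul_sub, Finset.sum_sub_distrib]
    rw [Finset.mul_sum]
    have h1 : ∀ i, V * (D.charge (sp i) * (1 / ‖x i - y‖)) =
        D.charge (sp i) * (V * (1 / ‖x i - y‖)) := fun i => by ring
    simp only [h1]
    ring
  have b1 : |∑ i, D.charge (sp i) * (V * (1 / ‖x i - y‖) -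
      ∫ ω in Metric.ball y 1, 1 / ‖x i - ω‖)| ≤
      z * (V * ∑ i, kk (x i - y)) + z * (U * nb y 3 x) := by
    refine (Finset.abs_sum_le_sum_abs _ _).trans ?_
    unfold nb
    rw [Finset.mul_sum, Finset.mul_sum, Finset.mul_sum, Finset.mul_sum, ← Finset.sum_add_distrib]
    refine Finset.sum_le_sum fun i _ => ?_
    rw [abs_mul]
    have h1 := fp_diff y (x i)
    rw [← hV, ← hU] at h1
    calc |D.charge (sp i)| * |V * (1 / ‖x i - y‖) - ∫ ω in Metric.ball y 1, 1 / ‖x i - ω‖| ≤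
        z * (V * kk (x i - y) + U * (if ‖x i - y‖ ≤ 3 then 1 else 0)) :=
          mul_le_mul (hz _) h1 (abs_nonneg _) hz0
      _ = _ := by ring
  have b2 : |∫ ω in Metric.ball y 1, vv D sp ℓ K y x ω| ≤
      V + ∫ ω in Metric.ball y 1, vv D sp ℓ K y x ω ^ 2 := by
    have h1 : |∫ ω in Metric.ball y 1, vv D sp ℓ K y x ω| ≤
        ∫ ω in Metric.ball y 1, |vv D sp ℓ K y x ω| := abs_integral_le_integral_abs
    have h2 : ∫ ω in Metric.ball y 1, |vv D sp ℓ K y x ω| ≤
        ∫ ω in Metric.ball y 1, (1 + vv D sp ℓ K y x ω ^ 2) := by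
      refine integral_mono hvi.abs (Integrable.add
        (integrableOn_const measure_ball_lt_top.ne) hv2) fun ω => ?_
      have := sq_nonneg (|vv D sp ℓ K y x ω| - 1)
      simp only
      nlinarith [sq_abs (vv D sp ℓ K y x ω), abs_nonneg (vv D sp ℓ K y x ω)]
    have hci : Integrable (fun _ : E3 => (1 : ℝ)) (volume.restrict (Metric.ball y 1)) :=
      integrableOn_const measure_ball_lt_top.ne
    rw [integral_add hci hv2, setIntegral_const, smul_eq_mul, hVy, mul_one] at h2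
    linarith
  have b3 : |∫ ω in Metric.ball y 1, yy D sp K y x ω| ≤ C4 * z / 4 * nn y x := by
    have h1 : |∫ ω in Metric.ball y 1, yy D sp K y x ω| ≤
        ∫ ω in Metric.ball y 1, |yy D sp K y x ω| := abs_integral_le_integral_abs
    have h2 : ∫ ω in Metric.ball y 1, |yy D sp K y x ω| ≤
        ∫ ω in Metric.ball y 2, |yy D sp K y x ω| := by
      refine setIntegral_mono_set (hyi 2).abs (Filter.Eventually.of_forall fun ω => by
        simp only [Pi.zero_apply]; exact abs_nonneg _) (Filter.Eventually.of_forall ?_)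
      exact Metric.ball_subset_ball (by norm_num)
    have h3 := hyl (fun i => D.charge (sp i)) x z (mu K y x) (fun i => hz _) hμ y
    have h4 : C4 * z / mu K y x ^ 2 * nn y x ≤ C4 * z / 4 * nn y x := by
      refine mul_le_mul_of_nonneg_right ?_ (Finset.sum_nonneg fun _ _ => (Real.exp_pos _).le)
      refine div_le_div_of_nonneg_left (by positivity) (by norm_num) ?_
      nlinarith
    exact h1.trans (h2.trans (h3.trans h4))
  have b4 : |∫ ω in Metric.ball y 1, (vv D sp ℓ K y x ω + yy D sp K y x ω)| ≤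
      (V + ∫ ω in Metric.ball y 1, vv D sp ℓ K y x ω ^ 2) + C4 * z / 4 * nn y x := by
    rw [integral_add hvi (hyi 1)]
    exact (abs_add_le _ _).trans (add_le_add b2 b3)
  have e3 : V * |phi D sp y x - phb D sp ℓ x| = |V * (phi D sp y x - phb D sp ℓ x)| := by
    rw [abs_mul, abs_of_nonneg hV0]
  rw [e3, e2]
  refine (abs_add_le _ _).trans ?_
  linarith

end point


section fin

theorem fp_clamp (ℓ : ℝ) (hℓ : 1000 ≤ ℓ) (y : E3) (hy : y ∈ wall ℓ) :
    ∃ a : E3, ‖a - y‖ ≤ 59 ∧ Metric.closedBall a 4 ⊆ cube ℓ := by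
  obtain ⟨h1, -⟩ := hy
  refine ⟨WithLp.toLp 2 (fun k => min (max (y k) 30) (ℓ - 30)), ?_, ?_⟩
  · rw [EuclideanSpace.norm_eq]
    have h2 : ∀ k : Fin 3, ‖(WithLp.toLp 2 (fun k => min (max (y k) 30) (ℓ - 30)) - y : E3) k‖ ^ 2
        ≤ 33 ^ 2 := by
      intro k
      obtain ⟨h3, h4⟩ := h1 k
      rw [Real.norm_eq_abs, sq_abs]
      have e : (WithLp.toLp 2 (fun k => min (max (y k) 30) (ℓ - 30)) - y : E3) k =
          min (max (y k) 30) (ℓ - 30) - y k := rfl
      rw [e]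
      have h5 : min (max (y k) 30) (ℓ - 30) - y k ≤ 33 := by
        rcases le_total (y k) 30 with h | h
        · have := min_le_left (max (y k) 30) (ℓ - 30)
          rw [max_eq_right h] at this ⊢
          linarith
        · have := min_le_left (max (y k) 30) (ℓ - 30)
          rw [max_eq_left h] at this ⊢
          linarith
      have h6 : -33 ≤ min (max (y k) 30) (ℓ - 30) - y k := by
        rcases le_total (max (y k) 30) (ℓ - 30) with h | h
        · rw [min_eq_left h]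
          have := le_max_left (y k) 30
          linarith
        · rw [min_eq_right h]
          linarith
      nlinarith
    have h3 : ∑ k : Fin 3, ‖(WithLp.toLp 2 (fun k => min (max (y k) 30) (ℓ - 30)) - y : E3) k‖ ^ 2
        ≤ 3 * 33 ^ 2 := by
      refine (Finset.sum_le_sum fun k _ => h2 k).trans ?_
      simp
    refine (Real.sqrt_le_sqrt h3).trans ?_
    rw [Real.sqrt_le_left (by norm_num)]
    norm_num
  · intro v hv k
    have h2 : ‖v - WithLp.toLp 2 (fun k => min (max (y k) 30) (ℓ - 30))‖ ≤ 4 := by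
      rw [← dist_eq_norm]; exact hv
    have h3 := (PiLp.norm_apply_le (v - WithLp.toLp 2 (fun k => min (max (y k) 30) (ℓ - 30))) k).trans h2
    have e : (v - WithLp.toLp 2 (fun k => min (max (y k) 30) (ℓ - 30)) : E3) k =
          v k - min (max (y k) 30) (ℓ - 30) := rfl
    rw [Real.norm_eq_abs, e, abs_le] at h3
    obtain ⟨h4, h5⟩ := h3
    have h6 : 30 ≤ min (max (y k) 30) (ℓ - 30) := le_min (le_max_right _ _) (by linarith)
    have h7 : min (max (y k) 30) (ℓ - 30) ≤ ℓ - 30 := min_le_right _ _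
    constructor <;> linarith

theorem fp_nb_meas {I : Type} [Fintype I] (y : E3) (R : ℝ) : Measurable (nb (I := I) y R) := by
  unfold nb
  refine Finset.measurable_fun_sum _ fun i _ => ?_
  refine Measurable.ite ?_ measurable_const measurable_const
  exact measurableSet_le (((measurable_pi_apply i).sub measurable_const).norm) measurable_const

theorem fp_nb_bd {I : Type} [Fintype I] (y : E3) (R : ℝ) (x : I → E3) :
    0 ≤ nb y R x ∧ nb y R x ≤ (Fintype.card I : ℝ) := by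
  unfold nb
  constructor
  · exact Finset.sum_nonneg fun i _ => by split_ifs <;> norm_num
  · have h2 : ∀ i ∈ (Finset.univ : Finset I), (if ‖x i - y‖ ≤ R then (1 : ℝ) else 0) ≤ 1 := by
      intro i _
      split_ifs <;> norm_num
    simpa using Finset.sum_le_sum h2

theorem fp_nn_meas {I : Type} [Fintype I] (y : E3) : Measurable (nn (I := I) y) := by
  unfold nn
  refine Finset.measurable_fun_sum _ fun i _ => ?_
  have h1 : Continuous fun x : I → E3 => Real.exp (-‖x i - y‖) := by fun_prop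
  exact h1.measurable

theorem fp_nn_bd {I : Type} [Fintype I] (y : E3) (x : I → E3) :
    0 ≤ nn y x ∧ nn y x ≤ (Fintype.card I : ℝ) := by
  unfold nn
  constructor
  · exact Finset.sum_nonneg fun i _ => (Real.exp_pos _).le
  · have h2 : ∀ i ∈ (Finset.univ : Finset I), Real.exp (-‖x i - y‖) ≤ 1 := by
      intro i _
      rw [Real.exp_le_one_iff]
      have := norm_nonneg (x i - y)
      linarith
    simpa using Finset.sum_le_sum h2

theorem fp_WI_rpow {S : Type} (D : Species S) {I : Type} [Fintype I] [DecidableEq I] (sp : I → S)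
    (ℓ : ℝ) (h : (I → E3) → ℝ) (hh : Measurable h) (M : ℝ)
    (hM : ∀ x, 0 ≤ h x ∧ h x ≤ M) : WI D sp ℓ (fun x => h x ^ ((5 : ℝ) / 3)) := by
  refine fp_WI_bd D sp ℓ _ (hh.pow_const _) (M ^ ((5 : ℝ) / 3)) fun x => ?_
  rw [abs_of_nonneg (Real.rpow_nonneg (hM x).1 _)]
  exact Real.rpow_le_rpow (hM x).1 (hM x).2 (by norm_num)

/-- mean of a nonnegative bounded weight through the mean of its power `5/3` -/
theorem fp_mean_le {S : Type} (D : Species S) {I : Type} [Fintype I] [DecidableEq I] (sp : I → S)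
    (ℓ : ℝ) {k : ℕ} (p : Fin k → ℝ) (hp : ∀ j, 0 ≤ p j) (hp1 : ∑ j, p j = 1)
    (ψ : Fin k → Wave D I) (hψ : ∀ j, IsState D sp ℓ (ψ j)) (hn : ∀ j, nrm2 D (ψ j) = 1)
    (h : (I → E3) → ℝ) (hh : Measurable h) (M : ℝ)
    (hM : ∀ x, 0 ≤ h x ∧ h x ≤ M) (A : ℝ) (hA : wx D p ψ (fun x => h x ^ ((5 : ℝ) / 3)) ≤ A) :
    wx D p ψ h ≤ 1 + A := by
  have h1 : WI D sp ℓ h := fp_WI_bd D sp ℓ h hh M fun x => by
    rw [abs_of_nonneg (hM x).1]; exact (hM x).2
  have h2 := fp_WI_rpow D sp ℓ h hh M hM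
  have h3 := fp_wx_mono D sp ℓ p hp ψ hψ h1 (WI_add D sp ℓ (WI_const D sp ℓ 1) h2)
    (fun x => fp_rpow (h x) (hM x).1)
  rw [fp_wx_add D sp ℓ p ψ hψ (WI_const D sp ℓ 1) h2, fp_wx_const D p ψ hn hp1] at h3
  linarith

end fin

/-- TARGET -/
theorem final_pot {S : Type} [Fintype S] [DecidableEq S] (D : Species S) (hD : D.Valid)
    (hf : ∀ s, D.charge s < 0 → D.fermion s = true) (hz : ∀ s, 0 < |D.charge s|) (C0 : ℝ)
    (hC0 : 0 ≤ C0) : ∃ C ℓ0 : ℝ, 0 < C ∧
    ∀ {I : Type} [Fintype I] [DecidableEq I] (sp : I → S) (ℓ η : ℝ) {k : ℕ} (p : Fin k → ℝ)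
      (ψ : Fin k → Wave D I), ℓ0 ≤ ℓ → BS D sp ℓ C0 η p ψ → ∀ y ∈ wall ℓ,
      |(∑ j, p j * phim D sp (ψ j) y) - wx D p ψ (phb D sp ℓ)| ≤ C := by
  obtain ⟨K, ℓ0, C1, hK, hC1, hcl⟩ := closure D hD hf hz C0 hC0
  obtain ⟨C2, hC2, hint0⟩ := int2A D hD hf hz C0 59 hC0 (by norm_num)
  obtain ⟨CK, hCK, hint⟩ := hint0 K hK
  obtain ⟨C3, hC3, hnum⟩ := num_sup D hD hf hz C0 hC0
  obtain ⟨C4, hC4, hyl⟩ := yl
  obtain ⟨C5, hC5, hkk⟩ := kk_local D hD
  obtain ⟨z, hz0, hz1⟩ : ∃ z : ℝ, 0 ≤ z ∧ ∀ s, |D.charge s| ≤ z :=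
    ⟨∑ s, |D.charge s|, Finset.sum_nonneg fun _ _ => abs_nonneg _, fun s =>
      Finset.single_le_sum (f := fun s => |D.charge s|) (fun _ _ => abs_nonneg _)
        (Finset.mem_univ s)⟩
  obtain ⟨V, hV⟩ : ∃ V : ℝ, V = volume.real (Metric.ball (0 : E3) 1) := ⟨_, rfl⟩
  obtain ⟨U, hU⟩ : ∃ U : ℝ, U = ∫ ω in Metric.ball (0 : E3) 2, 1 / ‖(0 : E3) - ω‖ := ⟨_, rfl⟩
  have hVpos : 0 < V := by
    rw [hV, Measure.real]
    exact ENNReal.toReal_pos (Metric.measure_ball_pos volume 0 one_pos).ne'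
      measure_ball_lt_top.ne
  have hU0 : 0 ≤ U := by
    rw [hU]
    exact integral_nonneg fun ω => by positivity
  obtain ⟨M1, hM1⟩ : ∃ M1 : ℝ, M1 = CK * (1 + C1) ^ ((4 : ℝ) / 5) +
    C2 / K ^ ((1 : ℝ) / 3) * (1 + C1) := ⟨_, rfl⟩
  have hK0 : 0 < K := by linarith
  have hM1p : 0 < M1 := by rw [hM1]; positivity
  obtain ⟨N, hN⟩ : ∃ N : ℝ, N = 1 + C3 * (1 + C1) := ⟨_, rfl⟩
  have hNp : 0 < N := by rw [hN]; positivity
  obtain ⟨M2, hM2⟩ : ∃ M2 : ℝ, M2 = 2 * M1 + 2 * 59 ^ 2 * C1 := ⟨_, rfl⟩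
  have hM2p : 0 < M2 := by rw [hM2]; positivity
  obtain ⟨T, hT⟩ : ∃ T : ℝ, T = z * (V * (C5 * (C1 + N))) + z * (U * N) + (V + M2) +
    C4 * z / 4 * N := ⟨_, rfl⟩
  have hTp : 0 < T := by
    rw [hT]
    have t1 : 0 ≤ z * (V * (C5 * (C1 + N))) := by positivity
    have t2 : 0 ≤ z * (U * N) := by positivity
    have t3 : 0 ≤ C4 * z / 4 * N := by positivity
    linarith
  refine ⟨T / V, ℓ0, by positivity, ?_⟩
  intro I _ _ sp ℓ η k p ψ hℓ hBS y hy
  have hq := hcl sp ℓ η p ψ hℓ hBS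
  have hlen := hBS.len
  have hℓ0 : 0 < ℓ := by linarith
  obtain ⟨a, ha1, ha2⟩ := fp_clamp ℓ hlen y hy
  have hst := hBS.state
  have hp0 := hBS.p0
  -- admissible weights
  have hWphi : WI D sp ℓ (phi D sp y) := WI_phi D sp ℓ y
  have hWphb : WI D sp ℓ (phb D sp ℓ) := by
    obtain ⟨B, hB⟩ := fp_phb_bd D sp ℓ hℓ0
    exact fp_WI_bd D sp ℓ _ (fp_phb_meas D sp ℓ hℓ0) B hB
  have hWkk : WI D sp ℓ (fun x : I → E3 => ∑ i, kk (x i - y)) := by
    refine WI_sum D sp ℓ _ _ fun i _ => ?_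
    exact WI_one D sp ℓ i (fun v => kk (v - y)) (kk_int.comp_sub_right y).locallyIntegrable
  have hWnb : WI D sp ℓ (nb y 3) := fp_WI_bd D sp ℓ _ (fp_nb_meas y 3) _ fun x => by
    rw [abs_of_nonneg (fp_nb_bd y 3 x).1]; exact (fp_nb_bd y 3 x).2
  have hWnn : WI D sp ℓ (nn y) := fp_WI_bd D sp ℓ _ (fp_nn_meas y) _ fun x => by
    rw [abs_of_nonneg (fp_nn_bd y x).1]; exact (fp_nn_bd y x).2
  obtain ⟨B, hB⟩ := fp_vv_bd D sp ℓ K hℓ0 hK y
  obtain ⟨B', hB'⟩ := fp_gg_bd D sp K hK y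
  have hWv : ∀ w : E3, WI D sp ℓ (fun x => ∫ ω in Metric.ball w 1, vv D sp ℓ K y x ω ^ 2) := by
    intro w
    refine fp_WI_par D sp ℓ _ measure_ball_lt_top (fun x ω => vv D sp ℓ K y x ω ^ 2)
      ((fp_vv_meas D sp ℓ K hℓ0 y).pow_const 2) (B ^ 2) fun x ω => ?_
    rw [abs_of_nonneg (sq_nonneg _), ← sq_abs]
    exact pow_le_pow_left₀ (abs_nonneg _) (hB x ω) 2
  have hWg : WI D sp ℓ (fun x => ∫ ω in Metric.ball y 60, ‖gg D sp K y x ω‖ ^ 2) := by
    refine fp_WI_par D sp ℓ _ measure_ball_lt_top (fun x ω => ‖gg D sp K y x ω‖ ^ 2)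
      ((fp_gg_meas D sp K y).norm.pow_const 2) (B' ^ 2) fun x ω => ?_
    rw [abs_of_nonneg (sq_nonneg _)]
    exact pow_le_pow_left₀ (norm_nonneg _) (hB' x ω) 2
  -- the terms
  have hg0 : 0 ≤ wx D p ψ (fun x => ∫ ω in Metric.ball y 60, ‖gg D sp K y x ω‖ ^ 2) :=
    fp_wx_nonneg D p hp0 ψ _ fun x => integral_nonneg fun ω => by positivity
  have hkb0 : 0 ≤ ∑ j, p j * kb D sp y 8 (ψ j) := by
    refine Finset.sum_nonneg fun j _ => mul_nonneg (hp0 j) ?_
    unfold kb
    refine Finset.sum_nonneg fun τ _ => integral_nonneg fun x => Finset.sum_nonneg fun i _ => ?_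
    split_ifs
    · unfold kin
      have := hD.mass_pos (sp i)
      positivity
    · exact le_rfl
  have hqy := hq y hy
  unfold qB at hqy
  have hkb : ∑ j, p j * kb D sp y 8 (ψ j) ≤ C1 := by linarith
  have hgg : wx D p ψ (fun x => ∫ ω in Metric.ball y 60, ‖gg D sp K y x ω‖ ^ 2) ≤ C1 := by
    linarith
  obtain ⟨-, n1, n2, -⟩ := hnum sp ℓ η p ψ hBS K C1 hK hC1.le hq y
  have m1 : wx D p ψ (nb y 3) ≤ N := by
    rw [hN]
    exact fp_mean_le D sp ℓ p hp0 hBS.p1 ψ hst hBS.nrm (nb y 3) (fp_nb_meas y 3) _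
      (fp_nb_bd y 3) _ n1
  have m2 : wx D p ψ (nn y) ≤ N := by
    rw [hN]
    exact fp_mean_le D sp ℓ p hp0 hBS.p1 ψ hst hBS.nrm (nn y) (fp_nn_meas y) _
      (fp_nn_bd y) _ n2
  have m3 : wx D p ψ (fun x => ∑ i, kk (x i - y)) ≤ C5 * (C1 + N) := by
    have h1 : wx D p ψ (fun x => ∑ i, kk (x i - y)) ≤
        ∑ j, (C5 * (p j * kb D sp y 8 (ψ j)) + C5 * (p j * wm D (nb y 3) (ψ j))) := by
      unfold wx
      refine Finset.sum_le_sum fun j _ => ?_
      have h2 := mul_le_mul_of_nonneg_left (hkk sp ℓ (ψ j) (hst j) y) (hp0 j)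
      unfold kkm at h2
      linarith
    rw [Finset.sum_add_distrib, ← Finset.mul_sum, ← Finset.mul_sum] at h1
    have h3 : ∑ j, p j * wm D (nb y 3) (ψ j) ≤ N := m1
    have h4 : C5 * ∑ j, p j * kb D sp y 8 (ψ j) ≤ C5 * C1 := mul_le_mul_of_nonneg_left hkb hC5.le
    have h5 : C5 * ∑ j, p j * wm D (nb y 3) (ψ j) ≤ C5 * N := mul_le_mul_of_nonneg_left h3 hC5.le
    linarith
  have m4 : wx D p ψ (fun x => ∫ ω in Metric.ball y 1, vv D sp ℓ K y x ω ^ 2) ≤ M2 := by
    have h1 := hint sp ℓ η p ψ hBS C1 hC1.le hq y a ha1 ha2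
    rw [← hM1] at h1
    have h2 : ∀ x : I → E3, ∫ ω in Metric.ball y 1, vv D sp ℓ K y x ω ^ 2 ≤
        2 * (∫ ω in Metric.ball a 1, vv D sp ℓ K y x ω ^ 2) +
        2 * 59 ^ 2 * ∫ ω in Metric.ball y 60, ‖gg D sp K y x ω‖ ^ 2 := by
      intro x
      have h3 := path_v (fun i => D.charge (sp i)) x (mu K y x) (phb D sp ℓ x)
        (by have := fp_mu_ge K hK y x; linarith) y a y ha1 (by simp)
      have h4 : 0 ≤ ∫ ω in Metric.ball y 60, ‖gg D sp K y x ω‖ ^ 2 :=
        integral_nonneg fun ω => by positivity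
      have h5 : ‖y - a‖ ^ 2 ≤ 59 ^ 2 := by
        rw [norm_sub_rev]
        exact pow_le_pow_left₀ (norm_nonneg _) ha1 2
      have h6 : 2 * ‖y - a‖ ^ 2 * ∫ ω in Metric.ball y 60, ‖gg D sp K y x ω‖ ^ 2 ≤
          2 * 59 ^ 2 * ∫ ω in Metric.ball y 60, ‖gg D sp K y x ω‖ ^ 2 :=
        mul_le_mul_of_nonneg_right (by linarith) h4
      exact h3.trans (add_le_add le_rfl h6)
    have h7 := fp_wx_mono D sp ℓ p hp0 ψ hst (hWv y)
      (WI_add D sp ℓ (WI_smul D sp ℓ (hWv a) 2) (WI_smul D sp ℓ hWg (2 * 59 ^ 2))) h2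
    rw [fp_wx_add D sp ℓ p ψ hst (WI_smul D sp ℓ (hWv a) 2) (WI_smul D sp ℓ hWg (2 * 59 ^ 2)),
      fp_wx_smul, fp_wx_smul] at h7
    rw [hM2]
    have h8 := mul_le_mul_of_nonneg_left hgg (by norm_num : (0 : ℝ) ≤ 2 * 59 ^ 2)
    linarith
  -- assembling
  have hWF : WI D sp ℓ (fun x => V * (phi D sp y x + (-1) * phb D sp ℓ x)) :=
    WI_smul D sp ℓ (WI_add D sp ℓ hWphi (WI_smul D sp ℓ hWphb (-1))) V
  have g1 : WI D sp ℓ (fun x : I → E3 => z * (V * ∑ i, kk (x i - y))) :=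
    WI_smul D sp ℓ (WI_smul D sp ℓ hWkk V) z
  have g2 : WI D sp ℓ (fun x : I → E3 => z * (U * nb y 3 x)) :=
    WI_smul D sp ℓ (WI_smul D sp ℓ hWnb U) z
  have g3 : WI D sp ℓ (fun x : I → E3 => V +
      ∫ ω in Metric.ball y 1, vv D sp ℓ K y x ω ^ 2) :=
    WI_add D sp ℓ (WI_const D sp ℓ V) (hWv y)
  have g4 : WI D sp ℓ (fun x : I → E3 => C4 * z / 4 * nn y x) :=
    WI_smul D sp ℓ hWnn _
  have g12 := WI_add D sp ℓ g1 g2
  have g123 := WI_add D sp ℓ g12 g3
  have g1234 := WI_add D sp ℓ g123 g4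
  have key := fp_wx_abs D sp ℓ p hp0 ψ hst hWF g1234 (fun x => by
    have h1 := fp_point D sp ℓ K hK C4 z hz1 hz0 hC4.le
      (fun c x z μ h2 h3 w => (hyl c x z μ h2 h3 w).2.1) y x
    rw [← hV, ← hU] at h1
    rw [abs_mul, abs_of_pos hVpos]
    have e : phi D sp y x + (-1) * phb D sp ℓ x = phi D sp y x - phb D sp ℓ x := by ring
    rw [e]
    exact h1)
  rw [fp_wx_smul, fp_wx_add D sp ℓ p ψ hst hWphi (WI_smul D sp ℓ hWphb (-1)), fp_wx_smul,
    fp_wx_add D sp ℓ p ψ hst g123 g4, fp_wx_add D sp ℓ p ψ hst g12 g3,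
    fp_wx_add D sp ℓ p ψ hst g1 g2, fp_wx_smul, fp_wx_smul, fp_wx_smul, fp_wx_smul, fp_wx_smul,
    fp_wx_add D sp ℓ p ψ hst (WI_const D sp ℓ V) (hWv y),
    fp_wx_const D p ψ hBS.nrm hBS.p1] at key
  have e0 : (∑ j, p j * phim D sp (ψ j) y) = wx D p ψ (phi D sp y) := rfl
  rw [e0]
  rw [abs_mul, abs_of_pos hVpos] at key
  rw [le_div_iff₀ hVpos]
  have k1 := mul_le_mul_of_nonneg_left (mul_le_mul_of_nonneg_left m3 hVpos.le) hz0
  have k2 := mul_le_mul_of_nonneg_left (mul_le_mul_of_nonneg_left m1 hU0) hz0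
  have k3 := mul_le_mul_of_nonneg_left m2 (by positivity : 0 ≤ C4 * z / 4)
  have e1 : wx D p ψ (phi D sp y) - wx D p ψ (phb D sp ℓ) =
    wx D p ψ (phi D sp y) + -1 * wx D p ψ (phb D sp ℓ) := by ring
  rw [e1, mul_comm, hT]
  linarith

end Pool.Agent.Helper780_CP.RB29
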