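import Pool.Agent.Helper780_CP.LLDefs2
import Pool.Agent.Helper780_CP.BnDefs

set_option autoImplicit false

open MeasureTheory
open scoped Topology

namespace Pool.Agent.Helper780_CP.RB31

open Pool.Agent.Helper780_CP
open Pool.Agent.Helper985.CP

open Pool.Agent.Helper780_CP Pool.Agent.Helper985.CP

/-- the decomposition into minimal elements -/
theorem hilb_dec {S : Type} [Fintype S] (c : S → ℝ) (B : Finset (S → ℕ))
    (hB : ∀ b, b ∈ B ↔ Minimal (fun n : S → ℕ => n ≠ 0 ∧ ∑ s, (n s : ℝ) * c s = 0) b) :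
    ∀ (N : ℕ) (n : S → ℕ), ∑ s, n s = N → ∑ s, (n s : ℝ) * c s = 0 →
      ∃ m : (S → ℕ) → ℕ, n = ∑ b ∈ B, m b • b := by
  classical
  intro N
  induction N using Nat.strong_induction_on with
  | _ N ih =>
    intro n hN hn
    by_cases h0 : n = 0
    · exact ⟨0, by simp [h0]⟩
    · obtain ⟨b, hbn, hb⟩ := exists_minimal_le_of_wellFoundedLT
        (fun n : S → ℕ => n ≠ 0 ∧ ∑ s, (n s : ℝ) * c s = 0) n ⟨h0, hn⟩
      have hbB : b ∈ B := (hB b).2 hb
      have hcast : ∀ s, ((n - b) s : ℝ) = (n s : ℝ) - b s := by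
        intro s
        rw [Pi.sub_apply, Nat.cast_sub (hbn s)]
      have h1 : ∑ s, ((n - b) s : ℝ) * c s = 0 := by
        simp only [hcast, sub_mul, Finset.sum_sub_distrib]
        rw [hn, hb.prop.2, sub_zero]
      have hsum : ∑ s, n s = ∑ s, (n - b) s + ∑ s, b s := by
        rw [← Finset.sum_add_distrib]
        apply Finset.sum_congr rfl
        intro s _
        rw [Pi.sub_apply]
        exact (Nat.sub_add_cancel (hbn s)).symm
      have hbpos : 0 < ∑ s, b s := by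
        rw [Nat.pos_iff_ne_zero]
        intro h
        apply hb.prop.1
        funext s
        exact (Finset.sum_eq_zero_iff.1 h) s (Finset.mem_univ s)
      obtain ⟨m, hm⟩ := ih (∑ s, (n - b) s) (by omega) (n - b) rfl h1
      refine ⟨fun x => m x + if x = b then 1 else 0, ?_⟩
      have h2 : ∑ x ∈ B, (m x + if x = b then 1 else 0) • x = ∑ x ∈ B, m x • x + b := by
        simp only [add_smul, Finset.sum_add_distrib, ite_smul, one_smul, zero_smul,
          Finset.sum_ite_eq', hbB, if_true]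
      rw [h2, ← hm]
      funext s
      rw [Pi.add_apply, Pi.sub_apply]
      exact (Nat.sub_add_cancel (hbn s)).symm

/-- TARGET -/
theorem hilb {S : Type} [Fintype S] (c : S → ℝ) : ∃ (B : Finset (S → ℕ)) (κ : ℝ), 0 < κ ∧
    (∀ b ∈ B, b ≠ 0 ∧ ∑ s, (b s : ℝ) * c s = 0) ∧
    ∀ n : S → ℕ, ∑ s, (n s : ℝ) * c s = 0 → n ≠ 0 →
      ∃ b ∈ B, ∀ s, b s ≠ 0 → κ * ∑ t, (n t : ℝ) ≤ n s := by
  classical
  have hfin : {b : S → ℕ | Minimal (fun n : S → ℕ => n ≠ 0 ∧ ∑ s, (n s : ℝ) * c s = 0) b}.Finite :=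
    WellQuasiOrderedLE.finite_of_isAntichain (setOfPred_minimal_antichain _)
  set B := hfin.toFinset with hBdef
  have hB : ∀ b, b ∈ B ↔ Minimal (fun n : S → ℕ => n ≠ 0 ∧ ∑ s, (n s : ℝ) * c s = 0) b := by
    intro b
    rw [hBdef, Set.Finite.mem_toFinset]
    rfl
  set D : ℝ := 1 + (B.card : ℝ) * ∑ b ∈ B, ∑ t, (b t : ℝ) with hD
  have hsum0 : 0 ≤ ∑ b ∈ B, ∑ t, (b t : ℝ) :=
    Finset.sum_nonneg fun b _ => Finset.sum_nonneg fun t _ => Nat.cast_nonneg _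
  have hDpos : 0 < D := by positivity
  refine ⟨B, 1 / D, by positivity, fun b hb => ((hB b).1 hb).prop, ?_⟩
  intro n hn h0
  obtain ⟨m, hm⟩ := hilb_dec c B hB _ n rfl hn
  have hns : ∀ s, (n s : ℝ) = ∑ b ∈ B, (m b : ℝ) * b s := by
    intro s
    have h1 := congrFun hm s
    rw [Finset.sum_apply] at h1
    have h2 : (n s : ℝ) = ((∑ b ∈ B, (m b • b) s : ℕ) : ℝ) := by exact_mod_cast h1
    rw [h2, Nat.cast_sum]
    apply Finset.sum_congr rfl
    intro b _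
    rw [Pi.smul_apply, smul_eq_mul, Nat.cast_mul]
  have htot : ∑ t, (n t : ℝ) = ∑ b ∈ B, (m b : ℝ) * ∑ t, (b t : ℝ) := by
    simp only [hns]
    rw [Finset.sum_comm]
    apply Finset.sum_congr rfl
    intro b _
    rw [Finset.mul_sum]
  have hBne : B.Nonempty := by
    rw [Finset.nonempty_iff_ne_empty]
    intro h
    rw [h, Finset.sum_empty] at hm
    exact h0 hm
  have hex : ∃ b ∈ B, ∑ t, (n t : ℝ) ≤ (B.card : ℝ) * ((m b : ℝ) * ∑ t, (b t : ℝ)) := by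
    by_contra hcon
    push Not at hcon
    have h1 : ∑ b ∈ B, (B.card : ℝ) * ((m b : ℝ) * ∑ t, (b t : ℝ)) < ∑ b ∈ B, ∑ t, (n t : ℝ) :=
      Finset.sum_lt_sum_of_nonempty hBne hcon
    rw [← Finset.mul_sum, ← htot, Finset.sum_const, nsmul_eq_mul] at h1
    exact lt_irrefl _ h1
  obtain ⟨b, hb, hb2⟩ := hex
  refine ⟨b, hb, fun s hs => ?_⟩
  have h1 : (m b : ℝ) ≤ n s := by
    rw [hns s]
    have h2 : (m b : ℝ) * b s ≤ ∑ b ∈ B, (m b : ℝ) * b s :=
      Finset.single_le_sum (f := fun b => (m b : ℝ) * b s)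
        (fun b _ => mul_nonneg (Nat.cast_nonneg _) (Nat.cast_nonneg _)) hb
    refine le_trans ?_ h2
    have h3 : (1 : ℝ) ≤ b s := by exact_mod_cast Nat.one_le_iff_ne_zero.2 hs
    exact le_mul_of_one_le_right (Nat.cast_nonneg _) h3
  refine le_trans ?_ h1
  rw [div_mul_eq_mul_div, one_mul, div_le_iff₀ hDpos]
  have h4 : ∑ t, (b t : ℝ) ≤ ∑ b ∈ B, ∑ t, (b t : ℝ) :=
    Finset.single_le_sum (f := fun b : S → ℕ => ∑ t, (b t : ℝ))
      (fun b _ => Finset.sum_nonneg fun t _ => Nat.cast_nonneg _) hb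
  calc ∑ t, (n t : ℝ) ≤ (B.card : ℝ) * ((m b : ℝ) * ∑ t, (b t : ℝ)) := hb2
    _ ≤ (B.card : ℝ) * ((m b : ℝ) * ∑ b ∈ B, ∑ t, (b t : ℝ)) := by
        apply mul_le_mul_of_nonneg_left _ (Nat.cast_nonneg _)
        exact mul_le_mul_of_nonneg_left h4 (Nat.cast_nonneg _)
    _ ≤ (m b : ℝ) * D := by
        rw [hD]
        have : (0 : ℝ) ≤ m b := Nat.cast_nonneg _
        linarith [mul_comm (B.card : ℝ) ((m b : ℝ) * ∑ b ∈ B, ∑ t, (b t : ℝ)),
          mul_add (m b : ℝ) 1 ((B.card : ℝ) * ∑ b ∈ B, ∑ t, (b t : ℝ)),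
          mul_comm (B.card : ℝ) (∑ b ∈ B, ∑ t, (b t : ℝ)),
          mul_assoc (m b : ℝ) (∑ b ∈ B, ∑ t, (b t : ℝ)) (B.card : ℝ)]

end Pool.Agent.Helper780_CP.RB31
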