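import Pool.Agent.Helper780_CP.LLDefs2
import Pool.Agent.Helper780_CP.BnDefs
import Pool.Agent.Helper780_CP.RGR2

set_option autoImplicit false

open MeasureTheory
open scoped Topology

namespace Pool.Agent.Helper780_CP.RB32

open Pool.Agent.Helper780_CP
open Pool.Agent.Helper985.CP

open Pool.Agent.Helper780_CP Pool.Agent.Helper985.CP Pool.Agent.Helper780_CP.RGR2
open Pool.Agent.Helper780_CP.RDIL (kin_bound)
open Pool.Agent.Helper780_CP.RGR1 (group_slice)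

/-- choice of the group -/
theorem b32_group {S I : Type} [Fintype S] [DecidableEq S] [Fintype I] [DecidableEq I] (sp : I → S)
    (g : S → ℕ) (h : ∀ s, g s ≤ (Finset.univ.filter (fun i => sp i = s)).card) :
    ∃ G : Finset I, ∀ s, (G.filter (fun i => sp i = s)).card = g s := by
  choose T hT hTc using fun s => Finset.exists_subset_card_eq (h s)
  refine ⟨Finset.univ.biUnion T, fun s => ?_⟩
  rw [← hTc s]
  congr 1
  ext i
  rw [Finset.mem_filter, Finset.mem_biUnion]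
  constructor
  · rintro ⟨⟨t, -, ht⟩, hi⟩
    have h1 := (Finset.mem_filter.1 (hT t ht)).2
    have h2 : t = s := h1.symm.trans hi
    exact h2 ▸ ht
  · intro hi
    exact ⟨⟨s, Finset.mem_univ _, hi⟩, (Finset.mem_filter.1 (hT s hi)).2⟩

/-- TARGET -/
theorem group_removal_g {S : Type} [Fintype S] [DecidableEq S] (D : Species S) (hD : D.Valid)
    (hst : HStable D) (hf : ∀ s, D.charge s < 0 → D.fermion s = true) (ρ c : ℝ) (hρ : 0 ≤ ρ)
    (hc : 0 < c) (g : S → ℕ) (hg : ∑ s, (g s : ℝ) * D.charge s = 0) (hg0 : g ≠ 0) :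
    ∃ C : ℝ, 0 < C ∧
    ∀ {I J : Type} [Fintype I] [DecidableEq I] [Fintype J] [DecidableEq J] (sp : I → S)
      (sp' : J → S) (ℓ : ℝ), 4 ≤ ℓ → (Fintype.card I : ℝ) ≤ ρ * ℓ ^ 3 →
      (∑ i, D.charge (sp i) = 0) → (∀ s, g s ≠ 0 → c * (Fintype.card I : ℝ) ≤ cnt sp s) →
      (∀ s, cnt sp s = cnt sp' s + g s) →
      sInf (energies D sp' ℓ) ≤ sInf (energies D sp ℓ) + C := by
  obtain ⟨C1, hC1, hkb⟩ := kin_bound D hD hf ρ hρ
  obtain ⟨C2, hC2, H⟩ := move0 D hD (1 / 2) (by norm_num)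
  obtain ⟨A, hA⟩ := id hst
  have hAA : ∀ {J : Type} [Fintype J] [DecidableEq J] (sp' : J → S) (ℓ : ℝ), 0 < ℓ →
      ∀ (Ψ : Wave D J), IsState D sp' ℓ Ψ →
      -|A| * (Fintype.card J : ℝ) * nrm2 D Ψ ≤ energy D sp' Ψ := by
    intro J _ _ sp' ℓ hℓ Ψ hΨ
    refine le_trans ?_ (stable_any D A hA sp' ℓ hℓ Ψ hΨ)
    have := nrm2_nn D Ψ
    have h2 := le_abs_self A
    have h3 : (0 : ℝ) ≤ (Fintype.card J : ℝ) * nrm2 D Ψ := by positivity
    nlinarith
  obtain ⟨m, hm0, hm⟩ : ∃ m : ℝ, 0 < m ∧ ∀ s, D.mass s ≤ m := by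
    refine ⟨1 + ∑ s, D.mass s, ?_, fun s => ?_⟩
    · have : 0 ≤ ∑ s, D.mass s := Finset.sum_nonneg fun s _ => (hD.mass_pos s).le
      linarith
    · have := Finset.single_le_sum (f := D.mass) (fun t _ => (hD.mass_pos t).le)
        (Finset.mem_univ s)
      linarith
  have hk0 : 0 ≤ ∫ z, kk z := integral_nonneg kk_nonneg
  -- constants
  obtain ⟨W0, hW0⟩ : ∃ W0 : ℝ, W0 = 4 * (1 + (∫ z, kk z) * ρ) := ⟨_, rfl⟩
  have hW00 : 0 < W0 := by rw [hW0]; positivity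
  obtain ⟨K, hK⟩ : ∃ K : ℝ, K = 1 + C2 * (1 + W0) := ⟨_, rfl⟩
  have hK0 : 0 < K := by rw [hK]; positivity
  obtain ⟨C', hC'⟩ : ∃ C' : ℝ, C' = K + c⁻¹ * (K + 4 * |A|) := ⟨_, rfl⟩
  have hC'0 : 0 < C' := by rw [hC']; positivity
  obtain ⟨W, hW⟩ : ∃ W : ℝ, W = 1 + 8 * m * (2 * C1 / c) := ⟨_, rfl⟩
  have hWp : 0 < W := by rw [hW]; positivity
  obtain ⟨N, hNdef⟩ : ∃ N : ℝ, N = ∑ s, (g s : ℝ) := ⟨_, rfl⟩
  have hN0 : 0 ≤ N := by rw [hNdef]; positivity
  obtain ⟨Q, hQ0, hQ⟩ : ∃ Q : ℝ, 0 < Q ∧ ∀ s, |D.charge s| ≤ Q := by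
    refine ⟨1 + ∑ s, |D.charge s|, ?_, fun s => ?_⟩
    · have : 0 ≤ ∑ s, |D.charge s| := Finset.sum_nonneg fun s _ => abs_nonneg _
      linarith
    · have := Finset.single_le_sum (f := fun s => |D.charge s|) (fun t _ => abs_nonneg _)
        (Finset.mem_univ s)
      linarith
  refine ⟨1 + N * C' + 1 / 2 * (N ^ 2 * (Q ^ 2 * W)), by positivity, ?_⟩
  intro I J _ _ _ _ sp sp' ℓ hℓ hN hneu hab0 hcnt
  have hℓ0 : 0 < ℓ := by linarith
  -- the group
  obtain ⟨G, hG⟩ := b32_group sp g (fun s => by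
    have h1 := hcnt s
    unfold cnt at h1
    omega)
  have hGcnt : ∀ s, cnt sp s = cnt sp' s + (G.filter (fun i => sp i = s)).card := by
    intro s
    rw [hcnt s, hG s]
  -- the state
  obtain ⟨-, -, hE, hmin⟩ := energies_basic D hD hst sp ℓ hℓ0
  obtain ⟨-, -, hE', -⟩ := energies_basic D hD hst sp' ℓ hℓ0
  obtain ⟨Ψ, hΨ, hn1, hgap⟩ : ∃ Ψ : Wave D I, IsState D sp ℓ Ψ ∧ nrm2 D Ψ = 1 ∧
      energy D sp Ψ ≤ sInf (energies D sp ℓ) + 1 := by
    obtain ⟨Φ, hΦ, hΦ0, hΦe⟩ := hmin 1 one_pos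
    obtain ⟨s1, s2, s3⟩ := gr_scale D sp ℓ Φ hΦ (Real.sqrt (nrm2 D Φ))⁻¹
    have e1 : ((Real.sqrt (nrm2 D Φ))⁻¹) ^ 2 = (nrm2 D Φ)⁻¹ := by
      rw [inv_pow, Real.sq_sqrt hΦ0.le]
    rw [e1] at s2 s3
    refine ⟨_, s1, ?_, ?_⟩
    · rw [s2, inv_mul_cancel₀ hΦ0.ne']
    · rw [s3, inv_mul_le_iff₀ hΦ0]
      linarith
  -- kinetic energy
  have hkin := hkb sp ℓ hℓ hN hneu Ψ hΨ hn1 hgap
  -- the point
  obtain ⟨y, hy, hwy⟩ := gr_center D sp ℓ ρ hℓ hρ hN Ψ hΨ hn1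
  rw [← hW0] at hwy
  have hw0 : 0 ≤ wm D (near2 y) Ψ := by
    unfold wm
    exact Finset.sum_nonneg fun τ _ => integral_nonneg fun x =>
      mul_nonneg (near2_nonneg y x) (sq_nonneg _)
  have hmove : ∀ i, pe D sp i Ψ ≤ D.charge (sp i) * phim D sp Ψ y + K := by
    intro i
    have h1 := H sp ℓ y hy (sInf (energies D sp ℓ)) _ hE i
      (rest_lower D sp ℓ |A| (fun sp' Φ hΦ => hAA sp' ℓ hℓ0 Φ hΦ) i) Ψ hΨ
    rw [hn1] at h1
    have h2 : C2 * (1 + wm D (near2 y) Ψ) ≤ C2 * (1 + W0) :=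
      mul_le_mul_of_nonneg_left (by linarith) hC2.le
    rw [hK]
    linarith
  have hstab : -(4 * |A|) * (Fintype.card I : ℝ) ≤ ∑ i, pe D sp i Ψ := by
    have := sum_pe D |A| sp (fun ℓ hℓ Φ hΦ => hAA sp ℓ hℓ Φ hΦ) ℓ hℓ0 Ψ hΨ
    rw [hn1, mul_one] at this
    exact this
  have hflat : ∀ i, c * (Fintype.card I : ℝ) ≤ cnt sp (sp i) →
      |D.charge (sp i) * phim D sp Ψ y - pe D sp i Ψ| ≤ C' := by
    intro i hi
    rw [hC']
    refine gr_core sp i c⁻¹ (by positivity) ?_ D.charge hneu (fun i => pe D sp i Ψ)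
      (fun j hj => (pe_symm D sp ℓ Ψ hΨ j i hj).1) (phim D sp Ψ y) K (4 * |A|) hstab hmove
      hK0.le (by positivity)
    rw [inv_mul_eq_div, le_div_iff₀ hc]
    linarith
  -- abundance in the group
  have hab : ∀ i ∈ G, c * (Fintype.card I : ℝ) ≤ cnt sp (sp i) := by
    intro i hi
    refine hab0 _ ?_
    rw [← hG (sp i), Finset.card_ne_zero]
    exact ⟨i, Finset.mem_filter.2 ⟨hi, rfl⟩⟩
  have hch : ∀ i ∈ G, |D.charge (sp i)| ≤ Q := fun i _ => hQ _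
  have hcardG : (G.card : ℝ) = N := by
    rw [hNdef]
    have h1 := Finset.sum_fiberwise G sp (fun _ => (1 : ℝ))
    simp only [Finset.sum_const, nsmul_eq_mul, mul_one, hG] at h1
    exact h1.symm
  have hchG : ∑ i ∈ G, D.charge (sp i) = 0 := by
    rw [← Finset.sum_fiberwise G sp (fun i => D.charge (sp i)), ← hg]
    refine Finset.sum_congr rfl fun s _ => ?_
    rw [Finset.sum_congr rfl (fun i hi => by rw [(Finset.mem_filter.1 hi).2]), Finset.sum_const,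
      nsmul_eq_mul, hG s]
  -- energies of the group
  obtain ⟨U, hU⟩ : ∃ U : ℝ, U = phim D sp Ψ y := ⟨_, rfl⟩
  rw [← hU] at hflat
  have hsumpe : -(N * C') ≤ ∑ i ∈ G, pe D sp i Ψ := by
    have h1 : ∑ i ∈ G, (D.charge (sp i) * U - C') ≤ ∑ i ∈ G, pe D sp i Ψ := by
      refine Finset.sum_le_sum fun i hi => ?_
      have h2 := hflat i (hab i hi)
      rw [abs_le] at h2
      linarith [h2.2]
    rw [Finset.sum_sub_distrib, ← Finset.sum_mul, hchG, zero_mul, Finset.sum_const, nsmul_eq_mul,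
      hcardG] at h1
    linarith
  have hpairs : ∑ i ∈ G, ∑ j ∈ G, (if i = j then 0 else
        D.charge (sp i) * D.charge (sp j) * wm D (fun x => 1 / ‖x i - x j‖) Ψ) ≤
      N ^ 2 * (Q ^ 2 * W) := by
    have hterm : ∀ i ∈ G, ∀ j ∈ G, (if i = j then 0 else
        D.charge (sp i) * D.charge (sp j) * wm D (fun x => 1 / ‖x i - x j‖) Ψ) ≤
        Q ^ 2 * W := by
      intro i hi j hj
      by_cases hij : i = j
      · rw [if_pos hij]; positivity
      · rw [if_neg hij]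
        obtain ⟨w0, w1⟩ := gr_pair D hD sp ℓ Ψ hΨ i j (Ne.symm hij)
        obtain ⟨k0, k1⟩ := gr_kin D hD sp ℓ c C1 hc hC1 Ψ hΨ hkin i (hab i hi)
        have hmi := hm (sp i)
        have hmi0 := hD.mass_pos (sp i)
        have w2 : wm D (fun x => 1 / ‖x i - x j‖) Ψ ≤ W := by
          rw [hn1] at w1
          rw [hW]
          refine w1.trans ?_
          have : 8 * D.mass (sp i) * kinE D sp i Ψ ≤ 8 * m * (2 * C1 / c) :=
            mul_le_mul (by linarith) k1 k0 (by positivity)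
          linarith
        have h3 : D.charge (sp i) * D.charge (sp j) ≤ Q ^ 2 := by
          refine (le_abs_self _).trans ?_
          rw [abs_mul, sq]
          exact mul_le_mul (hch i hi) (hch j hj) (abs_nonneg _) (by positivity)
        calc D.charge (sp i) * D.charge (sp j) * wm D (fun x => 1 / ‖x i - x j‖) Ψ
            ≤ Q ^ 2 * wm D (fun x => 1 / ‖x i - x j‖) Ψ :=
              mul_le_mul_of_nonneg_right h3 w0
          _ ≤ Q ^ 2 * W := mul_le_mul_of_nonneg_left w2 (by positivity)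
    calc ∑ i ∈ G, ∑ j ∈ G, (if i = j then 0 else
        D.charge (sp i) * D.charge (sp j) * wm D (fun x => 1 / ‖x i - x j‖) Ψ)
        ≤ ∑ i ∈ G, ∑ j ∈ G, Q ^ 2 * W :=
          Finset.sum_le_sum fun i hi => Finset.sum_le_sum fun j hj => hterm i hi j hj
      _ = N ^ 2 * (Q ^ 2 * W) := by
          rw [Finset.sum_const, Finset.sum_const, nsmul_eq_mul, nsmul_eq_mul, hcardG]
          ring
  have hfin := group_slice D sp sp' G hGcnt ℓ (sInf (energies D sp' ℓ)) hE' Ψ hΨ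
  rw [hn1, mul_one] at hfin
  linarith

end Pool.Agent.Helper780_CP.RB32
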