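import Pool.Agent.Helper780_CP.LLDefs2
import Pool.Agent.Helper780_CP.LPDefs
import Pool.Agent.Helper780_CP.RLV2

set_option autoImplicit false

open MeasureTheory
open scoped Topology

namespace Pool.Agent.Helper780_CP.RKT8

open Pool.Agent.Helper780_CP
open Pool.Agent.Helper985.CP

open Pool.Agent.Helper780_CP Pool.Agent.Helper985.CP

open Pool.Agent.Helper780_CP.RVB (vb_props)
open Pool.Agent.Helper780_CP.RD1 (VV_cont VV_lin)
open Pool.Agent.Helper780_CP.RTR (tr_facts)
open Pool.Agent.Helper780_CP.RLV1 (layers)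
open Pool.Agent.Helper780_CP.RLV2

theorem lv_chargesX {S : Type} [Fintype S] (D : Species S) (z : ℝ) (hz : ∀ s, |D.charge s| ≤ z)
    {I : Type} [Fintype I] (sp : I → S)
    (t : I → ℝ) (T : ℝ) (hT : 0 ≤ T) (ht : ∀ i, |t i| ≤ T) :
    |∑ i, D.charge (sp i) * t i| ≤ (Fintype.card I : ℝ) * z * T := by
  refine (Finset.abs_sum_le_sum_abs _ _).trans ?_
  have h1 : ∀ i ∈ Finset.univ, |D.charge (sp i) * t i| ≤ z * T := by
    intro i _
    rw [abs_mul]
    exact mul_le_mul (hz _) (ht i) (abs_nonneg _) ((abs_nonneg _).trans (hz (sp i)))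
  refine (Finset.sum_le_sum h1).trans (le_of_eq ?_)
  rw [Finset.sum_const, Finset.card_univ, nsmul_eq_mul, mul_assoc]

set_option maxHeartbeats 4000000 in
theorem lv_coreX {S : Type} [Fintype S] [DecidableEq S]
    (sT sF : S) (p q : ℕ) (hp : 0 < p) (hq : 0 < q) (ε : ℝ) (hε : ε = 1 ∨ ε = -1)
    (z ρ C0 Ca : ℝ) (hz0 : 0 ≤ z) (hρ : 0 ≤ ρ)
    (hC0 : 0 ≤ C0) (hCa : 0 ≤ Ca) :
    ∃ C ℓ0 : ℝ, 0 < C ∧ 0 < ℓ0 ∧ ∀ (D : Species S), (∀ s, |D.charge s| ≤ z) →
      D.charge sT = ε * p → D.charge sF = -(ε * (q : ℝ)) →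
      ∀ {I : Type} [Fintype I] [DecidableEq I] (sp : I → S) (ℓ : ℝ),
      ℓ0 ≤ ℓ → (Fintype.card I : ℝ) ≤ ρ * ℓ ^ 3 → (∑ i, D.charge (sp i) = 0) →
      ∀ Ψ : Wave D I, IsState D sp ℓ Ψ → nrm2 D Ψ = 1 → ∀ U : ℝ,
      (∀ y, Metric.closedBall y 2 ⊆ cube ℓ → |phim D sp Ψ y - U| ≤ C0 ∧ kkm D Ψ y ≤ C0) →
      ∀ (Eb : (S → ℕ) → ℝ) (E1 : ℝ),
      (∀ (m : ℕ) (s : Fin m → S) (π : Fin m → E3 → ℝ),
        (∀ j, Continuous (π j) ∧ HasCompactSupport (π j) ∧ (∀ y, 0 ≤ π j y) ∧
          (∫ y, π j y) = 1 ∧ ∀ y, π j y ≠ 0 → Metric.closedBall y 1 ⊆ cube (ℓ + 16)) →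
        Eb (fun t => cnt sp t + (Finset.univ.filter (fun j => s j = t)).card) ≤
          E1 + (∑ j, (D.charge (s j) * (∫ y, π j y * phim D sp (trW D (dv 8) Ψ) y) +
            Ca * (1 + ∫ y, π j y * kkm D (trW D (dv 8) Ψ) y))) +
          1 / 2 * DD (fun y => ∑ j, D.charge (s j) * π j y)
            (fun y => ∑ j, D.charge (s j) * π j y) +
          Ca * ∫ x, ∫ y, (∑ j, π j x) * (∑ j, π j y) * kd (x - y)) →
      ∃ K : ℕ, (K : ℝ) ≤ C * ℓ ^ 2 ∧
        Eb (fun s => cnt sp s + ((if s = sT then K * q else 0) + (if s = sF then K * p else 0))) ≤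
          E1 - ε * (U * ℓ ^ 2) + C * ℓ ^ 2 := by
  obtain ⟨Cl, ℓl, hCl, hℓl, hlay⟩ := layers p q hp hq
  obtain ⟨Cv, hCv, hvb⟩ := vb_props.2
  obtain ⟨κ, hκ⟩ : ∃ κ : ℝ, κ = ∫ w, kd w := ⟨_, rfl⟩
  have hκ0 : 0 ≤ κ := by rw [hκ]; exact integral_nonneg lv_kd_nonneg
  have hp0 : (0 : ℝ) < p := Nat.cast_pos.mpr hp
  have hq0 : (0 : ℝ) < q := Nat.cast_pos.mpr hq
  have hεne : ε ≠ 0 := by rcases hε with rfl | rfl <;> norm_num
  refine ⟨Cl + ρ * z * Cl + (C0 + ρ * z * Cv) * Cl + Cl * ((p + q) * C0) + Cl * (Ca * (1 + C0)) +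
    Cl + Ca * (κ * Cl), max ℓl 9, by positivity, lt_of_lt_of_le (by norm_num) (le_max_right _ _), ?_⟩
  intro D hz hcT hcF I _ _ sp ℓ hℓ hcard hneu Ψ hΨ hn U hU Eb E1 hav
  have hTF : sT ≠ sF := by
    intro h
    rw [h, hcF] at hcT
    have : ε * ((p : ℝ) + q) = 0 := by linarith
    rcases mul_eq_zero.mp this with h' | h'
    · exact hεne h'
    · linarith
  have hℓ1 : ℓl ≤ ℓ := (le_max_left _ _).trans hℓ
  have hℓ5 : 9 ≤ ℓ := (le_max_right _ _).trans hℓ
  have hℓ0 : 0 < ℓ := by linarith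
  obtain ⟨K, m, b, o, π, a, hK, hm, hbT, hbF, hπ, hout, hin, hVV, hch, hDD, hsq⟩ := hlay ℓ hℓ1
  obtain ⟨v, hv⟩ : ∃ v : Fin m → ℝ, v = fun j => if b j = true then (p : ℝ) else -(q : ℝ) :=
    ⟨_, rfl⟩
  have hvj : ∀ j, (if b j = true then (p : ℝ) else -(q : ℝ)) = v j := fun j => by rw [hv]
  simp only [hvj] at hVV hch hDD
  have hvabs : ∀ j, |v j| ≤ p + q := by
    intro j
    rw [hv]
    simp only
    split_ifs
    · rw [abs_of_pos hp0]; linarith
    · rw [abs_neg, abs_of_pos hq0]; linarith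
  obtain ⟨s, hs⟩ : ∃ s : Fin m → S, s = fun j => if b j = true then sT else sF := ⟨_, rfl⟩
  have hcs : ∀ j, D.charge (s j) = ε * v j := by
    intro j
    rw [hs, hv]
    simp only
    split_ifs
    · exact hcT
    · rw [hcF]; ring
  obtain ⟨t1, t2, t3, -, t5, t6, t7⟩ := tr_facts D sp ℓ 8 (by norm_num) Ψ hΨ
  obtain ⟨Ψ', hΨ'⟩ : ∃ Ψ' : Wave D I, Ψ' = trW D (dv 8) Ψ := ⟨_, rfl⟩
  rw [← hΨ'] at t1 t2 t3 t5 t6 t7
  have hst : IsState D sp (ℓ + 16) Ψ' := by
    have e : ℓ + 2 * 8 = ℓ + 16 := by ring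
    rwa [e] at t1
  have hn' : nrm2 D Ψ' = 1 := t2.trans hn
  have hdv : ∀ (y : E3) (k : Fin 3), (y - dv 8) k = y k - 8 := by
    intro y k
    simp [dv]
  have hinb : ∀ y : E3, (∀ k, 10 < y k ∧ y k < ℓ + 16 - 10) →
      Metric.closedBall (y - dv 8) 2 ⊆ cube ℓ := by
    intro y hy
    refine lv_ball2 ℓ _ fun k => ?_
    rw [hdv]
    have := hy k
    constructor
    · linarith [this.1]
    · linarith [this.2]
  -- the short range term
  have hkk : ∀ j y, π j y ≠ 0 → kkm D Ψ' y ≤ C0 := by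
    intro j y hy
    by_cases ho : o j = true
    · have h1 := hout j ho y hy
      push Not at h1
      obtain ⟨k, hk⟩ := h1
      have h2 : |kkm D Ψ' y| ≤ 0 * nrm2 D Ψ' := by
        refine lv_wm_le D sp (ℓ + 16) Ψ' hst _ 0 fun τ x hx => ?_
        have h3 : ∑ i, kk (x i - y) = 0 := by
          refine Finset.sum_eq_zero fun i _ => lv_kk_far _ ?_
          have h4 := lv_norm_apply (x i - y) k
          have h5 : (x i - y) k = x i k - y k := rfl
          have h6 := t7 τ x hx i k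
          rw [h5] at h4
          refine le_trans ?_ h4
          by_cases h7 : 6 ≤ y k
          · have h8 := hk h7
            rw [abs_sub_comm]
            refine le_trans ?_ (le_abs_self _)
            linarith [h6.2]
          · refine le_trans ?_ (le_abs_self _)
            linarith [h6.1]
        rw [h3, abs_zero]
      rw [zero_mul] at h2
      linarith [le_abs_self (kkm D Ψ' y)]
    · have ho' : o j = false := by simpa using ho
      rw [t6]
      exact (hU _ (hinb y (hin j ho' y hy))).2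
  have hπi : ∀ j, Integrable (π j) := fun j =>
    (hπ j).1.integrable_of_hasCompactSupport (hπ j).2.1
  have hπb : ∀ j, ∃ B, ∀ y, |π j y| ≤ B := by
    intro j
    obtain ⟨B, hB⟩ := (hπ j).2.1.exists_bound_of_continuous (hπ j).1
    exact ⟨B, fun y => by rw [← Real.norm_eq_abs]; exact hB y⟩
  have hkkint : ∀ j, ∫ y, π j y * kkm D Ψ' y ≤ C0 := by
    intro j
    have e2 : C0 = ∫ y, π j y * C0 := by rw [integral_mul_const, (hπ j).2.2.2.1, one_mul]
    rw [e2]
    refine integral_mono_of_nonneg (Filter.Eventually.of_forall fun y =>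
      mul_nonneg ((hπ j).2.2.1 y) (lv_kkm_nonneg D Ψ' y)) ((hπi j).mul_const C0)
      (Filter.Eventually.of_forall fun y => ?_)
    by_cases h0 : π j y = 0
    · simp only [h0, zero_mul, le_refl]
    · exact mul_le_mul_of_nonneg_left (hkk j y h0) ((hπ j).2.2.1 y)
  -- the inner particles
  have hPi : ∀ j, Integrable (fun y => π j y * phim D sp Ψ' y) := by
    intro j
    obtain ⟨B, hB⟩ := hπb j
    exact (lv_fub D sp (ℓ + 16) Ψ' hst (π j) (hπ j).1.measurable B hB (hπi j)).1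
  obtain ⟨P, hP⟩ : ∃ P : Fin m → ℝ, P = fun j => ∫ y, π j y * phim D sp Ψ' y := ⟨_, rfl⟩
  have hPin : ∀ j, o j = false → |P j - U| ≤ C0 := by
    intro j ho
    have e : P j - U = ∫ y, (π j y * phim D sp Ψ' y - π j y * U) := by
      rw [integral_sub (hPi j) ((hπi j).mul_const U), integral_mul_const, (hπ j).2.2.2.1, one_mul, hP]
    rw [e, ← Real.norm_eq_abs]
    have e2 : C0 = ∫ y, π j y * C0 := by rw [integral_mul_const, (hπ j).2.2.2.1, one_mul]
    rw [e2]
    refine norm_integral_le_of_norm_le ((hπi j).mul_const C0)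
      (Filter.Eventually.of_forall fun y => ?_)
    rw [← mul_sub, norm_mul, Real.norm_of_nonneg ((hπ j).2.2.1 y)]
    by_cases h0 : π j y = 0
    · simp only [h0, zero_mul, le_refl]
    · refine mul_le_mul_of_nonneg_left ?_ ((hπ j).2.2.1 y)
      rw [t5, Real.norm_eq_abs]
      exact (hU _ (hinb y (hin j ho y h0))).1
  -- the outer particles
  obtain ⟨R, hR⟩ : ∃ R : E3 → ℝ, R = fun y => ∑ j, if o j = true then v j * π j y else 0 :=
    ⟨_, rfl⟩
  rw [← hR] at hVV
  have hRc : Continuous R := by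
    rw [hR]
    refine continuous_finsetSum _ fun j _ => ?_
    by_cases ho : o j = true
    · simp only [ho, if_true]
      exact continuous_const.mul (hπ j).1
    · simp only [ho]
      exact continuous_const
  have hRi : Integrable R := by
    rw [hR]
    refine integrable_finsetSum _ fun j _ => ?_
    by_cases ho : o j = true
    · simp only [ho, if_true]
      exact (hπi j).const_mul _
    · simp only [ho]
      simp
  choose Bπ hBπ using hπb
  have hBπ0 : ∀ j, 0 ≤ Bπ j := fun j => (abs_nonneg _).trans (hBπ j 0)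
  have hRB : ∀ y, |R y| ≤ ∑ j, ((p : ℝ) + q) * Bπ j := by
    intro y
    rw [hR]
    refine (Finset.abs_sum_le_sum_abs _ _).trans (Finset.sum_le_sum fun j _ => ?_)
    by_cases ho : o j = true
    · simp only [ho, if_true]
      rw [abs_mul]
      exact mul_le_mul (hvabs j) (hBπ j y) (abs_nonneg _) (by positivity)
    · simp only [ho]
      have := hBπ0 j
      simp only [Bool.false_eq_true, if_false, abs_zero]
      positivity
  have hRint : ∫ y, R y * phim D sp Ψ' y = ∑ j, if o j = true then v j * P j else 0 := by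
    have e : ∀ y, R y * phim D sp Ψ' y =
        ∑ j, (if o j = true then v j else 0) * (π j y * phim D sp Ψ' y) := by
      intro y
      rw [hR]
      simp only
      rw [Finset.sum_mul]
      refine Finset.sum_congr rfl fun j _ => ?_
      split_ifs <;> ring
    simp only [e]
    rw [integral_finsetSum _ fun j _ => (hPi j).const_mul _]
    refine Finset.sum_congr rfl fun j _ => ?_
    rw [integral_const_mul, hP]
    split_ifs <;> ring
  have hNz : (Fintype.card I : ℝ) * z / ℓ ≤ ρ * z * ℓ ^ 2 := by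
    rw [div_le_iff₀ hℓ0]
    have := mul_le_mul_of_nonneg_right hcard hz0
    calc (Fintype.card I : ℝ) * z ≤ ρ * ℓ ^ 3 * z := this
      _ = ρ * z * ℓ ^ 2 * ℓ := by ring
  have houter : |∑ j, if o j = true then v j * P j else 0| ≤ ρ * z * Cl * ℓ ^ 2 := by
    rw [← hRint, (lv_fub D sp (ℓ + 16) Ψ' hst R hRc.measurable _ hRB hRi).2]
    have h1 := lv_wm_le D sp (ℓ + 16) Ψ' hst (fun x => ∑ i, D.charge (sp i) * VV R (x i))
      ((Fintype.card I : ℝ) * z * (Cl / ℓ)) (fun τ x hx => by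
        have e : ∑ i, D.charge (sp i) * VV R (x i) = ∑ i, D.charge (sp i) * (VV R (x i) - a) := by
          simp only [mul_sub, Finset.sum_sub_distrib]
          rw [← Finset.sum_mul, hneu]
          ring
        rw [e]
        refine lv_chargesX D z hz sp _ (Cl / ℓ) (by positivity) fun i => ?_
        refine hVV (x i) fun k => ?_
        have := t7 τ x hx i k
        constructor
        · linarith [this.1]
        · linarith [this.2])
    rw [hn', mul_one] at h1
    refine h1.trans ?_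
    calc (Fintype.card I : ℝ) * z * (Cl / ℓ) = ((Fintype.card I : ℝ) * z / ℓ) * Cl := by ring
      _ ≤ (ρ * z * ℓ ^ 2) * Cl := mul_le_mul_of_nonneg_right hNz hCl.le
      _ = ρ * z * Cl * ℓ ^ 2 := by ring
  -- the level
  have hUb : |U| ≤ C0 + ρ * z * Cv * ℓ ^ 2 := by
    refine lv_level D sp ℓ hℓ5 Ψ hΨ hn U C0 _ (fun y hy => (hU y hy).1) fun x => ?_
    have h1 := lv_chargesX D z hz sp (fun i => vb ℓ (x i)) (Cv / ℓ) (by positivity) (fun i => by
      obtain ⟨h2, h3⟩ := hvb ℓ (x i) hℓ0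
      rw [abs_of_nonneg h2]
      exact h3)
    refine h1.trans ?_
    calc (Fintype.card I : ℝ) * z * (Cv / ℓ) = ((Fintype.card I : ℝ) * z / ℓ) * Cv := by ring
      _ ≤ (ρ * z * ℓ ^ 2) * Cv := mul_le_mul_of_nonneg_right hNz hCv.le
      _ = ρ * z * Cv * ℓ ^ 2 := by ring
  have hℓsq : 1 ≤ ℓ ^ 2 := by nlinarith
  have hUb2 : |U| ≤ (C0 + ρ * z * Cv) * ℓ ^ 2 := by
    refine hUb.trans ?_
    have : C0 ≤ C0 * ℓ ^ 2 := le_mul_of_one_le_right hC0 hℓsq
    linarith
  -- the linear term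
  have hinner : |∑ j, if o j = false then v j * (P j - U) else 0| ≤ m * ((p + q) * C0) := by
    refine (Finset.abs_sum_le_sum_abs _ _).trans ?_
    have h1 : ∀ j ∈ Finset.univ, |if o j = false then v j * (P j - U) else 0| ≤
        ((p : ℝ) + q) * C0 := by
      intro j _
      by_cases ho : o j = false
      · rw [if_pos ho, abs_mul]
        exact mul_le_mul (hvabs j) (hPin j ho) (abs_nonneg _) (by positivity)
      · rw [if_neg ho, abs_zero]
        positivity
    refine (Finset.sum_le_sum h1).trans (le_of_eq ?_)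
    rw [Finset.sum_const, Finset.card_univ, Fintype.card_fin, nsmul_eq_mul]
  have hsplit : ∑ j, v j * P j = (∑ j, if o j = true then v j * P j else 0) +
      (∑ j, if o j = false then v j * (P j - U) else 0) +
      (U * ((∑ j, if o j = false then v j else 0) + ℓ ^ 2) - U * ℓ ^ 2) := by
    have : U * ((∑ j, if o j = false then v j else 0) + ℓ ^ 2) - U * ℓ ^ 2 =
        ∑ j, if o j = false then U * v j else 0 := by
      rw [mul_add, add_sub_cancel_right, Finset.mul_sum]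
      refine Finset.sum_congr rfl fun j _ => ?_
      split_ifs <;> ring
    rw [this, ← Finset.sum_add_distrib, ← Finset.sum_add_distrib]
    refine Finset.sum_congr rfl fun j _ => ?_
    cases o j
    · simp only [Bool.false_eq_true, if_false, if_true]
      ring
    · simp only [if_true, Bool.true_eq_false, if_false]
      ring
  have hεabs : ∀ x : ℝ, ε * x ≤ |x| := by
    intro x
    rcases hε with rfl | rfl
    · rw [one_mul]; exact le_abs_self x
    · rw [neg_one_mul]; exact neg_le_abs x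
  have hlin : ∑ j, D.charge (s j) * P j ≤ -(ε * (U * ℓ ^ 2)) + ρ * z * Cl * ℓ ^ 2 +
      m * ((p + q) * C0) + |U| * Cl := by
    have e : ∑ j, D.charge (s j) * P j = ε * ∑ j, v j * P j := by
      rw [Finset.mul_sum]
      refine Finset.sum_congr rfl fun j _ => ?_
      rw [hcs]
      ring
    rw [e, hsplit]
    have a1 := (hεabs _).trans houter
    have a2 := (hεabs _).trans hinner
    have a3 := hεabs (U * ((∑ j, if o j = false then v j else 0) + ℓ ^ 2))
    rw [abs_mul] at a3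
    have a4 := mul_le_mul_of_nonneg_left hch (abs_nonneg U)
    have e3 : ∀ x y w u : ℝ, ε * (x + y + (w - u)) = ε * x + ε * y + ε * w - ε * u := by
      intro x y w u; ring
    rw [e3]
    linarith
  -- the insertion
  have hmain := hav m s π
    (fun j => ⟨(hπ j).1, (hπ j).2.1, (hπ j).2.2.1, (hπ j).2.2.2.1, fun y hy =>
      lv_ball (ℓ + 16) y ((hπ j).2.2.2.2 y hy)⟩)
  rw [← hΨ'] at hmain
  have hcount : ∀ t, (Finset.univ.filter (fun j => s j = t)).card =
      (if t = sT then K * q else 0) + (if t = sF then K * p else 0) := by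
    intro t
    by_cases h1 : t = sT
    · rw [if_pos h1, if_neg (by rw [h1]; exact hTF), add_zero, ← hbT]
      congr 1
      ext j
      simp only [Finset.mem_filter, Finset.mem_univ, true_and]
      rw [hs, h1]
      simp only
      by_cases hb : b j = true
      · simp [hb]
      · simp only [hb, if_false]
        exact ⟨fun h => absurd h.symm hTF, fun h => absurd h (by simp)⟩
    · rw [if_neg h1, zero_add]
      by_cases h2 : t = sF
      · rw [if_pos h2, ← hbF]
        congr 1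
        ext j
        simp only [Finset.mem_filter, Finset.mem_univ, true_and]
        rw [hs, h2]
        simp only
        by_cases hb : b j = true
        · simp only [hb, if_true]
          exact ⟨fun h => absurd h hTF, fun h => absurd h (by simp)⟩
        · have hb' : b j = false := by simpa using hb
          simp [hb']
      · rw [if_neg h2, Finset.card_eq_zero, Finset.filter_eq_empty_iff]
        intro j _
        rw [hs]
        simp only
        split_ifs
        · exact fun h => h1 h.symm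
        · exact fun h => h2 h.symm
  simp only [hcount] at hmain
  refine ⟨K, ?_, ?_⟩
  · refine hK.trans ?_
    have h1 : 0 ≤ ρ * z * Cl + (C0 + ρ * z * Cv) * Cl + Cl * ((p + q) * C0) +
      Cl * (Ca * (1 + C0)) + Cl + Ca * (κ * Cl) := by positivity
    exact mul_le_mul_of_nonneg_right (by linarith) (sq_nonneg ℓ)
  refine hmain.trans ?_
  have b1 : ∑ j, (D.charge (s j) * (∫ y, π j y * phim D sp Ψ' y) +
      Ca * (1 + ∫ y, π j y * kkm D Ψ' y)) ≤ (∑ j, D.charge (s j) * P j) + m * (Ca * (1 + C0)) := by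
    rw [Finset.sum_add_distrib]
    have h1 : ∑ j : Fin m, Ca * (1 + ∫ y, π j y * kkm D Ψ' y) ≤ m * (Ca * (1 + C0)) := by
      have h2 : ∀ j ∈ Finset.univ, Ca * (1 + ∫ y, π j y * kkm D Ψ' y) ≤ Ca * (1 + C0) := by
        intro j _
        refine mul_le_mul_of_nonneg_left ?_ hCa
        linarith [hkkint j]
      refine (Finset.sum_le_sum h2).trans (le_of_eq ?_)
      rw [Finset.sum_const, Finset.card_univ, Fintype.card_fin, nsmul_eq_mul]
    rw [hP]
    simp only
    linarith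
  have b2 : DD (fun y => ∑ j, D.charge (s j) * π j y) (fun y => ∑ j, D.charge (s j) * π j y) ≤
      Cl * ℓ ^ 2 := by
    have e : (fun y => ∑ j, D.charge (s j) * π j y) = fun y => ε * ∑ j, v j * π j y := by
      funext y
      rw [Finset.mul_sum]
      refine Finset.sum_congr rfl fun j _ => ?_
      rw [hcs]
      ring
    rw [e, lv_DD_smul (fun y => ∑ j, v j * π j y) ε hε]
    exact hDD
  have b3 : ∫ x, ∫ y, (∑ j, π j x) * (∑ j, π j y) * kd (x - y) ≤ κ * (Cl * ℓ ^ 2) := by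
    have hSi : Integrable (fun x => ∑ j, π j x) := integrable_finsetSum _ fun j _ => hπi j
    have hSc : Continuous (fun x => ∑ j, π j x) := continuous_finsetSum _ fun j _ => (hπ j).1
    have hS0 : ∀ x, 0 ≤ ∑ j, π j x := fun x => Finset.sum_nonneg fun j _ => (hπ j).2.2.1 x
    have hSB : ∀ x, ∑ j, π j x ≤ ∑ j, Bπ j := fun x =>
      Finset.sum_le_sum fun j _ => (le_abs_self _).trans (hBπ j x)
    have hS2 : Integrable (fun x => (∑ j, π j x) ^ 2) := by
      refine (hSi.const_mul (∑ j, Bπ j)).mono' (hSc.pow 2).aestronglyMeasurable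
        (Filter.Eventually.of_forall fun x => ?_)
      rw [Real.norm_of_nonneg (sq_nonneg _), sq]
      exact mul_le_mul_of_nonneg_right (hSB x) (hS0 x)
    refine (lv_schur (fun x => ∑ j, π j x) hS2 hS0).trans ?_
    rw [← hκ]
    exact mul_le_mul_of_nonneg_left hsq hκ0
  have b4 : |U| * Cl ≤ (C0 + ρ * z * Cv) * Cl * ℓ ^ 2 := by
    have := mul_le_mul_of_nonneg_right hUb2 hCl.le
    linarith
  have b5 : (m : ℝ) * ((p + q) * C0) ≤ Cl * ((p + q) * C0) * ℓ ^ 2 := by
    have := mul_le_mul_of_nonneg_right hm (by positivity : (0 : ℝ) ≤ ((p : ℝ) + q) * C0)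
    linarith
  have b6 : (m : ℝ) * (Ca * (1 + C0)) ≤ Cl * (Ca * (1 + C0)) * ℓ ^ 2 := by
    have := mul_le_mul_of_nonneg_right hm (by positivity : (0 : ℝ) ≤ Ca * (1 + C0))
    linarith
  have b7 := mul_le_mul_of_nonneg_left b3 hCa
  have b8 : 0 ≤ Cl * ℓ ^ 2 := by positivity
  have b9 : (Cl + ρ * z * Cl + (C0 + ρ * z * Cv) * Cl + Cl * ((p + q) * C0) +
      Cl * (Ca * (1 + C0)) + Cl + Ca * (κ * Cl)) * ℓ ^ 2 = Cl * ℓ ^ 2 + ρ * z * Cl * ℓ ^ 2 +
      (C0 + ρ * z * Cv) * Cl * ℓ ^ 2 + Cl * ((p + q) * C0) * ℓ ^ 2 +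
      Cl * (Ca * (1 + C0)) * ℓ ^ 2 + Cl * ℓ ^ 2 + Ca * (κ * (Cl * ℓ ^ 2)) := by ring
  rw [b9]
  linarith


/-- TARGET -/
theorem level_abs {S : Type} [Fintype S] [DecidableEq S]
    (sP sN : S) (p q : ℕ) (hp : 0 < p) (hq : 0 < q) (z ρ C0 Ca : ℝ) (hρ : 0 ≤ ρ) (hC0 : 0 ≤ C0)
    (hCa : 0 ≤ Ca) :
    ∃ C ℓ0 : ℝ, 0 < C ∧ 0 < ℓ0 ∧ ∀ (D : Species S), (∀ s, |D.charge s| ≤ z) → D.charge sP = p →
      D.charge sN = -(q : ℝ) → ∀ {I : Type} [Fintype I] [DecidableEq I] (sp : I → S) (ℓ : ℝ),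
      ℓ0 ≤ ℓ → (Fintype.card I : ℝ) ≤ ρ * ℓ ^ 3 → (∑ i, D.charge (sp i) = 0) →
      ∀ Ψ : Wave D I, IsState D sp ℓ Ψ → nrm2 D Ψ = 1 → ∀ U : ℝ,
      (∀ y, Metric.closedBall y 2 ⊆ cube ℓ → |phim D sp Ψ y - U| ≤ C0 ∧ kkm D Ψ y ≤ C0) →
      ∀ (Eb : (S → ℕ) → ℝ) (E1 : ℝ),
      (∀ (m : ℕ) (s : Fin m → S) (π : Fin m → E3 → ℝ),
        (∀ j, Continuous (π j) ∧ HasCompactSupport (π j) ∧ (∀ y, 0 ≤ π j y) ∧
          (∫ y, π j y) = 1 ∧ ∀ y, π j y ≠ 0 → Metric.closedBall y 1 ⊆ cube (ℓ + 16)) →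
        Eb (fun t => cnt sp t + (Finset.univ.filter (fun j => s j = t)).card) ≤
          E1 + (∑ j, (D.charge (s j) * (∫ y, π j y * phim D sp (trW D (dv 8) Ψ) y) +
            Ca * (1 + ∫ y, π j y * kkm D (trW D (dv 8) Ψ) y))) +
          1 / 2 * DD (fun y => ∑ j, D.charge (s j) * π j y)
            (fun y => ∑ j, D.charge (s j) * π j y) +
          Ca * ∫ x, ∫ y, (∑ j, π j x) * (∑ j, π j y) * kd (x - y)) →
      (∃ K : ℕ, (K : ℝ) ≤ C * ℓ ^ 2 ∧
        Eb (fun s => cnt sp s + (if s = sP then K * q else 0) + (if s = sN then K * p else 0)) ≤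
          E1 - U * ℓ ^ 2 + C * ℓ ^ 2) ∧
      (∃ K : ℕ, (K : ℝ) ≤ C * ℓ ^ 2 ∧
        Eb (fun s => cnt sp s + (if s = sP then K * q else 0) + (if s = sN then K * p else 0)) ≤
          E1 + U * ℓ ^ 2 + C * ℓ ^ 2) := by
  obtain ⟨C1, ℓ1, hC1, hℓ1, h1⟩ := lv_coreX sP sN p q hp hq 1 (Or.inl rfl) (max z 0) ρ C0 Ca
    (le_max_right _ _) hρ hC0 hCa
  obtain ⟨C2, ℓ2, hC2, hℓ2, h2⟩ := lv_coreX sN sP q p hq hp (-1) (Or.inr rfl) (max z 0) ρ C0 Ca
    (le_max_right _ _) hρ hC0 hCa
  refine ⟨max C1 C2, max ℓ1 ℓ2, lt_of_lt_of_le hC1 (le_max_left _ _),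
    lt_of_lt_of_le hℓ1 (le_max_left _ _), ?_⟩
  intro D hz hcP hcN I _ _ sp ℓ hℓ hcard hneu Ψ hΨ hn U hU Eb E1 hav
  have hz' : ∀ s, |D.charge s| ≤ max z 0 := fun s => (hz s).trans (le_max_left _ _)
  have hsq : 0 ≤ ℓ ^ 2 := sq_nonneg ℓ
  have m1 := mul_le_mul_of_nonneg_right (le_max_left C1 C2) hsq
  have m2 := mul_le_mul_of_nonneg_right (le_max_right C1 C2) hsq
  constructor
  · obtain ⟨K, hK, hE⟩ := h1 D hz' (by rw [one_mul]; exact hcP) (by rw [one_mul]; exact hcN)
      sp ℓ ((le_max_left _ _).trans hℓ) hcard hneu Ψ hΨ hn U hU Eb E1 hav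
    refine ⟨K, hK.trans m1, ?_⟩
    have e : (fun s => cnt sp s + (if s = sP then K * q else 0) + (if s = sN then K * p else 0)) =
        fun s => cnt sp s + ((if s = sP then K * q else 0) + (if s = sN then K * p else 0)) := by
      funext s
      ring
    rw [e]
    linarith
  · obtain ⟨K, hK, hE⟩ := h2 D hz' (by rw [neg_one_mul]; exact hcN)
      (by rw [neg_one_mul, neg_neg]; exact hcP)
      sp ℓ ((le_max_right _ _).trans hℓ) hcard hneu Ψ hΨ hn U hU Eb E1 hav
    refine ⟨K, hK.trans m2, ?_⟩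
    have e : (fun s => cnt sp s + (if s = sP then K * q else 0) + (if s = sN then K * p else 0)) =
        fun s => cnt sp s + ((if s = sN then K * p else 0) + (if s = sP then K * q else 0)) := by
      funext s
      ring
    rw [e]
    linarith

end Pool.Agent.Helper780_CP.RKT8
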