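import Pool.Agent.Helper780_CP.LLDefs2
import Pool.Agent.Helper780_CP.BnDefs
import Pool.Agent.Helper780_CP.RKT8

set_option autoImplicit false

open MeasureTheory
open scoped Topology

namespace Pool.Agent.Helper780_CP.RB34

open Pool.Agent.Helper780_CP
open Pool.Agent.Helper985.CP

open Pool.Agent.Helper780_CP Pool.Agent.Helper985.CP

open Pool.Agent.Helper780_CP.RVB (vb_props)
open Pool.Agent.Helper780_CP.RD1 (VV_cont VV_lin)
open Pool.Agent.Helper780_CP.RTR (tr_facts)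
open Pool.Agent.Helper780_CP.RLV1
open Pool.Agent.Helper780_CP.RLV2
open Pool.Agent.Helper780_CP.RPC (shell_pair)
open Pool.Agent.Helper780_CP.RKT8 (lv_chargesX)

theorem g_index {S : Type} [Fintype S] (n1 n2 n3 n4 : S → ℕ) (f1 f2 f3 f4 : E3 → ℝ) :
    ∃ (m : ℕ) (s : Fin m → S) (o : Fin m → Bool) (π : Fin m → E3 → ℝ),
      (∀ j, (o j = true ∧ (π j = f1 ∨ π j = f2)) ∨ (o j = false ∧ (π j = f3 ∨ π j = f4))) ∧
      ∀ F : S → Bool → (E3 → ℝ) → ℝ, ∑ j, F (s j) (o j) (π j) =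
        ∑ t, ((n1 t : ℝ) * F t true f1 + (n2 t : ℝ) * F t true f2 +
          (n3 t : ℝ) * F t false f3 + (n4 t : ℝ) * F t false f4) := by
  classical
  let ι := ((Σ t : S, Fin (n1 t)) ⊕ (Σ t : S, Fin (n2 t))) ⊕
    ((Σ t : S, Fin (n3 t)) ⊕ (Σ t : S, Fin (n4 t)))
  let s' : ι → S := Sum.elim (Sum.elim (fun i => i.1) (fun i => i.1))
    (Sum.elim (fun i => i.1) (fun i => i.1))
  let o' : ι → Bool := Sum.elim (Sum.elim (fun _ => true) (fun _ => true))
    (Sum.elim (fun _ => false) (fun _ => false))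
  let π' : ι → E3 → ℝ := Sum.elim (Sum.elim (fun _ => f1) (fun _ => f2))
    (Sum.elim (fun _ => f3) (fun _ => f4))
  let e : ι ≃ Fin (Fintype.card ι) := Fintype.equivFin ι
  refine ⟨Fintype.card ι, fun j => s' (e.symm j), fun j => o' (e.symm j),
    fun j => π' (e.symm j), ?_, ?_⟩
  · have key : ∀ i : ι, (o' i = true ∧ (π' i = f1 ∨ π' i = f2)) ∨
        (o' i = false ∧ (π' i = f3 ∨ π' i = f4)) := by
      rintro ((i | i) | (i | i))
      · exact Or.inl ⟨rfl, Or.inl rfl⟩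
      · exact Or.inl ⟨rfl, Or.inr rfl⟩
      · exact Or.inr ⟨rfl, Or.inl rfl⟩
      · exact Or.inr ⟨rfl, Or.inr rfl⟩
    exact fun j => key (e.symm j)
  · intro F
    rw [Equiv.sum_comp e.symm (fun i => F (s' i) (o' i) (π' i))]
    simp only [ι, Fintype.sum_sum_type, s', o', π', Sum.elim_inl, Sum.elim_inr,
      Fintype.sum_sigma, Finset.sum_const, Finset.card_univ, Fintype.card_fin, nsmul_eq_mul]
    simp only [Finset.sum_add_distrib]
    ring

theorem g_pos (n : ℕ) (g : ℕ) (c : ℝ) :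
    ((if 0 ≤ c then g * n else 0 : ℕ) : ℝ) * c = (n : ℝ) * ((g : ℝ) * max c 0) := by
  by_cases h : 0 ≤ c
  · rw [if_pos h, max_eq_left h]
    push_cast
    ring
  · rw [if_neg h, max_eq_right (not_le.mp h).le]
    simp

theorem g_neg (n : ℕ) (g : ℕ) (c : ℝ) :
    ((if 0 ≤ c then 0 else g * n : ℕ) : ℝ) * c = -((n : ℝ) * ((g : ℝ) * max (-c) 0)) := by
  by_cases h : 0 ≤ c
  · rw [if_pos h, max_eq_right (by linarith)]
    simp
  · rw [if_neg h, max_eq_left (by linarith [not_le.mp h])]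
    push_cast
    ring

theorem g_split {S : Type} [Fintype S] (g : S → ℕ) (c : S → ℝ) (n : ℕ) :
    (∑ s, ((if 0 ≤ c s then g s * n else 0 : ℕ) : ℝ) * c s =
      (n : ℝ) * ∑ s, (g s : ℝ) * max (c s) 0) ∧
    (∑ s, ((if 0 ≤ c s then 0 else g s * n : ℕ) : ℝ) * c s =
      -((n : ℝ) * ∑ s, (g s : ℝ) * max (-(c s)) 0)) := by
  constructor
  · rw [Finset.mul_sum]
    exact Finset.sum_congr rfl fun s _ => g_pos n (g s) (c s)
  · rw [Finset.mul_sum, ← Finset.sum_neg_distrib]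
    exact Finset.sum_congr rfl fun s _ => g_neg n (g s) (c s)

set_option maxHeartbeats 4000000 in
theorem g_layers {S : Type} [Fintype S] [DecidableEq S] (g : S → ℕ) (c : S → ℝ) (P : ℝ)
    (hP : 0 < P) (hPp : ∑ s, (g s : ℝ) * max (c s) 0 = P)
    (hPn : ∑ s, (g s : ℝ) * max (-(c s)) 0 = P) :
    ∃ C ℓ0 : ℝ, 0 < C ∧ 0 < ℓ0 ∧ ∀ ℓ : ℝ, ℓ0 ≤ ℓ →
      ∃ (K m : ℕ) (s : Fin m → S) (o : Fin m → Bool) (π : Fin m → E3 → ℝ) (a : ℝ),
      -- number of particles
      (K : ℝ) ≤ C * ℓ ^ 2 ∧ (m : ℝ) ≤ C * ℓ ^ 2 ∧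
      (∀ t, (Finset.univ.filter (fun j => s j = t)).card = K * g t) ∧
      -- densities
      (∀ j, Continuous (π j) ∧ HasCompactSupport (π j) ∧ (∀ y, 0 ≤ π j y) ∧
        (∫ y, π j y) = 1 ∧ ∀ y, π j y ≠ 0 → ∀ k, 1 < y k ∧ y k < ℓ + 16 - 1) ∧
      -- outer and inner particles
      (∀ j, o j = true → ∀ y, π j y ≠ 0 → ¬ ∀ k, 6 ≤ y k ∧ y k ≤ ℓ + 16 - 6) ∧
      (∀ j, o j = false → ∀ y, π j y ≠ 0 → ∀ k, 10 < y k ∧ y k < ℓ + 16 - 10) ∧
      -- potential of the outer charges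
      (∀ x, (∀ k, 6 ≤ x k ∧ x k ≤ ℓ + 16 - 6) →
        |VV (fun y => ∑ j, if o j = true then c (s j) * π j y else 0) x - a| ≤ C / ℓ) ∧
      -- charge of the inner particles
      |(∑ j, if o j = false then c (s j) else 0) + ℓ ^ 2| ≤ C ∧
      -- energy and square integral
      DD (fun y => ∑ j, c (s j) * π j y) (fun y => ∑ j, c (s j) * π j y) ≤ C * ℓ ^ 2 ∧
      (∫ y, (∑ j, π j y) ^ 2) ≤ C * ℓ ^ 2 := by
  obtain ⟨C0, L0, hC0, hL0, hsh⟩ := shell_pair
  obtain ⟨A, hA⟩ : ∃ A : ℝ, A = ∑ s, (g s : ℝ) := ⟨_, rfl⟩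
  have hA0 : 0 < A := by
    have h0 : 0 ≤ A := by rw [hA]; exact Finset.sum_nonneg fun s _ => Nat.cast_nonneg _
    rcases h0.lt_or_eq with h | h
    · exact h
    · exfalso
      have h1 : ∀ s, (g s : ℝ) = 0 := by
        intro s
        have h2 := (Finset.sum_eq_zero_iff_of_nonneg (s := Finset.univ)
          (f := fun s => (g s : ℝ)) (fun s _ => Nat.cast_nonneg _)).1 (by rw [← hA, ← h])
        exact h2 s (Finset.mem_univ s)
      have h3 : P = 0 := by
        rw [← hPp]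
        exact Finset.sum_eq_zero fun s _ => by rw [h1 s, zero_mul]
      linarith
  obtain ⟨B, hB⟩ : ∃ B : ℝ, B = 2 * (1 + 2 * C0) / P + 2 := ⟨_, rfl⟩
  have hB0 : 0 < B := by rw [hB]; positivity
  refine ⟨(A + 1) * B + P + 4 * C0 + (A / P) ^ 2 * (400 * C0) + 1, L0 + P + 1, by positivity,
    by positivity, ?_⟩
  intro ℓ hℓ
  have hℓ1 : 1 ≤ ℓ := by linarith
  have hℓpq : P ≤ ℓ ^ 2 := by nlinarith
  obtain ⟨G, M, a, hG, hGc, hM, hMc, hG1, hM1, hGs, hMs, hVG, hE, hGG, hMM, hGa, hMa⟩ :=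
    hsh (ℓ + 16) (by linarith)
  -- the total charge `k`
  set n0 : ℕ := ⌈ℓ ^ 2 / P⌉₊ with hn0
  set k : ℝ := P * n0 with hkdef
  have hk1 : ℓ ^ 2 ≤ k := by
    have := Nat.le_ceil (ℓ ^ 2 / P)
    rw [div_le_iff₀ hP] at this
    rw [hkdef, hn0]
    linarith
  have hk2 : k ≤ ℓ ^ 2 + P := by
    have h1 := (Nat.ceil_lt_add_one (a := ℓ ^ 2 / P) (by positivity)).le
    have h2 : P * n0 ≤ P * (ℓ ^ 2 / P + 1) :=
      mul_le_mul_of_nonneg_left h1 hP.le
    have h3 : P * (ℓ ^ 2 / P + 1) = ℓ ^ 2 + P := by field_simp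
    rw [hkdef]
    linarith
  have hℓ2 : 1 ≤ ℓ ^ 2 := by nlinarith
  have hk0 : 0 < k := by linarith
  have hk3 : k ≤ 2 * ℓ ^ 2 := by linarith
  -- the two layers
  obtain ⟨hg1, -⟩ := layers_dens G hG hGc hG1 1 le_rfl
  obtain ⟨hm1, -⟩ := layers_dens M hM hMc hM1 1 le_rfl
  obtain ⟨N, t, ht1, ht2, htN, hN⟩ := layers_mult k (∫ x, |G x|) P hk0 hg1 hP
    (by linarith)
  obtain ⟨N', t', ht1', ht2', htN', hN'⟩ := layers_mult k (∫ x, |M x|) P hk0 hm1 hP
    (by linarith)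
  obtain ⟨-, ⟨hc1, hs1, hn1, hi1, hz1⟩, ⟨hc2, hs2, hn2, hi2, hz2⟩⟩ :=
    layers_dens G hG hGc hG1 t ht1
  obtain ⟨-, ⟨hc3, hs3, hn3, hi3, hz3⟩, ⟨hc4, hs4, hn4, hi4, hz4⟩⟩ :=
    layers_dens M hM hMc hM1 t' ht1'
  set γ := ∫ x, |G x| with hgdef
  set μ := ∫ x, |M x| with hμdef
  set f1 : E3 → ℝ := fun y => (G y + t * |G y|) / (1 + t * γ) with hf1
  set f2 : E3 → ℝ := fun y => |G y| / γ with hf2
  set f3 : E3 → ℝ := fun y => (M y + t' * |M y|) / (1 + t' * μ) with hf3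
  set f4 : E3 → ℝ := fun y => |M y| / μ with hf4
  obtain ⟨m, s, o, π, hcase, hsum⟩ := g_index
    (fun u => if 0 ≤ c u then g u * (n0 + N) else 0)
    (fun u => if 0 ≤ c u then 0 else g u * N)
    (fun u => if 0 ≤ c u then 0 else g u * (n0 + N'))
    (fun u => if 0 ≤ c u then g u * N' else 0) f1 f2 f3 f4
  have hgpos : 0 < 1 + t * γ := by nlinarith
  have hμpos : 0 < 1 + t' * μ := by nlinarith
  -- the four groups of charges
  obtain ⟨q1, -⟩ := g_split g c (n0 + N)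
  obtain ⟨-, q2⟩ := g_split g c N
  obtain ⟨-, q3⟩ := g_split g c (n0 + N')
  obtain ⟨q4, -⟩ := g_split g c N'
  rw [hPp] at q1 q4
  rw [hPn] at q2 q3
  have e1 : ∀ y, ((n0 + N : ℕ) : ℝ) * P * f1 y = k * (G y + t * |G y|) := by
    intro y
    have h1 : ((n0 + N : ℕ) : ℝ) * P = k * (1 + t * γ) := by
      push_cast
      rw [mul_add k, htN, hkdef]
      ring
    rw [h1, hf1]
    field_simp
  have e2 : ∀ y, (N : ℝ) * P * f2 y = k * (t * |G y|) := by
    intro y
    have h1 : (N : ℝ) * P = k * (t * γ) := by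
      rw [htN]
      ring
    have hg0 : γ ≠ 0 := by linarith
    rw [h1, hf2]
    field_simp
  have e3 : ∀ y, ((n0 + N' : ℕ) : ℝ) * P * f3 y = k * (M y + t' * |M y|) := by
    intro y
    have h1 : ((n0 + N' : ℕ) : ℝ) * P = k * (1 + t' * μ) := by
      push_cast
      rw [mul_add k, htN', hkdef]
      ring
    rw [h1, hf3]
    field_simp
  have e4 : ∀ y, (N' : ℝ) * P * f4 y = k * (t' * |M y|) := by
    intro y
    have h1 : (N' : ℝ) * P = k * (t' * μ) := by
      rw [htN']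
      ring
    have hg0 : μ ≠ 0 := by linarith
    rw [h1, hf4]
    field_simp
  have hK : ((n0 + N + N' : ℕ) : ℝ) ≤ B * ℓ ^ 2 := by
    have h0 : (n0 : ℝ) = k / P := by
      rw [hkdef]
      field_simp
    have h1 : k * γ / P ≤ k * C0 / P :=
      div_le_div_of_nonneg_right (mul_le_mul_of_nonneg_left hGa hk0.le) hP.le
    have h2 : k * μ / P ≤ k * C0 / P :=
      div_le_div_of_nonneg_right (mul_le_mul_of_nonneg_left hMa hk0.le) hP.le
    have h3 : k / P + k * C0 / P + k * C0 / P ≤ 2 * (1 + 2 * C0) / P * ℓ ^ 2 := by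
      have e : k / P + k * C0 / P + k * C0 / P = k * ((1 + 2 * C0) / P) := by ring
      rw [e]
      have h4 := mul_le_mul_of_nonneg_right hk3 (by positivity : 0 ≤ (1 + 2 * C0) / P)
      refine h4.trans (le_of_eq ?_)
      ring
    push_cast
    rw [hB, add_mul]
    linarith
  have hcountR : ∀ F : S → ℝ, ∑ j, F (s j) = ((n0 + N + N' : ℕ) : ℝ) * ∑ u, (g u : ℝ) * F u := by
    intro F
    rw [hsum (fun u _ _ => F u), Finset.mul_sum]
    refine Finset.sum_congr rfl fun u _ => ?_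
    by_cases h : 0 ≤ c u
    · simp only [if_pos h]
      push_cast
      ring
    · simp only [if_neg h]
      push_cast
      ring
  have hmK : (m : ℝ) = ((n0 + N + N' : ℕ) : ℝ) * A := by
    have h := hcountR (fun _ => 1)
    simp only [Finset.sum_const, Finset.card_univ, Fintype.card_fin, nsmul_eq_mul, mul_one] at h
    rw [h, hA]
  have hbig : ∀ x y w : ℝ, 0 ≤ x → 0 ≤ y → 0 ≤ w → x ≤ x + y + w := by
    intro x y w h1 h2 h3; linarith
  have hℓ20 : 0 ≤ ℓ ^ 2 := by positivity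
  have r1 : 0 ≤ A * B := by positivity
  have r2 : 0 ≤ (A / P) ^ 2 * (400 * C0) := by positivity
  have r3 : 0 ≤ 4 * C0 := by positivity
  refine ⟨n0 + N + N', m, s, o, π, k * a, ?_, ?_, ?_, ?_, ?_, ?_, ?_, ?_, ?_, ?_⟩
  · refine hK.trans (mul_le_mul_of_nonneg_right ?_ hℓ20)
    have : (A + 1) * B = A * B + B := by ring
    linarith
  · rw [hmK]
    have h1 := mul_le_mul_of_nonneg_right hK hA0.le
    refine h1.trans ?_
    have e : B * ℓ ^ 2 * A = (A * B) * ℓ ^ 2 := by ring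
    rw [e]
    refine mul_le_mul_of_nonneg_right ?_ hℓ20
    have : (A + 1) * B = A * B + B := by ring
    linarith
  · intro u
    have h := hcountR (fun v => if v = u then 1 else 0)
    have h2 : ((Finset.univ.filter (fun j => s j = u)).card : ℝ) =
        ∑ j, (if s j = u then (1 : ℝ) else 0) := by
      rw [Finset.sum_boole]
    have h3 : ((Finset.univ.filter (fun j => s j = u)).card : ℝ) =
        (((n0 + N + N') * g u : ℕ) : ℝ) := by
      rw [h2, h]
      simp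
    exact_mod_cast h3
  · intro j
    rcases hcase j with ⟨-, h | h⟩ | ⟨-, h | h⟩
    · rw [h]
      exact ⟨hc1, hs1, hn1, hi1, fun y hy => (hGs y (hz1 y hy)).1⟩
    · rw [h]
      exact ⟨hc2, hs2, hn2, hi2, fun y hy => (hGs y (hz2 y hy)).1⟩
    · rw [h]
      refine ⟨hc3, hs3, hn3, hi3, fun y hy k => ?_⟩
      have := (hMs y (hz3 y hy)).1 k
      exact ⟨by linarith [this.1], by linarith [this.2]⟩
    · rw [h]
      refine ⟨hc4, hs4, hn4, hi4, fun y hy k => ?_⟩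
      have := (hMs y (hz4 y hy)).1 k
      exact ⟨by linarith [this.1], by linarith [this.2]⟩
  · intro j hj y hy
    rcases hcase j with ⟨-, h | h⟩ | ⟨h0, -⟩
    · rw [h] at hy
      exact (hGs y (hz1 y hy)).2
    · rw [h] at hy
      exact (hGs y (hz2 y hy)).2
    · rw [h0] at hj
      exact absurd hj (by simp)
  · intro j hj y hy
    rcases hcase j with ⟨h0, -⟩ | ⟨-, h | h⟩
    · rw [h0] at hj
      exact absurd hj (by simp)
    · rw [h] at hy
      exact (hMs y (hz3 y hy)).1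
    · rw [h] at hy
      exact (hMs y (hz4 y hy)).1
  · intro x hx
    have h1 : (fun y => ∑ j, if o j = true then c (s j) * π j y else 0) = fun y => k * G y := by
      funext y
      rw [hsum (fun u o f => if o = true then c u * f y else 0)]
      simp only [if_true, Bool.false_eq_true, if_false, mul_zero, add_zero]
      rw [Finset.sum_add_distrib]
      simp only [← mul_assoc]
      rw [← Finset.sum_mul, ← Finset.sum_mul, q1, q2, e1, neg_mul, e2]
      ring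
    rw [h1, layers_VV, hVG x hx, sub_self, abs_zero]
    positivity
  · have h2 : (∑ j, if o j = false then c (s j) else 0) = -k := by
      rw [hsum (fun u o _ => if o = false then c u else 0)]
      simp only [if_true, Bool.true_eq_false, if_false, mul_zero, zero_add]
      rw [Finset.sum_add_distrib, q3, q4, hkdef]
      push_cast
      ring
    have h3 : 0 ≤ (A + 1) * B := by positivity
    rw [h2, abs_le]
    constructor
    · linarith
    · linarith
  · have h1 : (fun y => ∑ j, c (s j) * π j y) = fun y => k * (G y - M y) := by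
      funext y
      rw [hsum (fun u _ f => c u * f y)]
      rw [Finset.sum_add_distrib, Finset.sum_add_distrib, Finset.sum_add_distrib]
      simp only [← mul_assoc]
      rw [← Finset.sum_mul, ← Finset.sum_mul, ← Finset.sum_mul, ← Finset.sum_mul, q1, q2, q3, q4,
        e1, neg_mul, e2, neg_mul, e3, e4]
      ring
    rw [h1, layers_DD]
    have hL : 0 < ℓ + 16 := by linarith
    have h2 : k ^ 2 * DD (fun x => G x - M x) (fun x => G x - M x) ≤
        k ^ 2 * (C0 / (ℓ + 16) ^ 2) := mul_le_mul_of_nonneg_left hE (by positivity)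
    have h3 := layers_arith k ℓ C0 hk0 hk3 hℓ1 hC0
    refine (h2.trans h3).trans (mul_le_mul_of_nonneg_right ?_ hℓ20)
    have h4 : 0 ≤ (A + 1) * B := by positivity
    linarith
  · have hT : ∀ y, ((P / A) * ∑ j, π j y) ^ 2 ≤ 50 * k ^ 2 * (G y ^ 2 + M y ^ 2) := by
      intro y
      have h0 : 0 ≤ ∑ j, π j y := by
        refine Finset.sum_nonneg fun j _ => ?_
        rcases hcase j with ⟨-, h | h⟩ | ⟨-, h | h⟩ <;> rw [h]
        · exact hn1 y
        · exact hn2 y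
        · exact hn3 y
        · exact hn4 y
      have h1 : (P / A) * ∑ j, π j y ≤ k * (5 * |G y|) + k * (5 * |M y|) := by
        rw [hsum (fun _ _ f => f y)]
        have hle : (∑ u, (((if 0 ≤ c u then g u * (n0 + N) else 0 : ℕ) : ℝ) * f1 y +
            ((if 0 ≤ c u then 0 else g u * N : ℕ) : ℝ) * f2 y +
            ((if 0 ≤ c u then 0 else g u * (n0 + N') : ℕ) : ℝ) * f3 y +
            ((if 0 ≤ c u then g u * N' else 0 : ℕ) : ℝ) * f4 y)) ≤
            A * (((n0 + N : ℕ) : ℝ) * f1 y + (N : ℝ) * f2 y + ((n0 + N' : ℕ) : ℝ) * f3 y +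
              (N' : ℝ) * f4 y) := by
          rw [hA, Finset.sum_mul]
          refine Finset.sum_le_sum fun u _ => ?_
          have hg0 : (0 : ℝ) ≤ g u := Nat.cast_nonneg _
          have w1 : 0 ≤ (g u : ℝ) * (((n0 + N : ℕ) : ℝ) * f1 y) :=
            mul_nonneg hg0 (mul_nonneg (Nat.cast_nonneg _) (hn1 y))
          have w2 : 0 ≤ (g u : ℝ) * ((N : ℝ) * f2 y) :=
            mul_nonneg hg0 (mul_nonneg (Nat.cast_nonneg _) (hn2 y))
          have w3 : 0 ≤ (g u : ℝ) * (((n0 + N' : ℕ) : ℝ) * f3 y) :=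
            mul_nonneg hg0 (mul_nonneg (Nat.cast_nonneg _) (hn3 y))
          have w4 : 0 ≤ (g u : ℝ) * ((N' : ℝ) * f4 y) :=
            mul_nonneg hg0 (mul_nonneg (Nat.cast_nonneg _) (hn4 y))
          by_cases h : 0 ≤ c u
          · simp only [if_pos h]
            push_cast at w1 w2 w3 w4 ⊢
            linarith
          · simp only [if_neg h]
            push_cast at w1 w2 w3 w4 ⊢
            linarith
        have hle2 := mul_le_mul_of_nonneg_left hle (by positivity : 0 ≤ P / A)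
        refine hle2.trans ?_
        have e5 : P / A * (A * (((n0 + N : ℕ) : ℝ) * f1 y + (N : ℝ) * f2 y +
            ((n0 + N' : ℕ) : ℝ) * f3 y + (N' : ℝ) * f4 y)) =
            ((n0 + N : ℕ) : ℝ) * P * f1 y + (N : ℝ) * P * f2 y +
            ((n0 + N' : ℕ) : ℝ) * P * f3 y + (N' : ℝ) * P * f4 y := by
          field_simp
        rw [e5, e1, e2, e3, e4]
        have b1 := layers_abs k t (G y) hk0 ht2
        have b2 := layers_abs k t' (M y) hk0 ht2'
        linarith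
      exact layers_sq k (G y) (M y) _ (mul_nonneg (by positivity) h0) h1
    have h1 := layers_int G M (fun y => (P / A) * ∑ j, π j y) hG hGc hM hMc k ℓ C0 hk0 hk3 hℓ1 hC0
      hGG hMM hT
    simp only [mul_pow] at h1
    rw [integral_const_mul] at h1
    have h2 : (∫ y, (∑ j, π j y) ^ 2) = (A / P) ^ 2 * ((P / A) ^ 2 * ∫ y, (∑ j, π j y) ^ 2) := by
      field_simp
    rw [h2]
    have h3 := mul_le_mul_of_nonneg_left h1 (by positivity : 0 ≤ (A / P) ^ 2)
    refine h3.trans ?_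
    have e : (A / P) ^ 2 * (400 * C0 * ℓ ^ 2) = ((A / P) ^ 2 * (400 * C0)) * ℓ ^ 2 := by ring
    rw [e]
    refine mul_le_mul_of_nonneg_right ?_ hℓ20
    have h4 : 0 ≤ (A + 1) * B := by positivity
    linarith

set_option maxHeartbeats 4000000 in
theorem g_core {S : Type} [Fintype S] [DecidableEq S] (g : S → ℕ) (c : S → ℝ) (P : ℝ)
    (hP : 0 < P) (hPp : ∑ s, (g s : ℝ) * max (c s) 0 = P)
    (hPn : ∑ s, (g s : ℝ) * max (-(c s)) 0 = P) (ε : ℝ) (hε : ε = 1 ∨ ε = -1)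
    (z ρ C0 Ca : ℝ) (hz0 : 0 ≤ z) (hz1 : ∀ s, |c s| ≤ z) (hρ : 0 ≤ ρ)
    (hC0 : 0 ≤ C0) (hCa : 0 ≤ Ca) :
    ∃ C ℓ0 : ℝ, 0 < C ∧ 0 < ℓ0 ∧ ∀ (D : Species S), (∀ s, D.charge s = ε * c s) →
      ∀ {I : Type} [Fintype I] [DecidableEq I] (sp : I → S) (ℓ : ℝ),
      ℓ0 ≤ ℓ → (Fintype.card I : ℝ) ≤ ρ * ℓ ^ 3 → (∑ i, D.charge (sp i) = 0) →
      ∀ Ψ : Wave D I, IsState D sp ℓ Ψ → nrm2 D Ψ = 1 → ∀ U : ℝ,
      (∀ y, Metric.closedBall y 2 ⊆ cube ℓ → |phim D sp Ψ y - U| ≤ C0 ∧ kkm D Ψ y ≤ C0) →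
      ∀ (Eb : (S → ℕ) → ℝ) (E1 : ℝ),
      (∀ (m : ℕ) (s : Fin m → S) (π : Fin m → E3 → ℝ),
        (∀ j, Continuous (π j) ∧ HasCompactSupport (π j) ∧ (∀ y, 0 ≤ π j y) ∧
          (∫ y, π j y) = 1 ∧ ∀ y, π j y ≠ 0 → Metric.closedBall y 1 ⊆ cube (ℓ + 16)) →
        Eb (fun t => cnt sp t + (Finset.univ.filter (fun j => s j = t)).card) ≤
          E1 + (∑ j, (D.charge (s j) * (∫ y, π j y * phim D sp (trW D (dv 8) Ψ) y) +
            Ca * (1 + ∫ y, π j y * kkm D (trW D (dv 8) Ψ) y))) +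
          1 / 2 * DD (fun y => ∑ j, D.charge (s j) * π j y)
            (fun y => ∑ j, D.charge (s j) * π j y) +
          Ca * ∫ x, ∫ y, (∑ j, π j x) * (∑ j, π j y) * kd (x - y)) →
      ∃ K : ℕ, (K : ℝ) ≤ C * ℓ ^ 2 ∧
        Eb (fun s => cnt sp s + K * g s) ≤ E1 - ε * (U * ℓ ^ 2) + C * ℓ ^ 2 := by
  obtain ⟨Cl, ℓl, hCl, hℓl, hlay⟩ := g_layers g c P hP hPp hPn
  obtain ⟨Cv, hCv, hvb⟩ := vb_props.2
  obtain ⟨κ, hκ⟩ : ∃ κ : ℝ, κ = ∫ w, kd w := ⟨_, rfl⟩
  have hκ0 : 0 ≤ κ := by rw [hκ]; exact integral_nonneg lv_kd_nonneg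
  have hεne : ε ≠ 0 := by rcases hε with rfl | rfl <;> norm_num
  refine ⟨Cl + ρ * z * Cl + (C0 + ρ * z * Cv) * Cl + Cl * (z * C0) + Cl * (Ca * (1 + C0)) +
    Cl + Ca * (κ * Cl), max ℓl 9, by positivity, lt_of_lt_of_le (by norm_num) (le_max_right _ _), ?_⟩
  intro D hcD I _ _ sp ℓ hℓ hcard hneu Ψ hΨ hn U hU Eb E1 hav
  have hz : ∀ s, |D.charge s| ≤ z := by
    intro s
    rw [hcD, abs_mul]
    rcases hε with rfl | rfl
    · rw [abs_one, one_mul]; exact hz1 s
    · rw [abs_neg, abs_one, one_mul]; exact hz1 s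
  have hℓ1 : ℓl ≤ ℓ := (le_max_left _ _).trans hℓ
  have hℓ5 : 9 ≤ ℓ := (le_max_right _ _).trans hℓ
  have hℓ0 : 0 < ℓ := by linarith
  obtain ⟨K, m, s, o, π, a, hK, hm, hcount, hπ, hout, hin, hVV, hch, hDD, hsq⟩ := hlay ℓ hℓ1
  obtain ⟨v, hv⟩ : ∃ v : Fin m → ℝ, v = fun j => c (s j) := ⟨_, rfl⟩
  have hvj : ∀ j, c (s j) = v j := fun j => by rw [hv]
  simp only [hvj] at hVV hch hDD
  have hvabs : ∀ j, |v j| ≤ z := by
    intro j
    rw [← hvj]
    exact hz1 _
  have hcs : ∀ j, D.charge (s j) = ε * v j := by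
    intro j
    rw [hcD, hvj]
  obtain ⟨t1, t2, t3, -, t5, t6, t7⟩ := tr_facts D sp ℓ 8 (by norm_num) Ψ hΨ
  obtain ⟨Ψ', hΨ'⟩ : ∃ Ψ' : Wave D I, Ψ' = trW D (dv 8) Ψ := ⟨_, rfl⟩
  rw [← hΨ'] at t1 t2 t3 t5 t6 t7
  have hst : IsState D sp (ℓ + 16) Ψ' := by
    have e : ℓ + 2 * 8 = ℓ + 16 := by ring
    rwa [e] at t1
  have hn' : nrm2 D Ψ' = 1 := t2.trans hn
  have hdv : ∀ (y : E3) (k : Fin 3), (y - dv 8) k = y k - 8 := by
    intro y k
    simp [dv]
  have hinb : ∀ y : E3, (∀ k, 10 < y k ∧ y k < ℓ + 16 - 10) →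
      Metric.closedBall (y - dv 8) 2 ⊆ cube ℓ := by
    intro y hy
    refine lv_ball2 ℓ _ fun k => ?_
    rw [hdv]
    have := hy k
    constructor
    · linarith [this.1]
    · linarith [this.2]
  -- the short range term
  have hkk : ∀ j y, π j y ≠ 0 → kkm D Ψ' y ≤ C0 := by
    intro j y hy
    by_cases ho : o j = true
    · have h1 := hout j ho y hy
      push Not at h1
      obtain ⟨k, hk⟩ := h1
      have h2 : |kkm D Ψ' y| ≤ 0 * nrm2 D Ψ' := by
        refine lv_wm_le D sp (ℓ + 16) Ψ' hst _ 0 fun τ x hx => ?_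
        have h3 : ∑ i, kk (x i - y) = 0 := by
          refine Finset.sum_eq_zero fun i _ => lv_kk_far _ ?_
          have h4 := lv_norm_apply (x i - y) k
          have h5 : (x i - y) k = x i k - y k := rfl
          have h6 := t7 τ x hx i k
          rw [h5] at h4
          refine le_trans ?_ h4
          by_cases h7 : 6 ≤ y k
          · have h8 := hk h7
            rw [abs_sub_comm]
            refine le_trans ?_ (le_abs_self _)
            linarith [h6.2]
          · refine le_trans ?_ (le_abs_self _)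
            linarith [h6.1]
        rw [h3, abs_zero]
      rw [zero_mul] at h2
      linarith [le_abs_self (kkm D Ψ' y)]
    · have ho' : o j = false := by simpa using ho
      rw [t6]
      exact (hU _ (hinb y (hin j ho' y hy))).2
  have hπi : ∀ j, Integrable (π j) := fun j =>
    (hπ j).1.integrable_of_hasCompactSupport (hπ j).2.1
  have hπb : ∀ j, ∃ B, ∀ y, |π j y| ≤ B := by
    intro j
    obtain ⟨B, hB⟩ := (hπ j).2.1.exists_bound_of_continuous (hπ j).1
    exact ⟨B, fun y => by rw [← Real.norm_eq_abs]; exact hB y⟩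
  have hkkint : ∀ j, ∫ y, π j y * kkm D Ψ' y ≤ C0 := by
    intro j
    have e2 : C0 = ∫ y, π j y * C0 := by rw [integral_mul_const, (hπ j).2.2.2.1, one_mul]
    rw [e2]
    refine integral_mono_of_nonneg (Filter.Eventually.of_forall fun y =>
      mul_nonneg ((hπ j).2.2.1 y) (lv_kkm_nonneg D Ψ' y)) ((hπi j).mul_const C0)
      (Filter.Eventually.of_forall fun y => ?_)
    by_cases h0 : π j y = 0
    · simp only [h0, zero_mul, le_refl]
    · exact mul_le_mul_of_nonneg_left (hkk j y h0) ((hπ j).2.2.1 y)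
  -- the inner particles
  have hPi : ∀ j, Integrable (fun y => π j y * phim D sp Ψ' y) := by
    intro j
    obtain ⟨B, hB⟩ := hπb j
    exact (lv_fub D sp (ℓ + 16) Ψ' hst (π j) (hπ j).1.measurable B hB (hπi j)).1
  obtain ⟨Q, hQ⟩ : ∃ Q : Fin m → ℝ, Q = fun j => ∫ y, π j y * phim D sp Ψ' y := ⟨_, rfl⟩
  have hPin : ∀ j, o j = false → |Q j - U| ≤ C0 := by
    intro j ho
    have e : Q j - U = ∫ y, (π j y * phim D sp Ψ' y - π j y * U) := by
      rw [integral_sub (hPi j) ((hπi j).mul_const U), integral_mul_const, (hπ j).2.2.2.1, one_mul, hQ]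
    rw [e, ← Real.norm_eq_abs]
    have e2 : C0 = ∫ y, π j y * C0 := by rw [integral_mul_const, (hπ j).2.2.2.1, one_mul]
    rw [e2]
    refine norm_integral_le_of_norm_le ((hπi j).mul_const C0)
      (Filter.Eventually.of_forall fun y => ?_)
    rw [← mul_sub, norm_mul, Real.norm_of_nonneg ((hπ j).2.2.1 y)]
    by_cases h0 : π j y = 0
    · simp only [h0, zero_mul, le_refl]
    · refine mul_le_mul_of_nonneg_left ?_ ((hπ j).2.2.1 y)
      rw [t5, Real.norm_eq_abs]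
      exact (hU _ (hinb y (hin j ho y h0))).1
  -- the outer particles
  obtain ⟨R, hR⟩ : ∃ R : E3 → ℝ, R = fun y => ∑ j, if o j = true then v j * π j y else 0 :=
    ⟨_, rfl⟩
  rw [← hR] at hVV
  have hRc : Continuous R := by
    rw [hR]
    refine continuous_finsetSum _ fun j _ => ?_
    by_cases ho : o j = true
    · simp only [ho, if_true]
      exact continuous_const.mul (hπ j).1
    · simp only [ho]
      exact continuous_const
  have hRi : Integrable R := by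
    rw [hR]
    refine integrable_finsetSum _ fun j _ => ?_
    by_cases ho : o j = true
    · simp only [ho, if_true]
      exact (hπi j).const_mul _
    · simp only [ho]
      simp
  choose Bπ hBπ using hπb
  have hBπ0 : ∀ j, 0 ≤ Bπ j := fun j => (abs_nonneg _).trans (hBπ j 0)
  have hRB : ∀ y, |R y| ≤ ∑ j, z * Bπ j := by
    intro y
    rw [hR]
    refine (Finset.abs_sum_le_sum_abs _ _).trans (Finset.sum_le_sum fun j _ => ?_)
    by_cases ho : o j = true
    · simp only [ho, if_true]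
      rw [abs_mul]
      exact mul_le_mul (hvabs j) (hBπ j y) (abs_nonneg _) hz0
    · simp only [ho]
      have := hBπ0 j
      simp only [Bool.false_eq_true, if_false, abs_zero]
      positivity
  have hRint : ∫ y, R y * phim D sp Ψ' y = ∑ j, if o j = true then v j * Q j else 0 := by
    have e : ∀ y, R y * phim D sp Ψ' y =
        ∑ j, (if o j = true then v j else 0) * (π j y * phim D sp Ψ' y) := by
      intro y
      rw [hR]
      simp only
      rw [Finset.sum_mul]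
      refine Finset.sum_congr rfl fun j _ => ?_
      split_ifs <;> ring
    simp only [e]
    rw [integral_finsetSum _ fun j _ => (hPi j).const_mul _]
    refine Finset.sum_congr rfl fun j _ => ?_
    rw [integral_const_mul, hQ]
    split_ifs <;> ring
  have hNz : (Fintype.card I : ℝ) * z / ℓ ≤ ρ * z * ℓ ^ 2 := by
    rw [div_le_iff₀ hℓ0]
    have := mul_le_mul_of_nonneg_right hcard hz0
    calc (Fintype.card I : ℝ) * z ≤ ρ * ℓ ^ 3 * z := this
      _ = ρ * z * ℓ ^ 2 * ℓ := by ring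
  have houter : |∑ j, if o j = true then v j * Q j else 0| ≤ ρ * z * Cl * ℓ ^ 2 := by
    rw [← hRint, (lv_fub D sp (ℓ + 16) Ψ' hst R hRc.measurable _ hRB hRi).2]
    have h1 := lv_wm_le D sp (ℓ + 16) Ψ' hst (fun x => ∑ i, D.charge (sp i) * VV R (x i))
      ((Fintype.card I : ℝ) * z * (Cl / ℓ)) (fun τ x hx => by
        have e : ∑ i, D.charge (sp i) * VV R (x i) = ∑ i, D.charge (sp i) * (VV R (x i) - a) := by
          simp only [mul_sub, Finset.sum_sub_distrib]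
          rw [← Finset.sum_mul, hneu]
          ring
        rw [e]
        refine lv_chargesX D z hz sp _ (Cl / ℓ) (by positivity) fun i => ?_
        refine hVV (x i) fun k => ?_
        have := t7 τ x hx i k
        constructor
        · linarith [this.1]
        · linarith [this.2])
    rw [hn', mul_one] at h1
    refine h1.trans ?_
    calc (Fintype.card I : ℝ) * z * (Cl / ℓ) = ((Fintype.card I : ℝ) * z / ℓ) * Cl := by ring
      _ ≤ (ρ * z * ℓ ^ 2) * Cl := mul_le_mul_of_nonneg_right hNz hCl.le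
      _ = ρ * z * Cl * ℓ ^ 2 := by ring
  -- the level
  have hUb : |U| ≤ C0 + ρ * z * Cv * ℓ ^ 2 := by
    refine lv_level D sp ℓ hℓ5 Ψ hΨ hn U C0 _ (fun y hy => (hU y hy).1) fun x => ?_
    have h1 := lv_chargesX D z hz sp (fun i => vb ℓ (x i)) (Cv / ℓ) (by positivity) (fun i => by
      obtain ⟨h2, h3⟩ := hvb ℓ (x i) hℓ0
      rw [abs_of_nonneg h2]
      exact h3)
    refine h1.trans ?_
    calc (Fintype.card I : ℝ) * z * (Cv / ℓ) = ((Fintype.card I : ℝ) * z / ℓ) * Cv := by ring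
      _ ≤ (ρ * z * ℓ ^ 2) * Cv := mul_le_mul_of_nonneg_right hNz hCv.le
      _ = ρ * z * Cv * ℓ ^ 2 := by ring
  have hℓsq : 1 ≤ ℓ ^ 2 := by nlinarith
  have hUb2 : |U| ≤ (C0 + ρ * z * Cv) * ℓ ^ 2 := by
    refine hUb.trans ?_
    have : C0 ≤ C0 * ℓ ^ 2 := le_mul_of_one_le_right hC0 hℓsq
    linarith
  -- the linear term
  have hinner : |∑ j, if o j = false then v j * (Q j - U) else 0| ≤ m * (z * C0) := by
    refine (Finset.abs_sum_le_sum_abs _ _).trans ?_
    have h1 : ∀ j ∈ Finset.univ, |if o j = false then v j * (Q j - U) else 0| ≤ z * C0 := by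
      intro j _
      by_cases ho : o j = false
      · rw [if_pos ho, abs_mul]
        exact mul_le_mul (hvabs j) (hPin j ho) (abs_nonneg _) hz0
      · rw [if_neg ho, abs_zero]
        positivity
    refine (Finset.sum_le_sum h1).trans (le_of_eq ?_)
    rw [Finset.sum_const, Finset.card_univ, Fintype.card_fin, nsmul_eq_mul]
  have hsplit : ∑ j, v j * Q j = (∑ j, if o j = true then v j * Q j else 0) +
      (∑ j, if o j = false then v j * (Q j - U) else 0) +
      (U * ((∑ j, if o j = false then v j else 0) + ℓ ^ 2) - U * ℓ ^ 2) := by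
    have : U * ((∑ j, if o j = false then v j else 0) + ℓ ^ 2) - U * ℓ ^ 2 =
        ∑ j, if o j = false then U * v j else 0 := by
      rw [mul_add, add_sub_cancel_right, Finset.mul_sum]
      refine Finset.sum_congr rfl fun j _ => ?_
      split_ifs <;> ring
    rw [this, ← Finset.sum_add_distrib, ← Finset.sum_add_distrib]
    refine Finset.sum_congr rfl fun j _ => ?_
    cases o j
    · simp only [Bool.false_eq_true, if_false, if_true]
      ring
    · simp only [if_true, Bool.true_eq_false, if_false]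
      ring
  have hεabs : ∀ x : ℝ, ε * x ≤ |x| := by
    intro x
    rcases hε with rfl | rfl
    · rw [one_mul]; exact le_abs_self x
    · rw [neg_one_mul]; exact neg_le_abs x
  have hlin : ∑ j, D.charge (s j) * Q j ≤ -(ε * (U * ℓ ^ 2)) + ρ * z * Cl * ℓ ^ 2 +
      m * (z * C0) + |U| * Cl := by
    have e : ∑ j, D.charge (s j) * Q j = ε * ∑ j, v j * Q j := by
      rw [Finset.mul_sum]
      refine Finset.sum_congr rfl fun j _ => ?_
      rw [hcs]
      ring
    rw [e, hsplit]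
    have a1 := (hεabs _).trans houter
    have a2 := (hεabs _).trans hinner
    have a3 := hεabs (U * ((∑ j, if o j = false then v j else 0) + ℓ ^ 2))
    rw [abs_mul] at a3
    have a4 := mul_le_mul_of_nonneg_left hch (abs_nonneg U)
    have e3 : ∀ x y w u : ℝ, ε * (x + y + (w - u)) = ε * x + ε * y + ε * w - ε * u := by
      intro x y w u; ring
    rw [e3]
    linarith
  -- the insertion
  have hmain := hav m s π
    (fun j => ⟨(hπ j).1, (hπ j).2.1, (hπ j).2.2.1, (hπ j).2.2.2.1, fun y hy =>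
      lv_ball (ℓ + 16) y ((hπ j).2.2.2.2 y hy)⟩)
  rw [← hΨ'] at hmain
  simp only [hcount] at hmain
  refine ⟨K, ?_, ?_⟩
  · refine hK.trans ?_
    have h1 : 0 ≤ ρ * z * Cl + (C0 + ρ * z * Cv) * Cl + Cl * (z * C0) +
      Cl * (Ca * (1 + C0)) + Cl + Ca * (κ * Cl) := by positivity
    exact mul_le_mul_of_nonneg_right (by linarith) (sq_nonneg ℓ)
  refine hmain.trans ?_
  have b1 : ∑ j, (D.charge (s j) * (∫ y, π j y * phim D sp Ψ' y) +
      Ca * (1 + ∫ y, π j y * kkm D Ψ' y)) ≤ (∑ j, D.charge (s j) * Q j) + m * (Ca * (1 + C0)) := by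
    rw [Finset.sum_add_distrib]
    have h1 : ∑ j : Fin m, Ca * (1 + ∫ y, π j y * kkm D Ψ' y) ≤ m * (Ca * (1 + C0)) := by
      have h2 : ∀ j ∈ Finset.univ, Ca * (1 + ∫ y, π j y * kkm D Ψ' y) ≤ Ca * (1 + C0) := by
        intro j _
        refine mul_le_mul_of_nonneg_left ?_ hCa
        linarith [hkkint j]
      refine (Finset.sum_le_sum h2).trans (le_of_eq ?_)
      rw [Finset.sum_const, Finset.card_univ, Fintype.card_fin, nsmul_eq_mul]
    rw [hQ]
    simp only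
    linarith
  have b2 : DD (fun y => ∑ j, D.charge (s j) * π j y) (fun y => ∑ j, D.charge (s j) * π j y) ≤
      Cl * ℓ ^ 2 := by
    have e : (fun y => ∑ j, D.charge (s j) * π j y) = fun y => ε * ∑ j, v j * π j y := by
      funext y
      rw [Finset.mul_sum]
      refine Finset.sum_congr rfl fun j _ => ?_
      rw [hcs]
      ring
    rw [e, lv_DD_smul (fun y => ∑ j, v j * π j y) ε hε]
    exact hDD
  have b3 : ∫ x, ∫ y, (∑ j, π j x) * (∑ j, π j y) * kd (x - y) ≤ κ * (Cl * ℓ ^ 2) := by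
    have hSi : Integrable (fun x => ∑ j, π j x) := integrable_finsetSum _ fun j _ => hπi j
    have hSc : Continuous (fun x => ∑ j, π j x) := continuous_finsetSum _ fun j _ => (hπ j).1
    have hS0 : ∀ x, 0 ≤ ∑ j, π j x := fun x => Finset.sum_nonneg fun j _ => (hπ j).2.2.1 x
    have hSB : ∀ x, ∑ j, π j x ≤ ∑ j, Bπ j := fun x =>
      Finset.sum_le_sum fun j _ => (le_abs_self _).trans (hBπ j x)
    have hS2 : Integrable (fun x => (∑ j, π j x) ^ 2) := by
      refine (hSi.const_mul (∑ j, Bπ j)).mono' (hSc.pow 2).aestronglyMeasurable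
        (Filter.Eventually.of_forall fun x => ?_)
      rw [Real.norm_of_nonneg (sq_nonneg _), sq]
      exact mul_le_mul_of_nonneg_right (hSB x) (hS0 x)
    refine (lv_schur (fun x => ∑ j, π j x) hS2 hS0).trans ?_
    rw [← hκ]
    exact mul_le_mul_of_nonneg_left hsq hκ0
  have b4 : |U| * Cl ≤ (C0 + ρ * z * Cv) * Cl * ℓ ^ 2 := by
    have := mul_le_mul_of_nonneg_right hUb2 hCl.le
    linarith
  have b5 : (m : ℝ) * (z * C0) ≤ Cl * (z * C0) * ℓ ^ 2 := by
    have := mul_le_mul_of_nonneg_right hm (by positivity : (0 : ℝ) ≤ z * C0)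
    linarith
  have b6 : (m : ℝ) * (Ca * (1 + C0)) ≤ Cl * (Ca * (1 + C0)) * ℓ ^ 2 := by
    have := mul_le_mul_of_nonneg_right hm (by positivity : (0 : ℝ) ≤ Ca * (1 + C0))
    linarith
  have b7 := mul_le_mul_of_nonneg_left b3 hCa
  have b8 : 0 ≤ Cl * ℓ ^ 2 := by positivity
  have b9 : (Cl + ρ * z * Cl + (C0 + ρ * z * Cv) * Cl + Cl * (z * C0) +
      Cl * (Ca * (1 + C0)) + Cl + Ca * (κ * Cl)) * ℓ ^ 2 = Cl * ℓ ^ 2 + ρ * z * Cl * ℓ ^ 2 +
      (C0 + ρ * z * Cv) * Cl * ℓ ^ 2 + Cl * (z * C0) * ℓ ^ 2 +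
      Cl * (Ca * (1 + C0)) * ℓ ^ 2 + Cl * ℓ ^ 2 + Ca * (κ * (Cl * ℓ ^ 2)) := by ring
  rw [b9]
  linarith

theorem g_max_abs (x : ℝ) : max x 0 - max (-x) 0 = x := by
  rcases le_total 0 x with h | h
  · rw [max_eq_left h, max_eq_right (by linarith)]; ring
  · rw [max_eq_right h, max_eq_left (by linarith)]; ring

/-- TARGET -/
theorem level_abs_g {S : Type} [Fintype S] [DecidableEq S] (g : S → ℕ) (c : S → ℝ)
    (hg : ∑ s, (g s : ℝ) * c s = 0) (hg1 : ∃ s, g s ≠ 0 ∧ 0 < c s) (ρ C0 Ca : ℝ) (hρ : 0 ≤ ρ)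
    (hC0 : 0 ≤ C0) (hCa : 0 ≤ Ca) :
    ∃ C ℓ0 : ℝ, 0 < C ∧ 0 < ℓ0 ∧ ∀ (D : Species S), (∀ s, D.charge s = c s) →
      ∀ {I : Type} [Fintype I] [DecidableEq I] (sp : I → S) (ℓ : ℝ),
      ℓ0 ≤ ℓ → (Fintype.card I : ℝ) ≤ ρ * ℓ ^ 3 → (∑ i, D.charge (sp i) = 0) →
      ∀ Ψ : Wave D I, IsState D sp ℓ Ψ → nrm2 D Ψ = 1 → ∀ U : ℝ,
      (∀ y, Metric.closedBall y 2 ⊆ cube ℓ → |phim D sp Ψ y - U| ≤ C0 ∧ kkm D Ψ y ≤ C0) →
      ∀ (Eb : (S → ℕ) → ℝ) (E1 : ℝ),
      (∀ (m : ℕ) (s : Fin m → S) (π : Fin m → E3 → ℝ),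
        (∀ j, Continuous (π j) ∧ HasCompactSupport (π j) ∧ (∀ y, 0 ≤ π j y) ∧
          (∫ y, π j y) = 1 ∧ ∀ y, π j y ≠ 0 → Metric.closedBall y 1 ⊆ cube (ℓ + 16)) →
        Eb (fun t => cnt sp t + (Finset.univ.filter (fun j => s j = t)).card) ≤
          E1 + (∑ j, (D.charge (s j) * (∫ y, π j y * phim D sp (trW D (dv 8) Ψ) y) +
            Ca * (1 + ∫ y, π j y * kkm D (trW D (dv 8) Ψ) y))) +
          1 / 2 * DD (fun y => ∑ j, D.charge (s j) * π j y)
            (fun y => ∑ j, D.charge (s j) * π j y) +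
          Ca * ∫ x, ∫ y, (∑ j, π j x) * (∑ j, π j y) * kd (x - y)) →
      (∃ K : ℕ, (K : ℝ) ≤ C * ℓ ^ 2 ∧ Eb (fun s => cnt sp s + K * g s) ≤
          E1 - U * ℓ ^ 2 + C * ℓ ^ 2) ∧
      (∃ K : ℕ, (K : ℝ) ≤ C * ℓ ^ 2 ∧ Eb (fun s => cnt sp s + K * g s) ≤
          E1 + U * ℓ ^ 2 + C * ℓ ^ 2) := by
  obtain ⟨P, hPp⟩ : ∃ P : ℝ, ∑ s, (g s : ℝ) * max (c s) 0 = P := ⟨_, rfl⟩
  have hPn : ∑ s, (g s : ℝ) * max (-(c s)) 0 = P := by
    have h : (∑ s, (g s : ℝ) * max (c s) 0) - ∑ s, (g s : ℝ) * max (-(c s)) 0 = 0 := by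
      refine Eq.trans ?_ hg
      rw [← Finset.sum_sub_distrib]
      refine Finset.sum_congr rfl fun s _ => ?_
      rw [← mul_sub, g_max_abs]
    linarith
  have hP : 0 < P := by
    obtain ⟨s0, h1, h2⟩ := hg1
    rw [← hPp]
    refine Finset.sum_pos' (fun s _ => mul_nonneg (Nat.cast_nonneg _) (le_max_right _ _))
      ⟨s0, Finset.mem_univ _, ?_⟩
    exact mul_pos (Nat.cast_pos.mpr (Nat.pos_of_ne_zero h1)) (lt_of_lt_of_le h2 (le_max_left _ _))
  obtain ⟨z, hz⟩ : ∃ z : ℝ, z = ∑ s, |c s| := ⟨_, rfl⟩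
  have hz0 : 0 ≤ z := by rw [hz]; exact Finset.sum_nonneg fun s _ => abs_nonneg _
  have hz1 : ∀ s, |c s| ≤ z := by
    intro s
    rw [hz]
    exact Finset.single_le_sum (f := fun s => |c s|) (fun s _ => abs_nonneg _)
      (Finset.mem_univ s)
  obtain ⟨C1, ℓ1, hC1, hℓ1, h1⟩ := g_core g c P hP hPp hPn 1 (Or.inl rfl) z ρ C0 Ca hz0 hz1
    hρ hC0 hCa
  obtain ⟨C2, ℓ2, hC2, hℓ2, h2⟩ := g_core g (fun s => -(c s)) P hP hPn
    (by simpa only [neg_neg] using hPp) (-1) (Or.inr rfl) z ρ C0 Ca hz0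
    (fun s => by rw [abs_neg]; exact hz1 s) hρ hC0 hCa
  refine ⟨max C1 C2, max ℓ1 ℓ2, lt_of_lt_of_le hC1 (le_max_left _ _),
    lt_of_lt_of_le hℓ1 (le_max_left _ _), ?_⟩
  intro D hcD I _ _ sp ℓ hℓ hcard hneu Ψ hΨ hn U hU Eb E1 hav
  have hsq : 0 ≤ ℓ ^ 2 := sq_nonneg ℓ
  have m1 := mul_le_mul_of_nonneg_right (le_max_left C1 C2) hsq
  have m2 := mul_le_mul_of_nonneg_right (le_max_right C1 C2) hsq
  constructor
  · obtain ⟨K, hK, hE⟩ := h1 D (fun s => by rw [one_mul]; exact hcD s)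
      sp ℓ ((le_max_left _ _).trans hℓ) hcard hneu Ψ hΨ hn U hU Eb E1 hav
    refine ⟨K, hK.trans m1, ?_⟩
    linarith
  · obtain ⟨K, hK, hE⟩ := h2 D (fun s => by rw [hcD]; ring)
      sp ℓ ((le_max_right _ _).trans hℓ) hcard hneu Ψ hΨ hn U hU Eb E1 hav
    refine ⟨K, hK.trans m2, ?_⟩
    linarith

end Pool.Agent.Helper780_CP.RB34
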