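import Pool.Agent.Helper780_CP.LLDefs2
import Pool.Agent.Helper780_CP.BnDefs
import Pool.Agent.Helper780_CP.RLEV
import Pool.Agent.Helper780_CP.RAVG
import Pool.Agent.Helper780_CP.RTR
import Pool.Agent.Helper780_CP.RB31
import Pool.Agent.Helper780_CP.RB32
import Pool.Agent.Helper780_CP.RB34

set_option autoImplicit false

open MeasureTheory
open scoped Topology

namespace Pool.Agent.Helper780_CP.RB35

open Pool.Agent.Helper780_CP
open Pool.Agent.Helper985.CP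
open Pool.Agent.Helper780_CP.RAVG (avg_insert)
open Pool.Agent.Helper780_CP.RUB (ge_spec)
open Pool.Agent.Helper780_CP.RDIL (dilation)
open Pool.Agent.Helper780_CP.RLEV (cnt_card)
open Pool.Agent.Helper780_CP.RB31 (hilb)
open Pool.Agent.Helper780_CP.RB32 (group_removal_g)
open Pool.Agent.Helper780_CP.RB34 (level_abs_g)

/-- the level, a fixed neutral composition whose species are abundant -/
theorem level_pair_g {S : Type} [Fintype S] [DecidableEq S] (D : Species S) (hD : D.Valid)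
    (hst : HStable D) (hf : ∀ s, D.charge s < 0 → D.fermion s = true)
    (g : S → ℕ) (hg : ∑ s, (g s : ℝ) * D.charge s = 0) (hg0 : g ≠ 0)
    (hg1 : ∃ s, g s ≠ 0 ∧ 0 < D.charge s) (ρ C0 c0 : ℝ) (hρ : 0 ≤ ρ) (hC0 : 0 ≤ C0)
    (hc0 : 0 < c0) :
    ∃ C ℓ0 : ℝ, 0 < C ∧ 0 < ℓ0 ∧ ∀ {I : Type} [Fintype I] [DecidableEq I] (sp : I → S) (ℓ : ℝ),
      ℓ0 ≤ ℓ → (Fintype.card I : ℝ) ≤ ρ * ℓ ^ 3 → (∑ i, D.charge (sp i) = 0) →
      (∀ s, g s ≠ 0 → c0 * (Fintype.card I : ℝ) ≤ cnt sp s) →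
      ∀ Ψ : Wave D I, IsState D sp ℓ Ψ → nrm2 D Ψ = 1 →
      energy D sp Ψ ≤ sInf (energies D sp ℓ) + 1 → ∀ U : ℝ,
      (∀ y, Metric.closedBall y 2 ⊆ cube ℓ → |phim D sp Ψ y - U| ≤ C0 ∧ kkm D Ψ y ≤ C0) →
      |U| ≤ C := by
  obtain ⟨Ca, hCa, hav⟩ := avg_insert D hD 1 one_pos le_rfl
  obtain ⟨C1, ℓ1, hC1, hℓ1, H1⟩ := level_abs_g g D.charge hg hg1 ρ C0 Ca hρ hC0 hCa.le
  obtain ⟨M, hM⟩ : ∃ M : ℝ, M = ∑ s, (g s : ℝ) := ⟨_, rfl⟩
  have hM0 : 0 ≤ M := by rw [hM]; exact Finset.sum_nonneg fun s _ => Nat.cast_nonneg _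
  obtain ⟨c', hc'⟩ : ∃ c' : ℝ, c' = min c0 (1 / (1 + M)) := ⟨_, rfl⟩
  have hc'0 : 0 < c' := by rw [hc']; exact lt_min hc0 (by positivity)
  have hc'1 : c' ≤ c0 := by rw [hc']; exact min_le_left _ _
  have hc'M : c' * M ≤ 1 := by
    have h1 : c' ≤ 1 / (1 + M) := by rw [hc']; exact min_le_right _ _
    rw [le_div_iff₀ (by positivity)] at h1
    nlinarith
  obtain ⟨C2, hC2, H2⟩ := group_removal_g D hD hst hf (ρ + C1 * M) c' (by positivity) hc'0
    g hg hg0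
  obtain ⟨C3, hC3, H3⟩ := dilation D hD hf ρ hρ
  refine ⟨1 + 16 * C3 * ρ + C1 * C2 + C1, max ℓ1 16, by positivity,
    lt_of_lt_of_le (by norm_num) (le_max_right _ _), ?_⟩
  intro I _ _ sp ℓ hℓ hN hneu hab Ψ hΨ hΨ1 hE U hU
  have hℓ16 : 16 ≤ ℓ := le_trans (le_max_right _ _) hℓ
  have hℓℓ1 : ℓ1 ≤ ℓ := le_trans (le_max_left _ _) hℓ
  have hcard := cnt_card sp
  have key : ∀ K : ℕ, (K : ℝ) ≤ C1 * ℓ ^ 2 → sInf (energies D sp (ℓ + 16)) ≤
      groundEnergy D (ℓ + 16) (fun s => cnt sp s + K * g s) + K * C2 := by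
    intro K
    induction K with
    | zero =>
      intro _
      have e : (fun s => cnt sp s + 0 * g s) = fun s => cnt sp s := by
        funext s
        simp
      rw [e, (ge_spec D hD hst (ℓ + 16) (by linarith)).1 sp]
      simp
    | succ K ih =>
      intro hK
      push_cast at hK
      have hK' : (K : ℝ) ≤ C1 * ℓ ^ 2 := by linarith
      have h1 := ih hK'
      have hcd : (Fintype.card (Σ s, Fin (cnt sp s + (K + 1) * g s)) : ℝ) =
          (Fintype.card I : ℝ) + (K + 1) * M := by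
        rw [Fintype.card_sigma]
        simp only [Fintype.card_fin]
        push_cast
        rw [Finset.sum_add_distrib, hcard, hM, Finset.mul_sum]
      have step : groundEnergy D (ℓ + 16) (fun s => cnt sp s + K * g s) ≤
          groundEnergy D (ℓ + 16) (fun s => cnt sp s + (K + 1) * g s) + C2 := by
        unfold groundEnergy
        refine H2 (fun i : (Σ s, Fin (cnt sp s + (K + 1) * g s)) => i.1)
          (fun i : (Σ s, Fin (cnt sp s + K * g s)) => i.1) (ℓ + 16)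
          (by linarith) ?_ ?_ ?_ ?_
        · rw [hcd]
          have e1 : (K + 1 : ℝ) * M ≤ C1 * ℓ ^ 2 * M :=
            mul_le_mul_of_nonneg_right hK (by positivity)
          have e2 : ℓ ^ 3 ≤ (ℓ + 16) ^ 3 := by gcongr; linarith
          have e3 : ℓ ^ 2 ≤ (ℓ + 16) ^ 3 := by
            refine le_trans ?_ e2
            nlinarith [sq_nonneg ℓ]
          have e4 : ρ * ℓ ^ 3 ≤ ρ * (ℓ + 16) ^ 3 := mul_le_mul_of_nonneg_left e2 hρ
          have e5 : C1 * M * ℓ ^ 2 ≤ C1 * M * (ℓ + 16) ^ 3 :=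
            mul_le_mul_of_nonneg_left e3 (by positivity)
          have e6 : C1 * ℓ ^ 2 * M = C1 * M * ℓ ^ 2 := by ring
          have e7 : (ρ + C1 * M) * (ℓ + 16) ^ 3 =
              ρ * (ℓ + 16) ^ 3 + C1 * M * (ℓ + 16) ^ 3 := by ring
          rw [e7]
          linarith
        · rw [sum_sp]
          simp only [cnt_sigma]
          push_cast
          have e : ∀ s, ((cnt sp s : ℝ) + (K + 1) * g s) * D.charge s =
              (cnt sp s : ℝ) * D.charge s + (K + 1) * (g s * D.charge s) := fun s => by ring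
          simp only [e]
          rw [Finset.sum_add_distrib, ← Finset.mul_sum, hg, mul_zero, add_zero, ← sum_sp]
          exact hneu
        · intro s hs
          rw [hcd, cnt_sigma]
          push_cast
          have e1 : c' * (Fintype.card I : ℝ) ≤ c0 * (Fintype.card I : ℝ) :=
            mul_le_mul_of_nonneg_right hc'1 (by positivity)
          have e2 := hab s hs
          have e3 : (1 : ℝ) ≤ g s := by exact_mod_cast Nat.one_le_iff_ne_zero.2 hs
          have e4 : (K + 1 : ℝ) * (c' * M) ≤ (K + 1) * g s :=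
            mul_le_mul_of_nonneg_left (hc'M.trans e3) (by positivity)
          have e5 : c' * ((Fintype.card I : ℝ) + (K + 1) * M) =
              c' * (Fintype.card I : ℝ) + (K + 1) * (c' * M) := by ring
          rw [e5]
          linarith
        · intro s
          rw [cnt_sigma, cnt_sigma]
          ring
      push_cast
      linarith
  have hdil := H3 sp ℓ 16 (by linarith) (by norm_num) hℓ16 hN hneu
  have hdil2 : C3 * (16 / ℓ) * (Fintype.card I : ℝ) ≤ 16 * C3 * ρ * ℓ ^ 2 := by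
    have h1 : C3 * (16 / ℓ) * (Fintype.card I : ℝ) ≤ C3 * (16 / ℓ) * (ρ * ℓ ^ 3) :=
      mul_le_mul_of_nonneg_left hN (by positivity)
    refine h1.trans (le_of_eq ?_)
    have : ℓ ≠ 0 := by linarith
    field_simp
  have hℓ2 : (1 : ℝ) ≤ ℓ ^ 2 := by nlinarith
  have fin : ∀ V : ℝ, ∀ K : ℕ, (K : ℝ) ≤ C1 * ℓ ^ 2 →
      groundEnergy D (ℓ + 16) (fun s => cnt sp s + K * g s) ≤
        energy D sp Ψ - V * ℓ ^ 2 + C1 * ℓ ^ 2 → V ≤ 1 + 16 * C3 * ρ + C1 * C2 + C1 := by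
    intro V K hK h
    have h1 := key K hK
    have h2 : (K : ℝ) * C2 ≤ C1 * ℓ ^ 2 * C2 := mul_le_mul_of_nonneg_right hK hC2.le
    have h3 : V * ℓ ^ 2 ≤ (1 + 16 * C3 * ρ + C1 * C2 + C1) * ℓ ^ 2 := by nlinarith
    exact le_of_mul_le_mul_right h3 (by linarith)
  obtain ⟨⟨K1, hK1, h1⟩, ⟨K2, hK2, h2⟩⟩ := H1 D (fun _ => rfl) sp ℓ hℓℓ1 hN hneu Ψ hΨ hΨ1 U hU
    (groundEnergy D (ℓ + 16)) (energy D sp Ψ) (by
      intro m s π hπ
      obtain ⟨t1, t2, t3, -, -, -, -⟩ := RTR.tr_facts D sp ℓ 8 (by norm_num) Ψ hΨ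
      have e : ℓ + 2 * 8 = ℓ + 16 := by ring
      rw [e] at t1
      have h := hav (ℓ + 16) (groundEnergy D (ℓ + 16))
        (fun {J} _ _ sp' Φ hΦ => (ge_spec D hD hst (ℓ + 16) (by linarith)).2 sp' Φ hΦ)
        m s π hπ sp (trW D (dv 8) Ψ) t1 (t2.trans hΨ1)
      rw [t3] at h
      exact h)
  rw [abs_le]
  constructor
  · have := fin (-U) K2 hK2 (by
      refine h2.trans (le_of_eq (by ring)))
    linarith
  · exact fin U K1 hK1 h1

/-- TARGET -/
theorem level_g {S : Type} [Fintype S] [DecidableEq S] (D : Species S) (hD : D.Valid)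
    (hf : ∀ s, D.charge s < 0 → D.fermion s = true) (ρ C0 : ℝ) (hρ : 0 ≤ ρ) (hC0 : 0 ≤ C0) :
    ∃ C ℓ0 : ℝ, 0 < C ∧ 0 < ℓ0 ∧ ∀ {I : Type} [Fintype I] [DecidableEq I] (sp : I → S) (ℓ : ℝ),
      ℓ0 ≤ ℓ → (Fintype.card I : ℝ) ≤ ρ * ℓ ^ 3 → (∑ i, D.charge (sp i) = 0) →
      ∀ Ψ : Wave D I, IsState D sp ℓ Ψ → nrm2 D Ψ = 1 →
      energy D sp Ψ ≤ sInf (energies D sp ℓ) + 1 → ∀ U : ℝ,
      (∀ y, Metric.closedBall y 2 ⊆ cube ℓ → |phim D sp Ψ y - U| ≤ C0 ∧ kkm D Ψ y ≤ C0) →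
      |U| ≤ C := by
  classical
  have hst := hstable D hD hf
  obtain ⟨B, κ, hκ, hB, HB⟩ := hilb (S := S) D.charge
  have hpos : ∀ b : S → ℕ, b ≠ 0 → ∑ s, (b s : ℝ) * D.charge s = 0 →
      ∃ s, b s ≠ 0 ∧ 0 < D.charge s := by
    intro b hb h0
    by_contra hcon
    push Not at hcon
    have h1 : ∀ s ∈ Finset.univ, (b s : ℝ) * D.charge s ≤ 0 := by
      intro s _
      rcases Nat.eq_zero_or_pos (b s) with h | h
      · rw [h]; simp
      · exact mul_nonpos_of_nonneg_of_nonpos (Nat.cast_nonneg _) (hcon s (by omega))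
    have h2 := (Finset.sum_eq_zero_iff_of_nonpos h1).1 h0
    apply hb
    funext s
    have h3 := h2 s (Finset.mem_univ s)
    rcases mul_eq_zero.1 h3 with h | h
    · exact_mod_cast h
    · exact absurd h (hD.charge_ne s)
  have hpair : ∀ b : S → ℕ, ∃ C ℓ0 : ℝ, 0 < C ∧ 0 < ℓ0 ∧ (b ∈ B →
      ∀ {I : Type} [Fintype I] [DecidableEq I] (sp : I → S) (ℓ : ℝ),
      ℓ0 ≤ ℓ → (Fintype.card I : ℝ) ≤ ρ * ℓ ^ 3 → (∑ i, D.charge (sp i) = 0) →
      (∀ s, b s ≠ 0 → κ * (Fintype.card I : ℝ) ≤ cnt sp s) →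
      ∀ Ψ : Wave D I, IsState D sp ℓ Ψ → nrm2 D Ψ = 1 →
      energy D sp Ψ ≤ sInf (energies D sp ℓ) + 1 → ∀ U : ℝ,
      (∀ y, Metric.closedBall y 2 ⊆ cube ℓ → |phim D sp Ψ y - U| ≤ C0 ∧ kkm D Ψ y ≤ C0) →
      |U| ≤ C) := by
    intro b
    by_cases hb : b ∈ B
    · obtain ⟨hb0, hbc⟩ := hB b hb
      obtain ⟨C, ℓ0, h1, h2, h3⟩ := level_pair_g D hD hst hf b hbc hb0 (hpos b hb0 hbc) ρ C0 κ
        hρ hC0 hκ
      exact ⟨C, ℓ0, h1, h2, fun _ => h3⟩
    · exact ⟨1, 1, one_pos, one_pos, fun h => absurd h hb⟩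
  choose C ℓ0 hC hℓ0 H using hpair
  have hCs : 0 ≤ ∑ b ∈ B, C b := Finset.sum_nonneg fun a _ => (hC a).le
  have hℓs : 0 ≤ ∑ b ∈ B, ℓ0 b := Finset.sum_nonneg fun a _ => (hℓ0 a).le
  refine ⟨1 + C0 + ∑ b ∈ B, C b, 5 + ∑ b ∈ B, ℓ0 b, by positivity, by positivity, ?_⟩
  intro I _ _ sp ℓ hℓ hN hneu Ψ hΨ hΨ1 hE U hU
  rcases isEmpty_or_nonempty I with hI | hI
  · have hph : ∀ y, phim D sp Ψ y = 0 := by
      intro y
      unfold phim mean
      simp
    have hy := (hU (WithLp.toLp 2 (fun _ => ℓ / 2)) (by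
      intro w hw k
      rw [Metric.mem_closedBall, dist_eq_norm] at hw
      have h1 := (PiLp.norm_apply_le (w - WithLp.toLp 2 (fun _ => ℓ / 2)) k).trans hw
      rw [PiLp.sub_apply, Real.norm_eq_abs, abs_le] at h1
      constructor <;> linarith [h1.1, h1.2])).1
    rw [hph, zero_sub, abs_neg] at hy
    linarith
  · have hsum : ∑ s, (cnt sp s : ℝ) * D.charge s = 0 := by
      rw [← sum_sp]
      exact hneu
    have hn0 : (fun s => cnt sp s) ≠ 0 := by
      intro h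
      have h1 := cnt_card sp
      have h2 : ∀ s, cnt sp s = 0 := fun s => congrFun h s
      simp only [h2, Nat.cast_zero, Finset.sum_const_zero] at h1
      have h3 : (0 : ℝ) < Fintype.card I := by exact_mod_cast Fintype.card_pos
      linarith
    obtain ⟨b, hb, hfb⟩ := HB (fun s => cnt sp s) hsum hn0
    rw [cnt_card] at hfb
    have h1 : ℓ0 b ≤ ∑ a ∈ B, ℓ0 a :=
      Finset.single_le_sum (f := ℓ0) (fun a _ => (hℓ0 a).le) hb
    have h2 : C b ≤ ∑ a ∈ B, C a :=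
      Finset.single_le_sum (f := C) (fun a _ => (hC a).le) hb
    have h3 := H b hb sp ℓ (by linarith) hN hneu hfb Ψ hΨ hΨ1 hE U hU
    linarith

end Pool.Agent.Helper780_CP.RB35
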