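import Pool.Agent.Helper780_CP.LLDefs2
import Pool.Agent.Helper780_CP.BnDefs
import Pool.Agent.Helper780_CP.RKT5

set_option autoImplicit false

open MeasureTheory
open scoped Topology

namespace Pool.Agent.Helper780_CP.RB33

open Pool.Agent.Helper780_CP
open Pool.Agent.Helper985.CP

open Pool.Agent.Helper780_CP Pool.Agent.Helper985.CP
open Pool.Agent.Helper780_CP.RKT2 (kin_boundT)
open Pool.Agent.Helper780_CP.RKT4 (group_sliceT)
open Pool.Agent.Helper780_CP.RG1 (gibbs_w)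
open Pool.Agent.Helper780_CP.RKT5 (k5_ne k5_center k5_kinE_nonneg k5_kin k5_flat)

/-- TARGET -/
theorem group_removalT_g {S : Type} [Fintype S] [DecidableEq S] (D : Species S) (hD : D.Valid)
    (hst : HStable D) (hf : ∀ s, D.charge s < 0 → D.fermion s = true) (T V ρ c : ℝ) (hT : 0 < T)
    (hV : 0 < V) (hρ : 0 < ρ) (hc : 0 < c) (g : S → ℕ) (hg : ∑ s, (g s : ℝ) * D.charge s = 0)
    (hg0 : g ≠ 0) : ∃ C : ℝ, 0 < C ∧
    ∀ {I J : Type} [Fintype I] [DecidableEq I] [Fintype J] [DecidableEq J] (sp : I → S)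
      (sp' : J → S) (ℓ : ℝ), 4 ≤ ℓ → ℓ ^ 3 ≤ V * (Fintype.card I : ℝ) →
      (Fintype.card I : ℝ) ≤ ρ * ℓ ^ 3 →
      (∑ i, D.charge (sp i) = 0) → (∀ s, g s ≠ 0 → c * (Fintype.card I : ℝ) ≤ cnt sp s) →
      (∀ s, cnt sp s = cnt sp' s + g s) →
      -T * Real.log (sSup (peierls D sp' ℓ T)) ≤ -T * Real.log (sSup (peierls D sp ℓ T)) + C := by
  obtain ⟨m, hm0, hm⟩ : ∃ m : ℝ, 0 < m ∧ ∀ s, D.mass s ≤ m := by
    refine ⟨1 + ∑ s, D.mass s, ?_, fun s => ?_⟩
    · have : 0 ≤ ∑ s, D.mass s := Finset.sum_nonneg fun s _ => (hD.mass_pos s).le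
      linarith
    · have := Finset.single_le_sum (f := D.mass) (fun t _ => (hD.mass_pos t).le)
        (Finset.mem_univ s)
      linarith
  obtain ⟨n, hn⟩ : ∃ n : ℕ, n = ∑ s, g s := ⟨_, rfl⟩
  obtain ⟨b, hb⟩ : ∃ b : ℝ, b = ∑ s, |D.charge s| := ⟨_, rfl⟩
  have hb0 : 0 ≤ b := by rw [hb]; exact Finset.sum_nonneg fun s _ => abs_nonneg _
  have hk0 : 0 ≤ ∫ z, kk z := integral_nonneg kk_nonneg
  obtain ⟨W0, hW0⟩ : ∃ W0 : ℝ, W0 = 4 * (1 + (∫ z, kk z) * ρ) := ⟨_, rfl⟩
  have hW00 : 0 < W0 := by rw [hW0]; positivity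
  obtain ⟨C1, hC1, hkb⟩ := kin_boundT D hD hf T V ρ hT hV hρ
  obtain ⟨Cs, hCs, hslice⟩ := group_sliceT D hD T (1 / 2) V c n hT (by norm_num) hV hc
  obtain ⟨C', hC'0, hflat⟩ := k5_flat D hD hst T V ρ c W0 hT hV hρ hc hW00.le
  obtain ⟨W, hW⟩ : ∃ W : ℝ, W = 1 + 8 * m * (C1 / c) := ⟨_, rfl⟩
  have hWp : 0 < W := by rw [hW]; positivity
  refine ⟨1 + T * |Real.log Cs| + (n : ℝ) * C' +
    1 / 2 * ((n : ℝ) ^ 2 * (b ^ 2 * W)), by positivity, ?_⟩
  intro I J _ _ _ _ sp sp' ℓ hℓ hlV hN hneu habun hcnt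
  have hℓ0 : 0 < ℓ := by linarith
  -- the group
  have hex : ∀ s, ∃ A ⊆ Finset.univ.filter (fun i => sp i = s), A.card = g s := by
    intro s
    apply Finset.exists_subset_card_eq
    have h1 := hcnt s
    unfold cnt at h1
    omega
  choose A hA hAc using hex
  obtain ⟨G, hG⟩ : ∃ G : Finset I, G = Finset.univ.biUnion A := ⟨_, rfl⟩
  have hfil : ∀ s, G.filter (fun i => sp i = s) = A s := by
    intro s
    ext i
    rw [Finset.mem_filter, hG, Finset.mem_biUnion]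
    constructor
    · rintro ⟨⟨t, -, hit⟩, his⟩
      have h1 := (Finset.mem_filter.1 (hA t hit)).2
      rw [his] at h1
      rw [h1]
      exact hit
    · intro hi
      exact ⟨⟨s, Finset.mem_univ s, hi⟩, (Finset.mem_filter.1 (hA s hi)).2⟩
  have hGcnt : ∀ s, cnt sp s = cnt sp' s + (G.filter (fun i => sp i = s)).card := by
    intro s
    rw [hcnt s, hfil s, hAc s]
  -- the mixture
  obtain ⟨k, w, ψ, hNE⟩ := k5_ne D hD hst sp ℓ T hℓ0 hT
  obtain ⟨-, hZ'pos⟩ := peierls_pos D hD hst sp' ℓ T hℓ0 hT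
  have hbdd' := peierls_bdd D hD hst sp' ℓ T hℓ0 hT
  obtain ⟨Z, hZ⟩ : ∃ Z, Z = sSup (peierls D sp ℓ T) := ⟨_, rfl⟩
  obtain ⟨Z', hZ'⟩ : ∃ Z', Z' = sSup (peierls D sp' ℓ T) := ⟨_, rfl⟩
  have hZ'le : ∀ z ∈ peierls D sp' ℓ T, z ≤ Z' := fun z hz => by
    rw [hZ']; exact le_csSup hbdd' hz
  rw [← hZ] at hNE ⊢
  rw [← hZ'] at hZ'pos ⊢
  have hkin := (hkb sp ℓ hℓ hlV hN hneu 1 Z zero_le_one le_rfl w ψ hNE).1
  have hψ := hNE.state
  have hn1 := hNE.nrm
  have hw := hNE.p0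
  have hw1 := hNE.p1
  obtain ⟨y, hy, hwy⟩ := k5_center D sp ℓ ρ hℓ hρ.le hN ψ hψ hn1 w hw hw1
  rw [← hW0] at hwy
  -- abundance in the group
  have hab : ∀ i ∈ G, c * (Fintype.card I : ℝ) ≤ cnt sp (sp i) := by
    intro i hi
    refine habun (sp i) ?_
    have h1 : i ∈ A (sp i) := by
      rw [← hfil (sp i)]
      exact Finset.mem_filter.2 ⟨hi, rfl⟩
    rw [← hAc (sp i)]
    exact Finset.card_ne_zero_of_mem h1
  have hch : ∀ i ∈ G, |D.charge (sp i)| ≤ b := by
    intro i _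
    rw [hb]
    exact Finset.single_le_sum (f := fun s => |D.charge s|) (fun t _ => abs_nonneg _)
      (Finset.mem_univ (sp i))
  have hcardN : G.card = n := by
    rw [hn, Finset.card_eq_sum_card_fiberwise (f := sp) (t := Finset.univ)
      (fun i _ => Finset.mem_coe.2 (Finset.mem_univ _))]
    refine Finset.sum_congr rfl fun s _ => ?_
    rw [hfil s, hAc s]
  have hcardG : (G.card : ℝ) = (n : ℝ) := by rw [hcardN]
  have hchG : ∑ i ∈ G, D.charge (sp i) = 0 := by
    rw [← hg, ← Finset.sum_fiberwise_of_maps_to (g := sp) (t := Finset.univ)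
      (fun i _ => Finset.mem_univ _)]
    refine Finset.sum_congr rfl fun s _ => ?_
    rw [Finset.sum_congr rfl (fun i hi => by rw [(Finset.mem_filter.1 hi).2] :
      ∀ i ∈ G.filter (fun i => sp i = s), D.charge (sp i) = D.charge s),
      Finset.sum_const, hfil s, hAc s, nsmul_eq_mul]
  -- energies of the group
  obtain ⟨U, hU⟩ : ∃ U : ℝ, U = ∑ j, w j * phim D sp (ψ j) y := ⟨_, rfl⟩
  obtain ⟨Q, hQ⟩ : ∃ Q : I → ℝ, Q = fun i => ∑ j, w j * (pe D sp i (ψ j) -
    (1 / 2) * kinE D sp i (ψ j)) := ⟨_, rfl⟩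
  have hfl : ∀ i ∈ G, D.charge (sp i) * U - C' ≤ Q i := by
    intro i hi
    rw [hU, hQ]
    exact hflat sp ℓ Z hℓ hlV hN hneu w ψ hNE y hy hwy i (hab i hi)
  have hsumpe : -((n : ℝ) * C') ≤ ∑ i ∈ G, Q i := by
    have h1 := Finset.sum_le_sum hfl
    rw [Finset.sum_sub_distrib, ← Finset.sum_mul, hchG, Finset.sum_const, nsmul_eq_mul,
      hcardG] at h1
    linarith
  obtain ⟨R, hR⟩ : ∃ R : Fin k → ℝ, R = fun j => ∑ i ∈ G, ∑ i' ∈ G,
      (if i = i' then 0 else
        D.charge (sp i) * D.charge (sp i') * wm D (fun x => 1 / ‖x i - x i'‖) (ψ j)) := ⟨_, rfl⟩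
  have hpairs : ∑ j, w j * R j ≤ (n : ℝ) ^ 2 * (b ^ 2 * W) := by
    have hterm : ∀ i ∈ G, ∀ i' ∈ G, ∑ j, w j * (if i = i' then 0 else
        D.charge (sp i) * D.charge (sp i') * wm D (fun x => 1 / ‖x i - x i'‖) (ψ j)) ≤
        b ^ 2 * W := by
      intro i hi i' hi'
      by_cases hij : i = i'
      · simp only [if_pos hij, mul_zero, Finset.sum_const_zero]; positivity
      · simp only [if_neg hij]
        have hmi := hm (sp i)
        have hmi0 := hD.mass_pos (sp i)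
        have w1 : ∀ j, 0 ≤ wm D (fun x => 1 / ‖x i - x i'‖) (ψ j) ∧
            wm D (fun x => 1 / ‖x i - x i'‖) (ψ j) ≤ 1 + 8 * m * kinE D sp i (ψ j) := by
          intro j
          obtain ⟨w0, w1⟩ := RGR2.gr_pair D hD sp ℓ (ψ j) (hψ j) i i' (Ne.symm hij)
          refine ⟨w0, w1.trans ?_⟩
          rw [hn1 j]
          have k0 := k5_kinE_nonneg D hD sp i (ψ j)
          have : 8 * D.mass (sp i) * kinE D sp i (ψ j) ≤ 8 * m * kinE D sp i (ψ j) :=
            mul_le_mul_of_nonneg_right (by linarith) k0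
          linarith
        have w2 : ∑ j, w j * wm D (fun x => 1 / ‖x i - x i'‖) (ψ j) ≤ W := by
          calc ∑ j, w j * wm D (fun x => 1 / ‖x i - x i'‖) (ψ j)
              ≤ ∑ j, w j * (1 + 8 * m * kinE D sp i (ψ j)) :=
                Finset.sum_le_sum fun j _ => mul_le_mul_of_nonneg_left (w1 j).2 (hw j)
            _ = 1 + 8 * m * ∑ j, w j * kinE D sp i (ψ j) := by
                simp only [mul_add, mul_one]
                rw [Finset.sum_add_distrib, hw1, Finset.mul_sum]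
                congr 1
                refine Finset.sum_congr rfl fun j _ => ?_
                ring
            _ ≤ W := by
                rw [hW]
                have := k5_kin D hD sp ℓ c C1 hc w hw ψ hψ hkin i (hab i hi)
                have := mul_le_mul_of_nonneg_left this (show 0 ≤ 8 * m by positivity)
                linarith
        have w0 : 0 ≤ ∑ j, w j * wm D (fun x => 1 / ‖x i - x i'‖) (ψ j) :=
          Finset.sum_nonneg fun j _ => mul_nonneg (hw j) (w1 j).1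
        have h3 : D.charge (sp i) * D.charge (sp i') ≤ b ^ 2 := by
          refine (le_abs_self _).trans ?_
          rw [abs_mul, sq]
          exact mul_le_mul (hch i hi) (hch i' hi') (abs_nonneg _) (by positivity)
        calc ∑ j, w j * (D.charge (sp i) * D.charge (sp i') *
              wm D (fun x => 1 / ‖x i - x i'‖) (ψ j))
            = D.charge (sp i) * D.charge (sp i') *
              ∑ j, w j * wm D (fun x => 1 / ‖x i - x i'‖) (ψ j) := by
              rw [Finset.mul_sum]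
              refine Finset.sum_congr rfl fun j _ => ?_
              ring
          _ ≤ b ^ 2 * ∑ j, w j * wm D (fun x => 1 / ‖x i - x i'‖) (ψ j) :=
              mul_le_mul_of_nonneg_right h3 w0
          _ ≤ b ^ 2 * W := mul_le_mul_of_nonneg_left w2 (by positivity)
    have e1 : ∑ j, w j * R j = ∑ i ∈ G, ∑ i' ∈ G, ∑ j, w j *
        (if i = i' then 0 else
        D.charge (sp i) * D.charge (sp i') * wm D (fun x => 1 / ‖x i - x i'‖) (ψ j)) := by
      rw [hR]
      simp only [Finset.mul_sum]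
      rw [Finset.sum_comm]
      refine Finset.sum_congr rfl fun i _ => ?_
      rw [Finset.sum_comm]
    rw [e1]
    calc ∑ i ∈ G, ∑ i' ∈ G, ∑ j, w j * (if i = i' then 0 else
        D.charge (sp i) * D.charge (sp i') * wm D (fun x => 1 / ‖x i - x i'‖) (ψ j))
        ≤ ∑ i ∈ G, ∑ i' ∈ G, b ^ 2 * W :=
          Finset.sum_le_sum fun i hi => Finset.sum_le_sum fun i' hi' => hterm i hi i' hi'
      _ = (n : ℝ) ^ 2 * (b ^ 2 * W) := by
          rw [Finset.sum_const, Finset.sum_const, nsmul_eq_mul, nsmul_eq_mul, hcardG]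
          ring
  have hsl := hslice sp sp' (G) hcardN.le hGcnt ℓ (by linarith) hlV hab Z' hZ'le ψ hψ
    hNE.sg hn1
  have h2 := (gibbs_fin w _ hw hw1).trans hsl
  have h3 := (Real.le_log_iff_exp_le (mul_pos hCs hZ'pos)).2 h2
  rw [Real.log_mul hCs.ne' hZ'pos.ne'] at h3
  have e1 : ∑ j, (w j * (-(energy D sp (ψ j) - (∑ i ∈ G, pe D sp i (ψ j)) +
        1 / 2 * (∑ i ∈ G, ∑ i' ∈ G, if i = i' then 0 else
          D.charge (sp i) * D.charge (sp i') * wm D (fun x => 1 / ‖x i - x i'‖) (ψ j)) +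
        1 / 2 * ∑ i ∈ G, kinE D sp i (ψ j)) / T) - w j * Real.log (w j)) =
      -(1 / T) * (∑ j, (w j * energy D sp (ψ j) + T * (w j * Real.log (w j))) -
        ∑ i ∈ G, Q i + 1 / 2 * ∑ j, w j * R j) := by
    have e2 : ∑ i ∈ G, Q i = ∑ j, w j * ((∑ i ∈ G, pe D sp i (ψ j)) -
        1 / 2 * ∑ i ∈ G, kinE D sp i (ψ j)) := by
      rw [hQ]
      simp only
      rw [Finset.sum_comm]
      refine Finset.sum_congr rfl fun j _ => ?_
      rw [← Finset.mul_sum, Finset.sum_sub_distrib, ← Finset.mul_sum]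
    rw [e2, hR, Finset.mul_sum, ← Finset.sum_sub_distrib, ← Finset.sum_add_distrib,
      Finset.mul_sum]
    refine Finset.sum_congr rfl fun j _ => ?_
    field_simp
    ring
  rw [e1] at h3
  have h6 : T * (-(1 / T) * (∑ j, (w j * energy D sp (ψ j) + T * (w j * Real.log (w j))) -
        ∑ i ∈ G, Q i + 1 / 2 * ∑ j, w j * R j)) ≤ T * (Real.log Cs + Real.log Z') :=
    mul_le_mul_of_nonneg_left h3 hT.le
  have e5 : ∀ a : ℝ, T * (-(1 / T) * a) = -a := by
    intro a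
    field_simp
  rw [e5] at h6
  have h7 := mul_le_mul_of_nonneg_left (le_abs_self (Real.log Cs)) hT.le
  have h8 := hNE.free
  linarith


end Pool.Agent.Helper780_CP.RB33
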