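import Pool.Agent.Helper780_CP.LLDefs2
import Pool.Agent.Helper780_CP.BnDefs
import Pool.Agent.Helper780_CP.RKT9
import Pool.Agent.Helper780_CP.RB31
import Pool.Agent.Helper780_CP.RB33
import Pool.Agent.Helper780_CP.RB34

set_option autoImplicit false

open MeasureTheory
open scoped Topology

namespace Pool.Agent.Helper780_CP.RB36

open Pool.Agent.Helper780_CP
open Pool.Agent.Helper985.CP
open Pool.Agent.Helper780_CP.RB31 (hilb)
open Pool.Agent.Helper780_CP.RB33 (group_removalT_g)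
open Pool.Agent.Helper780_CP.RB34 (level_abs_g)

open Pool.Agent.Helper780_CP Pool.Agent.Helper985.CP

open Pool.Agent.Helper780_CP.RG1 (gibbs_w)
open Pool.Agent.Helper780_CP.RG5 (mix_enc)
open Pool.Agent.Helper780_CP.RKT6 (multi_insertT)
open Pool.Agent.Helper780_CP.RKT7 (avg_abs)
open Pool.Agent.Helper780_CP.RKT3 (dilationT)
open Pool.Agent.Helper780_CP.RLEV (cnt_card)
open Pool.Agent.Helper780_CP.RTR (tr_facts)
open Pool.Agent.Helper780_CP.RAVG (countP_ofFn)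
open Pool.Agent.Helper780_CP.RKT9 (Zc peierls_cnt Zc_cnt sg_tr prs_congr ins_mix)

theorem pos_species {S : Type} [Fintype S] (c : S → ℝ) (hc : ∀ s, c s ≠ 0) (g : S → ℕ)
    (hg : ∑ s, (g s : ℝ) * c s = 0) (hg0 : g ≠ 0) : ∃ s, g s ≠ 0 ∧ 0 < c s := by
  by_contra hno
  push Not at hno
  have h1 : ∀ s ∈ Finset.univ, (g s : ℝ) * c s ≤ 0 := by
    intro s _
    by_cases hs : g s = 0
    · rw [hs]
      simp
    · exact mul_nonpos_of_nonneg_of_nonpos (Nat.cast_nonneg _) (hno s hs)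
  have h2 := (Finset.sum_eq_zero_iff_of_nonpos h1).mp hg
  apply hg0
  funext s
  have h3 := h2 s (Finset.mem_univ s)
  rcases mul_eq_zero.mp h3 with h4 | h4
  · exact_mod_cast h4
  · exact absurd h4 (hc s)

set_option maxHeartbeats 4000000 in
theorem level_gT {S : Type} [Fintype S] [DecidableEq S] (D : Species S) (hD : D.Valid)
    (hst : HStable D) (hf : ∀ s, D.charge s < 0 → D.fermion s = true)
    (g : S → ℕ) (hg : ∑ s, (g s : ℝ) * D.charge s = 0) (hg0 : g ≠ 0)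
    (T V ρ C0 c0 : ℝ) (hT : 0 < T) (hV : 0 < V) (hρ : 0 < ρ)
    (hC0 : 0 ≤ C0) (hc0 : 0 < c0) :
    ∃ C ℓ0 : ℝ, 0 < C ∧ 0 < ℓ0 ∧ ∀ {I : Type} [Fintype I] [DecidableEq I] [Nonempty I]
      (sp : I → S) (ℓ : ℝ), ℓ0 ≤ ℓ → ℓ ^ 3 ≤ V * (Fintype.card I : ℝ) →
      (Fintype.card I : ℝ) ≤ ρ * ℓ ^ 3 → (∑ i, D.charge (sp i) = 0) →
      (∀ s, g s ≠ 0 → c0 * (Fintype.card I : ℝ) ≤ cnt sp s) →
      ∀ η : ℝ, 0 ≤ η → η ≤ 1 → ∀ {k : ℕ} (pr : Fin k → ℝ)
      (ψ : Fin k → Wave D I), NE D sp ℓ T η (sSup (peierls D sp ℓ T)) pr ψ → ∀ U : ℝ,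
      (∀ y, Metric.closedBall y 2 ⊆ cube ℓ → |(∑ j, pr j * phim D sp (ψ j) y) - U| ≤ C0 ∧
        ∑ j, pr j * kkm D (ψ j) y ≤ C0) →
      |U| ≤ C := by
  obtain ⟨Cm, Cm', hCm, hCm', HM⟩ := multi_insertT D hD hst T 1 hT one_pos le_rfl
  have hg1 := pos_species D.charge hD.charge_ne g hg hg0
  obtain ⟨C1, ℓ1, hC1, hℓ1, H1⟩ := level_abs_g g D.charge hg hg1 ρ C0 (Cm + Cm') hρ.le hC0
    (by positivity)
  obtain ⟨G, hG⟩ : ∃ G : ℝ, G = ∑ s, (g s : ℝ) := ⟨_, rfl⟩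
  have hG0 : 0 < G := by
    rw [hG]
    obtain ⟨s, hs, -⟩ := hg1
    refine Finset.sum_pos' (fun s _ => Nat.cast_nonneg _) ⟨s, Finset.mem_univ s, ?_⟩
    exact_mod_cast Nat.pos_of_ne_zero hs
  obtain ⟨c', hc'⟩ : ∃ c' : ℝ, c' = min c0 (1 / G) := ⟨_, rfl⟩
  have hc'0 : 0 < c' := by
    rw [hc']
    exact lt_min hc0 (by positivity)
  have hc'1 : c' ≤ c0 := by rw [hc']; exact min_le_left _ _
  have hc'G : c' * G ≤ 1 := by
    have : c' ≤ 1 / G := by rw [hc']; exact min_le_right _ _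
    rwa [le_div_iff₀ hG0] at this
  obtain ⟨C2, hC2, H2⟩ := group_removalT_g D hD hst hf T (8 * V) (ρ + C1 * G) c' hT
    (by positivity) (by positivity) hc'0 g hg hg0
  obtain ⟨C3, hC3, H3⟩ := dilationT D hD hf T V ρ hT hV hρ
  refine ⟨1 + 16 * C3 * ρ + C1 * C2 + C1, max ℓ1 16, by positivity,
    lt_of_lt_of_le (by norm_num) (le_max_right _ _), ?_⟩
  intro I _ _ _ sp ℓ hℓ hVN hN hneu hab η hη hη1 k pr ψ hNE U hU
  have hℓ16 : 16 ≤ ℓ := le_trans (le_max_right _ _) hℓ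
  have hℓℓ1 : ℓ1 ≤ ℓ := le_trans (le_max_left _ _) hℓ
  have hcard := cnt_card sp
  have hL : (0 : ℝ) < ℓ + 16 := by linarith
  obtain ⟨FE, hFE⟩ : ∃ FE : (S → ℕ) → ℝ, FE = fun n => -T * Real.log (Zc D (ℓ + 16) T n) :=
    ⟨_, rfl⟩
  have key : ∀ K : ℕ, (K : ℝ) ≤ C1 * ℓ ^ 2 →
      -T * Real.log (sSup (peierls D sp (ℓ + 16) T)) ≤
      FE (fun s => cnt sp s + K * g s) + K * C2 := by
    intro K
    induction K with
    | zero =>
      intro _
      rw [hFE]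
      simp only [zero_mul, add_zero, Zc_cnt]
      simp
    | succ K ih =>
      intro hK
      push_cast at hK
      have hK' : (K : ℝ) ≤ C1 * ℓ ^ 2 := by linarith
      have h1 := ih hK'
      have hcd : (Fintype.card (Σ s, Fin (cnt sp s + (K + 1) * g s)) : ℝ) =
          (Fintype.card I : ℝ) + (K + 1) * G := by
        rw [Fintype.card_sigma]
        simp only [Fintype.card_fin]
        rw [Finset.sum_add_distrib, ← Finset.mul_sum, hG, ← hcard]
        push_cast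
        rfl
      have step : FE (fun s => cnt sp s + K * g s) ≤
          FE (fun s => cnt sp s + (K + 1) * g s) + C2 := by
        rw [hFE]
        refine H2 (fun i : (Σ s, Fin (cnt sp s + (K + 1) * g s)) => i.1)
          (fun i : (Σ s, Fin (cnt sp s + K * g s)) => i.1) (ℓ + 16)
          (by linarith) ?_ ?_ ?_ ?_ ?_
        · rw [hcd]
          have e1 : (ℓ + 16) ^ 3 ≤ (2 * ℓ) ^ 3 := by
            gcongr
            linarith
          have e2 : 0 ≤ (K + 1 : ℝ) * G := by positivity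
          have e3 : V * (Fintype.card I : ℝ) ≤ V * ((Fintype.card I : ℝ) + (K + 1) * G) :=
            mul_le_mul_of_nonneg_left (by linarith) hV.le
          nlinarith
        · rw [hcd]
          have e1 : (K + 1 : ℝ) * G ≤ C1 * ℓ ^ 2 * G :=
            mul_le_mul_of_nonneg_right hK hG0.le
          have e2 : ℓ ^ 3 ≤ (ℓ + 16) ^ 3 := by gcongr; linarith
          have e3 : ℓ ^ 2 ≤ (ℓ + 16) ^ 3 := by
            refine le_trans ?_ e2
            nlinarith [sq_nonneg ℓ]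
          have e4 : ρ * ℓ ^ 3 ≤ ρ * (ℓ + 16) ^ 3 := mul_le_mul_of_nonneg_left e2 hρ.le
          have e5 : C1 * G * ℓ ^ 2 ≤ C1 * G * (ℓ + 16) ^ 3 :=
            mul_le_mul_of_nonneg_left e3 (by positivity)
          have e6 : C1 * ℓ ^ 2 * G = C1 * G * ℓ ^ 2 := by ring
          have e7 : (ρ + C1 * G) * (ℓ + 16) ^ 3 =
              ρ * (ℓ + 16) ^ 3 + C1 * G * (ℓ + 16) ^ 3 := by ring
          rw [e7]
          linarith
        · rw [sum_sp]
          simp only [cnt_sigma]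
          have e1 : ∀ s, ((cnt sp s + (K + 1) * g s : ℕ) : ℝ) * D.charge s =
              (cnt sp s : ℝ) * D.charge s + (K + 1) * ((g s : ℝ) * D.charge s) := by
            intro s
            push_cast
            ring
          simp only [e1]
          rw [Finset.sum_add_distrib, ← Finset.mul_sum, hg, mul_zero, add_zero, ← sum_sp]
          exact hneu
        · intro s hs
          rw [hcd, cnt_sigma]
          push_cast
          have e1 : c' * (Fintype.card I : ℝ) ≤ c0 * (Fintype.card I : ℝ) :=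
            mul_le_mul_of_nonneg_right hc'1 (by positivity)
          have e0 : (1 : ℝ) ≤ g s := by exact_mod_cast Nat.one_le_iff_ne_zero.mpr hs
          have e2 : (K + 1 : ℝ) * (c' * G) ≤ (K + 1) * g s :=
            mul_le_mul_of_nonneg_left (hc'G.trans e0) (by positivity)
          have e3 : c' * ((Fintype.card I : ℝ) + (K + 1) * G) =
              c' * (Fintype.card I : ℝ) + (K + 1) * (c' * G) := by ring
          rw [e3]
          linarith [hab s hs]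
        · intro s
          rw [cnt_sigma, cnt_sigma]
          ring
      push_cast
      linarith
  have hdil := H3 sp ℓ 16 (by linarith) (by norm_num) hℓ16 hVN hN hneu
  have hdil2 : C3 * (16 / ℓ) * (Fintype.card I : ℝ) ≤ 16 * C3 * ρ * ℓ ^ 2 := by
    have h1 : C3 * (16 / ℓ) * (Fintype.card I : ℝ) ≤ C3 * (16 / ℓ) * (ρ * ℓ ^ 3) :=
      mul_le_mul_of_nonneg_left hN (by positivity)
    refine h1.trans (le_of_eq ?_)
    have : ℓ ≠ 0 := by linarith
    field_simp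
  have hℓ2 : (1 : ℝ) ≤ ℓ ^ 2 := by nlinarith
  obtain ⟨E1, hE1⟩ : ∃ E1 : ℝ, E1 = ∑ j, (pr j * energy D sp (ψ j) +
      T * (pr j * Real.log (pr j))) := ⟨_, rfl⟩
  have hfree : E1 ≤ -T * Real.log (sSup (peierls D sp ℓ T)) + 1 := by
    rw [hE1]
    have := hNE.free
    linarith
  have fin : ∀ U' : ℝ, ∀ K : ℕ, (K : ℝ) ≤ C1 * ℓ ^ 2 →
      FE (fun s => cnt sp s + K * g s) ≤
        E1 - U' * ℓ ^ 2 + C1 * ℓ ^ 2 → U' ≤ 1 + 16 * C3 * ρ + C1 * C2 + C1 := by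
    intro U' K hK h
    have h1 := key K hK
    have h2 : (K : ℝ) * C2 ≤ C1 * ℓ ^ 2 * C2 := mul_le_mul_of_nonneg_right hK hC2.le
    have h3 : U' * ℓ ^ 2 ≤ (1 + 16 * C3 * ρ + C1 * C2 + C1) * ℓ ^ 2 := by
      have e1 : (1 + 16 * C3 * ρ + C1 * C2 + C1) * ℓ ^ 2 =
          ℓ ^ 2 + 16 * C3 * ρ * ℓ ^ 2 + C1 * ℓ ^ 2 * C2 + C1 * ℓ ^ 2 := by ring
      rw [e1]
      linarith
    exact le_of_mul_le_mul_right h3 (by linarith)
  -- the mixture encoded by one wave function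
  obtain ⟨D', Φ, hc, -, -, hΦ, hwm, -, hph⟩ := mix_enc D sp ℓ pr hNE.p0 ψ hNE.state
  have hΦn : nrm2 D' Φ = 1 := by
    rw [← wm_one, hwm]
    unfold wx
    simp only [wm_one, hNE.nrm, mul_one]
    exact hNE.p1
  have hkk : ∀ y, kkm D' Φ y = ∑ j, pr j * kkm D (ψ j) y := by
    intro y
    unfold kkm
    rw [hwm]
    rfl
  obtain ⟨hS', hN', -, -, hP', hK', -⟩ := tr_facts D' sp ℓ 8 (by norm_num) Φ hΦ
  have hS'' : IsState D' sp (ℓ + 16) (trW D' (dv 8) Φ) := by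
    have : ℓ + 2 * 8 = ℓ + 16 := by ring
    rw [← this]
    exact hS'
  have htr : ∀ j, IsState D sp (ℓ + 16) (trW D (dv 8) (ψ j)) ∧
      nrm2 D (trW D (dv 8) (ψ j)) = 1 ∧
      energy D sp (trW D (dv 8) (ψ j)) = energy D sp (ψ j) ∧
      (∀ y, phim D sp (trW D (dv 8) (ψ j)) y = phim D sp (ψ j) (y - dv 8)) ∧
      (∀ y, kkm D (trW D (dv 8) (ψ j)) y = kkm D (ψ j) (y - dv 8)) := by
    intro j
    obtain ⟨a1, a2, a3, -, a5, a6, -⟩ := tr_facts D sp ℓ 8 (by norm_num) (ψ j) (hNE.state j)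
    have : ℓ + 2 * 8 = ℓ + 16 := by ring
    rw [this] at a1
    exact ⟨a1, a2.trans (hNE.nrm j), a3, a5, a6⟩
  have hins : ∀ (m : ℕ) (s : Fin m → S) (y : Fin m → E3),
      (∀ j, Metric.closedBall (y j) 1 ⊆ cube (ℓ + 16)) → (∀ i j, i < j → y i ≠ y j) →
      FE (fun t => cnt sp t + (Finset.univ.filter (fun j => s j = t)).card) ≤
      E1 + (∑ j, (D'.charge (s j) * phim D' sp (trW D' (dv 8) Φ) (y j) +
        Cm * (1 + kkm D' (trW D' (dv 8) Φ) (y j)))) +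
        prs D' Cm' (List.ofFn fun j => (s j, y j)) := by
    intro m s y hy hyy
    have h3 := HM (ℓ + 16) hL (Zc D (ℓ + 16) T)
      (fun {J} _ _ sp' z hz' => by
        rw [Zc_cnt]
        exact le_csSup (peierls_bdd D hD hst sp' (ℓ + 16) T hL hT) hz')
      (List.ofFn fun j => (s j, y j))
      (List.forall_mem_ofFn_iff.2 fun j => hy j)
      (List.pairwise_ofFn.2 fun i j hij => hyy i j hij) sp
      (fun j => trW D (dv 8) (ψ j)) (fun j => (htr j).1) (sg_tr D 8 ψ hNE.sg)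
    simp only [countP_ofFn] at h3
    have hZpos : 0 < Zc D (ℓ + 16) T
        (fun t => cnt sp t + (Finset.univ.filter (fun j => s j = t)).card) :=
      (peierls_pos D hD hst _ (ℓ + 16) T hL hT).2
    have h4 := ins_mix D T hT _ hZpos sp pr (fun j => trW D (dv 8) (ψ j))
      (fun j => (htr j).2.1) hNE.p0 hNE.p1 _ _ h3
    rw [hFE]
    refine h4.trans (le_of_eq ?_)
    have e1 : ∑ j, (pr j * energy D sp (trW D (dv 8) (ψ j)) + T * (pr j * Real.log (pr j))) =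
        E1 := by
      rw [hE1]
      refine Finset.sum_congr rfl fun j _ => ?_
      rw [(htr j).2.2.1]
    rw [e1, prs_congr D D' hc]
    congr 2
    have e2 : ∀ j, (List.map (fun p : S × E3 => D.charge p.1 *
        phim D sp (trW D (dv 8) (ψ j)) p.2 + Cm * (nrm2 D (trW D (dv 8) (ψ j)) +
          kkm D (trW D (dv 8) (ψ j)) p.2)) (List.ofFn fun j => (s j, y j))).sum =
        ∑ i, (D.charge (s i) * phim D sp (ψ j) (y i - dv 8) +
          Cm * (1 + kkm D (ψ j) (y i - dv 8))) := by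
      intro j
      rw [List.map_ofFn, List.sum_ofFn]
      refine Finset.sum_congr rfl fun i _ => ?_
      simp only [Function.comp_apply]
      rw [(htr j).2.1, (htr j).2.2.2.1, (htr j).2.2.2.2]
    simp only [e2, Finset.mul_sum]
    rw [Finset.sum_comm]
    refine Finset.sum_congr rfl fun i _ => ?_
    rw [hP', hK', hph, hkk, hc]
    have e3 : ∀ j, pr j * (D.charge (s i) * phim D sp (ψ j) (y i - dv 8) +
        Cm * (1 + kkm D (ψ j) (y i - dv 8))) =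
        D.charge (s i) * (pr j * phim D sp (ψ j) (y i - dv 8)) +
          Cm * (pr j + pr j * kkm D (ψ j) (y i - dv 8)) := by
      intro j
      ring
    simp only [e3]
    rw [Finset.sum_add_distrib, ← Finset.mul_sum, ← Finset.mul_sum, Finset.sum_add_distrib,
      hNE.p1]
  obtain ⟨⟨K1, hK1, h1⟩, ⟨K2, hK2, h2⟩⟩ := H1 D' (fun s => by rw [hc])
    sp ℓ hℓℓ1 hN (by rw [hc]; exact hneu)
    Φ hΦ hΦn U (fun y hy => by rw [hph, hkk]; exact hU y hy) FE E1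
    (fun m s π hπ => avg_abs D' 1 Cm Cm' one_pos hCm.le hCm'.le (ℓ + 16) _ E1 m s π hπ sp
      (trW D' (dv 8) Φ) hS'' (hN'.trans hΦn) (fun y hy hyy => hins m s y hy hyy))
  rw [abs_le]
  constructor
  · have := fin (-U) K2 hK2 (h2.trans (le_of_eq (by ring)))
    linarith
  · exact fin U K1 hK1 h1

/-- TARGET -/
theorem levelT_g {S : Type} [Fintype S] [DecidableEq S] (D : Species S) (hD : D.Valid)
    (hf : ∀ s, D.charge s < 0 → D.fermion s = true)
    (T V ρ C0 : ℝ) (hT : 0 < T) (hV : 0 < V) (hρ : 0 < ρ) (hC0 : 0 ≤ C0) :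
    ∃ C ℓ0 : ℝ, 0 < C ∧ 0 < ℓ0 ∧ ∀ {I : Type} [Fintype I] [DecidableEq I] (sp : I → S) (ℓ : ℝ),
      ℓ0 ≤ ℓ → ℓ ^ 3 ≤ V * (Fintype.card I : ℝ) → (Fintype.card I : ℝ) ≤ ρ * ℓ ^ 3 →
      (∑ i, D.charge (sp i) = 0) → ∀ η : ℝ, 0 ≤ η → η ≤ 1 → ∀ {k : ℕ} (p : Fin k → ℝ)
      (ψ : Fin k → Wave D I), NE D sp ℓ T η (sSup (peierls D sp ℓ T)) p ψ → ∀ U : ℝ,
      (∀ y, Metric.closedBall y 2 ⊆ cube ℓ → |(∑ j, p j * phim D sp (ψ j) y) - U| ≤ C0 ∧
        ∑ j, p j * kkm D (ψ j) y ≤ C0) →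
      |U| ≤ C := by
  classical
  have hst := hstable D hD hf
  obtain ⟨B, κ, hκ, hB, hB2⟩ := hilb D.charge
  have hall : ∀ b : S → ℕ, ∃ C ℓ0 : ℝ, 0 < C ∧ 0 < ℓ0 ∧ (b ∈ B →
      ∀ {I : Type} [Fintype I] [DecidableEq I] [Nonempty I]
      (sp : I → S) (ℓ : ℝ), ℓ0 ≤ ℓ → ℓ ^ 3 ≤ V * (Fintype.card I : ℝ) →
      (Fintype.card I : ℝ) ≤ ρ * ℓ ^ 3 → (∑ i, D.charge (sp i) = 0) →
      (∀ s, b s ≠ 0 → κ * (Fintype.card I : ℝ) ≤ cnt sp s) →
      ∀ η : ℝ, 0 ≤ η → η ≤ 1 → ∀ {k : ℕ} (pr : Fin k → ℝ)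
      (ψ : Fin k → Wave D I), NE D sp ℓ T η (sSup (peierls D sp ℓ T)) pr ψ → ∀ U : ℝ,
      (∀ y, Metric.closedBall y 2 ⊆ cube ℓ → |(∑ j, pr j * phim D sp (ψ j) y) - U| ≤ C0 ∧
        ∑ j, pr j * kkm D (ψ j) y ≤ C0) →
      |U| ≤ C) := by
    intro b
    by_cases hb : b ∈ B
    · obtain ⟨C, ℓ0, h1, h2, h3⟩ := level_gT D hD hst hf b (hB b hb).2 (hB b hb).1 T V ρ C0 κ
        hT hV hρ hC0 hκ
      exact ⟨C, ℓ0, h1, h2, fun _ => h3⟩
    · exact ⟨1, 1, one_pos, one_pos, fun h => absurd h hb⟩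
  choose C ℓ0 hC hℓ0 H using hall
  have hCs : 0 ≤ ∑ b ∈ B, C b := Finset.sum_nonneg fun b _ => (hC b).le
  have hℓs : 0 ≤ ∑ b ∈ B, ℓ0 b := Finset.sum_nonneg fun b _ => (hℓ0 b).le
  refine ⟨1 + ∑ b ∈ B, C b, 1 + ∑ b ∈ B, ℓ0 b, by positivity, by positivity, ?_⟩
  intro I _ _ sp ℓ hℓ hVN hN hneu η hη hη1 k pr ψ hNE U hU
  have hℓ1 : 0 < ℓ := by linarith
  have hNpos : (0 : ℝ) < Fintype.card I := by
    have h1 : 0 < V * (Fintype.card I : ℝ) := lt_of_lt_of_le (by positivity) hVN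
    exact pos_of_mul_pos_right h1 hV.le
  have hNn : 0 < Fintype.card I := by exact_mod_cast hNpos
  have hI : Nonempty I := Fintype.card_pos_iff.mp hNn
  have hsum : ∑ s, (cnt sp s : ℝ) * D.charge s = 0 := by
    rw [← sum_sp]
    exact hneu
  have hcard := cnt_card sp
  have hn0 : (fun s => cnt sp s) ≠ 0 := by
    intro h
    have h1 : ∑ s, (cnt sp s : ℝ) = 0 := Finset.sum_eq_zero fun s _ => by
      have h2 : cnt sp s = 0 := congrFun h s
      rw [h2, Nat.cast_zero]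
    rw [hcard] at h1
    linarith
  obtain ⟨b, hb, hb2⟩ := hB2 (fun s => cnt sp s) hsum hn0
  rw [hcard] at hb2
  have h1 : ℓ0 b ≤ ∑ a ∈ B, ℓ0 a := Finset.single_le_sum (f := ℓ0) (fun a _ => (hℓ0 a).le) hb
  have h2 : C b ≤ ∑ a ∈ B, C a := Finset.single_le_sum (f := C) (fun a _ => (hC a).le) hb
  have h3 := H b hb sp ℓ (by linarith) hVN hN hneu hb2 η hη hη1 pr ψ hNE U hU
  linarith

end Pool.Agent.Helper780_CP.RB36
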