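import Pool.Agent.Helper780_CP.BSet
import Pool.Agent.Helper780_CP.RB29
import Pool.Agent.Helper780_CP.RB35
import Pool.Agent.Helper780_CP.RB36

/-! The mean potential, uniformly in the cube. -/

set_option autoImplicit false

open MeasureTheory
open scoped Topology

namespace Pool.Agent.Helper780_CP

open Pool.Agent.Helper985.CP

/-- a point of the closed cube is in the wall layer or at distance at least 20 from the boundary -/
theorem wall_or (ℓ : ℝ) (y : E3) (hy : ∀ k, 0 ≤ y k ∧ y k ≤ ℓ) :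
    y ∈ wall ℓ ∨ Metric.closedBall y 2 ⊆ cube ℓ := by
  by_cases h : ∀ k, 20 ≤ y k ∧ y k ≤ ℓ - 20
  · right
    intro v hv
    rw [Metric.mem_closedBall, dist_eq_norm] at hv
    intro k
    have h1 : |v k - y k| ≤ 2 := by
      have h2 := PiLp.norm_apply_le (v - y) k
      rw [Real.norm_eq_abs] at h2
      exact h2.trans hv
    have h3 := abs_le.1 h1
    have h4 := h k
    constructor <;> linarith
  · left
    refine ⟨fun k => ?_, h⟩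
    have := hy k
    constructor <;> linarith [this.1, this.2]

/-- zero temperature -/
theorem full0 {S : Type} [Fintype S] [DecidableEq S] (D : Species S) (hD : D.Valid)
    (hf : ∀ s, D.charge s < 0 → D.fermion s = true)
    (ρ : ℝ) (hρ : 0 ≤ ρ) :
    ∃ C : ℝ, 0 < C ∧
    ∀ {I : Type} [Fintype I] [DecidableEq I] (sp : I → S) (ℓ : ℝ), 0 < ℓ →
      (Fintype.card I : ℝ) ≤ ρ * ℓ ^ 3 → (∑ i, D.charge (sp i) = 0) →
      ∀ Ψ : Wave D I, IsState D sp ℓ Ψ → nrm2 D Ψ = 1 →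
      energy D sp Ψ ≤ sInf (energies D sp ℓ) + 1 / (1 + (Fintype.card I : ℝ)) ^ 3 →
      ∀ y : E3, (∀ k, 0 ≤ y k ∧ y k ≤ ℓ) → |phim D sp Ψ y| ≤ C := by
  have hst := hstable D hD hf
  obtain ⟨z, hz0, hz⟩ : ∃ z : ℝ, 0 ≤ z ∧ ∀ s, |D.charge s| ≤ z := by
    refine ⟨∑ s, |D.charge s|, Finset.sum_nonneg fun s _ => abs_nonneg _, fun s => ?_⟩
    exact Finset.single_le_sum (f := fun s => |D.charge s|) (fun t _ => abs_nonneg _)
      (Finset.mem_univ s)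
  obtain ⟨cm, hcm0, hcm⟩ := exists_cm D hD
  have hc0 : ∀ s, (0 : ℝ) < |D.charge s| := fun s => abs_pos.2 (hD.charge_ne s)
  obtain ⟨K₁, C₁, hK₁, hC₁, hRB⟩ := RC2.ren_ball z hz0
  have hRB' : RB z K₁ C₁ := fun c x χ h1 h2 h3 => hRB c x χ h1 h2 h3
  obtain ⟨F, hF2, hF⟩ := cover12
  obtain ⟨a, b, l, hK⟩ := RK0.ker_exists
  obtain ⟨C, M, hC, HI⟩ := ROUT.interior D hD hst hf z cm K₁ C₁ hcm0
    (fun s => ⟨hcm s, hz s⟩) hK₁ hC₁ hRB' F hF hF2 ρ hρ a b l hK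
  obtain ⟨C2, ℓ1, hC2, hℓ1, HL⟩ := RB35.level_g D hD hf ρ C hρ hC.le
  obtain ⟨CB, hCB, HB⟩ := bs0 D hD hf ρ hρ
  obtain ⟨C4, ℓ2, hC4, HF⟩ := RB29.final_pot D hD hf hc0 CB hCB.le
  obtain ⟨C3, hC3, HS⟩ := RSMALL.small D hD hf ρ (max 1000 (max ℓ1 ℓ2)) hρ
    (lt_of_lt_of_le (by norm_num) (le_max_left _ _))
  refine ⟨C + C2 + C3 + C4, by positivity, ?_⟩
  intro I _ _ sp ℓ hℓ hcard hneu Ψ hΨ hn hE y hy
  have hN0 : (0 : ℝ) ≤ Fintype.card I := Nat.cast_nonneg _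
  have hη : (0 : ℝ) ≤ 1 / (1 + (Fintype.card I : ℝ)) ^ 3 := by positivity
  have hη1 : 1 / (1 + (Fintype.card I : ℝ)) ^ 3 * (1 + (Fintype.card I : ℝ)) ^ 3 ≤ 1 := by
    rw [div_mul_cancel₀]
    positivity
  have h12 : (1 + (Fintype.card I : ℝ)) ^ 2 ≤ (1 + (Fintype.card I : ℝ)) ^ 3 :=
    pow_le_pow_right₀ (by linarith) (by norm_num)
  have hη1' : 1 / (1 + (Fintype.card I : ℝ)) ^ 3 * (1 + (Fintype.card I : ℝ)) ^ 2 ≤ 1 :=
    (mul_le_mul_of_nonneg_left h12 hη).trans hη1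
  have hη2 : 1 / (1 + (Fintype.card I : ℝ)) ^ 3 ≤ 1 := by
    rw [div_le_one (by positivity)]
    exact one_le_pow₀ (by linarith)
  have hE1 : energy D sp Ψ ≤ sInf (energies D sp ℓ) + 1 := by linarith
  rcases le_or_gt (max 1000 (max ℓ1 ℓ2)) ℓ with hbig | hsmall
  · have h0 : 1000 ≤ ℓ := (le_max_left _ _).trans hbig
    have h4 : 4 ≤ ℓ := by linarith
    have h1 : ℓ1 ≤ ℓ := ((le_max_left _ _).trans (le_max_right _ _)).trans hbig
    have h2 : ℓ2 ≤ ℓ := ((le_max_right _ _).trans (le_max_right _ _)).trans hbig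
    obtain ⟨h3, h5⟩ := HI sp ℓ h4 hcard hneu _ hη hη1' Ψ hΨ hn hE
    have h3' : ∀ y, Metric.closedBall y 2 ⊆ cube ℓ →
        |phim D sp Ψ y - wm D (phb D sp ℓ) Ψ| ≤ C := fun y hy => by
      have := h3 1 one_pos le_rfl y
        ((Metric.closedBall_subset_closedBall (by norm_num)).trans hy)
      simpa using this
    have h6 := HL sp ℓ h1 hcard hneu Ψ hΨ hn hE1 (wm D (phb D sp ℓ) Ψ) (fun y hy =>
      ⟨h3' y hy, h5 y hy⟩)
    have hBS := HB sp ℓ h0 hcard hneu _ hη hη1 Ψ hΨ hn hE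
    have h7 : |phim D sp Ψ y - wm D (phb D sp ℓ) Ψ| ≤ C + C4 := by
      rcases wall_or ℓ y hy with hw | hw
      · have h8 := HF sp ℓ _ (fun _ : Fin 1 => (1 : ℝ)) (fun _ => Ψ) h2 hBS y hw
        rw [wx_one] at h8
        simp only [Fin.sum_univ_one, one_mul] at h8
        linarith
      · linarith [h3' y hw]
    have h8 : |phim D sp Ψ y| ≤ |phim D sp Ψ y - wm D (phb D sp ℓ) Ψ| +
        |wm D (phb D sp ℓ) Ψ| := by
      have := abs_add_le (phim D sp Ψ y - wm D (phb D sp ℓ) Ψ) (wm D (phb D sp ℓ) Ψ)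
      simpa using this
    linarith
  · have h3 := HS sp ℓ hℓ hsmall.le hcard hneu Ψ hΨ hn hE1 y
    linarith

/-- positive temperature -/
theorem fullT {S : Type} [Fintype S] [DecidableEq S] (D : Species S) (hD : D.Valid)
    (hf : ∀ s, D.charge s < 0 → D.fermion s = true)
    (T ρ₁ ρ₂ : ℝ) (hT : 0 < T) (hρ₁ : 0 < ρ₁) (hρ₂ : 0 < ρ₂) :
    ∃ C : ℝ, 0 < C ∧
    ∀ {I : Type} [Fintype I] [DecidableEq I] (sp : I → S) (ℓ : ℝ), 0 < ℓ →
      ρ₁ * ℓ ^ 3 ≤ (Fintype.card I : ℝ) →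
      (Fintype.card I : ℝ) ≤ ρ₂ * ℓ ^ 3 → (∑ i, D.charge (sp i) = 0) →
      ∀ {k : ℕ} (p : Fin k → ℝ) (ψ : Fin k → Wave D I),
      NE D sp ℓ T (1 / (1 + (Fintype.card I : ℝ)) ^ 3) (sSup (peierls D sp ℓ T)) p ψ →
      ∀ y : E3, (∀ k, 0 ≤ y k ∧ y k ≤ ℓ) →
        |∑ j, p j * phim D sp (ψ j) y| ≤ C := by
  have hst := hstable D hD hf
  obtain ⟨z, hz0, hz⟩ : ∃ z : ℝ, 0 ≤ z ∧ ∀ s, |D.charge s| ≤ z := by
    refine ⟨∑ s, |D.charge s|, Finset.sum_nonneg fun s _ => abs_nonneg _, fun s => ?_⟩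
    exact Finset.single_le_sum (f := fun s => |D.charge s|) (fun t _ => abs_nonneg _)
      (Finset.mem_univ s)
  obtain ⟨cm, hcm0, hcm⟩ := exists_cm D hD
  have hc0 : ∀ s, (0 : ℝ) < |D.charge s| := fun s => abs_pos.2 (hD.charge_ne s)
  obtain ⟨K₁, C₁, hK₁, hC₁, hRB⟩ := RC2.ren_ball z hz0
  have hRB' : RB z K₁ C₁ := fun c x χ h1 h2 h3 => hRB c x χ h1 h2 h3
  obtain ⟨F, hF2, hF⟩ := cover12
  obtain ⟨a, b, l, hK⟩ := RK0.ker_exists
  have hV : 0 < 1 / ρ₁ := by positivity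
  obtain ⟨C, M, hC, HI⟩ := RH11.interiorT D hD hst hf z cm K₁ C₁ hcm0
    (fun s => ⟨hcm s, hz s⟩) hK₁ hC₁ hRB' F hF hF2 T (1 / ρ₁) ρ₂ hT hV hρ₂ a b l hK
  obtain ⟨C2, ℓ1, hC2, hℓ1, HL⟩ := RB36.levelT_g D hD hf T (1 / ρ₁) ρ₂ C hT hV hρ₂ hC.le
  obtain ⟨CB, hCB, HB⟩ := bsT D hD hf T (1 / ρ₁) ρ₂ hT hV hρ₂
  obtain ⟨C4, ℓ2, hC4, HF⟩ := RB29.final_pot D hD hf hc0 CB hCB.le
  obtain ⟨C3, hC3, HS⟩ := RKT10.smallT D hD hf T (1 / ρ₁) ρ₂ (max 1000 (max ℓ1 ℓ2)) hT hV hρ₂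
    (lt_of_lt_of_le (by norm_num) (le_max_left _ _))
  refine ⟨C + C2 + C3 + C4, by positivity, ?_⟩
  intro I _ _ sp ℓ hℓ hc1 hcard hneu k p ψ hN y hy
  have hN0 : (0 : ℝ) ≤ Fintype.card I := Nat.cast_nonneg _
  have hcV : ℓ ^ 3 ≤ 1 / ρ₁ * (Fintype.card I : ℝ) := by
    rw [div_mul_eq_mul_div, le_div_iff₀ hρ₁]
    linarith
  have hη : (0 : ℝ) ≤ 1 / (1 + (Fintype.card I : ℝ)) ^ 3 := by positivity
  have hη1 : 1 / (1 + (Fintype.card I : ℝ)) ^ 3 * (1 + (Fintype.card I : ℝ)) ^ 3 ≤ 1 := by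
    rw [div_mul_cancel₀]
    positivity
  have h12 : (1 + (Fintype.card I : ℝ)) ^ 2 ≤ (1 + (Fintype.card I : ℝ)) ^ 3 :=
    pow_le_pow_right₀ (by linarith) (by norm_num)
  have hη1' : 1 / (1 + (Fintype.card I : ℝ)) ^ 3 * (1 + (Fintype.card I : ℝ)) ^ 2 ≤ 1 :=
    (mul_le_mul_of_nonneg_left h12 hη).trans hη1
  have hη2 : 1 / (1 + (Fintype.card I : ℝ)) ^ 3 ≤ 1 := by
    rw [div_le_one (by positivity)]
    exact one_le_pow₀ (by linarith)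
  rcases le_or_gt (max 1000 (max ℓ1 ℓ2)) ℓ with hbig | hsmall
  · have h0 : 1000 ≤ ℓ := (le_max_left _ _).trans hbig
    have h4 : 4 ≤ ℓ := by linarith
    have h1 : ℓ1 ≤ ℓ := ((le_max_left _ _).trans (le_max_right _ _)).trans hbig
    have h2 : ℓ2 ≤ ℓ := ((le_max_right _ _).trans (le_max_right _ _)).trans hbig
    obtain ⟨h3, h5⟩ := HI sp ℓ h4 hcV hcard hneu _ _ hη hη1' p ψ hN
    have h3' : ∀ y, Metric.closedBall y 2 ⊆ cube ℓ →
        |(∑ j, p j * phim D sp (ψ j) y) - wx D p ψ (phb D sp ℓ)| ≤ C := fun y hy => by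
      have := h3 1 one_pos le_rfl y
        ((Metric.closedBall_subset_closedBall (by norm_num)).trans hy)
      simpa using this
    have h6 := HL sp ℓ h1 hcV hcard hneu _ hη hη2 p ψ hN (wx D p ψ (phb D sp ℓ)) (fun y hy =>
      ⟨h3' y hy, h5 y hy⟩)
    have hBS := HB sp ℓ h0 hcV hcard hneu _ _ hη hη1 p ψ hN
    have h7 : |(∑ j, p j * phim D sp (ψ j) y) - wx D p ψ (phb D sp ℓ)| ≤ C + C4 := by
      rcases wall_or ℓ y hy with hw | hw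
      · have h8 := HF sp ℓ _ p ψ h2 hBS y hw
        linarith
      · linarith [h3' y hw]
    have h8 : |∑ j, p j * phim D sp (ψ j) y| ≤
        |(∑ j, p j * phim D sp (ψ j) y) - wx D p ψ (phb D sp ℓ)| +
        |wx D p ψ (phb D sp ℓ)| := by
      have := abs_add_le ((∑ j, p j * phim D sp (ψ j) y) - wx D p ψ (phb D sp ℓ))
        (wx D p ψ (phb D sp ℓ))
      simpa using this
    linarith
  · have h3 := HS sp ℓ hℓ hsmall.le hcV hcard hneu _ _ hη hη2 p ψ hN y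
    linarith

end Pool.Agent.Helper780_CP
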