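import Pool.Agent.Helper780_CP.BnDefs2

/-! Ground state energy and free energy in the presence of a test charge. -/

set_option autoImplicit false

open MeasureTheory
open scoped Topology

namespace Pool.Agent.Helper780_CP

open Pool.Agent.Helper985.CP

/-- The ground state energy `E_Λ(n; y, t)` of `H + t φ(y)`. -/
noncomputable def groundEnergyQ {S : Type} [Fintype S] [DecidableEq S] (D : Species S) (ℓ : ℝ)
    (n : S → ℕ) (y : E3) (t : ℝ) : ℝ :=
  sInf (energiesQ D (fun i : (Σ s, Fin (n s)) => i.1) ℓ y t)

/-- The free energy `F_Λ(n, T; y, t) = -T log Tr exp(-(H + t φ(y)) / T)`, by Peierls' variational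
principle. -/
noncomputable def freeEnergyQ {S : Type} [Fintype S] [DecidableEq S] (D : Species S) (ℓ T : ℝ)
    (n : S → ℕ) (y : E3) (t : ℝ) : ℝ :=
  -T * Real.log (sSup (peierlsQ D (fun i : (Σ s, Fin (n s)) => i.1) ℓ T y t))

end Pool.Agent.Helper780_CP
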