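import Pool.Agent.Helper780_CP.LLDefs2
import Pool.Agent.Helper780_CP.BnDefs2
import Pool.Agent.Helper780_CP.RKT10
import Pool.Agent.Helper780_CP.RKT1
import Pool.Agent.Helper780_CP.RKT2
import Pool.Agent.Helper780_CP.RG1
import Pool.Agent.Helper780_CP.FlatT
import Pool.Agent.Helper985.CT.M_peierls_bdd
import Pool.Agent.Helper985.CT.M_peierls_pos
import Pool.Agent.Helper985.CT.M_center_upper

set_option autoImplicit false

open MeasureTheory
open scoped Topology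

namespace Pool.Agent.Helper780_CP.RB38

open Pool.Agent.Helper780_CP
open Pool.Agent.Helper985.CP

open Pool.Agent.Helper780_CP Pool.Agent.Helper985.CP

/-- the free energy functional with a test charge -/
noncomputable def b38_F {S : Type} (D : Species S) {I : Type} [Fintype I] [DecidableEq I]
    (sp : I → S) (T : ℝ) (y : E3) (t : ℝ) {k : ℕ} (ψ : Fin k → Wave D I) (p : Fin k → ℝ) : ℝ :=
  ∑ j, (p j * energyQ D sp y t (ψ j) + T * (p j * Real.log (p j)))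

theorem b38_F_split {S : Type} (D : Species S) {I : Type} [Fintype I] [DecidableEq I]
    (sp : I → S) (T : ℝ) (y : E3) (t : ℝ) {k : ℕ} (ψ : Fin k → Wave D I) (p : Fin k → ℝ) :
    b38_F D sp T y t ψ p = ∑ j, (p j * energy D sp (ψ j) + T * (p j * Real.log (p j))) +
      t * ∑ j, p j * phim D sp (ψ j) y := by
  unfold b38_F energyQ
  rw [Finset.mul_sum, ← Finset.sum_add_distrib]
  refine Finset.sum_congr rfl fun j _ => ?_
  ring

theorem b38_zero {S : Type} (D : Species S) {I : Type} [Fintype I] [DecidableEq I]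
    (sp : I → S) (ℓ T : ℝ) (y : E3) : peierlsQ D sp ℓ T y 0 = peierls D sp ℓ T := by
  unfold peierlsQ peierls energyQ
  simp only [zero_mul, add_zero]

/-- Gibbs: every mixture has at least the free energy of the supremum -/
theorem b38_gibbs {S : Type} (D : Species S) {I : Type} [Fintype I] [DecidableEq I]
    (sp : I → S) (ℓ T : ℝ) (hT : 0 < T) (y : E3) (t : ℝ)
    (hb : BddAbove (peierlsQ D sp ℓ T y t)) (hpos : 0 < sSup (peierlsQ D sp ℓ T y t))
    {k : ℕ} (ψ : Fin k → Wave D I) (hψ : Ortho D sp ℓ ψ) (p : Fin k → ℝ) (hp : ∀ j, 0 ≤ p j)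
    (hp1 : ∑ j, p j = 1) :
    -T * Real.log (sSup (peierlsQ D sp ℓ T y t)) ≤ b38_F D sp T y t ψ p := by
  have h1 := gibbs_fin p (fun j => -(energyQ D sp y t (ψ j)) / T) hp hp1
  have h2 : ∑ j, Real.exp (-(energyQ D sp y t (ψ j)) / T) ≤ sSup (peierlsQ D sp ℓ T y t) :=
    le_csSup hb ⟨k, ψ, hψ, rfl⟩
  have h3 := (Real.le_log_iff_exp_le hpos).2 (h1.trans h2)
  have h4 : ∑ j, (p j * (-(energyQ D sp y t (ψ j)) / T) - p j * Real.log (p j)) =
      -(b38_F D sp T y t ψ p) / T := by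
    unfold b38_F
    rw [← Finset.sum_neg_distrib, Finset.sum_div]
    refine Finset.sum_congr rfl fun j _ => ?_
    field_simp
    ring
  rw [h4, div_le_iff₀ hT] at h3
  linarith

/-- there are mixtures with nearly the minimal free energy -/
theorem b38_near {S : Type} (D : Species S) {I : Type} [Fintype I] [DecidableEq I]
    (sp : I → S) (ℓ T : ℝ) (hT : 0 < T) (y : E3) (t : ℝ)
    (hpos : 0 < sSup (peierlsQ D sp ℓ T y t)) (ε : ℝ) (hε : 0 < ε) :
    ∃ (k : ℕ) (ψ : Fin k → Wave D I) (p : Fin k → ℝ), Ortho D sp ℓ ψ ∧ (∀ j, 0 ≤ p j) ∧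
      ∑ j, p j = 1 ∧ b38_F D sp T y t ψ p ≤ -T * Real.log (sSup (peierlsQ D sp ℓ T y t)) + ε := by
  have hne : (peierlsQ D sp ℓ T y t).Nonempty := by
    by_contra h
    rw [Set.not_nonempty_iff_eq_empty] at h
    rw [h, Real.sSup_empty] at hpos
    exact lt_irrefl _ hpos
  obtain ⟨Z, hZ⟩ : ∃ Z, Z = sSup (peierlsQ D sp ℓ T y t) := ⟨_, rfl⟩
  have hZ0 : 0 < Z := by rw [hZ]; exact hpos
  have h1 : Z * Real.exp (-ε / T) < Z := by
    have h2 : Real.exp (-ε / T) < 1 := by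
      rw [Real.exp_lt_one_iff]
      exact div_neg_of_neg_of_pos (by linarith) hT
    nlinarith
  rw [hZ] at h1
  obtain ⟨z, ⟨k, ψ, hψ, hz⟩, hz1⟩ := exists_lt_of_lt_csSup hne h1
  rw [← hZ] at hz1
  have hz0 : 0 < z := lt_trans (by positivity) hz1
  refine ⟨k, ψ, fun j => Real.exp (-(energyQ D sp y t (ψ j)) / T) / z, hψ,
    fun j => by positivity, ?_, ?_⟩
  · rw [← Finset.sum_div, ← hz, div_self hz0.ne']
  · have hsum1 : ∑ j, Real.exp (-(energyQ D sp y t (ψ j)) / T) / z = 1 := by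
      rw [← Finset.sum_div, ← hz, div_self hz0.ne']
    have e1 : b38_F D sp T y t ψ (fun j => Real.exp (-(energyQ D sp y t (ψ j)) / T) / z) =
        -T * Real.log z := by
      unfold b38_F
      have e2 : ∀ j, (Real.exp (-(energyQ D sp y t (ψ j)) / T) / z * energyQ D sp y t (ψ j) +
          T * (Real.exp (-(energyQ D sp y t (ψ j)) / T) / z *
            Real.log (Real.exp (-(energyQ D sp y t (ψ j)) / T) / z))) =
          (-T * Real.log z) * (Real.exp (-(energyQ D sp y t (ψ j)) / T) / z) := by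
        intro j
        rw [Real.log_div (Real.exp_pos _).ne' hz0.ne', Real.log_exp]
        field_simp
        ring
      rw [Finset.sum_congr rfl fun j _ => e2 j, ← Finset.mul_sum, hsum1, mul_one]
    rw [e1, ← hZ]
    have h5 : Real.log (Z * Real.exp (-ε / T)) ≤ Real.log z :=
      Real.log_le_log (by positivity) hz1.le
    rw [Real.log_mul hZ0.ne' (Real.exp_pos _).ne', Real.log_exp] at h5
    have h6 := mul_le_mul_of_nonneg_left h5 hT.le
    have h7 : T * (Real.log Z + -ε / T) = T * Real.log Z - ε := by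
      field_simp
      ring
    rw [h7] at h6
    linarith

/-- stability and Hardy -/
theorem b38_low {S : Type} [Fintype S] [DecidableEq S] (D : Species S) (hD : D.Valid)
    (hf : ∀ s, D.charge s < 0 → D.fermion s = true) {I : Type} [Fintype I] [DecidableEq I]
    (sp : I → S) (ℓ : ℝ) (hℓ : 0 < ℓ) (y : E3) :
    ∃ a C1 : ℝ, 0 < a ∧ 0 ≤ C1 ∧
      (∀ Ψ : Wave D I, IsState D sp ℓ Ψ → nrm2 D Ψ = 1 →
        |phim D sp Ψ y| ≤ a * ((Fintype.card I : ℝ) + KN D sp Ψ)) ∧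
      (∀ t : ℝ, |t| * a ≤ 1 / 4 → ∀ Ψ : Wave D I, IsState D sp ℓ Ψ → nrm2 D Ψ = 1 →
        1 / 2 * KN D sp Ψ - C1 ≤ energyQ D sp y t Ψ) := by
  obtain ⟨A, hA⟩ := hstable D hD hf
  have hN0 : (0 : ℝ) ≤ (Fintype.card I : ℝ) := Nat.cast_nonneg _
  have hz0 : 0 ≤ ∑ s, |D.charge s| := Finset.sum_nonneg fun t _ => abs_nonneg _
  have hm0 : 0 ≤ ∑ s, D.mass s := Finset.sum_nonneg fun t _ => (hD.mass_pos t).le
  have hKn : ∀ Ψ : Wave D I, 0 ≤ KN D sp Ψ := fun Ψ => RSMALL.sm_kinsum_nonneg D hD sp Ψ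
  obtain ⟨a, ha⟩ : ∃ a, a = (∑ s, |D.charge s|) * (1 + 8 * ∑ s, D.mass s) + 1 := ⟨_, rfl⟩
  have ha0 : 0 < a := by rw [ha]; positivity
  have hph : ∀ Ψ : Wave D I, IsState D sp ℓ Ψ → nrm2 D Ψ = 1 →
      |phim D sp Ψ y| ≤ a * ((Fintype.card I : ℝ) + KN D sp Ψ) := by
    intro Ψ hΨ hn
    have h1 := RSMALL.sm_phim D hD sp ℓ Ψ hΨ hn y
    refine h1.trans ?_
    have h2 := hKn Ψ
    change (∑ s, |D.charge s|) * ((Fintype.card I : ℝ) + 8 * (∑ s, D.mass s) * KN D sp Ψ) ≤ _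
    rw [ha]
    have h3 : 0 ≤ (∑ s, |D.charge s|) * ((∑ s, D.mass s) * (Fintype.card I : ℝ)) := by positivity
    have h4 : 0 ≤ (∑ s, |D.charge s|) * KN D sp Ψ := by positivity
    nlinarith
  refine ⟨a, 4 * |A| * (Fintype.card I : ℝ) + 1 / 4 * (Fintype.card I : ℝ), ha0, by positivity,
    hph, ?_⟩
  intro t ht Ψ hΨ hn
  have h1 : (3 / 4) * ∑ i, kinE D sp i Ψ - 4 * |A| * (Fintype.card I : ℝ) * nrm2 D Ψ ≤
      energy D sp Ψ := by
    refine pb_lb D hD |A| sp ?_ ℓ hℓ Ψ hΨ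
    intro ℓ' hℓ' Φ hΦ
    refine le_trans ?_ (stable_any D A hA sp ℓ' hℓ' Φ hΦ)
    have h2 := nrm2_nn D Φ
    have h3 := le_abs_self A
    have h4 : (0 : ℝ) ≤ (Fintype.card I : ℝ) * nrm2 D Φ := by positivity
    nlinarith
  rw [← RKT1.k1_KN D sp ℓ Ψ hΨ, hn, mul_one] at h1
  have h5 := hph Ψ hΨ hn
  have h6 : |t * phim D sp Ψ y| ≤ 1 / 4 * ((Fintype.card I : ℝ) + KN D sp Ψ) := by
    rw [abs_mul]
    have h7 : 0 ≤ (Fintype.card I : ℝ) + KN D sp Ψ := add_nonneg hN0 (hKn Ψ)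
    calc |t| * |phim D sp Ψ y| ≤ |t| * (a * ((Fintype.card I : ℝ) + KN D sp Ψ)) :=
          mul_le_mul_of_nonneg_left h5 (abs_nonneg _)
      _ = (|t| * a) * ((Fintype.card I : ℝ) + KN D sp Ψ) := by ring
      _ ≤ _ := mul_le_mul_of_nonneg_right ht h7
  have h8 := (abs_le.1 h6).1
  unfold energyQ
  linarith

/-- TARGET -/
theorem fe_pert {S : Type} [Fintype S] [DecidableEq S] (D : Species S) (hD : D.Valid)
    (hf : ∀ s, D.charge s < 0 → D.fermion s = true) {I : Type} [Fintype I] [DecidableEq I]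
    (sp : I → S) (ℓ T C η : ℝ) (hℓ : 0 < ℓ) (hT : 0 < T) (hC : 0 < C) (hη : 0 < η) (y : E3)
    (h : ∀ (k : ℕ) (ψ : Fin k → Wave D I), Ortho D sp ℓ ψ → ∀ p : Fin k → ℝ, (∀ j, 0 ≤ p j) →
      ∑ j, p j = 1 → ∑ j, (p j * energy D sp (ψ j) + T * (p j * Real.log (p j))) ≤
        -T * Real.log (sSup (peierls D sp ℓ T)) + η →
      |∑ j, p j * phim D sp (ψ j) y| ≤ C) :
    ∃ t0 : ℝ, 0 < t0 ∧ ∀ t : ℝ, |t| ≤ t0 →
      BddAbove (peierlsQ D sp ℓ T y t) ∧ 0 < sSup (peierlsQ D sp ℓ T y t) ∧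
      |(-T * Real.log (sSup (peierlsQ D sp ℓ T y t))) - (-T * Real.log (sSup (peierls D sp ℓ T)))|
        ≤ 2 * C * |t| := by
  have hst := hstable D hD hf
  obtain ⟨a, C1, ha, hC1, hph, hlow⟩ := b38_low D hD hf sp ℓ hℓ y
  obtain ⟨Cf, hCf, HF⟩ := RKT1.free_bound D hD T (1 / 2) hT (by norm_num)
  obtain ⟨Cg, hCg, HG⟩ := RKT1.free_bound D hD T (1 / 4) hT (by norm_num)
  have hN0 : (0 : ℝ) ≤ (Fintype.card I : ℝ) := Nat.cast_nonneg _
  have hKn : ∀ Ψ : Wave D I, 0 ≤ KN D sp Ψ := fun Ψ => RSMALL.sm_kinsum_nonneg D hD sp Ψ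
  have hSG : ∀ {k : ℕ} (ψ : Fin k → Wave D I), Ortho D sp ℓ ψ → SGc D 1 ψ := by
    intro k ψ hψ γ
    rw [one_mul]
    exact (cu_comb D sp ℓ ψ hψ γ).le
  obtain ⟨hne0, hpos0⟩ := peierls_pos D hD hst sp ℓ T hℓ hT
  have hbdd0 := peierls_bdd D hD hst sp ℓ T hℓ hT
  -- the sums are bounded
  have hbdd : ∀ t : ℝ, |t| * a ≤ 1 / 4 → BddAbove (peierlsQ D sp ℓ T y t) := by
    intro t ht
    refine ⟨Real.exp (C1 / T) * Real.exp (Cf * (1 + ℓ ^ 3 + (Fintype.card I : ℝ))), ?_⟩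
    rintro z ⟨k, ψ, hψ, rfl⟩
    have h1 := HF sp ℓ hℓ 1 zero_le_one ψ hψ.1 (hSG ψ hψ)
    rw [one_mul] at h1
    refine le_trans ?_ (mul_le_mul_of_nonneg_left h1 (Real.exp_pos _).le)
    rw [Finset.mul_sum]
    refine Finset.sum_le_sum fun j _ => ?_
    have h2 := cu_nrm2_one D sp ℓ ψ hψ j
    rw [h2, one_mul, mul_one, ← Real.exp_add]
    apply Real.exp_le_exp.2
    rw [← add_div]
    refine div_le_div_of_nonneg_right ?_ hT.le
    have h3 := hlow t ht (ψ j) (hψ.1 j) h2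
    linarith
  have hpos : ∀ t : ℝ, |t| * a ≤ 1 / 4 → 0 < sSup (peierlsQ D sp ℓ T y t) := by
    intro t ht
    obtain ⟨z, ⟨k, ψ, hψ, hz⟩, hz1⟩ := exists_lt_of_lt_csSup hne0 hpos0
    have hk : (Finset.univ : Finset (Fin k)).Nonempty := by
      by_contra hcon
      rw [Finset.not_nonempty_iff_eq_empty] at hcon
      rw [hz, hcon, Finset.sum_empty] at hz1
      exact lt_irrefl _ hz1
    refine lt_of_lt_of_le ?_ (le_csSup (hbdd t ht) ⟨k, ψ, hψ, rfl⟩)
    exact Finset.sum_pos (fun j _ => Real.exp_pos _) hk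
  -- kinetic energy of mixtures
  have hkin : ∀ t : ℝ, |t| * a ≤ 1 / 4 → ∀ {k : ℕ} (ψ : Fin k → Wave D I), Ortho D sp ℓ ψ →
      ∀ p : Fin k → ℝ, (∀ j, 0 ≤ p j) → ∑ j, p j = 1 →
      ∑ j, p j * KN D sp (ψ j) ≤ 4 * (b38_F D sp T y t ψ p + C1 +
        T * (Cg * (1 + ℓ ^ 3 + (Fintype.card I : ℝ)))) := by
    intro t ht k ψ hψ p hp hp1
    have h1 := HG sp ℓ hℓ 1 zero_le_one ψ hψ.1 (hSG ψ hψ)
    have hn := cu_nrm2_one D sp ℓ ψ hψ
    simp only [hn, one_mul, mul_one] at h1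
    have h2 := gibbs_fin p (fun j => -(1 / 4 * KN D sp (ψ j)) / T) hp hp1
    have h3 := h2.trans h1
    rw [Real.exp_le_exp] at h3
    have h4 : ∑ j, (p j * (-(1 / 4 * KN D sp (ψ j)) / T) - p j * Real.log (p j)) =
        (-(1 / 4 * ∑ j, p j * KN D sp (ψ j)) - T * ∑ j, p j * Real.log (p j)) / T := by
      rw [Finset.mul_sum, Finset.mul_sum, ← Finset.sum_neg_distrib, ← Finset.sum_sub_distrib,
        Finset.sum_div]
      refine Finset.sum_congr rfl fun j _ => ?_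
      field_simp
    rw [h4, div_le_iff₀ hT] at h3
    have h5 : b38_F D sp T y t ψ p = ∑ j, p j * energyQ D sp y t (ψ j) +
        T * ∑ j, p j * Real.log (p j) := by
      unfold b38_F
      rw [Finset.sum_add_distrib, Finset.mul_sum]
    have h6 : 1 / 2 * (∑ j, p j * KN D sp (ψ j)) - C1 ≤ ∑ j, p j * energyQ D sp y t (ψ j) := by
      have h7 : ∑ j, p j * (1 / 2 * KN D sp (ψ j) - C1) ≤ ∑ j, p j * energyQ D sp y t (ψ j) :=
        Finset.sum_le_sum fun j _ =>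
          mul_le_mul_of_nonneg_left (hlow t ht (ψ j) (hψ.1 j) (hn j)) (hp j)
      have h8 : ∑ j, p j * (1 / 2 * KN D sp (ψ j) - C1) =
          1 / 2 * (∑ j, p j * KN D sp (ψ j)) - C1 := by
        have h9 : ∀ j, p j * (1 / 2 * KN D sp (ψ j) - C1) =
            1 / 2 * (p j * KN D sp (ψ j)) - p j * C1 := fun j => by ring
        rw [Finset.sum_congr rfl fun j _ => h9 j, Finset.sum_sub_distrib, ← Finset.mul_sum,
          ← Finset.sum_mul, hp1, one_mul]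
      rw [h8] at h7
      exact h7
    rw [h5]
    linarith
  have hphm : ∀ {k : ℕ} (ψ : Fin k → Wave D I), Ortho D sp ℓ ψ →
      ∀ p : Fin k → ℝ, (∀ j, 0 ≤ p j) → ∑ j, p j = 1 →
      |∑ j, p j * phim D sp (ψ j) y| ≤ a * ((Fintype.card I : ℝ) + ∑ j, p j * KN D sp (ψ j)) := by
    intro k ψ hψ p hp hp1
    have hn := cu_nrm2_one D sp ℓ ψ hψ
    refine (Finset.abs_sum_le_sum_abs _ _).trans ?_
    have h1 : ∀ j ∈ (Finset.univ : Finset (Fin k)), |p j * phim D sp (ψ j) y| ≤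
        p j * (a * ((Fintype.card I : ℝ) + KN D sp (ψ j))) := by
      intro j _
      rw [abs_mul, abs_of_nonneg (hp j)]
      exact mul_le_mul_of_nonneg_left (hph (ψ j) (hψ.1 j) (hn j)) (hp j)
    refine (Finset.sum_le_sum h1).trans (le_of_eq ?_)
    have h2 : ∀ j, p j * (a * ((Fintype.card I : ℝ) + KN D sp (ψ j))) =
        p j * (a * (Fintype.card I : ℝ)) + a * (p j * KN D sp (ψ j)) := fun j => by ring
    rw [Finset.sum_congr rfl fun j _ => h2 j, Finset.sum_add_distrib, ← Finset.mul_sum,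
      ← Finset.sum_mul, hp1]
    ring
  -- constants
  obtain ⟨F0, hF0⟩ : ∃ F0, F0 = -T * Real.log (sSup (peierls D sp ℓ T)) := ⟨_, rfl⟩
  obtain ⟨Cs, hCs⟩ : ∃ Cs, Cs = C1 + T * (Cg * (1 + ℓ ^ 3 + (Fintype.card I : ℝ))) := ⟨_, rfl⟩
  have hCs0 : 0 ≤ Cs := by rw [hCs]; positivity
  obtain ⟨K0, hK0⟩ : ∃ K0, K0 = 4 * (|F0| + 2 * C + η + Cs) := ⟨_, rfl⟩
  have hK00 : 0 ≤ K0 := by rw [hK0]; positivity
  obtain ⟨CN, hCN⟩ : ∃ CN, CN = a * ((Fintype.card I : ℝ) + K0) := ⟨_, rfl⟩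
  have hCN0 : 0 ≤ CN := by rw [hCN]; positivity
  obtain ⟨t0, ht0⟩ : ∃ t0, t0 = min 1 (min (1 / (4 * a)) (η / 2 / (2 * C + CN))) := ⟨_, rfl⟩
  have ht0p : 0 < t0 := by
    rw [ht0]
    refine lt_min one_pos (lt_min (by positivity) ?_)
    have : 0 < 2 * C + CN := by linarith
    positivity
  refine ⟨t0, ht0p, ?_⟩
  intro t ht
  have ht1 : |t| ≤ 1 := ht.trans (by rw [ht0]; exact min_le_left _ _)
  have ht2 : |t| * a ≤ 1 / 4 := by
    have h1 : |t| ≤ 1 / (4 * a) :=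
      ht.trans (by rw [ht0]; exact (min_le_right _ _).trans (min_le_left _ _))
    calc |t| * a ≤ 1 / (4 * a) * a := mul_le_mul_of_nonneg_right h1 ha.le
      _ = 1 / 4 := by field_simp
  have ht3 : |t| * (2 * C + CN) ≤ η / 2 := by
    have h1 : |t| ≤ η / 2 / (2 * C + CN) :=
      ht.trans (by rw [ht0]; exact (min_le_right _ _).trans (min_le_right _ _))
    have h2 : 0 < 2 * C + CN := by linarith
    rwa [le_div_iff₀ h2] at h1
  refine ⟨hbdd t ht2, hpos t ht2, ?_⟩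
  rw [← hF0]
  obtain ⟨Ft, hFt⟩ : ∃ Ft, Ft = -T * Real.log (sSup (peierlsQ D sp ℓ T y t)) := ⟨_, rfl⟩
  rw [← hFt]
  by_cases htz : t = 0
  · have : Ft = F0 := by rw [hFt, hF0, htz, b38_zero]
    rw [this, htz]
    simp
  have hta : 0 < |t| := abs_pos.2 htz
  have hpos0' : 0 < sSup (peierlsQ D sp ℓ T y 0) := by rw [b38_zero]; exact hpos0
  have hbdd0' : BddAbove (peierlsQ D sp ℓ T y 0) := by rw [b38_zero]; exact hbdd0
  -- upper bound
  have hup : Ft ≤ F0 + 2 * C * |t| := by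
    obtain ⟨ε, hεd⟩ : ∃ ε, ε = min (C * |t|) η := ⟨_, rfl⟩
    have hε : 0 < ε := by rw [hεd]; exact lt_min (by positivity) hη
    have hε1 : ε ≤ C * |t| := by rw [hεd]; exact min_le_left _ _
    have hε2 : ε ≤ η := by rw [hεd]; exact min_le_right _ _
    obtain ⟨k, ψ, p, hψ, hp, hp1, hF⟩ := b38_near D sp ℓ T hT y 0 hpos0' ε hε
    rw [b38_zero, ← hF0, b38_F_split, zero_mul, add_zero] at hF
    have h1 := h k ψ hψ p hp hp1 (by rw [← hF0]; linarith)
    have h2 := b38_gibbs D sp ℓ T hT y t (hbdd t ht2) (hpos t ht2) ψ hψ p hp hp1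
    rw [← hFt, b38_F_split] at h2
    have h3 : t * ∑ j, p j * phim D sp (ψ j) y ≤ |t| * C := by
      refine (le_abs_self _).trans ?_
      rw [abs_mul]
      exact mul_le_mul_of_nonneg_left h1 (abs_nonneg _)
    nlinarith
  -- lower bound
  have hdn : F0 ≤ Ft + 2 * C * |t| := by
    obtain ⟨ε, hεd⟩ : ∃ ε, ε = min (C * |t|) (η / 4) := ⟨_, rfl⟩
    have hε : 0 < ε := by rw [hεd]; exact lt_min (by positivity) (by positivity)
    have hε1 : ε ≤ C * |t| := by rw [hεd]; exact min_le_left _ _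
    have hε2 : ε ≤ η / 4 := by rw [hεd]; exact min_le_right _ _
    obtain ⟨k, ψ, p, hψ, hp, hp1, hF⟩ := b38_near D sp ℓ T hT y t (hpos t ht2) ε hε
    rw [← hFt] at hF
    have hK := hkin t ht2 ψ hψ p hp hp1
    have hCt : C * |t| ≤ C := by nlinarith
    have hK2 : ∑ j, p j * KN D sp (ψ j) ≤ K0 := by
      rw [hK0, hCs]
      have := le_abs_self F0
      linarith
    have h1 := hphm ψ hψ p hp hp1
    have h2 : |∑ j, p j * phim D sp (ψ j) y| ≤ CN := by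
      refine h1.trans ?_
      rw [hCN]
      exact mul_le_mul_of_nonneg_left (by linarith) ha.le
    have hsplit := b38_F_split D sp T y t ψ p
    have h3 : ∀ B : ℝ, |∑ j, p j * phim D sp (ψ j) y| ≤ B →
        -(t * ∑ j, p j * phim D sp (ψ j) y) ≤ |t| * B := by
      intro B hB
      refine (neg_le_abs _).trans ?_
      rw [abs_mul]
      exact mul_le_mul_of_nonneg_left hB (abs_nonneg _)
    have h4 := h3 CN h2
    have h5 := h k ψ hψ p hp hp1 (by
      rw [← hF0]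
      nlinarith)
    have h6 := h3 C h5
    have h7 := b38_gibbs D sp ℓ T hT y 0 hbdd0' hpos0' ψ hψ p hp hp1
    rw [b38_zero, ← hF0, b38_F_split, zero_mul, add_zero] at h7
    nlinarith
  rw [abs_le]
  constructor
  · linarith
  · linarith

end Pool.Agent.Helper780_CP.RB38
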