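import Pool.Agent.Helper780_CP.LLDefs2
import Pool.Agent.Helper780_CP.BnDefs2
import Pool.Agent.Helper780_CP.RSMALL
import Pool.Agent.Helper780_CP.RGR2
import Pool.Agent.Helper780_CP.Stable

set_option autoImplicit false

open MeasureTheory
open scoped Topology

namespace Pool.Agent.Helper780_CP.RB39

open Pool.Agent.Helper780_CP
open Pool.Agent.Helper985.CP

open Pool.Agent.Helper780_CP Pool.Agent.Helper985.CP

theorem ge_phim_scale {S : Type} (D : Species S) {I : Type} [Fintype I] [DecidableEq I]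
    (sp : I → S) (Ψ : Wave D I) (y : E3) (c : ℝ) :
    phim D sp (mulW D (fun _ => c) Ψ) y = c ^ 2 * phim D sp Ψ y := by
  unfold phim mean
  rw [Finset.mul_sum]
  refine Finset.sum_congr rfl fun τ _ => ?_
  rw [← integral_const_mul]
  refine integral_congr_ae (Filter.Eventually.of_forall fun x => ?_)
  simp only
  rw [mulW_norm D (fun _ => c) Ψ τ x]
  ring

/-- normalisation of a state -/
theorem ge_norm {S : Type} (D : Species S) {I : Type} [Fintype I] [DecidableEq I]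
    (sp : I → S) (ℓ : ℝ) (y : E3) (Ψ : Wave D I) (hΨ : IsState D sp ℓ Ψ)
    (hn : 0 < nrm2 D Ψ) : ∃ Φ : Wave D I, IsState D sp ℓ Φ ∧ nrm2 D Φ = 1 ∧
      energy D sp Φ = energy D sp Ψ / nrm2 D Ψ ∧ phim D sp Φ y = phim D sp Ψ y / nrm2 D Ψ := by
  obtain ⟨s1, s2, s3⟩ := RGR2.gr_scale D sp ℓ Ψ hΨ (Real.sqrt (nrm2 D Ψ))⁻¹
  have e1 : ((Real.sqrt (nrm2 D Ψ))⁻¹) ^ 2 = (nrm2 D Ψ)⁻¹ := by
    rw [inv_pow, Real.sq_sqrt hn.le]
  have s4 := ge_phim_scale D sp Ψ y (Real.sqrt (nrm2 D Ψ))⁻¹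
  rw [e1] at s2 s3 s4
  refine ⟨_, s1, ?_, ?_, ?_⟩
  · rw [s2, inv_mul_cancel₀ hn.ne']
  · rw [s3]
    ring
  · rw [s4]
    ring

/-- TARGET -/
theorem ge_pert {S : Type} [Fintype S] [DecidableEq S] (D : Species S) (hD : D.Valid)
    (hf : ∀ s, D.charge s < 0 → D.fermion s = true) {I : Type} [Fintype I] [DecidableEq I]
    (sp : I → S) (ℓ C η : ℝ) (hℓ : 0 < ℓ) (hC : 0 < C) (hη : 0 < η) (y : E3)
    (h : ∀ Ψ : Wave D I, IsState D sp ℓ Ψ → nrm2 D Ψ = 1 →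
      energy D sp Ψ ≤ sInf (energies D sp ℓ) + η → |phim D sp Ψ y| ≤ C) :
    ∃ t0 : ℝ, 0 < t0 ∧ ∀ t : ℝ, |t| ≤ t0 → BddBelow (energiesQ D sp ℓ y t) ∧
      |sInf (energiesQ D sp ℓ y t) - sInf (energies D sp ℓ)| ≤ 2 * C * |t| := by
  have hst : HStable D := hstable D hD hf
  obtain ⟨hne, hbd, hE, hmin⟩ := energies_basic D hD hst sp ℓ hℓ
  obtain ⟨A, hA, HS⟩ := RDIL.dil_stab D hD hf
  obtain ⟨E0, hE0⟩ : ∃ E0, E0 = sInf (energies D sp ℓ) := ⟨_, rfl⟩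
  rw [← hE0] at h hE hmin ⊢
  obtain ⟨Z, hZ⟩ : ∃ Z, Z = ∑ s, |D.charge s| := ⟨_, rfl⟩
  obtain ⟨M, hM⟩ : ∃ M, M = ∑ s, D.mass s := ⟨_, rfl⟩
  obtain ⟨N, hN⟩ : ∃ N : ℝ, N = (Fintype.card I : ℝ) := ⟨_, rfl⟩
  have hZ0 : 0 ≤ Z := by rw [hZ]; exact Finset.sum_nonneg fun t _ => abs_nonneg _
  have hM0 : 0 ≤ M := by rw [hM]; exact Finset.sum_nonneg fun t _ => (hD.mass_pos t).le
  have hN0 : 0 ≤ N := by rw [hN]; positivity
  obtain ⟨α, hα⟩ : ∃ α, α = Z * (N + 8 * M * (2 * (A * N))) := ⟨_, rfl⟩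
  obtain ⟨β, hβ⟩ : ∃ β, β = Z * (8 * M * 2) := ⟨_, rfl⟩
  have hα0 : 0 ≤ α := by rw [hα]; positivity
  have hβ0 : 0 ≤ β := by rw [hβ]; positivity
  -- the bound on the potential
  have hφ : ∀ Ψ : Wave D I, IsState D sp ℓ Ψ → nrm2 D Ψ = 1 →
      |phim D sp Ψ y| ≤ α + β * energy D sp Ψ := by
    intro Ψ hΨ hn
    have h1 := RSMALL.sm_phim D hD sp ℓ Ψ hΨ hn y
    have h2 := HS sp (max ℓ 1) (le_max_right _ _) Ψ
      (RSMALL.sm_state_mono D sp ℓ (max ℓ 1) (le_max_left _ _) Ψ hΨ)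
    rw [hn, mul_one, ← hN] at h2
    rw [← hZ, ← hM, ← hN] at h1
    refine h1.trans ?_
    have h3 : 8 * M * (∑ τ, ∫ x, ∑ i, kin D sp i (Ψ τ) x) ≤
        8 * M * (2 * (energy D sp Ψ + A * N)) := mul_le_mul_of_nonneg_left h2 (by positivity)
    calc Z * (N + 8 * M * (∑ τ, ∫ x, ∑ i, kin D sp i (Ψ τ) x))
        ≤ Z * (N + 8 * M * (2 * (energy D sp Ψ + A * N))) :=
          mul_le_mul_of_nonneg_left (by linarith) hZ0
      _ = α + β * energy D sp Ψ := by rw [hα, hβ]; ring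
  have hlow : ∀ Ψ : Wave D I, IsState D sp ℓ Ψ → nrm2 D Ψ = 1 → E0 ≤ energy D sp Ψ := by
    intro Ψ hΨ hn
    have := hE Ψ hΨ
    rwa [hn, mul_one] at this
  obtain ⟨G, hG⟩ : ∃ G, G = β * (|E0| + η) + α := ⟨_, rfl⟩
  have hG0 : 0 ≤ G := by rw [hG]; positivity
  refine ⟨min (1 / (2 * (β + 1))) (η / (G + 1)), by positivity, ?_⟩
  intro t ht
  have ht1 : |t| * β ≤ 1 / 2 := by
    have h1 : |t| ≤ 1 / (2 * (β + 1)) := ht.trans (min_le_left _ _)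
    rw [le_div_iff₀ (by positivity)] at h1
    nlinarith [abs_nonneg t]
  have ht2 : |t| * G ≤ η := by
    have h1 : |t| ≤ η / (G + 1) := ht.trans (min_le_right _ _)
    rw [le_div_iff₀ (by positivity)] at h1
    nlinarith [abs_nonneg t]
  have ht0 : 0 ≤ |t| := abs_nonneg t
  -- lower bound
  have hLB : ∀ Ψ : Wave D I, IsState D sp ℓ Ψ → nrm2 D Ψ = 1 →
      E0 - C * |t| ≤ energyQ D sp y t Ψ := by
    intro Ψ hΨ hn
    unfold energyQ
    have h1 := hlow Ψ hΨ hn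
    have h2 := hφ Ψ hΨ hn
    have h3 : -(|t| * |phim D sp Ψ y|) ≤ t * phim D sp Ψ y := by
      rw [← abs_mul]
      exact neg_abs_le _
    by_cases hc : energy D sp Ψ ≤ E0 + η
    · have h4 := mul_le_mul_of_nonneg_left (h Ψ hΨ hn hc) ht0
      linarith
    · push Not at hc
      have h4 := mul_le_mul_of_nonneg_left h2 ht0
      have h5 : (1 - |t| * β) * (E0 + η) ≤ (1 - |t| * β) * energy D sp Ψ :=
        mul_le_mul_of_nonneg_left hc.le (by linarith)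
      have h6 : |t| * (β * (E0 + η)) ≤ |t| * (β * (|E0| + η)) := by
        have := le_abs_self E0
        gcongr
      have h7 : |t| * G = |t| * (β * (|E0| + η)) + |t| * α := by rw [hG]; ring
      have h8 : 0 ≤ C * |t| := by positivity
      nlinarith
  have hlb : ∀ e ∈ energiesQ D sp ℓ y t, E0 - C * |t| ≤ e := by
    rintro e ⟨Ψ, hΨ, h0, rfl⟩
    have hn := nrm2_pos D sp ℓ Ψ hΨ h0
    obtain ⟨Φ, hΦ, hΦn, hΦE, hΦp⟩ := ge_norm D sp ℓ y Ψ hΨ hn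
    have h1 := hLB Φ hΦ hΦn
    have h2 : energyQ D sp y t Ψ / nrm2 D Ψ = energyQ D sp y t Φ := by
      unfold energyQ
      rw [hΦE, hΦp]
      ring
    rw [h2]
    exact h1
  have hb : BddBelow (energiesQ D sp ℓ y t) := ⟨_, hlb⟩
  refine ⟨hb, ?_⟩
  -- upper bound
  have hub : ∀ ε : ℝ, 0 < ε → ε ≤ η → ∃ e ∈ energiesQ D sp ℓ y t, e ≤ E0 + ε + C * |t| := by
    intro ε hε hεη
    obtain ⟨Ψ, hΨ, hn, hΨE⟩ := hmin ε hε
    obtain ⟨Φ, hΦ, hΦn, hΦE, -⟩ := ge_norm D sp ℓ y Ψ hΨ hn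
    have h1 : energy D sp Φ ≤ E0 + ε := by
      rw [hΦE, div_le_iff₀ hn]
      exact hΨE
    have h2 := h Φ hΦ hΦn (by linarith)
    refine ⟨energyQ D sp y t Φ / nrm2 D Φ, ⟨Φ, hΦ, ?_, rfl⟩, ?_⟩
    · rintro rfl
      rw [energies_basic_nrm0] at hΦn
      exact zero_ne_one hΦn
    · rw [hΦn, div_one]
      unfold energyQ
      have h3 : t * phim D sp Φ y ≤ |t| * |phim D sp Φ y| := by
        rw [← abs_mul]
        exact le_abs_self _
      have h4 := mul_le_mul_of_nonneg_left h2 ht0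
      linarith
  have hU : sInf (energiesQ D sp ℓ y t) ≤ E0 + C * |t| := by
    refine le_of_forall_pos_le_add fun ε hε => ?_
    obtain ⟨e, he, hle⟩ := hub (min ε η) (lt_min hε hη) (min_le_right _ _)
    have h1 := csInf_le hb he
    have h2 := min_le_left ε η
    linarith
  have hneQ : (energiesQ D sp ℓ y t).Nonempty := by
    obtain ⟨e, he, -⟩ := hub η hη le_rfl
    exact ⟨e, he⟩
  have hL : E0 - C * |t| ≤ sInf (energiesQ D sp ℓ y t) := le_csInf hneQ hlb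
  have h9 : 0 ≤ C * |t| := by positivity
  rw [abs_le]
  constructor <;> linarith

end Pool.Agent.Helper780_CP.RB39
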