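import Pool.Agent.Helper780_CP.Fin2
import Pool.Agent.Helper780_CP.QDefs
import Pool.Agent.Helper780_CP.RB38
import Pool.Agent.Helper780_CP.RB39

/-! The bound of the mean potential for the exact equilibrium quantities. -/

set_option autoImplicit false

open MeasureTheory
open scoped Topology

namespace Pool.Agent.Helper780_CP

open Pool.Agent.Helper985.CP

/-- zero temperature, occupation numbers -/
theorem q1_zero {S : Type} [Fintype S] [DecidableEq S] (D : Species S) (hD : D.Valid)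
    (hf : ∀ s, D.charge s < 0 → D.fermion s = true) (ρ : ℝ) (hρ : 0 ≤ ρ) :
    ∃ C : ℝ, 0 < C ∧ ∀ (n : S → ℕ) (ℓ : ℝ), 0 < ℓ → ∑ s, (n s : ℝ) ≤ ρ * ℓ ^ 3 →
      ∑ s, (n s : ℝ) * D.charge s = 0 → ∀ y : E3, (∀ k, 0 ≤ y k ∧ y k ≤ ℓ) →
      (∀ Ψ : Wave D (Σ s, Fin (n s)), IsState D Sigma.fst ℓ Ψ → nrm2 D Ψ = 1 →
        energy D Sigma.fst Ψ ≤ groundEnergy D ℓ n + 1 / (1 + ∑ s, (n s : ℝ)) ^ 3 →
        |phim D Sigma.fst Ψ y| ≤ C) ∧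
      ∃ t0 : ℝ, 0 < t0 ∧ ∀ t : ℝ, |t| ≤ t0 →
        |groundEnergyQ D ℓ n y t - groundEnergy D ℓ n| ≤ C * |t| := by
  obtain ⟨C, hC, H⟩ := full0 D hD hf ρ hρ
  refine ⟨2 * C, by positivity, ?_⟩
  intro n ℓ hℓ hN hn y hy
  have hcard : (Fintype.card (Σ s, Fin (n s)) : ℝ) = ∑ s, (n s : ℝ) := by
    rw [Fintype.card_sigma]; simp
  have hneu : ∑ i : (Σ s, Fin (n s)), D.charge i.1 = 0 := by
    rw [Fintype.sum_sigma, ← hn]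
    refine Finset.sum_congr rfl fun s _ => ?_
    simp
  have h0 : ∀ Ψ : Wave D (Σ s, Fin (n s)), IsState D Sigma.fst ℓ Ψ → nrm2 D Ψ = 1 →
      energy D Sigma.fst Ψ ≤ groundEnergy D ℓ n + 1 / (1 + ∑ s, (n s : ℝ)) ^ 3 →
      |phim D Sigma.fst Ψ y| ≤ C := fun Ψ hΨ h1 he =>
    H (Sigma.fst : (Σ s, Fin (n s)) → S) ℓ hℓ (by rw [hcard]; exact hN) hneu Ψ hΨ h1
      (by rw [hcard]; exact he) y hy
  refine ⟨fun Ψ hΨ h1 he => (h0 Ψ hΨ h1 he).trans (by linarith), ?_⟩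
  have hS : (0 : ℝ) ≤ ∑ s, (n s : ℝ) := Finset.sum_nonneg fun s _ => Nat.cast_nonneg _
  obtain ⟨t0, ht0, ht⟩ := RB39.ge_pert D hD hf (Sigma.fst : (Σ s, Fin (n s)) → S) ℓ C
    (1 / (1 + ∑ s, (n s : ℝ)) ^ 3) hℓ hC (by positivity) y h0
  exact ⟨t0, ht0, fun t htt => (ht t htt).2⟩

/-- positive temperature, occupation numbers -/
theorem q1_pos {S : Type} [Fintype S] [DecidableEq S] (D : Species S) (hD : D.Valid)
    (hf : ∀ s, D.charge s < 0 → D.fermion s = true) (T ρ₁ ρ₂ : ℝ) (hT : 0 < T) (hρ₁ : 0 < ρ₁)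
    (hρ₂ : 0 < ρ₂) :
    ∃ C : ℝ, 0 < C ∧ ∀ (n : S → ℕ) (ℓ : ℝ), 0 < ℓ → ρ₁ * ℓ ^ 3 ≤ ∑ s, (n s : ℝ) →
      ∑ s, (n s : ℝ) ≤ ρ₂ * ℓ ^ 3 → ∑ s, (n s : ℝ) * D.charge s = 0 →
      ∀ y : E3, (∀ k, 0 ≤ y k ∧ y k ≤ ℓ) →
      (∀ (k : ℕ) (ψ : Fin k → Wave D (Σ s, Fin (n s))), Ortho D Sigma.fst ℓ ψ →
        ∀ p : Fin k → ℝ, (∀ j, 0 ≤ p j) → ∑ j, p j = 1 →
        ∑ j, (p j * energy D Sigma.fst (ψ j) + T * (p j * Real.log (p j))) ≤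
          freeEnergy D ℓ T n + 1 / (1 + ∑ s, (n s : ℝ)) ^ 3 →
        |∑ j, p j * phim D Sigma.fst (ψ j) y| ≤ C) ∧
      ∃ t0 : ℝ, 0 < t0 ∧ ∀ t : ℝ, |t| ≤ t0 →
        |freeEnergyQ D ℓ T n y t - freeEnergy D ℓ T n| ≤ C * |t| := by
  obtain ⟨C, hC, H⟩ := fullT D hD hf T ρ₁ ρ₂ hT hρ₁ hρ₂
  refine ⟨2 * C, by positivity, ?_⟩
  intro n ℓ hℓ hN1 hN hn y hy
  have hcard : (Fintype.card (Σ s, Fin (n s)) : ℝ) = ∑ s, (n s : ℝ) := by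
    rw [Fintype.card_sigma]; simp
  have hneu : ∑ i : (Σ s, Fin (n s)), D.charge i.1 = 0 := by
    rw [Fintype.sum_sigma, ← hn]
    refine Finset.sum_congr rfl fun s _ => ?_
    simp
  have h0 : ∀ (k : ℕ) (ψ : Fin k → Wave D (Σ s, Fin (n s))), Ortho D Sigma.fst ℓ ψ →
        ∀ p : Fin k → ℝ, (∀ j, 0 ≤ p j) → ∑ j, p j = 1 →
        ∑ j, (p j * energy D Sigma.fst (ψ j) + T * (p j * Real.log (p j))) ≤
          freeEnergy D ℓ T n + 1 / (1 + ∑ s, (n s : ℝ)) ^ 3 →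
        |∑ j, p j * phim D Sigma.fst (ψ j) y| ≤ C := fun k ψ hψ p hp hp1 he =>
    H (Sigma.fst : (Σ s, Fin (n s)) → S) ℓ hℓ (by rw [hcard]; exact hN1)
      (by rw [hcard]; exact hN) hneu p ψ
      (ne_of_ortho D hD hf (Sigma.fst : (Σ s, Fin (n s)) → S) ℓ T _ hℓ hT p ψ hψ hp hp1
        (by rw [hcard]; exact he)) y hy
  refine ⟨fun k ψ hψ p hp hp1 he => (h0 k ψ hψ p hp hp1 he).trans (by linarith), ?_⟩
  have hS : (0 : ℝ) ≤ ∑ s, (n s : ℝ) := Finset.sum_nonneg fun s _ => Nat.cast_nonneg _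
  obtain ⟨t0, ht0, ht⟩ := RB38.fe_pert D hD hf (Sigma.fst : (Σ s, Fin (n s)) → S) ℓ T C
    (1 / (1 + ∑ s, (n s : ℝ)) ^ 3) hℓ hT hC (by positivity) y h0
  exact ⟨t0, ht0, fun t htt => (ht t htt).2.2⟩

end Pool.Agent.Helper780_CP
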