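import Pool.Agent.Helper780_CP.LLDefs
import Pool.Agent.Helper985.CP.M_insert_one

set_option autoImplicit false

open MeasureTheory
open scoped Topology

namespace Pool.Agent.Helper780_CP

open Pool.Agent.Helper985.CP

theorem qf_one {S : Type} (D : Species S) {I : Type} [Fintype I] [DecidableEq I] (sp : I → S)
    (ℓ c : ℝ) (v : E3) (Ψ : Wave D I) (hΨ : IsState D sp ℓ Ψ) :
    qf D sp (fun _ => 1) (fun x => coul D sp x + c * ∑ i, D.charge (sp i) * (1 / ‖x i - v‖)) Ψ =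
      energy D sp Ψ + c * phim D sp Ψ v := by
  unfold qf energy phim mean
  rw [Finset.mul_sum, ← Finset.sum_add_distrib]
  refine Finset.sum_congr rfl fun τ _ => ?_
  obtain ⟨h1, h2, h3, -, -⟩ := int_state D sp ℓ Ψ hΨ τ
  have h5 := WI_phi D sp ℓ v Ψ hΨ τ
  have i1 : Integrable (fun x => (∑ i, kin D sp i (Ψ τ) x) + coul D sp x * ‖Ψ τ x‖ ^ 2) :=
    (integrable_finsetSum _ fun j _ => h2 j).add h3
  have i4 : Integrable (fun x => c *
      ((∑ j, D.charge (sp j) * (1 / ‖x j - v‖)) * ‖Ψ τ x‖ ^ 2)) := h5.const_mul _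
  rw [← integral_const_mul, ← integral_add i1 i4]
  refine integral_congr_ae (Filter.Eventually.of_forall fun x => ?_)
  simp only [one_mul]
  ring

/-- Insertion of a particle at the point `v`. -/
theorem ins_anyC {S : Type} [Fintype S] (D : Species S) (hD : D.Valid) :
    ∃ C : ℝ, 0 < C ∧ ∀ (δ : ℝ), 0 < δ → δ ≤ 1 → ∀ {I : Type} [Fintype I] [DecidableEq I]
      (sp : Option I → S) (ℓ : ℝ) (v : E3),
      Metric.closedBall v δ ⊆ cube ℓ → ∀ E Bd : ℝ,
      (∀ Φ, IsState D sp ℓ Φ → E * nrm2 D Φ ≤ energy D sp Φ) →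
      (∀ Φ, IsState D (fun i => sp (some i)) ℓ Φ →
        Bd * nrm2 D Φ ≤ energy D (fun i => sp (some i)) Φ) →
      ∀ Ψ, IsState D (fun i => sp (some i)) ℓ Ψ →
        E * nrm2 D Ψ ≤ energy D (fun i => sp (some i)) Ψ +
          D.charge (sp none) * wm D (phi D (fun i => sp (some i)) v) Ψ +
          C / δ ^ 2 * (nrm2 D Ψ + wm D (near2 v) Ψ) := by
  obtain ⟨C', hC', H'⟩ := multiC D hD
  refine ⟨2 * C', by positivity, ?_⟩
  intro δ hδ hδ1 I _ _ sp ℓ v hv E Bd hE hBd Ψ hΨ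
  obtain ⟨C, hCe⟩ : ∃ C, C = C' / δ ^ 2 := ⟨_, rfl⟩
  have hC : 0 < C := by rw [hCe]; positivity
  have H := H' δ hδ hδ1 (I := I)
  rw [← hCe] at H
  rw [mul_div_assoc, ← hCe]
  obtain ⟨sq, hsq⟩ : ∃ sq : I → S, sq = fun i => sp (some i) := ⟨_, rfl⟩
  obtain ⟨s, hs⟩ : ∃ s, s = sp none := ⟨_, rfl⟩
  rw [← hsq] at hBd hΨ ⊢
  rw [← hs]
  have hspe : (fun o : Option I => o.elim s sq) = sp := by
    funext o
    cases o with
    | none => exact hs
    | some i => rw [hsq]; rfl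
  obtain ⟨g, h, φ, ⟨g1, g2, g3⟩, ⟨h1, h2, h3⟩, hφ, hvan, hpot, hqf, hwm, hcost, hlim⟩ :=
    H sq ℓ v hv
  have hwn0 : 0 ≤ wm D (near2 v) Ψ := by
    unfold wm
    exact Finset.sum_nonneg fun τ _ => integral_nonneg fun x =>
      mul_nonneg (near2_nonneg v x) (sq_nonneg _)
  obtain ⟨W, hW⟩ : ∃ W : (I → E3) → ℝ, W = fun x => coul D sq x + D.charge s *
    ∑ i, D.charge (sq i) * (1 / ‖x i - v‖) := ⟨_, rfl⟩
  have hWI : WI D sq ℓ W := by
    rw [hW]
    exact WI_add D sq ℓ (WI_coul D sq ℓ) (WI_smul D sq ℓ (WI_phi D sq ℓ v) _)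
  have hq1 : ∀ Φ : Wave D I, IsState D sq ℓ Φ → qf D sq (fun _ => 1) W Φ =
      energy D sq Φ + D.charge s * phim D sq Φ v := by
    intro Φ hΦ
    rw [hW]
    exact qf_one D sq ℓ (D.charge s) v Φ hΦ
  -- one scale
  have hone : ∀ k, 0 ≤ qf D sq (fun _ => 1) W (mulW D (g k) Ψ) -
      E * nrm2 D (mulW D (g k) Ψ) + ((1 / (2 * D.mass s)) * grad2 (φ k) + ((k : ℝ) + 1)) *
        nrm2 D (mulW D (g k) Ψ) := by
    intro k
    have hst := mulW_state D sq ℓ Ψ hΨ (g k) (g1 k) (g2 k)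
    obtain ⟨p1, p2, p3, p4⟩ := hφ k
    obtain ⟨Φ, q1, q2, q3, -, -⟩ := insert_one D hD sq ℓ s (φ k) p1 p2 p3 p4
      (mulW D (g k) Ψ) hst (by
      intro τ x j _ hj
      unfold mulW
      rw [hvan k x j hj]
      simp)
    have e1 : mean D sq (mulW D (g k) Ψ) (pot (φ k)) = phim D sq (mulW D (g k) Ψ) v := by
      unfold phim mean
      refine Finset.sum_congr rfl fun τ _ => ?_
      refine integral_congr_ae (Filter.Eventually.of_forall fun x => ?_)
      simp only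
      by_cases hx : g k x = 0
      · unfold mulW
        rw [hx]
        simp
      · congr 1
        refine Finset.sum_congr rfl fun j _ => ?_
        rw [hpot k x hx j]
    rw [hspe] at q1 q3
    have hEE := hE Φ q1
    rw [q2, q3, e1] at hEE
    rw [hq1 _ hst]
    have hn := nrm2_nn D (mulW D (g k) Ψ)
    have hk : 0 ≤ ((k : ℝ) + 1) * nrm2 D (mulW D (g k) Ψ) := by positivity
    linarith
  have hsum : ∀ K, 0 ≤ qf D sq (fun _ => 1) W Ψ + C * wm D (near2 v) Ψ -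
      qf D sq (fun _ => 1) W (mulW D (h K) Ψ) -
      E * (nrm2 D Ψ - nrm2 D (mulW D (h K) Ψ)) + C * (nrm2 D Ψ + wm D (near2 v) Ψ) := by
    intro K
    have s0 : 0 ≤ ∑ k ∈ Finset.range K, (qf D sq (fun _ => 1) W (mulW D (g k) Ψ) -
      E * nrm2 D (mulW D (g k) Ψ) + ((1 / (2 * D.mass s)) * grad2 (φ k) + ((k : ℝ) + 1)) *
        nrm2 D (mulW D (g k) Ψ)) := Finset.sum_nonneg fun k _ => hone k
    rw [Finset.sum_add_distrib, Finset.sum_sub_distrib, ← Finset.mul_sum] at s0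
    have s1 := hqf (fun _ => 1) (fun j => by norm_num) W hWI Ψ hΨ K
    have s2 := hwm (fun _ => 1) (WI_const D sq ℓ 1) Ψ hΨ K
    have s3 := hcost Ψ hΨ K s
    simp only [wm_one] at s2
    have s4 : ∑ k ∈ Finset.range K, nrm2 D (mulW D (g k) Ψ) =
        nrm2 D Ψ - nrm2 D (mulW D (h K) Ψ) := by linarith
    rw [s4] at s0
    linarith
  have hlow : ∀ K, Bd * nrm2 D (mulW D (h K) Ψ) + D.charge s *
      phim D sq (mulW D (h K) Ψ) v ≤ qf D sq (fun _ => 1) W (mulW D (h K) Ψ) := by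
    intro K
    have hst := mulW_state D sq ℓ Ψ hΨ (h K) (h1 K) (h2 K)
    rw [hq1 _ hst]
    have := hBd _ hst
    linarith
  have t1 : Filter.Tendsto (fun K => nrm2 D (mulW D (h K) Ψ)) Filter.atTop (𝓝 0) := by
    have := hlim (fun _ => 1) (WI_const D sq ℓ 1) Ψ hΨ
    simpa only [wm_one] using this
  have t2 : Filter.Tendsto (fun K => phim D sq (mulW D (h K) Ψ) v) Filter.atTop (𝓝 0) :=
    hlim _ (WI_phi D sq ℓ v) Ψ hΨ
  have hfin : ∀ K, 0 ≤ (qf D sq (fun _ => 1) W Ψ - E * nrm2 D Ψ +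
      C * wm D (near2 v) Ψ + C * (nrm2 D Ψ + wm D (near2 v) Ψ)) +
      ((E - Bd) * nrm2 D (mulW D (h K) Ψ) - D.charge s *
        phim D sq (mulW D (h K) Ψ) v) := by
    intro K
    have := hsum K
    have := hlow K
    linarith
  have t3 : Filter.Tendsto (fun K => (qf D sq (fun _ => 1) W Ψ - E * nrm2 D Ψ +
      C * wm D (near2 v) Ψ + C * (nrm2 D Ψ + wm D (near2 v) Ψ)) +
      ((E - Bd) * nrm2 D (mulW D (h K) Ψ) - D.charge s *
        phim D sq (mulW D (h K) Ψ) v)) Filter.atTop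
      (𝓝 ((qf D sq (fun _ => 1) W Ψ - E * nrm2 D Ψ +
      C * wm D (near2 v) Ψ + C * (nrm2 D Ψ + wm D (near2 v) Ψ)) +
      ((E - Bd) * 0 - D.charge s * 0))) :=
    ((t1.const_mul (E - Bd)).sub (t2.const_mul _)).const_add _
  have hfinal := ge_of_tendsto' t3 hfin
  rw [hq1 Ψ hΨ] at hfinal
  have hn := nrm2_nn D Ψ
  have e9 : wm D (phi D sq v) Ψ = phim D sq Ψ v := rfl
  rw [e9]
  nlinarith

end Pool.Agent.Helper780_CP
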