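import Pool.Agent.Helper780_CP.Move0C
import Pool.Agent.Helper780_CP.Baxter

/-! Definitions for the uniform local law. -/

set_option autoImplicit false

open MeasureTheory
open scoped Topology

namespace Pool.Agent.Helper780_CP

open Pool.Agent.Helper985.CP

/-- the Coulomb potential at `ω` -/
noncomputable def phi {S : Type} (D : Species S) {I : Type} [Fintype I] (sp : I → S) (ω : E3)
    (x : I → E3) : ℝ := ∑ i, D.charge (sp i) * (1 / ‖x i - ω‖)

/-- invariance under the exchange of particles of the same species -/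
def Sy {S I : Type} [DecidableEq I] (sp : I → S) (f : (I → E3) → ℝ) : Prop :=
  ∀ i j x, sp i = sp j → f (fun k => x (Equiv.swap i j k)) = f x

/-- square of the gradient -/
noncomputable def gr {I : Type} [Fintype I] [DecidableEq I] (f : (I → E3) → ℝ) (x : I → E3) : ℝ :=
  ∑ i, ∑ k : Fin 3, (fderiv ℝ f x (Pi.single i (EuclideanSpace.single k (1 : ℝ)))) ^ 2

/-- weighted flatness of the potential in the state `Ψ` (`pb` plays the role of the mean level) -/
def FL {S : Type} (D : Species S) {I : Type} [Fintype I] [DecidableEq I] (sp : I → S) (ℓ : ℝ)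
    (pb : (I → E3) → ℝ) (C η : ℝ) (Ψ : Wave D I) : Prop :=
  ∀ (r : ℝ) (ω : E3) (f : (I → E3) → ℝ) (B : ℝ), 0 < r → r ≤ 1 →
    Metric.closedBall ω r ⊆ cube ℓ → ContDiff ℝ SM f → Sy sp f → (∀ x, |f x| ≤ B) →
    |wm D (fun x => f x ^ 2 * (phi D sp ω x - pb x)) Ψ| ≤
      C / r ^ 2 * (wm D (fun x => f x ^ 2 * (1 + near2 ω x)) Ψ + wm D (gr f) Ψ + B ^ 2 * η)

/-- the Laplacian in coordinates -/
noncomputable def lap (f : E3 → ℝ) (z : E3) : ℝ :=
  ∑ k : Fin 3, fderiv ℝ (fun v => fderiv ℝ f v (EuclideanSpace.single k (1 : ℝ))) z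
    (EuclideanSpace.single k (1 : ℝ))

/-- number of particles in a closed ball -/
noncomputable def nb {I : Type} [Fintype I] (y : E3) (R : ℝ) (x : I → E3) : ℝ :=
  ∑ i, if ‖x i - y‖ ≤ R then 1 else 0

/-- radial cutoff, 1 on the closed unit ball and 0 outside the ball of radius 2 -/
noncomputable def ct (w : E3) : ℝ := Real.smoothTransition ((4 - ‖w‖ ^ 2) / 3)

/-- cutoff around `y` at scale `r` -/
noncomputable def cy (y : E3) (r : ℝ) (x : E3) : ℝ := ct (r⁻¹ • (x - y))

/-- kernels: `a` is a smooth bump, `b = a * 1/|·|`, `l = a * b` -/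
structure Ker (a b l : E3 → ℝ) : Prop where
  a_smooth : ContDiff ℝ SM a
  a_nonneg : ∀ z, 0 ≤ a z
  a_supp : ∀ z, 1 / 2 ≤ ‖z‖ → a z = 0
  a_even : ∀ z, a (-z) = a z
  a_int : ∫ z, a z = 1
  b_smooth : ContDiff ℝ SM b
  b_eq : ∀ w, b w = ∫ z, a z / ‖w - z‖
  b_out : ∀ w, 1 / 2 ≤ ‖w‖ → b w = 1 / ‖w‖
  l_smooth : ContDiff ℝ SM l
  l_eq : ∀ w, l w = ∫ z, a z * b (w - z)
  l_out : ∀ w, 1 ≤ ‖w‖ → l w = 1 / ‖w‖
  l_even : ∀ w, l (-w) = l w

/-- the part of the Coulomb kernel at scale `2^(-k)` -/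
noncomputable def psi (l : E3 → ℝ) (k : ℕ) (w : E3) : ℝ :=
  2 ^ (k + 1) * l ((2 : ℝ) ^ (k + 1) • w) - 2 ^ k * l ((2 : ℝ) ^ k • w)

/-- number of points in the closed ball of radius `4·2^(-k)` around `x i` -/
noncomputable def nk {I : Type} [Fintype I] (x : I → E3) (k : ℕ) (i : I) : ℝ :=
  ∑ j, if 2 ^ k * ‖x j - x i‖ ≤ 4 then 1 else 0

/-- smooth local number -/
noncomputable def nT {I : Type} [Fintype I] (y : E3) (r : ℝ) (x : I → E3) : ℝ :=
  ∑ i, cy y (6 * r) (x i) ^ 2

/-- smooth indicator of `1 + nT ≥ 2^k r²` -/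
noncomputable def bt {I : Type} [Fintype I] (y : E3) (r : ℝ) (k : ℕ) (x : I → E3) : ℝ :=
  Real.smoothTransition ((1 + nT y r x) / (2 ^ k * r ^ 2) - 1)

/-- inverse distance to the nearest positive charge -/
noncomputable def pv {I : Type} (c : I → ℝ) (x : I → E3) (i : I) : ℝ :=
  ⨆ j, if 0 < c j then ‖x i - x j‖⁻¹ else 0

open Classical in
/-- electrostatics of the ball of radius `r` around `w` -/
noncomputable def rb {I : Type} [Fintype I] (z : ℝ) (c : I → ℝ) (x : I → E3) (r : ℝ) (w : E3) : ℝ :=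
  (∑ i, if ‖x i - w‖ < r then c i else 0) ^ 2 - (∑ i, if ‖x i - w‖ < r then c i ^ 2 else 0) +
    9 / 2 * z * (if ∃ j, 0 < c j ∧ ‖x j - w‖ < r then
      ∑ i, (if c i < 0 ∧ ‖x i - w‖ < r then -c i else 0) else 0)

/-- Coulomb energy (both orders of each pair) with cutoff -/
noncomputable def vl {I : Type} [Fintype I] [DecidableEq I] (χ : E3 → ℝ) (c : I → ℝ)
    (x : I → E3) : ℝ :=
  ∑ i, ∑ j, if i = j then 0 else (c i * χ (x i)) * (c j * χ (x j)) / ‖x i - x j‖

/-- penalty with cutoff -/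
noncomputable def pl {I : Type} [Fintype I] (χ : E3 → ℝ) (c : I → ℝ) (x : I → E3) : ℝ :=
  ∑ i, if c i < 0 then χ (x i) * pv c x i else 0

open Classical in
/-- number of negative charges in the half-open cube with centre `w` and half side `h` -/
noncomputable def nw {I : Type} [Fintype I] (c : I → ℝ) (x : I → E3) (h : ℝ) (w : E3) : ℝ :=
  ∑ j, if c j < 0 ∧ (∀ t, w t - h ≤ x j t ∧ x j t < w t + h) then 1 else 0

/-- half-open cube -/
def Qc (q : E3) (s : ℝ) : Set E3 := {z | ∀ k, q k ≤ z k ∧ z k < q k + s}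

/-- the larger cube -/
def Qp (q : E3) (s : ℝ) : Set E3 := {z | ∀ k, q k - s ≤ z k ∧ z k < q k + 2 * s}

open Classical in
/-- number of particles of the species `s0` in `A` -/
noncomputable def nsp {S : Type} {J : Type} [Fintype J] (sp : J → S) (s0 : S) (A : Set E3)
    (x : J → E3) : ℝ :=
  ∑ j, if sp j = s0 ∧ x j ∈ A then 1 else 0

open Classical in
/-- number of positive particles in `A` -/
noncomputable def npl {S : Type} (D : Species S) {J : Type} [Fintype J] (sp : J → S) (A : Set E3)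
    (x : J → E3) : ℝ :=
  ∑ j, if 0 < D.charge (sp j) ∧ x j ∈ A then 1 else 0

end Pool.Agent.Helper780_CP
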