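import Pool.Agent.Helper780_CP.BDefs

/-! More definitions for the uniform local law. -/

set_option autoImplicit false

open MeasureTheory
open scoped Topology

namespace Pool.Agent.Helper780_CP

open Pool.Agent.Helper985.CP

/-- the inner cube -/
def icb (ℓ : ℝ) : Set E3 := {y | ∀ k, ℓ / 4 ≤ y k ∧ y k ≤ 3 * ℓ / 4}

/-- potential of the uniform probability distribution on the inner cube -/
noncomputable def vb (ℓ : ℝ) (z : E3) : ℝ := 8 / ℓ ^ 3 * ∫ y in icb ℓ, 1 / ‖z - y‖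

/-- the potential averaged over the inner cube -/
noncomputable def phb {S : Type} (D : Species S) {I : Type} [Fintype I] (sp : I → S) (ℓ : ℝ)
    (x : I → E3) : ℝ := ∑ i, D.charge (sp i) * vb ℓ (x i)

/-- kinetic energy near `y` -/
noncomputable def klc {S : Type} (D : Species S) {I : Type} [Fintype I] [DecidableEq I]
    (sp : I → S) (y : E3) (r : ℝ) (Ψ : Wave D I) : ℝ :=
  ∑ τ, ∫ x, ∑ j, cy y r (x j) ^ 2 * kin D sp j (Ψ τ) x

/-- kinetic energy in a ball -/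
noncomputable def kb {S : Type} (D : Species S) {I : Type} [Fintype I] [DecidableEq I]
    (sp : I → S) (y : E3) (R : ℝ) (Ψ : Wave D I) : ℝ :=
  ∑ τ, ∫ x, ∑ j, if ‖x j - y‖ < R then kin D sp j (Ψ τ) x else 0

/-- the conclusion of the localised lower bound by balls, with constants `K₁, C` -/
def RB (z K₁ C : ℝ) : Prop :=
  ∀ {I : Type} [Fintype I] [DecidableEq I] (c : I → ℝ) (x : I → E3) (χ : E3 → ℝ),
      (∀ i, |c i| ≤ z) → (∀ i j, i ≠ j → x i ≠ x j) → (∀ v, 0 ≤ χ v ∧ χ v ≤ 1) →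
      (0 ≤ pl χ c x ∧ pl χ c x ≤ vl χ c x + K₁ * pl χ c x) ∧
      (∀ r w, 0 ≤ rb z c x r w) ∧
      ∀ (y : E3) (ρ R : ℝ), (∀ v, ‖v - y‖ < ρ + R → χ v = 1) →
        ∫⁻ r in Set.Ioo (0 : ℝ) R, ENNReal.ofReal ((r ^ 5)⁻¹) *
          ∫⁻ w in Metric.ball y ρ, ENNReal.ofReal (rb z c x r w) ≤
        ENNReal.ofReal (C * (vl χ c x + K₁ * pl χ c x))

end Pool.Agent.Helper780_CP
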