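import Pool.Agent.Helper780_CP.PW
import Pool.Agent.Helper780_CP.Fdl

set_option autoImplicit false

open MeasureTheory
open scoped Topology

namespace Pool.Agent.Helper780_CP

open Pool.Agent.Helper985.CP

theorem prodR_int {J : Type} [Fintype J] (F : (J → E3) × E3 → ℝ) (hm : Measurable F) (C : ℝ)
    (hC : ∀ q, ‖F q‖ ≤ C) (R R2 : ℝ) (hR : ∀ q, F q ≠ 0 → ‖q.1‖ ≤ R ∧ ‖q.2‖ ≤ R2) :
    Integrable F ((volume : Measure (J → E3)).prod (volume : Measure E3)) := by
  have h1 : IntegrableOn F (Metric.closedBall (0 : J → E3) R ×ˢ Metric.closedBall (0 : E3) R2)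
      ((volume : Measure (J → E3)).prod (volume : Measure E3)) := by
    apply Measure.integrableOn_of_bounded (M := C)
    · rw [Measure.prod_prod]
      exact (ENNReal.mul_lt_top (isCompact_closedBall _ _).measure_lt_top
        (isCompact_closedBall _ _).measure_lt_top).ne
    · exact hm.aestronglyMeasurable
    · exact Filter.Eventually.of_forall hC
  rw [integrableOn_iff_integrable_of_support_subset] at h1
  · exact h1
  · intro x hx
    have := hR x hx
    exact ⟨by simpa using this.1, by simpa using this.2⟩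

theorem cube_bdd (ℓ : ℝ) (z : E3) (hz : z ∈ cube ℓ) :
    ‖z‖ ≤ Real.sqrt (∑ _k : Fin 3, ℓ ^ 2) := by
  rw [EuclideanSpace.norm_eq]
  apply Real.sqrt_le_sqrt
  apply Finset.sum_le_sum
  intro k _
  have := hz k
  rw [Real.norm_eq_abs, sq_abs]
  nlinarith [this.1, this.2]

/-- the set of the configurations in which `z` is in the cube and within `s` of a particle of
positive charge -/
def nset {S : Type} (D : Species S) {I : Type} (sp : Option I → S) (ℓ s : ℝ) :
    Set ((I → E3) × E3) :=
  {q | q.2 ∈ cube ℓ ∧ ∃ j, 0 < D.charge (sp (some j)) ∧ ‖q.2 - q.1 j‖ < s}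

theorem nset_meas {S : Type} (D : Species S) {I : Type} [Finite I] (sp : Option I → S) (ℓ s : ℝ) :
    MeasurableSet (nset D sp ℓ s) := by
  have h : nset D sp ℓ s = (Prod.snd ⁻¹' cube ℓ) ∩
      ⋃ j : I, {q : (I → E3) × E3 | 0 < D.charge (sp (some j)) ∧ ‖q.2 - q.1 j‖ < s} := by
    ext q
    simp [nset]
  rw [h]
  refine ((rb_ip_XX_meas ℓ).preimage measurable_snd).inter (MeasurableSet.iUnion fun j => ?_)
  by_cases hj : 0 < D.charge (sp (some j))
  · have e : {q : (I → E3) × E3 | 0 < D.charge (sp (some j)) ∧ ‖q.2 - q.1 j‖ < s} =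
        {q : (I → E3) × E3 | ‖q.2 - q.1 j‖ < s} := by
      ext q
      simp [hj]
    rw [e]
    have h1 : Measurable (fun q : (I → E3) × E3 => q.1 j) :=
      (measurable_pi_apply j).comp measurable_fst
    have h2 : Measurable (fun q : (I → E3) × E3 => ‖q.2 - q.1 j‖) := (measurable_snd.sub h1).norm
    exact measurableSet_lt h2 measurable_const
  · have e : {q : (I → E3) × E3 | 0 < D.charge (sp (some j)) ∧ ‖q.2 - q.1 j‖ < s} = ∅ := by
      ext q
      simp [hj]
    rw [e]
    exact MeasurableSet.empty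

/-- its indicator function -/
noncomputable def nearP {S : Type} (D : Species S) {I : Type} (sp : Option I → S) (ℓ s : ℝ)
    (z : E3) (x : I → E3) : ℝ := (nset D sp ℓ s).indicator (fun _ => 1) (x, z)

theorem nearP_01 {S : Type} (D : Species S) {I : Type} (sp : Option I → S) (ℓ s : ℝ)
    (z : E3) (x : I → E3) : nearP D sp ℓ s z x = 0 ∨ nearP D sp ℓ s z x = 1 := by
  unfold nearP
  by_cases h : (x, z) ∈ nset D sp ℓ s
  · right; rw [Set.indicator_of_mem h]
  · left; rw [Set.indicator_of_notMem h]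

theorem nearP_meas {S : Type} (D : Species S) {I : Type} [Finite I] (sp : Option I → S)
    (ℓ s : ℝ) : Measurable (fun q : (I → E3) × E3 => nearP D sp ℓ s q.2 q.1) := by
  exact measurable_const.indicator (nset_meas D sp ℓ s)

theorem nearP_mem {S : Type} (D : Species S) {I : Type} (sp : Option I → S) (ℓ s : ℝ)
    (z : E3) (x : I → E3) (h : nearP D sp ℓ s z x ≠ 0) : (x, z) ∈ nset D sp ℓ s := by
  by_contra hcon
  apply h
  unfold nearP
  rw [Set.indicator_of_notMem hcon]

/-- number of the particles of positive charge -/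
noncomputable def npos {S : Type} (D : Species S) {I : Type} [Fintype I] (sp : I → S) : ℕ := by
  classical exact (Finset.univ.filter (fun j => 0 < D.charge (sp j))).card

theorem nearP_int {S : Type} (D : Species S) {I : Type} [Fintype I] (sp : Option I → S)
    (ℓ s : ℝ) (hs : 0 ≤ s) (x : I → E3) :
    ∫ z, nearP D sp ℓ s z x ≤ (npos D (fun j => sp (some j)) : ℝ) *
      (4 / 3 * Real.pi * s ^ 3) := by
  classical
  have h1 : ∀ z, nearP D sp ℓ s z x ≤ ∑ j ∈ Finset.univ.filter
      (fun j => 0 < D.charge (sp (some j))),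
      (Metric.ball (x j) s).indicator (fun _ => (1 : ℝ)) z := by
    intro z
    have hnn : ∀ j ∈ Finset.univ.filter (fun j : I => 0 < D.charge (sp (some j))),
        0 ≤ (Metric.ball (x j) s).indicator (fun _ => (1 : ℝ)) z := fun j _ =>
      Set.indicator_nonneg (fun _ _ => zero_le_one) z
    by_cases h : (x, z) ∈ nset D sp ℓ s
    · obtain ⟨-, j, hj, hlt⟩ := h
      have hle := Finset.single_le_sum (f := fun j =>
        (Metric.ball (x j) s).indicator (fun _ => (1 : ℝ)) z) hnn
        (show j ∈ Finset.univ.filter (fun j : I => 0 < D.charge (sp (some j))) by simp [hj])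
      have hz : z ∈ Metric.ball (x j) s := by
        rw [Metric.mem_ball, dist_eq_norm]
        exact hlt
      rw [Set.indicator_of_mem hz] at hle
      refine le_trans ?_ hle
      rcases nearP_01 D sp ℓ s z x with h | h <;> rw [h]
      exact zero_le_one
    · have : nearP D sp ℓ s z x = 0 := by
        unfold nearP
        rw [Set.indicator_of_notMem h]
      rw [this]
      exact Finset.sum_nonneg hnn
  have hbi : ∀ j, Integrable ((Metric.ball (x j) s).indicator (fun _ => (1 : ℝ))) := by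
    intro j
    refine (integrable_indicator_iff Metric.isOpen_ball.measurableSet).2 ?_
    exact integrableOn_const (measure_ball_lt_top).ne
  have h2 : ∫ z, nearP D sp ℓ s z x ≤ ∫ z, ∑ j ∈ Finset.univ.filter
      (fun j => 0 < D.charge (sp (some j))),
      (Metric.ball (x j) s).indicator (fun _ => (1 : ℝ)) z := by
    refine integral_mono_of_nonneg (Filter.Eventually.of_forall fun z => ?_)
      (integrable_finsetSum _ fun j _ => hbi j) (Filter.Eventually.of_forall h1)
    show 0 ≤ nearP D sp ℓ s z x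
    rcases nearP_01 D sp ℓ s z x with h | h <;> rw [h]
    exact zero_le_one
  refine h2.trans (le_of_eq ?_)
  rw [integral_finsetSum _ fun j _ => hbi j]
  have h3 : ∀ j, ∫ z, (Metric.ball (x j) s).indicator (fun _ => (1 : ℝ)) z =
      4 / 3 * Real.pi * s ^ 3 := by
    intro j
    rw [← vol_ball3 (x j) s hs, integral_indicator Metric.isOpen_ball.measurableSet]
    simp
  simp only [h3, Finset.sum_const, nsmul_eq_mul]
  rfl

theorem nearP_swap {S : Type} (D : Species S) {I : Type} [DecidableEq I] (sp : Option I → S)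
    (hneg : D.charge (sp none) < 0) (ℓ s : ℝ) (z : E3) (x : Option I → E3) (a b : Option I)
    (ha : sp a = sp none) (hb : sp b = sp none) :
    nearP D sp ℓ s z (fun j => x (Equiv.swap a b (some j))) =
      nearP D sp ℓ s z (fun j => x (some j)) := by
  have h : ((fun j => x (Equiv.swap a b (some j))), z) ∈ nset D sp ℓ s ↔
      ((fun j => x (some j)), z) ∈ nset D sp ℓ s := by
    unfold nset
    refine and_congr_right fun _ => exists_congr fun j => and_congr_right fun hj => ?_
    have h1 : Equiv.swap a b (some j) = some j := by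
      refine Equiv.swap_apply_of_ne_of_ne ?_ ?_
      · intro h; rw [h, ha] at hj; linarith
      · intro h; rw [h, hb] at hj; linarith
    show ‖z - x (Equiv.swap a b (some j))‖ < s ↔ ‖z - x (some j)‖ < s
    rw [h1]
  unfold nearP
  by_cases h2 : ((fun j => x (some j)), z) ∈ nset D sp ℓ s
  · rw [Set.indicator_of_mem h2, Set.indicator_of_mem (h.2 h2)]
  · rw [Set.indicator_of_notMem h2, Set.indicator_of_notMem (fun h3 => h2 (h.1 h3))]

/-- the wave function cut off to the configurations with a positive charge near `z` -/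
noncomputable def wz {S : Type} (D : Species S) {I : Type} (sp : Option I → S) (ℓ s : ℝ)
    (z : E3) (Ψ : Wave D (Option I)) : Wave D (Option I) :=
  fun τ x => ((nearP D sp ℓ s z (fun j => x (some j)) : ℝ) : ℂ) * Ψ τ x

theorem nice_wz {S : Type} (D : Species S) {I : Type} [Fintype I] (sp : Option I → S)
    (ℓ s : ℝ) (z : E3) (Ψ : Wave D (Option I)) (hΨ : ∀ τ, rbNice (Ψ τ)) (τ : Option I → Fin D.g) :
    rbNice (wz D sp ℓ s z Ψ τ) := by
  obtain ⟨hm, ⟨C, hC⟩, R, hR⟩ := hΨ τ
  refine ⟨?_, ⟨C, fun x => ?_⟩, R, fun x hx => ?_⟩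
  · refine Measurable.mul ?_ hm
    refine Complex.measurable_ofReal.comp ?_
    have : Measurable (fun x : Option I → E3 => ((fun j => x (some j)), z)) :=
      (measurable_pi_lambda _ fun j => measurable_pi_apply (some j)).prodMk measurable_const
    exact (nearP_meas D sp ℓ s).comp this
  · show ‖((nearP D sp ℓ s z (fun j => x (some j)) : ℝ) : ℂ) * Ψ τ x‖ ≤ C
    rw [norm_mul, Complex.norm_real]
    rcases nearP_01 D sp ℓ s z (fun j => x (some j)) with h | h <;> rw [h]
    · simp
      exact (norm_nonneg _).trans (hC x)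
    · simp
      exact hC x
  · apply hR
    intro h
    apply hx
    show ((nearP D sp ℓ s z (fun j => x (some j)) : ℝ) : ℂ) * Ψ τ x = 0
    rw [h, mul_zero]

theorem psl_wz {S : Type} (D : Species S) {I : Type} [Fintype I] (sp : Option I → S)
    (ℓ s : ℝ) (z : E3) (u : E3 → ℂ) (σ : Fin D.g) (Ψ : Wave D (Option I)) (τ : I → Fin D.g)
    (x : I → E3) :
    psl D u σ (wz D sp ℓ s z Ψ) τ x = ((nearP D sp ℓ s z x : ℝ) : ℂ) * psl D u σ Ψ τ x := by
  unfold psl
  rw [← integral_const_mul]
  congr 1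
  funext y
  have : slice D σ y (wz D sp ℓ s z Ψ) τ x =
      ((nearP D sp ℓ s z x : ℝ) : ℂ) * slice D σ y Ψ τ x := rfl
  rw [this]
  ring

theorem nice_slice {S : Type} (D : Species S) {I : Type} [Fintype I] (Ψ : Wave D (Option I))
    (hΨ : ∀ τ, rbNice (Ψ τ)) (τ : Option I → Fin D.g) (x : I → E3) :
    nice1 (fun z => Ψ τ (fun o => o.elim z x)) := by
  obtain ⟨hm, ⟨C, hC⟩, R, hR⟩ := hΨ τ
  refine ⟨?_, ⟨C, fun z => hC _⟩, R, fun z hz => ?_⟩
  · have : Measurable (fun z : E3 => (fun o : Option I => o.elim z x)) := by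
      refine measurable_pi_lambda _ fun o => ?_
      cases o with
      | none => exact measurable_id
      | some j => exact measurable_const
    exact hm.comp this
  · exact (elim_le z x).2.trans (hR _ hz)

/-- the kernel of the projection onto the modes in `K` -/
noncomputable def kerK (ℓ : ℝ) (K : Finset (Fin 3 → ℤ)) (z : E3) : E3 → ℂ :=
  (cube ℓ).indicator (fun y => ∑ m ∈ K, (starRingEnd ℂ) (pwave ℓ m z) * pwave ℓ m y)

theorem kerK_nice (ℓ : ℝ) (hℓ : 0 < ℓ) (K : Finset (Fin 3 → ℤ)) (z : E3) :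
    nice1 (kerK ℓ K z) := by
  have hm : Measurable (fun y => ∑ m ∈ K, (starRingEnd ℂ) (pwave ℓ m z) * pwave ℓ m y) :=
    Finset.measurable_fun_sum _ fun m _ => (pw_meas ℓ m).const_mul _
  refine ⟨hm.indicator (rb_ip_XX_meas ℓ), ⟨∑ _m ∈ K, Real.sqrt (1 / ℓ ^ 3) *
    Real.sqrt (1 / ℓ ^ 3), fun y => ?_⟩, Real.sqrt (∑ _k : Fin 3, ℓ ^ 2), fun y hy => ?_⟩
  · refine (norm_indicator_le_norm_self _ _).trans ?_
    refine (norm_sum_le _ _).trans (Finset.sum_le_sum fun m _ => ?_)
    rw [norm_mul, RCLike.norm_conj]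
    exact mul_le_mul (pw_bdd ℓ hℓ m z) (pw_bdd ℓ hℓ m y) (norm_nonneg _) (Real.sqrt_nonneg _)
  · apply cube_bdd
    by_contra hcon
    exact hy (Set.indicator_of_notMem hcon _)

theorem kerK_int (ℓ : ℝ) (hℓ : 0 < ℓ) (K : Finset (Fin 3 → ℤ)) (z : E3) :
    ∫ y, ‖kerK ℓ K z y‖ ^ 2 = (K.card : ℝ) / ℓ ^ 3 := by
  have h := pw_sum ℓ hℓ K (fun m => (starRingEnd ℂ) (pwave ℓ m z))
  rw [← integral_indicator (rb_ip_XX_meas ℓ)] at h
  have e : ∀ y, (cube ℓ).indicator (fun y => ‖∑ m ∈ K, (starRingEnd ℂ) (pwave ℓ m z) *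
      pwave ℓ m y‖ ^ 2) y = ‖kerK ℓ K z y‖ ^ 2 := by
    intro y
    unfold kerK
    by_cases hy : y ∈ cube ℓ
    · rw [Set.indicator_of_mem hy, Set.indicator_of_mem hy]
    · rw [Set.indicator_of_notMem hy, Set.indicator_of_notMem hy]
      simp
  simp only [e] at h
  rw [h]
  simp only [RCLike.norm_conj, pw_nrm ℓ hℓ, Finset.sum_const, nsmul_eq_mul]
  ring

theorem kerK_psl {S : Type} (D : Species S) {I : Type} [Fintype I] [DecidableEq I]
    (sp : Option I → S) (ℓ : ℝ) (hℓ : 0 < ℓ) (K : Finset (Fin 3 → ℤ)) (z : E3) (σ : Fin D.g)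
    (Ψ : Wave D (Option I)) (hΨ : IsState D sp ℓ Ψ) (τ : I → Fin D.g) (x : I → E3) :
    psl D (kerK ℓ K z) σ Ψ τ x =
      ∑ m ∈ K, psl D (pwave ℓ m) σ Ψ τ x * pwave ℓ m z := by
  have hn := nice_slice D Ψ (fun τ => rb_nice_state D sp ℓ Ψ hΨ τ) (fun o => o.elim σ τ) x
  have h0 : ∀ y, y ∉ cube ℓ → Ψ (fun o => o.elim σ τ) (fun o => o.elim y x) = 0 := by
    intro y hy
    by_contra hne
    have := hΨ.support (fun o => o.elim σ τ) (subset_tsupport _ hne) none
    exact hy this
  have e1 : psl D (kerK ℓ K z) σ Ψ τ x = ∫ y, ∑ m ∈ K, pwave ℓ m z *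
      ((starRingEnd ℂ) (pwave ℓ m y) * Ψ (fun o => o.elim σ τ) (fun o => o.elim y x)) := by
    unfold psl
    congr 1
    funext y
    show (starRingEnd ℂ) (kerK ℓ K z y) * Ψ (fun o => o.elim σ τ) (fun o => o.elim y x) = _
    by_cases hy : y ∈ cube ℓ
    · unfold kerK
      rw [Set.indicator_of_mem hy, map_sum, Finset.sum_mul]
      refine Finset.sum_congr rfl fun m _ => ?_
      rw [map_mul, Complex.conj_conj]
      ring
    · rw [h0 y hy]
      simp
  rw [e1, integral_finsetSum]
  · refine Finset.sum_congr rfl fun m _ => ?_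
    rw [integral_const_mul, mul_comm]
    rfl
  · intro m _
    refine Integrable.const_mul ?_ _
    have hi := nice1_int _ hn
    refine hi.bdd_mul (c := Real.sqrt (1 / ℓ ^ 3))
      (Complex.continuous_conj.measurable.comp (pw_meas ℓ m)).aestronglyMeasurable
      (Filter.Eventually.of_forall fun y => ?_)
    rw [RCLike.norm_conj]
    exact pw_bdd ℓ hℓ m y

end Pool.Agent.Helper780_CP
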