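import Pool.Agent.Helper780_CP.LTC1

set_option autoImplicit false

open MeasureTheory
open scoped Topology

namespace Pool.Agent.Helper780_CP

open Pool.Agent.Helper985.CP

theorem nearP_nn {S : Type} (D : Species S) {I : Type} (sp : Option I → S) (ℓ s : ℝ)
    (z : E3) (x : I → E3) : 0 ≤ nearP D sp ℓ s z x := by
  rcases nearP_01 D sp ℓ s z x with h | h <;> rw [h]
  exact zero_le_one

theorem nearP_le {S : Type} (D : Species S) {I : Type} (sp : Option I → S) (ℓ s : ℝ)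
    (z : E3) (x : I → E3) : nearP D sp ℓ s z x ≤ 1 := by
  rcases nearP_01 D sp ℓ s z x with h | h <;> rw [h]
  exact zero_le_one

theorem nearP_cube {S : Type} (D : Species S) {I : Type} (sp : Option I → S) (ℓ s : ℝ)
    (z : E3) (x : I → E3) (h : z ∉ cube ℓ) : nearP D sp ℓ s z x = 0 := by
  by_contra hcon
  exact h (nearP_mem D sp ℓ s z x hcon).1

theorem nice_sqR {J : Type} [Fintype J] (f : (J → E3) → ℂ) (hf : rbNice f) :
    Integrable (fun x => ‖f x‖ ^ 2) := by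
  have h2 := (rb_nice_int _ (rb_nice_alg f f hf hf 1).2.2).norm
  refine h2.congr (Filter.Eventually.of_forall fun x => ?_)
  simp [pow_two]

/-- the norm of the cut-off wave functions, integrated over the cut-off position -/
theorem wz_int {S : Type} (D : Species S) {I : Type} [Fintype I] [DecidableEq I]
    (sp : Option I → S) (ℓ s : ℝ) (hs : 0 ≤ s) (Ψ : Wave D (Option I))
    (hΨ : ∀ τ, rbNice (Ψ τ)) :
    Integrable (fun z => nrm2 D (wz D sp ℓ s z Ψ)) ∧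
    ∫ z, nrm2 D (wz D sp ℓ s z Ψ) ≤
      ((npos D (fun j => sp (some j)) : ℝ) * (4 / 3 * Real.pi * s ^ 3)) * nrm2 D Ψ := by
  have hF : ∀ τ, Integrable (fun q : (Option I → E3) × E3 =>
      nearP D sp ℓ s q.2 (fun j => q.1 (some j)) * ‖Ψ τ q.1‖ ^ 2)
      ((volume : Measure (Option I → E3)).prod (volume : Measure E3)) := by
    intro τ
    obtain ⟨hm, ⟨C, hC⟩, R, hR⟩ := hΨ τ
    have hC0 : 0 ≤ C := (norm_nonneg _).trans (hC 0)
    refine prodR_int _ ?_ (1 * C ^ 2) (fun q => ?_) R (Real.sqrt (∑ _k : Fin 3, ℓ ^ 2))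
      (fun q hq => ?_)
    · refine Measurable.mul ?_ (((hm.comp measurable_fst).norm).pow_const 2)
      have : Measurable (fun q : (Option I → E3) × E3 => ((fun j : I => q.1 (some j)), q.2)) :=
        (measurable_pi_lambda _ fun j => (measurable_pi_apply (some j)).comp
          measurable_fst).prodMk measurable_snd
      exact (nearP_meas D sp ℓ s).comp this
    · rw [norm_mul, Real.norm_of_nonneg (nearP_nn D sp ℓ s _ _),
        Real.norm_of_nonneg (by positivity)]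
      exact mul_le_mul (nearP_le D sp ℓ s _ _) (pow_le_pow_left₀ (norm_nonneg _) (hC _) 2)
        (by positivity) zero_le_one
    · constructor
      · apply hR
        intro h
        apply hq
        rw [h]
        simp
      · apply cube_bdd
        by_contra hcon
        apply hq
        rw [nearP_cube D sp ℓ s _ _ hcon, zero_mul]
  have e1 : ∀ z, nrm2 D (wz D sp ℓ s z Ψ) =
      ∑ τ, ∫ x : Option I → E3, nearP D sp ℓ s z (fun j => x (some j)) * ‖Ψ τ x‖ ^ 2 := by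
    intro z
    unfold nrm2
    refine Finset.sum_congr rfl fun τ _ => ?_
    congr 1
    funext x
    show ‖((nearP D sp ℓ s z (fun j => x (some j)) : ℝ) : ℂ) * Ψ τ x‖ ^ 2 = _
    rw [norm_mul, Complex.norm_real, mul_pow]
    rcases nearP_01 D sp ℓ s z (fun j => x (some j)) with h | h <;> rw [h] <;> simp
  simp only [e1]
  refine ⟨integrable_finsetSum _ fun τ _ => (hF τ).integral_prod_right, ?_⟩
  rw [integral_finsetSum _ fun τ _ => (hF τ).integral_prod_right]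
  unfold nrm2
  rw [Finset.mul_sum]
  refine Finset.sum_le_sum fun τ _ => ?_
  rw [← integral_integral_swap (f := fun (x : Option I → E3) (z : E3) =>
    nearP D sp ℓ s z (fun j => x (some j)) * ‖Ψ τ x‖ ^ 2) (hF τ), ← integral_const_mul]
  refine integral_mono (hF τ).integral_prod_left ((nice_sqR _ (hΨ τ)).const_mul _) fun x => ?_
  show ∫ z, nearP D sp ℓ s z (fun j => x (some j)) * ‖Ψ τ x‖ ^ 2 ≤ _
  rw [integral_mul_const]
  exact mul_le_mul_of_nonneg_right (nearP_int D sp ℓ s hs (fun j => x (some j))) (by positivity)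

/-- expansion over the modes in `K` -/
noncomputable def gK {S : Type} (D : Species S) {I : Type} (ℓ : ℝ) (K : Finset (Fin 3 → ℤ))
    (σ : Fin D.g) (Ψ : Wave D (Option I)) (τ : I → Fin D.g) (x : I → E3) (z : E3) : ℂ :=
  ∑ m ∈ K, psl D (pwave ℓ m) σ Ψ τ x * pwave ℓ m z

theorem gK_int {S : Type} (D : Species S) {I : Type} [Fintype I] [DecidableEq I]
    (sp : Option I → S) (ℓ : ℝ) (hℓ : 0 < ℓ) (s : ℝ) (K : Finset (Fin 3 → ℤ))
    (σ : Fin D.g) (Ψ : Wave D (Option I)) (hΨ : IsState D sp ℓ Ψ) (τ : I → Fin D.g) :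
    Integrable (fun q : (I → E3) × E3 => nearP D sp ℓ s q.2 q.1 * ‖gK D ℓ K σ Ψ τ q.1 q.2‖ ^ 2)
      ((volume : Measure (I → E3)).prod (volume : Measure E3)) := by
  have hst : ∀ m, rbNice (psl D (pwave ℓ m) σ Ψ τ) := fun m =>
    rb_nice_state D (fun i => sp (some i)) ℓ _ (psl_state D sp ℓ Ψ hΨ _ (psl_pwave_cont ℓ m) σ) τ
  choose hm hb R hR using hst
  choose C hC using hb
  have hC0 : ∀ m, 0 ≤ C m := fun m => (norm_nonneg _).trans (hC m 0)
  have hgm : Measurable (fun q : (I → E3) × E3 => gK D ℓ K σ Ψ τ q.1 q.2) :=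
    Finset.measurable_fun_sum _ fun m _ => ((hm m).comp measurable_fst).mul
      ((pw_meas ℓ m).comp measurable_snd)
  have hgb : ∀ q : (I → E3) × E3, ‖gK D ℓ K σ Ψ τ q.1 q.2‖ ≤
      ∑ m ∈ K, C m * Real.sqrt (1 / ℓ ^ 3) := by
    intro q
    refine (norm_sum_le _ _).trans (Finset.sum_le_sum fun m _ => ?_)
    rw [norm_mul]
    exact mul_le_mul (hC m _) (pw_bdd ℓ hℓ m _) (norm_nonneg _) (hC0 m)
  refine prodR_int _ ?_ (1 * (∑ m ∈ K, C m * Real.sqrt (1 / ℓ ^ 3)) ^ 2) (fun q => ?_)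
    (∑ m ∈ K, |R m|) (Real.sqrt (∑ _k : Fin 3, ℓ ^ 2)) (fun q hq => ?_)
  · exact (nearP_meas D sp ℓ s).mul ((hgm.norm).pow_const 2)
  · rw [norm_mul, Real.norm_of_nonneg (nearP_nn D sp ℓ s _ _),
      Real.norm_of_nonneg (by positivity)]
    exact mul_le_mul (nearP_le D sp ℓ s _ _) (pow_le_pow_left₀ (norm_nonneg _) (hgb _) 2)
      (by positivity) zero_le_one
  · constructor
    · by_contra hcon
      apply hq
      have : gK D ℓ K σ Ψ τ q.1 q.2 = 0 := by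
        unfold gK
        refine Finset.sum_eq_zero fun m hm => ?_
        have : psl D (pwave ℓ m) σ Ψ τ q.1 = 0 := by
          by_contra hne
          apply hcon
          refine (hR m _ hne).trans ((le_abs_self _).trans ?_)
          exact Finset.single_le_sum (f := fun m => |R m|) (fun _ _ => abs_nonneg _) hm
        rw [this, zero_mul]
      rw [this]
      simp
    · apply cube_bdd
      by_contra hcon
      apply hq
      rw [nearP_cube D sp ℓ s _ _ hcon, zero_mul]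

/-- the low modes -/
theorem low_modes {S : Type} [DecidableEq S] (D : Species S) {I : Type} [Fintype I]
    [DecidableEq I] (sp : Option I → S) (hneg : D.charge (sp none) < 0)
    (hferm : D.fermion (sp none) = true) (ℓ : ℝ) (hℓ : 0 < ℓ) (s : ℝ) (hs : 0 ≤ s)
    (K : Finset (Fin 3 → ℤ)) (σ : Fin D.g) (Ψ : Wave D (Option I)) (hΨ : IsState D sp ℓ Ψ) :
    (cnt sp (sp none) : ℝ) * ∑ τ : I → Fin D.g, ∫ x : I → E3, ∫ z : E3,
      nearP D sp ℓ s z x * ‖gK D ℓ K σ Ψ τ x z‖ ^ 2 ≤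
      ((K.card : ℝ) / ℓ ^ 3) * (((npos D (fun j => sp (some j)) : ℝ) *
        (4 / 3 * Real.pi * s ^ 3)) * nrm2 D Ψ) := by
  have hn : ∀ τ, rbNice (Ψ τ) := fun τ => rb_nice_state D sp ℓ Ψ hΨ τ
  obtain ⟨w1, w2⟩ := wz_int D sp ℓ s hs Ψ hn
  have h1 : ∑ τ : I → Fin D.g, ∫ x : I → E3, ∫ z : E3,
      nearP D sp ℓ s z x * ‖gK D ℓ K σ Ψ τ x z‖ ^ 2 =
      ∫ z, nrm2 D (psl D (kerK ℓ K z) σ (wz D sp ℓ s z Ψ)) := by
    have e1 : ∀ z, nrm2 D (psl D (kerK ℓ K z) σ (wz D sp ℓ s z Ψ)) =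
        ∑ τ : I → Fin D.g, ∫ x : I → E3, nearP D sp ℓ s z x * ‖gK D ℓ K σ Ψ τ x z‖ ^ 2 := by
      intro z
      unfold nrm2
      refine Finset.sum_congr rfl fun τ _ => ?_
      congr 1
      funext x
      rw [psl_wz, kerK_psl D sp ℓ hℓ K z σ Ψ hΨ τ x, norm_mul, Complex.norm_real, mul_pow]
      rcases nearP_01 D sp ℓ s z x with h | h <;> rw [h]
      · simp
      · simp [gK]
    simp only [e1]
    rw [integral_finsetSum _ fun τ _ =>
      (gK_int D sp ℓ hℓ s K σ Ψ hΨ τ).integral_prod_right]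
    refine Finset.sum_congr rfl fun τ _ => ?_
    exact integral_integral_swap (f := fun (x : I → E3) (z : E3) =>
      nearP D sp ℓ s z x * ‖gK D ℓ K σ Ψ τ x z‖ ^ 2) (gK_int D sp ℓ hℓ s K σ Ψ hΨ τ)
  rw [h1, ← integral_const_mul]
  have h2 : ∀ z, (cnt sp (sp none) : ℝ) * nrm2 D (psl D (kerK ℓ K z) σ (wz D sp ℓ s z Ψ)) ≤
      ((K.card : ℝ) / ℓ ^ 3) * nrm2 D (wz D sp ℓ s z Ψ) := by
    intro z
    have h := pauli D sp (kerK ℓ K z) (kerK_nice ℓ hℓ K z) σ (wz D sp ℓ s z Ψ)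
      (fun τ => nice_wz D sp ℓ s z Ψ hn τ) (by
        intro a b hab ha hb τ x
        have h3 := hΨ.symm a b hab (ha.trans hb.symm) τ x
        have h4 : exch D (sp a) = -1 := by
          rw [ha, exch, hferm]
          simp
        rw [h4] at h3
        show ((nearP D sp ℓ s z (fun j => x (Equiv.swap a b (some j))) : ℝ) : ℂ) *
          Ψ (fun k => τ (Equiv.swap a b k)) (fun k => x (Equiv.swap a b k)) =
          -1 * (((nearP D sp ℓ s z (fun j => x (some j)) : ℝ) : ℂ) * Ψ τ x)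
        rw [h3, nearP_swap D sp hneg ℓ s z x a b ha hb]
        ring)
    rw [kerK_int ℓ hℓ K z] at h
    exact h
  have h3 : ∫ z, (cnt sp (sp none) : ℝ) * nrm2 D (psl D (kerK ℓ K z) σ (wz D sp ℓ s z Ψ)) ≤
      ∫ z, ((K.card : ℝ) / ℓ ^ 3) * nrm2 D (wz D sp ℓ s z Ψ) := by
    refine integral_mono_of_nonneg (Filter.Eventually.of_forall fun z => ?_) (w1.const_mul _)
      (Filter.Eventually.of_forall h2)
    show 0 ≤ (cnt sp (sp none) : ℝ) * nrm2 D (psl D (kerK ℓ K z) σ (wz D sp ℓ s z Ψ))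
    refine mul_nonneg (Nat.cast_nonneg _) ?_
    rw [nrm2]
    exact Finset.sum_nonneg fun τ _ => integral_nonneg fun x => by positivity
  refine h3.trans ?_
  rw [integral_const_mul]
  exact mul_le_mul_of_nonneg_left w2 (by positivity)

/-- the bound at one scale -/
theorem one_scale {S : Type} [DecidableEq S] (D : Species S) {I : Type} [Fintype I]
    [DecidableEq I] (sp : Option I → S) (hneg : D.charge (sp none) < 0)
    (hferm : D.fermion (sp none) = true) (ℓ : ℝ) (hℓ : 0 < ℓ) (s : ℝ) (hs : 0 ≤ s)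
    (K : Finset (Fin 3 → ℤ)) (Ψ : Wave D (Option I)) (hΨ : IsState D sp ℓ Ψ) :
    (cnt sp (sp none) : ℝ) * ∑ τ, ∫ x : Option I → E3,
      nearP D sp ℓ s (x none) (fun j => x (some j)) * ‖Ψ τ x‖ ^ 2 ≤
      2 * ((D.g : ℝ) * (((K.card : ℝ) / ℓ ^ 3) * (((npos D (fun j => sp (some j)) : ℝ) *
        (4 / 3 * Real.pi * s ^ 3)) * nrm2 D Ψ))) +
      2 * (cnt sp (sp none) : ℝ) *
        (nrm2 D Ψ - ∑ m ∈ K, ∑ σ, nrm2 D (psl D (pwave ℓ m) σ Ψ)) := by
  have hn : ∀ τ, rbNice (Ψ τ) := fun τ => rb_nice_state D sp ℓ Ψ hΨ τ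
  have hst : ∀ m σ τ, rbNice (psl D (pwave ℓ m) σ Ψ τ) := fun m σ τ =>
    rb_nice_state D (fun i => sp (some i)) ℓ _ (psl_state D sp ℓ Ψ hΨ _ (psl_pwave_cont ℓ m) σ) τ
  -- integrability
  have hI1 : ∀ τ, Integrable (fun x : Option I → E3 =>
      nearP D sp ℓ s (x none) (fun j => x (some j)) * ‖Ψ τ x‖ ^ 2) := by
    intro τ
    refine (nice_sqR _ (hn τ)).bdd_mul (c := 1) ?_ (Filter.Eventually.of_forall fun x => ?_)
    · have : Measurable (fun x : Option I → E3 => ((fun j : I => x (some j)), x none)) :=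
        (measurable_pi_lambda _ fun j => measurable_pi_apply (some j)).prodMk
          (measurable_pi_apply none)
      exact ((nearP_meas D sp ℓ s).comp this).aestronglyMeasurable
    · rw [Real.norm_of_nonneg (nearP_nn D sp ℓ s _ _)]
      exact nearP_le D sp ℓ s _ _
  have hI2 : ∀ τ, Integrable (fun x : Option I → E3 => ‖Ψ τ x‖ ^ 2) := fun τ => nice_sqR _ (hn τ)
  -- the left side
  have hL : ∑ τ, ∫ x : Option I → E3,
      nearP D sp ℓ s (x none) (fun j => x (some j)) * ‖Ψ τ x‖ ^ 2 =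
      ∑ σ : Fin D.g, ∑ τ : I → Fin D.g, ∫ x : I → E3, ∫ z : E3,
        nearP D sp ℓ s z x * ‖Ψ (fun o => o.elim σ τ) (fun o => o.elim z x)‖ ^ 2 := by
    rw [pslx_sum]
    refine Finset.sum_congr rfl fun σ _ => Finset.sum_congr rfl fun τ _ => ?_
    rw [(psl_fubini _ (hI1 (fun o => o.elim σ τ))).2]
    rfl
  have hN : nrm2 D Ψ = ∑ σ : Fin D.g, ∑ τ : I → Fin D.g, ∫ x : I → E3, ∫ z : E3,
        ‖Ψ (fun o => o.elim σ τ) (fun o => o.elim z x)‖ ^ 2 := by
    unfold nrm2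
    rw [pslx_sum]
    refine Finset.sum_congr rfl fun σ _ => Finset.sum_congr rfl fun τ _ => ?_
    rw [(psl_fubini _ (hI2 (fun o => o.elim σ τ))).2]
  -- pointwise
  have hpt : ∀ (σ : Fin D.g) (τ : I → Fin D.g) (x : I → E3),
      ∫ z : E3, nearP D sp ℓ s z x * ‖Ψ (fun o => o.elim σ τ) (fun o => o.elim z x)‖ ^ 2 ≤
      2 * (∫ z : E3, nearP D sp ℓ s z x * ‖gK D ℓ K σ Ψ τ x z‖ ^ 2) +
      2 * ((∫ z : E3, ‖Ψ (fun o => o.elim σ τ) (fun o => o.elim z x)‖ ^ 2) -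
        ∑ m ∈ K, ‖psl D (pwave ℓ m) σ Ψ τ x‖ ^ 2) := by
    intro σ τ x
    obtain ⟨fm, ⟨C, hC⟩, R, hR⟩ := nice_slice D Ψ hn (fun o => o.elim σ τ) x
    have h0 : ∀ y, y ∉ cube ℓ → Ψ (fun o => o.elim σ τ) (fun o => o.elim y x) = 0 := by
      intro y hy
      by_contra hne
      have := hΨ.support (fun o => o.elim σ τ) (subset_tsupport _ hne) none
      exact hy this
    have hrest := pw_rest ℓ hℓ K _ fm C hC h0
    have hgm : Measurable (fun z => gK D ℓ K σ Ψ τ x z) :=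
      Finset.measurable_fun_sum _ fun m _ => (pw_meas ℓ m).const_mul _
    have hgb : ∀ z, ‖gK D ℓ K σ Ψ τ x z‖ ≤
        ∑ m ∈ K, ‖psl D (pwave ℓ m) σ Ψ τ x‖ * Real.sqrt (1 / ℓ ^ 3) := by
      intro z
      refine (norm_sum_le _ _).trans (Finset.sum_le_sum fun m _ => ?_)
      rw [norm_mul]
      exact mul_le_mul_of_nonneg_left (pw_bdd ℓ hℓ m _) (norm_nonneg _)
    have hnm : Measurable (fun z : E3 => nearP D sp ℓ s z x) :=
      (nearP_meas D sp ℓ s).comp (measurable_const.prodMk measurable_id)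
    have i1 : IntegrableOn (fun z => nearP D sp ℓ s z x * ‖gK D ℓ K σ Ψ τ x z‖ ^ 2)
        (cube ℓ) := by
      refine pw_intOnR ℓ hℓ _ (hnm.mul ((hgm.norm).pow_const 2))
        (1 * (∑ m ∈ K, ‖psl D (pwave ℓ m) σ Ψ τ x‖ * Real.sqrt (1 / ℓ ^ 3)) ^ 2) (fun z => ?_)
      rw [norm_mul, Real.norm_of_nonneg (nearP_nn D sp ℓ s _ _),
        Real.norm_of_nonneg (by positivity)]
      exact mul_le_mul (nearP_le D sp ℓ s _ _) (pow_le_pow_left₀ (norm_nonneg _) (hgb _) 2)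
        (by positivity) zero_le_one
    have i2 : IntegrableOn (fun z => ‖Ψ (fun o => o.elim σ τ) (fun o => o.elim z x) -
        gK D ℓ K σ Ψ τ x z‖ ^ 2) (cube ℓ) := by
      refine pw_intOnR ℓ hℓ _ (((fm.sub hgm).norm).pow_const 2)
        ((C + ∑ m ∈ K, ‖psl D (pwave ℓ m) σ Ψ τ x‖ * Real.sqrt (1 / ℓ ^ 3)) ^ 2) (fun z => ?_)
      rw [Real.norm_of_nonneg (by positivity)]
      refine pow_le_pow_left₀ (norm_nonneg _) ?_ 2
      exact (norm_sub_le _ _).trans (add_le_add (hC z) (hgb z))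
    have i3 : IntegrableOn (fun z => nearP D sp ℓ s z x *
        ‖Ψ (fun o => o.elim σ τ) (fun o => o.elim z x)‖ ^ 2) (cube ℓ) := by
      refine pw_intOnR ℓ hℓ _ (hnm.mul ((fm.norm).pow_const 2)) (1 * C ^ 2) (fun z => ?_)
      rw [norm_mul, Real.norm_of_nonneg (nearP_nn D sp ℓ s _ _),
        Real.norm_of_nonneg (by positivity)]
      exact mul_le_mul (nearP_le D sp ℓ s _ _) (pow_le_pow_left₀ (norm_nonneg _) (hC _) 2)
        (by positivity) zero_le_one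
    have e1 : ∫ z in cube ℓ, nearP D sp ℓ s z x *
        ‖Ψ (fun o => o.elim σ τ) (fun o => o.elim z x)‖ ^ 2 = ∫ z : E3, nearP D sp ℓ s z x *
        ‖Ψ (fun o => o.elim σ τ) (fun o => o.elim z x)‖ ^ 2 := by
      apply setIntegral_eq_integral_of_forall_compl_eq_zero
      intro z hz
      rw [nearP_cube D sp ℓ s _ _ hz, zero_mul]
    have e2 : ∫ z in cube ℓ, nearP D sp ℓ s z x * ‖gK D ℓ K σ Ψ τ x z‖ ^ 2 =
        ∫ z : E3, nearP D sp ℓ s z x * ‖gK D ℓ K σ Ψ τ x z‖ ^ 2 := by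
      apply setIntegral_eq_integral_of_forall_compl_eq_zero
      intro z hz
      rw [nearP_cube D sp ℓ s _ _ hz, zero_mul]
    have e3 : ∫ z in cube ℓ, ‖Ψ (fun o => o.elim σ τ) (fun o => o.elim z x) -
        gK D ℓ K σ Ψ τ x z‖ ^ 2 = (∫ z : E3, ‖Ψ (fun o => o.elim σ τ)
        (fun o => o.elim z x)‖ ^ 2) - ∑ m ∈ K, ‖psl D (pwave ℓ m) σ Ψ τ x‖ ^ 2 := hrest
    rw [← e1, ← e2, ← e3, ← integral_const_mul, ← integral_const_mul,
      ← integral_add (i1.const_mul 2) (i2.const_mul 2)]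
    refine integral_mono i3 ((i1.const_mul 2).add (i2.const_mul 2)) fun z => ?_
    show nearP D sp ℓ s z x * ‖Ψ (fun o => o.elim σ τ) (fun o => o.elim z x)‖ ^ 2 ≤
      2 * (nearP D sp ℓ s z x * ‖gK D ℓ K σ Ψ τ x z‖ ^ 2) +
      2 * ‖Ψ (fun o => o.elim σ τ) (fun o => o.elim z x) - gK D ℓ K σ Ψ τ x z‖ ^ 2
    have h1 : ‖Ψ (fun o => o.elim σ τ) (fun o => o.elim z x)‖ ^ 2 ≤
        2 * ‖gK D ℓ K σ Ψ τ x z‖ ^ 2 +
        2 * ‖Ψ (fun o => o.elim σ τ) (fun o => o.elim z x) - gK D ℓ K σ Ψ τ x z‖ ^ 2 := by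
      have h2 : ‖Ψ (fun o => o.elim σ τ) (fun o => o.elim z x)‖ ≤ ‖gK D ℓ K σ Ψ τ x z‖ +
          ‖Ψ (fun o => o.elim σ τ) (fun o => o.elim z x) - gK D ℓ K σ Ψ τ x z‖ := by
        have := norm_add_le (gK D ℓ K σ Ψ τ x z)
          (Ψ (fun o => o.elim σ τ) (fun o => o.elim z x) - gK D ℓ K σ Ψ τ x z)
        simpa using this
      have h3 := pow_le_pow_left₀ (norm_nonneg _) h2 2
      nlinarith [sq_nonneg (‖gK D ℓ K σ Ψ τ x z‖ -
        ‖Ψ (fun o => o.elim σ τ) (fun o => o.elim z x) - gK D ℓ K σ Ψ τ x z‖)]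
    rcases nearP_01 D sp ℓ s z x with h | h <;> rw [h]
    · have : 0 ≤ ‖Ψ (fun o => o.elim σ τ) (fun o => o.elim z x) - gK D ℓ K σ Ψ τ x z‖ ^ 2 := by
        positivity
      simp only [zero_mul, mul_zero, zero_add]
      linarith
    · simp only [one_mul]
      exact h1
  -- integrate
  have hx : ∀ (σ : Fin D.g) (τ : I → Fin D.g),
      ∫ x : I → E3, ∫ z : E3, nearP D sp ℓ s z x *
        ‖Ψ (fun o => o.elim σ τ) (fun o => o.elim z x)‖ ^ 2 ≤
      2 * (∫ x : I → E3, ∫ z : E3, nearP D sp ℓ s z x * ‖gK D ℓ K σ Ψ τ x z‖ ^ 2) +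
      2 * ((∫ x : I → E3, ∫ z : E3, ‖Ψ (fun o => o.elim σ τ) (fun o => o.elim z x)‖ ^ 2) -
        ∑ m ∈ K, ∫ x : I → E3, ‖psl D (pwave ℓ m) σ Ψ τ x‖ ^ 2) := by
    intro σ τ
    have j1 : Integrable (fun x : I → E3 => ∫ z : E3, nearP D sp ℓ s z x *
        ‖Ψ (fun o => o.elim σ τ) (fun o => o.elim z x)‖ ^ 2) :=
      (psl_fubini _ (hI1 (fun o => o.elim σ τ))).1.integral_prod_left
    have j2 : Integrable (fun x : I → E3 => ∫ z : E3,
        ‖Ψ (fun o => o.elim σ τ) (fun o => o.elim z x)‖ ^ 2) :=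
      (psl_fubini _ (hI2 (fun o => o.elim σ τ))).1.integral_prod_left
    have j3 : Integrable (fun x : I → E3 => ∫ z : E3, nearP D sp ℓ s z x *
        ‖gK D ℓ K σ Ψ τ x z‖ ^ 2) := (gK_int D sp ℓ hℓ s K σ Ψ hΨ τ).integral_prod_left
    have j4 : Integrable (fun x : I → E3 => ∑ m ∈ K, ‖psl D (pwave ℓ m) σ Ψ τ x‖ ^ 2) :=
      integrable_finsetSum _ fun m _ => nice_sqR _ (hst m σ τ)
    have j5 : Integrable (fun x : I → E3 => (∫ z : E3,
        ‖Ψ (fun o => o.elim σ τ) (fun o => o.elim z x)‖ ^ 2) -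
        ∑ m ∈ K, ‖psl D (pwave ℓ m) σ Ψ τ x‖ ^ 2) := j2.sub j4
    rw [← integral_finsetSum _ fun m _ => nice_sqR _ (hst m σ τ), ← integral_sub j2 j4,
      ← integral_const_mul, ← integral_const_mul,
      ← integral_add (j3.const_mul 2) (j5.const_mul 2)]
    exact integral_mono j1 ((j3.const_mul 2).add (j5.const_mul 2)) fun x => hpt σ τ x
  have hsum : ∑ σ : Fin D.g, ∑ τ : I → Fin D.g, ∫ x : I → E3, ∫ z : E3, nearP D sp ℓ s z x *
        ‖Ψ (fun o => o.elim σ τ) (fun o => o.elim z x)‖ ^ 2 ≤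
      2 * (∑ σ : Fin D.g, ∑ τ : I → Fin D.g, ∫ x : I → E3, ∫ z : E3,
        nearP D sp ℓ s z x * ‖gK D ℓ K σ Ψ τ x z‖ ^ 2) +
      2 * (nrm2 D Ψ - ∑ m ∈ K, ∑ σ, nrm2 D (psl D (pwave ℓ m) σ Ψ)) := by
    have e4 : ∑ m ∈ K, ∑ σ, nrm2 D (psl D (pwave ℓ m) σ Ψ) =
        ∑ σ : Fin D.g, ∑ τ : I → Fin D.g, ∑ m ∈ K,
          ∫ x : I → E3, ‖psl D (pwave ℓ m) σ Ψ τ x‖ ^ 2 := by
      rw [Finset.sum_comm]
      refine Finset.sum_congr rfl fun σ _ => ?_
      unfold nrm2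
      rw [Finset.sum_comm]
    rw [hN, e4, Finset.mul_sum, ← Finset.sum_sub_distrib, Finset.mul_sum,
      ← Finset.sum_add_distrib]
    refine Finset.sum_le_sum fun σ _ => ?_
    rw [Finset.mul_sum, ← Finset.sum_sub_distrib, Finset.mul_sum, ← Finset.sum_add_distrib]
    exact Finset.sum_le_sum fun τ _ => hx σ τ
  rw [hL]
  have hlow : (cnt sp (sp none) : ℝ) * ∑ σ : Fin D.g, ∑ τ : I → Fin D.g, ∫ x : I → E3,
      ∫ z : E3, nearP D sp ℓ s z x * ‖gK D ℓ K σ Ψ τ x z‖ ^ 2 ≤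
      (D.g : ℝ) * (((K.card : ℝ) / ℓ ^ 3) * (((npos D (fun j => sp (some j)) : ℝ) *
        (4 / 3 * Real.pi * s ^ 3)) * nrm2 D Ψ)) := by
    rw [Finset.mul_sum]
    calc ∑ σ : Fin D.g, (cnt sp (sp none) : ℝ) * ∑ τ : I → Fin D.g, ∫ x : I → E3,
          ∫ z : E3, nearP D sp ℓ s z x * ‖gK D ℓ K σ Ψ τ x z‖ ^ 2
        ≤ ∑ _σ : Fin D.g, (((K.card : ℝ) / ℓ ^ 3) * (((npos D (fun j => sp (some j)) : ℝ) *
          (4 / 3 * Real.pi * s ^ 3)) * nrm2 D Ψ)) :=
          Finset.sum_le_sum fun σ _ => low_modes D sp hneg hferm ℓ hℓ s hs K σ Ψ hΨ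
      _ = _ := by rw [Finset.sum_const, Finset.card_univ, Fintype.card_fin, nsmul_eq_mul]
  have h5 := mul_le_mul_of_nonneg_left hsum (Nat.cast_nonneg (α := ℝ) (cnt sp (sp none)))
  linarith

end Pool.Agent.Helper780_CP
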