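import Pool.Agent.Helper780_CP.LTC2
import Pool.Agent.Helper780_CP.Baxter

set_option autoImplicit false

open MeasureTheory
open scoped Topology

namespace Pool.Agent.Helper780_CP

open Pool.Agent.Helper985.CP

theorem layer4 (η : ℝ) (χ : ℕ → ℝ) (h0 : ∀ k, 0 ≤ χ k) (h1 : ∀ k : ℕ, (4 : ℝ) ^ k < η → χ k = 1)
    (M : ℕ) : min η (4 ^ M) ≤ 1 + ∑ k ∈ Finset.range M, (4 : ℝ) ^ (k + 1) * χ k := by
  induction M with
  | zero => simp
  | succ M ih =>
    rw [Finset.sum_range_succ]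
    have h2 : 0 ≤ (4 : ℝ) ^ (M + 1) * χ M := mul_nonneg (by positivity) (h0 M)
    by_cases h : (4 : ℝ) ^ M < η
    · rw [h1 M h]
      have h3 : 0 ≤ ∑ k ∈ Finset.range M, (4 : ℝ) ^ (k + 1) * χ k :=
        Finset.sum_nonneg fun k _ => mul_nonneg (by positivity) (h0 k)
      have := min_le_right η ((4 : ℝ) ^ (M + 1))
      linarith
    · rw [not_lt] at h
      have h4 : min η ((4 : ℝ) ^ M) = η := min_eq_left h
      rw [h4] at ih
      have := min_le_left η ((4 : ℝ) ^ (M + 1))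
      linarith

theorem geoP4 (P : ℝ) (M : ℕ) (hP : 0 ≤ P) :
    ∑ k ∈ Finset.range M, (if (4 : ℝ) ^ k ≤ P then (4 : ℝ) ^ k else 0) ≤ 4 / 3 * P := by
  have h1 : ∀ M : ℕ, ∑ k ∈ Finset.range M, (if (4 : ℝ) ^ k ≤ P then (4 : ℝ) ^ k else 0) ≤
      ((4 : ℝ) ^ M - 1) / 3 := by
    intro M
    induction M with
    | zero => simp
    | succ M ih =>
      rw [Finset.sum_range_succ, pow_succ]
      have : (if (4 : ℝ) ^ M ≤ P then (4 : ℝ) ^ M else 0) ≤ (4 : ℝ) ^ M := by
        split_ifs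
        · exact le_rfl
        · positivity
      linarith
  induction M with
  | zero => simp; positivity
  | succ M ih =>
    by_cases h : (4 : ℝ) ^ M ≤ P
    · have := h1 (M + 1)
      rw [pow_succ] at this
      linarith
    · rw [Finset.sum_range_succ, if_neg h, add_zero]
      exact ih

/-- the weight of the modes of one spin state -/
noncomputable def tm {S : Type} (D : Species S) {I : Type} [Fintype I] [DecidableEq I]
    (ℓ : ℝ) (Ψ : Wave D (Option I)) (m : Fin 3 → ℤ) : ℝ :=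
  ∑ σ, nrm2 D (psl D (pwave ℓ m) σ Ψ)

theorem tm_nonneg {S : Type} (D : Species S) {I : Type} [Fintype I] [DecidableEq I]
    (ℓ : ℝ) (Ψ : Wave D (Option I)) (m : Fin 3 → ℤ) : 0 ≤ tm D ℓ Ψ m := by
  unfold tm nrm2
  exact Finset.sum_nonneg fun σ _ => Finset.sum_nonneg fun τ _ => integral_nonneg fun x => by
    positivity

theorem tails {S : Type} (D : Species S) (hD : D.Valid) {I : Type} [Fintype I] [DecidableEq I]
    (sp : Option I → S) (ℓ : ℝ) (hℓ : 0 < ℓ) (a : ℝ) (ha : 0 < a) (Ψ : Wave D (Option I))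
    (hΨ : IsState D sp ℓ Ψ) (M : ℕ) :
    ∑ k ∈ Finset.range M, (4 : ℝ) ^ k *
      (nrm2 D Ψ - ∑ m ∈ modes ⌊a * 2 ^ k * ℓ⌋₊, tm D ℓ Ψ m) ≤
      4 / 3 * (2 * D.mass (sp none) * kinE D sp none Ψ) / a ^ 2 := by
  classical
  obtain ⟨h1, h2, -⟩ := psl_nrm D hD sp ℓ hℓ Ψ hΨ
  have h1' : HasSum (fun m => tm D ℓ Ψ m) (nrm2 D Ψ) := h1
  have h2' : HasSum (fun m => pen ℓ m * tm D ℓ Ψ m) (2 * D.mass (sp none) * kinE D sp none Ψ) := h2
  have hk : ∀ k : ℕ, HasSum (fun m => (4 : ℝ) ^ k * (tm D ℓ Ψ m -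
      (if m ∈ modes ⌊a * 2 ^ k * ℓ⌋₊ then tm D ℓ Ψ m else 0)))
      ((4 : ℝ) ^ k * (nrm2 D Ψ - ∑ m ∈ modes ⌊a * 2 ^ k * ℓ⌋₊, tm D ℓ Ψ m)) := by
    intro k
    refine HasSum.mul_left _ (h1'.sub ?_)
    have h3 : ∑ m ∈ modes ⌊a * 2 ^ k * ℓ⌋₊, tm D ℓ Ψ m = ∑ m ∈ modes ⌊a * 2 ^ k * ℓ⌋₊,
        (if m ∈ modes ⌊a * 2 ^ k * ℓ⌋₊ then tm D ℓ Ψ m else 0) :=
      Finset.sum_congr rfl fun m hm => by rw [if_pos hm]
    rw [h3]
    exact hasSum_sum_of_ne_finset_zero fun m hm => if_neg hm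
  have hsum := hasSum_sum (s := Finset.range M) fun k _ => hk k
  have h4 := h2'.mul_left (4 / 3 / a ^ 2)
  have h5 := hasSum_le (fun m => ?_) hsum h4
  · calc _ ≤ _ := h5
      _ = _ := by ring
  · have h6 : ∀ k ∈ Finset.range M, (4 : ℝ) ^ k * (tm D ℓ Ψ m -
        (if m ∈ modes ⌊a * 2 ^ k * ℓ⌋₊ then tm D ℓ Ψ m else 0)) ≤
        tm D ℓ Ψ m * (if (4 : ℝ) ^ k ≤ pen ℓ m / a ^ 2 then (4 : ℝ) ^ k else 0) := by
      intro k _
      by_cases hm : m ∈ modes ⌊a * 2 ^ k * ℓ⌋₊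
      · rw [if_pos hm, sub_self, mul_zero]
        refine mul_nonneg (tm_nonneg D ℓ Ψ m) ?_
        split_ifs
        · positivity
        · exact le_rfl
      · rw [if_neg hm, sub_zero, if_pos]
        · exact le_of_eq (mul_comm _ _)
        · rw [le_div_iff₀ (by positivity)]
          have := pen_big ℓ hℓ (a * 2 ^ k) (by positivity) m hm
          calc (4 : ℝ) ^ k * a ^ 2 = (a * 2 ^ k) ^ 2 := by
                rw [mul_pow, ← pow_mul, mul_comm k 2, pow_mul]
                norm_num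
                ring
            _ ≤ _ := this
    refine (Finset.sum_le_sum h6).trans ?_
    rw [← Finset.mul_sum]
    calc tm D ℓ Ψ m * ∑ k ∈ Finset.range M, (if (4 : ℝ) ^ k ≤ pen ℓ m / a ^ 2 then
          (4 : ℝ) ^ k else 0) ≤ tm D ℓ Ψ m * (4 / 3 * (pen ℓ m / a ^ 2)) :=
          mul_le_mul_of_nonneg_left (geoP4 _ M (div_nonneg (pen_nonneg ℓ m) (by positivity)))
            (tm_nonneg D ℓ Ψ m)
      _ = 4 / 3 / a ^ 2 * (pen ℓ m * tm D ℓ Ψ m) := by ring

theorem pinv_meas {S : Type} (D : Species S) {I : Type} [Finite I] (sp : I → S) (i : I) :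
    Measurable (fun x : I → E3 => pinv D sp i x) := by
  unfold pinv
  refine Measurable.iSup fun j => ?_
  by_cases h : 0 < D.charge (sp j)
  · simp only [if_pos h]
    exact (((measurable_pi_apply i).sub (measurable_pi_apply j)).norm).inv
  · simp only [if_neg h]
    exact measurable_const

theorem pinv_le {S : Type} (D : Species S) {I : Type} [Fintype I] [DecidableEq I] (sp : I → S)
    (i : I) (x : I → E3) :
    pinv D sp i x ≤ ∑ j, (if i = j then 0 else ‖x i - x j‖⁻¹) := by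
  unfold pinv
  have hnn : ∀ j ∈ (Finset.univ : Finset I), 0 ≤ (if i = j then 0 else ‖x i - x j‖⁻¹) := by
    intro j _
    split_ifs
    · exact le_rfl
    · positivity
  refine Real.iSup_le (fun j => ?_) (Finset.sum_nonneg hnn)
  by_cases h : 0 < D.charge (sp j)
  · rw [if_pos h]
    by_cases hij : i = j
    · subst hij
      rw [sub_self, norm_zero, inv_zero]
      exact Finset.sum_nonneg hnn
    · have := Finset.single_le_sum hnn (Finset.mem_univ j)
      rw [if_neg hij] at this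
      exact this
  · rw [if_neg h]
    exact Finset.sum_nonneg hnn

theorem pinv_intg {S : Type} (D : Species S) (hD : D.Valid) {I : Type} [Fintype I]
    [DecidableEq I] (sp : I → S) (ℓ : ℝ) (Ψ : Wave D I) (hΨ : IsState D sp ℓ Ψ) (i : I)
    (τ : I → Fin D.g) : Integrable (fun x => pinv D sp i x * ‖Ψ τ x‖ ^ 2) := by
  have h1 := (int_state D sp ℓ Ψ hΨ τ).2.2.2.1
  have h2 : Integrable (fun x : I → E3 => (∑ j, (if i = j then 0 else ‖x i - x j‖⁻¹)) *
      ‖Ψ τ x‖ ^ 2) := by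
    simp only [Finset.sum_mul]
    refine integrable_finsetSum _ fun j _ => ?_
    by_cases hij : i = j
    · simp only [if_pos hij, zero_mul]
      exact integrable_zero _ _ _
    · simp only [if_neg hij]
      have h3 := (h1 i j hij).const_mul ((D.charge (sp i) * D.charge (sp j))⁻¹)
      refine h3.congr (Filter.Eventually.of_forall fun x => ?_)
      have h4 := hD.charge_ne (sp i)
      have h5 := hD.charge_ne (sp j)
      show (D.charge (sp i) * D.charge (sp j))⁻¹ * (D.charge (sp i) * D.charge (sp j) /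
        ‖x i - x j‖ * ‖Ψ τ x‖ ^ 2) = _
      field_simp
  refine h2.mono' ?_ (Filter.Eventually.of_forall fun x => ?_)
  · exact ((pinv_meas D sp i).mul
      (((hΨ.smooth τ).continuous.measurable.norm).pow_const 2)).aestronglyMeasurable
  · rw [Real.norm_of_nonneg (mul_nonneg (pinv_nonneg D sp i x) (by positivity))]
    exact mul_le_mul_of_nonneg_right (pinv_le D sp i x) (by positivity)

/-- the Pauli principle for the inverse distance to the positive charges, particle `none` -/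
theorem pinv_none {S : Type} [DecidableEq S] (D : Species S) (hD : D.Valid) {I : Type}
    [Fintype I] [DecidableEq I] (sp : Option I → S) (hneg : D.charge (sp none) < 0)
    (hferm : D.fermion (sp none) = true) (ℓ : ℝ) (hℓ : 1 ≤ ℓ) (a : ℝ) (ha : 1 ≤ a)
    (Ψ : Wave D (Option I)) (hΨ : IsState D sp ℓ Ψ) :
    (cnt sp (sp none) : ℝ) * ∑ τ, ∫ x, pinv D sp none x * ‖Ψ τ x‖ ^ 2 ≤
      ((cnt sp (sp none) : ℝ) + 576 * Real.pi * D.g * a ^ 3 *
        (npos D (fun j => sp (some j)) : ℝ)) * nrm2 D Ψ +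
      (64 / 3 / a ^ 2) * D.mass (sp none) * ((cnt sp (sp none) : ℝ) * kinE D sp none Ψ) := by
  classical
  have hℓ0 : 0 < ℓ := by linarith
  have ha0 : 0 < a := by linarith
  obtain ⟨N, hN⟩ : ∃ N : ℝ, N = (cnt sp (sp none) : ℝ) := ⟨_, rfl⟩
  obtain ⟨P, hP⟩ : ∃ P : ℝ, P = (npos D (fun j => sp (some j)) : ℝ) := ⟨_, rfl⟩
  have hN0 : 0 ≤ N := by rw [hN]; exact Nat.cast_nonneg _
  have hP0 : 0 ≤ P := by rw [hP]; exact Nat.cast_nonneg _
  have hΨ0 : 0 ≤ nrm2 D Ψ := by
    rw [nrm2]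
    exact Finset.sum_nonneg fun τ _ => integral_nonneg fun x => by positivity
  have hst := fun τ => int_state D sp ℓ Ψ hΨ τ
  have hn : ∀ τ, rbNice (Ψ τ) := fun τ => rb_nice_state D sp ℓ Ψ hΨ τ
  -- integrability of the near terms
  have hI1 : ∀ (s : ℝ) τ, Integrable (fun x : Option I → E3 =>
      nearP D sp ℓ s (x none) (fun j => x (some j)) * ‖Ψ τ x‖ ^ 2) := by
    intro s τ
    refine (nice_sqR _ (hn τ)).bdd_mul (c := 1) ?_ (Filter.Eventually.of_forall fun x => ?_)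
    · have : Measurable (fun x : Option I → E3 => ((fun j : I => x (some j)), x none)) :=
        (measurable_pi_lambda _ fun j => measurable_pi_apply (some j)).prodMk
          (measurable_pi_apply none)
      exact ((nearP_meas D sp ℓ s).comp this).aestronglyMeasurable
    · rw [Real.norm_of_nonneg (nearP_nn D sp ℓ s _ _)]
      exact nearP_le D sp ℓ s _ _
  -- the truncated bound
  have htr : ∀ M : ℕ, N * ∑ τ, ∫ x, min (pinv D sp none x) (4 ^ M) * ‖Ψ τ x‖ ^ 2 ≤
      (N + 576 * Real.pi * D.g * a ^ 3 * P) * nrm2 D Ψ +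
      (64 / 3 / a ^ 2) * D.mass (sp none) * (N * kinE D sp none Ψ) := by
    intro M
    have hpt : ∀ τ x, min (pinv D sp none x) (4 ^ M) * ‖Ψ τ x‖ ^ 2 ≤ ‖Ψ τ x‖ ^ 2 +
        ∑ k ∈ Finset.range M, (4 : ℝ) ^ (k + 1) *
        (nearP D sp ℓ (((4 : ℝ) ^ k)⁻¹) (x none) (fun j => x (some j)) * ‖Ψ τ x‖ ^ 2) := by
      intro τ x
      by_cases h0 : Ψ τ x = 0
      · rw [h0]; simp
      · have hx : x none ∈ cube ℓ := hΨ.support τ (subset_tsupport _ h0) none
        have h1 := layer4 (pinv D sp none x)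
          (fun k => nearP D sp ℓ (((4 : ℝ) ^ k)⁻¹) (x none) (fun j => x (some j)))
          (fun k => nearP_nn D sp ℓ _ _ _) (fun k hk => by
            have h2 : ∃ j, (4 : ℝ) ^ k < (if 0 < D.charge (sp j) then ‖x none - x j‖⁻¹ else 0) := by
              by_contra hcon
              simp only [not_exists, not_lt] at hcon
              have : pinv D sp none x ≤ (4 : ℝ) ^ k := Real.iSup_le hcon (by positivity)
              linarith
            obtain ⟨j, hj⟩ := h2
            by_cases hp : 0 < D.charge (sp j)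
            · rw [if_pos hp] at hj
              cases j with
              | none => linarith
              | some j =>
                have h3 : ‖x none - x (some j)‖ < ((4 : ℝ) ^ k)⁻¹ := by
                  have h4 : 0 < ‖x none - x (some j)‖⁻¹ := lt_trans (by positivity) hj
                  rw [← inv_inv ‖x none - x (some j)‖]
                  exact inv_strictAnti₀ (by positivity) hj
                unfold nearP
                rw [Set.indicator_of_mem]
                exact ⟨hx, j, hp, h3⟩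
            · rw [if_neg hp] at hj
              have : (0 : ℝ) < 4 ^ k := by positivity
              linarith) M
        have h2 := mul_le_mul_of_nonneg_right h1 (show 0 ≤ ‖Ψ τ x‖ ^ 2 by positivity)
        rw [add_mul, one_mul, Finset.sum_mul] at h2
        refine h2.trans (le_of_eq ?_)
        congr 1
        refine Finset.sum_congr rfl fun k _ => ?_
        ring
    have hint : ∀ τ, ∫ x, min (pinv D sp none x) (4 ^ M) * ‖Ψ τ x‖ ^ 2 ≤
        (∫ x, ‖Ψ τ x‖ ^ 2) + ∑ k ∈ Finset.range M, (4 : ℝ) ^ (k + 1) *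
        ∫ x, nearP D sp ℓ (((4 : ℝ) ^ k)⁻¹) (x none) (fun j => x (some j)) * ‖Ψ τ x‖ ^ 2 := by
      intro τ
      have e : (∫ x, ‖Ψ τ x‖ ^ 2) + ∑ k ∈ Finset.range M, (4 : ℝ) ^ (k + 1) *
          ∫ x, nearP D sp ℓ (((4 : ℝ) ^ k)⁻¹) (x none) (fun j => x (some j)) * ‖Ψ τ x‖ ^ 2 =
          ∫ x, (‖Ψ τ x‖ ^ 2 + ∑ k ∈ Finset.range M, (4 : ℝ) ^ (k + 1) *
          (nearP D sp ℓ (((4 : ℝ) ^ k)⁻¹) (x none) (fun j => x (some j)) * ‖Ψ τ x‖ ^ 2)) := by
        rw [integral_add (nice_sqR _ (hn τ))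
          (integrable_finsetSum _ fun k _ => (hI1 _ τ).const_mul _),
          integral_finsetSum _ fun k _ => (hI1 _ τ).const_mul _]
        congr 1
        refine Finset.sum_congr rfl fun k _ => ?_
        rw [integral_const_mul]
      rw [e]
      refine integral_mono_of_nonneg (Filter.Eventually.of_forall fun x => ?_)
        ((nice_sqR _ (hn τ)).add (integrable_finsetSum _ fun k _ => (hI1 _ τ).const_mul _))
        (Filter.Eventually.of_forall fun x => hpt τ x)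
      exact mul_nonneg (le_min (pinv_nonneg D sp none x) (by positivity)) (by positivity)
    have hs1 : ∑ τ, ∫ x, min (pinv D sp none x) (4 ^ M) * ‖Ψ τ x‖ ^ 2 ≤
        nrm2 D Ψ + ∑ k ∈ Finset.range M, (4 : ℝ) ^ (k + 1) *
        ∑ τ, ∫ x, nearP D sp ℓ (((4 : ℝ) ^ k)⁻¹) (x none) (fun j => x (some j)) *
          ‖Ψ τ x‖ ^ 2 := by
      refine (Finset.sum_le_sum fun τ _ => hint τ).trans (le_of_eq ?_)
      rw [Finset.sum_add_distrib]
      unfold nrm2
      congr 1
      rw [Finset.sum_comm]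
      refine Finset.sum_congr rfl fun k _ => ?_
      rw [Finset.mul_sum]
    have hs2 := mul_le_mul_of_nonneg_left hs1 hN0
    refine hs2.trans ?_
    rw [mul_add]
    have hk : ∀ k ∈ Finset.range M, N * ((4 : ℝ) ^ (k + 1) *
        ∑ τ, ∫ x, nearP D sp ℓ (((4 : ℝ) ^ k)⁻¹) (x none) (fun j => x (some j)) *
          ‖Ψ τ x‖ ^ 2) ≤ 288 * Real.pi * D.g * a ^ 3 * P * nrm2 D Ψ * (1 / 2) ^ k +
          8 * N * ((4 : ℝ) ^ k * (nrm2 D Ψ - ∑ m ∈ modes ⌊a * 2 ^ k * ℓ⌋₊, tm D ℓ Ψ m)) := by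
      intro k _
      have h1 := one_scale D sp hneg hferm ℓ hℓ0 (((4 : ℝ) ^ k)⁻¹) (by positivity)
        (modes ⌊a * 2 ^ k * ℓ⌋₊) Ψ hΨ
      rw [← hN, ← hP, modes_card] at h1
      have h2 := mul_le_mul_of_nonneg_left h1 (show (0 : ℝ) ≤ 4 ^ (k + 1) by positivity)
      have hc : (2 * (⌊a * 2 ^ k * ℓ⌋₊ : ℝ) + 1) ^ 3 / ℓ ^ 3 ≤ 27 * a ^ 3 * 8 ^ k := by
        rw [div_le_iff₀ (by positivity)]
        have h3 : (⌊a * 2 ^ k * ℓ⌋₊ : ℝ) ≤ a * 2 ^ k * ℓ := Nat.floor_le (by positivity)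
        have h4 : 1 ≤ a * 2 ^ k * ℓ := by
          have : (1 : ℝ) ≤ 2 ^ k := one_le_pow₀ (by norm_num)
          calc (1 : ℝ) = 1 * 1 * 1 := by norm_num
            _ ≤ a * 2 ^ k * ℓ := by gcongr
        have h5 : 2 * (⌊a * 2 ^ k * ℓ⌋₊ : ℝ) + 1 ≤ 3 * (a * 2 ^ k * ℓ) := by linarith
        calc (2 * (⌊a * 2 ^ k * ℓ⌋₊ : ℝ) + 1) ^ 3 ≤ (3 * (a * 2 ^ k * ℓ)) ^ 3 :=
              pow_le_pow_left₀ (by positivity) h5 3
          _ = 27 * a ^ 3 * (2 ^ k) ^ 3 * ℓ ^ 3 := by ring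
          _ = 27 * a ^ 3 * 8 ^ k * ℓ ^ 3 := by
              rw [← pow_mul, mul_comm k 3, pow_mul]
              norm_num
      have hpow : (4 : ℝ) ^ (k + 1) * (8 ^ k * (((4 : ℝ) ^ k)⁻¹) ^ 3) = 4 * (1 / 2) ^ k := by
        have e8 : (8 : ℝ) ^ k = 2 ^ k * 2 ^ k * 2 ^ k := by
          rw [← mul_pow, ← mul_pow]; norm_num
        have e4 : (4 : ℝ) ^ k = 2 ^ k * 2 ^ k := by
          rw [← mul_pow]; norm_num
        have e2 : (1 / 2 : ℝ) ^ k = (2 ^ k)⁻¹ := by rw [one_div, inv_pow]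
        rw [pow_succ, e8, e4, e2]
        have : (2 : ℝ) ^ k ≠ 0 := by positivity
        field_simp
      calc N * ((4 : ℝ) ^ (k + 1) *
          ∑ τ, ∫ x, nearP D sp ℓ (((4 : ℝ) ^ k)⁻¹) (x none) (fun j => x (some j)) *
          ‖Ψ τ x‖ ^ 2) = (4 : ℝ) ^ (k + 1) * (N *
          ∑ τ, ∫ x, nearP D sp ℓ (((4 : ℝ) ^ k)⁻¹) (x none) (fun j => x (some j)) *
          ‖Ψ τ x‖ ^ 2) := by ring
        _ ≤ _ := h2
        _ ≤ (4 : ℝ) ^ (k + 1) * (2 * (D.g * ((27 * a ^ 3 * 8 ^ k) * (P * (4 / 3 * Real.pi *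
              ((4 ^ k)⁻¹) ^ 3) * nrm2 D Ψ))) + 2 * N * (nrm2 D Ψ -
              ∑ m ∈ modes ⌊a * 2 ^ k * ℓ⌋₊, tm D ℓ Ψ m)) := by
            refine mul_le_mul_of_nonneg_left (add_le_add ?_ le_rfl) (by positivity)
            refine mul_le_mul_of_nonneg_left ?_ (by norm_num)
            refine mul_le_mul_of_nonneg_left ?_ (Nat.cast_nonneg _)
            refine mul_le_mul_of_nonneg_right hc (by positivity)
        _ = 72 * Real.pi * D.g * a ^ 3 * P * nrm2 D Ψ *
              ((4 : ℝ) ^ (k + 1) * (8 ^ k * ((4 ^ k)⁻¹) ^ 3)) +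
              8 * N * ((4 : ℝ) ^ k * (nrm2 D Ψ -
                ∑ m ∈ modes ⌊a * 2 ^ k * ℓ⌋₊, tm D ℓ Ψ m)) := by
            rw [pow_succ]
            ring
        _ = _ := by rw [hpow]; ring
    have hs3 := Finset.sum_le_sum hk
    rw [Finset.sum_add_distrib, ← Finset.mul_sum, ← Finset.mul_sum, ← Finset.mul_sum] at hs3
    have ht := tails D hD sp ℓ hℓ0 a ha0 Ψ hΨ M
    have hg : ∑ k ∈ Finset.range M, (1 / 2 : ℝ) ^ k ≤ 2 := sum_geometric_two_le M
    have hs4 : 288 * Real.pi * D.g * a ^ 3 * P * nrm2 D Ψ * ∑ k ∈ Finset.range M,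
        (1 / 2 : ℝ) ^ k ≤ 288 * Real.pi * D.g * a ^ 3 * P * nrm2 D Ψ * 2 :=
      mul_le_mul_of_nonneg_left hg (by positivity)
    have hs5 := mul_le_mul_of_nonneg_left ht (show 0 ≤ 8 * N by positivity)
    have e9 : 8 * N * (4 / 3 * (2 * D.mass (sp none) * kinE D sp none Ψ) / a ^ 2) =
        (64 / 3 / a ^ 2) * D.mass (sp none) * (N * kinE D sp none Ψ) := by ring
    rw [e9] at hs5
    linarith
  -- the limit
  rw [← hN, ← hP]
  have hlim : Filter.Tendsto (fun M : ℕ => N * ∑ τ, ∫ x, min (pinv D sp none x) (4 ^ M) *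
      ‖Ψ τ x‖ ^ 2) Filter.atTop (𝓝 (N * ∑ τ, ∫ x, pinv D sp none x * ‖Ψ τ x‖ ^ 2)) := by
    refine Filter.Tendsto.const_mul _ (tendsto_finsetSum _ fun τ _ => ?_)
    refine tendsto_integral_of_dominated_convergence
      (fun x => pinv D sp none x * ‖Ψ τ x‖ ^ 2) (fun M => ?_)
      (pinv_intg D hD sp ℓ Ψ hΨ none τ) (fun M => Filter.Eventually.of_forall fun x => ?_)
      (Filter.Eventually.of_forall fun x => ?_)
    · exact (((pinv_meas D sp none).min measurable_const).mul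
        (((hΨ.smooth τ).continuous.measurable.norm).pow_const 2)).aestronglyMeasurable
    · rw [Real.norm_of_nonneg (mul_nonneg (le_min (pinv_nonneg D sp none x) (by positivity))
        (by positivity))]
      exact mul_le_mul_of_nonneg_right (min_le_left _ _) (by positivity)
    · refine Filter.Tendsto.mul_const _ ?_
      have h1 : Filter.Tendsto (fun M : ℕ => (4 : ℝ) ^ M) Filter.atTop Filter.atTop :=
        tendsto_pow_atTop_atTop_of_one_lt (by norm_num)
      refine tendsto_const_nhds.congr' ?_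
      filter_upwards [h1.eventually_ge_atTop (pinv D sp none x)] with M hM
      exact (min_eq_left hM).symm
  exact le_of_tendsto hlim (Filter.Eventually.of_forall htr)

end Pool.Agent.Helper780_CP
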