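import Pool.Agent.Helper780_CP.Multi
import Pool.Agent.Helper985.CP.M_move_any
import Pool.Agent.Helper985.CP.M_remove_none
import Pool.Agent.Helper985.CP.M_stable_any
import Pool.Agent.Helper985.CT.M_sum_pe_half
import Pool.Agent.Helper985.CT.M_pe_symm

set_option autoImplicit false

open MeasureTheory
open scoped Topology

namespace Pool.Agent.Helper780_CP

open Pool.Agent.Helper985.CP

theorem int4 {X : Type*} [MeasurableSpace X] {μ : Measure X} {f1 f2 f3 f4 : X → ℝ}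
    (h1 : Integrable f1 μ) (h2 : Integrable f2 μ) (h3 : Integrable f3 μ)
    (h4 : Integrable f4 μ) : ∫ x, (f1 x - f2 x + f3 x + f4 x) ∂μ =
      ∫ x, f1 x ∂μ - ∫ x, f2 x ∂μ + ∫ x, f3 x ∂μ + ∫ x, f4 x ∂μ := by
  have a1 := integral_sub h1 h2
  have a2 := integral_add (h1.sub h2) h3
  have a3 := integral_add ((h1.sub h2).add h3) h4
  simp only [Pi.sub_apply, Pi.add_apply] at a1 a2 a3
  rw [a3, a2, a1]

section

variable {S : Type} (D : Species S) {I : Type} [Fintype I] [DecidableEq I] (sp : I → S)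

/-- the mean potential at `y` -/
noncomputable def phim (Ψ : Wave D I) (y : E3) : ℝ := mean D sp Ψ (fun x => 1 / ‖x - y‖)

/-- kinetic weights of the functional used for moving particle `i` -/
def wa (t : ℝ) (i : I) : I → ℝ := fun j => if j = i then t else 1

/-- potential weight of the functional used for moving particle `i` -/
noncomputable def wW (i : I) (y : E3) (x : I → E3) : ℝ :=
  (coul D sp x + (-1) * (∑ j, if i = j then 0 else D.charge (sp i) * D.charge (sp j) / ‖x i - x j‖))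
    + D.charge (sp i) * ∑ j, D.charge (sp j) * (1 / ‖x j - y‖)

theorem WI_wW (ℓ : ℝ) (i : I) (y : E3) : WI D sp ℓ (wW D sp i y) :=
  WI_add D sp ℓ (WI_add D sp ℓ (WI_coul D sp ℓ) (WI_smul D sp ℓ (WI_pair D sp ℓ i) _))
    (WI_smul D sp ℓ (WI_phi D sp ℓ y) _)

theorem qf_wa (ℓ : ℝ) (t : ℝ) (i : I) (y : E3) (Ψ : Wave D I) (hΨ : IsState D sp ℓ Ψ) :
    qf D sp (wa t i) (wW D sp i y) Ψ =
      energy D sp Ψ - pe D sp i Ψ + t * kinE D sp i Ψ + D.charge (sp i) * phim D sp Ψ y := by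
  unfold qf energy pe kinE phim mean
  rw [Finset.mul_sum, Finset.mul_sum, ← Finset.sum_sub_distrib, ← Finset.sum_add_distrib,
    ← Finset.sum_add_distrib]
  refine Finset.sum_congr rfl fun τ _ => ?_
  obtain ⟨h1, h2, h3, -, -⟩ := int_state D sp ℓ Ψ hΨ τ
  have h4 := WI_pair D sp ℓ i Ψ hΨ τ
  have h5 := WI_phi D sp ℓ y Ψ hΨ τ
  have i1 : Integrable (fun x => (∑ i, kin D sp i (Ψ τ) x) + coul D sp x * ‖Ψ τ x‖ ^ 2) :=
    (integrable_finsetSum _ fun j _ => h2 j).add h3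
  have i2 : Integrable (fun x => kin D sp i (Ψ τ) x + (∑ j, if i = j then 0 else
      D.charge (sp i) * D.charge (sp j) / ‖x i - x j‖) * ‖Ψ τ x‖ ^ 2) := (h2 i).add h4
  have i3 : Integrable (fun x => t * kin D sp i (Ψ τ) x) := (h2 i).const_mul t
  have i4 : Integrable (fun x => D.charge (sp i) *
      ((∑ j, D.charge (sp j) * (1 / ‖x j - y‖)) * ‖Ψ τ x‖ ^ 2)) := h5.const_mul _
  rw [← integral_const_mul, ← integral_const_mul]
  refine Eq.trans ?_ (int4 i1 i2 i3 i4)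
  refine integral_congr_ae (Filter.Eventually.of_forall fun x => ?_)
  simp only
  have e1 : ∑ j, wa t i j * kin D sp j (Ψ τ) x =
      (∑ j, kin D sp j (Ψ τ) x) - kin D sp i (Ψ τ) x + t * kin D sp i (Ψ τ) x := by
    unfold wa
    rw [← Finset.add_sum_erase _ _ (Finset.mem_univ i),
      ← Finset.add_sum_erase _ (fun j => kin D sp j (Ψ τ) x) (Finset.mem_univ i)]
    rw [if_pos rfl]
    have : ∑ j ∈ Finset.univ.erase i, (if j = i then t else 1) * kin D sp j (Ψ τ) x =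
        ∑ j ∈ Finset.univ.erase i, kin D sp j (Ψ τ) x := by
      refine Finset.sum_congr rfl fun j hj => ?_
      rw [if_neg (Finset.ne_of_mem_erase hj), one_mul]
    rw [this]
    ring
  rw [e1]
  unfold wW
  ring

/-- the energy of the other particles is bounded below -/
theorem rest_lower (ℓ : ℝ) (A : ℝ)
    (hA : ∀ {J : Type} [Fintype J] [DecidableEq J] (sp' : J → S) (Ψ : Wave D J),
      IsState D sp' ℓ Ψ → -A * (Fintype.card J : ℝ) * nrm2 D Ψ ≤ energy D sp' Ψ)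
    (i : I) (Ψ : Wave D I) (hΨ : IsState D sp ℓ Ψ) :
    -(A * ((Fintype.card I : ℝ) - 1)) * nrm2 D Ψ ≤ energy D sp Ψ - pe D sp i Ψ := by
  classical
  let e : I ≃ Option {j // j ≠ i} := (Equiv.optionSubtypeNe i).symm
  have hei : e i = none := by
    simp [e]
  let sp' : Option {j // j ≠ i} → S := fun o => sp (e.symm o)
  have h : ∀ j, sp' (e j) = sp j := fun j => by simp [sp']
  obtain ⟨r1, r2, r3, r4⟩ := relabel_num D e sp sp' h Ψ
  have hst := relabel_state D e sp sp' h ℓ Ψ hΨ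
  have hcard : (Fintype.card I : ℝ) = (Fintype.card {j // j ≠ i} : ℝ) + 1 := by
    have h1 : Fintype.card I = Fintype.card (Option {j // j ≠ i}) := Fintype.card_congr e
    rw [h1, Fintype.card_option]
    push_cast
    ring
  have key := remove_none_aux D sp' ℓ (-A * (Fintype.card {j // j ≠ i} : ℝ))
    (fun Φ hΦ => hA _ Φ hΦ) (relab D e Ψ) hst
  have r3' := r3 i
  rw [hei] at r3'
  rw [r1, r2, r3'] at key
  rw [hcard]
  linarith [key]

end

theorem nrm2_nn {S : Type} (D : Species S) {I : Type} [Fintype I] [DecidableEq I]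
    (Ψ : Wave D I) : 0 ≤ nrm2 D Ψ := by
  unfold nrm2
  exact Finset.sum_nonneg fun τ _ => integral_nonneg fun x => sq_nonneg _

/-- Moving a particle to the point `y`, ground states. -/
theorem move0 {S : Type} [Fintype S] (D : Species S) (hD : D.Valid) (δ : ℝ) (hδ : 0 < δ) :
    ∃ C : ℝ, 0 < C ∧ ∀ {I : Type} [Fintype I] [DecidableEq I] (sp : I → S) (ℓ : ℝ) (y : E3),
      Metric.closedBall y δ ⊆ cube ℓ → ∀ E B : ℝ,
      (∀ Φ, IsState D sp ℓ Φ → E * nrm2 D Φ ≤ energy D sp Φ) → ∀ i : I,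
      (∀ Φ, IsState D sp ℓ Φ → B * nrm2 D Φ ≤ energy D sp Φ - pe D sp i Φ) →
      ∀ Ψ, IsState D sp ℓ Ψ →
        pe D sp i Ψ ≤ D.charge (sp i) * phim D sp Ψ y + (energy D sp Ψ - E * nrm2 D Ψ) +
          C * (nrm2 D Ψ + wm D (near2 y) Ψ) := by
  obtain ⟨C, hC, H⟩ := multi D hD δ hδ
  refine ⟨2 * C, by positivity, ?_⟩
  intro I _ _ sp ℓ y hy E B hE i hB Ψ hΨ
  obtain ⟨g, h, φ, ⟨g1, g2, g3⟩, ⟨h1, h2, h3⟩, hφ, hvan, hpot, hqf, hwm, hcost, hlim⟩ := H sp ℓ y hy
  have hwn0 : 0 ≤ wm D (near2 y) Ψ := by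
    unfold wm
    exact Finset.sum_nonneg fun τ _ => integral_nonneg fun x =>
      mul_nonneg (near2_nonneg y x) (sq_nonneg _)
  -- one scale
  have hone : ∀ k, 0 ≤ qf D sp (wa 0 i) (wW D sp i y) (mulW D (g k) Ψ) -
      E * nrm2 D (mulW D (g k) Ψ) + ((1 / (2 * D.mass (sp i))) * grad2 (φ k) + ((k : ℝ) + 1)) *
        nrm2 D (mulW D (g k) Ψ) := by
    intro k
    have hst := mulW_state D sp ℓ Ψ hΨ (g k) (g1 k) (g2 k)
    obtain ⟨p1, p2, p3, p4⟩ := hφ k
    have hm := move_any D hD sp ℓ E hE (φ k) p1 p2 p3 p4 (mulW D (g k) Ψ) hst (by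
      intro τ x j hj
      unfold mulW
      rw [hvan k x j hj]
      simp) i
    have e1 : mean D sp (mulW D (g k) Ψ) (pot (φ k)) = phim D sp (mulW D (g k) Ψ) y := by
      unfold phim mean
      refine Finset.sum_congr rfl fun τ _ => ?_
      refine integral_congr_ae (Filter.Eventually.of_forall fun x => ?_)
      simp only
      by_cases hx : g k x = 0
      · unfold mulW
        rw [hx]
        simp
      · congr 1
        refine Finset.sum_congr rfl fun j _ => ?_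
        rw [hpot k x hx j]
    rw [e1] at hm
    rw [qf_wa D sp ℓ 0 i y _ hst]
    have hn := nrm2_nn D (mulW D (g k) Ψ)
    have hk : 0 ≤ ((k : ℝ) + 1) * nrm2 D (mulW D (g k) Ψ) := by positivity
    linarith
  have hsum : ∀ K, 0 ≤ qf D sp (wa 0 i) (wW D sp i y) Ψ + C * wm D (near2 y) Ψ -
      qf D sp (wa 0 i) (wW D sp i y) (mulW D (h K) Ψ) -
      E * (nrm2 D Ψ - nrm2 D (mulW D (h K) Ψ)) + C * (nrm2 D Ψ + wm D (near2 y) Ψ) := by
    intro K
    have s0 : 0 ≤ ∑ k ∈ Finset.range K, (qf D sp (wa 0 i) (wW D sp i y) (mulW D (g k) Ψ) -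
      E * nrm2 D (mulW D (g k) Ψ) + ((1 / (2 * D.mass (sp i))) * grad2 (φ k) + ((k : ℝ) + 1)) *
        nrm2 D (mulW D (g k) Ψ)) := Finset.sum_nonneg fun k _ => hone k
    rw [Finset.sum_add_distrib, Finset.sum_sub_distrib, ← Finset.mul_sum] at s0
    have s1 := hqf (wa 0 i) (fun j => by unfold wa; split_ifs <;> norm_num) (wW D sp i y)
      (WI_wW D sp ℓ i y) Ψ hΨ K
    have s2 := hwm (fun _ => 1) (WI_const D sp ℓ 1) Ψ hΨ K
    have s3 := hcost Ψ hΨ K (sp i)
    simp only [wm_one] at s2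
    have s4 : ∑ k ∈ Finset.range K, nrm2 D (mulW D (g k) Ψ) =
        nrm2 D Ψ - nrm2 D (mulW D (h K) Ψ) := by linarith
    rw [s4] at s0
    linarith
  have hlow : ∀ K, B * nrm2 D (mulW D (h K) Ψ) + D.charge (sp i) *
      phim D sp (mulW D (h K) Ψ) y ≤ qf D sp (wa 0 i) (wW D sp i y) (mulW D (h K) Ψ) := by
    intro K
    have hst := mulW_state D sp ℓ Ψ hΨ (h K) (h1 K) (h2 K)
    rw [qf_wa D sp ℓ 0 i y _ hst]
    have := hB _ hst
    linarith
  have t1 : Filter.Tendsto (fun K => nrm2 D (mulW D (h K) Ψ)) Filter.atTop (𝓝 0) := by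
    have := hlim (fun _ => 1) (WI_const D sp ℓ 1) Ψ hΨ
    simpa only [wm_one] using this
  have t2 : Filter.Tendsto (fun K => phim D sp (mulW D (h K) Ψ) y) Filter.atTop (𝓝 0) :=
    hlim _ (WI_phi D sp ℓ y) Ψ hΨ
  have hfin : ∀ K, 0 ≤ (qf D sp (wa 0 i) (wW D sp i y) Ψ - E * nrm2 D Ψ +
      C * wm D (near2 y) Ψ + C * (nrm2 D Ψ + wm D (near2 y) Ψ)) +
      ((E - B) * nrm2 D (mulW D (h K) Ψ) - D.charge (sp i) *
        phim D sp (mulW D (h K) Ψ) y) := by
    intro K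
    have := hsum K
    have := hlow K
    linarith
  have t3 : Filter.Tendsto (fun K => (qf D sp (wa 0 i) (wW D sp i y) Ψ - E * nrm2 D Ψ +
      C * wm D (near2 y) Ψ + C * (nrm2 D Ψ + wm D (near2 y) Ψ)) +
      ((E - B) * nrm2 D (mulW D (h K) Ψ) - D.charge (sp i) *
        phim D sp (mulW D (h K) Ψ) y)) Filter.atTop
      (𝓝 ((qf D sp (wa 0 i) (wW D sp i y) Ψ - E * nrm2 D Ψ +
      C * wm D (near2 y) Ψ + C * (nrm2 D Ψ + wm D (near2 y) Ψ)) +
      ((E - B) * 0 - D.charge (sp i) * 0))) :=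
    ((t1.const_mul (E - B)).sub (t2.const_mul _)).const_add _
  have hfinal := ge_of_tendsto' t3 hfin
  rw [qf_wa D sp ℓ 0 i y Ψ hΨ] at hfinal
  have hn := nrm2_nn D Ψ
  nlinarith

end Pool.Agent.Helper780_CP
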