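import Pool.Agent.Helper780_CP.MultiC
import Pool.Agent.Helper780_CP.Move0

set_option autoImplicit false

open MeasureTheory
open scoped Topology

namespace Pool.Agent.Helper780_CP

open Pool.Agent.Helper985.CP

/-- Moving a particle to the point `y`, ground states. -/
theorem move0C {S : Type} [Fintype S] (D : Species S) (hD : D.Valid) :
    ∃ C : ℝ, 0 < C ∧ ∀ (δ : ℝ), 0 < δ → δ ≤ 1 → ∀ {I : Type} [Fintype I] [DecidableEq I] (sp : I → S) (ℓ : ℝ) (y : E3),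
      Metric.closedBall y δ ⊆ cube ℓ → ∀ E B : ℝ,
      (∀ Φ, IsState D sp ℓ Φ → E * nrm2 D Φ ≤ energy D sp Φ) → ∀ i : I,
      (∀ Φ, IsState D sp ℓ Φ → B * nrm2 D Φ ≤ energy D sp Φ - pe D sp i Φ) →
      ∀ Ψ, IsState D sp ℓ Ψ →
        pe D sp i Ψ ≤ D.charge (sp i) * phim D sp Ψ y + (energy D sp Ψ - E * nrm2 D Ψ) +
          C / δ ^ 2 * (nrm2 D Ψ + wm D (near2 y) Ψ) := by
  obtain ⟨C', hC', H'⟩ := multiC D hD
  refine ⟨2 * C', by positivity, ?_⟩
  intro δ hδ hδ1 I _ _ sp ℓ y hy E B hE i hB Ψ hΨ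
  obtain ⟨C, hCe⟩ : ∃ C, C = C' / δ ^ 2 := ⟨_, rfl⟩
  have hC : 0 < C := by rw [hCe]; positivity
  have H := H' δ hδ hδ1 (I := I)
  rw [← hCe] at H
  rw [mul_div_assoc, ← hCe]
  obtain ⟨g, h, φ, ⟨g1, g2, g3⟩, ⟨h1, h2, h3⟩, hφ, hvan, hpot, hqf, hwm, hcost, hlim⟩ := H sp ℓ y hy
  have hwn0 : 0 ≤ wm D (near2 y) Ψ := by
    unfold wm
    exact Finset.sum_nonneg fun τ _ => integral_nonneg fun x =>
      mul_nonneg (near2_nonneg y x) (sq_nonneg _)
  -- one scale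
  have hone : ∀ k, 0 ≤ qf D sp (wa 0 i) (wW D sp i y) (mulW D (g k) Ψ) -
      E * nrm2 D (mulW D (g k) Ψ) + ((1 / (2 * D.mass (sp i))) * grad2 (φ k) + ((k : ℝ) + 1)) *
        nrm2 D (mulW D (g k) Ψ) := by
    intro k
    have hst := mulW_state D sp ℓ Ψ hΨ (g k) (g1 k) (g2 k)
    obtain ⟨p1, p2, p3, p4⟩ := hφ k
    have hm := move_any D hD sp ℓ E hE (φ k) p1 p2 p3 p4 (mulW D (g k) Ψ) hst (by
      intro τ x j hj
      unfold mulW
      rw [hvan k x j hj]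
      simp) i
    have e1 : mean D sp (mulW D (g k) Ψ) (pot (φ k)) = phim D sp (mulW D (g k) Ψ) y := by
      unfold phim mean
      refine Finset.sum_congr rfl fun τ _ => ?_
      refine integral_congr_ae (Filter.Eventually.of_forall fun x => ?_)
      simp only
      by_cases hx : g k x = 0
      · unfold mulW
        rw [hx]
        simp
      · congr 1
        refine Finset.sum_congr rfl fun j _ => ?_
        rw [hpot k x hx j]
    rw [e1] at hm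
    rw [qf_wa D sp ℓ 0 i y _ hst]
    have hn := nrm2_nn D (mulW D (g k) Ψ)
    have hk : 0 ≤ ((k : ℝ) + 1) * nrm2 D (mulW D (g k) Ψ) := by positivity
    linarith
  have hsum : ∀ K, 0 ≤ qf D sp (wa 0 i) (wW D sp i y) Ψ + C * wm D (near2 y) Ψ -
      qf D sp (wa 0 i) (wW D sp i y) (mulW D (h K) Ψ) -
      E * (nrm2 D Ψ - nrm2 D (mulW D (h K) Ψ)) + C * (nrm2 D Ψ + wm D (near2 y) Ψ) := by
    intro K
    have s0 : 0 ≤ ∑ k ∈ Finset.range K, (qf D sp (wa 0 i) (wW D sp i y) (mulW D (g k) Ψ) -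
      E * nrm2 D (mulW D (g k) Ψ) + ((1 / (2 * D.mass (sp i))) * grad2 (φ k) + ((k : ℝ) + 1)) *
        nrm2 D (mulW D (g k) Ψ)) := Finset.sum_nonneg fun k _ => hone k
    rw [Finset.sum_add_distrib, Finset.sum_sub_distrib, ← Finset.mul_sum] at s0
    have s1 := hqf (wa 0 i) (fun j => by unfold wa; split_ifs <;> norm_num) (wW D sp i y)
      (WI_wW D sp ℓ i y) Ψ hΨ K
    have s2 := hwm (fun _ => 1) (WI_const D sp ℓ 1) Ψ hΨ K
    have s3 := hcost Ψ hΨ K (sp i)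
    simp only [wm_one] at s2
    have s4 : ∑ k ∈ Finset.range K, nrm2 D (mulW D (g k) Ψ) =
        nrm2 D Ψ - nrm2 D (mulW D (h K) Ψ) := by linarith
    rw [s4] at s0
    linarith
  have hlow : ∀ K, B * nrm2 D (mulW D (h K) Ψ) + D.charge (sp i) *
      phim D sp (mulW D (h K) Ψ) y ≤ qf D sp (wa 0 i) (wW D sp i y) (mulW D (h K) Ψ) := by
    intro K
    have hst := mulW_state D sp ℓ Ψ hΨ (h K) (h1 K) (h2 K)
    rw [qf_wa D sp ℓ 0 i y _ hst]
    have := hB _ hst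
    linarith
  have t1 : Filter.Tendsto (fun K => nrm2 D (mulW D (h K) Ψ)) Filter.atTop (𝓝 0) := by
    have := hlim (fun _ => 1) (WI_const D sp ℓ 1) Ψ hΨ
    simpa only [wm_one] using this
  have t2 : Filter.Tendsto (fun K => phim D sp (mulW D (h K) Ψ) y) Filter.atTop (𝓝 0) :=
    hlim _ (WI_phi D sp ℓ y) Ψ hΨ
  have hfin : ∀ K, 0 ≤ (qf D sp (wa 0 i) (wW D sp i y) Ψ - E * nrm2 D Ψ +
      C * wm D (near2 y) Ψ + C * (nrm2 D Ψ + wm D (near2 y) Ψ)) +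
      ((E - B) * nrm2 D (mulW D (h K) Ψ) - D.charge (sp i) *
        phim D sp (mulW D (h K) Ψ) y) := by
    intro K
    have := hsum K
    have := hlow K
    linarith
  have t3 : Filter.Tendsto (fun K => (qf D sp (wa 0 i) (wW D sp i y) Ψ - E * nrm2 D Ψ +
      C * wm D (near2 y) Ψ + C * (nrm2 D Ψ + wm D (near2 y) Ψ)) +
      ((E - B) * nrm2 D (mulW D (h K) Ψ) - D.charge (sp i) *
        phim D sp (mulW D (h K) Ψ) y)) Filter.atTop
      (𝓝 ((qf D sp (wa 0 i) (wW D sp i y) Ψ - E * nrm2 D Ψ +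
      C * wm D (near2 y) Ψ + C * (nrm2 D Ψ + wm D (near2 y) Ψ)) +
      ((E - B) * 0 - D.charge (sp i) * 0))) :=
    ((t1.const_mul (E - B)).sub (t2.const_mul _)).const_add _
  have hfinal := ge_of_tendsto' t3 hfin
  rw [qf_wa D sp ℓ 0 i y Ψ hΨ] at hfinal
  have hn := nrm2_nn D Ψ
  nlinarith

end Pool.Agent.Helper780_CP
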