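import Pool.Agent.Helper780_CP.Multi

set_option autoImplicit false

open MeasureTheory
open scoped Topology

namespace Pool.Agent.Helper780_CP

open Pool.Agent.Helper985.CP

/-- The multi-scale partition around a point `y`: in each piece a bump around `y` can be inserted
at which the potential is the Coulomb potential at `y`. -/
theorem multiC {S : Type} [Fintype S] (D : Species S) (hD : D.Valid) :
    ∃ C : ℝ, 0 < C ∧ ∀ (δ : ℝ), 0 < δ → δ ≤ 1 → ∀ {I : Type} [Fintype I] [DecidableEq I] (sp : I → S) (ℓ : ℝ) (y : E3),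
      Metric.closedBall y δ ⊆ cube ℓ →
      ∃ (g h : ℕ → (I → E3) → ℝ) (φ : ℕ → E3 → ℝ),
        ((∀ k, ContDiff ℝ SM (g k)) ∧
          (∀ k i j x, g k (fun l => x (Equiv.swap i j l)) = g k x) ∧ (∀ k x, g k x ^ 2 ≤ 1)) ∧
        ((∀ k, ContDiff ℝ SM (h k)) ∧
          (∀ k i j x, h k (fun l => x (Equiv.swap i j l)) = h k x) ∧ (∀ k x, h k x ^ 2 ≤ 1)) ∧
        (∀ k, ContDiff ℝ SM (φ k) ∧ HasCompactSupport (φ k) ∧ tsupport (φ k) ⊆ cube ℓ ∧
          ∫ z, φ k z ^ 2 = 1) ∧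
        (∀ k x i, x i ∈ tsupport (φ k) → g k x = 0) ∧
        (∀ k x, g k x ≠ 0 → ∀ i, pot (φ k) (x i) = 1 / ‖x i - y‖) ∧
        (∀ (a : I → ℝ), (∀ i, 0 ≤ a i ∧ a i ≤ 1) → ∀ W : (I → E3) → ℝ, WI D sp ℓ W →
          ∀ Ψ : Wave D I, IsState D sp ℓ Ψ → ∀ K : ℕ,
          ∑ k ∈ Finset.range K, qf D sp a W (mulW D (g k) Ψ) + qf D sp a W (mulW D (h K) Ψ) ≤
            qf D sp a W Ψ + C / δ ^ 2 * wm D (near2 y) Ψ) ∧
        (∀ W : (I → E3) → ℝ, WI D sp ℓ W → ∀ Ψ : Wave D I, IsState D sp ℓ Ψ → ∀ K : ℕ,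
          ∑ k ∈ Finset.range K, wm D W (mulW D (g k) Ψ) + wm D W (mulW D (h K) Ψ) =
            wm D W Ψ) ∧
        (∀ Ψ : Wave D I, IsState D sp ℓ Ψ → ∀ K : ℕ, ∀ s,
          ∑ k ∈ Finset.range K, ((1 / (2 * D.mass s)) * grad2 (φ k) + ((k : ℝ) + 1)) *
            nrm2 D (mulW D (g k) Ψ) ≤ C / δ ^ 2 * (nrm2 D Ψ + wm D (near2 y) Ψ)) ∧
        (∀ W : (I → E3) → ℝ, WI D sp ℓ W → ∀ Ψ : Wave D I, IsState D sp ℓ Ψ →
          Filter.Tendsto (fun K => wm D W (mulW D (h K) Ψ)) Filter.atTop (𝓝 0)) := by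
  obtain ⟨C1, hC1, H1⟩ := exists_scales
  obtain ⟨T, hT, H2⟩ := exists_rbump
  obtain ⟨Cm, hCm⟩ : ∃ Cm, Cm = ∑ s, 1 / (2 * D.mass s) := ⟨_, rfl⟩
  have hCm1 : ∀ s, 1 / (2 * D.mass s) ≤ Cm := by
    intro s
    rw [hCm]
    exact Finset.single_le_sum (f := fun s => 1 / (2 * D.mass s))
      (fun t _ => by have := hD.mass_pos t; positivity) (Finset.mem_univ s)
  have hm0 : ∀ s, 0 ≤ 1 / (2 * D.mass s) := fun s => by have := hD.mass_pos s; positivity
  have hCm0 : 0 ≤ Cm := by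
    rw [hCm]; exact Finset.sum_nonneg fun s _ => hm0 s
  refine ⟨16 / 3 * (Cm * C1) + (Cm * T + 1) * 17 + 1, by positivity, ?_⟩
  intro δ hδ hδ1 I _ _ sp ℓ y hy
  have hA : 16 / 3 * (Cm * C1) + (Cm * T / δ ^ 2 + 1) * (1 + 16 * δ ^ 2) + 1 ≤
      (16 / 3 * (Cm * C1) + (Cm * T + 1) * 17 + 1) / δ ^ 2 := by
    have hd2 : δ ^ 2 ≤ 1 := by nlinarith
    have hd0 : 0 < δ ^ 2 := by positivity
    have hct : 0 ≤ Cm * T := by positivity
    have hcc : 0 ≤ Cm * C1 := by positivity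
    rw [le_div_iff₀ hd0]
    have e : (16 / 3 * (Cm * C1) + (Cm * T / δ ^ 2 + 1) * (1 + 16 * δ ^ 2) + 1) * δ ^ 2 =
        16 / 3 * (Cm * C1) * δ ^ 2 + (Cm * T + δ ^ 2) * (1 + 16 * δ ^ 2) + δ ^ 2 := by
      field_simp
    rw [e]
    have e2 : (Cm * T + δ ^ 2) * (1 + 16 * δ ^ 2) ≤ (Cm * T + 1) * 17 :=
      mul_le_mul (by linarith) (by linarith) (by positivity) (by positivity)
    nlinarith
  obtain ⟨θ, t1, t2, t3, t4, t5, t6⟩ := H1 δ hδ (I := I) y
  have hr : ∀ k : ℕ, 0 < δ / 2 ^ k := fun k => by positivity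
  choose φ p1 p2 p3 p4 p5 p6 using fun k : ℕ => H2 (δ / 2 ^ k) (hr k) y
  have hsub : ∀ k, tsupport (φ k) ⊆ Metric.closedBall y (δ / 2 ^ k) := p3
  have hball : ∀ k : ℕ, Metric.closedBall y (δ / 2 ^ k) ⊆ Metric.closedBall y δ := by
    intro k
    apply Metric.closedBall_subset_closedBall
    exact div_le_self hδ.le (one_le_pow₀ (by norm_num))
  have hg0 : ∀ k x i, x i ∈ Metric.closedBall y (δ / 2 ^ k) → gS θ k x = 0 := by
    intro k x i hi
    unfold gS
    rw [t3 k x i hi, Real.cos_pi_div_two, zero_mul]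
  have hgc : ∀ k, Continuous (gS θ k) := fun k => (gS_smooth θ t1 k).continuous
  have hhc : ∀ k, Continuous (hS θ k) := fun k => (hS_smooth θ t1 k).continuous
  refine ⟨gS θ, hS θ, φ, ⟨gS_smooth θ t1, gS_symm θ t2, gS_sq_le θ⟩,
    ⟨hS_smooth θ t1, hS_symm θ t2, hS_sq_le θ⟩,
    fun k => ⟨p1 k, p2 k, ((hsub k).trans (hball k)).trans hy, p4 k⟩,
    fun k x i hi => hg0 k x i (hsub k hi), ?_, ?_, ?_, ?_, ?_⟩
  · intro k x hx i
    apply p6
    by_contra hlt
    push Not at hlt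
    apply hx
    apply hg0 k x i
    rw [Metric.mem_closedBall, dist_eq_norm]
    exact hlt.le
  · intro a ha W hW Ψ hΨ K
    rw [ms_qf D sp ℓ a hW Ψ hΨ θ t1 t2 K]
    have hN := WI_near2 D sp ℓ y
    have hwn0 : 0 ≤ wm D (near2 y) Ψ := by
      unfold wm
      exact Finset.sum_nonneg fun τ _ => integral_nonneg fun x =>
        mul_nonneg (near2_nonneg y x) (sq_nonneg _)
    have key : ∑ k ∈ Finset.range K, ∑ τ, ∫ x, (∑ i, a i *
        ((1 / (2 * D.mass (sp i))) * ∑ l : Fin 3,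
        (fderiv ℝ (θ k) x (Pi.single i (EuclideanSpace.single l (1 : ℝ)))) ^ 2)) *
          ‖mulW D (hS θ k) Ψ τ x‖ ^ 2 ≤ 16 / 3 * (Cm * C1) * wm D (near2 y) Ψ := by
      rw [Finset.sum_comm]
      unfold wm
      rw [Finset.mul_sum]
      refine Finset.sum_le_sum fun τ _ => ?_
      have hint : ∀ k, Integrable (fun x => (∑ i, a i *
          ((1 / (2 * D.mass (sp i))) * ∑ l : Fin 3,
          (fderiv ℝ (θ k) x (Pi.single i (EuclideanSpace.single l (1 : ℝ)))) ^ 2)) *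
            ‖mulW D (hS θ k) Ψ τ x‖ ^ 2) := by
        intro k
        have hst := mulW_state D sp ℓ Ψ hΨ _ (hS_smooth θ t1 k) (hS_symm θ t2 k)
        have hc : Continuous (fun x => ‖mulW D (hS θ k) Ψ τ x‖ ^ 2) :=
          ((hst.smooth τ).continuous.norm).pow 2
        have hcc : HasCompactSupport (fun x => ‖mulW D (hS θ k) Ψ τ x‖ ^ 2) :=
          (hst.compact τ).comp_left (g := fun z : ℂ => ‖z‖ ^ 2) (by simp)
        have hf : Continuous (fderiv ℝ (θ k)) := (t1 k).continuous_fderiv (by simp [SM])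
        refine Continuous.integrable_of_hasCompactSupport ?_ hcc.mul_left
        refine Continuous.mul (continuous_finsetSum _ fun i _ => ?_) hc
        refine continuous_const.mul (continuous_const.mul (continuous_finsetSum _ fun l _ => ?_))
        exact (hf.clm_apply continuous_const).pow 2
      rw [← integral_finsetSum _ (fun k _ => hint k), ← integral_const_mul]
      refine integral_mono_ae (integrable_finsetSum _ fun k _ => hint k)
        ((hN Ψ hΨ τ).const_mul _) ?_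
      filter_upwards [ae_ne y] with x hx
      have hnn : ∀ k : ℕ, ∀ i, 0 ≤ ∑ l : Fin 3,
          (fderiv ℝ (θ k) x (Pi.single i (EuclideanSpace.single l (1 : ℝ)))) ^ 2 :=
        fun k i => Finset.sum_nonneg fun l _ => sq_nonneg _
      have hle : ∀ k, (∑ i, a i * ((1 / (2 * D.mass (sp i))) * ∑ l : Fin 3,
          (fderiv ℝ (θ k) x (Pi.single i (EuclideanSpace.single l (1 : ℝ)))) ^ 2)) ≤
          Cm * ∑ i, ∑ l : Fin 3,
          (fderiv ℝ (θ k) x (Pi.single i (EuclideanSpace.single l (1 : ℝ)))) ^ 2 := by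
        intro k
        rw [Finset.mul_sum]
        refine Finset.sum_le_sum fun i _ => ?_
        have h1 := hCm1 (sp i)
        have h2 := hm0 (sp i)
        have h3 := hnn k i
        calc a i * ((1 / (2 * D.mass (sp i))) * ∑ l : Fin 3,
            (fderiv ℝ (θ k) x (Pi.single i (EuclideanSpace.single l (1 : ℝ)))) ^ 2)
            ≤ 1 * ((1 / (2 * D.mass (sp i))) * ∑ l : Fin 3,
            (fderiv ℝ (θ k) x (Pi.single i (EuclideanSpace.single l (1 : ℝ)))) ^ 2) :=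
              mul_le_mul_of_nonneg_right (ha i).2 (mul_nonneg h2 h3)
          _ ≤ Cm * ∑ l : Fin 3,
            (fderiv ℝ (θ k) x (Pi.single i (EuclideanSpace.single l (1 : ℝ)))) ^ 2 := by
              rw [one_mul]
              exact mul_le_mul_of_nonneg_right h1 h3
      have hnn2 : ∀ k, 0 ≤ (∑ i, a i * ((1 / (2 * D.mass (sp i))) * ∑ l : Fin 3,
          (fderiv ℝ (θ k) x (Pi.single i (EuclideanSpace.single l (1 : ℝ)))) ^ 2)) :=
        fun k => Finset.sum_nonneg fun i _ => mul_nonneg (ha i).1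
          (mul_nonneg (hm0 _) (hnn k i))
      have h4 : ∀ k, (∑ i, a i * ((1 / (2 * D.mass (sp i))) * ∑ l : Fin 3,
          (fderiv ℝ (θ k) x (Pi.single i (EuclideanSpace.single l (1 : ℝ)))) ^ 2)) *
            ‖mulW D (hS θ k) Ψ τ x‖ ^ 2 ≤ (∑ i, a i * ((1 / (2 * D.mass (sp i))) *
            ∑ l : Fin 3,
          (fderiv ℝ (θ k) x (Pi.single i (EuclideanSpace.single l (1 : ℝ)))) ^ 2)) *
            ‖Ψ τ x‖ ^ 2 := by
        intro k
        rw [mulW_norm]
        refine mul_le_mul_of_nonneg_left ?_ (hnn2 k)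
        exact mul_le_of_le_one_left (sq_nonneg _) (hS_sq_le θ k x)
      refine (Finset.sum_le_sum fun k _ => h4 k).trans ?_
      rw [← Finset.sum_mul, ← mul_assoc]
      refine mul_le_mul_of_nonneg_right ?_ (sq_nonneg _)
      refine cost_sum δ hδ y x hx K _ (Cm * C1) (by positivity) ?_ ?_
      · intro k
        refine (hle k).trans ?_
        rw [mul_div_assoc]
        exact mul_le_mul_of_nonneg_left (t5 k x) hCm0
      · intro k hk
        refine le_of_eq ?_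
        refine Finset.sum_eq_zero fun i _ => ?_
        rw [Finset.sum_eq_zero (fun l _ => by rw [t6 k x hk]; norm_num), mul_zero, mul_zero]
    have h5 : 0 ≤ ((Cm * T / δ ^ 2 + 1) * (1 + 16 * δ ^ 2) + 1) * wm D (near2 y) Ψ :=
      mul_nonneg (by positivity) hwn0
    have h6 := mul_le_mul_of_nonneg_right hA hwn0
    linarith
  · intro W hW Ψ hΨ K
    have e1 : ∀ k, wm D W (mulW D (gS θ k) Ψ) = wm D (fun x => gS θ k x ^ 2 * W x) Ψ :=
      fun k => wm_mulW D W _ Ψ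
    rw [wm_mulW]
    simp only [e1]
    have w1 : ∀ k ∈ Finset.range K, WI D sp ℓ (fun x => gS θ k x ^ 2 * W x) := fun k _ =>
      WI_mul D sp ℓ hW _ ((hgc k).pow 2) (fun x => by
        rw [abs_of_nonneg (sq_nonneg _)]; exact gS_sq_le θ k x)
    have w2 : WI D sp ℓ (fun x => hS θ K x ^ 2 * W x) :=
      WI_mul D sp ℓ hW _ ((hhc K).pow 2) (fun x => by
        rw [abs_of_nonneg (sq_nonneg _)]; exact hS_sq_le θ K x)
    rw [← wm_sum D sp ℓ _ _ w1 Ψ hΨ, ← wm_add D sp ℓ (WI_sum D sp ℓ _ _ w1) w2 Ψ hΨ]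
    congr 1
    funext x
    rw [← Finset.sum_mul, ← add_mul, sum_sq, one_mul]
  · intro Ψ hΨ K s
    have hN := WI_near2 D sp ℓ y
    have w1 : ∀ k, WI D sp ℓ (fun x => gS θ k x ^ 2 * 1) := fun k =>
      WI_mul D sp ℓ (WI_const D sp ℓ 1) _ ((hgc k).pow 2) (fun x => by
        rw [abs_of_nonneg (sq_nonneg _)]; exact gS_sq_le θ k x)
    have e1 : ∀ k, nrm2 D (mulW D (gS θ k) Ψ) = wm D (fun x => gS θ k x ^ 2 * 1) Ψ := by
      intro k
      rw [← wm_one, wm_mulW]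
    have e2 : ∀ k : ℕ, T / (δ / 2 ^ k) ^ 2 = T / δ ^ 2 * 4 ^ k := by
      intro k
      rw [div_pow, ← pow_mul, mul_comm k 2, pow_mul]
      norm_num
      field_simp
    have e3 : ∀ k : ℕ, (1 / (2 * D.mass s)) * grad2 (φ k) + ((k : ℝ) + 1) ≤
        (Cm * T / δ ^ 2 + 1) * 4 ^ k := by
      intro k
      have h1 := p5 k
      rw [e2] at h1
      have h2 : ((k : ℝ) + 1) ≤ 4 ^ k := by
        have h3 : k + 1 ≤ 4 ^ k := by
          calc k + 1 ≤ 2 ^ k := Nat.lt_two_pow_self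
            _ ≤ 4 ^ k := Nat.pow_le_pow_left (by norm_num) k
        exact_mod_cast h3
      have h4 : (1 / (2 * D.mass s)) * grad2 (φ k) ≤ Cm * (T / δ ^ 2 * 4 ^ k) := by
        calc (1 / (2 * D.mass s)) * grad2 (φ k) ≤ (1 / (2 * D.mass s)) * (T / δ ^ 2 * 4 ^ k) :=
              mul_le_mul_of_nonneg_left h1 (hm0 s)
          _ ≤ Cm * (T / δ ^ 2 * 4 ^ k) := mul_le_mul_of_nonneg_right (hCm1 s) (by positivity)
      calc (1 / (2 * D.mass s)) * grad2 (φ k) + ((k : ℝ) + 1)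
          ≤ Cm * (T / δ ^ 2 * 4 ^ k) + 4 ^ k := add_le_add h4 h2
        _ = (Cm * T / δ ^ 2 + 1) * 4 ^ k := by ring
    have hnn : ∀ k, 0 ≤ nrm2 D (mulW D (gS θ k) Ψ) := by
      intro k
      unfold nrm2
      exact Finset.sum_nonneg fun τ _ => integral_nonneg fun x => sq_nonneg _
    refine (Finset.sum_le_sum fun k _ => mul_le_mul_of_nonneg_right (e3 k) (hnn k)).trans ?_
    have e4 : ∑ k ∈ Finset.range K, (Cm * T / δ ^ 2 + 1) * 4 ^ k * nrm2 D (mulW D (gS θ k) Ψ) =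
        wm D (fun x => ∑ k ∈ Finset.range K, (Cm * T / δ ^ 2 + 1) * 4 ^ k *
          (gS θ k x ^ 2 * 1)) Ψ := by
      rw [wm_sum D sp ℓ _ _ (fun k _ => WI_smul D sp ℓ (w1 k) _) Ψ hΨ]
      refine Finset.sum_congr rfl fun k _ => ?_
      rw [e1, wm_smul]
    rw [e4]
    have hpw : ∀ᵐ x : I → E3, (∑ k ∈ Finset.range K, (Cm * T / δ ^ 2 + 1) * 4 ^ k *
        (gS θ k x ^ 2 * 1)) ≤ (Cm * T / δ ^ 2 + 1) * (1 + 16 * δ ^ 2 * near2 y x) := by
      filter_upwards [ae_ne y] with x hx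
      have hn0 := near2_nonneg y x
      have h1 : ∀ k : ℕ, (4 : ℝ) ^ k * gS θ k x ^ 2 ≤
          (1 + 16 * δ ^ 2 * near2 y x) * gS θ k x ^ 2 := by
        intro k
        by_cases hk : gS θ k x = 0
        · rw [hk]; simp
        refine mul_le_mul_of_nonneg_right ?_ (sq_nonneg _)
        rcases Nat.eq_zero_or_pos k with h0 | h0
        · rw [h0]
          simp
          positivity
        · obtain ⟨k', rfl⟩ : ∃ k', k = k' + 1 := ⟨k - 1, by omega⟩
          have h2 : Real.sin (θ k' x) ≠ 0 := by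
            intro hs
            apply hk
            unfold gS
            rw [hS_succ, hs]
            ring
          have h3 : ∃ i, x i ∈ Metric.ball y (2 * (δ / 2 ^ k')) := by
            by_contra hcon
            push Not at hcon
            apply h2
            rw [t4 k' x hcon, Real.sin_zero]
          obtain ⟨i, hi⟩ := h3
          rw [Metric.mem_ball, dist_eq_norm] at hi
          have h3 : 0 < ‖x i - y‖ := norm_pos_iff.2 (sub_ne_zero.2 (hx i))
          have h4 := le_near2 y x i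
          have h5 : (2 : ℝ) ^ (k' + 1) < 4 * δ * ‖x i - y‖⁻¹ := by
            rw [← div_eq_mul_inv, lt_div_iff₀ h3]
            have h6 : (0 : ℝ) < 2 ^ (k' + 1) := by positivity
            calc (2 : ℝ) ^ (k' + 1) * ‖x i - y‖ < 2 ^ (k' + 1) * (2 * (δ / 2 ^ k')) :=
                  mul_lt_mul_of_pos_left hi h6
              _ = 4 * δ := by
                  rw [pow_succ]
                  field_simp
                  ring
          have h7 : (4 : ℝ) ^ (k' + 1) = (2 ^ (k' + 1)) ^ 2 := by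
            rw [← pow_mul, mul_comm, pow_mul]
            norm_num
          rw [h7]
          calc ((2 : ℝ) ^ (k' + 1)) ^ 2 ≤ (4 * δ * ‖x i - y‖⁻¹) ^ 2 :=
                pow_le_pow_left₀ (by positivity) h5.le 2
            _ = 16 * δ ^ 2 * ‖x i - y‖⁻¹ ^ 2 := by ring
            _ ≤ 16 * δ ^ 2 * near2 y x := mul_le_mul_of_nonneg_left h4 (by positivity)
            _ ≤ 1 + 16 * δ ^ 2 * near2 y x := by linarith
      have h2 : ∑ k ∈ Finset.range K, (Cm * T / δ ^ 2 + 1) * 4 ^ k * (gS θ k x ^ 2 * 1) =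
          (Cm * T / δ ^ 2 + 1) * ∑ k ∈ Finset.range K, 4 ^ k * gS θ k x ^ 2 := by
        rw [Finset.mul_sum]
        refine Finset.sum_congr rfl fun k _ => ?_
        ring
      rw [h2]
      refine mul_le_mul_of_nonneg_left ?_ (by positivity)
      refine (Finset.sum_le_sum fun k _ => h1 k).trans ?_
      rw [← Finset.mul_sum]
      exact mul_le_of_le_one_right (by positivity) (sum_gS_le θ K x)
    have w3 : WI D sp ℓ (fun x => (Cm * T / δ ^ 2 + 1) * (1 + 16 * δ ^ 2 * near2 y x)) :=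
      WI_smul D sp ℓ (WI_add D sp ℓ (WI_const D sp ℓ 1) (WI_smul D sp ℓ hN _)) _
    refine (wm_mono D sp ℓ (WI_sum D sp ℓ _ _ fun k _ => WI_smul D sp ℓ (w1 k) _) w3 Ψ hΨ
      hpw).trans ?_
    rw [wm_smul, wm_add D sp ℓ (WI_const D sp ℓ 1) (WI_smul D sp ℓ hN _) Ψ hΨ, wm_smul, wm_one]
    have hn0 : 0 ≤ nrm2 D Ψ := by
      unfold nrm2
      exact Finset.sum_nonneg fun τ _ => integral_nonneg fun x => sq_nonneg _
    have hwn0 : 0 ≤ wm D (near2 y) Ψ := by
      unfold wm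
      exact Finset.sum_nonneg fun τ _ => integral_nonneg fun x =>
        mul_nonneg (near2_nonneg y x) (sq_nonneg _)
    have h6 : nrm2 D Ψ + 16 * δ ^ 2 * wm D (near2 y) Ψ ≤
        (1 + 16 * δ ^ 2) * (nrm2 D Ψ + wm D (near2 y) Ψ) := by nlinarith [sq_nonneg δ]
    have h7 : 0 ≤ Cm * T / δ ^ 2 + 1 := by positivity
    have h8 : 0 ≤ 16 / 3 * (Cm * C1) + 1 := by positivity
    calc (Cm * T / δ ^ 2 + 1) * (nrm2 D Ψ + 16 * δ ^ 2 * wm D (near2 y) Ψ)
        ≤ (Cm * T / δ ^ 2 + 1) * ((1 + 16 * δ ^ 2) * (nrm2 D Ψ + wm D (near2 y) Ψ)) :=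
          mul_le_mul_of_nonneg_left h6 h7
      _ ≤ (16 / 3 * (Cm * C1) + (Cm * T / δ ^ 2 + 1) * (1 + 16 * δ ^ 2) + 1) *
          (nrm2 D Ψ + wm D (near2 y) Ψ) := by
          have : 0 ≤ (16 / 3 * (Cm * C1) + 1) * (nrm2 D Ψ + wm D (near2 y) Ψ) := by positivity
          nlinarith
      _ ≤ (16 / 3 * (Cm * C1) + (Cm * T + 1) * 17 + 1) / δ ^ 2 *
          (nrm2 D Ψ + wm D (near2 y) Ψ) := mul_le_mul_of_nonneg_right hA (by positivity)
  · intro W hW Ψ hΨ
    refine wm_tendsto D sp ℓ hW Ψ hΨ _ hhc (hS_sq_le θ) ?_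
    filter_upwards [ae_ne y] with x hx
    -- eventually zero
    obtain ⟨m, hm⟩ : ∃ m : ℕ, ∀ i, x i ∉ Metric.ball y (2 * (δ / 2 ^ m)) := by
      have hfin : ∃ ε > 0, ∀ i, ε ≤ ‖x i - y‖ := by
        rcases isEmpty_or_nonempty I with hI | hI
        · exact ⟨1, one_pos, fun i => hI.elim i⟩
        · obtain ⟨i0, hi0⟩ := Finite.exists_min (fun i => ‖x i - y‖)
          exact ⟨‖x i0 - y‖, norm_pos_iff.2 (sub_ne_zero.2 (hx i0)), hi0⟩
      obtain ⟨ε, hε, h1⟩ := hfin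
      obtain ⟨m, hm⟩ := exists_pow_lt_of_lt_one (show (0 : ℝ) < ε / (2 * δ) by positivity)
        (show (1 / 2 : ℝ) < 1 by norm_num)
      refine ⟨m, fun i hi => ?_⟩
      rw [Metric.mem_ball, dist_eq_norm] at hi
      have h2 := h1 i
      rw [lt_div_iff₀ (by positivity), one_div, inv_pow] at hm
      have h3 : 2 * (δ / 2 ^ m) = (2 ^ m)⁻¹ * (2 * δ) := by field_simp
      rw [h3] at hi
      linarith
    refine tendsto_const_nhds.congr' ?_
    filter_upwards [Filter.eventually_gt_atTop m] with k hk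
    unfold hS
    rw [eq_comm]
    refine Finset.prod_eq_zero (Finset.mem_range.2 hk) ?_
    rw [t4 m x hm, Real.sin_zero]

end Pool.Agent.Helper780_CP
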