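import Pool.Agent.Helper780_CP.PauliB

set_option autoImplicit false

open MeasureTheory
open scoped Topology

namespace Pool.Agent.Helper780_CP

open Pool.Agent.Helper985.CP

theorem pw_mul (ℓ : ℝ) (m n : Fin 3 → ℤ) (z : E3) :
    (starRingEnd ℂ) (pwave ℓ m z) * pwave ℓ n z =
      (((Real.sqrt (ℓ ^ 3) : ℝ) : ℂ))⁻¹ * (starRingEnd ℂ) (pwave ℓ (m - n) z) := by
  simp only [pwave, map_div₀, Complex.conj_ofReal, ← Complex.exp_conj, map_mul,
    Complex.conj_I, map_ofNat]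
  rw [div_mul_div_comm, ← Complex.exp_add]
  have e : 2 * (Real.pi : ℂ) * -Complex.I * ((∑ i, (m i : ℝ) * z i : ℝ) : ℂ) / (ℓ : ℂ) +
      2 * (Real.pi : ℂ) * Complex.I * ((∑ i, (n i : ℝ) * z i : ℝ) : ℂ) / (ℓ : ℂ) =
      2 * (Real.pi : ℂ) * -Complex.I * ((∑ i, (((m - n) i : ℤ) : ℝ) * z i : ℝ) : ℂ) / (ℓ : ℂ) := by
    simp only [Fin.sum_univ_three, Pi.sub_apply]
    push_cast
    ring
  rw [e, div_eq_mul_inv, div_eq_mul_inv, mul_inv]
  ring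

theorem pw_nrm (ℓ : ℝ) (hℓ : 0 < ℓ) (m : Fin 3 → ℤ) (z : E3) : ‖pwave ℓ m z‖ ^ 2 = 1 / ℓ ^ 3 := by
  have h3 : 0 < ℓ ^ 3 := by positivity
  unfold pwave
  have e : (2 * (Real.pi : ℂ) * Complex.I * ((∑ i, (m i : ℝ) * z i : ℝ) : ℂ) / (ℓ : ℂ))
      = ((2 * Real.pi * (∑ i, (m i : ℝ) * z i) / ℓ : ℝ) : ℂ) * Complex.I := by
    push_cast; ring
  rw [e, norm_div, Complex.norm_exp_ofReal_mul_I, Complex.norm_real, Real.norm_eq_abs,
    abs_of_nonneg (Real.sqrt_nonneg _), div_pow, one_pow, Real.sq_sqrt h3.le]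

section
open Set

noncomputable local instance pwb_ms : MeasureSpace UnitAddCircle := ⟨AddCircle.haarAddCircle⟩
local instance pwb_haar : Measure.IsAddHaarMeasure (volume : Measure UnitAddCircle) :=
  inferInstanceAs (Measure.IsAddHaarMeasure AddCircle.haarAddCircle)
local instance pwb_prob : IsProbabilityMeasure (volume : Measure UnitAddCircle) :=
  inferInstanceAs (IsProbabilityMeasure AddCircle.haarAddCircle)

theorem pw_torus (k : Fin 3 → ℤ) (hk : k ≠ 0) :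
    ∫ t : UnitAddTorus (Fin 3), UnitAddTorus.mFourier (-k) t = 0 := by
  rw [UnitAddTorus.mFourier, ContinuousMap.coe_mk,
    MeasureTheory.integral_fintype_prod_volume_eq_prod]
  obtain ⟨i, hi⟩ := Function.ne_iff.mp hk
  apply Finset.prod_eq_zero (Finset.mem_univ i)
  have h := (orthonormal_iff_ite.mp <| orthonormal_fourier (T := (1 : ℝ))) (k i) 0
  rw [if_neg (show ¬ (k i = 0) from hi)] at h
  simpa only [ContinuousMap.inner_toLp, ← fourier_neg, ← fourier_add, zero_add, add_zero] using! h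

theorem pw_int0 (ℓ : ℝ) (hℓ : 0 < ℓ) (k : Fin 3 → ℤ) (hk : k ≠ 0) :
    ∫ z in cube ℓ, (starRingEnd ℂ) (pwave ℓ k z) = 0 := by
  have h0 := pw_torus k hk
  rw [UnitAddTorus.integral_preimage _ (0 : Fin 3 → ℝ)] at h0
  have hs : {x : Fin 3 → ℝ | ∀ i, x i ∈ Ioc ((0 : Fin 3 → ℝ) i) ((0 : Fin 3 → ℝ) i + 1)} =
      Set.pi Set.univ (fun i => Ioc ((0 : Fin 3 → ℝ) i) ((1 : Fin 3 → ℝ) i)) := by
    ext x
    simp [Set.mem_pi]
  have hae : Set.pi Set.univ (fun i => Ioo ((0 : Fin 3 → ℝ) i) ((1 : Fin 3 → ℝ) i)) =ᵐ[volume]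
      Set.pi Set.univ (fun i => Ioc ((0 : Fin 3 → ℝ) i) ((1 : Fin 3 → ℝ) i)) := by
    rw [volume_pi]
    exact Measure.univ_pi_Ioo_ae_eq_Icc.trans Measure.univ_pi_Ioc_ae_eq_Icc.symm
  rw [hs, ← setIntegral_congr_set hae] at h0
  have hms : MeasurableSet (Set.pi Set.univ
      (fun i => Ioo ((0 : Fin 3 → ℝ) i) ((1 : Fin 3 → ℝ) i))) :=
    MeasurableSet.univ_pi fun i => measurableSet_Ioo
  rw [← integral_indicator hms] at h0
  have hcube : ∀ x : Fin 3 → ℝ, WithLp.toLp 2 (ℓ • x) ∈ cube ℓ ↔ x ∈ Set.pi Set.univ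
      (fun i => Ioo ((0 : Fin 3 → ℝ) i) ((1 : Fin 3 → ℝ) i)) := by
    intro x
    simp only [cube, mem_ofPred_eq, Pi.smul_apply, smul_eq_mul, Set.mem_pi,
      mem_univ, true_implies, mem_Ioo, Pi.zero_apply, Pi.one_apply]
    refine forall_congr' fun i => ?_
    constructor
    · rintro ⟨h1, h2⟩
      exact ⟨by by_contra hn; rw [not_lt] at hn; nlinarith,
        by by_contra hn; rw [not_lt] at hn; nlinarith⟩
    · rintro ⟨h1, h2⟩
      exact ⟨by positivity, by nlinarith⟩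
  have hind : ∀ x : Fin 3 → ℝ, (Set.pi Set.univ
      (fun i => Ioo ((0 : Fin 3 → ℝ) i) ((1 : Fin 3 → ℝ) i))).indicator
      (fun x : Fin 3 → ℝ => UnitAddTorus.mFourier (-k) (fun i => ((x i : ℝ) : UnitAddCircle))) x =
      ((Real.sqrt (ℓ ^ 3) : ℝ) : ℂ) * (fun z : E3 => (cube ℓ).indicator (fun z =>
        (starRingEnd ℂ) (pwave ℓ k z)) z) (WithLp.toLp 2 (ℓ • x)) := by
    intro x
    by_cases hx : x ∈ Set.pi Set.univ
      (fun i => Ioo ((0 : Fin 3 → ℝ) i) ((1 : Fin 3 → ℝ) i))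
    · rw [indicator_of_mem hx]
      simp only [indicator_of_mem ((hcube x).2 hx)]
      exact pwaux_exp ℓ hℓ k x
    · rw [indicator_of_notMem hx]
      simp only [indicator_of_notMem (fun h => hx ((hcube x).1 h)), mul_zero]
  simp only [hind] at h0
  rw [integral_const_mul, pwaux_scale ℓ hℓ] at h0
  have hsq : ((Real.sqrt (ℓ ^ 3) : ℝ) : ℂ) ≠ 0 := by
    have : Real.sqrt (ℓ ^ 3) ≠ 0 := (Real.sqrt_pos.2 (by positivity)).ne'
    exact_mod_cast this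
  have h1 := (mul_eq_zero.1 h0).resolve_left hsq
  rw [smul_eq_zero] at h1
  have h2 := h1.resolve_left (by positivity)
  rw [integral_indicator (rb_ip_XX_meas ℓ)] at h2
  exact h2

end

theorem pw_ortho (ℓ : ℝ) (hℓ : 0 < ℓ) (m n : Fin 3 → ℤ) :
    ∫ z in cube ℓ, (starRingEnd ℂ) (pwave ℓ m z) * pwave ℓ n z = if m = n then 1 else 0 := by
  by_cases h : m = n
  · subst h
    rw [if_pos rfl]
    have h1 := rb_ip_XX_one ℓ hℓ m
    rw [← integral_indicator (rb_ip_XX_meas ℓ)]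
    rw [← h1]
    congr 1
    funext z
    by_cases hz : z ∈ cube ℓ
    · simp only [Set.indicator_of_mem hz]
    · simp only [Set.indicator_of_notMem hz, mul_zero]
  · rw [if_neg h]
    simp only [pw_mul]
    rw [integral_const_mul, pw_int0 ℓ hℓ _ (sub_ne_zero.2 h), mul_zero]

theorem cube_fin (ℓ : ℝ) (hℓ : 0 < ℓ) : volume (cube ℓ) ≠ ⊤ := by
  rw [rb_ip_XX_vol ℓ hℓ]
  exact ENNReal.ofReal_ne_top

theorem pw_intOn (ℓ : ℝ) (hℓ : 0 < ℓ) (f : E3 → ℂ) (hf : Measurable f) (C : ℝ)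
    (hC : ∀ z, ‖f z‖ ≤ C) : IntegrableOn f (cube ℓ) := by
  refine Measure.integrableOn_of_bounded (M := C) (cube_fin ℓ hℓ) hf.aestronglyMeasurable ?_
  exact Filter.Eventually.of_forall hC

theorem pw_intOnR (ℓ : ℝ) (hℓ : 0 < ℓ) (f : E3 → ℝ) (hf : Measurable f) (C : ℝ)
    (hC : ∀ z, ‖f z‖ ≤ C) : IntegrableOn f (cube ℓ) := by
  refine Measure.integrableOn_of_bounded (M := C) (cube_fin ℓ hℓ) hf.aestronglyMeasurable ?_
  exact Filter.Eventually.of_forall hC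

theorem pw_meas (ℓ : ℝ) (m : Fin 3 → ℤ) : Measurable (pwave ℓ m) :=
  (psl_pwave_cont ℓ m).measurable

theorem pw_bdd (ℓ : ℝ) (hℓ : 0 < ℓ) (m : Fin 3 → ℤ) (z : E3) :
    ‖pwave ℓ m z‖ ≤ Real.sqrt (1 / ℓ ^ 3) := by
  rw [← pw_nrm ℓ hℓ m z, Real.sqrt_sq (norm_nonneg _)]

theorem pw_sum (ℓ : ℝ) (hℓ : 0 < ℓ) (K : Finset (Fin 3 → ℤ)) (c : (Fin 3 → ℤ) → ℂ) :
    ∫ z in cube ℓ, ‖∑ m ∈ K, c m * pwave ℓ m z‖ ^ 2 = ∑ m ∈ K, ‖c m‖ ^ 2 := by
  classical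
  have hI : ∀ m n, IntegrableOn (fun z => (starRingEnd ℂ) (c m) * (c n) *
      ((starRingEnd ℂ) (pwave ℓ m z) * pwave ℓ n z)) (cube ℓ) := by
    intro m n
    refine Integrable.const_mul ?_ _
    refine pw_intOn ℓ hℓ _ ((Complex.continuous_conj.measurable.comp (pw_meas ℓ m)).mul
      (pw_meas ℓ n)) (Real.sqrt (1 / ℓ ^ 3) * Real.sqrt (1 / ℓ ^ 3)) (fun z => ?_)
    rw [norm_mul, RCLike.norm_conj]
    exact mul_le_mul (pw_bdd ℓ hℓ m z) (pw_bdd ℓ hℓ n z) (norm_nonneg _) (Real.sqrt_nonneg _)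
  have h1 : ∀ z, ((‖∑ m ∈ K, c m * pwave ℓ m z‖ ^ 2 : ℝ) : ℂ) = ∑ m ∈ K, ∑ n ∈ K,
      (starRingEnd ℂ) (c m) * (c n) * ((starRingEnd ℂ) (pwave ℓ m z) * pwave ℓ n z) := by
    intro z
    have : ((‖∑ m ∈ K, c m * pwave ℓ m z‖ ^ 2 : ℝ) : ℂ) =
        (starRingEnd ℂ) (∑ m ∈ K, c m * pwave ℓ m z) * ∑ m ∈ K, c m * pwave ℓ m z := by
      rw [Complex.conj_mul']
      push_cast
      rfl
    rw [this, map_sum, Finset.sum_mul_sum]
    refine Finset.sum_congr rfl fun m _ => Finset.sum_congr rfl fun n _ => ?_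
    rw [map_mul]
    ring
  have h2 : ((∫ z in cube ℓ, ‖∑ m ∈ K, c m * pwave ℓ m z‖ ^ 2 : ℝ) : ℂ) =
      ((∑ m ∈ K, ‖c m‖ ^ 2 : ℝ) : ℂ) := by
    rw [← integral_complex_ofReal]
    simp only [h1]
    rw [integral_finsetSum]
    · push_cast
      refine Finset.sum_congr rfl fun m hm => ?_
      rw [integral_finsetSum]
      · simp only [integral_const_mul, pw_ortho ℓ hℓ]
        simp only [mul_ite, mul_one, mul_zero]
        rw [Finset.sum_ite_eq, if_pos hm, Complex.conj_mul']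
      · intro n _
        exact hI m n
    · intro m _
      refine integrable_finsetSum _ fun n _ => ?_
      exact hI m n
  exact_mod_cast h2

theorem pw_rest (ℓ : ℝ) (hℓ : 0 < ℓ) (K : Finset (Fin 3 → ℤ)) (f : E3 → ℂ) (hf : Measurable f)
    (C : ℝ) (hC : ∀ z, ‖f z‖ ≤ C) (h0 : ∀ z, z ∉ cube ℓ → f z = 0) :
    ∫ z in cube ℓ, ‖f z - ∑ m ∈ K, (∫ y, (starRingEnd ℂ) (pwave ℓ m y) * f y) *
      pwave ℓ m z‖ ^ 2 = (∫ z, ‖f z‖ ^ 2) -
      ∑ m ∈ K, ‖∫ y, (starRingEnd ℂ) (pwave ℓ m y) * f y‖ ^ 2 := by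
  classical
  obtain ⟨c, hc⟩ : ∃ c : (Fin 3 → ℤ) → ℂ, c = fun m =>
    ∫ y, (starRingEnd ℂ) (pwave ℓ m y) * f y := ⟨_, rfl⟩
  have hcm : ∀ m, (∫ y, (starRingEnd ℂ) (pwave ℓ m y) * f y) = c m := fun m => by rw [hc]
  have hcm2 : ∀ m, (∫ y in cube ℓ, (starRingEnd ℂ) (pwave ℓ m y) * f y) = c m := by
    intro m
    rw [hc]
    apply setIntegral_eq_integral_of_forall_compl_eq_zero
    intro z hz
    rw [h0 z hz, mul_zero]
  simp only [hcm]
  have hsm := pw_sum ℓ hℓ K c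
  have hG : Measurable (fun z => ∑ m ∈ K, c m * pwave ℓ m z) :=
    Finset.measurable_fun_sum _ fun m _ => (pw_meas ℓ m).const_mul _
  have hGb : ∀ z, ‖∑ m ∈ K, c m * pwave ℓ m z‖ ≤ ∑ m ∈ K, ‖c m‖ * Real.sqrt (1 / ℓ ^ 3) := by
    intro z
    refine (norm_sum_le _ _).trans (Finset.sum_le_sum fun m _ => ?_)
    rw [norm_mul]
    exact mul_le_mul_of_nonneg_left (pw_bdd ℓ hℓ m z) (norm_nonneg _)
  have hpt : ∀ z, ‖f z - ∑ m ∈ K, c m * pwave ℓ m z‖ ^ 2 = ‖f z‖ ^ 2 +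
      ‖∑ m ∈ K, c m * pwave ℓ m z‖ ^ 2 -
      2 * (∑ m ∈ K, (starRingEnd ℂ) (c m) * ((starRingEnd ℂ) (pwave ℓ m z) * f z)).re := by
    intro z
    have e1 : ∑ m ∈ K, (starRingEnd ℂ) (c m) * ((starRingEnd ℂ) (pwave ℓ m z) * f z) =
        (starRingEnd ℂ) (∑ m ∈ K, c m * pwave ℓ m z) * f z := by
      rw [map_sum, Finset.sum_mul]
      refine Finset.sum_congr rfl fun m _ => ?_
      rw [map_mul]
      ring
    rw [e1]
    have h := Complex.normSq_sub (f z) (∑ m ∈ K, c m * pwave ℓ m z)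
    rw [Complex.normSq_eq_norm_sq, Complex.normSq_eq_norm_sq, Complex.normSq_eq_norm_sq] at h
    rw [h, mul_comm (f z)]
  have hi1 : IntegrableOn (fun z => ‖f z‖ ^ 2) (cube ℓ) := by
    refine pw_intOnR ℓ hℓ _ ((hf.norm).pow_const 2) (C ^ 2) (fun z => ?_)
    rw [Real.norm_of_nonneg (by positivity)]
    exact pow_le_pow_left₀ (norm_nonneg _) (hC z) 2
  have hi2 : IntegrableOn (fun z => ‖∑ m ∈ K, c m * pwave ℓ m z‖ ^ 2) (cube ℓ) := by
    refine pw_intOnR ℓ hℓ _ ((hG.norm).pow_const 2)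
      ((∑ m ∈ K, ‖c m‖ * Real.sqrt (1 / ℓ ^ 3)) ^ 2) (fun z => ?_)
    rw [Real.norm_of_nonneg (by positivity)]
    exact pow_le_pow_left₀ (norm_nonneg _) (hGb z) 2
  have hi12 : IntegrableOn (fun z => ‖f z‖ ^ 2 + ‖∑ m ∈ K, c m * pwave ℓ m z‖ ^ 2) (cube ℓ) :=
    hi1.add hi2
  have hi3m : ∀ m, IntegrableOn (fun z => (starRingEnd ℂ) (c m) *
      ((starRingEnd ℂ) (pwave ℓ m z) * f z)) (cube ℓ) := by
    intro m
    refine Integrable.const_mul ?_ _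
    refine pw_intOn ℓ hℓ _ ((Complex.continuous_conj.measurable.comp (pw_meas ℓ m)).mul hf)
      (Real.sqrt (1 / ℓ ^ 3) * C) (fun z => ?_)
    rw [norm_mul, RCLike.norm_conj]
    exact mul_le_mul (pw_bdd ℓ hℓ m z) (hC z) (norm_nonneg _) (Real.sqrt_nonneg _)
  have hi3 : IntegrableOn (fun z => ∑ m ∈ K, (starRingEnd ℂ) (c m) *
      ((starRingEnd ℂ) (pwave ℓ m z) * f z)) (cube ℓ) :=
    integrable_finsetSum _ fun m _ => hi3m m
  have hi3r : IntegrableOn (fun z => (∑ m ∈ K, (starRingEnd ℂ) (c m) *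
      ((starRingEnd ℂ) (pwave ℓ m z) * f z)).re) (cube ℓ) := hi3.re
  simp only [hpt]
  rw [integral_sub hi12 (hi3r.const_mul 2), integral_add hi1 hi2, hsm,
    integral_const_mul]
  have e3 : ∫ z in cube ℓ, (∑ m ∈ K, (starRingEnd ℂ) (c m) *
      ((starRingEnd ℂ) (pwave ℓ m z) * f z)).re = ∑ m ∈ K, ‖c m‖ ^ 2 := by
    have h := integral_re (𝕜 := ℂ) hi3
    have h2 : ∫ z in cube ℓ, ∑ m ∈ K, (starRingEnd ℂ) (c m) *
      ((starRingEnd ℂ) (pwave ℓ m z) * f z) = ((∑ m ∈ K, ‖c m‖ ^ 2 : ℝ) : ℂ) := by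
      rw [integral_finsetSum _ fun m _ => hi3m m]
      push_cast
      refine Finset.sum_congr rfl fun m _ => ?_
      rw [integral_const_mul, hcm2, Complex.conj_mul']
    rw [h2] at h
    refine Eq.trans ?_ (h.trans ?_)
    · rfl
    · exact Complex.ofReal_re _
  have e4 : ∫ z in cube ℓ, ‖f z‖ ^ 2 = ∫ z, ‖f z‖ ^ 2 := by
    apply setIntegral_eq_integral_of_forall_compl_eq_zero
    intro z hz
    rw [h0 z hz]
    simp
  rw [e3, e4]
  ring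

/-- the plane waves with indices at most `R` -/
noncomputable def modes (R : ℕ) : Finset (Fin 3 → ℤ) := Fintype.piFinset fun _ => Finset.Icc (-(R : ℤ)) R

theorem modes_card (R : ℕ) : ((modes R).card : ℝ) = (2 * R + 1) ^ 3 := by
  unfold modes
  rw [Fintype.card_piFinset_const, Int.card_Icc]
  have : ((R : ℤ) + 1 - -(R : ℤ)).toNat = 2 * R + 1 := by omega
  rw [this]
  push_cast
  simp

theorem pen_nonneg (ℓ : ℝ) (m : Fin 3 → ℤ) : 0 ≤ pen ℓ m := by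
  unfold pen
  exact mul_nonneg (sq_nonneg _) (Finset.sum_nonneg fun i _ => sq_nonneg _)

theorem pen_big (ℓ : ℝ) (hℓ : 0 < ℓ) (b : ℝ) (hb : 0 ≤ b) (m : Fin 3 → ℤ)
    (hm : m ∉ modes ⌊b * ℓ⌋₊) : b ^ 2 ≤ pen ℓ m := by
  unfold modes at hm
  rw [Fintype.mem_piFinset, not_forall] at hm
  obtain ⟨i, hi⟩ := hm
  rw [Finset.mem_Icc] at hi
  have h1 : ((⌊b * ℓ⌋₊ : ℤ) + 1) ≤ |m i| := by
    by_contra hcon
    apply hi
    rw [not_le] at hcon
    have := abs_lt.1 hcon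
    constructor <;> omega
  have h2 : b * ℓ ≤ |(m i : ℝ)| := by
    have h3 : ((⌊b * ℓ⌋₊ : ℝ) + 1) ≤ |(m i : ℝ)| := by exact_mod_cast h1
    exact (Nat.lt_floor_add_one _).le.trans h3
  have h4 : (b * ℓ) ^ 2 ≤ ∑ i, (m i : ℝ) ^ 2 := by
    calc (b * ℓ) ^ 2 ≤ |(m i : ℝ)| ^ 2 := pow_le_pow_left₀ (by positivity) h2 2
      _ = (m i : ℝ) ^ 2 := sq_abs _
      _ ≤ _ := Finset.single_le_sum (f := fun i => (m i : ℝ) ^ 2) (fun _ _ => sq_nonneg _)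
          (Finset.mem_univ i)
  unfold pen
  calc b ^ 2 = (1 / ℓ) ^ 2 * (b * ℓ) ^ 2 := by field_simp
    _ ≤ (2 * Real.pi / ℓ) ^ 2 * ∑ i, (m i : ℝ) ^ 2 := by
        refine mul_le_mul ?_ h4 (by positivity) (by positivity)
        refine pow_le_pow_left₀ (by positivity) ?_ 2
        refine div_le_div_of_nonneg_right ?_ hℓ.le
        have := Real.pi_gt_three
        linarith

end Pool.Agent.Helper780_CP
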