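import Pool.Agent.Helper780_CP.LLDefs2
import Pool.Agent.Helper780_CP.TDefs
import Pool.Agent.Helper780_CP.MultiC
import Pool.Agent.Helper780_CP.MoveT

set_option autoImplicit false

open MeasureTheory
open scoped Topology

namespace Pool.Agent.Helper780_CP.RG2

open Pool.Agent.Helper780_CP
open Pool.Agent.Helper985.CP

open Pool.Agent.Helper780_CP Pool.Agent.Helper985.CP

/-- TARGET -/
theorem moveTC {S : Type} [Fintype S] [DecidableEq S] (D : Species S) (hD : D.Valid) :
    ∃ C : ℝ, 0 < C ∧ ∀ (δ : ℝ), 0 < δ → δ ≤ 1 → ∀ {I : Type} [Fintype I] [DecidableEq I]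
      (sp : I → S) (ℓ : ℝ) (y : E3), 0 < ℓ → Metric.closedBall y δ ⊆ cube ℓ →
      ∀ T B Z : ℝ, 0 < T → (∀ z ∈ peierls D sp ℓ T, z ≤ Z) → ∀ (i : I) (L : ℝ),
      HasSum (fun m => Real.exp (-((1 / 2) / (2 * D.mass (sp i) * T) * pen ℓ m) - L)) 1 →
      ∀ M : ℝ, (cnt sp (sp i) : ℝ) * Real.exp (-L) ≤ M →
      (∀ Φ, IsState D sp ℓ Φ → B * nrm2 D Φ ≤ energy D sp Φ - pe D sp i Φ) →
      ∀ {k : ℕ} (ψ : Fin k → Wave D I), (∀ j, IsState D sp ℓ (ψ j)) → SG D ψ →
      ∑ j, nrm2 D (ψ j) * Real.exp ((-(energy D sp (ψ j) - pe D sp i (ψ j) +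
        (1 / 2) * kinE D sp i (ψ j) + D.charge (sp i) * phim D sp (ψ j) y) / T -
        C * (1 + 1 / T) / δ ^ 2 * (nrm2 D (ψ j) + wm D (near2 y) (ψ j))) / nrm2 D (ψ j) -
        (L - Real.log (cnt sp (sp i)))) ≤ D.g * (1 + M) * Z := by
  obtain ⟨C0, hC0, H0⟩ := multiC D hD
  refine ⟨2 * C0, by positivity, ?_⟩
  intro δ hδ hδ1 I _ _ sp ℓ y hℓ hy T B Z hT hZ i L hL M hM hB k ψ hψ hgram
  have H := H0 δ hδ hδ1 (I := I)
  obtain ⟨C, hCdef⟩ : ∃ C, C = C0 / δ ^ 2 := ⟨_, rfl⟩
  have hC : 0 < C := by rw [hCdef]; positivity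
  simp only [← hCdef] at H
  obtain ⟨g, h, φ, ⟨g1, g2, g3⟩, ⟨h1, h2, h3⟩, hφ, hvan, hpot, hqf, hwm, hcost, hlim⟩ := H sp ℓ y hy
  have hM0 : 0 ≤ M := le_trans (by positivity) hM
  have hZ0 : 0 ≤ Z := hZ 0 ⟨0, fun i => i.elim0, ⟨fun i => i.elim0, fun i => i.elim0⟩, by simp⟩
  obtain ⟨lam, hlam⟩ : ∃ lam, lam = L - Real.log (cnt sp (sp i)) := ⟨_, rfl⟩
  rw [← hlam]
  let Q : Wave D I → ℝ := fun Ψ => qf D sp (wa (1 / 2) i) (wW D sp i y) Ψ
  have hQ : ∀ Ψ, IsState D sp ℓ Ψ → Q Ψ = energy D sp Ψ - pe D sp i Ψ +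
      (1 / 2) * kinE D sp i Ψ + D.charge (sp i) * phim D sp Ψ y := fun Ψ hΨ =>
    qf_wa D sp ℓ (1 / 2) i y Ψ hΨ
  let n : Fin k → ℕ → ℝ := fun j m => nrm2 D (mulW D (g m) (ψ j))
  let G : ℕ → ℝ := fun m => (1 / (2 * D.mass (sp i))) * grad2 (φ m)
  have hn0 : ∀ j m, 0 ≤ n j m := fun j m => nrm2_nn D _
  have hst : ∀ j m, IsState D sp ℓ (mulW D (g m) (ψ j)) := fun j m =>
    mulW_state D sp ℓ (ψ j) (hψ j) (g m) (g1 m) (g2 m)
  have hsth : ∀ j m, IsState D sp ℓ (mulW D (h m) (ψ j)) := fun j m =>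
    mulW_state D sp ℓ (ψ j) (hψ j) (h m) (h1 m) (h2 m)
  -- one scale
  have hone : ∀ m, ∑ j, n j m * Real.exp (-(Q (mulW D (g m) (ψ j)) + G m * n j m) /
      (n j m * T) - lam) ≤ D.g * (1 + M) * Z := by
    intro m
    obtain ⟨p1, p2, p3, p4⟩ := hφ m
    have hm := moveT_any D hD sp ℓ T (1 / 2) hℓ hT (by norm_num) Z hZ i L hL M hM (φ m) p1 p2 p3
      p4 (fun j => mulW D (g m) (ψ j)) (fun j => hst j m) (by
        intro j τ x l hl
        unfold mulW
        rw [hvan m x l hl]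
        simp) (by
        intro γ
        rw [mulW_sum]
        refine le_trans ?_ (hgram γ)
        exact mulW_nrm_le D sp ℓ _ (state_comb D sp ℓ ψ hψ γ) (g m) (g1 m).continuous (g3 m))
    refine le_trans (le_of_eq ?_) hm
    refine Finset.sum_congr rfl fun j _ => ?_
    have e1 : mean D sp (mulW D (g m) (ψ j)) (pot (φ m)) =
        phim D sp (mulW D (g m) (ψ j)) y := by
      unfold phim mean
      refine Finset.sum_congr rfl fun τ _ => ?_
      refine integral_congr_ae (Filter.Eventually.of_forall fun x => ?_)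
      simp only
      by_cases hx : g m x = 0
      · unfold mulW
        rw [hx]
        simp
      · congr 1
        refine Finset.sum_congr rfl fun l _ => ?_
        rw [hpot m x hx l]
    rw [e1, hQ _ (hst j m), hlam]
    show nrm2 D (mulW D (g m) (ψ j)) * _ = nrm2 D (mulW D (g m) (ψ j)) * _
    congr 2
    show _ / (nrm2 D (mulW D (g m) (ψ j)) * T) - _ = _
    ring
  -- all scales below `K`
  let A : ℕ → Fin k → ℝ := fun K j => nrm2 D (ψ j) - nrm2 D (mulW D (h K) (ψ j))
  let X : ℕ → Fin k → ℝ := fun K j => -(Q (ψ j) + C * wm D (near2 y) (ψ j)) / T -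
    C * (1 + 1 / T) * (nrm2 D (ψ j) + wm D (near2 y) (ψ j)) +
    (B * nrm2 D (mulW D (h K) (ψ j)) + D.charge (sp i) * phim D sp (mulW D (h K) (ψ j)) y) / T -
    A K j * lam
  have hAsum : ∀ K j, ∑ m ∈ Finset.range K, n j m = A K j := by
    intro K j
    have s2 := hwm (fun _ => 1) (WI_const D sp ℓ 1) (ψ j) (hψ j) K
    simp only [wm_one] at s2
    show ∑ m ∈ Finset.range K, nrm2 D (mulW D (g m) (ψ j)) =
      nrm2 D (ψ j) - nrm2 D (mulW D (h K) (ψ j))
    linarith
  have hwn0 : ∀ j, 0 ≤ wm D (near2 y) (ψ j) := by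
    intro j
    unfold wm
    exact Finset.sum_nonneg fun τ _ => integral_nonneg fun x =>
      mul_nonneg (near2_nonneg y x) (sq_nonneg _)
  have hXle : ∀ K j, X K j ≤ ∑ m ∈ Finset.range K, (-(Q (mulW D (g m) (ψ j)) + G m * n j m) / T -
      lam * n j m - n j m * (((m : ℝ) + 1) * Real.log 2)) := by
    intro K j
    have s1 := hqf (wa (1 / 2) i) (fun l => by unfold wa; split_ifs <;> norm_num) (wW D sp i y)
      (WI_wW D sp ℓ i y) (ψ j) (hψ j) K
    have s3 := hcost (ψ j) (hψ j) K (sp i)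
    have s4 : B * nrm2 D (mulW D (h K) (ψ j)) + D.charge (sp i) *
        phim D sp (mulW D (h K) (ψ j)) y ≤ Q (mulW D (h K) (ψ j)) := by
      rw [hQ _ (hsth j K)]
      have a1 := hB _ (hsth j K)
      have a2 : 0 ≤ kinE D sp i (mulW D (h K) (ψ j)) := by
        unfold kinE
        refine Finset.sum_nonneg fun τ _ => integral_nonneg fun x => ?_
        unfold kin
        have := hD.mass_pos (sp i)
        exact mul_nonneg (by positivity) (Finset.sum_nonneg fun l _ => sq_nonneg _)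
      linarith
    have e1 : ∑ m ∈ Finset.range K, (-(Q (mulW D (g m) (ψ j)) + G m * n j m) / T -
        lam * n j m - n j m * (((m : ℝ) + 1) * Real.log 2)) =
        -(∑ m ∈ Finset.range K, Q (mulW D (g m) (ψ j))) / T -
        (∑ m ∈ Finset.range K, G m * n j m) / T - lam * (∑ m ∈ Finset.range K, n j m) -
        Real.log 2 * ∑ m ∈ Finset.range K, ((m : ℝ) + 1) * n j m := by
      rw [← Finset.sum_neg_distrib, Finset.sum_div, Finset.sum_div, Finset.mul_sum,
        Finset.mul_sum, ← Finset.sum_sub_distrib, ← Finset.sum_sub_distrib,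
        ← Finset.sum_sub_distrib]
      refine Finset.sum_congr rfl fun m _ => ?_
      ring
    rw [e1, hAsum]
    have hG0 : ∀ m, 0 ≤ G m * n j m := by
      intro m
      refine mul_nonneg (mul_nonneg ?_ ?_) (hn0 j m)
      · have := hD.mass_pos (sp i)
        positivity
      · unfold grad2
        exact integral_nonneg fun z => Finset.sum_nonneg fun l _ => sq_nonneg _
    have s5 : ∑ m ∈ Finset.range K, G m * n j m + ∑ m ∈ Finset.range K, ((m : ℝ) + 1) * n j m ≤
        C * (nrm2 D (ψ j) + wm D (near2 y) (ψ j)) := by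
      rw [← Finset.sum_add_distrib]
      refine le_trans (le_of_eq ?_) s3
      refine Finset.sum_congr rfl fun m _ => ?_
      show G m * n j m + ((m : ℝ) + 1) * n j m = (G m + ((m : ℝ) + 1)) * n j m
      ring
    have s6 : 0 ≤ ∑ m ∈ Finset.range K, G m * n j m := Finset.sum_nonneg fun m _ => hG0 m
    have s7 : 0 ≤ ∑ m ∈ Finset.range K, ((m : ℝ) + 1) * n j m :=
      Finset.sum_nonneg fun m _ => mul_nonneg (by positivity) (hn0 j m)
    have hlog : Real.log 2 ≤ 1 := by
      have := Real.log_two_lt_d9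
      linarith
    have hlog0 : 0 ≤ Real.log 2 := Real.log_nonneg (by norm_num)
    have s8 : Real.log 2 * ∑ m ∈ Finset.range K, ((m : ℝ) + 1) * n j m ≤
        C * (nrm2 D (ψ j) + wm D (near2 y) (ψ j)) := by
      calc Real.log 2 * ∑ m ∈ Finset.range K, ((m : ℝ) + 1) * n j m
          ≤ 1 * ∑ m ∈ Finset.range K, ((m : ℝ) + 1) * n j m :=
            mul_le_mul_of_nonneg_right hlog s7
        _ ≤ C * (nrm2 D (ψ j) + wm D (near2 y) (ψ j)) := by linarith
    have s9 : (∑ m ∈ Finset.range K, G m * n j m) / T ≤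
        C * (1 / T) * (nrm2 D (ψ j) + wm D (near2 y) (ψ j)) := by
      rw [div_le_iff₀ hT]
      have : C * (1 / T) * (nrm2 D (ψ j) + wm D (near2 y) (ψ j)) * T = C * (nrm2 D (ψ j) + wm D (near2 y) (ψ j)) := by
        field_simp
      rw [this]
      linarith
    have s10 : -(Q (ψ j) + C * wm D (near2 y) (ψ j)) / T + (B * nrm2 D (mulW D (h K) (ψ j)) +
        D.charge (sp i) * phim D sp (mulW D (h K) (ψ j)) y) / T ≤
        -(∑ m ∈ Finset.range K, Q (mulW D (g m) (ψ j))) / T := by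
      rw [← add_div]
      refine div_le_div_of_nonneg_right ?_ hT.le
      have : ∑ m ∈ Finset.range K, Q (mulW D (g m) (ψ j)) + Q (mulW D (h K) (ψ j)) ≤
        Q (ψ j) + C * wm D (near2 y) (ψ j) := s1
      linarith
    show -(Q (ψ j) + C * wm D (near2 y) (ψ j)) / T -
      C * (1 + 1 / T) * (nrm2 D (ψ j) + wm D (near2 y) (ψ j)) +
      (B * nrm2 D (mulW D (h K) (ψ j)) + D.charge (sp i) * phim D sp (mulW D (h K) (ψ j)) y) / T -
      A K j * lam ≤ _
    have e2 : C * (1 + 1 / T) * (nrm2 D (ψ j) + wm D (near2 y) (ψ j)) =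
      C * (nrm2 D (ψ j) + wm D (near2 y) (ψ j)) + C * (1 / T) * (nrm2 D (ψ j) + wm D (near2 y) (ψ j)) := by ring
    rw [e2]
    linarith
  have hK : ∀ K, ∑ j, A K j * Real.exp (X K j / A K j) ≤ D.g * (1 + M) * Z := by
    intro K
    have hj : ∀ j, A K j * Real.exp (X K j / A K j) ≤ ∑ m : Fin K, ((2 : ℝ) ^ ((m : ℕ) + 1))⁻¹ *
        (n j m * Real.exp (-(Q (mulW D (g m) (ψ j)) + G m * n j m) / (n j m * T) - lam)) := by
      intro j
      have hx0 : ∀ m : Fin K, n j m = 0 → (-(Q (mulW D (g m) (ψ j)) + G m * n j m) / T -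
          lam * n j m - n j m * ((((m : ℕ) : ℝ) + 1) * Real.log 2)) = 0 := by
        intro m hm
        have hz : Q (mulW D (g m) (ψ j)) = 0 := by
          have h0 : mulW D (g m) (ψ j) = 0 := by
            by_contra hne
            exact absurd hm (nrm2_pos D sp ℓ _ (hst j m) hne).ne'
          show qf D sp _ _ _ = 0
          rw [h0]
          unfold qf
          refine Finset.sum_eq_zero fun τ _ => ?_
          have : ∀ x : I → E3, ((∑ l, wa (1 / 2) i l * kin D sp l ((0 : Wave D I) τ) x) +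
              wW D sp i y x * ‖(0 : Wave D I) τ x‖ ^ 2) = 0 := by
            intro x
            have hk0 : ∀ l, kin D sp l ((0 : Wave D I) τ) x = 0 := by
              intro l
              unfold kin
              have : fderiv ℝ ((0 : Wave D I) τ) x = 0 := by
                have : ((0 : Wave D I) τ) = fun _ => (0 : ℂ) := rfl
                rw [this]
                exact fderiv_const_apply 0
              rw [this]
              simp
            rw [Finset.sum_eq_zero (fun l _ => by rw [hk0 l, mul_zero])]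
            simp
          simp only [this, integral_zero]
        rw [hz, hm]
        simp
      have hJ := MT_finjensen (fun m : Fin K => n j m) (fun m : Fin K =>
        (-(Q (mulW D (g m) (ψ j)) + G m * n j m) / T -
          lam * n j m - n j m * ((((m : ℕ) : ℝ) + 1) * Real.log 2))) (fun m => hn0 j m) hx0
      have e1 : ∑ m : Fin K, n j m = A K j := by
        rw [← Finset.sum_range (fun m => n j m)]
        exact hAsum K j
      have e2 : ∑ m : Fin K, (-(Q (mulW D (g m) (ψ j)) + G m * n j m) / T -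
          lam * n j m - n j m * ((((m : ℕ) : ℝ) + 1) * Real.log 2)) =
          ∑ m ∈ Finset.range K, (-(Q (mulW D (g m) (ψ j)) + G m * n j m) / T -
          lam * n j m - n j m * (((m : ℝ) + 1) * Real.log 2)) := by
        rw [← Finset.sum_range (fun m => (-(Q (mulW D (g m) (ψ j)) + G m * n j m) / T -
          lam * n j m - n j m * (((m : ℝ) + 1) * Real.log 2)))]
      rw [e1, e2] at hJ
      have hA0 : 0 ≤ A K j := by
        rw [← hAsum]
        exact Finset.sum_nonneg fun m _ => hn0 j m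
      have hmono : A K j * Real.exp (X K j / A K j) ≤ A K j * Real.exp
          ((∑ m ∈ Finset.range K, (-(Q (mulW D (g m) (ψ j)) + G m * n j m) / T -
          lam * n j m - n j m * (((m : ℝ) + 1) * Real.log 2))) / A K j) := by
        refine mul_le_mul_of_nonneg_left ?_ hA0
        refine Real.exp_le_exp.2 ?_
        exact div_le_div_of_nonneg_right (hXle K j) hA0
      refine hmono.trans (hJ.trans (le_of_eq ?_))
      refine Finset.sum_congr rfl fun m _ => ?_
      rcases (hn0 j m).eq_or_lt with h0 | h0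
      · rw [← h0]; simp
      · have e3 : (-(Q (mulW D (g m) (ψ j)) + G m * n j m) / T -
            lam * n j m - n j m * ((((m : ℕ) : ℝ) + 1) * Real.log 2)) / n j m =
            (-(Q (mulW D (g m) (ψ j)) + G m * n j m) / (n j m * T) - lam) -
              (((m : ℕ) : ℝ) + 1) * Real.log 2 := by
          field_simp
        rw [e3, Real.exp_sub]
        have e4 : Real.exp ((((m : ℕ) : ℝ) + 1) * Real.log 2) = 2 ^ ((m : ℕ) + 1) := by
          rw [mul_comm, Real.exp_mul, Real.exp_log (by norm_num)]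
          have : (((m : ℕ) : ℝ) + 1) = (((m : ℕ) + 1 : ℕ) : ℝ) := by push_cast; ring
          rw [this, Real.rpow_natCast]
        rw [e4]
        field_simp
    refine (Finset.sum_le_sum fun j _ => hj j).trans ?_
    rw [Finset.sum_comm]
    have h5 : ∀ m : Fin K, ∑ j, ((2 : ℝ) ^ ((m : ℕ) + 1))⁻¹ *
        (n j m * Real.exp (-(Q (mulW D (g m) (ψ j)) + G m * n j m) / (n j m * T) - lam)) ≤
        ((2 : ℝ) ^ ((m : ℕ) + 1))⁻¹ * (D.g * (1 + M) * Z) := by
      intro m
      rw [← Finset.mul_sum]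
      exact mul_le_mul_of_nonneg_left (hone m) (by positivity)
    refine (Finset.sum_le_sum fun m _ => h5 m).trans ?_
    rw [← Finset.sum_mul]
    exact mul_le_of_le_one_left (by positivity) (geo2 K)
  -- the limit
  have tn : ∀ j, Filter.Tendsto (fun K => nrm2 D (mulW D (h K) (ψ j))) Filter.atTop (𝓝 0) := by
    intro j
    have := hlim (fun _ => 1) (WI_const D sp ℓ 1) (ψ j) (hψ j)
    simpa only [wm_one] using this
  have tp : ∀ j, Filter.Tendsto (fun K => phim D sp (mulW D (h K) (ψ j)) y) Filter.atTop (𝓝 0) :=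
    fun j => hlim _ (WI_phi D sp ℓ y) (ψ j) (hψ j)
  have tA : ∀ j, Filter.Tendsto (fun K => A K j) Filter.atTop (𝓝 (nrm2 D (ψ j))) := by
    intro j
    have := (tn j).const_sub (nrm2 D (ψ j))
    simpa using this
  have tX : ∀ j, Filter.Tendsto (fun K => X K j) Filter.atTop
      (𝓝 (-(Q (ψ j) + C * wm D (near2 y) (ψ j)) / T -
        C * (1 + 1 / T) * (nrm2 D (ψ j) + wm D (near2 y) (ψ j)) - nrm2 D (ψ j) * lam)) := by
    intro j
    have a1 := (((tn j).const_mul B).add ((tp j).const_mul (D.charge (sp i)))).div_const T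
    have a2 := (a1.const_add (-(Q (ψ j) + C * wm D (near2 y) (ψ j)) / T -
      C * (1 + 1 / T) * (nrm2 D (ψ j) + wm D (near2 y) (ψ j)))).sub ((tA j).mul_const lam)
    have e1 : -(Q (ψ j) + C * wm D (near2 y) (ψ j)) / T -
        C * (1 + 1 / T) * (nrm2 D (ψ j) + wm D (near2 y) (ψ j)) - nrm2 D (ψ j) * lam =
        (-(Q (ψ j) + C * wm D (near2 y) (ψ j)) / T -
        C * (1 + 1 / T) * (nrm2 D (ψ j) + wm D (near2 y) (ψ j)) +
        (B * 0 + D.charge (sp i) * 0) / T) - nrm2 D (ψ j) * lam := by simp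
    rw [e1]
    exact a2
  have hN0 : ∀ j, 0 ≤ nrm2 D (ψ j) := fun j => nrm2_nn D _
  have tall : Filter.Tendsto (fun K => ∑ j, A K j * Real.exp (X K j / A K j)) Filter.atTop
      (𝓝 (∑ j, nrm2 D (ψ j) * Real.exp ((-(Q (ψ j) + C * wm D (near2 y) (ψ j)) / T -
        C * (1 + 1 / T) * (nrm2 D (ψ j) + wm D (near2 y) (ψ j)) - nrm2 D (ψ j) * lam) /
          nrm2 D (ψ j)))) := by
    refine tendsto_finsetSum _ fun j _ => ?_
    rcases (hN0 j).eq_or_lt with h0 | h0
    · have hAz : ∀ K, A K j = 0 := by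
        intro K
        have a1 : 0 ≤ A K j := by
          rw [← hAsum]
          exact Finset.sum_nonneg fun m _ => hn0 j m
        have a2 : A K j ≤ 0 := by
          show nrm2 D (ψ j) - nrm2 D (mulW D (h K) (ψ j)) ≤ 0
          have := nrm2_nn D (mulW D (h K) (ψ j))
          linarith
        linarith
      have hz : (fun K => A K j * Real.exp (X K j / A K j)) = fun _ => (0 : ℝ) := by
        funext K
        rw [hAz K, zero_mul]
      rw [hz, ← h0, zero_mul]
      exact tendsto_const_nhds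
    · refine (tA j).mul ?_
      exact (Real.continuous_exp.tendsto _).comp ((tX j).div (tA j) h0.ne')
  have hfin := le_of_tendsto' tall hK
  refine le_trans (Finset.sum_le_sum fun j _ => ?_) hfin
  rcases (hN0 j).eq_or_lt with h0 | h0
  · rw [← h0, zero_mul, zero_mul]
  refine mul_le_mul_of_nonneg_left ?_ (hN0 j)
  rw [← hQ _ (hψ j)]
  refine Real.exp_le_exp.2 ?_
  have hw := hwn0 j
  have e0 : (-(Q (ψ j) + C * wm D (near2 y) (ψ j)) / T -
        C * (1 + 1 / T) * (nrm2 D (ψ j) + wm D (near2 y) (ψ j)) - nrm2 D (ψ j) * lam) /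
          nrm2 D (ψ j) = (-(Q (ψ j) + C * wm D (near2 y) (ψ j)) / T -
        C * (1 + 1 / T) * (nrm2 D (ψ j) + wm D (near2 y) (ψ j))) / nrm2 D (ψ j) - lam := by
    rw [sub_div, mul_div_cancel_left₀ _ h0.ne']
  rw [e0]
  refine sub_le_sub_right (div_le_div_of_nonneg_right ?_ h0.le) _
  have : C * wm D (near2 y) (ψ j) / T ≤
      C * (1 + 1 / T) * (nrm2 D (ψ j) + wm D (near2 y) (ψ j)) := by
    rw [div_le_iff₀ hT]
    have e1 : C * (1 + 1 / T) * (nrm2 D (ψ j) + wm D (near2 y) (ψ j)) * T =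
      C * (T + 1) * (nrm2 D (ψ j) + wm D (near2 y) (ψ j)) := by field_simp
    rw [e1]
    have : 0 ≤ C * T * (nrm2 D (ψ j) + wm D (near2 y) (ψ j)) :=
      mul_nonneg (by positivity) (add_nonneg (hN0 j) hw)
    have : 0 ≤ C * nrm2 D (ψ j) := mul_nonneg hC.le (hN0 j)
    nlinarith
  have e3 : -(Q (ψ j) + C * wm D (near2 y) (ψ j)) / T = -Q (ψ j) / T -
    C * wm D (near2 y) (ψ j) / T := by ring
  have e4 : 2 * C0 * (1 + 1 / T) / δ ^ 2 * (nrm2 D (ψ j) + wm D (near2 y) (ψ j)) =
      2 * (C * (1 + 1 / T) * (nrm2 D (ψ j) + wm D (near2 y) (ψ j))) := by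
    rw [hCdef]; ring
  rw [e3, e4]
  linarith

end Pool.Agent.Helper780_CP.RG2
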