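import Pool.Agent.Helper780_CP.LLDefs2
import Pool.Agent.Helper780_CP.TDefs
import Pool.Agent.Helper780_CP.FlatT
import Pool.Agent.Helper780_CP.RL1
import Pool.Agent.Helper780_CP.RG1
import Pool.Agent.Helper780_CP.RG2

set_option autoImplicit false

open MeasureTheory
open scoped Topology

namespace Pool.Agent.Helper780_CP.RG3

open Pool.Agent.Helper780_CP
open Pool.Agent.Helper985.CP
open Pool.Agent.Helper780_CP.RG1 (gibbs_w near_minT)
open Pool.Agent.Helper780_CP.RG2 (moveTC)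

open Pool.Agent.Helper780_CP Pool.Agent.Helper985.CP

section aux

variable {S : Type} (D : Species S) {I : Type} [Fintype I] [DecidableEq I] (sp : I → S)

theorem fltB_pe_const (i : I) (c : ℝ) (Ψ : Wave D I) :
    pe D sp i (mulW D (fun _ => c) Ψ) = c ^ 2 * pe D sp i Ψ := by
  unfold pe
  rw [Finset.mul_sum]
  refine Finset.sum_congr rfl fun τ _ => ?_
  rw [← integral_const_mul]
  refine integral_congr_ae (Filter.Eventually.of_forall fun x => ?_)
  show kin D sp i (fun x => (c : ℂ) * Ψ τ x) x + _ * ‖(c : ℂ) * Ψ τ x‖ ^ 2 = _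
  rw [RL0.kin_const_mul D sp i c (Ψ τ) x, norm_mul, mul_pow, Complex.norm_real,
    Real.norm_eq_abs, sq_abs]
  ring

theorem fltB_kinE_const (i : I) (c : ℝ) (Ψ : Wave D I) :
    kinE D sp i (mulW D (fun _ => c) Ψ) = c ^ 2 * kinE D sp i Ψ := by
  unfold kinE
  rw [Finset.mul_sum]
  refine Finset.sum_congr rfl fun τ _ => ?_
  rw [← integral_const_mul]
  refine integral_congr_ae (Filter.Eventually.of_forall fun x => ?_)
  show kin D sp i (fun x => (c : ℂ) * Ψ τ x) x = _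
  rw [RL0.kin_const_mul D sp i c (Ψ τ) x]

theorem fltB_wm_const (W : (I → E3) → ℝ) (c : ℝ) (Ψ : Wave D I) :
    wm D W (mulW D (fun _ => c) Ψ) = c ^ 2 * wm D W Ψ := by
  rw [wm_mulW, wm_smul]

theorem fltB_phim_const (y : E3) (c : ℝ) (Ψ : Wave D I) :
    phim D sp (mulW D (fun _ => c) Ψ) y = c ^ 2 * phim D sp Ψ y :=
  fltB_wm_const D (fun x => ∑ i, D.charge (sp i) * (1 / ‖x i - y‖)) c Ψ

theorem fltB_avg (ℓ : ℝ) (hℓ : 0 < ℓ) (κ : ℝ) (hκ : κ = ∫ z, kk z) (ρ : ℝ)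
    (hcard : (Fintype.card I : ℝ) ≤ ρ * ℓ ^ 3) {k : ℕ} (p : Fin k → ℝ) (hp : ∀ j, 0 ≤ p j)
    (Φ : Fin k → Wave D I) (hΦ : ∀ j, IsState D sp ℓ (Φ j))
    (U a b : ℝ) (hb : 0 ≤ b)
    (h : ∀ y ∈ icb ℓ, |∑ j, p j * phim D sp (Φ j) y - U| ≤
      a + b * ∑ j, p j * wm D (near2 y) (Φ j)) :
    |∑ j, p j * wm D (phb D sp ℓ) (Φ j) - U| ≤
      a + 8 * b * (1 + κ * ρ) * ∑ j, p j * nrm2 D (Φ j) := by
  have hκ0 : 0 ≤ κ := by rw [hκ]; exact integral_nonneg kk_nonneg
  have hl3 : 0 < ℓ ^ 3 := by positivity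
  have h1 : Integrable (fun y => RL1.ic ℓ y * ∑ j, p j * phim D sp (Φ j) y) := by
    have := integrable_finsetSum Finset.univ fun j (_ : j ∈ Finset.univ) =>
      ((RL1.phim_avg D sp ℓ hℓ (Φ j) (hΦ j)).1).const_mul (p j)
    refine this.congr (Filter.Eventually.of_forall fun y => ?_)
    simp only
    rw [Finset.mul_sum]
    refine Finset.sum_congr rfl fun j _ => ?_
    ring
  have h2 : ∫ y, RL1.ic ℓ y * ∑ j, p j * phim D sp (Φ j) y =
      ℓ ^ 3 / 8 * ∑ j, p j * wm D (phb D sp ℓ) (Φ j) := by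
    have e : ∀ y, RL1.ic ℓ y * ∑ j, p j * phim D sp (Φ j) y =
        ∑ j, p j * (RL1.ic ℓ y * phim D sp (Φ j) y) := by
      intro y
      rw [Finset.mul_sum]
      refine Finset.sum_congr rfl fun j _ => ?_
      ring
    simp only [e]
    rw [integral_finsetSum _ fun j _ =>
      ((RL1.phim_avg D sp ℓ hℓ (Φ j) (hΦ j)).1).const_mul (p j), Finset.mul_sum]
    refine Finset.sum_congr rfl fun j _ => ?_
    rw [integral_const_mul, (RL1.phim_avg D sp ℓ hℓ (Φ j) (hΦ j)).2]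
    ring
  have h3 : Integrable (fun y => (cube ℓ).indicator (fun _ => (1 : ℝ)) y *
      ∑ j, p j * wm D (near2 y) (Φ j)) := by
    have := integrable_finsetSum Finset.univ fun j (_ : j ∈ Finset.univ) =>
      ((cost_avg D sp ℓ hℓ (Φ j) (hΦ j)).1).const_mul (p j)
    refine this.congr (Filter.Eventually.of_forall fun y => ?_)
    simp only
    rw [Finset.mul_sum]
    refine Finset.sum_congr rfl fun j _ => ?_
    ring
  have h4 : ∫ y, (cube ℓ).indicator (fun _ => (1 : ℝ)) y * ∑ j, p j * wm D (near2 y) (Φ j) ≤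
      (ℓ ^ 3 + (∫ z, kk z) * (Fintype.card I : ℝ)) * ∑ j, p j * nrm2 D (Φ j) := by
    have e : ∀ y, (cube ℓ).indicator (fun _ => (1 : ℝ)) y * ∑ j, p j * wm D (near2 y) (Φ j) =
        ∑ j, p j * ((cube ℓ).indicator (fun _ => (1 : ℝ)) y * wm D (near2 y) (Φ j)) := by
      intro y
      rw [Finset.mul_sum]
      refine Finset.sum_congr rfl fun j _ => ?_
      ring
    simp only [e]
    rw [integral_finsetSum _ fun j _ =>
      ((cost_avg D sp ℓ hℓ (Φ j) (hΦ j)).1).const_mul (p j), Finset.mul_sum]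
    refine Finset.sum_le_sum fun j _ => ?_
    rw [integral_const_mul]
    have := mul_le_mul_of_nonneg_left (cost_avg D sp ℓ hℓ (Φ j) (hΦ j)).2 (hp j)
    refine this.trans (le_of_eq ?_)
    ring
  obtain ⟨P, hP⟩ : ∃ P : E3 → ℝ, P = fun y => ∑ j, p j * phim D sp (Φ j) y := ⟨_, rfl⟩
  obtain ⟨W, hW⟩ : ∃ W : E3 → ℝ, W = fun y => ∑ j, p j * wm D (near2 y) (Φ j) := ⟨_, rfl⟩
  have hW0 : ∀ y, 0 ≤ W y := by
    intro y
    rw [hW]
    exact Finset.sum_nonneg fun j _ => mul_nonneg (hp j)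
      (RL1.wm_nn D (near2 y) (near2_nonneg y) (Φ j))
  have hPy : ∀ y, ∑ j, p j * phim D sp (Φ j) y = P y := fun y => by rw [hP]
  have hWy : ∀ y, ∑ j, p j * wm D (near2 y) (Φ j) = W y := fun y => by rw [hW]
  simp only [hPy] at h1 h2 h
  simp only [hWy] at h3 h4 h
  obtain ⟨t, ht⟩ : ∃ t, t = ∑ j, p j * nrm2 D (Φ j) := ⟨_, rfl⟩
  obtain ⟨Pb, hPb⟩ : ∃ Pb, Pb = ∑ j, p j * wm D (phb D sp ℓ) (Φ j) := ⟨_, rfl⟩
  rw [← ht] at h4 ⊢
  rw [← hPb] at h2 ⊢
  have ht0 : 0 ≤ t := by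
    rw [ht]
    exact Finset.sum_nonneg fun j _ => mul_nonneg (hp j) (nrm2_nn D _)
  have e1 : ∫ y, RL1.ic ℓ y * (P y - U) = ℓ ^ 3 / 8 * (Pb - U) := by
    have : ∀ y, RL1.ic ℓ y * (P y - U) = RL1.ic ℓ y * P y - RL1.ic ℓ y * U := fun y => by
      ring
    simp only [this]
    rw [integral_sub h1 ((RL1.ic_int ℓ hℓ).mul_const U), h2, integral_mul_const,
      RL1.ic_integral ℓ hℓ]
    ring
  have e2 : ‖∫ y, RL1.ic ℓ y * (P y - U)‖ ≤
      ∫ y, (a * RL1.ic ℓ y + b * ((cube ℓ).indicator (fun _ => (1 : ℝ)) y * W y)) := by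
    refine norm_integral_le_of_norm_le (((RL1.ic_int ℓ hℓ).const_mul a).add (h3.const_mul b))
      (Filter.Eventually.of_forall fun y => ?_)
    have hw := hW0 y
    by_cases hy : y ∈ icb ℓ
    · have hyc : y ∈ cube ℓ := by
        intro k
        have := hy k
        constructor <;> linarith
      have e3 : RL1.ic ℓ y = 1 := by unfold RL1.ic; rw [Set.indicator_of_mem hy]
      rw [e3, Set.indicator_of_mem hyc, one_mul, one_mul, mul_one, Real.norm_eq_abs]
      exact h y hy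
    · have e3 : RL1.ic ℓ y = 0 := by unfold RL1.ic; rw [Set.indicator_of_notMem hy]
      rw [e3, zero_mul, norm_zero, mul_zero, zero_add]
      have := Set.indicator_nonneg (s := cube ℓ) (f := fun _ => (1 : ℝ))
        (fun _ _ => zero_le_one) y
      positivity
  rw [integral_add ((RL1.ic_int ℓ hℓ).const_mul a) (h3.const_mul b), integral_const_mul,
    integral_const_mul, RL1.ic_integral ℓ hℓ, e1, Real.norm_eq_abs, abs_mul,
    abs_of_pos (by positivity : 0 < ℓ ^ 3 / 8)] at e2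
  have e4 : ∫ y, (cube ℓ).indicator (fun _ => (1 : ℝ)) y * W y ≤
      ℓ ^ 3 * (1 + κ * ρ) * t := by
    refine h4.trans (mul_le_mul_of_nonneg_right ?_ ht0)
    rw [← hκ]
    have := mul_le_mul_of_nonneg_left hcard hκ0
    linarith
  have e5 := mul_le_mul_of_nonneg_left e4 hb
  have e6 : ℓ ^ 3 / 8 * |Pb - U| ≤
      ℓ ^ 3 / 8 * (a + 8 * b * (1 + κ * ρ) * t) := by
    refine e2.trans ?_
    have : a * (ℓ ^ 3 / 8) + b * (ℓ ^ 3 * (1 + κ * ρ) * t) =
      ℓ ^ 3 / 8 * (a + 8 * b * (1 + κ * ρ) * t) := by ring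
    linarith
  exact le_of_mul_le_mul_left e6 (by positivity)

end aux

/-- TARGET -/
theorem fltB {S : Type} [Fintype S] [DecidableEq S] (D : Species S) (hD : D.Valid)
    (hst : HStable D) (T V ρ : ℝ) (hT : 0 < T) (hV : 0 < V) (hρ : 0 < ρ) : ∃ C : ℝ, 0 < C ∧
    ∀ {I : Type} [Fintype I] [DecidableEq I] (sp : I → S) (ℓ : ℝ), 4 ≤ ℓ →
      ℓ ^ 3 ≤ V * (Fintype.card I : ℝ) → (Fintype.card I : ℝ) ≤ ρ * ℓ ^ 3 →
      (∑ i, D.charge (sp i) = 0) → ∀ η Z : ℝ, 0 ≤ η → ∀ {k : ℕ} (p : Fin k → ℝ)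
      (ψ : Fin k → Wave D I), NE D sp ℓ T η Z p ψ →
      ∀ (r : ℝ) (ω : E3) (f : (I → E3) → ℝ) (B : ℝ), 0 < r → r ≤ 1 →
      Metric.closedBall ω r ⊆ cube ℓ → ContDiff ℝ SM f → Sy sp f → (∀ x, |f x| ≤ B) →
      |wx D p ψ (fun x => f x ^ 2 * (phi D sp ω x - phb D sp ℓ x))| ≤
        C / r ^ 2 * (wx D p ψ (fun x => f x ^ 2 * (1 + near2 ω x)) + wx D p ψ (gr f) +
          B ^ 2 * η) + C * (wx D p ψ (fun x => f x ^ 2) *
            Real.log (B ^ 2 / wx D p ψ (fun x => f x ^ 2))) := by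
  obtain ⟨C₁, hC₁, H₁⟩ := moveTC D hD
  obtain ⟨C₂, hC₂, H₂⟩ := near_minT D hD
  obtain ⟨A, hA⟩ := id hst
  have hAA : ∀ {J : Type} [Fintype J] [DecidableEq J] (sp' : J → S) (ℓ : ℝ), 0 < ℓ →
      ∀ (Ψ : Wave D J), IsState D sp' ℓ Ψ →
      -|A| * (Fintype.card J : ℝ) * nrm2 D Ψ ≤ energy D sp' Ψ := by
    intro J _ _ sp' ℓ hℓ Ψ hΨ
    refine le_trans ?_ (stable_any D A hA sp' ℓ hℓ Ψ hΨ)
    have := nrm2_nn D Ψ
    have h2 := le_abs_self A
    have h3 : (0 : ℝ) ≤ (Fintype.card J : ℝ) * nrm2 D Ψ := by positivity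
    nlinarith
  obtain ⟨cm, hcm⟩ : ∃ cm, cm = ∑ s, |D.charge s|⁻¹ := ⟨_, rfl⟩
  have hcm1 : ∀ s, |D.charge s|⁻¹ ≤ cm := by
    intro s
    rw [hcm]
    exact Finset.single_le_sum (f := fun s => |D.charge s|⁻¹) (fun t _ => by positivity)
      (Finset.mem_univ s)
  have hcm0 : 0 ≤ cm := by rw [hcm]; exact Finset.sum_nonneg fun t _ => by positivity
  obtain ⟨κ, hκ⟩ : ∃ κ, κ = ∫ z, kk z := ⟨_, rfl⟩
  have hκ0 : 0 ≤ κ := by rw [hκ]; exact integral_nonneg kk_nonneg
  obtain ⟨n, hn⟩ : ∃ n : ℝ, n = (Fintype.card S : ℝ) := ⟨_, rfl⟩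
  have hn0 : 0 ≤ n := by rw [hn]; exact Nat.cast_nonneg _
  -- one-particle partition functions
  have hlz : ∀ s, ∃ C : ℝ, 0 < C ∧ ∀ ℓ : ℝ, 1 ≤ ℓ →
    HasSum (fun m => Real.exp (-((1 / 2) / (2 * D.mass s * T) * pen ℓ m) -
      lz ℓ ((1 / 2) / (2 * D.mass s * T)))) 1 ∧
    Real.exp (lz ℓ ((1 / 2) / (2 * D.mass s * T))) ≤ C * ℓ ^ 3 ∧
    ℓ ^ 3 ≤ C * Real.exp (lz ℓ ((1 / 2) / (2 * D.mass s * T))) := fun s =>
    lz_bounds _ _ (by have := hD.mass_pos s; positivity) one_pos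
  choose C2 hC2p hC2 using hlz
  obtain ⟨K, hKd⟩ : ∃ K, K = ∑ s, C2 s := ⟨_, rfl⟩
  have hK : 0 ≤ K := by rw [hKd]; exact Finset.sum_nonneg fun s _ => (hC2p s).le
  have hKs : ∀ s, C2 s ≤ K := fun s => by
    rw [hKd]
    exact Finset.single_le_sum (f := C2) (fun t _ => (hC2p t).le) (Finset.mem_univ s)
  obtain ⟨W, hWd⟩ : ∃ W, W = K * V := ⟨_, rfl⟩
  have hW : 0 ≤ W := by rw [hWd]; positivity
  obtain ⟨M, hMd⟩ : ∃ M, M = K * ρ := ⟨_, rfl⟩
  have hM0 : 0 ≤ M := by rw [hMd]; positivity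
  obtain ⟨G, hG⟩ : ∃ G, G = |Real.log ((D.g : ℝ) * (1 + M))| := ⟨_, rfl⟩
  have hG0 : 0 ≤ G := by rw [hG]; positivity
  obtain ⟨A2, hA2⟩ : ∃ A2, A2 = 8 * |A| + T * (n * W) := ⟨_, rfl⟩
  have hA20 : 0 ≤ A2 := by rw [hA2]; positivity
  obtain ⟨c1, hc1⟩ : ∃ c1, c1 = T * (C₁ * (1 + 1 / T)) := ⟨_, rfl⟩
  have hc10 : 0 ≤ c1 := by rw [hc1]; positivity
  obtain ⟨m, hm⟩ : ∃ m : ℝ, m = cm * (1 + n) := ⟨_, rfl⟩
  have hm0 : 0 ≤ m := by rw [hm]; positivity
  obtain ⟨q', hq'⟩ : ∃ q' : ℝ, q' = cm * n * A2 := ⟨_, rfl⟩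
  have hq'0 : 0 ≤ q' := by rw [hq']; positivity
  refine ⟨2 * m * (T * (G + 1)) + 2 * m * C₂ + 2 * m * T + (m * c1 + 2 * q' + 4 * (m * c1) +
    32 * (m * c1) * (1 + κ * ρ)) + 1, by positivity, ?_⟩
  intro I _ _ sp ℓ hℓ hlV hlρ hneu η Z hη k p ψ hNE r ω f B hr hr1 hball hf hfs hfB
  obtain ⟨hψ, hsg, hn1, hp, hp1, hZpos, hZle, hfree⟩ := hNE
  have hℓ0 : 0 < ℓ := by linarith
  have hℓ1 : 1 ≤ ℓ := by linarith
  have hB0 : 0 ≤ B := (abs_nonneg _).trans (hfB 0)
  -- the states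
  obtain ⟨Φ, hΦe⟩ : ∃ Φ : Fin k → Wave D I, Φ = fun j => mulW D f (ψ j) := ⟨_, rfl⟩
  have hΦj : ∀ j, Φ j = mulW D f (ψ j) := fun j => by rw [hΦe]
  have hΦ : ∀ j, IsState D sp ℓ (Φ j) := by
    intro j
    rw [hΦj]
    exact RL0.mulW_stateS D sp ℓ (ψ j) (hψ j) f hf hfs
  have hN : ∀ j, 0 ≤ nrm2 D (Φ j) := fun j => nrm2_nn D _
  have hwn : ∀ y j, 0 ≤ wm D (near2 y) (Φ j) := fun y j =>
    RL1.wm_nn D _ (near2_nonneg y) (Φ j)
  obtain ⟨t, ht⟩ : ∃ t, t = ∑ j, p j * nrm2 D (Φ j) := ⟨_, rfl⟩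
  have ht0 : 0 ≤ t := by
    rw [ht]; exact Finset.sum_nonneg fun j _ => mul_nonneg (hp j) (hN j)
  have htw : wx D p ψ (fun x => f x ^ 2) = t := by
    unfold wx
    rw [ht]
    refine Finset.sum_congr rfl fun j _ => ?_
    rw [hΦj, ← wm_one, wm_mulW]
    simp only [mul_one]
  have htB : t ≤ B ^ 2 := by
    rw [ht]
    have h1 : ∀ j, p j * nrm2 D (Φ j) ≤ p j * B ^ 2 := by
      intro j
      refine mul_le_mul_of_nonneg_left ?_ (hp j)
      have h2 : nrm2 D (Φ j) ≤ wm D (fun _ => B ^ 2 * 1) (ψ j) := by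
        rw [hΦj, ← wm_one, wm_mulW]
        have hWf : WI D sp ℓ (fun x => f x ^ 2 * 1) := by
          intro Ψ hΨ τ
          have h3 := (int_state D sp ℓ _ (RL0.mulW_stateS D sp ℓ Ψ hΨ f hf hfs) τ).1
          refine h3.congr (Filter.Eventually.of_forall fun x => ?_)
          simp only
          rw [mulW_norm, mul_one]
        refine wm_mono D sp ℓ hWf (WI_const D sp ℓ _) (ψ j) (hψ j)
          (Filter.Eventually.of_forall fun x => ?_)
        simp only [mul_one]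
        exact sq_le_sq' (by have := abs_le.1 (hfB x); linarith) (abs_le.1 (hfB x)).2
      rw [wm_smul, wm_one, hn1 j, mul_one] at h2
      exact h2
    calc ∑ j, p j * nrm2 D (Φ j) ≤ ∑ j, p j * B ^ 2 := Finset.sum_le_sum fun j _ => h1 j
      _ = B ^ 2 := by rw [← Finset.sum_mul, hp1, one_mul]
  obtain ⟨Lt, hLt⟩ : ∃ Lt, Lt = t * Real.log (B ^ 2 / t) := ⟨_, rfl⟩
  have hLt0 : 0 ≤ Lt := by
    rw [hLt]
    rcases ht0.eq_or_lt with h0 | h0
    · rw [← h0, zero_mul]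
    · refine mul_nonneg ht0 (Real.log_nonneg ?_)
      rw [le_div_iff₀ h0, one_mul]
      exact htB
  rw [htw, ← hLt]
  have hgr0 : 0 ≤ wx D p ψ (gr f) := by
    unfold wx
    exact Finset.sum_nonneg fun j _ => mul_nonneg (hp j)
      (RL1.wm_nn D _ (fun x => by unfold gr; positivity) (ψ j))
  have hWphi : WI D sp ℓ (phi D sp ω) := WI_phi D sp ℓ ω
  have hWphb := RL1.WI_phb D sp ℓ hℓ0
  have e1 : wx D p ψ (fun x => f x ^ 2 * (phi D sp ω x - phb D sp ℓ x)) =
      ∑ j, p j * phim D sp (Φ j) ω - ∑ j, p j * wm D (phb D sp ℓ) (Φ j) := by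
    unfold wx
    rw [← Finset.sum_sub_distrib]
    refine Finset.sum_congr rfl fun j _ => ?_
    rw [← wm_mulW D (fun x => phi D sp ω x - phb D sp ℓ x) f (ψ j), ← hΦj]
    have h1 : (fun x => phi D sp ω x - phb D sp ℓ x) =
        fun x => phi D sp ω x + (-1) * phb D sp ℓ x := by
      funext x
      ring
    rw [h1, wm_add D sp ℓ hWphi (WI_smul D sp ℓ hWphb (-1)) (Φ j) (hΦ j), wm_smul]
    have h2 : wm D (phi D sp ω) (Φ j) = phim D sp (Φ j) ω := rfl
    rw [h2]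
    ring
  have e2 : wx D p ψ (fun x => f x ^ 2 * (1 + near2 ω x)) =
      t + ∑ j, p j * wm D (near2 ω) (Φ j) := by
    unfold wx
    rw [ht, ← Finset.sum_add_distrib]
    refine Finset.sum_congr rfl fun j _ => ?_
    rw [← wm_mulW D (fun x => 1 + near2 ω x) f (ψ j), ← hΦj,
      wm_add D sp ℓ (WI_const D sp ℓ 1) (WI_near2 D sp ℓ ω) (Φ j) (hΦ j), wm_one]
    ring
  rw [e1, e2]
  obtain ⟨Y, hY⟩ : ∃ Y, Y = wx D p ψ (gr f) + B ^ 2 * η := ⟨_, rfl⟩
  have hY0 : 0 ≤ Y := by rw [hY]; positivity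
  have e3 : t + ∑ j, p j * wm D (near2 ω) (Φ j) + wx D p ψ (gr f) + B ^ 2 * η =
      (t + ∑ j, p j * wm D (near2 ω) (Φ j)) + Y := by rw [hY]; ring
  rw [e3]
  have hκw : ∀ y, 0 ≤ ∑ j, p j * wm D (near2 y) (Φ j) := fun y =>
    Finset.sum_nonneg fun j _ => mul_nonneg (hp j) (hwn y j)
  have hr2 : 1 ≤ 1 / r ^ 2 := by
    rw [le_div_iff₀ (by positivity), one_mul]
    exact pow_le_one₀ hr.le hr1
  rcases isEmpty_or_nonempty I with hI | hI
  · have h1 : ∀ j, phim D sp (Φ j) ω = 0 := by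
      intro j
      unfold phim mean
      simp
    have h2 : ∀ j, wm D (phb D sp ℓ) (Φ j) = 0 := by
      intro j
      unfold wm phb
      simp
    simp only [h1, h2, mul_zero, Finset.sum_const_zero, sub_zero, abs_zero]
    have := hκw ω
    positivity
  obtain ⟨i0, hi0⟩ := exists_abundant sp
  let L : S → ℝ := fun s => lz ℓ ((1 / 2) / (2 * D.mass s * T))
  have hLW : ∀ s, Real.exp (L s) ≤ W * (Fintype.card I : ℝ) := by
    intro s
    calc Real.exp (L s) ≤ C2 s * ℓ ^ 3 := (hC2 s ℓ hℓ1).2.1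
      _ ≤ K * ℓ ^ 3 := mul_le_mul_of_nonneg_right (hKs s) (by positivity)
      _ ≤ K * (V * (Fintype.card I : ℝ)) := mul_le_mul_of_nonneg_left hlV hK
      _ = W * (Fintype.card I : ℝ) := by rw [hWd]; ring
  have hcle : ∀ s, (cnt sp s : ℝ) ≤ Fintype.card I := by
    intro s
    unfold cnt
    exact_mod_cast Finset.card_le_univ _
  have hLM : ∀ s, (cnt sp s : ℝ) * Real.exp (-(L s)) ≤ M := by
    intro s
    have h1 : (cnt sp s : ℝ) ≤ M * Real.exp (L s) := by
      calc (cnt sp s : ℝ) ≤ (Fintype.card I : ℝ) := hcle s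
        _ ≤ ρ * ℓ ^ 3 := hlρ
        _ ≤ ρ * (C2 s * Real.exp (L s)) :=
            mul_le_mul_of_nonneg_left (hC2 s ℓ hℓ1).2.2 hρ.le
        _ ≤ ρ * (K * Real.exp (L s)) := mul_le_mul_of_nonneg_left
            (mul_le_mul_of_nonneg_right (hKs s) (Real.exp_pos _).le) hρ.le
        _ = M * Real.exp (L s) := by rw [hMd]; ring
    rw [Real.exp_neg, ← div_eq_mul_inv, div_le_iff₀ (Real.exp_pos _)]
    exact h1
  have hHS : ∀ s, HasSum (fun m => Real.exp (-((1 / 2) / (2 * D.mass s * T) * pen ℓ m) - L s)) 1 :=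
    fun s => (hC2 s ℓ hℓ1).1
  -- near minimality
  obtain ⟨E, hE⟩ : ∃ E, E = ∑ j, p j * (nrm2 D (Φ j) * Real.log (p j)) := ⟨_, rfl⟩
  obtain ⟨En, hEn⟩ : ∃ En, En = ∑ j, p j * energy D sp (Φ j) := ⟨_, rfl⟩
  have hmin : En + T * E ≤ -T * Real.log Z * t + C₂ * Y + T * t := by
    have h1 := H₂ sp ℓ T η Z hT hη p ψ ⟨hψ, hsg, hn1, hp, hp1, hZpos, hZle, hfree⟩ f B hf hfs hfB
    rw [htw, ← hY] at h1
    simp only [← hΦj] at h1
    rw [← hEn, ← hE] at h1
    exact h1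
  -- the quantities
  let q : I → ℝ := fun i => ∑ j, p j * (pe D sp i (Φ j) - (1 / 2) * kinE D sp i (Φ j)) -
    T * (L (sp i) - Real.log (cnt sp (sp i))) * t
  have hc := hD.charge_ne (sp i0)
  have hstab : -(A2 * t) * (Fintype.card I : ℝ) ≤ ∑ i, q i := by
    have s1 : -(8 * |A|) * (Fintype.card I : ℝ) * t ≤
        ∑ i, ∑ j, p j * (pe D sp i (Φ j) - (1 / 2) * kinE D sp i (Φ j)) := by
      rw [Finset.sum_comm]
      have s2 : ∀ j, -(8 * |A|) * (Fintype.card I : ℝ) * nrm2 D (Φ j) ≤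
          ∑ i, (pe D sp i (Φ j) - (1 / 2) * kinE D sp i (Φ j)) := by
        intro j
        exact sum_pe_half D hD |A| sp (fun ℓ hℓ Φ hΦ => hAA sp ℓ hℓ Φ hΦ) ℓ hℓ0 (Φ j) (hΦ j)
      have s3 : ∀ j, p j * (-(8 * |A|) * (Fintype.card I : ℝ) * nrm2 D (Φ j)) ≤
          ∑ i, p j * (pe D sp i (Φ j) - (1 / 2) * kinE D sp i (Φ j)) := by
        intro j
        rw [← Finset.mul_sum]
        exact mul_le_mul_of_nonneg_left (s2 j) (hp j)
      refine le_trans (le_of_eq ?_) (Finset.sum_le_sum fun j _ => s3 j)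
      rw [ht, Finset.mul_sum]
      refine Finset.sum_congr rfl fun j _ => ?_
      ring
    have s4 : ∑ i, T * (L (sp i) - Real.log (cnt sp (sp i))) ≤
        T * (n * W) * (Fintype.card I : ℝ) := by
      rw [cl_fib sp (fun i => T * (L (sp i) - Real.log (cnt sp (sp i))))
        (fun s => T * (L s - Real.log (cnt sp s))) (fun _ => rfl)]
      have s5 : ∀ s, (cnt sp s : ℝ) * (T * (L s - Real.log (cnt sp s))) ≤
          T * (W * (Fintype.card I : ℝ)) := by
        intro s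
        have := cl_ent (cnt sp s) (L s) (W * (Fintype.card I : ℝ)) (hLW s)
        have e : (cnt sp s : ℝ) * (T * (L s - Real.log (cnt sp s))) =
          -(T * ((cnt sp s : ℝ) * (Real.log (cnt sp s) - L s))) := by ring
        rw [e]
        have := mul_le_mul_of_nonneg_left this hT.le
        linarith
      refine (Finset.sum_le_sum fun s _ => s5 s).trans (le_of_eq ?_)
      rw [Finset.sum_const, Finset.card_univ, nsmul_eq_mul, hn]
      ring
    have e : ∑ i, q i = ∑ i, ∑ j, p j * (pe D sp i (Φ j) - (1 / 2) * kinE D sp i (Φ j)) -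
        (∑ i, T * (L (sp i) - Real.log (cnt sp (sp i)))) * t := by
      rw [Finset.sum_mul, ← Finset.sum_sub_distrib]
    have s6 := mul_le_mul_of_nonneg_right s4 ht0
    rw [e, hA2]
    have e' : -((8 * |A| + T * (n * W)) * t) * (Fintype.card I : ℝ) =
      -(8 * |A|) * (Fintype.card I : ℝ) * t - T * (n * W) * (Fintype.card I : ℝ) * t := by ring
    rw [e']
    linarith
  have hsymm : ∀ i, sp i = sp i0 → q i = q i0 := by
    intro i hi
    show ∑ j, p j * (pe D sp i (Φ j) - (1 / 2) * kinE D sp i (Φ j)) -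
      T * (L (sp i) - Real.log (cnt sp (sp i))) * t = ∑ j, p j * (pe D sp i0 (Φ j) -
      (1 / 2) * kinE D sp i0 (Φ j)) - T * (L (sp i0) - Real.log (cnt sp (sp i0))) * t
    rw [hi]
    congr 1
    refine Finset.sum_congr rfl fun j _ => ?_
    obtain ⟨a1, a2⟩ := pe_symm D sp ℓ (Φ j) (hΦ j) i i0 hi
    rw [a1, a2]
  -- pointwise closeness
  have hpt : ∀ δ : ℝ, 0 < δ → δ ≤ 1 → ∀ y, Metric.closedBall y δ ⊆ cube ℓ →
      |∑ j, p j * phim D sp (Φ j) y - q i0 / D.charge (sp i0)| ≤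
        m * (T * (G + 1) * t + C₂ * Y + T * Lt +
          c1 / δ ^ 2 * (t + ∑ j, p j * wm D (near2 y) (Φ j))) + q' * t := by
    intro δ hδ hδ1 y hy
    obtain ⟨P, hP⟩ : ∃ P, P = ∑ j, p j * phim D sp (Φ j) y := ⟨_, rfl⟩
    obtain ⟨w, hw⟩ : ∃ w, w = ∑ j, p j * wm D (near2 y) (Φ j) := ⟨_, rfl⟩
    rw [← hP, ← hw]
    have hw0 : 0 ≤ w := by rw [hw]; exact hκw y
    obtain ⟨Q, hQ⟩ : ∃ Q, Q = T * (G + 1) * t + C₂ * Y + T * Lt + c1 / δ ^ 2 * (t + w) := ⟨_, rfl⟩
    have hQ0 : 0 ≤ Q := by rw [hQ]; positivity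
    have hmove : ∀ i, q i ≤ D.charge (sp i) * P + Q := by
      intro i
      rcases ht0.eq_or_lt with h0 | h0
      · -- everything vanishes
        have hz : ∀ j, p j * nrm2 D (Φ j) = 0 := by
          rw [← h0] at ht
          have := (Finset.sum_eq_zero_iff_of_nonneg (fun j (_ : j ∈ Finset.univ) =>
            mul_nonneg (hp j) (hN j))).1 ht.symm
          exact fun j => this j (Finset.mem_univ j)
        have hz2 : ∀ j, p j = 0 ∨ Φ j = 0 := by
          intro j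
          rcases mul_eq_zero.1 (hz j) with h | h
          · exact Or.inl h
          · exact Or.inr (cl_zero D sp ℓ (Φ j) (hΦ j) h)
        have hP0 : P = 0 := by
          rw [hP]
          refine Finset.sum_eq_zero fun j _ => ?_
          rcases hz2 j with h | h
          · rw [h, zero_mul]
          · rw [h]
            have : phim D sp (0 : Wave D I) y = 0 := cl_mean_zero D sp _
            rw [this, mul_zero]
        have hq0 : q i = 0 := by
          show ∑ j, p j * (pe D sp i (Φ j) - (1 / 2) * kinE D sp i (Φ j)) -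
            T * (L (sp i) - Real.log (cnt sp (sp i))) * t = 0
          rw [← h0, mul_zero, sub_zero]
          refine Finset.sum_eq_zero fun j _ => ?_
          rcases hz2 j with h | h
          · rw [h, zero_mul]
          · rw [h, cl_pe_zero, cl_kinE_zero]
            ring
        rw [hq0, hP0, mul_zero, zero_add]
        exact hQ0
      have hBpos : 0 < B := by
        rcases hB0.eq_or_lt with h | h
        · rw [← h] at htB
          norm_num at htB
          linarith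
        · exact h
      obtain ⟨lam, hlam⟩ : ∃ lam, lam = L (sp i) - Real.log (cnt sp (sp i)) := ⟨_, rfl⟩
      -- the scaled family
      have hfB1 : ∀ x, (B⁻¹ * f x) ^ 2 ≤ 1 := by
        intro x
        have h1 : |B⁻¹ * f x| ≤ 1 := by
          rw [abs_mul, abs_inv, abs_of_pos hBpos, ← div_eq_inv_mul, div_le_one hBpos]
          exact hfB x
        have := abs_le.1 h1
        nlinarith
      have hfc : ContDiff ℝ SM (fun x => B⁻¹ * f x) := contDiff_const.mul hf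
      have hfs' : Sy sp (fun x => B⁻¹ * f x) := fun i j x h => by
        show B⁻¹ * f _ = B⁻¹ * f x
        rw [hfs i j x h]
      obtain ⟨χ, hχ⟩ : ∃ χ : Fin k → Wave D I,
          χ = fun j => mulW D (fun x => B⁻¹ * f x) (ψ j) := ⟨_, rfl⟩
      have hχj : ∀ j, χ j = mulW D (fun x => B⁻¹ * f x) (ψ j) := fun j => by rw [hχ]
      have hχc : ∀ j, χ j = mulW D (fun _ => B⁻¹) (Φ j) := by
        intro j
        rw [hχj, hΦj, mulW_mulW]
      have hχs : ∀ j, IsState D sp ℓ (χ j) := by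
        intro j
        rw [hχj]
        exact RL0.mulW_stateS D sp ℓ (ψ j) (hψ j) _ hfc hfs'
      have hχg : SG D χ := by
        intro γ
        have : (fun τ x => ∑ j, γ j * χ j τ x) =
            mulW D (fun x => B⁻¹ * f x) (fun τ x => ∑ j, γ j * ψ j τ x) := by
          rw [← mulW_sum, hχ]
        rw [this]
        refine le_trans ?_ (hsg γ)
        exact mulW_nrm_le D sp ℓ _ (state_comb D sp ℓ ψ hψ γ) _ hfc.continuous hfB1
      have h1 := H₁ δ hδ hδ1 sp ℓ y hℓ0 hy T _ Z hT hZle i (L (sp i)) (hHS (sp i)) M (hLM (sp i))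
        (rest_lower D sp ℓ |A| (fun sp' Φ hΦ => hAA sp' ℓ hℓ0 Φ hΦ) i) χ hχs hχg
      rw [← hlam] at h1
      have hb2 : 0 < (B⁻¹) ^ 2 := by positivity
      -- exponents
      let X : Fin k → ℝ := fun j => -(energy D sp (Φ j) - pe D sp i (Φ j) +
        (1 / 2) * kinE D sp i (Φ j) + D.charge (sp i) * phim D sp (Φ j) y) / T -
        C₁ * (1 + 1 / T) / δ ^ 2 * (nrm2 D (Φ j) + wm D (near2 y) (Φ j)) - lam * nrm2 D (Φ j)
      have h2 : ∑ j, nrm2 D (Φ j) * Real.exp (X j / nrm2 D (Φ j)) ≤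
          B ^ 2 * (D.g * (1 + M) * Z) := by
        have h3 := mul_le_mul_of_nonneg_left h1 (sq_nonneg B)
        refine le_trans (le_of_eq ?_) h3
        rw [Finset.mul_sum]
        refine Finset.sum_congr rfl fun j _ => ?_
        have en : nrm2 D (χ j) = (B⁻¹) ^ 2 * nrm2 D (Φ j) := by
          rw [hχc, RL0.nrm2_const]
        have ee : energy D sp (χ j) = (B⁻¹) ^ 2 * energy D sp (Φ j) := by
          rw [hχc, RL0.energy_const]
        have ep : pe D sp i (χ j) = (B⁻¹) ^ 2 * pe D sp i (Φ j) := by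
          rw [hχc, fltB_pe_const]
        have ek : kinE D sp i (χ j) = (B⁻¹) ^ 2 * kinE D sp i (Φ j) := by
          rw [hχc, fltB_kinE_const]
        have ef : phim D sp (χ j) y = (B⁻¹) ^ 2 * phim D sp (Φ j) y := by
          rw [hχc, fltB_phim_const]
        have ew : wm D (near2 y) (χ j) = (B⁻¹) ^ 2 * wm D (near2 y) (Φ j) := by
          rw [hχc, fltB_wm_const]
        rw [en, ee, ep, ek, ef, ew]
        by_cases hn0j : nrm2 D (Φ j) = 0
        · rw [hn0j]
          simp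
        · have hBB : B ^ 2 * ((B⁻¹) ^ 2 * nrm2 D (Φ j)) = nrm2 D (Φ j) := by
            field_simp
          rw [← mul_assoc, hBB]
          congr 2
          show (_ / T - _ - lam * nrm2 D (Φ j)) / nrm2 D (Φ j) = _
          field_simp
      have hYp : 0 < B ^ 2 * (D.g * (1 + M) * Z) := by
        obtain ⟨j, hj⟩ : ∃ j, 0 < nrm2 D (Φ j) := by
          by_contra hcon
          push Not at hcon
          have : t ≤ 0 := by
            rw [ht]
            exact Finset.sum_nonpos fun j _ => mul_nonpos_of_nonneg_of_nonpos (hp j) (hcon j)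
          linarith
        refine lt_of_lt_of_le ?_ h2
        refine Finset.sum_pos' (fun j _ => mul_nonneg (hN j) (Real.exp_pos _).le)
          ⟨j, Finset.mem_univ j, mul_pos hj (Real.exp_pos _)⟩
      have h3 := gibbs_w p (fun j => nrm2 D (Φ j)) X hp hN (by
        intro j hj
        have hz := cl_zero D sp ℓ (Φ j) (hΦ j) hj
        show -(energy D sp (Φ j) - pe D sp i (Φ j) +
          (1 / 2) * kinE D sp i (Φ j) + D.charge (sp i) * phim D sp (Φ j) y) / T -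
          C₁ * (1 + 1 / T) / δ ^ 2 * (nrm2 D (Φ j) + wm D (near2 y) (Φ j)) -
          lam * nrm2 D (Φ j) = 0
        have hph : phim D sp (0 : Wave D I) y = 0 := cl_mean_zero D sp _
        have hwz : wm D (near2 y) (0 : Wave D I) = 0 := by unfold wm; simp
        rw [hj, hz, cl_energy_zero, cl_pe_zero, cl_kinE_zero, hph, hwz]
        ring) _ hYp h2
      have h3' : ∑ j, p j * X j ≤ t * Real.log (B ^ 2 * (D.g * (1 + M) * Z)) + E -
          t * Real.log t := by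
        rw [ht, hE]
        exact h3
      have hg1 : 0 < (D.g : ℝ) * (1 + M) := by
        by_contra hcon
        push Not at hcon
        have : B ^ 2 * (D.g * (1 + M) * Z) ≤ 0 :=
          mul_nonpos_of_nonneg_of_nonpos (sq_nonneg B)
            (mul_nonpos_of_nonpos_of_nonneg hcon hZpos.le)
        linarith
      rw [Real.log_mul (by positivity) (by positivity), Real.log_mul hg1.ne' hZpos.ne'] at h3'
      have hG1 : Real.log ((D.g : ℝ) * (1 + M)) ≤ G := by rw [hG]; exact le_abs_self _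
      have hLe : Lt = t * Real.log (B ^ 2) - t * Real.log t := by
        rw [hLt, Real.log_div (by positivity) h0.ne']
        ring
      obtain ⟨Sg, hSg⟩ : ∃ Sg, Sg = ∑ j, p j * (pe D sp i (Φ j) - (1 / 2) * kinE D sp i (Φ j)) :=
        ⟨_, rfl⟩
      have hX : ∑ j, p j * X j = -(1 / T) * (En - Sg + D.charge (sp i) * P) -
          C₁ * (1 + 1 / T) / δ ^ 2 * (t + w) - lam * t := by
        have a1 : D.charge (sp i) * P = ∑ j, D.charge (sp i) * (p j * phim D sp (Φ j) y) := by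
          rw [hP, Finset.mul_sum]
        have a2 : C₁ * (1 + 1 / T) / δ ^ 2 * (t + w) = ∑ j, p j * (C₁ * (1 + 1 / T) / δ ^ 2 *
            (nrm2 D (Φ j) + wm D (near2 y) (Φ j))) := by
          rw [ht, hw, ← Finset.sum_add_distrib, Finset.mul_sum]
          refine Finset.sum_congr rfl fun j _ => ?_
          ring
        have a3 : lam * t = ∑ j, lam * (p j * nrm2 D (Φ j)) := by rw [ht, Finset.mul_sum]
        rw [a1, a2, a3, hEn, hSg, ← Finset.sum_sub_distrib, ← Finset.sum_add_distrib,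
          Finset.mul_sum, ← Finset.sum_sub_distrib, ← Finset.sum_sub_distrib]
        refine Finset.sum_congr rfl fun j _ => ?_
        show p j * (_ / T - _ - lam * nrm2 D (Φ j)) = _
        field_simp
        ring
      rw [hX] at h3'
      have h5 := mul_le_mul_of_nonneg_left h3' hT.le
      have e5 : T * (-(1 / T) * (En - Sg + D.charge (sp i) * P) -
          C₁ * (1 + 1 / T) / δ ^ 2 * (t + w) - lam * t) =
          -(En - Sg + D.charge (sp i) * P) - c1 / δ ^ 2 * (t + w) - T * lam * t := by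
        rw [hc1]
        field_simp
      rw [e5] at h5
      have h6 : T * (t * Real.log ((D.g : ℝ) * (1 + M))) ≤ T * (t * G) :=
        mul_le_mul_of_nonneg_left (mul_le_mul_of_nonneg_left hG1 ht0) hT.le
      have h7 : q i = Sg - T * lam * t := by
        rw [hSg, hlam]
      rw [h7, hQ, hLe]
      have e6 : T * (t * (Real.log (B ^ 2) + (Real.log ((D.g : ℝ) * (1 + M)) + Real.log Z)) + E -
          t * Real.log t) = T * (t * Real.log (B ^ 2)) + T * (t * Real.log ((D.g : ℝ) * (1 + M))) +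
          T * t * Real.log Z + T * E - T * (t * Real.log t) := by ring
      rw [e6] at h5
      have e7 : T * (G + 1) * t + C₂ * Y + T * (t * Real.log (B ^ 2) - t * Real.log t) +
          c1 / δ ^ 2 * (t + w) = T * (t * G) + T * t + C₂ * Y + T * (t * Real.log (B ^ 2)) -
          T * (t * Real.log t) + c1 / δ ^ 2 * (t + w) := by ring
      rw [e7]
      have e8 : -T * Real.log Z * t = -(T * t * Real.log Z) := by ring
      rw [e8] at hmin
      linarith
    have hcore := flat_core sp i0 hi0 D.charge hneu q hsymm P Q (A2 * t) hstab hmove hQ0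
      (by positivity)
    have e4 : P - q i0 / D.charge (sp i0) =
        (D.charge (sp i0))⁻¹ * (D.charge (sp i0) * P - q i0) := by
      field_simp
    rw [e4, abs_mul, abs_inv, ← hQ]
    rw [← hn] at hcore
    calc |D.charge (sp i0)|⁻¹ * |D.charge (sp i0) * P - q i0|
        ≤ cm * (Q + n * (Q + A2 * t)) :=
          mul_le_mul (hcm1 _) hcore (abs_nonneg _) hcm0
      _ = m * Q + q' * t := by
          rw [hm, hq']
          ring
  have hω := hpt r hr hr1 ω hball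
  obtain ⟨a0, ha0⟩ : ∃ a0, a0 = T * (G + 1) * t + C₂ * Y + T * Lt := ⟨_, rfl⟩
  have hic : ∀ y ∈ icb ℓ, |∑ j, p j * phim D sp (Φ j) y - q i0 / D.charge (sp i0)| ≤
      (m * (a0 + 4 * c1 * t) + q' * t) + (4 * (m * c1)) * ∑ j, p j * wm D (near2 y) (Φ j) := by
    intro y hy
    have hsub : Metric.closedBall y (1 / 2) ⊆ cube ℓ := by
      intro z hz k
      rw [Metric.mem_closedBall, dist_eq_norm] at hz
      have h1 : |z k - y k| ≤ 1 / 2 := by
        have h2 : ‖(z - y) k‖ ≤ ‖z - y‖ := PiLp.norm_apply_le (z - y) k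
        rw [PiLp.sub_apply, Real.norm_eq_abs] at h2
        linarith
      rw [abs_le] at h1
      have := hy k
      constructor <;> linarith
    have := hpt (1 / 2) (by norm_num) (by norm_num) y hsub
    rw [← ha0] at this
    refine this.trans (le_of_eq ?_)
    ring
  have hav := fltB_avg D sp ℓ hℓ0 κ hκ ρ hlρ p hp Φ hΦ _ _ _ (by positivity) hic
  rw [← ha0] at hω
  rw [← ht] at hav
  obtain ⟨w, hwe⟩ : ∃ w, w = ∑ j, p j * wm D (near2 ω) (Φ j) := ⟨_, rfl⟩
  obtain ⟨R, hR⟩ : ∃ R, R = 1 / r ^ 2 := ⟨_, rfl⟩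
  have hw0 : 0 ≤ w := by rw [hwe]; exact hκw ω
  rw [← hwe] at hω ⊢
  rw [← hR] at hr2
  have e5 : c1 / r ^ 2 = c1 * R := by rw [hR]; ring
  rw [e5] at hω
  rw [div_eq_mul_one_div, ← hR]
  have htri : |∑ j, p j * phim D sp (Φ j) ω - ∑ j, p j * wm D (phb D sp ℓ) (Φ j)| ≤
      |∑ j, p j * phim D sp (Φ j) ω - q i0 / D.charge (sp i0)| +
      |∑ j, p j * wm D (phb D sp ℓ) (Φ j) - q i0 / D.charge (sp i0)| := by
    have h1 : ∑ j, p j * phim D sp (Φ j) ω - ∑ j, p j * wm D (phb D sp ℓ) (Φ j) =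
      (∑ j, p j * phim D sp (Φ j) ω - q i0 / D.charge (sp i0)) -
      (∑ j, p j * wm D (phb D sp ℓ) (Φ j) - q i0 / D.charge (sp i0)) := by ring
    rw [h1]
    exact abs_sub _ _
  refine htri.trans ((add_le_add hω hav).trans ?_)
  -- bookkeeping
  have hR0 : 0 ≤ R := by linarith
  have hX0 : 0 ≤ t + w := by linarith
  have b3 : t ≤ R * (t + w) :=
    (show t ≤ t + w by linarith).trans (le_mul_of_one_le_left hX0 hr2)
  have b3' : Y ≤ R * Y := le_mul_of_one_le_left hY0 hr2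
  have hmC : 0 ≤ m * c1 := by positivity
  have hk : 0 ≤ 1 + κ * ρ := by positivity
  have hmT : 0 ≤ 2 * m * (T * (G + 1)) := by positivity
  have b0 : (2 * m * (T * (G + 1))) * t ≤ (2 * m * (T * (G + 1))) * (R * (t + w)) :=
    mul_le_mul_of_nonneg_left b3 hmT
  have b1 : (2 * m * C₂) * Y ≤ (2 * m * C₂) * (R * Y) :=
    mul_le_mul_of_nonneg_left b3' (by positivity)
  have b4 : q' * t ≤ q' * (R * (t + w)) := mul_le_mul_of_nonneg_left b3 hq'0
  have b5 : (m * c1) * t ≤ (m * c1) * (R * (t + w)) := mul_le_mul_of_nonneg_left b3 hmC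
  have b6 : (32 * (m * c1) * (1 + κ * ρ)) * t ≤ (32 * (m * c1) * (1 + κ * ρ)) * (R * (t + w)) :=
    mul_le_mul_of_nonneg_left b3 (by positivity)
  have b7 : 0 ≤ R * (t + w) := by positivity
  have b8 : 0 ≤ R * Y := by positivity
  have b9 : 0 ≤ (2 * m * (T * (G + 1)) + 2 * m * T + (m * c1 + 2 * q' + 4 * (m * c1) +
    32 * (m * c1) * (1 + κ * ρ))) * (R * Y) := by positivity
  have b10 : 0 ≤ (2 * m * C₂ + 2 * m * T) * (R * (t + w)) := by positivity
  have b11 : 0 ≤ (2 * m * (T * (G + 1)) + 2 * m * C₂ + (m * c1 + 2 * q' + 4 * (m * c1) +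
    32 * (m * c1) * (1 + κ * ρ)) + 1) * Lt := by positivity
  rw [ha0]
  linarith [b0, b1, b4, b5, b6, b7, b8, b9, b10, b11]

end Pool.Agent.Helper780_CP.RG3
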