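import Pool.Agent.Helper780_CP.LLDefs2
import Pool.Agent.Helper780_CP.TDefs

set_option autoImplicit false

open MeasureTheory
open scoped Topology

namespace Pool.Agent.Helper780_CP.RG4

open Pool.Agent.Helper780_CP
open Pool.Agent.Helper985.CP

open Pool.Agent.Helper780_CP Pool.Agent.Helper985.CP

/-- the angle of the level cutoffs -/
noncomputable def lvTh (u : ℝ) : ℝ := Real.pi / 2 * Real.smoothTransition ((u ^ 2 - 1) / 3)

theorem lvTh_smooth : ContDiff ℝ SM lvTh := by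
  unfold lvTh
  exact contDiff_const.mul (Real.smoothTransition.contDiff.comp (by fun_prop))

theorem lvTh_zero {u : ℝ} (h : |u| ≤ 1) : lvTh u = 0 := by
  unfold lvTh
  have h2 : u ^ 2 ≤ 1 := by
    rw [← sq_abs]
    nlinarith [abs_nonneg u]
  rw [Real.smoothTransition.zero_of_nonpos (by linarith), mul_zero]

theorem lvTh_pi {u : ℝ} (h : 2 ≤ |u|) : lvTh u = Real.pi / 2 := by
  unfold lvTh
  have h2 : 4 ≤ u ^ 2 := by
    rw [← sq_abs]
    nlinarith [abs_nonneg u]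
  rw [Real.smoothTransition.one_of_one_le (by linarith), mul_one]

/-- the first piece -/
noncomputable def lvA (u : ℝ) : ℝ := u * Real.cos (lvTh u)

/-- the shape of the other pieces -/
noncomputable def lvB (u : ℝ) : ℝ := u * Real.sin (lvTh u) * Real.cos (lvTh (u / 2))

theorem lvA_smooth : ContDiff ℝ SM lvA := by
  unfold lvA
  exact contDiff_id.mul (Real.contDiff_cos.comp lvTh_smooth)

theorem lvB_smooth : ContDiff ℝ SM lvB := by
  unfold lvB
  exact (contDiff_id.mul (Real.contDiff_sin.comp lvTh_smooth)).mul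
    (Real.contDiff_cos.comp (lvTh_smooth.comp (by fun_prop)))

theorem lvA_zero {u : ℝ} (h : 2 ≤ |u|) : lvA u = 0 := by
  unfold lvA
  rw [lvTh_pi h, Real.cos_pi_div_two, mul_zero]

theorem lvB_zero {u : ℝ} (h : |u| ≤ 1) : lvB u = 0 := by
  unfold lvB
  rw [lvTh_zero h, Real.sin_zero, mul_zero, zero_mul]

theorem lvB_zero' {u : ℝ} (h : 4 ≤ |u|) : lvB u = 0 := by
  unfold lvB
  rw [lvTh_pi (u := u / 2) (by rw [abs_div, abs_two]; linarith), Real.cos_pi_div_two, mul_zero]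

theorem lvA_le (u : ℝ) : |lvA u| ≤ 2 := by
  rcases le_total 2 |u| with h | h
  · rw [lvA_zero h, abs_zero]
    norm_num
  · unfold lvA
    rw [abs_mul]
    calc |u| * |Real.cos (lvTh u)| ≤ |u| * 1 :=
          mul_le_mul_of_nonneg_left (Real.abs_cos_le_one _) (abs_nonneg _)
      _ ≤ 2 := by linarith

theorem lvB_le (u : ℝ) : |lvB u| ≤ 4 := by
  rcases le_total 4 |u| with h | h
  · rw [lvB_zero' h, abs_zero]
    norm_num
  · unfold lvB
    rw [abs_mul, abs_mul]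
    calc |u| * |Real.sin (lvTh u)| * |Real.cos (lvTh (u / 2))| ≤ |u| * 1 * 1 := by
          apply mul_le_mul _ (Real.abs_cos_le_one _) (abs_nonneg _) (by positivity)
          exact mul_le_mul_of_nonneg_left (Real.abs_sin_le_one _) (abs_nonneg _)
      _ ≤ 4 := by linarith

theorem lv_deriv_bdd {g : ℝ → ℝ} (hg : ContDiff ℝ SM g) (R : ℝ) (h0 : ∀ u, R ≤ |u| → g u = 0) :
    ∃ M : ℝ, 0 ≤ M ∧ ∀ u, (deriv g u) ^ 2 ≤ M := by
  have hs : HasCompactSupport g := by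
    refine HasCompactSupport.intro (isCompact_closedBall (0 : ℝ) R) ?_
    intro u hu
    apply h0
    rw [Metric.mem_closedBall, dist_zero_right, Real.norm_eq_abs, not_le] at hu
    exact hu.le
  obtain ⟨M, hM⟩ := (hg.continuous_deriv (by simp)).bounded_above_of_compact_support hs.deriv
  refine ⟨M ^ 2, sq_nonneg _, fun u => ?_⟩
  have h1 := hM u
  rw [Real.norm_eq_abs] at h1
  rw [← sq_abs]
  exact pow_le_pow_left₀ (abs_nonneg _) h1 2

theorem lvB_deriv_zero {u : ℝ} (h : |u| < 1 ∨ 4 < |u|) : deriv lvB u = 0 := by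
  have h1 : lvB =ᶠ[𝓝 u] fun _ => 0 := by
    rcases h with h | h
    · have h2 : ∀ᶠ v in 𝓝 u, |v| < 1 := continuous_abs.continuousAt.eventually_lt_const h
      filter_upwards [h2] with v hv
      exact lvB_zero hv.le
    · have h2 : ∀ᶠ v in 𝓝 u, 4 < |v| := continuous_abs.continuousAt.eventually_const_lt h
      filter_upwards [h2] with v hv
      exact lvB_zero' hv.le
  rw [h1.deriv_eq]
  simp

/-- the pieces -/
noncomputable def lvG (k : ℕ) (u : ℝ) : ℝ := match k with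
  | 0 => lvA u
  | k + 1 => 2 ^ k * lvB (u / 2 ^ k)

theorem lvG_smooth (k : ℕ) : ContDiff ℝ SM (lvG k) := by
  cases k with
  | zero => exact lvA_smooth
  | succ k =>
    show ContDiff ℝ SM (fun u => 2 ^ k * lvB (u / 2 ^ k))
    exact contDiff_const.mul (lvB_smooth.comp (by fun_prop))

theorem lvG_le (k : ℕ) (u : ℝ) : |lvG k u| ≤ 2 ^ (k + 1) := by
  cases k with
  | zero =>
    have := lvA_le u
    show |lvA u| ≤ _
    norm_num
    exact this
  | succ k =>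
    show |2 ^ k * lvB (u / 2 ^ k)| ≤ _
    rw [abs_mul, abs_of_pos (by positivity : (0 : ℝ) < 2 ^ k)]
    calc (2 : ℝ) ^ k * |lvB (u / 2 ^ k)| ≤ 2 ^ k * 4 :=
          mul_le_mul_of_nonneg_left (lvB_le _) (by positivity)
      _ = 2 ^ (k + 1 + 1) := by ring

theorem lvB_sq (u : ℝ) : lvB u ^ 2 = u ^ 2 * (Real.sin (lvTh u) ^ 2 - Real.sin (lvTh (u / 2)) ^ 2) := by
  have h1 : Real.sin (lvTh u) ^ 2 * Real.sin (lvTh (u / 2)) ^ 2 = Real.sin (lvTh (u / 2)) ^ 2 := by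
    rcases le_total |u| 2 with h | h
    · have h2 : |u / 2| ≤ 1 := by rw [abs_div, abs_two]; linarith
      rw [lvTh_zero h2, Real.sin_zero]
      ring
    · rw [lvTh_pi h, Real.sin_pi_div_two]
      ring
  have h2 := Real.sin_sq_add_cos_sq (lvTh (u / 2))
  unfold lvB
  have h3 : Real.cos (lvTh (u / 2)) ^ 2 = 1 - Real.sin (lvTh (u / 2)) ^ 2 := by linarith
  rw [mul_pow, mul_pow, h3]
  linear_combination -(u ^ 2) * h1

theorem lvG_sum (K : ℕ) (u : ℝ) :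
    ∑ k ∈ Finset.range (K + 1), lvG k u ^ 2 = u ^ 2 * (1 - Real.sin (lvTh (u / 2 ^ K)) ^ 2) := by
  induction K with
  | zero =>
    rw [Finset.sum_range_one]
    show lvA u ^ 2 = _
    unfold lvA
    have h2 := Real.sin_sq_add_cos_sq (lvTh u)
    rw [mul_pow, pow_zero, div_one]
    congr 1
    linarith
  | succ K ih =>
    rw [Finset.sum_range_succ, ih]
    show _ + (2 ^ K * lvB (u / 2 ^ K)) ^ 2 = _
    rw [mul_pow, lvB_sq]
    have h1 : u / 2 ^ K / 2 = u / 2 ^ (K + 1) := by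
      rw [pow_succ]
      field_simp
    rw [h1]
    have h2 : (2 : ℝ) ^ K ≠ 0 := by positivity
    field_simp
    ring

theorem lvG_sum' (K : ℕ) (u : ℝ) (h : |u| ≤ 2 ^ K) :
    ∑ k ∈ Finset.range (K + 1), lvG k u ^ 2 = u ^ 2 := by
  have h1 : |u / 2 ^ K| ≤ 1 := by
    rw [abs_div, abs_of_pos (by positivity : (0 : ℝ) < 2 ^ K)]
    exact (div_le_one (by positivity)).2 h
  rw [lvG_sum, lvTh_zero h1, Real.sin_zero]
  ring

theorem lv_tel (a : ℕ → ℝ) (h0 : ∀ k, 0 ≤ a k) (h1 : ∀ k, a k ≤ 1) (K : ℕ) :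
    ∑ k ∈ Finset.range K, (a k - a (k + 3)) ≤ 3 := by
  have h2 : ∑ k ∈ Finset.range K, (a k - a (k + 3)) =
      a 0 + a 1 + a 2 - (a K + a (K + 1) + a (K + 2)) := by
    induction K with
    | zero => simp
    | succ K ih =>
      rw [Finset.sum_range_succ, ih]
      ring
  rw [h2]
  have := h0 K
  have := h0 (K + 1)
  have := h0 (K + 2)
  have := h1 0
  have := h1 1
  have := h1 2
  linarith

theorem lvG_deriv : ∃ M : ℝ, 0 ≤ M ∧ ∀ (K : ℕ) (u : ℝ),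
    ∑ k ∈ Finset.range (K + 1), (deriv (lvG k) u) ^ 2 ≤ M := by
  obtain ⟨M0, hM0, hA⟩ := lv_deriv_bdd lvA_smooth 2 (fun u hu => lvA_zero hu)
  obtain ⟨M1, hM1, hB⟩ := lv_deriv_bdd lvB_smooth 4 (fun u hu => lvB_zero' hu)
  refine ⟨M0 + M1 * 3, by positivity, fun K u => ?_⟩
  rw [Finset.sum_range_succ']
  have h0 : deriv (lvG 0) u ^ 2 ≤ M0 := hA u
  have hd : ∀ k, deriv (lvG (k + 1)) u = deriv lvB (u / 2 ^ k) := by
    intro k
    have h1 : HasDerivAt lvB (deriv lvB (u / 2 ^ k)) (u / 2 ^ k) :=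
      ((lvB_smooth.differentiable (by simp)) _).hasDerivAt
    have h2 : HasDerivAt (fun v : ℝ => v / 2 ^ k) (1 / 2 ^ k) u := (hasDerivAt_id u).div_const _
    have h3 := (h1.comp u h2).const_mul ((2 : ℝ) ^ k)
    have h4 : HasDerivAt (lvG (k + 1)) (2 ^ k * (deriv lvB (u / 2 ^ k) * (1 / 2 ^ k))) u := h3
    rw [h4.deriv]
    field_simp
  have hs : ∑ k ∈ Finset.range K, (deriv (lvG (k + 1)) u) ^ 2 ≤ M1 * 3 := by
    let a : ℕ → ℝ := fun k => if (2 : ℝ) ^ k ≤ |u| then 1 else 0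
    have ha0 : ∀ k, 0 ≤ a k := by
      intro k
      show 0 ≤ (if (2 : ℝ) ^ k ≤ |u| then (1 : ℝ) else 0)
      split_ifs <;> norm_num
    have ha1 : ∀ k, a k ≤ 1 := by
      intro k
      show (if (2 : ℝ) ^ k ≤ |u| then (1 : ℝ) else 0) ≤ 1
      split_ifs <;> norm_num
    have hanti : ∀ k, a (k + 3) ≤ a k := by
      intro k
      show (if (2 : ℝ) ^ (k + 3) ≤ |u| then (1 : ℝ) else 0) ≤
        (if (2 : ℝ) ^ k ≤ |u| then (1 : ℝ) else 0)
      by_cases h : (2 : ℝ) ^ (k + 3) ≤ |u|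
      · have h2 : (2 : ℝ) ^ k ≤ |u| :=
          (pow_le_pow_right₀ (by norm_num) (by omega)).trans h
        rw [if_pos h, if_pos h2]
      · rw [if_neg h]
        split_ifs <;> norm_num
    have hk : ∀ k ∈ Finset.range K, (deriv (lvG (k + 1)) u) ^ 2 ≤ M1 * (a k - a (k + 3)) := by
      intro k _
      rw [hd]
      have hp : (0 : ℝ) < 2 ^ k := by positivity
      have habs : |u / 2 ^ k| = |u| / 2 ^ k := by rw [abs_div, abs_of_pos hp]
      by_cases h : |u / 2 ^ k| < 1 ∨ 4 < |u / 2 ^ k|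
      · rw [lvB_deriv_zero h]
        have := hanti k
        have h5 : 0 ≤ M1 * (a k - a (k + 3)) := mul_nonneg hM1 (by linarith)
        simpa using h5
      · push Not at h
        rw [habs] at h
        have h1 : (2 : ℝ) ^ k ≤ |u| := (one_le_div hp).1 h.1
        have h2 : ¬ (2 : ℝ) ^ (k + 3) ≤ |u| := by
          have h3 := (div_le_iff₀ hp).1 h.2
          intro h4
          rw [pow_add] at h4
          nlinarith
        have e1 : a k = 1 := if_pos h1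
        have e2 : a (k + 3) = 0 := if_neg h2
        rw [e1, e2, sub_zero, mul_one]
        exact hB _
    calc ∑ k ∈ Finset.range K, (deriv (lvG (k + 1)) u) ^ 2
        ≤ ∑ k ∈ Finset.range K, M1 * (a k - a (k + 3)) := Finset.sum_le_sum hk
      _ = M1 * ∑ k ∈ Finset.range K, (a k - a (k + 3)) := by rw [Finset.mul_sum]
      _ ≤ M1 * 3 := mul_le_mul_of_nonneg_left (lv_tel a ha0 ha1 K) hM1
  linarith

theorem lv_sq_le (k : ℕ) : (k : ℝ) ^ 2 ≤ 9 * 2 ^ k := by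
  have h : ∀ k : ℕ, k ^ 2 ≤ 9 * 2 ^ k ∧ 2 * k + 1 ≤ 9 * 2 ^ k := by
    intro k
    induction k with
    | zero => norm_num
    | succ k ih =>
      rw [pow_succ 2 k]
      have : (k + 1) ^ 2 = k ^ 2 + (2 * k + 1) := by ring
      omega
  exact_mod_cast (h k).1

theorem lvG_big {k : ℕ} {u : ℝ} (h : lvG k u ≠ 0) :
    3 * (k : ℝ) + 2 ≤ 9 * (u ^ 2) ^ ((1 : ℝ) / 4) + 5 := by
  have h0 : (0 : ℝ) ≤ (u ^ 2) ^ ((1 : ℝ) / 4) := Real.rpow_nonneg (sq_nonneg _) _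
  cases k with
  | zero => norm_num; linarith
  | succ k =>
    have h1 : lvB (u / 2 ^ k) ≠ 0 := by
      intro h2
      apply h
      show 2 ^ k * lvB (u / 2 ^ k) = 0
      rw [h2, mul_zero]
    have h2 : (2 : ℝ) ^ k ≤ |u| := by
      by_contra h3
      push Not at h3
      apply h1
      apply lvB_zero
      rw [abs_div, abs_of_pos (by positivity : (0 : ℝ) < 2 ^ k)]
      exact (div_le_one (by positivity)).2 h3.le
    have h3 : ((k : ℝ) / 3) ^ 4 ≤ u ^ 2 := by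
      have e1 := lv_sq_le k
      have e2 : ((k : ℝ) / 3) ^ 2 ≤ 2 ^ k := by
        rw [div_pow]
        linarith
      have e3 : ((k : ℝ) / 3) ^ 2 ≤ |u| := e2.trans h2
      calc ((k : ℝ) / 3) ^ 4 = (((k : ℝ) / 3) ^ 2) ^ 2 := by ring
        _ ≤ |u| ^ 2 := pow_le_pow_left₀ (sq_nonneg _) e3 2
        _ = u ^ 2 := sq_abs u
    have h4 : (k : ℝ) / 3 ≤ (u ^ 2) ^ ((1 : ℝ) / 4) := by
      have e1 : (((k : ℝ) / 3) ^ 4) ^ ((1 : ℝ) / 4) ≤ (u ^ 2) ^ ((1 : ℝ) / 4) :=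
        Real.rpow_le_rpow (by positivity) h3 (by norm_num)
      have e2 : (((k : ℝ) / 3) ^ 4) ^ ((1 : ℝ) / 4) = (k : ℝ) / 3 := by
        rw [← Real.rpow_natCast, ← Real.rpow_mul (by positivity)]
        norm_num
      rwa [e2] at e1
    push_cast
    linarith

theorem lv_log {A w t : ℝ} (hA : 0 < A) (hw : 0 < w) (ht : 0 ≤ t) :
    t * Real.log (A / t) ≤ t * Real.log (A / w) + w := by
  rcases ht.eq_or_lt with h | h
  · rw [← h]
    simp
    exact hw.le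
  · have h1 : Real.log (A / t) = Real.log (A / w) + Real.log (w / t) := by
      rw [← Real.log_mul (by positivity) (by positivity)]
      congr 1
      field_simp
    have h2 : Real.log (w / t) ≤ w / t - 1 := Real.log_le_sub_one_of_pos (by positivity)
    have h3 : t * Real.log (w / t) ≤ t * (w / t - 1) := mul_le_mul_of_nonneg_left h2 h.le
    have h4 : t * (w / t - 1) = w - t := by field_simp
    rw [h1, mul_add]
    linarith

theorem lv_log2 (k : ℕ) {lam : ℝ} (hl : 0 < lam) :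
    Real.log (4 ^ (k + 1) * lam / (lam / 2 ^ k)) ≤ 3 * (k : ℝ) + 2 := by
  have h1 : 4 ^ (k + 1) * lam / (lam / 2 ^ k) = (2 : ℝ) ^ (3 * k + 2) := by
    have : (4 : ℝ) = 2 ^ 2 := by norm_num
    rw [this, ← pow_mul]
    field_simp
    ring
  rw [h1, Real.log_pow]
  have h2 : Real.log 2 ≤ 1 := by
    have := Real.log_two_lt_d9
    linarith
  push_cast
  have h3 : (0 : ℝ) ≤ 3 * (k : ℝ) + 2 := by positivity
  calc (3 * (k : ℝ) + 2) * Real.log 2 ≤ (3 * (k : ℝ) + 2) * 1 :=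
        mul_le_mul_of_nonneg_left h2 h3
    _ = _ := mul_one _

theorem lv_sum4 (K : ℕ) : ∑ k ∈ Finset.range (K + 1), (4 : ℝ) ^ (k + 1) ≤ 16 / 3 * 4 ^ K := by
  have h : ∑ k ∈ Finset.range (K + 1), (4 : ℝ) ^ (k + 1) = 16 / 3 * 4 ^ K - 4 / 3 := by
    induction K with
    | zero => norm_num
    | succ K ih =>
      rw [Finset.sum_range_succ, ih]
      ring
  rw [h]
  linarith

theorem lv_sum2 (K : ℕ) (lam : ℝ) (hl : 0 < lam) :
    ∑ k ∈ Finset.range (K + 1), lam / 2 ^ k ≤ 2 * lam := by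
  have h : ∑ k ∈ Finset.range (K + 1), lam / 2 ^ k = 2 * lam - lam / 2 ^ K := by
    induction K with
    | zero => norm_num; ring
    | succ K ih =>
      rw [Finset.sum_range_succ, ih, pow_succ]
      field_simp
      ring
  rw [h]
  have : 0 < lam / 2 ^ K := by positivity
  linarith

theorem lv_exists (B μ : ℝ) (hμ : 0 < μ) : ∃ K : ℕ, B ≤ 2 ^ K * μ ∧
    4 ^ K * μ ^ 2 ≤ 4 * B ^ 2 + μ ^ 2 := by
  classical
  have hex : ∃ K : ℕ, B ≤ 2 ^ K * μ := by
    obtain ⟨K, hK⟩ := pow_unbounded_of_one_lt (B / μ) (by norm_num : (1 : ℝ) < 2)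
    exact ⟨K, ((div_lt_iff₀ hμ).1 hK).le⟩
  refine ⟨Nat.find hex, Nat.find_spec hex, ?_⟩
  obtain ⟨K, hK⟩ : ∃ K, K = Nat.find hex := ⟨_, rfl⟩
  rw [← hK]
  cases K with
  | zero => nlinarith [sq_nonneg B]
  | succ K =>
    have h1 : ¬ B ≤ 2 ^ K * μ := Nat.find_min hex (by omega)
    push Not at h1
    have h2 : (2 ^ K * μ) ^ 2 ≤ B ^ 2 := pow_le_pow_left₀ (by positivity) h1.le 2
    have h3 : (4 : ℝ) ^ (K + 1) * μ ^ 2 = 4 * (2 ^ K * μ) ^ 2 := by
      rw [mul_pow, ← pow_mul, mul_comm K 2, pow_mul]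
      norm_num
      ring
    rw [h3]
    nlinarith [sq_nonneg μ]

section lvaux

variable {S : Type} (D : Species S) {I : Type} [Fintype I] [DecidableEq I] (sp : I → S)

theorem lv_WI_bdd (ℓ : ℝ) {f V : (I → E3) → ℝ} (hf : Continuous f) (B : ℝ)
    (hB : ∀ x, |f x| ≤ B) (hV : WI D sp ℓ V) : WI D sp ℓ (fun x => f x * V x) := by
  intro Ψ hΨ τ
  have h := (hV Ψ hΨ τ).bdd_mul hf.aestronglyMeasurable
    (Filter.Eventually.of_forall fun x => (by rw [Real.norm_eq_abs]; exact hB x : ‖f x‖ ≤ B))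
  refine h.congr (Filter.Eventually.of_forall fun x => ?_)
  simp only
  ring

theorem lv_WI_cont (ℓ : ℝ) {f : (I → E3) → ℝ} (hf : Continuous f) : WI D sp ℓ f := by
  intro Ψ hΨ τ
  have h2 : Continuous (fun x => ‖Ψ τ x‖ ^ 2) := ((hΨ.smooth τ).continuous.norm).pow 2
  have h3 : HasCompactSupport (fun x => ‖Ψ τ x‖ ^ 2) :=
    (hΨ.compact τ).comp_left (g := fun z : ℂ => ‖z‖ ^ 2) (by simp)
  exact (hf.mul h2).integrable_of_hasCompactSupport h3.mul_left

omit [DecidableEq I] in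
theorem lv_gr_cont [DecidableEq I] {f : (I → E3) → ℝ} (hf : ContDiff ℝ SM f) :
    Continuous (gr f) := by
  unfold gr
  refine continuous_finsetSum _ fun i _ => continuous_finsetSum _ fun k _ => ?_
  exact ((hf.continuous_fderiv (by simp)).clm_apply continuous_const).pow 2

theorem lv_gr_comp {f : (I → E3) → ℝ} (hf : ContDiff ℝ SM f) {g : ℝ → ℝ}
    (hg : ContDiff ℝ SM g) {μ : ℝ} (hμ : 0 < μ) (x : I → E3) :
    gr (fun x => μ * g (f x / μ)) x = (deriv g (f x / μ)) ^ 2 * gr f x := by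
  have h1 : HasFDerivAt f (fderiv ℝ f x) x := ((hf.differentiable (by simp)) x).hasFDerivAt
  have h2 : HasDerivAt g (deriv g (f x / μ)) (f x / μ) :=
    ((hg.differentiable (by simp)) _).hasDerivAt
  have h3 : HasDerivAt (fun u : ℝ => μ * g (u / μ)) (deriv g (f x / μ)) (f x) := by
    have h4 : HasDerivAt (fun u : ℝ => u / μ) (1 / μ) (f x) := (hasDerivAt_id (f x)).div_const _
    have h5 := (h2.comp (f x) h4).const_mul μ
    have h6 : μ * (deriv g (f x / μ) * (1 / μ)) = deriv g (f x / μ) := by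
      field_simp
    rw [h6] at h5
    exact h5
  have h7 : HasFDerivAt (fun x => μ * g (f x / μ)) (deriv g (f x / μ) • fderiv ℝ f x) x :=
    h3.comp_hasFDerivAt x h1
  unfold gr
  rw [h7.fderiv, Finset.mul_sum]
  refine Finset.sum_congr rfl fun i _ => ?_
  rw [Finset.mul_sum]
  refine Finset.sum_congr rfl fun k _ => ?_
  rw [_root_.smul_apply, smul_eq_mul, mul_pow]

theorem lv_gr_nonneg (f : (I → E3) → ℝ) (x : I → E3) : 0 ≤ gr f x :=
  Finset.sum_nonneg fun _ _ => Finset.sum_nonneg fun _ _ => sq_nonneg _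

variable {k : ℕ} (p : Fin k → ℝ) (ψ : Fin k → Wave D I)

theorem lv_wx_add (ℓ : ℝ) {V W : (I → E3) → ℝ} (hV : WI D sp ℓ V) (hW : WI D sp ℓ W)
    (hψ : ∀ j, IsState D sp ℓ (ψ j)) :
    wx D p ψ (fun x => V x + W x) = wx D p ψ V + wx D p ψ W := by
  unfold wx
  rw [← Finset.sum_add_distrib]
  refine Finset.sum_congr rfl fun j _ => ?_
  rw [wm_add D sp ℓ hV hW (ψ j) (hψ j)]
  ring

theorem lv_wx_smul (V : (I → E3) → ℝ) (c : ℝ) :
    wx D p ψ (fun x => c * V x) = c * wx D p ψ V := by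
  unfold wx
  rw [Finset.mul_sum]
  refine Finset.sum_congr rfl fun j _ => ?_
  rw [wm_smul D V c (ψ j)]
  ring

theorem lv_wx_sum (ℓ : ℝ) {A : Type} (s : Finset A) (V : A → (I → E3) → ℝ)
    (hV : ∀ a ∈ s, WI D sp ℓ (V a)) (hψ : ∀ j, IsState D sp ℓ (ψ j)) :
    wx D p ψ (fun x => ∑ a ∈ s, V a x) = ∑ a ∈ s, wx D p ψ (V a) := by
  unfold wx
  rw [Finset.sum_comm]
  refine Finset.sum_congr rfl fun j _ => ?_
  rw [wm_sum D sp ℓ s V hV (ψ j) (hψ j), Finset.mul_sum]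

theorem lv_wx_mono (ℓ : ℝ) {V W : (I → E3) → ℝ} (hV : WI D sp ℓ V) (hW : WI D sp ℓ W)
    (hψ : ∀ j, IsState D sp ℓ (ψ j)) (hp : ∀ j, 0 ≤ p j) (h : ∀ x, V x ≤ W x) :
    wx D p ψ V ≤ wx D p ψ W := by
  unfold wx
  refine Finset.sum_le_sum fun j _ => ?_
  exact mul_le_mul_of_nonneg_left
    (wm_mono D sp ℓ hV hW (ψ j) (hψ j) (Filter.Eventually.of_forall h)) (hp j)

theorem lv_wx_nonneg {V : (I → E3) → ℝ} (hp : ∀ j, 0 ≤ p j) (h : ∀ x, 0 ≤ V x) :
    0 ≤ wx D p ψ V := by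
  unfold wx wm
  exact Finset.sum_nonneg fun j _ => mul_nonneg (hp j) (Finset.sum_nonneg fun τ _ =>
    integral_nonneg fun x => mul_nonneg (h x) (sq_nonneg _))

theorem lv_wx_congr {V W : (I → E3) → ℝ} (h : ∀ x, V x = W x) : wx D p ψ V = wx D p ψ W := by
  have : V = W := funext h
  rw [this]

end lvaux

/-- TARGET -/
theorem flt_levels : ∃ C₀ : ℝ, 0 < C₀ ∧ ∀ (C : ℝ), 0 < C →
    ∀ {S : Type} (D : Species S) {I : Type} [Fintype I] [DecidableEq I] (sp : I → S) (ℓ : ℝ)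
      (pb : (I → E3) → ℝ), WI D sp ℓ pb → ∀ η : ℝ, 0 ≤ η → η ≤ 1 →
      ∀ {k : ℕ} (p : Fin k → ℝ) (ψ : Fin k → Wave D I), (∀ j, 0 ≤ p j) → ∑ j, p j = 1 →
      (∀ j, IsState D sp ℓ (ψ j)) → (∀ j, nrm2 D (ψ j) = 1) →
      ∀ (r : ℝ) (ω : E3), 0 < r → r ≤ 1 →
      (∀ (f : (I → E3) → ℝ) (B : ℝ), ContDiff ℝ SM f → Sy sp f → (∀ x, |f x| ≤ B) →
        |wx D p ψ (fun x => f x ^ 2 * (phi D sp ω x - pb x))| ≤
          C / r ^ 2 * (wx D p ψ (fun x => f x ^ 2 * (1 + near2 ω x)) + wx D p ψ (gr f) +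
            B ^ 2 * η) + C * (wx D p ψ (fun x => f x ^ 2) *
              Real.log (B ^ 2 / wx D p ψ (fun x => f x ^ 2)))) →
      ∀ (f : (I → E3) → ℝ) (B lam : ℝ), 0 < lam → ContDiff ℝ SM f → Sy sp f →
        (∀ x, |f x| ≤ B) →
        |wx D p ψ (fun x => f x ^ 2 * (phi D sp ω x - pb x))| ≤
          C₀ * C / r ^ 2 * (wx D p ψ (fun x => f x ^ 2 * (1 + near2 ω x)) + wx D p ψ (gr f) +
            wx D p ψ (fun x => f x ^ 2 * (f x ^ 2 / lam) ^ ((1 : ℝ) / 4)) + lam + B ^ 2 * η) := by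
  obtain ⟨M, hM0, hM⟩ := lvG_deriv
  refine ⟨M + 30, by positivity, ?_⟩
  intro C hC S D I _ _ sp ℓ pb hpb η hη0 hη1 n p ψ hp _ hψ _ r ω hr hr1 H f B lam hlam hf hs hB
  -- scales
  obtain ⟨μ, hμ, hμ2⟩ : ∃ μ : ℝ, 0 < μ ∧ μ ^ 2 = lam :=
    ⟨Real.sqrt lam, Real.sqrt_pos.2 hlam, Real.sq_sqrt hlam.le⟩
  obtain ⟨K, hK1, hK2⟩ := lv_exists B μ hμ
  rw [hμ2] at hK2
  -- the pieces
  obtain ⟨F, hF⟩ : ∃ F : ℕ → (I → E3) → ℝ, ∀ m x, F m x = μ * lvG m (f x / μ) :=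
    ⟨fun m x => μ * lvG m (f x / μ), fun _ _ => rfl⟩
  have hF' : ∀ m, F m = fun x => μ * lvG m (f x / μ) := fun m => funext (hF m)
  have hFs : ∀ m, ContDiff ℝ SM (F m) := by
    intro m
    rw [hF']
    exact contDiff_const.mul ((lvG_smooth m).comp (hf.div_const μ))
  have hFy : ∀ m, Sy sp (F m) := by
    intro m i j x hij
    rw [hF, hF, hs i j x hij]
  have hFb : ∀ m x, |F m x| ≤ 2 ^ (m + 1) * μ := by
    intro m x
    rw [hF, abs_mul, abs_of_pos hμ, mul_comm]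
    exact mul_le_mul_of_nonneg_right (lvG_le m _) hμ.le
  have hsum : ∀ x, ∑ m ∈ Finset.range (K + 1), F m x ^ 2 = f x ^ 2 := by
    intro x
    have h1 : |f x / μ| ≤ 2 ^ K := by
      rw [abs_div, abs_of_pos hμ]
      exact (div_le_iff₀ hμ).2 ((hB x).trans hK1)
    have h2 := lvG_sum' K (f x / μ) h1
    simp only [hF, mul_pow]
    rw [← Finset.mul_sum, h2, div_pow]
    field_simp
  have hgr : ∀ m x, gr (F m) x = (deriv (lvG m) (f x / μ)) ^ 2 * gr f x := by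
    intro m x
    rw [hF']
    exact lv_gr_comp hf (lvG_smooth m) hμ x
  -- integrability
  have hphi : WI D sp ℓ (phi D sp ω) := WI_phi D sp ℓ ω
  have hV : WI D sp ℓ (fun x => phi D sp ω x - pb x) := by
    have h1 := WI_add D sp ℓ hphi (WI_smul D sp ℓ hpb (-1))
    intro Ψ hΨ τ
    refine (h1 Ψ hΨ τ).congr (Filter.Eventually.of_forall fun x => ?_)
    simp only
    ring
  have hN : WI D sp ℓ (fun x => 1 + near2 ω x) :=
    WI_add D sp ℓ (WI_const D sp ℓ 1) (WI_near2 D sp ℓ ω)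
  have hFc : ∀ m, Continuous fun x => F m x ^ 2 := fun m => (hFs m).continuous.pow 2
  have hFsq : ∀ m x, |F m x ^ 2| ≤ (2 ^ (m + 1) * μ) ^ 2 := by
    intro m x
    rw [abs_of_nonneg (sq_nonneg _), ← sq_abs]
    exact pow_le_pow_left₀ (abs_nonneg _) (hFb m x) 2
  have hFV : ∀ m, WI D sp ℓ (fun x => F m x ^ 2 * (phi D sp ω x - pb x)) := fun m =>
    lv_WI_bdd D sp ℓ (hFc m) _ (hFsq m) hV
  have hFN : ∀ m, WI D sp ℓ (fun x => F m x ^ 2 * (1 + near2 ω x)) := fun m =>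
    lv_WI_bdd D sp ℓ (hFc m) _ (hFsq m) hN
  have hq : Continuous fun x => (f x ^ 2 / lam) ^ ((1 : ℝ) / 4) := by
    refine Continuous.rpow_const ((hf.continuous.pow 2).div_const lam) fun x => ?_
    right
    norm_num
  have hfq : WI D sp ℓ (fun x => f x ^ 2 * (f x ^ 2 / lam) ^ ((1 : ℝ) / 4)) :=
    lv_WI_cont D sp ℓ ((hf.continuous.pow 2).mul hq)
  have hf2 : WI D sp ℓ (fun x => f x ^ 2) := lv_WI_cont D sp ℓ (hf.continuous.pow 2)
  have hFq : ∀ m, WI D sp ℓ (fun x => F m x ^ 2 * (9 * (f x ^ 2 / lam) ^ ((1 : ℝ) / 4) + 5)) :=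
    fun m => lv_WI_cont D sp ℓ ((hFc m).mul ((continuous_const.mul hq).add continuous_const))
  have hfN : WI D sp ℓ (fun x => f x ^ 2 * (1 + near2 ω x)) := by
    refine lv_WI_bdd D sp ℓ (hf.continuous.pow 2) (B ^ 2) (fun x => ?_) hN
    rw [abs_of_nonneg (sq_nonneg _), ← sq_abs]
    exact pow_le_pow_left₀ (abs_nonneg _) (hB x) 2
  -- names
  obtain ⟨X, hX⟩ : ∃ X, X = wx D p ψ (fun x => f x ^ 2 * (1 + near2 ω x)) := ⟨_, rfl⟩
  obtain ⟨Y, hY⟩ : ∃ Y, Y = wx D p ψ (gr f) := ⟨_, rfl⟩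
  obtain ⟨Q, hQ⟩ : ∃ Q, Q = wx D p ψ (fun x => f x ^ 2 * (f x ^ 2 / lam) ^ ((1 : ℝ) / 4)) :=
    ⟨_, rfl⟩
  have hX0 : 0 ≤ X := by
    rw [hX]
    exact lv_wx_nonneg D p ψ hp fun x =>
      mul_nonneg (sq_nonneg _) (by have := near2_nonneg ω x; linarith)
  have hY0 : 0 ≤ Y := by
    rw [hY]
    exact lv_wx_nonneg D p ψ hp fun x => lv_gr_nonneg f x
  have hQ0 : 0 ≤ Q := by
    rw [hQ]
    exact lv_wx_nonneg D p ψ hp fun x =>
      mul_nonneg (sq_nonneg _) (Real.rpow_nonneg (by positivity) _)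
  have hX1 : wx D p ψ (fun x => f x ^ 2) ≤ X := by
    rw [hX]
    refine lv_wx_mono D sp p ψ ℓ hf2 hfN hψ hp fun x => ?_
    have h1 := near2_nonneg ω x
    have h2 := sq_nonneg (f x)
    nlinarith
  -- sums
  have s1 : ∑ m ∈ Finset.range (K + 1), wx D p ψ (fun x => F m x ^ 2 * (1 + near2 ω x)) = X := by
    rw [← lv_wx_sum D sp p ψ ℓ _ _ (fun m _ => hFN m) hψ, hX]
    refine lv_wx_congr D p ψ fun x => ?_
    rw [← Finset.sum_mul, hsum]
  have s2 : ∑ m ∈ Finset.range (K + 1), wx D p ψ (gr (F m)) ≤ M * Y := by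
    rw [← lv_wx_sum D sp p ψ ℓ _ (fun m => gr (F m))
      (fun m _ => lv_WI_cont D sp ℓ (lv_gr_cont (hFs m))) hψ, hY, ← lv_wx_smul]
    refine lv_wx_mono D sp p ψ ℓ (WI_sum D sp ℓ _ _
      (fun m _ => lv_WI_cont D sp ℓ (lv_gr_cont (hFs m))))
      (WI_smul D sp ℓ (lv_WI_cont D sp ℓ (lv_gr_cont hf)) M) hψ hp fun x => ?_
    simp only [hgr]
    rw [← Finset.sum_mul]
    exact mul_le_mul_of_nonneg_right (hM K _) (lv_gr_nonneg f x)
  have s3 : ∑ m ∈ Finset.range (K + 1), (2 ^ (m + 1) * μ) ^ 2 ≤ 22 * (B ^ 2 + lam) := by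
    have e1 : ∀ m ∈ Finset.range (K + 1), (2 ^ (m + 1) * μ) ^ 2 = 4 ^ (m + 1) * lam := by
      intro m _
      rw [mul_pow, hμ2, ← pow_mul, mul_comm (m + 1) 2, pow_mul]
      norm_num
    rw [Finset.sum_congr rfl e1, ← Finset.sum_mul]
    have e2 := mul_le_mul_of_nonneg_right (lv_sum4 K) hlam.le
    nlinarith
  have s4 : ∑ m ∈ Finset.range (K + 1), wx D p ψ (fun x => F m x ^ 2 *
      (9 * (f x ^ 2 / lam) ^ ((1 : ℝ) / 4) + 5)) ≤ 9 * Q + 5 * X := by
    rw [← lv_wx_sum D sp p ψ ℓ _ _ (fun m _ => hFq m) hψ]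
    have e1 : wx D p ψ (fun x => ∑ m ∈ Finset.range (K + 1), F m x ^ 2 *
        (9 * (f x ^ 2 / lam) ^ ((1 : ℝ) / 4) + 5)) =
        wx D p ψ (fun x => 9 * (f x ^ 2 * (f x ^ 2 / lam) ^ ((1 : ℝ) / 4)) + 5 * f x ^ 2) := by
      refine lv_wx_congr D p ψ fun x => ?_
      rw [← Finset.sum_mul, hsum]
      ring
    rw [e1, lv_wx_add D sp p ψ ℓ (WI_smul D sp ℓ hfq 9) (WI_smul D sp ℓ hf2 5) hψ,
      lv_wx_smul, lv_wx_smul, ← hQ]
    linarith
  -- each piece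
  have hpiece : ∀ m ∈ Finset.range (K + 1),
      |wx D p ψ (fun x => F m x ^ 2 * (phi D sp ω x - pb x))| ≤
        C / r ^ 2 * (wx D p ψ (fun x => F m x ^ 2 * (1 + near2 ω x)) + wx D p ψ (gr (F m)) +
          (2 ^ (m + 1) * μ) ^ 2 * η) + C * (wx D p ψ (fun x => F m x ^ 2 *
            (9 * (f x ^ 2 / lam) ^ ((1 : ℝ) / 4) + 5)) + lam / 2 ^ m) := by
    intro m _
    refine (H (F m) (2 ^ (m + 1) * μ) (hFs m) (hFy m) (hFb m)).trans ?_
    have ht : 0 ≤ wx D p ψ (fun x => F m x ^ 2) :=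
      lv_wx_nonneg D p ψ hp fun x => sq_nonneg _
    have hB2 : (2 ^ (m + 1) * μ) ^ 2 = 4 ^ (m + 1) * lam := by
      rw [mul_pow, hμ2, ← pow_mul, mul_comm (m + 1) 2, pow_mul]
      norm_num
    have e1 := lv_log (A := (2 ^ (m + 1) * μ) ^ 2) (w := lam / 2 ^ m) (by positivity)
      (by positivity) ht
    have e2 : Real.log ((2 ^ (m + 1) * μ) ^ 2 / (lam / 2 ^ m)) ≤ 3 * (m : ℝ) + 2 := by
      rw [hB2]
      exact lv_log2 m hlam
    have e3 := mul_le_mul_of_nonneg_left e2 ht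
    have e4 : wx D p ψ (fun x => F m x ^ 2) * (3 * (m : ℝ) + 2) ≤
        wx D p ψ (fun x => F m x ^ 2 * (9 * (f x ^ 2 / lam) ^ ((1 : ℝ) / 4) + 5)) := by
      rw [mul_comm, ← lv_wx_smul]
      refine lv_wx_mono D sp p ψ ℓ (WI_smul D sp ℓ (lv_WI_cont D sp ℓ (hFc m)) _) (hFq m)
        hψ hp fun x => ?_
      by_cases h0 : lvG m (f x / μ) = 0
      · rw [hF, h0]
        simp
      · have h1 := lvG_big h0
        have h2 : (f x / μ) ^ 2 = f x ^ 2 / lam := by rw [div_pow, hμ2]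
        rw [h2] at h1
        rw [mul_comm]
        exact mul_le_mul_of_nonneg_left h1 (sq_nonneg _)
    have e5 : wx D p ψ (fun x => F m x ^ 2) *
        Real.log ((2 ^ (m + 1) * μ) ^ 2 / wx D p ψ (fun x => F m x ^ 2)) ≤
        wx D p ψ (fun x => F m x ^ 2 * (9 * (f x ^ 2 / lam) ^ ((1 : ℝ) / 4) + 5)) +
          lam / 2 ^ m := by linarith
    have e6 := mul_le_mul_of_nonneg_left e5 hC.le
    linarith
  -- the sum
  have hsplit : wx D p ψ (fun x => f x ^ 2 * (phi D sp ω x - pb x)) =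
      ∑ m ∈ Finset.range (K + 1), wx D p ψ (fun x => F m x ^ 2 * (phi D sp ω x - pb x)) := by
    rw [← lv_wx_sum D sp p ψ ℓ _ _ (fun m _ => hFV m) hψ]
    refine lv_wx_congr D p ψ fun x => ?_
    rw [← Finset.sum_mul, hsum]
  have htot : |wx D p ψ (fun x => f x ^ 2 * (phi D sp ω x - pb x))| ≤
      C / r ^ 2 * (X + M * Y + 22 * (B ^ 2 + lam) * η) + C * (9 * Q + 5 * X + 2 * lam) := by
    rw [hsplit]
    refine (Finset.abs_sum_le_sum_abs _ _).trans ((Finset.sum_le_sum hpiece).trans ?_)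
    rw [Finset.sum_add_distrib, ← Finset.mul_sum, ← Finset.mul_sum, Finset.sum_add_distrib,
      Finset.sum_add_distrib, Finset.sum_add_distrib, s1, ← Finset.sum_mul]
    have h1 : 0 ≤ C / r ^ 2 := by positivity
    have h2 := lv_sum2 K lam hlam
    have h3 := mul_le_mul_of_nonneg_right s3 hη0
    have h4 : X + ∑ m ∈ Finset.range (K + 1), wx D p ψ (gr (F m)) +
        (∑ m ∈ Finset.range (K + 1), (2 ^ (m + 1) * μ) ^ 2) * η ≤
        X + M * Y + 22 * (B ^ 2 + lam) * η := by linarith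
    exact add_le_add (mul_le_mul_of_nonneg_left h4 h1)
      (mul_le_mul_of_nonneg_left (add_le_add s4 h2) hC.le)
  refine htot.trans ?_
  rw [← hX, ← hY, ← hQ]
  have hr2 : C ≤ C / r ^ 2 := by
    rw [le_div_iff₀ (by positivity)]
    have : r ^ 2 ≤ 1 := by nlinarith
    nlinarith
  have h0 : 0 ≤ 9 * Q + 5 * X + 2 * lam := by positivity
  have h1 := mul_le_mul_of_nonneg_right hr2 h0
  have h2 : lam * η ≤ lam := by nlinarith
  have h3 : 0 ≤ B ^ 2 * η := by positivity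
  have h4 : X + M * Y + 22 * (B ^ 2 + lam) * η + (9 * Q + 5 * X + 2 * lam) ≤
      (M + 30) * (X + Y + Q + lam + B ^ 2 * η) := by
    have a1 : 0 ≤ M * X := by positivity
    have a2 : 0 ≤ M * Q := by positivity
    have a3 : 0 ≤ M * lam := by positivity
    have a4 : 0 ≤ M * (B ^ 2 * η) := by positivity
    nlinarith
  have h5 : 0 ≤ C / r ^ 2 := by positivity
  calc C / r ^ 2 * (X + M * Y + 22 * (B ^ 2 + lam) * η) + C * (9 * Q + 5 * X + 2 * lam)
      ≤ C / r ^ 2 * (X + M * Y + 22 * (B ^ 2 + lam) * η) +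
        C / r ^ 2 * (9 * Q + 5 * X + 2 * lam) := by linarith
    _ = C / r ^ 2 * (X + M * Y + 22 * (B ^ 2 + lam) * η + (9 * Q + 5 * X + 2 * lam)) := by ring
    _ ≤ C / r ^ 2 * ((M + 30) * (X + Y + Q + lam + B ^ 2 * η)) :=
        mul_le_mul_of_nonneg_left h4 h5
    _ = (M + 30) * C / r ^ 2 * (X + Y + Q + lam + B ^ 2 * η) := by ring

end Pool.Agent.Helper780_CP.RG4
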