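import Pool.Agent.Helper780_CP.LLDefs2
import Pool.Agent.Helper780_CP.TDefs
import Pool.Agent.Helper780_CP.RTCI

set_option autoImplicit false

open MeasureTheory
open scoped Topology

namespace Pool.Agent.Helper780_CP.RG6

open Pool.Agent.Helper780_CP
open Pool.Agent.Helper985.CP

open Pool.Agent.Helper780_CP Pool.Agent.Helper985.CP

open Pool.Agent.Helper780_CP.RTCI.Aux

noncomputable def qq (lam t : ℝ) : ℝ := t * (t / lam) ^ ((1 : ℝ) / 4)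

theorem qq_meas (lam : ℝ) : Measurable (qq lam) := by
  unfold qq
  exact measurable_id.mul ((measurable_id.div_const lam).pow_const _)

theorem qq_nonneg (lam t : ℝ) (hlam : 0 < lam) (ht : 0 ≤ t) : 0 ≤ qq lam t := by
  unfold qq
  exact mul_nonneg ht (Real.rpow_nonneg (div_nonneg ht hlam.le) _)

theorem qq_mono (lam s t : ℝ) (hlam : 0 < lam) (hs : 0 ≤ s) (hst : s ≤ t) :
    qq lam s ≤ qq lam t := by
  unfold qq
  have h1 : (s / lam) ^ ((1 : ℝ) / 4) ≤ (t / lam) ^ ((1 : ℝ) / 4) :=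
    Real.rpow_le_rpow (div_nonneg hs hlam.le) ((div_le_div_iff_of_pos_right hlam).2 hst)
      (by norm_num)
  exact mul_le_mul hst h1 (Real.rpow_nonneg (div_nonneg hs hlam.le) _) (hs.trans hst)

theorem qq_add (lam a b g : ℝ) (hlam : 0 < lam) (ha : 0 ≤ a) (hb : 0 ≤ b) (h : a + b ≤ g) :
    qq lam a + qq lam b ≤ qq lam g := by
  unfold qq
  have hg : 0 ≤ g := (add_nonneg ha hb).trans h
  have h1 : (a / lam) ^ ((1 : ℝ) / 4) ≤ (g / lam) ^ ((1 : ℝ) / 4) :=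
    Real.rpow_le_rpow (div_nonneg ha hlam.le) ((div_le_div_iff_of_pos_right hlam).2 (by linarith))
      (by norm_num)
  have h2 : (b / lam) ^ ((1 : ℝ) / 4) ≤ (g / lam) ^ ((1 : ℝ) / 4) :=
    Real.rpow_le_rpow (div_nonneg hb hlam.le) ((div_le_div_iff_of_pos_right hlam).2 (by linarith))
      (by norm_num)
  have h3 : 0 ≤ (g / lam) ^ ((1 : ℝ) / 4) := Real.rpow_nonneg (div_nonneg hg hlam.le) _
  calc a * (a / lam) ^ ((1 : ℝ) / 4) + b * (b / lam) ^ ((1 : ℝ) / 4)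
      ≤ a * (g / lam) ^ ((1 : ℝ) / 4) + b * (g / lam) ^ ((1 : ℝ) / 4) :=
        add_le_add (mul_le_mul_of_nonneg_left h1 ha) (mul_le_mul_of_nonneg_left h2 hb)
    _ = (a + b) * (g / lam) ^ ((1 : ℝ) / 4) := by ring
    _ ≤ g * (g / lam) ^ ((1 : ℝ) / 4) := mul_le_mul_of_nonneg_right h h3

/-- integrability of `qq` of a bounded nonnegative function -/
theorem qq_int {I : Type} [Fintype I] [DecidableEq I]
    (u : (I → E3) → ℝ) (hu : Ok u) (lam : ℝ) (hlam : 0 < lam)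
    (g : (I → E3) → ℝ) (hg : Measurable g) (h0 : ∀ x, 0 ≤ g x) (M : ℝ) (hM : ∀ x, g x ≤ M) :
    Integrable (fun x => qq lam (g x) * u x) :=
  I3 u hu _ ((qq_meas lam).comp hg) (qq lam M) (fun x => by
    show |qq lam (g x)| ≤ _
    rw [abs_of_nonneg (qq_nonneg _ _ hlam (h0 x))]
    exact qq_mono _ _ _ hlam (h0 x) (hM x))

/-- the new term, one component -/
theorem compq_le {I : Type} [Fintype I] [DecidableEq I]
    (u : (I → E3) → ℝ) (hu : Ok u) (lam : ℝ) (hlam : 0 < lam) (f₁ f₂ g : (I → E3) → ℝ)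
    (h1 : ContDiff ℝ SM f₁) (h2 : ContDiff ℝ SM f₂) (B M : ℝ)
    (h5 : ∀ x, |f₁ x| ≤ B) (h6 : ∀ x, |f₂ x| ≤ B)
    (h8 : ∀ x, f₁ x ^ 2 + f₂ x ^ 2 ≤ g x)
    (hg : Measurable g) (hM : ∀ x, g x ≤ M) :
    (∫ x, qq lam (f₁ x ^ 2) * u x) + (∫ x, qq lam (f₂ x ^ 2) * u x) ≤
      ∫ x, qq lam (g x) * u x := by
  have hsq : ∀ f : (I → E3) → ℝ, (∀ x, |f x| ≤ B) → ∀ x, f x ^ 2 ≤ B ^ 2 := by
    intro f hf x
    exact sq_le_sq' (by linarith [(abs_le.1 (hf x)).1]) (abs_le.1 (hf x)).2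
  have m1 : Measurable (fun x => f₁ x ^ 2) := (h1.continuous.pow 2).measurable
  have m2 : Measurable (fun x => f₂ x ^ 2) := (h2.continuous.pow 2).measurable
  have g1 : ∀ x, 0 ≤ g x := fun x => (add_nonneg (sq_nonneg _) (sq_nonneg _)).trans (h8 x)
  have i1 := qq_int u hu lam hlam _ m1 (fun x => sq_nonneg _) (B ^ 2) (hsq f₁ h5)
  have i2 := qq_int u hu lam hlam _ m2 (fun x => sq_nonneg _) (B ^ 2) (hsq f₂ h6)
  have i3 := qq_int u hu lam hlam _ hg g1 M hM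
  rw [← integral_add i1 i2]
  refine integral_mono (i1.add i2) i3 fun x => ?_
  show qq lam (f₁ x ^ 2) * u x + qq lam (f₂ x ^ 2) * u x ≤ qq lam (g x) * u x
  rw [← add_mul]
  exact mul_le_mul_of_nonneg_right (qq_add _ _ _ _ hlam (sq_nonneg _) (sq_nonneg _) (h8 x))
    (hu.n x)

/-- TARGET -/
theorem tciT {S : Type} (D : Species S) {I : Type} [Fintype I] [DecidableEq I] (sp : I → S) (ℓ : ℝ)
    (pb : (I → E3) → ℝ) (hpb : Continuous pb) (C η : ℝ) (hC : 0 ≤ C) (hη : 0 ≤ η) (Ψ : Wave D I)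
    (hΨ : IsState D sp ℓ Ψ) (hn : nrm2 D Ψ = 1) (hFL : FLT D sp ℓ pb C η Ψ)
    (lam : ℝ) (hlam : 0 < lam)
    (r : ℝ) (hr : 0 < r) (hr1 : r ≤ 1) (A : Set E3) (hA : MeasurableSet A)
    (hAb : ∃ R, A ⊆ Metric.closedBall 0 R) (hAc : ∀ ω ∈ A, Metric.closedBall ω r ⊆ cube ℓ)
    (F G G' : (I → E3) → E3 → ℝ) (B M : ℝ)
    (hF : Measurable (fun p : (I → E3) × E3 => F p.1 p.2))
    (hG : Measurable (fun p : (I → E3) × E3 => G p.1 p.2))
    (hG' : Measurable (fun p : (I → E3) × E3 => G' p.1 p.2))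
    (hM : ∀ x, ∀ ω ∈ A, G x ω ≤ M ∧ G' x ω ≤ M)
    (h : ∀ ω ∈ A, ∃ f₁ f₂ : (I → E3) → ℝ, ContDiff ℝ SM f₁ ∧ ContDiff ℝ SM f₂ ∧ Sy sp f₁ ∧
      Sy sp f₂ ∧ (∀ x, |f₁ x| ≤ B) ∧ (∀ x, |f₂ x| ≤ B) ∧ (∀ x, f₁ x ^ 2 - f₂ x ^ 2 = F x ω) ∧
      (∀ x, f₁ x ^ 2 + f₂ x ^ 2 ≤ G x ω) ∧ (∀ x, gr f₁ x + gr f₂ x ≤ G' x ω)) :
    |wm D (fun x => ∫ ω in A, F x ω * (phi D sp ω x - pb x)) Ψ| ≤
      C / r ^ 2 * (wm D (fun x => ∫ ω in A, (G x ω * (1 + near2 ω x) + G' x ω +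
        G x ω * (G x ω / lam) ^ ((1 : ℝ) / 4))) Ψ + 2 * (lam + B ^ 2 * η) * (volume A).toReal) := by
  obtain ⟨R, hR⟩ := hAb
  have hAf : volume A ≠ ⊤ :=
    ((measure_mono hR).trans_lt (measure_closedBall_lt_top (μ := (volume : Measure E3)))).ne
  have hPs : ∀ τ, HasCompactSupport (fun x => ‖Ψ τ x‖ ^ 2) := fun τ =>
    (hΨ.compact τ).comp_left (g := fun z : ℂ => ‖z‖ ^ 2) (by simp)
  have hok : ∀ τ, Ok (fun x => ‖Ψ τ x‖ ^ 2) := fun τ =>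
    ⟨((hΨ.smooth τ).continuous.norm).pow 2, hPs τ, fun x => sq_nonneg _⟩
  obtain ⟨Kp, hKp0, hKp⟩ := pb_bound D pb hpb Ψ hPs
  obtain ⟨L, hL⟩ : ∃ L : ℝ, ∀ τ ω x, |phi D sp ω x - pb x| * ‖Ψ τ x‖ ^ 2 ≤
      L * (dm ω x * ‖Ψ τ x‖ ^ 2) :=
    ⟨_, fun τ ω x => diff_bound _ Kp _ _ _ _ (phi_le D sp ω x) (hKp τ x) (dm_ge ω x)
      (sq_nonneg _) hKp0⟩
  have hGnn : ∀ x, ∀ ω ∈ A, 0 ≤ G x ω := by
    intro x ω hω
    obtain ⟨f₁, f₂, -, -, -, -, -, -, -, h8, -⟩ := h ω hω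
    exact (add_nonneg (sq_nonneg _) (sq_nonneg _)).trans (h8 x)
  have hGnn' : ∀ x, ∀ ω ∈ A, 0 ≤ G' x ω := by
    intro x ω hω
    obtain ⟨f₁, f₂, -, -, -, -, -, -, -, -, h9⟩ := h ω hω
    exact (add_nonneg (gr_nonneg f₁ x) (gr_nonneg f₂ x)).trans (h9 x)
  have hFb : ∀ x, ∀ ω ∈ A, |F x ω| ≤ B ^ 2 := by
    intro x ω hω
    obtain ⟨f₁, f₂, -, -, -, -, h5, h6, h7, -, -⟩ := h ω hω
    rw [← h7 x]
    exact F_bound _ _ _ (h5 x) (h6 x)
  have hG1 : ∀ ω, Measurable (fun x => G x ω) := fun ω => m_sec G hG ω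
  have hG1' : ∀ ω, Measurable (fun x => G' x ω) := fun ω => m_sec G' hG' ω
  -- the enlarged majorant of the gradient term
  obtain ⟨H, hHd⟩ : ∃ H : (I → E3) → E3 → ℝ, H = fun x ω => G' x ω + qq lam (G x ω) := ⟨_, rfl⟩
  have hHm : Measurable (fun p : (I → E3) × E3 => H p.1 p.2) := by
    rw [hHd]
    exact hG'.add ((qq_meas lam).comp hG)
  have hHnn : ∀ x, ∀ ω ∈ A, 0 ≤ H x ω := by
    intro x ω hω
    rw [hHd]
    exact add_nonneg (hGnn' x ω hω) (qq_nonneg _ _ hlam (hGnn x ω hω))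
  have hHM : ∀ x, ∀ ω ∈ A, G x ω ≤ M + qq lam M ∧ H x ω ≤ M + qq lam M := by
    intro x ω hω
    have h0 := hGnn x ω hω
    obtain ⟨h1, h2⟩ := hM x ω hω
    have h3 : 0 ≤ M := h0.trans h1
    have h4 := qq_nonneg lam M hlam h3
    have h5 := qq_mono lam _ _ hlam h0 h1
    refine ⟨by linarith, ?_⟩
    rw [hHd]
    show G' x ω + qq lam (G x ω) ≤ _
    linarith
  -- the estimate at a point
  have hpt : ∀ ω ∈ A, |wm D (fun x => F x ω * (phi D sp ω x - pb x)) Ψ| ≤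
      C / r ^ 2 * (wm D (fun x => G x ω * (1 + near2 ω x) + H x ω) Ψ +
        2 * (lam + B ^ 2 * η)) := by
    intro ω hω
    obtain ⟨f₁, f₂, h1, h2, h3, h4, h5, h6, h7, h8, h9⟩ := h ω hω
    have e1 := hFL r ω f₁ B lam hr hr1 hlam (hAc ω hω) h1 h3 h5
    have e2 := hFL r ω f₂ B lam hr hr1 hlam (hAc ω hω) h2 h4 h6
    have e3 : wm D (fun x => F x ω * (phi D sp ω x - pb x)) Ψ =
        wm D (fun x => f₁ x ^ 2 * (phi D sp ω x - pb x)) Ψ -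
        wm D (fun x => f₂ x ^ 2 * (phi D sp ω x - pb x)) Ψ := by
      unfold wm
      rw [← Finset.sum_sub_distrib]
      exact Finset.sum_congr rfl fun τ _ =>
        comp_eq D sp _ (hok τ) ω pb hpb L (hL τ ω) f₁ f₂ _ h1 h2 B h5 h6 h7
    have e4 : wm D (fun x => f₁ x ^ 2 * (1 + near2 ω x)) Ψ + wm D (gr f₁) Ψ +
        (wm D (fun x => f₂ x ^ 2 * (1 + near2 ω x)) Ψ + wm D (gr f₂) Ψ) ≤
        wm D (fun x => G x ω * (1 + near2 ω x) + G' x ω) Ψ := by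
      unfold wm
      rw [← Finset.sum_add_distrib, ← Finset.sum_add_distrib, ← Finset.sum_add_distrib]
      exact Finset.sum_le_sum fun τ _ =>
        comp_le _ (hok τ) ω f₁ f₂ _ _ h1 h2 B M h5 h6 h8 h9 (hG1 ω) (hG1' ω)
          (fun x => (hM x ω hω).1) (fun x => (hM x ω hω).2)
    have e4' : wm D (fun x => f₁ x ^ 2 * (f₁ x ^ 2 / lam) ^ ((1 : ℝ) / 4)) Ψ +
        wm D (fun x => f₂ x ^ 2 * (f₂ x ^ 2 / lam) ^ ((1 : ℝ) / 4)) Ψ ≤
        wm D (fun x => qq lam (G x ω)) Ψ := by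
      unfold wm
      rw [← Finset.sum_add_distrib]
      exact Finset.sum_le_sum fun τ _ =>
        compq_le _ (hok τ) lam hlam f₁ f₂ _ h1 h2 B M h5 h6 h8 (hG1 ω)
          (fun x => (hM x ω hω).1)
    have e4'' : wm D (fun x => G x ω * (1 + near2 ω x) + H x ω) Ψ =
        wm D (fun x => G x ω * (1 + near2 ω x) + G' x ω) Ψ +
          wm D (fun x => qq lam (G x ω)) Ψ := by
      unfold wm
      rw [← Finset.sum_add_distrib]
      refine Finset.sum_congr rfl fun τ _ => ?_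
      have i1 := I2 _ (hok τ) ω _ (hG1 ω) M (fun x => by
        rw [abs_of_nonneg (hGnn x ω hω)]; exact (hM x ω hω).1)
      have i2 := I3 _ (hok τ) _ (hG1' ω) M (fun x => by
        rw [abs_of_nonneg (hGnn' x ω hω)]; exact (hM x ω hω).2)
      have i3 := qq_int _ (hok τ) lam hlam _ (hG1 ω) (fun x => hGnn x ω hω) M
        (fun x => (hM x ω hω).1)
      have i4 : Integrable (fun x => (G x ω * (1 + near2 ω x) + G' x ω) * ‖Ψ τ x‖ ^ 2) := by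
        refine (i1.add i2).congr (Filter.Eventually.of_forall fun x => ?_)
        show G x ω * (1 + near2 ω x) * ‖Ψ τ x‖ ^ 2 + G' x ω * ‖Ψ τ x‖ ^ 2 = _
        ring
      rw [← integral_add i4 i3]
      refine integral_congr_ae (Filter.Eventually.of_forall fun x => ?_)
      show (G x ω * (1 + near2 ω x) + H x ω) * ‖Ψ τ x‖ ^ 2 =
        (G x ω * (1 + near2 ω x) + G' x ω) * ‖Ψ τ x‖ ^ 2 + qq lam (G x ω) * ‖Ψ τ x‖ ^ 2
      rw [hHd]
      ring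
    rw [e3]
    have hCr : 0 ≤ C / r ^ 2 := div_nonneg hC (sq_nonneg _)
    have e5 : wm D (fun x => f₁ x ^ 2 * (1 + near2 ω x)) Ψ + wm D (gr f₁) Ψ +
        wm D (fun x => f₁ x ^ 2 * (f₁ x ^ 2 / lam) ^ ((1 : ℝ) / 4)) Ψ +
        (wm D (fun x => f₂ x ^ 2 * (1 + near2 ω x)) Ψ + wm D (gr f₂) Ψ +
        wm D (fun x => f₂ x ^ 2 * (f₂ x ^ 2 / lam) ^ ((1 : ℝ) / 4)) Ψ) + 2 * (lam + B ^ 2 * η) ≤
        wm D (fun x => G x ω * (1 + near2 ω x) + H x ω) Ψ + 2 * (lam + B ^ 2 * η) := by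
      rw [e4'']
      linarith
    have e6 := mul_le_mul_of_nonneg_left e5 hCr
    have e7 := (abs_sub (wm D (fun x => f₁ x ^ 2 * (phi D sp ω x - pb x)) Ψ)
      (wm D (fun x => f₂ x ^ 2 * (phi D sp ω x - pb x)) Ψ)).trans (add_le_add e1 e2)
    refine e7.trans (le_of_eq_of_le ?_ e6)
    ring
  -- Fubini
  obtain ⟨k1, k2⟩ := fub D Ψ A (fun x ω => F x ω * (phi D sp ω x - pb x)) (fun τ =>
    J1 D sp _ (hok τ) pb hpb L A hA hAf (hL τ) F hF (B ^ 2) (sq_nonneg _) hFb)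
  obtain ⟨k3, k4⟩ := fub D Ψ A (fun x ω => G x ω * (1 + near2 ω x) + H x ω) (fun τ =>
    J2 _ (hok τ) A hA hAf G H hG hHm (M + qq lam M) hGnn hHnn hHM)
  have k0 : (fun x : I → E3 => ∫ ω in A, (G x ω * (1 + near2 ω x) + G' x ω +
        G x ω * (G x ω / lam) ^ ((1 : ℝ) / 4))) =
      fun x => ∫ ω in A, (G x ω * (1 + near2 ω x) + H x ω) := by
    funext x
    refine integral_congr_ae (Filter.Eventually.of_forall fun ω => ?_)
    show G x ω * (1 + near2 ω x) + G' x ω + G x ω * (G x ω / lam) ^ ((1 : ℝ) / 4) =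
      G x ω * (1 + near2 ω x) + H x ω
    rw [hHd]
    show _ = G x ω * (1 + near2 ω x) + (G' x ω + G x ω * (G x ω / lam) ^ ((1 : ℝ) / 4))
    ring
  rw [k0, k2, k4]
  haveI : IsFiniteMeasure ((volume : Measure E3).restrict A) :=
    ⟨by rw [Measure.restrict_apply_univ]; exact lt_top_iff_ne_top.2 hAf⟩
  have k5 : Integrable (fun ω => C / r ^ 2 *
      (wm D (fun x => G x ω * (1 + near2 ω x) + H x ω) Ψ + 2 * (lam + B ^ 2 * η)))
      ((volume : Measure E3).restrict A) := (k3.add (integrable_const _)).const_mul _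
  calc |∫ ω in A, wm D (fun x => F x ω * (phi D sp ω x - pb x)) Ψ| ≤
        ∫ ω in A, |wm D (fun x => F x ω * (phi D sp ω x - pb x)) Ψ| := abs_integral_le_integral_abs
    _ ≤ ∫ ω in A, C / r ^ 2 *
      (wm D (fun x => G x ω * (1 + near2 ω x) + H x ω) Ψ + 2 * (lam + B ^ 2 * η)) := by
        refine setIntegral_mono_on k1.abs k5 hA fun ω hω => hpt ω hω
    _ = _ := by
        rw [integral_const_mul, integral_add k3 (integrable_const _), setIntegral_const,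
          Measure.real, smul_eq_mul]
        ring

end Pool.Agent.Helper780_CP.RG6
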