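import Pool.Agent.Helper780_CP.LLDefs2
import Pool.Agent.Helper780_CP.TDefs
import Pool.Agent.Helper780_CP.RQ9
import Pool.Agent.Helper780_CP.RG6

set_option autoImplicit false

open MeasureTheory
open scoped Topology

namespace Pool.Agent.Helper780_CP.RG7

open Pool.Agent.Helper780_CP
open Pool.Agent.Helper985.CP
open Pool.Agent.Helper780_CP.RG6 (tciT)

open Pool.Agent.Helper780_CP Pool.Agent.Helper985.CP Pool.Agent.Helper780_CP.RQ9
open Pool.Agent.Helper780_CP.RC3 (near2_ball)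
open Pool.Agent.Helper780_CP.RK1 (newt)

theorem fluctT_pt {I : Type} [Fintype I] {c2 : ℝ}
    (hc2 : ∀ (x : I → E3) (v : E3) (R : ℝ),
    0 < R → IntegrableOn (fun w => near2 w x) (Metric.ball v R) ∧
      ∫ w in Metric.ball v R, near2 w x ≤
        c2 * R * (1 + ((Finset.univ.filter (fun i => ‖x i - v‖ ≤ 2 * R)).card : ℝ) ^ ((2 : ℝ) / 3)))
    {T : E3 → ℝ} {M : ℝ} (hM : ∀ w, |T w| ≤ M) {y : E3} {r : ℝ}
    (hr : 0 < r) (x : I → E3) {p k : ℝ} (hp : 0 ≤ p) (hk : 0 ≤ k)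
    {E : E3 → ℝ} {e : ℝ} (hE0 : ∀ w, 0 ≤ E w) (hE : ∀ w, E w ≤ M * e) :
    0 ≤ (∫ w in Metric.closedBall y (3 * r), (|T w| * p * (1 + near2 w x) + k * |T w| * nb y (3 * r) x + E w)) ∧
    (∫ w in Metric.closedBall y (3 * r), (|T w| * p * (1 + near2 w x) + k * |T w| * nb y (3 * r) x + E w)) ≤
      M * (p * (27 * r ^ 3 * (volume (Metric.ball (0 : E3) 1)).toReal +
        c2 * (4 * r) * (1 + nb y (8 * r) x ^ ((2 : ℝ) / 3))) +
        k * nb y (8 * r) x * (27 * r ^ 3 * (volume (Metric.ball (0 : E3) 1)).toReal)) +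
        M * e * (27 * r ^ 3 * (volume (Metric.ball (0 : E3) 1)).toReal) := by
  have hM0 : 0 ≤ M := (abs_nonneg _).trans (hM 0)
  obtain ⟨h1, h2⟩ := hc2 x y (4 * r) (by positivity)
  rw [fluct_nb_card, show 2 * (4 * r) = 8 * r by ring] at h2
  have hsub : Metric.closedBall y (3 * r) ⊆ Metric.ball y (4 * r) :=
    Metric.closedBall_subset_ball (by linarith)
  have h3 : IntegrableOn (fun w => near2 w x) (Metric.closedBall y (3 * r)) := h1.mono_set hsub
  have hfin : volume (Metric.closedBall y (3 * r)) ≠ ⊤ := measure_closedBall_lt_top.ne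
  have h4 : ∫ w in Metric.closedBall y (3 * r), near2 w x ≤
      ∫ w in Metric.ball y (4 * r), near2 w x :=
    setIntegral_mono_set h1 (Filter.Eventually.of_forall fun w => fluct_near_nonneg w x)
      (HasSubset.Subset.eventuallyLE hsub)
  have hn3 := fluct_nb_nonneg y (3 * r) x
  constructor
  · refine integral_nonneg fun w => ?_
    have := fluct_near_nonneg w x
    have := hE0 w
    positivity
  · have h5 : IntegrableOn (fun w => M * (p * (1 + near2 w x)) + (k * M * nb y (3 * r) x + M * e))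
        (Metric.closedBall y (3 * r)) := by
      have hc : ∀ a : ℝ, IntegrableOn (fun _ : E3 => a) (Metric.closedBall y (3 * r)) :=
        fun a => integrableOn_const hfin
      exact ((((hc 1).add h3).const_mul p).const_mul M).add (hc _)
    have h6 : (∫ w in Metric.closedBall y (3 * r),
        (|T w| * p * (1 + near2 w x) + k * |T w| * nb y (3 * r) x + E w)) ≤
        ∫ w in Metric.closedBall y (3 * r), (M * (p * (1 + near2 w x)) +
          (k * M * nb y (3 * r) x + M * e)) := by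
      refine integral_mono_of_nonneg (Filter.Eventually.of_forall fun w => ?_) h5
        (Filter.Eventually.of_forall fun w => ?_)
      · have := fluct_near_nonneg w x
        have := hE0 w
        simp only [Pi.zero_apply]
        positivity
      · have h7 := fluct_near_nonneg w x
        have h8 := hM w
        have h9 := hE w
        simp only
        have e1 : |T w| * p * (1 + near2 w x) ≤ M * (p * (1 + near2 w x)) := by
          rw [mul_assoc]
          exact mul_le_mul_of_nonneg_right h8 (by positivity)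
        have e2 : k * |T w| * nb y (3 * r) x ≤ k * M * nb y (3 * r) x := by gcongr
        linarith
    refine h6.trans ?_
    have h9 : ∫ w in Metric.closedBall y (3 * r),
        (M * (p * (1 + near2 w x)) + (k * M * nb y (3 * r) x + M * e)) =
        M * (p * (27 * r ^ 3 * (volume (Metric.ball (0 : E3) 1)).toReal +
          ∫ w in Metric.closedBall y (3 * r), near2 w x)) +
        (k * M * nb y (3 * r) x + M * e) *
          (27 * r ^ 3 * (volume (Metric.ball (0 : E3) 1)).toReal) := by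
      have hc : ∀ a : ℝ, IntegrableOn (fun _ : E3 => a) (Metric.closedBall y (3 * r)) :=
        fun a => integrableOn_const hfin
      have i1 : IntegrableOn (fun w => 1 + near2 w x) (Metric.closedBall y (3 * r)) :=
        (hc 1).add h3
      have i2 : IntegrableOn (fun w => M * (p * (1 + near2 w x)))
        (Metric.closedBall y (3 * r)) := (i1.const_mul p).const_mul M
      have e3 : ∫ w in Metric.closedBall y (3 * r), (1 + near2 w x) =
          (volume (Metric.closedBall y (3 * r))).toReal +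
          ∫ w in Metric.closedBall y (3 * r), near2 w x := by
        rw [integral_add (hc 1) h3, setIntegral_const]
        simp [Measure.real]
      rw [integral_add i2 (hc _), integral_const_mul, integral_const_mul, e3,
        setIntegral_const, ← fluct_vol y hr]
      simp only [smul_eq_mul, Measure.real]
      ring
    rw [h9]
    have hV : 0 ≤ (volume (Metric.ball (0 : E3) 1)).toReal := ENNReal.toReal_nonneg
    have h10 := h4.trans h2
    have h11 : nb y (3 * r) x ≤ nb y (8 * r) x := fluct_nb_mono y (by linarith) x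
    have h12 : M * (p * (27 * r ^ 3 * (volume (Metric.ball (0 : E3) 1)).toReal +
          ∫ w in Metric.closedBall y (3 * r), near2 w x)) ≤
        M * (p * (27 * r ^ 3 * (volume (Metric.ball (0 : E3) 1)).toReal +
          c2 * (4 * r) * (1 + nb y (8 * r) x ^ ((2 : ℝ) / 3)))) := by
      refine mul_le_mul_of_nonneg_left (mul_le_mul_of_nonneg_left ?_ hp) hM0
      linarith
    have h13 : k * M * nb y (3 * r) x * (27 * r ^ 3 * (volume (Metric.ball (0 : E3) 1)).toReal) ≤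
        k * M * nb y (8 * r) x * (27 * r ^ 3 * (volume (Metric.ball (0 : E3) 1)).toReal) := by
      gcongr
    linarith [h12, h13]

/-- the new term -/
theorem fluctT_alg {C V A c r q : ℝ} (hC : 0 ≤ C) (hc : 0 < c) (hA : 1 ≤ A)
    (hr : 0 < r) (hr1 : r ≤ 1) (hV : 0 ≤ V) :
    C / r ^ 2 * (A / c * (1 + |q|) ^ ((5 : ℝ) / 4) * (27 * r ^ 3 * V)) ≤
      1 / 8 * q ^ 2 + (1 + 38 * (27 * C * V / c) ^ 3) * (A ^ 3 / r ^ 4) := by
  have hq0 := abs_nonneg q
  obtain ⟨u, hu⟩ : ∃ u : ℝ, u = (1 + |q|) ^ ((1 : ℝ) / 3) := ⟨_, rfl⟩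
  have hu0 : 0 ≤ u := by rw [hu]; positivity
  have hu3 : u ^ 3 = 1 + |q| := by
    rw [hu, ← Real.rpow_natCast, ← Real.rpow_mul (by positivity)]
    norm_num
  have hu4 : (1 + |q|) ^ ((5 : ℝ) / 4) ≤ u ^ 4 := by
    have : u ^ 4 = (1 + |q|) ^ ((4 : ℝ) / 3) := by
      rw [hu, ← Real.rpow_natCast, ← Real.rpow_mul (by positivity)]
      norm_num
    rw [this]
    exact Real.rpow_le_rpow_of_exponent_le (by linarith) (by norm_num)
  obtain ⟨E, hE⟩ : ∃ E : ℝ, E = 27 * C * V / c * (A * r) := ⟨_, rfl⟩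
  have hE0 : 0 ≤ E := by rw [hE]; positivity
  have e1 : C / r ^ 2 * (A / c * (1 + |q|) ^ ((5 : ℝ) / 4) * (27 * r ^ 3 * V)) ≤ E * u ^ 4 := by
    calc _ ≤ C / r ^ 2 * (A / c * u ^ 4 * (27 * r ^ 3 * V)) := by gcongr
      _ = E * u ^ 4 := by rw [hE]; field_simp
  have e2 : E * u ^ 4 ≤ 1 / 16 * u ^ 6 + 38 * E ^ 3 := by
    obtain ⟨w, hw⟩ : ∃ w : ℝ, w = u ^ 2 := ⟨_, rfl⟩
    have hw0 : 0 ≤ w := by rw [hw]; positivity
    have h1 : u ^ 4 = w ^ 2 := by rw [hw]; ring
    have h2 : u ^ 6 = w ^ 3 := by rw [hw]; ring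
    rw [h1, h2]
    -- `w^3/16 - E w^2 + 38 E^3 ≥ 0`
    have h3 : 0 ≤ (w - 32 / 3 * E) ^ 2 * (w + 16 / 3 * E) := by positivity
    nlinarith [pow_nonneg hE0 3]
  have e3 : u ^ 6 ≤ 2 + 2 * q ^ 2 := by
    have : u ^ 6 = (1 + |q|) ^ 2 := by rw [← hu3]; ring
    rw [this]
    nlinarith [sq_abs q, sq_nonneg (|q| - 1)]
  have hr4 : 0 < r ^ 4 := by positivity
  have e4 : E ^ 3 ≤ (27 * C * V / c) ^ 3 * (A ^ 3 / r ^ 4) := by
    have h1 : E ^ 3 = (27 * C * V / c) ^ 3 * (A ^ 3 * r ^ 3) := by rw [hE]; ring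
    rw [h1]
    have h2 : A ^ 3 * r ^ 3 ≤ A ^ 3 / r ^ 4 := by
      rw [le_div_iff₀ hr4]
      have h3 : r ^ 3 * r ^ 4 ≤ 1 := by
        calc r ^ 3 * r ^ 4 = r ^ 7 := by ring
          _ ≤ 1 := pow_le_one₀ hr.le hr1
      have hA3 : 0 ≤ A ^ 3 := by positivity
      nlinarith
    gcongr
  have e5 : 1 ≤ A ^ 3 / r ^ 4 := by
    rw [le_div_iff₀ hr4, one_mul]
    exact (pow_le_one₀ hr.le hr1).trans (one_le_pow₀ hA)
  nlinarith

theorem fluctT_alg2 {C V A c r : ℝ} (hC : 0 ≤ C) (hc : 0 < c) (hA : 1 ≤ A)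
    (hr : 0 < r) (hr1 : r ≤ 1) (hV : 0 ≤ V) :
    C / r ^ 2 * (2 * (A / c) * (27 * r ^ 3 * V)) ≤ 54 * (C * V) / c * (A ^ 3 / r ^ 4) := by
  have g : A * r ≤ A ^ 3 / r ^ 4 := by
    rw [le_div_iff₀ (by positivity)]
    have h2 : r * r ^ 4 ≤ 1 := by
      calc r * r ^ 4 = r ^ 5 := by ring
        _ ≤ 1 := pow_le_one₀ hr.le hr1
    have hA0 : 0 ≤ A := by linarith
    have hA3 : A ≤ A ^ 3 := by
      calc A = A ^ 1 := (pow_one A).symm
        _ ≤ A ^ 3 := pow_le_pow_right₀ hA (by norm_num)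
    nlinarith
  calc C / r ^ 2 * (2 * (A / c) * (27 * r ^ 3 * V)) = 54 * (C * V) / c * (A * r) := by
        field_simp
        ring
    _ ≤ 54 * (C * V) / c * (A ^ 3 / r ^ 4) := by gcongr

/-- TARGET -/
theorem fluctT (z C : ℝ) (hz : 0 ≤ z) (hC : 0 ≤ C) : ∃ C' : ℝ, 0 < C' ∧
    ∀ {S : Type} (D : Species S) {I : Type} [Fintype I] [DecidableEq I] (sp : I → S) (ℓ : ℝ)
      (pb : (I → E3) → ℝ), Continuous pb → (∀ s, |D.charge s| ≤ z) →
      ∀ (η : ℝ), 0 ≤ η → η * (1 + (Fintype.card I : ℝ)) ≤ 1 → ∀ Ψ : Wave D I, IsState D sp ℓ Ψ →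
      nrm2 D Ψ = 1 → FLT D sp ℓ pb C η Ψ →
      ∀ (y : E3) (r : ℝ), 0 < r → r ≤ 1 → Metric.closedBall y (4 * r) ⊆ cube ℓ →
      ∀ (t : E3 → ℝ) (A : ℝ), ContDiff ℝ SM t → 1 ≤ A → (∀ v, 3 * r < ‖v - y‖ → t v = 0) →
        (∀ v, |t v| ≤ A) → (∀ v, ‖fderiv ℝ t v‖ ≤ A) → (∀ v, |lap t v| ≤ A) →
        wm D (fun x => (∑ i, D.charge (sp i) * t (x i)) ^ 2) Ψ ≤
          C' * A ^ 3 / r ^ 4 * (1 + wm D (fun x => nb y (8 * r) x ^ ((4 : ℝ) / 3)) Ψ) := by
  obtain ⟨c, hc, hnewt⟩ := newt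
  obtain ⟨c2, hc2, hnear⟩ := near2_ball
  obtain ⟨V, hV⟩ : ∃ V : ℝ, V = (volume (Metric.ball (0 : E3) 1)).toReal := ⟨_, rfl⟩
  have hV0 : 0 ≤ V := by rw [hV]; exact ENNReal.toReal_nonneg
  obtain ⟨L, hL⟩ : ∃ L : ℝ, L = 27 * V + 4 * c2 := ⟨_, rfl⟩
  have hL0 : 0 < L := by rw [hL]; positivity
  obtain ⟨K3, hK3⟩ : ∃ K3 : ℝ, K3 = (C * L / c) ^ 2 + 2 * (C * L / c) + 54 * (C * z ^ 2 * V) / c :=
    ⟨_, rfl⟩
  obtain ⟨K4, hK4⟩ : ∃ K4 : ℝ, K4 = 54 * (C * V * (1 + z)) / c := ⟨_, rfl⟩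
  obtain ⟨K5, hK5⟩ : ∃ K5 : ℝ, K5 = 1 + 38 * (27 * C * V / c) ^ 3 := ⟨_, rfl⟩
  obtain ⟨K6, hK6⟩ : ∃ K6 : ℝ, K6 = 54 * (C * V) / c := ⟨_, rfl⟩
  have hK30 : 0 ≤ K3 := by rw [hK3]; positivity
  have hK40 : 0 ≤ K4 := by rw [hK4]; positivity
  have hK50 : 0 ≤ K5 := by rw [hK5]; positivity
  have hK60 : 0 ≤ K6 := by rw [hK6]; positivity
  refine ⟨3 * (K3 + K5 + K4 + K6) + 1, by positivity, ?_⟩
  intro S D I _ _ sp ℓ pb hpb hch η hη hη1 Ψ hΨ hn hFL y r hr hr1 hcube t A ht hA hsupp htA hdt hlap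
  have hA0 : 0 < A := by linarith
  -- the density
  obtain ⟨T, hTdef⟩ : ∃ T : E3 → ℝ, T = fun w => -c⁻¹ * lap t w := ⟨_, rfl⟩
  have hTc : Continuous T := by rw [hTdef]; exact continuous_const.mul (fluct_lap_cont ht)
  have hU : IsOpen {v : E3 | 3 * r < ‖v - y‖} := isOpen_lt continuous_const (by fun_prop)
  have hTs : ∀ w, 3 * r < ‖w - y‖ → T w = 0 := by
    intro w hw
    rw [hTdef]
    simp only
    rw [fluct_lap0 hU (fun v hv => hsupp v hv) w hw, mul_zero]
  have hTM : ∀ w, |T w| ≤ A / c := by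
    intro w
    rw [hTdef]
    simp only
    rw [abs_mul, abs_neg, abs_of_pos (inv_pos.2 hc), div_eq_inv_mul]
    exact mul_le_mul_of_nonneg_left (hlap w) (inv_nonneg.2 hc.le)
  have hcs : HasCompactSupport t := by
    refine HasCompactSupport.intro (isCompact_closedBall y (3 * r)) fun w hw => hsupp w ?_
    rw [Metric.mem_closedBall, dist_eq_norm] at hw
    exact not_le.1 hw
  obtain ⟨hn1, hn2⟩ := hnewt t ht hcs
  have hrep : ∀ v, t v = ∫ w, T w * (1 / ‖v - w‖) := by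
    intro v
    rw [hn1 v, ← integral_const_mul]
    refine integral_congr_ae (Filter.Eventually.of_forall fun w => ?_)
    rw [hTdef]
    simp only
    rw [norm_sub_rev v w]
    ring
  have hT0 : ∫ w, T w = 0 := by
    rw [hTdef, integral_const_mul, hn2, mul_zero]
  -- the charge
  obtain ⟨q, hq⟩ : ∃ q : (I → E3) → ℝ, q = fluct_q D sp t := ⟨_, rfl⟩
  have hqc : Continuous q := by rw [hq]; exact (fluct_q_cd D sp ht).continuous
  have hqb : ∀ x, |q x| ≤ z * (Fintype.card I : ℝ) * A := by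
    intro x
    rw [hq]
    unfold fluct_q
    refine (Finset.abs_sum_le_sum_abs _ _).trans ?_
    calc ∑ i, |D.charge (sp i) * t (x i)| ≤ ∑ _i : I, z * A := by
          refine Finset.sum_le_sum fun i _ => ?_
          rw [abs_mul]
          exact mul_le_mul (hch _) (htA _) (abs_nonneg _) hz
      _ = z * (Fintype.card I : ℝ) * A := by simp; ring
  have hrep2 : ∀ x, ∫ w in Metric.closedBall y (3 * r), T w * (phi D sp w x - pb x) = q x := by
    intro x
    rw [fluct_rep D sp hTc hTM hTs hrep hT0 (pb x) x, hq]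
    rfl
  obtain ⟨B, hB⟩ : ∃ B : ℝ, B = √(A / c * (1 + z * (Fintype.card I : ℝ) * A)) := ⟨_, rfl⟩
  have hB2 : B ^ 2 = A / c * (1 + z * (Fintype.card I : ℝ) * A) := by
    rw [hB, Real.sq_sqrt]
    positivity
  have hmain := tciT D sp ℓ pb hpb C η hC hη Ψ hΨ hn hFL (A / c) (by positivity) r hr hr1 (Metric.closedBall y (3 * r))
    Metric.isClosed_closedBall.measurableSet
    ⟨‖y‖ + 3 * r, fun w hw => by
      rw [Metric.mem_closedBall, dist_eq_norm] at hw
      rw [mem_closedBall_zero_iff]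
      have := norm_add_le (w - y) y
      rw [sub_add_cancel] at this
      linarith⟩
    (fun w hw => by
      refine Set.Subset.trans (fun v hv => ?_) hcube
      rw [Metric.mem_closedBall] at hv hw ⊢
      have := dist_triangle v w y
      linarith)
    (fun x w => T w * q x) (fun x w => |T w| * (1 + |q x|))
    (fun x w => 2 * (z ^ 2 * A ^ 2) * |T w| * nb y (3 * r) x) B
    (A / c * (1 + z * (Fintype.card I : ℝ) * A) +
      2 * (z ^ 2 * A ^ 2) * (A / c) * (Fintype.card I : ℝ))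
    (by
      exact (hTc.measurable.comp measurable_snd).mul (hqc.measurable.comp measurable_fst))
    (by
      exact ((hTc.measurable.comp measurable_snd).abs).mul
        (measurable_const.add ((hqc.measurable.comp measurable_fst).abs)))
    (by
      exact (measurable_const.mul ((hTc.measurable.comp measurable_snd).abs)).mul
        ((fluct_nb_meas y (3 * r)).comp measurable_fst))
    (fun x w _ => by
      have h1 := hTM w
      have h2 := hqb x
      have h3 := fluct_nb_le y (3 * r) x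
      have h4 := fluct_nb_nonneg y (3 * r) x
      have e1 : |T w| * (1 + |q x|) ≤ A / c * (1 + z * (Fintype.card I : ℝ) * A) := by gcongr
      have e2 : 2 * (z ^ 2 * A ^ 2) * |T w| * nb y (3 * r) x ≤
        2 * (z ^ 2 * A ^ 2) * (A / c) * (Fintype.card I : ℝ) := by gcongr
      have e3 : 0 ≤ A / c * (1 + z * (Fintype.card I : ℝ) * A) := by positivity
      have e4 : 0 ≤ 2 * (z ^ 2 * A ^ 2) * (A / c) * (Fintype.card I : ℝ) := by positivity
      exact ⟨by linarith, by linarith⟩)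
    (fun w _ => by
      -- trial functions
      obtain ⟨a, ha⟩ : ∃ a : ℝ, a = √(|T w| / 2) := ⟨_, rfl⟩
      have ha0 : 0 ≤ a := by rw [ha]; exact Real.sqrt_nonneg _
      have ha2 : a ^ 2 = |T w| / 2 := by rw [ha, Real.sq_sqrt]; positivity
      obtain ⟨s, hs, hsT⟩ : ∃ s : ℝ, (s = 1 ∨ s = -1) ∧ |T w| * s = T w := by
        rcases le_total 0 (T w) with h | h
        · exact ⟨1, Or.inl rfl, by rw [abs_of_nonneg h, mul_one]⟩
        · exact ⟨-1, Or.inr rfl, by rw [abs_of_nonpos h]; ring⟩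
      have hs' : -s = 1 ∨ -s = -1 := by
        rcases hs with h | h
        · exact Or.inr (by rw [h])
        · exact Or.inl (by rw [h]; norm_num)
      have hcosh : ∀ x, Real.exp (s * Real.arsinh (fluct_q D sp t x)) +
          Real.exp (-s * Real.arsinh (fluct_q D sp t x)) = 2 * √(1 + q x ^ 2) := by
        intro x
        have h1 := Real.cosh_arsinh (q x)
        rw [Real.cosh_eq] at h1
        rw [← hq]
        rcases hs with h | h <;> rw [h] <;> simp only [one_mul, neg_mul, neg_neg] <;> linarith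
      have hsinh : ∀ x, Real.exp (s * Real.arsinh (fluct_q D sp t x)) -
          Real.exp (-s * Real.arsinh (fluct_q D sp t x)) = 2 * s * q x := by
        intro x
        have h1 := Real.sinh_arsinh (q x)
        rw [Real.sinh_eq] at h1
        rw [← hq]
        rcases hs with h | h <;> rw [h] <;> simp only [one_mul, neg_mul, neg_neg] <;> linarith
      have hbd : ∀ s' : ℝ, (s' = 1 ∨ s' = -1) → ∀ x, |fluct_f D sp t a s' x| ≤ B := by
        intro s' hs1 x
        refine abs_le_of_sq_le_sq ?_ (by rw [hB]; exact Real.sqrt_nonneg _)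
        rw [fluct_f_sq, hB2, ha2]
        have h1 := fluct_exp_le (fluct_q D sp t x) s' hs1
        have h2 := fluct_sqrt_le (fluct_q D sp t x)
        have h3 := hqb x
        rw [hq] at h3
        have h4 := hTM w
        calc |T w| / 2 * Real.exp (s' * Real.arsinh (fluct_q D sp t x))
            ≤ |T w| / 2 * (2 * (1 + |fluct_q D sp t x|)) := by
              refine mul_le_mul_of_nonneg_left (h1.trans ?_) (by positivity)
              linarith
          _ = |T w| * (1 + |fluct_q D sp t x|) := by ring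
          _ ≤ A / c * (1 + z * (Fintype.card I : ℝ) * A) := by gcongr
      refine ⟨fluct_f D sp t a s, fluct_f D sp t a (-s), fluct_f_cd D sp ht a s,
        fluct_f_cd D sp ht a (-s), fluct_f_sy D sp t a s, fluct_f_sy D sp t a (-s),
        hbd s hs, hbd (-s) hs', fun x => ?_, fun x => ?_, fun x => ?_⟩
      · rw [fluct_f_sq, fluct_f_sq, ← mul_sub, hsinh, ha2]
        linear_combination q x * hsT
      · rw [fluct_f_sq, fluct_f_sq, ← mul_add, hcosh, ha2]
        have h2 := fluct_sqrt_le (q x)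
        calc |T w| / 2 * (2 * √(1 + q x ^ 2)) = |T w| * √(1 + q x ^ 2) := by ring
          _ ≤ |T w| * (1 + |q x|) := mul_le_mul_of_nonneg_left h2 (abs_nonneg _)
      · have g1 := fluct_gr_f D sp ht a s hs hch hsupp hdt x
        have g2 := fluct_gr_f D sp ht a (-s) hs' hch hsupp hdt x
        rw [ha2] at g1 g2
        refine (add_le_add g1 g2).trans (le_of_eq ?_)
        ring)
  -- the left side
  have hl : (fun x => ∫ w in Metric.closedBall y (3 * r), T w * q x * (phi D sp w x - pb x)) =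
      fun x => q x ^ 2 := by
    funext x
    have e : ∀ w, T w * q x * (phi D sp w x - pb x) = q x * (T w * (phi D sp w x - pb x)) :=
      fun w => by ring
    simp_rw [e]
    rw [integral_const_mul, hrep2]
    ring
  rw [hl, fluct_vol y hr, ← hV, hB2] at hmain
  -- the right side
  obtain ⟨R, hR⟩ : ∃ R : (I → E3) → ℝ, R = fun x =>
      A / c * ((1 + |q x|) * (27 * r ^ 3 * V + c2 * (4 * r) * (1 + nb y (8 * r) x ^ ((2 : ℝ) / 3))) +
      2 * (z ^ 2 * A ^ 2) * nb y (8 * r) x * (27 * r ^ 3 * V)) := ⟨_, rfl⟩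
  obtain ⟨a, ha⟩ : ∃ a : ℝ, a = wm D (fun x => q x ^ 2) Ψ := ⟨_, rfl⟩
  obtain ⟨P, hP⟩ : ∃ P : ℝ, P = wm D (fun x => nb y (8 * r) x ^ ((4 : ℝ) / 3)) Ψ := ⟨_, rfl⟩
  have hP0 : 0 ≤ P := by
    rw [hP]
    exact fluct_wm_nonneg D Ψ fun x => Real.rpow_nonneg (fluct_nb_nonneg _ _ _) _
  have hnbm := fluct_nb_meas (I := I) y (8 * r)
  have hEE0 : ∀ x, ∀ w : E3, 0 ≤ |T w| * (1 + |q x|) *
      (|T w| * (1 + |q x|) / (A / c)) ^ ((1 : ℝ) / 4) := fun x w => by positivity
  have hEE : ∀ x, ∀ w : E3, |T w| * (1 + |q x|) *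
      (|T w| * (1 + |q x|) / (A / c)) ^ ((1 : ℝ) / 4) ≤ A / c * (1 + |q x|) ^ ((5 : ℝ) / 4) := by
    intro x w
    have h1 : |T w| * (1 + |q x|) / (A / c) ≤ 1 + |q x| := by
      rw [div_le_iff₀ (by positivity)]
      have := mul_le_mul_of_nonneg_right (hTM w) (by positivity : 0 ≤ 1 + |q x|)
      linarith
    have h2 : (|T w| * (1 + |q x|) / (A / c)) ^ ((1 : ℝ) / 4) ≤ (1 + |q x|) ^ ((1 : ℝ) / 4) :=
      Real.rpow_le_rpow (by positivity) h1 (by norm_num)
    have h3 : (1 + |q x|) ^ ((5 : ℝ) / 4) = (1 + |q x|) * (1 + |q x|) ^ ((1 : ℝ) / 4) := by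
      rw [show (5 : ℝ) / 4 = 1 + 1 / 4 by norm_num, Real.rpow_add (by positivity), Real.rpow_one]
    rw [h3, ← mul_assoc]
    have h4 := hTM w
    gcongr
  have hW1 : wm D (fun x => C / r ^ 2 * ∫ w in Metric.closedBall y (3 * r),
      (|T w| * (1 + |q x|) * (1 + near2 w x) + 2 * (z ^ 2 * A ^ 2) * |T w| * nb y (3 * r) x +
        |T w| * (1 + |q x|) * (|T w| * (1 + |q x|) / (A / c)) ^ ((1 : ℝ) / 4))) Ψ ≤
      wm D (fun x => 5 / 8 * q x ^ 2 + ((K3 + K5) * (A ^ 3 / r ^ 4)) *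
        (1 + nb y (8 * r) x ^ ((4 : ℝ) / 3))) Ψ := by
    refine fluct_wm_mono D sp ℓ Ψ hΨ (M := 5 / 8 * (z * (Fintype.card I : ℝ) * A) ^ 2 +
      ((K3 + K5) * (A ^ 3 / r ^ 4)) * (1 + (Fintype.card I : ℝ) ^ ((4 : ℝ) / 3))) ?_ ?_ ?_ ?_
    · intro x
      have := (fluctT_pt (fun x v R hR => hnear x v R hR) hTM (y := y) hr x (p := 1 + |q x|)
        (k := 2 * (z ^ 2 * A ^ 2)) (by positivity) (by positivity) (hEE0 x) (hEE x)).1
      positivity
    · intro x
      have h1 := (fluctT_pt (fun x v R hR => hnear x v R hR) hTM (y := y) hr x (p := 1 + |q x|)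
        (k := 2 * (z ^ 2 * A ^ 2)) (by positivity) (by positivity) (hEE0 x) (hEE x)).2
      rw [← hV] at h1
      have h2 : C / r ^ 2 * (∫ w in Metric.closedBall y (3 * r),
        (|T w| * (1 + |q x|) * (1 + near2 w x) + 2 * (z ^ 2 * A ^ 2) * |T w| * nb y (3 * r) x +
        |T w| * (1 + |q x|) * (|T w| * (1 + |q x|) / (A / c)) ^ ((1 : ℝ) / 4))) ≤
          C / r ^ 2 * (A / c * ((1 + |q x|) * (27 * r ^ 3 * V + c2 * (4 * r) *
            (1 + nb y (8 * r) x ^ ((2 : ℝ) / 3))) +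
            2 * (z ^ 2 * A ^ 2) * nb y (8 * r) x * (27 * r ^ 3 * V)) +
            A / c * (1 + |q x|) ^ ((5 : ℝ) / 4) * (27 * r ^ 3 * V)) :=
        mul_le_mul_of_nonneg_left h1 (by positivity)
      refine h2.trans ?_
      have g1 := fluct_alg (q := q x) (z := z) hC hc hA hr hr1 hV0 hc2 hL rfl
        (fluct_nb_nonneg y (8 * r) x) (fluct_nb_le_pow y (8 * r) x)
      rw [← hK3] at g1
      have g2 := fluctT_alg (q := q x) hC hc hA hr hr1 hV0
      rw [← hK5] at g2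
      have h1 : 0 ≤ nb y (8 * r) x ^ ((4 : ℝ) / 3) := Real.rpow_nonneg (fluct_nb_nonneg _ _ _) _
      have g3 : 0 ≤ K5 * (A ^ 3 / r ^ 4) * nb y (8 * r) x ^ ((4 : ℝ) / 3) := by positivity
      rw [mul_add (C / r ^ 2)]
      calc _ ≤ _ := add_le_add g1 g2
        _ ≤ _ := by
          have e : (5 / 8 * q x ^ 2 + ((K3 + K5) * (A ^ 3 / r ^ 4)) *
              (1 + nb y (8 * r) x ^ ((4 : ℝ) / 3))) = 1 / 2 * q x ^ 2 + K3 * (A ^ 3 / r ^ 4) *
              (1 + nb y (8 * r) x ^ ((4 : ℝ) / 3)) + (1 / 8 * q x ^ 2 + K5 * (A ^ 3 / r ^ 4)) +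
              K5 * (A ^ 3 / r ^ 4) * nb y (8 * r) x ^ ((4 : ℝ) / 3) := by ring
          rw [e]
          linarith
    · exact ((hqc.measurable.pow_const 2).const_mul _).add
        (((hnbm.pow_const _).const_add 1).const_mul _)
    · intro x
      have h1 : 0 ≤ nb y (8 * r) x ^ ((4 : ℝ) / 3) := Real.rpow_nonneg (fluct_nb_nonneg _ _ _) _
      have h2 : nb y (8 * r) x ^ ((4 : ℝ) / 3) ≤ (Fintype.card I : ℝ) ^ ((4 : ℝ) / 3) :=
        Real.rpow_le_rpow (fluct_nb_nonneg _ _ _) (fluct_nb_le _ _ _) (by norm_num)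
      have h3 : q x ^ 2 ≤ (z * (Fintype.card I : ℝ) * A) ^ 2 := by
        rw [← sq_abs]
        have := hqb x
        gcongr
      rw [abs_of_nonneg (by positivity)]
      gcongr
  have hlin := fluct_wm_lin D sp ℓ Ψ hΨ hn (W1 := fun x => q x ^ 2)
    (W2 := fun x => nb y (8 * r) x ^ ((4 : ℝ) / 3)) (hqc.measurable.pow_const 2)
    (hnbm.pow_const _) (M1 := (z * (Fintype.card I : ℝ) * A) ^ 2)
    (M2 := (Fintype.card I : ℝ) ^ ((4 : ℝ) / 3))
    (fun x => by
      rw [abs_of_nonneg (sq_nonneg _), ← sq_abs]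
      have := hqb x
      gcongr)
    (fun x => by
      rw [abs_of_nonneg (Real.rpow_nonneg (fluct_nb_nonneg _ _ _) _)]
      exact Real.rpow_le_rpow (fluct_nb_nonneg _ _ _) (fluct_nb_le _ _ _) (by norm_num))
    (5 / 8) ((K3 + K5) * (A ^ 3 / r ^ 4))
  have hcm : wm D (fun x => C / r ^ 2 * ∫ w in Metric.closedBall y (3 * r),
      (|T w| * (1 + |q x|) * (1 + near2 w x) + 2 * (z ^ 2 * A ^ 2) * |T w| * nb y (3 * r) x +
        |T w| * (1 + |q x|) * (|T w| * (1 + |q x|) / (A / c)) ^ ((1 : ℝ) / 4))) Ψ =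
      C / r ^ 2 * wm D (fun x => ∫ w in Metric.closedBall y (3 * r),
      (|T w| * (1 + |q x|) * (1 + near2 w x) + 2 * (z ^ 2 * A ^ 2) * |T w| * nb y (3 * r) x +
        |T w| * (1 + |q x|) * (|T w| * (1 + |q x|) / (A / c)) ^ ((1 : ℝ) / 4))) Ψ := by
    unfold wm
    rw [Finset.mul_sum]
    refine Finset.sum_congr rfl fun τ _ => ?_
    rw [← integral_const_mul]
    refine integral_congr_ae (Filter.Eventually.of_forall fun x => ?_)
    simp only
    ring
  have hlast2 := fluctT_alg2 hC hc hA hr hr1 hV0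
  rw [← hK6] at hlast2
  have hsplit : C / r ^ 2 * (2 * (A / c + A / c * (1 + z * (Fintype.card I : ℝ) * A) * η) *
      (27 * r ^ 3 * V)) = C / r ^ 2 * (2 * (A / c) * (27 * r ^ 3 * V)) +
      C / r ^ 2 * (2 * (A / c * (1 + z * (Fintype.card I : ℝ) * A)) * η * (27 * r ^ 3 * V)) := by
    ring
  have hlast := fluct_alg2 (N := (Fintype.card I : ℝ)) hC hz hc hA hr hr1 hV0 (Nat.cast_nonneg _)
    hη hη1
  have hle := (le_abs_self _).trans hmain
  have hgoal : (fun x => (∑ i, D.charge (sp i) * t (x i)) ^ 2) = fun x => q x ^ 2 := by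
    funext x
    rw [hq]
    rfl
  rw [hgoal, ← ha, ← hP]
  rw [mul_add, ← hcm, ← ha] at hle
  rw [hlin, ← ha, ← hP] at hW1
  rw [← hK4] at hlast
  have hAr : 0 < A ^ 3 / r ^ 4 := by positivity
  rw [hsplit] at hle
  obtain ⟨Q, hQ⟩ : ∃ Q : ℝ, Q = A ^ 3 / r ^ 4 := ⟨_, rfl⟩
  rw [← hQ] at hW1 hlast hlast2 hAr
  have e1 : a ≤ 5 / 8 * a + (K3 + K5) * Q * (1 + P) + K4 * Q + K6 * Q := by
    linarith
  have e2 : K4 * Q ≤ K4 * Q * (1 + P) := by
    have : 0 ≤ K4 * Q := by positivity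
    nlinarith
  have e2' : K6 * Q ≤ K6 * Q * (1 + P) := by
    have : 0 ≤ K6 * Q := by positivity
    nlinarith
  have e0 : 0 ≤ (K3 + K5 + K4 + K6) * Q * (1 + P) := by positivity
  have e3 : a ≤ 3 * ((K3 + K5 + K4 + K6) * Q * (1 + P)) := by linarith
  have e4 : 0 ≤ Q * (1 + P) := by positivity
  calc a ≤ 3 * ((K3 + K5 + K4 + K6) * Q * (1 + P)) := e3
    _ ≤ 3 * ((K3 + K5 + K4 + K6) * Q * (1 + P)) + Q * (1 + P) := by linarith
    _ = (3 * (K3 + K5 + K4 + K6) + 1) * A ^ 3 / r ^ 4 * (1 + P) := by rw [hQ]; ring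

end Pool.Agent.Helper780_CP.RG7
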