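import Pool.Agent.Helper780_CP.LLDefs2
import Pool.Agent.Helper780_CP.TDefs
import Pool.Agent.Helper780_CP.RQ10
import Pool.Agent.Helper780_CP.RG6
import Pool.Agent.Helper780_CP.RG7

set_option autoImplicit false

open MeasureTheory
open scoped Topology

namespace Pool.Agent.Helper780_CP.RG8

open Pool.Agent.Helper780_CP
open Pool.Agent.Helper985.CP
open Pool.Agent.Helper780_CP.RG6 (tciT)
open Pool.Agent.Helper780_CP.RG7 (fluctT)

open Pool.Agent.Helper780_CP Pool.Agent.Helper985.CP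

open Pool.Agent.Helper780_CP.RQ10 (fix_x t_bounds compact_of_zero phi_int q_smooth q_sy f12 gr_q
  nb_meas nb_nonneg nb_le ker_one ker_b cy_smooth cy_zero main_repr swap_bound)

/-- `s ^ (1/4)` is at most `1 + s` -/
theorem main_termT_rp {G : ℝ} (hG : 0 ≤ G) : (G / 1) ^ ((1 : ℝ) / 4) ≤ 1 + G := by
  rw [div_one]
  rcases le_total G 1 with h | h
  · have := Real.rpow_le_one hG h (by norm_num : (0 : ℝ) ≤ 1 / 4)
    linarith
  · have : G ^ ((1 : ℝ) / 4) ≤ G ^ (1 : ℝ) := Real.rpow_le_rpow_of_exponent_le h (by norm_num)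
    rw [Real.rpow_one] at this
    linarith

/-- the extra term -/
theorem main_termT_ex {Bp q u : ℝ} (hB : 0 ≤ Bp) (hu0 : 0 ≤ u) (hu : u ≤ Bp) :
    u * (2 + 3 * |q|) * ((u * (2 + 3 * |q|)) / 1) ^ ((1 : ℝ) / 4) ≤
      (1 + Bp) ^ 2 * (23 * (1 + q ^ 2)) := by
  have hq := abs_nonneg q
  have hq2 : q ^ 2 = |q| ^ 2 := (sq_abs q).symm
  have hG : 0 ≤ u * (2 + 3 * |q|) := by positivity
  have h1 := main_termT_rp hG
  have h2 : u * (2 + 3 * |q|) * ((u * (2 + 3 * |q|)) / 1) ^ ((1 : ℝ) / 4) ≤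
      u * (2 + 3 * |q|) * (1 + u * (2 + 3 * |q|)) := mul_le_mul_of_nonneg_left h1 hG
  have h3 : u * (2 + 3 * |q|) * (1 + u * (2 + 3 * |q|)) ≤
      Bp * (2 + 3 * |q|) * (1 + Bp * (2 + 3 * |q|)) := by gcongr
  have h4 : (2 + 3 * |q|) ≤ 23 / 3 * (1 + q ^ 2) := by
    rw [hq2]; nlinarith [sq_nonneg (|q| - 1)]
  have h5 : (2 + 3 * |q|) ^ 2 ≤ 46 / 3 * (1 + q ^ 2) := by
    rw [hq2]; nlinarith [sq_nonneg (|q| - 1)]
  have h6 : Bp ≤ (1 + Bp) ^ 2 := by nlinarith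
  have h7 : Bp ^ 2 ≤ (1 + Bp) ^ 2 := by nlinarith
  refine h2.trans (h3.trans ?_)
  calc Bp * (2 + 3 * |q|) * (1 + Bp * (2 + 3 * |q|)) =
        Bp * (2 + 3 * |q|) + Bp ^ 2 * (2 + 3 * |q|) ^ 2 := by ring
    _ ≤ (1 + Bp) ^ 2 * (23 / 3 * (1 + q ^ 2)) + (1 + Bp) ^ 2 * (46 / 3 * (1 + q ^ 2)) := by
        gcongr
    _ = _ := by ring

/-- the bound at a fixed configuration -/
theorem main_termT_fix (z Cn : ℝ) (hz : 0 ≤ z) (hCn : 0 < Cn)
    (hnear : ∀ {I : Type} [Fintype I] (x : I → E3) (v : E3) (R : ℝ),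
    0 < R → IntegrableOn (fun w => near2 w x) (Metric.ball v R) ∧
      ∫ w in Metric.ball v R, near2 w x ≤
        Cn * R * (1 + ((Finset.univ.filter (fun i => ‖x i - v‖ ≤ 2 * R)).card : ℝ) ^ ((2 : ℝ) / 3)))
    {I : Type} [Fintype I] (x : I → E3) (y : E3) (r : ℝ) (hr : 0 < r) (hr1 : r ≤ 1)
    (A Bp : ℝ) (hA : 1 ≤ A) (hBp : 0 ≤ Bp) (p : E3 → ℝ) (hp : ∀ ω, |p ω| ≤ Bp) (q : ℝ) :
    ∫ ω in Metric.closedBall y (3 * r), (|p ω| * (2 + 3 * |q|) * (1 + near2 ω x) +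
      2 * |p ω| * (3 * z ^ 2 * A ^ 2 * nb y (8 * r) x) +
      |p ω| * (2 + 3 * |q|) * ((|p ω| * (2 + 3 * |q|)) / 1) ^ ((1 : ℝ) / 4)) ≤
      (1 + Bp) ^ 2 * A ^ 2 * (5 * ((volume (Metric.closedBall (0 : E3) 3)).toReal + 4 * Cn) +
        6 * z ^ 2 * (volume (Metric.closedBall (0 : E3) 3)).toReal +
        23 * (volume (Metric.closedBall (0 : E3) 3)).toReal) *
        (1 + (q ^ 2 + nb y (8 * r) x ^ ((4 : ℝ) / 3))) := by
  have h0 := fix_x z Cn hz hCn hnear x y r hr hr1 A Bp hA hBp (fun _ => Bp)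
    (fun _ => (abs_of_nonneg hBp).le) q
  obtain ⟨hi, -⟩ := hnear x y (4 * r) (by linarith)
  set V := (volume (Metric.closedBall (0 : E3) 3)).toReal with hV
  have hV0 : 0 ≤ V := ENNReal.toReal_nonneg
  set n := nb y (8 * r) x with hn
  have hn0 : 0 ≤ n := nb_nonneg _ _ _
  set s := n ^ ((4 : ℝ) / 3) with hs
  have hs0 : 0 ≤ s := Real.rpow_nonneg hn0 _
  have hsub : Metric.closedBall y (3 * r) ⊆ Metric.ball y (4 * r) :=
    Metric.closedBall_subset_ball (by linarith)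
  have hiA : IntegrableOn (fun w => near2 w x) (Metric.closedBall y (3 * r)) := hi.mono_set hsub
  have hvol : volume.real (Metric.closedBall y (3 * r)) ≤ V := by
    have h1 : volume (Metric.closedBall y (3 * r)) ≤ volume (Metric.closedBall (0 : E3) 3) := by
      rw [Measure.addHaar_closedBall_center]
      exact measure_mono (Metric.closedBall_subset_closedBall (by linarith))
    exact ENNReal.toReal_mono measure_closedBall_lt_top.ne h1
  have hci : ∀ c : ℝ, IntegrableOn (fun _ : E3 => c) (Metric.closedBall y (3 * r)) := fun c =>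
    integrableOn_const measure_closedBall_lt_top.ne
  have hold : IntegrableOn (fun ω => |Bp| * (2 + 3 * |q|) * (1 + near2 ω x) +
      2 * |Bp| * (3 * z ^ 2 * A ^ 2 * n)) (Metric.closedBall y (3 * r)) :=
    (((hci 1).add hiA).const_mul (|Bp| * (2 + 3 * |q|))).add (hci _)
  have hb : ∫ ω in Metric.closedBall y (3 * r), (|p ω| * (2 + 3 * |q|) * (1 + near2 ω x) +
      2 * |p ω| * (3 * z ^ 2 * A ^ 2 * n) +
      |p ω| * (2 + 3 * |q|) * ((|p ω| * (2 + 3 * |q|)) / 1) ^ ((1 : ℝ) / 4)) ≤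
      ∫ ω in Metric.closedBall y (3 * r), ((|Bp| * (2 + 3 * |q|) * (1 + near2 ω x) +
      2 * |Bp| * (3 * z ^ 2 * A ^ 2 * n)) + (1 + Bp) ^ 2 * (23 * (1 + q ^ 2))) := by
    refine integral_mono_of_nonneg (Filter.Eventually.of_forall fun ω => ?_) (hold.add (hci _))
      (Filter.Eventually.of_forall fun ω => ?_)
    · have := Pool.Agent.Helper780_CP.RQ10.near2_nonneg ω x
      show 0 ≤ |p ω| * (2 + 3 * |q|) * (1 + near2 ω x) + 2 * |p ω| * (3 * z ^ 2 * A ^ 2 * n) +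
        |p ω| * (2 + 3 * |q|) * ((|p ω| * (2 + 3 * |q|)) / 1) ^ ((1 : ℝ) / 4)
      positivity
    · have h1 := Pool.Agent.Helper780_CP.RQ10.near2_nonneg ω x
      have h2 := hp ω
      have h3 := main_termT_ex (q := q) hBp (abs_nonneg (p ω)) h2
      show |p ω| * (2 + 3 * |q|) * (1 + near2 ω x) + 2 * |p ω| * (3 * z ^ 2 * A ^ 2 * n) +
        |p ω| * (2 + 3 * |q|) * ((|p ω| * (2 + 3 * |q|)) / 1) ^ ((1 : ℝ) / 4) ≤
        (|Bp| * (2 + 3 * |q|) * (1 + near2 ω x) + 2 * |Bp| * (3 * z ^ 2 * A ^ 2 * n)) +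
        (1 + Bp) ^ 2 * (23 * (1 + q ^ 2))
      rw [abs_of_nonneg hBp]
      refine add_le_add ?_ h3
      gcongr
  refine hb.trans ?_
  rw [integral_add hold (hci _)]
  have h1 : ∫ ω in Metric.closedBall y (3 * r), (1 + Bp) ^ 2 * (23 * (1 + q ^ 2)) ≤
      (1 + Bp) ^ 2 * (23 * (1 + q ^ 2)) * V := by
    simp only [integral_const, smul_eq_mul, measureReal_restrict_apply_univ]
    rw [mul_comm]
    exact mul_le_mul_of_nonneg_left hvol (by positivity)
  refine (add_le_add h0 h1).trans ?_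
  have hA2 : 1 ≤ A ^ 2 := one_le_pow₀ hA
  have h6 : Bp ≤ (1 + Bp) ^ 2 := by nlinarith
  have h7 : Bp * A ^ 2 * (5 * (V + 4 * Cn) + 6 * z ^ 2 * V) * (1 + (q ^ 2 + s)) ≤
      (1 + Bp) ^ 2 * A ^ 2 * (5 * (V + 4 * Cn) + 6 * z ^ 2 * V) * (1 + (q ^ 2 + s)) := by
    gcongr
  have h8 : (1 + Bp) ^ 2 * (23 * (1 + q ^ 2)) * V ≤
      (1 + Bp) ^ 2 * A ^ 2 * (23 * V) * (1 + (q ^ 2 + s)) := by
    have h9 : 1 + q ^ 2 ≤ 1 + (q ^ 2 + s) := by linarith
    calc (1 + Bp) ^ 2 * (23 * (1 + q ^ 2)) * V = (1 + Bp) ^ 2 * 1 * (23 * V) * (1 + q ^ 2) := by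
          ring
      _ ≤ _ := by gcongr
  linarith

/-- the estimate for fixed `u` -/
theorem main_termT_fixu (z C : ℝ) (hz : 0 ≤ z) (hC : 0 ≤ C) : ∃ C' : ℝ, 0 < C' ∧
    ∀ {S : Type} (D : Species S) {I : Type} [Fintype I] [DecidableEq I] (sp : I → S) (ℓ : ℝ)
      (pb : (I → E3) → ℝ), Continuous pb → (∀ s, |D.charge s| ≤ z) →
      ∀ (η : ℝ), 0 ≤ η → η * (1 + (Fintype.card I : ℝ)) ≤ 1 → ∀ Ψ : Wave D I, IsState D sp ℓ Ψ →
      nrm2 D Ψ = 1 → FLT D sp ℓ pb C η Ψ →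
      ∀ (y : E3) (r : ℝ), 0 < r → r ≤ 1 → Metric.closedBall y (4 * r) ⊆ cube ℓ →
      ∀ (t : E3 → ℝ) (A : ℝ), ContDiff ℝ SM t → 1 ≤ A → (∀ v, 2 * r < ‖v - y‖ → t v = 0) →
        (∀ v, |t v| ≤ A) → (∀ v, ‖fderiv ℝ t v‖ ≤ A) → (∀ v, |lap t v| ≤ A) →
      ∀ (p : E3 → ℝ) (Bp : ℝ), Continuous p → 0 ≤ Bp → (∀ ω, |p ω| ≤ Bp) →
        (∀ ω, p ω ≠ 0 → ‖ω - y‖ ≤ 3 * r) →
        |wm D (fun x => (∑ i, D.charge (sp i) * t (x i)) *
          ((∑ j, D.charge (sp j) * ∫ ω, p ω / ‖ω - x j‖) - pb x * ∫ ω, p ω)) Ψ| ≤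
          C' * (1 + Bp) ^ 2 * A ^ 5 / r ^ 6 *
            (1 + wm D (fun x => nb y (8 * r) x ^ ((4 : ℝ) / 3)) Ψ) := by
  obtain ⟨Cn, hCn, hnear⟩ := Pool.Agent.Helper780_CP.RC3.near2_ball
  obtain ⟨C1, hC1, hfl⟩ := fluctT z C hz hC
  set V := (volume (Metric.closedBall (0 : E3) 3)).toReal with hV
  have hV0 : 0 ≤ V := ENNReal.toReal_nonneg
  set K1 := 5 * (V + 4 * Cn) + 6 * z ^ 2 * V + 23 * V with hK1
  have hK1p : 0 < K1 := by positivity
  refine ⟨(C + 1) * (K1 * (1 + C1) + 2 * (3 + 3 * z) * V), by positivity, ?_⟩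
  intro S D I _ _ sp ℓ pb hpb hz' η hη hηN Ψ hΨ hn hFL y r hr hr1 hcube t A ht hA ht0 htA htA' htL
    p Bp hpc hBp hpB hp0
  set N : ℝ := (Fintype.card I : ℝ) with hN
  have hN0 : 0 ≤ N := Nat.cast_nonneg _
  set q : (I → E3) → ℝ := fun x => ∑ i, D.charge (sp i) * t (x i) with hq
  have hqs : ContDiff ℝ SM q := q_smooth (fun i => D.charge (sp i)) t ht
  have hqS : Sy sp q := q_sy sp D.charge t
  have hA0 : 0 ≤ A := by linarith
  have hqQ : ∀ x, |q x| ≤ z * A * N := by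
    intro x
    refine (Finset.abs_sum_le_sum_abs _ _).trans ?_
    calc _ ≤ ∑ _i : I, z * A := Finset.sum_le_sum fun i _ => by
            rw [abs_mul]
            exact mul_le_mul (hz' _) (htA _) (abs_nonneg _) hz
      _ = _ := by simp [hN]; ring
  have hpcomp : HasCompactSupport p := by
    refine compact_of_zero y (3 * r) fun w hw => ?_
    by_contra h
    exact absurd (hp0 w h) (not_le.2 hw)
  set AA := Metric.closedBall y (3 * r) with hAA
  have hpA : ∀ ω, p ω ≠ 0 → ω ∈ AA := by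
    intro ω h
    rw [hAA, Metric.mem_closedBall, dist_eq_norm]
    exact hp0 ω h
  set s : (I → E3) → ℝ := fun x => nb y (8 * r) x ^ ((4 : ℝ) / 3) with hs
  have hs0 : ∀ x, 0 ≤ s x := fun x => Real.rpow_nonneg (nb_nonneg _ _ _) _
  have hsm : Measurable s := (nb_meas y (8 * r)).pow_const _
  have hsM : ∀ x, |s x| ≤ N ^ ((4 : ℝ) / 3) := by
    intro x
    rw [abs_of_nonneg (hs0 x)]
    exact Real.rpow_le_rpow (nb_nonneg _ _ _) (nb_le _ _ _) (by norm_num)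
  -- the identity
  have hid : (fun x => (∑ i, D.charge (sp i) * t (x i)) *
          ((∑ j, D.charge (sp j) * ∫ ω, p ω / ‖ω - x j‖) - pb x * ∫ ω, p ω)) =
      fun x => ∫ ω in AA, (p ω * q x) * (phi D sp ω x - pb x) := by
    funext x
    rw [phi_int D sp x (pb x) (q x) p hpc hpcomp AA hpA]
  rw [hid]
  set M : ℝ := Bp * (2 + 3 * (z * A * N)) + 2 * Bp * (3 * z ^ 2 * A ^ 2 * N) with hM
  have hmain := tciT D sp ℓ pb hpb C η hC hη Ψ hΨ hn hFL 1 one_pos r hr hr1 AA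
    Metric.isClosed_closedBall.measurableSet
    ⟨3 * r + ‖y‖, by
      intro ω hω
      rw [hAA, Metric.mem_closedBall, dist_eq_norm] at hω
      rw [Metric.mem_closedBall, dist_eq_norm, sub_zero]
      calc ‖ω‖ = ‖(ω - y) + y‖ := by rw [sub_add_cancel]
        _ ≤ ‖ω - y‖ + ‖y‖ := norm_add_le _ _
        _ ≤ _ := by linarith⟩
    (by
      intro ω hω
      refine subset_trans ?_ hcube
      intro v hv
      rw [Metric.mem_closedBall, dist_eq_norm] at hv ⊢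
      rw [hAA, Metric.mem_closedBall, dist_eq_norm] at hω
      calc ‖v - y‖ = ‖(v - ω) + (ω - y)‖ := by rw [sub_add_sub_cancel]
        _ ≤ ‖v - ω‖ + ‖ω - y‖ := norm_add_le _ _
        _ ≤ _ := by linarith)
    (fun x ω => p ω * q x) (fun x ω => |p ω| * (2 + 3 * |q x|))
    (fun x ω => 2 * |p ω| * (3 * z ^ 2 * A ^ 2 * nb y (8 * r) x))
    (√(Bp * (2 + 3 * (z * A * N)))) M
    (by
      have h1 : Measurable (fun pp : (I → E3) × E3 => p pp.2) :=
        hpc.measurable.comp measurable_snd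
      have h2 : Measurable (fun pp : (I → E3) × E3 => q pp.1) :=
        hqs.continuous.measurable.comp measurable_fst
      exact h1.mul h2)
    (by
      have h1 : Measurable (fun pp : (I → E3) × E3 => |p pp.2|) :=
        (hpc.abs.measurable).comp measurable_snd
      have h2 : Measurable (fun pp : (I → E3) × E3 => |q pp.1|) :=
        (hqs.continuous.abs.measurable).comp measurable_fst
      exact h1.mul ((h2.const_mul 3).const_add 2))
    (by
      have h1 : Measurable (fun pp : (I → E3) × E3 => |p pp.2|) :=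
        (hpc.abs.measurable).comp measurable_snd
      have h2 : Measurable (fun pp : (I → E3) × E3 => nb y (8 * r) pp.1) :=
        (nb_meas y (8 * r)).comp measurable_fst
      exact (h1.const_mul 2).mul (h2.const_mul _))
    (by
      intro x ω _
      have h1 : |p ω| * (2 + 3 * |q x|) ≤ Bp * (2 + 3 * (z * A * N)) := by
        have := hqQ x
        have := hpB ω
        gcongr
      have h2 : 2 * |p ω| * (3 * z ^ 2 * A ^ 2 * nb y (8 * r) x) ≤
          2 * Bp * (3 * z ^ 2 * A ^ 2 * N) := by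
        have := hpB ω
        have := nb_le y (8 * r) x
        gcongr
        exact mul_nonneg (by positivity) (nb_nonneg _ _ _)
      have h3 : 0 ≤ Bp * (2 + 3 * (z * A * N)) := by positivity
      have h4 : 0 ≤ 2 * Bp * (3 * z ^ 2 * A ^ 2 * N) := by positivity
      constructor
      · show |p ω| * (2 + 3 * |q x|) ≤ M
        linarith
      · show 2 * |p ω| * (3 * z ^ 2 * A ^ 2 * nb y (8 * r) x) ≤ M
        linarith)
    (by
      intro ω _
      obtain ⟨f₁, f₂, g1, g2, g3, g4, g5, g6, g7, g8, g9⟩ :=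
        f12 sp (p ω) q hqs hqS (z * A * N) hqQ
      have hle : √(|p ω| * (2 + 3 * (z * A * N))) ≤ √(Bp * (2 + 3 * (z * A * N))) := by
        apply Real.sqrt_le_sqrt
        have := hpB ω
        gcongr
      refine ⟨f₁, f₂, g1, g2, g3, g4, fun x => (g5 x).trans hle, fun x => (g6 x).trans hle, g7, g8,
        fun x => (g9 x).trans ?_⟩
      refine mul_le_mul_of_nonneg_left ?_ (by positivity)
      exact gr_q (fun i => D.charge (sp i)) z A (fun i => hz' _) t ht y r hr ht0 htA' x)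
  refine hmain.trans ?_
  -- bounding
  have hX : wm D (fun x => ∫ ω in AA, (|p ω| * (2 + 3 * |q x|) * (1 + near2 ω x) +
      2 * |p ω| * (3 * z ^ 2 * A ^ 2 * nb y (8 * r) x) +
      |p ω| * (2 + 3 * |q x|) * ((|p ω| * (2 + 3 * |q x|)) / 1) ^ ((1 : ℝ) / 4))) Ψ ≤
      wm D (fun x => (1 + Bp) ^ 2 * A ^ 2 * K1 * (1 + (q x ^ 2 + s x))) Ψ := by
    refine Pool.Agent.Helper780_CP.RQ10.wm_mono (fun x => ?_) (fun x => ?_) ?_
    · refine integral_nonneg fun ω => ?_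
      have := Pool.Agent.Helper780_CP.RQ10.near2_nonneg ω x
      have := nb_nonneg y (8 * r) x
      show 0 ≤ |p ω| * (2 + 3 * |q x|) * (1 + near2 ω x) +
        2 * |p ω| * (3 * z ^ 2 * A ^ 2 * nb y (8 * r) x) +
        |p ω| * (2 + 3 * |q x|) * ((|p ω| * (2 + 3 * |q x|)) / 1) ^ ((1 : ℝ) / 4)
      positivity
    · exact main_termT_fix z Cn hz hCn hnear x y r hr hr1 A Bp hA hBp p hpB (q x)
    · refine Pool.Agent.Helper780_CP.RQ10.WI.const_mul ?_ _
      refine Pool.Agent.Helper780_CP.RQ10.WI.add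
        (Pool.Agent.Helper780_CP.RQ10.WI.of_cont hΨ continuous_const) ?_
      exact Pool.Agent.Helper780_CP.RQ10.WI.add
        (Pool.Agent.Helper780_CP.RQ10.WI.of_cont hΨ (hqs.continuous.pow 2))
        (Pool.Agent.Helper780_CP.RQ10.WI.of_bdd hΨ hsm _ hsM)
  have hY : wm D (fun x => (1 + Bp) ^ 2 * A ^ 2 * K1 * (1 + (q x ^ 2 + s x))) Ψ =
      (1 + Bp) ^ 2 * A ^ 2 * K1 * (1 + (wm D (fun x => q x ^ 2) Ψ + wm D s Ψ)) := by
    have hq2 : Pool.Agent.Helper780_CP.RQ10.WI (fun x => q x ^ 2) Ψ :=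
      Pool.Agent.Helper780_CP.RQ10.WI.of_cont hΨ (hqs.continuous.pow 2)
    have hs2 : Pool.Agent.Helper780_CP.RQ10.WI s Ψ :=
      Pool.Agent.Helper780_CP.RQ10.WI.of_bdd hΨ hsm _ hsM
    rw [Pool.Agent.Helper780_CP.RQ10.wm_const_mul]
    have e1 := Pool.Agent.Helper780_CP.RQ10.wm_add (W := fun _ => (1 : ℝ))
      (Pool.Agent.Helper780_CP.RQ10.WI.of_cont hΨ continuous_const)
      (Pool.Agent.Helper780_CP.RQ10.WI.add hq2 hs2)
    have e2 := Pool.Agent.Helper780_CP.RQ10.wm_add hq2 hs2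
    rw [e1, e2, Pool.Agent.Helper780_CP.RQ10.wm_const, hn, one_mul]
  have hQ2 : wm D (fun x => q x ^ 2) Ψ ≤ C1 * A ^ 3 / r ^ 4 * (1 + wm D s Ψ) :=
    hfl D sp ℓ pb hpb hz' η hη hηN Ψ hΨ hn hFL y r hr hr1 hcube t A ht hA
      (fun v hv => ht0 v (by linarith)) htA htA' htL
  set T := wm D s Ψ with hT
  have hT0 : 0 ≤ T := Pool.Agent.Helper780_CP.RQ10.wm_nonneg hs0
  have hvol : (volume AA).toReal ≤ V := by
    have h1 : volume AA ≤ volume (Metric.closedBall (0 : E3) 3) := by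
      rw [hAA, Measure.addHaar_closedBall_center]
      exact measure_mono (Metric.closedBall_subset_closedBall (by linarith))
    exact ENNReal.toReal_mono measure_closedBall_lt_top.ne h1
  have hB : √(Bp * (2 + 3 * (z * A * N))) ^ 2 = Bp * (2 + 3 * (z * A * N)) :=
    Real.sq_sqrt (by positivity)
  have hZ : 2 * (1 + √(Bp * (2 + 3 * (z * A * N))) ^ 2 * η) * (volume AA).toReal ≤
      2 * (1 + Bp) ^ 2 * (3 + 3 * z) * A * V := by
    rw [hB]
    have h1 : (2 + 3 * (z * A * N)) * η ≤ (2 + 3 * z) * A := by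
      have h2 : 2 + 3 * (z * A * N) ≤ (2 + 3 * z) * A * (1 + N) := by
        have h3 : 0 ≤ A * N := by positivity
        have h4 : 0 ≤ z * A := by positivity
        nlinarith
      calc (2 + 3 * (z * A * N)) * η ≤ ((2 + 3 * z) * A * (1 + N)) * η := by gcongr
        _ = (2 + 3 * z) * A * (η * (1 + N)) := by ring
        _ ≤ (2 + 3 * z) * A * 1 := by gcongr
        _ = _ := by ring
    have h5 : 1 + Bp * (2 + 3 * (z * A * N)) * η ≤ (1 + Bp) ^ 2 * ((3 + 3 * z) * A) := by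
      have h6 : Bp ≤ (1 + Bp) ^ 2 := by nlinarith
      have h7 : (1 : ℝ) ≤ (1 + Bp) ^ 2 := by nlinarith
      calc 1 + Bp * (2 + 3 * (z * A * N)) * η = 1 * 1 + Bp * ((2 + 3 * (z * A * N)) * η) := by ring
        _ ≤ (1 + Bp) ^ 2 * A + (1 + Bp) ^ 2 * ((2 + 3 * z) * A) := by gcongr
        _ = _ := by ring
    calc 2 * (1 + Bp * (2 + 3 * (z * A * N)) * η) * (volume AA).toReal ≤
        2 * ((1 + Bp) ^ 2 * ((3 + 3 * z) * A)) * V := by gcongr
      _ = _ := by ring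
  have hAr : 1 ≤ A ^ 3 / r ^ 4 := by
    rw [one_le_div (by positivity)]
    calc r ^ 4 ≤ 1 := pow_le_one₀ hr.le hr1
      _ ≤ A ^ 3 := one_le_pow₀ hA
  have hfin1 : (1 + Bp) ^ 2 * A ^ 2 * K1 * (1 + (wm D (fun x => q x ^ 2) Ψ + T)) ≤
      (1 + Bp) ^ 2 * A ^ 2 * K1 * ((1 + C1) * (A ^ 3 / r ^ 4) * (1 + T)) := by
    refine mul_le_mul_of_nonneg_left ?_ (by positivity)
    have h1 : (1 + T) ≤ (A ^ 3 / r ^ 4) * (1 + T) := le_mul_of_one_le_left (by positivity) hAr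
    have h2 : C1 * A ^ 3 / r ^ 4 * (1 + T) = C1 * (A ^ 3 / r ^ 4) * (1 + T) := by ring
    rw [h2] at hQ2
    nlinarith
  have hfin2 : 2 * (1 + Bp) ^ 2 * (3 + 3 * z) * A * V ≤
      2 * (1 + Bp) ^ 2 * (3 + 3 * z) * V * (A ^ 5 / r ^ 4) * (1 + T) := by
    have h1 : A ≤ (A ^ 5 / r ^ 4) * (1 + T) := by
      have h2 : A ≤ A ^ 5 / r ^ 4 := by
        rw [le_div_iff₀ (by positivity)]
        calc A * r ^ 4 ≤ A * 1 := by
              gcongr
              exact pow_le_one₀ hr.le hr1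
          _ = A ^ 1 := by ring
          _ ≤ A ^ 5 := pow_le_pow_right₀ hA (by norm_num)
      exact h2.trans (le_mul_of_one_le_right (by positivity) (by linarith))
    calc 2 * (1 + Bp) ^ 2 * (3 + 3 * z) * A * V = 2 * (1 + Bp) ^ 2 * (3 + 3 * z) * V * A := by ring
      _ ≤ 2 * (1 + Bp) ^ 2 * (3 + 3 * z) * V * ((A ^ 5 / r ^ 4) * (1 + T)) := by gcongr
      _ = _ := by ring
  have hCr : 0 ≤ C / r ^ 2 := by positivity
  calc C / r ^ 2 * (wm D (fun x => ∫ ω in AA, (|p ω| * (2 + 3 * |q x|) * (1 + near2 ω x) +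
      2 * |p ω| * (3 * z ^ 2 * A ^ 2 * nb y (8 * r) x) +
      |p ω| * (2 + 3 * |q x|) * ((|p ω| * (2 + 3 * |q x|)) / 1) ^ ((1 : ℝ) / 4))) Ψ +
        2 * (1 + √(Bp * (2 + 3 * (z * A * N))) ^ 2 * η) * (volume AA).toReal)
      ≤ C / r ^ 2 * ((1 + Bp) ^ 2 * A ^ 2 * K1 * ((1 + C1) * (A ^ 3 / r ^ 4) * (1 + T)) +
        2 * (1 + Bp) ^ 2 * (3 + 3 * z) * V * (A ^ 5 / r ^ 4) * (1 + T)) := by
        refine mul_le_mul_of_nonneg_left ?_ hCr
        refine add_le_add ?_ (hZ.trans hfin2)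
        exact (hX.trans hY.le).trans hfin1
    _ = C * ((K1 * (1 + C1) + 2 * (3 + 3 * z) * V) * ((1 + Bp) ^ 2 * A ^ 5 / r ^ 6) *
        (1 + T)) := by
        have hr0 : r ≠ 0 := hr.ne'
        field_simp
    _ ≤ (C + 1) * ((K1 * (1 + C1) + 2 * (3 + 3 * z) * V) * ((1 + Bp) ^ 2 * A ^ 5 / r ^ 6) *
        (1 + T)) := by
        gcongr
        linarith
    _ = _ := by ring

/-- TARGET -/
theorem main_termT (z C : ℝ) (hz : 0 ≤ z) (hC : 0 ≤ C) (a b l : E3 → ℝ) (hK : Ker a b l) :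
    ∃ (C' : ℝ) (m : ℕ), 0 < C' ∧
    ∀ {S : Type} (D : Species S) {I : Type} [Fintype I] [DecidableEq I] (sp : I → S) (ℓ : ℝ)
      (pb : (I → E3) → ℝ), Continuous pb → (∀ s, |D.charge s| ≤ z) →
      ∀ (η : ℝ), 0 ≤ η → η * (1 + (Fintype.card I : ℝ)) ≤ 1 → ∀ Ψ : Wave D I, IsState D sp ℓ Ψ →
      nrm2 D Ψ = 1 → FLT D sp ℓ pb C η Ψ →
      ∀ (y : E3) (r : ℝ) (k : ℕ), 0 < r → r ≤ 1 → 1 ≤ 2 ^ k * r →
        Metric.closedBall y (4 * r) ⊆ cube ℓ →
        |wm D (fun x => (∑ i, ∑ j, cy y r (x i) * (cy y r (x i) - cy y r (x j)) *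
            (D.charge (sp i) * D.charge (sp j)) * (2 ^ k * l ((2 : ℝ) ^ k • (x i - x j)))) -
            pb x * ∑ i, D.charge (sp i) * cy y r (x i) ^ 2) Ψ| ≤
          C' * (2 ^ k) ^ m * (1 + wm D (fun x => nb y (8 * r) x ^ ((4 : ℝ) / 3)) Ψ) := by
  obtain ⟨C0, hC0, hfix⟩ := main_termT_fixu z C hz hC
  obtain ⟨CA, hCA, haCA, htb⟩ := t_bounds a hK.a_smooth hK.a_supp
  obtain ⟨C2, hC2, hker⟩ := Pool.Agent.Helper780_CP.RK4.kern_b b hK.b_smooth hK.b_out
  set V := (volume (Metric.closedBall (0 : E3) 3)).toReal with hV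
  have hV0 : 0 ≤ V := ENNReal.toReal_nonneg
  refine ⟨2 * (C0 * (1 + (CA + C2)) ^ 2 * CA ^ 5) * V + 1, 37, by positivity, ?_⟩
  intro S D I _ _ sp ℓ pb hpb hz' η hη hηN Ψ hΨ hn hFL y r k hr hr1 hk hcube
  obtain ⟨P, hPs, hPb, hP0, hPe, hPi⟩ := hker y r k hr hr1 hk
  set T := wm D (fun x => nb y (8 * r) x ^ ((4 : ℝ) / 3)) Ψ with hT
  have hT0 : 0 ≤ T := Pool.Agent.Helper780_CP.RQ10.wm_nonneg fun x => Real.rpow_nonneg (nb_nonneg _ _ _) _
  have hKp : (0 : ℝ) < 2 ^ k := by positivity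
  have hK1 : (1 : ℝ) ≤ 2 ^ k := one_le_pow₀ (by norm_num)
  have h8 : (8 : ℝ) ^ k = (2 ^ k) ^ 3 := by
    rw [← pow_mul, mul_comm k 3, pow_mul]; norm_num
  have hca : Continuous a := hK.a_smooth.continuous
  have hcb : Continuous b := hK.b_smooth.continuous
  have hcy : Continuous (cy y r) := (cy_smooth y r).continuous
  -- the integrand
  set H1 : (I → E3) → E3 → ℝ := fun x u =>
    (∑ i, D.charge (sp i) * (cy y r (x i) ^ 2 * (8 ^ k * a ((2 : ℝ) ^ k • (x i - u))))) *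
        ((∑ j, D.charge (sp j) * (2 ^ k * b ((2 : ℝ) ^ k • (u - x j)))) - pb x) with hH1
  set H2 : (I → E3) → E3 → ℝ := fun x u =>
    (∑ i, D.charge (sp i) * (cy y r (x i) * (8 ^ k * a ((2 : ℝ) ^ k • (x i - u))))) *
        (∑ j, D.charge (sp j) * (cy y r (x j) * (2 ^ k * b ((2 : ℝ) ^ k • (u - x j))))) with hH2
  clear_value H1 H2
  have cH1 : Continuous (fun p : (I → E3) × E3 => H1 p.1 p.2) := by
    rw [hH1]
    fun_prop
  have cH2 : Continuous (fun p : (I → E3) × E3 => H2 p.1 p.2) := by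
    rw [hH2]
    fun_prop
  have hrep : (fun x : I → E3 => (∑ i, ∑ j, cy y r (x i) * (cy y r (x i) - cy y r (x j)) *
            (D.charge (sp i) * D.charge (sp j)) * (2 ^ k * l ((2 : ℝ) ^ k • (x i - x j)))) -
            pb x * ∑ i, D.charge (sp i) * cy y r (x i) ^ 2) =
      fun x => ∫ u, (H1 x u - H2 x u) := by
    funext x
    rw [hH1, hH2]
    exact main_repr hK (fun i => D.charge (sp i)) (cy y r) x (pb x) k
  rw [hrep]
  -- vanishing
  have hvan : ∀ (x : I → E3) u, 5 / 2 * r < ‖u - y‖ → ∀ i,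
      cy y r (x i) * (8 ^ k * a ((2 : ℝ) ^ k • (x i - u))) = 0 := by
    intro x u hu i
    by_cases h1 : 2 * r < ‖x i - y‖
    · rw [cy_zero y r hr _ h1, zero_mul]
    · rw [hK.a_supp, mul_zero, mul_zero]
      rw [norm_smul, Real.norm_of_nonneg hKp.le]
      have h2 : ‖u - y‖ ≤ ‖x i - u‖ + ‖x i - y‖ := by
        calc ‖u - y‖ = ‖(x i - y) - (x i - u)‖ := by congr 1; abel
          _ ≤ ‖x i - y‖ + ‖x i - u‖ := norm_sub_le _ _
          _ = _ := add_comm _ _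
      have h3 : r / 2 ≤ ‖x i - u‖ := by
        push Not at h1
        linarith
      nlinarith
  have hvan0 : ∀ (x : I → E3) u, 5 / 2 * r < ‖u - y‖ → H1 x u - H2 x u = 0 := by
    intro x u hu
    have h1 : H1 x u = 0 := by
      rw [hH1]
      show (∑ i, D.charge (sp i) * (cy y r (x i) ^ 2 * (8 ^ k * a ((2 : ℝ) ^ k • (x i - u))))) *
        _ = 0
      rw [Finset.sum_eq_zero, zero_mul]
      intro i _
      have := hvan x u hu i
      calc _ = D.charge (sp i) * cy y r (x i) *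
            (cy y r (x i) * (8 ^ k * a ((2 : ℝ) ^ k • (x i - u)))) := by ring
        _ = 0 := by rw [this, mul_zero]
    have h2 : H2 x u = 0 := by
      rw [hH2]
      show (∑ i, D.charge (sp i) * (cy y r (x i) * (8 ^ k * a ((2 : ℝ) ^ k • (x i - u))))) *
        _ = 0
      rw [Finset.sum_eq_zero, zero_mul]
      intro i _
      rw [hvan x u hu i, mul_zero]
    rw [h1, h2, sub_zero]
  -- constants
  set B := C0 * (1 + (CA + C2) * 8 ^ k) ^ 2 * (CA * (2 ^ k) ^ 5) ^ 5 / r ^ 6 * (1 + T) with hB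
  have hCA0 : 0 < CA := by linarith
  have hB0 : 0 ≤ B := by positivity
  have hA1 : 1 ≤ CA * (2 ^ k) ^ 5 := by
    have : (1 : ℝ) ≤ (2 ^ k) ^ 5 := one_le_pow₀ hK1
    nlinarith
  have hrK : 1 / r ^ 6 ≤ (2 ^ k) ^ 6 := by
    rw [div_le_iff₀ (by positivity), ← mul_pow]
    exact one_le_pow₀ hk
  have hBle : B ≤ C0 * (1 + (CA + C2)) ^ 2 * CA ^ 5 * (2 ^ k) ^ 37 * (1 + T) := by
    rw [hB, h8]
    have h9 : 1 + (CA + C2) * (2 ^ k) ^ 3 ≤ (1 + (CA + C2)) * (2 ^ k) ^ 3 := by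
      have : (1 : ℝ) ≤ (2 ^ k) ^ 3 := one_le_pow₀ hK1
      linarith
    calc C0 * (1 + (CA + C2) * (2 ^ k) ^ 3) ^ 2 * (CA * (2 ^ k) ^ 5) ^ 5 / r ^ 6 * (1 + T)
        ≤ C0 * ((1 + (CA + C2)) * (2 ^ k) ^ 3) ^ 2 * (CA * (2 ^ k) ^ 5) ^ 5 / r ^ 6 *
            (1 + T) := by gcongr
      _ = C0 * (1 + (CA + C2)) ^ 2 * CA ^ 5 * (2 ^ k) ^ 31 * (1 / r ^ 6) * (1 + T) := by ring
      _ ≤ C0 * (1 + (CA + C2)) ^ 2 * CA ^ 5 * (2 ^ k) ^ 31 * (2 ^ k) ^ 6 * (1 + T) := by gcongr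
      _ = _ := by ring
  have hmain : |wm D (fun x => ∫ u, (H1 x u - H2 x u)) Ψ| ≤ (2 * B) * V := by
    refine swap_bound hΨ (fun x u => H1 x u - H2 x u) (cH1.sub cH2) y (5 / 2 * r) (by linarith)
      hvan0 (2 * B) (by positivity) ?_
    intro u hu
    have hc1 : Continuous (fun x => H1 x u) := by
      exact cH1.comp (Continuous.prodMk continuous_id continuous_const)
    have hc2 : Continuous (fun x => H2 x u) := by
      exact cH2.comp (Continuous.prodMk continuous_id continuous_const)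
    have hsub : wm D (fun x => H1 x u - H2 x u) Ψ = wm D (fun x => H1 x u) Ψ +
        (-1) * wm D (fun x => H2 x u) Ψ := by
      rw [← Pool.Agent.Helper780_CP.RQ10.wm_const_mul,
        ← Pool.Agent.Helper780_CP.RQ10.wm_add (Pool.Agent.Helper780_CP.RQ10.WI.of_cont hΨ hc1)
        ((Pool.Agent.Helper780_CP.RQ10.WI.of_cont hΨ hc2).const_mul (-1))]
      congr 1
      funext x
      ring
    rw [hsub]
    have b1 : |wm D (fun x => H1 x u) Ψ| ≤ B := by
      obtain ⟨g1, g2, g3, g4, g5⟩ := htb y u r k hr hr1 hk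
        (fun v => cy y r v ^ 2 * (8 ^ k * a ((2 : ℝ) ^ k • (v - u)))) (Or.inl rfl)
      have hh := hfix D sp ℓ pb hpb hz' η hη hηN Ψ hΨ hn hFL y r hr hr1 hcube
        (fun v => cy y r v ^ 2 * (8 ^ k * a ((2 : ℝ) ^ k • (v - u)))) (CA * (2 ^ k) ^ 5)
        g1 hA1 g2 g3 g4 g5
        (fun ω => 8 ^ k * a ((2 : ℝ) ^ k • (u - ω))) ((CA + C2) * 8 ^ k)
        (continuous_const.mul (hca.comp (by fun_prop))) (by positivity)
        (by
          intro ω
          rw [abs_mul, abs_of_pos (by positivity : (0 : ℝ) < 8 ^ k), mul_comm]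
          refine mul_le_mul_of_nonneg_right ?_ (by positivity)
          have := haCA ((2 : ℝ) ^ k • (u - ω))
          linarith)
        (by
          intro ω hω
          by_contra hlt
          push Not at hlt
          apply hω
          have h3 : r / 2 ≤ ‖u - ω‖ := by
            have h2 : ‖ω - y‖ ≤ ‖u - y‖ + ‖u - ω‖ := by
              calc ‖ω - y‖ = ‖(u - y) - (u - ω)‖ := by congr 1; abel
                _ ≤ _ := norm_sub_le _ _
            linarith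
          rw [hK.a_supp, mul_zero]
          rw [norm_smul, Real.norm_of_nonneg hKp.le]
          nlinarith)
      refine le_trans (le_of_eq ?_) hh
      congr 2
      funext x
      rw [hH1]
      show (∑ i, D.charge (sp i) * (cy y r (x i) ^ 2 * (8 ^ k * a ((2 : ℝ) ^ k • (x i - u))))) *
        ((∑ j, D.charge (sp j) * (2 ^ k * b ((2 : ℝ) ^ k • (u - x j)))) - pb x) =
        (∑ i, D.charge (sp i) * (cy y r (x i) ^ 2 * (8 ^ k * a ((2 : ℝ) ^ k • (x i - u))))) *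
          ((∑ j, D.charge (sp j) * ∫ ω, 8 ^ k * a ((2 : ℝ) ^ k • (u - ω)) / ‖ω - x j‖) -
            pb x * ∫ ω, 8 ^ k * a ((2 : ℝ) ^ k • (u - ω)))
      rw [ker_one hK, mul_one]
      congr 2
      refine Finset.sum_congr rfl fun j _ => ?_
      rw [ker_b hK]
    have b2 : |wm D (fun x => H2 x u) Ψ| ≤ B := by
      obtain ⟨g1, g2, g3, g4, g5⟩ := htb y u r k hr hr1 hk
        (fun v => cy y r v * (8 ^ k * a ((2 : ℝ) ^ k • (v - u)))) (Or.inr rfl)
      have hPu : Continuous (fun ω => P u ω) :=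
        hPs.continuous.comp (by fun_prop : Continuous fun ω : E3 => (u, ω))
      have hh := hfix D sp ℓ pb hpb hz' η hη hηN Ψ hΨ hn hFL y r hr hr1 hcube
        (fun v => cy y r v * (8 ^ k * a ((2 : ℝ) ^ k • (v - u)))) (CA * (2 ^ k) ^ 5)
        g1 hA1 g2 g3 g4 g5
        (fun ω => P u ω) ((CA + C2) * 8 ^ k) hPu (by positivity)
        (by
          intro ω
          refine (hPb u ω).trans ?_
          refine mul_le_mul_of_nonneg_right ?_ (by positivity)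
          linarith)
        (by
          intro ω hω
          have := hP0 u ω hω
          linarith)
      refine le_trans (le_of_eq ?_) hh
      congr 2
      funext x
      rw [hH2]
      show (∑ i, D.charge (sp i) * (cy y r (x i) * (8 ^ k * a ((2 : ℝ) ^ k • (x i - u))))) *
        (∑ j, D.charge (sp j) * (cy y r (x j) * (2 ^ k * b ((2 : ℝ) ^ k • (u - x j))))) =
        (∑ i, D.charge (sp i) * (cy y r (x i) * (8 ^ k * a ((2 : ℝ) ^ k • (x i - u))))) *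
          ((∑ j, D.charge (sp j) * ∫ ω, P u ω / ‖ω - x j‖) - pb x * ∫ ω, P u ω)
      rw [hPi, mul_zero, sub_zero]
      congr 1
      refine Finset.sum_congr rfl fun j _ => ?_
      rw [hPe]
    rw [abs_le] at b1 b2 ⊢
    constructor <;> linarith
  refine hmain.trans ?_
  have hX0 : 0 ≤ (2 ^ k) ^ 37 * (1 + T) := by positivity
  calc 2 * B * V ≤ 2 * (C0 * (1 + (CA + C2)) ^ 2 * CA ^ 5 * (2 ^ k) ^ 37 * (1 + T)) * V := by gcongr
    _ = 2 * (C0 * (1 + (CA + C2)) ^ 2 * CA ^ 5) * V * ((2 ^ k) ^ 37 * (1 + T)) := by ring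
    _ ≤ (2 * (C0 * (1 + (CA + C2)) ^ 2 * CA ^ 5) * V + 1) * ((2 ^ k) ^ 37 * (1 + T)) := by
        refine mul_le_mul_of_nonneg_right (by linarith) hX0
    _ = _ := by ring

end Pool.Agent.Helper780_CP.RG8
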