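import Pool.Agent.Helper780_CP.LLDefs2
import Pool.Agent.Helper780_CP.TDefs
import Pool.Agent.Helper780_CP.RQ11
import Pool.Agent.Helper780_CP.RG6

set_option autoImplicit false
set_option maxHeartbeats 4000000

open MeasureTheory
open scoped Topology

namespace Pool.Agent.Helper780_CP.RG9

open Pool.Agent.Helper780_CP
open Pool.Agent.Helper985.CP
open Pool.Agent.Helper780_CP.RG6 (tciT)

open Pool.Agent.Helper780_CP Pool.Agent.Helper985.CP

open Pool.Agent.Helper780_CP.RQ11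
open Pool.Agent.Helper780_CP.RC3 (near2_ball)
open Pool.Agent.Helper780_CP.RK3 (kern_e)

section aux

attribute [local irreducible] ct

variable {I : Type} [Fintype I]

/-- `n2` is zero or at least one -/
theorem n2_zero_or (k : ℕ) (ω : E3) (x : I → E3) : n2 k ω x = 0 ∨ 1 ≤ n2 k ω x := by
  by_cases h5 : ∃ i, ind k ω (x i) ≠ 0
  · right
    obtain ⟨i, hi⟩ := h5
    have h6 : ind k ω (x i) = 1 := by
      unfold ind at hi ⊢
      split
      · rfl
      · rename_i hh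
        simp [hh] at hi
    rw [← h6]
    exact Finset.single_le_sum (f := fun i => ind k ω (x i)) (fun i _ => ind_nonneg _ _ _)
      (Finset.mem_univ i)
  · left
    push Not at h5
    exact Finset.sum_eq_zero fun i _ => h5 i

theorem n2_nonneg' (k : ℕ) (ω : E3) (x : I → E3) : 0 ≤ n2 k ω x :=
  Finset.sum_nonneg fun _ _ => ind_nonneg _ _ _

theorem n2_le_nk (k : ℕ) (ω : E3) (x : I → E3) (i : I) (hi : ω ∈ Metric.ball (x i) (2 / 2 ^ k)) :
    n2 k ω x ≤ nk x k i := by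
  unfold n2 nk
  refine Finset.sum_le_sum fun j _ => ?_
  have h1 := (ind_mem k ω (x i)).2 hi
  unfold ind
  by_cases hj : 2 ^ k * ‖x j - ω‖ < 2
  · rw [if_pos hj, if_pos]
    have h2 : ‖x j - x i‖ ≤ ‖x j - ω‖ + ‖x i - ω‖ := by
      have : x j - x i = (x j - ω) - (x i - ω) := by abel
      rw [this]; exact norm_sub_le _ _
    have h3 : (2 : ℝ) ^ k * ‖x j - x i‖ ≤ 2 ^ k * (‖x j - ω‖ + ‖x i - ω‖) := by gcongr
    linarith
  · rw [if_neg hj]
    split <;> norm_num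

theorem n2_meas1 (k : ℕ) (x : I → E3) : Measurable (fun ω => n2 k ω x) := by
  unfold n2
  exact Finset.measurable_fun_sum _ fun i _ => ind_meas k (x i)

theorem n2_le' (k : ℕ) (ω : E3) (x : I → E3) : n2 k ω x ≤ Fintype.card I := by
  unfold n2
  calc _ ≤ ∑ _i : I, (1 : ℝ) := Finset.sum_le_sum fun i _ => ind_le _ _ _
    _ = _ := by simp

variable {K z' r : ℝ} {k : ℕ} {y : E3} {P : E3 → E3 → ℝ}

/-- the integral of `n2^(5/3)` -/
theorem I4 (hr : 0 < r) (hkr : 1 ≤ 2 ^ k * r) (x : I → E3) :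
    IntegrableOn (fun ω => n2 k ω x * n2 k ω x ^ ((2 : ℝ) / 3)) (Metric.closedBall y (3 * r)) ∧
    ∫ ω in Metric.closedBall y (3 * r), n2 k ω x * n2 k ω x ^ ((2 : ℝ) / 3) ≤
      v8 / 8 ^ k * S1 y r k x := by
  have hm : Measurable (fun ω => n2 k ω x ^ ((2 : ℝ) / 3)) := (n2_meas1 k x).pow_const _
  have hb : ∀ ω, ‖n2 k ω x ^ ((2 : ℝ) / 3)‖ ≤ (Fintype.card I : ℝ) ^ ((2 : ℝ) / 3) := by
    intro ω
    rw [Real.norm_eq_abs, abs_of_nonneg (Real.rpow_nonneg (n2_nonneg' k ω x) _)]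
    exact Real.rpow_le_rpow (n2_nonneg' k ω x) (n2_le' k ω x) (by norm_num)
  have hint : ∀ v R, 0 < R → IntegrableOn (fun ω => n2 k ω x ^ ((2 : ℝ) / 3))
      (Metric.ball v R) := by
    intro v R hR
    refine Measure.integrableOn_of_bounded (M := (Fintype.card I : ℝ) ^ ((2 : ℝ) / 3))
      measure_ball_lt_top.ne hm.aestronglyMeasurable ?_
    exact Filter.Eventually.of_forall hb
  have h := n2_int (y := y) hr hkr (fun ω => n2 k ω x ^ ((2 : ℝ) / 3))
    (fun w => Real.rpow_nonneg (n2_nonneg' k w x) _) hint x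
  refine ⟨h.1, h.2.trans ?_⟩
  unfold S1
  rw [Finset.mul_sum]
  refine Finset.sum_le_sum fun i _ => ?_
  split
  · have h1 : ∫ ω in Metric.ball (x i) (2 / 2 ^ k), n2 k ω x ^ ((2 : ℝ) / 3) ≤
        ∫ _ω in Metric.ball (x i) (2 / 2 ^ k), nk x k i ^ ((2 : ℝ) / 3) := by
      refine setIntegral_mono_on (hint _ _ (by positivity))
        (integrableOn_const (hs := measure_ball_lt_top.ne)) measurableSet_ball fun ω hω => ?_
      exact Real.rpow_le_rpow (n2_nonneg' k ω x) (n2_le_nk k ω x i hω) (by norm_num)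
    refine h1.trans (le_of_eq ?_)
    have h2 := int_one_ball k (x i)
    rw [setIntegral_const, smul_eq_mul] at h2 ⊢
    rw [mul_one] at h2
    rw [h2]
  · simp

/-- the fourth root -/
theorem root_le (h : KP K z' r k y P) (x : I → E3) (ω : E3) :
    (GG K z' r k y x ω / (1 / 2 ^ k)) ^ ((1 : ℝ) / 4) ≤
      2 + (2 + 6 * z' * K) / r ^ 2 * 2 ^ k * n2 k ω x ^ ((2 : ℝ) / 3) := by
  have hr := h.r0
  have hr1 := h.r1
  have hK := h.K0
  have hz := h.z0
  have hA := h.AK_pos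
  have hn := n2_nonneg' k ω x
  have hbb1 : bt y r k x ^ 2 ≤ 1 := by
    classical exact bt_sq_le y r k x
  have hbb0 : 0 ≤ bt y r k x ^ 2 := sq_nonneg _
  set n := n2 k ω x with hndef
  have hk : (0 : ℝ) < 2 ^ k := by positivity
  have hr2 : (1 : ℝ) ≤ 1 / r ^ 2 := by
    rw [le_div_iff₀ (by positivity), one_mul]
    exact pow_le_one₀ hr.le hr1
  have e4 : (4 : ℝ) ^ k = 2 ^ k * 2 ^ k := by rw [← mul_pow]; norm_num
  -- upper bound for the argument
  have h1 : GG K z' r k y x ω / (1 / 2 ^ k) ≤ 2 + 6 * z' * K / r ^ 2 * 4 ^ k * n := by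
    have h2 : GG K z' r k y x ω ≤ 2 / 2 ^ k + 3 * AK K z' r k * n := by
      unfold GG
      rw [← hndef]
      have : 0 ≤ 2 / 2 ^ k + 3 * AK K z' r k * n := by positivity
      calc _ ≤ 1 * (2 / 2 ^ k + 3 * AK K z' r k * n) := by gcongr
        _ = _ := one_mul _
    calc GG K z' r k y x ω / (1 / 2 ^ k) ≤ (2 / 2 ^ k + 3 * AK K z' r k * n) / (1 / 2 ^ k) := by
          gcongr
      _ = _ := by
          unfold AK
          rw [e4]
          field_simp
          ring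
  have h0 : 0 ≤ GG K z' r k y x ω / (1 / 2 ^ k) := by
    unfold GG
    rw [← hndef]
    positivity
  have h3 := Real.rpow_le_rpow h0 h1 (show (0 : ℝ) ≤ 1 / 4 by norm_num)
  refine h3.trans ?_
  rcases n2_zero_or k ω x with hz0 | hz1
  · rw [← hndef] at hz0
    rw [hz0]
    have h4 : (2 : ℝ) ^ ((1 : ℝ) / 4) ≤ 2 := by
      calc (2 : ℝ) ^ ((1 : ℝ) / 4) ≤ 2 ^ (1 : ℝ) :=
            Real.rpow_le_rpow_of_exponent_le (by norm_num) (by norm_num)
        _ = 2 := Real.rpow_one 2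
    have h5 : (0 : ℝ) ^ ((2 : ℝ) / 3) = 0 := Real.zero_rpow (by norm_num)
    rw [h5]
    simp only [mul_zero, add_zero]
    exact h4
  · rw [← hndef] at hz1
    set M := (2 + 6 * z' * K) / r ^ 2 with hM
    have hM1 : 1 ≤ M := by
      have e : M = (2 + 6 * z' * K) * (1 / r ^ 2) := by rw [hM]; ring
      rw [e]
      have : 0 ≤ z' * K := by positivity
      nlinarith
    have h4k : (1 : ℝ) ≤ 4 ^ k := one_le_pow₀ (by norm_num)
    have h6 : 2 + 6 * z' * K / r ^ 2 * 4 ^ k * n ≤ M * 4 ^ k * n := by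
      have h7 : (2 : ℝ) ≤ 2 * (1 / r ^ 2) * (4 ^ k * n) := by
        have h8 : (1 : ℝ) ≤ 4 ^ k * n := by nlinarith
        nlinarith
      have h9 : M * 4 ^ k * n = 2 * (1 / r ^ 2) * (4 ^ k * n) + 6 * z' * K / r ^ 2 * 4 ^ k * n := by
        rw [hM]; ring
      rw [h9]
      linarith
    have h6' : (0 : ℝ) ≤ 2 + 6 * z' * K / r ^ 2 * 4 ^ k * n := by positivity
    have h8 := Real.rpow_le_rpow h6' h6 (show (0 : ℝ) ≤ 1 / 4 by norm_num)
    refine h8.trans ?_
    have hM0 : 0 ≤ M := by linarith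
    rw [Real.mul_rpow (by positivity) hn, Real.mul_rpow hM0 (by positivity)]
    have a1 : M ^ ((1 : ℝ) / 4) ≤ M := by
      calc M ^ ((1 : ℝ) / 4) ≤ M ^ (1 : ℝ) :=
            Real.rpow_le_rpow_of_exponent_le hM1 (by norm_num)
        _ = M := Real.rpow_one M
    have a2 : ((4 : ℝ) ^ k) ^ ((1 : ℝ) / 4) ≤ 2 ^ k := by
      have b1 : ((4 : ℝ) ^ k) ^ ((1 : ℝ) / 4) ≤ ((4 : ℝ) ^ k) ^ ((1 : ℝ) / 2) :=
        Real.rpow_le_rpow_of_exponent_le h4k (by norm_num)
      have b2 : ((4 : ℝ) ^ k) ^ ((1 : ℝ) / 2) = 2 ^ k := by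
        rw [← Real.sqrt_eq_rpow, e4, Real.sqrt_mul_self hk.le]
      rw [b2] at b1
      exact b1
    have a3 : n ^ ((1 : ℝ) / 4) ≤ n ^ ((2 : ℝ) / 3) :=
      Real.rpow_le_rpow_of_exponent_le hz1 (by norm_num)
    have a4 : 0 ≤ n ^ ((1 : ℝ) / 4) := Real.rpow_nonneg hn _
    have a5 : 0 ≤ ((4 : ℝ) ^ k) ^ ((1 : ℝ) / 4) := by positivity
    have a6 : 0 ≤ M ^ ((1 : ℝ) / 4) := Real.rpow_nonneg hM0 _
    have a7 : 0 ≤ n ^ ((2 : ℝ) / 3) := Real.rpow_nonneg hn _
    have a8 : M ^ ((1 : ℝ) / 4) * ((4 : ℝ) ^ k) ^ ((1 : ℝ) / 4) * n ^ ((1 : ℝ) / 4) ≤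
        M * 2 ^ k * n ^ ((2 : ℝ) / 3) := by
      gcongr
    linarith

theorem GG_nonneg (h : KP K z' r k y P) (x : I → E3) (ω : E3) : 0 ≤ GG K z' r k y x ω := by
  have hA := h.AK_pos
  have hn := n2_nonneg' k ω x
  unfold GG
  positivity

theorem pointwiseT (h : KP K z' r k y P) {Cn : ℝ} (hCn0 : 0 < Cn)
    (hCn : ∀ (x : I → E3) (v : E3) (R : ℝ), 0 < R → ∫ w in Metric.ball v R, near2 w x ≤
        Cn * R * (1 + ((Finset.univ.filter (fun i => ‖x i - v‖ ≤ 2 * R)).card : ℝ) ^ ((2 : ℝ) / 3)))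
    {Db L : ℝ} (hDb0 : 0 ≤ Db) (x : I → E3) :
    ∫ ω in Metric.closedBall y (3 * r), (GG K z' r k y x ω * (1 + near2 ω x) +
      GG' K z' r Db L k y x ω + GG K z' r k y x ω *
        (GG K z' r k y x ω / (1 / 2 ^ k)) ^ ((1 : ℝ) / 4)) ≤
      (3 * (6 * z' * K * (v8 + 4 * Cn) + 6 * (16 * L ^ 2 + 1) * z' * K * v8) +
        (2 + 6 * z' * K) ^ 2 * v8) / r ^ 6 *
        (bt y r k x ^ 2 * S1 y r k x) +
      3 * (2 * (36 * Real.pi + 8 * Cn) + 144 * Real.pi * Db + 12 * z' * K * Db * v8) / r ^ 6 *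
        (1 / 2 ^ k) * (1 + nb y (8 * r) x) := by
  have hr := h.r0
  have hr1 := h.r1
  have hK := h.K0
  have hz := h.z0
  have hpi := Real.pi_pos
  have hv8 := v8_pos
  have hA := h.AK_pos
  obtain ⟨i1, -⟩ := I1 (y := y) hr h.kr hCn0 hCn x
  obtain ⟨i2, -, -⟩ := I2 (y := y) hr h.kr x
  obtain ⟨i3, -⟩ := I3 (y := y) hr hr1 hCn0 hCn x
  obtain ⟨i4, b4⟩ := I4 (y := y) hr h.kr x
  have hfin : volume (Metric.closedBall y (3 * r)) ≠ ⊤ := measure_closedBall_lt_top.ne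
  have i0 : IntegrableOn (fun _ : E3 => 4 * (1 / 2 ^ k) * (Db / (2 ^ k * r ^ 4)))
    (Metric.closedBall y (3 * r)) := integrableOn_const (hs := hfin)
  have key := pointwise h hCn0 hCn (L := L) hDb0 x
  set bb := bt y r k x ^ 2 with hbb
  have hbb0 : 0 ≤ bb := sq_nonneg _
  have hbb1 : bb ≤ 1 := by
    classical exact bt_sq_le y r k x
  set A := AK K z' r k with hAdef
  set M := (2 + 6 * z' * K) / r ^ 2 with hM
  -- integrability of the old integrand
  have jold : IntegrableOn (fun ω => GG K z' r k y x ω * (1 + near2 ω x) +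
      GG' K z' r Db L k y x ω) (Metric.closedBall y (3 * r)) := by
    have e : ∀ ω, GG K z' r k y x ω * (1 + near2 ω x) + GG' K z' r Db L k y x ω =
        (bb * (2 / 2 ^ k)) * (1 + near2 ω x) + (3 * A * bb) * (n2 k ω x * (1 + near2 ω x)) +
        4 * (1 / 2 ^ k) * (Db / (2 ^ k * r ^ 4)) +
        (6 * A * (Db / (2 ^ k * r ^ 4)) + 3 * (16 * L ^ 2 + 1) * A * 4 ^ k * bb) * n2 k ω x := by
      intro ω
      unfold GG GG'
      rw [← hbb, ← hAdef]
      ring
    simp_rw [e]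
    have j1 : Integrable (fun ω => (bb * (2 / 2 ^ k)) * (1 + near2 ω x))
      (volume.restrict (Metric.closedBall y (3 * r))) := Integrable.const_mul i3 _
    have j2 : Integrable (fun ω => (3 * A * bb) * (n2 k ω x * (1 + near2 ω x)))
      (volume.restrict (Metric.closedBall y (3 * r))) := Integrable.const_mul i1 _
    have j3 : Integrable (fun ω => (6 * A * (Db / (2 ^ k * r ^ 4)) +
        3 * (16 * L ^ 2 + 1) * A * 4 ^ k * bb) * n2 k ω x)
      (volume.restrict (Metric.closedBall y (3 * r))) := Integrable.const_mul i2 _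
    exact ((j1.add j2).add i0).add j3
  have jnew : IntegrableOn (fun ω => (bb * M * (2 + 3 * A * 2 ^ k)) *
      (n2 k ω x * n2 k ω x ^ ((2 : ℝ) / 3))) (Metric.closedBall y (3 * r)) :=
    Integrable.const_mul i4 _
  have hM0 : 0 ≤ M := by rw [hM]; positivity
  have hk : (0 : ℝ) < 2 ^ k := by positivity
  have step : ∀ ω, GG K z' r k y x ω * (1 + near2 ω x) +
      GG' K z' r Db L k y x ω + GG K z' r k y x ω *
        (GG K z' r k y x ω / (1 / 2 ^ k)) ^ ((1 : ℝ) / 4) ≤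
      3 * (GG K z' r k y x ω * (1 + near2 ω x) + GG' K z' r Db L k y x ω) +
      (bb * M * (2 + 3 * A * 2 ^ k)) * (n2 k ω x * n2 k ω x ^ ((2 : ℝ) / 3)) := by
    intro ω
    have a1 := root_le h x ω
    rw [← hM] at a1
    have a2 := GG_nonneg h x ω
    have a3 := RQ11.near2_nonneg ω x
    have a4 := n2_nonneg' k ω x
    have a5 : 0 ≤ GG' K z' r Db L k y x ω := by
      unfold GG'
      rw [← hbb, ← hAdef]
      positivity
    have a6 : 0 ≤ n2 k ω x ^ ((2 : ℝ) / 3) := Real.rpow_nonneg a4 _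
    have a7 : n2 k ω x ^ ((2 : ℝ) / 3) ≤ n2 k ω x * n2 k ω x ^ ((2 : ℝ) / 3) := by
      rcases n2_zero_or k ω x with h0 | h1
      · rw [h0, Real.zero_rpow (by norm_num), mul_zero]
      · nlinarith
    have a8 : GG K z' r k y x ω * (GG K z' r k y x ω / (1 / 2 ^ k)) ^ ((1 : ℝ) / 4) ≤
        GG K z' r k y x ω * (2 + M * 2 ^ k * n2 k ω x ^ ((2 : ℝ) / 3)) :=
      mul_le_mul_of_nonneg_left a1 a2
    have a9 : GG K z' r k y x ω * (M * 2 ^ k * n2 k ω x ^ ((2 : ℝ) / 3)) ≤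
        (bb * M * (2 + 3 * A * 2 ^ k)) * (n2 k ω x * n2 k ω x ^ ((2 : ℝ) / 3)) := by
      have e1 : GG K z' r k y x ω * (M * 2 ^ k * n2 k ω x ^ ((2 : ℝ) / 3)) =
          bb * M * (2 * n2 k ω x ^ ((2 : ℝ) / 3) +
            3 * A * 2 ^ k * (n2 k ω x * n2 k ω x ^ ((2 : ℝ) / 3))) := by
        unfold GG
        rw [← hbb, ← hAdef]
        field_simp
      have e2 : (bb * M * (2 + 3 * A * 2 ^ k)) * (n2 k ω x * n2 k ω x ^ ((2 : ℝ) / 3)) =
          bb * M * (2 * (n2 k ω x * n2 k ω x ^ ((2 : ℝ) / 3)) +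
            3 * A * 2 ^ k * (n2 k ω x * n2 k ω x ^ ((2 : ℝ) / 3))) := by ring
      rw [e1, e2]
      gcongr
    have a10 : GG K z' r k y x ω ≤ GG K z' r k y x ω * (1 + near2 ω x) := by
      nlinarith
    nlinarith
  have hmono : ∫ ω in Metric.closedBall y (3 * r), (GG K z' r k y x ω * (1 + near2 ω x) +
      GG' K z' r Db L k y x ω + GG K z' r k y x ω *
        (GG K z' r k y x ω / (1 / 2 ^ k)) ^ ((1 : ℝ) / 4)) ≤
      ∫ ω in Metric.closedBall y (3 * r),
      (3 * (GG K z' r k y x ω * (1 + near2 ω x) + GG' K z' r Db L k y x ω) +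
      (bb * M * (2 + 3 * A * 2 ^ k)) * (n2 k ω x * n2 k ω x ^ ((2 : ℝ) / 3))) := by
    refine integral_mono_of_nonneg (Filter.Eventually.of_forall fun ω => ?_)
      (Integrable.add (Integrable.const_mul jold 3) jnew) (Filter.Eventually.of_forall step)
    have a2 := GG_nonneg h x ω
    have a3 := RQ11.near2_nonneg ω x
    have a4 := n2_nonneg' k ω x
    have a5 : 0 ≤ GG' K z' r Db L k y x ω := by
      unfold GG'
      rw [← hbb, ← hAdef]
      positivity
    show 0 ≤ GG K z' r k y x ω * (1 + near2 ω x) +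
      GG' K z' r Db L k y x ω + GG K z' r k y x ω *
        (GG K z' r k y x ω / (1 / 2 ^ k)) ^ ((1 : ℝ) / 4)
    positivity
  refine hmono.trans ?_
  rw [integral_add (Integrable.const_mul jold 3) jnew, integral_const_mul, integral_const_mul]
  have hS := S1_nonneg y r k x
  have hnb := nb_nonneg y (8 * r) x
  set s := S1 y r k x with hs
  set n := nb y (8 * r) x with hn
  have e8 : (8 : ℝ) ^ k = 2 ^ k * (2 ^ k * 2 ^ k) := by rw [← mul_pow, ← mul_pow]; norm_num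
  have h2k : (1 : ℝ) ≤ 2 ^ k := one_le_pow₀ (by norm_num)
  have t2 : bb * M * (2 + 3 * A * 2 ^ k) *
      ∫ ω in Metric.closedBall y (3 * r), n2 k ω x * n2 k ω x ^ ((2 : ℝ) / 3) ≤
      (2 + 6 * z' * K) ^ 2 * v8 / r ^ 6 * (bb * s) := by
    have c1 : (2 + 3 * A * 2 ^ k) * (v8 / 8 ^ k) ≤ M * v8 := by
      have c2 : (2 + 3 * A * 2 ^ k) = 2 + 6 * z' * K / r ^ 2 * (2 ^ k * 2 ^ k) := by
        rw [hAdef]; unfold AK; ring
      have hr2 : (1 : ℝ) ≤ 1 / r ^ 2 := by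
        rw [le_div_iff₀ (by positivity), one_mul]
        exact pow_le_one₀ hr.le hr1
      have c3 : 2 + 6 * z' * K / r ^ 2 * (2 ^ k * 2 ^ k) ≤ M * (2 ^ k * 2 ^ k) := by
        have c4 : M * (2 ^ k * 2 ^ k) = 2 * (1 / r ^ 2) * (2 ^ k * 2 ^ k) +
            6 * z' * K / r ^ 2 * (2 ^ k * 2 ^ k) := by rw [hM]; ring
        rw [c4]
        have c5 : (1 : ℝ) ≤ 2 ^ k * 2 ^ k := by nlinarith
        nlinarith
      rw [c2]
      calc _ ≤ M * (2 ^ k * 2 ^ k) * (v8 / 8 ^ k) := by gcongr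
        _ = M * v8 / 2 ^ k := by rw [e8]; field_simp
        _ ≤ M * v8 / 1 := by gcongr
        _ = _ := by ring
    calc _ ≤ bb * M * (2 + 3 * A * 2 ^ k) * (v8 / 8 ^ k * s) := by gcongr
      _ = bb * M * ((2 + 3 * A * 2 ^ k) * (v8 / 8 ^ k)) * s := by ring
      _ ≤ bb * M * (M * v8) * s := by gcongr
      _ = (2 + 6 * z' * K) ^ 2 * v8 / r ^ 4 * (bb * s) := by
          rw [hM]; field_simp
      _ ≤ _ := by
          gcongr ?_ * _
          exact dm (by positivity) hr hr1 (by norm_num)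
  have t1 := mul_le_mul_of_nonneg_left key (show (0 : ℝ) ≤ 3 by norm_num)
  calc _ ≤ 3 * ((6 * z' * K * (v8 + 4 * Cn) + 6 * (16 * L ^ 2 + 1) * z' * K * v8) / r ^ 6 *
          (bb * s) + (2 * (36 * Real.pi + 8 * Cn) + 144 * Real.pi * Db +
          12 * z' * K * Db * v8) / r ^ 6 * (1 / 2 ^ k) * (1 + n)) +
        (2 + 6 * z' * K) ^ 2 * v8 / r ^ 6 * (bb * s) := add_le_add t1 t2
    _ = _ := by ring

end aux

/-- TARGET -/
theorem scale_termT (z C : ℝ) (hz : 0 ≤ z) (hC : 0 ≤ C) (l : E3 → ℝ) (hl : ContDiff ℝ SM l)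
    (hl1 : ∀ w, 1 ≤ ‖w‖ → l w = 1 / ‖w‖) :
    ∃ (C' : ℝ) (m : ℕ), 0 < C' ∧
    ∀ {S : Type} (D : Species S) {I : Type} [Fintype I] [DecidableEq I] (sp : I → S) (ℓ : ℝ)
      (pb : (I → E3) → ℝ), Continuous pb → (∀ s, |D.charge s| ≤ z) →
      ∀ (η : ℝ), 0 ≤ η → ∀ Ψ : Wave D I, IsState D sp ℓ Ψ →
      nrm2 D Ψ = 1 → FLT D sp ℓ pb C η Ψ →
      ∀ (y : E3) (r : ℝ) (k : ℕ), 0 < r → r ≤ 1 → 1 ≤ 2 ^ k * r →
        Metric.closedBall y (4 * r) ⊆ cube ℓ →
        |wm D (fun x => bt y r k x ^ 2 * ∑ i, ∑ j, D.charge (sp i) * D.charge (sp j) *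
            ((cy y r (x i) - cy y r (x j)) ^ 2 / 2 * psi l k (x i - x j))) Ψ| ≤
          C' / r ^ m * (wm D (fun x => bt y r k x ^ 2 * ∑ i, (if ‖x i - y‖ < 6 * r then
              nk x k i ^ ((2 : ℝ) / 3) else 0)) Ψ +
            1 / 2 ^ k * wm D (fun x => 1 + nb y (8 * r) x) Ψ +
            (1 + (Fintype.card I : ℝ)) * 2 ^ k * η) := by
  obtain ⟨K, hK, hker⟩ := kern_e l hl hl1
  obtain ⟨Cn, hCn0, hCn⟩ := near2_ball
  obtain ⟨L, hL0, hL⟩ := ct_deriv
  obtain ⟨Db, hDb0, hDb⟩ := bt_gr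
  have hpi := Real.pi_pos
  have hv8 := v8_pos
  obtain ⟨z', hz'⟩ : ∃ z', z' = z + 1 := ⟨_, rfl⟩
  have hz'0 : 0 < z' := by linarith
  obtain ⟨a₀, ha₀⟩ : ∃ a₀, a₀ = 3 * (6 * z' * K * (v8 + 4 * Cn) +
      6 * (16 * L ^ 2 + 1) * z' * K * v8) + (2 + 6 * z' * K) ^ 2 * v8 := ⟨_, rfl⟩
  obtain ⟨b₀, hb₀⟩ : ∃ b₀, b₀ = 3 * (2 * (36 * Real.pi + 8 * Cn) + 144 * Real.pi * Db +
    12 * z' * K * Db * v8) := ⟨_, rfl⟩
  obtain ⟨e₀, he₀⟩ : ∃ e₀, e₀ = 72 * Real.pi * (1 + 4 * z' * K) := ⟨_, rfl⟩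
  obtain ⟨d₀, hd₀⟩ : ∃ d₀, d₀ = 72 * Real.pi := ⟨_, rfl⟩
  have ha₀' : 0 ≤ a₀ := by rw [ha₀]; positivity
  have hb₀' : 0 ≤ b₀ := by rw [hb₀]; positivity
  have he₀' : 0 ≤ e₀ := by rw [he₀]; positivity
  have hd₀' : 0 ≤ d₀ := by rw [hd₀]; positivity
  refine ⟨C * (a₀ + b₀ + e₀ + d₀) + 1, 8, by positivity, ?_⟩
  intro S D I _ _ sp ℓ pb hpb hch η hη Ψ hΨ hn hFL y r k hr hr1 hkr hball
  obtain ⟨P, hP1, hP2, hP3, hP4, hP5, hP6⟩ := hker y r k hr hr1 hkr
  have h : KP K z' r k y P := ⟨hP1, hP2, hP3, hP4, hK, hz'0, hr, hr1, hkr⟩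
  have hA := h.AK_pos
  have hc : ∀ i, |D.charge (sp i)| ≤ z' := fun i => (hch _).trans (by linarith)
  have hc0 : ∀ i : I, |(0 : ℝ)| ≤ z' := fun i => by simpa using hz'0.le
  have h2k : (1 : ℝ) ≤ 2 ^ k := one_le_pow₀ (by norm_num)
  have hlam : (0 : ℝ) < 1 / 2 ^ k := by positivity
  set N : ℝ := (Fintype.card I : ℝ) with hN
  have hN0 : 0 ≤ N := Nat.cast_nonneg _
  have hDb' : ∀ x : I → E3, gr (bt y r k) x ≤ Db / (2 ^ k * r ^ 4) := fun x => hDb y r k x hr
  have key := tciT D sp ℓ pb hpb C η hC hη Ψ hΨ hn hFL (1 / 2 ^ k) hlam r hr hr1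
    (Metric.closedBall y (3 * r)) measurableSet_closedBall ?_ ?_
    (fun x ω => bt y r k x ^ 2 * ∑ i, D.charge (sp i) * P (x i) ω)
    (GG K z' r k y) (GG' K z' r Db L k y) (Real.sqrt (1 + 2 * AK K z' r k * N))
    (max (2 / 2 ^ k + 3 * AK K z' r k * N)
      (4 * (1 / 2 ^ k + 3 / 2 * (AK K z' r k * N)) * (Db / (2 ^ k * r ^ 4)) +
      3 * (16 * L ^ 2 + 1) * (AK K z' r k) * 4 ^ k * N)) ?_ ?_ ?_ ?_ ?_
  rotate_left
  · refine ⟨‖y‖ + 3 * r, fun w hw => ?_⟩
    rw [mem_closedBall_iff_norm] at hw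
    rw [mem_closedBall_zero_iff]
    have : w = y + (w - y) := by abel
    rw [this]
    exact (norm_add_le _ _).trans (by linarith)
  · intro ω hω
    refine subset_trans ?_ hball
    refine Metric.closedBall_subset_closedBall' ?_
    have := Metric.mem_closedBall.1 hω
    linarith
  · have hcont : Continuous (fun p : (I → E3) × E3 =>
        bt y r k p.1 ^ 2 * ∑ i, D.charge (sp i) * P (p.1 i) p.2) := by
      refine (((bt_smooth y r k).continuous.comp continuous_fst).pow 2).mul ?_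
      refine continuous_finsetSum _ fun i _ => continuous_const.mul ?_
      have hPc : Continuous (fun p : E3 × E3 => P p.1 p.2) := h.smooth.continuous
      have hq : Continuous (fun p : (I → E3) × E3 => (p.1 i, p.2)) :=
        ((continuous_apply i).comp continuous_fst).prodMk continuous_snd
      exact hPc.comp hq
    exact hcont.measurable
  · unfold GG
    exact (((bt_meas y r k).comp measurable_fst).pow_const 2).mul
      (((n2_meas k).const_mul _).const_add _)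
  · unfold GG'
    refine Measurable.add ?_ ?_
    · exact (((((n2_meas k).const_mul _).const_mul _).const_add _).const_mul _).mul_const _
    · exact ((((bt_meas y r k).comp measurable_fst).pow_const 2).mul (n2_meas k)).const_mul _
  · intro x ω _
    have a1 := n2_le k ω x
    have a2 := n2_nonneg k ω x
    have a3 := bt_sq_le y r k x
    have a4 : 0 ≤ bt y r k x ^ 2 := sq_nonneg _
    constructor
    · refine le_trans ?_ (le_max_left _ _)
      unfold GG
      calc _ ≤ 1 * (2 / 2 ^ k + 3 * AK K z' r k * n2 k ω x) := by gcongr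
        _ ≤ _ := by rw [one_mul]; gcongr
    · refine le_trans ?_ (le_max_right _ _)
      unfold GG'
      have a5 : bt y r k x ^ 2 * n2 k ω x ≤ N := by
        calc _ ≤ 1 * n2 k ω x := by gcongr
          _ ≤ N := by rw [one_mul]; exact a1
      gcongr
  · intro ω _
    refine ⟨fF K z' r k y P (fun i => D.charge (sp i)) ω, fF K z' r k y P (fun _ => 0) ω,
      fF_smooth h hc ω, fF_smooth h hc0 ω,
      fF_sy sp _ (fun i j hij => by simp only [hij]) ω, fF_sy sp _ (fun _ _ _ => rfl) ω,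
      fF_bd h hc ω, fF_bd h hc0 ω, ?_, ?_, ?_⟩
    · intro x
      rw [fF_sq h hc, fF_sq h hc0, ← mul_sub]
      congr 1
      unfold gg
      rw [Finset.sum_add_distrib, Finset.sum_add_distrib]
      simp only [zero_mul, Finset.sum_const_zero]
      ring
    · intro x
      rw [fF_sq h hc, fF_sq h hc0, ← mul_add]
      unfold GG
      apply mul_le_mul_of_nonneg_left _ (sq_nonneg _)
      have b1 := sumgg_le h hc ω x
      have b2 := sumgg_le h hc0 ω x
      have b3 : (2 : ℝ) / 2 ^ k = 1 / 2 ^ k + 1 / 2 ^ k := by ring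
      rw [b3]
      linarith
    · intro x
      have b1 := fF_gr h hL hDb' hDb0 hc ω x
      have b2 := fF_gr h hL hDb' hDb0 hc0 ω x
      refine (add_le_add b1 b2).trans (le_of_eq ?_)
      unfold GG'
      ring
  · -- assembly
    have hid : (fun x => bt y r k x ^ 2 * ∑ i, ∑ j, D.charge (sp i) * D.charge (sp j) *
            ((cy y r (x i) - cy y r (x j)) ^ 2 / 2 * psi l k (x i - x j))) =
        (fun x : I → E3 => ∫ ω in Metric.closedBall y (3 * r),
          (bt y r k x ^ 2 * ∑ i, D.charge (sp i) * P (x i) ω) * (phi D sp ω x - pb x)) := by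
      funext x
      exact ident D sp l h hP5 hP6 (bt y r k x ^ 2) (pb x) x
    rw [hid]
    refine key.trans ?_
    set T1 : (I → E3) → ℝ := fun x => bt y r k x ^ 2 * S1 y r k x with hT1
    set T2 : (I → E3) → ℝ := fun x => 1 + nb y (8 * r) x with hT2
    have hT1' : (fun x : I → E3 => bt y r k x ^ 2 * ∑ i, (if ‖x i - y‖ < 6 * r then
              nk x k i ^ ((2 : ℝ) / 3) else 0)) = T1 := rfl
    rw [hT1']
    have m1 : Measurable T1 := ((bt_meas y r k).pow_const 2).mul (S1_meas y r k)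
    have m2 : Measurable T2 := (nb_meas y (8 * r)).const_add 1
    have n1 : ∀ x, 0 ≤ T1 x := fun x => mul_nonneg (sq_nonneg _) (S1_nonneg y r k x)
    have n2' : ∀ x, 0 ≤ T2 x := fun x => by
      have := nb_nonneg y (8 * r) x
      show 0 ≤ 1 + nb y (8 * r) x
      linarith
    have q1 : ∀ x, |T1 x| ≤ N * N ^ ((2 : ℝ) / 3) := fun x => by
      rw [abs_of_nonneg (n1 x)]
      have := S1_le y r k x
      have h3 := bt_sq_le y r k x
      have h4 := S1_nonneg y r k x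
      calc bt y r k x ^ 2 * S1 y r k x ≤ 1 * S1 y r k x := by gcongr
        _ ≤ _ := by rw [one_mul]; exact this
    have q2 : ∀ x, |T2 x| ≤ 1 + N := fun x => by
      rw [abs_of_nonneg (n2' x)]
      have := nb_le y (8 * r) x
      show 1 + nb y (8 * r) x ≤ 1 + N
      linarith
    have i1 := bdd_int D hΨ T1 m1 _ q1
    have i2 := bdd_int D hΨ T2 m2 _ q2
    have w1 : wm D (fun x => ∫ ω in Metric.closedBall y (3 * r),
        (GG K z' r k y x ω * (1 + near2 ω x) + GG' K z' r Db L k y x ω +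
          GG K z' r k y x ω * (GG K z' r k y x ω / (1 / 2 ^ k)) ^ ((1 : ℝ) / 4))) Ψ ≤
        wm D (fun x => a₀ / r ^ 6 * T1 x + b₀ / r ^ 6 * (1 / 2 ^ k) * T2 x) Ψ := by
      refine RQ11.wm_mono D _ _ Ψ (fun x => integral_nonneg fun ω => ?_) (fun x => ?_) fun τ => ?_
      · have a1 := n2_nonneg k ω x
        have a2 := RQ11.near2_nonneg ω x
        have a3 := GG_nonneg h x ω
        have a4 : 0 ≤ GG' K z' r Db L k y x ω := by unfold GG'; positivity
        show 0 ≤ GG K z' r k y x ω * (1 + near2 ω x) + GG' K z' r Db L k y x ω +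
          GG K z' r k y x ω * (GG K z' r k y x ω / (1 / 2 ^ k)) ^ ((1 : ℝ) / 4)
        positivity
      · have := pointwiseT h hCn0 (fun x v R hR => (hCn x v R hR).2) (L := L) hDb0 x
        rw [ha₀, hb₀]
        exact this
      · have := ((i1 τ).const_mul (a₀ / r ^ 6)).add ((i2 τ).const_mul (b₀ / r ^ 6 * (1 / 2 ^ k)))
        refine this.congr (Filter.Eventually.of_forall fun x => ?_)
        show a₀ / r ^ 6 * (T1 x * ‖Ψ τ x‖ ^ 2) + b₀ / r ^ 6 * (1 / 2 ^ k) * (T2 x * ‖Ψ τ x‖ ^ 2) =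
          (a₀ / r ^ 6 * T1 x + b₀ / r ^ 6 * (1 / 2 ^ k) * T2 x) * ‖Ψ τ x‖ ^ 2
        ring
    rw [wm_lin D _ _ T1 T2 Ψ i1 i2] at w1
    have p1 := wm_nonneg D T1 Ψ n1
    have p2 := wm_nonneg D T2 Ψ n2'
    have p3 : 1 ≤ wm D T2 Ψ := by
      have c1 : wm D (fun _ => (1 : ℝ)) Ψ = 1 := by
        refine Eq.trans ?_ hn
        unfold wm nrm2
        simp only [one_mul]
      rw [← c1]
      refine RQ11.wm_mono D _ _ Ψ (fun x => zero_le_one) (fun x => ?_) i2
      have := nb_nonneg y (8 * r) x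
      show 1 ≤ 1 + nb y (8 * r) x
      linarith
    set U := wm D T1 Ψ
    set V := wm D T2 Ψ
    -- the last term
    have w2 : 2 * Real.sqrt (1 + 2 * AK K z' r k * N) ^ 2 * η *
        (volume (Metric.closedBall y (3 * r))).toReal ≤ e₀ / r ^ 6 * ((1 + N) * 2 ^ k * η) := by
      rw [Real.sq_sqrt (by positivity)]
      have v1 := vol_A (y := y) hr hr1
      have v2 : 1 + 2 * AK K z' r k * N ≤ (1 + 4 * z' * K) / r ^ 2 * (2 ^ k * (1 + N)) := by
        have v3 : (1 : ℝ) ≤ 1 / r ^ 2 := by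
          rw [le_div_iff₀ (by positivity), one_mul]
          exact pow_le_one₀ hr.le hr1
        have v4 : 1 + 2 * AK K z' r k * N = 1 + 4 * z' * K * (2 ^ k * N) * (1 / r ^ 2) := by
          unfold AK; ring
        have v5 : (1 + 4 * z' * K) / r ^ 2 * (2 ^ k * (1 + N)) =
            (1 / r ^ 2) * (2 ^ k * (1 + N)) + 4 * z' * K * (2 ^ k * (1 + N)) * (1 / r ^ 2) := by
          ring
        rw [v4, v5]
        have v6 : 1 ≤ (1 / r ^ 2) * (2 ^ k * (1 + N)) := by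
          have : (1 : ℝ) ≤ 2 ^ k * (1 + N) := by nlinarith
          nlinarith
        have v7 : 4 * z' * K * (2 ^ k * N) * (1 / r ^ 2) ≤
            4 * z' * K * (2 ^ k * (1 + N)) * (1 / r ^ 2) := by
          gcongr
          linarith
        linarith
      calc 2 * (1 + 2 * AK K z' r k * N) * η * (volume (Metric.closedBall y (3 * r))).toReal
          ≤ 2 * ((1 + 4 * z' * K) / r ^ 2 * (2 ^ k * (1 + N))) * η * (36 * Real.pi) := by gcongr
        _ = e₀ / r ^ 2 * ((1 + N) * 2 ^ k * η) := by rw [he₀]; ring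
        _ ≤ _ := by
            gcongr ?_ * _
            exact dm he₀' hr hr1 (by norm_num)
    have w3 : 2 * (1 / 2 ^ k) * (volume (Metric.closedBall y (3 * r))).toReal ≤
        d₀ / r ^ 6 * (1 / 2 ^ k * V) := by
      have v1 := vol_A (y := y) hr hr1
      calc 2 * (1 / 2 ^ k) * (volume (Metric.closedBall y (3 * r))).toReal
          ≤ 2 * (1 / 2 ^ k) * (36 * Real.pi) := by gcongr
        _ = d₀ / r ^ 0 * (1 / 2 ^ k * 1) := by rw [hd₀]; ring
        _ ≤ d₀ / r ^ 0 * (1 / 2 ^ k * V) := by gcongr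
        _ ≤ _ := by
            gcongr ?_ * _
            exact dm hd₀' hr hr1 (by norm_num)
    have w23 : 2 * (1 / 2 ^ k + Real.sqrt (1 + 2 * AK K z' r k * N) ^ 2 * η) *
        (volume (Metric.closedBall y (3 * r))).toReal ≤
        e₀ / r ^ 6 * ((1 + N) * 2 ^ k * η) + d₀ / r ^ 6 * (1 / 2 ^ k * V) := by
      have : 2 * (1 / 2 ^ k + Real.sqrt (1 + 2 * AK K z' r k * N) ^ 2 * η) *
        (volume (Metric.closedBall y (3 * r))).toReal =
        2 * Real.sqrt (1 + 2 * AK K z' r k * N) ^ 2 * η *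
        (volume (Metric.closedBall y (3 * r))).toReal +
        2 * (1 / 2 ^ k) * (volume (Metric.closedBall y (3 * r))).toReal := by ring
      rw [this]
      exact add_le_add w2 w3
    calc _ ≤ C / r ^ 2 * ((a₀ / r ^ 6 * U + b₀ / r ^ 6 * (1 / 2 ^ k) * V) +
          (e₀ / r ^ 6 * ((1 + N) * 2 ^ k * η) + d₀ / r ^ 6 * (1 / 2 ^ k * V))) := by
          apply mul_le_mul_of_nonneg_left (add_le_add w1 w23)
          positivity
      _ = 1 / r ^ 8 * (C * (a₀ * U + b₀ * (1 / 2 ^ k * V) + e₀ * ((1 + N) * 2 ^ k * η) +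
          d₀ * (1 / 2 ^ k * V))) := by
          field_simp
          ring
      _ ≤ 1 / r ^ 8 * ((C * (a₀ + b₀ + e₀ + d₀) + 1) *
          (U + 1 / 2 ^ k * V + (1 + N) * 2 ^ k * η)) := by
          apply mul_le_mul_of_nonneg_left _ (by positivity)
          have hV' : 0 ≤ 1 / 2 ^ k * V := by positivity
          have hE' : 0 ≤ (1 + N) * 2 ^ k * η := by positivity
          have g1 : a₀ * U + b₀ * (1 / 2 ^ k * V) + e₀ * ((1 + N) * 2 ^ k * η) +
              d₀ * (1 / 2 ^ k * V) ≤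
              (a₀ + b₀ + e₀ + d₀) * (U + 1 / 2 ^ k * V + (1 + N) * 2 ^ k * η) := by
            have : 0 ≤ a₀ * (1 / 2 ^ k * V + (1 + N) * 2 ^ k * η) +
                b₀ * (U + (1 + N) * 2 ^ k * η) + e₀ * (U + 1 / 2 ^ k * V) +
                d₀ * (U + (1 + N) * 2 ^ k * η) := by positivity
            linarith [this]
          have g2 := mul_le_mul_of_nonneg_left g1 hC
          have g3 : 0 ≤ U + 1 / 2 ^ k * V + (1 + N) * 2 ^ k * η := by positivity
          linarith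
      _ = _ := by ring

end Pool.Agent.Helper780_CP.RG9
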