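import Pool.Agent.Helper780_CP.LLDefs2
import Pool.Agent.Helper780_CP.LPDefs
import Pool.Agent.Helper985.CT.M_psl_weight
import Pool.Agent.Helper985.CT.M_psl_energy
import Pool.Agent.Helper985.CT.M_psl_nrm

set_option autoImplicit false

open MeasureTheory
open scoped Topology

namespace Pool.Agent.Helper780_CP.RH1

open Pool.Agent.Helper780_CP
open Pool.Agent.Helper985.CP

open Pool.Agent.Helper780_CP Pool.Agent.Helper985.CP

theorem ct_smooth : ContDiff ℝ SM ct := by
  unfold ct
  apply Real.smoothTransition.contDiff.comp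
  apply ContDiff.div_const
  exact contDiff_const.sub (contDiff_norm_sq ℝ)

theorem ct_zero (w : E3) (hw : 2 ≤ ‖w‖) : ct w = 0 := by
  unfold ct
  apply Real.smoothTransition.zero_of_nonpos
  nlinarith

theorem ct_cs : HasCompactSupport ct := by
  apply HasCompactSupport.intro (isCompact_closedBall (0 : E3) 2)
  intro x hx
  apply ct_zero
  rw [mem_closedBall_zero_iff, not_le] at hx
  exact hx.le

theorem ct_bd : ∃ K : ℝ, 0 ≤ K ∧ ∀ w, ‖fderiv ℝ ct w‖ ≤ K := by
  obtain ⟨K, hK⟩ := (ct_cs.fderiv (𝕜 := ℝ)).exists_bound_of_continuous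
    (ct_smooth.continuous_fderiv (by simp))
  exact ⟨K, (norm_nonneg _).trans (hK 0), hK⟩

theorem cy_smooth (y : E3) (r : ℝ) : ContDiff ℝ SM (cy y r) := by
  have h0 : ContDiff ℝ SM (fun x : E3 => x - y) := contDiff_id.sub contDiff_const
  have h : ContDiff ℝ SM (fun x : E3 => r⁻¹ • (x - y)) := h0.const_smul r⁻¹
  exact ct_smooth.comp h

theorem cy_le (y : E3) (r : ℝ) (x : E3) : cy y r x ^ 2 ≤ 1 := by
  have h0 : 0 ≤ cy y r x := Real.smoothTransition.nonneg _
  have h1 : cy y r x ≤ 1 := Real.smoothTransition.le_one _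
  nlinarith

theorem cy_zero (y : E3) {r : ℝ} (hr : 0 < r) (x : E3) (hx : 2 * r < ‖x - y‖) :
    cy y r x = 0 := by
  apply ct_zero
  rw [norm_smul, Real.norm_of_nonneg (by positivity), ← div_eq_inv_mul, le_div_iff₀ hr]
  exact hx.le

theorem cy_fderiv (y : E3) {r : ℝ} (x v : E3) :
    fderiv ℝ (cy y r) x v = r⁻¹ * fderiv ℝ ct (r⁻¹ • (x - y)) v := by
  have h1 : HasFDerivAt ct (fderiv ℝ ct (r⁻¹ • (x - y))) (r⁻¹ • (x - y)) :=
    ((ct_smooth.differentiable (by simp)) _).hasFDerivAt
  have h2 : HasFDerivAt (fun x : E3 => r⁻¹ • (x - y)) (r⁻¹ • ContinuousLinearMap.id ℝ E3) x :=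
    ((hasFDerivAt_id x).sub_const y).const_smul r⁻¹
  have h3 := (h1.comp x h2).fderiv
  have h4 : fderiv ℝ (cy y r) x = fderiv ℝ (ct ∘ fun x : E3 => r⁻¹ • (x - y)) x := rfl
  rw [h4, h3]
  simp

theorem cy_far (y : E3) {r : ℝ} (hr : 0 < r) (x v : E3) (hx : 2 * r < ‖x - y‖) :
    fderiv ℝ (cy y r) x v = 0 := by
  have h : cy y r =ᶠ[nhds x] fun _ => 0 := by
    have ho : IsOpen {z : E3 | 2 * r < ‖z - y‖} :=
      isOpen_lt continuous_const (continuous_id.sub continuous_const).norm
    filter_upwards [ho.mem_nhds hx] with z hz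
    exact cy_zero y hr z hz
  rw [h.fderiv_eq]
  simp

theorem grad_cy {K : ℝ} (hK : ∀ w, ‖fderiv ℝ ct w‖ ≤ K) (y : E3) {r : ℝ} (hr : 0 < r) (x : E3) :
    ∑ k : Fin 3, (fderiv ℝ (cy y r) x (EuclideanSpace.single k (1 : ℝ))) ^ 2 ≤
      3 * K ^ 2 / r ^ 2 * (if ‖x - y‖ ≤ 2 * r then 1 else 0) := by
  split_ifs with h
  · rw [Fin.sum_univ_three]
    have hk : ∀ k : Fin 3, (fderiv ℝ (cy y r) x (EuclideanSpace.single k (1 : ℝ))) ^ 2 ≤
        K ^ 2 / r ^ 2 := by
      intro k
      rw [cy_fderiv, mul_pow, inv_pow, ← div_eq_inv_mul]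
      apply div_le_div_of_nonneg_right _ (by positivity)
      rw [← sq_abs]
      apply pow_le_pow_left₀ (abs_nonneg _)
      have h1 := (fderiv ℝ ct (r⁻¹ • (x - y))).le_opNorm (EuclideanSpace.single k (1 : ℝ))
      rw [EuclideanSpace.norm_single, norm_one, mul_one, Real.norm_eq_abs] at h1
      exact h1.trans (hK _)
    have e : 3 * K ^ 2 / r ^ 2 * 1 = K ^ 2 / r ^ 2 + K ^ 2 / r ^ 2 + K ^ 2 / r ^ 2 := by ring
    rw [e]
    exact add_le_add (add_le_add (hk 0) (hk 1)) (hk 2)
  · push Not at h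
    rw [mul_zero]
    apply le_of_eq
    apply Finset.sum_eq_zero
    intro k _
    rw [cy_far y hr _ _ h]
    simp

section
variable {I : Type} [Fintype I] [DecidableEq I]

/-- cut off function -/
noncomputable def cf (y : E3) (r : ℝ) (F : (Option I → E3) → ℂ) : (Option I → E3) → ℂ :=
  fun x => ((cy y r (x none) : ℝ) : ℂ) * F x

/-- translation vector -/
noncomputable def sh (I : Type) (y : E3) : Option I → E3 := fun o => o.elim (y - c44) (fun _ => 0)

omit [Fintype I] [DecidableEq I] in
theorem sh_elim (y z : E3) (x : I → E3) :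
    (fun o : Option I => o.elim z x) + sh I y = fun o => o.elim (z + (y - c44)) x := by
  funext o
  cases o with
  | none => rfl
  | some i => simp [sh]

omit [Fintype I] [DecidableEq I] in
theorem sh_some (y : E3) (x : Option I → E3) :
    (fun i => (x + sh I y) (some i)) = fun i => x (some i) := by
  funext i
  simp [sh]

omit [DecidableEq I] in
theorem cyn_smooth (y : E3) (r : ℝ) :
    ContDiff ℝ SM (fun x : Option I → E3 => cy y r (x none)) :=
  (cy_smooth y r).comp (contDiff_apply ℝ E3 none)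

omit [DecidableEq I] in
theorem cf_smooth (y : E3) (r : ℝ) {F : (Option I → E3) → ℂ} (hF : ContDiff ℝ SM F) :
    ContDiff ℝ SM (cf y r F) :=
  (Complex.ofRealCLM.contDiff.comp (cyn_smooth y r)).mul hF

omit [Fintype I] [DecidableEq I] in
theorem cf_norm (y : E3) (r : ℝ) (F : (Option I → E3) → ℂ) (x : Option I → E3) :
    ‖cf y r F x‖ ^ 2 = cy y r (x none) ^ 2 * ‖F x‖ ^ 2 := by
  rw [cf, norm_mul, mul_pow, Complex.norm_real, Real.norm_eq_abs, sq_abs]

omit [DecidableEq I] in
theorem cf_sh (y : E3) {r : ℝ} (hr : 0 < r) (hr1 : r ≤ 1) {F : (Option I → E3) → ℂ}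
    (hF : ContDiff ℝ SM F) (hc : HasCompactSupport F) :
    ContDiff ℝ SM (fun x => cf y r F (x + sh I y)) ∧
    HasCompactSupport (fun x => cf y r F (x + sh I y)) ∧
    tsupport (fun x => cf y r F (x + sh I y)) ⊆ {x | x none ∈ cube 8} := by
  have hcc : HasCompactSupport (cf y r F) := hc.mul_left
  refine ⟨(cf_smooth y r hF).comp (contDiff_id.add contDiff_const), ?_, ?_⟩
  · refine HasCompactSupport.intro (K := (fun x => x - sh I y) '' tsupport (cf y r F))
      (hcc.isCompact.image (continuous_id.sub continuous_const)) ?_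
    intro x hx
    by_contra hne
    exact hx ⟨x + sh I y, subset_tsupport _ hne, by simp⟩
  · have hcl : IsClosed {x : Option I → E3 | ‖x none - c44‖ ≤ 2 * r} :=
      isClosed_le ((continuous_apply none).sub continuous_const).norm continuous_const
    have h1 : tsupport (fun x => cf y r F (x + sh I y)) ⊆
        {x : Option I → E3 | ‖x none - c44‖ ≤ 2 * r} := by
      refine closure_minimal ?_ hcl
      intro x hx
      rw [Set.mem_ofPred_eq]
      by_contra hn
      push Not at hn
      apply hx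
      have h2 : cy y r ((x + sh I y) none) = 0 := by
        apply cy_zero y hr
        have h3 : (x + sh I y) none - y = x none - c44 := by
          simp only [sh, Pi.add_apply, Option.elim_none]
          abel
        rw [h3]
        exact hn
      show cf y r F (x + sh I y) = 0
      rw [cf, h2]
      simp
    intro x hx
    have h2 := h1 hx
    rw [Set.mem_ofPred_eq] at h2
    show x none ∈ cube 8
    intro k
    have h3 : ‖(x none - c44) k‖ ≤ ‖x none - c44‖ := PiLp.norm_apply_le _ k
    have h4 : (x none - c44) k = x none k - 4 := by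
      simp [c44]
    rw [h4, Real.norm_eq_abs] at h3
    have h5 := abs_le.1 (h3.trans h2)
    constructor <;> linarith [h5.1, h5.2]

omit [Fintype I] [DecidableEq I] in
theorem lpw_int (y : E3) (r : ℝ) (m : Fin 3 → ℤ) (F : (Option I → E3) → ℂ) (x : I → E3) :
    ∫ z, (starRingEnd ℂ) (lpw y r m z) * F (fun o => o.elim z x) =
      ∫ z, (starRingEnd ℂ) (pwave 8 m z) * cf y r F ((fun o => o.elim z x) + sh I y) := by
  rw [← integral_add_right_eq_self (fun z => (starRingEnd ℂ) (lpw y r m z) *
    F (fun o => o.elim z x)) (y - c44)]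
  congr 1
  funext z
  rw [sh_elim, cf, lpw, map_mul, Complex.conj_ofReal]
  have h1 : z + (y - c44) - y + c44 = z := by abel
  rw [h1]
  simp only [Option.elim_none]
  ring

theorem lpw_cont (y : E3) (r : ℝ) (m : Fin 3 → ℤ) : Continuous (lpw y r m) := by
  unfold lpw
  have h1 : Continuous (cy y r) := (cy_smooth y r).continuous
  have h2 : Continuous (pwave 8 m) := psl_energy_pw 8 m
  exact (Complex.continuous_ofReal.comp h1).mul
    (h2.comp ((continuous_id.sub continuous_const).add continuous_const))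

omit [DecidableEq I] in
theorem cyw_int (y : E3) (r : ℝ) {f : (Option I → E3) → ℝ} (hf : Integrable f) :
    Integrable (fun x => cy y r (x none) ^ 2 * f x) := by
  refine hf.mono (((cyn_smooth y r).continuous.pow 2).aestronglyMeasurable.mul
    hf.aestronglyMeasurable) (Filter.Eventually.of_forall fun x => ?_)
  rw [norm_mul]
  have h1 : ‖cy y r (x none) ^ 2‖ ≤ 1 := by
    rw [Real.norm_of_nonneg (sq_nonneg _)]
    exact cy_le y r _
  calc ‖cy y r (x none) ^ 2‖ * ‖f x‖ ≤ 1 * ‖f x‖ :=
        mul_le_mul_of_nonneg_right h1 (norm_nonneg _)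
    _ = ‖f x‖ := one_mul _

/-- weighted expansion -/
theorem lpA (y : E3) {r : ℝ} (hr : 0 < r) (hr1 : r ≤ 1) {F : (Option I → E3) → ℂ}
    (hF : ContDiff ℝ SM F) (hc : HasCompactSupport F) (w : (I → E3) → ℝ) (hwm : Measurable w)
    (hw : Integrable (fun x : Option I → E3 => w (fun i => x (some i)) * ‖F x‖ ^ 2)) :
    HasSum (fun m => ∫ x : I → E3, w x *
        ‖∫ z, (starRingEnd ℂ) (lpw y r m z) * F (fun o => o.elim z x)‖ ^ 2)
      (∫ x : Option I → E3, cy y r (x none) ^ 2 * (w (fun i => x (some i)) * ‖F x‖ ^ 2)) := by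
  obtain ⟨g1, g2, g3⟩ := cf_sh y hr hr1 hF hc
  have hi := cyw_int y r hw
  have e1 : (fun x : Option I → E3 => w (fun i => x (some i)) * ‖cf y r F (x + sh I y)‖ ^ 2) =
      fun x => (fun x : Option I → E3 => cy y r (x none) ^ 2 *
        (w (fun i => x (some i)) * ‖F x‖ ^ 2)) (x + sh I y) := by
    funext x
    simp only
    rw [cf_norm, sh_some]
    ring
  have h := (psl_weight 8 (by norm_num) _ g1 g2 g3 w hwm (by
    rw [e1]
    exact hi.comp_add_right (sh I y))).1
  have e2 : ∫ x : Option I → E3, w (fun i => x (some i)) * ‖cf y r F (x + sh I y)‖ ^ 2 =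
      ∫ x : Option I → E3, cy y r (x none) ^ 2 * (w (fun i => x (some i)) * ‖F x‖ ^ 2) := by
    rw [e1]
    exact integral_add_right_eq_self (fun x : Option I → E3 => cy y r (x none) ^ 2 *
        (w (fun i => x (some i)) * ‖F x‖ ^ 2)) (sh I y)
  rw [e2] at h
  simp only [lpw_int]
  exact h

/-- expansion of the gradient -/
theorem lpB (y : E3) {r : ℝ} (hr : 0 < r) (hr1 : r ≤ 1) {F : (Option I → E3) → ℂ}
    (hF : ContDiff ℝ SM F) (hc : HasCompactSupport F) :
    HasSum (fun m => pen 8 m * ∫ x : I → E3,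
        ‖∫ z, (starRingEnd ℂ) (lpw y r m z) * F (fun o => o.elim z x)‖ ^ 2)
      (∫ x : Option I → E3, ∑ k : Fin 3,
        ‖fderiv ℝ (cf y r F) x (Pi.single none (EuclideanSpace.single k (1 : ℝ)))‖ ^ 2) := by
  obtain ⟨g1, g2, g3⟩ := cf_sh y hr hr1 hF hc
  have h := (psl_weight 8 (by norm_num) _ g1 g2 g3 (fun _ => (1 : ℝ)) measurable_const
    (by simpa only [one_mul] using psl_energy_sq _ g1.continuous g2)).2
  have e2 : ∫ x : Option I → E3, ∑ k : Fin 3, ‖fderiv ℝ (fun x => cf y r F (x + sh I y)) x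
        (Pi.single none (EuclideanSpace.single k (1 : ℝ)))‖ ^ 2 =
      ∫ x : Option I → E3, ∑ k : Fin 3,
        ‖fderiv ℝ (cf y r F) x (Pi.single none (EuclideanSpace.single k (1 : ℝ)))‖ ^ 2 := by
    simp only [fderiv_comp_add_right]
    exact integral_add_right_eq_self (fun x : Option I → E3 => ∑ k : Fin 3,
        ‖fderiv ℝ (cf y r F) x (Pi.single none (EuclideanSpace.single k (1 : ℝ)))‖ ^ 2) (sh I y)
  rw [e2] at h
  simp only [lpw_int]
  exact h

/-- derivative of the cut off function -/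
theorem cf_fderiv (y : E3) (r : ℝ) {F : (Option I → E3) → ℂ} (hF : ContDiff ℝ SM F)
    (x : Option I → E3) (v : E3) :
    fderiv ℝ (cf y r F) x (Pi.single none v) =
      ((cy y r (x none) : ℝ) : ℂ) * fderiv ℝ F x (Pi.single none v) +
        ((fderiv ℝ (cy y r) (x none) v : ℝ) : ℂ) * F x := by
  have h1 : HasFDerivAt (cy y r) (fderiv ℝ (cy y r) (x none)) (x none) :=
    (((cy_smooth y r).differentiable (by simp)) _).hasFDerivAt
  have h2 : HasFDerivAt (fun x : Option I → E3 => x none)
      (ContinuousLinearMap.proj (R := ℝ) (φ := fun _ : Option I => E3) none) x :=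
    (ContinuousLinearMap.proj (R := ℝ) (φ := fun _ : Option I => E3) none).hasFDerivAt
  have h3 := (Complex.ofRealCLM.hasFDerivAt (x := cy y r (x none))).comp x (h1.comp x h2)
  have h4 : HasFDerivAt F (fderiv ℝ F x) x := ((hF.differentiable (by simp)) x).hasFDerivAt
  have h5 := (h3.mul h4).fderiv
  have h6 : fderiv ℝ (cf y r F) x = fderiv ℝ ((⇑Complex.ofRealCLM ∘ (cy y r ∘
      fun x : Option I → E3 => x none)) * F) x := rfl
  rw [h6, h5]
  simp
  ring

theorem cf_grad (y : E3) (r : ℝ) {F : (Option I → E3) → ℂ} (hF : ContDiff ℝ SM F)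
    (x : Option I → E3) :
    ∑ k : Fin 3, ‖fderiv ℝ (cf y r F) x (Pi.single none (EuclideanSpace.single k (1 : ℝ)))‖ ^ 2 ≤
      2 * (cy y r (x none) ^ 2 * ∑ k : Fin 3,
        ‖fderiv ℝ F x (Pi.single none (EuclideanSpace.single k (1 : ℝ)))‖ ^ 2) +
      2 * ((∑ k : Fin 3, (fderiv ℝ (cy y r) (x none) (EuclideanSpace.single k (1 : ℝ))) ^ 2) *
        ‖F x‖ ^ 2) := by
  rw [Finset.mul_sum, Finset.sum_mul, Finset.mul_sum, Finset.mul_sum, ← Finset.sum_add_distrib]
  refine Finset.sum_le_sum fun k _ => ?_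
  rw [cf_fderiv y r hF]
  set a := ((cy y r (x none) : ℝ) : ℂ) *
    fderiv ℝ F x (Pi.single none (EuclideanSpace.single k (1 : ℝ))) with ha
  set b := ((fderiv ℝ (cy y r) (x none) (EuclideanSpace.single k (1 : ℝ)) : ℝ) : ℂ) * F x
    with hb
  have ea : ‖a‖ ^ 2 = cy y r (x none) ^ 2 *
      ‖fderiv ℝ F x (Pi.single none (EuclideanSpace.single k (1 : ℝ)))‖ ^ 2 := by
    rw [ha, norm_mul, mul_pow, Complex.norm_real, Real.norm_eq_abs, sq_abs]
  have eb : ‖b‖ ^ 2 = (fderiv ℝ (cy y r) (x none) (EuclideanSpace.single k (1 : ℝ))) ^ 2 *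
      ‖F x‖ ^ 2 := by
    rw [hb, norm_mul, mul_pow, Complex.norm_real, Real.norm_eq_abs, sq_abs]
  rw [← ea, ← eb]
  have h1 := norm_add_le a b
  have h2 : 0 ≤ ‖a + b‖ := norm_nonneg _
  nlinarith [sq_nonneg (‖a‖ - ‖b‖), norm_nonneg a, norm_nonneg b]

end

/-- TARGET -/
theorem lp_facts {S : Type} [DecidableEq S] (D : Species S) (hD : D.Valid) :
    ∃ C : ℝ, 0 < C ∧ ∀ {I : Type} [Fintype I] [DecidableEq I] (sp : Option I → S) (ℓ : ℝ) (y : E3)
      (r : ℝ), 0 < r → r ≤ 1 → ∀ Φ : Wave D (Option I), IsState D sp ℓ Φ →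
      (∀ m σ, IsState D (fun i => sp (some i)) ℓ (psl D (lpw y r m) σ Φ)) ∧
      (∀ W : (I → E3) → ℝ, Measurable W →
        (∀ τ, Integrable (fun x : Option I → E3 => W (fun i => x (some i)) * ‖Φ τ x‖ ^ 2)) →
        HasSum (fun m => ∑ σ, wm D W (psl D (lpw y r m) σ Φ))
          (wm D (fun x => cy y r (x none) ^ 2 * W (fun i => x (some i))) Φ)) ∧
      HasSum (fun m => ∑ σ, energy D (fun i => sp (some i)) (psl D (lpw y r m) σ Φ))
        ((∑ τ, ∫ x, ∑ i, cy y r (x none) ^ 2 * kin D sp (some i) (Φ τ) x) +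
          wm D (fun x => cy y r (x none) ^ 2 *
            coul D (fun i => sp (some i)) (fun i => x (some i))) Φ) ∧
      ∃ P : ℝ, HasSum (fun m => pen 8 m * ∑ σ, nrm2 D (psl D (lpw y r m) σ Φ)) P ∧
        P ≤ 4 * D.mass (sp none) * (∑ τ, ∫ x, cy y r (x none) ^ 2 * kin D sp none (Φ τ) x) +
          C / r ^ 2 * wm D (fun x => if ‖x none - y‖ ≤ 2 * r then 1 else 0) Φ := by
  obtain ⟨K, hK0, hK⟩ := ct_bd
  refine ⟨6 * K ^ 2 + 1, by positivity, ?_⟩
  intro I _ _ sp ℓ y r hr hr1 Φ hΦ
  have hsm : ∀ T, ContDiff ℝ SM (Φ T) := hΦ.smooth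
  have hcp : ∀ T, HasCompactSupport (Φ T) := hΦ.compact
  have hst : ∀ m σ, IsState D (fun i => sp (some i)) ℓ (psl D (lpw y r m) σ Φ) :=
    fun m σ => psl_state D sp ℓ Φ hΦ _ (lpw_cont y r m) σ
  have hwt : ∀ W : (I → E3) → ℝ, Measurable W →
        (∀ τ, Integrable (fun x : Option I → E3 => W (fun i => x (some i)) * ‖Φ τ x‖ ^ 2)) →
        HasSum (fun m => ∑ σ, wm D W (psl D (lpw y r m) σ Φ))
          (wm D (fun x => cy y r (x none) ^ 2 * W (fun i => x (some i))) Φ) := by
    intro W hWm hW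
    have e : wm D (fun x => cy y r (x none) ^ 2 * W (fun i => x (some i))) Φ =
        ∑ T, ∫ x : Option I → E3, cy y r (x none) ^ 2 *
          (W (fun i => x (some i)) * ‖Φ T x‖ ^ 2) := by
      unfold wm
      refine Finset.sum_congr rfl fun T _ => ?_
      congr 1
      funext x
      ring
    rw [e, ← psl_energy_sum]
    exact hasSum_sum fun σ _ => hasSum_sum fun τ _ =>
      lpA y hr hr1 (hsm (fun o => o.elim σ τ)) (hcp _) W hWm (hW _)
  refine ⟨hst, hwt, ?_, ?_⟩
  · -- energy
    have hV := fun T => psl_energy_vint D sp ℓ Φ hΦ none T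
    have eW : ∀ T, (fun X : Option I → E3 =>
        coul D (fun i => sp (some i)) (fun i => X (some i)) * ‖Φ T X‖ ^ 2) =
        fun X => coul D sp X * ‖Φ T X‖ ^ 2 - (∑ j, if none = j then 0 else
          D.charge (sp none) * D.charge (sp j) / ‖X none - X j‖) * ‖Φ T X‖ ^ 2 := by
      intro T
      funext X
      rw [psl_energy_coul D sp X]
      ring
    have hW : ∀ T, Integrable (fun X : Option I → E3 =>
        coul D (fun i => sp (some i)) (fun i => X (some i)) * ‖Φ T X‖ ^ 2) := by
      intro T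
      rw [eW T]
      exact (int_state D sp ℓ Φ hΦ T).2.2.1.sub (hV T)
    have hm : Measurable (coul D (fun i : I => sp (some i))) := by
      unfold coul
      exact (Finset.measurable_sum _ fun i _ => Finset.measurable_sum _ fun j _ =>
        psl_energy_cm D (fun i : I => sp (some i)) i j).const_mul _
    have hw := hwt (coul D (fun i => sp (some i))) hm hW
    have hk : ∀ j : I, HasSum (fun m => ∑ σ, ∑ τ, ∫ x : I → E3,
        kin D (fun i => sp (some i)) j (psl D (lpw y r m) σ Φ τ) x)
        (∑ T, ∫ x : Option I → E3, cy y r (x none) ^ 2 * kin D sp (some j) (Φ T) x) := by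
      intro j
      rw [← psl_energy_sum]
      refine hasSum_sum fun σ _ => hasSum_sum fun τ _ => ?_
      obtain ⟨T, hT⟩ : ∃ T : Option I → Fin D.g, T = fun o => o.elim σ τ := ⟨_, rfl⟩
      have hd := fun m => psl_deriv ℓ (Φ T) (hΦ.smooth T) (hΦ.compact T) (hΦ.support T)
        (lpw y r m) (lpw_cont y r m)
      have e0 : ∀ m, psl D (lpw y r m) σ Φ τ =
          fun x : I → E3 => ∫ z, (starRingEnd ℂ) (lpw y r m z) *
            (Φ T) (fun o => o.elim z x) := by
        intro m
        rw [hT]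
        rfl
      have e1 : ∀ m, ∫ x : I → E3,
          kin D (fun i => sp (some i)) j (psl D (lpw y r m) σ Φ τ) x =
          (1 / (2 * D.mass (sp (some j)))) * ∑ k : Fin 3, ∫ x : I → E3,
            1 * ‖∫ z, (starRingEnd ℂ) (lpw y r m z) * fderiv ℝ (Φ T) (fun o => o.elim z x)
              (Pi.single (some j) (EuclideanSpace.single k (1 : ℝ)))‖ ^ 2 := by
        intro m
        rw [e0 m, psl_energy_kint D (fun i => sp (some i)) j _ (hd m).1 (hd m).2.1]
        congr 1
        refine Finset.sum_congr rfl fun k _ => ?_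
        congr 1
        funext x
        rw [one_mul, (hd m).2.2.2 x j (EuclideanSpace.single k (1 : ℝ))]
      rw [← hT]
      have hFs : ∀ k : Fin 3, ContDiff ℝ SM (fun X : Option I → E3 => fderiv ℝ (Φ T) X
          (Pi.single (some j) (EuclideanSpace.single k (1 : ℝ)))) := fun k =>
        ((hΦ.smooth T).fderiv_right (m := SM) le_rfl).clm_apply contDiff_const
      have hFc : ∀ k : Fin 3, HasCompactSupport (fun X : Option I → E3 => fderiv ℝ (Φ T) X
          (Pi.single (some j) (EuclideanSpace.single k (1 : ℝ)))) := fun k =>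
        (hΦ.compact T).fderiv_apply ℝ _
      have hFi : ∀ k : Fin 3, Integrable (fun X : Option I → E3 => ‖fderiv ℝ (Φ T) X
          (Pi.single (some j) (EuclideanSpace.single k (1 : ℝ)))‖ ^ 2) := fun k =>
        psl_energy_sq _ (hFs k).continuous (hFc k)
      have e2 : ∫ x : Option I → E3, cy y r (x none) ^ 2 * kin D sp (some j) (Φ T) x =
          (1 / (2 * D.mass (sp (some j)))) * ∑ k : Fin 3, ∫ x : Option I → E3,
            cy y r (x none) ^ 2 * (1 * ‖fderiv ℝ (Φ T) x
              (Pi.single (some j) (EuclideanSpace.single k (1 : ℝ)))‖ ^ 2) := by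
        rw [← integral_finsetSum, ← integral_const_mul]
        · congr 1
          funext x
          unfold kin
          rw [Finset.mul_sum, Finset.mul_sum, Finset.mul_sum]
          refine Finset.sum_congr rfl fun k _ => ?_
          ring
        · intro k _
          simp only [one_mul]
          exact cyw_int y r (hFi k)
      rw [e2]
      simp only [e1]
      apply HasSum.mul_left
      refine hasSum_sum fun k _ => ?_
      exact lpA y hr hr1 (hFs k) (hFc k) (fun _ => (1 : ℝ)) measurable_const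
        (by simpa only [one_mul] using hFi k)
    have hks := hasSum_sum (s := Finset.univ) fun (i : I) _ => hk i
    have hs := hks.add hw
    convert hs using 1
    · funext m
      rw [Finset.sum_comm, ← Finset.sum_add_distrib]
      refine Finset.sum_congr rfl fun σ _ => ?_
      unfold wm
      rw [Finset.sum_comm, ← Finset.sum_add_distrib]
      unfold energy
      refine Finset.sum_congr rfl fun τ _ => ?_
      obtain ⟨-, h2, h3, -, -⟩ := int_state D (fun i => sp (some i)) ℓ _ (hst m σ) τ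
      rw [integral_add (integrable_finsetSum _ fun i _ => h2 i) h3,
        integral_finsetSum _ fun i _ => h2 i]
    · congr 1
      rw [Finset.sum_comm]
      refine Finset.sum_congr rfl fun T _ => ?_
      rw [integral_finsetSum]
      intro i _
      exact cyw_int y r ((int_state D sp ℓ Φ hΦ T).2.1 (some i))
  · -- momentum
    refine ⟨∑ T, ∫ x : Option I → E3, ∑ k : Fin 3,
        ‖fderiv ℝ (cf y r (Φ T)) x (Pi.single none (EuclideanSpace.single k (1 : ℝ)))‖ ^ 2,
        ?_, ?_⟩
    · rw [← psl_energy_sum]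
      have e2 : (fun m => pen 8 m * ∑ σ, nrm2 D (psl D (lpw y r m) σ Φ)) =
          (fun m => ∑ σ : Fin D.g, ∑ τ : I → Fin D.g, (pen 8 m * ∫ x : I → E3,
          ‖∫ z, (starRingEnd ℂ) (lpw y r m z) *
            Φ (fun o => o.elim σ τ) (fun o => o.elim z x)‖ ^ 2)) := by
        funext m
        rw [Finset.mul_sum]
        refine Finset.sum_congr rfl fun σ _ => ?_
        unfold nrm2
        rw [Finset.mul_sum]
        rfl
      rw [e2]
      exact hasSum_sum fun σ _ => hasSum_sum fun τ _ =>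
        lpB y hr hr1 (hsm (fun o => o.elim σ τ)) (hcp _)
    · have hT : ∀ T : Option I → Fin D.g, ∫ x : Option I → E3, ∑ k : Fin 3,
          ‖fderiv ℝ (cf y r (Φ T)) x (Pi.single none (EuclideanSpace.single k (1 : ℝ)))‖ ^ 2 ≤
          4 * D.mass (sp none) * (∫ x, cy y r (x none) ^ 2 * kin D sp none (Φ T) x) +
          (6 * K ^ 2 + 1) / r ^ 2 * ∫ x : Option I → E3,
            (if ‖x none - y‖ ≤ 2 * r then (1 : ℝ) else 0) * ‖Φ T x‖ ^ 2 := by
        intro T
        have hm := hD.mass_pos (sp none)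
        have i1 : Integrable (fun x : Option I → E3 =>
            cy y r (x none) ^ 2 * kin D sp none (Φ T) x) :=
          cyw_int y r ((int_state D sp ℓ Φ hΦ T).2.1 none)
        have i0 : Integrable (fun x : Option I → E3 => ‖Φ T x‖ ^ 2) :=
          (int_state D sp ℓ Φ hΦ T).1
        have hset : MeasurableSet {x : Option I → E3 | ‖x none - y‖ ≤ 2 * r} :=
          (isClosed_le ((continuous_apply none).sub continuous_const).norm
            continuous_const).measurableSet
        have i2 : Integrable (fun x : Option I → E3 =>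
            (if ‖x none - y‖ ≤ 2 * r then (1 : ℝ) else 0) * ‖Φ T x‖ ^ 2) := by
          have h1 := i0.indicator hset
          refine h1.congr (Filter.Eventually.of_forall fun x => ?_)
          by_cases hx : ‖x none - y‖ ≤ 2 * r
          · simp [Set.indicator, hx]
          · simp [Set.indicator, hx]
        have i3 : Integrable (fun x : Option I → E3 => ∑ k : Fin 3,
            ‖fderiv ℝ (cf y r (Φ T)) x
              (Pi.single none (EuclideanSpace.single k (1 : ℝ)))‖ ^ 2) := by
          refine integrable_finsetSum _ fun k _ => ?_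
          refine psl_energy_sq (fun x => fderiv ℝ (cf y r (Φ T)) x
              (Pi.single none (EuclideanSpace.single k (1 : ℝ)))) ?_ ?_
          · exact (((cf_smooth y r (hsm T)).fderiv_right (m := SM) le_rfl).clm_apply
              contDiff_const).continuous
          · have hcc : HasCompactSupport (cf y r (Φ T)) := (hcp T).mul_left
            exact hcc.fderiv_apply ℝ _
        rw [← integral_const_mul, ← integral_const_mul, ← integral_add (i1.const_mul _)
          (i2.const_mul _)]
        refine integral_mono i3 ((i1.const_mul _).add (i2.const_mul _)) fun x => ?_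
        have h1 := cf_grad y r (hsm T) x
        have h2 := grad_cy hK y hr (x none)
        have h3 : 0 ≤ ‖Φ T x‖ ^ 2 := by positivity
        have h4 : kin D sp none (Φ T) x = (1 / (2 * D.mass (sp none))) * ∑ k : Fin 3,
          ‖fderiv ℝ (Φ T) x (Pi.single none (EuclideanSpace.single k (1 : ℝ)))‖ ^ 2 := rfl
        have h5 : 4 * D.mass (sp none) * (cy y r (x none) ^ 2 * kin D sp none (Φ T) x) =
            2 * (cy y r (x none) ^ 2 * ∑ k : Fin 3,
          ‖fderiv ℝ (Φ T) x (Pi.single none (EuclideanSpace.single k (1 : ℝ)))‖ ^ 2) := by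
          rw [h4]
          field_simp
          ring
        have h6 : (∑ k : Fin 3, (fderiv ℝ (cy y r) (x none)
            (EuclideanSpace.single k (1 : ℝ))) ^ 2) * ‖Φ T x‖ ^ 2 ≤
            3 * K ^ 2 / r ^ 2 * (if ‖x none - y‖ ≤ 2 * r then 1 else 0) * ‖Φ T x‖ ^ 2 :=
          mul_le_mul_of_nonneg_right h2 h3
        have h7 : 2 * (3 * K ^ 2 / r ^ 2 * (if ‖x none - y‖ ≤ 2 * r then 1 else 0) *
            ‖Φ T x‖ ^ 2) ≤ (6 * K ^ 2 + 1) / r ^ 2 *
              ((if ‖x none - y‖ ≤ 2 * r then (1 : ℝ) else 0) * ‖Φ T x‖ ^ 2) := by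
          have h8 : 0 ≤ (if ‖x none - y‖ ≤ 2 * r then (1 : ℝ) else 0) * ‖Φ T x‖ ^ 2 := by
            split_ifs <;> positivity
          have h9 : 2 * (3 * K ^ 2 / r ^ 2 * (if ‖x none - y‖ ≤ 2 * r then 1 else 0) *
            ‖Φ T x‖ ^ 2) = (6 * K ^ 2) / r ^ 2 *
              ((if ‖x none - y‖ ≤ 2 * r then (1 : ℝ) else 0) * ‖Φ T x‖ ^ 2) := by
            ring
          rw [h9]
          apply mul_le_mul_of_nonneg_right _ h8
          apply div_le_div_of_nonneg_right _ (by positivity)
          linarith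
        simp only
        linarith
      calc (∑ T, ∫ x : Option I → E3, ∑ k : Fin 3,
          ‖fderiv ℝ (cf y r (Φ T)) x (Pi.single none (EuclideanSpace.single k (1 : ℝ)))‖ ^ 2) ≤
          ∑ T, (4 * D.mass (sp none) * (∫ x, cy y r (x none) ^ 2 * kin D sp none (Φ T) x) +
          (6 * K ^ 2 + 1) / r ^ 2 * ∫ x : Option I → E3,
            (if ‖x none - y‖ ≤ 2 * r then (1 : ℝ) else 0) * ‖Φ T x‖ ^ 2) :=
            Finset.sum_le_sum fun T _ => hT T
        _ = _ := by
          rw [Finset.sum_add_distrib, ← Finset.mul_sum, ← Finset.mul_sum]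
          rfl

end Pool.Agent.Helper780_CP.RH1
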