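import Pool.Agent.Helper780_CP.LLDefs2
import Pool.Agent.Helper780_CP.LPDefs
import Pool.Agent.Helper985.CT.M_psl_weight
import Pool.Agent.Helper985.CT.M_pe_symm

set_option autoImplicit false

open MeasureTheory
open scoped Topology

namespace Pool.Agent.Helper780_CP.RH2

open Pool.Agent.Helper780_CP
open Pool.Agent.Helper985.CP

open Pool.Agent.Helper780_CP Pool.Agent.Helper985.CP

theorem lpd_cy_cont (y : E3) (r : ℝ) : Continuous (cy y r) := by
  have h1 : Continuous (fun x : E3 => (4 - ‖r⁻¹ • (x - y)‖ ^ 2) / 3) := by fun_prop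
  exact (Real.smoothTransition.continuous).comp h1

theorem lpd_cy_nonneg (y : E3) (r : ℝ) (z : E3) : 0 ≤ cy y r z := Real.smoothTransition.nonneg _

theorem lpd_cy_zero (y : E3) (r : ℝ) (hr : 0 < r) (z : E3) (hz : 2 * r ≤ ‖z - y‖) :
    cy y r z = 0 := by
  unfold cy ct
  apply Real.smoothTransition.zero_of_nonpos
  rw [norm_smul, norm_inv, Real.norm_of_nonneg hr.le]
  have h1 : 2 ≤ r⁻¹ * ‖z - y‖ := by
    rw [inv_mul_eq_div, le_div_iff₀ hr]
    exact hz
  nlinarith

theorem lpd_pw_norm (m : Fin 3 → ℤ) (z : E3) : ‖pwave 8 m z‖ ^ 2 = 1 / 512 := by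
  unfold pwave
  rw [norm_div, Complex.norm_exp]
  have h1 : (2 * (Real.pi : ℂ) * Complex.I * ((∑ i, (m i : ℝ) * z i : ℝ) : ℂ) / ((8 : ℝ) : ℂ)).re = 0 := by
    rw [Complex.div_ofReal_re]
    have : (2 * (Real.pi : ℂ) * Complex.I * ((∑ i, (m i : ℝ) * z i : ℝ) : ℂ)).re = 0 := by
      rw [Complex.mul_re, Complex.ofReal_im, Complex.ofReal_re]
      simp
    rw [this, zero_div]
  rw [h1, Real.exp_zero, Complex.norm_real, Real.norm_eq_abs, div_pow, sq_abs, Real.sq_sqrt (by norm_num)]
  norm_num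

theorem lpd_cs (g : E3 → ℝ) (S : Set E3) (hS : MeasurableSet S) (hSf : volume S ≠ ⊤)
    (hg : Integrable g) (hg2 : Integrable (fun z => g z ^ 2)) (h0 : ∀ z, z ∉ S → g z = 0) :
    (∫ z, g z) ^ 2 ≤ (volume S).toReal * ∫ z, g z ^ 2 := by
  set V := (volume S).toReal with hV
  have hV0 : 0 ≤ V := ENNReal.toReal_nonneg
  have h2n : 0 ≤ ∫ z, g z ^ 2 := integral_nonneg fun z => sq_nonneg _
  have key : ∀ t : ℝ, 0 ≤ (∫ z, g z ^ 2) - 2 * t * (∫ z, g z) + t ^ 2 * V := by
    intro t
    have hi : Integrable (S.indicator (fun _ : E3 => t ^ 2)) := by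
      rw [integrable_indicator_iff hS]
      exact integrableOn_const hSf
    have e : ∫ z, (g z ^ 2 - 2 * t * g z + S.indicator (fun _ : E3 => t ^ 2) z)
        = (∫ z, g z ^ 2) - 2 * t * (∫ z, g z) + t ^ 2 * V := by
      have i1 : Integrable (fun z => g z ^ 2 - 2 * t * g z) := hg2.sub (hg.const_mul _)
      have e1 : ∫ z, (g z ^ 2 - 2 * t * g z + S.indicator (fun _ : E3 => t ^ 2) z)
          = (∫ z, (g z ^ 2 - 2 * t * g z)) + ∫ z, S.indicator (fun _ : E3 => t ^ 2) z :=
        integral_add i1 hi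
      have e2 : ∫ z, (g z ^ 2 - 2 * t * g z) = (∫ z, g z ^ 2) - ∫ z, 2 * t * g z :=
        integral_sub hg2 (hg.const_mul _)
      rw [e1, e2, integral_const_mul, integral_indicator hS, setIntegral_const]
      rw [smul_eq_mul, Measure.real]
      ring
    rw [← e]
    refine integral_nonneg fun z => ?_
    by_cases hz : z ∈ S
    · simp only [Set.indicator_of_mem hz, Pi.zero_apply]
      nlinarith [sq_nonneg (g z - t)]
    · simp [Set.indicator_of_notMem hz, h0 z hz]
  rcases hV0.eq_or_lt with hV0 | hVp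
  · -- `V = 0`
    have h1 : g =ᵐ[volume] 0 := by
      have hS0 : volume S = 0 := by
        rcases (ENNReal.toReal_eq_zero_iff _).1 hV0.symm with h | h
        · exact h
        · exact absurd h hSf
      have := measure_eq_zero_iff_ae_notMem.1 hS0
      filter_upwards [this] with z hz
      exact h0 z hz
    rw [integral_congr_ae h1]
    simp
    positivity
  · have h := key ((∫ z, g z) / V)
    have e : (∫ z, g z ^ 2) - 2 * ((∫ z, g z) / V) * (∫ z, g z) + ((∫ z, g z) / V) ^ 2 * V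
        = (∫ z, g z ^ 2) - (∫ z, g z) ^ 2 / V := by
      field_simp
      ring
    rw [e, sub_nonneg, div_le_iff₀ hVp] at h
    linarith

theorem lpd_slice (y : E3) (r : ℝ) (hr : 0 < r) (hr1 : r ≤ 1) (m : Fin 3 → ℤ) (f : E3 → ℂ)
    (hf : Continuous f) (hc : HasCompactSupport f) :
    ‖∫ z, (starRingEnd ℂ) (lpw y r m z) * f z‖ ^ 2 ≤ ∫ z, cy y r z ^ 2 * ‖f z‖ ^ 2 := by
  set g : E3 → ℝ := fun z => cy y r z * ‖f z‖ with hg
  have hgc : Continuous g := (lpd_cy_cont y r).mul hf.norm
  have hgs : HasCompactSupport g := hc.norm.mul_left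
  have hgi : Integrable g := hgc.integrable_of_hasCompactSupport hgs
  have hg2i : Integrable (fun z => g z ^ 2) := by
    have : (fun z => g z ^ 2) = fun z => g z * g z := by funext z; ring
    rw [this]
    exact (hgc.mul hgc).integrable_of_hasCompactSupport hgs.mul_left
  have h1 : ‖∫ z, (starRingEnd ℂ) (lpw y r m z) * f z‖ ≤ ∫ z, Real.sqrt (1 / 512) * g z := by
    refine (norm_integral_le_integral_norm _).trans (le_of_eq ?_)
    refine integral_congr_ae (Filter.Eventually.of_forall fun z => ?_)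
    simp only [lpw, norm_mul, RCLike.norm_conj, hg]
    rw [Complex.norm_real, Real.norm_of_nonneg (lpd_cy_nonneg y r z)]
    have : ‖pwave 8 m (z - y + c44)‖ = Real.sqrt (1 / 512) := by
      rw [← lpd_pw_norm m (z - y + c44), Real.sqrt_sq (norm_nonneg _)]
    rw [this]
    ring
  have h2 := lpd_cs g (Metric.closedBall y 2) Metric.isClosed_closedBall.measurableSet
    (measure_closedBall_lt_top.ne) hgi hg2i (by
      intro z hz
      rw [Metric.mem_closedBall, dist_eq_norm, not_le] at hz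
      simp only [hg]
      rw [lpd_cy_zero y r hr z (by linarith), zero_mul])
  have hV : (volume (Metric.closedBall y 2)).toReal ≤ 512 := by
    rw [EuclideanSpace.volume_closedBall_fin_three]
    rw [ENNReal.toReal_mul, ENNReal.toReal_pow, ENNReal.toReal_ofReal (by norm_num),
      ENNReal.toReal_ofReal (by positivity)]
    have := Real.pi_lt_four
    nlinarith
  have h3 : ∫ z, g z ^ 2 = ∫ z, cy y r z ^ 2 * ‖f z‖ ^ 2 := by
    refine integral_congr_ae (Filter.Eventually.of_forall fun z => ?_)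
    simp only [hg]
    ring
  have h2n : 0 ≤ ∫ z, g z ^ 2 := integral_nonneg fun z => sq_nonneg _
  rw [integral_const_mul] at h1
  calc ‖∫ z, (starRingEnd ℂ) (lpw y r m z) * f z‖ ^ 2
      ≤ (Real.sqrt (1 / 512) * ∫ z, g z) ^ 2 := pow_le_pow_left₀ (norm_nonneg _) h1 2
    _ = 1 / 512 * (∫ z, g z) ^ 2 := by rw [mul_pow, Real.sq_sqrt (by norm_num)]
    _ ≤ 1 / 512 * (512 * ∫ z, g z ^ 2) := by
        refine mul_le_mul_of_nonneg_left (h2.trans ?_) (by norm_num)
        exact mul_le_mul_of_nonneg_right hV h2n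
    _ = ∫ z, cy y r z ^ 2 * ‖f z‖ ^ 2 := by rw [h3]; ring

/-- TARGET -/
theorem lp_dom {S : Type} [DecidableEq S] (D : Species S) (hD : D.Valid) {I : Type} [Fintype I]
    [DecidableEq I] (sp : Option I → S) (ℓ : ℝ) (y : E3) (r : ℝ) (hr : 0 < r) (hr1 : r ≤ 1)
    (Φ : Wave D (Option I)) (hΦ : IsState D sp ℓ Φ) (G : ℝ) (hG : 0 ≤ G)
    (h : ∀ τ x, Φ τ x ≠ 0 → (∑ o, if sp o = sp none then cy y r (x o) ^ 2 else 0) ≤ G)
    (m : Fin 3 → ℤ) (σ : Fin D.g) :
    nrm2 D (psl D (lpw y r m) σ Φ) ≤ G / (cnt sp (sp none) : ℝ) * nrm2 D Φ := by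
  classical
  -- integrability
  have hint : ∀ (o : Option I) (τ : Option I → Fin D.g),
      Integrable (fun x : Option I → E3 => cy y r (x o) ^ 2 * ‖Φ τ x‖ ^ 2) := by
    intro o τ
    have hc1 : Continuous (fun x : Option I → E3 => cy y r (x o) ^ 2 * ‖Φ τ x‖ ^ 2) :=
      (((lpd_cy_cont y r).comp (continuous_apply o)).pow 2).mul ((hΦ.smooth τ).continuous.norm.pow 2)
    refine hc1.integrable_of_hasCompactSupport ?_
    have : HasCompactSupport (fun x => ‖Φ τ x‖ ^ 2) := by
      have h3 : (fun x => ‖Φ τ x‖ ^ 2) = fun x => ‖Φ τ x‖ * ‖Φ τ x‖ := by funext x; ring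
      rw [h3]
      exact (hΦ.compact τ).norm.mul_left
    exact this.mul_left
  have hintn : ∀ (τ : Option I → Fin D.g), Integrable (fun x : Option I → E3 => ‖Φ τ x‖ ^ 2) := by
    intro τ
    have h3 : (fun x => ‖Φ τ x‖ ^ 2) = fun x => ‖Φ τ x‖ * ‖Φ τ x‖ := by funext x; ring
    rw [h3]
    exact ((hΦ.smooth τ).continuous.norm.mul (hΦ.smooth τ).continuous.norm).integrable_of_hasCompactSupport
      (hΦ.compact τ).norm.mul_left
  -- step 1
  have h1 : nrm2 D (psl D (lpw y r m) σ Φ) ≤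
      ∑ τ : Option I → Fin D.g, ∫ x : Option I → E3, cy y r (x none) ^ 2 * ‖Φ τ x‖ ^ 2 := by
    unfold nrm2
    have ha : ∀ τ : I → Fin D.g, ∫ x, ‖psl D (lpw y r m) σ Φ τ x‖ ^ 2 ≤
        ∫ x : Option I → E3, cy y r (x none) ^ 2 * ‖Φ (fun o => o.elim σ τ) x‖ ^ 2 := by
      intro τ
      set F := Φ (fun o => o.elim σ τ) with hF
      obtain ⟨hf1, hf2⟩ := psl_fubini (fun x : Option I → E3 => cy y r (x none) ^ 2 * ‖F x‖ ^ 2)
        (hint none _)
      rw [hf2]
      refine integral_mono_of_nonneg (Filter.Eventually.of_forall fun x => sq_nonneg _)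
        hf1.integral_prod_left (Filter.Eventually.of_forall fun x => ?_)
      obtain ⟨hs1, hs2, -, -⟩ := psl_slice ℓ F (hΦ.smooth _) (hΦ.compact _)
        ((hΦ.support _).trans fun x hx => hx none) x
      exact lpd_slice y r hr hr1 m _ hs1.continuous hs2
    refine (Finset.sum_le_sum fun τ _ => ha τ).trans ?_
    have hinj : Function.Injective (fun (τ : I → Fin D.g) => (fun o : Option I => o.elim σ τ)) := by
      intro τ τ' hh
      funext i
      exact congrFun hh (some i)
    have hb := Finset.sum_le_univ_sum_of_nonneg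
      (f := fun τ : Option I → Fin D.g => ∫ x : Option I → E3, cy y r (x none) ^ 2 * ‖Φ τ x‖ ^ 2)
      (fun τ => integral_nonneg fun x => by positivity)
      (s := Finset.univ.map ⟨_, hinj⟩)
    rw [Finset.sum_map] at hb
    exact hb
  -- step 2: symmetry
  have h2 : ∀ o : Option I, sp o = sp none →
      ∑ τ : Option I → Fin D.g, ∫ x : Option I → E3, cy y r (x o) ^ 2 * ‖Φ τ x‖ ^ 2 =
      ∑ τ : Option I → Fin D.g, ∫ x : Option I → E3, cy y r (x none) ^ 2 * ‖Φ τ x‖ ^ 2 := by
    intro o ho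
    by_cases hon : o = none
    · rw [hon]
    set e : Option I ≃ Option I := Equiv.swap none o with he
    have heo : e none = o := Equiv.swap_apply_left none o
    have hnorm : ∀ τ x, ‖Φ (fun k => τ (e k)) (fun k => x (e k))‖ = ‖Φ τ x‖ := by
      intro τ x
      rw [hΦ.symm none o (fun hh => hon hh.symm) ho.symm τ x]
      unfold exch
      split_ifs <;> simp
    have hx : ∀ τ : Option I → Fin D.g, ∫ x : Option I → E3, cy y r (x o) ^ 2 * ‖Φ τ x‖ ^ 2 =
        ∫ x : Option I → E3, cy y r (x none) ^ 2 * ‖Φ (fun k => τ (e k)) x‖ ^ 2 := by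
      intro τ
      rw [← relaux_int e (fun x : Option I → E3 =>
        cy y r (x none) ^ 2 * ‖Φ (fun k => τ (e k)) x‖ ^ 2)]
      refine integral_congr_ae (Filter.Eventually.of_forall fun x => ?_)
      simp only [heo, hnorm]
    rw [Finset.sum_congr rfl fun τ _ => hx τ]
    exact relaux_sum e (fun τ : Option I → Fin D.g =>
      ∫ x : Option I → E3, cy y r (x none) ^ 2 * ‖Φ τ x‖ ^ 2)
  set A := ∑ τ : Option I → Fin D.g, ∫ x : Option I → E3, cy y r (x none) ^ 2 * ‖Φ τ x‖ ^ 2 with hA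
  -- step 3
  have h3 : (cnt sp (sp none) : ℝ) * A ≤ G * nrm2 D Φ := by
    have e1 : (cnt sp (sp none) : ℝ) * A = ∑ o : Option I, if sp o = sp none then
        ∑ τ : Option I → Fin D.g, ∫ x : Option I → E3, cy y r (x o) ^ 2 * ‖Φ τ x‖ ^ 2 else 0 := by
      rw [← Finset.sum_filter, Finset.sum_congr rfl (g := fun _ => A)
        (fun o ho => h2 o (Finset.mem_filter.1 ho).2), Finset.sum_const, nsmul_eq_mul]
      rfl
    have e2 : (∑ o : Option I, if sp o = sp none then
        ∑ τ : Option I → Fin D.g, ∫ x : Option I → E3, cy y r (x o) ^ 2 * ‖Φ τ x‖ ^ 2 else 0) =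
        ∑ τ : Option I → Fin D.g, ∫ x : Option I → E3,
          (∑ o, if sp o = sp none then cy y r (x o) ^ 2 else 0) * ‖Φ τ x‖ ^ 2 := by
      rw [← Finset.sum_filter, Finset.sum_comm]
      refine Finset.sum_congr rfl fun τ _ => ?_
      rw [← integral_finsetSum _ (fun o _ => hint o τ)]
      refine integral_congr_ae (Filter.Eventually.of_forall fun x => ?_)
      simp only
      rw [← Finset.sum_filter, Finset.sum_mul]
    rw [e1, e2]
    unfold nrm2
    rw [Finset.mul_sum]
    refine Finset.sum_le_sum fun τ _ => ?_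
    rw [← integral_const_mul]
    refine integral_mono_of_nonneg (Filter.Eventually.of_forall fun x => ?_)
      ((hintn τ).const_mul G) (Filter.Eventually.of_forall fun x => ?_)
    · refine mul_nonneg (Finset.sum_nonneg fun o _ => ?_) (sq_nonneg _)
      split_ifs
      · exact sq_nonneg _
      · exact le_rfl
    · by_cases hx : Φ τ x = 0
      · simp [hx]
      · exact mul_le_mul_of_nonneg_right (h τ x hx) (sq_nonneg _)
  have hcnt : 0 < (cnt sp (sp none) : ℝ) := by
    have : 0 < cnt sp (sp none) := by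
      unfold cnt
      exact Finset.card_pos.2 ⟨none, Finset.mem_filter.2 ⟨Finset.mem_univ _, rfl⟩⟩
    exact_mod_cast this
  refine h1.trans ?_
  rw [div_mul_eq_mul_div, le_div_iff₀ hcnt, mul_comm]
  exact h3

end Pool.Agent.Helper780_CP.RH2
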