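import Pool.Agent.Helper780_CP.LLDefs2
import Pool.Agent.Helper780_CP.LPDefs
import Pool.Agent.Helper985.CT.M_moveT_none
import Pool.Agent.Helper780_CP.RL2a
import Pool.Agent.Helper985.CT.M_lz_bounds
import Pool.Agent.Helper780_CP.RHN
import Pool.Agent.Helper780_CP.RH1
import Pool.Agent.Helper780_CP.RH2
import Pool.Agent.Helper780_CP.RH3
import Pool.Agent.Helper780_CP.RG1

set_option autoImplicit false

open MeasureTheory
open scoped Topology

namespace Pool.Agent.Helper780_CP.RH4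

open Pool.Agent.Helper780_CP
open Pool.Agent.Helper985.CP
open Pool.Agent.Helper780_CP.RH1 (lp_facts)
open Pool.Agent.Helper780_CP.RH2 (lp_dom)
open Pool.Agent.Helper780_CP.RH3 (insP)
open Pool.Agent.Helper780_CP.RG1 (gibbs_w)

open Pool.Agent.Helper780_CP Pool.Agent.Helper985.CP

theorem H4_pen_summable (t : ℝ) (ht : 0 < t) :
    Summable (fun m : Fin 3 → ℤ => Real.exp (-(t * pen 8 m))) := by
  obtain ⟨C, -, h⟩ := lz_bounds t 8 ht (by norm_num)
  have h1 := (h 8 le_rfl).1.summable.mul_right (Real.exp (lz 8 t))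
  refine h1.congr fun m => ?_
  rw [← Real.exp_add]
  congr 1
  ring

theorem H4_lpw_cont (y : E3) (r : ℝ) (m : Fin 3 → ℤ) : Continuous (lpw y r m) := by
  unfold lpw
  have h1 : Continuous (cy y r) := (RHN.hn_cy_smooth y r).continuous
  have h2 := MT_pwave_cont 8 m
  exact (Complex.continuous_ofReal.comp h1).mul (h2.comp (by fun_prop))

theorem H4_zero {S : Type} (D : Species S) {I : Type} [Fintype I] [DecidableEq I]
    (sp : I → S) (ℓ : ℝ) (Ψ : Wave D I) (hΨ : IsState D sp ℓ Ψ) (h : nrm2 D Ψ = 0) (v : E3) :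
    energy D sp Ψ = 0 ∧ phim D sp Ψ v = 0 ∧ wm D (near2 v) Ψ = 0 := by
  have h1 := MT_zero D sp ℓ Ψ hΨ h (fun x => 1 / ‖x - v‖)
  refine ⟨h1.1, h1.2, ?_⟩
  have h0 : Ψ = 0 := by
    by_contra hne
    exact absurd h (nrm2_pos D sp ℓ Ψ hΨ hne).ne'
  rw [h0]
  unfold wm
  simp

theorem H4_tlogt {t w : ℝ} (ht : 0 ≤ t) (hw : 0 < w) :
    t * Real.log w - w ≤ t * Real.log t := by
  rcases ht.eq_or_lt with h | h
  · rw [← h]; simp; exact hw.le
  · have h1 : Real.log (w / t) ≤ w / t - 1 := Real.log_le_sub_one_of_pos (by positivity)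
    rw [Real.log_div hw.ne' h.ne'] at h1
    have h2 := mul_le_mul_of_nonneg_left h1 h.le
    have h3 : t * (w / t - 1) = w - t := by field_simp
    rw [h3] at h2
    nlinarith

theorem H4_WI_cy {S : Type} (D : Species S) {I : Type} [Fintype I] [DecidableEq I]
    (sp : Option I → S) (ℓ : ℝ) (y : E3) (r : ℝ) {W : (Option I → E3) → ℝ}
    (hW : WI D sp ℓ W) : WI D sp ℓ (fun x => cy y r (x none) ^ 2 * W x) := by
  intro Ψ hΨ τ
  have h1 := RL2a.RM.bmul (I := Option I) (fun z => cy y r z ^ 2)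
    ((RHN.hn_cy_smooth y r).continuous.pow 2) (fun z => sq_nonneg _) 1
    (fun z => by
      have h0 := RHN.hn_cy_nonneg y r z
      have h2 := RHN.hn_cy_le_one y r z
      nlinarith) none (hW Ψ hΨ τ)
  refine h1.congr (Filter.Eventually.of_forall fun x => ?_)
  simp only
  ring

/-- the bound for one spin and one plane wave -/
theorem H4_one {S : Type} [Fintype S] [DecidableEq S] (D : Species S) {I : Type}
    [Fintype I] [DecidableEq I] (sp : I → S) (ℓ T C' : ℝ) (hT : 0 < T) (v : E3) (q : ℝ) {k : ℕ}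
    (p : Fin k → ℝ) (hp : ∀ j, 0 ≤ p j) (χ : Fin k → Wave D I)
    (hχ : ∀ j, IsState D sp ℓ (χ j)) (Y w : ℝ) (hY : 0 < Y) (hw : 0 < w)
    (h : ∑ j, nrm2 D (χ j) * Real.exp (-(energy D sp (χ j) + q * phim D sp (χ j) v +
        C' * (nrm2 D (χ j) + wm D (near2 v) (χ j))) / (T * nrm2 D (χ j))) ≤ Y) :
    T * ((∑ j, p j * nrm2 D (χ j)) * (Real.log w - Real.log Y) - w -
        ∑ j, p j * (nrm2 D (χ j) * Real.log (p j))) ≤
      ∑ j, p j * (energy D sp (χ j) + q * phim D sp (χ j) v +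
        C' * (nrm2 D (χ j) + wm D (near2 v) (χ j))) := by
  obtain ⟨E, hE⟩ : ∃ E : Fin k → ℝ, E = fun j => energy D sp (χ j) + q * phim D sp (χ j) v +
        C' * (nrm2 D (χ j) + wm D (near2 v) (χ j)) := ⟨_, rfl⟩
  obtain ⟨n, hn⟩ : ∃ n : Fin k → ℝ, n = fun j => nrm2 D (χ j) := ⟨_, rfl⟩
  have hn0 : ∀ j, 0 ≤ n j := fun j => by rw [hn]; exact MT_nrm2_nonneg D _
  have hE0 : ∀ j, n j = 0 → -(E j) / T = 0 := by
    intro j hj
    have hj' : nrm2 D (χ j) = 0 := by rw [hn] at hj; exact hj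
    obtain ⟨h1, h2, h3⟩ := H4_zero D sp ℓ (χ j) (hχ j) hj' v
    rw [hE]
    simp only
    rw [h1, h2, h3, hj']
    simp
  have h' : ∑ j, n j * Real.exp (-(E j) / T / n j) ≤ Y := by
    refine le_trans (le_of_eq ?_) h
    refine Finset.sum_congr rfl fun j _ => ?_
    rw [hn, hE, div_div]
  have hg := gibbs_w p n (fun j => -(E j) / T) hp hn0 hE0 Y hY h'
  have ht0 : 0 ≤ ∑ j, p j * n j := Finset.sum_nonneg fun j _ => mul_nonneg (hp j) (hn0 j)
  have htl := H4_tlogt ht0 hw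
  have e1 : ∑ j, p j * (-(E j) / T) = -(∑ j, p j * E j) / T := by
    rw [← Finset.sum_neg_distrib, Finset.sum_div]
    refine Finset.sum_congr rfl fun j _ => ?_
    ring
  rw [e1] at hg
  have goal' : T * ((∑ j, p j * n j) * (Real.log w - Real.log Y) - w -
        ∑ j, p j * (n j * Real.log (p j))) ≤ ∑ j, p j * E j := by
    have h5 : -(∑ j, p j * E j) / T * T = -(∑ j, p j * E j) := by field_simp
    have h6 := mul_le_mul_of_nonneg_right hg hT.le
    rw [h5] at h6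
    have h7 := mul_le_mul_of_nonneg_right htl hT.le
    nlinarith
  rw [hn, hE] at goal'
  exact goal'

/-- TARGET -/
theorem rem_loc {S : Type} [Fintype S] [DecidableEq S] (D : Species S) (hD : D.Valid)
    (T θ δ : ℝ) (hT : 0 < T) (hθ : 0 < θ) (hδ : 0 < δ) (hδ1 : δ ≤ 1) :
    ∃ C : ℝ, 0 < C ∧ ∀ {I : Type} [Fintype I] [DecidableEq I] (sp : Option I → S) (ℓ : ℝ) (v : E3),
      0 < ℓ → Metric.closedBall v δ ⊆ cube ℓ → ∀ B Z : ℝ, 0 < Z →
      (∀ z ∈ peierls D sp ℓ T, z ≤ Z) →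
      (∀ Φ, IsState D (fun i => sp (some i)) ℓ Φ →
        B * nrm2 D Φ ≤ energy D (fun i => sp (some i)) Φ) →
      ∀ (y : E3) (r : ℝ), 0 < r → r ≤ 1 → ∀ {k : ℕ} (p : Fin k → ℝ) (Φ : Fin k → Wave D (Option I)),
      (∀ j, 0 ≤ p j) → (∀ j, IsState D sp ℓ (Φ j)) → ∀ b G κ : ℝ, 0 < b → 0 < G → 0 < κ →
      SGc D b Φ → (∀ j τ x, Φ j τ x ≠ 0 → ∑ o, cy y r (x o) ^ 2 ≤ G) →
      -T * Real.log Z * wx D p Φ (fun x => cy y r (x none) ^ 2) -
          T * ∑ j, p j * (wm D (fun x => cy y r (x none) ^ 2) (Φ j) * Real.log (p j)) ≤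
        (∑ j, p j * ∑ τ, ∫ x, ∑ i, cy y r (x none) ^ 2 * kin D sp (some i) (Φ j τ) x) +
        wx D p Φ (fun x => cy y r (x none) ^ 2 *
          (coul D (fun i => sp (some i)) (fun i => x (some i)) +
            D.charge (sp none) * ∑ i, D.charge (sp (some i)) / ‖x (some i) - v‖)) +
        C * wx D p Φ (fun x => cy y r (x none) ^ 2 * (1 + near2 v x)) +
        θ * (∑ j, p j * ∑ τ, ∫ x, cy y r (x none) ^ 2 * kin D sp none (Φ j τ) x) +
        C / r ^ 2 * wx D p Φ (fun x => if ‖x none - y‖ ≤ 2 * r then 1 else 0) +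
        T * (wx D p Φ (fun x => cy y r (x none) ^ 2) * Real.log (b * G / κ)) +
        C * κ / (cnt sp (sp none) : ℝ) := by
  classical
  obtain ⟨C1, hC1, hins⟩ := insP D hD
  obtain ⟨C2, hC2, hlp⟩ := lp_facts D hD
  obtain ⟨C', hC'e⟩ : ∃ C', C' = C1 * (1 + T) / δ ^ 2 := ⟨_, rfl⟩
  have hC' : 0 < C' := by rw [hC'e]; positivity
  have hmass : ∀ s, 0 < D.mass s := hD.mass_pos
  obtain ⟨β, hβe⟩ : ∃ β : S → ℝ, β = fun s => θ / (4 * T * D.mass s) := ⟨_, rfl⟩
  have hβ : ∀ s, 0 < β s := fun s => by rw [hβe]; have := hmass s; positivity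
  obtain ⟨Λ, hΛe⟩ : ∃ Λ : S → ℝ,
    Λ = fun s => ∑' m : Fin 3 → ℤ, Real.exp (-(β s * pen 8 m)) := ⟨_, rfl⟩
  have hΛs : ∀ s, HasSum (fun m : Fin 3 → ℤ => Real.exp (-(β s * pen 8 m))) (Λ s) := fun s => by
    rw [hΛe]; exact (H4_pen_summable (β s) (hβ s)).hasSum
  have hΛ0 : ∀ s, 0 ≤ Λ s := fun s => (hΛs s).nonneg fun m => (Real.exp_pos _).le
  have hs1 : ∀ s, 0 ≤ θ * C2 / (4 * D.mass s) := fun s => by have := hmass s; positivity
  have hs2 : ∀ s, 0 ≤ T * D.g * Λ s := fun s => by have := hΛ0 s; positivity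
  refine ⟨C' + (∑ s, θ * C2 / (4 * D.mass s)) + (∑ s, T * D.g * Λ s), by
    have h1 := Finset.sum_nonneg (fun s (_ : s ∈ Finset.univ) => hs1 s)
    have h2 := Finset.sum_nonneg (fun s (_ : s ∈ Finset.univ) => hs2 s)
    positivity, ?_⟩
  intro I _ _ sp ℓ v hℓ hv B Z hZ0 hZ hB y r hr hr1 k p Φ hp hΦ b G κ hb hG hκ hSG hsup
  have hcnt : (0 : ℝ) < (cnt sp (sp none) : ℝ) := by
    have : 0 < cnt sp (sp none) := by
      unfold cnt
      exact Finset.card_pos.2 ⟨none, by simp⟩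
    exact_mod_cast this
  obtain ⟨nc, hnc⟩ : ∃ nc : ℝ, nc = (cnt sp (sp none) : ℝ) := ⟨_, rfl⟩
  obtain ⟨q, hq⟩ : ∃ q : ℝ, q = D.charge (sp none) := ⟨_, rfl⟩
  have hspe : (fun o : Option I => o.elim (sp none) (fun i => sp (some i))) = sp := by
    funext o
    cases o <;> rfl
  have hf := fun j => hlp sp ℓ y r hr hr1 (Φ j) (hΦ j)
  have hχ : ∀ m σ j, IsState D (fun i => sp (some i)) ℓ (psl D (lpw y r m) σ (Φ j)) :=
    fun m σ j => (hf j).1 m σ
  -- domination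
  have hdom : ∀ m σ, SGc D (b * G / nc) (fun j => psl D (lpw y r m) σ (Φ j)) := by
    intro m σ γ
    have e : (fun (τ : I → Fin D.g) (x : I → E3) => ∑ j, γ j * psl D (lpw y r m) σ (Φ j) τ x) =
        psl D (lpw y r m) σ (fun τ x => ∑ j, γ j * Φ j τ x) := by
      funext τ x
      rw [MT_psl_lin D sp ℓ Φ hΦ _ (H4_lpw_cont y r m) σ]
    show nrm2 D (fun (τ : I → Fin D.g) (x : I → E3) =>
      ∑ j, γ j * psl D (lpw y r m) σ (Φ j) τ x) ≤ _
    rw [e]
    have h1 := lp_dom D hD sp ℓ y r hr hr1 _ (state_comb D sp ℓ Φ hΦ γ) G hG.le (by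
      intro τ x hne
      have : ∃ j, Φ j τ x ≠ 0 := by
        by_contra hcon
        push Not at hcon
        exact hne (Finset.sum_eq_zero fun j _ => by rw [hcon j, mul_zero])
      obtain ⟨j, hj⟩ := this
      refine le_trans (Finset.sum_le_sum fun o _ => ?_) (hsup j τ x hj)
      split_ifs
      · exact le_rfl
      · positivity) m σ
    refine h1.trans ?_
    rw [← hnc]
    have h2 := mul_le_mul_of_nonneg_left (hSG γ) (show 0 ≤ G / nc by rw [hnc]; positivity)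
    refine h2.trans (le_of_eq ?_)
    ring
  have hY : 0 < b * G / nc * Z := by rw [hnc]; positivity
  obtain ⟨w, hwe⟩ : ∃ w : (Fin 3 → ℤ) → ℝ,
    w = fun m => κ / nc * Real.exp (-(β (sp none) * pen 8 m)) := ⟨_, rfl⟩
  have hw : ∀ m, 0 < w m := fun m => by
    rw [hwe, hnc]; have := Real.exp_pos (-(β (sp none) * pen 8 m)); positivity
  -- one plane wave
  have hone : ∀ m σ, T * ((∑ j, p j * nrm2 D (psl D (lpw y r m) σ (Φ j))) *
      (Real.log (w m) - Real.log (b * G / nc * Z)) - w m -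
        ∑ j, p j * (nrm2 D (psl D (lpw y r m) σ (Φ j)) * Real.log (p j))) ≤
      ∑ j, p j * (energy D (fun i => sp (some i)) (psl D (lpw y r m) σ (Φ j)) +
        q * phim D (fun i => sp (some i)) (psl D (lpw y r m) σ (Φ j)) v +
        C' * (nrm2 D (psl D (lpw y r m) σ (Φ j)) +
          wm D (near2 v) (psl D (lpw y r m) σ (Φ j)))) := by
    intro m σ
    refine H4_one D (fun i => sp (some i)) ℓ T C' hT v q p hp
      (fun j => psl D (lpw y r m) σ (Φ j)) (hχ m σ) _ (w m) hY (hw m) ?_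
    have h1 := hins δ T hδ hδ1 hT (fun i => sp (some i)) (sp none) ℓ v hℓ hv B Z
      (by rw [hspe]; exact hZ) hB (b * G / nc) (by rw [hnc]; positivity)
      (fun j => psl D (lpw y r m) σ (Φ j)) (hχ m σ) (hdom m σ)
    rw [← hC'e, ← hq] at h1
    exact h1
  -- the sums
  have mphi : Measurable (fun x : I → E3 => ∑ i, D.charge (sp (some i)) * (1 / ‖x i - v‖)) := by
    fun_prop
  have aN := fun j => (hf j).2.1 (fun _ => 1) measurable_const
    (fun τ => by simpa using (int_state D sp ℓ (Φ j) (hΦ j) τ).1)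
  have aF := fun j => (hf j).2.1 (fun x => ∑ i, D.charge (sp (some i)) * (1 / ‖x i - v‖)) mphi
    (fun τ => RL2a.RM.WI_phi_rest D sp ℓ v (Φ j) (hΦ j) τ)
  have aR := fun j => (hf j).2.1 (near2 v) (near2_meas v)
    (fun τ => RL2a.RM.WI_near2_rest D sp ℓ v (Φ j) (hΦ j) τ)
  have aE := fun j => (hf j).2.2.1
  choose P hPs hPle using fun j => (hf j).2.2.2
  simp only [wm_one, mul_one] at aN
  obtain ⟨N0, hN0⟩ : ∃ N0 : Fin k → ℝ, N0 = fun j =>
    wm D (fun x => cy y r (x none) ^ 2) (Φ j) := ⟨_, rfl⟩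
  obtain ⟨F0, hF0⟩ : ∃ F0 : Fin k → ℝ, F0 = fun j =>
    wm D (fun x => cy y r (x none) ^ 2 *
      ∑ i, D.charge (sp (some i)) * (1 / ‖x (some i) - v‖)) (Φ j) := ⟨_, rfl⟩
  obtain ⟨R0, hR0⟩ : ∃ R0 : Fin k → ℝ, R0 = fun j =>
    wm D (fun x => cy y r (x none) ^ 2 * near2 v (fun i => x (some i))) (Φ j) := ⟨_, rfl⟩
  obtain ⟨K0, hK0⟩ : ∃ K0 : Fin k → ℝ, K0 = fun j =>
    ∑ τ, ∫ x, ∑ i, cy y r (x none) ^ 2 * kin D sp (some i) (Φ j τ) x := ⟨_, rfl⟩
  obtain ⟨V0, hV0⟩ : ∃ V0 : Fin k → ℝ, V0 = fun j =>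
    wm D (fun x => cy y r (x none) ^ 2 *
      coul D (fun i => sp (some i)) (fun i => x (some i))) (Φ j) := ⟨_, rfl⟩
  obtain ⟨N, hN⟩ : ∃ N : Fin k → (Fin 3 → ℤ) → ℝ, N = fun j m =>
    ∑ σ, nrm2 D (psl D (lpw y r m) σ (Φ j)) := ⟨_, rfl⟩
  obtain ⟨E, hE⟩ : ∃ E : Fin k → (Fin 3 → ℤ) → ℝ, E = fun j m =>
    ∑ σ, energy D (fun i => sp (some i)) (psl D (lpw y r m) σ (Φ j)) := ⟨_, rfl⟩
  obtain ⟨F, hF⟩ : ∃ F : Fin k → (Fin 3 → ℤ) → ℝ, F = fun j m =>
    ∑ σ, phim D (fun i => sp (some i)) (psl D (lpw y r m) σ (Φ j)) v := ⟨_, rfl⟩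
  obtain ⟨R, hR⟩ : ∃ R : Fin k → (Fin 3 → ℤ) → ℝ, R = fun j m =>
    ∑ σ, wm D (near2 v) (psl D (lpw y r m) σ (Φ j)) := ⟨_, rfl⟩
  have bN : ∀ j, HasSum (N j) (N0 j) := fun j => by rw [hN, hN0]; exact aN j
  have bF : ∀ j, HasSum (F j) (F0 j) := fun j => by rw [hF, hF0]; exact aF j
  have bR : ∀ j, HasSum (R j) (R0 j) := fun j => by rw [hR, hR0]; exact aR j
  have bE : ∀ j, HasSum (E j) (K0 j + V0 j) := fun j => by rw [hE, hK0, hV0]; exact aE j
  have bP : ∀ j, HasSum (fun m => pen 8 m * N j m) (P j) := fun j => by rw [hN]; exact hPs j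
  obtain ⟨L, hL⟩ : ∃ L : ℝ, L = Real.log (κ / nc) - Real.log (b * G / nc * Z) := ⟨_, rfl⟩
  have hlogw : ∀ m, Real.log (w m) - Real.log (b * G / nc * Z) = L - β (sp none) * pen 8 m := by
    intro m
    rw [hwe]
    simp only
    rw [Real.log_mul (by rw [hnc]; positivity) (Real.exp_pos _).ne', Real.log_exp, hL]
    ring
  have hm : ∀ m, T * ((∑ j, p j * (N j m * L - β (sp none) * (pen 8 m * N j m))) -
      D.g * (κ / nc * Real.exp (-(β (sp none) * pen 8 m))) -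
        ∑ j, p j * (N j m * Real.log (p j))) ≤
      ∑ j, p j * (E j m + q * F j m + C' * (N j m + R j m)) := by
    intro m
    have h1 := Finset.sum_le_sum (fun σ (_ : σ ∈ (Finset.univ : Finset (Fin D.g))) => hone m σ)
    have e1 : ∑ σ : Fin D.g, T * ((∑ j, p j * nrm2 D (psl D (lpw y r m) σ (Φ j))) *
      (Real.log (w m) - Real.log (b * G / nc * Z)) - w m -
        ∑ j, p j * (nrm2 D (psl D (lpw y r m) σ (Φ j)) * Real.log (p j))) =
      T * ((∑ j, p j * (N j m * L - β (sp none) * (pen 8 m * N j m))) -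
      D.g * (κ / nc * Real.exp (-(β (sp none) * pen 8 m))) -
        ∑ j, p j * (N j m * Real.log (p j))) := by
      rw [← Finset.mul_sum, Finset.sum_sub_distrib, Finset.sum_sub_distrib, ← Finset.sum_mul,
        Finset.sum_const, Finset.card_univ, Fintype.card_fin, nsmul_eq_mul, hlogw m]
      congr 2
      · congr 1
        · rw [Finset.sum_comm, Finset.sum_mul]
          refine Finset.sum_congr rfl fun j _ => ?_
          rw [← Finset.mul_sum, hN]
          ring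
        · rw [hwe]
      · rw [Finset.sum_comm]
        refine Finset.sum_congr rfl fun j _ => ?_
        rw [← Finset.mul_sum, ← Finset.sum_mul, hN]
    have e2 : ∑ σ : Fin D.g, ∑ j, p j * (energy D (fun i => sp (some i))
          (psl D (lpw y r m) σ (Φ j)) +
        q * phim D (fun i => sp (some i)) (psl D (lpw y r m) σ (Φ j)) v +
        C' * (nrm2 D (psl D (lpw y r m) σ (Φ j)) +
          wm D (near2 v) (psl D (lpw y r m) σ (Φ j)))) =
        ∑ j, p j * (E j m + q * F j m + C' * (N j m + R j m)) := by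
      rw [Finset.sum_comm]
      refine Finset.sum_congr rfl fun j _ => ?_
      rw [← Finset.mul_sum, Finset.sum_add_distrib, Finset.sum_add_distrib, ← Finset.mul_sum,
        ← Finset.mul_sum, Finset.sum_add_distrib, hN, hE, hF, hR]
    rw [e1, e2] at h1
    exact h1
  have hsL : HasSum (fun m => T * ((∑ j, p j * (N j m * L - β (sp none) * (pen 8 m * N j m))) -
      D.g * (κ / nc * Real.exp (-(β (sp none) * pen 8 m))) -
        ∑ j, p j * (N j m * Real.log (p j))))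
      (T * ((∑ j, p j * (N0 j * L - β (sp none) * P j)) - D.g * (κ / nc * Λ (sp none)) -
        ∑ j, p j * (N0 j * Real.log (p j)))) := by
    refine HasSum.mul_left T ?_
    refine HasSum.sub (HasSum.sub ?_ ?_) ?_
    · exact hasSum_sum fun j _ => (((bN j).mul_right L).sub ((bP j).mul_left _)).mul_left (p j)
    · exact ((hΛs (sp none)).mul_left _).mul_left _
    · exact hasSum_sum fun j _ => ((bN j).mul_right _).mul_left (p j)
  have hsR : HasSum (fun m => ∑ j, p j * (E j m + q * F j m + C' * (N j m + R j m)))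
      (∑ j, p j * ((K0 j + V0 j) + q * F0 j + C' * (N0 j + R0 j))) :=
    hasSum_sum fun j _ => ((((bE j).add ((bF j).mul_left q)).add
      (((bN j).add (bR j)).mul_left C'))).mul_left (p j)
  have main := hasSum_le hm hsL hsR
  -- integrability
  have wC := RL2a.RM.WI_coul_rest D sp ℓ
  have wF : WI D sp ℓ (fun x => ∑ i, D.charge (sp (some i)) * (1 / ‖x (some i) - v‖)) :=
    RL2a.RM.WI_phi_rest D sp ℓ v
  have wR : WI D sp ℓ (fun X => near2 v (fun i : I => X (some i))) :=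
    RL2a.RM.WI_near2_rest D sp ℓ v
  have wX : WI D sp ℓ (near2 v) := WI_near2 D sp ℓ v
  have w1 : WI D sp ℓ (fun _ => (1 : ℝ)) := WI_const D sp ℓ 1
  have c1 := H4_WI_cy D sp ℓ y r w1
  have cC := H4_WI_cy D sp ℓ y r wC
  have cF := H4_WI_cy D sp ℓ y r wF
  have cR := H4_WI_cy D sp ℓ y r wR
  have c1X := H4_WI_cy D sp ℓ y r (WI_add D sp ℓ w1 wX)
  -- rewriting the sums
  have hA : wx D p Φ (fun x => cy y r (x none) ^ 2) = ∑ j, p j * N0 j := by rw [hN0]; rfl
  have hVF : wx D p Φ (fun x => cy y r (x none) ^ 2 *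
      (coul D (fun i => sp (some i)) (fun i => x (some i)) +
        D.charge (sp none) * ∑ i, D.charge (sp (some i)) / ‖x (some i) - v‖)) =
      (∑ j, p j * V0 j) + q * ∑ j, p j * F0 j := by
    rw [Finset.mul_sum, ← Finset.sum_add_distrib]
    unfold wx
    refine Finset.sum_congr rfl fun j _ => ?_
    rw [hV0, hF0, hq]
    simp only
    rw [mul_left_comm (D.charge (sp none)), ← mul_add,
      ← wm_smul D (fun x => cy y r (x none) ^ 2 *
        ∑ i, D.charge (sp (some i)) * (1 / ‖x (some i) - v‖)) (D.charge (sp none)) (Φ j),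
      ← wm_add D sp ℓ cC (WI_smul D sp ℓ cF (D.charge (sp none))) (Φ j) (hΦ j)]
    congr 2
    funext x
    simp only [div_eq_mul_one_div (D.charge _)]
    ring
  have hX : (∑ j, p j * N0 j) + ∑ j, p j * R0 j ≤
      wx D p Φ (fun x => cy y r (x none) ^ 2 * (1 + near2 v x)) := by
    rw [← Finset.sum_add_distrib]
    unfold wx
    refine Finset.sum_le_sum fun j _ => ?_
    rw [← mul_add]
    refine mul_le_mul_of_nonneg_left ?_ (hp j)
    have e1 : N0 j = wm D (fun x => cy y r (x none) ^ 2 * 1) (Φ j) := by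
      rw [hN0]; simp only [mul_one]
    have e2 : R0 j = wm D (fun x => cy y r (x none) ^ 2 *
      near2 v (fun i => x (some i))) (Φ j) := by rw [hR0]
    rw [e1, e2, ← wm_add D sp ℓ c1 cR (Φ j) (hΦ j)]
    refine wm_mono D sp ℓ (WI_add D sp ℓ c1 cR) c1X (Φ j) (hΦ j)
      (Filter.Eventually.of_forall fun x => ?_)
    have h1 := RL2a.RM.near2_rest_le v x
    have h2 : 0 ≤ cy y r (x none) ^ 2 := sq_nonneg _
    nlinarith
  have hX0 : 0 ≤ wx D p Φ (fun x => cy y r (x none) ^ 2 * (1 + near2 v x)) := by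
    unfold wx
    refine Finset.sum_nonneg fun j _ => mul_nonneg (hp j) ?_
    unfold wm
    refine Finset.sum_nonneg fun τ _ => integral_nonneg fun x => ?_
    have := near2_nonneg v x
    positivity
  have hW0 : 0 ≤ wx D p Φ (fun x => if ‖x none - y‖ ≤ 2 * r then 1 else 0) := by
    unfold wx
    refine Finset.sum_nonneg fun j _ => mul_nonneg (hp j) ?_
    unfold wm
    refine Finset.sum_nonneg fun τ _ => integral_nonneg fun x => ?_
    simp only
    split_ifs <;> positivity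
  have hPP : ∑ j, p j * P j ≤ 4 * D.mass (sp none) *
      (∑ j, p j * ∑ τ, ∫ x, cy y r (x none) ^ 2 * kin D sp none (Φ j τ) x) +
      C2 / r ^ 2 * wx D p Φ (fun x => if ‖x none - y‖ ≤ 2 * r then 1 else 0) := by
    unfold wx
    rw [Finset.mul_sum, Finset.mul_sum, ← Finset.sum_add_distrib]
    refine Finset.sum_le_sum fun j _ => ?_
    have := mul_le_mul_of_nonneg_left (hPle j) (hp j)
    refine this.trans (le_of_eq ?_)
    ring
  rw [hA, hVF, ← hnc]
  have eAL : ∑ j, p j * (wm D (fun x => cy y r (x none) ^ 2) (Φ j) * Real.log (p j)) =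
      ∑ j, p j * (N0 j * Real.log (p j)) := by rw [hN0]
  have eK : (∑ j, p j * ∑ τ, ∫ x, ∑ i, cy y r (x none) ^ 2 * kin D sp (some i) (Φ j τ) x) =
      ∑ j, p j * K0 j := by rw [hK0]
  rw [eAL, eK]
  have e3 : (∑ j, p j * (N0 j * L - β (sp none) * P j)) =
      L * (∑ j, p j * N0 j) - β (sp none) * ∑ j, p j * P j := by
    rw [Finset.mul_sum, Finset.mul_sum, ← Finset.sum_sub_distrib]
    refine Finset.sum_congr rfl fun j _ => ?_
    ring
  have e4 : ∑ j, p j * ((K0 j + V0 j) + q * F0 j + C' * (N0 j + R0 j)) =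
      (∑ j, p j * K0 j) + (∑ j, p j * V0 j) + q * (∑ j, p j * F0 j) +
      C' * ((∑ j, p j * N0 j) + ∑ j, p j * R0 j) := by
    simp only [Finset.mul_sum, mul_add, Finset.sum_add_distrib]
    have h1 : ∑ j, p j * (q * F0 j) = ∑ j, q * (p j * F0 j) :=
      Finset.sum_congr rfl fun j _ => by ring
    have h2 : ∑ j, p j * (C' * N0 j) = ∑ j, C' * (p j * N0 j) :=
      Finset.sum_congr rfl fun j _ => by ring
    have h3 : ∑ j, p j * (C' * R0 j) = ∑ j, C' * (p j * R0 j) :=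
      Finset.sum_congr rfl fun j _ => by ring
    rw [h1, h2, h3]
  rw [e3, e4] at main
  have hLL : L = -Real.log (b * G / κ) - Real.log Z := by
    have hnc0 : 0 < nc := by rw [hnc]; exact hcnt
    rw [hL, Real.log_mul (by positivity) hZ0.ne', Real.log_div hκ.ne' hnc0.ne',
      Real.log_div (by positivity) hnc0.ne', Real.log_div (by positivity) hκ.ne']
    ring
  rw [hLL] at main
  have hm0 := hmass (sp none)
  have hb1 : T * β (sp none) * (4 * D.mass (sp none)) = θ := by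
    rw [hβe]; simp only; field_simp
  have hb2 : T * β (sp none) * C2 = θ * C2 / (4 * D.mass (sp none)) := by
    rw [hβe]; simp only; field_simp
  have hPP2 := mul_le_mul_of_nonneg_left hPP (mul_nonneg hT.le (hβ (sp none)).le)
  have s1 : θ * C2 / (4 * D.mass (sp none)) ≤ ∑ s, θ * C2 / (4 * D.mass s) :=
    Finset.single_le_sum (f := fun s => θ * C2 / (4 * D.mass s)) (fun s _ => hs1 s)
      (Finset.mem_univ _)
  have s2 : T * D.g * Λ (sp none) ≤ ∑ s, T * D.g * Λ s :=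
    Finset.single_le_sum (f := fun s => T * D.g * Λ s) (fun s _ => hs2 s) (Finset.mem_univ _)
  have s10 := Finset.sum_nonneg (fun s (_ : s ∈ Finset.univ) => hs1 s)
  have s20 := Finset.sum_nonneg (fun s (_ : s ∈ Finset.univ) => hs2 s)
  obtain ⟨Sa, hSa⟩ : ∃ Sa : ℝ, Sa = ∑ s, θ * C2 / (4 * D.mass s) := ⟨_, rfl⟩
  obtain ⟨Sb, hSb⟩ : ∃ Sb : ℝ, Sb = ∑ s, T * D.g * Λ s := ⟨_, rfl⟩
  rw [← hSa] at s1 s10 ⊢
  rw [← hSb] at s2 s20 ⊢
  have hr2 : 0 < 1 / r ^ 2 := by positivity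
  have hκn : 0 < κ / nc := by
    have hnc0 : 0 < nc := by rw [hnc]; exact hcnt
    positivity
  obtain ⟨X, hXe⟩ : ∃ X : ℝ, X = wx D p Φ (fun x => cy y r (x none) ^ 2 * (1 + near2 v x)) :=
    ⟨_, rfl⟩
  obtain ⟨W1, hW1e⟩ : ∃ W1 : ℝ, W1 = wx D p Φ (fun x => if ‖x none - y‖ ≤ 2 * r then 1 else 0) :=
    ⟨_, rfl⟩
  obtain ⟨KN, hKN⟩ : ∃ KN : ℝ, KN = ∑ j, p j * ∑ τ, ∫ x, cy y r (x none) ^ 2 *
    kin D sp none (Φ j τ) x := ⟨_, rfl⟩
  rw [← hXe] at hX hX0 ⊢
  rw [← hW1e] at hW0 hPP2 ⊢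
  rw [← hKN] at hPP2 ⊢
  obtain ⟨A, hAe⟩ : ∃ A : ℝ, A = ∑ j, p j * N0 j := ⟨_, rfl⟩
  obtain ⟨RR, hRR⟩ : ∃ RR : ℝ, RR = ∑ j, p j * R0 j := ⟨_, rfl⟩
  rw [← hAe] at main hX ⊢
  rw [← hRR] at main hX
  -- the error terms
  have t1 : C' * (A + RR) ≤ C' * X := mul_le_mul_of_nonneg_left hX hC'.le
  have t2 : C' * X ≤ (C' + Sa + Sb) * X := mul_le_mul_of_nonneg_right (by linarith) hX0
  have t3 : T * β (sp none) * (4 * D.mass (sp none) * KN + C2 / r ^ 2 * W1) =
      θ * KN + θ * C2 / (4 * D.mass (sp none)) / r ^ 2 * W1 := by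
    have : T * β (sp none) * (4 * D.mass (sp none) * KN + C2 / r ^ 2 * W1) =
      (T * β (sp none) * (4 * D.mass (sp none))) * KN + (T * β (sp none) * C2) / r ^ 2 * W1 := by
      ring
    rw [this, hb1, hb2]
  have t4 : θ * C2 / (4 * D.mass (sp none)) / r ^ 2 * W1 ≤ (C' + Sa + Sb) / r ^ 2 * W1 := by
    refine mul_le_mul_of_nonneg_right ?_ hW0
    exact div_le_div_of_nonneg_right (by linarith) (by positivity)
  have t5 : T * (D.g * (κ / nc * Λ (sp none))) ≤ (C' + Sa + Sb) * κ / nc := by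
    have : T * (D.g * (κ / nc * Λ (sp none))) = (T * D.g * Λ (sp none)) * (κ / nc) := by ring
    rw [this, mul_div_assoc]
    exact mul_le_mul_of_nonneg_right (by linarith) hκn.le
  rw [t3] at hPP2
  have t6 : T * ((-Real.log (b * G / κ) - Real.log Z) * A - β (sp none) * (∑ j, p j * P j) -
      D.g * (κ / nc * Λ (sp none)) - ∑ j, p j * (N0 j * Real.log (p j))) =
      -T * Real.log Z * A - T * (A * Real.log (b * G / κ)) -
      T * β (sp none) * (∑ j, p j * P j) - T * (D.g * (κ / nc * Λ (sp none))) -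
      T * ∑ j, p j * (N0 j * Real.log (p j)) := by ring
  rw [t6] at main
  linarith

end Pool.Agent.Helper780_CP.RH4
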