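import Pool.Agent.Helper780_CP.LLDefs2
import Pool.Agent.Helper780_CP.LPDefs
import Pool.Agent.Helper780_CP.RL2b
import Pool.Agent.Helper780_CP.RG1

set_option autoImplicit false

open MeasureTheory
open scoped Topology

namespace Pool.Agent.Helper780_CP.RH6

open Pool.Agent.Helper780_CP
open Pool.Agent.Helper985.CP
open Pool.Agent.Helper780_CP.RG1 (near_minT)

open Pool.Agent.Helper780_CP Pool.Agent.Helper985.CP

open Pool.Agent.Helper780_CP.RL0 (mulW_stateS)
open Pool.Agent.Helper780_CP.RL2b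

/-- the cut-off `√(ε + g)` -/
noncomputable def fe {I : Type} [Fintype I] (ε : ℝ) (y : E3) (r : ℝ) (x : I → E3) : ℝ :=
  √(ε + loc_upper_g y r x)

theorem fe_sq {I : Type} [Fintype I] {ε : ℝ} (hε : 0 < ε) (y : E3) (r : ℝ) (x : I → E3) :
    fe ε y r x ^ 2 = ε + loc_upper_g y r x :=
  Real.sq_sqrt (by linarith [loc_upper_g_nonneg y r x])

theorem fe_smooth {I : Type} [Fintype I] {ε : ℝ} (hε : 0 < ε) (y : E3) (r : ℝ) :
    ContDiff ℝ SM (fe (I := I) ε y r) := by
  unfold fe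
  apply ContDiff.sqrt
  · exact contDiff_const.add (loc_upper_g_smooth y r)
  · intro x
    have := loc_upper_g_nonneg y r x
    positivity

theorem fe_sy {S I : Type} [Fintype I] [DecidableEq I] (sp : I → S) (ε : ℝ) (y : E3) (r : ℝ) :
    Sy sp (fe (I := I) ε y r) := by
  intro i j x _
  unfold fe loc_upper_g
  congr 2
  exact Equiv.sum_comp (Equiv.swap i j) fun k => cy y r (x k) ^ 2

theorem fe_fderiv {I : Type} [Fintype I] [DecidableEq I] {ε : ℝ} (hε : 0 < ε) (y : E3) (r : ℝ)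
    (x : I → E3) (j : I) (e : E3) :
    fe ε y r x * fderiv ℝ (fe ε y r) x (Pi.single j e) =
      cy y r (x j) * fderiv ℝ (cy y r) (x j) e := by
  have hf : HasFDerivAt (fe ε y r) (fderiv ℝ (fe ε y r) x) x :=
    (((fe_smooth hε y r).differentiable (by simp)) x).hasFDerivAt
  have hf' : HasFDerivAt (loc_upper_f y r) (fderiv ℝ (loc_upper_f y r) x) x :=
    (((loc_upper_f_smooth y r).differentiable (by simp)) x).hasFDerivAt
  have h1 : HasFDerivAt (fun x => fe ε y r x ^ 2)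
      ((2 * fe ε y r x ^ (2 - 1)) • fderiv ℝ (fe ε y r) x) x := by
    have := hf.pow 2
    simpa using this
  have h2 : HasFDerivAt (fun x => loc_upper_f y r x ^ 2)
      ((2 * loc_upper_f y r x ^ (2 - 1)) • fderiv ℝ (loc_upper_f y r) x) x := by
    have := hf'.pow 2
    simpa using this
  have h3 := h2.add_const (ε - 1)
  have he : (fun x : I → E3 => loc_upper_f y r x ^ 2 + (ε - 1)) = fun x => fe ε y r x ^ 2 := by
    funext z
    rw [fe_sq hε, loc_upper_f_sq]
    ring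
  rw [he] at h3
  have h4 := h1.unique h3
  have h5 := congrArg (fun L : (I → E3) →L[ℝ] ℝ => L (Pi.single j e)) h4
  have h6 := loc_upper_f_fderiv y r x j e
  simp only [_root_.smul_apply, smul_eq_mul] at h5
  norm_num at h5
  linarith

theorem fe_kin {S : Type} (D : Species S) (hD : D.Valid) {I : Type} [Fintype I]
    [DecidableEq I] (sp : I → S) (ℓ : ℝ) (Ψ : Wave D I) (hΨ : IsState D sp ℓ Ψ) {ε : ℝ}
    (hε : 0 < ε) (y : E3) (r : ℝ) (j : I) (τ : I → Fin D.g) (x : I → E3) :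
    (ε + loc_upper_g y r x) * kin D sp j (Ψ τ) x - 1 / 2 * (cy y r (x j) ^ 2 *
      kin D sp j (Ψ τ) x) - 2 * ((1 / (2 * D.mass (sp j))) * ∑ k : Fin 3,
        (fderiv ℝ (cy y r) (x j) (EuclideanSpace.single k (1 : ℝ))) ^ 2) * ‖Ψ τ x‖ ^ 2 ≤
      kin D sp j (mulW D (fe ε y r) Ψ τ) x := by
  have hm := hD.mass_pos (sp j)
  unfold kin
  have hd : ∀ k : Fin 3, fderiv ℝ (mulW D (fe ε y r) Ψ τ) x
      (Pi.single j (EuclideanSpace.single k (1 : ℝ))) =
      ((fe ε y r x : ℝ) : ℂ) * fderiv ℝ (Ψ τ) x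
        (Pi.single j (EuclideanSpace.single k (1 : ℝ))) +
      Ψ τ x * ((fderiv ℝ (fe ε y r) x (Pi.single j (EuclideanSpace.single k (1 : ℝ))) : ℝ)
        : ℂ) := by
    intro k
    have e1 : mulW D (fe ε y r) Ψ τ = fun x => ((fe ε y r x : ℝ) : ℂ) * Ψ τ x := rfl
    rw [e1, ims_deriv (fe ε y r) (Ψ τ) x _ _
      (((fe_smooth hε y r).differentiable (by simp)) x).hasFDerivAt
      (((hΨ.smooth τ).differentiable (by simp)) x)]
  simp only [hd]
  have hk : ∀ k : Fin 3, _ := fun k => loc_upper_alg (fe ε y r x)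
    (fderiv ℝ (fe ε y r) x (Pi.single j (EuclideanSpace.single k (1 : ℝ))))
    (cy y r (x j)) (fderiv ℝ (cy y r) (x j) (EuclideanSpace.single k (1 : ℝ)))
    (fderiv ℝ (Ψ τ) x (Pi.single j (EuclideanSpace.single k (1 : ℝ)))) (Ψ τ x)
    (fe_fderiv hε y r x j _)
  simp only [fe_sq hε] at hk
  have hs := Finset.sum_le_sum fun (k : Fin 3) (_ : k ∈ Finset.univ) => hk k
  have hs2 := mul_le_mul_of_nonneg_left hs (show 0 ≤ 1 / (2 * D.mass (sp j)) by positivity)
  refine le_trans (le_of_eq ?_) hs2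
  rw [Finset.sum_sub_distrib, Finset.sum_sub_distrib, ← Finset.mul_sum, ← Finset.mul_sum,
    ← Finset.sum_mul, ← Finset.mul_sum]
  ring

theorem fe_gr_cont {I : Type} [Fintype I] [DecidableEq I] {ε : ℝ} (hε : 0 < ε) (y : E3)
    (r : ℝ) : Continuous (gr (fe (I := I) ε y r)) := by
  unfold gr
  apply continuous_finsetSum
  intro j _
  apply continuous_finsetSum
  intro k _
  have h : Continuous (fderiv ℝ (fe (I := I) ε y r)) :=
    (fe_smooth hε y r).continuous_fderiv (by simp)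
  exact (h.clm_apply continuous_const).pow 2

theorem fe_gr_le {I : Type} [Fintype I] [DecidableEq I] {ε : ℝ} (hε : 0 < ε) (y : E3) (r : ℝ)
    (x : I → E3) : gr (fe ε y r) x ≤ loc_upper_Q y r x := by
  unfold gr loc_upper_Q
  apply Finset.sum_le_sum
  intro j _
  apply Finset.sum_le_sum
  intro k _
  have h1 := fe_fderiv hε y r x j (EuclideanSpace.single k (1 : ℝ))
  have h2 := fe_sq hε y r x
  have h3 : cy y r (x j) ^ 2 ≤ loc_upper_g y r x :=
    Finset.single_le_sum (f := fun i => cy y r (x i) ^ 2) (fun i _ => sq_nonneg _)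
      (Finset.mem_univ j)
  set t := fderiv ℝ (fe ε y r) x (Pi.single j (EuclideanSpace.single k (1 : ℝ)))
  set p := fderiv ℝ (cy y r) (x j) (EuclideanSpace.single k (1 : ℝ))
  set f := fe ε y r x
  set χ := cy y r (x j)
  have h5 : f ^ 2 * t ^ 2 = χ ^ 2 * p ^ 2 := by
    rw [← mul_pow, h1, mul_pow]
  have hf : 0 < f ^ 2 := by rw [h2]; nlinarith [sq_nonneg χ]
  have h7 : χ ^ 2 * p ^ 2 ≤ f ^ 2 * p ^ 2 :=
    mul_le_mul_of_nonneg_right (by linarith) (sq_nonneg _)
  rw [← h5] at h7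
  exact le_of_mul_le_mul_left h7 hf

/-- lower bound for the energy of `f Ψ` -/
theorem fe_lower {S : Type} (D : Species S) (hD : D.Valid) {Cm : ℝ}
    (hCm : ∀ s, 1 / (2 * D.mass s) ≤ Cm) {I : Type} [Fintype I]
    [DecidableEq I] (sp : I → S) (ℓ : ℝ) (Ψ : Wave D I) (hΨ : IsState D sp ℓ Ψ) {ε : ℝ}
    (hε : 0 < ε) (y : E3) (r : ℝ) :
    ε * energy D sp Ψ + (∑ τ, ∫ x, ∑ j, loc_upper_g y r x * kin D sp j (Ψ τ) x) +
      wm D (fun x => loc_upper_g y r x * coul D sp x) Ψ - 1 / 2 * klc D sp y r Ψ -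
      2 * Cm * wm D (loc_upper_Q y r) Ψ ≤ energy D sp (mulW D (fe ε y r) Ψ) := by
  have hg : Continuous (loc_upper_g (I := I) y r) := (loc_upper_g_smooth y r).continuous
  have hgB : ∀ x : I → E3, |loc_upper_g y r x| ≤ Fintype.card I := fun x => by
    rw [abs_of_nonneg (loc_upper_g_nonneg y r x)]; exact loc_upper_g_le y r x
  have hcy : ∀ j : I, Continuous (fun x : I → E3 => cy y r (x j) ^ 2) := fun j =>
    ((loc_upper_cy_smooth y r).continuous.comp (continuous_apply j)).pow 2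
  have hS : IsState D sp ℓ (mulW D (fe ε y r) Ψ) :=
    mulW_stateS D sp ℓ Ψ hΨ _ (fe_smooth hε y r) (fe_sy sp ε y r)
  unfold energy klc wm
  rw [Finset.mul_sum, Finset.mul_sum, Finset.mul_sum, ← Finset.sum_add_distrib,
    ← Finset.sum_add_distrib, ← Finset.sum_sub_distrib, ← Finset.sum_sub_distrib]
  apply Finset.sum_le_sum
  intro τ _
  obtain ⟨-, h2, h3, -, -⟩ := int_state D sp ℓ Ψ hΨ τ
  obtain ⟨-, h2', h3', -, -⟩ := int_state D sp ℓ _ hS τ
  have i1 : Integrable (fun x => (∑ i, kin D sp i (Ψ τ) x) + coul D sp x * ‖Ψ τ x‖ ^ 2) :=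
    (integrable_finsetSum _ fun j _ => h2 j).add h3
  have i1' : Integrable (fun x => (∑ i, kin D sp i (mulW D (fe ε y r) Ψ τ) x) +
      coul D sp x * ‖mulW D (fe ε y r) Ψ τ x‖ ^ 2) :=
    (integrable_finsetSum _ fun j _ => h2' j).add h3'
  have i2 : Integrable (fun x => ∑ j, loc_upper_g y r x * kin D sp j (Ψ τ) x) :=
    integrable_finsetSum _ fun j _ => loc_upper_kin_int D sp ℓ Ψ hΨ j τ _ hg
  have i3 : Integrable (fun x => loc_upper_g y r x * coul D sp x * ‖Ψ τ x‖ ^ 2) :=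
    loc_upper_WI_bdd D sp ℓ _ _ hg _ hgB (WI_coul D sp ℓ) Ψ hΨ τ
  have i4 : Integrable (fun x => ∑ j, cy y r (x j) ^ 2 * kin D sp j (Ψ τ) x) :=
    integrable_finsetSum _ fun j _ => loc_upper_kin_int D sp ℓ Ψ hΨ j τ _ (hcy j)
  have i5 : Integrable (fun x => loc_upper_Q y r x * ‖Ψ τ x‖ ^ 2) :=
    loc_upper_WI_cont D sp ℓ _ (loc_upper_Q_cont y r) Ψ hΨ τ
  rw [← integral_const_mul, ← integral_const_mul, ← integral_const_mul]
  have j1 := integral_add (i1.const_mul ε) i2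
  have j2 := integral_add ((i1.const_mul ε).add i2) i3
  have j3 := integral_sub (((i1.const_mul ε).add i2).add i3) (i4.const_mul (1 / 2))
  have j4 := integral_sub ((((i1.const_mul ε).add i2).add i3).sub (i4.const_mul (1 / 2)))
    (i5.const_mul (2 * Cm))
  simp only [Pi.add_apply, Pi.sub_apply] at j1 j2 j3 j4
  rw [← j1, ← j2, ← j3, ← j4]
  apply integral_mono (((((i1.const_mul ε).add i2).add i3).sub (i4.const_mul (1 / 2))).sub
    (i5.const_mul (2 * Cm))) i1'
  intro x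
  simp only [Pi.add_apply, Pi.sub_apply]
  rw [mulW_norm, fe_sq hε]
  have hk : ∀ j, (ε + loc_upper_g y r x) * kin D sp j (Ψ τ) x - 1 / 2 * (cy y r (x j) ^ 2 *
      kin D sp j (Ψ τ) x) - 2 * Cm * (∑ k : Fin 3,
        (fderiv ℝ (cy y r) (x j) (EuclideanSpace.single k (1 : ℝ))) ^ 2) * ‖Ψ τ x‖ ^ 2 ≤
      kin D sp j (mulW D (fe ε y r) Ψ τ) x := by
    intro j
    refine le_trans ?_ (fe_kin D hD sp ℓ Ψ hΨ hε y r j τ x)
    have h1 : (1 / (2 * D.mass (sp j))) * (∑ k : Fin 3,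
        (fderiv ℝ (cy y r) (x j) (EuclideanSpace.single k (1 : ℝ))) ^ 2) * ‖Ψ τ x‖ ^ 2 ≤
        Cm * (∑ k : Fin 3,
        (fderiv ℝ (cy y r) (x j) (EuclideanSpace.single k (1 : ℝ))) ^ 2) * ‖Ψ τ x‖ ^ 2 := by
      have h0 : 0 ≤ ∑ k : Fin 3,
        (fderiv ℝ (cy y r) (x j) (EuclideanSpace.single k (1 : ℝ))) ^ 2 :=
        Finset.sum_nonneg fun _ _ => sq_nonneg _
      apply mul_le_mul_of_nonneg_right _ (sq_nonneg _)
      exact mul_le_mul_of_nonneg_right (hCm _) h0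
    linarith
  have hs := Finset.sum_le_sum fun (j : I) (_ : j ∈ Finset.univ) => hk j
  rw [Finset.sum_sub_distrib, Finset.sum_sub_distrib, ← Finset.mul_sum, ← Finset.mul_sum,
    ← Finset.sum_mul, ← Finset.mul_sum] at hs
  have hQ : loc_upper_Q y r x = ∑ j, ∑ k : Fin 3,
    (fderiv ℝ (cy y r) (x j) (EuclideanSpace.single k (1 : ℝ))) ^ 2 := rfl
  rw [← hQ] at hs
  rw [← Finset.mul_sum]
  linarith

theorem cy_le_ind (y : E3) {r : ℝ} (hr : 0 < r) (z : E3) :
    cy y r z ^ 2 ≤ if ‖z - y‖ ≤ 2 * r then 1 else 0 := by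
  split_ifs with h
  · exact loc_upper_cy_le y r z
  · push Not at h
    have h0 : cy y r z = 0 := by
      unfold cy
      apply loc_upper_ct_zero
      rw [norm_smul, Real.norm_of_nonneg (by positivity), ← div_eq_inv_mul, le_div_iff₀ hr]
      exact h.le
    rw [h0]
    norm_num

theorem g_le_nb {I : Type} [Fintype I] (y : E3) {r : ℝ} (hr : 0 < r) (x : I → E3) :
    loc_upper_g y r x ≤ nb y (2 * r) x :=
  Finset.sum_le_sum fun i _ => cy_le_ind y hr (x i)

/-- linear inequalities in `ε` -/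
theorem eps_zero {A B : ℝ} (h : ∀ ε : ℝ, 0 < ε → ε ≤ 1 → A + ε * B ≤ 0) : A ≤ 0 := by
  by_contra hA
  push Not at hA
  have hB : 0 < |B| + 1 := by positivity
  have h1 := h (min 1 (A / (2 * (|B| + 1)))) (lt_min one_pos (by positivity)) (min_le_left _ _)
  set e := min 1 (A / (2 * (|B| + 1)))
  have he : 0 < e := lt_min one_pos (by positivity)
  have h2 : e * (2 * (|B| + 1)) ≤ A := by
    have : e ≤ A / (2 * (|B| + 1)) := min_le_right _ _
    rwa [le_div_iff₀ (by positivity)] at this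
  have h3 : -(e * |B|) ≤ e * B := by
    have := neg_abs_le B
    nlinarith
  nlinarith

theorem wx_add {S : Type} (D : Species S) {I : Type} [Fintype I] [DecidableEq I] (sp : I → S)
    (ℓ : ℝ) {k : ℕ} (p : Fin k → ℝ) (ψ : Fin k → Wave D I) (hψ : ∀ j, IsState D sp ℓ (ψ j))
    {V W : (I → E3) → ℝ} (hV : WI D sp ℓ V) (hW : WI D sp ℓ W) :
    wx D p ψ (fun x => V x + W x) = wx D p ψ V + wx D p ψ W := by
  unfold wx
  rw [← Finset.sum_add_distrib]
  refine Finset.sum_congr rfl fun j _ => ?_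
  rw [wm_add D sp ℓ hV hW (ψ j) (hψ j)]
  ring

theorem wx_mono {S : Type} (D : Species S) {I : Type} [Fintype I] [DecidableEq I] (sp : I → S)
    (ℓ : ℝ) {k : ℕ} (p : Fin k → ℝ) (hp : ∀ j, 0 ≤ p j) (ψ : Fin k → Wave D I)
    (hψ : ∀ j, IsState D sp ℓ (ψ j))
    {V W : (I → E3) → ℝ} (hV : WI D sp ℓ V) (hW : WI D sp ℓ W) (h : ∀ x, V x ≤ W x) :
    wx D p ψ V ≤ wx D p ψ W := by
  unfold wx
  refine Finset.sum_le_sum fun j _ => mul_le_mul_of_nonneg_left ?_ (hp j)
  exact wm_mono D sp ℓ hV hW (ψ j) (hψ j) (Filter.Eventually.of_forall h)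

theorem wx_smul {S : Type} (D : Species S) {I : Type} [Fintype I] [DecidableEq I] {k : ℕ}
    (p : Fin k → ℝ) (ψ : Fin k → Wave D I) (c : ℝ) (W : (I → E3) → ℝ) :
    wx D p ψ (fun x => c * W x) = c * wx D p ψ W := by
  unfold wx
  rw [Finset.mul_sum]
  refine Finset.sum_congr rfl fun j _ => ?_
  rw [wm_smul]
  ring

/-- TARGET -/
theorem loc_upperT {S : Type} [Fintype S] [DecidableEq S] (D : Species S) (hD : D.Valid)
    (T : ℝ) (hT : 0 < T) :
    ∃ C : ℝ, 0 < C ∧ ∀ {I : Type} [Fintype I] [DecidableEq I] (sp : I → S) (ℓ η Z : ℝ), 0 ≤ η →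
      ∀ {k : ℕ} (p : Fin k → ℝ) (ψ : Fin k → Wave D I), NE D sp ℓ T η Z p ψ →
      ∀ (y : E3) (r : ℝ), 0 < r → r ≤ 1 →
        (∑ j, p j * kcy D sp y r (ψ j)) +
          wx D p ψ (fun x => (∑ i, cy y r (x i) ^ 2) * coul D sp x) +
          T * ∑ j, p j * (wm D (fun x => ∑ i, cy y r (x i) ^ 2) (ψ j) * Real.log (p j)) ≤
        -T * Real.log Z * wx D p ψ (fun x => ∑ i, cy y r (x i) ^ 2) +
          1 / 2 * (∑ j, p j * klc D sp y r (ψ j)) + C / r ^ 2 * wx D p ψ (nb y (2 * r)) +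
          C * (1 + (Fintype.card I : ℝ)) * η := by
  classical
  obtain ⟨C', hC', HN⟩ := near_minT D hD
  obtain ⟨K, hK0, hK⟩ := loc_upper_ct_bd
  obtain ⟨Cm, hCm0, hCm⟩ : ∃ Cm : ℝ, 0 ≤ Cm ∧ ∀ s, 1 / (2 * D.mass s) ≤ Cm := by
    refine ⟨∑ s, 1 / (2 * D.mass s), Finset.sum_nonneg fun s _ => ?_, fun s => ?_⟩
    · have := hD.mass_pos s
      positivity
    · exact Finset.single_le_sum (f := fun s => 1 / (2 * D.mass s))
        (fun s _ => by have := hD.mass_pos s; positivity) (Finset.mem_univ s)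
  refine ⟨C' + (C' + 2 * Cm) * (3 * K ^ 2) + T, by positivity, ?_⟩
  intro I _ _ sp ℓ η Z hη k p ψ hNE y r hr hr1
  have hst := hNE.state
  have hp := hNE.p0
  have hg : Continuous (loc_upper_g (I := I) y r) := (loc_upper_g_smooth y r).continuous
  have hgB : ∀ x : I → E3, |loc_upper_g y r x| ≤ Fintype.card I := fun x => by
    rw [abs_of_nonneg (loc_upper_g_nonneg y r x)]; exact loc_upper_g_le y r x
  have WQ : WI D sp ℓ (loc_upper_Q y r) := loc_upper_WI_cont D sp ℓ _ (loc_upper_Q_cont y r)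
  have Wg : WI D sp ℓ (loc_upper_g y r) := loc_upper_WI_cont D sp ℓ _ hg
  have Wnb : WI D sp ℓ (nb y (2 * r)) := loc_upper_WI_nb D sp ℓ y (2 * r)
  have hN0 : (0:ℝ) ≤ Fintype.card I := by positivity
  have h6 : wx D p ψ (loc_upper_Q y r) ≤ 3 * K ^ 2 / r ^ 2 * wx D p ψ (nb y (2 * r)) := by
    rw [← wx_smul]
    exact wx_mono D sp ℓ p hp ψ hst WQ (WI_smul D sp ℓ Wnb _)
      (fun x => loc_upper_Q_le hK0 hK y hr x)
  have h6g : wx D p ψ (loc_upper_g y r) ≤ wx D p ψ (nb y (2 * r)) :=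
    wx_mono D sp ℓ p hp ψ hst Wg Wnb (fun x => g_le_nb y hr x)
  have h7 : 0 ≤ wx D p ψ (nb y (2 * r)) := by
    unfold wx wm
    refine Finset.sum_nonneg fun j _ => mul_nonneg (hp j) ?_
    refine Finset.sum_nonneg fun τ _ => integral_nonneg fun x => ?_
    apply mul_nonneg _ (sq_nonneg _)
    unfold nb
    exact Finset.sum_nonneg fun i _ => by split_ifs <;> norm_num
  have e1 : ∀ j, kcy D sp y r (ψ j) =
      ∑ τ, ∫ x, ∑ i, loc_upper_g y r x * kin D sp i (ψ j τ) x := fun j => rfl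
  have e2 : wx D p ψ (fun x => (∑ i, cy y r (x i) ^ 2) * coul D sp x) =
      wx D p ψ (fun x => loc_upper_g y r x * coul D sp x) := rfl
  have e3 : wx D p ψ (fun x => ∑ i, cy y r (x i) ^ 2) = wx D p ψ (loc_upper_g y r) := rfl
  have e4 : ∀ j, wm D (fun x => ∑ i, cy y r (x i) ^ 2) (ψ j) = wm D (loc_upper_g y r) (ψ j) :=
    fun j => rfl
  rw [e2, e3]
  simp only [e4]
  -- the inequality for every `ε`
  have key : ∀ ε : ℝ, 0 < ε → ε ≤ 1 →
      ((∑ j, p j * kcy D sp y r (ψ j)) + wx D p ψ (fun x => loc_upper_g y r x * coul D sp x) +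
        T * ∑ j, p j * (wm D (loc_upper_g y r) (ψ j) * Real.log (p j)) -
        (-T * Real.log Z * wx D p ψ (loc_upper_g y r) +
          1 / 2 * (∑ j, p j * klc D sp y r (ψ j)) +
          (C' + 2 * Cm) * wx D p ψ (loc_upper_Q y r) + T * wx D p ψ (loc_upper_g y r) +
          C' * (1 + (Fintype.card I : ℝ)) * η)) +
      ε * ((∑ j, p j * energy D sp (ψ j)) + T * ∑ j, p j * Real.log (p j) +
        T * Real.log Z - T) ≤ 0 := by
    intro ε hε hε1
    have hfB : ∀ x : I → E3, |fe ε y r x| ≤ √(1 + Fintype.card I) := by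
      intro x
      have h0 : 0 ≤ fe ε y r x := Real.sqrt_nonneg _
      rw [abs_of_nonneg h0]
      exact Real.sqrt_le_sqrt (by linarith [loc_upper_g_le y r x])
    have h1 := HN sp ℓ T η Z hT hη p ψ hNE (fe ε y r) _ (fe_smooth hε y r) (fe_sy sp ε y r) hfB
    rw [Real.sq_sqrt (by positivity)] at h1
    have Wgr : WI D sp ℓ (gr (fe ε y r)) := loc_upper_WI_cont D sp ℓ _ (fe_gr_cont hε y r)
    have hw : ∀ j, wm D (fun x => ε + loc_upper_g y r x) (ψ j) =
        ε + wm D (loc_upper_g y r) (ψ j) := by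
      intro j
      have a1 := wm_add D sp ℓ (WI_const D sp ℓ ε) Wg (ψ j) (hst j)
      have a2 : wm D (fun _ => ε) (ψ j) = ε := by
        have a3 : wm D (fun _ => ε * 1) (ψ j) = ε * wm D (fun _ => 1) (ψ j) :=
          wm_smul D (fun _ => 1) ε (ψ j)
        rw [wm_one, hNE.nrm j, mul_one] at a3
        simpa using a3
      rw [a2] at a1
      exact a1
    have h4 : ∀ j, nrm2 D (mulW D (fe ε y r) (ψ j)) = ε + wm D (loc_upper_g y r) (ψ j) := by
      intro j
      have a1 : nrm2 D (mulW D (fe ε y r) (ψ j)) =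
          wm D (fun x => ε + loc_upper_g y r x) (ψ j) := by
        unfold nrm2 wm
        simp only [mulW_norm, fe_sq hε]
      rw [a1, hw]
    have h5 : wx D p ψ (fun x => fe ε y r x ^ 2) = ε + wx D p ψ (loc_upper_g y r) := by
      have a1 : wx D p ψ (fun x => fe ε y r x ^ 2) =
          wx D p ψ (fun x => ε + loc_upper_g y r x) := by
        simp only [fe_sq hε]
      rw [a1]
      unfold wx
      simp only [hw]
      simp only [mul_add, Finset.sum_add_distrib, ← Finset.sum_mul, hNE.p1, one_mul]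
    rw [h5] at h1
    simp only [h4] at h1
    have h8 : wx D p ψ (gr (fe ε y r)) ≤ wx D p ψ (loc_upper_Q y r) :=
      wx_mono D sp ℓ p hp ψ hst Wgr WQ (fun x => fe_gr_le hε y r x)
    have h8' := mul_le_mul_of_nonneg_left h8 hC'.le
    have h2 : ε * (∑ j, p j * energy D sp (ψ j)) + (∑ j, p j * kcy D sp y r (ψ j)) +
        wx D p ψ (fun x => loc_upper_g y r x * coul D sp x) -
        1 / 2 * (∑ j, p j * klc D sp y r (ψ j)) - 2 * Cm * wx D p ψ (loc_upper_Q y r) ≤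
        ∑ j, p j * energy D sp (mulW D (fe ε y r) (ψ j)) := by
      unfold wx
      rw [Finset.mul_sum, Finset.mul_sum, Finset.mul_sum, ← Finset.sum_add_distrib,
        ← Finset.sum_add_distrib, ← Finset.sum_sub_distrib, ← Finset.sum_sub_distrib]
      refine Finset.sum_le_sum fun j _ => ?_
      have a1 := mul_le_mul_of_nonneg_left (fe_lower D hD hCm sp ℓ (ψ j) (hst j) hε y r) (hp j)
      rw [← e1 j] at a1
      refine le_trans (le_of_eq ?_) a1
      ring
    have h3 : ∑ j, p j * ((ε + wm D (loc_upper_g y r) (ψ j)) * Real.log (p j)) =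
        ε * (∑ j, p j * Real.log (p j)) +
        ∑ j, p j * (wm D (loc_upper_g y r) (ψ j) * Real.log (p j)) := by
      rw [Finset.mul_sum, ← Finset.sum_add_distrib]
      refine Finset.sum_congr rfl fun j _ => ?_
      ring
    rw [h3] at h1
    nlinarith [h1, h2, h8']
  have h0 := eps_zero key
  have h9 : (C' + 2 * Cm) * wx D p ψ (loc_upper_Q y r) ≤
      ((C' + 2 * Cm) * (3 * K ^ 2)) / r ^ 2 * wx D p ψ (nb y (2 * r)) := by
    have a2 := mul_le_mul_of_nonneg_left h6 (show 0 ≤ C' + 2 * Cm by positivity)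
    refine a2.trans (le_of_eq ?_)
    ring
  have h10 : T * wx D p ψ (loc_upper_g y r) ≤ T / r ^ 2 * wx D p ψ (nb y (2 * r)) := by
    have a1 : T ≤ T / r ^ 2 := by
      rw [le_div_iff₀ (by positivity)]
      have : r ^ 2 ≤ 1 := by nlinarith
      nlinarith
    have a2 := mul_le_mul_of_nonneg_left h6g hT.le
    exact a2.trans (mul_le_mul_of_nonneg_right a1 h7)
  have h11 : C' * (1 + (Fintype.card I : ℝ)) * η ≤
      (C' + (C' + 2 * Cm) * (3 * K ^ 2) + T) * (1 + (Fintype.card I : ℝ)) * η := by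
    apply mul_le_mul_of_nonneg_right _ hη
    apply mul_le_mul_of_nonneg_right _ (by positivity)
    have : 0 ≤ (C' + 2 * Cm) * (3 * K ^ 2) := by positivity
    linarith
  have h12 : ((C' + 2 * Cm) * (3 * K ^ 2)) / r ^ 2 * wx D p ψ (nb y (2 * r)) +
      T / r ^ 2 * wx D p ψ (nb y (2 * r)) ≤
      (C' + (C' + 2 * Cm) * (3 * K ^ 2) + T) / r ^ 2 * wx D p ψ (nb y (2 * r)) := by
    rw [← add_mul, ← add_div]
    apply mul_le_mul_of_nonneg_right _ h7
    apply div_le_div_of_nonneg_right _ (by positivity)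
    linarith
  linarith
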