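import Pool.Agent.Helper780_CP.LLDefs2
import Pool.Agent.Helper780_CP.LPDefs
import Pool.Agent.Helper780_CP.RL2c
import Pool.Agent.Helper780_CP.Multi
import Pool.Agent.Helper985.CP.M_stable_any
import Pool.Agent.Helper985.CT.M_state_comb
import Pool.Agent.Helper780_CP.RH6
import Pool.Agent.Helper780_CP.RH5

set_option autoImplicit false

open MeasureTheory
open scoped Topology

namespace Pool.Agent.Helper780_CP.RH7

open Pool.Agent.Helper780_CP
open Pool.Agent.Helper985.CP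
open Pool.Agent.Helper780_CP.RH6 (loc_upperT)
open Pool.Agent.Helper780_CP.RH5 (removalT)

open Pool.Agent.Helper780_CP Pool.Agent.Helper985.CP

open Pool.Agent.Helper780_CP.RL2b Pool.Agent.Helper780_CP.RL2c

theorem loc_energyT_sT0 {u : ℝ} (h : u < 0 ∨ 1 < u) : deriv Real.smoothTransition u = 0 := by
  rcases h with h | h
  · have : Real.smoothTransition =ᶠ[nhds u] fun _ => 0 := by
      filter_upwards [Iio_mem_nhds h] with v hv
      exact Real.smoothTransition.zero_of_nonpos (le_of_lt hv)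
    rw [this.deriv_eq]; simp
  · have : Real.smoothTransition =ᶠ[nhds u] fun _ => 1 := by
      filter_upwards [Ioi_mem_nhds h] with v hv
      exact Real.smoothTransition.one_of_one_le (le_of_lt hv)
    rw [this.deriv_eq]; simp

theorem loc_energyT_sT1 : ∃ B : ℝ, 0 ≤ B ∧ ∀ u : ℝ, |deriv Real.smoothTransition u| ≤ B := by
  have h1 : Continuous (deriv Real.smoothTransition) :=
    (Real.smoothTransition.contDiff (n := 1)).continuous_deriv le_rfl
  have h3 : HasCompactSupport (deriv Real.smoothTransition) := by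
    apply HasCompactSupport.intro (isCompact_Icc (a := (0 : ℝ)) (b := 1))
    intro u hu
    apply loc_energyT_sT0
    by_contra hc
    push Not at hc
    exact hu ⟨hc.1, hc.2⟩
  obtain ⟨B, hB⟩ := h3.exists_bound_of_continuous h1
  exact ⟨B, (norm_nonneg _).trans (hB 0), fun u => hB u⟩

/-- the angles of the level partition -/
noncomputable def loc_energyT_th {I : Type} [Fintype I] (y : E3) (r : ℝ) (k : ℕ) (x : I → E3) : ℝ :=
  Real.pi / 2 * Real.smoothTransition (loc_upper_g y r x / 2 ^ k - 1)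

theorem loc_energyT_gd {I : Type} [Fintype I] [DecidableEq I] (y : E3) (r : ℝ) (x : I → E3)
    (j : I) (e : E3) :
    fderiv ℝ (loc_upper_g y r) x (Pi.single j e) =
      2 * (cy y r (x j) * fderiv ℝ (cy y r) (x j) e) := by
  have hc : ∀ i : I, HasFDerivAt (fun x : I → E3 => cy y r (x i) ^ 2)
      ((2 * cy y r (x i) ^ (2 - 1)) • ((fderiv ℝ (cy y r) (x i)).comp
        (ContinuousLinearMap.proj (R := ℝ) (φ := fun _ : I => E3) i))) x := by
    intro i
    have a1 : HasFDerivAt (cy y r) (fderiv ℝ (cy y r) (x i)) (x i) :=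
      (((loc_upper_cy_smooth y r).differentiable (by simp)) (x i)).hasFDerivAt
    have a2 : HasFDerivAt (fun x : I → E3 => x i)
        (ContinuousLinearMap.proj (R := ℝ) (φ := fun _ : I => E3) i) x :=
      hasFDerivAt_apply i x
    have a3 := (a1.comp x a2).pow 2
    simpa using a3
  have h2 : HasFDerivAt (loc_upper_g y r)
      (∑ i, (2 * cy y r (x i) ^ (2 - 1)) • ((fderiv ℝ (cy y r) (x i)).comp
        (ContinuousLinearMap.proj (R := ℝ) (φ := fun _ : I => E3) i))) x :=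
    HasFDerivAt.fun_sum (u := Finset.univ) fun i _ => hc i
  rw [h2.fderiv]
  simp only [_root_.smul_apply, smul_eq_mul, ContinuousLinearMap.sum_apply,
    ContinuousLinearMap.comp_apply, ContinuousLinearMap.proj_apply]
  rw [Finset.sum_eq_single j]
  · rw [Pi.single_eq_same]
    norm_num
    ring
  · intro i _ hi
    rw [Pi.single_eq_of_ne hi, map_zero, mul_zero]
  · intro h
    exact absurd (Finset.mem_univ j) h

theorem loc_energyT_th_smooth {I : Type} [Fintype I] (y : E3) (r : ℝ) (k : ℕ) :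
    ContDiff ℝ SM (loc_energyT_th (I := I) y r k) := by
  unfold loc_energyT_th
  exact contDiff_const.mul (Real.smoothTransition.contDiff.comp
    (((loc_upper_g_smooth y r).div_const _).sub contDiff_const))

theorem loc_energyT_g_symm {I : Type} [Fintype I] [DecidableEq I] (y : E3) (r : ℝ) (i j : I)
    (x : I → E3) : loc_upper_g y r (fun l => x (Equiv.swap i j l)) = loc_upper_g y r x :=
  Equiv.sum_comp (Equiv.swap i j) fun k => cy y r (x k) ^ 2

theorem loc_energyT_th_symm {I : Type} [Fintype I] [DecidableEq I] (y : E3) (r : ℝ) (k : ℕ)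
    (i j : I) (x : I → E3) :
    loc_energyT_th y r k (fun l => x (Equiv.swap i j l)) = loc_energyT_th y r k x := by
  unfold loc_energyT_th
  rw [loc_energyT_g_symm]

theorem loc_energyT_th_fderiv {I : Type} [Fintype I] [DecidableEq I] (y : E3) (r : ℝ) (k : ℕ)
    (x : I → E3) (j : I) (e : E3) :
    fderiv ℝ (loc_energyT_th y r k) x (Pi.single j e) =
      Real.pi / 2 * (deriv Real.smoothTransition (loc_upper_g y r x / 2 ^ k - 1) *
        (2 * (cy y r (x j) * fderiv ℝ (cy y r) (x j) e) / 2 ^ k)) := by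
  have h1 : HasFDerivAt (loc_upper_g (I := I) y r) (fderiv ℝ (loc_upper_g y r) x) x :=
    (((loc_upper_g_smooth y r).differentiable (by simp)) x).hasFDerivAt
  have h2 : HasFDerivAt (fun x : I → E3 => loc_upper_g y r x / 2 ^ k - 1)
      (((2 : ℝ) ^ k)⁻¹ • fderiv ℝ (loc_upper_g y r) x) x := by
    have := (h1.mul_const (((2 : ℝ) ^ k)⁻¹)).sub_const 1
    simpa only [div_eq_mul_inv] using this
  have h3 : HasDerivAt Real.smoothTransition
      (deriv Real.smoothTransition (loc_upper_g y r x / 2 ^ k - 1))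
      (loc_upper_g y r x / 2 ^ k - 1) :=
    (((Real.smoothTransition.contDiff (n := 1)).differentiable (by simp)) _).hasDerivAt
  have h4 := (h3.comp_hasFDerivAt x h2).const_mul (Real.pi / 2)
  have h5 : fderiv ℝ (loc_energyT_th y r k) x = _ := h4.fderiv
  rw [h5]
  simp only [_root_.smul_apply, smul_eq_mul]
  rw [loc_energyT_gd]
  ring

theorem loc_energyT_th_sq {B K : ℝ} (hB0 : 0 ≤ B) (hB : ∀ u : ℝ, |deriv Real.smoothTransition u| ≤ B)
    (hK0 : 0 ≤ K) (hK : ∀ w, ‖fderiv ℝ ct w‖ ≤ K) {I : Type} [Fintype I] [DecidableEq I] (y : E3)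
    {r : ℝ} (hr : 0 < r) (k : ℕ) (x : I → E3) (j : I) :
    ∑ l : Fin 3, (fderiv ℝ (loc_energyT_th y r k) x
        (Pi.single j (EuclideanSpace.single l (1 : ℝ)))) ^ 2 ≤
      (3 * (Real.pi * B * K) ^ 2 / r ^ 2) * ((if (2 : ℝ) ^ k ≤ loc_upper_g y r x ∧
        loc_upper_g y r x ≤ 2 ^ (k + 1) then 1 else 0) * (cy y r (x j) ^ 2 / 4 ^ k)) := by
  have h4 : (4 : ℝ) ^ k = (2 ^ k) ^ 2 := by
    rw [← pow_mul, mul_comm, pow_mul]; norm_num
  have h2k : (0 : ℝ) < 2 ^ k := by positivity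
  split_ifs with h
  · have hl : ∀ l : Fin 3, (fderiv ℝ (loc_energyT_th y r k) x
        (Pi.single j (EuclideanSpace.single l (1 : ℝ)))) ^ 2 ≤
        ((Real.pi * B * K) ^ 2 / r ^ 2) * (cy y r (x j) ^ 2 / 4 ^ k) := by
      intro l
      rw [loc_energyT_th_fderiv, loc_upper_cy_fderiv]
      have h1 : |fderiv ℝ ct (r⁻¹ • (x j - y)) (EuclideanSpace.single l (1 : ℝ))| ≤ K := by
        have h1 := (fderiv ℝ ct (r⁻¹ • (x j - y))).le_opNorm (EuclideanSpace.single l (1 : ℝ))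
        rw [EuclideanSpace.norm_single, norm_one, mul_one, Real.norm_eq_abs] at h1
        exact h1.trans (hK _)
      have h2 := hB (loc_upper_g y r x / 2 ^ k - 1)
      have h3 : (fderiv ℝ ct (r⁻¹ • (x j - y)) (EuclideanSpace.single l (1 : ℝ))) ^ 2 ≤ K ^ 2 := by
        rw [← sq_abs]; exact pow_le_pow_left₀ (abs_nonneg _) h1 2
      have h5 : (deriv Real.smoothTransition (loc_upper_g y r x / 2 ^ k - 1)) ^ 2 ≤ B ^ 2 := by
        rw [← sq_abs]; exact pow_le_pow_left₀ (abs_nonneg _) h2 2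
      have e : (Real.pi / 2 * (deriv Real.smoothTransition (loc_upper_g y r x / 2 ^ k - 1) *
        (2 * (cy y r (x j) * (r⁻¹ * fderiv ℝ ct (r⁻¹ • (x j - y))
          (EuclideanSpace.single l (1 : ℝ)))) / 2 ^ k))) ^ 2 =
          (Real.pi ^ 2 / r ^ 2 * (cy y r (x j) ^ 2 / 4 ^ k)) *
          ((deriv Real.smoothTransition (loc_upper_g y r x / 2 ^ k - 1)) ^ 2 *
          (fderiv ℝ ct (r⁻¹ • (x j - y)) (EuclideanSpace.single l (1 : ℝ))) ^ 2) := by
        rw [h4]
        field_simp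
      rw [e]
      calc _ ≤ (Real.pi ^ 2 / r ^ 2 * (cy y r (x j) ^ 2 / 4 ^ k)) * (B ^ 2 * K ^ 2) :=
            mul_le_mul_of_nonneg_left (mul_le_mul h5 h3 (sq_nonneg _) (sq_nonneg _)) (by positivity)
        _ = _ := by ring
    calc _ ≤ ∑ _l : Fin 3, ((Real.pi * B * K) ^ 2 / r ^ 2) * (cy y r (x j) ^ 2 / 4 ^ k) :=
          Finset.sum_le_sum fun l _ => hl l
      _ = _ := by
        rw [Finset.sum_const, Finset.card_univ, Fintype.card_fin]
        ring
  · rw [zero_mul, mul_zero]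
    apply le_of_eq
    apply Finset.sum_eq_zero
    intro l _
    rw [loc_energyT_th_fderiv, loc_energyT_sT0]
    · ring
    · rw [not_and_or, not_le, not_le] at h
      rcases h with h | h
      · left
        rw [sub_neg, div_lt_one h2k]
        exact h
      · right
        rw [lt_sub_iff_add_lt, lt_div_iff₀ h2k]
        rw [pow_succ] at h
        linarith

theorem loc_energyT_hi {I : Type} [Fintype I] (y : E3) (r : ℝ) (k : ℕ) (x : I → E3)
    (h : gS (loc_energyT_th y r) k x ≠ 0) : loc_upper_g y r x < 2 ^ (k + 1) := by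
  by_contra hc
  rw [not_lt] at hc
  apply h
  have h2k : (0 : ℝ) < 2 ^ k := by positivity
  unfold gS
  have : loc_energyT_th y r k x = Real.pi / 2 := by
    unfold loc_energyT_th
    rw [Real.smoothTransition.one_of_one_le, mul_one]
    rw [le_sub_iff_add_le, le_div_iff₀ h2k]
    rw [pow_succ] at hc
    linarith
  rw [this, Real.cos_pi_div_two, zero_mul]

theorem loc_energyT_th_zero {I : Type} [Fintype I] (y : E3) (r : ℝ) (k : ℕ) (x : I → E3)
    (h : loc_upper_g y r x ≤ 2 ^ k) : loc_energyT_th y r k x = 0 := by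
  unfold loc_energyT_th
  rw [Real.smoothTransition.zero_of_nonpos, mul_zero]
  rw [sub_nonpos, div_le_one (by positivity)]
  exact h

theorem loc_energyT_hS_zero {I : Type} [Fintype I] (y : E3) (r : ℝ) (k : ℕ) (x : I → E3)
    (h : loc_upper_g y r x ≤ 2 ^ k) : hS (loc_energyT_th y r) (k + 1) x = 0 := by
  rw [hS_succ, loc_energyT_th_zero y r k x h, Real.sin_zero, zero_mul]

theorem loc_energyT_lo {I : Type} [Fintype I] (y : E3) (r : ℝ) (k : ℕ) (x : I → E3)
    (h : gS (loc_energyT_th y r) (k + 1) x ≠ 0) : 2 ^ k < loc_upper_g y r x := by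
  by_contra hc
  rw [not_lt] at hc
  apply h
  unfold gS
  rw [loc_energyT_hS_zero y r k x hc, mul_zero]

/-- the entropy of the levels -/
theorem loc_energyT_ent {I : Type} [Fintype I] (y : E3) {r : ℝ} (k : ℕ) (x : I → E3)
    (hnb : loc_upper_g y r x ≤ nb y (2 * r) x) :
    gS (loc_energyT_th y r) k x ^ 2 * (loc_upper_g y r x *
      Real.log (1 * 2 ^ (k + 1) / ((4 : ℝ) ^ k)⁻¹)) ≤
    gS (loc_energyT_th y r) k x ^ 2 * (13 * nb y (2 * r) x ^ ((4 : ℝ) / 3)) := by
  by_cases h : gS (loc_energyT_th y r) k x = 0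
  · rw [h]; simp
  refine mul_le_mul_of_nonneg_left ?_ (sq_nonneg _)
  have hg0 := loc_upper_g_nonneg y r x
  have hnb01 : nb y (2 * r) x = 0 ∨ 1 ≤ nb y (2 * r) x := by
    have e : nb y (2 * r) x =
        (((Finset.univ.filter fun i => ‖x i - y‖ ≤ 2 * r).card : ℕ) : ℝ) := by
      unfold nb
      rw [Finset.sum_boole]
    rw [e]
    rcases Nat.eq_zero_or_pos (Finset.univ.filter fun i => ‖x i - y‖ ≤ 2 * r).card with h0 | h0
    · left; rw [h0]; simp
    · right; exact_mod_cast h0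
  rcases hnb01 with h0 | h1
  · have : loc_upper_g y r x = 0 := le_antisymm (by rw [h0] at hnb; exact hnb) hg0
    rw [this, h0, zero_mul, Real.zero_rpow (by norm_num)]
    simp
  · have hlog2 : Real.log 2 ≤ 1 := by
      have := Real.log_two_lt_d9; linarith
    have hlog20 : 0 ≤ Real.log 2 := Real.log_nonneg (by norm_num)
    have hlognb : Real.log (nb y (2 * r) x) ≤ 3 * nb y (2 * r) x ^ ((1 : ℝ) / 3) := by
      have := Real.log_le_rpow_div (x := nb y (2 * r) x) (by linarith) (ε := 1 / 3) (by norm_num)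
      linarith
    have hp1 : 1 ≤ nb y (2 * r) x ^ ((1 : ℝ) / 3) := Real.one_le_rpow h1 (by norm_num)
    have e1 : Real.log (1 * 2 ^ (k + 1) / ((4 : ℝ) ^ k)⁻¹) = (3 * k + 1) * Real.log 2 := by
      have h4 : (4 : ℝ) ^ k = 2 ^ (2 * k) := by rw [pow_mul]; norm_num
      rw [one_mul, div_inv_eq_mul, h4, ← pow_add, Real.log_pow]
      push_cast
      ring
    have e2 : (3 * (k : ℝ) + 1) * Real.log 2 ≤ 13 * nb y (2 * r) x ^ ((1 : ℝ) / 3) := by
      cases k with
      | zero => push_cast; nlinarith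
      | succ k =>
        have h2 := loc_energyT_lo y r k x h
        have h3 : (k : ℝ) * Real.log 2 ≤ Real.log (nb y (2 * r) x) := by
          rw [← Real.log_pow]
          exact Real.log_le_log (by positivity) (h2.le.trans hnb)
        push_cast
        nlinarith
    have hexp : nb y (2 * r) x ^ ((4 : ℝ) / 3) = nb y (2 * r) x * nb y (2 * r) x ^ ((1 : ℝ) / 3) := by
      rw [show (4 : ℝ) / 3 = 1 + 1 / 3 by norm_num, Real.rpow_add (by linarith), Real.rpow_one]
    rw [e1, hexp]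
    calc loc_upper_g y r x * ((3 * k + 1) * Real.log 2)
        ≤ nb y (2 * r) x * (13 * nb y (2 * r) x ^ ((1 : ℝ) / 3)) := by
          apply mul_le_mul hnb e2 (by positivity) (by linarith)
      _ = _ := by ring

/-- one step of the localisation formula, pointwise -/
theorem loc_energyT_kin1 {S : Type} (D : Species S) {I : Type} [Fintype I] [DecidableEq I]
    (sp : I → S) (Ψ : Wave D I) (τ : I → Fin D.g) (hΨ : ContDiff ℝ SM (Ψ τ)) (θ : (I → E3) → ℝ)
    (hθ : ContDiff ℝ SM θ) (i : I) (x : I → E3) :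
    kin D sp i (mulW D (fun x => Real.cos (θ x)) Ψ τ) x +
      kin D sp i (mulW D (fun x => Real.sin (θ x)) Ψ τ) x =
      kin D sp i (Ψ τ) x + ((1 / (2 * D.mass (sp i))) * ∑ k : Fin 3,
        (fderiv ℝ θ x (Pi.single i (EuclideanSpace.single k (1 : ℝ)))) ^ 2) * ‖Ψ τ x‖ ^ 2 := by
  have hdθ : ∀ x, HasFDerivAt θ (fderiv ℝ θ x) x := fun x =>
    ((hθ.differentiable (by simp)) x).hasFDerivAt
  have hdΨ : ∀ x, DifferentiableAt ℝ (Ψ τ) x := fun x =>
    (hΨ.differentiable (by simp)) x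
  unfold kin
  rw [← mul_add, mul_assoc, ← mul_add, ← Finset.sum_add_distrib, Finset.sum_mul,
    ← Finset.sum_add_distrib]
  congr 1
  refine Finset.sum_congr rfl fun k _ => ?_
  have e1 : mulW D (fun x => Real.cos (θ x)) Ψ τ =
    fun x => ((Real.cos (θ x) : ℝ) : ℂ) * Ψ τ x := rfl
  have e2 : mulW D (fun x => Real.sin (θ x)) Ψ τ =
    fun x => ((Real.sin (θ x) : ℝ) : ℂ) * Ψ τ x := rfl
  rw [e1, e2, ims_deriv (fun x => Real.cos (θ x)) (Ψ τ) x _ _ (hdθ x).cos (hdΨ x),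
    ims_deriv (fun x => Real.sin (θ x)) (Ψ τ) x _ _ (hdθ x).sin (hdΨ x)]
  simp only [_root_.smul_apply, smul_eq_mul]
  exact ims_alg _ _ _ _

theorem loc_energyT_kinN {S : Type} (D : Species S) {I : Type} [Fintype I] [DecidableEq I]
    (sp : I → S) (ℓ : ℝ) (Ψ : Wave D I) (hΨ : IsState D sp ℓ Ψ) (τ : I → Fin D.g)
    (θ : ℕ → (I → E3) → ℝ) (hθ : ∀ k, ContDiff ℝ SM (θ k))
    (hs : ∀ k i j x, θ k (fun l => x (Equiv.swap i j l)) = θ k x) (i : I) (x : I → E3) (N : ℕ) :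
    ∑ k ∈ Finset.range N, kin D sp i (mulW D (gS θ k) Ψ τ) x +
      kin D sp i (mulW D (hS θ N) Ψ τ) x =
      kin D sp i (Ψ τ) x + (∑ k ∈ Finset.range N, (1 / (2 * D.mass (sp i))) * ((∑ l : Fin 3,
        (fderiv ℝ (θ k) x (Pi.single i (EuclideanSpace.single l (1 : ℝ)))) ^ 2) *
          hS θ k x ^ 2)) * ‖Ψ τ x‖ ^ 2 := by
  induction N with
  | zero =>
    have : mulW D (hS θ 0) Ψ = Ψ := by
      funext τ x
      simp [mulW, hS]
    rw [this]
    simp
  | succ K ih =>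
    rw [Finset.sum_range_succ, Finset.sum_range_succ]
    have h1 := loc_energyT_kin1 D sp (mulW D (hS θ K) Ψ) τ
      ((mulW_state D sp ℓ Ψ hΨ _ (hS_smooth θ hθ K) (hS_symm θ hs K)).smooth τ) (θ K) (hθ K) i x
    have e1 : mulW D (fun x => Real.cos (θ K x)) (mulW D (hS θ K) Ψ) = mulW D (gS θ K) Ψ := by
      rw [mulW_mulW]
      rfl
    have e2 : mulW D (fun x => Real.sin (θ K x)) (mulW D (hS θ K) Ψ) =
        mulW D (hS θ (K + 1)) Ψ := by
      rw [mulW_mulW]
      congr 1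
      funext x
      rw [hS_succ]
    rw [e1, e2, mulW_norm] at h1
    linear_combination ih + h1

/-- the error terms -/
noncomputable def loc_energyT_E {S : Type} (D : Species S) {I : Type} [Fintype I] [DecidableEq I]
    (sp : I → S) (y : E3) (r : ℝ) (N : ℕ) (x : I → E3) (i : I) : ℝ :=
  ∑ k ∈ Finset.range N, (1 / (2 * D.mass (sp i))) * ((∑ l : Fin 3,
    (fderiv ℝ (loc_energyT_th y r k) x (Pi.single i (EuclideanSpace.single l (1 : ℝ)))) ^ 2) *
      hS (loc_energyT_th y r) k x ^ 2)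

theorem loc_energyT_geo (N : ℕ) : ∑ k ∈ Finset.range N, (2 : ℝ) * ((2 : ℝ) ^ k)⁻¹ ≤ 4 := by
  have h : ∀ N : ℕ, ∑ k ∈ Finset.range N, (2 : ℝ) * ((2 : ℝ) ^ k)⁻¹ = 4 - 4 * ((2 : ℝ) ^ N)⁻¹ := by
    intro N
    induction N with
    | zero => simp
    | succ N ih =>
      rw [Finset.sum_range_succ, ih, pow_succ]
      have : (0 : ℝ) < 2 ^ N := by positivity
      field_simp
      ring
  rw [h]
  have : (0 : ℝ) < ((2 : ℝ) ^ N)⁻¹ := by positivity
  linarith

theorem loc_energyT_geo4 (N : ℕ) : ∑ k ∈ Finset.range N, ((4 : ℝ) ^ k)⁻¹ ≤ 2 := by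
  have h : ∀ N : ℕ, ∑ k ∈ Finset.range N, ((4 : ℝ) ^ k)⁻¹ = 4 / 3 - 4 / 3 * ((4 : ℝ) ^ N)⁻¹ := by
    intro N
    induction N with
    | zero => simp
    | succ N ih =>
      rw [Finset.sum_range_succ, ih, pow_succ]
      have : (0 : ℝ) < 4 ^ N := by positivity
      field_simp
      ring
  rw [h]
  have : (0 : ℝ) < ((4 : ℝ) ^ N)⁻¹ := by positivity
  linarith

/-- bounds of the error terms, for weights `a` with `0 ≤ a ≤ 1 + g` -/
theorem loc_energyT_Ebd {S : Type} [Fintype S] (D : Species S) (hD : D.Valid) :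
    ∃ C : ℝ, 0 < C ∧ ∀ {I : Type} [Fintype I] [DecidableEq I] (sp : I → S) (y : E3) (r : ℝ), 0 < r →
      ∀ (N : ℕ) (x : I → E3) (a : I → ℝ), (∀ i, a i ≤ 1 + loc_upper_g y r x) →
        (∑ i, a i * loc_energyT_E D sp y r N x i) ≤ C / r ^ 2 * loc_upper_g y r x := by
  obtain ⟨B, hB0, hB⟩ := loc_energyT_sT1
  obtain ⟨K, hK0, hK⟩ := loc_upper_ct_bd
  obtain ⟨M, hM⟩ : ∃ M, M = ∑ s, 1 / (2 * D.mass s) := ⟨_, rfl⟩
  have hMs : ∀ s, 1 / (2 * D.mass s) ≤ M := by
    intro s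
    rw [hM]
    exact Finset.single_le_sum (f := fun s => 1 / (2 * D.mass s))
      (fun s _ => by have := hD.mass_pos s; positivity) (Finset.mem_univ s)
  have hms : ∀ s, 0 ≤ 1 / (2 * D.mass s) := fun s => by have := hD.mass_pos s; positivity
  have hM0 : 0 ≤ M := by
    rw [hM]; exact Finset.sum_nonneg fun s _ => hms s
  obtain ⟨c, hc⟩ : ∃ c, c = 3 * (Real.pi * B * K) ^ 2 := ⟨_, rfl⟩
  have hc0 : 0 ≤ c := by rw [hc]; positivity
  refine ⟨6 * M * c + 1, by positivity, ?_⟩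
  intro I _ _ sp y r hr N x a ha
  obtain ⟨g, hg⟩ : ∃ g, g = loc_upper_g y r x := ⟨_, rfl⟩
  have hg0 : 0 ≤ g := by rw [hg]; exact loc_upper_g_nonneg y r x
  rw [← hg]
  have hEi : ∀ i, loc_energyT_E D sp y r N x i ≤ (M * (c / r ^ 2)) * ∑ k ∈ Finset.range N,
      ((if (2 : ℝ) ^ k ≤ g ∧ g ≤ 2 ^ (k + 1) then 1 else 0) * (cy y r (x i) ^ 2 / 4 ^ k)) := by
    intro i
    unfold loc_energyT_E
    rw [Finset.mul_sum]
    refine Finset.sum_le_sum fun k _ => ?_
    have h1 := loc_energyT_th_sq hB0 hB hK0 hK y hr k x i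
    rw [← hg, ← hc] at h1
    have h2 : hS (loc_energyT_th y r) k x ^ 2 ≤ 1 := hS_sq_le _ k x
    have h3 : 0 ≤ ∑ l : Fin 3, (fderiv ℝ (loc_energyT_th y r k) x
        (Pi.single i (EuclideanSpace.single l (1 : ℝ)))) ^ 2 :=
      Finset.sum_nonneg fun l _ => sq_nonneg _
    calc _ ≤ M * ((∑ l : Fin 3, (fderiv ℝ (loc_energyT_th y r k) x
        (Pi.single i (EuclideanSpace.single l (1 : ℝ)))) ^ 2) * 1) :=
          mul_le_mul (hMs _) (mul_le_mul_of_nonneg_left h2 h3)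
            (mul_nonneg h3 (sq_nonneg _)) hM0
      _ ≤ M * (c / r ^ 2 * ((if (2 : ℝ) ^ k ≤ g ∧ g ≤ 2 ^ (k + 1) then 1 else 0) *
            (cy y r (x i) ^ 2 / 4 ^ k))) := by
          rw [mul_one]
          exact mul_le_mul_of_nonneg_left h1 hM0
      _ = _ := by ring
  have hE0 : ∀ i, 0 ≤ loc_energyT_E D sp y r N x i := by
    intro i
    unfold loc_energyT_E
    exact Finset.sum_nonneg fun k _ => mul_nonneg (hms _)
      (mul_nonneg (Finset.sum_nonneg fun l _ => sq_nonneg _) (sq_nonneg _))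
  have hgs : g = ∑ i, cy y r (x i) ^ 2 := hg
  have h1 : ∑ i, a i * loc_energyT_E D sp y r N x i ≤ ∑ i, (1 + g) * ((M * (c / r ^ 2)) *
      ∑ k ∈ Finset.range N, ((if (2 : ℝ) ^ k ≤ g ∧ g ≤ 2 ^ (k + 1) then 1 else 0) *
        (cy y r (x i) ^ 2 / 4 ^ k))) := by
    refine Finset.sum_le_sum fun i _ => ?_
    calc a i * loc_energyT_E D sp y r N x i ≤ (1 + g) * loc_energyT_E D sp y r N x i :=
          mul_le_mul_of_nonneg_right (by rw [hg]; exact ha i) (hE0 i)
      _ ≤ _ := mul_le_mul_of_nonneg_left (hEi i) (by linarith)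
  have h2 : ∑ i, (1 + g) * ((M * (c / r ^ 2)) *
      ∑ k ∈ Finset.range N, ((if (2 : ℝ) ^ k ≤ g ∧ g ≤ 2 ^ (k + 1) then 1 else 0) *
        (cy y r (x i) ^ 2 / 4 ^ k))) = (M * (c / r ^ 2)) * ∑ k ∈ Finset.range N,
      ((if (2 : ℝ) ^ k ≤ g ∧ g ≤ 2 ^ (k + 1) then 1 else 0) * ((1 + g) * g / 4 ^ k)) := by
    have : ∀ k, ((if (2 : ℝ) ^ k ≤ g ∧ g ≤ 2 ^ (k + 1) then (1 : ℝ) else 0) * ((1 + g) * g / 4 ^ k)) =
        ∑ i, ((if (2 : ℝ) ^ k ≤ g ∧ g ≤ 2 ^ (k + 1) then (1 : ℝ) else 0) *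
          ((1 + g) * cy y r (x i) ^ 2 / 4 ^ k)) := by
      intro k
      rw [← Finset.mul_sum, ← Finset.sum_div, ← Finset.mul_sum, ← hgs]
    simp only [this, Finset.mul_sum]
    rw [Finset.sum_comm]
    refine Finset.sum_congr rfl fun k _ => Finset.sum_congr rfl fun i _ => ?_
    ring
  have h3 : ∑ k ∈ Finset.range N,
      ((if (2 : ℝ) ^ k ≤ g ∧ g ≤ 2 ^ (k + 1) then 1 else 0) * ((1 + g) * g / 4 ^ k)) ≤
      6 * g := by
    calc _ ≤ ∑ k ∈ Finset.range N, (g * ((4 : ℝ) ^ k)⁻¹ + g * (2 * ((2 : ℝ) ^ k)⁻¹)) := by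
          refine Finset.sum_le_sum fun k _ => ?_
          have h4 : (4 : ℝ) ^ k = (2 ^ k) ^ 2 := by
            rw [← pow_mul, mul_comm, pow_mul]; norm_num
          have h2k : (0 : ℝ) < 2 ^ k := by positivity
          split_ifs with h
          · rw [one_mul]
            have h5 : g ≤ 2 * 2 ^ k := by
              have := h.2
              rw [pow_succ] at this
              linarith
            have h6 : g * g / 4 ^ k ≤ g * (2 * ((2 : ℝ) ^ k)⁻¹) := by
              rw [h4, div_le_iff₀ (by positivity)]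
              have : g * (2 * ((2 : ℝ) ^ k)⁻¹) * (2 ^ k) ^ 2 = g * (2 * 2 ^ k) := by
                field_simp
              rw [this]
              exact mul_le_mul_of_nonneg_left h5 hg0
            have h7 : (1 + g) * g / 4 ^ k = g * ((4 : ℝ) ^ k)⁻¹ + g * g / 4 ^ k := by ring
            rw [h7]
            linarith
          · rw [zero_mul]
            positivity
      _ = g * (∑ k ∈ Finset.range N, ((4 : ℝ) ^ k)⁻¹) +
          g * ∑ k ∈ Finset.range N, (2 : ℝ) * ((2 : ℝ) ^ k)⁻¹ := by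
          rw [Finset.sum_add_distrib, ← Finset.mul_sum, ← Finset.mul_sum]
      _ ≤ g * 2 + g * 4 := add_le_add
          (mul_le_mul_of_nonneg_left (loc_energyT_geo4 N) hg0)
          (mul_le_mul_of_nonneg_left (loc_energyT_geo N) hg0)
      _ = _ := by ring
  rw [h2] at h1
  have h8 : (M * (c / r ^ 2)) * ∑ k ∈ Finset.range N,
      ((if (2 : ℝ) ^ k ≤ g ∧ g ≤ 2 ^ (k + 1) then 1 else 0) * ((1 + g) * g / 4 ^ k)) ≤
      (M * (c / r ^ 2)) * (6 * g) := mul_le_mul_of_nonneg_left h3 (by positivity)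
  refine (h1.trans h8).trans ?_
  have e : (6 * M * c + 1) / r ^ 2 * g = (M * (c / r ^ 2)) * (6 * g) + 1 / r ^ 2 * g := by
    ring
  rw [e]
  have : 0 ≤ 1 / r ^ 2 * g := by positivity
  linarith

/-- sums of kinetic energies of the pieces -/
theorem loc_energyT_kinsum {S : Type} [Fintype S] (D : Species S) (hD : D.Valid) :
    ∃ C : ℝ, 0 < C ∧ ∀ {I : Type} [Fintype I] [DecidableEq I] (sp : I → S) (ℓ : ℝ) (y : E3)
      (r : ℝ), 0 < r → ∀ (Ψ : Wave D I), IsState D sp ℓ Ψ → ∀ (a : I → (I → E3) → ℝ) (M : ℝ),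
      (∀ i, Continuous (a i)) → (∀ i x, |a i x| ≤ M) → (∀ i x, a i x ≤ 1 + loc_upper_g y r x) →
      ∀ N : ℕ, Fintype.card I ≤ 2 ^ N →
      ∑ k ∈ Finset.range (N + 1), (∑ τ, ∫ x, ∑ j, a j x *
        kin D sp j (mulW D (gS (loc_energyT_th y r) k) Ψ τ) x) ≤
      (∑ τ, ∫ x, ∑ j, a j x * kin D sp j (Ψ τ) x) + C / r ^ 2 * wm D (loc_upper_g y r) Ψ := by
  obtain ⟨C, hC, H⟩ := loc_energyT_Ebd D hD
  refine ⟨C, hC, ?_⟩
  intro I _ _ sp ℓ y r hr Ψ hΨ a M hac haM hag N hN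
  have hst : ∀ k, IsState D sp ℓ (mulW D (gS (loc_energyT_th y r) k) Ψ) := fun k =>
    mulW_state D sp ℓ Ψ hΨ _ (gS_smooth _ (loc_energyT_th_smooth y r) k)
      (gS_symm _ (loc_energyT_th_symm y r) k)
  have hint : ∀ (Φ : Wave D I), IsState D sp ℓ Φ → ∀ τ,
      Integrable (fun x => ∑ j, a j x * kin D sp j (Φ τ) x) := by
    intro Φ hΦ τ
    obtain ⟨-, h2, -, -, -⟩ := int_state D sp ℓ Φ hΦ τ
    exact integrable_finsetSum _ fun j _ => (h2 j).bdd_mul (c := M) (hac j).aestronglyMeasurable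
      (Filter.Eventually.of_forall fun x => by rw [Real.norm_eq_abs]; exact haM j x)
  have hwg : WI D sp ℓ (loc_upper_g (I := I) y r) :=
    le_WI_cont D sp ℓ _ (loc_upper_g_smooth y r).continuous
  rw [Finset.sum_comm]
  unfold wm
  rw [Finset.mul_sum, ← Finset.sum_add_distrib]
  refine Finset.sum_le_sum fun τ _ => ?_
  rw [← integral_finsetSum _ fun k _ => hint _ (hst k) τ, ← integral_const_mul,
    ← integral_add (hint Ψ hΨ τ) ((hwg Ψ hΨ τ).const_mul _)]
  refine integral_mono (integrable_finsetSum _ fun k _ => hint _ (hst k) τ)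
    ((hint Ψ hΨ τ).add ((hwg Ψ hΨ τ).const_mul _)) fun x => ?_
  have hz : ∀ x : I → E3, hS (loc_energyT_th y r) (N + 1) x = 0 := by
    intro x
    apply loc_energyT_hS_zero
    refine (loc_upper_g_le y r x).trans ?_
    exact_mod_cast hN
  have hk : ∀ j, ∑ k ∈ Finset.range (N + 1),
      kin D sp j (mulW D (gS (loc_energyT_th y r) k) Ψ τ) x =
      kin D sp j (Ψ τ) x + loc_energyT_E D sp y r (N + 1) x j * ‖Ψ τ x‖ ^ 2 := by
    intro j
    have h1 := loc_energyT_kinN D sp ℓ Ψ hΨ τ (loc_energyT_th y r) (loc_energyT_th_smooth y r)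
      (loc_energyT_th_symm y r) j x (N + 1)
    have h2 : mulW D (hS (loc_energyT_th y r) (N + 1)) Ψ τ = fun _ => 0 := by
      funext x
      unfold mulW
      rw [hz x]
      simp
    have h3 : kin D sp j (mulW D (hS (loc_energyT_th y r) (N + 1)) Ψ τ) x = 0 := by
      rw [h2]
      unfold kin
      simp
    rw [h3, add_zero] at h1
    exact h1
  show ∑ k ∈ Finset.range (N + 1), ∑ j, a j x *
      kin D sp j (mulW D (gS (loc_energyT_th y r) k) Ψ τ) x ≤
    (∑ j, a j x * kin D sp j (Ψ τ) x) + C / r ^ 2 * (loc_upper_g y r x * ‖Ψ τ x‖ ^ 2)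
  rw [Finset.sum_comm]
  simp only [← Finset.mul_sum]
  simp only [hk]
  have h4 := H sp y r hr (N + 1) x (fun i => a i x) (fun i => hag i x)
  have h5 := mul_le_mul_of_nonneg_right h4 (sq_nonneg ‖Ψ τ x‖)
  calc ∑ j, a j x * (kin D sp j (Ψ τ) x + loc_energyT_E D sp y r (N + 1) x j * ‖Ψ τ x‖ ^ 2)
      = (∑ j, a j x * kin D sp j (Ψ τ) x) +
        (∑ j, a j x * loc_energyT_E D sp y r (N + 1) x j) * ‖Ψ τ x‖ ^ 2 := by
        rw [Finset.sum_mul, ← Finset.sum_add_distrib]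
        refine Finset.sum_congr rfl fun j _ => ?_
        ring
    _ ≤ _ := by linarith

theorem loc_energyT_avg1 {S : Type} (D : Species S) {I : Type} [Fintype I] [DecidableEq I]
    (sp : I → S) (ℓ : ℝ) (hℓ : 0 < ℓ) (Ψ : Wave D I) (hΨ : IsState D sp ℓ Ψ)
    (A : E3 → (I → E3) → ℝ)
    (hAm : Measurable (fun q : (I → E3) × E3 => A q.2 q.1)) (M : ℝ) (hM0 : 0 ≤ M)
    (hAM : ∀ v x, |A v x| ≤ M * (1 + ∑ i, kk (x i - v)))
    (B : (I → E3) → ℝ) (hB : WI D sp ℓ B)
    (hAB : ∀ x, ∫ v in icb ℓ, A v x ≤ ℓ ^ 3 / 8 * B x) :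
    Integrable (fun v => (icb ℓ).indicator (fun _ => (1 : ℝ)) v * wm D (A v) Ψ) ∧
    ∫ v, (icb ℓ).indicator (fun _ => (1 : ℝ)) v * wm D (A v) Ψ ≤ (ℓ ^ 3 / 8) * wm D B Ψ := by
  obtain ⟨c, hc⟩ : ∃ c : E3 → ℝ, c = (icb ℓ).indicator (fun _ => (1 : ℝ)) := ⟨_, rfl⟩
  rw [← hc]
  have hcm : Measurable c := by rw [hc]; exact measurable_const.indicator (le_icb_meas ℓ)
  have hc0 : ∀ y, 0 ≤ c y := by
    intro y; rw [hc]; exact Set.indicator_nonneg (fun _ _ => zero_le_one) y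
  have hc1 : ∀ y, c y ≤ 1 := by
    intro y; rw [hc]; exact Set.indicator_le_self' (fun _ _ => zero_le_one) y
  have hci : Integrable c := by
    rw [hc]
    refine (integrable_indicator_iff (le_icb_meas ℓ)).2 ?_
    refine integrableOn_const ?_
    rw [le_icb_vol ℓ hℓ]
    exact ENNReal.ofReal_ne_top
  have hΨm : ∀ τ, Measurable (fun x => ‖Ψ τ x‖ ^ 2) := fun τ =>
    ((hΨ.smooth τ).continuous.measurable.norm).pow_const 2
  have hΨi : ∀ τ, Integrable (fun x => ‖Ψ τ x‖ ^ 2) := fun τ => (int_state D sp ℓ Ψ hΨ τ).1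
  have hdom : ∀ τ, Integrable (fun q : (I → E3) × E3 => M * (c q.2 * ‖Ψ τ q.1‖ ^ 2 +
      ∑ i, kk (q.1 i - q.2) * ‖Ψ τ q.1‖ ^ 2))
      ((volume : Measure (I → E3)).prod (volume : Measure E3)) := by
    intro τ
    refine (Integrable.add ?_ (integrable_finsetSum _ fun i _ =>
      kk_prod _ (hΨi τ) (hΨm τ) i)).const_mul M
    have h1 := (hΨi τ).mul_prod hci
    refine h1.congr (Filter.Eventually.of_forall fun q => ?_)
    show ‖Ψ τ q.1‖ ^ 2 * c q.2 = _
    ring
  have hpt : ∀ τ (q : (I → E3) × E3), |c q.2 * (A q.2 q.1 * ‖Ψ τ q.1‖ ^ 2)| ≤ M * (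
      c q.2 * ‖Ψ τ q.1‖ ^ 2 + ∑ i, kk (q.1 i - q.2) * ‖Ψ τ q.1‖ ^ 2) := by
    intro τ q
    have h2 : 0 ≤ ∑ i, kk (q.1 i - q.2) := Finset.sum_nonneg fun i _ => kk_nonneg _
    have h3 : 0 ≤ ‖Ψ τ q.1‖ ^ 2 := by positivity
    have h4 := hc0 q.2
    rw [← Finset.sum_mul, abs_mul, abs_mul, abs_of_nonneg h4, abs_of_nonneg h3]
    calc c q.2 * (|A q.2 q.1| * ‖Ψ τ q.1‖ ^ 2)
        ≤ c q.2 * ((M * (1 + ∑ i, kk (q.1 i - q.2))) * ‖Ψ τ q.1‖ ^ 2) :=
          mul_le_mul_of_nonneg_left (mul_le_mul_of_nonneg_right (hAM _ _) h3) h4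
      _ = M * (c q.2 * ‖Ψ τ q.1‖ ^ 2) +
          c q.2 * (M * ((∑ i, kk (q.1 i - q.2)) * ‖Ψ τ q.1‖ ^ 2)) := by ring
      _ ≤ M * (c q.2 * ‖Ψ τ q.1‖ ^ 2) +
          1 * (M * ((∑ i, kk (q.1 i - q.2)) * ‖Ψ τ q.1‖ ^ 2)) := by
          have := mul_le_mul_of_nonneg_right (hc1 q.2)
            (mul_nonneg hM0 (mul_nonneg h2 h3))
          linarith
      _ = _ := by ring
  have hF : ∀ τ, Integrable (fun q : (I → E3) × E3 => c q.2 * (A q.2 q.1 * ‖Ψ τ q.1‖ ^ 2))
      ((volume : Measure (I → E3)).prod (volume : Measure E3)) := by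
    intro τ
    refine (hdom τ).mono' ?_ (Filter.Eventually.of_forall fun q => ?_)
    · exact ((hcm.comp measurable_snd).mul (hAm.mul
        ((hΨm τ).comp measurable_fst))).aestronglyMeasurable
    · rw [Real.norm_eq_abs]
      exact hpt τ q
  have e1 : ∀ y, c y * wm D (A y) Ψ = ∑ τ, ∫ x : I → E3, c y * (A y x * ‖Ψ τ x‖ ^ 2) := by
    intro y
    unfold wm
    rw [Finset.mul_sum]
    refine Finset.sum_congr rfl fun τ _ => ?_
    rw [integral_const_mul]
  refine ⟨?_, ?_⟩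
  · simp only [e1]
    exact integrable_finsetSum _ fun τ _ => (hF τ).integral_prod_right
  · simp only [e1]
    rw [integral_finsetSum _ fun τ _ => (hF τ).integral_prod_right]
    unfold wm
    rw [Finset.mul_sum]
    refine Finset.sum_le_sum fun τ _ => ?_
    rw [← integral_integral_swap (f := fun (x : I → E3) (y : E3) =>
      c y * (A y x * ‖Ψ τ x‖ ^ 2)) (hF τ), ← integral_const_mul]
    refine integral_mono (hF τ).integral_prod_left ((hB Ψ hΨ τ).const_mul _) fun x => ?_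
    have e2 : ∫ y, c y * (A y x * ‖Ψ τ x‖ ^ 2) = (∫ v in icb ℓ, A v x) * ‖Ψ τ x‖ ^ 2 := by
      rw [← integral_indicator (le_icb_meas ℓ), ← integral_mul_const]
      refine integral_congr_ae (Filter.Eventually.of_forall fun v => ?_)
      simp only [hc]
      by_cases hv : v ∈ icb ℓ
      · simp only [Set.indicator_of_mem hv]; ring
      · simp only [Set.indicator_of_notMem hv]; ring
    show ∫ y, c y * (A y x * ‖Ψ τ x‖ ^ 2) ≤ ℓ ^ 3 / 8 * (B x * ‖Ψ τ x‖ ^ 2)
    rw [e2, ← mul_assoc]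
    exact mul_le_mul_of_nonneg_right (hAB x) (by positivity)

theorem loc_energyT_avg {S : Type} (D : Species S) {I : Type} [Fintype I] [DecidableEq I]
    (sp : I → S) (ℓ : ℝ) (hℓ : 0 < ℓ) {k : ℕ} (p : Fin k → ℝ) (hp : ∀ j, 0 ≤ p j)
    (ψ : Fin k → Wave D I) (hψ : ∀ j, IsState D sp ℓ (ψ j))
    (A : E3 → (I → E3) → ℝ)
    (hAm : Measurable (fun q : (I → E3) × E3 => A q.2 q.1)) (M : ℝ) (hM0 : 0 ≤ M)
    (hAM : ∀ v x, |A v x| ≤ M * (1 + ∑ i, kk (x i - v))) (T : ℝ)
    (hT : ∀ v ∈ icb ℓ, T ≤ wx D p ψ (A v))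
    (B : (I → E3) → ℝ) (hB : WI D sp ℓ B)
    (hAB : ∀ x, ∫ v in icb ℓ, A v x ≤ ℓ ^ 3 / 8 * B x) : T ≤ wx D p ψ B := by
  obtain ⟨c, hc⟩ : ∃ c : E3 → ℝ, c = (icb ℓ).indicator (fun _ => (1 : ℝ)) := ⟨_, rfl⟩
  have hc0 : ∀ y, 0 ≤ c y := by
    intro y; rw [hc]; exact Set.indicator_nonneg (fun _ _ => zero_le_one) y
  have hci : Integrable c := by
    rw [hc]
    refine (integrable_indicator_iff (le_icb_meas ℓ)).2 ?_
    refine integrableOn_const ?_
    rw [le_icb_vol ℓ hℓ]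
    exact ENNReal.ofReal_ne_top
  have hcint : ∫ y, c y = ℓ ^ 3 / 8 := by
    rw [hc, integral_indicator (le_icb_meas ℓ)]
    rw [setIntegral_const, Measure.real, le_icb_vol ℓ hℓ,
      ENNReal.toReal_ofReal (by positivity)]
    simp
  have h1 : ∀ j, Integrable (fun v => c v * wm D (A v) (ψ j)) ∧
      ∫ v, c v * wm D (A v) (ψ j) ≤ (ℓ ^ 3 / 8) * wm D B (ψ j) := by
    intro j
    rw [hc]
    exact loc_energyT_avg1 D sp ℓ hℓ (ψ j) (hψ j) A hAm M hM0 hAM B hB hAB
  have e1 : ∀ v, c v * wx D p ψ (A v) = ∑ j, p j * (c v * wm D (A v) (ψ j)) := by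
    intro v
    unfold wx
    rw [Finset.mul_sum]
    refine Finset.sum_congr rfl fun j _ => ?_
    ring
  have i1 : Integrable (fun v => c v * wx D p ψ (A v)) := by
    simp only [e1]
    exact integrable_finsetSum _ fun j _ => (h1 j).1.const_mul _
  have h2 : (ℓ ^ 3 / 8) * T ≤ ∫ v, c v * wx D p ψ (A v) := by
    rw [← hcint, ← integral_mul_const]
    refine integral_mono (hci.mul_const _) i1 fun v => ?_
    by_cases hv : v ∈ icb ℓ
    · exact mul_le_mul_of_nonneg_left (hT v hv) (hc0 v)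
    · have : c v = 0 := by rw [hc, Set.indicator_of_notMem hv]
      simp only [this, zero_mul, le_refl]
  have h3 : ∫ v, c v * wx D p ψ (A v) ≤ (ℓ ^ 3 / 8) * wx D p ψ B := by
    simp only [e1]
    rw [integral_finsetSum _ fun j _ => (h1 j).1.const_mul _]
    unfold wx
    rw [Finset.mul_sum]
    refine Finset.sum_le_sum fun j _ => ?_
    rw [integral_const_mul]
    have := mul_le_mul_of_nonneg_left (h1 j).2 (hp j)
    linarith
  have h4 : 0 < ℓ ^ 3 / 8 := by positivity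
  exact le_of_mul_le_mul_left (h2.trans h3) h4

section

variable {S : Type} (D : Species S) {I : Type} [Fintype I] [DecidableEq I] (sp : I → S)

theorem loc_energyT_wx_add (ℓ : ℝ) {k : ℕ} (p : Fin k → ℝ) (ψ : Fin k → Wave D I)
    (hψ : ∀ j, IsState D sp ℓ (ψ j)) {V W : (I → E3) → ℝ} (hV : WI D sp ℓ V) (hW : WI D sp ℓ W) :
    wx D p ψ (fun x => V x + W x) = wx D p ψ V + wx D p ψ W := by
  unfold wx
  rw [← Finset.sum_add_distrib]
  refine Finset.sum_congr rfl fun j _ => ?_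
  rw [wm_add D sp ℓ hV hW _ (hψ j), mul_add]

theorem loc_energyT_wx_smul {k : ℕ} (p : Fin k → ℝ) (ψ : Fin k → Wave D I)
    (V : (I → E3) → ℝ) (c : ℝ) :
    wx D p ψ (fun x => c * V x) = c * wx D p ψ V := by
  unfold wx
  rw [Finset.mul_sum]
  refine Finset.sum_congr rfl fun j _ => ?_
  rw [wm_smul]
  ring

theorem loc_energyT_wx_mono (ℓ : ℝ) {k : ℕ} (p : Fin k → ℝ) (hp : ∀ j, 0 ≤ p j)
    (ψ : Fin k → Wave D I)
    (hψ : ∀ j, IsState D sp ℓ (ψ j)) {V W : (I → E3) → ℝ} (hV : WI D sp ℓ V) (hW : WI D sp ℓ W)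
    (h : ∀ x, V x ≤ W x) : wx D p ψ V ≤ wx D p ψ W := by
  unfold wx
  refine Finset.sum_le_sum fun j _ => mul_le_mul_of_nonneg_left ?_ (hp j)
  exact wm_mono D sp ℓ hV hW _ (hψ j) (Filter.Eventually.of_forall h)

theorem loc_energyT_wx_nonneg {k : ℕ} (p : Fin k → ℝ) (hp : ∀ j, 0 ≤ p j)
    (ψ : Fin k → Wave D I) {V : (I → E3) → ℝ} (h : ∀ x, 0 ≤ V x) : 0 ≤ wx D p ψ V := by
  unfold wx wm
  exact Finset.sum_nonneg fun j _ => mul_nonneg (hp j) (Finset.sum_nonneg fun τ _ =>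
    integral_nonneg fun x => mul_nonneg (h x) (sq_nonneg _))

/-- bounded measurable weights -/
theorem loc_energyT_WI_bd (ℓ : ℝ) (h : (I → E3) → ℝ) (hh : Measurable h) (M : ℝ)
    (hM : ∀ x, |h x| ≤ M) : WI D sp ℓ h := by
  intro Ψ hΨ τ
  have := (int_state D sp ℓ Ψ hΨ τ).1
  exact this.bdd_mul (c := M) hh.aestronglyMeasurable
    (Filter.Eventually.of_forall fun x => by rw [Real.norm_eq_abs]; exact hM x)

/-- the sum over the levels of the expectation of a weight -/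
theorem loc_energyT_wsum (ℓ : ℝ) (y : E3) (r : ℝ) (Ψ : Wave D I) (hΨ : IsState D sp ℓ Ψ)
    {W : (I → E3) → ℝ} (hW : WI D sp ℓ W) (N : ℕ) (hN : Fintype.card I ≤ 2 ^ N) :
    ∑ k ∈ Finset.range (N + 1), wm D W (mulW D (gS (loc_energyT_th y r) k) Ψ) = wm D W Ψ := by
  have hz : ∀ x : I → E3, hS (loc_energyT_th y r) (N + 1) x = 0 := by
    intro x
    apply loc_energyT_hS_zero
    refine (loc_upper_g_le y r x).trans ?_
    exact_mod_cast hN
  have h1 : ∀ k ∈ Finset.range (N + 1),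
      WI D sp ℓ (fun x => gS (loc_energyT_th y r) k x ^ 2 * W x) := fun k _ =>
    WI_mul D sp ℓ hW _ ((gS_smooth _ (loc_energyT_th_smooth y r) k).continuous.pow 2) fun x => by
      rw [abs_of_nonneg (sq_nonneg _)]; exact gS_sq_le _ k x
  simp only [wm_mulW]
  rw [← wm_sum D sp ℓ _ _ h1 Ψ hΨ]
  congr 1
  funext x
  rw [← Finset.sum_mul]
  have := sum_sq (loc_energyT_th y r) (N + 1) x
  rw [hz x] at this
  have h2 : ∑ k ∈ Finset.range (N + 1), gS (loc_energyT_th y r) k x ^ 2 = 1 := by linarith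
  rw [h2, one_mul]

theorem loc_energyT_wxsum (ℓ : ℝ) (y : E3) (r : ℝ) {n : ℕ} (p : Fin n → ℝ) (ψ : Fin n → Wave D I)
    (hψ : ∀ j, IsState D sp ℓ (ψ j))
    {W : (I → E3) → ℝ} (hW : WI D sp ℓ W) (N : ℕ) (hN : Fintype.card I ≤ 2 ^ N) :
    ∑ k ∈ Finset.range (N + 1), wx D p (fun j => mulW D (gS (loc_energyT_th y r) k) (ψ j)) W =
      wx D p ψ W := by
  unfold wx
  rw [Finset.sum_comm]
  refine Finset.sum_congr rfl fun j _ => ?_
  rw [← Finset.mul_sum, loc_energyT_wsum D sp ℓ y r (ψ j) (hψ j) hW N hN]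

/-- the same with the logarithms of the weights -/
theorem loc_energyT_lsum (ℓ : ℝ) (y : E3) (r : ℝ) {n : ℕ} (p : Fin n → ℝ) (ψ : Fin n → Wave D I)
    (hψ : ∀ j, IsState D sp ℓ (ψ j))
    {W : (I → E3) → ℝ} (hW : WI D sp ℓ W) (N : ℕ) (hN : Fintype.card I ≤ 2 ^ N) :
    ∑ k ∈ Finset.range (N + 1), ∑ j, p j *
      (wm D W (mulW D (gS (loc_energyT_th y r) k) (ψ j)) * Real.log (p j)) =
      ∑ j, p j * (wm D W (ψ j) * Real.log (p j)) := by
  rw [Finset.sum_comm]
  refine Finset.sum_congr rfl fun j _ => ?_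
  rw [← Finset.mul_sum, ← Finset.sum_mul, loc_energyT_wsum D sp ℓ y r (ψ j) (hψ j) hW N hN]

end

theorem loc_energyT_nb_meas {I : Type} [Fintype I] (y : E3) (R : ℝ) :
    Measurable (nb (I := I) y R) := by
  unfold nb
  refine Finset.measurable_fun_sum _ fun i _ => ?_
  exact Measurable.ite (measurableSet_le (by fun_prop) measurable_const) measurable_const
    measurable_const

theorem loc_energyT_nb0 {I : Type} [Fintype I] (y : E3) (R : ℝ) (x : I → E3) : 0 ≤ nb y R x := by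
  unfold nb
  exact Finset.sum_nonneg fun i _ => by split_ifs <;> norm_num

theorem loc_energyT_nb_card {I : Type} [Fintype I] (y : E3) (R : ℝ) (x : I → E3) :
    nb y R x ≤ Fintype.card I := by
  unfold nb
  calc _ ≤ ∑ _i : I, (1 : ℝ) := Finset.sum_le_sum fun i _ => by split_ifs <;> norm_num
    _ = _ := by simp

theorem loc_energyT_nb_le {I : Type} [Fintype I] (y : E3) (R : ℝ) (x : I → E3) :
    nb y R x ≤ nb y R x ^ ((4 : ℝ) / 3) := by
  have e : nb y R x = (((Finset.univ.filter fun i => ‖x i - y‖ ≤ R).card : ℕ) : ℝ) := by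
    unfold nb
    rw [Finset.sum_boole]
  rcases Nat.eq_zero_or_pos (Finset.univ.filter fun i => ‖x i - y‖ ≤ R).card with h0 | h0
  · rw [e, h0]; simp
  · have h1 : 1 ≤ nb y R x := by rw [e]; exact_mod_cast h0
    calc nb y R x = nb y R x ^ (1 : ℝ) := (Real.rpow_one _).symm
      _ ≤ _ := Real.rpow_le_rpow_of_exponent_le h1 (by norm_num)

theorem loc_energyT_g_nb {I : Type} [Fintype I] (y : E3) {r : ℝ} (hr : 0 < r) (x : I → E3) :
    loc_upper_g y r x ≤ nb y (2 * r) x := by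
  unfold loc_upper_g nb
  refine Finset.sum_le_sum fun i _ => ?_
  split_ifs with h
  · exact loc_upper_cy_le y r (x i)
  · rw [not_le] at h
    have h1 : cy y r (x i) = 0 := by
      apply loc_upper_ct_zero
      rw [norm_smul, Real.norm_of_nonneg (by positivity), ← div_eq_inv_mul, le_div_iff₀ hr]
      exact h.le
    rw [h1]
    norm_num

section

variable {S : Type} (D : Species S) {I : Type} [Fintype I] [DecidableEq I] (sp : I → S)

/-- the pair weight -/
noncomputable def loc_energyT_P (y : E3) (r : ℝ) (x : I → E3) : ℝ :=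
  ∑ i, cy y r (x i) ^ 2 * ∑ j, if i = j then 0 else
    D.charge (sp i) * D.charge (sp j) / ‖x i - x j‖

/-- the weight with the new position `v` -/
noncomputable def loc_energyT_Q (y : E3) (r : ℝ) (v : E3) (x : I → E3) : ℝ :=
  ∑ i, cy y r (x i) ^ 2 * (D.charge (sp i) * ∑ j, if i = j then 0 else
    D.charge (sp j) / ‖x j - v‖)

theorem loc_energyT_W_cont (y : E3) (r : ℝ) (i : I) :
    Continuous (fun x : I → E3 => cy y r (x i) ^ 2) :=
  ((loc_upper_cy_smooth y r).continuous.comp (continuous_apply i)).pow 2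

theorem loc_energyT_W_abs (y : E3) (r : ℝ) (i : I) (x : I → E3) : |cy y r (x i) ^ 2| ≤ 1 := by
  rw [abs_of_nonneg (sq_nonneg _)]
  exact loc_upper_cy_le y r (x i)

theorem loc_energyT_WI_g (ℓ : ℝ) (y : E3) (r : ℝ) : WI D sp ℓ (loc_upper_g y r) :=
  le_WI_cont D sp ℓ _ (loc_upper_g_smooth y r).continuous

theorem loc_energyT_WI_gc (ℓ : ℝ) (y : E3) (r : ℝ) :
    WI D sp ℓ (fun x => loc_upper_g y r x * coul D sp x) :=
  le_WI_mul D sp ℓ (WI_coul D sp ℓ) _ (loc_upper_g_smooth y r).continuous _ (fun x => by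
    rw [abs_of_nonneg (loc_upper_g_nonneg y r x)]; exact loc_upper_g_le y r x)

theorem loc_energyT_WI_P (ℓ : ℝ) (y : E3) (r : ℝ) : WI D sp ℓ (loc_energyT_P D sp y r) := by
  unfold loc_energyT_P
  exact WI_sum D sp ℓ _ _ fun i _ => le_WI_mul D sp ℓ (WI_pair D sp ℓ i) _
    (loc_energyT_W_cont y r i) 1 (loc_energyT_W_abs y r i)

theorem loc_energyT_WI_Q (ℓ : ℝ) (y : E3) (r : ℝ) (v : E3) :
    WI D sp ℓ (loc_energyT_Q D sp y r v) := by
  unfold loc_energyT_Q
  refine WI_sum D sp ℓ _ _ fun i _ => le_WI_mul D sp ℓ ?_ _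
    (loc_energyT_W_cont y r i) 1 (loc_energyT_W_abs y r i)
  refine WI_smul D sp ℓ ?_ _
  refine WI_sum D sp ℓ _ _ fun j _ => ?_
  by_cases hij : i = j
  · simp only [if_pos hij]
    exact WI_zero D sp ℓ
  · simp only [if_neg hij]
    have h := locInt_shift pot_props_locInt v
    have h2 := WI_smul D sp ℓ (WI_one D sp ℓ j (fun z => ‖z - v‖⁻¹) h) (D.charge (sp j))
    simpa only [div_eq_mul_inv] using h2

theorem loc_energyT_WI_G (ℓ : ℝ) (y : E3) (r : ℝ) (v : E3) :
    WI D sp ℓ (fun x => loc_upper_g y r x * (1 + near2 v x)) :=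
  le_WI_mul D sp ℓ (WI_add D sp ℓ (WI_const D sp ℓ 1) (WI_near2 D sp ℓ v)) _
    (loc_upper_g_smooth y r).continuous _ (fun x => by
    rw [abs_of_nonneg (loc_upper_g_nonneg y r x)]; exact loc_upper_g_le y r x)

theorem loc_energyT_WI_nb (ℓ : ℝ) (y : E3) (R : ℝ) : WI D sp ℓ (nb y R) :=
  loc_energyT_WI_bd D sp ℓ _ (loc_energyT_nb_meas y R) _ (fun x => by
    rw [abs_of_nonneg (loc_energyT_nb0 y R x)]; exact loc_energyT_nb_card y R x)

theorem loc_energyT_WI_nb43 (ℓ : ℝ) (y : E3) (R : ℝ) :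
    WI D sp ℓ (fun x => nb y R x ^ ((4 : ℝ) / 3)) :=
  loc_energyT_WI_bd D sp ℓ _ ((loc_energyT_nb_meas y R).pow_const _)
    ((Fintype.card I : ℝ) ^ ((4 : ℝ) / 3)) (fun x => by
      rw [abs_of_nonneg (Real.rpow_nonneg (loc_energyT_nb0 y R x) _)]
      exact Real.rpow_le_rpow (loc_energyT_nb0 y R x) (loc_energyT_nb_card y R x) (by norm_num))

/-- the entropy of one level -/
theorem loc_energyT_entk (ℓ : ℝ) (y : E3) {r : ℝ} (hr : 0 < r) {n : ℕ} (p : Fin n → ℝ)
    (hp : ∀ j, 0 ≤ p j) (ψ : Fin n → Wave D I) (hψ : ∀ j, IsState D sp ℓ (ψ j)) (k : ℕ) :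
    wx D p (fun j => mulW D (gS (loc_energyT_th y r) k) (ψ j)) (loc_upper_g y r) *
      Real.log (1 * 2 ^ (k + 1) / ((4 : ℝ) ^ k)⁻¹) ≤
    wx D p (fun j => mulW D (gS (loc_energyT_th y r) k) (ψ j))
      (fun x => 13 * nb y (2 * r) x ^ ((4 : ℝ) / 3)) := by
  unfold wx
  rw [Finset.sum_mul]
  refine Finset.sum_le_sum fun j _ => ?_
  rw [mul_assoc]
  refine mul_le_mul_of_nonneg_left ?_ (hp j)
  rw [wm_mulW, wm_mulW, mul_comm, ← wm_smul]
  have hc := (gS_smooth _ (loc_energyT_th_smooth (I := I) y r) k).continuous.pow 2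
  have ha : ∀ x : I → E3, |gS (loc_energyT_th y r) k x ^ 2| ≤ 1 := fun x => by
    rw [abs_of_nonneg (sq_nonneg _)]; exact gS_sq_le _ k x
  refine wm_mono D sp ℓ (WI_smul D sp ℓ (WI_mul D sp ℓ (loc_energyT_WI_g D sp ℓ y r) _ hc ha) _)
    (WI_mul D sp ℓ (WI_smul D sp ℓ (loc_energyT_WI_nb43 D sp ℓ y (2 * r)) 13) _ hc ha)
    (ψ j) (hψ j) (Filter.Eventually.of_forall fun x => ?_)
  have := loc_energyT_ent y (r := r) k x (loc_energyT_g_nb y hr x)
  show Real.log (1 * 2 ^ (k + 1) / ((4 : ℝ) ^ k)⁻¹) * (gS (loc_energyT_th y r) k x ^ 2 *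
    loc_upper_g y r x) ≤
    gS (loc_energyT_th y r) k x ^ 2 * (13 * nb y (2 * r) x ^ ((4 : ℝ) / 3))
  linarith

/-- difference of the kinetic energies -/
theorem loc_energyT_kd (ℓ : ℝ) (y : E3) (r : ℝ) (Ψ : Wave D I) (hΨ : IsState D sp ℓ Ψ) :
    kcy D sp y r Ψ - klc D sp y r Ψ =
      ∑ τ, ∫ x, ∑ j, (loc_upper_g y r x - cy y r (x j) ^ 2) * kin D sp j (Ψ τ) x := by
  unfold kcy klc
  rw [← Finset.sum_sub_distrib]
  refine Finset.sum_congr rfl fun τ _ => ?_
  obtain ⟨-, h2, -, -, -⟩ := int_state D sp ℓ Ψ hΨ τ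
  have i1 : ∀ j, Integrable (fun x => loc_upper_g y r x * kin D sp j (Ψ τ) x) := fun j =>
    (h2 j).bdd_mul (c := (Fintype.card I : ℝ)) (loc_upper_g_smooth y r).continuous.aestronglyMeasurable
      (Filter.Eventually.of_forall fun x => by
        rw [Real.norm_eq_abs, abs_of_nonneg (loc_upper_g_nonneg y r x)]
        exact loc_upper_g_le y r x)
  have i2 : ∀ j, Integrable (fun x => cy y r (x j) ^ 2 * kin D sp j (Ψ τ) x) := fun j =>
    (h2 j).bdd_mul (c := 1) (loc_energyT_W_cont y r j).aestronglyMeasurable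
      (Filter.Eventually.of_forall fun x => by
        rw [Real.norm_eq_abs]; exact loc_energyT_W_abs y r j x)
  have e := integral_sub (integrable_finsetSum Finset.univ fun j _ => i1 j)
    (integrable_finsetSum Finset.univ fun j _ => i2 j)
  refine Eq.trans e.symm ?_
  refine integral_congr_ae (Filter.Eventually.of_forall fun x => ?_)
  simp only
  rw [← Finset.sum_sub_distrib]
  refine Finset.sum_congr rfl fun j _ => ?_
  ring

theorem loc_energyT_klc0 (hD : D.Valid) (y : E3) (r : ℝ) (Ψ : Wave D I) :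
    0 ≤ klc D sp y r Ψ := by
  unfold klc
  refine Finset.sum_nonneg fun τ _ => integral_nonneg fun x => Finset.sum_nonneg fun j _ => ?_
  refine mul_nonneg (sq_nonneg _) ?_
  unfold kin
  have := hD.mass_pos (sp j)
  exact mul_nonneg (by positivity) (Finset.sum_nonneg fun k _ => sq_nonneg _)

end

/-- removal of a particle, summed over the levels -/
theorem loc_energyT_rem {S : Type} [Fintype S] [DecidableEq S] (D : Species S) (hD : D.Valid)
    (T : ℝ) (hT : 0 < T) :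
    ∃ C : ℝ, 0 < C ∧ ∀ {I : Type} [Fintype I] [DecidableEq I] (sp : I → S) (ℓ : ℝ) (v : E3),
      0 < ℓ → Metric.closedBall v (1 / 2) ⊆ cube ℓ → ∀ Z : ℝ, 0 < Z →
      (∀ z ∈ peierls D sp ℓ T, z ≤ Z) →
      (∀ {J : Type} [Fintype J] [DecidableEq J] (sp' : J → S), ∃ B : ℝ,
        ∀ Φ, IsState D sp' ℓ Φ → B * nrm2 D Φ ≤ energy D sp' Φ) →
      ∀ (y : E3) (r : ℝ), 0 < r → r ≤ 1 → ∀ {n : ℕ} (p : Fin n → ℝ) (ψ : Fin n → Wave D I),
      (∀ j, 0 ≤ p j) → (∀ j, IsState D sp ℓ (ψ j)) → SG D ψ →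
      -T * Real.log Z * wx D p ψ (loc_upper_g y r) -
          T * ∑ j, p j * (wm D (loc_upper_g y r) (ψ j) * Real.log (p j)) ≤
        (∑ j, p j * (kcy D sp y r (ψ j) - klc D sp y r (ψ j))) +
        wx D p ψ (fun x => loc_upper_g y r x * coul D sp x - loc_energyT_P D sp y r x +
            loc_energyT_Q D sp y r v x) +
        C * wx D p ψ (fun x => loc_upper_g y r x * (1 + near2 v x)) +
        1 / 8 * (∑ j, p j * klc D sp y r (ψ j)) + C / r ^ 2 * wx D p ψ (nb y (2 * r)) +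
        T * (13 * wx D p ψ (fun x => nb y (2 * r) x ^ ((4 : ℝ) / 3))) + C := by
  obtain ⟨C1, hC1, H1⟩ := removalT D hD T (1 / 8) (1 / 2) hT (by norm_num) (by norm_num)
    (by norm_num)
  obtain ⟨C2, hC2, H2⟩ := loc_energyT_kinsum D hD
  refine ⟨2 * C1 + 2 * C2, by positivity, ?_⟩
  intro I _ _ sp ℓ v hℓ hv Z hZ hZle hst y r hr hr1 n p ψ hp hψ hsg
  obtain ⟨N, hN⟩ : ∃ N, Fintype.card I ≤ 2 ^ N := ⟨Fintype.card I, Nat.lt_two_pow_self.le⟩
  have hone : ∀ k : ℕ,
      -T * Real.log Z * wx D p (fun j => mulW D (gS (loc_energyT_th y r) k) (ψ j))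
          (loc_upper_g y r) -
          T * ∑ j, p j * (wm D (loc_upper_g y r) (mulW D (gS (loc_energyT_th y r) k) (ψ j)) *
            Real.log (p j)) ≤
        (∑ j, p j * (kcy D sp y r (mulW D (gS (loc_energyT_th y r) k) (ψ j)) -
          klc D sp y r (mulW D (gS (loc_energyT_th y r) k) (ψ j)))) +
        wx D p (fun j => mulW D (gS (loc_energyT_th y r) k) (ψ j))
          (fun x => loc_upper_g y r x * coul D sp x - loc_energyT_P D sp y r x +
            loc_energyT_Q D sp y r v x) +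
        C1 * wx D p (fun j => mulW D (gS (loc_energyT_th y r) k) (ψ j))
          (fun x => loc_upper_g y r x * (1 + near2 v x)) +
        1 / 8 * (∑ j, p j * klc D sp y r (mulW D (gS (loc_energyT_th y r) k) (ψ j))) +
        C1 / r ^ 2 * wx D p (fun j => mulW D (gS (loc_energyT_th y r) k) (ψ j)) (nb y (2 * r)) +
        T * wx D p (fun j => mulW D (gS (loc_energyT_th y r) k) (ψ j))
          (fun x => 13 * nb y (2 * r) x ^ ((4 : ℝ) / 3)) + C1 * ((4 : ℝ) ^ k)⁻¹ := by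
    intro k
    have h := H1 sp ℓ v hℓ hv Z hZ hZle hst y r hr hr1 p
      (fun j => mulW D (gS (loc_energyT_th y r) k) (ψ j)) hp
      (fun j => mulW_state D sp ℓ (ψ j) (hψ j) _ (gS_smooth _ (loc_energyT_th_smooth y r) k)
        (gS_symm _ (loc_energyT_th_symm y r) k)) 1 (2 ^ (k + 1)) ((4 : ℝ) ^ k)⁻¹ one_pos
      (by positivity) (by positivity) (by
        intro γ
        show nrm2 D (fun τ x => ∑ j, γ j * mulW D (gS (loc_energyT_th y r) k) (ψ j) τ x) ≤ _
        rw [mulW_sum, one_mul]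
        refine le_trans ?_ (hsg γ)
        exact mulW_nrm_le D sp ℓ _ (state_comb D sp ℓ ψ hψ γ) _
          (gS_smooth _ (loc_energyT_th_smooth y r) k).continuous (gS_sq_le _ k)) (by
        intro j τ x hx
        refine (loc_energyT_hi y r k x ?_).le
        intro h0
        apply hx
        show mulW D (gS (loc_energyT_th y r) k) (ψ j) τ x = 0
        unfold mulW
        rw [h0]
        simp)
    have he := mul_le_mul_of_nonneg_left (loc_energyT_entk D sp ℓ y hr p hp ψ hψ k) hT.le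
    have h' : -T * Real.log Z * wx D p (fun j => mulW D (gS (loc_energyT_th y r) k) (ψ j))
          (loc_upper_g y r) -
          T * ∑ j, p j * (wm D (loc_upper_g y r) (mulW D (gS (loc_energyT_th y r) k) (ψ j)) *
            Real.log (p j)) ≤
        (∑ j, p j * (kcy D sp y r (mulW D (gS (loc_energyT_th y r) k) (ψ j)) -
          klc D sp y r (mulW D (gS (loc_energyT_th y r) k) (ψ j)))) +
        wx D p (fun j => mulW D (gS (loc_energyT_th y r) k) (ψ j))
          (fun x => loc_upper_g y r x * coul D sp x - loc_energyT_P D sp y r x +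
            loc_energyT_Q D sp y r v x) +
        C1 * wx D p (fun j => mulW D (gS (loc_energyT_th y r) k) (ψ j))
          (fun x => loc_upper_g y r x * (1 + near2 v x)) +
        1 / 8 * (∑ j, p j * klc D sp y r (mulW D (gS (loc_energyT_th y r) k) (ψ j))) +
        C1 / r ^ 2 * wx D p (fun j => mulW D (gS (loc_energyT_th y r) k) (ψ j)) (nb y (2 * r)) +
        T * (wx D p (fun j => mulW D (gS (loc_energyT_th y r) k) (ψ j)) (loc_upper_g y r) *
          Real.log (1 * 2 ^ (k + 1) / ((4 : ℝ) ^ k)⁻¹)) + C1 * ((4 : ℝ) ^ k)⁻¹ := h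
    linarith
  have hsum := Finset.sum_le_sum fun (k : ℕ) (_ : k ∈ Finset.range (N + 1)) => hone k
  rw [Finset.sum_sub_distrib, Finset.sum_add_distrib, Finset.sum_add_distrib,
    Finset.sum_add_distrib, Finset.sum_add_distrib, Finset.sum_add_distrib,
    Finset.sum_add_distrib] at hsum
  simp only [← Finset.mul_sum] at hsum
  have hwg := loc_energyT_WI_g D sp ℓ y r
  have hwR : WI D sp ℓ (fun x => loc_upper_g y r x * coul D sp x - loc_energyT_P D sp y r x +
            loc_energyT_Q D sp y r v x) := by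
    have := WI_add D sp ℓ (WI_add D sp ℓ (loc_energyT_WI_gc D sp ℓ y r)
      (WI_smul D sp ℓ (loc_energyT_WI_P D sp ℓ y r) (-1))) (loc_energyT_WI_Q D sp ℓ y r v)
    have e : (fun x => loc_upper_g y r x * coul D sp x - loc_energyT_P D sp y r x +
            loc_energyT_Q D sp y r v x) = fun x => (loc_upper_g y r x * coul D sp x +
            (-1) * loc_energyT_P D sp y r x) + loc_energyT_Q D sp y r v x := by
      funext x; ring
    rw [e]
    exact this
  rw [loc_energyT_wxsum D sp ℓ y r p ψ hψ hwg N hN,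
    loc_energyT_lsum D sp ℓ y r p ψ hψ hwg N hN,
    loc_energyT_wxsum D sp ℓ y r p ψ hψ hwR N hN,
    loc_energyT_wxsum D sp ℓ y r p ψ hψ (loc_energyT_WI_G D sp ℓ y r v) N hN,
    loc_energyT_wxsum D sp ℓ y r p ψ hψ (loc_energyT_WI_nb D sp ℓ y (2 * r)) N hN,
    loc_energyT_wxsum D sp ℓ y r p ψ hψ
      (WI_smul D sp ℓ (loc_energyT_WI_nb43 D sp ℓ y (2 * r)) 13) N hN,
    loc_energyT_wx_smul] at hsum
  -- kinetic energies
  have hk1 : ∑ k ∈ Finset.range (N + 1), ∑ j, p j *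
      (kcy D sp y r (mulW D (gS (loc_energyT_th y r) k) (ψ j)) -
          klc D sp y r (mulW D (gS (loc_energyT_th y r) k) (ψ j))) ≤
      (∑ j, p j * (kcy D sp y r (ψ j) - klc D sp y r (ψ j))) +
        C2 / r ^ 2 * wx D p ψ (loc_upper_g y r) := by
    rw [Finset.sum_comm]
    unfold wx
    rw [Finset.mul_sum, ← Finset.sum_add_distrib]
    refine Finset.sum_le_sum fun j _ => ?_
    rw [← Finset.mul_sum]
    have h1 := H2 sp ℓ y r hr (ψ j) (hψ j) (fun i x => loc_upper_g y r x - cy y r (x i) ^ 2)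
      ((Fintype.card I : ℝ) + 1) (fun i => (loc_upper_g_smooth y r).continuous.sub
        (loc_energyT_W_cont y r i)) (fun i x => by
          have a1 := loc_upper_g_nonneg y r x
          have a2 := loc_upper_g_le y r x
          have a3 := loc_upper_cy_le y r (x i)
          have a4 := sq_nonneg (cy y r (x i))
          rw [abs_le]
          constructor <;> linarith) (fun i x => by
          have a4 := sq_nonneg (cy y r (x i))
          linarith) N hN
    have h2 : ∀ k ∈ Finset.range (N + 1),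
        kcy D sp y r (mulW D (gS (loc_energyT_th y r) k) (ψ j)) -
          klc D sp y r (mulW D (gS (loc_energyT_th y r) k) (ψ j)) =
        ∑ τ, ∫ x, ∑ i, (loc_upper_g y r x - cy y r (x i) ^ 2) *
          kin D sp i (mulW D (gS (loc_energyT_th y r) k) (ψ j) τ) x := fun k _ =>
      loc_energyT_kd D sp ℓ y r _ (mulW_state D sp ℓ (ψ j) (hψ j) _
        (gS_smooth _ (loc_energyT_th_smooth y r) k) (gS_symm _ (loc_energyT_th_symm y r) k))
    rw [Finset.sum_congr rfl h2, loc_energyT_kd D sp ℓ y r (ψ j) (hψ j)]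
    have h3 := mul_le_mul_of_nonneg_left h1 (hp j)
    linarith
  have hk2 : ∑ k ∈ Finset.range (N + 1), ∑ j, p j *
      klc D sp y r (mulW D (gS (loc_energyT_th y r) k) (ψ j)) ≤
      (∑ j, p j * klc D sp y r (ψ j)) + C2 / r ^ 2 * wx D p ψ (loc_upper_g y r) := by
    rw [Finset.sum_comm]
    unfold wx
    rw [Finset.mul_sum, ← Finset.sum_add_distrib]
    refine Finset.sum_le_sum fun j _ => ?_
    rw [← Finset.mul_sum]
    have h1 := H2 sp ℓ y r hr (ψ j) (hψ j) (fun i x => cy y r (x i) ^ 2) 1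
      (loc_energyT_W_cont y r) (loc_energyT_W_abs y r) (fun i x => by
        have a1 := loc_upper_g_nonneg y r x
        have a3 := loc_upper_cy_le y r (x i)
        linarith) N hN
    have h3 := mul_le_mul_of_nonneg_left h1 (hp j)
    unfold klc
    linarith
  have hg : wx D p ψ (loc_upper_g y r) ≤ wx D p ψ (nb y (2 * r)) :=
    loc_energyT_wx_mono D sp ℓ p hp ψ hψ hwg (loc_energyT_WI_nb D sp ℓ y (2 * r))
      (fun x => loc_energyT_g_nb y hr x)
  have hg2 : C2 / r ^ 2 * wx D p ψ (loc_upper_g y r) ≤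
      C2 / r ^ 2 * wx D p ψ (nb y (2 * r)) := mul_le_mul_of_nonneg_left hg (by positivity)
  have hG0 : 0 ≤ wx D p ψ (fun x => loc_upper_g y r x * (1 + near2 v x)) :=
    loc_energyT_wx_nonneg D p hp ψ fun x => mul_nonneg (loc_upper_g_nonneg y r x) (by
      have := near2_nonneg v x; linarith)
  have hn0 : 0 ≤ wx D p ψ (nb y (2 * r)) :=
    loc_energyT_wx_nonneg D p hp ψ fun x => loc_energyT_nb0 y _ x
  have hκ : C1 * ∑ k ∈ Finset.range (N + 1), ((4 : ℝ) ^ k)⁻¹ ≤ C1 * 2 :=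
    mul_le_mul_of_nonneg_left (loc_energyT_geo4 (N + 1)) hC1.le
  have e1 : (2 * C1 + 2 * C2) / r ^ 2 * wx D p ψ (nb y (2 * r)) =
      C1 / r ^ 2 * wx D p ψ (nb y (2 * r)) + (C1 / r ^ 2 * wx D p ψ (nb y (2 * r)) +
        2 * (C2 / r ^ 2 * wx D p ψ (nb y (2 * r)))) := by ring
  have e2 : (2 * C1 + 2 * C2) * wx D p ψ (fun x => loc_upper_g y r x * (1 + near2 v x)) =
      C1 * wx D p ψ (fun x => loc_upper_g y r x * (1 + near2 v x)) +
      (C1 + 2 * C2) * wx D p ψ (fun x => loc_upper_g y r x * (1 + near2 v x)) := by ring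
  have h5 : 0 ≤ (C1 + 2 * C2) * wx D p ψ (fun x => loc_upper_g y r x * (1 + near2 v x)) :=
    mul_nonneg (by positivity) hG0
  have h6 : 0 ≤ C1 / r ^ 2 * wx D p ψ (nb y (2 * r)) := by positivity
  have h7 : 0 ≤ C2 / r ^ 2 * wx D p ψ (nb y (2 * r)) := by positivity
  rw [e1, e2]
  linarith

/-- TARGET -/
theorem loc_energyT {S : Type} [Fintype S] [DecidableEq S] (D : Species S) (hD : D.Valid)
    (hst : HStable D) (T ρ : ℝ) (hT : 0 < T) (hρ : 0 ≤ ρ) : ∃ C : ℝ, 0 < C ∧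
    ∀ {I : Type} [Fintype I] [DecidableEq I] (sp : I → S) (ℓ : ℝ), 4 ≤ ℓ →
      (Fintype.card I : ℝ) ≤ ρ * ℓ ^ 3 → ∀ η Z : ℝ, 0 ≤ η →
      ∀ {k : ℕ} (p : Fin k → ℝ) (ψ : Fin k → Wave D I), NE D sp ℓ T η Z p ψ →
      ∀ (y : E3) (r : ℝ), 0 < r → r ≤ 1 →
        1 / 4 * (∑ j, p j * klc D sp y r (ψ j)) +
          wx D p ψ (fun x => (∑ i, cy y r (x i) ^ 2 * ∑ j, if i = j then 0 else
              D.charge (sp i) * D.charge (sp j) / ‖x i - x j‖) -
            phb D sp ℓ x * ∑ i, D.charge (sp i) * cy y r (x i) ^ 2) ≤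
        C / r ^ 2 * (1 + wx D p ψ (fun x => nb y (2 * r) x ^ ((4 : ℝ) / 3))) +
          C * (1 + (Fintype.card I : ℝ)) * η := by
  obtain ⟨C1, hC1, H1⟩ := loc_energyT_rem D hD T hT
  obtain ⟨C2, hC2, H2⟩ := loc_upperT D hD T hT
  obtain ⟨K, hK⟩ : ∃ K, K = ∫ z, kk z := ⟨_, rfl⟩
  have hK0 : 0 ≤ K := by rw [hK]; exact integral_nonneg kk_nonneg
  obtain ⟨C3, hC3⟩ : ∃ C3, C3 = C1 * (2 + 8 * ρ * K) := ⟨_, rfl⟩
  have hC30 : 0 ≤ C3 := by rw [hC3]; positivity
  refine ⟨C3 + 2 * C1 + C2 + 13 * T, by positivity, ?_⟩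
  intro I _ _ sp ℓ hℓ4 hN η Z hη n p ψ hNE y r hr hr1
  have hℓ : 0 < ℓ := by linarith
  have hp := hNE.p0
  have hψ := hNE.state
  have hstab : ∀ {J : Type} [Fintype J] [DecidableEq J] (sp' : J → S), ∃ B : ℝ,
        ∀ Φ, IsState D sp' ℓ Φ → B * nrm2 D Φ ≤ energy D sp' Φ := by
    intro J _ _ sp'
    obtain ⟨A, hA⟩ := hst
    exact ⟨-A * (Fintype.card J : ℝ), fun Φ hΦ => stable_any D A hA sp' ℓ hℓ Φ hΦ⟩
  have hU := H2 sp ℓ η Z hη p ψ hNE y r hr hr1
  have hU' : (∑ j, p j * kcy D sp y r (ψ j)) +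
          wx D p ψ (fun x => loc_upper_g y r x * coul D sp x) +
          T * ∑ j, p j * (wm D (loc_upper_g y r) (ψ j) * Real.log (p j)) ≤
        -T * Real.log Z * wx D p ψ (loc_upper_g y r) +
          1 / 2 * (∑ j, p j * klc D sp y r (ψ j)) + C2 / r ^ 2 * wx D p ψ (nb y (2 * r)) +
          C2 * (1 + (Fintype.card I : ℝ)) * η := hU
  have hR : ∀ v ∈ icb ℓ, _ := fun v hv => H1 sp ℓ v hℓ (by
      intro z hz k
      rw [Metric.mem_closedBall, dist_eq_norm] at hz
      have h1 : |z k - v k| ≤ 1 / 2 := by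
        have h2 : ‖(z - v) k‖ ≤ ‖z - v‖ := PiLp.norm_apply_le (z - v) k
        rw [PiLp.sub_apply, Real.norm_eq_abs] at h2
        exact h2.trans hz
      have h3 := hv k
      rw [abs_le] at h1
      constructor <;> linarith [h1.1, h1.2, h3.1, h3.2]) Z hNE.Zpos hNE.Zle hstab y r hr hr1 p ψ
      hp hψ hNE.sg
  obtain ⟨P, hP⟩ : ∃ P : (I → E3) → ℝ, P = loc_energyT_P D sp y r := ⟨_, rfl⟩
  obtain ⟨Q, hQ⟩ : ∃ Q : E3 → (I → E3) → ℝ, Q = fun v x => loc_energyT_Q D sp y r v x := ⟨_, rfl⟩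
  obtain ⟨F, hF⟩ : ∃ F : (I → E3) → ℝ, F = fun x => phb D sp ℓ x *
      ∑ i, D.charge (sp i) * cy y r (x i) ^ 2 := ⟨_, rfl⟩
  obtain ⟨g, hg⟩ : ∃ g : (I → E3) → ℝ, g = loc_upper_g y r := ⟨_, rfl⟩
  have hgoal : (fun x => (∑ i, cy y r (x i) ^ 2 * ∑ j, if i = j then 0 else
              D.charge (sp i) * D.charge (sp j) / ‖x i - x j‖) -
            phb D sp ℓ x * ∑ i, D.charge (sp i) * cy y r (x i) ^ 2) = fun x => P x - F x := by
    rw [hP, hF]
    rfl
  rw [hgoal]
  have hg0 : ∀ x, 0 ≤ g x := fun x => by rw [hg]; exact loc_upper_g_nonneg y r x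
  have hgN : ∀ x, g x ≤ (Fintype.card I : ℝ) := fun x => by
    rw [hg]; exact loc_upper_g_le y r x
  have hgc : Continuous g := by rw [hg]; exact (loc_upper_g_smooth y r).continuous
  have hwg : WI D sp ℓ g := by rw [hg]; exact loc_energyT_WI_g D sp ℓ y r
  have hwgc : WI D sp ℓ (fun x => g x * coul D sp x) := by
    rw [hg]; exact loc_energyT_WI_gc D sp ℓ y r
  have hwP : WI D sp ℓ P := by rw [hP]; exact loc_energyT_WI_P D sp ℓ y r
  have hwQ : ∀ v, WI D sp ℓ (Q v) := by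
    intro v; rw [hQ]; exact loc_energyT_WI_Q D sp ℓ y r v
  have hwG : ∀ v, WI D sp ℓ (fun x => g x * (1 + near2 v x)) := by
    intro v; rw [hg]; exact loc_energyT_WI_G D sp ℓ y r v
  have hvbc := Pool.Agent.Helper780_CP.RVB.vb_props.1 ℓ hℓ
  obtain ⟨-, Cv, hCv, hvb⟩ := Pool.Agent.Helper780_CP.RVB.vb_props
  have hvb0 : ∀ z, 0 ≤ vb ℓ z := fun z => (hvb ℓ z hℓ).1
  have hphc : Continuous (phb D sp ℓ (I := I)) := by
    unfold phb
    exact continuous_finsetSum _ fun i _ =>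
      continuous_const.mul (hvbc.comp (continuous_apply i))
  have hwF : WI D sp ℓ F := by
    rw [hF]
    refine le_WI_cont D sp ℓ _ (hphc.mul ?_)
    exact continuous_finsetSum _ fun i _ => continuous_const.mul (loc_energyT_W_cont y r i)
  -- numbers
  obtain ⟨Kc, hKc⟩ : ∃ Kc, Kc = ∑ j, p j * kcy D sp y r (ψ j) := ⟨_, rfl⟩
  obtain ⟨Kl, hKl⟩ : ∃ Kl, Kl = ∑ j, p j * klc D sp y r (ψ j) := ⟨_, rfl⟩
  obtain ⟨n1, hn1⟩ : ∃ n1, n1 = wx D p ψ (nb y (2 * r)) := ⟨_, rfl⟩
  obtain ⟨n2, hn2⟩ : ∃ n2, n2 = wx D p ψ (fun x => nb y (2 * r) x ^ ((4 : ℝ) / 3)) := ⟨_, rfl⟩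
  obtain ⟨Ls, hLs⟩ : ∃ Ls, Ls = ∑ j, p j * (wm D g (ψ j) * Real.log (p j)) := ⟨_, rfl⟩
  have hKd : ∑ j, p j * (kcy D sp y r (ψ j) - klc D sp y r (ψ j)) = Kc - Kl := by
    rw [hKc, hKl, ← Finset.sum_sub_distrib]
    refine Finset.sum_congr rfl fun j _ => ?_
    ring
  have hKl0 : 0 ≤ Kl := by
    rw [hKl]
    exact Finset.sum_nonneg fun j _ => mul_nonneg (hp j) (loc_energyT_klc0 D sp hD y r (ψ j))
  rw [← hg, ← hKc, ← hKl, ← hn1, ← hLs] at hU'
  have hTv : ∀ v ∈ icb ℓ, 3 / 8 * Kl + wx D p ψ P - (C1 + C2) / r ^ 2 * n1 - T * (13 * n2) - C1 -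
      C2 * (1 + (Fintype.card I : ℝ)) * η ≤
      wx D p ψ (fun x => Q v x + C1 * (g x * (1 + near2 v x))) := by
    intro v hv
    have h := hR v hv
    rw [hKd, ← hKl, ← hg, ← hn1, ← hn2, ← hLs] at h
    have e1 : (fun x => g x * coul D sp x - loc_energyT_P D sp y r x +
            loc_energyT_Q D sp y r v x) =
        fun x => (g x * coul D sp x + (-1) * P x) + Q v x := by
      rw [hP, hQ]
      funext x; ring
    rw [e1, loc_energyT_wx_add D sp ℓ p ψ hψ (WI_add D sp ℓ hwgc (WI_smul D sp ℓ hwP (-1))) (hwQ v),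
      loc_energyT_wx_add D sp ℓ p ψ hψ hwgc (WI_smul D sp ℓ hwP (-1)), loc_energyT_wx_smul] at h
    rw [loc_energyT_wx_add D sp ℓ p ψ hψ (hwQ v) (WI_smul D sp ℓ (hwG v) C1), loc_energyT_wx_smul]
    have e2 : (C1 + C2) / r ^ 2 * n1 = C1 / r ^ 2 * n1 + C2 / r ^ 2 * n1 := by ring
    rw [e2]
    linarith
  have hWab := loc_energyT_W_abs y r (I := I)
  have hWim : ∀ i : I, Measurable (fun q : (I → E3) × E3 => cy y r (q.1 i) ^ 2) := fun i =>
    (loc_energyT_W_cont y r i).measurable.comp measurable_fst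
  have hAm : Measurable (fun q : (I → E3) × E3 => (fun v x => Q v x +
      C1 * (g x * (1 + near2 v x))) q.2 q.1) := by
    simp only
    refine Measurable.add ?_ ?_
    · rw [hQ]
      unfold loc_energyT_Q
      refine Finset.measurable_fun_sum _ fun i _ => (hWim i).mul (Measurable.const_mul ?_ _)
      refine Finset.measurable_fun_sum _ fun j _ => ?_
      by_cases hij : i = j
      · simp only [if_pos hij]
        exact measurable_const
      · simp only [if_neg hij]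
        have h1 : Measurable (fun q : (I → E3) × E3 => q.1 j) :=
          (measurable_pi_apply j).comp measurable_fst
        have h2 : Measurable (fun q : (I → E3) × E3 => ‖q.1 j - q.2‖) :=
          (h1.sub measurable_snd).norm
        exact measurable_const.div h2
    · refine Measurable.const_mul ?_ _
      exact (hgc.measurable.comp measurable_fst).mul (measurable_const.add near2_meas2)
  obtain ⟨Y, hY⟩ : ∃ Y, Y = ∑ i, |D.charge (sp i)| := ⟨_, rfl⟩
  have hY0 : 0 ≤ Y := by rw [hY]; exact Finset.sum_nonneg fun i _ => abs_nonneg _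
  have hQab : ∀ v x, |Q v x| ≤ Y * (Y * (1 + ∑ i, kk (x i - v))) := by
    intro v x
    have hs0 : 0 ≤ 1 + ∑ i, kk (x i - v) := by
      have : 0 ≤ ∑ i, kk (x i - v) := Finset.sum_nonneg fun i _ => kk_nonneg _
      linarith
    have hin : ∀ i, |∑ j, if i = j then 0 else D.charge (sp j) / ‖x j - v‖| ≤
        Y * (1 + ∑ i, kk (x i - v)) := by
      intro i
      refine (Finset.abs_sum_le_sum_abs _ _).trans ?_
      rw [hY, Finset.sum_mul]
      refine Finset.sum_le_sum fun j _ => ?_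
      have h1 : 1 / ‖x j - v‖ ≤ 1 + ∑ i, kk (x i - v) := by
        have h2 := le_inv_kk (x j) v
        have h3 := Finset.single_le_sum (f := fun i => kk (x i - v)) (fun j _ => kk_nonneg _)
          (Finset.mem_univ j)
        linarith
      split_ifs
      · rw [abs_zero]
        exact mul_nonneg (abs_nonneg _) hs0
      · rw [abs_div, abs_of_nonneg (norm_nonneg _), div_eq_mul_one_div]
        exact mul_le_mul_of_nonneg_left h1 (abs_nonneg _)
    rw [hQ]
    unfold loc_energyT_Q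
    simp only
    refine (Finset.abs_sum_le_sum_abs _ _).trans ?_
    nth_rewrite 1 [hY]
    rw [Finset.sum_mul]
    refine Finset.sum_le_sum fun i _ => ?_
    rw [abs_mul, abs_mul]
    calc |cy y r (x i) ^ 2| * (|D.charge (sp i)| * |∑ j, if i = j then 0 else
          D.charge (sp j) / ‖x j - v‖|)
        ≤ 1 * (|D.charge (sp i)| * (Y * (1 + ∑ i, kk (x i - v)))) :=
          mul_le_mul (hWab i x) (mul_le_mul_of_nonneg_left (hin i) (abs_nonneg _))
            (by positivity) zero_le_one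
      _ = _ := by rw [one_mul]
  have hcard0 : (0 : ℝ) ≤ (Fintype.card I : ℝ) := Nat.cast_nonneg _
  have hAM : ∀ v x, |Q v x + C1 * (g x * (1 + near2 v x))| ≤
      (Y * Y + C1 * ((Fintype.card I : ℝ) * 2)) * (1 + ∑ i, kk (x i - v)) := by
    intro v x
    have hs0 : 0 ≤ ∑ i, kk (x i - v) := Finset.sum_nonneg fun i _ => kk_nonneg _
    have h1 := hQab v x
    have h2 := near2_le_kk v x
    have h3 := near2_nonneg v x
    have h4 : |C1 * (g x * (1 + near2 v x))| ≤
        C1 * ((Fintype.card I : ℝ) * (2 * (1 + ∑ i, kk (x i - v)))) := by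
      rw [abs_of_nonneg (mul_nonneg hC1.le (mul_nonneg (hg0 x) (by linarith)))]
      refine mul_le_mul_of_nonneg_left ?_ hC1.le
      exact mul_le_mul (hgN x) (by linarith) (by linarith) hcard0
    calc |Q v x + C1 * (g x * (1 + near2 v x))| ≤ |Q v x| + |C1 * (g x * (1 + near2 v x))| :=
          abs_add_le _ _
      _ ≤ Y * (Y * (1 + ∑ i, kk (x i - v))) +
          C1 * ((Fintype.card I : ℝ) * (2 * (1 + ∑ i, kk (x i - v)))) := add_le_add h1 h4
      _ = _ := by ring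
  have hwB : WI D sp ℓ (fun x => F x + C3 * g x) := WI_add D sp ℓ hwF (WI_smul D sp ℓ hwg C3)
  have hAB : ∀ x, ∫ v in icb ℓ, (fun v x => Q v x + C1 * (g x * (1 + near2 v x))) v x ≤
      ℓ ^ 3 / 8 * (F x + C3 * g x) := by
    intro x
    have hij : ∀ i j, IntegrableOn (fun v : E3 => if i = j then 0 else
        D.charge (sp j) / ‖x j - v‖) (icb ℓ) := by
      intro i j
      by_cases hij : i = j
      · simp only [if_pos hij]
        exact le_int_one ℓ hℓ 0
      · simp only [if_neg hij]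
        have := (le_int_inv ℓ hℓ (x j)).const_mul (D.charge (sp j))
        refine this.congr (Filter.Eventually.of_forall fun v => ?_)
        simp only
        rw [mul_one_div]
    have hQi : ∀ i, IntegrableOn (fun v : E3 => cy y r (x i) ^ 2 *
      (D.charge (sp i) * ∑ j, if i = j then 0 else D.charge (sp j) / ‖x j - v‖)) (icb ℓ) := by
      intro i
      exact ((integrable_finsetSum _ fun j _ => hij i j).const_mul _).const_mul _
    have hQint : IntegrableOn (fun v => Q v x) (icb ℓ) := by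
      rw [hQ]
      exact integrable_finsetSum _ fun i _ => hQi i
    obtain ⟨m1, m2⟩ := le_int_near ℓ hℓ x
    have hGint : IntegrableOn (fun v => C1 * (g x * (1 + near2 v x))) (icb ℓ) :=
      (m1.const_mul _).const_mul _
    simp only
    rw [integral_add hQint hGint, integral_const_mul, integral_const_mul]
    have hvbe : ∀ j, ∫ v in icb ℓ, D.charge (sp j) / ‖x j - v‖ =
        D.charge (sp j) * (ℓ ^ 3 / 8 * vb ℓ (x j)) := by
      intro j
      have : ∀ v, D.charge (sp j) / ‖x j - v‖ = D.charge (sp j) * (1 / ‖x j - v‖) := by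
        intro v; rw [mul_one_div]
      simp only [this]
      rw [integral_const_mul]
      unfold vb
      congr 1
      field_simp
    have hQe : ∫ v in icb ℓ, Q v x = ℓ ^ 3 / 8 * (F x -
        ∑ i, cy y r (x i) ^ 2 * (D.charge (sp i) ^ 2 * vb ℓ (x i))) := by
      rw [hQ]
      unfold loc_energyT_Q
      simp only
      rw [integral_finsetSum _ fun i _ => hQi i]
      have h1 : ∀ i, ∫ v in icb ℓ, cy y r (x i) ^ 2 *
          (D.charge (sp i) * ∑ j, if i = j then 0 else D.charge (sp j) / ‖x j - v‖) =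
          cy y r (x i) ^ 2 * (D.charge (sp i) * (ℓ ^ 3 / 8 * (phb D sp ℓ x -
            D.charge (sp i) * vb ℓ (x i)))) := by
        intro i
        rw [integral_const_mul, integral_const_mul,
          integral_finsetSum _ fun j _ => hij i j]
        congr 2
        have h2 : ∀ j, ∫ v in icb ℓ, (if i = j then 0 else D.charge (sp j) / ‖x j - v‖) =
            ℓ ^ 3 / 8 * (if i = j then 0 else D.charge (sp j) * vb ℓ (x j)) := by
          intro j
          split_ifs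
          · simp
          · rw [hvbe j]; ring
        simp only [h2]
        rw [← Finset.mul_sum, le_sum_ne]
        rfl
      simp only [h1]
      rw [hF]
      beta_reduce
      rw [Finset.mul_sum, ← Finset.sum_sub_distrib, Finset.mul_sum]
      refine Finset.sum_congr rfl fun i _ => ?_
      ring
    rw [hQe]
    have hs : 0 ≤ ∑ i, cy y r (x i) ^ 2 * (D.charge (sp i) ^ 2 * vb ℓ (x i)) :=
      Finset.sum_nonneg fun i _ => mul_nonneg (sq_nonneg _) (mul_nonneg (sq_nonneg _) (hvb0 _))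
    have hl3 : 0 < ℓ ^ 3 := by positivity
    rw [← hK] at m2
    have hKN : K * (Fintype.card I : ℝ) ≤ ℓ ^ 3 / 8 * (8 * ρ * K) := by
      have := mul_le_mul_of_nonneg_left hN hK0
      linarith
    have hn3 : C1 * (g x * ∫ v in icb ℓ, (1 + near2 v x)) ≤ ℓ ^ 3 / 8 * (C3 * g x) := by
      have h1 : g x * ∫ v in icb ℓ, (1 + near2 v x) ≤
          g x * (ℓ ^ 3 / 8 * (2 + 8 * ρ * K)) :=
        mul_le_mul_of_nonneg_left (by linarith) (hg0 x)
      calc C1 * (g x * ∫ v in icb ℓ, (1 + near2 v x)) ≤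
            C1 * (g x * (ℓ ^ 3 / 8 * (2 + 8 * ρ * K))) := mul_le_mul_of_nonneg_left h1 hC1.le
        _ = _ := by rw [hC3]; ring
    have hs2 : 0 ≤ ℓ ^ 3 / 8 * ∑ i, cy y r (x i) ^ 2 * (D.charge (sp i) ^ 2 * vb ℓ (x i)) :=
      mul_nonneg (by positivity) hs
    calc ℓ ^ 3 / 8 * (F x - ∑ i, cy y r (x i) ^ 2 * (D.charge (sp i) ^ 2 * vb ℓ (x i))) +
          C1 * (g x * ∫ v in icb ℓ, (1 + near2 v x))
        ≤ ℓ ^ 3 / 8 * (F x - ∑ i, cy y r (x i) ^ 2 * (D.charge (sp i) ^ 2 * vb ℓ (x i))) +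
          ℓ ^ 3 / 8 * (C3 * g x) := by linarith
      _ = ℓ ^ 3 / 8 * (F x + C3 * g x) -
          ℓ ^ 3 / 8 * ∑ i, cy y r (x i) ^ 2 * (D.charge (sp i) ^ 2 * vb ℓ (x i)) := by ring
      _ ≤ _ := by linarith
  have hT2 := loc_energyT_avg D sp ℓ hℓ p hp ψ hψ (fun v x => Q v x + C1 * (g x * (1 + near2 v x)))
    hAm (Y * Y + C1 * ((Fintype.card I : ℝ) * 2)) (by positivity) hAM _ hTv _ hwB hAB
  rw [loc_energyT_wx_add D sp ℓ p ψ hψ hwF (WI_smul D sp ℓ hwg C3), loc_energyT_wx_smul] at hT2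
  have hPF : wx D p ψ (fun x => P x - F x) = wx D p ψ P - wx D p ψ F := by
    have e1 : (fun x => P x - F x) = fun x => P x + (-1) * F x := by funext x; ring
    rw [e1, loc_energyT_wx_add D sp ℓ p ψ hψ hwP (WI_smul D sp ℓ hwF (-1)), loc_energyT_wx_smul]
    ring
  have hwnb := loc_energyT_WI_nb D sp ℓ y (2 * r)
  have hwnb2 := loc_energyT_WI_nb43 D sp ℓ y (2 * r)
  have hgnb : wx D p ψ g ≤ n1 := by
    rw [hn1]
    refine loc_energyT_wx_mono D sp ℓ p hp ψ hψ hwg hwnb fun x => ?_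
    rw [hg]
    exact loc_energyT_g_nb y hr x
  have hn12 : n1 ≤ n2 := by
    rw [hn1, hn2]
    exact loc_energyT_wx_mono D sp ℓ p hp ψ hψ hwnb hwnb2 fun x => loc_energyT_nb_le y _ x
  have hn10 : 0 ≤ n1 := by
    rw [hn1]
    exact loc_energyT_wx_nonneg D p hp ψ fun x => loc_energyT_nb0 y _ x
  have hn20 : 0 ≤ n2 := hn10.trans hn12
  rw [hPF, ← hKl, ← hn2]
  have hr2 : r ^ 2 ≤ 1 := pow_le_one₀ hr.le hr1
  have hr0 : 0 < r ^ 2 := by positivity
  have hinv : 1 ≤ 1 / r ^ 2 := by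
    rw [le_div_iff₀ hr0]; linarith
  obtain ⟨q, hq⟩ : ∃ q, q = 1 / r ^ 2 := ⟨_, rfl⟩
  rw [← hq] at hinv
  have e5 : (C3 + 2 * C1 + C2 + 13 * T) / r ^ 2 * (1 + n2) =
      (C3 + 2 * C1 + C2 + 13 * T) * (q * (1 + n2)) := by rw [hq]; ring
  have e6 : (C1 + C2) / r ^ 2 * n1 = (C1 + C2) * (q * n1) := by rw [hq]; ring
  rw [e6] at hT2
  rw [e5]
  have a1 : q * n1 ≤ q * (1 + n2) := mul_le_mul_of_nonneg_left (by linarith) (by linarith)
  have a2 : 1 + n2 ≤ q * (1 + n2) := le_mul_of_one_le_left (by linarith) hinv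
  have b1 : C3 * wx D p ψ g ≤ C3 * (q * (1 + n2)) :=
    mul_le_mul_of_nonneg_left (by linarith) hC30
  have b2 : (C1 + C2) * (q * n1) ≤ (C1 + C2) * (q * (1 + n2)) :=
    mul_le_mul_of_nonneg_left a1 (by linarith)
  have b3 : T * (13 * n2) ≤ 13 * T * (q * (1 + n2)) := by
    have := mul_le_mul_of_nonneg_left (show n2 ≤ q * (1 + n2) by linarith) (show 0 ≤ 13 * T by
      linarith)
    linarith
  have b4 : C1 ≤ C1 * (q * (1 + n2)) := by
    have := mul_le_mul_of_nonneg_left (show 1 ≤ q * (1 + n2) by linarith) hC1.le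
    linarith
  have b5 : C2 * (1 + (Fintype.card I : ℝ)) * η ≤
      (C3 + 2 * C1 + C2 + 13 * T) * (1 + (Fintype.card I : ℝ)) * η := by
    have h1 : 0 ≤ (1 + (Fintype.card I : ℝ)) * η := by positivity
    have h2 := mul_le_mul_of_nonneg_right (show C2 ≤ C3 + 2 * C1 + C2 + 13 * T by linarith) h1
    linarith
  linarith

end Pool.Agent.Helper780_CP.RH7
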