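import Pool.Agent.Helper780_CP.LLDefs2
import Pool.Agent.Helper780_CP.LPDefs
import Pool.Agent.Helper780_CP.RL1
import Pool.Agent.Helper780_CP.RG3
import Pool.Agent.Helper780_CP.RG4
import Pool.Agent.Helper780_CP.RG5

set_option autoImplicit false

open MeasureTheory
open scoped Topology

namespace Pool.Agent.Helper780_CP.RH8

open Pool.Agent.Helper780_CP
open Pool.Agent.Helper985.CP
open Pool.Agent.Helper780_CP.RG3 (fltB)
open Pool.Agent.Helper780_CP.RG4 (flt_levels)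
open Pool.Agent.Helper780_CP.RG5 (mix_enc)

open Pool.Agent.Helper780_CP Pool.Agent.Helper985.CP

/-- TARGET -/
theorem flt_mix {S : Type} [Fintype S] [DecidableEq S] (D : Species S) (hD : D.Valid)
    (hst : HStable D) (T V ρ : ℝ) (hT : 0 < T) (hV : 0 < V) (hρ : 0 < ρ) : ∃ C : ℝ, 0 < C ∧
    ∀ {I : Type} [Fintype I] [DecidableEq I] (sp : I → S) (ℓ : ℝ), 4 ≤ ℓ →
      ℓ ^ 3 ≤ V * (Fintype.card I : ℝ) → (Fintype.card I : ℝ) ≤ ρ * ℓ ^ 3 →
      (∑ i, D.charge (sp i) = 0) → ∀ η Z : ℝ, 0 ≤ η → η ≤ 1 → ∀ {k : ℕ} (p : Fin k → ℝ)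
      (ψ : Fin k → Wave D I), NE D sp ℓ T η Z p ψ →
      ∃ (D' : Species S) (Φ : Wave D' I), D'.charge = D.charge ∧ IsState D' sp ℓ Φ ∧
        nrm2 D' Φ = 1 ∧ (∀ W : (I → E3) → ℝ, wm D' W Φ = wx D p ψ W) ∧
        (∀ y, phim D' sp Φ y = ∑ j, p j * phim D sp (ψ j) y) ∧
        (∀ ω x, phi D' sp ω x = phi D sp ω x) ∧
        FLT D' sp ℓ (phb D sp ℓ) C η Φ := by
  obtain ⟨C, hC, H⟩ := fltB D hD hst T V ρ hT hV hρ
  obtain ⟨C₀, hC₀, H₀⟩ := flt_levels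
  refine ⟨C₀ * C, mul_pos hC₀ hC, ?_⟩
  intro I _ _ sp ℓ hℓ hvol hcard hneu η Z hη hη1 k p ψ hNE
  have hℓ0 : 0 < ℓ := by linarith
  have hI : Nonempty I := by
    by_contra hcon
    rw [not_nonempty_iff] at hcon
    have h1 : (Fintype.card I : ℝ) = 0 := by
      rw [Fintype.card_eq_zero, Nat.cast_zero]
    rw [h1, mul_zero] at hvol
    have h2 : 0 < ℓ ^ 3 := by positivity
    linarith
  obtain ⟨D', Φ, hch, -, -, hst', hW, hphi, hphim⟩ := mix_enc D sp ℓ p hNE.p0 ψ hNE.state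
  refine ⟨D', Φ, hch, hst', ?_, hW, hphim, hphi, ?_⟩
  · rw [← wm_one D' Φ, hW]
    unfold wx
    simp only [wm_one, hNE.nrm, mul_one]
    exact hNE.p1
  · intro r ω f B lam hr hr1 hlam hball hf hfs hfB
    have h1 := H₀ C hC D sp ℓ (phb D sp ℓ) (RL1.WI_phb D sp ℓ hℓ0) η hη hη1 p ψ hNE.p0 hNE.p1
      hNE.state hNE.nrm r ω hr hr1
      (fun f B hf hfs hfB => H sp ℓ hℓ hvol hcard hneu η Z hη p ψ hNE r ω f B hr hr1 hball
        hf hfs hfB) f B lam hlam hf hfs hfB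
    simp only [hphi, hW]
    exact h1

end Pool.Agent.Helper780_CP.RH8
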