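import Pool.Agent.Helper780_CP.LLDefs2
import Pool.Agent.Helper780_CP.LPDefs
import Pool.Agent.Helper780_CP.ROUT
import Pool.Agent.Helper780_CP.RH10
import Pool.Agent.Helper780_CP.RH8

set_option autoImplicit false

open MeasureTheory
open scoped Topology

namespace Pool.Agent.Helper780_CP.RH11

open Pool.Agent.Helper780_CP
open Pool.Agent.Helper985.CP
open Pool.Agent.Helper780_CP.RH10 (lawT)
open Pool.Agent.Helper780_CP.RH8 (flt_mix)

open Pool.Agent.Helper780_CP Pool.Agent.Helper985.CP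

open Pool.Agent.Helper780_CP.RWT (wt_facts)
open Pool.Agent.Helper780_CP.RNL (num_law)
open Pool.Agent.Helper780_CP.RHN (near2_local)
open Pool.Agent.Helper780_CP.ROUT (kkm_le phb_facts)

theorem psum_le {k : ℕ} (p a b : Fin k → ℝ) (hp : ∀ j, 0 ≤ p j) (h : ∀ j, a j ≤ b j) :
    ∑ j, p j * a j ≤ ∑ j, p j * b j :=
  Finset.sum_le_sum fun j _ => mul_le_mul_of_nonneg_left (h j) (hp j)

/-- TARGET -/
theorem interiorT {S : Type} [Fintype S] [DecidableEq S] (D : Species S) (hD : D.Valid)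
    (hst : HStable D) (hf : ∀ s, D.charge s < 0 → D.fermion s = true) (z cm K₁ C₁ : ℝ)
    (hcm : 0 < cm) (hz : ∀ s, cm ≤ |D.charge s| ∧ |D.charge s| ≤ z) (hK₁ : 0 < K₁) (hC₁ : 0 < C₁)
    (h : RB z K₁ C₁) (F : Finset E3) (hF : ∀ v : E3, ‖v‖ ≤ 12 → ∃ p ∈ F, ‖v - p‖ < 1 / 64)
    (hF2 : ∀ p ∈ F, ‖p‖ ≤ 12) (T V ρ : ℝ) (hT : 0 < T) (hV : 0 < V) (hρ : 0 < ρ)
    (a b l : E3 → ℝ) (hK : Ker a b l) :
    ∃ (C : ℝ) (M : ℕ), 0 < C ∧
    ∀ {I : Type} [Fintype I] [DecidableEq I] (sp : I → S) (ℓ : ℝ), 4 ≤ ℓ →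
      ℓ ^ 3 ≤ V * (Fintype.card I : ℝ) → (Fintype.card I : ℝ) ≤ ρ * ℓ ^ 3 →
      (∑ i, D.charge (sp i) = 0) → ∀ η Z : ℝ, 0 ≤ η →
      η * (1 + (Fintype.card I : ℝ)) ^ 2 ≤ 1 → ∀ {k : ℕ} (p : Fin k → ℝ)
      (ψ : Fin k → Wave D I), NE D sp ℓ T η Z p ψ →
      (∀ δ : ℝ, 0 < δ → δ ≤ 1 → ∀ y : E3, Metric.closedBall y δ ⊆ cube ℓ →
        |(∑ j, p j * phim D sp (ψ j) y) - wx D p ψ (phb D sp ℓ)| ≤ C / δ ^ M) ∧
      (∀ y : E3, Metric.closedBall y 2 ⊆ cube ℓ → ∑ j, p j * kkm D (ψ j) y ≤ C) := by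
  classical
  obtain ⟨CF, hCF, hFL⟩ := flt_mix D hD hst T V ρ hT hV hρ
  obtain ⟨CN, hCN, hN⟩ := near2_local D hD
  obtain ⟨CL, m, hCL, hL⟩ := lawT D hD hst hf z cm K₁ C₁ hcm hz hK₁ hC₁ h F hF hF2 T V ρ hT hV hρ
    a b l hK
  obtain ⟨CU, hCU, hU⟩ := num_law D hD hf z cm K₁ C₁ hcm hz hK₁ hC₁ h F hF
  obtain ⟨CK, hCK, hK1⟩ := kkm_le D hD
  -- constants
  let B1 : ℝ := CL / (1 / 8) ^ m
  let B2 : ℝ := CU * (1 + ∑ p ∈ F, CL / (1 / 48) ^ m)
  let A5 : ℝ := CK * (B1 + B2)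
  have hB1 : 0 < B1 := by positivity
  have hB2 : 0 < B2 := by positivity
  have hA5 : 0 < A5 := by positivity
  let A6 : ℝ := CF * (4 + CN * 512 ^ 2 * (1 + CU * (1 + CL * 16 ^ m) + CL * 512 ^ m))
  have hA6 : 0 < A6 := by positivity
  refine ⟨A6 + A5, m + 4, by positivity, ?_⟩
  intro I _ _ sp ℓ hℓ hVc hcard hneu η Z hη hη1 k p ψ hE
  have hp0 := hE.p0
  have hp1 := hE.p1
  have hst' := hE.state
  have hnr := hE.nrm
  have hℓ0 : 0 < ℓ := by linarith
  have hη2 : η ≤ 1 := by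
    have h1 : (1 : ℝ) ≤ (1 + (Fintype.card I : ℝ)) ^ 2 := by
      have : (0 : ℝ) ≤ Fintype.card I := by positivity
      nlinarith
    nlinarith
  obtain ⟨w1, w2, -⟩ := wt_facts D hD sp ℓ
  have hlaw : ∀ (y : E3) (r : ℝ), 0 < r → r ≤ 1 → Metric.closedBall y (16 * r) ⊆ cube ℓ →
      0 ≤ ∑ j, p j * MM D sp K₁ y r (ψ j) ∧ ∑ j, p j * MM D sp K₁ y r (ψ j) ≤ CL / r ^ m :=
    fun y r hr hr1 hb => hL sp ℓ hℓ hVc hcard hneu η Z hη hη1 p ψ hE y r hr hr1 hb
  have hnum := fun j => hU sp ℓ (ψ j) (hst' j) (hnr j)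
  -- numbers of particles
  have hnbint : ∀ (y : E3) (R : ℝ) (x : I → E3), nb y R x ≤ nb y R x ^ ((5 : ℝ) / 3) := by
    intro y R x
    have e : nb y R x = (((Finset.univ.filter fun i => ‖x i - y‖ ≤ R).card : ℕ) : ℝ) := by
      unfold nb
      rw [Finset.sum_boole]
    rw [e]
    rcases Nat.eq_zero_or_pos (Finset.univ.filter fun i => ‖x i - y‖ ≤ R).card with h0 | h0
    · rw [h0]
      simp
    · exact Real.self_le_rpow_of_one_le (by exact_mod_cast h0) (by norm_num)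
  have hWnb : ∀ (y : E3) (R : ℝ), WI D sp ℓ (fun x => nb y R x) := by
    intro y R
    have h1 := w2 y R 1 (by norm_num)
    simpa only [Real.rpow_one] using h1
  have hnb : ∀ (y : E3) (R : ℝ) (j : Fin k), wm D (nb y R) (ψ j) ≤
      wm D (fun x => nb y R x ^ ((5 : ℝ) / 3)) (ψ j) := fun y R j =>
    wm_mono D sp ℓ (hWnb y R) (w2 y R _ (by norm_num)) (ψ j) (hst' j)
      (Filter.Eventually.of_forall (hnbint y R))
  have hkM : ∀ (y : E3) (r : ℝ), 0 < r → r ≤ 1 →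
      ∑ j, p j * klc D sp y r (ψ j) ≤ ∑ j, p j * MM D sp K₁ y r (ψ j) := by
    intro y r hr hr1
    refine psum_le p _ _ hp0 fun j => ?_
    have h1 : MM D sp K₁ y r (ψ j) = klc D sp y r (ψ j) + wm D (mx D sp K₁ y r) (ψ j) := rfl
    have h2 := (hnum j y r hr hr1).2.1
    linarith
  constructor
  · intro δ hδ hδ1 y hy
    -- first part
    let r₀ : ℝ := δ / 512
    have hr₀ : 0 < r₀ := by positivity
    let A1 : ℝ := CU * (1 + CL / (δ / 16) ^ m)
    let A2 : ℝ := CL / r₀ ^ m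
    let A3 : ℝ := CN / r₀ ^ 2 * (1 + A1 + A2)
    let A4 : ℝ := CF / δ ^ 2 * (4 + A3)
    have hA1 : 0 < A1 := by positivity
    have hA2 : 0 < A2 := by positivity
    have hA3 : 0 < A3 := by positivity
    have hA4 : 0 < A4 := by positivity
    have hA46 : A4 ≤ A6 / δ ^ (m + 4) := by
      have hdm : (0 : ℝ) < δ ^ m := by positivity
      have hdm1 : δ ^ m ≤ 1 := pow_le_one₀ hδ.le hδ1
      have q1 : (1 : ℝ) ≤ 1 / δ ^ m := by rw [le_div_iff₀ hdm, one_mul]; exact hdm1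
      have q2 : (1 : ℝ) ≤ 1 / δ ^ (m + 2) := by
        rw [le_div_iff₀ (by positivity), one_mul]; exact pow_le_one₀ hδ.le hδ1
      have q3 : A1 ≤ CU * (1 + CL * 16 ^ m) * (1 / δ ^ m) := by
        have e : CL / (δ / 16) ^ m = CL * 16 ^ m * (1 / δ ^ m) := by
          rw [div_pow]; field_simp
        simp only [A1]
        rw [e]
        have : CU * 1 ≤ CU * (1 / δ ^ m) := mul_le_mul_of_nonneg_left q1 hCU.le
        nlinarith
      have q4 : A2 = CL * 512 ^ m * (1 / δ ^ m) := by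
        simp only [A2, r₀]
        rw [div_pow]; field_simp
      have q5 : A3 ≤ CN * 512 ^ 2 * (1 + CU * (1 + CL * 16 ^ m) + CL * 512 ^ m) *
          (1 / δ ^ (m + 2)) := by
        have e1 : CN / r₀ ^ 2 = CN * 512 ^ 2 * (1 / δ ^ 2) := by
          simp only [r₀]
          rw [div_pow]; field_simp
        have e2 : (1 : ℝ) / δ ^ (m + 2) = 1 / δ ^ 2 * (1 / δ ^ m) := by
          rw [pow_add]; field_simp
        simp only [A3]
        rw [e1, e2]
        have e3 : 1 + A1 + A2 ≤ (1 + CU * (1 + CL * 16 ^ m) + CL * 512 ^ m) * (1 / δ ^ m) := by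
          rw [q4]
          nlinarith
        calc CN * 512 ^ 2 * (1 / δ ^ 2) * (1 + A1 + A2)
            ≤ CN * 512 ^ 2 * (1 / δ ^ 2) * ((1 + CU * (1 + CL * 16 ^ m) + CL * 512 ^ m) *
              (1 / δ ^ m)) := mul_le_mul_of_nonneg_left e3 (by positivity)
          _ = _ := by ring
      have e4 : A6 / δ ^ (m + 4) = CF * (1 / δ ^ 2) * ((4 + CN * 512 ^ 2 *
          (1 + CU * (1 + CL * 16 ^ m) + CL * 512 ^ m)) * (1 / δ ^ (m + 2))) := by
        have : δ ^ (m + 4) = δ ^ 2 * δ ^ (m + 2) := by rw [← pow_add]; congr 1; ring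
        simp only [A6]
        rw [this]
        field_simp
      rw [e4]
      simp only [A4]
      have e5 : CF / δ ^ 2 = CF * (1 / δ ^ 2) := by ring
      rw [e5]
      refine mul_le_mul_of_nonneg_left ?_ (by positivity)
      nlinarith
    have h16 : Metric.closedBall y (16 * (δ / 16)) ⊆ cube ℓ := by
      rw [show 16 * (δ / 16) = δ by ring]
      exact hy
    have h16' : Metric.closedBall y (16 * r₀) ⊆ cube ℓ :=
      (Metric.closedBall_subset_closedBall (by simp only [r₀]; linarith)).trans hy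
    have hM1 := hlaw y (δ / 16) (by positivity) (by linarith) h16
    have hM2 := hlaw y r₀ hr₀ (by simp only [r₀]; linarith) h16'
    have hk : ∑ j, p j * klc D sp y r₀ (ψ j) ≤ A2 :=
      (hkM y r₀ hr₀ (by simp only [r₀]; linarith)).trans hM2.2
    have hnn : ∑ j, p j * wm D (nb y (2 * r₀)) (ψ j) ≤ A1 := by
      have h1 : ∑ j, p j * wm D (nb y (2 * r₀)) (ψ j) ≤
          ∑ j, p j * (CU * (1 + MM D sp K₁ y (δ / 16) (ψ j))) := by
        refine psum_le p _ _ hp0 fun j => ?_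
        refine (hnb y (2 * r₀) j).trans ?_
        have e : 2 * r₀ = δ / 16 / 16 := by simp only [r₀]; ring
        rw [e]
        exact (hnum j y (δ / 16) (by positivity) (by linarith)).2.2.2.1
      have h2 : ∑ j, p j * (CU * (1 + MM D sp K₁ y (δ / 16) (ψ j))) =
          CU * (∑ j, p j + ∑ j, p j * MM D sp K₁ y (δ / 16) (ψ j)) := by
        rw [← Finset.sum_add_distrib, Finset.mul_sum]
        exact Finset.sum_congr rfl fun j _ => by ring
      rw [h2, hp1] at h1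
      refine h1.trans ?_
      simp only [A1]
      gcongr
      exact hM1.2
    have hnear : ∑ j, p j * wm D (near2 y) (ψ j) ≤ A3 := by
      have h1 : ∑ j, p j * wm D (near2 y) (ψ j) ≤
          ∑ j, p j * (CN / r₀ ^ 2 * (1 + wm D (nb y (2 * r₀)) (ψ j) + klc D sp y r₀ (ψ j))) := by
        refine psum_le p _ _ hp0 fun j => ?_
        have h2 := hN sp ℓ (ψ j) (hst' j) y r₀ hr₀ (by simp only [r₀]; linarith)
        rw [hnr j] at h2
        exact h2
      have h2 : ∑ j, p j * (CN / r₀ ^ 2 * (1 + wm D (nb y (2 * r₀)) (ψ j) +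
          klc D sp y r₀ (ψ j))) =
          CN / r₀ ^ 2 * (∑ j, p j + ∑ j, p j * wm D (nb y (2 * r₀)) (ψ j) +
            ∑ j, p j * klc D sp y r₀ (ψ j)) := by
        rw [← Finset.sum_add_distrib, ← Finset.sum_add_distrib, Finset.mul_sum]
        exact Finset.sum_congr rfl fun j _ => by ring
      rw [h2, hp1] at h1
      refine h1.trans ?_
      simp only [A3]
      gcongr
    obtain ⟨D', Φ, -, -, -, hmix, -, hphi, hflt⟩ := hFL sp ℓ hℓ hVc hcard hneu η Z hη hη2 p ψ hE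
    have hfl := hflt δ y (fun _ => 1) 1 1 hδ hδ1 one_pos hy contDiff_const
      (fun i j x _ => rfl) (fun x => by simp)
    obtain ⟨hpm, B, hpb⟩ := phb_facts D sp ℓ hℓ0
    have hWp : WI D sp ℓ (phb D sp ℓ) := w1 _ hpm B hpb
    have hWphi : WI D sp ℓ (phi D sp y) := WI_phi D sp ℓ y
    have e1 : ∀ j, wm D (fun x => (1 : ℝ) ^ 2 * (phi D' sp y x - phb D sp ℓ x)) (ψ j) =
        phim D sp (ψ j) y - wm D (phb D sp ℓ) (ψ j) := by
      intro j
      have h1 : (fun x : I → E3 => (1 : ℝ) ^ 2 * (phi D' sp y x - phb D sp ℓ x)) =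
          fun x => phi D sp y x + (-1) * phb D sp ℓ x := by
        funext x; rw [hphi]; ring
      rw [h1, wm_add D sp ℓ hWphi (WI_smul D sp ℓ hWp (-1)) (ψ j) (hst' j), wm_smul]
      have h2 : wm D (phi D sp y) (ψ j) = phim D sp (ψ j) y := rfl
      rw [h2]
      ring
    have e2 : ∀ j, wm D (fun x : I → E3 => (1 : ℝ) ^ 2 * (1 + near2 y x)) (ψ j) =
        1 + wm D (near2 y) (ψ j) := by
      intro j
      have h1 : (fun x : I → E3 => (1 : ℝ) ^ 2 * (1 + near2 y x)) =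
          fun x => (fun _ => (1 : ℝ)) x + near2 y x := by
        funext x; ring
      rw [h1, wm_add D sp ℓ (WI_const D sp ℓ 1) (WI_near2 D sp ℓ y) (ψ j) (hst' j), wm_one,
        hnr j]
    have e3 : ∀ j, wm D (gr (fun _ : I → E3 => (1 : ℝ))) (ψ j) = 0 := by
      intro j
      have h1 : gr (fun _ : I → E3 => (1 : ℝ)) = fun _ => 0 := by
        funext x
        unfold gr
        simp
      rw [h1]
      unfold wm
      simp
    have e4 : ∀ j, wm D (fun _ : I → E3 => (1 : ℝ) ^ 2 * ((1 : ℝ) ^ 2 / 1) ^ ((1 : ℝ) / 4))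
        (ψ j) = 1 := by
      intro j
      have h1 : (fun _ : I → E3 => (1 : ℝ) ^ 2 * ((1 : ℝ) ^ 2 / 1) ^ ((1 : ℝ) / 4)) =
          fun _ => (1 : ℝ) := by
        funext x
        norm_num
      rw [h1, wm_one, hnr j]
    have g1 : wx D p ψ (fun x => (1 : ℝ) ^ 2 * (phi D' sp y x - phb D sp ℓ x)) =
        (∑ j, p j * phim D sp (ψ j) y) - wx D p ψ (phb D sp ℓ) := by
      unfold wx
      simp only [e1]
      rw [← Finset.sum_sub_distrib]
      exact Finset.sum_congr rfl fun j _ => by ring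
    have g2 : wx D p ψ (fun x : I → E3 => (1 : ℝ) ^ 2 * (1 + near2 y x)) =
        1 + ∑ j, p j * wm D (near2 y) (ψ j) := by
      unfold wx
      simp only [e2]
      rw [← hp1, ← Finset.sum_add_distrib]
      exact Finset.sum_congr rfl fun j _ => by rw [hp1]; ring
    have g3 : wx D p ψ (gr (fun _ : I → E3 => (1 : ℝ))) = 0 := by
      unfold wx
      simp only [e3, mul_zero, Finset.sum_const_zero]
    have g4 : wx D p ψ (fun _ : I → E3 => (1 : ℝ) ^ 2 * ((1 : ℝ) ^ 2 / 1) ^ ((1 : ℝ) / 4))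
        = 1 := by
      unfold wx
      simp only [e4, mul_one, hp1]
    rw [hmix, hmix, hmix, hmix, g1, g2, g3, g4] at hfl
    refine hfl.trans ?_
    have h5 : CF / δ ^ 2 * (1 + ∑ j, p j * wm D (near2 y) (ψ j) + 0 + 1 + 1 + 1 ^ 2 * η) ≤
        A4 := by
      have h6 : 1 + ∑ j, p j * wm D (near2 y) (ψ j) + 0 + 1 + 1 + 1 ^ 2 * η ≤ 4 + A3 := by
        linarith
      exact mul_le_mul_of_nonneg_left h6 (by positivity)
    have h7 : A6 / δ ^ (m + 4) ≤ (A6 + A5) / δ ^ (m + 4) :=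
      div_le_div_of_nonneg_right (by linarith) (by positivity)
    linarith
  · intro y hy
    have h2 : Metric.closedBall y (16 * (1 / 8)) ⊆ cube ℓ := by
      norm_num
      exact hy
    have hM1 := hlaw y (1 / 8) (by norm_num) (by norm_num) h2
    have hk : ∑ j, p j * klc D sp y (1 / 8) (ψ j) ≤ B1 :=
      (hkM y (1 / 8) (by norm_num) (by norm_num)).trans hM1.2
    have hnn : ∑ j, p j * wm D (nb y 1) (ψ j) ≤ B2 := by
      have h1 : ∑ j, p j * wm D (nb y 1) (ψ j) ≤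
          ∑ j, p j * (CU * (1 + ∑ q ∈ F, MM D sp K₁ (y + (1 / 12 : ℝ) • q) (1 / 12 / 4)
            (ψ j))) := by
        refine psum_le p _ _ hp0 fun j => ?_
        have hn2 := (hnum j y (1 / 12) (by norm_num) (by norm_num)).2.2.2.2.1
        refine (hnb y 1 j).trans ?_
        have e : (12 : ℝ) * (1 / 12) = 1 := by norm_num
        rw [e] at hn2
        exact hn2
      have h3 : ∑ j, p j * (CU * (1 + ∑ q ∈ F, MM D sp K₁ (y + (1 / 12 : ℝ) • q) (1 / 12 / 4)
            (ψ j))) = CU * (∑ j, p j + ∑ q ∈ F, ∑ j, p j *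
              MM D sp K₁ (y + (1 / 12 : ℝ) • q) (1 / 12 / 4) (ψ j)) := by
        rw [Finset.sum_comm (s := F), ← Finset.sum_add_distrib, Finset.mul_sum]
        refine Finset.sum_congr rfl fun j _ => ?_
        rw [← Finset.mul_sum]
        ring
      rw [h3, hp1] at h1
      refine h1.trans ?_
      simp only [B2]
      gcongr with q hq
      have e2 : (1 : ℝ) / 12 / 4 = 1 / 48 := by norm_num
      rw [e2]
      refine (hlaw _ (1 / 48) (by norm_num) (by norm_num) ?_).2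
      refine Set.Subset.trans (Metric.closedBall_subset_closedBall' ?_) hy
      rw [dist_eq_norm, add_sub_cancel_left, norm_smul, Real.norm_of_nonneg (by norm_num)]
      have := hF2 q hq
      linarith
    have h4 : ∑ j, p j * kkm D (ψ j) y ≤
        ∑ j, p j * (CK * (klc D sp y (1 / 8) (ψ j) + wm D (nb y 1) (ψ j))) :=
      psum_le p _ _ hp0 fun j => hK1 sp ℓ (ψ j) (hst' j) y
    have h5 : ∑ j, p j * (CK * (klc D sp y (1 / 8) (ψ j) + wm D (nb y 1) (ψ j))) =
        CK * (∑ j, p j * klc D sp y (1 / 8) (ψ j) + ∑ j, p j * wm D (nb y 1) (ψ j)) := by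
      rw [← Finset.sum_add_distrib, Finset.mul_sum]
      exact Finset.sum_congr rfl fun j _ => by ring
    rw [h5] at h4
    refine h4.trans ?_
    have h6 : CK * (∑ j, p j * klc D sp y (1 / 8) (ψ j) + ∑ j, p j * wm D (nb y 1) (ψ j)) ≤
        A5 := by
      simp only [A5]
      gcongr
    linarith

end Pool.Agent.Helper780_CP.RH11
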