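import Pool.Agent.Helper780_CP.Split
import Pool.Agent.Helper780_CP.Cut
import Pool.Agent.Helper780_CP.Newt

set_option autoImplicit false

open MeasureTheory
open scoped Topology

namespace Pool.Agent.Helper780_CP

open Pool.Agent.Helper985.CP

section

variable {I : Type} [Fintype I] [DecidableEq I]

/-- products of sines -/
noncomputable def hS (θ : ℕ → (I → E3) → ℝ) (K : ℕ) (x : I → E3) : ℝ :=
  ∏ j ∈ Finset.range K, Real.sin (θ j x)

/-- the partition functions at scale `k` -/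
noncomputable def gS (θ : ℕ → (I → E3) → ℝ) (k : ℕ) (x : I → E3) : ℝ :=
  Real.cos (θ k x) * hS θ k x

omit [Fintype I] [DecidableEq I] in
theorem hS_succ (θ : ℕ → (I → E3) → ℝ) (K : ℕ) (x : I → E3) :
    hS θ (K + 1) x = Real.sin (θ K x) * hS θ K x := by
  unfold hS
  rw [Finset.prod_range_succ, mul_comm]

omit [Fintype I] [DecidableEq I] in
theorem sum_sq (θ : ℕ → (I → E3) → ℝ) (K : ℕ) (x : I → E3) :
    ∑ k ∈ Finset.range K, gS θ k x ^ 2 + hS θ K x ^ 2 = 1 := by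
  induction K with
  | zero => simp [hS]
  | succ K ih =>
    rw [Finset.sum_range_succ, hS_succ]
    have : gS θ K x ^ 2 + (Real.sin (θ K x) * hS θ K x) ^ 2 = hS θ K x ^ 2 := by
      unfold gS
      have := Real.sin_sq_add_cos_sq (θ K x)
      linear_combination (hS θ K x ^ 2) * this
    linarith

omit [Fintype I] [DecidableEq I] in
theorem hS_sq_le (θ : ℕ → (I → E3) → ℝ) (K : ℕ) (x : I → E3) : hS θ K x ^ 2 ≤ 1 := by
  have h := sum_sq θ K x
  have h2 : 0 ≤ ∑ k ∈ Finset.range K, gS θ k x ^ 2 := Finset.sum_nonneg fun k _ => sq_nonneg _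
  linarith

omit [Fintype I] [DecidableEq I] in
theorem sum_gS_le (θ : ℕ → (I → E3) → ℝ) (K : ℕ) (x : I → E3) :
    ∑ k ∈ Finset.range K, gS θ k x ^ 2 ≤ 1 := by
  have h := sum_sq θ K x
  nlinarith [sq_nonneg (hS θ K x)]

omit [Fintype I] [DecidableEq I] in
theorem gS_sq_le (θ : ℕ → (I → E3) → ℝ) (k : ℕ) (x : I → E3) : gS θ k x ^ 2 ≤ 1 := by
  have h := sum_gS_le θ (k + 1) x
  rw [Finset.sum_range_succ] at h
  have h2 : 0 ≤ ∑ j ∈ Finset.range k, gS θ j x ^ 2 := Finset.sum_nonneg fun k _ => sq_nonneg _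
  linarith

omit [DecidableEq I] in
theorem hS_smooth (θ : ℕ → (I → E3) → ℝ) (h : ∀ k, ContDiff ℝ SM (θ k)) (K : ℕ) :
    ContDiff ℝ SM (hS θ K) := by
  unfold hS
  exact contDiff_prod fun j _ => Real.contDiff_sin.comp (h j)

omit [DecidableEq I] in
theorem gS_smooth (θ : ℕ → (I → E3) → ℝ) (h : ∀ k, ContDiff ℝ SM (θ k)) (K : ℕ) :
    ContDiff ℝ SM (gS θ K) :=
  (Real.contDiff_cos.comp (h K)).mul (hS_smooth θ h K)

omit [Fintype I] in
theorem hS_symm (θ : ℕ → (I → E3) → ℝ)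
    (h : ∀ k i j x, θ k (fun l => x (Equiv.swap i j l)) = θ k x) (K : ℕ) (i j : I)
    (x : I → E3) : hS θ K (fun l => x (Equiv.swap i j l)) = hS θ K x := by
  unfold hS
  exact Finset.prod_congr rfl fun k _ => by rw [h]

omit [Fintype I] in
theorem gS_symm (θ : ℕ → (I → E3) → ℝ)
    (h : ∀ k i j x, θ k (fun l => x (Equiv.swap i j l)) = θ k x) (K : ℕ) (i j : I)
    (x : I → E3) : gS θ K (fun l => x (Equiv.swap i j l)) = gS θ K x := by
  unfold gS
  rw [hS_symm θ h, h]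

end

section

variable {S : Type} (D : Species S) {I : Type} [Fintype I] [DecidableEq I] (sp : I → S)

theorem mulW_state (ℓ : ℝ) (Ψ : Wave D I) (hΨ : IsState D sp ℓ Ψ) (f : (I → E3) → ℝ)
    (hf : ContDiff ℝ SM f) (hs : ∀ i j x, f (fun k => x (Equiv.swap i j k)) = f x) :
    IsState D sp ℓ (mulW D f Ψ) := ims_state D sp ℓ Ψ hΨ f hf hs

omit [Fintype I] [DecidableEq I] in
theorem mulW_norm (f : (I → E3) → ℝ) (Ψ : Wave D I) (τ : I → Fin D.g) (x : I → E3) :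
    ‖mulW D f Ψ τ x‖ ^ 2 = f x ^ 2 * ‖Ψ τ x‖ ^ 2 := by
  unfold mulW
  rw [norm_mul, mul_pow, Complex.norm_real, Real.norm_eq_abs, sq_abs]

theorem ms_qf (ℓ : ℝ) (a : I → ℝ) {W : (I → E3) → ℝ} (hW : WI D sp ℓ W) (Ψ : Wave D I)
    (hΨ : IsState D sp ℓ Ψ) (θ : ℕ → (I → E3) → ℝ) (hθ : ∀ k, ContDiff ℝ SM (θ k))
    (hs : ∀ k i j x, θ k (fun l => x (Equiv.swap i j l)) = θ k x) (K : ℕ) :
    ∑ k ∈ Finset.range K, qf D sp a W (mulW D (gS θ k) Ψ) + qf D sp a W (mulW D (hS θ K) Ψ) =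
      qf D sp a W Ψ + ∑ k ∈ Finset.range K, ∑ τ, ∫ x, (∑ i, a i *
        ((1 / (2 * D.mass (sp i))) * ∑ l : Fin 3,
        (fderiv ℝ (θ k) x (Pi.single i (EuclideanSpace.single l (1 : ℝ)))) ^ 2)) *
          ‖mulW D (hS θ k) Ψ τ x‖ ^ 2 := by
  induction K with
  | zero =>
    have : mulW D (hS θ 0) Ψ = Ψ := by
      funext τ x
      simp [mulW, hS]
    rw [this]
    simp
  | succ K ih =>
    rw [Finset.sum_range_succ, Finset.sum_range_succ]
    have h1 := qf_split D sp ℓ a hW (mulW D (hS θ K) Ψ)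
      (mulW_state D sp ℓ Ψ hΨ _ (hS_smooth θ hθ K) (hS_symm θ hs K)) (θ K) (hθ K) (hs K)
    have e1 : mulW D (fun x => Real.cos (θ K x)) (mulW D (hS θ K) Ψ) = mulW D (gS θ K) Ψ := by
      rw [mulW_mulW]
      rfl
    have e2 : mulW D (fun x => Real.sin (θ K x)) (mulW D (hS θ K) Ψ) =
        mulW D (hS θ (K + 1)) Ψ := by
      rw [mulW_mulW]
      congr 1
      funext x
      rw [hS_succ]
    rw [e1, e2] at h1
    linarith

/-- expectation of a weight -/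
noncomputable def wm (W : (I → E3) → ℝ) (Ψ : Wave D I) : ℝ := ∑ τ, ∫ x, W x * ‖Ψ τ x‖ ^ 2

theorem wm_one (Ψ : Wave D I) : wm D (fun _ => 1) Ψ = nrm2 D Ψ := by
  unfold wm nrm2
  simp

theorem wm_qf (W : (I → E3) → ℝ) (Ψ : Wave D I) :
    qf D sp (fun _ => 0) W Ψ = wm D W Ψ := by
  unfold qf wm
  simp

theorem wm_mono (ℓ : ℝ) {V W : (I → E3) → ℝ} (hV : WI D sp ℓ V) (hW : WI D sp ℓ W)
    (Ψ : Wave D I) (hΨ : IsState D sp ℓ Ψ) (h : ∀ᵐ x, V x ≤ W x) : wm D V Ψ ≤ wm D W Ψ := by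
  unfold wm
  refine Finset.sum_le_sum fun τ _ => ?_
  refine integral_mono_ae (hV Ψ hΨ τ) (hW Ψ hΨ τ) ?_
  filter_upwards [h] with x hx
  exact mul_le_mul_of_nonneg_right hx (sq_nonneg _)

theorem wm_add (ℓ : ℝ) {V W : (I → E3) → ℝ} (hV : WI D sp ℓ V) (hW : WI D sp ℓ W)
    (Ψ : Wave D I) (hΨ : IsState D sp ℓ Ψ) :
    wm D (fun x => V x + W x) Ψ = wm D V Ψ + wm D W Ψ := by
  unfold wm
  rw [← Finset.sum_add_distrib]
  refine Finset.sum_congr rfl fun τ _ => ?_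
  rw [← integral_add (hV Ψ hΨ τ) (hW Ψ hΨ τ)]
  refine integral_congr_ae (Filter.Eventually.of_forall fun x => ?_)
  simp only
  ring

theorem wm_smul (V : (I → E3) → ℝ) (c : ℝ) (Ψ : Wave D I) :
    wm D (fun x => c * V x) Ψ = c * wm D V Ψ := by
  unfold wm
  rw [Finset.mul_sum]
  refine Finset.sum_congr rfl fun τ _ => ?_
  rw [← integral_const_mul]
  refine integral_congr_ae (Filter.Eventually.of_forall fun x => ?_)
  simp only
  ring

omit [DecidableEq I] in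
/-- almost no configuration has a particle at `y` -/
theorem ae_ne (y : E3) : ∀ᵐ x : I → E3, ∀ i, x i ≠ y := by
  rw [ae_all_iff]
  intro i
  have h1 : ∀ᵐ z : E3, z ≠ y := by
    rw [ae_iff]
    simp
  exact (Measure.quasiMeasurePreserving_eval (fun _ : I => (volume : Measure E3)) i).ae h1

omit [DecidableEq I] in
theorem geo4 (K : ℕ) (p : ℕ → Prop) [DecidablePred p] (M : ℝ) (hM0 : 0 ≤ M)
    (hM : ∀ k, p k → (4 : ℝ) ^ k ≤ M) :
    ∑ k ∈ Finset.range K, (if p k then (4 : ℝ) ^ k else 0) ≤ 4 / 3 * M := by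
  induction K with
  | zero => simp; positivity
  | succ K ih =>
    rw [Finset.sum_range_succ]
    by_cases h : p K
    · have h1 : ∑ k ∈ Finset.range K, (if p k then (4 : ℝ) ^ k else 0) ≤
          ∑ k ∈ Finset.range K, (4 : ℝ) ^ k := by
        refine Finset.sum_le_sum fun k _ => ?_
        split_ifs
        · exact le_rfl
        · positivity
      have h2 : ∑ k ∈ Finset.range K, (4 : ℝ) ^ k ≤ (4 : ℝ) ^ K / 3 := by
        rw [geom_sum_eq (by norm_num)]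
        have : (0 : ℝ) < 4 ^ K := by positivity
        rw [show (4 : ℝ) - 1 = 3 by norm_num]
        linarith
      rw [if_pos h]
      have := hM K h
      linarith
    · rw [if_neg h]
      linarith

omit [DecidableEq I] in
/-- the costs of all the cuts -/
theorem cost_sum (δ : ℝ) (hδ : 0 < δ) (y : E3) (x : I → E3) (hx : ∀ i, x i ≠ y) (K : ℕ)
    (f : ℕ → ℝ) (C : ℝ) (hC : 0 ≤ C) (hf : ∀ k, f k ≤ C / (δ / 2 ^ k) ^ 2)
    (hf0 : ∀ k, (∀ i, x i ∉ Metric.ball y (2 * (δ / 2 ^ k))) → f k ≤ 0) :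
    ∑ k ∈ Finset.range K, f k ≤ 16 / 3 * C * near2 y x := by
  classical
  have hn := near2_nonneg y x
  have e : ∀ k : ℕ, C / (δ / 2 ^ k) ^ 2 = C / δ ^ 2 * 4 ^ k := by
    intro k
    rw [div_pow, ← pow_mul, mul_comm k 2, pow_mul]
    norm_num
    field_simp
  have h1 : ∀ k, f k ≤ C / δ ^ 2 * (if (∃ i, x i ∈ Metric.ball y (2 * (δ / 2 ^ k))) then
      (4 : ℝ) ^ k else 0) := by
    intro k
    by_cases h : ∃ i, x i ∈ Metric.ball y (2 * (δ / 2 ^ k))
    · rw [if_pos h, ← e]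
      exact hf k
    · rw [if_neg h, mul_zero]
      push Not at h
      exact hf0 k h
  refine (Finset.sum_le_sum fun k _ => h1 k).trans ?_
  rw [← Finset.mul_sum]
  have h2 := geo4 K (fun k => ∃ i, x i ∈ Metric.ball y (2 * (δ / 2 ^ k)))
    (4 * δ ^ 2 * near2 y x) (by positivity) (by
      rintro k ⟨i, hi⟩
      rw [Metric.mem_ball, dist_eq_norm] at hi
      have h3 : 0 < ‖x i - y‖ := norm_pos_iff.2 (sub_ne_zero.2 (hx i))
      have h4 := le_near2 y x i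
      have h5 : (2 : ℝ) ^ k < 2 * δ * ‖x i - y‖⁻¹ := by
        rw [← div_eq_mul_inv, lt_div_iff₀ h3]
        have h6 : (0 : ℝ) < 2 ^ k := by positivity
        calc (2 : ℝ) ^ k * ‖x i - y‖ < 2 ^ k * (2 * (δ / 2 ^ k)) :=
              mul_lt_mul_of_pos_left hi h6
          _ = 2 * δ := by field_simp
      have h7 : (4 : ℝ) ^ k = (2 ^ k) ^ 2 := by
        rw [← pow_mul, mul_comm, pow_mul]
        norm_num
      rw [h7]
      calc ((2 : ℝ) ^ k) ^ 2 ≤ (2 * δ * ‖x i - y‖⁻¹) ^ 2 :=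
            pow_le_pow_left₀ (by positivity) h5.le 2
        _ = 4 * δ ^ 2 * ‖x i - y‖⁻¹ ^ 2 := by ring
        _ ≤ 4 * δ ^ 2 * near2 y x := mul_le_mul_of_nonneg_left h4 (by positivity))
  calc C / δ ^ 2 * ∑ k ∈ Finset.range K, (if (∃ i, x i ∈ Metric.ball y (2 * (δ / 2 ^ k))) then
        (4 : ℝ) ^ k else 0)
      ≤ C / δ ^ 2 * (4 / 3 * (4 * δ ^ 2 * near2 y x)) :=
        mul_le_mul_of_nonneg_left h2 (by positivity)
    _ = 16 / 3 * C * near2 y x := by
        field_simp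
        ring

end

end Pool.Agent.Helper780_CP
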